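import Pool.Agent.H16.TKA.H27.KAC.Defs

/-! The parts of this file: H27.KAC.IDefs, H27.KAC.KJDefs, H27.KAC.KJ1. -/

section

/-!
Project KAC: definitions used by the statements of `Interface.lean`.
-/

namespace Pool.Agent.H27.KAC

open scoped BigOperators
open Polynomial

/-- Euler derivation `X_j d/dX_j` on power series. -/
noncomputable def eul {I R : Type} [CommRing R] (j : I) (F : MvPowerSeries I R) :
    MvPowerSeries I R :=
  fun d => (d j : R) * MvPowerSeries.coeff d F

/-- The power series `∑ d_i d_j f_d X^d`, i.e. `θ_i θ_j V`, where `V = ∑ f_d X^d`. -/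
noncomputable def wSer {I : Type} (f : (I → ℕ) → ℚ) (i j : I) : MvPowerSeries I ℚ :=
  fun d => (d i : ℚ) * (d j : ℚ) * f (fun l => d l)

/-- Total degree of an exponent. -/
def tdeg {I : Type} [Fintype I] (d : I →₀ ℕ) : ℕ := ∑ i, d i

/-- Kac polynomial at one (rational number; the polynomial exists by `kacPoly_exists`). -/
noncomputable def kacOne {I E : Type} (Q : Quiv I E) (α : I → ℕ) : ℚ := by
  classical
  exact if h : ∃ p : ℚ[X], IsKacPoly Q α p then (Classical.choose h).eval 1 else 0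

end Pool.Agent.H27.KAC

end

section

/-!
KAC part III-b: the data of the Q-system, independent of the quiver.
-/

namespace Pool.Agent.H27.KAC

open scoped BigOperators
open MvPowerSeries

/-- `f` comes from a solution of the Q-system (over the rational numbers). -/
def KacData {I : Type} [Fintype I] [DecidableEq I] (a : I → I → ℕ) (f : (I → ℕ) → ℚ) : Prop :=
  ∃ (T : I → ℕ → MvPowerSeries I ℚ) (G : I → MvPowerSeries I ℚ),
    (∀ i, T i 0 = 1) ∧
    (∀ i k, constantCoeff (T i k) = 1) ∧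
    (∀ i k, (T i (k + 1)) ^ 2 = T i k * T i (k + 2) +
      (X i) ^ (k + 1) * ∏ j, (T j (k + 1)) ^ (a i j)) ∧
    (∀ i k (d : I →₀ ℕ), tdeg d ≤ k → coeff d (T i k) = coeff d (G i)) ∧
    (∀ i j, eul j (G i) = G i * wSer f i j)

section

variable {I : Type} [Fintype I] [DecidableEq I]

/-- Jacobian matrix `θ_j log Y_i`, `Y_i = X_i w_i`. -/
noncomputable def jacM (w : I → (MvPowerSeries I ℚ)ˣ) : Matrix I I (MvPowerSeries I ℚ) :=
  Matrix.of (fun i j => (if i = j then 1 else 0) +
    eul j (w i : MvPowerSeries I ℚ) * (((w i)⁻¹ : (MvPowerSeries I ℚ)ˣ) : MvPowerSeries I ℚ))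

/-- `φ` is the substitution `X_i ↦ X_i w_i`. -/
structure IsSub (w : I → (MvPowerSeries I ℚ)ˣ)
    (φ : MvPowerSeries I ℚ →+* MvPowerSeries I ℚ) : Prop where
  map_X : ∀ i, φ (X i) = X i * (w i : MvPowerSeries I ℚ)
  map_C : ∀ c : ℚ, φ (C c) = C c
  coeff : ∀ (F : MvPowerSeries I ℚ) (α : I →₀ ℕ),
    coeff α (φ F) = ∑ β ∈ Finset.Iic α, coeff β F *
      coeff α (monomial β (1 : ℚ) * (((∏ i, (w i) ^ (β i)) : (MvPowerSeries I ℚ)ˣ) :
        MvPowerSeries I ℚ))

end

end Pool.Agent.H27.KAC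

end

section

/-!
KAC module KJ1: Piola identity and Jacobi's residue lemma for formal power series.

* `der_det`: derivative of a determinant: `θ (det M) = ∑_i det (M with row i replaced by θ (row i))`
  (from `Matrix.det_apply` and the product rule for a finite product).
* `piola`: `adjugate M j r = det (M.updateRow r (Pi.single j 1))` (`Matrix.adjugate_apply`).  Its derivative
  by `θ_j` is the sum over `i ≠ r` of the determinants with row `r := e_j` and row `i := (θ_j M_{il})_l`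
  (row `r` is constant).  For fixed `i`, the sum over `j` is `∑_{j,l} S_{jl} det(r := e_j, i := e_l)`, `S_{jl} = θ_j M_{il}`
  symmetric, the determinant antisymmetric (swap of two rows), so it is zero (characteristic-free: pair
  `(j,l)` with `(l,j)`, diagonal terms have two equal rows).
* `eulD`: the Euler derivation as a `Derivation`.
* `jac_core`: put `θ'_j g = θ_j g - δ_j g`; `coeff δ (θ'_j g) = 0`, `θ'_j (g h) = θ'_j(g) h + g θ_j h`, and
  `θ'_j (w^(-δ)) = - w^(-δ) ∑_i δ_i M_{ij}`, `M = jacM w`.  With `δ r ≠ 0`: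
  `∑_j θ'_j (w^(-δ) adj_{jr}) = - w^(-δ) ∑_i δ_i ∑_j M_{ij} adj_{jr} + w^(-δ) ∑_j θ_j adj_{jr}
  = - δ_r w^(-δ) det M`  (`Matrix.mul_adjugate`, `piola`; `θ_k M_{ij} = θ_j M_{ik}` because
  `θ_k (θ_j w / w) = θ_k θ_j w / w - θ_j w θ_k w / w^2`, and `eul` commute).
-/

namespace Pool.Agent.H27.KAC

open scoped BigOperators
open MvPowerSeries

theorem KJ1_der_prod {S : Type} [CommRing S] {I : Type} [DecidableEq I]
    (θ : Derivation ℤ S S) (s : Finset I) (f : I → S) :
    θ (∏ i ∈ s, f i) = ∑ i ∈ s, ∏ j ∈ s, Function.update f i (θ (f i)) j := by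
  induction s using Finset.induction_on with
  | empty => simp
  | insert a s ha ih =>
    rw [Finset.prod_insert ha, Derivation.leibniz, ih, Finset.sum_insert ha, Finset.prod_insert ha,
      Function.update_self]
    have h1 : ∏ j ∈ s, Function.update f a (θ (f a)) j = ∏ j ∈ s, f j := by
      refine Finset.prod_congr rfl fun j hj => ?_
      rw [Function.update_of_ne]
      rintro rfl
      exact ha hj
    have h2 : ∑ i ∈ s, ∏ j ∈ insert a s, Function.update f i (θ (f i)) j =
        f a * ∑ i ∈ s, ∏ j ∈ s, Function.update f i (θ (f i)) j := by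
      rw [Finset.mul_sum]
      refine Finset.sum_congr rfl fun i hi => ?_
      rw [Finset.prod_insert ha, Function.update_of_ne]
      rintro rfl
      exact ha hi
    rw [h1, h2, smul_eq_mul, smul_eq_mul]
    ring

theorem der_det {S : Type} [CommRing S] {I : Type} [Fintype I] [DecidableEq I]
    (θ : Derivation ℤ S S) (M : Matrix I I S) :
    θ M.det = ∑ i, (M.updateRow i (fun l => θ (M i l))).det := by
  have hrow : ∀ N : Matrix I I S, N.det =
      ∑ σ : Equiv.Perm I, ((Equiv.Perm.sign σ : ℤ) : S) * ∏ i, N i (σ i) := by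
    intro N
    rw [← Matrix.det_transpose, Matrix.det_apply']
    rfl
  rw [hrow M, map_sum]
  simp_rw [hrow]
  rw [Finset.sum_comm]
  refine Finset.sum_congr rfl fun σ _ => ?_
  rw [Derivation.leibniz]
  have h0 : θ ((Equiv.Perm.sign σ : ℤ) : S) = 0 := by
    rcases Int.units_eq_one_or (Equiv.Perm.sign σ) with h | h
    · rw [h]
      simp
    · rw [h]
      simp
  rw [h0, smul_zero, add_zero, KJ1_der_prod, smul_eq_mul, Finset.mul_sum]
  refine Finset.sum_congr rfl fun i _ => ?_
  congr 1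
  refine Finset.prod_congr rfl fun j _ => ?_
  by_cases hj : j = i
  · subst hj
    rw [Function.update_self, Matrix.updateRow_self]
  · rw [Function.update_of_ne hj, Matrix.updateRow_ne hj]

theorem KJ1_det_updateRow {S : Type} [CommRing S] {I : Type} [Fintype I] [DecidableEq I]
    (B : Matrix I I S) (i : I) (v : I → S) :
    (B.updateRow i v).det = ∑ l, v l * (B.updateRow i (Pi.single l 1)).det := by
  rw [Matrix.det_eq_sum_mul_adjugate_row _ i]
  refine Finset.sum_congr rfl fun l _ => ?_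
  rw [Matrix.adjugate_apply, Matrix.updateRow_idem, Matrix.updateRow_self]

theorem KJ1_anti {S : Type} [CommRing S] {I : Type} [Fintype I] [DecidableEq I]
    (M : Matrix I I S) {r i : I} (hri : i ≠ r) (v u : I → S) :
    ((M.updateRow r v).updateRow i u).det = - ((M.updateRow r u).updateRow i v).det := by
  have h : (M.updateRow r v).updateRow i u =
      ((M.updateRow r u).updateRow i v).submatrix (Equiv.swap r i) id := by
    ext a b
    rw [Matrix.submatrix_apply, id]
    by_cases ha : a = i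
    · subst ha
      rw [Matrix.updateRow_self, Equiv.swap_apply_right, Matrix.updateRow_ne hri.symm,
        Matrix.updateRow_self]
    · rw [Matrix.updateRow_ne ha]
      by_cases har : a = r
      · subst har
        rw [Matrix.updateRow_self, Equiv.swap_apply_left, Matrix.updateRow_self]
      · rw [Matrix.updateRow_ne har, Equiv.swap_apply_of_ne_of_ne har ha, Matrix.updateRow_ne ha,
          Matrix.updateRow_ne har]
  rw [h, Matrix.det_permute, Equiv.Perm.sign_swap hri.symm]
  simp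

theorem piola {S : Type} [CommRing S] {I : Type} [Fintype I] [DecidableEq I]
    (θ : I → Derivation ℤ S S) (M : Matrix I I S)
    (hM : ∀ i j k, θ k (M i j) = θ j (M i k)) (r : I) :
    ∑ j, θ j (M.adjugate j r) = 0 := by
  simp_rw [Matrix.adjugate_apply, der_det]
  rw [Finset.sum_comm]
  refine Finset.sum_eq_zero fun i _ => ?_
  by_cases hi : i = r
  · subst hi
    refine Finset.sum_eq_zero fun j _ => ?_
    refine Matrix.det_eq_zero_of_row_eq_zero i fun l => ?_
    rw [Matrix.updateRow_self, Matrix.updateRow_self]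
    by_cases hl : l = j
    · subst hl
      rw [Pi.single_eq_same, Derivation.map_one_eq_zero]
    · rw [Pi.single_eq_of_ne hl, map_zero]
  · have h1 : ∀ j, ((M.updateRow r (Pi.single j 1)).updateRow i
        (fun l => θ j ((M.updateRow r (Pi.single j 1)) i l))).det =
        ∑ l, θ j (M i l) * ((M.updateRow r (Pi.single j 1)).updateRow i (Pi.single l 1)).det := by
      intro j
      rw [KJ1_det_updateRow]
      refine Finset.sum_congr rfl fun l _ => ?_
      rw [Matrix.updateRow_ne hi]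
    simp_rw [h1]
    rw [← Finset.sum_product', Finset.univ_product_univ]
    refine Finset.sum_involution (fun p _ => p.swap) ?_ ?_ ?_ ?_
    · rintro ⟨j, l⟩ _
      change θ j (M i l) * ((M.updateRow r (Pi.single j 1)).updateRow i (Pi.single l 1)).det +
        θ l (M i j) * ((M.updateRow r (Pi.single l 1)).updateRow i (Pi.single j 1)).det = 0
      rw [KJ1_anti M hi (Pi.single j 1) (Pi.single l 1), hM i l j]
      ring
    · rintro ⟨j, l⟩ _ hne heq
      apply hne
      have hjl : l = j := (Prod.mk.inj heq).1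
      subst hjl
      change θ l (M i l) * ((M.updateRow r (Pi.single l 1)).updateRow i (Pi.single l 1)).det = 0
      rw [Matrix.det_zero_of_row_eq hi, mul_zero]
      rw [Matrix.updateRow_self, Matrix.updateRow_ne (Ne.symm hi), Matrix.updateRow_self]
    · rintro p _
      exact Finset.mem_univ _
    · rintro ⟨j, l⟩ _
      rfl

variable {I : Type} [Fintype I] [DecidableEq I]

theorem coeff_eul (j : I) (F : MvPowerSeries I ℚ) (d : I →₀ ℕ) :
    coeff d (eul j F) = (d j : ℚ) * coeff d F := rfl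

theorem eul_add (j : I) (F G : MvPowerSeries I ℚ) : eul j (F + G) = eul j F + eul j G := by
  ext d
  rw [map_add, coeff_eul, coeff_eul, coeff_eul, map_add, mul_add]

theorem eul_mul (j : I) (F G : MvPowerSeries I ℚ) :
    eul j (F * G) = eul j F * G + F * eul j G := by
  ext d
  rw [map_add, coeff_eul, coeff_mul, coeff_mul, coeff_mul, Finset.mul_sum, ← Finset.sum_add_distrib]
  refine Finset.sum_congr rfl fun p hp => ?_
  rw [coeff_eul, coeff_eul]
  have h : p.1 + p.2 = d := Finset.HasAntidiagonal.mem_antidiagonal.1 hp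
  have hj : (d j : ℚ) = (p.1 j : ℚ) + (p.2 j : ℚ) := by
    rw [← h]
    simp
  rw [hj]
  ring

theorem eul_C (j : I) (c : ℚ) : eul j (C c : MvPowerSeries I ℚ) = 0 := by
  ext d
  rw [coeff_eul, coeff_C, map_zero]
  split_ifs with h
  · subst h
    simp
  · rw [mul_zero]

theorem eul_one (j : I) : eul j (1 : MvPowerSeries I ℚ) = 0 := by
  rw [← map_one (C : ℚ →+* MvPowerSeries I ℚ)]
  exact eul_C j 1

theorem eul_comm (j k : I) (F : MvPowerSeries I ℚ) : eul j (eul k F) = eul k (eul j F) := by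
  ext d
  rw [coeff_eul, coeff_eul, coeff_eul, coeff_eul]
  ring

/-- logarithmic derivative is additive. -/
theorem eul_units_mul (j : I) (u v : (MvPowerSeries I ℚ)ˣ) :
    eul j ((u * v : (MvPowerSeries I ℚ)ˣ) : MvPowerSeries I ℚ) *
      (((u * v)⁻¹ : (MvPowerSeries I ℚ)ˣ) : MvPowerSeries I ℚ) =
    eul j (u : MvPowerSeries I ℚ) * ((u⁻¹ : (MvPowerSeries I ℚ)ˣ) : MvPowerSeries I ℚ) +
      eul j (v : MvPowerSeries I ℚ) * ((v⁻¹ : (MvPowerSeries I ℚ)ˣ) : MvPowerSeries I ℚ) := by
  rw [Units.val_mul, eul_mul, mul_inv, Units.val_mul]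
  have hu : (u : MvPowerSeries I ℚ) * ((u⁻¹ : (MvPowerSeries I ℚ)ˣ) : MvPowerSeries I ℚ) = 1 :=
    u.mul_inv
  have hv : (v : MvPowerSeries I ℚ) * ((v⁻¹ : (MvPowerSeries I ℚ)ˣ) : MvPowerSeries I ℚ) = 1 :=
    v.mul_inv
  linear_combination (eul j (u : MvPowerSeries I ℚ) *
    ((u⁻¹ : (MvPowerSeries I ℚ)ˣ) : MvPowerSeries I ℚ)) * hv +
    (eul j (v : MvPowerSeries I ℚ) * ((v⁻¹ : (MvPowerSeries I ℚ)ˣ) : MvPowerSeries I ℚ)) * hu

/-- the logarithmic derivative as a homomorphism -/
noncomputable def KJ1_log (j : I) : (MvPowerSeries I ℚ)ˣ →* Multiplicative (MvPowerSeries I ℚ) where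
  toFun u := Multiplicative.ofAdd (eul j (u : MvPowerSeries I ℚ) *
    ((u⁻¹ : (MvPowerSeries I ℚ)ˣ) : MvPowerSeries I ℚ))
  map_one' := by
    rw [Units.val_one, eul_one, zero_mul]
    rfl
  map_mul' u v := by
    rw [eul_units_mul]
    rfl

theorem KJ1_log_apply (j : I) (u : (MvPowerSeries I ℚ)ˣ) :
    Multiplicative.toAdd (KJ1_log j u) = eul j (u : MvPowerSeries I ℚ) *
      ((u⁻¹ : (MvPowerSeries I ℚ)ˣ) : MvPowerSeries I ℚ) := rfl

theorem eul_units_zpow (j : I) (u : (MvPowerSeries I ℚ)ˣ) (n : ℤ) :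
    eul j ((u ^ n : (MvPowerSeries I ℚ)ˣ) : MvPowerSeries I ℚ) *
      (((u ^ n)⁻¹ : (MvPowerSeries I ℚ)ˣ) : MvPowerSeries I ℚ) =
    (n : MvPowerSeries I ℚ) *
      (eul j (u : MvPowerSeries I ℚ) * ((u⁻¹ : (MvPowerSeries I ℚ)ˣ) : MvPowerSeries I ℚ)) := by
  rw [← KJ1_log_apply, ← KJ1_log_apply, map_zpow, toAdd_zpow, zsmul_eq_mul]

theorem eul_units_prod {ι : Type} (s : Finset ι) (j : I) (u : ι → (MvPowerSeries I ℚ)ˣ) :
    eul j ((∏ i ∈ s, u i : (MvPowerSeries I ℚ)ˣ) : MvPowerSeries I ℚ) *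
      (((∏ i ∈ s, u i)⁻¹ : (MvPowerSeries I ℚ)ˣ) : MvPowerSeries I ℚ) =
    ∑ i ∈ s, eul j (u i : MvPowerSeries I ℚ) *
      (((u i)⁻¹ : (MvPowerSeries I ℚ)ˣ) : MvPowerSeries I ℚ) := by
  rw [← KJ1_log_apply, map_prod, toAdd_prod]
  rfl

/-- additive maps with the product rule are derivations over the integers -/
noncomputable def KJ1_mkD {S : Type} [CommRing S] (f : S → S) (hadd : ∀ a b, f (a + b) = f a + f b)
    (hmul : ∀ a b, f (a * b) = f a * b + a * f b) : Derivation ℤ S S :=
  Derivation.mk' ((AddMonoidHom.mk' f hadd).toIntLinearMap) (by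
    intro a b
    change f (a * b) = a • f b + b • f a
    rw [hmul, smul_eq_mul, smul_eq_mul]
    ring)

/-- the Euler derivation as a derivation over the integers -/
noncomputable def KJ1_eulD (j : I) :=
  KJ1_mkD (S := MvPowerSeries I ℚ) (eul j) (eul_add j) (eul_mul j)

theorem KJ1_eulD_apply (j : I) (F : MvPowerSeries I ℚ) : KJ1_eulD j F = eul j F := rfl

theorem KJ1_eul_inv (j : I) (u : (MvPowerSeries I ℚ)ˣ) :
    eul j ((u⁻¹ : (MvPowerSeries I ℚ)ˣ) : MvPowerSeries I ℚ) =
      - ((u⁻¹ : (MvPowerSeries I ℚ)ˣ) : MvPowerSeries I ℚ) ^ 2 * eul j (u : MvPowerSeries I ℚ) := by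
  have h1 := eul_mul j (u : MvPowerSeries I ℚ) ((u⁻¹ : (MvPowerSeries I ℚ)ˣ) : MvPowerSeries I ℚ)
  have hu : (u : MvPowerSeries I ℚ) * ((u⁻¹ : (MvPowerSeries I ℚ)ˣ) : MvPowerSeries I ℚ) = 1 :=
    u.mul_inv
  rw [hu, eul_one] at h1
  linear_combination (-(((u⁻¹ : (MvPowerSeries I ℚ)ˣ) : MvPowerSeries I ℚ))) * h1 -
    (eul j ((u⁻¹ : (MvPowerSeries I ℚ)ˣ) : MvPowerSeries I ℚ)) * hu

theorem KJ1_jacM_symm (w : I → (MvPowerSeries I ℚ)ˣ) (i j k : I) :
    KJ1_eulD k (jacM w i j) = KJ1_eulD j (jacM w i k) := by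
  rw [KJ1_eulD_apply, KJ1_eulD_apply]
  unfold jacM
  rw [Matrix.of_apply, Matrix.of_apply, eul_add, eul_add, eul_mul, eul_mul, KJ1_eul_inv, KJ1_eul_inv,
    eul_comm k j]
  have h0 : ∀ a b c : I, eul a ((if b = c then 1 else 0 : MvPowerSeries I ℚ)) = 0 := by
    intro a b c
    split_ifs
    · exact eul_one a
    · have := eul_C a 0
      rwa [map_zero] at this
  rw [h0, h0]
  ring

/-- Jacobi's residue lemma. -/
theorem jac_core (w : I → (MvPowerSeries I ℚ)ˣ) (δ : I →₀ ℕ) (hδ : δ ≠ 0) :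
    coeff δ ((((∏ i, (w i) ^ (-(δ i : ℤ))) : (MvPowerSeries I ℚ)ˣ) : MvPowerSeries I ℚ) *
      (jacM w).det) = 0 := by
  obtain ⟨r, hr⟩ : ∃ r, δ r ≠ 0 := by
    by_contra hcon
    push Not at hcon
    apply hδ
    ext i
    exact hcon i
  set U : (MvPowerSeries I ℚ)ˣ := ∏ i, (w i) ^ (-(δ i : ℤ)) with hU
  -- the logarithmic derivative of `U`
  have hlog : ∀ j, eul j (U : MvPowerSeries I ℚ) =
      (U : MvPowerSeries I ℚ) * ((δ j : MvPowerSeries I ℚ) -
        ∑ i, (δ i : MvPowerSeries I ℚ) * jacM w i j) := by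
    intro j
    have h1 := eul_units_prod (Finset.univ) j (fun i => (w i) ^ (-(δ i : ℤ)))
    simp_rw [eul_units_zpow] at h1
    rw [← hU] at h1
    have h2 : ∑ i, (δ i : MvPowerSeries I ℚ) * jacM w i j = (δ j : MvPowerSeries I ℚ) +
        ∑ i, (δ i : MvPowerSeries I ℚ) * (eul j (w i : MvPowerSeries I ℚ) *
          (((w i)⁻¹ : (MvPowerSeries I ℚ)ˣ) : MvPowerSeries I ℚ)) := by
      unfold jacM
      simp_rw [Matrix.of_apply, mul_add, Finset.sum_add_distrib]
      congr 1
      simp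
    have h3 : ∑ i, ((-(δ i : ℤ) : ℤ) : MvPowerSeries I ℚ) * (eul j (w i : MvPowerSeries I ℚ) *
          (((w i)⁻¹ : (MvPowerSeries I ℚ)ˣ) : MvPowerSeries I ℚ)) =
        (δ j : MvPowerSeries I ℚ) - ∑ i, (δ i : MvPowerSeries I ℚ) * jacM w i j := by
      rw [h2, sub_add_cancel_left, ← Finset.sum_neg_distrib]
      refine Finset.sum_congr rfl fun i _ => ?_
      push_cast
      ring
    rw [h3] at h1
    rw [← h1]
    have hu : (U : MvPowerSeries I ℚ) * ((U⁻¹ : (MvPowerSeries I ℚ)ˣ) : MvPowerSeries I ℚ) = 1 :=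
      U.mul_inv
    linear_combination (-(eul j (U : MvPowerSeries I ℚ))) * hu
  have hp := piola (S := MvPowerSeries I ℚ) (I := I) (fun j => KJ1_eulD j) (jacM w) (KJ1_jacM_symm w) r
  simp_rw [KJ1_eulD_apply] at hp
  have hmul : ∀ i, ∑ j, jacM w i j * (jacM w).adjugate j r = if i = r then (jacM w).det else 0 := by
    intro i
    have h1 := congrFun (congrFun (Matrix.mul_adjugate (jacM w)) i) r
    rw [Matrix.mul_apply, Matrix.smul_apply, Matrix.one_apply, smul_eq_mul] at h1
    rw [h1]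
    split_ifs
    · rw [mul_one]
    · rw [mul_zero]
  have hkey : ∑ j, (eul j ((U : MvPowerSeries I ℚ) * (jacM w).adjugate j r) -
      (δ j : MvPowerSeries I ℚ) * ((U : MvPowerSeries I ℚ) * (jacM w).adjugate j r)) =
      - ((δ r : MvPowerSeries I ℚ) * ((U : MvPowerSeries I ℚ) * (jacM w).det)) := by
    have h1 : ∀ j, eul j ((U : MvPowerSeries I ℚ) * (jacM w).adjugate j r) -
        (δ j : MvPowerSeries I ℚ) * ((U : MvPowerSeries I ℚ) * (jacM w).adjugate j r) =
        (U : MvPowerSeries I ℚ) * eul j ((jacM w).adjugate j r) -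
        (U : MvPowerSeries I ℚ) * ∑ i, (δ i : MvPowerSeries I ℚ) *
          (jacM w i j * (jacM w).adjugate j r) := by
      intro j
      rw [eul_mul, hlog j]
      have h2 : ∑ i, (δ i : MvPowerSeries I ℚ) * (jacM w i j * (jacM w).adjugate j r) =
          (∑ i, (δ i : MvPowerSeries I ℚ) * jacM w i j) * (jacM w).adjugate j r := by
        rw [Finset.sum_mul]
        refine Finset.sum_congr rfl fun i _ => ?_
        ring
      rw [h2]
      ring
    simp_rw [h1]
    rw [Finset.sum_sub_distrib, ← Finset.mul_sum, hp, mul_zero, zero_sub, ← Finset.mul_sum,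
      Finset.sum_comm]
    congr 1
    simp_rw [← Finset.mul_sum, hmul, mul_ite, mul_zero]
    rw [Finset.sum_ite_eq' Finset.univ r]
    simp only [Finset.mem_univ, if_true]
    ring
  have hco := congrArg (coeff δ) hkey
  have hcn : ∀ (n : ℕ) (F : MvPowerSeries I ℚ), coeff δ ((n : MvPowerSeries I ℚ) * F) =
      (n : ℚ) * coeff δ F := by
    intro n F
    rw [← map_natCast (C : ℚ →+* MvPowerSeries I ℚ) n, coeff_C_mul]
  rw [map_sum, map_neg, hcn] at hco
  have hz : ∑ j, coeff δ (eul j ((U : MvPowerSeries I ℚ) * (jacM w).adjugate j r) -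
      (δ j : MvPowerSeries I ℚ) * ((U : MvPowerSeries I ℚ) * (jacM w).adjugate j r)) = 0 := by
    refine Finset.sum_eq_zero fun j _ => ?_
    rw [map_sub, coeff_eul, hcn, sub_self]
  rw [hz] at hco
  have hr' : (δ r : ℚ) ≠ 0 := by exact_mod_cast hr
  have h5 : (δ r : ℚ) * coeff δ ((U : MvPowerSeries I ℚ) * (jacM w).det) = 0 := by linarith
  exact (mul_eq_zero.1 h5).resolve_left hr'

end Pool.Agent.H27.KAC

end
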