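import Mathlib

/-! The parts of this file: H27.KAC.PI_Def, H27.KAC.PI_Chart. -/

section

/-!
Project KAC, part I.1 (helper40): definitions for the proof of `hua_log`.

IDEA.  `F` a finite field with `q` elements, `π N` a monic irreducible polynomial of degree `N` over `F`, not `X`,
`L = F[X]/(π N)`.  For a representation `x` and `R = End x` the local identity
  `α_i * #Nil R = ∑_N 1/N ∑_{v ∈ R, v π_N(v) = 0, AIc v} rank (v i) * #{T ∈ R nilpotent, T v = v T}`
is a statement on the finite algebra `R` (proved through `R / rad = ∏ Mat (K_j)`).  Then the triples `(x, v, T)` are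
counted: `v` splits `x` in a representation over `L` (the image of `v`) and a representation over `F` (the kernel of `v`);
the condition `AIc v` means that the representation over `L` is absolutely indecomposable.
-/

set_option autoImplicit false

namespace Pool.Agent.H27.KAC

open scoped BigOperators
open Polynomial

/-- `π` is monic irreducible of degree `N` and is not `X`. -/
structure GoodPi (F : Type) [Field F] (π : F[X]) (N : ℕ) : Prop where
  irr : Irreducible π
  monic : π.Monic
  deg : π.natDegree = N
  zero : π.coeff 0 ≠ 0

section Charts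

variable {F : Type} [Field F] {L : Type} [Field L] [Algebra F L]

/-- A chart for the matrix `v`: after a change of basis `v` is multiplication by `θ` on `L^b` and zero on `F^c`. -/
structure Chart (θ : L) {a : ℕ} (v : Matrix (Fin a) (Fin a) F) (b c : ℕ) where
  Ψ : (Fin a → F) ≃ₗ[F] ((Fin b → L) × (Fin c → F))
  hΨ : ∀ z, Ψ (v.mulVec z) = (θ • (Ψ z).1, 0)

end Charts

section Reps

end Reps

end Pool.Agent.H27.KAC

end

section

/-!
Project KAC, part I.1, module PI_Chart: existence of charts.

`L` is a field extension of `F` of degree `N` generated by a root `θ` of `π`.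

PROOF SKETCH.  `f π(f) = 0` and `X`, `π` are coprime, so `V = ker f ⊕ ker π(f)` (`ker f = range π(f)`,
`ker π(f) = range f`).  `W = ker π(f)` is an `L`-vector space (`F[X]/(π) ≅ L`, `θ` acts by `f`), finite dimensional;
choose bases of `W` over `L` and of `ker f` over `F`.
-/

set_option autoImplicit false

namespace Pool.Agent.H27.KAC

open scoped BigOperators
open Polynomial

/-- an algebra generated by an element whose minimal polynomial has degree the dimension -/
private theorem Chart_gen {F : Type} [Field F] {L : Type} [Field L] [Algebra F L] [Module.Finite F L] (θ : L)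
    (h : (minpoly F θ).natDegree = Module.finrank F L) (l : L) : ∃ f : F[X], aeval θ f = l := by
  have hint : IsIntegral F θ := Algebra.IsIntegral.isIntegral θ
  have h1 : Module.finrank F (Algebra.adjoin F ({θ} : Set L)) = Module.finrank F L := by
    rw [← h, (Algebra.adjoin.powerBasis hint).finrank, Algebra.adjoin.powerBasis_dim]
  have h2 : Subalgebra.toSubmodule (Algebra.adjoin F ({θ} : Set L)) = ⊤ := by
    apply Submodule.eq_top_of_finrank_eq
    exact h1
  have h3 : l ∈ Subalgebra.toSubmodule (Algebra.adjoin F ({θ} : Set L)) := by
    rw [h2]; trivial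
  have h4 : l ∈ Algebra.adjoin F ({θ} : Set L) := h3
  rw [Algebra.adjoin_singleton_eq_range_aeval] at h4
  obtain ⟨f, hf⟩ := h4
  exact ⟨f, hf⟩

section

variable {F : Type} [Field F] {π : F[X]} {N : ℕ} (hπ : GoodPi F π N) {L : Type} [Field L]
  [Algebra F L] (θ : L) (hθ : aeval θ π = 0) (hL : Module.finrank F L = N)

include hπ hθ hL

/-- the powers of `θ` generate `L`. -/
theorem exists_poly_of_mem (l : L) : ∃ f : F[X], aeval θ f = l := by
  have hmin : π = minpoly F θ := minpoly.eq_of_irreducible_of_monic hπ.irr hθ hπ.monic
  have hpos : 0 < Module.finrank F L := by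
    rw [hL, ← hπ.deg]
    exact hπ.irr.natDegree_pos
  have : Module.Finite F L := Module.finite_of_finrank_pos hpos
  exact Chart_gen θ (by rw [← hmin, hπ.deg, hL]) l

omit hL in
theorem theta_ne_zero : θ ≠ 0 := by
  intro h
  rw [h, ← coeff_zero_eq_aeval_zero'] at hθ
  exact hπ.zero ((map_eq_zero _).1 hθ)

end

end Pool.Agent.H27.KAC

end
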