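import Pool.Agent.H16.TKA.H27.KAC.Defs

/-! The parts of this file: H27.KAC.Defs_1, H27.KAC.KQBasic, H27.KAC.KQBasic_1. -/

section

/-!
Project KAC (MP_6d5dd1_al): basic definitions.
-/

namespace Pool.Agent.H27.KAC

open scoped BigOperators
open Polynomial

section Reps

variable {I E : Type}

/-- The symmetric adjacency matrix: number of arrows `i → j` plus number of arrows `j → i`
(so twice the number of loops on the diagonal). -/
def adj (Q : Quiv I E) [Fintype E] [DecidableEq I] (i j : I) : ℕ :=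
  (Finset.univ.filter (fun e : E => Q.src e = i ∧ Q.tgt e = j)).card +
    (Finset.univ.filter (fun e : E => Q.src e = j ∧ Q.tgt e = i)).card

end Reps

section Matrices

variable {I : Type} [Fintype I] [DecidableEq I]

/-- The Cartan matrix `2 - adj`. -/
def cart (a : I → I → ℕ) (i j : I) : ℤ := (if i = j then 2 else 0) - (a i j : ℤ)

/-- `sw a α i = -(C α)_i`. -/
def sw (a : I → I → ℕ) (α : I → ℕ) (i : I) : ℤ := -∑ j, cart a i j * (α j : ℤ)

/-- the sum `∑_{k ∣ α} g (α / k) / k^2`  (over `k ≥ 1` dividing all entries of `α ≠ 0`). -/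
noncomputable def fOf (g : (I → ℕ) → ℚ) (α : I → ℕ) : ℚ :=
  ∑ k ∈ (Finset.range (∑ i, α i + 1)).filter (fun k => 1 ≤ k ∧ ∀ i, k ∣ α i),
    g (fun i => α i / k) / (k : ℚ) ^ 2

end Matrices

end Pool.Agent.H27.KAC

end

section

/-!
Project KAC, part III: the normalised Q-system (`U_{i0} = U_{i1} = 1`), derivations, filtrations,
frontier integrals.  Power series ring `S I = MvPowerSeries I ℚ` in the variables `Y_i`.
Bookkeeping: a monomial `t^e Y^β` has `t_x`-exponent `e_x - (C β)_x`.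
-/

namespace Pool.Agent.H27.KAC

open scoped BigOperators
open MvPowerSeries

section

variable {I : Type} [Fintype I] [DecidableEq I]

/-- successive pairs `(U_k, U_{k+1})` of the normalised Q-system. -/
noncomputable def uPair (a : I → I → ℕ) :
    ℕ → (I → MvPowerSeries I ℚ) × (I → MvPowerSeries I ℚ)
  | 0 => (fun _ => 1, fun _ => 1)
  | k + 1 => ((uPair a k).2, fun i =>
      ((uPair a k).2 i ^ 2 - (X i) ^ (k + 1) * ∏ j, (uPair a k).2 j ^ (a i j)) *
        ((uPair a k).1 i)⁻¹)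

/-- `U_{ik}` as a power series. -/
noncomputable def uS (a : I → I → ℕ) (i : I) (k : ℕ) : MvPowerSeries I ℚ := (uPair a k).1 i

theorem uS_zero (a : I → I → ℕ) (i : I) : uS a i 0 = 1 := rfl

theorem uS_one (a : I → I → ℕ) (i : I) : uS a i 1 = 1 := rfl

theorem uS_const (a : I → I → ℕ) (i : I) (k : ℕ) : constantCoeff (uS a i k) = 1 := by
  have h : ∀ k, (∀ i, constantCoeff ((uPair a k).1 i) = 1) ∧
      (∀ i, constantCoeff ((uPair a k).2 i) = 1) := by
    intro k
    induction k with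
    | zero => exact ⟨fun _ => by simp [uPair], fun _ => by simp [uPair]⟩
    | succ k ih =>
      refine ⟨fun i => ih.2 i, fun i => ?_⟩
      simp only [uPair]
      rw [map_mul, map_sub, map_pow, ih.2 i, map_mul, map_pow, constantCoeff_X]
      simp [MvPowerSeries.constantCoeff_inv, ih.1 i]
  exact (h k).1 i

theorem uS_rec (a : I → I → ℕ) (i : I) (k : ℕ) :
    uS a i (k + 2) * uS a i k =
      uS a i (k + 1) ^ 2 - (X i) ^ (k + 1) * ∏ j, uS a j (k + 1) ^ (a i j) := by
  have h0 : constantCoeff (uS a i k) ≠ 0 := by rw [uS_const]; exact one_ne_zero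
  have h1 : uS a i (k + 2) =
      (uS a i (k + 1) ^ 2 - (X i) ^ (k + 1) * ∏ j, uS a j (k + 1) ^ (a i j)) * (uS a i k)⁻¹ := rfl
  rw [h1, mul_assoc, MvPowerSeries.inv_mul_cancel _ h0, mul_one]

theorem uS_isUnit (a : I → I → ℕ) (i : I) (k : ℕ) : IsUnit (uS a i k) := by
  rw [MvPowerSeries.isUnit_iff_constantCoeff, uS_const]
  exact isUnit_one

/-- `U_{ik}` as a unit. -/
noncomputable def uu (a : I → I → ℕ) (i : I) (k : ℕ) : (MvPowerSeries I ℚ)ˣ :=
  (uS_isUnit a i k).unit

theorem uu_coe (a : I → I → ℕ) (i : I) (k : ℕ) :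
    ((uu a i k : (MvPowerSeries I ℚ)ˣ) : MvPowerSeries I ℚ) = uS a i k := rfl

/-- matrix with columns `c i`. -/
def colMat (c : I → I → MvPowerSeries I ℚ) : Matrix I I (MvPowerSeries I ℚ) :=
  Matrix.of (fun l i => c i l)

/-- raw integral: coefficient of `Y^γ` in `F * det (columns c i)`. -/
noncomputable def raw (γ : I →₀ ℕ) (F : MvPowerSeries I ℚ) (c : I → I → MvPowerSeries I ℚ) : ℚ :=
  coeff γ (F * (colMat c).det)

/-- A frontier state. `H l i` is the coefficient of the lower form of `l` in column `i`. -/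
structure Sta (I : Type) where
  κ : I → ℕ
  P : I → ℤ
  p : I → ℤ
  H : I → I → ℚ

/-- the product of the powers of the `U`'s. -/
noncomputable def facS (a : I → I → ℕ) (σ : Sta I) : MvPowerSeries I ℚ :=
  ((∏ i, ((uu a i (σ.κ i)) ^ (-(σ.P i)) * (uu a i (σ.κ i - 1)) ^ (σ.p i)) :
    (MvPowerSeries I ℚ)ˣ) : MvPowerSeries I ℚ)

end

end Pool.Agent.H27.KAC

end

section

/-!
Project KAC, part III: the normalised Q-system (`U_{i0} = U_{i1} = 1`), derivations, filtrations,
frontier integrals.  Power series ring `S I = MvPowerSeries I ℚ` in the variables `Y_i`.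
Bookkeeping: a monomial `t^e Y^β` has `t_x`-exponent `e_x - (C β)_x`.
-/

namespace Pool.Agent.H27.KAC

open scoped BigOperators
open MvPowerSeries

section

variable {I : Type} [Fintype I] [DecidableEq I]

/-- `(C β)_x`. -/
def cw (a : I → I → ℕ) (β : I →₀ ℕ) (x : I) : ℤ := ∑ j, cart a x j * (β j : ℤ)

theorem cw_add (a : I → I → ℕ) (β γ : I →₀ ℕ) (x : I) : cw a (β + γ) x = cw a β x + cw a γ x := by
  simp [cw, mul_add, Finset.sum_add_distrib]

theorem cw_zero (a : I → I → ℕ) (x : I) : cw a 0 x = 0 := by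
  simp [cw]

/-- the derivation `D_l : Y^β ↦ -(Cβ)_l Y^β`. -/
noncomputable def dD (a : I → I → ℕ) (l : I) (F : MvPowerSeries I ℚ) : MvPowerSeries I ℚ :=
  fun β => (-(cw a β l : ℤ) : ℚ) * MvPowerSeries.coeff β F

/-- logarithmic derivative vector of a unit. -/
noncomputable def dlg (a : I → I → ℕ) (u : (MvPowerSeries I ℚ)ˣ) (l : I) : MvPowerSeries I ℚ :=
  dD a l (u : MvPowerSeries I ℚ) * ((u⁻¹ : (MvPowerSeries I ℚ)ˣ) : MvPowerSeries I ℚ)

/-- the one-form `x_{ik} = d log (t_i^k U_{ik})` as the vector of its components. -/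
noncomputable def xv (a : I → I → ℕ) (i : I) (k : ℕ) (l : I) : MvPowerSeries I ℚ :=
  (if i = l then (k : MvPowerSeries I ℚ) else 0) + dlg a (uu a i k) l

/-- filtration: all monomials `Y^β` of `F` satisfy `(Cβ)_x ≤ r`. -/
def Fil (a : I → I → ℕ) (x : I) (r : ℤ) (F : MvPowerSeries I ℚ) : Prop :=
  ∀ β : I →₀ ℕ, coeff β F ≠ 0 → cw a β x ≤ r

/-- a vector (one-form) regular in `t_x`, of degree `r`. -/
def VReg (a : I → I → ℕ) (x : I) (r : ℤ) (v : I → MvPowerSeries I ℚ) : Prop :=
  (∀ l, l ≠ x → Fil a x r (v l)) ∧ Fil a x (r - 1) (v x)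

/-- column `i` of a state: `u_i - ∑ H l i v_l`. -/
noncomputable def colS (a : I → I → ℕ) (σ : Sta I) (i : I) (l : I) : MvPowerSeries I ℚ :=
  xv a i (σ.κ i) l - ∑ l', C (σ.H l' i) * xv a l' (σ.κ l' - 1) l

/-- value of a frontier state. -/
noncomputable def Val (a : I → I → ℕ) (γ : I →₀ ℕ) (σ : Sta I) : ℚ :=
  raw γ (facS a σ) (colS a σ)

end

end Pool.Agent.H27.KAC

end
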