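import Pool.Agent.H16.TKA.M04

/-! The parts of this file: H27.KAC.KQDer, H27.KAC.KQLaur. -/

section

/-!
KAC module KQDer: the derivations `dD a l`, logarithmic derivatives `dlg`.

All statements are elementary.  `dD a l` multiplies the coefficient of `Y^β` by `-(Cβ)_l`, and
`β ↦ (Cβ)_l` is additive, so `dD a l` is a derivation (product rule by
`MvPowerSeries.coeff_mul` and `Finset.sum` over the antidiagonal).
-/

namespace Pool.Agent.H27.KAC

open scoped BigOperators
open MvPowerSeries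

variable {I : Type} [Fintype I] [DecidableEq I]

theorem coeff_dD (a : I → I → ℕ) (l : I) (F : MvPowerSeries I ℚ) (β : I →₀ ℕ) :
    coeff β (dD a l F) = (-(cw a β l : ℤ) : ℚ) * coeff β F := rfl

theorem dD_sub (a : I → I → ℕ) (l : I) (F G : MvPowerSeries I ℚ) :
    dD a l (F - G) = dD a l F - dD a l G := by
  ext β
  rw [map_sub, coeff_dD, coeff_dD, coeff_dD, map_sub, mul_sub]

theorem dD_mul (a : I → I → ℕ) (l : I) (F G : MvPowerSeries I ℚ) :
    dD a l (F * G) = dD a l F * G + F * dD a l G := by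
  ext β
  rw [map_add, coeff_dD, coeff_mul, coeff_mul, coeff_mul, Finset.mul_sum,
    ← Finset.sum_add_distrib]
  refine Finset.sum_congr rfl fun p hp => ?_
  rw [coeff_dD, coeff_dD]
  have h : p.1 + p.2 = β := Finset.HasAntidiagonal.mem_antidiagonal.1 hp
  rw [← h, cw_add]
  push_cast
  ring

theorem dD_one (a : I → I → ℕ) (l : I) : dD a l 1 = 0 := by
  have h := dD_mul a l 1 1
  rw [mul_one, mul_one, one_mul] at h
  exact left_eq_add.1 h

theorem dD_pow (a : I → I → ℕ) (l : I) (F : MvPowerSeries I ℚ) (n : ℕ) :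
    dD a l (F ^ (n + 1)) = ((n + 1 : ℕ) : MvPowerSeries I ℚ) * F ^ n * dD a l F := by
  induction n with
  | zero => simp
  | succ n ih =>
    rw [pow_succ F (n + 1), dD_mul, ih]
    push_cast
    ring

/-- `D_l (Y_i^n) = -n C_{li} Y_i^n`. -/
theorem dD_X_pow (a : I → I → ℕ) (l i : I) (n : ℕ) :
    dD a l ((X i : MvPowerSeries I ℚ) ^ n) =
      C (-((n : ℚ) * (cart a l i : ℤ))) * (X i : MvPowerSeries I ℚ) ^ n := by
  ext β
  rw [coeff_dD, coeff_C_mul, coeff_X_pow]
  split_ifs with h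
  · subst h
    have : cw a (Finsupp.single i n) l = cart a l i * (n : ℤ) := by
      unfold cw
      rw [Finset.sum_eq_single i]
      · simp
      · intro j _ hj
        rw [Finsupp.single_eq_of_ne hj]
        simp
      · intro h
        exact absurd (Finset.mem_univ i) h
    rw [this]
    push_cast
    ring
  · simp

theorem dlg_one (a : I → I → ℕ) (l : I) : dlg a 1 l = 0 := by
  unfold dlg
  rw [Units.val_one, dD_one, zero_mul]

theorem dlg_mul (a : I → I → ℕ) (u v : (MvPowerSeries I ℚ)ˣ) (l : I) :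
    dlg a (u * v) l = dlg a u l + dlg a v l := by
  unfold dlg
  rw [Units.val_mul, dD_mul, mul_inv_rev, Units.val_mul]
  have hu : (u : MvPowerSeries I ℚ) * ((u⁻¹ : (MvPowerSeries I ℚ)ˣ) : MvPowerSeries I ℚ) = 1 :=
    Units.mul_inv u
  have hv : (v : MvPowerSeries I ℚ) * ((v⁻¹ : (MvPowerSeries I ℚ)ˣ) : MvPowerSeries I ℚ) = 1 :=
    Units.mul_inv v
  linear_combination (dD a l (u : MvPowerSeries I ℚ) * ((u⁻¹ : (MvPowerSeries I ℚ)ˣ) : MvPowerSeries I ℚ)) * hv +
    (dD a l (v : MvPowerSeries I ℚ) * ((v⁻¹ : (MvPowerSeries I ℚ)ˣ) : MvPowerSeries I ℚ)) * hu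

theorem dlg_inv (a : I → I → ℕ) (u : (MvPowerSeries I ℚ)ˣ) (l : I) :
    dlg a u⁻¹ l = - dlg a u l := by
  have h := dlg_mul a u u⁻¹ l
  rw [mul_inv_cancel, dlg_one] at h
  exact (neg_eq_of_add_eq_zero_right h.symm).symm

theorem KQDer_dlg_pow (a : I → I → ℕ) (u : (MvPowerSeries I ℚ)ˣ) (n : ℕ) (l : I) :
    dlg a (u ^ n) l = (n : MvPowerSeries I ℚ) * dlg a u l := by
  induction n with
  | zero => rw [pow_zero, dlg_one, Nat.cast_zero, zero_mul]
  | succ n ih =>
    rw [pow_succ, dlg_mul, ih]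
    push_cast
    ring

theorem dlg_zpow (a : I → I → ℕ) (u : (MvPowerSeries I ℚ)ˣ) (n : ℤ) (l : I) :
    dlg a (u ^ n) l = (n : MvPowerSeries I ℚ) * dlg a u l := by
  cases n with
  | ofNat n =>
    rw [Int.ofNat_eq_natCast, zpow_natCast, KQDer_dlg_pow, Int.cast_natCast]
  | negSucc n =>
    rw [zpow_negSucc, dlg_inv, KQDer_dlg_pow]
    push_cast
    ring

theorem dlg_prod {ι : Type} (a : I → I → ℕ) (s : Finset ι) (u : ι → (MvPowerSeries I ℚ)ˣ) (l : I) :
    dlg a (∏ j ∈ s, u j) l = ∑ j ∈ s, dlg a (u j) l := by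
  classical
  induction s using Finset.induction_on with
  | empty => simp [dlg_one]
  | insert j s hj ih => rw [Finset.prod_insert hj, Finset.sum_insert hj, dlg_mul, ih]

/-- `D_l F = F * dlg F`. -/
theorem dD_eq_dlg (a : I → I → ℕ) (u : (MvPowerSeries I ℚ)ˣ) (l : I) :
    dD a l (u : MvPowerSeries I ℚ) = (u : MvPowerSeries I ℚ) * dlg a u l := by
  unfold dlg
  have hu : (u : MvPowerSeries I ℚ) * ((u⁻¹ : (MvPowerSeries I ℚ)ˣ) : MvPowerSeries I ℚ) = 1 :=
    Units.mul_inv u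
  linear_combination (-(dD a l (u : MvPowerSeries I ℚ))) * hu

theorem xv_zero (a : I → I → ℕ) (i l : I) : xv a i 0 l = 0 := by
  unfold xv
  have h : uu a i 0 = 1 := by
    apply Units.ext
    rw [uu_coe, uS_zero, Units.val_one]
  rw [h, dlg_one]
  simp

theorem xv_one (a : I → I → ℕ) (i l : I) : xv a i 1 l = if i = l then 1 else 0 := by
  unfold xv
  have h : uu a i 1 = 1 := by
    apply Units.ext
    rw [uu_coe, uS_one, Units.val_one]
  rw [h, dlg_one]
  simp

end Pool.Agent.H27.KAC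

end

section

/-!
KAC module KQLaur: the Laurent phenomenon for the normalised Q-system.

Let `x` be a vertex without loops (`a x x = 0`), `a` symmetric.  Then
(A_k) `Fil a x 0 (uS a j k)` for all `j ≠ x`, and (B_k) `Fil a x k (uS a x k)`.
Proof by strong induction on `k` (`k = 0, 1` trivial).  Write `u_k = uS a x k`,
`c_k = (X x)^k * ∏_{l} (uS a l k)^(a x l)` (the factor `l = x` is trivial), so that
(R) `u_{k+1} u_{k-1} = u_k^2 - c_k`  (k ≥ 1).
* (A_{k+1}) from `uS_rec`: `(X j)^k` lies in `Fil (k * cart x j)`, `cart x j = - a x j`, and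
  `uS a x k ^ (a j x)` in `Fil (k * a j x)`; inverse of `uS a j (k-1)` by `Fil_inv`.
* (B_2): `u_2 = 1 - c_1`, `c_1 = X x`, `(C e_x)_x = 2`.
* (B_{k+1}), k ≥ 2.  For `l ≠ x` with `a x l > 0`:
  `uS l k * uS l (k-2) = (uS l (k-1))^2 - u_{k-1} * g_l` with
  `g_l = (X l)^(k-1) * u_{k-1}^(a l x - 1) * ∏_{j ≠ x} (uS j (k-1))^(a l j)`.
  Taking the product over `l` (with multiplicity `a x l`) and multiplying by `(X x)^(2k-2)`:
  (E) `c_k * c_{k-2} = c_{k-1}^2 - u_{k-1} * e` with an explicit `e`; its filtration degree: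
  in terms of `t_x`-degrees `c_k` has degree 0 (that is, `c_k ∈ Fil (2k)`, because
  `(X x)^k ∈ Fil (2k)`), `u_{k-1} ∈ Fil (k-1)`, `e ∈ Fil (3k-3)`.  (Easiest: prove
  by induction on a finset/list the statement
  `∏ (A_l - u B_l) = ∏ A_l - u * E` with `E ∈ Fil (...)`.)
  Then `c_{k-2} * (u_k^2 - c_k) = u_{k-1} * (u_{k-1}^3 - 2 u_{k-1} c_{k-1} - u_{k-3} u_k^2 + e)`
  for `k ≥ 3` (use (R) at `k-1` and `k-2`), and for `k = 2` the same with `c_0 = 1`, `u_{-1} = 0`
  (directly: `u_2^2 - c_2 = (1 - c_1)^2 - c_2`, `c_2 = c_1^2 - e`, as `u_1 = u_0 = 1`).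
  So `u_{k+1} = (X x)^(-(k-2)) ...`: more precisely, with
  `d := ∏_{l} (uS l (k-2))^(a x l)` (a unit in `Fil 0`), `(X x)^(k-2) * d * u_{k+1}` is equal to
  `u_{k-1}^3 - 2 u_{k-1} c_{k-1} - u_{k-3} u_k^2 + e ∈ Fil (3k-3)`; since
  multiplication by `(X x)^(k-2)` shifts `(Cβ)_x` by exactly `2(k-2)`, we get
  `d * u_{k+1} ∈ Fil (3k - 3 - 2(k-2)) = Fil (k+1)`, and then divide by `d`.
-/

namespace Pool.Agent.H27.KAC

open scoped BigOperators
open MvPowerSeries

variable {I : Type} [Fintype I] [DecidableEq I]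

/-- Cancelling a power of `X x`. -/
theorem KQLaur_cancel {a : I → I → ℕ} {x : I} (hx : a x x = 0) {F : MvPowerSeries I ℚ} {r : ℤ}
    (m : ℕ) (h : Fil a x (r + 2 * m) ((X x : MvPowerSeries I ℚ) ^ m * F)) : Fil a x r F := by
  intro β hβ
  have h1 : coeff (Finsupp.single x m + β) ((X x : MvPowerSeries I ℚ) ^ m * F) = coeff β F := by
    rw [X_pow_eq, coeff_add_monomial_mul, one_mul]
  have h2 := h (Finsupp.single x m + β) (by rw [h1]; exact hβ)
  rw [cw_add] at h2
  have h3 : cw a (Finsupp.single x m) x = 2 * m := by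
    unfold cw
    rw [Finset.sum_eq_single x]
    · simp [cart, hx]
    · intro j _ hj
      rw [Finsupp.single_eq_of_ne hj]
      simp
    · intro hx'
      exact absurd (Finset.mem_univ x) hx'
  omega

/-- The exchange term at the vertex `x`. -/
noncomputable def KQLaur_c (a : I → I → ℕ) (x : I) (k : ℕ) : MvPowerSeries I ℚ :=
  (X x) ^ k * ∏ l, uS a l k ^ (a x l)

theorem KQLaur_rel (a : I → I → ℕ) (x : I) (k : ℕ) :
    uS a x (k + 2) * uS a x k = uS a x (k + 1) ^ 2 - KQLaur_c a x (k + 1) := uS_rec a x k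

theorem KQLaur_prod_const (a : I → I → ℕ) (x : I) (k : ℕ) :
    constantCoeff (∏ l, uS a l k ^ (a x l)) = 1 := by
  rw [map_prod]
  refine Finset.prod_eq_one (fun l _ => ?_)
  rw [map_pow, uS_const, one_pow]

end Pool.Agent.H27.KAC

end
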