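import Pool.Agent.H16.TKA.H27.KAC.PI_Chart_1
import Pool.Agent.H16.TKA.M01
import Pool.Agent.H16.TKA.M03
import Pool.Agent.H16.TKA.M05

/-! The parts of this file: H27.KAC.KJ2, H27.KAC.KJ3, H27.KAC.PI_Loc1, H27.KAC.PI_Loc. -/

section

/-!
KAC module KJ2: the substitution `X_i ↦ X_i w_i` and the residue formula.

* `exists_sub`: existence of the ring homomorphism with its coefficient formula.  Either through
  `MvPowerSeries.subst` (Mathlib, `HasSubst`: the `X_i w_i` have constant coefficient zero, `I` finite), or directly: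
  define `φ F` by the coefficient formula; multiplicativity: `coeff α (X^β w^β)` vanishes unless `β ≤ α`,
  and both sides of `φ (F G) = φ F φ G` have the same coefficient at `α` because
  `X^(β+β') w^(β+β') = X^β w^β X^β' w^β'`.
* `IsSub.coeff_mul`: `coeff α (φ F * g) = ∑_{β ≤ α} F_β coeff α (X^β w^β g)`.
* `IsSub.chain`: `θ_j (φ F) = ∑_l φ (θ_l F) * (jacM w) l j`: compare coefficients with `IsSub.coeff_mul`;
  `θ_j (X^β w^β) = X^β w^β ∑_l β_l (jacM w) l j`.
* `residue`: by `IsSub.coeff_mul` it is enough to see that `coeff α (X^β w^β w^(-α) det) = 1` if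
  `β = α` and `0` if `β ≤ α`, `β ≠ α`: it is `coeff (α - β) (w^(-(α-β)) det)`, `jac_core`; for `β = α` the
  constant coefficient of the determinant is the determinant of the identity matrix.
-/

namespace Pool.Agent.H27.KAC

open scoped BigOperators
open MvPowerSeries

variable {I : Type} [Fintype I] [DecidableEq I]

/-- the unit `w^β`. -/
noncomputable def KJ2_W (w : I → (MvPowerSeries I ℚ)ˣ) (β : I →₀ ℕ) : (MvPowerSeries I ℚ)ˣ :=
  ∏ i, (w i) ^ (β i)

theorem KJ2_prod (w : I → (MvPowerSeries I ℚ)ˣ) (β : I →₀ ℕ) :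
    (β.prod fun s e => (X s * (w s : MvPowerSeries I ℚ)) ^ e) =
      monomial β (1 : ℚ) * ((KJ2_W w β : (MvPowerSeries I ℚ)ˣ) : MvPowerSeries I ℚ) := by
  rw [MvPowerSeries.monomial_eq', map_one, one_mul, Finsupp.prod_fintype _ _ (fun i => pow_zero _),
    Finsupp.prod_fintype _ _ (fun i => pow_zero _), KJ2_W, Units.coe_prod,
    ← Finset.prod_mul_distrib]
  refine Finset.prod_congr rfl fun i _ => ?_
  rw [mul_pow, Units.val_pow_eq_pow_val]

theorem KJ2_coeff_zero {α β : I →₀ ℕ} (h : ¬ β ≤ α) (g : MvPowerSeries I ℚ) :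
    MvPowerSeries.coeff α (monomial β (1 : ℚ) * g) = 0 := by
  classical
  rw [MvPowerSeries.coeff_monomial_mul, if_neg h]

theorem exists_sub (w : I → (MvPowerSeries I ℚ)ˣ) :
    ∃ φ : MvPowerSeries I ℚ →+* MvPowerSeries I ℚ, IsSub w φ := by
  classical
  have ha : HasSubst (fun i : I => (X i * (w i : MvPowerSeries I ℚ) : MvPowerSeries I ℚ)) :=
    hasSubst_of_constantCoeff_zero (fun s => by
      rw [map_mul, MvPowerSeries.constantCoeff_X, zero_mul])
  refine ⟨(substAlgHom (R := ℚ) ha : MvPowerSeries I ℚ →ₐ[ℚ] MvPowerSeries I ℚ), ?_, ?_, ?_⟩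
  · intro i
    exact substAlgHom_X (R := ℚ) ha i
  · intro c
    exact (substAlgHom (R := ℚ) ha).commutes c
  · intro F α
    show MvPowerSeries.coeff α (substAlgHom (R := ℚ) ha F) = _
    rw [substAlgHom_apply, coeff_subst ha]
    rw [finsum_eq_sum_of_support_subset (s := Finset.Iic α)]
    · refine Finset.sum_congr rfl fun β _ => ?_
      rw [KJ2_prod, smul_eq_mul]
      rfl
    · intro β hβ
      rw [Function.mem_support] at hβ
      rw [Finset.mem_coe, Finset.mem_Iic]
      by_contra hc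
      apply hβ
      rw [KJ2_prod, KJ2_coeff_zero hc, smul_zero]

theorem IsSub.coeff_mul {w : I → (MvPowerSeries I ℚ)ˣ}
    {φ : MvPowerSeries I ℚ →+* MvPowerSeries I ℚ} (h : IsSub w φ) (F g : MvPowerSeries I ℚ)
    (α : I →₀ ℕ) :
    MvPowerSeries.coeff α (φ F * g) = ∑ β ∈ Finset.Iic α, MvPowerSeries.coeff β F *
      MvPowerSeries.coeff α (monomial β (1 : ℚ) *
        (((∏ i, (w i) ^ (β i)) : (MvPowerSeries I ℚ)ˣ) : MvPowerSeries I ℚ) * g) := by
  classical
  rw [MvPowerSeries.coeff_mul]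
  have h1 : ∀ p ∈ Finset.HasAntidiagonal.antidiagonal α,
      MvPowerSeries.coeff p.1 (φ F) * MvPowerSeries.coeff p.2 g =
      ∑ β ∈ Finset.Iic α, MvPowerSeries.coeff β F * (MvPowerSeries.coeff p.1 (monomial β (1 : ℚ) *
        (((∏ i, (w i) ^ (β i)) : (MvPowerSeries I ℚ)ˣ) : MvPowerSeries I ℚ)) *
        MvPowerSeries.coeff p.2 g) := by
    intro p hp
    rw [Finset.HasAntidiagonal.mem_antidiagonal] at hp
    rw [h.coeff, Finset.sum_mul]
    have hpα : p.1 ≤ α := by
      rw [← hp]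
      exact le_self_add
    rw [← Finset.sum_subset (Finset.Iic_subset_Iic.2 hpα)]
    · exact Finset.sum_congr rfl fun β _ => by rw [mul_assoc]
    · intro β _ hβ
      rw [Finset.mem_Iic] at hβ
      rw [KJ2_coeff_zero hβ, zero_mul, mul_zero]
  rw [Finset.sum_congr rfl h1, Finset.sum_comm]
  refine Finset.sum_congr rfl fun β _ => ?_
  rw [← Finset.mul_sum, ← MvPowerSeries.coeff_mul]

theorem KJ2_eul_monomial (j : I) (β : I →₀ ℕ) :
    eul j (monomial β (1 : ℚ)) = (β j : MvPowerSeries I ℚ) * monomial β (1 : ℚ) := by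
  classical
  ext d
  rw [coeff_eul, ← map_natCast (MvPowerSeries.C (σ := I) (R := ℚ)), MvPowerSeries.coeff_C_mul,
    MvPowerSeries.coeff_monomial]
  split_ifs with hd
  · rw [hd]
  · simp

theorem KJ2_eul_unit (j : I) (u : (MvPowerSeries I ℚ)ˣ) :
    eul j (u : MvPowerSeries I ℚ) = (u : MvPowerSeries I ℚ) *
      (eul j (u : MvPowerSeries I ℚ) * ((u⁻¹ : (MvPowerSeries I ℚ)ˣ) : MvPowerSeries I ℚ)) := by
  rw [mul_comm (eul j (u : MvPowerSeries I ℚ)), ← mul_assoc, Units.mul_inv, one_mul]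

theorem KJ2_eul_W (w : I → (MvPowerSeries I ℚ)ˣ) (β : I →₀ ℕ) (j : I) :
    eul j (monomial β (1 : ℚ) * ((KJ2_W w β : (MvPowerSeries I ℚ)ˣ) : MvPowerSeries I ℚ)) =
      monomial β (1 : ℚ) * ((KJ2_W w β : (MvPowerSeries I ℚ)ˣ) : MvPowerSeries I ℚ) *
        ∑ l, (β l : MvPowerSeries I ℚ) * jacM w l j := by
  have h1 : eul j ((KJ2_W w β : (MvPowerSeries I ℚ)ˣ) : MvPowerSeries I ℚ) *
      (((KJ2_W w β)⁻¹ : (MvPowerSeries I ℚ)ˣ) : MvPowerSeries I ℚ) =
      ∑ l, (β l : MvPowerSeries I ℚ) * (eul j (w l : MvPowerSeries I ℚ) *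
        (((w l)⁻¹ : (MvPowerSeries I ℚ)ˣ) : MvPowerSeries I ℚ)) := by
    unfold KJ2_W
    rw [eul_units_prod]
    refine Finset.sum_congr rfl fun l _ => ?_
    have h2 := eul_units_zpow j (w l) (β l : ℤ)
    rw [zpow_natCast] at h2
    rw [h2, Int.cast_natCast]
  rw [eul_mul, KJ2_eul_monomial, KJ2_eul_unit, h1]
  have h3 : ∑ l, (β l : MvPowerSeries I ℚ) * jacM w l j = (β j : MvPowerSeries I ℚ) +
      ∑ l, (β l : MvPowerSeries I ℚ) * (eul j (w l : MvPowerSeries I ℚ) *
        (((w l)⁻¹ : (MvPowerSeries I ℚ)ˣ) : MvPowerSeries I ℚ)) := by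
    unfold jacM
    simp only [Matrix.of_apply, mul_add, Finset.sum_add_distrib, mul_ite, mul_one, mul_zero,
      Finset.sum_ite_eq', Finset.mem_univ, if_true]
  rw [h3]
  ring

theorem IsSub.chain {w : I → (MvPowerSeries I ℚ)ˣ}
    {φ : MvPowerSeries I ℚ →+* MvPowerSeries I ℚ} (h : IsSub w φ) (F : MvPowerSeries I ℚ)
    (j : I) : eul j (φ F) = ∑ l, φ (eul l F) * jacM w l j := by
  classical
  ext α
  rw [coeff_eul, map_sum, h.coeff, Finset.mul_sum]
  simp only [h.coeff_mul, coeff_eul]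
  rw [Finset.sum_comm]
  refine Finset.sum_congr rfl fun β _ => ?_
  have h1 := congrArg (MvPowerSeries.coeff α) (KJ2_eul_W w β j)
  rw [coeff_eul, Finset.mul_sum, map_sum] at h1
  unfold KJ2_W at h1
  have h2 : (α j : ℚ) * (MvPowerSeries.coeff β F * MvPowerSeries.coeff α (monomial β (1 : ℚ) *
        (((∏ i, (w i) ^ (β i)) : (MvPowerSeries I ℚ)ˣ) : MvPowerSeries I ℚ))) =
      MvPowerSeries.coeff β F * ((α j : ℚ) * MvPowerSeries.coeff α (monomial β (1 : ℚ) *
        (((∏ i, (w i) ^ (β i)) : (MvPowerSeries I ℚ)ˣ) : MvPowerSeries I ℚ))) := by ring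
  rw [h2, h1, Finset.mul_sum]
  refine Finset.sum_congr rfl fun l _ => ?_
  have h3 : monomial β (1 : ℚ) *
        (((∏ i, (w i) ^ (β i)) : (MvPowerSeries I ℚ)ˣ) : MvPowerSeries I ℚ) *
        ((β l : MvPowerSeries I ℚ) * jacM w l j) = MvPowerSeries.C (β l : ℚ) * (monomial β (1 : ℚ) *
        (((∏ i, (w i) ^ (β i)) : (MvPowerSeries I ℚ)ˣ) : MvPowerSeries I ℚ) * jacM w l j) := by
    rw [map_natCast]
    ring
  rw [h3, MvPowerSeries.coeff_C_mul]
  ring

theorem KJ2_const_eul (j : I) (F : MvPowerSeries I ℚ) : constantCoeff (eul j F) = 0 := by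
  rw [← MvPowerSeries.coeff_zero_eq_constantCoeff_apply, coeff_eul]
  simp

theorem KJ2_const_det (w : I → (MvPowerSeries I ℚ)ˣ) :
    constantCoeff ((jacM w).det) = 1 := by
  rw [RingHom.map_det]
  have h : (constantCoeff (σ := I) (R := ℚ)).mapMatrix (jacM w) = 1 := by
    ext i j
    rw [RingHom.mapMatrix_apply, Matrix.map_apply]
    unfold jacM
    rw [Matrix.of_apply, map_add, map_mul, KJ2_const_eul, zero_mul, add_zero, Matrix.one_apply]
    split_ifs <;> simp
  rw [h, Matrix.det_one]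

theorem residue {w : I → (MvPowerSeries I ℚ)ˣ}
    {φ : MvPowerSeries I ℚ →+* MvPowerSeries I ℚ} (h : IsSub w φ) (F : MvPowerSeries I ℚ)
    (α : I →₀ ℕ) :
    MvPowerSeries.coeff α F = MvPowerSeries.coeff α (φ F *
      (((∏ i, (w i) ^ (-(α i : ℤ))) : (MvPowerSeries I ℚ)ˣ) : MvPowerSeries I ℚ) *
        (jacM w).det) := by
  classical
  rw [mul_assoc, h.coeff_mul]
  rw [Finset.sum_eq_single_of_mem α (Finset.mem_Iic.2 le_rfl)]
  · have h1 : monomial α (1 : ℚ) *
        (((∏ i, (w i) ^ (α i)) : (MvPowerSeries I ℚ)ˣ) : MvPowerSeries I ℚ) *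
        ((((∏ i, (w i) ^ (-(α i : ℤ))) : (MvPowerSeries I ℚ)ˣ) : MvPowerSeries I ℚ) *
        (jacM w).det) = monomial α (1 : ℚ) * (jacM w).det := by
      have h2 : (((∏ i, (w i) ^ (α i)) : (MvPowerSeries I ℚ)ˣ) : MvPowerSeries I ℚ) *
          (((∏ i, (w i) ^ (-(α i : ℤ))) : (MvPowerSeries I ℚ)ˣ) : MvPowerSeries I ℚ) = 1 := by
        rw [← Units.val_mul, ← Finset.prod_mul_distrib]
        rw [Finset.prod_eq_one, Units.val_one]
        intro i _
        rw [zpow_neg, zpow_natCast, mul_inv_cancel]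
      rw [mul_assoc, ← mul_assoc (((∏ i, (w i) ^ (α i)) : (MvPowerSeries I ℚ)ˣ) :
        MvPowerSeries I ℚ), h2, one_mul]
    rw [h1, MvPowerSeries.coeff_monomial_mul, if_pos le_rfl, one_mul, tsub_self,
      MvPowerSeries.coeff_zero_eq_constantCoeff_apply, KJ2_const_det, mul_one]
  · intro β hβ hne
    rw [Finset.mem_Iic] at hβ
    have hδ : α - β ≠ 0 := by
      intro hc
      apply hne
      exact le_antisymm hβ (tsub_eq_zero_iff_le.1 hc)
    have h1 : monomial β (1 : ℚ) *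
        (((∏ i, (w i) ^ (β i)) : (MvPowerSeries I ℚ)ˣ) : MvPowerSeries I ℚ) *
        ((((∏ i, (w i) ^ (-(α i : ℤ))) : (MvPowerSeries I ℚ)ˣ) : MvPowerSeries I ℚ) *
        (jacM w).det) = monomial β (1 : ℚ) *
        ((((∏ i, (w i) ^ (-((α - β) i : ℤ))) : (MvPowerSeries I ℚ)ˣ) : MvPowerSeries I ℚ) *
        (jacM w).det) := by
      have h2 : (((∏ i, (w i) ^ (β i)) : (MvPowerSeries I ℚ)ˣ) : MvPowerSeries I ℚ) *
          (((∏ i, (w i) ^ (-(α i : ℤ))) : (MvPowerSeries I ℚ)ˣ) : MvPowerSeries I ℚ) =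
          (((∏ i, (w i) ^ (-((α - β) i : ℤ))) : (MvPowerSeries I ℚ)ˣ) : MvPowerSeries I ℚ) := by
        rw [← Units.val_mul, ← Finset.prod_mul_distrib]
        congr 1
        refine Finset.prod_congr rfl fun i _ => ?_
        rw [← zpow_natCast, ← zpow_add]
        congr 1
        rw [Finsupp.tsub_apply, Nat.cast_sub (hβ i)]
        ring
      rw [mul_assoc, ← mul_assoc (((∏ i, (w i) ^ (β i)) : (MvPowerSeries I ℚ)ˣ) :
        MvPowerSeries I ℚ), h2]
    rw [h1, MvPowerSeries.coeff_monomial_mul, if_pos hβ, one_mul, jac_core w _ hδ, mul_zero]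

end Pool.Agent.H27.KAC

end

section

/-!
KAC module KJ3: the Q-system under the substitution.

`T` is a solution of the Q-system with constant coefficients 1, `tU T hT i k` the corresponding units,
`wT i = ∏_j T_{j1}^(-C_{ij})`, `φ` the substitution.  Then
* `sub_U`: `φ (U_{ik}) = T_{ik} T_{i1}^(-k)`.  Induction on `k` (two steps): `φ` of the recursion of `U` and the
  recursion of `T`: `Y_i^k ∏_j U_{jk}^(a_ij) ↦ X_i^k T_{i1}^(-2k) ∏_j T_{jk}^(a_ij)`.
* `jacM_wT`: `jacM wT = 1 - C Λ`, `Λ_{lj} = θ_j log T_{l1}`  (`eul_units_prod`, `eul_units_zpow`).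
* `sub_xv`: the matrix `(φ (x_{ik})_l)_{il}` times `(1 - Λ C)` is `k - Λ^{(k)} C`:
  `D_l = - ∑_j C_{lj} θ_j`, so `φ (x_{ik}(l)) = k δ_{il} - ∑_j Φ_{ij} C_{jl}`, `Φ_{ij} = φ (θ_j U_{ik}) φ(U_{ik})^(-1)`;
  chain rule: `Φ (1 - C Λ) = Λ^{(k)} - k Λ^{(1)}`; multiply by `C`.
-/

namespace Pool.Agent.H27.KAC

open scoped BigOperators
open MvPowerSeries

variable {I : Type} [Fintype I] [DecidableEq I]

/-- `T i k` as a unit. -/
noncomputable def tU (T : I → ℕ → MvPowerSeries I ℚ)
    (hT : ∀ i k, constantCoeff (T i k) = 1) (i : I) (k : ℕ) : (MvPowerSeries I ℚ)ˣ :=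
  (show IsUnit (T i k) by
    rw [MvPowerSeries.isUnit_iff_constantCoeff, hT]; exact isUnit_one).unit

/-- `w_i = ∏_j T_{j1}^(-C_{ij})`. -/
noncomputable def wT (a : I → I → ℕ) (T : I → ℕ → MvPowerSeries I ℚ)
    (hT : ∀ i k, constantCoeff (T i k) = 1) (i : I) : (MvPowerSeries I ℚ)ˣ :=
  ∏ j, (tU T hT j 1) ^ (-(cart a i j))

/-- `Λ^{(k)}_{ij} = θ_j log T_{ik}`. -/
noncomputable def lamT (T : I → ℕ → MvPowerSeries I ℚ)
    (hT : ∀ i k, constantCoeff (T i k) = 1) (k : ℕ) : Matrix I I (MvPowerSeries I ℚ) :=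
  Matrix.of (fun i j => eul j (T i k) *
    (((tU T hT i k)⁻¹ : (MvPowerSeries I ℚ)ˣ) : MvPowerSeries I ℚ))

/-- the Cartan matrix over the power series ring. -/
noncomputable def carM (a : I → I → ℕ) : Matrix I I (MvPowerSeries I ℚ) :=
  Matrix.of (fun i j => C ((cart a i j : ℤ) : ℚ))

theorem dD_eq_eul (a : I → I → ℕ) (l : I) (F : MvPowerSeries I ℚ) :
    dD a l F = -∑ j, C ((cart a l j : ℤ) : ℚ) * eul j F := by
  ext β
  rw [coeff_dD, map_neg, map_sum]
  simp_rw [MvPowerSeries.coeff_C_mul, coeff_eul]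
  unfold cw
  push_cast
  rw [neg_mul, Finset.sum_mul]
  congr 1
  refine Finset.sum_congr rfl ?_
  intro j _
  ring

private theorem KJ3_wT_pow (a : I → I → ℕ) (T : I → ℕ → MvPowerSeries I ℚ)
    (hT : ∀ i k, constantCoeff (T i k) = 1) (i : I) (n : ℕ) :
    (wT a T hT i) ^ n * ∏ j, ((tU T hT j 1) ^ (-(n : ℤ))) ^ (a i j) =
      (tU T hT i 1) ^ (-(2 * (n : ℤ))) := by
  have h1 : wT a T hT i = (tU T hT i 1) ^ (-(2 : ℤ)) * ∏ j, (tU T hT j 1) ^ (a i j) := by
    unfold wT
    have h2 : ∀ j, (tU T hT j 1) ^ (-(cart a i j)) =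
        (tU T hT j 1) ^ (-(if i = j then (2 : ℤ) else 0)) * (tU T hT j 1) ^ (a i j) := by
      intro j
      rw [← zpow_natCast (tU T hT j 1) (a i j), ← zpow_add]
      congr 1
      unfold cart
      ring
    simp_rw [h2]
    rw [Finset.prod_mul_distrib]
    congr 1
    rw [Finset.prod_eq_single i]
    · simp
    · intro j _ hj
      simp [Ne.symm hj]
    · intro hi
      exact absurd (Finset.mem_univ i) hi
  rw [h1, mul_pow, ← Finset.prod_pow, mul_assoc, ← Finset.prod_mul_distrib]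
  have h3 : ∏ j, ((tU T hT j 1 ^ (a i j)) ^ n * ((tU T hT j 1) ^ (-(n : ℤ))) ^ (a i j)) = 1 := by
    refine Finset.prod_eq_one ?_
    intro j _
    rw [← pow_mul, mul_comm (a i j) n, pow_mul, ← mul_pow, zpow_neg, zpow_natCast,
      mul_inv_cancel, one_pow]
  rw [h3, mul_one, ← zpow_natCast, ← zpow_mul]
  congr 1

theorem sub_U (a : I → I → ℕ) (T : I → ℕ → MvPowerSeries I ℚ) (hT0 : ∀ i, T i 0 = 1)
    (hT : ∀ i k, constantCoeff (T i k) = 1)
    (hrec : ∀ i k, (T i (k + 1)) ^ 2 = T i k * T i (k + 2) +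
      (X i) ^ (k + 1) * ∏ j, (T j (k + 1)) ^ (a i j))
    (φ : MvPowerSeries I ℚ →+* MvPowerSeries I ℚ) (h : IsSub (wT a T hT) φ) (i : I) (k : ℕ) :
    φ (uS a i k) = ((tU T hT i k * (tU T hT i 1) ^ (-(k : ℤ)) : (MvPowerSeries I ℚ)ˣ) :
      MvPowerSeries I ℚ) := by
  have key : ∀ k : ℕ, (∀ i, φ (uS a i k) =
      ((tU T hT i k * (tU T hT i 1) ^ (-(k : ℤ)) : (MvPowerSeries I ℚ)ˣ) :
        MvPowerSeries I ℚ)) ∧ (∀ i, φ (uS a i (k + 1)) =
      ((tU T hT i (k + 1) * (tU T hT i 1) ^ (-((k + 1 : ℕ) : ℤ)) : (MvPowerSeries I ℚ)ˣ) :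
        MvPowerSeries I ℚ)) := by
    intro k
    induction k with
    | zero =>
      refine ⟨fun i => ?_, fun i => ?_⟩
      · have h0 : tU T hT i 0 = 1 := Units.ext (hT0 i)
        rw [uS_zero, map_one, h0]
        simp
      · rw [uS_one, map_one]
        simp
    | succ k ih =>
      refine ⟨ih.2, fun i => ?_⟩
      have h1 := congrArg φ (uS_rec a i k)
      rw [map_mul, map_sub, map_pow, map_mul, map_pow, map_prod, h.map_X] at h1
      simp_rw [map_pow] at h1
      rw [ih.1 i] at h1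
      simp_rw [ih.2] at h1
      have h2 := KJ3_wT_pow a T hT i (k + 1)
      have h3 := congrArg (fun u : (MvPowerSeries I ℚ)ˣ => (u : MvPowerSeries I ℚ)) h2
      simp only [Units.val_mul, Units.val_pow_eq_pow_val, Units.coe_prod] at h3
      have h4 : (X i * (wT a T hT i : MvPowerSeries I ℚ)) ^ (k + 1) *
          ∏ j, ((tU T hT j (k + 1) * (tU T hT j 1) ^ (-((k + 1 : ℕ) : ℤ)) :
            (MvPowerSeries I ℚ)ˣ) : MvPowerSeries I ℚ) ^ (a i j) =
          (((tU T hT i 1) ^ (-(2 * ((k + 1 : ℕ) : ℤ))) : (MvPowerSeries I ℚ)ˣ) :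
            MvPowerSeries I ℚ) * ((X i) ^ (k + 1) * ∏ j, (T j (k + 1)) ^ (a i j)) := by
        rw [← h3]
        have h5 : ∏ j, ((tU T hT j (k + 1) * (tU T hT j 1) ^ (-((k + 1 : ℕ) : ℤ)) :
            (MvPowerSeries I ℚ)ˣ) : MvPowerSeries I ℚ) ^ (a i j) =
            (∏ j, (T j (k + 1)) ^ (a i j)) *
              ∏ j, (((tU T hT j 1) ^ (-((k + 1 : ℕ) : ℤ)) : (MvPowerSeries I ℚ)ˣ) :
                MvPowerSeries I ℚ) ^ (a i j) := by
          rw [← Finset.prod_mul_distrib]
          refine Finset.prod_congr rfl ?_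
          intro j _
          rw [Units.val_mul, mul_pow]
          rfl
        rw [h5, mul_pow]
        ring
      rw [h4] at h1
      have h6 : ((tU T hT i (k + 1) * (tU T hT i 1) ^ (-((k + 1 : ℕ) : ℤ)) :
            (MvPowerSeries I ℚ)ˣ) : MvPowerSeries I ℚ) ^ 2 =
          (((tU T hT i 1) ^ (-(2 * ((k + 1 : ℕ) : ℤ))) : (MvPowerSeries I ℚ)ˣ) :
            MvPowerSeries I ℚ) * (T i (k + 1)) ^ 2 := by
        have h7 : (tU T hT i (k + 1) * (tU T hT i 1) ^ (-((k + 1 : ℕ) : ℤ))) ^ 2 =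
            (tU T hT i 1) ^ (-(2 * ((k + 1 : ℕ) : ℤ))) * (tU T hT i (k + 1)) ^ 2 := by
          rw [mul_pow, mul_comm, ← zpow_natCast ((tU T hT i 1) ^ (-((k + 1 : ℕ) : ℤ))) 2,
            ← zpow_mul]
          congr 2
          push_cast
          ring
        have h8 := congrArg (fun u : (MvPowerSeries I ℚ)ˣ => (u : MvPowerSeries I ℚ)) h7
        simp only [Units.val_mul, Units.val_pow_eq_pow_val] at h8
        rw [Units.val_mul]
        exact h8
      rw [h6, ← mul_sub, hrec i k, add_sub_cancel_right] at h1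
      have h9 : (((tU T hT i 1) ^ (-(2 * ((k + 1 : ℕ) : ℤ))) : (MvPowerSeries I ℚ)ˣ) :
            MvPowerSeries I ℚ) * (T i k * T i (k + 2)) =
          ((tU T hT i (k + 2) * (tU T hT i 1) ^ (-((k + 2 : ℕ) : ℤ)) :
            (MvPowerSeries I ℚ)ˣ) : MvPowerSeries I ℚ) *
          ((tU T hT i k * (tU T hT i 1) ^ (-(k : ℤ)) : (MvPowerSeries I ℚ)ˣ) :
            MvPowerSeries I ℚ) := by
        have h10 : (tU T hT i 1) ^ (-(2 * ((k + 1 : ℕ) : ℤ))) *
            (tU T hT i k * tU T hT i (k + 2)) =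
            (tU T hT i (k + 2) * (tU T hT i 1) ^ (-((k + 2 : ℕ) : ℤ))) *
              (tU T hT i k * (tU T hT i 1) ^ (-(k : ℤ))) := by
          have h11 : (tU T hT i 1) ^ (-(2 * ((k + 1 : ℕ) : ℤ))) =
              (tU T hT i 1) ^ (-((k + 2 : ℕ) : ℤ)) * (tU T hT i 1) ^ (-(k : ℤ)) := by
            rw [← zpow_add]
            congr 1
            push_cast
            ring
          rw [h11]
          simp only [mul_comm, mul_left_comm, mul_assoc]
        have h12 := congrArg (fun u : (MvPowerSeries I ℚ)ˣ => (u : MvPowerSeries I ℚ)) h10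
        simp only [Units.val_mul] at h12
        rw [Units.val_mul, Units.val_mul]
        exact h12
      rw [h9] at h1
      exact (Units.mul_left_inj _).mp h1
  exact (key k).1 i

theorem jacM_wT (a : I → I → ℕ) (T : I → ℕ → MvPowerSeries I ℚ)
    (hT : ∀ i k, constantCoeff (T i k) = 1) :
    jacM (wT a T hT) = 1 - carM a * lamT T hT 1 := by
  refine Matrix.ext fun i j => ?_
  unfold jacM
  rw [Matrix.of_apply, Matrix.sub_apply, Matrix.mul_apply, Matrix.one_apply]
  unfold wT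
  rw [eul_units_prod, sub_eq_add_neg, ← Finset.sum_neg_distrib]
  congr 1
  refine Finset.sum_congr rfl ?_
  intro l _
  rw [eul_units_zpow]
  unfold carM lamT
  rw [Matrix.of_apply, Matrix.of_apply]
  have h1 : ((-(cart a i l) : ℤ) : MvPowerSeries I ℚ) =
      - (C ((cart a i l : ℤ) : ℚ) : MvPowerSeries I ℚ) := by
    rw [Int.cast_neg, map_intCast]
  rw [h1, neg_mul]
  rfl

theorem sub_xv (a : I → I → ℕ) (hs : ∀ i j, a i j = a j i) (T : I → ℕ → MvPowerSeries I ℚ)
    (hT0 : ∀ i, T i 0 = 1) (hT : ∀ i k, constantCoeff (T i k) = 1)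
    (hrec : ∀ i k, (T i (k + 1)) ^ 2 = T i k * T i (k + 2) +
      (X i) ^ (k + 1) * ∏ j, (T j (k + 1)) ^ (a i j))
    (φ : MvPowerSeries I ℚ →+* MvPowerSeries I ℚ) (h : IsSub (wT a T hT) φ) (k : ℕ) :
    (Matrix.of (fun i l => φ (xv a i k l))) * (1 - lamT T hT 1 * carM a) =
      (k : Matrix I I (MvPowerSeries I ℚ)) - lamT T hT k * carM a := by
  have hsC : ∀ i j, cart a i j = cart a j i := by
    intro i j
    unfold cart
    rw [hs i j]
    by_cases hij : i = j
    · subst hij; rfl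
    · simp [hij, Ne.symm hij]
  -- the matrix of the logarithmic derivatives
  set Φ : Matrix I I (MvPowerSeries I ℚ) := Matrix.of (fun i j =>
    φ (eul j (uS a i k)) *
      φ (((uu a i k)⁻¹ : (MvPowerSeries I ℚ)ˣ) : MvPowerSeries I ℚ)) with hΦ
  have h1 : Matrix.of (fun i l => φ (xv a i k l)) =
      (k : Matrix I I (MvPowerSeries I ℚ)) - Φ * carM a := by
    refine Matrix.ext fun i l => ?_
    rw [Matrix.of_apply, Matrix.sub_apply, Matrix.mul_apply]
    unfold xv dlg
    rw [uu_coe, dD_eq_eul, map_add, map_mul, map_neg, map_sum]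
    have h2 : (k : Matrix I I (MvPowerSeries I ℚ)) i l =
        if i = l then (k : MvPowerSeries I ℚ) else 0 := by
      rw [← Matrix.diagonal_natCast, Matrix.diagonal_apply]
    rw [h2, sub_eq_add_neg]
    congr 1
    · split_ifs <;> simp
    · rw [neg_mul, Finset.sum_mul]
      congr 1
      refine Finset.sum_congr rfl ?_
      intro j _
      rw [map_mul, h.map_C, hΦ, Matrix.of_apply]
      unfold carM
      rw [Matrix.of_apply, hsC j l]
      ring
  have h3 : Φ * (1 - carM a * lamT T hT 1) =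
      lamT T hT k - (k : Matrix I I (MvPowerSeries I ℚ)) * lamT T hT 1 := by
    rw [← jacM_wT]
    refine Matrix.ext fun i j => ?_
    rw [Matrix.mul_apply, Matrix.sub_apply]
    have h4 := h.chain (uS a i k) j
    set v : (MvPowerSeries I ℚ)ˣ := tU T hT i k * (tU T hT i 1) ^ (-(k : ℤ)) with hv
    have h5 : φ (uS a i k) = (v : MvPowerSeries I ℚ) := sub_U a T hT0 hT hrec φ h i k
    have h6 : φ (((uu a i k)⁻¹ : (MvPowerSeries I ℚ)ˣ) : MvPowerSeries I ℚ) =
        ((v⁻¹ : (MvPowerSeries I ℚ)ˣ) : MvPowerSeries I ℚ) := by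
      have h7 : (v : MvPowerSeries I ℚ) *
          φ (((uu a i k)⁻¹ : (MvPowerSeries I ℚ)ˣ) : MvPowerSeries I ℚ) = 1 := by
        rw [← h5, ← map_mul, ← uu_coe, Units.mul_inv, map_one]
      exact (Units.inv_eq_of_mul_eq_one_right h7).symm
    have h8 : ∑ l, Φ i l * jacM (wT a T hT) l j =
        eul j (v : MvPowerSeries I ℚ) * ((v⁻¹ : (MvPowerSeries I ℚ)ˣ) : MvPowerSeries I ℚ) := by
      rw [← h5, h4, Finset.sum_mul]
      refine Finset.sum_congr rfl ?_
      intro l _
      rw [hΦ, Matrix.of_apply, h6]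
      ring
    rw [h8, hv, eul_units_mul, eul_units_zpow]
    have h9 : ((k : Matrix I I (MvPowerSeries I ℚ)) * lamT T hT 1) i j =
        (k : MvPowerSeries I ℚ) * lamT T hT 1 i j := by
      rw [← Matrix.diagonal_natCast, Matrix.diagonal_mul]
    rw [h9]
    unfold lamT
    rw [Matrix.of_apply, Matrix.of_apply]
    have h10 : ((-(k : ℤ) : ℤ) : MvPowerSeries I ℚ) = -(k : MvPowerSeries I ℚ) := by
      push_cast
      rfl
    rw [h10, neg_mul, sub_eq_add_neg]
    rfl
  rw [h1]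
  have h11 : (k : Matrix I I (MvPowerSeries I ℚ)) * (lamT T hT 1 * carM a) =
      ((k : Matrix I I (MvPowerSeries I ℚ)) * lamT T hT 1) * carM a := by
    rw [mul_assoc]
  calc ((k : Matrix I I (MvPowerSeries I ℚ)) - Φ * carM a) * (1 - lamT T hT 1 * carM a)
      = (k : Matrix I I (MvPowerSeries I ℚ)) -
          (k : Matrix I I (MvPowerSeries I ℚ)) * lamT T hT 1 * carM a -
          (Φ * (1 - carM a * lamT T hT 1)) * carM a := by noncomm_ring
    _ = _ := by
        rw [h3]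
        noncomm_ring

end Pool.Agent.H27.KAC

end

section

/-!
Project KAC, part I.1, module PI_Loc1: the condition `AIc` over `F` in a matrix algebra over a finite extension `K`.

PROOF SKETCH.  `L = F[X]/(π)`, `θ` the class of `X`.  View `v` as an `F`-linear endomorphism of `V = K^m`
(`exists_chart_lin`): `V ≅ L^b × F^c`, `v = (θ, 0)`; `b ≥ 1` since `v ≠ 0`; `[K : F] * rank v = dim_F (range v) = N b`.
So one has to show `AIc F v ↔ b = 1`.
(b = 1): `c ∈ Mat_m(K)` commuting with `v` is `F`-linear, so on the first factor it commutes with `θ`, so it is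
`L`-linear on `L^1`, so it is multiplication by some `l = f(θ)`; then `v (c - f(v)) = 0`.
(AIc, b ≥ 2 is impossible): let `k ∈ K`; `c = k • 1` commutes with `v`, so there is `f` with `v (k - f(v))` nilpotent; on the
first factor: `k_W - f(θ)` is nilpotent (`k_W` the action of `k` on `W = L^b`), and it is its own `s`-th power for a suitable
large power `s` of the characteristic (`k^(card K) = k`, `f(θ)^(card L) = f(θ)`), so `k_W = f(θ)`: the scalars of `K` act on
`W` through scalars of `L`.  So each `L`-linear `g` of `L^b`, extended by zero on `ker v`, is `K`-linear (note that `ker v`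
and `range v` are stable by `K`), that is an element `c` of `Mat_m(K)` commuting with `v`.  Take `g = E_11`: `E_11 - l` is
not nilpotent for `b ≥ 2`.
-/

set_option autoImplicit false

namespace Pool.Agent.H27.KAC

open scoped BigOperators
open Polynomial

section

variable {F : Type} [Field F] {K : Type} [Field K] [Algebra F K]

/-- matrices over `K` as `F`-linear endomorphisms of `K^m` -/
private noncomputable def Loc1_phi (F : Type) [Field F] (K : Type) [Field K] [Algebra F K] (m : ℕ) :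
    Matrix (Fin m) (Fin m) K →ₐ[F] Module.End F (Fin m → K) where
  toFun M := (Matrix.toLin' M).restrictScalars F
  map_one' := by
    ext z j
    simp
  map_mul' A B := by
    ext z j
    simp
  map_zero' := by
    ext z j
    simp
  map_add' A B := by
    ext z j
    simp
  commutes' r := by
    ext z j
    simp [Matrix.algebraMap_eq_diagonal, Matrix.mulVec_diagonal, Algebra.smul_def]

variable {L : Type} [Field L] [Algebra F L] {θ : L} {m b c : ℕ}

/-- polynomials of `v` on the first factor -/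
private theorem Loc1_poly1 (v : Matrix (Fin m) (Fin m) K)
    (Ψ : (Fin m → K) ≃ₗ[F] ((Fin b → L) × (Fin c → F)))
    (hΨ : ∀ z, Ψ (v.mulVec z) = (θ • (Ψ z).1, 0)) (f : F[X]) (z : Fin m → K) :
    (Ψ ((aeval v f).mulVec z)).1 = aeval θ f • (Ψ z).1 := by
  induction f using Polynomial.induction_on' with
  | add p q hp hq =>
    rw [map_add, map_add, Matrix.add_mulVec, map_add, add_smul, Prod.fst_add, hp, hq]
  | monomial n a =>
    rw [aeval_monomial, aeval_monomial]
    have h1 : ∀ n : ℕ, (Ψ ((v ^ n).mulVec z)).1 = θ ^ n • (Ψ z).1 := by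
      intro n
      induction n with
      | zero => simp
      | succ n ih =>
        rw [pow_succ', ← Matrix.mulVec_mulVec, hΨ, ih, pow_succ', mul_smul]
    rw [← Algebra.smul_def, ← Algebra.smul_def, Matrix.smul_mulVec, map_smul, Prod.smul_fst, h1,
      smul_assoc]

private theorem Loc1_pow1 (v : Matrix (Fin m) (Fin m) K)
    (Ψ : (Fin m → K) ≃ₗ[F] ((Fin b → L) × (Fin c → F)))
    (hΨ : ∀ z, Ψ (v.mulVec z) = (θ • (Ψ z).1, 0)) (n : ℕ) (z : Fin m → K) :
    (Ψ ((v ^ n).mulVec z)).1 = θ ^ n • (Ψ z).1 := by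
  have h := Loc1_poly1 v Ψ hΨ (X ^ n) z
  rwa [map_pow, map_pow, aeval_X, aeval_X] at h

/-- a vector with second component zero is in the range of `v` -/
private theorem Loc1_range (v : Matrix (Fin m) (Fin m) K) (hθ : θ ≠ 0)
    (Ψ : (Fin m → K) ≃ₗ[F] ((Fin b → L) × (Fin c → F)))
    (hΨ : ∀ z, Ψ (v.mulVec z) = (θ • (Ψ z).1, 0)) (z : Fin m → K) (hz : (Ψ z).2 = 0) :
    ∃ w, z = v.mulVec w := by
  refine ⟨Ψ.symm (θ⁻¹ • (Ψ z).1, 0), ?_⟩
  apply Ψ.injective
  rw [hΨ, LinearEquiv.apply_symm_apply, smul_smul, mul_inv_cancel₀ hθ, one_smul, ← hz]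

/-- a matrix commuting with `v` preserves the vectors with second component zero -/
private theorem Loc1_snd (v : Matrix (Fin m) (Fin m) K) (hθ : θ ≠ 0)
    (Ψ : (Fin m → K) ≃ₗ[F] ((Fin b → L) × (Fin c → F)))
    (hΨ : ∀ z, Ψ (v.mulVec z) = (θ • (Ψ z).1, 0)) (M : Matrix (Fin m) (Fin m) K)
    (hM : M * v = v * M) (z : Fin m → K) (hz : (Ψ z).2 = 0) : (Ψ (M.mulVec z)).2 = 0 := by
  obtain ⟨w, rfl⟩ := Loc1_range v hθ Ψ hΨ z hz
  rw [Matrix.mulVec_mulVec, hM, ← Matrix.mulVec_mulVec, hΨ]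

/-- the rank -/
private theorem Loc1_rank [FiniteDimensional F K] [FiniteDimensional F L]
    (v : Matrix (Fin m) (Fin m) K) (hθ : θ ≠ 0)
    (Ψ : (Fin m → K) ≃ₗ[F] ((Fin b → L) × (Fin c → F)))
    (hΨ : ∀ z, Ψ (v.mulVec z) = (θ • (Ψ z).1, 0)) :
    Module.finrank F K * v.rank = Module.finrank F L * b := by
  have h1 : v.rank = Module.finrank K (LinearMap.range v.mulVecLin) := rfl
  rw [h1, Module.finrank_mul_finrank F K (LinearMap.range v.mulVecLin)]
  have e : (LinearMap.range v.mulVecLin) ≃ₗ[F] (Fin b → L) := by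
    refine LinearEquiv.ofBijective
      ((LinearMap.fst F (Fin b → L) (Fin c → F)) ∘ₗ Ψ.toLinearMap ∘ₗ
        ((LinearMap.range v.mulVecLin).subtype.restrictScalars F)) ⟨?_, ?_⟩
    · rw [injective_iff_map_eq_zero]
      rintro ⟨x, ⟨z, rfl⟩⟩ hx
      have h2 : (Ψ (v.mulVec z)).1 = 0 := hx
      have h3 : Ψ (v.mulVec z) = 0 := by
        ext1
        · exact h2
        · rw [hΨ]
          rfl
      have h4 : v.mulVec z = 0 := by
        rw [← LinearEquiv.map_eq_zero_iff Ψ]
        exact h3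
      exact Subtype.ext h4
    · intro y
      obtain ⟨w, hw⟩ := Loc1_range v hθ Ψ hΨ (Ψ.symm (y, 0)) (by simp)
      refine ⟨⟨Ψ.symm (y, 0), ⟨w, hw.symm⟩⟩, ?_⟩
      show (Ψ (Ψ.symm (y, 0))).1 = y
      rw [LinearEquiv.apply_symm_apply]
  rw [e.finrank_eq, Module.finrank_pi_fintype]
  simp [mul_comm]

/-- the case `b = 1` -/
private theorem Loc1_one {π : F[X]} {N : ℕ} (hπ : GoodPi F π N) (hθπ : aeval θ π = 0)
    (hL : Module.finrank F L = N) (v : Matrix (Fin m) (Fin m) K)
    (Ψ : (Fin m → K) ≃ₗ[F] ((Fin 1 → L) × (Fin c → F)))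
    (hΨ : ∀ z, Ψ (v.mulVec z) = (θ • (Ψ z).1, 0)) : AIc F v := by
  have hθ : θ ≠ 0 := theta_ne_zero hπ θ hθπ
  intro M hM
  obtain ⟨e, he⟩ : ∃ e : Fin m → K, Ψ e = ((fun _ => (1 : L)), 0) :=
    ⟨Ψ.symm ((fun _ => (1 : L)), 0), LinearEquiv.apply_symm_apply _ _⟩
  obtain ⟨f, hf⟩ := exists_poly_of_mem hπ θ hθπ hL ((Ψ (M.mulVec e)).1 0)
  refine ⟨f, 1, ?_⟩
  rw [pow_one]
  have hcomm : ∀ g : F[X], aeval v g * v = v * aeval v g := by
    intro g
    exact ((Algebra.commute_of_mem_adjoin_self (aeval_mem_adjoin_singleton F v)).symm).eq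
  have hMg : ∀ g : F[X], M * aeval v g = aeval v g * M := by
    intro g
    induction g using Polynomial.induction_on' with
    | add p q hp hq => rw [map_add, mul_add, add_mul, hp, hq]
    | monomial n a =>
      rw [aeval_monomial]
      have h1 : Commute M (v ^ n) := Commute.pow_right hM n
      rw [← mul_assoc, ← Algebra.commutes, mul_assoc, h1.eq, mul_assoc]
  apply Matrix.toLin'.injective
  apply LinearMap.ext
  intro z
  rw [Matrix.toLin'_apply, map_zero, LinearMap.zero_apply]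
  -- `v z = g(v) e`
  obtain ⟨g, hg⟩ := exists_poly_of_mem hπ θ hθπ hL ((Ψ (v.mulVec z)).1 0)
  have hve : v.mulVec z = (aeval v g).mulVec e := by
    apply Ψ.injective
    ext1
    · rw [Loc1_poly1 v Ψ hΨ, he, hg]
      ext i
      rw [Subsingleton.elim i 0]
      simp
    · rw [Loc1_snd v hθ Ψ hΨ (aeval v g) (hcomm g) e (by rw [he]), hΨ]
  have h1 : (v * (M - aeval v f)).mulVec z = (aeval v g * (M - aeval v f)).mulVec e := by
    have h2 : v * (M - aeval v f) = (M - aeval v f) * v := by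
      rw [mul_sub, sub_mul, hM, hcomm]
    have h3 : aeval v g * (M - aeval v f) = (M - aeval v f) * aeval v g := by
      rw [mul_sub, sub_mul, hMg, ← map_mul, ← map_mul, mul_comm]
    rw [h2, h3, ← Matrix.mulVec_mulVec, ← Matrix.mulVec_mulVec, hve]
  rw [h1, ← Matrix.mulVec_mulVec]
  have h4 : (M - aeval v f).mulVec e = 0 := by
    rw [← LinearEquiv.map_eq_zero_iff Ψ, Matrix.sub_mulVec, map_sub]
    ext1
    · rw [Prod.fst_sub, Loc1_poly1 v Ψ hΨ, hf, he]
      ext i
      rw [Subsingleton.elim i 0]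
      simp
    · rw [Prod.snd_sub, Loc1_snd v hθ Ψ hΨ M hM e (by rw [he]),
        Loc1_snd v hθ Ψ hΨ (aeval v f) (hcomm f) e (by rw [he]), sub_zero]
      rfl
  rw [h4, Matrix.mulVec_zero]

/-- under `AIc` the scalars of `K` act through scalars of `L` on the first factor -/
private theorem Loc1_scal [Fintype F] [Fintype K] (hθ : θ ≠ 0) (v : Matrix (Fin m) (Fin m) K)
    (Ψ : (Fin m → K) ≃ₗ[F] ((Fin b → L) × (Fin c → F)))
    (hΨ : ∀ z, Ψ (v.mulVec z) = (θ • (Ψ z).1, 0)) (h : AIc F v) (k : K) :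
    ∃ l : L, ∀ z, (Ψ (k • z)).1 = l • (Ψ z).1 := by
  rcases Nat.eq_zero_or_pos m with rfl | hm
  · refine ⟨0, fun z => ?_⟩
    rw [Subsingleton.elim z 0, smul_zero, map_zero]
    simp
  have : Nonempty (Fin m) := ⟨⟨0, hm⟩⟩
  obtain ⟨p, hp⟩ := CharP.exists K
  have := hp
  have hpp : Fact p.Prime := ⟨CharP.char_is_prime K p⟩
  obtain ⟨f, s, hs⟩ := h (k • (1 : Matrix (Fin m) (Fin m) K)) (by simp)
  obtain ⟨n, hn, hcard⟩ := FiniteField.card K p
  obtain ⟨D, hD⟩ : ∃ D : Matrix (Fin m) (Fin m) K,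
      D = k • (1 : Matrix (Fin m) (Fin m) K) - aeval v f := ⟨_, rfl⟩
  have hcomm : aeval v f * v = v * aeval v f :=
    ((Algebra.commute_of_mem_adjoin_self (aeval_mem_adjoin_singleton F v)).symm).eq
  have hvD : Commute v D := by
    show v * D = D * v
    rw [hD, mul_sub, sub_mul, hcomm]
    simp
  have hkf : Commute (k • (1 : Matrix (Fin m) (Fin m) K)) (aeval v f) := by
    show _ * _ = _ * _
    simp
  obtain ⟨P, hP⟩ : ∃ P : ℕ, P = p ^ ((n : ℕ) * s) := ⟨_, rfl⟩
  have hPs : s ≤ P := by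
    rw [hP]
    have h1 : s ≤ (n : ℕ) * s := Nat.le_mul_of_pos_left s n.pos
    exact h1.trans (Nat.lt_pow_self hpp.out.one_lt).le
  have hDP : D ^ P = k • (1 : Matrix (Fin m) (Fin m) K) - (aeval v f) ^ P := by
    rw [hD, hP, sub_pow_char_pow_of_commute _ _ hkf, _root_.smul_pow, one_pow]
    congr 2
    rw [pow_mul, ← hcard]
    exact FiniteField.pow_card_pow s k
  have hz : v ^ P * D ^ P = 0 := by
    rw [← hvD.mul_pow]
    rw [← hD] at hs
    exact pow_eq_zero_of_le hPs hs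
  refine ⟨(aeval θ f) ^ P, fun z => ?_⟩
  rw [hDP, mul_sub, sub_eq_zero] at hz
  have h1 := congrArg (fun M => (Ψ (Matrix.mulVec M z)).1) hz
  rw [← Matrix.mulVec_mulVec, Loc1_pow1 v Ψ hΨ, ← Matrix.mulVec_mulVec, Loc1_pow1 v Ψ hΨ,
    ← map_pow, Loc1_poly1 v Ψ hΨ, map_pow, Matrix.smul_mulVec, Matrix.one_mulVec] at h1
  have h2 : θ ^ P ≠ 0 := pow_ne_zero _ hθ
  exact smul_right_injective _ h2 h1

/-- `AIc` is impossible for `b ≥ 2` -/
private theorem Loc1_two [Fintype F] [Fintype K] (hθ : θ ≠ 0) (v : Matrix (Fin m) (Fin m) K)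
    (Ψ : (Fin m → K) ≃ₗ[F] ((Fin b → L) × (Fin c → F)))
    (hΨ : ∀ z, Ψ (v.mulVec z) = (θ • (Ψ z).1, 0)) (h : AIc F v) : b ≤ 1 := by
  by_contra hb
  push Not at hb
  obtain ⟨i0, hi0⟩ : ∃ i : Fin b, i = ⟨0, by omega⟩ := ⟨_, rfl⟩
  obtain ⟨i1, hi1⟩ : ∃ i : Fin b, i = ⟨1, hb⟩ := ⟨_, rfl⟩
  have hi : i0 ≠ i1 := by
    rw [hi0, hi1]
    intro h
    simpa using congrArg Fin.val h
  have hsnd : ∀ (k : K) (z : Fin m → K), (Ψ z).2 = 0 → (Ψ (k • z)).2 = 0 := by
    intro k z hz
    have h1 := Loc1_snd v hθ Ψ hΨ (k • (1 : Matrix (Fin m) (Fin m) K)) (by simp) z hz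
    rwa [Matrix.smul_mulVec, Matrix.one_mulVec] at h1
  obtain ⟨g, hg⟩ : ∃ g : (Fin m → K) →ₗ[K] (Fin m → K),
      ∀ z, g z = Ψ.symm (Pi.single i0 ((Ψ z).1 i0), 0) := by
    refine ⟨{ toFun := fun z => Ψ.symm (Pi.single i0 ((Ψ z).1 i0), 0)
              map_add' := ?_
              map_smul' := ?_ }, fun z => rfl⟩
    · intro x y
      rw [← map_add, Prod.mk_add_mk, ← Pi.single_add, map_add, add_zero]
      rfl
    · intro k z
      obtain ⟨l, hl⟩ := Loc1_scal hθ v Ψ hΨ h k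
      rw [RingHom.id_apply]
      apply Ψ.injective
      rw [LinearEquiv.apply_symm_apply]
      ext1
      · rw [hl, hl, LinearEquiv.apply_symm_apply]
        simp only
        rw [← Pi.single_smul]
        rfl
      · rw [hsnd k _ (by rw [LinearEquiv.apply_symm_apply])]
  obtain ⟨M, hM⟩ : ∃ M : Matrix (Fin m) (Fin m) K, ∀ z, M.mulVec z = g z := by
    refine ⟨LinearMap.toMatrix' g, fun z => ?_⟩
    rw [LinearMap.toMatrix'_mulVec]
  have hMv : M * v = v * M := by
    apply Matrix.toLin'.injective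
    apply LinearMap.ext
    intro z
    rw [Matrix.toLin'_apply, Matrix.toLin'_apply, ← Matrix.mulVec_mulVec, ← Matrix.mulVec_mulVec,
      hM, hM, hg, hg]
    apply Ψ.injective
    rw [hΨ, hΨ, LinearEquiv.apply_symm_apply, LinearEquiv.apply_symm_apply]
    simp only
    rw [← Pi.single_smul]
    rfl
  obtain ⟨f, s, hs⟩ := h M hMv
  have key : ∀ (x : Fin b → L) (a : L), Pi.single i0 (x i0) = a • x →
      (θ * (a - aeval θ f)) ^ s • x = 0 := by
    intro x a ha
    have h1 : ∀ n : ℕ, (Ψ (((v * (M - aeval v f)) ^ n).mulVec (Ψ.symm (x, 0)))).1 =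
        (θ * (a - aeval θ f)) ^ n • x := by
      intro n
      induction n with
      | zero => simp
      | succ n ih =>
        obtain ⟨w, hw⟩ : ∃ w, w = ((v * (M - aeval v f)) ^ n).mulVec (Ψ.symm (x, 0)) := ⟨_, rfl⟩
        rw [← hw] at ih
        rw [pow_succ', ← Matrix.mulVec_mulVec, ← hw, ← Matrix.mulVec_mulVec, hΨ]
        simp only
        rw [Matrix.sub_mulVec, map_sub, Prod.fst_sub, Loc1_poly1 v Ψ hΨ, hM, hg,
          LinearEquiv.apply_symm_apply, ih]
        simp only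
        have h2 : (Pi.single i0 ((((θ * (a - aeval θ f)) ^ n • x : Fin b → L)) i0) : Fin b → L) =
            (θ * (a - aeval θ f)) ^ n • (a • x) := by
          rw [← ha, ← Pi.single_smul]
          rfl
        rw [h2, smul_smul, smul_smul, ← sub_smul, smul_smul]
        congr 1
        ring
    rw [← h1 s, hs, Matrix.zero_mulVec, map_zero]
    rfl
  have k0 := congrFun (key (Pi.single i0 1) 1 (by simp)) i0
  have k1 := congrFun (key (Pi.single i1 1) 0 (by
    rw [zero_smul, Pi.single_eq_of_ne hi, Pi.single_zero])) i1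
  rw [Pi.smul_apply, Pi.single_eq_same, smul_eq_mul, mul_one, Pi.zero_apply] at k0 k1
  have e0 := eq_zero_of_pow_eq_zero k0
  have e1 := eq_zero_of_pow_eq_zero k1
  rw [mul_eq_zero] at e0 e1
  have e0' := e0.resolve_left hθ
  have e1' := e1.resolve_left hθ
  have e3 : (1 : L) = 0 := by
    linear_combination e0' - e1'
  exact one_ne_zero e3

end

theorem aic_matrix_iff {F : Type} [Field F] [Fintype F] {K : Type} [Field K] [Fintype K]
    [Algebra F K] {π : F[X]} {N : ℕ} (hπ : GoodPi F π N) {m : ℕ} (v : Matrix (Fin m) (Fin m) K)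
    (hv : v * aeval v π = 0) (hv0 : v ≠ 0) :
    AIc F v ↔ Module.finrank F K * v.rank = N := by
  have : Fact (Irreducible π) := ⟨hπ.irr⟩
  have : FiniteDimensional F K := Module.Finite.of_finite
  have hroot : aeval (AdjoinRoot.root π) π = 0 := AdjoinRoot.eval₂_root π
  have hL : Module.finrank F (AdjoinRoot π) = N := by
    rw [(AdjoinRoot.powerBasis hπ.irr.ne_zero).finrank, AdjoinRoot.powerBasis_dim, hπ.deg]
  have : FiniteDimensional F (AdjoinRoot π) :=
    (AdjoinRoot.powerBasis hπ.irr.ne_zero).finite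
  have hθ : AdjoinRoot.root π ≠ 0 := theta_ne_zero hπ _ hroot
  have hN : 0 < N := by
    rw [← hπ.deg]
    exact hπ.irr.natDegree_pos
  obtain ⟨b, c, Ψ, hΨ⟩ := exists_chart_lin hπ (AdjoinRoot.root π) hroot hL
    (V := Fin m → K) (Loc1_phi F K m v) (by
      have h1 := congrArg (Loc1_phi F K m) hv
      rwa [map_mul, map_zero, ← Polynomial.aeval_algHom_apply] at h1)
  have hΨ' : ∀ z, Ψ (v.mulVec z) = (AdjoinRoot.root π • (Ψ z).1, 0) := fun z => hΨ z
  have hrank := Loc1_rank v hθ Ψ hΨ'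
  rw [hrank, hL]
  have hb1 : 1 ≤ b := by
    rcases Nat.eq_zero_or_pos b with rfl | h
    · exfalso
      apply hv0
      apply Matrix.toLin'.injective
      apply LinearMap.ext
      intro z
      rw [Matrix.toLin'_apply, map_zero, LinearMap.zero_apply,
        ← LinearEquiv.map_eq_zero_iff Ψ, hΨ']
      ext1
      · exact Subsingleton.elim _ _
      · rfl
    · exact h
  constructor
  · intro h
    have h2 := Loc1_two hθ v Ψ hΨ' h
    have h3 : b = 1 := by omega
    rw [h3, mul_one]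
  · intro h
    have h3 : b = 1 := by
      have : N * b = N * 1 := by rw [h, mul_one]
      exact Nat.eq_of_mul_eq_mul_left hN this
    subst h3
    exact Loc1_one hπ hroot hL v Ψ hΨ'

end Pool.Agent.H27.KAC

end

section

/-!
Project KAC, part I.1, module PI_Loc: the condition `AIc` in a product of matrix algebras.

PROOF SKETCH.  Suppose `AIc F v` and `v j ≠ 0`, `v k ≠ 0`, `j ≠ k`.  Take `c = Pi.single j 1` (central):
there is `f` with `v j (1 - f(v j))` and `v k f(v k)` nilpotent.  These are polynomials `g(v j)`, `h(v k)` with zero constant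
term.  Since `v j` is a root of `X π`, `X π` is squarefree and `π` irreducible:
`v j (1 - f(v j))` nilpotent and `v j ≠ 0` imply `π ∣ 1 - f` (otherwise `f - 1` would be invertible modulo `π`, and `v j` would
be nilpotent, so zero, as `v^(q^N) = v`, or use `v j * aeval (v j) π = 0`); in the same way `π ∣ f`, contradiction.
So only one component is not zero and then use `aic_matrix_iff` (`AIc` for `v` supported on `j` is equivalent to `AIc` for
`v j`).
-/

set_option autoImplicit false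

namespace Pool.Agent.H27.KAC

open scoped BigOperators
open Polynomial

theorem PI_Loc_zero {F : Type} [Field F] {R : Type} [Ring R] [Algebra F R] {π g : F[X]} {N : ℕ}
    (hπ : GoodPi F π N) {w : R} (hw : w * aeval w π = 0) (hg : ¬ π ∣ g)
    (hn : IsNilpotent (w * aeval w g)) : w = 0 := by
  have hnil : IsNilpotent w := by
    have hcop : IsCoprime π g := (hπ.irr.coprime_iff_not_dvd).2 hg
    obtain ⟨a, b, hab⟩ := hcop
    have h1 : w = aeval w b * (w * aeval w g) := by
      have h2 : aeval w (X * (a * π + b * g)) = w := by rw [hab, mul_one, aeval_X]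
      have h3 : X * (a * π + b * g) = a * (X * π) + b * (X * g) := by ring
      rw [h3, map_add, map_mul, map_mul, map_mul, map_mul, aeval_X, hw, mul_zero, zero_add] at h2
      exact h2.symm
    have hcomm : Commute (aeval w b) (w * aeval w g) := by
      have h4 : w * aeval w g = aeval w (X * g) := by rw [map_mul, aeval_X]
      rw [h4]
      show aeval w b * aeval w (X * g) = aeval w (X * g) * aeval w b
      rw [← map_mul, ← map_mul, mul_comm]
    rw [h1]
    exact hcomm.isNilpotent_mul_left hn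
  obtain ⟨k, hk⟩ := hnil
  have hX : ¬ π ∣ (X : F[X]) := by
    intro hd
    have h5 : Irreducible (X : F[X]) := irreducible_X
    obtain ⟨u, hu⟩ := hd
    have h6 : IsUnit u := (h5.isUnit_or_isUnit hu).resolve_left hπ.irr.not_isUnit
    have h7 : π.coeff 0 * u.coeff 0 = 0 := by
      rw [← mul_coeff_zero, ← hu, coeff_X_zero]
    have h8 : u.coeff 0 = 0 := (mul_eq_zero.1 h7).resolve_left hπ.zero
    obtain ⟨r, hr, hru⟩ := Polynomial.isUnit_iff.1 h6
    rw [← hru, coeff_C_zero] at h8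
    rw [h8] at hr
    exact not_isUnit_zero hr
  have hcop : IsCoprime π (X ^ k : F[X]) := ((hπ.irr.coprime_iff_not_dvd).2 hX).pow_right
  obtain ⟨a, b, hab⟩ := hcop
  have h2 : aeval w (X * (a * π + b * X ^ k)) = w := by rw [hab, mul_one, aeval_X]
  have h3 : X * (a * π + b * X ^ k) = a * (X * π) + (X * b) * X ^ k := by ring
  rw [h3, map_add, map_mul, map_mul, map_mul, map_pow, aeval_X, hw, mul_zero, zero_add, hk, mul_zero] at h2
  exact h2.symm

theorem PI_Loc_eval {F : Type} [Field F] {n : ℕ} {R : Fin n → Type} [∀ j, Ring (R j)]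
    [∀ j, Algebra F (R j)] (v : ∀ j, R j) (f : F[X]) (j : Fin n) : (aeval v f) j = aeval (v j) f :=
  (Polynomial.aeval_algHom_apply (Pi.evalAlgHom F R j) v f).symm

theorem PI_Loc_nil {n : ℕ} {R : Fin n → Type} [∀ j, Ring (R j)] {x : ∀ j, R j} (h : IsNilpotent x)
    (j : Fin n) : IsNilpotent (x j) := by
  obtain ⟨k, hk⟩ := h
  exact ⟨k, congrFun hk j⟩

theorem PI_Loc_supp {F : Type} [Field F] {n : ℕ} {R : Fin n → Type} [∀ j, Ring (R j)]
    [∀ j, Algebra F (R j)] (v : ∀ j, R j) (j : Fin n) (hj : ∀ k, k ≠ j → v k = 0) :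
    AIc F v ↔ AIc F (v j) := by
  constructor
  · intro h c hc
    obtain ⟨f, hf⟩ := h (Pi.single j c) (by
      funext k
      rw [Pi.mul_apply, Pi.mul_apply]
      by_cases hk : k = j
      · subst hk
        rw [Pi.single_eq_same]
        exact hc
      · rw [hj k hk, mul_zero, zero_mul])
    refine ⟨f, ?_⟩
    have h1 := PI_Loc_nil hf j
    rw [Pi.mul_apply, Pi.sub_apply, Pi.single_eq_same, PI_Loc_eval] at h1
    exact h1
  · intro h c hc
    obtain ⟨f, k, hk⟩ := h (c j) (congrFun hc j)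
    refine ⟨f, k + 1, ?_⟩
    funext i
    rw [Pi.pow_apply, Pi.mul_apply, Pi.sub_apply, PI_Loc_eval, Pi.zero_apply]
    by_cases hi : i = j
    · subst hi
      rw [pow_succ, hk, zero_mul]
    · rw [hj i hi, zero_mul, zero_pow (Nat.succ_ne_zero k)]

theorem aic_pi_iff {F : Type} [Field F] [Fintype F] {n : ℕ} {m : Fin n → ℕ} {K : Fin n → Type}
    [∀ j, Field (K j)] [∀ j, Fintype (K j)] [∀ j, Algebra F (K j)] {π : F[X]} {N : ℕ}
    (hπ : GoodPi F π N) (v : ∀ j, Matrix (Fin (m j)) (Fin (m j)) (K j))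
    (hv : v * aeval v π = 0) (hv0 : v ≠ 0) :
    AIc F v ↔ ∃ j, (∀ k, k ≠ j → v k = 0) ∧ Module.finrank F (K j) * (v j).rank = N := by
  have hvj : ∀ j, v j * aeval (v j) π = 0 := by
    intro j
    have h1 := congrFun hv j
    rw [Pi.mul_apply, PI_Loc_eval] at h1
    exact h1
  constructor
  · intro h
    obtain ⟨j, hj⟩ := Function.ne_iff.1 hv0
    rw [Pi.zero_apply] at hj
    have hsupp : ∀ k, k ≠ j → v k = 0 := by
      intro k hkj
      by_contra hk
      obtain ⟨f, hf⟩ := h (Pi.single j 1) (by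
        funext i
        rw [Pi.mul_apply, Pi.mul_apply]
        by_cases hi : i = j
        · subst hi
          rw [Pi.single_eq_same, one_mul, mul_one]
        · rw [Pi.single_eq_of_ne hi, mul_zero, zero_mul])
      have h1 : π ∣ 1 - f := by
        by_contra hd
        refine hj (PI_Loc_zero hπ (hvj j) hd ?_)
        have h2 := PI_Loc_nil hf j
        rw [Pi.mul_apply, Pi.sub_apply, Pi.single_eq_same, PI_Loc_eval] at h2
        rw [map_sub, map_one]
        exact h2
      have h3 : π ∣ -f := by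
        by_contra hd
        refine hk (PI_Loc_zero hπ (hvj k) hd ?_)
        have h2 := PI_Loc_nil hf k
        rw [Pi.mul_apply, Pi.sub_apply, Pi.single_eq_of_ne hkj, PI_Loc_eval, zero_sub] at h2
        rw [map_neg]
        exact h2
      have h4 : π ∣ 1 := by
        have h5 := dvd_sub h1 h3
        have h6 : 1 - f - -f = 1 := by ring
        rwa [h6] at h5
      exact hπ.irr.not_isUnit (isUnit_of_dvd_one h4)
    exact ⟨j, hsupp, (aic_matrix_iff hπ (v j) (hvj j) hj).1 ((PI_Loc_supp v j hsupp).1 h)⟩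
  · rintro ⟨j, hsupp, hr⟩
    have hj : v j ≠ 0 := by
      intro h0
      refine hv0 (funext fun k => ?_)
      by_cases hk : k = j
      · subst hk
        exact h0
      · exact hsupp k hk
    exact (PI_Loc_supp v j hsupp).2 ((aic_matrix_iff hπ (v j) (hvj j) hj).2 hr)

end Pool.Agent.H27.KAC

end
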