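import Pool.Agent.H16.TKA.M04

/-! The parts of this file: H41.KA.AD0, H41.KA.AE0. -/

section

/-!
KAC, ADE clusters: the term calculus.

A term `T` stands for the constant term (coefficient of `t^0 X^γ`) of
`∏ Q_{i,k}^{E(i,k)} * det (columns ∑ Λ_j(i,k) d log Q_{i,k})`, `Q_{i,k} = t_i^k U_{i,k}`.
-/

set_option autoImplicit false

namespace Pool.Agent.H27.KAC

open scoped BigOperators
open MvPowerSeries

/-- formal rational combinations of the symbols `(i, k)`. -/
abbrev QE (I : Type) := I × ℕ →₀ ℚ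

/-- one symbol. -/
noncomputable abbrev sy {I : Type} (i : I) (k : ℕ) : QE I := Finsupp.single (i, k) 1

/-- A term: `X`-exponent `γ`, exponents `E`, columns `Λ`. -/
@[ext]
structure Trm (I : Type) where
  γ : I → ℚ
  E : QE I
  Λ : I → QE I

section

variable {I : Type} [Fintype I] [DecidableEq I]

/-- rational power of a power series with constant coefficient one. -/
noncomputable def rpw (u : MvPowerSeries I ℚ) (q : ℚ) : MvPowerSeries I ℚ :=
  (PowerSeries.binomialSeries ℚ q).subst (u - 1)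

/-- `∏ U_{i,k}^{E(i,k)}`. -/
noncomputable def mU (a : I → I → ℕ) (E : QE I) : MvPowerSeries I ℚ :=
  ∏ ik ∈ E.support, rpw (uS a ik.1 ik.2) (E ik)

/-- the column `∑ E(i,k) d log Q_{i,k}`. -/
noncomputable def dl (a : I → I → ℕ) (E : QE I) (l : I) : MvPowerSeries I ℚ :=
  ∑ ik ∈ E.support, C (E ik) * xv a ik.1 ik.2 l

/-- `t_i`-degree of the monomial `∏ Q^E`. -/
noncomputable def tdg (E : QE I) (i : I) : ℚ :=
  ∑ jk ∈ E.support, if jk.1 = i then E jk * (jk.2 : ℚ) else 0

/-- `(C γ)_i` for rational vectors. -/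
def cq (a : I → I → ℕ) (γ : I → ℚ) (i : I) : ℚ := ∑ j, (cart a i j : ℚ) * γ j

/-- integral part of `γ` as a `Finsupp`. -/
noncomputable def gN (γ : I → ℚ) : I →₀ ℕ := Finsupp.equivFunOnFinite.symm (fun i => ⌊γ i⌋₊)

/-- admissibility: `γ ∈ ℕ^I` and the `t`-degrees match. -/
def TOk (a : I → I → ℕ) (T : Trm I) : Prop :=
  (∀ i, ((⌊T.γ i⌋₊ : ℕ) : ℚ) = T.γ i) ∧ ∀ i, tdg T.E i = cq a T.γ i

/-- the value of a term without the admissibility condition. -/
noncomputable def TV0 (a : I → I → ℕ) (T : Trm I) : ℚ :=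
  coeff (gN T.γ) (mU a T.E * (colMat (fun i => dl a (T.Λ i))).det)

/-- the value of a term. -/
noncomputable def TV (a : I → I → ℕ) (T : Trm I) : ℚ := by
  classical
  exact if TOk a T then TV0 a T else 0

/-- `∑_j C_{xj} (j,k)`: the exponents of `η_{x,k}^{-1}` and the column `θ_x = -d log η_{x,k}`. -/
noncomputable def cE (a : I → I → ℕ) (x : I) (k : ℕ) : QE I :=
  ∑ j, ((cart a x j : ℤ) : ℚ) • sy j k

namespace Trm

/-- multiplication by the monomial with exponents `F`. -/
noncomputable def mulE (T : Trm I) (F : QE I) : Trm I := ⟨T.γ, T.E + F, T.Λ⟩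

/-- multiplication by `∏_x η_{x,k}^{δ_x}`. -/
noncomputable def eta (a : I → I → ℕ) (k : ℕ) (δ : I → ℚ) (T : Trm I) : Trm I :=
  ⟨fun i => T.γ i - k * δ i, T.E - ∑ x, δ x • cE a x k, T.Λ⟩

/-- replace one column. -/
noncomputable def col (T : Trm I) (j : I) (c : QE I) : Trm I :=
  ⟨T.γ, T.E, Function.update T.Λ j c⟩

/-- replace the columns of the vertices in `R`. -/
noncomputable def cols (T : Trm I) (R : Finset I) (c : I → QE I) : Trm I :=
  ⟨T.γ, T.E, fun i => if i ∈ R then c i else T.Λ i⟩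

/-- the power `p` (columns unchanged). -/
noncomputable def pow (p : ℚ) (T : Trm I) : Trm I := ⟨fun i => p * T.γ i, p • T.E, T.Λ⟩

end Trm

/-- second difference `(x,k+1) - 2 (x,k) + (x,k-1)`: the exponents of `1 - η_{x,k}`. -/
noncomputable def dd {I : Type} (x : I) (k : ℕ) : QE I := sy x (k + 1) - (2 : ℚ) • sy x k + sy x (k - 1)

/-- `q` is `p`-integral. -/
def PI (p : ℕ) (q : ℚ) : Prop := ¬ p ∣ q.den

/-- `q` is divisible by `p` in the `p`-integral numbers. -/
def PD (p : ℕ) (q : ℚ) : Prop := ∃ r : ℚ, PI p r ∧ q = p * r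

/-- direction `x` is regular up to the symbols in `S`: all exponents of `x` (levels `≥ 1`) are natural numbers and every
symbol `(x,l)` in a column is compensated by a positive exponent. -/
def DReg (T : Trm I) (x : I) : Prop :=
  (∀ l, 1 ≤ l → ∃ n : ℕ, T.E (x, l) = n) ∧
    ∀ j l, 1 ≤ l → T.Λ j (x, l) ≠ 0 → 1 ≤ T.E (x, l)

end

end Pool.Agent.H27.KAC

end

section

/-!
KAC, ADE clusters: finite type sets of vertices, chip firing, regular terms (definitions).
-/

set_option autoImplicit false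

namespace Pool.Agent.H27.KAC

open scoped BigOperators

/-- `q` is an integer. -/
def IsZ (q : ℚ) : Prop := ∃ n : ℤ, q = n

/-- `q` is a natural number. -/
def IsN (q : ℚ) : Prop := ∃ n : ℕ, q = n

section

variable {I : Type} [Fintype I] [DecidableEq I]

/-- `(C v|_N)_i`. -/
def cqN (a : I → I → ℕ) (N : Finset I) (v : I → ℚ) (i : I) : ℚ := ∑ j ∈ N, (cart a i j : ℚ) * v j

/-- `N` is a set of loop-free vertices with positive definite Cartan matrix. -/
structure FinT (a : I → I → ℕ) (N : Finset I) : Prop where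
  loopfree : ∀ x ∈ N, a x x = 0
  pos : ∀ v : I → ℚ, (∃ i ∈ N, v i ≠ 0) → 0 < ∑ i ∈ N, v i * cqN a N v i

/-- `N` is (nonempty and) connected. -/
def ConnS (a : I → I → ℕ) (N : Finset I) : Prop :=
  N.Nonempty ∧ ∀ S ⊆ N, S.Nonempty → S ≠ N → ∃ i ∈ S, ∃ j ∈ N, j ∉ S ∧ 0 < a i j

/-- the solution of `C_N v = b` with support in `N` (zero if there is none). -/
noncomputable def solN (a : I → I → ℕ) (N : Finset I) (b : I → ℚ) : I → ℚ := by
  classical
  exact if h : ∃ v : I → ℚ, (∀ i, i ∉ N → v i = 0) ∧ ∀ i ∈ N, cqN a N v i = b i then h.choose else 0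

/-- legal chip firing in `N` with threshold `θ`: `FireTo a N θ ν v` means that starting from the configuration `ν` the
vertices can be fired `v` times, each fired vertex `x` having `ν x ≥ θ` before it is fired; firing `x` subtracts
`C_{i x}` from `ν i`. -/
inductive FireTo (a : I → I → ℕ) (N : Finset I) (θ : ℤ) : (I → ℤ) → (I → ℕ) → Prop
  | nil (ν : I → ℤ) : FireTo a N θ ν 0
  | cons (ν : I → ℤ) (v : I → ℕ) (x : I) (hx : x ∈ N) (h : θ ≤ ν x)
      (hv : FireTo a N θ (fun i => ν i - cart a i x) v) : FireTo a N θ ν (v + Pi.single x 1)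

/-- connected components of `N`, as the set of all subsets which are connected and have no edge to the rest. -/
noncomputable def comps (a : I → I → ℕ) (N : Finset I) : Finset (Finset I) := by
  classical
  exact N.powerset.filter (fun A => ConnS a A ∧ ∀ i ∈ A, ∀ j ∈ N, j ∉ A → a i j = 0)

/-- multiplication by `∏_x η_{x,κ_x}^{δ_x}`. -/
noncomputable def Trm.etaM (a : I → I → ℕ) (κ : I → ℕ) (δ : I → ℚ) (T : Trm I) : Trm I :=
  ⟨fun i => T.γ i - κ i * δ i, T.E - ∑ x, δ x • cE a x (κ x), T.Λ⟩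

/-- direction `x` is ready for firing at level `k` with side level `σ`: natural exponents at the levels `≠ k`, integral
exponent at level `k`, all symbols `(x,l)` in the columns are at the levels `σ`, `k` or compensated. -/
structure FReg (T : Trm I) (x : I) (k σ : ℕ) : Prop where
  nat : ∀ l, 1 ≤ l → l ≠ k → IsN (T.E (x, l))
  int : IsZ (T.E (x, k))
  col : ∀ j l, 1 ≤ l → T.Λ j (x, l) ≠ 0 → l = σ ∨ l = k ∨ 1 ≤ T.E (x, l)

/-- `σ = k + 1` or `k - 1`. -/
def Side (k σ : ℕ) : Prop := σ = k + 1 ∨ σ + 1 = k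

/-- `T` is regular in the directions of `R`; the columns of the vertices of `R` itself are ignored (they will be
replaced). -/
structure RReg (R : Finset I) (T : Trm I) : Prop where
  nat : ∀ x ∈ R, ∀ l, 1 ≤ l → IsN (T.E (x, l))
  col : ∀ x ∈ R, ∀ j, j ∉ R → ∀ l, 1 ≤ l → T.Λ j (x, l) ≠ 0 → 1 ≤ T.E (x, l)

/-- restriction of a vector to `R`. -/
def resQ (R : Finset I) (q : I → ℚ) (i : I) : ℚ := if i ∈ R then q i else 0

/-- normalised insertion at level `k` on `R`, columns `(x, σ)` for `x ∈ R`. -/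
noncomputable def blkT (a : I → I → ℕ) (R : Finset I) (k σ : ℕ) (q : I → ℚ) (T : Trm I) : Trm I :=
  (T.eta a k (fun i => -resQ R q i)).cols R (fun x => sy x σ)

/-- `tau_{k+1}^R[q]`. -/
noncomputable abbrev tauT (a : I → I → ℕ) (R : Finset I) (k : ℕ) (q : I → ℚ) (T : Trm I) : Trm I :=
  blkT a R k (k + 1) q T

/-- `Up_k^R[q]`. -/
noncomputable abbrev upT (a : I → I → ℕ) (R : Finset I) (k : ℕ) (q : I → ℚ) (T : Trm I) : Trm I :=
  blkT a R k (k - 1) q T

/-- `q` is an admissible class representative on `R`: `C_R q` is integral and `≥ 1` on `R`. -/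
def QOk (a : I → I → ℕ) (R : Finset I) (q : I → ℚ) : Prop :=
  ∀ x ∈ R, ∃ n : ℕ, 1 ≤ n ∧ cqN a R q x = n

/-- the raw term with `m_x` factors `η_{x,k}`, `x ∈ R`, columns `θ_x` if `m_x ≥ 1`, `(x,k-1)` if `m_x = 0`. -/
noncomputable def rawT (a : I → I → ℕ) (R : Finset I) (k : ℕ) (q : I → ℚ) (m : I → ℕ) (T : Trm I) :
    Trm I :=
  (T.eta a k (fun i => if i ∈ R then (m i : ℚ) - q i else 0)).cols R
    (fun x => if m x = 0 then sy x (k - 1) else cE a x k)

/-- the box of multiplicities on `R` bounded by `B`. -/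
noncomputable def mbox (R : Finset I) (B : ℕ) : Finset (I → ℕ) :=
  Fintype.piFinset (fun i => if i ∈ R then Finset.range (B + 1) else {0})

/-- sign `(-1)^{#{x ∈ R : m_x = 0}}`. -/
def sgm (R : Finset I) (m : I → ℕ) : ℚ := (-1) ^ (R.filter (fun x => m x = 0)).card

/-- a sufficient bound for the multiplicities. -/
noncomputable def bnd (R : Finset I) (k : ℕ) (q : I → ℚ) (T : Trm I) : ℕ :=
  ∑ i ∈ R, ⌊T.γ i + k * q i⌋₊

/-- the plateau condition: `m_x = 0` or `m_x = q_x` for all `x ∈ R`. -/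
def Plat (R : Finset I) (q : I → ℚ) (m : I → ℕ) : Prop := ∀ x ∈ R, m x = 0 ∨ (m x : ℚ) = q x

open Classical in
/-- the restart part `R_k` of `tau_{k+1}` (level `k ≥ 1`). -/
noncomputable def Rv (a : I → I → ℕ) (R : Finset I) (k : ℕ) (q : I → ℚ) (T : Trm I) : ℚ :=
  ∑ m ∈ (mbox R (bnd R k q T)).filter (fun m => ¬ Plat R q m), sgm R m * TV a (rawT a R k q m T)

open Classical in
/-- the plateau part `PP_k` of `tau_{k+1}` (level `k ≥ 1`). -/
noncomputable def PPv (a : I → I → ℕ) (R : Finset I) (k : ℕ) (q : I → ℚ) (T : Trm I) : ℚ :=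
  ∑ m ∈ (mbox R (bnd R k q T)).filter (fun m => Plat R q m), sgm R m * TV a (rawT a R k q m T)

/-- `T` has a kink at level `f` in `R`. -/
def Kink (R : Finset I) (f : ℕ) (T : Trm I) : Prop := ∃ x ∈ R, 1 ≤ T.E (x, f)

end

end Pool.Agent.H27.KAC

end
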