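import Pool.Agent.H16.TKA.H27.KAC.KQFil
import Pool.Agent.H16.TKA.M05
import Pool.Agent.H16.TKA.M07

/-! The parts of this file: H27.KAC.KQFil_1, H41.KA.AD1, H41.KA.AD2, H41.KA.AD3. -/

section

/-!
KAC module KQFil: the filtration `Fil a x r` (all monomials `Y^β` occurring satisfy `(Cβ)_x ≤ r`).
`β ↦ (Cβ)_x` is additive, so everything is elementary; for the inverse of a unit `u ∈ Fil 0`
with constant coefficient 1 use strong induction on the total degree of `β` in the recursion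
`coeff β (u⁻¹) = - ∑_{(β1,β2), β2 ≠ β} coeff β1 u * coeff β2 u⁻¹`.
-/

namespace Pool.Agent.H27.KAC

open scoped BigOperators
open MvPowerSeries

variable {I : Type} [Fintype I] [DecidableEq I]

theorem Fil_intCast (a : I → I → ℕ) (x : I) (n : ℤ) : Fil a x 0 (n : MvPowerSeries I ℚ) := by
  have h := Fil_C a x n
  rwa [map_intCast] at h

theorem Fil.sum {ι : Type} {a : I → I → ℕ} {x : I} {r : ℤ} {s : Finset ι}
    {F : ι → MvPowerSeries I ℚ} (h : ∀ j ∈ s, Fil a x r (F j)) : Fil a x r (∑ j ∈ s, F j) := by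
  classical
  induction s using Finset.induction_on with
  | empty =>
    rw [Finset.sum_empty]
    exact Fil_zero a x r
  | insert j s hj ih =>
    rw [Finset.sum_insert hj]
    exact (h j (Finset.mem_insert_self j s)).add
      (ih fun i hi => h i (Finset.mem_insert_of_mem hi))

theorem Fil_zpow {a : I → I → ℕ} {x : I} {u : (MvPowerSeries I ℚ)ˣ}
    (h : Fil a x 0 (u : MvPowerSeries I ℚ)) (h1 : constantCoeff (u : MvPowerSeries I ℚ) = 1)
    (n : ℤ) : Fil a x 0 ((u ^ n : (MvPowerSeries I ℚ)ˣ) : MvPowerSeries I ℚ) := by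
  obtain ⟨m, hm | hm⟩ := n.eq_nat_or_neg
  · rw [hm, zpow_natCast, Units.val_pow_eq_pow_val]
    exact (h.pow m).mono (by simp)
  · rw [hm, zpow_neg, zpow_natCast, ← inv_pow, Units.val_pow_eq_pow_val]
    exact ((Fil_inv h h1).pow m).mono (by simp)

theorem Fil_dD {a : I → I → ℕ} {x : I} {r : ℤ} {F : MvPowerSeries I ℚ} (h : Fil a x r F) (l : I) :
    Fil a x r (dD a l F) := by
  intro β hβ
  rw [coeff_dD] at hβ
  exact h β (right_ne_zero_of_mul hβ)

/-- `r F + D_x F` has no monomials with `(Cβ)_x = r`. -/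
theorem Fil_dD_gain {a : I → I → ℕ} {x : I} {r : ℤ} {F : MvPowerSeries I ℚ} (h : Fil a x r F) :
    Fil a x (r - 1) ((r : MvPowerSeries I ℚ) * F + dD a x F) := by
  intro β hβ
  have h1 : coeff β ((r : MvPowerSeries I ℚ) * F + dD a x F) =
      ((r : ℚ) - (cw a β x : ℤ)) * coeff β F := by
    have h2 : (r : MvPowerSeries I ℚ) = C (r : ℚ) :=
      (map_intCast (C : ℚ →+* MvPowerSeries I ℚ) r).symm
    rw [map_add, coeff_dD, h2, coeff_C_mul]
    ring
  rw [h1] at hβ
  have h3 := h β (right_ne_zero_of_mul hβ)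
  have h4 : cw a β x ≠ r := by
    intro h5
    apply left_ne_zero_of_mul hβ
    rw [h5, sub_self]
  omega

theorem Fil.coeff_eq_zero {a : I → I → ℕ} {x : I} {r : ℤ} {F : MvPowerSeries I ℚ}
    (h : Fil a x r F) {γ : I →₀ ℕ} (hγ : r < cw a γ x) : coeff γ F = 0 := by
  by_contra h0
  exact absurd (h γ h0) (not_le.2 hγ)

theorem VReg.smul {a : I → I → ℕ} {x : I} {r s : ℤ} {F : MvPowerSeries I ℚ}
    {v : I → MvPowerSeries I ℚ} (h : Fil a x s F) (h' : VReg a x r v) :
    VReg a x (s + r) (fun l => F * v l) :=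
  ⟨fun l hl => h.mul (h'.1 l hl), (h.mul h'.2).mono (by omega)⟩

theorem VReg.sum {ι : Type} {a : I → I → ℕ} {x : I} {r : ℤ} {s : Finset ι}
    {v : ι → I → MvPowerSeries I ℚ} (h : ∀ j ∈ s, VReg a x r (v j)) :
    VReg a x r (fun l => ∑ j ∈ s, v j l) :=
  ⟨fun l hl => Fil.sum fun j hj => (h j hj).1 l hl, Fil.sum fun j hj => (h j hj).2⟩

end Pool.Agent.H27.KAC

end

section

/-!
KAC ADE, module AD1: rational powers of series with constant coefficient one.

`rpw u q = (PowerSeries.binomialSeries ℚ q).subst (u - 1)`; use `PowerSeries.subst_mul`, `PowerSeries.binomialSeries_add`,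
`PowerSeries.binomialSeries_nat`, `PowerSeries.coeff_subst`.  For `rpw_mul` and `rpw_rpw` one can use uniqueness of `d`-th
roots: if `constantCoeff v = constantCoeff w = 1` and `v ^ d = w ^ d` with `d ≥ 1`, then `v = w`.
-/

set_option autoImplicit false

namespace Pool.Agent.H27.KAC

open scoped BigOperators
open MvPowerSeries

section

variable {I : Type} [Fintype I] [DecidableEq I]

theorem AD1_hasSubst {w : MvPowerSeries I ℚ} (hw : constantCoeff w = 0) :
    PowerSeries.HasSubst w := PowerSeries.HasSubst.of_constantCoeff_zero hw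

theorem AD1_hs (u : MvPowerSeries I ℚ) (hu : constantCoeff u = 1) :
    PowerSeries.HasSubst (u - 1) := by
  apply AD1_hasSubst
  rw [map_sub, hu, map_one, sub_self]

theorem AD1_subst_one {w : MvPowerSeries I ℚ} (hw : PowerSeries.HasSubst w) :
    PowerSeries.subst w (1 : PowerSeries ℚ) = 1 := by
  rw [← PowerSeries.coe_substAlgHom hw, map_one]

theorem rpw_const (u : MvPowerSeries I ℚ) (hu : constantCoeff u = 1) (q : ℚ) :
    constantCoeff (rpw u q) = 1 := by
  have h0 : constantCoeff (u - 1) = 0 := by rw [map_sub, hu, map_one, sub_self]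
  have h1 := PowerSeries.constantCoeff_subst_eq_zero h0 (PowerSeries.binomialSeries ℚ q - 1)
    (by rw [map_sub, PowerSeries.binomialSeries_constantCoeff, map_one, sub_self])
  rw [PowerSeries.subst_sub (AD1_hs u hu), AD1_subst_one (AD1_hs u hu), map_sub, map_one] at h1
  exact sub_eq_zero.1 h1

theorem rpw_zero (u : MvPowerSeries I ℚ) (hu : constantCoeff u = 1) : rpw u 0 = 1 := by
  unfold rpw
  rw [PowerSeries.binomialSeries_zero, AD1_subst_one (AD1_hs u hu)]

theorem rpw_add (u : MvPowerSeries I ℚ) (hu : constantCoeff u = 1) (q r : ℚ) :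
    rpw u (q + r) = rpw u q * rpw u r := by
  unfold rpw
  rw [PowerSeries.binomialSeries_add, PowerSeries.subst_mul (AD1_hs u hu)]

theorem rpw_nat (u : MvPowerSeries I ℚ) (hu : constantCoeff u = 1) (n : ℕ) :
    rpw u (n : ℚ) = u ^ n := by
  unfold rpw
  rw [PowerSeries.binomialSeries_nat, PowerSeries.subst_pow (AD1_hs u hu),
    PowerSeries.subst_add (AD1_hs u hu), AD1_subst_one (AD1_hs u hu),
    PowerSeries.subst_X (AD1_hs u hu), add_sub_cancel]

theorem rpw_one (u : MvPowerSeries I ℚ) (hu : constantCoeff u = 1) : rpw u 1 = u := by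
  have h := rpw_nat u hu 1
  rwa [Nat.cast_one, pow_one] at h

theorem rpw_unit_left (q : ℚ) : rpw (1 : MvPowerSeries I ℚ) q = 1 := by
  unfold rpw
  rw [sub_self, PowerSeries.subst_zero_eq_C_constantCoeff, PowerSeries.binomialSeries_constantCoeff,
    map_one, map_one]

theorem rpw_nat_mul (u : MvPowerSeries I ℚ) (hu : constantCoeff u = 1) (n : ℕ) (q : ℚ) :
    rpw u (n * q) = rpw u q ^ n := by
  induction n with
  | zero => rw [Nat.cast_zero, zero_mul, rpw_zero u hu, pow_zero]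
  | succ n ih =>
    rw [pow_succ, ← ih, ← rpw_add u hu]
    congr 1
    push_cast
    ring

theorem AD1_isUnit (u : MvPowerSeries I ℚ) (hu : constantCoeff u = 1) : IsUnit u := by
  rw [MvPowerSeries.isUnit_iff_constantCoeff, hu]
  exact isUnit_one

/-- uniqueness of roots. -/
theorem root_unique (v w : MvPowerSeries I ℚ) (hv : constantCoeff v = 1) (hw : constantCoeff w = 1)
    (d : ℕ) (hd : 1 ≤ d) (h : v ^ d = w ^ d) : v = w := by
  have h1 := (Commute.all v w).geom_sum₂_mul d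
  rw [h, sub_self] at h1
  have h2 : IsUnit (∑ i ∈ Finset.range d, v ^ i * w ^ (d - 1 - i)) := by
    rw [MvPowerSeries.isUnit_iff_constantCoeff, map_sum]
    have h3 : ∀ i ∈ Finset.range d, constantCoeff (v ^ i * w ^ (d - 1 - i)) = (1 : ℚ) := by
      intro i _
      rw [map_mul, map_pow, map_pow, hv, hw, one_pow, one_pow, mul_one]
    rw [Finset.sum_congr rfl h3, Finset.sum_const, Finset.card_range, nsmul_eq_mul, mul_one]
    exact isUnit_iff_ne_zero.2 (Nat.cast_ne_zero.2 (by omega))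
  exact sub_eq_zero.1 ((h2.mul_right_eq_zero).1 h1)

/-- inverse exponents. -/
theorem AD1_neg (u : MvPowerSeries I ℚ) (hu : constantCoeff u = 1) (q : ℚ) :
    rpw u (-q) * rpw u q = 1 := by
  rw [← rpw_add u hu, neg_add_cancel, rpw_zero u hu]

/-- cancellation of a natural power with a unit. -/
theorem AD1_cancel {x y z : MvPowerSeries I ℚ} (hz : IsUnit z) (h : x * z = y * z) : x = y :=
  hz.mul_right_cancel h

/-- reduction of statements on rational exponents to integer exponents. -/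
theorem AD1_q (q : ℚ) : ∃ (n : ℤ) (d : ℕ), 1 ≤ d ∧ (d : ℚ) * q = n := by
  refine ⟨q.num, q.den, q.den_pos, ?_⟩
  rw [mul_comm]
  exact Rat.mul_den_eq_num q

theorem AD1_const_mul {u v : MvPowerSeries I ℚ} (hu : constantCoeff u = 1)
    (hv : constantCoeff v = 1) : constantCoeff (u * v) = 1 := by
  rw [map_mul, hu, hv, one_mul]

theorem AD1_mul_nat (u v : MvPowerSeries I ℚ) (hu : constantCoeff u = 1) (hv : constantCoeff v = 1)
    (n : ℕ) : rpw (u * v) (n : ℚ) = rpw u n * rpw v n := by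
  rw [rpw_nat _ (AD1_const_mul hu hv), rpw_nat u hu, rpw_nat v hv, mul_pow]

theorem AD1_mul_int (u v : MvPowerSeries I ℚ) (hu : constantCoeff u = 1) (hv : constantCoeff v = 1)
    (n : ℤ) : rpw (u * v) (n : ℚ) = rpw u n * rpw v n := by
  obtain ⟨m, hm | hm⟩ := n.eq_nat_or_neg
  · rw [hm, Int.cast_natCast]
    exact AD1_mul_nat u v hu hv m
  · have h0 : ((n : ℤ) : ℚ) = -(m : ℚ) := by rw [hm]; push_cast; rfl
    rw [h0]
    have h1 := AD1_neg (u * v) (AD1_const_mul hu hv) (m : ℚ)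
    have h2 := AD1_neg u hu (m : ℚ)
    have h3 := AD1_neg v hv (m : ℚ)
    have h4 := AD1_mul_nat u v hu hv m
    refine AD1_cancel (AD1_isUnit _ (rpw_const (u * v) (AD1_const_mul hu hv) (m : ℚ))) ?_
    rw [h1, h4]
    linear_combination (-1 : MvPowerSeries I ℚ) * h3 - rpw v (-(m : ℚ)) * rpw v (m : ℚ) * h2

theorem rpw_mul (u v : MvPowerSeries I ℚ) (hu : constantCoeff u = 1) (hv : constantCoeff v = 1)
    (q : ℚ) : rpw (u * v) q = rpw u q * rpw v q := by
  obtain ⟨n, d, hd, h⟩ := AD1_q q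
  refine root_unique _ _ (rpw_const _ (AD1_const_mul hu hv) q)
    (AD1_const_mul (rpw_const u hu q) (rpw_const v hv q)) d hd ?_
  rw [mul_pow, ← rpw_nat_mul _ (AD1_const_mul hu hv), ← rpw_nat_mul u hu, ← rpw_nat_mul v hv, h]
  exact AD1_mul_int u v hu hv n

theorem rpw_rpw (u : MvPowerSeries I ℚ) (hu : constantCoeff u = 1) (q r : ℚ) :
    rpw (rpw u q) r = rpw u (q * r) := by
  obtain ⟨n, d, hd, h⟩ := AD1_q r
  have hc := rpw_const u hu q
  refine root_unique _ _ (rpw_const _ hc r) (rpw_const u hu _) d hd ?_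
  rw [← rpw_nat_mul _ hc, ← rpw_nat_mul u hu, h]
  have h1 : (d : ℚ) * (q * r) = q * n := by rw [← h]; ring
  rw [h1]
  have hnat : ∀ m : ℕ, rpw (rpw u q) (m : ℚ) = rpw u (q * m) := by
    intro m
    rw [rpw_nat _ hc, mul_comm, rpw_nat_mul u hu]
  obtain ⟨m, hm | hm⟩ := n.eq_nat_or_neg
  · rw [hm, Int.cast_natCast]
    exact hnat m
  · have h0 : ((n : ℤ) : ℚ) = -(m : ℚ) := by rw [hm]; push_cast; rfl
    rw [h0]
    refine AD1_cancel (AD1_isUnit _ (rpw_const (rpw u q) hc (m : ℚ))) ?_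
    rw [AD1_neg _ hc, hnat m, ← rpw_add u hu]
    have h2 : q * -(m : ℚ) + q * m = 0 := by ring
    rw [h2, rpw_zero u hu]

/-- the set of exponents with the derivation rule. -/
def AD1_P (a : I → I → ℕ) (l : I) (u : MvPowerSeries I ℚ) (q : ℚ) : Prop :=
  dD a l (rpw u q) * u = C q * rpw u q * dD a l u

theorem AD1_P_zero (a : I → I → ℕ) (l : I) (u : MvPowerSeries I ℚ) (hu : constantCoeff u = 1) :
    AD1_P a l u 0 := by
  unfold AD1_P
  rw [rpw_zero u hu, dD_one, zero_mul, map_zero, zero_mul, zero_mul]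

theorem AD1_P_one (a : I → I → ℕ) (l : I) (u : MvPowerSeries I ℚ) (hu : constantCoeff u = 1) :
    AD1_P a l u 1 := by
  unfold AD1_P
  rw [rpw_one u hu, map_one]
  ring

theorem AD1_P_add (a : I → I → ℕ) (l : I) (u : MvPowerSeries I ℚ) (hu : constantCoeff u = 1)
    (q r : ℚ) (hq : AD1_P a l u q) (hr : AD1_P a l u r) : AD1_P a l u (q + r) := by
  unfold AD1_P at *
  rw [rpw_add u hu, dD_mul, map_add]
  linear_combination (rpw u r) * hq + (rpw u q) * hr

theorem AD1_P_neg (a : I → I → ℕ) (l : I) (u : MvPowerSeries I ℚ) (hu : constantCoeff u = 1)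
    (q : ℚ) (hq : AD1_P a l u q) : AD1_P a l u (-q) := by
  unfold AD1_P at *
  have h1 := AD1_neg u hu q
  have h2 : dD a l (rpw u (-q)) * rpw u q + rpw u (-q) * dD a l (rpw u q) = 0 := by
    rw [← dD_mul, h1, dD_one]
  refine AD1_cancel (AD1_isUnit _ (rpw_const u hu q)) ?_
  rw [map_neg]
  linear_combination u * h2 - rpw u (-q) * hq

theorem AD1_P_nat (a : I → I → ℕ) (l : I) (u : MvPowerSeries I ℚ) (hu : constantCoeff u = 1)
    (n : ℕ) : AD1_P a l u n := by
  induction n with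
  | zero => rw [Nat.cast_zero]; exact AD1_P_zero a l u hu
  | succ n ih =>
    rw [Nat.cast_succ]
    exact AD1_P_add a l u hu _ _ ih (AD1_P_one a l u hu)

theorem AD1_P_int (a : I → I → ℕ) (l : I) (u : MvPowerSeries I ℚ) (hu : constantCoeff u = 1)
    (n : ℤ) : AD1_P a l u n := by
  obtain ⟨m, hm | hm⟩ := n.eq_nat_or_neg
  · rw [hm, Int.cast_natCast]
    exact AD1_P_nat a l u hu m
  · have h0 : ((n : ℤ) : ℚ) = -(m : ℚ) := by rw [hm]; push_cast; rfl
    rw [h0]
    exact AD1_P_neg a l u hu _ (AD1_P_nat a l u hu m)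

/-- the derivations `dD`: `D (u^q) * u = q u^q D u`. -/
theorem dD_rpw (a : I → I → ℕ) (l : I) (u : MvPowerSeries I ℚ) (hu : constantCoeff u = 1) (q : ℚ) :
    dD a l (rpw u q) * u = C q * rpw u q * dD a l u := by
  obtain ⟨n, d, hd, h⟩ := AD1_q q
  obtain ⟨e, rfl⟩ : ∃ e, d = e + 1 := ⟨d - 1, by omega⟩
  have h1 := AD1_P_int a l u hu n
  unfold AD1_P at h1
  rw [← h, rpw_nat_mul u hu, dD_pow] at h1
  have hw := AD1_isUnit _ (rpw_const u hu q)
  have h2 : (C (((e + 1 : ℕ) : ℚ) * q) : MvPowerSeries I ℚ) =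
      ((e + 1 : ℕ) : MvPowerSeries I ℚ) * C q := by
    rw [map_mul, map_natCast]
  rw [h2] at h1
  have h3 : IsUnit ((((e + 1 : ℕ) : MvPowerSeries I ℚ)) * rpw u q ^ e) := by
    refine IsUnit.mul ?_ (hw.pow e)
    rw [MvPowerSeries.isUnit_iff_constantCoeff, map_natCast]
    exact isUnit_iff_ne_zero.2 (Nat.cast_ne_zero.2 (by omega))
  refine AD1_cancel h3 ?_
  linear_combination h1

theorem AD1_coeff (u : MvPowerSeries I ℚ) (hu : constantCoeff u = 1) (q : ℚ) (β : I →₀ ℕ)
    (h : coeff β (rpw u q) ≠ 0) : ∃ n : ℕ, coeff β ((u - 1) ^ n) ≠ 0 := by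
  by_contra hcon
  push Not at hcon
  apply h
  unfold rpw
  rw [PowerSeries.coeff_subst (AD1_hs u hu)]
  apply finsum_eq_zero_of_forall_eq_zero
  intro n
  rw [hcon n, smul_zero]

/-- regularity of degree zero is inherited by rational powers. -/
theorem Fil_rpw (a : I → I → ℕ) (x : I) (u : MvPowerSeries I ℚ) (hu : constantCoeff u = 1)
    (h : Fil a x 0 u) (q : ℚ) : Fil a x 0 (rpw u q) := by
  intro β hβ
  obtain ⟨n, hn⟩ := AD1_coeff u hu q β hβ
  have h1 : Fil a x 0 (u - 1) := h.sub (Fil_one a x)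
  have h2 := h1.pow n
  rw [mul_zero] at h2
  exact h2 β hn

/-- truncation of the binomial series. -/
theorem AD1_trunc (w : MvPowerSeries I ℚ) (hw : constantCoeff w = 0) (q : ℚ) (M : ℕ) :
    ∃ R : MvPowerSeries I ℚ, rpw (1 + w) q =
      ∑ m ∈ Finset.range (M + 1), C (Ring.choose q m) * w ^ m + w ^ (M + 1) * R := by
  have hs : PowerSeries.HasSubst w := AD1_hasSubst hw
  have h1 : ∃ S : PowerSeries ℚ, PowerSeries.binomialSeries ℚ q =
      ((PowerSeries.trunc (M + 1) (PowerSeries.binomialSeries ℚ q) : Polynomial ℚ) : PowerSeries ℚ) +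
        PowerSeries.X ^ (M + 1) * S := by
    have h2 : (PowerSeries.X : PowerSeries ℚ) ^ (M + 1) ∣ PowerSeries.binomialSeries ℚ q -
        ((PowerSeries.trunc (M + 1) (PowerSeries.binomialSeries ℚ q) : Polynomial ℚ) :
          PowerSeries ℚ) := by
      rw [PowerSeries.X_pow_dvd_iff]
      intro m hm
      rw [map_sub, Polynomial.coeff_coe, PowerSeries.coeff_trunc, if_pos hm, sub_self]
    obtain ⟨S, hS⟩ := h2
    exact ⟨S, by rw [← hS]; ring⟩
  obtain ⟨S, hS⟩ := h1
  refine ⟨PowerSeries.subst w S, ?_⟩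
  unfold rpw
  rw [add_sub_cancel_left, hS, PowerSeries.subst_add hs, PowerSeries.subst_mul hs,
    PowerSeries.subst_pow hs, PowerSeries.subst_X hs, PowerSeries.subst_coe hs,
    Polynomial.aeval_eq_sum_range' (n := M + 1) (PowerSeries.natDegree_trunc_lt _ _)]
  congr 1
  refine Finset.sum_congr rfl fun m hm => ?_
  rw [PowerSeries.coeff_trunc, if_pos (Finset.mem_range.1 hm), PowerSeries.binomialSeries_coeff,
    smul_eq_mul, mul_one, MvPowerSeries.smul_eq_C_mul]

/-- the binomial expansion of `(1 - X_x^n v)^q` up to a bound for the exponent of `X_x`. -/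
theorem coeff_rpw_one_sub (x : I) (n : ℕ) (hn : 1 ≤ n) (v G : MvPowerSeries I ℚ) (q : ℚ)
    (γ : I →₀ ℕ) (M : ℕ) (hM : γ x ≤ M) :
    coeff γ (rpw (1 - X x ^ n * v) q * G) =
      ∑ m ∈ Finset.range (M + 1), (-1 : ℚ) ^ m * Ring.choose q m *
        coeff γ (X x ^ (n * m) * v ^ m * G) := by
  have hw : constantCoeff (-(X x ^ n * v) : MvPowerSeries I ℚ) = 0 := by
    rw [map_neg, map_mul, map_pow, constantCoeff_X, zero_pow (by omega), zero_mul, neg_zero]
  obtain ⟨R, hR⟩ := AD1_trunc (-(X x ^ n * v)) hw q M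
  rw [sub_eq_add_neg, hR, add_mul, Finset.sum_mul, map_add, map_sum]
  have h1 : coeff γ ((-(X x ^ n * v)) ^ (M + 1) * R * G) = 0 := by
    have h2 : (-(X x ^ n * v)) ^ (M + 1) * R * G =
        X x ^ (n * (M + 1)) * ((-1) ^ (M + 1) * v ^ (M + 1) * R * G) := by
      rw [neg_pow, mul_pow, ← pow_mul]
      ring
    rw [h2, X_pow_eq, coeff_monomial_mul, if_neg]
    intro h3
    have h4 := Finsupp.single_le_iff.1 h3
    nlinarith
  rw [h1, add_zero]
  refine Finset.sum_congr rfl fun m _ => ?_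
  have h3 : C (Ring.choose q m) * (-(X x ^ n * v)) ^ m * G =
      C ((-1 : ℚ) ^ m * Ring.choose q m) * (X x ^ (n * m) * v ^ m * G) := by
    rw [neg_pow, mul_pow, ← pow_mul, map_mul, map_pow, map_neg, map_one]
    ring
  rw [h3, coeff_C_mul]

end

end Pool.Agent.H27.KAC

end

section

/-!
KAC ADE, module AD2: laws of `mU`, `dl`, `tdg`, `cE`.
-/

set_option autoImplicit false

namespace Pool.Agent.H27.KAC

open scoped BigOperators
open MvPowerSeries

section

variable {I : Type} [Fintype I] [DecidableEq I]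

theorem mU_eq_prod (a : I → I → ℕ) (E : QE I) (s : Finset (I × ℕ)) (hs : E.support ⊆ s) :
    mU a E = ∏ ik ∈ s, rpw (uS a ik.1 ik.2) (E ik) := by
  unfold mU
  refine Finset.prod_subset hs fun ik _ h => ?_
  rw [Finsupp.notMem_support_iff.1 h, rpw_zero _ (uS_const a ik.1 ik.2)]

theorem mU_const (a : I → I → ℕ) (E : QE I) : constantCoeff (mU a E) = 1 := by
  unfold mU
  rw [map_prod]
  exact Finset.prod_eq_one fun ik _ => rpw_const _ (uS_const a ik.1 ik.2) _

theorem mU_zero (a : I → I → ℕ) : mU a (0 : QE I) = 1 := by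
  unfold mU
  rw [Finsupp.support_zero, Finset.prod_empty]

theorem mU_add (a : I → I → ℕ) (E F : QE I) : mU a (E + F) = mU a E * mU a F := by
  rw [mU_eq_prod a (E + F) (E.support ∪ F.support) Finsupp.support_add,
    mU_eq_prod a E (E.support ∪ F.support) Finset.subset_union_left,
    mU_eq_prod a F (E.support ∪ F.support) Finset.subset_union_right, ← Finset.prod_mul_distrib]
  refine Finset.prod_congr rfl fun ik _ => ?_
  rw [Finsupp.add_apply, rpw_add _ (uS_const a ik.1 ik.2)]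

theorem mU_single (a : I → I → ℕ) (i : I) (k : ℕ) (q : ℚ) :
    mU a (Finsupp.single (i, k) q) = rpw (uS a i k) q := by
  rw [mU_eq_prod a _ {(i, k)} Finsupp.support_single_subset, Finset.prod_singleton,
    Finsupp.single_eq_same]

theorem AD2_rpw_prod {ι : Type} (s : Finset ι) (f : ι → MvPowerSeries I ℚ)
    (hf : ∀ j, constantCoeff (f j) = 1) (q : ℚ) :
    rpw (∏ j ∈ s, f j) q = ∏ j ∈ s, rpw (f j) q := by
  classical
  induction s using Finset.induction_on with
  | empty => rw [Finset.prod_empty, Finset.prod_empty, rpw_unit_left]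
  | insert j s hj ih =>
    rw [Finset.prod_insert hj, Finset.prod_insert hj, rpw_mul _ _ (hf j) _ q, ih]
    rw [map_prod]
    exact Finset.prod_eq_one fun j _ => hf j

theorem mU_smul (a : I → I → ℕ) (q : ℚ) (E : QE I) : mU a (q • E) = rpw (mU a E) q := by
  have h1 := AD2_rpw_prod E.support (fun ik => rpw (uS a ik.1 ik.2) (E ik))
    (fun ik => rpw_const _ (uS_const a ik.1 ik.2) _) q
  have h2 : rpw (mU a E) q = ∏ ik ∈ E.support, rpw (rpw (uS a ik.1 ik.2) (E ik)) q := h1
  rw [mU_eq_prod a (q • E) E.support Finsupp.support_smul, h2]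
  refine Finset.prod_congr rfl fun ik _ => ?_
  rw [rpw_rpw (uS a ik.1 ik.2) (uS_const a ik.1 ik.2) (E ik) q, Finsupp.smul_apply, smul_eq_mul,
    mul_comm q]

theorem AD2_dl_eq (a : I → I → ℕ) (E : QE I) (l : I) (s : Finset (I × ℕ)) (hs : E.support ⊆ s) :
    dl a E l = ∑ ik ∈ s, C (E ik) * xv a ik.1 ik.2 l := by
  unfold dl
  refine Finset.sum_subset hs fun ik _ h => ?_
  rw [Finsupp.notMem_support_iff.1 h, map_zero, zero_mul]

theorem dl_add (a : I → I → ℕ) (E F : QE I) (l : I) : dl a (E + F) l = dl a E l + dl a F l := by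
  rw [AD2_dl_eq a (E + F) l (E.support ∪ F.support) Finsupp.support_add,
    AD2_dl_eq a E l (E.support ∪ F.support) Finset.subset_union_left,
    AD2_dl_eq a F l (E.support ∪ F.support) Finset.subset_union_right, ← Finset.sum_add_distrib]
  refine Finset.sum_congr rfl fun ik _ => ?_
  rw [Finsupp.add_apply, map_add, add_mul]

theorem dl_smul (a : I → I → ℕ) (q : ℚ) (E : QE I) (l : I) : dl a (q • E) l = C q * dl a E l := by
  rw [AD2_dl_eq a (q • E) l E.support Finsupp.support_smul]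
  unfold dl
  rw [Finset.mul_sum]
  refine Finset.sum_congr rfl fun ik _ => ?_
  rw [Finsupp.smul_apply, smul_eq_mul, map_mul, mul_assoc]

theorem dl_zero (a : I → I → ℕ) (l : I) : dl a (0 : QE I) l = 0 := by
  unfold dl
  rw [Finsupp.support_zero, Finset.sum_empty]

theorem dl_single (a : I → I → ℕ) (i : I) (k : ℕ) (q : ℚ) (l : I) :
    dl a (Finsupp.single (i, k) q) l = C q * xv a i k l := by
  rw [AD2_dl_eq a _ l {(i, k)} Finsupp.support_single_subset, Finset.sum_singleton,
    Finsupp.single_eq_same]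

theorem dl_lev0 (a : I → I → ℕ) (i : I) (q : ℚ) (l : I) : dl a (Finsupp.single (i, 0) q) l = 0 := by
  rw [dl_single, xv_zero, mul_zero]

theorem AD2_tdg_eq (E : QE I) (i : I) (s : Finset (I × ℕ)) (hs : E.support ⊆ s) :
    tdg E i = ∑ jk ∈ s, if jk.1 = i then E jk * (jk.2 : ℚ) else 0 := by
  unfold tdg
  refine Finset.sum_subset hs fun ik _ h => ?_
  rw [Finsupp.notMem_support_iff.1 h, zero_mul, ite_self]

theorem tdg_add (E F : QE I) (i : I) : tdg (E + F) i = tdg E i + tdg F i := by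
  rw [AD2_tdg_eq (E + F) i (E.support ∪ F.support) Finsupp.support_add,
    AD2_tdg_eq E i (E.support ∪ F.support) Finset.subset_union_left,
    AD2_tdg_eq F i (E.support ∪ F.support) Finset.subset_union_right, ← Finset.sum_add_distrib]
  refine Finset.sum_congr rfl fun ik _ => ?_
  rw [Finsupp.add_apply]
  split_ifs
  · ring
  · ring

theorem tdg_smul (q : ℚ) (E : QE I) (i : I) : tdg (q • E) i = q * tdg E i := by
  rw [AD2_tdg_eq (q • E) i E.support Finsupp.support_smul]
  unfold tdg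
  rw [Finset.mul_sum]
  refine Finset.sum_congr rfl fun ik _ => ?_
  rw [Finsupp.smul_apply, smul_eq_mul]
  split_ifs
  · ring
  · ring

theorem tdg_zero (i : I) : tdg (0 : QE I) i = 0 := by
  unfold tdg
  rw [Finsupp.support_zero, Finset.sum_empty]

theorem tdg_single (j : I) (k : ℕ) (q : ℚ) (i : I) :
    tdg (Finsupp.single (j, k) q) i = if j = i then q * k else 0 := by
  rw [AD2_tdg_eq _ i {(j, k)} Finsupp.support_single_subset, Finset.sum_singleton,
    Finsupp.single_eq_same]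

/-- logarithmic derivative of a rational power. -/
theorem AD2_dD_rpw (a : I → I → ℕ) (l : I) (u : (MvPowerSeries I ℚ)ˣ)
    (hu : constantCoeff (u : MvPowerSeries I ℚ) = 1) (q : ℚ) :
    dD a l (rpw (u : MvPowerSeries I ℚ) q) =
      C q * dlg a u l * rpw (u : MvPowerSeries I ℚ) q := by
  have h1 := dD_rpw a l (u : MvPowerSeries I ℚ) hu q
  rw [dD_eq_dlg] at h1
  refine u.isUnit.mul_right_cancel ?_
  rw [h1]
  ring

theorem AD2_dl_mU (a : I → I → ℕ) (E : QE I) (l : I) (s : Finset (I × ℕ)) :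
    (∑ ik ∈ s, C (E ik) * xv a ik.1 ik.2 l) * (∏ ik ∈ s, rpw (uS a ik.1 ik.2) (E ik)) =
      C (∑ jk ∈ s, if jk.1 = l then E jk * (jk.2 : ℚ) else 0) *
        (∏ ik ∈ s, rpw (uS a ik.1 ik.2) (E ik)) +
      dD a l (∏ ik ∈ s, rpw (uS a ik.1 ik.2) (E ik)) := by
  classical
  induction s using Finset.induction_on with
  | empty =>
    rw [Finset.prod_empty, Finset.sum_empty, Finset.sum_empty, dD_one, map_zero]
    ring
  | insert ik s hj ih =>
    rw [Finset.prod_insert hj, Finset.sum_insert hj, Finset.sum_insert hj, dD_mul, map_add]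
    have h1 : dD a l (rpw (uS a ik.1 ik.2) (E ik)) =
        C (E ik) * dlg a (uu a ik.1 ik.2) l * rpw (uS a ik.1 ik.2) (E ik) := by
      have h2 := AD2_dD_rpw a l (uu a ik.1 ik.2) (by rw [uu_coe, uS_const]) (E ik)
      rw [uu_coe] at h2
      exact h2
    have h3 : (C (E ik) * xv a ik.1 ik.2 l : MvPowerSeries I ℚ) =
        C (if ik.1 = l then E ik * (ik.2 : ℚ) else 0) + C (E ik) * dlg a (uu a ik.1 ik.2) l := by
      unfold xv
      rw [mul_add]
      congr 1
      split_ifs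
      · rw [map_mul, map_natCast]
      · rw [mul_zero, map_zero]
    rw [h1, h3]
    linear_combination rpw (uS a ik.1 ik.2) (E ik) * ih

/-- `d log` of a monomial: `dl = tdg + D(mU)/mU`. -/
theorem dl_mU (a : I → I → ℕ) (E : QE I) (l : I) :
    dl a E l * mU a E = C (tdg E l) * mU a E + dD a l (mU a E) := by
  exact AD2_dl_mU a E l E.support

theorem cE_apply (a : I → I → ℕ) (x : I) (k : ℕ) (i : I) (l : ℕ) :
    cE a x k (i, l) = if l = k then ((cart a x i : ℤ) : ℚ) else 0 := by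
  unfold cE
  rw [Finsupp.finset_sum_apply]
  have h1 : ∀ j ∈ Finset.univ, (((cart a x j : ℤ) : ℚ) • sy j k) (i, l) =
      if j = i then (if l = k then ((cart a x j : ℤ) : ℚ) else 0) else 0 := by
    intro j _
    rw [Finsupp.smul_apply, Finsupp.single_apply, smul_eq_mul]
    by_cases h1 : j = i
    · by_cases h2 : l = k
      · rw [if_pos (by rw [h1, h2]), if_pos h1, if_pos h2, mul_one]
      · rw [if_neg (fun h => h2 (Prod.mk.inj h).2.symm), if_pos h1, if_neg h2, mul_zero]
    · rw [if_neg (fun h => h1 (Prod.mk.inj h).1), if_neg h1, mul_zero]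
  rw [Finset.sum_congr rfl h1, Finset.sum_ite_eq' Finset.univ i, if_pos (Finset.mem_univ _)]

theorem AD2_tdg_sum {ι : Type} (s : Finset ι) (f : ι → QE I) (i : I) :
    tdg (∑ j ∈ s, f j) i = ∑ j ∈ s, tdg (f j) i := by
  classical
  induction s using Finset.induction_on with
  | empty => rw [Finset.sum_empty, Finset.sum_empty, tdg_zero]
  | insert j s hj ih => rw [Finset.sum_insert hj, Finset.sum_insert hj, tdg_add, ih]

theorem tdg_cE (a : I → I → ℕ) (hs : ∀ i j, a i j = a j i) (x : I) (k : ℕ) (i : I) :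
    tdg (cE a x k) i = (k : ℚ) * ((cart a i x : ℤ) : ℚ) := by
  unfold cE
  rw [AD2_tdg_sum]
  have h1 : ∀ j ∈ Finset.univ, tdg (((cart a x j : ℤ) : ℚ) • sy j k) i =
      if j = i then ((cart a x j : ℤ) : ℚ) * (k : ℚ) else 0 := by
    intro j _
    rw [tdg_smul, tdg_single]
    split_ifs
    · rw [one_mul]
    · rw [mul_zero]
  rw [Finset.sum_congr rfl h1, Finset.sum_ite_eq' Finset.univ i, if_pos (Finset.mem_univ _)]
  have h2 : cart a x i = cart a i x := by
    unfold cart
    rw [hs x i]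
    by_cases h : x = i
    · rw [if_pos h, if_pos h.symm]
    · rw [if_neg h, if_neg (fun h' => h h'.symm)]
  rw [h2, mul_comm]

theorem cq_add (a : I → I → ℕ) (γ δ : I → ℚ) (i : I) :
    cq a (fun j => γ j + δ j) i = cq a γ i + cq a δ i := by
  unfold cq
  rw [← Finset.sum_add_distrib]
  exact Finset.sum_congr rfl fun j _ => mul_add _ _ _

theorem cq_smul (a : I → I → ℕ) (q : ℚ) (γ : I → ℚ) (i : I) :
    cq a (fun j => q * γ j) i = q * cq a γ i := by
  unfold cq
  rw [Finset.mul_sum]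
  exact Finset.sum_congr rfl fun j _ => by ring

theorem cq_single (a : I → I → ℕ) (x : I) (q : ℚ) (i : I) :
    cq a (Pi.single x q) i = ((cart a i x : ℤ) : ℚ) * q := by
  unfold cq
  rw [Finset.sum_eq_single x]
  · rw [Pi.single_eq_same]
  · intro j _ hj
    rw [Pi.single_eq_of_ne hj, mul_zero]
  · intro h
    exact absurd (Finset.mem_univ x) h

theorem AD2_mU_sum {ι : Type} (a : I → I → ℕ) (s : Finset ι) (f : ι → QE I) :
    mU a (∑ j ∈ s, f j) = ∏ j ∈ s, mU a (f j) := by
  classical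
  induction s using Finset.induction_on with
  | empty => rw [Finset.sum_empty, Finset.prod_empty, mU_zero]
  | insert j s hj ih => rw [Finset.sum_insert hj, Finset.prod_insert hj, mU_add, ih]

theorem AD2_mU_neg_cE (a : I → I → ℕ) (x : I) (k : ℕ) :
    mU a (-cE a x k) = (∏ j, uS a j k ^ (a x j)) * rpw (uS a x k) (-2) := by
  have h1 : -cE a x k = ∑ j, (-((cart a x j : ℤ) : ℚ)) • sy j k := by
    unfold cE
    rw [← Finset.sum_neg_distrib]
    exact Finset.sum_congr rfl fun j _ => (neg_smul _ _).symm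
  have h2 : ∀ j ∈ Finset.univ, mU a ((-((cart a x j : ℤ) : ℚ)) • sy j k) =
      uS a j k ^ (a x j) * (if x = j then rpw (uS a j k) (-2) else 1) := by
    intro j _
    rw [Finsupp.smul_single, mU_single, smul_eq_mul, mul_one]
    have h3 : (-((cart a x j : ℤ) : ℚ)) = (a x j : ℚ) + (if x = j then -2 else 0) := by
      unfold cart
      split_ifs
      · push_cast
        ring
      · push_cast
        ring
    rw [h3, rpw_add _ (uS_const a j k), rpw_nat _ (uS_const a j k)]
    split_ifs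
    · rfl
    · rw [rpw_zero _ (uS_const a j k)]
  rw [h1, AD2_mU_sum, Finset.prod_congr rfl h2, Finset.prod_mul_distrib,
    Finset.prod_ite_eq Finset.univ x, if_pos (Finset.mem_univ _)]

/-- `η_{x,k}` as a power series: `1 - η = U_{k+1} U_{k-1} / U_k^2`. -/
theorem mU_dd (a : I → I → ℕ) (x : I) (k : ℕ) (hk : 1 ≤ k) :
    mU a (dd x k) = 1 - X x ^ k * mU a (-cE a x k) := by
  obtain ⟨m, rfl⟩ : ∃ m, k = m + 1 := ⟨k - 1, by omega⟩
  have h1 : dd x (m + 1) = sy x (m + 2) + (-2 : ℚ) • sy x (m + 1) + sy x m := by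
    unfold dd
    rw [sub_eq_add_neg, ← neg_smul]
    rfl
  have h2 : mU a ((-2 : ℚ) • sy x (m + 1)) = rpw (uS a x (m + 1)) (-2) := by
    rw [Finsupp.smul_single, mU_single, smul_eq_mul, mul_one]
  have h3 : rpw (uS a x (m + 1)) (-2) * uS a x (m + 1) ^ 2 = 1 := by
    have h4 := AD1_neg (uS a x (m + 1)) (uS_const a x (m + 1)) ((2 : ℕ) : ℚ)
    rw [rpw_nat _ (uS_const a x (m + 1))] at h4
    exact h4
  rw [h1, mU_add, mU_add, h2, mU_single, mU_single, rpw_one _ (uS_const a x _),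
    rpw_one _ (uS_const a x _), AD2_mU_neg_cE]
  linear_combination rpw (uS a x (m + 1)) (-2) * uS_rec a x m + h3

end

end Pool.Agent.H27.KAC

end

section

/-!
KAC ADE, module AD3: elementary rules for `TV`.
-/

set_option autoImplicit false

namespace Pool.Agent.H27.KAC

open scoped BigOperators
open MvPowerSeries

section

variable {I : Type} [Fintype I] [DecidableEq I]

private theorem AD3_TOk_col (a : I → I → ℕ) (T : Trm I) (j : I) (c : QE I) :
    TOk a (T.col j c) ↔ TOk a T := Iff.rfl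

private theorem AD3_mat_col (a : I → I → ℕ) (T : Trm I) (j : I) (c : QE I) :
    colMat (fun i => dl a ((T.col j c).Λ i)) =
      (colMat (fun i => dl a (T.Λ i))).updateCol j (dl a c) := by
  ext1 l i
  rw [Matrix.updateCol_apply]
  show dl a (Function.update T.Λ j c i) l = _
  split_ifs with h
  · rw [h, Function.update_self]
  · rw [Function.update_of_ne h]
    rfl

private theorem AD3_TV0_col (a : I → I → ℕ) (T : Trm I) (j : I) (c : QE I) :
    TV0 a (T.col j c) = coeff (gN T.γ) (mU a T.E *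
      ((colMat (fun i => dl a (T.Λ i))).updateCol j (dl a c)).det) := by
  unfold TV0
  rw [AD3_mat_col]
  rfl

private theorem AD3_lev0 (a : I → I → ℕ) (D : QE I) (hD : ∀ i k, 1 ≤ k → D (i, k) = 0) :
    mU a D = 1 ∧ (∀ l, dl a D l = 0) ∧ ∀ i, tdg D i = 0 := by
  have h0 : ∀ ik ∈ D.support, ik.2 = 0 := by
    rintro ⟨i, k⟩ h
    by_contra hk
    exact (Finsupp.mem_support_iff.mp h) (hD i k (Nat.one_le_iff_ne_zero.mpr hk))
  refine ⟨?_, ?_, ?_⟩
  · unfold mU
    refine Finset.prod_eq_one ?_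
    intro ik hik
    rw [h0 ik hik, uS_zero, rpw_unit_left]
  · intro l
    unfold dl
    refine Finset.sum_eq_zero ?_
    intro ik hik
    rw [h0 ik hik, xv_zero, mul_zero]
  · intro i
    unfold tdg
    refine Finset.sum_eq_zero ?_
    intro ik hik
    rw [h0 ik hik, Nat.cast_zero, mul_zero, ite_self]

private theorem AD3_lev0' (a : I → I → ℕ) (E E' : QE I)
    (h : ∀ i k, 1 ≤ k → E (i, k) = E' (i, k)) :
    mU a E = mU a E' ∧ (∀ l, dl a E l = dl a E' l) ∧ ∀ i, tdg E i = tdg E' i := by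
  obtain ⟨h1, h2, h3⟩ := AD3_lev0 a (E - E') (fun i k hk => by
    rw [Finsupp.sub_apply, h i k hk, sub_self])
  have e : E = E' + (E - E') := by rw [add_sub_cancel]
  refine ⟨?_, ?_, ?_⟩
  · rw [e, mU_add, h1, mul_one]
  · intro l
    rw [e, dl_add, h2, add_zero]
  · intro i
    rw [e, tdg_add, h3, add_zero]

theorem TV_of_ok (a : I → I → ℕ) (T : Trm I) (h : TOk a T) : TV a T = TV0 a T := by
  unfold TV
  rw [if_pos h]

theorem TV_of_not (a : I → I → ℕ) (T : Trm I) (h : ¬ TOk a T) : TV a T = 0 := by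
  unfold TV
  rw [if_neg h]

/-- the value for a natural `γ`. -/
theorem TV_nat (a : I → I → ℕ) (γ : I →₀ ℕ) (E : QE I) (Λ : I → QE I)
    (h : ∀ i, tdg E i = (cw a γ i : ℚ)) :
    TV a ⟨fun i => (γ i : ℚ), E, Λ⟩ = coeff γ (mU a E * (colMat (fun i => dl a (Λ i))).det) := by
  have hg : gN (fun i => (γ i : ℚ)) = γ := by
    ext i
    show ⌊((γ i : ℕ) : ℚ)⌋₊ = γ i
    exact Nat.floor_natCast (γ i)
  have hok : TOk a ⟨fun i => (γ i : ℚ), E, Λ⟩ := by
    refine ⟨fun i => ?_, fun i => ?_⟩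
    · show ((⌊((γ i : ℕ) : ℚ)⌋₊ : ℕ) : ℚ) = (γ i : ℚ)
      rw [Nat.floor_natCast]
    · show tdg E i = cq a (fun i => (γ i : ℚ)) i
      rw [h i]
      unfold cw cq
      push_cast
      rfl
  rw [TV_of_ok a _ hok]
  unfold TV0
  rw [hg]

theorem TOk_congr (a : I → I → ℕ) (T T' : Trm I) (hγ : T.γ = T'.γ) (hE : T.E = T'.E) :
    TOk a T ↔ TOk a T' := by
  unfold TOk
  rw [hγ, hE]

theorem TV_neg (a : I → I → ℕ) (T : Trm I) (i : I) (h : T.γ i < 0) : TV a T = 0 := by
  refine TV_of_not a T ?_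
  rintro ⟨h1, -⟩
  have h2 := h1 i
  have h3 : (0 : ℚ) ≤ ((⌊T.γ i⌋₊ : ℕ) : ℚ) := Nat.cast_nonneg _
  rw [h2] at h3
  exact absurd h (not_lt.mpr h3)

theorem TV_col_add (a : I → I → ℕ) (T : Trm I) (j : I) (c c' : QE I) :
    TV a (T.col j (c + c')) = TV a (T.col j c) + TV a (T.col j c') := by
  by_cases h : TOk a T
  · rw [TV_of_ok a _ ((AD3_TOk_col a T j _).mpr h), TV_of_ok a _ ((AD3_TOk_col a T j _).mpr h),
      TV_of_ok a _ ((AD3_TOk_col a T j _).mpr h), AD3_TV0_col, AD3_TV0_col, AD3_TV0_col]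
    have e : dl a (c + c') = dl a c + dl a c' := by
      funext l
      exact dl_add a c c' l
    rw [e, Matrix.det_updateCol_add, mul_add, map_add]
  · rw [TV_of_not a _ (fun h' => h ((AD3_TOk_col a T j _).mp h')),
      TV_of_not a _ (fun h' => h ((AD3_TOk_col a T j _).mp h')),
      TV_of_not a _ (fun h' => h ((AD3_TOk_col a T j _).mp h')), add_zero]

theorem TV_col_smul (a : I → I → ℕ) (T : Trm I) (j : I) (q : ℚ) (c : QE I) :
    TV a (T.col j (q • c)) = q * TV a (T.col j c) := by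
  by_cases h : TOk a T
  · rw [TV_of_ok a _ ((AD3_TOk_col a T j _).mpr h), TV_of_ok a _ ((AD3_TOk_col a T j _).mpr h),
      AD3_TV0_col, AD3_TV0_col]
    have e : dl a (q • c) = (C q : MvPowerSeries I ℚ) • dl a c := by
      funext l
      exact dl_smul a q c l
    rw [e, Matrix.det_updateCol_smul, mul_left_comm, coeff_C_mul]
  · rw [TV_of_not a _ (fun h' => h ((AD3_TOk_col a T j _).mp h')),
      TV_of_not a _ (fun h' => h ((AD3_TOk_col a T j _).mp h')), mul_zero]

theorem TV_col_zero (a : I → I → ℕ) (T : Trm I) (j : I) : TV a (T.col j 0) = 0 := by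
  have h := TV_col_smul a T j 0 (0 : QE I)
  rw [zero_smul, zero_mul] at h
  exact h

theorem TV_col_self (a : I → I → ℕ) (T : Trm I) (j : I) : TV a (T.col j (T.Λ j)) = TV a T := by
  have e : T.col j (T.Λ j) = T := by
    unfold Trm.col
    rw [Function.update_eq_self]
  rw [e]

/-- two equal columns. -/
theorem TV_alt (a : I → I → ℕ) (T : Trm I) (i j : I) (hij : i ≠ j) (h : T.Λ i = T.Λ j) :
    TV a T = 0 := by
  by_cases hok : TOk a T
  · rw [TV_of_ok a _ hok]
    unfold TV0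
    rw [Matrix.det_zero_of_column_eq hij, mul_zero, map_zero]
    intro k
    show dl a (T.Λ i) k = dl a (T.Λ j) k
    rw [h]
  · exact TV_of_not a _ hok

theorem TV_perm (a : I → I → ℕ) (T : Trm I) (σ : Equiv.Perm I) :
    TV a ⟨T.γ, T.E, fun i => T.Λ (σ i)⟩ = ((Equiv.Perm.sign σ : ℤ) : ℚ) * TV a T := by
  by_cases hok : TOk a T
  · rw [TV_of_ok a T hok, TV_of_ok a ⟨T.γ, T.E, fun i => T.Λ (σ i)⟩ hok]
    unfold TV0
    show coeff (gN T.γ) (mU a T.E * (colMat (fun i => dl a (T.Λ (σ i)))).det) = _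
    have e : colMat (fun i => dl a (T.Λ (σ i))) =
        (colMat (fun i => dl a (T.Λ i))).submatrix id σ := rfl
    have e2 : (((Equiv.Perm.sign σ : ℤˣ) : ℤ) : MvPowerSeries I ℚ) =
        C (((Equiv.Perm.sign σ : ℤ) : ℚ)) := by
      rw [map_intCast]
    rw [e, Matrix.det_permute', e2, mul_left_comm, coeff_C_mul]
  · rw [TV_of_not a T hok, TV_of_not a ⟨T.γ, T.E, fun i => T.Λ (σ i)⟩ hok, mul_zero]

/-- linear change of the columns. -/
theorem TV_matrix (a : I → I → ℕ) (T : Trm I) (M : Matrix I I ℚ) :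
    TV a ⟨T.γ, T.E, fun i => ∑ j, M j i • T.Λ j⟩ = M.det * TV a T := by
  by_cases hok : TOk a T
  · rw [TV_of_ok a T hok, TV_of_ok a ⟨T.γ, T.E, fun i => ∑ j, M j i • T.Λ j⟩ hok]
    unfold TV0
    show coeff (gN T.γ) (mU a T.E * (colMat (fun i => dl a (∑ j, M j i • T.Λ j))).det) = _
    have hs : ∀ (s : Finset I) (f : I → QE I) (l : I),
        dl a (∑ j ∈ s, f j) l = ∑ j ∈ s, dl a (f j) l := by
      intro s f l
      induction s using Finset.induction_on with
      | empty =>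
        rw [Finset.sum_empty, Finset.sum_empty]
        exact dl_zero a l
      | insert i s his ih =>
        rw [Finset.sum_insert his, Finset.sum_insert his, dl_add, ih]
    have e : colMat (fun i => dl a (∑ j, M j i • T.Λ j)) =
        colMat (fun i => dl a (T.Λ i)) * (C : ℚ →+* MvPowerSeries I ℚ).mapMatrix M := by
      ext1 l i
      rw [Matrix.mul_apply]
      show dl a (∑ j, M j i • T.Λ j) l = ∑ j, dl a (T.Λ j) l * C (M j i)
      rw [hs]
      refine Finset.sum_congr rfl ?_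
      intro j _
      rw [dl_smul, mul_comm]
    rw [e, Matrix.det_mul, ← RingHom.map_det, ← mul_assoc, coeff_mul_C, mul_comm]
  · rw [TV_of_not a T hok, TV_of_not a ⟨T.γ, T.E, fun i => ∑ j, M j i • T.Λ j⟩ hok, mul_zero]

/-- only the symbols of level `≥ 1` matter. -/
theorem TV_lev0 (a : I → I → ℕ) (T T' : Trm I) (hγ : T.γ = T'.γ)
    (hE : ∀ i k, 1 ≤ k → T.E (i, k) = T'.E (i, k))
    (hΛ : ∀ j i k, 1 ≤ k → T.Λ j (i, k) = T'.Λ j (i, k)) : TV a T = TV a T' := by
  obtain ⟨h1, -, h3⟩ := AD3_lev0' a T.E T'.E hE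
  have h2 : ∀ j l, dl a (T.Λ j) l = dl a (T'.Λ j) l := fun j =>
    (AD3_lev0' a (T.Λ j) (T'.Λ j) (hΛ j)).2.1
  have hok : TOk a T ↔ TOk a T' := by
    unfold TOk
    rw [hγ]
    refine and_congr Iff.rfl (forall_congr' (fun i => ?_))
    rw [h3 i]
  have e : (fun i => dl a (T.Λ i)) = fun i => dl a (T'.Λ i) := by
    funext i l
    exact h2 i l
  by_cases h : TOk a T
  · rw [TV_of_ok a T h, TV_of_ok a T' (hok.mp h)]
    unfold TV0
    rw [h1, hγ, e]
  · rw [TV_of_not a T h, TV_of_not a T' (fun h' => h (hok.mpr h'))]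

/-- expansion of all columns in symbols. -/
theorem TV_col_sum (a : I → I → ℕ) {ι : Type} (T : Trm I) (j : I) (s : Finset ι) (c : ι → QE I) :
    TV a (T.col j (∑ i ∈ s, c i)) = ∑ i ∈ s, TV a (T.col j (c i)) := by
  classical
  induction s using Finset.induction_on with
  | empty =>
    rw [Finset.sum_empty, Finset.sum_empty]
    exact TV_col_zero a T j
  | insert i s his ih =>
    rw [Finset.sum_insert his, Finset.sum_insert his, TV_col_add, ih]

end

end Pool.Agent.H27.KAC

end
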