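import Pool.Agent.H16.TKA.M02
import Pool.Agent.H16.TKA.M04

/-! The parts of this file: H27.KAC.PI_Fac, H40.KADE.Defs, H40.KADE.E1, H40.KADE.E1c, H40.KADE.E3, H40.KADE.E4, H46.KA.Defs, H46.KA.B1, H46.KA.B1b. -/

section

/-!
Project KAC, part I.1, module PI_Fac: factorization of `π` over a finite extension `K` of degree `r` dividing `N`.

PROOF SKETCH.  `q = card F`, `r = finrank F K`, `N = r n`.  `s` = set of the monic irreducible factors of
`π.map (algebraMap F K)` (it is separable, so squarefree).  Each has degree `n`: let `π'` be a factor, `K' = K[X]/(π')`,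
`θ'` the class of `X`.  All `z ∈ K'` satisfy `z^(q^N) = z` (`θ'` is a root of `π`, `r ∣ N`), so `card K' ≤ q^N`, so
`r * deg π' ≤ N`; and `F(θ')` has degree `N`, so `N ≤ r * deg π'`.  The sum of the degrees is `N = r n`, so `s.card = r`.
If `v π(v) = 0`, `rank v = n`: let `W = range v`, of dimension `n` over `K`; `π(v) = 0` on `W`; since the product of the
`π'` is `π`, some `π'(v)` has a kernel `W' ≠ 0` on `W`, and `W'` is a vector space over `K[X]/(π')`, so of dimension at
least `n`: `W' = W`, so `π'(v) v = 0`.  (One can use `exists_chart` over `K`.)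
-/

set_option autoImplicit false

namespace Pool.Agent.H27.KAC

open scoped BigOperators
open Polynomial

/-- all irreducible factors over `K` have degree `n` -/
private theorem Fac_degree {F : Type} [Field F] [Fintype F] {K : Type} [Field K] [Fintype K]
    [Algebra F K] {π : F[X]} {N : ℕ} (hπ : GoodPi F π N) (n : ℕ)
    (hN : N = Module.finrank F K * n) {π' : K[X]} (hi : Irreducible π')
    (hd : π' ∣ π.map (algebraMap F K)) : π'.natDegree = n := by
  have hcard : Nat.card K = Nat.card F ^ Module.finrank F K := by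
    rw [Nat.card_eq_fintype_card, Nat.card_eq_fintype_card]
    exact Module.card_eq_pow_finrank
  have hr : 0 < Module.finrank F K := Module.finrank_pos
  -- upper bound
  have h1 : π ∣ X ^ (Nat.card F) ^ N - X := by
    rw [← hπ.irr.natDegree_dvd_iff_dvd_X_pow_card_pow_sub_X, hπ.deg]
  have h2 : π.map (algebraMap F K) ∣ X ^ (Nat.card K) ^ n - X := by
    have h3 := Polynomial.map_dvd (algebraMap F K) h1
    rw [Polynomial.map_sub, Polynomial.map_pow, Polynomial.map_X, hN, pow_mul, ← hcard] at h3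
    exact h3
  have h3 : π'.natDegree ∣ n :=
    hi.natDegree_dvd_of_dvd_X_pow_card_pow_sub_X (hd.trans h2)
  -- lower bound
  have h4 : N ∣ Module.finrank F K * π'.natDegree := by
    rw [← hπ.deg, hπ.irr.natDegree_dvd_iff_dvd_X_pow_card_pow_sub_X]
    by_contra hcon
    have h5 : IsCoprime π (X ^ (Nat.card F) ^ (Module.finrank F K * π'.natDegree) - X) :=
      hπ.irr.coprime_iff_not_dvd.2 hcon
    rw [← Polynomial.isCoprime_map (algebraMap F K), Polynomial.map_sub, Polynomial.map_pow,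
      Polynomial.map_X, pow_mul, ← hcard] at h5
    have h6 : π' ∣ X ^ (Nat.card K) ^ π'.natDegree - X :=
      hi.natDegree_dvd_iff_dvd_X_pow_card_pow_sub_X.1 dvd_rfl
    exact hi.not_isUnit (h5.isUnit_of_dvd' hd h6)
  rw [hN] at h4
  have h7 : n ∣ π'.natDegree := Nat.dvd_of_mul_dvd_mul_left hr h4
  exact Nat.dvd_antisymm h3 h7

/-- polynomials in a restricted matrix -/
private theorem Fac_restrict {K : Type} [Field K] {m : ℕ} (v : Matrix (Fin m) (Fin m) K)
    (W : Submodule K (Fin m → K)) (g : W →ₗ[K] W) (hg : ∀ w : W, ((g w : W) : Fin m → K) = v.mulVec w)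
    (p : K[X]) : ∀ w : W, (((aeval g p) w : W) : Fin m → K) = (aeval v p).mulVec w := by
  induction p using Polynomial.induction_on with
  | C a =>
    intro w
    rw [aeval_C, aeval_C, Module.algebraMap_end_apply, Submodule.coe_smul,
      Algebra.algebraMap_eq_smul_one, Matrix.smul_mulVec, Matrix.one_mulVec]
  | add p q hp hq =>
    intro w
    rw [map_add, map_add, LinearMap.add_apply, Submodule.coe_add, hp, hq, Matrix.add_mulVec]
  | monomial k a hk =>
    intro w
    have e1 : aeval g (C a * X ^ (k + 1)) = aeval g (C a * X ^ k) * g := by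
      rw [pow_succ, ← mul_assoc, map_mul, aeval_X]
    have e2 : aeval v (C a * X ^ (k + 1)) = aeval v (C a * X ^ k) * v := by
      rw [pow_succ, ← mul_assoc, map_mul, aeval_X]
    rw [e1, e2, Module.End.mul_apply, hk, hg, Matrix.mulVec_mulVec]

/-- a matrix of rank `n` killed by `π` on its image is killed by one factor -/
private theorem Fac_rank {K : Type} [Field K] {m n : ℕ} (hn : 1 ≤ n) (v : Matrix (Fin m) (Fin m) K) (P : K[X])
    (hP : ∀ π' : K[X], Irreducible π' → π' ∣ P → π'.natDegree = n) (hv : v * aeval v P = 0)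
    (hr : v.rank = n) : ∃ π' : K[X], Irreducible π' ∧ π'.Monic ∧ π' ∣ P ∧ v * aeval v π' = 0 := by
  have hcomm : ∀ p : K[X], v * aeval v p = aeval v p * v := by
    intro p
    have h1 : aeval v (X * p) = aeval v (p * X) := by rw [mul_comm]
    rw [map_mul, map_mul, aeval_X] at h1
    exact h1
  set W : Submodule K (Fin m → K) := LinearMap.range v.mulVecLin with hW
  have hmem : ∀ x : Fin m → K, v.mulVec x ∈ W := fun x => ⟨x, rfl⟩
  let g : W →ₗ[K] W := v.mulVecLin.restrict (fun w _ => hmem w)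
  have hg : ∀ w : W, ((g w : W) : Fin m → K) = v.mulVec w := fun w => rfl
  have hgP : aeval g P = 0 := by
    ext1 w
    apply Subtype.ext
    rw [Fac_restrict v W g hg]
    obtain ⟨x, hx⟩ := w.2
    have hx' : (w : Fin m → K) = v.mulVec x := hx.symm
    rw [hx', Matrix.mulVec_mulVec, ← hcomm, hv, Matrix.zero_mulVec]
    rfl
  have hfin : Module.finrank K W = n := hr
  have : Nontrivial W := Module.nontrivial_of_finrank_pos (R := K) (by omega)
  have hint : IsIntegral K g := Algebra.IsIntegral.isIntegral g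
  have hmin : minpoly K g ∣ P := minpoly.dvd K g hgP
  have hdeg : (minpoly K g).natDegree ≤ n := by
    rw [← hfin, ← LinearMap.charpoly_natDegree g]
    exact Polynomial.natDegree_le_of_dvd (LinearMap.minpoly_dvd_charpoly g)
      (LinearMap.charpoly_monic g).ne_zero
  obtain ⟨π', hi, hd⟩ := WfDvdMonoid.exists_irreducible_factor (minpoly.not_isUnit K g)
    (minpoly.ne_zero hint)
  have hd' : π'.natDegree = n := hP π' hi (hd.trans hmin)
  have hass : minpoly K g ∣ π' := by
    obtain ⟨c, hc⟩ := hd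
    have hc0 : c ≠ 0 := by
      rintro rfl
      rw [mul_zero] at hc
      exact minpoly.ne_zero hint hc
    have h1 : (minpoly K g).natDegree = π'.natDegree + c.natDegree := by
      rw [hc, Polynomial.natDegree_mul hi.ne_zero hc0]
    have h2 : c.natDegree = 0 := by omega
    have h3 : IsUnit c := by
      rw [Polynomial.isUnit_iff_degree_eq_zero, Polynomial.degree_eq_natDegree hc0, h2]
      rfl
    obtain ⟨u, hu⟩ := h3
    refine ⟨(↑(u⁻¹) : K[X]), ?_⟩
    rw [hc, ← hu, mul_assoc, Units.mul_inv, mul_one]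
  have hirr : Irreducible (minpoly K g) := (associated_of_dvd_dvd hd hass).irreducible hi
  refine ⟨minpoly K g, hirr, minpoly.monic hint, hmin, ?_⟩
  rw [hcomm]
  refine Matrix.toLin'.injective (LinearMap.ext fun x => ?_)
  rw [Matrix.toLin'_apply, map_zero, LinearMap.zero_apply, ← Matrix.mulVec_mulVec]
  have h5 := Fac_restrict v W g hg (minpoly K g) ⟨v.mulVec x, hmem x⟩
  have h6 : aeval g (minpoly K g) = 0 := minpoly.aeval K g
  have h7 := LinearMap.congr_fun h6 ⟨v.mulVec x, hmem x⟩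
  exact h5.symm.trans (congrArg Subtype.val h7)

theorem pi_exists_fac {F : Type} [Field F] [Fintype F] {K : Type} [Field K] [Fintype K]
    [Algebra F K] {π : F[X]} {N : ℕ} (hπ : GoodPi F π N) (n : ℕ) (hn : 1 ≤ n)
    (hN : N = Module.finrank F K * n) :
    ∃ s : Finset K[X], s.card = Module.finrank F K ∧
      (∀ π' ∈ s, GoodPi K π' n ∧ π' ∣ π.map (algebraMap F K)) ∧
      ∀ (m : ℕ) (v : Matrix (Fin m) (Fin m) K), v * aeval v π = 0 → v.rank = n →
        ∃ π' ∈ s, v * aeval v π' = 0 := by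
  classical
  have hM : (π.map (algebraMap F K)).Monic := hπ.monic.map _
  have h0 : π.map (algebraMap F K) ≠ 0 := hM.ne_zero
  have hsep : (π.map (algebraMap F K)).Separable :=
    (PerfectField.separable_of_irreducible hπ.irr).map
  have hsq : Squarefree (π.map (algebraMap F K)) := hsep.squarefree
  have hnd : (UniqueFactorizationMonoid.normalizedFactors (π.map (algebraMap F K))).Nodup :=
    (UniqueFactorizationMonoid.squarefree_iff_nodup_normalizedFactors h0).1 hsq
  have hmem : ∀ π' : K[X], π' ∈ (UniqueFactorizationMonoid.normalizedFactors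
      (π.map (algebraMap F K))).toFinset ↔
      Irreducible π' ∧ π'.Monic ∧ π' ∣ π.map (algebraMap F K) := by
    intro π'
    rw [Multiset.mem_toFinset, Polynomial.mem_normalizedFactors_iff h0]
  refine ⟨(UniqueFactorizationMonoid.normalizedFactors (π.map (algebraMap F K))).toFinset,
    ?_, ?_, ?_⟩
  · have hprod : ∏ π' ∈ (UniqueFactorizationMonoid.normalizedFactors
        (π.map (algebraMap F K))).toFinset, π' = π.map (algebraMap F K) := by
      have h1 := Finset.prod_val (UniqueFactorizationMonoid.normalizedFactors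
        (π.map (algebraMap F K))).toFinset
      rw [Multiset.toFinset_val, hnd.dedup, UniqueFactorizationMonoid.prod_normalizedFactors_eq h0,
        hM.normalize_eq_self] at h1
      exact h1.symm
    have h1 := congrArg Polynomial.natDegree hprod
    rw [Polynomial.natDegree_prod_of_monic _ _ (fun π' hπ' => ((hmem π').1 hπ').2.1),
      hπ.monic.natDegree_map, hπ.deg, Finset.sum_congr rfl (fun π' hπ' =>
        Fac_degree hπ n hN ((hmem π').1 hπ').1 ((hmem π').1 hπ').2.2), Finset.sum_const,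
      smul_eq_mul, hN] at h1
    exact Nat.eq_of_mul_eq_mul_right (by omega) h1
  · intro π' hπ'
    obtain ⟨h1, h2, h3⟩ := (hmem π').1 hπ'
    refine ⟨⟨h1, h2, Fac_degree hπ n hN h1 h3, ?_⟩, h3⟩
    intro hc
    have h4 : X ∣ π' := Polynomial.X_dvd_iff.2 hc
    have h5 := Polynomial.X_dvd_iff.1 (h4.trans h3)
    rw [Polynomial.coeff_map] at h5
    exact hπ.zero ((map_eq_zero (algebraMap F K)).1 h5)
  · intro m v hv hr
    have hv' : v * aeval v (π.map (algebraMap F K)) = 0 := by
      rw [Polynomial.aeval_map_algebraMap]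
      exact hv
    obtain ⟨π', h1, h2, h3, h4⟩ := Fac_rank hn v (π.map (algebraMap F K))
      (fun π' hi hd => Fac_degree hπ n hN hi hd) hv' hr
    exact ⟨π', (hmem π').2 ⟨h1, h2, h3⟩, h4⟩

end Pool.Agent.H27.KAC

end

section

/-!
KAC ADE, engine: definitions.

The positive transfer system with clusters of walls in normalised form.  All exponents are rational (hatted).

A *state* at the frontier `(k | k-1)` (`k ≥ 1`) consists of
* `γ : I → ℚ` the remaining dimension vector,
* `P p : I → ℚ` exponents (`-P_i` at `Q_{i,k}`, `p_i` at `Q_{i,k-1}`), zero on the walls,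
* matrices `M N` (columns `∑ M l i D_{l,k} - ∑ N l i D_{l,k-1}`); usually `M = 1` and `N = H`,
* `W : Finset I` the set of walls, `q : I → ℚ` the classes (modulo `ℤ`), zero off `W`,
* `w : Finset I → ℕ → ℚ` the response function of every cluster (connected component of `W`).
-/

namespace Pool.Agent.H40.KADE

open scoped BigOperators
open Pool.Agent.H27.KAC

section

variable {I : Type} [Fintype I] [DecidableEq I]

/-- `(C v)_i` for a rational vector. -/
def cv (a : I → I → ℕ) (v : I → ℚ) (i : I) : ℚ := ∑ j, ((cart a i j : ℤ) : ℚ) * v j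

/-- `W` is a set of loop-free vertices of finite type (`C_W` is a nonsingular M-matrix). -/
structure FT (a : I → I → ℕ) (W : Finset I) : Prop where
  loopfree : ∀ x ∈ W, a x x = 0
  pos : ∃ u : I → ℚ, (∀ x ∈ W, 0 < u x) ∧ (∀ x, x ∉ W → u x = 0) ∧ ∀ x ∈ W, 0 < cv a u x

open Classical in
/-- the vector `v` with support in `W` and `(C v)_x = r_x` for `x ∈ W`. -/
noncomputable def sol (a : I → I → ℕ) (W : Finset I) (r : I → ℚ) : I → ℚ :=
  if h : ∃ v : I → ℚ, (∀ x, x ∉ W → v x = 0) ∧ ∀ x ∈ W, cv a v x = r x then h.choose else fun _ => 0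

/-- the restriction of `m` to the complement of `W`. -/
def offW (W : Finset I) (m : I → ℚ) (i : I) : ℚ := if i ∈ W then 0 else m i

/-- the vector which agrees with `m` outside of `W` and satisfies `(C v)_x = 0` for `x ∈ W`. -/
noncomputable def ext (a : I → I → ℕ) (W : Finset I) (m : I → ℚ) (i : I) : ℚ :=
  offW W m i + sol a W (fun x => -cv a (offW W m) x) i

/-- the unit vector. -/
def uv (j i : I) : ℚ := if i = j then 1 else 0

/-- effective Cartan entry: the Schur complement which eliminates `W` (for `l, j ∉ W`). -/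
noncomputable def effC (a : I → I → ℕ) (W : Finset I) (l j : I) : ℚ := cv a (ext a W (uv j)) l

/-- adjacency inside `W`. -/
def adjW (a : I → I → ℕ) (W : Finset I) (x y : I) : Prop := x ∈ W ∧ y ∈ W ∧ 0 < a x y

open Classical in
/-- the connected component of `x` in `W`. -/
noncomputable def comp (a : I → I → ℕ) (W : Finset I) (x : I) : Finset I :=
  W.filter (fun y => Relation.ReflTransGen (adjW a W) x y)

open Classical in
/-- the clusters: the connected components of `W`. -/
noncomputable def clusters (a : I → I → ℕ) (W : Finset I) : Finset (Finset I) := W.image (comp a W)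

open Classical in
/-- product of the weights `w_N(k)` over the clusters `N` touched by the vector `v`. -/
noncomputable def tw (a : I → I → ℕ) (W : Finset I) (w : Finset I → ℕ → ℚ) (k : ℕ) (v : I → ℚ) : ℚ :=
  ∏ N ∈ clusters a W, if ∀ x ∈ N, v x = 0 then 1 else w N k

open Classical in
/-- new response functions: a cluster touched by `v` is restarted at level `k`. -/
noncomputable def neww (cn : Finset I → (I → ℚ) → ℕ → ℚ) (w : Finset I → ℕ → ℚ) (k : ℕ)
    (q v : I → ℚ) (N : Finset I) (l : ℕ) : ℚ :=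
  if ∀ x ∈ N, v x = 0 then w N l else cn N q (k - l)

/-- weight `(P+1)(P+2)...(P+m-1) / m!` (and `1` for `m = 0`). -/
def wtq (P : ℚ) (m : ℕ) : ℚ := (∏ i ∈ Finset.range (m - 1), (P + i + 1)) / (m.factorial : ℚ)

/-- scale of a column. -/
def sclq (P : ℚ) (m : ℚ) : ℚ := if m = 0 then 1 else P

/-- the matrix which is `M` on `I \ W` and the identity on `W`. -/
def blk (W : Finset I) (M : I → I → ℚ) : Matrix I I ℚ :=
  Matrix.of (fun l i => if l ∈ W ∨ i ∈ W then (if l = i then 1 else 0) else M l i)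

/-- the identity. -/
def idm (l i : I) : ℚ := if l = i then 1 else 0

/-! ### one step at level `k`: from the frontier `(k+1 | k)` to `(k | k-1)` -/

/-- multiplicities: `n - q` on the regular and restarted vertices, `(C m)_x = 0` on the remaining walls
`W' = W \ S`. -/
noncomputable def mhat (a : I → I → ℕ) (W' : Finset I) (q : I → ℚ) (n : I → ℤ) : I → ℚ :=
  ext a W' (fun i => (n i : ℚ) - q i)

/-- the finite box of integer vectors. -/
noncomputable def boxS (W' : Finset I) (k : ℕ) (γ q : I → ℚ) : Finset (I → ℤ) :=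
  Fintype.piFinset (fun i => if i ∈ W' then {0} else Finset.Icc (⌈q i⌉) (⌊γ i / k + q i⌋))

/-- new remaining dimension vector. -/
def stG (k : ℕ) (γ m : I → ℚ) (i : I) : ℚ := γ i - (k : ℚ) * m i

/-- new classes. -/
def stQ (W' : Finset I) (q m : I → ℚ) (i : I) : ℚ := if i ∈ W' then q i + m i else 0

/-- new upper exponents. -/
noncomputable def stP (a : I → I → ℕ) (P p m : I → ℚ) (i : I) : ℚ := 2 * P i - p i + cv a m i

/-- columns: upper forms (`W` = old walls, `W'` = remaining walls). -/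
noncomputable def stM (a : I → I → ℕ) (W W' : Finset I) (P : I → ℚ) (H : I → I → ℚ) (m : I → ℚ)
    (l j : I) : ℚ :=
  if j ∈ W then effC a W' l j
  else sclq (P j) (m j) * ((if l = j then 2 else 0) - H l j) + m j * effC a W' l j

/-- columns: lower forms. -/
noncomputable def stN (W : Finset I) (P m : I → ℚ) (l j : I) : ℚ :=
  if l = j ∧ j ∉ W then sclq (P j) (m j) else 0

/-- weight of the regular vertices. -/
noncomputable def stw (W : Finset I) (P : I → ℚ) (n : I → ℤ) : ℚ :=
  ∏ j ∈ Finset.univ \ W, wtq (P j) (n j).toNat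

/-! ### creation at the frontier `(k | k-1)` -/

/-- the new walls. -/
def crX (W : Finset I) (P : I → ℚ) : Finset I := Finset.univ.filter (fun i => i ∉ W ∧ P i = 0)

/-- the vector `Q`. -/
noncomputable def crQ (a : I → I → ℕ) (W X : Finset I) (p : I → ℚ) : I → ℚ :=
  sol a (W ∪ X) (fun x => if x ∈ X then p x else 0)

/-- the new remaining dimension vector. -/
def crG (k : ℕ) (γ Q : I → ℚ) (i : I) : ℚ := γ i - ((k : ℚ) - 1) * Q i

/-- the new lower exponents. -/
def crp (a : I → I → ℕ) (p Q : I → ℚ) (i : I) : ℚ := p i - cv a Q i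

/-- the new classes. -/
def crq (q Q : I → ℚ) (i : I) : ℚ := q i + Q i

/-- the new matrix `H`. -/
noncomputable def crH (a : I → I → ℕ) (W X : Finset I) (H : I → I → ℚ) (l i : I) : ℚ :=
  if l ∈ W ∪ X ∨ i ∈ W ∪ X then 0
  else H l i - ∑ x ∈ X, cv a (sol a (W ∪ X) (fun y => if y = x then 1 else 0)) l * H x i

/-! ### the interface -/

/-- admissible response functions at the frontier `(k+1 | k)`: a cluster restarted at the level `L ≥ k`
with response `w l = c_q (L - l)`, or a top cluster with `w = 1`. -/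
def AdmW (cn : Finset I → (I → ℚ) → ℕ → ℚ) (k : ℕ) (N : Finset I) (γ q : I → ℚ) (w : ℕ → ℚ) : Prop :=
  (∃ L : ℕ, k ≤ L ∧ (∀ l ≤ k, w l = cn N q (L - l)) ∧ ∀ x ∈ N, ∃ z : ℤ, γ x + L * q x = z) ∨
    ((∀ x ∈ N, q x = 0) ∧ (∀ l ≤ k, w l = 1) ∧ ∀ x ∈ N, ∃ z : ℤ, γ x = z)

/-- consistency of a state at the frontier `(k | k-1)`. -/
structure GS (a : I → I → ℕ) (cn : Finset I → (I → ℚ) → ℕ → ℚ) (k : ℕ) (γ P p : I → ℚ)
    (W : Finset I) (q : I → ℚ) (w : Finset I → ℕ → ℚ) : Prop where
  ft : FT a W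
  P0 : ∀ x ∈ W, P x = 0
  p0 : ∀ x ∈ W, p x = 0
  q0 : ∀ i, i ∉ W → q i = 0
  cons : ∀ i, cv a γ i = ((k : ℚ) - 1) * p i - (k : ℚ) * P i
  int : ∀ i, ∃ z : ℤ, P i - p i - cv a q i = z
  gint : ∀ i, i ∉ W → ∃ z : ℤ, γ i = z
  adm : ∀ N ∈ clusters a W, AdmW cn (k - 1) N γ q (w N)

/-- `N` is a connected set of loop-free vertices of finite type and `q` is an element of the weight lattice
of `N` (its values outside of `N` are irrelevant). -/
structure FTC (a : I → I → ℕ) (N : Finset I) (q : I → ℚ) : Prop where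
  ft : FT a N
  conn : N ∈ clusters a N
  wt : ∀ x ∈ N, ∃ z : ℤ, cv a (fun i => if i ∈ N then q i else 0) x = z

/-- the properties of the response numbers used by the engine. -/
structure CN (a : I → I → ℕ) (cn : Finset I → (I → ℚ) → ℕ → ℚ) : Prop where
  congr : ∀ (N : Finset I) (q q' : I → ℚ) (g : ℕ), (∀ x ∈ N, q x = q' x) → cn N q g = cn N q' g
  nonneg : ∀ (N : Finset I) (q : I → ℚ) (g : ℕ), FTC a N q → 0 ≤ cn N q g
  int : ∀ (N : Finset I) (q : I → ℚ) (g : ℕ), FTC a N q → cn N q g ≠ 0 →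
    ∀ x ∈ N, ∃ z : ℤ, (g : ℚ) * q x = z

/-- the walls of the top states. -/
def Zt (a : I → I → ℕ) (α : I →₀ ℕ) : Finset I :=
  Finset.univ.filter (fun i => a i i = 0 ∧ cw a α i = 0)

/-- The interface between the cluster calculus and the engine.
`G k γ P p M N W q w` is the value of the state at the frontier `(k | k-1)` with columns
`∑ M l i D_{l,k} - ∑ N l i D_{l,k-1}` (`l, i ∉ W`). -/
structure ClusterVal (a : I → I → ℕ) (cn : Finset I → (I → ℚ) → ℕ → ℚ)
    (G : ℕ → (I → ℚ) → (I → ℚ) → (I → ℚ) → (I → I → ℚ) → (I → I → ℚ) → Finset I → (I → ℚ) →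
      (Finset I → ℕ → ℚ) → ℚ) : Prop where
  /-- one step at level `k`. -/
  step : ∀ (k : ℕ) (γ P p : I → ℚ) (H : I → I → ℚ) (W : Finset I) (q : I → ℚ)
    (w : Finset I → ℕ → ℚ), 1 ≤ k → GS a cn (k + 1) γ P p W q w →
    (∀ i, i ∉ W → 0 < P i) → (∀ i, 0 ≤ p i) → (∀ l i, l ∈ W ∨ i ∈ W → H l i = 0) →
    G (k + 1) γ P p idm H W q w =
      ∑ S ∈ W.powerset, ∑ n ∈ (boxS (W \ S) k γ q).filter
          (fun n => ∀ s ∈ S, 0 < cv a (mhat a (W \ S) q n) s),
        stw W P n * tw a W w k (mhat a (W \ S) q n) *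
          G k (stG k γ (mhat a (W \ S) q n)) (stP a P p (mhat a (W \ S) q n)) P
            (stM a W (W \ S) P H (mhat a (W \ S) q n)) (stN W P (mhat a (W \ S) q n)) (W \ S)
            (stQ (W \ S) q (mhat a (W \ S) q n))
            (neww cn w k (stQ (W \ S) q (mhat a (W \ S) q n)) (mhat a (W \ S) q n))
  /-- creation of walls. -/
  create : ∀ (k : ℕ) (γ P p : I → ℚ) (H : I → I → ℚ) (W : Finset I) (q : I → ℚ)
    (w : Finset I → ℕ → ℚ), 2 ≤ k → GS a cn k γ P p W q w →
    (∀ i, 0 ≤ P i) → (∀ i, 0 ≤ p i) → (∀ l i, l ∈ W ∨ i ∈ W → H l i = 0) →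
    FT a (W ∪ crX W P) → (∀ x ∈ crX W P, 0 < p x) →
    G k γ P p idm H W q w =
      tw a W w (k - 1) (crQ a W (crX W P) p) *
        G k (crG k γ (crQ a W (crX W P) p)) P (crp a p (crQ a W (crX W P) p)) idm
          (crH a W (crX W P) H) (W ∪ crX W P) (crq q (crQ a W (crX W P) p))
          (neww cn w (k - 1) (crq q (crQ a W (crX W P) p)) (crQ a W (crX W P) p))
  /-- a regular loop-free vertex with negative upper exponent. -/
  vanNeg : ∀ (k : ℕ) (γ P p : I → ℚ) (M N : I → I → ℚ) (W : Finset I) (q : I → ℚ)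
    (w : Finset I → ℕ → ℚ) (l : I), 2 ≤ k → GS a cn k γ P p W q w → (∀ i, 0 ≤ p i) →
    l ∉ W → a l l = 0 → P l < 0 → 0 < p l → G k γ P p M N W q w = 0
  /-- normalisation of the columns. -/
  norm : ∀ (k : ℕ) (γ P p : I → ℚ) (M N H : I → I → ℚ) (W : Finset I) (q : I → ℚ)
    (w : Finset I → ℕ → ℚ),
    (∀ l i, l ∉ W → i ∉ W → N l i = ∑ l' ∈ Finset.univ \ W, H l l' * M l' i) →
    G k γ P p M N W q w = (blk W M).det * G k γ P p idm H W q w
  /-- the value depends polynomially on `H`. -/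
  poly : ∀ (k : ℕ) (γ P p : I → ℚ) (H : I → I → ℚ) (W : Finset I) (q : I → ℚ)
    (w : Finset I → ℕ → ℚ), ∃ f : Polynomial ℚ,
    ∀ δ : ℚ, G k γ P p idm (fun l i => (1 - δ) * H l i) W q w = f.eval δ
  /-- the end: frontier `(1 | 0)`. -/
  bot : ∀ (γ P p : I → ℚ) (M N : I → I → ℚ) (W : Finset I) (q : I → ℚ)
    (w : Finset I → ℕ → ℚ), GS a cn 1 γ P p W q w →
    G 1 γ P p M N W q w = if ∀ i, γ i = 0 then (blk W M).det * ∏ N ∈ clusters a W, w N 0 else 0
  /-- the top states are the states of the landed transfer system. -/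
  top : ∀ (α : I →₀ ℕ) (K : ℕ) (μ : I → ℚ) (ε : ℚ),
    FT a (Zt a α) →
    (∀ i, a i i = 0 → cw a α i = 0 → μ i = 0) →
    Val a α ⟨fun _ => K + 1, fun i => -cw a α i, fun i => -cw a α i,
        fun l i => if l = i then 1 - ε * μ i else 0⟩ =
      G (K + 1) (fun i => (α i : ℚ)) (fun i => -((cw a α i : ℤ) : ℚ)) (fun i => -((cw a α i : ℤ) : ℚ))
        idm (fun l i => if l = i ∧ ¬ (a i i = 0 ∧ cw a α i = 0) then 1 - ε * μ i else 0)
        (Zt a α) (fun _ => 0) (fun _ _ => 1)

/-- states before the creation of walls: the invariants of the engine (`H` normal form). -/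
structure Pre (a : I → I → ℕ) (cn : Finset I → (I → ℚ) → ℕ → ℚ) (k : ℕ) (γ P p : I → ℚ)
    (H : I → I → ℚ) (W : Finset I) (q : I → ℚ) (w : Finset I → ℕ → ℚ) : Prop
    extends GS a cn k γ P p W q w where
  H0 : ∀ l i, l ∈ W ∨ i ∈ W → H l i = 0
  Hnn : ∀ l i, 0 ≤ H l i
  Pnn : ∀ i, 0 ≤ P i
  Pz : ∀ i, i ∉ W → P i = 0 → a i i = 0 ∧ 0 < p i
  pnn : ∀ i, 0 ≤ p i
  dnn : ∀ l, ∑ i, H l i * P i ≤ p l
  gnn : ∀ i, 0 ≤ γ i

/-- fresh states: the invariants of the engine (`H` normal form). -/
structure Fresh (a : I → I → ℕ) (cn : Finset I → (I → ℚ) → ℕ → ℚ) (k : ℕ) (γ P p : I → ℚ)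
    (H : I → I → ℚ) (W : Finset I) (q : I → ℚ) (w : Finset I → ℕ → ℚ) : Prop
    extends GS a cn k γ P p W q w where
  H0 : ∀ l i, l ∈ W ∨ i ∈ W → H l i = 0
  Hnn : ∀ l i, 0 ≤ H l i
  Ppos : ∀ i, i ∉ W → 0 < P i
  pnn : ∀ i, 0 ≤ p i
  dnn : ∀ l, ∑ i, H l i * P i ≤ p l
  gnn : ∀ i, 0 ≤ γ i

/-- ample dimension vectors (no condition on nonadjacency). -/
structure Amp (a : I → I → ℕ) (α : I →₀ ℕ) : Prop where
  supp : ∀ i, 1 ≤ α i
  pos : ∀ i, a i i = 0 → 0 ≤ -cw a α i
  posl : ∀ i, a i i ≠ 0 → 0 < -cw a α i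
  ex : ∃ i, 0 < -cw a α i

end

end Pool.Agent.H40.KADE

end

section

/-!
KAC ADE engine, module E1: linear algebra of `cv`, `FT`, `sol`, `ext`, `effC`.

* `FT_nonneg` (comparison): let `u` be the vector of `FT.pos`; if `v` is negative somewhere on `W`, take
  `t = max_{x ∈ W} (-v_x / u_x) > 0`, attained at `x0`; `v + t u ≥ 0` everywhere, `= 0` at `x0`, so
  `(C (v + t u))_{x0} ≤ 0` (off-diagonal entries are `≤ 0`), but it is `(C v)_{x0} + t (C u)_{x0} > 0`.
* `sol_spec`: the linear map `v ↦ (C v)|_W` on vectors supported in `W` is injective (`FT_nonneg` for `± v`), hence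
  surjective (`LinearMap.injective_iff_surjective` for `W → ℚ`).
* `cv_ext`: `ext a W m = ∑_{j ∉ W} m_j ext a W (uv j)` (uniqueness).
-/

set_option autoImplicit false

namespace Pool.Agent.H40.KADE

open scoped BigOperators
open Pool.Agent.H27.KAC

variable {I : Type} [Fintype I] [DecidableEq I]

theorem cart_ne (a : I → I → ℕ) {i j : I} (h : i ≠ j) : cart a i j = -(a i j : ℤ) := by
  unfold cart; rw [if_neg h]; ring

theorem cart_self (a : I → I → ℕ) (i : I) : cart a i i = 2 - (a i i : ℤ) := by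
  unfold cart; rw [if_pos rfl]

theorem cv_add (a : I → I → ℕ) (v w : I → ℚ) (i : I) :
    cv a (fun j => v j + w j) i = cv a v i + cv a w i := by
  unfold cv; rw [← Finset.sum_add_distrib]; exact Finset.sum_congr rfl fun j _ => by ring

theorem cv_sub (a : I → I → ℕ) (v w : I → ℚ) (i : I) :
    cv a (fun j => v j - w j) i = cv a v i - cv a w i := by
  unfold cv; rw [← Finset.sum_sub_distrib]; exact Finset.sum_congr rfl fun j _ => by ring

theorem cv_neg (a : I → I → ℕ) (v : I → ℚ) (i : I) : cv a (fun j => -v j) i = -cv a v i := by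
  unfold cv; rw [← Finset.sum_neg_distrib]; exact Finset.sum_congr rfl fun j _ => by ring

theorem cv_smul (a : I → I → ℕ) (c : ℚ) (v : I → ℚ) (i : I) :
    cv a (fun j => c * v j) i = c * cv a v i := by
  unfold cv; rw [Finset.mul_sum]; exact Finset.sum_congr rfl fun j _ => by ring

theorem cv_zero (a : I → I → ℕ) (i : I) : cv a (fun _ => (0 : ℚ)) i = 0 := by
  unfold cv; exact Finset.sum_eq_zero fun j _ => by ring

theorem cv_sum (a : I → I → ℕ) {ι : Type} (s : Finset ι) (f : ι → I → ℚ) (i : I) :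
    cv a (fun j => ∑ t ∈ s, f t j) i = ∑ t ∈ s, cv a (f t) i := by
  unfold cv
  rw [Finset.sum_comm]
  refine Finset.sum_congr rfl fun j _ => ?_
  rw [Finset.mul_sum]

/-- an integral vector has an integral image. -/
theorem cv_int (a : I → I → ℕ) (v : I → ℚ) (hv : ∀ i, ∃ z : ℤ, v i = z) (i : I) :
    ∃ z : ℤ, cv a v i = z := by
  choose f hf using hv
  refine ⟨∑ j, cart a i j * f j, ?_⟩
  unfold cv
  push_cast
  exact Finset.sum_congr rfl fun j _ => by rw [hf j]

private theorem E1_split (a : I → I → ℕ) (v : I → ℚ) (i : I) :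
    cv a v i = ((cart a i i : ℤ) : ℚ) * v i - ∑ j ∈ Finset.univ.erase i, (a i j : ℚ) * v j := by
  unfold cv
  rw [← Finset.add_sum_erase _ _ (Finset.mem_univ i), sub_eq_add_neg, ← Finset.sum_neg_distrib]
  congr 1
  refine Finset.sum_congr rfl (fun j hj => ?_)
  rw [cart_ne a (Finset.ne_of_mem_erase hj).symm]
  push_cast
  ring

/-- off-diagonal part is nonpositive for nonnegative vectors. -/
theorem cv_le_diag (a : I → I → ℕ) (v : I → ℚ) (i : I) (hv : ∀ j, j ≠ i → 0 ≤ v j) :
    cv a v i ≤ ((cart a i i : ℤ) : ℚ) * v i := by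
  rw [E1_split]
  have h : 0 ≤ ∑ j ∈ Finset.univ.erase i, (a i j : ℚ) * v j :=
    Finset.sum_nonneg (fun j hj => mul_nonneg (Nat.cast_nonneg _) (hv j (Finset.ne_of_mem_erase hj)))
  linarith

/-- if `v ≥ 0`, `v i = 0` then `(C v)_i ≤ 0`. -/
theorem cv_nonpos (a : I → I → ℕ) (v : I → ℚ) (i : I) (hv : ∀ j, 0 ≤ v j) (hi : v i = 0) :
    cv a v i ≤ 0 := by
  have h := cv_le_diag a v i (fun j _ => hv j)
  rwa [hi, mul_zero] at h

/-- if `v ≥ 0`, `v i = 0` and `(C v)_i = 0` then `v` vanishes at all neighbours of `i`. -/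
theorem cv_zero_nbr (a : I → I → ℕ) (v : I → ℚ) (i : I) (hv : ∀ j, 0 ≤ v j) (hi : v i = 0)
    (hc : cv a v i = 0) (j : I) (hj : 0 < a i j) : v j = 0 := by
  by_cases hji : j = i
  · rw [hji, hi]
  · rw [E1_split, hi, mul_zero, zero_sub, neg_eq_zero] at hc
    have h1 := (Finset.sum_eq_zero_iff_of_nonneg
      (fun j _ => mul_nonneg (Nat.cast_nonneg (a i j)) (hv j))).1 hc j
      (Finset.mem_erase.2 ⟨hji, Finset.mem_univ j⟩)
    rcases mul_eq_zero.1 h1 with h2 | h2
    · have h3 : a i j = 0 := by exact_mod_cast h2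
      omega
    · exact h2

theorem FT_mono (a : I → I → ℕ) {W T : Finset I} (h : FT a W) (hT : T ⊆ W) : FT a T := by
  obtain ⟨u, h1, h2, h3⟩ := h.pos
  have hu : ∀ x, 0 ≤ u x := by
    intro x
    by_cases hx : x ∈ W
    · exact (h1 x hx).le
    · rw [h2 x hx]
  refine ⟨fun x hx => h.loopfree x (hT hx), fun i => if i ∈ T then u i else 0,
    fun x hx => ?_, fun x hx => ?_, fun x hx => ?_⟩
  · simp only [if_pos hx]
    exact h1 x (hT hx)
  · simp only [if_neg hx]
  · have h4 : cv a (fun j => u j - (if j ∈ T then u j else 0)) x ≤ 0 := by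
      apply cv_nonpos
      · intro j
        split_ifs
        · rw [sub_self]
        · rw [sub_zero]
          exact hu j
      · rw [if_pos hx, sub_self]
    rw [cv_sub] at h4
    have h5 := h3 x (hT hx)
    linarith

/-- comparison. -/
theorem FT_nonneg (a : I → I → ℕ) {W : Finset I} (h : FT a W) (v : I → ℚ)
    (h0 : ∀ x, x ∉ W → 0 ≤ v x) (h1 : ∀ x ∈ W, 0 ≤ cv a v x) : ∀ x, 0 ≤ v x := by
  intro x
  by_contra hx
  have hx' : v x < 0 := not_le.1 hx
  have hxW : x ∈ W := by
    by_contra hxW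
    exact hx (h0 x hxW)
  obtain ⟨u, hu1, hu2, hu3⟩ := h.pos
  obtain ⟨x0, hx0, hmax⟩ := Finset.exists_max_image W (fun y => -v y / u y) ⟨x, hxW⟩
  set t : ℚ := -v x0 / u x0 with ht
  have htx : -v x / u x ≤ t := hmax x hxW
  have htpos : 0 < t := lt_of_lt_of_le (div_pos (by linarith) (hu1 x hxW)) htx
  have hnn : ∀ y, 0 ≤ v y + t * u y := by
    intro y
    by_cases hy : y ∈ W
    · have h2 : -v y / u y ≤ t := hmax y hy
      have h3 : -v y ≤ t * u y := (div_le_iff₀ (hu1 y hy)).1 h2
      linarith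
    · rw [hu2 y hy, mul_zero, add_zero]
      exact h0 y hy
  have hz : v x0 + t * u x0 = 0 := by
    have h2 : t * u x0 = -v x0 := by
      rw [ht]
      exact div_mul_cancel₀ _ (hu1 x0 hx0).ne'
    linarith
  have h4 := cv_nonpos a (fun y => v y + t * u y) x0 hnn hz
  rw [cv_add, cv_smul] at h4
  have h5 := h1 x0 hx0
  have h6 := mul_pos htpos (hu3 x0 hx0)
  linarith

theorem FT_eq_zero (a : I → I → ℕ) {W : Finset I} (h : FT a W) (v : I → ℚ)
    (h0 : ∀ x, x ∉ W → v x = 0) (h1 : ∀ x ∈ W, cv a v x = 0) : ∀ x, v x = 0 := by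
  have h2 := FT_nonneg a h v (fun x hx => (h0 x hx).ge) (fun x hx => (h1 x hx).ge)
  have h3 := FT_nonneg a h (fun x => -v x) (fun x hx => by rw [h0 x hx, neg_zero])
    (fun x hx => by rw [cv_neg, h1 x hx, neg_zero])
  intro x
  have h4 := h2 x
  have h5 := h3 x
  linarith

theorem FT_unique (a : I → I → ℕ) {W : Finset I} (h : FT a W) (v v' : I → ℚ)
    (h0 : ∀ x, x ∉ W → v x = v' x) (h1 : ∀ x ∈ W, cv a v x = cv a v' x) : ∀ x, v x = v' x := by
  intro x
  have h2 := FT_eq_zero a h (fun x => v x - v' x) (fun x hx => by rw [h0 x hx, sub_self])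
    (fun x hx => by rw [cv_sub, h1 x hx, sub_self]) x
  linarith

theorem sol_off (a : I → I → ℕ) (W : Finset I) (r : I → ℚ) (x : I) (hx : x ∉ W) :
    sol a W r x = 0 := by
  unfold sol
  split_ifs with h
  · exact h.choose_spec.1 x hx
  · rfl

private theorem E1_exists (a : I → I → ℕ) {W : Finset I} (h : FT a W) (r : I → ℚ) :
    ∃ v : I → ℚ, (∀ x, x ∉ W → v x = 0) ∧ ∀ x ∈ W, cv a v x = r x := by
  classical
  let e : (W → ℚ) → I → ℚ := fun f i => if hi : i ∈ W then f ⟨i, hi⟩ else 0
  have he_add : ∀ f g : W → ℚ, e (f + g) = fun i => e f i + e g i := by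
    intro f g
    funext i
    simp only [e]
    split_ifs
    · rfl
    · rw [add_zero]
  have he_smul : ∀ (c : ℚ) (f : W → ℚ), e (c • f) = fun i => c * e f i := by
    intro c f
    funext i
    simp only [e]
    split_ifs
    · rfl
    · rw [mul_zero]
  let φ : (W → ℚ) →ₗ[ℚ] (W → ℚ) :=
    { toFun := fun f x => cv a (e f) x.1
      map_add' := by
        intro f g
        funext x
        simp only [he_add, Pi.add_apply]
        exact cv_add a (e f) (e g) x.1
      map_smul' := by
        intro c f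
        funext x
        simp only [he_smul, Pi.smul_apply, smul_eq_mul, RingHom.id_apply]
        exact cv_smul a c (e f) x.1 }
  have hinj : Function.Injective φ := by
    rw [injective_iff_map_eq_zero]
    intro f hf
    funext x
    have h1 := FT_eq_zero a h (e f) (fun y hy => by simp only [e, dif_neg hy])
      (fun y hy => congrFun hf ⟨y, hy⟩) x.1
    simp only [e, dif_pos x.2] at h1
    exact h1
  have hsurj : Function.Surjective φ := LinearMap.injective_iff_surjective.1 hinj
  obtain ⟨f, hf⟩ := hsurj (fun x => r x.1)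
  refine ⟨e f, fun x hx => by simp only [e, dif_neg hx], fun x hx => congrFun hf ⟨x, hx⟩⟩

theorem sol_cv (a : I → I → ℕ) {W : Finset I} (h : FT a W) (r : I → ℚ) (x : I) (hx : x ∈ W) :
    cv a (sol a W r) x = r x := by
  have hex := E1_exists a h r
  unfold sol
  rw [dif_pos hex]
  exact hex.choose_spec.2 x hx

theorem sol_nonneg (a : I → I → ℕ) {W : Finset I} (h : FT a W) (r : I → ℚ)
    (hr : ∀ x ∈ W, 0 ≤ r x) (x : I) : 0 ≤ sol a W r x := by
  refine FT_nonneg a h (sol a W r) (fun y hy => (sol_off a W r y hy).ge) (fun y hy => ?_) x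
  rw [sol_cv a h r y hy]
  exact hr y hy

theorem ext_off (a : I → I → ℕ) (W : Finset I) (m : I → ℚ) (x : I) (hx : x ∉ W) :
    ext a W m x = m x := by
  unfold ext offW
  rw [sol_off a W _ x hx, if_neg hx, add_zero]

private theorem E1_ext_cv (a : I → I → ℕ) (W : Finset I) (m : I → ℚ) (x : I) :
    cv a (ext a W m) x = cv a (offW W m) x + cv a (sol a W (fun x => -cv a (offW W m) x)) x :=
  cv_add a (offW W m) (sol a W (fun x => -cv a (offW W m) x)) x

theorem ext_cv (a : I → I → ℕ) {W : Finset I} (h : FT a W) (m : I → ℚ) (x : I) (hx : x ∈ W) :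
    cv a (ext a W m) x = 0 := by
  rw [E1_ext_cv, sol_cv a h _ x hx, add_neg_cancel]

theorem ext_nonneg (a : I → I → ℕ) {W : Finset I} (h : FT a W) (m : I → ℚ)
    (hm : ∀ x, x ∉ W → 0 ≤ m x) (x : I) : 0 ≤ ext a W m x := by
  refine FT_nonneg a h (ext a W m) (fun y hy => ?_) (fun y hy => (ext_cv a h m y hy).ge) x
  rw [ext_off a W m y hy]
  exact hm y hy

theorem ext_unique (a : I → I → ℕ) {W : Finset I} (h : FT a W) (m v : I → ℚ)
    (h0 : ∀ x, x ∉ W → v x = m x) (h1 : ∀ x ∈ W, cv a v x = 0) : ∀ x, v x = ext a W m x := by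
  refine FT_unique a h v (ext a W m) (fun x hx => ?_) (fun x hx => ?_)
  · rw [h0 x hx, ext_off a W m x hx]
  · rw [h1 x hx, ext_cv a h m x hx]

theorem ext_empty (a : I → I → ℕ) (m : I → ℚ) (x : I) : ext a ∅ m x = m x := by
  exact ext_off a ∅ m x (by simp)

/-- the effective Cartan matrix. -/
theorem cv_ext (a : I → I → ℕ) {W : Finset I} (h : FT a W) (m : I → ℚ) (l : I) :
    cv a (ext a W m) l = ∑ j ∈ Finset.univ \ W, effC a W l j * m j := by
  have h1 : ∀ x, (∑ j ∈ Finset.univ \ W, m j * ext a W (uv j) x) = ext a W m x := by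
    refine ext_unique a h m (fun x => ∑ j ∈ Finset.univ \ W, m j * ext a W (uv j) x)
      (fun x hx => ?_) (fun x hx => ?_)
    · rw [Finset.sum_eq_single x]
      · rw [ext_off a W (uv x) x hx]
        unfold uv
        rw [if_pos rfl, mul_one]
      · intro j _ hj
        rw [ext_off a W (uv j) x hx]
        unfold uv
        rw [if_neg hj.symm, mul_zero]
      · intro hx'
        exact absurd (Finset.mem_sdiff.2 ⟨Finset.mem_univ x, hx⟩) hx'
    · rw [cv_sum]
      refine Finset.sum_eq_zero (fun j _ => ?_)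
      rw [cv_smul, ext_cv a h (uv j) x hx, mul_zero]
  have h2 : ext a W m = fun x => ∑ j ∈ Finset.univ \ W, m j * ext a W (uv j) x := by
    funext x
    exact (h1 x).symm
  rw [h2, cv_sum]
  refine Finset.sum_congr rfl (fun j _ => ?_)
  rw [cv_smul]
  unfold effC
  ring

private theorem E1_cv_uv (a : I → I → ℕ) (l j : I) :
    cv a (uv j) l = ((cart a l j : ℤ) : ℚ) := by
  unfold cv
  rw [Finset.sum_eq_single j]
  · unfold uv
    rw [if_pos rfl, mul_one]
  · intro i _ hi
    unfold uv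
    rw [if_neg hi, mul_zero]
  · intro hj
    exact absurd (Finset.mem_univ j) hj

private theorem E1_uv_nonneg (j x : I) : 0 ≤ uv j x := by
  unfold uv
  split_ifs
  · exact zero_le_one
  · exact le_refl 0

theorem effC_empty (a : I → I → ℕ) (l j : I) : effC a ∅ l j = ((cart a l j : ℤ) : ℚ) := by
  unfold effC
  have h : ext a ∅ (uv j) = uv j := by
    funext x
    exact ext_empty a (uv j) x
  rw [h, E1_cv_uv]

theorem effC_nonpos (a : I → I → ℕ) {W : Finset I} (h : FT a W) {l j : I} (hl : l ∉ W)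
    (hj : j ∉ W) (hlj : l ≠ j) : effC a W l j ≤ 0 := by
  unfold effC
  apply cv_nonpos
  · exact ext_nonneg a h (uv j) (fun x _ => E1_uv_nonneg j x)
  · rw [ext_off a W (uv j) l hl]
    unfold uv
    rw [if_neg hlj]

/-- a vector with positive image is positive. -/
theorem sol_pos_of (a : I → I → ℕ) (v : I → ℚ) (hv : ∀ j, 0 ≤ v j) (x : I) (hx : 0 < cv a v x) :
    0 < v x := by
  by_contra h
  have h1 : v x = 0 := le_antisymm (not_lt.1 h) (hv x)
  have h2 := cv_nonpos a v x hv h1
  linarith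

end Pool.Agent.H40.KADE

end

section

/-!
KAC ADE engine, module E1c: clusters (connected components of `W`).

`comp a W x` is the set of `y ∈ W` with `Relation.ReflTransGen (adjW a W) x y`; for symmetric `a` this is an equivalence
relation on `W`.
-/

set_option autoImplicit false

namespace Pool.Agent.H40.KADE

open scoped BigOperators
open Pool.Agent.H27.KAC

variable {I : Type} [Fintype I] [DecidableEq I]

private theorem E1c_mem_comp (a : I → I → ℕ) {W : Finset I} {x y : I} :
    y ∈ comp a W x ↔ y ∈ W ∧ Relation.ReflTransGen (adjW a W) x y := by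
  classical
  unfold comp
  exact Finset.mem_filter

private theorem E1c_mem_clusters (a : I → I → ℕ) {W N : Finset I} :
    N ∈ clusters a W ↔ ∃ x ∈ W, comp a W x = N := by
  classical
  unfold clusters
  exact Finset.mem_image

private theorem E1c_symm (a : I → I → ℕ) (hs : ∀ i j, a i j = a j i) {W : Finset I} {x y : I}
    (h : Relation.ReflTransGen (adjW a W) x y) : Relation.ReflTransGen (adjW a W) y x := by
  induction h with
  | refl => exact Relation.ReflTransGen.refl
  | tail _ hbc ih =>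
    exact Relation.ReflTransGen.head ⟨hbc.2.1, hbc.1, by rw [hs]; exact hbc.2.2⟩ ih

private theorem E1c_comp_eq (a : I → I → ℕ) (hs : ∀ i j, a i j = a j i) {W : Finset I} {x y : I}
    (h : y ∈ comp a W x) : comp a W y = comp a W x := by
  have hxy := (E1c_mem_comp a).1 h
  ext z
  rw [E1c_mem_comp, E1c_mem_comp]
  constructor
  · rintro ⟨hz, hyz⟩
    exact ⟨hz, hxy.2.trans hyz⟩
  · rintro ⟨hz, hxz⟩
    exact ⟨hz, (E1c_symm a hs hxy.2).trans hxz⟩

theorem cl_sub (a : I → I → ℕ) {W N : Finset I} (h : N ∈ clusters a W) : N ⊆ W := by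
  obtain ⟨x, hx, rfl⟩ := (E1c_mem_clusters a).1 h
  intro y hy
  exact ((E1c_mem_comp a).1 hy).1

theorem cl_nonempty (a : I → I → ℕ) {W N : Finset I} (h : N ∈ clusters a W) : N.Nonempty := by
  obtain ⟨x, hx, rfl⟩ := (E1c_mem_clusters a).1 h
  exact ⟨x, (E1c_mem_comp a).2 ⟨hx, Relation.ReflTransGen.refl⟩⟩

theorem cl_exists (a : I → I → ℕ) {W : Finset I} {x : I} (hx : x ∈ W) :
    ∃ N ∈ clusters a W, x ∈ N := by
  exact ⟨comp a W x, (E1c_mem_clusters a).2 ⟨x, hx, rfl⟩,
    (E1c_mem_comp a).2 ⟨hx, Relation.ReflTransGen.refl⟩⟩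

/-- a cluster is closed under adjacency in `W`. -/
theorem cl_closed (a : I → I → ℕ) (hs : ∀ i j, a i j = a j i) {W N : Finset I}
    (h : N ∈ clusters a W) {x y : I} (hx : x ∈ N) (hy : y ∈ W) (hxy : 0 < a x y) : y ∈ N := by
  obtain ⟨u, hu, rfl⟩ := (E1c_mem_clusters a).1 h
  have hux := (E1c_mem_comp a).1 hx
  exact (E1c_mem_comp a).2 ⟨hy, hux.2.tail ⟨hux.1, hy, hxy⟩⟩

/-- connectedness of a cluster: a nonempty subset which is closed under adjacency is everything. -/
theorem cl_conn (a : I → I → ℕ) (hs : ∀ i j, a i j = a j i) {W N : Finset I}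
    (h : N ∈ clusters a W) {T : Finset I} (hT : T ⊆ N) (hne : T.Nonempty)
    (hcl : ∀ x ∈ T, ∀ y ∈ N, 0 < a x y → y ∈ T) : T = N := by
  apply Finset.Subset.antisymm hT
  obtain ⟨t, ht⟩ := hne
  have key : ∀ y, Relation.ReflTransGen (adjW a W) t y → y ∈ T := by
    intro y hy
    induction hy with
    | refl => exact ht
    | tail _ hbc ih =>
      exact hcl _ ih _ (cl_closed a hs h (hT ih) hbc.2.1 hbc.2.2) hbc.2.2
  obtain ⟨u, hu, rfl⟩ := (E1c_mem_clusters a).1 h
  intro y hy
  have h1 := hT ht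
  rw [← E1c_comp_eq a hs h1] at hy
  exact key y ((E1c_mem_comp a).1 hy).2

theorem cl_self (a : I → I → ℕ) (hs : ∀ i j, a i j = a j i) {W N : Finset I}
    (h : N ∈ clusters a W) : N ∈ clusters a N := by
  obtain ⟨x, hx⟩ := cl_nonempty a h
  refine (E1c_mem_clusters a).2 ⟨x, hx, ?_⟩
  have hmem : comp a N x ∈ clusters a N := (E1c_mem_clusters a).2 ⟨x, hx, rfl⟩
  refine cl_conn a hs h (cl_sub a hmem) (cl_nonempty a hmem) ?_
  intro u hu y hy huy
  exact cl_closed a hs hmem hu hy huy

theorem cl_of (a : I → I → ℕ) (hs : ∀ i j, a i j = a j i) {W N : Finset I} (hN : N ⊆ W)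
    (h : N ∈ clusters a N) (hcl : ∀ x ∈ N, ∀ y ∈ W, 0 < a x y → y ∈ N) : N ∈ clusters a W := by
  obtain ⟨x, hx⟩ := cl_nonempty a h
  have hxW : x ∈ W := hN hx
  have hmem : comp a W x ∈ clusters a W := (E1c_mem_clusters a).2 ⟨x, hxW, rfl⟩
  have hxc : x ∈ comp a W x := (E1c_mem_comp a).2 ⟨hxW, Relation.ReflTransGen.refl⟩
  have hsub : comp a W x ⊆ N := by
    intro y hy
    have hy2 := ((E1c_mem_comp a).1 hy).2
    clear hy
    induction hy2 with
    | refl => exact hx
    | tail _ hbc ih => exact hcl _ ih _ hbc.2.1 hbc.2.2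
  have heq : comp a W x = N := by
    refine cl_conn a hs h hsub ⟨x, hxc⟩ ?_
    intro u hu y hy huy
    exact cl_closed a hs hmem hu (hN hy) huy
  rw [← heq]
  exact hmem

theorem cl_mono (a : I → I → ℕ) (hs : ∀ i j, a i j = a j i) {W W' N : Finset I} (hW : W' ⊆ W)
    (h : N ∈ clusters a W') : ∃ N' ∈ clusters a W, N ⊆ N' := by
  obtain ⟨x, hx, rfl⟩ := (E1c_mem_clusters a).1 h
  refine ⟨comp a W x, (E1c_mem_clusters a).2 ⟨x, hW hx, rfl⟩, ?_⟩
  intro y hy
  obtain ⟨hy1, hy2⟩ := (E1c_mem_comp a).1 hy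
  refine (E1c_mem_comp a).2 ⟨hW hy1, ?_⟩
  clear hy hy1
  induction hy2 with
  | refl => exact Relation.ReflTransGen.refl
  | tail _ hbc ih => exact ih.tail ⟨hW hbc.1, hW hbc.2.1, hbc.2.2⟩

/-- if in addition `v = 0` on `N` then no neighbour of `N` has `v > 0`. -/
theorem cl_zero_nbr (a : I → I → ℕ) {W N : Finset I}
    (h : N ∈ clusters a W) (v : I → ℚ) (hv : ∀ i, 0 ≤ v i) (hc : ∀ x ∈ W, cv a v x = 0)
    (h0 : ∀ x ∈ N, v x = 0) {x y : I} (hx : x ∈ N) (hxy : 0 < a x y) : v y = 0 := by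
  exact cv_zero_nbr a v x hv (h0 x hx) (hc x (cl_sub a h hx)) y hxy

/-- zero set principle: if `v ≥ 0`, `(C v)_x = 0` on `W`, then on every cluster of `W` either `v = 0`
or `v > 0` everywhere. -/
theorem cl_zero_or (a : I → I → ℕ) (hs : ∀ i j, a i j = a j i) {W N : Finset I}
    (h : N ∈ clusters a W) (v : I → ℚ) (hv : ∀ i, 0 ≤ v i) (hc : ∀ x ∈ W, cv a v x = 0) :
    (∀ x ∈ N, v x = 0) ∨ ∀ x ∈ N, 0 < v x := by
  classical
  by_cases hne : (N.filter (fun x => v x = 0)).Nonempty
  · left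
    have hT : N.filter (fun x => v x = 0) = N := by
      refine cl_conn a hs h (Finset.filter_subset _ _) hne ?_
      intro x hx y hy hxy
      rw [Finset.mem_filter] at hx ⊢
      exact ⟨hy, cv_zero_nbr a v x hv hx.2 (hc x (cl_sub a h hx.1)) y hxy⟩
    intro x hx
    rw [← hT, Finset.mem_filter] at hx
    exact hx.2
  · right
    intro x hx
    refine lt_of_le_of_ne (hv x) ?_
    intro h0
    exact hne ⟨x, Finset.mem_filter.2 ⟨hx, h0.symm⟩⟩

/-- the values outside of `N` are irrelevant for vectors supported in `W`. -/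
theorem cl_cv (a : I → I → ℕ) (hs : ∀ i j, a i j = a j i) {W N : Finset I}
    (h : N ∈ clusters a W) (v : I → ℚ) (hv : ∀ i, i ∉ W → v i = 0) {x : I} (hx : x ∈ N) :
    cv a (fun i => if i ∈ N then v i else 0) x = cv a v x := by
  unfold cv
  refine Finset.sum_congr rfl fun i _ => ?_
  by_cases hi : i ∈ N
  · simp only [if_pos hi]
  · simp only [if_neg hi, mul_zero]
    by_cases hiW : i ∈ W
    · have ha : a x i = 0 := by
        by_contra hne
        exact hi (cl_closed a hs h hx hiW (Nat.pos_of_ne_zero hne))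
      have hxi : x ≠ i := by
        rintro rfl
        exact hi hx
      rw [cart_ne a hxi, ha]
      simp
    · rw [hv i hiW, mul_zero]

theorem clusters_empty (a : I → I → ℕ) : clusters a (∅ : Finset I) = ∅ := by
  classical
  unfold clusters
  exact Finset.image_empty _

end Pool.Agent.H40.KADE

end

section

/-!
KAC ADE engine, module E3: one step preserves the consistency `GS`.

Notation: `W' = W \ S` remaining walls, `m = mhat a W' q n`, `γ' = stG k γ m`, `P' = stP a P p m`, `p' = P`,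
`q' = stQ W' q m`, `w' = neww cn w k q' m`.

* `m i = n i - q i` for `i ∉ W'` (`ext_off`), `(C m)_x = 0` on `W'` (`ext_cv`, `FT_mono`).
* `cons`: `(C γ')_i = k p_i - (k+1) P_i - k (C m)_i = (k-1) P_i - k P'_i`.
* `int`: `P' - P - C q' = (P - p - C q) + C (m + q - q')` and `m + q - q' = n` off `W'`, `0` on `W'`: integral (`cv_int`).
* `adm`: for a cluster `N'` of `W'`: either `m = 0` on `N'`: then no element of `S` is adjacent to `N'` (`cl_zero_nbr`, `m_s > 0`
  for `s ∈ S` because `(C m)_s > 0`: `sol_pos_of`), so `N'` is a cluster of `W` (`cl_of`) and everything is unchanged on `N'`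
  (`CN.congr`); or `m > 0` on `N'` (`cl_zero_or`): the cluster `N ⊇ N'` of `W` is touched, so `w N k ≠ 0` because `tw ≠ 0`; if
  `w N l = cn N q (L - l)` then `(L - k) q_x ∈ ℤ` on `N` by `CN.int` (`FTC` from `FT_mono`, `cl_self`, `cl_cv` and `GS.int`), so
  `γ'_x + k q'_x = γ_x + k q_x = (γ_x + L q_x) - (L - k) q_x ∈ ℤ`; the new clock is `k`.
* `gint`: for `i ∉ W`: `γ_i - k n_i`; for `s ∈ S`: `γ_s - k (n_s - q_s) = γ_s + k q_s - k n_s`, as before (the cluster of `s` in
  `W` is touched).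
-/

set_option autoImplicit false

namespace Pool.Agent.H40.KADE

open scoped BigOperators
open Pool.Agent.H27.KAC

variable {I : Type} [Fintype I] [DecidableEq I]

theorem mhat_off (a : I → I → ℕ) (W' : Finset I) (q : I → ℚ) (n : I → ℤ) (i : I) (hi : i ∉ W') :
    mhat a W' q n i = (n i : ℚ) - q i := by
  exact ext_off a W' _ i hi

theorem mhat_cv (a : I → I → ℕ) {W' : Finset I} (h : FT a W') (q : I → ℚ) (n : I → ℤ) (x : I)
    (hx : x ∈ W') : cv a (mhat a W' q n) x = 0 := by
  exact ext_cv a h _ x hx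

theorem box_bound {W' : Finset I} {k : ℕ} (hk : 1 ≤ k) {γ q : I → ℚ} {n : I → ℤ}
    (hn : n ∈ boxS W' k γ q) (i : I) (hi : i ∉ W') :
    0 ≤ (n i : ℚ) - q i ∧ (k : ℚ) * ((n i : ℚ) - q i) ≤ γ i := by
  unfold boxS at hn
  rw [Fintype.mem_piFinset] at hn
  have h1 := hn i
  rw [if_neg hi, Finset.mem_Icc] at h1
  obtain ⟨h2, h3⟩ := h1
  have h4 : q i ≤ (n i : ℚ) := Int.ceil_le.1 h2
  have h5 : (n i : ℚ) ≤ γ i / k + q i := Int.le_floor.1 h3
  have hk0 : (0 : ℚ) < k := by exact_mod_cast hk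
  refine ⟨by linarith, ?_⟩
  have h6 : (n i : ℚ) - q i ≤ γ i / k := by linarith
  calc (k : ℚ) * ((n i : ℚ) - q i) ≤ k * (γ i / k) := by gcongr
    _ = γ i := by field_simp

theorem mhat_nonneg (a : I → I → ℕ) {W' : Finset I} (h : FT a W') {k : ℕ} (hk : 1 ≤ k)
    {γ q : I → ℚ} {n : I → ℤ} (hn : n ∈ boxS W' k γ q) (i : I) : 0 ≤ mhat a W' q n i := by
  exact ext_nonneg a h _ (fun x hx => (box_bound hk hn x hx).1) i

/-- `FTC` for the clusters of a consistent state. -/
theorem GS_FTC (a : I → I → ℕ) (hs : ∀ i j, a i j = a j i) {cn : Finset I → (I → ℚ) → ℕ → ℚ}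
    {k : ℕ} {γ P p : I → ℚ} {W : Finset I} {q : I → ℚ} {w : Finset I → ℕ → ℚ}
    (h : GS a cn k γ P p W q w) {N : Finset I} (hN : N ∈ clusters a W) : FTC a N q := by
  refine ⟨FT_mono a h.ft (cl_sub a hN), cl_self a hs hN, fun x hx => ?_⟩
  rw [cl_cv a hs hN q h.q0 hx]
  obtain ⟨z, hz⟩ := h.int x
  have hxW := cl_sub a hN hx
  rw [h.P0 x hxW, h.p0 x hxW] at hz
  exact ⟨-z, by push_cast; linarith⟩

/-- nonnegativity of the response functions. -/
theorem GS_w_nonneg (a : I → I → ℕ) (hs : ∀ i j, a i j = a j i)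
    {cn : Finset I → (I → ℚ) → ℕ → ℚ} (hcn : CN a cn)
    {k : ℕ} {γ P p : I → ℚ} {W : Finset I} {q : I → ℚ} {w : Finset I → ℕ → ℚ}
    (h : GS a cn k γ P p W q w) {N : Finset I} (hN : N ∈ clusters a W) {l : ℕ} (hl : l ≤ k - 1) :
    0 ≤ w N l := by
  rcases h.adm N hN with ⟨L, -, h2, -⟩ | ⟨-, h2, -⟩
  · rw [h2 l hl]
    exact hcn.nonneg N q (L - l) (GS_FTC a hs h hN)
  · rw [h2 l hl]
    exact zero_le_one

theorem GS_tw_nonneg (a : I → I → ℕ) (hs : ∀ i j, a i j = a j i)
    {cn : Finset I → (I → ℚ) → ℕ → ℚ} (hcn : CN a cn)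
    {k : ℕ} {γ P p : I → ℚ} {W : Finset I} {q : I → ℚ} {w : Finset I → ℕ → ℚ}
    (h : GS a cn k γ P p W q w) {l : ℕ} (hl : l ≤ k - 1) (v : I → ℚ) : 0 ≤ tw a W w l v := by
  unfold tw
  refine Finset.prod_nonneg fun N hN => ?_
  split_ifs
  · exact zero_le_one
  · exact GS_w_nonneg a hs hcn h hN hl

theorem stG_nonneg (a : I → I → ℕ) {cn : Finset I → (I → ℚ) → ℕ → ℚ}
    {k : ℕ} (hk : 1 ≤ k) {γ P p : I → ℚ} {W : Finset I} {q : I → ℚ} {w : Finset I → ℕ → ℚ}
    (h : GS a cn (k + 1) γ P p W q w) (hγ : ∀ i, 0 ≤ γ i) {S : Finset I} (hS : S ⊆ W)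
    {n : I → ℤ} (hn : n ∈ boxS (W \ S) k γ q) (i : I) :
    0 ≤ stG k γ (mhat a (W \ S) q n) i := by
  have hft : FT a (W \ S) := FT_mono a h.ft Finset.sdiff_subset
  refine FT_nonneg a hft _ (fun x hx => ?_) (fun x hx => ?_) i
  · unfold stG
    rw [mhat_off a _ q n x hx]
    have := (box_bound hk hn x hx).2
    linarith
  · have hxW : x ∈ W := (Finset.mem_sdiff.1 hx).1
    have e : cv a (stG k γ (mhat a (W \ S) q n)) x =
        cv a γ x - (k : ℚ) * cv a (mhat a (W \ S) q n) x := by
      unfold stG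
      rw [cv_sub, cv_smul]
    rw [e, mhat_cv a hft q n x hx, h.cons x, h.P0 x hxW, h.p0 x hxW]
    simp

/-- one step preserves the consistency. -/
theorem st_GS (a : I → I → ℕ) (hs : ∀ i j, a i j = a j i)
    {cn : Finset I → (I → ℚ) → ℕ → ℚ} (hcn : CN a cn)
    {k : ℕ} (hk : 1 ≤ k) {γ P p : I → ℚ} {W : Finset I} {q : I → ℚ} {w : Finset I → ℕ → ℚ}
    (h : GS a cn (k + 1) γ P p W q w) {S : Finset I} (hS : S ⊆ W)
    {n : I → ℤ} (hn : n ∈ boxS (W \ S) k γ q)
    (hpos : ∀ s ∈ S, 0 < cv a (mhat a (W \ S) q n) s)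
    (htw : tw a W w k (mhat a (W \ S) q n) ≠ 0) :
    GS a cn k (stG k γ (mhat a (W \ S) q n)) (stP a P p (mhat a (W \ S) q n)) P (W \ S)
      (stQ (W \ S) q (mhat a (W \ S) q n))
      (neww cn w k (stQ (W \ S) q (mhat a (W \ S) q n)) (mhat a (W \ S) q n)) := by
  have hft : FT a (W \ S) := FT_mono a h.ft Finset.sdiff_subset
  set m : I → ℚ := mhat a (W \ S) q n with hm
  have hmn : ∀ i, 0 ≤ m i := mhat_nonneg a hft hk hn
  have hmo : ∀ i, i ∉ W \ S → m i = (n i : ℚ) - q i := fun i hi => mhat_off a _ q n i hi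
  have hmc : ∀ x ∈ W \ S, cv a m x = 0 := fun x hx => mhat_cv a hft q n x hx
  -- touched clusters
  have hint : ∀ N ∈ clusters a W, (∃ x ∈ N, m x ≠ 0) → ∀ x ∈ N, ∃ z : ℤ,
      γ x + (k : ℚ) * q x = z := by
    intro N hN ⟨x0, hx0, hm0⟩ x hx
    have hw : w N k ≠ 0 := by
      intro h0
      apply htw
      unfold tw
      refine Finset.prod_eq_zero hN ?_
      rw [if_neg (fun hall => hm0 (hall x0 hx0)), h0]
    rcases h.adm N hN with ⟨L, hL, h2, h3⟩ | ⟨h1, -, h3⟩
    · have hL' : k ≤ L := by simpa using hL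
      rw [h2 k (by simp)] at hw
      obtain ⟨z, hz⟩ := hcn.int N q (L - k) (GS_FTC a hs h hN) hw x hx
      obtain ⟨z', hz'⟩ := h3 x hx
      refine ⟨z' - z, ?_⟩
      push_cast [Nat.cast_sub hL'] at hz ⊢
      linarith
    · obtain ⟨z, hz⟩ := h3 x hx
      exact ⟨z, by rw [h1 x hx, mul_zero, add_zero, hz]⟩
  refine ⟨hft, fun x hx => ?_, fun x hx => h.P0 x (Finset.mem_sdiff.1 hx).1, fun i hi => ?_,
    fun i => ?_, fun i => ?_, fun i hi => ?_, fun N' hN' => ?_⟩
  · have hxW := (Finset.mem_sdiff.1 hx).1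
    unfold stP
    rw [h.P0 x hxW, h.p0 x hxW, hmc x hx]
    ring
  · unfold stQ
    rw [if_neg hi]
  · have e : cv a (stG k γ m) i = cv a γ i - (k : ℚ) * cv a m i := by
      unfold stG
      rw [cv_sub, cv_smul]
    rw [e, h.cons i]
    unfold stP
    push_cast
    ring
  · obtain ⟨z, hz⟩ := h.int i
    obtain ⟨z', hz'⟩ := cv_int a (fun j => (q j + m j) - stQ (W \ S) q m j) (fun j => by
      unfold stQ
      by_cases hj : j ∈ W \ S
      · exact ⟨0, by rw [if_pos hj]; simp⟩
      · exact ⟨n j, by rw [if_neg hj, hmo j hj]; ring⟩) i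
    rw [cv_sub, cv_add] at hz'
    refine ⟨z + z', ?_⟩
    unfold stP
    push_cast
    linarith
  · unfold stG
    rw [hmo i hi]
    by_cases hiW : i ∈ W
    · have hiS : i ∈ S := by
        by_contra hcon
        exact hi (Finset.mem_sdiff.2 ⟨hiW, hcon⟩)
      have hmi : 0 < m i := sol_pos_of a m hmn i (hpos i hiS)
      obtain ⟨N, hN, hiN⟩ := cl_exists a hiW
      obtain ⟨z, hz⟩ := hint N hN ⟨i, hiN, hmi.ne'⟩ i hiN
      refine ⟨z - k * n i, ?_⟩
      push_cast
      linarith
    · obtain ⟨z, hz⟩ := h.gint i hiW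
      refine ⟨z - k * n i, ?_⟩
      rw [h.q0 i hiW, hz]
      push_cast
      ring
  · have hsub : N' ⊆ W \ S := cl_sub a hN'
    have hq' : ∀ x ∈ N', stQ (W \ S) q m x = q x + m x := by
      intro x hx
      unfold stQ
      rw [if_pos (hsub hx)]
    rcases cl_zero_or a hs hN' m hmn hmc with h0 | h0
    · have hNW : N' ∈ clusters a W := by
        refine cl_of a hs (hsub.trans Finset.sdiff_subset) (cl_self a hs hN') ?_
        intro x hx y hy hxy
        by_cases hyS : y ∈ S
        · exfalso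
          have h1 := sol_pos_of a m hmn y (hpos y hyS)
          rw [cl_zero_nbr a hN' m hmn hmc h0 hx hxy] at h1
          exact lt_irrefl _ h1
        · exact cl_closed a hs hN' hx (Finset.mem_sdiff.2 ⟨hy, hyS⟩) hxy
      have hqq : ∀ x ∈ N', q x = stQ (W \ S) q m x := by
        intro x hx
        rw [hq' x hx, h0 x hx, add_zero]
      have hgg : ∀ x ∈ N', stG k γ m x = γ x := by
        intro x hx
        unfold stG
        rw [h0 x hx, mul_zero, sub_zero]
      have hww : ∀ l, neww cn w k (stQ (W \ S) q m) m N' l = w N' l := by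
        intro l
        unfold neww
        rw [if_pos h0]
      rcases h.adm N' hNW with ⟨L, hL, h2, h3⟩ | ⟨h1, h2, h3⟩
      · refine Or.inl ⟨L, ?_, fun l hl => ?_, fun x hx => ?_⟩
        · have : k ≤ L := by simpa using hL
          omega
        · rw [hww l, h2 l (by simp; omega)]
          exact hcn.congr N' _ _ _ hqq
        · obtain ⟨z, hz⟩ := h3 x hx
          refine ⟨z, ?_⟩
          rw [hgg x hx, ← hqq x hx, hz]
      · refine Or.inr ⟨fun x hx => ?_, fun l hl => ?_, fun x hx => ?_⟩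
        · rw [← hqq x hx, h1 x hx]
        · rw [hww l, h2 l (by simp; omega)]
        · obtain ⟨z, hz⟩ := h3 x hx
          exact ⟨z, by rw [hgg x hx, hz]⟩
    · obtain ⟨N, hN, hNN⟩ := cl_mono a hs (Finset.sdiff_subset : W \ S ⊆ W) hN'
      obtain ⟨x0, hx0⟩ := cl_nonempty a hN'
      have hnz : ¬ ∀ x ∈ N', m x = 0 := fun hall => (h0 x0 hx0).ne' (hall x0 hx0)
      refine Or.inl ⟨k, by omega, fun l hl => ?_, fun x hx => ?_⟩
      · unfold neww
        rw [if_neg hnz]
      · obtain ⟨z, hz⟩ := hint N hN ⟨x0, hNN hx0, (h0 x0 hx0).ne'⟩ x (hNN hx)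
        refine ⟨z, ?_⟩
        rw [hq' x hx]
        unfold stG
        rw [← hz]
        ring

end Pool.Agent.H40.KADE

end

section

/-!
KAC ADE engine, module E4: creation of walls preserves the invariants.

`X = crX W P = {i ∉ W : P i = 0}`, `Q = crQ a W X p`, i.e. `Q = 0` off `W ∪ X`, `(C Q)_x = p x > 0` on `X`, `0` on `W`; `Q ≥ 0`.
`γ' = crG k γ Q = γ - (k-1) Q`, `P' = P`, `p' = crp a p Q = p - C Q`, `q' = crq q Q = q + Q`, `H' = crH a W X H`.
* GS: `cons`, `int` are linear; `P = 0`, `p' = 0` on `W ∪ X`; `adm`: let `N'` be a cluster of `W ∪ X`.  By `cl_zero_or` either `Q = 0`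
  on `N'`: then `N' ∩ X = ∅` (`Q_x > 0` on `X`: `sol_pos_of`), `N'` is a cluster of `W` (`cl_of`) and nothing changes; or `Q > 0`
  on `N'`; new clock `L = k - 1`: for `x ∈ N' ∩ X`: `γ'_x + (k-1) q'_x = γ_x ∈ ℤ`; for `x ∈ N' ∩ W`, in the cluster `N` of `W`
  (touched, so `w N (k-1) ≠ 0` because `tw ≠ 0`): `γ_x + (k-1) q_x ∈ ℤ` by `CN.int` as in E3.
  (`cl_zero_or` needs `(C v)_x = 0` on the walls; here `(C Q)_x = p_x` on `X`; use: the zero set of `Q` in `N'` contains no element
  of `X`, and it is closed under adjacency by `cv_zero_nbr`.)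
* `p' ≥ 0`: off `W ∪ X`: `(C Q)_l ≤ 0` (`cv_nonpos`).  `H' ≥ 0` : `(C sol e_x)_l ≤ 0`.
* `d' = p' - H' P`: `∑_i H'_li P_i = (H P)_l - ∑_x (C sol e_x)_l (H P)_x` (`P = 0` on `X`), `p'_l = p_l - ∑_x (C sol e_x)_l p_x` (`Q = ∑_x p_x sol e_x`),
  so `d'_l = d_l - ∑_x (C sol e_x)_l d_x ≥ 0`.
* `γ' ≥ 0`: `FT_nonneg` for `W ∪ X`: `(C γ')_x = 0` there, `γ' = γ ≥ 0` elsewhere.
-/

set_option autoImplicit false

namespace Pool.Agent.H40.KADE

open scoped BigOperators
open Pool.Agent.H27.KAC

variable {I : Type} [Fintype I] [DecidableEq I]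

theorem E4_mem (W : Finset I) (P : I → ℚ) (x : I) : x ∈ crX W P ↔ x ∉ W ∧ P x = 0 := by
  unfold crX
  rw [Finset.mem_filter]
  exact ⟨fun h => h.2, fun h => ⟨Finset.mem_univ _, h⟩⟩

theorem E4_Q_off (a : I → I → ℕ) (W X : Finset I) (p : I → ℚ) (x : I) (hx : x ∉ W ∪ X) :
    crQ a W X p x = 0 := sol_off a _ _ x hx

theorem E4_Q_cv (a : I → I → ℕ) {W X : Finset I} (h : FT a (W ∪ X)) (p : I → ℚ) (x : I)
    (hx : x ∈ W ∪ X) : cv a (crQ a W X p) x = if x ∈ X then p x else 0 :=
  sol_cv a h _ x hx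

theorem E4_Q_nonneg (a : I → I → ℕ) {W X : Finset I} (h : FT a (W ∪ X)) (p : I → ℚ)
    (hp : ∀ x ∈ X, 0 ≤ p x) (x : I) : 0 ≤ crQ a W X p x := by
  refine sol_nonneg a h _ (fun y _ => ?_) x
  split_ifs with hy
  · exact hp y hy
  · exact le_refl _

theorem cr_GS (a : I → I → ℕ) (hs : ∀ i j, a i j = a j i)
    {cn : Finset I → (I → ℚ) → ℕ → ℚ} (hcn : CN a cn)
    {k : ℕ} (hk : 2 ≤ k) {γ P p : I → ℚ} {W : Finset I} {q : I → ℚ} {w : Finset I → ℕ → ℚ}
    (h : GS a cn k γ P p W q w) (hX : ∀ x ∈ crX W P, 0 < p x) (hFT : FT a (W ∪ crX W P))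
    (htw : tw a W w (k - 1) (crQ a W (crX W P) p) ≠ 0) :
    GS a cn k (crG k γ (crQ a W (crX W P) p)) P (crp a p (crQ a W (crX W P) p)) (W ∪ crX W P)
      (crq q (crQ a W (crX W P) p))
      (neww cn w (k - 1) (crq q (crQ a W (crX W P) p)) (crQ a W (crX W P) p)) := by
  set X : Finset I := crX W P with hXdef
  set Q : I → ℚ := crQ a W X p with hQdef
  have hXW : ∀ x ∈ X, x ∉ W := fun x hx => ((E4_mem W P x).1 hx).1
  have hXP : ∀ x ∈ X, P x = 0 := fun x hx => ((E4_mem W P x).1 hx).2
  have hQn : ∀ i, 0 ≤ Q i := fun i => E4_Q_nonneg a hFT p (fun x hx => (hX x hx).le) i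
  have hQo : ∀ i, i ∉ W ∪ X → Q i = 0 := fun i hi => E4_Q_off a W X p i hi
  have hQX : ∀ x ∈ X, cv a Q x = p x := by
    intro x hx
    rw [hQdef, E4_Q_cv a hFT p x (Finset.mem_union_right _ hx), if_pos hx]
  have hQW : ∀ x ∈ W, cv a Q x = 0 := by
    intro x hx
    rw [hQdef, E4_Q_cv a hFT p x (Finset.mem_union_left _ hx), if_neg (fun hh => hXW x hh hx)]
  have hQXpos : ∀ x ∈ X, 0 < Q x := by
    intro x hx
    refine sol_pos_of a Q hQn x ?_
    rw [hQX x hx]
    exact hX x hx
  have hk1 : ((k - 1 : ℕ) : ℚ) = (k : ℚ) - 1 := by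
    rw [Nat.cast_sub (by omega)]
    norm_num
  -- touched clusters
  have hint : ∀ N ∈ clusters a W, (∃ x ∈ N, Q x ≠ 0) → ∀ x ∈ N, ∃ z : ℤ,
      γ x + ((k : ℚ) - 1) * q x = z := by
    intro N hN ⟨x0, hx0, hm0⟩ x hx
    have hw : w N (k - 1) ≠ 0 := by
      intro h0
      apply htw
      unfold tw
      refine Finset.prod_eq_zero hN ?_
      rw [if_neg (fun hall => hm0 (hall x0 hx0)), h0]
    rcases h.adm N hN with ⟨L, hL, h2, h3⟩ | ⟨h1, -, h3⟩
    · rw [h2 (k - 1) le_rfl] at hw
      obtain ⟨z, hz⟩ := hcn.int N q (L - (k - 1)) (GS_FTC a hs h hN) hw x hx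
      obtain ⟨z', hz'⟩ := h3 x hx
      refine ⟨z' - z, ?_⟩
      rw [Nat.cast_sub hL, hk1] at hz
      push_cast
      linarith
    · obtain ⟨z, hz⟩ := h3 x hx
      exact ⟨z, by rw [h1 x hx, mul_zero, add_zero, hz]⟩
  refine ⟨hFT, fun x hx => ?_, fun x hx => ?_, fun i hi => ?_,
    fun i => ?_, fun i => ?_, fun i hi => ?_, fun N' hN' => ?_⟩
  · rcases Finset.mem_union.1 hx with hx | hx
    · exact h.P0 x hx
    · exact hXP x hx
  · unfold crp
    rcases Finset.mem_union.1 hx with hx | hx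
    · rw [h.p0 x hx, hQW x hx, sub_zero]
    · rw [hQX x hx, sub_self]
  · unfold crq
    rw [hQo i hi, h.q0 i (fun hh => hi (Finset.mem_union_left _ hh)), add_zero]
  · have e : cv a (crG k γ Q) i = cv a γ i - ((k : ℚ) - 1) * cv a Q i := by
      unfold crG
      rw [cv_sub, cv_smul]
    rw [e, h.cons i]
    unfold crp
    ring
  · obtain ⟨z, hz⟩ := h.int i
    refine ⟨z, ?_⟩
    have e : cv a (crq q Q) i = cv a q i + cv a Q i := by
      unfold crq
      rw [cv_add]
    rw [e, ← hz]
    unfold crp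
    ring
  · unfold crG
    rw [hQo i hi, mul_zero, sub_zero]
    exact h.gint i (fun hh => hi (Finset.mem_union_left _ hh))
  · have hsub : N' ⊆ W ∪ X := cl_sub a hN'
    by_cases h0 : ∀ x ∈ N', Q x = 0
    · have hNW' : ∀ x ∈ N', x ∈ W := by
        intro x hx
        rcases Finset.mem_union.1 (hsub hx) with hh | hh
        · exact hh
        · exact absurd (h0 x hx) (hQXpos x hh).ne'
      have hNW : N' ∈ clusters a W := by
        refine cl_of a hs hNW' (cl_self a hs hN') ?_
        intro x hx y hy hxy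
        exact cl_closed a hs hN' hx (Finset.mem_union_left _ hy) hxy
      have hqq : ∀ x ∈ N', q x = crq q Q x := by
        intro x hx
        unfold crq
        rw [h0 x hx, add_zero]
      have hgg : ∀ x ∈ N', crG k γ Q x = γ x := by
        intro x hx
        unfold crG
        rw [h0 x hx, mul_zero, sub_zero]
      have hww : ∀ l, neww cn w (k - 1) (crq q Q) Q N' l = w N' l := by
        intro l
        unfold neww
        rw [if_pos h0]
      rcases h.adm N' hNW with ⟨L, hL, h2, h3⟩ | ⟨h1, h2, h3⟩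
      · refine Or.inl ⟨L, hL, fun l hl => ?_, fun x hx => ?_⟩
        · rw [hww l, h2 l hl]
          exact hcn.congr N' _ _ _ hqq
        · obtain ⟨z, hz⟩ := h3 x hx
          refine ⟨z, ?_⟩
          rw [hgg x hx, ← hqq x hx, hz]
      · refine Or.inr ⟨fun x hx => ?_, fun l hl => ?_, fun x hx => ?_⟩
        · rw [← hqq x hx, h1 x hx]
        · rw [hww l, h2 l hl]
        · obtain ⟨z, hz⟩ := h3 x hx
          exact ⟨z, by rw [hgg x hx, hz]⟩
    · have hpos : ∀ x ∈ N', 0 < Q x := by
        by_contra hcon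
        push Not at hcon
        obtain ⟨x0, hx0, hx1⟩ := hcon
        have hx2 : Q x0 = 0 := le_antisymm hx1 (hQn x0)
        apply h0
        have hT : N'.filter (fun x => Q x = 0) = N' := by
          refine cl_conn a hs hN' (Finset.filter_subset _ _)
            ⟨x0, Finset.mem_filter.2 ⟨hx0, hx2⟩⟩ ?_
          intro x hx y hy hxy
          obtain ⟨hx3, hx4⟩ := Finset.mem_filter.1 hx
          refine Finset.mem_filter.2 ⟨hy, ?_⟩
          have hxW : x ∈ W := by
            rcases Finset.mem_union.1 (hsub hx3) with hh | hh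
            · exact hh
            · exact absurd hx4 (hQXpos x hh).ne'
          exact cv_zero_nbr a Q x hQn hx4 (hQW x hxW) y hxy
        intro x hx
        rw [← hT] at hx
        exact (Finset.mem_filter.1 hx).2
      refine Or.inl ⟨k - 1, le_rfl, fun l hl => ?_, fun x hx => ?_⟩
      · unfold neww
        rw [if_neg h0]
      · rw [hk1]
        have e : crG k γ Q x + ((k : ℚ) - 1) * crq q Q x = γ x + ((k : ℚ) - 1) * q x := by
          unfold crG crq
          ring
        rw [e]
        rcases Finset.mem_union.1 (hsub hx) with hh | hh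
        · obtain ⟨N, hN, hxN⟩ := cl_exists a hh
          exact hint N hN ⟨x, hxN, (hpos x hx).ne'⟩ x hxN
        · rw [h.q0 x (hXW x hh), mul_zero, add_zero]
          exact h.gint x (hXW x hh)

theorem cr_fresh (a : I → I → ℕ) (hs : ∀ i j, a i j = a j i)
    {cn : Finset I → (I → ℚ) → ℕ → ℚ} (hcn : CN a cn)
    {k : ℕ} (hk : 2 ≤ k) {γ P p : I → ℚ} {H : I → I → ℚ} {W : Finset I} {q : I → ℚ}
    {w : Finset I → ℕ → ℚ} (h : Pre a cn k γ P p H W q w) (hFT : FT a (W ∪ crX W P))
    (htw : tw a W w (k - 1) (crQ a W (crX W P) p) ≠ 0) :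
    Fresh a cn k (crG k γ (crQ a W (crX W P) p)) P (crp a p (crQ a W (crX W P) p))
      (crH a W (crX W P) H) (W ∪ crX W P) (crq q (crQ a W (crX W P) p))
      (neww cn w (k - 1) (crq q (crQ a W (crX W P) p)) (crQ a W (crX W P) p)) := by
  have hX : ∀ x ∈ crX W P, 0 < p x := fun x hx =>
    (h.Pz x ((E4_mem W P x).1 hx).1 ((E4_mem W P x).1 hx).2).2
  have hGS := cr_GS a hs hcn hk h.toGS hX hFT htw
  have hXP : ∀ x ∈ crX W P, P x = 0 := fun x hx => ((E4_mem W P x).1 hx).2
  have hQn : ∀ i, 0 ≤ crQ a W (crX W P) p i :=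
    fun i => E4_Q_nonneg a hFT p (fun x hx => (hX x hx).le) i
  have hQo : ∀ i, i ∉ W ∪ crX W P → crQ a W (crX W P) p i = 0 :=
    fun i hi => E4_Q_off a W (crX W P) p i hi
  have hen : ∀ x i, 0 ≤ sol a (W ∪ crX W P) (fun y => if y = x then 1 else 0) i := by
    intro x i
    refine sol_nonneg a hFT _ (fun y _ => ?_) i
    split_ifs
    · exact zero_le_one
    · exact le_refl _
  have heo : ∀ x l, l ∉ W ∪ crX W P →
      cv a (sol a (W ∪ crX W P) (fun y => if y = x then 1 else 0)) l ≤ 0 := by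
    intro x l hl
    exact cv_nonpos a _ l (hen x) (sol_off a _ _ l hl)
  refine ⟨hGS, ?_, ?_, ?_, ?_, ?_, ?_⟩
  · intro l i hli
    unfold crH
    rw [if_pos hli]
  · intro l i
    unfold crH
    split_ifs with hli
    · exact le_refl _
    · push Not at hli
      have h1 : ∑ x ∈ crX W P, cv a (sol a (W ∪ crX W P) (fun y => if y = x then 1 else 0)) l *
          H x i ≤ 0 := Finset.sum_nonpos fun x _ =>
        mul_nonpos_of_nonpos_of_nonneg (heo x l hli.1) (h.Hnn x i)
      have h2 := h.Hnn l i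
      linarith
  · intro i hi
    have h1 := h.Pnn i
    rcases h1.lt_or_eq with h2 | h2
    · exact h2
    · exfalso
      apply hi
      by_cases hiW : i ∈ W
      · exact Finset.mem_union_left _ hiW
      · exact Finset.mem_union_right _ ((E4_mem W P i).2 ⟨hiW, h2.symm⟩)
  · intro i
    by_cases hi : i ∈ W ∪ crX W P
    · rw [hGS.p0 i hi]
    · unfold crp
      have h1 := cv_nonpos a _ i hQn (hQo i hi)
      have h2 := h.pnn i
      linarith
  · intro l
    by_cases hl : l ∈ W ∪ crX W P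
    · rw [hGS.p0 l hl]
      refine le_of_eq (Finset.sum_eq_zero fun i _ => ?_)
      unfold crH
      rw [if_pos (Or.inl hl), zero_mul]
    · have hQs : ∀ i, crQ a W (crX W P) p i = ∑ x ∈ crX W P,
          p x * sol a (W ∪ crX W P) (fun y => if y = x then 1 else 0) i := by
        refine FT_unique a hFT _ _ (fun i hi => ?_) (fun i hi => ?_)
        · rw [hQo i hi]
          refine (Finset.sum_eq_zero fun x _ => ?_).symm
          rw [sol_off a _ _ i hi, mul_zero]
        · rw [E4_Q_cv a hFT p i hi, cv_sum]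
          have h1 : ∀ x ∈ crX W P, cv a (fun j => p x *
              sol a (W ∪ crX W P) (fun y => if y = x then 1 else 0) j) i =
              if i = x then p x else 0 := by
            intro x _
            rw [cv_smul, sol_cv a hFT _ i hi]
            split_ifs
            · rw [mul_one]
            · rw [mul_zero]
          rw [Finset.sum_congr rfl h1, Finset.sum_ite_eq]
      have hcvQ : cv a (crQ a W (crX W P) p) l = ∑ x ∈ crX W P,
          p x * cv a (sol a (W ∪ crX W P) (fun y => if y = x then 1 else 0)) l := by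
        have h1 : crQ a W (crX W P) p = fun i => ∑ x ∈ crX W P,
          p x * sol a (W ∪ crX W P) (fun y => if y = x then 1 else 0) i := funext hQs
        rw [h1, cv_sum]
        exact Finset.sum_congr rfl fun x _ => cv_smul a _ _ _
      have hH : ∑ i, crH a W (crX W P) H l i * P i = ∑ i, H l i * P i -
          ∑ x ∈ crX W P, cv a (sol a (W ∪ crX W P) (fun y => if y = x then 1 else 0)) l *
            ∑ i, H x i * P i := by
        have h1 : ∀ i, crH a W (crX W P) H l i * P i = H l i * P i - ∑ x ∈ crX W P,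
            cv a (sol a (W ∪ crX W P) (fun y => if y = x then 1 else 0)) l * (H x i * P i) := by
          intro i
          by_cases hi : i ∈ W ∪ crX W P
          · have hPi : P i = 0 := by
              rcases Finset.mem_union.1 hi with hh | hh
              · exact h.P0 i hh
              · exact hXP i hh
            rw [hPi]
            simp
          · unfold crH
            rw [if_neg (fun hh => hh.elim hl hi), sub_mul, Finset.sum_mul]
            congr 1
            exact Finset.sum_congr rfl fun x _ => mul_assoc _ _ _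
        rw [Finset.sum_congr rfl fun i _ => h1 i, Finset.sum_sub_distrib]
        congr 1
        rw [Finset.sum_comm]
        exact Finset.sum_congr rfl fun x _ => by rw [Finset.mul_sum]
      have hd : ∑ x ∈ crX W P, cv a (sol a (W ∪ crX W P) (fun y => if y = x then 1 else 0)) l *
          (p x - ∑ i, H x i * P i) ≤ 0 := Finset.sum_nonpos fun x _ =>
        mul_nonpos_of_nonpos_of_nonneg (heo x l hl) (by have := h.dnn x; linarith)
      have hd2 : ∑ x ∈ crX W P, cv a (sol a (W ∪ crX W P) (fun y => if y = x then 1 else 0)) l *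
          (p x - ∑ i, H x i * P i) = cv a (crQ a W (crX W P) p) l -
          ∑ x ∈ crX W P, cv a (sol a (W ∪ crX W P) (fun y => if y = x then 1 else 0)) l *
            ∑ i, H x i * P i := by
        rw [hcvQ, ← Finset.sum_sub_distrib]
        exact Finset.sum_congr rfl fun x _ => by ring
      rw [hH]
      unfold crp
      have h3 := h.dnn l
      linarith
  · refine FT_nonneg a hFT _ (fun x hx => ?_) (fun x hx => ?_)
    · unfold crG
      rw [hQo x hx, mul_zero, sub_zero]
      exact h.gnn x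
    · rw [hGS.cons x, hGS.p0 x hx, hGS.P0 x hx]
      simp

end Pool.Agent.H40.KADE

end

section

/-!
KAC ADE: the ring `LL`.

`LL I` = power series in variables `s_i` over the ring of Laurent polynomials in variables `t_i` with RATIONAL
exponents.  `Tht a` is the substitution `Y_i = s_i ∏_j t_j^(-C_ij)`.  `Qp a i k α = (t_i^k U_ik)^α`.
`CT γ F` = coefficient of `s^γ t^0` (zero unless `γ` is a vector of natural numbers).
-/

namespace Pool.Agent.H46.KA

open scoped BigOperators
open MvPowerSeries Pool.Agent.H27.KAC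

section

variable {I : Type}

/-- Laurent polynomials in `t` with rational exponents. -/
abbrev TT (I : Type) : Type := AddMonoidAlgebra ℚ (I → ℚ)

/-- power series in `s` over `TT I`. -/
abbrev LL (I : Type) : Type := MvPowerSeries I (TT I)

/-- the monomial `t^d`. -/
noncomputable def tm (d : I → ℚ) : LL I := MvPowerSeries.C (AddMonoidAlgebra.single d (1 : ℚ))

/-- constants. -/
noncomputable def qC (r : ℚ) : LL I := MvPowerSeries.C (AddMonoidAlgebra.single (0 : I → ℚ) r)

/-- the derivation `t^d ↦ d_l t^d` of `TT I`. -/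
noncomputable def thA (l : I) (p : TT I) : TT I :=
  AddMonoidAlgebra.ofCoeff (Finsupp.onFinset p.coeff.support (fun d => d l * p.coeff d)
    (fun d h => by
      rw [Finsupp.mem_support_iff]
      intro h0
      exact h (by rw [h0, mul_zero])))

/-- the derivation `θ_l = t_l ∂/∂t_l` of `LL I`. -/
noncomputable def th (l : I) (F : LL I) : LL I := fun β => thA l (MvPowerSeries.coeff β F)

/-- coefficient of `s^γ t^0` for a vector `γ` of rational numbers. -/
noncomputable def CT (γ : I → ℚ) (F : LL I) : ℚ := by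
  classical
  exact if h : ∃ n : I →₀ ℕ, ∀ i, (n i : ℚ) = γ i then (MvPowerSeries.coeff h.choose F).coeff 0
    else 0

end

section

variable {I : Type} [Fintype I] [DecidableEq I]

/-- `-(C β)` as a rational vector. -/
def dg (a : I → I → ℕ) (β : I →₀ ℕ) (i : I) : ℚ := -((cw a β i : ℤ) : ℚ)

/-- the substitution `Y_i = s_i ∏_j t_j^(-C_ij)`. -/
noncomputable def Tht (a : I → I → ℕ) (F : MvPowerSeries I ℚ) : LL I :=
  fun β => AddMonoidAlgebra.single (dg a β) (MvPowerSeries.coeff β F)

/-- rational power of a power series with constant term `1`: `∑ n, (α choose n) (F - 1)^n`. -/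
noncomputable def rpw (F : MvPowerSeries I ℚ) (α : ℚ) : MvPowerSeries I ℚ :=
  fun β => ∑ n ∈ Finset.range (∑ i, β i + 1),
    Ring.choose α n * MvPowerSeries.coeff β ((F - 1) ^ n)

/-- `Q_{i,k}^α = (t_i^k U_{i,k})^α`. -/
noncomputable def Qp (a : I → I → ℕ) (i : I) (k : ℕ) (α : ℚ) : LL I :=
  tm (fun j => if j = i then (k : ℚ) * α else 0) * Tht a (rpw (uS a i k) α)

/-- the one-form `D_{i,k} = d log Q_{i,k}`, as the vector of its components. -/
noncomputable def Df (a : I → I → ℕ) (i : I) (k : ℕ) (l : I) : LL I := Tht a (xv a i k l)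

/-- one-forms. -/
abbrev Fm (I : Type) : Type := I → LL I

/-- matrix whose column `i` is the form `c i`. -/
noncomputable def cM (c : I → Fm I) : Matrix I I (LL I) := Matrix.of (fun l i => c i l)

/-- `CT` of `F` times the wedge of the forms `c i`. -/
noncomputable def CTd (γ : I → ℚ) (F : LL I) (c : I → Fm I) : ℚ := CT γ (F * (cM c).det)

/-- monomials in the `Q_{i,k}` with rational exponents. -/
noncomputable def mon (a : I → I → ℕ) (E : (I × ℕ) →₀ ℚ) : LL I :=
  E.prod (fun ik α => Qp a ik.1 ik.2 α)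

/-- the exponents of `η_k^v = s^(k v) ∏_i Q_{i,k}^(-(C v)_i)` (without the factor `s^(k v)`). -/
noncomputable def etE (a : I → I → ℕ) (k : ℕ) (v : I → ℚ) : (I × ℕ) →₀ ℚ :=
  ∑ i, Finsupp.single (i, k) (-∑ j, ((cart a i j : ℤ) : ℚ) * v j)

/-- `η_{x,k} = s_x^k ∏_i Q_{i,k}^(-C_ix)`. -/
noncomputable def eta (a : I → I → ℕ) (x : I) (k : ℕ) : LL I :=
  X x ^ k * mon a (etE a k (fun j => if j = x then 1 else 0))

/-- `F` is regular in `t_x`: all `t_x`-exponents are natural numbers. -/
def Rg (x : I) (F : LL I) : Prop :=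
  ∀ (β : I →₀ ℕ) (d : I → ℚ), (MvPowerSeries.coeff β F).coeff d ≠ 0 → ∃ n : ℕ, d x = n

/-- all `t_x`-exponents are positive natural numbers. -/
def Rg1 (x : I) (F : LL I) : Prop :=
  ∀ (β : I →₀ ℕ) (d : I → ℚ), (MvPowerSeries.coeff β F).coeff d ≠ 0 → ∃ n : ℕ, d x = (n : ℚ) + 1

/-- a form regular in `t_x`. -/
def RF (x : I) (v : Fm I) : Prop := (∀ l, Rg x (v l)) ∧ Rg1 x (v x)

end

end Pool.Agent.H46.KA

end

section

/-!
KAC ADE, module B1: ring laws of `tm`, `qC`, `th`, `CT`.

`TT I = AddMonoidAlgebra ℚ (I → ℚ)` (structure with field `coeff : (I → ℚ) →₀ ℚ`), `LL I = MvPowerSeries I (TT I)`.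
`Tht a F` has the coefficient `single (dg a β) (coeff β F)` at `β`; `dg a` is additive (`cw_add`), so `Tht a` is a ring
homomorphism: in the antidiagonal sum `single d r * single d' r' = single (d + d') (r * r')`.
`th l` is a derivation (coefficientwise `thA l`, and `(d + d') l = d l + d' l`); it commutes with `X i` (`th l (X i) = 0`).
`CT`: for non-integral `γ` everything is `0`; otherwise it is a linear functional of one coefficient.
For `CT_X_pow_mul`: `coeff (γ + n e_x) (X x ^ n * F) = coeff γ F`, and `coeff m (X x ^ n * F) = 0` if `m x < n`.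
-/

set_option autoImplicit false

namespace Pool.Agent.H46.KA

open scoped BigOperators
open MvPowerSeries Pool.Agent.H27.KAC

section

variable {I : Type}

/-- `qC` as a ring homomorphism. -/
private noncomputable def B1_qH : ℚ →+* LL I :=
  (MvPowerSeries.C : TT I →+* LL I).comp AddMonoidAlgebra.singleZeroRingHom

private theorem B1_qH_apply (r : ℚ) : (B1_qH r : LL I) = qC r := rfl

private theorem B1_thA_coeff (l : I) (p : TT I) (d : I → ℚ) :
    (thA l p).coeff d = d l * p.coeff d := rfl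

private theorem B1_thA_zero (l : I) : thA l (0 : TT I) = 0 := by
  apply AddMonoidAlgebra.ext
  ext d
  rw [B1_thA_coeff]
  simp

private theorem B1_thA_add (l : I) (p q : TT I) : thA l (p + q) = thA l p + thA l q := by
  apply AddMonoidAlgebra.ext
  ext d
  rw [B1_thA_coeff, AddMonoidAlgebra.coeff_add, AddMonoidAlgebra.coeff_add, Finsupp.add_apply,
    Finsupp.add_apply, B1_thA_coeff, B1_thA_coeff, mul_add]

private noncomputable def B1_thH (l : I) : TT I →+ TT I where
  toFun := thA l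
  map_zero' := B1_thA_zero l
  map_add' := B1_thA_add l

private theorem B1_thA_single (l : I) (d : I → ℚ) (r : ℚ) :
    thA l (AddMonoidAlgebra.single d r : TT I) = AddMonoidAlgebra.single d (d l * r) := by
  classical
  apply AddMonoidAlgebra.ext
  ext e
  rw [B1_thA_coeff, AddMonoidAlgebra.coeff_single_apply, AddMonoidAlgebra.coeff_single_apply]
  by_cases h : d = e
  · rw [if_pos h, if_pos h, h]
  · rw [if_neg h, if_neg h, mul_zero]

private theorem B1_thA_mul (l : I) (p q : TT I) : thA l (p * q) = thA l p * q + p * thA l q := by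
  induction p using AddMonoidAlgebra.induction_linear with
  | zero => rw [zero_mul, B1_thA_zero, zero_mul, zero_mul, add_zero]
  | add p p' hp hp' =>
    rw [add_mul, B1_thA_add, hp, hp', B1_thA_add, add_mul, add_mul]
    ring
  | single d r =>
    induction q using AddMonoidAlgebra.induction_linear with
    | zero => rw [mul_zero, B1_thA_zero, mul_zero, mul_zero, add_zero]
    | add q q' hq hq' =>
      rw [mul_add, B1_thA_add, hq, hq', B1_thA_add, mul_add, mul_add]
      ring
    | single d' r' =>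
      rw [AddMonoidAlgebra.single_mul_single, B1_thA_single, B1_thA_single, B1_thA_single,
        AddMonoidAlgebra.single_mul_single, AddMonoidAlgebra.single_mul_single,
        ← AddMonoidAlgebra.single_add]
      congr 1
      rw [Pi.add_apply]
      ring

private theorem B1_coeff_th (l : I) (F : LL I) (β : I →₀ ℕ) :
    MvPowerSeries.coeff β (th l F) = thA l (MvPowerSeries.coeff β F) := rfl

private noncomputable def B1_thLH (l : I) : LL I →+ LL I where
  toFun := th l
  map_zero' := by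
    ext1 β
    rw [B1_coeff_th, map_zero, B1_thA_zero]
  map_add' F G := by
    ext1 β
    rw [B1_coeff_th, map_add, B1_thA_add, map_add, B1_coeff_th, B1_coeff_th]

private theorem B1_thLH_apply (l : I) (F : LL I) : B1_thLH l F = th l F := rfl

theorem tm_zero : tm (0 : I → ℚ) = (1 : LL I) := by
  unfold tm
  rw [← AddMonoidAlgebra.one_def, map_one]

theorem tm_add (d d' : I → ℚ) : (tm (d + d') : LL I) = tm d * tm d' := by
  unfold tm
  rw [← map_mul, AddMonoidAlgebra.single_mul_single, mul_one]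

theorem coeff_tm_mul (d : I → ℚ) (F : LL I) (β : I →₀ ℕ) :
    MvPowerSeries.coeff β (tm d * F) = AddMonoidAlgebra.single d (1 : ℚ) * MvPowerSeries.coeff β F :=
  MvPowerSeries.coeff_C_mul _ _ _

theorem qC_zero : (qC 0 : LL I) = 0 := by
  rw [← B1_qH_apply, map_zero]

theorem qC_one : (qC 1 : LL I) = 1 := by
  rw [← B1_qH_apply, map_one]

theorem qC_add (r r' : ℚ) : (qC (r + r') : LL I) = qC r + qC r' := by
  rw [← B1_qH_apply, map_add, B1_qH_apply, B1_qH_apply]

theorem qC_mul (r r' : ℚ) : (qC (r * r') : LL I) = qC r * qC r' := by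
  rw [← B1_qH_apply, map_mul, B1_qH_apply, B1_qH_apply]

theorem qC_intCast (n : ℤ) : (qC (n : ℚ) : LL I) = (n : LL I) := by
  rw [← B1_qH_apply, map_intCast]

theorem th_neg (l : I) (F : LL I) : th l (-F) = -th l F := by
  rw [← B1_thLH_apply, map_neg, B1_thLH_apply]

theorem th_mul (l : I) (F G : LL I) : th l (F * G) = th l F * G + F * th l G := by
  classical
  ext1 β
  rw [B1_coeff_th, MvPowerSeries.coeff_mul, map_add, MvPowerSeries.coeff_mul,
    MvPowerSeries.coeff_mul, ← Finset.sum_add_distrib]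
  have h : thA l (∑ p ∈ Finset.HasAntidiagonal.antidiagonal β,
      MvPowerSeries.coeff p.1 F * MvPowerSeries.coeff p.2 G) =
      ∑ p ∈ Finset.HasAntidiagonal.antidiagonal β, thA l (MvPowerSeries.coeff p.1 F * MvPowerSeries.coeff p.2 G) :=
    map_sum (B1_thH l) _ _
  rw [h]
  refine Finset.sum_congr rfl fun p _ => ?_
  rw [B1_thA_mul, B1_coeff_th, B1_coeff_th]

theorem th_sum (l : I) {ι : Type} (s : Finset ι) (f : ι → LL I) :
    th l (∑ i ∈ s, f i) = ∑ i ∈ s, th l (f i) := by
  rw [← B1_thLH_apply, map_sum]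
  rfl

private theorem B1_th_C (l : I) (p : TT I) :
    th l (MvPowerSeries.C p : LL I) = MvPowerSeries.C (thA l p) := by
  classical
  ext1 β
  rw [B1_coeff_th, MvPowerSeries.coeff_C, MvPowerSeries.coeff_C]
  split_ifs
  · rfl
  · exact B1_thA_zero l

theorem th_tm (l : I) (d : I → ℚ) : th l (tm d : LL I) = qC (d l) * tm d := by
  unfold tm qC
  rw [B1_th_C, B1_thA_single, ← map_mul, AddMonoidAlgebra.single_mul_single, zero_add]

/-- `CT` at an integral `γ`. -/
theorem CT_nat (γ : I →₀ ℕ) (F : LL I) :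
    CT (fun i => (γ i : ℚ)) F = (MvPowerSeries.coeff γ F).coeff 0 := by
  have h : ∃ n : I →₀ ℕ, ∀ i, (n i : ℚ) = (γ i : ℚ) := ⟨γ, fun _ => rfl⟩
  unfold CT
  rw [dif_pos h]
  have h2 : h.choose = γ := by
    ext i
    exact_mod_cast h.choose_spec i
  rw [h2]

theorem CT_of_not (γ : I → ℚ) (h : ¬ ∃ n : I →₀ ℕ, ∀ i, (n i : ℚ) = γ i) (F : LL I) : CT γ F = 0 := by
  unfold CT
  rw [dif_neg h]

private theorem B1_cases (γ : I → ℚ) :
    (∃ n : I →₀ ℕ, γ = fun i => (n i : ℚ)) ∨ ¬ ∃ n : I →₀ ℕ, ∀ i, (n i : ℚ) = γ i := by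
  by_cases h : ∃ n : I →₀ ℕ, ∀ i, (n i : ℚ) = γ i
  · obtain ⟨n, hn⟩ := h
    exact Or.inl ⟨n, funext fun i => (hn i).symm⟩
  · exact Or.inr h

theorem CT_zero (γ : I → ℚ) : CT γ (0 : LL I) = 0 := by
  rcases B1_cases γ with ⟨n, rfl⟩ | h
  · rw [CT_nat]
    show ((MvPowerSeries.coeff n (0 : LL I)).coeff 0) = 0
    rw [LinearMap.map_zero]
    rfl
  · rw [CT_of_not γ h]

theorem CT_add (γ : I → ℚ) (F G : LL I) : CT γ (F + G) = CT γ F + CT γ G := by
  rcases B1_cases γ with ⟨n, rfl⟩ | h
  · rw [CT_nat, CT_nat, CT_nat, map_add, AddMonoidAlgebra.coeff_add, Finsupp.add_apply]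
  · rw [CT_of_not γ h, CT_of_not γ h, CT_of_not γ h, add_zero]

private noncomputable def B1_CTH (γ : I → ℚ) : LL I →+ ℚ where
  toFun := CT γ
  map_zero' := CT_zero γ
  map_add' := CT_add γ

private theorem B1_CTH_apply (γ : I → ℚ) (F : LL I) : B1_CTH γ F = CT γ F := rfl

theorem CT_sub (γ : I → ℚ) (F G : LL I) : CT γ (F - G) = CT γ F - CT γ G := by
  rw [← B1_CTH_apply, map_sub, B1_CTH_apply, B1_CTH_apply]

theorem CT_sum (γ : I → ℚ) {ι : Type} (s : Finset ι) (f : ι → LL I) :
    CT γ (∑ i ∈ s, f i) = ∑ i ∈ s, CT γ (f i) := by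
  rw [← B1_CTH_apply, map_sum]
  rfl

theorem CT_qC_mul (γ : I → ℚ) (r : ℚ) (F : LL I) : CT γ (qC r * F) = r * CT γ F := by
  rcases B1_cases γ with ⟨n, rfl⟩ | h
  · rw [CT_nat, CT_nat]
    unfold qC
    rw [MvPowerSeries.coeff_C_mul, AddMonoidAlgebra.coeff_single_mul_eq_mul_coeff (m₂ := 0)]
    intro m' _
    rw [zero_add]
  · rw [CT_of_not γ h, CT_of_not γ h, mul_zero]

theorem CT_X_pow_mul [DecidableEq I] (γ : I → ℚ) (x : I) (n : ℕ) (F : LL I) :
    CT (fun i => γ i + if i = x then (n : ℚ) else 0) (X x ^ n * F) = CT γ F := by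
  rcases B1_cases γ with ⟨m, rfl⟩ | h
  · have e : (fun i => ((m i : ℕ) : ℚ) + if i = x then (n : ℚ) else 0) =
        fun i => (((m + Finsupp.single x n) i : ℕ) : ℚ) := by
      funext i
      rw [Finsupp.add_apply, Finsupp.single_apply, Nat.cast_add]
      by_cases hi : i = x
      · rw [if_pos hi, if_pos hi.symm]
      · rw [if_neg hi, if_neg (Ne.symm hi), Nat.cast_zero]
    rw [e, CT_nat, CT_nat, MvPowerSeries.X_pow_eq, add_comm m (Finsupp.single x n),
      MvPowerSeries.coeff_add_monomial_mul, one_mul]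
  · rw [CT_of_not γ h]
    rcases B1_cases (fun i => γ i + if i = x then (n : ℚ) else 0) with ⟨m, hm⟩ | h2
    · rw [hm, CT_nat, MvPowerSeries.X_pow_eq, MvPowerSeries.coeff_monomial_mul]
      rw [if_neg, AddMonoidAlgebra.coeff_zero, Finsupp.zero_apply]
      intro hle
      apply h
      refine ⟨m - Finsupp.single x n, fun i => ?_⟩
      have h3 := congrFun hm i
      have h4 := hle i
      rw [Finsupp.tsub_apply, Nat.cast_sub h4, ← h3, Finsupp.single_apply]
      by_cases hi : i = x
      · rw [if_pos hi, if_pos hi.symm]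
        ring
      · rw [if_neg hi, if_neg (Ne.symm hi)]
        simp
    · rw [CT_of_not _ h2]

end

end Pool.Agent.H46.KA

end

section

/-!
KAC ADE, module B1b: ring laws of `Tht`.

`TT I = AddMonoidAlgebra ℚ (I → ℚ)` (structure with field `coeff : (I → ℚ) →₀ ℚ`), `LL I = MvPowerSeries I (TT I)`.
`Tht a F` has the coefficient `single (dg a β) (coeff β F)` at `β`; `dg a` is additive (`cw_add`), so `Tht a` is a ring
homomorphism: in the antidiagonal sum `single d r * single d' r' = single (d + d') (r * r')`.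
`th l` is a derivation (coefficientwise `thA l`, and `(d + d') l = d l + d' l`); it commutes with `X i` (`th l (X i) = 0`).
`CT`: for non-integral `γ` everything is `0`; otherwise it is a linear functional of one coefficient.
For `CT_X_pow_mul`: `coeff (γ + n e_x) (X x ^ n * F) = coeff γ F`, and `coeff m (X x ^ n * F) = 0` if `m x < n`.
-/

set_option autoImplicit false

namespace Pool.Agent.H46.KA

open scoped BigOperators
open MvPowerSeries Pool.Agent.H27.KAC

section

variable {I : Type} [Fintype I] [DecidableEq I]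

theorem b1b_dg_add (a : I → I → ℕ) (β γ : I →₀ ℕ) : dg a (β + γ) = dg a β + dg a γ := by
  funext i
  simp only [dg, Pi.add_apply, cw_add]
  push_cast
  ring

theorem b1b_dg_zero (a : I → I → ℕ) : dg a (0 : I →₀ ℕ) = 0 := by
  funext i
  simp [dg, cw_zero]

theorem b1b_coeff_Tht (a : I → I → ℕ) (F : MvPowerSeries I ℚ) (β : I →₀ ℕ) :
    MvPowerSeries.coeff β (Tht a F) = AddMonoidAlgebra.single (dg a β) (MvPowerSeries.coeff β F) := rfl

theorem b1b_coeff_dD (a : I → I → ℕ) (l : I) (F : MvPowerSeries I ℚ) (β : I →₀ ℕ) :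
    MvPowerSeries.coeff β (dD a l F) = (-(cw a β l : ℤ) : ℚ) * MvPowerSeries.coeff β F := rfl

theorem Tht_zero (a : I → I → ℕ) : Tht a (0 : MvPowerSeries I ℚ) = 0 := by
  ext1 β
  rw [b1b_coeff_Tht, map_zero, map_zero]
  exact AddMonoidAlgebra.single_zero _

theorem Tht_C (a : I → I → ℕ) (r : ℚ) : Tht a (C r) = qC r := by
  ext1 β
  rw [b1b_coeff_Tht, qC, MvPowerSeries.coeff_C, MvPowerSeries.coeff_C]
  split_ifs with h
  · rw [h, b1b_dg_zero]
  · exact AddMonoidAlgebra.single_zero _

theorem Tht_one (a : I → I → ℕ) : Tht a (1 : MvPowerSeries I ℚ) = 1 := by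
  have h := Tht_C a (1 : ℚ)
  rw [qC_one, map_one] at h
  exact h

theorem Tht_add (a : I → I → ℕ) (F G : MvPowerSeries I ℚ) : Tht a (F + G) = Tht a F + Tht a G := by
  ext1 β
  rw [b1b_coeff_Tht, map_add, map_add, b1b_coeff_Tht, b1b_coeff_Tht]
  exact AddMonoidAlgebra.single_add _ _ _

omit [Fintype I] [DecidableEq I] in
theorem b1b_single_sum {ι : Type} (d : I → ℚ) (s : Finset ι) (f : ι → ℚ) :
    (AddMonoidAlgebra.single d (∑ i ∈ s, f i) : TT I) = ∑ i ∈ s, AddMonoidAlgebra.single d (f i) := by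
  classical
  induction s using Finset.induction_on with
  | empty => simp
  | insert x s hx ih => rw [Finset.sum_insert hx, Finset.sum_insert hx, AddMonoidAlgebra.single_add, ih]

theorem Tht_mul (a : I → I → ℕ) (F G : MvPowerSeries I ℚ) : Tht a (F * G) = Tht a F * Tht a G := by
  classical
  ext1 β
  rw [b1b_coeff_Tht, MvPowerSeries.coeff_mul, MvPowerSeries.coeff_mul, b1b_single_sum]
  refine Finset.sum_congr rfl fun p hp => ?_
  rw [b1b_coeff_Tht, b1b_coeff_Tht, AddMonoidAlgebra.single_mul_single, ← b1b_dg_add,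
    Finset.HasAntidiagonal.mem_antidiagonal.mp hp]

/-- `Tht a` as a ring homomorphism. -/
noncomputable def ThtH (a : I → I → ℕ) : MvPowerSeries I ℚ →+* LL I where
  toFun := Tht a
  map_one' := Tht_one a
  map_mul' := Tht_mul a
  map_zero' := Tht_zero a
  map_add' := Tht_add a

theorem ThtH_apply (a : I → I → ℕ) (F : MvPowerSeries I ℚ) : ThtH a F = Tht a F := rfl

theorem b1b_dg_single (a : I → I → ℕ) (i : I) :
    dg a (Finsupp.single i 1) = fun j => -((cart a j i : ℤ) : ℚ) := by
  funext j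
  have h : cw a (Finsupp.single i 1) j = cart a j i := by
    unfold cw
    rw [Finset.sum_eq_single i]
    · simp
    · intro b _ hb
      simp [hb.symm]
    · intro h
      exact absurd (Finset.mem_univ i) h
  simp only [dg, h]

theorem Tht_X (a : I → I → ℕ) (i : I) :
    Tht a (X i) = X i * tm (fun j => -((cart a j i : ℤ) : ℚ)) := by
  classical
  ext1 β
  rw [b1b_coeff_Tht, mul_comm, coeff_tm_mul, MvPowerSeries.coeff_X, MvPowerSeries.coeff_X]
  split_ifs with h
  · rw [h, b1b_dg_single, mul_one]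
  · rw [mul_zero]
    exact AddMonoidAlgebra.single_zero _

omit [DecidableEq I] in
theorem b1b_thA_single (l : I) (d : I → ℚ) (r : ℚ) :
    thA l (AddMonoidAlgebra.single d r : TT I) = AddMonoidAlgebra.single d (d l * r) := by
  classical
  apply AddMonoidAlgebra.ext
  ext e
  show e l * (AddMonoidAlgebra.single d r : TT I).coeff e
    = (AddMonoidAlgebra.single d (d l * r) : TT I).coeff e
  rw [AddMonoidAlgebra.coeff_single, AddMonoidAlgebra.coeff_single, Finsupp.single_apply,
    Finsupp.single_apply]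
  split_ifs with h
  · rw [h]
  · rw [mul_zero]

theorem th_Tht (a : I → I → ℕ) (l : I) (F : MvPowerSeries I ℚ) :
    th l (Tht a F) = Tht a (dD a l F) := by
  ext1 β
  have h : MvPowerSeries.coeff β (th l (Tht a F)) = thA l (MvPowerSeries.coeff β (Tht a F)) := rfl
  rw [h, b1b_coeff_Tht, b1b_coeff_Tht, b1b_thA_single, b1b_coeff_dD]
  rfl

/-- the connection with the coefficient of `Y^γ`. -/
theorem CT_Tht (a : I → I → ℕ) (γ : I →₀ ℕ) (F : MvPowerSeries I ℚ) :
    CT (fun i => (γ i : ℚ)) (tm (fun i => ((cw a γ i : ℤ) : ℚ)) * Tht a F) = MvPowerSeries.coeff γ F := by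
  classical
  rw [CT_nat, coeff_tm_mul, b1b_coeff_Tht, AddMonoidAlgebra.single_mul_single, one_mul]
  have h : (fun i => ((cw a γ i : ℤ) : ℚ)) + dg a γ = 0 := by
    funext i
    simp [dg]
  rw [h, AddMonoidAlgebra.coeff_single, Finsupp.single_eq_same]

/-- wrong `t`-degree gives zero. -/
theorem CT_Tht_ne (a : I → I → ℕ) (γ : I →₀ ℕ) (d : I → ℚ)
    (hd : ∃ i, d i ≠ ((cw a γ i : ℤ) : ℚ)) (F : MvPowerSeries I ℚ) :
    CT (fun i => (γ i : ℚ)) (tm d * Tht a F) = 0 := by
  classical
  rw [CT_nat, coeff_tm_mul, b1b_coeff_Tht, AddMonoidAlgebra.single_mul_single, one_mul]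
  have h : d + dg a γ ≠ 0 := by
    intro h0
    obtain ⟨i, hi⟩ := hd
    apply hi
    have := congrFun h0 i
    simp only [dg, Pi.add_apply, Pi.zero_apply] at this
    linarith
  rw [AddMonoidAlgebra.coeff_single, Finsupp.single_apply, if_neg h]

end

end Pool.Agent.H46.KA

end
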