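import Pool.Agent.H16.TKA.M02
import Pool.Agent.H16.TKA.M04

/-! The parts of this file: H27.KAC.KFDefs, H27.KAC.KQRawDefs, H27.KAC.KQEta, H27.KAC.KQState, H27.KAC.KNDefs, H27.KAC.KL5, H27.KAC.KG2, H27.KAC.PI_Base, H27.KAC.PI_Pi, H40.KADE.E2, H88.KA.AF5. -/

section

/-!
KAC: ample dimension vectors, connectedness.
-/

namespace Pool.Agent.H27.KAC

open scoped BigOperators
open MvPowerSeries

section

variable {I : Type} [Fintype I] [DecidableEq I]

/-- connectedness. -/
def Conn (a : I → I → ℕ) : Prop :=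
  ∀ S : Finset I, S.Nonempty → S ≠ Finset.univ → ∃ i ∈ S, ∃ j, j ∉ S ∧ 0 < a i j

/-- top state: `κ = K + 1`, `P = p = s`, `H = diag (1 - ε μ)`, `μ_i = 1` unless `s_i = 0`. -/
noncomputable def topS (a : I → I → ℕ) (α : I →₀ ℕ) (K : ℕ) (ε : ℚ) : Sta I where
  κ := fun _ => K + 1
  P := fun i => -cw a α i
  p := fun i => -cw a α i
  H := fun l i => if l = i then 1 - ε * (if cw a α i = 0 then 0 else 1) else 0

end

end Pool.Agent.H27.KAC

end

section

/-!
KAC: definitions used in the raw transition lemmas.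
-/

namespace Pool.Agent.H27.KAC

open scoped BigOperators
open MvPowerSeries

variable {I : Type} [Fintype I] [DecidableEq I]

/-- `∏_l U_{l,k}^{a x l}` as a unit. -/
noncomputable def cU (a : I → I → ℕ) (x : I) (k : ℕ) : (MvPowerSeries I ℚ)ˣ :=
  ∏ l, (uu a l k) ^ (a x l)

/-- `η_{x,k} = Y_x^k ∏_l U_{lk}^{a x l} / U_{xk}^2`. -/
noncomputable def etaS (a : I → I → ℕ) (x : I) (k : ℕ) : MvPowerSeries I ℚ :=
  (X x) ^ k * ((cU a x k * (uu a x k) ^ (-2 : ℤ) : (MvPowerSeries I ℚ)ˣ) : MvPowerSeries I ℚ)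

/-- weight `(P+m-1)! / (P! m!)` (for `P ≥ 1`). -/
def wt (P m : ℕ) : ℚ := ((P + m - 1).factorial : ℚ) / ((P.factorial : ℚ) * (m.factorial : ℚ))

end Pool.Agent.H27.KAC

end

section

/-!
KAC module KQEta: basic identities for `η`.

* `uS_eta`: `U_{j,k} = U_{j,k-1}^2 (1 - η_{j,k-1}) / U_{j,k-2}` (k ≥ 2), from `uS_rec`.
* `constantCoeff (η_{j,k}) = 0` for k ≥ 1; `η^m` is divisible by `Y_j^(k m)`.
* `dD_eta`: `D_l η_{j,k} = - λ_{j,k}(l) * η_{j,k}`.
* `xv_eta`: `(1 - η) (x_{j,k} - 2 x_{j,k-1} + x_{j,k-2}) = η λ` i.e.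
  `x_{j,k} = 2 x_{j,k-1} - x_{j,k-2} + η λ / (1 - η)`, η = η_{j,k-1}, λ = λ_{j,k-1}.
* `raw_congr_high` : in `raw γ` one may drop summands divisible by `Y_x^n` with n > γ x.
-/

namespace Pool.Agent.H27.KAC

open scoped BigOperators
open MvPowerSeries

variable {I : Type} [Fintype I] [DecidableEq I]

omit [Fintype I] in
theorem KQEta_colMat_update (c : I → I → MvPowerSeries I ℚ) (j : I) (v : I → MvPowerSeries I ℚ) :
    colMat (Function.update c j v) = (colMat c).updateCol j v := by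
  ext l i
  unfold colMat
  rw [Matrix.of_apply, Matrix.updateCol_apply]
  by_cases h : i = j
  · rw [if_pos h, h, Function.update_self]
  · rw [if_neg h, Function.update_of_ne h, Matrix.of_apply]

theorem KQEta_cU_coe (a : I → I → ℕ) (x : I) (k : ℕ) :
    ((cU a x k : (MvPowerSeries I ℚ)ˣ) : MvPowerSeries I ℚ) = ∏ l, uS a l k ^ (a x l) := by
  unfold cU
  rw [Units.coe_prod]
  refine Finset.prod_congr rfl fun l _ => ?_
  rw [Units.val_pow_eq_pow_val, uu_coe]

theorem eta_const (a : I → I → ℕ) (j : I) (k : ℕ) (hk : 1 ≤ k) :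
    constantCoeff (etaS a j k) = 0 := by
  unfold etaS
  rw [map_mul, map_pow, constantCoeff_X, zero_pow (by omega), zero_mul]

/-- `1 - η` is a unit. -/
theorem one_sub_eta_isUnit (a : I → I → ℕ) (j : I) (k : ℕ) (hk : 1 ≤ k) :
    IsUnit (1 - etaS a j k) := by
  rw [MvPowerSeries.isUnit_iff_constantCoeff, map_sub, eta_const a j k hk, map_one, sub_zero]
  exact isUnit_one

theorem uS_eta (a : I → I → ℕ) (j : I) (k : ℕ) :
    uS a j (k + 2) * uS a j k = uS a j (k + 1) ^ 2 * (1 - etaS a j (k + 1)) := by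
  rw [uS_rec]
  unfold etaS
  rw [Units.val_mul, KQEta_cU_coe]
  have h1 : uS a j (k + 1) ^ 2 *
      (((uu a j (k + 1)) ^ (-2 : ℤ) : (MvPowerSeries I ℚ)ˣ) : MvPowerSeries I ℚ) = 1 := by
    rw [← uu_coe, ← Units.val_pow_eq_pow_val, ← Units.val_mul, ← zpow_natCast, ← zpow_add]
    norm_num
  linear_combination (X j) ^ (k + 1) * (∏ l, uS a l (k + 1) ^ (a j l)) * h1

end Pool.Agent.H27.KAC

end

section

/-!
KAC: definitions for the transitions of frontier states.
-/

namespace Pool.Agent.H27.KAC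

open scoped BigOperators
open MvPowerSeries

/-- types of vertices: regular, wall in mode `A`, wall in mode `D`. -/
inductive Ty
  | R
  | A
  | D
deriving DecidableEq

section

variable {I : Type} [Fintype I] [DecidableEq I]

noncomputable def facG (a : I → I → ℕ) (κ : I → ℕ) (P p : I → ℤ) : MvPowerSeries I ℚ :=
  ((∏ i, ((uu a i (κ i)) ^ (-(P i)) * (uu a i (κ i - 1)) ^ (p i)) :
    (MvPowerSeries I ℚ)ˣ) : MvPowerSeries I ℚ)

/-- walls at the level of `j`. -/
def wallsAt (σ : Sta I) (ty : I → Ty) (j : I) : Finset I :=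
  Finset.univ.filter (fun x => ty x ≠ Ty.R ∧ σ.κ x = σ.κ j)

/-- effective number of arrows `l - j` in the presence of walls. -/
def effA (a : I → I → ℕ) (W : Finset I) (l j : I) : ℚ :=
  (a l j : ℚ) + (∑ x ∈ W, (a x l : ℚ) * (a x j : ℚ)) / 2

/-- effective diagonal entry `2 - a j j - (1/2) ∑ a x j ^ 2`. -/
def effC (a : I → I → ℕ) (W : Finset I) (j : I) : ℚ :=
  2 - (a j j : ℚ) - (∑ x ∈ W, (a x j : ℚ) ^ 2) / 2

/-- scale used for column `j`: `1` if `m = 0`, else `P_j`. -/
def scl (σ : Sta I) (j : I) (m : ℕ) : ℚ := if m = 0 then 1 else (σ.P j : ℚ)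

/-- processed regular vertices. -/
def procd (σ : Sta I) (ty : I → Ty) (j : I) : Finset I :=
  Finset.univ.filter (fun l => l ≠ j ∧ ty l = Ty.R ∧ σ.κ l + 1 = σ.κ j)

def hJ (a : I → I → ℕ) (σ : Sta I) (ty : I → Ty) (j : I) (m : ℕ) (l : I) : ℚ :=
  scl σ j m * σ.H l j +
    (if ty l = Ty.R ∧ σ.κ l = σ.κ j then m * effA a (wallsAt σ ty j) l j else 0) +
    m * ∑ l' ∈ procd σ ty j, effA a (wallsAt σ ty j) l' j * σ.H l l'

end

end Pool.Agent.H27.KAC

end

section

/-!
KAC part III-c: definitions for the fermionic sums.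
-/

namespace Pool.Agent.H27.KAC

open scoped BigOperators
open MvPowerSeries

section

variable {I : Type} [Fintype I] [DecidableEq I]

/-- coefficient of `Y^γ` in `∏ U_{iκ}^(-P_i) U_{i,κ-1}^(p_i)`. -/
noncomputable def EV (a : I → I → ℕ) (γ : I →₀ ℕ) (κ : ℕ) (P p : I → ℤ) : ℚ :=
  coeff γ (facG a (fun _ => κ) P p)

/-- a function on `I` as a `Finsupp`. -/
noncomputable def toF (m : I → ℕ) : I →₀ ℕ := Finsupp.equivFunOnFinite.symm m

/-- multipartitions of `α` with parts at most `K`: `m k i` is the number of parts of size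
`k + 1` at the vertex `i`. -/
def Mset (K : ℕ) (α : I → ℕ) : Finset (Fin K → I → ℕ) :=
  (Fintype.piFinset (fun _ : Fin K => Fintype.piFinset (fun i : I => Finset.range (α i + 1)))).filter
    (fun m => ∀ i, ∑ k : Fin K, ((k : ℕ) + 1) * m k i = α i)

/-- `P_{ik}(m) = ∑_{j,l} min(k,l) (-C_{ij}) m_{jl}`. -/
def PLF (a : I → I → ℕ) {K : ℕ} (m : Fin K → I → ℕ) (k : ℕ) (i : I) : ℤ :=
  ∑ j, ∑ l : Fin K, (min k ((l : ℕ) + 1) : ℤ) * (-cart a i j) * (m l j : ℤ)

/-- the vacancy numbers computed downwards from the values `P` at level `K` and `p` at level `K+1`. -/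
def Pseq (a : I → I → ℕ) {K : ℕ} (P p : I → ℤ) (m : Fin K → I → ℕ) (l : ℕ) (i : I) : ℤ :=
  P i + ((K : ℤ) - l) * (P i - p i) +
    ∑ j, cart a i j * ∑ l' : Fin K, (((l' : ℕ) + 1 - l : ℕ) : ℤ) * (m l' j : ℤ)

/-- the sum `M^{(ν)}_α`. -/
def Msum (a : I → I → ℕ) (K : ℕ) (ν : ℕ) (α : I → ℕ) : ℚ :=
  ∑ m ∈ (Mset K α).filter (fun m => ∀ (k : Fin K) (i : I),
      0 ≤ PLF a m ((k : ℕ) + 1) i + ((k : ℤ) + 1) * ν),
    ∏ k : Fin K, ∏ i : I,
      (((PLF a m ((k : ℕ) + 1) i + ((k : ℤ) + 1) * ν).toNat + m k i).choose (m k i) : ℚ)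

end

end Pool.Agent.H27.KAC

end

section

/-!
KAC module KL5: the path of states below level `K0`, from a multipartition.

`m : Fin K0 → I → ℕ`, `m k i` = number of parts of size `k+1`.  `PLF a m k i` are the vacancy numbers:
`PLF 0 = 0`, `PLF (k) = 2 PLF (k+1) - PLF (k+2) + C m_{k+1}` (parts of size `k+1`; second difference of
`min(k,l)` in `k` is `-δ_{kl}`; `mAt m l i` is the number of parts of size `l`), `PLF k = s` for `k ≥ K0`.
`gam m k` = the index `∑_{l ≤ k} l m_l`.
* `lb_low`: for `1 ≤ k < K0`, fresh states at level `k + 1` with all vertices regular, `P = PLF k ≥ 1`,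
  `p = PLF (k+1)`, index `gam m k`: induction on `k`; `k = 1`: `lb_last`; `k + 1`: `lb_phase1` with `m := mAt m (k+1)`,
  `ω = wt`, all walls absent; a phase 2 state without walls is fresh one level below (`Fr_of_Ph2`).
-/

namespace Pool.Agent.H27.KAC

open scoped BigOperators
open MvPowerSeries

variable {I : Type} [Fintype I] [DecidableEq I]

/-- number of parts of size `l` at `i`. -/
def mAt {K0 : ℕ} (m : Fin K0 → I → ℕ) (l : ℕ) (i : I) : ℕ :=
  if h : 1 ≤ l ∧ l ≤ K0 then m ⟨l - 1, by omega⟩ i else 0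

/-- the weight of all the parts of size at most `k`. -/
noncomputable def gam {K0 : ℕ} (m : Fin K0 → I → ℕ) (k : ℕ) : I →₀ ℕ :=
  toF (fun i => ∑ l ∈ Finset.Icc 1 k, l * mAt m l i)

theorem PLF_zero (a : I → I → ℕ) {K0 : ℕ} (m : Fin K0 → I → ℕ) (i : I) : PLF a m 0 i = 0 := by
  unfold PLF
  refine Finset.sum_eq_zero fun j _ => Finset.sum_eq_zero fun l _ => ?_
  have h : min ((0 : ℕ) : ℤ) (((l : ℕ) : ℤ) + 1) = 0 := by
    rw [min_eq_left]
    · simp
    · push_cast; omega
  rw [h]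
  ring

theorem PLF_rec (a : I → I → ℕ) {K0 : ℕ} (m : Fin K0 → I → ℕ) (k : ℕ) (i : I) :
    PLF a m k i = 2 * PLF a m (k + 1) i - PLF a m (k + 2) i +
      ∑ j, cart a i j * (mAt m (k + 1) j : ℤ) := by
  unfold PLF
  rw [Finset.mul_sum, ← Finset.sum_sub_distrib, ← Finset.sum_add_distrib]
  refine Finset.sum_congr rfl fun j _ => ?_
  rw [Finset.mul_sum, ← Finset.sum_sub_distrib]
  have h : (mAt m (k + 1) j : ℤ) =
      ∑ l : Fin K0, if (l : ℕ) = k then (m l j : ℤ) else 0 := by
    unfold mAt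
    by_cases hk : 1 ≤ k + 1 ∧ k + 1 ≤ K0
    · rw [dif_pos hk, Finset.sum_eq_single (⟨k, by omega⟩ : Fin K0)]
      · simp
      · intro b _ hb
        rw [if_neg]
        intro hbk
        exact hb (Fin.ext hbk)
      · intro hb
        exact absurd (Finset.mem_univ _) hb
    · rw [dif_neg hk]
      symm
      refine Finset.sum_eq_zero fun l _ => ?_
      rw [if_neg]
      intro hl
      apply hk
      have := l.2
      omega
  rw [h, Finset.mul_sum, ← Finset.sum_add_distrib]
  refine Finset.sum_congr rfl fun l _ => ?_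
  have e : min ((k : ℕ) : ℤ) (((l : ℕ) : ℤ) + 1) =
      2 * min (((k + 1 : ℕ)) : ℤ) (((l : ℕ) : ℤ) + 1) - min (((k + 2 : ℕ)) : ℤ) (((l : ℕ) : ℤ) + 1)
        - (if (l : ℕ) = k then 1 else 0) := by
    split_ifs with hl
    · push_cast; omega
    · push_cast; omega
  rw [e]
  split_ifs <;> ring

theorem PLF_top (a : I → I → ℕ) {K0 : ℕ} (α : I →₀ ℕ) (m : Fin K0 → I → ℕ)
    (hm : m ∈ Mset K0 α) (k : ℕ) (hk : K0 ≤ k) (i : I) : PLF a m k i = -cw a α i := by
  have hm' : ∀ j, ∑ l : Fin K0, ((l : ℕ) + 1) * m l j = α j := by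
    unfold Mset at hm
    rw [Finset.mem_filter] at hm
    exact hm.2
  unfold PLF cw
  rw [← Finset.sum_neg_distrib]
  refine Finset.sum_congr rfl fun j _ => ?_
  rw [← hm' j]
  push_cast
  rw [Finset.mul_sum, ← Finset.sum_neg_distrib]
  refine Finset.sum_congr rfl fun l _ => ?_
  have h1 : min ((k : ℕ) : ℤ) (((l : ℕ) : ℤ) + 1) = ((l : ℕ) : ℤ) + 1 := by
    have := l.2
    apply min_eq_right
    omega
  rw [h1]
  ring

theorem KL5_sum {K0 : ℕ} (m : Fin K0 → I → ℕ) (k : ℕ) (hk : K0 ≤ k) (i : I) :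
    ∑ l ∈ Finset.Icc 1 k, l * mAt m l i = ∑ l : Fin K0, ((l : ℕ) + 1) * m l i := by
  have h1 : ∑ l ∈ Finset.Icc 1 k, l * mAt m l i = ∑ l ∈ Finset.Icc 1 K0, l * mAt m l i := by
    symm
    apply Finset.sum_subset (Finset.Icc_subset_Icc_right hk)
    intro l _ hl
    rw [Finset.mem_Icc] at hl
    unfold mAt
    rw [dif_neg hl, mul_zero]
  have h2 : ∑ l ∈ Finset.Icc 1 K0, l * mAt m l i =
      ∑ l ∈ Finset.range K0, (l + 1) * mAt m (l + 1) i := by
    symm
    apply Finset.sum_bij (fun l _ => l + 1)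
    · intro l hl
      rw [Finset.mem_range] at hl
      rw [Finset.mem_Icc]
      omega
    · intro l1 _ l2 _ h
      omega
    · intro l hl
      rw [Finset.mem_Icc] at hl
      exact ⟨l - 1, by rw [Finset.mem_range]; omega, by omega⟩
    · intro l _
      rfl
  rw [h1, h2, Finset.sum_range]
  refine Finset.sum_congr rfl fun l _ => ?_
  unfold mAt
  rw [dif_pos ⟨by omega, by have := l.2; omega⟩]
  rfl

theorem KL5_gam {K0 : ℕ} (m : Fin K0 → I → ℕ) (k : ℕ) (i : I) :
    gam m k i = ∑ l ∈ Finset.Icc 1 k, l * mAt m l i := rfl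

theorem gam_top {K0 : ℕ} (α : I →₀ ℕ) (m : Fin K0 → I → ℕ) (hm : m ∈ Mset K0 α) (k : ℕ)
    (hk : K0 ≤ k) : gam m k = α := by
  ext i
  rw [KL5_gam, KL5_sum m k hk i]
  unfold Mset at hm
  rw [Finset.mem_filter] at hm
  exact hm.2 i

theorem KL5_gam_succ {K0 : ℕ} (m : Fin K0 → I → ℕ) (k : ℕ) (i : I) :
    gam m (k + 1) i = gam m k i + (k + 1) * mAt m (k + 1) i := by
  rw [KL5_gam, KL5_gam, Finset.sum_Icc_succ_top (by omega)]

end Pool.Agent.H27.KAC

end

section

/-!
KAC module KG2: the modified multipartition (one window).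

Data: `m ∈ Mset K (n α)` with `P_k + 2k ≥ 0`, `L < κ`, `2 L ≤ κ`, `κ ∣ M` (so `M = κ e`), numbers `Θ ≥ 2`, `u ≥ 1`;
`B` = loop-free vertices with `s_i = 0`, `c_i = (M/κ) u α_i` for `i ∈ B` and `0` otherwise, `t = Θ M u`, `n' = n + t`;
`w_i = ∑_{l > L} l m_{li}`, `N_i = w_i / κ` (division), `r_i = w_i % κ`.
`m'`: size 1: `m_{1i} + t α_i - κ c_i + r_i`; sizes `2..L`: `m_{li}`; sizes `L+1..κ-1`: 0; size `κ`: `N_i + c_i`
(for `L ≥ 1`; if `κ = 1`... excluded by `2 ≤ κ`).
With `PLF_eq`: for `k ≤ L`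
`P'_{ki} - P_{ki} = t s_i + ∑_j C_{ij} ((κ-k) c_j + D_j)`, `D_j = - r_j - k N_j + k b_j`, `b_j = ∑_{l > L} m_{lj}`;
`|D_j| ≤ κ + L N_j + L b_j` and `L b_j ≤ W_j + L (n α_j)/κ` where `W_j = ∑_{L < l ≤ κ} l m_{lj}`, `L N_j ≤ L n α_j / κ`.
Hypothesis `hE`: the error is small: for all `j`: `A1 (κ + L N_j + L b_j) + 4 L + 1 ≤ M u` in the form below, where
`A1 ≥ ∑_j |C_{ij}|` for all `i`; `hΘ`: `∑_j a_{ij} α_j + 1 ≤ Θ`.
For `i ∈ B` (`s_i = 0`; members of `B` are pairwise nonadjacent): `∑_j C_{ij} (κ-k) c_j = 2 (κ-k) c_i ≥ κ c_i ≥ M u`;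
for `i ∉ B`: `t s_i ≥ t = Θ M u` and `∑_j C_{ij}(κ-k)c_j ≥ - ∑_{j} a_{ij} M u α_j`, so the sum is `≥ M u` too.
Hence `P'_{ki} ≥ P_{ki} + 4 L + 1 ≥ P_{ki} + 2k`, and `≥ 1`, for `1 ≤ k ≤ L`.  For `L < k < κ`:
`(κ - L) P'_{ki} = (κ-k) P'_{Li} + (k-L) P'_{κi}`, `P'_{κi} = n' s_i ≥ 0`, so `P'_{ki} ≥ 1`.
The weight: `EW a m' ≥` the product over `l ≤ L` (the other factors are `≥ 1`), and `choose` is monotone:
`C(P+m, m) ≤ C(P'+m', m')` for `P ≤ P'`, `m ≤ m'`.
-/

namespace Pool.Agent.H27.KAC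

open scoped BigOperators
open MvPowerSeries

variable {I : Type} [Fintype I] [DecidableEq I]

theorem KG2_cw_nsmul (a : I → I → ℕ) (α : I →₀ ℕ) (n : ℕ) (i : I) :
    cw a (n • α) i = (n : ℤ) * cw a α i := by
  unfold cw
  rw [Finset.mul_sum]
  apply Finset.sum_congr rfl
  intro j _
  rw [Finsupp.smul_apply, smul_eq_mul]
  push_cast
  ring

theorem KG2_sum_fin {R : Type*} [AddCommMonoid R] (K : ℕ) (f : ℕ → R) :
    ∑ k : Fin K, f ((k : ℕ) + 1) = ∑ l ∈ Finset.Icc 1 K, f l := by
  induction K with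
  | zero => simp
  | succ K ih =>
    rw [Fin.sum_univ_castSucc, Finset.sum_Icc_succ_top (by omega)]
    simp only [Fin.val_castSucc, Fin.val_last]
    rw [ih]

theorem KG2_mAt_fin {K : ℕ} (m : Fin K → I → ℕ) (k : Fin K) (i : I) :
    mAt m ((k : ℕ) + 1) i = m k i := by
  unfold mAt
  rw [dif_pos ⟨by omega, k.2⟩]
  rfl

theorem KG2_mAt_gt {K : ℕ} (m : Fin K → I → ℕ) (l : ℕ) (hl : K < l) (i : I) :
    mAt m l i = 0 := by
  unfold mAt
  rw [dif_neg (by omega)]

theorem KG2_split {R : Type*} [AddCommMonoid R] (K L : ℕ) (f : ℕ → R)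
    (hf : ∀ l, K < l → f l = 0) :
    ∑ l ∈ Finset.Icc 1 K, f l =
      ∑ l ∈ Finset.Icc 1 L, f l + ∑ l ∈ Finset.Icc (L + 1) K, f l := by
  rcases le_or_gt L K with h | h
  · rw [← Finset.sum_union]
    · congr 1
      ext l
      simp only [Finset.mem_union, Finset.mem_Icc]
      omega
    · rw [Finset.disjoint_left]
      intro l
      simp only [Finset.mem_Icc]
      omega
  · rw [Finset.Icc_eq_empty (by omega : ¬ L + 1 ≤ K), Finset.sum_empty, add_zero]
    apply Finset.sum_subset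
    · intro l
      simp only [Finset.mem_Icc]
      omega
    · intro l h1 h2
      simp only [Finset.mem_Icc] at h1 h2
      exact hf l (by omega)

/-- sums over all parts, in terms of `mAt`, split at `L`. -/
theorem KG2_sumc {K : ℕ} (m : Fin K → I → ℕ) (L : ℕ) (c : ℕ → ℤ) (i : I) :
    ∑ k : Fin K, c ((k : ℕ) + 1) * (m k i : ℤ) =
      ∑ l ∈ Finset.Icc 1 L, c l * (mAt m l i : ℤ) +
        ∑ l ∈ Finset.Icc (L + 1) K, c l * (mAt m l i : ℤ) := by
  rw [← KG2_split K L (fun l => c l * (mAt m l i : ℤ)), ← KG2_sum_fin]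
  · apply Finset.sum_congr rfl
    intro k _
    rw [KG2_mAt_fin]
  · intro l hl
    simp only [KG2_mAt_gt m l hl, Nat.cast_zero, mul_zero]

/-- the modified multipartition. -/
def KG2_mm {K : ℕ} (m : Fin K → I → ℕ) (L κ : ℕ) (x y : I → ℕ) : Fin κ → I → ℕ :=
  fun l i => if (l : ℕ) + 1 ≤ L then mAt m ((l : ℕ) + 1) i + (if (l : ℕ) + 1 = 1 then x i else 0)
    else if (l : ℕ) + 1 = κ then y i else 0

theorem KG2_mm_at {K : ℕ} (m : Fin K → I → ℕ) (L κ : ℕ) (x y : I → ℕ) (l : ℕ) (h1 : 1 ≤ l)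
    (h2 : l ≤ κ) (i : I) :
    mAt (KG2_mm m L κ x y) l i = if l ≤ L then mAt m l i + (if l = 1 then x i else 0)
      else if l = κ then y i else 0 := by
  obtain ⟨l, rfl⟩ : ∃ l', l = l' + 1 := ⟨l - 1, by omega⟩
  exact KG2_mAt_fin (KG2_mm m L κ x y) ⟨l, h2⟩ i

/-- sums over the parts of the modified multipartition. -/
theorem KG2_mm_sum {K : ℕ} (m : Fin K → I → ℕ) (L κ : ℕ) (hL : 1 ≤ L) (hκ : L < κ)
    (x y : I → ℕ) (c : ℕ → ℤ) (i : I) :
    ∑ k : Fin κ, c ((k : ℕ) + 1) * (KG2_mm m L κ x y k i : ℤ) =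
      ∑ l ∈ Finset.Icc 1 L, c l * (mAt m l i : ℤ) + c 1 * (x i : ℤ) + c κ * (y i : ℤ) := by
  rw [KG2_sumc (KG2_mm m L κ x y) L c i]
  congr 1
  · have h1 : ∑ l ∈ Finset.Icc 1 L, c l * (mAt (KG2_mm m L κ x y) l i : ℤ) =
        ∑ l ∈ Finset.Icc 1 L, (c l * (mAt m l i : ℤ) + if l = 1 then c l * (x i : ℤ) else 0) := by
      apply Finset.sum_congr rfl
      intro l hl
      rw [Finset.mem_Icc] at hl
      rw [KG2_mm_at m L κ x y l hl.1 (by omega) i, if_pos hl.2]
      split_ifs
      · push_cast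
        ring
      · push_cast
        ring
    rw [h1, Finset.sum_add_distrib, Finset.sum_ite_eq' (Finset.Icc 1 L) 1,
      if_pos (Finset.mem_Icc.mpr ⟨le_rfl, hL⟩)]
  · rw [Finset.sum_eq_single κ]
    · rw [KG2_mm_at m L κ x y κ (by omega) le_rfl i, if_neg (by omega), if_pos rfl]
    · intro l hl hne
      rw [Finset.mem_Icc] at hl
      rw [KG2_mm_at m L κ x y l (by omega) (by omega) i, if_neg (by omega), if_neg hne]
      simp
    · intro h
      exact absurd (Finset.mem_Icc.mpr ⟨by omega, le_rfl⟩) h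

theorem KG2_mem_Mset {K : ℕ} (m : Fin K → I → ℕ) (β : I → ℕ)
    (h : ∀ i, ∑ k : Fin K, ((k : ℕ) + 1) * m k i = β i) : m ∈ Mset K β := by
  unfold Mset
  rw [Finset.mem_filter]
  refine ⟨?_, h⟩
  rw [Fintype.mem_piFinset]
  intro k
  rw [Fintype.mem_piFinset]
  intro i
  rw [Finset.mem_range, Nat.lt_succ_iff, ← h i]
  calc m k i ≤ ((k : ℕ) + 1) * m k i := Nat.le_mul_of_pos_left _ (by omega)
    _ ≤ _ := Finset.single_le_sum (f := fun k : Fin K => ((k : ℕ) + 1) * m k i)
        (fun _ _ => Nat.zero_le _) (Finset.mem_univ k)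

theorem KG2_mem_sum {K : ℕ} (m : Fin K → I → ℕ) (β : I → ℕ) (h : m ∈ Mset K β) (i : I) :
    ∑ k : Fin K, ((k : ℕ) + 1) * m k i = β i := by
  unfold Mset at h
  rw [Finset.mem_filter] at h
  exact h.2 i

/-- error estimate. -/
theorem KG2_err (a : I → I → ℕ) (A1 : ℕ) (i : I) (hA1 : ∑ j, |cart a i j| ≤ (A1 : ℤ))
    (D : I → ℤ) (F : I → ℕ) (hD : ∀ j, |D j| ≤ (F j : ℤ)) (X Y : ℕ)
    (hE : ∀ j, A1 * F j + Y ≤ X) : |∑ j, cart a i j * D j| ≤ (X : ℤ) - Y := by
  obtain ⟨j0, _, hj0⟩ := Finset.exists_max_image Finset.univ F ⟨i, Finset.mem_univ i⟩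
  calc |∑ j, cart a i j * D j| ≤ ∑ j, |cart a i j * D j| := Finset.abs_sum_le_sum_abs _ _
    _ ≤ ∑ j, |cart a i j| * (F j0 : ℤ) := by
        apply Finset.sum_le_sum
        intro j _
        rw [abs_mul]
        apply mul_le_mul_of_nonneg_left _ (abs_nonneg _)
        exact (hD j).trans (by exact_mod_cast hj0 j (Finset.mem_univ j))
    _ = (∑ j, |cart a i j|) * (F j0 : ℤ) := by rw [Finset.sum_mul]
    _ ≤ (A1 : ℤ) * (F j0 : ℤ) := mul_le_mul_of_nonneg_right hA1 (by positivity)
    _ ≤ (X : ℤ) - Y := by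
        have := hE j0
        have : ((A1 * F j0 + Y : ℕ) : ℤ) ≤ (X : ℤ) := by exact_mod_cast this
        push_cast at this
        linarith

theorem KG2_choose (P P' m m' : ℕ) (h1 : P ≤ P') (h2 : m ≤ m') :
    (P + m).choose m ≤ (P' + m').choose m' := by
  calc (P + m).choose m ≤ (P' + m).choose m := Nat.choose_le_choose m (by omega)
    _ = (P' + m).choose P' := (Nat.choose_symm_add (a := P') (b := m)).symm
    _ ≤ (P' + m').choose P' := Nat.choose_le_choose P' (by omega)
    _ = (P' + m').choose m' := Nat.choose_symm_add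

end Pool.Agent.H27.KAC

end

section

/-!
Project KAC, parts I and II: common definitions.

`Pc Q F α` is the number of pairs `(x, T)`, `x` a representation of dimension `α` over `F`, `T` a nilpotent
endomorphism of `x`, divided by the order of the group `∏ GL(α i)`.  `kacA Q α q` is the number of classes of
absolutely indecomposable representations over a field with `q` elements.  `Lc Q q α` is the coefficient of
`X^α` in `∑_β ∑_N A_β(q^N) X^(N β) / (N (q^N - 1))`.
-/

set_option autoImplicit false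

namespace Pool.Agent.H27.KAC

open scoped BigOperators
open Polynomial

section

variable {I E : Type}

/-- The pairs `(x, T)`, `T` a nilpotent endomorphism of the representation `x`. -/
def NilPairs (Q : Quiv I E) (F : Type) [Field F] (α : I → ℕ) : Type :=
  {p : Rp Q F α × ((i : I) → Matrix (Fin (α i)) (Fin (α i)) F) //
    IsMor p.1 p.1 p.2 ∧ ∀ i, IsNilpotent (p.2 i)}

/-- The number of pairs `(x, T)` divided by the order of the group. -/
noncomputable def Pc [Fintype I] (Q : Quiv I E) (F : Type) [Field F] (α : I → ℕ) : ℚ :=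
  (Nat.card (NilPairs Q F α) : ℚ) / ∏ i, (Nat.card (Matrix (Fin (α i)) (Fin (α i)) F)ˣ : ℚ)

/-- `kacCount` over a field with `q` elements (zero if there is no such field). -/
noncomputable def kacA (Q : Quiv I E) (α : I → ℕ) (q : ℕ) : ℕ := by
  classical
  exact if h : ∃ (F : Type) (_ : Field F) (_ : Fintype F), Fintype.card F = q then
    @kacCount I E Q h.choose h.choose_spec.choose α else 0

/-- The coefficient of `X^α` in `log P`. -/
noncomputable def Lc [Fintype I] (Q : Quiv I E) (q : ℕ) (α : I → ℕ) : ℚ :=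
  ∑ N ∈ (Finset.range (∑ i, α i + 1)).filter (fun N => 1 ≤ N ∧ ∀ i, N ∣ α i),
    (kacA Q (fun i => α i / N) (q ^ N) : ℚ) / ((N : ℚ) * ((q : ℚ) ^ N - 1))

/-- Image of a representation under a homomorphism of fields. -/
def mapRp {Q : Quiv I E} {F L : Type} [Field F] [Field L] {α : I → ℕ} (f : F →+* L)
    (x : Rp Q F α) : Rp Q L α := fun e => (x e).map f

theorem mapRp_comp {Q : Quiv I E} {F L M : Type} [Field F] [Field L] [Field M] {α : I → ℕ}
    (f : F →+* L) (g : L →+* M) (x : Rp Q F α) : mapRp g (mapRp f x) = mapRp (g.comp f) x := by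
  funext e
  unfold mapRp
  ext a b
  rfl

theorem mapRp_id {Q : Quiv I E} {F : Type} [Field F] {α : I → ℕ} (x : Rp Q F α) :
    mapRp (RingHom.id F) x = x := by
  funext e
  unfold mapRp
  ext a b
  rfl

theorem extScalars_eq {Q : Quiv I E} {F : Type} [Field F] (L : Type) [Field L] [Algebra F L]
    {α : I → ℕ} (x : Rp Q F α) : extScalars L x = mapRp (algebraMap F L) x := rfl

theorem IsMor.map {Q : Quiv I E} {F L : Type} [Field F] [Field L] {α β : I → ℕ} (s : F →+* L)
    {x : Rp Q F α} {y : Rp Q F β} {f : (i : I) → Matrix (Fin (β i)) (Fin (α i)) F}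
    (h : IsMor x y f) : IsMor (mapRp s x) (mapRp s y) (fun i => (f i).map s) := by
  intro e
  have h1 := congrArg (fun M => M.map s) (h e)
  simp only [Matrix.map_mul] at h1
  exact h1

theorem Isom.map {Q : Quiv I E} {F L : Type} [Field F] [Field L] {α : I → ℕ} (s : F →+* L)
    {x y : Rp Q F α} (h : Isom x y) : Isom (mapRp s x) (mapRp s y) := by
  obtain ⟨g, hg⟩ := h
  refine ⟨fun i => Units.map (s.mapMatrix (m := Fin (α i))).toMonoidHom (g i), ?_⟩
  exact hg.map s

theorem Indec.map_equiv {Q : Quiv I E} {F L : Type} [Field F] [Field L] {α : I → ℕ} (s : F ≃+* L)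
    {x : Rp Q F α} (h : Indec x) : Indec (mapRp (s : F →+* L) x) := by
  refine ⟨h.1, fun p hp hpp => ?_⟩
  have h1 := hp.map (s.symm : L →+* F)
  rw [mapRp_comp, RingEquiv.symm_comp, mapRp_id] at h1
  have h2 : ∀ i, (p i).map (s.symm : L →+* F) * (p i).map (s.symm : L →+* F) =
      (p i).map (s.symm : L →+* F) := by
    intro i
    rw [← Matrix.map_mul, hpp i]
  rcases h.2 _ h1 h2 with h3 | h3
  · left
    intro i
    have h4 := congrArg (fun M => M.map (s : F →+* L)) (h3 i)
    ext a b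
    have h5 := congrFun (congrFun h4 a) b
    simpa using h5
  · right
    intro i
    have h4 := congrArg (fun M => M.map (s : F →+* L)) (h3 i)
    ext a b
    have h5 := congrFun (congrFun h4 a) b
    simpa [Matrix.one_apply, apply_ite] using h5

theorem indec_map_equiv_iff {Q : Quiv I E} {F L : Type} [Field F] [Field L] {α : I → ℕ}
    (s : F ≃+* L) {x : Rp Q F α} : Indec (mapRp (s : F →+* L) x) ↔ Indec x := by
  refine ⟨fun h => ?_, fun h => h.map_equiv s⟩
  have h1 := h.map_equiv s.symm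
  rwa [mapRp_comp, RingEquiv.symm_comp, mapRp_id] at h1

theorem isom_map_equiv_iff {Q : Quiv I E} {F L : Type} [Field F] [Field L] {α : I → ℕ}
    (s : F ≃+* L) {x y : Rp Q F α} :
    Isom (mapRp (s : F →+* L) x) (mapRp (s : F →+* L) y) ↔ Isom x y := by
  refine ⟨fun h => ?_, fun h => h.map _⟩
  have h1 := h.map (s.symm : L →+* F)
  rwa [mapRp_comp, mapRp_comp, RingEquiv.symm_comp, mapRp_id, mapRp_id] at h1

theorem absIndec_map_equiv_iff {Q : Quiv I E} {F L : Type} [Field F] [Field L] {α : I → ℕ}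
    (s : F ≃+* L) {x : Rp Q F α} : AbsIndec (mapRp (s : F →+* L) x) ↔ AbsIndec x := by
  unfold AbsIndec
  rw [extScalars_eq, extScalars_eq, mapRp_comp]
  let t : AlgebraicClosure L ≃+* AlgebraicClosure F :=
    IsAlgClosure.equivOfEquiv (AlgebraicClosure L) (AlgebraicClosure F) s.symm
  have ht : ((t : AlgebraicClosure L →+* AlgebraicClosure F).comp
      (algebraMap L (AlgebraicClosure L))).comp (s : F →+* L) =
      algebraMap F (AlgebraicClosure F) := by
    ext z
    have h1 := IsAlgClosure.equivOfEquiv_algebraMap (AlgebraicClosure L) (AlgebraicClosure F)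
      s.symm (s z)
    rw [RingEquiv.symm_apply_apply] at h1
    exact h1
  rw [← indec_map_equiv_iff t, mapRp_comp, ← RingHom.comp_assoc, ht]

theorem kacCount_congr_field (Q : Quiv I E) {F L : Type} [Field F] [Field L] (α : I → ℕ)
    (s : F ≃+* L) : kacCount Q F α = kacCount Q L α := by
  unfold kacCount
  have hinj : Function.Injective (fun x : Rp Q F α => mapRp (s : F →+* L) x) := by
    intro x y h
    have h1 := congrArg (fun z => mapRp (s.symm : L →+* F) z) h
    simp only [mapRp_comp, RingEquiv.symm_comp, mapRp_id] at h1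
    exact h1
  have hsurj : Function.Surjective (fun x : Rp Q F α => mapRp (s : F →+* L) x) := by
    intro y
    refine ⟨mapRp (s.symm : L →+* F) y, ?_⟩
    show mapRp (s : F →+* L) (mapRp (s.symm : L →+* F) y) = y
    rw [mapRp_comp, RingEquiv.comp_symm, mapRp_id]
  have himg : absIndecClasses Q L α =
      (fun c : Set (Rp Q F α) => (fun x => mapRp (s : F →+* L) x) '' c) ''
        absIndecClasses Q F α := by
    ext c
    constructor
    · rintro ⟨y, hy, rfl⟩
      obtain ⟨x, rfl⟩ := hsurj y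
      refine ⟨{z | Isom x z}, ⟨x, (absIndec_map_equiv_iff s).1 hy, rfl⟩, ?_⟩
      ext z
      obtain ⟨z, rfl⟩ := hsurj z
      simp only [Set.mem_image, Set.mem_ofPred_eq]
      constructor
      · rintro ⟨w, hw, hwz⟩
        rw [← hinj hwz]
        exact (isom_map_equiv_iff s).2 hw
      · intro hz
        exact ⟨z, (isom_map_equiv_iff s).1 hz, rfl⟩
    · rintro ⟨c, ⟨x, hx, rfl⟩, rfl⟩
      refine ⟨mapRp (s : F →+* L) x, (absIndec_map_equiv_iff s).2 hx, ?_⟩
      ext z
      obtain ⟨z, rfl⟩ := hsurj z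
      simp only [Set.mem_image, Set.mem_ofPred_eq]
      constructor
      · rintro ⟨w, hw, hwz⟩
        rw [← hinj hwz]
        exact (isom_map_equiv_iff s).2 hw
      · intro hz
        exact ⟨z, (isom_map_equiv_iff s).1 hz, rfl⟩
  rw [himg, Set.ncard_image_of_injective _ (Set.image_injective.2 hinj)]

theorem kacA_card (Q : Quiv I E) (F : Type) [Field F] [Fintype F] (α : I → ℕ) :
    kacA Q α (Fintype.card F) = kacCount Q F α := by
  classical
  have h : ∃ (L : Type) (_ : Field L) (_ : Fintype L), Fintype.card L = Fintype.card F :=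
    ⟨F, inferInstance, inferInstance, rfl⟩
  unfold kacA
  rw [dif_pos h]
  let _ : Field h.choose := h.choose_spec.choose
  let _ : Fintype h.choose := h.choose_spec.choose_spec.choose
  have hc : Fintype.card h.choose = Fintype.card F := h.choose_spec.choose_spec.choose_spec
  exact kacCount_congr_field Q α (FiniteField.ringEquivOfCardEq hc)

end

end Pool.Agent.H27.KAC

end

section

/-!
Project KAC, part I.1, module PI_Pi: good polynomials exist in each degree over a finite field, and the field they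
define.

PROOF SKETCH.  `exists_goodPi`: there is an extension of degree `N` of `F` (splitting field of `X^(q^N) - X`, or a
Galois field); let `θ` be a generator of its multiplicative group and `π = minpoly F θ`; `F⟮θ⟯ = ⊤`, `θ ≠ 0`.
`exists_ext`: `L = AdjoinRoot π`.
-/

set_option autoImplicit false

namespace Pool.Agent.H27.KAC

open scoped BigOperators
open Polynomial

private theorem Pi_gen (F L : Type) [Field F] [Field L] [Algebra F L] [Finite L] :
    ∃ θ : L, θ ≠ 0 ∧ IntermediateField.adjoin F {θ} = ⊤ := by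
  obtain ⟨θ, hθ⟩ := @IsCyclic.exists_generator Lˣ _ _
  refine ⟨θ, θ.ne_zero, ?_⟩
  rw [eq_top_iff]
  rintro x -
  by_cases hx : x = 0
  · rw [hx]
    exact (IntermediateField.adjoin F {(θ : L)}).zero_mem
  · obtain ⟨n, hn⟩ := Subgroup.mem_zpowers_iff.mp (hθ (Units.mk0 x hx))
    rw [show x = (θ : L) ^ n by norm_cast; rw [hn, Units.val_mk0]]
    exact zpow_mem (IntermediateField.mem_adjoin_simple_self F (θ : L)) n

theorem exists_goodPi (F : Type) [Field F] [Fintype F] (N : ℕ) (hN : 1 ≤ N) :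
    ∃ π : F[X], GoodPi F π N := by
  obtain ⟨p, hp⟩ := CharP.exists F
  have : Fact p.Prime := ⟨CharP.char_is_prime F p⟩
  have : NeZero N := ⟨by omega⟩
  obtain ⟨θ, hθ0, hθ⟩ := Pi_gen F (FiniteField.Extension F p N)
  have hint : IsIntegral F θ := Algebra.IsIntegral.isIntegral θ
  refine ⟨minpoly F θ, minpoly.irreducible hint, minpoly.monic hint, ?_,
    minpoly.coeff_zero_ne_zero hint hθ0⟩
  rw [← IntermediateField.adjoin.finrank hint, hθ, IntermediateField.finrank_top',
    FiniteField.finrank_extension]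

theorem exists_ext (F : Type) [Field F] [Fintype F] {π : F[X]} {N : ℕ} (hπ : GoodPi F π N) :
    ∃ (L : Type) (_ : Field L) (_ : Fintype L) (_ : Algebra F L) (θ : L),
      aeval θ π = 0 ∧ Module.finrank F L = N ∧ Fintype.card L = Fintype.card F ^ N := by
  have : Fact (Irreducible π) := ⟨hπ.irr⟩
  have h1 : Module.finrank F (AdjoinRoot π) = N := by
    rw [(AdjoinRoot.powerBasis hπ.irr.ne_zero).finrank, AdjoinRoot.powerBasis_dim, hπ.deg]
  have : Module.Finite F (AdjoinRoot π) := (AdjoinRoot.powerBasis hπ.irr.ne_zero).finite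
  have : Finite (AdjoinRoot π) := Module.finite_of_finite F
  letI : Fintype (AdjoinRoot π) := Fintype.ofFinite _
  refine ⟨AdjoinRoot π, inferInstance, inferInstance, inferInstance, AdjoinRoot.root π, ?_, h1, ?_⟩
  · rw [AdjoinRoot.aeval_eq, AdjoinRoot.mk_self]
  · rw [Module.card_eq_pow_finrank (K := F) (V := AdjoinRoot π), h1]

end Pool.Agent.H27.KAC

end

section

/-!
KAC ADE engine, module E2: M-matrices (Z-matrices `A` with a positive vector `y`, `A y ≥ 0`).

* `mm_comp` (comparison, over any linearly ordered field, here needed over `ℚ` and `ℝ`): if `A v ≥ 0` and `v` is negative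
  somewhere, let `t = max (-v_i / y_i) > 0` and `T` the set where it is attained; `v + t y ≥ 0`, `= 0` exactly on `T`; for
  `l ∈ T`: `0 ≤ (A (v + t y))_l = ∑_{j ∉ T} A_lj (v + t y)_j ≤ 0`, so `(A y)_l = 0` and `A_lj = 0` for `j ∉ T`.
* `mm_det_nonneg`: for `s ∈ (0, 1]` the matrix `(1 - s) A + s` satisfies the hypotheses with `A y > 0`, so it is injective,
  so its determinant is `≠ 0` (over `ℝ`); it is `1` at `s = 1`, continuous, hence `> 0` on `(0,1]` (IVT), `≥ 0` at `s = 0`.
* `mm_det_ge`: row by row: `det A ≥ det (A with row i replaced by ρ_i e_i)` because the difference is the determinant of a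
  matrix of the same kind (multilinearity in row `i`), `ρ_i = r_i / y_i`; finally the diagonal matrix.
* `mm_tree`: the same with `row i = ρ_i e_i` for the root and `row i = w_i (e_i / ... )`, see the statement.
-/

set_option autoImplicit false

namespace Pool.Agent.H40.KADE

open scoped BigOperators
open Matrix

variable {I : Type} [Fintype I] [DecidableEq I]

/-- comparison. -/
theorem mm_comp {K : Type} [Field K] [LinearOrder K] [IsStrictOrderedRing K] (A : Matrix I I K)
    (hZ : ∀ i j, i ≠ j → A i j ≤ 0) (y : I → K) (hy : ∀ i, 0 < y i)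
    (hAy : ∀ i, 0 ≤ (A *ᵥ y) i)
    (htr : ∀ T : Finset I, T.Nonempty → (∀ l ∈ T, (A *ᵥ y) l = 0) → ∃ l ∈ T, ∃ j, j ∉ T ∧ A l j ≠ 0)
    (v : I → K) (hv : ∀ i, 0 ≤ (A *ᵥ v) i) : ∀ i, 0 ≤ v i := by
  by_contra hcon
  push Not at hcon
  obtain ⟨i0, hi0⟩ := hcon
  have hne : (Finset.univ : Finset I).Nonempty := ⟨i0, Finset.mem_univ _⟩
  obtain ⟨m, -, hm⟩ := Finset.exists_max_image Finset.univ (fun i => -v i / y i) hne
  set t : K := -v m / y m with ht
  have ht0 : 0 < t := lt_of_lt_of_le (div_pos (by linarith) (hy i0)) (hm i0 (Finset.mem_univ _))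
  have hge : ∀ i, 0 ≤ v i + t * y i := by
    intro i
    have h1 := hm i (Finset.mem_univ _)
    have h2 : -v i / y i ≤ t := h1
    rw [div_le_iff₀ (hy i)] at h2
    linarith
  set T : Finset I := Finset.univ.filter (fun i => v i + t * y i = 0) with hT
  have hmT : m ∈ T := by
    rw [hT, Finset.mem_filter]
    refine ⟨Finset.mem_univ _, ?_⟩
    rw [ht, div_mul_cancel₀ _ (hy m).ne']
    ring
  have hkey : ∀ l ∈ T, (A *ᵥ v) l + t * (A *ᵥ y) l = ∑ j, A l j * (v j + t * y j) := by
    intro l _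
    simp only [Matrix.mulVec, dotProduct, Finset.mul_sum]
    rw [← Finset.sum_add_distrib]
    refine Finset.sum_congr rfl fun j _ => by ring
  have hnonpos : ∀ l ∈ T, ∀ j, A l j * (v j + t * y j) ≤ 0 := by
    intro l hl j
    rcases eq_or_ne l j with rfl | hlj
    · rw [(Finset.mem_filter.mp hl).2, mul_zero]
    · exact mul_nonpos_of_nonpos_of_nonneg (hZ l j hlj) (hge j)
  have hzero : ∀ l ∈ T, (A *ᵥ y) l = 0 ∧ ∀ j, A l j * (v j + t * y j) = 0 := by
    intro l hl
    have h1 := hkey l hl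
    have h2 : ∑ j, A l j * (v j + t * y j) ≤ 0 := Finset.sum_nonpos fun j _ => hnonpos l hl j
    have h3 := hv l
    have h4 := mul_nonneg ht0.le (hAy l)
    have h5 : t * (A *ᵥ y) l = 0 := by linarith
    have h6 : ∑ j, A l j * (v j + t * y j) = 0 := by linarith
    refine ⟨(mul_eq_zero.mp h5).resolve_left ht0.ne', fun j => ?_⟩
    have h7 := (Finset.sum_eq_zero_iff_of_nonpos (fun j _ => hnonpos l hl j)).mp h6
    exact h7 j (Finset.mem_univ _)
  obtain ⟨l, hl, j, hj, hne'⟩ := htr T ⟨m, hmT⟩ (fun l hl => (hzero l hl).1)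
  have h8 := (hzero l hl).2 j
  rcases mul_eq_zero.mp h8 with h9 | h9
  · exact hne' h9
  · exact hj (by rw [hT, Finset.mem_filter]; exact ⟨Finset.mem_univ _, h9⟩)

/-- injectivity. -/
theorem E2_det_ne {K : Type} [Field K] [LinearOrder K] [IsStrictOrderedRing K] (A : Matrix I I K)
    (hZ : ∀ i j, i ≠ j → A i j ≤ 0) (y : I → K) (hy : ∀ i, 0 < y i)
    (hAy : ∀ i, 0 ≤ (A *ᵥ y) i)
    (htr : ∀ T : Finset I, T.Nonempty → (∀ l ∈ T, (A *ᵥ y) l = 0) → ∃ l ∈ T, ∃ j, j ∉ T ∧ A l j ≠ 0) :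
    A.det ≠ 0 := by
  intro h0
  obtain ⟨v, hv, hAv⟩ := Matrix.exists_mulVec_eq_zero_iff.mpr h0
  apply hv
  have h1 := mm_comp A hZ y hy hAy htr v (fun i => by rw [hAv]; exact le_refl _)
  have h2 := mm_comp A hZ y hy hAy htr (-v) (fun i => by
    rw [Matrix.mulVec_neg, hAv, neg_zero]; exact le_refl _)
  funext i
  have h3 := h2 i
  rw [Pi.neg_apply] at h3
  have h4 : v i ≤ 0 := by linarith
  exact le_antisymm h4 (h1 i)

theorem mm_det_nonneg (A : Matrix I I ℚ) (hZ : ∀ i j, i ≠ j → A i j ≤ 0) (y : I → ℚ)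
    (hy : ∀ i, 0 < y i) (hAy : ∀ i, 0 ≤ (A *ᵥ y) i) : 0 ≤ A.det := by
  set B : Matrix I I ℝ := A.map (fun q : ℚ => (q : ℝ)) with hB
  have hBdet : B.det = ((A.det : ℚ) : ℝ) := by
    have := (RingHom.map_det (Rat.castHom ℝ) A)
    rw [hB]
    exact this.symm
  set z : I → ℝ := fun i => ((y i : ℚ) : ℝ) with hz
  have hzpos : ∀ i, 0 < z i := fun i => by
    have h1 : (0 : ℝ) < ((y i : ℚ) : ℝ) := by exact_mod_cast hy i
    exact h1
  have hBz : ∀ i, 0 ≤ (B *ᵥ z) i := by
    intro i
    have h1 : (B *ᵥ z) i = (((A *ᵥ y) i : ℚ) : ℝ) := by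
      simp only [Matrix.mulVec, dotProduct, hB, hz, Matrix.map_apply]
      push_cast
      rfl
    rw [h1]
    exact_mod_cast hAy i
  set f : ℝ → ℝ := fun s => ((1 - s) • B + s • (1 : Matrix I I ℝ)).det with hf
  have hcont : Continuous f := by
    refine Continuous.matrix_det ?_
    exact ((continuous_const.sub continuous_id).smul continuous_const).add
      (continuous_id.smul continuous_const)
  have hf1 : f 1 = 1 := by
    simp [hf]
  have hf0 : f 0 = B.det := by
    simp [hf]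
  have hne : ∀ s : ℝ, 0 < s → s ≤ 1 → f s ≠ 0 := by
    intro s hs hs1
    have hMz : ∀ i, 0 < (((1 - s) • B + s • (1 : Matrix I I ℝ)) *ᵥ z) i := by
      intro i
      have h1 : (((1 - s) • B + s • (1 : Matrix I I ℝ)) *ᵥ z) i = (1 - s) * (B *ᵥ z) i + s * z i := by
        rw [Matrix.add_mulVec, Matrix.smul_mulVec, Matrix.smul_mulVec, Matrix.one_mulVec]
        rfl
      rw [h1]
      have h2 := mul_nonneg (by linarith : (0:ℝ) ≤ 1 - s) (hBz i)
      have h3 := mul_pos hs (hzpos i)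
      linarith
    refine E2_det_ne _ ?_ z hzpos (fun i => (hMz i).le) ?_
    · intro i j hij
      have h1 : ((1 - s) • B + s • (1 : Matrix I I ℝ)) i j = (1 - s) * ((A i j : ℚ) : ℝ) := by
        simp [hB, Matrix.add_apply, Matrix.smul_apply, Matrix.one_apply_ne hij]
      rw [h1]
      have h2 : ((A i j : ℚ) : ℝ) ≤ 0 := by exact_mod_cast hZ i j hij
      exact mul_nonpos_of_nonneg_of_nonpos (by linarith) h2
    · intro T hT hTz
      obtain ⟨l, hl⟩ := hT
      exact absurd (hTz l hl) (hMz l).ne'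
  by_contra hneg
  push Not at hneg
  have hf0neg : f 0 < 0 := by
    rw [hf0, hBdet]
    exact_mod_cast hneg
  have hmem : (0 : ℝ) ∈ Set.Icc (f 0) (f 1) := ⟨hf0neg.le, by rw [hf1]; norm_num⟩
  obtain ⟨s, hs, hfs⟩ := intermediate_value_Icc (by norm_num : (0:ℝ) ≤ 1) hcont.continuousOn hmem
  rcases eq_or_lt_of_le hs.1 with h | h
  · rw [← h] at hfs
    linarith
  · exact hne s h hs.2 hfs

theorem mm_det_pos (A : Matrix I I ℚ) (hZ : ∀ i j, i ≠ j → A i j ≤ 0) (y : I → ℚ)
    (hy : ∀ i, 0 < y i) (hAy : ∀ i, 0 ≤ (A *ᵥ y) i)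
    (htr : ∀ T : Finset I, T.Nonempty → (∀ l ∈ T, (A *ᵥ y) l = 0) → ∃ l ∈ T, ∃ j, j ∉ T ∧ A l j ≠ 0) :
    0 < A.det :=
  lt_of_le_of_ne (mm_det_nonneg A hZ y hy hAy) (E2_det_ne A hZ y hy hAy htr).symm

theorem mm_inv_nonneg (A : Matrix I I ℚ) (hZ : ∀ i j, i ≠ j → A i j ≤ 0) (y : I → ℚ)
    (hy : ∀ i, 0 < y i) (hAy : ∀ i, 0 ≤ (A *ᵥ y) i)
    (htr : ∀ T : Finset I, T.Nonempty → (∀ l ∈ T, (A *ᵥ y) l = 0) → ∃ l ∈ T, ∃ j, j ∉ T ∧ A l j ≠ 0)
    (i j : I) : 0 ≤ A⁻¹ i j := by
  have hdet := mm_det_pos A hZ y hy hAy htr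
  have hunit : IsUnit A.det := isUnit_iff_ne_zero.mpr hdet.ne'
  have hmul := Matrix.mul_nonsing_inv A hunit
  refine mm_comp A hZ y hy hAy htr (fun k => A⁻¹ k j) (fun l => ?_) i
  have h1 : (A *ᵥ (fun k => A⁻¹ k j)) l = (A * A⁻¹) l j := by
    rw [Matrix.mul_apply]
    rfl
  rw [h1, hmul, Matrix.one_apply]
  split_ifs <;> norm_num

/-- one row replacement. -/
theorem E2_step (A : Matrix I I ℚ) (hZ : ∀ i j, i ≠ j → A i j ≤ 0) (y : I → ℚ)
    (hy : ∀ i, 0 < y i) (hAy : ∀ i, 0 ≤ (A *ᵥ y) i) (i : I) (w : I → ℚ)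
    (hw : ∀ j, j ≠ i → A i j ≤ w j) (hwy : ∑ j, w j * y j ≤ (A *ᵥ y) i) :
    (A.updateRow i w).det ≤ A.det := by
  have h1 : A = A.updateRow i ((fun j => A i j - w j) + w) := by
    ext a b
    rcases eq_or_ne a i with rfl | ha
    · rw [Matrix.updateRow_self]
      simp
    · rw [Matrix.updateRow_ne ha]
  have h2 : A.det = (A.updateRow i (fun j => A i j - w j)).det + (A.updateRow i w).det := by
    conv_lhs => rw [h1]
    exact Matrix.det_updateRow_add A i _ _
  have h3 : 0 ≤ (A.updateRow i (fun j => A i j - w j)).det := by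
    refine mm_det_nonneg _ ?_ y hy ?_
    · intro a b hab
      rcases eq_or_ne a i with rfl | ha
      · rw [Matrix.updateRow_self]
        have := hw b (Ne.symm hab)
        linarith
      · rw [Matrix.updateRow_ne ha]
        exact hZ a b hab
    · intro a
      rcases eq_or_ne a i with rfl | ha
      · have h4 : ((A.updateRow a (fun j => A a j - w j)) *ᵥ y) a = (A *ᵥ y) a - ∑ j, w j * y j := by
          simp only [Matrix.mulVec, dotProduct, Matrix.updateRow_self]
          rw [← Finset.sum_sub_distrib]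
          refine Finset.sum_congr rfl fun j _ => by ring
        rw [h4]
        linarith
      · have h4 : ((A.updateRow i (fun j => A i j - w j)) *ᵥ y) a = (A *ᵥ y) a := by
          simp only [Matrix.mulVec, dotProduct, Matrix.updateRow_ne ha]
        rw [h4]
        exact hAy a
  linarith

/-- the rows in `S` replaced by the rows of `W`. -/
def E2_mix (A W : Matrix I I ℚ) (S : Finset I) : Matrix I I ℚ :=
  Matrix.of fun i j => if i ∈ S then W i j else A i j

theorem E2_mix_row (A W : Matrix I I ℚ) (S : Finset I) (i j : I) :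
    E2_mix A W S i j = if i ∈ S then W i j else A i j := rfl

theorem E2_mix_insert (A W : Matrix I I ℚ) (S : Finset I) (i : I) :
    E2_mix A W (insert i S) = (E2_mix A W S).updateRow i (W i) := by
  ext a b
  rcases eq_or_ne a i with rfl | ha
  · rw [Matrix.updateRow_self, E2_mix_row, if_pos (Finset.mem_insert_self _ _)]
  · rw [Matrix.updateRow_ne ha, E2_mix_row, E2_mix_row]
    simp [Finset.mem_insert, ha]

/-- all the row replacements. -/
theorem E2_mix_le (A W : Matrix I I ℚ) (hZ : ∀ i j, i ≠ j → A i j ≤ 0) (y : I → ℚ)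
    (hy : ∀ i, 0 < y i)
    (hW0 : ∀ i j, i ≠ j → W i j ≤ 0) (hWA : ∀ i j, i ≠ j → A i j ≤ W i j)
    (hWy : ∀ i, 0 ≤ (W *ᵥ y) i) (hWAy : ∀ i, (W *ᵥ y) i ≤ (A *ᵥ y) i) :
    W.det ≤ A.det := by
  have hmv : ∀ (S : Finset I) (i : I), ((E2_mix A W S) *ᵥ y) i =
      if i ∈ S then (W *ᵥ y) i else (A *ᵥ y) i := by
    intro S i
    simp only [Matrix.mulVec, dotProduct, E2_mix_row]
    split_ifs <;> rfl
  have key : ∀ S : Finset I, (E2_mix A W S).det ≤ A.det := by
    intro S
    induction S using Finset.induction_on with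
    | empty =>
      have : E2_mix A W ∅ = A := by
        ext a b
        rw [E2_mix_row, if_neg (Finset.notMem_empty _)]
      rw [this]
    | insert i S hi ih =>
      rw [E2_mix_insert]
      refine le_trans (E2_step _ ?_ y hy ?_ i (W i) ?_ ?_) ih
      · intro a b hab
        rw [E2_mix_row]
        split_ifs
        · exact hW0 a b hab
        · exact hZ a b hab
      · intro a
        rw [hmv]
        split_ifs
        · exact hWy a
        · exact le_trans (hWy a) (hWAy a)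
      · intro j hj
        rw [E2_mix_row, if_neg hi]
        exact hWA i j (Ne.symm hj)
      · rw [hmv, if_neg hi]
        exact hWAy i
  have hu : E2_mix A W Finset.univ = W := by
    ext a b
    rw [E2_mix_row, if_pos (Finset.mem_univ _)]
  have := key Finset.univ
  rwa [hu] at this

/-- lower bound by the product of the scaled row sums. -/
theorem mm_det_ge (A : Matrix I I ℚ) (hZ : ∀ i j, i ≠ j → A i j ≤ 0) (y r : I → ℚ)
    (hy : ∀ i, 0 < y i) (hr : ∀ i, 0 ≤ r i) (hAy : ∀ i, r i ≤ (A *ᵥ y) i) :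
    ∏ i, (r i / y i) ≤ A.det := by
  have hd : (Matrix.diagonal (fun i => r i / y i)).det = ∏ i, (r i / y i) := Matrix.det_diagonal
  rw [← hd]
  have hDy : ∀ i, ((Matrix.diagonal (fun i => r i / y i)) *ᵥ y) i = r i := by
    intro i
    rw [Matrix.mulVec_diagonal]
    exact div_mul_cancel₀ _ (hy i).ne'
  refine E2_mix_le A _ hZ y hy ?_ ?_ ?_ ?_
  · intro i j hij
    rw [Matrix.diagonal_apply_ne _ hij]
  · intro i j hij
    rw [Matrix.diagonal_apply_ne _ hij]
    exact hZ i j hij
  · intro i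
    rw [hDy]
    exact hr i
  · intro i
    rw [hDy]
    exact hAy i

/-- lower bound for the diagonal entry of the inverse times the determinant. -/
theorem mm_minor (A : Matrix I I ℚ) (hZ : ∀ i j, i ≠ j → A i j ≤ 0) (y r : I → ℚ)
    (hy : ∀ i, 0 < y i) (hr : ∀ i, 0 ≤ r i) (hAy : ∀ i, r i ≤ (A *ᵥ y) i) (hdet : A.det ≠ 0) (i0 : I) :
    ∏ i ∈ Finset.univ.erase i0, (r i / y i) ≤ A.det * A⁻¹ i0 i0 := by
  have h1 : A.det * A⁻¹ i0 i0 = (A.updateRow i0 (Pi.single i0 1)).det := by
    rw [← Matrix.adjugate_apply, Matrix.inv_def, Matrix.smul_apply, Ring.inverse_eq_inv',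
      smul_eq_mul, ← mul_assoc, mul_inv_cancel₀ hdet, one_mul]
  rw [h1]
  have h2 := mm_det_ge (A.updateRow i0 (Pi.single i0 1)) ?_ y (Function.update r i0 (y i0)) hy ?_ ?_
  · refine le_trans (le_of_eq ?_) h2
    rw [← Finset.mul_prod_erase Finset.univ _ (Finset.mem_univ i0), Function.update_self,
      div_self (hy i0).ne', one_mul]
    refine Finset.prod_congr rfl fun i hi => ?_
    rw [Function.update_of_ne (Finset.ne_of_mem_erase hi)]
  · intro a b hab
    rcases eq_or_ne a i0 with rfl | ha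
    · rw [Matrix.updateRow_self, Pi.single_eq_of_ne (Ne.symm hab)]
    · rw [Matrix.updateRow_ne ha]
      exact hZ a b hab
  · intro a
    rcases eq_or_ne a i0 with rfl | ha
    · rw [Function.update_self]
      exact (hy _).le
    · rw [Function.update_of_ne ha]
      exact hr a
  · intro a
    rcases eq_or_ne a i0 with rfl | ha
    · rw [Function.update_self]
      refine le_of_eq ?_
      simp [Matrix.mulVec, dotProduct, Matrix.updateRow_self, Pi.single_apply]
    · rw [Function.update_of_ne ha]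
      refine le_trans (hAy a) (le_of_eq ?_)
      simp only [Matrix.mulVec, dotProduct, Matrix.updateRow_ne ha]

/-- lower bound by a spanning tree: `π i` is the parent of `i ≠ r`, of smaller depth; the row sums are nonnegative
and the entries `A i (π i)` are at most `-1`; then `det A ≥ (row sum of r)`. -/
theorem mm_tree (A : Matrix I I ℚ) (hZ : ∀ i j, i ≠ j → A i j ≤ 0) (r : I) (dep : I → ℕ)
    (par : I → I) (hpar : ∀ i, i ≠ r → dep (par i) < dep i) (hw : ∀ i, i ≠ r → A i (par i) ≤ -1)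
    (hrow : ∀ i, 0 ≤ ∑ j, A i j) : ∑ j, A r j ≤ A.det := by
  have hpne : ∀ i, i ≠ r → par i ≠ i := by
    intro i hi h
    have := hpar i hi
    rw [h] at this
    exact lt_irrefl _ this
  set P : Matrix I I ℚ := Matrix.of fun i j =>
    (if i = j then (1 : ℚ) else 0) - (if i ≠ r ∧ par i = j then 1 else 0) with hP
  have hPa : ∀ i j, P i j =
      (if i = j then (1 : ℚ) else 0) - (if i ≠ r ∧ par i = j then 1 else 0) := fun i j => rfl
  have hPdet : P.det = 1 := by
    have hbt : Matrix.BlockTriangular P (fun i => OrderDual.toDual (dep i)) := by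
      intro i j hij
      have hij' : dep i < dep j := OrderDual.toDual_lt_toDual.mp hij
      rw [hPa]
      have h1 : i ≠ j := by
        rintro rfl
        exact lt_irrefl _ hij'
      have h2 : ¬ (i ≠ r ∧ par i = j) := by
        rintro ⟨h3, h4⟩
        have := hpar i h3
        rw [h4] at this
        exact lt_asymm this hij'
      rw [if_neg h1, if_neg h2, sub_zero]
    rw [hbt.det]
    refine Finset.prod_eq_one fun a _ => ?_
    have h1 : P.toSquareBlock (fun i => OrderDual.toDual (dep i)) a = 1 := by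
      ext ⟨i, hi⟩ ⟨j, hj⟩
      rw [Matrix.toSquareBlock_def, Matrix.of_apply, hPa, Matrix.one_apply]
      have hd : dep i = dep j := by
        have : OrderDual.toDual (dep i) = OrderDual.toDual (dep j) := hi.trans hj.symm
        exact OrderDual.toDual_inj.mp this
      have h2 : ¬ (i ≠ r ∧ par i = j) := by
        rintro ⟨h3, h4⟩
        have := hpar i h3
        rw [h4, hd] at this
        exact lt_irrefl _ this
      rw [if_neg h2, sub_zero]
      simp only [Subtype.mk.injEq]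
    rw [h1, Matrix.det_one]
  set ρ : ℚ := ∑ j, A r j with hρ
  set W : Matrix I I ℚ := P.updateRow r (ρ • P r) with hW
  have hWdet : W.det = ρ := by
    rw [hW, Matrix.det_updateRow_smul, Matrix.updateRow_eq_self, hPdet, mul_one]
  rw [← hWdet]
  have hPr : ∀ j, P r j = if r = j then 1 else 0 := by
    intro j
    rw [hPa, if_neg (fun h : r ≠ r ∧ par r = j => h.1 rfl), sub_zero]
  have hWr : ∀ j, W r j = if r = j then ρ else 0 := by
    intro j
    rw [hW, Matrix.updateRow_self, Pi.smul_apply, hPr, smul_eq_mul]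
    split_ifs <;> simp
  have hWi : ∀ i, i ≠ r → ∀ j, W i j = (if i = j then 1 else 0) - (if par i = j then 1 else 0) := by
    intro i hi j
    rw [hW, Matrix.updateRow_ne hi, hPa]
    simp [hi]
  have hWsum : ∀ i, (W *ᵥ (fun _ => (1 : ℚ))) i = if i = r then ρ else 0 := by
    intro i
    simp only [Matrix.mulVec, dotProduct, mul_one]
    rcases eq_or_ne i r with rfl | hi
    · rw [if_pos rfl, Finset.sum_congr rfl (fun j _ => hWr j)]
      simp
    · rw [if_neg hi, Finset.sum_congr rfl (fun j _ => hWi i hi j), Finset.sum_sub_distrib]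
      simp
  have hAsum : ∀ i, (A *ᵥ (fun _ => (1 : ℚ))) i = ∑ j, A i j := by
    intro i
    simp only [Matrix.mulVec, dotProduct, mul_one]
  refine E2_mix_le A W hZ (fun _ => 1) (fun _ => one_pos) ?_ ?_ ?_ ?_
  · intro i j hij
    rcases eq_or_ne i r with rfl | hi
    · rw [hWr, if_neg hij]
    · rw [hWi i hi, if_neg hij]
      split_ifs <;> norm_num
  · intro i j hij
    rcases eq_or_ne i r with rfl | hi
    · rw [hWr, if_neg hij]
      exact hZ _ j hij
    · rw [hWi i hi, if_neg hij]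
      split_ifs with h
      · rw [← h]
        have := hw i hi
        linarith
      · have := hZ i j hij
        linarith
  · intro i
    rw [hWsum]
    split_ifs
    · exact hrow r
    · exact le_refl _
  · intro i
    rw [hWsum, hAsum]
    split_ifs with h
    · rw [h]
    · exact hrow i

end Pool.Agent.H40.KADE

end

section

/-!
KAC: affine rays, and the reduction of a ray by reflections for all quivers.

* `kac_affine`: `kacOne Q (n α) = |supp α|` for `α` primitive with connected support and `s = 0` on the support.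
* `kac_induct'`: as `kac_induct` (KM4), without condition on the quiver; the leaves are the zero sequence, `1, 0, 0, …`,
  constant sequences `c ≥ 1`, and the vectors which are ample (`AmpG`) on their support.
-/

set_option autoImplicit false

namespace Pool.H88.KA

open scoped BigOperators
open Pool.Agent.H27.KAC

/-- `s_i = -(Cα)_i` is `≥ 0` at loop-free vertices, `> 0` at vertices with loops, not all `s_i` are zero, and `α` has full
support. -/
structure AmpG {I : Type} [Fintype I] [DecidableEq I] (a : I → I → ℕ) (α : I →₀ ℕ) : Prop where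
  supp : ∀ i, 1 ≤ α i
  pos : ∀ i, a i i = 0 → 0 ≤ -cw a α i
  posl : ∀ i, a i i ≠ 0 → 0 < -cw a α i
  ex : ∃ i, 0 < -cw a α i

section

end

end Pool.H88.KA

end
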