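import Pool.Agent.H16.TKA.M01
import Pool.Agent.H16.TKA.M05
import Pool.Agent.H16.TKA.M07

/-! The parts of this file: H41.KA.AD7a, H41.KA.AD7, H41.KA.AD8a, H41.KA.AG0. -/

section

/-!
KAC ADE, module AD7a: `p`-integral rational numbers.

`PI p q` (`q` is `p`-integral) and `PD p q` (`q ∈ p ℤ_(p)`).
-/

set_option autoImplicit false

namespace Pool.Agent.H27.KAC

open scoped BigOperators

section PInt

variable {p : ℕ}

theorem PI_int (hp : p.Prime) (n : ℤ) : PI p (n : ℚ) := by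
  unfold PI
  rw [Rat.den_intCast, Nat.dvd_one]
  exact hp.one_lt.ne'

theorem PI_add (hp : p.Prime) {q r : ℚ} (hq : PI p q) (hr : PI p r) : PI p (q + r) := by
  intro h
  rcases (hp.dvd_mul).1 (h.trans (Rat.add_den_dvd q r)) with h | h
  · exact hq h
  · exact hr h

theorem PI_neg {q : ℚ} (hq : PI p q) : PI p (-q) := by
  unfold PI
  rw [Rat.den_neg_eq_den]
  exact hq

theorem PI_mul (hp : p.Prime) {q r : ℚ} (hq : PI p q) (hr : PI p r) : PI p (q * r) := by
  intro h
  rcases (hp.dvd_mul).1 (h.trans (Rat.mul_den_dvd q r)) with h | h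
  · exact hq h
  · exact hr h

theorem PI_sum (hp : p.Prime) {ι : Type} (s : Finset ι) (f : ι → ℚ) (h : ∀ i ∈ s, PI p (f i)) :
    PI p (∑ i ∈ s, f i) := by
  classical
  refine Finset.sum_induction f (PI p) (fun a b ha hb => PI_add hp ha hb) ?_ h
  simpa using PI_int hp 0

theorem PD_add (hp : p.Prime) {q r : ℚ} (hq : PD p q) (hr : PD p r) : PD p (q + r) := by
  obtain ⟨a, ha, rfl⟩ := hq
  obtain ⟨b, hb, rfl⟩ := hr
  exact ⟨a + b, PI_add hp ha hb, by ring⟩

theorem PD_neg {q : ℚ} (hq : PD p q) : PD p (-q) := by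
  obtain ⟨a, ha, rfl⟩ := hq
  exact ⟨-a, PI_neg ha, by ring⟩

theorem PD_zero (hp : p.Prime) : PD p 0 :=
  ⟨0, by simpa using PI_int hp 0, by ring⟩

theorem PD_mul (hp : p.Prime) {q r : ℚ} (hq : PD p q) (hr : PI p r) : PD p (r * q) := by
  obtain ⟨a, ha, rfl⟩ := hq
  exact ⟨r * a, PI_mul hp hr ha, by ring⟩

theorem PD_sum (hp : p.Prime) {ι : Type} (s : Finset ι) (f : ι → ℚ) (h : ∀ i ∈ s, PD p (f i)) :
    PD p (∑ i ∈ s, f i) := by
  classical
  exact Finset.sum_induction f (PD p) (fun a b ha hb => PD_add hp ha hb) (PD_zero hp) h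

/-- almost all primes are allowed. -/
theorem PI_of_large (q : ℚ) : ∃ N : ℕ, ∀ p : ℕ, N ≤ p → PI p q := by
  refine ⟨q.den + 1, fun p hp h => ?_⟩
  have := Nat.le_of_dvd q.den_pos h
  omega

/-- a number divisible by infinitely many primes is zero. -/
theorem eq_zero_of_PD (q : ℚ) (h : ∀ N : ℕ, ∃ p : ℕ, N ≤ p ∧ p.Prime ∧ PD p q) : q = 0 := by
  by_contra hq
  obtain ⟨p, hN, hp, r, hr, hqr⟩ := h (q.num.natAbs + 1)
  have h1 : (q.num : ℚ) * r.den = (p : ℚ) * r.num * q.den := by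
    have hq1 : (q.num : ℚ) = q * q.den := (Rat.mul_den_eq_num q).symm
    have hr1 : (r.num : ℚ) = r * r.den := (Rat.mul_den_eq_num r).symm
    rw [hq1, hr1, hqr]
    ring
  have h2 : q.num * (r.den : ℤ) = (p : ℤ) * r.num * q.den := by exact_mod_cast h1
  have h3 : (p : ℤ) ∣ q.num * (r.den : ℤ) := ⟨r.num * q.den, by rw [h2]; ring⟩
  have hpi : Prime (p : ℤ) := Nat.prime_iff_prime_int.1 hp
  rcases hpi.dvd_or_dvd h3 with h4 | h4
  · have h5 : p ∣ q.num.natAbs := by
      have := Int.natAbs_dvd_natAbs.2 h4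
      simpa using this
    have h6 : 0 < q.num.natAbs := by
      rw [Nat.pos_iff_ne_zero, Ne, Int.natAbs_eq_zero, Rat.num_eq_zero]
      exact hq
    have := Nat.le_of_dvd h6 h5
    omega
  · exact hr (by exact_mod_cast h4)

/-- the same with primes `p ≡ 1 mod d` (Dirichlet, or elementary via cyclotomic polynomials; Mathlib:
`Nat.exists_prime_gt_modEq_one`). -/
theorem eq_zero_of_PD_mod (q : ℚ) (d : ℕ) (hd : 1 ≤ d)
    (h : ∃ N : ℕ, ∀ p : ℕ, N ≤ p → p.Prime → p % d = 1 % d → PD p q) : q = 0 := by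
  obtain ⟨N, hN⟩ := h
  refine eq_zero_of_PD q fun M => ?_
  obtain ⟨p, hp, hlt, hmod⟩ := Nat.exists_prime_gt_modEq_one (k := d) (max N M) (by omega)
  have h1 := le_max_left N M
  have h2 := le_max_right N M
  exact ⟨p, by omega, hp, hN p (by omega) hp hmod⟩

/-- binomial coefficients of `p`-integral numbers are `p`-integral. -/
theorem PI_choose (hp : p.Prime) (q : ℚ) (hq : PI p q) (n : ℕ) : PI p (Ring.choose q n) := by
  have : Fact p.Prime := ⟨hp⟩
  have hq1 : ‖(q : ℚ_[p])‖ ≤ 1 := Padic.norm_rat_le_one hq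
  have h1 : ((Ring.choose q n : ℚ) : ℚ_[p]) = Ring.choose (q : ℚ_[p]) n :=
    Ring.map_choose (Rat.castHom ℚ_[p]) q n
  obtain ⟨x, hx⟩ : ∃ x : ℤ_[p], (x : ℚ_[p]) = (q : ℚ_[p]) := ⟨⟨(q : ℚ_[p]), hq1⟩, rfl⟩
  have h2 : ((Ring.choose x n : ℤ_[p]) : ℚ_[p]) = Ring.choose (q : ℚ_[p]) n := by
    rw [← hx]
    exact Ring.map_choose (PadicInt.Coe.ringHom (p := p)) x n
  have h3 : ‖((Ring.choose q n : ℚ) : ℚ_[p])‖ ≤ 1 := by
    rw [h1, ← h2]
    exact PadicInt.norm_le_one _
  have h4 := (Padic.norm_rat_le_one_iff_padicValuation_le_one p).1 h3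
  exact Rat.padicValuation_le_one_iff.1 h4

end PInt

end Pool.Agent.H27.KAC

end

section

/-!
KAC ADE, module AD7: `p`-integrality of the series.

`PI p q` (`q` is `p`-integral) and `PD p q` (`q ∈ p ℤ_(p)`).
-/

set_option autoImplicit false

namespace Pool.Agent.H27.KAC

open scoped BigOperators
open MvPowerSeries

section

variable {I : Type} [Fintype I] [DecidableEq I]

/-- the series has integral coefficients (it is the image of an integral series). -/
private def AD7_ZI (F : MvPowerSeries I ℚ) : Prop :=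
  ∃ G : MvPowerSeries I ℤ, MvPowerSeries.map (Int.castRingHom ℚ) G = F

omit [Fintype I] [DecidableEq I] in
private theorem AD7_ZI_one : AD7_ZI (1 : MvPowerSeries I ℚ) := ⟨1, map_one _⟩

omit [Fintype I] [DecidableEq I] in
private theorem AD7_ZI_mul {F G : MvPowerSeries I ℚ} (hF : AD7_ZI F) (hG : AD7_ZI G) :
    AD7_ZI (F * G) := by
  obtain ⟨F', rfl⟩ := hF
  obtain ⟨G', rfl⟩ := hG
  exact ⟨F' * G', map_mul _ _ _⟩

omit [Fintype I] [DecidableEq I] in
private theorem AD7_ZI_sub {F G : MvPowerSeries I ℚ} (hF : AD7_ZI F) (hG : AD7_ZI G) :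
    AD7_ZI (F - G) := by
  obtain ⟨F', rfl⟩ := hF
  obtain ⟨G', rfl⟩ := hG
  exact ⟨F' - G', map_sub _ _ _⟩

omit [Fintype I] [DecidableEq I] in
private theorem AD7_ZI_pow {F : MvPowerSeries I ℚ} (hF : AD7_ZI F) (n : ℕ) : AD7_ZI (F ^ n) := by
  obtain ⟨F', rfl⟩ := hF
  exact ⟨F' ^ n, map_pow _ _ _⟩

omit [Fintype I] [DecidableEq I] in
private theorem AD7_ZI_X (i : I) : AD7_ZI (X i : MvPowerSeries I ℚ) :=
  ⟨X i, MvPowerSeries.map_X _ _⟩

omit [Fintype I] [DecidableEq I] in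
private theorem AD7_ZI_prod {ι : Type} (s : Finset ι) (F : ι → MvPowerSeries I ℚ)
    (h : ∀ j ∈ s, AD7_ZI (F j)) : AD7_ZI (∏ j ∈ s, F j) := by
  classical
  induction s using Finset.induction_on with
  | empty => exact AD7_ZI_one
  | insert j s hj ih =>
    rw [Finset.prod_insert hj]
    exact AD7_ZI_mul (h j (Finset.mem_insert_self _ _))
      (ih fun k hk => h k (Finset.mem_insert_of_mem hk))

omit [Fintype I] [DecidableEq I] in
private theorem AD7_ZI_inv {F : MvPowerSeries I ℚ} (hF : AD7_ZI F) (hc : constantCoeff F = 1) :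
    AD7_ZI (F⁻¹) := by
  obtain ⟨F', rfl⟩ := hF
  have hc' : constantCoeff F' = 1 := by
    have h1 : ((constantCoeff F' : ℤ) : ℚ) = 1 := by
      rw [← hc]
      simp
    exact_mod_cast h1
  have hu : IsUnit F' := by
    rw [MvPowerSeries.isUnit_iff_constantCoeff, hc']
    exact isUnit_one
  obtain ⟨u, rfl⟩ := hu
  refine ⟨((u⁻¹ : (MvPowerSeries I ℤ)ˣ) : MvPowerSeries I ℤ), ?_⟩
  have h0 : constantCoeff (MvPowerSeries.map (Int.castRingHom ℚ) (u : MvPowerSeries I ℤ)) ≠ 0 := by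
    rw [hc]; exact one_ne_zero
  rw [MvPowerSeries.eq_inv_iff_mul_eq_one h0, ← map_mul, Units.inv_mul, map_one]

private theorem AD7_uS_ZI (a : I → I → ℕ) (k : ℕ) :
    (∀ i, AD7_ZI (uS a i k)) ∧ (∀ i, AD7_ZI (uS a i (k + 1))) := by
  induction k with
  | zero => exact ⟨fun i => by rw [uS_zero]; exact AD7_ZI_one, fun i => by rw [uS_one]; exact AD7_ZI_one⟩
  | succ k ih =>
    refine ⟨ih.2, fun i => ?_⟩
    have h1 : uS a i (k + 2) =
      (uS a i (k + 1) ^ 2 - (X i) ^ (k + 1) * ∏ j, uS a j (k + 1) ^ (a i j)) * (uS a i k)⁻¹ := rfl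
    change AD7_ZI (uS a i (k + 2))
    rw [h1]
    exact AD7_ZI_mul (AD7_ZI_sub (AD7_ZI_pow (ih.2 i) 2)
      (AD7_ZI_mul (AD7_ZI_pow (AD7_ZI_X i) _)
        (AD7_ZI_prod _ _ fun j _ => AD7_ZI_pow (ih.2 j) _)))
      (AD7_ZI_inv (ih.1 i) (uS_const a i k))

/-- the `U_{ik}` have integral coefficients. -/
theorem uS_int (a : I → I → ℕ) (i : I) (k : ℕ) (β : I →₀ ℕ) :
    ∃ n : ℤ, coeff β (uS a i k) = n := by
  obtain ⟨G, hG⟩ := (AD7_uS_ZI a k).1 i
  refine ⟨coeff β G, ?_⟩
  rw [← hG]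
  simp

/-- all coefficients are `p`-integral. -/
def CInt (p : ℕ) (F : MvPowerSeries I ℚ) : Prop := ∀ β : I →₀ ℕ, PI p (coeff β F)

private theorem AD7_CInt_of_ZI {p : ℕ} (hp : p.Prime) {F : MvPowerSeries I ℚ} (hF : AD7_ZI F) :
    CInt p F := by
  obtain ⟨G, rfl⟩ := hF
  intro β
  have h1 : coeff β (MvPowerSeries.map (Int.castRingHom ℚ) G) = ((coeff β G : ℤ) : ℚ) := by simp
  rw [h1]
  exact PI_int hp _

theorem CInt_mul {p : ℕ} (hp : p.Prime) {F G : MvPowerSeries I ℚ} (hF : CInt p F) (hG : CInt p G) :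
    CInt p (F * G) := by
  intro β
  rw [coeff_mul]
  exact PI_sum hp _ _ fun i _ => PI_mul hp (hF _) (hG _)

private theorem AD7_CInt_one {p : ℕ} (hp : p.Prime) : CInt p (1 : MvPowerSeries I ℚ) :=
  AD7_CInt_of_ZI hp AD7_ZI_one

private theorem AD7_CInt_add {p : ℕ} (hp : p.Prime) {F G : MvPowerSeries I ℚ} (hF : CInt p F)
    (hG : CInt p G) : CInt p (F + G) := by
  intro β
  rw [map_add]
  exact PI_add hp (hF _) (hG _)

private theorem AD7_CInt_neg {p : ℕ} {F : MvPowerSeries I ℚ} (hF : CInt p F) : CInt p (-F) := by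
  intro β
  rw [map_neg]
  exact PI_neg (hF _)

private theorem AD7_CInt_zero {p : ℕ} (hp : p.Prime) : CInt p (0 : MvPowerSeries I ℚ) := by
  intro β
  rw [map_zero]
  have h := PI_int hp 0
  rwa [Int.cast_zero] at h

private theorem AD7_CInt_C {p : ℕ} (hp : p.Prime) (q : ℚ) (hq : PI p q) :
    CInt p (C q : MvPowerSeries I ℚ) := by
  intro β
  rw [coeff_C]
  split_ifs
  · exact hq
  · have h := PI_int hp 0
    rwa [Int.cast_zero] at h

private theorem AD7_CInt_pow {p : ℕ} (hp : p.Prime) {F : MvPowerSeries I ℚ} (hF : CInt p F) (n : ℕ) :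
    CInt p (F ^ n) := by
  induction n with
  | zero => rw [pow_zero]; exact AD7_CInt_one hp
  | succ n ih => rw [pow_succ]; exact CInt_mul hp ih hF

private theorem AD7_CInt_prod {p : ℕ} (hp : p.Prime) {ι : Type} (s : Finset ι)
    (F : ι → MvPowerSeries I ℚ) (h : ∀ j ∈ s, CInt p (F j)) : CInt p (∏ j ∈ s, F j) := by
  classical
  induction s using Finset.induction_on with
  | empty => exact AD7_CInt_one hp
  | insert j s hj ih =>
    rw [Finset.prod_insert hj]
    exact CInt_mul hp (h j (Finset.mem_insert_self _ _))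
      (ih fun k hk => h k (Finset.mem_insert_of_mem hk))

private theorem AD7_CInt_sum {p : ℕ} (hp : p.Prime) {ι : Type} (s : Finset ι)
    (F : ι → MvPowerSeries I ℚ) (h : ∀ j ∈ s, CInt p (F j)) : CInt p (∑ j ∈ s, F j) := by
  classical
  induction s using Finset.induction_on with
  | empty => exact AD7_CInt_zero hp
  | insert j s hj ih =>
    rw [Finset.sum_insert hj]
    exact AD7_CInt_add hp (h j (Finset.mem_insert_self _ _))
      (ih fun k hk => h k (Finset.mem_insert_of_mem hk))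

theorem CInt_rpw {p : ℕ} (hp : p.Prime) (u : MvPowerSeries I ℚ) (hc : constantCoeff u = 1)
    (hu : CInt p u) (q : ℚ) (hq : PI p q) : CInt p (rpw u q) := by
  intro β
  have hs : PowerSeries.HasSubst (u - 1) := by
    apply PowerSeries.HasSubst.of_constantCoeff_zero
    rw [map_sub, hc, map_one, sub_self]
  rw [rpw, PowerSeries.coeff_subst hs]
  have hu1 : CInt p (u - 1) := by
    rw [sub_eq_add_neg]
    exact AD7_CInt_add hp hu (AD7_CInt_neg (AD7_CInt_one hp))
  refine finsum_induction (PI p) ?_ (fun x y hx hy => PI_add hp hx hy) fun n => ?_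
  · have h := PI_int hp 0
    rwa [Int.cast_zero] at h
  · rw [PowerSeries.binomialSeries_coeff, smul_eq_mul, smul_eq_mul, mul_one]
    exact PI_mul hp (PI_choose hp q hq n) (AD7_CInt_pow hp hu1 n β)

theorem CInt_mU {p : ℕ} (hp : p.Prime) (a : I → I → ℕ) (E : QE I) (hE : ∀ ik, PI p (E ik)) :
    CInt p (mU a E) := by
  rw [mU]
  exact AD7_CInt_prod hp _ _ fun ik _ =>
    CInt_rpw hp _ (uS_const a _ _) (AD7_CInt_of_ZI hp ((AD7_uS_ZI a _).1 _)) _ (hE ik)

private theorem AD7_CInt_xv {p : ℕ} (hp : p.Prime) (a : I → I → ℕ) (i : I) (k : ℕ) (l : I) :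
    CInt p (xv a i k l) := by
  rw [xv, dlg]
  refine AD7_CInt_add hp ?_ (CInt_mul hp ?_ ?_)
  · split_ifs
    · have h1 : ((k : MvPowerSeries I ℚ)) = C ((k : ℤ) : ℚ) := by
        rw [Int.cast_natCast, map_natCast]
      rw [h1]
      exact AD7_CInt_C hp _ (PI_int hp _)
    · exact AD7_CInt_zero hp
  · intro β
    rw [coeff_dD, uu_coe]
    refine PI_mul hp ?_ (AD7_CInt_of_ZI hp ((AD7_uS_ZI a _).1 _) β)
    have h := PI_int hp (-(cw a β l))
    push_cast at h
    exact h
  · have h1 : (((uu a i k)⁻¹ : (MvPowerSeries I ℚ)ˣ) : MvPowerSeries I ℚ) = (uS a i k)⁻¹ := by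
      have h0 : constantCoeff (uS a i k) ≠ 0 := by rw [uS_const]; exact one_ne_zero
      rw [MvPowerSeries.eq_inv_iff_mul_eq_one h0, ← uu_coe, Units.inv_mul]
    rw [h1]
    exact AD7_CInt_of_ZI hp (AD7_ZI_inv ((AD7_uS_ZI a _).1 _) (uS_const a i k))

theorem CInt_dl {p : ℕ} (hp : p.Prime) (a : I → I → ℕ) (E : QE I) (hE : ∀ ik, PI p (E ik)) (l : I) :
    CInt p (dl a E l) := by
  rw [dl]
  exact AD7_CInt_sum hp _ _ fun ik _ => CInt_mul hp (AD7_CInt_C hp _ (hE ik)) (AD7_CInt_xv hp a _ _ l)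

theorem CInt_det {p : ℕ} (hp : p.Prime) (a : I → I → ℕ) (Λ : I → QE I)
    (hΛ : ∀ j ik, PI p (Λ j ik)) : CInt p (colMat (fun i => dl a (Λ i))).det := by
  rw [Matrix.det_apply']
  refine AD7_CInt_sum hp _ _ fun σ _ => ?_
  have h1 : CInt p (∏ i, colMat (fun i => dl a (Λ i)) (σ i) i) :=
    AD7_CInt_prod hp _ _ fun i _ => CInt_dl hp a (Λ i) (hΛ i) (σ i)
  refine CInt_mul hp ?_ h1
  rcases Int.units_eq_one_or (Equiv.Perm.sign σ) with h | h
  · rw [h, Units.val_one, Int.cast_one]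
    exact AD7_CInt_one hp
  · rw [h, Units.val_neg, Units.val_one, Int.cast_neg, Int.cast_one]
    exact AD7_CInt_neg (AD7_CInt_one hp)

/-- reduction modulo `p`, coefficientwise. -/
private noncomputable def AD7_red (p : ℕ) [Fact p.Prime] (F : MvPowerSeries I ℚ) :
    MvPowerSeries I (ZMod p) := fun β => ((coeff β F : ℚ) : ZMod p)

omit [Fintype I] [DecidableEq I] in
private theorem AD7_coeff_red (p : ℕ) [Fact p.Prime] (F : MvPowerSeries I ℚ) (β : I →₀ ℕ) :
    coeff β (AD7_red p F) = ((coeff β F : ℚ) : ZMod p) := rfl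

private theorem AD7_den_ne {p : ℕ} [Fact p.Prime] {q : ℚ} (hq : PI p q) : ((q.den : ℕ) : ZMod p) ≠ 0 := by
  intro h
  exact hq ((ZMod.natCast_eq_zero_iff _ _).1 h)

private theorem AD7_cast_add {p : ℕ} [Fact p.Prime] {q r : ℚ} (hq : PI p q) (hr : PI p r) :
    ((q + r : ℚ) : ZMod p) = (q : ZMod p) + (r : ZMod p) :=
  Rat.cast_add_of_ne_zero (AD7_den_ne hq) (AD7_den_ne hr)

private theorem AD7_cast_mul {p : ℕ} [Fact p.Prime] {q r : ℚ} (hq : PI p q) (hr : PI p r) :
    ((q * r : ℚ) : ZMod p) = (q : ZMod p) * (r : ZMod p) :=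
  Rat.cast_mul_of_ne_zero (AD7_den_ne hq) (AD7_den_ne hr)

private theorem AD7_cast_sum {p : ℕ} [Fact p.Prime] {ι : Type} (s : Finset ι) (f : ι → ℚ)
    (h : ∀ i ∈ s, PI p (f i)) :
    ((∑ i ∈ s, f i : ℚ) : ZMod p) = ∑ i ∈ s, ((f i : ℚ) : ZMod p) := by
  classical
  induction s using Finset.induction_on with
  | empty => simp
  | insert j s hj ih =>
    rw [Finset.sum_insert hj, Finset.sum_insert hj,
      AD7_cast_add (h j (Finset.mem_insert_self _ _))
        (PI_sum Fact.out _ _ fun k hk => h k (Finset.mem_insert_of_mem hk)),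
      ih fun k hk => h k (Finset.mem_insert_of_mem hk)]

private theorem AD7_red_mul {p : ℕ} [Fact p.Prime] {F G : MvPowerSeries I ℚ} (hF : CInt p F)
    (hG : CInt p G) : AD7_red p (F * G) = AD7_red p F * AD7_red p G := by
  ext β
  rw [AD7_coeff_red, coeff_mul, coeff_mul,
    AD7_cast_sum _ _ fun i _ => PI_mul Fact.out (hF _) (hG _)]
  exact Finset.sum_congr rfl fun i _ => AD7_cast_mul (hF _) (hG _)

private theorem AD7_red_one {p : ℕ} [Fact p.Prime] : AD7_red p (1 : MvPowerSeries I ℚ) = 1 := by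
  ext β
  rw [AD7_coeff_red, coeff_one, coeff_one]
  split_ifs <;> simp

private theorem AD7_red_pow {p : ℕ} [Fact p.Prime] {F : MvPowerSeries I ℚ} (hF : CInt p F) (n : ℕ) :
    AD7_red p (F ^ n) = AD7_red p F ^ n := by
  induction n with
  | zero => rw [pow_zero, pow_zero, AD7_red_one]
  | succ n ih => rw [pow_succ, pow_succ, AD7_red_mul (AD7_CInt_pow Fact.out hF n) hF, ih]

private theorem AD7_PD_of_cast {p : ℕ} [Fact p.Prime] {q : ℚ} (hq : PI p q)
    (h : ((q : ℚ) : ZMod p) = 0) : PD p q := by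
  have hp : p.Prime := Fact.out
  have hn : ((q.num : ℤ) : ZMod p) = 0 := by
    rw [Rat.cast_def] at h
    rcases div_eq_zero_iff.1 h with h | h
    · exact h
    · exact absurd h (AD7_den_ne hq)
  rw [ZMod.intCast_zmod_eq_zero_iff_dvd] at hn
  obtain ⟨c, hc⟩ := hn
  have hp0 : (p : ℚ) ≠ 0 := Nat.cast_ne_zero.2 hp.ne_zero
  have hd0 : (q.den : ℚ) ≠ 0 := Nat.cast_ne_zero.2 q.den_nz
  refine ⟨(c : ℚ) / (q.den : ℚ), ?_, ?_⟩
  · intro hdv
    apply hq
    have h1 : (((c : ℚ) / (q.den : ℚ)).den : ℤ) ∣ (q.den : ℤ) := by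
      have h2 := Rat.den_dvd c (q.den : ℤ)
      rwa [Rat.divInt_eq_div, Int.cast_natCast] at h2
    exact hdv.trans (Int.natCast_dvd_natCast.1 h1)
  · have h1 : q = (q.num : ℚ) / (q.den : ℚ) := (Rat.num_div_den q).symm
    conv_lhs => rw [h1]
    rw [hc]
    push_cast
    ring

/-- the `p`-th power of a `p`-integral series: `F^p ≡ F(Y^p)`. -/
theorem coeff_pow_prime {p : ℕ} (hp : p.Prime) (F : MvPowerSeries I ℚ) (hF : CInt p F)
    (β : I →₀ ℕ) : PD p (coeff (p • β) (F ^ p) - coeff β F) := by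
  haveI : Fact p.Prime := ⟨hp⟩
  have h1 : PI p (coeff (p • β) (F ^ p)) := AD7_CInt_pow hp hF p _
  have h2 : PI p (coeff β F) := hF β
  apply AD7_PD_of_cast (by rw [sub_eq_add_neg]; exact PI_add hp h1 (PI_neg h2))
  rw [sub_eq_add_neg, AD7_cast_add h1 (PI_neg h2), ← AD7_coeff_red, AD7_red_pow hF, Rat.cast_neg,
    ← AD7_coeff_red p F, ← MvPowerSeries.map_frobenius_expand p hp.ne_zero, coeff_map,
    coeff_expand_smul, ZMod.frobenius_zmod, RingHom.id_apply, add_neg_cancel]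

theorem coeff_pow_prime_of_not {p : ℕ} (hp : p.Prime) (F : MvPowerSeries I ℚ) (hF : CInt p F)
    (β : I →₀ ℕ) (hβ : ¬ ∃ β' : I →₀ ℕ, β = p • β') : PD p (coeff β (F ^ p)) := by
  haveI : Fact p.Prime := ⟨hp⟩
  apply AD7_PD_of_cast (AD7_CInt_pow hp hF p _)
  have h3 : ∃ i, ¬ p ∣ β i := by
    by_contra hcon
    push Not at hcon
    apply hβ
    refine ⟨Finsupp.equivFunOnFinite.symm fun i => β i / p, ?_⟩
    ext i
    simp [Nat.mul_div_cancel' (hcon i)]
  obtain ⟨i, hi⟩ := h3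
  rw [← AD7_coeff_red, AD7_red_pow hF, ← MvPowerSeries.map_frobenius_expand p hp.ne_zero, coeff_map,
    coeff_expand_of_not_dvd p hp.ne_zero _ hi, map_zero]

end

end Pool.Agent.H27.KAC

end

section

/-!
KAC ADE, module AD8a: truncated Euler product.

Proof.  Fix the degree bound `N = p * tdeg g`.  Every power series `u` with integral coefficients and constant coefficient
one is a finite product `∏_{0 < |b| ≤ N} (1 - Y^b)^{c_b}` (`c_b ∈ ℤ`) modulo terms of degree `> N` (induction on the degree), hence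
`dlg a u l = ∑_b c_b (C b)_l ∑_{k ≥ 1} Y^{k b}` modulo degree `> N`   (`D_l Y^b = -(Cb)_l Y^b`, file KQDer: `coeff_dD`).
By multilinearity (all coefficients of the columns are `p`-integral) it suffices to treat a determinant whose `i`-th column is
either a constant integral vector `v_i` or `v_i ∑_{k ≥ 1} Y^{k b_i}` with `v_i = C b_i`.  Its coefficient at `g` is
`det (v) * #{(k_i) : k_i ≥ 1, ∑ k_i b_i = g}`.  If `p ∣ det v` both sides are divisible by `p`.  Otherwise the `v_i` are linearly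
independent modulo `p`, and `∑ k_i b_i = p g` gives `∑ k_i v_i = p C g ≡ 0`, so `p ∣ k_i`: the two numbers are equal.
-/

set_option autoImplicit false

namespace Pool.Agent.H27.KAC

open scoped BigOperators
open MvPowerSeries

section

variable {I : Type} [Fintype I] [DecidableEq I]

open Classical in
/-- `∑_{k ≥ 1} Y^{k b}`. -/
private noncomputable def AD8a_G (b : I →₀ ℕ) : MvPowerSeries I ℚ :=
  fun β => if ∃ k : ℕ, 1 ≤ k ∧ β = k • b then 1 else 0

private theorem AD8a_tdeg_add (b c : I →₀ ℕ) : tdeg (b + c) = tdeg b + tdeg c := by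
  simp [tdeg, Finset.sum_add_distrib]

private theorem AD8a_tdeg_eq_zero {b : I →₀ ℕ} (h : tdeg b = 0) : b = 0 := by
  ext i
  have := (Finset.sum_eq_zero_iff.1 (show ∑ i, b i = 0 from h)) i (Finset.mem_univ i)
  simpa using this

private theorem AD8a_tdeg_zero : tdeg (0 : I →₀ ℕ) = 0 := by simp [tdeg]

/-- coefficients of `F` are those of `1` up to degree `N`. -/
private def AD8a_Low (N : ℕ) (F : MvPowerSeries I ℤ) : Prop :=
  ∀ β : I →₀ ℕ, tdeg β ≤ N → coeff β F = if β = 0 then 1 else 0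

private theorem AD8a_mulL {N : ℕ} {F : MvPowerSeries I ℤ} (hF : AD8a_Low N F)
    (G : MvPowerSeries I ℤ) (β : I →₀ ℕ) (hβ : tdeg β ≤ N) : coeff β (F * G) = coeff β G := by
  rw [coeff_mul, Finset.sum_eq_single ((0 : I →₀ ℕ), β)]
  · have := hF 0 (by rw [AD8a_tdeg_zero]; exact Nat.zero_le _)
    rw [this, if_pos rfl, one_mul]
  · intro p hp hne
    have hpq : p.1 + p.2 = β := Finset.HasAntidiagonal.mem_antidiagonal.1 hp
    have h1 : p.1 ≠ 0 := by
      intro h0
      apply hne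
      rw [h0, zero_add] at hpq
      exact Prod.ext h0 hpq
    have h2 : tdeg p.1 ≤ N := by
      have := AD8a_tdeg_add p.1 p.2
      rw [hpq] at this
      omega
    rw [hF p.1 h2, if_neg h1, zero_mul]
  · intro h
    exact absurd (Finset.HasAntidiagonal.mem_antidiagonal.2 (zero_add β)) h

private theorem AD8a_mulS {N : ℕ} {F G : MvPowerSeries I ℤ} (hF : AD8a_Low N F)
    (hG : AD8a_Low N G) (β : I →₀ ℕ) (hβ : tdeg β = N + 1) :
    coeff β (F * G) = coeff β F + coeff β G := by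
  have hβ0 : β ≠ 0 := by
    intro h
    rw [h, AD8a_tdeg_zero] at hβ
    omega
  have hne : ((0 : I →₀ ℕ), β) ≠ (β, (0 : I →₀ ℕ)) := by
    intro h
    exact hβ0 (Prod.ext_iff.1 h).2
  have h0 : tdeg (0 : I →₀ ℕ) ≤ N := by rw [AD8a_tdeg_zero]; exact Nat.zero_le _
  rw [coeff_mul, Finset.sum_eq_add ((0 : I →₀ ℕ), β) (β, (0 : I →₀ ℕ)) hne]
  · rw [hF 0 h0, hG 0 h0, if_pos rfl, one_mul, mul_one, add_comm]
  · intro p hp hne'
    have hpq : p.1 + p.2 = β := Finset.HasAntidiagonal.mem_antidiagonal.1 hp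
    have h1 : p.1 ≠ 0 := by
      intro h0
      apply hne'.1
      rw [h0, zero_add] at hpq
      exact Prod.ext h0 hpq
    have h2 : p.2 ≠ 0 := by
      intro h0
      apply hne'.2
      rw [h0, add_zero] at hpq
      exact Prod.ext hpq h0
    have h3 : tdeg p.1 ≤ N := by
      have e := AD8a_tdeg_add p.1 p.2
      rw [hpq] at e
      have : tdeg p.2 ≠ 0 := fun h => h2 (AD8a_tdeg_eq_zero h)
      omega
    rw [hF p.1 h3, if_neg h1, zero_mul]
  · intro h
    exact absurd (Finset.HasAntidiagonal.mem_antidiagonal.2 (zero_add β)) h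
  · intro h
    exact absurd (Finset.HasAntidiagonal.mem_antidiagonal.2 (add_zero β)) h

private theorem AD8a_low_one (N : ℕ) : AD8a_Low N (1 : MvPowerSeries I ℤ) := by
  intro β _
  rw [coeff_one]

private theorem AD8a_low_mul {N : ℕ} {F G : MvPowerSeries I ℤ} (hF : AD8a_Low N F)
    (hG : AD8a_Low N G) : AD8a_Low N (F * G) := by
  intro β hβ
  rw [AD8a_mulL hF G β hβ, hG β hβ]

private theorem AD8a_low_inv {N : ℕ} (u : (MvPowerSeries I ℤ)ˣ)
    (hu : AD8a_Low N (u : MvPowerSeries I ℤ)) :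
    AD8a_Low N ((u⁻¹ : (MvPowerSeries I ℤ)ˣ) : MvPowerSeries I ℤ) := by
  intro β hβ
  rw [← AD8a_mulL hu _ β hβ, Units.mul_inv, coeff_one]

private theorem AD8a_coeff_inv {N : ℕ} (u : (MvPowerSeries I ℤ)ˣ)
    (hu : AD8a_Low N (u : MvPowerSeries I ℤ)) (β : I →₀ ℕ) (hβ : tdeg β = N + 1) :
    coeff β ((u⁻¹ : (MvPowerSeries I ℤ)ˣ) : MvPowerSeries I ℤ) =
      - coeff β (u : MvPowerSeries I ℤ) := by
  have h := AD8a_mulS hu (AD8a_low_inv u hu) β hβ
  rw [Units.mul_inv, coeff_one, if_neg] at h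
  · linarith
  · intro h0
    rw [h0, AD8a_tdeg_zero] at hβ
    omega

private theorem AD8a_pow {N : ℕ} (u : (MvPowerSeries I ℤ)ˣ)
    (hu : AD8a_Low N (u : MvPowerSeries I ℤ)) (n : ℕ) :
    AD8a_Low N ((u ^ n : (MvPowerSeries I ℤ)ˣ) : MvPowerSeries I ℤ) ∧
      ∀ β : I →₀ ℕ, tdeg β = N + 1 →
        coeff β ((u ^ n : (MvPowerSeries I ℤ)ˣ) : MvPowerSeries I ℤ) =
          n * coeff β (u : MvPowerSeries I ℤ) := by
  induction n with
  | zero =>
    refine ⟨by rw [pow_zero, Units.val_one]; exact AD8a_low_one N, fun β hβ => ?_⟩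
    rw [pow_zero, Units.val_one, coeff_one, if_neg]
    · simp
    · intro h0
      rw [h0, AD8a_tdeg_zero] at hβ
      omega
  | succ n ih =>
    rw [pow_succ, Units.val_mul]
    refine ⟨AD8a_low_mul ih.1 hu, fun β hβ => ?_⟩
    rw [AD8a_mulS ih.1 hu β hβ, ih.2 β hβ]
    push_cast
    ring

private theorem AD8a_zpow {N : ℕ} (u : (MvPowerSeries I ℤ)ˣ)
    (hu : AD8a_Low N (u : MvPowerSeries I ℤ)) (n : ℤ) :
    AD8a_Low N ((u ^ n : (MvPowerSeries I ℤ)ˣ) : MvPowerSeries I ℤ) ∧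
      ∀ β : I →₀ ℕ, tdeg β = N + 1 →
        coeff β ((u ^ n : (MvPowerSeries I ℤ)ˣ) : MvPowerSeries I ℤ) =
          n * coeff β (u : MvPowerSeries I ℤ) := by
  cases n with
  | ofNat n =>
    rw [Int.ofNat_eq_natCast, zpow_natCast]
    exact ⟨(AD8a_pow u hu n).1, fun β hβ => by exact_mod_cast (AD8a_pow u hu n).2 β hβ⟩
  | negSucc n =>
    rw [zpow_negSucc]
    have h := AD8a_pow u hu (n + 1)
    refine ⟨AD8a_low_inv _ h.1, fun β hβ => ?_⟩
    rw [AD8a_coeff_inv _ h.1 β hβ, h.2 β hβ, Int.negSucc_eq]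
    push_cast
    ring

private theorem AD8a_wunit (b : I →₀ ℕ) (hb : b ≠ 0) :
    IsUnit ((1 : MvPowerSeries I ℤ) - monomial b 1) := by
  rw [MvPowerSeries.isUnit_iff_constantCoeff]
  have : constantCoeff ((1 : MvPowerSeries I ℤ) - monomial b 1) = 1 := by
    rw [← coeff_zero_eq_constantCoeff_apply, map_sub, coeff_one, if_pos rfl, coeff_monomial,
      if_neg (fun h => hb h.symm), sub_zero]
  rw [this]
  exact isUnit_one

open Classical in
/-- `1 - Y^b` as a unit. -/
private noncomputable def AD8a_w (b : I →₀ ℕ) : (MvPowerSeries I ℤ)ˣ :=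
  if hb : b ≠ 0 then (AD8a_wunit b hb).unit else 1

private theorem AD8a_w_coe (b : I →₀ ℕ) (hb : b ≠ 0) :
    ((AD8a_w b : (MvPowerSeries I ℤ)ˣ) : MvPowerSeries I ℤ) = 1 - monomial b 1 := by
  unfold AD8a_w
  rw [dif_pos hb]
  rfl

private theorem AD8a_w_low {N : ℕ} (b : I →₀ ℕ) (hb : tdeg b = N + 1) :
    AD8a_Low N ((AD8a_w b : (MvPowerSeries I ℤ)ˣ) : MvPowerSeries I ℤ) ∧
      ∀ β : I →₀ ℕ, tdeg β = N + 1 →
        coeff β ((AD8a_w b : (MvPowerSeries I ℤ)ˣ) : MvPowerSeries I ℤ) =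
          if β = b then -1 else 0 := by
  have hb0 : b ≠ 0 := by
    intro h
    rw [h, AD8a_tdeg_zero] at hb
    omega
  rw [AD8a_w_coe b hb0]
  constructor
  · intro β hβ
    rw [map_sub, coeff_one, coeff_monomial, if_neg (c := β = b), sub_zero]
    intro h
    rw [h] at hβ
    omega
  · intro β hβ
    rw [map_sub, coeff_one, coeff_monomial, if_neg (c := β = 0)]
    · split_ifs <;> simp
    · intro h
      rw [h, AD8a_tdeg_zero] at hβ
      omega

private theorem AD8a_prod {N : ℕ} (c : (I →₀ ℕ) → ℤ) (S : Finset (I →₀ ℕ))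
    (hS : ∀ b ∈ S, tdeg b = N + 1) :
    AD8a_Low N ((∏ b ∈ S, AD8a_w b ^ c b : (MvPowerSeries I ℤ)ˣ) : MvPowerSeries I ℤ) ∧
      ∀ β : I →₀ ℕ, tdeg β = N + 1 →
        coeff β ((∏ b ∈ S, AD8a_w b ^ c b : (MvPowerSeries I ℤ)ˣ) : MvPowerSeries I ℤ) =
          if β ∈ S then - c β else 0 := by
  classical
  induction S using Finset.induction_on with
  | empty =>
    refine ⟨by rw [Finset.prod_empty, Units.val_one]; exact AD8a_low_one N, fun β hβ => ?_⟩
    rw [Finset.prod_empty, Units.val_one, coeff_one, if_neg, if_neg (by simp)]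
    intro h
    rw [h, AD8a_tdeg_zero] at hβ
    omega
  | insert b S hb ih =>
    have ih' := ih (fun x hx => hS x (Finset.mem_insert_of_mem hx))
    have hw := AD8a_w_low b (hS b (Finset.mem_insert_self b S))
    have hz := AD8a_zpow (AD8a_w b) hw.1 (c b)
    rw [Finset.prod_insert hb, Units.val_mul]
    refine ⟨AD8a_low_mul hz.1 ih'.1, fun β hβ => ?_⟩
    rw [AD8a_mulS hz.1 ih'.1 β hβ, hz.2 β hβ, hw.2 β hβ, ih'.2 β hβ]
    by_cases h1 : β = b
    · subst h1
      rw [if_pos rfl, if_neg hb, if_pos (Finset.mem_insert_self _ _)]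
      ring
    · rw [if_neg h1, mul_zero, zero_add]
      by_cases h2 : β ∈ S
      · rw [if_pos h2, if_pos (Finset.mem_insert_of_mem h2)]
      · rw [if_neg h2, if_neg]
        intro h
        rcases Finset.mem_insert.1 h with h | h
        · exact h1 h
        · exact h2 h

/-- coefficient extension to `ℚ`. -/
private noncomputable def AD8a_m : (MvPowerSeries I ℤ)ˣ →* (MvPowerSeries I ℚ)ˣ :=
  Units.map ((MvPowerSeries.map (Int.castRingHom ℚ) : MvPowerSeries I ℤ →+* MvPowerSeries I ℚ) :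
    MvPowerSeries I ℤ →* MvPowerSeries I ℚ)

private theorem AD8a_m_coe (u : (MvPowerSeries I ℤ)ˣ) :
    ((AD8a_m u : (MvPowerSeries I ℚ)ˣ) : MvPowerSeries I ℚ) =
      MvPowerSeries.map (Int.castRingHom ℚ) (u : MvPowerSeries I ℤ) := rfl

private theorem AD8a_dlg_w (a : I → I → ℕ) (b : I →₀ ℕ) (hb : b ≠ 0) (l : I) :
    dlg a (AD8a_m (AD8a_w b)) l = C ((cw a b l : ℤ) : ℚ) * AD8a_G b := by
  classical
  have hW : ((AD8a_m (AD8a_w b) : (MvPowerSeries I ℚ)ˣ) : MvPowerSeries I ℚ) =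
      1 - monomial b 1 := by
    rw [AD8a_m_coe, AD8a_w_coe b hb, map_sub, map_one, MvPowerSeries.map_monomial]
    simp
  have hmul : ((AD8a_m (AD8a_w b) : (MvPowerSeries I ℚ)ˣ) : MvPowerSeries I ℚ) * AD8a_G b =
      monomial b 1 := by
    rw [hW, sub_mul, one_mul]
    ext β
    rw [map_sub, coeff_monomial_mul, coeff_monomial]
    have hG : ∀ γ : I →₀ ℕ, coeff γ (AD8a_G b) =
        if ∃ k : ℕ, 1 ≤ k ∧ γ = k • b then (1 : ℚ) else 0 := fun _ => rfl
    by_cases h1 : β = b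
    · subst h1
      rw [if_pos rfl, if_pos le_rfl, tsub_self, hG, hG, if_pos ⟨1, le_rfl, (one_smul _ _).symm⟩,
        if_neg]
      · ring
      · rintro ⟨k, hk, h0⟩
        have hk0 : k ≠ 0 := by omega
        rcases smul_eq_zero.1 h0.symm with h | h
        · exact hk0 h
        · exact hb h
    · rw [if_neg h1]
      by_cases h2 : ∃ k : ℕ, 1 ≤ k ∧ β = k • b
      · obtain ⟨k, hk, rfl⟩ := h2
        have hk2 : 2 ≤ k := by
          by_contra hlt
          have : k = 1 := by omega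
          apply h1
          rw [this, one_smul]
        have hle : b ≤ k • b := by
          obtain ⟨j, rfl⟩ : ∃ j, k = j + 1 := ⟨k - 1, by omega⟩
          rw [add_smul, one_smul]
          exact le_add_self
        have hsub : k • b - b = (k - 1) • b := by
          obtain ⟨j, rfl⟩ : ∃ j, k = j + 1 := ⟨k - 1, by omega⟩
          rw [add_smul, one_smul, add_tsub_cancel_right, Nat.add_sub_cancel]
        rw [if_pos hle, hsub, hG, hG, if_pos ⟨k, hk, rfl⟩, if_pos ⟨k - 1, by omega, rfl⟩]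
        ring
      · rw [hG, if_neg h2]
        by_cases hle : b ≤ β
        · rw [if_pos hle, hG, if_neg]
          · ring
          · rintro ⟨k, hk, hkb⟩
            apply h2
            refine ⟨k + 1, by omega, ?_⟩
            rw [add_smul, one_smul, ← hkb, tsub_add_cancel_of_le hle]
        · rw [if_neg hle]
          ring
  have hD : dD a l ((AD8a_m (AD8a_w b) : (MvPowerSeries I ℚ)ˣ) : MvPowerSeries I ℚ) =
      C ((cw a b l : ℤ) : ℚ) * monomial b 1 := by
    rw [hW, dD_sub, dD_one]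
    ext β
    rw [map_sub, coeff_dD, coeff_C_mul, coeff_monomial]
    by_cases h : β = b
    · subst h
      rw [if_pos rfl]
      simp
    · rw [if_neg h]
      simp
  unfold dlg
  rw [hD, ← hmul]
  have hu := Units.mul_inv (AD8a_m (AD8a_w b))
  linear_combination (C ((cw a b l : ℤ) : ℚ) * AD8a_G b) * hu

private theorem AD8a_dlg_low (a : I → I → ℕ) (v : (MvPowerSeries I ℤ)ˣ) (N : ℕ)
    (hv : AD8a_Low N (v : MvPowerSeries I ℤ)) (β : I →₀ ℕ) (l : I) (hβ : tdeg β ≤ N) :
    coeff β (dlg a (AD8a_m v) l) = 0 := by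
  unfold dlg
  rw [coeff_mul]
  refine Finset.sum_eq_zero fun p hp => ?_
  have hpq : p.1 + p.2 = β := Finset.HasAntidiagonal.mem_antidiagonal.1 hp
  have h2 : tdeg p.1 ≤ N := by
    have := AD8a_tdeg_add p.1 p.2
    rw [hpq] at this
    omega
  rw [coeff_dD, AD8a_m_coe, coeff_map, hv p.1 h2]
  by_cases h0 : p.1 = 0
  · rw [h0, cw_zero]
    simp
  · rw [if_neg h0]
    simp

private theorem AD8a_main (a : I → I → ℕ) (u : (MvPowerSeries I ℤ)ˣ)
    (hc : coeff 0 (u : MvPowerSeries I ℤ) = 1) (N : ℕ) :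
    ∃ (v : (MvPowerSeries I ℤ)ˣ) (B : Finset (I →₀ ℕ)) (c : (I →₀ ℕ) → ℤ), (∀ b ∈ B, b ≠ 0) ∧
      AD8a_Low N (v : MvPowerSeries I ℤ) ∧
      ∀ l : I, dlg a (AD8a_m u) l = dlg a (AD8a_m v) l +
        ∑ b ∈ B, (c b : MvPowerSeries I ℚ) * dlg a (AD8a_m (AD8a_w b)) l := by
  classical
  induction N with
  | zero =>
    refine ⟨u, ∅, fun _ => 0, by simp, ?_, by simp⟩
    intro β hβ
    have h0 : β = 0 := AD8a_tdeg_eq_zero (by omega)
    subst h0
    rw [hc, if_pos rfl]
  | succ N ih =>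
    obtain ⟨v, B, c, hB, hv, hd⟩ := ih
    set S : Finset (I →₀ ℕ) := Finset.finsuppAntidiag Finset.univ (N + 1) with hS
    have hmem : ∀ b : I →₀ ℕ, b ∈ S ↔ tdeg b = N + 1 := by
      intro b
      rw [hS, Finset.mem_finsuppAntidiag]
      constructor
      · intro h
        exact h.1
      · intro h
        exact ⟨h, Finset.subset_univ _⟩
    have hSt : ∀ b ∈ S, tdeg b = N + 1 := fun b hb => (hmem b).1 hb
    have hP := AD8a_prod (fun b => coeff b (v : MvPowerSeries I ℤ)) S hSt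
    refine ⟨v * ∏ b ∈ S, AD8a_w b ^ (coeff b (v : MvPowerSeries I ℤ)), B ∪ S,
      fun b => (if b ∈ B then c b else 0) -
        (if b ∈ S then coeff b (v : MvPowerSeries I ℤ) else 0), ?_, ?_, ?_⟩
    · intro b hb
      rcases Finset.mem_union.1 hb with h | h
      · exact hB b h
      · intro h0
        have := hSt b h
        rw [h0, AD8a_tdeg_zero] at this
        omega
    · intro β hβ
      rw [Units.val_mul]
      rcases Nat.lt_or_ge (tdeg β) (N + 1) with h | h
      · exact AD8a_low_mul hv hP.1 β (by omega)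
      · have hβ' : tdeg β = N + 1 := by omega
        rw [AD8a_mulS hv hP.1 β hβ', hP.2 β hβ', if_pos ((hmem β).2 hβ'), if_neg]
        · ring
        · intro h0
          rw [h0, AD8a_tdeg_zero] at hβ'
          omega
    · intro l
      have h1 : dlg a (AD8a_m (v * ∏ b ∈ S, AD8a_w b ^ (coeff b (v : MvPowerSeries I ℤ)))) l =
          dlg a (AD8a_m v) l + ∑ b ∈ S, ((coeff b (v : MvPowerSeries I ℤ) : ℤ) :
            MvPowerSeries I ℚ) * dlg a (AD8a_m (AD8a_w b)) l := by
        rw [map_mul, dlg_mul, map_prod, dlg_prod]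
        congr 1
        refine Finset.sum_congr rfl fun b _ => ?_
        rw [map_zpow, dlg_zpow]
      have h2 : ∑ b ∈ B ∪ S, (((if b ∈ B then c b else 0) -
          (if b ∈ S then coeff b (v : MvPowerSeries I ℤ) else 0) : ℤ) : MvPowerSeries I ℚ) *
            dlg a (AD8a_m (AD8a_w b)) l =
          ∑ b ∈ B, (c b : MvPowerSeries I ℚ) * dlg a (AD8a_m (AD8a_w b)) l -
          ∑ b ∈ S, ((coeff b (v : MvPowerSeries I ℤ) : ℤ) :
            MvPowerSeries I ℚ) * dlg a (AD8a_m (AD8a_w b)) l := by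
        have e : ∀ b ∈ B ∪ S, (((if b ∈ B then c b else 0) -
          (if b ∈ S then coeff b (v : MvPowerSeries I ℤ) else 0) : ℤ) : MvPowerSeries I ℚ) *
            dlg a (AD8a_m (AD8a_w b)) l =
            (if b ∈ B then (c b : MvPowerSeries I ℚ) * dlg a (AD8a_m (AD8a_w b)) l else 0) -
            (if b ∈ S then ((coeff b (v : MvPowerSeries I ℤ) : ℤ) :
            MvPowerSeries I ℚ) * dlg a (AD8a_m (AD8a_w b)) l else 0) := by
          intro b _
          by_cases hb1 : b ∈ B <;> by_cases hb2 : b ∈ S <;> simp [hb1, hb2, sub_mul]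
        rw [Finset.sum_congr rfl e, Finset.sum_sub_distrib, Finset.sum_ite_mem,
          Finset.sum_ite_mem, Finset.union_inter_cancel_left, Finset.union_inter_cancel_right]
      rw [h1, h2, hd l]
      ring

open Classical in
/-- truncated Euler product, logarithmic derivative version: for every bound `N` there are integers `c_b`
(`0 < tdeg b ≤ N`) with `D_l u / u = ∑ c_b (C b)_l ∑_k Y^{k b}` up to degree `N`. -/
theorem dlg_euler (a : I → I → ℕ) (u : (MvPowerSeries I ℚ)ˣ)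
    (hc : constantCoeff (u : MvPowerSeries I ℚ) = 1)
    (hu : ∀ β : I →₀ ℕ, ∃ n : ℤ, coeff β (u : MvPowerSeries I ℚ) = n) (N : ℕ) :
    ∃ (B : Finset (I →₀ ℕ)) (c : (I →₀ ℕ) → ℤ), (∀ b ∈ B, b ≠ 0) ∧
      ∀ (β : I →₀ ℕ) (l : I), tdeg β ≤ N →
        coeff β (dlg a u l) = ∑ b ∈ B, (c b : ℚ) * (cw a b l : ℚ) *
          (if ∃ k : ℕ, 1 ≤ k ∧ β = k • b then 1 else 0) := by
  choose n hn using hu
  let z : MvPowerSeries I ℤ := fun β => n β
  have hz : ∀ β, coeff β z = n β := fun _ => rfl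
  have hmap : MvPowerSeries.map (Int.castRingHom ℚ) z = (u : MvPowerSeries I ℚ) := by
    ext β
    rw [coeff_map, hz, hn]
    rfl
  have hz0 : coeff 0 z = 1 := by
    rw [hz]
    have h1 : ((n 0 : ℤ) : ℚ) = 1 := by
      rw [← hn 0, coeff_zero_eq_constantCoeff_apply, hc]
    exact_mod_cast h1
  have hzu : IsUnit z := by
    rw [MvPowerSeries.isUnit_iff_constantCoeff, ← coeff_zero_eq_constantCoeff_apply, hz0]
    exact isUnit_one
  have hu' : u = AD8a_m hzu.unit := by
    apply Units.ext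
    rw [AD8a_m_coe, IsUnit.unit_spec, hmap]
  obtain ⟨v, B, c, hB, hv, hd⟩ := AD8a_main a hzu.unit hz0 N
  refine ⟨B, c, hB, fun β l hβ => ?_⟩
  rw [hu', hd l, map_add, AD8a_dlg_low a v N hv β l hβ, zero_add, map_sum]
  refine Finset.sum_congr rfl fun b hb => ?_
  rw [AD8a_dlg_w a b (hB b hb) l]
  have hcC : ((c b : ℤ) : MvPowerSeries I ℚ) = C ((c b : ℤ) : ℚ) := by
    rw [map_intCast]
  rw [hcC, coeff_C_mul, coeff_C_mul, mul_assoc]
  rfl

end

end Pool.Agent.H27.KAC

end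

section

/-!
KAC, ADE clusters: crossing data, patterns, windows, response families (definitions).
-/

set_option autoImplicit false

namespace Pool.Agent.H27.KAC

open scoped BigOperators

section

variable {I : Type} [Fintype I] [DecidableEq I]

/-- Crossing data: `mm A` = length of the zero run plus one (Coxeter number), `eps A q = ±1`. -/
structure CrossData (a : I → I → ℕ) where
  mm : Finset I → ℕ
  eps : Finset I → (I → ℚ) → ℚ
  two_le : ∀ A, 2 ≤ mm A
  eps_sq : ∀ A q, eps A q = 1 ∨ eps A q = -1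
  eps_congr : ∀ A q q', (∀ x ∈ A, IsZ (q x - q' x)) → eps A q = eps A q'
  integral : ∀ A q, FinT a A → ConnS a A → (∀ x ∈ A, IsZ (cqN a A q x)) → ∀ x ∈ A, IsZ (mm A * q x)
  rv : ∀ A, FinT a A → ConnS a A → ∀ (s : ℕ) (q : I → ℚ), QOk a A q → ∀ T : Trm I, RReg A T →
    ∀ y ∈ A, ∀ l, s + 1 ≤ l → l + 1 ≤ s + mm A → 1 ≤ T.E (y, l) → TV a (tauT a A s q T) = 0
  cr : ∀ A, FinT a A → ConnS a A → ∀ (k : ℕ) (q : I → ℚ), QOk a A q → ∀ T : Trm I, RReg A T →
    mm A ≤ k → TV a (upT a A k q T) = eps A q * TV a (tauT a A (k - mm A) q T)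
  cr0 : ∀ A, FinT a A → ConnS a A → ∀ (k : ℕ) (q : I → ℚ), QOk a A q → ∀ T : Trm I, RReg A T →
    1 ≤ k → k < mm A → TV a (upT a A k q T) = 0

/-- a pattern: a level and an insertion exponent for every vertex. -/
@[ext]
structure Pat (I : Type) where
  s : I → ℕ
  q : I → ℚ

/-- the pattern `π` on `B`: insertion `∏ η_{x,s_x}^{-q_x}`, columns `(x, s_x + 1)`, `x ∈ B`. -/
noncomputable def patT (a : I → I → ℕ) (B : Finset I) (π : Pat I) (T : Trm I) : Trm I :=
  (T.etaM a π.s (fun i => -resQ B π.q i)).cols B (fun x => sy x (π.s x + 1))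

/-- formal linear combinations of patterns. -/
abbrev FFn (I : Type) := List (ℚ × Pat I)

/-- value of a formal functional on `B`. -/
noncomputable def evF (a : I → I → ℕ) (B : Finset I) (Φ : FFn I) (T : Trm I) : ℚ :=
  (Φ.map (fun c => c.1 * TV a (patT a B c.2 T))).sum

/-- scalar multiple. -/
def smF (r : ℚ) (Φ : FFn I) : FFn I := Φ.map (fun c => (r * c.1, c.2))

/-- joint value of several formal functionals on disjoint sets. -/
noncomputable def evU (a : I → I → ℕ) : List (Finset I × FFn I) → Trm I → ℚ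
  | [], T => TV a T
  | b :: U, T => (b.2.map (fun c => c.1 * evU a U (patT a b.1 c.2 T))).sum

/-- gluing of two patterns: the first one on `B`, the second one elsewhere. -/
def glue (B : Finset I) (π π' : Pat I) : Pat I :=
  ⟨fun i => if i ∈ B then π.s i else π'.s i, fun i => if i ∈ B then π.q i else π'.q i⟩

/-- product of formal functionals (the first one lives on `B`). -/
def mulF (B : Finset I) (Φ Ψ : FFn I) : FFn I :=
  Φ.flatMap (fun c => Ψ.map (fun d => (c.1 * d.1, glue B c.2 d.2)))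

/-- product over a list of blocks. -/
def prodF : List (Finset I × FFn I) → FFn I
  | [] => [(1, ⟨fun _ => 0, fun _ => 0⟩)]
  | b :: U => mulF b.1 b.2 (prodF U)

/-- the union of the blocks. -/
def uni (U : List (Finset I × FFn I)) : Finset I := U.foldr (fun b S => b.1 ∪ S) ∅

/-- the vertices of `B` with insertion. -/
def insS (B : Finset I) (π : Pat I) : Finset I := B.filter (fun x => π.q x ≠ 0)

/-- basic validity of a pattern: on the components of the insertion set the level is constant and the insertion is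
admissible. -/
structure PatOk (a : I → I → ℕ) (B : Finset I) (π : Pat I) : Prop where
  qok : ∀ A ∈ comps a (insS B π), QOk a A π.q
  lev : ∀ A ∈ comps a (insS B π), ∀ x ∈ A, ∀ y ∈ A, π.s x = π.s y

/-- wide window at the frontier `f`: `s ≤ f ≤ s + m`. -/
structure PatWide (a : I → I → ℕ) (cd : CrossData a) (B : Finset I) (f : ℕ) (π : Pat I) : Prop
    extends PatOk a B π where
  le : ∀ A ∈ comps a (insS B π), ∀ x ∈ A, π.s x ≤ f
  ge : ∀ A ∈ comps a (insS B π), ∀ x ∈ A, f ≤ π.s x + cd.mm A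

/-- a pattern of a functional family of class `q` at the frontier `f`. -/
structure WinPat (a : I → I → ℕ) (cd : CrossData a) (B : Finset I) (q : I → ℚ) (f : ℕ)
    (π : Pat I) : Prop extends PatOk a B π where
  le : ∀ A ∈ comps a (insS B π), ∀ x ∈ A, π.s x ≤ f
  ge : ∀ A ∈ comps a (insS B π), ∀ x ∈ A, f < π.s x + cd.mm A
  sle : ∀ x ∈ B, π.q x = 0 → π.s x ≤ f
  sge : ∀ x ∈ B, π.q x = 0 → f < π.s x + 2
  cls : ∀ x ∈ B, IsZ (π.q x - q x)

/-- A response family on `B` (class `q`, weights `w`, frontiers `0 ≤ f ≤ K`). -/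
structure Resp (a : I → I → ℕ) (cd : CrossData a) (B : Finset I) (q : I → ℚ) (K : ℕ)
    (w : ℕ → ℚ) (Φ : ℕ → FFn I) : Prop where
  win : ∀ f, f ≤ K → ∀ c ∈ Φ f, WinPat a cd B q f c.2
  a0 : ∀ T : Trm I, RReg B T → evF a B (Φ 0) T = w 0 * TV a (tauT a B 0 q T)
  stp : ∀ f, 1 ≤ f → f ≤ K → ∀ T : Trm I, RReg B T →
    evF a B (Φ f) T - evF a B (Φ (f - 1)) T = w f * Rv a B f q T
  knk : ∀ f, 1 ≤ f → f ≤ K → ∀ T : Trm I, RReg B T → Kink B f T →
    evF a B (Φ f) T = w f * TV a (tauT a B f q T)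

/-- affine functions of the level. -/
def Aff (u : ℕ → ℚ) : Prop := ∃ α κ : ℚ, ∀ l : ℕ, u l = α + κ * l

/-- the family of a single vertex with affine weight `u`: at the frontier `f` the column is
`u f (x, f+1) - u (f+1) (x, f)`. -/
def alU (u : ℕ → ℚ) (f : ℕ) : FFn I :=
  if f = 0 then [(u 0, ⟨fun _ => 0, fun _ => 0⟩)]
  else [(u f, ⟨fun _ => f, fun _ => 0⟩), (-u (f + 1), ⟨fun _ => f - 1, fun _ => 0⟩)]

/-- `FReg` ignoring the columns of the vertices in `S` (they will be replaced). -/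
structure FRegI (S : Finset I) (T : Trm I) (x : I) (k σ : ℕ) : Prop where
  nat : ∀ l, 1 ≤ l → l ≠ k → IsN (T.E (x, l))
  int : IsZ (T.E (x, k))
  col : ∀ j, j ∉ S → ∀ l, 1 ≤ l → T.Λ j (x, l) ≠ 0 → l = σ ∨ l = k ∨ 1 ≤ T.E (x, l)

/-- two sets of vertices are disjoint and not adjacent. -/
def Sep (a : I → I → ℕ) (A B : Finset I) : Prop := Disjoint A B ∧ ∀ x ∈ A, ∀ y ∈ B, a x y = 0

/-- block data for the conversion lemma: vertex set, formal functional, weight, class, side
(`up = true`: state one level below, converts to `(-1)^|B| Up_f`; `up = false`: converts to `tau_{f+1}`). -/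
structure Blk (I : Type) where
  B : Finset I
  Φ : FFn I
  w : ℚ
  q : I → ℚ
  up : Bool

/-- the side level of a block at the frontier `f`. -/
def Blk.sd (f : ℕ) (b : Blk I) : ℕ := if b.up then f - 1 else f + 1

/-- the coefficient of a block. -/
def Blk.cf (b : Blk I) : ℚ := (if b.up then (-1 : ℚ) ^ b.B.card else 1) * b.w

/-- the explicit term of a list of blocks at the frontier `f`. -/
noncomputable def expl (a : I → I → ℕ) (f : ℕ) : List (Blk I) → Trm I → Trm I
  | [], T => T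
  | b :: L, T => blkT a b.B f (b.sd f) b.q (expl a f L T)

/-- the union of the vertex sets. -/
def uniB (L : List (Blk I)) : Finset I := L.foldr (fun b S => b.B ∪ S) ∅

/-- validity of a block at the frontier `f`. -/
structure BlkOk (a : I → I → ℕ) (cd : CrossData a) (f : ℕ) (b : Blk I) : Prop where
  fin : FinT a b.B
  conn : ConnS a b.B
  qok : QOk a b.B b.q
  wide : ∀ c ∈ b.Φ, PatWide a cd b.B f c.2
  cls : ∀ c ∈ b.Φ, ∀ x ∈ b.B, IsZ (c.2.q x - b.q x)
  knk : ∀ T : Trm I, RReg b.B T → Kink b.B f T →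
    evF a b.B b.Φ T = b.cf * TV a (blkT a b.B f (b.sd f) b.q T)

/-- block with a response family. -/
structure RB (I : Type) where
  B : Finset I
  w : ℕ → ℚ
  Φ : ℕ → FFn I

/-- the union of the vertex sets. -/
def uniR (L : List (RB I)) : Finset I := L.foldr (fun b S => b.B ∪ S) ∅

open Classical in
/-- determinant of the effective Cartan matrix on `M` after elimination of `N`. -/
noncomputable def detEff (a : I → I → ℕ) (N M : Finset I) : ℚ :=
  (Matrix.of (fun (i j : {x // x ∈ M}) =>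
    (cart a i.1 j.1 : ℚ) - ∑ y ∈ N, (a i.1 y : ℚ) * solN a N (fun l => (a l j.1 : ℚ)) y)).det

open Classical in
/-- the response numbers with fuel. -/
noncomputable def cnA (a : I → I → ℕ) (cd : CrossData a) : ℕ → Finset I → (I → ℚ) → ℕ → ℚ
  | 0, _, _, _ => 0
  | n + 1, A, q, g =>
    if g = 0 then 1
    else ∑ M ∈ A.powerset.filter (fun M => ∀ x ∈ M, IsZ (q x)),
      (-1) ^ (A \ M).card * detEff a (A \ M) M * (g : ℚ) ^ M.card *
        ∏ N ∈ comps a (A \ M), (if cd.mm N ≤ g then cd.eps N q * cnA a cd n N q (g - cd.mm N) else 0)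

/-- the response numbers `c_q^A(g)`. -/
noncomputable def cn (a : I → I → ℕ) (cd : CrossData a) (A : Finset I) (q : I → ℚ) (g : ℕ) : ℚ :=
  cnA a cd (A.card + g + 1) A q g

/-- weights of the `Up` family. -/
noncomputable def upw (a : I → I → ℕ) (cd : CrossData a) (A : Finset I) (q : I → ℚ) (g : ℕ) : ℚ :=
  if cd.mm A ≤ g then cd.eps A q * cn a cd A q (g - cd.mm A) else 0

end

end Pool.Agent.H27.KAC

end
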