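import Pool.Agent.H16.TKA.H27.KAC.PI_Chart_1
import Pool.Agent.H16.TKA.M03
import Pool.Agent.H16.TKA.M08
import Pool.Agent.H16.TKA.M09
import Pool.Agent.H16.TKA.M10
import Pool.Agent.H16.TKA.M11

/-! The parts of this file: H27.KAC.PI_Orb, H27.KAC.PI_Trip, H41.KA.AD5, H41.KA.AD6, H41.KA.AD8, H41.KA.AD9, H41.KA.AE3, H41.KA.AG1, H46.KA.B2, H46.KA.B2b, H46.KA.B3, H46.KA.B3b, H10.KAC.Binom. -/

section

/-!
Project KAC, part I.1, module PI_Orb: number of the solutions of `v π(v) = 0` of given rank.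

PROOF SKETCH.  `GL_a(F)` acts by conjugation on the set of these matrices; it is not empty (`exists_matrix_chart`),
transitive (`exists_chart`, `chart_rank`: two such matrices have charts with the same `b` and `c`, `N ≥ 1`;
compose one chart with the inverse of the other), and the stabilizer has
order `card GL_b(L) * card GL_c(F)` (`card_centralizer`).  Orbit-stabilizer.
-/

set_option autoImplicit false

namespace Pool.Agent.H27.KAC

open scoped BigOperators
open Polynomial

section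

variable {F : Type} [Field F] {L : Type} [Field L] [Algebra F L] {θ : L}

/-- transport of a chart by conjugation -/
noncomputable def PI_Orb_conj {a b c : ℕ} {v : Matrix (Fin a) (Fin a) F} (C : Chart θ v b c)
    (g : (Matrix (Fin a) (Fin a) F)ˣ) :
    Chart θ ((g : Matrix (Fin a) (Fin a) F) * v * ((g⁻¹ : (Matrix (Fin a) (Fin a) F)ˣ) :
      Matrix (Fin a) (Fin a) F)) b c where
  Ψ := (Matrix.toLin'OfInv (M := (g : Matrix (Fin a) (Fin a) F))
    (M' := ((g⁻¹ : (Matrix (Fin a) (Fin a) F)ˣ) : Matrix (Fin a) (Fin a) F))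
    (Units.mul_inv g) (Units.inv_mul g)).trans C.Ψ
  hΨ := by
    intro z
    have h1 : ∀ y : Fin a → F, ((Matrix.toLin'OfInv (M := (g : Matrix (Fin a) (Fin a) F))
        (M' := ((g⁻¹ : (Matrix (Fin a) (Fin a) F)ˣ) : Matrix (Fin a) (Fin a) F))
        (Units.mul_inv g) (Units.inv_mul g)).trans C.Ψ) y =
        C.Ψ (((g⁻¹ : (Matrix (Fin a) (Fin a) F)ˣ) : Matrix (Fin a) (Fin a) F).mulVec y) := by
      intro y
      rfl
    rw [h1, h1, Matrix.mulVec_mulVec, ← mul_assoc, ← mul_assoc, Units.inv_mul, one_mul,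
      ← Matrix.mulVec_mulVec, C.hΨ]

/-- the isomorphism of two charts as a unit -/
noncomputable def PI_Orb_unit {a b c : ℕ} {v v' : Matrix (Fin a) (Fin a) F} (C : Chart θ v b c)
    (C' : Chart θ v' b c) : (Matrix (Fin a) (Fin a) F)ˣ where
  val := up C C' 1 1
  inv := up C' C 1 1
  val_inv := by rw [up_mul, mul_one, mul_one, up_one]
  inv_val := by rw [up_mul, mul_one, mul_one, up_one]

theorem PI_Orb_unit_comm {a b c : ℕ} {v v' : Matrix (Fin a) (Fin a) F} (C : Chart θ v b c)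
    (C' : Chart θ v' b c) :
    (PI_Orb_unit C C' : Matrix (Fin a) (Fin a) F) * v =
      v' * (PI_Orb_unit C C' : Matrix (Fin a) (Fin a) F) :=
  up_comm C C' 1 1

end

theorem PI_Orb_exists {F : Type} [Field F] {π : F[X]} {N : ℕ} (hπ : GoodPi F π N)
    {L : Type} [Field L] [Algebra F L] (θ : L) (hθ : aeval θ π = 0)
    (hL : Module.finrank F L = N) {b c : ℕ} (v : Matrix (Fin (N * b + c)) (Fin (N * b + c)) F)
    (hv : v * aeval v π = 0) (hr : v.rank = N * b) : Nonempty (Chart θ v b c) := by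
  obtain ⟨b', c', ⟨C⟩⟩ := exists_chart hπ θ hθ hL v hv
  obtain ⟨_, h2, h3⟩ := chart_rank hπ θ hθ hL C
  have hN : 0 < N := by
    rw [← hπ.deg]
    exact hπ.irr.natDegree_pos
  have hb : b' = b := by
    have h4 : N * b' = N * b := by rw [← h3, hr]
    exact Nat.eq_of_mul_eq_mul_left hN h4
  subst hb
  have hc : c' = c := by omega
  subst hc
  exact ⟨C⟩

theorem card_sol {F : Type} [Field F] [Fintype F] {π : F[X]} {N : ℕ} (hπ : GoodPi F π N)
    {L : Type} [Field L] [Fintype L] [Algebra F L] (θ : L) (hθ : aeval θ π = 0)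
    (hL : Module.finrank F L = N) (a b c : ℕ) (ha : a = N * b + c) :
    Nat.card {v : Matrix (Fin a) (Fin a) F // v * aeval v π = 0 ∧ v.rank = N * b} *
      (Nat.card (Matrix (Fin b) (Fin b) L)ˣ * Nat.card (Matrix (Fin c) (Fin c) F)ˣ) =
      Nat.card (Matrix (Fin a) (Fin a) F)ˣ := by
  subst ha
  obtain ⟨v₀, ⟨C₀⟩⟩ := exists_matrix_chart hπ θ hθ hL b c
  rw [← card_centralizer hπ hθ hL C₀, ← Nat.card_prod]
  let ch : ∀ v : {v : Matrix (Fin (N * b + c)) (Fin (N * b + c)) F //
      v * aeval v π = 0 ∧ v.rank = N * b}, Chart θ v.1 b c :=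
    fun v => Classical.choice (PI_Orb_exists hπ θ hθ hL v.1 v.2.1 v.2.2)
  refine Nat.card_congr
    { toFun := fun w => PI_Orb_unit C₀ (ch w.1) * w.2.1
      invFun := fun g => (⟨(g : Matrix (Fin (N * b + c)) (Fin (N * b + c)) F) * v₀ *
        ((g⁻¹ : (Matrix (Fin (N * b + c)) (Fin (N * b + c)) F)ˣ) :
          Matrix (Fin (N * b + c)) (Fin (N * b + c)) F),
          (chart_rank hπ θ hθ hL (PI_Orb_conj C₀ g)).1,
          (chart_rank hπ θ hθ hL (PI_Orb_conj C₀ g)).2.2⟩,
        ⟨(PI_Orb_unit C₀ (ch ⟨(g : Matrix (Fin (N * b + c)) (Fin (N * b + c)) F) * v₀ *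
          ((g⁻¹ : (Matrix (Fin (N * b + c)) (Fin (N * b + c)) F)ˣ) :
            Matrix (Fin (N * b + c)) (Fin (N * b + c)) F),
          (chart_rank hπ θ hθ hL (PI_Orb_conj C₀ g)).1,
          (chart_rank hπ θ hθ hL (PI_Orb_conj C₀ g)).2.2⟩))⁻¹ * g, ?_⟩)
      left_inv := ?_
      right_inv := ?_ }
  · have h1 := PI_Orb_unit_comm C₀ (ch ⟨(g : Matrix (Fin (N * b + c)) (Fin (N * b + c)) F) * v₀ *
          ((g⁻¹ : (Matrix (Fin (N * b + c)) (Fin (N * b + c)) F)ˣ) :
            Matrix (Fin (N * b + c)) (Fin (N * b + c)) F),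
          (chart_rank hπ θ hθ hL (PI_Orb_conj C₀ g)).1,
          (chart_rank hπ θ hθ hL (PI_Orb_conj C₀ g)).2.2⟩)
    generalize PI_Orb_unit C₀ (ch _) = u at h1 ⊢
    rw [Units.val_mul]
    have h2 : (g : Matrix (Fin (N * b + c)) (Fin (N * b + c)) F) * v₀ =
        (g : Matrix (Fin (N * b + c)) (Fin (N * b + c)) F) * v₀ *
        ((g⁻¹ : (Matrix (Fin (N * b + c)) (Fin (N * b + c)) F)ˣ) :
          Matrix (Fin (N * b + c)) (Fin (N * b + c)) F) * g := by
      rw [mul_assoc _ _ (g : Matrix (Fin (N * b + c)) (Fin (N * b + c)) F), Units.inv_mul, mul_one]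
    rw [mul_assoc, h2]
    have h3 : ((u⁻¹ : (Matrix (Fin (N * b + c)) (Fin (N * b + c)) F)ˣ) :
        Matrix (Fin (N * b + c)) (Fin (N * b + c)) F) *
        ((g : Matrix (Fin (N * b + c)) (Fin (N * b + c)) F) * v₀ *
        ((g⁻¹ : (Matrix (Fin (N * b + c)) (Fin (N * b + c)) F)ˣ) :
          Matrix (Fin (N * b + c)) (Fin (N * b + c)) F)) = v₀ *
        ((u⁻¹ : (Matrix (Fin (N * b + c)) (Fin (N * b + c)) F)ˣ) :
        Matrix (Fin (N * b + c)) (Fin (N * b + c)) F) := by
      have h4 := congrArg (fun m => ((u⁻¹ : (Matrix (Fin (N * b + c)) (Fin (N * b + c)) F)ˣ) :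
        Matrix (Fin (N * b + c)) (Fin (N * b + c)) F) * m *
        ((u⁻¹ : (Matrix (Fin (N * b + c)) (Fin (N * b + c)) F)ˣ) :
        Matrix (Fin (N * b + c)) (Fin (N * b + c)) F)) h1
      simp only [] at h4
      rw [← mul_assoc, Units.inv_mul, one_mul, mul_assoc, mul_assoc, Units.mul_inv, mul_one] at h4
      exact h4.symm
    rw [← mul_assoc, h3, mul_assoc]
  · rintro ⟨v, x⟩
    have h1 := PI_Orb_unit_comm C₀ (ch v)
    have h2 := x.2
    have h3 : ((PI_Orb_unit C₀ (ch v) * x.1 :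
        (Matrix (Fin (N * b + c)) (Fin (N * b + c)) F)ˣ) :
        Matrix (Fin (N * b + c)) (Fin (N * b + c)) F) * v₀ *
        (((PI_Orb_unit C₀ (ch v) * x.1)⁻¹ : (Matrix (Fin (N * b + c)) (Fin (N * b + c)) F)ˣ) :
          Matrix (Fin (N * b + c)) (Fin (N * b + c)) F) = v.1 := by
      rw [Units.mul_inv_eq_iff_eq_mul, Units.val_mul, mul_assoc, h2, ← mul_assoc, h1, mul_assoc]
    have h4 : (⟨((PI_Orb_unit C₀ (ch v) * x.1 :
        (Matrix (Fin (N * b + c)) (Fin (N * b + c)) F)ˣ) :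
        Matrix (Fin (N * b + c)) (Fin (N * b + c)) F) * v₀ *
        (((PI_Orb_unit C₀ (ch v) * x.1)⁻¹ : (Matrix (Fin (N * b + c)) (Fin (N * b + c)) F)ˣ) :
          Matrix (Fin (N * b + c)) (Fin (N * b + c)) F),
          (chart_rank hπ θ hθ hL (PI_Orb_conj C₀ (PI_Orb_unit C₀ (ch v) * x.1))).1,
          (chart_rank hπ θ hθ hL (PI_Orb_conj C₀ (PI_Orb_unit C₀ (ch v) * x.1))).2.2⟩ :
        {v : Matrix (Fin (N * b + c)) (Fin (N * b + c)) F //
          v * aeval v π = 0 ∧ v.rank = N * b}) = v := Subtype.ext h3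
    refine Prod.ext h4 (Subtype.ext ?_)
    show (PI_Orb_unit C₀ (ch _))⁻¹ * (PI_Orb_unit C₀ (ch v) * x.1) = x.1
    rw [h4, ← mul_assoc, inv_mul_cancel, one_mul]
  · intro g
    show PI_Orb_unit C₀ (ch _) * ((PI_Orb_unit C₀ (ch _))⁻¹ * g) = g
    rw [← mul_assoc, mul_inv_cancel, one_mul]

end Pool.Agent.H27.KAC

end

section

/-!
Project KAC, part I.1, module PI_Trip: the pairs `(x, T)` compatible with a given tuple `v`.

PROOF SKETCH.  `x e = up (C (src e)) (C (tgt e)) (V e) (y e)` (`up_surj`, `up_comm`: `IsMor x x v` says exactly that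
`x e * v (src e) = v (tgt e) * x e`, up to symmetry), `T i = up (C i) (C i) (s i) (t i)`; by `up_mul`, `up_inj`,
`up_nilpotent` the pair `(x, T)` corresponds to `((V, s), (y, t))` with `IsMor V V s`, `IsMor y y t`, nilpotent.
`AIt x v ↔ SN V` (`β ≠ 0`): the `c` commuting with `v` are `up (c₁ i) (c₂ i)`, `c₁` an endomorphism of `V`, `c₂` of `y`
(take `c₂ = 0` or arbitrary); by `up_aeval`, `up_theta`, `up_mul`, `up_sub`:
`v i * (c i - aeval (v i) f) = up (θ • (c₁ i - f(θ) • 1)) 0`, nilpotent iff `c₁ i - f(θ) • 1` is nilpotent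
(`θ ≠ 0`, `theta_ne_zero`); each `l : L` is `aeval θ f` (`exists_poly_of_mem`).
-/

set_option autoImplicit false

namespace Pool.Agent.H27.KAC

open scoped BigOperators
open Polynomial

section Trip_lemmas

variable {I E : Type} {Q : Quiv I E} {F : Type} [Field F] {L : Type} [Field L] [Algebra F L] {θ : L}
  {α β γ : I → ℕ} {v : (i : I) → Matrix (Fin (α i)) (Fin (α i)) F}

/-- the representation given by a pair of representations in the charts -/
private noncomputable def Trip_x (C : ∀ i, Chart θ (v i) (β i) (γ i)) (V : Rp Q L β) (y : Rp Q F γ) :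
    Rp Q F α := fun e => up (C (Q.src e)) (C (Q.tgt e)) (V e) (y e)

/-- the tuple given by a pair of tuples in the charts -/
private noncomputable def Trip_T (C : ∀ i, Chart θ (v i) (β i) (γ i))
    (s : (i : I) → Matrix (Fin (β i)) (Fin (β i)) L) (t : (i : I) → Matrix (Fin (γ i)) (Fin (γ i)) F) :
    (i : I) → Matrix (Fin (α i)) (Fin (α i)) F := fun i => up (C i) (C i) (s i) (t i)

private theorem Trip_mor (C : ∀ i, Chart θ (v i) (β i) (γ i)) (V : Rp Q L β) (y : Rp Q F γ)
    (s : (i : I) → Matrix (Fin (β i)) (Fin (β i)) L) (t : (i : I) → Matrix (Fin (γ i)) (Fin (γ i)) F) :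
    IsMor (Trip_x C V y) (Trip_x C V y) (Trip_T C s t) ↔ IsMor V V s ∧ IsMor y y t := by
  constructor
  · intro h
    have h1 : ∀ e, s (Q.tgt e) * V e = V e * s (Q.src e) ∧ t (Q.tgt e) * y e = y e * t (Q.src e) := by
      intro e
      have h2 := h e
      unfold Trip_x Trip_T at h2
      rw [up_mul, up_mul] at h2
      exact up_inj _ _ h2
    exact ⟨fun e => (h1 e).1, fun e => (h1 e).2⟩
  · rintro ⟨h1, h2⟩ e
    unfold Trip_x Trip_T
    rw [up_mul, up_mul, h1 e, h2 e]

private theorem Trip_self (C : ∀ i, Chart θ (v i) (β i) (γ i)) (V : Rp Q L β) (y : Rp Q F γ) :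
    IsMor (Trip_x C V y) (Trip_x C V y) v := fun e => (up_comm (C (Q.src e)) (C (Q.tgt e)) (V e) (y e)).symm

private theorem Trip_nil_smul {n : ℕ} (hθ0 : θ ≠ 0) (M : Matrix (Fin n) (Fin n) L) :
    IsNilpotent (θ • M) ↔ IsNilpotent M := by
  constructor
  · rintro ⟨k, hk⟩
    refine ⟨k, ?_⟩
    rw [_root_.smul_pow] at hk
    exact (smul_eq_zero.1 hk).resolve_left (pow_ne_zero k hθ0)
  · rintro ⟨k, hk⟩
    exact ⟨k, by rw [_root_.smul_pow, hk, smul_zero]⟩

private theorem Trip_nil {a b c : ℕ} {w : Matrix (Fin a) (Fin a) F} (hθ0 : θ ≠ 0) (C : Chart θ w b c)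
    (g : Matrix (Fin b) (Fin b) L) (h : Matrix (Fin c) (Fin c) F) (f : F[X]) :
    IsNilpotent (w * (up C C g h - aeval w f)) ↔
      IsNilpotent (g - (aeval θ f) • (1 : Matrix (Fin b) (Fin b) L)) := by
  have e1 : w * (up C C g h - aeval w f) =
      up C C (θ • (g - (aeval θ f) • (1 : Matrix (Fin b) (Fin b) L))) 0 := by
    have h2 : up C C (θ • 1) 0 * up C C (g - (aeval θ f) • (1 : Matrix (Fin b) (Fin b) L)) (h - (f.coeff 0) • 1) =
        up C C (θ • (g - (aeval θ f) • (1 : Matrix (Fin b) (Fin b) L))) 0 := by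
      rw [up_mul, smul_mul_assoc, one_mul, zero_mul]
    rw [up_theta C] at h2
    rw [up_aeval C f, ← up_sub, h2]
  rw [e1, up_nilpotent, Trip_nil_smul hθ0]
  exact ⟨fun h => h.1, fun h => ⟨h, IsNilpotent.zero⟩⟩

private theorem Trip_ait {π : F[X]} {N : ℕ} (hπ : GoodPi F π N) (hθ : aeval θ π = 0)
    (hL : Module.finrank F L = N) (C : ∀ i, Chart θ (v i) (β i) (γ i)) (hβ : β ≠ 0) (V : Rp Q L β)
    (y : Rp Q F γ) : AIt (Trip_x C V y) v ↔ SN V := by
  have hθ0 : θ ≠ 0 := theta_ne_zero hπ θ hθ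
  constructor
  · intro h
    refine ⟨hβ, fun c hc => ?_⟩
    obtain ⟨f, hf⟩ := h (Trip_T C c 0) ((Trip_mor C V y c 0).2 ⟨hc, fun e => by
      show (0 : Matrix _ _ F) * y e = y e * 0
      rw [Matrix.zero_mul, Matrix.mul_zero]⟩) (fun i => up_comm (C i) (C i) (c i) 0)
    exact ⟨aeval θ f, fun i => (Trip_nil hθ0 (C i) (c i) 0 f).1 (hf i)⟩
  · rintro ⟨-, h⟩ c hc hcv
    choose c₁ c₂ hc12 using fun i => up_surj hπ hθ hL (C i) (C i) (c i) (hcv i)
    have hcT : c = Trip_T C c₁ c₂ := by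
      funext i
      exact hc12 i
    subst hcT
    obtain ⟨l, hl⟩ := h c₁ ((Trip_mor C V y c₁ c₂).1 hc).1
    obtain ⟨f, rfl⟩ := exists_poly_of_mem hπ θ hθ hL l
    exact ⟨f, fun i => (Trip_nil hθ0 (C i) (c₁ i) (c₂ i) f).2 (hl i)⟩

end Trip_lemmas

theorem card_comp {I E : Type} {Q : Quiv I E} {F : Type} [Field F]
    {π : F[X]} {N : ℕ} (hπ : GoodPi F π N)
    {L : Type} [Field L] [Algebra F L] {θ : L} (hθ : aeval θ π = 0)
    (hL : Module.finrank F L = N) {α β γ : I → ℕ}
    (v : (i : I) → Matrix (Fin (α i)) (Fin (α i)) F) (C : ∀ i, Chart θ (v i) (β i) (γ i))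
    (hβ : β ≠ 0) :
    Nat.card {w : Rp Q F α × ((i : I) → Matrix (Fin (α i)) (Fin (α i)) F) //
        Comp v w.1 w.2} = Nat.card (SNPairs Q L β) * Nat.card (NilPairs Q F γ) := by
  rw [← Nat.card_prod]
  symm
  refine Nat.card_congr (Equiv.ofBijective (fun p : SNPairs Q L β × NilPairs Q F γ =>
    (⟨(Trip_x C p.1.1.1 p.2.1.1, Trip_T C p.1.1.2 p.2.1.2), ?_⟩ :
      {w : Rp Q F α × ((i : I) → Matrix (Fin (α i)) (Fin (α i)) F) // Comp v w.1 w.2})) ⟨?_, ?_⟩)
  · obtain ⟨⟨⟨V, s⟩, hV, hs, hsn⟩, ⟨⟨y, t⟩, ht, htn⟩⟩ := p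
    exact ⟨Trip_self C V y, (Trip_mor C V y s t).2 ⟨hs, ht⟩,
      fun i => (up_nilpotent (C i) (s i) (t i)).2 ⟨hsn i, htn i⟩,
      fun i => up_comm (C i) (C i) (s i) (t i), (Trip_ait hπ hθ hL C hβ V y).2 hV⟩
  · rintro ⟨⟨⟨V, s⟩, hV⟩, ⟨⟨y, t⟩, hy⟩⟩ ⟨⟨⟨V', s'⟩, hV'⟩, ⟨⟨y', t'⟩, hy'⟩⟩ h
    have h1 := congrArg Subtype.val h
    have h2 : Trip_x C V y = Trip_x C V' y' := congrArg Prod.fst h1
    have h3 : Trip_T C s t = Trip_T C s' t' := congrArg Prod.snd h1
    have h4 : ∀ e, V e = V' e ∧ y e = y' e := fun e => up_inj _ _ (congrFun h2 e)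
    have h5 : ∀ i, s i = s' i ∧ t i = t' i := fun i => up_inj _ _ (congrFun h3 i)
    have e1 : V = V' := funext fun e => (h4 e).1
    have e2 : y = y' := funext fun e => (h4 e).2
    have e3 : s = s' := funext fun i => (h5 i).1
    have e4 : t = t' := funext fun i => (h5 i).2
    subst e1 e2 e3 e4
    rfl
  · rintro ⟨⟨x, T⟩, hx, hT, hTn, hTv, hA⟩
    choose V y hVy using fun e => up_surj hπ hθ hL (C (Q.src e)) (C (Q.tgt e)) (x e) (hx e).symm
    choose s t hst using fun i => up_surj hπ hθ hL (C i) (C i) (T i) (hTv i)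
    have e1 : x = Trip_x C V y := funext hVy
    have e2 : T = Trip_T C s t := funext hst
    subst e1 e2
    have h1 := (Trip_mor C V y s t).1 hT
    have h2 : ∀ i, IsNilpotent (s i) ∧ IsNilpotent (t i) := fun i =>
      (up_nilpotent (C i) (s i) (t i)).1 (hTn i)
    exact ⟨⟨⟨(V, s), (Trip_ait hπ hθ hL C hβ V y).1 hA, h1.1, fun i => (h2 i).1⟩,
      ⟨(y, t), h1.2, fun i => (h2 i).2⟩⟩, rfl⟩

end Pool.Agent.H27.KAC

end

section

/-!
KAC ADE, module AD5: the relation of the Q-system and its differential in term language.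
-/

set_option autoImplicit false

namespace Pool.Agent.H27.KAC

open scoped BigOperators
open MvPowerSeries

section

variable {I : Type} [Fintype I] [DecidableEq I]

/-- the exponents of the shifted pair. -/
theorem AD5_dd (E : QE I) (x : I) (k : ℕ) :
    E + (sy x (k + 1) + sy x (k - 1)) = E + (2 : ℚ) • sy x k + dd x k := by
  unfold dd
  abel

theorem AD5_tdg_dd (x : I) (k : ℕ) (hk : 1 ≤ k) (i : I) : tdg (dd x k) i = 0 := by
  have h : dd x k = sy x (k + 1) + ((-2 : ℚ) • sy x k + sy x (k - 1)) := by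
    unfold dd
    rw [neg_smul]
    abel
  rw [h, tdg_add, tdg_add, tdg_smul, tdg_single, tdg_single, tdg_single]
  split_ifs
  · rw [Nat.cast_sub hk]
    push_cast
    ring
  · ring

theorem AD5_tdg_neg (E : QE I) (i : I) : tdg (-E) i = -tdg E i := by
  rw [← neg_one_smul ℚ E, tdg_smul]
  ring

theorem AD5_tdg_sub (E F : QE I) (i : I) : tdg (E - F) i = tdg E i - tdg F i := by
  rw [sub_eq_add_neg, tdg_add, AD5_tdg_neg]
  ring

/-- `γ - k δ_x`. -/
theorem AD5_cq (a : I → I → ℕ) (γ : I → ℚ) (x : I) (k : ℕ) (i : I) :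
    cq a (fun i => γ i - k * (Pi.single x 1 : I → ℚ) i) i =
      cq a γ i - (k : ℚ) * ((cart a i x : ℤ) : ℚ) := by
  have h1 : (fun i => γ i - k * (Pi.single x 1 : I → ℚ) i) =
      fun j => γ j + (fun j => (-(k : ℚ)) * (Pi.single x 1 : I → ℚ) j) j := by
    funext j
    ring
  rw [h1, cq_add, cq_smul, cq_single]
  ring

theorem AD5_sum (a : I → I → ℕ) (x : I) (k : ℕ) :
    ∑ y, (Pi.single x 1 : I → ℚ) y • cE a y k = cE a x k := by
  rw [Finset.sum_eq_single x]
  · simp
  · intro y _ hy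
    rw [Pi.single_eq_of_ne hy, zero_smul]
  · intro h
    exact absurd (Finset.mem_univ x) h

/-- from an identity of power series to an identity of values. -/
theorem AD5_key (a : I → I → ℕ) (hs : ∀ i j, a i j = a j i) (γ : I → ℚ) (E2 : QE I) (x : I)
    (k : ℕ) (hk : 1 ≤ k) (L1 L2 L3 : I → QE I)
    (hid : mU a E2 * (colMat (fun i => dl a (L2 i))).det =
      X x ^ k * (mU a (E2 - cE a x k) * (colMat (fun i => dl a (L1 i))).det) +
        mU a (E2 + dd x k) * (colMat (fun i => dl a (L3 i))).det) :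
    TV a ⟨γ, E2, L2⟩ =
      TV a ⟨fun i => γ i - k * (Pi.single x 1 : I → ℚ) i, E2 - cE a x k, L1⟩ +
        TV a ⟨γ, E2 + dd x k, L3⟩ := by
  have hd : ∀ i, tdg (E2 + dd x k) i = tdg E2 i := fun i => by
    rw [tdg_add, AD5_tdg_dd x k hk, add_zero]
  have hc : ∀ i, tdg (E2 - cE a x k) i = tdg E2 i - (k : ℚ) * ((cart a i x : ℤ) : ℚ) := fun i => by
    rw [AD5_tdg_sub, tdg_cE a hs]
  have h3 : TOk a ⟨γ, E2 + dd x k, L3⟩ ↔ TOk a ⟨γ, E2, L2⟩ := by
    unfold TOk
    simp only [hd]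
  by_cases h : TOk a ⟨γ, E2, L2⟩
  · obtain ⟨h1, h2⟩ := h
    simp only at h1 h2
    have hg : ∀ i, ((gN γ i : ℕ) : ℚ) = γ i := fun i => h1 i
    have e2 : TV a ⟨γ, E2, L2⟩ = coeff (gN γ) (mU a E2 * (colMat (fun i => dl a (L2 i))).det) :=
      TV_of_ok a _ ⟨h1, h2⟩
    have e3 : TV a ⟨γ, E2 + dd x k, L3⟩ =
        coeff (gN γ) (mU a (E2 + dd x k) * (colMat (fun i => dl a (L3 i))).det) :=
      TV_of_ok a _ (h3.2 ⟨h1, h2⟩)
    rw [e2, e3, hid, map_add]
    congr 1
    rw [X_pow_eq, coeff_monomial_mul]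
    by_cases hkx : k ≤ gN γ x
    · have hle : Finsupp.single x k ≤ gN γ := by
        rw [Finsupp.single_le_iff]
        exact hkx
      rw [if_pos hle, one_mul]
      have hn : ∀ i, (((gN γ - Finsupp.single x k) i : ℕ) : ℚ) =
          γ i - k * (Pi.single x 1 : I → ℚ) i := by
        intro i
        rw [Finsupp.tsub_apply]
        by_cases hi : i = x
        · subst hi
          rw [Finsupp.single_eq_same, Pi.single_eq_same, Nat.cast_sub hkx, hg]
          ring
        · rw [Finsupp.single_eq_of_ne hi, Pi.single_eq_of_ne hi, Nat.sub_zero, hg]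
          ring
      have hfl : ∀ i, ⌊γ i - k * (Pi.single x 1 : I → ℚ) i⌋₊ = (gN γ - Finsupp.single x k) i := by
        intro i
        rw [← hn i, Nat.floor_natCast]
      have hok : TOk a ⟨fun i => γ i - k * (Pi.single x 1 : I → ℚ) i, E2 - cE a x k, L1⟩ := by
        refine ⟨fun i => ?_, fun i => ?_⟩
        · show ((⌊γ i - k * (Pi.single x 1 : I → ℚ) i⌋₊ : ℕ) : ℚ) = _
          rw [hfl i, hn i]
        · show tdg (E2 - cE a x k) i = cq a (fun i => γ i - k * (Pi.single x 1 : I → ℚ) i) i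
          rw [hc i, h2 i, AD5_cq]
      have e1 : TV a ⟨fun i => γ i - k * (Pi.single x 1 : I → ℚ) i, E2 - cE a x k, L1⟩ =
          coeff (gN (fun i => γ i - k * (Pi.single x 1 : I → ℚ) i))
            (mU a (E2 - cE a x k) * (colMat (fun i => dl a (L1 i))).det) := TV_of_ok a _ hok
      have e4 : gN (fun i => γ i - k * (Pi.single x 1 : I → ℚ) i) = gN γ - Finsupp.single x k := by
        ext i
        exact hfl i
      rw [e1, e4]
    · have hle : ¬ Finsupp.single x k ≤ gN γ := by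
        rw [Finsupp.single_le_iff]
        exact hkx
      rw [if_neg hle]
      symm
      apply TV_neg a _ x
      show γ x - k * (Pi.single x 1 : I → ℚ) x < 0
      rw [Pi.single_eq_same, ← hg x]
      have : ((gN γ x : ℕ) : ℚ) < (k : ℚ) := by exact_mod_cast not_le.1 hkx
      linarith
  · rw [TV_of_not a _ h, TV_of_not a _ (fun h' => h (h3.1 h'))]
    rw [TV_of_not, add_zero]
    rintro ⟨h1, h2⟩
    apply h
    simp only at h1 h2
    have hγ : ∀ i, ∃ n : ℕ, γ i = n := by
      intro i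
      by_cases hi : i = x
      · subst hi
        refine ⟨⌊γ i - k * (Pi.single i 1 : I → ℚ) i⌋₊ + k, ?_⟩
        have := h1 i
        rw [Pi.single_eq_same] at this ⊢
        push_cast
        rw [this]
        ring
      · refine ⟨⌊γ i - k * (Pi.single x 1 : I → ℚ) i⌋₊, ?_⟩
        have := h1 i
        rw [Pi.single_eq_of_ne hi] at this ⊢
        rw [this]
        ring
    refine ⟨fun i => ?_, fun i => ?_⟩
    · show ((⌊γ i⌋₊ : ℕ) : ℚ) = γ i
      obtain ⟨n, hn⟩ := hγ i
      rw [hn, Nat.floor_natCast]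
    · show tdg E2 i = cq a γ i
      have := h2 i
      rw [hc i, AD5_cq] at this
      linarith

/-- `Q_{x,k}^2 = X_x^k ∏ Q_{j,k}^{a_xj} + Q_{x,k+1} Q_{x,k-1}`. -/
theorem TV_rel (a : I → I → ℕ) (hs : ∀ i j, a i j = a j i) (T : Trm I) (x : I) (k : ℕ) (hk : 1 ≤ k) :
    TV a (T.mulE ((2 : ℚ) • sy x k)) =
      TV a ((T.mulE ((2 : ℚ) • sy x k)).eta a k (Pi.single x 1)) +
        TV a (T.mulE (sy x (k + 1) + sy x (k - 1))) := by
  unfold Trm.mulE Trm.eta
  simp only
  rw [AD5_sum, AD5_dd]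
  apply AD5_key a hs _ _ _ _ hk
  rw [mU_add a _ (dd x k), mU_dd a x k hk, sub_eq_add_neg (T.E + (2 : ℚ) • sy x k) (cE a x k),
    mU_add a _ (-cE a x k)]
  ring

theorem AD5_dl_neg (a : I → I → ℕ) (E : QE I) (l : I) : dl a (-E) l = - dl a E l := by
  rw [← neg_one_smul ℚ, dl_smul, map_neg, map_one]
  ring

/-- the differential of `1 = η + (1 - η)`. -/
theorem AD5_dl (a : I → I → ℕ) (hs : ∀ i j, a i j = a j i) (x : I) (k : ℕ) (hk : 1 ≤ k) (l : I) :
    mU a (dd x k) * dl a (dd x k) l = X x ^ k * mU a (-cE a x k) * dl a (cE a x k) l := by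
  have h1 := dl_mU a (dd x k) l
  have h2 := dl_mU a (-cE a x k) l
  have h3 : dD a l (mU a (dd x k)) = -(C (-((k : ℚ) * (cart a l x : ℤ))) * X x ^ k *
      mU a (-cE a x k) + X x ^ k * dD a l (mU a (-cE a x k))) := by
    rw [mU_dd a x k hk, dD_sub, dD_one, dD_mul, dD_X_pow]
    ring
  have h4 : dl a (-cE a x k) l = - dl a (cE a x k) l := AD5_dl_neg a _ l
  rw [AD5_tdg_dd x k hk, map_zero, zero_mul, zero_add, h3] at h1
  rw [AD5_tdg_neg, tdg_cE a hs, h4] at h2
  linear_combination h1 + X x ^ k * h2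

/-- linearity of the determinant in column `j`. -/
theorem AD5_det (a : I → I → ℕ) (L : I → QE I) (j : I) (c : QE I) :
    (colMat (fun i => dl a (Function.update L j c i))).det =
      (Matrix.updateCol (colMat (fun i => dl a (L i))) j (dl a c)).det := by
  congr 1
  refine Matrix.ext fun l i => ?_
  rw [Matrix.updateCol_apply]
  show dl a (Function.update L j c i) l = if i = j then dl a c l else dl a (L i) l
  by_cases hi : i = j
  · subst hi
    rw [Function.update_self, if_pos rfl]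
  · rw [Function.update_of_ne hi, if_neg hi]

/-- the differential of the relation. -/
theorem TV_relD (a : I → I → ℕ) (hs : ∀ i j, a i j = a j i) (T : Trm I) (j x : I) (k : ℕ)
    (hk : 1 ≤ k) :
    TV a ((T.mulE ((2 : ℚ) • sy x k)).col j ((2 : ℚ) • sy x k)) =
      TV a (((T.mulE ((2 : ℚ) • sy x k)).eta a k (Pi.single x 1)).col j
        ((2 : ℚ) • sy x k - cE a x k)) +
        TV a ((T.mulE (sy x (k + 1) + sy x (k - 1))).col j (sy x (k + 1) + sy x (k - 1))) := by
  unfold Trm.mulE Trm.eta Trm.col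
  simp only
  rw [AD5_sum, AD5_dd]
  apply AD5_key a hs _ _ _ _ hk
  rw [AD5_det, AD5_det, AD5_det]
  rw [mU_add a _ (dd x k), sub_eq_add_neg (T.E + (2 : ℚ) • sy x k) (cE a x k),
    mU_add a _ (-cE a x k)]
  set B : Matrix I I (MvPowerSeries I ℚ) := colMat (fun i => dl a (T.Λ i)) with hB
  set M := mU a (T.E + (2 : ℚ) • sy x k) with hM
  set W := mU a (-cE a x k) with hW
  have hV : mU a (dd x k) = 1 - X x ^ k * W := mU_dd a x k hk
  have e1 : dl a ((2 : ℚ) • sy x k - cE a x k) =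
      dl a ((2 : ℚ) • sy x k) + (-1 : MvPowerSeries I ℚ) • dl a (cE a x k) := by
    funext l
    rw [sub_eq_add_neg, dl_add, Pi.add_apply, Pi.smul_apply, AD5_dl_neg, smul_eq_mul]
    ring
  have e2 : dl a (sy x (k + 1) + sy x (k - 1)) =
      dl a ((2 : ℚ) • sy x k) + dl a (dd x k) := by
    funext l
    rw [Pi.add_apply, ← dl_add]
    congr 1
    unfold dd
    abel
  have e3 : mU a (dd x k) • dl a (dd x k) = (X x ^ k * W) • dl a (cE a x k) := by
    funext l
    rw [Pi.smul_apply, Pi.smul_apply, smul_eq_mul, smul_eq_mul, AD5_dl a hs x k hk l]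
  rw [e1, e2, Matrix.det_updateCol_add, Matrix.det_updateCol_add, Matrix.det_updateCol_smul]
  have e4 : mU a (dd x k) * (B.updateCol j (dl a (dd x k))).det =
      X x ^ k * W * (B.updateCol j (dl a (cE a x k))).det := by
    rw [← Matrix.det_updateCol_smul, e3, Matrix.det_updateCol_smul]
  rw [hV] at e4 ⊢
  linear_combination (-M) * e4

end

end Pool.Agent.H27.KAC

end

section

/-!
KAC ADE, module AD6: expansion in powers of `η_{x,k}`.
-/

set_option autoImplicit false

namespace Pool.Agent.H27.KAC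

open scoped BigOperators
open MvPowerSeries

section

variable {I : Type} [Fintype I] [DecidableEq I]

theorem AD6_tdg_dd (x : I) (k : ℕ) (hk : 1 ≤ k) (i : I) : tdg (dd x k) i = 0 := by
  have h1 : dd x k = (sy x (k + 1) + (-2 : ℚ) • sy x k) + sy x (k - 1) := by
    unfold dd
    rw [neg_smul, sub_eq_add_neg]
  rw [h1, tdg_add, tdg_add, tdg_smul, tdg_single, tdg_single, tdg_single]
  by_cases h : x = i
  · rw [if_pos h, if_pos h, if_pos h]
    push_cast [Nat.cast_sub hk]
    ring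
  · rw [if_neg h, if_neg h, if_neg h]
    ring

omit [DecidableEq I] [Fintype I] in
theorem AD6_eta_col (a : I → I → ℕ) [Fintype I] [DecidableEq I] (T : Trm I) (k : ℕ) (δ : I → ℚ)
    (j : I) (c : QE I) : (T.eta a k δ).col j c = (T.col j c).eta a k δ := rfl

omit [Fintype I] in
theorem AD6_mulE_col (T : Trm I) (F : QE I)
    (j : I) (c : QE I) : (T.mulE F).col j c = (T.col j c).mulE F := rfl

theorem AD6_sum_single (a : I → I → ℕ) (k : ℕ) (x : I) (m : ℚ) :
    (∑ y, (Pi.single x m : I → ℚ) y • cE a y k) = m • cE a x k := by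
  rw [Finset.sum_eq_single x]
  · rw [Pi.single_eq_same]
  · intro y _ hy
    rw [Pi.single_eq_of_ne hy, zero_smul]
  · intro h
    exact absurd (Finset.mem_univ x) h

theorem AD6_ok_mul (a : I → I → ℕ) (T : Trm I) (F : QE I) (hF : ∀ i, tdg F i = 0) :
    TOk a (T.mulE F) ↔ TOk a T := by
  unfold TOk Trm.mulE
  simp only [tdg_add, hF, add_zero]

theorem AD6_pow_mU (a : I → I → ℕ) (E : QE I) (m : ℕ) : mU a E ^ m = mU a ((m : ℚ) • E) := by
  rw [mU_smul, rpw_nat _ (mU_const a E)]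

theorem AD6_nat_of (q r : ℚ) (n : ℕ) (h : ((⌊q⌋₊ : ℕ) : ℚ) = q) (hr : r = q + n) :
    ((⌊r⌋₊ : ℕ) : ℚ) = r := by
  rw [hr, ← h, ← Nat.cast_add, Nat.floor_natCast]

theorem AD6_eta (a : I → I → ℕ) (hs : ∀ i j, a i j = a j i) (T : Trm I) (x : I) (k m : ℕ)
    [Decidable (TOk a T)] :
    TV a (T.eta a k (Pi.single x (m : ℚ))) = if TOk a T then
      coeff (gN T.γ) (X x ^ (k * m) * mU a (-cE a x k) ^ m *
        (mU a T.E * (colMat (fun i => dl a (T.Λ i))).det)) else 0 := by
  have hE : (T.eta a k (Pi.single x (m : ℚ))).E = T.E - (m : ℚ) • cE a x k := by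
    show T.E - ∑ y, (Pi.single x (m : ℚ) : I → ℚ) y • cE a y k = _
    rw [AD6_sum_single]
  split_ifs with hT
  · obtain ⟨h1, h2⟩ := hT
    have hg : ∀ i, ((gN T.γ i : ℕ) : ℚ) = T.γ i := h1
    by_cases hk : k * m ≤ gN T.γ x
    · have hγ : (T.eta a k (Pi.single x (m : ℚ))).γ =
          fun i => (((gN T.γ - Finsupp.single x (k * m)) i : ℕ) : ℚ) := by
        funext i
        show T.γ i - k * (Pi.single x (m : ℚ) : I → ℚ) i = _
        rw [Finsupp.tsub_apply, ← hg]
        by_cases hi : i = x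
        · subst hi
          rw [Pi.single_eq_same, Finsupp.single_eq_same, Nat.cast_sub hk]
          push_cast
          ring
        · rw [Pi.single_eq_of_ne hi, Finsupp.single_eq_of_ne hi]
          simp
      have hle : Finsupp.single x (k * m) ≤ gN T.γ := Finsupp.single_le_iff.2 hk
      have hT' : T.eta a k (Pi.single x (m : ℚ)) =
          ⟨fun i => (((gN T.γ - Finsupp.single x (k * m)) i : ℕ) : ℚ),
            T.E - (m : ℚ) • cE a x k, T.Λ⟩ := by
        rw [← hE, ← hγ]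
        rfl
      rw [hT', TV_nat]
      · rw [mul_assoc, X_pow_eq, coeff_monomial_mul, if_pos hle, one_mul, AD6_pow_mU, ← mul_assoc,
          ← mU_add]
        congr 3
        rw [smul_neg, sub_eq_add_neg, add_comm]
      · intro i
        have e1 : cw a (gN T.γ) i = cw a (gN T.γ - Finsupp.single x (k * m)) i +
            cw a (Finsupp.single x (k * m)) i := by
          rw [← cw_add, tsub_add_cancel_of_le hle]
        have e2 : cw a (Finsupp.single x (k * m)) i = cart a i x * ((k * m : ℕ) : ℤ) := by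
          unfold cw
          rw [Finset.sum_eq_single x]
          · simp
          · intro j _ hj
            rw [Finsupp.single_eq_of_ne hj]
            simp
          · intro h
            exact absurd (Finset.mem_univ x) h
        have e3 : tdg T.E i = (cw a (gN T.γ) i : ℚ) := by
          rw [h2 i]
          unfold cq cw
          push_cast
          exact Finset.sum_congr rfl fun j _ => by rw [hg]
        rw [sub_eq_add_neg, ← neg_smul, tdg_add, tdg_smul, tdg_cE a hs, e3, e1, e2]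
        push_cast
        ring
    · rw [TV_neg a _ x]
      · rw [mul_assoc, X_pow_eq, coeff_monomial_mul, if_neg]
        intro h'
        exact hk (Finsupp.single_le_iff.1 h')
      · show T.γ x - k * (Pi.single x (m : ℚ) : I → ℚ) x < 0
        rw [Pi.single_eq_same, ← hg]
        push Not at hk
        have : ((gN T.γ x : ℕ) : ℚ) < ((k * m : ℕ) : ℚ) := by exact_mod_cast hk
        push_cast at this
        linarith
  · refine TV_of_not a _ fun hT' => hT ?_
    obtain ⟨h1, h2⟩ := hT'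
    have h0 : ∀ i, (T.eta a k (Pi.single x (m : ℚ))).γ i =
        T.γ i - k * (Pi.single x (m : ℚ) : I → ℚ) i := fun i => rfl
    refine ⟨fun i => ?_, fun i => ?_⟩
    · by_cases hi : i = x
      · subst hi
        refine AD6_nat_of _ _ (k * m) (h1 i) ?_
        rw [h0, Pi.single_eq_same]
        push_cast
        ring
      · refine AD6_nat_of _ _ 0 (h1 i) ?_
        rw [h0, Pi.single_eq_of_ne hi]
        push_cast
        ring
    · have h3 := h2 i
      rw [hE, sub_eq_add_neg, ← neg_smul, tdg_add, tdg_smul, tdg_cE a hs] at h3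
      have h4 : cq a (T.eta a k (Pi.single x (m : ℚ))).γ i =
          cq a T.γ i + cq a (Pi.single x (-(k * m : ℚ))) i := by
        rw [← cq_add]
        congr 1
        funext j
        rw [h0]
        by_cases hj : j = x
        · subst hj
          rw [Pi.single_eq_same, Pi.single_eq_same]
          ring
        · rw [Pi.single_eq_of_ne hj, Pi.single_eq_of_ne hj]
          ring
      rw [h4, cq_single] at h3
      linear_combination h3

/-- `(1 - η)^q = ∑ (-1)^m binom(q,m) η^m`. -/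
theorem TV_expP (a : I → I → ℕ) (hs : ∀ i j, a i j = a j i) (T : Trm I) (x : I) (k : ℕ) (hk : 1 ≤ k)
    (q : ℚ) (M : ℕ) (hM : ⌊T.γ x⌋₊ ≤ M) :
    TV a (T.mulE (q • dd x k)) =
      ∑ m ∈ Finset.range (M + 1), (-1 : ℚ) ^ m * Ring.choose q m *
        TV a (T.eta a k (Pi.single x (m : ℚ))) := by
  classical
  have hok : TOk a (T.mulE (q • dd x k)) ↔ TOk a T := by
    refine AD6_ok_mul a T _ fun i => ?_
    rw [tdg_smul, AD6_tdg_dd x k hk, mul_zero]
  by_cases hT : TOk a T
  · rw [TV_of_ok a _ (hok.2 hT)]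
    have h1 : TV0 a (T.mulE (q • dd x k)) = coeff (gN T.γ)
        (rpw (1 - X x ^ k * mU a (-cE a x k)) q *
          (mU a T.E * (colMat (fun i => dl a (T.Λ i))).det)) := by
      show coeff (gN T.γ) (mU a (T.E + q • dd x k) * (colMat (fun i => dl a (T.Λ i))).det) = _
      rw [mU_add, mU_smul, mU_dd a x k hk]
      congr 1
      ring
    rw [h1, coeff_rpw_one_sub x k hk _ _ q (gN T.γ) M hM]
    refine Finset.sum_congr rfl fun m _ => ?_
    rw [AD6_eta a hs, if_pos hT]
  · rw [TV_of_not a _ fun h => hT (hok.1 h)]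
    symm
    refine Finset.sum_eq_zero fun m _ => ?_
    rw [AD6_eta a hs, if_neg hT, mul_zero]

/-- one step: `d log (1 - η) = - η d log η / (1 - η)`. -/
theorem AD6_step (a : I → I → ℕ) (hs : ∀ i j, a i j = a j i) (T : Trm I) (j x : I) (k : ℕ)
    (hk : 1 ≤ k) :
    TV a (T.col j (dd x k)) =
      TV a (((T.mulE ((-1 : ℚ) • dd x k)).eta a k (Pi.single x ((1 : ℕ) : ℚ))).col j
        (cE a x k)) := by
  classical
  rw [AD6_eta_col, AD6_eta a hs]
  have hok : TOk a ((T.mulE ((-1 : ℚ) • dd x k)).col j (cE a x k)) ↔ TOk a (T.col j (dd x k)) := by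
    have h1 : TOk a ((T.mulE ((-1 : ℚ) • dd x k)).col j (cE a x k)) ↔
        TOk a (T.mulE ((-1 : ℚ) • dd x k)) := TOk_congr a _ _ rfl rfl
    have h2 : TOk a (T.col j (dd x k)) ↔ TOk a T := TOk_congr a _ _ rfl rfl
    rw [h1, h2]
    refine AD6_ok_mul a T _ fun i => ?_
    rw [tdg_smul, AD6_tdg_dd x k hk, mul_zero]
  by_cases hT : TOk a (T.col j (dd x k))
  · rw [TV_of_ok a _ hT, if_pos (hok.2 hT)]
    show coeff (gN T.γ) (mU a T.E * (colMat (fun i => dl a ((Function.update T.Λ j (dd x k)) i))).det) =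
      coeff (gN T.γ) (X x ^ (k * 1) * mU a (-cE a x k) ^ 1 *
        (mU a (T.E + (-1 : ℚ) • dd x k) *
          (colMat (fun i => dl a ((Function.update T.Λ j (cE a x k)) i))).det))
    congr 1
    have hc : ∀ c : QE I, (fun i => dl a ((Function.update T.Λ j c) i)) =
        Function.update (fun i => dl a (T.Λ i)) j (dl a c) := by
      intro c
      funext i
      by_cases hi : i = j
      · subst hi
        rw [Function.update_self, Function.update_self]
      · rw [Function.update_of_ne hi, Function.update_of_ne hi]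
    rw [hc, hc, KQEta_colMat_update, KQEta_colMat_update]
    have hinv : mU a ((-1 : ℚ) • dd x k) * mU a (dd x k) = 1 := by
      rw [← mU_add, ← mU_zero a]
      congr 1
      module
    have hkey : dl a (dd x k) = (X x ^ k * mU a (-cE a x k) * mU a ((-1 : ℚ) • dd x k)) •
        dl a (cE a x k) := by
      funext l
      show dl a (dd x k) l = (X x ^ k * mU a (-cE a x k) * mU a ((-1 : ℚ) • dd x k)) *
        dl a (cE a x k) l
      have e1 := dl_mU a (dd x k) l
      rw [AD6_tdg_dd x k hk, map_zero, zero_mul, zero_add] at e1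
      have e2 := dl_mU a (-cE a x k) l
      have e3 : dl a (-cE a x k) l = - dl a (cE a x k) l := by
        rw [show -cE a x k = (-1 : ℚ) • cE a x k by module, dl_smul]
        simp
      have e4 : tdg (-cE a x k) l = -((k : ℚ) * ((cart a l x : ℤ) : ℚ)) := by
        rw [show -cE a x k = (-1 : ℚ) • cE a x k by module, tdg_smul, tdg_cE a hs]
        ring
      rw [e3, e4] at e2
      have e5 : dD a l (mU a (dd x k)) = - dD a l (X x ^ k * mU a (-cE a x k)) := by
        rw [mU_dd a x k hk, dD_sub, dD_one, zero_sub]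
      rw [e5, dD_mul, dD_X_pow] at e1
      linear_combination (mU a ((-1 : ℚ) • dd x k)) * e1 -
        (dl a (dd x k) l) * hinv + (X x ^ k * mU a ((-1 : ℚ) • dd x k)) * e2
    rw [hkey, Matrix.det_updateCol_smul, mU_add, mul_one, pow_one]
    ring
  · rw [TV_of_not a _ hT, if_neg fun h => hT (hok.1 h)]

theorem AD6_eta_eta (a : I → I → ℕ) (T : Trm I) (x : I) (k p m : ℕ) :
    (T.eta a k (Pi.single x (p : ℚ))).eta a k (Pi.single x (m : ℚ)) =
      T.eta a k (Pi.single x (((p + m : ℕ) : ℚ))) := by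
  refine Trm.ext ?_ ?_ rfl
  · funext i
    show T.γ i - k * (Pi.single x (p : ℚ) : I → ℚ) i - k * (Pi.single x (m : ℚ) : I → ℚ) i =
      T.γ i - k * (Pi.single x (((p + m : ℕ) : ℚ)) : I → ℚ) i
    by_cases hi : i = x
    · subst hi
      rw [Pi.single_eq_same, Pi.single_eq_same, Pi.single_eq_same]
      push_cast
      ring
    · rw [Pi.single_eq_of_ne hi, Pi.single_eq_of_ne hi, Pi.single_eq_of_ne hi]
      ring
  · show T.E - (∑ y, (Pi.single x (p : ℚ) : I → ℚ) y • cE a y k) -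
      (∑ y, (Pi.single x (m : ℚ) : I → ℚ) y • cE a y k) =
      T.E - (∑ y, (Pi.single x (((p + m : ℕ) : ℚ)) : I → ℚ) y • cE a y k)
    rw [AD6_sum_single, AD6_sum_single, AD6_sum_single]
    push_cast
    module

theorem AD6_sum_shift (f : ℕ → ℚ) (M : ℕ) (h : f (M + 1) = 0) :
    ∑ m ∈ Finset.range (M + 1), f (m + 1) = ∑ m ∈ Finset.Icc 1 M, f m := by
  have h1 : ∀ M : ℕ, ∑ m ∈ Finset.range M, f (m + 1) = ∑ m ∈ Finset.Icc 1 M, f m := by
    intro M
    induction M with
    | zero => simp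
    | succ M ih => rw [Finset.sum_range_succ, ih, Finset.sum_Icc_succ_top (by omega)]
  rw [Finset.sum_range_succ, h, add_zero, h1]

/-- the expansion of the column `d log (1 - η)` with a power of `1 - η`. -/
theorem AD6_expQ (a : I → I → ℕ) (hs : ∀ i j, a i j = a j i) (T : Trm I) (j x : I) (k : ℕ)
    (hk : 1 ≤ k) (q : ℚ) (M : ℕ) (hM : ⌊T.γ x⌋₊ ≤ M) :
    TV a ((T.mulE (q • dd x k)).col j (dd x k)) =
      ∑ m ∈ Finset.Icc 1 M, (-1 : ℚ) ^ (m - 1) * Ring.choose (q - 1) (m - 1) *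
        TV a ((T.eta a k (Pi.single x (m : ℚ))).col j (cE a x k)) := by
  rw [AD6_step a hs _ j x k hk]
  have h1 : (((T.mulE (q • dd x k)).mulE ((-1 : ℚ) • dd x k)).eta a k
      (Pi.single x ((1 : ℕ) : ℚ))).col j (cE a x k) =
      ((T.eta a k (Pi.single x ((1 : ℕ) : ℚ))).col j (cE a x k)).mulE ((q - 1) • dd x k) := by
    refine Trm.ext rfl ?_ rfl
    show T.E + q • dd x k + (-1 : ℚ) • dd x k -
      (∑ y, (Pi.single x ((1 : ℕ) : ℚ) : I → ℚ) y • cE a y k) =
      T.E - (∑ y, (Pi.single x ((1 : ℕ) : ℚ) : I → ℚ) y • cE a y k) + (q - 1) • dd x k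
    module
  have h2 : ⌊((T.eta a k (Pi.single x ((1 : ℕ) : ℚ))).col j (cE a x k)).γ x⌋₊ ≤ M := by
    refine le_trans (Nat.floor_le_floor ?_) hM
    show T.γ x - k * (Pi.single x ((1 : ℕ) : ℚ) : I → ℚ) x ≤ T.γ x
    rw [Pi.single_eq_same]
    have : (0 : ℚ) ≤ k * ((1 : ℕ) : ℚ) := by positivity
    linarith
  rw [h1, TV_expP a hs _ x k hk (q - 1) M h2]
  have h3 : ∀ m : ℕ, ((T.eta a k (Pi.single x ((1 : ℕ) : ℚ))).col j (cE a x k)).eta a k
      (Pi.single x (m : ℚ)) = (T.eta a k (Pi.single x (((m + 1 : ℕ) : ℚ)))).col j (cE a x k) := by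
    intro m
    rw [← AD6_eta_col, AD6_eta_eta, Nat.add_comm 1 m]
  have h4 := AD6_sum_shift (fun m => (-1 : ℚ) ^ (m - 1) * Ring.choose (q - 1) (m - 1) *
        TV a ((T.eta a k (Pi.single x (m : ℚ))).col j (cE a x k))) M ?_
  · rw [← h4]
    refine Finset.sum_congr rfl fun m _ => ?_
    rw [h3, Nat.add_sub_cancel]
  · rw [TV_neg a _ x, mul_zero]
    show T.γ x - k * (Pi.single x (((M + 1 : ℕ) : ℚ)) : I → ℚ) x < 0
    rw [Pi.single_eq_same]
    have e1 : T.γ x < ⌊T.γ x⌋₊ + 1 := Nat.lt_floor_add_one _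
    have e2 : ((⌊T.γ x⌋₊ : ℕ) : ℚ) ≤ (M : ℚ) := by exact_mod_cast hM
    have e3 : (1 : ℚ) ≤ (k : ℚ) := by exact_mod_cast hk
    push_cast
    nlinarith [mul_le_mul_of_nonneg_right e3 (show (0 : ℚ) ≤ (M : ℚ) + 1 by positivity)]

omit [Fintype I] [DecidableEq I] in
theorem AD6_dd (x : I) (k : ℕ) :
    (sy x (k + 1) : QE I) = ((2 : ℚ) • sy x k - sy x (k - 1)) + dd x k := by
  unfold dd
  module

theorem AD6_choose_neg_one (m : ℕ) : (-1 : ℚ) ^ m * Ring.choose (-1 : ℚ) m = 1 := by
  rw [Ring.choose_neg]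
  have h1 : (1 : ℚ) + m - 1 = (m : ℚ) := by ring
  rw [h1, Ring.choose_natCast, Nat.choose_self]
  rcases Nat.even_or_odd m with h | h
  · rw [h.neg_one_pow, Int.negOnePow_even (m : ℤ) ((Int.even_coe_nat m).2 h), one_smul, one_mul,
      Nat.cast_one]
  · rw [h.neg_one_pow, Int.negOnePow_odd (m : ℤ) (by exact_mod_cast h), Nat.cast_one,
      Units.smul_def]
    simp

/-- `d log Q_{x,k+1} = 2 d log Q_{x,k} - d log Q_{x,k-1} + ∑_{m ≥ 1} η^m θ_x`. -/
theorem TV_expD (a : I → I → ℕ) (hs : ∀ i j, a i j = a j i) (T : Trm I) (j x : I) (k : ℕ)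
    (hk : 1 ≤ k) (M : ℕ) (hM : ⌊T.γ x⌋₊ ≤ M) :
    TV a (T.col j (sy x (k + 1))) =
      TV a (T.col j ((2 : ℚ) • sy x k - sy x (k - 1))) +
        ∑ m ∈ Finset.Icc 1 M, TV a ((T.eta a k (Pi.single x (m : ℚ))).col j (cE a x k)) := by
  rw [AD6_dd, TV_col_add]
  congr 1
  have h1 : T.col j (dd x k) = (T.mulE ((0 : ℚ) • dd x k)).col j (dd x k) := by
    refine Trm.ext rfl ?_ rfl
    show T.E = T.E + (0 : ℚ) • dd x k
    rw [zero_smul, add_zero]
  rw [h1, AD6_expQ a hs T j x k hk 0 M hM]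
  refine Finset.sum_congr rfl fun m _ => ?_
  rw [zero_sub, AD6_choose_neg_one, one_mul]

/-- the combined expansion of `Q_{x,k+1}^{-P}` with column `d log Q_{x,k+1} + λ`, `P ≠ 0`:
weight `binom(P+m-1, m) / P = (P+m-1)!/(P! m!)`. -/
theorem TV_expPD (a : I → I → ℕ) (hs : ∀ i j, a i j = a j i) (T : Trm I) (j x : I) (k : ℕ)
    (hk : 1 ≤ k) (P : ℚ) (hP : P ≠ 0) (c : QE I) (M : ℕ) (hM : ⌊T.γ x⌋₊ ≤ M) :
    TV a ((T.mulE (-(P • dd x k))).col j (sy x (k + 1) + c)) =
      ∑ m ∈ Finset.range (M + 1), (-1 : ℚ) ^ m * Ring.choose (-P) m / P *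
        TV a ((T.eta a k (Pi.single x (m : ℚ))).col j
          (P • ((2 : ℚ) • sy x k - sy x (k - 1) + c) + (m : ℚ) • cE a x k)) := by
  have h0 : (sy x (k + 1) + c : QE I) = ((2 : ℚ) • sy x k - sy x (k - 1) + c) + dd x k := by
    rw [AD6_dd]
    abel
  rw [h0, TV_col_add, ← neg_smul, AD6_mulE_col T _ j ((2 : ℚ) • sy x k - sy x (k - 1) + c),
    TV_expP a hs (T.col j ((2 : ℚ) • sy x k - sy x (k - 1) + c)) x k hk (-P) M hM, AD6_expQ a hs T j x k hk (-P) M hM]
  have h1 : ∀ m : ℕ, TV a ((T.eta a k (Pi.single x (m : ℚ))).col j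
      (P • ((2 : ℚ) • sy x k - sy x (k - 1) + c) + (m : ℚ) • cE a x k)) =
      P * TV a ((T.col j ((2 : ℚ) • sy x k - sy x (k - 1) + c)).eta a k (Pi.single x (m : ℚ))) +
      m * TV a ((T.eta a k (Pi.single x (m : ℚ))).col j (cE a x k)) := by
    intro m
    rw [TV_col_add, TV_col_smul, TV_col_smul, AD6_eta_col]
  have h2 : ∑ m ∈ Finset.range (M + 1), (-1 : ℚ) ^ m * Ring.choose (-P) m / P *
        (m * TV a ((T.eta a k (Pi.single x (m : ℚ))).col j (cE a x k))) =
      ∑ m ∈ Finset.Icc 1 M, (-1 : ℚ) ^ (m - 1) * Ring.choose (-P - 1) (m - 1) *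
        TV a ((T.eta a k (Pi.single x (m : ℚ))).col j (cE a x k)) := by
    rw [Finset.sum_range_succ']
    have e0 : ∑ m ∈ Finset.Icc 1 M, (-1 : ℚ) ^ (m - 1) * Ring.choose (-P - 1) (m - 1) *
        TV a ((T.eta a k (Pi.single x (m : ℚ))).col j (cE a x k)) =
        ∑ m ∈ Finset.range M, (-1 : ℚ) ^ m * Ring.choose (-P - 1) m *
        TV a ((T.eta a k (Pi.single x ((m + 1 : ℕ) : ℚ))).col j (cE a x k)) := by
      clear hM
      induction M with
      | zero => simp
      | succ M ih =>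
        rw [Finset.sum_range_succ, ← ih, Finset.sum_Icc_succ_top (by omega), Nat.add_sub_cancel]
    rw [e0]
    simp only [Nat.cast_zero, zero_mul, mul_zero, add_zero]
    refine Finset.sum_congr rfl fun m _ => ?_
    have e1 := Ring.choose_smul_choose (-P) (n := m + 1) (k := 1) (by omega)
    rw [Nat.choose_one_right, Ring.choose_one_right, Nat.add_sub_cancel, nsmul_eq_mul,
      Nat.cast_one] at e1
    have e2 : ((m + 1 : ℕ) : ℚ) * Ring.choose (-P) (m + 1) / P = -Ring.choose (-P - 1) m := by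
      rw [e1]
      field_simp
    calc (-1 : ℚ) ^ (m + 1) * Ring.choose (-P) (m + 1) / P * (((m + 1 : ℕ) : ℚ) *
          TV a ((T.eta a k (Pi.single x ((m + 1 : ℕ) : ℚ))).col j (cE a x k)))
        = (-1 : ℚ) ^ (m + 1) * (((m + 1 : ℕ) : ℚ) * Ring.choose (-P) (m + 1) / P) *
          TV a ((T.eta a k (Pi.single x ((m + 1 : ℕ) : ℚ))).col j (cE a x k)) := by ring
      _ = _ := by
        rw [e2]
        ring
  rw [← h2, ← Finset.sum_add_distrib]
  refine Finset.sum_congr rfl fun m _ => ?_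
  rw [h1]
  field_simp

end

end Pool.Agent.H27.KAC

end

section

/-!
KAC ADE, module AD8: the Cartier property of determinants of logarithmic derivatives.

Proof.  Fix the degree bound `N = p * tdeg g`.  Every power series `u` with integral coefficients and constant coefficient
one is a finite product `∏_{0 < |b| ≤ N} (1 - Y^b)^{c_b}` (`c_b ∈ ℤ`) modulo terms of degree `> N` (induction on the degree), hence
`dlg a u l = ∑_b c_b (C b)_l ∑_{k ≥ 1} Y^{k b}` modulo degree `> N`   (`D_l Y^b = -(Cb)_l Y^b`, file KQDer: `coeff_dD`).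
By multilinearity (all coefficients of the columns are `p`-integral) it suffices to treat a determinant whose `i`-th column is
either a constant integral vector `v_i` or `v_i ∑_{k ≥ 1} Y^{k b_i}` with `v_i = C b_i`.  Its coefficient at `g` is
`det (v) * #{(k_i) : k_i ≥ 1, ∑ k_i b_i = g}`.  If `p ∣ det v` both sides are divisible by `p`.  Otherwise the `v_i` are linearly
independent modulo `p`, and `∑ k_i b_i = p g` gives `∑ k_i v_i = p C g ≡ 0`, so `p ∣ k_i`: the two numbers are equal.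
-/

set_option autoImplicit false

namespace Pool.Agent.H27.KAC

open scoped BigOperators
open MvPowerSeries

section

variable {I : Type} [Fintype I] [DecidableEq I]

private theorem AD8_tdeg_le {β : I →₀ ℕ} {x : I →₀ (I →₀ ℕ)}
    (hx : x ∈ Finset.finsuppAntidiag Finset.univ β) (j : I) : tdeg (x j) ≤ tdeg β := by
  rw [Finset.mem_finsuppAntidiag] at hx
  unfold tdeg
  refine Finset.sum_le_sum fun l _ => ?_
  have h1 : (∑ i, x i) l = β l := by rw [hx.1]
  rw [← h1, Finsupp.finsetSum_apply]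
  exact Finset.single_le_sum (f := fun i => (x i) l) (fun _ _ => Nat.zero_le _)
    (Finset.mem_univ j)

private theorem AD8_det_congr {N : ℕ} (A A' : Matrix I I (MvPowerSeries I ℚ))
    (h : ∀ i j (β : I →₀ ℕ), tdeg β ≤ N → coeff β (A i j) = coeff β (A' i j)) (β : I →₀ ℕ)
    (hβ : tdeg β ≤ N) : coeff β A.det = coeff β A'.det := by
  rw [Matrix.det_apply, Matrix.det_apply, map_sum, map_sum]
  refine Finset.sum_congr rfl fun σ _ => ?_
  rw [Units.smul_def, Units.smul_def, map_zsmul, map_zsmul, coeff_prod, coeff_prod]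
  congr 1
  refine Finset.sum_congr rfl fun x hx => Finset.prod_congr rfl fun i _ => ?_
  exact h _ _ _ ((AD8_tdeg_le hx i).trans hβ)

private theorem AD8_cw_sum (a : I → I → ℕ) {ι : Type} (s : Finset ι) (y : ι → (I →₀ ℕ)) (l : I) :
    cw a (∑ j ∈ s, y j) l = ∑ j ∈ s, cw a (y j) l := by
  classical
  induction s using Finset.induction_on with
  | empty => rw [Finset.sum_empty, Finset.sum_empty, cw_zero]
  | insert j s hj ih => rw [Finset.sum_insert hj, Finset.sum_insert hj, cw_add, ih]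

private theorem AD8_cw_nsmul (a : I → I → ℕ) (k : ℕ) (b : I →₀ ℕ) (l : I) :
    cw a (k • b) l = (k : ℤ) * cw a b l := by
  induction k with
  | zero => simp [cw_zero]
  | succ k ih =>
    rw [add_smul, one_smul, cw_add, ih]
    push_cast
    ring

private theorem AD8_smul_inj {p : ℕ} (hp : p.Prime) {x y : I →₀ ℕ} (h : p • x = p • y) : x = y := by
  ext i
  have h1 := DFunLike.congr_fun h i
  simp only [Finsupp.smul_apply, smul_eq_mul] at h1
  exact Nat.eq_of_mul_eq_mul_left hp.pos h1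

open Classical in
private theorem AD8_count {p : ℕ} (hp : p.Prime) (a : I → I → ℕ) (Z : I → (I →₀ ℕ) → Prop)
    (V : Matrix I I ℤ) (κ : I → (I →₀ ℕ) → ℤ)
    (h1 : ∀ j x, Z j x → ∀ l, cw a x l = κ j x * V j l)
    (h2 : ∀ j x, Z j x → (p : ℤ) ∣ κ j x → ∃ x', Z j x' ∧ x = p • x')
    (h3 : ∀ j x, Z j x → Z j (p • x)) (h4 : ¬ (p : ℤ) ∣ V.det) (g : I →₀ ℕ) :
    ((Finset.finsuppAntidiag Finset.univ (p • g)).filter (fun x => ∀ j, Z j (x j))).card =
      ((Finset.finsuppAntidiag Finset.univ g).filter (fun x => ∀ j, Z j (x j))).card := by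
  symm
  refine Finset.card_bij (fun x _ => p • x) ?_ ?_ ?_
  · intro x hx
    rw [Finset.mem_filter, Finset.mem_finsuppAntidiag] at hx ⊢
    refine ⟨⟨?_, Finset.subset_univ _⟩, fun j => h3 j _ (hx.2 j)⟩
    rw [← hx.1.1]
    simp only [Finsupp.smul_apply]
    rw [← Finset.smul_sum]
  · intro x _ y _ hxy
    refine Finsupp.ext fun j => ?_
    exact AD8_smul_inj hp (DFunLike.congr_fun hxy j)
  · intro y hy
    rw [Finset.mem_filter, Finset.mem_finsuppAntidiag] at hy
    have hk : Matrix.vecMul (fun j => κ j (y j)) V = fun l => (p : ℤ) * cw a g l := by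
      funext l
      have e1 : cw a (p • g) l = ∑ j, κ j (y j) * V j l := by
        rw [← hy.1.1, AD8_cw_sum]
        exact Finset.sum_congr rfl fun j _ => h1 j _ (hy.2 j) l
      rw [← AD8_cw_nsmul, e1]
      rfl
    have hd : ∀ j, (p : ℤ) ∣ κ j (y j) := by
      intro j
      have e2 := congrArg (fun w => Matrix.vecMul w V.adjugate) hk
      simp only [Matrix.vecMul_vecMul, Matrix.mul_adjugate] at e2
      have e3 := congrFun e2 j
      rw [Matrix.vecMul_smul, Matrix.vecMul_one, Pi.smul_apply, smul_eq_mul] at e3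
      have e4 : (p : ℤ) ∣ V.det * κ j (y j) := by
        rw [e3]
        refine ⟨∑ l, cw a g l * V.adjugate l j, ?_⟩
        rw [Finset.mul_sum]
        change ∑ l, (p : ℤ) * cw a g l * V.adjugate l j = _
        exact Finset.sum_congr rfl fun l _ => by ring
      rcases (Nat.prime_iff_prime_int.1 hp).dvd_or_dvd e4 with e5 | e5
      · exact absurd e5 h4
      · exact e5
    choose x' hx' hx using fun j => h2 j (y j) (hy.2 j) (hd j)
    refine ⟨Finsupp.equivFunOnFinite.symm x', ?_, ?_⟩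
    · rw [Finset.mem_filter, Finset.mem_finsuppAntidiag]
      refine ⟨⟨?_, Finset.subset_univ _⟩, fun j => ?_⟩
      · apply AD8_smul_inj hp
        rw [← hy.1.1, Finset.smul_sum]
        refine Finset.sum_congr rfl fun j _ => ?_
        rw [hx j]
        rfl
      · exact hx' j
    · refine Finsupp.ext fun j => ?_
      rw [hx j]
      rfl

private theorem AD8_PI_prod {p : ℕ} (hp : p.Prime) {ι : Type} (s : Finset ι) (f : ι → ℚ)
    (h : ∀ i ∈ s, PI p (f i)) : PI p (∏ i ∈ s, f i) := by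
  classical
  induction s using Finset.induction_on with
  | empty =>
    rw [Finset.prod_empty]
    exact_mod_cast PI_int hp 1
  | insert a s ha ih =>
    rw [Finset.prod_insert ha]
    exact PI_mul hp (h a (Finset.mem_insert_self a s))
      (ih fun b hb => h b (Finset.mem_insert_of_mem hb))

open Classical in
/-- expansion of the determinant and comparison -/
private theorem AD8_main {p : ℕ} (hp : p.Prime) (a : I → I → ℕ) (g : I →₀ ℕ) {T : Type} [Fintype T]
    (m : I → T → ℚ) (hm : ∀ j t, PI p (m j t)) (V : T → I → ℤ) (Z : T → (I →₀ ℕ) → Prop)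
    (κ : T → (I →₀ ℕ) → ℤ) (Φ : T → MvPowerSeries I ℚ)
    (hΦ : ∀ t β, coeff β (Φ t) = if Z t β then 1 else 0)
    (h1 : ∀ t x, Z t x → ∀ l, cw a x l = κ t x * V t l)
    (h2 : ∀ t x, Z t x → (p : ℤ) ∣ κ t x → ∃ x', Z t x' ∧ x = p • x')
    (h3 : ∀ t x, Z t x → Z t (p • x))
    (M : Matrix I I (MvPowerSeries I ℚ))
    (hM : ∀ l j (β : I →₀ ℕ), tdeg β ≤ p * tdeg g →
      coeff β (M l j) = ∑ t, m j t * ((V t l : ℤ) : ℚ) * (if Z t β then 1 else 0)) :
    PD p (coeff (p • g) M.det - coeff g M.det) := by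
  -- the model matrix
  let R : I → I → MvPowerSeries I ℚ := fun j => ∑ t, fun l => C (m j t) * Φ t * C ((V t l : ℤ) : ℚ)
  have hR : ∀ j l, R j l = ∑ t, C (m j t) * Φ t * C ((V t l : ℤ) : ℚ) := by
    intro j l
    simp only [R, Finset.sum_apply]
  have hMR : ∀ β : I →₀ ℕ, tdeg β ≤ p * tdeg g → coeff β M.det = coeff β (Matrix.of R).det := by
    intro β hβ
    rw [← Matrix.det_transpose (Matrix.of R)]
    refine AD8_det_congr _ _ (fun l j β hβ => ?_) β hβ
    rw [hM l j β hβ, Matrix.transpose_apply, Matrix.of_apply, hR, map_sum]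
    refine Finset.sum_congr rfl fun t _ => ?_
    rw [mul_comm _ (C ((V t l : ℤ) : ℚ)), coeff_C_mul, coeff_C_mul, hΦ]
    ring
  have hexp : (Matrix.of R).det = ∑ τ : I → T, C ((∏ j, m j (τ j)) *
      (((Matrix.of fun j l => V (τ j) l : Matrix I I ℤ).det : ℤ) : ℚ)) * ∏ j, Φ (τ j) := by
    have e1 : (Matrix.of R).det = ∑ τ : I → T,
        (Matrix.of fun j l => (C (m j (τ j)) * Φ (τ j)) * C ((V (τ j) l : ℤ) : ℚ) :
          Matrix I I (MvPowerSeries I ℚ)).det :=
      (Matrix.detRowAlternating (n := I) (R := MvPowerSeries I ℚ)).toMultilinearMap.map_sum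
        (fun j (t : T) => fun l => C (m j t) * Φ t * C ((V t l : ℤ) : ℚ))
    rw [e1]
    refine Finset.sum_congr rfl fun τ _ => ?_
    rw [Matrix.det_mul_column (fun j => C (m j (τ j)) * Φ (τ j))
      (fun j l => C ((V (τ j) l : ℤ) : ℚ))]
    have e2 : Matrix.det (fun j l => (C ((V (τ j) l : ℤ) : ℚ) : MvPowerSeries I ℚ)) =
        C (((Matrix.of fun j l => V (τ j) l : Matrix I I ℤ).det : ℤ) : ℚ) := by
      have e3 := RingHom.map_det ((C : ℚ →+* MvPowerSeries I ℚ).comp (Int.castRingHom ℚ))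
        (Matrix.of fun j l => V (τ j) l : Matrix I I ℤ)
      have e4 : ((C : ℚ →+* MvPowerSeries I ℚ).comp (Int.castRingHom ℚ)).mapMatrix
          (Matrix.of fun j l => V (τ j) l : Matrix I I ℤ) =
          fun j l => (C ((V (τ j) l : ℤ) : ℚ) : MvPowerSeries I ℚ) := by
        ext1 j l
        rfl
      rw [e4] at e3
      rw [← e3]
      rfl
    rw [e2, Finset.prod_mul_distrib, map_mul, map_prod]
    ring
  have hcount : ∀ (τ : I → T) (β : I →₀ ℕ), coeff β (∏ j, Φ (τ j)) =
      ((((Finset.finsuppAntidiag Finset.univ β).filter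
        (fun x => ∀ j, Z (τ j) (x j))).card : ℕ) : ℚ) := by
    intro τ β
    rw [coeff_prod]
    have e1 : ∀ x : I →₀ (I →₀ ℕ), ∏ j, coeff (x j) (Φ (τ j)) =
        if ∀ j, Z (τ j) (x j) then (1 : ℚ) else 0 := by
      intro x
      rw [Finset.prod_congr rfl fun j _ => hΦ (τ j) (x j), Finset.prod_boole]
      simp only [Finset.mem_univ, true_implies]
    rw [Finset.sum_congr rfl fun x _ => e1 x, Finset.sum_boole]
  have hg : tdeg g ≤ p * tdeg g := Nat.le_mul_of_pos_left _ hp.pos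
  have hpg : tdeg (p • g) ≤ p * tdeg g := by
    unfold tdeg
    simp only [Finsupp.smul_apply, smul_eq_mul]
    rw [← Finset.mul_sum]
  rw [hMR _ hpg, hMR _ hg, hexp, map_sum, map_sum, ← Finset.sum_sub_distrib]
  refine PD_sum hp _ _ fun τ _ => ?_
  rw [coeff_C_mul, coeff_C_mul, ← mul_sub, hcount, hcount]
  set D : ℤ := (Matrix.of fun j l => V (τ j) l : Matrix I I ℤ).det with hD
  set n1 : ℕ := ((Finset.finsuppAntidiag Finset.univ (p • g)).filter
    (fun x => ∀ j, Z (τ j) (x j))).card with hn1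
  set n2 : ℕ := ((Finset.finsuppAntidiag Finset.univ g).filter
    (fun x => ∀ j, Z (τ j) (x j))).card with hn2
  have hdvd : (p : ℤ) ∣ D * ((n1 : ℤ) - (n2 : ℤ)) := by
    by_cases hDp : (p : ℤ) ∣ D
    · exact Dvd.dvd.mul_right hDp _
    · have e1 : n1 = n2 := AD8_count hp a (fun j => Z (τ j))
        (Matrix.of fun j l => V (τ j) l : Matrix I I ℤ) (fun j => κ (τ j))
        (fun j x hx l => h1 (τ j) x hx l) (fun j x hx h => h2 (τ j) x hx h)
        (fun j x hx => h3 (τ j) x hx) hDp g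
      rw [e1, sub_self, mul_zero]
      exact dvd_zero _
  obtain ⟨c, hc⟩ := hdvd
  refine ⟨(∏ j, m j (τ j)) * (c : ℚ), PI_mul hp (AD8_PI_prod hp _ _ fun j _ => hm j _)
    (PI_int hp c), ?_⟩
  have hc' : (D : ℚ) * ((n1 : ℚ) - (n2 : ℚ)) = (p : ℚ) * (c : ℚ) := by exact_mod_cast hc
  linear_combination (∏ j, m j (τ j)) * hc'

theorem det_cartier {p : ℕ} (hp : p.Prime) (a : I → I → ℕ) (hs : ∀ i j, a i j = a j i)
    (Λ : I → QE I) (hΛ : ∀ j ik, PI p (Λ j ik)) (g : I →₀ ℕ) :
    PD p (coeff (p • g) (colMat (fun i => dl a (Λ i))).det -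
      coeff g (colMat (fun i => dl a (Λ i))).det) := by
  classical
  have hE := fun ik : I × ℕ => dlg_euler a (uu a ik.1 ik.2)
    (by rw [uu_coe]; exact uS_const a ik.1 ik.2) (fun β => by rw [uu_coe]; exact uS_int a _ _ β)
    (p * tdeg g)
  choose Bf cf hB0 hBe using hE
  let S : Finset (I × ℕ) := Finset.univ.biUnion fun j => (Λ j).support
  let B : Finset (I →₀ ℕ) := S.biUnion Bf
  let m : I → (I ⊕ {b // b ∈ B}) → ℚ := fun j t => match t with
    | Sum.inl i0 => ∑ ik ∈ (Λ j).support, if ik.1 = i0 then Λ j ik * (ik.2 : ℚ) else 0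
    | Sum.inr b => ∑ ik ∈ (Λ j).support, if b.1 ∈ Bf ik then Λ j ik * (cf ik b.1 : ℚ) else 0
  let V : (I ⊕ {b // b ∈ B}) → I → ℤ := fun t l => match t with
    | Sum.inl i0 => if i0 = l then 1 else 0
    | Sum.inr b => cw a b.1 l
  let Z : (I ⊕ {b // b ∈ B}) → (I →₀ ℕ) → Prop := fun t x => match t with
    | Sum.inl _ => x = 0
    | Sum.inr b => ∃ k : ℕ, 1 ≤ k ∧ x = k • b.1
  let κ : (I ⊕ {b // b ∈ B}) → (I →₀ ℕ) → ℤ := fun t x => match t with
    | Sum.inl _ => 0
    | Sum.inr b => if h : ∃ k : ℕ, 1 ≤ k ∧ x = k • b.1 then ((Classical.choose h : ℕ) : ℤ) else 0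
  let Φ : (I ⊕ {b // b ∈ B}) → MvPowerSeries I ℚ := fun t β => if Z t β then 1 else 0
  refine AD8_main hp a g m ?_ V Z κ Φ (fun t β => rfl) ?_ ?_ ?_ _ ?_
  · intro j t
    rcases t with i0 | b
    · refine PI_sum hp _ _ fun ik _ => ?_
      split_ifs
      · exact PI_mul hp (hΛ j ik) (by exact_mod_cast PI_int hp (ik.2 : ℤ))
      · exact_mod_cast PI_int hp 0
    · refine PI_sum hp _ _ fun ik _ => ?_
      split_ifs
      · exact PI_mul hp (hΛ j ik) (PI_int hp _)
      · exact_mod_cast PI_int hp 0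
  · intro t x hx l
    rcases t with i0 | b
    · have hx0 : x = 0 := hx
      rw [hx0, cw_zero]
      exact (zero_mul _).symm
    · have hx0 : ∃ k : ℕ, 1 ≤ k ∧ x = k • b.1 := hx
      have e1 : κ (Sum.inr b) x = ((Classical.choose hx0 : ℕ) : ℤ) := dif_pos hx0
      rw [e1]
      have e2 := (Classical.choose_spec hx0).2
      have e3 := AD8_cw_nsmul a (Classical.choose hx0) b.1 l
      rw [← e2] at e3
      exact e3
  · intro t x hx hd
    rcases t with i0 | b
    · have hx0 : x = 0 := hx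
      exact ⟨0, rfl, by rw [hx0, smul_zero]⟩
    · have hx0 : ∃ k : ℕ, 1 ≤ k ∧ x = k • b.1 := hx
      have e1 : κ (Sum.inr b) x = ((Classical.choose hx0 : ℕ) : ℤ) := dif_pos hx0
      rw [e1] at hd
      obtain ⟨e2, e3⟩ := Classical.choose_spec hx0
      obtain ⟨k', hk'⟩ := Int.natCast_dvd_natCast.1 hd
      refine ⟨k' • b.1, ⟨k', ?_, rfl⟩, ?_⟩
      · rcases Nat.eq_zero_or_pos k' with h0 | h0
        · rw [h0, mul_zero] at hk'
          rw [hk'] at e2
          exact absurd e2 (by norm_num)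
        · exact h0
      · rw [← mul_smul, ← hk']
        exact e3
  · intro t x hx
    rcases t with i0 | b
    · have hx0 : x = 0 := hx
      change p • x = 0
      rw [hx0, smul_zero]
    · obtain ⟨k, hk1, hk2⟩ : ∃ k : ℕ, 1 ≤ k ∧ x = k • b.1 := hx
      exact ⟨p * k, Nat.mul_pos hp.pos hk1, by rw [hk2, mul_smul]⟩
  · intro l j β hβ
    have e0 : (colMat (fun i => dl a (Λ i))) l j = ∑ ik ∈ (Λ j).support,
        C (Λ j ik) * xv a ik.1 ik.2 l := rfl
    rw [e0, map_sum, Fintype.sum_sum_type]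
    have e1 : ∀ ik ∈ (Λ j).support, coeff β (C (Λ j ik) * xv a ik.1 ik.2 l) =
        (if ik.1 = l then Λ j ik * (ik.2 : ℚ) else 0) * (if β = 0 then 1 else 0) +
        ∑ b ∈ Bf ik, Λ j ik * (cf ik b : ℚ) * (cw a b l : ℚ) *
          (if ∃ k : ℕ, 1 ≤ k ∧ β = k • b then 1 else 0) := by
      intro ik _
      rw [coeff_C_mul]
      unfold xv
      rw [map_add, hBe ik β l hβ, mul_add, Finset.mul_sum]
      congr 1
      · by_cases h : ik.1 = l
        · rw [if_pos h, if_pos h]
          have e2 : ((ik.2 : ℕ) : MvPowerSeries I ℚ) = C (ik.2 : ℚ) := by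
            rw [map_natCast]
          rw [e2, coeff_C]
          split_ifs <;> ring
        · rw [if_neg h, if_neg h, map_zero, mul_zero, zero_mul]
      · refine Finset.sum_congr rfl fun b _ => ?_
        ring
    rw [Finset.sum_congr rfl e1, Finset.sum_add_distrib]
    congr 1
    · -- constants
      have e2 : ∀ i0 : I, m j (Sum.inl i0) * ((V (Sum.inl i0) l : ℤ) : ℚ) *
          (if Z (Sum.inl i0) β then 1 else 0) = if i0 = l then
          (∑ ik ∈ (Λ j).support, if ik.1 = i0 then Λ j ik * (ik.2 : ℚ) else 0) *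
            (if β = 0 then 1 else 0) else 0 := by
        intro i0
        by_cases h : i0 = l
        · rw [if_pos h]
          have e3 : V (Sum.inl i0) l = 1 := if_pos h
          rw [e3, Int.cast_one, mul_one]
        · rw [if_neg h]
          have e3 : V (Sum.inl i0) l = 0 := if_neg h
          rw [e3, Int.cast_zero, mul_zero, zero_mul]
      symm
      calc _ = ∑ i0 : I, if i0 = l then
            (∑ ik ∈ (Λ j).support, if ik.1 = i0 then Λ j ik * (ik.2 : ℚ) else 0) *
              (if β = 0 then 1 else 0) else 0 := by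
            refine Finset.sum_congr rfl fun i0 _ => ?_
            convert e2 i0
        _ = _ := by
            rw [Finset.sum_ite_eq' Finset.univ l, if_pos (Finset.mem_univ l), Finset.sum_mul]
    · have e2 : ∀ ik ∈ (Λ j).support, ∑ b ∈ Bf ik, Λ j ik * (cf ik b : ℚ) * (cw a b l : ℚ) *
          (if ∃ k : ℕ, 1 ≤ k ∧ β = k • b then 1 else 0) =
          ∑ b ∈ B, if b ∈ Bf ik then Λ j ik * (cf ik b : ℚ) * (cw a b l : ℚ) *
            (if ∃ k : ℕ, 1 ≤ k ∧ β = k • b then 1 else 0) else 0 := by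
        intro ik hik
        rw [← Finset.sum_filter]
        refine Finset.sum_congr ?_ fun _ _ => rfl
        ext b
        rw [Finset.mem_filter]
        refine ⟨fun h => ⟨?_, h⟩, fun h => h.2⟩
        refine Finset.mem_biUnion.2 ⟨ik, ?_, h⟩
        exact Finset.mem_biUnion.2 ⟨j, Finset.mem_univ j, hik⟩
      rw [Finset.sum_congr rfl e2, Finset.sum_comm, ← Finset.sum_coe_sort B]
      refine Finset.sum_congr rfl fun b _ => ?_
      change _ = (∑ ik ∈ (Λ j).support, if b.1 ∈ Bf ik then Λ j ik * (cf ik b.1 : ℚ) else 0) *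
        ((cw a b.1 l : ℤ) : ℚ) * (if ∃ k : ℕ, 1 ≤ k ∧ β = k • b.1 then 1 else 0)
      rw [Finset.sum_mul, Finset.sum_mul]
      refine Finset.sum_congr rfl fun ik _ => ?_
      by_cases h : b.1 ∈ Bf ik
      · rw [if_pos h, if_pos h]
      · rw [if_neg h, if_neg h, zero_mul, zero_mul]

end

end Pool.Agent.H27.KAC

end

section

/-!
KAC ADE, module AD9: the Frobenius congruence for terms.
-/

set_option autoImplicit false

namespace Pool.Agent.H27.KAC

open scoped BigOperators
open MvPowerSeries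

section

variable {I : Type} [Fintype I] [DecidableEq I]

/-- all data of the term are `p`-integral. -/
structure TPI (p : ℕ) (T : Trm I) : Prop where
  γ : ∀ i, PI p (T.γ i)
  E : ∀ ik, PI p (T.E ik)
  Λ : ∀ j ik, PI p (T.Λ j ik)

theorem AD9_large {ι : Type} (s : Finset ι) (f : ι → ℚ) :
    ∃ N : ℕ, ∀ p : ℕ, N ≤ p → ∀ i ∈ s, PI p (f i) := by
  classical
  induction s using Finset.induction_on with
  | empty => exact ⟨0, fun p _ i hi => absurd hi (Finset.notMem_empty i)⟩
  | insert j s hj ih =>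
    obtain ⟨N, hN⟩ := ih
    obtain ⟨M, hM⟩ := PI_of_large (f j)
    refine ⟨max N M, fun p hp i hi => ?_⟩
    rcases Finset.mem_insert.1 hi with h | h
    · rw [h]
      exact hM p ((le_max_right N M).trans hp)
    · exact hN p ((le_max_left N M).trans hp) i h

omit [Fintype I] [DecidableEq I] in
theorem AD9_large_QE (E : QE I) : ∃ N : ℕ, ∀ p : ℕ, N ≤ p → ∀ ik, PI p (E ik) := by
  obtain ⟨N, hN⟩ := AD9_large E.support (fun ik => E ik)
  obtain ⟨M, hM⟩ := PI_of_large 0
  refine ⟨max N M, fun p hp ik => ?_⟩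
  by_cases h : ik ∈ E.support
  · exact hN p ((le_max_left N M).trans hp) ik h
  · rw [Finsupp.notMem_support_iff.1 h]
    exact hM p ((le_max_right N M).trans hp)

theorem AD9_large_fam {ι : Type} (s : Finset ι) (P : ι → ℕ → Prop)
    (h : ∀ i ∈ s, ∃ N : ℕ, ∀ p : ℕ, N ≤ p → P i p) :
    ∃ N : ℕ, ∀ p : ℕ, N ≤ p → ∀ i ∈ s, P i p := by
  classical
  induction s using Finset.induction_on with
  | empty => exact ⟨0, fun p _ i hi => absurd hi (Finset.notMem_empty i)⟩
  | insert j s hj ih =>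
    obtain ⟨N, hN⟩ := ih (fun i hi => h i (Finset.mem_insert_of_mem hi))
    obtain ⟨M, hM⟩ := h j (Finset.mem_insert_self j s)
    refine ⟨max N M, fun p hp i hi => ?_⟩
    rcases Finset.mem_insert.1 hi with h' | h'
    · rw [h']
      exact hM p ((le_max_right N M).trans hp)
    · exact hN p ((le_max_left N M).trans hp) i h'

theorem TPI_of_large (T : Trm I) : ∃ N : ℕ, ∀ p : ℕ, N ≤ p → TPI p T := by
  obtain ⟨N1, h1⟩ := AD9_large Finset.univ T.γ
  obtain ⟨N2, h2⟩ := AD9_large_QE T.E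
  obtain ⟨N3, h3⟩ := AD9_large_fam (Finset.univ : Finset I)
    (fun j p => ∀ ik, PI p (T.Λ j ik)) (fun j _ => AD9_large_QE (T.Λ j))
  refine ⟨max N1 (max N2 N3), fun p hp => ⟨fun i => ?_, ?_, fun j => ?_⟩⟩
  · exact h1 p ((le_max_left _ _).trans hp) i (Finset.mem_univ i)
  · exact h2 p (((le_max_left _ _).trans (le_max_right _ _)).trans hp)
  · exact h3 p (((le_max_right _ _).trans (le_max_right _ _)).trans hp) j (Finset.mem_univ j)

theorem AD9_TV_ok (a : I → I → ℕ) (T : Trm I) (h : TOk a T) : TV a T = TV0 a T := by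
  unfold TV
  exact if_pos h

theorem AD9_TV_not (a : I → I → ℕ) (T : Trm I) (h : ¬ TOk a T) : TV a T = 0 := by
  unfold TV
  exact if_neg h

/-- a `p`-integral number `q` with `p q` a natural number is a natural number. -/
theorem AD9_nat_of_mul {p : ℕ} (hp : p.Prime) (q : ℚ) (hq : PI p q)
    (h : ((⌊(p : ℚ) * q⌋₊ : ℕ) : ℚ) = (p : ℚ) * q) : ((⌊q⌋₊ : ℕ) : ℚ) = q := by
  set n : ℕ := ⌊(p : ℚ) * q⌋₊ with hn
  have hp0 : (p : ℚ) ≠ 0 := Nat.cast_ne_zero.2 hp.ne_zero
  have hden : (q.den : ℚ) ≠ 0 := Nat.cast_ne_zero.2 q.den_ne_zero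
  have hqe : q * (q.den : ℚ) = (q.num : ℚ) := Rat.mul_den_eq_num q
  have h1 : ((n * q.den : ℕ) : ℚ) = ((p * q.num : ℤ) : ℚ) := by
    push_cast
    rw [h, mul_assoc, hqe]
  have h2 : ((n * q.den : ℕ) : ℤ) = (p : ℤ) * q.num := by exact_mod_cast h1
  have h3 : (p : ℤ) ∣ ((n * q.den : ℕ) : ℤ) := ⟨q.num, h2⟩
  have h4 : p ∣ n * q.den := by exact_mod_cast h3
  rcases (hp.dvd_mul).1 h4 with h5 | h5
  · obtain ⟨m, hm⟩ := h5
    have h6 : q = (m : ℚ) := by
      have h7 : (p : ℚ) * q = (p : ℚ) * (m : ℚ) := by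
        rw [← h, hm]
        push_cast
        ring
      exact mul_left_cancel₀ hp0 h7
    rw [h6, Nat.floor_natCast]
  · exact absurd h5 hq

theorem AD9_TOk_pow {p : ℕ} (hp : p.Prime) (a : I → I → ℕ) (T : Trm I) (h : TPI p T) :
    TOk a (T.pow p) ↔ TOk a T := by
  have hp0 : (p : ℚ) ≠ 0 := Nat.cast_ne_zero.2 hp.ne_zero
  unfold TOk Trm.pow
  constructor
  · rintro ⟨h1, h2⟩
    refine ⟨fun i => AD9_nat_of_mul hp (T.γ i) (h.γ i) (h1 i), fun i => ?_⟩
    have h3 := h2 i
    simp only [] at h3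
    rw [tdg_smul, cq_smul] at h3
    exact mul_left_cancel₀ hp0 h3
  · rintro ⟨h1, h2⟩
    refine ⟨fun i => ?_, fun i => ?_⟩
    · have h4 : (p : ℚ) * T.γ i = ((p * ⌊T.γ i⌋₊ : ℕ) : ℚ) := by
        push_cast
        rw [h1 i]
      simp only []
      rw [h4, Nat.floor_natCast]
    · simp only []
      rw [tdg_smul, cq_smul, h2 i]

omit [DecidableEq I] in
theorem AD9_gN_pow (p : ℕ) (γ : I → ℚ) (h : ∀ i, ((⌊γ i⌋₊ : ℕ) : ℚ) = γ i) :
    gN (fun i => (p : ℚ) * γ i) = p • gN γ := by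
  ext i
  have h4 : (p : ℚ) * γ i = ((p * ⌊γ i⌋₊ : ℕ) : ℚ) := by
    push_cast
    rw [h i]
  change ⌊(p : ℚ) * γ i⌋₊ = p * ⌊γ i⌋₊
  rw [h4, Nat.floor_natCast]

/-- `F^p D` at `p g` and `F D` at `g`. -/
theorem AD9_coeff {p : ℕ} (hp : p.Prime) (F D : MvPowerSeries I ℚ) (hF : CInt p F) (hD : CInt p D)
    (hC : ∀ g : I →₀ ℕ, PD p (coeff (p • g) D - coeff g D)) (g : I →₀ ℕ) :
    PD p (coeff (p • g) (F ^ p * D) - coeff g (F * D)) := by
  classical
  have hFp : CInt p (F ^ p) := by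
    have h : ∀ n : ℕ, CInt p (F ^ n) := by
      intro n
      induction n with
      | zero =>
        intro β
        rw [pow_zero, MvPowerSeries.coeff_one]
        split_ifs
        · exact_mod_cast PI_int hp 1
        · exact_mod_cast PI_int hp 0
      | succ n ih =>
        rw [pow_succ]
        exact CInt_mul hp ih hF
    exact h p
  rw [MvPowerSeries.coeff_mul, MvPowerSeries.coeff_mul]
  have hinj : Set.InjOn (fun uv : (I →₀ ℕ) × (I →₀ ℕ) => (p • uv.1, p • uv.2))
      (Finset.HasAntidiagonal.antidiagonal g : Set ((I →₀ ℕ) × (I →₀ ℕ))) := by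
    intro x _ y _ hxy
    simp only [Prod.mk.injEq] at hxy
    refine Prod.ext ?_ ?_
    · ext i
      have := DFunLike.congr_fun hxy.1 i
      simp only [Finsupp.smul_apply, smul_eq_mul] at this
      exact Nat.eq_of_mul_eq_mul_left hp.pos this
    · ext i
      have := DFunLike.congr_fun hxy.2 i
      simp only [Finsupp.smul_apply, smul_eq_mul] at this
      exact Nat.eq_of_mul_eq_mul_left hp.pos this
  set S : Finset ((I →₀ ℕ) × (I →₀ ℕ)) :=
    (Finset.HasAntidiagonal.antidiagonal g).image (fun uv => (p • uv.1, p • uv.2)) with hS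
  have hsub : S ⊆ Finset.HasAntidiagonal.antidiagonal (p • g) := by
    intro uv huv
    obtain ⟨x, hx, rfl⟩ := Finset.mem_image.1 huv
    rw [Finset.HasAntidiagonal.mem_antidiagonal] at hx ⊢
    simp only []
    rw [← smul_add, hx]
  rw [← Finset.sum_sdiff hsub, hS, Finset.sum_image hinj, add_sub_assoc, ← Finset.sum_sub_distrib]
  refine PD_add hp (PD_sum hp _ _ ?_) (PD_sum hp _ _ ?_)
  · rintro ⟨u, v⟩ huv
    rw [Finset.mem_sdiff, Finset.HasAntidiagonal.mem_antidiagonal] at huv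
    have hu : ¬ ∃ β' : I →₀ ℕ, u = p • β' := by
      rintro ⟨β, hβ⟩
      apply huv.2
      rw [Finset.mem_image]
      have huv1 : u + v = p • g := huv.1
      have hle : ∀ i, β i ≤ g i := by
        intro i
        have h1 := DFunLike.congr_fun huv1 i
        simp only [Finsupp.add_apply, Finsupp.smul_apply, smul_eq_mul, hβ] at h1
        have h2 : p * β i ≤ p * g i := by omega
        exact Nat.le_of_mul_le_mul_left h2 hp.pos
      refine ⟨(β, g - β), ?_, ?_⟩
      · rw [Finset.HasAntidiagonal.mem_antidiagonal]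
        ext i
        simp only [Finsupp.add_apply, Finsupp.tsub_apply]
        have := hle i
        omega
      · simp only [Prod.mk.injEq]
        refine ⟨hβ.symm, ?_⟩
        ext i
        have h1 := DFunLike.congr_fun huv1 i
        simp only [Finsupp.add_apply, Finsupp.smul_apply, smul_eq_mul, hβ, Finsupp.tsub_apply] at h1 ⊢
        rw [Nat.mul_sub]
        omega
    have h1 := coeff_pow_prime_of_not hp F hF u hu
    simp only []
    rw [mul_comm]
    exact PD_mul hp h1 (hD v)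
  · rintro ⟨u, v⟩ _
    simp only []
    have e : coeff (p • u) (F ^ p) * coeff (p • v) D - coeff u F * coeff v D =
        coeff (p • v) D * (coeff (p • u) (F ^ p) - coeff u F) +
          coeff u F * (coeff (p • v) D - coeff v D) := by ring
    rw [e]
    exact PD_add hp (PD_mul hp (coeff_pow_prime hp F hF u) (hD _)) (PD_mul hp (hC v) (hF _))

/-- Frobenius: `CT[F^p ∧ dlog] ≡ CT[F ∧ dlog]`. -/
theorem TV_frob {p : ℕ} (hp : p.Prime) (a : I → I → ℕ) (hs : ∀ i j, a i j = a j i) (T : Trm I)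
    (h : TPI p T) : PD p (TV a (T.pow p) - TV a T) := by
  by_cases hT : TOk a T
  · have hT' : TOk a (T.pow p) := (AD9_TOk_pow hp a T h).2 hT
    rw [AD9_TV_ok a T hT, AD9_TV_ok a _ hT']
    unfold TV0 Trm.pow
    simp only []
    rw [AD9_gN_pow p T.γ hT.1, mU_smul, rpw_nat _ (mU_const a T.E)]
    exact AD9_coeff hp _ _ (CInt_mU hp a T.E h.E) (CInt_det hp a T.Λ h.Λ)
      (det_cartier hp a hs T.Λ h.Λ) (gN T.γ)
  · have hT' : ¬ TOk a (T.pow p) := fun h' => hT ((AD9_TOk_pow hp a T h).1 h')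
    rw [AD9_TV_not a T hT, AD9_TV_not a _ hT', sub_zero]
    exact PD_zero hp

/-- if the powers `T^p` have value zero for infinitely many primes `p`, then `T` has value zero. -/
theorem TV_eq_zero_of_pow (a : I → I → ℕ) (hs : ∀ i j, a i j = a j i) (T : Trm I)
    (h : ∃ (d N : ℕ), 1 ≤ d ∧ ∀ p : ℕ, N ≤ p → p.Prime → p % d = 1 % d → TV a (T.pow p) = 0) :
    TV a T = 0 := by
  obtain ⟨d, N, hd, hN⟩ := h
  obtain ⟨M, hM⟩ := TPI_of_large T
  refine eq_zero_of_PD_mod (TV a T) d hd ⟨max N M, fun p hp hpp hpd => ?_⟩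
  have h1 := TV_frob hpp a hs T (hM p ((le_max_right _ _).trans hp))
  rw [hN p ((le_max_left _ _).trans hp) hpp hpd, zero_sub] at h1
  have h2 := PD_neg h1
  rwa [neg_neg] at h2

/-- comparison of two terms by their large prime powers. -/
theorem TV_eq_of_pow (a : I → I → ℕ) (hs : ∀ i j, a i j = a j i) (T T' : Trm I) (c : ℚ)
    (h : ∃ (d N : ℕ), 1 ≤ d ∧ ∀ p : ℕ, N ≤ p → p.Prime → p % d = 1 % d →
      TV a (T.pow p) = c * TV a (T'.pow p)) :
    TV a T = c * TV a T' := by
  obtain ⟨d, N, hd, hN⟩ := h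
  obtain ⟨M, hM⟩ := TPI_of_large T
  obtain ⟨M', hM'⟩ := TPI_of_large T'
  obtain ⟨K, hK⟩ := PI_of_large c
  have h0 : TV a T - c * TV a T' = 0 := by
    refine eq_zero_of_PD_mod _ d hd ⟨max (max N K) (max M M'), fun p hp hpp hpd => ?_⟩
    have hpN : N ≤ p := ((le_max_left _ _).trans (le_max_left _ _)).trans hp
    have hpK : K ≤ p := ((le_max_right _ _).trans (le_max_left _ _)).trans hp
    have hpM : M ≤ p := ((le_max_left _ _).trans (le_max_right _ _)).trans hp
    have hpM' : M' ≤ p := ((le_max_right _ _).trans (le_max_right _ _)).trans hp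
    have h1 := TV_frob hpp a hs T (hM p hpM)
    have h2 := TV_frob hpp a hs T' (hM' p hpM')
    have h3 := hN p hpN hpp hpd
    have e : TV a T - c * TV a T' =
        -(TV a (T.pow p) - TV a T) + c * (TV a (T'.pow p) - TV a T') := by
      rw [h3]
      ring
    rw [e]
    exact PD_add hpp (PD_neg h1) (PD_mul hpp h2 (hK p hpK))
  linarith

end

end Pool.Agent.H27.KAC

end

section

/-!
KAC ADE, module AE3: the firing lemma for terms.

One firing: `T = T0.mulE (2 • sy x k)`, `TV_rel`; in the difference term `T0.mulE (sy x (k+1) + sy x (k-1))` all exponents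
of `x` are natural, the symbols `(x,k±1)` are compensated, `(x,k)` has exponent `E(x,k) - 2 ≥ 1`: `TV_van`.
-/

set_option autoImplicit false

namespace Pool.Agent.H27.KAC

open scoped BigOperators

section

variable {I : Type} [Fintype I] [DecidableEq I]

theorem etaM_zero (a : I → I → ℕ) (κ : I → ℕ) (T : Trm I) : T.etaM a κ (fun _ => 0) = T := by
  unfold Trm.etaM
  apply Trm.ext
  · funext i
    simp
  · simp
  · rfl

theorem etaM_etaM (a : I → I → ℕ) (κ : I → ℕ) (δ δ' : I → ℚ) (T : Trm I) :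
    (T.etaM a κ δ).etaM a κ δ' = T.etaM a κ (fun i => δ i + δ' i) := by
  unfold Trm.etaM
  apply Trm.ext
  · funext i
    simp only []
    ring
  · simp only [add_smul, Finset.sum_add_distrib]
    abel
  · rfl

theorem eta_eq_etaM (a : I → I → ℕ) (k : ℕ) (δ : I → ℚ) (T : Trm I) :
    T.eta a k δ = T.etaM a (fun _ => k) δ := rfl

/-- exponents after multiplication by powers of `η`. -/
theorem etaM_E (a : I → I → ℕ) (κ : I → ℕ) (δ : I → ℚ) (T : Trm I) (i : I) (l : ℕ) :
    (T.etaM a κ δ).E (i, l) =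
      T.E (i, l) - ∑ x ∈ Finset.univ.filter (fun x => κ x = l), δ x * (cart a x i : ℚ) := by
  have h1 : (T.etaM a κ δ).E (i, l) = T.E (i, l) - (∑ x, δ x • cE a x (κ x)) (i, l) := rfl
  rw [h1, Finsupp.finsetSum_apply, Finset.sum_filter]
  congr 1
  refine Finset.sum_congr rfl (fun x _ => ?_)
  rw [Finsupp.smul_apply, cE_apply, smul_eq_mul]
  by_cases h : κ x = l
  · rw [if_pos h, if_pos h.symm]
  · rw [if_neg h, if_neg (fun h' => h h'.symm), mul_zero]

theorem etaM_pow (a : I → I → ℕ) (κ : I → ℕ) (δ : I → ℚ) (T : Trm I) (p : ℚ) :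
    (T.etaM a κ δ).pow p = (T.pow p).etaM a κ (fun i => p * δ i) := by
  unfold Trm.etaM Trm.pow
  apply Trm.ext
  · funext i
    simp only []
    ring
  · simp only [smul_sub, Finset.smul_sum, smul_smul]
  · rfl

theorem FReg.pow {T : Trm I} {x : I} {k σ : ℕ} (h : FReg T x k σ) (p : ℕ) (hp : 1 ≤ p) :
    FReg (T.pow p) x k σ := by
  have hE : ∀ ik, (T.pow p).E ik = (p : ℚ) * T.E ik := fun ik => rfl
  refine ⟨fun l hl hlk => ?_, ?_, fun j l hl hne => ?_⟩
  · obtain ⟨n, hn⟩ := h.nat l hl hlk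
    refine ⟨p * n, ?_⟩
    rw [hE, hn]
    push_cast
    ring
  · obtain ⟨n, hn⟩ := h.int
    refine ⟨p * n, ?_⟩
    rw [hE, hn]
    push_cast
    ring
  · rcases h.col j l hl hne with h1 | h1 | h1
    · exact Or.inl h1
    · exact Or.inr (Or.inl h1)
    · refine Or.inr (Or.inr ?_)
      rw [hE]
      have hp' : (1 : ℚ) ≤ p := by exact_mod_cast hp
      calc (1 : ℚ) = 1 * 1 := by ring
        _ ≤ (p : ℚ) * T.E (x, l) := mul_le_mul hp' h1 zero_le_one (by linarith)

theorem AE3_single (a : I → I → ℕ) (κ : I → ℕ) (x : I) (T : Trm I) :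
    T.eta a (κ x) (Pi.single x 1) = T.etaM a κ (fun i => if i = x then 1 else 0) := by
  unfold Trm.eta Trm.etaM
  apply Trm.ext
  · funext i
    simp only [Pi.single_apply]
    by_cases h : i = x
    · simp only [h, if_true]
    · simp only [h, if_false, mul_zero]
  · simp only []
    congr 1
    refine Finset.sum_congr rfl (fun y _ => ?_)
    rw [Pi.single_apply]
    by_cases h : y = x
    · rw [h]
    · rw [if_neg h, zero_smul, zero_smul]
  · rfl

theorem AE3_E (a : I → I → ℕ) (k : ℕ) (x : I) (T : Trm I) (y : I) (l : ℕ) :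
    (T.eta a k (Pi.single x 1)).E (y, l) =
      T.E (y, l) - (if l = k then ((cart a x y : ℤ) : ℚ) else 0) := by
  have h1 : (T.eta a k (Pi.single x 1)).E (y, l) =
    T.E (y, l) - (∑ z, (Pi.single x (1 : ℚ) : I → ℚ) z • cE a z k) (y, l) := rfl
  rw [h1, Finsupp.finsetSum_apply, Finset.sum_eq_single x]
  · rw [Finsupp.smul_apply, Pi.single_eq_same, one_smul, cE_apply]
  · intro z _ hz
    rw [Finsupp.smul_apply, Pi.single_eq_of_ne hz, zero_smul]
  · intro hx
    exact absurd (Finset.mem_univ x) hx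

theorem AE3_cart_symm (a : I → I → ℕ) (hs : ∀ i j, a i j = a j i) (x y : I) :
    cart a x y = cart a y x := by
  unfold cart
  rw [hs x y]
  by_cases h : x = y
  · rw [if_pos h, if_pos h.symm]
  · rw [if_neg h, if_neg (fun h' => h h'.symm)]

theorem AE3_cart_ne (a : I → I → ℕ) {x y : I} (h : x ≠ y) : cart a x y = -(a x y : ℤ) := by
  unfold cart
  rw [if_neg h, zero_sub]

end

end Pool.Agent.H27.KAC

end

section

/-!
KAC ADE, module AG1: algebra of patterns (everything is bookkeeping; `Trm.ext` and `Finsupp.ext`).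
-/

set_option autoImplicit false
set_option linter.unusedSectionVars false

namespace Pool.Agent.H27.KAC

open scoped BigOperators

section

variable {I : Type} [Fintype I] [DecidableEq I]

/-- general insertion. -/
noncomputable def AG1_ins (a : I → I → ℕ) (κ : I → ℕ) (δ : I → ℚ) (B : Finset I) (c : I → QE I)
    (T : Trm I) : Trm I :=
  ⟨fun i => T.γ i - κ i * δ i, T.E - ∑ x, δ x • cE a x (κ x), fun i => if i ∈ B then c i else T.Λ i⟩

theorem AG1_patT (a : I → I → ℕ) (B : Finset I) (π : Pat I) (T : Trm I) :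
    patT a B π T = AG1_ins a π.s (fun i => -resQ B π.q i) B (fun x => sy x (π.s x + 1)) T := rfl

theorem AG1_blkT (a : I → I → ℕ) (B : Finset I) (k σ : ℕ) (q : I → ℚ) (T : Trm I) :
    blkT a B k σ q T = AG1_ins a (fun _ => k) (fun i => -resQ B q i) B (fun x => sy x σ) T := rfl

theorem AG1_rawT (a : I → I → ℕ) (B : Finset I) (k : ℕ) (q : I → ℚ) (m : I → ℕ) (T : Trm I) :
    rawT a B k q m T = AG1_ins a (fun _ => k) (fun i => if i ∈ B then (m i : ℚ) - q i else 0) B
      (fun x => if m x = 0 then sy x (k - 1) else cE a x k) T := rfl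

theorem AG1_comm (a : I → I → ℕ) (κ κ' : I → ℕ) (δ δ' : I → ℚ) (A B : Finset I)
    (h : Disjoint A B) (c c' : I → QE I) (T : Trm I) :
    AG1_ins a κ δ A c (AG1_ins a κ' δ' B c' T) = AG1_ins a κ' δ' B c' (AG1_ins a κ δ A c T) := by
  refine Trm.ext ?_ ?_ ?_
  · funext i
    show T.γ i - κ' i * δ' i - κ i * δ i = T.γ i - κ i * δ i - κ' i * δ' i
    ring
  · show T.E - (∑ x, δ' x • cE a x (κ' x)) - (∑ x, δ x • cE a x (κ x)) =
      T.E - (∑ x, δ x • cE a x (κ x)) - (∑ x, δ' x • cE a x (κ' x))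
    abel
  · funext i
    show (if i ∈ A then c i else if i ∈ B then c' i else T.Λ i) =
      if i ∈ B then c' i else if i ∈ A then c i else T.Λ i
    by_cases hA : i ∈ A
    · rw [if_pos hA, if_neg (Finset.disjoint_left.1 h hA), if_pos hA]
    · rw [if_neg hA, if_neg hA]

theorem AG1_union (a : I → I → ℕ) (κ κ' κ'' : I → ℕ) (δ δ' δ'' : I → ℚ) (A B : Finset I)
    (c c' c'' : I → QE I) (T : Trm I)
    (hγ : ∀ i, (κ'' i : ℚ) * δ'' i = κ i * δ i + κ' i * δ' i)
    (hE : ∀ i, δ'' i • cE a i (κ'' i) = δ i • cE a i (κ i) + δ' i • cE a i (κ' i))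
    (hA : ∀ i ∈ A, c'' i = c i) (hB : ∀ i ∈ B, i ∉ A → c'' i = c' i) :
    AG1_ins a κ'' δ'' (A ∪ B) c'' T = AG1_ins a κ δ A c (AG1_ins a κ' δ' B c' T) := by
  refine Trm.ext ?_ ?_ ?_
  · funext i
    show T.γ i - κ'' i * δ'' i = T.γ i - κ' i * δ' i - κ i * δ i
    rw [hγ]
    ring
  · show T.E - (∑ x, δ'' x • cE a x (κ'' x)) =
      T.E - (∑ x, δ' x • cE a x (κ' x)) - (∑ x, δ x • cE a x (κ x))
    rw [Finset.sum_congr rfl fun x _ => hE x, Finset.sum_add_distrib]
    abel
  · funext i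
    show (if i ∈ A ∪ B then c'' i else T.Λ i) = if i ∈ A then c i else if i ∈ B then c' i else T.Λ i
    by_cases h1 : i ∈ A
    · rw [if_pos h1, if_pos (Finset.mem_union_left _ h1), hA i h1]
    · by_cases h2 : i ∈ B
      · rw [if_neg h1, if_pos h2, if_pos (Finset.mem_union_right _ h2), hB i h2 h1]
      · rw [if_neg h1, if_neg h2, if_neg]
        rw [Finset.mem_union]
        rintro (h | h)
        · exact h1 h
        · exact h2 h

theorem AG1_congr (a : I → I → ℕ) (κ κ' : I → ℕ) (δ δ' : I → ℚ) (B : Finset I)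
    (c c' : I → QE I) (T T' : Trm I) (hγ : T.γ = T'.γ) (hE : T.E = T'.E)
    (hΛ : ∀ j, j ∉ B → T.Λ j = T'.Λ j)
    (hγ' : ∀ i, (κ i : ℚ) * δ i = κ' i * δ' i)
    (hE' : ∀ i, δ i • cE a i (κ i) = δ' i • cE a i (κ' i)) (hc : ∀ i ∈ B, c i = c' i) :
    AG1_ins a κ δ B c T = AG1_ins a κ' δ' B c' T' := by
  refine Trm.ext ?_ ?_ ?_
  · funext i
    show T.γ i - κ i * δ i = T'.γ i - κ' i * δ' i
    rw [hγ, hγ']
  · show T.E - (∑ x, δ x • cE a x (κ x)) = T'.E - (∑ x, δ' x • cE a x (κ' x))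
    rw [hE, Finset.sum_congr rfl fun x _ => hE' x]
  · funext i
    show (if i ∈ B then c i else T.Λ i) = if i ∈ B then c' i else T'.Λ i
    by_cases h1 : i ∈ B
    · rw [if_pos h1, if_pos h1, hc i h1]
    · rw [if_neg h1, if_neg h1, hΛ i h1]

theorem AG1_E (a : I → I → ℕ) (κ : I → ℕ) (δ : I → ℚ) (B : Finset I) (c : I → QE I) (T : Trm I)
    (x : I) (l : ℕ) (h : ∀ y, δ y ≠ 0 → cart a y x = 0) :
    (AG1_ins a κ δ B c T).E (x, l) = T.E (x, l) := by
  show (T.E - ∑ y, δ y • cE a y (κ y)) (x, l) = T.E (x, l)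
  rw [Finsupp.sub_apply, Finsupp.finsetSum_apply, Finset.sum_eq_zero, sub_zero]
  intro y _
  rw [Finsupp.smul_apply, cE_apply, smul_eq_mul]
  by_cases hy : δ y = 0
  · rw [hy, zero_mul]
  · rw [h y hy]
    simp

theorem AG1_RReg (a : I → I → ℕ) (κ : I → ℕ) (δ : I → ℚ) (A B : Finset I) (c : I → QE I) (T : Trm I)
    (h : ∀ x ∈ A, ∀ y, δ y ≠ 0 → cart a y x = 0)
    (hc : ∀ j ∈ B, ∀ x ∈ A, ∀ l, 1 ≤ l → c j (x, l) = 0) (hT : RReg (A ∪ B) T) :
    RReg A (AG1_ins a κ δ B c T) := by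
  refine ⟨fun x hx l hl => ?_, fun x hx j hj l hl hne => ?_⟩
  · rw [AG1_E a κ δ B c T x l (h x hx)]
    exact hT.nat x (Finset.mem_union_left _ hx) l hl
  · rw [AG1_E a κ δ B c T x l (h x hx)]
    have h1 : (if j ∈ B then c j else T.Λ j) (x, l) ≠ 0 := hne
    by_cases hB : j ∈ B
    · rw [if_pos hB] at h1
      exact absurd (hc j hB x hx l hl) h1
    · rw [if_neg hB] at h1
      refine hT.col x (Finset.mem_union_left _ hx) j ?_ l hl h1
      rw [Finset.mem_union]
      rintro (h2 | h2)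
      · exact hj h2
      · exact hB h2

theorem AG1_Kink (a : I → I → ℕ) (κ : I → ℕ) (δ : I → ℚ) (A B : Finset I) (c : I → QE I)
    (T : Trm I) (f : ℕ) (h : ∀ x ∈ A, ∀ y, δ y ≠ 0 → cart a y x = 0) (hT : Kink A f T) :
    Kink A f (AG1_ins a κ δ B c T) := by
  obtain ⟨x, hx, h1⟩ := hT
  refine ⟨x, hx, ?_⟩
  rw [AG1_E a κ δ B c T x f (h x hx)]
  exact h1

theorem AG1_cart {a : I → I → ℕ} (hs : ∀ i j, a i j = a j i) {x y : I} (hxy : x ≠ y)
    (h : a x y = 0) : cart a y x = 0 := by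
  unfold cart
  rw [if_neg hxy.symm, hs y x, h]
  simp

theorem AG1_res_ne {B : Finset I} {q : I → ℚ} {y : I} (h : -resQ B q y ≠ 0) : y ∈ B ∧ q y ≠ 0 := by
  unfold resQ at h
  by_cases hy : y ∈ B
  · rw [if_pos hy] at h
    exact ⟨hy, fun h0 => h (by rw [h0, neg_zero])⟩
  · rw [if_neg hy] at h
    exact absurd neg_zero h

theorem AG1_sy_apply {x j : I} (h : x ≠ j) (l k : ℕ) : (sy j k : QE I) (x, l) = 0 := by
  refine Finsupp.single_eq_of_ne ?_
  intro h'
  exact h (congrArg Prod.fst h')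

theorem AG1_sep_cart {a : I → I → ℕ} (hs : ∀ i j, a i j = a j i) {A B : Finset I}
    (h : Sep a A B) {x y : I} (hx : x ∈ A) (hy : y ∈ B) : cart a y x = 0 :=
  AG1_cart hs (fun h0 => Finset.disjoint_left.1 h.1 hx (h0 ▸ hy)) (h.2 x hx y hy)

theorem AG1_disj_ne {A B : Finset I} (h : Disjoint A B) {x y : I} (hx : x ∈ A) (hy : y ∈ B) :
    x ≠ y := fun h0 => Finset.disjoint_left.1 h hx (h0 ▸ hy)

theorem AG1_sum_comm {α β : Type} (L : List α) (M : List β) (f : α → β → ℚ) :
    (L.map fun c => (M.map fun d => f c d).sum).sum =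
      (M.map fun d => (L.map fun c => f c d).sum).sum := by
  induction L with
  | nil => simp
  | cons c L ih =>
    rw [List.map_cons, List.sum_cons, ih]
    simp only [List.map_cons, List.sum_cons]
    rw [List.sum_map_add]

theorem AG1_flat {α β : Type} (L : List α) (f : α → List β) (g : β → ℚ) :
    ((L.flatMap f).map g).sum = (L.map fun c => ((f c).map g).sum).sum := by
  induction L with
  | nil => simp
  | cons c L ih => rw [List.flatMap_cons, List.map_append, List.sum_append, ih, List.map_cons,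
      List.sum_cons]

theorem AG1_mul_sum {α : Type} (L : List α) (r : ℚ) (f : α → ℚ) :
    r * (L.map f).sum = (L.map fun c => r * f c).sum := by
  rw [List.sum_map_mul_left]

theorem AG1_disj_uni (B : Finset I) (U : List (Finset I × FFn I))
    (h : ∀ c ∈ U, Disjoint B c.1) : Disjoint B (uni U) := by
  induction U with
  | nil => exact Finset.disjoint_empty_right B
  | cons b U ih =>
    show Disjoint B (b.1 ∪ uni U)
    rw [Finset.disjoint_union_right]
    exact ⟨h b List.mem_cons_self, ih fun c hc => h c (List.mem_cons_of_mem _ hc)⟩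

theorem AG1_sep_uni (a : I → I → ℕ) (B : Finset I) (U : List (Finset I × FFn I))
    (h : ∀ c ∈ U, Sep a B c.1) : Sep a B (uni U) := by
  refine ⟨AG1_disj_uni B U fun c hc => (h c hc).1, ?_⟩
  induction U with
  | nil =>
    intro x _ y hy
    exact absurd hy (Finset.notMem_empty y)
  | cons b U ih =>
    intro x hx y hy
    have hy' : y ∈ b.1 ∪ uni U := hy
    rw [Finset.mem_union] at hy'
    rcases hy' with h1 | h1
    · exact (h b List.mem_cons_self).2 x hx y h1
    · exact ih (fun c hc => h c (List.mem_cons_of_mem _ hc)) x hx y h1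

theorem tauT_eq_patT (a : I → I → ℕ) (B : Finset I) (k : ℕ) (q : I → ℚ) (T : Trm I) :
    tauT a B k q T = patT a B ⟨fun _ => k, q⟩ T := by
  rfl

theorem patT_E (a : I → I → ℕ) (B : Finset I) (π : Pat I) (T : Trm I) (i : I) (l : ℕ) :
    (patT a B π T).E (i, l) =
      T.E (i, l) + ∑ x ∈ B.filter (fun x => π.s x = l), π.q x * (cart a x i : ℚ) := by
  show (T.E - ∑ x, (-resQ B π.q x) • cE a x (π.s x)) (i, l) = _
  rw [Finsupp.sub_apply, Finsupp.finsetSum_apply, sub_eq_add_neg, ← Finset.sum_neg_distrib,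
    Finset.sum_filter]
  congr 1
  have h1 : ∀ x, -((-resQ B π.q x) • cE a x (π.s x)) (i, l) =
      if x ∈ B then (if π.s x = l then π.q x * (cart a x i : ℚ) else 0) else 0 := by
    intro x
    rw [Finsupp.smul_apply, cE_apply, smul_eq_mul]
    unfold resQ
    by_cases hx : x ∈ B
    · rw [if_pos hx, if_pos hx]
      by_cases hl : l = π.s x
      · rw [if_pos hl, if_pos hl.symm]
        ring
      · rw [if_neg hl, if_neg (Ne.symm hl)]
        ring
    · rw [if_neg hx, if_neg hx]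
      ring
  rw [Finset.sum_congr rfl fun x _ => h1 x, Finset.sum_ite_mem, Finset.univ_inter]

theorem patT_comm (a : I → I → ℕ) (B B' : Finset I) (h : Disjoint B B') (π π' : Pat I) (T : Trm I) :
    patT a B π (patT a B' π' T) = patT a B' π' (patT a B π T) := by
  rw [AG1_patT, AG1_patT, AG1_patT, AG1_patT, AG1_comm a _ _ _ _ B B' h]

theorem patT_glue (a : I → I → ℕ) (B B' : Finset I) (h : Disjoint B B') (π π' : Pat I) (T : Trm I) :
    patT a (B ∪ B') (glue B π π') T = patT a B π (patT a B' π' T) := by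
  rw [AG1_patT, AG1_patT, AG1_patT]
  have hr : ∀ i, -resQ (B ∪ B') (glue B π π').q i = -resQ B π.q i + -resQ B' π'.q i := by
    intro i
    unfold resQ glue
    dsimp only
    by_cases h1 : i ∈ B
    · have h2 : i ∉ B' := Finset.disjoint_left.1 h h1
      simp [h1, h2]
    · by_cases h2 : i ∈ B'
      · simp [h1, h2]
      · simp [h1, h2]
  have hn : ∀ i, i ∉ B → resQ B π.q i = 0 := fun i hi => if_neg hi
  have hn' : ∀ i, i ∉ B' → resQ B' π'.q i = 0 := fun i hi => if_neg hi
  refine AG1_union a _ _ _ _ _ _ B B' _ _ _ T ?_ ?_ ?_ ?_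
  · intro i
    rw [hr]
    by_cases h1 : i ∈ B
    · rw [hn' i (Finset.disjoint_left.1 h h1), show (glue B π π').s i = π.s i from if_pos h1]
      ring
    · rw [hn i h1, show (glue B π π').s i = π'.s i from if_neg h1]
      ring
  · intro i
    rw [hr]
    by_cases h1 : i ∈ B
    · rw [hn' i (Finset.disjoint_left.1 h h1), show (glue B π π').s i = π.s i from if_pos h1,
        neg_zero, add_zero, zero_smul, add_zero]
    · rw [hn i h1, show (glue B π π').s i = π'.s i from if_neg h1, neg_zero, zero_add, zero_smul,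
        zero_add]
  · intro i hi
    rw [show (glue B π π').s i = π.s i from if_pos hi]
  · intro i _ hi
    rw [show (glue B π π').s i = π'.s i from if_neg hi]

theorem blkT_union (a : I → I → ℕ) (A B : Finset I) (h : Disjoint A B) (k σ : ℕ) (q : I → ℚ)
    (T : Trm I) : blkT a (A ∪ B) k σ q T = blkT a A k σ q (blkT a B k σ q T) := by
  rw [AG1_blkT, AG1_blkT, AG1_blkT]
  have hr : ∀ i, -resQ (A ∪ B) q i = -resQ A q i + -resQ B q i := by
    intro i
    unfold resQ
    by_cases h1 : i ∈ A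
    · have h2 : i ∉ B := Finset.disjoint_left.1 h h1
      simp [h1, h2]
    · by_cases h2 : i ∈ B
      · simp [h1, h2]
      · simp [h1, h2]
  refine AG1_union a _ _ _ _ _ _ A B _ _ _ T ?_ ?_ ?_ ?_
  · intro i
    rw [hr]
    ring
  · intro i
    rw [hr, add_smul]
  · intro i _
    rfl
  · intro i _ _
    rfl

theorem blkT_comm (a : I → I → ℕ) (A B : Finset I) (h : Disjoint A B) (k σ k' σ' : ℕ)
    (q q' : I → ℚ) (T : Trm I) :
    blkT a A k σ q (blkT a B k' σ' q' T) = blkT a B k' σ' q' (blkT a A k σ q T) := by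
  rw [AG1_blkT, AG1_blkT, AG1_blkT, AG1_blkT, AG1_comm a _ _ _ _ A B h]

theorem blkT_patT_comm (a : I → I → ℕ) (A B : Finset I) (h : Disjoint A B) (k σ : ℕ)
    (q : I → ℚ) (π : Pat I) (T : Trm I) :
    blkT a A k σ q (patT a B π T) = patT a B π (blkT a A k σ q T) := by
  rw [AG1_blkT, AG1_patT, AG1_patT, AG1_blkT, AG1_comm a _ _ _ _ A B h]

theorem rawT_patT_comm (a : I → I → ℕ) (A B : Finset I) (h : Disjoint A B) (k : ℕ)
    (q : I → ℚ) (m : I → ℕ) (π : Pat I) (T : Trm I) :
    rawT a A k q m (patT a B π T) = patT a B π (rawT a A k q m T) := by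
  rw [AG1_rawT, AG1_patT, AG1_patT, AG1_rawT, AG1_comm a _ _ _ _ A B h]

theorem rawT_blkT_comm (a : I → I → ℕ) (A B : Finset I) (h : Disjoint A B) (k k' σ : ℕ)
    (q q' : I → ℚ) (m : I → ℕ) (T : Trm I) :
    rawT a A k q m (blkT a B k' σ q' T) = blkT a B k' σ q' (rawT a A k q m T) := by
  rw [AG1_rawT, AG1_blkT, AG1_blkT, AG1_rawT, AG1_comm a _ _ _ _ A B h]

theorem patT_etaM_comm (a : I → I → ℕ) (B : Finset I) (π : Pat I) (κ : I → ℕ) (δ : I → ℚ)
    (T : Trm I) : patT a B π (T.etaM a κ δ) = (patT a B π T).etaM a κ δ := by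
  refine Trm.ext ?_ ?_ rfl
  · funext i
    show T.γ i - κ i * δ i - π.s i * (-resQ B π.q i) = T.γ i - π.s i * (-resQ B π.q i) - κ i * δ i
    ring
  · show T.E - (∑ x, δ x • cE a x (κ x)) - (∑ x, (-resQ B π.q x) • cE a x (π.s x)) =
      T.E - (∑ x, (-resQ B π.q x) • cE a x (π.s x)) - (∑ x, δ x • cE a x (κ x))
    abel

theorem patT_col_comm (a : I → I → ℕ) (B : Finset I) (π : Pat I) (j : I) (hj : j ∉ B) (c : QE I)
    (T : Trm I) : patT a B π (T.col j c) = (patT a B π T).col j c := by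
  refine Trm.ext rfl rfl ?_
  funext i
  show (if i ∈ B then sy i (π.s i + 1) else Function.update T.Λ j c i) =
    Function.update (fun i => if i ∈ B then sy i (π.s i + 1) else T.Λ i) j c i
  by_cases h1 : i = j
  · subst h1
    rw [if_neg hj, Function.update_self, Function.update_self]
  · rw [Function.update_of_ne h1, Function.update_of_ne h1]

theorem patT_mulE_comm (a : I → I → ℕ) (B : Finset I) (π : Pat I) (F : QE I)
    (T : Trm I) : patT a B π (T.mulE F) = (patT a B π T).mulE F := by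
  refine Trm.ext rfl ?_ rfl
  show T.E + F - (∑ x, (-resQ B π.q x) • cE a x (π.s x)) =
    T.E - (∑ x, (-resQ B π.q x) • cE a x (π.s x)) + F
  abel

/-- columns of the vertices of `B` in `T` are irrelevant. -/
theorem patT_congr_cols (a : I → I → ℕ) (B : Finset I) (π : Pat I) (T T' : Trm I)
    (hγ : T.γ = T'.γ) (hE : T.E = T'.E) (hΛ : ∀ j, j ∉ B → T.Λ j = T'.Λ j) :
    patT a B π T = patT a B π T' := by
  rw [AG1_patT, AG1_patT]
  exact AG1_congr a _ _ _ _ B _ _ T T' hγ hE hΛ (fun _ => rfl) (fun _ => rfl) fun _ _ => rfl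

/-- only the values of the pattern on `B` matter. -/
theorem patT_congr (a : I → I → ℕ) (B : Finset I) (π π' : Pat I) (T : Trm I)
    (hs : ∀ x ∈ B, π.s x = π'.s x) (hq : ∀ x ∈ B, π.q x = π'.q x) :
    patT a B π T = patT a B π' T := by
  rw [AG1_patT, AG1_patT]
  have hr : ∀ i, resQ B π.q i = resQ B π'.q i := by
    intro i
    unfold resQ
    by_cases h1 : i ∈ B
    · rw [if_pos h1, if_pos h1, hq i h1]
    · rw [if_neg h1, if_neg h1]
  have hn : ∀ i, i ∉ B → resQ B π'.q i = 0 := fun i hi => if_neg hi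
  refine AG1_congr a _ _ _ _ B _ _ T T rfl rfl (fun _ _ => rfl) ?_ ?_ ?_
  · intro i
    rw [hr]
    by_cases h1 : i ∈ B
    · rw [hs i h1]
    · rw [hn i h1]
      ring
  · intro i
    rw [hr]
    by_cases h1 : i ∈ B
    · rw [hs i h1]
    · rw [hn i h1, neg_zero, zero_smul, zero_smul]
  · intro i hi
    rw [hs i hi]

/-- regularity for a part of the union, after the other part has been filled. -/
theorem RReg_patT (a : I → I → ℕ) (hs : ∀ i j, a i j = a j i) (A B : Finset I) (hAB : Disjoint A B)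
    (π : Pat I) (hins : ∀ x ∈ A, ∀ y ∈ B, π.q y ≠ 0 → a x y = 0) (T : Trm I) (hT : RReg (A ∪ B) T) :
    RReg A (patT a B π T) := by
  rw [AG1_patT]
  refine AG1_RReg a _ _ A B _ T ?_ ?_ hT
  · intro x hx y hy
    obtain ⟨h1, h2⟩ := AG1_res_ne hy
    exact AG1_cart hs (AG1_disj_ne hAB hx h1) (hins x hx y h1 h2)
  · intro j hj x hx l _
    exact AG1_sy_apply (AG1_disj_ne hAB hx hj) l _

theorem RReg_blkT (a : I → I → ℕ) (hs : ∀ i j, a i j = a j i) (A B : Finset I) (hAB : Sep a A B)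
    (k σ : ℕ) (q : I → ℚ) (T : Trm I) (hT : RReg (A ∪ B) T) : RReg A (blkT a B k σ q T) := by
  rw [AG1_blkT]
  refine AG1_RReg a _ _ A B _ T ?_ ?_ hT
  · intro x hx y hy
    exact AG1_sep_cart hs hAB hx (AG1_res_ne hy).1
  · intro j hj x hx l _
    exact AG1_sy_apply (AG1_disj_ne hAB.1 hx hj) l _

theorem RReg_rawT (a : I → I → ℕ) (hs : ∀ i j, a i j = a j i) (A B : Finset I) (hAB : Sep a A B)
    (k : ℕ) (q : I → ℚ) (m : I → ℕ) (T : Trm I) (hT : RReg (A ∪ B) T) : RReg A (rawT a B k q m T) := by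
  rw [AG1_rawT]
  refine AG1_RReg a _ _ A B _ T ?_ ?_ hT
  · intro x hx y hy
    by_cases h1 : y ∈ B
    · exact AG1_sep_cart hs hAB hx h1
    · rw [if_neg h1] at hy
      exact absurd rfl hy
  · intro j hj x hx l _
    split_ifs
    · exact AG1_sy_apply (AG1_disj_ne hAB.1 hx hj) l _
    · rw [cE_apply, AG1_sep_cart hs hAB hx hj]
      simp

theorem Kink_patT (a : I → I → ℕ) (A B : Finset I) (hAB : Sep a A B) (hs : ∀ i j, a i j = a j i)
    (f : ℕ) (π : Pat I) (T : Trm I) (h : Kink A f T) : Kink A f (patT a B π T) := by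
  rw [AG1_patT]
  exact AG1_Kink a _ _ A B _ T f (fun x hx y hy => AG1_sep_cart hs hAB hx (AG1_res_ne hy).1) h

theorem Kink_blkT (a : I → I → ℕ) (A B : Finset I) (hAB : Sep a A B) (hs : ∀ i j, a i j = a j i)
    (f k σ : ℕ) (q : I → ℚ) (T : Trm I) (h : Kink A f T) : Kink A f (blkT a B k σ q T) := by
  rw [AG1_blkT]
  exact AG1_Kink a _ _ A B _ T f (fun x hx y hy => AG1_sep_cart hs hAB hx (AG1_res_ne hy).1) h

/-! formal functionals -/

theorem evF_nil (a : I → I → ℕ) (B : Finset I) (T : Trm I) : evF a B [] T = 0 := by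
  simp [evF]

theorem evF_append (a : I → I → ℕ) (B : Finset I) (Φ Ψ : FFn I) (T : Trm I) :
    evF a B (Φ ++ Ψ) T = evF a B Φ T + evF a B Ψ T := by
  unfold evF
  rw [List.map_append, List.sum_append]

theorem evF_smF (a : I → I → ℕ) (B : Finset I) (r : ℚ) (Φ : FFn I) (T : Trm I) :
    evF a B (smF r Φ) T = r * evF a B Φ T := by
  unfold evF smF
  rw [AG1_mul_sum, List.map_map]
  congr 2
  funext c
  show r * c.1 * TV a (patT a B c.2 T) = r * (c.1 * TV a (patT a B c.2 T))
  ring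

theorem evU_nil (a : I → I → ℕ) (T : Trm I) : evU a [] T = TV a T := by
  rfl

theorem evU_cons (a : I → I → ℕ) (b : Finset I × FFn I) (U : List (Finset I × FFn I)) (T : Trm I) :
    evU a (b :: U) T = (b.2.map (fun c => c.1 * evU a U (patT a b.1 c.2 T))).sum := by
  rfl

theorem evU_single (a : I → I → ℕ) (B : Finset I) (Φ : FFn I) (T : Trm I) :
    evU a [(B, Φ)] T = evF a B Φ T := by
  rfl

theorem AG1_patT_empty (a : I → I → ℕ) (π : Pat I) (T : Trm I) : patT a ∅ π T = T := by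
  have hr : ∀ i, -resQ ∅ π.q i = 0 := by
    intro i
    unfold resQ
    rw [if_neg (Finset.notMem_empty i), neg_zero]
  refine Trm.ext ?_ ?_ ?_
  · funext i
    show T.γ i - π.s i * (-resQ ∅ π.q i) = T.γ i
    rw [hr]
    ring
  · show T.E - (∑ x, (-resQ ∅ π.q x) • cE a x (π.s x)) = T.E
    rw [Finset.sum_eq_zero, sub_zero]
    intro x _
    rw [hr, zero_smul]
  · funext i
    show (if i ∈ (∅ : Finset I) then sy i (π.s i + 1) else T.Λ i) = T.Λ i
    rw [if_neg (Finset.notMem_empty i)]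

theorem AG1_evU (a : I → I → ℕ) (U : List (Finset I × FFn I))
    (hd : U.Pairwise (fun b c => Disjoint b.1 c.1)) (T : Trm I) :
    evU a U T = evF a (uni U) (prodF U) T := by
  induction U generalizing T with
  | nil =>
    show TV a T = (([(1, ⟨fun _ => 0, fun _ => 0⟩)] : FFn I).map
      (fun c => c.1 * TV a (patT a ∅ c.2 T))).sum
    rw [List.map_singleton, List.sum_singleton, AG1_patT_empty, one_mul]
  | cons b U ih =>
    rw [List.pairwise_cons] at hd
    have hb : Disjoint b.1 (uni U) := AG1_disj_uni b.1 U hd.1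
    show (b.2.map (fun c => c.1 * evU a U (patT a b.1 c.2 T))).sum =
      ((b.2.flatMap (fun c => (prodF U).map (fun d => (c.1 * d.1, glue b.1 c.2 d.2)))).map
        (fun c => c.1 * TV a (patT a (b.1 ∪ uni U) c.2 T))).sum
    rw [AG1_flat]
    congr 2
    funext c
    rw [ih hd.2, List.map_map]
    unfold evF
    rw [AG1_mul_sum]
    congr 2
    funext d
    show c.1 * (d.1 * TV a (patT a (uni U) d.2 (patT a b.1 c.2 T))) =
      c.1 * d.1 * TV a (patT a (b.1 ∪ uni U) (glue b.1 c.2 d.2) T)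
    rw [patT_glue a b.1 (uni U) hb, patT_comm a b.1 (uni U) hb]
    ring

/-- the first block can be evaluated last. -/
theorem evU_cons' (a : I → I → ℕ) (b : Finset I × FFn I) (U : List (Finset I × FFn I))
    (h : ∀ c ∈ U, Disjoint b.1 c.1) (hd : U.Pairwise (fun b c => Disjoint b.1 c.1)) (T : Trm I) :
    evU a (b :: U) T = ((prodF U).map (fun c => c.1 * evF a b.1 b.2 (patT a (uni U) c.2 T))).sum := by
  have h1 : evU a (b :: U) T = (b.2.map (fun c => ((prodF U).map (fun d =>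
      c.1 * (d.1 * TV a (patT a b.1 c.2 (patT a (uni U) d.2 T))))).sum)).sum := by
    rw [evU_cons]
    congr 2
    funext c
    rw [AG1_evU a U hd, ← AG1_mul_sum]
    congr 1
    unfold evF
    congr 2
    funext d
    rw [patT_comm a (uni U) b.1 (AG1_disj_uni b.1 U h).symm]
  rw [h1, AG1_sum_comm]
  congr 2
  funext d
  unfold evF
  rw [AG1_mul_sum]
  congr 2
  funext c
  ring

theorem evU_perm (a : I → I → ℕ) (U U' : List (Finset I × FFn I)) (h : U.Perm U')
    (hd : U.Pairwise (fun b c => Disjoint b.1 c.1)) (T : Trm I) : evU a U T = evU a U' T := by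
  induction h generalizing T with
  | nil => rfl
  | cons b _ ih =>
    rw [evU_cons, evU_cons]
    congr 2
    funext c
    rw [ih (List.pairwise_cons.1 hd).2]
  | swap b c U =>
    have h1 : Disjoint c.1 b.1 := (List.pairwise_cons.1 hd).1 b List.mem_cons_self
    simp only [evU_cons]
    have e1 : ∀ (b c : Finset I × FFn I), (c.2.map (fun d => d.1 *
        (b.2.map (fun e => e.1 * evU a U (patT a b.1 e.2 (patT a c.1 d.2 T)))).sum)).sum =
        (c.2.map (fun d => (b.2.map (fun e =>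
          d.1 * (e.1 * evU a U (patT a b.1 e.2 (patT a c.1 d.2 T))))).sum)).sum := by
      intro b c
      congr 2
      funext d
      rw [AG1_mul_sum]
    rw [e1, e1, AG1_sum_comm]
    congr 2
    funext d
    congr 2
    funext e
    rw [patT_comm a b.1 c.1 h1.symm]
    ring
  | trans h1 h2 ih1 ih2 =>
    rw [ih1 hd, ih2]
    exact (h1.pairwise_iff (fun {b c} h => Disjoint.symm h)).1 hd

/-- the joint functional is the formal product on the union. -/
theorem evU_eq_evF (a : I → I → ℕ) (U : List (Finset I × FFn I))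
    (hd : U.Pairwise (fun b c => Disjoint b.1 c.1)) (T : Trm I) :
    evU a U T = evF a (uni U) (prodF U) T := by
  exact AG1_evU a U hd T

/-- membership in the product: for every block the pattern restricts to one of the patterns of the block. -/
theorem prodF_mem (U : List (Finset I × FFn I)) (hd : U.Pairwise (fun b c => Disjoint b.1 c.1))
    (c : ℚ × Pat I) (hc : c ∈ prodF U) : ∀ b ∈ U, ∃ d ∈ b.2,
      ∀ x ∈ b.1, c.2.s x = d.2.s x ∧ c.2.q x = d.2.q x := by
  induction U generalizing c with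
  | nil =>
    intro b hb
    exact absurd hb List.not_mem_nil
  | cons b U ih =>
    have h1 : c ∈ mulF b.1 b.2 (prodF U) := hc
    unfold mulF at h1
    rw [List.mem_flatMap] at h1
    obtain ⟨c1, hc1, h2⟩ := h1
    rw [List.mem_map] at h2
    obtain ⟨d1, hd1, rfl⟩ := h2
    rw [List.pairwise_cons] at hd
    intro b' hb'
    rw [List.mem_cons] at hb'
    rcases hb' with rfl | hb'
    · exact ⟨c1, hc1, fun x hx => ⟨if_pos hx, if_pos hx⟩⟩
    · obtain ⟨d, hdm, h3⟩ := ih hd.2 d1 hd1 b' hb'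
      refine ⟨d, hdm, fun x hx => ?_⟩
      have h4 : x ∉ b.1 := fun h5 => Finset.disjoint_left.1 (hd.1 b' hb') h5 hx
      exact ⟨(if_neg h4).trans (h3 x hx).1, (if_neg h4).trans (h3 x hx).2⟩

/-- change one block: linear relations between formal functionals of one block, valid for all regular terms, hold jointly. -/
theorem evU_congr_head (a : I → I → ℕ) (hs : ∀ i j, a i j = a j i) (B : Finset I) (Φ Ψ : FFn I)
    (U : List (Finset I × FFn I)) (hd : ((B, Φ) :: U).Pairwise (fun b c => Disjoint b.1 c.1))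
    (hins : ∀ c ∈ prodF U, ∀ x ∈ B, ∀ y ∈ uni U, c.2.q y ≠ 0 → a x y = 0)
    (h : ∀ T : Trm I, RReg B T → evF a B Φ T = evF a B Ψ T) (T : Trm I)
    (hT : RReg (B ∪ uni U) T) : evU a ((B, Φ) :: U) T = evU a ((B, Ψ) :: U) T := by
  rw [List.pairwise_cons] at hd
  rw [evU_cons' a (B, Φ) U hd.1 hd.2, evU_cons' a (B, Ψ) U hd.1 hd.2]
  congr 1
  refine List.map_congr_left fun c hc => ?_
  show c.1 * evF a B Φ (patT a (uni U) c.2 T) = c.1 * evF a B Ψ (patT a (uni U) c.2 T)
  rw [h _ (RReg_patT a hs B (uni U) (AG1_disj_uni B U hd.1) c.2 (hins c hc) T hT)]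

/-- evaluation of a block on kinked terms in a joint functional. -/
theorem evU_blk_head (a : I → I → ℕ) (hs : ∀ i j, a i j = a j i) (B : Finset I) (Φ : FFn I)
    (U : List (Finset I × FFn I)) (hd : ((B, Φ) :: U).Pairwise (fun b c => Disjoint b.1 c.1))
    (hsep : ∀ b ∈ U, Sep a B b.1) (w : ℚ) (f σ : ℕ) (q : I → ℚ)
    (h : ∀ T : Trm I, RReg B T → Kink B f T → evF a B Φ T = w * TV a (blkT a B f σ q T)) (T : Trm I)
    (hT : RReg (B ∪ uni U) T) (hk : Kink B f T) :
    evU a ((B, Φ) :: U) T = w * evU a U (blkT a B f σ q T) := by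
  have hsu : Sep a B (uni U) := AG1_sep_uni a B U hsep
  rw [List.pairwise_cons] at hd
  rw [evU_cons' a (B, Φ) U hd.1 hd.2, evU_eq_evF a U hd.2]
  unfold evF
  rw [AG1_mul_sum]
  congr 1
  refine List.map_congr_left fun c hc => ?_
  show c.1 * evF a B Φ (patT a (uni U) c.2 T) = _
  rw [h _ (RReg_patT a hs B (uni U) hsu.1 c.2 (fun x hx y hy _ => hsu.2 x hx y hy) T hT)
    (Kink_patT a B (uni U) hsu hs f c.2 T hk), blkT_patT_comm a B (uni U) hsu.1]
  ring

end

end Pool.Agent.H27.KAC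

end

section

/-!
KAC ADE, module B2: rational powers of power series with constant term 1.

`rpw F α = ∑_n (α choose n) (F - 1)^n`, truncated coefficientwise at `n ≤ |β|` (for `constantCoeff F = 1` the coefficient
at `β` of `(F - 1)^n` vanishes for `n > |β|`, so any larger truncation gives the same).
* `rpw_add`: Vandermonde `Ring.add_choose_eq`, both sides truncated at a large order.
* `rpw_nat`: binomial theorem (`Ring.choose_natCast`), or from `rpw_one` and `rpw_add`.
* `dD_rpw`: `(n + 1) (α choose n+1) = α (α - 1 choose n)`; alternatively: for `α = n/m` use `(rpw F α)^m = F^n` and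
  cancel (the ring is a domain of characteristic 0).
* `rpw_Fil`: `Fil` is closed under products, sums (see `KQFil`).
* `rpw_int`: `(α choose n) * (den α)^(2 n)` is an integer (`(p/q choose n) = p (p-q) ... (p-(n-1)q) / (q^n n!)`, and
  the primes `ℓ` not dividing `q` are harmless by `ℓ`-adic continuity; a convenient form in Mathlib may exist for
  `Ring.choose`; alternatively argue with the `m`-th root: integrality of `V` with `V^m = U^n`, coefficient by
  coefficient: `m V_β ∈ ℤ[1/m]`-combination of products of lower coefficients).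
-/

set_option autoImplicit false

namespace Pool.Agent.H46.KA

open scoped BigOperators
open MvPowerSeries Pool.Agent.H27.KAC

variable {I : Type} [Fintype I] [DecidableEq I]

/-! ### Families that are polynomial in the exponent -/

private def B2_Pol (f : ℚ → MvPowerSeries I ℚ) : Prop :=
  ∀ β : I →₀ ℕ, ∃ p : Polynomial ℚ, ∀ α : ℚ, coeff β (f α) = p.eval α

private theorem B2_ext {f g : ℚ → MvPowerSeries I ℚ} (hf : B2_Pol f) (hg : B2_Pol g)
    (h : ∀ n : ℕ, f n = g n) (α : ℚ) : f α = g α := by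
  ext β
  obtain ⟨p, hp⟩ := hf β
  obtain ⟨q, hq⟩ := hg β
  have e : p = q := by
    refine Polynomial.eq_of_infinite_eval_eq p q
      (Set.infinite_of_injective_forall_mem (f := fun n : ℕ => (n : ℚ)) Nat.cast_injective ?_)
    intro n
    show p.eval (n : ℚ) = q.eval (n : ℚ)
    rw [← hp, ← hq, h n]
  rw [hp, hq, e]

private theorem B2_const (F : MvPowerSeries I ℚ) : B2_Pol (fun _ => F) := fun β =>
  ⟨Polynomial.C (coeff β F), fun α => by simp⟩

private theorem B2_mul {f g : ℚ → MvPowerSeries I ℚ} (hf : B2_Pol f) (hg : B2_Pol g) :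
    B2_Pol (fun α => f α * g α) := by
  intro β
  choose p hp using hf
  choose q hq using hg
  refine ⟨∑ x ∈ Finset.HasAntidiagonal.antidiagonal β, p x.1 * q x.2,
    fun α => ?_⟩
  rw [coeff_mul, Polynomial.eval_finsetSum]
  exact Finset.sum_congr rfl fun x _ => by rw [Polynomial.eval_mul, hp, hq]

private theorem B2_C : B2_Pol (fun α => (C α : MvPowerSeries I ℚ)) := by
  intro β
  by_cases h : β = 0
  · exact ⟨Polynomial.X, fun α => by subst h; simp⟩
  · exact ⟨0, fun α => by rw [coeff_C, if_neg h]; simp⟩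

private theorem B2_dD (a : I → I → ℕ) (l : I) {f : ℚ → MvPowerSeries I ℚ} (hf : B2_Pol f) :
    B2_Pol (fun α => dD a l (f α)) := by
  intro β
  obtain ⟨p, hp⟩ := hf β
  exact ⟨Polynomial.C (-(cw a β l : ℤ) : ℚ) * p, fun α => by
    rw [coeff_dD, hp, Polynomial.eval_mul, Polynomial.eval_C]⟩

private theorem B2_comp {f : ℚ → MvPowerSeries I ℚ} (hf : B2_Pol f) (c : ℚ) :
    B2_Pol (fun α => f (α + c)) := by
  intro β
  obtain ⟨p, hp⟩ := hf β
  exact ⟨p.comp (Polynomial.X + Polynomial.C c), fun α => by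
    rw [hp, Polynomial.eval_comp]; simp⟩

private theorem B2_choose (n : ℕ) : ∃ p : Polynomial ℚ, ∀ α : ℚ, Ring.choose α n = p.eval α := by
  refine ⟨Polynomial.C ((n.factorial : ℚ)⁻¹) *
    (descPochhammer ℤ n).map (algebraMap ℤ ℚ), fun α => ?_⟩
  rw [Ring.choose_eq_smul, ← Polynomial.aeval_eq_smeval, Polynomial.eval_mul, Polynomial.eval_C,
    Polynomial.eval_map_algebraMap, smul_eq_mul]

private theorem B2_rpw (F : MvPowerSeries I ℚ) : B2_Pol (fun α => rpw F α) := by
  intro β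
  choose p hp using B2_choose
  refine ⟨∑ n ∈ Finset.range (∑ i, β i + 1), p n * Polynomial.C (coeff β ((F - 1) ^ n)),
    fun α => ?_⟩
  rw [Polynomial.eval_finsetSum]
  show ∑ n ∈ Finset.range (∑ i, β i + 1), Ring.choose α n * coeff β ((F - 1) ^ n) = _
  exact Finset.sum_congr rfl fun n _ => by rw [Polynomial.eval_mul, Polynomial.eval_C, hp]

private theorem B2_zero {F : MvPowerSeries I ℚ} (hF : constantCoeff F = 1) {β : I →₀ ℕ} {n : ℕ}
    (hn : ∑ i, β i < n) : coeff β ((F - 1) ^ n) = 0 := by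
  refine coeff_eq_zero_of_constantCoeff_nilpotent (m := 1) ?_ ?_
  · rw [pow_one, map_sub, hF, map_one, sub_self]
  · have : Finsupp.degree β = ∑ i, β i := by
      rw [Finsupp.degree_eq_sum]
    omega

theorem rpw_nat (F : MvPowerSeries I ℚ) (hF : constantCoeff F = 1) (n : ℕ) :
    rpw F (n : ℚ) = F ^ n := by
  ext β
  have h1 : coeff β (rpw F (n : ℚ)) = ∑ k ∈ Finset.range (∑ i, β i + 1),
      (n.choose k : ℚ) * coeff β ((F - 1) ^ k) := by
    show ∑ k ∈ Finset.range (∑ i, β i + 1), Ring.choose (n : ℚ) k * coeff β ((F - 1) ^ k) = _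
    exact Finset.sum_congr rfl fun k _ => by rw [Ring.choose_natCast]
  have h2 : coeff β (F ^ n) = ∑ k ∈ Finset.range (n + 1),
      (n.choose k : ℚ) * coeff β ((F - 1) ^ k) := by
    conv_lhs => rw [← sub_add_cancel F 1, add_pow]
    rw [map_sum]
    refine Finset.sum_congr rfl fun k _ => ?_
    rw [one_pow, mul_one, mul_comm, ← map_natCast (C (σ := I) (R := ℚ)) (n.choose k), coeff_C_mul]
  have key : ∀ M N : ℕ, M ≤ N → (∀ k, M ≤ k → (n.choose k : ℚ) * coeff β ((F - 1) ^ k) = 0) →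
      ∑ k ∈ Finset.range M, (n.choose k : ℚ) * coeff β ((F - 1) ^ k) =
      ∑ k ∈ Finset.range N, (n.choose k : ℚ) * coeff β ((F - 1) ^ k) := by
    intro M N hMN h0
    refine Finset.sum_subset (Finset.range_subset_range.2 hMN) fun k _ hk => ?_
    exact h0 k (by simpa using hk)
  rw [h1, h2, key _ (max (∑ i, β i + 1) (n + 1)) (le_max_left _ _),
    key _ (max (∑ i, β i + 1) (n + 1)) (le_max_right _ _)]
  · intro k hk
    rw [Nat.choose_eq_zero_of_lt (by omega)]
    simp
  · intro k hk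
    rw [B2_zero hF (by omega), mul_zero]

theorem rpw_zero (F : MvPowerSeries I ℚ) (hF : constantCoeff F = 1) : rpw F 0 = 1 := by
  have := rpw_nat F hF 0
  rwa [Nat.cast_zero, pow_zero] at this

theorem rpw_one (F : MvPowerSeries I ℚ) (hF : constantCoeff F = 1) : rpw F 1 = F := by
  have := rpw_nat F hF 1
  rwa [Nat.cast_one, pow_one] at this

theorem rpw_add (F : MvPowerSeries I ℚ) (hF : constantCoeff F = 1) (α β : ℚ) :
    rpw F (α + β) = rpw F α * rpw F β := by
  have h1 : ∀ (n : ℕ) (α : ℚ), rpw F (α + n) = rpw F α * rpw F n := by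
    intro n α
    refine B2_ext (f := fun α => rpw F (α + n)) (g := fun α => rpw F α * rpw F n)
      (B2_comp (B2_rpw F) n) (B2_mul (B2_rpw F) (B2_const _)) (fun m => ?_) α
    show rpw F ((m : ℚ) + n) = rpw F m * rpw F n
    rw [← Nat.cast_add, rpw_nat F hF, rpw_nat F hF, rpw_nat F hF, pow_add]
  refine B2_ext (f := fun β => rpw F (α + β)) (g := fun β => rpw F α * rpw F β) ?_
    (B2_mul (B2_const _) (B2_rpw F)) (fun m => h1 m α) β
  have := B2_comp (B2_rpw F) α
  simpa only [add_comm] using this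

theorem rpw_one_left (α : ℚ) : rpw (1 : MvPowerSeries I ℚ) α = 1 :=
  B2_ext (f := fun α => rpw (1 : MvPowerSeries I ℚ) α) (g := fun _ => 1) (B2_rpw 1) (B2_const 1)
    (fun n => by
      show rpw (1 : MvPowerSeries I ℚ) n = 1
      rw [rpw_nat 1 (by simp), one_pow]) α

theorem rpw_mul_left (F G : MvPowerSeries I ℚ) (hF : constantCoeff F = 1)
    (hG : constantCoeff G = 1) (α : ℚ) : rpw (F * G) α = rpw F α * rpw G α :=
  B2_ext (f := fun α => rpw (F * G) α) (g := fun α => rpw F α * rpw G α) (B2_rpw _)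
    (B2_mul (B2_rpw F) (B2_rpw G)) (fun n => by
      show rpw (F * G) n = rpw F n * rpw G n
      rw [rpw_nat F hF, rpw_nat G hG, rpw_nat (F * G) (by rw [map_mul, hF, hG, one_mul]),
        mul_pow]) α

/-- `(F^α)' = α F^α (log F)'`. -/
theorem dD_rpw (a : I → I → ℕ) (l : I) (F : (MvPowerSeries I ℚ)ˣ)
    (hF : constantCoeff (F : MvPowerSeries I ℚ) = 1) (α : ℚ) :
    dD a l (rpw (F : MvPowerSeries I ℚ) α) =
      C α * rpw (F : MvPowerSeries I ℚ) α * dlg a F l := by
  refine B2_ext (f := fun α => dD a l (rpw (F : MvPowerSeries I ℚ) α))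
    (g := fun α => C α * rpw (F : MvPowerSeries I ℚ) α * dlg a F l)
    (B2_dD a l (B2_rpw _)) (B2_mul (B2_mul B2_C (B2_rpw _)) (B2_const _)) (fun n => ?_) α
  show dD a l (rpw (F : MvPowerSeries I ℚ) n) =
    C (n : ℚ) * rpw (F : MvPowerSeries I ℚ) n * dlg a F l
  rw [rpw_nat _ hF]
  cases n with
  | zero => simp [dD_one]
  | succ n =>
    rw [dD_pow, dlg, map_natCast, pow_succ]
    have h : (F : MvPowerSeries I ℚ) * ((F⁻¹ : (MvPowerSeries I ℚ)ˣ) : MvPowerSeries I ℚ) = 1 :=
      F.mul_inv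
    calc _ = ((n + 1 : ℕ) : MvPowerSeries I ℚ) * (F : MvPowerSeries I ℚ) ^ n *
          dD a l (F : MvPowerSeries I ℚ) * 1 := by ring
      _ = _ := by rw [← h]; ring

end Pool.Agent.H46.KA

end

section

/-!
KAC ADE, module B2b: rational powers of power series with constant term 1.

`rpw F α = ∑_n (α choose n) (F - 1)^n`, truncated coefficientwise at `n ≤ |β|` (for `constantCoeff F = 1` the coefficient
at `β` of `(F - 1)^n` vanishes for `n > |β|`, so any larger truncation gives the same).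
* `rpw_add`: Vandermonde `Ring.add_choose_eq`, both sides truncated at a large order.
* `rpw_nat`: binomial theorem (`Ring.choose_natCast`), or from `rpw_one` and `rpw_add`.
* `dD_rpw`: `(n + 1) (α choose n+1) = α (α - 1 choose n)`; alternatively: for `α = n/m` use `(rpw F α)^m = F^n` and
  cancel (the ring is a domain of characteristic 0).
* `rpw_Fil`: `Fil` is closed under products, sums (see `KQFil`).
* `rpw_int`: `(α choose n) * (den α)^(2 n)` is an integer (`(p/q choose n) = p (p-q) ... (p-(n-1)q) / (q^n n!)`, and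
  the primes `ℓ` not dividing `q` are harmless by `ℓ`-adic continuity; a convenient form in Mathlib may exist for
  `Ring.choose`; alternatively argue with the `m`-th root: integrality of `V` with `V^m = U^n`, coefficient by
  coefficient: `m V_β ∈ ℤ[1/m]`-combination of products of lower coefficients).
-/

set_option autoImplicit false

namespace Pool.Agent.H46.KA

open scoped BigOperators
open MvPowerSeries Pool.Agent.H27.KAC

variable {I : Type} [Fintype I] [DecidableEq I]

/-! ### auxiliary statements -/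

theorem rpw_Fil (a : I → I → ℕ) (x : I) (F : MvPowerSeries I ℚ) (hF : constantCoeff F = 1)
    (h : Fil a x 0 F) (α : ℚ) : Fil a x 0 (rpw F α) := by
  intro β hβ
  have h1 : MvPowerSeries.coeff β (rpw F α) = ∑ n ∈ Finset.range (∑ i, β i + 1),
      Ring.choose α n * MvPowerSeries.coeff β ((F - 1) ^ n) := rfl
  rw [h1] at hβ
  obtain ⟨n, -, hne⟩ := Finset.exists_ne_zero_of_sum_ne_zero hβ
  have h2 := (h.sub (Fil_one a x)).pow n β (right_ne_zero_of_mul hne)
  rwa [mul_zero] at h2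

end Pool.Agent.H46.KA

end

section

/-!
KAC ADE, module B3: laws of `Qp`, `mon`, `eta`, `lam`, the Q-system in `LL I`.

Everything follows from B1, B2, `uS_const`, `uS_rec`, `uS_zero`, `uS_one`.
`Qp a i k α = tm (k α e_i) * Tht a (rpw (uS a i k) α)`; `Df a i k l = Tht a (xv a i k l)`,
`xv a i k l = (if i = l then k else 0) + dlg a (uu a i k) l`.
Q-system: `uS_rec` multiplied by `t_i^(2(k+1))`; the product `∏_j Q_j^(a_ij)` has `t`-degree
`(k+1) ∑_j a_ij e_j`, and `X_i^(k+1)` on the left of `uS_rec` becomes `s_i^(k+1) t^(-(k+1) C e_i)`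
(`Tht_X`, `cart a j i = 2 δ - a j i`, symmetric).
-/

set_option autoImplicit false

namespace Pool.Agent.H46.KA

open scoped BigOperators
open MvPowerSeries Pool.Agent.H27.KAC

variable {I : Type} [Fintype I] [DecidableEq I]

omit [Fintype I] in
theorem B3_tm_if_zero (i : I) : (tm (fun j => if j = i then (0 : ℚ) else 0) : LL I) = 1 := by
  have h : (fun j => if j = i then (0 : ℚ) else 0) = (0 : I → ℚ) := by
    funext j
    simp
  rw [h, tm_zero]

theorem Qp_zero (a : I → I → ℕ) (i : I) (k : ℕ) : Qp a i k 0 = 1 := by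
  unfold Qp
  rw [rpw_zero _ (uS_const a i k), Tht_one, mul_zero, B3_tm_if_zero, mul_one]

theorem Qp_add (a : I → I → ℕ) (i : I) (k : ℕ) (α β : ℚ) :
    Qp a i k (α + β) = Qp a i k α * Qp a i k β := by
  unfold Qp
  have h : (fun j => if j = i then (k : ℚ) * (α + β) else 0) =
      (fun j => if j = i then (k : ℚ) * α else 0) + (fun j => if j = i then (k : ℚ) * β else 0) := by
    funext j
    by_cases hj : j = i
    · simp [hj, mul_add]
    · simp [hj]
  rw [rpw_add _ (uS_const a i k), Tht_mul, h, tm_add]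
  ring

theorem Qp_neg_mul (a : I → I → ℕ) (i : I) (k : ℕ) (α : ℚ) : Qp a i k (-α) * Qp a i k α = 1 := by
  rw [← Qp_add, neg_add_cancel, Qp_zero]

theorem Qp_nat_mul (a : I → I → ℕ) (i : I) (k : ℕ) (n : ℕ) (α : ℚ) :
    Qp a i k (n * α) = Qp a i k α ^ n := by
  induction n with
  | zero => rw [Nat.cast_zero, zero_mul, Qp_zero, pow_zero]
  | succ n ih =>
    rw [Nat.cast_succ, add_mul, one_mul, Qp_add, ih, pow_succ]

theorem Qp_level_zero (a : I → I → ℕ) (i : I) (α : ℚ) : Qp a i 0 α = 1 := by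
  unfold Qp
  rw [uS_zero, rpw_one_left, Tht_one, Nat.cast_zero, zero_mul, B3_tm_if_zero, mul_one]

theorem B3_uu_level_zero (a : I → I → ℕ) (i : I) : uu a i 0 = 1 := by
  apply Units.ext
  rw [uu_coe, uS_zero, Units.val_one]

theorem Df_level_zero (a : I → I → ℕ) (i l : I) : Df a i 0 l = 0 := by
  unfold Df xv
  rw [B3_uu_level_zero, dlg_one, Nat.cast_zero, ite_self, add_zero, Tht_zero]

/-- `d (Q^α) = α Q^α d log Q`. -/
theorem th_Qp (a : I → I → ℕ) (l i : I) (k : ℕ) (α : ℚ) :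
    th l (Qp a i k α) = qC α * Qp a i k α * Df a i k l := by
  have h1 : dD a l (rpw (uS a i k) α) = C α * rpw (uS a i k) α * dlg a (uu a i k) l := by
    have h := dD_rpw a l (uu a i k) (by rw [uu_coe]; exact uS_const a i k) α
    rw [uu_coe] at h
    exact h
  unfold Qp Df xv
  rw [th_mul, th_tm, th_Tht, h1, Tht_mul, Tht_mul, Tht_C, Tht_add]
  by_cases h : i = l
  · subst h
    rw [if_pos rfl, if_pos rfl]
    have hk : Tht a (k : MvPowerSeries I ℚ) = qC (k : ℚ) := by
      rw [← Tht_C a (k : ℚ), map_natCast]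
    rw [hk, qC_mul]
    ring
  · have h' : ¬ l = i := fun h2 => h h2.symm
    rw [if_neg h, if_neg h', Tht_zero, qC_zero]
    ring

theorem mon_zero (a : I → I → ℕ) : mon a 0 = 1 := by
  unfold mon
  exact Finsupp.prod_zero_index

theorem mon_single (a : I → I → ℕ) (i : I) (k : ℕ) (α : ℚ) :
    mon a (Finsupp.single (i, k) α) = Qp a i k α := by
  unfold mon
  exact Finsupp.prod_single_index (Qp_zero a i k)

theorem mon_add (a : I → I → ℕ) (E E' : (I × ℕ) →₀ ℚ) : mon a (E + E') = mon a E * mon a E' := by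
  unfold mon
  exact Finsupp.prod_add_index' (fun ik => Qp_zero a ik.1 ik.2)
    (fun ik α β => Qp_add a ik.1 ik.2 α β)

theorem mon_sum (a : I → I → ℕ) {ι : Type} (s : Finset ι) (E : ι → (I × ℕ) →₀ ℚ) :
    mon a (∑ j ∈ s, E j) = ∏ j ∈ s, mon a (E j) := by
  classical
  induction s using Finset.induction_on with
  | empty => rw [Finset.sum_empty, Finset.prod_empty, mon_zero]
  | insert j s hj ih => rw [Finset.sum_insert hj, Finset.prod_insert hj, mon_add, ih]

end Pool.Agent.H46.KA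

end

section

/-!
KAC ADE, module B3b: laws of `Qp`, `mon`, `eta`, `lam`, the Q-system in `LL I`.

Everything follows from B1, B2, `uS_const`, `uS_rec`, `uS_zero`, `uS_one`.
`Qp a i k α = tm (k α e_i) * Tht a (rpw (uS a i k) α)`; `Df a i k l = Tht a (xv a i k l)`,
`xv a i k l = (if i = l then k else 0) + dlg a (uu a i k) l`.
Q-system: `uS_rec` multiplied by `t_i^(2(k+1))`; the product `∏_j Q_j^(a_ij)` has `t`-degree
`(k+1) ∑_j a_ij e_j`, and `X_i^(k+1)` on the left of `uS_rec` becomes `s_i^(k+1) t^(-(k+1) C e_i)`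
(`Tht_X`, `cart a j i = 2 δ - a j i`, symmetric).
-/

set_option autoImplicit false

namespace Pool.Agent.H46.KA

open scoped BigOperators
open MvPowerSeries Pool.Agent.H27.KAC

variable {I : Type} [Fintype I] [DecidableEq I]

private theorem B3b_Qp_one (a : I → I → ℕ) (i : I) (k : ℕ) :
    Qp a i k 1 = tm (fun j => if j = i then (k : ℚ) else 0) * Tht a (uS a i k) := by
  unfold Qp
  rw [rpw_one _ (uS_const a i k)]
  simp only [mul_one]

private theorem B3b_Qp_nat (a : I → I → ℕ) (i : I) (k n : ℕ) :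
    Qp a i k (n : ℚ) = tm (fun j => if j = i then (k : ℚ) * n else 0) * Tht a (uS a i k ^ n) := by
  unfold Qp
  rw [rpw_nat _ (uS_const a i k)]

private theorem B3b_tm_prod {ι : Type} (s : Finset ι) (d : ι → I → ℚ) :
    (∏ j ∈ s, tm (d j) : LL I) = tm (∑ j ∈ s, d j) := by
  classical
  induction s using Finset.induction_on with
  | empty => rw [Finset.prod_empty, Finset.sum_empty, tm_zero]
  | insert j s hj ih => rw [Finset.prod_insert hj, Finset.sum_insert hj, tm_add, ih]

private theorem B3b_tm_pow (d : I → ℚ) (n : ℕ) : (tm d : LL I) ^ n = tm ((n : ℚ) • d) := by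
  induction n with
  | zero => rw [pow_zero, Nat.cast_zero, zero_smul, tm_zero]
  | succ n ih => rw [pow_succ, ih, ← tm_add, Nat.cast_succ, add_smul, one_smul]

private theorem B3b_etE (a : I → I → ℕ) (i : I) (k : ℕ) :
    etE a k (fun j => if j = i then 1 else 0) =
      ∑ j, Finsupp.single (j, k) (-((cart a j i : ℤ) : ℚ)) := by
  unfold etE
  refine Finset.sum_congr rfl fun j _ => ?_
  congr 1
  simp

private theorem B3b_c1 {R : Type} [CommRing R] (p q r z : R) (h : q * r = 1) :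
    (q - z * p) * r = 1 - z * (p * r) := by
  linear_combination h

private theorem B3b_l1 (a : I → I → ℕ) (i : I) (k : ℕ) :
    Qp a i (k + 2) 1 * Qp a i k 1 =
      tm (fun j => if j = i then ((k + 1 : ℕ) : ℚ) * (2 : ℕ) else 0) *
        Tht a (uS a i (k + 2) * uS a i k) := by
  have h6 : (fun j => if j = i then ((k + 2 : ℕ) : ℚ) else 0) + (fun j => if j = i then (k : ℚ) else 0) =
      fun j => if j = i then ((k + 1 : ℕ) : ℚ) * (2 : ℕ) else 0 := by
    funext j
    simp only [Pi.add_apply]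
    split_ifs
    · push_cast; ring
    · ring
  rw [B3b_Qp_one, B3b_Qp_one, Tht_mul, ← h6, tm_add]
  exact mul_mul_mul_comm _ _ _ _

private theorem B3b_l2 (a : I → I → ℕ) (i : I) (k : ℕ) :
    (∏ j, Qp a j (k + 1) (a i j : ℚ)) =
      tm (fun j => ((k + 1 : ℕ) : ℚ) * (a i j : ℚ)) * Tht a (∏ j, uS a j (k + 1) ^ (a i j)) := by
  rw [← ThtH_apply, map_prod]
  simp_rw [ThtH_apply, B3b_Qp_nat]
  rw [Finset.prod_mul_distrib, B3b_tm_prod]
  congr 2
  funext j
  rw [Finset.sum_apply, Finset.sum_ite_eq]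
  simp

private theorem B3b_l3 (a : I → I → ℕ) (i : I) (k : ℕ) (F G : MvPowerSeries I ℚ) :
    Tht a (F - X i ^ (k + 1) * G) =
      Tht a F - (X i ^ (k + 1) * tm (((k + 1 : ℕ) : ℚ) • fun j => -((cart a j i : ℤ) : ℚ))) *
        Tht a G := by
  rw [← ThtH_apply, map_sub, map_mul, map_pow (ThtH a) (X i), ThtH_apply, ThtH_apply, ThtH_apply,
    Tht_X, mul_pow, B3b_tm_pow]

private theorem B3b_l4 (a : I → I → ℕ) (hs : ∀ i j, a i j = a j i) (i : I) (k : ℕ) :
    tm (fun j => if j = i then ((k + 1 : ℕ) : ℚ) * (2 : ℕ) else 0) *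
      (tm (((k + 1 : ℕ) : ℚ) • fun j => -((cart a j i : ℤ) : ℚ)) : LL I) =
      tm (fun j => ((k + 1 : ℕ) : ℚ) * (a i j : ℚ)) := by
  rw [← tm_add]
  congr 1
  funext j
  simp only [Pi.add_apply, Pi.smul_apply, smul_eq_mul, cart]
  rw [hs i j]
  split_ifs
  · push_cast; ring
  · push_cast; ring

private theorem B3b_l5 (a : I → I → ℕ) (i : I) (k : ℕ) : Qp a i (k + 1) 2 =
    tm (fun j => if j = i then ((k + 1 : ℕ) : ℚ) * (2 : ℕ) else 0) * Tht a (uS a i (k + 1) ^ 2) := by
  have := B3b_Qp_nat a i (k + 1) 2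
  rw [← this]
  norm_num

private theorem B3b_c5 {R : Type} [CommRing R] (T Y S P U F : R) (h : T * S = U) :
    T * (F - Y * S * P) = T * F - Y * (U * P) := by
  rw [← h]; ring

/-- the Q-system. -/
theorem Qsys (a : I → I → ℕ) (hs : ∀ i j, a i j = a j i) (i : I) (k : ℕ) :
    Qp a i (k + 2) 1 * Qp a i k 1 = Qp a i (k + 1) 2 -
      X i ^ (k + 1) * ∏ j, Qp a j (k + 1) (a i j : ℚ) := by
  rw [B3b_l1, B3b_l5, B3b_l2, uS_rec, B3b_l3]
  exact B3b_c5 _ _ _ _ _ _ (B3b_l4 a hs i k)

/-- `η_{i,k+1} = s_i^{k+1} ∏_j Q_j^{a_ij} / Q_i^2`. -/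
theorem eta_eq (a : I → I → ℕ) (hs : ∀ i j, a i j = a j i) (i : I) (k : ℕ) :
    eta a i k = X i ^ k * ((∏ j, Qp a j k (a i j : ℚ)) * Qp a i k (-2)) := by
  unfold eta
  rw [B3b_etE, mon_sum]
  congr 1
  have h1 : ∀ j, mon a (Finsupp.single (j, k) (-((cart a j i : ℤ) : ℚ))) =
      Qp a j k (a i j : ℚ) * (if j = i then Qp a i k (-2) else 1) := by
    intro j
    rw [mon_single]
    by_cases hj : j = i
    · subst hj
      rw [if_pos rfl, ← Qp_add]
      congr 1
      simp only [cart, if_true]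
      push_cast; ring
    · rw [if_neg hj, mul_one]
      congr 1
      simp only [cart, if_neg hj]
      rw [hs j i]
      push_cast; ring
  rw [Finset.prod_congr rfl fun j _ => h1 j, Finset.prod_mul_distrib, Finset.prod_ite_eq']
  simp

theorem one_sub_eta (a : I → I → ℕ) (hs : ∀ i j, a i j = a j i) (i : I) (k : ℕ) :
    1 - eta a i (k + 1) = Qp a i (k + 2) 1 * Qp a i k 1 * Qp a i (k + 1) (-2) := by
  rw [Qsys a hs, eta_eq a hs, sub_mul]
  have h1 : Qp a i (k + 1) 2 * Qp a i (k + 1) (-2) = 1 := by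
    rw [mul_comm]; exact Qp_neg_mul a i (k + 1) 2
  rw [← sub_mul]
  exact (B3b_c1 _ _ _ _ h1).symm

end Pool.Agent.H46.KA

end

section

/-!
Run lemma, module 10: truncated binomial expansion of `(1 - η)^β`.
-/

set_option autoImplicit false

namespace Pool.Agent.H10.KAC

open scoped BigOperators
open MvPowerSeries Pool.Agent.H46.KA Pool.Agent.H27.KAC

variable {I : Type} [Fintype I] [DecidableEq I]

/-- `(1 - η_{i,l+1})^β`. -/
noncomputable def Vp (a : I → I → ℕ) (i : I) (l : ℕ) (β : ℚ) : LL I :=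
  Qp a i (l + 2) β * Qp a i l β * Qp a i (l + 1) (-2 * β)

/-- `1 - η` as a power series. -/
noncomputable def Fe (a : I → I → ℕ) (i : I) (l : ℕ) : MvPowerSeries I ℚ :=
  1 - X i ^ (l + 1) * ((∏ j, uS a j (l + 1) ^ (a i j)) * ((uS a i (l + 1))⁻¹) ^ 2)

theorem Fe_mul (a : I → I → ℕ) (i : I) (l : ℕ) :
    uS a i (l + 2) * uS a i l = Fe a i l * (uS a i (l + 1) * uS a i (l + 1)) := by
  rw [uS_rec]
  have h0 : constantCoeff (uS a i (l + 1)) ≠ 0 := by rw [uS_const]; exact one_ne_zero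
  have h1 := MvPowerSeries.inv_mul_cancel _ h0
  unfold Fe
  linear_combination ((X i ^ (l + 1) * (∏ j, uS a j (l + 1) ^ (a i j)) *
    ((uS a i (l + 1))⁻¹ * uS a i (l + 1) + 1))) * h1

theorem Fe_const (a : I → I → ℕ) (i : I) (l : ℕ) : constantCoeff (Fe a i l) = 1 := by
  have h := congrArg constantCoeff (Fe_mul a i l)
  rw [map_mul, map_mul, map_mul, uS_const, uS_const, uS_const] at h
  simpa using h.symm

theorem Vp_eq (a : I → I → ℕ) (i : I) (l : ℕ) (β : ℚ) :
    Vp a i l β = Tht a (Pool.Agent.H46.KA.rpw (Fe a i l) β) := by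
  have hc := uS_const a i
  have h1 : Pool.Agent.H46.KA.rpw (uS a i (l + 2)) β * Pool.Agent.H46.KA.rpw (uS a i l) β =
      Pool.Agent.H46.KA.rpw (Fe a i l) β * (Pool.Agent.H46.KA.rpw (uS a i (l + 1)) β * Pool.Agent.H46.KA.rpw (uS a i (l + 1)) β) := by
    rw [← rpw_mul_left _ _ (hc _) (hc _), Fe_mul, rpw_mul_left _ _ (Fe_const a i l) (by
      rw [map_mul, hc, one_mul]), rpw_mul_left _ _ (hc _) (hc _)]
  have h2 : Qp a i (l + 2) β * Qp a i l β =
      Tht a (Pool.Agent.H46.KA.rpw (Fe a i l) β) * (Qp a i (l + 1) β * Qp a i (l + 1) β) := by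
    unfold Qp
    have h3 := congrArg (Tht a) h1
    rw [Tht_mul, Tht_mul, Tht_mul] at h3
    have h4 : (tm (fun j => if j = i then ((l + 2 : ℕ) : ℚ) * β else 0) : LL I) *
        tm (fun j => if j = i then (l : ℚ) * β else 0) =
        tm (fun j => if j = i then ((l + 1 : ℕ) : ℚ) * β else 0) *
        tm (fun j => if j = i then ((l + 1 : ℕ) : ℚ) * β else 0) := by
      rw [← tm_add, ← tm_add]
      congr 1
      funext j
      by_cases hj : j = i
      · simp only [Pi.add_apply, hj, if_true]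
        push_cast
        ring
      · simp only [Pi.add_apply, hj, if_false]
    calc _ = (tm (fun j => if j = i then ((l + 2 : ℕ) : ℚ) * β else 0) *
          tm (fun j => if j = i then (l : ℚ) * β else 0)) *
          (Tht a (Pool.Agent.H46.KA.rpw (uS a i (l + 2)) β) * Tht a (Pool.Agent.H46.KA.rpw (uS a i l) β)) := by ring
      _ = _ := by
          rw [h3, h4]
          ring
  unfold Vp
  rw [h2]
  have h5 : Qp a i (l + 1) β * Qp a i (l + 1) β * Qp a i (l + 1) (-2 * β) = 1 := by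
    rw [← Qp_add, ← Qp_add]
    have : β + β + -2 * β = 0 := by ring
    rw [this, Qp_zero]
  rw [mul_assoc, h5, mul_one]

theorem neg_eta_eq (a : I → I → ℕ) (hs : ∀ i j, a i j = a j i) (i : I) (l : ℕ) :
    -eta a i (l + 1) = Tht a (Fe a i l - 1) := by
  have h1 := one_sub_eta a hs i l
  have h2 := Vp_eq a i l 1
  unfold Vp at h2
  rw [mul_one] at h2
  rw [h2, Pool.Agent.H46.KA.rpw_one _ (Fe_const a i l)] at h1
  have h3 : Tht a (Fe a i l - 1) = Tht a (Fe a i l) - 1 := by
    rw [← ThtH_apply, map_sub, map_one]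
    rfl
  rw [h3]
  linear_combination h1

/-- the truncated binomial expansion. -/
theorem Vp_trunc (a : I → I → ℕ) (hs : ∀ i j, a i j = a j i) (i : I) (l : ℕ) (β : ℚ)
    (γ : I → ℚ) (K : ℕ) (hK : ∀ n : I →₀ ℕ, (∀ j, (n j : ℚ) = γ j) → n i < (l + 1) * K) :
    ∃ Rm : LL I, Vp a i l β =
      ∑ n ∈ Finset.range K, qC (Ring.choose β n) * (-eta a i (l + 1)) ^ n + Rm ∧
      ∀ F : LL I, CT γ (Rm * F) = 0 := by
  classical
  set Rem : MvPowerSeries I ℚ := Pool.Agent.H46.KA.rpw (Fe a i l) β -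
    ∑ n ∈ Finset.range K, C (Ring.choose β n) * (Fe a i l - 1) ^ n with hRem
  have hcoef : ∀ (m : ℕ) (β' : I →₀ ℕ), β' i < (l + 1) * m →
      coeff β' ((Fe a i l - 1) ^ m) = 0 := by
    intro m β' h
    have h1 : Fe a i l - 1 = X i ^ (l + 1) *
        (-((∏ j, uS a j (l + 1) ^ (a i j)) * ((uS a i (l + 1))⁻¹) ^ 2)) := by
      unfold Fe
      ring
    have h2 : (X i : MvPowerSeries I ℚ) ^ ((l + 1) * m) ∣ (Fe a i l - 1) ^ m := by
      rw [h1, mul_pow, ← pow_mul]
      exact Dvd.intro _ rfl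
    exact MvPowerSeries.X_pow_dvd_iff.mp h2 β' h
  have hRem0 : ∀ β' : I →₀ ℕ, β' i < (l + 1) * K → coeff β' Rem = 0 := by
    intro β' h
    have hsum : ∀ j, β' j ≤ ∑ j, β' j :=
      fun j => Finset.single_le_sum (f := fun j => β' j) (fun _ _ => Nat.zero_le _)
        (Finset.mem_univ j)
    rw [hRem, map_sub, map_sum, sub_eq_zero]
    have e1 : coeff β' (Pool.Agent.H46.KA.rpw (Fe a i l) β) = ∑ n ∈ Finset.range (∑ j, β' j + 1),
        Ring.choose β n * coeff β' ((Fe a i l - 1) ^ n) := rfl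
    have e2 : ∀ n, coeff β' (C (Ring.choose β n) * (Fe a i l - 1) ^ n) =
        Ring.choose β n * coeff β' ((Fe a i l - 1) ^ n) := fun n => coeff_C_mul _ _ _
    rw [e1, Finset.sum_congr rfl (fun n _ => e2 n)]
    have e3 : ∑ n ∈ Finset.range (∑ j, β' j + 1),
          Ring.choose β n * coeff β' ((Fe a i l - 1) ^ n) =
        ∑ n ∈ Finset.range (∑ j, β' j + 1 + K),
          Ring.choose β n * coeff β' ((Fe a i l - 1) ^ n) := by
      refine Finset.sum_subset (fun n hn => ?_) (fun n _ hn => ?_)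
      · rw [Finset.mem_range] at *
        omega
      · rw [Finset.mem_range] at hn
        rw [hcoef n β', mul_zero]
        have := hsum i
        have h3 : n ≤ (l + 1) * n := Nat.le_mul_of_pos_left n (Nat.succ_pos l)
        omega
    have e4 : ∑ n ∈ Finset.range K,
          Ring.choose β n * coeff β' ((Fe a i l - 1) ^ n) =
        ∑ n ∈ Finset.range (∑ j, β' j + 1 + K),
          Ring.choose β n * coeff β' ((Fe a i l - 1) ^ n) := by
      refine Finset.sum_subset (fun n hn => ?_) (fun n _ hn => ?_)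
      · rw [Finset.mem_range] at *
        omega
      · rw [Finset.mem_range] at hn
        rw [hcoef n β', mul_zero]
        have h3 : (l + 1) * K ≤ (l + 1) * n := Nat.mul_le_mul_left _ (by omega)
        omega
    rw [e3, e4]
  refine ⟨Tht a Rem, ?_, ?_⟩
  · rw [Vp_eq]
    have h1 : Pool.Agent.H46.KA.rpw (Fe a i l) β = (∑ n ∈ Finset.range K, C (Ring.choose β n) *
        (Fe a i l - 1) ^ n) + Rem := by
      rw [hRem]
      ring
    rw [h1, Tht_add]
    congr 1
    rw [← ThtH_apply, map_sum]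
    refine Finset.sum_congr rfl (fun n _ => ?_)
    rw [map_mul, map_pow, ThtH_apply, ThtH_apply, Tht_C, neg_eta_eq a hs]
  · intro F
    by_cases h : ∃ n : I →₀ ℕ, ∀ j, (n j : ℚ) = γ j
    · obtain ⟨n, hn⟩ := h
      have hγ : γ = fun j => (n j : ℚ) := by
        funext j; exact (hn j).symm
      have hlt := hK n hn
      rw [hγ, CT_nat, coeff_mul, Finset.sum_eq_zero]
      · rfl
      · intro p hp
        have h1 : p.1 i ≤ n i := by
          have := Finset.HasAntidiagonal.mem_antidiagonal.mp hp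
          rw [← this]
          simp
        have h2 : coeff p.1 (Tht a Rem) =
            AddMonoidAlgebra.single (dg a p.1) (coeff p.1 Rem) := rfl
        rw [h2, hRem0 p.1 (by omega), AddMonoidAlgebra.single_zero, zero_mul]
    · exact CT_of_not γ h _

end Pool.Agent.H10.KAC

end
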