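import Mathlib

/-! The parts of this file: H10.KAC.Fresh, H10.KAC.TransLaw, H10.KAC.Univ, H10.KAC.Curve, H27.KAC.PII_Fac, H27.KAC.PII_Full, H27.KAC.PII_CExt, H27.KAC.PII_Part, H27.KAC.PII_Typ, H27.KAC.PII_TypE, H27.KAC.PI_Idem, H27.KAC.PI_Rank, H27.KAC.PI_Wed, H88.KA.KN1, H88.KA.KN1_1, H88.KA.KN3. -/

section

/-!
Run lemma, module 1: fresh variables in a polynomial ring over the integers.

`Free i v`: the polynomial `v` does not involve the variable `i`.  If `α, β` are relatively prime, free of the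
variable `i` and `v ≠ 0` is free of `i`, then `α + X i * β` is relatively prime to `v`.
-/

namespace Pool.Agent.H10.KAC

open scoped BigOperators
open MvPolynomial

variable {σ : Type} [DecidableEq σ]

/-- the substitution `X i ↦ T`. -/
noncomputable def th1 (i : σ) : MvPolynomial σ ℤ →+* Polynomial (MvPolynomial σ ℤ) :=
  eval₂Hom (algebraMap ℤ (Polynomial (MvPolynomial σ ℤ)))
    (fun j => if j = i then Polynomial.X else Polynomial.C (X j))

/-- `v` does not involve the variable `i`. -/
def Free (i : σ) (v : MvPolynomial σ ℤ) : Prop := th1 i v = Polynomial.C v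

theorem th1_X_self (i : σ) : th1 i (X i) = Polynomial.X := by
  simp [th1]

theorem th1_X_ne {i j : σ} (h : j ≠ i) : th1 i (X j) = Polynomial.C (X j) := by
  simp [th1, h]

theorem eval_th1 (i : σ) (v : MvPolynomial σ ℤ) : Polynomial.eval (X i) (th1 i v) = v := by
  have h : ((Polynomial.evalRingHom (X i : MvPolynomial σ ℤ)).comp (th1 i)) = RingHom.id _ := by
    apply MvPolynomial.ringHom_ext
    · intro r
      simp
    · intro j
      by_cases hj : j = i
      · subst hj
        simp [th1_X_self]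
      · simp [th1_X_ne hj]
  have := RingHom.congr_fun h v
  simpa using this

theorem Free.add {i : σ} {v w : MvPolynomial σ ℤ} (hv : Free i v) (hw : Free i w) :
    Free i (v + w) := by
  unfold Free at *
  rw [map_add, hv, hw, map_add]

theorem Free.sub {i : σ} {v w : MvPolynomial σ ℤ} (hv : Free i v) (hw : Free i w) :
    Free i (v - w) := by
  unfold Free at *
  rw [map_sub, hv, hw, map_sub]

theorem Free.neg {i : σ} {v : MvPolynomial σ ℤ} (hv : Free i v) : Free i (-v) := by
  unfold Free at *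
  rw [map_neg, hv, map_neg]

theorem Free.mul {i : σ} {v w : MvPolynomial σ ℤ} (hv : Free i v) (hw : Free i w) :
    Free i (v * w) := by
  unfold Free at *
  rw [map_mul, hv, hw, map_mul]

theorem Free.pow {i : σ} {v : MvPolynomial σ ℤ} (hv : Free i v) (n : ℕ) : Free i (v ^ n) := by
  unfold Free at *
  rw [map_pow, hv, map_pow]

theorem Free.zero (i : σ) : Free i (0 : MvPolynomial σ ℤ) := by
  unfold Free
  rw [map_zero, map_zero]

theorem Free.one (i : σ) : Free i (1 : MvPolynomial σ ℤ) := by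
  unfold Free
  rw [map_one, map_one]

theorem Free.prod {ι : Type} {i : σ} {s : Finset ι} {f : ι → MvPolynomial σ ℤ}
    (h : ∀ j ∈ s, Free i (f j)) : Free i (∏ j ∈ s, f j) := by
  unfold Free at *
  rw [map_prod, map_prod]
  exact Finset.prod_congr rfl h

theorem Free.X {i j : σ} (h : j ≠ i) : Free i (X j : MvPolynomial σ ℤ) := th1_X_ne h

theorem Free.of_dvd {i : σ} {d v : MvPolynomial σ ℤ} (hv : Free i v) (h0 : v ≠ 0) (hd : d ∣ v) :
    Free i d := by
  obtain ⟨e, he⟩ := hd
  have h1 : th1 i d * th1 i e = Polynomial.C v := by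
    rw [← map_mul, ← he]
    exact hv
  have h2 : (th1 i d * th1 i e) ≠ 0 := by
    rw [h1]
    exact fun h => h0 (Polynomial.C_eq_zero.mp h)
  have h3 : (th1 i d).natDegree + (th1 i e).natDegree = 0 := by
    rw [← Polynomial.natDegree_mul (left_ne_zero_of_mul h2) (right_ne_zero_of_mul h2), h1,
      Polynomial.natDegree_C]
  have h4 : (th1 i d).natDegree = 0 := by omega
  have h5 := Polynomial.eq_C_of_natDegree_eq_zero h4
  have h6 := eval_th1 i d
  rw [h5, Polynomial.eval_C] at h6
  unfold Free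
  rw [h5, h6]

/-- The fresh variable lemma. -/
theorem fresh {i : σ} {α β v : MvPolynomial σ ℤ} (hα : Free i α) (hβ : Free i β)
    (hr : IsRelPrime α β) (hv : Free i v) (h0 : v ≠ 0) : IsRelPrime (α + X i * β) v := by
  intro d hd1 hd2
  have hd := hv.of_dvd h0 hd2
  obtain ⟨e, he⟩ := hd1
  have h1 : Polynomial.C α + Polynomial.X * Polynomial.C β = Polynomial.C d * th1 i e := by
    have := congrArg (th1 i) he
    rw [map_add, map_mul, map_mul, th1_X_self, hα, hβ, hd] at this
    exact this
  have h2 : α = d * (th1 i e).eval 0 := by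
    have := congrArg (Polynomial.eval 0) h1
    simpa using this
  have h3 : α + β = d * (th1 i e).eval 1 := by
    have := congrArg (Polynomial.eval 1) h1
    simpa using this
  have h4 : d ∣ α := ⟨_, h2⟩
  have h5 : d ∣ β := by
    have : d ∣ (α + β) - α := dvd_sub ⟨_, h3⟩ h4
    simpa using this
  exact hr h4 h5

theorem fresh_ne {i : σ} {α β : MvPolynomial σ ℤ} (hα : Free i α) (hβ : Free i β)
    (h0 : β ≠ 0) : α + X i * β ≠ 0 := by
  intro he
  have h1 : Polynomial.C α + Polynomial.X * Polynomial.C β = 0 := by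
    have := congrArg (th1 i) he
    rw [map_add, map_mul, th1_X_self, hα, hβ, map_zero] at this
    exact this
  have h2 : α = 0 := by
    have := congrArg (Polynomial.eval 0) h1
    simpa using this
  have h3 : α + β = 0 := by
    have := congrArg (Polynomial.eval 1) h1
    simpa using this
  rw [h2, zero_add] at h3
  exact h0 h3

end Pool.Agent.H10.KAC

end

section

/-!
Run lemma, module 5: the transformation law for residues, in a purely algebraic form with labels.

`Lx y` = elements regular in direction `y`; the functional `Φ` vanishes on elements which are regular in some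
direction `y ∈ N`.
-/

namespace Pool.Agent.H10.KAC

open scoped BigOperators
open Matrix

theorem det_mem {I L : Type} [Fintype I] [DecidableEq I] [CommRing L] (S : Subring L)
    {M : Matrix I I L} (h : ∀ i j, M i j ∈ S) : M.det ∈ S := by
  rw [Matrix.det_apply]
  refine Subring.sum_mem _ (fun σ _ => ?_)
  rw [Units.smul_def, zsmul_eq_mul]
  exact Subring.mul_mem _ (intCast_mem S _) (Subring.prod_mem _ (fun i _ => h _ _))

section

variable {I L A' : Type} [Fintype I] [DecidableEq I] [CommRing L] [AddCommGroup A']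

/-- Cramer type identity. -/
theorem cramer_id (B : Matrix I I L) (f : I → L) (m y : I) :
    f m * (B.updateRow m (Pi.single y 1)).det - f y * (B.updateRow m (Pi.single m 1)).det =
      ∑ i ∈ Finset.univ.erase m, (B *ᵥ f) i *
        (B.updateRow m (Pi.single y 1)).adjugate m i := by
  set C := B.updateRow m (Pi.single y 1) with hC
  have h1 : ∑ i, C.adjugate m i * (C *ᵥ f) i = C.det * f m := by
    have h2 : C.adjugate *ᵥ (C *ᵥ f) = C.det • f := by
      rw [Matrix.mulVec_mulVec, Matrix.adjugate_mul, Matrix.smul_mulVec, Matrix.one_mulVec]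
    have h3 := congrFun h2 m
    simpa [Matrix.mulVec, dotProduct] using h3
  rw [← Finset.add_sum_erase Finset.univ _ (Finset.mem_univ m)] at h1
  have h4 : (C *ᵥ f) m = f y := by
    simp [hC, Matrix.mulVec]
  have h5 : C.adjugate m m = (B.updateRow m (Pi.single m 1)).det := by
    rw [Matrix.adjugate_apply, hC, Matrix.updateRow_idem]
  have h6 : ∀ i ∈ Finset.univ.erase m, C.adjugate m i * (C *ᵥ f) i =
      (B *ᵥ f) i * C.adjugate m i := by
    intro i hi
    have hne : i ≠ m := Finset.ne_of_mem_erase hi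
    have : (C *ᵥ f) i = (B *ᵥ f) i := by
      simp [hC, Matrix.mulVec, Matrix.updateRow_ne hne]
    rw [this, mul_comm]
  rw [h4, h5, Finset.sum_congr rfl h6] at h1
  linear_combination -h1

variable (A : Matrix I I L)

/-- rows in `M` replaced by unit vectors. -/
def rowM (M : Finset I) : Matrix I I L := fun i => if i ∈ M then Pi.single i 1 else A i

theorem rowM_mem {M : Finset I} {i : I} (h : i ∈ M) : rowM A M i = Pi.single i 1 := by
  simp [rowM, h]

theorem rowM_not {M : Finset I} {i : I} (h : i ∉ M) : rowM A M i = A i := by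
  simp [rowM, h]

theorem rowM_insert {M : Finset I} (m : I) :
    rowM A (insert m M) = (rowM A M).updateRow m (Pi.single m 1) := by
  funext i
  by_cases hi : i = m
  · subst hi
    rw [Matrix.updateRow_self, rowM_mem A (Finset.mem_insert_self i M)]
  · rw [Matrix.updateRow_ne hi]
    simp [rowM, hi]

/-- The transformation law. -/
theorem trans_law (N : Finset I) (Lx : I → Subring L) (Φ : L →+ A')
    (hΦ : ∀ x ∈ N, ∀ F ∈ Lx x, Φ F = 0) {f g u v : I → L} {ζ H : L}
    (hu : ∀ x ∈ N, u x * f x = 1) (hv : ∀ x ∈ N, v x * g x = 1)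
    (hu' : ∀ x ∈ N, ∀ y ∈ N, y ≠ x → u x ∈ Lx y) (hv' : ∀ x ∈ N, ∀ y ∈ N, y ≠ x → v x ∈ Lx y)
    (hA : ∀ i j, ∀ y ∈ N, A i j ∈ Lx y) (hζ : ∀ y ∈ N, ζ ∈ Lx y) (hH : ∀ y ∈ N, H ∈ Lx y)
    (hAN : ∀ i, i ∉ N → A i = Pi.single i 1) (hAN' : ∀ i ∈ N, ∀ j, j ∉ N → A i j = 0)
    (hrel : ∀ x ∈ N, ζ * g x = ∑ y ∈ N, A x y * f y) :
    Φ (H * A.det * ∏ x ∈ N, v x) = Φ (H * ζ ^ N.card * ∏ x ∈ N, u x) := by
  classical
  -- the function `f` extended by zero
  let f' : I → L := fun i => if i ∈ N then f i else 0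
  have hf'N : ∀ i ∈ N, f' i = f i := fun i hi => if_pos hi
  have hf'n : ∀ i, i ∉ N → f' i = 0 := fun i hi => if_neg hi
  have hrowmem : ∀ (M : Finset I) (i j : I), ∀ y ∈ N, rowM A M i j ∈ Lx y := by
    intro M i j y hy
    by_cases hi : i ∈ M
    · rw [rowM_mem A hi]
      by_cases hj : j = i
      · subst hj
        rw [Pi.single_eq_same]
        exact Subring.one_mem _
      · rw [Pi.single_eq_of_ne hj]
        exact Subring.zero_mem _
    · rw [rowM_not A hi]
      exact hA i j y hy
  have hsing : ∀ (i j : I) (y : I), (Pi.single i 1 : I → L) j ∈ Lx y := by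
    intro i j y
    by_cases hj : j = i
    · subst hj
      rw [Pi.single_eq_same]
      exact Subring.one_mem _
    · rw [Pi.single_eq_of_ne hj]
      exact Subring.zero_mem _
  have hupd : ∀ (B : Matrix I I L) (m z : I) (y : I), (∀ i j, B i j ∈ Lx y) →
      ∀ i j, B.updateRow m (Pi.single z 1) i j ∈ Lx y := by
    intro B m z y hB i j
    by_cases hi : i = m
    · subst hi
      rw [Matrix.updateRow_self]
      exact hsing z j y
    · rw [Matrix.updateRow_ne hi]
      exact hB i j
  let P : Finset I → L := fun M =>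
    H * ζ ^ M.card * (rowM A M).det * (∏ x ∈ M, u x) * ∏ x ∈ N \ M, v x
  have step : ∀ M : Finset I, M ⊆ N → ∀ m ∈ N, m ∉ M → Φ (P (insert m M)) = Φ (P M) := by
    intro M hMN m hmN hmM
    set W := H * ζ ^ M.card * (∏ x ∈ M, u x) * ∏ x ∈ (N \ M).erase m, v x with hW
    set B := rowM A M with hB
    have hd1 : P M = W * (B.det * f m) * (u m * v m) := by
      simp only [P]
      rw [← Finset.mul_prod_erase (N \ M) v (Finset.mem_sdiff.mpr ⟨hmN, hmM⟩), hW]
      linear_combination (-(H * ζ ^ M.card * B.det * (∏ x ∈ M, u x) *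
        (v m * ∏ x ∈ (N \ M).erase m, v x))) * hu m hmN
    have hd2 : P (insert m M) = W * (ζ * g m * (B.updateRow m (Pi.single m 1)).det) *
        (u m * v m) := by
      simp only [P]
      rw [Finset.card_insert_of_notMem hmM, Finset.prod_insert hmM, rowM_insert, ← hB,
        show N \ insert m M = (N \ M).erase m by
          ext z
          simp only [Finset.mem_sdiff, Finset.mem_insert, Finset.mem_erase]
          tauto, hW, pow_succ]
      linear_combination (-(H * ζ ^ M.card * ζ * (B.updateRow m (Pi.single m 1)).det *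
        (u m * ∏ x ∈ M, u x) * ∏ x ∈ (N \ M).erase m, v x)) * hv m hmN
    -- expansion of the determinant
    have hdetB : B.det = ∑ y ∈ N, A m y * (B.updateRow m (Pi.single y 1)).det := by
      have e1 : B.det = ∑ y, A m y * (B.updateRow m (Pi.single y 1)).det := by
        have e2 := Matrix.det_eq_sum_mul_adjugate_row B m
        rw [e2]
        refine Finset.sum_congr rfl (fun y _ => ?_)
        rw [Matrix.adjugate_apply, hB, rowM_not A hmM]
      rw [e1]
      symm
      apply Finset.sum_subset (Finset.subset_univ N)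
      intro y _ hy
      rw [hAN' m hmN y hy, zero_mul]
    have hdiff : P M - P (insert m M) = ∑ y ∈ N, W * (u m * v m) * (A m y *
        (f m * (B.updateRow m (Pi.single y 1)).det -
          f y * (B.updateRow m (Pi.single m 1)).det)) := by
      rw [hd1, hd2, hrel m hmN, hdetB, ← Finset.mul_sum, Finset.sum_mul, Finset.sum_mul,
        ← mul_sub_right_distrib, ← mul_sub, ← Finset.sum_sub_distrib]
      rw [mul_assoc, mul_comm (∑ y ∈ N, _) (u m * v m), ← mul_assoc]
      congr 1
      refine Finset.sum_congr rfl (fun y _ => by ring)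
    have hzero : ∀ y ∈ N, Φ (W * (u m * v m) * (A m y *
        (f m * (B.updateRow m (Pi.single y 1)).det -
          f y * (B.updateRow m (Pi.single m 1)).det))) = 0 := by
      intro y hyN
      -- removal of a factor with label `i`
      have hWu : ∀ i ∈ N, i ∈ M → ∀ K, (∀ z ∈ N, K ∈ Lx z) →
          Φ (W * (u m * v m) * (f i * K)) = 0 := by
        intro i hiN hiM K hK
        apply hΦ i hiN
        have him : i ≠ m := fun h => hmM (h ▸ hiM)
        have e1 : W * (u m * v m) * (f i * K) = H * ζ ^ M.card * (∏ x ∈ M.erase i, u x) *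
            (∏ x ∈ (N \ M).erase m, v x) * (u m * v m) * K := by
          rw [hW, ← Finset.mul_prod_erase M u hiM]
          linear_combination (H * ζ ^ M.card * (∏ x ∈ M.erase i, u x) *
            (∏ x ∈ (N \ M).erase m, v x) * (u m * v m) * K) * hu i hiN
        rw [e1]
        refine Subring.mul_mem _ (Subring.mul_mem _ (Subring.mul_mem _ (Subring.mul_mem _
          (Subring.mul_mem _ (hH i hiN) (Subring.pow_mem _ (hζ i hiN) _)) ?_) ?_)
          (Subring.mul_mem _ (hu' m hmN i hiN him) (hv' m hmN i hiN him))) (hK i hiN)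
        · exact Subring.prod_mem _ (fun x hx => hu' x (hMN (Finset.mem_of_mem_erase hx)) i hiN
            (Finset.ne_of_mem_erase hx).symm)
        · refine Subring.prod_mem _ (fun x hx => ?_)
          have hx1 := Finset.mem_sdiff.mp (Finset.mem_of_mem_erase hx)
          exact hv' x hx1.1 i hiN (fun h => hx1.2 (h ▸ hiM))
      have hWv : ∀ i ∈ N, i ∉ M → i ≠ m → ∀ K, (∀ z ∈ N, K ∈ Lx z) →
          Φ (W * (u m * v m) * (g i * K)) = 0 := by
        intro i hiN hiM him K hK
        apply hΦ i hiN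
        have hmem : i ∈ (N \ M).erase m :=
          Finset.mem_erase.mpr ⟨him, Finset.mem_sdiff.mpr ⟨hiN, hiM⟩⟩
        have e1 : W * (u m * v m) * (g i * K) = H * ζ ^ M.card * (∏ x ∈ M, u x) *
            (∏ x ∈ ((N \ M).erase m).erase i, v x) * (u m * v m) * K := by
          rw [hW, ← Finset.mul_prod_erase ((N \ M).erase m) v hmem]
          linear_combination (H * ζ ^ M.card * (∏ x ∈ M, u x) *
            (∏ x ∈ ((N \ M).erase m).erase i, v x) * (u m * v m) * K) * hv i hiN
        rw [e1]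
        refine Subring.mul_mem _ (Subring.mul_mem _ (Subring.mul_mem _ (Subring.mul_mem _
          (Subring.mul_mem _ (hH i hiN) (Subring.pow_mem _ (hζ i hiN) _)) ?_) ?_)
          (Subring.mul_mem _ (hu' m hmN i hiN him) (hv' m hmN i hiN him))) (hK i hiN)
        · exact Subring.prod_mem _ (fun x hx => hu' x (hMN hx) i hiN (fun h => hiM (h ▸ hx)))
        · refine Subring.prod_mem _ (fun x hx => ?_)
          have hx1 := Finset.mem_sdiff.mp (Finset.mem_of_mem_erase (Finset.mem_of_mem_erase hx))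
          exact hv' x hx1.1 i hiN (Finset.ne_of_mem_erase hx).symm
      by_cases hym : y = m
      · subst hym
        rw [sub_self, mul_zero, mul_zero, map_zero]
      by_cases hyM : y ∈ M
      · -- the row `y` is a unit vector
        have e1 : (B.updateRow m (Pi.single y 1)).det = 0 := by
          apply Matrix.det_zero_of_row_eq (Ne.symm hym)
          rw [Matrix.updateRow_self, Matrix.updateRow_ne hym, hB, rowM_mem A hyM]
        rw [e1, mul_zero, zero_sub]
        have e2 : W * (u m * v m) * (A m y * -(f y * (B.updateRow m (Pi.single m 1)).det)) =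
            W * (u m * v m) * (f y * -(A m y * (B.updateRow m (Pi.single m 1)).det)) := by ring
        rw [e2]
        refine hWu y hyN hyM _ (fun z hz => Subring.neg_mem _ (Subring.mul_mem _ (hA m y z hz)
          (det_mem _ (hupd B m m z (fun i j => hrowmem M i j z hz)))))
      · -- Cramer
        have e1 := cramer_id B f' m y
        rw [hf'N m hmN, hf'N y hyN] at e1
        rw [e1, Finset.mul_sum, Finset.mul_sum, map_sum]
        refine Finset.sum_eq_zero (fun i hi => ?_)
        have him : i ≠ m := Finset.ne_of_mem_erase hi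
        have hadj : ∀ z ∈ N, (B.updateRow m (Pi.single y 1)).adjugate m i ∈ Lx z := by
          intro z hz
          rw [Matrix.adjugate_apply]
          exact det_mem _ (hupd _ i m z (hupd B m y z (fun i j => hrowmem M i j z hz)))
        by_cases hiN : i ∈ N
        · by_cases hiM : i ∈ M
          · have e2 : (B *ᵥ f') i = f i := by
              rw [← hf'N i hiN]
              simp [Matrix.mulVec, hB, rowM_mem A hiM]
            rw [e2]
            have e3 : W * (u m * v m) * (A m y * (f i *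
                (B.updateRow m (Pi.single y 1)).adjugate m i)) = W * (u m * v m) * (f i *
                (A m y * (B.updateRow m (Pi.single y 1)).adjugate m i)) := by ring
            rw [e3]
            exact hWu i hiN hiM _ (fun z hz => Subring.mul_mem _ (hA m y z hz) (hadj z hz))
          · have e2 : (B *ᵥ f') i = ζ * g i := by
              rw [hrel i hiN]
              simp only [Matrix.mulVec, dotProduct, hB, rowM_not A hiM]
              symm
              rw [← Finset.sum_subset (Finset.subset_univ N)]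
              · exact Finset.sum_congr rfl (fun z hz => by rw [hf'N z hz])
              · intro z _ hz
                rw [hf'n z hz, mul_zero]
            rw [e2]
            have e3 : W * (u m * v m) * (A m y * (ζ * g i *
                (B.updateRow m (Pi.single y 1)).adjugate m i)) = W * (u m * v m) * (g i *
                (ζ * (A m y * (B.updateRow m (Pi.single y 1)).adjugate m i))) := by ring
            rw [e3]
            exact hWv i hiN hiM him _ (fun z hz => Subring.mul_mem _ (hζ z hz)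
              (Subring.mul_mem _ (hA m y z hz) (hadj z hz)))
        · have e2 : (B *ᵥ f') i = 0 := by
            rw [← hf'n i hiN]
            have hiM : i ∉ M := fun h => hiN (hMN h)
            simp [Matrix.mulVec, hB, rowM_not A hiM, hAN i hiN]
          rw [e2, zero_mul, mul_zero, mul_zero, map_zero]
    have e0 : Φ (P M) - Φ (P (insert m M)) = 0 := by
      rw [← map_sub, hdiff, map_sum]
      exact Finset.sum_eq_zero hzero
    exact (sub_eq_zero.mp e0).symm
  have all : ∀ M : Finset I, M ⊆ N → Φ (P M) = Φ (P ∅) := by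
    intro M
    induction M using Finset.induction_on with
    | empty => intro _; rfl
    | insert m M hm ih =>
      intro hMN
      rw [step M (fun z hz => hMN (Finset.mem_insert_of_mem hz)) m
        (hMN (Finset.mem_insert_self m M)) hm]
      exact ih (fun z hz => hMN (Finset.mem_insert_of_mem hz))
  have h0 : P ∅ = H * A.det * ∏ x ∈ N, v x := by
    simp only [P]
    have : rowM A ∅ = A := by
      funext i
      exact rowM_not A (Finset.notMem_empty i)
    rw [this, Finset.card_empty, pow_zero, Finset.prod_empty, Finset.sdiff_empty]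
    ring
  have h1 : P N = H * ζ ^ N.card * ∏ x ∈ N, u x := by
    simp only [P]
    have : rowM A N = 1 := by
      funext i
      by_cases hi : i ∈ N
      · rw [rowM_mem A hi]
        funext j
        rw [Matrix.one_apply, Pi.single_apply]
        by_cases h : i = j
        · rw [if_pos h, if_pos h.symm]
        · rw [if_neg h, if_neg (Ne.symm h)]
      · rw [rowM_not A hi, hAN i hi]
        funext j
        rw [Matrix.one_apply, Pi.single_apply]
        by_cases h : i = j
        · rw [if_pos h, if_pos h.symm]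
        · rw [if_neg h, if_neg (Ne.symm h)]
    rw [this, Matrix.det_one, Finset.sdiff_self, Finset.prod_empty]
    ring
  rw [← h0, ← h1, all N (Finset.Subset.refl N)]

end

end Pool.Agent.H10.KAC

end

section

/-!
Run lemma, module 2: the universal Q-system with curvature variables.

`VV N = ℤ[q, w, g_0, g_1, ...]`, variables `(x, 0) = q_x`, `(x, 1) = w_x`, `(x, k + 2) = g_{x, k}`.
-/

namespace Pool.Agent.H10.KAC

open scoped BigOperators
open MvPolynomial

/-- the universal ring. -/
abbrev VV (N : Type) : Type := MvPolynomial (N × ℕ) ℤ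

section

variable {N : Type} [Fintype N] [DecidableEq N]

/-- State of the universal system at level `k`. -/
structure UState (a : N → N → ℕ) (k : ℕ) where
  R : N → VV N
  S : N → VV N
  c : N → VV N
  ρ : N → VV N
  α : N → VV N
  fR : ∀ x y j, k + 2 ≤ j → Free (y, j) (R x)
  fS : ∀ x y j, k + 2 ≤ j → Free (y, j) (S x)
  fc : ∀ x y j, k + 2 ≤ j → Free (y, j) (c x)
  fρ : ∀ x y j, k + 2 ≤ j → Free (y, j) (ρ x)
  fα : ∀ x y j, k + 2 ≤ j → Free (y, j) (α x)
  rel : ∀ x, α x * R x = S x ^ 2 - c x * ρ x * ∏ y, S y ^ (a x y)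
  cS : ∀ x, IsRelPrime (S x) (c x)
  cSS : ∀ x y, x ≠ y → IsRelPrime (S x) (S y)
  nR : ∀ x, R x ≠ 0
  nS : ∀ x, S x ≠ 0
  nc : ∀ x, c x ≠ 0
  dv : ∀ x, S x ∣ R x ^ 2 - c x * ∏ y, R y ^ (a x y)
  cRS : ∀ x, IsRelPrime (R x) (S x)

namespace UState

variable {a : N → N → ℕ} {k : ℕ} (st : UState a k)

/-- the coefficient of the fresh variable in the next `S` (with sign). -/
noncomputable def β (x : N) : VV N := -(st.c x * ∏ y, st.S y ^ (a x y))

/-- the next `ρ`. -/
noncomputable def ρ' (x : N) : VV N := st.ρ x + X (x, k + 2) * st.R x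

/-- the next `c`. -/
noncomputable def c' (x : N) : VV N := st.c x * st.ρ' x

/-- the next `S`. -/
noncomputable def S' (x : N) : VV N := st.α x + X (x, k + 2) * st.β x

theorem fβ (x y : N) (j : ℕ) (hj : k + 2 ≤ j) : Free (y, j) (st.β x) :=
  ((st.fc x y j hj).mul (Free.prod (fun z _ => (st.fS z y j hj).pow _))).neg

theorem fρ' (x y : N) (j : ℕ) (hj : k + 3 ≤ j) : Free (y, j) (st.ρ' x) := by
  refine (st.fρ x y j (by omega)).add (Free.mul (Free.X ?_) (st.fR x y j (by omega)))
  intro h
  have := (Prod.mk.injEq _ _ _ _ ▸ h : x = y ∧ k + 2 = j).2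
  omega

theorem fS' (x y : N) (j : ℕ) (hj : k + 3 ≤ j) : Free (y, j) (st.S' x) := by
  refine (st.fα x y j (by omega)).add (Free.mul (Free.X ?_) (st.fβ x y j (by omega)))
  intro h
  have := (Prod.mk.injEq _ _ _ _ ▸ h : x = y ∧ k + 2 = j).2
  omega

theorem fS'ne (x y : N) (hxy : x ≠ y) : Free (y, k + 2) (st.S' x) := by
  refine (st.fα x y _ le_rfl).add (Free.mul (Free.X ?_) (st.fβ x y _ le_rfl))
  intro h
  exact hxy (Prod.mk.injEq _ _ _ _ ▸ h : x = y ∧ k + 2 = k + 2).1

theorem nβ (x : N) : st.β x ≠ 0 := by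
  unfold β
  rw [neg_ne_zero]
  exact mul_ne_zero (st.nc x) (Finset.prod_ne_zero_iff.mpr (fun y _ => pow_ne_zero _ (st.nS y)))

/-- the one step recursion. -/
theorem srec (x : N) : st.S' x * st.R x = st.S x ^ 2 - st.c' x * ∏ y, st.S y ^ (a x y) := by
  have h := st.rel x
  unfold S' c' β ρ'
  linear_combination h

theorem cαβ (ha : ∀ x, a x x = 0) (x : N) : IsRelPrime (st.α x) (st.β x) := by
  have h1 : IsRelPrime (st.β x) (st.S x) := by
    unfold β
    rw [IsRelPrime.neg_left_iff]
    refine IsRelPrime.mul_left (st.cS x).symm (IsRelPrime.prod_left (fun y _ => ?_))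
    by_cases hxy : x = y
    · subst hxy
      rw [ha, pow_zero]
      exact isRelPrime_one_left
    · exact (st.cSS x y hxy).symm.pow_left
  have h2 : IsRelPrime (st.β x) (st.S x ^ 2) := h1.pow_right
  have h3 : st.S x ^ 2 = st.α x * st.R x + st.β x * (-st.ρ x) := by
    have h := st.rel x
    unfold β
    linear_combination -h
  rw [h3] at h2
  have h4 : IsRelPrime (st.β x) (st.α x * st.R x) := IsRelPrime.of_add_mul_left_right h2
  exact h4.of_mul_right_left.symm

theorem cS' (ha : ∀ x, a x x = 0) (x : N) {v : VV N} (hv : Free (x, k + 2) v) (h0 : v ≠ 0) :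
    IsRelPrime (st.S' x) v :=
  fresh (st.fα x x _ le_rfl) (st.fβ x x _ le_rfl) (st.cαβ ha x) hv h0

theorem nS' (x : N) : st.S' x ≠ 0 := fresh_ne (st.fα x x _ le_rfl) (st.fβ x x _ le_rfl) (st.nβ x)

theorem nρ' (x : N) : st.ρ' x ≠ 0 := fresh_ne (st.fρ x x _ le_rfl) (st.fR x x _ le_rfl) (st.nR x)

theorem cS'c' (ha : ∀ x, a x x = 0) (x : N) : IsRelPrime (st.S' x) (st.c' x) := by
  unfold c'
  refine IsRelPrime.mul_right (st.cS' ha x (st.fc x x _ le_rfl) (st.nc x)) ?_
  intro d hd1 hd2
  have h1 : st.S' x * st.R x + st.ρ' x * -st.β x = st.S x ^ 2 := by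
    have h := st.srec x
    unfold c' at h
    unfold β
    linear_combination h
  have h2 : d ∣ st.S x ^ 2 := by
    rw [← h1]
    exact dvd_add (hd1.mul_right _) (hd2.mul_right _)
  exact st.cS' ha x ((st.fS x x _ le_rfl).pow 2) (pow_ne_zero 2 (st.nS x)) hd1 h2

/-- The frame lemma. -/
theorem frame (hs : ∀ x y, a x y = a y x) (ha : ∀ x, a x x = 0) (x : N) :
    st.S x ∣ st.S' x ^ 2 - st.c' x * st.ρ' x * ∏ y, st.S' y ^ (a x y) := by
  have key : st.S x ∣ st.R x ^ 2 * (st.S' x ^ 2 - st.c' x * st.ρ' x * ∏ y, st.S' y ^ (a x y)) := by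
    rw [← Ideal.mem_span_singleton, ← Ideal.Quotient.eq_zero_iff_mem]
    set π := Ideal.Quotient.mk (Ideal.span {st.S x}) with hπ
    have e0 : π (st.S x) = 0 := by
      rw [hπ, Ideal.Quotient.eq_zero_iff_mem]
      exact Ideal.mem_span_singleton_self _
    have e1 : π (st.S' x) * π (st.R x) = -(π (st.c' x) * ∏ y, π (st.S y) ^ (a x y)) := by
      have h := congrArg π (st.srec x)
      rw [map_mul, map_sub, map_mul, map_pow, e0, map_prod] at h
      rw [h]
      simp only [map_pow]
      ring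
    have e2 : π (st.R x) ^ 2 = π (st.c x) * ∏ y, π (st.R y) ^ (a x y) := by
      have h : π (st.R x ^ 2 - st.c x * ∏ y, st.R y ^ (a x y)) = 0 := by
        rw [hπ, Ideal.Quotient.eq_zero_iff_mem]
        exact Ideal.mem_span_singleton.mpr (st.dv x)
      rw [map_sub, map_pow, map_mul, map_prod, sub_eq_zero] at h
      rw [h]
      simp only [map_pow]
    have e3 : ∀ y, (π (st.R y) * π (st.S' y)) ^ (a x y) = (π (st.S y) ^ 2) ^ (a x y) := by
      intro y
      by_cases hxy : a x y = 0
      · rw [hxy, pow_zero, pow_zero]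
      · congr 1
        have h := congrArg π (st.srec y)
        rw [map_mul, map_sub, map_mul, map_pow, map_prod, Finset.prod_eq_zero (Finset.mem_univ x),
          mul_zero, sub_zero] at h
        · rw [mul_comm, h]
        · rw [map_pow, e0, zero_pow]
          rw [hs y x]
          exact hxy
    have e4 : (∏ y, π (st.R y) ^ (a x y)) * (∏ y, π (st.S' y) ^ (a x y)) =
        (∏ y, π (st.S y) ^ (a x y)) ^ 2 := by
      rw [← Finset.prod_mul_distrib, ← Finset.prod_pow]
      refine Finset.prod_congr rfl (fun y _ => ?_)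
      rw [← mul_pow, e3 y, ← pow_mul, ← pow_mul, mul_comm]
    have e5 : π (st.c' x) = π (st.c x) * π (st.ρ' x) := by
      unfold c'
      rw [map_mul]
    rw [map_mul, map_sub, map_mul, map_mul, map_pow, map_pow, map_prod]
    simp only [map_pow]
    have e6 : π (st.R x) ^ 2 * π (st.S' x) ^ 2 =
        (π (st.c' x)) ^ 2 * (∏ y, π (st.S y) ^ (a x y)) ^ 2 := by
      rw [← mul_pow, mul_comm (π (st.R x)), e1]
      ring
    have e7 : π (st.R x) ^ 2 * (π (st.c' x) * π (st.ρ' x) * ∏ y, π (st.S' y) ^ (a x y)) =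
        (π (st.c' x)) ^ 2 * (∏ y, π (st.S y) ^ (a x y)) ^ 2 := by
      rw [e2, ← e4, e5]
      ring
    rw [mul_sub, e6, e7, sub_self]
  have h2 : IsRelPrime (st.S x) (st.R x ^ 2) := (st.cRS x).symm.pow_right
  exact h2.dvd_of_dvd_mul_left key

/-- the next state. -/
noncomputable def next (hs : ∀ x y, a x y = a y x) (ha : ∀ x, a x x = 0) : UState a (k + 1) where
  R := st.S
  S := st.S'
  c := st.c'
  ρ := st.ρ'
  α := fun x => (st.frame hs ha x).choose
  fR := fun x y j hj => st.fS x y j (by omega)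
  fS := fun x y j hj => st.fS' x y j (by omega)
  fc := fun x y j hj => (st.fc x y j (by omega)).mul (st.fρ' x y j (by omega))
  fρ := fun x y j hj => st.fρ' x y j (by omega)
  fα := fun x y j hj => by
    have h := (st.frame hs ha x).choose_spec
    set A := (st.frame hs ha x).choose with hA
    by_cases h0 : st.S' x ^ 2 - st.c' x * st.ρ' x * ∏ y, st.S' y ^ (a x y) = 0
    · rw [h0] at h
      have : A = 0 := by
        rcases mul_eq_zero.mp h.symm with h1 | h1
        · exact absurd h1 (st.nS x)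
        · exact h1
      rw [this]
      exact Free.zero _
    · refine Free.of_dvd ?_ h0 (Dvd.intro_left _ h.symm)
      exact ((st.fS' x y j (by omega)).pow 2).sub
        (Free.mul (((st.fc x y j (by omega)).mul (st.fρ' x y j (by omega))).mul
          (st.fρ' x y j (by omega))) (Free.prod (fun z _ => (st.fS' z y j (by omega)).pow _)))
  rel := fun x => by
    have h := (st.frame hs ha x).choose_spec
    exact (mul_comm _ _).trans h.symm
  cS := fun x => st.cS'c' ha x
  cSS := fun x y hxy => st.cS' ha x (st.fS'ne y x (Ne.symm hxy)) (st.nS' y)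
  nR := st.nS
  nS := st.nS'
  nc := fun x => mul_ne_zero (st.nc x) (st.nρ' x)
  dv := fun x => ⟨st.R x, by rw [← st.srec x]⟩
  cRS := fun x => (st.cS' ha x (st.fS x x _ le_rfl) (st.nS x)).symm

end UState

/-- the initial state. -/
noncomputable def uInit (a : N → N → ℕ) : UState a 0 where
  R := fun _ => 1
  S := fun x => X (x, 0)
  c := fun x => 1 - X (x, 0) * X (x, 1)
  ρ := fun _ => 0
  α := fun x => X (x, 0) ^ 2
  fR := fun x y j hj => Free.one _
  fS := fun x y j hj => Free.X (by
    intro h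
    have := (Prod.mk.injEq _ _ _ _ ▸ h : x = y ∧ 0 = j).2
    omega)
  fc := fun x y j hj => by
    refine (Free.one _).sub (Free.mul (Free.X ?_) (Free.X ?_))
    · intro h
      have := (Prod.mk.injEq _ _ _ _ ▸ h : x = y ∧ 0 = j).2
      omega
    · intro h
      have := (Prod.mk.injEq _ _ _ _ ▸ h : x = y ∧ 1 = j).2
      omega
  fρ := fun x y j hj => Free.zero _
  fα := fun x y j hj => by
    refine Free.pow (Free.X ?_) 2
    intro h
    have := (Prod.mk.injEq _ _ _ _ ▸ h : x = y ∧ 0 = j).2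
    omega
  rel := fun x => by ring
  cS := fun x => by
    intro d hd1 hd2
    have : d ∣ (1 - X (x, 0) * X (x, 1)) + X (x, 0) * X (x, 1) :=
      dvd_add hd2 (hd1.mul_right _)
    rw [sub_add_cancel] at this
    exact isUnit_of_dvd_one this
  cSS := fun x y hxy => by
    have hf : Free (x, 0) (X (y, 0) : VV N) := Free.X (by
      intro h
      exact hxy (Prod.mk.injEq _ _ _ _ ▸ h : y = x ∧ 0 = 0).1.symm)
    have h := fresh (i := (x, 0)) (α := (0 : VV N)) (β := 1) (Free.zero _) (Free.one _)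
      isRelPrime_one_right hf (X_ne_zero _)
    simpa using h
  nR := fun x => one_ne_zero
  nS := fun x => X_ne_zero _
  nc := fun x => by
    intro h
    have h1 := congrArg (MvPolynomial.eval (fun _ => (0 : ℤ))) h
    simp at h1
  dv := fun x => ⟨X (x, 1), by simp⟩
  cRS := fun x => isRelPrime_one_left

/-- the sequence of states. -/
noncomputable def ust (a : N → N → ℕ) (hs : ∀ x y, a x y = a y x) (ha : ∀ x, a x x = 0) :
    (k : ℕ) → UState a k
  | 0 => uInit a
  | k + 1 => (ust a hs ha k).next hs ha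

/-- the universal `Q`. -/
noncomputable def Qu (a : N → N → ℕ) (hs : ∀ x y, a x y = a y x) (ha : ∀ x, a x x = 0)
    (k : ℕ) (x : N) : VV N := (ust a hs ha k).R x

/-- the universal `c`. -/
noncomputable def cu (a : N → N → ℕ) (hs : ∀ x y, a x y = a y x) (ha : ∀ x, a x x = 0)
    (k : ℕ) (x : N) : VV N := (ust a hs ha k).c x

/-- the universal `ρ`. -/
noncomputable def ru (a : N → N → ℕ) (hs : ∀ x y, a x y = a y x) (ha : ∀ x, a x x = 0)
    (k : ℕ) (x : N) : VV N := (ust a hs ha k).ρ x

variable (a : N → N → ℕ) (hs : ∀ x y, a x y = a y x) (ha : ∀ x, a x x = 0)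

theorem Qu_zero (x : N) : Qu a hs ha 0 x = 1 := rfl

theorem Qu_one (x : N) : Qu a hs ha 1 x = X (x, 0) := rfl

theorem cu_zero (x : N) : cu a hs ha 0 x = 1 - X (x, 0) * X (x, 1) := rfl

theorem ru_zero (x : N) : ru a hs ha 0 x = 0 := rfl

theorem ru_succ (k : ℕ) (x : N) :
    ru a hs ha (k + 1) x = ru a hs ha k x + X (x, k + 2) * Qu a hs ha k x := rfl

theorem ru_one (x : N) : ru a hs ha 1 x = X (x, 2) := by
  rw [ru_succ, ru_zero, Qu_zero, zero_add, zero_add, mul_one]

theorem cu_succ (k : ℕ) (x : N) :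
    cu a hs ha (k + 1) x = cu a hs ha k x * ru a hs ha (k + 1) x := rfl

theorem Qu_rec (k : ℕ) (x : N) :
    Qu a hs ha (k + 2) x * Qu a hs ha k x =
      Qu a hs ha (k + 1) x ^ 2 - cu a hs ha (k + 1) x * ∏ y, Qu a hs ha (k + 1) y ^ (a x y) :=
  (ust a hs ha k).srec x

end

end Pool.Agent.H10.KAC

end

section

/-!
Run lemma, module 3: evaluation of the universal Q-system on a monomial curve.

`Knit a h o`: the orders `o k x` of `Q_{x,k}` along the curve `q_x = τ^(o 1 x)`.
-/

namespace Pool.Agent.H10.KAC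

open scoped BigOperators

/-- knitting data: `o (k+2) + o k = A o (k+1)`, `C (o k) > 0` for `1 ≤ k < h`, `o h = 0`. -/
structure Knit {N : Type} [Fintype N] (a : N → N → ℕ) (h : ℕ) (o : ℕ → N → ℕ) : Prop where
  two_le : 2 ≤ h
  zero : ∀ x, o 0 x = 0
  one : ∀ x, 0 < o 1 x
  knit : ∀ k x, k + 2 ≤ h → o (k + 2) x + o k x = ∑ y, a x y * o (k + 1) y
  pos : ∀ k x, 1 ≤ k → k < h → ∑ y, a x y * o k y < 2 * o k x
  last : ∀ x, o h x = 0

/-- the signs of the leading coefficients. -/
def sg {N : Type} [Fintype N] (a : N → N → ℕ) : ℕ → N → ℤ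
  | 0, _ => 1
  | 1, _ => 1
  | k + 2, x => -(sg a k x * ∏ y, sg a (k + 1) y ^ a x y)

theorem sg_pm {N : Type} [Fintype N] (a : N → N → ℕ) (k : ℕ) (x : N) :
    sg a k x = 1 ∨ sg a k x = -1 := by
  have h0 : ∀ u : ℤ, (u = 1 ∨ u = -1) ↔ u * u = 1 := fun u =>
    ⟨fun h => by rcases h with rfl | rfl <;> norm_num, fun h => mul_self_eq_one_iff.mp h⟩
  induction k using Nat.strong_induction_on generalizing x with
  | _ k ih =>
    match k, ih with
    | 0, _ => exact Or.inl rfl
    | 1, _ => exact Or.inl rfl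
    | k + 2, ih =>
      rw [h0]
      have h1 := (h0 _).mp (ih k (by omega) x)
      have h2 : (∏ y, sg a (k + 1) y ^ a x y) * (∏ y, sg a (k + 1) y ^ a x y) = 1 := by
        rw [← Finset.prod_mul_distrib]
        refine Finset.prod_eq_one (fun y _ => ?_)
        rw [← mul_pow, (h0 _).mp (ih (k + 1) (by omega) y), one_pow]
      change -(sg a k x * ∏ y, sg a (k + 1) y ^ a x y) *
        -(sg a k x * ∏ y, sg a (k + 1) y ^ a x y) = 1
      linear_combination (∏ y, sg a (k + 1) y ^ a x y) * (∏ y, sg a (k + 1) y ^ a x y) * h1 + h2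

section lead

variable {B : Type} [CommRing B]

open Polynomial

/-- `F = τ^m (b + O(τ))`. -/
def Lead (F : Polynomial B) (m : ℕ) (b : B) : Prop := ∃ G, F = X ^ m * (C b + X * G)

theorem Lead.mul {F G : Polynomial B} {m n : ℕ} {b c : B} (hF : Lead F m b) (hG : Lead G n c) :
    Lead (F * G) (m + n) (b * c) := by
  obtain ⟨F', rfl⟩ := hF
  obtain ⟨G', rfl⟩ := hG
  refine ⟨F' * C c + C b * G' + X * F' * G', ?_⟩
  rw [map_mul, pow_add]
  ring

theorem Lead.one : Lead (1 : Polynomial B) 0 1 := ⟨0, by simp⟩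

theorem Lead.pow {F : Polynomial B} {m : ℕ} {b : B} (hF : Lead F m b) (n : ℕ) :
    Lead (F ^ n) (n * m) (b ^ n) := by
  induction n with
  | zero => simpa using Lead.one
  | succ n ih =>
    have h := ih.mul hF
    rw [pow_succ, pow_succ]
    convert h using 1
    ring

theorem Lead.prod {ι : Type} {s : Finset ι} {F : ι → Polynomial B} {m : ι → ℕ} {b : ι → B}
    (h : ∀ i ∈ s, Lead (F i) (m i) (b i)) : Lead (∏ i ∈ s, F i) (∑ i ∈ s, m i) (∏ i ∈ s, b i) := by
  classical
  induction s using Finset.induction_on with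
  | empty => simpa using Lead.one
  | insert i s hi ih =>
    rw [Finset.prod_insert hi, Finset.sum_insert hi, Finset.prod_insert hi]
    exact (h i (Finset.mem_insert_self i s)).mul (ih (fun j hj => h j (Finset.mem_insert_of_mem hj)))

theorem Lead.sub {F G : Polynomial B} {m n : ℕ} {b c : B} (hF : Lead F m b) (hG : Lead G n c)
    (hmn : m < n) : Lead (G - F) m (-b) := by
  obtain ⟨F', rfl⟩ := hF
  obtain ⟨G', rfl⟩ := hG
  obtain ⟨d, rfl⟩ : ∃ d, n = m + 1 + d := ⟨n - m - 1, by omega⟩
  refine ⟨X ^ d * (C c + X * G') - F', ?_⟩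
  rw [map_neg, pow_add, pow_add]
  ring

theorem Lead.dvd_X {F : Polynomial B} {m : ℕ} {b : B} (hF : Lead F m b) (hm : 0 < m) :
    ∃ G, F = X * G := by
  obtain ⟨F', rfl⟩ := hF
  obtain ⟨d, rfl⟩ : ∃ d, m = d + 1 := ⟨m - 1, by omega⟩
  exact ⟨X ^ d * (C b + X * F'), by rw [pow_succ]; ring⟩

theorem Lead.eval_zero {F : Polynomial B} {m : ℕ} {b : B} (hF : Lead F m b) (hm : 0 < m) :
    F.eval 0 = 0 := by
  obtain ⟨G, rfl⟩ := hF.dvd_X hm
  simp

theorem Lead.eval_zero' {F : Polynomial B} {b : B} (hF : Lead F 0 b) : F.eval 0 = b := by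
  obtain ⟨G, rfl⟩ := hF
  simp

theorem Lead.cancel [IsDomain B] {F G H : Polynomial B} {m p : ℕ} {b d : B} (hF : Lead F m b)
    (hb : b ≠ 0) (hH : Lead H p d) (hmp : m ≤ p) (h : F * G = H) :
    ∃ c, Lead G (p - m) c ∧ b * c = d := by
  obtain ⟨F', rfl⟩ := hF
  obtain ⟨H', rfl⟩ := hH
  obtain ⟨n, rfl⟩ : ∃ n, p = m + n := ⟨p - m, by omega⟩
  have hX : (X : Polynomial B) ^ m ≠ 0 := pow_ne_zero m X_ne_zero
  have h1 : (C b + X * F') * G = X ^ n * (C d + X * H') := by
    apply mul_left_cancel₀ hX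
    rw [← mul_assoc, h, pow_add, mul_assoc]
  have h2 : (X : Polynomial B) ^ n ∣ (C b + X * F') * G := ⟨_, h1⟩
  have h3 : ¬ (X : Polynomial B) ∣ (C b + X * F') := by
    intro hd
    rw [X_dvd_iff] at hd
    apply hb
    simpa using hd
  have h4 : (X : Polynomial B) ^ n ∣ G := prime_X.pow_dvd_of_dvd_mul_left n h3 h2
  obtain ⟨G', rfl⟩ := h4
  have h5 : (C b + X * F') * G' = C d + X * H' := by
    apply mul_left_cancel₀ (pow_ne_zero n (X_ne_zero (R := B)))
    rw [← h1]
    ring
  refine ⟨G'.coeff 0, ⟨G'.divX, ?_⟩, ?_⟩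
  · rw [Nat.add_sub_cancel_left, add_comm, X_mul_divX_add]
  · have h6 := congrArg (fun P => Polynomial.coeff P 0) h5
    simpa [mul_coeff_zero] using h6

end lead

section mono

open MvPolynomial

variable {N : Type} [Fintype N] [DecidableEq N]

/-- the exponent vector of `∏ X (y, 2) ^ r y`. -/
noncomputable def ex2 (r : N → ℕ) : (N × ℕ) →₀ ℕ := ∑ y, Finsupp.single (y, 2) (r y)

theorem ex2_apply (r : N → ℕ) (y : N) : ex2 r (y, 2) = r y := by
  unfold ex2
  rw [Finsupp.finsetSum_apply, Finset.sum_eq_single y]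
  · simp
  · intro z _ hz
    rw [Finsupp.single_apply, if_neg]
    intro h
    exact hz (Prod.mk.injEq _ _ _ _ ▸ h : z = y ∧ 2 = 2).1
  · intro h
    exact absurd (Finset.mem_univ y) h

theorem ex2_inj {r r' : N → ℕ} (h : ex2 r = ex2 r') : r = r' := by
  funext y
  rw [← ex2_apply r y, h, ex2_apply]

theorem ex2_monomial (ε : ℤ) (r : N → ℕ) :
    (C ε * ∏ y, X (y, 2) ^ r y : VV N) = monomial (ex2 r) ε := by
  unfold ex2
  have h : (∏ y, X (y, 2) ^ r y : VV N) = monomial (∑ y, Finsupp.single (y, 2) (r y)) 1 := by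
    rw [monomial_sum_index, C_1, one_mul]
    simp [X_pow_eq_monomial]
  rw [h, C_mul_monomial, mul_one]

/-- signed monomials in the variables `(y, 2)`. -/
def IsMon (b : VV N) : Prop :=
  ∃ (ε : ℤ) (r : N → ℕ), (ε = 1 ∨ ε = -1) ∧ b = C ε * ∏ y, X (y, 2) ^ r y

theorem IsMon.one : IsMon (1 : VV N) := ⟨1, fun _ => 0, Or.inl rfl, by simp⟩

theorem IsMon.X (x : N) : IsMon (X (x, 2) : VV N) := by
  refine ⟨1, fun y => if y = x then 1 else 0, Or.inl rfl, ?_⟩
  rw [C_1, one_mul, Finset.prod_eq_single x]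
  · simp
  · intro y _ hy
    simp [hy]
  · intro h
    exact absurd (Finset.mem_univ x) h

theorem IsMon.mul {b c : VV N} (hb : IsMon b) (hc : IsMon c) : IsMon (b * c) := by
  obtain ⟨ε, r, h1, rfl⟩ := hb
  obtain ⟨ε', r', h2, rfl⟩ := hc
  refine ⟨ε * ε', fun y => r y + r' y, ?_, ?_⟩
  · rcases h1 with rfl | rfl <;> rcases h2 with rfl | rfl <;> simp
  · have : (∏ y, MvPolynomial.X (y, 2) ^ (r y + r' y) : VV N) =
      (∏ y, MvPolynomial.X (y, 2) ^ r y) * ∏ y, MvPolynomial.X (y, 2) ^ r' y := by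
      rw [← Finset.prod_mul_distrib]
      exact Finset.prod_congr rfl (fun y _ => pow_add _ _ _)
    rw [this, C_mul]
    ring

theorem IsMon.neg {b : VV N} (hb : IsMon b) : IsMon (-b) := by
  obtain ⟨ε, r, h1, rfl⟩ := hb
  refine ⟨-ε, r, ?_, by rw [C_neg, neg_mul]⟩
  rcases h1 with rfl | rfl <;> simp

theorem IsMon.pow {b : VV N} (hb : IsMon b) (n : ℕ) : IsMon (b ^ n) := by
  induction n with
  | zero => simpa using IsMon.one
  | succ n ih =>
    rw [pow_succ]
    exact ih.mul hb

theorem IsMon.prod {ι : Type} {s : Finset ι} {b : ι → VV N} (h : ∀ i ∈ s, IsMon (b i)) :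
    IsMon (∏ i ∈ s, b i) := by
  classical
  induction s using Finset.induction_on with
  | empty => simpa using IsMon.one
  | insert i s hi ih =>
    rw [Finset.prod_insert hi]
    exact (h i (Finset.mem_insert_self i s)).mul (ih (fun j hj => h j (Finset.mem_insert_of_mem hj)))

theorem IsMon.ne_zero {b : VV N} (hb : IsMon b) : b ≠ 0 := by
  obtain ⟨ε, r, h1, rfl⟩ := hb
  rw [ex2_monomial]
  intro h
  rw [monomial_eq_zero] at h
  rcases h1 with rfl | rfl <;> simp at h

theorem IsMon.of_mul {b c d : VV N} (hb : IsMon b) (hd : IsMon d) (h : b * c = d) : IsMon c := by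
  have hb0 := hb.ne_zero
  obtain ⟨ε, r, h1, rfl⟩ := hb
  obtain ⟨ε', r', h2, rfl⟩ := hd
  have hdv : (monomial (ex2 r) ε : VV N) ∣ monomial (ex2 r') ε' :=
    ⟨c, by rw [← ex2_monomial, ← ex2_monomial, h]⟩
  rw [monomial_dvd_monomial] at hdv
  have hle : ∀ y, r y ≤ r' y := by
    intro y
    rcases hdv.1 with h3 | h3
    · rcases h2 with rfl | rfl <;> simp at h3
    · have := h3 (y, 2)
      rwa [ex2_apply, ex2_apply] at this
  refine ⟨ε * ε', fun y => r' y - r y, ?_, ?_⟩
  · rcases h1 with rfl | rfl <;> rcases h2 with rfl | rfl <;> simp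
  · apply mul_left_cancel₀ hb0
    rw [h]
    have : (∏ y, MvPolynomial.X (y, 2) ^ r' y : VV N) =
      (∏ y, MvPolynomial.X (y, 2) ^ r y) * ∏ y, MvPolynomial.X (y, 2) ^ (r' y - r y) := by
      rw [← Finset.prod_mul_distrib]
      refine Finset.prod_congr rfl (fun y _ => ?_)
      rw [← pow_add]
      congr 1
      have := hle y
      omega
    rw [this]
    have h4 : ε * ε = 1 := by rcases h1 with rfl | rfl <;> norm_num
    calc (C ε' * ((∏ y, MvPolynomial.X (y, 2) ^ r y) *
          ∏ y, MvPolynomial.X (y, 2) ^ (r' y - r y)) : VV N)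
        = C (ε * ε * ε') * ((∏ y, MvPolynomial.X (y, 2) ^ r y) *
          ∏ y, MvPolynomial.X (y, 2) ^ (r' y - r y)) := by rw [h4, one_mul]
      _ = _ := by rw [C_mul, C_mul, C_mul]; ring

end mono

section curve

open MvPolynomial

variable {N : Type} [Fintype N] [DecidableEq N]

/-- the curve `q_x = τ^(d x)`. -/
noncomputable def psi (d : N → ℕ) : VV N →+* Polynomial (VV N) :=
  eval₂Hom (algebraMap ℤ (Polynomial (VV N)))
    (fun p => if p.2 = 0 then Polynomial.X ^ d p.1 else Polynomial.C (X p))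

/-- `q ↦ 0`. -/
noncomputable def ev0 (N : Type) : VV N →+* VV N :=
  eval₂Hom (algebraMap ℤ (VV N)) (fun p => if p.2 = 0 then 0 else X p)

/-- the ideal generated by the `q_x`. -/
noncomputable def Iq (N : Type) : Ideal (VV N) := Ideal.span (Set.range (fun y : N => (X (y, 0) : VV N)))

theorem psi_q (d : N → ℕ) (x : N) : psi d (X (x, 0)) = Polynomial.X ^ d x := by
  simp [psi]

theorem psi_ne (d : N → ℕ) (x : N) (j : ℕ) : psi d (X (x, j + 1)) = Polynomial.C (X (x, j + 1)) := by
  simp [psi]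

theorem ev0_q (x : N) : ev0 N (X (x, 0)) = 0 := by
  simp [ev0]

theorem ev0_ne (x : N) (j : ℕ) : ev0 N (X (x, j + 1)) = X (x, j + 1) := by
  simp [ev0]

theorem ev0_C (n : ℤ) : ev0 N (C n) = C n := by
  simp [ev0]

theorem eval_psi {d : N → ℕ} (hd : ∀ x, 0 < d x) (v : VV N) :
    (psi d v).eval 0 = ev0 N v := by
  have h : (Polynomial.evalRingHom (0 : VV N)).comp (psi d) = ev0 N := by
    apply MvPolynomial.ringHom_ext
    · intro r
      simp [psi, ev0]
    · rintro ⟨x, j⟩
      cases j with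
      | zero =>
        rw [RingHom.comp_apply, psi_q, ev0_q]
        simp [(hd x).ne']
      | succ j =>
        rw [RingHom.comp_apply, psi_ne, ev0_ne]
        simp
  exact RingHom.congr_fun h v

theorem sub_ev0_mem (v : VV N) : v - ev0 N v ∈ Iq N := by
  have h : (Ideal.Quotient.mk (Iq N)).comp (ev0 N) = Ideal.Quotient.mk (Iq N) := by
    apply MvPolynomial.ringHom_ext
    · intro r
      rw [RingHom.comp_apply, ev0_C]
    · rintro ⟨x, j⟩
      cases j with
      | zero =>
        rw [RingHom.comp_apply, ev0_q, map_zero]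
        symm
        rw [Ideal.Quotient.eq_zero_iff_mem]
        exact Ideal.subset_span ⟨x, rfl⟩
      | succ j =>
        rw [RingHom.comp_apply, ev0_ne]
  rw [← Ideal.Quotient.eq_zero_iff_mem, map_sub, sub_eq_zero]
  exact (RingHom.congr_fun h v).symm

theorem mem_Iq_of_ev0 {v : VV N} (h : ev0 N v = 0) : v ∈ Iq N := by
  have := sub_ev0_mem v
  rwa [h, sub_zero] at this

variable (a : N → N → ℕ) (hs : ∀ x y, a x y = a y x) (ha : ∀ x, a x x = 0)

/-- the leading terms along the curve. -/
theorem curve_main {h : ℕ} {o : ℕ → N → ℕ} (hk : Knit a h o) (k : ℕ) (hkh : k ≤ h) :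
    (∀ x, ∃ b, IsMon b ∧ eval (fun _ => (1 : ℤ)) b = sg a k x ∧
      Lead (psi (o 1) (Qu a hs ha k x)) (o k x) b) ∧
    (∀ x, 1 ≤ k → Lead (psi (o 1) (ru a hs ha k x)) 0 (X (x, 2))) ∧
    (∀ x, Lead (psi (o 1) (cu a hs ha k x)) 0 (X (x, 2) ^ k)) := by
  induction k using Nat.strong_induction_on with
  | _ k ih =>
    match k, ih with
    | 0, _ =>
      refine ⟨fun x => ⟨1, IsMon.one, map_one _, ?_⟩, fun x h0 => absurd h0 (by norm_num),
        fun x => ?_⟩
      · rw [Qu_zero, map_one, hk.zero]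
        exact Lead.one
      · rw [cu_zero, map_sub, map_mul, map_one, psi_q, psi_ne, pow_zero]
        obtain ⟨d, hd⟩ : ∃ d, o 1 x = d + 1 := ⟨o 1 x - 1, by have := hk.one x; omega⟩
        refine ⟨-(Polynomial.X ^ d * Polynomial.C (X (x, 0 + 1))), ?_⟩
        rw [hd, pow_zero, map_one, pow_succ]
        ring
    | 1, ih =>
      have h0 := ih 0 (by norm_num) (by omega)
      have hr : ∀ x, Lead (psi (o 1) (ru a hs ha 1 x)) 0 (X (x, 2)) := by
        intro x
        rw [ru_one, psi_ne]
        exact ⟨0, by simp⟩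
      refine ⟨fun x => ⟨1, IsMon.one, map_one _, ?_⟩, fun x _ => hr x, fun x => ?_⟩
      · rw [Qu_one, psi_q]
        exact ⟨0, by simp⟩
      · rw [cu_succ, map_mul]
        have := (h0.2.2 x).mul (hr x)
        rwa [← pow_succ] at this
    | k + 2, ih =>
      have h0 := ih k (by omega) (by omega)
      have h1 := ih (k + 1) (by omega) (by omega)
      have hr : ∀ x, Lead (psi (o 1) (ru a hs ha (k + 2) x)) 0 (X (x, 2)) := by
        intro x
        rw [ru_succ, map_add, map_mul, psi_ne]
        obtain ⟨b, hb, _, hL⟩ := h1.1 x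
        have hpos : 0 < o (k + 1) x := by
          have := hk.pos (k + 1) x (by omega) (by omega)
          omega
        obtain ⟨G, hG⟩ := hL.dvd_X hpos
        obtain ⟨R', hR'⟩ := h1.2.1 x (by omega)
        rw [hG, hR']
        refine ⟨R' + Polynomial.C (X (x, k + 1 + 1 + 1)) * G, ?_⟩
        rw [pow_zero]
        ring
      refine ⟨fun x => ?_, fun x _ => hr x, fun x => ?_⟩
      · obtain ⟨b0, hb0, hv0, hL0⟩ := h0.1 x
        choose b1 hb1 hv1 hL1 using h1.1
        have e1 := congrArg (psi (o 1)) (Qu_rec a hs ha k x)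
        rw [map_mul, map_sub, map_mul, map_pow, map_prod] at e1
        simp only [map_pow] at e1
        have e2 := (hL1 x).pow 2
        have e3 := (h1.2.2 x).mul (Lead.prod (s := Finset.univ)
          (fun y _ => (hL1 y).pow (a x y)))
        rw [zero_add] at e3
        have e4 := e3.sub e2 (hk.pos (k + 1) x (by omega) (by omega))
        have e5 : IsMon (-(X (x, 2) ^ (k + 1) * ∏ y, b1 y ^ a x y) : VV N) :=
          (((IsMon.X x).pow _).mul (IsMon.prod (fun y _ => (hb1 y).pow _))).neg
        have hrec := hk.knit k x hkh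
        rw [mul_comm] at e1
        obtain ⟨c, hc1, hc2⟩ := hL0.cancel hb0.ne_zero e4 (by omega) e1
        refine ⟨c, IsMon.of_mul hb0 e5 hc2, ?_, ?_⟩
        · have g1 := congrArg (eval (fun _ => (1 : ℤ))) hc2
          rw [map_mul, hv0, map_neg, map_mul, map_pow, eval_X, one_pow, one_mul, map_prod] at g1
          simp only [map_pow, hv1] at g1
          have g2 : sg a k x * sg a k x = 1 := by
            rcases sg_pm a k x with h3 | h3 <;> rw [h3] <;> norm_num
          change _ = -(sg a k x * ∏ y, sg a (k + 1) y ^ a x y)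
          linear_combination (sg a k x) * g1 - (eval (fun _ => (1 : ℤ)) c) * g2
        have e6 : ∑ y, a x y * o (k + 1) y - o k x = o (k + 2) x := by omega
        rwa [e6] at hc1
      · rw [cu_succ, map_mul]
        have := (h1.2.2 x).mul (hr x)
        rwa [← pow_succ] at this

/-- The run lemma in the universal ring. -/
theorem univ_run {h : ℕ} {o : ℕ → N → ℕ} (hk : Knit a h o) :
    ∃ (ε : N → ℤ) (R : N → N → ℕ), (∀ x, ε x = 1 ∨ ε x = -1) ∧
      (∀ x, ∏ y, ε y ^ a x y = 1) ∧
      (∀ x z, 2 * R x z = (if z = x then h else 0) + ∑ y, a x y * R y z) ∧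
      (∀ k x, 1 ≤ k → k < h → Qu a hs ha k x ∈ Iq N) ∧
      (∀ x, Qu a hs ha h x - C (ε x) * ∏ z, X (z, 2) ^ R x z ∈ Iq N) ∧
      (∀ x, ε x = sg a h x) := by
  have hm : ∀ k x, 1 ≤ k → k < h → ev0 N (Qu a hs ha k x) = 0 := by
    intro k x h1 h2
    obtain ⟨b, hb, _, hL⟩ := (curve_main a hs ha hk k h2.le).1 x
    have hpos : 0 < o k x := by
      have := hk.pos k x h1 h2
      omega
    rw [← eval_psi hk.one, hL.eval_zero hpos]
  have hh : ∀ x, ∃ (ε : ℤ) (r : N → ℕ), (ε = 1 ∨ ε = -1) ∧ ε = sg a h x ∧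
      ev0 N (Qu a hs ha h x) = C ε * ∏ y, X (y, 2) ^ r y := by
    intro x
    obtain ⟨b, hb, hv, hL⟩ := (curve_main a hs ha hk h le_rfl).1 x
    rw [hk.last] at hL
    obtain ⟨ε, r, h1, h2⟩ := hb
    refine ⟨ε, r, h1, ?_, by rw [← eval_psi hk.one, hL.eval_zero', h2]⟩
    rw [← hv, h2, map_mul, eval_C, map_prod]
    simp only [map_pow, eval_X, one_pow, Finset.prod_const_one, mul_one]
  choose ε R hε hsg hR using hh
  have hrel : ∀ x, (C (ε x) * ∏ y, X (y, 2) ^ R x y : VV N) ^ 2 =
      X (x, 2) ^ h * ∏ y, (C (ε y) * ∏ z, X (z, 2) ^ R y z) ^ a x y := by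
    intro x
    obtain ⟨m, rfl⟩ : ∃ m, h = m + 1 := ⟨h - 1, by have := hk.two_le; omega⟩
    have e1 := congrArg (ev0 N) (Qu_rec a hs ha m x)
    rw [map_mul, map_sub, map_mul, map_pow, map_prod,
      hm m x (by have := hk.two_le; omega) (by omega), mul_zero] at e1
    simp only [map_pow, hR] at e1
    have e2 : ev0 N (cu a hs ha (m + 1) x) = X (x, 2) ^ (m + 1) := by
      have := (curve_main a hs ha hk (m + 1) le_rfl).2.2 x
      rw [← eval_psi hk.one, this.eval_zero']
    rw [e2] at e1
    exact (sub_eq_zero.mp e1.symm)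
  have hcmp : ∀ x, (∏ y, ε y ^ a x y = 1) ∧
      (∀ z, 2 * R x z = (if z = x then h else 0) + ∑ y, a x y * R y z) := by
    intro x
    have e1 := hrel x
    have e2 : (C (ε x) * ∏ y, X (y, 2) ^ R x y : VV N) ^ 2 =
        C (ε x ^ 2) * ∏ y, X (y, 2) ^ (2 * R x y) := by
      rw [mul_pow, C_pow, ← Finset.prod_pow]
      congr 1
      refine Finset.prod_congr rfl (fun y _ => ?_)
      rw [← pow_mul, mul_comm]
    have e3 : (X (x, 2) ^ h * ∏ y, (C (ε y) * ∏ z, X (z, 2) ^ R y z) ^ a x y : VV N) =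
        C (∏ y, ε y ^ a x y) *
          ∏ z, X (z, 2) ^ ((if z = x then h else 0) + ∑ y, a x y * R y z) := by
      have f1 : (∏ y, (C (ε y) * ∏ z, X (z, 2) ^ R y z) ^ a x y : VV N) =
          C (∏ y, ε y ^ a x y) * ∏ z, X (z, 2) ^ (∑ y, a x y * R y z) := by
        simp only [mul_pow]
        rw [Finset.prod_mul_distrib, map_prod]
        simp only [C_pow]
        congr 1
        simp only [← Finset.prod_pow]
        rw [Finset.prod_comm]
        refine Finset.prod_congr rfl (fun z _ => ?_)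
        rw [← Finset.prod_pow_eq_pow_sum]
        refine Finset.prod_congr rfl (fun y _ => ?_)
        rw [← pow_mul, mul_comm]
      have f2 : (X (x, 2) ^ h : VV N) = ∏ z, X (z, 2) ^ (if z = x then h else 0) := by
        rw [Finset.prod_eq_single x]
        · simp
        · intro z _ hz
          simp [hz]
        · intro hx
          exact absurd (Finset.mem_univ x) hx
      rw [f1, f2]
      have f3 : (∏ z, X (z, 2) ^ ((if z = x then h else 0) + ∑ y, a x y * R y z) : VV N) =
          (∏ z, X (z, 2) ^ (if z = x then h else 0)) * ∏ z, X (z, 2) ^ (∑ y, a x y * R y z) := by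
        rw [← Finset.prod_mul_distrib]
        exact Finset.prod_congr rfl (fun z _ => pow_add _ _ _)
      rw [f3]
      ring
    rw [e2, e3, ex2_monomial, ex2_monomial, monomial_eq_monomial_iff] at e1
    have hε2 : ε x ^ 2 = 1 := by rcases hε x with h0 | h0 <;> rw [h0] <;> norm_num
    rcases e1 with ⟨e4, e5⟩ | ⟨e4, e5⟩
    · exact ⟨by rw [← e5, hε2], fun z => congrFun (ex2_inj e4) z⟩
    · rw [hε2] at e4
      exact absurd e4 one_ne_zero
  refine ⟨ε, R, hε, fun x => (hcmp x).1, fun x => (hcmp x).2,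
    fun k x h1 h2 => mem_Iq_of_ev0 (hm k x h1 h2), fun x => mem_Iq_of_ev0 ?_, hsg⟩
  rw [map_sub, hR, map_mul, ev0_C, map_prod]
  simp only [map_pow, ev0_ne]
  exact sub_self _

end curve

end Pool.Agent.H10.KAC

end

section

/-!
Project KAC, part II.1: rank factorizations.
-/

set_option autoImplicit false

namespace Pool.Agent.H27.KAC

open scoped BigOperators

variable {n r : ℕ} {F : Type} [Field F]

/-- A matrix of full column rank has a left inverse. -/
theorem PII_Fac_left (φ : Matrix (Fin n) (Fin r) F) (h : φ.rank = r) :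
    ∃ L : Matrix (Fin r) (Fin n) F, L * φ = 1 := by
  have hinj : Function.Injective φ.mulVecLin := by
    rw [← LinearMap.ker_eq_bot]
    have h1 := LinearMap.finrank_range_add_finrank_ker φ.mulVecLin
    have h2 : Module.finrank F (LinearMap.range φ.mulVecLin) = r := h
    rw [h2, Module.finrank_fintype_fun_eq_card, Fintype.card_fin] at h1
    exact Submodule.finrank_eq_zero.1 (by omega)
  obtain ⟨g, hg⟩ := LinearMap.exists_leftInverse_of_injective φ.mulVecLin
    (LinearMap.ker_eq_bot.2 hinj)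
  refine ⟨LinearMap.toMatrix' g, ?_⟩
  have h3 : LinearMap.toMatrix' (g ∘ₗ φ.mulVecLin) = LinearMap.toMatrix' g * φ := by
    rw [LinearMap.toMatrix'_comp]
    congr 1
    rw [← Matrix.toLin'_apply', LinearMap.toMatrix'_toLin']
  rw [← h3, hg]
  exact LinearMap.toMatrix'_id

/-- A matrix of full row rank has a right inverse. -/
theorem PII_Fac_right (τ : Matrix (Fin r) (Fin n) F) (h : τ.rank = r) :
    ∃ R : Matrix (Fin n) (Fin r) F, τ * R = 1 := by
  obtain ⟨L, hL⟩ := PII_Fac_left τ.transpose (by rw [Matrix.rank_transpose]; exact h)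
  refine ⟨L.transpose, ?_⟩
  have := congrArg Matrix.transpose hL
  rwa [Matrix.transpose_mul, Matrix.transpose_transpose, Matrix.transpose_one] at this

/-- Rank factorization. -/
theorem exists_fac (T : Matrix (Fin n) (Fin n) F) (h : T.rank = r) :
    ∃ (φ : Matrix (Fin n) (Fin r) F) (τ : Matrix (Fin r) (Fin n) F),
      φ.rank = r ∧ τ.rank = r ∧ φ * τ = T := by
  have hr : Module.finrank F (LinearMap.range T.mulVecLin) = Module.finrank F (Fin r → F) := by
    rw [Module.finrank_fintype_fun_eq_card, Fintype.card_fin]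
    exact h
  let e : LinearMap.range T.mulVecLin ≃ₗ[F] (Fin r → F) := LinearEquiv.ofFinrankEq _ _ hr
  let f : (Fin r → F) →ₗ[F] (Fin n → F) := (LinearMap.range T.mulVecLin).subtype ∘ₗ e.symm.toLinearMap
  let g : (Fin n → F) →ₗ[F] (Fin r → F) := e.toLinearMap ∘ₗ T.mulVecLin.rangeRestrict
  have hf : Function.Injective f := by
    intro a b hab
    have : (e.symm a : Fin n → F) = e.symm b := hab
    exact e.symm.injective (Subtype.ext this)
  have hg : Function.Surjective g :=
    e.surjective.comp (LinearMap.surjective_rangeRestrict _)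
  refine ⟨LinearMap.toMatrix' f, LinearMap.toMatrix' g, ?_, ?_, ?_⟩
  · have h1 : (LinearMap.toMatrix' f).mulVecLin = f := by
      rw [← Matrix.toLin'_apply', Matrix.toLin'_toMatrix']
    unfold Matrix.rank
    rw [h1, LinearMap.finrank_range_of_inj hf, Module.finrank_fintype_fun_eq_card, Fintype.card_fin]
  · have h1 : (LinearMap.toMatrix' g).mulVecLin = g := by
      rw [← Matrix.toLin'_apply', Matrix.toLin'_toMatrix']
    unfold Matrix.rank
    rw [h1, LinearMap.range_eq_top.2 hg, finrank_top, Module.finrank_fintype_fun_eq_card,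
      Fintype.card_fin]
  · rw [← LinearMap.toMatrix'_comp]
    have h1 : f ∘ₗ g = T.mulVecLin := by
      ext1
      apply LinearMap.ext
      intro v
      simp [f, g]
    rw [h1]
    rw [← Matrix.toLin'_apply', LinearMap.toMatrix'_toLin']

/-- Two rank factorizations differ by an element of `GL_r`: left and right inverses of the factors. -/
theorem card_fac [Fintype F] (T : Matrix (Fin n) (Fin n) F) (h : T.rank = r) :
    Nat.card {p : Matrix (Fin n) (Fin r) F × Matrix (Fin r) (Fin n) F //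
      p.1.rank = r ∧ p.2.rank = r ∧ p.1 * p.2 = T} = Nat.card (Matrix (Fin r) (Fin r) F)ˣ := by
  obtain ⟨φ₀, τ₀, hφ, hτ, hT⟩ := exists_fac T h
  obtain ⟨L, hL⟩ := PII_Fac_left φ₀ hφ
  obtain ⟨R, hR⟩ := PII_Fac_right τ₀ hτ
  symm
  refine Nat.card_congr (Equiv.ofBijective
    (fun g : (Matrix (Fin r) (Fin r) F)ˣ => (⟨(φ₀ * (g : Matrix (Fin r) (Fin r) F),
      ((g⁻¹ : (Matrix (Fin r) (Fin r) F)ˣ) : Matrix (Fin r) (Fin r) F) * τ₀), ?_, ?_, ?_⟩ :
      {p : Matrix (Fin n) (Fin r) F × Matrix (Fin r) (Fin n) F //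
      p.1.rank = r ∧ p.2.rank = r ∧ p.1 * p.2 = T})) ⟨?_, ?_⟩)
  · show (φ₀ * (g : Matrix (Fin r) (Fin r) F)).rank = r
    rw [Matrix.rank_mul_eq_left_of_isUnit_det _ _ ((Matrix.isUnit_iff_isUnit_det _).1 g.isUnit)]
    exact hφ
  · show (((g⁻¹ : (Matrix (Fin r) (Fin r) F)ˣ) : Matrix (Fin r) (Fin r) F) * τ₀).rank = r
    rw [Matrix.rank_mul_eq_right_of_isUnit_det _ _
      ((Matrix.isUnit_iff_isUnit_det _).1 (g⁻¹).isUnit)]
    exact hτ
  · show (φ₀ * (g : Matrix (Fin r) (Fin r) F)) *
      (((g⁻¹ : (Matrix (Fin r) (Fin r) F)ˣ) : Matrix (Fin r) (Fin r) F) * τ₀) = T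
    rw [Matrix.mul_assoc, ← Matrix.mul_assoc (g : Matrix (Fin r) (Fin r) F), Units.mul_inv,
      Matrix.one_mul, hT]
  · intro g g' hgg
    have h1 : φ₀ * (g : Matrix (Fin r) (Fin r) F) = φ₀ * (g' : Matrix (Fin r) (Fin r) F) :=
      congrArg (fun p => p.1.1) hgg
    have h2 := congrArg (fun M => L * M) h1
    simp only [← Matrix.mul_assoc, hL, Matrix.one_mul] at h2
    exact Units.ext h2
  · rintro ⟨⟨φ, τ⟩, h1, h2, h3⟩
    simp only at h1 h2 h3
    have h4 : (L * φ) * (τ * R) = 1 := by
      calc (L * φ) * (τ * R) = L * (φ * τ) * R := by simp only [Matrix.mul_assoc]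
        _ = L * (φ₀ * τ₀) * R := by rw [h3, hT]
        _ = (L * φ₀) * (τ₀ * R) := by simp only [Matrix.mul_assoc]
        _ = 1 := by rw [hL, hR, Matrix.one_mul]
    have h5 : (τ * R) * (L * φ) = 1 := mul_eq_one_comm.1 h4
    have h6 : φ * (τ * R) = φ₀ := by
      calc φ * (τ * R) = (φ * τ) * R := by simp only [Matrix.mul_assoc]
        _ = (φ₀ * τ₀) * R := by rw [h3, hT]
        _ = φ₀ := by rw [Matrix.mul_assoc, hR, Matrix.mul_one]
    have h7 : (L * φ) * τ = τ₀ := by
      calc (L * φ) * τ = L * (φ * τ) := by simp only [Matrix.mul_assoc]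
        _ = L * (φ₀ * τ₀) := by rw [h3, hT]
        _ = τ₀ := by rw [← Matrix.mul_assoc, hL, Matrix.one_mul]
    refine ⟨⟨L * φ, τ * R, h4, h5⟩, ?_⟩
    apply Subtype.ext
    apply Prod.ext
    · show φ₀ * (L * φ) = φ
      rw [← h6, Matrix.mul_assoc, h5, Matrix.mul_one]
    · show (τ * R) * τ₀ = τ
      rw [← h7, ← Matrix.mul_assoc, h5, Matrix.one_mul]

end Pool.Agent.H27.KAC

end

section

/-!
Project KAC, part II.1: numbers of matrices of full rank.
-/

set_option autoImplicit false

namespace Pool.Agent.H27.KAC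

open scoped BigOperators

variable (F : Type) [Field F] [Fintype F]

/-- The columns are linearly independent (`card_linearIndependent`); for `r > n` both sides are zero. -/
theorem card_full (n r : ℕ) : (Nat.card {M : Matrix (Fin n) (Fin r) F // M.rank = r} : ℚ) =
    ∏ i ∈ Finset.range r, ((Fintype.card F : ℚ) ^ n - (Fintype.card F : ℚ) ^ i) := by
  classical
  by_cases hr : r ≤ n
  · have e : {M : Matrix (Fin n) (Fin r) F // M.rank = r} ≃
        {s : Fin r → (Fin n → F) // LinearIndependent F s} := by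
      refine Equiv.subtypeEquiv
        ⟨fun M => fun j i => M i j, fun s => Matrix.of fun i j => s j i, fun _ => rfl, fun _ => rfl⟩ ?_
      intro M
      have h1 : M.rank = Module.finrank F (Submodule.span F (Set.range fun (j : Fin r) (i : Fin n) => M i j)) := by
        rw [Matrix.rank_eq_finrank_span_cols]
        rfl
      rw [linearIndependent_iff_card_eq_finrank_span, h1, Fintype.card_fin, Set.finrank]
      exact eq_comm
    rw [Nat.card_congr e]
    have h2 := card_linearIndependent (K := F) (V := Fin n → F) (k := r) (by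
      rw [Module.finrank_fintype_fun_eq_card, Fintype.card_fin]; exact hr)
    rw [h2, Module.finrank_fintype_fun_eq_card, Fintype.card_fin, Finset.prod_range]
    push_cast
    refine Finset.prod_congr rfl fun i _ => ?_
    rw [Nat.cast_sub]
    · push_cast; rfl
    · exact Nat.pow_le_pow_right Fintype.card_pos (by omega)
  · have h1 : IsEmpty {M : Matrix (Fin n) (Fin r) F // M.rank = r} := by
      constructor
      rintro ⟨M, hM⟩
      have := Matrix.rank_le_height M
      omega
    rw [Nat.card_eq_zero.2 (Or.inl h1)]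
    rw [eq_comm, Nat.cast_zero]
    exact Finset.prod_eq_zero (Finset.mem_range.2 (show n < r by omega)) (sub_self _)

/-- Transposition. -/
theorem card_full' (n r : ℕ) : (Nat.card {M : Matrix (Fin r) (Fin n) F // M.rank = r} : ℚ) =
    ∏ i ∈ Finset.range r, ((Fintype.card F : ℚ) ^ n - (Fintype.card F : ℚ) ^ i) := by
  rw [← card_full F n r]
  congr 1
  refine Nat.card_congr (Equiv.subtypeEquiv
    ⟨fun M => M.transpose, fun M => M.transpose, fun _ => rfl, fun _ => rfl⟩ ?_)
  intro M
  show M.rank = r ↔ M.transpose.rank = r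
  rw [Matrix.rank_transpose]

/-- `Matrix.card_GL_field`. -/
theorem card_units (n : ℕ) : (Nat.card (Matrix (Fin n) (Fin n) F)ˣ : ℚ) =
    ∏ i ∈ Finset.range n, ((Fintype.card F : ℚ) ^ n - (Fintype.card F : ℚ) ^ i) := by
  have h := Matrix.card_GL_field (𝔽 := F) n
  have h' : Nat.card (Matrix (Fin n) (Fin n) F)ˣ =
      ∏ i : Fin n, (Fintype.card F ^ n - Fintype.card F ^ (i : ℕ)) := by
    simpa using h
  rw [h', Finset.prod_range]
  push_cast
  refine Finset.prod_congr rfl fun i _ => ?_
  rw [Nat.cast_sub]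
  · push_cast; rfl
  · exact Nat.pow_le_pow_right Fintype.card_pos (by omega)

end Pool.Agent.H27.KAC

end

section

/-!
Project KAC, part II.1: the number of the surjective matrices with given product.
-/

set_option autoImplicit false

namespace Pool.Agent.H27.KAC

open scoped BigOperators

variable (F : Type) [Field F] [Fintype F]

/-- a subspace with coordinates -/
theorem PII_CExt_split {K V : Type} [Field K] [AddCommGroup V] [Module K V]
    [FiniteDimensional K V] (P : Submodule K V) {a b : ℕ}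
    (ha : Module.finrank K P = a) (hb : Module.finrank K V = a + b) :
    ∃ f : V ≃ₗ[K] ((Fin a → K) × (Fin b → K)), ∀ x, x ∈ P ↔ (f x).2 = 0 := by
  obtain ⟨Q, hQ⟩ := Submodule.exists_isCompl P
  have hsum := Submodule.finrank_add_eq_of_isCompl hQ
  have hQb : Module.finrank K Q = b := by omega
  have e1 : P ≃ₗ[K] (Fin a → K) :=
    LinearEquiv.ofFinrankEq _ _ (by rw [ha]; simp)
  have e2 : Q ≃ₗ[K] (Fin b → K) :=
    LinearEquiv.ofFinrankEq _ _ (by rw [hQb]; simp)
  refine ⟨(Submodule.prodEquivOfIsCompl P Q hQ).symm.trans (e1.prodCongr e2), ?_⟩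
  intro x
  obtain ⟨⟨p, q⟩, rfl⟩ := (Submodule.prodEquivOfIsCompl P Q hQ).surjective x
  rw [LinearEquiv.trans_apply, LinearEquiv.symm_apply_apply, LinearEquiv.prodCongr_apply,
    Submodule.coe_prodEquivOfIsCompl']
  constructor
  · intro h
    have hq : (q : V) ∈ P := by
      have := P.sub_mem h p.2
      simpa using this
    have : (q : V) ∈ P ⊓ Q := ⟨hq, q.2⟩
    rw [hQ.inf_eq_bot] at this
    have hq0 : q = 0 := by
      ext
      simpa using this
    rw [hq0]
    simp
  · intro h
    have hq0 : q = 0 := by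
      apply e2.injective
      rw [map_zero]
      exact h
    rw [hq0]
    simp

/-- an injective map as the first coordinate -/
theorem PII_CExt_ext {K U V : Type} [Field K] [AddCommGroup V] [Module K V]
    [AddCommGroup U] [Module K U] [FiniteDimensional K U] [FiniteDimensional K V]
    (φ : U →ₗ[K] V) (hφ : Function.Injective φ) {b : ℕ}
    (hb : Module.finrank K V = Module.finrank K U + b) :
    ∃ e : (U × (Fin b → K)) ≃ₗ[K] V, ∀ u, e (u, 0) = φ u := by
  obtain ⟨Q, hQ⟩ := Submodule.exists_isCompl (LinearMap.range φ)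
  have hsum := Submodule.finrank_add_eq_of_isCompl hQ
  have hr : Module.finrank K (LinearMap.range φ) = Module.finrank K U :=
    LinearMap.finrank_range_of_inj hφ
  have hQb : Module.finrank K Q = b := by omega
  have e1 : (Fin b → K) ≃ₗ[K] Q :=
    LinearEquiv.ofFinrankEq _ _ (by rw [hQb]; simp)
  refine ⟨((LinearEquiv.ofInjective φ hφ).prodCongr e1).trans
    (Submodule.prodEquivOfIsCompl (LinearMap.range φ) Q hQ), ?_⟩
  intro u
  simp [LinearEquiv.prodCongr_apply, Submodule.coe_prodEquivOfIsCompl']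

/-- the bijection -/
theorem PII_CExt_card {K U V W R Q : Type} [Field K]
    [AddCommGroup U] [Module K U] [AddCommGroup V] [Module K V] [AddCommGroup W] [Module K W]
    [AddCommGroup R] [Module K R] [AddCommGroup Q] [Module K Q]
    (φ : U →ₗ[K] V) (S : U →ₗ[K] U) (e : (U × W) ≃ₗ[K] V) (he : ∀ u, e (u, 0) = φ u)
    (f : U ≃ₗ[K] (R × Q)) (hf : ∀ x, x ∈ LinearMap.range S ↔ (f x).2 = 0) :
    Nonempty ({τ : V →ₗ[K] U // Function.Surjective τ ∧ τ ∘ₗ φ = S} ≃
      ((W →ₗ[K] R) × {Y : W →ₗ[K] Q // Function.Surjective Y})) := by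
  -- the general form
  let mk : (W →ₗ[K] R) → (W →ₗ[K] Q) → (V →ₗ[K] U) := fun Y1 Y2 =>
    (S ∘ₗ LinearMap.fst K U W + f.symm.toLinearMap ∘ₗ (Y1.prod Y2) ∘ₗ LinearMap.snd K U W) ∘ₗ
      e.symm.toLinearMap
  have hmk : ∀ Y1 Y2 u w, mk Y1 Y2 (e (u, w)) = S u + f.symm (Y1 w, Y2 w) := by
    intro Y1 Y2 u w
    simp [mk]
  have hcomp : ∀ Y1 Y2, mk Y1 Y2 ∘ₗ φ = S := by
    intro Y1 Y2
    ext u
    rw [LinearMap.comp_apply, ← he, hmk]
    simp
  have hsurj : ∀ Y1 Y2, Function.Surjective (mk Y1 Y2) ↔ Function.Surjective Y2 := by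
    intro Y1 Y2
    constructor
    · intro h q
      obtain ⟨v, hv⟩ := h (f.symm (0, q))
      obtain ⟨⟨u, w⟩, rfl⟩ := e.surjective v
      rw [hmk] at hv
      refine ⟨w, ?_⟩
      have h2 := congrArg (fun x => (f x).2) hv
      simp only [map_add, LinearEquiv.apply_symm_apply, Prod.snd_add] at h2
      have h3 : (f (S u)).2 = 0 := (hf _).1 ⟨u, rfl⟩
      rw [h3, zero_add] at h2
      exact h2
    · intro h x
      obtain ⟨w, hw⟩ := h (f x).2
      have h1 : x - f.symm (Y1 w, Y2 w) ∈ LinearMap.range S := by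
        rw [hf]
        simp [hw]
      obtain ⟨u, hu⟩ := h1
      refine ⟨e (u, w), ?_⟩
      rw [hmk, hu]
      abel
  refine ⟨{
    toFun := fun τ =>
      (LinearMap.fst K R Q ∘ₗ f.toLinearMap ∘ₗ τ.1 ∘ₗ e.toLinearMap ∘ₗ LinearMap.inr K U W,
        ⟨LinearMap.snd K R Q ∘ₗ f.toLinearMap ∘ₗ τ.1 ∘ₗ e.toLinearMap ∘ₗ LinearMap.inr K U W, ?_⟩)
    invFun := fun Y => ⟨mk Y.1 Y.2.1, (hsurj _ _).2 Y.2.2, hcomp _ _⟩
    left_inv := ?_
    right_inv := ?_ }⟩
  · intro q
    obtain ⟨v, hv⟩ := τ.2.1 (f.symm (0, q))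
    obtain ⟨⟨u, w⟩, rfl⟩ := e.surjective v
    refine ⟨w, ?_⟩
    have h1 : (u, w) = (u, (0 : W)) + ((0 : U), w) := by simp
    rw [h1, map_add, map_add, he] at hv
    have h2 : τ.1 (φ u) = S u := by
      rw [← LinearMap.comp_apply, τ.2.2]
    rw [h2] at hv
    have h3 := congrArg (fun x => (f x).2) hv
    simp only [map_add, LinearEquiv.apply_symm_apply, Prod.snd_add] at h3
    have h4 : (f (S u)).2 = 0 := (hf _).1 ⟨u, rfl⟩
    rw [h4, zero_add] at h3
    simpa using h3
  · intro τ
    apply Subtype.ext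
    apply LinearMap.ext
    intro v
    obtain ⟨⟨u, w⟩, rfl⟩ := e.surjective v
    have h1 : (u, w) = (u, (0 : W)) + ((0 : U), w) := by simp
    have h2 : τ.1 (φ u) = S u := by
      rw [← LinearMap.comp_apply, τ.2.2]
    show mk _ _ (e (u, w)) = τ.1 (e (u, w))
    rw [hmk]
    conv_rhs => rw [h1, map_add, map_add, he, h2]
    congr 1
    apply f.injective
    rw [LinearEquiv.apply_symm_apply]
    rfl
  · intro Y
    obtain ⟨Y1, Y2, hY⟩ := Y
    refine Prod.ext ?_ (Subtype.ext ?_)
    · apply LinearMap.ext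
      intro w
      show (f (mk Y1 Y2 (e (0, w)))).1 = Y1 w
      rw [hmk]
      simp
    · apply LinearMap.ext
      intro w
      show (f (mk Y1 Y2 (e (0, w)))).2 = Y2 w
      rw [hmk]
      simp

/-- surjective and full rank -/
theorem PII_CExt_surj {K : Type} [Field K] {m n : ℕ} (M : Matrix (Fin m) (Fin n) K) :
    Function.Surjective M.mulVecLin ↔ M.rank = m := by
  rw [← LinearMap.range_eq_top, Matrix.rank]
  constructor
  · intro h
    rw [h]
    simp
  · intro h
    apply Submodule.eq_top_of_finrank_eq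
    rw [h]
    simp

/-- injective and full rank -/
theorem PII_CExt_inj {K : Type} [Field K] {m n : ℕ} (M : Matrix (Fin m) (Fin n) K)
    (h : M.rank = n) : Function.Injective M.mulVecLin := by
  rw [← LinearMap.ker_eq_bot]
  have h1 := LinearMap.finrank_range_add_finrank_ker M.mulVecLin
  have h2 : Module.finrank K (LinearMap.range M.mulVecLin) = n := h
  rw [h2] at h1
  have h3 : Module.finrank K (LinearMap.ker M.mulVecLin) = 0 := by
    have : Module.finrank K (Fin n → K) = n := by simp
    omega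
  exact Submodule.finrank_eq_zero.1 h3

/-- The number of the surjective `τ` with given `τ * φ = S`.  Choose `g ∈ GL_n` with
`g * φ = (1; 0)` and replace `τ` by `τ * g⁻¹`: then `τ = (S | Y)` with an arbitrary `r × (n - r)` matrix
`Y`, and `τ` has rank `r` iff the map `F^(n-r) → F^r / im S` induced by `Y` is surjective
(`F^r / im S` has dimension `s`; `card_full'`, and each map to the quotient has `q^((n-r)(r-s))` lifts). -/
theorem card_ext {n r s : ℕ} {φ : Matrix (Fin n) (Fin r) F} (hφ : φ.rank = r)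
    {S : Matrix (Fin r) (Fin r) F} (hs : S.rank + s = r) :
    (Nat.card {τ : Matrix (Fin r) (Fin n) F // τ.rank = r ∧ τ * φ = S} : ℚ) =
      (Fintype.card F : ℚ) ^ ((n - r) * (r - s)) *
        ∏ i ∈ Finset.range s, ((Fintype.card F : ℚ) ^ (n - r) - (Fintype.card F : ℚ) ^ i) := by
  have hrn : r ≤ n := by
    have := Matrix.rank_le_height φ
    omega
  obtain ⟨e, he⟩ := PII_CExt_ext φ.mulVecLin (PII_CExt_inj φ hφ) (b := n - r)
    (by simp; omega)
  obtain ⟨f, hf⟩ := PII_CExt_split (K := F) (V := Fin r → F) (LinearMap.range S.mulVecLin)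
    (a := r - s) (b := s) (by
      have h : Module.finrank F (LinearMap.range S.mulVecLin) = S.rank := rfl
      rw [h]; omega) (by simp; omega)
  obtain ⟨E⟩ := PII_CExt_card φ.mulVecLin S.mulVecLin e he f hf
  -- the set of matrices
  have E1 : {τ : Matrix (Fin r) (Fin n) F // τ.rank = r ∧ τ * φ = S} ≃
      {τ : (Fin n → F) →ₗ[F] (Fin r → F) // Function.Surjective τ ∧ τ ∘ₗ φ.mulVecLin =
        S.mulVecLin} := by
    refine (Matrix.toLin' (R := F) (m := Fin r) (n := Fin n)).toEquiv.subtypeEquiv ?_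
    intro M
    rw [← PII_CExt_surj M]
    have h1 : (Matrix.toLin' (R := F) (m := Fin r) (n := Fin n)).toEquiv M = M.mulVecLin := rfl
    rw [h1, ← Matrix.mulVecLin_mul]
    constructor
    · rintro ⟨h2, h3⟩
      exact ⟨h2, by rw [h3]⟩
    · rintro ⟨h2, h3⟩
      refine ⟨h2, ?_⟩
      apply Matrix.toLin'.injective
      exact h3
  have E2 : {Y : (Fin (n - r) → F) →ₗ[F] (Fin s → F) // Function.Surjective Y} ≃
      {M : Matrix (Fin s) (Fin (n - r)) F // M.rank = s} := by
    refine ((Matrix.toLin' (R := F) (m := Fin s) (n := Fin (n - r))).toEquiv.subtypeEquiv ?_).symm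
    intro M
    rw [← PII_CExt_surj M]
    rfl
  rw [Nat.card_congr E1, Nat.card_congr E, Nat.card_prod, Nat.card_congr E2, Nat.cast_mul,
    card_full' F (n - r) s]
  congr 1
  have E3 : ((Fin (n - r) → F) →ₗ[F] (Fin (r - s) → F)) ≃ Matrix (Fin (r - s)) (Fin (n - r)) F :=
    (Matrix.toLin' (R := F) (m := Fin (r - s)) (n := Fin (n - r))).symm.toEquiv
  rw [Nat.card_congr E3]
  have h4 : Nat.card (Matrix (Fin (r - s)) (Fin (n - r)) F) =
      Fintype.card F ^ ((n - r) * (r - s)) := by
    have h5 : Nat.card (Matrix (Fin (r - s)) (Fin (n - r)) F) =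
        Nat.card (Fin (r - s) → Fin (n - r) → F) := rfl
    rw [h5, Nat.card_eq_fintype_card]
    simp [← pow_mul]
  rw [h4]
  push_cast
  rfl

end Pool.Agent.H27.KAC

end

section

/-!
Project KAC, part II.1: combinatorics of partitions.  `μ : ℕ →₀ ℕ` is the partition with `μ l` parts of
size `l + 1`.
-/

set_option autoImplicit false

namespace Pool.Agent.H27.KAC

open scoped BigOperators

/-- The number of the parts of size larger than `k`. -/
noncomputable def lam (μ : ℕ →₀ ℕ) (k : ℕ) : ℕ := ∑ l ∈ μ.support.filter (fun l => k ≤ l), μ l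

/-- The size of the partition. -/
noncomputable def psize (μ : ℕ →₀ ℕ) : ℕ := μ.sum fun l x => (l + 1) * x

/-- The partition with the first column removed: all parts are smaller by one. -/
noncomputable def shf (μ : ℕ →₀ ℕ) : ℕ →₀ ℕ :=
  Finsupp.comapDomain (fun l => l + 1) μ (fun _ _ _ _ h => Nat.succ_injective h)

/-- `∑_(a, b) min (a, b)` over the parts of the two partitions. -/
noncomputable def mlam (μ ν : ℕ →₀ ℕ) : ℕ :=
  μ.sum fun k x => ν.sum fun l y => min (k + 1) (l + 1) * (x * y)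

theorem shf_apply (μ : ℕ →₀ ℕ) (k : ℕ) : shf μ k = μ (k + 1) := rfl

private theorem part_bound (μ : ℕ →₀ ℕ) : ∃ M : ℕ, ∀ l, M ≤ l → μ l = 0 := by
  obtain ⟨M, hM⟩ := Finset.exists_nat_subset_range μ.support
  refine ⟨M, fun l hl => ?_⟩
  by_contra h
  have := Finset.mem_range.1 (hM (Finsupp.mem_support_iff.2 h))
  omega

private theorem part_sub {μ : ℕ →₀ ℕ} {M : ℕ} (hM : ∀ l, M ≤ l → μ l = 0) :
    μ.support ⊆ Finset.range M := by
  intro l hl
  rw [Finset.mem_range]
  by_contra h
  exact (Finsupp.mem_support_iff.1 hl) (hM l (by omega))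

private theorem part_lam {μ : ℕ →₀ ℕ} {M : ℕ} (hM : ∀ l, M ≤ l → μ l = 0) (k : ℕ) :
    lam μ k = ∑ j ∈ Finset.range M, μ (k + j) := by
  have h1 : ∑ j ∈ Finset.range M, μ (k + j) = ∑ l ∈ Finset.Ico k (k + M), μ l := by
    rw [Finset.sum_Ico_eq_sum_range, Nat.add_sub_cancel_left]
  rw [h1]
  unfold lam
  apply Finset.sum_subset
  · intro l hl
    rw [Finset.mem_filter] at hl
    have := Finset.mem_range.1 (part_sub hM hl.1)
    rw [Finset.mem_Ico]
    omega
  · intro l hl1 hl2
    rw [Finset.mem_Ico] at hl1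
    rw [Finset.mem_filter, not_and] at hl2
    by_contra h
    exact hl2 (Finsupp.mem_support_iff.2 h) hl1.1

private theorem part_psize {μ : ℕ →₀ ℕ} {M : ℕ} (hM : ∀ l, M ≤ l → μ l = 0) :
    psize μ = ∑ l ∈ Finset.range M, (l + 1) * μ l := by
  unfold psize
  rw [Finsupp.sum_of_support_subset _ (part_sub hM)]
  intro l _
  simp

private theorem part_succ {μ : ℕ →₀ ℕ} {M : ℕ} (hM : ∀ l, M ≤ l → μ l = 0) :
    ∀ l, M + 1 ≤ l → μ l = 0 := fun l hl => hM l (by omega)

private theorem part_shf {μ : ℕ →₀ ℕ} {M : ℕ} (hM : ∀ l, M ≤ l → μ l = 0) :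
    ∀ l, M ≤ l → shf μ l = 0 := fun l hl => hM (l + 1) (by omega)

private theorem part_mlam {μ ν : ℕ →₀ ℕ} {M : ℕ} (hM : ∀ l, M ≤ l → μ l = 0)
    (hN : ∀ l, M ≤ l → ν l = 0) :
    mlam μ ν = ∑ k ∈ Finset.range M, ∑ l ∈ Finset.range M, min (k + 1) (l + 1) * (μ k * ν l) := by
  unfold mlam
  rw [Finsupp.sum_of_support_subset _ (part_sub hM)]
  · refine Finset.sum_congr rfl fun k _ => ?_
    rw [Finsupp.sum_of_support_subset _ (part_sub hN)]
    intro l _
    simp
  · intro k _
    simp

theorem lam_succ (μ : ℕ →₀ ℕ) (k : ℕ) : lam μ k = μ k + lam μ (k + 1) := by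
  obtain ⟨M, hM⟩ := part_bound μ
  rw [part_lam (part_succ hM) k, part_lam hM (k + 1), Finset.sum_range_succ', add_comm]
  congr 1
  refine Finset.sum_congr rfl fun j _ => ?_
  rw [add_assoc k 1 j, add_comm 1 j]

theorem lam_shf (μ : ℕ →₀ ℕ) (k : ℕ) : lam (shf μ) k = lam μ (k + 1) := by
  obtain ⟨M, hM⟩ := part_bound μ
  rw [part_lam (part_shf hM) k, part_lam hM (k + 1)]
  refine Finset.sum_congr rfl fun j _ => ?_
  rw [shf_apply, add_assoc k 1 j, add_comm 1 j, add_assoc]

theorem psize_shf (μ : ℕ →₀ ℕ) : psize μ = lam μ 0 + psize (shf μ) := by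
  obtain ⟨M, hM⟩ := part_bound μ
  rw [part_psize (part_succ hM), part_lam (part_succ hM) 0, part_psize (part_shf hM),
    Finset.sum_range_succ', Finset.sum_range_succ']
  simp only [shf_apply, zero_add, one_mul]
  have h : ∑ k ∈ Finset.range M, (k + 1 + 1) * μ (k + 1) =
      ∑ k ∈ Finset.range M, μ (k + 1) + ∑ k ∈ Finset.range M, (k + 1) * μ (k + 1) := by
    rw [← Finset.sum_add_distrib]
    refine Finset.sum_congr rfl fun k _ => ?_
    ring
  rw [h]
  ring

theorem psize_eq_zero {μ : ℕ →₀ ℕ} : psize μ = 0 ↔ μ = 0 := by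
  constructor
  · intro h
    obtain ⟨M, hM⟩ := part_bound μ
    rw [part_psize hM, Finset.sum_eq_zero_iff] at h
    ext l
    rw [Finsupp.zero_apply]
    rcases lt_or_ge l M with h1 | h1
    · have h2 := h l (Finset.mem_range.2 h1)
      rcases Nat.mul_eq_zero.1 h2 with h3 | h3
      · omega
      · exact h3
    · exact hM l h1
  · rintro rfl
    simp [psize]

/-- A partition of positive size has a part. -/
theorem lam_zero_pos {μ : ℕ →₀ ℕ} (h : μ ≠ 0) : 0 < lam μ 0 := by
  by_contra hl
  have hl0 : lam μ 0 = 0 := by omega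
  apply h
  ext l
  rw [Finsupp.zero_apply]
  unfold lam at hl0
  rw [Finset.sum_eq_zero_iff] at hl0
  by_contra h1
  exact h1 (hl0 l (Finset.mem_filter.2 ⟨Finsupp.mem_support_iff.2 h1, Nat.zero_le l⟩))

theorem lam_zero_left (k : ℕ) : lam 0 k = 0 := by
  simp [lam]

theorem eq_of_lam {μ ν : ℕ →₀ ℕ} (h : ∀ k, lam μ k = lam ν k) : μ = ν := by
  ext k
  have h1 := lam_succ μ k
  have h2 := lam_succ ν k
  have h3 := h k
  have h4 := h (k + 1)
  omega

theorem exists_lam {a : ℕ → ℕ} (ha : Antitone a) {N : ℕ} (hN : a N = 0) :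
    ∃ μ : ℕ →₀ ℕ, ∀ k, lam μ k = a k := by
  have hz : ∀ k, N ≤ k → a k = 0 := fun k hk => by
    have := ha hk
    omega
  refine ⟨Finsupp.onFinset (Finset.range N) (fun k => a k - a (k + 1)) ?_, fun k => ?_⟩
  · intro k hk
    rw [Finset.mem_range]
    by_contra h
    apply hk
    show a k - a (k + 1) = 0
    rw [hz k (by omega)]
    omega
  · rw [part_lam (M := N) (fun l hl => ?_) k]
    · have key : ∀ M : ℕ, ∑ j ∈ Finset.range M, (a (k + j) - a (k + j + 1)) + a (k + M) = a k := by
        intro M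
        induction M with
        | zero => simp
        | succ M ih =>
          rw [Finset.sum_range_succ]
          have h1 : a (k + M + 1) ≤ a (k + M) := ha (by omega)
          have h2 : a (k + (M + 1)) = a (k + M + 1) := rfl
          omega
      have h3 := key N
      rw [hz (k + N) (by omega), add_zero] at h3
      exact h3
    · show a l - a (l + 1) = 0
      rw [hz l hl]
      omega

/-- `∑_(k < N) lam μ k = psize μ` for large `N`. -/
theorem sum_lam (μ : ℕ →₀ ℕ) {N : ℕ} (hN : lam μ N = 0) :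
    ∑ k ∈ Finset.range N, lam μ k = psize μ := by
  induction N generalizing μ with
  | zero =>
    have h0 : μ = 0 := by
      by_contra h
      have := lam_zero_pos h
      omega
    rw [h0]
    simp [psize]
  | succ N ih =>
    rw [Finset.sum_range_succ']
    have h1 : ∑ k ∈ Finset.range N, lam μ (k + 1) = ∑ k ∈ Finset.range N, lam (shf μ) k :=
      Finset.sum_congr rfl fun k _ => (lam_shf μ k).symm
    rw [h1, ih (shf μ) (by rw [lam_shf]; exact hN), psize_shf μ, add_comm]

/-- `min (a, b) = 1 + min (a - 1, b - 1)`. -/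
theorem mlam_rec (μ ν : ℕ →₀ ℕ) : mlam μ ν = lam μ 0 * lam ν 0 + mlam (shf μ) (shf ν) := by
  obtain ⟨M1, hM1⟩ := part_bound μ
  obtain ⟨M2, hM2⟩ := part_bound ν
  have hM : ∀ l, max M1 M2 ≤ l → μ l = 0 := fun l hl => hM1 l (le_trans (le_max_left _ _) hl)
  have hN : ∀ l, max M1 M2 ≤ l → ν l = 0 := fun l hl => hM2 l (le_trans (le_max_right _ _) hl)
  obtain ⟨M, hMM⟩ : ∃ M, M = max M1 M2 := ⟨_, rfl⟩
  rw [← hMM] at hM hN
  rw [part_mlam (part_succ hM) (part_succ hN), part_mlam (part_shf hM) (part_shf hN),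
    part_lam (part_succ hM) 0, part_lam (part_succ hN) 0, Finset.sum_mul_sum]
  have h1 : ∑ k ∈ Finset.range (M + 1), ∑ l ∈ Finset.range (M + 1),
      min (k + 1) (l + 1) * (μ k * ν l) =
      ∑ k ∈ Finset.range (M + 1), ∑ l ∈ Finset.range (M + 1), μ (0 + k) * ν (0 + l) +
      ∑ k ∈ Finset.range (M + 1), ∑ l ∈ Finset.range (M + 1), min k l * (μ k * ν l) := by
    rw [← Finset.sum_add_distrib]
    refine Finset.sum_congr rfl fun k _ => ?_
    rw [← Finset.sum_add_distrib]
    refine Finset.sum_congr rfl fun l _ => ?_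
    rw [zero_add, zero_add]
    have h2 : min (k + 1) (l + 1) = 1 + min k l := by omega
    rw [h2]
    ring
  rw [h1]
  congr 1
  rw [Finset.sum_range_succ']
  have h3 : ∑ l ∈ Finset.range (M + 1), min 0 l * (μ 0 * ν l) = 0 := by
    refine Finset.sum_eq_zero fun l _ => ?_
    simp
  rw [h3, add_zero]
  refine Finset.sum_congr rfl fun k _ => ?_
  rw [Finset.sum_range_succ']
  simp [shf_apply]

theorem mlam_comm (μ ν : ℕ →₀ ℕ) : mlam μ ν = mlam ν μ := by
  unfold mlam
  rw [Finsupp.sum_comm]
  refine Finsupp.sum_congr fun l _ => Finsupp.sum_congr fun k _ => ?_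
  rw [min_comm, mul_comm (μ k)]

theorem prod_shf {M : Type} [CommMonoid M] (f : ℕ → M) (h : f 0 = 1) (μ : ℕ →₀ ℕ) :
    (μ.prod fun _ x => f x) = f (μ 0) * (shf μ).prod fun _ x => f x := by
  obtain ⟨M, hM⟩ := part_bound μ
  rw [Finsupp.prod_of_support_subset _ (part_sub (part_succ hM)) _ (fun _ _ => h),
    Finsupp.prod_of_support_subset _ (part_sub (part_shf hM)) _ (fun _ _ => h),
    Finset.prod_range_succ', mul_comm]
  rfl

end Pool.Agent.H27.KAC

end

section

/-!
Project KAC, part II.1: types of nilpotent matrices.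
-/

set_option autoImplicit false

namespace Pool.Agent.H27.KAC

open scoped BigOperators

/-- `T` is nilpotent with `μ l` Jordan blocks of size `l + 1`. -/
def HasType {n : ℕ} {F : Type} [Field F] (T : Matrix (Fin n) (Fin n) F) (μ : ℕ →₀ ℕ) : Prop :=
  IsNilpotent T ∧ ∀ k, (T ^ k).rank = (T ^ (k + 1)).rank + lam μ k

variable {n r : ℕ} {F : Type} [Field F]

private theorem PII_Typ.rank_eq_zero {a b : ℕ} {M : Matrix (Fin a) (Fin b) F} :
    M.rank = 0 ↔ M = 0 := by
  constructor
  · intro h
    have h1 : LinearMap.range M.mulVecLin = ⊥ := Submodule.finrank_eq_zero.1 h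
    have h2 : M.mulVecLin = 0 := LinearMap.range_eq_bot.1 h1
    ext i j
    have h3 := congrFun (LinearMap.congr_fun h2 (Pi.single j 1)) i
    simpa using h3
  · rintro rfl
    exact Matrix.rank_zero

theorem HasType.unique {T : Matrix (Fin n) (Fin n) F} {μ ν : ℕ →₀ ℕ} (h : HasType T μ)
    (h' : HasType T ν) : μ = ν :=
  eq_of_lam fun k => by
    have h1 := h.2 k
    have h2 := h'.2 k
    omega

/-- `rank (T ^ k) = ∑_(l ≥ k) lam μ l`; `sum_lam`. -/
theorem HasType.size {T : Matrix (Fin n) (Fin n) F} {μ : ℕ →₀ ℕ} (h : HasType T μ) :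
    psize μ = n := by
  obtain ⟨N, hN⟩ := h.1
  have hr : (T ^ N).rank = 0 := by rw [hN]; exact Matrix.rank_zero
  have hl : lam μ N = 0 := by
    have h1 := h.2 N
    omega
  have hs : ∀ M : ℕ, (T ^ M).rank + ∑ k ∈ Finset.range M, lam μ k = n := by
    intro M
    induction M with
    | zero =>
      rw [pow_zero, Finset.sum_range_zero, add_zero, Matrix.rank_one, Fintype.card_fin]
    | succ M ih =>
      rw [Finset.sum_range_succ]
      have h1 := h.2 M
      omega
  have h2 := hs N
  rw [hr, sum_lam μ hl, zero_add] at h2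
  exact h2

/-- A matrix of full column rank is injective, a matrix of full row rank is surjective:
`rank (φ * M * τ) = rank M`. -/
theorem rank_mul_mul {m : ℕ} {φ : Matrix (Fin n) (Fin r) F} {τ : Matrix (Fin m) (Fin n) F}
    (hφ : φ.rank = r) (hτ : τ.rank = m) (M : Matrix (Fin r) (Fin m) F) :
    (φ * M * τ).rank = M.rank := by
  have hinj : Function.Injective φ.mulVecLin := by
    rw [← LinearMap.ker_eq_bot, ← Submodule.finrank_eq_zero]
    have h1 := LinearMap.finrank_range_add_finrank_ker φ.mulVecLin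
    have h2 : Module.finrank F (LinearMap.range φ.mulVecLin) = r := hφ
    rw [h2, Module.finrank_fin_fun] at h1
    omega
  have hsurj : LinearMap.range τ.mulVecLin = ⊤ := by
    apply Submodule.eq_top_of_finrank_eq
    rw [Module.finrank_fin_fun]
    exact hτ
  have h3 : LinearMap.range (φ * M * τ).mulVecLin =
      (LinearMap.range M.mulVecLin).map φ.mulVecLin := by
    rw [Matrix.mulVecLin_mul, Matrix.mulVecLin_mul, LinearMap.range_comp, hsurj,
      Submodule.map_top, LinearMap.range_comp]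
  unfold Matrix.rank
  rw [h3]
  exact (Submodule.equivMapOfInjective φ.mulVecLin hinj (LinearMap.range M.mulVecLin)).finrank_eq.symm

/-- `(φ * τ) ^ (k + 1) = φ * (τ * φ) ^ k * τ`. -/
theorem pow_succ_mul (φ : Matrix (Fin n) (Fin r) F) (τ : Matrix (Fin r) (Fin n) F) (k : ℕ) :
    (φ * τ) ^ (k + 1) = φ * (τ * φ) ^ k * τ := by
  induction k with
  | zero => rw [pow_zero, zero_add, pow_one, Matrix.mul_one]
  | succ k ih =>
    rw [pow_succ, ih, pow_succ (τ * φ) k]
    simp only [Matrix.mul_assoc]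

/-- The type of `φ * τ` in terms of the type of `τ * φ`. -/
theorem hasType_mul_iff {φ : Matrix (Fin n) (Fin r) F} {τ : Matrix (Fin r) (Fin n) F}
    (hφ : φ.rank = r) (hτ : τ.rank = r) (μ : ℕ →₀ ℕ) :
    HasType (φ * τ) μ ↔ r + lam μ 0 = n ∧ HasType (τ * φ) (shf μ) := by
  have hr : ∀ k : ℕ, ((φ * τ) ^ (k + 1)).rank = ((τ * φ) ^ k).rank := by
    intro k
    rw [pow_succ_mul, rank_mul_mul hφ hτ]
  have h0 : ((φ * τ) ^ 0).rank = n := by rw [pow_zero, Matrix.rank_one, Fintype.card_fin]
  have h0' : ((τ * φ) ^ 0).rank = r := by rw [pow_zero, Matrix.rank_one, Fintype.card_fin]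
  constructor
  · rintro ⟨⟨N, hN⟩, h⟩
    refine ⟨?_, ⟨N, ?_⟩, ?_⟩
    · have h1 := h 0
      rw [h0, hr 0, h0'] at h1
      exact h1.symm
    · rw [← PII_Typ.rank_eq_zero, ← hr N, pow_succ, hN, Matrix.zero_mul]
      exact Matrix.rank_zero
    · intro k
      rw [lam_shf, ← hr k, ← hr (k + 1)]
      exact h (k + 1)
  · rintro ⟨h1, ⟨N, hN⟩, h⟩
    refine ⟨⟨N + 1, ?_⟩, ?_⟩
    · rw [← PII_Typ.rank_eq_zero, hr N, hN]
      exact Matrix.rank_zero
    · intro k
      rcases k with _ | k
      · rw [h0, hr 0, h0']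
        exact h1.symm
      · have h2 := h k
        rw [lam_shf, ← hr k, ← hr (k + 1)] at h2
        exact h2

end Pool.Agent.H27.KAC

end

section

/-!
Project KAC, part II.1: each nilpotent matrix has a type.
-/

set_option autoImplicit false

namespace Pool.Agent.H27.KAC

open scoped BigOperators

variable {n r : ℕ} {F : Type} [Field F]

theorem PII_TypE_rank_add {V : Type} [AddCommGroup V] [Module F V] [FiniteDimensional F V]
    (f : V →ₗ[F] V) (k : ℕ) :
    Module.finrank F (LinearMap.range (f ^ (k + 1)))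
      + Module.finrank F ((LinearMap.ker f ⊓ LinearMap.range (f ^ k) : Submodule F V))
      = Module.finrank F (LinearMap.range (f ^ k)) := by
  have h1 := LinearMap.finrank_range_add_finrank_ker (f.domRestrict (LinearMap.range (f ^ k)))
  have h2 : LinearMap.range (f.domRestrict (LinearMap.range (f ^ k)))
      = LinearMap.range (f ^ (k + 1)) := by
    rw [LinearMap.range_domRestrict, pow_succ', Module.End.mul_eq_comp, LinearMap.range_comp]
  have h3 : Module.finrank F (LinearMap.ker (f.domRestrict (LinearMap.range (f ^ k))))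
      = Module.finrank F ((LinearMap.ker f ⊓ LinearMap.range (f ^ k) : Submodule F V)) := by
    rw [LinearMap.ker_domRestrict]
    have h4 : LinearMap.ker f ⊓ LinearMap.range (f ^ k)
        = (Submodule.comap (LinearMap.range (f ^ k)).subtype (LinearMap.ker f)).map
          (LinearMap.range (f ^ k)).subtype := by
      rw [Submodule.map_comap_subtype, inf_comm]
    rw [h4]
    exact (Submodule.finrank_map_subtype_eq _ _).symm
  rw [h2, h3] at h1
  exact h1

/-- The differences `rank (T ^ k) - rank (T ^ (k + 1))` decrease (`T` maps `range (T ^ k)` onto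
`range (T ^ (k + 1))`, the kernel of this map decreases with `k`); they are zero for large `k`, because
`T` is nilpotent; `exists_lam`. -/
theorem exists_type {T : Matrix (Fin n) (Fin n) F} (h : IsNilpotent T) :
    ∃ μ : ℕ →₀ ℕ, HasType T μ := by
  set f : (Fin n → F) →ₗ[F] (Fin n → F) := T.mulVecLin with hf
  have hpow : ∀ k, (T ^ k).rank = Module.finrank F (LinearMap.range (f ^ k)) := by
    intro k
    have h1 : (T ^ k).mulVecLin = f ^ k := by
      have := map_pow (Matrix.toLinAlgEquiv' (R := F) (n := Fin n)) T k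
      exact this
    rw [Matrix.rank, h1]
  obtain ⟨N, hN⟩ := h
  set a : ℕ → ℕ := fun k =>
    Module.finrank F ((LinearMap.ker f ⊓ LinearMap.range (f ^ k) : Submodule F (Fin n → F))) with ha
  have hanti : Antitone a := by
    refine antitone_nat_of_succ_le fun k => ?_
    refine Submodule.finrank_mono (inf_le_inf le_rfl ?_)
    rw [pow_succ, Module.End.mul_eq_comp]
    exact LinearMap.range_comp_le_range _ _
  have haN : a N = 0 := by
    have h0 : (T ^ N).rank = 0 := by rw [hN, Matrix.rank_zero]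
    have h1 := PII_TypE_rank_add (F := F) f N
    rw [← hpow N, h0] at h1
    have h2 : Module.finrank F ((LinearMap.ker f ⊓ LinearMap.range (f ^ N)
        : Submodule F (Fin n → F))) = 0 := by omega
    exact h2
  obtain ⟨μ, hμ⟩ := exists_lam hanti haN
  refine ⟨μ, ⟨N, hN⟩, fun k => ?_⟩
  rw [hpow, hpow, hμ]
  exact (PII_TypE_rank_add f k).symm

end Pool.Agent.H27.KAC

end

section

/-!
Project KAC, part I.1, module PI_Idem: idempotent matrices are diagonalizable.
-/

set_option autoImplicit false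

namespace Pool.Agent.H27.KAC

open scoped BigOperators
open Polynomial

theorem idem_conj {K : Type} [Field K] {m : ℕ} (e : Matrix (Fin m) (Fin m) K) (he : e * e = e) :
    ∃ g : (Matrix (Fin m) (Fin m) K)ˣ,
      (g : Matrix (Fin m) (Fin m) K) * e * ((g⁻¹ : (Matrix (Fin m) (Fin m) K)ˣ) :
        Matrix (Fin m) (Fin m) K) =
      Matrix.diagonal (fun i : Fin m => if (i : ℕ) < e.rank then (1 : K) else 0) := by
  classical
  set T : (Fin m → K) →ₗ[K] (Fin m → K) := Matrix.toLin' e with hT
  have hTT : ∀ x, T (T x) = T x := by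
    intro x
    rw [hT, Matrix.toLin'_apply, Matrix.toLin'_apply, Matrix.mulVec_mulVec, he]
  have hproj : LinearMap.IsProj (LinearMap.range T) T := by
    refine ⟨fun x => ⟨x, rfl⟩, ?_⟩
    rintro x ⟨y, rfl⟩
    exact hTT y
  have hC : IsCompl (LinearMap.range T) (LinearMap.ker T) := hproj.isCompl
  set r := e.rank with hr
  have hfr : Module.finrank K (LinearMap.range T) = r := by
    rw [hr, Matrix.rank_eq_finrank_range_toLin e (Pi.basisFun K (Fin m)) (Pi.basisFun K (Fin m)),
      Matrix.toLin_eq_toLin', hT]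
  have hfk : Module.finrank K (LinearMap.ker T) = m - r := by
    have h := LinearMap.finrank_range_add_finrank_ker T
    rw [hfr, Module.finrank_fin_fun] at h
    omega
  have hrm : r ≤ m := by
    have h := LinearMap.finrank_range_add_finrank_ker T
    rw [hfr, Module.finrank_fin_fun] at h
    omega
  set br := Module.finBasisOfFinrankEq K (LinearMap.range T) hfr with hbr
  set bk := Module.finBasisOfFinrankEq K (LinearMap.ker T) hfk with hbk
  set E : Fin r ⊕ Fin (m - r) ≃ Fin m := finSumFinEquiv.trans (finCongr (by omega)) with hE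
  set B : Module.Basis (Fin m) K (Fin m → K) :=
    ((br.prod bk).map (Submodule.prodEquivOfIsCompl _ _ hC)).reindex E with hB
  have hBT : ∀ i : Fin m, T (B i) = if (i : ℕ) < r then B i else 0 := by
    intro i
    obtain ⟨s, rfl⟩ := E.surjective i
    rcases s with s | s
    · have h1 : ((E (Sum.inl s) : Fin m) : ℕ) < r := by
        simp [hE, finSumFinEquiv]
      rw [if_pos h1]
      have h2 : B (E (Sum.inl s)) = (br s : Fin m → K) := by
        rw [hB, Module.Basis.reindex_apply, Equiv.symm_apply_apply, Module.Basis.map_apply,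
          Submodule.coe_prodEquivOfIsCompl']
        simp
      rw [h2]
      obtain ⟨y, hy⟩ := (br s).2
      rw [← hy]
      exact hTT y
    · have h1 : ¬ ((E (Sum.inr s) : Fin m) : ℕ) < r := by
        simp [hE, finSumFinEquiv]
      rw [if_neg h1]
      have h2 : B (E (Sum.inr s)) = (bk s : Fin m → K) := by
        rw [hB, Module.Basis.reindex_apply, Equiv.symm_apply_apply, Module.Basis.map_apply,
          Submodule.coe_prodEquivOfIsCompl']
        simp
      rw [h2]
      exact (bk s).2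
  have hmat : LinearMap.toMatrix B B T =
      Matrix.diagonal (fun i : Fin m => if (i : ℕ) < r then (1 : K) else 0) := by
    ext i j
    rw [LinearMap.toMatrix_apply, hBT, Matrix.diagonal_apply]
    by_cases hj : (j : ℕ) < r
    · rw [if_pos hj, Module.Basis.repr_self, Finsupp.single_apply]
      by_cases hij : i = j
      · subst hij
        simp [hj]
      · rw [if_neg (fun h => hij h.symm), if_neg hij]
    · rw [if_neg hj, map_zero, Finsupp.zero_apply]
      by_cases hij : i = j
      · subst hij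
        simp [hj]
      · rw [if_neg hij]
  set S := Pi.basisFun K (Fin m) with hS
  refine ⟨⟨B.toMatrix S, S.toMatrix B, Module.Basis.toMatrix_mul_toMatrix_flip _ _,
    Module.Basis.toMatrix_mul_toMatrix_flip _ _⟩, ?_⟩
  have h := basis_toMatrix_mul_linearMap_toMatrix_mul_basis_toMatrix B S B S T
  have hTe : LinearMap.toMatrix S S T = e := by
    rw [hS, LinearMap.toMatrix_eq_toMatrix', hT, LinearMap.toMatrix'_toLin']
  rw [hTe, hmat] at h
  exact h

end Pool.Agent.H27.KAC

end

section

/-!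
Project KAC, part I.1, module PI_Rank: the rank of `ρ v` is a combination of the ranks of the components of `p v`.

PROOF SKETCH.  `S = ∏ Mat_(m_j)(K_j)`, `p : R → S` surjective with nil kernel.
(1) units lift: if `p g` is a unit of `S` then `g` is a unit of `R`.
(2) two idempotents `e, e'` of `R` with `p e = p e'` are conjugate in `R`: `g = e' e + (1 - e') (1 - e)` has `p g = 1`,
so it is a unit, and `g e = e' e = e' g`.  So `rank (ρ e) = rank (ρ e')`.  With (1): the same if `p e` and `p e'` are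
conjugate in `S`.
(3) the diagonal matrix units `E_(j,a)` of `S` are complete orthogonal idempotents; lift them to complete orthogonal
idempotents `ε_(j,a)` of `R` (`CompleteOrthogonalIdempotents.lift_of_isNilpotent_ker`, or
`OrthogonalIdempotents.lift_of_isNilpotent_ker`).  `d j = rank (ρ ε_(j,0))` (zero if `m j = 0`); `E_(j,a)` and `E_(j,b)`
are conjugate, so `d j = rank (ρ ε_(j,a))` for all `a`.
(4) `v` with `v^(q^N) = v` (`q^N ≥ 2`): `e = v^(q^N - 1)` is an idempotent, `e v = v`, so `rank (ρ e) = rank (ρ v)` and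
`rank (p e)_j = rank (p v)_j`.
(5) for an idempotent `e`: by `idem_conj` `p e` is conjugate to the sum of the `E_(j,a)`, `a < rank (p e)_j`, so
`rank (ρ e) = rank (ρ e')`, `e' = ∑_j ∑_(a < rank (p e)_j) ε_(j,a)`; the rank of a sum of orthogonal idempotent matrices
is the sum of the ranks.
-/

set_option autoImplicit false

namespace Pool.Agent.H27.KAC

open scoped BigOperators
open Polynomial

private theorem Rank_isUnit {F R S : Type} [Field F] [Ring R] [Ring S] [Algebra F R] [Algebra F S]
    (p : R →ₐ[F] S)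
    (hk : ∀ x, p x = 0 → IsNilpotent x) {g : R} (h : p g = 1) : IsUnit g := by
  have h1 : IsNilpotent (g - 1) := hk _ (by rw [map_sub, h, map_one, sub_self])
  have h2 := h1.isUnit_one_add
  rwa [add_sub_cancel] at h2

private theorem Rank_units {M : Type} [Monoid M] (a b : Mˣ) :
    ((a⁻¹ : Mˣ) : M) * (b : M) * (((b⁻¹ : Mˣ) : M) * (a : M)) = 1 := by
  rw [mul_assoc, ← mul_assoc (b : M), Units.mul_inv, one_mul, Units.inv_mul]

private theorem Rank_lift {F R S : Type} [Field F] [Ring R] [Ring S] [Algebra F R] [Algebra F S]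
    (p : R →ₐ[F] S)
    (hp : Function.Surjective p) (hk : ∀ x, p x = 0 → IsNilpotent x) {e e' : R} (he : e * e = e)
    (he' : e' * e' = e') (U V : S) (hUV : U * V = 1) (hVU : V * U = 1) (h : U * p e * V = p e') :
    ∃ k k' : R, e' = k * e * k' := by
  obtain ⟨g, hg⟩ := hp U
  obtain ⟨g', hg'⟩ := hp V
  have hu : IsUnit g := by
    rw [isUnit_iff_exists_and_exists]
    constructor
    · have h1 : IsUnit (g * g') := Rank_isUnit p hk (by rw [map_mul, hg, hg', hUV])
      obtain ⟨w, hw⟩ := h1
      refine ⟨g' * ((w⁻¹ : Rˣ) : R), ?_⟩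
      rw [← mul_assoc, ← hw, Units.mul_inv]
    · have h1 : IsUnit (g' * g) := Rank_isUnit p hk (by rw [map_mul, hg, hg', hVU])
      obtain ⟨w, hw⟩ := h1
      refine ⟨((w⁻¹ : Rˣ) : R) * g', ?_⟩
      rw [mul_assoc, ← hw, Units.inv_mul]
  obtain ⟨u, rfl⟩ := hu
  have hV : p ((u⁻¹ : Rˣ) : R) = V := by
    have h1 : U * p ((u⁻¹ : Rˣ) : R) = 1 := by rw [← hg, ← map_mul, Units.mul_inv, map_one]
    calc p ((u⁻¹ : Rˣ) : R) = (V * U) * p ((u⁻¹ : Rˣ) : R) := by rw [hVU, one_mul]
      _ = V := by rw [mul_assoc, h1, mul_one]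
  obtain ⟨e1, he1def⟩ : ∃ e1 : R, e1 = (u : R) * e * ((u⁻¹ : Rˣ) : R) := ⟨_, rfl⟩
  have hp1 : p e1 = p e' := by
    rw [he1def, map_mul, map_mul, hg, hV, h]
  have he1 : e1 * e1 = e1 := by
    calc e1 * e1 = (u : R) * e * (((u⁻¹ : Rˣ) : R) * (u : R)) * e * ((u⁻¹ : Rˣ) : R) := by
          rw [he1def]; simp only [mul_assoc]
      _ = (u : R) * (e * e) * ((u⁻¹ : Rˣ) : R) := by
          rw [Units.inv_mul, mul_one]; simp only [mul_assoc]
      _ = e1 := by rw [he, he1def]
  obtain ⟨G, hGdef⟩ : ∃ G : R, G = e' * e1 + (1 - e') * (1 - e1) := ⟨_, rfl⟩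
  have hpe : p e' * p e' = p e' := by rw [← map_mul, he']
  have hG : p G = 1 := by
    rw [hGdef, map_add, map_mul, map_mul, map_sub, map_sub, map_one, hp1]
    have : (1 - p e') * (1 - p e') = 1 - p e' - p e' + p e' * p e' := by noncomm_ring
    rw [this, hpe]
    abel
  obtain ⟨w, hw⟩ := Rank_isUnit p hk hG
  have h1 : G * e1 = e' * e1 := by
    have : G * e1 = e' * (e1 * e1) + (1 - e') * (e1 - e1 * e1) := by
      rw [hGdef]; noncomm_ring
    rw [this, he1, sub_self, mul_zero, add_zero]
  have h2 : e' * G = e' * e1 := by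
    have : e' * G = (e' * e') * e1 + (e' - e' * e') * (1 - e1) := by
      rw [hGdef]; noncomm_ring
    rw [this, he', sub_self, zero_mul, add_zero]
  refine ⟨(w : R) * (u : R), ((u⁻¹ : Rˣ) : R) * ((w⁻¹ : Rˣ) : R), ?_⟩
  calc e' = e' * (G * ((w⁻¹ : Rˣ) : R)) := by rw [← hw, Units.mul_inv, mul_one]
    _ = (G * e1) * ((w⁻¹ : Rˣ) : R) := by rw [← mul_assoc, h2, h1]
    _ = (w : R) * (u : R) * e * (((u⁻¹ : Rˣ) : R) * ((w⁻¹ : Rˣ) : R)) := by
        rw [← hw, he1def]; simp only [mul_assoc]

private theorem Rank_conjS {n : ℕ} {m : Fin n → ℕ} {K : Fin n → Type} [∀ j, Field (K j)]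
    (x y : ∀ j, Matrix (Fin (m j)) (Fin (m j)) (K j)) (hx : x * x = x) (hy : y * y = y)
    (h : ∀ j, (x j).rank = (y j).rank) :
    ∃ U V : (∀ j, Matrix (Fin (m j)) (Fin (m j)) (K j)), U * V = 1 ∧ V * U = 1 ∧ U * x * V = y := by
  choose g hg using fun j => idem_conj (x j) (congrFun hx j)
  choose k hk using fun j => idem_conj (y j) (congrFun hy j)
  refine ⟨fun j => (((k j)⁻¹ : (Matrix (Fin (m j)) (Fin (m j)) (K j))ˣ) : Matrix _ _ _) *
    ((g j : (Matrix (Fin (m j)) (Fin (m j)) (K j))ˣ) : Matrix _ _ _),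
    fun j => (((g j)⁻¹ : (Matrix (Fin (m j)) (Fin (m j)) (K j))ˣ) : Matrix _ _ _) *
    ((k j : (Matrix (Fin (m j)) (Fin (m j)) (K j))ˣ) : Matrix _ _ _), ?_, ?_, ?_⟩
  · funext j
    exact Rank_units (k j) (g j)
  · funext j
    exact Rank_units (g j) (k j)
  · funext j
    rw [Pi.mul_apply, Pi.mul_apply]
    have h1 := hg j
    have h2 := hk j
    rw [h j, ← h2] at h1
    calc (((k j)⁻¹ : (Matrix (Fin (m j)) (Fin (m j)) (K j))ˣ) : Matrix _ _ _) * (g j : Matrix _ _ _) *
          x j * ((((g j)⁻¹ : (Matrix (Fin (m j)) (Fin (m j)) (K j))ˣ) : Matrix _ _ _) *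
            (k j : Matrix _ _ _))
        = (((k j)⁻¹ : (Matrix (Fin (m j)) (Fin (m j)) (K j))ˣ) : Matrix _ _ _) *
          ((g j : Matrix _ _ _) * x j *
            (((g j)⁻¹ : (Matrix (Fin (m j)) (Fin (m j)) (K j))ˣ) : Matrix _ _ _)) *
            (k j : Matrix _ _ _) := by simp only [mul_assoc]
      _ = y j := by
          rw [h1]
          calc (((k j)⁻¹ : (Matrix (Fin (m j)) (Fin (m j)) (K j))ˣ) : Matrix _ _ _) *
                ((k j : Matrix _ _ _) * y j *
                  (((k j)⁻¹ : (Matrix (Fin (m j)) (Fin (m j)) (K j))ˣ) : Matrix _ _ _)) *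
                  (k j : Matrix _ _ _)
              = ((((k j)⁻¹ : (Matrix (Fin (m j)) (Fin (m j)) (K j))ˣ) : Matrix _ _ _) *
                (k j : Matrix _ _ _)) * y j *
                ((((k j)⁻¹ : (Matrix (Fin (m j)) (Fin (m j)) (K j))ˣ) : Matrix _ _ _) *
                  (k j : Matrix _ _ _)) := by simp only [mul_assoc]
            _ = y j := by rw [Units.inv_mul, one_mul, mul_one]

private theorem Rank_conj_le {F : Type} [Field F] {R : Type} [Ring R] [Algebra F R] {a : ℕ}
    (ρ : R →ₐ[F] Matrix (Fin a) (Fin a) F) (k e k' : R) : (ρ (k * e * k')).rank ≤ (ρ e).rank := by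
  rw [map_mul, map_mul]
  exact (Matrix.rank_mul_le_left _ _).trans (Matrix.rank_mul_le_right _ _)

private theorem Rank_eq_of_rank {F : Type} [Field F] {R : Type} [Ring R] [Algebra F R]
    {n : ℕ} {m : Fin n → ℕ} {K : Fin n → Type} [∀ j, Field (K j)]
    [∀ j, Algebra F (K j)] (p : R →ₐ[F] (∀ j, Matrix (Fin (m j)) (Fin (m j)) (K j)))
    (hp : Function.Surjective p) (hk : ∀ x, p x = 0 → IsNilpotent x) {a : ℕ}
    (ρ : R →ₐ[F] Matrix (Fin a) (Fin a) F) {e e' : R} (he : e * e = e) (he' : e' * e' = e')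
    (h : ∀ j, (p e j).rank = (p e' j).rank) : (ρ e).rank = (ρ e').rank := by
  have key : ∀ e e' : R, e * e = e → e' * e' = e' → (∀ j, (p e j).rank = (p e' j).rank) →
      (ρ e').rank ≤ (ρ e).rank := by
    intro e e' he he' h
    obtain ⟨U, V, h1, h2, h3⟩ := Rank_conjS (p e) (p e') (by rw [← map_mul, he])
      (by rw [← map_mul, he']) h
    obtain ⟨k, k', hkk⟩ := Rank_lift p hp hk he he' U V h1 h2 h3
    rw [hkk]
    exact Rank_conj_le ρ k e k'
  exact le_antisymm (key e' e he' he (fun j => (h j).symm)) (key e e' he he' h)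

private theorem Rank_add {a : ℕ} {F : Type} [Field F] (X Y : Matrix (Fin a) (Fin a) F)
    (hX : X * X = X) (hY : Y * Y = Y) (hXY : X * Y = 0) (hYX : Y * X = 0) :
    (X + Y).rank = X.rank + Y.rank := by
  unfold Matrix.rank
  have hsup : LinearMap.range (X + Y).mulVecLin =
      LinearMap.range X.mulVecLin ⊔ LinearMap.range Y.mulVecLin := by
    apply le_antisymm
    · rintro _ ⟨u, rfl⟩
      rw [Matrix.mulVecLin_apply, Matrix.add_mulVec]
      exact Submodule.add_mem_sup ⟨u, rfl⟩ ⟨u, rfl⟩
    · rw [sup_le_iff]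
      constructor
      · rintro _ ⟨u, rfl⟩
        refine ⟨X.mulVec u, ?_⟩
        rw [Matrix.mulVecLin_apply, Matrix.mulVecLin_apply, Matrix.mulVec_mulVec, add_mul, hX, hYX,
          add_zero]
      · rintro _ ⟨u, rfl⟩
        refine ⟨Y.mulVec u, ?_⟩
        rw [Matrix.mulVecLin_apply, Matrix.mulVecLin_apply, Matrix.mulVec_mulVec, add_mul, hY, hXY,
          zero_add]
  have hinf : LinearMap.range X.mulVecLin ⊓ LinearMap.range Y.mulVecLin = ⊥ := by
    rw [eq_bot_iff]
    rintro z ⟨⟨u, hu⟩, ⟨w, hw⟩⟩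
    rw [Submodule.mem_bot]
    rw [Matrix.mulVecLin_apply] at hu hw
    have h1 : X.mulVec z = z := by
      rw [← hu, Matrix.mulVec_mulVec, hX]
    rw [← h1, ← hw, Matrix.mulVec_mulVec, hXY, Matrix.zero_mulVec]
  have h := Submodule.finrank_sup_add_finrank_inf_eq (LinearMap.range X.mulVecLin)
    (LinearMap.range Y.mulVecLin)
  rw [hinf, finrank_bot, add_zero] at h
  rw [hsup, h]

private theorem Rank_sum {a : ℕ} {F : Type} [Field F] {I : Type} (η : I → Matrix (Fin a) (Fin a) F)
    (h : OrthogonalIdempotents η) (s : Finset I) :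
    (∑ i ∈ s, η i).rank = ∑ i ∈ s, (η i).rank := by
  classical
  induction s using Finset.induction_on with
  | empty => simp
  | insert i s hi ih =>
    rw [Finset.sum_insert hi, Finset.sum_insert hi, ← ih]
    refine Rank_add _ _ (h.idem i) h.isIdempotentElem_sum ?_ ?_
    · exact h.mul_sum_of_notMem hi
    · rw [Finset.sum_mul]
      refine Finset.sum_eq_zero fun j hj => ?_
      exact h.ortho (fun hji => hi (hji ▸ hj))

private theorem Rank_diag {K : Type} [Field K] {m : ℕ} (x : Matrix (Fin m) (Fin m) K)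
    (hx : x * x = x) :
    (Matrix.diagonal (fun i : Fin m => if (i : ℕ) < x.rank then (1 : K) else 0)).rank = x.rank := by
  obtain ⟨g, hg⟩ := idem_conj x hx
  apply le_antisymm
  · rw [← hg]
    exact (Matrix.rank_mul_le_left _ _).trans (Matrix.rank_mul_le_right _ _)
  · have h1 : x = ((g⁻¹ : (Matrix (Fin m) (Fin m) K)ˣ) : Matrix (Fin m) (Fin m) K) *
        Matrix.diagonal (fun i : Fin m => if (i : ℕ) < x.rank then (1 : K) else 0) *
        (g : Matrix (Fin m) (Fin m) K) := by
      rw [← hg]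
      calc x = (((g⁻¹ : (Matrix (Fin m) (Fin m) K)ˣ) : Matrix (Fin m) (Fin m) K) *
            (g : Matrix (Fin m) (Fin m) K)) * x *
            (((g⁻¹ : (Matrix (Fin m) (Fin m) K)ˣ) : Matrix (Fin m) (Fin m) K) *
            (g : Matrix (Fin m) (Fin m) K)) := by rw [Units.inv_mul, one_mul, mul_one]
        _ = _ := by simp only [mul_assoc]
    have h2 : ∀ A B C : Matrix (Fin m) (Fin m) K, (A * B * C).rank ≤ B.rank := fun A B C =>
      (Matrix.rank_mul_le_left _ _).trans (Matrix.rank_mul_le_right _ _)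
    calc x.rank = (((g⁻¹ : (Matrix (Fin m) (Fin m) K)ˣ) : Matrix (Fin m) (Fin m) K) *
        Matrix.diagonal (fun i : Fin m => if (i : ℕ) < x.rank then (1 : K) else 0) *
        (g : Matrix (Fin m) (Fin m) K)).rank := by rw [← h1]
      _ ≤ _ := h2 _ _ _

private theorem Rank_count {m r : ℕ} (hr : r ≤ m) (d : ℕ) :
    ∑ b : Fin m, (if (b : ℕ) < r then d else 0) = d * r := by
  have h1 : ∑ b : Fin m, (if (b : ℕ) < r then d else 0) =
      ∑ b ∈ Finset.range m, (if b < r then d else 0) :=
    Fin.sum_univ_eq_sum_range (fun b => if b < r then d else 0) m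
  rw [h1, ← Finset.sum_filter, Finset.sum_const, smul_eq_mul, mul_comm]
  congr 1
  have : (Finset.range m).filter (fun b => b < r) = Finset.range r := by
    ext b
    rw [Finset.mem_filter, Finset.mem_range, Finset.mem_range]
    omega
  rw [this, Finset.card_range]

/-- diagonal matrix units -/
private noncomputable def Rank_E {n : ℕ} (m : Fin n → ℕ) (K : Fin n → Type) [∀ j, Field (K j)]
    (i : Σ j : Fin n, Fin (m j)) : ∀ j, Matrix (Fin (m j)) (Fin (m j)) (K j) :=
  fun j => Matrix.diagonal (fun b => if (⟨j, b⟩ : Σ j : Fin n, Fin (m j)) = i then (1 : K j) else 0)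

private theorem Rank_E_ortho {n : ℕ} (m : Fin n → ℕ) (K : Fin n → Type) [∀ j, Field (K j)] :
    OrthogonalIdempotents (Rank_E m K) := by
  refine ⟨fun i => ?_, fun i i' hii => ?_⟩
  · unfold IsIdempotentElem
    funext j
    rw [Pi.mul_apply]
    unfold Rank_E
    rw [Matrix.diagonal_mul_diagonal]
    congr 1
    funext b
    split_ifs <;> simp
  · funext j
    show Rank_E m K i j * Rank_E m K i' j = 0
    unfold Rank_E
    rw [Matrix.diagonal_mul_diagonal]
    ext b c
    rw [Matrix.diagonal_apply]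
    split_ifs with h1 h2 h3
    · exact absurd (h2.symm.trans h3) hii
    all_goals simp

private theorem Rank_E_rank {n : ℕ} (m : Fin n → ℕ) (K : Fin n → Type) [∀ j, Field (K j)]
    (j : Fin n) (b c : Fin (m j)) (j' : Fin n) :
    (Rank_E m K ⟨j, b⟩ j').rank = (Rank_E m K ⟨j, c⟩ j').rank := by
  classical
  by_cases hj : j' = j
  · subst hj
    have key : ∀ b : Fin (m j'), (Rank_E m K ⟨j', b⟩ j').rank = 1 := by
      intro b
      unfold Rank_E
      rw [Matrix.rank_diagonal]
      rw [Fintype.card_eq_one_iff]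
      refine ⟨⟨b, by simp⟩, ?_⟩
      rintro ⟨y, hy⟩
      apply Subtype.ext
      by_contra hne
      apply hy
      rw [if_neg]
      intro h
      apply hne
      have := (Sigma.mk.inj_iff.1 h).2
      exact eq_of_heq this
    rw [key, key]
  · have key : ∀ b : Fin (m j), Rank_E m K ⟨j, b⟩ j' = 0 := by
      intro b
      unfold Rank_E
      have : (fun b' : Fin (m j') => if (⟨j', b'⟩ : Σ j : Fin n, Fin (m j)) = ⟨j, b⟩ then (1 : K j') else 0) =
          0 := by
        funext b'
        rw [if_neg]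
        · rfl
        · intro h
          exact hj (Sigma.mk.inj_iff.1 h).1
      rw [this, Matrix.diagonal_zero']
    rw [key, key]

theorem exists_rank_weights {F : Type} [Field F] [Fintype F] {R : Type} [Ring R] [Algebra F R]
    {n : ℕ} {m : Fin n → ℕ} {K : Fin n → Type} [∀ j, Field (K j)] [∀ j, Fintype (K j)]
    [∀ j, Algebra F (K j)] (p : R →ₐ[F] (∀ j, Matrix (Fin (m j)) (Fin (m j)) (K j)))
    (hp : Function.Surjective p) (hk : ∀ x, p x = 0 → IsNilpotent x) (a : ℕ)
    (ρ : R →ₐ[F] Matrix (Fin a) (Fin a) F) :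
    ∃ d : Fin n → ℕ, ∀ v : R, (∃ N, 1 ≤ N ∧ v ^ (Fintype.card F ^ N) = v) →
      (ρ v).rank = ∑ j, d j * (p v j).rank := by
  classical
  obtain ⟨ε, hε, hεE⟩ := OrthogonalIdempotents.lift_of_isNilpotent_ker
    (f := p.toRingHom) (fun x hx => hk x (RingHom.mem_ker.1 hx)) (Rank_E_ortho m K) (fun i => by
      obtain ⟨x, hx⟩ := hp (Rank_E m K i)
      exact ⟨x, hx⟩)
  have hεE' : ∀ i, p (ε i) = Rank_E m K i := fun i => congrFun hεE i
  set d : Fin n → ℕ := fun j => if h : 0 < m j then (ρ (ε ⟨j, ⟨0, h⟩⟩)).rank else 0 with hd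
  have hdj : ∀ i : (Σ j : Fin n, Fin (m j)), (ρ (ε i)).rank = d i.1 := by
    rintro ⟨j, b⟩
    have hpos : 0 < m j := b.pos
    simp only [hd]
    rw [dif_pos hpos]
    refine Rank_eq_of_rank p hp hk ρ (hε.idem _) (hε.idem _) (fun j' => ?_)
    rw [hεE', hεE']
    exact Rank_E_rank m K j b ⟨0, hpos⟩ j'
  refine ⟨d, fun v hv => ?_⟩
  obtain ⟨N, hN, hvN⟩ := hv
  set Q := Fintype.card F ^ N with hQ
  have hQ2 : 2 ≤ Q := by
    have h1 : 2 ≤ Fintype.card F := Fintype.one_lt_card
    calc 2 ≤ Fintype.card F := h1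
      _ = Fintype.card F ^ 1 := (pow_one _).symm
      _ ≤ Fintype.card F ^ N := Nat.pow_le_pow_right (by omega) hN
  obtain ⟨t, ht⟩ : ∃ t, Q = t + 2 := ⟨Q - 2, by omega⟩
  rw [ht] at hvN
  set e : R := v ^ (t + 1) with he
  have hev : e * v = v := by
    rw [he, ← pow_succ]
    exact hvN
  have hee : e * e = e := by
    calc e * e = v ^ (t + 2) * v ^ t := by
          rw [he, ← pow_add, ← pow_add]; congr 1; omega
      _ = v * v ^ t := by rw [hvN]
      _ = e := by rw [he, ← pow_succ']
  have hvt : e = v * v ^ t := by rw [he, ← pow_succ']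
  have hrρ : (ρ v).rank = (ρ e).rank := by
    apply le_antisymm
    · conv_lhs => rw [← hev, map_mul]
      exact Matrix.rank_mul_le_left _ _
    · rw [hvt, map_mul]
      exact Matrix.rank_mul_le_left _ _
  have hrp : ∀ j, (p v j).rank = (p e j).rank := by
    intro j
    apply le_antisymm
    · conv_lhs => rw [← hev, map_mul, Pi.mul_apply]
      exact Matrix.rank_mul_le_left _ _
    · rw [hvt, map_mul, Pi.mul_apply]
      exact Matrix.rank_mul_le_left _ _
  rw [hrρ]
  have hpe : ∀ j, p e j * p e j = p e j := by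
    intro j
    rw [← Pi.mul_apply, ← map_mul, hee]
  set s : Finset (Σ j : Fin n, Fin (m j)) :=
    Finset.univ.filter (fun i => (i.2 : ℕ) < (p e i.1).rank) with hs
  have hsum : ∀ j, p (∑ i ∈ s, ε i) j =
      Matrix.diagonal (fun b : Fin (m j) => if (b : ℕ) < (p e j).rank then (1 : K j) else 0) := by
    intro j
    rw [map_sum, Finset.sum_apply]
    simp only [hεE']
    unfold Rank_E
    ext b c
    rw [Matrix.sum_apply]
    simp only [Matrix.diagonal_apply]
    by_cases hbc : b = c
    · subst hbc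
      simp only [if_true]
      rw [Finset.sum_ite_eq]
      congr 1
      rw [hs, Finset.mem_filter]
      simp
    · simp only [if_neg hbc]
      exact Finset.sum_const_zero
  have h1 : (ρ e).rank = (ρ (∑ i ∈ s, ε i)).rank := by
    refine Rank_eq_of_rank p hp hk ρ hee hε.isIdempotentElem_sum (fun j => ?_)
    rw [hsum, Rank_diag _ (hpe j)]
  have h2 : OrthogonalIdempotents (fun i => ρ (ε i)) := OrthogonalIdempotents.map ρ.toRingHom hε
  rw [h1, map_sum, Rank_sum _ h2]
  simp only [hdj]
  rw [hs, Finset.sum_filter, ← Finset.univ_sigma_univ, Finset.sum_sigma]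
  refine Finset.sum_congr rfl fun j _ => ?_
  simp only
  have hle : (p e j).rank ≤ m j := by
    have := Matrix.rank_le_width (p e j)
    simpa using this
  rw [Rank_count hle, hrp]

end Pool.Agent.H27.KAC

end

section

/-!
Project KAC, part I.1, module PI_Wed: a finite algebra modulo its radical.

PROOF SKETCH.  `R` is Artinian, so semiprimary (`IsSemiprimaryRing`, instance for Artinian rings): the Jacobson radical
is nilpotent and `R ⧸ Ring.jacobson R` is semisimple;
`IsSemisimpleRing.exists_algEquiv_pi_matrix_divisionRing_finite F _` and `littleWedderburn` (a finite division ring is a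
field).
-/

set_option autoImplicit false

namespace Pool.Agent.H27.KAC

open scoped BigOperators
open Polynomial

theorem exists_wed (F : Type) [Field F] [Fintype F] (R : Type) [Ring R] [Algebra F R] [Finite R] :
    ∃ (n : ℕ) (m : Fin n → ℕ) (K : Fin n → Type) (_ : ∀ j, Field (K j)) (_ : ∀ j, Fintype (K j))
      (_ : ∀ j, Algebra F (K j)) (p : R →ₐ[F] (∀ j, Matrix (Fin (m j)) (Fin (m j)) (K j))),
      (∀ j, 1 ≤ m j) ∧ Function.Surjective p ∧ ∀ x, p x = 0 → IsNilpotent x := by
  haveI : IsArtinianRing R := inferInstance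
  haveI : Finite (R ⧸ Ring.jacobson R) := Finite.of_surjective _ Ideal.Quotient.mk_surjective
  haveI : Module.Finite F (R ⧸ Ring.jacobson R) := Module.Finite.of_finite
  obtain ⟨n, D, d, _, _, hfin, hd, ⟨e⟩⟩ :=
    IsSemisimpleRing.exists_algEquiv_pi_matrix_divisionRing_finite F (R ⧸ Ring.jacobson R)
  haveI : ∀ i, Finite (D i) := fun i => Module.finite_of_finite F
  refine ⟨n, d, D, fun i => littleWedderburn (D i), fun i => Fintype.ofFinite (D i), fun i => inferInstance,
    e.toAlgHom.comp (Ideal.Quotient.mkₐ F (Ring.jacobson R)), ?_, ?_, ?_⟩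
  · intro j
    haveI := hd j
    exact Nat.one_le_iff_ne_zero.2 (NeZero.ne (d j))
  · intro y
    obtain ⟨z, hz⟩ := e.surjective y
    obtain ⟨x, hx⟩ := Ideal.Quotient.mkₐ_surjective F (Ring.jacobson R) z
    exact ⟨x, by rw [← hz, ← hx]; rfl⟩
  · intro x hx
    have h1 : Ideal.Quotient.mkₐ F (Ring.jacobson R) x = 0 := by
      apply e.injective
      rw [map_zero]
      exact hx
    have h2 : x ∈ Ring.jacobson R := Ideal.Quotient.eq_zero_iff_mem.1 h1
    obtain ⟨k, hk⟩ := IsSemiprimaryRing.isNilpotent (R := R)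
    refine ⟨k, ?_⟩
    have h3 : x ^ k ∈ (Ring.jacobson R) ^ k := Ideal.pow_mem_pow h2 k
    rw [hk] at h3
    simpa using h3

end Pool.Agent.H27.KAC

end

section

/-!
KAC ADE, Knit numbers: the standard graphs and the numbers `e_k` (`e_0 = 0`, `e_1 = κ`, `e_{k+2} + e_k = A e_{k+1}`).
-/

set_option autoImplicit false

namespace Pool.H88.KA

open scoped BigOperators

/-- The standard graph: `0, …, n - 2` is a chain and `n - 1` is attached to `c`.
`A_n = TT n (n - 2)`, `D_n = TT n (n - 3)`, `E_n = TT n 2`. -/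
def TT (n c : ℕ) (i j : Fin n) : ℕ :=
  if (i.1 + 1 = j.1 ∧ j.1 + 2 ≤ n) ∨ (j.1 + 1 = i.1 ∧ i.1 + 2 ≤ n) ∨
    (i.1 = c ∧ j.1 + 1 = n ∧ i.1 ≠ j.1) ∨ (j.1 = c ∧ i.1 + 1 = n ∧ i.1 ≠ j.1) then 1 else 0

theorem sum_single_fin (n t : ℕ) (F : ℕ → ℤ) :
    (∑ j : Fin n, if j.1 = t then F j.1 else 0) = if t < n then F t else 0 := by
  split_ifs with h
  · rw [Finset.sum_eq_single ⟨t, h⟩]
    · simp
    · intro j _ hj
      rw [if_neg]
      intro hc
      exact hj (Fin.ext hc)
    · intro hc
      exact absurd (Finset.mem_univ _) hc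
  · apply Finset.sum_eq_zero
    intro j _
    rw [if_neg]
    have := j.2
    omega

/-- neighbour sums. -/
theorem TT_sum (n c : ℕ) (hc : c + 2 ≤ n) (F : ℕ → ℤ) (i : Fin n) :
    ∑ j, (TT n c i j : ℤ) * F j.1 =
      if i.1 + 1 = n then F c else
        (if 1 ≤ i.1 then F (i.1 - 1) else 0) + (if i.1 + 3 ≤ n then F (i.1 + 1) else 0) +
          (if i.1 = c then F (n - 1) else 0) := by
  have h1 : ∀ j : Fin n, (TT n c i j : ℤ) * F j.1 =
      (if i.1 + 1 = n then (if j.1 = c then F j.1 else 0) else 0) +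
      (if i.1 + 1 = n then 0 else
        ((if j.1 = i.1 - 1 then (if 1 ≤ i.1 then F j.1 else 0) else 0) +
        (if j.1 = i.1 + 1 then (if i.1 + 3 ≤ n then F j.1 else 0) else 0) +
        (if j.1 = n - 1 then (if i.1 = c then F j.1 else 0) else 0))) := by
    intro j
    have hi := i.2
    have hj := j.2
    unfold TT
    split_ifs <;> omega
  rw [Finset.sum_congr rfl fun j _ => h1 j, Finset.sum_add_distrib]
  have hi := i.2
  by_cases h : i.1 + 1 = n
  · simp only [if_pos h, Finset.sum_const_zero, add_zero, sum_single_fin]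
    rw [if_pos (by omega)]
  · simp only [if_neg h, Finset.sum_const_zero, zero_add, Finset.sum_add_distrib]
    rw [sum_single_fin n (i.1 - 1) (fun t => if 1 ≤ i.1 then F t else 0),
      sum_single_fin n (i.1 + 1) (fun t => if i.1 + 3 ≤ n then F t else 0),
      sum_single_fin n (n - 1) (fun t => if i.1 = c then F t else 0)]
    have h2 : i.1 + 1 < n := by omega
    have h3 : i.1 - 1 < n := by omega
    have h4 : n - 1 < n := by omega
    simp only [if_pos h2, if_pos h3, if_pos h4]

/-! ### type A -/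

/-! ### even Coxeter number: it is enough to know one half -/

/-! ### type D -/

end Pool.H88.KA

end

section

/-!
KAC ADE, Knit numbers: the standard graphs and the numbers `e_k` (`e_0 = 0`, `e_1 = κ`, `e_{k+2} + e_k = A e_{k+1}`).
-/

set_option autoImplicit false

namespace Pool.H88.KA

open scoped BigOperators

/-- the numbers `e_k`. -/
structure KE {N : Type} [Fintype N] (a : N → N → ℕ) (h : ℕ) (κ : ℤ) (e : ℕ → N → ℤ) : Prop where
  two_le : 2 ≤ h
  kap : 0 < κ
  zero : ∀ x, e 0 x = 0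
  one : ∀ x, e 1 x = κ
  knit : ∀ k x, k + 2 ≤ h → e (k + 2) x + e k x = ∑ y, (a x y : ℤ) * e (k + 1) y
  pos : ∀ k x, 1 ≤ k → k < h → 0 < e k x
  last : ∀ x, e h x = 0

/-! ### type A -/

/-- `2 e_k` for `A_n`, `h = n + 1`. -/
def eA (n : ℤ) (k x : ℤ) : ℤ := n + 1 - |x - k| - |n + 1 - x - k|

theorem eA_wave (n k x : ℤ) : eA n (k + 2) x + eA n k x = eA n (k + 1) (x - 1) + eA n (k + 1) (x + 1) := by
  unfold eA
  have e1 : x - 1 - (k + 1) = x - (k + 2) := by ring
  have e2 : n + 1 - (x - 1) - (k + 1) = n + 1 - x - k := by ring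
  have e3 : x + 1 - (k + 1) = x - k := by ring
  have e4 : n + 1 - (x + 1) - (k + 1) = n + 1 - x - (k + 2) := by ring
  rw [e1, e2, e3, e4]
  ring

theorem eA_zero (n k : ℤ) (h0 : 0 ≤ k) (h1 : k ≤ n + 1) : eA n k 0 = 0 := by
  unfold eA
  rw [abs_of_nonpos (by linarith), abs_of_nonneg (by linarith)]
  ring

theorem eA_top (n k : ℤ) (h0 : 0 ≤ k) (h1 : k ≤ n + 1) : eA n k (n + 1) = 0 := by
  unfold eA
  rw [abs_of_nonneg (by linarith), abs_of_nonpos (by linarith)]
  ring

theorem KE_A (n : ℕ) (hn : 2 ≤ n) :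
    KE (TT n (n - 2)) (n + 1) 2 (fun k i => eA n k ((i.1 : ℤ) + 1)) := by
  refine ⟨by omega, by norm_num, ?_, ?_, ?_, ?_, ?_⟩
  · intro x
    have hx := x.2
    unfold eA
    push_cast
    rw [abs_of_nonneg (by omega), abs_of_nonneg (by omega)]
    ring
  · intro x
    have hx := x.2
    unfold eA
    push_cast
    rw [abs_of_nonneg (by omega), abs_of_nonneg (by omega)]
    ring
  · intro k x hk
    have hx := x.2
    have hw := eA_wave n k ((x.1 : ℤ) + 1)
    have h0 := eA_zero n ((k : ℤ) + 1) (by omega) (by omega)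
    have h1 := eA_top n ((k : ℤ) + 1) (by omega) (by omega)
    rw [TT_sum n (n - 2) (by omega) (fun j => eA n ((k + 1 : ℕ) : ℤ) ((j : ℤ) + 1)) x]
    push_cast
    rw [hw]
    have g1 : ((x.1 : ℤ) + 1 - 1) = x.1 := by ring
    rw [g1]
    by_cases c1 : x.1 + 1 = n
    · rw [if_pos c1]
      have g2 : ((x.1 : ℤ) + 1 + 1) = n + 1 := by omega
      have g3 : (((n - 2 : ℕ) : ℤ) + 1) = x.1 := by omega
      rw [g2, g3, h1, add_zero]
    · rw [if_neg c1]
      by_cases c2 : 1 ≤ x.1
      · rw [if_pos c2]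
        have g4 : (((x.1 - 1 : ℕ) : ℤ) + 1) = x.1 := by omega
        rw [g4]
        by_cases c3 : x.1 + 3 ≤ n
        · rw [if_pos c3, if_neg (by omega)]
          ring
        · rw [if_neg c3, if_pos (by omega)]
          have g5 : (((n - 1 : ℕ) : ℤ) + 1) = (x.1 : ℤ) + 1 + 1 := by omega
          rw [g5]
          ring
      · rw [if_neg c2]
        have g6 : (x.1 : ℤ) = 0 := by omega
        by_cases c3 : x.1 + 3 ≤ n
        · rw [if_pos c3, if_neg (by omega), g6, h0]
          ring
        · rw [if_neg c3, if_pos (by omega)]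
          have g5 : (((n - 1 : ℕ) : ℤ) + 1) = (x.1 : ℤ) + 1 + 1 := by omega
          rw [g5, g6, h0]
          ring
  · intro k x hk hk'
    have hx := x.2
    have hk1 : (1 : ℤ) ≤ k := by exact_mod_cast hk
    have hk2 : (k : ℤ) < n + 1 := by exact_mod_cast hk'
    have hx0 : (0 : ℤ) ≤ x.1 := by positivity
    have hx1 : (x.1 : ℤ) < n := by exact_mod_cast hx
    unfold eA
    rcases abs_cases ((x.1 : ℤ) + 1 - k) with ⟨h1, _⟩ | ⟨h1, _⟩ <;>
      rcases abs_cases ((n : ℤ) + 1 - ((x.1 : ℤ) + 1) - k) with ⟨h2, _⟩ | ⟨h2, _⟩ <;>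
      rw [h1, h2] <;> linarith
  · intro x
    have hx := x.2
    unfold eA
    push_cast
    rw [abs_of_nonpos (by omega), abs_of_nonpos (by omega)]
    ring

theorem KE_A1 : KE (TT 1 0) 2 1 (fun k _ => if k = 1 then 1 else 0) := by
  refine ⟨le_rfl, by norm_num, by simp, by simp, ?_, ?_, by simp⟩
  · intro k x hk
    have hk0 : k = 0 := by omega
    subst hk0
    have hx : x = 0 := Subsingleton.elim _ _
    subst hx
    simp [TT]
  · intro k x hk hk'
    have : k = 1 := by omega
    subst this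
    simp

/-! ### even Coxeter number: it is enough to know one half -/

/-- reflection of the index `k`. -/
theorem KE_half {N : Type} [Fintype N] (a : N → N → ℕ) (M : ℕ) (hM : 1 ≤ M) (κ : ℤ) (hκ : 0 < κ)
    (e : ℕ → N → ℤ) (h0 : ∀ x, e 0 x = 0) (h1 : ∀ x, e 1 x = κ)
    (hrec : ∀ k x, k + 2 ≤ M → e (k + 2) x + e k x = ∑ y, (a x y : ℤ) * e (k + 1) y)
    (hmid : ∀ k x, k + 1 = M → 2 * e k x = ∑ y, (a x y : ℤ) * e (k + 1) y)
    (hpos : ∀ k x, 1 ≤ k → k ≤ M → 0 < e k x) :
    KE a (2 * M) κ (fun k => e (min k (2 * M - k))) := by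
  refine ⟨by omega, hκ, ?_, ?_, ?_, ?_, ?_⟩
  · intro x
    simpa using h0 x
  · intro x
    show e (min 1 (2 * M - 1)) x = κ
    rw [Nat.min_eq_left (by omega)]
    exact h1 x
  · intro k x hk
    show e (min (k + 2) (2 * M - (k + 2))) x + e (min k (2 * M - k)) x =
      ∑ y, (a x y : ℤ) * e (min (k + 1) (2 * M - (k + 1))) y
    rcases lt_trichotomy (k + 1) M with h | h | h
    · rw [Nat.min_eq_left (by omega), Nat.min_eq_left (by omega), Nat.min_eq_left (by omega)]
      exact hrec k x (by omega)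
    · have e1 : min (k + 2) (2 * M - (k + 2)) = k := by omega
      have e2 : min k (2 * M - k) = k := by omega
      have e3 : min (k + 1) (2 * M - (k + 1)) = k + 1 := by omega
      rw [e1, e2, e3, ← hmid k x h]
      ring
    · obtain ⟨r, hr⟩ : ∃ r, r = 2 * M - (k + 2) := ⟨_, rfl⟩
      have e1 : min (k + 2) (2 * M - (k + 2)) = r := by omega
      have e2 : min k (2 * M - k) = r + 2 := by omega
      have e3 : min (k + 1) (2 * M - (k + 1)) = r + 1 := by omega
      rw [e1, e2, e3, ← hrec r x (by omega)]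
      ring
  · intro k x hk hk'
    exact hpos _ x (by omega) (by omega)
  · intro x
    show e (min (2 * M) (2 * M - 2 * M)) x = 0
    rw [Nat.sub_self, Nat.min_zero]
    exact h0 x

/-! ### type D -/

/-- value on the chain. -/
def eT (n k x : ℕ) : ℕ := min x k + (if n ≤ x + k ∧ (x + k - n) % 2 = 0 then 1 else 0)

theorem eT1 (n k x : ℕ) (hn : 4 ≤ n) (hk : k + 2 ≤ n - 1) (hx : x = 1) :
    eT n (k + 2) x + eT n k x = eT n (k + 1) (x + 1) := by
  unfold eT
  split_ifs <;> omega

theorem eT2 (n k x : ℕ) (_hn : 4 ≤ n) (_hk : k + 2 ≤ n - 1) (hx : 2 ≤ x) (_hx2 : x + 3 ≤ n) :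
    eT n (k + 2) x + eT n k x = eT n (k + 1) (x - 1) + eT n (k + 1) (x + 1) := by
  unfold eT
  split_ifs <;> omega

theorem eT3 (n k x : ℕ) (hn : 4 ≤ n) (hk : k + 2 ≤ n - 1) (hx : x + 2 = n) :
    eT n (k + 2) x + eT n k x = eT n (k + 1) (x - 1) + 2 * ((k + 2) / 2) := by
  unfold eT
  split_ifs <;> omega

theorem eT4 (n k : ℕ) (hn : 4 ≤ n) (hk : k + 2 ≤ n - 1) :
    (k + 3) / 2 + (k + 1) / 2 = eT n (k + 1) (n - 2) := by
  unfold eT
  split_ifs <;> omega

theorem eT1' (n k x : ℕ) (hn : 4 ≤ n) (hk : k + 1 = n - 1) (hx : x = 1) :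
    2 * eT n k x = eT n (k + 1) (x + 1) := by
  unfold eT
  split_ifs <;> omega

theorem eT2' (n k x : ℕ) (hn : 4 ≤ n) (hk : k + 1 = n - 1) (hx : 2 ≤ x) (hx2 : x + 3 ≤ n) :
    2 * eT n k x = eT n (k + 1) (x - 1) + eT n (k + 1) (x + 1) := by
  unfold eT
  split_ifs <;> omega

theorem eT3' (n k x : ℕ) (hn : 4 ≤ n) (hk : k + 1 = n - 1) (hx : x + 2 = n) :
    2 * eT n k x = eT n (k + 1) (x - 1) + 2 * ((k + 2) / 2) := by
  unfold eT
  split_ifs <;> omega

theorem eT4' (n k : ℕ) (hn : 4 ≤ n) (hk : k + 1 = n - 1) :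
    2 * ((k + 1) / 2) = eT n (k + 1) (n - 2) := by
  unfold eT
  split_ifs <;> omega

/-- `e_k` for `D_n`, `k ≤ n - 1`. -/
def eD (n k i : ℕ) : ℤ := if i + 3 ≤ n then (eT n k (i + 1) : ℤ) else (((k + 1) / 2 : ℕ) : ℤ)

theorem eD_nb (n k : ℕ) (hn : 4 ≤ n) (i : Fin n) :
    ∑ j, (TT n (n - 3) i j : ℤ) * eD n (k + 1) j.1 =
      if n ≤ i.1 + 2 then (eT n (k + 1) (n - 2) : ℤ) else
      if i.1 + 3 = n then (eT n (k + 1) (i.1) : ℤ) + 2 * (((k + 2) / 2 : ℕ) : ℤ) else
      if i.1 = 0 then (eT n (k + 1) (i.1 + 2) : ℤ) else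
        (eT n (k + 1) i.1 : ℤ) + (eT n (k + 1) (i.1 + 2) : ℤ) := by
  have hi := i.2
  have h0 : eT n (k + 1) 0 = if n ≤ 0 + (k + 1) ∧ (0 + (k + 1) - n) % 2 = 0 then 1 else 0 := by
    unfold eT
    rw [Nat.zero_min, zero_add]
  rw [TT_sum n (n - 3) (by omega) (eD n (k + 1)) i]
  by_cases c1 : i.1 + 1 = n
  · rw [if_pos c1, if_pos (by omega)]
    unfold eD
    rw [if_pos (by omega)]
    congr 2
    omega
  · rw [if_neg c1]
    by_cases c2 : i.1 + 2 = n
    · rw [if_pos (by omega : n ≤ i.1 + 2), if_pos (by omega), if_neg (by omega),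
        if_neg (by omega), add_zero, add_zero]
      unfold eD
      rw [if_pos (by omega)]
      congr 2
      omega
    · rw [if_neg (by omega : ¬ n ≤ i.1 + 2)]
      by_cases c3 : i.1 + 3 = n
      · rw [if_pos c3, if_pos (by omega), if_pos (by omega), if_pos (by omega)]
        unfold eD
        rw [if_pos (by omega), if_neg (by omega), if_neg (by omega)]
        have g : i.1 - 1 + 1 = i.1 := by omega
        rw [g]
        ring
      · rw [if_neg c3, if_pos (by omega : i.1 + 3 ≤ n), if_neg (by omega : ¬ i.1 = n - 3), add_zero]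
        by_cases c4 : i.1 = 0
        · rw [if_neg (by omega), if_pos c4, zero_add]
          unfold eD
          rw [if_pos (by omega)]
        · rw [if_pos (by omega), if_neg c4]
          unfold eD
          rw [if_pos (by omega), if_pos (by omega)]
          have g : i.1 - 1 + 1 = i.1 := by omega
          rw [g]

theorem KE_D (n : ℕ) (hn : 4 ≤ n) :
    ∃ e, KE (TT n (n - 3)) (2 * n - 2) 1 e := by
  have h2 : 2 * n - 2 = 2 * (n - 1) := by omega
  rw [h2]
  refine ⟨_, KE_half (TT n (n - 3)) (n - 1) (by omega) 1 one_pos (fun k i => eD n k i.1)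
    ?_ ?_ ?_ ?_ ?_⟩
  · intro x
    have hx := x.2
    show eD n 0 x.1 = 0
    unfold eD eT
    split_ifs <;> first | omega | rfl
  · intro x
    have hx := x.2
    show eD n 1 x.1 = 1
    unfold eD eT
    split_ifs <;> first | omega | rfl
  · intro k x hk
    have hx := x.2
    rw [eD_nb n k hn x]
    show eD n (k + 2) x.1 + eD n k x.1 = _
    unfold eD
    by_cases c1 : n ≤ x.1 + 2
    · rw [if_neg (by omega), if_neg (by omega), if_pos c1]
      have := eT4 n k hn hk
      have g : k + 2 + 1 = k + 3 := by omega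
      rw [g]
      exact_mod_cast this
    · rw [if_pos (by omega), if_pos (by omega), if_neg c1]
      by_cases c3 : x.1 + 3 = n
      · rw [if_pos c3]
        have := eT3 n k (x.1 + 1) hn hk (by omega)
        rw [Nat.add_sub_cancel] at this
        exact_mod_cast this
      · rw [if_neg c3]
        by_cases c4 : x.1 = 0
        · rw [if_pos c4]
          have := eT1 n k (x.1 + 1) hn hk (by omega)
          exact_mod_cast this
        · rw [if_neg c4]
          have := eT2 n k (x.1 + 1) hn hk (by omega) (by omega)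
          rw [Nat.add_sub_cancel] at this
          exact_mod_cast this
  · intro k x hk
    have hx := x.2
    rw [eD_nb n k hn x]
    show 2 * eD n k x.1 = _
    unfold eD
    by_cases c1 : n ≤ x.1 + 2
    · rw [if_neg (by omega), if_pos c1]
      have := eT4' n k hn hk
      exact_mod_cast this
    · rw [if_pos (by omega), if_neg c1]
      by_cases c3 : x.1 + 3 = n
      · rw [if_pos c3]
        have := eT3' n k (x.1 + 1) hn hk (by omega)
        rw [Nat.add_sub_cancel] at this
        exact_mod_cast this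
      · rw [if_neg c3]
        by_cases c4 : x.1 = 0
        · rw [if_pos c4]
          have := eT1' n k (x.1 + 1) hn hk (by omega)
          exact_mod_cast this
        · rw [if_neg c4]
          have := eT2' n k (x.1 + 1) hn hk (by omega) (by omega)
          rw [Nat.add_sub_cancel] at this
          exact_mod_cast this
  · intro k x hk hk'
    have hx := x.2
    show 0 < eD n k x.1
    unfold eD eT
    split_ifs <;> omega

end Pool.H88.KA

end

section

/-!
KAC ADE: from the numbers `e_k` to `Knit`.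
-/

set_option autoImplicit false

namespace Pool.H88.KA

open scoped BigOperators
open Matrix

variable {N : Type} [Fintype N] [DecidableEq N]

/-- `(C v)_x`, `C = 2 - a`. -/
def cZ (a : N → N → ℕ) (v : N → ℤ) (x : N) : ℤ := 2 * v x - ∑ y, (a x y : ℤ) * v y

/-- positive definiteness of `C = 2 - a`. -/
def PD (a : N → N → ℕ) : Prop := ∀ v : N → ℤ, v ≠ 0 → 0 < ∑ x, v x * cZ a v x

end Pool.H88.KA

end
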