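import Pool.Agent.H16.TKA.M03
import Pool.Agent.H16.TKA.M09
import Pool.Agent.H16.TKA.M10
import Pool.Agent.H16.TKA.M11
import Pool.Agent.H16.TKA.M13

/-! The parts of this file: H10.KAC.Transfer, H10.KAC.Loc, H27.KAC.KG3, H27.KAC.KGDefs, H27.KAC.KL6, H27.KAC.PII_Def, H27.KAC.PII_Eul, H27.KAC.PII_Exp, H27.KAC.PII_Hom, H27.KAC.PII_Num, H27.KAC.PI_Cent, H27.KAC.PI_Fib, H27.KAC.PR_Rel, H40.KADE.E1d, H46.AH.AH0, H46.KA.B5, H46.KA.NumDefs, H88.KA.CN0, H88.KA.KN2, H88.KA.KN3_1, H88.KA.KN4. -/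

section

/-!
Run lemma, module 4: transfer of the universal run lemma to a commutative ring.

`F 0, F 1, F 2, ...` are the values `Q_{x, j-2}, Q_{x, j-1}, Q_{x, j}, ...`.
-/

namespace Pool.Agent.H10.KAC

open scoped BigOperators
open MvPolynomial

variable {N : Type} [Fintype N] [DecidableEq N]

/-- a system in a commutative ring `A` (levels `0, ..., h + 1`). -/
structure RSys (a : N → N → ℕ) (h : ℕ) (A : Type) [CommRing A] (F c r g : ℕ → N → A) : Prop where
  u : ∀ x, IsUnit (F 1 x)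
  nz : ∀ k x, 1 ≤ k → k ≤ h → F k x ∈ nonZeroDivisors A
  q : ∀ k x, k < h → F (k + 2) x * F k x = F (k + 1) x ^ 2 - c (k + 1) x * ∏ y, F (k + 1) y ^ a x y
  c : ∀ k x, k + 1 < h → c (k + 2) x = c (k + 1) x * r (k + 1) x
  r : ∀ k x, k + 1 < h → r (k + 2) x = r (k + 1) x + F (k + 2) x * g k x

/-- The homomorphism from the universal ring. -/
theorem run_hom {a : N → N → ℕ} (hs : ∀ x y, a x y = a y x) (ha : ∀ x, a x x = 0) {h : ℕ}
    {A : Type} [CommRing A] {F c r g : ℕ → N → A} (S : RSys a h A F c r g) :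
    ∃ φ : VV N →+* A, (∀ k, k ≤ h → ∀ x, φ (Qu a hs ha k x) * F 1 x = F (k + 1) x) ∧
      (∀ v ∈ Iq N, φ v ∈ Ideal.span (Set.range (F 2))) ∧
      (∀ n : ℤ, φ (C n) = (n : A)) ∧ (∀ x, φ (X (x, 2)) = r 1 x) := by
  choose zi hzi using fun x => (S.u x).exists_right_inv
  let v : N × ℕ → A := fun p => match p.2 with
    | 0 => F 2 p.1 * zi p.1
    | 1 => F 0 p.1 * zi p.1
    | 2 => r 1 p.1
    | k + 3 => F 1 p.1 * g k p.1
  let φ : VV N →+* A := eval₂Hom (algebraMap ℤ A) v
  have φ0 : ∀ x, φ (X (x, 0)) = F 2 x * zi x := fun x => by simp [φ, v]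
  have φ1 : ∀ x, φ (X (x, 1)) = F 0 x * zi x := fun x => by simp [φ, v]
  have φ2 : ∀ x, φ (X (x, 2)) = r 1 x := fun x => by simp [φ, v]
  have φ3 : ∀ k x, φ (X (x, k + 3)) = F 1 x * g k x := fun k x => by simp [φ, v]
  have φC : ∀ n : ℤ, φ (C n) = (n : A) := fun n => by simp [φ]
  let κ : N → A := fun x => (∏ y, F 1 y ^ a x y) * zi x ^ 2
  have main : ∀ k, k ≤ h → (∀ x, φ (Qu a hs ha k x) * F 1 x = F (k + 1) x) ∧
      (∀ x, k < h → φ (cu a hs ha k x) = c (k + 1) x * κ x) ∧
      (∀ x, 1 ≤ k → k < h → φ (ru a hs ha k x) = r k x) := by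
    intro k
    induction k using Nat.strong_induction_on with
    | _ k ih =>
      match k, ih with
      | 0, _ =>
        intro _
        refine ⟨fun x => by rw [Qu_zero, map_one, one_mul], fun x hh => ?_,
          fun x h0 => absurd h0 (by norm_num)⟩
        rw [cu_zero, map_sub, map_mul, map_one, φ0, φ1]
        have e1 := S.q 0 x hh
        have e2 := hzi x
        simp only [zero_add] at e1
        simp only [κ, zero_add]
        linear_combination (-(F 1 x * zi x + 1)) * e2 - zi x ^ 2 * e1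
      | 1, ih =>
        intro hh
        have i0 := ih 0 (by norm_num) (by omega)
        refine ⟨fun x => ?_, fun x h3 => ?_, fun x _ h3 => by rw [ru_one, φ2]⟩
        · rw [Qu_one, φ0, mul_assoc, mul_comm (zi x), hzi, mul_one]
        · rw [cu_succ, map_mul, i0.2.1 x (by omega), ru_one, φ2, S.c 0 x h3]
          ring
      | k + 2, ih =>
        intro hh
        have i0 := ih k (by omega) (by omega)
        have i1 := ih (k + 1) (by omega) (by omega)
        have hr : ∀ x, k + 2 < h → φ (ru a hs ha (k + 2) x) = r (k + 2) x := by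
          intro x h3
          rw [ru_succ, map_add, map_mul, i1.2.2 x (by omega) (by omega), φ3,
            S.r k x (by omega), ← i1.1 x]
          ring
        refine ⟨fun x => ?_, fun x h3 => ?_, fun x _ h3 => hr x h3⟩
        · have e1 := congrArg φ (Qu_rec a hs ha k x)
          rw [map_mul, map_sub, map_mul, map_pow, map_prod, i1.2.1 x (by omega)] at e1
          simp only [map_pow] at e1
          have e2 := S.q (k + 1) x (by omega)
          have e3 := hzi x
          have e4 : (∏ y, F 1 y ^ a x y) * (∏ y, φ (Qu a hs ha (k + 1) y) ^ a x y) =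
              ∏ y, F (k + 2) y ^ a x y := by
            rw [← Finset.prod_mul_distrib]
            refine Finset.prod_congr rfl (fun y _ => ?_)
            rw [← mul_pow, mul_comm, i1.1 y]
          have e5 := i0.1 x
          have e6 := i1.1 x
          have e7 : F (k + 1) x * (φ (Qu a hs ha (k + 2) x) * F 1 x) =
              F (k + 1) x * F (k + 2 + 1) x := by
            have e8 : F (k + 1) x * (φ (Qu a hs ha (k + 2) x) * F 1 x) =
                (φ (Qu a hs ha (k + 2) x) * φ (Qu a hs ha k x)) * F 1 x ^ 2 := by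
              rw [← e5]
              ring
            rw [e8, e1]
            have e9 : F (k + 1) x * F (k + 2 + 1) x = F (k + 1 + 2) x * F (k + 1) x := mul_comm _ _
            rw [e9, e2, ← e4, show k + 1 + 1 = k + 2 from rfl, ← e6]
            simp only [κ]
            have e10 : zi x ^ 2 * F 1 x ^ 2 = 1 := by
              rw [← mul_pow, mul_comm, e3, one_pow]
            linear_combination (-(c (k + 2) x * (∏ y, F 1 y ^ a x y) *
              ∏ y, φ (Qu a hs ha (k + 1) y) ^ a x y)) * e10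
          exact (mem_nonZeroDivisors_iff_right.mp (S.nz (k + 1) x (by omega) (by omega))
            (φ (Qu a hs ha (k + 2) x) * F 1 x - F (k + 2 + 1) x)
            (by rw [sub_mul, sub_eq_zero, mul_comm, e7, mul_comm])) |> sub_eq_zero.mp
        · rw [cu_succ, map_mul, i1.2.1 x (by omega), hr x h3, S.c (k + 1) x (by omega)]
          ring
  have hI : Iq N ≤ Ideal.comap φ (Ideal.span (Set.range (F 2))) := by
    rw [Iq, Ideal.span_le]
    rintro _ ⟨y, rfl⟩
    change φ (X (y, 0)) ∈ Ideal.span (Set.range (F 2))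
    rw [φ0]
    exact Ideal.mul_mem_right _ _ (Ideal.subset_span ⟨y, rfl⟩)
  exact ⟨φ, fun k hk x => (main k hk).1 x, fun v hv => Ideal.mem_comap.mp (hI hv), φC, φ2⟩

/-- The run lemma in a commutative ring. -/
theorem run_transfer {a : N → N → ℕ} (hs : ∀ x y, a x y = a y x) (ha : ∀ x, a x x = 0) {h : ℕ}
    {A : Type} [CommRing A] {F c r g : ℕ → N → A} (S : RSys a h A F c r g)
    {ε : N → ℤ} {R : N → N → ℕ}
    (h1 : ∀ k x, 1 ≤ k → k < h → Qu a hs ha k x ∈ Iq N)
    (h2 : ∀ x, Qu a hs ha h x - C (ε x) * ∏ z, X (z, 2) ^ R x z ∈ Iq N) :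
    (∀ k x, 1 ≤ k → k < h → F (k + 1) x ∈ Ideal.span (Set.range (F 2))) ∧
    (∀ x, F (h + 1) x - (ε x : A) * F 1 x * ∏ z, r 1 z ^ R x z ∈ Ideal.span (Set.range (F 2))) := by
  obtain ⟨φ, main, hI, φC, φ2⟩ := run_hom hs ha S
  refine ⟨fun k x hk1 hk2 => ?_, fun x => ?_⟩
  · rw [← main k hk2.le x]
    exact Ideal.mul_mem_right _ _ (hI _ (h1 k x hk1 hk2))
  · have e1 := Ideal.mul_mem_right (F 1 x) _ (hI _ (h2 x))
    rw [map_sub, map_mul, map_prod, φC] at e1
    simp only [map_pow, φ2] at e1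
    rw [sub_mul, main h le_rfl x] at e1
    have e2 : (ε x : A) * F 1 x * ∏ z, r 1 z ^ R x z =
        (ε x : A) * (∏ z, r 1 z ^ R x z) * F 1 x := by ring
    rw [e2]
    exact e1

/-- Short systems. -/
theorem run_short {a : N → N → ℕ} (hs : ∀ x y, a x y = a y x) (ha : ∀ x, a x x = 0) {n : ℕ}
    {A : Type} [CommRing A] {F c r g : ℕ → N → A} (S : RSys a n A F c r g)
    (h1 : ∀ k x, 1 ≤ k → k ≤ n → Qu a hs ha k x ∈ Iq N) :
    ∀ k x, 1 ≤ k → k ≤ n → F (k + 1) x ∈ Ideal.span (Set.range (F 2)) := by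
  obtain ⟨φ, main, hI, φC, φ2⟩ := run_hom hs ha S
  intro k x hk1 hk2
  rw [← main k hk2 x]
  exact Ideal.mul_mem_right _ _ (hI _ (h1 k x hk1 hk2))

end Pool.Agent.H10.KAC

end

section

/-!
Run lemma, module 6: the run lemma in a ring `O` after inverting one element `s`.
-/

namespace Pool.Agent.H10.KAC

open scoped BigOperators

section

variable {O : Type} [CommRing O] (s : O)

/-- the localisation. -/
abbrev LA : Type := Localization.Away s

/-- the localisation map. -/
noncomputable abbrev lm : O →+* LA s := algebraMap O (LA s)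

theorem lm_unit {x : O} (n : ℕ) (h : x ∣ s ^ n) : IsUnit (lm s x) :=
  (IsLocalization.Away.algebraMap_isUnit_iff (x := s) (S := LA s)).mpr ⟨n, h⟩

theorem lm_nz {x : O} (h : x ∈ nonZeroDivisors O) : lm s x ∈ nonZeroDivisors (LA s) :=
  IsLocalization.map_nonZeroDivisors_le (Submonoid.powers s) (LA s) (Submonoid.mem_map_of_mem _ h)

theorem lm_mem {ι : Type} (f : ι → O) {x : O}
    (h : lm s x ∈ Ideal.span (Set.range (fun i => lm s (f i)))) :
    ∃ n : ℕ, s ^ n * x ∈ Ideal.span (Set.range f) := by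
  have h1 : Ideal.span (Set.range (fun i => lm s (f i))) =
      Ideal.map (algebraMap O (LA s)) (Ideal.span (Set.range f)) := by
    rw [Ideal.map_span]
    congr 1
    rw [← Set.range_comp]
    rfl
  rw [h1] at h
  rw [IsLocalization.algebraMap_mem_map_algebraMap_iff (Submonoid.powers s)] at h
  obtain ⟨m, ⟨n, rfl⟩, hm⟩ := h
  exact ⟨n, hm⟩

end

section

variable {N : Type} [Fintype N] [DecidableEq N]

/-- The run lemma in `O`, localised at `s`. -/
theorem run_O {a : N → N → ℕ} (hs : ∀ x y, a x y = a y x) (ha : ∀ x, a x x = 0) {h : ℕ}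
    {O : Type} [CommRing O] {s : O} {F : ℕ → N → O} {c r g : ℕ → N → LA s}
    (S : RSys a h (LA s) (fun k x => lm s (F k x)) c r g)
    {ε : N → ℤ} {R : N → N → ℕ}
    (h1 : ∀ k x, 1 ≤ k → k < h → Qu a hs ha k x ∈ Iq N)
    (h2 : ∀ x, Qu a hs ha h x - MvPolynomial.C (ε x) *
      ∏ z, MvPolynomial.X (z, 2) ^ R x z ∈ Iq N) :
    (∃ M : ℕ, ∀ k x, 1 ≤ k → k < h → s ^ M * F (k + 1) x ∈ Ideal.span (Set.range (F 2))) ∧
    (∀ (x : N) (u v : O), lm s v = lm s u * ∏ z, r 1 z ^ R x z →
      ∃ M : ℕ, s ^ M * (u * F (h + 1) x - (ε x : O) * F 1 x * v) ∈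
        Ideal.span (Set.range (F 2))) := by
  classical
  obtain ⟨t1, t2⟩ := run_transfer hs ha S h1 h2
  constructor
  · have h3 : ∀ k x, 1 ≤ k → k < h → ∃ n : ℕ, s ^ n * F (k + 1) x ∈ Ideal.span (Set.range (F 2)) :=
      fun k x hk1 hk2 => lm_mem s (F 2) (t1 k x hk1 hk2)
    choose! n hn using h3
    refine ⟨∑ k ∈ Finset.range h, ∑ x, n k x, fun k x hk1 hk2 => ?_⟩
    have h4 : n k x ≤ ∑ k ∈ Finset.range h, ∑ x, n k x := by
      calc n k x ≤ ∑ x, n k x := Finset.single_le_sum (fun _ _ => Nat.zero_le _)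
            (Finset.mem_univ x)
        _ ≤ _ := Finset.single_le_sum (f := fun k => ∑ x, n k x) (fun _ _ => Nat.zero_le _)
            (Finset.mem_range.mpr hk2)
    obtain ⟨d, hd⟩ := Nat.exists_eq_add_of_le h4
    rw [hd, pow_add, mul_comm (s ^ n k x), mul_assoc]
    exact Ideal.mul_mem_left _ _ (hn k x hk1 hk2)
  · intro x u v huv
    apply lm_mem s (F 2)
    have h5 := Ideal.mul_mem_left _ (lm s u) (t2 x)
    have h6 : lm s (u * F (h + 1) x - (ε x : O) * F 1 x * v) =
        lm s u * (lm s (F (h + 1) x) - (ε x : LA s) * lm s (F 1 x) * ∏ z, r 1 z ^ R x z) := by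
      rw [map_sub, map_mul, map_mul, map_mul, map_intCast, huv]
      ring
    rw [h6]
    exact h5

/-- Short systems, localised at `s`. -/
theorem short_O {a : N → N → ℕ} (hs : ∀ x y, a x y = a y x) (ha : ∀ x, a x x = 0) {n : ℕ}
    {O : Type} [CommRing O] {s : O} {F : ℕ → N → O} {c r g : ℕ → N → LA s}
    (S : RSys a n (LA s) (fun k x => lm s (F k x)) c r g)
    (h1 : ∀ k x, 1 ≤ k → k ≤ n → Qu a hs ha k x ∈ Iq N) (k : ℕ) (x : N) (hk1 : 1 ≤ k)
    (hk2 : k ≤ n) : ∃ M : ℕ, s ^ M * F (k + 1) x ∈ Ideal.span (Set.range (F 2)) :=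
  lm_mem s (F 2) (run_short hs ha S h1 k x hk1 hk2)

end

end Pool.Agent.H10.KAC

end

section

/-!
KAC module KG3: choice of the window (pigeonhole) and of the parameters.

Given `q ≥ 1`, `L0 ≥ 1`.  Let `A1`, `Θ` be as in `window_one`, `S = ∑ α_i`.  Choose `Λ ≥ 2`, `R ≥ 1` with
`A1 S (2/Λ + 1/R) ≤ 1/(2 q Θ)` (for instance `Λ = R = 8 q Θ A1 S + 2`), `L_r = L0 Λ^r`, `M = L_R`,
`u = n / (q Θ M) + 1`, so `M u ≥ n/(q Θ)` (real division), `Θ M u ≤ n/q + Θ M`.
The windows `(L_r, L_{r+1}]`, `r < R`, are disjoint, `∑_r ∑_j W_j^{(r)} ≤ n S`, so for some `r` the window weight is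
`≤ n S / R`.  With `L = L_r`, `κ = L_{r+1} = Λ L`: `L N_j ≤ L n α_j / κ ≤ n S/Λ`, and
`L b_j ≤ W_j + L ∑_{l > κ} m_{lj} ≤ n S/R + n S/Λ` (for `l > κ`: `L m_l ≤ (l/Λ) m_l`).  So the condition `hE` of
`window_one` holds as soon as `A1 M + 4 M + 1 ≤ n/(2 q Θ)`, which defines `n0`.
-/

namespace Pool.Agent.H27.KAC

open scoped BigOperators
open MvPowerSeries

variable {I : Type} [Fintype I] [DecidableEq I]

theorem KG3_ind (Lr : ℕ → ℕ) (hmono : ∀ r, Lr r ≤ Lr (r + 1)) (l x R : ℕ) :
    ∑ r ∈ Finset.range R, (if Lr r < l ∧ l ≤ Lr (r + 1) then x else 0) ≤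
      if l ≤ Lr R then x else 0 := by
  induction R with
  | zero => simp
  | succ R ih =>
    rw [Finset.sum_range_succ]
    have h1 := hmono R
    by_cases h2 : l ≤ Lr R
    · rw [if_pos h2] at ih
      rw [if_neg (fun hc => absurd h2 (not_le.2 hc.1)), if_pos (h2.trans h1)]
      omega
    · rw [if_neg h2] at ih
      by_cases h3 : l ≤ Lr (R + 1)
      · rw [if_pos ⟨not_le.1 h2, h3⟩, if_pos h3]
        omega
      · rw [if_neg (fun hc => h3 hc.2), if_neg h3]
        omega

theorem KG3_total {K : ℕ} (m : Fin K → I → ℕ) (i : I) :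
    ∑ l ∈ Finset.Icc 1 K, l * mAt m l i = ∑ k : Fin K, ((k : ℕ) + 1) * m k i := by
  have h1 : ∑ l ∈ Finset.Icc 1 K, l * mAt m l i =
      ∑ k ∈ Finset.range K, (k + 1) * mAt m (k + 1) i := by
    rw [Finset.range_eq_Ico, Finset.sum_Ico_add' (fun l => l * mAt m l i) 0 K 1]
    apply Finset.sum_congr _ fun _ _ => rfl
    ext l
    simp only [Finset.mem_Icc, Finset.mem_Ico]
    omega
  rw [h1, ← Fin.sum_univ_eq_sum_range (fun k => (k + 1) * mAt m (k + 1) i) K]
  refine Finset.sum_congr rfl fun k _ => ?_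
  have h2 : mAt m ((k : ℕ) + 1) i = m k i := by
    unfold mAt
    rw [dif_pos ⟨by omega, by have := k.2; omega⟩]
    congr 1
  rw [h2]

end Pool.Agent.H27.KAC

end

section

/-!
KAC part V: definitions for the growth theorem.
-/

namespace Pool.Agent.H27.KAC

open scoped BigOperators
open MvPowerSeries

section

variable {I : Type} [Fintype I] [DecidableEq I]

/-- admissible multipartitions of `β` with parts at most `K`. -/
def Adm (a : I → I → ℕ) {K : ℕ} (β : I →₀ ℕ) (m : Fin K → I → ℕ) : Prop :=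
  m ∈ Mset K β ∧ (∀ i, 1 ≤ mAt m 1 i) ∧ ∀ l, 1 ≤ l → l < K → ∀ i, 1 ≤ PLF a m l i

/-- the entropy weight of a multipartition. -/
def EW (a : I → I → ℕ) {K : ℕ} (m : Fin K → I → ℕ) : ℕ :=
  ∏ l ∈ Finset.Icc 1 K, ∏ i, ((PLF a m l i).toNat + mAt m l i).choose (mAt m l i)

end

end Pool.Agent.H27.KAC

end

section

/-!
KAC module KL6: the lower bound for `f`.

`K0 ≥ 2`, `α` ample, `m ∈ Mset K0 α`, `m 1 i ≥ 1`, vacancy numbers `PLF k i ≥ 1` for `1 ≤ k < K0` (all `i`).
(`PLF K0 i = s_i`; `s_i ≥ 1` unless `i ∈ B`, where `B` = loop-free vertices with `s_i = 0` = vertices of type D.)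
* `lb_mid`: the state at level `K0 + 1` with types `tyB`, `P = p = s`, index `α`: `lb_phase1` (level `k + 2 = K0 + 1`) for the
  regular vertices with `m = mAt m K0`, weights `wt (s_i) (m_i)`; final `Ph_i = PLF (K0-1) i + (1/2) ∑_{x ∈ B} a_{xi} PLF (K0-1) x ≥ 1`
  (because `2 m_x - n_x = PLF (K0-1) x`, `n_x = ∑_{l ∉ B} a_{xl} m_l`), then `lb_wallsE` and `lb_low` (level `K0`, `k = K0 - 1`).
* `lb_up`: for `k ≥ K0` the state at level `k + 1` with types `tyB`, `P = p = s`, index `α` (all `κ = k+1`): induction on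
  `k`; step: `lb_phase1` with `m = 0`, `ω = 1` (`finPh = 2 s - s = s`), then `lb_wallsD`.
* `lower_bound`: `topS a α K ε`, `0 < ε < 1`, is fresh (`top_Fr`), `dfc_r = ε s_r` (`r` with `s_r ≥ 1`), so
  `ε s_r Ω ≤ Val = q(ε)` with `q` from `top_poly`, `q(0) = 0`, hence `s_r Ω ≤ q'(0) = f(α) ∑ α_i s_i`.
-/

namespace Pool.Agent.H27.KAC

open scoped BigOperators
open MvPowerSeries

variable {I : Type} [Fintype I] [DecidableEq I]

theorem kl6_wt_nonneg (P m : ℕ) : 0 ≤ wt P m := by
  unfold wt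
  positivity

theorem kl6_prod_nonneg (a : I → I → ℕ) {K0 : ℕ} (m : Fin K0 → I → ℕ) (n : ℕ) :
    0 ≤ ∏ l ∈ Finset.Icc 1 n, ∏ i, wt (PLF a m l i).toNat (mAt m l i) :=
  Finset.prod_nonneg fun _ _ => Finset.prod_nonneg fun _ _ => kl6_wt_nonneg _ _

theorem kl6_limit (q : Polynomial ℚ) (A : ℚ) (h0 : q.eval 0 = 0)
    (h : ∀ ε : ℚ, 0 < ε → ε < 1 → A * ε ≤ q.eval ε) : A ≤ q.derivative.eval 0 := by
  obtain ⟨p, hp⟩ : ∃ p : Polynomial ℚ, q = Polynomial.X * p := by
    have h1 : Polynomial.X ∣ q := by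
      rw [Polynomial.X_dvd_iff, Polynomial.coeff_zero_eq_eval_zero]
      exact h0
    exact h1
  have h1 : q.derivative.eval 0 = p.eval 0 := by
    rw [hp, Polynomial.derivative_mul, Polynomial.derivative_X]
    simp
  rw [h1]
  have h2 : Filter.Tendsto (fun ε : ℚ => p.eval ε) (nhdsWithin 0 (Set.Ioi 0)) (nhds (p.eval 0)) :=
    (p.continuous.tendsto 0).mono_left nhdsWithin_le_nhds
  refine ge_of_tendsto h2 ?_
  filter_upwards [Ioo_mem_nhdsGT (zero_lt_one : (0 : ℚ) < 1)] with ε hε
  have h3 := h ε hε.1 hε.2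
  rw [hp, Polynomial.eval_mul, Polynomial.eval_X, mul_comm A ε] at h3
  exact le_of_mul_le_mul_left h3 hε.1

end Pool.Agent.H27.KAC

end

section

/-!
Project KAC, part II: multipartitions and the coefficients of the fermionic sum.
-/

set_option autoImplicit false

namespace Pool.Agent.H27.KAC

open scoped BigOperators

/-- `(i, k)` stands for a part of size `k + 1` at the vertex `i`. -/
abbrev Prt (I : Type) : Type := I × ℕ

/-- The weight of one part. -/
noncomputable def pwt {I : Type} (a : Prt I) : I →₀ ℕ := Finsupp.single a.1 (a.2 + 1)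

/-- The weight of a multipartition: `m (i, k)` parts of size `k + 1` at `i`. -/
noncomputable def mwt {I : Type} (m : Prt I →₀ ℕ) : I →₀ ℕ :=
  m.sum fun a x => x • pwt a

/-- The scalar product of a vector `n` and a multipartition. -/
noncomputable def dotm {I : Type} (n : Prt I → ℤ) (m : Prt I →₀ ℕ) : ℤ :=
  m.sum fun a x => n a * (x : ℤ)

/-- `(q⁻¹; q⁻¹)_x`. -/
def qpoch {K : Type} [Field K] (q : K) (x : ℕ) : K :=
  ∏ j ∈ Finset.range x, (1 - (q⁻¹) ^ (j + 1))

section

variable {I : Type} [DecidableEq I]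

/-- The matrix `B`: `B_(i,k),(j,l) = C_ij min(k + 1, l + 1)`. -/
def Bm (A : I → I → ℕ) (a b : Prt I) : ℤ :=
  cart A a.1 b.1 * ((min (a.2 + 1) (b.2 + 1) : ℕ) : ℤ)

/-- Half of the quadratic form `m B m`. -/
noncomputable def hq (A : I → I → ℕ) (m : Prt I →₀ ℕ) : ℤ :=
  (m.sum fun a x => (x : ℤ) * dotm (Bm A a) m) / 2

/-- The coefficients of the fermionic sum. -/
noncomputable def cc {K : Type} [Field K] (q : K) (A : I → I → ℕ) (m : Prt I →₀ ℕ) : K :=
  q ^ (-(hq A m)) * m.prod fun _ x => (qpoch q x)⁻¹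

end

theorem PII_Def.mul_le {I : Type} (m : Prt I →₀ ℕ) (a : Prt I) :
    m a * (a.2 + 1) ≤ mwt m a.1 := by
  by_cases ha : m a = 0
  · rw [ha, zero_mul]
    exact Nat.zero_le _
  · have h1 : mwt m a.1 = ∑ b ∈ m.support, (m b • pwt b) a.1 := by
      unfold mwt Finsupp.sum
      rw [Finsupp.finsetSum_apply]
    rw [h1]
    have h2 := Finset.single_le_sum (f := fun b => (m b • pwt b) a.1)
      (fun _ _ => Nat.zero_le _) (Finsupp.mem_support_iff.2 ha)
    refine le_trans (le_of_eq ?_) h2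
    simp only [pwt, Finsupp.smul_apply, Finsupp.single_eq_same, smul_eq_mul]

/-- Each weight is the weight of finitely many multipartitions: for `mwt m = α` and `m (i, k) ≠ 0` one
has `(k + 1) * m (i, k) ≤ α i`, so `m` is in
`Finset.finsupp (α.support ×ˢ range (degree α)) fun _ => range (degree α + 1)`. -/
theorem finite_mwt {I : Type} (α : I →₀ ℕ) : {m : Prt I →₀ ℕ | mwt m = α}.Finite := by
  classical
  refine Set.Finite.subset (Finset.finite_toSet (Finset.finsupp
    (α.support ×ˢ Finset.range (Finsupp.degree α))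
    fun _ => Finset.range (Finsupp.degree α + 1))) ?_
  intro m hm
  have hm' : mwt m = α := hm
  have key : ∀ a : Prt I, m a * (a.2 + 1) ≤ α a.1 := fun a => hm' ▸ PII_Def.mul_le m a
  have hdeg : ∀ i, α i ≤ Finsupp.degree α := fun i => Finsupp.le_degree i α
  rw [Finset.mem_coe, Finset.mem_finsupp_iff]
  constructor
  · intro a ha
    have h1 : 1 ≤ m a := Nat.one_le_iff_ne_zero.2 (Finsupp.mem_support_iff.1 ha)
    have h2 := key a
    have h3 : a.2 + 1 ≤ α a.1 := by nlinarith
    rw [Finset.mem_product]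
    refine ⟨Finsupp.mem_support_iff.2 (by omega), Finset.mem_range.2 ?_⟩
    have := hdeg a.1
    omega
  · intro a _
    rw [Finset.mem_range]
    have h2 := key a
    have h3 := hdeg a.1
    nlinarith

/-- The multipartitions of weight `α`. -/
noncomputable def mps {I : Type} (α : I →₀ ℕ) : Finset (Prt I →₀ ℕ) := (finite_mwt α).toFinset

theorem mem_mps {I : Type} {α : I →₀ ℕ} {m : Prt I →₀ ℕ} : m ∈ mps α ↔ mwt m = α := by
  unfold mps
  rw [Set.Finite.mem_toFinset]
  exact Iff.rfl

/-- The series `∑_m q^(n . m) c(m) X^(wt m)`. -/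
noncomputable def Fs {I : Type} [DecidableEq I] {K : Type} [Field K] (q : K) (A : I → I → ℕ)
    (n : Prt I → ℤ) : MvPowerSeries I K :=
  fun α => ∑ m ∈ mps α, q ^ (dotm n m) * cc q A m

end Pool.Agent.H27.KAC

end

section

/-!
Project KAC, part II.3: Euler derivations and scaling of the variables of power series.
-/

set_option autoImplicit false

namespace Pool.Agent.H27.KAC

open scoped BigOperators

variable {I R S : Type} [CommRing R] [CommRing S]

theorem pii_coeff_eul (j : I) (f : MvPowerSeries I R) (d : I →₀ ℕ) :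
    MvPowerSeries.coeff d (eul j f) = (d j : R) * MvPowerSeries.coeff d f := rfl

theorem pii_eul_one (j : I) : eul j (1 : MvPowerSeries I R) = 0 := by
  classical
  ext d
  rw [pii_coeff_eul, MvPowerSeries.coeff_one, map_zero]
  split_ifs with h
  · rw [h]
    simp
  · rw [mul_zero]

/-- The product rule. -/
theorem pii_eul_mul (j : I) (f g : MvPowerSeries I R) : eul j (f * g) = eul j f * g + f * eul j g := by
  classical
  ext d
  rw [pii_coeff_eul, map_add, MvPowerSeries.coeff_mul, MvPowerSeries.coeff_mul,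
    MvPowerSeries.coeff_mul, Finset.mul_sum, ← Finset.sum_add_distrib]
  refine Finset.sum_congr rfl fun x hx => ?_
  rw [Finset.HasAntidiagonal.mem_antidiagonal] at hx
  rw [pii_coeff_eul, pii_coeff_eul, ← hx, Finsupp.add_apply]
  push_cast
  ring

theorem eul_map (φ : R →+* S) (j : I) (f : MvPowerSeries I R) :
    MvPowerSeries.map φ (eul j f) = eul j (MvPowerSeries.map φ f) := by
  ext d
  rw [pii_coeff_eul, MvPowerSeries.coeff_map, MvPowerSeries.coeff_map, pii_coeff_eul, map_mul,
    map_natCast]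

/-- The substitution `X_i ↦ c X_i`. -/
noncomputable def pscl (c : R) (i : I) (f : MvPowerSeries I R) : MvPowerSeries I R :=
  fun d => c ^ (d i) * MvPowerSeries.coeff d f

theorem coeff_pscl (c : R) (i : I) (f : MvPowerSeries I R) (d : I →₀ ℕ) :
    MvPowerSeries.coeff d (pscl c i f) = c ^ (d i) * MvPowerSeries.coeff d f := rfl

theorem pscl_mul (c : R) (i : I) (f g : MvPowerSeries I R) :
    pscl c i (f * g) = pscl c i f * pscl c i g := by
  classical
  ext d
  rw [coeff_pscl, MvPowerSeries.coeff_mul, MvPowerSeries.coeff_mul, Finset.mul_sum]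
  refine Finset.sum_congr rfl fun x hx => ?_
  rw [Finset.HasAntidiagonal.mem_antidiagonal] at hx
  rw [coeff_pscl, coeff_pscl, ← hx, Finsupp.add_apply, pow_add]
  ring

theorem eul_pscl (c : R) (i j : I) (f : MvPowerSeries I R) :
    eul j (pscl c i f) = pscl c i (eul j f) := by
  ext d
  rw [pii_coeff_eul, coeff_pscl, coeff_pscl, pii_coeff_eul]
  ring

/-- If `eul j f = f * g` and `f * f' = 1` then
`eul j (pscl c i f * f') = (pscl c i f * f') * (pscl c i g - g)`. -/
theorem eul_quot (c : R) (i j : I) {f f' g : MvPowerSeries I R} (h : eul j f = f * g)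
    (h' : f * f' = 1) : eul j (pscl c i f * f') = (pscl c i f * f') * (pscl c i g - g) := by
  have h1 : eul j f * f' + f * eul j f' = 0 := by rw [← pii_eul_mul, h', pii_eul_one]
  rw [h] at h1
  have h2 : eul j f' = -(g * f') := by
    have h3 : f' * (f * g * f' + f * eul j f') = 0 := by rw [h1, mul_zero]
    have h4 : f' * (f * g * f' + f * eul j f') = (f * f') * (g * f' + eul j f') := by ring
    rw [h4, h', one_mul] at h3
    exact eq_neg_of_add_eq_zero_right h3
  rw [pii_eul_mul, eul_pscl, h, pscl_mul, h2]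
  ring

end Pool.Agent.H27.KAC

end

section

/-!
Project KAC, part II.1: multipartitions and their columns.
-/

set_option autoImplicit false

namespace Pool.Agent.H27.KAC

open scoped BigOperators

variable {I E : Type} [Fintype I] [DecidableEq I] [Fintype E]

/-- The partition at the vertex `i`. -/
noncomputable def mcol (m : Prt I →₀ ℕ) (i : I) : ℕ →₀ ℕ :=
  Finsupp.comapDomain (fun k => (i, k)) m (fun _ _ _ _ h => (Prod.mk.inj h).2)

omit [Fintype I] [DecidableEq I] in
theorem exp_mcol_apply (m : Prt I →₀ ℕ) (i : I) (k : ℕ) : mcol m i k = m (i, k) := rfl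

omit [DecidableEq I] in
theorem exp_finite (g : I → ℕ →₀ ℕ) :
    (Function.support fun a : Prt I => g a.1 a.2).Finite := by
  refine Set.Finite.subset (s := ⋃ i : I, (Prod.mk i) '' ((g i).support : Set ℕ)) ?_ ?_
  · exact Set.finite_iUnion fun i => ((g i).support.finite_toSet).image _
  · rintro ⟨i, k⟩ h
    rw [Set.mem_iUnion]
    refine ⟨i, k, ?_, rfl⟩
    rw [Finset.mem_coe, Finsupp.mem_support_iff]
    exact h

/-- Multipartitions are families of partitions. -/
noncomputable def mcolEquiv (I : Type) [Fintype I] [DecidableEq I] :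
    (Prt I →₀ ℕ) ≃ (I → ℕ →₀ ℕ) where
  toFun m i := mcol m i
  invFun g := Finsupp.ofSupportFinite (fun a => g a.1 a.2) (by exact exp_finite g)
  left_inv := by
    intro m
    ext a
    rfl
  right_inv := by
    intro g
    funext i
    ext k
    rfl

omit [Fintype I] [DecidableEq I] in
theorem exp_mcol_zero (i : I) : mcol (0 : Prt I →₀ ℕ) i = 0 := by
  ext k
  rfl

omit [Fintype I] [DecidableEq I] in
theorem exp_mcol_add (m m' : Prt I →₀ ℕ) (i : I) : mcol (m + m') i = mcol m i + mcol m' i := by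
  ext k
  rfl

omit [Fintype I] in
theorem exp_mcol_single (a : Prt I) (x : ℕ) (i : I) :
    mcol (Finsupp.single a x) i = if a.1 = i then Finsupp.single a.2 x else 0 := by
  ext k
  rw [exp_mcol_apply]
  split_ifs with h
  · subst h
    rw [Finsupp.single_apply, Finsupp.single_apply]
    obtain ⟨j, l⟩ := a
    simp
  · rw [Finsupp.single_apply, if_neg]
    · rfl
    · intro h'
      exact h (by rw [h'])

theorem exp_psize_add (μ ν : ℕ →₀ ℕ) : psize (μ + ν) = psize μ + psize ν := by
  unfold psize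
  exact Finsupp.sum_add_index' (fun _ => by simp) (fun _ _ _ => by ring)

theorem exp_psize_zero : psize 0 = 0 := by
  unfold psize
  exact Finsupp.sum_zero_index

theorem exp_psize_single (k x : ℕ) : psize (Finsupp.single k x) = (k + 1) * x := by
  unfold psize
  exact Finsupp.sum_single_index (by simp)

omit [Fintype I] [DecidableEq I] in
theorem exp_mwt_add (m m' : Prt I →₀ ℕ) : mwt (m + m') = mwt m + mwt m' := by
  unfold mwt
  exact Finsupp.sum_add_index' (fun _ => by simp) (fun _ _ _ => by rw [add_smul])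

omit [Fintype I] [DecidableEq I] in
theorem exp_mwt_single (a : Prt I) (x : ℕ) : mwt (Finsupp.single a x) = x • pwt a := by
  unfold mwt
  exact Finsupp.sum_single_index (by simp)

theorem psize_mcol (m : Prt I →₀ ℕ) (i : I) : psize (mcol m i) = mwt m i := by
  induction m using Finsupp.induction_linear with
  | zero =>
    rw [exp_mcol_zero, exp_psize_zero]
    unfold mwt
    rw [Finsupp.sum_zero_index]
    rfl
  | add f g hf hg =>
    rw [exp_mcol_add, exp_psize_add, exp_mwt_add, Finsupp.add_apply, hf, hg]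
  | single a x =>
    rw [exp_mcol_single, exp_mwt_single, Finsupp.smul_apply]
    unfold pwt
    rw [Finsupp.single_apply]
    split_ifs with h
    · rw [exp_psize_single, smul_eq_mul, mul_comm]
    · rw [exp_psize_zero, smul_zero]

theorem prod_mcol {M : Type} [CommMonoid M] (f : ℕ → M) (h : f 0 = 1) (m : Prt I →₀ ℕ) :
    (m.prod fun _ x => f x) = ∏ i, (mcol m i).prod fun _ x => f x := by
  classical
  have h1 : (m.prod fun _ x => f x) =
      ∏ a ∈ (Finset.univ : Finset I) ×ˢ (m.support.image Prod.snd), f (m a) := by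
    refine Finsupp.prod_of_support_subset m ?_ _ (fun _ _ => h)
    intro a ha
    exact Finset.mem_product.2 ⟨Finset.mem_univ _, Finset.mem_image_of_mem _ ha⟩
  rw [h1, Finset.prod_product]
  refine Finset.prod_congr rfl fun i _ => ?_
  symm
  refine Finsupp.prod_of_support_subset (mcol m i) ?_ _ (fun _ _ => h)
  intro k hk
  rw [Finsupp.mem_support_iff, exp_mcol_apply] at hk
  exact Finset.mem_image.2 ⟨(i, k), Finsupp.mem_support_iff.2 hk, rfl⟩

theorem exp_mlam_zero_left (ν : ℕ →₀ ℕ) : mlam 0 ν = 0 := by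
  unfold mlam
  exact Finsupp.sum_zero_index

theorem exp_mlam_zero_right (μ : ℕ →₀ ℕ) : mlam μ 0 = 0 := by
  unfold mlam
  simp

theorem exp_mlam_add_left (μ μ' ν : ℕ →₀ ℕ) : mlam (μ + μ') ν = mlam μ ν + mlam μ' ν := by
  unfold mlam
  refine Finsupp.sum_add_index' (fun _ => by simp) (fun k x y => ?_)
  unfold Finsupp.sum
  rw [← Finset.sum_add_distrib]
  exact Finset.sum_congr rfl fun l _ => by ring

theorem exp_mlam_add_right (μ ν ν' : ℕ →₀ ℕ) : mlam μ (ν + ν') = mlam μ ν + mlam μ ν' := by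
  unfold mlam
  rw [← Finsupp.sum_add]
  refine Finsupp.sum_congr fun k _ => ?_
  exact Finsupp.sum_add_index' (fun _ => by simp) (fun l x y => by ring)

theorem exp_mlam_single (k l x y : ℕ) :
    mlam (Finsupp.single k x) (Finsupp.single l y) = min (k + 1) (l + 1) * (x * y) := by
  unfold mlam
  rw [Finsupp.sum_single_index, Finsupp.sum_single_index]
  · simp
  · simp

omit [Fintype I] [DecidableEq I] in
theorem exp_dotm_add (n : Prt I → ℤ) (m m' : Prt I →₀ ℕ) :
    dotm n (m + m') = dotm n m + dotm n m' := by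
  unfold dotm
  exact Finsupp.sum_add_index' (fun _ => by simp) (fun _ _ _ => by push_cast; ring)

omit [Fintype I] [DecidableEq I] in
theorem exp_dotm_zero (n : Prt I → ℤ) : dotm n 0 = 0 := by
  unfold dotm
  exact Finsupp.sum_zero_index

omit [Fintype I] [DecidableEq I] in
theorem exp_dotm_single (n : Prt I → ℤ) (a : Prt I) (x : ℕ) :
    dotm n (Finsupp.single a x) = n a * (x : ℤ) := by
  unfold dotm
  exact Finsupp.sum_single_index (by simp)

/-- The bilinear form. -/
theorem exp_bilin (A : I → I → ℕ) (m m' : Prt I →₀ ℕ) :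
    (m.sum fun a x => (x : ℤ) * dotm (Bm A a) m') =
      ∑ i, ∑ j, cart A i j * ((mlam (mcol m i) (mcol m' j) : ℕ) : ℤ) := by
  induction m using Finsupp.induction_linear with
  | zero =>
    rw [Finsupp.sum_zero_index]
    symm
    refine Finset.sum_eq_zero fun i _ => Finset.sum_eq_zero fun j _ => ?_
    rw [exp_mcol_zero, exp_mlam_zero_left, Nat.cast_zero, mul_zero]
  | add f g hf hg =>
    rw [Finsupp.sum_add_index' (fun _ => by simp) (fun _ _ _ => by push_cast; ring), hf, hg,
      ← Finset.sum_add_distrib]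
    refine Finset.sum_congr rfl fun i _ => ?_
    rw [← Finset.sum_add_distrib]
    refine Finset.sum_congr rfl fun j _ => ?_
    rw [exp_mcol_add, exp_mlam_add_left]
    push_cast
    ring
  | single a x =>
    rw [Finsupp.sum_single_index (by simp)]
    induction m' using Finsupp.induction_linear with
    | zero =>
      rw [exp_dotm_zero, mul_zero]
      symm
      refine Finset.sum_eq_zero fun i _ => Finset.sum_eq_zero fun j _ => ?_
      rw [exp_mcol_zero, exp_mlam_zero_right, Nat.cast_zero, mul_zero]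
    | add f g hf hg =>
      rw [exp_dotm_add, mul_add, hf, hg, ← Finset.sum_add_distrib]
      refine Finset.sum_congr rfl fun i _ => ?_
      rw [← Finset.sum_add_distrib]
      refine Finset.sum_congr rfl fun j _ => ?_
      rw [exp_mcol_add, exp_mlam_add_right]
      push_cast
      ring
    | single b y =>
      rw [exp_dotm_single]
      rw [Finset.sum_eq_single a.1, Finset.sum_eq_single b.1]
      · rw [exp_mcol_single, exp_mcol_single, if_pos rfl, if_pos rfl, exp_mlam_single]
        unfold Bm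
        push_cast
        ring
      · intro j _ hj
        rw [exp_mcol_single b, if_neg (fun h => hj h.symm), exp_mlam_zero_right, Nat.cast_zero,
          mul_zero]
      · intro h
        exact absurd (Finset.mem_univ _) h
      · intro i _ hi
        refine Finset.sum_eq_zero fun j _ => ?_
        rw [exp_mcol_single a, if_neg (fun h => hi h.symm), exp_mlam_zero_left, Nat.cast_zero,
          mul_zero]
      · intro h
        exact absurd (Finset.mem_univ _) h

/-- `m B m = ∑_ij C_ij ∑_kl min(k + 1, l + 1) m_ik m_jl`. -/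
theorem sum_dotm_Bm (A : I → I → ℕ) (m : Prt I →₀ ℕ) :
    (m.sum fun a x => (x : ℤ) * dotm (Bm A a) m) =
      ∑ i, ∑ j, cart A i j * ((mlam (mcol m i) (mcol m j) : ℕ) : ℤ) := by
  exact exp_bilin A m m

theorem exp_sum_card (s t : E → I) (f : I → I → ℤ) :
    ∑ i, ∑ j, ((Finset.univ.filter (fun e : E => s e = i ∧ t e = j)).card : ℤ) * f i j =
      ∑ e : E, f (s e) (t e) := by
  have h : ∀ i j, ((Finset.univ.filter (fun e : E => s e = i ∧ t e = j)).card : ℤ) * f i j =
      ∑ e : E, if s e = i then (if t e = j then f i j else 0) else 0 := by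
    intro i j
    rw [Finset.card_filter, Nat.cast_sum, Finset.sum_mul]
    refine Finset.sum_congr rfl fun e _ => ?_
    by_cases h1 : s e = i
    · by_cases h2 : t e = j
      · simp [h1, h2]
      · simp [h1, h2]
    · simp [h1]
  simp_rw [h]
  have h3 : ∀ i, ∑ j, ∑ e : E, (if s e = i then (if t e = j then f i j else 0) else 0) =
      ∑ e : E, if s e = i then f i (t e) else 0 := by
    intro i
    rw [Finset.sum_comm]
    refine Finset.sum_congr rfl fun e _ => ?_
    split_ifs with h1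
    · simp
    · simp
  simp_rw [h3]
  rw [Finset.sum_comm]
  refine Finset.sum_congr rfl fun e _ => ?_
  simp

/-- `∑_ij adj_ij f i j = 2 ∑_e f (tgt e) (src e)` for symmetric `f`. -/
theorem sum_adj (Q : Quiv I E) (f : I → I → ℤ) (hf : ∀ i j, f i j = f j i) :
    ∑ i, ∑ j, (adj Q i j : ℤ) * f i j = 2 * ∑ e : E, f (Q.tgt e) (Q.src e) := by
  unfold adj
  push_cast
  simp_rw [add_mul, Finset.sum_add_distrib]
  rw [exp_sum_card Q.src Q.tgt f]
  have h2 : ∑ i, ∑ j, ((Finset.univ.filter (fun e : E => Q.src e = j ∧ Q.tgt e = i)).card : ℤ) *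
      f i j = ∑ e : E, f (Q.tgt e) (Q.src e) := by
    rw [← exp_sum_card Q.tgt Q.src f]
    refine Finset.sum_congr rfl fun i _ => Finset.sum_congr rfl fun j _ => ?_
    congr 3
    ext e
    simp only [Finset.mem_filter, Finset.mem_univ, true_and]
    exact and_comm
  rw [h2, two_mul]
  congr 1
  exact Finset.sum_congr rfl fun e _ => hf _ _

theorem adj_symm (Q : Quiv I E) (i j : I) : adj Q i j = adj Q j i := by
  unfold adj
  rw [add_comm]

theorem adj_even (Q : Quiv I E) (i : I) : Even (adj Q i i) := by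
  unfold adj
  exact ⟨_, rfl⟩

theorem neg_hq (Q : Quiv I E) (m : Prt I →₀ ℕ) :
    -(hq (adj Q) m) = ((∑ e : E, mlam (mcol m (Q.tgt e)) (mcol m (Q.src e)) : ℕ) : ℤ) -
      ((∑ i, mlam (mcol m i) (mcol m i) : ℕ) : ℤ) := by
  unfold hq
  rw [sum_dotm_Bm]
  have h1 : ∑ i, ∑ j, cart (adj Q) i j * ((mlam (mcol m i) (mcol m j) : ℕ) : ℤ) =
      2 * ∑ i, ((mlam (mcol m i) (mcol m i) : ℕ) : ℤ) -
        2 * ∑ e : E, ((mlam (mcol m (Q.tgt e)) (mcol m (Q.src e)) : ℕ) : ℤ) := by
    rw [← sum_adj Q (fun i j => ((mlam (mcol m i) (mcol m j) : ℕ) : ℤ))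
      (fun i j => by rw [mlam_comm]), Finset.mul_sum, ← Finset.sum_sub_distrib]
    refine Finset.sum_congr rfl fun i _ => ?_
    unfold cart
    simp_rw [sub_mul, Finset.sum_sub_distrib]
    congr 1
    simp
  rw [h1]
  push_cast
  rw [← mul_sub, Int.mul_ediv_cancel_left _ (by norm_num)]
  ring

end Pool.Agent.H27.KAC

end

section

/-!
Project KAC, part II.1: the number of the homomorphisms between nilpotent matrices.
-/

set_option autoImplicit false

namespace Pool.Agent.H27.KAC

open scoped BigOperators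

variable {F : Type} [Field F] [Fintype F]

omit [Fintype F] in
theorem PII_Hom_left_inv {n r : ℕ} {φ : Matrix (Fin n) (Fin r) F} (hφ : φ.rank = r) :
    ∃ φ' : Matrix (Fin r) (Fin n) F, φ' * φ = 1 := by
  have hker : LinearMap.ker φ.mulVecLin = ⊥ := by
    have h1 := LinearMap.finrank_range_add_finrank_ker φ.mulVecLin
    have h2 : Module.finrank F (LinearMap.range φ.mulVecLin) = r := hφ
    rw [h2, Module.finrank_fin_fun] at h1
    have h3 : Module.finrank F (LinearMap.ker φ.mulVecLin) = 0 := by omega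
    exact Submodule.finrank_eq_zero.mp h3
  obtain ⟨g, hg⟩ := LinearMap.exists_leftInverse_of_injective φ.mulVecLin hker
  refine ⟨LinearMap.toMatrix' g, ?_⟩
  have h4 : LinearMap.toMatrix' (g ∘ₗ φ.mulVecLin) = 1 := by
    rw [hg, LinearMap.toMatrix'_id]
  rw [LinearMap.toMatrix'_comp] at h4
  have h5 : LinearMap.toMatrix' φ.mulVecLin = φ := by
    have := LinearMap.toMatrix'_toLin' φ
    rwa [Matrix.toLin'_apply'] at this
  rwa [h5] at h4

omit [Fintype F] in
theorem PII_Hom_right_inv {n r : ℕ} {τ : Matrix (Fin r) (Fin n) F} (hτ : τ.rank = r) :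
    ∃ τ' : Matrix (Fin n) (Fin r) F, τ * τ' = 1 := by
  have h : τ.transpose.rank = r := by rw [Matrix.rank_transpose]; exact hτ
  obtain ⟨w, hw⟩ := PII_Hom_left_inv h
  refine ⟨w.transpose, ?_⟩
  have := congrArg Matrix.transpose hw
  rwa [Matrix.transpose_mul, Matrix.transpose_transpose, Matrix.transpose_one] at this

/-- Matrices with `x φ = 0`. -/
theorem PII_Hom_card_K {m n r : ℕ} {φ : Matrix (Fin n) (Fin r) F} {φ' : Matrix (Fin r) (Fin n) F}
    (h : φ' * φ = 1) (hr : r ≤ n) :
    Nat.card {z : Matrix (Fin m) (Fin n) F // z * φ = 0} = Fintype.card F ^ (m * (n - r)) := by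
  have e : Matrix (Fin m) (Fin n) F ≃ {z : Matrix (Fin m) (Fin n) F // z * φ = 0} ×
      Matrix (Fin m) (Fin r) F :=
    { toFun := fun x => (⟨x - x * φ * φ', by
        rw [Matrix.sub_mul, Matrix.mul_assoc (x * φ), h, Matrix.mul_one, sub_self]⟩, x * φ)
      invFun := fun p => p.1.1 + p.2 * φ'
      left_inv := fun x => by simp
      right_inv := fun p => by
        obtain ⟨⟨z, hz⟩, y⟩ := p
        have h1 : (z + y * φ') * φ = y := by
          rw [Matrix.add_mul, hz, Matrix.mul_assoc, h, Matrix.mul_one, zero_add]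
        ext1
        · apply Subtype.ext
          show z + y * φ' - (z + y * φ') * φ * φ' = z
          rw [h1, add_sub_cancel_right]
        · exact h1 }
  have hc := Nat.card_congr e
  rw [Nat.card_prod] at hc
  have c1 : ∀ a b : ℕ, Nat.card (Matrix (Fin a) (Fin b) F) = Fintype.card F ^ (a * b) := by
    intro a b
    have h0 : Nat.card (Matrix (Fin a) (Fin b) F) = Nat.card (Fin a → Fin b → F) := rfl
    rw [h0, Nat.card_eq_fintype_card, Fintype.card_fun, Fintype.card_fun, Fintype.card_fin,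
      Fintype.card_fin, ← pow_mul, Nat.mul_comm]
  rw [c1, c1] at hc
  have hq : 0 < Fintype.card F ^ (m * r) := pow_pos Fintype.card_pos _
  have h2 : m * n = m * (n - r) + m * r := by
    rw [← Nat.mul_add]
    congr 1
    omega
  rw [h2, pow_add] at hc
  exact (Nat.eq_of_mul_eq_mul_right hq hc).symm

/-- Matrices with `z φ = 0` and `σ z = 0`. -/
theorem PII_Hom_card_Z {m n r s : ℕ} {φ : Matrix (Fin n) (Fin r) F}
    {φ' : Matrix (Fin r) (Fin n) F} {σ : Matrix (Fin s) (Fin m) F} {σ' : Matrix (Fin m) (Fin s) F}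
    (h : φ' * φ = 1) (h' : σ * σ' = 1) (hr : r ≤ n) (hs : s ≤ m) :
    Nat.card {z : Matrix (Fin m) (Fin n) F // z * φ = 0 ∧ σ * z = 0} =
      Fintype.card F ^ ((n - r) * (m - s)) := by
  have e : {z : Matrix (Fin m) (Fin n) F // z * φ = 0} ≃
      {z : Matrix (Fin m) (Fin n) F // z * φ = 0 ∧ σ * z = 0} ×
        {w : Matrix (Fin s) (Fin n) F // w * φ = 0} :=
    { toFun := fun x => (⟨x.1 - σ' * (σ * x.1), by
        constructor
        · rw [Matrix.sub_mul, x.2, Matrix.mul_assoc, Matrix.mul_assoc, x.2]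
          simp
        · rw [Matrix.mul_sub, ← Matrix.mul_assoc σ σ', h', Matrix.one_mul, sub_self]⟩,
          ⟨σ * x.1, by rw [Matrix.mul_assoc, x.2, Matrix.mul_zero]⟩)
      invFun := fun p => ⟨p.1.1 + σ' * p.2.1, by
        rw [Matrix.add_mul, p.1.2.1, Matrix.mul_assoc, p.2.2, Matrix.mul_zero, add_zero]⟩
      left_inv := fun x => by
        apply Subtype.ext
        simp
      right_inv := fun p => by
        obtain ⟨⟨z, hz, hz'⟩, ⟨w, hw⟩⟩ := p
        have h1 : σ * (z + σ' * w) = w := by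
          rw [Matrix.mul_add, hz', ← Matrix.mul_assoc, h', Matrix.one_mul, zero_add]
        ext1
        · apply Subtype.ext
          show z + σ' * w - σ' * (σ * (z + σ' * w)) = z
          rw [h1, add_sub_cancel_right]
        · apply Subtype.ext
          exact h1 }
  have hc := Nat.card_congr e
  rw [Nat.card_prod, PII_Hom_card_K h hr, PII_Hom_card_K h hr] at hc
  have hq : 0 < Fintype.card F ^ (s * (n - r)) := pow_pos Fintype.card_pos _
  have h2 : m * (n - r) = (n - r) * (m - s) + s * (n - r) := by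
    have h3 : m = (m - s) + s := by omega
    calc m * (n - r) = ((m - s) + s) * (n - r) := by rw [← h3]
      _ = (n - r) * (m - s) + s * (n - r) := by ring
  rw [h2, pow_add] at hc
  exact (Nat.eq_of_mul_eq_mul_right hq hc).symm

/-- Passage to the images.  For `x` with `ψ σ x = x φ τ` the image of `x φ` is contained in the image of
`ψ` (`τ` is surjective), so `x φ = ψ y` with a unique `y` (`ψ` is injective), `σ x = y τ` and
`σ ψ y = y τ φ`.  Conversely for given `y` with `σ ψ y = y τ φ` the set of the `x` with `x φ = ψ y` and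
`σ x = y τ` is a coset of `{x | x φ = 0, σ x = 0}`, which has `q^((n - r) (m - s))` elements; it is not
empty: with a left inverse `φ'` of `φ` and a right inverse `σ'` of `σ` take
`x = ψ y φ' + σ' y τ (1 - φ φ')`. -/
theorem card_hom_rec {m n r s : ℕ} {φ : Matrix (Fin n) (Fin r) F} {τ : Matrix (Fin r) (Fin n) F}
    {ψ : Matrix (Fin m) (Fin s) F} {σ : Matrix (Fin s) (Fin m) F}
    (hφ : φ.rank = r) (hτ : τ.rank = r) (hψ : ψ.rank = s) (hσ : σ.rank = s) :
    Nat.card {x : Matrix (Fin m) (Fin n) F // (ψ * σ) * x = x * (φ * τ)} =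
      Fintype.card F ^ ((n - r) * (m - s)) *
        Nat.card {y : Matrix (Fin s) (Fin r) F // (σ * ψ) * y = y * (τ * φ)} := by
  obtain ⟨φ', hφ'⟩ := PII_Hom_left_inv hφ
  obtain ⟨τ', hτ'⟩ := PII_Hom_right_inv hτ
  obtain ⟨ψ', hψ'⟩ := PII_Hom_left_inv hψ
  obtain ⟨σ', hσ'⟩ := PII_Hom_right_inv hσ
  have hr : r ≤ n := by
    have := φ.rank_le_height
    omega
  have hs : s ≤ m := by
    have := ψ.rank_le_height
    omega
  -- the section
  have sec1 : ∀ y : Matrix (Fin s) (Fin r) F,
      (ψ * y * φ' + σ' * y * τ * (1 - φ * φ')) * φ = ψ * y := by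
    intro y
    have e1 : (1 - φ * φ') * φ = 0 := by
      rw [Matrix.sub_mul, Matrix.one_mul, Matrix.mul_assoc, hφ', Matrix.mul_one, sub_self]
    rw [Matrix.add_mul, Matrix.mul_assoc (ψ * y), hφ', Matrix.mul_one,
      Matrix.mul_assoc (σ' * y * τ), e1, Matrix.mul_zero, add_zero]
  have sec2 : ∀ y : Matrix (Fin s) (Fin r) F, (σ * ψ) * y = y * (τ * φ) →
      σ * (ψ * y * φ' + σ' * y * τ * (1 - φ * φ')) = y * τ := by
    intro y hy
    have e1 : σ * (ψ * y * φ') = y * τ * (φ * φ') := by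
      calc σ * (ψ * y * φ') = (σ * ψ * y) * φ' := by simp only [Matrix.mul_assoc]
        _ = y * τ * (φ * φ') := by rw [hy]; simp only [Matrix.mul_assoc]
    have e2 : σ * (σ' * y * τ * (1 - φ * φ')) = y * τ * (1 - φ * φ') := by
      calc σ * (σ' * y * τ * (1 - φ * φ')) = (σ * σ') * (y * τ * (1 - φ * φ')) := by
            simp only [Matrix.mul_assoc]
        _ = y * τ * (1 - φ * φ') := by rw [hσ', Matrix.one_mul]
    rw [Matrix.mul_add, e1, e2, Matrix.mul_sub, Matrix.mul_one]
    abel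
  have key1 : ∀ x : Matrix (Fin m) (Fin n) F, (ψ * σ) * x = x * (φ * τ) →
      ψ * (ψ' * x * φ) = x * φ := by
    intro x hx
    have e1 : x * φ = ψ * (σ * x * τ') := by
      calc x * φ = x * φ * (τ * τ') := by rw [hτ', Matrix.mul_one]
        _ = (x * (φ * τ)) * τ' := by simp only [Matrix.mul_assoc]
        _ = ψ * (σ * x * τ') := by rw [← hx]; simp only [Matrix.mul_assoc]
    calc ψ * (ψ' * x * φ) = ψ * (ψ' * (x * φ)) := by simp only [Matrix.mul_assoc]
      _ = ψ * (ψ' * ψ * (σ * x * τ')) := by rw [e1]; simp only [Matrix.mul_assoc]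
      _ = x * φ := by rw [hψ', Matrix.one_mul, ← e1]
  have key2 : ∀ x : Matrix (Fin m) (Fin n) F, (ψ * σ) * x = x * (φ * τ) →
      (ψ' * x * φ) * τ = σ * x := by
    intro x hx
    calc (ψ' * x * φ) * τ = ψ' * (x * (φ * τ)) := by simp only [Matrix.mul_assoc]
      _ = (ψ' * ψ) * (σ * x) := by rw [← hx]; simp only [Matrix.mul_assoc]
      _ = σ * x := by rw [hψ', Matrix.one_mul]
  have key3 : ∀ x : Matrix (Fin m) (Fin n) F, (ψ * σ) * x = x * (φ * τ) →
      (σ * ψ) * (ψ' * x * φ) = (ψ' * x * φ) * (τ * φ) := by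
    intro x hx
    rw [Matrix.mul_assoc, key1 x hx, ← Matrix.mul_assoc (ψ' * x * φ), key2 x hx,
      Matrix.mul_assoc]
  have e : {x : Matrix (Fin m) (Fin n) F // (ψ * σ) * x = x * (φ * τ)} ≃
      {z : Matrix (Fin m) (Fin n) F // z * φ = 0 ∧ σ * z = 0} ×
        {y : Matrix (Fin s) (Fin r) F // (σ * ψ) * y = y * (τ * φ)} :=
    { toFun := fun x =>
        (⟨x.1 - (ψ * (ψ' * x.1 * φ) * φ' + σ' * (ψ' * x.1 * φ) * τ * (1 - φ * φ')), by
          constructor
          · rw [Matrix.sub_mul, sec1, key1 x.1 x.2, sub_self]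
          · rw [Matrix.mul_sub, sec2 _ (key3 x.1 x.2), key2 x.1 x.2, sub_self]⟩,
          ⟨ψ' * x.1 * φ, key3 x.1 x.2⟩)
      invFun := fun p =>
        ⟨p.1.1 + (ψ * p.2.1 * φ' + σ' * p.2.1 * τ * (1 - φ * φ')), by
          have h1 : σ * (p.1.1 + (ψ * p.2.1 * φ' + σ' * p.2.1 * τ * (1 - φ * φ'))) =
              p.2.1 * τ := by
            rw [Matrix.mul_add, p.1.2.2, sec2 _ p.2.2, zero_add]
          have h2 : (p.1.1 + (ψ * p.2.1 * φ' + σ' * p.2.1 * τ * (1 - φ * φ'))) * φ =
              ψ * p.2.1 := by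
            rw [Matrix.add_mul, p.1.2.1, sec1, zero_add]
          rw [Matrix.mul_assoc ψ σ, h1, ← Matrix.mul_assoc _ φ τ, h2, Matrix.mul_assoc]⟩
      left_inv := fun x => by
        apply Subtype.ext
        simp
      right_inv := fun p => by
        obtain ⟨⟨z, hz, hz'⟩, ⟨y, hy⟩⟩ := p
        have h2 : (z + (ψ * y * φ' + σ' * y * τ * (1 - φ * φ'))) * φ = ψ * y := by
          rw [Matrix.add_mul, hz, sec1, zero_add]
        have h3 : ψ' * (z + (ψ * y * φ' + σ' * y * τ * (1 - φ * φ'))) * φ = y := by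
          rw [Matrix.mul_assoc, h2, ← Matrix.mul_assoc, hψ', Matrix.one_mul]
        ext1
        · apply Subtype.ext
          simp only [h3]
          rw [add_sub_cancel_right]
        · apply Subtype.ext
          exact h3 }
  rw [Nat.card_congr e, Nat.card_prod, PII_Hom_card_Z hφ' hσ' hr hs]

/-- Induction on `m + n` (`card_hom_rec`, `exists_fac`, `hasType_mul_iff`, `mlam_rec`); if `m = 0` or
`n = 0` there is one matrix and `mlam = 0`. -/
theorem card_hom {m n : ℕ} {S : Matrix (Fin m) (Fin m) F} {T : Matrix (Fin n) (Fin n) F}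
    {ν μ : ℕ →₀ ℕ} (hS : HasType S ν) (hT : HasType T μ) :
    Nat.card {x : Matrix (Fin m) (Fin n) F // S * x = x * T} = Fintype.card F ^ (mlam ν μ) := by
  induction' hN : m + n using Nat.strong_induction_on with N ih generalizing m n ν μ
  rcases Nat.eq_zero_or_pos m with hm | hm
  · subst hm
    have hν : ν = 0 := psize_eq_zero.mp hS.size
    subst hν
    have h0 : mlam 0 μ = 0 := by simp [mlam]
    rw [h0, pow_zero]
    have : Unique {x : Matrix (Fin 0) (Fin n) F // S * x = x * T} :=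
      { default := ⟨0, Subsingleton.elim _ _⟩
        uniq := fun a => Subtype.ext (Subsingleton.elim _ _) }
    exact Nat.card_unique
  rcases Nat.eq_zero_or_pos n with hn | hn
  · subst hn
    have hμ : μ = 0 := psize_eq_zero.mp hT.size
    subst hμ
    have h0 : mlam ν 0 = 0 := by simp [mlam]
    rw [h0, pow_zero]
    have : Unique {x : Matrix (Fin m) (Fin 0) F // S * x = x * T} :=
      { default := ⟨0, Subsingleton.elim _ _⟩
        uniq := fun a => Subtype.ext (Subsingleton.elim _ _) }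
    exact Nat.card_unique
  obtain ⟨φ, τ, hφ, hτ, hφτ⟩ := exists_fac T rfl
  obtain ⟨ψ, σ, hψ, hσ, hψσ⟩ := exists_fac S rfl
  have h1 := (hasType_mul_iff hφ hτ μ).mp (by rw [hφτ]; exact hT)
  have h2 := (hasType_mul_iff hψ hσ ν).mp (by rw [hψσ]; exact hS)
  have hμ : μ ≠ 0 := by
    rintro rfl
    have := hT.size
    rw [psize_eq_zero.mpr rfl] at this
    omega
  have hν : ν ≠ 0 := by
    rintro rfl
    have := hS.size
    rw [psize_eq_zero.mpr rfl] at this
    omega
  have hl := lam_zero_pos hμ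
  have hl' := lam_zero_pos hν
  have hr := card_hom_rec hφ hτ hψ hσ
  rw [hφτ, hψσ] at hr
  rw [hr, ih (S.rank + T.rank) (by omega) h2.2 h1.2 rfl, ← pow_add]
  congr 1
  rw [mlam_rec ν μ]
  have e1 : n - T.rank = lam μ 0 := by omega
  have e2 : m - S.rank = lam ν 0 := by omega
  rw [e1, e2, Nat.mul_comm]

end Pool.Agent.H27.KAC

end

section

/-!
Project KAC, part II.1: the number of nilpotent matrices of a given type.
-/

set_option autoImplicit false

namespace Pool.Agent.H27.KAC

open scoped BigOperators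

variable (F : Type) [Field F] [Fintype F]

/-- A matrix of type `μ` has rank `n - lam μ 0`. -/
theorem num_rank {F : Type} [Field F] {n : ℕ} {T : Matrix (Fin n) (Fin n) F} {μ : ℕ →₀ ℕ}
    (h : HasType T μ) : T.rank + lam μ 0 = n := by
  have h1 := h.2 0
  rw [pow_zero, zero_add, pow_one, Matrix.rank_one, Fintype.card_fin] at h1
  exact h1.symm

/-- The number of the nilpotent matrices of type `μ`. -/
noncomputable def Nty (n : ℕ) (μ : ℕ →₀ ℕ) : ℚ :=
  (Nat.card {T : Matrix (Fin n) (Fin n) F // HasType T μ} : ℚ)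

/-- Count the pairs `(φ, τ)` with `φ * τ` of type `μ` in two ways: for given `T = φ * τ` (its rank is
`r = n - lam μ 0`) there are `|GL_r|` of them (`card_fac`); for given `φ` (`card_full`) and given
`S = τ * φ` of type `shf μ` (`hasType_mul_iff`; the rank of `S` is `r - lam μ 1`) use `card_ext`. -/
theorem Nty_rec {n r : ℕ} {μ : ℕ →₀ ℕ} (h : psize μ = n) (hr : r + lam μ 0 = n) :
    (Nat.card (Matrix (Fin r) (Fin r) F)ˣ : ℚ) * Nty F n μ =
      (∏ i ∈ Finset.range r, ((Fintype.card F : ℚ) ^ n - (Fintype.card F : ℚ) ^ i)) *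
        (Nty F r (shf μ) * ((Fintype.card F : ℚ) ^ (lam μ 0 * (r - lam μ 1)) *
          ∏ i ∈ Finset.range (lam μ 1),
            ((Fintype.card F : ℚ) ^ (lam μ 0) - (Fintype.card F : ℚ) ^ i))) := by
  classical
  have _ := h
  -- the pairs
  let X := {p : Matrix (Fin n) (Fin r) F × Matrix (Fin r) (Fin n) F //
    p.1.rank = r ∧ p.2.rank = r ∧ HasType (p.1 * p.2) μ}
  -- first way
  have h1 : Nat.card X = Nat.card (Matrix (Fin r) (Fin r) F)ˣ *
      Nat.card {T : Matrix (Fin n) (Fin n) F // HasType T μ} := by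
    let e : X ≃ Σ T : {T : Matrix (Fin n) (Fin n) F // HasType T μ},
        {p : Matrix (Fin n) (Fin r) F × Matrix (Fin r) (Fin n) F //
          p.1.rank = r ∧ p.2.rank = r ∧ p.1 * p.2 = T.1} :=
      { toFun := fun p => ⟨⟨p.1.1 * p.1.2, p.2.2.2⟩, ⟨p.1, p.2.1, p.2.2.1, rfl⟩⟩
        invFun := fun x => ⟨x.2.1, x.2.2.1, x.2.2.2.1, by
          rw [x.2.2.2.2]
          exact x.1.2⟩
        left_inv := fun p => rfl
        right_inv := fun x => by
          obtain ⟨⟨T, hT⟩, ⟨p, hp⟩⟩ := x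
          obtain rfl : p.1 * p.2 = T := hp.2.2
          rfl }
    have : Fintype {T : Matrix (Fin n) (Fin n) F // HasType T μ} := Fintype.ofFinite _
    rw [Nat.card_congr e, Nat.card_sigma, Finset.sum_congr rfl fun T _ => ?_, Finset.sum_const,
      Finset.card_univ, smul_eq_mul, mul_comm, Nat.card_eq_fintype_card (α := {T // HasType T μ})]
    have h2 := num_rank T.2
    exact card_fac T.1 (by omega)
  -- second way
  have h2 : (Nat.card X : ℚ) =
      (∏ i ∈ Finset.range r, ((Fintype.card F : ℚ) ^ n - (Fintype.card F : ℚ) ^ i)) *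
        (Nty F r (shf μ) * ((Fintype.card F : ℚ) ^ (lam μ 0 * (r - lam μ 1)) *
          ∏ i ∈ Finset.range (lam μ 1),
            ((Fintype.card F : ℚ) ^ (lam μ 0) - (Fintype.card F : ℚ) ^ i))) := by
    let e : X ≃ Σ y : {φ : Matrix (Fin n) (Fin r) F // φ.rank = r} ×
        {S : Matrix (Fin r) (Fin r) F // HasType S (shf μ)},
        {τ : Matrix (Fin r) (Fin n) F // τ.rank = r ∧ τ * y.1.1 = y.2.1} :=
      { toFun := fun p => ⟨(⟨p.1.1, p.2.1⟩, ⟨p.1.2 * p.1.1,
          ((hasType_mul_iff p.2.1 p.2.2.1 μ).1 p.2.2.2).2⟩), ⟨p.1.2, p.2.2.1, rfl⟩⟩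
        invFun := fun x => ⟨(x.1.1.1, x.2.1), x.1.1.2, x.2.2.1,
          (hasType_mul_iff x.1.1.2 x.2.2.1 μ).2 ⟨hr, by
            rw [x.2.2.2]
            exact x.1.2.2⟩⟩
        left_inv := fun p => rfl
        right_inv := fun x => by
          obtain ⟨⟨⟨φ, hφ⟩, ⟨S, hS⟩⟩, ⟨τ, hτ⟩⟩ := x
          obtain rfl : τ * φ = S := hτ.2
          rfl }
    have : Fintype {φ : Matrix (Fin n) (Fin r) F // φ.rank = r} := Fintype.ofFinite _
    have : Fintype {S : Matrix (Fin r) (Fin r) F // HasType S (shf μ)} := Fintype.ofFinite _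
    rw [Nat.card_congr e, Nat.card_sigma, Nat.cast_sum, Finset.sum_congr rfl fun y _ => ?_,
      Finset.sum_const, Finset.card_univ, Fintype.card_prod, nsmul_eq_mul, Nat.cast_mul,
      ← Nat.card_eq_fintype_card (α := {φ : Matrix (Fin n) (Fin r) F // φ.rank = r}),
      ← Nat.card_eq_fintype_card (α := {S : Matrix (Fin r) (Fin r) F // HasType S (shf μ)}),
      card_full, mul_assoc]
    · rfl
    · have h3 := num_rank y.2.2
      rw [lam_shf, zero_add] at h3
      rw [card_ext F y.1.2 h3, show n - r = lam μ 0 by omega]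
  rw [← h2, h1, Nat.cast_mul]
  rfl

/-- The last factors of the order of `GL_a`. -/
theorem num_prod {q : ℚ} (hq : 1 < q) (s b : ℕ) :
    ∏ j ∈ Finset.range b, (q ^ (s + b) - q ^ (s + j)) = q ^ ((s + b) * b) * qpoch q b := by
  have hq0 : q ≠ 0 := by positivity
  unfold qpoch
  rw [← Finset.prod_range_reflect, pow_mul, ← Finset.card_range b, ← Finset.prod_const,
    Finset.card_range, ← Finset.prod_mul_distrib]
  refine Finset.prod_congr rfl fun j hj => ?_
  rw [Finset.mem_range] at hj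
  have h1 : s + b = (s + (b - 1 - j)) + (j + 1) := by omega
  rw [mul_sub, mul_one, inv_pow]
  congr 1
  rw [eq_mul_inv_iff_mul_eq₀ (pow_ne_zero _ hq0), ← pow_add, ← h1]

theorem num_qpoch {q : ℚ} (hq : 1 < q) (b : ℕ) : qpoch q b ≠ 0 := by
  unfold qpoch
  rw [Finset.prod_ne_zero_iff]
  intro j _
  have h1 : q⁻¹ < 1 := inv_lt_one_of_one_lt₀ hq
  have h2 : 0 < q⁻¹ := by positivity
  have h3 : q⁻¹ ^ (j + 1) < 1 := pow_lt_one₀ h2.le h1 (Nat.succ_ne_zero j)
  linarith

/-- The arithmetic of the recursion: with `a = n - r`, `s ≤ a`, `s ≤ r`, `q > 1`: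
`∏_(i<r) (q^n - q^i) * q^(a (r - s)) * ∏_(i<s) (q^a - q^i) =
  ∏_(i<n) (q^n - q^i) * q^(-a²) / (q⁻¹; q⁻¹)_(a - s)`.
Proof: `∏_(i<n) (q^n - q^i) = ∏_(i<r) (q^n - q^i) * q^(r a) * ∏_(i<a) (q^a - q^i)`,
`∏_(s≤i<a) (q^a - q^i) = q^(a (a - s)) * (q⁻¹; q⁻¹)_(a - s)`. -/
theorem num_aux {q : ℚ} (hq : 1 < q) {n r a s : ℕ} (hn : r + a = n) (hs : s ≤ a) (hsr : s ≤ r) :
    (∏ i ∈ Finset.range r, (q ^ n - q ^ i)) * (q ^ (a * (r - s)) *
        ∏ i ∈ Finset.range s, (q ^ a - q ^ i)) =
      (∏ i ∈ Finset.range n, (q ^ n - q ^ i)) * (q ^ (-((a * a : ℕ) : ℤ)) *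
        (qpoch q (a - s))⁻¹) := by
  have hq0 : q ≠ 0 := by positivity
  obtain ⟨b, rfl⟩ : ∃ b, a = s + b := ⟨a - s, by omega⟩
  obtain ⟨t, rfl⟩ : ∃ t, r = s + t := ⟨r - s, by omega⟩
  subst hn
  have h1 : ∏ i ∈ Finset.range (s + t + (s + b)), (q ^ (s + t + (s + b)) - q ^ i) =
      (∏ i ∈ Finset.range (s + t), (q ^ (s + t + (s + b)) - q ^ i)) *
        (q ^ ((s + t) * (s + b)) * ∏ j ∈ Finset.range (s + b), (q ^ (s + b) - q ^ j)) := by
    rw [Finset.prod_range_add, pow_mul, ← Finset.card_range (s + b), ← Finset.prod_const,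
      Finset.card_range, ← Finset.prod_mul_distrib]
    congr 1
    refine Finset.prod_congr rfl fun j _ => ?_
    rw [mul_sub, ← pow_add, ← pow_add]
  have h2 : ∏ j ∈ Finset.range (s + b), (q ^ (s + b) - q ^ j) =
      (∏ j ∈ Finset.range s, (q ^ (s + b) - q ^ j)) * (q ^ ((s + b) * b) * qpoch q b) := by
    rw [Finset.prod_range_add, num_prod hq]
  rw [h1, h2, show s + b - s = b by omega, show s + t - s = t by omega, zpow_neg, zpow_natCast]
  have h3 := num_qpoch hq b
  have h4 : q ^ ((s + b) * (s + b)) ≠ 0 := pow_ne_zero _ hq0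
  field_simp
  ring

/-- Induction on `n`: for `n = 0` (`μ = 0`) there is one matrix; otherwise `Nty_rec`, `num_aux` with
`a = lam μ 0`, `s = lam μ 1`, `a - s = μ 0`, `mlam_rec`, `prod_shf`. -/
theorem Nty_eq {n : ℕ} {μ : ℕ →₀ ℕ} (h : psize μ = n) :
    Nty F n μ = (Nat.card (Matrix (Fin n) (Fin n) F)ˣ : ℚ) *
      ((Fintype.card F : ℚ) ^ (-((mlam μ μ : ℕ) : ℤ)) *
        μ.prod fun _ x => (qpoch (Fintype.card F : ℚ) x)⁻¹) := by
  induction n using Nat.strong_induction_on generalizing μ with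
  | _ n ih =>
    have hq : (1 : ℚ) < Fintype.card F := by exact_mod_cast Fintype.one_lt_card (α := F)
    by_cases hμ : μ = 0
    · subst hμ
      have hn : n = 0 := by rw [← h, psize_eq_zero]
      subst hn
      have h1 : Nty F 0 0 = 1 := by
        unfold Nty
        have h2 : ∀ T : Matrix (Fin 0) (Fin 0) F, HasType T 0 := by
          intro T
          refine ⟨⟨1, Subsingleton.elim _ _⟩, fun k => ?_⟩
          rw [lam_zero_left, add_zero, Subsingleton.elim (T ^ k) (T ^ (k + 1))]
        rw [Nat.card_congr (Equiv.subtypeUnivEquiv h2), Nat.card_unique, Nat.cast_one]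
      have h3 : mlam 0 0 = 0 := by
        unfold mlam
        rw [Finsupp.sum_zero_index]
      rw [h1, card_units, Finset.prod_range_zero, h3, Finsupp.prod_zero_index]
      simp
    · have hps := psize_shf μ
      have hpos := lam_zero_pos hμ
      have hls := lam_succ μ 0
      have hsr : lam μ 1 ≤ psize (shf μ) := by
        have h1 := psize_shf (shf μ)
        rw [lam_shf, zero_add] at h1
        omega
      rw [zero_add] at hls
      have hr : psize (shf μ) + lam μ 0 = n := by omega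
      have h1 := Nty_rec F h hr
      rw [ih (psize (shf μ)) (by omega) rfl] at h1
      have h2 := num_aux hq hr (s := lam μ 1) (by omega) hsr
      rw [show lam μ 0 - lam μ 1 = μ 0 by omega] at h2
      have h3 : (Nat.card (Matrix (Fin (psize (shf μ))) (Fin (psize (shf μ))) F)ˣ : ℚ) ≠ 0 := by
        have : Nat.card (Matrix (Fin (psize (shf μ))) (Fin (psize (shf μ))) F)ˣ ≠ 0 :=
          Nat.card_pos.ne'
        exact_mod_cast this
      apply mul_left_cancel₀ h3
      rw [h1, card_units F n, mlam_rec μ μ,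
        prod_shf (fun x => (qpoch (Fintype.card F : ℚ) x)⁻¹) (by simp [qpoch]) μ]
      have hq0 : (Fintype.card F : ℚ) ≠ 0 := by positivity
      have h4 : (Fintype.card F : ℚ) ^
          (-((lam μ 0 * lam μ 0 + mlam (shf μ) (shf μ) : ℕ) : ℤ)) =
          (Fintype.card F : ℚ) ^ (-((lam μ 0 * lam μ 0 : ℕ) : ℤ)) *
            (Fintype.card F : ℚ) ^ (-((mlam (shf μ) (shf μ) : ℕ) : ℤ)) := by
        rw [← zpow_add₀ hq0]
        congr 1
        push_cast
        ring
      rw [h4]
      linear_combination (Nat.card (Matrix (Fin (psize (shf μ))) (Fin (psize (shf μ))) F)ˣ : ℚ) *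
        ((Fintype.card F : ℚ) ^ (-((mlam (shf μ) (shf μ) : ℕ) : ℤ)) *
          (shf μ).prod fun _ x => (qpoch (Fintype.card F : ℚ) x)⁻¹) * h2

end Pool.Agent.H27.KAC

end

section

/-!
Project KAC, part I.1, module PI_Cent: the condition `AIc` modulo a nil ideal.

PROOF SKETCH.  `q = card F`, characteristic `p`.
* `pow_eq_self_of_sol`: `X * π` divides `X^(q^N) - X` (`π` is irreducible of degree `N` and not `X`).
* `aic_map_iff`, from right to left (the other direction needs a lift of the centralizer): let `δ c = v c - c v`.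
  `L_v` and `R_v` (left and right multiplication) commute, so `δ^(q^N) = L_v^(q^N) - R_v^(q^N) = L_v - R_v = δ`
  in characteristic `p`.  If `c'` commutes with `p v`, lift `c'` to `c₀` and put `c = c₀ - δ^(q^N - 1) c₀`; then
  `δ c = 0` and `p c = c'`.  `v (c - f(v))` is nilpotent iff its image is nilpotent, since the kernel is nil.
  (The trivial ring has to be treated apart for `CharP`.)
-/

set_option autoImplicit false

namespace Pool.Agent.H27.KAC

open scoped BigOperators
open Polynomial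

theorem pow_eq_self_of_sol {F : Type} [Field F] [Fintype F] {R : Type} [Ring R] [Algebra F R]
    {π : F[X]} {N : ℕ} (hπ : GoodPi F π N) (v : R) (hv : v * aeval v π = 0) :
    v ^ (Fintype.card F ^ N) = v := by
  classical
  have : Fact (Irreducible π) := ⟨hπ.irr⟩
  have hπ0 : π ≠ 0 := hπ.irr.ne_zero
  have : Module.Finite F (AdjoinRoot π) := (AdjoinRoot.powerBasis hπ0).finite
  have : Finite (AdjoinRoot π) := Module.finite_of_finite F
  have := Fintype.ofFinite (AdjoinRoot π)
  have hcard : Fintype.card (AdjoinRoot π) = Fintype.card F ^ N := by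
    rw [Module.card_eq_pow_finrank (K := F), (AdjoinRoot.powerBasis hπ0).finrank,
      AdjoinRoot.powerBasis_dim, hπ.deg]
  have hq : Fintype.card F ^ N ≠ 0 := by
    have := Fintype.card_pos (α := F)
    positivity
  have h1 : π ∣ X ^ (Fintype.card F ^ N) - X := by
    rw [← AdjoinRoot.mk_eq_zero, map_sub, map_pow, AdjoinRoot.mk_X, ← hcard,
      FiniteField.pow_card, sub_self]
  have h2 : (X : F[X]) ∣ X ^ (Fintype.card F ^ N) - X := dvd_sub (dvd_pow_self X hq) dvd_rfl
  have h3 : IsCoprime (X : F[X]) π := by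
    rw [Irreducible.coprime_iff_not_dvd irreducible_X, X_dvd_iff]
    exact hπ.zero
  obtain ⟨g, hg⟩ := h3.mul_dvd h2 h1
  have h4 := congrArg (aeval v) hg
  rw [map_mul, map_mul, aeval_X, hv, zero_mul, map_sub, map_pow, aeval_X] at h4
  exact sub_eq_zero.mp h4

theorem aic_map_iff {F : Type} [Field F] [Fintype F] {R S : Type} [Ring R] [Algebra F R]
    [Ring S] [Algebra F S] (p : R →ₐ[F] S) (hp : Function.Surjective p)
    (hk : ∀ x, p x = 0 → IsNilpotent x) {N : ℕ} (hN : 1 ≤ N) (v : R)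
    (hv : v ^ (Fintype.card F ^ N) = v) : AIc F (p v) ↔ AIc F v := by
  constructor
  · intro h c hc
    obtain ⟨f, n, hf⟩ := h (p c) (by rw [← map_mul, hc, map_mul])
    refine ⟨f, ?_⟩
    have h1 : p ((v * (c - aeval v f)) ^ n) = 0 := by
      rw [map_pow, map_mul, map_sub, ← aeval_algHom_apply]
      exact hf
    obtain ⟨k, hk2⟩ := hk _ h1
    exact ⟨n * k, by rw [pow_mul]; exact hk2⟩
  · intro h c' hc'
    rcases subsingleton_or_nontrivial R with hR | hR
    · have : Subsingleton S := hp.subsingleton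
      exact ⟨0, 1, Subsingleton.elim _ _⟩
    obtain ⟨c₀, rfl⟩ := hp c'
    obtain ⟨ℓ, hchar, n, hprime, hcardF⟩ := FiniteField.card' F
    have : Fact ℓ.Prime := ⟨hprime⟩
    have : Nontrivial (Module.End F R) := inferInstance
    have : CharP (Module.End F R) ℓ :=
      charP_of_injective_algebraMap (algebraMap F (Module.End F R)).injective ℓ
    have hδ : (LinearMap.mulLeft F v - LinearMap.mulRight F v) ^ (Fintype.card F ^ N) =
        LinearMap.mulLeft F v - LinearMap.mulRight F v := by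
      have h1 : Fintype.card F ^ N = ℓ ^ ((n : ℕ) * N) := by
        rw [hcardF, ← pow_mul]
      rw [h1, sub_pow_char_pow_of_commute _ _ (LinearMap.commute_mulLeft_right v v),
        LinearMap.pow_mulLeft, LinearMap.pow_mulRight, ← h1, hv]
    set δ := LinearMap.mulLeft F v - LinearMap.mulRight F v with hδd
    have hδa : ∀ x, δ x = v * x - x * v := by
      intro x
      rw [hδd, LinearMap.sub_apply, LinearMap.mulLeft_apply, LinearMap.mulRight_apply]
    obtain ⟨M, hM⟩ : ∃ M, Fintype.card F ^ N = M + 2 := by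
      have h2 : 2 ≤ Fintype.card F := Fintype.one_lt_card
      have h3 : Fintype.card F ^ 1 ≤ Fintype.card F ^ N := Nat.pow_le_pow_right (by omega) hN
      rw [pow_one] at h3
      exact ⟨Fintype.card F ^ N - 2, by omega⟩
    rw [hM] at hδ
    have hpow : ∀ k, p ((δ ^ (k + 1)) c₀) = 0 := by
      intro k
      induction k with
      | zero =>
        rw [zero_add, pow_one, hδa, map_sub, map_mul, map_mul, hc', sub_self]
      | succ k ih =>
        rw [pow_succ' δ (k + 1), Module.End.mul_apply, hδa, map_sub, map_mul, map_mul, ih,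
          mul_zero, zero_mul, sub_self]
    have hc : (c₀ - (δ ^ (M + 1)) c₀) * v = v * (c₀ - (δ ^ (M + 1)) c₀) := by
      have h1 : δ (c₀ - (δ ^ (M + 1)) c₀) = 0 := by
        rw [map_sub, ← Module.End.mul_apply, ← pow_succ', hδ, sub_self]
      rw [hδa] at h1
      exact (sub_eq_zero.mp h1).symm
    have hpc : p (c₀ - (δ ^ (M + 1)) c₀) = p c₀ := by
      rw [map_sub, hpow, sub_zero]
    obtain ⟨f, m, hf⟩ := h _ hc
    refine ⟨f, m, ?_⟩
    have h1 := congrArg p hf
    rw [map_pow, map_mul, map_sub p _ (aeval v f), hpc, ← aeval_algHom_apply, map_zero] at h1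
    exact h1

end Pool.Agent.H27.KAC

end

section

/-!
Project KAC, part I.1, module PI_Fib: number of the lifts of a pair `(v', T')` modulo a nil ideal.

PROOF SKETCH.  `q = card F`, characteristic `p`, `m = q^(N * M)` with `M` large (`M = Nat.card R` is enough:
`x^m = 0` for each nilpotent `x` of `R` or `S`, since `m ≥ M ≥` nilpotency index).  `P = X * π`.
The map `(v, T) ↦ v + T` is a bijection of the set of the left hand side with `{u : R // p u = v' + T'}`
(a coset of the kernel).  Inverse: `v = u^m`, `T = u - v`.  Indeed `P(v' + T')` is nilpotent (`T'` is nilpotent, commutes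
with `v'` and `P(v') = 0`), so `P(u)` is nilpotent (the kernel is nil), so `P(v) = P(u^m) = P(u)^m = 0` (the coefficients
are in `F_q`: `Polynomial.expand_card`, `aeval u (f^q) = aeval (u^q) f`), so `v^m = v` (`pow_eq_self_of_sol`) and
`(u - v)^m = u^m - v^m = v - v = 0`; `p v = (v' + T')^m = v'^m + T'^m = v'`; `AIc` by `aic_map_iff`.
For `(v, T)` with `Dat`: `(v + T)^m = v^m + T^m = v`.
-/

set_option autoImplicit false

namespace Pool.Agent.H27.KAC

open scoped BigOperators
open Polynomial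

private theorem Fib_deg {F : Type} [Field F] {π : F[X]} {N : ℕ} (hπ : GoodPi F π N) : 1 ≤ N := by
  have h := hπ.irr.natDegree_pos
  rw [hπ.deg] at h
  exact h

theorem dat_map {F : Type} [Field F] [Fintype F] {R S : Type} [Ring R] [Algebra F R]
    [Ring S] [Algebra F S] (p : R →ₐ[F] S) (hp : Function.Surjective p)
    (hk : ∀ x, p x = 0 → IsNilpotent x) {π : F[X]} {N : ℕ} (hπ : GoodPi F π N) {v T : R}
    (h : Dat F π v T) : Dat F π (p v) (p T) := by
  obtain ⟨⟨h1, h2, h3⟩, h4⟩ := h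
  refine ⟨⟨?_, h2.map p, ?_⟩, ?_⟩
  · rw [Polynomial.aeval_algHom_apply, ← map_mul, h1, map_zero]
  · rw [← map_mul, ← map_mul, h3]
  · exact (aic_map_iff p hp hk (Fib_deg hπ) v (pow_eq_self_of_sol hπ v h1)).2 h4

private theorem Fib_add_pow {F : Type} [Field F] [Fintype F] {R : Type} [Ring R] [Algebra F R]
    {x y : R} (h : Commute x y) (k : ℕ) :
    (x + y) ^ (Fintype.card F ^ k) = x ^ (Fintype.card F ^ k) + y ^ (Fintype.card F ^ k) := by
  obtain ⟨p, hp⟩ := CharP.exists F
  obtain ⟨n, hpp, hcard⟩ := FiniteField.card F p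
  have hp0 : (p : R) = 0 := by
    have h1 : algebraMap F R (p : F) = (p : R) := map_natCast (algebraMap F R) p
    rw [← h1, CharP.cast_eq_zero, map_zero]
  rw [hcard, ← pow_mul, h.add_pow_prime_pow_eq hpp, hp0, zero_mul, zero_mul, zero_mul, add_zero]

private theorem Fib_sub_pow {F : Type} [Field F] [Fintype F] {R : Type} [Ring R] [Algebra F R]
    {x y : R} (h : Commute x y) (k : ℕ) :
    (x - y) ^ (Fintype.card F ^ k) = x ^ (Fintype.card F ^ k) - y ^ (Fintype.card F ^ k) := by
  have h1 : Commute (x - y) y := (h.sub_left (Commute.refl y))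
  have h2 := Fib_add_pow (F := F) h1 k
  rw [sub_add_cancel] at h2
  rw [h2, add_sub_cancel_right]

private theorem Fib_aeval_pow {F : Type} [Field F] [Fintype F] {R : Type} [Ring R] [Algebra F R]
    (u : R) (f : F[X]) (k : ℕ) :
    aeval (u ^ (Fintype.card F ^ k)) f = (aeval u f) ^ (Fintype.card F ^ k) := by
  induction k with
  | zero => simp
  | succ k ih =>
    rw [pow_succ, pow_mul, ← Polynomial.expand_aeval, FiniteField.expand_card, map_pow, ih, ← pow_mul]

private theorem Fib_iter {R : Type} [Ring R] {v : R} {a : ℕ} (h : v ^ a = v) (M : ℕ) : v ^ (a ^ M) = v := by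
  induction M with
  | zero => simp
  | succ M ih => rw [pow_succ, pow_mul, ih, h]

private theorem Fib_bound (R : Type) [Ring R] [Finite R] :
    ∃ K : ℕ, ∀ x : R, IsNilpotent x → ∀ k, K ≤ k → x ^ k = 0 := by
  classical
  haveI := Fintype.ofFinite R
  refine ⟨∑ x : R, nilpotencyClass x, fun x hx k hk => ?_⟩
  have h1 : nilpotencyClass x ≤ k :=
    (Finset.single_le_sum (f := fun x : R => nilpotencyClass x) (fun _ _ => Nat.zero_le _)
      (Finset.mem_univ x)).trans hk
  exact pow_eq_zero_of_le h1 (pow_nilpotencyClass hx)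

theorem fiber_card {F : Type} [Field F] [Fintype F] {R S : Type} [Ring R] [Algebra F R] [Finite R]
    [Ring S] [Algebra F S] (p : R →ₐ[F] S) (hp : Function.Surjective p)
    (hk : ∀ x, p x = 0 → IsNilpotent x) {π : F[X]} {N : ℕ} (hπ : GoodPi F π N) (v' T' : S)
    (h : Dat F π v' T') :
    Nat.card {w : R × R // Dat F π w.1 w.2 ∧ p w.1 = v' ∧ p w.2 = T'} =
      Nat.card {x : R // p x = 0} := by
  have : Finite S := Finite.of_surjective p hp
  obtain ⟨K1, hK1⟩ := Fib_bound R
  obtain ⟨K2, hK2⟩ := Fib_bound S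
  have hN := Fib_deg hπ
  set M : ℕ := K1 + K2 with hM
  set m : ℕ := Fintype.card F ^ (N * M) with hm
  have hq : 2 ≤ Fintype.card F := Fintype.one_lt_card
  have hmM : M ≤ m := by
    have h1 : M < 2 ^ M := Nat.lt_two_pow_self
    have h2 : 2 ^ M ≤ Fintype.card F ^ M := Nat.pow_le_pow_left hq M
    have h3 : Fintype.card F ^ M ≤ Fintype.card F ^ (N * M) :=
      Nat.pow_le_pow_right (by omega) (Nat.le_mul_of_pos_left M (by omega))
    omega
  have hmR : ∀ x : R, IsNilpotent x → x ^ m = 0 := fun x hx => hK1 x hx m (by omega)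
  have hmS : ∀ x : S, IsNilpotent x → x ^ m = 0 := fun x hx => hK2 x hx m (by omega)
  have hsolR : ∀ v : R, v * aeval v π = 0 → v ^ m = v := by
    intro v hv
    rw [hm, pow_mul]
    exact Fib_iter (pow_eq_self_of_sol hπ v hv) M
  have hsolS : ∀ v : S, v * aeval v π = 0 → v ^ m = v := by
    intro v hv
    rw [hm, pow_mul]
    exact Fib_iter (pow_eq_self_of_sol hπ v hv) M
  obtain ⟨⟨hv', hT', hc'⟩, hA'⟩ := h
  have hpow' : (v' + T') ^ m = v' := by
    have hcomm : Commute v' T' := hc'.symm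
    rw [hm, Fib_add_pow (F := F) hcomm, ← hm, hsolS v' hv', hmS T' hT', add_zero]
  -- the inverse map
  have hinv : ∀ u : R, p u = v' + T' → Dat F π (u ^ m) (u - u ^ m) ∧ p (u ^ m) = v' ∧
      p (u - u ^ m) = T' := by
    intro u hu
    have hpu : p (u ^ m) = v' := by rw [map_pow, hu, hpow']
    have hP : (aeval u (X * π)) ^ m = 0 := by
      have h1 : (aeval (p u) (X * π)) ^ m = 0 := by
        rw [hm, ← Fib_aeval_pow, ← hm, hu, hpow', map_mul, aeval_X, hv']
      have h2 : p ((aeval u (X * π)) ^ m) = 0 := by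
        rw [map_pow, ← Polynomial.aeval_algHom_apply, h1]
      have h3 : IsNilpotent (aeval u (X * π)) := by
        obtain ⟨k, hk'⟩ := hk _ h2
        exact ⟨m * k, by rw [pow_mul, hk']⟩
      exact hmR _ h3
    have hv : (u ^ m) * aeval (u ^ m) π = 0 := by
      have h1 : aeval (u ^ m) (X * π) = 0 := by
        rw [hm, Fib_aeval_pow, ← hm, hP]
      rw [map_mul, aeval_X] at h1
      exact h1
    have hcomm : Commute u (u ^ m) := (Commute.refl u).pow_right m
    have hT : IsNilpotent (u - u ^ m) := by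
      refine ⟨m, ?_⟩
      have h1 : (u - u ^ m) ^ m = u ^ m - (u ^ m) ^ m := by
        rw [hm, Fib_sub_pow (F := F)]
        rw [← hm]
        exact hcomm
      rw [h1, hsolR (u ^ m) hv, sub_self]
    refine ⟨⟨⟨hv, hT, ?_⟩, ?_⟩, hpu, ?_⟩
    · exact (hcomm.sub_left (Commute.refl (u ^ m))).eq
    · refine (aic_map_iff p hp hk hN (u ^ m) (pow_eq_self_of_sol hπ (u ^ m) hv)).1 ?_
      rw [hpu]
      exact hA'
    · rw [map_sub, hpu, hu, add_sub_cancel_left]
  obtain ⟨u0, hu0⟩ := hp (v' + T')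
  refine Nat.card_congr
    { toFun := fun w => ⟨w.1.1 + w.1.2 - u0, by
        rw [map_sub, map_add, w.2.2.1, w.2.2.2, hu0, sub_self]⟩
      invFun := fun x => ⟨((x.1 + u0) ^ m, (x.1 + u0) - (x.1 + u0) ^ m), by
        exact hinv (x.1 + u0) (by rw [map_add, x.2, hu0, zero_add])⟩
      left_inv := ?_
      right_inv := ?_ }
  · rintro ⟨⟨v, T⟩, ⟨⟨⟨hv, hT, hc⟩, hA⟩, hpv, hpT⟩⟩
    apply Subtype.ext
    change ((v + T - u0 + u0) ^ m, (v + T - u0 + u0) - (v + T - u0 + u0) ^ m) = (v, T)
    have hcomm : Commute v T := hc.symm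
    have h1 : (v + T) ^ m = v := by
      rw [hm, Fib_add_pow (F := F) hcomm, ← hm, hsolR v hv, hmR T hT, add_zero]
    rw [sub_add_cancel, h1, add_sub_cancel_left]
  · rintro ⟨x, hx⟩
    apply Subtype.ext
    change (x + u0) ^ m + ((x + u0) - (x + u0) ^ m) - u0 = x
    abel

end Pool.Agent.H27.KAC

end

section

/-!
Project KAC, part I.2: transport of `kacCount` along relations, values of `kacOne`, simple and disconnected
dimension vectors, relabelling of the vertices.
-/

set_option autoImplicit false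

namespace Pool.Agent.H27.KAC

open scoped BigOperators
open Polynomial

/-- Polynomials with the same values at all the primes are equal. -/
theorem kacPoly_unique' {I E : Type} (Q : Quiv I E) (α : I → ℕ) (p p' : ℚ[X])
    (h : IsKacPoly Q α p) (h' : IsKacPoly Q α p') : p = p' := by
  apply Polynomial.eq_of_infinite_eval_eq
  have h1 : Set.Infinite ((fun n : ℕ => (n : ℚ)) '' {n | Nat.Prime n}) :=
    Nat.infinite_setOfPred_prime.image (Nat.cast_injective.injOn)
  refine h1.mono ?_
  rintro _ ⟨n, hn, rfl⟩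
  have : Fact (Nat.Prime n) := ⟨hn⟩
  have e1 := h (ZMod n)
  have e2 := h' (ZMod n)
  rw [ZMod.card] at e1 e2
  show p.eval (n : ℚ) = p'.eval (n : ℚ)
  rw [← e1, ← e2]

/-- `kacPoly_exists`/`kacOne` are in `Interface.lean`; here the value at one of any Kac polynomial. -/
theorem kacPoly_choose {I E : Type} (Q : Quiv I E) (α : I → ℕ) (p : ℚ[X]) (h : IsKacPoly Q α p)
    (h' : ∃ p : ℚ[X], IsKacPoly Q α p) : (Classical.choose h').eval 1 = p.eval 1 := by
  rw [kacPoly_unique' Q α _ p (Classical.choose_spec h') h]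

theorem isKacPoly_congr {I E I' E' : Type} (Q : Quiv I E) (Q' : Quiv I' E') (α : I → ℕ)
    (α' : I' → ℕ)
    (h : ∀ (F : Type) [Field F] [Fintype F], kacCount Q F α = kacCount Q' F α') (p : ℚ[X]) :
    IsKacPoly Q α p ↔ IsKacPoly Q' α' p := by
  unfold IsKacPoly
  constructor
  · intro hp F _ _
    rw [← h F]
    exact hp F
  · intro hp F _ _
    rw [h F]
    exact hp F

/-- Transport of the number of classes along a relation. -/
theorem ncard_classes_eq {X Y : Type} (A : X → Prop) (B : Y → Prop) (r : X → X → Prop)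
    (s : Y → Y → Prop) (hr : Equivalence r) (hs : Equivalence s) (R : X → Y → Prop)
    (h1 : ∀ x, A x → ∃ y, B y ∧ R x y) (h2 : ∀ y, B y → ∃ x, A x ∧ R x y)
    (h3 : ∀ x x' y y', R x y → R x' y' → (r x x' ↔ s y y')) :
    Set.ncard {c : Set X | ∃ x, A x ∧ c = {z | r x z}} =
      Set.ncard {c : Set Y | ∃ y, B y ∧ c = {z | s y z}} := by
  have hclass : ∀ {Z : Type} (t : Z → Z → Prop), Equivalence t → ∀ z z' : Z,
      ({w | t z w} : Set Z) = {w | t z' w} ↔ t z z' := by
    intro Z t ht z z'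
    constructor
    · intro h
      have : z' ∈ ({w | t z w} : Set Z) := by rw [h]; exact ht.refl z'
      exact this
    · intro h
      ext w
      exact ⟨fun hw => ht.trans (ht.symm h) hw, fun hw => ht.trans h hw⟩
  refine Set.ncard_congr (fun c hc => {w | s (Classical.choose (h1 (Classical.choose hc)
    (Classical.choose_spec hc).1)) w}) ?_ ?_ ?_
  · intro c hc
    exact ⟨_, (Classical.choose_spec (h1 (Classical.choose hc)
      (Classical.choose_spec hc).1)).1, rfl⟩
  · intro c c' hc hc' h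
    have e1 := (hclass s hs _ _).1 h
    have e2 := (h3 _ _ _ _ (Classical.choose_spec (h1 (Classical.choose hc)
      (Classical.choose_spec hc).1)).2 (Classical.choose_spec (h1 (Classical.choose hc')
      (Classical.choose_spec hc').1)).2).2 e1
    rw [(Classical.choose_spec hc).2, (Classical.choose_spec hc').2]
    exact (hclass r hr _ _).2 e2
  · rintro d ⟨y, hy, rfl⟩
    obtain ⟨x, hx, hxy⟩ := h2 y hy
    have hc : ∃ x', A x' ∧ ({z | r x z} : Set X) = {z | r x' z} := ⟨x, hx, rfl⟩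
    refine ⟨{z | r x z}, hc, ?_⟩
    apply (hclass s hs _ _).2
    have e1 : r x (Classical.choose hc) := (hclass r hr _ _).1 (Classical.choose_spec hc).2
    have e2 := (h3 _ _ _ _ hxy (Classical.choose_spec (h1 (Classical.choose hc)
      (Classical.choose_spec hc).1)).2).1 e1
    exact hs.symm e2

section

variable {I E : Type}

theorem IsMor.one {Q : Quiv I E} {F : Type} [Field F] {α : I → ℕ} (x : Rp Q F α) :
    IsMor x x (fun _ => 1) := by
  intro e
  rw [Matrix.one_mul, Matrix.mul_one]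

theorem IsMor.comp {Q : Quiv I E} {F : Type} [Field F] {α β γ : I → ℕ} {x : Rp Q F α}
    {y : Rp Q F β} {z : Rp Q F γ} {f : (i : I) → Matrix (Fin (β i)) (Fin (α i)) F}
    {g : (i : I) → Matrix (Fin (γ i)) (Fin (β i)) F} (hg : IsMor y z g) (hf : IsMor x y f) :
    IsMor x z (fun i => g i * f i) := by
  intro e
  rw [Matrix.mul_assoc, hf e, ← Matrix.mul_assoc, hg e, Matrix.mul_assoc]

theorem isom_equivalence (Q : Quiv I E) (F : Type) [Field F] (α : I → ℕ) :
    Equivalence (fun x y : Rp Q F α => Isom x y) := by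
  refine ⟨fun x => ⟨fun _ => 1, IsMor.one x⟩, ?_, ?_⟩
  · rintro x y ⟨g, hg⟩
    refine ⟨fun i => (g i)⁻¹, fun e => ?_⟩
    have h := hg e
    have h1 : ((g (Q.tgt e))⁻¹ : (Matrix (Fin (α (Q.tgt e))) (Fin (α (Q.tgt e))) F)ˣ).1 *
        ((g (Q.tgt e)).1 * x e) * ((g (Q.src e))⁻¹ : (Matrix _ _ F)ˣ).1 =
        ((g (Q.tgt e))⁻¹ : (Matrix _ _ F)ˣ).1 * (y e * (g (Q.src e)).1) *
          ((g (Q.src e))⁻¹ : (Matrix _ _ F)ˣ).1 := by rw [h]
    rw [← Matrix.mul_assoc, Units.inv_mul, Matrix.one_mul] at h1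
    rw [← Matrix.mul_assoc, Matrix.mul_assoc _ (g (Q.src e)).1, Units.mul_inv,
      Matrix.mul_one] at h1
    exact h1.symm
  · rintro x y z ⟨g, hg⟩ ⟨g', hg'⟩
    exact ⟨fun i => g' i * g i, hg'.comp hg⟩

theorem isom_iff_inv {Q : Quiv I E} {F : Type} [Field F] {α : I → ℕ} {x y : Rp Q F α} :
    Isom x y ↔ ∃ f fi : (i : I) → Matrix (Fin (α i)) (Fin (α i)) F, IsMor x y f ∧ IsMor y x fi ∧
      (∀ i, f i * fi i = 1) ∧ ∀ i, fi i * f i = 1 := by
  constructor
  · rintro ⟨g, hg⟩
    refine ⟨fun i => (g i : Matrix _ _ F), fun i => ((g i)⁻¹ : (Matrix _ _ F)ˣ).1, hg, ?_,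
      fun i => Units.mul_inv _, fun i => Units.inv_mul _⟩
    intro e
    have h := hg e
    have h1 : ((g (Q.tgt e))⁻¹ : (Matrix (Fin (α (Q.tgt e))) (Fin (α (Q.tgt e))) F)ˣ).1 *
        ((g (Q.tgt e)).1 * x e) * ((g (Q.src e))⁻¹ : (Matrix _ _ F)ˣ).1 =
        ((g (Q.tgt e))⁻¹ : (Matrix _ _ F)ˣ).1 * (y e * (g (Q.src e)).1) *
          ((g (Q.src e))⁻¹ : (Matrix _ _ F)ˣ).1 := by rw [h]
    rw [← Matrix.mul_assoc, Units.inv_mul, Matrix.one_mul] at h1
    rw [← Matrix.mul_assoc, Matrix.mul_assoc _ (g (Q.src e)).1, Units.mul_inv,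
      Matrix.mul_one] at h1
    exact h1.symm
  · rintro ⟨f, fi, hf, _, h1, h2⟩
    exact ⟨fun i => ⟨f i, fi i, h1 i, h2 i⟩, hf⟩

theorem kacCount_eq_zero (Q : Quiv I E) (F : Type) [Field F] (α : I → ℕ)
    (h : ∀ x : Rp Q F α, ¬ AbsIndec x) : kacCount Q F α = 0 := by
  unfold kacCount
  have : absIndecClasses Q F α = ∅ := by
    ext c
    simp only [absIndecClasses, Set.mem_ofPred_eq, Set.mem_empty_iff_false, iff_false]
    rintro ⟨x, hx, _⟩
    exact h x hx
  rw [this, Set.ncard_empty]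

theorem Indec.of_map {Q : Quiv I E} {F L : Type} [Field F] [Field L] {α : I → ℕ} (s : F →+* L)
    {x : Rp Q F α} (h : Indec (mapRp s x)) : Indec x := by
  refine ⟨h.1, fun p hp hpp => ?_⟩
  have h2 : ∀ i, (p i).map s * (p i).map s = (p i).map s := by
    intro i
    rw [← Matrix.map_mul, hpp i]
  rcases h.2 _ (hp.map s) h2 with h3 | h3
  · left
    intro i
    ext a b
    have h5 := congrFun (congrFun (h3 i) a) b
    simpa using h5
  · right
    intro i
    ext a b
    have h5 := congrFun (congrFun (h3 i) a) b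
    rw [Matrix.map_apply, Matrix.one_apply] at h5
    rw [Matrix.one_apply]
    split_ifs at h5 ⊢ with hab
    · exact s.injective (by rw [h5, map_one])
    · exact s.injective (by rw [h5, map_zero])

theorem AbsIndec.indec {Q : Quiv I E} {F : Type} [Field F] {α : I → ℕ} {x : Rp Q F α}
    (h : AbsIndec x) : Indec x := Indec.of_map (algebraMap F (AlgebraicClosure F)) h

theorem not_indec_zero (Q : Quiv I E) (F : Type) [Field F] (x : Rp Q F (0 : I → ℕ)) :
    ¬ Indec x := fun h => h.1 rfl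

theorem kacCount_zero (Q : Quiv I E) (F : Type) [Field F] : kacCount Q F (0 : I → ℕ) = 0 :=
  kacCount_eq_zero Q F 0 fun x hx => not_indec_zero Q F x hx.indec

/-- The arrow between a vertex of dimension zero and any other vertex carries the zero matrix. -/
theorem rp_zero {Q : Quiv I E} {F : Type} [Field F] {α : I → ℕ} (x : Rp Q F α) (e : E)
    (h : α (Q.src e) = 0 ∨ α (Q.tgt e) = 0) : x e = 0 := by
  ext a b
  rcases h with h | h
  · exact absurd b.2 (by omega)
  · exact absurd a.2 (by omega)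

section disc

variable [DecidableEq I] [Fintype E]

theorem adj_pos_left (Q : Quiv I E) (e : E) : 0 < adj Q (Q.src e) (Q.tgt e) := by
  unfold adj
  have : 0 < (Finset.univ.filter (fun e' : E => Q.src e' = Q.src e ∧ Q.tgt e' = Q.tgt e)).card :=
    Finset.card_pos.2 ⟨e, Finset.mem_filter.2 ⟨Finset.mem_univ _, rfl, rfl⟩⟩
  omega

theorem pr_adj_symm (Q : Quiv I E) (i j : I) : adj Q i j = adj Q j i := by
  unfold adj
  exact Nat.add_comm _ _

theorem kacCount_disconnected (Q : Quiv I E) (F : Type) [Field F] (α : I → ℕ) (S : Finset I)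
    (h1 : ∃ i ∈ S, α i ≠ 0) (h2 : ∃ i, i ∉ S ∧ α i ≠ 0)
    (h : ∀ i ∈ S, ∀ j, j ∉ S → α i ≠ 0 → α j ≠ 0 → adj Q i j = 0) : kacCount Q F α = 0 := by
  apply kacCount_eq_zero
  intro x hx
  have hx' := hx.indec
  have hp : IsMor x x (fun i => if i ∈ S then 1 else 0) := by
    intro e
    by_cases hs : Q.src e ∈ S
    · by_cases ht : Q.tgt e ∈ S
      · simp only [hs, ht, if_true, Matrix.one_mul, Matrix.mul_one]
      · have hz : x e = 0 := by
          apply rp_zero
          by_contra hc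
          push Not at hc
          have := h _ hs _ ht hc.1 hc.2
          have h3 := adj_pos_left Q e
          omega
        rw [hz, Matrix.mul_zero, Matrix.zero_mul]
    · by_cases ht : Q.tgt e ∈ S
      · have hz : x e = 0 := by
          apply rp_zero
          by_contra hc
          push Not at hc
          have := h _ ht _ hs hc.2 hc.1
          rw [pr_adj_symm] at this
          have h3 := adj_pos_left Q e
          omega
        rw [hz, Matrix.mul_zero, Matrix.zero_mul]
      · simp only [hs, ht, if_false, Matrix.zero_mul, Matrix.mul_zero]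
  have hpp : ∀ i, (if i ∈ S then (1 : Matrix (Fin (α i)) (Fin (α i)) F) else 0) *
      (if i ∈ S then 1 else 0) = if i ∈ S then 1 else 0 := by
    intro i
    split_ifs
    · rw [Matrix.one_mul]
    · rw [Matrix.zero_mul]
  obtain ⟨i, hi, hi'⟩ := h1
  obtain ⟨j, hj, hj'⟩ := h2
  rcases hx'.2 _ hp hpp with h3 | h3
  · have h4 := h3 i
    rw [if_pos hi] at h4
    have h5 := congrFun (congrFun h4 ⟨0, Nat.pos_of_ne_zero hi'⟩) ⟨0, Nat.pos_of_ne_zero hi'⟩
    simp at h5
  · have h4 := h3 j
    rw [if_neg hj] at h4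
    have h5 := congrFun (congrFun h4 ⟨0, Nat.pos_of_ne_zero hj'⟩) ⟨0, Nat.pos_of_ne_zero hj'⟩
    simp at h5

/-- No loops at `i`: all the representations of dimension `n e_i` are zero. -/
theorem rp_single_zero (Q : Quiv I E) (F : Type) [Field F] (i : I) (hi : adj Q i i = 0) (n : ℕ)
    (x : Rp Q F (Pi.single i n)) : x = 0 := by
  funext e
  apply rp_zero
  by_contra hc
  push Not at hc
  have h1 : Q.src e = i := by
    by_contra h
    exact hc.1 (by rw [Pi.single_eq_of_ne h])
  have h2 : Q.tgt e = i := by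
    by_contra h
    exact hc.2 (by rw [Pi.single_eq_of_ne h])
  have h3 := adj_pos_left Q e
  rw [h1, h2] at h3
  omega

theorem kacCount_single_one (Q : Quiv I E) (F : Type) [Field F] (i : I) (hi : adj Q i i = 0) :
    kacCount Q F (Pi.single i 1) = 1 := by
  unfold kacCount
  have hall : ∀ x : Rp Q F (Pi.single i 1), x = 0 := rp_single_zero Q F i hi 1
  have hind : AbsIndec (0 : Rp Q F (Pi.single i 1)) := by
    refine ⟨fun h => ?_, fun p _ hpp => ?_⟩
    · have := congrFun h i
      rw [Pi.single_eq_same] at this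
      exact one_ne_zero this
    · have hdim : ∀ j, j ≠ i → (Pi.single i 1 : I → ℕ) j = 0 := fun j hj => by
        rw [Pi.single_eq_of_ne hj]
      have hone : (Pi.single i 1 : I → ℕ) i = 1 := Pi.single_eq_same i 1
      have hent : ∀ (a b : Fin ((Pi.single i 1 : I → ℕ) i)), a = b := by
        intro a b
        have ha := a.2
        have hb := b.2
        ext
        omega
      let z : Fin ((Pi.single i 1 : I → ℕ) i) := ⟨0, by rw [hone]; exact Nat.one_pos⟩
      have hz := congrFun (congrFun (hpp i) z) z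
      rw [Matrix.mul_apply, Finset.sum_eq_single z (fun b _ hb => absurd (hent b z) hb)
        (fun h => absurd (Finset.mem_univ z) h)] at hz
      have hz' : p i z z = 0 ∨ p i z z = 1 := IsIdempotentElem.iff_eq_zero_or_one.1 hz
      rcases hz' with h | h
      · left
        intro j
        ext a b
        by_cases hj : j = i
        · subst hj
          rw [hent a z, hent b z, h]
          rfl
        · exact Fin.elim0 (Fin.cast (hdim j hj) a)
      · right
        intro j
        ext a b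
        by_cases hj : j = i
        · subst hj
          rw [hent a z, hent b z, h, Matrix.one_apply_eq]
        · exact Fin.elim0 (Fin.cast (hdim j hj) a)
  have : absIndecClasses Q F (Pi.single i 1) = {{y | Isom 0 y}} := by
    ext c
    constructor
    · rintro ⟨x, _, rfl⟩
      rw [hall x]
      rfl
    · rintro rfl
      exact ⟨0, hind, rfl⟩
  rw [this, Set.ncard_singleton]

theorem kacCount_single_ge_two (Q : Quiv I E) (F : Type) [Field F] (i : I) (hi : adj Q i i = 0)
    (n : ℕ) (hn : 2 ≤ n) : kacCount Q F (Pi.single i n) = 0 := by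
  apply kacCount_eq_zero
  intro x hx
  have hx' := hx.indec
  rw [rp_single_zero Q F i hi n x] at hx'
  have hone : (Pi.single i n : I → ℕ) i = n := by simp
  have hp : IsMor (0 : Rp Q F (Pi.single i n)) 0 (fun j => Matrix.diagonal
      (fun a : Fin ((Pi.single i n : I → ℕ) j) => if (a : ℕ) = 0 then (1 : F) else 0)) := by
    intro e
    show _ * (0 : Matrix _ _ F) = (0 : Matrix _ _ F) * _
    rw [Matrix.mul_zero, Matrix.zero_mul]
  have hpp : ∀ j, Matrix.diagonal
      (fun a : Fin ((Pi.single i n : I → ℕ) j) => if (a : ℕ) = 0 then (1 : F) else 0) *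
      Matrix.diagonal
      (fun a : Fin ((Pi.single i n : I → ℕ) j) => if (a : ℕ) = 0 then (1 : F) else 0) =
      Matrix.diagonal
      (fun a : Fin ((Pi.single i n : I → ℕ) j) => if (a : ℕ) = 0 then (1 : F) else 0) := by
    intro j
    rw [Matrix.diagonal_mul_diagonal]
    congr 1
    funext a
    split_ifs
    · rw [one_mul]
    · rw [zero_mul]
  rcases hx'.2 _ hp hpp with h | h
  · have h1 := congrFun (congrFun (h i) ⟨0, by omega⟩) ⟨0, by omega⟩
    simp at h1
  · have h1 := congrFun (congrFun (h i) ⟨1, by omega⟩) ⟨1, by omega⟩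
    simp at h1

end disc

end

end Pool.Agent.H27.KAC

end

section

/-!
KAC ADE engine, module E1d: the walls together with the created walls are of finite type (automatically).
-/

set_option autoImplicit false

namespace Pool.Agent.H40.KADE

open scoped BigOperators
open Pool.Agent.H27.KAC

variable {I : Type} [Fintype I] [DecidableEq I]

/-- a small positive number. -/
theorem E1d_small (X : Finset I) (b c : I → ℚ) (hc : ∀ x ∈ X, 0 < c x) :
    ∃ ε : ℚ, 0 < ε ∧ ∀ x ∈ X, 0 < c x + ε * b x := by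
  classical
  induction X using Finset.induction_on with
  | empty => exact ⟨1, one_pos, fun x hx => absurd hx (Finset.notMem_empty x)⟩
  | insert y X hy ih =>
    obtain ⟨ε, hε, h⟩ := ih (fun x hx => hc x (Finset.mem_insert_of_mem hx))
    have hcy := hc y (Finset.mem_insert_self y X)
    have h1 : (0 : ℚ) < 1 + |b y| := by positivity
    refine ⟨min ε (c y / (2 * (1 + |b y|))), lt_min hε (by positivity), ?_⟩
    intro x hx
    have hm0 : 0 < min ε (c y / (2 * (1 + |b y|))) := lt_min hε (by positivity)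
    rcases Finset.mem_insert.1 hx with rfl | hx
    · have h2 : min ε (c x / (2 * (1 + |b x|))) ≤ c x / (2 * (1 + |b x|)) := min_le_right _ _
      have h3 : min ε (c x / (2 * (1 + |b x|))) * (1 + |b x|) ≤ c x / 2 := by
        have h4 : min ε (c x / (2 * (1 + |b x|))) * (1 + |b x|) ≤
            c x / (2 * (1 + |b x|)) * (1 + |b x|) := mul_le_mul_of_nonneg_right h2 h1.le
        refine h4.trans (le_of_eq ?_)
        field_simp
      have h5 := neg_abs_le (b x)
      have h6 : min ε (c x / (2 * (1 + |b x|))) * (-|b x|) ≤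
          min ε (c x / (2 * (1 + |b x|))) * b x := mul_le_mul_of_nonneg_left h5 hm0.le
      nlinarith
    · have h2 := h x hx
      have h3 : min ε (c y / (2 * (1 + |b y|))) ≤ ε := min_le_left _ _
      have h4 := hc x (Finset.mem_insert_of_mem hx)
      by_cases hb : 0 ≤ b x
      · have : 0 ≤ min ε (c y / (2 * (1 + |b y|))) * b x := mul_nonneg hm0.le hb
        linarith
      · push Not at hb
        have : ε * b x ≤ min ε (c y / (2 * (1 + |b y|))) * b x :=
          mul_le_mul_of_nonpos_right h3 hb.le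
        linarith

/-- `W ∪ X` is of finite type. -/
theorem FT_cr (a : I → I → ℕ) {cn : Finset I → (I → ℚ) → ℕ → ℚ} {k : ℕ} (hk : 2 ≤ k)
    {γ P p : I → ℚ} {W : Finset I} {q : I → ℚ} {w : Finset I → ℕ → ℚ}
    (h : GS a cn k γ P p W q w) (hγ : ∀ i, 0 ≤ γ i)
    (hX : ∀ x ∈ crX W P, a x x = 0 ∧ 0 < p x) : FT a (W ∪ crX W P) := by
  classical
  obtain ⟨u, hu, hu0, hcu⟩ := h.ft.pos
  have hunn : ∀ i, 0 ≤ u i := by
    intro i
    by_cases hi : i ∈ W
    · exact (hu i hi).le
    · rw [hu0 i hi]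
  have hk1 : (0 : ℚ) < (k : ℚ) - 1 := by
    have : (2 : ℚ) ≤ (k : ℚ) := by exact_mod_cast hk
    linarith
  have hXP : ∀ x ∈ crX W P, x ∉ W ∧ P x = 0 := by
    intro x hx
    unfold crX at hx
    exact (Finset.mem_filter.1 hx).2
  obtain ⟨ε, hε, hεx⟩ := E1d_small (crX W P) (fun x => cv a u x) (fun x => cv a γ x) (by
    intro x hx
    beta_reduce
    rw [h.cons x, (hXP x hx).2]
    have := mul_pos hk1 (hX x hx).2
    linarith)
  set Z := W ∪ crX W P with hZ
  set off : I → ℚ := fun i => if i ∈ Z then 0 else γ i with hoff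
  have hoffnn : ∀ i, 0 ≤ off i := by
    intro i
    simp only [hoff]
    split_ifs
    · exact le_rfl
    · exact hγ i
  have hWZ : ∀ x ∈ W, x ∈ Z := fun x hx => Finset.mem_union_left _ hx
  have hcv : ∀ x ∈ Z, 0 < cv a γ x + ε * cv a u x := by
    intro x hx
    rcases Finset.mem_union.1 hx with hx | hx
    · have h1 := h.cons x
      rw [h.P0 x hx, h.p0 x hx] at h1
      have h2 := mul_pos hε (hcu x hx)
      rw [h1]
      linarith
    · exact hεx x hx
  have hy : ∀ x ∈ Z, 0 < γ x + ε * u x := by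
    intro x hx
    rcases Finset.mem_union.1 hx with hxW | hxX
    · have := mul_pos hε (hu x hxW)
      have := hγ x
      linarith
    · apply sol_pos_of a (fun i => γ i + ε * u i) _ x
      · rw [cv_add a γ (fun i => ε * u i), cv_smul]
        exact hcv x hx
      · intro j
        have := mul_nonneg hε.le (hunn j)
        have := hγ j
        linarith
  refine ⟨?_, fun i => (γ i - off i) + ε * u i, ?_, ?_, ?_⟩
  · intro x hx
    rcases Finset.mem_union.1 hx with hx | hx
    · exact h.ft.loopfree x hx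
    · exact (hX x hx).1
  · intro x hx
    have h1 : off x = 0 := by
      simp only [hoff]
      rw [if_pos hx]
    beta_reduce
    rw [h1, sub_zero]
    exact hy x hx
  · intro x hx
    have h1 : off x = γ x := by
      simp only [hoff]
      rw [if_neg hx]
    beta_reduce
    rw [h1, hu0 x (fun h => hx (hWZ x h))]
    ring
  · intro x hx
    have h1 : off x = 0 := by
      simp only [hoff]
      rw [if_pos hx]
    rw [cv_add a (fun i => γ i - off i) (fun i => ε * u i), cv_sub, cv_smul]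
    have h2 := cv_nonpos a off x hoffnn h1
    have h3 := hcv x hx
    linarith

end Pool.Agent.H40.KADE

end

section

/-!
KAC ADE, module AH0: the value of a state (definitions).

`IsRF a cd N q w f Φ`: `Φ` is a formal functional (combination of window patterns) which represents
`∑_{l ≤ f} w(l) R_l[q]` on regular terms of the cluster `N`.
`RTfam a cd`: existence of these functionals (output of the response theorem).
`Gv a cd k γ P p M N W q w`: the value of a state of the engine.
-/

set_option autoImplicit false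

namespace Pool.Agent.H46.AH

open scoped BigOperators
open Pool.Agent.H27.KAC

section

variable {I : Type} [Fintype I] [DecidableEq I]

/-- window patterns at the frontier `f`: insertion components `A` have level `s` with `s ≤ f < s + mm A`, vertices without
insertion have level `f` or `f - 1`, the class is `q` modulo `ℤ`. -/
structure WP (a : I → I → ℕ) (cd : CrossData a) (B : Finset I) (q : I → ℚ) (f : ℕ) (π : Pat I) : Prop
    extends PatOk a B π where
  le : ∀ A ∈ comps a (insS B π), ∀ x ∈ A, π.s x ≤ f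
  ge : ∀ A ∈ comps a (insS B π), ∀ x ∈ A, f < π.s x + cd.mm A
  sle : ∀ x ∈ B, π.q x = 0 → π.s x ≤ f
  sge : ∀ x ∈ B, π.q x = 0 → f < π.s x + 2
  cls : ∀ x ∈ B, IsZ (π.q x - q x)

/-- `∑_{l ≤ f} w(l) R_l[q]`. -/
noncomputable def RFv (a : I → I → ℕ) (N : Finset I) (q : I → ℚ) (w : ℕ → ℚ) (f : ℕ) (T : Trm I) : ℚ :=
  w 0 * TV a (tauT a N 0 q T) + ∑ l ∈ Finset.Icc 1 f, w l * Rv a N l q T

/-- `q'` is an admissible representative of the class of `q` on `N`. -/
def Rep (a : I → I → ℕ) (N : Finset I) (q q' : I → ℚ) : Prop :=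
  QOk a N q' ∧ ∀ x ∈ N, IsZ (q' x - q x)

/-- `Φ` represents `∑_{l ≤ f} w(l) R_l[q]` on the cluster `N`. -/
structure IsRF (a : I → I → ℕ) (cd : CrossData a) (N : Finset I) (q : I → ℚ) (w : ℕ → ℚ) (f : ℕ)
    (Φ : FFn I) : Prop where
  win : ∀ c ∈ Φ, WP a cd N q f c.2
  val : ∀ q', Rep a N q q' → ∀ T : Trm I, RReg N T → evF a N Φ T = RFv a N q' w f T
  knk : 1 ≤ f → ∀ q', Rep a N q q' → ∀ T : Trm I, RReg N T → Kink N f T →
    evF a N Φ T = w f * TV a (tauT a N f q' T)

/-- The families which come out of the response theorem. -/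
structure RTfam (a : I → I → ℕ) (cd : CrossData a) : Prop where
  tau : ∀ A : Finset I, FinT a A → ConnS a A → ∀ q, QOk a A q → ∀ L f : ℕ, f ≤ L → ∃ Φ : FFn I,
    IsRF a cd A q (fun l => cn a cd A q (L - l)) f Φ
  tauL : ∀ A : Finset I, FinT a A → ConnS a A → ∀ q, QOk a A q → ∀ L : ℕ,
    IsRF a cd A q (fun l => cn a cd A q (L - l)) L [(1, ⟨fun _ => L, q⟩)]
  top : ∀ A : Finset I, FinT a A → ConnS a A → ∀ f : ℕ, 1 ≤ f → ∃ Φ : FFn I,
    IsRF a cd A (fun _ => 0) (fun _ => 1) f Φ ∧
      ∀ T : Trm I, RReg A T → evF a A Φ T = TV a (T.cols A (fun x => sy x (f + 1) - sy x f))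
  top0 : ∀ A : Finset I, FinT a A → ConnS a A → ∀ f : ℕ, ∃ Φ : FFn I,
    IsRF a cd A (fun _ => 0) (fun _ => 1) f Φ

end

end Pool.Agent.H46.AH

end

section

/-!
KAC ADE, module B5: multilinearity of `CTd` in the columns and linearity in `F`.

`CTd γ F c = CT γ (F * det (c i l)_{l,i})`; use `Matrix.det_transpose` / `Matrix.det_updateCol_add` etc.
-/

set_option autoImplicit false

namespace Pool.Agent.H46.KA

open scoped BigOperators
open MvPowerSeries Pool.Agent.H27.KAC

variable {I : Type} [Fintype I] [DecidableEq I]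

/-- the determinant of `cM c` as an alternating map of the columns. -/
theorem B5_det (c : I → Fm I) :
    (cM c).det = (Matrix.detRowAlternating (n := I) (R := LL I)) c := by
  rw [← Matrix.det_transpose]
  rfl

/-- `qC` as a ring homomorphism. -/
noncomputable def B5_qCh : ℚ →+* LL I where
  toFun := qC
  map_one' := qC_one
  map_mul' := qC_mul
  map_zero' := qC_zero
  map_add' := qC_add

theorem B5_qCh_apply (r : ℚ) : (B5_qCh r : LL I) = qC r := rfl

theorem CTd_add (γ : I → ℚ) (F G : LL I) (c : I → Fm I) :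
    CTd γ (F + G) c = CTd γ F c + CTd γ G c := by
  unfold CTd
  rw [add_mul, CT_add]

theorem CTd_sub (γ : I → ℚ) (F G : LL I) (c : I → Fm I) :
    CTd γ (F - G) c = CTd γ F c - CTd γ G c := by
  unfold CTd
  rw [sub_mul, CT_sub]

theorem CTd_sum (γ : I → ℚ) {ι : Type} (s : Finset ι) (f : ι → LL I) (c : I → Fm I) :
    CTd γ (∑ i ∈ s, f i) c = ∑ i ∈ s, CTd γ (f i) c := by
  unfold CTd
  rw [Finset.sum_mul, CT_sum]

theorem CTd_qC (γ : I → ℚ) (r : ℚ) (F : LL I) (c : I → Fm I) :
    CTd γ (qC r * F) c = r * CTd γ F c := by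
  unfold CTd
  rw [mul_assoc, CT_qC_mul]

theorem CTd_X_pow (γ : I → ℚ) (x : I) (n : ℕ) (F : LL I) (c : I → Fm I) :
    CTd (fun i => γ i + if i = x then (n : ℚ) else 0) (X x ^ n * F) c = CTd γ F c := by
  unfold CTd
  rw [mul_assoc, CT_X_pow_mul]

theorem CTd_update_add (γ : I → ℚ) (F : LL I) (c : I → Fm I) (j : I) (v w : Fm I) :
    CTd γ F (Function.update c j (fun l => v l + w l)) =
      CTd γ F (Function.update c j v) + CTd γ F (Function.update c j w) := by
  unfold CTd
  rw [B5_det, B5_det, B5_det, ← CT_add, ← mul_add]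
  have h : (fun l => v l + w l) = v + w := rfl
  rw [h, AlternatingMap.map_update_add]

/-- a factor moves from a column to `F`. -/
theorem CTd_update_smul (γ : I → ℚ) (F G : LL I) (c : I → Fm I) (j : I) (v : Fm I) :
    CTd γ F (Function.update c j (fun l => G * v l)) = CTd γ (F * G) (Function.update c j v) := by
  unfold CTd
  rw [B5_det, B5_det]
  have h : (fun l => G * v l) = G • v := rfl
  rw [h, AlternatingMap.map_update_smul, smul_eq_mul, mul_assoc]

theorem CTd_update_zero (γ : I → ℚ) (F : LL I) (c : I → Fm I) (j : I) :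
    CTd γ F (Function.update c j (fun _ => 0)) = 0 := by
  unfold CTd
  rw [B5_det]
  have h : (fun _ => 0 : Fm I) = 0 := rfl
  rw [h, AlternatingMap.map_update_zero, mul_zero, CT_zero]

theorem CTd_update_sum (γ : I → ℚ) (F : LL I) (c : I → Fm I) (j : I) {ι : Type} (s : Finset ι)
    (v : ι → Fm I) :
    CTd γ F (Function.update c j (fun l => ∑ i ∈ s, v i l)) =
      ∑ i ∈ s, CTd γ F (Function.update c j (v i)) := by
  classical
  induction s using Finset.induction_on with
  | empty => simpa using CTd_update_zero γ F c j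
  | insert i s hi ih =>
    rw [Finset.sum_insert hi, ← ih, ← CTd_update_add]
    congr 2
    funext l
    rw [Finset.sum_insert hi]

/-- the same with coefficients in the ring. -/
theorem CTd_expand' (γ : I → ℚ) (F : LL I) {ι : Type} [DecidableEq ι] (s : I → Finset ι)
    (r : I → ι → LL I) (v : I → ι → Fm I) :
    CTd γ F (fun i l => ∑ k ∈ s i, r i k * v i k l) =
      ∑ f ∈ Fintype.piFinset s, CTd γ (F * ∏ i, r i (f i)) (fun i => v i (f i)) := by
  unfold CTd
  rw [← CT_sum]
  congr 1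
  have h : (fun i l => ∑ k ∈ s i, r i k * v i k l : I → Fm I) =
      fun i => ∑ k ∈ s i, r i k • v i k := by
    funext i l
    rw [Finset.sum_apply]
    rfl
  rw [h, B5_det]
  have h2 := (Matrix.detRowAlternating (n := I) (R := LL I)).toMultilinearMap.map_sum_finset
    (fun i k => r i k • v i k) s
  rw [AlternatingMap.coe_multilinearMap] at h2
  rw [h2, Finset.mul_sum]
  refine Finset.sum_congr rfl (fun f _ => ?_)
  have h3 := (Matrix.detRowAlternating (n := I) (R := LL I)).toMultilinearMap.map_smul_univ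
    (fun i => r i (f i)) (fun i => v i (f i))
  rw [AlternatingMap.coe_multilinearMap] at h3
  rw [h3, B5_det, smul_eq_mul, mul_assoc]

/-- full multilinear expansion: every column is a linear combination over a finite index set. -/
theorem CTd_expand (γ : I → ℚ) (F : LL I) {ι : Type} [DecidableEq ι] (s : I → Finset ι)
    (r : I → ι → ℚ) (v : I → ι → Fm I) :
    CTd γ F (fun i l => ∑ k ∈ s i, qC (r i k) * v i k l) =
      ∑ f ∈ Fintype.piFinset s, (∏ i, r i (f i)) * CTd γ F (fun i => v i (f i)) := by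
  rw [CTd_expand' γ F s (fun i k => qC (r i k)) v]
  refine Finset.sum_congr rfl (fun f _ => ?_)
  rw [← CTd_qC, mul_comm F]
  congr 2
  have := map_prod (B5_qCh (I := I)) (fun i => r i (f i)) Finset.univ
  simp only [B5_qCh_apply] at this
  exact this.symm

end Pool.Agent.H46.KA

end

section

/-!
KAC ADE: the facts about the response numbers `cn` which come from the response theorem, and the target
(nonnegativity).
-/

set_option autoImplicit false

namespace Pool.Agent.H27.KAC

open scoped BigOperators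

section

variable {I : Type} [Fintype I] [DecidableEq I]

/-- `q` is in the weight lattice of `A`. -/
def WtL (a : I → I → ℕ) (A : Finset I) (q : I → ℚ) : Prop := ∀ x ∈ A, IsZ (cqN a A q x)

/-- `c_q^A(n)` for an integer `n` given as a difference `L - i` (zero if negative). -/
noncomputable def cnS (a : I → I → ℕ) (cd : CrossData a) (A : Finset I) (q : I → ℚ) (L i : ℕ) : ℚ :=
  if i ≤ L then cn a cd A q (L - i) else 0

/-- Consequences of the response theorem for the numbers `cn`:
`P(t) = ∑ p_i t^i = 1 / ∑ c(g) t^g` is an integer polynomial of degree `≤ mm A`, and it annihilates all sequences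
`i ↦ ∏_{s ∈ M} (α_s + κ_s i) ∏_N c^N(L_N - i)` (`M` a nonempty set of vertices with integral `q`, `N` the components
of `A \ M`, `L_N ≥ mm A + 1 - mm N`). -/
structure RTnum (a : I → I → ℕ) (cd : CrossData a) : Prop where
  int : ∀ A q g, FinT a A → ConnS a A → WtL a A q → IsZ (cn a cd A q g)
  recu : ∀ A q, FinT a A → ConnS a A → WtL a A q → ∃ p : ℕ → ℚ, p 0 = 1 ∧
    (∀ i, IsZ (p i)) ∧ (∀ i, cd.mm A < i → p i = 0) ∧
    p (cd.mm A) = -((-1) ^ A.card * cd.eps A q) ∧
    (∀ n, 1 ≤ n → ∑ i ∈ Finset.range (n + 1), p i * cn a cd A q (n - i) = 0) ∧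
    ∀ M ⊆ A, M.Nonempty → (∀ x ∈ M, IsZ (q x)) → ∀ (α κ : I → ℚ) (L : Finset I → ℕ),
      (∀ N ∈ comps a (A \ M), cd.mm A + 1 ≤ L N + cd.mm N) →
      ∑ i ∈ Finset.range (cd.mm A + 1),
        p i * (∏ s ∈ M, (α s + κ s * i)) * ∏ N ∈ comps a (A \ M), cnS a cd N q (L N) i = 0

end

end Pool.Agent.H27.KAC

end

section

/-!
KAC ADE numbers: definitions.
-/

set_option autoImplicit false

namespace Pool.H88.Num

open scoped BigOperators
open Pool.Agent.H27.KAC

section

variable {I : Type} [Fintype I] [DecidableEq I]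

open Classical in
/-- determinant of the Cartan matrix of `A`. -/
noncomputable def dt (a : I → I → ℕ) (A : Finset I) : ℚ :=
  (Matrix.of (fun (i j : {x // x ∈ A}) => (cart a i.1 j.1 : ℚ))).det

/-- normalised weight of a component. -/
noncomputable def wN (a : I → I → ℕ) (cd : CrossData a) (N : Finset I) (g : ℕ) : ℚ :=
  (-1) ^ N.card * upw a cd N (fun _ => 0) g / dt a N

/-- the term of `M`. -/
noncomputable def tmN (a : I → I → ℕ) (cd : CrossData a) (A : Finset I) (g : ℕ) (M : Finset I) : ℚ :=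
  (g : ℚ) ^ M.card * ∏ N ∈ comps a (A \ M), wN a cd N g

/-- normalised response number of class zero. -/
noncomputable def PhN (a : I → I → ℕ) (cd : CrossData a) (A : Finset I) (g : ℕ) : ℚ :=
  ∑ M ∈ A.powerset, tmN a cd A g M

end

end Pool.H88.Num

end

section

/-!
KAC ADE, Knit numbers for `E_6, E_7, E_8`.
-/

set_option autoImplicit false

namespace Pool.H88.KA

open scoped BigOperators

/-- look up in a table. -/
def tab (L : List (List ℤ)) (k i : ℕ) : ℤ := (L.getD k []).getD i 0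

theorem KE_tab (n M : ℕ) (L : List (List ℤ)) (hM : 1 ≤ M)
    (h0 : ∀ i : Fin n, tab L 0 i = 0) (h1 : ∀ i : Fin n, tab L 1 i = 1)
    (h2 : ∀ k : Fin (M - 1), ∀ i : Fin n, tab L (k.1 + 2) i + tab L k.1 i =
      ∑ j : Fin n, (TT n 2 i j : ℤ) * tab L (k.1 + 1) j)
    (h3 : ∀ i : Fin n, 2 * tab L (M - 1) i = ∑ j : Fin n, (TT n 2 i j : ℤ) * tab L M j)
    (h4 : ∀ k : Fin M, ∀ i : Fin n, 0 < tab L (k.1 + 1) i) :
    ∃ e, KE (TT n 2) (2 * M) 1 e := by
  refine ⟨_, KE_half (TT n 2) M hM 1 one_pos (fun k i => tab L k i) h0 h1 ?_ ?_ ?_⟩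
  · intro k x hk
    exact h2 ⟨k, by omega⟩ x
  · intro k x hk
    have h5 := h3 x
    have h6 : M - 1 = k := by omega
    rw [h6] at h5
    subst hk
    exact h5
  · intro k x hk hk'
    have h5 := h4 ⟨k - 1, by omega⟩ x
    have h6 : k - 1 + 1 = k := by omega
    rw [h6] at h5
    exact h5

def tabE6 : List (List ℤ) :=
  [[0, 0, 0, 0, 0, 0],
   [1, 1, 1, 1, 1, 1],
   [1, 2, 3, 2, 1, 1],
   [1, 3, 4, 3, 1, 2],
   [2, 3, 5, 3, 2, 3],
   [2, 4, 5, 4, 2, 3],
   [2, 4, 6, 4, 2, 2]]

theorem KE_E6 : ∃ e, KE (TT 6 2) 12 1 e := by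
  refine KE_tab 6 6 tabE6 (by norm_num) ?_ ?_ ?_ ?_ ?_ <;> decide +kernel

def tabE7 : List (List ℤ) :=
  [[0, 0, 0, 0, 0, 0, 0],
   [1, 1, 1, 1, 1, 1, 1],
   [1, 2, 3, 2, 2, 1, 1],
   [1, 3, 4, 4, 2, 1, 2],
   [2, 3, 6, 4, 3, 1, 3],
   [2, 5, 6, 5, 3, 2, 4],
   [3, 5, 8, 5, 4, 2, 3],
   [3, 6, 7, 7, 4, 2, 4],
   [3, 5, 9, 6, 5, 2, 4],
   [2, 6, 8, 7, 4, 3, 5]]

theorem KE_E7 : ∃ e, KE (TT 7 2) 18 1 e := by
  refine KE_tab 7 9 tabE7 (by norm_num) ?_ ?_ ?_ ?_ ?_ <;> decide +kernel

def tabE8 : List (List ℤ) :=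
  [[0, 0, 0, 0, 0, 0, 0, 0],
   [1, 1, 1, 1, 1, 1, 1, 1],
   [1, 2, 3, 2, 2, 2, 1, 1],
   [1, 3, 4, 4, 3, 2, 1, 2],
   [2, 3, 6, 5, 4, 2, 1, 3],
   [2, 5, 7, 6, 4, 3, 1, 4],
   [3, 6, 9, 6, 5, 3, 2, 4],
   [4, 7, 9, 8, 5, 4, 2, 5],
   [4, 7, 11, 8, 7, 4, 2, 5],
   [3, 8, 11, 10, 7, 5, 2, 6],
   [4, 7, 13, 10, 8, 5, 3, 6],
   [4, 9, 12, 11, 8, 6, 3, 7],
   [5, 9, 14, 10, 9, 6, 3, 6],
   [5, 10, 13, 12, 8, 6, 3, 7],
   [5, 9, 15, 11, 9, 5, 3, 7],
   [4, 10, 14, 12, 8, 6, 2, 8]]

theorem KE_E8 : ∃ e, KE (TT 8 2) 30 1 e := by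
  refine KE_tab 8 15 tabE8 (by norm_num) ?_ ?_ ?_ ?_ ?_ <;> decide +kernel

end Pool.H88.KA

end

section

/-!
KAC ADE: from the numbers `e_k` to `Knit`.
-/

set_option autoImplicit false

namespace Pool.H88.KA

open scoped BigOperators
open Matrix

variable {N : Type} [Fintype N] [DecidableEq N]

/-- minimum principle. -/
theorem PD.nonneg {a : N → N → ℕ} (h : PD a) (o : N → ℤ) (ho : ∀ x, 0 ≤ cZ a o x) (x : N) :
    0 ≤ o x := by
  by_contra hneg
  push Not at hneg
  obtain ⟨n, hn⟩ : ∃ n : N → ℤ, n = fun x => max (-o x) 0 := ⟨_, rfl⟩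
  have hn0 : ∀ x, 0 ≤ n x := fun x => by rw [hn]; exact le_max_right _ _
  have hn1 : ∀ x, -o x ≤ n x := fun x => by rw [hn]; exact le_max_left _ _
  have hne : n ≠ 0 := by
    intro hc
    have h1 := congrFun hc x
    have h2 := hn1 x
    rw [h1, Pi.zero_apply] at h2
    linarith
  have h1 := h n hne
  have h2 : ∀ x, n x * cZ a n x ≤ 0 := by
    intro x
    by_cases hx : n x = 0
    · rw [hx, zero_mul]
    · have h3 : n x = -o x := by
        have h4 : n x = max (-o x) 0 := by rw [hn]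
        rcases max_choice (-o x) 0 with h5 | h5
        · rw [h4, h5]
        · exact absurd (h4.trans h5) hx
      have h4 : cZ a n x ≤ -cZ a o x := by
        unfold cZ
        have h5 : ∑ y, (a x y : ℤ) * -o y ≤ ∑ y, (a x y : ℤ) * n y :=
          Finset.sum_le_sum fun y _ => mul_le_mul_of_nonneg_left (hn1 y) (Int.natCast_nonneg _)
        have h6 : ∑ y, (a x y : ℤ) * -o y = -∑ y, (a x y : ℤ) * o y := by
          rw [← Finset.sum_neg_distrib]
          exact Finset.sum_congr rfl fun y _ => by ring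
        rw [h6] at h5
        rw [h3]
        linarith
      have h5 := ho x
      have h6 := hn0 x
      nlinarith
  have h3 : ∑ x, n x * cZ a n x ≤ 0 := Finset.sum_nonpos fun x _ => h2 x
  linarith

theorem PD.pos {a : N → N → ℕ} (h : PD a) (o : N → ℤ)
    (ho : ∀ x, 0 < cZ a o x) (x : N) : 0 < o x := by
  have h1 := fun x => h.nonneg o (fun x => (ho x).le) x
  rcases (h1 x).lt_or_eq with h2 | h2
  · exact h2
  · exfalso
    have h3 := ho x
    unfold cZ at h3
    rw [← h2] at h3
    have h4 : 0 ≤ ∑ y, (a x y : ℤ) * o y :=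
      Finset.sum_nonneg fun y _ => mul_nonneg (Int.natCast_nonneg _) (h1 y)
    linarith

/-- an integral vector with `C d = m`. -/
theorem PD.exists_d {a : N → N → ℕ} (h : PD a) :
    ∃ (d : N → ℤ) (m : ℤ), 0 < m ∧ ∀ x, cZ a d x = m := by
  obtain ⟨C, hC⟩ : ∃ C : Matrix N N ℤ, C = Matrix.of fun x y =>
    (if x = y then 2 else 0) - (a x y : ℤ) := ⟨_, rfl⟩
  have hCv : ∀ v : N → ℤ, C *ᵥ v = cZ a v := by
    intro v
    funext x
    unfold cZ
    rw [hC]
    simp only [Matrix.mulVec, dotProduct, Matrix.of_apply, sub_mul, Finset.sum_sub_distrib,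
      ite_mul, zero_mul, Finset.sum_ite_eq, Finset.mem_univ, if_true]
  have hdet : C.det ≠ 0 := by
    intro h0
    obtain ⟨v, hv, hv0⟩ := Matrix.exists_mulVec_eq_zero_iff.2 h0
    have h1 := h v hv
    rw [← hCv v, hv0] at h1
    simp at h1
  refine ⟨C.det • (C.adjugate *ᵥ 1), C.det * C.det, mul_self_pos.2 hdet, fun x => ?_⟩
  rw [← hCv, Matrix.mulVec_smul, Matrix.mulVec_mulVec, Matrix.mul_adjugate]
  simp

/-- the sequence `o_k` over the integers. -/
def oZ (a : N → N → ℕ) (d : N → ℤ) : ℕ → N → ℤ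
  | 0 => fun _ => 0
  | 1 => d
  | (k + 2) => fun x => ∑ y, (a x y : ℤ) * oZ a d (k + 1) y - oZ a d k x

theorem cZ_add (a : N → N → ℕ) (v w : N → ℤ) (x : N) :
    cZ a (fun x => v x - w x) x = cZ a v x - cZ a w x := by
  unfold cZ
  have : ∑ y, (a x y : ℤ) * (v y - w y) = ∑ y, (a x y : ℤ) * v y - ∑ y, (a x y : ℤ) * w y := by
    rw [← Finset.sum_sub_distrib]
    exact Finset.sum_congr rfl fun y _ => by ring
  rw [this]
  ring

theorem cZ_comm (a : N → N → ℕ) (v : N → ℤ) (x : N) :
    cZ a (fun x => ∑ y, (a x y : ℤ) * v y) x = ∑ y, (a x y : ℤ) * cZ a v y := by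
  unfold cZ
  rw [Finset.mul_sum]
  have : ∑ y, (a x y : ℤ) * (2 * v y - ∑ z, (a y z : ℤ) * v z) =
      ∑ y, 2 * ((a x y : ℤ) * v y) - ∑ y, (a x y : ℤ) * ∑ z, (a y z : ℤ) * v z := by
    rw [← Finset.sum_sub_distrib]
    exact Finset.sum_congr rfl fun y _ => by ring
  rw [this]

theorem oZ_C {a : N → N → ℕ} {h : ℕ} {κ : ℤ} {e : ℕ → N → ℤ} (he : KE a h κ e) (d : N → ℤ)
    (m : ℤ) (hd : ∀ x, cZ a d x = m * κ) (k : ℕ) :
    (k ≤ h → ∀ x, cZ a (oZ a d k) x = m * e k x) ∧
      (k + 1 ≤ h → ∀ x, cZ a (oZ a d (k + 1)) x = m * e (k + 1) x) := by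
  induction k with
  | zero =>
    refine ⟨fun _ x => ?_, fun _ x => ?_⟩
    · rw [he.zero x]
      unfold oZ cZ
      simp
    · rw [he.one x]
      exact hd x
  | succ k ih =>
    refine ⟨ih.2, fun hk x => ?_⟩
    have h1 := ih.1 (by omega)
    have h2 := ih.2 (by omega)
    have h3 : oZ a d (k + 1 + 1) = fun x => (fun x => ∑ y, (a x y : ℤ) * oZ a d (k + 1) y) x -
        oZ a d k x := rfl
    rw [h3, cZ_add, cZ_comm, h1 x]
    have h4 := he.knit k x (by omega)
    have h5 : ∑ y, (a x y : ℤ) * cZ a (oZ a d (k + 1)) y =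
        m * ∑ y, (a x y : ℤ) * e (k + 1) y := by
      rw [Finset.mul_sum]
      exact Finset.sum_congr rfl fun y _ => by rw [h2 y]; ring
    rw [h5, ← h4]
    ring

theorem knit_of_KE {a : N → N → ℕ} (hpd : PD a) {h : ℕ} {κ : ℤ}
    {e : ℕ → N → ℤ} (he : KE a h κ e) : ∃ o, Pool.Agent.H10.KAC.Knit a h o := by
  obtain ⟨d, m, hm, hd⟩ := hpd.exists_d
  obtain ⟨d', hd'⟩ : ∃ d' : N → ℤ, d' = fun x => κ * d x := ⟨_, rfl⟩
  have hdm : ∀ x, cZ a d' x = m * κ := by
    intro x
    have h1 := hd x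
    unfold cZ at h1 ⊢
    rw [hd']
    have h2 : ∑ y, (a x y : ℤ) * (κ * d y) = κ * ∑ y, (a x y : ℤ) * d y := by
      rw [Finset.mul_sum]
      exact Finset.sum_congr rfl fun y _ => by ring
    simp only
    rw [h2, ← h1]
    ring
  have hC : ∀ k, k ≤ h → ∀ x, cZ a (oZ a d' k) x = m * e k x := fun k hk =>
    (oZ_C he d' m hdm k).1 hk
  have hpos : ∀ k, 1 ≤ k → k < h → ∀ x, 0 < oZ a d' k x := by
    intro k hk hk' x
    apply hpd.pos
    intro y
    rw [hC k hk'.le y]
    exact mul_pos hm (he.pos k y hk hk')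
  have hlast : ∀ x, oZ a d' h x = 0 := by
    intro x
    have h1 : ∀ x, cZ a (oZ a d' h) x = 0 := by
      intro x
      rw [hC h le_rfl x, he.last x, mul_zero]
    have h2 := hpd.nonneg (oZ a d' h) (fun y => (h1 y).ge) x
    have h3 := hpd.nonneg (fun y => -oZ a d' h y) (fun y => by
      have h4 := h1 y
      unfold cZ at h4 ⊢
      have h5 : ∑ z, (a y z : ℤ) * -oZ a d' h z = -∑ z, (a y z : ℤ) * oZ a d' h z := by
        rw [← Finset.sum_neg_distrib]
        exact Finset.sum_congr rfl fun z _ => by ring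
      rw [h5]
      linarith) x
    have h3' : 0 ≤ -oZ a d' h x := h3
    linarith
  have hnn : ∀ k, k ≤ h → ∀ x, 0 ≤ oZ a d' k x := by
    intro k hk x
    rcases Nat.eq_zero_or_pos k with h0 | h0
    · rw [h0]
      exact le_refl (0 : ℤ)
    · rcases hk.lt_or_eq with h1 | h1
      · exact (hpos k h0 h1 x).le
      · rw [h1, hlast x]
  refine ⟨fun k x => (oZ a d' k x).toNat, he.two_le, fun x => rfl, fun x => ?_, fun k x hk => ?_,
    fun k x hk hk' => ?_, fun x => ?_⟩
  · have := hpos 1 le_rfl (by have := he.two_le; omega) x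
    omega
  · have h1 : ((oZ a d' (k + 2) x).toNat : ℤ) = oZ a d' (k + 2) x :=
      Int.toNat_of_nonneg (hnn _ hk x)
    have h2 : ((oZ a d' k x).toNat : ℤ) = oZ a d' k x :=
      Int.toNat_of_nonneg (hnn _ (by omega) x)
    have h3 : ∑ y, (a x y : ℤ) * ((oZ a d' (k + 1) y).toNat : ℤ) =
        ∑ y, (a x y : ℤ) * oZ a d' (k + 1) y :=
      Finset.sum_congr rfl fun y _ => by rw [Int.toNat_of_nonneg (hnn _ (by omega) y)]
    have h4 : oZ a d' (k + 2) x = ∑ y, (a x y : ℤ) * oZ a d' (k + 1) y - oZ a d' k x := rfl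
    have h5 : (((oZ a d' (k + 2) x).toNat + (oZ a d' k x).toNat : ℕ) : ℤ) =
        ((∑ y, a x y * (oZ a d' (k + 1) y).toNat : ℕ) : ℤ) := by
      push_cast
      rw [h3, h1, h2, h4]
      ring
    exact_mod_cast h5
  · have h2 : ((oZ a d' k x).toNat : ℤ) = oZ a d' k x := Int.toNat_of_nonneg (hnn _ hk'.le x)
    have h3 : ∑ y, (a x y : ℤ) * ((oZ a d' k y).toNat : ℤ) =
        ∑ y, (a x y : ℤ) * oZ a d' k y :=
      Finset.sum_congr rfl fun y _ => by rw [Int.toNat_of_nonneg (hnn _ hk'.le y)]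
    have h4 := hC k hk'.le x
    have h5 := he.pos k x hk hk'
    unfold cZ at h4
    have h6 : 0 < m * e k x := mul_pos hm h5
    have h7 : ((∑ y, a x y * (oZ a d' k y).toNat : ℕ) : ℤ) <
        ((2 * (oZ a d' k x).toNat : ℕ) : ℤ) := by
      push_cast
      rw [h3, h2]
      linarith
    exact_mod_cast h7
  · show (oZ a d' h x).toNat = 0
    rw [hlast x]
    rfl

end Pool.H88.KA

end

section

/-!
KAC ADE: the numbers `e_k` exist for every connected positive definite graph (no classification).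
-/

set_option autoImplicit false

namespace Pool.H88.KA

open scoped BigOperators
open Matrix

variable {N : Type} [Fintype N] [DecidableEq N]

/-- the conserved form on pairs. -/
def Phi (a : N → N → ℕ) (u w : N → ℤ) : ℤ :=
  ∑ x, u x * u x + ∑ x, w x * w x - ∑ x, ∑ y, (a x y : ℤ) * (u x * w y)

theorem Phi_step (a : N → N → ℕ) (hs : ∀ x y, a x y = a y x) (u w : N → ℤ) :
    Phi a (fun x => ∑ y, (a x y : ℤ) * u y - w x) u = Phi a u w := by
  unfold Phi
  have h1 : ∑ x, ∑ y, (a x y : ℤ) * ((∑ y, (a x y : ℤ) * u y - w x) * u y) =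
      ∑ x, (∑ y, (a x y : ℤ) * u y - w x) * ∑ y, (a x y : ℤ) * u y := by
    refine Finset.sum_congr rfl fun x _ => ?_
    rw [Finset.mul_sum]
    exact Finset.sum_congr rfl fun y _ => by ring
  have h2 : ∑ x, ∑ y, (a x y : ℤ) * (u x * w y) = ∑ x, w x * ∑ y, (a x y : ℤ) * u y := by
    rw [Finset.sum_comm]
    refine Finset.sum_congr rfl fun x _ => ?_
    rw [Finset.mul_sum]
    exact Finset.sum_congr rfl fun y _ => by rw [hs y x]; ring
  rw [h1, h2]
  have h3 : ∑ x, (∑ y, (a x y : ℤ) * u y - w x) * (∑ y, (a x y : ℤ) * u y - w x) +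
      ∑ x, u x * u x - ∑ x, (∑ y, (a x y : ℤ) * u y - w x) * ∑ y, (a x y : ℤ) * u y =
      ∑ x, u x * u x + ∑ x, w x * w x - ∑ x, w x * ∑ y, (a x y : ℤ) * u y := by
    have h4 : ∀ x, (∑ y, (a x y : ℤ) * u y - w x) * (∑ y, (a x y : ℤ) * u y - w x) -
        (∑ y, (a x y : ℤ) * u y - w x) * ∑ y, (a x y : ℤ) * u y =
        w x * w x - w x * ∑ y, (a x y : ℤ) * u y := fun x => by ring
    have h5 := Finset.sum_congr (rfl : (Finset.univ : Finset N) = Finset.univ) fun x _ => h4 x
    rw [Finset.sum_sub_distrib, Finset.sum_sub_distrib] at h5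
    linarith
  exact h3

/-- the quadratic form `v C v`. -/
def qf (a : N → N → ℕ) (v : N → ℤ) : ℤ := ∑ x, v x * cZ a v x

theorem qf_eq (a : N → N → ℕ) (v : N → ℤ) :
    qf a v = 2 * ∑ x, v x * v x - ∑ x, ∑ y, (a x y : ℤ) * (v x * v y) := by
  unfold qf cZ
  rw [Finset.mul_sum, ← Finset.sum_sub_distrib]
  refine Finset.sum_congr rfl fun x _ => ?_
  rw [mul_sub, Finset.mul_sum]
  congr 1
  · ring
  · exact Finset.sum_congr rfl fun y _ => by ring

theorem maxmin (p q r s : ℤ) : p * s + r * q ≤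
    max p r * max q s + min p r * min q s := by
  rcases le_total p r with h | h <;> rcases le_total q s with h' | h' <;>
    simp only [max_eq_left h, max_eq_right h, min_eq_left h, min_eq_right h, max_eq_left h',
      max_eq_right h', min_eq_left h', min_eq_right h'] <;> nlinarith

theorem Phi_ge (a : N → N → ℕ) (hs : ∀ x y, a x y = a y x) (u w : N → ℤ) :
    qf a (fun x => max (u x) (w x)) + qf a (fun x => min (u x) (w x)) ≤ 2 * Phi a u w := by
  rw [qf_eq, qf_eq]
  unfold Phi
  have h1 : ∀ x, max (u x) (w x) * max (u x) (w x) + min (u x) (w x) * min (u x) (w x) =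
      u x * u x + w x * w x := by
    intro x
    rcases le_total (u x) (w x) with h | h
    · rw [max_eq_right h, min_eq_left h]
      ring
    · rw [max_eq_left h, min_eq_right h]
  have h2 := Finset.sum_congr (rfl : (Finset.univ : Finset N) = Finset.univ) fun x _ => h1 x
  rw [Finset.sum_add_distrib, Finset.sum_add_distrib] at h2
  have h3 : ∑ x, ∑ y, (a x y : ℤ) * (u x * w y) = ∑ x, ∑ y, (a x y : ℤ) * (w x * u y) := by
    rw [Finset.sum_comm]
    exact Finset.sum_congr rfl fun x _ => Finset.sum_congr rfl fun y _ => by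
      rw [hs y x]
      ring
  have h4 : ∑ x, ∑ y, (a x y : ℤ) * (u x * w y) + ∑ x, ∑ y, (a x y : ℤ) * (w x * u y) ≤
      ∑ x, ∑ y, (a x y : ℤ) * (max (u x) (w x) * max (u y) (w y)) +
        ∑ x, ∑ y, (a x y : ℤ) * (min (u x) (w x) * min (u y) (w y)) := by
    rw [← Finset.sum_add_distrib, ← Finset.sum_add_distrib]
    refine Finset.sum_le_sum fun x _ => ?_
    rw [← Finset.sum_add_distrib, ← Finset.sum_add_distrib]
    refine Finset.sum_le_sum fun y _ => ?_
    rw [← mul_add, ← mul_add]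
    exact mul_le_mul_of_nonneg_left (maxmin (u x) (u y) (w x) (w y)) (Int.natCast_nonneg _)
  linarith

theorem PD.qf_nonneg {a : N → N → ℕ} (h : PD a) (v : N → ℤ) : 0 ≤ qf a v := by
  by_cases hv : v = 0
  · rw [hv]
    unfold qf
    simp
  · exact (h v hv).le

theorem PD.Phi_pos {a : N → N → ℕ} (h : PD a) (hs : ∀ x y, a x y = a y x) (u w : N → ℤ)
    (hu : ∀ x, 0 ≤ u x) (hw : ∀ x, 0 ≤ w x) (hne : ∃ x, u x ≠ 0 ∨ w x ≠ 0) : 1 ≤ Phi a u w := by
  have h1 := Phi_ge a hs u w
  have h2 : 0 < qf a (fun x => max (u x) (w x)) := by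
    apply h
    intro hc
    obtain ⟨x, hx⟩ := hne
    have h3 := congrFun hc x
    simp only [Pi.zero_apply] at h3
    have h4 := hu x
    have h5 := hw x
    have h6 := le_max_left (u x) (w x)
    have h7 := le_max_right (u x) (w x)
    rcases hx with h8 | h8
    · exact h8 (by omega)
    · exact h8 (by omega)
  have h3 := h.qf_nonneg (fun x => min (u x) (w x))
  omega

theorem Phi_split (a : N → N → ℕ) (u w : N → ℤ) :
    Phi a (fun x => max (u x) 0) (fun x => max (w x) 0) +
      Phi a (fun x => max (-u x) 0) (fun x => max (-w x) 0) ≤ Phi a u w := by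
  unfold Phi
  have h1 : ∀ z : ℤ, max z 0 * max z 0 + max (-z) 0 * max (-z) 0 = z * z := by
    intro z
    rcases le_total z 0 with h | h
    · rw [max_eq_right h, max_eq_left (by omega)]
      ring
    · rw [max_eq_left h, max_eq_right (by omega)]
      ring
  have h2 : ∀ v : N → ℤ, ∑ x, max (v x) 0 * max (v x) 0 + ∑ x, max (-v x) 0 * max (-v x) 0 =
      ∑ x, v x * v x := by
    intro v
    rw [← Finset.sum_add_distrib]
    exact Finset.sum_congr rfl fun x _ => h1 (v x)
  have h3 : ∑ x, ∑ y, (a x y : ℤ) * (u x * w y) ≤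
      ∑ x, ∑ y, (a x y : ℤ) * (max (u x) 0 * max (w y) 0) +
        ∑ x, ∑ y, (a x y : ℤ) * (max (-u x) 0 * max (-w y) 0) := by
    rw [← Finset.sum_add_distrib]
    refine Finset.sum_le_sum fun x _ => ?_
    rw [← Finset.sum_add_distrib]
    refine Finset.sum_le_sum fun y _ => ?_
    rw [← mul_add]
    apply mul_le_mul_of_nonneg_left _ (Int.natCast_nonneg _)
    rcases le_total (u x) 0 with h | h <;> rcases le_total (w y) 0 with h' | h'
    · rw [max_eq_right h, max_eq_right h', max_eq_left (by omega : (0:ℤ) ≤ -u x),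
        max_eq_left (by omega : (0:ℤ) ≤ -w y)]
      nlinarith
    · rw [max_eq_right h, max_eq_right (by omega : -w y ≤ (0:ℤ))]
      nlinarith
    · rw [max_eq_right h', max_eq_right (by omega : -u x ≤ (0:ℤ))]
      nlinarith
    · rw [max_eq_left h, max_eq_left h', max_eq_right (by omega : -u x ≤ (0:ℤ))]
      nlinarith
  have h4 := h2 u
  have h5 := h2 w
  linarith

/-- sign coherence. -/
theorem PD.coherent {a : N → N → ℕ} (h : PD a) (hs : ∀ x y, a x y = a y x) (u w : N → ℤ)
    (h1 : Phi a u w = 1) : (∀ x, 0 ≤ u x ∧ 0 ≤ w x) ∨ (∀ x, u x ≤ 0 ∧ w x ≤ 0) := by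
  by_contra hc
  push Not at hc
  obtain ⟨⟨x, hx⟩, ⟨y, hy⟩⟩ := hc
  have h2 := Phi_split a u w
  have h3 : 1 ≤ Phi a (fun x => max (-u x) 0) (fun x => max (-w x) 0) := by
    apply h.Phi_pos hs _ _ (fun x => le_max_right _ _) (fun x => le_max_right _ _)
    refine ⟨x, ?_⟩
    by_cases hux : 0 ≤ u x
    · right
      have := hx hux
      have h4 := le_max_left (-w x) 0
      omega
    · left
      have h4 := le_max_left (-u x) 0
      omega
  have h4 : 1 ≤ Phi a (fun x => max (u x) 0) (fun x => max (w x) 0) := by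
    apply h.Phi_pos hs _ _ (fun x => le_max_right _ _) (fun x => le_max_right _ _)
    refine ⟨y, ?_⟩
    by_cases huy : u y ≤ 0
    · right
      have := hy huy
      have h4 := le_max_left (w y) 0
      omega
    · left
      have h4 := le_max_left (u y) 0
      omega
  omega

/-! ### the matrices `M_k = U_{k-1}(A)` -/

/-- the adjacency matrix. -/
def AM (a : N → N → ℕ) : Matrix N N ℤ := Matrix.of fun x y => (a x y : ℤ)

/-- `M_0 = 0`, `M_1 = 1`, `M_{k+2} = A M_{k+1} - M_k`. -/
def MM (a : N → N → ℕ) : ℕ → Matrix N N ℤ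
  | 0 => 0
  | 1 => 1
  | (k + 2) => AM a * MM a (k + 1) - MM a k

theorem MM_comm (a : N → N → ℕ) (k : ℕ) :
    AM a * MM a k = MM a k * AM a ∧ AM a * MM a (k + 1) = MM a (k + 1) * AM a := by
  induction k with
  | zero =>
    constructor
    · show AM a * 0 = 0 * AM a
      rw [Matrix.mul_zero, Matrix.zero_mul]
    · show AM a * 1 = 1 * AM a
      rw [Matrix.mul_one, Matrix.one_mul]
  | succ k ih =>
    refine ⟨ih.2, ?_⟩
    show AM a * (AM a * MM a (k + 1) - MM a k) = (AM a * MM a (k + 1) - MM a k) * AM a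
    rw [Matrix.mul_sub, Matrix.sub_mul, ih.1, Matrix.mul_assoc, ← ih.2]

theorem MM_symm (a : N → N → ℕ) (hs : ∀ x y, a x y = a y x) (k : ℕ) :
    (MM a k)ᵀ = MM a k ∧ (MM a (k + 1))ᵀ = MM a (k + 1) := by
  have hA : (AM a)ᵀ = AM a := by
    ext x y
    show (a y x : ℤ) = (a x y : ℤ)
    rw [hs]
  induction k with
  | zero =>
    constructor
    · show (0 : Matrix N N ℤ)ᵀ = 0
      exact Matrix.transpose_zero
    · show (1 : Matrix N N ℤ)ᵀ = 1
      exact Matrix.transpose_one
  | succ k ih =>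
    refine ⟨ih.2, ?_⟩
    show (AM a * MM a (k + 1) - MM a k)ᵀ = AM a * MM a (k + 1) - MM a k
    rw [Matrix.transpose_sub, Matrix.transpose_mul, ih.2, ih.1, hA, (MM_comm a k).2]

theorem MM_rec (a : N → N → ℕ) (k : ℕ) (z x : N) :
    MM a (k + 2) z x = ∑ y, (a z y : ℤ) * MM a (k + 1) y x - MM a k z x := rfl

theorem MM_Phi (a : N → N → ℕ) (hs : ∀ x y, a x y = a y x) (x : N) (k : ℕ) :
    Phi a (fun z => MM a (k + 1) z x) (fun z => MM a k z x) = 1 := by
  induction k with
  | zero =>
    show Phi a (fun z => (1 : Matrix N N ℤ) z x) (fun z => (0 : Matrix N N ℤ) z x) = 1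
    unfold Phi
    simp [Matrix.one_apply]
  | succ k ih =>
    rw [← ih]
    exact Phi_step a hs (fun z => MM a (k + 1) z x) (fun z => MM a k z x)

/-- `f_k ≥ 0` and `f_k ≠ 0`. -/
def Good (a : N → N → ℕ) (x : N) (k : ℕ) : Prop :=
  (∀ z, 0 ≤ MM a k z x) ∧ ∃ z, MM a k z x ≠ 0

theorem Good_one (a : N → N → ℕ) (x : N) : Good a x 1 := by
  constructor
  · intro z
    show 0 ≤ (1 : Matrix N N ℤ) z x
    rw [Matrix.one_apply]
    split_ifs <;> omega
  · refine ⟨x, ?_⟩
    show (1 : Matrix N N ℤ) x x ≠ 0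
    rw [Matrix.one_apply_eq]
    exact one_ne_zero

theorem PD.exists_bad {a : N → N → ℕ} (h : PD a) (hs : ∀ x y, a x y = a y x) (x : N) :
    ∃ k, 1 ≤ k ∧ ¬ Good a x k := by
  by_contra hc
  push Not at hc
  obtain ⟨d, m, hm, hd⟩ := h.exists_d
  have hd0 : ∀ z, 0 < d z := h.pos d (fun z => by rw [hd z]; exact hm)
  obtain ⟨π, hπ⟩ : ∃ π : ℕ → ℤ, π = fun k => ∑ z, d z * MM a k z x := ⟨_, rfl⟩
  have hstep : ∀ k, π (k + 2) + π k ≤ 2 * π (k + 1) - m := by
    intro k
    have h1 : π (k + 2) + π k = ∑ z, d z * ∑ y, (a z y : ℤ) * MM a (k + 1) y x := by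
      rw [hπ]
      show ∑ z, d z * MM a (k + 2) z x + ∑ z, d z * MM a k z x = _
      rw [← Finset.sum_add_distrib]
      refine Finset.sum_congr rfl fun z _ => ?_
      rw [MM_rec]
      ring
    have h2 : ∑ z, d z * ∑ y, (a z y : ℤ) * MM a (k + 1) y x =
        ∑ y, (∑ z, (a y z : ℤ) * d z) * MM a (k + 1) y x := by
      simp only [Finset.mul_sum, Finset.sum_mul]
      rw [Finset.sum_comm]
      refine Finset.sum_congr rfl fun y _ => Finset.sum_congr rfl fun z _ => ?_
      rw [hs z y]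
      ring
    have h3 : ∀ y, ∑ z, (a y z : ℤ) * d z = 2 * d y - m := by
      intro y
      have := hd y
      unfold cZ at this
      linarith
    have h4 : ∑ y, (∑ z, (a y z : ℤ) * d z) * MM a (k + 1) y x =
        2 * π (k + 1) - m * ∑ y, MM a (k + 1) y x := by
      rw [hπ]
      show _ = 2 * ∑ z, d z * MM a (k + 1) z x - m * ∑ y, MM a (k + 1) y x
      rw [Finset.mul_sum, Finset.mul_sum, ← Finset.sum_sub_distrib]
      refine Finset.sum_congr rfl fun y _ => ?_
      rw [h3]
      ring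
    have h5 : 1 ≤ ∑ y, MM a (k + 1) y x := by
      obtain ⟨g1, z, g2⟩ := hc (k + 1) (by omega)
      have g3 : MM a (k + 1) z x ≤ ∑ y, MM a (k + 1) y x :=
        Finset.single_le_sum (f := fun y => MM a (k + 1) y x) (fun y _ => g1 y)
          (Finset.mem_univ z)
      have g4 := g1 z
      omega
    rw [h1, h2, h4]
    nlinarith
  have hnn : ∀ k, 1 ≤ k → 0 ≤ π k := by
    intro k hk
    rw [hπ]
    exact Finset.sum_nonneg fun z _ => mul_nonneg (hd0 z).le ((hc k hk).1 z)
  have hdiff : ∀ k : ℕ, π (k + 2) - π (k + 1) ≤ π 2 - π 1 - k := by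
    intro k
    induction k with
    | zero => simp
    | succ k ih =>
      have h1 := hstep (k + 1)
      push_cast
      have e1 : k + 1 + 2 = k + 3 := rfl
      have e2 : k + 1 + 1 = k + 2 := rfl
      rw [e1, e2] at h1 ⊢
      linarith
  obtain ⟨K, hK⟩ : ∃ K : ℕ, π 2 - π 1 + 1 ≤ K := ⟨(π 2 - π 1 + 1).toNat, Int.self_le_toNat _⟩
  have hdec : ∀ j : ℕ, π (K + 1 + j) ≤ π (K + 1) - j := by
    intro j
    induction j with
    | zero => simp
    | succ j ih =>
      have h1 := hdiff (K + j)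
      have e1 : K + j + 2 = K + 1 + (j + 1) := by ring
      have e2 : K + j + 1 = K + 1 + j := by ring
      rw [e1, e2] at h1
      push_cast at h1 ⊢
      have hj : (0 : ℤ) ≤ j := Int.natCast_nonneg j
      linarith
  have h1 := hdec ((π (K + 1)).toNat + 1)
  have h2 := hnn (K + 1 + ((π (K + 1)).toNat + 1)) (by omega)
  have h3 : π (K + 1) ≤ ((π (K + 1)).toNat : ℤ) := Int.self_le_toNat _
  push_cast at h1
  linarith

/-- the first zero. -/
theorem PD.exists_h {a : N → N → ℕ} (h : PD a) (hs : ∀ x y, a x y = a y x) (x : N) :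
    ∃ k, 2 ≤ k ∧ (∀ z, MM a k z x = 0) ∧ ∀ j, 1 ≤ j → j < k → Good a x j := by
  classical
  have hex := h.exists_bad hs x
  obtain ⟨k, hk⟩ : ∃ k, k = Nat.find hex := ⟨_, rfl⟩
  have h1 : 1 ≤ k ∧ ¬ Good a x k := by rw [hk]; exact Nat.find_spec hex
  have h2 : ∀ j, 1 ≤ j → j < k → Good a x j := by
    intro j hj hjk
    by_contra hc
    rw [hk] at hjk
    exact Nat.find_min hex hjk ⟨hj, hc⟩
  have h3 : 2 ≤ k := by
    by_contra hc
    have h4 : k = 1 := by omega
    rw [h4] at h1
    exact h1.2 (Good_one a x)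
  refine ⟨k, h3, ?_, h2⟩
  obtain ⟨r, hr⟩ : ∃ r, k = r + 1 := ⟨k - 1, by omega⟩
  have h4 := h2 r (by omega) (by omega)
  have h5 := MM_Phi a hs x r
  have h6 := h.coherent hs _ _ h5
  have h7 : ∀ z, 0 ≤ MM a (r + 1) z x := by
    rcases h6 with h7 | h7
    · exact fun z => (h7 z).1
    · exfalso
      obtain ⟨g1, z, g2⟩ := h4
      have g3 := (h7 z).2
      have g4 := g1 z
      exact g2 (by omega)
  intro z
  by_contra hc
  rw [hr] at hc h1
  exact h1.2 ⟨h7, z, hc⟩

/-- The numbers `e_k` exist for every connected positive definite graph. -/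
theorem KE_exists {a : N → N → ℕ} (h : PD a) (hs : ∀ x y, a x y = a y x) [Nonempty N]
    (hc : ∀ S : Finset N, S.Nonempty → S ≠ Finset.univ → ∃ i ∈ S, ∃ j, j ∉ S ∧ 0 < a i j) :
    ∃ (m : ℕ) (e : ℕ → N → ℤ), KE a m 1 e := by
  classical
  choose hx h2 h0 hgood using fun x => h.exists_h hs x
  obtain ⟨x0, _, hmin⟩ := Finset.exists_min_image Finset.univ hx Finset.univ_nonempty
  obtain ⟨m, hm⟩ : ∃ m, m = hx x0 := ⟨_, rfl⟩
  have hle : ∀ x, m ≤ hx x := fun x => by rw [hm]; exact hmin x (Finset.mem_univ x)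
  have hm2 : 2 ≤ m := by rw [hm]; exact h2 x0
  have hnn : ∀ x z, 0 ≤ MM a m z x := by
    intro x z
    rcases (hle x).lt_or_eq with h1 | h1
    · exact (hgood x m (by omega) h1).1 z
    · rw [h1, h0 x z]
  have hz : ∀ x z, MM a m z x = 0 := by
    by_contra hcon
    have hS : Finset.univ.filter (fun x => ∀ z, MM a m z x = 0) ≠ Finset.univ := by
      intro hu
      apply hcon
      intro x
      have := Finset.mem_univ x
      rw [← hu, Finset.mem_filter] at this
      exact this.2
    obtain ⟨i, hi, j, hj, hij⟩ := hc (Finset.univ.filter (fun x => ∀ z, MM a m z x = 0))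
      ⟨x0, Finset.mem_filter.2 ⟨Finset.mem_univ _, fun z => by rw [hm]; exact h0 x0 z⟩⟩ hS
    rw [Finset.mem_filter] at hi
    apply hj
    rw [Finset.mem_filter]
    refine ⟨Finset.mem_univ _, fun z => ?_⟩
    have h1 := congrFun (congrFun (MM_comm a m).1 z) i
    rw [Matrix.mul_apply, Matrix.mul_apply] at h1
    have h3 : ∑ y, AM a z y * MM a m y i = 0 :=
      Finset.sum_eq_zero fun y _ => by rw [hi.2 y, mul_zero]
    rw [h3] at h1
    have h4 : ∀ y ∈ Finset.univ, 0 ≤ MM a m z y * AM a y i := fun y _ =>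
      mul_nonneg (hnn y z) (Int.natCast_nonneg _)
    have h5 := (Finset.sum_eq_zero_iff_of_nonneg h4).1 h1.symm j (Finset.mem_univ j)
    rcases mul_eq_zero.1 h5 with h6 | h6
    · exact h6
    · exfalso
      have h7 : (a j i : ℤ) = 0 := h6
      have h8 : a j i = 0 := by exact_mod_cast h7
      rw [hs j i] at h8
      omega
  refine ⟨m, fun k z => ∑ x, MM a k z x, hm2, one_pos, ?_, ?_, ?_, ?_, ?_⟩
  · intro z
    show ∑ x, (0 : Matrix N N ℤ) z x = 0
    simp
  · intro z
    show ∑ x, (1 : Matrix N N ℤ) z x = 1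
    simp [Matrix.one_apply]
  · intro k z _
    show ∑ x, MM a (k + 2) z x + ∑ x, MM a k z x = ∑ y, (a z y : ℤ) * ∑ x, MM a (k + 1) y x
    rw [← Finset.sum_add_distrib]
    simp only [Finset.mul_sum]
    rw [Finset.sum_comm (s := Finset.univ) (t := Finset.univ)]
    refine Finset.sum_congr rfl fun x _ => ?_
    rw [MM_rec]
    ring
  · intro k z hk hk'
    obtain ⟨g1, y, g2⟩ := hgood z k hk (lt_of_lt_of_le hk' (hle z))
    have hsym : ∀ y, MM a k z y = MM a k y z := fun y => congrFun (congrFun (MM_symm a hs k).1 y) z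
    show 0 < ∑ x, MM a k z x
    apply Finset.sum_pos'
    · intro x _
      rw [hsym x]
      exact g1 x
    · refine ⟨y, Finset.mem_univ y, ?_⟩
      rw [hsym y]
      exact lt_of_le_of_ne (g1 y) (Ne.symm g2)
  · intro z
    exact Finset.sum_eq_zero fun x _ => hz x z

/-- the index `h` is unique. -/
theorem KE_unique {a : N → N → ℕ} [Nonempty N] {h h' : ℕ} {κ κ' : ℤ} {e e' : ℕ → N → ℤ}
    (he : KE a h κ e) (he' : KE a h' κ' e') : h = h' := by
  have key : ∀ {h h' : ℕ} {κ κ' : ℤ} {e e' : ℕ → N → ℤ}, KE a h κ e → KE a h' κ' e' →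
      ¬ h < h' := by
    intro h h' κ κ' e e' he he' hlt
    have h1 : ∀ k, k ≤ h → (∀ x, κ' * e k x = κ * e' k x) ∧
        (k + 1 ≤ h → ∀ x, κ' * e (k + 1) x = κ * e' (k + 1) x) := by
      intro k
      induction k with
      | zero =>
        intro _
        refine ⟨fun x => by rw [he.zero, he'.zero]; ring, fun _ x => ?_⟩
        show κ' * e 1 x = κ * e' 1 x
        rw [he.one, he'.one]
        ring
      | succ k ih =>
        intro hk
        have ih1 := ih (by omega)
        refine ⟨ih1.2 hk, fun hk' x => ?_⟩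
        have g1 := he.knit k x hk'
        have g2 := he'.knit k x (by omega)
        have g3 : κ' * ∑ y, (a x y : ℤ) * e (k + 1) y = κ * ∑ y, (a x y : ℤ) * e' (k + 1) y := by
          rw [Finset.mul_sum, Finset.mul_sum]
          refine Finset.sum_congr rfl fun y _ => ?_
          have := ih1.2 hk y
          linear_combination (a x y : ℤ) * this
        rw [← g1, ← g2] at g3
        have g4 := ih1.1 x
        have e1 : k + 1 + 1 = k + 2 := rfl
        rw [e1]
        linarith
    obtain ⟨x⟩ := (inferInstance : Nonempty N)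
    have g1 := (h1 h le_rfl).1 x
    rw [he.last x, mul_zero] at g1
    have g2 := he'.pos h x (by have := he.two_le; omega) hlt
    have g3 := mul_pos he.kap g2
    omega
  have k1 := key he he'
  have k2 := key he' he
  omega

end Pool.H88.KA

end
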