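import Pool.Agent.H16.TKA.M06
import Pool.Agent.H16.TKA.M12
import Pool.Agent.H16.TKA.M14

/-! The parts of this file: H27.KAC.PI_Abs, H27.KAC.PI_Abs2, H27.KAC.PI_Burn, H27.KAC.PI_Nil, H27.KAC.PI_Cnt, H27.KAC.PI_Sum, H27.KAC.PI_TripC, H27.KAC.PI_LI, H27.KAC.PI_End, H27.KAC.PI_Hua. -/

section

/-!
Project KAC, part I.1, module PI_Abs: absolutely indecomposable representations over a finite field.

PROOF SKETCH.  `K = AlgebraicClosure L`, `V_K = extScalars K V`.
(→) Let `f` be an endomorphism of `V`.  Let `μ ∈ K` be an eigenvalue of some `f i` (`β ≠ 0`).  By Fitting applied to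
`f_K - μ` (a polynomial `h` in the tuple `f_K - μ` is the idempotent endomorphism of the generalized eigenspace for `0`; the
polynomial can be chosen the same for all vertices, for example from the product of the characteristic polynomials) and `V_K`
indecomposable, `f_K i - μ` is nilpotent for all `i`.  So the characteristic polynomial of the `f i` with `β i > 0` is
`(X - μ)^(β i)`, with coefficients in `L`; `L` is perfect, so `μ ∈ L` (the minimal polynomial of `μ` over `L` is separable
and divides it, so it is `X - μ`).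
(←) Suppose `SN V`.  `E = End V` (subalgebra `endAlg V`): each element is a scalar plus a nilpotent, so each element is a unit
or nilpotent, `E` is a local ring and the nilpotent elements form an ideal `n`, nilpotent since `E` is finite
(`n = Ring.jacobson`, Artinian).  Let `p` be an idempotent endomorphism of `V_K`.  Choose a basis `(c_k)` of `K` over `L`
(or of the span of the entries of `p`): `p = ∑ c_k p_k`, `p_k` endomorphisms of `V` (the equations `IsMor` have coefficients
in `L`), `p_k = λ_k + n_k`, so `p = μ + n`, `μ = ∑ c_k λ_k`, `n = ∑ c_k n_k`, and `n^j = 0` if `n^j = 0` for the ideal.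
So `p` is a scalar plus a nilpotent and an idempotent, so `0` or `1`.
-/

set_option autoImplicit false

namespace Pool.Agent.H27.KAC

open scoped BigOperators
open Polynomial

theorem abs_mem_of_pow {F : Type} [Field F] [Fintype F] {K : Type} [Field K] [Algebra F K] (z : K)
    (h : z ^ Fintype.card F = z) : ∃ a : F, algebraMap F K a = z := by
  classical
  by_contra hcon
  push Not at hcon
  have hdeg : (X ^ Fintype.card F - X : K[X]).natDegree = Fintype.card F :=
    FiniteField.X_pow_card_sub_X_natDegree_eq K Fintype.one_lt_card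
  have hne : (X ^ Fintype.card F - X : K[X]) ≠ 0 :=
    FiniteField.X_pow_card_sub_X_ne_zero K Fintype.one_lt_card
  let s : Finset K := Finset.univ.map ⟨algebraMap F K, (algebraMap F K).injective⟩
  have hs : z ∉ s := by
    intro hz
    rw [Finset.mem_map] at hz
    obtain ⟨a, _, ha⟩ := hz
    exact hcon a ha
  have hsub : (insert z s).val ⊆ (X ^ Fintype.card F - X : K[X]).roots := by
    intro w hw
    rw [Polynomial.mem_roots hne, IsRoot.def, eval_sub, eval_pow, eval_X, sub_eq_zero]
    have hw' : w ∈ insert z s := hw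
    rw [Finset.mem_insert] at hw'
    rcases hw' with rfl | hw'
    · exact h
    · rw [Finset.mem_map] at hw'
      obtain ⟨a, _, rfl⟩ := hw'
      show (algebraMap F K a) ^ Fintype.card F = algebraMap F K a
      rw [← map_pow, FiniteField.pow_card]
  have h1 := Polynomial.card_le_degree_of_subset_roots hsub
  rw [hdeg, Finset.card_insert_of_notMem hs, Finset.card_map, Finset.card_univ] at h1
  omega

theorem abs_aeval_isMor {I E : Type} {Q : Quiv I E} {K : Type} [Field K] {β : I → ℕ}
    {x : Rp Q K β} {f : (i : I) → Matrix (Fin (β i)) (Fin (β i)) K} (hf : IsMor x x f) (P : K[X]) :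
    IsMor x x (fun i => aeval (f i) P) := by
  have h1 := (aeval (⟨f, hf⟩ : endAlg x) P).2
  rw [Polynomial.aeval_subalgebra_coe] at h1
  have h2 : aeval f P = fun i => aeval (f i) P := by
    funext i
    have h3 := Polynomial.aeval_algHom_apply (Pi.evalAlgHom K
      (fun i => Matrix (Fin (β i)) (Fin (β i)) K) i) f P
    exact h3.symm
  rw [h2] at h1
  exact h1

/-- An eigenvalue over the algebraic closure. -/
theorem abs_eigen {I E : Type} [Fintype I] {Q : Quiv I E} {K : Type} [Field K] [IsAlgClosed K]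
    {β : I → ℕ} {x : Rp Q K β} (h : Indec x) {f : (i : I) → Matrix (Fin (β i)) (Fin (β i)) K}
    (hf : IsMor x x f) : ∃ z : K, ∀ i, IsNilpotent (f i - z • (1 : Matrix (Fin (β i)) (Fin (β i)) K)) := by
  classical
  obtain ⟨i0, hi0⟩ : ∃ i, β i ≠ 0 := by
    by_contra hcon
    push Not at hcon
    exact h.1 (funext hcon)
  have hne : Nonempty (Fin (β i0)) := ⟨⟨0, Nat.pos_of_ne_zero hi0⟩⟩
  obtain ⟨z, hz⟩ := IsAlgClosed.exists_root (f i0).charpoly (by
    rw [Matrix.charpoly_degree_eq_dim, Fintype.card_fin]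
    exact_mod_cast hi0)
  refine ⟨z, ?_⟩
  let P : K[X] := ∏ i, (f i).charpoly
  have hP0 : P ≠ 0 := Finset.prod_ne_zero_iff.2 fun i _ => (f i).charpoly_monic.ne_zero
  have hPf : ∀ i, aeval (f i) P = 0 := by
    intro i
    have h1 : (f i).charpoly ∣ P := Finset.dvd_prod_of_mem _ (Finset.mem_univ i)
    obtain ⟨R, hR⟩ := h1
    rw [hR, map_mul, Matrix.aeval_self_charpoly, zero_mul]
  have hPz : P.IsRoot z := by
    rw [IsRoot.def, eval_prod]
    exact Finset.prod_eq_zero (Finset.mem_univ i0) hz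
  obtain ⟨g, hg, hXg⟩ := Polynomial.exists_eq_pow_rootMultiplicity_mul_and_not_dvd P hP0 z
  set a := P.rootMultiplicity z with ha
  have ha0 : 0 < a := (Polynomial.rootMultiplicity_pos hP0).2 hPz
  have hcop : IsCoprime ((X - C z) ^ a : K[X]) g := by
    apply IsCoprime.pow_left
    rw [(Polynomial.irreducible_X_sub_C z).coprime_iff_not_dvd]
    exact hXg
  obtain ⟨u, w, huw⟩ := hcop
  have hsplit : ∀ i, aeval (f i) (u * (X - C z) ^ a) = 1 - aeval (f i) (w * g) := by
    intro i
    have e1 : (1 : Matrix (Fin (β i)) (Fin (β i)) K) =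
        aeval (f i) (u * (X - C z) ^ a + w * g) := by rw [huw, map_one]
    rw [e1, map_add, add_sub_cancel_right]
  have hidem : ∀ i, aeval (f i) (w * g) * aeval (f i) (w * g) = aeval (f i) (w * g) := by
    intro i
    have h1 : (1 - aeval (f i) (w * g)) * aeval (f i) (w * g) = 0 := by
      rw [← hsplit, ← map_mul, show u * (X - C z) ^ a * (w * g) = u * w * ((X - C z) ^ a * g) by
        ring, ← hg, map_mul, hPf, mul_zero]
    rw [sub_mul, one_mul, sub_eq_zero] at h1
    exact h1.symm
  have hX : ∀ i, aeval (f i) (X - C z) = f i - z • (1 : Matrix (Fin (β i)) (Fin (β i)) K) := by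
    intro i
    rw [map_sub, aeval_X, aeval_C, Algebra.algebraMap_eq_smul_one]
  rcases h.2 _ (abs_aeval_isMor hf (w * g)) hidem with h1 | h1
  · exfalso
    have h2 := hsplit i0
    rw [h1 i0, sub_zero] at h2
    have h3 : aeval (f i0) (u * (X - C z) ^ (a - 1)) *
        (f i0 - z • (1 : Matrix (Fin (β i0)) (Fin (β i0)) K)) = 1 := by
      rw [← hX, ← map_mul, mul_assoc, ← pow_succ, Nat.sub_add_cancel ha0, h2]
    have h4 := congrArg Matrix.det h3
    rw [Matrix.det_mul, Matrix.det_one] at h4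
    have h5 : (f i0 - z • (1 : Matrix (Fin (β i0)) (Fin (β i0)) K)).det = 0 := by
      have h6 : (z • (1 : Matrix (Fin (β i0)) (Fin (β i0)) K) - f i0).det = 0 := by
        rw [IsRoot.def, Matrix.eval_charpoly] at hz
        rw [← hz]
        congr 1
        ext i j
        simp [Matrix.scalar_apply, Matrix.diagonal_apply, Matrix.one_apply]
      rw [← neg_sub, Matrix.det_neg, h6, mul_zero]
    rw [h5, mul_zero] at h4
    exact zero_ne_one h4
  · intro i
    refine ⟨a, ?_⟩
    rw [← hX, ← map_pow]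
    have h2 : aeval (f i) ((X - C z) ^ a) = aeval (f i) ((X - C z) ^ a) * aeval (f i) (w * g) := by
      rw [h1 i, mul_one]
    rw [h2, ← map_mul, show (X - C z) ^ a * (w * g) = w * ((X - C z) ^ a * g) by ring, ← hg,
      map_mul, hPf, mul_zero]

theorem SN_of_absIndec {I E : Type} [Fintype I] [DecidableEq I] {Q : Quiv I E} {L : Type}
    [Field L] [Fintype L] {β : I → ℕ} (V : Rp Q L β) (h : AbsIndec V) : SN V := by
  classical
  refine ⟨h.1, fun f hf => ?_⟩
  obtain ⟨K, hK1, hK2, hK3, hK4⟩ : ∃ (K : Type) (_ : Field K) (_ : Algebra L K)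
      (_ : IsAlgClosed K), Indec (mapRp (algebraMap L K) V) :=
    ⟨AlgebraicClosure L, inferInstance, inferInstance, inferInstance, h⟩
  have hmor : IsMor (mapRp (algebraMap L K) V) (mapRp (algebraMap L K) V)
      (fun i => (f i).map (algebraMap L K)) := hf.map _
  obtain ⟨z, hz⟩ := abs_eigen hK4 hmor
  obtain ⟨i0, hi0⟩ : ∃ i, β i ≠ 0 := by
    by_contra hcon
    push Not at hcon
    exact h.1 (funext hcon)
  have hn : 0 < β i0 := Nat.pos_of_ne_zero hi0
  have hne : Nonempty (Fin (β i0)) := ⟨⟨0, hn⟩⟩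
  let φ : K →ₐ[L] K := FiniteField.frobeniusAlgHom L K
  set D := (f i0).map (algebraMap L K) with hD
  have hnil : IsNilpotent (D - z • (1 : Matrix (Fin (β i0)) (Fin (β i0)) K)) := hz i0
  have hφD : φ.toRingHom.mapMatrix D = D := by
    ext i j
    show φ (algebraMap L K (f i0 i j)) = algebraMap L K (f i0 i j)
    exact φ.commutes _
  have hφz : φ.toRingHom.mapMatrix (z • (1 : Matrix (Fin (β i0)) (Fin (β i0)) K)) =
      (z ^ Fintype.card L) • (1 : Matrix (Fin (β i0)) (Fin (β i0)) K) := by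
    ext i j
    show φ ((z • (1 : Matrix (Fin (β i0)) (Fin (β i0)) K)) i j) = _
    rw [Matrix.smul_apply, Matrix.smul_apply, smul_eq_mul, smul_eq_mul, map_mul, Matrix.one_apply]
    have h4 : φ z = z ^ Fintype.card L := rfl
    split_ifs
    · rw [map_one, h4]
    · rw [map_zero, h4]
  have hnil2 := hnil.map φ.toRingHom.mapMatrix
  rw [map_sub, hφD, hφz] at hnil2
  have hcomm : Commute (D - z • (1 : Matrix (Fin (β i0)) (Fin (β i0)) K))
      (D - (z ^ Fintype.card L) • (1 : Matrix (Fin (β i0)) (Fin (β i0)) K)) := by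
    have h5 : ∀ c : K, Commute D (c • (1 : Matrix (Fin (β i0)) (Fin (β i0)) K)) := fun c =>
      (Commute.one_right D).smul_right c
    have h6 : ∀ c c' : K, Commute (c • (1 : Matrix (Fin (β i0)) (Fin (β i0)) K))
      (c' • (1 : Matrix (Fin (β i0)) (Fin (β i0)) K)) := fun c c' =>
      ((Commute.one_right _).smul_right c').smul_left c
    exact ((Commute.refl D).sub_right (h5 _)).sub_left ((h5 _).symm.sub_right (h6 _ _))
  have hdiff := hcomm.isNilpotent_sub hnil hnil2
  have hzz : z ^ Fintype.card L = z := by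
    obtain ⟨m, hm⟩ := hdiff
    have h7 : D - z • (1 : Matrix (Fin (β i0)) (Fin (β i0)) K) -
        (D - (z ^ Fintype.card L) • (1 : Matrix (Fin (β i0)) (Fin (β i0)) K)) =
        (z ^ Fintype.card L - z) • (1 : Matrix (Fin (β i0)) (Fin (β i0)) K) := by
      rw [sub_smul]
      abel
    rw [h7, _root_.smul_pow, one_pow] at hm
    have h8 := congrFun (congrFun hm ⟨0, hn⟩) ⟨0, hn⟩
    rw [Matrix.smul_apply, Matrix.one_apply_eq, smul_eq_mul, mul_one, Matrix.zero_apply] at h8
    rcases Nat.eq_zero_or_pos m with h9 | h9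
    · rw [h9, pow_zero] at h8
      exact absurd h8 one_ne_zero
    · exact sub_eq_zero.1 ((pow_eq_zero_iff h9.ne').1 h8)
  obtain ⟨c, hc⟩ := abs_mem_of_pow (F := L) z hzz
  refine ⟨c, fun i => ?_⟩
  have h10 : (algebraMap L K).mapMatrix (f i - c • (1 : Matrix (Fin (β i)) (Fin (β i)) L)) =
      (f i).map (algebraMap L K) - z • (1 : Matrix (Fin (β i)) (Fin (β i)) K) := by
    ext k j
    show algebraMap L K ((f i - c • (1 : Matrix (Fin (β i)) (Fin (β i)) L)) k j) = _
    rw [Matrix.sub_apply, Matrix.sub_apply, map_sub, Matrix.smul_apply, Matrix.smul_apply,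
      smul_eq_mul, smul_eq_mul, map_mul, hc, Matrix.one_apply, Matrix.one_apply]
    split_ifs
    · rw [map_one]
      rfl
    · rw [map_zero]
      rfl
  have hi := hz i
  have hi' : IsNilpotent ((algebraMap L K).mapMatrix
      (f i - c • (1 : Matrix (Fin (β i)) (Fin (β i)) L))) := by
    rw [h10]
    exact hi
  obtain ⟨m, hm⟩ := hi'
  refine ⟨m, ?_⟩
  rw [← map_pow] at hm
  have h11 : Function.Injective ((algebraMap L K).mapMatrix (m := Fin (β i))) := by
    intro M N hMN
    ext k j
    exact (algebraMap L K).injective (congrFun (congrFun hMN k) j)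
  exact h11 (by rw [hm, map_zero])

end Pool.Agent.H27.KAC

end

section

/-!
Project KAC, part I.1, module PI_Abs2: `SN` implies absolutely indecomposable.

PROOF SKETCH.  Suppose `SN V`.  `A = endAlg V`: each element is a scalar plus a nilpotent, so each element is a unit
or nilpotent, `A` is a local ring and the nilpotent elements form an ideal `n`, nilpotent since `A` is finite
(Artinian; `n` is contained in the Jacobson radical).  Let `K = AlgebraicClosure L` and let `p` be an idempotent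
endomorphism of `V_K = extScalars K V`.  Choose a basis `(c_k)` of `K` over `L`: `p = ∑ c_k p_k` (finite sum), the `p_k` are
endomorphisms of `V` (the equations `IsMor` have coefficients in `L`), `p_k = λ_k + n_k`, so `p = μ + n`,
`μ = ∑ c_k λ_k`, `n = ∑ c_k n_k`, and `n` is nilpotent (if a product of `j` elements of the ideal is zero then
`n^j = 0`).  So `p` is a scalar plus a nilpotent and an idempotent: `μ^2 - μ` is nilpotent, so `μ ∈ {0, 1}`, and `p` or
`1 - p` is a nilpotent idempotent, so zero.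
-/

set_option autoImplicit false

namespace Pool.Agent.H27.KAC

open scoped BigOperators Pointwise
open Polynomial

theorem abs2_pi_nilpotent {I : Type} [Fintype I] {K : Type} [Field K] {β : I → ℕ}
    {f : (i : I) → Matrix (Fin (β i)) (Fin (β i)) K} (h : ∀ i, IsNilpotent (f i)) :
    IsNilpotent f := by
  choose m hm using h
  refine ⟨∑ i, m i, ?_⟩
  funext i
  show f i ^ (∑ i, m i) = 0
  have h1 : m i ≤ ∑ i, m i := Finset.single_le_sum (fun _ _ => Nat.zero_le _) (Finset.mem_univ i)
  obtain ⟨k, hk⟩ := Nat.exists_eq_add_of_le h1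
  rw [hk, pow_add, hm, zero_mul]

/-- If each element of a finite nontrivial algebra is a scalar plus a nilpotent, then the nilpotent elements are in a
nilpotent left ideal. -/
theorem abs2_nil_ideal {L A : Type} [Field L] [Ring A] [Nontrivial A] [Finite A] [Algebra L A]
    (h : ∀ a : A, ∃ l : L, IsNilpotent (a - algebraMap L A l)) :
    ∃ (J : Ideal A) (j : ℕ), (∀ a, IsNilpotent a → a ∈ J) ∧ J ^ j = ⊥ := by
  have hunit : ∀ (l : L) (a : A), l ≠ 0 → IsNilpotent (a - algebraMap L A l) → IsUnit a := by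
    intro l a hl ha
    have h1 : IsUnit (algebraMap L A l) := (isUnit_iff_ne_zero.2 hl).map (algebraMap L A)
    have h2 : a = algebraMap L A l + (a - algebraMap L A l) := by abel
    rw [h2]
    exact ha.isUnit_add_left_of_commute h1 (Algebra.commutes l _).symm
  have hmul : ∀ a b : A, IsNilpotent a → IsNilpotent (b * a) := by
    intro a b ha
    obtain ⟨l, hl⟩ := h (b * a)
    by_cases h0 : l = 0
    · rw [h0, map_zero, sub_zero] at hl
      exact hl
    · exfalso
      obtain ⟨u, hu⟩ := hunit l _ h0 hl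
      have h1 : IsUnit a := by
        have h2 : (↑u⁻¹ * b) * a = 1 := by
          rw [mul_assoc, ← hu, Units.inv_mul]
        exact IsUnit.of_mul_eq_one _ (mul_eq_one_comm.1 h2)
      exact not_isUnit_zero (M₀ := A) (by
        obtain ⟨m, hm⟩ := ha
        have := h1.pow m
        rwa [hm] at this)
  refine ⟨Ring.jacobson A, ?_⟩
  obtain ⟨j, hj⟩ := IsSemiprimaryRing.isNilpotent (R := A)
  refine ⟨j, fun a ha => ?_, hj⟩
  rw [← Ideal.jacobson_bot, Ideal.mem_jacobson_iff]
  intro y
  have h1 : IsUnit (1 + y * a) := (hmul a y ha).isUnit_one_add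
  obtain ⟨u, hu⟩ := h1
  refine ⟨↑u⁻¹, ?_⟩
  rw [Ideal.mem_bot, mul_assoc]
  have h2 : (↑u⁻¹ : A) * (y * a) + ↑u⁻¹ = ↑u⁻¹ * (1 + y * a) := by
    rw [mul_add, mul_one]
    abel
  rw [h2, ← hu, Units.inv_mul, sub_self]

/-- Products of `j` elements of `J` vanish. -/
theorem abs2_prod {A : Type} [Ring A] {J : Ideal A} : ∀ (j : ℕ) (X : Set A), (∀ a ∈ X, a ∈ J) →
    ∀ a ∈ X ^ j, a ∈ J ^ j := by
  intro j
  induction j with
  | zero =>
    intro X _ a _
    rw [Submodule.pow_zero, Ideal.one_eq_top]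
    trivial
  | succ j ih =>
    intro X hX a ha
    rw [pow_succ, Set.mem_mul] at ha
    obtain ⟨b, hb, c, hc, rfl⟩ := ha
    rw [Submodule.pow_succ]
    exact Submodule.mul_mem_mul (ih X hX b hb) (hX c hc)

/-- An idempotent which is a scalar plus a nilpotent is zero or one. -/
theorem abs2_idem {K B : Type} [Field K] [Ring B] [Nontrivial B] [Algebra K B] {p : B}
    (hp : p * p = p) {z : K} (h : IsNilpotent (p - algebraMap K B z)) : p = 0 ∨ p = 1 := by
  have h1 : ∀ w : K, w ≠ 0 → IsUnit (p - algebraMap K B z + algebraMap K B w) := by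
    intro w hw
    have h2 : IsUnit (algebraMap K B w) := (isUnit_iff_ne_zero.2 hw).map (algebraMap K B)
    rw [add_comm]
    exact h.isUnit_add_left_of_commute h2 (Algebra.commutes w _).symm
  by_cases hz : z = 0
  · left
    have h3 := h1 (-1) (by simp)
    rw [hz, map_zero, sub_zero, map_neg, map_one, ← sub_eq_add_neg] at h3
    have h4 : (p - 1) * p = 0 := by rw [sub_mul, one_mul, hp, sub_self]
    exact (h3.mul_right_eq_zero).1 h4
  · right
    have h3 := h1 z hz
    rw [sub_add_cancel] at h3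
    have h4 : p * (p - 1) = 0 := by rw [mul_sub, mul_one, hp, sub_self]
    exact sub_eq_zero.1 ((h3.mul_right_eq_zero).1 h4)

theorem absIndec_of_SN {I E : Type} [Fintype I] [DecidableEq I] {Q : Quiv I E} {L : Type}
    [Field L] [Fintype L] {β : I → ℕ} (V : Rp Q L β) (h : SN V) : AbsIndec V := by
  classical
  show Indec (mapRp (algebraMap L (AlgebraicClosure L)) V)
  obtain ⟨K, hK1, hK2, hK3⟩ : ∃ (K : Type) (_ : Field K) (_ : Algebra L K),
      (Indec (mapRp (algebraMap L K) V) → Indec (mapRp (algebraMap L (AlgebraicClosure L)) V)) :=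
    ⟨AlgebraicClosure L, inferInstance, inferInstance, id⟩
  apply hK3
  refine ⟨h.1, fun p hp hpp => ?_⟩
  obtain ⟨i0, hi0⟩ : ∃ i, β i ≠ 0 := by
    by_contra hcon
    push Not at hcon
    exact h.1 (funext hcon)
  have hne : Nonempty (Fin (β i0)) := ⟨⟨0, Nat.pos_of_ne_zero hi0⟩⟩
  let A := endAlg V
  have hfinA : Finite A := by
    have : Finite ((i : I) → Matrix (Fin (β i)) (Fin (β i)) L) := inferInstance
    exact Subtype.finite
  have hntA : Nontrivial A := by
    refine ⟨⟨0, 1, fun h0 => ?_⟩⟩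
    have h1 := congrFun (congrArg Subtype.val h0) i0
    exact zero_ne_one h1
  have hA : ∀ a : A, ∃ l : L, IsNilpotent (a - algebraMap L A l) := by
    rintro ⟨a, ha⟩
    obtain ⟨l, hl⟩ := h.2 a ha
    refine ⟨l, ?_⟩
    obtain ⟨m, hm⟩ := abs2_pi_nilpotent hl
    refine ⟨m, Subtype.ext ?_⟩
    show (a - algebraMap L _ l) ^ m = 0
    rw [← hm]
    congr 1
    rw [Algebra.algebraMap_eq_smul_one]
    rfl
  obtain ⟨J, j, hJ1, hJ2⟩ := abs2_nil_ideal hA
  let B := (i : I) → Matrix (Fin (β i)) (Fin (β i)) K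
  have hntB : Nontrivial B := by
    refine ⟨⟨0, 1, fun h0 => ?_⟩⟩
    have h1 := congrFun h0 i0
    exact zero_ne_one h1
  let φ : A →+* B :=
    { toFun := fun a i => (a.1 i).map (algebraMap L K)
      map_one' := by
        funext i
        exact Matrix.map_one _ (map_zero _) (map_one _)
      map_zero' := by
        funext i
        exact Matrix.map_zero _ (map_zero _)
      map_mul' := by
        intro a b
        funext i
        exact Matrix.map_mul
      map_add' := by
        intro a b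
        funext i
        exact Matrix.map_add _ (map_add _) _ _ }
  let X : Set A := {a | IsNilpotent a}
  let N : Submodule K B := Submodule.span K (φ '' X)
  have hNj : N ^ j = ⊥ := by
    show (Submodule.span K (φ '' X)) ^ j = ⊥
    rw [Submodule.span_pow, Submodule.span_eq_bot]
    intro b hb
    rw [← Set.image_pow] at hb
    obtain ⟨a, ha, rfl⟩ := hb
    have h1 := abs2_prod j X hJ1 a ha
    rw [hJ2, Submodule.mem_bot] at h1
    rw [h1, map_zero]
  have hφ : ∀ a : A, ∃ (z : K), φ a - algebraMap K B z ∈ N := by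
    intro a
    obtain ⟨l, hl⟩ := hA a
    refine ⟨algebraMap L K l, ?_⟩
    have h1 : φ a - algebraMap K B (algebraMap L K l) = φ (a - algebraMap L A l) := by
      rw [map_sub]
      congr 1
      funext i
      ext k m
      show (algebraMap K (Matrix (Fin (β i)) (Fin (β i)) K) (algebraMap L K l)) k m =
        algebraMap L K ((algebraMap L (Matrix (Fin (β i)) (Fin (β i)) L) l) k m)
      rw [Matrix.algebraMap_matrix_apply, Matrix.algebraMap_matrix_apply]
      split_ifs
      · rfl
      · rw [map_zero]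
    rw [h1]
    exact Submodule.subset_span ⟨_, hl, rfl⟩
  have hspan : ∀ b : B, IsMor (mapRp (algebraMap L K) V) (mapRp (algebraMap L K) V) b →
      b ∈ Submodule.span K (Set.range φ) := by
    intro b hb
    let bs := Module.Free.chooseBasis L K
    let S : Finset (Module.Free.ChooseBasisIndex L K) :=
      Finset.univ.biUnion (fun t : Σ i : I, Fin (β i) × Fin (β i) =>
        (bs.repr (b t.1 t.2.1 t.2.2)).support)
    have hmor : ∀ k, IsMor V V (fun i => (b i).map (fun z => bs.repr z k)) := by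
      intro k e
      ext r c
      have h1 := congrArg (fun z => bs.repr z k) (congrFun (congrFun (hb e) r) c)
      simp only [Matrix.mul_apply, map_sum, Finsupp.coe_finsetSum, Finset.sum_apply] at h1
      rw [Matrix.mul_apply, Matrix.mul_apply]
      have h2 : ∀ (z : K) (l : L), bs.repr (z * algebraMap L K l) k = bs.repr z k * l := by
        intro z l
        rw [mul_comm, ← Algebra.smul_def, map_smul, Finsupp.smul_apply, smul_eq_mul, mul_comm]
      have h3 : ∀ (z : K) (l : L), bs.repr (algebraMap L K l * z) k = l * bs.repr z k := by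
        intro z l
        rw [← Algebra.smul_def, map_smul, Finsupp.smul_apply, smul_eq_mul]
      calc _ = ∑ x, bs.repr (b (Q.tgt e) r x * algebraMap L K (V e x c)) k :=
            Finset.sum_congr rfl fun x _ => (h2 _ _).symm
        _ = ∑ x, bs.repr (algebraMap L K (V e r x) * b (Q.src e) x c) k := h1
        _ = _ := Finset.sum_congr rfl fun x _ => h3 _ _
    have hrep : b = ∑ k ∈ S, (bs k) •
        φ (⟨fun i => (b i).map (fun z => bs.repr z k), hmor k⟩ : endAlg V) := by
      funext i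
      ext r c
      rw [Finset.sum_apply, Matrix.sum_apply]
      have h1 : (bs.repr (b i r c)).support ⊆ S := by
        intro k hk
        exact Finset.mem_biUnion.2 ⟨⟨i, r, c⟩, Finset.mem_univ _, hk⟩
      have h2 : b i r c = ∑ k ∈ S, bs.repr (b i r c) k • bs k := by
        conv_lhs => rw [← bs.linearCombination_repr (b i r c)]
        rw [Finsupp.linearCombination_apply, Finsupp.sum_of_support_subset _ h1]
        intro k _
        exact zero_smul _ _
      rw [h2]
      refine Finset.sum_congr rfl fun k _ => ?_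
      show _ = bs k * algebraMap L K (bs.repr (b i r c) k)
      rw [Algebra.smul_def, mul_comm]
    rw [hrep]
    exact Submodule.sum_mem _ fun k _ => Submodule.smul_mem _ _ (Submodule.subset_span ⟨_, rfl⟩)
  have hsn : ∀ b ∈ Submodule.span K (Set.range φ), ∃ z : K, b - algebraMap K B z ∈ N := by
    intro b hb
    induction hb using Submodule.span_induction with
    | mem b hb =>
      obtain ⟨a, rfl⟩ := hb
      exact hφ a
    | zero => exact ⟨0, by rw [map_zero, sub_zero]; exact N.zero_mem⟩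
    | add b c _ _ hb hc =>
      obtain ⟨z, hz⟩ := hb
      obtain ⟨w, hw⟩ := hc
      refine ⟨z + w, ?_⟩
      have h1 : b + c - algebraMap K B (z + w) =
          (b - algebraMap K B z) + (c - algebraMap K B w) := by
        rw [map_add]
        abel
      rw [h1]
      exact N.add_mem hz hw
    | smul w b _ hb =>
      obtain ⟨z, hz⟩ := hb
      refine ⟨w * z, ?_⟩
      have h1 : w • b - algebraMap K B (w * z) = w • (b - algebraMap K B z) := by
        rw [smul_sub, map_mul, Algebra.smul_def w (algebraMap K B z)]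
      rw [h1]
      exact N.smul_mem w hz
  obtain ⟨z, hz⟩ := hsn p (hspan p hp)
  have hnil : IsNilpotent (p - algebraMap K B z) := by
    refine ⟨j, ?_⟩
    have h1 := Submodule.pow_mem_pow N hz j
    rw [hNj, Submodule.mem_bot] at h1
    exact h1
  have hpp' : p * p = p := funext hpp
  rcases abs2_idem (K := K) (B := B) hpp' hnil with h1 | h1
  · left
    intro i
    rw [h1]
    rfl
  · right
    intro i
    rw [h1]
    rfl

end Pool.Agent.H27.KAC

end

section

/-!
Project KAC, part I.1, module PI_Burn: number of the pairs `(V, s)`.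

PROOF SKETCH.  `G = ∏ GL_(β i)(L)` acts on `Rp Q L β`; the orbits are the classes of `Isom`; the stabilizer of `V` is the
set of the automorphisms of `V`.  If `SN V`, then `(l, s) ↦ l + s` is a bijection of `Lˣ × {nilpotent endomorphisms}` with the
automorphisms (`β ≠ 0`: a scalar plus a nilpotent is invertible iff the scalar is not zero; if `l + s = l' + s'`, then `s`, `s'`
commute and `l' - l` is nilpotent, so zero).  So
`card (SNPairs) * (card L - 1) = ∑_(V with SN) card (Aut V) = (number of the classes) * card G` (orbit-stabilizer in each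
class), and the classes with `SN` are those of `absIndecClasses` (`SN_of_absIndec`, `absIndec_of_SN`; `SN` is invariant under
`Isom`).
-/

set_option autoImplicit false

namespace Pool.Agent.H27.KAC

open scoped BigOperators
open Polynomial

section

variable {I E : Type} (Q : Quiv I E) (L : Type) [Field L] (β : I → ℕ)

/-- The group acting on the representations. -/
private abbrev PI_Burn_G : Type := (i : I) → (Matrix (Fin (β i)) (Fin (β i)) L)ˣ

variable {Q L β}

/-- The matrices of an element of the group. -/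
private def PI_Burn_m (g : PI_Burn_G L β) (i : I) : Matrix (Fin (β i)) (Fin (β i)) L := (g i).val

private def PI_Burn_n (g : PI_Burn_G L β) (i : I) : Matrix (Fin (β i)) (Fin (β i)) L :=
  ((g i)⁻¹).val

private theorem PI_Burn_mn (g : PI_Burn_G L β) (i : I) : PI_Burn_m g i * PI_Burn_n g i = 1 :=
  Units.mul_inv (g i)

private theorem PI_Burn_nm (g : PI_Burn_G L β) (i : I) : PI_Burn_n g i * PI_Burn_m g i = 1 :=
  Units.inv_mul (g i)

/-- The action on the representations. -/
private def PI_Burn_act (g : PI_Burn_G L β) (x : Rp Q L β) : Rp Q L β :=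
  fun e => PI_Burn_m g (Q.tgt e) * x e * PI_Burn_n g (Q.src e)

private theorem PI_Burn_act_eq_iff (g : PI_Burn_G L β) (x y : Rp Q L β) :
    PI_Burn_act g x = y ↔ IsMor x y (fun i => (g i : Matrix (Fin (β i)) (Fin (β i)) L)) := by
  constructor
  · rintro rfl e
    show PI_Burn_m g (Q.tgt e) * x e =
      PI_Burn_m g (Q.tgt e) * x e * PI_Burn_n g (Q.src e) * PI_Burn_m g (Q.src e)
    rw [Matrix.mul_assoc _ _ (PI_Burn_m g (Q.src e)), PI_Burn_nm, Matrix.mul_one]
  · intro h
    funext e
    have h1 : PI_Burn_m g (Q.tgt e) * x e = y e * PI_Burn_m g (Q.src e) := h e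
    show PI_Burn_m g (Q.tgt e) * x e * PI_Burn_n g (Q.src e) = y e
    rw [h1, Matrix.mul_assoc, PI_Burn_mn, Matrix.mul_one]

private theorem PI_Burn_rule (g : PI_Burn_G L β) (x : Rp Q L β) (e : E) :
    PI_Burn_m g (Q.tgt e) * x e = PI_Burn_act g x e * PI_Burn_m g (Q.src e) :=
  (PI_Burn_act_eq_iff g x _).1 rfl e

private theorem PI_Burn_one (x : Rp Q L β) : PI_Burn_act (1 : PI_Burn_G L β) x = x := by
  rw [PI_Burn_act_eq_iff]
  intro e
  have h1 : (1 : Matrix (Fin (β (Q.tgt e))) (Fin (β (Q.tgt e))) L) * x e =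
    x e * (1 : Matrix (Fin (β (Q.src e))) (Fin (β (Q.src e))) L) := by
    rw [Matrix.one_mul, Matrix.mul_one]
  exact h1

private theorem PI_Burn_mul (g h : PI_Burn_G L β) (x : Rp Q L β) :
    PI_Burn_act (g * h) x = PI_Burn_act g (PI_Burn_act h x) := by
  rw [PI_Burn_act_eq_iff]
  intro e
  have h1 := PI_Burn_rule h x e
  have h2 := PI_Burn_rule g (PI_Burn_act h x) e
  have h3 : PI_Burn_m g (Q.tgt e) * PI_Burn_m h (Q.tgt e) * x e =
      PI_Burn_act g (PI_Burn_act h x) e * (PI_Burn_m g (Q.src e) * PI_Burn_m h (Q.src e)) := by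
    rw [Matrix.mul_assoc, h1, ← Matrix.mul_assoc, h2, Matrix.mul_assoc]
  exact h3

private theorem PI_Burn_SN (g : PI_Burn_G L β) (x : Rp Q L β) (h : SN x) :
    SN (PI_Burn_act g x) := by
  refine ⟨h.1, fun c hc => ?_⟩
  obtain ⟨l, hl⟩ := h.2 (fun i => PI_Burn_n g i * c i * PI_Burn_m g i) (by
    intro e
    have h1 := PI_Burn_rule g x e
    have h2 : c (Q.tgt e) * PI_Burn_act g x e = PI_Burn_act g x e * c (Q.src e) := hc e
    have h3 : x e = PI_Burn_n g (Q.tgt e) *
        (PI_Burn_act g x e * PI_Burn_m g (Q.src e)) := by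
      rw [← h1, ← Matrix.mul_assoc, PI_Burn_nm, Matrix.one_mul]
    show PI_Burn_n g (Q.tgt e) * c (Q.tgt e) * PI_Burn_m g (Q.tgt e) * x e =
      x e * (PI_Burn_n g (Q.src e) * c (Q.src e) * PI_Burn_m g (Q.src e))
    calc PI_Burn_n g (Q.tgt e) * c (Q.tgt e) * PI_Burn_m g (Q.tgt e) * x e
        = PI_Burn_n g (Q.tgt e) * (c (Q.tgt e) * (PI_Burn_m g (Q.tgt e) * x e)) := by
          simp only [Matrix.mul_assoc]
      _ = PI_Burn_n g (Q.tgt e) * ((c (Q.tgt e) * PI_Burn_act g x e) *
          PI_Burn_m g (Q.src e)) := by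
          rw [h1, Matrix.mul_assoc (c (Q.tgt e))]
      _ = PI_Burn_n g (Q.tgt e) * (PI_Burn_act g x e *
          (PI_Burn_m g (Q.src e) * PI_Burn_n g (Q.src e)) *
          c (Q.src e) * PI_Burn_m g (Q.src e)) := by
          rw [h2, PI_Burn_mn, Matrix.mul_one]
      _ = PI_Burn_n g (Q.tgt e) *
          (PI_Burn_act g x e * PI_Burn_m g (Q.src e)) *
          (PI_Burn_n g (Q.src e) * c (Q.src e) * PI_Burn_m g (Q.src e)) := by
          simp only [Matrix.mul_assoc]
      _ = x e * (PI_Burn_n g (Q.src e) * c (Q.src e) * PI_Burn_m g (Q.src e)) := by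
          rw [← h3])
  refine ⟨l, fun i => ?_⟩
  obtain ⟨n, hn⟩ := hl i
  refine ⟨n, ?_⟩
  have h1 : c i - l • (1 : Matrix (Fin (β i)) (Fin (β i)) L) =
      (g i : Matrix (Fin (β i)) (Fin (β i)) L) * (PI_Burn_n g i * c i * PI_Burn_m g i -
        l • (1 : Matrix (Fin (β i)) (Fin (β i)) L)) *
        (((g i)⁻¹ : (Matrix (Fin (β i)) (Fin (β i)) L)ˣ) :
          Matrix (Fin (β i)) (Fin (β i)) L) := by
    show c i - l • (1 : Matrix (Fin (β i)) (Fin (β i)) L) =
      PI_Burn_m g i * (PI_Burn_n g i * c i * PI_Burn_m g i -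
        l • (1 : Matrix (Fin (β i)) (Fin (β i)) L)) * PI_Burn_n g i
    rw [mul_sub, sub_mul, mul_smul_comm, mul_one, smul_mul_assoc, PI_Burn_mn]
    congr 1
    rw [← mul_assoc, ← mul_assoc, PI_Burn_mn, one_mul, mul_assoc, PI_Burn_mn, mul_one]
  rw [h1, Units.conj_pow, hn, mul_zero, zero_mul]

private def PI_Burn_S (Q : Quiv I E) (L : Type) [Field L] (β : I → ℕ) : Type :=
  {V : Rp Q L β // SN V}

private instance PI_Burn_inst : MulAction (PI_Burn_G L β) (PI_Burn_S Q L β) where
  smul g V := ⟨PI_Burn_act g V.1, PI_Burn_SN g V.1 V.2⟩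
  one_smul V := Subtype.ext (PI_Burn_one V.1)
  mul_smul g h V := Subtype.ext (PI_Burn_mul g h V.1)

private theorem PI_Burn_isom_iff (x y : Rp Q L β) :
    Isom x y ↔ ∃ g : PI_Burn_G L β, PI_Burn_act g x = y := by
  constructor
  · rintro ⟨g, hg⟩
    exact ⟨g, (PI_Burn_act_eq_iff g x y).2 hg⟩
  · rintro ⟨g, hg⟩
    exact ⟨g, (PI_Burn_act_eq_iff g x y).1 hg⟩

private theorem PI_Burn_isom_refl (x : Rp Q L β) : Isom x x :=
  (PI_Burn_isom_iff x x).2 ⟨1, PI_Burn_one x⟩

private theorem PI_Burn_isom_symm {x y : Rp Q L β} (h : Isom x y) : Isom y x := by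
  obtain ⟨g, rfl⟩ := (PI_Burn_isom_iff x y).1 h
  refine (PI_Burn_isom_iff _ _).2 ⟨g⁻¹, ?_⟩
  rw [← PI_Burn_mul, inv_mul_cancel, PI_Burn_one]

private theorem PI_Burn_isom_trans {x y z : Rp Q L β} (h : Isom x y) (h' : Isom y z) :
    Isom x z := by
  obtain ⟨g, rfl⟩ := (PI_Burn_isom_iff x y).1 h
  obtain ⟨g', rfl⟩ := (PI_Burn_isom_iff _ z).1 h'
  exact (PI_Burn_isom_iff _ _).2 ⟨g' * g, PI_Burn_mul _ _ _⟩

private theorem PI_Burn_rel (V W : PI_Burn_S Q L β) :
    MulAction.orbitRel (PI_Burn_G L β) (PI_Burn_S Q L β) V W ↔ Isom V.1 W.1 := by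
  rw [MulAction.orbitRel_apply, MulAction.mem_orbit_iff]
  constructor
  · rintro ⟨g, rfl⟩
    exact PI_Burn_isom_symm ((PI_Burn_isom_iff _ _).2 ⟨g, rfl⟩)
  · intro h
    obtain ⟨g, hg⟩ := (PI_Burn_isom_iff _ _).1 (PI_Burn_isom_symm h)
    exact ⟨g, Subtype.ext hg⟩

private theorem PI_Burn_classes [Fintype I] [DecidableEq I] [Fintype L] :
    Nat.card (Quotient (MulAction.orbitRel (PI_Burn_G L β) (PI_Burn_S Q L β))) =
      kacCount Q L β := by
  unfold kacCount
  rw [← Nat.card_coe_set_eq]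
  have hwd : ∀ V W : PI_Burn_S Q L β,
      MulAction.orbitRel (PI_Burn_G L β) (PI_Burn_S Q L β) V W →
      (⟨{y | Isom V.1 y}, V.1, absIndec_of_SN V.1 V.2, rfl⟩ : absIndecClasses Q L β) =
        ⟨{y | Isom W.1 y}, W.1, absIndec_of_SN W.1 W.2, rfl⟩ := by
    intro V W h
    rw [PI_Burn_rel] at h
    apply Subtype.ext
    ext y
    exact ⟨fun hy => PI_Burn_isom_trans (PI_Burn_isom_symm h) hy,
      fun hy => PI_Burn_isom_trans h hy⟩
  refine Nat.card_congr (Equiv.ofBijective (Quotient.lift (fun V : PI_Burn_S Q L β =>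
    (⟨{y | Isom V.1 y}, V.1, absIndec_of_SN V.1 V.2, rfl⟩ : absIndecClasses Q L β)) hwd) ⟨?_, ?_⟩)
  · intro a b hab
    induction a using Quotient.inductionOn with
    | _ V =>
      induction b using Quotient.inductionOn with
      | _ W =>
        apply Quotient.sound
        show MulAction.orbitRel (PI_Burn_G L β) (PI_Burn_S Q L β) V W
        rw [PI_Burn_rel]
        have h1 : {y | Isom V.1 y} = {y | Isom W.1 y} := congrArg Subtype.val hab
        have h2 : W.1 ∈ {y | Isom V.1 y} := by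
          rw [h1]
          exact PI_Burn_isom_refl W.1
        exact h2
  · rintro ⟨c, x, hx, rfl⟩
    exact ⟨Quotient.mk _ ⟨x, SN_of_absIndec x hx⟩, rfl⟩

private theorem PI_Burn_mor_scal (V : Rp Q L β) (l : L) :
    IsMor V V (fun i => l • (1 : Matrix (Fin (β i)) (Fin (β i)) L)) := by
  intro e
  simp only [Matrix.smul_mul, Matrix.mul_smul, Matrix.one_mul, Matrix.mul_one]

private theorem PI_Burn_mor_add {V : Rp Q L β}
    {f f' : (i : I) → Matrix (Fin (β i)) (Fin (β i)) L} (h : IsMor V V f) (h' : IsMor V V f') :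
    IsMor V V (fun i => f i + f' i) := by
  intro e
  simp only [Matrix.add_mul, Matrix.mul_add, h e, h' e]

private theorem PI_Burn_mor_sub {V : Rp Q L β}
    {f f' : (i : I) → Matrix (Fin (β i)) (Fin (β i)) L} (h : IsMor V V f) (h' : IsMor V V f') :
    IsMor V V (fun i => f i - f' i) := by
  intro e
  simp only [Matrix.sub_mul, Matrix.mul_sub, h e, h' e]

/-- The automorphism `l + s`. -/
private theorem PI_Burn_unit {i : I} (l : Lˣ) (s : Matrix (Fin (β i)) (Fin (β i)) L)
    (hs : IsNilpotent s) : IsUnit ((l : L) • (1 : Matrix (Fin (β i)) (Fin (β i)) L) + s) := by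
  apply IsNilpotent.isUnit_add_left_of_commute hs
  · have h1 : (l : L) • (1 : Matrix (Fin (β i)) (Fin (β i)) L) = algebraMap L _ (l : L) := by
      rw [Algebra.algebraMap_eq_smul_one]
    rw [h1]
    exact l.isUnit.map (algebraMap L (Matrix (Fin (β i)) (Fin (β i)) L))
  · exact (Commute.one_right s).smul_right (l : L)

private theorem PI_Burn_scal {n : ℕ} (hn : n ≠ 0) {l : L}
    (h : IsNilpotent (l • (1 : Matrix (Fin n) (Fin n) L))) : l = 0 := by
  obtain ⟨k, hk⟩ := h
  rw [_root_.smul_pow, one_pow] at hk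
  have : Nonempty (Fin n) := ⟨⟨0, Nat.pos_of_ne_zero hn⟩⟩
  have h1 : l ^ k = 0 := by
    have h2 := congrFun (congrFun hk ⟨0, Nat.pos_of_ne_zero hn⟩) ⟨0, Nat.pos_of_ne_zero hn⟩
    simpa using h2
  exact eq_zero_of_pow_eq_zero h1

private theorem PI_Burn_sum [Fintype I] [DecidableEq I] :
    Nat.card (SNPairs Q L β × Lˣ) =
      Nat.card (Σ g : PI_Burn_G L β, MulAction.fixedBy (PI_Burn_S Q L β) g) := by
  have hmor : ∀ (p : SNPairs Q L β) (l : Lˣ), IsMor p.1.1 p.1.1
      (fun i => (l : L) • (1 : Matrix (Fin (β i)) (Fin (β i)) L) + p.1.2 i) := by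
    intro p l
    exact PI_Burn_mor_add (PI_Burn_mor_scal p.1.1 (l : L)) p.2.2.1
  let u : SNPairs Q L β × Lˣ → PI_Burn_G L β := fun w i =>
    (PI_Burn_unit w.2 (w.1.1.2 i) (w.1.2.2.2 i)).unit
  have hu : ∀ w i, ((u w i : (Matrix (Fin (β i)) (Fin (β i)) L)ˣ) : Matrix _ _ L) =
      (w.2 : L) • (1 : Matrix (Fin (β i)) (Fin (β i)) L) + w.1.1.2 i := by
    intro w i
    rfl
  refine Nat.card_congr (Equiv.ofBijective (fun w => ⟨u w, ⟨⟨w.1.1.1, w.1.2.1⟩, ?_⟩⟩) ⟨?_, ?_⟩)
  · rw [MulAction.mem_fixedBy]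
    apply Subtype.ext
    exact (PI_Burn_act_eq_iff (u w) w.1.1.1 w.1.1.1).2 (hmor w.1 w.2)
  · rintro ⟨⟨⟨V, s⟩, hV, hs, hn⟩, l⟩ ⟨⟨⟨V', s'⟩, hV', hs', hn'⟩, l'⟩ hw
    have h0 := Sigma.mk.inj_iff.1 hw
    have h1 := h0.1
    have h2 : V = V' := by
      have h3 : ∀ (g g' : PI_Burn_G L β) (a : MulAction.fixedBy (PI_Burn_S Q L β) g)
          (b : MulAction.fixedBy (PI_Burn_S Q L β) g'), g = g' → HEq a b → a.1 = b.1 := by
        rintro g g' a b rfl hab
        rw [eq_of_heq hab]
      exact congrArg Subtype.val (h3 _ _ _ _ h0.1 h0.2)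
    subst h2
    have h4 : ∀ i, (l : L) • (1 : Matrix (Fin (β i)) (Fin (β i)) L) + s i =
        (l' : L) • (1 : Matrix (Fin (β i)) (Fin (β i)) L) + s' i := by
      intro i
      exact congrArg Units.val (congrFun h1 i)
    obtain ⟨i, hi⟩ : ∃ i, β i ≠ 0 := by
      by_contra hcon
      push Not at hcon
      exact hV.1 (funext hcon)
    have h5 : (l' : L) - (l : L) = 0 := by
      apply PI_Burn_scal hi
      have h6 : ((l' : L) - (l : L)) • (1 : Matrix (Fin (β i)) (Fin (β i)) L) = s i - s' i := by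
        have h7 := h4 i
        rw [sub_smul, sub_eq_sub_iff_add_eq_add, ← h7, add_comm]
      rw [h6]
      have h8 : s' i = s i - ((l' : L) - (l : L)) • (1 : Matrix (Fin (β i)) (Fin (β i)) L) := by
        rw [h6, sub_sub_cancel]
      have h9 : Commute (s i) (s' i) := by
        rw [h8]
        exact (Commute.refl (s i)).sub_right ((Commute.one_right (s i)).smul_right _)
      exact h9.isNilpotent_sub (hn i) (hn' i)
    have h9 : l = l' := Units.ext (sub_eq_zero.1 h5).symm
    subst h9
    have h10 : s = s' := by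
      funext i
      exact add_left_cancel (h4 i)
    subst h10
    rfl
  · rintro ⟨g, ⟨V, hSN⟩, hV⟩
    have hV' : PI_Burn_act g V = V := congrArg Subtype.val hV
    have hm := (PI_Burn_act_eq_iff g V V).1 hV'
    obtain ⟨l, hl⟩ := hSN.2 _ hm
    obtain ⟨i, hi⟩ : ∃ i, β i ≠ 0 := by
      by_contra hcon
      push Not at hcon
      exact hSN.1 (funext hcon)
    have hl0 : l ≠ 0 := by
      rintro rfl
      have h1 := hl i
      rw [zero_smul, sub_zero] at h1
      have : Nonempty (Fin (β i)) := ⟨⟨0, Nat.pos_of_ne_zero hi⟩⟩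
      obtain ⟨k, hk⟩ := h1
      have h2 : IsUnit ((g i : Matrix (Fin (β i)) (Fin (β i)) L) ^ k) := (g i).isUnit.pow k
      rw [hk] at h2
      exact not_isUnit_zero h2
    have hd : IsMor V V (fun i => (g i : Matrix (Fin (β i)) (Fin (β i)) L) - l • 1) :=
      PI_Burn_mor_sub hm (PI_Burn_mor_scal V l)
    refine ⟨(⟨(V, fun i => (g i : Matrix (Fin (β i)) (Fin (β i)) L) - l • 1), hSN, hd, hl⟩,
      Units.mk0 l hl0), ?_⟩
    · have h1 : u (⟨(V, fun i => (g i : Matrix (Fin (β i)) (Fin (β i)) L) - l • 1), hSN, hd, hl⟩,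
          Units.mk0 l hl0) = g := by
        funext i
        apply Units.ext
        rw [hu]
        show l • (1 : Matrix (Fin (β i)) (Fin (β i)) L) +
          ((g i : Matrix (Fin (β i)) (Fin (β i)) L) - l • 1) = g i
        rw [add_sub_cancel]
      have h3 : ∀ (g g' : PI_Burn_G L β) (a : MulAction.fixedBy (PI_Burn_S Q L β) g)
          (b : MulAction.fixedBy (PI_Burn_S Q L β) g'), g = g' → a.1 = b.1 →
          (⟨g, a⟩ : Σ g : PI_Burn_G L β, MulAction.fixedBy (PI_Burn_S Q L β) g) = ⟨g', b⟩ := by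
        rintro g g' a b rfl hab
        rw [Subtype.ext hab]
      exact h3 _ _ _ _ h1 rfl

end

theorem card_SNPairs {I E : Type} [Fintype I] [DecidableEq I] [Fintype E] (Q : Quiv I E)
    (L : Type) [Field L] [Fintype L] (β : I → ℕ) :
    Nat.card (SNPairs Q L β) * (Fintype.card L - 1) =
      kacCount Q L β * ∏ i, Nat.card (Matrix (Fin (β i)) (Fin (β i)) L)ˣ := by
  have h1 : Nat.card (SNPairs Q L β × Lˣ) = Nat.card (SNPairs Q L β) * (Fintype.card L - 1) := by
    rw [Nat.card_prod, Nat.card_units, Nat.card_eq_fintype_card (α := L)]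
  have h2 : Nat.card (Quotient (MulAction.orbitRel (PI_Burn_G L β) (PI_Burn_S Q L β)) ×
      PI_Burn_G L β) =
      kacCount Q L β * ∏ i, Nat.card (Matrix (Fin (β i)) (Fin (β i)) L)ˣ := by
    rw [Nat.card_prod, PI_Burn_classes, Nat.card_pi]
  rw [← h1, ← h2, PI_Burn_sum]
  exact Nat.card_congr (MulAction.sigmaFixedByEquivOrbitsProdGroup (PI_Burn_G L β)
    (PI_Burn_S Q L β))

end Pool.Agent.H27.KAC

end

section

/-!
Project KAC, part I.1, module PI_Nil: number of the nilpotent matrices over a finite field (Fine-Herstein).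

PROOF.  Count the pairs `(T, v)`, `T` a nilpotent endomorphism of `K^n`, `v` a vector: the vectors `v, T v, ...` are
linearly independent until they vanish.  So the pairs are the triples `(k, s, T)`, `s` a linearly independent family of
length `k` with `T (s i) = s (i+1)`, `T (s (k-1)) = 0`; for given `s` there are `q^(k (n-k)) N_(n-k)` such `T`.
-/

set_option autoImplicit false

namespace Pool.Agent.H27.KAC

open scoped BigOperators
open Polynomial

section

variable {K V : Type} [Field K] [AddCommGroup V] [Module K V]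

/-- the vectors `T^i v` are linearly independent until they vanish -/
theorem Nil_LI {k : ℕ} (T : Module.End K V) (v : V) (hk : (T ^ k) v = 0)
    (hk' : k = 0 ∨ (T ^ (k - 1)) v ≠ 0) :
    LinearIndependent K (fun i : Fin k => (T ^ (i : ℕ)) v) := by
  rw [Fintype.linearIndependent_iff]
  intro g hg
  have key : ∀ m : ℕ, ∀ hm : m < k, g ⟨m, hm⟩ = 0 := by
    intro m
    induction m using Nat.strong_induction_on with
    | _ m ih =>
      intro hm
      have h1 := congrArg (fun w => (T ^ (k - 1 - m)) w) hg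
      simp only [map_sum, map_smul, map_zero] at h1
      rw [Finset.sum_eq_single (⟨m, hm⟩ : Fin k)] at h1
      · rw [← Module.End.mul_apply, ← pow_add] at h1
        have h2 : k - 1 - m + m = k - 1 := by omega
        rw [h2] at h1
        rcases hk' with h3 | h3
        · omega
        · exact (smul_eq_zero.mp h1).resolve_right h3
      · intro j _ hj
        rcases lt_trichotomy (j : ℕ) m with h | h | h
        · have := ih j h j.2
          rw [show g j = g ⟨(j : ℕ), j.2⟩ from rfl, this, zero_smul]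
        · exact absurd (Fin.ext h) hj
        · rw [← Module.End.mul_apply, ← pow_add]
          have h2 : k - 1 - m + (j : ℕ) = (j - 1 - m) + k := by omega
          rw [h2, pow_add, Module.End.mul_apply, hk, map_zero, smul_zero]
      · intro h
        exact absurd (Finset.mem_univ _) h
  intro i
  exact key i i.2

/-- `T` is nilpotent and shifts the family `s` -/
def NilC {k : ℕ} (s : Fin k → V) (T : Module.End K V) : Prop :=
  IsNilpotent T ∧ ∀ i : Fin k, T (s i) = if h : (i : ℕ) + 1 < k then s ⟨i + 1, h⟩ else 0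

theorem NilC_pow {k : ℕ} {s : Fin k → V} {T : Module.End K V} (h : NilC s T) (hk : 0 < k) :
    ∀ i : ℕ, (T ^ i) (s ⟨0, hk⟩) = if h : i < k then s ⟨i, h⟩ else 0 := by
  intro i
  induction i with
  | zero => simp [hk]
  | succ i ih =>
    rw [pow_succ', Module.End.mul_apply, ih]
    by_cases h1 : i < k
    · rw [dif_pos h1, h.2]
    · rw [dif_neg h1, map_zero, dif_neg (by omega)]

end

section

variable {K : Type} [Field K]

/-- the shift on `K^k` -/
noncomputable def NilJ (K : Type) [Field K] (k : ℕ) : (Fin k → K) →ₗ[K] (Fin k → K) :=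
  (Pi.basisFun K (Fin k)).constr K
    (fun i => if h : (i : ℕ) + 1 < k then Pi.single ⟨i + 1, h⟩ 1 else 0)

theorem NilJ_single (k : ℕ) (i : Fin k) :
    NilJ K k (Pi.single i 1) = if h : (i : ℕ) + 1 < k then Pi.single ⟨i + 1, h⟩ 1 else 0 := by
  have := (Pi.basisFun K (Fin k)).constr_basis K
    (fun i => if h : (i : ℕ) + 1 < k then (Pi.single ⟨i + 1, h⟩ 1 : Fin k → K) else 0) i
  rw [Pi.basisFun_apply] at this
  exact this

theorem NilJ_pow_single (k : ℕ) (j : ℕ) (i : Fin k) :
    (NilJ K k ^ j) (Pi.single i 1) =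
      if h : (i : ℕ) + j < k then Pi.single ⟨i + j, h⟩ 1 else 0 := by
  induction j with
  | zero => simp
  | succ j ih =>
    rw [pow_succ', Module.End.mul_apply, ih]
    by_cases h1 : (i : ℕ) + j < k
    · rw [dif_pos h1, NilJ_single]
      simp only [add_assoc]
    · rw [dif_neg h1, map_zero, dif_neg (by omega)]

theorem NilJ_pow (k : ℕ) : NilJ K k ^ k = 0 := by
  apply (Pi.basisFun K (Fin k)).ext
  intro i
  rw [Pi.basisFun_apply, NilJ_pow_single, dif_neg (by omega), LinearMap.zero_apply]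

/-- block endomorphism -/
noncomputable def NilM {k m : ℕ} (B : (Fin m → K) →ₗ[K] (Fin k → K))
    (D : (Fin m → K) →ₗ[K] (Fin m → K)) :
    Module.End K ((Fin k → K) × (Fin m → K)) :=
  LinearMap.prod (NilJ K k ∘ₗ LinearMap.fst K _ _ + B ∘ₗ LinearMap.snd K _ _)
    (D ∘ₗ LinearMap.snd K _ _)

theorem NilM_apply {k m : ℕ} (B : (Fin m → K) →ₗ[K] (Fin k → K))
    (D : (Fin m → K) →ₗ[K] (Fin m → K)) (w : (Fin k → K) × (Fin m → K)) :
    NilM B D w = (NilJ K k w.1 + B w.2, D w.2) := rfl

theorem NilM_pow_snd {k m : ℕ} (B : (Fin m → K) →ₗ[K] (Fin k → K))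
    (D : Module.End K (Fin m → K)) (j : ℕ) (w : (Fin k → K) × (Fin m → K)) :
    ((NilM B D ^ j) w).2 = (D ^ j) w.2 := by
  induction j with
  | zero => simp
  | succ j ih => rw [pow_succ', Module.End.mul_apply, NilM_apply, ih, pow_succ',
      Module.End.mul_apply]

theorem NilM_pow_zero {k m : ℕ} (B : (Fin m → K) →ₗ[K] (Fin k → K))
    (D : Module.End K (Fin m → K)) (j : ℕ) (w : Fin k → K) :
    (NilM B D ^ j) (w, 0) = ((NilJ K k ^ j) w, 0) := by
  induction j with
  | zero => simp
  | succ j ih =>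
    rw [pow_succ', Module.End.mul_apply, ih, NilM_apply, pow_succ', Module.End.mul_apply]
    simp

theorem NilM_nilpotent {k m : ℕ} (B : (Fin m → K) →ₗ[K] (Fin k → K))
    (D : Module.End K (Fin m → K)) : IsNilpotent (NilM B D) ↔ IsNilpotent D := by
  constructor
  · rintro ⟨j, hj⟩
    refine ⟨j, LinearMap.ext fun x => ?_⟩
    have := NilM_pow_snd B D j (0, x)
    rw [hj] at this
    simpa using this.symm
  · rintro ⟨j, hj⟩
    refine ⟨k + j, LinearMap.ext fun w => ?_⟩
    rw [pow_add, Module.End.mul_apply]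
    have h1 : ((NilM B D ^ j) w).2 = 0 := by
      rw [NilM_pow_snd, hj]
      rfl
    have h2 : (NilM B D ^ j) w = (((NilM B D ^ j) w).1, 0) := Prod.ext rfl h1
    rw [h2, NilM_pow_zero, NilJ_pow]
    rfl

/-- the standard family -/
def Nils (K : Type) [Field K] (k m : ℕ) (i : Fin k) : (Fin k → K) × (Fin m → K) :=
  (Pi.single i 1, 0)

theorem NilC_std_iff {k m : ℕ} (M : Module.End K ((Fin k → K) × (Fin m → K))) :
    (∀ i : Fin k, M (Nils K k m i) =
      if h : (i : ℕ) + 1 < k then Nils K k m ⟨i + 1, h⟩ else 0) ↔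
    ∀ w : Fin k → K, M (w, 0) = (NilJ K k w, 0) := by
  constructor
  · intro h
    have h2 : M ∘ₗ LinearMap.inl K _ _ = LinearMap.inl K _ _ ∘ₗ NilJ K k := by
      apply (Pi.basisFun K (Fin k)).ext
      intro i
      rw [Pi.basisFun_apply]
      simp only [LinearMap.comp_apply, LinearMap.inl_apply]
      rw [NilJ_single]
      have h3 := h i
      unfold Nils at h3
      rw [h3]
      split_ifs <;> rfl
    intro w
    have := LinearMap.congr_fun h2 w
    simpa using this
  · intro h i
    unfold Nils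
    rw [h, NilJ_single]
    split_ifs <;> rfl

/-- the endomorphisms of the standard space -/
noncomputable def NilEquiv (k m : ℕ) :
    {M : Module.End K ((Fin k → K) × (Fin m → K)) // NilC (Nils K k m) M} ≃
      ((Fin m → K) →ₗ[K] (Fin k → K)) × {D : Module.End K (Fin m → K) // IsNilpotent D} where
  toFun M := (LinearMap.fst K _ _ ∘ₗ M.1 ∘ₗ LinearMap.inr K _ _,
    ⟨LinearMap.snd K _ _ ∘ₗ M.1 ∘ₗ LinearMap.inr K _ _, by
      have h := M.2
      have h2 := (NilC_std_iff M.1).mp h.2
      have h3 : M.1 = NilM (LinearMap.fst K _ _ ∘ₗ M.1 ∘ₗ LinearMap.inr K _ _)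
          (LinearMap.snd K _ _ ∘ₗ M.1 ∘ₗ LinearMap.inr K _ _) := by
        apply LinearMap.ext
        rintro ⟨w, x⟩
        rw [NilM_apply]
        have h4 : ((w, x) : (Fin k → K) × (Fin m → K)) = (w, 0) + (0, x) := by simp
        rw [h4, map_add, h2]
        refine Prod.ext ?_ ?_ <;> simp
      have h5 := h.1
      rw [h3, NilM_nilpotent] at h5
      exact h5⟩)
  invFun p := ⟨NilM p.1 p.2.1, by
    refine ⟨(NilM_nilpotent _ _).mpr p.2.2, ?_⟩
    rw [NilC_std_iff]
    intro w
    rw [NilM_apply]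
    simp⟩
  left_inv M := by
    apply Subtype.ext
    apply LinearMap.ext
    rintro ⟨w, x⟩
    simp only [NilM_apply]
    have h2 := (NilC_std_iff M.1).mp M.2.2
    have h4 : ((w, x) : (Fin k → K) × (Fin m → K)) = (w, 0) + (0, x) := by simp
    rw [h4, map_add, h2]
    refine Prod.ext ?_ ?_ <;> simp
  right_inv p := by
    obtain ⟨B, D, hD⟩ := p
    refine Prod.ext ?_ (Subtype.ext ?_)
    · apply LinearMap.ext
      intro x
      simp [NilM_apply]
    · apply LinearMap.ext
      intro x
      simp [NilM_apply]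

theorem Nil_std_equiv {n k : ℕ} (hk : k ≤ n) (s : Fin k → (Fin n → K))
    (hs : LinearIndependent K s) :
    ∃ e : (Fin n → K) ≃ₗ[K] ((Fin k → K) × (Fin (n - k) → K)), ∀ i, e (s i) = Nils K k _ i := by
  obtain ⟨X, hX⟩ := Submodule.exists_isCompl (Submodule.span K (Set.range s))
  let b : Module.Basis (Fin k) K (Submodule.span K (Set.range s)) := Module.Basis.span hs
  have hW : Module.finrank K (Submodule.span K (Set.range s)) = k := by
    rw [finrank_span_eq_card hs, Fintype.card_fin]
  have hXr : Module.finrank K X = n - k := by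
    have := Submodule.finrank_add_eq_of_isCompl hX
    rw [hW, Module.finrank_fin_fun] at this
    omega
  let c : Module.Basis (Fin (n - k)) K X := Module.finBasisOfFinrankEq K X hXr
  refine ⟨(Submodule.prodEquivOfIsCompl _ X hX).symm.trans (b.equivFun.prodCongr c.equivFun), ?_⟩
  intro i
  have hb : (b i : Fin n → K) = s i := by
    simp [b, Module.Basis.span_apply]
  have h1 : (Submodule.prodEquivOfIsCompl _ X hX).symm (s i) = (b i, 0) := by
    rw [← hb]
    exact Submodule.prodEquivOfIsCompl_symm_apply_left _ _ hX (b i)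
  rw [LinearEquiv.trans_apply, h1]
  unfold Nils
  simp only [LinearEquiv.prodCongr_apply, map_zero]
  congr 1
  funext j
  rw [Module.Basis.equivFun_self]
  simp [Pi.single_apply, eq_comm]

/-- the number of the nilpotent endomorphisms of `K^m` -/
noncomputable def NilN (K : Type) [Field K] (m : ℕ) : ℕ :=
  Nat.card {D : Module.End K (Fin m → K) // IsNilpotent D}

theorem NilC_card [Fintype K] {n k : ℕ} (hk : k ≤ n) (s : Fin k → (Fin n → K))
    (hs : LinearIndependent K s) :
    Nat.card {T : Module.End K (Fin n → K) // NilC s T} =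
      Fintype.card K ^ (k * (n - k)) * NilN K (n - k) := by
  obtain ⟨e, he⟩ := Nil_std_equiv hk s hs
  have h1 : Nat.card {T : Module.End K (Fin n → K) // NilC s T} =
      Nat.card {M : Module.End K ((Fin k → K) × (Fin (n - k) → K)) // NilC (Nils K k _) M} := by
    apply Nat.card_congr
    refine Equiv.subtypeEquiv (e.conjAlgEquiv K).toEquiv ?_
    intro T
    unfold NilC
    have hnil : IsNilpotent ((e.conjAlgEquiv K) T) ↔ IsNilpotent T := by
      constructor
      · intro h
        have := h.map (e.conjAlgEquiv K).symm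
        simpa using this
      · intro h
        exact h.map (e.conjAlgEquiv K)
    have happ : ∀ i, ((e.conjAlgEquiv K) T) (Nils K k _ i) = e (T (s i)) := by
      intro i
      rw [LinearEquiv.conjAlgEquiv_apply, ← he i]
      simp
    constructor
    · rintro ⟨h2, h3⟩
      refine ⟨hnil.mpr h2, fun i => ?_⟩
      have := happ i
      rw [h3 i] at this
      refine this.trans ?_
      split_ifs with h4
      · exact he _
      · exact map_zero e
    · rintro ⟨h2, h3⟩
      refine ⟨hnil.mp h2, fun i => ?_⟩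
      apply e.injective
      rw [← happ i]
      refine (h3 i).trans ?_
      split_ifs with h4
      · exact (he _).symm
      · exact (map_zero e).symm
  rw [h1, Nat.card_congr (NilEquiv k (n - k)), Nat.card_prod]
  congr 1
  rw [Module.natCard_eq_pow_finrank (K := K), Nat.card_eq_fintype_card, Module.finrank_linearMap,
    Module.finrank_fin_fun, Module.finrank_fin_fun, mul_comm]

/-- the triples `(k, s, T)` -/
theorem Nil_pairs [Fintype K] (n : ℕ) :
    Nat.card ((k : Fin (n + 1)) × (s : {s : Fin k → (Fin n → K) // LinearIndependent K s}) ×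
      {T : Module.End K (Fin n → K) // NilC s.1 T}) =
    Nat.card ({T : Module.End K (Fin n → K) // IsNilpotent T} × (Fin n → K)) := by
  apply Nat.card_eq_of_bijective (fun p => ((⟨p.2.2.1, p.2.2.2.1⟩ :
    {T : Module.End K (Fin n → K) // IsNilpotent T}),
    if h : 0 < (p.1 : ℕ) then p.2.1.1 ⟨0, h⟩ else 0))
  constructor
  · rintro ⟨k, ⟨s, hs⟩, ⟨T, hT⟩⟩ ⟨k', ⟨s', hs'⟩, ⟨T', hT'⟩⟩ h
    simp only [Prod.mk.injEq, Subtype.mk.injEq] at h
    obtain ⟨h1, h2⟩ := h
    subst h1
    have hle : ∀ (a b : Fin (n + 1)) (sa : Fin a → (Fin n → K)) (sb : Fin b → (Fin n → K))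
        (_ : LinearIndependent K sa) (_ : LinearIndependent K sb) (_ : NilC sa T)
        (_ : NilC sb T) (_ : (if h : 0 < (a : ℕ) then sa ⟨0, h⟩ else 0) =
          (if h : 0 < (b : ℕ) then sb ⟨0, h⟩ else 0)), (a : ℕ) ≤ b := by
      intro a b sa sb ha hb hTa hTb hab
      by_contra hlt
      push Not at hlt
      have ha0 : 0 < (a : ℕ) := by omega
      rw [dif_pos ha0] at hab
      have e1 := NilC_pow hTa ha0 b
      rw [dif_pos hlt] at e1
      have hne := ha.ne_zero ⟨b, hlt⟩
      apply hne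
      rw [← e1, hab]
      by_cases hb0 : 0 < (b : ℕ)
      · rw [dif_pos hb0, NilC_pow hTb hb0 b, dif_neg (lt_irrefl _)]
      · rw [dif_neg hb0, map_zero]
    have hkk : k = k' := Fin.ext (le_antisymm (hle k k' s s' hs hs' hT hT' h2)
      (hle k' k s' s hs' hs hT' hT h2.symm))
    subst hkk
    have hss : s = s' := by
      funext i
      have hk0 : 0 < (k : ℕ) := by
        have := i.2
        omega
      rw [dif_pos hk0, dif_pos hk0] at h2
      have e1 : (T ^ (i : ℕ)) (s ⟨0, hk0⟩) = s i := by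
        have := NilC_pow hT hk0 i
        rw [dif_pos i.2] at this
        exact this
      have e2 : (T ^ (i : ℕ)) (s' ⟨0, hk0⟩) = s' i := by
        have := NilC_pow hT' hk0 i
        rw [dif_pos i.2] at this
        exact this
      rw [← e1, ← e2, h2]
    subst hss
    rfl
  · rintro ⟨⟨T, hT⟩, v⟩
    classical
    obtain ⟨N, hN⟩ := hT
    have hex : ∃ k, (T ^ k) v = 0 := ⟨N, by rw [hN]; rfl⟩
    set k := Nat.find hex with hkdef
    have hk : (T ^ k) v = 0 := Nat.find_spec hex
    have hk' : k = 0 ∨ (T ^ (k - 1)) v ≠ 0 := by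
      rcases Nat.eq_zero_or_pos k with h | h
      · exact Or.inl h
      · exact Or.inr (Nat.find_min hex (by omega))
    have hli := Nil_LI T v hk hk'
    have hkn : k ≤ n := by
      have := hli.fintype_card_le_finrank
      simpa using this
    have hC : NilC (fun i : Fin k => (T ^ (i : ℕ)) v) T := by
      refine ⟨⟨N, hN⟩, fun i => ?_⟩
      rw [← Module.End.mul_apply, ← pow_succ']
      split_ifs with h
      · rfl
      · have : (i : ℕ) + 1 = k := by
          have := i.2
          omega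
        rw [this, hk]
    refine ⟨⟨⟨k, by omega⟩, ⟨fun i => (T ^ (i : ℕ)) v, hli⟩, ⟨T, hC⟩⟩, ?_⟩
    simp only [Prod.mk.injEq, true_and]
    split_ifs with h
    · simp
    · have h0 : k = 0 := by omega
      rw [h0] at hk
      simpa using hk.symm

theorem Nil_rec [Fintype K] (n : ℕ) :
    NilN K n * Fintype.card K ^ n = ∑ k : Fin (n + 1),
      (∏ i : Fin k, (Fintype.card K ^ n - Fintype.card K ^ (i : ℕ))) *
        (Fintype.card K ^ ((k : ℕ) * (n - k)) * NilN K (n - k)) := by
  have h := Nil_pairs (K := K) n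
  haveI : Finite (Module.End K (Fin n → K)) := Module.finite_of_finite K
  rw [Nat.card_prod, Nat.card_sigma] at h
  have hc : Nat.card (Fin n → K) = Fintype.card K ^ n := by
    rw [Nat.card_eq_fintype_card, Fintype.card_fun, Fintype.card_fin]
  rw [hc] at h
  unfold NilN
  rw [← h]
  refine Finset.sum_congr rfl fun k _ => ?_
  classical
  let _ : Fintype {s : Fin k → (Fin n → K) // LinearIndependent K s} := Fintype.ofFinite _
  rw [Nat.card_sigma]
  have hk : (k : ℕ) ≤ n := by
    have := k.2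
    omega
  rw [Finset.sum_congr rfl (fun s _ => NilC_card hk s.1 s.2), Finset.sum_const, smul_eq_mul,
    Finset.card_univ, ← Nat.card_eq_fintype_card, card_linearIndependent (by simpa using hk),
    Module.finrank_fin_fun]
  rfl

/-- the telescoping identity -/
theorem Nil_tele (q n : ℕ) (hq : 1 ≤ q) : ∀ m : ℕ, m ≤ n →
    q ^ (n * n) = (∑ k ∈ Finset.range m, (∏ i ∈ Finset.range k, (q ^ n - q ^ i)) *
      q ^ ((n - k) * (n - 1))) + (∏ i ∈ Finset.range m, (q ^ n - q ^ i)) * q ^ ((n - m) * n) := by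
  intro m
  induction m with
  | zero => simp
  | succ m ih =>
    intro hm
    rw [ih (by omega), Finset.sum_range_succ, Finset.prod_range_succ, add_assoc]
    congr 1
    have h1 : q ^ m ≤ q ^ n := Nat.pow_le_pow_right hq (by omega)
    obtain ⟨d, hd⟩ : ∃ d, n = m + 1 + d := ⟨n - (m + 1), by omega⟩
    have e1 : (n - m) * n = d * n + n := by
      rw [show n - m = d + 1 by omega]
      ring
    have e2 : (n - m) * (n - 1) = d * n + m := by
      rw [show n - m = d + 1 by omega, show n - 1 = m + d by omega, hd]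
      ring
    have e3 : (n - (m + 1)) * n = d * n := by
      rw [show n - (m + 1) = d by omega]
    rw [e1, e2, e3, pow_add, pow_add]
    have h2 : q ^ n = (q ^ n - q ^ m) + q ^ m := by omega
    calc (∏ i ∈ Finset.range m, (q ^ n - q ^ i)) * (q ^ (d * n) * q ^ n) =
        (∏ i ∈ Finset.range m, (q ^ n - q ^ i)) * (q ^ (d * n) * ((q ^ n - q ^ m) + q ^ m)) := by
          rw [← h2]
      _ = _ := by ring

theorem NilN_eq [Fintype K] (n : ℕ) : NilN K n = Fintype.card K ^ (n ^ 2 - n) := by
  have hq : 2 ≤ Fintype.card K := Fintype.one_lt_card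
  induction n using Nat.strong_induction_on with
  | _ n ih =>
    rcases Nat.eq_zero_or_pos n with h0 | h0
    · subst h0
      unfold NilN
      have : Nonempty (Unique {D : Module.End K (Fin 0 → K) // IsNilpotent D}) := by
        refine ⟨⟨⟨⟨0, IsNilpotent.zero⟩⟩, fun D => ?_⟩⟩
        apply Subtype.ext
        apply LinearMap.ext
        intro x
        exact Subsingleton.elim _ _
      obtain ⟨hu⟩ := this
      simp [Nat.card_unique]
    · have hrec := Nil_rec (K := K) n
      have htel := Nil_tele (Fintype.card K) n (by omega) n le_rfl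
      set q := Fintype.card K with hqdef
      have hterm : ∀ k : ℕ, 1 ≤ k → k ≤ n → (q ^ (k * (n - k)) * NilN K (n - k)) =
          q ^ ((n - k) * (n - 1)) := by
        intro k hk1 hkn
        rw [ih (n - k) (by omega), ← pow_add]
        congr 1
        obtain ⟨d, hd⟩ : ∃ d, n = k + d := ⟨n - k, by omega⟩
        have e1 : n - k = d := by omega
        rw [e1]
        rcases Nat.eq_zero_or_pos d with h | h
        · subst h
          simp
        · have e2 : d ^ 2 - d = d * (d - 1) := by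
            rw [Nat.mul_sub, mul_one, pow_two]
          rw [e2, mul_comm k d, ← mul_add]
          congr 1
          omega
      have hsum : ∑ k : Fin (n + 1), (∏ i : Fin k, (q ^ n - q ^ (i : ℕ))) *
          (q ^ ((k : ℕ) * (n - k)) * NilN K (n - k)) =
          ∑ k ∈ Finset.range (n + 1), (∏ i ∈ Finset.range k, (q ^ n - q ^ i)) *
          (q ^ (k * (n - k)) * NilN K (n - k)) := by
        rw [Finset.sum_range]
        refine Finset.sum_congr rfl fun k _ => ?_
        rw [Finset.prod_range]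
      rw [hsum, Finset.sum_range_succ'] at hrec
      have h1 : ∑ k ∈ Finset.range n, (∏ i ∈ Finset.range (k + 1), (q ^ n - q ^ i)) *
          (q ^ ((k + 1) * (n - (k + 1))) * NilN K (n - (k + 1))) =
          ∑ k ∈ Finset.range n, (∏ i ∈ Finset.range (k + 1), (q ^ n - q ^ i)) *
          q ^ ((n - (k + 1)) * (n - 1)) := by
        refine Finset.sum_congr rfl fun k hk => ?_
        rw [Finset.mem_range] at hk
        rw [hterm (k + 1) (by omega) (by omega)]
      rw [h1] at hrec
      have h2 : q ^ (n * n) = ∑ k ∈ Finset.range (n + 1), (∏ i ∈ Finset.range k,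
          (q ^ n - q ^ i)) * q ^ ((n - k) * (n - 1)) := by
        rw [Finset.sum_range_succ, htel]
        simp
      rw [Finset.sum_range_succ'] at h2
      simp only [Finset.range_zero, Finset.prod_empty, one_mul, zero_mul, pow_zero,
        Nat.sub_zero] at hrec h2
      have h3 : n * n = n * (n - 1) + n := by
        obtain ⟨d, rfl⟩ : ∃ d, n = d + 1 := ⟨n - 1, by omega⟩
        simp
        ring
      have h4 : n ^ 2 - n = n * (n - 1) := by
        rw [pow_two, h3]
        simp
      rw [h4]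
      rw [h3, pow_add] at h2
      have h5 : NilN K n * q ^ n + q ^ (n * (n - 1)) =
          q ^ (n * (n - 1)) * q ^ n + NilN K n := by
        omega
      have h6 : 2 ≤ q ^ n := le_trans hq (Nat.le_self_pow (by omega) q)
      zify at h5 h6 ⊢
      have h7 : ((NilN K n : ℤ) - (q : ℤ) ^ (n * (n - 1))) * ((q : ℤ) ^ n - 1) = 0 := by
        linarith
      rcases mul_eq_zero.mp h7 with h8 | h8
      · linarith
      · exfalso
        linarith

theorem card_nilpotent (K : Type) [Field K] [Fintype K] (m : ℕ) :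
    Nat.card {T : Matrix (Fin m) (Fin m) K // IsNilpotent T} = Fintype.card K ^ (m ^ 2 - m) := by
  rw [← NilN_eq]
  unfold NilN
  apply Nat.card_congr
  refine Equiv.subtypeEquiv (Matrix.toLinAlgEquiv' (R := K) (n := Fin m)).toEquiv ?_
  intro T
  constructor
  · intro h
    exact h.map (Matrix.toLinAlgEquiv' (R := K) (n := Fin m))
  · intro h
    have := h.map (Matrix.toLinAlgEquiv' (R := K) (n := Fin m)).symm
    simpa using this

end

end Pool.Agent.H27.KAC

end

section

/-!
Project KAC, part I.1, module PI_Cnt: number of the pairs `(v, T)` with `LocD`.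

PROOF SKETCH.  `r = finrank F K`, `Q = card K`.  `LocD` means `v π(v) = 0`, `rank v = n`, `T` nilpotent, `T v = v T`.
By `pi_exists_fac` the set of the `v` is the disjoint union over `π' ∈ s` of
`{v : v π'(v) = 0, rank v = n}` (disjoint: two different monic irreducible polynomials are coprime, so `v = 0`;
conversely `π' ∣ π` gives `v π(v) = 0`).  For each `π'` let `L'` be the field `K[X]/(π')` (degree `n`, `Q^n` elements):
`card_sol` over `K` with `b = 1`, `c = m - n`: the number of `v` times `(Q^n - 1) * card GL_(m-n)(K)` is `card GL_m(K)`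
(`card (Matrix (Fin 1) (Fin 1) L')ˣ = Q^n - 1`).  For each `v` the number of `T` is the number of nilpotent matrices of
size `m - n` over `K` (`card_nil_centralizer`; a nilpotent `1 × 1` matrix is zero).
-/

set_option autoImplicit false

namespace Pool.Agent.H27.KAC

open scoped BigOperators
open Polynomial

/-- the field `K[X]/(π')` -/
private theorem Cnt_field {K : Type} [Field K] [Fintype K] {π' : K[X]} {n : ℕ}
    (hπ' : GoodPi K π' n) : ∃ (L : Type) (_ : Field L) (_ : Fintype L) (_ : Algebra K L) (θ : L),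
      aeval θ π' = 0 ∧ Module.finrank K L = n ∧ Fintype.card L = Fintype.card K ^ n := by
  have : Fact (Irreducible π') := ⟨hπ'.irr⟩
  have hfin : Module.finrank K (AdjoinRoot π') = n := by
    rw [(AdjoinRoot.powerBasis' hπ'.monic).finrank, AdjoinRoot.powerBasis'_dim, hπ'.deg]
  have : Module.Finite K (AdjoinRoot π') := (AdjoinRoot.powerBasis' hπ'.monic).finite
  have : Finite (AdjoinRoot π') := Module.finite_of_finite K
  refine ⟨AdjoinRoot π', inferInstance, Fintype.ofFinite _, inferInstance, AdjoinRoot.root π',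
    ?_, hfin, ?_⟩
  · rw [AdjoinRoot.aeval_eq, AdjoinRoot.mk_self]
  · let : Fintype (AdjoinRoot π') := Fintype.ofFinite _
    have := Module.card_eq_pow_finrank (K := K) (V := AdjoinRoot π')
    rw [hfin] at this
    exact this

private theorem Cnt_units {L : Type} [Field L] [Fintype L] :
    Nat.card (Matrix (Fin 1) (Fin 1) L)ˣ = Fintype.card L - 1 := by
  rw [Nat.card_congr (Units.mapEquiv (Matrix.uniqueRingEquiv (m := Fin 1) (A := L)).toMulEquiv).toEquiv,
    Nat.card_units, Nat.card_eq_fintype_card]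

private theorem Cnt_nil1 {L : Type} [Field L] :
    Nat.card {T : Matrix (Fin 1) (Fin 1) L // IsNilpotent T} = 1 := by
  have h : ∀ T : Matrix (Fin 1) (Fin 1) L, IsNilpotent T → T = 0 := by
    intro T hT
    have h1 : IsNilpotent ((Matrix.uniqueRingEquiv (m := Fin 1) (A := L)).toRingHom T) := hT.map _
    have h2 := h1.eq_zero
    exact (RingEquiv.map_eq_zero_iff (Matrix.uniqueRingEquiv (m := Fin 1) (A := L))).1 h2
  have : Unique {T : Matrix (Fin 1) (Fin 1) L // IsNilpotent T} :=
    ⟨⟨⟨0, IsNilpotent.zero⟩⟩, fun T => Subtype.ext (h T.1 T.2)⟩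
  exact Nat.card_unique

private theorem Cnt_fib {K : Type} [Field K] [Fintype K] {π' : K[X]} {n : ℕ}
    (hπ' : GoodPi K π' n) {m : ℕ} (hn : 1 ≤ n) (v : Matrix (Fin m) (Fin m) K)
    (hv : v * aeval v π' = 0) (hr : v.rank = n) :
    Nat.card {T : Matrix (Fin m) (Fin m) K // IsNilpotent T ∧ T * v = v * T} =
      Nat.card {T : Matrix (Fin (m - n)) (Fin (m - n)) K // IsNilpotent T} := by
  obtain ⟨L, iL, iF, iA, θ, hθ, hL, _⟩ := Cnt_field hπ'
  obtain ⟨b, c, ⟨C⟩⟩ := exists_chart hπ' θ hθ hL v hv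
  obtain ⟨_, h1, h2⟩ := chart_rank hπ' θ hθ hL C
  have hb : b = 1 := by
    rw [hr] at h2
    have : n * 1 = n * b := by rw [mul_one]; exact h2
    exact (Nat.eq_of_mul_eq_mul_left (by omega) this).symm
  subst hb
  have hc : c = m - n := by omega
  subst hc
  rw [card_nil_centralizer hπ' hθ hL C, Cnt_nil1, one_mul]

private theorem Cnt_sol {K : Type} [Field K] [Fintype K] {π' : K[X]} {n : ℕ}
    (hπ' : GoodPi K π' n) {m : ℕ} (hnm : n ≤ m) :
    Nat.card {v : Matrix (Fin m) (Fin m) K // v * aeval v π' = 0 ∧ v.rank = n} *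
      ((Fintype.card K ^ n - 1) * Nat.card (Matrix (Fin (m - n)) (Fin (m - n)) K)ˣ) =
      Nat.card (Matrix (Fin m) (Fin m) K)ˣ := by
  obtain ⟨L, iL, iF, iA, θ, hθ, hL, hc⟩ := Cnt_field hπ'
  have h := card_sol hπ' θ hθ hL m 1 (m - n) (by omega)
  rw [Cnt_units, hc, mul_one] at h
  exact h

private theorem Cnt_disj {K : Type} [Field K] {π₁ π₂ : K[X]} {n : ℕ}
    (h₁ : GoodPi K π₁ n) (h₂ : GoodPi K π₂ n) (hne : π₁ ≠ π₂) {m : ℕ}
    (v : Matrix (Fin m) (Fin m) K) (hv₁ : v * aeval v π₁ = 0) (hv₂ : v * aeval v π₂ = 0) :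
    v = 0 := by
  have hcop : IsCoprime π₁ π₂ := by
    rw [h₁.irr.coprime_iff_not_dvd]
    intro hd
    exact hne (eq_of_monic_of_associated h₁.monic h₂.monic
      ((h₁.irr.dvd_irreducible_iff_associated h₂.irr).1 hd))
  obtain ⟨f, g, hfg⟩ := hcop
  have h3 : v * aeval v (f * π₁ + g * π₂) = v := by
    rw [hfg, map_one, mul_one]
  rw [mul_comm f, mul_comm g, map_add, map_mul, map_mul, mul_add, ← mul_assoc, ← mul_assoc, hv₁,
    hv₂, zero_mul, zero_mul, add_zero] at h3
  exact h3.symm

theorem card_locD {F : Type} [Field F] [Fintype F] {K : Type} [Field K] [Fintype K]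
    [Algebra F K] {π : F[X]} {N : ℕ} (hπ : GoodPi F π N) (m n : ℕ) (hn : 1 ≤ n) (hnm : n ≤ m)
    (hN : N = Module.finrank F K * n) :
    Nat.card {w : Matrix (Fin m) (Fin m) K × Matrix (Fin m) (Fin m) K // LocD F K π N w.1 w.2} *
        (Fintype.card K ^ n - 1) * Nat.card (Matrix (Fin (m - n)) (Fin (m - n)) K)ˣ =
      Module.finrank F K * Nat.card (Matrix (Fin m) (Fin m) K)ˣ *
        Nat.card {T : Matrix (Fin (m - n)) (Fin (m - n)) K // IsNilpotent T} := by
  classical
  obtain ⟨s, hs, hs1, hs2⟩ := pi_exists_fac hπ n hn hN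
  set r := Module.finrank F K with hr
  have hr0 : 0 < r := by
    have : 1 ≤ N := by
      by_contra hc
      have h0 : π.natDegree = 0 := by rw [hπ.deg]; omega
      exact (hπ.irr.natDegree_pos).ne' h0
    rcases Nat.eq_zero_or_pos r with h | h
    · rw [h, zero_mul] at hN
      omega
    · exact h
  -- the set of the v
  have hv : ∀ v : Matrix (Fin m) (Fin m) K, (v * aeval v π = 0 ∧ r * v.rank = N) ↔
      ∃ π' ∈ s, v * aeval v π' = 0 ∧ v.rank = n := by
    intro v
    constructor
    · rintro ⟨h1, h2⟩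
      have h3 : v.rank = n := Nat.eq_of_mul_eq_mul_left hr0 (by rw [h2, hN])
      obtain ⟨π', h4, h5⟩ := hs2 m v h1 h3
      exact ⟨π', h4, h5, h3⟩
    · rintro ⟨π', h4, h5, h3⟩
      refine ⟨?_, by rw [h3, hN]⟩
      obtain ⟨g, hg⟩ := (hs1 π' h4).2
      rw [← aeval_map_algebraMap K v π, hg, map_mul, ← mul_assoc, h5, zero_mul]
  -- number of the v
  have hcardv : Nat.card {v : Matrix (Fin m) (Fin m) K // v * aeval v π = 0 ∧ r * v.rank = N} =
      ∑ π' ∈ s, Nat.card {v : Matrix (Fin m) (Fin m) K // v * aeval v π' = 0 ∧ v.rank = n} := by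
    have h1 : (Finset.univ.filter (fun v : Matrix (Fin m) (Fin m) K =>
        v * aeval v π = 0 ∧ r * v.rank = N)) =
        s.biUnion (fun π' => Finset.univ.filter (fun v : Matrix (Fin m) (Fin m) K =>
          v * aeval v π' = 0 ∧ v.rank = n)) := by
      ext v
      simp only [Finset.mem_filter, Finset.mem_univ, true_and, Finset.mem_biUnion]
      exact hv v
    rw [Nat.card_eq_fintype_card, Fintype.card_subtype, h1, Finset.card_biUnion]
    · refine Finset.sum_congr rfl fun π' _ => ?_
      rw [Nat.card_eq_fintype_card, Fintype.card_subtype]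
    · intro π₁ h₁ π₂ h₂ hne
      rw [Function.onFun, Finset.disjoint_left]
      intro v hv1 hv2
      rw [Finset.mem_filter] at hv1 hv2
      have h0 := Cnt_disj (hs1 π₁ h₁).1 (hs1 π₂ h₂).1 hne v hv1.2.1 hv2.2.1
      have h3 := hv1.2.2
      rw [h0, Matrix.rank_zero] at h3
      omega
  -- the pairs
  let e : {w : Matrix (Fin m) (Fin m) K × Matrix (Fin m) (Fin m) K // LocD F K π N w.1 w.2} ≃
      Σ v : {v : Matrix (Fin m) (Fin m) K // v * aeval v π = 0 ∧ r * v.rank = N},
        {T : Matrix (Fin m) (Fin m) K // IsNilpotent T ∧ T * v.1 = v.1 * T} :=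
    { toFun := fun w => ⟨⟨w.1.1, w.2.1.1, w.2.2⟩, ⟨w.1.2, w.2.1.2⟩⟩
      invFun := fun x => ⟨(x.1.1, x.2.1), ⟨⟨x.1.2.1, x.2.2⟩, x.1.2.2⟩⟩
      left_inv := fun w => rfl
      right_inv := fun x => rfl }
  have hcard : Nat.card {w : Matrix (Fin m) (Fin m) K × Matrix (Fin m) (Fin m) K //
      LocD F K π N w.1 w.2} =
      Nat.card {v : Matrix (Fin m) (Fin m) K // v * aeval v π = 0 ∧ r * v.rank = N} *
        Nat.card {T : Matrix (Fin (m - n)) (Fin (m - n)) K // IsNilpotent T} := by
    rw [Nat.card_congr e, Nat.card_sigma]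
    rw [Finset.sum_congr rfl (g := fun _ =>
      Nat.card {T : Matrix (Fin (m - n)) (Fin (m - n)) K // IsNilpotent T})]
    · rw [Finset.sum_const, smul_eq_mul, Finset.card_univ, ← Nat.card_eq_fintype_card]
    · intro v _
      obtain ⟨π', h4, h5, h3⟩ := (hv v.1).1 v.2
      exact Cnt_fib (hs1 π' h4).1 hn v.1 h5 h3
  rw [hcard, hcardv]
  have hfin : (∑ π' ∈ s, Nat.card {v : Matrix (Fin m) (Fin m) K //
      v * aeval v π' = 0 ∧ v.rank = n}) * ((Fintype.card K ^ n - 1) *
        Nat.card (Matrix (Fin (m - n)) (Fin (m - n)) K)ˣ) =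
      r * Nat.card (Matrix (Fin m) (Fin m) K)ˣ := by
    rw [Finset.sum_mul, Finset.sum_congr rfl (g := fun _ => Nat.card (Matrix (Fin m) (Fin m) K)ˣ)
      (fun π' h => Cnt_sol (hs1 π' h).1 hnm), Finset.sum_const, smul_eq_mul, hs]
  rw [← hfin]
  ring

end Pool.Agent.H27.KAC

end

section

/-!
Project KAC, part I.1, module PI_Sum: the local identity in a matrix algebra.

PROOF SKETCH.  `num_identity`: `h_m = Q^(m^2 - m) / ∏_(i < m) (Q^m - Q^i) = Q^(m(m-1)/2) / ∏_(k=1..m) (Q^k - 1)`, so
`(Q^m - 1) h_m = Q^(m-1) h_(m-1)`, that is `G(Q x) (1 - x) = G(x)` for `G = ∑ h_m x^m`.  Then `h = x G' / G` satisfies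
`h(Q x) - h(x) = x / (1 - x)`, so `h = ∑ x^n / (Q^n - 1)`.  In coefficients, by induction on `m`: put
`S_m = ∑_(n=1..m) h_(m-n) / (Q^n - 1)`; using `Q^m h_(m-n) / (Q^n-1) = Q^(m-n) h_(m-n) (1 + 1/(Q^n - 1))` and
`Q^j h_j = h_j + Q^(j-1) h_(j-1)` one gets a recursion of order one for `S_m`, the same as for `m h_m`.
`sum_card_locD`: the terms are zero unless `N = r n`, `1 ≤ n ≤ m` (`r * rank v = N`, `rank v ≤ m`); use `card_locD`,
`card_nilpotent`, `Matrix.card_GL_field` and `num_identity`.
-/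

set_option autoImplicit false

namespace Pool.Agent.H27.KAC

open scoped BigOperators
open Polynomial

private theorem Sum_rec (Q : ℕ) (hQ : 2 ≤ Q) (h : ℕ → ℚ)
    (hh : ∀ m, h m = (Q : ℚ) ^ (m ^ 2 - m) / ∏ i ∈ Finset.range m, ((Q : ℚ) ^ m - (Q : ℚ) ^ i))
    (m : ℕ) : ((Q : ℚ) ^ (m + 1) - 1) * h (m + 1) = (Q : ℚ) ^ m * h m := by
  have hQ1 : (1 : ℚ) < Q := by exact_mod_cast (show 1 < Q by omega)
  have hQ0 : (Q : ℚ) ≠ 0 := by positivity
  have hD : ∀ m : ℕ, ∏ i ∈ Finset.range m, ((Q : ℚ) ^ m - (Q : ℚ) ^ i) ≠ 0 := by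
    intro m
    refine Finset.prod_ne_zero_iff.mpr ?_
    intro i hi
    have hi' := Finset.mem_range.mp hi
    have := pow_lt_pow_right₀ hQ1 hi'
    linarith
  have h1 : ∏ i ∈ Finset.range (m + 1), ((Q : ℚ) ^ (m + 1) - (Q : ℚ) ^ i) =
      ((Q : ℚ) ^ (m + 1) - 1) * ((Q : ℚ) ^ m *
        ∏ i ∈ Finset.range m, ((Q : ℚ) ^ m - (Q : ℚ) ^ i)) := by
    rw [Finset.prod_range_succ', pow_zero, mul_comm]
    congr 1
    have h2 : (Q : ℚ) ^ m = ∏ _i ∈ Finset.range m, (Q : ℚ) := by
      rw [Finset.prod_const, Finset.card_range]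
    conv_rhs => rw [h2]
    rw [← Finset.prod_mul_distrib]
    refine Finset.prod_congr rfl ?_
    intro i _
    rw [← h2, pow_succ, pow_succ]
    ring
  have h3 : (m + 1) ^ 2 - (m + 1) = (m ^ 2 - m) + (m + m) := by
    have h4 : (m + 1) ^ 2 = m ^ 2 + 2 * m + 1 := by ring
    have h5 : m ≤ m ^ 2 := by nlinarith [Nat.zero_le m, sq_nonneg ((m : ℤ) - 1), Nat.le_self_pow (n := 2) (by norm_num) m]
    omega
  have h6 : (Q : ℚ) ^ (m + 1) - 1 ≠ 0 := by
    have h9 : 1 < (Q : ℚ) ^ (m + 1) := one_lt_pow₀ hQ1 (Nat.succ_ne_zero m)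
    linarith
  have h7 := hD m
  rw [hh (m + 1), hh m, h1, h3, pow_add ((Q : ℚ)) (m ^ 2 - m) (m + m), pow_add (Q : ℚ) m m]
  have h8 : (Q : ℚ) ^ m ≠ 0 := pow_ne_zero _ hQ0
  generalize (Q : ℚ) ^ (m + 1) - 1 = A at h6 ⊢
  generalize (Q : ℚ) ^ m = B at h8 h7 ⊢
  generalize ∏ i ∈ Finset.range m, (B - (Q : ℚ) ^ i) = D at h7 ⊢
  field_simp

private theorem Sum_main (Q : ℕ) (hQ : 2 ≤ Q) (h : ℕ → ℚ)
    (hr : ∀ m, ((Q : ℚ) ^ (m + 1) - 1) * h (m + 1) = (Q : ℚ) ^ m * h m) (m : ℕ) :
    (m : ℚ) * h m = ∑ j ∈ Finset.range m, h j / ((Q : ℚ) ^ (m - j) - 1) := by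
  have hQ1 : (1 : ℚ) < Q := by exact_mod_cast (show 1 < Q by omega)
  have hne : ∀ n : ℕ, n ≠ 0 → (Q : ℚ) ^ n - 1 ≠ 0 := by
    intro n hn
    have := one_lt_pow₀ hQ1 hn
    linarith
  induction m with
  | zero => simp
  | succ m ih =>
    -- R
    have hR : ∑ j ∈ Finset.range (m + 1), (Q : ℚ) ^ j * h j / ((Q : ℚ) ^ (m + 1 - j) - 1) =
        ∑ j ∈ Finset.range (m + 1), h j / ((Q : ℚ) ^ (m + 1 - j) - 1) +
          ∑ j ∈ Finset.range m, (Q : ℚ) ^ j * h j / ((Q : ℚ) ^ (m - j) - 1) := by
      rw [Finset.sum_range_succ' (fun j => (Q : ℚ) ^ j * h j / ((Q : ℚ) ^ (m + 1 - j) - 1)),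
        Finset.sum_range_succ' (fun j => h j / ((Q : ℚ) ^ (m + 1 - j) - 1))]
      rw [add_right_comm, ← Finset.sum_add_distrib]
      congr 1
      · refine Finset.sum_congr rfl ?_
        intro j _
        have e1 : m + 1 - (j + 1) = m - j := by omega
        rw [e1, ← add_div]
        congr 1
        have := hr j
        linarith
      · rw [pow_zero, one_mul]
    have hS : ∀ n : ℕ, (Q : ℚ) ^ n * ∑ j ∈ Finset.range n, h j / ((Q : ℚ) ^ (n - j) - 1) =
        ∑ j ∈ Finset.range n, (Q : ℚ) ^ j * h j +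
          ∑ j ∈ Finset.range n, (Q : ℚ) ^ j * h j / ((Q : ℚ) ^ (n - j) - 1) := by
      intro n
      rw [Finset.mul_sum, ← Finset.sum_add_distrib]
      refine Finset.sum_congr rfl ?_
      intro j hj
      have hj' := Finset.mem_range.mp hj
      have e1 : (Q : ℚ) ^ n = (Q : ℚ) ^ j * (Q : ℚ) ^ (n - j) := by
        rw [← pow_add]
        congr 1
        omega
      have e2 := hne (n - j) (by omega)
      rw [e1]
      field_simp
      ring
    have h1 := hS (m + 1)
    have h2 := hS m
    rw [hR] at h1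
    rw [Finset.sum_range_succ (fun j => (Q : ℚ) ^ j * h j)] at h1
    rw [← ih] at h2
    have h3 := hr m
    have h4 := hne (m + 1) (Nat.succ_ne_zero m)
    apply mul_left_cancel₀ h4
    push_cast
    have h5 : ((Q : ℚ) ^ (m + 1) - 1) *
        ∑ j ∈ Finset.range (m + 1), h j / ((Q : ℚ) ^ (m + 1 - j) - 1) =
        (Q : ℚ) ^ m * h m + (Q : ℚ) ^ m * (m * h m) := by
      linear_combination h1 - h2
    rw [h5]
    linear_combination ((m : ℚ) + 1) * h3

theorem num_identity (Q : ℕ) (hQ : 2 ≤ Q) (h : ℕ → ℚ)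
    (hh : ∀ m, h m = (Q : ℚ) ^ (m ^ 2 - m) / ∏ i ∈ Finset.range m, ((Q : ℚ) ^ m - (Q : ℚ) ^ i))
    (m : ℕ) : (m : ℚ) * h m = ∑ n ∈ Finset.Icc 1 m, h (m - n) / ((Q : ℚ) ^ n - 1) := by
  rw [Sum_main Q hQ h (Sum_rec Q hQ h hh) m]
  rw [← Finset.sum_range_reflect]
  have h1 : Finset.Icc 1 m = (Finset.range m).image (fun j => j + 1) := by
    ext n
    simp only [Finset.mem_Icc, Finset.mem_image, Finset.mem_range]
    constructor
    · rintro ⟨h1, h2⟩
      exact ⟨n - 1, by omega, by omega⟩
    · rintro ⟨j, hj, rfl⟩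
      omega
  rw [h1, Finset.sum_image (fun x _ y _ hxy => by simpa using hxy)]
  refine Finset.sum_congr rfl ?_
  intro j hj
  have hj' := Finset.mem_range.mp hj
  have e1 : m - (m - 1 - j) = j + 1 := by omega
  have e2 : m - 1 - j = m - (j + 1) := by omega
  rw [e1, e2]

private theorem Sum_card_GL (K : Type) [Field K] [Fintype K] (m : ℕ) :
    (Nat.card (Matrix (Fin m) (Fin m) K)ˣ : ℚ) =
      ∏ i ∈ Finset.range m, ((Fintype.card K : ℚ) ^ m - (Fintype.card K : ℚ) ^ i) := by
  classical
  have h1 : Nat.card (Matrix (Fin m) (Fin m) K)ˣ =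
      ∏ i : (Fin m), (Fintype.card K ^ m - Fintype.card K ^ (i : ℕ)) :=
    Matrix.card_GL_field (𝔽 := K) m
  rw [h1, Nat.cast_prod, ← Fin.prod_univ_eq_prod_range
    (fun i => ((Fintype.card K : ℚ) ^ m - (Fintype.card K : ℚ) ^ i)) m]
  refine Finset.prod_congr rfl ?_
  intro i _
  rw [Nat.cast_sub (Nat.pow_le_pow_right Fintype.card_pos i.2.le)]
  push_cast
  rfl

private theorem Sum_card_zero {F : Type} [Field F] [Fintype F] {K : Type} [Field K] [Fintype K]
    [Algebra F K] (π : F[X]) (N m : ℕ) (hN : 1 ≤ N)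
    (hN2 : ∀ n, 1 ≤ n → n ≤ m → N ≠ Module.finrank F K * n) :
    Nat.card {w : Matrix (Fin m) (Fin m) K × Matrix (Fin m) (Fin m) K //
        LocD F K π N w.1 w.2} = 0 := by
  have : IsEmpty {w : Matrix (Fin m) (Fin m) K × Matrix (Fin m) (Fin m) K //
        LocD F K π N w.1 w.2} := by
    refine ⟨fun w => ?_⟩
    have h1 := w.2.2
    refine hN2 (w.1.1).rank ?_ ?_ h1.symm
    · rcases Nat.eq_zero_or_pos (w.1.1).rank with h0 | h0
      · rw [h0, mul_zero] at h1
        omega
      · exact h0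
    · have := Matrix.rank_le_card_width (w.1.1)
      simpa using this
  exact Nat.card_of_isEmpty

theorem sum_card_locD {F : Type} [Field F] [Fintype F] {K : Type} [Field K] [Fintype K]
    [Algebra F K] (π : ℕ → F[X]) (hπ : ∀ N, 1 ≤ N → GoodPi F (π N) N) (m B : ℕ)
    (hB : Module.finrank F K * m ≤ B) :
    ∑ N ∈ Finset.Icc 1 B, Nat.card {w : Matrix (Fin m) (Fin m) K × Matrix (Fin m) (Fin m) K //
        LocD F K (π N) N w.1 w.2} =
      Module.finrank F K * m * Nat.card {T : Matrix (Fin m) (Fin m) K // IsNilpotent T} := by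
  classical
  have hfin : Module.Finite F K := Module.Finite.of_finite
  have hr : 1 ≤ Module.finrank F K := Module.finrank_pos
  have hinj : Set.InjOn (fun n => Module.finrank F K * n) (Finset.Icc 1 m : Finset ℕ) := by
    intro x _ y _ hxy
    exact Nat.eq_of_mul_eq_mul_left hr hxy
  have hsub : (Finset.Icc 1 m).image (fun n => Module.finrank F K * n) ⊆ Finset.Icc 1 B := by
    intro N hN
    obtain ⟨n, hn, rfl⟩ := Finset.mem_image.mp hN
    rw [Finset.mem_Icc] at hn ⊢
    refine ⟨Nat.one_le_iff_ne_zero.mpr (Nat.mul_ne_zero (by omega) (by omega)), ?_⟩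
    exact le_trans (Nat.mul_le_mul_left _ hn.2) hB
  rw [← Finset.sum_subset hsub, Finset.sum_image hinj]
  · -- cast to the rational numbers
    have hQ : 2 ≤ Fintype.card K := Fintype.one_lt_card
    have hQ1 : (1 : ℚ) < (Fintype.card K : ℚ) := by exact_mod_cast hQ
    have hGL : ∀ j : ℕ, (Nat.card (Matrix (Fin j) (Fin j) K)ˣ : ℚ) ≠ 0 := by
      intro j
      have : 0 < Nat.card (Matrix (Fin j) (Fin j) K)ˣ := Nat.card_pos
      exact_mod_cast this.ne'
    set h : ℕ → ℚ := fun j => (Fintype.card K : ℚ) ^ (j ^ 2 - j) /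
      ∏ i ∈ Finset.range j, ((Fintype.card K : ℚ) ^ j - (Fintype.card K : ℚ) ^ i) with hh
    have hh' : ∀ j, h j = (Nat.card {T : Matrix (Fin j) (Fin j) K // IsNilpotent T} : ℚ) /
        (Nat.card (Matrix (Fin j) (Fin j) K)ˣ : ℚ) := by
      intro j
      rw [hh, Sum_card_GL, card_nilpotent]
      push_cast
      rfl
    have hnum := num_identity (Fintype.card K) hQ h (fun _ => rfl) m
    have hterm : ∀ n ∈ Finset.Icc 1 m,
        ((Nat.card {w : Matrix (Fin m) (Fin m) K × Matrix (Fin m) (Fin m) K //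
          LocD F K (π (Module.finrank F K * n)) (Module.finrank F K * n) w.1 w.2} : ℕ) : ℚ) =
        (Module.finrank F K : ℚ) * (Nat.card (Matrix (Fin m) (Fin m) K)ˣ : ℚ) *
          (h (m - n) / ((Fintype.card K : ℚ) ^ n - 1)) := by
      intro n hn
      rw [Finset.mem_Icc] at hn
      have h1 := card_locD (K := K) (hπ (Module.finrank F K * n)
        (Nat.one_le_iff_ne_zero.mpr (Nat.mul_ne_zero (by omega) (by omega)))) m n hn.1 hn.2 rfl
      have h2 := congrArg (fun z : ℕ => (z : ℚ)) h1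
      simp only [Nat.cast_mul] at h2
      rw [Nat.cast_sub (Nat.one_le_pow _ _ (by omega))] at h2
      push_cast at h2
      have h3 : (Fintype.card K : ℚ) ^ n - 1 ≠ 0 := by
        have := one_lt_pow₀ hQ1 (show n ≠ 0 by omega)
        linarith
      have h4 := hGL (m - n)
      rw [hh']
      field_simp
      linear_combination h2
    have hgoal : ((∑ n ∈ Finset.Icc 1 m,
        Nat.card {w : Matrix (Fin m) (Fin m) K × Matrix (Fin m) (Fin m) K //
          LocD F K (π (Module.finrank F K * n)) (Module.finrank F K * n) w.1 w.2} : ℕ) : ℚ) =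
        ((Module.finrank F K * m *
          Nat.card {T : Matrix (Fin m) (Fin m) K // IsNilpotent T} : ℕ) : ℚ) := by
      rw [Nat.cast_sum, Finset.sum_congr rfl hterm, ← Finset.mul_sum, ← hnum, hh' m]
      push_cast
      have := hGL m
      field_simp
    exact_mod_cast hgoal
  · intro N hN hN2
    rw [Finset.mem_Icc] at hN
    refine Sum_card_zero (π N) N m hN.1 ?_
    intro n h1 h2 h3
    exact hN2 (Finset.mem_image.mpr ⟨n, Finset.mem_Icc.mpr ⟨h1, h2⟩, h3.symm⟩)

end Pool.Agent.H27.KAC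

end

section

/-!
Project KAC, part I.1, module PI_TripC: number of the triples with given ranks.

PROOF SKETCH.  The triples are the pairs (tuple `v` with `v k * aeval (v k) π = 0` and `rank (v k) = N * β k`,
compatible pair `(x, T)`).  For each `v` charts exist (`exists_chart`, `chart_rank`: the numbers `b, c` are `β k` and
`α k - N * β k` since `N ≥ 1`), so `card_comp` gives the number of the compatible pairs; the number of the tuples `v` is a
product of numbers given by `card_sol`.
-/

set_option autoImplicit false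

namespace Pool.Agent.H27.KAC

open scoped BigOperators
open Polynomial

private theorem TripC_pos {F : Type} [Field F] {π : F[X]} {N : ℕ} (hπ : GoodPi F π N) :
    1 ≤ N := by
  have h1 := hπ.irr.natDegree_pos
  rw [hπ.deg] at h1
  exact h1

/-- a sigma type over a finite type with fibres of the same cardinality -/
private theorem TripC_sigma {B : Type} [Finite B] {Fi : B → Type} (K : ℕ)
    (h : ∀ v, Nat.card (Fi v) = K) : Nat.card (Sigma Fi) = Nat.card B * K := by
  classical
  rcases Nat.eq_zero_or_pos K with hK | hK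
  · rw [hK, mul_zero, Nat.card_eq_zero]
    by_contra hc
    push Not at hc
    obtain ⟨⟨⟨v, w⟩⟩, hfin⟩ := hc
    have hfin' : Finite (Fi v) :=
      Finite.of_injective (fun w : Fi v => (⟨v, w⟩ : Sigma Fi)) sigma_mk_injective
    have hne : Nonempty (Fi v) := ⟨w⟩
    have h1 : 0 < Nat.card (Fi v) := Nat.card_pos
    rw [h v, hK] at h1
    exact absurd h1 (lt_irrefl 0)
  · have hfin : ∀ v, Finite (Fi v) := by
      intro v
      apply Nat.finite_of_card_ne_zero
      rw [h v]
      omega
    let _ : Fintype B := Fintype.ofFinite B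
    rw [Nat.card_sigma, Finset.sum_congr rfl (fun v _ => h v), Finset.sum_const,
      Finset.card_univ, smul_eq_mul, Nat.card_eq_fintype_card (α := B)]

theorem card_trip {I E : Type} [Fintype I] [DecidableEq I] {Q : Quiv I E} {F : Type} [Field F]
    [Fintype F] {π : F[X]} {N : ℕ} (hπ : GoodPi F π N) {L : Type} [Field L] [Fintype L]
    [Algebra F L] {θ : L} (hθ : aeval θ π = 0) (hL : Module.finrank F L = N) {α β : I → ℕ}
    (hβ : β ≠ 0) (hle : ∀ k, N * β k ≤ α k) :
    Nat.card {w : Trip Q F α π // ∀ k, (w.1.1 k).rank = N * β k} *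
        ((∏ k, Nat.card (Matrix (Fin (β k)) (Fin (β k)) L)ˣ) *
          ∏ k, Nat.card (Matrix (Fin (α k - N * β k)) (Fin (α k - N * β k)) F)ˣ) =
      (∏ k, Nat.card (Matrix (Fin (α k)) (Fin (α k)) F)ˣ) *
        (Nat.card (SNPairs Q L β) * Nat.card (NilPairs Q F (fun k => α k - N * β k))) := by
  classical
  have hN : 1 ≤ N := TripC_pos hπ
  -- the tuples `v`
  let B : Type := {v : (i : I) → Matrix (Fin (α i)) (Fin (α i)) F //
    ∀ k, v k * aeval (v k) π = 0 ∧ (v k).rank = N * β k}
  let Fi : B → Type := fun v =>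
    {w : Rp Q F α × ((i : I) → Matrix (Fin (α i)) (Fin (α i)) F) // Comp v.1 w.1 w.2}
  have eA : {w : Trip Q F α π // ∀ k, (w.1.1 k).rank = N * β k} ≃ Sigma Fi :=
    { toFun := fun w => ⟨⟨w.1.1.1, fun k => ⟨w.1.2.1 k, w.2 k⟩⟩, ⟨w.1.1.2, w.1.2.2⟩⟩
      invFun := fun u => ⟨⟨(u.1.1, u.2.1), ⟨fun k => (u.1.2 k).1, u.2.2⟩⟩, fun k => (u.1.2 k).2⟩
      left_inv := fun w => rfl
      right_inv := fun u => rfl }
  have hchart : ∀ v : B, ∀ k, Nonempty (Chart θ (v.1 k) (β k) (α k - N * β k)) := by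
    intro v k
    obtain ⟨b, c, ⟨C⟩⟩ := exists_chart hπ θ hθ hL (v.1 k) (v.2 k).1
    obtain ⟨_, h2, h3⟩ := chart_rank hπ θ hθ hL C
    have h4 : N * b = N * β k := h3.symm.trans (v.2 k).2
    have h5 : b = β k := Nat.eq_of_mul_eq_mul_left hN h4
    subst h5
    have h6 : c = α k - N * β k := by omega
    subst h6
    exact ⟨C⟩
  have hFi : ∀ v : B, Nat.card (Fi v) =
      Nat.card (SNPairs Q L β) * Nat.card (NilPairs Q F (fun k => α k - N * β k)) := by
    intro v
    exact card_comp hπ hθ hL v.1 (fun k => (hchart v k).some) hβ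
  have hfinF : Finite F := inferInstance
  have hfinB : Finite B := inferInstance
  have hA : Nat.card {w : Trip Q F α π // ∀ k, (w.1.1 k).rank = N * β k} =
      Nat.card B * (Nat.card (SNPairs Q L β) * Nat.card (NilPairs Q F (fun k => α k - N * β k))) := by
    rw [Nat.card_congr eA]
    exact TripC_sigma _ hFi
  have hB : Nat.card B = ∏ k, Nat.card {v : Matrix (Fin (α k)) (Fin (α k)) F //
      v * aeval v π = 0 ∧ v.rank = N * β k} := by
    rw [← Nat.card_pi]
    exact Nat.card_congr (Equiv.subtypePiEquivPi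
      (p := fun k (v : Matrix (Fin (α k)) (Fin (α k)) F) => v * aeval v π = 0 ∧ v.rank = N * β k))
  have hsol : ∀ k, Nat.card {v : Matrix (Fin (α k)) (Fin (α k)) F //
      v * aeval v π = 0 ∧ v.rank = N * β k} *
      (Nat.card (Matrix (Fin (β k)) (Fin (β k)) L)ˣ *
        Nat.card (Matrix (Fin (α k - N * β k)) (Fin (α k - N * β k)) F)ˣ) =
      Nat.card (Matrix (Fin (α k)) (Fin (α k)) F)ˣ := by
    intro k
    have hk := hle k
    exact card_sol hπ θ hθ hL (α k) (β k) (α k - N * β k) (by omega)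
  rw [hA, hB, ← Finset.prod_congr rfl (fun k _ => hsol k), Finset.prod_mul_distrib,
    Finset.prod_mul_distrib]
  ring

/-- the ranks of a solution are multiples of `N`. -/
theorem trip_rank {I E : Type} {Q : Quiv I E} {F : Type} [Field F] [Fintype F] {π : F[X]} {N : ℕ}
    (hπ : GoodPi F π N) {α : I → ℕ} (w : Trip Q F α π) (k : I) :
    ∃ b, (w.1.1 k).rank = N * b ∧ N * b ≤ α k := by
  obtain ⟨L, _, _, _, θ, hθ, hL, _⟩ := exists_ext F hπ
  obtain ⟨b, c, ⟨C⟩⟩ := exists_chart hπ θ hθ hL (w.1.1 k) (w.2.1 k)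
  obtain ⟨_, h2, h3⟩ := chart_rank hπ θ hθ hL C
  exact ⟨b, h3, by omega⟩

end Pool.Agent.H27.KAC

end

section

/-!
Project KAC, part I.1, module PI_LI: the local identity.

PROOF SKETCH.  `p : R → S = ∏ Mat_(m_j)(K_j)` from `exists_wed`; `d` from `exists_rank_weights`; `r_j = [K_j : F]`.
For `Dat F (π N) v T` one has `v^(q^N) = v` (`pow_eq_self_of_sol`), so `rank (ρ v) = ∑_j d_j rank (p v)_j`.  So by `dat_map` and
`fiber_card` the `N`-th term is `card (ker p) * ∑_((v', T') ∈ S × S, Dat) ∑_j d_j rank (v'_j) / N`.  The pairs with `v' = 0` give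
zero; for the others `aic_pi_iff` gives exactly one `j` with `v'_j ≠ 0`, `r_j rank (v'_j) = N`, the other components are
`(0, T'_k)`, `T'_k` nilpotent.  So the `N`-th term is `card (ker p) * ∑_j d_j / r_j * card {LocD_j (π N) N} * ∏_(k ≠ j) n_k`,
`n_k` = number of nilpotent matrices in `Mat_(m_k)(K_k)`.  Sum over `N` with `sum_card_locD` (`r_j m_j ≤ finrank F R ≤ B`):
`card (ker p) * ∑_j d_j m_j * ∏_k n_k`.  Finally `∑ d_j m_j = rank (ρ 1) = a` (`v = 1` in `exists_rank_weights`) and
`card Nil R = card (ker p) * ∏_k n_k` (the kernel is nil).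
-/

set_option autoImplicit false

namespace Pool.Agent.H27.KAC

open scoped BigOperators
open Polynomial

/-- Sum over the fibres of a map with fibres of the same size. -/
theorem LI_fib {A B : Type} [Finite A] [Finite B] (f : A → B) (g : B → ℚ) (c : ℕ)
    (hc : ∀ b, Nat.card {a // f a = b} = c) : ∑ᶠ a, g (f a) = c * ∑ᶠ b, g b := by
  classical
  let _ : Fintype A := Fintype.ofFinite A
  let _ : Fintype B := Fintype.ofFinite B
  rw [finsum_eq_sum_of_fintype, finsum_eq_sum_of_fintype, ← Finset.sum_fiberwise Finset.univ f,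
    Finset.mul_sum]
  refine Finset.sum_congr rfl fun b _ => ?_
  rw [← hc b, Nat.card_eq_fintype_card, Fintype.card_subtype]
  rw [Finset.sum_congr rfl (g := fun _ => g b) (fun a ha => by
    rw [(Finset.mem_filter.1 ha).2]), Finset.sum_const, nsmul_eq_mul]

theorem LI_card_fib {A B : Type} [Finite A] [Finite B] (f : A → B) (c : ℕ)
    (hc : ∀ b, Nat.card {a // f a = b} = c) : Nat.card A = c * Nat.card B := by
  have h := LI_fib f (fun _ => 1) c hc
  have h1 : ∀ (X : Type) [Finite X], ∑ᶠ _ : X, (1 : ℚ) = Nat.card X := by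
    intro X _
    let _ : Fintype X := Fintype.ofFinite X
    rw [finsum_eq_sum_of_fintype, Finset.sum_const, nsmul_eq_mul, mul_one,
      Nat.card_eq_fintype_card]
    rfl
  rw [h1, h1] at h
  exact_mod_cast h

section

variable {F : Type} [Field F] [Fintype F] {n : ℕ} {m : Fin n → ℕ} {K : Fin n → Type}
  [∀ j, Field (K j)] [∀ j, Fintype (K j)] [∀ j, Algebra F (K j)]

/-- The products of nilpotent elements. -/
theorem LI_pi_nilpotent (T : ∀ j, Matrix (Fin (m j)) (Fin (m j)) (K j)) :
    IsNilpotent T ↔ ∀ j, IsNilpotent (T j) := by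
  constructor
  · rintro ⟨k, hk⟩ j
    exact ⟨k, congrFun hk j⟩
  · intro h
    choose k hk using h
    refine ⟨∑ j, k j, ?_⟩
    funext j
    show T j ^ (∑ j, k j) = 0
    have h1 : k j ≤ ∑ j, k j :=
      Finset.single_le_sum (fun _ _ => Nat.zero_le _) (Finset.mem_univ j)
    obtain ⟨r, hr⟩ := Nat.exists_eq_add_of_le h1
    rw [hr, pow_add, hk, zero_mul]

/-- The number of the pairs with nonzero component `j`. -/
theorem LI_card_X {π : F[X]} {N : ℕ} (hN : 1 ≤ N) (hπ : GoodPi F π N) (j : Fin n) :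
    Nat.card {w : (∀ j, Matrix (Fin (m j)) (Fin (m j)) (K j)) ×
        (∀ j, Matrix (Fin (m j)) (Fin (m j)) (K j)) // Dat F π w.1 w.2 ∧ w.1 j ≠ 0} =
      Nat.card {w : Matrix (Fin (m j)) (Fin (m j)) (K j) × Matrix (Fin (m j)) (Fin (m j)) (K j) //
        LocD F (K j) π N w.1 w.2} *
      Nat.card (∀ k : {k : Fin n // k ≠ j},
        {T : Matrix (Fin (m k)) (Fin (m k)) (K k) // IsNilpotent T}) := by
  classical
  rw [← Nat.card_prod]
  have hcomp : ∀ (v : ∀ j, Matrix (Fin (m j)) (Fin (m j)) (K j)) (k : Fin n),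
      (v * aeval v π) k = v k * aeval (v k) π := by
    intro v k
    show v k * (aeval v π) k = _
    congr 1
    exact (Polynomial.aeval_algHom_apply (Pi.evalAlgHom F
      (fun j => Matrix (Fin (m j)) (Fin (m j)) (K j)) k) v π).symm
  have hfact : ∀ w : {w : (∀ j, Matrix (Fin (m j)) (Fin (m j)) (K j)) ×
        (∀ j, Matrix (Fin (m j)) (Fin (m j)) (K j)) // Dat F π w.1 w.2 ∧ w.1 j ≠ 0},
      (∀ k, k ≠ j → w.1.1 k = 0) ∧ Module.finrank F (K j) * (w.1.1 j).rank = N := by
    rintro ⟨⟨v, T⟩, ⟨⟨hv, hT, hc⟩, hai⟩, hj⟩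
    have hv0 : v ≠ 0 := fun h => hj (congrFun h j)
    obtain ⟨j', h1, h2⟩ := (aic_pi_iff hπ v hv hv0).1 hai
    have hjj : j' = j := by
      by_contra hne
      exact hj (h1 j (Ne.symm hne))
    subst hjj
    exact ⟨h1, h2⟩
  apply Nat.card_congr
  refine Equiv.ofBijective (fun w => (⟨(w.1.1 j, w.1.2 j), ⟨⟨?_, ?_, ?_⟩, (hfact w).2⟩⟩,
    fun k => ⟨w.1.2 k, ?_⟩)) ⟨?_, ?_⟩
  · rw [← hcomp, w.2.1.1.1]
    rfl
  · exact (LI_pi_nilpotent _).1 w.2.1.1.2.1 j
  · exact congrFun w.2.1.1.2.2 j
  · exact (LI_pi_nilpotent _).1 w.2.1.1.2.1 k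
  · rintro w w' h
    have h1 := congrArg (fun x => x.1.1) h
    have h2 := congrArg (fun x => x.2) h
    have h3 : w.1.1 j = w'.1.1 j := congrArg Prod.fst h1
    have h4 : w.1.2 j = w'.1.2 j := congrArg Prod.snd h1
    apply Subtype.ext
    apply Prod.ext
    · funext k
      by_cases hk : k = j
      · subst hk
        exact h3
      · rw [(hfact w).1 k hk, (hfact w').1 k hk]
    · funext k
      by_cases hk : k = j
      · subst hk
        exact h4
      · exact congrArg Subtype.val (congrFun h2 ⟨k, hk⟩)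
  · rintro ⟨⟨⟨v, T⟩, ⟨hv, hT, hc⟩, hr⟩, Tk⟩
    let v' : ∀ k, Matrix (Fin (m k)) (Fin (m k)) (K k) := Function.update 0 j v
    let T0 : ∀ k, Matrix (Fin (m k)) (Fin (m k)) (K k) :=
      fun k => if h : k ≠ j then (Tk ⟨k, h⟩).1 else 0
    let T' : ∀ k, Matrix (Fin (m k)) (Fin (m k)) (K k) := Function.update T0 j T
    have hv'j : v' j = v := Function.update_self _ _ _
    have hT'j : T' j = T := Function.update_self _ _ _
    have hv'k : ∀ k, k ≠ j → v' k = 0 := fun k hk => Function.update_of_ne hk _ _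
    have hT'k : ∀ k (hk : k ≠ j), T' k = (Tk ⟨k, hk⟩).1 := by
      intro k hk
      have h1 : T' k = T0 k := Function.update_of_ne hk _ _
      rw [h1]
      exact dif_pos hk
    have hvne : v ≠ 0 := by
      intro h0
      have h1 : v.rank = 0 := by
        rw [h0]
        exact Matrix.rank_zero
      have hr' : Module.finrank F (K j) * v.rank = N := hr
      rw [h1, mul_zero] at hr'
      omega
    have hv'ne : v' j ≠ 0 := by
      rw [hv'j]
      exact hvne
    have e1 : v' * aeval v' π = 0 := by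
      funext k
      rw [hcomp]
      by_cases hk : k = j
      · subst hk
        rw [hv'j]
        exact hv
      · rw [hv'k k hk, zero_mul]
        rfl
    have e2 : IsNilpotent T' := by
      rw [LI_pi_nilpotent]
      intro k
      by_cases hk : k = j
      · subst hk
        rw [hT'j]
        exact hT
      · rw [hT'k k hk]
        exact (Tk ⟨k, hk⟩).2
    have e3 : T' * v' = v' * T' := by
      funext k
      show T' k * v' k = v' k * T' k
      by_cases hk : k = j
      · subst hk
        rw [hT'j, hv'j]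
        exact hc
      · rw [hv'k k hk, zero_mul, mul_zero]
    have e4 : AIc F v' := by
      rw [aic_pi_iff hπ v' e1 (fun h => hv'ne (congrFun h j))]
      refine ⟨j, hv'k, ?_⟩
      rw [hv'j]
      exact hr
    refine ⟨⟨(v', T'), ⟨⟨e1, e2, e3⟩, e4⟩, hv'ne⟩, ?_⟩
    apply Prod.ext
    · apply Subtype.ext
      exact Prod.ext hv'j hT'j
    · funext k
      apply Subtype.ext
      exact hT'k k.1 k.2

end

theorem local_identity {F : Type} [Field F] [Fintype F] {R : Type} [Ring R] [Algebra F R]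
    [Finite R] {a : ℕ} (ρ : R →ₐ[F] Matrix (Fin a) (Fin a) F) (π : ℕ → F[X])
    (hπ : ∀ N, 1 ≤ N → GoodPi F (π N) N) (B : ℕ) (hB : Module.finrank F R ≤ B) :
    (a : ℚ) * Nat.card {T : R // IsNilpotent T} =
      ∑ N ∈ Finset.Icc 1 B, ∑ᶠ w : {w : R × R // Dat F (π N) w.1 w.2},
        ((ρ w.1.1).rank : ℚ) / N := by
  classical
  obtain ⟨n, m, K, fK, ftK, aK, p, hm, hp, hk⟩ := exists_wed F R
  obtain ⟨d, hd⟩ := exists_rank_weights p hp hk a ρ
  have hfinS : Finite (∀ j, Matrix (Fin (m j)) (Fin (m j)) (K j)) := inferInstance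
  set κ := Nat.card {x : R // p x = 0} with hκ
  let nn : Fin n → ℕ := fun j => Nat.card {T : Matrix (Fin (m j)) (Fin (m j)) (K j) //
    IsNilpotent T}
  have hr0 : ∀ j, (Module.finrank F (K j) : ℚ) ≠ 0 := by
    intro j
    have h1 : 0 < Module.finrank F (K j) := Module.finrank_pos
    exact_mod_cast h1.ne'
  have hprod : ∀ j, Nat.card (∀ k : {k : Fin n // k ≠ j},
        {T : Matrix (Fin (m k)) (Fin (m k)) (K k) // IsNilpotent T}) * nn j = ∏ k, nn k := by
    intro j
    rw [Nat.card_pi, ← Finset.prod_erase_mul _ _ (Finset.mem_univ j)]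
    congr 1
    symm
    apply Finset.prod_subtype (Finset.univ.erase j) (fun k => by simp) nn
  -- (5)
  have h5 : Nat.card {T : R // IsNilpotent T} = κ * ∏ k, nn k := by
    have hfib : ∀ b : {T : ∀ j, Matrix (Fin (m j)) (Fin (m j)) (K j) // IsNilpotent T},
        Nat.card {x : {T : R // IsNilpotent T} //
          (⟨p x.1, x.2.map p⟩ : {T : ∀ j, Matrix (Fin (m j)) (Fin (m j)) (K j) //
            IsNilpotent T}) = b} = κ := by
      rintro ⟨b, hb⟩
      obtain ⟨x0, hx0⟩ := hp b
      apply Nat.card_congr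
      refine
        { toFun := fun x => ⟨x.1.1 - x0, by
            have e1 : p x.1.1 = b := congrArg Subtype.val x.2
            rw [map_sub, hx0, e1, sub_self]⟩
          invFun := fun y => ⟨⟨x0 + y.1, ?_⟩, ?_⟩
          left_inv := ?_
          right_inv := ?_ }
      · have h1 : p (x0 + y.1) = b := by rw [map_add, hx0, y.2, add_zero]
        obtain ⟨k, hk'⟩ := hb
        have h2 : p ((x0 + y.1) ^ k) = 0 := by rw [map_pow, h1, hk']
        obtain ⟨l, hl⟩ := hk _ h2
        exact ⟨k * l, by rw [pow_mul, hl]⟩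
      · apply Subtype.ext
        show p (x0 + y.1) = b
        rw [map_add, hx0, y.2, add_zero]
      · intro x
        apply Subtype.ext
        apply Subtype.ext
        show x0 + (x.1.1 - x0) = x.1.1
        abel
      · intro y
        apply Subtype.ext
        show x0 + y.1 - x0 = y.1
        abel
    rw [LI_card_fib (fun x : {T : R // IsNilpotent T} =>
      (⟨p x.1, x.2.map p⟩ : {T : ∀ j, Matrix (Fin (m j)) (Fin (m j)) (K j) // IsNilpotent T}))
      κ hfib]
    congr 1
    rw [← Nat.card_pi]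
    apply Nat.card_congr
    exact
      { toFun := fun T j => ⟨T.1 j, (LI_pi_nilpotent T.1).1 T.2 j⟩
        invFun := fun T => ⟨fun j => (T j).1, (LI_pi_nilpotent _).2 fun j => (T j).2⟩
        left_inv := fun _ => rfl
        right_inv := fun _ => rfl }
  -- (4)
  have h4 : (a : ℚ) = ∑ j, (d j : ℚ) * m j := by
    have h1 := hd 1 ⟨1, le_rfl, one_pow _⟩
    rw [map_one, Matrix.rank_one, Fintype.card_fin] at h1
    rw [h1]
    push_cast
    refine Finset.sum_congr rfl fun j _ => ?_
    congr 2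
    rw [map_one]
    show (1 : Matrix (Fin (m j)) (Fin (m j)) (K j)).rank = m j
    rw [Matrix.rank_one, Fintype.card_fin]
  -- (1) + (2)
  have h12 : ∀ N ∈ Finset.Icc 1 B, ∑ᶠ w : {w : R × R // Dat F (π N) w.1 w.2},
      ((ρ w.1.1).rank : ℚ) / N = κ * ∑ j, (d j : ℚ) / (Module.finrank F (K j)) *
        ((Nat.card {w : Matrix (Fin (m j)) (Fin (m j)) (K j) ×
          Matrix (Fin (m j)) (Fin (m j)) (K j) // LocD F (K j) (π N) N w.1 w.2} : ℚ) *
        (Nat.card (∀ k : {k : Fin n // k ≠ j},
          {T : Matrix (Fin (m k)) (Fin (m k)) (K k) // IsNilpotent T}) : ℚ)) := by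
    intro N hN
    have hN1 : 1 ≤ N := (Finset.mem_Icc.1 hN).1
    have hN0 : (N : ℚ) ≠ 0 := by
      have : N ≠ 0 := by omega
      exact_mod_cast this
    have hπN := hπ N hN1
    let f : {w : R × R // Dat F (π N) w.1 w.2} →
        {w : (∀ j, Matrix (Fin (m j)) (Fin (m j)) (K j)) ×
          (∀ j, Matrix (Fin (m j)) (Fin (m j)) (K j)) // Dat F (π N) w.1 w.2} :=
      fun w => ⟨(p w.1.1, p w.1.2), dat_map p hp hk hπN w.2⟩
    let g : {w : (∀ j, Matrix (Fin (m j)) (Fin (m j)) (K j)) ×
          (∀ j, Matrix (Fin (m j)) (Fin (m j)) (K j)) // Dat F (π N) w.1 w.2} → ℚ :=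
      fun w => ∑ j, (d j : ℚ) / (Module.finrank F (K j)) * if w.1.1 j ≠ 0 then 1 else 0
    have hrank : ∀ (w : {w : (∀ j, Matrix (Fin (m j)) (Fin (m j)) (K j)) ×
          (∀ j, Matrix (Fin (m j)) (Fin (m j)) (K j)) // Dat F (π N) w.1 w.2}) (j : Fin n),
        ((w.1.1 j).rank : ℚ) / N = (Module.finrank F (K j) : ℚ)⁻¹ *
          if w.1.1 j ≠ 0 then 1 else 0 := by
      rintro ⟨⟨v, T⟩, ⟨hv, hT, hc⟩, hai⟩ j
      show ((v j).rank : ℚ) / N = _ * if v j ≠ 0 then 1 else 0
      by_cases hj : v j = 0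
      · rw [hj, Matrix.rank_zero, if_neg (not_not.2 rfl)]
        simp
      · have hv0 : v ≠ 0 := fun h => hj (congrFun h j)
        obtain ⟨j', e1, e2⟩ := (aic_pi_iff hπN v hv hv0).1 hai
        have hjj : j' = j := by
          by_contra hne
          exact hj (e1 j (Ne.symm hne))
        subst hjj
        rw [if_pos hj, mul_one, div_eq_iff hN0, ← e2]
        push_cast
        rw [← mul_assoc, inv_mul_cancel₀ (hr0 j'), one_mul]
    have hfg : ∀ w, ((ρ w.1.1).rank : ℚ) / N = g (f w) := by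
      intro w
      have e1 := hd w.1.1 ⟨N, hN1, pow_eq_self_of_sol hπN _ w.2.1.1⟩
      rw [e1]
      push_cast
      rw [Finset.sum_div]
      refine Finset.sum_congr rfl fun j _ => ?_
      have e2 := hrank (f w) j
      rw [div_eq_mul_inv (d j : ℚ), mul_assoc, ← e2, mul_div_assoc]
    rw [finsum_congr hfg]
    rw [LI_fib f g κ (by
      rintro ⟨⟨v', T'⟩, hw'⟩
      rw [hκ, ← fiber_card p hp hk hπN v' T' hw']
      apply Nat.card_congr
      exact
        { toFun := fun x => ⟨x.1.1, x.1.2, congrArg (fun y => y.1.1) x.2,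
            congrArg (fun y => y.1.2) x.2⟩
          invFun := fun x => ⟨⟨x.1, x.2.1⟩, Subtype.ext (Prod.ext x.2.2.1 x.2.2.2)⟩
          left_inv := fun _ => rfl
          right_inv := fun _ => rfl })]
    congr 1
    let _ : Fintype {w : (∀ j, Matrix (Fin (m j)) (Fin (m j)) (K j)) ×
          (∀ j, Matrix (Fin (m j)) (Fin (m j)) (K j)) // Dat F (π N) w.1 w.2} :=
      Fintype.ofFinite _
    rw [finsum_eq_sum_of_fintype]
    simp only [g]
    rw [Finset.sum_comm]
    refine Finset.sum_congr rfl fun j _ => ?_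
    rw [← Finset.mul_sum]
    congr 1
    rw [← Nat.cast_mul, ← LI_card_X hN1 hπN j, Finset.sum_ite, Finset.sum_const_zero, add_zero,
      Finset.sum_const, nsmul_eq_mul, mul_one, ← Fintype.card_subtype,
      ← Nat.card_eq_fintype_card]
    congr 1
    apply Nat.card_congr
    exact
      { toFun := fun x => ⟨x.1.1, x.1.2, x.2⟩
        invFun := fun x => ⟨⟨x.1, x.2.1⟩, x.2.2⟩
        left_inv := fun _ => rfl
        right_inv := fun _ => rfl }
  rw [Finset.sum_congr rfl h12, ← Finset.mul_sum, Finset.sum_comm, h5, h4]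
  have h3 : ∀ j, ∑ N ∈ Finset.Icc 1 B, (d j : ℚ) / (Module.finrank F (K j)) *
        ((Nat.card {w : Matrix (Fin (m j)) (Fin (m j)) (K j) ×
          Matrix (Fin (m j)) (Fin (m j)) (K j) // LocD F (K j) (π N) N w.1 w.2} : ℚ) *
        (Nat.card (∀ k : {k : Fin n // k ≠ j},
          {T : Matrix (Fin (m k)) (Fin (m k)) (K k) // IsNilpotent T}) : ℚ)) =
      (d j : ℚ) * m j * ∏ k, (nn k : ℚ) := by
    intro j
    have hBj : Module.finrank F (K j) * m j ≤ B := by
      refine le_trans ?_ hB
      let q : R →ₗ[F] Matrix (Fin (m j)) (Fin (m j)) (K j) :=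
        (LinearMap.proj j : (∀ j, Matrix (Fin (m j)) (Fin (m j)) (K j)) →ₗ[F] _) ∘ₗ
          p.toLinearMap
      have hq : Function.Surjective q := by
        intro M
        obtain ⟨x, hx⟩ := hp (Function.update 0 j M)
        refine ⟨x, ?_⟩
        show p x j = M
        rw [hx, Function.update_self]
      have h1 := LinearMap.finrank_le_finrank_of_surjective hq
      have h2 : Module.finrank F (Matrix (Fin (m j)) (Fin (m j)) (K j)) =
          m j * m j * Module.finrank F (K j) := by
        rw [Module.finrank_matrix, Fintype.card_fin]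
      rw [h2] at h1
      refine le_trans ?_ h1
      have h3 := hm j
      nlinarith [Nat.zero_le (Module.finrank F (K j)), Nat.mul_le_mul_left (m j) h3]
    have h1 := sum_card_locD (K := K j) π hπ (m j) B hBj
    have h2 : (∑ N ∈ Finset.Icc 1 B, (Nat.card {w : Matrix (Fin (m j)) (Fin (m j)) (K j) ×
          Matrix (Fin (m j)) (Fin (m j)) (K j) // LocD F (K j) (π N) N w.1 w.2} : ℚ)) =
        Module.finrank F (K j) * m j * nn j := by exact_mod_cast h1
    rw [← Finset.mul_sum, ← Finset.sum_mul, h2]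
    have h3 := hprod j
    have h3' : (Nat.card (∀ k : {k : Fin n // k ≠ j},
          {T : Matrix (Fin (m k)) (Fin (m k)) (K k) // IsNilpotent T}) : ℚ) * nn j =
        ∏ k, (nn k : ℚ) := by exact_mod_cast h3
    rw [← h3']
    have := hr0 j
    field_simp
  rw [Finset.sum_congr rfl fun j _ => h3 j, ← Finset.sum_mul]
  push_cast
  ring

end Pool.Agent.H27.KAC

end

section

/-!
Project KAC, part I.1, module PI_End: the local identity summed over the representations.

PROOF SKETCH.  For each `x : Rp Q F α` apply `local_identity` to `R = endAlg x`, `ρ` = the `i`-th component,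
`a = α i` (`finrank F R ≤ ∑ (α j)^2 ≤ B`).  Nilpotent elements of `endAlg x` = tuples of nilpotent matrices `T` with
`IsMor x x T` (`I` is finite); `Dat F (π N) v T` in `endAlg x` means `v j * aeval (v j) (π N) = 0`, `Comp v x T`
(`AIc` in `endAlg x` is `AIt x v`).  Sum over `x` (a finite type): `NilPairs` and `Trip` are fibered over `x`.
-/

set_option autoImplicit false

namespace Pool.Agent.H27.KAC

open scoped BigOperators
open Polynomial

section

variable {I E : Type} {Q : Quiv I E} {F : Type} [Field F] {α : I → ℕ}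

theorem End_aeval (x : Rp Q F α) (v : endAlg x) (f : F[X]) (j : I) :
    (aeval v f : endAlg x).1 j = aeval (v.1 j) f := by
  have h1 : ((aeval v f : endAlg x) : (i : I) → Matrix (Fin (α i)) (Fin (α i)) F) =
      aeval (v : (i : I) → Matrix (Fin (α i)) (Fin (α i)) F) f := by
    rw [← Subalgebra.coe_val, ← aeval_algHom_apply]
  rw [h1]
  have h2 := aeval_algHom_apply (Pi.evalAlgHom F (fun i => Matrix (Fin (α i)) (Fin (α i)) F) j)
    (v : (i : I) → Matrix (Fin (α i)) (Fin (α i)) F) f
  exact h2.symm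

theorem End_nilp [Finite I] (x : Rp Q F α) (T : endAlg x) :
    IsNilpotent T ↔ ∀ j, IsNilpotent (T.1 j) := by
  classical
  cases nonempty_fintype I
  constructor
  · rintro ⟨k, hk⟩ j
    refine ⟨k, ?_⟩
    have h1 := congrArg (fun z : endAlg x => z.1 j) hk
    simpa using h1
  · intro h
    choose k hk using h
    refine ⟨∑ j, k j, ?_⟩
    apply Subtype.ext
    funext j
    show (T.1 ^ (∑ j, k j)) j = 0
    rw [Pi.pow_apply]
    exact pow_eq_zero_of_le (Finset.single_le_sum (f := k) (fun _ _ => Nat.zero_le _)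
      (Finset.mem_univ j)) (hk j)

theorem End_aic [Finite I] (x : Rp Q F α) (v : endAlg x) : AIc F v ↔ AIt x v.1 := by
  constructor
  · intro h c hc hcv
    obtain ⟨f, hf⟩ := h ⟨c, hc⟩ (Subtype.ext (funext hcv))
    refine ⟨f, fun i => ?_⟩
    have h1 := (End_nilp x _).1 hf i
    have h2 : ((v * (⟨c, hc⟩ - aeval v f) : endAlg x)).1 i =
        v.1 i * (c i - aeval (v.1 i) f) := by
      rw [← End_aeval x v f i]
      rfl
    rw [h2] at h1
    exact h1
  · intro h c hcv
    obtain ⟨f, hf⟩ := h c.1 c.2 (fun i => congrFun (congrArg Subtype.val hcv) i)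
    refine ⟨f, (End_nilp x _).2 fun i => ?_⟩
    have h2 : ((v * (c - aeval v f) : endAlg x)).1 i =
        v.1 i * (c.1 i - aeval (v.1 i) f) := by
      rw [← End_aeval x v f i]
      rfl
    rw [h2]
    exact hf i

theorem End_sol (x : Rp Q F α) (v : endAlg x) (f : F[X]) :
    v * aeval v f = 0 ↔ ∀ i, v.1 i * aeval (v.1 i) f = 0 := by
  constructor
  · intro h i
    have h1 := congrArg (fun z : endAlg x => z.1 i) h
    rw [← End_aeval x v f i]
    exact h1
  · intro h
    apply Subtype.ext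
    funext i
    have h1 := h i
    rw [← End_aeval x v f i] at h1
    exact h1

theorem End_dat [Finite I] (x : Rp Q F α) (v T : endAlg x) (f : F[X]) :
    Dat F f v T ↔ (∀ i, v.1 i * aeval (v.1 i) f = 0) ∧ Comp v.1 x T.1 := by
  unfold Dat Dat0 Comp
  rw [End_sol, End_nilp, End_aic]
  constructor
  · rintro ⟨⟨h1, h2, h3⟩, h4⟩
    exact ⟨h1, v.2, T.2, h2, fun i => congrFun (congrArg Subtype.val h3) i, h4⟩
  · rintro ⟨h1, _, _, h2, h3, h4⟩
    exact ⟨⟨h1, h2, Subtype.ext (funext h3)⟩, h4⟩

end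

theorem count_triples {I E : Type} [Fintype I] [DecidableEq I] [Fintype E] (Q : Quiv I E)
    {F : Type} [Field F] [Fintype F] (π : ℕ → F[X]) (hπ : ∀ N, 1 ≤ N → GoodPi F (π N) N)
    (α : I → ℕ) (i : I) (B : ℕ) (hB : ∑ j, (α j) ^ 2 ≤ B) :
    (α i : ℚ) * Nat.card (NilPairs Q F α) =
      ∑ N ∈ Finset.Icc 1 B, ∑ᶠ w : Trip Q F α (π N), ((w.1.1 i).rank : ℚ) / N := by
  classical
  haveI : Fintype (Rp Q F α) := Fintype.ofFinite _
  -- the local identity for each representation
  have hloc : ∀ x : Rp Q F α, (α i : ℚ) * Nat.card {T : endAlg x // IsNilpotent T} =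
      ∑ N ∈ Finset.Icc 1 B, ∑ᶠ w : {w : endAlg x × endAlg x // Dat F (π N) w.1 w.2},
        ((w.1.1.1 i).rank : ℚ) / N := by
    intro x
    haveI : Finite (endAlg x) := Subtype.finite
    have hfr : Module.finrank F (endAlg x) ≤ B := by
      refine le_trans ?_ hB
      have h1 : Module.finrank F (endAlg x) ≤
          Module.finrank F ((i : I) → Matrix (Fin (α i)) (Fin (α i)) F) :=
        Submodule.finrank_le (Subalgebra.toSubmodule (endAlg x))
      refine h1.trans ?_
      rw [Module.finrank_pi_fintype]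
      refine le_of_eq (Finset.sum_congr rfl fun j _ => ?_)
      rw [Module.finrank_matrix]
      simp [sq]
    exact local_identity ((Pi.evalAlgHom F (fun i => Matrix (Fin (α i)) (Fin (α i)) F) i).comp
      (endAlg x).val) π hπ B hfr
  -- the left hand side
  have hL : (Nat.card (NilPairs Q F α) : ℚ) =
      ∑ x : Rp Q F α, (Nat.card {T : endAlg x // IsNilpotent T} : ℚ) := by
    have e : NilPairs Q F α ≃ (Σ x : Rp Q F α, {T : endAlg x // IsNilpotent T}) :=
      { toFun := fun p => ⟨p.1.1, ⟨⟨p.1.2, p.2.1⟩, (End_nilp _ _).2 p.2.2⟩⟩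
        invFun := fun s => ⟨(s.1, s.2.1.1), s.2.1.2, (End_nilp _ _).1 s.2.2⟩
        left_inv := fun p => rfl
        right_inv := fun s => rfl }
    haveI : ∀ x : Rp Q F α, Finite {T : endAlg x // IsNilpotent T} := fun x =>
      haveI : Finite (endAlg x) := Subtype.finite
      Subtype.finite
    rw [Nat.card_congr e, Nat.card_sigma]
    push_cast
    rfl
  rw [hL, Finset.mul_sum, Finset.sum_congr rfl fun x _ => hloc x, Finset.sum_comm]
  refine Finset.sum_congr rfl fun N hN => ?_
  -- the fibers of `Trip` over the representations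
  haveI : Finite (Trip Q F α (π N)) := by
    unfold Trip
    infer_instance
  haveI : Fintype (Trip Q F α (π N)) := Fintype.ofFinite _
  let e : Trip Q F α (π N) ≃
      (Σ x : Rp Q F α, {w : endAlg x × endAlg x // Dat F (π N) w.1 w.2}) :=
    { toFun := fun w => ⟨w.1.2.1, ⟨(⟨w.1.1, w.2.2.1⟩, ⟨w.1.2.2, w.2.2.2.1⟩),
        (End_dat _ _ _ _).2 ⟨w.2.1, w.2.2⟩⟩⟩
      invFun := fun s => ⟨(s.2.1.1.1, s.1, s.2.1.2.1), (End_dat _ _ _ _).1 s.2.2⟩
      left_inv := fun w => rfl
      right_inv := fun s => rfl }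
  haveI : ∀ x : Rp Q F α, Finite {w : endAlg x × endAlg x // Dat F (π N) w.1 w.2} := fun x =>
    haveI : Finite (endAlg x) := Subtype.finite
    Subtype.finite
  haveI : ∀ x : Rp Q F α, Fintype {w : endAlg x × endAlg x // Dat F (π N) w.1 w.2} := fun x =>
    Fintype.ofFinite _
  rw [finsum_eq_sum_of_fintype]
  simp_rw [finsum_eq_sum_of_fintype]
  rw [← e.symm.sum_comp, Fintype.sum_sigma]
  rfl

end Pool.Agent.H27.KAC

end

section

/-!
Project KAC, part I.1 (helper40): Hua's formula in logarithmic form, `θ_i P = P θ_i (log P)`.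

PROOF SKETCH.  Choose `π N` (`exists_goodPi`) and for each `N` the field `L` (`exists_ext`, `card L = q^N`).  In
`count_triples` group the triples according to `rank (v k) = N * β k` (`trip_rank`): the term of `(N, β)` is
`β i * card {w : Trip // ranks N * β}`, zero if `β = 0`; otherwise `card_trip`, `card_SNPairs` and `kacA_card` give
`β i * (∏ card GL_(α k)) * kacA Q β (q^N) / (q^N - 1) * Pc Q F (α - N β)`.  Divide by `∏ card GL_(α k)` and reindex with
`γ = N β`: `∑_γ γ i * Lc Q q γ * Pc Q F (α - γ)`.  (`B` large: `B ≥ ∑ (α j)^2` and `B ≥ ∑ α j`.)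
-/

set_option autoImplicit false

namespace Pool.Agent.H27.KAC

open scoped BigOperators
open Polynomial

variable {I E : Type} [Fintype I] [DecidableEq I] [Fintype E]

omit [DecidableEq I] in
theorem Hua_finite_Trip (Q : Quiv I E) (F : Type) [Field F] [Fintype F] (α : I → ℕ) (π : F[X]) :
    Finite (Trip Q F α π) := by
  unfold Trip
  infer_instance

/-- the term of `N` in `count_triples`, grouped by ranks -/
theorem Hua_group (Q : Quiv I E) (F : Type) [Field F] [Fintype F] (α : I → ℕ) (i : I) (π : F[X])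
    (N : ℕ) (hN : 1 ≤ N) (hπ : GoodPi F π N) :
    ∑ᶠ w : Trip Q F α π, ((w.1.1 i).rank : ℚ) / N =
      ∑ β ∈ Fintype.piFinset (fun j => Finset.range (α j + 1)),
        (β i : ℚ) * Nat.card {w : Trip Q F α π // ∀ k, (w.1.1 k).rank = N * β k} := by
  classical
  have := Hua_finite_Trip Q F α π
  have : Fintype (Trip Q F α π) := Fintype.ofFinite _
  have hN0 : (N : ℚ) ≠ 0 := by
    have : N ≠ 0 := by omega
    exact_mod_cast this
  rw [finsum_eq_sum_of_fintype]
  choose b hb hb' using fun (w : Trip Q F α π) (k : I) => trip_rank hπ w k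
  have hmaps : ∀ w ∈ (Finset.univ : Finset (Trip Q F α π)),
      b w ∈ Fintype.piFinset (fun j => Finset.range (α j + 1)) := by
    intro w _
    rw [Fintype.mem_piFinset]
    intro k
    rw [Finset.mem_range]
    have h1 := hb' w k
    have h2 : b w k ≤ N * b w k := Nat.le_mul_of_pos_left _ (by omega)
    omega
  rw [← Finset.sum_fiberwise_of_maps_to hmaps]
  refine Finset.sum_congr rfl fun β _ => ?_
  have h1 : ∀ w ∈ Finset.univ.filter (fun w : Trip Q F α π => b w = β),
      ((w.1.1 i).rank : ℚ) / N = (β i : ℚ) := by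
    intro w hw
    rw [Finset.mem_filter] at hw
    rw [hb w i, hw.2]
    push_cast
    field_simp
  rw [Finset.sum_congr rfl h1, Finset.sum_const, nsmul_eq_mul, mul_comm]
  congr 1
  rw [Nat.card_eq_fintype_card, Fintype.card_subtype]
  norm_cast
  congr 1
  ext w
  simp only [Finset.mem_filter, Finset.mem_univ, true_and]
  constructor
  · intro h k
    rw [hb w k, h]
  · intro h
    funext k
    have h2 := h k
    rw [hb w k] at h2
    exact Nat.eq_of_mul_eq_mul_left (by omega) h2

theorem Hua_alg {T A B G S P q k : ℚ} (hA : A ≠ 0) (hB : B ≠ 0) (hq : q ≠ 0)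
    (h1 : T * (A * B) = G * (S * P)) (h2 : S * q = k * A) : T = G * (k / q * (P / B)) := by
  have h3 : A * (T * q * B) = A * (G * k * P) := by
    calc A * (T * q * B) = (T * (A * B)) * q := by ring
      _ = (G * P) * (S * q) := by rw [h1]; ring
      _ = A * (G * k * P) := by rw [h2]; ring
  have h4 := mul_left_cancel₀ hA h3
  field_simp
  linarith

/-- one term -/
theorem Hua_term (Q : Quiv I E) (F : Type) [Field F] [Fintype F] (α : I → ℕ) (π : F[X])
    (N : ℕ) (hN : 1 ≤ N) (hπ : GoodPi F π N) (β : I → ℕ) (hβ : β ≠ 0)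
    (hle : ∀ k, N * β k ≤ α k) :
    (Nat.card {w : Trip Q F α π // ∀ k, (w.1.1 k).rank = N * β k} : ℚ) =
      (∏ k, (Nat.card (Matrix (Fin (α k)) (Fin (α k)) F)ˣ : ℚ)) *
        ((kacA Q β (Fintype.card F ^ N) : ℚ) / ((Fintype.card F : ℚ) ^ N - 1) *
          Pc Q F (fun k => α k - N * β k)) := by
  classical
  obtain ⟨L, fL, ftL, aL, θ, hθ, hL, hcard⟩ := exists_ext F hπ
  letI := fL
  letI := ftL
  letI := aL
  have h1 := card_trip (Q := Q) hπ hθ hL hβ hle
  have h2 := card_SNPairs Q L β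
  have h3 := kacA_card Q L β
  rw [hcard] at h3 h2
  rw [← h3] at h2
  have hq : 1 < Fintype.card F := Fintype.one_lt_card
  have hq1 : (1 : ℚ) < (Fintype.card F : ℚ) ^ N := by
    apply one_lt_pow₀
    · exact_mod_cast hq
    · omega
  have hqn : 1 ≤ Fintype.card F ^ N := Nat.one_le_pow _ _ (by omega)
  have h1q : (Nat.card {w : Trip Q F α π // ∀ k, (w.1.1 k).rank = N * β k} : ℚ) *
        ((∏ k, (Nat.card (Matrix (Fin (β k)) (Fin (β k)) L)ˣ : ℚ)) *
          ∏ k, (Nat.card (Matrix (Fin (α k - N * β k)) (Fin (α k - N * β k)) F)ˣ : ℚ)) =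
      (∏ k, (Nat.card (Matrix (Fin (α k)) (Fin (α k)) F)ˣ : ℚ)) *
        ((Nat.card (SNPairs Q L β) : ℚ) *
          (Nat.card (NilPairs Q F (fun k => α k - N * β k)) : ℚ)) := by
    exact_mod_cast h1
  have h2q : (Nat.card (SNPairs Q L β) : ℚ) * ((Fintype.card F : ℚ) ^ N - 1) =
      (kacA Q β (Fintype.card F ^ N) : ℚ) *
        ∏ k, (Nat.card (Matrix (Fin (β k)) (Fin (β k)) L)ˣ : ℚ) := by
    have := congrArg (fun t : ℕ => (t : ℚ)) h2
    push_cast [Nat.cast_sub hqn] at this
    exact this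
  have hp1 : (∏ k, (Nat.card (Matrix (Fin (β k)) (Fin (β k)) L)ˣ : ℚ)) ≠ 0 := by
    apply Finset.prod_ne_zero_iff.2
    intro k _
    have : Nat.card (Matrix (Fin (β k)) (Fin (β k)) L)ˣ ≠ 0 := Nat.card_ne_zero.2 ⟨⟨1⟩, inferInstance⟩
    exact_mod_cast this
  have hp2 : (∏ k, (Nat.card (Matrix (Fin (α k - N * β k)) (Fin (α k - N * β k)) F)ˣ : ℚ)) ≠ 0 := by
    apply Finset.prod_ne_zero_iff.2
    intro k _
    have : Nat.card (Matrix (Fin (α k - N * β k)) (Fin (α k - N * β k)) F)ˣ ≠ 0 :=
      Nat.card_ne_zero.2 ⟨⟨1⟩, inferInstance⟩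
    exact_mod_cast this
  have hq0 : (Fintype.card F : ℚ) ^ N - 1 ≠ 0 := by linarith
  unfold Pc
  exact Hua_alg hp1 hp2 hq0 h1q h2q

omit [DecidableEq I] [Fintype E] in
/-- `γ i * Lc γ` as a sum over a large range. -/
theorem Hua_Lc (Q : Quiv I E) (q : ℕ) (γ : I → ℕ) (i : I) (B : ℕ) (hB : ∑ j, γ j ≤ B) :
    (γ i : ℚ) * Lc Q q γ = ∑ N ∈ Finset.Icc 1 B,
      if ∀ j, N ∣ γ j then ((γ i / N : ℕ) : ℚ) *
        ((kacA Q (fun j => γ j / N) (q ^ N) : ℚ) / ((q : ℚ) ^ N - 1)) else 0 := by
  classical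
  unfold Lc
  rw [Finset.mul_sum, ← Finset.sum_filter]
  by_cases hγ : γ i = 0
  · rw [hγ]
    rw [Finset.sum_eq_zero, Finset.sum_eq_zero]
    · intro N _
      simp
    · intro N _
      simp
  · have hset : (Finset.range (∑ j, γ j + 1)).filter (fun N => 1 ≤ N ∧ ∀ j, N ∣ γ j) =
        (Finset.Icc 1 B).filter (fun N => ∀ j, N ∣ γ j) := by
      ext N
      simp only [Finset.mem_filter, Finset.mem_range, Finset.mem_Icc]
      constructor
      · rintro ⟨h1, h2, h3⟩
        exact ⟨⟨h2, by omega⟩, h3⟩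
      · rintro ⟨⟨h1, h2⟩, h3⟩
        have h4 : N ≤ γ i := Nat.le_of_dvd (Nat.pos_of_ne_zero hγ) (h3 i)
        have h5 : γ i ≤ ∑ j, γ j := Finset.single_le_sum (f := γ) (fun _ _ => Nat.zero_le _)
          (Finset.mem_univ i)
        exact ⟨by omega, h1, h3⟩
    rw [hset]
    refine Finset.sum_congr rfl fun N hN => ?_
    rw [Finset.mem_filter, Finset.mem_Icc] at hN
    have hN0 : (N : ℚ) ≠ 0 := by
      have : N ≠ 0 := by omega
      exact_mod_cast this
    obtain ⟨t, ht⟩ := hN.2 i
    have h6 : γ i / N = t := by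
      rw [ht]
      exact Nat.mul_div_cancel_left _ (by omega)
    rw [h6, ht]
    push_cast
    rw [mul_div_assoc', mul_div_assoc', mul_assoc, mul_div_mul_left _ _ hN0]

theorem hua_log (Q : Quiv I E) (F : Type) [Field F] [Fintype F] (α : I → ℕ) (i : I) :
    (α i : ℚ) * Pc Q F α = ∑ β ∈ Fintype.piFinset (fun j => Finset.range (α j + 1)),
      (β i : ℚ) * Lc Q (Fintype.card F) β * Pc Q F (fun j => α j - β j) := by
  classical
  have hex : ∀ N : ℕ, ∃ π : F[X], 1 ≤ N → GoodPi F π N := by
    intro N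
    by_cases hN : 1 ≤ N
    · obtain ⟨π, hπ⟩ := exists_goodPi F N hN
      exact ⟨π, fun _ => hπ⟩
    · exact ⟨0, fun h => absurd h hN⟩
  choose π hπ using hex
  set B := ∑ j, (α j) ^ 2 + ∑ j, α j with hBdef
  have h1 := count_triples Q π hπ α i B (by omega)
  have hG : (∏ k, (Nat.card (Matrix (Fin (α k)) (Fin (α k)) F)ˣ : ℚ)) ≠ 0 := by
    apply Finset.prod_ne_zero_iff.2
    intro k _
    have : Nat.card (Matrix (Fin (α k)) (Fin (α k)) F)ˣ ≠ 0 :=
      Nat.card_ne_zero.2 ⟨⟨1⟩, inferInstance⟩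
    exact_mod_cast this
  -- the left hand side
  have h2 : (α i : ℚ) * Pc Q F α = ∑ N ∈ Finset.Icc 1 B,
      ∑ β ∈ Fintype.piFinset (fun j => Finset.range (α j + 1)),
        if ∀ k, N * β k ≤ α k then (β i : ℚ) *
          ((kacA Q β (Fintype.card F ^ N) : ℚ) / ((Fintype.card F : ℚ) ^ N - 1)) *
            Pc Q F (fun k => α k - N * β k) else 0 := by
    have h3 : (α i : ℚ) * Pc Q F α = ((α i : ℚ) * Nat.card (NilPairs Q F α)) /
        ∏ k, (Nat.card (Matrix (Fin (α k)) (Fin (α k)) F)ˣ : ℚ) := by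
      unfold Pc
      rw [mul_div_assoc]
    rw [h3, h1, Finset.sum_div]
    refine Finset.sum_congr rfl fun N hN => ?_
    rw [Finset.mem_Icc] at hN
    rw [Hua_group Q F α i (π N) N hN.1 (hπ N hN.1), Finset.sum_div]
    refine Finset.sum_congr rfl fun β _ => ?_
    by_cases hle : ∀ k, N * β k ≤ α k
    · rw [if_pos hle]
      by_cases hβ : β = 0
      · rw [hβ]
        simp
      · rw [Hua_term Q F α (π N) N hN.1 (hπ N hN.1) β hβ hle]
        field_simp
    · rw [if_neg hle]
      have h4 : IsEmpty {w : Trip Q F α (π N) // ∀ k, (w.1.1 k).rank = N * β k} := by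
        refine ⟨fun w => hle fun k => ?_⟩
        obtain ⟨b, hb, hb'⟩ := trip_rank (hπ N hN.1) w.1 k
        rw [← w.2 k, hb]
        exact hb'
      rw [Nat.card_of_isEmpty]
      simp
  -- the right hand side
  have h5 : ∀ γ ∈ Fintype.piFinset (fun j => Finset.range (α j + 1)),
      (γ i : ℚ) * Lc Q (Fintype.card F) γ * Pc Q F (fun j => α j - γ j) =
      ∑ N ∈ Finset.Icc 1 B, if ∀ j, N ∣ γ j then ((γ i / N : ℕ) : ℚ) *
        ((kacA Q (fun j => γ j / N) (Fintype.card F ^ N) : ℚ) /
          ((Fintype.card F : ℚ) ^ N - 1)) * Pc Q F (fun j => α j - γ j) else 0 := by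
    intro γ hγ
    rw [Fintype.mem_piFinset] at hγ
    have h6 : ∑ j, γ j ≤ B := by
      have : ∑ j, γ j ≤ ∑ j, α j := Finset.sum_le_sum fun j _ => by
        have := hγ j
        rw [Finset.mem_range] at this
        omega
      omega
    rw [Hua_Lc Q (Fintype.card F) γ i B h6, Finset.sum_mul]
    refine Finset.sum_congr rfl fun N _ => ?_
    split_ifs <;> simp
  rw [h2, Finset.sum_congr rfl h5, Finset.sum_comm (s := Fintype.piFinset _)]
  refine Finset.sum_congr rfl fun N hN => ?_
  rw [Finset.mem_Icc] at hN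
  rw [← Finset.sum_filter, ← Finset.sum_filter]
  refine Finset.sum_bij' (fun β _ => fun k => N * β k) (fun γ _ => fun k => γ k / N) ?_ ?_ ?_ ?_ ?_
  · intro β hβ
    rw [Finset.mem_filter, Fintype.mem_piFinset] at hβ ⊢
    refine ⟨fun k => ?_, fun k => Dvd.intro _ rfl⟩
    rw [Finset.mem_range]
    have := hβ.2 k
    omega
  · intro γ hγ
    rw [Finset.mem_filter, Fintype.mem_piFinset] at hγ ⊢
    refine ⟨fun k => ?_, fun k => ?_⟩
    · rw [Finset.mem_range]
      have h7 := hγ.1 k
      rw [Finset.mem_range] at h7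
      have h8 : γ k / N ≤ γ k := Nat.div_le_self _ _
      omega
    · have h7 := hγ.1 k
      rw [Finset.mem_range] at h7
      rw [Nat.mul_div_cancel' (hγ.2 k)]
      omega
  · intro β _
    funext k
    exact Nat.mul_div_cancel_left _ (by omega)
  · intro γ hγ
    rw [Finset.mem_filter] at hγ
    funext k
    exact Nat.mul_div_cancel' (hγ.2 k)
  · intro β _
    have h9 : (fun j => N * β j / N) = β := by
      funext k
      exact Nat.mul_div_cancel_left _ (by omega)
    have h10 : N * β i / N = β i := Nat.mul_div_cancel_left _ (by omega)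
    rw [h9, h10]

end Pool.Agent.H27.KAC

end
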