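import Pool.Agent.H16.TKA.M10

/-! The parts of this file: H27.KAC.KHDefs, H27.KAC.KH1, H27.KAC.KH2, H27.KAC.KH3, H27.KAC.KH4, H27.KAC.KH5, H27.KAC.KH8, H27.KB.G2. -/

section

/-!
KAC, homogeneous continuity: real multipartitions and the growth function on the real cone.
-/

namespace Pool.Agent.H27.KAC

open scoped BigOperators

/-- entropy. -/
noncomputable def ent (P m : ℝ) : ℝ :=
  (P + m) * Real.log (P + m) - P * Real.log P - m * Real.log m

section

variable {I : Type} [Fintype I] [DecidableEq I]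

/-- `(C x)_i` for real vectors. -/
def cR (a : I → I → ℕ) (x : I → ℝ) (i : I) : ℝ := ∑ j, (cart a i j : ℝ) * x j

/-- the real fundamental cone. -/
def Kon (a : I → I → ℕ) (y : I → ℝ) : Prop := (∀ i, 0 ≤ y i) ∧ ∀ i, cR a y i ≤ 0

/-- total mass of the parts of size at most `K`. -/
def massR (K : ℕ) (m : ℕ → I → ℝ) (i : I) : ℝ := ∑ l ∈ Finset.Icc 1 K, (l : ℝ) * m l i

/-- real vacancy numbers. -/
def vacR (a : I → I → ℕ) (K : ℕ) (m : ℕ → I → ℝ) (k : ℕ) (i : I) : ℝ :=
  ∑ l ∈ Finset.Icc 1 K, ((min k l : ℕ) : ℝ) * (-cR a (m l) i)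

/-- entropy of a real multipartition. -/
noncomputable def EntR (a : I → I → ℕ) (K : ℕ) (m : ℕ → I → ℝ) : ℝ :=
  ∑ k ∈ Finset.Icc 1 K, ∑ i, ent (vacR a K m k i) (m k i)

/-- feasible real multipartitions of `y` with parts at most `K`. -/
structure Feas (a : I → I → ℕ) (K : ℕ) (m : ℕ → I → ℝ) (y : I → ℝ) : Prop where
  nn : ∀ l i, 0 ≤ m l i
  out : ∀ l i, K < l → m l i = 0
  mass : ∀ i, massR K m i = y i
  vac : ∀ k i, 0 ≤ vacR a K m k i

/-- the growth function on the real cone. -/
noncomputable def PhiR (a : I → I → ℕ) (y : I → ℝ) : ℝ :=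
  sSup {x : ℝ | ∃ (K : ℕ) (m : ℕ → I → ℝ), Feas a K m y ∧ x = EntR a K m}

/-- `D` = the part of the support of `y` consisting of isotropic components, `u` = a direction in which the
vanishing `(C y)_i` outside `D` become positive. -/
structure StrictData (a : I → I → ℕ) (y : I → ℝ) (D : Finset I) (u : I → ℝ) : Prop where
  Dpos : ∀ i ∈ D, 0 < y i
  Dzero : ∀ i ∈ D, cR a y i = 0
  Dsep : ∀ i ∈ D, ∀ j, j ∉ D → 0 < y j → a i j = 0
  unn : ∀ i, 0 ≤ u i
  usupp : ∀ i, y i = 0 → u i = 0
  uD : ∀ i ∈ D, u i = 0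
  upos : ∀ i, i ∉ D → 0 < y i → cR a y i = 0 → 0 < cR a u i

/-- limits of the vacancy numbers and of the multiplicities of a sequence of multipartitions. -/
structure LimData (a : I → I → ℕ) (y : I → ℝ) (P m : ℕ → I → ℝ) : Prop where
  mnn : ∀ k i, 0 ≤ m k i
  Pnn : ∀ k i, 0 ≤ P k i
  mass : ∀ L i, massR L m i ≤ y i
  rel : ∀ ε : ℝ, 0 < ε → ∃ L0 : ℕ, ∀ L, L0 ≤ L → ∀ k, 1 ≤ k → k ≤ L → ∀ i,
    |P k i - vacR a L m k i| ≤ ε

end

end Pool.Agent.H27.KAC

end

section

/-!
KAC module KH1: elementary properties of the entropy `ent P m = (P + m) log (P + m) - P log P - m log m`.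

* `ent_add` (superadditivity = concavity of a function homogeneous of degree one): log sum inequality
  `a log (a/c) + b log (b/d) ≥ (a + b) log ((a + b)/(c + d))` applied twice, or `ent_dual` with the optimal
  `x = (m + m') / (P + P' + m + m')`: `ent (P+P') (m+m') = - (m+m') log x - (P+P') log (1-x)` and `ent_dual` for both terms
  (cases with a zero argument separately).
* `ent_dual`: minimum over `x` of the right side (tangent line); for `P, m > 0` use `log t ≤ t - 1` with
  `t = x (P+m)/m` and `t = (1-x)(P+m)/P`.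
* `ent_mono` from `ent_add` and `ent_nonneg`.
* continuity: `Real.continuous_mul_log` or `Real.negMulLog`.
* `log_choose_le`: `C(P+m, m) x^m (1-x)^P ≤ 1` for `x = m/(P+m)` (one term of the binomial expansion of `(x + (1-x))^(P+m)`).
* `ent_le_log_choose`: the term `j = m` of `∑_j C(n, j) x^j (1-x)^(n-j) = 1`, `n = P + m`, `x = m/n`, is the largest of
  the `n + 1` terms (ratio of consecutive terms), so it is at least `1/(n+1)`.
-/

set_option autoImplicit false

namespace Pool.Agent.H27.KAC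

open scoped BigOperators

theorem ent_zero_left (m : ℝ) : ent 0 m = 0 := by
  simp [ent]

theorem ent_zero_right (P : ℝ) : ent P 0 = 0 := by
  simp [ent]

theorem ent_continuous : Continuous (fun p : ℝ × ℝ => ent p.1 p.2) := by
  unfold ent
  exact ((Real.continuous_mul_log.comp (continuous_fst.add continuous_snd)).sub
    (Real.continuous_mul_log.comp continuous_fst)).sub
    (Real.continuous_mul_log.comp continuous_snd)

private theorem KH1_mul_log {t x : ℝ} (ht : 0 < t) :
    (t * x) * Real.log (t * x) = t * (x * Real.log x) + t * x * Real.log t := by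
  rcases eq_or_ne x 0 with rfl | hx
  · simp
  · rw [Real.log_mul ht.ne' hx]; ring

theorem ent_smul {t P m : ℝ} (ht : 0 ≤ t) (hP : 0 ≤ P) (hm : 0 ≤ m) :
    ent (t * P) (t * m) = t * ent P m := by
  rcases ht.eq_or_lt with rfl | ht
  · simp [ent]
  · unfold ent
    rw [← mul_add, KH1_mul_log ht, KH1_mul_log ht, KH1_mul_log ht]
    ring

private theorem KH1_tangent {a b : ℝ} (ha : 0 ≤ a) (hb : 0 < b) :
    a * Real.log b - a * Real.log a ≤ b - a := by
  rcases ha.eq_or_lt with rfl | ha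
  · simpa using hb.le
  · have h1 : Real.log (b / a) ≤ b / a - 1 := Real.log_le_sub_one_of_pos (div_pos hb ha)
    rw [Real.log_div hb.ne' ha.ne'] at h1
    have h2 := mul_le_mul_of_nonneg_left h1 ha.le
    have h3 : a * (b / a - 1) = b - a := by field_simp
    rw [h3] at h2
    linarith

theorem ent_dual {P m x : ℝ} (hP : 0 ≤ P) (hm : 0 ≤ m) (h0 : 0 < x) (h1 : x < 1) :
    ent P m ≤ -(m * Real.log x) - P * Real.log (1 - x) := by
  unfold ent
  rcases (add_nonneg hP hm).eq_or_lt with h | h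
  · have hP0 : P = 0 := by linarith
    have hm0 : m = 0 := by linarith
    simp [hP0, hm0]
  · have hx1 : 0 < 1 - x := by linarith
    have e1 := KH1_tangent hm (mul_pos h0 h)
    have e2 := KH1_tangent hP (mul_pos hx1 h)
    rw [Real.log_mul h0.ne' h.ne'] at e1
    rw [Real.log_mul hx1.ne' h.ne'] at e2
    nlinarith [e1, e2]

theorem ent_nonneg {P m : ℝ} (hP : 0 ≤ P) (hm : 0 ≤ m) : 0 ≤ ent P m := by
  have key : ∀ a b : ℝ, 0 ≤ a → 0 ≤ b → a * Real.log a ≤ a * Real.log (a + b) := by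
    intro a b ha hb
    rcases ha.eq_or_lt with rfl | ha
    · simp
    · exact mul_le_mul_of_nonneg_left (Real.log_le_log ha (by linarith)) ha.le
  have e1 := key P m hP hm
  have e2 := key m P hm hP
  rw [add_comm m P] at e2
  unfold ent
  nlinarith [e1, e2]

theorem ent_add {P m P' m' : ℝ} (hP : 0 ≤ P) (hm : 0 ≤ m) (hP' : 0 ≤ P') (hm' : 0 ≤ m') :
    ent P m + ent P' m' ≤ ent (P + P') (m + m') := by
  rcases (add_nonneg hm hm').eq_or_lt with h | hM
  · have h1 : m = 0 := by linarith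
    have h2 : m' = 0 := by linarith
    simp [h1, h2, ent_zero_right]
  rcases (add_nonneg hP hP').eq_or_lt with h | hQ
  · have h1 : P = 0 := by linarith
    have h2 : P' = 0 := by linarith
    simp [h1, h2, ent_zero_left]
  have hS : 0 < (P + P') + (m + m') := by linarith
  set x : ℝ := (m + m') / ((P + P') + (m + m')) with hx
  have hx0 : 0 < x := div_pos hM hS
  have hx1 : x < 1 := by rw [hx, div_lt_one hS]; linarith
  have e1 := ent_dual hP hm hx0 hx1
  have e2 := ent_dual hP' hm' hx0 hx1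
  have hlx : Real.log x = Real.log (m + m') - Real.log ((P + P') + (m + m')) := by
    rw [hx, Real.log_div hM.ne' hS.ne']
  have hl1 : Real.log (1 - x) = Real.log (P + P') - Real.log ((P + P') + (m + m')) := by
    rw [← Real.log_div hQ.ne' hS.ne']
    congr 1
    rw [hx]
    field_simp
    ring
  rw [hlx, hl1] at e1 e2
  have e3 : ent (P + P') (m + m') = ((P + P') + (m + m')) * Real.log ((P + P') + (m + m'))
      - (P + P') * Real.log (P + P') - (m + m') * Real.log (m + m') := rfl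
  rw [e3]
  nlinarith [e1, e2]

theorem ent_mono {P m P' m' : ℝ} (hP : 0 ≤ P) (hm : 0 ≤ m) (h1 : P ≤ P') (h2 : m ≤ m') :
    ent P m ≤ ent P' m' := by
  have e1 := ent_add hP hm (sub_nonneg.2 h1) (sub_nonneg.2 h2)
  have e2 := ent_nonneg (sub_nonneg.2 h1) (sub_nonneg.2 h2)
  rw [add_sub_cancel, add_sub_cancel] at e1
  linarith

private theorem KH1_pow_log (k : ℕ) : Real.log ((k : ℝ) ^ k) = k * Real.log k := by
  rw [Real.log_pow]

theorem log_choose_le (P m : ℕ) : Real.log ((P + m).choose m) ≤ ent P m := by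
  have h1 : m ^ m * P ^ P * (P + m).choose m ≤ (m + P) ^ (m + P) := by
    rw [add_pow]
    have h2 := Finset.single_le_sum (f := fun k => m ^ k * P ^ (m + P - k) * (m + P).choose k)
      (s := Finset.range (m + P + 1)) (fun _ _ => Nat.zero_le _)
      (Finset.mem_range.2 (show m < m + P + 1 by omega))
    simpa [Nat.add_comm P m] using h2
  have h2 : ((m : ℝ) ^ m * (P : ℝ) ^ P * ((P + m).choose m : ℝ)) ≤ ((m : ℝ) + P) ^ (m + P) := by
    exact_mod_cast h1
  have hc : 0 < ((P + m).choose m : ℝ) := by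
    exact_mod_cast Nat.choose_pos (by omega)
  have pp : ∀ k : ℕ, 0 < (k : ℝ) ^ k := by
    intro k
    rcases Nat.eq_zero_or_pos k with rfl | hk
    · simp
    · have : (0 : ℝ) < k := by exact_mod_cast hk
      positivity
  have h3 := Real.log_le_log (mul_pos (mul_pos (pp m) (pp P)) hc) h2
  rw [Real.log_mul (mul_pos (pp m) (pp P)).ne' hc.ne', Real.log_mul (pp m).ne' (pp P).ne',
    KH1_pow_log, KH1_pow_log, Real.log_pow] at h3
  unfold ent
  push_cast at h3
  rw [add_comm (P : ℝ) (m : ℝ)]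
  linarith

private theorem KH1_up {P m j : ℕ} (hP : 0 < P) (hj : j < m) :
    m ^ j * P ^ (m + P - j) * (m + P).choose j ≤
      m ^ (j + 1) * P ^ (m + P - (j + 1)) * (m + P).choose (j + 1) := by
  have h1 : (m + P).choose (j + 1) * (j + 1) = (m + P).choose j * (m + P - j) :=
    Nat.choose_succ_right_eq _ _
  have h2 : P ^ (m + P - j) = P ^ (m + P - (j + 1)) * P := by
    rw [← pow_succ]; congr 1; omega
  have h3 : (j + 1) * P ≤ (m + P - j) * m := by
    obtain ⟨d, rfl⟩ := Nat.exists_eq_add_of_lt hj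
    have : j + d + 1 + P - j = d + 1 + P := by omega
    rw [this]
    nlinarith
  refine Nat.le_of_mul_le_mul_left (c := j + 1) ?_ (Nat.succ_pos j)
  calc (j + 1) * (m ^ j * P ^ (m + P - j) * (m + P).choose j)
      = m ^ j * P ^ (m + P - (j + 1)) * (m + P).choose j * ((j + 1) * P) := by rw [h2]; ring
    _ ≤ m ^ j * P ^ (m + P - (j + 1)) * (m + P).choose j * ((m + P - j) * m) :=
        Nat.mul_le_mul_left _ h3
    _ = m ^ (j + 1) * P ^ (m + P - (j + 1)) * ((m + P).choose j * (m + P - j)) := by ring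
    _ = (j + 1) * (m ^ (j + 1) * P ^ (m + P - (j + 1)) * (m + P).choose (j + 1)) := by
        rw [← h1]; ring

private theorem KH1_down {P m j : ℕ} (hP : 0 < P) (hj : m ≤ j) (hjn : j < m + P) :
    m ^ (j + 1) * P ^ (m + P - (j + 1)) * (m + P).choose (j + 1) ≤
      m ^ j * P ^ (m + P - j) * (m + P).choose j := by
  have h1 : (m + P).choose (j + 1) * (j + 1) = (m + P).choose j * (m + P - j) :=
    Nat.choose_succ_right_eq _ _
  have h2 : P ^ (m + P - j) = P ^ (m + P - (j + 1)) * P := by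
    rw [← pow_succ]; congr 1; omega
  have h3 : (m + P - j) * m ≤ (j + 1) * P := by
    obtain ⟨d, rfl⟩ := Nat.exists_eq_add_of_le hj
    have : m + P - (m + d) ≤ P := by omega
    calc (m + P - (m + d)) * m ≤ P * m := Nat.mul_le_mul_right _ this
      _ ≤ (m + d + 1) * P := by nlinarith
  refine Nat.le_of_mul_le_mul_left (c := j + 1) ?_ (Nat.succ_pos j)
  calc (j + 1) * (m ^ (j + 1) * P ^ (m + P - (j + 1)) * (m + P).choose (j + 1))
      = m ^ (j + 1) * P ^ (m + P - (j + 1)) * ((m + P).choose j * (m + P - j)) := by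
        rw [← h1]; ring
    _ = m ^ j * P ^ (m + P - (j + 1)) * (m + P).choose j * ((m + P - j) * m) := by ring
    _ ≤ m ^ j * P ^ (m + P - (j + 1)) * (m + P).choose j * ((j + 1) * P) :=
        Nat.mul_le_mul_left _ h3
    _ = (j + 1) * (m ^ j * P ^ (m + P - j) * (m + P).choose j) := by rw [h2]; ring

private theorem KH1_max {P m : ℕ} (hP : 0 < P) (j : ℕ) (hj : j ≤ m + P) :
    m ^ j * P ^ (m + P - j) * (m + P).choose j ≤ m ^ m * P ^ (m + P - m) * (m + P).choose m := by
  rcases le_total j m with h | h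
  · obtain ⟨d, rfl⟩ := Nat.exists_eq_add_of_le h
    -- induction on the distance
    have key : ∀ e : ℕ, e ≤ d → (j + d) ^ j * P ^ (j + d + P - j) * (j + d + P).choose j ≤
        (j + d) ^ (j + e) * P ^ (j + d + P - (j + e)) * (j + d + P).choose (j + e) := by
      intro e
      induction e with
      | zero => intro _; simp
      | succ e ih =>
        intro he
        exact (ih (by omega)).trans (KH1_up (j := j + e) hP (by omega))
    exact key d le_rfl
  · obtain ⟨d, rfl⟩ := Nat.exists_eq_add_of_le h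
    have key : ∀ e : ℕ, e ≤ d → m ^ (m + e) * P ^ (m + P - (m + e)) * (m + P).choose (m + e) ≤
        m ^ m * P ^ (m + P - m) * (m + P).choose m := by
      intro e
      induction e with
      | zero => intro _; simp
      | succ e ih =>
        intro he
        exact (KH1_down (j := m + e) hP (by omega) (by omega)).trans (ih (by omega))
    exact key d le_rfl

theorem ent_le_log_choose (P m : ℕ) :
    ent P m ≤ Real.log ((P + m).choose m) + Real.log ((P : ℝ) + m + 1) := by
  rcases Nat.eq_zero_or_pos P with rfl | hP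
  · simp only [Nat.cast_zero, ent_zero_left, zero_add, Nat.choose_self, Nat.cast_one, Real.log_one]
    exact Real.log_nonneg (by have : (0 : ℝ) ≤ m := Nat.cast_nonneg m
                              linarith)
  have h1 : (m + P) ^ (m + P) ≤ (m + P + 1) * (m ^ m * P ^ P * (P + m).choose m) := by
    rw [add_pow]
    have h2 : ∀ k ∈ Finset.range (m + P + 1), m ^ k * P ^ (m + P - k) * (m + P).choose k ≤
        m ^ m * P ^ P * (P + m).choose m := by
      intro k hk
      have := KH1_max (m := m) hP k (by rw [Finset.mem_range] at hk; omega)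
      simpa [Nat.add_comm P m] using this
    have h3 := Finset.sum_le_card_nsmul _ _ _ h2
    simpa using h3
  have h2 : ((m : ℝ) + P) ^ (m + P) ≤
      ((m : ℝ) + P + 1) * ((m : ℝ) ^ m * (P : ℝ) ^ P * ((P + m).choose m : ℝ)) := by
    exact_mod_cast h1
  have hc : 0 < ((P + m).choose m : ℝ) := by
    exact_mod_cast Nat.choose_pos (by omega)
  have pp : ∀ k : ℕ, 0 < (k : ℝ) ^ k := by
    intro k
    rcases Nat.eq_zero_or_pos k with rfl | hk
    · simp
    · have : (0 : ℝ) < k := by exact_mod_cast hk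
      positivity
  have hPR : (0 : ℝ) < P := by exact_mod_cast hP
  have hmR : (0 : ℝ) ≤ m := Nat.cast_nonneg m
  have hs : (0 : ℝ) < (m : ℝ) + P := by linarith
  have h3 := Real.log_le_log (pow_pos hs (m + P)) h2
  rw [Real.log_mul (by linarith : (0 : ℝ) < (m : ℝ) + P + 1).ne'
      (mul_pos (mul_pos (pp m) (pp P)) hc).ne',
    Real.log_mul (mul_pos (pp m) (pp P)).ne' hc.ne', Real.log_mul (pp m).ne' (pp P).ne',
    KH1_pow_log, KH1_pow_log, Real.log_pow] at h3
  unfold ent
  push_cast at h3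
  rw [add_comm (P : ℝ) (m : ℝ)]
  linarith

end Pool.Agent.H27.KAC

end

section

/-!
KAC module KH2: real multipartitions, linear algebra and bounds.

* `Feas.vac_le`: `-cart a i j ≤ a i j`, `min k l ≤ l`, `m ≥ 0`.
* `Feas.vac_top`: for `k ≥ K` one has `min k l = l`.
* `Feas.tail`: `ent_dual` with `x^k` in place of `x`; `-log (1 - t) ≤ t / (1 - t)`, `1 - x^k ≥ 1 - x`,
  `∑_(k > L) x^k ≤ x^(L+1) / (1 - x)`, `Feas.vac_le`.
-/

set_option autoImplicit false

namespace Pool.Agent.H27.KAC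

open scoped BigOperators

variable {I : Type} [Fintype I] [DecidableEq I]

theorem cR_add (a : I → I → ℕ) (x y : I → ℝ) (i : I) : cR a (x + y) i = cR a x i + cR a y i := by
  simp [cR, mul_add, Finset.sum_add_distrib]

theorem cR_smul (a : I → I → ℕ) (t : ℝ) (x : I → ℝ) (i : I) : cR a (t • x) i = t * cR a x i := by
  simp only [cR, Pi.smul_apply, smul_eq_mul, Finset.mul_sum]
  exact Finset.sum_congr rfl fun j _ => by ring

theorem cR_sub (a : I → I → ℕ) (x y : I → ℝ) (i : I) : cR a (x - y) i = cR a x i - cR a y i := by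
  simp [cR, mul_sub, Finset.sum_sub_distrib]

theorem cR_symm (a : I → I → ℕ) (hs : ∀ i j, a i j = a j i) (x y : I → ℝ) :
    ∑ i, x i * cR a y i = ∑ i, y i * cR a x i := by
  have hc : ∀ i j, (cart a i j : ℝ) = (cart a j i : ℝ) := by
    intro i j
    unfold cart
    rw [hs i j]
    by_cases h : i = j
    · rw [h]
    · rw [if_neg h, if_neg (fun h' => h h'.symm)]
  simp only [cR, Finset.mul_sum]
  rw [Finset.sum_comm]
  refine Finset.sum_congr rfl fun j _ => Finset.sum_congr rfl fun i _ => ?_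
  rw [hc i j]
  ring

private theorem KH2_cR_neg_le (a : I → I → ℕ) (x : I → ℝ) (hx : ∀ i, 0 ≤ x i) (i : I) :
    -cR a x i ≤ ∑ j, (a i j : ℝ) * x j := by
  unfold cR
  rw [← Finset.sum_neg_distrib]
  refine Finset.sum_le_sum fun j _ => ?_
  have h0 := hx j
  unfold cart
  by_cases h : i = j
  · rw [if_pos h]
    push_cast
    nlinarith
  · rw [if_neg h]
    push_cast
    nlinarith

/-- off-diagonal entries are nonpositive. -/
theorem cR_nonpos_of_zero (a : I → I → ℕ) (x : I → ℝ) (hx : ∀ i, 0 ≤ x i) (i : I)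
    (hi : x i = 0) : cR a x i ≤ 0 := by
  unfold cR
  refine Finset.sum_nonpos fun j _ => ?_
  by_cases h : i = j
  · rw [← h, hi, mul_zero]
  · have h0 := hx j
    have h1 : (0 : ℝ) ≤ (a i j : ℝ) := Nat.cast_nonneg _
    unfold cart
    rw [if_neg h]
    push_cast
    nlinarith

theorem massR_sum_cR (a : I → I → ℕ) (K : ℕ) (m : ℕ → I → ℝ) (i : I) :
    ∑ l ∈ Finset.Icc 1 K, (l : ℝ) * cR a (m l) i = cR a (massR K m) i := by
  simp only [cR, massR, Finset.mul_sum]
  rw [Finset.sum_comm]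
  refine Finset.sum_congr rfl fun j _ => Finset.sum_congr rfl fun l _ => ?_
  ring

private theorem KH2_sum_enlarge (f : ℕ → ℝ) (K K' : ℕ) (hK : K ≤ K') (hf : ∀ l, K < l → f l = 0) :
    ∑ l ∈ Finset.Icc 1 K', f l = ∑ l ∈ Finset.Icc 1 K, f l := by
  symm
  apply Finset.sum_subset
  · intro l hl
    rw [Finset.mem_Icc] at hl ⊢
    omega
  · intro l hl hl'
    rw [Finset.mem_Icc] at hl hl'
    exact hf l (by omega)

private theorem KH2_cR_zero (a : I → I → ℕ) (x : I → ℝ) (hx : ∀ j, x j = 0) (i : I) :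
    cR a x i = 0 := by
  unfold cR
  exact Finset.sum_eq_zero fun j _ => by rw [hx j, mul_zero]

private theorem KH2_vac_enlarge {a : I → I → ℕ} {K K' : ℕ} {m : ℕ → I → ℝ}
    (hout : ∀ l i, K < l → m l i = 0) (hK : K ≤ K') (k : ℕ) (i : I) :
    vacR a K' m k i = vacR a K m k i := by
  unfold vacR
  apply KH2_sum_enlarge _ K K' hK
  intro l hl
  rw [KH2_cR_zero a (m l) (fun j => hout l j hl) i, neg_zero, mul_zero]

theorem Feas.enlarge {a : I → I → ℕ} {K K' : ℕ} {m : ℕ → I → ℝ} {y : I → ℝ}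
    (h : Feas a K m y) (hK : K ≤ K') : Feas a K' m y where
  nn := h.nn
  out := fun l i hl => h.out l i (by omega)
  mass := by
    intro i
    rw [← h.mass i]
    unfold massR
    apply KH2_sum_enlarge _ K K' hK
    intro l hl
    rw [h.out l i hl, mul_zero]
  vac := by
    intro k i
    rw [KH2_vac_enlarge h.out hK]
    exact h.vac k i

theorem EntR_enlarge {a : I → I → ℕ} {K K' : ℕ} {m : ℕ → I → ℝ} {y : I → ℝ}
    (h : Feas a K m y) (hK : K ≤ K') : EntR a K' m = EntR a K m := by
  unfold EntR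
  rw [KH2_sum_enlarge _ K K' hK]
  · refine Finset.sum_congr rfl fun k _ => Finset.sum_congr rfl fun i _ => ?_
    rw [KH2_vac_enlarge h.out hK]
  · intro l hl
    refine Finset.sum_eq_zero fun i _ => ?_
    rw [h.out l i hl, ent_zero_right]

theorem vacR_add (a : I → I → ℕ) (K : ℕ) (m m' : ℕ → I → ℝ) (k : ℕ) (i : I) :
    vacR a K (fun l j => m l j + m' l j) k i = vacR a K m k i + vacR a K m' k i := by
  unfold vacR
  rw [← Finset.sum_add_distrib]
  refine Finset.sum_congr rfl fun l _ => ?_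
  have e : cR a (fun j => m l j + m' l j) i = cR a (m l) i + cR a (m' l) i :=
    cR_add a (m l) (m' l) i
  rw [e]
  ring

theorem vacR_smul (a : I → I → ℕ) (K : ℕ) (t : ℝ) (m : ℕ → I → ℝ) (k : ℕ) (i : I) :
    vacR a K (fun l j => t * m l j) k i = t * vacR a K m k i := by
  unfold vacR
  rw [Finset.mul_sum]
  refine Finset.sum_congr rfl fun l _ => ?_
  have e : cR a (fun j => t * m l j) i = t * cR a (m l) i :=
    cR_smul a t (m l) i
  rw [e]
  ring

theorem Feas.add {a : I → I → ℕ} {K : ℕ} {m m' : ℕ → I → ℝ} {y y' : I → ℝ}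
    (h : Feas a K m y) (h' : Feas a K m' y') :
    Feas a K (fun l j => m l j + m' l j) (y + y') where
  nn := fun l i => add_nonneg (h.nn l i) (h'.nn l i)
  out := by
    intro l i hl
    show m l i + m' l i = 0
    rw [h.out l i hl, h'.out l i hl, add_zero]
  mass := by
    intro i
    rw [Pi.add_apply, ← h.mass i, ← h'.mass i]
    unfold massR
    rw [← Finset.sum_add_distrib]
    exact Finset.sum_congr rfl fun l _ => by ring
  vac := by
    intro k i
    rw [vacR_add]
    exact add_nonneg (h.vac k i) (h'.vac k i)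

theorem EntR_add {a : I → I → ℕ} {K : ℕ} {m m' : ℕ → I → ℝ} {y y' : I → ℝ}
    (h : Feas a K m y) (h' : Feas a K m' y') :
    EntR a K m + EntR a K m' ≤ EntR a K (fun l j => m l j + m' l j) := by
  unfold EntR
  rw [← Finset.sum_add_distrib]
  refine Finset.sum_le_sum fun k _ => ?_
  rw [← Finset.sum_add_distrib]
  refine Finset.sum_le_sum fun i _ => ?_
  rw [vacR_add]
  exact ent_add (h.vac k i) (h.nn k i) (h'.vac k i) (h'.nn k i)

theorem Feas.smul {a : I → I → ℕ} {K : ℕ} {m : ℕ → I → ℝ} {y : I → ℝ}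
    (h : Feas a K m y) {t : ℝ} (ht : 0 ≤ t) : Feas a K (fun l j => t * m l j) (t • y) where
  nn := fun l i => mul_nonneg ht (h.nn l i)
  out := by
    intro l i hl
    show t * m l i = 0
    rw [h.out l i hl, mul_zero]
  mass := by
    intro i
    rw [Pi.smul_apply, smul_eq_mul, ← h.mass i]
    unfold massR
    rw [Finset.mul_sum]
    exact Finset.sum_congr rfl fun l _ => by ring
  vac := by
    intro k i
    rw [vacR_smul]
    exact mul_nonneg ht (h.vac k i)

theorem EntR_smul {a : I → I → ℕ} {K : ℕ} {m : ℕ → I → ℝ} {y : I → ℝ}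
    (h : Feas a K m y) {t : ℝ} (ht : 0 ≤ t) :
    EntR a K (fun l j => t * m l j) = t * EntR a K m := by
  unfold EntR
  rw [Finset.mul_sum]
  refine Finset.sum_congr rfl fun k _ => ?_
  rw [Finset.mul_sum]
  refine Finset.sum_congr rfl fun i _ => ?_
  rw [vacR_smul]
  exact ent_smul ht (h.vac k i) (h.nn k i)

theorem Feas.EntR_nonneg {a : I → I → ℕ} {K : ℕ} {m : ℕ → I → ℝ} {y : I → ℝ}
    (h : Feas a K m y) : 0 ≤ EntR a K m := by
  unfold EntR
  exact Finset.sum_nonneg fun k _ => Finset.sum_nonneg fun i _ =>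
    ent_nonneg (h.vac k i) (h.nn k i)

theorem Feas.vac_top {a : I → I → ℕ} {K : ℕ} {m : ℕ → I → ℝ} {y : I → ℝ}
    (h : Feas a K m y) (k : ℕ) (hk : K ≤ k) (i : I) : vacR a K m k i = -cR a y i := by
  have e : massR K m = y := funext h.mass
  rw [← e, ← massR_sum_cR, ← Finset.sum_neg_distrib]
  unfold vacR
  refine Finset.sum_congr rfl fun l hl => ?_
  rw [Finset.mem_Icc] at hl
  rw [min_eq_right (by omega)]
  ring

theorem Feas.kon {a : I → I → ℕ} {K : ℕ} {m : ℕ → I → ℝ} {y : I → ℝ}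
    (h : Feas a K m y) : Kon a y := by
  refine ⟨fun i => ?_, fun i => ?_⟩
  · rw [← h.mass i]
    unfold massR
    exact Finset.sum_nonneg fun l _ => mul_nonneg (Nat.cast_nonneg _) (h.nn l i)
  · have h1 := h.vac_top K le_rfl i
    have h2 := h.vac K i
    linarith

theorem Feas.vac_le {a : I → I → ℕ} {K : ℕ} {m : ℕ → I → ℝ} {y : I → ℝ}
    (h : Feas a K m y) (k : ℕ) (i : I) : vacR a K m k i ≤ ∑ j, (a i j : ℝ) * y j := by
  have e : ∑ j, (a i j : ℝ) * y j = ∑ l ∈ Finset.Icc 1 K, (l : ℝ) * ∑ j, (a i j : ℝ) * m l j := by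
    simp only [← h.mass, massR, Finset.mul_sum]
    rw [Finset.sum_comm]
    refine Finset.sum_congr rfl fun l _ => Finset.sum_congr rfl fun j _ => ?_
    ring
  rw [e]
  unfold vacR
  refine Finset.sum_le_sum fun l _ => ?_
  have h1 := KH2_cR_neg_le a (m l) (h.nn l) i
  have h2 : 0 ≤ ∑ j, (a i j : ℝ) * m l j :=
    Finset.sum_nonneg fun j _ => mul_nonneg (Nat.cast_nonneg _) (h.nn l j)
  have h3 : ((min k l : ℕ) : ℝ) ≤ l := by exact_mod_cast min_le_right k l
  calc ((min k l : ℕ) : ℝ) * (-cR a (m l) i) ≤ ((min k l : ℕ) : ℝ) * ∑ j, (a i j : ℝ) * m l j :=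
        mul_le_mul_of_nonneg_left h1 (Nat.cast_nonneg _)
    _ ≤ (l : ℝ) * ∑ j, (a i j : ℝ) * m l j := mul_le_mul_of_nonneg_right h3 h2

/-- all parts of size one. -/
theorem Feas.one {a : I → I → ℕ} {y : I → ℝ} (hy : Kon a y) :
    Feas a 1 (fun l i => if l = 1 then y i else 0) y where
  nn := by
    intro l i
    show 0 ≤ if l = 1 then y i else 0
    split_ifs
    · exact hy.1 i
    · exact le_rfl
  out := by
    intro l i hl
    show (if l = 1 then y i else 0) = 0
    rw [if_neg (by omega)]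
  mass := by
    intro i
    unfold massR
    simp
  vac := by
    intro k i
    unfold vacR
    rw [Finset.Icc_self, Finset.sum_singleton]
    refine mul_nonneg (Nat.cast_nonneg _) ?_
    have e : (fun (l : ℕ) (i : I) => if l = 1 then y i else 0) 1 = y := by
      funext i
      simp
    rw [e]
    have := hy.2 i
    linarith

theorem Feas.tail {a : I → I → ℕ} {K : ℕ} {m : ℕ → I → ℝ} {y : I → ℝ}
    (h : Feas a K m y) {x : ℝ} (h0 : 0 < x) (h1 : x < 1) (L : ℕ) :
    ∑ k ∈ Finset.Icc (L + 1) K, ∑ i, ent (vacR a K m k i) (m k i) ≤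
      (∑ i, y i) * (-Real.log x) +
        (∑ i, ∑ j, (a i j : ℝ) * y j) * (x ^ (L + 1) / (1 - x) ^ 2) := by
  have hlog : 0 ≤ -Real.log x := by
    have := Real.log_nonpos h0.le h1.le
    linarith
  have h1x : 0 < 1 - x := by linarith
  have hy := h.kon
  have hB : ∀ i, 0 ≤ ∑ j, (a i j : ℝ) * y j := fun i =>
    Finset.sum_nonneg fun j _ => mul_nonneg (Nat.cast_nonneg _) (hy.1 j)
  have hterm : ∀ k ∈ Finset.Icc (L + 1) K, ∀ i ∈ (Finset.univ : Finset I),
      ent (vacR a K m k i) (m k i) ≤ (k : ℝ) * m k i * (-Real.log x) +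
        (∑ j, (a i j : ℝ) * y j) * (x ^ k / (1 - x)) := by
    intro k hk i _
    rw [Finset.mem_Icc] at hk
    have hk1 : k ≠ 0 := by omega
    have hx0 : 0 < x ^ k := pow_pos h0 k
    have hx1 : x ^ k < 1 := pow_lt_one₀ h0.le h1 hk1
    have hxx : x ^ k ≤ x := by
      calc x ^ k ≤ x ^ 1 := pow_le_pow_of_le_one h0.le h1.le (by omega)
        _ = x := pow_one x
    have hd := ent_dual (h.vac k i) (h.nn k i) hx0 hx1
    rw [Real.log_pow] at hd
    have hl : -Real.log (1 - x ^ k) ≤ x ^ k / (1 - x) := by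
      have hpos : 0 < 1 - x ^ k := by linarith
      have h2 := Real.one_sub_inv_le_log_of_pos hpos
      have h3 : (1 - x ^ k)⁻¹ - 1 = x ^ k / (1 - x ^ k) := by field_simp; ring
      have h4 : x ^ k / (1 - x ^ k) ≤ x ^ k / (1 - x) :=
        div_le_div_of_nonneg_left hx0.le h1x (by linarith)
      linarith
    have hl0 : 0 ≤ x ^ k / (1 - x) := by positivity
    have hv := h.vac_le k i
    have hv0 := h.vac k i
    have h5 : vacR a K m k i * (-Real.log (1 - x ^ k)) ≤
        (∑ j, (a i j : ℝ) * y j) * (x ^ k / (1 - x)) :=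
      (mul_le_mul_of_nonneg_left hl hv0).trans (mul_le_mul_of_nonneg_right hv hl0)
    calc ent (vacR a K m k i) (m k i) ≤
          -(m k i * (k * Real.log x)) - vacR a K m k i * Real.log (1 - x ^ k) := hd
      _ = (k : ℝ) * m k i * (-Real.log x) + vacR a K m k i * (-Real.log (1 - x ^ k)) := by ring
      _ ≤ _ := by linarith
  have hs := Finset.sum_le_sum fun k hk => Finset.sum_le_sum (hterm k hk)
  refine hs.trans ?_
  have e1 : ∑ k ∈ Finset.Icc (L + 1) K, ∑ i, ((k : ℝ) * m k i * (-Real.log x) +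
        (∑ j, (a i j : ℝ) * y j) * (x ^ k / (1 - x))) =
      (∑ i, ∑ k ∈ Finset.Icc (L + 1) K, (k : ℝ) * m k i) * (-Real.log x) +
        (∑ i, ∑ j, (a i j : ℝ) * y j) * ((∑ k ∈ Finset.Icc (L + 1) K, x ^ k) / (1 - x)) := by
    simp only [Finset.sum_add_distrib]
    congr 1
    · rw [Finset.sum_comm, Finset.sum_mul]
      exact Finset.sum_congr rfl fun i _ => by rw [Finset.sum_mul]
    · rw [Finset.sum_div, Finset.mul_sum]
      exact Finset.sum_congr rfl fun k _ => by rw [Finset.sum_mul]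
  rw [e1]
  refine add_le_add ?_ ?_
  · refine mul_le_mul_of_nonneg_right (Finset.sum_le_sum fun i _ => ?_) hlog
    rw [← h.mass i]
    unfold massR
    refine Finset.sum_le_sum_of_subset_of_nonneg ?_ ?_
    · intro k hk
      rw [Finset.mem_Icc] at hk ⊢
      omega
    · intro k _ _
      exact mul_nonneg (Nat.cast_nonneg _) (h.nn k i)
  · refine mul_le_mul_of_nonneg_left ?_ (Finset.sum_nonneg fun i _ => hB i)
    have e2 : Finset.Icc (L + 1) K = Finset.Ico (L + 1) (K + 1) := by
      ext k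
      rw [Finset.mem_Icc, Finset.mem_Ico]
      omega
    have hg : ∑ k ∈ Finset.Icc (L + 1) K, x ^ k ≤ x ^ (L + 1) / (1 - x) := by
      rw [e2]
      exact geom_sum_Ico_le_of_lt_one h0.le h1
    calc (∑ k ∈ Finset.Icc (L + 1) K, x ^ k) / (1 - x) ≤ x ^ (L + 1) / (1 - x) / (1 - x) :=
          div_le_div_of_nonneg_right hg h1x.le
      _ = x ^ (L + 1) / (1 - x) ^ 2 := by rw [div_div, sq]

end Pool.Agent.H27.KAC

end

section

/-!
KAC module KH3: the growth function `PhiR` on the real cone: boundedness, superadditivity, homogeneity, lower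
semicontinuity.

* bounded: `Feas.tail` with `L = 0`, `x = 1/2`.
* `PhiR_add`: `exists_Feas_lt` for both, `Feas.enlarge` to a common `K`, `Feas.add`, `EntR_add`.
* `PhiR_smul`: for `t > 0` apply `Feas.smul` with `t` and `1/t`; for `t = 0`: a feasible multipartition of `0` is zero on
  `1..K`, so its entropy is zero.
* `PhiR_lsc`: choose `0 < η ≤ 1` with `η * PhiR a y ≤ ε`.  For `z ∈ Kon` close to `y` the vector `z - (1 - η) y` is in `Kon`:
  if `y i = 0` then `z i ≥ 0`; if `y i > 0` it is close to `η y i > 0`; if `cR a y i = 0` then `cR a z i ≤ 0`; if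
  `cR a y i < 0` it is close to `η cR a y i < 0`.  Then `PhiR a z ≥ PhiR a ((1 - η) y) + 0`.
-/

set_option autoImplicit false

namespace Pool.Agent.H27.KAC

open scoped BigOperators

variable {I : Type} [Fintype I] [DecidableEq I]

theorem PhiR_bdd (a : I → I → ℕ) (y : I → ℝ) :
    BddAbove {x : ℝ | ∃ (K : ℕ) (m : ℕ → I → ℝ), Feas a K m y ∧ x = EntR a K m} := by
  refine ⟨(∑ i, y i) * (-Real.log (1 / 2 : ℝ)) +
    (∑ i, ∑ j, (a i j : ℝ) * y j) * ((1 / 2 : ℝ) ^ (0 + 1) / (1 - 1 / 2 : ℝ) ^ 2), ?_⟩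
  rintro x ⟨K, m, h, rfl⟩
  exact h.tail (by norm_num) (by norm_num) 0

theorem le_PhiR {a : I → I → ℕ} {K : ℕ} {m : ℕ → I → ℝ} {y : I → ℝ} (h : Feas a K m y) :
    EntR a K m ≤ PhiR a y := by
  exact le_csSup (PhiR_bdd a y) ⟨K, m, h, rfl⟩

theorem PhiR_nonneg {a : I → I → ℕ} {y : I → ℝ} (hy : Kon a y) : 0 ≤ PhiR a y := by
  exact (Feas.one hy).EntR_nonneg.trans (le_PhiR (Feas.one hy))

theorem PhiR_le {a : I → I → ℕ} {y : I → ℝ} (hy : Kon a y) {b : ℝ}
    (h : ∀ (K : ℕ) (m : ℕ → I → ℝ), Feas a K m y → EntR a K m ≤ b) : PhiR a y ≤ b := by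
  refine csSup_le ⟨_, 1, _, Feas.one hy, rfl⟩ ?_
  rintro x ⟨K, m, h1, rfl⟩
  exact h K m h1

theorem exists_Feas_lt {a : I → I → ℕ} {y : I → ℝ} (hy : Kon a y) {b : ℝ} (hb : b < PhiR a y) :
    ∃ (K : ℕ) (m : ℕ → I → ℝ), Feas a K m y ∧ b < EntR a K m := by
  obtain ⟨x, ⟨K, m, h1, rfl⟩, h2⟩ := exists_lt_of_lt_csSup
    (⟨_, 1, _, Feas.one hy, rfl⟩ :
      {x : ℝ | ∃ (K : ℕ) (m : ℕ → I → ℝ), Feas a K m y ∧ x = EntR a K m}.Nonempty) hb
  exact ⟨K, m, h1, h2⟩

theorem Kon.smul {a : I → I → ℕ} {y : I → ℝ} (hy : Kon a y) {t : ℝ} (ht : 0 ≤ t) :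
    Kon a (t • y) := by
  refine ⟨fun i => mul_nonneg ht (hy.1 i), fun i => ?_⟩
  rw [cR_smul]
  exact mul_nonpos_of_nonneg_of_nonpos ht (hy.2 i)

private theorem KH3_cont (a : I → I → ℕ) (i : I) : Continuous fun y : I → ℝ => cR a y i := by
  unfold cR
  exact continuous_finset_sum _ fun j _ => continuous_const.mul (continuous_apply j)

theorem Kon_closed (a : I → I → ℕ) : IsClosed {y : I → ℝ | Kon a y} := by
  have h1 : {y : I → ℝ | Kon a y} = (⋂ i, {y : I → ℝ | 0 ≤ y i}) ∩ ⋂ i, {y : I → ℝ | cR a y i ≤ 0} := by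
    ext y
    simp only [Kon, Set.mem_setOf_eq, Set.mem_inter_iff, Set.mem_iInter]
  rw [h1]
  refine (isClosed_iInter fun i => isClosed_le continuous_const (continuous_apply i)).inter
    (isClosed_iInter fun i => isClosed_le (KH3_cont a i) continuous_const)

theorem PhiR_add {a : I → I → ℕ} {y y' : I → ℝ} (hy : Kon a y) (hy' : Kon a y') :
    PhiR a y + PhiR a y' ≤ PhiR a (y + y') := by
  refine le_of_forall_pos_le_add fun ε hε => ?_
  obtain ⟨K, m, h1, h2⟩ := exists_Feas_lt hy (b := PhiR a y - ε / 2) (by linarith)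
  obtain ⟨K', m', h1', h2'⟩ := exists_Feas_lt hy' (b := PhiR a y' - ε / 2) (by linarith)
  have h3 := h1.enlarge (le_max_left K K')
  have h3' := h1'.enlarge (le_max_right K K')
  have h4 := EntR_add h3 h3'
  have h5 := le_PhiR (h3.add h3')
  rw [EntR_enlarge h1 (le_max_left K K'), EntR_enlarge h1' (le_max_right K K')] at h4
  linarith

theorem PhiR_zero (a : I → I → ℕ) : PhiR a (0 : I → ℝ) = 0 := by
  have hK : Kon a (0 : I → ℝ) := by
    refine ⟨fun i => le_rfl, fun i => ?_⟩
    simp [cR]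
  refine le_antisymm (PhiR_le hK fun K m h => ?_) (PhiR_nonneg hK)
  have h1 : ∀ k ∈ Finset.Icc 1 K, ∀ i, m k i = 0 := by
    intro k hk i
    have h2 := h.mass i
    unfold massR at h2
    have h3 : ∀ l ∈ Finset.Icc 1 K, 0 ≤ (l : ℝ) * m l i :=
      fun l _ => mul_nonneg (Nat.cast_nonneg l) (h.nn l i)
    have h4 := (Finset.sum_eq_zero_iff_of_nonneg h3).1 h2 k hk
    have h5 : (k : ℝ) ≠ 0 := by
      have := (Finset.mem_Icc.1 hk).1
      positivity
    exact (mul_eq_zero.1 h4).resolve_left h5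
  unfold EntR
  refine le_of_eq (Finset.sum_eq_zero fun k hk => Finset.sum_eq_zero fun i _ => ?_)
  rw [h1 k hk i, ent_zero_right]

private theorem KH3_smul_le {a : I → I → ℕ} {y : I → ℝ} (hy : Kon a y) {t : ℝ} (ht : 0 < t) :
    t * PhiR a y ≤ PhiR a (t • y) := by
  have h1 : PhiR a y ≤ PhiR a (t • y) / t := by
    refine PhiR_le hy fun K m h => ?_
    rw [le_div_iff₀ ht, mul_comm, ← EntR_smul h ht.le]
    exact le_PhiR (h.smul ht.le)
  rw [le_div_iff₀ ht] at h1
  linarith

theorem PhiR_smul {a : I → I → ℕ} {y : I → ℝ} (hy : Kon a y) {t : ℝ} (ht : 0 ≤ t) :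
    PhiR a (t • y) = t * PhiR a y := by
  rcases ht.eq_or_lt with rfl | h0
  · rw [zero_smul, PhiR_zero, zero_mul]
  · refine le_antisymm ?_ (KH3_smul_le hy h0)
    have h1 := KH3_smul_le (hy.smul ht) (inv_pos.2 h0)
    rw [inv_smul_smul₀ h0.ne', inv_mul_le_iff₀ h0] at h1
    exact h1

theorem PhiR_lsc (a : I → I → ℕ) (y : I → ℝ) (hy : Kon a y) (ε : ℝ) (hε : 0 < ε) :
    ∃ δ : ℝ, 0 < δ ∧ ∀ z : I → ℝ, Kon a z → dist z y < δ → PhiR a y - ε ≤ PhiR a z := by
  have hΦ := PhiR_nonneg hy
  obtain ⟨η, hη0, hη1, hη⟩ : ∃ η : ℝ, 0 < η ∧ η ≤ 1 ∧ η * PhiR a y ≤ ε := by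
    refine ⟨min 1 (ε / (PhiR a y + 1)), lt_min one_pos (by positivity), min_le_left _ _, ?_⟩
    calc min 1 (ε / (PhiR a y + 1)) * PhiR a y ≤ (ε / (PhiR a y + 1)) * PhiR a y :=
          mul_le_mul_of_nonneg_right (min_le_right _ _) hΦ
      _ ≤ (ε / (PhiR a y + 1)) * (PhiR a y + 1) := by
          apply mul_le_mul_of_nonneg_left (by linarith) (by positivity)
      _ = ε := by field_simp
  have h1 : ∀ᶠ z in nhds y, ∀ i, (0 < y i → (1 - η) * y i < z i) ∧
      (cR a y i < 0 → cR a z i < (1 - η) * cR a y i) := by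
    refine Filter.eventually_all.2 fun i => ?_
    refine Filter.Eventually.and ?_ ?_
    · by_cases h : 0 < y i
      · have h2 : (1 - η) * y i < y i := by nlinarith
        have h3 : ∀ᶠ z in nhds y, (1 - η) * y i < z i :=
          (continuous_apply i).tendsto y |>.eventually_const_lt h2
        filter_upwards [h3] with z hz
        exact fun _ => hz
      · exact Filter.Eventually.of_forall fun z h' => absurd h' h
    · by_cases h : cR a y i < 0
      · have h2 : cR a y i < (1 - η) * cR a y i := by nlinarith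
        have h3 : ∀ᶠ z in nhds y, cR a z i < (1 - η) * cR a y i :=
          (KH3_cont a i).tendsto y |>.eventually_lt_const h2
        filter_upwards [h3] with z hz
        exact fun _ => hz
      · exact Filter.Eventually.of_forall fun z h' => absurd h' h
  obtain ⟨δ, hδ, h2⟩ := Metric.eventually_nhds_iff.1 h1
  refine ⟨δ, hδ, fun z hz hzy => ?_⟩
  have h3 := h2 hzy
  have h4 : Kon a (z - (1 - η) • y) := by
    refine ⟨fun i => ?_, fun i => ?_⟩
    · show 0 ≤ z i - (1 - η) * y i
      rcases (hy.1 i).eq_or_lt with h | h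
      · rw [← h, mul_zero, sub_zero]
        exact hz.1 i
      · have := (h3 i).1 h
        linarith
    · rw [cR_sub, cR_smul]
      rcases (hy.2 i).eq_or_lt with h | h
      · rw [h, mul_zero, sub_zero]
        exact hz.2 i
      · have := (h3 i).2 h
        linarith
  have h5 := PhiR_add (hy.smul (t := 1 - η) (by linarith)) h4
  have h6 : (1 - η) • y + (z - (1 - η) • y) = z := by abel
  rw [h6, PhiR_smul hy (by linarith)] at h5
  have h7 := PhiR_nonneg h4
  have h8 : (1 - η) * PhiR a y = PhiR a y - η * PhiR a y := by ring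
  linarith

end Pool.Agent.H27.KAC

end

section

/-!
KAC module KH4: strict feasibility data for every vector `y` of the real cone (arbitrary symmetric matrix, even diagonal
or at least without entries 1 on the diagonal).

PROOF.  `supp = {i | 0 < y i}`.  `D` = the set of `i ∈ supp` such that `cR a y j = 0` for all `j` reachable from `i` in `supp`
(`Relation.ReflTransGen (fun i j => 0 < a i j ∧ 0 < y j)`).  `Dsep` is clear.  `B` = the set of `i ∈ supp`, `i ∉ D`,
`cR a y i = 0`.  If `i ∈ supp`, `cR a y i = 0` and `a i i ≠ 0` then `a i i = 2` and `i` has no other neighbour in `supp`, so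
`i ∈ D`; hence `a i i = 0` on `B`.
Consider the vectors `u` with `u > 0` on `B`, `u = 0` outside `B`, `cR a u i ≥ 0` for `i ∈ B`.  Example: `u = y` on `B`
(`cR a u i = cR a y i + ∑_(j ∉ B) a i j y j ≥ 0`).  Choose `u` such that `T = {i ∈ B | cR a u i > 0}` has maximal cardinality.
Suppose `Z = B \ T` is not empty.
(i) There are `i ∈ Z`, `j ∈ T` with `a i j > 0`: replace `u` by `u - ε e_j`; `cR a u l` increases by `ε a l j` for `l ≠ j`, and
`cR a u j` decreases by `2 ε`; `u j > 0` since `u > 0` on `B`; for small `ε` the new `T` contains the old `T` and `i`.  Contradiction.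
(ii) Otherwise `Z` and `T` are not adjacent.  Let `z` = `u` restricted to `Z`; `cR a z = 0` on `Z`.  With `v` = `y` restricted to `B`:
`∑_(i ∈ Z) u i * cR a v i = ∑ z i * cR a v i = ∑ v i * cR a z i = ∑_(i ∈ Z) + ∑_(i ∈ T) = 0` (for `i ∈ T` `cR a z i = 0` by
nonadjacency).  As `cR a v i ≥ 0`, `u i > 0` on `Z`, we get `cR a v i = 0` for `i ∈ Z`, so
`∑_(j ∈ supp, j ∉ B) a i j y j = 0`: the elements of `Z` have no neighbours in `supp` outside `B`, nor in `T`; so all vertices
reachable from `Z` are in `Z`, where `cR a y = 0`: `Z ⊆ D`, contradiction.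
-/

set_option autoImplicit false

namespace Pool.Agent.H27.KAC

open scoped BigOperators

variable {I : Type} [Fintype I] [DecidableEq I]

private theorem KH4_cR_eq (a : I → I → ℕ) (x : I → ℝ) (i : I) :
    cR a x i = 2 * x i - ∑ j, (a i j : ℝ) * x j := by
  unfold cR cart
  have h : ∀ j, (((if i = j then (2 : ℤ) else 0) - (a i j : ℤ) : ℤ) : ℝ) * x j =
      (if i = j then 2 * x j else 0) - (a i j : ℝ) * x j := by
    intro j
    split_ifs with hij
    · push_cast; ring
    · push_cast; ring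
  rw [Finset.sum_congr rfl fun j _ => h j, Finset.sum_sub_distrib]
  simp

private theorem KH4_restrict (a : I → I → ℕ) (y : I → ℝ) (B : Finset I) (i : I) (hi : i ∈ B) :
    cR a (fun j => if j ∈ B then y j else 0) i =
      cR a y i + ∑ j, (a i j : ℝ) * (if j ∈ B then 0 else y j) := by
  rw [KH4_cR_eq, KH4_cR_eq]
  have h : ∑ j, (a i j : ℝ) * y j = ∑ j, (a i j : ℝ) * (if j ∈ B then y j else 0) +
      ∑ j, (a i j : ℝ) * (if j ∈ B then 0 else y j) := by
    rw [← Finset.sum_add_distrib]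
    refine Finset.sum_congr rfl fun j _ => ?_
    split_ifs <;> ring
  simp only [hi, if_true]
  rw [h]
  ring

/-- the step: from a good `u` with a nonempty zero set get one with a smaller zero set. -/
private theorem KH4_step (a : I → I → ℕ) (hs : ∀ i j, a i j = a j i)
    (y : I → ℝ) (hy : Kon a y) (B : Finset I)
    (hB0 : ∀ i ∈ B, cR a y i = 0)
    (hBr : ∀ Z : Finset I, Z ⊆ B → (∀ i ∈ Z, ∀ j, 0 < a i j → 0 < y j → j ∈ Z) → Z = ∅)
    (u : I → ℝ) (h1 : ∀ i ∈ B, 0 < u i) (h2 : ∀ i, i ∉ B → u i = 0)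
    (h3 : ∀ i ∈ B, 0 ≤ cR a u i) (hne : (B.filter (fun i => cR a u i = 0)).Nonempty) :
    ∃ u' : I → ℝ, (∀ i ∈ B, 0 < u' i) ∧ (∀ i, i ∉ B → u' i = 0) ∧ (∀ i ∈ B, 0 ≤ cR a u' i) ∧
      (B.filter (fun i => cR a u' i = 0)).card < (B.filter (fun i => cR a u i = 0)).card := by
  classical
  by_cases hadj : ∃ i ∈ B, cR a u i = 0 ∧ ∃ j ∈ B, cR a u j ≠ 0 ∧ 0 < a i j
  · -- case (i)
    obtain ⟨i, hiB, hi0, j, hjB, hj0, haij⟩ := hadj
    have hjpos : 0 < cR a u j := lt_of_le_of_ne (h3 j hjB) (Ne.symm hj0)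
    have huj := h1 j hjB
    obtain ⟨ε, hε, hε1, hε2⟩ : ∃ ε : ℝ, 0 < ε ∧ ε < u j ∧ 2 * ε < cR a u j := by
      refine ⟨min (u j / 2) (cR a u j / 4), by positivity, ?_, ?_⟩
      · exact lt_of_le_of_lt (min_le_left _ _) (by linarith)
      · have := min_le_right (u j / 2) (cR a u j / 4)
        linarith
    have hcr : ∀ l, cR a (fun k => u k - (if k = j then ε else 0)) l =
        cR a u l - 2 * (if l = j then ε else 0) + (a l j : ℝ) * ε := by
      intro l
      rw [KH4_cR_eq, KH4_cR_eq]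
      have : ∑ k, (a l k : ℝ) * (u k - (if k = j then ε else 0)) =
          ∑ k, (a l k : ℝ) * u k - (a l j : ℝ) * ε := by
        simp [mul_sub, Finset.sum_sub_distrib]
      rw [this]
      ring
    have hij : i ≠ j := by
      rintro rfl
      exact hj0 hi0
    refine ⟨fun k => u k - (if k = j then ε else 0), ?_, ?_, ?_, ?_⟩
    · intro k hk
      by_cases hkj : k = j
      · subst hkj
        simp only [if_true]
        linarith
      · simp only [hkj, if_false, sub_zero]
        exact h1 k hk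
    · intro k hk
      have hkj : k ≠ j := by
        rintro rfl
        exact hk hjB
      simp only [hkj, if_false, sub_zero]
      exact h2 k hk
    · intro k hk
      rw [hcr]
      have hak : (0 : ℝ) ≤ (a k j : ℝ) * ε := by positivity
      by_cases hkj : k = j
      · subst hkj
        simp only [if_true]
        linarith
      · simp only [hkj, if_false, mul_zero, sub_zero]
        have := h3 k hk
        linarith
    · apply Finset.card_lt_card
      rw [Finset.ssubset_iff_of_subset]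
      · refine ⟨i, ?_, ?_⟩
        · simp [hiB, hi0]
        · intro hmem
          rw [Finset.mem_filter] at hmem
          have h := hmem.2
          rw [hcr, hi0] at h
          simp only [hij, if_false, mul_zero, sub_zero, zero_add] at h
          have : (0 : ℝ) < (a i j : ℝ) * ε := by
            have : (0 : ℝ) < (a i j : ℝ) := by exact_mod_cast haij
            positivity
          linarith
      · intro k hk
        rw [Finset.mem_filter] at hk ⊢
        refine ⟨hk.1, ?_⟩
        have h := hk.2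
        rw [hcr] at h
        have hak : (0 : ℝ) ≤ (a k j : ℝ) * ε := by positivity
        by_cases hkj : k = j
        · subst hkj
          simp only [if_true] at h
          linarith
        · simp only [hkj, if_false, mul_zero, sub_zero] at h
          have := h3 k hk.1
          linarith
  · -- case (ii)
    exfalso
    set Z : Finset I := B.filter (fun i => cR a u i = 0) with hZ
    have hZB : Z ⊆ B := Finset.filter_subset _ _
    have hZmem : ∀ i, i ∈ Z ↔ i ∈ B ∧ cR a u i = 0 := fun i => by rw [hZ, Finset.mem_filter]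
    have hna : ∀ i ∈ Z, ∀ j ∈ B, j ∉ Z → a i j = 0 := by
      intro i hi j hj hjZ
      by_contra hc
      refine hadj ⟨i, hZB hi, ((hZmem i).1 hi).2, j, hj, ?_, Nat.pos_of_ne_zero hc⟩
      intro h0
      exact hjZ ((hZmem j).2 ⟨hj, h0⟩)
    let z : I → ℝ := fun j => if j ∈ Z then u j else 0
    let v : I → ℝ := fun j => if j ∈ B then y j else 0
    have hz : ∀ i ∈ B, cR a z i = 0 := by
      intro i hi
      by_cases hiZ : i ∈ Z
      · have h := KH4_restrict a u Z i hiZ
        have h0 : ∑ j, (a i j : ℝ) * (if j ∈ Z then 0 else u j) = 0 := by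
          refine Finset.sum_eq_zero fun j _ => ?_
          split_ifs with hjZ
          · simp
          · by_cases hjB : j ∈ B
            · rw [hna i hiZ j hjB hjZ]
              simp
            · rw [h2 j hjB]
              simp
        rw [h0, ((hZmem i).1 hiZ).2, add_zero] at h
        exact h
      · rw [KH4_cR_eq]
        have hzi : z i = 0 := by simp [z, hiZ]
        rw [hzi]
        have : ∑ j, (a i j : ℝ) * z j = 0 := by
          refine Finset.sum_eq_zero fun j _ => ?_
          by_cases hjZ : j ∈ Z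
          · rw [hs i j, hna j hjZ i hi hiZ]
            simp
          · simp [z, hjZ]
        rw [this]
        simp
    have hsum : ∑ i, z i * cR a v i = 0 := by
      rw [cR_symm a hs z v]
      refine Finset.sum_eq_zero fun i _ => ?_
      by_cases hi : i ∈ B
      · rw [hz i hi, mul_zero]
      · simp [v, hi]
    have hv : ∀ i ∈ B, cR a v i = ∑ j, (a i j : ℝ) * (if j ∈ B then 0 else y j) := by
      intro i hi
      have h := KH4_restrict a y B i hi
      rw [hB0 i hi, zero_add] at h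
      exact h
    have hvnn : ∀ i ∈ B, 0 ≤ cR a v i := by
      intro i hi
      rw [hv i hi]
      refine Finset.sum_nonneg fun j _ => ?_
      split_ifs
      · simp
      · exact mul_nonneg (Nat.cast_nonneg _) (hy.1 j)
    have hterm : ∀ i ∈ Finset.univ, z i * cR a v i = 0 := by
      rw [Finset.sum_eq_zero_iff_of_nonneg] at hsum
      · exact hsum
      · intro i _
        by_cases hiZ : i ∈ Z
        · refine mul_nonneg ?_ (hvnn i (hZB hiZ))
          simp only [z, hiZ, if_true]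
          exact (h1 i (hZB hiZ)).le
        · simp [z, hiZ]
    have hvZ : ∀ i ∈ Z, ∀ j, j ∉ B → 0 < y j → a i j = 0 := by
      intro i hi j hj hyj
      have h := hterm i (Finset.mem_univ i)
      have hzi : z i = u i := by simp [z, hi]
      rw [hzi, mul_eq_zero] at h
      rcases h with h | h
      · exact absurd h (h1 i (hZB hi)).ne'
      · rw [hv i (hZB hi), Finset.sum_eq_zero_iff_of_nonneg] at h
        · have h' := h j (Finset.mem_univ j)
          simp only [hj, if_false] at h'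
          rw [mul_eq_zero] at h'
          rcases h' with h' | h'
          · exact_mod_cast h'
          · exact absurd h' hyj.ne'
        · intro k _
          split_ifs
          · simp
          · exact mul_nonneg (Nat.cast_nonneg _) (hy.1 k)
    have hZe : Z = ∅ := by
      refine hBr Z hZB fun i hi j haij hyj => ?_
      by_contra hjZ
      by_cases hjB : j ∈ B
      · rw [hna i hi j hjB hjZ] at haij
        exact absurd haij (lt_irrefl 0)
      · rw [hvZ i hi j hjB hyj] at haij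
        exact absurd haij (lt_irrefl 0)
    rw [hZe] at hne
    exact Finset.not_nonempty_empty hne

theorem strict_exists (a : I → I → ℕ) (hs : ∀ i j, a i j = a j i) (hd : ∀ i, a i i ≠ 1)
    (y : I → ℝ) (hy : Kon a y) : ∃ (D : Finset I) (u : I → ℝ), StrictData a y D u := by
  classical
  let R : I → I → Prop := fun p q => 0 < a p q ∧ 0 < y q
  let D : Finset I := Finset.univ.filter
    (fun i => 0 < y i ∧ ∀ j, Relation.ReflTransGen R i j → cR a y j = 0)
  have hDmem : ∀ i, i ∈ D ↔ 0 < y i ∧ ∀ j, Relation.ReflTransGen R i j → cR a y j = 0 := by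
    intro i
    simp [D]
  have hDclosed : ∀ i ∈ D, ∀ j, 0 < a i j → 0 < y j → j ∈ D := by
    intro i hi j haij hyj
    rw [hDmem] at hi ⊢
    exact ⟨hyj, fun k hk => hi.2 k (Relation.ReflTransGen.head ⟨haij, hyj⟩ hk)⟩
  let B : Finset I := Finset.univ.filter (fun i => 0 < y i ∧ i ∉ D ∧ cR a y i = 0)
  have hBmem : ∀ i, i ∈ B ↔ 0 < y i ∧ i ∉ D ∧ cR a y i = 0 := by
    intro i
    simp [B]
  have hBr : ∀ Z : Finset I, Z ⊆ B → (∀ i ∈ Z, ∀ j, 0 < a i j → 0 < y j → j ∈ Z) → Z = ∅ := by
    intro Z hZB hZc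
    by_contra hne
    obtain ⟨i, hi⟩ := Finset.nonempty_iff_ne_empty.2 hne
    have hiB := (hBmem i).1 (hZB hi)
    apply hiB.2.1
    rw [hDmem]
    refine ⟨hiB.1, fun j hj => ?_⟩
    have hjZ : j ∈ Z := by
      induction hj with
      | refl => exact hi
      | tail _ hbc ih =>
        have hbc' : 0 < a _ _ ∧ 0 < y _ := hbc
        exact hZc _ ih _ hbc'.1 hbc'.2
    exact ((hBmem j).1 (hZB hjZ)).2.2
  have hBy : ∀ i ∈ B, 0 < y i := fun i hi => ((hBmem i).1 hi).1
  have hB0 : ∀ i ∈ B, cR a y i = 0 := fun i hi => ((hBmem i).1 hi).2.2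
  have key : ∀ n : ℕ, ∀ u : I → ℝ, (∀ i ∈ B, 0 < u i) → (∀ i, i ∉ B → u i = 0) →
      (∀ i ∈ B, 0 ≤ cR a u i) → (B.filter (fun i => cR a u i = 0)).card = n →
      ∃ u' : I → ℝ, (∀ i ∈ B, 0 < u' i) ∧ (∀ i, i ∉ B → u' i = 0) ∧
        (∀ i ∈ B, 0 < cR a u' i) := by
    intro n
    induction n using Nat.strong_induction_on with
    | _ n ih =>
      intro u h1 h2 h3 hn
      by_cases hne : (B.filter (fun i => cR a u i = 0)).Nonempty
      · obtain ⟨u', g1, g2, g3, g4⟩ := KH4_step a hs y hy B hB0 hBr u h1 h2 h3 hne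
        rw [hn] at g4
        exact ih _ g4 u' g1 g2 g3 rfl
      · refine ⟨u, h1, h2, fun i hi => lt_of_le_of_ne (h3 i hi) fun h0 => hne ⟨i, ?_⟩⟩
        rw [Finset.mem_filter]
        exact ⟨hi, h0.symm⟩
  obtain ⟨u, g1, g2, g3⟩ := key _ (fun j => if j ∈ B then y j else 0)
    (fun i hi => by
      simp only [hi, if_true]
      exact hBy i hi)
    (fun i hi => by simp [hi])
    (fun i hi => by
      rw [KH4_restrict a y B i hi, hB0 i hi, zero_add]
      refine Finset.sum_nonneg fun j _ => ?_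
      split_ifs
      · simp
      · exact mul_nonneg (Nat.cast_nonneg _) (hy.1 j))
    rfl
  refine ⟨D, u, ?_, ?_, ?_, ?_, ?_, ?_, ?_⟩
  · exact fun i hi => ((hDmem i).1 hi).1
  · exact fun i hi => ((hDmem i).1 hi).2 i Relation.ReflTransGen.refl
  · intro i hi j hj hyj
    by_contra hc
    exact hj (hDclosed i hi j (Nat.pos_of_ne_zero hc) hyj)
  · intro i
    by_cases hi : i ∈ B
    · exact (g1 i hi).le
    · exact (g2 i hi).ge
  · intro i hi
    apply g2
    intro hiB
    exact absurd (hBy i hiB) (by rw [hi]; exact lt_irrefl 0)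
  · intro i hi
    apply g2
    intro hiB
    exact ((hBmem i).1 hiB).2.1 hi
  · intro i hiD hyi hi0
    exact g3 i ((hBmem i).2 ⟨hyi, hiD, hi0⟩)

end Pool.Agent.H27.KAC

end

section

/-!
KAC module KH5: limits of multipartitions along an ultrafilter.

PROOF.  Fix an ultrafilter `U ≤ atTop` on the natural numbers (`Filter.hyperfilter`).  All `m n l i` (`l ≥ 1`) are in `[0, M]`, and
all vacancy numbers are in `[0, M']` (`Feas.mass`, `Feas.vac_le`, `z` is bounded), so `m' k i = lim_U (m n k i)` and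
`P k i = lim_U (vacR a (K n) (m n) k i)` exist (compactness of closed intervals; `m' 0 i = 0`, or any value `≥ 0`).
* `mass`: `massR L (m n) i ≤ z n i` for all `L` (`out` for `l > K n`).
* `rel`: for `1 ≤ k ≤ L` and `K n` replaced by any larger number:
  `vacR a (K n) (m n) k i = vacR a L (m n) k i - k * cR a (b n) i`, `b n j = ∑_(l > L) m n l j`, and for every `L' > L`
  `b n j ≤ ∑_(L < l ≤ L') m n l j + z n j / L'`, so in the limit `|P k i - vacR a L m' k i| ≤ c L (∑_(L < l ≤ L') ∑_j m' l j + c'/L')`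
  for all `L'`, hence `≤ c ∑_j ∑_(l > L) l m' l j` (let `L'` tend to infinity), which tends to zero as `L → ∞`, because
  `∑_l l m' l j` converges by `mass`.
* entropy: `ent` is continuous, so `∑_(k ≤ L) ∑_i ent` converges along `U` for fixed `L`, and the tails `k > L` are uniformly
  small by `Feas.tail` (first choose `x` close to 1, then `L0`).
-/

set_option autoImplicit false

namespace Pool.Agent.H27.KAC

open scoped BigOperators
open Filter Topology

variable {I : Type} [Fintype I] [DecidableEq I]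

theorem KH5_lim (U : Ultrafilter ℕ) (f : ℕ → ℝ) (B : ℝ)
    (h : ∀ᶠ n in (U : Filter ℕ), 0 ≤ f n ∧ f n ≤ B) :
    ∃ x : ℝ, 0 ≤ x ∧ Tendsto f (U : Filter ℕ) (𝓝 x) := by
  obtain ⟨x, hx, hle⟩ := (isCompact_Icc (a := (0 : ℝ)) (b := B)).ultrafilter_le_nhds (U.map f)
    (by rw [le_principal_iff]; exact h)
  exact ⟨x, hx.1, hle⟩

theorem KH5_entT0 {p q : ℝ} : Tendsto (fun p : ℝ × ℝ => ent p.1 p.2) (𝓝 (p, q))
    (𝓝 (ent p q)) := ent_continuous.tendsto (p, q)

theorem KH5_entT {U : Filter ℕ} {f g : ℕ → ℝ} {p q : ℝ} (hf : Tendsto f U (𝓝 p))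
    (hg : Tendsto g U (𝓝 q)) : Tendsto (fun n => ent (f n) (g n)) U (𝓝 (ent p q)) := by
  have h3 := hf.prodMk_nhds hg
  have h4 := Tendsto.comp (KH5_entT0 (p := p) (q := q)) h3
  exact h4

theorem KH5_Icc (K : ℕ) : Finset.Icc 1 K = Finset.Ioc 0 K := by
  ext l
  rw [Finset.mem_Icc, Finset.mem_Ioc]
  omega

theorem KH5_vac_out {a : I → I → ℕ} {K K' : ℕ} {m : ℕ → I → ℝ} {y : I → ℝ}
    (h : Feas a K m y) (hK : K ≤ K') (k : ℕ) (i : I) : vacR a K' m k i = vacR a K m k i := by
  unfold vacR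
  symm
  apply Finset.sum_subset (Finset.Icc_subset_Icc_right hK)
  intro l hl hnl
  have h1 : K < l := by
    rw [Finset.mem_Icc] at hl hnl
    omega
  have h2 : cR a (m l) i = 0 := by
    unfold cR
    apply Finset.sum_eq_zero
    intro j _
    rw [h.out l j h1, mul_zero]
  rw [h2]
  simp

theorem KH5_mass_le {a : I → I → ℕ} {K : ℕ} {m : ℕ → I → ℝ} {y : I → ℝ}
    (h : Feas a K m y) (L : ℕ) (i : I) : massR L m i ≤ y i := by
  have h1 := h.enlarge (le_max_left K L)
  rw [← h1.mass i]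
  unfold massR
  apply Finset.sum_le_sum_of_subset_of_nonneg (Finset.Icc_subset_Icc_right (le_max_right K L))
  intro l _ _
  exact mul_nonneg (Nat.cast_nonneg l) (h.nn l i)

theorem KH5_m_le {a : I → I → ℕ} {K : ℕ} {m : ℕ → I → ℝ} {y : I → ℝ}
    (h : Feas a K m y) (l : ℕ) (hl : 1 ≤ l) (i : I) : m l i ≤ y i := by
  refine le_trans ?_ (KH5_mass_le h l i)
  unfold massR
  have h1 : (l : ℝ) * m l i ≤ ∑ l' ∈ Finset.Icc 1 l, (l' : ℝ) * m l' i := by
    apply Finset.single_le_sum (f := fun l' : ℕ => (l' : ℝ) * m l' i)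
    · intro l' _
      exact mul_nonneg (Nat.cast_nonneg l') (h.nn l' i)
    · rw [Finset.mem_Icc]
      omega
  refine le_trans ?_ h1
  have h2 : (1 : ℝ) ≤ l := by exact_mod_cast hl
  have h3 := h.nn l i
  nlinarith

theorem KH5_cR_abs (a : I → I → ℕ) (w : I → ℝ) (hw : ∀ j, 0 ≤ w j) (i : I) :
    |cR a w i| ≤ ∑ j, |(cart a i j : ℝ)| * w j := by
  unfold cR
  refine (Finset.abs_sum_le_sum_abs _ _).trans (Finset.sum_le_sum ?_)
  intro j _
  rw [abs_mul, abs_of_nonneg (hw j)]

theorem KH5_mass_sub (m : ℕ → I → ℝ) {L L' : ℕ} (hL : L ≤ L') (j : I) :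
    massR L' m j - massR L m j = ∑ l ∈ Finset.Ioc L L', (l : ℝ) * m l j := by
  unfold massR
  rw [KH5_Icc, KH5_Icc, ← Finset.sum_Ioc_consecutive (fun l : ℕ => (l : ℝ) * m l j) (Nat.zero_le L) hL]
  ring

theorem KH5_diff {a : I → I → ℕ} {K : ℕ} {m : ℕ → I → ℝ} {y : I → ℝ}
    (h : Feas a K m y) {L L' : ℕ} (hL : L ≤ L') (hL' : 0 < L') (k : ℕ) (hk : k ≤ L) (i : I) :
    |vacR a K m k i - vacR a L m k i| ≤
      ∑ j, |(cart a i j : ℝ)| * ((massR L' m j - massR L m j) + (L : ℝ) / L' * y j) := by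
  classical
  set K' := max K L' with hK'
  have hKK : K ≤ K' := le_max_left _ _
  have hLK : L' ≤ K' := le_max_right _ _
  have hF := h.enlarge hKK
  have hLpos : (0 : ℝ) < L' := by exact_mod_cast hL'
  have h1 : vacR a K m k i - vacR a L m k i
      = ∑ l ∈ Finset.Ioc L K', ((min k l : ℕ) : ℝ) * (-cR a (m l) i) := by
    rw [← KH5_vac_out h hKK k i]
    unfold vacR
    rw [KH5_Icc, KH5_Icc, ← Finset.sum_Ioc_consecutive
      (fun l : ℕ => ((min k l : ℕ) : ℝ) * (-cR a (m l) i)) (Nat.zero_le L) (hL.trans hLK)]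
    ring
  have hw : ∀ l, 0 ≤ ∑ j, |(cart a i j : ℝ)| * m l j := fun l =>
    Finset.sum_nonneg fun j _ => mul_nonneg (abs_nonneg _) (h.nn l j)
  have hterm : ∀ l, |((min k l : ℕ) : ℝ) * (-cR a (m l) i)|
      ≤ (k : ℝ) * ∑ j, |(cart a i j : ℝ)| * m l j := by
    intro l
    rw [abs_mul, abs_neg, Nat.abs_cast]
    apply mul_le_mul _ (KH5_cR_abs a (m l) (h.nn l) i) (abs_nonneg _) (Nat.cast_nonneg k)
    exact_mod_cast min_le_left k l
  rw [h1]
  refine (Finset.abs_sum_le_sum_abs _ _).trans ?_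
  refine (Finset.sum_le_sum fun l _ => hterm l).trans ?_
  rw [← Finset.sum_Ioc_consecutive (fun l : ℕ => (k : ℝ) * ∑ j, |(cart a i j : ℝ)| * m l j) hL hLK]
  have hA : ∑ l ∈ Finset.Ioc L L', (k : ℝ) * ∑ j, |(cart a i j : ℝ)| * m l j
      ≤ ∑ j, |(cart a i j : ℝ)| * (massR L' m j - massR L m j) := by
    calc ∑ l ∈ Finset.Ioc L L', (k : ℝ) * ∑ j, |(cart a i j : ℝ)| * m l j
        ≤ ∑ l ∈ Finset.Ioc L L', (l : ℝ) * ∑ j, |(cart a i j : ℝ)| * m l j := by
          apply Finset.sum_le_sum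
          intro l hl
          apply mul_le_mul_of_nonneg_right _ (hw l)
          rw [Finset.mem_Ioc] at hl
          exact_mod_cast (by omega : k ≤ l)
      _ = ∑ j, |(cart a i j : ℝ)| * (massR L' m j - massR L m j) := by
          simp_rw [KH5_mass_sub m hL, Finset.mul_sum]
          rw [Finset.sum_comm]
          exact Finset.sum_congr rfl fun j _ => Finset.sum_congr rfl fun l _ => by ring
  have hB : ∑ l ∈ Finset.Ioc L' K', (k : ℝ) * ∑ j, |(cart a i j : ℝ)| * m l j
      ≤ ∑ j, |(cart a i j : ℝ)| * ((L : ℝ) / L' * y j) := by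
    calc ∑ l ∈ Finset.Ioc L' K', (k : ℝ) * ∑ j, |(cart a i j : ℝ)| * m l j
        ≤ ∑ l ∈ Finset.Ioc L' K', ((L : ℝ) / L' * l) * ∑ j, |(cart a i j : ℝ)| * m l j := by
          apply Finset.sum_le_sum
          intro l hl
          apply mul_le_mul_of_nonneg_right _ (hw l)
          rw [Finset.mem_Ioc] at hl
          have h2 : (k : ℝ) ≤ L := by exact_mod_cast hk
          have h3 : (L' : ℝ) ≤ l := by exact_mod_cast hl.1.le
          have h4 : (L : ℝ) / L' * L' = L := by field_simp
          have h5 : (0 : ℝ) ≤ (L : ℝ) / L' := by positivity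
          nlinarith
      _ = ∑ j, |(cart a i j : ℝ)| * ((L : ℝ) / L' * (massR K' m j - massR L' m j)) := by
          simp_rw [KH5_mass_sub m hLK, Finset.mul_sum]
          rw [Finset.sum_comm]
          exact Finset.sum_congr rfl fun j _ => Finset.sum_congr rfl fun l _ => by ring
      _ ≤ ∑ j, |(cart a i j : ℝ)| * ((L : ℝ) / L' * y j) := by
          apply Finset.sum_le_sum
          intro j _
          apply mul_le_mul_of_nonneg_left _ (abs_nonneg _)
          apply mul_le_mul_of_nonneg_left _ (by positivity)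
          rw [hF.mass j]
          have : 0 ≤ massR L' m j := by
            unfold massR
            exact Finset.sum_nonneg fun l _ => mul_nonneg (Nat.cast_nonneg l) (h.nn l j)
          linarith
  calc _ ≤ ∑ j, |(cart a i j : ℝ)| * (massR L' m j - massR L m j)
        + ∑ j, |(cart a i j : ℝ)| * ((L : ℝ) / L' * y j) := add_le_add hA hB
    _ = _ := by
      rw [← Finset.sum_add_distrib]
      exact Finset.sum_congr rfl fun j _ => by ring

theorem KH5_tail {m : ℕ → I → ℝ} (hm : ∀ l i, 0 ≤ m l i) {y : I → ℝ}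
    (hy : ∀ L i, massR L m i ≤ y i) (δ : ℝ) (hδ : 0 < δ) :
    ∃ L0 : ℕ, ∀ L L', L0 ≤ L → L ≤ L' → ∀ j, massR L' m j - massR L m j ≤ δ := by
  have h1 : ∀ j : I, ∃ L0 : ℕ, ∀ L L', L0 ≤ L → L ≤ L' → massR L' m j - massR L m j ≤ δ := by
    intro j
    have hmono : Monotone (fun L => massR L m j) := by
      intro L L' hL
      have h2 := KH5_mass_sub m hL j
      have h3 : 0 ≤ ∑ l ∈ Finset.Ioc L L', (l : ℝ) * m l j :=
        Finset.sum_nonneg fun l _ => mul_nonneg (Nat.cast_nonneg l) (hm l j)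
      show massR L m j ≤ massR L' m j
      linarith
    have hbdd : BddAbove (Set.range (fun L => massR L m j)) := by
      refine ⟨y j, ?_⟩
      rintro _ ⟨L, rfl⟩
      exact hy L j
    have ht := tendsto_atTop_ciSup hmono hbdd
    set s := ⨆ L, massR L m j with hs
    have h4 : ∀ᶠ L in atTop, s - δ < massR L m j :=
      ht.eventually (lt_mem_nhds (by linarith))
    obtain ⟨L0, hL0⟩ := eventually_atTop.1 h4
    refine ⟨L0, fun L L' hL hLL => ?_⟩
    have h5 := hL0 L hL
    have h6 : massR L' m j ≤ s := le_ciSup hbdd L'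
    linarith
  choose f hf using h1
  refine ⟨∑ j, f j, fun L L' hL hLL j => hf j L L' (le_trans ?_ hL) hLL⟩
  exact Finset.single_le_sum (f := f) (fun _ _ => Nat.zero_le _) (Finset.mem_univ j)

theorem limData_exists (a : I → I → ℕ) (y : I → ℝ) (z : ℕ → I → ℝ)
    (hz : Tendsto z atTop (𝓝 y)) (K : ℕ → ℕ) (m : ℕ → ℕ → I → ℝ)
    (hm : ∀ n, Feas a (K n) (m n) (z n)) (E : ℝ) (hE : ∀ n, E ≤ EntR a (K n) (m n)) :
    ∃ P m' : ℕ → I → ℝ, LimData a y P m' ∧ ∀ ε : ℝ, 0 < ε → ∃ L0 : ℕ, ∀ L, L0 ≤ L →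
      E - ε ≤ ∑ k ∈ Finset.Icc 1 L, ∑ i, ent (P k i) (m' k i) := by
  classical
  let U : Ultrafilter ℕ := Filter.hyperfilter ℕ
  have hU : (U : Filter ℕ) ≤ atTop := Nat.hyperfilter_le_atTop
  have hzi : ∀ i, Tendsto (fun n => z n i) (U : Filter ℕ) (𝓝 (y i)) := fun i =>
    ((tendsto_pi_nhds.1 hz) i).mono_left hU
  have hzb : ∀ i, ∀ᶠ n in (U : Filter ℕ), z n i ≤ y i + 1 := fun i =>
    ((hzi i).eventually (gt_mem_nhds (by linarith : y i < y i + 1))).mono fun n hn => hn.le
  have hM : ∀ k i, ∃ x : ℝ, 0 ≤ x ∧ (1 ≤ k → Tendsto (fun n => m n k i) (U : Filter ℕ) (𝓝 x)) := by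
    intro k i
    by_cases hk : 1 ≤ k
    · obtain ⟨x, hx0, hx⟩ := KH5_lim U (fun n => m n k i) (y i + 1) (by
        filter_upwards [hzb i] with n hn
        exact ⟨(hm n).nn k i, (KH5_m_le (hm n) k hk i).trans hn⟩)
      exact ⟨x, hx0, fun _ => hx⟩
    · exact ⟨0, le_rfl, fun h => absurd h hk⟩
  have hP : ∀ k i, ∃ x : ℝ, 0 ≤ x ∧
      Tendsto (fun n => vacR a (K n) (m n) k i) (U : Filter ℕ) (𝓝 x) := by
    intro k i
    apply KH5_lim U _ (∑ j, (a i j : ℝ) * (y j + 1))
    have h1 : ∀ᶠ n in (U : Filter ℕ), ∀ j, z n j ≤ y j + 1 := eventually_all.2 hzb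
    filter_upwards [h1] with n hn
    refine ⟨(hm n).vac k i, ((hm n).vac_le k i).trans (Finset.sum_le_sum fun j _ => ?_)⟩
    exact mul_le_mul_of_nonneg_left (hn j) (Nat.cast_nonneg _)
  choose m' hm'0 hm' using hM
  choose P hP0 hPt using hP
  have hmassT : ∀ L i, Tendsto (fun n => massR L (m n) i) (U : Filter ℕ) (𝓝 (massR L m' i)) := by
    intro L i
    unfold massR
    apply tendsto_finsetSum
    intro l hl
    exact (hm' l i (Finset.mem_Icc.1 hl).1).const_mul _
  have hmass : ∀ L i, massR L m' i ≤ y i := fun L i =>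
    le_of_tendsto_of_tendsto' (hmassT L i) (hzi i) fun n => KH5_mass_le (hm n) L i
  have hvacT : ∀ L k i, Tendsto (fun n => vacR a L (m n) k i) (U : Filter ℕ)
      (𝓝 (vacR a L m' k i)) := by
    intro L k i
    unfold vacR
    apply tendsto_finsetSum
    intro l hl
    apply Tendsto.const_mul
    apply Tendsto.neg
    unfold cR
    apply tendsto_finsetSum
    intro j _
    exact (hm' l j (Finset.mem_Icc.1 hl).1).const_mul _
  refine ⟨P, m', ⟨hm'0, hP0, hmass, ?_⟩, ?_⟩
  · -- rel
    intro ε hε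
    set C : ℝ := 1 + ∑ i, ∑ j, |(cart a i j : ℝ)| with hC
    have hC1 : 0 < C := by
      have : 0 ≤ ∑ i, ∑ j, |(cart a i j : ℝ)| :=
        Finset.sum_nonneg fun i _ => Finset.sum_nonneg fun j _ => abs_nonneg _
      linarith
    set δ : ℝ := ε / (2 * C) with hδ
    have hδ0 : 0 < δ := by positivity
    obtain ⟨L0, hL0⟩ := KH5_tail hm'0 hmass δ hδ0
    refine ⟨L0, fun L hL k hk1 hkL i => ?_⟩
    set Y : ℝ := ∑ j, |y j| with hY
    have hYj : ∀ j, y j ≤ Y := fun j => (le_abs_self _).trans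
      (Finset.single_le_sum (f := fun j => |y j|) (fun _ _ => abs_nonneg _) (Finset.mem_univ j))
    have hY0 : 0 ≤ Y := Finset.sum_nonneg fun _ _ => abs_nonneg _
    obtain ⟨N, hN⟩ := exists_nat_gt ((L : ℝ) * Y / δ)
    set L' := max (N + 1) L with hL'
    have hL'1 : 0 < L' := lt_of_lt_of_le (Nat.succ_pos N) (le_max_left _ _)
    have hLL' : L ≤ L' := le_max_right _ _
    have hlim : |P k i - vacR a L m' k i| ≤
        ∑ j, |(cart a i j : ℝ)| * ((massR L' m' j - massR L m' j) + (L : ℝ) / L' * y j) := by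
      have ht1 : Tendsto (fun n => |vacR a (K n) (m n) k i - vacR a L (m n) k i|) (U : Filter ℕ)
          (𝓝 |P k i - vacR a L m' k i|) := ((hPt k i).sub (hvacT L k i)).abs
      have ht2 : Tendsto (fun n => ∑ j, |(cart a i j : ℝ)| *
          ((massR L' (m n) j - massR L (m n) j) + (L : ℝ) / L' * z n j)) (U : Filter ℕ)
          (𝓝 (∑ j, |(cart a i j : ℝ)| *
            ((massR L' m' j - massR L m' j) + (L : ℝ) / L' * y j))) := by
        apply tendsto_finsetSum
        intro j _
        apply Tendsto.const_mul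
        exact ((hmassT L' j).sub (hmassT L j)).add ((hzi j).const_mul _)
      exact le_of_tendsto_of_tendsto' ht1 ht2 fun n => KH5_diff (hm n) hLL' hL'1 k hkL i
    refine hlim.trans ?_
    have hL'pos : (0 : ℝ) < L' := by exact_mod_cast hL'1
    have hq : (L : ℝ) / L' * Y ≤ δ := by
      have h1 : (N : ℝ) + 1 ≤ L' := by exact_mod_cast le_max_left (N + 1) L
      have h2 : (L : ℝ) * Y < δ * L' := by
        have h3 : (L : ℝ) * Y / δ < L' := by linarith
        rw [div_lt_iff₀ hδ0] at h3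
        linarith
      rw [div_mul_eq_mul_div, div_le_iff₀ hL'pos]
      linarith
    have hterm : ∀ j, |(cart a i j : ℝ)| *
        ((massR L' m' j - massR L m' j) + (L : ℝ) / L' * y j)
        ≤ |(cart a i j : ℝ)| * (2 * δ) := by
      intro j
      apply mul_le_mul_of_nonneg_left _ (abs_nonneg _)
      have h1 := hL0 L L' hL hLL' j
      have h2 : (L : ℝ) / L' * y j ≤ (L : ℝ) / L' * Y :=
        mul_le_mul_of_nonneg_left (hYj j) (by positivity)
      linarith
    refine (Finset.sum_le_sum fun j _ => hterm j).trans ?_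
    rw [← Finset.sum_mul]
    have h3 : ∑ j, |(cart a i j : ℝ)| ≤ C := by
      have h4 : ∑ j, |(cart a i j : ℝ)| ≤ ∑ i, ∑ j, |(cart a i j : ℝ)| :=
        Finset.single_le_sum (f := fun i => ∑ j, |(cart a i j : ℝ)|)
          (fun _ _ => Finset.sum_nonneg fun _ _ => abs_nonneg _) (Finset.mem_univ i)
      linarith
    calc (∑ j, |(cart a i j : ℝ)|) * (2 * δ) ≤ C * (2 * δ) :=
          mul_le_mul_of_nonneg_right h3 (by positivity)
      _ = ε := by
          rw [hδ]
          field_simp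
  · -- entropy
    intro ε hε
    set Y : ℝ := ∑ i, y i with hY
    set A : ℝ := ∑ i, ∑ j, (a i j : ℝ) * y j with hA
    -- the inequality in the limit
    have hlim : ∀ (x : ℝ), 0 < x → x < 1 → ∀ L : ℕ,
        E ≤ (∑ k ∈ Finset.Icc 1 L, ∑ i, ent (P k i) (m' k i)) +
          (Y * (-Real.log x) + A * (x ^ (L + 1) / (1 - x) ^ 2)) := by
      intro x hx0 hx1 L
      have ht1 : Tendsto (fun n => (∑ k ∈ Finset.Icc 1 L, ∑ i,
          ent (vacR a (K n) (m n) k i) (m n k i)) +
          ((∑ i, z n i) * (-Real.log x) +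
            (∑ i, ∑ j, (a i j : ℝ) * z n j) * (x ^ (L + 1) / (1 - x) ^ 2))) (U : Filter ℕ)
          (𝓝 ((∑ k ∈ Finset.Icc 1 L, ∑ i, ent (P k i) (m' k i)) +
            (Y * (-Real.log x) + A * (x ^ (L + 1) / (1 - x) ^ 2)))) := by
        have hA1 : Tendsto (fun n => ∑ k ∈ Finset.Icc 1 L, ∑ i,
            ent (vacR a (K n) (m n) k i) (m n k i)) (U : Filter ℕ)
            (𝓝 (∑ k ∈ Finset.Icc 1 L, ∑ i, ent (P k i) (m' k i))) := by
          apply tendsto_finsetSum
          intro k hk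
          apply tendsto_finsetSum
          intro i _
          exact KH5_entT (hPt k i) (hm' k i (Finset.mem_Icc.1 hk).1)
        have hB1 : Tendsto (fun n => (∑ i, z n i) * (-Real.log x)) (U : Filter ℕ)
            (𝓝 (Y * (-Real.log x))) := by
          have h1 : Tendsto (fun n => ∑ i, z n i) (U : Filter ℕ) (𝓝 Y) :=
            tendsto_finsetSum _ fun i _ => hzi i
          exact h1.mul_const _
        have hC1 : Tendsto (fun n => (∑ i, ∑ j, (a i j : ℝ) * z n j) *
            (x ^ (L + 1) / (1 - x) ^ 2)) (U : Filter ℕ)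
            (𝓝 (A * (x ^ (L + 1) / (1 - x) ^ 2))) := by
          have h1 : Tendsto (fun n => ∑ i, ∑ j, (a i j : ℝ) * z n j) (U : Filter ℕ) (𝓝 A) := by
            apply tendsto_finsetSum
            intro i _
            apply tendsto_finsetSum
            intro j _
            exact (hzi j).const_mul _
          exact h1.mul_const _
        exact hA1.add (hB1.add hC1)
      refine ge_of_tendsto' ht1 fun n => ?_
      have hF := (hm n).enlarge (le_max_left (K n) L)
      have h2 := EntR_enlarge (hm n) (le_max_left (K n) L)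
      have h3 := hE n
      rw [← h2] at h3
      refine h3.trans ?_
      unfold EntR
      rw [KH5_Icc, ← Finset.sum_Ioc_consecutive
        (fun k : ℕ => ∑ i, ent (vacR a (max (K n) L) (m n) k i) (m n k i)) (Nat.zero_le L)
        (le_max_right (K n) L)]
      apply add_le_add
      · rw [← KH5_Icc]
        apply le_of_eq
        apply Finset.sum_congr rfl
        intro k _
        apply Finset.sum_congr rfl
        intro i _
        rw [KH5_vac_out (hm n) (le_max_left (K n) L) k i]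
      · have h4 := hF.tail hx0 hx1 L
        have h5 : Finset.Icc (L + 1) (max (K n) L) = Finset.Ioc L (max (K n) L) := by
          ext l
          rw [Finset.mem_Icc, Finset.mem_Ioc]
          omega
        rw [h5] at h4
        exact h4
    -- choose x
    have hx : ∃ x : ℝ, 0 < x ∧ x < 1 ∧ Y * (-Real.log x) ≤ ε / 2 := by
      have h1 : Tendsto (fun x : ℝ => Y * (-Real.log x)) (𝓝[<] 1) (𝓝 (Y * (-Real.log 1))) := by
        apply Tendsto.mono_left _ nhdsWithin_le_nhds
        exact ((Real.continuousAt_log one_ne_zero).tendsto.neg).const_mul _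
      rw [Real.log_one, neg_zero, mul_zero] at h1
      have h2 : ∀ᶠ x in 𝓝[<] (1 : ℝ), Y * (-Real.log x) < ε / 2 :=
        h1.eventually (gt_mem_nhds (by linarith))
      have h3 : ∀ᶠ x in 𝓝[<] (1 : ℝ), 0 < x :=
        nhdsWithin_le_nhds (lt_mem_nhds zero_lt_one)
      have h4 : ∀ᶠ x in 𝓝[<] (1 : ℝ), x < 1 := self_mem_nhdsWithin
      obtain ⟨x, hx1, hx2, hx3⟩ := (h2.and (h3.and h4)).exists
      exact ⟨x, hx2, hx3, hx1.le⟩
    obtain ⟨x, hx0, hx1, hx⟩ := hx
    have ht : Tendsto (fun L : ℕ => A * (x ^ (L + 1) / (1 - x) ^ 2)) atTop (𝓝 0) := by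
      have h1 : Tendsto (fun L : ℕ => x ^ (L + 1)) atTop (𝓝 0) :=
        (tendsto_pow_atTop_nhds_zero_of_lt_one hx0.le hx1).comp (tendsto_add_atTop_nat 1)
      have h2 := (h1.div_const ((1 - x) ^ 2)).const_mul A
      rwa [zero_div, mul_zero] at h2
    obtain ⟨L0, hL0⟩ := eventually_atTop.1 (ht.eventually (gt_mem_nhds (by linarith : (0 : ℝ) < ε / 2)))
    refine ⟨L0, fun L hL => ?_⟩
    have h1 := hlim x hx0 hx1 L
    have h2 := hL0 L hL
    linarith

end Pool.Agent.H27.KAC

end

section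

/-!
KAC module KH8: invariance of the growth function under changes along isotropic vectors.

`PhiR_shift`: let `D` be the support of `d`.  `(C d)_i = 0` on `D`, `≤ 0` elsewhere.  `∑_j y1_j (C d)_j = 0`, all terms are `≤ 0`, so
`(C d)_j = 0` if `y1_j > 0`; for `j ∉ D`, `y1_j > 0` this means that `j` is not adjacent to `D`.  Let `m` be feasible for `y1`.
`∑_i d_i vacR a K m k i = - ∑_l min k l ∑_j (C d)_j m_(l j) = 0` (`m_(l j) = 0` if `y1_j = 0`), so `vacR a K m k i = 0` for `i ∈ D`.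
New multipartition `m'`: on `D` all parts of size one, `m'_1 i = y2 i`; off `D` equal to `m` (on sizes `1..K`).  It is feasible for `y2`: for
`i ∈ D` the vacancy number is `- (C y2)_i = 0` (the vertices of the support of `y2` outside `D` are not adjacent to `D`); for
`i ∉ D` with `y1 i > 0` it is the old one; for `i ∉ D` with `y1 i = 0` all contributions are nonnegative.  The entropy is
the same: the terms at `D` are `ent 0 _ = 0`, the terms with `m = 0` are zero.
`PhiR_eq_of_form`: `d = y - y'`; by symmetry `0 = q(y) - q(y') = ∑ d_i ((C y)_i + (C y')_i)`, all terms are `≤ 0`, so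
`d_i (C y)_i = 0 = d_i (C y')_i`; apply `PhiR_shift` twice.
`PhiR_isotropic`: `y' = 0` in `PhiR_eq_of_form`.
-/

set_option autoImplicit false

namespace Pool.Agent.H27.KAC

open scoped BigOperators

variable {I : Type} [Fintype I] [DecidableEq I]

private theorem KH8_cart_ne (a : I → I → ℕ) {i j : I} (h : i ≠ j) :
    ((cart a i j : ℤ) : ℝ) = -(a i j : ℝ) := by
  simp [cart, h]

private theorem KH8_cart_zero (a : I → I → ℕ) {i j : I} (h : i ≠ j) (h0 : a i j = 0) :
    ((cart a i j : ℤ) : ℝ) = 0 := by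
  rw [KH8_cart_ne a h, h0]
  simp

/-- vertices of the support of `y1` outside the support of `d` are not adjacent to it. -/
private theorem KH8_sep (a : I → I → ℕ) (hs : ∀ i j, a i j = a j i) (y1 d : I → ℝ)
    (h1 : ∀ i, 0 ≤ y1 i) (hd : ∀ i, 0 ≤ d i) (hd0 : ∀ i, 0 < d i → cR a d i = 0)
    (hd1 : ∑ i, d i * cR a y1 i = 0) :
    (∀ j, 0 < y1 j → cR a d j = 0) ∧
      ∀ j, d j = 0 → 0 < y1 j → ∀ i, 0 < d i → a j i = 0 := by
  have hC : ∀ j, cR a d j ≤ 0 := by
    intro j
    rcases (hd j).lt_or_eq with h | h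
    · exact (hd0 j h).le
    · exact cR_nonpos_of_zero a d hd j h.symm
  have hsum : ∑ j, y1 j * cR a d j = 0 := by
    rw [← hd1]
    exact cR_symm a hs y1 d
  have hz : ∀ j, y1 j * cR a d j = 0 := by
    intro j
    have hle : ∀ j ∈ Finset.univ, y1 j * cR a d j ≤ 0 := fun j _ =>
      mul_nonpos_of_nonneg_of_nonpos (h1 j) (hC j)
    exact (Finset.sum_eq_zero_iff_of_nonpos hle).1 hsum j (Finset.mem_univ j)
  have h3 : ∀ j, 0 < y1 j → cR a d j = 0 := by
    intro j hj
    rcases mul_eq_zero.1 (hz j) with h | h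
    · exact absurd h hj.ne'
    · exact h
  refine ⟨h3, ?_⟩
  intro j hdj hyj i hdi
  have h4 := h3 j hyj
  unfold cR at h4
  have hle : ∀ i ∈ Finset.univ, (cart a j i : ℝ) * d i ≤ 0 := by
    intro i _
    by_cases hij : j = i
    · subst hij
      rw [hdj]
      simp
    · rw [KH8_cart_ne a hij]
      have : (0 : ℝ) ≤ (a j i : ℝ) := Nat.cast_nonneg _
      nlinarith [hd i]
  have h5 := (Finset.sum_eq_zero_iff_of_nonpos hle).1 h4 i (Finset.mem_univ i)
  have hij : j ≠ i := by
    rintro rfl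
    rw [hdj] at hdi
    exact lt_irrefl _ hdi
  rw [KH8_cart_ne a hij] at h5
  have h6 : (a j i : ℝ) = 0 := by
    rcases mul_eq_zero.1 h5 with h | h
    · linarith
    · exact absurd h hdi.ne'
  exact_mod_cast h6

/-- parts of a vertex of mass zero. -/
private theorem KH8_part_zero {a : I → I → ℕ} {K : ℕ} {m : ℕ → I → ℝ} {y : I → ℝ}
    (h : Feas a K m y) (j : I) (hj : y j = 0) (l : ℕ) (hl : l ∈ Finset.Icc 1 K) : m l j = 0 := by
  have h1 := h.mass j
  rw [hj] at h1
  unfold massR at h1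
  have h2 := (Finset.sum_eq_zero_iff_of_nonneg (fun l _ =>
    mul_nonneg (Nat.cast_nonneg l) (h.nn l j))).1 h1 l hl
  rcases mul_eq_zero.1 h2 with h3 | h3
  · rw [Finset.mem_Icc] at hl
    have : l = 0 := by exact_mod_cast h3
    omega
  · exact h3

/-- the vacancy numbers vanish on the support of `d`. -/
private theorem KH8_vac_zero (a : I → I → ℕ) (hs : ∀ i j, a i j = a j i) (y1 d : I → ℝ)
    (hd : ∀ i, 0 ≤ d i) (h3 : ∀ j, 0 < y1 j → cR a d j = 0) (K : ℕ) (m : ℕ → I → ℝ)
    (h : Feas a K m y1) (hy : ∀ i, 0 ≤ y1 i) (k : ℕ) (i : I) (hi : 0 < d i) :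
    vacR a K m k i = 0 := by
  have h4 : ∑ i, d i * vacR a K m k i = 0 := by
    unfold vacR
    have h5 : ∀ i, d i * ∑ l ∈ Finset.Icc 1 K, ((min k l : ℕ) : ℝ) * (-cR a (m l) i) =
        ∑ l ∈ Finset.Icc 1 K, -(((min k l : ℕ) : ℝ) * (d i * cR a (m l) i)) := by
      intro i
      rw [Finset.mul_sum]
      exact Finset.sum_congr rfl fun l _ => by ring
    rw [Finset.sum_congr rfl fun i _ => h5 i, Finset.sum_comm]
    refine Finset.sum_eq_zero fun l hl => ?_
    rw [Finset.sum_neg_distrib, ← Finset.mul_sum, cR_symm a hs d (m l)]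
    have h6 : ∑ j, m l j * cR a d j = 0 := by
      refine Finset.sum_eq_zero fun j _ => ?_
      rcases (hy j).lt_or_eq with hj | hj
      · rw [h3 j hj, mul_zero]
      · rw [KH8_part_zero h j hj.symm l hl, zero_mul]
    rw [h6]
    simp
  have h5 := (Finset.sum_eq_zero_iff_of_nonneg (fun i _ =>
    mul_nonneg (hd i) (h.vac k i))).1 h4 i (Finset.mem_univ i)
  rcases mul_eq_zero.1 h5 with h6 | h6
  · exact absurd h6 hi.ne'
  · exact h6

/-- the new multipartition. -/
private noncomputable def KH8_new (m : ℕ → I → ℝ) (y2 d : I → ℝ) (l : ℕ) (i : I) : ℝ :=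
  if 0 < d i then (if l = 1 then y2 i else 0) else m l i

theorem PhiR_shift (a : I → I → ℕ) (hs : ∀ i j, a i j = a j i) (y1 y2 d : I → ℝ)
    (h1 : Kon a y1) (h2 : Kon a y2) (hd : ∀ i, 0 ≤ d i) (hd0 : ∀ i, 0 < d i → cR a d i = 0)
    (hd1 : ∑ i, d i * cR a y1 i = 0) (hd2 : ∀ i, 0 < d i → cR a y2 i = 0)
    (heq : ∀ i, d i = 0 → y1 i = y2 i) : PhiR a y1 ≤ PhiR a y2 := by
  obtain ⟨hC, hsep⟩ := KH8_sep a hs y1 d h1.1 hd hd0 hd1
  refine PhiR_le h1 ?_
  intro K0 m h0
  rw [← EntR_enlarge h0 (Nat.le_succ K0)]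
  have h : Feas a (K0 + 1) m y1 := h0.enlarge (Nat.le_succ K0)
  set K : ℕ := K0 + 1 with hK
  have hK1 : 1 ≤ K := by omega
  set m' : ℕ → I → ℝ := KH8_new m y2 d with hm'
  have hD : ∀ l i, 0 < d i → m' l i = if l = 1 then y2 i else 0 := by
    intro l i hi
    rw [hm']
    unfold KH8_new
    rw [if_pos hi]
  have hN : ∀ l i, d i = 0 → m' l i = m l i := by
    intro l i hi
    rw [hm']
    unfold KH8_new
    rw [if_neg (by rw [hi]; exact lt_irrefl _)]
  have hcases : ∀ i, 0 < d i ∨ d i = 0 := fun i => by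
    rcases (hd i).lt_or_eq with h | h
    · exact Or.inl h
    · exact Or.inr h.symm
  have hnn : ∀ l i, 0 ≤ m' l i := by
    intro l i
    rcases hcases i with hi | hi
    · rw [hD l i hi]
      split_ifs
      · exact h2.1 i
      · exact le_rfl
    · rw [hN l i hi]
      exact h.nn l i
  -- the vacancy numbers on the support of `d`
  have hvD : ∀ k i, 0 < d i → vacR a K m' k i = 0 := by
    intro k i hi
    unfold vacR
    refine Finset.sum_eq_zero fun l hl => ?_
    have hz : cR a (m' l) i = 0 := by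
      by_cases hl1 : l = 1
      · have hcy : cR a y2 i = 0 := hd2 i hi
        rw [← hcy]
        unfold cR
        refine Finset.sum_congr rfl fun j _ => ?_
        rcases hcases j with hj | hj
        · rw [hD l j hj, if_pos hl1]
        · rw [hN l j hj, ← heq j hj]
          rcases (h1.1 j).lt_or_eq with hy | hy
          · have hij : i ≠ j := by
              rintro rfl
              rw [hj] at hi
              exact lt_irrefl _ hi
            have ha : a i j = 0 := by rw [hs i j]; exact hsep j hj hy i hi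
            rw [KH8_cart_zero a hij ha]
            simp
          · rw [KH8_part_zero h j hy.symm l hl, ← hy]
      · unfold cR
        refine Finset.sum_eq_zero fun j _ => ?_
        rcases hcases j with hj | hj
        · rw [hD l j hj, if_neg hl1, mul_zero]
        · rw [hN l j hj]
          rcases (h1.1 j).lt_or_eq with hy | hy
          · have hij : i ≠ j := by
              rintro rfl
              rw [hj] at hi
              exact lt_irrefl _ hi
            have ha : a i j = 0 := by rw [hs i j]; exact hsep j hj hy i hi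
            rw [KH8_cart_zero a hij ha]
            simp
          · rw [KH8_part_zero h j hy.symm l hl, mul_zero]
    rw [hz]
    simp
  -- the old vacancy numbers off the support of `d`
  have hvN : ∀ k i, d i = 0 → 0 < y1 i → vacR a K m' k i = vacR a K m k i := by
    intro k i hi hy
    unfold vacR
    refine Finset.sum_congr rfl fun l _ => ?_
    have hz : cR a (m' l) i = cR a (m l) i := by
      unfold cR
      refine Finset.sum_congr rfl fun j _ => ?_
      rcases hcases j with hj | hj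
      · have hij : i ≠ j := by
          rintro rfl
          rw [hi] at hj
          exact lt_irrefl _ hj
        rw [KH8_cart_zero a hij (hsep i hi hy j hj)]
        simp
      · rw [hN l j hj]
    rw [hz]
  have hfeas : Feas a K m' y2 := by
    refine ⟨hnn, ?_, ?_, ?_⟩
    · intro l i hl
      rcases hcases i with hi | hi
      · rw [hD l i hi, if_neg (by omega)]
      · rw [hN l i hi]
        exact h.out l i hl
    · intro i
      rcases hcases i with hi | hi
      · unfold massR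
        rw [Finset.sum_eq_single 1]
        · rw [hD 1 i hi, if_pos rfl]
          simp
        · intro l _ hl
          rw [hD l i hi, if_neg hl, mul_zero]
        · intro hn
          exact absurd (Finset.mem_Icc.2 ⟨le_rfl, hK1⟩) hn
      · rw [← heq i hi, ← h.mass i]
        unfold massR
        exact Finset.sum_congr rfl fun l _ => by rw [hN l i hi]
    · intro k i
      rcases hcases i with hi | hi
      · rw [hvD k i hi]
      · rcases (h1.1 i).lt_or_eq with hy | hy
        · rw [hvN k i hi hy]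
          exact h.vac k i
        · unfold vacR
          refine Finset.sum_nonneg fun l hl => ?_
          have h5 : m' l i = 0 := by
            rw [hN l i hi]
            exact KH8_part_zero h i hy.symm l hl
          have h6 := cR_nonpos_of_zero a (m' l) (hnn l) i h5
          have h7 : (0 : ℝ) ≤ ((min k l : ℕ) : ℝ) := Nat.cast_nonneg _
          exact mul_nonneg h7 (by linarith)
  have hent : EntR a K m = EntR a K m' := by
    unfold EntR
    refine Finset.sum_congr rfl fun k hk => Finset.sum_congr rfl fun i _ => ?_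
    rcases hcases i with hi | hi
    · rw [hvD k i hi, KH8_vac_zero a hs y1 d hd hC K m h h1.1 k i hi, ent_zero_left, ent_zero_left]
    · rcases (h1.1 i).lt_or_eq with hy | hy
      · rw [hvN k i hi hy, hN k i hi]
      · rw [hN k i hi, KH8_part_zero h i hy.symm k hk, ent_zero_right, ent_zero_right]
  rw [hent]
  exact le_PhiR hfeas

theorem PhiR_eq_of_form (a : I → I → ℕ) (hs : ∀ i j, a i j = a j i) (y y' : I → ℝ)
    (hy : Kon a y) (hy' : Kon a y') (hle : ∀ i, y' i ≤ y i)
    (hq : ∑ i, y i * cR a y i = ∑ i, y' i * cR a y' i) : PhiR a y = PhiR a y' := by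
  set d : I → ℝ := y - y' with hdd
  have hd : ∀ i, 0 ≤ d i := fun i => by
    rw [hdd, Pi.sub_apply]
    exact sub_nonneg.2 (hle i)
  have hsum : ∑ i, d i * (cR a y i + cR a y' i) = 0 := by
    have h1 : ∀ i, d i * (cR a y i + cR a y' i) =
        (y i * cR a y i - y' i * cR a y' i) + (y i * cR a y' i - y' i * cR a y i) := by
      intro i
      rw [hdd, Pi.sub_apply]
      ring
    rw [Finset.sum_congr rfl fun i _ => h1 i, Finset.sum_add_distrib, Finset.sum_sub_distrib,
      Finset.sum_sub_distrib, hq, cR_symm a hs y y']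
    ring
  have hterm : ∀ i, d i * (cR a y i + cR a y' i) = 0 := by
    intro i
    refine (Finset.sum_eq_zero_iff_of_nonpos (fun i _ => ?_)).1 hsum i (Finset.mem_univ i)
    exact mul_nonpos_of_nonneg_of_nonpos (hd i) (add_nonpos (hy.2 i) (hy'.2 i))
  have hpos : ∀ i, 0 < d i → cR a y i = 0 ∧ cR a y' i = 0 := by
    intro i hi
    have h1 := hterm i
    rcases mul_eq_zero.1 h1 with h | h
    · exact absurd h hi.ne'
    · have := hy.2 i
      have := hy'.2 i
      exact ⟨by linarith, by linarith⟩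
  have hcd : ∀ i, 0 < d i → cR a d i = 0 := by
    intro i hi
    rw [hdd, cR_sub, (hpos i hi).1, (hpos i hi).2, sub_zero]
  have hz1 : ∑ i, d i * cR a y i = 0 := by
    refine Finset.sum_eq_zero fun i _ => ?_
    rcases (hd i).lt_or_eq with h | h
    · rw [(hpos i h).1, mul_zero]
    · rw [← h, zero_mul]
  have hz2 : ∑ i, d i * cR a y' i = 0 := by
    refine Finset.sum_eq_zero fun i _ => ?_
    rcases (hd i).lt_or_eq with h | h
    · rw [(hpos i h).2, mul_zero]
    · rw [← h, zero_mul]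
  have he : ∀ i, d i = 0 → y i = y' i := by
    intro i hi
    rw [hdd, Pi.sub_apply] at hi
    linarith
  refine le_antisymm ?_ ?_
  · exact PhiR_shift a hs y y' d hy hy' hd hcd hz1 (fun i hi => (hpos i hi).2) he
  · exact PhiR_shift a hs y' y d hy' hy hd hcd hz2 (fun i hi => (hpos i hi).1)
      (fun i hi => (he i hi).symm)

theorem PhiR_isotropic (a : I → I → ℕ) (hs : ∀ i j, a i j = a j i) (y : I → ℝ)
    (hy : Kon a y) (h0 : ∀ i, 0 < y i → cR a y i = 0) : PhiR a y = 0 := by
  have hc0 : ∀ i, cR a (0 : I → ℝ) i = 0 := by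
    intro i
    simp [cR]
  have hK : Kon a (0 : I → ℝ) := ⟨fun i => le_rfl, fun i => (hc0 i).le⟩
  rw [PhiR_eq_of_form a hs y 0 hy hK hy.1 ?_, PhiR_zero]
  have h1 : ∑ i, y i * cR a y i = 0 := by
    refine Finset.sum_eq_zero fun i _ => ?_
    rcases (hy.1 i).lt_or_eq with h | h
    · rw [h0 i h, mul_zero]
    · rw [← h, zero_mul]
  rw [h1]
  symm
  refine Finset.sum_eq_zero fun i _ => ?_
  rw [hc0 i, mul_zero]

end Pool.Agent.H27.KAC

end

section

/-!
KAC ADE, growth part: the auxiliary vector `v` and the window lemma for general quivers.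
-/

set_option autoImplicit false

namespace Pool.Agent.H27.KB

open scoped BigOperators
open Pool.Agent.H27.KAC Pool.H88.KA Filter Topology

variable {I : Type} [Fintype I] [DecidableEq I]

theorem AmpG.snn {a : I → I → ℕ} {α : I →₀ ℕ} (h : AmpG a α) (i : I) : 0 ≤ -cw a α i := by
  by_cases h0 : a i i = 0
  · exact h.pos i h0
  · exact (h.posl i h0).le

theorem AmpG.nsmul {a : I → I → ℕ} {α : I →₀ ℕ} (h : AmpG a α) (n : ℕ) (hn : 1 ≤ n) :
    AmpG a (n • α) := by
  have hn' : (0 : ℤ) < n := by exact_mod_cast hn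
  refine ⟨fun i => ?_, fun i hi => ?_, fun i hi => ?_, ?_⟩
  · rw [Finsupp.smul_apply, smul_eq_mul]
    exact Nat.mul_pos hn (h.supp i)
  · rw [KG2_cw_nsmul, ← mul_neg]
    exact mul_nonneg hn'.le (h.pos i hi)
  · rw [KG2_cw_nsmul, ← mul_neg]
    exact mul_pos hn' (h.posl i hi)
  · obtain ⟨i, hi⟩ := h.ex
    refine ⟨i, ?_⟩
    rw [KG2_cw_nsmul, ← mul_neg]
    exact mul_pos hn' hi

theorem cR_cast (a : I → I → ℕ) (α : I →₀ ℕ) (i : I) :
    cR a (fun j => (α j : ℝ)) i = ((cw a α i : ℤ) : ℝ) := by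
  unfold cR cw
  push_cast
  rfl

/-- the auxiliary vector. -/
theorem exists_v (a : I → I → ℕ) (hs : ∀ i j, a i j = a j i) (hd : ∀ i, a i i ≠ 1)
    (hc : Conn a) (α : I →₀ ℕ) (hα : AmpG a α) :
    ∃ v : I → ℕ, ∀ i, cw a α i = 0 → 1 ≤ ∑ j, cart a i j * (v j : ℤ) := by
  classical
  have hy : Kon a (fun i => (α i : ℝ)) := by
    refine ⟨fun i => Nat.cast_nonneg _, fun i => ?_⟩
    rw [cR_cast]
    have h1 := AmpG.snn hα i
    have h2 : cw a α i ≤ 0 := by linarith
    exact_mod_cast h2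
  obtain ⟨D, u, hD⟩ := strict_exists a hs hd _ hy
  have hypos : ∀ i, (0 : ℝ) < (α i : ℝ) := fun i => by exact_mod_cast hα.supp i
  have hDe : D = ∅ := by
    by_contra hne
    have hDne : D.Nonempty := Finset.nonempty_iff_ne_empty.2 hne
    by_cases hDu : D = Finset.univ
    · obtain ⟨i, hi⟩ := hα.ex
      have h1 := hD.Dzero i (by rw [hDu]; exact Finset.mem_univ i)
      rw [cR_cast] at h1
      have h2 : cw a α i = 0 := by exact_mod_cast h1
      rw [h2] at hi
      simp at hi
    · obtain ⟨i, hi, j, hj, hij⟩ := hc D hDne hDu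
      have := hD.Dsep i hi j hj (hypos j)
      omega
  have hup : ∀ i, cw a α i = 0 → 0 < cR a u i := by
    intro i hi
    refine hD.upos i (by rw [hDe]; simp) (hypos i) ?_
    rw [cR_cast, hi]
    simp
  -- a large multiple
  set B : Finset I := Finset.univ.filter (fun i => cw a α i = 0) with hB
  have hex : ∃ N : ℕ, ∀ i, cw a α i = 0 → (∑ j, |((cart a i j : ℤ) : ℝ)|) < N * cR a u i := by
    have h1 : ∀ i : I, ∃ N : ℕ, ∀ N' : ℕ, N ≤ N' → cw a α i = 0 →
        (∑ j, |((cart a i j : ℤ) : ℝ)|) < N' * cR a u i := by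
      intro i
      by_cases hi : cw a α i = 0
      · obtain ⟨N, hN⟩ := exists_nat_gt ((∑ j, |((cart a i j : ℤ) : ℝ)|) / cR a u i)
        refine ⟨N, fun N' hN' _ => ?_⟩
        have h2 := hup i hi
        rw [div_lt_iff₀ h2] at hN
        have h3 : (N : ℝ) ≤ N' := by exact_mod_cast hN'
        nlinarith
      · exact ⟨0, fun _ _ h => absurd h hi⟩
    choose N hN using h1
    refine ⟨∑ i, N i, fun i hi => hN i _ ?_ hi⟩
    exact Finset.single_le_sum (f := N) (fun _ _ => Nat.zero_le _) (Finset.mem_univ i)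
  obtain ⟨N, hN⟩ := hex
  refine ⟨fun j => ⌊(N : ℝ) * u j⌋₊, fun i hi => ?_⟩
  have h1 := hN i hi
  have h2 : (0 : ℝ) < ∑ j, ((cart a i j : ℤ) : ℝ) * ((⌊(N : ℝ) * u j⌋₊ : ℕ) : ℝ) := by
    have h3 : (N : ℝ) * cR a u i - ∑ j, |((cart a i j : ℤ) : ℝ)| ≤
        ∑ j, ((cart a i j : ℤ) : ℝ) * ((⌊(N : ℝ) * u j⌋₊ : ℕ) : ℝ) := by
      unfold cR
      rw [Finset.mul_sum, ← Finset.sum_sub_distrib]
      refine Finset.sum_le_sum fun j _ => ?_
      have h4 : (0 : ℝ) ≤ (N : ℝ) * u j := mul_nonneg (Nat.cast_nonneg _) (hD.unn j)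
      have h5 := Nat.floor_le h4
      have h6 := Nat.lt_floor_add_one ((N : ℝ) * u j)
      have h7 : |((N : ℝ) * u j) - ((⌊(N : ℝ) * u j⌋₊ : ℕ) : ℝ)| ≤ 1 := by
        rw [abs_le]
        constructor <;> linarith
      have h8 : ((cart a i j : ℤ) : ℝ) * (((N : ℝ) * u j) - ((⌊(N : ℝ) * u j⌋₊ : ℕ) : ℝ)) ≤
          |((cart a i j : ℤ) : ℝ)| := by
        refine (le_abs_self _).trans ?_
        rw [abs_mul]
        exact mul_le_of_le_one_right (abs_nonneg _) h7
      nlinarith
    linarith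
  have h3 : (0 : ℤ) < ∑ j, cart a i j * ((⌊(N : ℝ) * u j⌋₊ : ℕ) : ℤ) := by
    have h4 : (((∑ j, cart a i j * ((⌊(N : ℝ) * u j⌋₊ : ℕ) : ℤ)) : ℤ) : ℝ) =
        ∑ j, ((cart a i j : ℤ) : ℝ) * ((⌊(N : ℝ) * u j⌋₊ : ℕ) : ℝ) := by
      push_cast
      rfl
    rw [← h4] at h2
    exact_mod_cast h2
  exact h3

/-- main term. -/
theorem KG2_main' (a : I → I → ℕ) (α : I →₀ ℕ) (hα : AmpG a α) (v : I → ℕ)
    (hv : ∀ i, cw a α i = 0 → 1 ≤ ∑ j, cart a i j * (v j : ℤ))
    (Θ : ℕ) (i : I) (hΘ : 2 * ∑ j, a i j * v j + 1 ≤ Θ)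
    (k κ e u : ℕ) (hk : 2 * k ≤ κ) :
    ((κ * e * u : ℕ) : ℤ) ≤ (Θ * (κ * e) * u : ℕ) * (-cw a α i) +
      ∑ j, cart a i j * (((κ : ℤ) - k) * ((2 * (e * u * v j) : ℕ) : ℤ)) := by
  have hkκ : (0 : ℤ) ≤ (κ : ℤ) - k := by
    have : (2 : ℤ) * k ≤ κ := by exact_mod_cast hk
    have : (0 : ℤ) ≤ k := by positivity
    linarith
  have hk2 : (κ : ℤ) ≤ 2 * ((κ : ℤ) - k) := by
    have : (2 : ℤ) * k ≤ κ := by exact_mod_cast hk
    linarith
  have hsum : ∑ j, cart a i j * (((κ : ℤ) - k) * ((2 * (e * u * v j) : ℕ) : ℤ)) =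
      (2 * ((κ : ℤ) - k)) * ((e : ℤ) * u) * ∑ j, cart a i j * (v j : ℤ) := by
    rw [Finset.mul_sum]
    refine Finset.sum_congr rfl fun j _ => ?_
    push_cast
    ring
  rw [hsum]
  have heu : (0 : ℤ) ≤ (e : ℤ) * u := by positivity
  by_cases hB : cw a α i = 0
  · rw [hB]
    have h1 := hv i hB
    have h2 : (κ : ℤ) * ((e : ℤ) * u) ≤ 2 * ((κ : ℤ) - k) * ((e : ℤ) * u) :=
      mul_le_mul_of_nonneg_right hk2 heu
    have h3 : 0 ≤ 2 * ((κ : ℤ) - k) * ((e : ℤ) * u) := by positivity
    have h4 : 2 * ((κ : ℤ) - k) * ((e : ℤ) * u) * 1 ≤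
        2 * ((κ : ℤ) - k) * ((e : ℤ) * u) * ∑ j, cart a i j * (v j : ℤ) :=
      mul_le_mul_of_nonneg_left h1 h3
    push_cast
    nlinarith
  · have hs : (1 : ℤ) ≤ -cw a α i := by
      have h1 := AmpG.snn hα i
      omega
    have h1 : -(∑ j, ((a i j * v j : ℕ) : ℤ)) ≤ ∑ j, cart a i j * (v j : ℤ) := by
      rw [← Finset.sum_neg_distrib]
      apply Finset.sum_le_sum
      intro j _
      unfold cart
      have h5 : (0 : ℤ) ≤ (v j : ℤ) := by positivity
      split_ifs
      · push_cast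
        nlinarith
      · push_cast
        nlinarith
    have h2 : 2 * (∑ j, ((a i j * v j : ℕ) : ℤ)) + 1 ≤ Θ := by exact_mod_cast hΘ
    have hXnn : (0 : ℤ) ≤ ∑ j, ((a i j * v j : ℕ) : ℤ) := Finset.sum_nonneg fun j _ => by positivity
    have hk0 : (0 : ℤ) ≤ (k : ℤ) := by positivity
    have hk3 : 2 * ((κ : ℤ) - k) ≤ 2 * κ := by linarith
    set X : ℤ := ∑ j, ((a i j * v j : ℕ) : ℤ) with hX
    set Y : ℤ := ∑ j, cart a i j * (v j : ℤ) with hY
    have hκ0 : (0 : ℤ) ≤ (κ : ℤ) := by positivity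
    have h3 : 0 ≤ 2 * ((κ : ℤ) - k) * ((e : ℤ) * u) := by positivity
    have h4 : 2 * ((κ : ℤ) - k) * ((e : ℤ) * u) * (-X) ≤ 2 * ((κ : ℤ) - k) * ((e : ℤ) * u) * Y :=
      mul_le_mul_of_nonneg_left h1 h3
    have h5 : 2 * ((κ : ℤ) - k) * ((e : ℤ) * u) * X ≤ 2 * (κ : ℤ) * ((e : ℤ) * u) * X :=
      mul_le_mul_of_nonneg_right (mul_le_mul_of_nonneg_right hk3 heu) hXnn
    have h6 : 0 ≤ (κ : ℤ) * ((e : ℤ) * u) := mul_nonneg hκ0 heu
    have h7 : (Θ : ℤ) * ((κ : ℤ) * ((e : ℤ) * u)) * 1 ≤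
        (Θ : ℤ) * ((κ : ℤ) * ((e : ℤ) * u)) * (-cw a α i) :=
      mul_le_mul_of_nonneg_left hs (by positivity)
    have h8 : (2 * X + 1) * ((κ : ℤ) * ((e : ℤ) * u)) ≤ (Θ : ℤ) * ((κ : ℤ) * ((e : ℤ) * u)) :=
      mul_le_mul_of_nonneg_right h2 h6
    push_cast
    nlinarith

end Pool.Agent.H27.KB

end
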