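import Mathlib

/-! The parts of this file: H27.KAC.KGMain, H27.KAC.KH16, H27.KAC.KM5, H27.KAC.KMDefs, H27.KAC.PII_Trunc, H27.KAC.PR_Exact, H27.KAC.PR_Rat, H27.NUM.PD, H88.KA.AF1, H88.KA.FJ1, H88.KA.FJ2, H88.KA.FJ3, H88.KA.FJ4. -/

section

/-!
KAC module KGMain: the growth theorem for ample vectors.

`l = hsup a α`.
* lower bound: given `η > 0` choose `K ≥ 2`, `n0 ≥ 1`, `m0` admissible for `n0 α` with
  `log (EW m0) / n0 ≥ hsup - η` (`exists_lt_of_lt_csSup`).  For large `n` write `n = q' n0 + r` with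
  `N0 ≤ r < N0 + n0` (`Adm_exists`, N0 ≥ 1), add `q'` copies of `m0` and one admissible `m_r`
  (`Adm_add`, `EW_add`, `EW_pos`): `EW m ≥ (EW m0)^q'`; with `EW_le_f`:
  `log f(nα) ≥ q' log (EW m0) - C log (C n)`; in particular `f(nα) > 0`.
* upper bound: `f_upper` with `ε` and `q` large.
-/

namespace Pool.Agent.H27.KAC

open scoped BigOperators
open MvPowerSeries Filter Topology

variable {I : Type} [Fintype I] [DecidableEq I]

theorem kGMain_log (C : ℝ) (hC : 0 < C) :
    Tendsto (fun n : ℕ => Real.log (C * n) / n) atTop (𝓝 0) := by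
  have h1 : Tendsto (fun y : ℝ => Real.log y / y) atTop (𝓝 0) := by
    have := Real.isLittleO_log_id_atTop.tendsto_div_nhds_zero
    simpa using this
  have h2 : Tendsto (fun n : ℕ => C * (n : ℝ)) atTop atTop :=
    (tendsto_natCast_atTop_atTop).const_mul_atTop hC
  have h3 := (h1.comp h2).const_mul C
  rw [mul_zero] at h3
  refine h3.congr' ?_
  filter_upwards [eventually_ge_atTop 1] with n hn
  have hn' : (n : ℝ) ≠ 0 := by
    have : (0 : ℝ) < n := by exact_mod_cast hn
    exact this.ne'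
  have hC' : C ≠ 0 := hC.ne'
  simp only [Function.comp]
  field_simp

theorem kGMain_coe (f : (I → ℕ) → ℚ) (α : I →₀ ℕ) (n : ℕ) :
    f (fun i => n * α i) = f (n • α) := by
  congr 1

end Pool.Agent.H27.KAC

end

section

/-!
KAC module KH16: extension of a homogeneous function given by a graph with the Cauchy property (pure topology).

PROOF.  `G x v`, `G x v'` imply `v = v'` (hypothesis `hloc` at `x`).  Let `D = {x | ∃ v, G x v}`, `f : (I → ℝ) → ℝ` with `G x (f x)` on `D`.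
For every `ξ` the function `f` has a limit along `𝓝[D] ξ` (Cauchy filter by `hloc`, completeness; `cauchy_map_iff` or
`Metric.cauchy_iff`; trivial if `𝓝[D] ξ = ⊥`), so `extendFrom D f` is continuous on `closure D` (`continuousOn_extendFrom`) and equal to
`f` on `D`.  Let `A = closure D ∩ sphere 0 1` (closed).  Tietze (`ContinuousMap.exists_restrict_eq` or `ContinuousMap.exists_extension`):
a continuous `g : (I → ℝ) → ℝ` equal to `extendFrom D f` on `A`.  Put `F x = ‖x‖ * g (‖x‖⁻¹ • x)` for `x ≠ 0`, `F 0 = 0`.  Continuous at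
`x ≠ 0`; at 0 because `g` is bounded on the compact sphere.  Homogeneous.  If `G x v`, `x ≠ 0`: `G (‖x‖⁻¹ • x) (‖x‖⁻¹ * v)`, so
`F x = v`.  If `G 0 v`: `G 0 (2 * v)`, so `v = 2 * v = 0`.
-/

set_option autoImplicit false

namespace Pool.Agent.H27.KAC

open Filter Topology

private theorem KH16_uniq {I : Type} [Fintype I] (G : (I → ℝ) → ℝ → Prop)
    (hloc : ∀ (ξ : I → ℝ) (ε : ℝ), 0 < ε → ∃ δ : ℝ, 0 < δ ∧ ∃ v0 : ℝ,
      ∀ x v, G x v → dist x ξ < δ → |v - v0| < ε) (x : I → ℝ) (v v' : ℝ)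
    (h : G x v) (h' : G x v') : v = v' := by
  by_contra hne
  have hpos : 0 < |v - v'| := abs_pos.2 (sub_ne_zero.2 hne)
  obtain ⟨δ, hδ, v0, hv0⟩ := hloc x (|v - v'| / 2) (by linarith)
  have h1 := hv0 x v h (by rw [dist_self]; exact hδ)
  have h2 := hv0 x v' h' (by rw [dist_self]; exact hδ)
  have h3 : |v - v'| ≤ |v - v0| + |v' - v0| := by
    have e : v - v' = (v - v0) - (v' - v0) := by ring
    rw [e]
    exact abs_sub _ _
  linarith

private theorem KH16_lim {I : Type} [Fintype I] (G : (I → ℝ) → ℝ → Prop)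
    (hloc : ∀ (ξ : I → ℝ) (ε : ℝ), 0 < ε → ∃ δ : ℝ, 0 < δ ∧ ∃ v0 : ℝ,
      ∀ x v, G x v → dist x ξ < δ → |v - v0| < ε)
    (f : (I → ℝ) → ℝ) (hf : ∀ x v, G x v → G x (f x)) (ξ : I → ℝ)
    (hξ : ξ ∈ closure {x | ∃ v, G x v}) :
    ∃ y, Tendsto f (𝓝[{x | ∃ v, G x v}] ξ) (𝓝 y) := by
  have : (𝓝[{x | ∃ v, G x v}] ξ).NeBot := mem_closure_iff_nhdsWithin_neBot.1 hξ
  apply cauchy_map_iff_exists_tendsto.1
  rw [Metric.cauchy_iff]
  refine ⟨inferInstance, fun ε hε => ?_⟩
  obtain ⟨δ, hδ, v0, hv0⟩ := hloc ξ (ε / 2) (by linarith)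
  refine ⟨f '' (Metric.ball ξ δ ∩ {x | ∃ v, G x v}), ?_, ?_⟩
  · apply Filter.image_mem_map
    rw [Set.inter_comm]
    exact inter_mem_nhdsWithin _ (Metric.ball_mem_nhds ξ hδ)
  · rintro _ ⟨x, ⟨hx, v, hxv⟩, rfl⟩ _ ⟨y, ⟨hy, w, hyw⟩, rfl⟩
    have h1 := hv0 x _ (hf x v hxv) hx
    have h2 := hv0 y _ (hf y w hyw) hy
    rw [Real.dist_eq]
    have e : f x - f y = (f x - v0) - (f y - v0) := by ring
    rw [e]
    have := abs_sub (f x - v0) (f y - v0)
    linarith

private theorem KH16_val {I : Type} [Fintype I] (G : (I → ℝ) → ℝ → Prop)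
    (hloc : ∀ (ξ : I → ℝ) (ε : ℝ), 0 < ε → ∃ δ : ℝ, 0 < δ ∧ ∃ v0 : ℝ,
      ∀ x v, G x v → dist x ξ < δ → |v - v0| < ε)
    (f : (I → ℝ) → ℝ) (hf : ∀ x v, G x v → G x (f x)) (ξ : I → ℝ) (w : ℝ) (hξ : G ξ w) :
    Tendsto f (𝓝[{x | ∃ v, G x v}] ξ) (𝓝 (f ξ)) := by
  rw [Metric.tendsto_nhdsWithin_nhds]
  intro ε hε
  obtain ⟨δ, hδ, v0, hv0⟩ := hloc ξ (ε / 2) (by linarith)
  refine ⟨δ, hδ, ?_⟩
  rintro x ⟨v, hxv⟩ hx
  have h1 := hv0 x _ (hf x v hxv) hx
  have h2 := hv0 ξ _ (hf ξ w hξ) (by rw [dist_self]; exact hδ)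
  rw [Real.dist_eq]
  have e : f x - f ξ = (f x - v0) - (f ξ - v0) := by ring
  rw [e]
  have := abs_sub (f x - v0) (f ξ - v0)
  linarith

private theorem KH16_cont {I : Type} [Fintype I] (g : (I → ℝ) → ℝ) (hg : Continuous g) :
    Continuous (fun x : I → ℝ => ‖x‖ * g (‖x‖⁻¹ • x)) := by
  rw [continuous_iff_continuousAt]
  intro x
  by_cases hx : x = 0
  · subst hx
    obtain ⟨C, hC⟩ := (isCompact_sphere (0 : I → ℝ) 1).exists_bound_of_continuousOn
      hg.continuousOn
    have h0 : Tendsto (fun x : I → ℝ => ‖x‖ * |C|) (𝓝 0) (𝓝 0) := by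
      have : Tendsto (fun x : I → ℝ => ‖x‖ * |C|) (𝓝 0) (𝓝 (‖(0 : I → ℝ)‖ * |C|)) :=
        (continuous_norm.mul continuous_const).tendsto _
      simpa using this
    unfold ContinuousAt
    have hz : (fun x : I → ℝ => ‖x‖ * g (‖x‖⁻¹ • x)) 0 = 0 := by simp
    rw [hz]
    refine squeeze_zero_norm (fun y => ?_) h0
    by_cases hy : y = 0
    · simp [hy]
    · rw [norm_mul, norm_norm]
      refine mul_le_mul_of_nonneg_left ?_ (norm_nonneg _)
      refine (hC _ ?_).trans (le_abs_self C)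
      rw [mem_sphere_zero_iff_norm, norm_smul, norm_inv, norm_norm,
        inv_mul_cancel₀ (norm_ne_zero_iff.2 hy)]
  · have h1 : ContinuousAt (fun x : I → ℝ => ‖x‖⁻¹ • x) x :=
      (continuous_norm.continuousAt.inv₀ (norm_ne_zero_iff.2 hx)).smul continuousAt_id
    exact continuous_norm.continuousAt.mul (hg.continuousAt.comp h1)

theorem homog_ext {I : Type} [Fintype I] (G : (I → ℝ) → ℝ → Prop)
    (hpos : ∀ x v (t : ℝ), 0 < t → G x v → G (t • x) (t * v))
    (hloc : ∀ (ξ : I → ℝ) (ε : ℝ), 0 < ε → ∃ δ : ℝ, 0 < δ ∧ ∃ v0 : ℝ,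
      ∀ x v, G x v → dist x ξ < δ → |v - v0| < ε) :
    ∃ F : (I → ℝ) → ℝ, Continuous F ∧ (∀ (t : ℝ) (x : I → ℝ), 0 ≤ t → F (t • x) = t * F x) ∧
      ∀ x v, G x v → F x = v := by
  classical
  set D : Set (I → ℝ) := {x | ∃ v, G x v} with hD
  obtain ⟨f, hf⟩ : ∃ f : (I → ℝ) → ℝ, ∀ x v, G x v → G x (f x) := by
    refine ⟨fun x => if h : ∃ v, G x v then Classical.choose h else 0, fun x v h => ?_⟩
    have h' : ∃ v, G x v := ⟨v, h⟩
    simp only [dif_pos h']
    exact Classical.choose_spec h'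
  have huniq : ∀ x v, G x v → f x = v := fun x v h =>
    KH16_uniq G hloc x _ _ (hf x v h) h
  have hcont : ContinuousOn (extendFrom D f) (closure D) :=
    continuousOn_extendFrom subset_rfl (fun x hx => KH16_lim G hloc f hf x hx)
  have hval : ∀ x v, G x v → extendFrom D f x = v := by
    intro x v h
    rw [← huniq x v h]
    exact extendFrom_eq (subset_closure ⟨v, h⟩) (KH16_val G hloc f hf x v h)
  obtain ⟨g, hg⟩ := ContinuousMap.exists_restrict_eq
    (isClosed_closure (s := D)) ⟨_, hcont.domRestrict⟩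
  have hgv : ∀ x v, G x v → g x = v := by
    intro x v h
    have h1 := congrArg (fun k => k ⟨x, subset_closure ⟨v, h⟩⟩) hg
    simp only [ContinuousMap.restrict_apply, ContinuousMap.coe_mk, Set.domRestrict_apply] at h1
    rw [h1]
    exact hval x v h
  refine ⟨fun x => ‖x‖ * g (‖x‖⁻¹ • x), KH16_cont g g.continuous, ?_, ?_⟩
  · intro t x ht
    rcases eq_or_lt_of_le ht with h0 | h0
    · rw [← h0]
      simp
    · have e1 : ‖t • x‖ = t * ‖x‖ := by rw [norm_smul, Real.norm_of_nonneg ht]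
      have e2 : ‖t • x‖⁻¹ • (t • x) = ‖x‖⁻¹ • x := by
        rw [e1, smul_smul]
        congr 1
        rw [mul_inv, mul_comm t⁻¹, mul_assoc, inv_mul_cancel₀ h0.ne', mul_one]
      show ‖t • x‖ * g (‖t • x‖⁻¹ • (t • x)) = t * (‖x‖ * g (‖x‖⁻¹ • x))
      rw [e2, e1, mul_assoc]
  · intro x v h
    show ‖x‖ * g (‖x‖⁻¹ • x) = v
    by_cases hx : x = 0
    · subst hx
      have h2 := hpos 0 v 2 two_pos h
      rw [smul_zero] at h2
      have h3 := KH16_uniq G hloc 0 _ _ h h2
      rw [norm_zero, zero_mul]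
      linarith
    · have hn : 0 < ‖x‖ := norm_pos_iff.2 hx
      rw [hgv _ _ (hpos x v ‖x‖⁻¹ (inv_pos.2 hn) h), ← mul_assoc, mul_inv_cancel₀ hn.ne',
        one_mul]

end Pool.Agent.H27.KAC

end

section

/-!
KAC module KM5: from the growth of `F_N = ∑_(d | N) A_d (d / N)^2` to the growth of `A_N` (elementary analysis).

PROOF.  Moebius inversion (`ArithmeticFunction.sum_eq_iff_sum_mul_moebius_eq` for `d^2 A_d` and `N^2 F_N`):
`N^2 A_N = ∑_(x y = N) μ(x) y^2 F_y`, so
(U) `|A_N| N^2 ≤ ∑_(d | N) d^2 F_d ≤ N^3 max_(d ≤ N) F_d`,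
(L) `N^2 A_N ≥ N^2 F_N - ∑_(d | N, d < N) d^2 F_d ≥ N^2 F_N - N^3 max_(d ≤ N / 2) F_d`.
For each `ε > 0` there is `C ≥ 1` with `F_d ≤ C exp ((l + ε) d)` for all `d ≥ 1`.
Upper bound: by (U) `A_N ≤ N C exp ((l + ε) N)`, so `log A_N / N ≤ l + 2 ε` for large `N` with `A_N > 0`.
Lower bound, `l = 0`: `A_N` is an integer, so `A_N ≥ 1`, `log A_N ≥ 0`.
Lower bound, `l > 0`: take `ε < l / 8`; `F_N ≥ exp ((l - ε) N)` for large `N`, and
`N max_(d ≤ N / 2) F_d ≤ N C exp ((l + ε) N / 2) ≤ exp ((l - ε) N) / 2` for large `N`, so `A_N ≥ exp ((l - ε) N) / 2`.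
Apply this to `N = n g`, `n → ∞`, and `log A_(n g) / n = g * (log A_(n g) / (n g))`.
-/

set_option autoImplicit false

namespace Pool.Agent.H27.KAC

open scoped BigOperators
open Filter Topology

private theorem KM5_bound (F : ℕ → ℝ) (hF0 : ∀ N, 0 ≤ F N) (l : ℝ) (hl : 0 ≤ l)
    (hlim : Tendsto (fun N : ℕ => Real.log (F N) / N) atTop (𝓝 l)) (ε : ℝ) (hε : 0 < ε) :
    ∃ C : ℝ, 1 ≤ C ∧ ∀ d : ℕ, F d ≤ C * Real.exp ((l + ε) * d) := by
  have h1 : ∀ᶠ N : ℕ in atTop, Real.log (F N) / N < l + ε :=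
    hlim.eventually_lt_const (by linarith)
  obtain ⟨N0, hN0⟩ := eventually_atTop.1 h1
  have hsum : 0 ≤ ∑ d ∈ Finset.range (N0 + 1), F d := Finset.sum_nonneg fun d _ => hF0 d
  refine ⟨1 + ∑ d ∈ Finset.range (N0 + 1), F d, by linarith, fun d => ?_⟩
  have hexp : 1 ≤ Real.exp ((l + ε) * d) := Real.one_le_exp (by positivity)
  by_cases hd : d < N0 + 1
  · have h2 : F d ≤ ∑ d ∈ Finset.range (N0 + 1), F d :=
      Finset.single_le_sum (f := F) (fun i _ => hF0 i) (Finset.mem_range.2 hd)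
    nlinarith
  · rw [not_lt] at hd
    have h3 : F d ≤ Real.exp ((l + ε) * d) := by
      rcases (hF0 d).lt_or_eq with h | h
      · have hd0 : (0 : ℝ) < d := by
          have : 0 < d := by omega
          exact_mod_cast this
        have h4 := hN0 d (by omega)
        rw [div_lt_iff₀ hd0] at h4
        rw [← Real.exp_log h]
        exact Real.exp_le_exp.2 h4.le
      · rw [← h]
        exact (Real.exp_pos _).le
    nlinarith

private theorem KM5_moebius (A F : ℕ → ℝ)
    (hAF : ∀ N : ℕ, 1 ≤ N → (N : ℝ) ^ 2 * F N = ∑ d ∈ N.divisors, (d : ℝ) ^ 2 * A d) (N : ℕ) (hN : 1 ≤ N) :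
    (N : ℝ) ^ 2 * A N = ∑ x ∈ N.divisorsAntidiagonal,
      ((ArithmeticFunction.moebius x.1 : ℤ) : ℝ) * ((x.2 : ℝ) ^ 2 * F x.2) := by
  have h := (ArithmeticFunction.sum_eq_iff_sum_mul_moebius_eq
    (f := fun n : ℕ => (n : ℝ) ^ 2 * A n) (g := fun n : ℕ => (n : ℝ) ^ 2 * F n)).1
    (fun n hn => (hAF n hn).symm) N hN
  exact h.symm

private theorem KM5_term (F : ℕ → ℝ) (hF0 : ∀ N, 0 ≤ F N) (C c : ℝ) (hC : 1 ≤ C) (hc : 0 ≤ c)
    (hF : ∀ d : ℕ, F d ≤ C * Real.exp (c * d)) (x y N : ℕ) (T : ℝ) (hyT : (y : ℝ) ≤ T) (hyN : y ≤ N) :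
    |((ArithmeticFunction.moebius x : ℤ) : ℝ) * ((y : ℝ) ^ 2 * F y)| ≤ (N : ℝ) ^ 2 * (C * Real.exp (c * T)) := by
  have h1 : |((ArithmeticFunction.moebius x : ℤ) : ℝ)| ≤ 1 := by
    have h2 := ArithmeticFunction.abs_moebius_le_one (n := x)
    exact_mod_cast h2
  have h3 : 0 ≤ (y : ℝ) ^ 2 * F y := mul_nonneg (sq_nonneg _) (hF0 y)
  rw [abs_mul, abs_of_nonneg h3]
  have hyN' : (y : ℝ) ≤ N := by exact_mod_cast hyN
  have h4 : F y ≤ C * Real.exp (c * T) := (hF y).trans (by gcongr)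
  calc |((ArithmeticFunction.moebius x : ℤ) : ℝ)| * ((y : ℝ) ^ 2 * F y) ≤ 1 * ((y : ℝ) ^ 2 * F y) :=
        mul_le_mul_of_nonneg_right h1 h3
    _ = (y : ℝ) ^ 2 * F y := one_mul _
    _ ≤ (N : ℝ) ^ 2 * (C * Real.exp (c * T)) := by
        refine mul_le_mul ?_ h4 (hF0 y) (sq_nonneg _)
        exact pow_le_pow_left₀ (Nat.cast_nonneg y) hyN' 2

private theorem KM5_card (N : ℕ) : (N.divisorsAntidiagonal.card : ℝ) ≤ N := by
  have h1 : N.divisorsAntidiagonal.card = N.divisors.card := by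
    rw [← Nat.map_div_right_divisors, Finset.card_map]
  rw [h1]
  exact_mod_cast Nat.card_divisors_le_self N

private theorem KM5_upper (A F : ℕ → ℝ)
    (hAF : ∀ N : ℕ, 1 ≤ N → (N : ℝ) ^ 2 * F N = ∑ d ∈ N.divisors, (d : ℝ) ^ 2 * A d)
    (hF0 : ∀ N, 0 ≤ F N) (C c : ℝ) (hC : 1 ≤ C) (hc : 0 ≤ c)
    (hF : ∀ d : ℕ, F d ≤ C * Real.exp (c * d)) (N : ℕ) (hN : 1 ≤ N) :
    A N ≤ N * (C * Real.exp (c * N)) := by
  have h1 := KM5_moebius A F hAF N hN
  have hN0 : (0 : ℝ) < N := by exact_mod_cast hN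
  have h2 : (N : ℝ) ^ 2 * A N ≤ N * ((N : ℝ) ^ 2 * (C * Real.exp (c * N))) := by
    rw [h1]
    refine (le_abs_self _).trans ((Finset.abs_sum_le_sum_abs _ _).trans ?_)
    refine (Finset.sum_le_card_nsmul _ _ ((N : ℝ) ^ 2 * (C * Real.exp (c * N))) ?_).trans ?_
    · intro x hx
      have hx2 : x.2 ≤ N := Nat.divisor_le (Nat.snd_mem_divisors_of_mem_antidiagonal hx)
      exact KM5_term F hF0 C c hC hc hF x.1 x.2 N N (by exact_mod_cast hx2) hx2
    · rw [nsmul_eq_mul]
      exact mul_le_mul_of_nonneg_right (KM5_card N) (by positivity)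
  have h3 : (N : ℝ) ^ 2 * A N ≤ (N : ℝ) ^ 2 * (N * (C * Real.exp (c * N))) := by
    calc _ ≤ N * ((N : ℝ) ^ 2 * (C * Real.exp (c * N))) := h2
      _ = _ := by ring
  exact le_of_mul_le_mul_left h3 (by positivity)

private theorem KM5_lower (A F : ℕ → ℝ)
    (hAF : ∀ N : ℕ, 1 ≤ N → (N : ℝ) ^ 2 * F N = ∑ d ∈ N.divisors, (d : ℝ) ^ 2 * A d)
    (hF0 : ∀ N, 0 ≤ F N) (C c : ℝ) (hC : 1 ≤ C) (hc : 0 ≤ c)
    (hF : ∀ d : ℕ, F d ≤ C * Real.exp (c * d)) (N : ℕ) (hN : 1 ≤ N) :
    F N - N * (C * Real.exp (c * (N / 2))) ≤ A N := by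
  have h1 := KM5_moebius A F hAF N hN
  have hN0 : (0 : ℝ) < N := by exact_mod_cast hN
  have hmem : (1, N) ∈ N.divisorsAntidiagonal := by
    rw [Nat.mem_divisorsAntidiagonal]
    exact ⟨one_mul N, by omega⟩
  rw [← Finset.add_sum_erase _ _ hmem] at h1
  have hm1 : ((ArithmeticFunction.moebius 1 : ℤ) : ℝ) = 1 := by
    rw [ArithmeticFunction.moebius_apply_one]
    norm_num
  rw [hm1, one_mul] at h1
  have h2 : |∑ x ∈ N.divisorsAntidiagonal.erase (1, N),
      ((ArithmeticFunction.moebius x.1 : ℤ) : ℝ) * ((x.2 : ℝ) ^ 2 * F x.2)| ≤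
      N * ((N : ℝ) ^ 2 * (C * Real.exp (c * (N / 2)))) := by
    refine (Finset.abs_sum_le_sum_abs _ _).trans ?_
    refine (Finset.sum_le_card_nsmul _ _ ((N : ℝ) ^ 2 * (C * Real.exp (c * (N / 2)))) ?_).trans ?_
    · intro x hx
      rw [Finset.mem_erase, Nat.mem_divisorsAntidiagonal] at hx
      obtain ⟨hne, hxy, -⟩ := hx
      have hx1 : 2 ≤ x.1 := by
        rcases Nat.lt_or_ge x.1 2 with h | h
        · exfalso
          interval_cases hx1 : x.1
          · rw [zero_mul] at hxy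
            omega
          · rw [one_mul] at hxy
            exact hne (Prod.ext hx1 hxy)
        · exact h
      have hx2 : 2 * x.2 ≤ N := by
        rw [← hxy]
        exact Nat.mul_le_mul_right _ hx1
      have hx2' : (x.2 : ℝ) ≤ N / 2 := by
        have : (2 : ℝ) * x.2 ≤ N := by exact_mod_cast hx2
        linarith
      exact KM5_term F hF0 C c hC hc hF x.1 x.2 N (N / 2) hx2' (by omega)
    · rw [nsmul_eq_mul]
      refine mul_le_mul_of_nonneg_right ?_ (by positivity)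
      refine le_trans ?_ (KM5_card N)
      exact_mod_cast Finset.card_le_card (Finset.erase_subset _ _)
  have h3 := (abs_le.1 h2).1
  have h4 : (N : ℝ) ^ 2 * (F N - N * (C * Real.exp (c * (N / 2)))) ≤ (N : ℝ) ^ 2 * A N := by
    rw [h1]
    have : (N : ℝ) ^ 2 * (F N - N * (C * Real.exp (c * (N / 2)))) =
        (N : ℝ) ^ 2 * F N - N * ((N : ℝ) ^ 2 * (C * Real.exp (c * (N / 2)))) := by ring
    rw [this]
    linarith
  exact le_of_mul_le_mul_left h4 (by positivity)

private theorem KM5_main (A F : ℕ → ℝ)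
    (hAF : ∀ N : ℕ, 1 ≤ N → (N : ℝ) ^ 2 * F N = ∑ d ∈ N.divisors, (d : ℝ) ^ 2 * A d)
    (hF0 : ∀ N, 0 ≤ F N) (hint : ∀ N, ∃ z : ℤ, A N = z) (l : ℝ) (hl : 0 ≤ l)
    (hFpos : ∀ᶠ N : ℕ in atTop, 0 < F N)
    (hlim : Tendsto (fun N : ℕ => Real.log (F N) / N) atTop (𝓝 l)) (ε : ℝ) (hε : 0 < ε) :
    ∀ᶠ N : ℕ in atTop, 0 < A N → |Real.log (A N) / N - l| ≤ ε := by
  have hlogN : Tendsto (fun N : ℕ => Real.log N / N) atTop (𝓝 0) :=
    (Real.isLittleO_log_id_atTop.tendsto_div_nhds_zero).comp tendsto_natCast_atTop_atTop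
  have hconst : ∀ b : ℝ, Tendsto (fun N : ℕ => b / (N : ℝ)) atTop (𝓝 0) := fun b =>
    tendsto_const_div_atTop_nhds_zero_nat b
  -- upper bound
  have hup : ∀ᶠ N : ℕ in atTop, 0 < A N → Real.log (A N) / N ≤ l + ε := by
    obtain ⟨C, hC, hCF⟩ := KM5_bound F hF0 l hl hlim (ε / 2) (by linarith)
    have h1 : Tendsto (fun N : ℕ => Real.log N / N + Real.log C / N) atTop (𝓝 0) := by
      have := hlogN.add (hconst (Real.log C))
      rwa [add_zero] at this
    filter_upwards [h1.eventually_lt_const (show (0 : ℝ) < ε / 2 by linarith), eventually_ge_atTop 1]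
      with N hN hN1 hA
    have hN0 : (0 : ℝ) < N := by exact_mod_cast hN1
    have h2 := KM5_upper A F hAF hF0 C (l + ε / 2) hC (by linarith) hCF N hN1
    have h3 : Real.log (A N) ≤ Real.log N + (Real.log C + (l + ε / 2) * N) := by
      refine (Real.log_le_log hA h2).trans (le_of_eq ?_)
      rw [Real.log_mul hN0.ne' (by positivity), Real.log_mul (by positivity) (Real.exp_ne_zero _),
        Real.log_exp]
    rw [← add_div, div_lt_iff₀ hN0] at hN
    rw [div_le_iff₀ hN0]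
    nlinarith
  -- lower bound
  have hlo : ∀ᶠ N : ℕ in atTop, 0 < A N → l - ε ≤ Real.log (A N) / N := by
    rcases hl.eq_or_lt with hl0 | hl0
    · filter_upwards with N hA
      obtain ⟨z, hz⟩ := hint N
      have hz1 : 1 ≤ z := by
        have : (0 : ℝ) < z := by rw [← hz]; exact hA
        have : 0 < z := by exact_mod_cast this
        omega
      have h1 : 0 ≤ Real.log (A N) := by
        rw [hz]
        exact Real.log_nonneg (by exact_mod_cast hz1)
      have h2 : 0 ≤ Real.log (A N) / N := by positivity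
      linarith
    · obtain ⟨δ, hδ⟩ : ∃ δ : ℝ, δ = min (ε / 2) (l / 8) := ⟨_, rfl⟩
      have hδ1 : δ ≤ ε / 2 := hδ ▸ min_le_left _ _
      have hδ2 : δ ≤ l / 8 := hδ ▸ min_le_right _ _
      have hδ0 : 0 < δ := by rw [hδ]; exact lt_min (by linarith) (by linarith)
      obtain ⟨C, hC, hCF⟩ := KM5_bound F hF0 l hl hlim δ hδ0
      have h1 : ∀ᶠ N : ℕ in atTop, l - δ < Real.log (F N) / N :=
        hlim.eventually_const_lt (by linarith)
      have h2 : Tendsto (fun N : ℕ => 2 * C * ((N : ℝ) ^ 1 * Real.exp (-(l / 4) * N))) atTop (𝓝 0) := by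
        have h3 := (Real.tendsto_pow_mul_exp_neg_atTop_nhds_zero 1)
        have h4 : Tendsto (fun N : ℕ => l / 4 * (N : ℝ)) atTop atTop :=
          tendsto_natCast_atTop_atTop.const_mul_atTop (by linarith)
        have h5 := (h3.comp h4).const_mul (2 * C * (4 / l))
        rw [mul_zero] at h5
        refine h5.congr fun N => ?_
        show 2 * C * (4 / l) * ((l / 4 * (N : ℝ)) ^ 1 * Real.exp (-(l / 4 * (N : ℝ)))) = _
        rw [pow_one, pow_one, neg_mul]
        field_simp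
      filter_upwards [h1, h2.eventually_lt_const (show (0 : ℝ) < 1 by norm_num),
        (hconst (Real.log 2)).eventually_lt_const (show (0 : ℝ) < ε / 2 by linarith), hFpos,
        eventually_ge_atTop 1] with N hN hN2 hN3 hFN hN1 hA
      have hN0 : (0 : ℝ) < N := by exact_mod_cast hN1
      have h6 := KM5_lower A F hAF hF0 C (l + δ) hC (by linarith) hCF N hN1
      rw [lt_div_iff₀ hN0] at hN
      have h7 : Real.exp ((l - δ) * N) ≤ F N := by
        rw [← Real.exp_log hFN]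
        exact Real.exp_le_exp.2 hN.le
      have h8 : N * (C * Real.exp ((l + δ) * (N / 2))) ≤ Real.exp ((l - δ) * N) / 2 := by
        have h9 : Real.exp ((l + δ) * (N / 2)) ≤ Real.exp ((l - δ) * N) * Real.exp (-(l / 4) * N) := by
          rw [← Real.exp_add]
          refine Real.exp_le_exp.2 ?_
          nlinarith
        have h10 : 2 * C * ((N : ℝ) ^ 1 * Real.exp (-(l / 4) * N)) < 1 := hN2
        rw [pow_one] at h10
        have h11 : 0 < Real.exp ((l - δ) * N) := Real.exp_pos _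
        calc N * (C * Real.exp ((l + δ) * (N / 2)))
            ≤ N * (C * (Real.exp ((l - δ) * N) * Real.exp (-(l / 4) * N))) := by gcongr
          _ = Real.exp ((l - δ) * N) / 2 * (2 * C * (N * Real.exp (-(l / 4) * N))) := by ring
          _ ≤ Real.exp ((l - δ) * N) / 2 * 1 := by
              refine mul_le_mul_of_nonneg_left h10.le (by positivity)
          _ = _ := mul_one _
      have h12 : Real.exp ((l - δ) * N) / 2 ≤ A N := by linarith
      have h13 : (l - δ) * N - Real.log 2 ≤ Real.log (A N) := by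
        refine le_trans (le_of_eq ?_) (Real.log_le_log (by positivity) h12)
        rw [Real.log_div (Real.exp_ne_zero _) (by norm_num), Real.log_exp]
      rw [div_lt_iff₀ hN0] at hN3
      rw [le_div_iff₀ hN0]
      nlinarith
  filter_upwards [hup, hlo] with N h1 h2 hA
  rw [abs_le]
  constructor
  · linarith [h2 hA]
  · linarith [h1 hA]

theorem limit_A_of_F (A F : ℕ → ℝ)
    (hAF : ∀ N : ℕ, 1 ≤ N → (N : ℝ) ^ 2 * F N = ∑ d ∈ N.divisors, (d : ℝ) ^ 2 * A d)
    (hF0 : ∀ N, 0 ≤ F N) (hint : ∀ N, ∃ z : ℤ, A N = z) (l : ℝ) (hl : 0 ≤ l)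
    (hFpos : ∀ᶠ N : ℕ in atTop, 0 < F N)
    (hlim : Tendsto (fun N : ℕ => Real.log (F N) / N) atTop (𝓝 l)) (g : ℕ) (hg : 1 ≤ g)
    (hA : ∀ᶠ n : ℕ in atTop, 0 < A (n * g)) :
    Tendsto (fun n : ℕ => Real.log (A (n * g)) / n) atTop (𝓝 (g * l)) := by
  have hgr : (0 : ℝ) < g := by exact_mod_cast hg
  have hng : Tendsto (fun n : ℕ => n * g) atTop atTop :=
    tendsto_id.atTop_mul_const' (by omega)
  have h1 : Tendsto (fun n : ℕ => Real.log (A (n * g)) / ((n * g : ℕ) : ℝ)) atTop (𝓝 l) := by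
    rw [Metric.tendsto_nhds]
    intro ε hε
    have h2 := KM5_main A F hAF hF0 hint l hl hFpos hlim (ε / 2) (by linarith)
    filter_upwards [hng.eventually h2, hA] with n hn hA
    rw [Real.dist_eq]
    linarith [hn hA]
  have h3 := h1.const_mul (g : ℝ)
  refine h3.congr' ?_
  filter_upwards [eventually_ge_atTop 1] with n hn
  have hn0 : (0 : ℝ) < n := by exact_mod_cast hn
  push_cast
  field_simp

end Pool.Agent.H27.KAC

end

section

/-!
KAC, final part: extension of dimension vectors by zero.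
-/

namespace Pool.Agent.H27.KAC

open scoped BigOperators

/-- Extension by zero of a dimension vector on `S`. -/
def ext0 {I : Type} [DecidableEq I] (S : Finset I) (β : {i // i ∈ S} → ℕ) : I → ℕ :=
  fun i => if h : i ∈ S then β ⟨i, h⟩ else 0

/-- The matrix restricted to `S`. -/
def resM {I : Type} (a : I → I → ℕ) (S : Finset I) (i j : {i // i ∈ S}) : ℕ := a i j

end Pool.Agent.H27.KAC

end

section

/-!
Project KAC, part II.3: power series up to a given total degree.
-/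

set_option autoImplicit false

namespace Pool.Agent.H27.KAC

open scoped BigOperators

section

variable {I : Type} [Fintype I] {R : Type} [CommRing R]

/-- The coefficients of total degree at most `D` agree. -/
def EqTo (D : ℕ) (f g : MvPowerSeries I R) : Prop :=
  ∀ d : I →₀ ℕ, ∑ i, d i ≤ D → MvPowerSeries.coeff d f = MvPowerSeries.coeff d g

theorem EqTo.refl (D : ℕ) (f : MvPowerSeries I R) : EqTo D f f := fun _ _ => rfl

theorem EqTo.symm {D : ℕ} {f g : MvPowerSeries I R} (h : EqTo D f g) : EqTo D g f :=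
  fun d hd => (h d hd).symm

theorem EqTo.trans {D : ℕ} {f g k : MvPowerSeries I R} (h : EqTo D f g) (h' : EqTo D g k) :
    EqTo D f k := fun d hd => (h d hd).trans (h' d hd)

theorem eq_of_EqTo {f g : MvPowerSeries I R} (h : ∀ D, EqTo D f g) : f = g := by
  ext d
  exact h _ d le_rfl

omit [CommRing R] in
private theorem PII_Trunc_sum_le {D : ℕ} {d p q : I →₀ ℕ} (hd : ∑ i, d i ≤ D) (h : p + q = d) :
    ∑ i, p i ≤ D ∧ ∑ i, q i ≤ D := by
  subst h
  simp only [Finsupp.add_apply, Finset.sum_add_distrib] at hd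
  omega

private theorem PII_Trunc_sub_le {D : ℕ} {d e : I →₀ ℕ} (hd : ∑ i, d i ≤ D) (he : e ≠ 0) (h : e ≤ d) :
    ∑ i, (d - e) i + 1 ≤ D := by
  obtain ⟨i, hi⟩ : ∃ i, e i ≠ 0 := by
    by_contra hcon
    push Not at hcon
    exact he (Finsupp.ext hcon)
  have h1 : ∑ i, (d - e) i < ∑ i, d i := by
    refine Finset.sum_lt_sum (fun j _ => ?_) ⟨i, Finset.mem_univ i, ?_⟩
    · rw [Finsupp.tsub_apply]; exact Nat.sub_le _ _
    · rw [Finsupp.tsub_apply]
      have := h i
      omega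
  omega

theorem EqTo.sub {D : ℕ} {f f' g g' : MvPowerSeries I R} (h : EqTo D f f') (h' : EqTo D g g') :
    EqTo D (f - g) (f' - g') := by
  intro d hd
  rw [map_sub, map_sub, h d hd, h' d hd]

/-- `MvPowerSeries.coeff_mul` and `a.1, a.2 ≤ d` on the antidiagonal. -/
theorem EqTo.mul {D : ℕ} {f f' g g' : MvPowerSeries I R} (h : EqTo D f f') (h' : EqTo D g g') :
    EqTo D (f * g) (f' * g') := by
  classical
  intro d hd
  rw [MvPowerSeries.coeff_mul, MvPowerSeries.coeff_mul]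
  refine Finset.sum_congr rfl fun p hp => ?_
  have h2 := PII_Trunc_sum_le hd (Finset.HasAntidiagonal.mem_antidiagonal.1 hp)
  rw [h _ h2.1, h' _ h2.2]

/-- Multiplication by a monomial of positive degree gains one degree. -/
theorem EqTo.monomial_mul {D : ℕ} {f g : MvPowerSeries I R} (h : EqTo D f g) {e : I →₀ ℕ}
    (he : e ≠ 0) (c : R) :
    EqTo (D + 1) (MvPowerSeries.monomial e c * f) (MvPowerSeries.monomial e c * g) := by
  classical
  intro d hd
  rw [MvPowerSeries.coeff_monomial_mul, MvPowerSeries.coeff_monomial_mul]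
  split_ifs with hed
  · rw [h _ (by have := PII_Trunc_sub_le hd he hed; omega)]
  · rfl

theorem EqTo.monomial_mul_zero {f g : MvPowerSeries I R} {e : I →₀ ℕ}
    (he : e ≠ 0) (c : R) :
    EqTo 0 (MvPowerSeries.monomial e c * f) (MvPowerSeries.monomial e c * g) := by
  classical
  intro d hd
  rw [MvPowerSeries.coeff_monomial_mul, MvPowerSeries.coeff_monomial_mul]
  split_ifs with hed
  · have := PII_Trunc_sub_le hd he hed
    omega
  · rfl

/-- If `f * g = 1`, `f' * g' = 1` and `f`, `f'` agree then `g`, `g'` agree: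
`g = g * (f' * g') ~ g * (f * g') = g'`. -/
theorem EqTo.of_mul_eq_one {D : ℕ} {f f' g g' : MvPowerSeries I R} (h : EqTo D f f')
    (hg : f * g = 1) (hg' : f' * g' = 1) : EqTo D g g' := by
  have h1 : EqTo D (g * (f' * g')) (g * (f * g')) :=
    (EqTo.refl D g).mul (h.symm.mul (EqTo.refl D g'))
  have h2 : g * (f * g') = g' := by rw [← mul_assoc, mul_comm g f, hg, one_mul]
  rw [hg', mul_one, h2] at h1
  exact h1

end

section

variable {I : Type} [Fintype I] {K : Type} [Field K]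

/-- The coefficients of total degree at most `D` are in the subring `S`. -/
def InTo (S : Subring K) (D : ℕ) (f : MvPowerSeries I K) : Prop :=
  ∀ d : I →₀ ℕ, ∑ i, d i ≤ D → MvPowerSeries.coeff d f ∈ S

theorem InTo.one (S : Subring K) (D : ℕ) : InTo S D (1 : MvPowerSeries I K) := by
  classical
  intro d _
  rw [MvPowerSeries.coeff_one]
  split_ifs
  · exact S.one_mem
  · exact S.zero_mem

theorem InTo.sub {S : Subring K} {D : ℕ} {f g : MvPowerSeries I K} (hf : InTo S D f)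
    (hg : InTo S D g) : InTo S D (f - g) := by
  intro d hd
  rw [map_sub]
  exact S.sub_mem (hf d hd) (hg d hd)

theorem InTo.mul {S : Subring K} {D : ℕ} {f g : MvPowerSeries I K} (hf : InTo S D f)
    (hg : InTo S D g) : InTo S D (f * g) := by
  classical
  intro d hd
  rw [MvPowerSeries.coeff_mul]
  refine S.sum_mem fun p hp => ?_
  have h2 := PII_Trunc_sum_le hd (Finset.HasAntidiagonal.mem_antidiagonal.1 hp)
  exact S.mul_mem (hf _ h2.1) (hg _ h2.2)

/-- Induction on the total degree: `MvPowerSeries.coeff_inv` or the recursion which follows from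
`f * g = 1` and `constantCoeff f = 1`. -/
theorem InTo.of_mul_eq_one {S : Subring K} {D : ℕ} {f g : MvPowerSeries I K} (hf : InTo S D f)
    (h1 : MvPowerSeries.constantCoeff f = 1) (hg : f * g = 1) : InTo S D g := by
  classical
  have key : ∀ n : ℕ, ∀ d : I →₀ ℕ, ∑ i, d i = n → n ≤ D → MvPowerSeries.coeff d g ∈ S := by
    intro n
    induction n using Nat.strong_induction_on with
    | _ n ih =>
      intro d hdn hn
      have h2 : MvPowerSeries.coeff d (f * g) ∈ S := by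
        rw [hg]; exact InTo.one S D d (hdn.le.trans hn)
      rw [MvPowerSeries.coeff_mul] at h2
      have h0 : ((0 : I →₀ ℕ), d) ∈ Finset.HasAntidiagonal.antidiagonal d := by
        rw [Finset.HasAntidiagonal.mem_antidiagonal]; exact zero_add d
      rw [← Finset.add_sum_erase _ _ h0] at h2
      have h3 : ∑ p ∈ (Finset.HasAntidiagonal.antidiagonal d).erase (0, d),
          MvPowerSeries.coeff p.1 f * MvPowerSeries.coeff p.2 g ∈ S := by
        refine S.sum_mem fun p hp => ?_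
        rw [Finset.mem_erase, Finset.HasAntidiagonal.mem_antidiagonal] at hp
        have h4 := PII_Trunc_sum_le (hdn.le.trans hn) hp.2
        refine S.mul_mem (hf _ h4.1) ?_
        have hp1 : p.1 ≠ 0 := by
          intro hz
          apply hp.1
          have : p.2 = d := by rw [← hp.2, hz, zero_add]
          exact Prod.ext hz this
        have hle : p.1 ≤ d := by rw [← hp.2]; exact le_self_add
        have h5 := PII_Trunc_sub_le (D := n) hdn.le hp1 hle
        have h6 : d - p.1 = p.2 := by rw [← hp.2]; exact add_tsub_cancel_left _ _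
        rw [h6] at h5
        exact ih (∑ i, p.2 i) (by omega) p.2 rfl (by omega)
      have h7 : MvPowerSeries.coeff (0 : I →₀ ℕ) f = 1 := by
        rw [MvPowerSeries.coeff_zero_eq_constantCoeff_apply, h1]
      have h8 := S.sub_mem h2 h3
      rw [add_sub_cancel_right] at h8
      simpa [h7] using h8
  intro d hd
  exact key _ d rfl hd

theorem InTo.congr {S : Subring K} {D : ℕ} {f g : MvPowerSeries I K} (hf : InTo S D f)
    (h : EqTo D f g) : InTo S D g := fun d hd => by rw [← h d hd]; exact hf d hd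

theorem InTo.monomial_mul {S : Subring K} {D : ℕ} {f : MvPowerSeries I K} (hf : InTo S D f)
    {e : I →₀ ℕ} (he : e ≠ 0) {c : K} (hc : c ∈ S) :
    InTo S (D + 1) (MvPowerSeries.monomial e c * f) := by
  classical
  intro d hd
  rw [MvPowerSeries.coeff_monomial_mul]
  split_ifs with hed
  · exact S.mul_mem hc (hf _ (by have := PII_Trunc_sub_le hd he hed; omega))
  · exact S.zero_mem

theorem InTo.monomial_mul_zero {S : Subring K} {f : MvPowerSeries I K}
    {e : I →₀ ℕ} (he : e ≠ 0) (c : K) : InTo S 0 (MvPowerSeries.monomial e c * f) := by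
  classical
  intro d hd
  rw [MvPowerSeries.coeff_monomial_mul]
  split_ifs with hed
  · have := PII_Trunc_sub_le hd he hed
    omega
  · exact S.zero_mem

end

end Pool.Agent.H27.KAC

end

section

/-!
Project KAC, part I.2: completion of a surjective (injective) matrix to a split exact sequence.
-/

set_option autoImplicit false

namespace Pool.Agent.H27.KAC

open scoped BigOperators

variable {κ : Type} [Fintype κ] [DecidableEq κ] {F : Type} [Field F]

theorem exact_completion (n m : ℕ) (H : Matrix (Fin n) κ F) (S : Matrix κ (Fin n) F)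
    (hHS : H * S = 1) (hcard : n + m = Fintype.card κ) :
    ∃ (L : Matrix κ (Fin m) F) (T : Matrix (Fin m) κ F),
      H * L = 0 ∧ T * L = 1 ∧ S * H + L * T = 1 := by
  classical
  let h : (κ → F) →ₗ[F] (Fin n → F) := Matrix.toLin' H
  let s : (Fin n → F) →ₗ[F] (κ → F) := Matrix.toLin' S
  have hs : h ∘ₗ s = LinearMap.id := by
    show Matrix.toLin' H ∘ₗ Matrix.toLin' S = _
    rw [← Matrix.toLin'_mul, hHS, Matrix.toLin'_one]
  have hs' : ∀ v, h (s v) = v := fun v => by
    have := LinearMap.congr_fun hs v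
    exact this
  have hsurj : Function.Surjective h := fun v => ⟨s v, hs' v⟩
  have hrank : Module.finrank F (LinearMap.ker h) = m := by
    have h1 := LinearMap.finrank_range_add_finrank_ker h
    rw [LinearMap.range_eq_top.2 hsurj, finrank_top, Module.finrank_fintype_fun_eq_card,
      Module.finrank_fintype_fun_eq_card, Fintype.card_fin] at h1
    omega
  let b := Module.finBasisOfFinrankEq F (LinearMap.ker h) hrank
  let l : (Fin m → F) →ₗ[F] (κ → F) := (LinearMap.ker h).subtype ∘ₗ b.equivFun.symm.toLinearMap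
  let w : (κ → F) →ₗ[F] (κ → F) := LinearMap.id - s ∘ₗ h
  have hw : ∀ v, w v = v - s (h v) := fun v => rfl
  have hker : ∀ v, w v ∈ LinearMap.ker h := by
    intro v
    rw [LinearMap.mem_ker, hw, map_sub, hs', sub_self]
  let t : (κ → F) →ₗ[F] (Fin m → F) :=
    b.equivFun.toLinearMap ∘ₗ LinearMap.codRestrict (LinearMap.ker h) w hker
  have e1 : h ∘ₗ l = 0 := by
    apply LinearMap.ext
    intro v
    exact (b.equivFun.symm v).2
  have e3 : s ∘ₗ h + l ∘ₗ t = LinearMap.id := by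
    apply LinearMap.ext
    intro v
    have h2 : l (t v) = w v := by
      show ((b.equivFun.symm (b.equivFun (LinearMap.codRestrict (LinearMap.ker h)
        w hker v)) : LinearMap.ker h) : κ → F) = _
      rw [LinearEquiv.symm_apply_apply]
      rfl
    show s (h v) + l (t v) = v
    rw [h2, hw]
    abel
  have e2 : t ∘ₗ l = LinearMap.id := by
    apply LinearMap.ext
    intro v
    show b.equivFun (LinearMap.codRestrict (LinearMap.ker h) w hker
      (l v)) = v
    have h2 : LinearMap.codRestrict (LinearMap.ker h) w hker (l v) =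
        b.equivFun.symm v := by
      apply Subtype.ext
      show w (l v) = ((b.equivFun.symm v : LinearMap.ker h) : κ → F)
      have h3 : h (l v) = 0 := LinearMap.congr_fun e1 v
      rw [hw, h3, map_zero, sub_zero]
      rfl
    rw [h2, LinearEquiv.apply_symm_apply]
  refine ⟨LinearMap.toMatrix' l, LinearMap.toMatrix' t, ?_, ?_, ?_⟩
  · have h4 : H = LinearMap.toMatrix' h := (LinearMap.toMatrix'_toLin' H).symm
    rw [h4, ← LinearMap.toMatrix'_comp, e1, map_zero]
  · rw [← LinearMap.toMatrix'_comp, e2, LinearMap.toMatrix'_id]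
  · have h4 : H = LinearMap.toMatrix' h := (LinearMap.toMatrix'_toLin' H).symm
    have h5 : S = LinearMap.toMatrix' s := (LinearMap.toMatrix'_toLin' S).symm
    rw [h4, h5, ← LinearMap.toMatrix'_comp, ← LinearMap.toMatrix'_comp, ← map_add, e3,
      LinearMap.toMatrix'_id]

theorem exact_completion' (n m : ℕ) (L : Matrix κ (Fin m) F) (T : Matrix (Fin m) κ F)
    (hTL : T * L = 1) (hcard : n + m = Fintype.card κ) :
    ∃ (H : Matrix (Fin n) κ F) (S : Matrix κ (Fin n) F),
      H * L = 0 ∧ H * S = 1 ∧ S * H + L * T = 1 := by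
  obtain ⟨L', T', h1, h2, h3⟩ := exact_completion m n L.transpose T.transpose
    (by rw [← Matrix.transpose_mul, hTL, Matrix.transpose_one]) (by omega)
  refine ⟨L'.transpose, T'.transpose, ?_, ?_, ?_⟩
  · rw [← Matrix.transpose_inj, Matrix.transpose_mul, Matrix.transpose_transpose, h1,
      Matrix.transpose_zero]
  · rw [← Matrix.transpose_mul, h2, Matrix.transpose_one]
  · rw [← Matrix.transpose_inj, Matrix.transpose_add, Matrix.transpose_mul, Matrix.transpose_mul,
      Matrix.transpose_transpose, Matrix.transpose_transpose, Matrix.transpose_one, add_comm]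
    exact h3

/-- If the only idempotent matrix `p` with `p * H = H` is the identity then `H` has a right
inverse. -/
theorem exists_right_inverse (n : ℕ) (H : Matrix (Fin n) κ F)
    (h : ∀ p : Matrix (Fin n) (Fin n) F, p * p = p → p * H = H → p = 1) :
    ∃ S : Matrix κ (Fin n) F, H * S = 1 := by
  classical
  let f : (κ → F) →ₗ[F] (Fin n → F) := Matrix.toLin' H
  obtain ⟨W, hW⟩ := Submodule.exists_isCompl (LinearMap.range f)
  let pr : (Fin n → F) →ₗ[F] (Fin n → F) :=
    (LinearMap.range f).subtype ∘ₗ Submodule.projectionOnto _ W hW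
  have hpr : ∀ v ∈ LinearMap.range f, pr v = v := by
    intro v hv
    show ((Submodule.projectionOnto _ W hW v : LinearMap.range f) : Fin n → F) = v
    have := Submodule.projectionOnto_apply_left hW ⟨v, hv⟩
    rw [this]
  have hmem : ∀ v, pr v ∈ LinearMap.range f := fun v => Subtype.mem _
  have h1 : LinearMap.toMatrix' pr = 1 := by
    apply h
    · rw [← LinearMap.toMatrix'_comp]
      congr 1
      apply LinearMap.ext
      intro v
      exact hpr _ (hmem v)
    · have h4 : H = LinearMap.toMatrix' f := (LinearMap.toMatrix'_toLin' H).symm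
      rw [h4, ← LinearMap.toMatrix'_comp]
      congr 1
      apply LinearMap.ext
      intro v
      exact hpr _ ⟨v, rfl⟩
  have h2 : pr = LinearMap.id := by
    have := congrArg Matrix.toLin' h1
    rwa [Matrix.toLin'_toMatrix', Matrix.toLin'_one] at this
  have hsurj : LinearMap.range f = ⊤ := by
    rw [eq_top_iff]
    intro v _
    have := hmem v
    rw [h2] at this
    exact this
  obtain ⟨g, hg⟩ := f.exists_rightInverse_of_surjective hsurj
  refine ⟨LinearMap.toMatrix' g, ?_⟩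
  have h4 : H = LinearMap.toMatrix' f := (LinearMap.toMatrix'_toLin' H).symm
  rw [h4, ← LinearMap.toMatrix'_comp, hg, LinearMap.toMatrix'_id]

theorem exists_left_inverse (m : ℕ) (L : Matrix κ (Fin m) F)
    (h : ∀ p : Matrix (Fin m) (Fin m) F, p * p = p → L * p = L → p = 1) :
    ∃ T : Matrix (Fin m) κ F, T * L = 1 := by
  obtain ⟨S, hS⟩ := exists_right_inverse m L.transpose (by
    intro p hp hpL
    have h1 := h p.transpose (by rw [← Matrix.transpose_mul, hp]) (by
      rw [← Matrix.transpose_inj, Matrix.transpose_mul, Matrix.transpose_transpose, hpL])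
    rw [← Matrix.transpose_inj, h1, Matrix.transpose_one])
  refine ⟨S.transpose, ?_⟩
  rw [← Matrix.transpose_inj, Matrix.transpose_mul, Matrix.transpose_transpose, hS,
    Matrix.transpose_one]

end Pool.Agent.H27.KAC

end

section

/-!
Project KAC, part II.2: a rational function with integer values at infinitely many natural numbers is a
polynomial.
-/

set_option autoImplicit false

namespace Pool.Agent.H27.KAC

open Polynomial Filter Topology

theorem exists_denominator (p : ℚ[X]) :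
    ∃ d : ℕ, 0 < d ∧ ∀ n : ℕ, ∃ z : ℤ, (d : ℚ) * p.eval (n : ℚ) = z := by
  induction p using Polynomial.induction_on' with
  | add p q hp hq =>
    obtain ⟨d, hd, hd'⟩ := hp
    obtain ⟨e, he, he'⟩ := hq
    refine ⟨d * e, Nat.mul_pos hd he, fun n => ?_⟩
    obtain ⟨z, hz⟩ := hd' n
    obtain ⟨w, hw⟩ := he' n
    refine ⟨e * z + d * w, ?_⟩
    push_cast
    rw [eval_add, ← hz, ← hw]
    ring
  | monomial k c =>
    refine ⟨c.den, c.den_pos, fun n => ⟨c.num * (n : ℤ) ^ k, ?_⟩⟩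
    rw [eval_monomial]
    push_cast
    rw [← mul_assoc, mul_comm (c.den : ℚ) c, Rat.mul_den_eq_num]

theorem dvd_of_int_values (U W : ℚ[X]) (hW : W ≠ 0) (A : Set ℕ) (hA : A.Infinite)
    (h : ∀ n ∈ A, W.eval (n : ℚ) ≠ 0 → ∃ z : ℤ, U.eval (n : ℚ) / W.eval (n : ℚ) = z) :
    W ∣ U := by
  obtain ⟨d, hd, hd'⟩ := exists_denominator (U / W)
  have hdiv := EuclideanDomain.div_add_mod U W
  have hdeg : (U % W).degree < W.degree := EuclideanDomain.mod_lt U hW
  have ht := Polynomial.div_tendsto_atTop_zero_of_degree_lt (U % W) W hdeg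
  have ht' : Tendsto (fun n : ℕ => (U % W).eval (n : ℚ) / W.eval (n : ℚ)) atTop (𝓝 0) :=
    ht.comp tendsto_natCast_atTop_atTop
  have hd0 : (0 : ℚ) < d := by exact_mod_cast hd
  have hev : ∀ᶠ n : ℕ in atTop, |(U % W).eval (n : ℚ) / W.eval (n : ℚ)| < 1 / d := by
    have := ht'.abs
    rw [abs_zero] at this
    exact this.eventually (gt_mem_nhds (by positivity))
  obtain ⟨N, hN⟩ := eventually_atTop.1 hev
  have hroots : {x : ℚ | W.eval x = 0}.Finite := by
    have := W.rootSet_finite ℚ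
    refine this.subset ?_
    intro x hx
    rw [mem_rootSet]
    exact ⟨hW, by simpa using hx⟩
  have hB : {n : ℕ | W.eval (n : ℚ) = 0}.Finite :=
    Set.Finite.preimage Nat.cast_injective.injOn hroots
  have hinf : ((A \ {n : ℕ | W.eval (n : ℚ) = 0}) \ Set.Iio N).Infinite :=
    (hA.sdiff hB).sdiff (Set.finite_Iio N)
  have hzero : ∀ n ∈ ((A \ {n : ℕ | W.eval (n : ℚ) = 0}) \ Set.Iio N),
      (U % W).eval (n : ℚ) = 0 := by
    rintro n ⟨⟨hnA, hnW⟩, hnN⟩
    have hnW' : W.eval (n : ℚ) ≠ 0 := hnW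
    have hnN' : N ≤ n := not_lt.1 hnN
    obtain ⟨z, hz⟩ := h n hnA hnW'
    obtain ⟨w, hw⟩ := hd' n
    have h1 : U.eval (n : ℚ) = W.eval (n : ℚ) * (U / W).eval (n : ℚ) + (U % W).eval (n : ℚ) := by
      conv_lhs => rw [← hdiv]
      rw [eval_add, eval_mul]
    have h2 : (d : ℚ) * ((U % W).eval (n : ℚ) / W.eval (n : ℚ)) = ((d * z - w : ℤ) : ℚ) := by
      push_cast
      rw [← hz, ← hw, h1]
      field_simp
      ring
    have h3 := hN n hnN'
    rw [lt_div_iff₀ hd0] at h3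
    have h4 : |((d * z - w : ℤ) : ℚ)| < 1 := by
      rw [← h2, abs_mul, abs_of_pos hd0, mul_comm]
      exact h3
    have h5 : (d * z - w : ℤ) = 0 := by
      have h6 : |(d * z - w : ℤ)| < 1 := by exact_mod_cast h4
      exact Int.abs_lt_one_iff.1 h6
    rw [h5, Int.cast_zero] at h2
    have h7 : (U % W).eval (n : ℚ) / W.eval (n : ℚ) = 0 := by
      rcases mul_eq_zero.1 h2 with h | h
      · exact absurd h hd0.ne'
      · exact h
    rcases div_eq_zero_iff.1 h7 with h | h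
    · exact h
    · exact absurd h hnW'
  have hR : U % W = 0 := by
    apply Polynomial.eq_zero_of_infinite_isRoot
    refine (hinf.image (f := fun n : ℕ => (n : ℚ)) (Nat.cast_injective.injOn)).mono ?_
    rintro _ ⟨n, hn, rfl⟩
    exact hzero n hn
  rw [hR, add_zero] at hdiv
  exact ⟨U / W, hdiv.symm⟩

end Pool.Agent.H27.KAC

end

section

/-!
KAC ADE numbers, class zero of `E_7` and `E_8`: the polynomial algebra (parts (d) and (f) of CN7).
-/

set_option autoImplicit false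

namespace Pool.H27.PD

open Polynomial

/-- `F ∣ X * P'` and `F(0) = 1` gives `F ∣ P'`. -/
theorem dvd_of_dvd_X_mul {F Q : ℚ[X]} (h0 : F.coeff 0 = 1) (h : F ∣ X * Q) : F ∣ Q := by
  have hco : IsCoprime F X := by
    have h1 : IsCoprime (1 : ℚ[X]) X := isCoprime_one_left
    have h2 : F = 1 + F.divX * X := by
      conv_lhs => rw [← Polynomial.divX_mul_X_add F]
      rw [h0, Polynomial.C_1]
      ring
    rw [h2]
    exact (IsCoprime.add_mul_right_left_iff).mpr h1
  exact hco.dvd_of_dvd_mul_left h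

/-- the multiplicity goes up by one: `f ^ n ∣ P`, `f ^ n ∣ P'`, `f` coprime to `f'`. -/
theorem pow_succ_dvd {f P : ℚ[X]} (hf : IsCoprime f (derivative f)) (n : ℕ) (hn : n ≠ 0)
    (h1 : f ^ n ∣ P) (h2 : f ^ n ∣ derivative P) (hf0 : f ≠ 0) : f ^ (n + 1) ∣ P := by
  obtain ⟨G, hG⟩ := h1
  have h3 : derivative P = f ^ (n - 1) * (C (n : ℚ) * derivative f * G) + f ^ n * derivative G := by
    rw [hG, derivative_mul, derivative_pow]
    ring
  have h4 : f ^ n ∣ f ^ (n - 1) * (C (n : ℚ) * derivative f * G) := by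
    have h5 : f ^ (n - 1) * (C (n : ℚ) * derivative f * G) = derivative P - f ^ n * derivative G := by
      rw [h3]; ring
    rw [h5]
    exact dvd_sub h2 (dvd_mul_right _ _)
  have hfn : f ^ n = f ^ (n - 1) * f := by
    conv_lhs => rw [show n = n - 1 + 1 by omega, pow_succ]
  rw [hfn] at h4
  have h5 : f ∣ C (n : ℚ) * derivative f * G :=
    (mul_dvd_mul_iff_left (pow_ne_zero _ hf0)).mp h4
  have hu : IsUnit (C (n : ℚ)) := by
    rw [Polynomial.isUnit_C]
    exact isUnit_iff_ne_zero.mpr (by exact_mod_cast hn)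
  have h6 : f ∣ derivative f * G := by
    rw [mul_assoc] at h5
    exact hu.dvd_mul_left.mp h5
  have h7 : f ∣ G := hf.dvd_of_dvd_mul_left h6
  rw [hG, pow_succ]
  exact mul_dvd_mul_left _ h7

theorem cop2 : IsCoprime (1 + X : ℚ[X]) (derivative (1 + X)) := by
  have : derivative (1 + X : ℚ[X]) = 1 := by simp
  rw [this]; exact isCoprime_one_right

theorem cop3 : IsCoprime (1 + X + X ^ 2 : ℚ[X]) (derivative (1 + X + X ^ 2)) := by
  have : derivative (1 + X + X ^ 2 : ℚ[X]) = 1 + 2 * X := by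
    simp
    norm_num
  rw [this]
  refine ⟨C (4/3), C (-(1/3)) * (1 + 2 * X), ?_⟩
  have h1 : (C (4/3) : ℚ[X]) = 1 + C (1/3) := by
    rw [← C_1, ← C_add]; norm_num
  have h2 : (C (-(1/3)) : ℚ[X]) = - C (1/3) := by rw [C_neg]
  have h3 : (3 : ℚ[X]) * C (1/3) = 1 := by
    rw [show (3 : ℚ[X]) = C 3 by rfl, ← C_mul]; norm_num
  rw [h1, h2]
  linear_combination -(X + X ^ 2) * h3

theorem cop4 : IsCoprime (1 + X ^ 2 : ℚ[X]) (derivative (1 + X ^ 2)) := by
  have : derivative (1 + X ^ 2 : ℚ[X]) = 2 * X := by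
    simp
    norm_num
  rw [this]
  refine ⟨1, C (-(1/2)) * X, ?_⟩
  have h3 : (2 : ℚ[X]) * C (-(1/2)) = -1 := by
    rw [show (2 : ℚ[X]) = C 2 by rfl, ← C_mul, show (2 : ℚ) * -(1/2) = -1 by norm_num, C_neg, C_1]
  linear_combination X ^ 2 * h3

theorem cop12 : IsCoprime (1 - X : ℚ[X]) (1 + X) := by
  refine ⟨C (1/2), C (1/2), ?_⟩
  have h3 : (2 : ℚ[X]) * C (1/2) = 1 := by
    rw [show (2 : ℚ[X]) = C 2 by rfl, ← C_mul]; norm_num
  linear_combination h3

theorem cop13 : IsCoprime (1 - X : ℚ[X]) (1 + X + X ^ 2) := by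
  -- 1 + X + X² - (1-X)(...) = 3
  refine ⟨C (1/3) * (2 + X), C (1/3), ?_⟩
  have h3 : (3 : ℚ[X]) * C (1/3) = 1 := by
    rw [show (3 : ℚ[X]) = C 3 by rfl, ← C_mul]; norm_num
  linear_combination h3

theorem cop14 : IsCoprime (1 - X : ℚ[X]) (1 + X ^ 2) := by
  refine ⟨C (1/2) * (1 + X), C (1/2), ?_⟩
  have h3 : (2 : ℚ[X]) * C (1/2) = 1 := by
    rw [show (2 : ℚ[X]) = C 2 by rfl, ← C_mul]; norm_num
  linear_combination h3

theorem cop23 : IsCoprime (1 + X : ℚ[X]) (1 + X + X ^ 2) := by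
  refine ⟨-X, 1, ?_⟩
  ring

theorem cop24 : IsCoprime (1 + X : ℚ[X]) (1 + X ^ 2) := by
  refine ⟨C (1/2) * (1 - X), C (1/2), ?_⟩
  have h3 : (2 : ℚ[X]) * C (1/2) = 1 := by
    rw [show (2 : ℚ[X]) = C 2 by rfl, ← C_mul]; norm_num
  linear_combination h3

theorem cop34 : IsCoprime (1 + X + X ^ 2 : ℚ[X]) (1 + X ^ 2) := by
  refine ⟨-X, 1 + X, ?_⟩
  ring

/-- what is used about the polynomial `P` of `(A, 0)`: `m = mm A`, `l = -(-1)^|A|`, `k = |A| + 1`. -/
structure PC (P : ℚ[X]) (c : ℕ → ℚ) (m : ℕ) (l : ℚ) (k : ℕ) : Prop where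
  c0 : P.coeff 0 = 1
  deg : P.natDegree = m
  lead : P.leadingCoeff = l
  mul : (P : PowerSeries ℚ) * PowerSeries.mk c = 1
  one : (1 - X) ^ k ∣ P

/-- the low coefficients of `P` in terms of `c`. -/
theorem PC.recu {P : ℚ[X]} {c : ℕ → ℚ} {m : ℕ} {l : ℚ} {k : ℕ} (h : PC P c m l k) (n : ℕ)
    (hn : 1 ≤ n) : ∑ i ∈ Finset.range (n + 1), P.coeff i * c (n - i) = 0 := by
  have h1 := congrArg (PowerSeries.coeff n) h.mul
  rw [PowerSeries.coeff_mul, Finset.Nat.sum_antidiagonal_eq_sum_range_succ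
    (fun i j => PowerSeries.coeff i (P : PowerSeries ℚ) *
      PowerSeries.coeff j (PowerSeries.mk c))] at h1
  simp only [Polynomial.coeff_coe, PowerSeries.coeff_mk] at h1
  rw [h1, PowerSeries.coeff_one, if_neg (by omega)]

theorem PC.c_zero {P : ℚ[X]} {c : ℕ → ℚ} {m : ℕ} {l : ℚ} {k : ℕ} (h : PC P c m l k) :
    c 0 = 1 := by
  have h1 := congrArg (PowerSeries.coeff 0) h.mul
  rw [PowerSeries.coeff_mul, Finset.Nat.sum_antidiagonal_eq_sum_range_succ
    (fun i j => PowerSeries.coeff i (P : PowerSeries ℚ) *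
      PowerSeries.coeff j (PowerSeries.mk c))] at h1
  simp only [Polynomial.coeff_coe, PowerSeries.coeff_mk] at h1
  simp [h.c0] at h1
  exact h1

theorem PC.c1 {P : ℚ[X]} {c : ℕ → ℚ} {m : ℕ} {l : ℚ} {k : ℕ} (h : PC P c m l k) :
    P.coeff 1 = - c 1 := by
  have h1 := h.recu 1 le_rfl
  simp [Finset.sum_range_succ, h.c0, h.c_zero] at h1
  linarith

theorem natDegree_factor {Q W P : ℚ[X]} (hP : P = Q * W) (h0 : P ≠ 0) :
    P.natDegree = Q.natDegree + W.natDegree := by
  rw [hP, natDegree_mul]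
  · rintro rfl; simp at hP; exact h0 hP
  · rintro rfl; simp at hP; exact h0 hP

/-- a quadratic cofactor. -/
theorem quad {Q W P : ℚ[X]} {c : ℕ → ℚ} {m : ℕ} {l : ℚ} {k : ℕ} (h : PC P c m l k)
    (hP : P = Q * W) (hQd : Q.natDegree + 2 = m) (hQ0 : Q.coeff 0 = 1)
    (hQl : Q.leadingCoeff = l) (hl : l ≠ 0) (u : ℚ) (hQ1 : Q.coeff 1 + u = - c 1) :
    W = 1 + C u * X + X ^ 2 := by
  have hP0 : P ≠ 0 := by
    rintro rfl
    have := h.c0
    simp at this
  have hd := natDegree_factor hP hP0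
  rw [h.deg] at hd
  have hWd : W.natDegree = 2 := by omega
  have hW0 : W.coeff 0 = 1 := by
    have h1 := h.c0
    rw [hP, mul_coeff_zero, hQ0, one_mul] at h1
    exact h1
  have hWl : W.coeff 2 = 1 := by
    have h1 := h.lead
    rw [hP, leadingCoeff_mul, hQl] at h1
    have h2 : W.leadingCoeff = 1 := by
      have h3 : l * W.leadingCoeff = l * 1 := by rw [h1, mul_one]
      exact mul_left_cancel₀ hl h3
    unfold leadingCoeff at h2
    rwa [hWd] at h2
  have hW1 : W.coeff 1 = u := by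
    have h1 := h.c1
    rw [hP, coeff_mul, Finset.Nat.sum_antidiagonal_eq_sum_range_succ
      (fun i j => Q.coeff i * W.coeff j)] at h1
    simp [Finset.sum_range_succ, hQ0, hW0] at h1
    linarith
  ext n
  rcases Nat.lt_or_ge n 3 with hn | hn
  · interval_cases n
    · simp [hW0]
    · simp [hW1, coeff_one, coeff_X_pow]
    · simp [hWl, coeff_one, coeff_X_pow]
  · rw [coeff_eq_zero_of_natDegree_lt (by omega)]
    have h1 : (1 + C u * X + X ^ 2 : ℚ[X]).natDegree ≤ 2 := by compute_degree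
    exact (coeff_eq_zero_of_natDegree_lt (by omega)).symm

/-! explicit factors -/

theorem nd1 : (1 - X : ℚ[X]).natDegree = 1 := by compute_degree!
theorem nd2 : (1 + X : ℚ[X]).natDegree = 1 := by compute_degree!
theorem nd3 : (1 + X + X ^ 2 : ℚ[X]).natDegree = 2 := by compute_degree!
theorem nd4 : (1 + X ^ 2 : ℚ[X]).natDegree = 2 := by compute_degree!

theorem lc1 : (1 - X : ℚ[X]).leadingCoeff = -1 := by
  unfold leadingCoeff; rw [nd1]; simp [coeff_one]
theorem lc2 : (1 + X : ℚ[X]).leadingCoeff = 1 := by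
  unfold leadingCoeff; rw [nd2]; simp [coeff_one]
theorem lc3 : (1 + X + X ^ 2 : ℚ[X]).leadingCoeff = 1 := by
  unfold leadingCoeff; rw [nd3]; simp [coeff_one, coeff_X]
theorem lc4 : (1 + X ^ 2 : ℚ[X]).leadingCoeff = 1 := by
  unfold leadingCoeff; rw [nd4]; simp [coeff_one]

theorem ne1 : (1 - X : ℚ[X]) ≠ 0 := by
  intro h; have := lc1; rw [h] at this; simp at this
theorem ne2 : (1 + X : ℚ[X]) ≠ 0 := by
  intro h; have := lc2; rw [h] at this; simp at this
theorem ne3 : (1 + X + X ^ 2 : ℚ[X]) ≠ 0 := by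
  intro h; have := lc3; rw [h] at this; simp at this
theorem ne4 : (1 + X ^ 2 : ℚ[X]) ≠ 0 := by
  intro h; have := lc4; rw [h] at this; simp at this

/-- the product of powers. -/
noncomputable def QQ (e1 e2 e3 e4 : ℕ) : ℚ[X] :=
  (1 - X) ^ e1 * (1 + X) ^ e2 * (1 + X + X ^ 2) ^ e3 * (1 + X ^ 2) ^ e4

theorem QQ_deg (e1 e2 e3 e4 : ℕ) : (QQ e1 e2 e3 e4).natDegree = e1 + e2 + 2 * e3 + 2 * e4 := by
  unfold QQ
  rw [natDegree_mul (mul_ne_zero (mul_ne_zero (pow_ne_zero _ ne1) (pow_ne_zero _ ne2))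
    (pow_ne_zero _ ne3)) (pow_ne_zero _ ne4),
    natDegree_mul (mul_ne_zero (pow_ne_zero _ ne1) (pow_ne_zero _ ne2)) (pow_ne_zero _ ne3),
    natDegree_mul (pow_ne_zero _ ne1) (pow_ne_zero _ ne2), natDegree_pow, natDegree_pow,
    natDegree_pow, natDegree_pow, nd1, nd2, nd3, nd4]
  ring

theorem QQ_lc (e1 e2 e3 e4 : ℕ) : (QQ e1 e2 e3 e4).leadingCoeff = (-1) ^ e1 := by
  unfold QQ
  rw [leadingCoeff_mul, leadingCoeff_mul, leadingCoeff_mul, leadingCoeff_pow, leadingCoeff_pow,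
    leadingCoeff_pow, leadingCoeff_pow, lc1, lc2, lc3, lc4]
  simp

theorem QQ_c0 (e1 e2 e3 e4 : ℕ) : (QQ e1 e2 e3 e4).coeff 0 = 1 := by
  rw [coeff_zero_eq_eval_zero]
  unfold QQ
  simp

theorem QQ_c1 (e1 e2 e3 e4 : ℕ) : (QQ e1 e2 e3 e4).coeff 1 = -(e1 : ℚ) + e2 + e3 := by
  have h1 : (QQ e1 e2 e3 e4).coeff 1 = (derivative (QQ e1 e2 e3 e4)).coeff 0 := by
    rw [coeff_derivative]; simp
  rw [h1, coeff_zero_eq_eval_zero]
  unfold QQ
  simp [derivative_mul, derivative_pow]

/-- `D_5`. -/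
theorem D5 {P : ℚ[X]} {c : ℕ → ℚ} (h : PC P c 8 1 6) (hc : c 1 = 4) : P = QQ 6 2 0 0 := by
  obtain ⟨W, hW⟩ := h.one
  have hW' : P = QQ 6 0 0 0 * W := by rw [hW]; unfold QQ; ring
  have h1 := quad h hW' (by rw [QQ_deg]) (QQ_c0 _ _ _ _) (by rw [QQ_lc]; norm_num) one_ne_zero 2
    (by rw [QQ_c1, hc]; norm_num)
  rw [hW', h1]
  unfold QQ
  rw [show (C (2 : ℚ) : ℚ[X]) = 2 by rfl]
  ring

/-- combine coprime factors. -/
theorem QQ_dvd {P : ℚ[X]} {e1 e2 e3 e4 : ℕ} (h1 : (1 - X) ^ e1 ∣ P) (h2 : (1 + X) ^ e2 ∣ P)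
    (h3 : (1 + X + X ^ 2) ^ e3 ∣ P) (h4 : (1 + X ^ 2) ^ e4 ∣ P) : QQ e1 e2 e3 e4 ∣ P := by
  unfold QQ
  refine IsCoprime.mul_dvd ?_ (IsCoprime.mul_dvd ?_ (IsCoprime.mul_dvd ?_ h1 h2) h3) h4
  · exact IsCoprime.mul_left (IsCoprime.mul_left cop14.pow cop24.pow) cop34.pow
  · exact IsCoprime.mul_left cop13.pow cop23.pow
  · exact cop12.pow

theorem QQ_dvd2 (e1 e2 e3 e4 : ℕ) : (1 + X) ^ e2 ∣ QQ e1 e2 e3 e4 := by
  unfold QQ
  exact ⟨(1 - X) ^ e1 * (1 + X + X ^ 2) ^ e3 * (1 + X ^ 2) ^ e4, by ring⟩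

theorem QQ_dvd3 (e1 e2 e3 e4 : ℕ) : (1 + X + X ^ 2) ^ e3 ∣ QQ e1 e2 e3 e4 := by
  unfold QQ
  exact ⟨(1 - X) ^ e1 * (1 + X) ^ e2 * (1 + X ^ 2) ^ e4, by ring⟩

theorem QQ_dvd4 (e1 e2 e3 e4 : ℕ) : (1 + X ^ 2) ^ e4 ∣ QQ e1 e2 e3 e4 := by
  unfold QQ
  exact Dvd.intro_left _ rfl

/-- `E_6`. -/
theorem E6 {P : ℚ[X]} {c : ℕ → ℚ} (h : PC P c 12 (-1) 7) (hc : c 1 = 3)
    (h1 : QQ 6 2 0 0 ∣ P) (h2 : QQ 6 2 0 0 ∣ X * derivative P) : P = QQ 7 3 1 0 := by
  have h2' := dvd_of_dvd_X_mul (QQ_c0 _ _ _ _) h2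
  have e2 : (1 + X : ℚ[X]) ^ 3 ∣ P := pow_succ_dvd cop2 2 (by norm_num)
    ((QQ_dvd2 6 2 0 0).trans h1) ((QQ_dvd2 6 2 0 0).trans h2') ne2
  obtain ⟨W, hW⟩ := QQ_dvd (e3 := 0) (e4 := 0) h.one e2 (by simp) (by simp)
  have h3 := quad h hW (by rw [QQ_deg]) (QQ_c0 _ _ _ _) (by rw [QQ_lc]; norm_num)
    (by norm_num) 1 (by rw [QQ_c1, hc]; norm_num)
  rw [hW, h3]
  unfold QQ
  rw [C_1]
  ring

/-- `E_7`. -/
theorem E7 {P : ℚ[X]} {c : ℕ → ℚ} (h : PC P c 18 1 8) (hc : c 1 = 2)
    (h1 : QQ 7 3 1 0 ∣ P) (h2 : QQ 7 3 1 0 ∣ X * derivative P) : P = QQ 8 4 2 1 := by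
  have h2' := dvd_of_dvd_X_mul (QQ_c0 _ _ _ _) h2
  have e2 : (1 + X : ℚ[X]) ^ 4 ∣ P := pow_succ_dvd cop2 3 (by norm_num)
    ((QQ_dvd2 7 3 1 0).trans h1) ((QQ_dvd2 7 3 1 0).trans h2') ne2
  have e3 : (1 + X + X ^ 2 : ℚ[X]) ^ 2 ∣ P := pow_succ_dvd cop3 1 (by norm_num)
    ((QQ_dvd3 7 3 1 0).trans h1) ((QQ_dvd3 7 3 1 0).trans h2') ne3
  obtain ⟨W, hW⟩ := QQ_dvd (e4 := 0) h.one e2 e3 (by simp)
  have h3 := quad h hW (by rw [QQ_deg]) (QQ_c0 _ _ _ _) (by rw [QQ_lc]; norm_num)
    (by norm_num) 0 (by rw [QQ_c1, hc]; norm_num)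
  rw [hW, h3]
  unfold QQ
  rw [C_0]
  ring

theorem E8_expand : QQ 9 5 3 2 * (1 + X ^ 2 + X ^ 3 + X ^ 4 + X ^ 6) =
    (1 - X - 2 * X ^ 2 + X ^ 4 + 4 * X ^ 5) +
    (1 - 3 * X ^ 2 - 6 * X ^ 3 - X ^ 4 + 4 * X ^ 6 + 5 * X ^ 7 + 5 * X ^ 8 - 5 * X ^ 10
      - 5 * X ^ 11 - 4 * X ^ 12 + X ^ 14 + 6 * X ^ 15 + 3 * X ^ 16 - X ^ 18 - 4 * X ^ 19
      - X ^ 20 + 2 * X ^ 22 + X ^ 23 - X ^ 24) * X ^ 6 := by
  unfold QQ
  ring

/-- `E_8`. -/
theorem E8 {P : ℚ[X]} {c : ℕ → ℚ} (h : PC P c 30 (-1) 9) (hc1 : c 1 = 1) (hc2 : c 2 = 3)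
    (hc3 : c 3 = 5) (hc4 : c 4 = 10) (hc5 : c 5 = 15)
    (h1 : QQ 8 4 2 1 ∣ P) (h2 : QQ 8 4 2 1 ∣ X * derivative P) :
    P = QQ 9 5 3 2 * (1 + X ^ 2 + X ^ 3 + X ^ 4 + X ^ 6) := by
  have h2' := dvd_of_dvd_X_mul (QQ_c0 _ _ _ _) h2
  have e2 : (1 + X : ℚ[X]) ^ 5 ∣ P := pow_succ_dvd cop2 4 (by norm_num)
    ((QQ_dvd2 8 4 2 1).trans h1) ((QQ_dvd2 8 4 2 1).trans h2') ne2
  have e3 : (1 + X + X ^ 2 : ℚ[X]) ^ 3 ∣ P := pow_succ_dvd cop3 2 (by norm_num)
    ((QQ_dvd3 8 4 2 1).trans h1) ((QQ_dvd3 8 4 2 1).trans h2') ne3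
  have e4 : (1 + X ^ 2 : ℚ[X]) ^ 2 ∣ P := pow_succ_dvd cop4 1 (by norm_num)
    ((QQ_dvd4 8 4 2 1).trans h1) ((QQ_dvd4 8 4 2 1).trans h2') ne4
  obtain ⟨W, hW⟩ := QQ_dvd h.one e2 e3 e4
  obtain ⟨V, hV⟩ : ∃ V : ℚ[X], V = 1 + X ^ 2 + X ^ 3 + X ^ 4 + X ^ 6 := ⟨_, rfl⟩
  have hP0 : P ≠ 0 := by
    rintro rfl
    have := h.c0
    simp at this
  have hd := natDegree_factor hW hP0
  rw [h.deg, QQ_deg] at hd
  have hWd : W.natDegree = 6 := by omega
  have hWl : W.coeff 6 = 1 := by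
    have h3 := h.lead
    rw [hW, leadingCoeff_mul, QQ_lc] at h3
    have h4 : W.leadingCoeff = 1 := by linarith
    unfold leadingCoeff at h4
    rwa [hWd] at h4
  -- the low coefficients of `P`
  have r0 := h.c0
  have r1 := h.recu 1 (by norm_num)
  have r2 := h.recu 2 (by norm_num)
  have r3 := h.recu 3 (by norm_num)
  have r4 := h.recu 4 (by norm_num)
  have r5 := h.recu 5 (by norm_num)
  simp only [Finset.sum_range_succ, Finset.sum_range_zero, h.c_zero, hc1, hc2, hc3, hc4, hc5,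
    Nat.sub_zero, Nat.reduceSub, r0] at r1 r2 r3 r4 r5
  have hX : X ^ 6 ∣ P - QQ 9 5 3 2 * V := by
    rw [X_pow_dvd_iff]
    intro d hd
    rw [hV, E8_expand, coeff_sub, coeff_add, coeff_mul_X_pow', if_neg (by omega)]
    have hA : (1 - X - 2 * X ^ 2 + X ^ 4 + 4 * X ^ 5 : ℚ[X]) =
        C 1 + C (-1) * X ^ 1 + C (-2) * X ^ 2 + C 1 * X ^ 4 + C 4 * X ^ 5 := by
      simp only [map_neg, map_ofNat, map_one]
      ring
    rw [hA]
    simp only [coeff_add, coeff_C_mul_X_pow, coeff_C]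
    interval_cases d <;> simp <;> linarith
  have hX2 : X ^ 6 ∣ W - V := by
    have h3 : P - QQ 9 5 3 2 * V = QQ 9 5 3 2 * (W - V) := by rw [hW]; ring
    rw [h3] at hX
    have hco : IsCoprime (X : ℚ[X]) (QQ 9 5 3 2) := by
      have h4 : QQ 9 5 3 2 = 1 + (QQ 9 5 3 2).divX * X := by
        conv_lhs => rw [← Polynomial.divX_mul_X_add (QQ 9 5 3 2)]
        rw [QQ_c0, Polynomial.C_1]
        ring
      rw [h4]
      exact (IsCoprime.add_mul_right_right_iff).mpr isCoprime_one_right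
    exact (hco.pow_left).dvd_of_dvd_mul_left hX
  have hWV : W - V = 0 := by
    ext n
    rcases Nat.lt_or_ge n 6 with hn | hn
    · rw [X_pow_dvd_iff] at hX2
      rw [hX2 n hn, coeff_zero]
    · rcases Nat.eq_or_lt_of_le hn with hn6 | hn6
      · rw [coeff_sub, ← hn6, hWl, hV]
        simp [coeff_one, coeff_X_pow]
      · rw [coeff_sub, coeff_eq_zero_of_natDegree_lt (by omega), hV]
        have h3 : (1 + X ^ 2 + X ^ 3 + X ^ 4 + X ^ 6 : ℚ[X]).natDegree ≤ 6 := by compute_degree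
        rw [coeff_eq_zero_of_natDegree_lt (by omega)]
        simp
  rw [hW, sub_eq_zero.mp hWV, hV]

/-! positivity -/

theorem pos_step {k : ℕ} (hk : 1 ≤ k) {f g : PowerSeries ℚ} (h : (1 - PowerSeries.X ^ k) * f = g)
    (hg : ∀ n, 0 ≤ PowerSeries.coeff n g) : ∀ n, 0 ≤ PowerSeries.coeff n f := by
  intro n
  induction n using Nat.strong_induction_on with
  | _ n ih =>
    have h1 := congrArg (PowerSeries.coeff n) h
    rw [sub_mul, one_mul, map_sub, PowerSeries.coeff_X_pow_mul'] at h1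
    have h2 := hg n
    split_ifs at h1 with hn
    · have h3 := ih (n - k) (by omega)
      linarith
    · linarith

theorem one_pos : ∀ n, 0 ≤ PowerSeries.coeff n (1 : PowerSeries ℚ) := by
  intro n
  rw [PowerSeries.coeff_one]
  split_ifs <;> norm_num

theorem E7_form : QQ 8 4 2 1 = (1 - X ^ 1) * ((1 - X ^ 1) * ((1 - X ^ 2) * ((1 - X ^ 2) *
    ((1 - X ^ 2) * ((1 - X ^ 3) * ((1 - X ^ 3) * (1 - X ^ 4))))))) := by
  unfold QQ
  ring

theorem E8_form : QQ 9 5 3 2 * (1 + X ^ 2 + X ^ 3 + X ^ 4 + X ^ 6) =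
    (1 - X ^ 1) * ((1 - X ^ 2) * ((1 - X ^ 2) * ((1 - X ^ 3) * ((1 - X ^ 3) * ((1 - X ^ 4) *
    ((1 - X ^ 4) * ((1 - X ^ 5) * (1 - X ^ 6)))))))) := by
  unfold QQ
  ring

theorem coe_fac (k : ℕ) : ((1 - X ^ k : ℚ[X]) : PowerSeries ℚ) = 1 - PowerSeries.X ^ k := by
  simp

theorem E7_pos {P : ℚ[X]} {c : ℕ → ℚ} (h : (P : PowerSeries ℚ) * PowerSeries.mk c = 1)
    (hP : P = QQ 8 4 2 1) (g : ℕ) : 0 ≤ c g := by
  rw [hP, E7_form] at h
  simp only [Polynomial.coe_mul, coe_fac, mul_assoc] at h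
  have h1 := pos_step (by norm_num) h one_pos
  have h2 := pos_step (by norm_num) rfl h1
  have h3 := pos_step (by norm_num) rfl h2
  have h4 := pos_step (by norm_num) rfl h3
  have h5 := pos_step (by norm_num) rfl h4
  have h6 := pos_step (by norm_num) rfl h5
  have h7 := pos_step (by norm_num) rfl h6
  have h8 := pos_step (by norm_num) rfl h7
  have := h8 g
  rwa [PowerSeries.coeff_mk] at this

theorem E8_pos {P : ℚ[X]} {c : ℕ → ℚ} (h : (P : PowerSeries ℚ) * PowerSeries.mk c = 1)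
    (hP : P = QQ 9 5 3 2 * (1 + X ^ 2 + X ^ 3 + X ^ 4 + X ^ 6)) (g : ℕ) : 0 ≤ c g := by
  rw [hP, E8_form] at h
  simp only [Polynomial.coe_mul, coe_fac, mul_assoc] at h
  have h1 := pos_step (by norm_num) h one_pos
  have h2 := pos_step (by norm_num) rfl h1
  have h3 := pos_step (by norm_num) rfl h2
  have h4 := pos_step (by norm_num) rfl h3
  have h5 := pos_step (by norm_num) rfl h4
  have h6 := pos_step (by norm_num) rfl h5
  have h7 := pos_step (by norm_num) rfl h6
  have h8 := pos_step (by norm_num) rfl h7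
  have h9 := pos_step (by norm_num) rfl h8
  have := h9 g
  rwa [PowerSeries.coeff_mk] at this

/-! low values of `c` -/

/-- the first coefficients of the inverse from the first coefficients of `P`. -/
theorem low_c {P : ℚ[X]} {c : ℕ → ℚ} (h : (P : PowerSeries ℚ) * PowerSeries.mk c = 1)
    (h0 : P.coeff 0 = 1) : c 0 = 1 ∧ ∀ n, 1 ≤ n →
      ∑ i ∈ Finset.range (n + 1), P.coeff i * c (n - i) = 0 := by
  constructor
  · have h1 := congrArg (PowerSeries.coeff 0) h
    rw [PowerSeries.coeff_mul, Finset.Nat.sum_antidiagonal_eq_sum_range_succ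
      (fun i j => PowerSeries.coeff i (P : PowerSeries ℚ) *
        PowerSeries.coeff j (PowerSeries.mk c))] at h1
    simp only [Polynomial.coeff_coe, PowerSeries.coeff_mk] at h1
    simp [h0] at h1
    exact h1
  · intro n hn
    have h1 := congrArg (PowerSeries.coeff n) h
    rw [PowerSeries.coeff_mul, Finset.Nat.sum_antidiagonal_eq_sum_range_succ
      (fun i j => PowerSeries.coeff i (P : PowerSeries ℚ) *
        PowerSeries.coeff j (PowerSeries.mk c))] at h1
    simp only [Polynomial.coeff_coe, PowerSeries.coeff_mk] at h1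
    rw [h1, PowerSeries.coeff_one, if_neg (by omega)]

theorem D5_expand : QQ 6 2 0 0 =
    (C 1 + C (-4) * X ^ 1 + C 4 * X ^ 2 + C 4 * X ^ 3 + C (-10) * X ^ 4 + C 4 * X ^ 5) +
    (4 - 4 * X + X ^ 2) * X ^ 6 := by
  unfold QQ
  simp only [map_neg, map_ofNat, map_one]
  ring

/-- the values of `c` for `D5`. -/
theorem D5_c {P : ℚ[X]} {c : ℕ → ℚ} (h : (P : PowerSeries ℚ) * PowerSeries.mk c = 1)
    (hP : P = QQ 6 2 0 0) : c 0 = 1 ∧ c 1 = 4 ∧ c 2 = 12 ∧ c 3 = 28 ∧ c 4 = 58 ∧ c 5 = 108 := by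
  have h0 : P.coeff 0 = 1 := by rw [hP, QQ_c0]
  obtain ⟨hc0, hr⟩ := low_c h h0
  have hco : ∀ n < 6, P.coeff n =
      (C 1 + C (-4) * X ^ 1 + C 4 * X ^ 2 + C 4 * X ^ 3 + C (-10) * X ^ 4 + C 4 * X ^ 5 : ℚ[X]).coeff n := by
    intro n hn
    rw [hP, D5_expand, coeff_add, coeff_mul_X_pow', if_neg (by omega), add_zero]
  have h1 : P.coeff 1 = -4 := by
    rw [hco 1 (by norm_num)]; simp [coeff_C, coeff_one]
  have h2 : P.coeff 2 = 4 := by
    rw [hco 2 (by norm_num)]; simp [coeff_C, coeff_one]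
  have h3 : P.coeff 3 = 4 := by
    rw [hco 3 (by norm_num)]; simp [coeff_C, coeff_one]
  have h4 : P.coeff 4 = -10 := by
    rw [hco 4 (by norm_num)]; simp [coeff_C, coeff_one]
  have h5 : P.coeff 5 = 4 := by
    rw [hco 5 (by norm_num)]; simp [coeff_C, coeff_one]
  have r1 := hr 1 (by norm_num)
  have r2 := hr 2 (by norm_num)
  have r3 := hr 3 (by norm_num)
  have r4 := hr 4 (by norm_num)
  have r5 := hr 5 (by norm_num)
  simp only [Finset.sum_range_succ, Finset.sum_range_zero, hc0, Nat.sub_zero, Nat.reduceSub, h0,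
    h1, h2, h3, h4, h5] at r1 r2 r3 r4 r5
  have v1 : c 1 = 4 := by linarith
  rw [v1] at r2 r3 r4 r5
  have v2 : c 2 = 12 := by linarith
  rw [v2] at r3 r4 r5
  have v3 : c 3 = 28 := by linarith
  rw [v3] at r4 r5
  have v4 : c 4 = 58 := by linarith
  rw [v4] at r5
  have v5 : c 5 = 108 := by linarith
  exact ⟨hc0, v1, v2, v3, v4, v5⟩

theorem E6_expand : QQ 7 3 1 0 =
    (C 1 + C (-3) * X ^ 1 + C 7 * X ^ 3 + C (-3) * X ^ 4 + C (-6) * X ^ 5) +
    (6 * X + 3 * X ^ 2 - 7 * X ^ 3 + 3 * X ^ 5 - X ^ 6) * X ^ 6 := by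
  unfold QQ
  simp only [map_neg, map_ofNat, map_one]
  ring

/-- the values of `c` for `E6`. -/
theorem E6_c {P : ℚ[X]} {c : ℕ → ℚ} (h : (P : PowerSeries ℚ) * PowerSeries.mk c = 1)
    (hP : P = QQ 7 3 1 0) : c 0 = 1 ∧ c 1 = 3 ∧ c 2 = 9 ∧ c 3 = 20 ∧ c 4 = 42 ∧ c 5 = 78 := by
  have h0 : P.coeff 0 = 1 := by rw [hP, QQ_c0]
  obtain ⟨hc0, hr⟩ := low_c h h0
  have hco : ∀ n < 6, P.coeff n =
      (C 1 + C (-3) * X ^ 1 + C 7 * X ^ 3 + C (-3) * X ^ 4 + C (-6) * X ^ 5 : ℚ[X]).coeff n := by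
    intro n hn
    rw [hP, E6_expand, coeff_add, coeff_mul_X_pow', if_neg (by omega), add_zero]
  have h1 : P.coeff 1 = -3 := by
    rw [hco 1 (by norm_num)]; simp [coeff_C, coeff_one]
  have h2 : P.coeff 2 = 0 := by
    rw [hco 2 (by norm_num)]; simp [coeff_C, coeff_one]
  have h3 : P.coeff 3 = 7 := by
    rw [hco 3 (by norm_num)]; simp [coeff_C, coeff_one]
  have h4 : P.coeff 4 = -3 := by
    rw [hco 4 (by norm_num)]; simp [coeff_C, coeff_one]
  have h5 : P.coeff 5 = -6 := by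
    rw [hco 5 (by norm_num)]; simp [coeff_C, coeff_one]
  have r1 := hr 1 (by norm_num)
  have r2 := hr 2 (by norm_num)
  have r3 := hr 3 (by norm_num)
  have r4 := hr 4 (by norm_num)
  have r5 := hr 5 (by norm_num)
  simp only [Finset.sum_range_succ, Finset.sum_range_zero, hc0, Nat.sub_zero, Nat.reduceSub, h0,
    h1, h2, h3, h4, h5] at r1 r2 r3 r4 r5
  have v1 : c 1 = 3 := by linarith
  rw [v1] at r2 r3 r4 r5
  have v2 : c 2 = 9 := by linarith
  rw [v2] at r3 r4 r5
  have v3 : c 3 = 20 := by linarith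
  rw [v3] at r4 r5
  have v4 : c 4 = 42 := by linarith
  rw [v4] at r5
  have v5 : c 5 = 78 := by linarith
  exact ⟨hc0, v1, v2, v3, v4, v5⟩

theorem E7_expand : QQ 8 4 2 1 =
    (C 1 + C (-2) * X ^ 1 + C (-2) * X ^ 2 + C 4 * X ^ 3 + C 3 * X ^ 4) +
    (-7 - 4 * X + 5 * X ^ 2 + 4 * X ^ 3 + 5 * X ^ 4 - 4 * X ^ 5 - 7 * X ^ 6 + 3 * X ^ 8 + 4 * X ^ 9 - 2 * X ^ 10 - 2 * X ^ 11 + X ^ 12) * X ^ 6 := by
  unfold QQ
  simp only [map_neg, map_ofNat, map_one]
  ring

/-- the values of `c` for `E7`. -/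
theorem E7_c {P : ℚ[X]} {c : ℕ → ℚ} (h : (P : PowerSeries ℚ) * PowerSeries.mk c = 1)
    (hP : P = QQ 8 4 2 1) : c 0 = 1 ∧ c 1 = 2 ∧ c 2 = 6 ∧ c 3 = 12 ∧ c 4 = 25 ∧ c 5 = 44 := by
  have h0 : P.coeff 0 = 1 := by rw [hP, QQ_c0]
  obtain ⟨hc0, hr⟩ := low_c h h0
  have hco : ∀ n < 6, P.coeff n =
      (C 1 + C (-2) * X ^ 1 + C (-2) * X ^ 2 + C 4 * X ^ 3 + C 3 * X ^ 4 : ℚ[X]).coeff n := by
    intro n hn
    rw [hP, E7_expand, coeff_add, coeff_mul_X_pow', if_neg (by omega), add_zero]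
  have h1 : P.coeff 1 = -2 := by
    rw [hco 1 (by norm_num)]; simp [coeff_C, coeff_one]
  have h2 : P.coeff 2 = -2 := by
    rw [hco 2 (by norm_num)]; simp [coeff_C, coeff_one]
  have h3 : P.coeff 3 = 4 := by
    rw [hco 3 (by norm_num)]; simp [coeff_C, coeff_one]
  have h4 : P.coeff 4 = 3 := by
    rw [hco 4 (by norm_num)]; simp [coeff_C, coeff_one]
  have h5 : P.coeff 5 = 0 := by
    rw [hco 5 (by norm_num)]; simp [coeff_C, coeff_one]
  have r1 := hr 1 (by norm_num)
  have r2 := hr 2 (by norm_num)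
  have r3 := hr 3 (by norm_num)
  have r4 := hr 4 (by norm_num)
  have r5 := hr 5 (by norm_num)
  simp only [Finset.sum_range_succ, Finset.sum_range_zero, hc0, Nat.sub_zero, Nat.reduceSub, h0,
    h1, h2, h3, h4, h5] at r1 r2 r3 r4 r5
  have v1 : c 1 = 2 := by linarith
  rw [v1] at r2 r3 r4 r5
  have v2 : c 2 = 6 := by linarith
  rw [v2] at r3 r4 r5
  have v3 : c 3 = 12 := by linarith
  rw [v3] at r4 r5
  have v4 : c 4 = 25 := by linarith
  rw [v4] at r5
  have v5 : c 5 = 44 := by linarith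
  exact ⟨hc0, v1, v2, v3, v4, v5⟩

/-- type `A_n`. -/
theorem An_c {P : ℚ[X]} {c : ℕ → ℚ} (h : (P : PowerSeries ℚ) * PowerSeries.mk c = 1) (n : ℕ)
    (hP : P = (1 - X) ^ (n + 1)) (g : ℕ) : c g = ((g + n).choose n : ℕ) := by
  have h1 : (P : PowerSeries ℚ) = (1 - PowerSeries.X) ^ (n + 1) := by
    rw [hP]
    simp
  have h2 : PowerSeries.mk c = PowerSeries.mk (fun i => ((n + i).choose n : ℚ)) := by
    have h3 : (1 - PowerSeries.X : PowerSeries ℚ) ^ (n + 1) *
        PowerSeries.mk (fun i => ((n + i).choose n : ℚ)) = 1 := by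
      have h4 := PowerSeries.mk_add_choose_mul_one_sub_pow_eq_one ℚ n
      rw [mul_comm]
      exact h4
    rw [h1] at h
    have h5 : PowerSeries.mk c = (PowerSeries.mk c) * ((1 - PowerSeries.X : PowerSeries ℚ) ^ (n + 1) *
        PowerSeries.mk (fun i => ((n + i).choose n : ℚ))) := by rw [h3, mul_one]
    rw [h5, ← mul_assoc, mul_comm (PowerSeries.mk c), h, one_mul]
  have h6 := congrArg (PowerSeries.coeff g) h2
  rw [PowerSeries.coeff_mk, PowerSeries.coeff_mk] at h6
  rw [h6, Nat.add_comm]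

/-- `P = (1 - X) ^ (n + 1)` from the degree. -/
theorem An {P : ℚ[X]} {c : ℕ → ℚ} {m : ℕ} {l : ℚ} {k : ℕ} (h : PC P c m l k) (hm : m = k) :
    P = (1 - X) ^ k := by
  obtain ⟨W, hW⟩ := h.one
  have hP0 : P ≠ 0 := by
    rintro rfl
    have := h.c0
    simp at this
  have hd := natDegree_factor hW hP0
  rw [h.deg, natDegree_pow, nd1] at hd
  have hWd : W.natDegree = 0 := by omega
  have hW0 : W.coeff 0 = 1 := by
    have h1 := h.c0
    rw [hW, mul_coeff_zero] at h1
    have h2 : ((1 - X : ℚ[X]) ^ k).coeff 0 = 1 := by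
      rw [coeff_zero_eq_eval_zero]; simp
    rw [h2, one_mul] at h1
    exact h1
  have h3 : W = 1 := by
    rw [eq_C_of_natDegree_eq_zero hWd, hW0, C_1]
  rw [hW, h3, mul_one]

end Pool.H27.PD

end

section

/-!
KAC, affine case: expansions `a + b / l + O(1 / l ^ 2)` along the prime numbers.
-/

set_option autoImplicit false

namespace Pool.H88.KA

open scoped BigOperators
open Polynomial

/-- `f l = a + b / l + O(1 / l ^ 2)` for prime numbers `l`. -/
def AsE (f : ℕ → ℚ) (a b : ℚ) : Prop :=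
  ∃ C : ℚ, 0 ≤ C ∧ ∀ l : ℕ, l.Prime → |f l - a - b / l| ≤ C / (l : ℚ) ^ 2

theorem AsE.congr {f g : ℕ → ℚ} {a b : ℚ} (h : AsE f a b) (hfg : ∀ l : ℕ, l.Prime → f l = g l) :
    AsE g a b := by
  obtain ⟨C, hC, h⟩ := h
  refine ⟨C, hC, fun l hl => ?_⟩
  rw [← hfg l hl]
  exact h l hl

theorem AsE.val {f : ℕ → ℚ} {a b a' b' : ℚ} (h : AsE f a b) (ha : a = a') (hb : b = b') :
    AsE f a' b' := by
  rw [← ha, ← hb]
  exact h

theorem AsE.const (c : ℚ) : AsE (fun _ => c) c 0 :=
  ⟨0, le_refl _, fun l _ => by simp⟩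

theorem AsE.add {f g : ℕ → ℚ} {a b a' b' : ℚ} (h : AsE f a b) (h' : AsE g a' b') :
    AsE (fun l => f l + g l) (a + a') (b + b') := by
  obtain ⟨C, hC, h⟩ := h
  obtain ⟨C', hC', h'⟩ := h'
  refine ⟨C + C', by positivity, fun l hl => ?_⟩
  have e : f l + g l - (a + a') - (b + b') / l =
      (f l - a - b / l) + (g l - a' - b' / l) := by ring
  rw [e, add_div]
  exact (abs_add_le _ _).trans (add_le_add (h l hl) (h' l hl))

theorem AsE.neg {f : ℕ → ℚ} {a b : ℚ} (h : AsE f a b) : AsE (fun l => -f l) (-a) (-b) := by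
  obtain ⟨C, hC, h⟩ := h
  refine ⟨C, hC, fun l hl => ?_⟩
  have e : -f l - -a - -b / l = -(f l - a - b / l) := by ring
  rw [e, abs_neg]
  exact h l hl

theorem AsE.sub {f g : ℕ → ℚ} {a b a' b' : ℚ} (h : AsE f a b) (h' : AsE g a' b') :
    AsE (fun l => f l - g l) (a - a') (b - b') := by
  have h1 := h.add h'.neg
  simp only [← sub_eq_add_neg] at h1
  exact h1

theorem AsE.mul {f g : ℕ → ℚ} {a b a' b' : ℚ} (h : AsE f a b) (h' : AsE g a' b') :
    AsE (fun l => f l * g l) (a * a') (a * b' + a' * b) := by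
  obtain ⟨C, hC, h⟩ := h
  obtain ⟨C', hC', h'⟩ := h'
  refine ⟨|b * b'| + C * (|a'| + |b'| + C') + C' * (|a| + |b|), by positivity, fun l hl => ?_⟩
  have hl1 : (1 : ℚ) ≤ l := by exact_mod_cast hl.one_lt.le
  have hl0 : (0 : ℚ) < l := by linarith
  obtain ⟨x, hx⟩ : ∃ x, x = f l - a - b / l := ⟨_, rfl⟩
  obtain ⟨y, hy⟩ : ∃ y, y = g l - a' - b' / l := ⟨_, rfl⟩
  have h1 := h l hl
  have h2 := h' l hl
  rw [← hx] at h1
  rw [← hy] at h2
  have e : f l * g l - a * a' - (a * b' + a' * b) / l =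
      b * b' / (l : ℚ) ^ 2 + x * (a' + b' / l + y) + y * (a + b / l) := by
    have e1 : f l = x + a + b / l := by rw [hx]; ring
    have e2 : g l = y + a' + b' / l := by rw [hy]; ring
    rw [e1, e2]
    ring
  rw [e]
  have hsq : (1 : ℚ) ≤ (l : ℚ) ^ 2 := by nlinarith
  have k0 : ∀ z : ℚ, |z / l| ≤ |z| := by
    intro z
    rw [abs_div, abs_of_pos hl0]
    exact div_le_self (abs_nonneg z) hl1
  have k1 : |a' + b' / l + y| ≤ |a'| + |b'| + C' := by
    refine (abs_add_le _ _).trans (add_le_add ((abs_add_le _ _).trans (add_le_add (le_refl _) (k0 b'))) ?_)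
    exact h2.trans (div_le_self hC' hsq)
  have k2 : |a + b / l| ≤ |a| + |b| := (abs_add_le _ _).trans (add_le_add (le_refl _) (k0 b))
  have t1 : |b * b' / (l : ℚ) ^ 2| = |b * b'| / (l : ℚ) ^ 2 := by
    rw [abs_div, abs_of_pos (by positivity : (0 : ℚ) < (l : ℚ) ^ 2)]
  have t2 : |x * (a' + b' / l + y)| ≤ C * (|a'| + |b'| + C') / (l : ℚ) ^ 2 := by
    rw [abs_mul]
    calc |x| * |a' + b' / l + y| ≤ C / (l : ℚ) ^ 2 * (|a'| + |b'| + C') :=
          mul_le_mul h1 k1 (abs_nonneg _) (by positivity)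
      _ = _ := by ring
  have t3 : |y * (a + b / l)| ≤ C' * (|a| + |b|) / (l : ℚ) ^ 2 := by
    rw [abs_mul]
    calc |y| * |a + b / l| ≤ C' / (l : ℚ) ^ 2 * (|a| + |b|) :=
          mul_le_mul h2 k2 (abs_nonneg _) (by positivity)
      _ = _ := by ring
  calc |b * b' / (l : ℚ) ^ 2 + x * (a' + b' / l + y) + y * (a + b / l)|
      ≤ |b * b' / (l : ℚ) ^ 2| + |x * (a' + b' / l + y)| + |y * (a + b / l)| :=
        (abs_add_le _ _).trans (add_le_add (abs_add_le _ _) (le_refl _))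
    _ ≤ |b * b'| / (l : ℚ) ^ 2 + C * (|a'| + |b'| + C') / (l : ℚ) ^ 2 +
          C' * (|a| + |b|) / (l : ℚ) ^ 2 := by
        rw [t1]
        exact add_le_add (add_le_add (le_refl _) t2) t3
    _ = _ := by ring

theorem AsE.const_mul {f : ℕ → ℚ} {a b : ℚ} (c : ℚ) (h : AsE f a b) :
    AsE (fun l => c * f l) (c * a) (c * b) :=
  ((AsE.const c).mul h).val rfl (by ring)

theorem AsE.zero : AsE (fun _ => 0) 0 0 := AsE.const 0

theorem AsE.sum {ι : Type*} (s : Finset ι) {f : ι → ℕ → ℚ} {a b : ι → ℚ}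
    (h : ∀ i ∈ s, AsE (f i) (a i) (b i)) :
    AsE (fun l => ∑ i ∈ s, f i l) (∑ i ∈ s, a i) (∑ i ∈ s, b i) := by
  classical
  induction s using Finset.induction_on with
  | empty => simpa using AsE.zero
  | insert i s hi ih =>
    simp only [Finset.sum_insert hi]
    exact (h i (Finset.mem_insert_self i s)).add
      (ih fun j hj => h j (Finset.mem_insert_of_mem hj))

theorem AsE.prod_one {ι : Type*} (s : Finset ι) {f : ι → ℕ → ℚ} {b : ι → ℚ}
    (h : ∀ i ∈ s, AsE (f i) 1 (b i)) :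
    AsE (fun l => ∏ i ∈ s, f i l) 1 (∑ i ∈ s, b i) := by
  classical
  induction s using Finset.induction_on with
  | empty => simpa using AsE.const 1
  | insert i s hi ih =>
    simp only [Finset.prod_insert hi, Finset.sum_insert hi]
    exact ((h i (Finset.mem_insert_self i s)).mul
      (ih fun j hj => h j (Finset.mem_insert_of_mem hj))).val (by ring) (by ring)

/-- a rational number which is `O(1 / l)` is zero. -/
theorem AsE_zero_of {c C : ℚ} (h : ∀ l : ℕ, l.Prime → |c| ≤ C / l) : c = 0 := by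
  by_contra hc
  have hc0 : 0 < |c| := abs_pos.2 hc
  obtain ⟨l, hl, hp⟩ := Nat.exists_infinite_primes (⌈C / |c|⌉₊ + 1)
  have h1 := h l hp
  have hl0 : (0 : ℚ) < l := by exact_mod_cast hp.pos
  have h2 : C / |c| < l := by
    have h3 : C / |c| ≤ (⌈C / |c|⌉₊ : ℚ) := Nat.le_ceil _
    have h4 : ((⌈C / |c|⌉₊ : ℕ) : ℚ) + 1 ≤ l := by exact_mod_cast hl
    linarith
  rw [div_lt_iff₀ hc0] at h2
  rw [le_div_iff₀ hl0] at h1
  linarith

theorem AsE.unique {f : ℕ → ℚ} {a b a' b' : ℚ} (h : AsE f a b) (h' : AsE f a' b') :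
    a = a' ∧ b = b' := by
  have h0 := h.sub h'
  simp only [sub_self] at h0
  obtain ⟨C, hC, h0⟩ := h0
  obtain ⟨x, hx⟩ : ∃ x, x = a - a' := ⟨_, rfl⟩
  obtain ⟨y, hy⟩ : ∃ y, y = b - b' := ⟨_, rfl⟩
  rw [← hx, ← hy] at h0
  have h1 : ∀ l : ℕ, l.Prime → |x + y / l| ≤ C / (l : ℚ) ^ 2 := by
    intro l hl
    have e : x + y / l = -(0 - x - y / l) := by ring
    rw [e, abs_neg]
    exact h0 l hl
  have hx0 : x = 0 := by
    apply AsE_zero_of (C := |y| + C)
    intro l hl
    have hl1 : (1 : ℚ) ≤ l := by exact_mod_cast hl.one_lt.le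
    have hl0 : (0 : ℚ) < l := by linarith
    have e : x = (x + y / l) - y / l := by ring
    have h2 : C / (l : ℚ) ^ 2 ≤ C / l := by
      apply div_le_div_of_nonneg_left hC hl0
      nlinarith
    have h3 : |y / l| = |y| / l := by rw [abs_div, abs_of_pos hl0]
    calc |x| = |(x + y / l) - y / l| := by rw [← e]
      _ ≤ |x + y / l| + |y / l| := abs_sub _ _
      _ ≤ C / l + |y| / l := by
        rw [h3]
        exact add_le_add ((h1 l hl).trans h2) (le_refl _)
      _ = (|y| + C) / l := by ring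
  have hy0 : y = 0 := by
    apply AsE_zero_of (C := C)
    intro l hl
    have hl0 : (0 : ℚ) < l := by exact_mod_cast hl.pos
    have h2 := h1 l hl
    rw [hx0, zero_add, abs_div, abs_of_pos hl0, div_le_iff₀ hl0] at h2
    refine h2.trans (le_of_eq ?_)
    field_simp
  constructor
  · linarith
  · linarith

theorem AsE.inv_pow (h : ℕ) : AsE (fun l => ((l : ℚ)⁻¹) ^ h) (if h = 0 then 1 else 0)
    (if h = 1 then 1 else 0) := by
  refine ⟨1, zero_le_one, fun l hl => ?_⟩
  have hl1 : (1 : ℚ) ≤ l := by exact_mod_cast hl.one_lt.le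
  have hl0 : (0 : ℚ) < l := by linarith
  rcases h with _ | _ | h
  · simp
  · simp
  · rw [if_neg (by omega), if_neg (by omega), zero_div, sub_zero, sub_zero,
      abs_of_nonneg (by positivity), one_div, ← _root_.inv_pow]
    apply pow_le_pow_of_le_one (by positivity)
    · exact inv_le_one_of_one_le₀ hl1
    · omega

theorem AsE.geo (j : ℕ) : AsE (fun l => (1 - ((l : ℚ)⁻¹) ^ (j + 1))⁻¹) 1
    (if j = 0 then 1 else 0) := by
  refine ⟨2, by norm_num, fun l hl => ?_⟩
  have hl2 : (2 : ℚ) ≤ l := by exact_mod_cast hl.two_le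
  have hl0 : (0 : ℚ) < l := by linarith
  obtain ⟨x, hx⟩ : ∃ x, x = (l : ℚ)⁻¹ := ⟨_, rfl⟩
  have hx0 : 0 < x := by rw [hx]; positivity
  have hx1 : x ≤ 1 / 2 := by
    rw [hx, one_div]
    exact inv_anti₀ (by norm_num) hl2
  have hx2 : 2 / (l : ℚ) ^ 2 = 2 * x ^ 2 := by
    rw [hx]
    field_simp
  have hxd : ∀ z : ℚ, z / l = z * x := fun z => by rw [hx, div_eq_mul_inv]
  rw [hx2, hxd]
  beta_reduce
  rw [← hx]
  have hy : x ^ (j + 1) ≤ 1 / 2 := by
    calc x ^ (j + 1) ≤ x ^ 1 := pow_le_pow_of_le_one hx0.le (by linarith) (by omega)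
      _ ≤ 1 / 2 := by rw [pow_one]; exact hx1
  have hy0 : 0 < x ^ (j + 1) := by positivity
  have hd : 0 < 1 - x ^ (j + 1) := by linarith
  have e1 : (1 - x ^ (j + 1))⁻¹ = 1 + x ^ (j + 1) * (1 - x ^ (j + 1))⁻¹ := by
    field_simp
    ring
  have hinv : (1 - x ^ (j + 1))⁻¹ ≤ 2 := by
    rw [inv_le_comm₀ hd (by norm_num)]
    linarith
  have hinv0 : 0 < (1 - x ^ (j + 1))⁻¹ := inv_pos.2 hd
  rcases Nat.eq_zero_or_pos j with h0 | h0
  · subst h0
    simp only [zero_add, pow_one, if_true, one_mul] at *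
    have e2 : (1 - x)⁻¹ - 1 - x = x ^ 2 * (1 - x)⁻¹ := by
      field_simp
      ring
    rw [e2, abs_of_nonneg (by positivity)]
    nlinarith [sq_nonneg x]
  · rw [if_neg (by omega), zero_mul, sub_zero, e1]
    have e3 : 1 + x ^ (j + 1) * (1 - x ^ (j + 1))⁻¹ - 1 = x ^ (j + 1) * (1 - x ^ (j + 1))⁻¹ := by
      ring
    rw [e3, abs_of_nonneg (by positivity)]
    have h4 : x ^ (j + 1) ≤ x ^ 2 := pow_le_pow_of_le_one hx0.le (by linarith) (by omega)
    calc x ^ (j + 1) * (1 - x ^ (j + 1))⁻¹ ≤ x ^ 2 * 2 :=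
          mul_le_mul h4 hinv hinv0.le (by positivity)
      _ = _ := by ring

/-- a polynomial which is `O(1 / l)` along the prime numbers is zero. -/
theorem poly_eq_zero_of {p : ℚ[X]} {C : ℚ} (hC : 0 ≤ C)
    (h : ∀ l : ℕ, l.Prime → |p.eval (l : ℚ)| ≤ C / l) : p = 0 := by
  by_cases hd : 0 < p.degree
  · exfalso
    have h1 := Polynomial.abs_tendsto_atTop p hd
    have h2 := (h1.eventually_gt_atTop C).exists_forall_of_atTop
    obtain ⟨x, hx⟩ := h2
    obtain ⟨l, hl, hp⟩ := Nat.exists_infinite_primes ⌈x⌉₊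
    have h3 : x ≤ (l : ℚ) := (Nat.le_ceil x).trans (by exact_mod_cast hl)
    have h4 := hx l h3
    have h5 := h l hp
    have hl1 : (1 : ℚ) ≤ l := by exact_mod_cast hp.one_lt.le
    have h6 : C / l ≤ C := div_le_self hC hl1
    linarith
  · have h1 : p = Polynomial.C (p.coeff 0) := Polynomial.eq_C_of_degree_le_zero (not_lt.1 hd)
    have h2 : p.coeff 0 = 0 := by
      apply AsE_zero_of (C := C)
      intro l hl
      have h3 := h l hl
      rw [h1] at h3
      simpa using h3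
    rw [h1, h2, map_zero]

theorem poly_of_AsE (p : ℚ[X]) (a b : ℚ)
    (h : AsE (fun l => p.eval (l : ℚ) / ((l : ℚ) - 1)) a b) :
    p = Polynomial.C a * (Polynomial.X - 1) + Polynomial.C b := by
  obtain ⟨C, hC, h⟩ := h
  have h1 : p - (Polynomial.C a * (Polynomial.X - 1) + Polynomial.C b) = 0 := by
    apply poly_eq_zero_of (C := C + |b|) (by positivity)
    intro l hl
    have hl2 : (2 : ℚ) ≤ l := by exact_mod_cast hl.two_le
    have hl0 : (0 : ℚ) < l := by linarith
    have hl1 : (0 : ℚ) < (l : ℚ) - 1 := by linarith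
    have h2 := h l hl
    obtain ⟨x, hx⟩ : ∃ x, x = p.eval (l : ℚ) / ((l : ℚ) - 1) - a - b / l := ⟨_, rfl⟩
    rw [← hx] at h2
    have e : (p - (Polynomial.C a * (Polynomial.X - 1) + Polynomial.C b)).eval (l : ℚ) =
        x * ((l : ℚ) - 1) - b / l := by
      simp only [eval_sub, eval_add, eval_mul, eval_C, eval_X, eval_one]
      rw [hx]
      field_simp
      ring
    rw [e]
    have h3 : |x * ((l : ℚ) - 1)| ≤ C / l := by
      rw [abs_mul, abs_of_pos hl1]
      calc |x| * ((l : ℚ) - 1) ≤ C / (l : ℚ) ^ 2 * l :=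
            mul_le_mul h2 (by linarith) hl1.le (by positivity)
        _ = C / l := by field_simp
    have h4 : |b / l| = |b| / l := by rw [abs_div, abs_of_pos hl0]
    calc |x * ((l : ℚ) - 1) - b / l| ≤ |x * ((l : ℚ) - 1)| + |b / l| := abs_sub _ _
      _ ≤ C / l + |b| / l := by
        rw [h4]
        exact add_le_add h3 (le_refl _)
      _ = (C + |b|) / l := by ring
  exact sub_eq_zero.1 h1

end Pool.H88.KA

end

section

/-!
KAC ADE numbers, analysis 1: the roots of `Q` are on the unit circle.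

If `Q * C = 1` as power series over `ℚ`, `C = ∑ c_g t^g` with `|c_g| ≤ K (g+1)^D`, then for `|z| < 1` the series
`∑ c_g z^g` converges absolutely and `Q(z) * ∑ c_g z^g = 1` (Cauchy product), so `Q(z) ≠ 0`.  If moreover the leading
coefficient is `±1` and `Q(0) = 1`, the product of the moduli of the roots is one, so all roots have modulus one.
-/

set_option autoImplicit false

namespace Pool.H88.KA

open Polynomial

private lemma FJ1_summable (c : ℕ → ℚ) (K D : ℕ) (hgrow : ∀ g, |c g| ≤ K * ((g : ℚ) + 1) ^ D)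
    (z : ℂ) (hz : ‖z‖ < 1) : Summable fun g : ℕ => ‖((c g : ℚ) : ℂ) * z ^ g‖ := by
  set r : ℝ := (1 + ‖z‖) / 2 with hr
  have hz0 : 0 ≤ ‖z‖ := norm_nonneg z
  have hr0 : 0 < r := by rw [hr]; linarith
  have hr1 : r < 1 := by rw [hr]; linarith
  have hzr : ‖z‖ ≤ r := by rw [hr]; linarith
  have h1 : Summable fun n : ℕ => ((n : ℕ) : ℝ) ^ D * r ^ n :=
    summable_pow_mul_geometric_of_norm_lt_one D (by rwa [Real.norm_of_nonneg hr0.le])
  have h2 : Summable fun n : ℕ => (((n + 1 : ℕ)) : ℝ) ^ D * r ^ (n + 1) :=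
    (summable_nat_add_iff 1).mpr h1
  have h3 := h2.mul_left ((K : ℝ) * r⁻¹)
  refine Summable.of_nonneg_of_le (fun g => norm_nonneg _) ?_ h3
  intro g
  rw [norm_mul, norm_pow]
  have h4 : ‖((c g : ℚ) : ℂ)‖ ≤ (K : ℝ) * (((g + 1 : ℕ)) : ℝ) ^ D := by
    rw [← Complex.ofReal_ratCast, Complex.norm_real, Real.norm_eq_abs]
    have h5 := hgrow g
    have h6 : (((|c g| : ℚ)) : ℝ) ≤ ((K * ((g : ℚ) + 1) ^ D : ℚ) : ℝ) := by exact_mod_cast h5
    push_cast at h6 ⊢
    exact h6
  have h5 : ‖z‖ ^ g ≤ r ^ g := pow_le_pow_left₀ hz0 hzr g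
  calc ‖((c g : ℚ) : ℂ)‖ * ‖z‖ ^ g ≤ ((K : ℝ) * (((g + 1 : ℕ)) : ℝ) ^ D) * r ^ g :=
        mul_le_mul h4 h5 (by positivity) (by positivity)
    _ = (K : ℝ) * r⁻¹ * ((((g + 1 : ℕ)) : ℝ) ^ D * r ^ (g + 1)) := by
        rw [pow_succ]
        field_simp

theorem norm_root_ge (Q : Polynomial ℚ) (c : ℕ → ℚ)
    (hmul : (Q : PowerSeries ℚ) * PowerSeries.mk c = 1)
    (hgrow : ∃ K D : ℕ, ∀ g, |c g| ≤ K * ((g : ℚ) + 1) ^ D)
    (z : ℂ) (hz : Polynomial.aeval z Q = 0) : 1 ≤ ‖z‖ := by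
  by_contra hlt
  rw [not_le] at hlt
  obtain ⟨K, D, hg⟩ := hgrow
  have hs := FJ1_summable c K D hg z hlt
  have hq0 : ∀ i : ℕ, i ∉ Finset.range (Q.natDegree + 1) →
      ((Q.coeff i : ℚ) : ℂ) * z ^ i = 0 := by
    intro i hi
    rw [Finset.mem_range, not_lt] at hi
    rw [Polynomial.coeff_eq_zero_of_natDegree_lt (by omega)]
    simp
  have hq : Summable fun i : ℕ => ‖((Q.coeff i : ℚ) : ℂ) * z ^ i‖ := by
    apply summable_of_ne_finset_zero (s := Finset.range (Q.natDegree + 1))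
    intro i hi
    rw [hq0 i hi, norm_zero]
  have hqs : ∑' i : ℕ, ((Q.coeff i : ℚ) : ℂ) * z ^ i = 0 := by
    rw [tsum_eq_sum hq0, ← hz, Polynomial.aeval_eq_sum_range]
    refine Finset.sum_congr rfl fun i _ => ?_
    rw [Algebra.smul_def]
    rfl
  have hprod := tsum_mul_tsum_eq_tsum_sum_antidiagonal_of_summable_norm hq hs
  rw [hqs, zero_mul] at hprod
  have hterm : ∀ n : ℕ, ∑ kl ∈ Finset.HasAntidiagonal.antidiagonal n,
      (((Q.coeff kl.1 : ℚ) : ℂ) * z ^ kl.1) * (((c kl.2 : ℚ) : ℂ) * z ^ kl.2) =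
      if n = 0 then 1 else 0 := by
    intro n
    have h1 : ∑ kl ∈ Finset.HasAntidiagonal.antidiagonal n, Q.coeff kl.1 * c kl.2 = if n = 0 then 1 else 0 := by
      have h2 := congrArg (PowerSeries.coeff n) hmul
      rw [PowerSeries.coeff_mul, PowerSeries.coeff_one] at h2
      rw [← h2]
      refine Finset.sum_congr rfl fun kl _ => ?_
      rw [Polynomial.coeff_coe, PowerSeries.coeff_mk]
    have h3 : ∑ kl ∈ Finset.HasAntidiagonal.antidiagonal n,
        (((Q.coeff kl.1 : ℚ) : ℂ) * z ^ kl.1) * (((c kl.2 : ℚ) : ℂ) * z ^ kl.2) =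
        ((∑ kl ∈ Finset.HasAntidiagonal.antidiagonal n, Q.coeff kl.1 * c kl.2 : ℚ) : ℂ) * z ^ n := by
      push_cast
      rw [Finset.sum_mul]
      refine Finset.sum_congr rfl fun kl hkl => ?_
      rw [← Finset.HasAntidiagonal.mem_antidiagonal.mp hkl, pow_add]
      ring
    rw [h3, h1]
    by_cases hn : n = 0
    · subst hn; simp
    · simp [hn]
  rw [tsum_congr hterm, tsum_ite_eq] at hprod
  exact zero_ne_one hprod

private lemma FJ1_prod_ge (s : Multiset ℂ) (h : ∀ w ∈ s, 1 ≤ ‖w‖) : 1 ≤ ‖s.prod‖ := by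
  induction s using Multiset.induction_on with
  | empty => simp
  | cons a s ih =>
    rw [Multiset.prod_cons, norm_mul]
    have h1 := h a (Multiset.mem_cons_self a s)
    have h2 := ih (fun w hw => h w (Multiset.mem_cons_of_mem hw))
    nlinarith

theorem norm_root_eq (Q : Polynomial ℚ) (c : ℕ → ℚ)
    (h0 : Q.coeff 0 = 1) (hlead : Q.leadingCoeff = 1 ∨ Q.leadingCoeff = -1)
    (hmul : (Q : PowerSeries ℚ) * PowerSeries.mk c = 1)
    (hgrow : ∃ K D : ℕ, ∀ g, |c g| ≤ K * ((g : ℚ) + 1) ^ D)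
    (z : ℂ) (hz : Polynomial.aeval z Q = 0) : ‖z‖ = 1 := by
  have hge := norm_root_ge Q c hmul hgrow
  refine le_antisymm ?_ (hge z hz)
  set P : Polynomial ℂ := Q.map (algebraMap ℚ ℂ) with hP
  have hP0 : P ≠ 0 := by
    intro h1
    have h2 : P.coeff 0 = 1 := by rw [hP, Polynomial.coeff_map, h0, map_one]
    rw [h1, Polynomial.coeff_zero] at h2
    exact zero_ne_one h2
  have hroot : ∀ w : ℂ, w ∈ P.roots ↔ Polynomial.aeval w Q = 0 := by
    intro w
    rw [Polynomial.mem_roots hP0, Polynomial.IsRoot.def, hP, Polynomial.eval_map_algebraMap]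
  have hsp : P.Splits := IsAlgClosed.splits P
  have h1 := hsp.coeff_zero_eq_leadingCoeff_mul_prod_roots
  have h2 : P.coeff 0 = 1 := by rw [hP, Polynomial.coeff_map, h0, map_one]
  have h3 : ‖P.leadingCoeff‖ = 1 := by
    rw [hP, Polynomial.leadingCoeff_map]
    rcases hlead with h4 | h4
    · rw [h4, map_one, norm_one]
    · rw [h4, map_neg, map_one, norm_neg, norm_one]
  have h4 : ‖P.roots.prod‖ = 1 := by
    have h5 := congrArg norm h1
    rw [h2, norm_mul, norm_mul, h3, norm_pow, norm_neg, norm_one, one_pow, one_mul, one_mul] at h5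
    exact h5.symm
  obtain ⟨s, hs⟩ := Multiset.exists_cons_of_mem ((hroot z).mpr hz)
  rw [hs, Multiset.prod_cons, norm_mul] at h4
  have h5 : 1 ≤ ‖s.prod‖ := by
    apply FJ1_prod_ge
    intro w hw
    apply hge w
    rw [← hroot w, hs]
    exact Multiset.mem_cons_of_mem hw
  have h6 := norm_nonneg z
  nlinarith

end Pool.H88.KA

end

section

/-!
KAC ADE numbers, analysis 2: Fejer positivity.

Let `R` be a real polynomial, `R(0) = 1`, all complex roots on the unit circle.  Then the power series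
`1 / ((1 - X)^(deg R) R)` has nonnegative coefficients.

Proof: strong induction on the degree.  If `R` is not constant take a monic irreducible (over `ℝ`) factor; its degree is
one or two (`Irreducible.degree_le_two`).  Normalise it to have constant coefficient one.
Degree one: the factor is `1 - X` or `1 + X`, and `1 / ((1 - X)(1 ± X))` has nonnegative coefficients (for `1 + X` it is
`1 / (1 - X^2)`).
Degree two: the factor is `1 - u X + X^2` with `u = β + conj β`, `|u| ≤ 2`, `u < 2`.  Let `U_n` be the coefficients of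
`1 / (1 - u X + X^2)`, `|U_n| ≤ n + 1` since `U_n = ∑_{j ≤ n} β^j (conj β)^(n - j)`.  As
`1 - u X + X^2 = (1 - X)^2 + (2 - u) X`, the coefficient `D_n` of `1 / ((1 - X)^2 (1 - u X + X^2))` satisfies
`(2 - u) D_n = (n + 2) - U_{n+1} ≥ 0`.
Products of power series with nonnegative coefficients have nonnegative coefficients.
-/

set_option autoImplicit false

namespace Pool.H88.KA

open Polynomial

/-- `F` is a power series with nonnegative coefficients. -/
def PNN (F : PowerSeries ℝ) : Prop := ∀ n, 0 ≤ PowerSeries.coeff n F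

theorem PNN.mul {F G : PowerSeries ℝ} (hF : PNN F) (hG : PNN G) : PNN (F * G) := by
  intro n
  rw [PowerSeries.coeff_mul]
  exact Finset.sum_nonneg fun p _ => mul_nonneg (hF _) (hG _)

theorem FJ2_inv_uniq {F G P : PowerSeries ℝ} (hF : F * P = 1) (hG : G * P = 1) : F = G := by
  calc F = F * (G * P) := by rw [hG, mul_one]
    _ = G * (F * P) := by ring
    _ = G := by rw [hF, mul_one]

/-- coefficients of a power series inverse to a quadratic polynomial -/
theorem FJ2_rec {A : PowerSeries ℝ} {a b : ℝ}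
    (hA : A * ((1 - PowerSeries.C a * PowerSeries.X + PowerSeries.C b * PowerSeries.X ^ 2)
      : PowerSeries ℝ) = 1) :
    PowerSeries.coeff 0 A = 1 ∧ PowerSeries.coeff 1 A = a * PowerSeries.coeff 0 A ∧
      ∀ n, PowerSeries.coeff (n + 2) A
        = a * PowerSeries.coeff (n + 1) A - b * PowerSeries.coeff n A := by
  have e : A * ((1 - PowerSeries.C a * PowerSeries.X + PowerSeries.C b * PowerSeries.X ^ 2)
      : PowerSeries ℝ) = A - PowerSeries.C a * (A * PowerSeries.X)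
        + PowerSeries.C b * (A * PowerSeries.X * PowerSeries.X) := by ring
  rw [e] at hA
  refine ⟨?_, ?_, ?_⟩
  · have h := congrArg (PowerSeries.coeff 0) hA
    simpa using h
  · have h := congrArg (PowerSeries.coeff 1) hA
    rw [map_add, map_sub, PowerSeries.coeff_C_mul, PowerSeries.coeff_C_mul] at h
    have h1 : PowerSeries.coeff 1 (A * PowerSeries.X) = PowerSeries.coeff 0 A :=
      PowerSeries.coeff_succ_mul_X 0 A
    have h2 : PowerSeries.coeff 1 (A * PowerSeries.X * PowerSeries.X) = 0 := by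
      have h3 : PowerSeries.coeff 1 (A * PowerSeries.X * PowerSeries.X)
          = PowerSeries.coeff 0 (A * PowerSeries.X) := PowerSeries.coeff_succ_mul_X 0 _
      rw [h3]
      simp
    have h4 : PowerSeries.coeff 1 (1 : PowerSeries ℝ) = 0 := by
      rw [PowerSeries.coeff_one]
      simp
    rw [h1, h2, h4] at h
    linarith
  · intro n
    have h := congrArg (PowerSeries.coeff (n + 2)) hA
    rw [map_add, map_sub, PowerSeries.coeff_C_mul, PowerSeries.coeff_C_mul] at h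
    have h1 : PowerSeries.coeff (n + 2) (A * PowerSeries.X) = PowerSeries.coeff (n + 1) A :=
      PowerSeries.coeff_succ_mul_X (n + 1) A
    have h2 : PowerSeries.coeff (n + 2) (A * PowerSeries.X * PowerSeries.X)
        = PowerSeries.coeff n A := by
      have h3 : PowerSeries.coeff (n + 2) (A * PowerSeries.X * PowerSeries.X)
          = PowerSeries.coeff (n + 1) (A * PowerSeries.X) := PowerSeries.coeff_succ_mul_X (n + 1) _
      rw [h3]
      exact PowerSeries.coeff_succ_mul_X n A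
    have h4 : PowerSeries.coeff (n + 2) (1 : PowerSeries ℝ) = 0 := by
      rw [PowerSeries.coeff_one]
      simp
    rw [h1, h2, h4] at h
    linarith

theorem FJ2_geom : ∃ G : PowerSeries ℝ, PNN G ∧ G * (1 - PowerSeries.X) = 1 := by
  refine ⟨PowerSeries.mk fun _ => 1, ?_, ?_⟩
  · intro n
    rw [PowerSeries.coeff_mk]
    exact zero_le_one
  · exact PowerSeries.mk_one_mul_one_sub_eq_one ℝ

theorem FJ2_inv_sq {B : PowerSeries ℝ} (hB : B * (1 - PowerSeries.X) ^ 2 = 1) (n : ℕ) :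
    PowerSeries.coeff n B = (n : ℝ) + 1 := by
  have h : B * ((1 - PowerSeries.C 2 * PowerSeries.X + PowerSeries.C 1 * PowerSeries.X ^ 2)
      : PowerSeries ℝ) = 1 := by
    have : (PowerSeries.C 2 : PowerSeries ℝ) = 2 := map_ofNat _ 2
    rw [this, map_one]
    refine Eq.trans ?_ hB
    ring
  obtain ⟨h0, h1, h2⟩ := FJ2_rec h
  have key : ∀ n : ℕ, PowerSeries.coeff n B = (n : ℝ) + 1 ∧
      PowerSeries.coeff (n + 1) B = (n : ℝ) + 2 := by
    intro n
    induction n with
    | zero =>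
      refine ⟨?_, ?_⟩
      · rw [h0]; simp
      · rw [h1, h0]; simp
    | succ k ih =>
      obtain ⟨i1, i2⟩ := ih
      refine ⟨?_, ?_⟩
      · rw [i2]; push_cast; ring
      · rw [h2 k, i1, i2]; push_cast; ring
  exact (key n).1

/-- the coefficients of the inverse of `1 - u X + X^2` are at most `n + 1` -/
theorem FJ2_bound (u : ℝ) (β : ℂ) (hβ : ‖β‖ = 1) (hu : (u : ℂ) = β + (starRingEnd ℂ) β)
    {A : PowerSeries ℝ}
    (hA : A * ((1 - PowerSeries.C u * PowerSeries.X + PowerSeries.C 1 * PowerSeries.X ^ 2)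
      : PowerSeries ℝ) = 1) (n : ℕ) : |PowerSeries.coeff n A| ≤ (n : ℝ) + 1 := by
  obtain ⟨h0, h1, h2⟩ := FJ2_rec hA
  have hbb : β * (starRingEnd ℂ) β = 1 := by
    rw [Complex.mul_conj, Complex.normSq_eq_norm_sq, hβ]
    simp
  have key : ∀ n : ℕ, ((PowerSeries.coeff (n + 1) A : ℝ) : ℂ)
      = β * ((PowerSeries.coeff n A : ℝ) : ℂ) + (starRingEnd ℂ) β ^ (n + 1) := by
    intro n
    induction n with
    | zero =>
      rw [show (0 + 1 : ℕ) = 1 from rfl, h1, h0]
      push_cast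
      rw [hu]
      ring
    | succ k ih =>
      rw [show k + 1 + 1 = k + 2 from rfl, h2 k]
      push_cast
      rw [hu]
      have e1 : (β + (starRingEnd ℂ) β) * ((PowerSeries.coeff (k + 1) A : ℝ) : ℂ)
          - 1 * ((PowerSeries.coeff k A : ℝ) : ℂ)
          = β * ((PowerSeries.coeff (k + 1) A : ℝ) : ℂ)
            + (starRingEnd ℂ) β * ((PowerSeries.coeff (k + 1) A : ℝ) : ℂ)
            - ((PowerSeries.coeff k A : ℝ) : ℂ) := by ring
      have e2 : (starRingEnd ℂ) β * ((PowerSeries.coeff (k + 1) A : ℝ) : ℂ)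
          = ((PowerSeries.coeff k A : ℝ) : ℂ) + (starRingEnd ℂ) β ^ (k + 2) := by
        rw [ih]
        linear_combination (((PowerSeries.coeff k A : ℝ) : ℂ)) * hbb
      linear_combination e1 + e2
  induction n with
  | zero => rw [h0]; simp
  | succ k ih =>
    have hk := key k
    have h3 : ‖((PowerSeries.coeff (k + 1) A : ℝ) : ℂ)‖ ≤ |PowerSeries.coeff k A| + 1 := by
      rw [hk]
      refine (norm_add_le _ _).trans ?_
      rw [norm_mul, norm_pow, hβ, one_mul, RCLike.norm_conj, hβ, one_pow, Complex.norm_real,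
        Real.norm_eq_abs]
    rw [Complex.norm_real, Real.norm_eq_abs] at h3
    push_cast
    linarith

/-- degree two factors. -/
theorem fejer_two (u : ℝ) (β : ℂ) (hβ : ‖β‖ = 1) (hu : (u : ℂ) = β + (starRingEnd ℂ) β)
    (F : PowerSeries ℝ)
    (hF : F * (((1 - X) ^ 2 * (1 - C u * X + X ^ 2) : Polynomial ℝ) : PowerSeries ℝ) = 1) :
    PNN F := by
  have hcoe : (((1 - X) ^ 2 * (1 - C u * X + X ^ 2) : Polynomial ℝ) : PowerSeries ℝ)
      = (1 - PowerSeries.X) ^ 2
        * (1 - PowerSeries.C u * PowerSeries.X + PowerSeries.C 1 * PowerSeries.X ^ 2) := by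
    push_cast
    rw [map_one, one_mul]
  rw [hcoe] at hF
  set P : PowerSeries ℝ :=
    1 - PowerSeries.C u * PowerSeries.X + PowerSeries.C 1 * PowerSeries.X ^ 2 with hP
  have hule : u ≤ 2 := by
    have h1 : u = 2 * β.re := by
      have h2 := congrArg Complex.re hu
      simp only [Complex.ofReal_re, Complex.add_re, Complex.conj_re] at h2
      linarith
    have h3 : β.re ≤ 1 := by
      have := Complex.re_le_norm β
      rwa [hβ] at this
    linarith
  have hA : (F * (1 - PowerSeries.X) ^ 2) * P = 1 := by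
    refine Eq.trans ?_ hF
    ring
  have hB : (F * P) * (1 - PowerSeries.X) ^ 2 = 1 := by
    refine Eq.trans ?_ hF
    ring
  rcases lt_or_eq_of_le hule with hlt | heq
  · intro n
    have e : F * P - F * (1 - PowerSeries.X) ^ 2
        = PowerSeries.C (2 - u) * (F * PowerSeries.X) := by
      rw [hP, map_sub, map_one]
      have : (PowerSeries.C 2 : PowerSeries ℝ) = 2 := map_ofNat _ 2
      rw [this]
      ring
    have h1 := congrArg (PowerSeries.coeff (n + 1)) e
    rw [map_sub, PowerSeries.coeff_C_mul, PowerSeries.coeff_succ_mul_X, FJ2_inv_sq hB] at h1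
    have h2 := FJ2_bound u β hβ hu hA (n + 1)
    have h3 := (abs_le.mp h2).2
    have h4 : 0 ≤ (2 - u) * PowerSeries.coeff n F := by
      rw [← h1]
      linarith
    exact nonneg_of_mul_nonneg_right h4 (by linarith)
  · obtain ⟨G, hG, hG1⟩ := FJ2_geom
    have hP2 : P = (1 - PowerSeries.X) ^ 2 := by
      rw [hP, heq, map_one]
      have : (PowerSeries.C 2 : PowerSeries ℝ) = 2 := map_ofNat _ 2
      rw [this]
      ring
    have h5 : F = G * G * (G * G) := by
      refine FJ2_inv_uniq (P := (1 - PowerSeries.X) ^ 2 * (1 - PowerSeries.X) ^ 2) ?_ ?_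
      · refine Eq.trans ?_ hF
        rw [hP2]
      · calc G * G * (G * G) * ((1 - PowerSeries.X) ^ 2 * (1 - PowerSeries.X) ^ 2)
            = (G * (1 - PowerSeries.X)) ^ 4 := by ring
          _ = 1 := by rw [hG1, one_pow]
    rw [h5]
    exact (hG.mul hG).mul (hG.mul hG)

/-- degree one factors. -/
theorem FJ2_one (x : ℝ) (hx : x = 1 ∨ x = -1) (F : PowerSeries ℝ)
    (hF : F * (((1 - X) ^ 1 * (1 - C x * X) : Polynomial ℝ) : PowerSeries ℝ) = 1) : PNN F := by
  have hcoe : (((1 - X) ^ 1 * (1 - C x * X) : Polynomial ℝ) : PowerSeries ℝ)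
      = (1 - PowerSeries.X) * (1 - PowerSeries.C x * PowerSeries.X) := by
    push_cast
    rw [pow_one]
  rw [hcoe] at hF
  rcases hx with rfl | rfl
  · rw [map_one, one_mul] at hF
    have h1 : F * (1 - PowerSeries.X) ^ 2 = 1 := by
      refine Eq.trans ?_ hF
      ring
    intro n
    rw [FJ2_inv_sq h1]
    positivity
  · have h1 : F * ((1 - PowerSeries.C 0 * PowerSeries.X + PowerSeries.C (-1) * PowerSeries.X ^ 2)
        : PowerSeries ℝ) = 1 := by
      refine Eq.trans ?_ hF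
      rw [map_zero, map_neg, map_one]
      ring
    obtain ⟨h0, h2, h3⟩ := FJ2_rec h1
    have key : ∀ n : ℕ, 0 ≤ PowerSeries.coeff n F ∧ 0 ≤ PowerSeries.coeff (n + 1) F := by
      intro n
      induction n with
      | zero =>
        refine ⟨?_, ?_⟩
        · rw [h0]; exact zero_le_one
        · rw [h2]; simp
      | succ k ih =>
        refine ⟨ih.2, ?_⟩
        rw [h3 k]
        linarith [ih.1]
    exact fun n => (key n).1

/-- splitting off a factor -/
theorem FJ2_split {q S : Polynomial ℝ} (hq : q ≠ 0) (hS : S ≠ 0) (F : PowerSeries ℝ)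
    (hF : F * (((1 - X) ^ (q * S).natDegree * (q * S) : Polynomial ℝ) : PowerSeries ℝ) = 1)
    (h1 : ∀ G : PowerSeries ℝ,
      G * (((1 - X) ^ q.natDegree * q : Polynomial ℝ) : PowerSeries ℝ) = 1 → PNN G)
    (h2 : ∀ G : PowerSeries ℝ,
      G * (((1 - X) ^ S.natDegree * S : Polynomial ℝ) : PowerSeries ℝ) = 1 → PNN G) : PNN F := by
  rw [natDegree_mul hq hS] at hF
  have e : (((1 - X) ^ (q.natDegree + S.natDegree) * (q * S) : Polynomial ℝ) : PowerSeries ℝ)
      = (((1 - X) ^ q.natDegree * q : Polynomial ℝ) : PowerSeries ℝ)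
        * (((1 - X) ^ S.natDegree * S : Polynomial ℝ) : PowerSeries ℝ) := by
    rw [← Polynomial.coe_mul]
    congr 1
    ring
  rw [e] at hF
  set a : PowerSeries ℝ := (((1 - X) ^ q.natDegree * q : Polynomial ℝ) : PowerSeries ℝ)
  set b : PowerSeries ℝ := (((1 - X) ^ S.natDegree * S : Polynomial ℝ) : PowerSeries ℝ)
  have ha : (F * b) * a = 1 := by
    refine Eq.trans ?_ hF
    ring
  have hb : (F * a) * b = 1 := by
    refine Eq.trans ?_ hF
    ring
  have h3 : F = (F * b) * (F * a) := by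
    calc F = F * 1 := (mul_one F).symm
      _ = F * (F * (a * b)) := by rw [hF]
      _ = (F * b) * (F * a) := by ring
  rw [h3]
  exact (h1 _ ha).mul (h2 _ hb)

theorem fejer (R : Polynomial ℝ) (h0 : R.coeff 0 = 1)
    (hroot : ∀ z : ℂ, Polynomial.aeval z R = 0 → ‖z‖ = 1) (F : PowerSeries ℝ)
    (hF : F * (((1 - X) ^ R.natDegree * R : Polynomial ℝ) : PowerSeries ℝ) = 1) : PNN F := by
  have main : ∀ (N : ℕ) (R : Polynomial ℝ), R.natDegree = N → R.coeff 0 = 1 →
      (∀ z : ℂ, Polynomial.aeval z R = 0 → ‖z‖ = 1) → ∀ F : PowerSeries ℝ,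
      F * (((1 - X) ^ R.natDegree * R : Polynomial ℝ) : PowerSeries ℝ) = 1 → PNN F := by
    intro N
    induction N using Nat.strong_induction_on with
    | _ N IH =>
      intro R hN h0 hroot F hF
      have hR0 : R ≠ 0 := by
        rintro rfl
        simp at h0
      rcases Nat.eq_zero_or_pos N with hz | hpos
      · have hR : R = C 1 := by
          rw [eq_C_of_natDegree_eq_zero (hN.trans hz), h0]
        rw [hN, hz, pow_zero, one_mul, hR, map_one, Polynomial.coe_one, mul_one] at hF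
        rw [hF]
        intro n
        rw [PowerSeries.coeff_one]
        split_ifs
        · exact zero_le_one
        · exact le_rfl
      · have hdeg : R.degree ≠ 0 := by
          intro h
          have h4 : R.natDegree = 0 := natDegree_eq_of_degree_eq_some (n := 0) h
          omega
        obtain ⟨z, hz⟩ := IsAlgClosed.exists_aeval_eq_zero ℂ R hdeg
        have hz1 := hroot z hz
        -- the common end of the argument
        have fin : ∀ q S : Polynomial ℝ, R = q * S → q.coeff 0 = 1 → 1 ≤ q.natDegree →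
            (∀ G : PowerSeries ℝ,
              G * (((1 - X) ^ q.natDegree * q : Polynomial ℝ) : PowerSeries ℝ) = 1 → PNN G) →
            PNN F := by
          intro q S hqS hq0 hq1 hq
          have hqne : q ≠ 0 := by
            rintro rfl
            simp at hq0
          have hSne : S ≠ 0 := by
            rintro rfl
            rw [mul_zero] at hqS
            exact hR0 hqS
          have hS0 : S.coeff 0 = 1 := by
            have h5 := h0
            rw [hqS, mul_coeff_zero, hq0, one_mul] at h5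
            exact h5
          have hdeg2 : N = q.natDegree + S.natDegree := by
            rw [← hN, hqS, natDegree_mul hqne hSne]
          refine FJ2_split hqne hSne F (by rw [← hqS]; exact hF) hq ?_
          refine IH S.natDegree (by omega) S rfl hS0 ?_
          intro w hw
          apply hroot w
          rw [hqS, map_mul, hw, mul_zero]
        by_cases him : z.im = 0
        · have hzr : z = ((z.re : ℝ) : ℂ) := by
            apply Complex.ext
            · simp
            · simp [him]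
          set x : ℝ := z.re with hx
          have hxroot : R.IsRoot x := by
            have h5 : ((R.eval x : ℝ) : ℂ) = 0 := by
              have h6 := hz
              rw [hzr] at h6
              have h7 : Polynomial.aeval ((x : ℝ) : ℂ) R = ((R.eval x : ℝ) : ℂ) :=
                Polynomial.aeval_ofReal R x
              rw [← h7]
              exact h6
            exact_mod_cast h5
          have hx1 : x = 1 ∨ x = -1 := by
            have h8 : |x| = 1 := by
              rw [hzr, Complex.norm_real, Real.norm_eq_abs] at hz1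
              exact hz1
            rcases eq_or_eq_neg_of_abs_eq h8 with h | h
            · exact Or.inl h
            · exact Or.inr h
          have hxx : x * x = 1 := by
            rcases hx1 with h | h
            · rw [h]; ring
            · rw [h]; ring
          obtain ⟨S, hS⟩ := Polynomial.dvd_iff_isRoot.mpr hxroot
          have hCxx : (C x * C x : Polynomial ℝ) = 1 := by rw [← C_mul, hxx, map_one]
          have hRS : R = (1 - C x * X) * (C (-x) * S) := by
            rw [hS, C_neg]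
            linear_combination (-(X * S)) * hCxx
          have hnd : (1 - C x * X : Polynomial ℝ).natDegree = 1 := by
            have hxne : x ≠ 0 := by
              rintro h
              rw [h] at hxx
              simp at hxx
            have h9 : (1 - C x * X : Polynomial ℝ) = C (-x) * X + C 1 := by
              rw [C_neg, map_one]
              ring
            rw [h9]
            exact natDegree_linear (neg_ne_zero.mpr hxne)
          refine fin (1 - C x * X) (C (-x) * S) hRS (by simp) hnd.ge ?_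
          intro G hG
          rw [hnd] at hG
          exact FJ2_one x hx1 G hG
        · obtain ⟨S, hS⟩ := Polynomial.quadratic_dvd_of_aeval_eq_zero_im_ne_zero R hz him
          have hqe : (X ^ 2 - C (2 * z.re) * X + C (‖z‖ ^ 2) : Polynomial ℝ)
              = 1 - C (2 * z.re) * X + X ^ 2 := by
            rw [hz1, one_pow, map_one]
            ring
          rw [hqe] at hS
          have hnd : (1 - C (2 * z.re) * X + X ^ 2 : Polynomial ℝ).natDegree = 2 := by
            have h9 : (1 - C (2 * z.re) * X + X ^ 2 : Polynomial ℝ)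
                = C 1 * X ^ 2 + C (-(2 * z.re)) * X + C 1 := by
              rw [C_neg, map_one]
              ring
            rw [h9]
            exact natDegree_quadratic one_ne_zero
          refine fin _ S hS (by simp) (by rw [hnd]; norm_num) ?_
          intro G hG
          rw [hnd] at hG
          refine fejer_two (2 * z.re) z hz1 ?_ G hG
          rw [Complex.add_conj]
  exact main R.natDegree R rfl h0 hroot F hF

end Pool.H88.KA

end

section

/-!
KAC ADE numbers, analysis 3: multiplicity of the root one.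

If `∑_k Q_k k^j = 0` for all `j ≤ e` then `(1 - X)^(e+1)` divides `Q`.
Proof: for every polynomial `F` of degree `≤ e`: `∑_k Q_k F(k) = 0`; for `F = descPochhammer` this is the `j`-th derivative of
`Q` at one.  Then `Polynomial.lt_rootMultiplicity_iff_isRoot_iterate_derivative` (or similar).
-/

set_option autoImplicit false

namespace Pool.H88.KA

open Polynomial

theorem FJ3_sum_eval (Q : Polynomial ℚ) (e : ℕ)
    (h : ∀ j, j ≤ e → ∑ k ∈ Finset.range (Q.natDegree + 1), Q.coeff k * (k : ℚ) ^ j = 0)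
    (F : Polynomial ℚ) (hF : F.natDegree ≤ e) :
    ∑ k ∈ Finset.range (Q.natDegree + 1), Q.coeff k * F.eval (k : ℚ) = 0 := by
  have h1 : ∀ k ∈ Finset.range (Q.natDegree + 1), Q.coeff k * F.eval (k : ℚ)
      = ∑ i ∈ Finset.range (F.natDegree + 1), F.coeff i * (Q.coeff k * (k : ℚ) ^ i) := by
    intro k _
    rw [Polynomial.eval_eq_sum_range, Finset.mul_sum]
    refine Finset.sum_congr rfl ?_
    intro i _
    ring
  rw [Finset.sum_congr rfl h1, Finset.sum_comm]
  refine Finset.sum_eq_zero ?_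
  intro i hi
  rw [← Finset.mul_sum, h i (by have := Finset.mem_range.mp hi; omega), mul_zero]

theorem FJ3_eval_iterate (Q : Polynomial ℚ) (m : ℕ) :
    (derivative^[m] Q).eval 1
      = ∑ k ∈ Finset.range (Q.natDegree + 1), Q.coeff k * ((k.descFactorial m : ℕ) : ℚ) := by
  conv_lhs => rw [Q.as_sum_range_C_mul_X_pow]
  rw [Polynomial.iterate_derivative_sum, Polynomial.eval_finsetSum]
  refine Finset.sum_congr rfl ?_
  intro k _
  rw [Polynomial.iterate_derivative_C_mul, Polynomial.iterate_derivative_X_pow_eq_natCast_mul]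
  simp

theorem pow_dvd_of_sums (Q : Polynomial ℚ) (e : ℕ)
    (h : ∀ j, j ≤ e → ∑ k ∈ Finset.range (Q.natDegree + 1), Q.coeff k * (k : ℚ) ^ j = 0) :
    (1 - X) ^ (e + 1) ∣ Q := by
  by_cases hQ : Q = 0
  · rw [hQ]; exact dvd_zero _
  have key : e < Q.rootMultiplicity 1 := by
    rw [Polynomial.lt_rootMultiplicity_iff_isRoot_iterate_derivative hQ]
    intro m hm
    rw [Polynomial.IsRoot.def, FJ3_eval_iterate]
    have h2 := FJ3_sum_eval Q e h (descPochhammer ℚ m)
      (by rw [descPochhammer_natDegree]; exact hm)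
    rw [← h2]
    refine Finset.sum_congr rfl ?_
    intro k _
    rw [descPochhammer_eval_eq_descFactorial]
  have h3 : (X - C (1 : ℚ)) ^ (e + 1) ∣ Q :=
    (Polynomial.le_rootMultiplicity_iff hQ).mp key
  have h4 : ((1 : Polynomial ℚ) - X) ^ (e + 1) = (-1) ^ (e + 1) * (X - C (1 : ℚ)) ^ (e + 1) := by
    rw [← mul_pow, C_1]
    congr 1
    ring
  rw [h4]
  have h5 : IsUnit ((-1 : Polynomial ℚ) ^ (e + 1)) := IsUnit.pow _ (IsUnit.neg isUnit_one)
  exact (h5.mul_left_dvd).mpr h3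

end Pool.H88.KA

end

section

/-!
KAC ADE numbers: positivity of the reciprocal.
-/

set_option autoImplicit false

namespace Pool.H88.KA

open Polynomial

theorem FJ4_natDegree : (1 - X : Polynomial ℚ).natDegree = 1 := by
  have h : (1 - X : Polynomial ℚ) = -(X - C 1) := by
    rw [map_one]
    ring
  rw [h, natDegree_neg, natDegree_X_sub_C]

theorem PNN.pow {F : PowerSeries ℝ} (hF : PNN F) (n : ℕ) : PNN (F ^ n) := by
  induction n with
  | zero =>
    intro m
    rw [pow_zero, PowerSeries.coeff_one]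
    split_ifs <;> norm_num
  | succ n ih =>
    rw [pow_succ]
    exact ih.mul hF

theorem fejer_main (Q : Polynomial ℚ) (c : ℕ → ℚ) (e : ℕ)
    (h0 : Q.coeff 0 = 1) (hlead : Q.leadingCoeff = 1 ∨ Q.leadingCoeff = -1)
    (hmul : (Q : PowerSeries ℚ) * PowerSeries.mk c = 1)
    (hgrow : ∃ K D : ℕ, ∀ g, |c g| ≤ K * ((g : ℚ) + 1) ^ D)
    (hdiv : (1 - X) ^ e ∣ Q) (hdeg : Q.natDegree ≤ 2 * e) (g : ℕ) : 0 ≤ c g := by
  obtain ⟨R, hR⟩ := hdiv
  obtain ⟨ι, hι⟩ : ∃ ι : ℚ →+* ℝ, ι = algebraMap ℚ ℝ := ⟨_, rfl⟩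
  have hQ0 : Q ≠ 0 := by
    intro h
    rw [h] at h0
    simp at h0
  have hR0 : R ≠ 0 := by
    intro h
    rw [h, mul_zero] at hR
    exact hQ0 hR
  have h1X : ((1 - X : Polynomial ℚ) ^ e) ≠ 0 := by
    intro h
    rw [h, zero_mul] at hR
    exact hQ0 hR
  have hRc : R.coeff 0 = 1 := by
    rw [hR, mul_coeff_zero] at h0
    have h1 : ((1 - X : Polynomial ℚ) ^ e).coeff 0 = 1 := by
      rw [coeff_zero_eq_eval_zero, eval_pow]
      simp
    rw [h1, one_mul] at h0
    exact h0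
  have hRd : Q.natDegree = e + R.natDegree := by
    rw [hR, natDegree_mul h1X hR0, natDegree_pow, FJ4_natDegree, mul_one]
  obtain ⟨R', hR'⟩ : ∃ R' : Polynomial ℝ, R' = R.map ι := ⟨_, rfl⟩
  have hd' : R'.natDegree = R.natDegree := by
    rw [hR']
    exact natDegree_map_eq_of_injective ι.injective R
  have hroot : ∀ z : ℂ, Polynomial.aeval z R' = 0 → ‖z‖ = 1 := by
    intro z hz
    apply norm_root_eq Q c h0 hlead hmul hgrow z
    rw [hR, map_mul]
    have h2 : aeval z R = 0 := by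
      rw [hR', hι, aeval_map_algebraMap] at hz
      exact hz
    rw [h2, mul_zero]
  obtain ⟨Cr, hCr⟩ : ∃ Cr : PowerSeries ℝ, Cr = PowerSeries.map ι (PowerSeries.mk c) := ⟨_, rfl⟩
  have hmul' : (((1 - X) ^ e * R' : Polynomial ℝ) : PowerSeries ℝ) * Cr = 1 := by
    have h3 := congrArg (PowerSeries.map ι) hmul
    rw [map_mul, map_one, ← hCr] at h3
    have h4 : PowerSeries.map ι (Q : PowerSeries ℚ) =
        (((1 - X) ^ e * R' : Polynomial ℝ) : PowerSeries ℝ) := by
      rw [← Polynomial.polynomial_map_coe, hR, Polynomial.map_mul, Polynomial.map_pow, hR']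
      simp
    rw [h4] at h3
    exact h3
  obtain ⟨F, hF⟩ : ∃ F : PowerSeries ℝ, F = Cr * (1 - PowerSeries.X) ^ (e - R.natDegree) := ⟨_, rfl⟩
  have hF1 : F * (((1 - X) ^ R'.natDegree * R' : Polynomial ℝ) : PowerSeries ℝ) = 1 := by
    rw [hd', ← hmul', hF]
    have h5 : (((1 - X) ^ e * R' : Polynomial ℝ) : PowerSeries ℝ) =
        (1 - PowerSeries.X) ^ e * (R' : PowerSeries ℝ) := by
      simp
    have h6 : (((1 - X) ^ R.natDegree * R' : Polynomial ℝ) : PowerSeries ℝ) =
        (1 - PowerSeries.X) ^ R.natDegree * (R' : PowerSeries ℝ) := by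
      simp
    rw [h5, h6]
    have h7 : (1 - PowerSeries.X : PowerSeries ℝ) ^ e =
        (1 - PowerSeries.X) ^ (e - R.natDegree) * (1 - PowerSeries.X) ^ R.natDegree := by
      rw [← pow_add]
      congr 1
      omega
    rw [h7]
    ring
  have hRc' : R'.coeff 0 = 1 := by
    rw [hR', coeff_map, hRc, map_one]
  have hPF := fejer R' hRc' hroot F hF1
  have hC : Cr = F * (PowerSeries.mk 1) ^ (e - R.natDegree) := by
    rw [hF, mul_assoc, ← mul_pow, mul_comm (1 - PowerSeries.X) (PowerSeries.mk 1),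
      PowerSeries.mk_one_mul_one_sub_eq_one, one_pow, mul_one]
  have hone : PNN (PowerSeries.mk 1 : PowerSeries ℝ) := by
    intro n
    rw [PowerSeries.coeff_mk]
    exact zero_le_one
  have hPC : PNN Cr := by
    rw [hC]
    exact hPF.mul (hone.pow _)
  have h8 := hPC g
  rw [hCr, PowerSeries.coeff_map, PowerSeries.coeff_mk, hι] at h8
  have h9 : (algebraMap ℚ ℝ) (c g) = ((c g : ℚ) : ℝ) := rfl
  rw [h9] at h8
  exact_mod_cast h8

end Pool.H88.KA

end
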