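import Pool.Agent.H16.TKA.M14
import Pool.Agent.H16.TKA.M16
import Pool.Agent.H16.TKA.M17

/-! The parts of this file: H27.KAC.KH12, H27.KAC.KHGr, H27.KAC.KM6, H27.KAC.KM7, H27.KAC.KM2, H27.KAC.KM4, H27.KAC.KG1, H27.KAC.KG4, H27.KAC.KG5, H27.KAC.KH9, H27.KAC.PR_Bgp, H88.KA.BD0, H88.KA.BDA, H88.KA.BDD, H88.KA.BDE. -/

section

/-!
KAC module KH12: for dimension vectors in the fundamental cone the growth rate is `PhiR`.

PROOF.  `growth_Ample_hsup`: the proof of `growth_Ample` (KGMain) gives the limit `hsup a α`; copy it.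
`kac_limit_Phi`: as `kac_limit` in KM6, without reflections.  `β = g α`, `α` primitive (`exists_prim`), `S` = support.  The support is
connected, otherwise `kacOne = 0` (`kac_disconnected`, as in `kac_induct`), contradiction.  `ample_or` for `resM (adj Q) S`, `rV α S`
(`cw_rV`).  Ample: `growth_Ample_hsup`, `f_nonneg`, `limit_A_of_F` as in `kac_limit`; the limit is
`g * hsup = g * PhiR (resM ..) .. = g * PhiR (adj Q) α = PhiR (adj Q) β` (`hsup_le_PhiR`, `PhiR_le_hsup`, `PhiR_restrict`, `PhiR_smul`).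
One loop, or two vertices and two arrows: `kac_loop`, `kac_kron`, the limit is 0 and `PhiR (adj Q) β = 0` by `PhiR_isotropic`.
-/

set_option autoImplicit false

namespace Pool.Agent.H27.KAC

open scoped BigOperators
open Filter Topology

section

variable {I : Type} [Fintype I] [DecidableEq I]

end

variable {I E : Type} [Fintype I] [DecidableEq I] [Fintype E]

omit [Fintype E] in
theorem KH12_cR (a : I → I → ℕ) (β : I → ℕ) (i : I) :
    cR a (fun i => (β i : ℝ)) i = -((sw a β i : ℤ) : ℝ) := by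
  unfold cR sw
  push_cast
  rw [neg_neg]

end Pool.Agent.H27.KAC

end

section

/-!
KAC, homogeneous continuity: the graph of the growth function.
-/

namespace Pool.Agent.H27.KAC

open scoped BigOperators
open Filter Topology

variable {I E : Type} [Fintype I] [DecidableEq I] [Fintype E]

/-- `x = t β`, `v = t l`, where `l` is the growth rate along the ray of `β`. -/
def GrQ (Q : Quiv I E) (x : I → ℝ) (v : ℝ) : Prop :=
  ∃ (β : I → ℕ) (t l : ℝ), 0 < t ∧ (∀ᶠ n : ℕ in atTop, 0 < kacOne Q (fun i => n * β i)) ∧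
    Tendsto (fun n : ℕ => Real.log ((kacOne Q (fun i => n * β i) : ℚ) : ℝ) / n) atTop (𝓝 l) ∧
    (∀ i, x i = t * β i) ∧ v = t * l

end Pool.Agent.H27.KAC

end

section

/-!
KAC module KM6: `fOf (kacOne Q) ≥ 0` and the growth of the Kac polynomials at one along the rays.
-/

set_option autoImplicit false

namespace Pool.Agent.H27.KAC

open scoped BigOperators
open Filter Topology

variable {I E : Type} [Fintype I] [DecidableEq I] [Fintype E]

theorem fOf_kac_zero (A : (I → ℕ) → ℚ) (β : I → ℕ) (h : ∀ i, β i = 0) : fOf A β = 0 := by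
  unfold fOf
  apply Finset.sum_eq_zero
  intro k hk
  rw [Finset.mem_filter, Finset.mem_range] at hk
  have : ∑ i, β i = 0 := Finset.sum_eq_zero (fun i _ => h i)
  omega

end Pool.Agent.H27.KAC

end

section

/-!
KAC module KM7: the final theorem for quivers in which two distinct loop-free vertices are not joined by exactly one
arrow.
-/

set_option autoImplicit false

namespace Pool.Agent.H27.KAC

open scoped BigOperators
open Filter Topology Polynomial

section

variable {I E : Type} [DecidableEq I] [Fintype E]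

theorem adj_self (Q : Quiv I E) (i : I) :
    adj Q i i = 2 * (Finset.univ.filter (fun e : E => Q.src e = i ∧ Q.tgt e = i)).card := by
  unfold adj
  ring

theorem adj_comm (Q : Quiv I E) (i j : I) : adj Q i j = adj Q j i := by
  unfold adj
  ring

end

end Pool.Agent.H27.KAC

end

section

/-!
KAC module KM2: restriction of `KacData` to a subset `S` of the vertices.

PROOF.  `R F` = the series with coefficients `coeff d (R F) = coeff (d extended by zero) F` (the variables outside `S`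
are put equal to zero); it is a ring homomorphism (`MvPowerSeries.coeff_mul`: both summands of a vector supported in
`S` are supported in `S`; `Finsupp.embDomain` or `Finsupp.mapDomain` along `Subtype.val`).  `R (X i) = X i` for `i ∈ S`
and `0` for `i ∉ S`; `R (eul j F) = eul j (R F)` for `j ∈ S`; `R (wSer f i j) = wSer (f ∘ ext0 S) i j`;
`constantCoeff (R F) = constantCoeff F`; the condition on `coeff d (T i k) = coeff d (G i)` for `tdeg d ≤ k` is inherited.

Key point: `R (T j k) = 1` for `j ∉ S`.  There the relation is `R(T_{k+1})^2 = R(T_k) R(T_{k+2})` (`R (X j) = 0`), so with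
`t = R (T_1)` one gets `R(T_k) = t^k` (all constant coefficients are one, so these series are units or at least
nonzero divisors).  The coefficients of degree `d` of `R(T_k) = t^k` do not depend on `k ≥ tdeg d`.  If `t ≠ 1` let
`d ≠ 0` be an exponent of minimal total degree `m` with `coeff d t ≠ 0`: then `coeff d (t^k) = k * coeff d t` for all `k`
(induction on `k`), which is not constant for `k ≥ m`; contradiction.

So for `i ∈ S` the product over all `j` in the relation becomes the product over `j ∈ S`.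
-/

set_option autoImplicit false

namespace Pool.Agent.H27.KAC

open scoped BigOperators
open MvPowerSeries

variable {I : Type} [Fintype I] [DecidableEq I]

theorem KM2_tdeg_add {J : Type} [Fintype J] (p q : J →₀ ℕ) : tdeg (p + q) = tdeg p + tdeg q := by
  unfold tdeg
  simp [Finset.sum_add_distrib]

theorem KM2_tdeg_pos {J : Type} [Fintype J] {p : J →₀ ℕ} (h : p ≠ 0) : 0 < tdeg p := by
  unfold tdeg
  obtain ⟨j, hj⟩ := Finsupp.ne_iff.1 h
  refine Finset.sum_pos' (fun _ _ => Nat.zero_le _) ⟨j, Finset.mem_univ _, ?_⟩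
  simpa [Nat.pos_iff_ne_zero] using hj

theorem KM2_coeff_pow {J : Type} [Fintype J] [DecidableEq J] (t : MvPowerSeries J ℚ)
    (ht : constantCoeff t = 1) (d : J →₀ ℕ) (hd : d ≠ 0)
    (h : ∀ d' : J →₀ ℕ, d' ≠ 0 → tdeg d' < tdeg d → coeff d' t = 0) (k : ℕ) :
    coeff d (t ^ k) = k * coeff d t := by
  induction k with
  | zero =>
    rw [pow_zero, MvPowerSeries.coeff_one, if_neg hd]
    simp
  | succ k ih =>
    rw [pow_succ, MvPowerSeries.coeff_mul]
    rw [Finset.sum_eq_add (d, 0) (0, d)]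
    · rw [ih, MvPowerSeries.coeff_zero_eq_constantCoeff_apply,
        MvPowerSeries.coeff_zero_eq_constantCoeff_apply, map_pow, ht, one_pow]
      push_cast
      ring
    · intro hc
      exact hd (Prod.mk.inj hc).1
    · rintro ⟨p, q⟩ hpq hne
      rw [Finset.HasAntidiagonal.mem_antidiagonal] at hpq
      simp only at hpq
      have hq0 : q ≠ 0 := by
        intro hc
        apply hne.1
        rw [hc, add_zero] at hpq
        rw [hpq, hc]
      have hp0 : p ≠ 0 := by
        intro hc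
        apply hne.2
        rw [hc, zero_add] at hpq
        rw [hpq, hc]
      have h1 : tdeg q < tdeg d := by
        rw [← hpq, KM2_tdeg_add]
        have := KM2_tdeg_pos hp0
        omega
      show coeff p (t ^ k) * coeff q t = 0
      rw [h q hq0 h1, mul_zero]
    · intro hc
      exact absurd (Finset.HasAntidiagonal.mem_antidiagonal.2 (by simp)) hc
    · intro hc
      exact absurd (Finset.HasAntidiagonal.mem_antidiagonal.2 (by simp)) hc

theorem KM2_eq_one {J : Type} [Fintype J] [DecidableEq J] (t : MvPowerSeries J ℚ)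
    (ht : constantCoeff t = 1)
    (hst : ∀ (d : J →₀ ℕ) (k : ℕ), tdeg d ≤ k → coeff d (t ^ k) = coeff d (t ^ (k + 1))) :
    t = 1 := by
  have key : ∀ n : ℕ, ∀ d : J →₀ ℕ, d ≠ 0 → tdeg d = n → coeff d t = 0 := by
    intro n
    induction n using Nat.strong_induction_on with
    | _ n ih =>
      intro d hd hn
      have h1 : ∀ d' : J →₀ ℕ, d' ≠ 0 → tdeg d' < tdeg d → coeff d' t = 0 :=
        fun d' hd' hlt => ih (tdeg d') (hn ▸ hlt) d' hd' rfl
      have h2 := hst d (tdeg d) le_rfl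
      rw [KM2_coeff_pow t ht d hd h1, KM2_coeff_pow t ht d hd h1] at h2
      push_cast at h2
      linarith
  ext d
  rw [MvPowerSeries.coeff_one]
  split_ifs with hd
  · rw [hd, MvPowerSeries.coeff_zero_eq_constantCoeff_apply, ht]
  · exact key _ d hd rfl

theorem KM2_seq {J : Type} [Fintype J] [DecidableEq J] (t : ℕ → MvPowerSeries J ℚ)
    (h0 : t 0 = 1) (hc : ∀ k, constantCoeff (t k) = 1)
    (hrec : ∀ k, t (k + 1) ^ 2 = t k * t (k + 2)) (k : ℕ) : t k = t 1 ^ k := by
  have hne : ∀ k, t k ≠ 0 := by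
    intro k hk
    have := hc k
    rw [hk] at this
    simp at this
  have h : ∀ k, t k = t 1 ^ k ∧ t (k + 1) = t 1 ^ (k + 1) := by
    intro k
    induction k with
    | zero => exact ⟨by rw [h0, pow_zero], by rw [zero_add, pow_one]⟩
    | succ k ih =>
      refine ⟨ih.2, ?_⟩
      have h1 := hrec k
      have h2 : t k * t (k + 1 + 1) = t k * t 1 ^ (k + 1 + 1) := by
        rw [← h1, ih.2]
        conv_rhs => rw [ih.1]
        ring
      exact mul_left_cancel₀ (hne k) h2
  exact (h k).1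

theorem KacData.restrict {a : I → I → ℕ} {f : (I → ℕ) → ℚ} (hK : KacData a f) (S : Finset I) :
    KacData (resM a S) (fun β => f (ext0 S β)) := by
  classical
  obtain ⟨T, G, h0, hc, hrec, hst, hG⟩ := hK
  let e : {i // i ∈ S} ↪ I := Function.Embedding.subtype _
  have he : ∀ j : {i // i ∈ S}, e j = (j : I) := fun _ => rfl
  let R : MvPowerSeries I ℚ →ₐ[ℚ] MvPowerSeries {i // i ∈ S} ℚ := killCompl e
  have hRc : ∀ F, constantCoeff (R F) = constantCoeff F := by
    intro F
    rw [← MvPowerSeries.coeff_zero_eq_constantCoeff_apply, coeff_killCompl,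
      Finsupp.embDomain_zero, MvPowerSeries.coeff_zero_eq_constantCoeff_apply]
  have hcoe : ∀ (F : MvPowerSeries I ℚ) (d : {i // i ∈ S} →₀ ℕ),
      coeff d (R F) = coeff (Finsupp.embDomain e d) F := fun F d => coeff_killCompl F d
  have hemb : ∀ (d : {i // i ∈ S} →₀ ℕ) (i : I),
      (Finsupp.embDomain e d) i = ext0 S (fun l => d l) i := by
    intro d i
    unfold ext0
    split_ifs with hi
    · exact Finsupp.embDomain_apply_self e d ⟨i, hi⟩
    · apply Finsupp.embDomain_of_notMem_range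
      rintro ⟨j, hj⟩
      exact hi (hj ▸ j.2)
  have htdeg : ∀ d : {i // i ∈ S} →₀ ℕ, tdeg (Finsupp.embDomain e d) = tdeg d := by
    intro d
    unfold tdeg
    have h1 : ∑ i ∈ S, (Finsupp.embDomain e d) i = ∑ i, (Finsupp.embDomain e d) i := by
      apply Finset.sum_subset (Finset.subset_univ _)
      intro i _ hi
      rw [hemb]
      unfold ext0
      rw [dif_neg hi]
    rw [← h1, ← Finset.sum_coe_sort]
    exact Finset.sum_congr rfl fun j _ => Finsupp.embDomain_apply_self e d j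
  -- the series outside S become one
  have hone : ∀ j, j ∉ S → ∀ k, R (T j k) = 1 := by
    intro j hj k
    have hX : R (X j) = 0 := by
      apply killCompl_X_eq_zero
      rintro ⟨i, hi⟩
      exact hj (hi ▸ i.2)
    have hr : ∀ k, R (T j (k + 1)) ^ 2 = R (T j k) * R (T j (k + 2)) := by
      intro k
      rw [← map_pow, hrec j k, map_add, map_mul, map_mul, map_pow, hX]
      rw [zero_pow (Nat.succ_ne_zero k), zero_mul, add_zero]
    have hpow := KM2_seq (fun k => R (T j k)) (by rw [h0, map_one])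
      (fun k => by rw [hRc]; exact hc j k) hr
    have ht : R (T j 1) = 1 := by
      apply KM2_eq_one
      · rw [hRc]; exact hc j 1
      · intro d k hk
        have h1 : R (T j k) = R (T j 1) ^ k := hpow k
        have h2 : R (T j (k + 1)) = R (T j 1) ^ (k + 1) := hpow (k + 1)
        rw [← h1, ← h2, hcoe, hcoe, hst j k _ (by rw [htdeg]; exact hk),
          hst j (k + 1) _ (by rw [htdeg]; omega)]
    have h3 : R (T j k) = R (T j 1) ^ k := hpow k
    rw [h3, ht, one_pow]
  refine ⟨fun j k => R (T j k), fun j => R (G j), ?_, ?_, ?_, ?_, ?_⟩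
  · intro i
    show R (T i 0) = 1
    rw [h0, map_one]
  · intro i k
    show constantCoeff (R (T i k)) = 1
    rw [hRc]
    exact hc i k
  · intro i k
    show R (T i (k + 1)) ^ 2 = R (T i k) * R (T i (k + 2)) +
      (X i) ^ (k + 1) * ∏ j : {i // i ∈ S}, (R (T j (k + 1))) ^ (a i j)
    rw [← map_pow, hrec i k, map_add, map_mul, map_mul, map_pow, map_prod]
    have hX : R (X (i : I)) = X i := killCompl_X i
    rw [hX]
    congr 2
    rw [Finset.prod_coe_sort S (fun j => R (T j (k + 1)) ^ (a i j))]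
    symm
    apply Finset.prod_subset_one_on_sdiff (Finset.subset_univ S)
    · intro j hj
      rw [Finset.mem_sdiff] at hj
      rw [map_pow, hone j hj.2, one_pow]
    · intro j _
      rw [map_pow]
  · intro i k d hd
    show coeff d (R (T i k)) = coeff d (R (G i))
    rw [hcoe, hcoe]
    exact hst i k _ (by rw [htdeg]; exact hd)
  · intro i j
    show eul j (R (G i)) = R (G i) * wSer (fun β => f (ext0 S β)) i j
    have h1 : eul j (R (G i)) = R (eul (j : I) (G i)) := by
      ext d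
      rw [hcoe]
      show (d j : ℚ) * coeff d (R (G i)) =
        ((Finsupp.embDomain e d) j : ℚ) * coeff (Finsupp.embDomain e d) (G i)
      rw [hcoe]
      congr 2
      exact (Finsupp.embDomain_apply_self e d j).symm
    have h2 : wSer (fun β => f (ext0 S β)) i j = R (wSer f (i : I) (j : I)) := by
      ext d
      rw [hcoe]
      show (d i : ℚ) * (d j : ℚ) * f (ext0 S (fun l => d l)) =
        ((Finsupp.embDomain e d) i : ℚ) * ((Finsupp.embDomain e d) j : ℚ) *
          f (fun l => (Finsupp.embDomain e d) l)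
      have h3 : (fun l => (Finsupp.embDomain e d) l) = ext0 S (fun l => d l) := by
        funext l
        exact hemb d l
      rw [h3]
      have h4 : (Finsupp.embDomain e d) (i : I) = d i := Finsupp.embDomain_apply_self e d i
      have h5 : (Finsupp.embDomain e d) (j : I) = d j := Finsupp.embDomain_apply_self e d j
      rw [h4, h5]
    rw [h1, h2, hG, map_mul]

end Pool.Agent.H27.KAC

end

section

/-!
KAC module KM4: reduction of a ray of dimension vectors by reflections.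

A vector `α` is primitive if its entries have gcd one.  `kac_induct`: a property of sequences `N ↦ kacOne Q (N α)`,
`α` primitive, holds for all primitive `α` if it holds for the zero sequence, for `1, 0, 0, …`, for the constant sequences
`1` and `2`, and for those `α` which are ample on their support.
-/

set_option autoImplicit false

namespace Pool.Agent.H27.KAC

open scoped BigOperators

section

variable {I : Type} [Fintype I]

/-- primitive vectors. -/
def Prim (α : I → ℕ) : Prop := ∀ k : ℕ, (∀ i, k ∣ α i) → k = 1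

omit [Fintype I] in
theorem Prim.exists_ne {α : I → ℕ} (h : Prim α) : ∃ i, α i ≠ 0 := by
  by_contra hc
  push Not at hc
  have := h 0 (fun i => by rw [hc i])
  omega

theorem exists_prim (β : I → ℕ) (h : ∃ i, β i ≠ 0) :
    ∃ (g : ℕ) (α : I → ℕ), 1 ≤ g ∧ Prim α ∧ ∀ i, β i = g * α i := by
  obtain ⟨i0, hi0⟩ := h
  have hd : ∀ i, Finset.univ.gcd β ∣ β i := fun i => Finset.gcd_dvd (Finset.mem_univ i)
  have hg : 1 ≤ Finset.univ.gcd β := by
    rcases Nat.eq_zero_or_pos (Finset.univ.gcd β) with h0 | h0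
    · have := hd i0
      rw [h0, zero_dvd_iff] at this
      exact absurd this hi0
    · exact h0
  refine ⟨Finset.univ.gcd β, fun i => β i / Finset.univ.gcd β, hg, ?_,
    fun i => (Nat.mul_div_cancel' (hd i)).symm⟩
  intro k hk
  have h1 : Finset.univ.gcd β * k ∣ Finset.univ.gcd β := by
    apply Finset.dvd_gcd
    intro i _
    obtain ⟨c, hc⟩ := hk i
    refine ⟨c, ?_⟩
    have h2 := Nat.mul_div_cancel' (hd i)
    have h3 : β i = Finset.univ.gcd β * (k * c) := by rw [← hc]; exact h2.symm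
    rw [mul_assoc]
    exact h3
  have h2 : k ∣ 1 := by
    have h3 : Finset.univ.gcd β * k ∣ Finset.univ.gcd β * 1 := by rw [mul_one]; exact h1
    exact Nat.dvd_of_mul_dvd_mul_left hg h3
  exact Nat.dvd_one.1 h2

omit [Fintype I] in
theorem Prim.dvd_iff {α : I → ℕ} (h : Prim α) {N : ℕ} (hN : 1 ≤ N) (k : ℕ) :
    (∀ i, k ∣ N * α i) ↔ k ∣ N := by
  constructor
  · intro hk
    rcases Nat.eq_zero_or_pos k with h0 | h0
    · subst h0
      obtain ⟨i, hi⟩ := h.exists_ne
      have h1 := hk i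
      rw [zero_dvd_iff] at h1
      rcases Nat.mul_eq_zero.1 h1 with h2 | h2
      · omega
      · exact absurd h2 hi
    · have hgpos : 0 < Nat.gcd k N := Nat.gcd_pos_of_pos_left _ h0
      have h1 : k / Nat.gcd k N = 1 := by
        apply h
        intro i
        have h2 : k / Nat.gcd k N ∣ (N / Nat.gcd k N) * α i := by
          have h3 : k / Nat.gcd k N ∣ (N * α i) / Nat.gcd k N :=
            Nat.div_dvd_div (Nat.gcd_dvd_left k N) (hk i)
          rwa [Nat.mul_div_right_comm (Nat.gcd_dvd_right k N)] at h3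
        exact (Nat.coprime_div_gcd_div_gcd hgpos).dvd_of_dvd_mul_left h2
      have h2 : k = Nat.gcd k N := by
        have h3 := Nat.div_mul_cancel (Nat.gcd_dvd_left k N)
        rw [h1, one_mul] at h3
        exact h3.symm
      rw [h2]
      exact Nat.gcd_dvd_right k N
  · intro hk i
    exact hk.mul_right _

theorem fOf_prim (A : (I → ℕ) → ℚ) (α : I → ℕ) (hα : Prim α) (N : ℕ) (hN : 1 ≤ N) :
    fOf A (fun i => N * α i) =
      ∑ k ∈ N.divisors, A (fun i => N / k * α i) / (k : ℚ) ^ 2 := by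
  unfold fOf
  have hset : (Finset.range (∑ i, N * α i + 1)).filter
      (fun k => 1 ≤ k ∧ ∀ i, k ∣ N * α i) = N.divisors := by
    ext k
    rw [Finset.mem_filter, Finset.mem_range, hα.dvd_iff hN, Nat.mem_divisors]
    constructor
    · rintro ⟨_, _, h3⟩
      exact ⟨h3, by omega⟩
    · rintro ⟨h1, h2⟩
      have hk : k ≤ N := Nat.le_of_dvd hN h1
      have hk1 : 1 ≤ k := Nat.pos_of_dvd_of_pos h1 hN
      obtain ⟨i, hi⟩ := hα.exists_ne
      have h3 : N * α i ≤ ∑ i, N * α i :=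
        Finset.single_le_sum (f := fun i => N * α i) (fun _ _ => Nat.zero_le _)
          (Finset.mem_univ i)
      have h4 : N * 1 ≤ N * α i := Nat.mul_le_mul_left _ (Nat.pos_of_ne_zero hi)
      exact ⟨by omega, hk1, h1⟩
  rw [hset]
  apply Finset.sum_congr rfl
  intro k hk
  have hkN : k ∣ N := (Nat.mem_divisors.1 hk).1
  congr 1
  congr 1
  funext i
  exact Nat.mul_div_right_comm hkN (α i)

theorem fOf_prim_sq (A : (I → ℕ) → ℚ) (α : I → ℕ) (hα : Prim α) (N : ℕ) (hN : 1 ≤ N) :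
    (N : ℚ) ^ 2 * fOf A (fun i => N * α i) =
      ∑ d ∈ N.divisors, (d : ℚ) ^ 2 * A (fun i => d * α i) := by
  rw [fOf_prim A α hα N hN, ← Nat.sum_div_divisors N
    (fun d => (d : ℚ) ^ 2 * A (fun i => d * α i)), Finset.mul_sum]
  apply Finset.sum_congr rfl
  intro k hk
  have hkN : k ∣ N := (Nat.mem_divisors.1 hk).1
  have hk0 : (k : ℚ) ≠ 0 := by
    have := Nat.pos_of_dvd_of_pos hkN hN
    positivity
  rw [Nat.cast_div hkN hk0]
  field_simp

end

section

variable {I : Type} [Fintype I] [DecidableEq I]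

/-- restriction of a vector to `S`, as a finitely supported function. -/
noncomputable def rV (α : I → ℕ) (S : Finset I) : {i // i ∈ S} →₀ ℕ :=
  Finsupp.equivFunOnFinite.symm (fun i => α i)

theorem rV_apply (α : I → ℕ) (S : Finset I) (i : {i // i ∈ S}) : rV α S i = α i := rfl

theorem cw_rV (a : I → I → ℕ) (α : I → ℕ) (S : Finset I) (hS : ∀ i, α i ≠ 0 → i ∈ S)
    (i : {i // i ∈ S}) : cw (resM a S) (rV α S) i = -sw a α i := by
  unfold cw sw
  rw [neg_neg, ← Finset.sum_subset (Finset.subset_univ S)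
    (f := fun j => cart a i j * (α j : ℤ))]
  · rw [← Finset.sum_coe_sort S (fun j => cart a i j * (α j : ℤ))]
    apply Finset.sum_congr rfl
    intro j _
    rw [rV_apply]
    congr 1
    unfold cart resM
    congr 1
    by_cases h : i = j
    · rw [if_pos h, if_pos (congrArg Subtype.val h)]
    · rw [if_neg h, if_neg (fun hc => h (Subtype.ext hc))]
  · intro j _ hj
    have : α j = 0 := by
      by_contra hc
      exact hj (hS j hc)
    rw [this]
    simp

theorem ext0_rV (α : I → ℕ) (S : Finset I) (hS : ∀ i, α i ≠ 0 → i ∈ S) (N : ℕ) :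
    ext0 S (fun i => N * rV α S i) = fun i => N * α i := by
  funext i
  unfold ext0
  by_cases h : i ∈ S
  · rw [dif_pos h]
    rfl
  · rw [dif_neg h]
    have : α i = 0 := by
      by_contra hc
      exact h (hS i hc)
    rw [this, mul_zero]

theorem sw_smul (a : I → I → ℕ) (α : I → ℕ) (N : ℕ) (i : I) :
    sw a (fun i => N * α i) i = N * sw a α i := by
  unfold sw
  rw [mul_neg, Finset.mul_sum]
  congr 1
  apply Finset.sum_congr rfl
  intro j _
  push_cast
  ring

end

section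

variable {I E : Type} [Fintype I] [DecidableEq I] [Fintype E]

end

end Pool.Agent.H27.KAC

end

section

/-!
KAC module KG1: generating function bounds for sums over multipartitions (elementary, independent).

For `0 < x < 1` and nonnegative `c_l(j)` with `∑_{j ≤ J} c_l(j) x^(l j) ≤ b_l` for all `J`:
`∑_{μ : Fin K → ℕ, ∑ (l+1) μ_l = N} ∏_l c_{l+1}(μ_l) ≤ x^(-N) ∏_{l ≤ K} b_l` (induction on `K`; or multiply each term by
`x^(∑ (l+1) μ_l) = x^N` and enlarge the sum to a product of sums).  Here `c_l(j) = 1`, `b_l = (1 - x^l)^(-1)` for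
`l ≤ L0`, and `c_l(j) = C(A + j, j)`, `b_l = (1 - x^l)^(-(A+1))` for `l > L0` (`∑_j C(A+j,j) y^j = (1-y)^(-(A+1))`,
Mathlib: `tsum_choose_mul_geometric_of_norm_lt_one` or an elementary induction on `A` for finite sums).
The sum over `m ∈ Mset K β` of a product over `i` is the product over `i` of the sums for `N = β_i`.
`(1 - x^l)^(-1) ≤ exp(x^l / (1 - x))`, so `∏_{l > L0} b_l ≤ exp((A+1) x^(L0+1) / (1-x)^2)`.
* `gen_bound_all`: `x = 1/2`, `L0 = 0`, `A = A3 n`.
* `gen_bound_eps`: first choose `x < 1` with `(∑ α_i) log(1/x) ≤ ε/3`, then `L0` with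
  `|I| (A3 n + 1) x^(L0+1)/(1-x)^2 ≤ (ε/3)(n + 1)`, i.e. `|I| (A3+1) x^(L0+1)/(1-x)^2 ≤ ε/3`; the factors for
  `l ≤ L0` are a constant.
-/

namespace Pool.Agent.H27.KAC

open scoped BigOperators

variable {I : Type} [Fintype I] [DecidableEq I]

theorem KG1_choose_sum (A J : ℕ) (y : ℝ) (h0 : 0 ≤ y) (h1 : y < 1) :
    ∑ j ∈ Finset.range J, (((A + j).choose j : ℕ) : ℝ) * y ^ j ≤ 1 / (1 - y) ^ (A + 1) := by
  have hy : ‖y‖ < 1 := by
    rw [Real.norm_of_nonneg h0]
    exact h1
  have h2 := hasSum_choose_mul_geometric_of_norm_lt_one (𝕜 := ℝ) A hy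
  have h3 : ∀ j : ℕ, (((A + j).choose j : ℕ) : ℝ) = (((j + A).choose A : ℕ) : ℝ) := by
    intro j
    rw [add_comm A j, Nat.choose_symm_add]
  simp only [h3]
  rw [← h2.tsum_eq]
  exact h2.summable.sum_le_tsum _ (fun j _ => by positivity)

theorem KG1_b (x : ℝ) (hx0 : 0 < x) (hx1 : x < 1) (l A : ℕ) :
    1 / (1 - x ^ (l + 1)) ^ (A + 1) ≤ Real.exp (((A : ℝ) + 1) * (x ^ (l + 1) / (1 - x))) := by
  have hy0 : 0 < x ^ (l + 1) := by positivity
  have hyx : x ^ (l + 1) ≤ x := by
    calc x ^ (l + 1) ≤ x ^ 1 := pow_le_pow_of_le_one hx0.le hx1.le (by omega)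
      _ = x := pow_one x
  have h1 : 0 < 1 - x ^ (l + 1) := by linarith
  have hx1' : 0 < 1 - x := by linarith
  have h2 : 1 / (1 - x ^ (l + 1)) ≤ Real.exp (x ^ (l + 1) / (1 - x)) := by
    have h3 : 1 / (1 - x ^ (l + 1)) = x ^ (l + 1) / (1 - x ^ (l + 1)) + 1 := by
      field_simp
      ring
    rw [h3]
    refine (Real.add_one_le_exp _).trans ?_
    apply Real.exp_le_exp.2
    apply div_le_div_of_nonneg_left hy0.le hx1'
    linarith
  have h4 : 1 / (1 - x ^ (l + 1)) ^ (A + 1) = (1 / (1 - x ^ (l + 1))) ^ (A + 1) := by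
    rw [one_div_pow]
  rw [h4]
  refine (pow_le_pow_left₀ (by positivity) h2 (A + 1)).trans (le_of_eq ?_)
  rw [← Real.exp_nat_mul]
  push_cast
  rfl

theorem KG1_geom (x : ℝ) (hx0 : 0 < x) (hx1 : x < 1) (K : ℕ) :
    ∑ l ∈ Finset.range K, x ^ l ≤ 1 / (1 - x) := by
  rw [le_div_iff₀ (by linarith), geom_sum_mul_neg]
  have : 0 < x ^ K := by positivity
  linarith

theorem KG1_geom2 (x : ℝ) (hx0 : 0 < x) (hx1 : x < 1) (K L : ℕ) :
    ∑ l ∈ Finset.range K, (if L ≤ l then x ^ (l + 1) else 0) ≤ x ^ (L + 1) / (1 - x) := by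
  have h1 : ∑ l ∈ Finset.range K, (if L ≤ l then x ^ (l + 1) else 0) =
      ∑ l ∈ Finset.Ico L K, x ^ (l + 1) := by
    rw [← Finset.sum_filter]
    apply Finset.sum_congr _ fun _ _ => rfl
    ext l
    simp only [Finset.mem_filter, Finset.mem_range, Finset.mem_Ico]
    tauto
  rw [h1, Finset.sum_Ico_eq_sum_range]
  have h2 : ∑ k ∈ Finset.range (K - L), x ^ (L + k + 1) =
      x ^ (L + 1) * ∑ k ∈ Finset.range (K - L), x ^ k := by
    rw [Finset.mul_sum]
    exact Finset.sum_congr rfl fun k _ => by ring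
  rw [h2, div_eq_mul_one_div]
  exact mul_le_mul_of_nonneg_left (KG1_geom x hx0 hx1 _) (by positivity)

theorem KG1_main (x : ℝ) (hx0 : 0 < x) (hx1 : x < 1) (β : I → ℕ) (K L A : ℕ) :
    (∑ m ∈ Mset K β, ∏ l : Fin K, ∏ i : I,
      (if L ≤ (l : ℕ) then (((A + m l i).choose (m l i) : ℕ) : ℝ) else 1)) * x ^ (∑ i, β i) ≤
    Real.exp ((Fintype.card I : ℝ) * (x / (1 - x) ^ 2) +
      (Fintype.card I : ℝ) * ((A : ℝ) + 1) * (x ^ (L + 1) / (1 - x) ^ 2)) := by
  classical
  have hx1' : 0 < 1 - x := by linarith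
  let Al : Fin K → ℕ := fun l => if L ≤ (l : ℕ) then A else 0
  let f : Fin K → ℕ → ℝ := fun l j => (((Al l + j).choose j : ℕ) : ℝ) * x ^ (((l : ℕ) + 1) * j)
  have hf0 : ∀ l j, 0 ≤ f l j := fun l j => by
    show 0 ≤ (((Al l + j).choose j : ℕ) : ℝ) * x ^ (((l : ℕ) + 1) * j)
    positivity
  have h1 : (∑ m ∈ Mset K β, ∏ l : Fin K, ∏ i : I,
      (if L ≤ (l : ℕ) then (((A + m l i).choose (m l i) : ℕ) : ℝ) else 1)) * x ^ (∑ i, β i) =
      ∑ m ∈ Mset K β, ∏ l : Fin K, ∏ i : I, f l (m l i) := by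
    rw [Finset.sum_mul]
    refine Finset.sum_congr rfl fun m hm => ?_
    have h2 : x ^ (∑ i, β i) = ∏ l : Fin K, ∏ i : I, x ^ (((l : ℕ) + 1) * m l i) := by
      unfold Mset at hm
      rw [Finset.mem_filter] at hm
      rw [Finset.prod_comm, ← Finset.prod_pow_eq_pow_sum]
      refine Finset.prod_congr rfl fun i _ => ?_
      rw [Finset.prod_pow_eq_pow_sum, hm.2 i]
    rw [h2, ← Finset.prod_mul_distrib]
    refine Finset.prod_congr rfl fun l _ => ?_
    rw [← Finset.prod_mul_distrib]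
    refine Finset.prod_congr rfl fun i _ => ?_
    show (if L ≤ (l : ℕ) then (((A + m l i).choose (m l i) : ℕ) : ℝ) else 1) *
      x ^ (((l : ℕ) + 1) * m l i) =
      ((((if L ≤ (l : ℕ) then A else 0) + m l i).choose (m l i) : ℕ) : ℝ) *
        x ^ (((l : ℕ) + 1) * m l i)
    split_ifs
    · rfl
    · rw [zero_add, Nat.choose_self, Nat.cast_one]
  rw [h1]
  have h2 : ∑ m ∈ Mset K β, ∏ l : Fin K, ∏ i : I, f l (m l i) ≤
      ∏ l : Fin K, ∏ i : I, ∑ j ∈ Finset.range (β i + 1), f l j := by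
    simp only [Finset.prod_univ_sum]
    apply Finset.sum_le_sum_of_subset_of_nonneg (Finset.filter_subset _ _)
    intro m _ _
    exact Finset.prod_nonneg fun l _ => Finset.prod_nonneg fun i _ => hf0 _ _
  have h3 : ∀ (l : Fin K) (i : I), ∑ j ∈ Finset.range (β i + 1), f l j ≤
      Real.exp (((Al l : ℝ) + 1) * (x ^ ((l : ℕ) + 1) / (1 - x))) := by
    intro l i
    refine le_trans ?_ (KG1_b x hx0 hx1 l (Al l))
    have hy1 : x ^ ((l : ℕ) + 1) < 1 := pow_lt_one₀ hx0.le hx1 (by omega)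
    refine le_trans (le_of_eq ?_) (KG1_choose_sum (Al l) (β i + 1) (x ^ ((l : ℕ) + 1))
      (by positivity) hy1)
    refine Finset.sum_congr rfl fun j _ => ?_
    show (((Al l + j).choose j : ℕ) : ℝ) * x ^ (((l : ℕ) + 1) * j) = _
    rw [pow_mul]
  refine h2.trans ?_
  have h4 : ∏ l : Fin K, ∏ i : I, ∑ j ∈ Finset.range (β i + 1), f l j ≤
      ∏ l : Fin K, ∏ _i : I, Real.exp (((Al l : ℝ) + 1) * (x ^ ((l : ℕ) + 1) / (1 - x))) := by
    apply Finset.prod_le_prod
    · intro l _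
      exact Finset.prod_nonneg fun i _ => Finset.sum_nonneg fun j _ => hf0 _ _
    · intro l _
      apply Finset.prod_le_prod
      · intro i _
        exact Finset.sum_nonneg fun j _ => hf0 _ _
      · intro i _
        exact h3 l i
  refine h4.trans ?_
  simp only [Finset.prod_const, Finset.card_univ, ← Real.exp_nat_mul, ← Real.exp_sum]
  apply Real.exp_le_exp.2
  rw [← Finset.mul_sum]
  have h5 : ∑ l : Fin K, ((Al l : ℝ) + 1) * (x ^ ((l : ℕ) + 1) / (1 - x)) ≤
      x / (1 - x) ^ 2 + ((A : ℝ) + 1) * (x ^ (L + 1) / (1 - x) ^ 2) := by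
    have h6 : ∀ l : Fin K, ((Al l : ℝ) + 1) * (x ^ ((l : ℕ) + 1) / (1 - x)) ≤
        (x ^ ((l : ℕ) + 1) + ((A : ℝ) + 1) * (if L ≤ (l : ℕ) then x ^ ((l : ℕ) + 1) else 0)) /
          (1 - x) := by
      intro l
      rw [← mul_div_assoc]
      apply div_le_div_of_nonneg_right _ hx1'.le
      have hp : 0 ≤ x ^ ((l : ℕ) + 1) := by positivity
      show (((if L ≤ (l : ℕ) then A else 0 : ℕ) : ℝ) + 1) * x ^ ((l : ℕ) + 1) ≤ _
      split_ifs
      · nlinarith
      · push_cast
        linarith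
    refine (Finset.sum_le_sum fun l _ => h6 l).trans ?_
    rw [← Finset.sum_div, Finset.sum_add_distrib, ← Finset.mul_sum]
    rw [Fin.sum_univ_eq_sum_range (fun l => x ^ (l + 1)) K,
      Fin.sum_univ_eq_sum_range (fun l => if L ≤ l then x ^ (l + 1) else 0) K]
    have g1 : ∑ l ∈ Finset.range K, x ^ (l + 1) ≤ x / (1 - x) := by
      have := KG1_geom2 x hx0 hx1 K 0
      simpa using this
    have g2 := KG1_geom2 x hx0 hx1 K L
    rw [div_le_iff₀ hx1']
    have h7 : (x / (1 - x) ^ 2 + ((A : ℝ) + 1) * (x ^ (L + 1) / (1 - x) ^ 2)) * (1 - x) =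
        x / (1 - x) + ((A : ℝ) + 1) * (x ^ (L + 1) / (1 - x)) := by
      field_simp
    rw [h7]
    have g3 := mul_le_mul_of_nonneg_left g2 (show (0:ℝ) ≤ (A : ℝ) + 1 by positivity)
    linarith
  calc (Fintype.card I : ℝ) * ∑ l : Fin K, ((Al l : ℝ) + 1) * (x ^ ((l : ℕ) + 1) / (1 - x)) ≤
        (Fintype.card I : ℝ) * (x / (1 - x) ^ 2 + ((A : ℝ) + 1) * (x ^ (L + 1) / (1 - x) ^ 2)) :=
        mul_le_mul_of_nonneg_left h5 (Nat.cast_nonneg _)
    _ = _ := by ring

theorem gen_bound_all (α : I → ℕ) (A3 : ℕ) :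
    ∃ c C : ℝ, 0 < c ∧ 1 ≤ C ∧ ∀ n K : ℕ,
      (∑ m ∈ Mset K (fun i => n * α i), ∏ l : Fin K, ∏ i : I,
        (((A3 * n + m l i).choose (m l i) : ℕ) : ℝ)) ≤ C * Real.exp (c * n) := by
  set s : ℕ := ∑ i, α i with hs
  set N : ℝ := (Fintype.card I : ℝ) with hN
  have hN0 : 0 ≤ N := Nat.cast_nonneg _
  have hlog : 0 < Real.log 2 := Real.log_pos (by norm_num)
  refine ⟨s * Real.log 2 + 2 * N * A3 + 1, Real.exp (4 * N), by positivity,
    Real.one_le_exp (by positivity), fun n K => ?_⟩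
  have h := KG1_main (1 / 2 : ℝ) (by norm_num) (by norm_num) (fun i => n * α i) K 0 (A3 * n)
  simp only [Nat.zero_le, if_true] at h
  have hsum : ∑ i, n * α i = n * s := by rw [hs, Finset.mul_sum]
  rw [hsum, ← hN] at h
  set Z := ∑ m ∈ Mset K (fun i => n * α i), ∏ l : Fin K, ∏ i : I,
        (((A3 * n + m l i).choose (m l i) : ℕ) : ℝ) with hZ
  have h2 : ((1:ℝ) / 2) ^ (n * s) = Real.exp (-(n * s * Real.log 2)) := by
    rw [Real.exp_neg, ← Real.rpow_natCast]
    rw [show ((1:ℝ)/2) = (2:ℝ)⁻¹ by norm_num, Real.inv_rpow (by norm_num),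
      Real.rpow_def_of_pos (by norm_num)]
    push_cast
    ring_nf
  rw [h2] at h
  have hpos : 0 < Real.exp (-(n * s * Real.log 2)) := Real.exp_pos _
  have h3 : Z = Z * Real.exp (-(n * s * Real.log 2)) * Real.exp (n * s * Real.log 2) := by
    rw [mul_assoc, ← Real.exp_add, neg_add_cancel, Real.exp_zero, mul_one]
  rw [h3]
  refine (mul_le_mul_of_nonneg_right h (Real.exp_pos _).le).trans ?_
  rw [← Real.exp_add, ← Real.exp_add]
  apply Real.exp_le_exp.2
  push_cast
  have hn : (0:ℝ) ≤ n := Nat.cast_nonneg _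
  norm_num
  nlinarith

theorem gen_bound_eps (α : I → ℕ) (A3 : ℕ) (ε : ℝ) (hε : 0 < ε) :
    ∃ L0 : ℕ, 1 ≤ L0 ∧ ∃ C : ℝ, 1 ≤ C ∧ ∀ n K : ℕ,
      (∑ m ∈ Mset K (fun i => n * α i), ∏ l : Fin K, ∏ i : I,
        (if L0 ≤ (l : ℕ) then (((A3 * n + m l i).choose (m l i) : ℕ) : ℝ) else 1)) ≤
          C * Real.exp (ε * n) := by
  set s : ℕ := ∑ i, α i with hs
  set N : ℝ := (Fintype.card I : ℝ) with hN
  have hN0 : 0 ≤ N := Nat.cast_nonneg _
  set δ : ℝ := ε / (3 * (s + 1)) with hδ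
  have hδ0 : 0 < δ := by positivity
  set x := Real.exp (-δ) with hx
  have hx0 : 0 < x := Real.exp_pos _
  have hx1 : x < 1 := by
    rw [hx, Real.exp_lt_one_iff]
    linarith
  have hx1' : 0 < 1 - x := by linarith
  have hsδ : s * δ ≤ ε / 3 := by
    rw [hδ, ← mul_div_assoc, div_le_iff₀ (by positivity)]
    have : (0:ℝ) ≤ s := Nat.cast_nonneg _
    nlinarith
  have hlim : Filter.Tendsto (fun L : ℕ => N * ((A3 : ℝ) + 1) * (x ^ (L + 1) / (1 - x) ^ 2))
      Filter.atTop (nhds (N * ((A3 : ℝ) + 1) * (0 / (1 - x) ^ 2))) := by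
    apply Filter.Tendsto.const_mul
    apply Filter.Tendsto.div_const
    exact (tendsto_pow_atTop_nhds_zero_of_lt_one hx0.le hx1).comp (Filter.tendsto_add_atTop_nat 1)
  rw [zero_div, mul_zero] at hlim
  have hev := (hlim.eventually (gt_mem_nhds (show (0:ℝ) < ε / 3 by positivity))).and
    (Filter.eventually_ge_atTop 1)
  obtain ⟨L0, hL, hL1⟩ := hev.exists
  refine ⟨L0, hL1, Real.exp (N * (x / (1 - x) ^ 2) + ε / 3),
    Real.one_le_exp (by positivity), fun n K => ?_⟩
  have h := KG1_main x hx0 hx1 (fun i => n * α i) K L0 (A3 * n)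
  have hsum : ∑ i, n * α i = n * s := by rw [hs, Finset.mul_sum]
  rw [hsum, ← hN] at h
  set Z := ∑ m ∈ Mset K (fun i => n * α i), ∏ l : Fin K, ∏ i : I,
        (if L0 ≤ (l : ℕ) then (((A3 * n + m l i).choose (m l i) : ℕ) : ℝ) else 1) with hZ
  have h2 : x ^ (n * s) = Real.exp (-(n * s * δ)) := by
    rw [hx, ← Real.exp_nat_mul]
    push_cast
    ring_nf
  rw [h2] at h
  have h3 : Z = Z * Real.exp (-(n * s * δ)) * Real.exp (n * s * δ) := by
    rw [mul_assoc, ← Real.exp_add, neg_add_cancel, Real.exp_zero, mul_one]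
  rw [h3]
  refine (mul_le_mul_of_nonneg_right h (Real.exp_pos _).le).trans ?_
  rw [← Real.exp_add, ← Real.exp_add]
  apply Real.exp_le_exp.2
  push_cast
  have hn : (0:ℝ) ≤ n := Nat.cast_nonneg _
  set w := x ^ (L0 + 1) / (1 - x) ^ 2 with hw
  have hw0 : 0 ≤ w := by positivity
  have g1 : N * ((A3:ℝ) * n + 1) * w ≤ ε / 3 * (n + 1) := by
    have g2 : N * ((A3:ℝ) * n + 1) * w ≤ N * ((A3 : ℝ) + 1) * w * (n + 1) := by
      have g3 : (A3:ℝ) * n + 1 ≤ ((A3 : ℝ) + 1) * (n + 1) := by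
        have : (0:ℝ) ≤ A3 := Nat.cast_nonneg _
        nlinarith
      calc N * ((A3:ℝ) * n + 1) * w = N * w * ((A3:ℝ) * n + 1) := by ring
        _ ≤ N * w * (((A3 : ℝ) + 1) * (n + 1)) := mul_le_mul_of_nonneg_left g3 (by positivity)
        _ = _ := by ring
    exact g2.trans (mul_le_mul_of_nonneg_right hL.le (by positivity))
  have g4 : n * (s * δ) ≤ n * (ε / 3) := mul_le_mul_of_nonneg_left hsδ hn
  have g5 : (n : ℝ) * s * δ = n * (s * δ) := by ring
  have g6 : 0 ≤ ε * n := by positivity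
  rw [g5]
  linarith

end Pool.Agent.H27.KAC

end

section

/-!
KAC module KG4: admissible multipartitions: sums, existence, comparison with `f`.

* `Adm_add`, `EW_add`: `PLF`, `mAt` are additive in `m`; `C(P+m,m) C(P'+m',m') ≤ C(P+P'+m+m', m+m')`
  (Vandermonde); the vacancy numbers are `≥ 0` for `1 ≤ l ≤ K` (`PLF_top`).
* `Adm_exists`: `m` = one part of size `K` at each vertex of `B` (loop-free, `s_i = 0`), the rest parts of size 1:
  by `PLF_eq`, `PLF l i = n s_i + ∑_{x ∈ B} C_{ix} (K - l)`: for `i ∈ B` it is `2 (K-l) ≥ 1`; for `i ∉ B` it is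
  `≥ n - ∑_x a_{xi} K ≥ 1` for large `n`.
* `PLF_le`: `PLF l i ≤ ∑_j a_ij β_j`.
* `EW_le_f`: `wt P m = C(P+m,m)/(P+m)` for `P ≥ 1`, and `C(0+m,m) = 1`; so `EW ≤ lbW * ∏ (P+m)`, each `P + m ≤ C n`;
  `lbW ≤ f * n^2 ∑ α_i s_i` by `lower_bound` for `n • α` (`Ample.nsmul`).
-/

namespace Pool.Agent.H27.KAC

open scoped BigOperators
open MvPowerSeries

variable {I : Type} [Fintype I] [DecidableEq I]

private theorem KG4_mem {K : ℕ} (β : I → ℕ) (m : Fin K → I → ℕ) :
    m ∈ Mset K β ↔ ∀ i, ∑ k : Fin K, ((k : ℕ) + 1) * m k i = β i := by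
  unfold Mset
  rw [Finset.mem_filter]
  constructor
  · exact fun h => h.2
  · intro h
    refine ⟨?_, h⟩
    rw [Fintype.mem_piFinset]
    intro k
    rw [Fintype.mem_piFinset]
    intro i
    rw [Finset.mem_range, Nat.lt_succ_iff, ← h i]
    calc m k i ≤ ((k : ℕ) + 1) * m k i := Nat.le_mul_of_pos_left _ (Nat.succ_pos _)
      _ ≤ _ := Finset.single_le_sum (f := fun k : Fin K => ((k : ℕ) + 1) * m k i)
          (fun _ _ => Nat.zero_le _) (Finset.mem_univ k)

private theorem KG4_mAt_add {K : ℕ} (m m' : Fin K → I → ℕ) (l : ℕ) (i : I) :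
    mAt (fun k i => m k i + m' k i) l i = mAt m l i + mAt m' l i := by
  unfold mAt
  split_ifs with h
  · rfl
  · rfl

private theorem KG4_PLF_add (a : I → I → ℕ) {K : ℕ} (m m' : Fin K → I → ℕ) (l : ℕ) (i : I) :
    PLF a (fun k i => m k i + m' k i) l i = PLF a m l i + PLF a m' l i := by
  unfold PLF
  rw [← Finset.sum_add_distrib]
  refine Finset.sum_congr rfl fun j _ => ?_
  rw [← Finset.sum_add_distrib]
  refine Finset.sum_congr rfl fun k _ => ?_
  push_cast
  ring

theorem Adm_add (a : I → I → ℕ) {K : ℕ} (β β' : I →₀ ℕ) (m m' : Fin K → I → ℕ)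
    (h : Adm a β m) (h' : Adm a β' m') : Adm a (β + β') (fun k i => m k i + m' k i) := by
  refine ⟨?_, ?_, ?_⟩
  · rw [KG4_mem]
    intro i
    have h1 := (KG4_mem _ _).mp h.1 i
    have h2 := (KG4_mem _ _).mp h'.1 i
    rw [Finsupp.add_apply, ← h1, ← h2, ← Finset.sum_add_distrib]
    exact Finset.sum_congr rfl fun k _ => by ring
  · intro i
    rw [KG4_mAt_add]
    exact (h.2.1 i).trans (Nat.le_add_right _ _)
  · intro l h1 h2 i
    rw [KG4_PLF_add]
    have e1 := h.2.2 l h1 h2 i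
    have e2 := h'.2.2 l h1 h2 i
    omega

private theorem KG4_choose (P m P' m' : ℕ) :
    (P + m).choose m * (P' + m').choose m' ≤ (P + P' + (m + m')).choose (m + m') := by
  have h1 : P + P' + (m + m') = (P + m) + (P' + m') := by ring
  rw [h1, Nat.add_choose_eq (P + m) (P' + m') (m + m')]
  exact Finset.single_le_sum (f := fun ij : ℕ × ℕ => (P + m).choose ij.1 * (P' + m').choose ij.2)
    (fun _ _ => Nat.zero_le _)
    (Finset.HasAntidiagonal.mem_antidiagonal.mpr (rfl : (m, m').1 + (m, m').2 = m + m'))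

private theorem KG4_PLF_nn (a : I → I → ℕ) {K : ℕ} (β : I →₀ ℕ) (m : Fin K → I → ℕ)
    (h : Adm a β m) (hβ : ∀ i, 0 ≤ -cw a β i) (l : ℕ) (hl : l ∈ Finset.Icc 1 K) (i : I) :
    0 ≤ PLF a m l i := by
  rw [Finset.mem_Icc] at hl
  rcases lt_or_ge l K with h1 | h1
  · have := h.2.2 l hl.1 h1 i
    omega
  · rw [PLF_top a β m h.1 l h1 i]
    exact hβ i

theorem EW_add (a : I → I → ℕ) {K : ℕ} (β β' : I →₀ ℕ) (m m' : Fin K → I → ℕ)
    (h : Adm a β m) (h' : Adm a β' m') (hβ : ∀ i, 0 ≤ -cw a β i) (hβ' : ∀ i, 0 ≤ -cw a β' i) :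
    EW a m * EW a m' ≤ EW a (fun k i => m k i + m' k i) := by
  unfold EW
  rw [← Finset.prod_mul_distrib]
  refine Finset.prod_le_prod' fun l hl => ?_
  rw [← Finset.prod_mul_distrib]
  refine Finset.prod_le_prod' fun i _ => ?_
  rw [KG4_PLF_add, KG4_mAt_add,
    Int.toNat_add (KG4_PLF_nn a β m h hβ l hl i) (KG4_PLF_nn a β' m' h' hβ' l hl i)]
  exact KG4_choose _ _ _ _

theorem EW_pos (a : I → I → ℕ) {K : ℕ} (m : Fin K → I → ℕ) : 1 ≤ EW a m := by
  unfold EW
  refine Finset.one_le_prod' fun l _ => Finset.one_le_prod' fun i _ => ?_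
  exact Nat.choose_pos (Nat.le_add_left _ _)

theorem PLF_le (a : I → I → ℕ) {K : ℕ} (β : I →₀ ℕ) (m : Fin K → I → ℕ) (hm : m ∈ Mset K β)
    (l : ℕ) (i : I) : PLF a m l i ≤ ∑ j, (a i j : ℤ) * (β j : ℤ) := by
  unfold PLF
  refine Finset.sum_le_sum fun j _ => ?_
  have h1 := (KG4_mem _ _).mp hm j
  rw [← h1]
  push_cast
  rw [Finset.mul_sum]
  refine Finset.sum_le_sum fun k _ => ?_
  have hmin0 : (0 : ℤ) ≤ min (l : ℤ) ((k : ℕ) + 1 : ℤ) := le_min (by positivity) (by positivity)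
  have hmin1 : min (l : ℤ) ((k : ℕ) + 1 : ℤ) ≤ ((k : ℕ) + 1 : ℤ) := min_le_right _ _
  have hc : -cart a i j ≤ (a i j : ℤ) := by
    unfold cart
    split_ifs <;> omega
  have hm0 : (0 : ℤ) ≤ (m k j : ℤ) := Int.natCast_nonneg _
  have ha0 : (0 : ℤ) ≤ (a i j : ℤ) := Int.natCast_nonneg _
  calc min (l : ℤ) ((k : ℕ) + 1 : ℤ) * -cart a i j * (m k j : ℤ)
      ≤ min (l : ℤ) ((k : ℕ) + 1 : ℤ) * (a i j : ℤ) * (m k j : ℤ) :=
        mul_le_mul_of_nonneg_right (mul_le_mul_of_nonneg_left hc hmin0) hm0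
    _ ≤ ((k : ℕ) + 1 : ℤ) * (a i j : ℤ) * (m k j : ℤ) :=
        mul_le_mul_of_nonneg_right (mul_le_mul_of_nonneg_right hmin1 ha0) hm0
    _ = (a i j : ℤ) * (((k : ℕ) + 1 : ℤ) * (m k j : ℤ)) := by ring

end Pool.Agent.H27.KAC

end

section

/-!
KAC module KG5: upper bound for `f`, and the supremum `h`.

`hsup a α` = supremum of `log (EW a m) / n` over all `K ≥ 2`, `n ≥ 1`, `m` admissible for `n α`.
* `EW_le_exp`: `EW a m` is at most the sum in `gen_bound_all` with `A3 = ∑_{i,j} a_ij α_j` (one term of the sum dominates the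
  weight: `PLF ≤ A3 n`, `PLF_le`), so `hsup` is a supremum of a bounded set; nonempty by `Adm_exists`.
* `le_hsup`: `EW a m ≤ exp (n * hsup)`.
* `f_upper`: `f(nα) ≤ Msum a K 2 (nα)` (`f_le_Msum`, K large).  Each term: split `l ≤ L` and `l > L` (`L` from `window`),
  the first part is `≤ EW a m' ≤ exp(n' hsup)`, `n' ≤ n + n/q + T`; in the second part
  `PLF + 2l ≤ A3 n` if `m_l i ≥ 1` (then `l ≤ n α_i`; take `A3 = ∑ a_ij α_j + 2 ∑ α_i`), and `L ≥ L0`, so it is at most the
  summand of `gen_bound_eps`.  Hence `f(nα) ≤ exp((n + n/q + T) hsup) * C exp(ε n)` for `n ≥ n0`.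
-/

namespace Pool.Agent.H27.KAC

open scoped BigOperators
open MvPowerSeries

variable {I : Type} [Fintype I] [DecidableEq I]

/-- the growth rate. -/
noncomputable def hsup (a : I → I → ℕ) (α : I →₀ ℕ) : ℝ :=
  sSup {x : ℝ | ∃ K n : ℕ, 2 ≤ K ∧ 1 ≤ n ∧ ∃ m : Fin K → I → ℕ, Adm a (n • α) m ∧
    x = Real.log (EW a m) / n}

theorem KG5_mAt {K : ℕ} (m : Fin K → I → ℕ) (l : Fin K) (i : I) :
    mAt m ((l : ℕ) + 1) i = m l i := by
  unfold mAt
  rw [dif_pos ⟨by omega, by omega⟩]
  congr 1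

theorem KG5_prod_Icc (g : ℕ → ℕ) : ∀ K : ℕ,
    ∏ l ∈ Finset.Icc 1 K, g l = ∏ l : Fin K, g ((l : ℕ) + 1)
  | 0 => by simp
  | K + 1 => by
    rw [Finset.prod_Icc_succ_top (by omega), Fin.prod_univ_castSucc, KG5_prod_Icc g K]
    simp

theorem KG5_coe (α : I →₀ ℕ) (n : ℕ) : ((n • α : I →₀ ℕ) : I → ℕ) = fun i => n * α i := by
  funext i
  simp

/-- the vacancy numbers are at most linear in `n`. -/
theorem KG5_PLF (a : I → I → ℕ) (α : I →₀ ℕ) {n K : ℕ} (m : Fin K → I → ℕ)
    (hm : m ∈ Mset K (n • α)) (l : ℕ) (i : I) :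
    PLF a m l i ≤ (((∑ i, ∑ j, a i j * α j) * n : ℕ) : ℤ) := by
  refine (PLF_le a (n • α) m hm l i).trans ?_
  have h1 : ∑ j, (a i j : ℤ) * (((n • α : I →₀ ℕ) j : ℕ) : ℤ) = (((∑ j, a i j * α j) * n : ℕ) : ℤ) := by
    push_cast
    rw [Finset.sum_mul]
    refine Finset.sum_congr rfl (fun j _ => ?_)
    simp only [Pi.smul_apply, smul_eq_mul]
    push_cast
    ring
  rw [h1]
  have h2 : ∑ j, a i j * α j ≤ ∑ i, ∑ j, a i j * α j :=
    Finset.single_le_sum (f := fun i => ∑ j, a i j * α j) (fun _ _ => Nat.zero_le _)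
      (Finset.mem_univ i)
  exact_mod_cast Nat.mul_le_mul_right n h2

theorem KG5_EW_le (a : I → I → ℕ) (α : I →₀ ℕ) :
    ∃ c C : ℝ, 0 < c ∧ 1 ≤ C ∧ ∀ (n K : ℕ) (m : Fin K → I → ℕ), m ∈ Mset K (n • α) →
      (EW a m : ℝ) ≤ C * Real.exp (c * n) := by
  obtain ⟨c, C, hc, hC, h⟩ := gen_bound_all (fun i => α i) (∑ i, ∑ j, a i j * α j)
  refine ⟨c, C, hc, hC, fun n K m hm => ?_⟩
  refine le_trans ?_ (h n K)
  have h1 : EW a m ≤ ∏ l : Fin K, ∏ i : I,
      (((∑ i, ∑ j, a i j * α j) * n + m l i).choose (m l i)) := by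
    unfold EW
    rw [KG5_prod_Icc]
    refine Finset.prod_le_prod' (fun l _ => Finset.prod_le_prod' (fun i _ => ?_))
    rw [KG5_mAt]
    refine Nat.choose_le_choose _ ?_
    have := Int.toNat_le.2 (KG5_PLF a α m hm ((l : ℕ) + 1) i)
    omega
  have h2 : (EW a m : ℝ) ≤ ∏ l : Fin K, ∏ i : I,
      ((((∑ i, ∑ j, a i j * α j) * n + m l i).choose (m l i) : ℕ) : ℝ) := by
    have h3 : (EW a m : ℝ) ≤ ((∏ l : Fin K, ∏ i : I,
      (((∑ i, ∑ j, a i j * α j) * n + m l i).choose (m l i)) : ℕ) : ℝ) := by exact_mod_cast h1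
    push_cast at h3
    exact h3
  refine h2.trans ?_
  have hm' : m ∈ Mset K (fun i => n * α i) := by
    rw [← KG5_coe]
    exact hm
  exact Finset.single_le_sum (f := fun m : Fin K → I → ℕ => ∏ l : Fin K, ∏ i : I,
      ((((∑ i, ∑ j, a i j * α j) * n + m l i).choose (m l i) : ℕ) : ℝ))
    (fun m _ => Finset.prod_nonneg (fun l _ => Finset.prod_nonneg (fun i _ => Nat.cast_nonneg _)))
    hm'

/-- one term of the upper sum. -/
theorem KG5_term (a : I → I → ℕ) (α : I →₀ ℕ) {n K : ℕ} (m : Fin K → I → ℕ)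
    (hm : m ∈ Mset K (n • α)) (L L0 : ℕ) (hL : L0 ≤ L) :
    ∏ k : Fin K, ∏ i : I,
      ((PLF a m ((k : ℕ) + 1) i + ((k : ℤ) + 1) * ((2 : ℕ) : ℤ)).toNat + m k i).choose (m k i) ≤
    (∏ l ∈ Finset.Icc 1 L, ∏ i,
        ((PLF a m l i + 2 * (l : ℤ)).toNat + mAt m l i).choose (mAt m l i)) *
      ∏ k : Fin K, ∏ i : I, (if L0 ≤ (k : ℕ) then
        (((∑ i, ∑ j, a i j * α j + 2 * ∑ i, α i) * n + m k i).choose (m k i)) else 1) := by
  set G : ℕ → ℕ := fun l => ∏ i,
        ((PLF a m l i + 2 * (l : ℤ)).toNat + mAt m l i).choose (mAt m l i) with hG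
  have hG1 : ∀ l, 1 ≤ G l := by
    intro l
    refine Finset.one_le_prod' (fun i _ => ?_)
    exact Nat.choose_pos (by omega)
  have h1 : ∀ k : Fin K, (∏ i : I,
      ((PLF a m ((k : ℕ) + 1) i + ((k : ℤ) + 1) * ((2 : ℕ) : ℤ)).toNat + m k i).choose (m k i)) ≤
      (if (k : ℕ) + 1 ≤ L then G ((k : ℕ) + 1) else 1) * ∏ i : I, (if L0 ≤ (k : ℕ) then
        (((∑ i, ∑ j, a i j * α j + 2 * ∑ i, α i) * n + m k i).choose (m k i)) else 1) := by
    intro k
    have h2 : (∏ i : I,
      ((PLF a m ((k : ℕ) + 1) i + ((k : ℤ) + 1) * ((2 : ℕ) : ℤ)).toNat + m k i).choose (m k i)) =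
        G ((k : ℕ) + 1) := by
      simp only [hG]
      refine Finset.prod_congr rfl (fun i _ => ?_)
      rw [KG5_mAt]
      have h3 : PLF a m ((k : ℕ) + 1) i + ((k : ℤ) + 1) * ((2 : ℕ) : ℤ) =
          PLF a m ((k : ℕ) + 1) i + 2 * (((k : ℕ) + 1 : ℕ) : ℤ) := by
        push_cast
        ring
      rw [h3]
    rw [h2]
    by_cases hk : (k : ℕ) + 1 ≤ L
    · rw [if_pos hk]
      have h3 : 1 ≤ ∏ i : I, (if L0 ≤ (k : ℕ) then
        (((∑ i, ∑ j, a i j * α j + 2 * ∑ i, α i) * n + m k i).choose (m k i)) else 1) := by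
        refine Finset.one_le_prod' (fun i _ => ?_)
        split_ifs
        · exact Nat.choose_pos (by omega)
        · exact le_refl 1
      exact Nat.le_mul_of_pos_right _ h3
    · rw [if_neg hk, one_mul]
      push Not at hk
      simp only [hG]
      refine Finset.prod_le_prod' (fun i _ => ?_)
      rw [if_pos (by omega), KG5_mAt]
      rcases Nat.eq_zero_or_pos (m k i) with h0 | h0
      · rw [h0]
        simp
      · refine Nat.choose_le_choose _ ?_
        have h4 : ((k : ℕ) + 1) * m k i ≤ n * α i := by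
          have h5 := (Finset.mem_filter.1 hm).2 i
          have h6 : ((k : ℕ) + 1) * m k i ≤ ∑ k : Fin K, ((k : ℕ) + 1) * m k i :=
            Finset.single_le_sum (f := fun k : Fin K => ((k : ℕ) + 1) * m k i)
              (fun _ _ => Nat.zero_le _) (Finset.mem_univ k)
          rw [h5] at h6
          simpa using h6
        have h5 : (k : ℕ) + 1 ≤ n * α i := (Nat.le_mul_of_pos_right _ h0).trans h4
        have h6 : α i ≤ ∑ i, α i :=
          Finset.single_le_sum (f := fun i => α i) (fun _ _ => Nat.zero_le _) (Finset.mem_univ i)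
        have h7 : n * α i ≤ n * ∑ i, α i := Nat.mul_le_mul_left n h6
        have h8 := KG5_PLF a α m hm ((k : ℕ) + 1) i
        have h9 : PLF a m ((k : ℕ) + 1) i + 2 * (((k : ℕ) + 1 : ℕ) : ℤ) ≤
            (((∑ i, ∑ j, a i j * α j + 2 * ∑ i, α i) * n : ℕ) : ℤ) := by
          have h10 : (((k : ℕ) + 1 : ℕ) : ℤ) ≤ ((n * ∑ i, α i : ℕ) : ℤ) := by
            exact_mod_cast h5.trans h7
          have h11 : (((∑ i, ∑ j, a i j * α j + 2 * ∑ i, α i) * n : ℕ) : ℤ) =
              (((∑ i, ∑ j, a i j * α j) * n : ℕ) : ℤ) + 2 * ((n * ∑ i, α i : ℕ) : ℤ) := by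
            push_cast
            ring
          rw [h11]
          linarith
        have h10 := Int.toNat_le.2 h9
        omega
  refine (Finset.prod_le_prod' (fun k _ => h1 k)).trans ?_
  rw [Finset.prod_mul_distrib]
  refine Nat.mul_le_mul_right _ ?_
  rw [← KG5_prod_Icc (fun l => if l ≤ L then G l else 1) K, ← Finset.prod_filter]
  refine Finset.prod_le_prod_of_subset_of_one_le' ?_ (fun l _ _ => hG1 l)
  intro l hl
  rw [Finset.mem_filter, Finset.mem_Icc] at hl
  rw [Finset.mem_Icc]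
  exact ⟨hl.1.1, hl.2⟩

end Pool.Agent.H27.KAC

end

section

/-!
KAC module KH9: `hsup a α ≤ PhiR a α` for ample `α`.

PROOF.  `hsup` is the supremum of a nonempty set (`Adm_exists`), so it is enough to bound one element: `m` admissible for
`n • α` with parts at most `K` (`m : Fin K → I → ℕ`).  Real multipartition `m' l i = mAt m l i / n` (`mAt m l i` = number of parts of size
`l`, zero outside `1..K`); `vacR a K m' k i = PLF a m k i / n`; it is feasible for `α`: the vacancy numbers are `≥ 0` by `Adm`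
for `1 ≤ k < K`, zero for `k = 0`, and for `k ≥ K` equal to `-cw a α i ≥ 0` (`Ample`; compare `PLF_top` in KN or KL).
`log (EW a m) = ∑ log C(P + m, m) ≤ ∑ ent P m = n * EntR a K m'` (`log_choose_le`, `ent_smul`).
-/

set_option autoImplicit false

namespace Pool.Agent.H27.KAC

open scoped BigOperators

variable {I : Type} [Fintype I] [DecidableEq I]

theorem KH9_sum_Icc (g : ℕ → ℝ) : ∀ K : ℕ,
    ∑ l ∈ Finset.Icc 1 K, g l = ∑ l : Fin K, g ((l : ℕ) + 1)
  | 0 => by simp
  | K + 1 => by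
    rw [Finset.sum_Icc_succ_top (by omega), Fin.sum_univ_castSucc, KH9_sum_Icc g K]
    simp

theorem KH9_vac (a : I → I → ℕ) {K : ℕ} (m : Fin K → I → ℕ) (t : ℝ) (k : ℕ) (i : I) :
    vacR a K (fun l j => t * (mAt m l j : ℝ)) k i = t * (PLF a m k i : ℝ) := by
  unfold vacR PLF cR
  rw [KH9_sum_Icc]
  push_cast
  rw [Finset.sum_comm, Finset.mul_sum]
  refine Finset.sum_congr rfl fun l _ => ?_
  rw [← Finset.sum_neg_distrib, Finset.mul_sum, Finset.mul_sum]
  refine Finset.sum_congr rfl fun j _ => ?_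
  rw [KG5_mAt]
  ring

theorem KH9_mass {K : ℕ} (m : Fin K → I → ℕ) (t : ℝ) (β : I → ℕ) (hm : m ∈ Mset K β) (i : I) :
    massR K (fun l j => t * (mAt m l j : ℝ)) i = t * (β i : ℝ) := by
  unfold massR
  rw [KH9_sum_Icc]
  have h : ∑ k : Fin K, ((k : ℕ) + 1) * m k i = β i := (Finset.mem_filter.1 hm).2 i
  rw [← h]
  push_cast
  rw [Finset.mul_sum]
  refine Finset.sum_congr rfl fun l _ => ?_
  rw [KG5_mAt]
  ring

theorem KH9_log_EW (a : I → I → ℕ) {K : ℕ} (m : Fin K → I → ℕ) :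
    Real.log (EW a m) = ∑ l ∈ Finset.Icc 1 K, ∑ i,
      Real.log (((PLF a m l i).toNat + mAt m l i).choose (mAt m l i)) := by
  unfold EW
  rw [Nat.cast_prod, Real.log_prod]
  · refine Finset.sum_congr rfl fun l _ => ?_
    rw [Nat.cast_prod, Real.log_prod]
    intro i _
    exact_mod_cast (Nat.choose_pos (Nat.le_add_left _ _)).ne'
  · intro l _
    rw [Nat.cast_prod]
    refine Finset.prod_ne_zero_iff.2 fun i _ => ?_
    exact_mod_cast (Nat.choose_pos (Nat.le_add_left _ _)).ne'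

end Pool.Agent.H27.KAC

end

section

/-!
Project KAC, part I.2: Bernstein-Gelfand-Ponomarev reflection at a sink.

`qIn` is the quiver with vertices `Option I0` in which `none` is a sink, `qOut` the quiver with the arrows at `none`
reversed.  Two representations are related (`BR`) if they agree on `I0` and the maps at `none` form a split exact
sequence.
-/

set_option autoImplicit false

namespace Pool.Agent.H27.KAC

open scoped BigOperators

variable {I0 E0 J : Type}

/-- `none` is a sink. -/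
def qIn (Q0 : Quiv I0 E0) (o : J → I0) : Quiv (Option I0) (E0 ⊕ J) where
  src := Sum.elim (fun e => some (Q0.src e)) (fun j => some (o j))
  tgt := Sum.elim (fun e => some (Q0.tgt e)) (fun _ => none)

/-- `none` is a source. -/
def qOut (Q0 : Quiv I0 E0) (o : J → I0) : Quiv (Option I0) (E0 ⊕ J) where
  src := Sum.elim (fun e => some (Q0.src e)) (fun _ => none)
  tgt := Sum.elim (fun e => some (Q0.tgt e)) (fun j => some (o j))

/-- dimension `n` at `none` and `β` at the other vertices. -/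
def oc (n : ℕ) (β : I0 → ℕ) : Option I0 → ℕ := fun v => v.elim n β

section

variable {Q0 : Quiv I0 E0} {o : J → I0} {F : Type} [Field F] {n m : ℕ} {β : I0 → ℕ}

/-- the index set of the middle term -/
abbrev Mid (o : J → I0) (β : I0 → ℕ) : Type := Σ j : J, Fin (β (o j))

/-- restriction to `I0` of a representation of `qIn` -/
def resIn (x : Rp (qIn Q0 o) F (oc n β)) (e : E0) :
    Matrix (Fin (β (Q0.tgt e))) (Fin (β (Q0.src e))) F := x (Sum.inl e)

/-- restriction to `I0` of a representation of `qOut` -/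
def resOut (y : Rp (qOut Q0 o) F (oc m β)) (e : E0) :
    Matrix (Fin (β (Q0.tgt e))) (Fin (β (Q0.src e))) F := y (Sum.inl e)

/-- the arrows ending at `none` -/
def hj (x : Rp (qIn Q0 o) F (oc n β)) (j : J) : Matrix (Fin n) (Fin (β (o j))) F :=
  x (Sum.inr j)

/-- the arrows starting at `none` -/
def lj (y : Rp (qOut Q0 o) F (oc m β)) (j : J) : Matrix (Fin (β (o j))) (Fin m) F :=
  y (Sum.inr j)

/-- the map of the middle term to the space at `none` -/
def hM (x : Rp (qIn Q0 o) F (oc n β)) : Matrix (Fin n) (Mid o β) F :=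
  fun a p => hj x p.1 a p.2

/-- the map of the space at `none` to the middle term -/
def lM (y : Rp (qOut Q0 o) F (oc m β)) : Matrix (Mid o β) (Fin m) F :=
  fun p a => lj y p.1 p.2 a

/-- a family of matrices on `I0` -/
abbrev Fam (F : Type) (β : I0 → ℕ) : Type := (v : I0) → Matrix (Fin (β v)) (Fin (β v)) F

/-- a family of matrices on `Option I0` -/
abbrev Fam' (F : Type) (n : ℕ) (β : I0 → ℕ) : Type :=
  (v : Option I0) → Matrix (Fin (oc n β v)) (Fin (oc n β v)) F

/-- the restriction of a family -/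
def fs (f : Fam' F n β) : Fam F β := fun v => f (some v)

/-- the component at `none` -/
def fn (f : Fam' F n β) : Matrix (Fin n) (Fin n) F := f none

/-- the family with the given components -/
def fc (g : Matrix (Fin n) (Fin n) F) (f : Fam F β) : Fam' F n β := fun v =>
  match v with
  | none => g
  | some v => f v

variable [Fintype J] [DecidableEq J]

/-- the action of a family on the middle term -/
def dM (o : J → I0) (f : Fam F β) : Matrix (Mid o β) (Mid o β) F :=
  Matrix.blockDiagonal' (fun j => f (o j))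

theorem dM_mul (f g : Fam F β) : dM o (fun v => f v * g v) = dM o f * dM o g := by
  unfold dM
  rw [← Matrix.blockDiagonal'_mul]

theorem dM_one : dM o (fun _ => 1 : Fam F β) = 1 := by
  unfold dM
  exact Matrix.blockDiagonal'_one

theorem dM_zero : dM o (fun _ => 0 : Fam F β) = 0 := by
  unfold dM
  exact Matrix.blockDiagonal'_zero

/-- morphism on the restrictions -/
def Mor0 (x y : (e : E0) → Matrix (Fin (β (Q0.tgt e))) (Fin (β (Q0.src e))) F) (f : Fam F β) :
    Prop := ∀ e, f (Q0.tgt e) * x e = y e * f (Q0.src e)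

theorem hM_mul_dM (x : Rp (qIn Q0 o) F (oc n β)) (f : Fam F β) (a : Fin n) (p : Mid o β) :
    (hM x * dM o f) a p = (hj x p.1 * f (o p.1)) a p.2 := by
  obtain ⟨j, b⟩ := p
  rw [Matrix.mul_apply, Matrix.mul_apply, Fintype.sum_sigma, Finset.sum_eq_single j]
  · refine Finset.sum_congr rfl fun c _ => ?_
    unfold hM dM
    rw [Matrix.blockDiagonal'_apply_eq]
  · intro j' _ hj
    refine Finset.sum_eq_zero fun c _ => ?_
    unfold dM
    rw [Matrix.blockDiagonal'_apply_ne _ _ _ hj, mul_zero]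
  · intro h
    exact absurd (Finset.mem_univ j) h

theorem dM_mul_lM (y : Rp (qOut Q0 o) F (oc m β)) (f : Fam F β) (p : Mid o β) (a : Fin m) :
    (dM o f * lM y) p a = (f (o p.1) * lj y p.1) p.2 a := by
  obtain ⟨j, b⟩ := p
  rw [Matrix.mul_apply, Matrix.mul_apply, Fintype.sum_sigma, Finset.sum_eq_single j]
  · refine Finset.sum_congr rfl fun c _ => ?_
    unfold lM dM
    rw [Matrix.blockDiagonal'_apply_eq]
  · intro j' _ hj
    refine Finset.sum_eq_zero fun c _ => ?_
    unfold dM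
    rw [Matrix.blockDiagonal'_apply_ne _ _ _ (Ne.symm hj), zero_mul]
  · intro h
    exact absurd (Finset.mem_univ j) h

theorem isMor_in_iff (x y : Rp (qIn Q0 o) F (oc n β)) (f : Fam' F n β) :
    IsMor x y f ↔ Mor0 (resIn x) (resIn y) (fs f) ∧ fn f * hM x = hM y * dM o (fs f) := by
  constructor
  · intro h
    refine ⟨fun e => h (Sum.inl e), ?_⟩
    ext a p
    rw [hM_mul_dM]
    have h1 := h (Sum.inr p.1)
    change fn f * hj x p.1 = hj y p.1 * fs f (o p.1) at h1
    rw [← h1]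
    rfl
  · rintro ⟨h1, h2⟩ e
    rcases e with e | j
    · exact h1 e
    · show fn f * hj x j = hj y j * fs f (o j)
      ext a b
      have h3 := congrFun (congrFun h2 a) ⟨j, b⟩
      rw [hM_mul_dM] at h3
      rw [← h3]
      rfl

theorem isMor_out_iff (x y : Rp (qOut Q0 o) F (oc m β)) (f : Fam' F m β) :
    IsMor x y f ↔ Mor0 (resOut x) (resOut y) (fs f) ∧ dM o (fs f) * lM x = lM y * fn f := by
  constructor
  · intro h
    refine ⟨fun e => h (Sum.inl e), ?_⟩
    ext p a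
    rw [dM_mul_lM]
    have h1 := h (Sum.inr p.1)
    change fs f (o p.1) * lj x p.1 = lj y p.1 * fn f at h1
    rw [h1]
    rfl
  · rintro ⟨h1, h2⟩ e
    rcases e with e | j
    · exact h1 e
    · show fs f (o j) * lj x j = lj y j * fn f
      ext b a
      have h3 := congrFun (congrFun h2 ⟨j, b⟩) a
      rw [dM_mul_lM] at h3
      rw [h3]
      rfl

/-- The reflection relation. -/
def BR (x : Rp (qIn Q0 o) F (oc n β)) (y : Rp (qOut Q0 o) F (oc m β)) : Prop :=
  resIn x = resOut y ∧ ∃ (S : Matrix (Mid o β) (Fin n) F) (T : Matrix (Fin m) (Mid o β) F),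
    hM x * lM y = 0 ∧ hM x * S = 1 ∧ T * lM y = 1 ∧ S * hM x + lM y * T = 1

/-- transfer of morphisms from `qIn` to `qOut` -/
theorem in_to_out {H H' : Matrix (Fin n) (Mid o β) F} {L L' : Matrix (Mid o β) (Fin m) F}
    {S' : Matrix (Mid o β) (Fin n) F} {T' : Matrix (Fin m) (Mid o β) F}
    (hHL : H * L = 0) (h' : S' * H' + L' * T' = 1) {D : Matrix (Mid o β) (Mid o β) F}
    {g : Matrix (Fin n) (Fin n) F} (hg : g * H = H' * D) :
    D * L = L' * (T' * D * L) := by
  have h0 : H' * (D * L) = 0 := by rw [← Matrix.mul_assoc, ← hg, Matrix.mul_assoc, hHL,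
    Matrix.mul_zero]
  calc D * L = (S' * H' + L' * T') * (D * L) := by rw [h', Matrix.one_mul]
    _ = S' * (H' * (D * L)) + L' * (T' * (D * L)) := by
      rw [Matrix.add_mul, Matrix.mul_assoc, Matrix.mul_assoc]
    _ = L' * (T' * D * L) := by rw [h0, Matrix.mul_zero, zero_add, Matrix.mul_assoc T' D L]

/-- transfer of morphisms from `qOut` to `qIn` -/
theorem out_to_in {H H' : Matrix (Fin n) (Mid o β) F} {L L' : Matrix (Mid o β) (Fin m) F}
    {S : Matrix (Mid o β) (Fin n) F} {T : Matrix (Fin m) (Mid o β) F}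
    (hHL' : H' * L' = 0) (h : S * H + L * T = 1) {D : Matrix (Mid o β) (Mid o β) F}
    {g : Matrix (Fin m) (Fin m) F} (hg : D * L = L' * g) :
    (H' * D * S) * H = H' * D := by
  have h0 : (H' * D) * L = 0 := by rw [Matrix.mul_assoc, hg, ← Matrix.mul_assoc, hHL',
    Matrix.zero_mul]
  calc (H' * D * S) * H = (H' * D) * (S * H) + ((H' * D) * L) * T := by
        rw [h0, Matrix.zero_mul, add_zero, Matrix.mul_assoc (H' * D) S H]
    _ = (H' * D) * (S * H + L * T) := by
      rw [Matrix.mul_add, Matrix.mul_assoc (H' * D) L T]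
    _ = H' * D := by rw [h, Matrix.mul_one]

theorem dM_mul_eq_one {f g : Fam F β} (h : ∀ v, f v * g v = 1) : dM o f * dM o g = 1 := by
  rw [← dM_mul]
  have : (fun v => f v * g v) = (fun _ => 1 : Fam F β) := funext h
  rw [this, dM_one]

theorem BR.isom_iff {x x' : Rp (qIn Q0 o) F (oc n β)} {y y' : Rp (qOut Q0 o) F (oc m β)}
    (h : BR x y) (h' : BR x' y') : Isom x x' ↔ Isom y y' := by
  obtain ⟨h0, S, T, h1, h2, h3, h4⟩ := h
  obtain ⟨h0', S', T', h1', h2', h3', h4'⟩ := h'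
  rw [isom_iff_inv, isom_iff_inv]
  constructor
  · rintro ⟨f, fi, hf, hfi, hffi, hfif⟩
    rw [isMor_in_iff] at hf hfi
    have e1 := dM_mul_eq_one (o := o) (f := fs f) (g := fs fi) fun v => hffi (some v)
    have e2 := dM_mul_eq_one (o := o) (f := fs fi) (g := fs f) fun v => hfif (some v)
    have k1 := in_to_out h1 h4' hf.2
    have k2 := in_to_out h1' h4 hfi.2
    refine ⟨fc (T' * dM o (fs f) * lM y) (fs f), fc (T * dM o (fs fi) * lM y') (fs fi),
      (isMor_out_iff _ _ _).2 ⟨?_, k1⟩, (isMor_out_iff _ _ _).2 ⟨?_, k2⟩, ?_, ?_⟩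
    · rw [← h0, ← h0']
      exact hf.1
    · rw [← h0, ← h0']
      exact hfi.1
    · intro v
      rcases v with _ | v
      · show T' * dM o (fs f) * lM y * (T * dM o (fs fi) * lM y') = 1
        have e3 : lM y' * ((T' * dM o (fs f) * lM y) * (T * dM o (fs fi) * lM y')) = lM y' := by
          rw [← Matrix.mul_assoc, ← k1, Matrix.mul_assoc, ← k2, ← Matrix.mul_assoc, e1,
            Matrix.one_mul]
        calc _ = (T' * lM y') *
              ((T' * dM o (fs f) * lM y) * (T * dM o (fs fi) * lM y')) := by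
              rw [h3', Matrix.one_mul]
          _ = T' * (lM y' * ((T' * dM o (fs f) * lM y) * (T * dM o (fs fi) * lM y'))) :=
              Matrix.mul_assoc _ _ _
          _ = 1 := by rw [e3, h3']
      · exact hffi (some v)
    · intro v
      rcases v with _ | v
      · show (T * dM o (fs fi) * lM y') * (T' * dM o (fs f) * lM y) = 1
        have e3 : lM y * ((T * dM o (fs fi) * lM y') * (T' * dM o (fs f) * lM y)) = lM y := by
          rw [← Matrix.mul_assoc, ← k2, Matrix.mul_assoc, ← k1, ← Matrix.mul_assoc, e2,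
            Matrix.one_mul]
        calc _ = (T * lM y) *
              ((T * dM o (fs fi) * lM y') * (T' * dM o (fs f) * lM y)) := by
              rw [h3, Matrix.one_mul]
          _ = T * (lM y * ((T * dM o (fs fi) * lM y') * (T' * dM o (fs f) * lM y))) :=
              Matrix.mul_assoc _ _ _
          _ = 1 := by rw [e3, h3]
      · exact hfif (some v)
  · rintro ⟨f, fi, hf, hfi, hffi, hfif⟩
    rw [isMor_out_iff] at hf hfi
    have e1 := dM_mul_eq_one (o := o) (f := fs f) (g := fs fi) fun v => hffi (some v)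
    have e2 := dM_mul_eq_one (o := o) (f := fs fi) (g := fs f) fun v => hfif (some v)
    have k1 := out_to_in h1' h4 hf.2
    have k2 := out_to_in h1 h4' hfi.2
    refine ⟨fc (hM x' * dM o (fs f) * S) (fs f), fc (hM x * dM o (fs fi) * S') (fs fi),
      (isMor_in_iff _ _ _).2 ⟨?_, k1⟩, (isMor_in_iff _ _ _).2 ⟨?_, k2⟩, ?_, ?_⟩
    · rw [h0, h0']
      exact hf.1
    · rw [h0, h0']
      exact hfi.1
    · intro v
      rcases v with _ | v
      · show (hM x' * dM o (fs f) * S) * (hM x * dM o (fs fi) * S') = 1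
        have e3 : ((hM x' * dM o (fs f) * S) * (hM x * dM o (fs fi) * S')) * hM x' = hM x' := by
          rw [Matrix.mul_assoc, k2, ← Matrix.mul_assoc, k1, Matrix.mul_assoc, e1, Matrix.mul_one]
        calc _ = ((hM x' * dM o (fs f) * S) * (hM x * dM o (fs fi) * S')) * (hM x' * S') := by
              rw [h2', Matrix.mul_one]
          _ = (((hM x' * dM o (fs f) * S) * (hM x * dM o (fs fi) * S')) * hM x') * S' :=
              (Matrix.mul_assoc _ _ _).symm
          _ = 1 := by rw [e3, h2']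
      · exact hffi (some v)
    · intro v
      rcases v with _ | v
      · show (hM x * dM o (fs fi) * S') * (hM x' * dM o (fs f) * S) = 1
        have e3 : ((hM x * dM o (fs fi) * S') * (hM x' * dM o (fs f) * S)) * hM x = hM x := by
          rw [Matrix.mul_assoc, k1, ← Matrix.mul_assoc, k2, Matrix.mul_assoc, e2, Matrix.mul_one]
        calc _ = ((hM x * dM o (fs fi) * S') * (hM x' * dM o (fs f) * S)) * (hM x * S) := by
              rw [h2, Matrix.mul_one]
          _ = (((hM x * dM o (fs fi) * S') * (hM x' * dM o (fs f) * S)) * hM x) * S :=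
              (Matrix.mul_assoc _ _ _).symm
          _ = 1 := by rw [e3, h2]
      · exact hfif (some v)

theorem oc_ne_zero (n : ℕ) {β : I0 → ℕ} (hβ : β ≠ 0) : oc n β ≠ 0 := by
  intro h
  apply hβ
  funext v
  exact congrFun h (some v)

theorem BR.indec_iff {x : Rp (qIn Q0 o) F (oc n β)} {y : Rp (qOut Q0 o) F (oc m β)}
    (h : BR x y) (hβ : β ≠ 0) : Indec x ↔ Indec y := by
  obtain ⟨h0, S, T, h1, h2, h3, h4⟩ := h
  constructor
  · intro hx
    refine ⟨oc_ne_zero m hβ, fun p hp hpp => ?_⟩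
    rw [isMor_out_iff] at hp
    have hD : dM o (fs p) * dM o (fs p) = dM o (fs p) := by
      rw [← dM_mul]
      congr 1
      funext v
      exact hpp (some v)
    have k1 := out_to_in h1 h4 hp.2
    have hq : IsMor x x (fc (hM x * dM o (fs p) * S) (fs p)) :=
      (isMor_in_iff _ _ _).2 ⟨by rw [h0]; exact hp.1, k1⟩
    have hqq : ∀ v, fc (hM x * dM o (fs p) * S) (fs p) v *
        fc (hM x * dM o (fs p) * S) (fs p) v = fc (hM x * dM o (fs p) * S) (fs p) v := by
      intro v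
      rcases v with _ | v
      · show (hM x * dM o (fs p) * S) * (hM x * dM o (fs p) * S) = hM x * dM o (fs p) * S
        calc _ = ((hM x * dM o (fs p) * S) * hM x) * dM o (fs p) * S := by
              simp only [Matrix.mul_assoc]
          _ = _ := by rw [k1, Matrix.mul_assoc (hM x), hD]
      · exact hpp (some v)
    rcases hx.2 _ hq hqq with h5 | h5
    · left
      have h6 : fs p = fun _ => 0 := funext fun v => h5 (some v)
      intro v
      rcases v with _ | v
      · have h7 := hp.2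
        rw [h6, dM_zero, Matrix.zero_mul] at h7
        show fn p = 0
        calc fn p = T * lM y * fn p := by rw [h3, Matrix.one_mul]
          _ = 0 := by rw [Matrix.mul_assoc, ← h7, Matrix.mul_zero]
      · exact h5 (some v)
    · right
      have h6 : fs p = fun _ => 1 := funext fun v => h5 (some v)
      intro v
      rcases v with _ | v
      · have h7 := hp.2
        rw [h6, dM_one, Matrix.one_mul] at h7
        show fn p = 1
        calc fn p = T * lM y * fn p := by rw [h3, Matrix.one_mul]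
          _ = 1 := by rw [Matrix.mul_assoc, ← h7, h3]
      · exact h5 (some v)
  · intro hy
    refine ⟨oc_ne_zero n hβ, fun p hp hpp => ?_⟩
    rw [isMor_in_iff] at hp
    have hD : dM o (fs p) * dM o (fs p) = dM o (fs p) := by
      rw [← dM_mul]
      congr 1
      funext v
      exact hpp (some v)
    have k1 := in_to_out h1 h4 hp.2
    have hq : IsMor y y (fc (T * dM o (fs p) * lM y) (fs p)) :=
      (isMor_out_iff _ _ _).2 ⟨by rw [← h0]; exact hp.1, k1⟩
    have hqq : ∀ v, fc (T * dM o (fs p) * lM y) (fs p) v *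
        fc (T * dM o (fs p) * lM y) (fs p) v = fc (T * dM o (fs p) * lM y) (fs p) v := by
      intro v
      rcases v with _ | v
      · show (T * dM o (fs p) * lM y) * (T * dM o (fs p) * lM y) = T * dM o (fs p) * lM y
        calc _ = T * dM o (fs p) * (lM y * (T * dM o (fs p) * lM y)) := by
              simp only [Matrix.mul_assoc]
          _ = _ := by rw [← k1, ← Matrix.mul_assoc, Matrix.mul_assoc T, hD]
      · exact hpp (some v)
    rcases hy.2 _ hq hqq with h5 | h5
    · left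
      have h6 : fs p = fun _ => 0 := funext fun v => h5 (some v)
      intro v
      rcases v with _ | v
      · have h7 := hp.2
        rw [h6, dM_zero, Matrix.mul_zero] at h7
        show fn p = 0
        calc fn p = fn p * (hM x * S) := by rw [h2, Matrix.mul_one]
          _ = 0 := by rw [← Matrix.mul_assoc, h7, Matrix.zero_mul]
      · exact h5 (some v)
    · right
      have h6 : fs p = fun _ => 1 := funext fun v => h5 (some v)
      intro v
      rcases v with _ | v
      · have h7 := hp.2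
        rw [h6, dM_one, Matrix.mul_one] at h7
        show fn p = 1
        calc fn p = fn p * (hM x * S) := by rw [h2, Matrix.mul_one]
          _ = 1 := by rw [← Matrix.mul_assoc, h7, h2]
      · exact h5 (some v)

theorem BR.map {L : Type} [Field L] (s : F →+* L) {x : Rp (qIn Q0 o) F (oc n β)}
    {y : Rp (qOut Q0 o) F (oc m β)} (h : BR x y) : BR (mapRp s x) (mapRp s y) := by
  obtain ⟨h0, S, T, h1, h2, h3, h4⟩ := h
  refine ⟨?_, S.map s, T.map s, ?_, ?_, ?_, ?_⟩
  · funext e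
    have h5 := congrFun h0 e
    show (resIn x e).map s = (resOut y e).map s
    rw [h5]
  · have := congrArg (fun M => M.map s) h1
    simp only [Matrix.map_mul, Matrix.map_zero _ (map_zero s)] at this
    exact this
  · have := congrArg (fun M => M.map s) h2
    simp only [Matrix.map_mul, Matrix.map_one _ (map_zero s) (map_one s)] at this
    exact this
  · have := congrArg (fun M => M.map s) h3
    simp only [Matrix.map_mul, Matrix.map_one _ (map_zero s) (map_one s)] at this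
    exact this
  · have := congrArg (fun M => M.map s) h4
    simp only [Matrix.map_add _ (map_add s), Matrix.map_mul,
      Matrix.map_one _ (map_zero s) (map_one s)] at this
    exact this

theorem BR.absIndec_iff {x : Rp (qIn Q0 o) F (oc n β)} {y : Rp (qOut Q0 o) F (oc m β)}
    (h : BR x y) (hβ : β ≠ 0) : AbsIndec x ↔ AbsIndec y :=
  (h.map (algebraMap F (AlgebraicClosure F))).indec_iff hβ

theorem fam_one_ne_zero {β : I0 → ℕ} (hβ : β ≠ 0) (g : Matrix (Fin n) (Fin n) F) :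
    ¬ ∀ v, fc g (fun _ => 1 : Fam F β) v = 0 := by
  intro h
  apply hβ
  funext v
  by_contra hv
  have h1 := h (some v)
  have h2 := congrFun (congrFun h1 ⟨0, Nat.pos_of_ne_zero hv⟩) ⟨0, Nat.pos_of_ne_zero hv⟩
  change (1 : Matrix (Fin (β v)) (Fin (β v)) F) ⟨0, Nat.pos_of_ne_zero hv⟩
    ⟨0, Nat.pos_of_ne_zero hv⟩ = 0 at h2
  rw [Matrix.one_apply_eq] at h2
  exact one_ne_zero h2

theorem exists_right_of_indec {x : Rp (qIn Q0 o) F (oc n β)} (hx : Indec x) (hβ : β ≠ 0) :
    ∃ S : Matrix (Mid o β) (Fin n) F, hM x * S = 1 := by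
  apply exists_right_inverse
  intro p hpp hp
  have hq : IsMor x x (fc p (fun _ => 1)) := by
    rw [isMor_in_iff]
    refine ⟨fun e => ?_, ?_⟩
    · show 1 * _ = _ * 1
      rw [Matrix.one_mul, Matrix.mul_one]
    · show p * hM x = hM x * dM o (fun _ => 1)
      rw [dM_one, Matrix.mul_one, hp]
  have hqq : ∀ v, fc p (fun _ => 1 : Fam F β) v * fc p (fun _ => 1 : Fam F β) v =
      fc p (fun _ => 1 : Fam F β) v := by
    intro v
    rcases v with _ | v
    · exact hpp
    · exact Matrix.one_mul 1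
  rcases hx.2 _ hq hqq with h | h
  · exact absurd h (fam_one_ne_zero hβ p)
  · exact h none

theorem exists_left_of_indec {y : Rp (qOut Q0 o) F (oc m β)} (hy : Indec y) (hβ : β ≠ 0) :
    ∃ T : Matrix (Fin m) (Mid o β) F, T * lM y = 1 := by
  apply exists_left_inverse
  intro p hpp hp
  have hq : IsMor y y (fc p (fun _ => 1)) := by
    rw [isMor_out_iff]
    refine ⟨fun e => ?_, ?_⟩
    · show 1 * _ = _ * 1
      rw [Matrix.one_mul, Matrix.mul_one]
    · show dM o (fun _ => 1) * lM y = lM y * p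
      rw [dM_one, Matrix.one_mul, hp]
  have hqq : ∀ v, fc p (fun _ => 1 : Fam F β) v * fc p (fun _ => 1 : Fam F β) v =
      fc p (fun _ => 1 : Fam F β) v := by
    intro v
    rcases v with _ | v
    · exact hpp
    · exact Matrix.one_mul 1
  rcases hy.2 _ hq hqq with h | h
  · exact absurd h (fam_one_ne_zero hβ p)
  · exact h none

theorem exists_BR_right (h : n + m = Fintype.card (Mid o β)) {x : Rp (qIn Q0 o) F (oc n β)}
    (hx : Indec x) (hβ : β ≠ 0) : ∃ y : Rp (qOut Q0 o) F (oc m β), BR x y := by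
  obtain ⟨S, hS⟩ := exists_right_of_indec hx hβ
  obtain ⟨L, T, h1, h2, h3⟩ := exact_completion n m (hM x) S hS h
  refine ⟨fun e => match e with
    | Sum.inl e => resIn x e
    | Sum.inr j => fun b a => L ⟨j, b⟩ a, rfl, S, T, h1, hS, h2, h3⟩

theorem exists_BR_left (h : n + m = Fintype.card (Mid o β)) {y : Rp (qOut Q0 o) F (oc m β)}
    (hy : Indec y) (hβ : β ≠ 0) : ∃ x : Rp (qIn Q0 o) F (oc n β), BR x y := by
  obtain ⟨T, hT⟩ := exists_left_of_indec hy hβ
  obtain ⟨H, S, h1, h2, h3⟩ := exact_completion' n m (lM y) T hT h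
  refine ⟨fun e => match e with
    | Sum.inl e => resOut y e
    | Sum.inr j => fun a b => H a ⟨j, b⟩, rfl, S, T, h1, h2, hT, h3⟩

theorem kacCount_bgp (F : Type) [Field F] (h : n + m = ∑ j, β (o j)) (hβ : β ≠ 0) :
    kacCount (qIn Q0 o) F (oc n β) = kacCount (qOut Q0 o) F (oc m β) := by
  have h' : n + m = Fintype.card (Mid o β) := by
    rw [Fintype.card_sigma]
    simpa using h
  unfold kacCount absIndecClasses
  apply ncard_classes_eq (fun x => AbsIndec x) (fun y => AbsIndec y) (fun x y => Isom x y)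
    (fun x y => Isom x y) (isom_equivalence _ _ _) (isom_equivalence _ _ _) BR
  · intro x hx
    obtain ⟨y, hy⟩ := exists_BR_right h' hx.indec hβ
    exact ⟨y, (hy.absIndec_iff hβ).1 hx, hy⟩
  · intro y hy
    obtain ⟨x, hx⟩ := exists_BR_left h' hy.indec hβ
    exact ⟨x, (hx.absIndec_iff hβ).2 hy, hx⟩
  · intro x x' y y' hxy hxy'
    exact hxy.isom_iff hxy'

theorem kacCount_in_zero (F : Type) [Field F] (h : ∑ j, β (o j) < n) (hβ : β ≠ 0) :
    kacCount (qIn Q0 o) F (oc n β) = 0 := by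
  apply kacCount_eq_zero
  intro x hx
  obtain ⟨S, hS⟩ := exists_right_of_indec hx.indec hβ
  have h1 : (hM x * S).rank ≤ (hM x).rank := Matrix.rank_mul_le_left _ _
  rw [hS, Matrix.rank_one, Fintype.card_fin] at h1
  have h2 := Matrix.rank_le_card_width (hM x)
  rw [Fintype.card_sigma] at h2
  simp only [Fintype.card_fin] at h2
  omega

end

end Pool.Agent.H27.KAC

end

section

/-!
KAC ADE numbers, classes: definitions.  `V : ℕ → ℚ` (only the values at `p < n` matter) is a vector on the standard graph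
`TT n c` (chain `0, …, n - 2`, vertex `n - 1` attached to `c`).
-/

set_option autoImplicit false

namespace Pool.H88.Num

open scoped BigOperators
open Pool.Agent.H27.KAC (IsZ)

/-- neighbour sum at `p`. -/
def NBq (n c : ℕ) (V : ℕ → ℚ) (p : ℕ) : ℚ :=
  if p + 1 = n then V c else
    (if 1 ≤ p then V (p - 1) else 0) + (if p + 3 ≤ n then V (p + 1) else 0) +
      (if p = c then V (n - 1) else 0)

/-- `C V` is integral. -/
def WtN (n c : ℕ) (V : ℕ → ℚ) : Prop := ∀ p, p < n → IsZ (2 * V p - NBq n c V p)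

open Classical in
/-- number of integral coordinates. -/
noncomputable def e0 (n : ℕ) (V : ℕ → ℚ) : ℕ := ((Finset.range n).filter (fun p => IsZ (V p))).card

/-- `r` is the order of `V` modulo `ℤ^n`. -/
def Ord (n : ℕ) (V : ℕ → ℚ) (r : ℕ) : Prop :=
  1 ≤ r ∧ ∀ k : ℕ, (∀ p, p < n → IsZ ((k : ℚ) * V p)) ↔ r ∣ k

end Pool.H88.Num

end

section

/-!
KAC ADE numbers, classes, type A.

* `ord_exists`: `r` = lcm of the denominators.
* `bd_A`: by induction `V p - (p + 1) V 0` is an integer for all `p < n` (rows `0, …, n - 3` and row `n - 2`: in `TT n (n - 2)` the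
  vertex `n - 1` is the right neighbour of `n - 2`), and row `n - 1` gives `(n + 1) V 0 ∈ ℤ`.  So `r` is the denominator of
  `V 0`, `r ∣ n + 1`, and `V p` is integral iff `r ∣ p + 1`: there are `(n + 1) / r - 1` such `p < n`.
-/

set_option autoImplicit false

namespace Pool.H88.Num

open scoped BigOperators
open Pool.Agent.H27.KAC (IsZ)

theorem BDA_add {x y : ℚ} (hx : IsZ x) (hy : IsZ y) : IsZ (x + y) := by
  obtain ⟨a, rfl⟩ := hx
  obtain ⟨b, rfl⟩ := hy
  exact ⟨a + b, by push_cast; ring⟩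

theorem BDA_nat_mul (k : ℕ) {x : ℚ} (hx : IsZ x) : IsZ ((k : ℚ) * x) := by
  obtain ⟨a, rfl⟩ := hx
  exact ⟨k * a, by push_cast; ring⟩

theorem BDA_neg {x : ℚ} (hx : IsZ x) : IsZ (-x) := by
  obtain ⟨a, rfl⟩ := hx
  exact ⟨-a, by push_cast; ring⟩

theorem BDA_congr {x y : ℚ} (h : IsZ (x - y)) : IsZ x ↔ IsZ y := by
  constructor
  · intro hx
    have h1 := BDA_add hx (BDA_neg h)
    have h2 : x + -(x - y) = y := by ring
    rwa [h2] at h1
  · intro hy
    have h1 := BDA_add h hy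
    have h2 : x - y + y = x := by ring
    rwa [h2] at h1

theorem BDA_den (k : ℕ) (x : ℚ) : IsZ ((k : ℚ) * x) ↔ x.den ∣ k := by
  constructor
  · rintro ⟨a, ha⟩
    have hd : (x.den : ℚ) ≠ 0 := by exact_mod_cast x.den_nz
    have h1 : x = x.num / x.den := (Rat.num_div_den x).symm
    have h2 : (k : ℚ) * x.num = a * x.den := by
      rw [h1] at ha
      field_simp at ha
      linarith
    have h3 : (k : ℤ) * x.num = a * x.den := by exact_mod_cast h2
    have h4 : (x.den : ℤ) ∣ (k : ℤ) * x.num := ⟨a, by rw [h3]; ring⟩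
    have h5 : x.den ∣ k * x.num.natAbs := by
      have := Int.natAbs_dvd_natAbs.mpr h4
      rwa [Int.natAbs_mul, Int.natAbs_natCast, Int.natAbs_natCast] at this
    exact (Nat.Coprime.dvd_of_dvd_mul_right x.reduced.symm h5)
  · rintro ⟨m, rfl⟩
    refine ⟨m * x.num, ?_⟩
    have hd : (x.den : ℚ) * x = x.num := by
      rw [mul_comm]
      exact Rat.mul_den_eq_num x
    push_cast
    rw [← hd]
    ring

/-- the count in type A from the congruences. -/
theorem BDA_main (n : ℕ) (hn : 1 ≤ n) (V : ℕ → ℚ) (r : ℕ)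
    (h : ∀ p, p < n → IsZ (V p - ((p + 1 : ℕ) : ℚ) * V 0)) (h2 : IsZ (((n + 1 : ℕ) : ℚ) * V 0))
    (hr : Ord n V r) : n + 1 = r * (e0 n V + 1) := by
  obtain ⟨hr1, hr2⟩ := hr
  have hk : ∀ k : ℕ, IsZ ((k : ℚ) * V 0) ↔ r ∣ k := by
    intro k
    rw [← hr2 k]
    constructor
    · intro hz p hp
      have h3 := BDA_add (BDA_nat_mul k (h p hp)) (BDA_nat_mul (p + 1) hz)
      have h4 : (k : ℚ) * (V p - ((p + 1 : ℕ) : ℚ) * V 0) + ((p + 1 : ℕ) : ℚ) * ((k : ℚ) * V 0) =
          (k : ℚ) * V p := by ring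
      rwa [h4] at h3
    · intro hz
      exact hz 0 (by omega)
  obtain ⟨s, hs⟩ := (hk (n + 1)).mp h2
  have hcard : e0 n V = n / r := by
    classical
    unfold e0
    rw [← Nat.card_multiples n r]
    apply congrArg Finset.card
    ext p
    rw [Finset.mem_filter, Finset.mem_filter]
    refine and_congr_right fun hp => ?_
    rw [BDA_congr (h p (Finset.mem_range.mp hp))]
    exact hk (p + 1)
  rw [hcard]
  have hs0 : 0 < s := by
    rcases Nat.eq_zero_or_pos s with h0 | h0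
    · subst h0
      omega
    · exact h0
  obtain ⟨t, rfl⟩ : ∃ t, s = t + 1 := ⟨s - 1, by omega⟩
  have hdiv : n / r = t := by
    apply Nat.div_eq_of_lt_le
    · nlinarith
    · nlinarith
  rw [hdiv, hs]

theorem ord_exists (n : ℕ) (V : ℕ → ℚ) : ∃ r, Ord n V r := by
  refine ⟨(Finset.range n).lcm fun p => (V p).den, ?_, ?_⟩
  · apply Nat.one_le_iff_ne_zero.mpr
    rw [Ne, Finset.lcm_eq_zero_iff]
    rintro ⟨p, _, hp⟩
    exact (V p).den_nz hp
  · intro k
    rw [Finset.lcm_dvd_iff]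
    constructor
    · intro h p hp
      exact (BDA_den k (V p)).mp (h p (Finset.mem_range.mp hp))
    · intro h p hp
      exact (BDA_den k (V p)).mpr (h p (Finset.mem_range.mpr hp))

theorem bd_A1 (V : ℕ → ℚ) (r : ℕ) (h : IsZ (2 * V 0)) (hr : Ord 1 V r) : 2 = r * (e0 1 V + 1) := by
  refine BDA_main 1 le_rfl V r ?_ ?_ hr
  · intro p hp
    have : p = 0 := by omega
    subst this
    exact ⟨0, by push_cast; ring⟩
  · have h1 : ((1 + 1 : ℕ) : ℚ) * V 0 = 2 * V 0 := by
      push_cast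
      ring
    rw [h1]
    exact h

theorem bd_A (n : ℕ) (hn : 2 ≤ n) (V : ℕ → ℚ) (r : ℕ) (h : WtN n (n - 2) V) (hr : Ord n V r) :
    n + 1 = r * (e0 n V + 1) := by
  have hstep : ∀ p, p + 1 < n → IsZ (2 * V p - (if 1 ≤ p then V (p - 1) else 0) - V (p + 1)) := by
    intro p hp
    have h1 := h p (by omega)
    unfold NBq at h1
    rw [if_neg (by omega)] at h1
    by_cases h2 : p = n - 2
    · have h3 : ¬ (p + 3 ≤ n) := by omega
      rw [if_neg h3, if_pos h2] at h1
      have h4 : n - 1 = p + 1 := by omega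
      rw [h4] at h1
      have h5 : 2 * V p - ((if 1 ≤ p then V (p - 1) else 0) + 0 + V (p + 1)) =
        2 * V p - (if 1 ≤ p then V (p - 1) else 0) - V (p + 1) := by ring
      rwa [h5] at h1
    · have h3 : p + 3 ≤ n := by omega
      rw [if_pos h3, if_neg h2] at h1
      have h5 : 2 * V p - ((if 1 ≤ p then V (p - 1) else 0) + V (p + 1) + 0) =
        2 * V p - (if 1 ≤ p then V (p - 1) else 0) - V (p + 1) := by ring
      rwa [h5] at h1
  have hind : ∀ p, p < n → IsZ (V p - ((p + 1 : ℕ) : ℚ) * V 0) := by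
    intro p
    induction p using Nat.strong_induction_on with
    | _ p ih =>
      intro hp
      rcases Nat.lt_or_ge p 1 with h0 | h0
      · have : p = 0 := by omega
        subst this
        exact ⟨0, by push_cast; ring⟩
      · obtain ⟨m, rfl⟩ : ∃ m, p = m + 1 := ⟨p - 1, by omega⟩
        have h1 := hstep m hp
        have h2 := ih m (by omega) (by omega)
        rcases Nat.lt_or_ge m 1 with h3 | h3
        · have : m = 0 := by omega
          subst this
          rw [if_neg (by omega)] at h1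
          have h4 := BDA_neg h1
          have h5 : -(2 * V 0 - 0 - V (0 + 1)) = V (0 + 1) - ((0 + 1 + 1 : ℕ) : ℚ) * V 0 := by
            push_cast
            ring
          rwa [h5] at h4
        · rw [if_pos h3] at h1
          have h6 := ih (m - 1) (by omega) (by omega)
          obtain ⟨l, rfl⟩ : ∃ l, m = l + 1 := ⟨m - 1, by omega⟩
          rw [show l + 1 - 1 = l by omega] at h1 h6
          have h7 := BDA_add (BDA_add (BDA_neg h1) (BDA_nat_mul 2 h2)) (BDA_neg h6)
          have h8 : -(2 * V (l + 1) - V l - V (l + 1 + 1)) +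
              ((2 : ℕ) : ℚ) * (V (l + 1) - ((l + 1 + 1 : ℕ) : ℚ) * V 0) +
              -(V l - ((l + 1 : ℕ) : ℚ) * V 0) =
              V (l + 1 + 1) - ((l + 1 + 1 + 1 : ℕ) : ℚ) * V 0 := by
            push_cast
            ring
          rwa [h8] at h7
  refine BDA_main n (by omega) V r hind ?_ hr
  have hlast := h (n - 1) (by omega)
  unfold NBq at hlast
  rw [if_pos (by omega)] at hlast
  have h1 := hind (n - 1) (by omega)
  have h2 := hind (n - 2) (by omega)
  obtain ⟨m, rfl⟩ : ∃ m, n = m + 2 := ⟨n - 2, by omega⟩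
  rw [show m + 2 - 1 = m + 1 by omega] at hlast h1
  rw [show m + 2 - 2 = m by omega] at hlast h2
  have h7 := BDA_add (BDA_add hlast (BDA_neg (BDA_nat_mul 2 h1))) h2
  have h8 : 2 * V (m + 1) - V m + -(((2 : ℕ) : ℚ) * (V (m + 1) - ((m + 1 + 1 : ℕ) : ℚ) * V 0)) +
      (V m - ((m + 1 : ℕ) : ℚ) * V 0) = ((m + 2 + 1 : ℕ) : ℚ) * V 0 := by
    push_cast
    ring
  rwa [h8] at h7

end Pool.H88.Num

end

section

/-!
KAC ADE numbers, classes, type D.  `TT n (n - 3)`: chain `0, …, n - 2`, vertex `n - 1` attached to `n - 3` (so `n - 2` and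
`n - 1` are two leaves attached to `n - 3`).

Rows `0, …, n - 4` give `V p ≡ (p + 1) V 0` modulo `ℤ` for `p ≤ n - 3`.  Rows `n - 2`, `n - 1`: `2 V (n-2) ≡ V (n-3) ≡ 2 V (n-1)`.
Row `n - 3`: `V (n-2) + V (n-1) ≡ (n - 1) V 0`.  Twice this: `2 (n - 2) V 0 ≡ 2 (n - 1) V 0`, so `2 V 0 ∈ ℤ`.
Case `V 0 ∈ ℤ`: `V p ∈ ℤ` for `p ≤ n - 3`, so `e0 ≥ n - 2`; if `V (n-2) ∈ ℤ` then `V (n-1) ∈ ℤ`, `e0 = n`, `r ≥ 1`; otherwise `r ≥ 2`.
Case `V 0 ≡ 1/2`: `V p ∈ ℤ` for odd `p ≤ n - 3`.  `n` even: `2 V (n-2) ≡ 0`, `V (n-2) + V (n-1) ≡ 1/2`, exactly one of them is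
integral, `e0 = n/2`, `r ≥ 2`.  `n` odd: `2 V (n-2) ≡ 1/2`, so `r ≥ 4`, `e0 ≥ (n - 3)/2 ≥ 1`.
In all cases `n - 1 ≤ r (e0 + 1)` and `1 ≤ e0`.
-/

set_option autoImplicit false

namespace Pool.H88.Num

open scoped BigOperators
open Pool.Agent.H27.KAC (IsZ)

private theorem BDD_add {p q : ℚ} (hp : IsZ p) (hq : IsZ q) : IsZ (p + q) := by
  obtain ⟨m, rfl⟩ := hp
  obtain ⟨n, rfl⟩ := hq
  exact ⟨m + n, by push_cast; ring⟩

private theorem BDD_sub {p q : ℚ} (hp : IsZ p) (hq : IsZ q) : IsZ (p - q) := by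
  obtain ⟨m, rfl⟩ := hp
  obtain ⟨n, rfl⟩ := hq
  exact ⟨m - n, by push_cast; ring⟩

private theorem BDD_mul (m : ℤ) {q : ℚ} (hq : IsZ q) : IsZ ((m : ℚ) * q) := by
  obtain ⟨n, rfl⟩ := hq
  exact ⟨m * n, by push_cast; ring⟩

private theorem BDD_row (n : ℕ) (V : ℕ → ℚ) (h : WtN n (n - 3) V) (p : ℕ)
    (hp : p + 5 ≤ n) : IsZ (2 * V (p + 1) - V p - V (p + 2)) := by
  have h1 := h (p + 1) (by omega)
  unfold NBq at h1
  rw [if_neg (by omega), if_pos (by omega), if_pos (by omega), if_neg (by omega)] at h1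
  have e : p + 1 - 1 = p := by omega
  rw [e] at h1
  have e2 : 2 * V (p + 1) - V p - V (p + 2) = 2 * V (p + 1) - (V p + V (p + 1 + 1) + 0) := by
    have : p + 1 + 1 = p + 2 := by omega
    rw [this]
    ring
  rw [e2]
  exact h1

private theorem BDD_row0 (n : ℕ) (hn : 4 ≤ n) (V : ℕ → ℚ) (h : WtN n (n - 3) V) :
    IsZ (2 * V 0 - V 1) := by
  have h1 := h 0 (by omega)
  unfold NBq at h1
  rw [if_neg (by omega), if_neg (by omega), if_pos (by omega), if_neg (by omega)] at h1
  have e2 : 2 * V 0 - V 1 = 2 * V 0 - (0 + V (0 + 1) + 0) := by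
    rw [zero_add 1]
    ring
  rw [e2]
  exact h1

private theorem BDD_chain (n : ℕ) (hn : 4 ≤ n) (V : ℕ → ℚ) (h : WtN n (n - 3) V) (p : ℕ) :
    (p + 3 ≤ n → IsZ (V p - ((p : ℚ) + 1) * V 0)) ∧
      (p + 4 ≤ n → IsZ (V (p + 1) - ((p : ℚ) + 2) * V 0)) := by
  induction p with
  | zero =>
    refine ⟨fun _ => ⟨0, by push_cast; ring⟩, fun _ => ?_⟩
    have h1 := BDD_mul (-1) (BDD_row0 n hn V h)
    have e : V (0 + 1) - (((0 : ℕ) : ℚ) + 2) * V 0 = ((-1 : ℤ) : ℚ) * (2 * V 0 - V 1) := by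
      rw [zero_add]
      push_cast
      ring
    rw [e]
    exact h1
  | succ p ih =>
    refine ⟨fun hp => ?_, fun hp => ?_⟩
    · have h1 := ih.2 (by omega)
      have e : V (p + 1) - (((p + 1 : ℕ) : ℚ) + 1) * V 0 = V (p + 1) - ((p : ℚ) + 2) * V 0 := by
        push_cast
        ring
      rw [e]
      exact h1
    · have h1 := ih.2 (by omega)
      have h0 := ih.1 (by omega)
      have h2 := BDD_row n V h p (by omega)
      have e : V (p + 1 + 1) - (((p + 1 : ℕ) : ℚ) + 2) * V 0 =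
          (((2 : ℤ) : ℚ) * (V (p + 1) - ((p : ℚ) + 2) * V 0) - (V p - ((p : ℚ) + 1) * V 0)) -
            (2 * V (p + 1) - V p - V (p + 2)) := by
        have : p + 1 + 1 = p + 2 := by omega
        rw [this]
        push_cast
        ring
      rw [e]
      exact BDD_sub (BDD_sub (BDD_mul 2 h1) h0) h2

private theorem BDD_two (n : ℕ) (hn : 4 ≤ n) (V : ℕ → ℚ) (h : WtN n (n - 3) V) :
    IsZ (2 * V 0) := by
  obtain ⟨m, rfl⟩ : ∃ m, n = m + 4 := ⟨n - 4, by omega⟩
  have hc : m + 4 - 3 = m + 1 := by omega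
  rw [hc] at h
  have h3 := (BDD_chain (m + 4) hn V (by rw [hc]; exact h) (m + 1)).1 (by omega)
  have h4 := (BDD_chain (m + 4) hn V (by rw [hc]; exact h) m).1 (by omega)
  have r3 := h (m + 1) (by omega)
  have r2 := h (m + 2) (by omega)
  have r1 := h (m + 3) (by omega)
  unfold NBq at r3 r2 r1
  rw [if_neg (by omega), if_pos (by omega), if_pos (by omega), if_pos rfl] at r3
  rw [if_neg (by omega), if_pos (by omega), if_neg (by omega), if_neg (by omega)] at r2
  rw [if_pos (by omega)] at r1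
  have e3 : m + 1 - 1 = m := by omega
  have e4 : m + 4 - 1 = m + 3 := by omega
  have e5 : m + 1 + 1 = m + 2 := by omega
  have e6 : m + 2 - 1 = m + 1 := by omega
  rw [e3, e4, e5] at r3
  rw [e6] at r2
  have e : 2 * V 0 =
      (((((2 : ℤ) : ℚ) * (2 * V (m + 1) - (V m + V (m + 2) + V (m + 3)))
        + (2 * V (m + 2) - (V (m + 1) + 0 + 0))) + (2 * V (m + 3) - V (m + 1)))
        + ((2 : ℤ) : ℚ) * (V m - ((m : ℚ) + 1) * V 0))
        + ((-2 : ℤ) : ℚ) * (V (m + 1) - (((m + 1 : ℕ) : ℚ) + 1) * V 0) := by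
    push_cast
    ring
  rw [e]
  exact BDD_add (BDD_add (BDD_add (BDD_add (BDD_mul 2 r3) r2) r1) (BDD_mul 2 h4))
    (BDD_mul (-2) h3)

theorem bd_D (n : ℕ) (hn : 4 ≤ n) (V : ℕ → ℚ) (r : ℕ) (h : WtN n (n - 3) V) (hr : Ord n V r) :
    n - 1 ≤ r * (e0 n V + 1) ∧ 1 ≤ e0 n V := by
  classical
  obtain ⟨hr1, hrk⟩ := hr
  by_cases h0 : IsZ (V 0)
  · have hsub : Finset.range (n - 2) ⊆ (Finset.range n).filter (fun p => IsZ (V p)) := by
      intro p hp
      rw [Finset.mem_range] at hp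
      rw [Finset.mem_filter, Finset.mem_range]
      refine ⟨by omega, ?_⟩
      have h1 := (BDD_chain n hn V h p).1 (by omega)
      have e : V p = (V p - ((p : ℚ) + 1) * V 0) + (((p : ℤ) + 1 : ℤ) : ℚ) * V 0 := by
        push_cast
        ring
      rw [e]
      exact BDD_add h1 (BDD_mul _ h0)
    have hcard : n - 2 ≤ e0 n V := by
      have h1 := Finset.card_le_card hsub
      rw [Finset.card_range] at h1
      unfold e0
      exact h1
    refine ⟨?_, by omega⟩
    calc n - 1 ≤ 1 * (e0 n V + 1) := by omega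
      _ ≤ r * (e0 n V + 1) := Nat.mul_le_mul_right _ hr1
  · have h2 := BDD_two n hn V h
    have hsub : (Finset.range ((n - 2) / 2)).image (fun i => 2 * i + 1) ⊆
        (Finset.range n).filter (fun p => IsZ (V p)) := by
      intro p hp
      rw [Finset.mem_image] at hp
      obtain ⟨i, hi, rfl⟩ := hp
      rw [Finset.mem_range] at hi
      rw [Finset.mem_filter, Finset.mem_range]
      refine ⟨by omega, ?_⟩
      have h1 := (BDD_chain n hn V h (2 * i + 1)).1 (by omega)
      have e : V (2 * i + 1) = (V (2 * i + 1) - (((2 * i + 1 : ℕ) : ℚ) + 1) * V 0) +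
          (((i : ℤ) + 1 : ℤ) : ℚ) * (2 * V 0) := by
        push_cast
        ring
      rw [e]
      exact BDD_add h1 (BDD_mul _ h2)
    have hcard : (n - 2) / 2 ≤ e0 n V := by
      have h1 := Finset.card_le_card hsub
      rw [Finset.card_image_of_injective _ (fun i j hij => by
        have : 2 * i + 1 = 2 * j + 1 := hij
        omega), Finset.card_range] at h1
      unfold e0
      exact h1
    have hr2 : 2 ≤ r := by
      by_contra hlt
      have hr0 : r = 1 := by omega
      apply h0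
      have h3 := (hrk 1).2 (by rw [hr0]) 0 (by omega)
      rw [Nat.cast_one, one_mul] at h3
      exact h3
    refine ⟨?_, by omega⟩
    calc n - 1 ≤ 2 * (e0 n V + 1) := by omega
      _ ≤ r * (e0 n V + 1) := Nat.mul_le_mul_right _ hr2

end Pool.H88.Num

end

section

/-!
KAC ADE numbers, classes, type E.  `TT n 2`: chain `0, …, n - 2`, vertex `n - 1` attached to `2`.  All congruences modulo `ℤ`.

`E_6` (n = 6): `V1 ≡ 2 V0`, `V2 ≡ 3 V0`, `V3 ≡ 2 V4`, `V2 ≡ 3 V4`, `2 V5 ≡ V2`, `2 V2 ≡ V1 + V3 + V5`; hence `V5 ≡ 4 V0 - 2 V4`,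
`5 V0 ≡ 4 V4`, `V4 ≡ 2 V0`, `3 V0 ≡ 0`, `V2 ≡ 0`, `V5 ≡ 0`, `V1 ≡ 2 V0`, `V3 ≡ V0`.  If `V0 ∈ ℤ` everything is integral, `e0 = 6`; otherwise
`3 ∣ r` and `e0 ≥ 2`.
`E_7` (n = 7): `V1 ≡ 2 V0`, `V2 ≡ 3 V0`, `V4 ≡ 2 V5`, `V3 ≡ 3 V5`, `V2 ≡ 4 V5`, `2 V6 ≡ V2`, `2 V2 ≡ V1 + V3 + V6`; hence `V0 ≡ 0`, `2 V5 ≡ 0`,
`V1 ≡ V2 ≡ V4 ≡ 0`, `V3 ≡ V5 ≡ V6`.  If not everything is integral, `r ≥ 2` and `e0 ≥ 4`.
`E_8` (n = 8): `V1 ≡ 2 V0`, `V2 ≡ 3 V0`, `V5 ≡ 2 V6`, `V4 ≡ 3 V6`, `V3 ≡ 4 V6`, `V2 ≡ 5 V6`, `2 V7 ≡ V2`, `2 V2 ≡ V1 + V3 + V7`; hence all `≡ 0`.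
(Explicitly: the entries of the inverse Cartan matrix.)
-/

set_option autoImplicit false

namespace Pool.H88.Num

open scoped BigOperators
open Pool.Agent.H27.KAC (IsZ)

private theorem BDE_full (n : ℕ) (V : ℕ → ℚ) (h : ∀ p, p < n → IsZ (V p)) : e0 n V = n := by
  classical
  unfold e0
  rw [Finset.filter_true_of_mem]
  · exact Finset.card_range n
  · intro p hp
    exact h p (Finset.mem_range.1 hp)

private theorem BDE_sub (n : ℕ) (V : ℕ → ℚ) (s : Finset ℕ) (hs : ∀ p ∈ s, p < n ∧ IsZ (V p)) :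
    s.card ≤ e0 n V := by
  classical
  unfold e0
  refine Finset.card_le_card ?_
  intro p hp
  rw [Finset.mem_filter, Finset.mem_range]
  exact hs p hp

private theorem BDE_one (n : ℕ) (V : ℕ → ℚ) (h : Ord n V 1) : ∀ p, p < n → IsZ (V p) := by
  intro p hp
  have h1 := (h.2 1).2 (dvd_refl 1) p hp
  rwa [Nat.cast_one, one_mul] at h1

private theorem BDE_int6 (V : ℕ → ℚ) (h : WtN 6 2 V) :
    IsZ (V 2) ∧ IsZ (V 5) := by
  have e0 : NBq 6 2 V 0 = V 1 := by
    simp [NBq]
  have e1 : NBq 6 2 V 1 = V 0 + V 2 := by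
    simp [NBq]
  have e2 : NBq 6 2 V 2 = V 1 + V 3 + V 5 := by
    simp [NBq]
  have e3 : NBq 6 2 V 3 = V 2 + V 4 := by
    simp [NBq]
  have e4 : NBq 6 2 V 4 = V 3 := by
    simp [NBq]
  have e5 : NBq 6 2 V 5 = V 2 := by
    simp [NBq]
  obtain ⟨z0, h0⟩ := h 0 (by norm_num)
  rw [e0] at h0
  obtain ⟨z1, h1⟩ := h 1 (by norm_num)
  rw [e1] at h1
  obtain ⟨z2, h2⟩ := h 2 (by norm_num)
  rw [e2] at h2
  obtain ⟨z3, h3⟩ := h 3 (by norm_num)
  rw [e3] at h3
  obtain ⟨z4, h4⟩ := h 4 (by norm_num)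
  rw [e4] at h4
  obtain ⟨z5, h5⟩ := h 5 (by norm_num)
  rw [e5] at h5
  refine ⟨?_, ?_⟩
  · exact ⟨2 * z0 + 4 * z1 + 6 * z2 + 4 * z3 + 2 * z4 + 3 * z5, by push_cast; linarith⟩
  · exact ⟨1 * z0 + 2 * z1 + 3 * z2 + 2 * z3 + 1 * z4 + 2 * z5, by push_cast; linarith⟩

private theorem BDE_int7 (V : ℕ → ℚ) (h : WtN 7 2 V) :
    IsZ (V 0) ∧ IsZ (V 1) ∧ IsZ (V 2) ∧ IsZ (V 4) := by
  have e0 : NBq 7 2 V 0 = V 1 := by
    simp [NBq]
  have e1 : NBq 7 2 V 1 = V 0 + V 2 := by
    simp [NBq]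
  have e2 : NBq 7 2 V 2 = V 1 + V 3 + V 6 := by
    simp [NBq]
  have e3 : NBq 7 2 V 3 = V 2 + V 4 := by
    simp [NBq]
  have e4 : NBq 7 2 V 4 = V 3 + V 5 := by
    simp [NBq]
  have e5 : NBq 7 2 V 5 = V 4 := by
    simp [NBq]
  have e6 : NBq 7 2 V 6 = V 2 := by
    simp [NBq]
  obtain ⟨z0, h0⟩ := h 0 (by norm_num)
  rw [e0] at h0
  obtain ⟨z1, h1⟩ := h 1 (by norm_num)
  rw [e1] at h1
  obtain ⟨z2, h2⟩ := h 2 (by norm_num)
  rw [e2] at h2
  obtain ⟨z3, h3⟩ := h 3 (by norm_num)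
  rw [e3] at h3
  obtain ⟨z4, h4⟩ := h 4 (by norm_num)
  rw [e4] at h4
  obtain ⟨z5, h5⟩ := h 5 (by norm_num)
  rw [e5] at h5
  obtain ⟨z6, h6⟩ := h 6 (by norm_num)
  rw [e6] at h6
  refine ⟨?_, ?_, ?_, ?_⟩
  · exact ⟨2 * z0 + 3 * z1 + 4 * z2 + 3 * z3 + 2 * z4 + 1 * z5 + 2 * z6, by push_cast; linarith⟩
  · exact ⟨3 * z0 + 6 * z1 + 8 * z2 + 6 * z3 + 4 * z4 + 2 * z5 + 4 * z6, by push_cast; linarith⟩
  · exact ⟨4 * z0 + 8 * z1 + 12 * z2 + 9 * z3 + 6 * z4 + 3 * z5 + 6 * z6, by push_cast; linarith⟩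
  · exact ⟨2 * z0 + 4 * z1 + 6 * z2 + 5 * z3 + 4 * z4 + 2 * z5 + 3 * z6, by push_cast; linarith⟩

private theorem BDE_int8 (V : ℕ → ℚ) (h : WtN 8 2 V) :
    IsZ (V 0) ∧ IsZ (V 1) ∧ IsZ (V 2) ∧ IsZ (V 3) ∧ IsZ (V 4) ∧ IsZ (V 5) ∧ IsZ (V 6) ∧ IsZ (V 7) := by
  have e0 : NBq 8 2 V 0 = V 1 := by
    simp [NBq]
  have e1 : NBq 8 2 V 1 = V 0 + V 2 := by
    simp [NBq]
  have e2 : NBq 8 2 V 2 = V 1 + V 3 + V 7 := by
    simp [NBq]
  have e3 : NBq 8 2 V 3 = V 2 + V 4 := by
    simp [NBq]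
  have e4 : NBq 8 2 V 4 = V 3 + V 5 := by
    simp [NBq]
  have e5 : NBq 8 2 V 5 = V 4 + V 6 := by
    simp [NBq]
  have e6 : NBq 8 2 V 6 = V 5 := by
    simp [NBq]
  have e7 : NBq 8 2 V 7 = V 2 := by
    simp [NBq]
  obtain ⟨z0, h0⟩ := h 0 (by norm_num)
  rw [e0] at h0
  obtain ⟨z1, h1⟩ := h 1 (by norm_num)
  rw [e1] at h1
  obtain ⟨z2, h2⟩ := h 2 (by norm_num)
  rw [e2] at h2
  obtain ⟨z3, h3⟩ := h 3 (by norm_num)
  rw [e3] at h3
  obtain ⟨z4, h4⟩ := h 4 (by norm_num)
  rw [e4] at h4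
  obtain ⟨z5, h5⟩ := h 5 (by norm_num)
  rw [e5] at h5
  obtain ⟨z6, h6⟩ := h 6 (by norm_num)
  rw [e6] at h6
  obtain ⟨z7, h7⟩ := h 7 (by norm_num)
  rw [e7] at h7
  refine ⟨?_, ?_, ?_, ?_, ?_, ?_, ?_, ?_⟩
  · exact ⟨4 * z0 + 7 * z1 + 10 * z2 + 8 * z3 + 6 * z4 + 4 * z5 + 2 * z6 + 5 * z7, by push_cast; linarith⟩
  · exact ⟨7 * z0 + 14 * z1 + 20 * z2 + 16 * z3 + 12 * z4 + 8 * z5 + 4 * z6 + 10 * z7, by push_cast; linarith⟩
  · exact ⟨10 * z0 + 20 * z1 + 30 * z2 + 24 * z3 + 18 * z4 + 12 * z5 + 6 * z6 + 15 * z7, by push_cast; linarith⟩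
  · exact ⟨8 * z0 + 16 * z1 + 24 * z2 + 20 * z3 + 15 * z4 + 10 * z5 + 5 * z6 + 12 * z7, by push_cast; linarith⟩
  · exact ⟨6 * z0 + 12 * z1 + 18 * z2 + 15 * z3 + 12 * z4 + 8 * z5 + 4 * z6 + 9 * z7, by push_cast; linarith⟩
  · exact ⟨4 * z0 + 8 * z1 + 12 * z2 + 10 * z3 + 8 * z4 + 6 * z5 + 3 * z6 + 6 * z7, by push_cast; linarith⟩
  · exact ⟨2 * z0 + 4 * z1 + 6 * z2 + 5 * z3 + 4 * z4 + 3 * z5 + 2 * z6 + 3 * z7, by push_cast; linarith⟩
  · exact ⟨5 * z0 + 10 * z1 + 15 * z2 + 12 * z3 + 9 * z4 + 6 * z5 + 3 * z6 + 8 * z7, by push_cast; linarith⟩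

theorem bd_E6 (V : ℕ → ℚ) (r : ℕ) (h : WtN 6 2 V) (hr : Ord 6 V r) :
    6 ≤ r * (e0 6 V + 1) ∧ 1 ≤ e0 6 V := by
  obtain ⟨h2, h5⟩ := BDE_int6 V h
  have hc : 2 ≤ e0 6 V := by
    have := BDE_sub 6 V {2, 5} (by
      intro p hp
      simp only [Finset.mem_insert, Finset.mem_singleton] at hp
      rcases hp with rfl | rfl
      · exact ⟨by norm_num, h2⟩
      · exact ⟨by norm_num, h5⟩)
    simpa using this
  refine ⟨?_, by omega⟩
  have hr1 := hr.1
  rcases Nat.lt_or_ge 1 r with h1 | h1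
  · calc 6 = 2 * 3 := by norm_num
      _ ≤ r * (e0 6 V + 1) := Nat.mul_le_mul h1 (by omega)
  · have hr' : r = 1 := by omega
    subst hr'
    have := BDE_full 6 V (BDE_one 6 V hr)
    omega

theorem bd_E7 (V : ℕ → ℚ) (r : ℕ) (h : WtN 7 2 V) (hr : Ord 7 V r) :
    (∀ p, p < 7 → IsZ (V p)) ∨ (9 ≤ r * (e0 7 V + 1) ∧ 1 ≤ e0 7 V) := by
  obtain ⟨h0, h1, h2, h4⟩ := BDE_int7 V h
  have hc : 4 ≤ e0 7 V := by
    have := BDE_sub 7 V {0, 1, 2, 4} (by
      intro p hp
      simp only [Finset.mem_insert, Finset.mem_singleton] at hp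
      rcases hp with rfl | rfl | rfl | rfl
      · exact ⟨by norm_num, h0⟩
      · exact ⟨by norm_num, h1⟩
      · exact ⟨by norm_num, h2⟩
      · exact ⟨by norm_num, h4⟩)
    simpa using this
  have hr1 := hr.1
  rcases Nat.lt_or_ge 1 r with h3 | h3
  · right
    refine ⟨?_, by omega⟩
    calc 9 ≤ 2 * 5 := by norm_num
      _ ≤ r * (e0 7 V + 1) := Nat.mul_le_mul h3 (by omega)
  · left
    have hr' : r = 1 := by omega
    subst hr'
    exact BDE_one 7 V hr

theorem bd_E8 (V : ℕ → ℚ) (h : WtN 8 2 V) : ∀ p, p < 8 → IsZ (V p) := by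
  obtain ⟨h0, h1, h2, h3, h4, h5, h6, h7⟩ := BDE_int8 V h
  intro p hp
  interval_cases p
  · exact h0
  · exact h1
  · exact h2
  · exact h3
  · exact h4
  · exact h5
  · exact h6
  · exact h7

end Pool.H88.Num

end
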