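import Pool.Agent.H16.TKA.H27.KAC.KQFil
import Pool.Agent.H16.TKA.M05
import Pool.Agent.H16.TKA.M07

/-! The parts of this file: H27.KAC.KQLaur_1, H41.KA.AE1, H41.KA.AE2. -/

section

/-!
KAC module KQLaur: the Laurent phenomenon for the normalised Q-system.

Let `x` be a vertex without loops (`a x x = 0`), `a` symmetric.  Then
(A_k) `Fil a x 0 (uS a j k)` for all `j ≠ x`, and (B_k) `Fil a x k (uS a x k)`.
Proof by strong induction on `k` (`k = 0, 1` trivial).  Write `u_k = uS a x k`,
`c_k = (X x)^k * ∏_{l} (uS a l k)^(a x l)` (the factor `l = x` is trivial), so that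
(R) `u_{k+1} u_{k-1} = u_k^2 - c_k`  (k ≥ 1).
* (A_{k+1}) from `uS_rec`: `(X j)^k` lies in `Fil (k * cart x j)`, `cart x j = - a x j`, and
  `uS a x k ^ (a j x)` in `Fil (k * a j x)`; inverse of `uS a j (k-1)` by `Fil_inv`.
* (B_2): `u_2 = 1 - c_1`, `c_1 = X x`, `(C e_x)_x = 2`.
* (B_{k+1}), k ≥ 2.  For `l ≠ x` with `a x l > 0`:
  `uS l k * uS l (k-2) = (uS l (k-1))^2 - u_{k-1} * g_l` with
  `g_l = (X l)^(k-1) * u_{k-1}^(a l x - 1) * ∏_{j ≠ x} (uS j (k-1))^(a l j)`.
  Taking the product over `l` (with multiplicity `a x l`) and multiplying by `(X x)^(2k-2)`: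
  (E) `c_k * c_{k-2} = c_{k-1}^2 - u_{k-1} * e` with an explicit `e`; its filtration degree:
  in terms of `t_x`-degrees `c_k` has degree 0 (that is, `c_k ∈ Fil (2k)`, because
  `(X x)^k ∈ Fil (2k)`), `u_{k-1} ∈ Fil (k-1)`, `e ∈ Fil (3k-3)`.  (Easiest: prove
  by induction on a finset/list the statement
  `∏ (A_l - u B_l) = ∏ A_l - u * E` with `E ∈ Fil (...)`.)
  Then `c_{k-2} * (u_k^2 - c_k) = u_{k-1} * (u_{k-1}^3 - 2 u_{k-1} c_{k-1} - u_{k-3} u_k^2 + e)`
  for `k ≥ 3` (use (R) at `k-1` and `k-2`), and for `k = 2` the same with `c_0 = 1`, `u_{-1} = 0`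
  (directly: `u_2^2 - c_2 = (1 - c_1)^2 - c_2`, `c_2 = c_1^2 - e`, as `u_1 = u_0 = 1`).
  So `u_{k+1} = (X x)^(-(k-2)) ...`: more precisely, with
  `d := ∏_{l} (uS l (k-2))^(a x l)` (a unit in `Fil 0`), `(X x)^(k-2) * d * u_{k+1}` is equal to
  `u_{k-1}^3 - 2 u_{k-1} c_{k-1} - u_{k-3} u_k^2 + e ∈ Fil (3k-3)`; since
  multiplication by `(X x)^(k-2)` shifts `(Cβ)_x` by exactly `2(k-2)`, we get
  `d * u_{k+1} ∈ Fil (3k - 3 - 2(k-2)) = Fil (k+1)`, and then divide by `d`.
-/

namespace Pool.Agent.H27.KAC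

open scoped BigOperators
open MvPowerSeries

variable {I : Type} [Fintype I] [DecidableEq I]

/-- Product of two binomials. -/
theorem KQLaur_two {a : I → I → ℕ} {x : I} {u A A' B B' : MvPowerSeries I ℚ} {r : ℤ}
    (hu : Fil a x r u) (hA : Fil a x 0 A) (hA' : Fil a x 0 A') (hB : Fil a x (-r) B)
    (hB' : Fil a x (-r) B') :
    ∃ E, Fil a x (-r) E ∧ (A - u * B) * (A' - u * B') = A * A' - u * E := by
  refine ⟨A * B' + B * A' - u * (B * B'), ?_, by ring⟩
  have h1 : Fil a x (-r) (A * B') := (hA.mul hB').mono (by omega)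
  have h2 : Fil a x (-r) (B * A') := (hB.mul hA').mono (by omega)
  have h3 : Fil a x (-r) (u * (B * B')) := (hu.mul (hB.mul hB')).mono (by omega)
  exact (h1.add h2).sub h3

theorem KQLaur_fil0_pow {a : I → I → ℕ} {x : I} {A : MvPowerSeries I ℚ} (hA : Fil a x 0 A)
    (n : ℕ) : Fil a x 0 (A ^ n) := by
  have h := hA.pow n
  rwa [mul_zero] at h

theorem KQLaur_fil0_prod {ι : Type} {a : I → I → ℕ} {x : I} {s : Finset ι}
    {A : ι → MvPowerSeries I ℚ} (hA : ∀ l ∈ s, Fil a x 0 (A l)) : Fil a x 0 (∏ l ∈ s, A l) := by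
  have h := Fil.prod (r := fun _ => 0) hA
  rwa [Finset.sum_const_zero] at h

theorem KQLaur_pow {a : I → I → ℕ} {x : I} {u A B : MvPowerSeries I ℚ} {r : ℤ}
    (hu : Fil a x r u) (hA : Fil a x 0 A) (hB : Fil a x (-r) B) (n : ℕ) :
    ∃ E, Fil a x (-r) E ∧ (A - u * B) ^ n = A ^ n - u * E := by
  induction n with
  | zero => exact ⟨0, Fil_zero _ _ _, by simp⟩
  | succ n ih =>
    obtain ⟨E, hE, h1⟩ := ih
    obtain ⟨E', hE', h2⟩ := KQLaur_two hu (KQLaur_fil0_pow hA n) hA hE hB
    exact ⟨E', hE', by rw [pow_succ, h1, h2, pow_succ]⟩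

theorem KQLaur_prod {ι : Type} {a : I → I → ℕ} {x : I} (s : Finset ι)
    {A B : ι → MvPowerSeries I ℚ} {u : MvPowerSeries I ℚ} {r : ℤ} (n : ι → ℕ)
    (hu : Fil a x r u) (hA : ∀ l ∈ s, Fil a x 0 (A l)) (hB : ∀ l ∈ s, Fil a x (-r) (B l)) :
    ∃ E, Fil a x (-r) E ∧
      ∏ l ∈ s, (A l - u * B l) ^ (n l) = ∏ l ∈ s, (A l) ^ (n l) - u * E := by
  classical
  induction s using Finset.induction_on with
  | empty => exact ⟨0, Fil_zero _ _ _, by simp⟩
  | insert b s hb ih =>
    obtain ⟨E, hE, h1⟩ := ih (fun l hl => hA l (Finset.mem_insert_of_mem hl))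
      (fun l hl => hB l (Finset.mem_insert_of_mem hl))
    obtain ⟨E', hE', h2⟩ := KQLaur_pow hu (hA b (Finset.mem_insert_self b s))
      (hB b (Finset.mem_insert_self b s)) (n b)
    obtain ⟨E2, hE2, h3⟩ := KQLaur_two hu (KQLaur_fil0_pow (hA b (Finset.mem_insert_self b s)) (n b))
      (KQLaur_fil0_prod (fun l hl => KQLaur_fil0_pow (hA l (Finset.mem_insert_of_mem hl)) (n l)))
      hE' hE
    exact ⟨E2, hE2, by rw [Finset.prod_insert hb, Finset.prod_insert hb, h1, h2, h3]⟩

/-- The cofactor of the exchange term. -/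
theorem KQLaur_d (a : I → I → ℕ) (x : I) (hx : a x x = 0) (k : ℕ)
    (hA : ∀ j, j ≠ x → Fil a x 0 (uS a j k)) :
    Fil a x 0 (∏ l, uS a l k ^ (a x l)) := by
  refine KQLaur_fil0_prod (fun l _ => ?_)
  by_cases hl : l = x
  · subst hl
    rw [hx, pow_zero]
    exact Fil_one _ _
  · exact KQLaur_fil0_pow (hA l hl) _

theorem KQLaur_cfil (a : I → I → ℕ) (x : I) (hx : a x x = 0) (k : ℕ)
    (hA : ∀ j, j ≠ x → Fil a x 0 (uS a j k)) :
    Fil a x (2 * k) (KQLaur_c a x k) := by
  have h1 := (Fil_X_pow a x x k).mul (KQLaur_d a x hx k hA)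
  refine h1.mono ?_
  unfold cart
  rw [hx, if_pos rfl]
  push_cast
  linarith

/-- The relation (E). -/
theorem KQLaur_E (a : I → I → ℕ) (hs : ∀ i j, a i j = a j i) (x : I) (hx : a x x = 0) (k : ℕ)
    (h1A : ∀ j, j ≠ x → Fil a x 0 (uS a j (k + 1))) (h1B : Fil a x (k + 1) (uS a x (k + 1))) :
    ∃ e, Fil a x (3 * (k + 1)) e ∧ KQLaur_c a x (k + 2) * KQLaur_c a x k =
      KQLaur_c a x (k + 1) ^ 2 - uS a x (k + 1) * e := by
  classical
  set u := uS a x (k + 1) with hu
  let g : I → MvPowerSeries I ℚ := fun l => if a x l = 0 then 0 else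
    (X l) ^ (k + 1) * (u ^ (a l x - 1) * ∏ j ∈ Finset.univ.erase x, uS a j (k + 1) ^ (a l j))
  have hgfil : ∀ l ∈ (Finset.univ : Finset I), Fil a x (-((k : ℤ) + 1)) (g l) := by
    intro l _
    by_cases hl : a x l = 0
    · simp only [g, if_pos hl]
      exact Fil_zero _ _ _
    · simp only [g, if_neg hl]
      have hlx : l ≠ x := fun h => hl (by rw [h]; exact hx)
      have e1 := Fil_X_pow a x l (k + 1)
      have e2 := h1B.pow (a l x - 1)
      have e3 : Fil a x 0 (∏ j ∈ Finset.univ.erase x, uS a j (k + 1) ^ (a l j)) :=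
        KQLaur_fil0_prod (fun j hj => KQLaur_fil0_pow (h1A j (Finset.ne_of_mem_erase hj)) _)
      refine (e1.mul (e2.mul e3)).mono ?_
      have e4 : cart a x l = -(a x l : ℤ) := by
        unfold cart
        rw [if_neg (Ne.symm hlx), zero_sub]
      have e5 : 1 ≤ a x l := Nat.one_le_iff_ne_zero.mpr hl
      rw [e4, hs l x]
      push_cast [Nat.cast_sub e5]
      apply le_of_eq
      ring
  obtain ⟨E, hE, hprod⟩ := KQLaur_prod (a := a) (x := x) (Finset.univ : Finset I)
    (A := fun l => if l = x then 0 else uS a l (k + 1) ^ 2) (B := g) (u := u)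
    (r := (k : ℤ) + 1) (fun l => a x l) h1B (by
      intro l _
      by_cases hl : l = x
      · simp only [if_pos hl]
        exact Fil_zero _ _ _
      · simp only [if_neg hl]
        exact KQLaur_fil0_pow (h1A l hl) 2) hgfil
  have hterm : ∀ l, (uS a l (k + 2) * uS a l k) ^ (a x l) =
      ((if l = x then 0 else uS a l (k + 1) ^ 2) - u * g l) ^ (a x l) := by
    intro l
    by_cases hl : a x l = 0
    · rw [hl, pow_zero, pow_zero]
    · have hlx : l ≠ x := fun h => hl (by rw [h]; exact hx)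
      congr 1
      simp only [g, if_neg hl, if_neg hlx]
      rw [uS_rec]
      have e6 : ∏ j, uS a j (k + 1) ^ (a l j) =
          u ^ (a l x) * ∏ j ∈ Finset.univ.erase x, uS a j (k + 1) ^ (a l j) := by
        rw [hu, ← Finset.mul_prod_erase Finset.univ _ (Finset.mem_univ x)]
      have e7 : u ^ (a l x) = u * u ^ (a l x - 1) := by
        rw [← pow_succ']
        congr 1
        have : a l x ≠ 0 := by rw [hs l x]; exact hl
        omega
      rw [e6, e7]
      ring
  have hA2 : ∏ l, (if l = x then 0 else uS a l (k + 1) ^ 2) ^ (a x l) =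
      (∏ l, uS a l (k + 1) ^ (a x l)) ^ 2 := by
    rw [← Finset.prod_pow]
    refine Finset.prod_congr rfl (fun l _ => ?_)
    by_cases hlx : l = x
    · subst hlx
      rw [hx, pow_zero, pow_zero, one_pow]
    · rw [if_neg hlx, ← pow_mul, ← pow_mul, mul_comm]
  refine ⟨(X x) ^ (2 * (k + 1)) * E, ?_, ?_⟩
  · refine ((Fil_X_pow a x x (2 * (k + 1))).mul hE).mono ?_
    unfold cart
    rw [hx, if_pos rfl]
    push_cast
    linarith
  · have h3 : KQLaur_c a x (k + 2) * KQLaur_c a x k =
        (X x) ^ (2 * (k + 1)) * ∏ l, (uS a l (k + 2) * uS a l k) ^ (a x l) := by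
      unfold KQLaur_c
      rw [show (∏ l, (uS a l (k + 2) * uS a l k) ^ (a x l)) =
        (∏ l, uS a l (k + 2) ^ (a x l)) * ∏ l, uS a l k ^ (a x l) by
          rw [← Finset.prod_mul_distrib]
          exact Finset.prod_congr rfl (fun l _ => mul_pow _ _ _)]
      have h4 : 2 * (k + 1) = (k + 2) + k := by omega
      rw [h4, pow_add]
      ring
    rw [h3, Finset.prod_congr rfl (fun l _ => hterm l), hprod, hA2]
    unfold KQLaur_c
    rw [mul_pow, ← pow_mul, mul_comm (k + 1) 2]
    ring

/-- Division by a unit in `Fil 0`. -/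
theorem KQLaur_div {a : I → I → ℕ} {x : I} {D F : MvPowerSeries I ℚ} {r : ℤ} (hD : Fil a x 0 D)
    (h1 : constantCoeff D = 1) (h : Fil a x r (D * F)) : Fil a x r F := by
  have hu : IsUnit D := by
    rw [MvPowerSeries.isUnit_iff_constantCoeff, h1]
    exact isUnit_one
  obtain ⟨u, rfl⟩ := hu
  have h2 := (Fil_inv hD h1).mul h
  rwa [← mul_assoc, Units.inv_mul, one_mul, zero_add] at h2

theorem laurent_main (a : I → I → ℕ) (hs : ∀ i j, a i j = a j i) (x : I) (hx : a x x = 0) (k : ℕ) :
    (∀ j, j ≠ x → Fil a x 0 (uS a j k)) ∧ Fil a x k (uS a x k) := by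
  induction k using Nat.strong_induction_on with
  | _ k ih =>
    match k, ih with
    | 0, _ =>
      refine ⟨fun j _ => ?_, ?_⟩
      · rw [uS_zero]
        exact Fil_one _ _
      · rw [uS_zero]
        exact (Fil_one _ _).mono (by norm_num)
    | 1, _ =>
      refine ⟨fun j _ => ?_, ?_⟩
      · rw [uS_one]
        exact Fil_one _ _
      · rw [uS_one]
        exact (Fil_one _ _).mono (by norm_num)
    | k + 2, ih =>
      have hk0 := ih k (by omega)
      have hk1 := ih (k + 1) (by omega)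
      refine ⟨fun j hj => ?_, ?_⟩
      · have h1 : Fil a x 0 (uS a j k * uS a j (k + 2)) := by
          rw [mul_comm, uS_rec]
          refine (KQLaur_fil0_pow (hk1.1 j hj) 2).sub ?_
          have e1 := Fil_X_pow a x j (k + 1)
          have e2 : Fil a x ((k + 1 : ℤ) * (a x j : ℤ)) (∏ l, uS a l (k + 1) ^ (a j l)) := by
            rw [← Finset.mul_prod_erase Finset.univ _ (Finset.mem_univ x)]
            have e3 := hk1.2.pow (a j x)
            have e4 : Fil a x 0 (∏ l ∈ Finset.univ.erase x, uS a l (k + 1) ^ (a j l)) :=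
              KQLaur_fil0_prod (fun l hl => KQLaur_fil0_pow (hk1.1 l (Finset.ne_of_mem_erase hl)) _)
            refine (e3.mul e4).mono ?_
            rw [hs j x]
            push_cast
            apply le_of_eq
            ring
          refine (e1.mul e2).mono ?_
          unfold cart
          rw [if_neg (Ne.symm hj)]
          push_cast
          apply le_of_eq
          ring
        exact KQLaur_div (hk0.1 j hj) (uS_const a j k) h1
      · match k, ih, hk0, hk1 with
        | 0, _, _, hk1 =>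
          have h1 := KQLaur_rel a x 0
          rw [uS_zero, mul_one] at h1
          rw [h1]
          have h2 := KQLaur_cfil a x hx 1 hk1.1
          have h3 : Fil a x 2 (uS a x (0 + 1) ^ 2) := by
            rw [zero_add, uS_one, one_pow]
            exact (Fil_one _ _).mono (by norm_num)
          exact (h3.sub (h2.mono (by norm_num))).mono (by norm_num)
        | 1, _, _, hk1 =>
          -- `k = 2` of the sketch
          have hA1 : ∀ j, j ≠ x → Fil a x 0 (uS a j (0 + 1)) := fun j _ => by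
            rw [zero_add, uS_one]
            exact Fil_one _ _
          have hB1 : Fil a x ((0 : ℕ) + 1) (uS a x (0 + 1)) := by
            rw [zero_add, uS_one]
            exact (Fil_one _ _).mono (by norm_num)
          obtain ⟨e, he, hE⟩ := KQLaur_E a hs x hx 0 hA1 hB1
          have hc0 : KQLaur_c a x 0 = 1 := by
            unfold KQLaur_c
            rw [pow_zero, one_mul]
            exact Finset.prod_eq_one (fun l _ => by rw [uS_zero, one_pow])
          rw [hc0, mul_one, zero_add, zero_add, uS_one, one_mul] at hE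
          have h1 := KQLaur_rel a x 1
          rw [uS_one, mul_one] at h1
          have h2 := KQLaur_rel a x 0
          rw [uS_zero, mul_one, zero_add, zero_add, uS_one, one_pow] at h2
          rw [h1]
          have h3 : uS a x (1 + 1) ^ 2 - KQLaur_c a x (1 + 1) =
              1 - KQLaur_c a x 1 - KQLaur_c a x 1 + e := by
            change uS a x 2 ^ 2 - KQLaur_c a x 2 = _
            rw [h2, hE]
            ring
          rw [h3]
          have h4 := KQLaur_cfil a x hx 1 hA1
          have h5 : Fil a x 3 (KQLaur_c a x 1) := h4.mono (by norm_num)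
          have h6 : Fil a x 3 (1 : MvPowerSeries I ℚ) := (Fil_one _ _).mono (by norm_num)
          have h7 : Fil a x 3 e := he.mono (by norm_num)
          exact (((h6.sub h5).sub h5).add h7).mono (by norm_num)
        | k + 2, ih, hk0, hk1 =>
          -- `k + 3` is the `k` of the sketch; the goal is about `k + 4`
          have i0 := ih k (by omega)
          have i1 := ih (k + 1) (by omega)
          obtain ⟨e, he, hE⟩ := KQLaur_E a hs x hx (k + 1) hk0.1 (by
            have := hk0.2
            push_cast at this ⊢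
            exact this.mono (by linarith))
          have r1 := KQLaur_rel a x (k + 2)
          have r2 := KQLaur_rel a x (k + 1)
          have r3 := KQLaur_rel a x k
          set u0 := uS a x k with hu0
          set u1 := uS a x (k + 1) with hu1
          have w2 : uS a x (k + 2) = uS a x (k + 2) := rfl
          have key : uS a x (k + 2) * (KQLaur_c a x (k + 1) * uS a x (k + 2 + 2)) =
              uS a x (k + 2) * (uS a x (k + 2) ^ 3 - 2 * uS a x (k + 2) * KQLaur_c a x (k + 2) -
                u0 * uS a x (k + 3) ^ 2 + e) := by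
            have r1' : uS a x (k + 2 + 2) * uS a x (k + 2) =
              uS a x (k + 3) ^ 2 - KQLaur_c a x (k + 3) := r1
            have r2' : uS a x (k + 3) * u1 = uS a x (k + 2) ^ 2 - KQLaur_c a x (k + 2) := r2
            have r3' : uS a x (k + 2) * u0 = u1 ^ 2 - KQLaur_c a x (k + 1) := r3
            have hE' : KQLaur_c a x (k + 3) * KQLaur_c a x (k + 1) =
              KQLaur_c a x (k + 2) ^ 2 - uS a x (k + 2) * e := hE
            have s1 : KQLaur_c a x (k + 1) = u1 ^ 2 - uS a x (k + 2) * u0 := by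
              rw [r3']; ring
            calc uS a x (k + 2) * (KQLaur_c a x (k + 1) * uS a x (k + 2 + 2))
                = KQLaur_c a x (k + 1) * (uS a x (k + 2 + 2) * uS a x (k + 2)) := by ring
              _ = KQLaur_c a x (k + 1) * uS a x (k + 3) ^ 2 -
                  KQLaur_c a x (k + 3) * KQLaur_c a x (k + 1) := by rw [r1']; ring
              _ = (uS a x (k + 3) * u1) ^ 2 - uS a x (k + 2) * u0 * uS a x (k + 3) ^ 2 -
                  (KQLaur_c a x (k + 2) ^ 2 - uS a x (k + 2) * e) := by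
                    rw [hE']
                    rw [s1]
                    ring
              _ = uS a x (k + 2) * (uS a x (k + 2) ^ 3 -
                  2 * uS a x (k + 2) * KQLaur_c a x (k + 2) -
                u0 * uS a x (k + 3) ^ 2 + e) := by rw [r2']; ring
          have key2 := (uS_isUnit a x (k + 2)).mul_left_cancel key
          have f1 : Fil a x (3 * (k : ℤ) + 6) (uS a x (k + 2) ^ 3) := by
            refine (hk0.2.pow 3).mono ?_
            push_cast
            linarith
          have f2 : Fil a x (3 * (k : ℤ) + 6) (2 * uS a x (k + 2) * KQLaur_c a x (k + 2)) := by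
            have g1 := (Fil_natCast a x 2).mul (hk0.2.mul (KQLaur_cfil a x hx (k + 2) hk0.1))
            rw [mul_assoc]
            refine Fil.mono g1 ?_
            push_cast
            linarith
          have f3 : Fil a x (3 * (k : ℤ) + 6) (u0 * uS a x (k + 3) ^ 2) := by
            refine (i0.2.mul (hk1.2.pow 2)).mono ?_
            push_cast
            linarith
          have f4 : Fil a x (3 * (k : ℤ) + 6) e := by
            refine he.mono ?_
            push_cast
            linarith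
          have f5 : Fil a x (3 * (k : ℤ) + 6) (KQLaur_c a x (k + 1) * uS a x (k + 2 + 2)) := by
            rw [key2]
            exact ((f1.sub f2).sub f3).add f4
          have f6 : Fil a x (((k : ℤ) + 4) + 2 * ((k + 1 : ℕ) : ℤ)) ((X x) ^ (k + 1) *
              ((∏ l, uS a l (k + 1) ^ (a x l)) * uS a x (k + 2 + 2))) := by
            have g2 : KQLaur_c a x (k + 1) * uS a x (k + 2 + 2) = (X x) ^ (k + 1) *
              ((∏ l, uS a l (k + 1) ^ (a x l)) * uS a x (k + 2 + 2)) := by
              unfold KQLaur_c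
              ring
            rw [← g2]
            refine f5.mono ?_
            push_cast
            linarith
          have f7 := KQLaur_div (KQLaur_d a x hx (k + 1) i1.1) (KQLaur_prod_const a x (k + 1))
            (KQLaur_cancel hx (k + 1) f6)
          refine f7.mono ?_
          push_cast
          linarith

end Pool.Agent.H27.KAC

end

section

/-!
KAC ADE, module AE1: linear algebra of finite type sets (`M`-matrices).

`FinT a N`: `C_N` is positive definite (use `hs` symmetry).  Nonnegativity of the inverse: if `C_N v = b ≥ 0` on `N`, let `w` be the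
negative part of `v` (`w_i = max (-v_i) 0`); then `0 ≤ ∑ w_i b_i = ∑ w_i (C v)_i ≤ - ∑ w_i (C w)_i ≤ 0`, because the
off-diagonal entries of `C` are `≤ 0`; so `w = 0`.
-/

set_option autoImplicit false

namespace Pool.Agent.H27.KAC

open scoped BigOperators

section

variable {I : Type} [Fintype I] [DecidableEq I]

private theorem AE1_ind (a : I → I → ℕ) {A N : Finset I} (hA : A ⊆ N) (v : I → ℚ) (i : I) :
    cqN a N (fun j => if j ∈ A then v j else 0) i = cqN a A v i := by
  unfold cqN
  have h1 : ∑ j ∈ A, (cart a i j : ℚ) * v j =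
      ∑ j ∈ A, (cart a i j : ℚ) * (if j ∈ A then v j else 0) :=
    Finset.sum_congr rfl fun j hj => by rw [if_pos hj]
  rw [h1]
  symm
  refine Finset.sum_subset hA fun j _ hj => ?_
  rw [if_neg hj, mul_zero]

private theorem AE1_ind_form (a : I → I → ℕ) {A N : Finset I} (hA : A ⊆ N) (v : I → ℚ) :
    ∑ i ∈ N, (if i ∈ A then v i else 0) * cqN a N (fun j => if j ∈ A then v j else 0) i =
      ∑ i ∈ A, v i * cqN a A v i := by
  have h1 : ∑ i ∈ A, v i * cqN a A v i =
      ∑ i ∈ A, (if i ∈ A then v i else 0) * cqN a N (fun j => if j ∈ A then v j else 0) i :=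
    Finset.sum_congr rfl fun j hj => by rw [if_pos hj, AE1_ind a hA]
  rw [h1]
  symm
  refine Finset.sum_subset hA fun j _ hj => ?_
  rw [if_neg hj, zero_mul]

private theorem AE1_cart_ne {a : I → I → ℕ} {i j : I} (h : i ≠ j) : cart a i j = -(a i j : ℤ) := by
  unfold cart
  rw [if_neg h, zero_sub]

private theorem AE1_cqN_add (a : I → I → ℕ) (N : Finset I) (v w : I → ℚ) (i : I) :
    cqN a N (fun j => v j + w j) i = cqN a N v i + cqN a N w i := by
  unfold cqN
  rw [← Finset.sum_add_distrib]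
  exact Finset.sum_congr rfl fun j _ => by ring

private theorem AE1_cqN_sub (a : I → I → ℕ) (N : Finset I) (v w : I → ℚ) (i : I) :
    cqN a N (fun j => v j - w j) i = cqN a N v i - cqN a N w i := by
  unfold cqN
  rw [← Finset.sum_sub_distrib]
  exact Finset.sum_congr rfl fun j _ => by ring

private theorem AE1_cqN_smul (a : I → I → ℕ) (N : Finset I) (c : ℚ) (v : I → ℚ) (i : I) :
    cqN a N (fun j => c * v j) i = c * cqN a N v i := by
  unfold cqN
  rw [Finset.mul_sum]
  exact Finset.sum_congr rfl fun j _ => by ring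

private theorem AE1_zero {a : I → I → ℕ} {N : Finset I} (h : FinT a N) (v : I → ℚ)
    (hv : ∀ i ∈ N, cqN a N v i = 0) : ∀ i ∈ N, v i = 0 := by
  intro i hi
  by_contra hne
  have h1 := h.pos v ⟨i, hi, hne⟩
  have h2 : ∑ i ∈ N, v i * cqN a N v i = 0 :=
    Finset.sum_eq_zero fun j hj => by rw [hv j hj, mul_zero]
  rw [h2] at h1
  exact lt_irrefl _ h1

private theorem AE1_exists {a : I → I → ℕ} {N : Finset I} (h : FinT a N) (b : I → ℚ) :
    ∃ v : I → ℚ, (∀ i, i ∉ N → v i = 0) ∧ ∀ i ∈ N, cqN a N v i = b i := by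
  let ex : (N → ℚ) → (I → ℚ) := fun v i => if h : i ∈ N then v ⟨i, h⟩ else 0
  let L : (N → ℚ) →ₗ[ℚ] (N → ℚ) :=
    { toFun := fun v i => cqN a N (ex v) i
      map_add' := by
        intro v w
        funext i
        rw [Pi.add_apply, ← AE1_cqN_add]
        congr 1
        funext j
        simp only [ex]
        split_ifs
        · rfl
        · rw [add_zero]
      map_smul' := by
        intro c v
        funext i
        rw [RingHom.id_apply, Pi.smul_apply, smul_eq_mul, ← AE1_cqN_smul]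
        congr 1
        funext j
        simp only [ex]
        split_ifs
        · rfl
        · rw [mul_zero] }
  have hinj : Function.Injective L := by
    rw [← LinearMap.ker_eq_bot, LinearMap.ker_eq_bot']
    intro v hv
    have h1 : ∀ i ∈ N, cqN a N (ex v) i = 0 := fun i hi => congrFun hv ⟨i, hi⟩
    have h2 := AE1_zero h (ex v) h1
    funext i
    have h3 := h2 i i.2
    simp only [ex, dif_pos i.2] at h3
    exact h3
  have hsurj : Function.Surjective L := LinearMap.injective_iff_surjective.1 hinj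
  obtain ⟨v, hv⟩ := hsurj (fun i => b i)
  refine ⟨ex v, fun i hi => ?_, fun i hi => ?_⟩
  · simp only [ex, dif_neg hi]
  · exact congrFun hv ⟨i, hi⟩

private theorem AE1_sol {a : I → I → ℕ} {N : Finset I} (h : FinT a N) (b : I → ℚ) :
    ∀ i ∈ N, cqN a N (solN a N b) i = b i := by
  have h1 := AE1_exists h b
  unfold solN
  rw [dif_pos h1]
  exact h1.choose_spec.2

private theorem AE1_uniq {a : I → I → ℕ} {N : Finset I} (h : FinT a N) (b v : I → ℚ)
    (hv : ∀ i ∈ N, cqN a N v i = b i) : ∀ i ∈ N, v i = solN a N b i := by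
  have h1 := AE1_zero h (fun j => v j - solN a N b j) (fun i hi => by
    rw [AE1_cqN_sub, hv i hi, AE1_sol h b i hi, sub_self])
  intro i hi
  exact sub_eq_zero.1 (h1 i hi)

private theorem AE1_nonpos {a : I → I → ℕ} {N : Finset I} (h : FinT a N) (v : I → ℚ)
    (hv : ∀ i ∈ N, 0 ≤ v i) (i : I) (hi : i ∈ N) (h0 : v i = 0) (j : I) (hj : j ∈ N) :
    cqN a N v i ≤ -((a i j : ℚ) * v j) := by
  have h1 : ∀ l ∈ N, (cart a i l : ℚ) * v l = -((a i l : ℚ) * v l) := by
    intro l hl
    by_cases hil : i = l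
    · subst hil
      rw [h0]
      ring
    · rw [AE1_cart_ne hil]
      push_cast
      ring
  unfold cqN
  rw [Finset.sum_congr rfl h1, Finset.sum_neg_distrib, neg_le_neg_iff]
  exact Finset.single_le_sum (f := fun l => (a i l : ℚ) * v l)
    (fun l hl => mul_nonneg (Nat.cast_nonneg _) (hv l hl)) hj

theorem FinT.mono {a : I → I → ℕ} {N N' : Finset I} (h : FinT a N) (hsub : N' ⊆ N) : FinT a N' := by
  refine ⟨fun x hx => h.loopfree x (hsub hx), fun v hv => ?_⟩
  obtain ⟨i, hi, hne⟩ := hv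
  have h1 := h.pos (fun j => if j ∈ N' then v j else 0) ⟨i, hsub hi, by rwa [if_pos hi]⟩
  rwa [AE1_ind_form a hsub] at h1

theorem FinT.empty (a : I → I → ℕ) : FinT a (∅ : Finset I) := by
  refine ⟨fun x hx => absurd hx (Finset.notMem_empty x), fun v hv => ?_⟩
  obtain ⟨i, hi, _⟩ := hv
  exact absurd hi (Finset.notMem_empty i)

theorem cart_self {a : I → I → ℕ} {N : Finset I} (h : FinT a N) (x : I) (hx : x ∈ N) :
    cart a x x = 2 := by
  unfold cart
  rw [if_pos rfl, h.loopfree x hx]
  rfl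

/-- adjacent vertices of a finite type set are joined by exactly one edge. -/
theorem FinT.adj_le_one {a : I → I → ℕ} (hs : ∀ i j, a i j = a j i) {N : Finset I} (h : FinT a N)
    (x y : I) (hx : x ∈ N) (hy : y ∈ N) (hxy : x ≠ y) : a x y ≤ 1 := by
  have hsub : ({x, y} : Finset I) ⊆ N := by
    intro z hz
    rw [Finset.mem_insert, Finset.mem_singleton] at hz
    rcases hz with rfl | rfl
    · exact hx
    · exact hy
  have h' := h.mono hsub
  have h1 := h'.pos (fun _ => 1) ⟨x, by simp, one_ne_zero⟩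
  unfold cqN at h1
  rw [Finset.sum_pair hxy, Finset.sum_pair hxy, Finset.sum_pair hxy, cart_self h x hx,
    cart_self h y hy, AE1_cart_ne hxy, AE1_cart_ne hxy.symm, hs y x] at h1
  have h2 : (a x y : ℚ) < 2 := by
    push_cast at h1
    linarith
  have h3 : a x y < 2 := by exact_mod_cast h2
  omega

/-- nonnegativity. -/
theorem FinT.nonneg {a : I → I → ℕ} (hs : ∀ i j, a i j = a j i) {N : Finset I} (h : FinT a N)
    (v : I → ℚ) (hv : ∀ i ∈ N, 0 ≤ cqN a N v i) : ∀ i ∈ N, 0 ≤ v i := by
  by_contra hcon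
  push Not at hcon
  obtain ⟨i0, hi0, hneg⟩ := hcon
  have h1 := h.pos (fun j => max (-v j) 0) ⟨i0, hi0, by
    have : max (-v i0) 0 = -v i0 := max_eq_left (by linarith)
    rw [this]
    linarith⟩
  have h2 : 0 ≤ ∑ i ∈ N, max (-v i) 0 * cqN a N v i :=
    Finset.sum_nonneg fun i hi => mul_nonneg (le_max_right _ _) (hv i hi)
  have h3 : ∀ i, cqN a N v i =
      cqN a N (fun j => max (v j) 0) i - cqN a N (fun j => max (-v j) 0) i := by
    intro i
    rw [← AE1_cqN_sub]
    congr 1
    funext j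
    rcases le_total (v j) 0 with hj | hj
    · rw [max_eq_right hj, max_eq_left (by linarith)]
      ring
    · rw [max_eq_left hj, max_eq_right (by linarith)]
      ring
  have h4 : ∑ i ∈ N, max (-v i) 0 * cqN a N (fun j => max (v j) 0) i ≤ 0 := by
    refine Finset.sum_nonpos fun i hi => ?_
    unfold cqN
    rw [Finset.mul_sum]
    refine Finset.sum_nonpos fun j hj => ?_
    by_cases hij : i = j
    · subst hij
      show max (-v i) 0 * ((cart a i i : ℚ) * max (v i) 0) ≤ 0
      rcases le_total (v i) 0 with hj | hj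
      · rw [max_eq_right hj]
        simp
      · rw [max_eq_right (show -v i ≤ 0 by linarith)]
        simp
    · show max (-v i) 0 * ((cart a i j : ℚ) * max (v j) 0) ≤ 0
      rw [AE1_cart_ne hij]
      push_cast
      have e1 : 0 ≤ max (-v i) 0 := le_max_right _ _
      have e2 : 0 ≤ max (v j) 0 := le_max_right _ _
      have e3 : (0 : ℚ) ≤ (a i j : ℚ) := Nat.cast_nonneg _
      nlinarith [mul_nonneg e1 (mul_nonneg e3 e2)]
  have h5 : ∑ i ∈ N, max (-v i) 0 * cqN a N v i =
      ∑ i ∈ N, max (-v i) 0 * cqN a N (fun j => max (v j) 0) i -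
        ∑ i ∈ N, max (-v i) 0 * cqN a N (fun j => max (-v j) 0) i := by
    rw [← Finset.sum_sub_distrib]
    refine Finset.sum_congr rfl fun i _ => ?_
    rw [h3 i, mul_sub]
  linarith

/-- strict positivity on connected sets. -/
theorem FinT.pos_of_conn {a : I → I → ℕ} (hs : ∀ i j, a i j = a j i) {N : Finset I} (h : FinT a N)
    (hc : ConnS a N) (v : I → ℚ) (hv : ∀ i ∈ N, 0 ≤ cqN a N v i) (h0 : ∃ i ∈ N, cqN a N v i ≠ 0) :
    ∀ i ∈ N, 0 < v i := by
  have hnn := h.nonneg hs v hv
  have hS : ∀ i, i ∈ N.filter (fun i => v i = 0) ↔ i ∈ N ∧ v i = 0 := fun i => by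
    rw [Finset.mem_filter]
  by_cases hne : (N.filter (fun i => v i = 0)).Nonempty
  · by_cases heq : N.filter (fun i => v i = 0) = N
    · exfalso
      obtain ⟨i, hi, h1⟩ := h0
      apply h1
      unfold cqN
      refine Finset.sum_eq_zero fun j hj => ?_
      rw [← heq, hS] at hj
      rw [hj.2, mul_zero]
    · exfalso
      obtain ⟨i, hi, j, hj, hjS, hpos⟩ := hc.2 _ (Finset.filter_subset _ _) hne heq
      rw [hS] at hi hjS
      have h1 := AE1_nonpos h v hnn i hi.1 hi.2 j hj
      have h2 := hv i hi.1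
      have h3 : 0 < v j := lt_of_le_of_ne (hnn j hj) (fun h4 => hjS ⟨hj, h4.symm⟩)
      have h4 : (0 : ℚ) < (a i j : ℚ) := by exact_mod_cast hpos
      have h5 := mul_pos h4 h3
      linarith
  · intro i hi
    refine lt_of_le_of_ne (hnn i hi) (fun h1 => hne ⟨i, ?_⟩)
    rw [hS]
    exact ⟨hi, h1.symm⟩

theorem solN_out (a : I → I → ℕ) (N : Finset I) (b : I → ℚ) (i : I) (hi : i ∉ N) :
    solN a N b i = 0 := by
  unfold solN
  split_ifs with h
  · exact h.choose_spec.1 i hi
  · rfl

theorem solN_spec {a : I → I → ℕ} (hs : ∀ i j, a i j = a j i) {N : Finset I} (h : FinT a N)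
    (b : I → ℚ) : ∀ i ∈ N, cqN a N (solN a N b) i = b i := by
  exact AE1_sol h b

theorem solN_unique {a : I → I → ℕ} (hs : ∀ i j, a i j = a j i) {N : Finset I} (h : FinT a N)
    (b v : I → ℚ) (hv : ∀ i ∈ N, cqN a N v i = b i) : ∀ i ∈ N, v i = solN a N b i := by
  exact AE1_uniq h b v hv

theorem solN_congr {a : I → I → ℕ} (hs : ∀ i j, a i j = a j i) {N : Finset I} (h : FinT a N)
    (b b' : I → ℚ) (hb : ∀ i ∈ N, b i = b' i) : solN a N b = solN a N b' := by
  funext i
  by_cases hi : i ∈ N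
  · exact AE1_uniq h b' (solN a N b) (fun j hj => by rw [AE1_sol h b j hj, hb j hj]) i hi
  · rw [solN_out a N b i hi, solN_out a N b' i hi]

theorem solN_add {a : I → I → ℕ} (hs : ∀ i j, a i j = a j i) {N : Finset I} (h : FinT a N)
    (b b' : I → ℚ) (i : I) : solN a N (fun j => b j + b' j) i = solN a N b i + solN a N b' i := by
  by_cases hi : i ∈ N
  · symm
    exact AE1_uniq h (fun j => b j + b' j) (fun j => solN a N b j + solN a N b' j)
      (fun j hj => by rw [AE1_cqN_add, AE1_sol h b j hj, AE1_sol h b' j hj]) i hi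
  · rw [solN_out a N _ i hi, solN_out a N b i hi, solN_out a N b' i hi, add_zero]

theorem solN_smul {a : I → I → ℕ} (hs : ∀ i j, a i j = a j i) {N : Finset I} (h : FinT a N)
    (c : ℚ) (b : I → ℚ) (i : I) : solN a N (fun j => c * b j) i = c * solN a N b i := by
  by_cases hi : i ∈ N
  · symm
    exact AE1_uniq h (fun j => c * b j) (fun j => c * solN a N b j)
      (fun j hj => by rw [AE1_cqN_smul, AE1_sol h b j hj]) i hi
  · rw [solN_out a N _ i hi, solN_out a N b i hi, mul_zero]

theorem solN_cqN {a : I → I → ℕ} (hs : ∀ i j, a i j = a j i) {N : Finset I} (h : FinT a N)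
    (v : I → ℚ) : ∀ i ∈ N, solN a N (cqN a N v) i = v i := by
  intro i hi
  exact (AE1_uniq h (cqN a N v) v (fun _ _ => rfl) i hi).symm

theorem solN_nonneg {a : I → I → ℕ} (hs : ∀ i j, a i j = a j i) {N : Finset I} (h : FinT a N)
    (b : I → ℚ) (hb : ∀ i ∈ N, 0 ≤ b i) (i : I) : 0 ≤ solN a N b i := by
  by_cases hi : i ∈ N
  · exact h.nonneg hs (solN a N b) (fun j hj => by rw [AE1_sol h b j hj]; exact hb j hj) i hi
  · rw [solN_out a N b i hi]

theorem solN_mono {a : I → I → ℕ} (hs : ∀ i j, a i j = a j i) {N : Finset I} (h : FinT a N)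
    (b b' : I → ℚ) (hb : ∀ i ∈ N, b i ≤ b' i) (i : I) : solN a N b i ≤ solN a N b' i := by
  by_cases hi : i ∈ N
  · have h1 := h.nonneg hs (fun j => solN a N b' j - solN a N b j) (fun j hj => by
      rw [AE1_cqN_sub, AE1_sol h b j hj, AE1_sol h b' j hj]
      exact sub_nonneg.2 (hb j hj)) i hi
    exact sub_nonneg.1 h1
  · rw [solN_out a N b i hi, solN_out a N b' i hi]

theorem solN_pos {a : I → I → ℕ} (hs : ∀ i j, a i j = a j i) {N : Finset I} (h : FinT a N)
    (hc : ConnS a N) (b : I → ℚ) (hb : ∀ i ∈ N, 0 ≤ b i) (h0 : ∃ i ∈ N, b i ≠ 0) :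
    ∀ i ∈ N, 0 < solN a N b i := by
  refine h.pos_of_conn hs hc (solN a N b) (fun i hi => ?_) ?_
  · rw [AE1_sol h b i hi]
    exact hb i hi
  · obtain ⟨i, hi, h1⟩ := h0
    exact ⟨i, hi, by rwa [AE1_sol h b i hi]⟩

/-- without connectedness: `b ≥ 0` and `b_i > 0` gives a positive solution at `i`. -/
theorem solN_pos_self {a : I → I → ℕ} (hs : ∀ i j, a i j = a j i) {N : Finset I} (h : FinT a N)
    (b : I → ℚ) (hb : ∀ i ∈ N, 0 ≤ b i) (i : I) (hi : i ∈ N) (h0 : 0 < b i) :
    0 < solN a N b i := by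
  have hnn : ∀ j ∈ N, 0 ≤ solN a N b j := fun j _ => solN_nonneg hs h b hb j
  refine lt_of_le_of_ne (hnn i hi) fun h1 => ?_
  have h2 := AE1_nonpos h (solN a N b) hnn i hi h1.symm i hi
  rw [AE1_sol h b i hi, ← h1] at h2
  linarith

/-- a union of components can be solved separately. -/
theorem solN_component {a : I → I → ℕ} (hs : ∀ i j, a i j = a j i) {N A : Finset I} (h : FinT a N)
    (hA : A ⊆ N) (hsep : ∀ i ∈ A, ∀ j ∈ N, j ∉ A → a i j = 0) (b : I → ℚ) :
    ∀ i ∈ A, solN a N b i = solN a A b i := by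
  refine AE1_uniq (h.mono hA) b (solN a N b) fun i hi => ?_
  rw [← AE1_sol h b i (hA hi)]
  unfold cqN
  refine Finset.sum_subset hA fun j hj hjA => ?_
  have hij : i ≠ j := fun h1 => hjA (h1 ▸ hi)
  rw [AE1_cart_ne hij, hsep i hi j hj hjA]
  simp

/-- components. -/
theorem comps_subset {a : I → I → ℕ} {N A : Finset I} (hA : A ∈ comps a N) : A ⊆ N := by
  classical
  unfold comps at hA
  rw [Finset.mem_filter, Finset.mem_powerset] at hA
  exact hA.1

theorem comps_conn {a : I → I → ℕ} {N A : Finset I} (hA : A ∈ comps a N) : ConnS a A := by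
  classical
  unfold comps at hA
  rw [Finset.mem_filter, Finset.mem_powerset] at hA
  exact hA.2.1

theorem comps_sep {a : I → I → ℕ} {N A : Finset I} (hA : A ∈ comps a N) :
    ∀ i ∈ A, ∀ j ∈ N, j ∉ A → a i j = 0 := by
  classical
  unfold comps at hA
  rw [Finset.mem_filter, Finset.mem_powerset] at hA
  exact hA.2.2

theorem comps_cover {a : I → I → ℕ} (hs : ∀ i j, a i j = a j i) {N : Finset I} (x : I)
    (hx : x ∈ N) : ∃ A ∈ comps a N, x ∈ A := by
  classical
  have hsymm : Std.Symm (Relation.ReflTransGen (fun i j : I => i ∈ N ∧ j ∈ N ∧ 0 < a i j)) := by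
    refine ⟨fun i j hij => ?_⟩
    induction hij with
    | refl => exact Relation.ReflTransGen.refl
    | tail _ h2 ih =>
      exact Relation.ReflTransGen.head ⟨h2.2.1, h2.1, by rw [hs]; exact h2.2.2⟩ ih
  have hmem : ∀ y, y ∈ N.filter (fun y => Relation.ReflTransGen
      (fun i j : I => i ∈ N ∧ j ∈ N ∧ 0 < a i j) x y) ↔ y ∈ N ∧ Relation.ReflTransGen
      (fun i j : I => i ∈ N ∧ j ∈ N ∧ 0 < a i j) x y := fun y => by rw [Finset.mem_filter]
  refine ⟨N.filter (fun y => Relation.ReflTransGen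
    (fun i j : I => i ∈ N ∧ j ∈ N ∧ 0 < a i j) x y), ?_, ?_⟩
  · unfold comps
    rw [Finset.mem_filter, Finset.mem_powerset]
    refine ⟨Finset.filter_subset _ _, ⟨⟨x, ?_⟩, ?_⟩, ?_⟩
    · rw [hmem]
      exact ⟨hx, Relation.ReflTransGen.refl⟩
    · intro S hSA hSne hSneq
      by_contra hcon
      push Not at hcon
      obtain ⟨z, hz⟩ := hSne
      have hclos : ∀ y, Relation.ReflTransGen
          (fun i j : I => i ∈ N ∧ j ∈ N ∧ 0 < a i j) z y → y ∈ S := by
        intro y hy
        induction hy with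
        | refl => exact hz
        | tail _ h2 ih =>
          rename_i b c _
          by_contra hc
          have hb := (hmem b).1 (hSA ih)
          have h3 := hcon b ih c ((hmem c).2 ⟨h2.2.1, hb.2.tail h2⟩) hc
          have h4 := h2.2.2
          omega
      apply hSneq
      refine Finset.Subset.antisymm hSA fun y hy => ?_
      have h1 := ((hmem y).1 hy).2
      have h2 := ((hmem z).1 (hSA hz)).2
      exact hclos y ((hsymm.symm _ _ h2).trans h1)
    · intro i hi j hj hjA
      by_contra hne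
      apply hjA
      have h1 := (hmem i).1 hi
      exact (hmem j).2 ⟨hj, h1.2.tail ⟨h1.1, hj, Nat.pos_of_ne_zero hne⟩⟩
  · rw [hmem]
    exact ⟨hx, Relation.ReflTransGen.refl⟩

private theorem AE1_comps_sub {a : I → I → ℕ} {N A B : Finset I}
    (hA : A ∈ comps a N) (hB : B ∈ comps a N) {x : I} (hxA : x ∈ A) (hxB : x ∈ B) : A ⊆ B := by
  by_contra hnot
  have hne : A ∩ B ≠ A := fun h1 => hnot (Finset.inter_eq_left.1 h1)
  obtain ⟨i, hi, j, hj, hjn, hpos⟩ := (comps_conn hA).2 (A ∩ B) Finset.inter_subset_left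
    ⟨x, Finset.mem_inter.2 ⟨hxA, hxB⟩⟩ hne
  have hjB : j ∉ B := fun h1 => hjn (Finset.mem_inter.2 ⟨hj, h1⟩)
  have h1 := comps_sep hB i (Finset.mem_inter.1 hi).2 j (comps_subset hA hj) hjB
  omega

theorem comps_disjoint {a : I → I → ℕ} (hs : ∀ i j, a i j = a j i) {N A B : Finset I}
    (hA : A ∈ comps a N) (hB : B ∈ comps a N) (hAB : A ≠ B) : Disjoint A B := by
  rw [Finset.disjoint_left]
  intro x hxA hxB
  exact hAB (Finset.Subset.antisymm (AE1_comps_sub hA hB hxA hxB) (AE1_comps_sub hB hA hxB hxA))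

theorem comps_nonadj {a : I → I → ℕ} (hs : ∀ i j, a i j = a j i) {N A B : Finset I}
    (hA : A ∈ comps a N) (hB : B ∈ comps a N) (hAB : A ≠ B) : ∀ i ∈ A, ∀ j ∈ B, a i j = 0 := by
  intro i hi j hj
  exact comps_sep hA i hi j (comps_subset hB hj)
    (fun h1 => Finset.disjoint_left.1 (comps_disjoint hs hA hB hAB) h1 hj)

theorem comps_of_conn {a : I → I → ℕ} {N : Finset I} (hc : ConnS a N) : comps a N = {N} := by
  classical
  ext A
  rw [Finset.mem_singleton]
  constructor
  · intro hA
    by_contra hne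
    obtain ⟨i, hi, j, hj, hjA, hpos⟩ := hc.2 A (comps_subset hA) (comps_conn hA).1 hne
    have h1 := comps_sep hA i hi j hj hjA
    omega
  · rintro rfl
    unfold comps
    rw [Finset.mem_filter, Finset.mem_powerset]
    exact ⟨Finset.Subset.refl _, hc, fun i _ j hj hjA => absurd hj hjA⟩

/-- more generally, every component of `R ∖ M` is adjacent to `M`. -/
theorem comps_adj_set {a : I → I → ℕ} (hs : ∀ i j, a i j = a j i) {R M : Finset I}
    (hc : ConnS a R) (hM : M ⊆ R) (hne : M.Nonempty) (A : Finset I) (hA : A ∈ comps a (R \ M)) :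
    ∃ y ∈ A, ∃ x ∈ M, 0 < a x y := by
  have hsub := comps_subset hA
  have hne' : A ≠ R := by
    intro h1
    obtain ⟨x, hx⟩ := hne
    have h2 := hsub (h1 ▸ hM hx)
    exact (Finset.mem_sdiff.1 h2).2 hx
  obtain ⟨i, hi, j, hj, hjA, hpos⟩ := hc.2 A (hsub.trans Finset.sdiff_subset)
    (comps_conn hA).1 hne'
  have hjM : j ∈ M := by
    by_contra hjM
    have h1 := comps_sep hA i hi j (Finset.mem_sdiff.2 ⟨hj, hjM⟩) hjA
    omega
  exact ⟨i, hi, j, hjM, by rw [hs]; exact hpos⟩

end

end Pool.Agent.H27.KAC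

end

section

/-!
KAC ADE, module AE2: chip firing.

`fire_from_above`: induction on `∑ d`.  If `d ≠ 0`, then `0 < dᵀ C d`, so there is `x ∈ N` with `d x > 0` and `(C d)_x ≥ 1`; hence
`ν x ≥ e x + 1 ≥ θ`; fire `x`.
`fire_down`: fire as long as some `ν x ≥ θ`; termination: with `s = solN 1` the quantity `∑ s_x ν_x` decreases by one, while
all `ν_x` stay `≥ min (initial value) 0` (here `θ ≥ 2` is used).
`fire_large`: round `solN (p ν - b)` down, `b = θ + 2 |I| + 2` (constant vector): the error `C (x - ⌊x⌋)` is bounded by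
`2 + |I|` in absolute value (all entries of `C_N` are `2` or `0, -1` by `FinT.adj_le_one`).
-/

set_option autoImplicit false

namespace Pool.Agent.H27.KAC

open scoped BigOperators

section

variable {I : Type} [Fintype I] [DecidableEq I]

/-- the configuration only matters on `N`. -/
theorem FireTo.congr {a : I → I → ℕ} {N : Finset I} {θ : ℤ} {ν ν' : I → ℤ} {v : I → ℕ}
    (h : FireTo a N θ ν v) (hν : ∀ i ∈ N, ν i = ν' i) : FireTo a N θ ν' v := by
  induction h generalizing ν' with
  | nil ν => exact FireTo.nil ν'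
  | cons ν v x hx h _ ih =>
    refine FireTo.cons ν' v x hx (by rw [← hν x hx]; exact h) (ih ?_)
    intro i hi
    simp only [hν i hi]

theorem FireTo.supp {a : I → I → ℕ} {N : Finset I} {θ : ℤ} {ν : I → ℤ} {v : I → ℕ}
    (h : FireTo a N θ ν v) : ∀ i, i ∉ N → v i = 0 := by
  induction h with
  | nil ν => intro i _; rfl
  | cons ν v x hx h _ ih =>
    intro i hi
    have hne : i ≠ x := fun e => hi (e ▸ hx)
    simp [ih i hi, hne]

/-- a smaller threshold is allowed. -/
theorem FireTo.mono {a : I → I → ℕ} {N : Finset I} {θ θ' : ℤ} {ν : I → ℤ} {v : I → ℕ}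
    (h : FireTo a N θ ν v) (hθ : θ' ≤ θ) : FireTo a N θ' ν v := by
  induction h with
  | nil ν => exact FireTo.nil ν
  | cons ν v x hx h _ ih => exact FireTo.cons ν v x hx (hθ.trans h) ih

theorem fire_from_above {a : I → I → ℕ} (hs : ∀ i j, a i j = a j i) {N : Finset I} (h : FinT a N)
    (θ : ℤ) (e : I → ℤ) (d : I → ℕ) (hd : ∀ i, i ∉ N → d i = 0) (he : ∀ x ∈ N, θ ≤ e x + 1) :
    FireTo a N θ (fun i => e i + ∑ j ∈ N, cart a i j * (d j : ℤ)) d := by
  obtain ⟨n, hn⟩ : ∃ n : ℕ, ∑ i ∈ N, d i = n := ⟨_, rfl⟩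
  induction n generalizing d with
  | zero =>
    have h0 : d = 0 := by
      funext i
      by_cases hi : i ∈ N
      · exact (Finset.sum_eq_zero_iff.1 hn) i hi
      · exact hd i hi
    rw [h0]
    exact FireTo.nil _
  | succ n ih =>
    have hne : ∃ i ∈ N, d i ≠ 0 := by
      by_contra hcon
      push Not at hcon
      rw [Finset.sum_eq_zero hcon] at hn
      omega
    obtain ⟨i0, hi0, hdi0⟩ := hne
    have hp := h.pos (fun i => (d i : ℚ)) ⟨i0, hi0, by exact_mod_cast hdi0⟩
    obtain ⟨x, hx, hxp⟩ : ∃ x ∈ N, 0 < (d x : ℚ) * cqN a N (fun i => (d i : ℚ)) x := by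
      by_contra hcon
      push Not at hcon
      exact absurd (Finset.sum_nonpos hcon) (not_le.2 hp)
    have hdx : (0 : ℚ) < d x := by
      rcases Nat.eq_zero_or_pos (d x) with h0 | h0
      · rw [h0] at hxp; simp at hxp
      · exact_mod_cast h0
    have hcx : 0 < cqN a N (fun i => (d i : ℚ)) x := by
      exact (pos_iff_pos_of_mul_pos hxp).1 hdx
    have hcZ : (0 : ℤ) < ∑ j ∈ N, cart a x j * (d j : ℤ) := by
      have : ((∑ j ∈ N, cart a x j * (d j : ℤ) : ℤ) : ℚ) = cqN a N (fun i => (d i : ℚ)) x := by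
        unfold cqN
        push_cast
        rfl
      rw [← this] at hcx
      exact_mod_cast hcx
    have hd1 : 1 ≤ d x := by exact_mod_cast hdx
    obtain ⟨d', hd'⟩ : ∃ d' : I → ℕ, d = d' + Pi.single x 1 := by
      refine ⟨fun i => d i - (Pi.single x 1 : I → ℕ) i, ?_⟩
      funext i
      by_cases hix : i = x
      · subst hix
        simp only [Pi.add_apply, Pi.single_eq_same]
        omega
      · simp [hix]
    rw [hd'] 
    have hsupp : ∀ i, i ∉ N → d' i = 0 := by
      intro i hi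
      have := hd i hi
      rw [hd'] at this
      simp only [Pi.add_apply] at this
      omega
    have hsum : ∑ i ∈ N, d' i = n := by
      have h1 : ∑ i ∈ N, d i = ∑ i ∈ N, d' i + 1 := by
        rw [hd']
        simp only [Pi.add_apply, Finset.sum_add_distrib]
        congr 1
        rw [Finset.sum_eq_single x]
        · simp
        · intro b _ hb
          simp [hb]
        · intro hx'; exact absurd hx hx'
      omega
    have key := ih d' hsupp hsum
    refine FireTo.cons _ d' x hx ?_ ?_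
    · rw [hd'] at hcZ
      have := he x hx
      omega
    · refine key.congr ?_
      intro i _
      have h2 : ∑ j ∈ N, cart a i j * (((d' + Pi.single x 1 : I → ℕ) j : ℕ) : ℤ)
          = ∑ j ∈ N, cart a i j * (d' j : ℤ) + cart a i x := by
        have : ∀ j ∈ N, cart a i j * (((d' + Pi.single x 1 : I → ℕ) j : ℕ) : ℤ)
            = cart a i j * (d' j : ℤ) + cart a i j * (((Pi.single x 1 : I → ℕ) j : ℕ) : ℤ) := by
          intro j _
          simp only [Pi.add_apply, Nat.cast_add]
          ring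
        rw [Finset.sum_congr rfl this, Finset.sum_add_distrib]
        congr 1
        rw [Finset.sum_eq_single x]
        · simp
        · intro b _ hb
          simp [hb]
        · intro hx'; exact absurd hx hx'
      rw [h2]
      ring

theorem AE2_cart_symm {a : I → I → ℕ} (hs : ∀ i j, a i j = a j i) (i j : I) :
    cart a i j = cart a j i := by
  unfold cart
  rw [hs i j]
  by_cases h : i = j
  · subst h; rfl
  · rw [if_neg h, if_neg (Ne.symm h)]

theorem AE2_cart_off {a : I → I → ℕ} {i j : I} (h : i ≠ j) : cart a i j = -(a i j : ℤ) := by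
  unfold cart
  rw [if_neg h]
  ring

/-- the potential drops by one. -/
theorem AE2_pot {a : I → I → ℕ} (hs : ∀ i j, a i j = a j i) {N : Finset I} (h : FinT a N)
    (ν : I → ℤ) (x : I) (hx : x ∈ N) (m : ℤ) :
    ∑ i ∈ N, solN a N (fun _ => 1) i * (((ν i - cart a i x : ℤ) : ℚ) - m) =
      ∑ i ∈ N, solN a N (fun _ => 1) i * ((ν i : ℚ) - m) - 1 := by
  have h1 := solN_spec hs h (fun _ => (1 : ℚ)) x hx
  unfold cqN at h1
  have h2 : ∑ i ∈ N, solN a N (fun _ => 1) i * (cart a i x : ℚ) = 1 := by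
    refine Eq.trans (Finset.sum_congr rfl ?_) h1
    intro i _
    rw [AE2_cart_symm hs i x]
    ring
  have h3 : ∀ i ∈ N, solN a N (fun _ => 1) i * (((ν i - cart a i x : ℤ) : ℚ) - m) =
      solN a N (fun _ => 1) i * ((ν i : ℚ) - m) - solN a N (fun _ => 1) i * (cart a i x : ℚ) := by
    intro i _
    push_cast
    ring
  rw [Finset.sum_congr rfl h3, Finset.sum_sub_distrib, h2]

theorem AE2_down_aux {a : I → I → ℕ} (hs : ∀ i j, a i j = a j i) {N : Finset I} (h : FinT a N)
    (θ : ℤ) (hθ : 2 ≤ θ) (m : ℤ) (hm : m ≤ 0) (n : ℕ) :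
    ∀ ν : I → ℤ, (∀ x ∈ N, m ≤ ν x) →
      ∑ i ∈ N, solN a N (fun _ => 1) i * ((ν i : ℚ) - m) ≤ n →
      ∃ v : I → ℕ, FireTo a N θ ν v ∧
        ∀ x ∈ N, ν x - ∑ j ∈ N, cart a x j * (v j : ℤ) < θ := by
  have hfire : ∀ ν : I → ℤ, (∀ x ∈ N, m ≤ ν x) → ∀ x ∈ N, θ ≤ ν x →
      ∀ y ∈ N, m ≤ ν y - cart a y x := by
    intro ν hν x hx hθx y hy
    by_cases hyx : y = x
    · subst hyx
      rw [cart_self h y hy]
      omega
    · rw [AE2_cart_off hyx]
      have := hν y hy
      omega
  have hs0 : ∀ i, 0 ≤ solN a N (fun _ => (1 : ℚ)) i :=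
    fun i => solN_nonneg hs h _ (fun _ _ => zero_le_one) i
  induction n with
  | zero =>
    intro ν hν hsum
    refine ⟨0, FireTo.nil ν, ?_⟩
    intro x hx
    simp only [Pi.zero_apply, Nat.cast_zero, mul_zero, Finset.sum_const_zero, sub_zero]
    by_contra hcon
    push Not at hcon
    have h1 := AE2_pot hs h ν x hx m
    have h2 : 0 ≤ ∑ i ∈ N, solN a N (fun _ => 1) i * (((ν i - cart a i x : ℤ) : ℚ) - m) := by
      refine Finset.sum_nonneg ?_
      intro i hi
      refine mul_nonneg (hs0 i) ?_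
      have := hfire ν hν x hx hcon i hi
      have h3 : (m : ℚ) ≤ ((ν i - cart a i x : ℤ) : ℚ) := by exact_mod_cast this
      linarith
    rw [h1] at h2
    push_cast at hsum
    linarith
  | succ n ih =>
    intro ν hν hsum
    by_cases hall : ∀ x ∈ N, ν x < θ
    · refine ⟨0, FireTo.nil ν, ?_⟩
      intro x hx
      simp only [Pi.zero_apply, Nat.cast_zero, mul_zero, Finset.sum_const_zero, sub_zero]
      exact hall x hx
    · push Not at hall
      obtain ⟨x, hx, hθx⟩ := hall
      have h1 := AE2_pot hs h ν x hx m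
      obtain ⟨v, hv, hv'⟩ := ih (fun i => ν i - cart a i x) (hfire ν hν x hx hθx) (by
        rw [h1]
        push_cast at hsum
        linarith)
      refine ⟨v + Pi.single x 1, FireTo.cons ν v x hx hθx hv, ?_⟩
      intro y hy
      have h2 := hv' y hy
      have h3 : ∑ j ∈ N, cart a y j * (((v + Pi.single x 1 : I → ℕ) j : ℕ) : ℤ)
          = ∑ j ∈ N, cart a y j * (v j : ℤ) + cart a y x := by
        have : ∀ j ∈ N, cart a y j * (((v + Pi.single x 1 : I → ℕ) j : ℕ) : ℤ)
            = cart a y j * (v j : ℤ) + cart a y j * (((Pi.single x 1 : I → ℕ) j : ℕ) : ℤ) := by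
          intro j _
          simp only [Pi.add_apply, Nat.cast_add]
          ring
        rw [Finset.sum_congr rfl this, Finset.sum_add_distrib]
        congr 1
        rw [Finset.sum_eq_single x]
        · simp
        · intro b _ hb
          simp [hb]
        · intro hx'; exact absurd hx hx'
      rw [h3]
      omega

/-- stabilisation. -/
theorem fire_down {a : I → I → ℕ} (hs : ∀ i j, a i j = a j i) {N : Finset I} (h : FinT a N)
    (θ : ℤ) (hθ : 2 ≤ θ) (ν : I → ℤ) :
    ∃ v : I → ℕ, FireTo a N θ ν v ∧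
      (∀ x ∈ N, ν x - ∑ j ∈ N, cart a x j * (v j : ℤ) < θ) ∧
      ∀ x ∈ N, solN a N (fun i => (ν i : ℚ)) x - θ * solN a N (fun _ => 1) x ≤ v x := by
  obtain ⟨m, hm0, hm⟩ : ∃ m : ℤ, m ≤ 0 ∧ ∀ x ∈ N, m ≤ ν x := by
    refine ⟨-∑ x ∈ N, |ν x|, ?_, ?_⟩
    · have : 0 ≤ ∑ x ∈ N, |ν x| := Finset.sum_nonneg (fun _ _ => abs_nonneg _)
      omega
    · intro x hx
      have h1 : |ν x| ≤ ∑ y ∈ N, |ν y| :=
        Finset.single_le_sum (f := fun y => |ν y|) (fun _ _ => abs_nonneg _) hx
      have h2 := neg_abs_le (ν x)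
      omega
  obtain ⟨n, hn⟩ := exists_nat_ge (∑ i ∈ N, solN a N (fun _ => 1) i * ((ν i : ℚ) - m))
  obtain ⟨v, hv, hv'⟩ := AE2_down_aux hs h θ hθ m hm0 n ν hm hn
  refine ⟨v, hv, hv', ?_⟩
  intro x hx
  have h1 : ∀ i ∈ N, (ν i : ℚ) + -θ * 1 ≤ cqN a N (fun j => (v j : ℚ)) i := by
    intro i hi
    have h2 := hv' i hi
    have h3 : ((∑ j ∈ N, cart a i j * (v j : ℤ) : ℤ) : ℚ) = cqN a N (fun j => (v j : ℚ)) i := by
      unfold cqN
      push_cast
      rfl
    rw [← h3]
    have h4 : ν i - θ ≤ ∑ j ∈ N, cart a i j * (v j : ℤ) := by omega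
    have h5 : ((ν i - θ : ℤ) : ℚ) ≤ ((∑ j ∈ N, cart a i j * (v j : ℤ) : ℤ) : ℚ) := by
      exact_mod_cast h4
    push_cast at h5 ⊢
    linarith
  have h2 := solN_mono hs h _ _ h1 x
  rw [solN_cqN hs h _ x hx] at h2
  have h3 : solN a N (fun j => (ν j : ℚ) + (fun _ => -(θ : ℚ) * 1) j) x =
      solN a N (fun j => (ν j : ℚ)) x + solN a N (fun _ => -(θ : ℚ) * 1) x :=
    solN_add hs h _ _ x
  have h4 : solN a N (fun _ => -(θ : ℚ) * 1) x = -(θ : ℚ) * solN a N (fun _ => 1) x :=
    solN_smul hs h _ _ x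
  simp only at h3
  rw [h3, h4] at h2
  linarith

/-- firing a large multiple of `ν` and of `ν' = ν - C_N v` to a common configuration. -/
theorem fire_large {a : I → I → ℕ} (hs : ∀ i j, a i j = a j i) {N : Finset I} (h : FinT a N)
    (θ : ℤ) (hθ : 2 ≤ θ) (ν : I → ℤ) (v : I → ℤ) (hv : ∀ i, i ∉ N → v i = 0)
    (h1 : ∀ x ∈ N, 0 < solN a N (fun i => (ν i : ℚ)) x)
    (h2 : ∀ x ∈ N, (v x : ℚ) < solN a N (fun i => (ν i : ℚ)) x) :
    ∃ P : ℕ, ∀ p : ℕ, P ≤ p → ∃ d d' : I → ℕ,
      (∀ i, (d' i : ℤ) = (d i : ℤ) - p * v i) ∧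
      (∀ i, i ∉ N → d i = 0) ∧
      FireTo a N θ (fun i => (p : ℤ) * ν i) d ∧
      FireTo a N θ (fun i => (p : ℤ) * (ν i - ∑ j ∈ N, cart a i j * v j)) d' ∧
      ∀ x ∈ N, θ ≤ (p : ℤ) * ν x - ∑ j ∈ N, cart a x j * (d j : ℤ) := by
  set s : I → ℚ := solN a N (fun _ => 1) with hsdef
  set w : I → ℚ := solN a N (fun i => (ν i : ℚ)) with hwdef
  have hs0 : ∀ i, 0 ≤ s i := fun i => solN_nonneg hs h _ (fun _ _ => zero_le_one) i
  set b : ℤ := θ + Fintype.card I with hbdef
  -- the bound on p
  have hP : ∀ x ∈ N, ∃ P : ℕ, ∀ p : ℕ, P ≤ p → (b : ℚ) * s x + 1 ≤ p * w x ∧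
      (b : ℚ) * s x + 1 ≤ p * (w x - v x) := by
    intro x hx
    obtain ⟨n1, hn1⟩ := exists_nat_ge (((b : ℚ) * s x + 1) / w x)
    obtain ⟨n2, hn2⟩ := exists_nat_ge (((b : ℚ) * s x + 1) / (w x - v x))
    refine ⟨max n1 n2, fun p hp => ⟨?_, ?_⟩⟩
    · have hw := h1 x hx
      have h3 : ((b : ℚ) * s x + 1) / w x ≤ p :=
        hn1.trans (by exact_mod_cast (le_max_left _ _).trans hp)
      rwa [div_le_iff₀ hw] at h3
    · have hw : 0 < w x - v x := sub_pos.2 (h2 x hx)
      have h3 : ((b : ℚ) * s x + 1) / (w x - v x) ≤ p :=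
        hn2.trans (by exact_mod_cast (le_max_right _ _).trans hp)
      rwa [div_le_iff₀ hw] at h3
  choose! Pf hPf using hP
  refine ⟨∑ x ∈ N, Pf x, ?_⟩
  intro p hp
  have hpx : ∀ x ∈ N, Pf x ≤ p := by
    intro x hx
    exact (Finset.single_le_sum (f := Pf) (fun _ _ => Nat.zero_le _) hx).trans hp
  set y : I → ℚ := fun i => p * w i - b * s i with hydef
  have hy1 : ∀ x ∈ N, 1 ≤ y x := by
    intro x hx
    have := (hPf x hx p (hpx x hx)).1
    simp only [hydef]
    linarith
  have hy2 : ∀ x ∈ N, 1 + p * (v x : ℚ) ≤ y x := by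
    intro x hx
    have := (hPf x hx p (hpx x hx)).2
    simp only [hydef]
    linarith
  have hyout : ∀ i, i ∉ N → y i = 0 := by
    intro i hi
    simp only [hydef, hwdef, hsdef, solN_out a N _ i hi]
    ring
  -- the rounded vector
  have hf0 : ∀ i, 0 ≤ ⌊y i⌋ := by
    intro i
    by_cases hi : i ∈ N
    · exact Int.floor_nonneg.2 (zero_le_one.trans (hy1 i hi))
    · rw [hyout i hi]; simp
  have hf1 : ∀ i, 0 ≤ ⌊y i⌋ - p * v i := by
    intro i
    by_cases hi : i ∈ N
    · have h3 : ((p * v i : ℤ) : ℚ) ≤ y i := by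
        have := hy2 i hi
        push_cast
        linarith
      have := Int.le_floor.2 h3
      omega
    · rw [hyout i hi, hv i hi]; simp
  obtain ⟨d, hd⟩ : ∃ d : I → ℕ, ∀ i, (d i : ℤ) = ⌊y i⌋ :=
    ⟨fun i => ⌊y i⌋.toNat, fun i => Int.toNat_of_nonneg (hf0 i)⟩
  obtain ⟨d', hd'⟩ : ∃ d' : I → ℕ, ∀ i, (d' i : ℤ) = ⌊y i⌋ - p * v i :=
    ⟨fun i => (⌊y i⌋ - p * v i).toNat, fun i => Int.toNat_of_nonneg (hf1 i)⟩
  have hdout : ∀ i, i ∉ N → d i = 0 := by
    intro i hi
    have := hd i
    rw [hyout i hi] at this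
    simpa using this
  have hd'out : ∀ i, i ∉ N → d' i = 0 := by
    intro i hi
    have := hd' i
    rw [hyout i hi, hv i hi] at this
    simpa using this
  -- the common configuration
  have hcy : ∀ x ∈ N, cqN a N y x = p * (ν x : ℚ) - b := by
    intro x hx
    have e1 : cqN a N w x = ν x := solN_spec hs h _ x hx
    have e2 : cqN a N s x = 1 := solN_spec hs h _ x hx
    unfold cqN at e1 e2 ⊢
    have e3 : ∀ j ∈ N, (cart a x j : ℚ) * y j =
        p * ((cart a x j : ℚ) * w j) - b * ((cart a x j : ℚ) * s j) := by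
      intro j _
      simp only [hydef]
      ring
    rw [Finset.sum_congr rfl e3, Finset.sum_sub_distrib, ← Finset.mul_sum, ← Finset.mul_sum,
      e1, e2]
    ring
  have hfr : ∀ x ∈ N, -(Fintype.card I : ℚ) ≤ cqN a N (fun i => Int.fract (y i)) x := by
    intro x hx
    unfold cqN
    have e1 : ∀ j ∈ N, (-1 : ℚ) ≤ (cart a x j : ℚ) * Int.fract (y j) := by
      intro j hj
      have f0 := Int.fract_nonneg (y j)
      have f1 := (Int.fract_lt_one (y j)).le
      by_cases hxj : x = j
      · subst hxj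
        rw [cart_self h x hx]
        push_cast
        linarith
      · rw [AE2_cart_off hxj]
        have h3 := h.adj_le_one hs x j hx hj hxj
        have h4 : (a x j : ℚ) ≤ 1 := by exact_mod_cast h3
        have h5 : (0 : ℚ) ≤ a x j := Nat.cast_nonneg _
        push_cast
        nlinarith
    have e2 : ∑ j ∈ N, (-1 : ℚ) ≤ ∑ j ∈ N, (cart a x j : ℚ) * Int.fract (y j) :=
      Finset.sum_le_sum e1
    rw [Finset.sum_const, nsmul_eq_mul] at e2
    have e3 : (N.card : ℚ) ≤ Fintype.card I := by exact_mod_cast Finset.card_le_univ N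
    linarith
  have hfin : ∀ x ∈ N, θ ≤ (p : ℤ) * ν x - ∑ j ∈ N, cart a x j * (d j : ℤ) := by
    intro x hx
    have e1 : ((∑ j ∈ N, cart a x j * (d j : ℤ) : ℤ) : ℚ) =
        cqN a N y x - cqN a N (fun i => Int.fract (y i)) x := by
      unfold cqN
      rw [← Finset.sum_sub_distrib]
      push_cast
      refine Finset.sum_congr rfl ?_
      intro j _
      have e2 : ((d j : ℕ) : ℚ) = y j - Int.fract (y j) := by
        have e3 : ((d j : ℕ) : ℚ) = ((⌊y j⌋ : ℤ) : ℚ) := by
          have := hd j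
          rw [← this]
          simp
        rw [e3]
        have := Int.floor_add_fract (y j)
        linarith
      rw [e2]
      ring
    have e2 := hfr x hx
    have e3 := hcy x hx
    have e4 : (θ : ℚ) ≤ (((p : ℤ) * ν x - ∑ j ∈ N, cart a x j * (d j : ℤ) : ℤ) : ℚ) := by
      rw [Int.cast_sub, e1, e3]
      simp only [hbdef]
      push_cast
      linarith
    exact_mod_cast e4
  refine ⟨d, d', ?_, hdout, ?_, ?_, hfin⟩
  · intro i
    rw [hd' i, hd i]
  · have key := fire_from_above hs h θ (fun i => (p : ℤ) * ν i - ∑ j ∈ N, cart a i j * (d j : ℤ))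
      d hdout (fun x hx => (hfin x hx).trans (by simp))
    refine key.congr ?_
    intro i _
    simp
  · have key := fire_from_above hs h θ (fun i => (p : ℤ) * ν i - ∑ j ∈ N, cart a i j * (d j : ℤ))
      d' hd'out (fun x hx => (hfin x hx).trans (by simp))
    refine key.congr ?_
    intro i _
    have e1 : ∀ j ∈ N, cart a i j * (d' j : ℤ) =
        cart a i j * (d j : ℤ) - p * (cart a i j * v j) := by
      intro j _
      rw [hd' j, hd j]
      ring
    rw [Finset.sum_congr rfl e1, Finset.sum_sub_distrib, ← Finset.mul_sum]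
    ring

end

end Pool.Agent.H27.KAC

end
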