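import Pool.Agent.H16.TKA.M12
import Pool.Agent.H16.TKA.M19

/-! The parts of this file: H27.KAC.KQVan, H27.KAC.KN1, H27.KAC.KN2, H41.KA.AD4, H41.KA.AE3_1, H41.KA.AE4, H41.KA.AG1b, H41.KA.AG2, H41.KA.AG6, H46.KA.B4. -/

section

/-!
KAC module KQVan: regularity of the one-forms and the general vanishing lemma.

`x` is a vertex without loops.
* `xv_reg`: for `i ≠ x` the form `x_{ik}` is regular in `t_x` (`Fil_dD_gain` with r = 0).
* `xv_pole`: `U_{xk} x_{xk}` is regular of degree `k` (`Fil_dD_gain` with r = k for `l = x`).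
* `vanish_general`: all columns are `r_j + g_j u + h_j v` with `u = x_{x,k}`, `v = x_{x,k-1}` and
  regular `r_j`.  Bordered determinant trick: with two extra rows and columns,
  `det (R + u g^T + v h^T) = det [[R, -u, -v], [g^T, 1, 0], [h^T, 0, 1]]`
  (`Matrix.det_fromBlocks_one₂₂`), so
  `U_{xk}^b U_{x,k-1}^c det(...)` is the determinant of a matrix with regular columns
  (multiply the column of `u` by `U_{xk}` if b ≥ 1, the column of `v` by `U_{x,k-1}` if c ≥ 1; if
  b = 0 then g = 0 and the column is not needed, similarly c).  Alternatively expand the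
  determinant multilinearly and use that a determinant with two equal columns vanishes:
  `det (R + u g^T) = det R + ∑_j g_j det (R with column j replaced by u)`.
  The result lies in `Fil (k b + (k-1) c - 1)`, so its coefficient at `γ` vanishes if
  `(Cγ)_x = k b + (k-1) c`.
-/

namespace Pool.Agent.H27.KAC

open scoped BigOperators
open MvPowerSeries

variable {I : Type} [Fintype I] [DecidableEq I]

theorem uS_fil_ne (a : I → I → ℕ) (hs : ∀ i j, a i j = a j i) (x : I) (hx : a x x = 0) (j : I)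
    (hj : j ≠ x) (k : ℕ) : Fil a x 0 (uS a j k) := (laurent_main a hs x hx k).1 j hj

theorem uS_fil_self (a : I → I → ℕ) (hs : ∀ i j, a i j = a j i) (x : I) (hx : a x x = 0) (k : ℕ) :
    Fil a x k (uS a x k) := (laurent_main a hs x hx k).2

theorem uu_zpow_fil (a : I → I → ℕ) (hs : ∀ i j, a i j = a j i) (x : I) (hx : a x x = 0) (j : I)
    (hj : j ≠ x) (k : ℕ) (n : ℤ) :
    Fil a x 0 (((uu a j k) ^ n : (MvPowerSeries I ℚ)ˣ) : MvPowerSeries I ℚ) := by
  apply Fil_zpow
  · rw [uu_coe]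
    exact uS_fil_ne a hs x hx j hj k
  · rw [uu_coe]
    exact uS_const a j k

theorem xv_reg (a : I → I → ℕ) (hs : ∀ i j, a i j = a j i) (x : I) (hx : a x x = 0) (i : I)
    (hi : i ≠ x) (k : ℕ) : VReg a x 0 (xv a i k) := by
  have hu : Fil a x 0 ((uu a i k : (MvPowerSeries I ℚ)ˣ) : MvPowerSeries I ℚ) := by
    rw [uu_coe]
    exact uS_fil_ne a hs x hx i hi k
  have hc : constantCoeff ((uu a i k : (MvPowerSeries I ℚ)ˣ) : MvPowerSeries I ℚ) = 1 := by
    rw [uu_coe]
    exact uS_const a i k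
  have hv := Fil_inv hu hc
  refine ⟨fun l _ => ?_, ?_⟩
  · unfold xv dlg
    refine Fil.add ?_ ?_
    · split_ifs
      · exact Fil_natCast a x k
      · exact Fil_zero a x 0
    · have h := (Fil_dD hu l).mul hv
      rw [add_zero] at h
      exact h
  · unfold xv dlg
    rw [if_neg hi, zero_add]
    have h0 := Fil_dD_gain hu
    rw [Int.cast_zero, zero_mul, zero_add] at h0
    have h := h0.mul hv
    rw [add_zero] at h
    exact h

theorem xv_pole (a : I → I → ℕ) (hs : ∀ i j, a i j = a j i) (x : I) (hx : a x x = 0) (k : ℕ) :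
    VReg a x k (fun l => uS a x k * xv a x k l) := by
  have hu := uS_fil_self a hs x hx k
  have key : ∀ l, uS a x k * xv a x k l =
      (if x = l then (k : MvPowerSeries I ℚ) else 0) * uS a x k + dD a l (uS a x k) := by
    intro l
    have h1 : uS a x k * (((uu a x k)⁻¹ : (MvPowerSeries I ℚ)ˣ) : MvPowerSeries I ℚ) = 1 := by
      rw [← uu_coe, Units.mul_inv]
    unfold xv dlg
    rw [uu_coe]
    linear_combination (dD a l (uS a x k)) * h1
  refine ⟨fun l hl => ?_, ?_⟩
  · show Fil a x k (uS a x k * xv a x k l)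
    rw [key l, if_neg (Ne.symm hl), zero_mul, zero_add]
    exact Fil_dD hu l
  · show Fil a x ((k : ℤ) - 1) (uS a x k * xv a x k x)
    rw [key x, if_pos rfl]
    have h := Fil_dD_gain hu
    rw [Int.cast_natCast] at h
    exact h

end Pool.Agent.H27.KAC

end

section

/-!
KAC module KN1: expansion of `EV` by one level, vanishing.

* `EV_expand`: for all `i`: `U_{i,k+2}^(-P_i) = U_{i,k+1}^(-2P_i) U_{ik}^(P_i) (1 - η_i)^(-P_i)`, `η_i = etaS a i (k+1)`
  (`uS_eta`), `(1-η)^(-P) = ∑_m C(P-1+m, m) η^m`; `η_i^m` is divisible by `Y_i^((k+1)m)`, so only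
  `m_i ≤ γ_i/(k+1)` contribute; `η_i^(m_i) = Y_i^((k+1) m_i) ∏_l U_{l,k+1}^(a_il m_i) U_{i,k+1}^(-2 m_i)`.
  The total exponent of `U_{i,k+1}` is `p_i - 2P_i - ∑_j C_{ij} m_j`.
  (One may treat the vertices one after the other, or expand the finite product; finite version of the
  binomial series modulo `η^N` as in `KQRaw1`.)
* `EV_vanish`: `x` loop-free, `P_x ≤ 0 ≤ p_x`: the series lies in `Fil a x (κ |P_x| + (κ-1) p_x)`, which equals
  `(Cγ)_x - 1`.
-/

namespace Pool.Agent.H27.KAC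

open scoped BigOperators
open MvPowerSeries

variable {I : Type} [Fintype I] [DecidableEq I]

private theorem KN1_S {R : Type} [CommRing R] (η : R) (P N : ℕ) :
    (1 - η) * ∑ m ∈ Finset.range N, (((P + 1 + m).choose (P + 1) : ℕ) : R) * η ^ m =
      ∑ m ∈ Finset.range N, (((P + m).choose P : ℕ) : R) * η ^ m -
        (((P + N).choose (P + 1) : ℕ) : R) * η ^ N := by
  induction N with
  | zero => simp
  | succ N ih =>
    rw [Finset.sum_range_succ, mul_add, ih, Finset.sum_range_succ]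
    have h1 : (P + 1 + N).choose (P + 1) = (P + N).choose P + (P + N).choose (P + 1) := by
      rw [show P + 1 + N = (P + N) + 1 by ring]
      exact Nat.choose_succ_succ _ _
    have h2 : (P + (N + 1)).choose (P + 1) = (P + N).choose P + (P + N).choose (P + 1) := by
      rw [show P + (N + 1) = (P + N) + 1 by ring]
      exact Nat.choose_succ_succ _ _
    rw [h1, h2]
    push_cast
    ring

private theorem KN1_Q {R : Type} [CommRing R] (η : R) (P N : ℕ) :
    ∃ Q : R, (1 - η) ^ (P + 1) * ∑ m ∈ Finset.range N, (((P + m).choose P : ℕ) : R) * η ^ m =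
      1 - η ^ N * Q := by
  induction P with
  | zero =>
    refine ⟨1, ?_⟩
    simp only [zero_add, Nat.choose_zero_right, Nat.cast_one, one_mul, pow_one, mul_one]
    exact mul_neg_geom_sum η N
  | succ P ih =>
    obtain ⟨Q, hQ⟩ := ih
    refine ⟨Q + (1 - η) ^ (P + 1) * (((P + N).choose (P + 1) : ℕ) : R), ?_⟩
    rw [pow_succ (1 - η) (P + 1), mul_assoc, KN1_S, mul_sub, hQ]
    ring

private theorem KN1_U {R : Type} [CommRing R] (η : R) (w : Rˣ) (hw : (w : R) = 1 - η)
    (P N : ℕ) :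
    ∃ Q : R, ((w ^ (-((P : ℤ) + 1)) : Rˣ) : R) =
      ∑ m ∈ Finset.range N, (((P + m).choose P : ℕ) : R) * η ^ m + η ^ N * Q := by
  obtain ⟨Q, hQ⟩ := KN1_Q η P N
  have h1 : ((w ^ (-((P : ℤ) + 1)) : Rˣ) : R) * (1 - η) ^ (P + 1) = 1 := by
    rw [← hw, ← Units.val_pow_eq_pow_val, ← Units.val_mul]
    have h2 : w ^ (-((P : ℤ) + 1)) * w ^ (P + 1) = 1 := by
      rw [← zpow_natCast w (P + 1), ← zpow_add]
      push_cast
      rw [neg_add_cancel, zpow_zero]
    rw [h2, Units.val_one]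
  refine ⟨Q * ((w ^ (-((P : ℤ) + 1)) : Rˣ) : R), ?_⟩
  linear_combination (-((w ^ (-((P : ℤ) + 1)) : Rˣ) : R)) * hQ +
    (∑ m ∈ Finset.range N, (((P + m).choose P : ℕ) : R) * η ^ m) * h1

/-- the ideal of the power series whose coefficients at all `β ≤ γ` vanish. -/
private noncomputable def KN1_J (γ : I →₀ ℕ) : Ideal (MvPowerSeries I ℚ) where
  carrier := {F | ∀ β ≤ γ, coeff β F = 0}
  zero_mem' := by
    intro β _
    simp
  add_mem' := by
    intro F G hF hG β hβ
    rw [map_add, hF β hβ, hG β hβ, add_zero]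
  smul_mem' := by
    intro G F hF β hβ
    rw [smul_eq_mul, coeff_mul]
    refine Finset.sum_eq_zero fun q hq => ?_
    rw [Finset.HasAntidiagonal.mem_antidiagonal] at hq
    have h : q.2 ≤ γ := le_trans (by rw [← hq]; exact le_add_self) hβ
    rw [hF q.2 h, mul_zero]

omit [Fintype I] in
private theorem KN1_mem (γ : I →₀ ℕ) (F : MvPowerSeries I ℚ) :
    F ∈ KN1_J γ ↔ ∀ β ≤ γ, coeff β F = 0 := Iff.rfl

private theorem KN1_eta_mem (a : I → I → ℕ) (γ : I →₀ ℕ) (j : I) (k : ℕ) (Q : MvPowerSeries I ℚ) :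
    etaS a j (k + 1) ^ (γ j / (k + 1) + 1) * Q ∈ KN1_J γ := by
  have h1 : etaS a j (k + 1) ^ (γ j / (k + 1) + 1) * Q =
      (((cU a j (k + 1) * (uu a j (k + 1)) ^ (-2 : ℤ) : (MvPowerSeries I ℚ)ˣ) :
          MvPowerSeries I ℚ) ^ (γ j / (k + 1) + 1) * Q) *
        (X j : MvPowerSeries I ℚ) ^ ((k + 1) * (γ j / (k + 1) + 1)) := by
    rw [etaS, mul_pow, ← pow_mul]
    ring
  rw [h1]
  apply Ideal.mul_mem_left
  rw [KN1_mem]
  intro β hβ
  rw [X_pow_eq, coeff_monomial, if_neg]
  intro h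
  have h2 : γ j < (k + 1) * (γ j / (k + 1) + 1) := Nat.lt_mul_div_succ (γ j) (Nat.succ_pos k)
  have h3 := hβ j
  rw [h, Finsupp.single_eq_same] at h3
  omega

private theorem KN1_prod (γ : I →₀ ℕ) (S T : I → MvPowerSeries I ℚ) (hT : ∀ i, T i ∈ KN1_J γ)
    (A : MvPowerSeries I ℚ) :
    coeff γ (A * ∏ i, (S i + T i)) = coeff γ (A * ∏ i, S i) := by
  have h1 : ∏ i, (S i + T i) - ∏ i, S i ∈ KN1_J γ := by
    rw [← Ideal.Quotient.eq, map_prod, map_prod]
    refine Finset.prod_congr rfl fun i _ => ?_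
    rw [Ideal.Quotient.eq]
    simpa using hT i
  have h2 := (KN1_J γ).mul_mem_left A h1
  rw [KN1_mem] at h2
  have h3 := h2 γ le_rfl
  rw [mul_sub, map_sub, sub_eq_zero] at h3
  exact h3

private theorem KN1_mono (γ : I →₀ ℕ) (m : I → ℕ) (k : ℕ) (hm : ∀ i, (k + 1) * m i ≤ γ i)
    (F : MvPowerSeries I ℚ) :
    coeff γ ((∏ i, (X i : MvPowerSeries I ℚ) ^ ((k + 1) * m i)) * F) =
      coeff (γ - (k + 1) • toF m) F := by
  have h1 : ∀ s : Finset I, (∏ i ∈ s, (X i : MvPowerSeries I ℚ) ^ ((k + 1) * m i)) =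
      monomial (∑ i ∈ s, Finsupp.single i ((k + 1) * m i)) 1 := by
    intro s
    induction s using Finset.induction_on with
    | empty => simp
    | insert i s his ih =>
      rw [Finset.prod_insert his, Finset.sum_insert his, ih, X_pow_eq, monomial_mul_monomial,
        one_mul]
  have h2 : (∑ i : I, Finsupp.single i ((k + 1) * m i)) = (k + 1) • toF m := by
    ext j
    rw [Finsupp.finsetSum_apply, Finsupp.smul_apply]
    simp [Finsupp.single_apply, toF]
  rw [h1, h2, coeff_monomial_mul, if_pos, one_mul]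
  intro i
  rw [Finsupp.smul_apply]
  simpa [toF] using hm i

/-- the product of `η_i ^ m_i`. -/
private theorem KN1_etaprod (a : I → I → ℕ) (hs : ∀ i j, a i j = a j i) (k : ℕ) (m : I → ℕ) :
    ∏ i, etaS a i (k + 1) ^ m i = (∏ i, (X i : MvPowerSeries I ℚ) ^ ((k + 1) * m i)) *
      ((∏ i, (uu a i (k + 1)) ^ (-∑ j, cart a i j * (m j : ℤ)) : (MvPowerSeries I ℚ)ˣ) :
        MvPowerSeries I ℚ) := by
  have h1 : ∀ i, etaS a i (k + 1) ^ m i = (X i : MvPowerSeries I ℚ) ^ ((k + 1) * m i) *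
      (((cU a i (k + 1) * (uu a i (k + 1)) ^ (-2 : ℤ)) ^ m i : (MvPowerSeries I ℚ)ˣ) :
        MvPowerSeries I ℚ) := by
    intro i
    rw [etaS, mul_pow, ← pow_mul, Units.val_pow_eq_pow_val]
  rw [Finset.prod_congr rfl fun i _ => h1 i, Finset.prod_mul_distrib, ← Units.coe_prod]
  congr 2
  have h2 : ∀ i : I, (cU a i (k + 1) * (uu a i (k + 1)) ^ (-2 : ℤ)) ^ m i =
      (∏ l, (uu a l (k + 1)) ^ ((a i l : ℤ) * (m i : ℤ))) *
        (uu a i (k + 1)) ^ (-2 * (m i : ℤ)) := by
    intro i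
    rw [mul_pow, cU, ← Finset.prod_pow]
    congr 1
    · refine Finset.prod_congr rfl fun l _ => ?_
      rw [← pow_mul, ← zpow_natCast]
      push_cast
      rfl
    · rw [← zpow_natCast, ← zpow_mul]
  rw [Finset.prod_congr rfl fun i _ => h2 i, Finset.prod_mul_distrib, Finset.prod_comm,
    ← Finset.prod_mul_distrib]
  refine Finset.prod_congr rfl fun i _ => ?_
  have h3 : ∀ (u : (MvPowerSeries I ℚ)ˣ) (s : Finset I) (f : I → ℤ),
      ∏ l ∈ s, u ^ (f l) = u ^ (∑ l ∈ s, f l) := by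
    intro u s f
    induction s using Finset.induction_on with
    | empty => simp
    | insert l s hl ih => rw [Finset.prod_insert hl, Finset.sum_insert hl, ih, zpow_add]
  rw [h3, ← zpow_add]
  congr 1
  unfold cart
  simp only [sub_mul, Finset.sum_sub_distrib, ite_mul, zero_mul, Finset.sum_ite_eq,
    Finset.mem_univ, if_true]
  rw [Finset.sum_congr rfl fun l _ => by rw [hs l i]]
  ring

theorem EV_expand (a : I → I → ℕ) (hs : ∀ i j, a i j = a j i) (γ : I →₀ ℕ) (k : ℕ)
    (P p : I → ℤ) (hP : ∀ i, 1 ≤ P i) :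
    EV a γ (k + 2) P p =
      ∑ m ∈ Fintype.piFinset (fun i => Finset.range (γ i / (k + 1) + 1)),
        (∏ i, ((((P i).toNat - 1 + m i).choose (m i) : ℕ) : ℚ)) *
          EV a (γ - (k + 1) • toF m) (k + 1)
            (fun i => 2 * P i - p i + ∑ j, cart a i j * (m j : ℤ)) P := by
  classical
  have hu : ∀ j, IsUnit (1 - etaS a j (k + 1)) := fun j => one_sub_eta_isUnit a j (k + 1) (by omega)
  set w : I → (MvPowerSeries I ℚ)ˣ := fun j => (hu j).unit with hwdef
  have hw : ∀ j, (w j : MvPowerSeries I ℚ) = 1 - etaS a j (k + 1) := fun j => rfl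
  have huu : ∀ j, uu a j (k + 2) = (uu a j (k + 1)) ^ 2 * w j * (uu a j k)⁻¹ := by
    intro j
    rw [eq_mul_inv_iff_mul_eq]
    ext1
    rw [Units.val_mul, Units.val_mul, Units.val_pow_eq_pow_val, uu_coe, uu_coe, uu_coe, hw]
    exact uS_eta a j k
  have hfac : facG a (fun _ => k + 2) P p =
      ((∏ i, ((uu a i (k + 1)) ^ (-(2 * P i - p i)) * (uu a i k) ^ (P i)) :
        (MvPowerSeries I ℚ)ˣ) : MvPowerSeries I ℚ) *
      ∏ i, ((w i ^ (-(P i)) : (MvPowerSeries I ℚ)ˣ) : MvPowerSeries I ℚ) := by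
    rw [facG, ← Units.coe_prod, ← Units.val_mul, ← Finset.prod_mul_distrib]
    congr 1
    refine Finset.prod_congr rfl fun i _ => ?_
    show uu a i (k + 2) ^ (-P i) * uu a i (k + 2 - 1) ^ p i = _
    rw [show k + 2 - 1 = k + 1 from rfl, huu i, mul_zpow, mul_zpow,
      ← zpow_natCast (uu a i (k + 1)) 2, ← zpow_mul, inv_zpow', neg_neg,
      show -(2 * P i - p i) = ((2 : ℕ) : ℤ) * -(P i) + p i by push_cast; ring, zpow_add]
    simp only [mul_comm, mul_left_comm]
  -- expansion of the powers of `w i`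
  have hex : ∀ i, ∃ Q : MvPowerSeries I ℚ,
      ((w i ^ (-(P i)) : (MvPowerSeries I ℚ)ˣ) : MvPowerSeries I ℚ) =
        ∑ m ∈ Finset.range (γ i / (k + 1) + 1),
          ((((P i).toNat - 1 + m).choose m : ℕ) : MvPowerSeries I ℚ) * etaS a i (k + 1) ^ m +
        etaS a i (k + 1) ^ (γ i / (k + 1) + 1) * Q := by
    intro i
    obtain ⟨Q, hQ⟩ := KN1_U (etaS a i (k + 1)) (w i) (hw i) ((P i).toNat - 1) (γ i / (k + 1) + 1)
    refine ⟨Q, ?_⟩
    have h1 : -(P i) = -((((P i).toNat - 1 : ℕ) : ℤ) + 1) := by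
      have := hP i
      omega
    rw [h1, hQ]
    congr 1
    refine Finset.sum_congr rfl fun m _ => ?_
    rw [Nat.choose_symm_add]
  choose Q hQ using hex
  rw [EV, hfac, Finset.prod_congr rfl fun i _ => hQ i,
    KN1_prod γ _ _ (fun i => KN1_eta_mem a γ i k (Q i)), Finset.prod_univ_sum, Finset.mul_sum,
    map_sum]
  refine Finset.sum_congr rfl fun m hm => ?_
  have hm' : ∀ i, (k + 1) * m i ≤ γ i := by
    intro i
    have h1 := Fintype.mem_piFinset.1 hm i
    rw [Finset.mem_range] at h1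
    have h2 : m i ≤ γ i / (k + 1) := by omega
    calc (k + 1) * m i ≤ (k + 1) * (γ i / (k + 1)) := Nat.mul_le_mul_left _ h2
      _ ≤ γ i := Nat.mul_div_le _ _
  have h7 : ∏ i, (((((P i).toNat - 1 + m i).choose (m i) : ℕ) : MvPowerSeries I ℚ) *
      etaS a i (k + 1) ^ m i) =
      (∏ i, ((((P i).toNat - 1 + m i).choose (m i) : ℕ) : MvPowerSeries I ℚ)) *
        ∏ i, etaS a i (k + 1) ^ m i := Finset.prod_mul_distrib
  rw [h7, KN1_etaprod a hs, EV, ← KN1_mono γ m k hm', facG]
  have h4 : ((∏ i, ((uu a i (k + 1)) ^ (-(2 * P i - p i)) * (uu a i k) ^ (P i)) :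
        (MvPowerSeries I ℚ)ˣ) : MvPowerSeries I ℚ) *
      ((∏ i, (uu a i (k + 1)) ^ (-∑ j, cart a i j * (m j : ℤ)) : (MvPowerSeries I ℚ)ˣ) :
        MvPowerSeries I ℚ) =
      ((∏ i, ((uu a i (k + 1)) ^ (-(2 * P i - p i + ∑ j, cart a i j * (m j : ℤ))) *
        (uu a i (k + 1 - 1)) ^ (P i)) : (MvPowerSeries I ℚ)ˣ) : MvPowerSeries I ℚ) := by
    rw [← Units.val_mul, ← Finset.prod_mul_distrib]
    congr 1
    refine Finset.prod_congr rfl fun i _ => ?_
    rw [show k + 1 - 1 = k from rfl, show -(2 * P i - p i + ∑ j, cart a i j * (m j : ℤ)) =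
      -(2 * P i - p i) + -∑ j, cart a i j * (m j : ℤ) by ring, zpow_add, mul_right_comm]
  rw [← h4]
  have h5 : ∀ (F G H : MvPowerSeries I ℚ) (n : I → ℕ),
      coeff γ (F * ((∏ i, ((n i : ℕ) : MvPowerSeries I ℚ)) * (G * H))) =
        (∏ i, ((n i : ℕ) : ℚ)) * coeff γ (G * (F * H)) := by
    intro F G H n
    have h6 : F * ((∏ i, ((n i : ℕ) : MvPowerSeries I ℚ)) * (G * H)) =
        (∏ i, n i) • (G * (F * H)) := by
      rw [nsmul_eq_mul, Nat.cast_prod]
      ring
    rw [h6, map_nsmul, nsmul_eq_mul, Nat.cast_prod]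
  exact h5 _ _ _ _

theorem EV_vanish (a : I → I → ℕ) (hs : ∀ i j, a i j = a j i) (x : I) (hx : a x x = 0)
    (γ : I →₀ ℕ) (κ : ℕ) (hκ : 1 ≤ κ) (P p : I → ℤ) (hP : P x ≤ 0) (hp : 0 ≤ p x)
    (hc : cw a γ x = ((κ : ℤ) - 1) * p x - (κ : ℤ) * P x + 1) :
    EV a γ κ P p = 0 := by
  classical
  rw [EV, facG, Units.coe_prod]
  have hfil : Fil a x (∑ i, if i = x then ((κ : ℤ) * (-(P x)) + ((κ : ℤ) - 1) * p x) else 0)
      (∏ i, (((uu a i κ) ^ (-(P i)) * (uu a i (κ - 1)) ^ (p i) : (MvPowerSeries I ℚ)ˣ) :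
        MvPowerSeries I ℚ)) := by
    apply Fil.prod
    intro i _
    by_cases hi : i = x
    · subst hi
      rw [if_pos rfl, Units.val_mul]
      apply Fil.mul
      · have h1 : -(P i) = (((-(P i)).toNat : ℕ) : ℤ) := by omega
        rw [h1, zpow_natCast, Units.val_pow_eq_pow_val, uu_coe, mul_comm]
        exact (uS_fil_self a hs i hx κ).pow _
      · have h1 : p i = (((p i).toNat : ℕ) : ℤ) := by omega
        rw [h1, zpow_natCast, Units.val_pow_eq_pow_val, uu_coe, mul_comm]
        have h2 : ((κ : ℤ) - 1) = ((κ - 1 : ℕ) : ℤ) := by omega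
        rw [h2]
        exact (uS_fil_self a hs i hx (κ - 1)).pow _
    · rw [if_neg hi, Units.val_mul]
      have h := (uu_zpow_fil a hs x hx i hi κ (-(P i))).mul
        (uu_zpow_fil a hs x hx i hi (κ - 1) (p i))
      rwa [add_zero] at h
  refine hfil.coeff_eq_zero ?_
  rw [Finset.sum_ite_eq' Finset.univ x, if_pos (Finset.mem_univ x), hc]
  linarith

theorem EV_one (a : I → I → ℕ) (γ : I →₀ ℕ) (P p : I → ℤ) :
    EV a γ 1 P p = if γ = 0 then 1 else 0 := by
  classical
  have h1 : ∀ i, uu a i 1 = 1 := by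
    intro i
    ext1
    rw [uu_coe, uS_one, Units.val_one]
  have h0 : ∀ i, uu a i (1 - 1) = 1 := by
    intro i
    ext1
    rw [uu_coe, Units.val_one]
    exact uS_zero a i
  rw [EV, facG]
  have h2 : (∏ i, ((uu a i 1) ^ (-(P i)) * (uu a i (1 - 1)) ^ (p i)) : (MvPowerSeries I ℚ)ˣ) = 1 := by
    refine Finset.prod_eq_one fun i _ => ?_
    rw [h1, h0, one_zpow, one_zpow, one_mul]
  rw [h2, Units.val_one, coeff_one]

end Pool.Agent.H27.KAC

end

section

/-!
KAC module KN2: `EV` as a sum over multipartitions.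

* `EV_sum`: induction on `k`.  `k = 0`: `EV_one`, `Mset 0 γ` is the singleton if `γ = 0` and empty otherwise.
  Step (level `k + 2`): if `P_x ≤ 0` for some `x`: if `a x x = 0` both sides vanish (`EV_vanish`; on the right
  `Pseq (k+1) x = P_x`); if `a x x ≥ 2` then `(Cγ)_x ≤ 0` and consistency gives
  `(k+2) P_x = (k+1) p_x + 1 - (Cγ)_x > 0`, impossible.
  If all `P_i ≥ 1`: `EV_expand`, the new data `(P', P)` are again consistent, `P ≥ 1`, and induction; the bijection
  `(m, m') ↦` function on `Fin (k+1)` (`Fin.snocEquiv`/`Fin.snoc`) identifies the sums;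
  `Pseq` of the new data is `Pseq` of the old data.
* `PLF_eq`: `PLF a m l i = s_i + ∑_j C_{ij} ∑_{l' > l} (l' - l) m_{l'j}`, `s = -Cα`, because
  `min(l,l') = l' - (l' - l)`.
* `EV_eq_Msum`: `EV_sum` with `P = s + Kν + 1`, `p = s + (K+1)ν + 1`; `Pseq l = PLF l + lν + 1`.
-/

namespace Pool.Agent.H27.KAC

open scoped BigOperators
open MvPowerSeries

variable {I : Type} [Fintype I] [DecidableEq I]

private theorem KN2_mem_Mset {K : ℕ} {α : I → ℕ} {m : Fin K → I → ℕ} :
    m ∈ Mset K α ↔ ∀ i, ∑ k : Fin K, ((k : ℕ) + 1) * m k i = α i := by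
  unfold Mset
  rw [Finset.mem_filter]
  constructor
  · exact fun h => h.2
  · intro h
    refine ⟨?_, h⟩
    rw [Fintype.mem_piFinset]
    intro k
    rw [Fintype.mem_piFinset]
    intro i
    rw [Finset.mem_range]
    have h1 : ((k : ℕ) + 1) * m k i ≤ ∑ k : Fin K, ((k : ℕ) + 1) * m k i :=
      Finset.single_le_sum (f := fun k : Fin K => ((k : ℕ) + 1) * m k i)
        (fun _ _ => Nat.zero_le _) (Finset.mem_univ k)
    rw [h i] at h1
    have h2 : m k i ≤ ((k : ℕ) + 1) * m k i := Nat.le_mul_of_pos_left _ (Nat.succ_pos _)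
    omega

private theorem KN2_Pseq_last (a : I → I → ℕ) {k : ℕ} (P p : I → ℤ) (m : Fin (k + 1) → I → ℕ)
    (i : I) : Pseq a P p m (k + 1) i = P i := by
  unfold Pseq
  have h1 : ∀ l' : Fin (k + 1), ((l' : ℕ) + 1 - (k + 1)) = 0 := fun l' => by omega
  simp [h1]

private theorem KN2_Pseq_snoc (a : I → I → ℕ) {k : ℕ} (P p : I → ℤ) (m' : Fin k → I → ℕ)
    (m : I → ℕ) (l : ℕ) (hl : l ≤ k + 1) (i : I) :
    Pseq a P p (Fin.snoc (α := fun _ => I → ℕ) m' m : Fin (k + 1) → I → ℕ) l i =
      Pseq a (fun i => 2 * P i - p i + ∑ j, cart a i j * (m j : ℤ)) P m' l i := by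
  unfold Pseq
  simp only [Fin.sum_univ_castSucc, Fin.snoc_castSucc, Fin.snoc_last, Fin.val_castSucc,
    Fin.val_last]
  have h1 : (((k + 1 - l : ℕ)) : ℤ) = (k : ℤ) + 1 - l := by
    rw [Nat.cast_sub hl]
    push_cast
    ring
  have h2 : ∑ j, cart a i j * (∑ l' : Fin k, (((l' : ℕ) + 1 - l : ℕ) : ℤ) * (m' l' j : ℤ) +
      ((k + 1 - l : ℕ) : ℤ) * (m j : ℤ)) =
      (∑ j, cart a i j * ∑ l' : Fin k, (((l' : ℕ) + 1 - l : ℕ) : ℤ) * (m' l' j : ℤ)) +
        ((k : ℤ) + 1 - l) * ∑ j, cart a i j * (m j : ℤ) := by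
    rw [Finset.mul_sum, ← Finset.sum_add_distrib]
    refine Finset.sum_congr rfl fun j _ => ?_
    rw [h1]
    ring
  rw [h2]
  push_cast
  ring

private theorem KN2_cw_sub (a : I → I → ℕ) (γ : I →₀ ℕ) (k : ℕ) (m : I → ℕ)
    (hm : ∀ j, (k + 1) * m j ≤ γ j) (i : I) :
    cw a (γ - (k + 1) • toF m) i = cw a γ i - ((k : ℤ) + 1) * ∑ j, cart a i j * (m j : ℤ) := by
  unfold cw
  rw [Finset.mul_sum, ← Finset.sum_sub_distrib]
  refine Finset.sum_congr rfl fun j _ => ?_
  have h1 : (γ - (k + 1) • toF m) j = γ j - (k + 1) * m j := rfl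
  rw [h1, Nat.cast_sub (hm j)]
  push_cast
  ring

private theorem KN2_Mset_iff (γ : I →₀ ℕ) (k : ℕ) (M : Fin (k + 1) → I → ℕ) :
    M ∈ Mset (k + 1) γ ↔ (∀ j, (k + 1) * M (Fin.last k) j ≤ γ j) ∧
      (Fin.init M : Fin k → I → ℕ) ∈ Mset k (γ - (k + 1) • toF (M (Fin.last k))) := by
  rw [KN2_mem_Mset, KN2_mem_Mset]
  have h1 : ∀ i, (γ - (k + 1) • toF (M (Fin.last k))) i = γ i - (k + 1) * M (Fin.last k) i :=
    fun i => rfl
  have h2 : ∀ i, ∑ l : Fin (k + 1), ((l : ℕ) + 1) * M l i =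
      (∑ l : Fin k, ((l : ℕ) + 1) * (Fin.init M : Fin k → I → ℕ) l i) +
        (k + 1) * M (Fin.last k) i := by
    intro i
    rw [Fin.sum_univ_castSucc]
    rfl
  constructor
  · intro h
    refine ⟨fun j => ?_, fun i => ?_⟩
    · have := h j
      rw [h2] at this
      omega
    · have := h i
      rw [h2] at this
      rw [h1]
      omega
  · rintro ⟨h3, h4⟩ i
    have h5 := h4 i
    have h6 := h3 i
    rw [h1] at h5
    rw [h2, h5]
    omega

theorem EV_sum (a : I → I → ℕ) (hs : ∀ i j, a i j = a j i) (ha : ∀ i, a i i ≠ 1) (k : ℕ)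
    (γ : I →₀ ℕ) (P p : I → ℤ) (hp : ∀ i, 1 ≤ p i)
    (hc : ∀ i, cw a γ i = (k : ℤ) * p i - ((k : ℤ) + 1) * P i + 1) :
    EV a γ (k + 1) P p =
      ∑ m ∈ (Mset k γ).filter (fun m => ∀ (l : Fin k) (i : I), 1 ≤ Pseq a P p m ((l : ℕ) + 1) i),
        ∏ l : Fin k, ∏ i : I,
          ((((Pseq a P p m ((l : ℕ) + 1) i).toNat - 1 + m l i).choose (m l i) : ℕ) : ℚ) := by
  induction k generalizing γ P p with
  | zero =>
    rw [zero_add, EV_one]
    by_cases hγ : γ = 0
    · rw [if_pos hγ]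
      have h1 : (Mset 0 γ).filter (fun m => ∀ (l : Fin 0) (i : I),
          1 ≤ Pseq a P p m ((l : ℕ) + 1) i) = {fun l => Fin.elim0 l} := by
        ext m
        rw [Finset.mem_filter, Finset.mem_singleton, KN2_mem_Mset]
        constructor
        · intro _
          funext l
          exact Fin.elim0 l
        · intro _
          refine ⟨fun i => ?_, fun l => Fin.elim0 l⟩
          rw [hγ]
          simp
      rw [h1, Finset.sum_singleton]
      simp
    · rw [if_neg hγ]
      symm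
      apply Finset.sum_eq_zero
      intro m hm
      exfalso
      rw [Finset.mem_filter, KN2_mem_Mset] at hm
      apply hγ
      ext i
      have h1 := hm.1 i
      rw [Fin.sum_univ_zero] at h1
      exact h1.symm
  | succ k ih =>
    by_cases hP : ∀ i, 1 ≤ P i
    · rw [EV_expand a hs γ k P p hP]
      have hA : ∀ m ∈ Fintype.piFinset (fun i => Finset.range (γ i / (k + 1) + 1)),
          ∀ j, (k + 1) * m j ≤ γ j := by
        intro m hm j
        rw [Fintype.mem_piFinset] at hm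
        have h1 := Finset.mem_range.1 (hm j)
        have h2 : m j ≤ γ j / (k + 1) := by omega
        have h3 := (Nat.le_div_iff_mul_le (Nat.succ_pos k)).1 h2
        rw [mul_comm]
        exact h3
      have hstep : ∀ m ∈ Fintype.piFinset (fun i => Finset.range (γ i / (k + 1) + 1)),
          (∏ i, ((((P i).toNat - 1 + m i).choose (m i) : ℕ) : ℚ)) *
            EV a (γ - (k + 1) • toF m) (k + 1)
              (fun i => 2 * P i - p i + ∑ j, cart a i j * (m j : ℤ)) P =
          ∑ m' ∈ (Mset k (γ - (k + 1) • toF m : I →₀ ℕ)).filter (fun m' => ∀ (l : Fin k) (i : I),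
            1 ≤ Pseq a (fun i => 2 * P i - p i + ∑ j, cart a i j * (m j : ℤ)) P m'
              ((l : ℕ) + 1) i),
            (∏ i, ((((P i).toNat - 1 + m i).choose (m i) : ℕ) : ℚ)) * ∏ l : Fin k, ∏ i : I,
              ((((Pseq a (fun i => 2 * P i - p i + ∑ j, cart a i j * (m j : ℤ)) P m'
                ((l : ℕ) + 1) i).toNat - 1 + m' l i).choose (m' l i) : ℕ) : ℚ) := by
        intro m hm
        rw [ih (γ - (k + 1) • toF m) (fun i => 2 * P i - p i + ∑ j, cart a i j * (m j : ℤ)) P hP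
          (by
            intro i
            rw [KN2_cw_sub a γ k m (hA m hm) i, hc i]
            push_cast
            ring), Finset.mul_sum]
      rw [Finset.sum_congr rfl hstep, Finset.sum_sigma']
      refine Finset.sum_nbij'
        (fun x => (Fin.snoc (α := fun _ => I → ℕ) x.2 x.1 : Fin (k + 1) → I → ℕ))
        (fun M => ⟨M (Fin.last k), Fin.init M⟩) ?_ ?_ ?_ ?_ ?_
      · rintro ⟨m, m'⟩ hx
        rw [Finset.mem_sigma, Finset.mem_filter] at hx
        obtain ⟨hx1, hx2, hx3⟩ := hx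
        rw [Finset.mem_filter, KN2_Mset_iff]
        refine ⟨⟨?_, ?_⟩, ?_⟩
        · intro j
          show (k + 1) * (Fin.snoc (α := fun _ => I → ℕ) m' m : Fin (k + 1) → I → ℕ)
            (Fin.last k) j ≤ γ j
          rw [Fin.snoc_last]
          exact hA m hx1 j
        · show (Fin.init (Fin.snoc (α := fun _ => I → ℕ) m' m) : Fin k → I → ℕ) ∈
            Mset k (γ - (k + 1) • toF ((Fin.snoc (α := fun _ => I → ℕ) m' m :
              Fin (k + 1) → I → ℕ) (Fin.last k)) : I →₀ ℕ)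
          rw [Fin.snoc_last, Fin.init_snoc]
          exact hx2
        · intro l
          refine Fin.lastCases ?_ ?_ l
          · intro i
            rw [Fin.val_last, KN2_Pseq_last]
            exact hP i
          · intro l i
            rw [Fin.val_castSucc]
            show 1 ≤ Pseq a P p (Fin.snoc (α := fun _ => I → ℕ) m' m : Fin (k + 1) → I → ℕ)
              ((l : ℕ) + 1) i
            rw [KN2_Pseq_snoc a P p m' m ((l : ℕ) + 1) (by omega) i]
            exact hx3 l i
      · intro M hM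
        rw [Finset.mem_filter, KN2_Mset_iff] at hM
        obtain ⟨⟨h1, h2⟩, h3⟩ := hM
        rw [Finset.mem_sigma, Finset.mem_filter]
        refine ⟨?_, h2, ?_⟩
        · rw [Fintype.mem_piFinset]
          intro i
          rw [Finset.mem_range]
          have h4 : M (Fin.last k) i ≤ γ i / (k + 1) := by
            rw [Nat.le_div_iff_mul_le (Nat.succ_pos k), mul_comm]
            exact h1 i
          exact Nat.lt_succ_of_le h4
        · intro l i
          have h5 := h3 (Fin.castSucc l) i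
          have h6 := KN2_Pseq_snoc a P p (Fin.init M : Fin k → I → ℕ) (M (Fin.last k))
            ((l : ℕ) + 1) (by omega) i
          rw [Fin.snoc_init_self] at h6
          rw [Fin.val_castSucc, h6] at h5
          exact h5
      · rintro ⟨m, m'⟩ _
        show (⟨(Fin.snoc (α := fun _ => I → ℕ) m' m : Fin (k + 1) → I → ℕ) (Fin.last k),
          Fin.init (Fin.snoc (α := fun _ => I → ℕ) m' m)⟩ : Σ _ : I → ℕ, Fin k → I → ℕ) = ⟨m, m'⟩
        rw [Fin.snoc_last, Fin.init_snoc]
      · intro M _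
        exact Fin.snoc_init_self M
      · rintro ⟨m, m'⟩ _
        show (∏ i, ((((P i).toNat - 1 + m i).choose (m i) : ℕ) : ℚ)) * ∏ l : Fin k, ∏ i : I,
              ((((Pseq a (fun i => 2 * P i - p i + ∑ j, cart a i j * (m j : ℤ)) P m'
                ((l : ℕ) + 1) i).toNat - 1 + m' l i).choose (m' l i) : ℕ) : ℚ) =
          ∏ l : Fin (k + 1), ∏ i : I,
            ((((Pseq a P p (Fin.snoc (α := fun _ => I → ℕ) m' m : Fin (k + 1) → I → ℕ)
              ((l : ℕ) + 1) i).toNat - 1 +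
              (Fin.snoc (α := fun _ => I → ℕ) m' m : Fin (k + 1) → I → ℕ) l i).choose
              ((Fin.snoc (α := fun _ => I → ℕ) m' m : Fin (k + 1) → I → ℕ) l i) : ℕ) : ℚ)
        rw [Fin.prod_univ_castSucc, mul_comm]
        congr 1
        · refine Finset.prod_congr rfl fun l _ => Finset.prod_congr rfl fun i _ => ?_
          rw [Fin.snoc_castSucc, Fin.val_castSucc,
            KN2_Pseq_snoc a P p m' m ((l : ℕ) + 1) (by omega) i]
        · refine Finset.prod_congr rfl fun i _ => ?_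
          rw [Fin.snoc_last, Fin.val_last, KN2_Pseq_last]
    · push Not at hP
      obtain ⟨x, hx⟩ := hP
      have hx0 : P x ≤ 0 := by omega
      by_cases hax : a x x = 0
      · rw [EV_vanish a hs x hax γ (k + 1 + 1) (by omega) P p hx0 (by have := hp x; omega) (by
          rw [hc x]
          push_cast
          ring)]
        symm
        apply Finset.sum_eq_zero
        intro m hm
        exfalso
        rw [Finset.mem_filter] at hm
        have h1 := hm.2 (Fin.last k) x
        rw [Fin.val_last, KN2_Pseq_last] at h1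
        omega
      · exfalso
        have hax2 : 2 ≤ a x x := by
          have := ha x
          omega
        have hcw : cw a γ x ≤ 0 := by
          unfold cw
          apply Finset.sum_nonpos
          intro j _
          have h1 : cart a x j ≤ 0 := by
            unfold cart
            by_cases hj : x = j
            · rw [if_pos hj, ← hj]
              have : (2 : ℤ) ≤ (a x x : ℤ) := by exact_mod_cast hax2
              linarith
            · rw [if_neg hj]
              have : (0 : ℤ) ≤ (a x j : ℤ) := Nat.cast_nonneg _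
              linarith
          exact mul_nonpos_of_nonpos_of_nonneg h1 (Nat.cast_nonneg _)
        have h2 := hc x
        have h3 := hp x
        have h4 : (0 : ℤ) ≤ ((k + 1 : ℕ) : ℤ) := Nat.cast_nonneg _
        have h5 : 0 ≤ ((k + 1 : ℕ) : ℤ) * p x := mul_nonneg h4 (by omega)
        have h6 : (((k + 1 : ℕ) : ℤ) + 1) * P x ≤ 0 :=
          mul_nonpos_of_nonneg_of_nonpos (by omega) hx0
        linarith

theorem PLF_eq (a : I → I → ℕ) {K : ℕ} (α : I →₀ ℕ) (m : Fin K → I → ℕ) (hm : m ∈ Mset K α)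
    (l : ℕ) (i : I) :
    PLF a m l i = -cw a α i +
      ∑ j, cart a i j * ∑ l' : Fin K, (((l' : ℕ) + 1 - l : ℕ) : ℤ) * (m l' j : ℤ) := by
  rw [KN2_mem_Mset] at hm
  unfold PLF cw
  rw [← Finset.sum_neg_distrib, ← Finset.sum_add_distrib]
  refine Finset.sum_congr rfl fun j _ => ?_
  have h1 : (α j : ℤ) = ∑ l' : Fin K, (((l' : ℕ) : ℤ) + 1) * (m l' j : ℤ) := by
    rw [← hm j]
    push_cast
    rfl
  rw [h1, Finset.mul_sum, ← Finset.sum_neg_distrib, Finset.mul_sum, ← Finset.sum_add_distrib]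
  refine Finset.sum_congr rfl fun l' _ => ?_
  have h2 : (min (l : ℤ) (((l' : ℕ) : ℤ) + 1)) =
      (((l' : ℕ) : ℤ) + 1) - (((l' : ℕ) + 1 - l : ℕ) : ℤ) := by
    rcases Nat.le_total l ((l' : ℕ) + 1) with h | h
    · rw [Nat.cast_sub h, min_eq_left (by exact_mod_cast h)]
      push_cast
      ring
    · rw [Nat.sub_eq_zero_of_le h, min_eq_right (by exact_mod_cast h)]
      push_cast
      ring
  rw [h2]
  ring

theorem EV_eq_Msum (a : I → I → ℕ) (hs : ∀ i j, a i j = a j i) (ha : ∀ i, a i i ≠ 1)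
    (K ν : ℕ) (α : I →₀ ℕ) (hK : ∀ i, 0 ≤ -cw a α i + (K : ℤ) * ν) :
    EV a α (K + 1) (fun i => -cw a α i + (K : ℤ) * ν + 1)
      (fun i => -cw a α i + ((K : ℤ) + 1) * ν + 1) = Msum a K ν α := by
  have hν : (0 : ℤ) ≤ ν := Nat.cast_nonneg ν
  rw [EV_sum a hs ha K α (fun i => -cw a α i + (K : ℤ) * ν + 1)
    (fun i => -cw a α i + ((K : ℤ) + 1) * ν + 1) (fun i => by
      have := hK i
      show 1 ≤ -cw a α i + ((K : ℤ) + 1) * ν + 1
      linarith) (fun i => by
      show cw a α i = (K : ℤ) * (-cw a α i + ((K : ℤ) + 1) * ν + 1) -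
        ((K : ℤ) + 1) * (-cw a α i + (K : ℤ) * ν + 1) + 1
      ring)]
  have hkey : ∀ m ∈ Mset K α, ∀ (l : ℕ) (i : I),
      Pseq a (fun i => -cw a α i + (K : ℤ) * ν + 1) (fun i => -cw a α i + ((K : ℤ) + 1) * ν + 1)
        m l i = PLF a m l i + (l : ℤ) * ν + 1 := by
    intro m hm l i
    rw [PLF_eq a α m hm l i]
    unfold Pseq
    ring
  unfold Msum
  have hfil : (Mset K α).filter (fun m => ∀ (l : Fin K) (i : I),
      1 ≤ Pseq a (fun i => -cw a α i + (K : ℤ) * ν + 1)
        (fun i => -cw a α i + ((K : ℤ) + 1) * ν + 1) m ((l : ℕ) + 1) i) =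
      (Mset K α).filter (fun m => ∀ (k : Fin K) (i : I),
        0 ≤ PLF a m ((k : ℕ) + 1) i + ((k : ℤ) + 1) * ν) := by
    apply Finset.filter_congr
    intro m hm
    refine forall_congr' fun l => forall_congr' fun i => ?_
    rw [hkey m hm]
    push_cast
    constructor
    · intro h
      linarith
    · intro h
      linarith
  rw [hfil]
  refine Finset.sum_congr rfl fun m hm => Finset.prod_congr rfl fun l _ =>
    Finset.prod_congr rfl fun i _ => ?_
  rw [Finset.mem_filter] at hm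
  rw [hkey m hm.1]
  have h1 := hm.2 l i
  have h2 : (PLF a m ((l : ℕ) + 1) i + (((l : ℕ) + 1 : ℕ) : ℤ) * ν + 1).toNat - 1 =
      (PLF a m ((l : ℕ) + 1) i + ((l : ℤ) + 1) * ν).toNat := by
    push_cast
    omega
  rw [h2]

end Pool.Agent.H27.KAC

end

section

/-!
KAC ADE, module AD4: the vanishing lemma (no pole in direction `x`).

Generalises `vanish_general` (file KQVan) to an arbitrary set of levels `l ≥ 1`.  The exponents of the other vertices are
arbitrary rational numbers: `Fil_rpw`, `uS_fil_ne`.  For the vertex `x` the exponent at level `l` is a natural number `n_l`,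
and if the symbol `(x,l)` occurs in some column then `n_l ≥ 1`.  Proof: bordered determinant with one extra row and column
for every level `l` which occurs, or multilinear expansion of the columns in the symbols (two equal symbols give zero).
-/

set_option autoImplicit false

namespace Pool.Agent.H27.KAC

open scoped BigOperators
open MvPowerSeries

section

variable {I : Type} [Fintype I] [DecidableEq I]

private theorem AD4_det {J : Type} [Fintype J] [DecidableEq J] {a : I → I → ℕ} {x : I} (x0 : J)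
    (rr : J → ℤ) (M : Matrix J J (MvPowerSeries I ℚ))
    (h1 : ∀ l i, l ≠ x0 → Fil a x (rr i) (M l i)) (h2 : ∀ i, Fil a x (rr i - 1) (M x0 i)) :
    Fil a x ((∑ i, rr i) - 1) M.det := by
  rw [Matrix.det_apply']
  apply Fil.sum
  intro σ _
  have h3 : Fil a x (∑ i, (rr i - if σ i = x0 then (1:ℤ) else 0)) (∏ i, M (σ i) i) := by
    apply Fil.prod
    intro i _
    split_ifs with h
    · rw [h]
      exact h2 i
    · rw [sub_zero]
      exact h1 _ _ h
  have h4 : ∑ i, (rr i - if σ i = x0 then (1:ℤ) else 0) = (∑ i, rr i) - 1 := by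
    rw [Finset.sum_sub_distrib]
    congr 1
    rw [Equiv.sum_comp σ (fun j => if j = x0 then (1:ℤ) else 0)]
    simp
  rw [h4] at h3
  have h5 := (Fil_intCast a x ((Equiv.Perm.sign σ : ℤˣ) : ℤ)).mul h3
  rw [zero_add] at h5
  exact h5

private theorem AD4_colv (a : I → I → ℕ) (hs : ∀ i j, a i j = a j i) (x : I) (hx : a x x = 0)
    (k b : ℕ) (g : I → ℚ) (hb : b = 0 → ∀ j, g j = 0) :
    ∃ u : I → MvPowerSeries I ℚ, (∀ j l, C (g j) * xv a x k l = C (g j) * u l) ∧
      VReg a x ((k : ℤ) * b) (fun l => u l * uS a x k ^ b) := by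
  rcases Nat.eq_zero_or_pos b with rfl | hb'
  · refine ⟨fun _ => 0, fun j l => ?_, fun l _ => ?_, ?_⟩
    · rw [hb rfl j, map_zero, zero_mul, zero_mul]
    · show Fil a x _ (0 * uS a x k ^ 0)
      rw [zero_mul]
      exact Fil_zero a x _
    · show Fil a x _ (0 * uS a x k ^ 0)
      rw [zero_mul]
      exact Fil_zero a x _
  · obtain ⟨c, rfl⟩ : ∃ c, b = c + 1 := ⟨b - 1, by omega⟩
    refine ⟨xv a x k, fun _ _ => rfl, ?_⟩
    have h := ((uS_fil_self a hs x hx k).pow c)
    have h2 := VReg.smul h (xv_pole a hs x hx k)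
    have e1 : (fun l => uS a x k ^ c * (uS a x k * xv a x k l)) =
        (fun l => xv a x k l * uS a x k ^ (c + 1)) := by
      funext l
      ring
    rw [e1] at h2
    have e2 : (c : ℤ) * k + k = (k : ℤ) * ((c + 1 : ℕ) : ℤ) := by
      push_cast
      ring
    rw [e2] at h2
    exact h2

/-- the general form with `N` levels `t + 1`, `t < N`. -/
private theorem AD4_general (a : I → I → ℕ) (hs : ∀ i j, a i j = a j i) (x : I) (hx : a x x = 0)
    (N : ℕ) (n : Fin N → ℕ) (F : MvPowerSeries I ℚ) (hF : Fil a x 0 F)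
    (r : I → I → MvPowerSeries I ℚ) (hr : ∀ j, VReg a x 0 (r j)) (g : Fin N → I → ℚ)
    (hg : ∀ t, n t = 0 → ∀ j, g t j = 0) (γ : I →₀ ℕ)
    (hγ : cw a γ x = ∑ t : Fin N, (((t : ℕ) + 1 : ℕ) : ℤ) * (n t : ℤ)) :
    coeff γ (F * (∏ t : Fin N, uS a x ((t : ℕ) + 1) ^ n t) *
      (colMat (fun j l => r j l + ∑ t : Fin N, C (g t j) * xv a x ((t : ℕ) + 1) l)).det) = 0 := by
  choose u hu1 hu2 using fun t : Fin N => AD4_colv a hs x hx ((t : ℕ) + 1) (n t) (g t) (hg t)
  obtain ⟨M, hM⟩ : ∃ M : Matrix (I ⊕ Fin N) (I ⊕ Fin N) (MvPowerSeries I ℚ),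
      M = Matrix.fromBlocks (Matrix.of (fun l i => r i l))
        (-(Matrix.of (fun l t => u t l)))
        (Matrix.of (fun t j => (C (g t j) : MvPowerSeries I ℚ))) 1 := ⟨_, rfl⟩
  have hdet : (colMat (fun j l => r j l + ∑ t : Fin N, C (g t j) * xv a x ((t : ℕ) + 1) l)).det =
      M.det := by
    rw [hM, Matrix.det_fromBlocks_one₂₂]
    congr 1
    ext1 l i
    simp only [colMat, Matrix.of_apply, Matrix.sub_apply, Matrix.mul_apply, Matrix.neg_apply]
    rw [Finset.sum_congr rfl (fun t _ => hu1 t i l)]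
    rw [sub_eq_add_neg, ← Finset.sum_neg_distrib]
    congr 1
    refine Finset.sum_congr rfl (fun t _ => ?_)
    ring
  obtain ⟨d, hd⟩ : ∃ d : I ⊕ Fin N → MvPowerSeries I ℚ,
      d = Sum.elim (fun _ => 1) (fun t : Fin N => uS a x ((t : ℕ) + 1) ^ n t) := ⟨_, rfl⟩
  obtain ⟨rr, hrr⟩ : ∃ rr : I ⊕ Fin N → ℤ,
      rr = Sum.elim (fun _ => 0) (fun t : Fin N => (((t : ℕ) + 1 : ℕ) : ℤ) * (n t : ℤ)) := ⟨_, rfl⟩
  have hprod : (∏ t : Fin N, uS a x ((t : ℕ) + 1) ^ n t) * M.det =
      (M * Matrix.diagonal d).det := by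
    rw [Matrix.det_mul, Matrix.det_diagonal, hd, Fintype.prod_sum_type]
    simp only [Sum.elim_inl, Sum.elim_inr, Finset.prod_const_one, one_mul]
    ring
  have hU : ∀ t : Fin N, Fil a x ((((t : ℕ) + 1 : ℕ) : ℤ) * (n t : ℤ))
      (uS a x ((t : ℕ) + 1) ^ n t) := by
    intro t
    rw [mul_comm]
    exact (uS_fil_self a hs x hx ((t : ℕ) + 1)).pow (n t)
  have hfil : Fil a x ((∑ i, rr i) - 1) (M * Matrix.diagonal d).det := by
    apply AD4_det (Sum.inl x)
    · intro l i hl
      rw [Matrix.mul_diagonal, hM, hd, hrr]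
      rcases l with l | t <;> rcases i with i | s
      · have hl' : l ≠ x := fun h => hl (by rw [h])
        simp only [Matrix.fromBlocks_apply₁₁, Matrix.of_apply, Sum.elim_inl, mul_one]
        exact (hr i).1 l hl'
      · have hl' : l ≠ x := fun h => hl (by rw [h])
        simp only [Matrix.fromBlocks_apply₁₂, Matrix.neg_apply, Matrix.of_apply, Sum.elim_inr,
          neg_mul]
        exact ((hu2 s).1 l hl').neg
      · simp only [Matrix.fromBlocks_apply₂₁, Matrix.of_apply, Sum.elim_inl, mul_one]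
        exact Fil_C a x _
      · simp only [Matrix.fromBlocks_apply₂₂, Sum.elim_inr, Matrix.one_apply]
        split_ifs
        · rw [one_mul]
          exact hU s
        · rw [zero_mul]
          exact Fil_zero a x _
    · intro i
      rw [Matrix.mul_diagonal, hM, hd, hrr]
      rcases i with i | s
      · simp only [Matrix.fromBlocks_apply₁₁, Matrix.of_apply, Sum.elim_inl, mul_one]
        exact (hr i).2
      · simp only [Matrix.fromBlocks_apply₁₂, Matrix.neg_apply, Matrix.of_apply, Sum.elim_inr,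
          neg_mul]
        exact (hu2 s).2.neg
  have hsum : ∑ i, rr i = ∑ t : Fin N, (((t : ℕ) + 1 : ℕ) : ℤ) * (n t : ℤ) := by
    rw [hrr, Fintype.sum_sum_type]
    simp only [Sum.elim_inl, Sum.elim_inr, Finset.sum_const_zero, zero_add]
  rw [hdet, mul_assoc, hprod]
  refine Fil.coeff_eq_zero (hF.mul hfil) ?_
  rw [hγ, hsum]
  omega

omit [DecidableEq I] in
/-- rectangular supersets of the support. -/
private theorem AD4_sub (E : QE I) (N : ℕ) (hN : ∀ i k, E (i, k) ≠ 0 → k ≤ N) :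
    E.support ⊆ (Finset.univ : Finset I) ×ˢ Finset.range (N + 1) := by
  rintro ⟨i, k⟩ hik
  rw [Finsupp.mem_support_iff] at hik
  rw [Finset.mem_product]
  exact ⟨Finset.mem_univ _, Finset.mem_range.2 (Nat.lt_succ_of_le (hN i k hik))⟩

private theorem AD4_xv0 (a : I → I → ℕ) (x l : I) : xv a x 0 l = 0 := by
  have h1 := dl_single a x 0 1 l
  rw [dl_lev0, map_one, one_mul] at h1
  exact h1.symm

private theorem AD4_dl (a : I → I → ℕ) (E : QE I) (x : I) (N : ℕ)
    (hN : ∀ i k, E (i, k) ≠ 0 → k ≤ N) (l : I) :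
    dl a E l = (∑ i ∈ Finset.univ.erase x, ∑ k ∈ Finset.range (N + 1),
      C (E (i, k)) * xv a i k l) + ∑ t : Fin N, C (E (x, (t : ℕ) + 1)) * xv a x ((t : ℕ) + 1) l := by
  have h1 : dl a E l = ∑ ik ∈ (Finset.univ : Finset I) ×ˢ Finset.range (N + 1),
      C (E ik) * xv a ik.1 ik.2 l := by
    unfold dl
    refine Finset.sum_subset (AD4_sub E N hN) (fun ik _ hik => ?_)
    rw [Finsupp.notMem_support_iff] at hik
    rw [hik, map_zero, zero_mul]
  rw [h1, Finset.sum_product, ← Finset.add_sum_erase Finset.univ _ (Finset.mem_univ x), add_comm]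
  congr 1
  rw [Finset.sum_range_succ', AD4_xv0, mul_zero, add_zero, Finset.sum_range]

private theorem AD4_mU (a : I → I → ℕ) (E : QE I) (x : I) (N : ℕ)
    (hN : ∀ i k, E (i, k) ≠ 0 → k ≤ N) (n : Fin N → ℕ)
    (hn : ∀ t : Fin N, E (x, (t : ℕ) + 1) = (n t : ℚ)) :
    mU a E = (∏ i ∈ Finset.univ.erase x, ∏ k ∈ Finset.range (N + 1),
      rpw (uS a i k) (E (i, k))) * ∏ t : Fin N, uS a x ((t : ℕ) + 1) ^ n t := by
  rw [mU_eq_prod a E _ (AD4_sub E N hN), Finset.prod_product,
    ← Finset.mul_prod_erase Finset.univ _ (Finset.mem_univ x), mul_comm]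
  congr 1
  rw [Finset.prod_range_succ', uS_zero, rpw_unit_left, mul_one, Finset.prod_range]
  refine Finset.prod_congr rfl (fun t _ => ?_)
  show rpw (uS a x ((t : ℕ) + 1)) (E (x, (t : ℕ) + 1)) = _
  rw [hn t, rpw_nat _ (uS_const a x _)]

private theorem AD4_tdg (E : QE I) (x : I) (N : ℕ)
    (hN : ∀ i k, E (i, k) ≠ 0 → k ≤ N) (n : Fin N → ℕ)
    (hn : ∀ t : Fin N, E (x, (t : ℕ) + 1) = (n t : ℚ)) :
    tdg E x = ∑ t : Fin N, (((t : ℕ) + 1 : ℕ) : ℚ) * (n t : ℚ) := by
  have h1 : tdg E x = ∑ jk ∈ (Finset.univ : Finset I) ×ˢ Finset.range (N + 1),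
      if jk.1 = x then E jk * (jk.2 : ℚ) else 0 := by
    unfold tdg
    refine Finset.sum_subset (AD4_sub E N hN) (fun ik _ hik => ?_)
    rw [Finsupp.notMem_support_iff] at hik
    rw [hik, zero_mul, ite_self]
  rw [h1, Finset.sum_product, ← Finset.add_sum_erase Finset.univ _ (Finset.mem_univ x)]
  have h2 : (∑ i ∈ Finset.univ.erase x, ∑ k ∈ Finset.range (N + 1),
      if ((i, k) : I × ℕ).1 = x then E (i, k) * (((i, k) : I × ℕ).2 : ℚ) else 0) = 0 := by
    refine Finset.sum_eq_zero (fun i hi => Finset.sum_eq_zero (fun k _ => ?_))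
    rw [if_neg (Finset.ne_of_mem_erase hi)]
  rw [h2, add_zero, Finset.sum_range_succ', Finset.sum_range]
  simp only [if_true, Nat.cast_zero, mul_zero, add_zero]
  refine Finset.sum_congr rfl (fun t _ => ?_)
  rw [hn t, mul_comm]

theorem TV_van (a : I → I → ℕ) (hs : ∀ i j, a i j = a j i) (T : Trm I) (x : I) (hx : a x x = 0)
    (h : DReg T x) : TV a T = 0 := by
  classical
  by_cases hok : TOk a T
  swap
  · exact TV_of_not a T hok
  rw [TV_of_ok a T hok]
  unfold TV0
  obtain ⟨S, hS⟩ : ∃ S : Finset (I × ℕ),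
      S = T.E.support ∪ Finset.univ.biUnion (fun j => (T.Λ j).support) := ⟨_, rfl⟩
  obtain ⟨N, hN⟩ : ∃ N : ℕ, ∀ ik ∈ S, ik.2 ≤ N :=
    ⟨S.sup Prod.snd, fun ik hik => Finset.le_sup (f := Prod.snd) hik⟩
  have hE : ∀ i k, T.E (i, k) ≠ 0 → k ≤ N := by
    intro i k hik
    refine hN (i, k) ?_
    rw [hS, Finset.mem_union]
    exact Or.inl (Finsupp.mem_support_iff.2 hik)
  have hΛ : ∀ j i k, T.Λ j (i, k) ≠ 0 → k ≤ N := by
    intro j i k hik
    refine hN (i, k) ?_
    rw [hS, Finset.mem_union]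
    exact Or.inr (Finset.mem_biUnion.2 ⟨j, Finset.mem_univ j, Finsupp.mem_support_iff.2 hik⟩)
  choose n hn using fun t : Fin N => h.1 ((t : ℕ) + 1) (by omega)
  have hcol : (fun i => dl a (T.Λ i)) = fun j l =>
      (∑ i ∈ Finset.univ.erase x, ∑ k ∈ Finset.range (N + 1), C (T.Λ j (i, k)) * xv a i k l) +
        ∑ t : Fin N, C (T.Λ j (x, (t : ℕ) + 1)) * xv a x ((t : ℕ) + 1) l := by
    funext j l
    exact AD4_dl a (T.Λ j) x N (hΛ j) l
  rw [hcol, AD4_mU a T.E x N hE n hn]
  refine AD4_general a hs x hx N n _ ?_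
    (fun j l => ∑ i ∈ Finset.univ.erase x, ∑ k ∈ Finset.range (N + 1),
      C (T.Λ j (i, k)) * xv a i k l) ?_ (fun t j => T.Λ j (x, (t : ℕ) + 1)) ?_ _ ?_
  · refine KQLaur_fil0_prod (fun i hi => KQLaur_fil0_prod (fun k _ => ?_))
    exact Fil_rpw a x _ (uS_const a i k)
      (uS_fil_ne a hs x hx i (Finset.ne_of_mem_erase hi) k) _
  · intro j
    refine VReg.sum (fun i hi => VReg.sum (fun k _ => ?_))
    have h1 := VReg.smul (Fil_C a x (T.Λ j (i, k)))
      (xv_reg a hs x hx i (Finset.ne_of_mem_erase hi) k)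
    rw [add_zero] at h1
    exact h1
  · intro t ht j
    by_contra hne
    have h1 := h.2 j ((t : ℕ) + 1) (by omega) hne
    rw [hn t, ht, Nat.cast_zero] at h1
    exact absurd h1 (by norm_num)
  · have h1 := hok.2 x
    rw [AD4_tdg T.E x N hE n hn] at h1
    have h2 : cq a T.γ x = ((cw a (gN T.γ) x : ℤ) : ℚ) := by
      unfold cq cw
      push_cast
      refine Finset.sum_congr rfl (fun j _ => ?_)
      have h3 : ((gN T.γ j : ℕ) : ℚ) = T.γ j := hok.1 j
      rw [h3]
    rw [h2] at h1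
    have h4 : ((cw a (gN T.γ) x : ℤ) : ℚ) =
        ((∑ t : Fin N, (((t : ℕ) + 1 : ℕ) : ℤ) * (n t : ℤ) : ℤ) : ℚ) := by
      rw [← h1]
      push_cast
      rfl
    exact_mod_cast h4

end

end Pool.Agent.H27.KAC

end

section

/-!
KAC ADE, module AE3: the firing lemma for terms.

One firing: `T = T0.mulE (2 • sy x k)`, `TV_rel`; in the difference term `T0.mulE (sy x (k+1) + sy x (k-1))` all exponents
of `x` are natural, the symbols `(x,k±1)` are compensated, `(x,k)` has exponent `E(x,k) - 2 ≥ 1`: `TV_van`.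
-/

set_option autoImplicit false

namespace Pool.Agent.H27.KAC

open scoped BigOperators

section

variable {I : Type} [Fintype I] [DecidableEq I]

theorem TV_fire1 (a : I → I → ℕ) (hs : ∀ i j, a i j = a j i) (T : Trm I) (x : I) (hx : a x x = 0)
    (k σ : ℕ) (hk : 1 ≤ k) (hσ : Side k σ) (h : FReg T x k σ) (hE : 3 ≤ T.E (x, k)) :
    TV a T = TV a (T.eta a k (Pi.single x 1)) := by
  set T0 : Trm I := T.mulE (-((2 : ℚ) • sy x k)) with hT0
  have hT : T0.mulE ((2 : ℚ) • sy x k) = T := by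
    rw [hT0]
    unfold Trm.mulE
    apply Trm.ext
    · rfl
    · simp only [neg_add_cancel_right]
    · rfl
  have h1 := TV_rel a hs T0 x k hk
  rw [hT] at h1
  have h2 : TV a (T0.mulE (sy x (k + 1) + sy x (k - 1))) = 0 := by
    refine TV_van a hs _ x hx ?_
    have hE' : ∀ l : ℕ, (T0.mulE (sy x (k + 1) + sy x (k - 1))).E (x, l) =
        T.E (x, l) - (if l = k then 2 else 0) +
          ((if l = k + 1 then 1 else 0) + (if l = k - 1 then 1 else 0)) := by
      intro l
      have e : (T0.mulE (sy x (k + 1) + sy x (k - 1))).E =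
        T.E + -((2 : ℚ) • sy x k) + (sy x (k + 1) + sy x (k - 1)) := rfl
      rw [e]
      simp only [Finsupp.add_apply, Finsupp.neg_apply, Finsupp.smul_apply, smul_eq_mul, sy,
        Finsupp.single_apply, Prod.mk.injEq, true_and]
      have e1 : (k = l) = (l = k) := propext ⟨Eq.symm, Eq.symm⟩
      have e2 : (k + 1 = l) = (l = k + 1) := propext ⟨Eq.symm, Eq.symm⟩
      have e3 : (k - 1 = l) = (l = k - 1) := propext ⟨Eq.symm, Eq.symm⟩
      simp only [e1, e2, e3]
      by_cases hlk : l = k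
      · simp only [hlk, if_true]
        ring
      · simp only [hlk, if_false]
        ring
    have hΛ' : (T0.mulE (sy x (k + 1) + sy x (k - 1))).Λ = T.Λ := rfl
    have hkk : ∀ l, l ≠ k → T.E (x, l) ≤ (T0.mulE (sy x (k + 1) + sy x (k - 1))).E (x, l) := by
      intro l hl
      rw [hE' l, if_neg hl]
      split_ifs <;> linarith
    have hEk : (T0.mulE (sy x (k + 1) + sy x (k - 1))).E (x, k) = T.E (x, k) - 2 := by
      rw [hE' k, if_pos rfl, if_neg (by omega), if_neg (by omega)]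
      ring
    refine ⟨fun l hl => ?_, fun j l hl hne => ?_⟩
    · by_cases hlk : l = k
      · rw [hlk, hEk]
        obtain ⟨n, hn⟩ := h.int
        rw [hn] at hE ⊢
        have h3 : (3 : ℤ) ≤ n := by exact_mod_cast hE
        refine ⟨(n - 2).toNat, ?_⟩
        have h4 : ((n - 2).toNat : ℤ) = n - 2 := Int.toNat_of_nonneg (by omega)
        have h5 : (((n - 2).toNat : ℤ) : ℚ) = ((n - 2 : ℤ) : ℚ) := by rw [h4]
        push_cast at h5
        exact h5.symm
      · obtain ⟨n, hn⟩ := h.nat l hl hlk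
        rw [hE' l, hn, if_neg hlk]
        refine ⟨n + ((if l = k + 1 then 1 else 0) + (if l = k - 1 then 1 else 0)), ?_⟩
        push_cast
        ring
    · rw [hΛ'] at hne
      have hnn : ∀ l', 1 ≤ l' → l' ≠ k → 0 ≤ T.E (x, l') := by
        intro l' h1' h2'
        obtain ⟨n, hn⟩ := h.nat l' h1' h2'
        rw [hn]
        exact Nat.cast_nonneg n
      by_cases hlk : l = k
      · rw [hlk, hEk]
        linarith
      · rcases h.col j l hl hne with h3 | h3 | h3
        · have h4 := hnn l hl hlk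
          rw [hE' l, if_neg hlk]
          rcases hσ with hσ | hσ
          · rw [if_pos (by omega)]
            split_ifs <;> linarith
          · rw [if_neg (by omega), if_pos (by omega)]
            linarith
        · exact absurd h3 hlk
        · exact h3.trans (hkk l hlk)
  rw [h2, add_zero] at h1
  exact h1

theorem TV_fire (a : I → I → ℕ) (hs : ∀ i j, a i j = a j i) (N : Finset I)
    (hN : ∀ x ∈ N, a x x = 0) (κ σ : I → ℕ) (hκ : ∀ x ∈ N, 1 ≤ κ x)
    (hadj : ∀ x ∈ N, ∀ y ∈ N, 0 < a x y → κ x = κ y) (hσ : ∀ x ∈ N, Side (κ x) (σ x)) (T : Trm I)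
    (h : ∀ x ∈ N, FReg T x (κ x) (σ x)) (ν : I → ℤ) (hν : ∀ x ∈ N, T.E (x, κ x) = ν x)
    (v : I → ℕ) (hv : FireTo a N 3 ν v) :
    TV a T = TV a (T.etaM a κ (fun i => (v i : ℚ))) := by
  induction hv generalizing T with
  | nil ν =>
    have e : (fun i => (((0 : I → ℕ) i : ℕ) : ℚ)) = fun _ : I => (0 : ℚ) := by
      funext i
      simp
    rw [e, etaM_zero]
  | cons ν v x hx hθ hv ih =>
    have hEx : 3 ≤ T.E (x, κ x) := by
      rw [hν x hx]
      exact_mod_cast hθ
    rw [TV_fire1 a hs T x (hN x hx) (κ x) (σ x) (hκ x hx) (hσ x hx) (h x hx) hEx]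
    set T' : Trm I := T.eta a (κ x) (Pi.single x 1) with hT'
    have hE : ∀ y l, T'.E (y, l) = T.E (y, l) - (if l = κ x then ((cart a x y : ℤ) : ℚ) else 0) :=
      fun y l => AE3_E a (κ x) x T y l
    have hΛ : T'.Λ = T.Λ := rfl
    have hne : ∀ y ∈ N, κ y ≠ κ x → cart a x y = 0 := by
      intro y hy hk
      have hxy : x ≠ y := fun h' => hk (by rw [h'])
      rw [AE3_cart_ne a hxy]
      have h0 : a x y = 0 := by
        by_contra h0
        exact hk (hadj x hx y hy (Nat.pos_of_ne_zero h0)).symm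
      rw [h0]
      simp
    have hEne : ∀ y ∈ N, ∀ l, l ≠ κ y → T'.E (y, l) = T.E (y, l) := by
      intro y hy l hl
      rw [hE]
      by_cases hlx : l = κ x
      · rw [if_pos hlx, hne y hy (fun h' => hl (by rw [hlx, h']))]
        simp
      · rw [if_neg hlx, sub_zero]
    have hEeq : ∀ y ∈ N, T'.E (y, κ y) = ((ν y - cart a y x : ℤ) : ℚ) := by
      intro y hy
      rw [hE, hν y hy]
      by_cases hk : κ y = κ x
      · rw [if_pos hk, AE3_cart_symm a hs x y]
        push_cast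
        ring
      · rw [if_neg hk, AE3_cart_symm a hs y x, hne y hy hk]
        simp
    have hreg : ∀ y ∈ N, FReg T' y (κ y) (σ y) := by
      intro y hy
      refine ⟨fun l hl hlk => ?_, ?_, fun j l hl hnz => ?_⟩
      · rw [hEne y hy l hlk]
        exact (h y hy).nat l hl hlk
      · exact ⟨_, hEeq y hy⟩
      · rw [hΛ] at hnz
        by_cases hlk : l = κ y
        · exact Or.inr (Or.inl hlk)
        · rcases (h y hy).col j l hl hnz with h1 | h1 | h1
          · exact Or.inl h1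
          · exact Or.inr (Or.inl h1)
          · refine Or.inr (Or.inr ?_)
            rw [hEne y hy l hlk]
            exact h1
    rw [ih T' hreg hEeq, hT', AE3_single, etaM_etaM]
    congr 2
    funext i
    rw [Pi.add_apply, Pi.single_apply]
    split_ifs <;> push_cast <;> ring

end

end Pool.Agent.H27.KAC

end

section

/-!
KAC ADE, module AE4: the replacement lemma (class independence).

Proof: `TV_eq_of_pow` with `c = 1`: for all large primes `p` both `T.pow p` and `(T.etaM κ v).pow p = (T.pow p).etaM κ (p v)`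
can be fired (`fire_large`, `TV_fire`) to the same term `(T.pow p).etaM κ d`.
-/

set_option autoImplicit false

namespace Pool.Agent.H27.KAC

open scoped BigOperators

section

variable {I : Type} [Fintype I] [DecidableEq I]

theorem AE4_cart_symm {a : I → I → ℕ} (hs : ∀ i j, a i j = a j i) (x y : I) :
    cart a x y = cart a y x := by
  unfold cart
  rw [hs x y]
  by_cases h : x = y
  · subst h; rfl
  · rw [if_neg h, if_neg (fun h' => h h'.symm)]

theorem AE4_cart_zero {a : I → I → ℕ} {N : Finset I} {κ : I → ℕ}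
    (hadj : ∀ x ∈ N, ∀ y ∈ N, 0 < a x y → κ x = κ y) {x y : I} (hx : x ∈ N) (hy : y ∈ N)
    (h : κ x ≠ κ y) : cart a x y = 0 := by
  have h1 : x ≠ y := fun e => h (by rw [e])
  have h2 : a x y = 0 := by
    by_contra h0
    exact h (hadj x hx y hy (Nat.pos_of_ne_zero h0))
  unfold cart
  rw [if_neg h1, h2]
  rfl

/-- the exponents after an integral monomial supported on `N`. -/
theorem AE4_E (a : I → I → ℕ) (hs : ∀ i j, a i j = a j i) (N : Finset I) (κ : I → ℕ)
    (hadj : ∀ x ∈ N, ∀ y ∈ N, 0 < a x y → κ x = κ y) (T : Trm I) (v : I → ℤ)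
    (hv : ∀ i, i ∉ N → v i = 0) (x : I) (hx : x ∈ N) (l : ℕ) :
    (T.etaM a κ (fun i => (v i : ℚ))).E (x, l) =
      T.E (x, l) - if l = κ x then ((∑ j ∈ N, cart a x j * v j : ℤ) : ℚ) else 0 := by
  rw [etaM_E]
  congr 1
  by_cases hl : l = κ x
  · subst hl
    rw [if_pos rfl, Finset.sum_filter]
    have e1 : (∑ j ∈ N, cart a x j * v j : ℤ) =
        ∑ j, if j ∈ N then cart a x j * v j else 0 := by
      rw [Finset.sum_ite_mem, Finset.univ_inter]
    rw [e1, Int.cast_sum]
    refine Finset.sum_congr rfl (fun y _ => ?_)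
    by_cases hy : y ∈ N
    · rw [if_pos hy]
      by_cases hk : κ y = κ x
      · rw [if_pos hk, Int.cast_mul, AE4_cart_symm hs x y, mul_comm]
      · rw [if_neg hk, AE4_cart_zero hadj hx hy (fun h => hk h.symm)]
        simp
    · rw [if_neg hy, hv y hy]
      simp
  · rw [if_neg hl]
    apply Finset.sum_eq_zero
    intro y hy
    rw [Finset.mem_filter] at hy
    by_cases hyN : y ∈ N
    · rw [AE4_cart_zero hadj hyN hx (by rw [hy.2]; exact hl)]
      simp
    · rw [hv y hyN]
      simp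

theorem AE4_FReg (a : I → I → ℕ) (hs : ∀ i j, a i j = a j i) (N : Finset I) (κ σ : I → ℕ)
    (hadj : ∀ x ∈ N, ∀ y ∈ N, 0 < a x y → κ x = κ y) (T : Trm I)
    (h : ∀ x ∈ N, FReg T x (κ x) (σ x)) (v : I → ℤ) (hv : ∀ i, i ∉ N → v i = 0) (x : I)
    (hx : x ∈ N) : FReg (T.etaM a κ (fun i => (v i : ℚ))) x (κ x) (σ x) where
  nat := by
    intro l hl hlk
    rw [AE4_E a hs N κ hadj T v hv x hx l, if_neg hlk, sub_zero]
    exact (h x hx).nat l hl hlk
  int := by
    rw [AE4_E a hs N κ hadj T v hv x hx (κ x), if_pos rfl]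
    obtain ⟨n, hn⟩ := (h x hx).int
    exact ⟨n - ∑ j ∈ N, cart a x j * v j, by rw [hn, Int.cast_sub]⟩
  col := by
    intro j l hl hΛ
    by_cases hlk : l = κ x
    · exact Or.inr (Or.inl hlk)
    · rcases (h x hx).col j l hl hΛ with h1 | h1 | h1
      · exact Or.inl h1
      · exact Or.inr (Or.inl h1)
      · right; right
        rw [AE4_E a hs N κ hadj T v hv x hx l, if_neg hlk, sub_zero]
        exact h1

/-- an integral configuration. -/
theorem AE4_nu (N : Finset I) (κ σ : I → ℕ) (T : Trm I) (h : ∀ x ∈ N, FReg T x (κ x) (σ x)) :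
    ∃ ν : I → ℤ, ∀ x ∈ N, T.E (x, κ x) = ν x := by
  classical
  refine ⟨fun x => if hx : x ∈ N then ((h x hx).int).choose else 0, ?_⟩
  intro x hx
  simp only [dif_pos hx]
  exact ((h x hx).int).choose_spec

theorem AE4_pow_E (T : Trm I) (p : ℚ) (ik : I × ℕ) : (T.pow p).E ik = p * T.E ik := rfl

theorem TV_rep (a : I → I → ℕ) (hs : ∀ i j, a i j = a j i) (N : Finset I) (hN : FinT a N)
    (κ σ : I → ℕ) (hκ : ∀ x ∈ N, 1 ≤ κ x)
    (hadj : ∀ x ∈ N, ∀ y ∈ N, 0 < a x y → κ x = κ y) (hσ : ∀ x ∈ N, Side (κ x) (σ x)) (T : Trm I)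
    (h : ∀ x ∈ N, FReg T x (κ x) (σ x))
    (h1 : ∀ x ∈ N, 0 < solN a N (fun i => T.E (i, κ i)) x)
    (v : I → ℤ) (hv : ∀ i, i ∉ N → v i = 0)
    (h2 : ∀ x ∈ N, (v x : ℚ) < solN a N (fun i => T.E (i, κ i)) x) :
    TV a T = TV a (T.etaM a κ (fun i => (v i : ℚ))) := by
  obtain ⟨ν, hν⟩ := AE4_nu N κ σ T h
  have hsol : solN a N (fun i => T.E (i, κ i)) = solN a N (fun i => (ν i : ℚ)) :=
    solN_congr hs hN _ _ hν
  rw [hsol] at h1 h2
  obtain ⟨P, hP⟩ := fire_large hs hN 3 (by norm_num) ν v hv h1 h2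
  have key : TV a T = 1 * TV a (T.etaM a κ (fun i => (v i : ℚ))) := by
    apply TV_eq_of_pow a hs
    refine ⟨1, max P 1, le_refl _, ?_⟩
    intro p hp _ _
    have hpP : P ≤ p := le_trans (le_max_left _ _) hp
    have hp1 : 1 ≤ p := le_trans (le_max_right _ _) hp
    obtain ⟨d, d', hd', hd0, hf, hf', -⟩ := hP p hpP
    rw [one_mul]
    have e1 : TV a (T.pow p) = TV a ((T.pow p).etaM a κ (fun i => (d i : ℚ))) := by
      refine TV_fire a hs N hN.loopfree κ σ hκ hadj hσ (T.pow p)
        (fun x hx => (h x hx).pow p hp1) _ ?_ d hf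
      intro x hx
      rw [AE4_pow_E, hν x hx]
      push_cast
      ring
    have hT' : ∀ x ∈ N, FReg (T.etaM a κ (fun i => (v i : ℚ))) x (κ x) (σ x) :=
      fun x hx => AE4_FReg a hs N κ σ hadj T h v hv x hx
    have e2 : TV a ((T.etaM a κ (fun i => (v i : ℚ))).pow p) =
        TV a (((T.etaM a κ (fun i => (v i : ℚ))).pow p).etaM a κ (fun i => (d' i : ℚ))) := by
      refine TV_fire a hs N hN.loopfree κ σ hκ hadj hσ _
        (fun x hx => (hT' x hx).pow p hp1) _ ?_ d' hf'
      intro x hx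
      rw [AE4_pow_E, AE4_E a hs N κ hadj T v hv x hx (κ x), if_pos rfl, hν x hx]
      push_cast
      ring
    rw [e1, e2, etaM_pow, etaM_etaM]
    congr 2
    funext i
    have := hd' i
    have h3 : ((d' i : ℤ) : ℚ) = ((d i : ℤ) : ℚ) - p * v i := by
      rw [this]
      push_cast
      ring
    rw [Int.cast_natCast, Int.cast_natCast] at h3
    rw [h3]
    ring
  rw [key, one_mul]

/-- after raising to a large power, the exponents on `N` can be made `≥ θ` (any bound) by firing. -/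
theorem TV_large (a : I → I → ℕ) (hs : ∀ i j, a i j = a j i) (N : Finset I) (hN : FinT a N)
    (κ σ : I → ℕ) (hκ : ∀ x ∈ N, 1 ≤ κ x)
    (hadj : ∀ x ∈ N, ∀ y ∈ N, 0 < a x y → κ x = κ y) (hσ : ∀ x ∈ N, Side (κ x) (σ x)) (T : Trm I)
    (h : ∀ x ∈ N, FReg T x (κ x) (σ x))
    (h1 : ∀ x ∈ N, 0 < solN a N (fun i => T.E (i, κ i)) x) (θ : ℤ) (hθ : 3 ≤ θ) :
    ∃ P : ℕ, ∀ p : ℕ, P ≤ p → ∃ d : I → ℕ, (∀ i, i ∉ N → d i = 0) ∧
      TV a (T.pow p) = TV a ((T.pow p).etaM a κ (fun i => (d i : ℚ))) ∧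
      (∀ x ∈ N, FReg ((T.pow p).etaM a κ (fun i => (d i : ℚ))) x (κ x) (σ x)) ∧
      ∀ x ∈ N, (θ : ℚ) ≤ ((T.pow p).etaM a κ (fun i => (d i : ℚ))).E (x, κ x) := by
  obtain ⟨ν, hν⟩ := AE4_nu N κ σ T h
  have hsol : solN a N (fun i => T.E (i, κ i)) = solN a N (fun i => (ν i : ℚ)) :=
    solN_congr hs hN _ _ hν
  rw [hsol] at h1
  obtain ⟨P, hP⟩ := fire_large hs hN θ (by linarith) ν (fun _ => 0) (fun _ _ => rfl) h1
    (fun x hx => by simpa using h1 x hx)
  refine ⟨max P 1, ?_⟩
  intro p hp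
  have hpP : P ≤ p := le_trans (le_max_left _ _) hp
  have hp1 : 1 ≤ p := le_trans (le_max_right _ _) hp
  obtain ⟨d, d', hd', hd0, hf, -, hlast⟩ := hP p hpP
  have hpow : ∀ x ∈ N, FReg (T.pow p) x (κ x) (σ x) := fun x hx => (h x hx).pow p hp1
  have hcast : (fun i => (d i : ℚ)) = fun i => (((d i : ℤ)) : ℚ) := by
    funext i
    rw [Int.cast_natCast]
  have hdz : ∀ i, i ∉ N → ((d i : ℤ)) = 0 := fun i hi => by rw [hd0 i hi]; rfl
  refine ⟨d, hd0, ?_, ?_, ?_⟩
  · refine TV_fire a hs N hN.loopfree κ σ hκ hadj hσ (T.pow p) hpow _ ?_ d (hf.mono hθ)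
    intro x hx
    rw [AE4_pow_E, hν x hx]
    push_cast
    ring
  · intro x hx
    rw [hcast]
    exact AE4_FReg a hs N κ σ hadj (T.pow p) hpow _ hdz x hx
  · intro x hx
    rw [hcast, AE4_E a hs N κ hadj (T.pow p) _ hdz x hx (κ x), if_pos rfl, AE4_pow_E, hν x hx]
    have := hlast x hx
    have h3 : (θ : ℚ) ≤ (((p : ℤ) * ν x - ∑ j ∈ N, cart a x j * (d j : ℤ) : ℤ) : ℚ) := by
      exact_mod_cast this
    rw [Int.cast_sub] at h3
    push_cast at h3 ⊢
    exact h3

end

end Pool.Agent.H27.KAC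

end

section

/-!
KAC ADE, module AG1b: algebra of explicit terms; unions of separated blocks; components of unions.
-/

set_option autoImplicit false

namespace Pool.Agent.H27.KAC

open scoped BigOperators

section

variable {I : Type} [Fintype I] [DecidableEq I]

private theorem AG1b_eta_E (a : I → I → ℕ) (k : ℕ) (δ : I → ℚ) (T : Trm I) (i : I) (l : ℕ) :
    (T.eta a k δ).E (i, l) = T.E (i, l) - if l = k then ∑ x, δ x * (cart a x i : ℚ) else 0 := by
  rw [eta_eq_etaM, etaM_E]
  by_cases hl : l = k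
  · rw [if_pos hl, Finset.filter_true_of_mem (fun _ _ => hl.symm)]
  · rw [if_neg hl, Finset.filter_false_of_mem (fun _ _ h => hl h.symm), Finset.sum_empty]

private theorem AG1b_cart_zero (a : I → I → ℕ) {x y : I} (hne : x ≠ y) (h : a x y = 0) :
    (cart a x y : ℚ) = 0 := by
  unfold cart
  simp [hne, h]

private theorem AG1b_mem_comps (a : I → I → ℕ) (N A : Finset I) :
    A ∈ comps a N ↔ A ⊆ N ∧ ConnS a A ∧ ∀ i ∈ A, ∀ j ∈ N, j ∉ A → a i j = 0 := by
  unfold comps
  simp only [Finset.mem_filter, Finset.mem_powerset]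

private theorem AG1b_QOk_congr {a : I → I → ℕ} {A : Finset I} {q q' : I → ℚ}
    (h : ∀ x ∈ A, q x = q' x) (hq : QOk a A q) : QOk a A q' := by
  intro x hx
  obtain ⟨n, hn, hc⟩ := hq x hx
  refine ⟨n, hn, ?_⟩
  rw [← hc]
  unfold cqN
  refine Finset.sum_congr rfl fun j hj => ?_
  rw [h j hj]

private theorem AG1b_sep_uni {a : I → I → ℕ} {A : Finset I} {U : List (Finset I × FFn I)}
    (h : ∀ b ∈ U, Sep a A b.1) : Sep a A (uni U) := by
  induction U with
  | nil => exact ⟨Finset.disjoint_empty_right _, fun x _ y hy => absurd hy (Finset.notMem_empty y)⟩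
  | cons b U ih =>
    have h1 := h b List.mem_cons_self
    have h2 := ih (fun c hc => h c (List.mem_cons_of_mem _ hc))
    refine ⟨Finset.disjoint_union_right.2 ⟨h1.1, h2.1⟩, fun x hx y hy => ?_⟩
    rcases Finset.mem_union.1 hy with hy | hy
    · exact h1.2 x hx y hy
    · exact h2.2 x hx y hy

theorem Sep.symm {a : I → I → ℕ} (hs : ∀ i j, a i j = a j i) {A B : Finset I} (h : Sep a A B) :
    Sep a B A := by
  exact ⟨h.1.symm, fun x hx y hy => by rw [hs]; exact h.2 y hy x hx⟩

theorem Sep.mono {a : I → I → ℕ} {A B A' B' : Finset I} (h : Sep a A B) (hA : A' ⊆ A) (hB : B' ⊆ B) :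
    Sep a A' B' := by
  exact ⟨Finset.disjoint_of_subset_left hA (Finset.disjoint_of_subset_right hB h.1),
    fun x hx y hy => h.2 x (hA hx) y (hB hy)⟩

theorem Sep_union {a : I → I → ℕ} {A B C : Finset I} (h : Sep a A C) (h' : Sep a B C) :
    Sep a (A ∪ B) C := by
  refine ⟨Finset.disjoint_union_left.2 ⟨h.1, h'.1⟩, fun x hx y hy => ?_⟩
  rcases Finset.mem_union.1 hx with hx | hx
  · exact h.2 x hx y hy
  · exact h'.2 x hx y hy

theorem mem_uniB (L : List (Blk I)) (x : I) : x ∈ uniB L ↔ ∃ b ∈ L, x ∈ b.B := by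
  induction L with
  | nil => simp [uniB]
  | cons b L ih =>
    have h : uniB (b :: L) = b.B ∪ uniB L := rfl
    rw [h, Finset.mem_union, ih]
    simp

theorem mem_uniR (L : List (RB I)) (x : I) : x ∈ uniR L ↔ ∃ b ∈ L, x ∈ b.B := by
  induction L with
  | nil => simp [uniR]
  | cons b L ih =>
    have h : uniR (b :: L) = b.B ∪ uniR L := rfl
    rw [h, Finset.mem_union, ih]
    simp

theorem mem_uni (U : List (Finset I × FFn I)) (x : I) : x ∈ uni U ↔ ∃ b ∈ U, x ∈ b.1 := by
  induction U with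
  | nil => simp [uni]
  | cons b L ih =>
    have h : uni (b :: L) = b.1 ∪ uni L := rfl
    rw [h, Finset.mem_union, ih]
    simp

theorem uni_map_blk (L : List (Blk I)) : uni (L.map (fun b => (b.B, b.Φ))) = uniB L := by
  induction L with
  | nil => rfl
  | cons b L ih =>
    have h : uniB (b :: L) = b.B ∪ uniB L := rfl
    have h' : uni ((b :: L).map (fun b => (b.B, b.Φ))) =
        b.B ∪ uni (L.map (fun b => (b.B, b.Φ))) := rfl
    rw [h, h', ih]

/-- exponents of `blkT`. -/
theorem blkT_E (a : I → I → ℕ) (B : Finset I) (k σ : ℕ) (q : I → ℚ) (T : Trm I) (i : I) (l : ℕ) :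
    (blkT a B k σ q T).E (i, l) =
      T.E (i, l) + if l = k then ∑ x ∈ B, q x * (cart a x i : ℚ) else 0 := by
  have h : (blkT a B k σ q T).E (i, l) = (T.eta a k (fun i => -resQ B q i)).E (i, l) := rfl
  rw [h, AG1b_eta_E]
  by_cases hl : l = k
  · rw [if_pos hl, if_pos hl]
    have h2 : ∑ x, -resQ B q x * (cart a x i : ℚ) = -∑ x ∈ B, q x * (cart a x i : ℚ) := by
      rw [← Finset.sum_neg_distrib, ← Finset.sum_subset (Finset.subset_univ B)]
      · refine Finset.sum_congr rfl fun x hx => ?_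
        rw [resQ, if_pos hx]
        ring
      · intro x _ hx
        rw [resQ, if_neg hx]
        ring
    rw [h2]
    ring
  · rw [if_neg hl, if_neg hl]
    ring

/-- exponents of `rawT`. -/
theorem rawT_E (a : I → I → ℕ) (R : Finset I) (k : ℕ) (q : I → ℚ) (m : I → ℕ) (T : Trm I) (i : I)
    (l : ℕ) : (rawT a R k q m T).E (i, l) =
      T.E (i, l) - if l = k then ∑ x ∈ R, ((m x : ℚ) - q x) * (cart a x i : ℚ) else 0 := by
  have h : (rawT a R k q m T).E (i, l) =
      (T.eta a k (fun i => if i ∈ R then (m i : ℚ) - q i else 0)).E (i, l) := rfl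
  rw [h, AG1b_eta_E]
  by_cases hl : l = k
  · rw [if_pos hl, if_pos hl]
    have h2 : ∑ x, (if x ∈ R then (m x : ℚ) - q x else 0) * (cart a x i : ℚ) =
        ∑ x ∈ R, ((m x : ℚ) - q x) * (cart a x i : ℚ) := by
      rw [← Finset.sum_subset (Finset.subset_univ R)]
      · refine Finset.sum_congr rfl fun x hx => ?_
        rw [if_pos hx]
      · intro x _ hx
        rw [if_neg hx]
        ring
    rw [h2]
  · rw [if_neg hl, if_neg hl]

/-- only the values of `q` on `B` matter. -/
theorem blkT_congr (a : I → I → ℕ) (B : Finset I) (k σ : ℕ) (q q' : I → ℚ)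
    (h : ∀ x ∈ B, q x = q' x) (T : Trm I) : blkT a B k σ q T = blkT a B k σ q' T := by
  have h1 : (fun i => -resQ B q i) = fun i => -resQ B q' i := by
    funext i
    unfold resQ
    by_cases hi : i ∈ B
    · rw [if_pos hi, if_pos hi, h i hi]
    · rw [if_neg hi, if_neg hi]
  unfold blkT
  rw [h1]

theorem rawT_congr (a : I → I → ℕ) (R : Finset I) (k : ℕ) (q q' : I → ℚ) (m m' : I → ℕ)
    (h : ∀ x ∈ R, q x = q' x) (h' : ∀ x ∈ R, m x = m' x) (T : Trm I) :
    rawT a R k q m T = rawT a R k q' m' T := by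
  have h1 : (fun i => if i ∈ R then (m i : ℚ) - q i else 0) =
      fun i => if i ∈ R then (m' i : ℚ) - q' i else 0 := by
    funext i
    by_cases hi : i ∈ R
    · rw [if_pos hi, if_pos hi, h i hi, h' i hi]
    · rw [if_neg hi, if_neg hi]
  unfold rawT
  rw [h1]
  unfold Trm.cols
  congr 1
  funext i
  by_cases hi : i ∈ R
  · rw [if_pos hi, if_pos hi]
    show (if m i = 0 then sy i (k - 1) else cE a i k) = (if m' i = 0 then sy i (k - 1) else cE a i k)
    rw [h' i hi]
  · rw [if_neg hi, if_neg hi]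

theorem rawT_union (a : I → I → ℕ) (A B : Finset I) (h : Disjoint A B) (k : ℕ) (q : I → ℚ)
    (m : I → ℕ) (T : Trm I) : rawT a (A ∪ B) k q m T = rawT a A k q m (rawT a B k q m T) := by
  apply Trm.ext
  · funext i
    change T.γ i - k * (if i ∈ A ∪ B then (m i : ℚ) - q i else 0) =
      T.γ i - k * (if i ∈ B then (m i : ℚ) - q i else 0) -
        k * (if i ∈ A then (m i : ℚ) - q i else 0)
    by_cases hA : i ∈ A
    · have hB : i ∉ B := Finset.disjoint_left.1 h hA
      rw [if_pos (Finset.mem_union_left _ hA), if_neg hB, if_pos hA]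
      ring
    · by_cases hB : i ∈ B
      · rw [if_pos (Finset.mem_union_right _ hB), if_pos hB, if_neg hA]
        ring
      · rw [if_neg (by rw [Finset.mem_union]; tauto), if_neg hB, if_neg hA]
        ring
  · refine Finsupp.ext fun ik => ?_
    obtain ⟨i, l⟩ := ik
    rw [rawT_E, rawT_E, rawT_E, Finset.sum_union h]
    by_cases hl : l = k
    · rw [if_pos hl, if_pos hl, if_pos hl]
      ring
    · rw [if_neg hl, if_neg hl, if_neg hl]
      ring
  · funext i
    change (if i ∈ A ∪ B then (if m i = 0 then sy i (k - 1) else cE a i k) else T.Λ i) =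
      if i ∈ A then (if m i = 0 then sy i (k - 1) else cE a i k) else
        if i ∈ B then (if m i = 0 then sy i (k - 1) else cE a i k) else T.Λ i
    by_cases hA : i ∈ A
    · rw [if_pos (Finset.mem_union_left _ hA), if_pos hA]
    · by_cases hB : i ∈ B
      · rw [if_pos (Finset.mem_union_right _ hB), if_neg hA, if_pos hB]
      · rw [if_neg (by rw [Finset.mem_union]; tauto), if_neg hA, if_neg hB]

theorem blkT_etaM_comm (a : I → I → ℕ) (B : Finset I) (k σ : ℕ) (q : I → ℚ) (κ : I → ℕ)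
    (δ : I → ℚ) (T : Trm I) :
    blkT a B k σ q (T.etaM a κ δ) = (blkT a B k σ q T).etaM a κ δ := by
  apply Trm.ext
  · funext i
    change T.γ i - κ i * δ i - k * -resQ B q i = T.γ i - k * -resQ B q i - κ i * δ i
    ring
  · exact sub_right_comm _ _ _
  · rfl

theorem blkT_col_comm (a : I → I → ℕ) (B : Finset I) (k σ : ℕ) (q : I → ℚ) (j : I) (hj : j ∉ B)
    (c : QE I) (T : Trm I) : blkT a B k σ q (T.col j c) = (blkT a B k σ q T).col j c := by
  apply Trm.ext
  · rfl
  · rfl
  · funext i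
    change (if i ∈ B then sy i σ else Function.update T.Λ j c i) =
      Function.update (fun i => if i ∈ B then sy i σ else T.Λ i) j c i
    by_cases hij : i = j
    · subst hij
      rw [if_neg hj, Function.update_self, Function.update_self]
    · rw [Function.update_of_ne hij, Function.update_of_ne hij]

theorem rawT_col_comm (a : I → I → ℕ) (B : Finset I) (k : ℕ) (q : I → ℚ) (m : I → ℕ) (j : I)
    (hj : j ∉ B) (c : QE I) (T : Trm I) :
    rawT a B k q m (T.col j c) = (rawT a B k q m T).col j c := by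
  apply Trm.ext
  · rfl
  · rfl
  · funext i
    change (if i ∈ B then (if m i = 0 then sy i (k - 1) else cE a i k) else
        Function.update T.Λ j c i) =
      Function.update (fun i => if i ∈ B then (if m i = 0 then sy i (k - 1) else cE a i k) else
        T.Λ i) j c i
    by_cases hij : i = j
    · subst hij
      rw [if_neg hj, Function.update_self, Function.update_self]
    · rw [Function.update_of_ne hij, Function.update_of_ne hij]

/-! explicit terms of lists -/

theorem expl_nil (a : I → I → ℕ) (f : ℕ) (T : Trm I) : expl a f [] T = T := by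
  rfl

theorem expl_cons (a : I → I → ℕ) (f : ℕ) (b : Blk I) (L : List (Blk I)) (T : Trm I) :
    expl a f (b :: L) T = blkT a b.B f (b.sd f) b.q (expl a f L T) := by
  rfl

theorem expl_append (a : I → I → ℕ) (f : ℕ) (L L' : List (Blk I)) (T : Trm I) :
    expl a f (L ++ L') T = expl a f L (expl a f L' T) := by
  induction L with
  | nil => rfl
  | cons b L ih =>
    rw [List.cons_append, expl_cons, expl_cons, ih]

theorem expl_E (a : I → I → ℕ) (f : ℕ) (L : List (Blk I)) (T : Trm I) (i : I) (l : ℕ) :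
    (expl a f L T).E (i, l) = T.E (i, l) +
      if l = f then (L.map (fun b => ∑ x ∈ b.B, b.q x * (cart a x i : ℚ))).sum else 0 := by
  induction L with
  | nil =>
    rw [expl_nil, List.map_nil, List.sum_nil, ite_self, add_zero]
  | cons b L ih =>
    rw [expl_cons, blkT_E, ih, List.map_cons, List.sum_cons]
    by_cases hl : l = f
    · rw [if_pos hl, if_pos hl, if_pos hl]
      ring
    · rw [if_neg hl, if_neg hl, if_neg hl]
      ring

theorem expl_Λ_out (a : I → I → ℕ) (f : ℕ) (L : List (Blk I)) (T : Trm I) (j : I)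
    (hj : j ∉ uniB L) : (expl a f L T).Λ j = T.Λ j := by
  induction L with
  | nil => rfl
  | cons b L ih =>
    have h : uniB (b :: L) = b.B ∪ uniB L := rfl
    rw [h, Finset.mem_union, not_or] at hj
    change (if j ∈ b.B then sy j (b.sd f) else (expl a f L T).Λ j) = T.Λ j
    rw [if_neg hj.1, ih hj.2]

theorem expl_Λ_in (a : I → I → ℕ) (f : ℕ) (L : List (Blk I)) (T : Trm I)
    (hd : L.Pairwise (fun b c => Disjoint b.B c.B)) (b : Blk I) (hb : b ∈ L) (j : I)
    (hj : j ∈ b.B) : (expl a f L T).Λ j = sy j (b.sd f) := by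
  induction L with
  | nil => simp at hb
  | cons c L ih =>
    rw [List.pairwise_cons] at hd
    change (if j ∈ c.B then sy j (c.sd f) else (expl a f L T).Λ j) = sy j (b.sd f)
    rcases List.mem_cons.1 hb with rfl | hb
    · rw [if_pos hj]
    · have h1 : j ∉ c.B := fun h => Finset.disjoint_left.1 (hd.1 b hb) h hj
      rw [if_neg h1, ih hd.2 hb]

theorem expl_etaM_comm (a : I → I → ℕ) (f : ℕ) (L : List (Blk I)) (κ : I → ℕ) (δ : I → ℚ)
    (T : Trm I) : expl a f L (T.etaM a κ δ) = (expl a f L T).etaM a κ δ := by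
  induction L with
  | nil => rfl
  | cons b L ih => rw [expl_cons, expl_cons, ih, blkT_etaM_comm]

theorem expl_rawT_comm (a : I → I → ℕ) (f : ℕ) (L : List (Blk I)) (A : Finset I)
    (h : Disjoint A (uniB L)) (k : ℕ) (q : I → ℚ) (m : I → ℕ) (T : Trm I) :
    expl a f L (rawT a A k q m T) = rawT a A k q m (expl a f L T) := by
  induction L with
  | nil => rfl
  | cons b L ih =>
    have h1 : uniB (b :: L) = b.B ∪ uniB L := rfl
    rw [h1, Finset.disjoint_union_right] at h
    rw [expl_cons, expl_cons, ih h.2, rawT_blkT_comm a A b.B h.1]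

theorem expl_blkT_comm (a : I → I → ℕ) (f : ℕ) (L : List (Blk I)) (A : Finset I)
    (h : Disjoint A (uniB L)) (k σ : ℕ) (q : I → ℚ) (T : Trm I) :
    expl a f L (blkT a A k σ q T) = blkT a A k σ q (expl a f L T) := by
  induction L with
  | nil => rfl
  | cons b L ih =>
    have h1 : uniB (b :: L) = b.B ∪ uniB L := rfl
    rw [h1, Finset.disjoint_union_right] at h
    rw [expl_cons, expl_cons, ih h.2, blkT_comm a A b.B h.1]

theorem blkT_empty (a : I → I → ℕ) (k σ : ℕ) (q : I → ℚ) (T : Trm I) : blkT a ∅ k σ q T = T := by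
  apply Trm.ext
  · funext i
    change T.γ i - k * -resQ ∅ q i = T.γ i
    rw [resQ, if_neg (Finset.notMem_empty i)]
    ring
  · refine Finsupp.ext fun ik => ?_
    obtain ⟨i, l⟩ := ik
    rw [blkT_E, Finset.sum_empty, ite_self, add_zero]
  · funext i
    change (if i ∈ (∅ : Finset I) then sy i σ else T.Λ i) = T.Λ i
    rw [if_neg (Finset.notMem_empty i)]

/-- lists of blocks with the same class vector and the same side form one block. -/
theorem expl_merge (a : I → I → ℕ) (f : ℕ) (L : List (Blk I)) (q : I → ℚ) (up : Bool)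
    (hd : L.Pairwise (fun b c => Disjoint b.B c.B)) (hq : ∀ b ∈ L, ∀ x ∈ b.B, b.q x = q x)
    (hup : ∀ b ∈ L, b.up = up) (T : Trm I) :
    expl a f L T = blkT a (uniB L) f (if up then f - 1 else f + 1) q T := by
  induction L with
  | nil =>
    rw [expl_nil]
    exact (blkT_empty a f _ q T).symm
  | cons b L ih =>
    have h1 : uniB (b :: L) = b.B ∪ uniB L := rfl
    rw [List.pairwise_cons] at hd
    have h2 : Disjoint b.B (uniB L) := by
      rw [Finset.disjoint_left]
      intro x hx hx'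
      obtain ⟨c, hc, hxc⟩ := (mem_uniB L x).1 hx'
      exact Finset.disjoint_left.1 (hd.1 c hc) hx hxc
    have h3 : b.sd f = if up then f - 1 else f + 1 := by
      unfold Blk.sd
      rw [hup b List.mem_cons_self]
    rw [expl_cons, ih hd.2 (fun c hc => hq c (List.mem_cons_of_mem _ hc))
      (fun c hc => hup c (List.mem_cons_of_mem _ hc)), h3, h1,
      blkT_congr a b.B f _ b.q q (hq b List.mem_cons_self), blkT_union a _ _ h2]

/-- regularity of explicit terms on a separated set. -/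
theorem RReg_expl (a : I → I → ℕ) (hs : ∀ i j, a i j = a j i) (f : ℕ) (L : List (Blk I))
    (A : Finset I) (hAB : Sep a A (uniB L)) (T : Trm I) (hT : RReg (A ∪ uniB L) T) :
    RReg A (expl a f L T) := by
  have hin : ∀ j ∈ uniB L, ∃ σ : ℕ, (expl a f L T).Λ j = sy j σ := by
    intro j hj
    clear hAB hT
    induction L with
    | nil => simp [uniB] at hj
    | cons b L ih =>
      have h1 : uniB (b :: L) = b.B ∪ uniB L := rfl
      rw [h1, Finset.mem_union] at hj
      change ∃ σ : ℕ, (if j ∈ b.B then sy j (b.sd f) else (expl a f L T).Λ j) = sy j σ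
      by_cases hb : j ∈ b.B
      · exact ⟨_, if_pos hb⟩
      · obtain ⟨σ, hσ⟩ := ih (hj.resolve_left hb)
        exact ⟨σ, by rw [if_neg hb, hσ]⟩
  have hE : ∀ x ∈ A, ∀ l, (expl a f L T).E (x, l) = T.E (x, l) := by
    intro x hx l
    rw [expl_E]
    have h0 : (L.map (fun b => ∑ y ∈ b.B, b.q y * (cart a y x : ℚ))).sum = 0 := by
      apply List.sum_eq_zero
      intro r hr
      rw [List.mem_map] at hr
      obtain ⟨b, hb, rfl⟩ := hr
      refine Finset.sum_eq_zero fun y hy => ?_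
      have hy' : y ∈ uniB L := (mem_uniB L y).2 ⟨b, hb, hy⟩
      have hne : y ≠ x := fun h => Finset.disjoint_left.1 hAB.1 hx (h ▸ hy')
      have h0 : a y x = 0 := by rw [hs]; exact hAB.2 x hx y hy'
      have hc : (cart a y x : ℚ) = 0 := AG1b_cart_zero a hne h0
      rw [hc, mul_zero]
    rw [h0, ite_self, add_zero]
  refine ⟨fun x hx l hl => ?_, fun x hx j hj l hl hne => ?_⟩
  · rw [hE x hx]
    exact hT.nat x (Finset.mem_union_left _ hx) l hl
  · rw [hE x hx]
    by_cases hjL : j ∈ uniB L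
    · exfalso
      obtain ⟨σ, hσ⟩ := hin j hjL
      rw [hσ] at hne
      apply hne
      have hjx : j ≠ x := fun h => hj (h ▸ hx)
      exact Finsupp.single_eq_of_ne (fun h => hjx (congrArg Prod.fst h.symm))
    · rw [expl_Λ_out a f L T j hjL] at hne
      exact hT.col x (Finset.mem_union_left _ hx) j (by rw [Finset.mem_union]; tauto) l hl hne

/-! components and patterns of unions -/

theorem ConnS_subset_of_sep {a : I → I → ℕ} (hs : ∀ i j, a i j = a j i) {A B C : Finset I}
    (h : Sep a A B) (hC : ConnS a C) (hsub : C ⊆ A ∪ B) : C ⊆ A ∨ C ⊆ B := by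
  by_contra hcon
  rw [not_or] at hcon
  obtain ⟨hA, hB⟩ := hcon
  have h1 : (C ∩ A).Nonempty := by
    rw [Finset.not_subset] at hB
    obtain ⟨x, hx, hxB⟩ := hB
    exact ⟨x, Finset.mem_inter.2 ⟨hx, (Finset.mem_union.1 (hsub hx)).resolve_right hxB⟩⟩
  have h2 : C ∩ A ≠ C := fun h => hA (Finset.inter_eq_left.1 h)
  obtain ⟨i, hi, j, hj, hjn, hij⟩ := hC.2 (C ∩ A) Finset.inter_subset_left h1 h2
  have hjA : j ∉ A := fun h => hjn (Finset.mem_inter.2 ⟨hj, h⟩)
  have hjB : j ∈ B := (Finset.mem_union.1 (hsub hj)).resolve_left hjA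
  have := h.2 i (Finset.mem_inter.1 hi).2 j hjB
  omega

theorem comps_union_sep {a : I → I → ℕ} (hs : ∀ i j, a i j = a j i) {A B : Finset I}
    (h : Sep a A B) : comps a (A ∪ B) = comps a A ∪ comps a B := by
  ext C
  rw [Finset.mem_union, AG1b_mem_comps, AG1b_mem_comps, AG1b_mem_comps]
  constructor
  · rintro ⟨h1, h2, h3⟩
    rcases ConnS_subset_of_sep hs h h2 h1 with h4 | h4
    · exact Or.inl ⟨h4, h2, fun i hi j hj hjC => h3 i hi j (Finset.mem_union_left _ hj) hjC⟩
    · exact Or.inr ⟨h4, h2, fun i hi j hj hjC => h3 i hi j (Finset.mem_union_right _ hj) hjC⟩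
  · rintro (⟨h1, h2, h3⟩ | ⟨h1, h2, h3⟩)
    · refine ⟨h1.trans Finset.subset_union_left, h2, fun i hi j hj hjC => ?_⟩
      rcases Finset.mem_union.1 hj with hj | hj
      · exact h3 i hi j hj hjC
      · exact h.2 i (h1 hi) j hj
    · refine ⟨h1.trans Finset.subset_union_right, h2, fun i hi j hj hjC => ?_⟩
      rcases Finset.mem_union.1 hj with hj | hj
      · rw [hs]
        exact h.2 j hj i (h1 hi)
      · exact h3 i hi j hj hjC

theorem insS_union (A B : Finset I) (π : Pat I) : insS (A ∪ B) π = insS A π ∪ insS B π := by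
  unfold insS
  rw [Finset.filter_union]

theorem insS_subset (B : Finset I) (π : Pat I) : insS B π ⊆ B := by
  exact Finset.filter_subset _ _

theorem insS_congr (B : Finset I) (π π' : Pat I) (h : ∀ x ∈ B, π.q x = π'.q x) :
    insS B π = insS B π' := by
  unfold insS
  refine Finset.filter_congr fun x hx => ?_
  rw [h x hx]

theorem PatOk.congr {a : I → I → ℕ} {B : Finset I} {π π' : Pat I} (h : PatOk a B π)
    (hs : ∀ x ∈ B, π.s x = π'.s x) (hq : ∀ x ∈ B, π.q x = π'.q x) : PatOk a B π' := by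
  have h1 := insS_congr B π π' hq
  refine ⟨fun A hA => ?_, fun A hA x hx y hy => ?_⟩
  · rw [← h1] at hA
    refine AG1b_QOk_congr (fun x hx => ?_) (h.qok A hA)
    exact hq x (insS_subset B π (comps_subset hA hx))
  · rw [← h1] at hA
    rw [← hs x (insS_subset B π (comps_subset hA hx)),
      ← hs y (insS_subset B π (comps_subset hA hy))]
    exact h.lev A hA x hx y hy

theorem PatWide.congr {a : I → I → ℕ} {cd : CrossData a} {B : Finset I} {f : ℕ} {π π' : Pat I}
    (h : PatWide a cd B f π) (hs : ∀ x ∈ B, π.s x = π'.s x) (hq : ∀ x ∈ B, π.q x = π'.q x) :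
    PatWide a cd B f π' := by
  have h1 := insS_congr B π π' hq
  refine ⟨h.toPatOk.congr hs hq, fun A hA x hx => ?_, fun A hA x hx => ?_⟩
  · rw [← h1] at hA
    rw [← hs x (insS_subset B π (comps_subset hA hx))]
    exact h.le A hA x hx
  · rw [← h1] at hA
    rw [← hs x (insS_subset B π (comps_subset hA hx))]
    exact h.ge A hA x hx

theorem WinPat.congr {a : I → I → ℕ} {cd : CrossData a} {B : Finset I} {q : I → ℚ} {f : ℕ}
    {π π' : Pat I} (h : WinPat a cd B q f π) (hs : ∀ x ∈ B, π.s x = π'.s x)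
    (hq : ∀ x ∈ B, π.q x = π'.q x) : WinPat a cd B q f π' := by
  have h1 := insS_congr B π π' hq
  refine ⟨h.toPatOk.congr hs hq, fun A hA x hx => ?_, fun A hA x hx => ?_, fun x hx h0 => ?_,
    fun x hx h0 => ?_, fun x hx => ?_⟩
  · rw [← h1] at hA
    rw [← hs x (insS_subset B π (comps_subset hA hx))]
    exact h.le A hA x hx
  · rw [← h1] at hA
    rw [← hs x (insS_subset B π (comps_subset hA hx))]
    exact h.ge A hA x hx
  · rw [← hs x hx]
    rw [← hq x hx] at h0
    exact h.sle x hx h0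
  · rw [← hs x hx]
    rw [← hq x hx] at h0
    exact h.sge x hx h0
  · rw [← hq x hx]
    exact h.cls x hx

theorem PatOk.union {a : I → I → ℕ} (hs : ∀ i j, a i j = a j i) {A B : Finset I} {π : Pat I}
    (hA : PatOk a A π) (hB : PatOk a B π) (h : Sep a A B) : PatOk a (A ∪ B) π := by
  have h1 : comps a (insS (A ∪ B) π) = comps a (insS A π) ∪ comps a (insS B π) := by
    rw [insS_union, comps_union_sep hs (h.mono (insS_subset A π) (insS_subset B π))]
  refine ⟨fun C hC => ?_, fun C hC => ?_⟩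
  · rw [h1, Finset.mem_union] at hC
    exact hC.elim (hA.qok C) (hB.qok C)
  · rw [h1, Finset.mem_union] at hC
    exact hC.elim (hA.lev C) (hB.lev C)

theorem PatWide.union {a : I → I → ℕ} (hs : ∀ i j, a i j = a j i) {cd : CrossData a}
    {A B : Finset I} {f : ℕ} {π : Pat I} (hA : PatWide a cd A f π) (hB : PatWide a cd B f π)
    (h : Sep a A B) : PatWide a cd (A ∪ B) f π := by
  have h1 : comps a (insS (A ∪ B) π) = comps a (insS A π) ∪ comps a (insS B π) := by
    rw [insS_union, comps_union_sep hs (h.mono (insS_subset A π) (insS_subset B π))]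
  refine ⟨hA.toPatOk.union hs hB.toPatOk h, fun C hC => ?_, fun C hC => ?_⟩
  · rw [h1, Finset.mem_union] at hC
    exact hC.elim (hA.le C) (hB.le C)
  · rw [h1, Finset.mem_union] at hC
    exact hC.elim (hA.ge C) (hB.ge C)

theorem WinPat.union {a : I → I → ℕ} (hs : ∀ i j, a i j = a j i) {cd : CrossData a}
    {A B : Finset I} {q : I → ℚ} {f : ℕ} {π : Pat I} (hA : WinPat a cd A q f π)
    (hB : WinPat a cd B q f π) (h : Sep a A B) : WinPat a cd (A ∪ B) q f π := by
  have h1 : comps a (insS (A ∪ B) π) = comps a (insS A π) ∪ comps a (insS B π) := by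
    rw [insS_union, comps_union_sep hs (h.mono (insS_subset A π) (insS_subset B π))]
  refine ⟨hA.toPatOk.union hs hB.toPatOk h, fun C hC => ?_, fun C hC => ?_, fun x hx => ?_,
    fun x hx => ?_, fun x hx => ?_⟩
  · rw [h1, Finset.mem_union] at hC
    exact hC.elim (hA.le C) (hB.le C)
  · rw [h1, Finset.mem_union] at hC
    exact hC.elim (hA.ge C) (hB.ge C)
  · exact (Finset.mem_union.1 hx).elim (hA.sle x) (hB.sle x)
  · exact (Finset.mem_union.1 hx).elim (hA.sge x) (hB.sge x)
  · exact (Finset.mem_union.1 hx).elim (hA.cls x) (hB.cls x)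

/-- adding a vertex without insertion (it may be adjacent to `B`). -/
theorem WinPat.insert {a : I → I → ℕ} {cd : CrossData a} {B : Finset I} {q : I → ℚ} {f : ℕ}
    {π : Pat I} (hB : WinPat a cd B q f π) (x : I) (hx : x ∉ B) (h0 : π.q x = 0)
    (h1 : π.s x ≤ f) (h2 : f < π.s x + 2) (hq : IsZ (q x)) :
    WinPat a cd (insert x B) q f π := by
  have h3 : insS (Insert.insert x B) π = insS B π := by
    unfold insS
    rw [Finset.filter_insert, if_neg (by rw [h0]; exact fun h => h rfl)]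
  refine ⟨⟨fun C hC => ?_, fun C hC => ?_⟩, fun C hC => ?_, fun C hC => ?_, fun y hy hy0 => ?_,
    fun y hy hy0 => ?_, fun y hy => ?_⟩
  · rw [h3] at hC
    exact hB.qok C hC
  · rw [h3] at hC
    exact hB.lev C hC
  · rw [h3] at hC
    exact hB.le C hC
  · rw [h3] at hC
    exact hB.ge C hC
  · rcases Finset.mem_insert.1 hy with rfl | hy
    · exact h1
    · exact hB.sle y hy hy0
  · rcases Finset.mem_insert.1 hy with rfl | hy
    · exact h2
    · exact hB.sge y hy hy0
  · rcases Finset.mem_insert.1 hy with rfl | hy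
    · rw [h0]
      obtain ⟨n, hn⟩ := hq
      exact ⟨-n, by rw [hn]; push_cast; ring⟩
    · exact hB.cls y hy

theorem PatOk_empty (a : I → I → ℕ) (π : Pat I) : PatOk a ∅ π := by
  have h1 : comps a (insS ∅ π) = ∅ := by
    ext C
    rw [AG1b_mem_comps]
    constructor
    · rintro ⟨h1, h2, -⟩
      obtain ⟨x, hx⟩ := h2.1
      exact absurd (h1 hx) (by simp [insS])
    · intro h
      exact absurd h (Finset.notMem_empty C)
  refine ⟨fun C hC => ?_, fun C hC => ?_⟩
  · rw [h1] at hC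
    exact absurd hC (Finset.notMem_empty C)
  · rw [h1] at hC
    exact absurd hC (Finset.notMem_empty C)

theorem PatWide_empty (a : I → I → ℕ) (cd : CrossData a) (f : ℕ) (π : Pat I) :
    PatWide a cd ∅ f π := by
  have h1 : comps a (insS ∅ π) = ∅ := by
    ext C
    rw [AG1b_mem_comps]
    constructor
    · rintro ⟨h1, h2, -⟩
      obtain ⟨x, hx⟩ := h2.1
      exact absurd (h1 hx) (by simp [insS])
    · intro h
      exact absurd h (Finset.notMem_empty C)
  refine ⟨PatOk_empty a π, fun C hC => ?_, fun C hC => ?_⟩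
  · rw [h1] at hC
    exact absurd hC (Finset.notMem_empty C)
  · rw [h1] at hC
    exact absurd hC (Finset.notMem_empty C)

/-- a pattern in the window at `f` is wide at `f` and at `f + 1`. -/
theorem WinPat.wide {a : I → I → ℕ} {cd : CrossData a} {B : Finset I} {q : I → ℚ} {f : ℕ}
    {π : Pat I} (h : WinPat a cd B q f π) : PatWide a cd B f π := by
  exact ⟨h.toPatOk, h.le, fun A hA x hx => (h.ge A hA x hx).le⟩

theorem WinPat.wide_succ {a : I → I → ℕ} {cd : CrossData a} {B : Finset I} {q : I → ℚ} {f : ℕ}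
    {π : Pat I} (h : WinPat a cd B q f π) : PatWide a cd B (f + 1) π := by
  exact ⟨h.toPatOk, fun A hA x hx => (h.le A hA x hx).trans (Nat.le_succ f),
    fun A hA x hx => h.ge A hA x hx⟩

/-- patterns of a product are wide. -/
theorem PatWide_prodF (a : I → I → ℕ) (hs : ∀ i j, a i j = a j i) (cd : CrossData a) (f : ℕ)
    (U : List (Finset I × FFn I)) (hd : U.Pairwise (fun b c => Sep a b.1 c.1))
    (h : ∀ b ∈ U, ∀ c ∈ b.2, PatWide a cd b.1 f c.2) (c : ℚ × Pat I) (hc : c ∈ prodF U) :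
    PatWide a cd (uni U) f c.2 := by
  induction U generalizing c with
  | nil => exact PatWide_empty a cd f _
  | cons b U ih =>
    rw [List.pairwise_cons] at hd
    change c ∈ b.2.flatMap (fun c => (prodF U).map (fun d => (c.1 * d.1, glue b.1 c.2 d.2))) at hc
    rw [List.mem_flatMap] at hc
    obtain ⟨c', hc', hc⟩ := hc
    rw [List.mem_map] at hc
    obtain ⟨d, hd', rfl⟩ := hc
    have hsep := AG1b_sep_uni hd.1
    change PatWide a cd (b.1 ∪ uni U) f (glue b.1 c'.2 d.2)
    refine PatWide.union hs ?_ ?_ hsep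
    · refine (h b List.mem_cons_self c' hc').congr (fun x hx => ?_) (fun x hx => ?_)
      · exact (if_pos hx).symm
      · exact (if_pos hx).symm
    · refine (ih hd.2 (fun e he => h e (List.mem_cons_of_mem _ he)) d hd').congr
        (fun x hx => ?_) (fun x hx => ?_)
      · exact (if_neg (fun hx' => Finset.disjoint_left.1 hsep.1 hx' hx)).symm
      · exact (if_neg (fun hx' => Finset.disjoint_left.1 hsep.1 hx' hx)).symm

theorem WinPat_prodF (a : I → I → ℕ) (hs : ∀ i j, a i j = a j i) (cd : CrossData a) (f : ℕ)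
    (q : I → ℚ) (U : List (Finset I × FFn I)) (hd : U.Pairwise (fun b c => Sep a b.1 c.1))
    (h : ∀ b ∈ U, ∀ c ∈ b.2, WinPat a cd b.1 q f c.2) (c : ℚ × Pat I) (hc : c ∈ prodF U) :
    WinPat a cd (uni U) q f c.2 := by
  induction U generalizing c with
  | nil =>
    have h1 := PatWide_empty a cd f c.2
    refine ⟨h1.toPatOk, h1.le, fun A hA x hx => ?_, fun x hx => ?_, fun x hx => ?_,
      fun x hx => ?_⟩
    · have h2 := comps_subset hA hx
      exact absurd (insS_subset _ _ h2) (Finset.notMem_empty x)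
    · exact absurd hx (Finset.notMem_empty x)
    · exact absurd hx (Finset.notMem_empty x)
    · exact absurd hx (Finset.notMem_empty x)
  | cons b U ih =>
    rw [List.pairwise_cons] at hd
    change c ∈ b.2.flatMap (fun c => (prodF U).map (fun d => (c.1 * d.1, glue b.1 c.2 d.2))) at hc
    rw [List.mem_flatMap] at hc
    obtain ⟨c', hc', hc⟩ := hc
    rw [List.mem_map] at hc
    obtain ⟨d, hd', rfl⟩ := hc
    have hsep := AG1b_sep_uni hd.1
    change WinPat a cd (b.1 ∪ uni U) q f (glue b.1 c'.2 d.2)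
    refine WinPat.union hs ?_ ?_ hsep
    · refine (h b List.mem_cons_self c' hc').congr (fun x hx => ?_) (fun x hx => ?_)
      · exact (if_pos hx).symm
      · exact (if_pos hx).symm
    · refine (ih hd.2 (fun e he => h e (List.mem_cons_of_mem _ he)) d hd').congr
        (fun x hx => ?_) (fun x hx => ?_)
      · exact (if_neg (fun hx' => Finset.disjoint_left.1 hsep.1 hx' hx)).symm
      · exact (if_neg (fun hx' => Finset.disjoint_left.1 hsep.1 hx' hx)).symm

end

end Pool.Agent.H27.KAC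

end

section

/-!
KAC ADE, module AG2: the level lemma (LL) and the upper representation of far blocks.

`LL`: `A` is a component of `insS U π` with level `s`, `s + 1 ≤ l ≤ s + mm A - 1`, `z ∉ U` adjacent to `A`.  Write (with
`patT_glue`, `tauT_eq_patT`, `patT_congr`) `patT a U π T = tauT a A s π.q T'`, `T' = patT a (U \ A) π T`, which is `RReg A`
(`RReg_patT`).  Expand `mulE (r • dd z l)` with `TV_expP` (vertex `z`, level `l`).  In the terms with `m ≥ 1` the term
`T'.eta a l (Pi.single z m)` is still `RReg A` (the exponents `(y,l)`, `y ∈ A`, increase by `m * a z y`) and has an exponent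
`≥ 1` at level `l` in `A`; so `cd.rv` gives zero.  The term `m = 0` is the right hand side.

`far_up`: blocks with `s + mm A = f`: `cd.cr` with `k = f`.
-/

set_option autoImplicit false

namespace Pool.Agent.H27.KAC

open scoped BigOperators

section

variable {I : Type} [Fintype I] [DecidableEq I]

/-- the union of separated finite type sets. -/
theorem FinT.union_sep {a : I → I → ℕ} (hs : ∀ i j, a i j = a j i) {A B : Finset I} (hA : FinT a A)
    (hB : FinT a B) (hAB : Sep a A B) : FinT a (A ∪ B) := by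
  have hcart : ∀ i ∈ A, ∀ j ∈ B, cart a i j = 0 := by
    intro i hi j hj
    have hne : i ≠ j := fun h => (Finset.disjoint_left.1 hAB.1 hi) (h ▸ hj)
    unfold cart
    rw [if_neg hne, hAB.2 i hi j hj]
    simp
  have hcart' : ∀ i ∈ B, ∀ j ∈ A, cart a i j = 0 := by
    intro i hi j hj
    have hne : i ≠ j := fun h => (Finset.disjoint_left.1 hAB.1 hj) (h ▸ hi)
    unfold cart
    rw [if_neg hne, hs i j, hAB.2 j hj i hi]
    simp
  have hnn : ∀ (C : Finset I), FinT a C → ∀ v : I → ℚ, 0 ≤ ∑ i ∈ C, v i * cqN a C v i := by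
    intro C hC v
    by_cases h : ∃ i ∈ C, v i ≠ 0
    · exact (hC.pos v h).le
    · have h1 : ∀ i ∈ C, v i = 0 := by
        intro i hi
        by_contra hc
        exact h ⟨i, hi, hc⟩
      refine le_of_eq (Eq.symm ?_)
      refine Finset.sum_eq_zero fun i hi => ?_
      rw [h1 i hi, zero_mul]
  refine ⟨?_, ?_⟩
  · intro x hx
    rcases Finset.mem_union.1 hx with h | h
    · exact hA.loopfree x h
    · exact hB.loopfree x h
  · intro v hv
    have h1 : ∑ i ∈ A ∪ B, v i * cqN a (A ∪ B) v i =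
        ∑ i ∈ A, v i * cqN a A v i + ∑ i ∈ B, v i * cqN a B v i := by
      rw [Finset.sum_union hAB.1]
      congr 1
      · refine Finset.sum_congr rfl fun i hi => ?_
        congr 1
        unfold cqN
        rw [Finset.sum_union hAB.1, add_eq_left]
        refine Finset.sum_eq_zero fun j hj => ?_
        rw [hcart i hi j hj]
        simp
      · refine Finset.sum_congr rfl fun i hi => ?_
        congr 1
        unfold cqN
        rw [Finset.sum_union hAB.1, add_eq_right]
        refine Finset.sum_eq_zero fun j hj => ?_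
        rw [hcart' i hi j hj]
        simp
    rw [h1]
    obtain ⟨i, hi, hvi⟩ := hv
    rcases Finset.mem_union.1 hi with h | h
    · exact add_pos_of_pos_of_nonneg (hA.pos v ⟨i, h, hvi⟩) (hnn B hB v)
    · exact add_pos_of_nonneg_of_pos (hnn A hA v) (hB.pos v ⟨i, h, hvi⟩)

/-- the insertions are positive (`QOk` and positivity of the inverse Cartan matrix). -/
theorem PatOk.q_pos {a : I → I → ℕ} (hs : ∀ i j, a i j = a j i) {U : Finset I} (hU : FinT a U)
    {π : Pat I} (h : PatOk a U π) (x : I) (hx : x ∈ U) (hq : π.q x ≠ 0) : 0 < π.q x := by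
  have hx' : x ∈ insS U π := Finset.mem_filter.2 ⟨hx, hq⟩
  obtain ⟨A, hA, hxA⟩ := comps_cover hs x hx'
  have hAU : A ⊆ U := (comps_subset hA).trans (Finset.filter_subset _ _)
  have hq1 := h.qok A hA
  refine FinT.pos_of_conn hs (hU.mono hAU) (comps_conn hA) π.q ?_ ?_ x hxA
  · intro i hi
    obtain ⟨n, hn, h2⟩ := hq1 i hi
    rw [h2]
    exact Nat.cast_nonneg n
  · obtain ⟨n, hn, h2⟩ := hq1 x hxA
    refine ⟨x, hxA, ?_⟩
    rw [h2]
    exact Nat.cast_ne_zero.2 (by omega)

theorem PatOk.q_nonneg {a : I → I → ℕ} (hs : ∀ i j, a i j = a j i) {U : Finset I} (hU : FinT a U)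
    {π : Pat I} (h : PatOk a U π) (x : I) (hx : x ∈ U) : 0 ≤ π.q x := by
  by_cases hq : π.q x = 0
  · rw [hq]
  · exact (h.q_pos hs hU x hx hq).le

theorem AG2_glue_self (A : Finset I) (π : Pat I) : glue A π π = π := by
  unfold glue
  simp

/-- extract a component of the insertion set. -/
theorem patT_comp (a : I → I → ℕ) (hs : ∀ i j, a i j = a j i) (U : Finset I) (π : Pat I)
    (hπ : PatOk a U π) (A : Finset I) (hA : A ∈ comps a (insS U π)) (s : ℕ) (hsA : ∀ x ∈ A, π.s x = s)
    (T : Trm I) (hT : RReg U T) :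
    patT a U π T = tauT a A s π.q (patT a (U \ A) π T) ∧ RReg A (patT a (U \ A) π T) := by
  have hAU : A ⊆ U := (comps_subset hA).trans (Finset.filter_subset _ _)
  have hdis : Disjoint A (U \ A) := Finset.disjoint_sdiff
  have hun : A ∪ (U \ A) = U := Finset.union_sdiff_of_subset hAU
  refine ⟨?_, ?_⟩
  · have h1 := patT_glue a A (U \ A) hdis π π T
    rw [AG2_glue_self, hun] at h1
    rw [h1, tauT_eq_patT]
    exact patT_congr a A π ⟨fun _ => s, π.q⟩ _ hsA (fun x _ => rfl)
  · refine RReg_patT a hs A (U \ A) hdis π ?_ T (by rw [hun]; exact hT)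
    intro x hx y hy hqy
    obtain ⟨hyU, hyA⟩ := Finset.mem_sdiff.1 hy
    exact comps_sep hA x hx y (Finset.mem_filter.2 ⟨hyU, hqy⟩) hyA

theorem LL (a : I → I → ℕ) (hs : ∀ i j, a i j = a j i) (cd : CrossData a) (U : Finset I)
    (hU : FinT a U) (π : Pat I) (hπ : PatOk a U π) (A : Finset I) (hA : A ∈ comps a (insS U π))
    (z : I) (hz : z ∉ U) (hadj : ∃ x ∈ A, 0 < a z x) (T : Trm I) (hT : RReg U T) (s l : ℕ)
    (hsA : ∀ x ∈ A, π.s x = s) (hl : s + 1 ≤ l) (hl' : l + 1 ≤ s + cd.mm A) (r : ℚ) :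
    TV a (patT a U π (T.mulE (r • dd z l))) = TV a (patT a U π T) := by
  have hAU : A ⊆ U := (comps_subset hA).trans (Finset.filter_subset _ _)
  rw [patT_mulE_comm, TV_expP a hs (patT a U π T) z l (by omega) r _ (le_refl _)]
  rw [Finset.sum_eq_single 0]
  · have h0 : (patT a U π T).eta a l (Pi.single z ((0 : ℕ) : ℚ)) = patT a U π T := by
      rw [eta_eq_etaM]
      have h1 : (Pi.single z ((0 : ℕ) : ℚ) : I → ℚ) = fun _ => 0 := by
        rw [Nat.cast_zero, Pi.single_zero]
        rfl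
      rw [h1, etaM_zero]
    rw [h0, pow_zero, Ring.choose_zero_right, one_mul, one_mul]
  · intro m _ hm
    have hcom : (patT a U π T).eta a l (Pi.single z (m : ℚ)) =
        patT a U π (T.eta a l (Pi.single z (m : ℚ))) := by
      rw [eta_eq_etaM, eta_eq_etaM, patT_etaM_comm]
    have hE : ∀ y ∈ U, ∀ l', (T.eta a l (Pi.single z (m : ℚ))).E (y, l') =
        T.E (y, l') + (if l' = l then (m : ℚ) * (a z y : ℚ) else 0) := by
      intro y hy l'
      rw [eta_eq_etaM, etaM_E]
      have hzy : z ≠ y := fun h => hz (h ▸ hy)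
      have hc : (cart a z y : ℚ) = -(a z y : ℚ) := by
        unfold cart
        rw [if_neg hzy]
        push_cast
        ring
      by_cases hl2 : l' = l
      · subst hl2
        rw [if_pos rfl, Finset.filter_true_of_mem (fun _ _ => rfl), Finset.sum_eq_single z]
        · rw [Pi.single_eq_same, hc]
          ring
        · intro x _ hx
          rw [Pi.single_eq_of_ne hx, zero_mul]
        · intro h
          exact absurd (Finset.mem_univ z) h
      · rw [if_neg hl2, Finset.filter_false_of_mem (fun _ _ h => hl2 h.symm), Finset.sum_empty]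
        ring
    have hR : RReg U (T.eta a l (Pi.single z (m : ℚ))) := by
      refine ⟨?_, ?_⟩
      · intro x hx l' hl'1
        obtain ⟨n, hn⟩ := hT.nat x hx l' hl'1
        rw [hE x hx l', hn]
        refine ⟨n + (if l' = l then m * a z x else 0), ?_⟩
        split_ifs <;> push_cast <;> ring
      · intro x hx j hj l' hl'1 hΛ
        have h1 := hT.col x hx j hj l' hl'1 hΛ
        rw [hE x hx l']
        have h2 : (0 : ℚ) ≤ (if l' = l then (m : ℚ) * (a z x : ℚ) else 0) := by
          split_ifs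
          · positivity
          · exact le_refl _
        linarith
    obtain ⟨hc1, hc2⟩ := patT_comp a hs U π hπ A hA s hsA _ hR
    obtain ⟨y, hyA, hay⟩ := hadj
    have hyE : 1 ≤ (patT a (U \ A) π (T.eta a l (Pi.single z (m : ℚ)))).E (y, l) := by
      rw [patT_E, Finset.sum_eq_zero, add_zero, hE y (hAU hyA) l, if_pos rfl]
      · obtain ⟨n, hn⟩ := hT.nat y (hAU hyA) l (by omega)
        rw [hn]
        have h3 : 1 ≤ n + m * a z y := by
          have : 1 ≤ m * a z y := Nat.mul_pos (Nat.pos_of_ne_zero hm) hay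
          omega
        exact_mod_cast h3
      · intro x hx
        obtain ⟨hx1, -⟩ := Finset.mem_filter.1 hx
        obtain ⟨hxU, hxA⟩ := Finset.mem_sdiff.1 hx1
        by_cases hqx : π.q x = 0
        · rw [hqx, zero_mul]
        · have h4 := comps_sep hA y hyA x (Finset.mem_filter.2 ⟨hxU, hqx⟩) hxA
          have hxy : x ≠ y := fun h => hxA (h ▸ hyA)
          have h5 : cart a x y = 0 := by
            unfold cart
            rw [if_neg hxy, hs x y, h4]
            simp
          rw [h5]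
          simp
    rw [hcom, hc1, cd.rv A (hU.mono hAU) (comps_conn hA) s π.q (hπ.qok A hA) _ hc2 y hyA l hl hl' hyE,
      mul_zero]
  · intro h
    exact absurd (Finset.mem_range.2 (Nat.succ_pos _)) h

/-- the conversion exponent `(s) - (f - s + 1) (f) + (f - s) (f + 1)` in the direction `z` (zero for `s = f`). -/
noncomputable def cvE (z : I) (s f : ℕ) : QE I :=
  sy z s - ((f : ℚ) - s + 1) • sy z f + ((f : ℚ) - s) • sy z (f + 1)

theorem cvE_eq_sum (z : I) (s f : ℕ) (h : s ≤ f) :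
    cvE z s f = ∑ l ∈ Finset.Icc (s + 1) f, ((l : ℚ) - s) • dd z l := by
  obtain ⟨d, rfl⟩ := Nat.exists_eq_add_of_le h
  clear h
  induction d with
  | zero =>
    rw [Nat.add_zero, Finset.Icc_eq_empty (by omega), Finset.sum_empty]
    unfold cvE
    rw [sub_self, zero_add, zero_smul, add_zero, one_smul, sub_self]
  | succ d ih =>
    rw [← add_assoc, Finset.sum_Icc_succ_top (by omega), ← ih]
    unfold cvE dd
    rw [Nat.add_sub_cancel]
    push_cast
    module

/-- admissible multipliers. -/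
def AG2_good (a : I → I → ℕ) (U : Finset I) (π : Pat I) (F : QE I) : Prop :=
  (∀ x ∈ U, ∀ l, F (x, l) = 0) ∧
    ∀ T : Trm I, RReg U T → TV a (patT a U π (T.mulE F)) = TV a (patT a U π T)

theorem AG2_mulE_zero (T : Trm I) : T.mulE 0 = T := by
  unfold Trm.mulE
  rw [add_zero]

theorem AG2_mulE_add (T : Trm I) (F G : QE I) : T.mulE (F + G) = (T.mulE F).mulE G := by
  unfold Trm.mulE
  simp only [add_assoc]

theorem AG2_mulE_reg (U : Finset I) (F : QE I) (hF : ∀ x ∈ U, ∀ l, F (x, l) = 0) (T : Trm I)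
    (hT : RReg U T) : RReg U (T.mulE F) := by
  have hE : ∀ x ∈ U, ∀ l, (T.mulE F).E (x, l) = T.E (x, l) := by
    intro x hx l
    unfold Trm.mulE
    rw [Finsupp.add_apply, hF x hx l, add_zero]
  refine ⟨?_, ?_⟩
  · intro x hx l hl
    rw [hE x hx l]
    exact hT.nat x hx l hl
  · intro x hx j hj l hl hΛ
    rw [hE x hx l]
    exact hT.col x hx j hj l hl hΛ

theorem AG2_good_zero (a : I → I → ℕ) (U : Finset I) (π : Pat I) : AG2_good a U π 0 := by
  refine ⟨fun x _ l => rfl, fun T _ => ?_⟩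
  rw [AG2_mulE_zero]

theorem AG2_good_add (a : I → I → ℕ) (U : Finset I) (π : Pat I) (F G : QE I)
    (hF : AG2_good a U π F) (hG : AG2_good a U π G) : AG2_good a U π (F + G) := by
  refine ⟨fun x hx l => ?_, fun T hT => ?_⟩
  · rw [Finsupp.add_apply, hF.1 x hx l, hG.1 x hx l, add_zero]
  · rw [AG2_mulE_add, hG.2 _ (AG2_mulE_reg U F hF.1 T hT), hF.2 T hT]

theorem AG2_good_sum (a : I → I → ℕ) (U : Finset I) (π : Pat I) {ι : Type} (t : Finset ι)
    (F : ι → QE I) (hF : ∀ i ∈ t, AG2_good a U π (F i)) : AG2_good a U π (∑ i ∈ t, F i) :=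
  Finset.sum_induction F (AG2_good a U π) (AG2_good_add a U π) (AG2_good_zero a U π) hF

/-- conversion of all near blocks of a family `𝒮` of components at once. -/
theorem LL_sum (a : I → I → ℕ) (hs : ∀ i j, a i j = a j i) (cd : CrossData a) (U : Finset I)
    (hU : FinT a U) (π : Pat I) (hπ : PatOk a U π) (f : ℕ) (𝒮 : Finset (Finset I))
    (h𝒮 : 𝒮 ⊆ comps a (insS U π)) (hle : ∀ A ∈ 𝒮, ∀ x ∈ A, π.s x ≤ f)
    (hge : ∀ A ∈ 𝒮, ∀ x ∈ A, f < π.s x + cd.mm A) (z : I) (hz : z ∉ U) (T : Trm I)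
    (hT : RReg U T) :
    TV a (patT a U π (T.mulE (∑ A ∈ 𝒮, ∑ x ∈ A, ((a z x : ℚ) * π.q x) • cvE z (π.s x) f))) =
      TV a (patT a U π T) := by
  refine (AG2_good_sum a U π 𝒮 _ fun A hA => AG2_good_sum a U π A _ fun x hx => ?_).2 T hT
  by_cases h0 : a z x = 0
  · rw [h0, Nat.cast_zero, zero_mul, zero_smul]
    exact AG2_good_zero a U π
  · rw [cvE_eq_sum z (π.s x) f (hle A hA x hx), Finset.smul_sum]
    refine AG2_good_sum a U π _ _ fun l hl => ?_
    rw [Finset.mem_Icc] at hl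
    rw [smul_smul]
    refine ⟨?_, ?_⟩
    · intro y hy l'
      have hzy : z ≠ y := fun h => hz (h ▸ hy)
      have h1 : ∀ k, (sy z k : QE I) (y, l') = 0 := by
        intro k
        rw [Finsupp.single_apply, if_neg]
        intro h
        exact hzy (congrArg Prod.fst h)
      simp only [dd, Finsupp.smul_apply, Finsupp.add_apply, Finsupp.sub_apply, h1]
      simp
    · intro T' hT'
      have hf := hge A hA x hx
      exact LL a hs cd U hU π hπ A (h𝒮 hA) z hz ⟨x, hx, Nat.pos_of_ne_zero h0⟩ T' hT' (π.s x) l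
        (fun y hy => hπ.lev A (h𝒮 hA) y hy x hx) hl.1 (by omega) _

theorem AG2_blkT_empty (a : I → I → ℕ) (k σ : ℕ) (q : I → ℚ) (T : Trm I) :
    blkT a ∅ k σ q T = T := by
  unfold blkT
  have h1 : (fun i => -resQ (∅ : Finset I) q i) = fun _ => 0 := by
    funext i
    unfold resQ
    simp
  rw [h1, eta_eq_etaM, etaM_zero]
  unfold Trm.cols
  simp

/-- far blocks: upper representation at level `f`. -/
theorem far_up (a : I → I → ℕ) (hs : ∀ i j, a i j = a j i) (cd : CrossData a) (U : Finset I)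
    (hU : FinT a U) (π : Pat I) (hπ : PatOk a U π) (f : ℕ) (𝒮 : Finset (Finset I))
    (h𝒮 : 𝒮 ⊆ comps a (insS U π)) (hfar : ∀ A ∈ 𝒮, ∀ x ∈ A, π.s x + cd.mm A = f) (T : Trm I)
    (hT : RReg U T) :
    ∃ e : ℚ, (e = 1 ∨ e = -1) ∧ TV a (patT a U π T) =
      e * TV a (blkT a (𝒮.biUnion id) f (f - 1) π.q (patT a (U \ 𝒮.biUnion id) π T)) := by
  classical
  induction 𝒮 using Finset.induction_on with
  | empty =>
    refine ⟨1, Or.inl rfl, ?_⟩
    rw [Finset.biUnion_empty, Finset.sdiff_empty, one_mul, AG2_blkT_empty]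
  | insert A 𝒮 hA𝒮 ih =>
    have hAc : A ∈ comps a (insS U π) := h𝒮 (Finset.mem_insert_self A 𝒮)
    have h𝒮' : 𝒮 ⊆ comps a (insS U π) := fun B hB => h𝒮 (Finset.mem_insert_of_mem hB)
    obtain ⟨e, he, hTV⟩ := ih h𝒮' (fun B hB => hfar B (Finset.mem_insert_of_mem hB))
    have hAU : A ⊆ U := (comps_subset hAc).trans (Finset.filter_subset _ _)
    have hsub : ∀ B ∈ 𝒮, B ⊆ U := fun B hB =>
      (comps_subset (h𝒮' hB)).trans (Finset.filter_subset _ _)
    obtain ⟨V, hV⟩ : ∃ V, V = 𝒮.biUnion id := ⟨_, rfl⟩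
    have hmV : ∀ x, x ∈ V ↔ ∃ B ∈ 𝒮, x ∈ B := by
      intro x
      rw [hV, Finset.mem_biUnion]
      rfl
    rw [← hV] at hTV
    rw [Finset.biUnion_insert, ← hV, id_eq]
    have hVU : V ⊆ U := by
      intro x hx
      obtain ⟨B, hB, hxB⟩ := (hmV x).1 hx
      exact hsub B hB hxB
    have hsep : Sep a A V := by
      refine ⟨Finset.disjoint_left.2 ?_, ?_⟩
      · intro x hx hxV
        obtain ⟨B, hB, hxB⟩ := (hmV x).1 hxV
        have hAB : A ≠ B := fun h => hA𝒮 (h ▸ hB)
        exact Finset.disjoint_left.1 (comps_disjoint hs hAc (h𝒮' hB) hAB) hx hxB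
      · intro x hx y hy
        obtain ⟨B, hB, hyB⟩ := (hmV y).1 hy
        have hAB : A ≠ B := fun h => hA𝒮 (h ▸ hB)
        exact comps_nonadj hs hAc (h𝒮' hB) hAB x hx y hyB
    obtain ⟨s, hsA⟩ : ∃ s, ∀ x ∈ A, π.s x = s := by
      obtain ⟨x0, hx0⟩ := (comps_conn hAc).1
      exact ⟨π.s x0, fun x hx => hπ.lev A hAc x hx x0 hx0⟩
    have hf : s + cd.mm A = f := by
      obtain ⟨x0, hx0⟩ := (comps_conn hAc).1
      rw [← hsA x0 hx0]
      exact hfar A (Finset.mem_insert_self A 𝒮) x0 hx0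
    have hdis1 : Disjoint A (U \ (A ∪ V)) :=
      Finset.disjoint_of_subset_left Finset.subset_union_left Finset.disjoint_sdiff
    have hUV : A ∪ (U \ (A ∪ V)) = U \ V := by
      ext x
      simp only [Finset.mem_union, Finset.mem_sdiff]
      constructor
      · rintro (h | ⟨h1, h2⟩)
        · exact ⟨hAU h, fun hV' => Finset.disjoint_left.1 hsep.1 h hV'⟩
        · exact ⟨h1, fun hV' => h2 (Or.inr hV')⟩
      · rintro ⟨h1, h2⟩
        by_cases hxA : x ∈ A
        · exact Or.inl hxA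
        · exact Or.inr ⟨h1, fun h => h.elim hxA h2⟩
    have h1 : patT a (U \ V) π T = tauT a A s π.q (patT a (U \ (A ∪ V)) π T) := by
      have h2 := patT_glue a A (U \ (A ∪ V)) hdis1 π π T
      rw [AG2_glue_self, hUV] at h2
      rw [h2, tauT_eq_patT]
      exact patT_congr a A π ⟨fun _ => s, π.q⟩ _ hsA (fun x _ => rfl)
    have hRW : RReg (A ∪ V) (patT a (U \ (A ∪ V)) π T) := by
      refine RReg_patT a hs (A ∪ V) (U \ (A ∪ V)) Finset.disjoint_sdiff π ?_ T ?_
      · intro x hx y hy hqy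
        obtain ⟨hyU, hyAV⟩ := Finset.mem_sdiff.1 hy
        have hy' : y ∈ insS U π := Finset.mem_filter.2 ⟨hyU, hqy⟩
        rcases Finset.mem_union.1 hx with hxA | hxV
        · exact comps_sep hAc x hxA y hy' (fun h => hyAV (Finset.mem_union_left _ h))
        · obtain ⟨B, hB, hxB⟩ := (hmV x).1 hxV
          exact comps_sep (h𝒮' hB) x hxB y hy'
            (fun h => hyAV (Finset.mem_union_right _ ((hmV y).2 ⟨B, hB, h⟩)))
      · rw [Finset.union_sdiff_of_subset (Finset.union_subset hAU hVU)]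
        exact hT
    have hR3 : RReg A (blkT a V f (f - 1) π.q (patT a (U \ (A ∪ V)) π T)) :=
      RReg_blkT a hs A V hsep f (f - 1) π.q _ hRW
    have hcr := cd.cr A (hU.mono hAU) (comps_conn hAc) f π.q (hπ.qok A hAc) _ hR3 (by omega)
    have hfs : f - cd.mm A = s := by omega
    rw [hfs] at hcr
    have hcomm : blkT a V f (f - 1) π.q (tauT a A s π.q (patT a (U \ (A ∪ V)) π T)) =
        tauT a A s π.q (blkT a V f (f - 1) π.q (patT a (U \ (A ∪ V)) π T)) :=
      blkT_comm a V A hsep.1.symm f (f - 1) s (s + 1) π.q π.q _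
    have hun := blkT_union a A V hsep.1 f (f - 1) π.q (patT a (U \ (A ∪ V)) π T)
    rw [hun, hTV, h1, hcomm]
    have heps := cd.eps_sq A π.q
    refine ⟨e * cd.eps A π.q, ?_, ?_⟩
    · rcases he with he | he <;> rcases heps with h | h <;> rw [he, h] <;> norm_num
    · change _ = _ * TV a (upT a A f π.q (blkT a V f (f - 1) π.q (patT a (U \ (A ∪ V)) π T)))
      rw [hcr]
      rcases heps with h | h <;> rw [h] <;> ring

end

end Pool.Agent.H27.KAC

end

section

/-!
KAC ADE, module AG6: conversion of patterns to explicit insertions (X2).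

Proof of `evU_conv`.  Both sides are `EvP`-congruent to the same expressions for `T.pow p` (`frob_evU`, `frob_expl`), so it
suffices to prove the identity for `T.pow p`, `p` a large prime `≡ 1` modulo `d` (`EvP.eq_zero`).  Fire `V` (`fire_V`; the same firing
is used for all patterns; for the explicit term argue in the same way), `T.pow p` becomes `T'` with a large exponent at
`(z,f)`.  For every pattern `π` of the product: `TV (patT π T') = TV (patT π (T'.eta a f (Pi.single z 1)))`: by `TV_rel` the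
difference is the value of `patT π (T'.mulE (sy z (f+1) + sy z (f-1) - 2 • sy z f))`, which vanishes by `TV_vanX` (the side symbol is
now compensated; `hI2` of `TV_vanX` follows from `hI2` and `cls`).  The term `T'' = T'.eta a f (Pi.single z 1)` has a kink at level `f` in
every block (`hadj`), so `evU_blk_head` and `BlkOk.knk` evaluate all blocks.  Finally undo the firing of `z`
(`TV_fire1` for the explicit term) and of `V`.
-/

set_option autoImplicit false

namespace Pool.Agent.H27.KAC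

open scoped BigOperators

section

variable {I : Type} [Fintype I] [DecidableEq I]

theorem AG6_Zadd {x y : ℚ} (hx : IsZ x) (hy : IsZ y) : IsZ (x + y) := by
  obtain ⟨m, rfl⟩ := hx
  obtain ⟨n, rfl⟩ := hy
  exact ⟨m + n, by push_cast; ring⟩

theorem AG6_Zneg {x : ℚ} (hx : IsZ x) : IsZ (-x) := by
  obtain ⟨m, rfl⟩ := hx
  exact ⟨-m, by push_cast; ring⟩

theorem AG6_Znmul {x : ℚ} (hx : IsZ x) (n : ℕ) : IsZ ((n : ℚ) * x) := by
  obtain ⟨m, rfl⟩ := hx
  exact ⟨n * m, by push_cast; ring⟩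

theorem AG6_Znat (n : ℕ) : IsZ (n : ℚ) := ⟨n, by push_cast; ring⟩

theorem AG6_ZofN {x : ℚ} (hx : IsN x) : IsZ x := by
  obtain ⟨n, rfl⟩ := hx
  exact AG6_Znat n

theorem AG6_Zsum {ι : Type} (s : Finset ι) (g : ι → ℚ) (h : ∀ i ∈ s, IsZ (g i)) :
    IsZ (∑ i ∈ s, g i) := by
  classical
  induction s using Finset.induction_on with
  | empty =>
    rw [Finset.sum_empty]
    exact ⟨0, by simp⟩
  | insert i s hi ih =>
    rw [Finset.sum_insert hi]
    exact AG6_Zadd (h i (Finset.mem_insert_self i s))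
      (ih (fun j hj => h j (Finset.mem_insert_of_mem hj)))

theorem AG6_Nmul {x : ℚ} (hx : IsN x) (n : ℕ) : IsN ((n : ℚ) * x) := by
  obtain ⟨m, rfl⟩ := hx
  exact ⟨n * m, by push_cast; ring⟩

theorem AG6_Nadd {x y : ℚ} (hx : IsN x) (hy : IsN y) : IsN (x + y) := by
  obtain ⟨m, rfl⟩ := hx
  obtain ⟨n, rfl⟩ := hy
  exact ⟨m + n, by push_cast; ring⟩

theorem AG6_Nge {x : ℚ} (hx : IsN x) : 0 ≤ x := by
  obtain ⟨m, rfl⟩ := hx
  exact Nat.cast_nonneg m

theorem AG6_Npos {x : ℚ} (hx : IsN x) (h : 0 < x) : 1 ≤ x := by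
  obtain ⟨m, rfl⟩ := hx
  have : 0 < m := by exact_mod_cast h
  exact_mod_cast this

theorem AG6_cart (a : I → I → ℕ) {x y : I} (h : x ≠ y) :
    ((cart a x y : ℤ) : ℚ) = -(a x y : ℚ) := by
  unfold cart
  rw [if_neg h]
  push_cast
  ring

private theorem AG6_pw {a : I → I → ℕ} {L : List (Blk I)}
    (hd : L.Pairwise (fun b c => Sep a b.B c.B)) :
    (L.map (fun b => (b.B, b.Φ))).Pairwise (fun b c => Sep a b.1 c.1) := by
  rw [List.pairwise_map]
  exact hd

theorem AG6_pd {a : I → I → ℕ} {L : List (Blk I)}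
    (hd : L.Pairwise (fun b c => Sep a b.B c.B)) :
    (L.map (fun b => (b.B, b.Φ))).Pairwise (fun b c => Disjoint b.1 c.1) :=
  (AG6_pw hd).imp (fun h => h.1)

private theorem AG6_sepU {a : I → I → ℕ} (A : Finset I) (L : List (Blk I))
    (h : ∀ c ∈ L, Sep a A c.B) : Sep a A (uniB L) := by
  refine ⟨Finset.disjoint_left.2 ?_, ?_⟩
  · intro x hx hx'
    obtain ⟨c, hc, hxc⟩ := (mem_uniB L x).1 hx'
    exact Finset.disjoint_left.1 (h c hc).1 hx hxc
  · intro x hx y hy
    obtain ⟨c, hc, hyc⟩ := (mem_uniB L y).1 hy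
    exact (h c hc).2 x hx y hyc

/-- patterns of the product are wide. -/
theorem PatWide_prod (a : I → I → ℕ) (hs : ∀ i j, a i j = a j i) (cd : CrossData a) (f : ℕ)
    (L : List (Blk I)) (hL : ∀ b ∈ L, BlkOk a cd f b) (hd : L.Pairwise (fun b c => Sep a b.B c.B))
    (c : ℚ × Pat I) (hc : c ∈ prodF (L.map (fun b => (b.B, b.Φ)))) :
    PatWide a cd (uniB L) f c.2 := by
  have h := PatWide_prodF a hs cd f (L.map (fun b => (b.B, b.Φ))) (AG6_pw hd) (by
    intro b hb c hc
    obtain ⟨b', hb', rfl⟩ := List.mem_map.1 hb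
    exact (hL b' hb').wide c hc) c hc
  rw [uni_map_blk] at h
  exact h

/-- blocks with kinks. -/
theorem evU_all_kink (a : I → I → ℕ) (hs : ∀ i j, a i j = a j i) (cd : CrossData a) (f : ℕ)
    (L : List (Blk I)) (hL : ∀ b ∈ L, BlkOk a cd f b) (hd : L.Pairwise (fun b c => Sep a b.B c.B))
    (T : Trm I) (hT : RReg (uniB L) T) (hk : ∀ b ∈ L, Kink b.B f T) :
    evU a (L.map (fun b => (b.B, b.Φ))) T = (L.map Blk.cf).prod * TV a (expl a f L T) := by
  induction L generalizing T with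
  | nil => rw [List.map_nil, List.map_nil, List.prod_nil, evU_nil, expl_nil, one_mul]
  | cons b L ih =>
    obtain ⟨hd1, hd2⟩ := List.pairwise_cons.1 hd
    have hbu : uniB (b :: L) = b.B ∪ uniB L := rfl
    have hsepU : Sep a b.B (uniB L) := AG6_sepU b.B L hd1
    have hT1 : RReg (b.B ∪ uniB L) T := by
      rw [← hbu]
      exact hT
    have hT2 : RReg (uniB L ∪ b.B) T := by
      rw [Finset.union_comm]
      exact hT1
    have hdd : ((b.B, b.Φ) :: L.map (fun b => (b.B, b.Φ))).Pairwise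
        (fun b c => Disjoint b.1 c.1) := by
      have := AG6_pd hd
      rw [List.map_cons] at this
      exact this
    have h1 := evU_blk_head a hs b.B b.Φ (L.map (fun b => (b.B, b.Φ))) hdd (by
      intro c hc
      obtain ⟨c', hc', rfl⟩ := List.mem_map.1 hc
      exact hd1 c' hc') b.cf f (b.sd f) b.q (hL b List.mem_cons_self).knk T (by
      rw [uni_map_blk]
      exact hT1) (hk b List.mem_cons_self)
    have h2 := ih (fun c hc => hL c (List.mem_cons_of_mem b hc)) hd2
      (blkT a b.B f (b.sd f) b.q T) (RReg_blkT a hs (uniB L) b.B (hsepU.symm hs) f (b.sd f) b.q T hT2)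
      (fun c hc => Kink_blkT a c.B b.B ((hd1 c hc).symm hs) hs f f (b.sd f) b.q T
        (hk c (List.mem_cons_of_mem b hc)))
    rw [List.map_cons, h1, h2, List.map_cons, List.prod_cons, mul_assoc, expl_cons,
      expl_blkT_comm a f L b.B hsepU.1 f (b.sd f) b.q T]

/-- exponents after firing `V` in a power. -/
theorem AG6_E (a : I → I → ℕ) (T : Trm I) (p : ℚ) (f : ℕ) (d : I → ℕ) (i : I) (l : ℕ) :
    ((T.pow p).etaM a (fun _ => f) (fun i => (d i : ℚ))).E (i, l) =
      p * T.E (i, l) - if l = f then ∑ x, (d x : ℚ) * (cart a x i : ℚ) else 0 := by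
  rw [etaM_E]
  have h1 : (T.pow p).E (i, l) = p * T.E (i, l) := rfl
  rw [h1]
  by_cases h : l = f
  · subst h
    simp
  · have h' : ¬ f = l := fun e => h e.symm
    simp [h, h']

/-- fired vertices not adjacent to `i`. -/
theorem AG6_S0 (a : I → I → ℕ) (hs : ∀ i j, a i j = a j i) (U V : Finset I)
    (hUV : Sep a U V) (d : I → ℕ) (hd : ∀ i, i ∉ V → d i = 0) (x : I) (hx : x ∈ U) :
    ∑ y, (d y : ℚ) * (cart a y x : ℚ) = 0 := by
  apply Finset.sum_eq_zero
  intro y _
  by_cases hy : y ∈ V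
  · have hne : y ≠ x := by
      rintro rfl
      exact Finset.disjoint_left.1 hUV.1 hx hy
    rw [AG6_cart a hne, hs y x, hUV.2 x hx y hy]
    simp
  · rw [hd y hy]
    simp

theorem AG6_Sz (a : I → I → ℕ) (hs : ∀ i j, a i j = a j i) (V : Finset I)
    (d : I → ℕ) (hd : ∀ i, i ∉ V → d i = 0) (z : I) (hz : z ∉ V) :
    ∑ y, (d y : ℚ) * (cart a y z : ℚ) = -∑ v ∈ V, (a z v : ℚ) * (d v : ℚ) := by
  rw [← Finset.sum_subset (Finset.subset_univ V) (fun y _ hy => by
    rw [hd y hy]
    simp), ← Finset.sum_neg_distrib]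
  refine Finset.sum_congr rfl (fun y hy => ?_)
  have hne : y ≠ z := by
    rintro rfl
    exact hz hy
  rw [AG6_cart a hne, hs y z]
  ring

theorem AG6_cart0 (a : I → I → ℕ) (U V : Finset I)
    (hUV : Sep a U V) (x : I) (hx : x ∈ U) (v : I) (hv : v ∈ V) : (cart a x v : ℚ) = 0 := by
  have hne : x ≠ v := by
    rintro rfl
    exact Finset.disjoint_left.1 hUV.1 hx hv
  rw [AG6_cart a hne, hUV.2 x hx v hv]
  simp

theorem AG6_RReg (a : I → I → ℕ) (hs : ∀ i j, a i j = a j i) (U V : Finset I)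
    (hUV : Sep a U V) (T : Trm I) (hT : RReg U T) (p : ℕ) (hp : 1 ≤ p) (f : ℕ) (d : I → ℕ)
    (hd : ∀ i, i ∉ V → d i = 0) :
    RReg U ((T.pow p).etaM a (fun _ => f) (fun i => (d i : ℚ))) := by
  have hE : ∀ x ∈ U, ∀ l, ((T.pow p).etaM a (fun _ => f) (fun i => (d i : ℚ))).E (x, l) =
      p * T.E (x, l) := by
    intro x hx l
    rw [AG6_E, AG6_S0 a hs U V hUV d hd x hx]
    simp
  refine ⟨?_, ?_⟩
  · intro x hx l hl
    rw [hE x hx l]
    exact AG6_Nmul (hT.nat x hx l hl) p
  · intro x hx j hj l hl hne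
    rw [hE x hx l]
    have h1 := hT.col x hx j hj l hl hne
    have h2 : (1 : ℚ) ≤ p := by exact_mod_cast hp
    nlinarith

theorem AG6_cong (a : I → I → ℕ) (L : List (Blk I))
    (hd : L.Pairwise (fun b c => Sep a b.B c.B)) (z : I) (g : I → ℚ)
    (hg : ∀ b ∈ L, ∀ x ∈ b.B, IsZ (g x - b.q x)) :
    IsZ (∑ x ∈ uniB L, (a z x : ℚ) * g x -
      (L.map (fun b => ∑ x ∈ b.B, (a z x : ℚ) * b.q x)).sum) := by
  induction L with
  | nil => exact ⟨0, by simp [uniB]⟩
  | cons b L ih =>
    obtain ⟨hd1, hd2⟩ := List.pairwise_cons.1 hd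
    have hbu : uniB (b :: L) = b.B ∪ uniB L := rfl
    rw [hbu, Finset.sum_union (AG6_sepU b.B L hd1).1, List.map_cons, List.sum_cons]
    have h1 := ih hd2 (fun c hc => hg c (List.mem_cons_of_mem b hc))
    have h2 : IsZ (∑ x ∈ b.B, (a z x : ℚ) * (g x - b.q x)) :=
      AG6_Zsum _ _ (fun x hx => AG6_Znmul (hg b List.mem_cons_self x hx) _)
    have h3 := AG6_Zadd h2 h1
    have h4 : ∑ x ∈ b.B, (a z x : ℚ) * (g x - b.q x) =
        ∑ x ∈ b.B, (a z x : ℚ) * g x - ∑ x ∈ b.B, (a z x : ℚ) * b.q x := by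
      rw [← Finset.sum_sub_distrib]
      exact Finset.sum_congr rfl (fun x _ => by ring)
    rw [h4] at h3
    have h5 : ∑ x ∈ b.B, (a z x : ℚ) * g x + ∑ x ∈ uniB L, (a z x : ℚ) * g x -
        (∑ x ∈ b.B, (a z x : ℚ) * b.q x +
          (L.map (fun b => ∑ x ∈ b.B, (a z x : ℚ) * b.q x)).sum) =
        ∑ x ∈ b.B, (a z x : ℚ) * g x - ∑ x ∈ b.B, (a z x : ℚ) * b.q x +
        (∑ x ∈ uniB L, (a z x : ℚ) * g x -
          (L.map (fun b => ∑ x ∈ b.B, (a z x : ℚ) * b.q x)).sum) := by
      ring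
    rw [h5]
    exact h3

/-- insertion sums seen from a vertex outside. -/
theorem AG6_mapneg (a : I → I → ℕ) (hs : ∀ i j, a i j = a j i) (L : List (Blk I)) (z : I)
    (hz : z ∉ uniB L) :
    (L.map (fun b => ∑ x ∈ b.B, b.q x * (cart a x z : ℚ))).sum =
      -(L.map (fun b => ∑ x ∈ b.B, (a z x : ℚ) * b.q x)).sum := by
  induction L with
  | nil => simp
  | cons b L ih =>
    have hz1 : z ∉ b.B := fun h => hz ((mem_uniB _ _).2 ⟨b, List.mem_cons_self, h⟩)
    have hz2 : z ∉ uniB L := by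
      intro h
      obtain ⟨c, hc, hzc⟩ := (mem_uniB _ _).1 h
      exact hz ((mem_uniB _ _).2 ⟨c, List.mem_cons_of_mem b hc, hzc⟩)
    rw [List.map_cons, List.map_cons, List.sum_cons, List.sum_cons, ih hz2, neg_add,
      ← Finset.sum_neg_distrib]
    congr 1
    refine Finset.sum_congr rfl (fun x hx => ?_)
    have hne : x ≠ z := by
      rintro rfl
      exact hz1 hx
    rw [AG6_cart a hne, hs x z]
    ring

theorem AG6_map0 (a : I → I → ℕ) (L : List (Blk I)) (V : Finset I)
    (hLV : Sep a (uniB L) V) (v : I) (hv : v ∈ V) :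
    (L.map (fun b => ∑ x ∈ b.B, b.q x * (cart a x v : ℚ))).sum = 0 := by
  apply List.sum_eq_zero
  intro y hy
  obtain ⟨b, hb, rfl⟩ := List.mem_map.1 hy
  apply Finset.sum_eq_zero
  intro x hx
  rw [AG6_cart0 a (uniB L) V hLV x ((mem_uniB _ _).2 ⟨b, hb, hx⟩) v hv, mul_zero]

/-- columns of explicit terms at a vertex outside. -/
theorem AG6_col (a : I → I → ℕ) (f : ℕ) (L : List (Blk I))
    (hd : L.Pairwise (fun b c => Sep a b.B c.B)) (T : Trm I) (z : I) (hz : z ∉ uniB L) (j : I)
    (l : ℕ) (h : (expl a f L T).Λ j (z, l) ≠ 0) : j ∉ uniB L ∧ T.Λ j (z, l) ≠ 0 := by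
  by_cases hj : j ∈ uniB L
  · exfalso
    obtain ⟨b, hb, hjb⟩ := (mem_uniB _ _).1 hj
    rw [expl_Λ_in a f L T (hd.imp (fun h => h.1)) b hb j hjb] at h
    apply h
    have hne : (j, b.sd f) ≠ (z, l) := by
      intro e
      exact hz ((Prod.mk.inj e).1 ▸ hj)
    exact Finsupp.single_eq_of_ne' hne
  · rw [expl_Λ_out a f L T j hj] at h
    exact ⟨hj, h⟩

end

end Pool.Agent.H27.KAC

end

section

/-!
KAC ADE, module B4: regularity, FACT 2.

`Rg x F`: all `t_x`-exponents of `F` are natural numbers.  FACT 1: `Qp a x k n` (`n` natural) and `Qp a j k α` (`j ≠ x`, any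
`α`) are regular (`uS_fil_self`, `uS_fil_ne`, `rpw_Fil`; the `t_x`-exponent of the monomial of `Tht a F` at `β` is
`-(C β)_x`, and `Fil a x r F` says `(C β)_x ≤ r`).
The forms `Df a j k`, `j ≠ x`, and `Qp a x k 1 * Df a x k` (`= d Q`, `th_Qp` with α = 1) are regular (`RF`): the component at
`x` has positive exponents because `θ_x t_x^n = n t_x^n` (`xv_reg`, `xv_pole`, or directly).
FACT 2 (`fact2`): row `x` of the matrix has entries in `Rg1 x`, all other entries are in `Rg x`, so the determinant is in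
`Rg1 x` (Laplace expansion along row `x`, `Matrix.det_apply` is fine too) and has no term `t^0`.
`fact2_pole`: with poles `Df a x k`, `k ∈ P`, and the factor `∏_{k ∈ P} Q_{x,k}`: expand the determinant multilinearly in the
columns; a product of two columns with the same `Df a x k` vanishes, so each `Df a x k` occurs at most once and is
multiplied by its own factor `Q_{x,k}`.
-/

set_option autoImplicit false

namespace Pool.Agent.H46.KA

open scoped BigOperators
open MvPowerSeries Pool.Agent.H27.KAC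

variable {I : Type} [Fintype I] [DecidableEq I]

omit [Fintype I] [DecidableEq I] in
/-- the exponents of a product -/
private theorem B4_mul {F G : LL I} {β : I →₀ ℕ} {d : I → ℚ}
    (h : (MvPowerSeries.coeff β (F * G)).coeff d ≠ 0) :
    ∃ (β₁ : I →₀ ℕ) (d₁ : I → ℚ) (β₂ : I →₀ ℕ) (d₂ : I → ℚ),
      (MvPowerSeries.coeff β₁ F).coeff d₁ ≠ 0 ∧ (MvPowerSeries.coeff β₂ G).coeff d₂ ≠ 0 ∧
      d₁ + d₂ = d := by
  classical
  rw [MvPowerSeries.coeff_mul, AddMonoidAlgebra.coeff_sum, Finsupp.finsetSum_apply] at h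
  obtain ⟨p, -, hp⟩ := Finset.exists_ne_zero_of_sum_ne_zero h
  have h1 : d ∈ (MvPowerSeries.coeff p.1 F * MvPowerSeries.coeff p.2 G).coeff.support :=
    Finsupp.mem_support_iff.mpr hp
  have h2 := AddMonoidAlgebra.support_coeff_mul_subset _ _ h1
  obtain ⟨d₁, h3, d₂, h4, h5⟩ := Finset.mem_add.mp h2
  exact ⟨p.1, d₁, p.2, d₂, Finsupp.mem_support_iff.mp h3, Finsupp.mem_support_iff.mp h4, h5⟩

/-- all exponents of `t_x` satisfy `P` -/
private def B4_SP (x : I) (P : ℚ → Prop) (F : LL I) : Prop :=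
  ∀ (β : I →₀ ℕ) (d : I → ℚ), (MvPowerSeries.coeff β F).coeff d ≠ 0 → P (d x)

omit [Fintype I] [DecidableEq I] in
private theorem B4_SP_mul {x : I} {P Q R : ℚ → Prop} {F G : LL I} (hF : B4_SP x P F)
    (hG : B4_SP x Q G) (h : ∀ p q, P p → Q q → R (p + q)) : B4_SP x R (F * G) := by
  intro β d hd
  obtain ⟨β₁, d₁, β₂, d₂, h1, h2, h3⟩ := B4_mul hd
  rw [← h3]
  exact h _ _ (hF β₁ d₁ h1) (hG β₂ d₂ h2)

omit [Fintype I] [DecidableEq I] in
private theorem B4_SP_add {x : I} {P : ℚ → Prop} {F G : LL I} (hF : B4_SP x P F)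
    (hG : B4_SP x P G) : B4_SP x P (F + G) := by
  intro β d hd
  rw [map_add, AddMonoidAlgebra.coeff_add, Finsupp.add_apply] at hd
  by_cases h1 : (MvPowerSeries.coeff β F).coeff d = 0
  · rw [h1, zero_add] at hd
    exact hG β d hd
  · exact hF β d h1

omit [Fintype I] [DecidableEq I] in
private theorem B4_SP_neg {x : I} {P : ℚ → Prop} {F : LL I} (hF : B4_SP x P F) :
    B4_SP x P (-F) := by
  intro β d hd
  refine hF β d ?_
  intro h
  apply hd
  rw [map_neg]
  show (-(MvPowerSeries.coeff β F)).coeff d = 0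
  have h1 : (-(MvPowerSeries.coeff β F)).coeff d = -((MvPowerSeries.coeff β F).coeff d) := rfl
  rw [h1, h, neg_zero]

omit [Fintype I] [DecidableEq I] in
private theorem B4_SP_zero (x : I) (P : ℚ → Prop) : B4_SP x P (0 : LL I) := by
  intro β d hd
  exact absurd (by rw [map_zero]; rfl) hd

omit [Fintype I] [DecidableEq I] in
private theorem B4_SP_single (x : I) (P : ℚ → Prop) (d : I → ℚ) (r : ℚ) (hP : P (d x))
    (e : I →₀ ℕ) :
    B4_SP x P (MvPowerSeries.monomial e (AddMonoidAlgebra.single d r) : LL I) := by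
  classical
  intro β d' hd
  rw [MvPowerSeries.coeff_monomial] at hd
  split_ifs at hd with h1
  · have hd1 : (Finsupp.single d r) d' ≠ 0 := hd
    rw [Finsupp.single_apply] at hd1
    split_ifs at hd1 with h2
    · rw [← h2]
      exact hP
    · exact absurd rfl hd1
  · exact absurd rfl hd

omit [Fintype I] [DecidableEq I] in
private theorem B4_SP_th {x : I} {P : ℚ → Prop} {F : LL I} (hF : B4_SP x P F) (l : I) :
    ∀ (β : I →₀ ℕ) (d : I → ℚ), (MvPowerSeries.coeff β (th l F)).coeff d ≠ 0 →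
      P (d x) ∧ d l ≠ 0 := by
  intro β d hd
  have h1 : (MvPowerSeries.coeff β (th l F)).coeff d = d l * (MvPowerSeries.coeff β F).coeff d :=
    rfl
  rw [h1] at hd
  exact ⟨hF β d (right_ne_zero_of_mul hd), left_ne_zero_of_mul hd⟩

private theorem B4_SP_Tht (a : I → I → ℕ) {x : I} {r : ℤ} {F : MvPowerSeries I ℚ}
    (hF : Fil a x r F) : B4_SP x (fun q => ∃ z : ℤ, -r ≤ z ∧ q = z) (Tht a F) := by
  intro β d hd
  have h1 : MvPowerSeries.coeff β (Tht a F) =
      AddMonoidAlgebra.single (dg a β) (MvPowerSeries.coeff β F) := rfl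
  rw [h1] at hd
  have hd1 : (Finsupp.single (dg a β) (MvPowerSeries.coeff β F)) d ≠ 0 := hd
  rw [Finsupp.single_apply] at hd1
  split_ifs at hd1 with h2
  · have h3 := hF β hd1
    refine ⟨-(cw a β x), by linarith, ?_⟩
    rw [← h2]
    unfold dg
    push_cast
    rfl
  · exact absurd rfl hd1

omit [Fintype I] [DecidableEq I] in
private theorem B4_SP_tm (x : I) (d : I → ℚ) : B4_SP x (fun q => q = d x) (tm d : LL I) := by
  unfold tm
  rw [← MvPowerSeries.monomial_zero_eq_C_apply]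
  exact B4_SP_single x (fun q => q = d x) d 1 rfl 0

omit [Fintype I] [DecidableEq I] in
private theorem B4_SP_mono {x : I} {P Q : ℚ → Prop} {F : LL I} (hF : B4_SP x P F)
    (h : ∀ q, P q → Q q) : B4_SP x Q F := fun β d hd => h _ (hF β d hd)

/-- natural numbers -/
private def B4_N (q : ℚ) : Prop := ∃ n : ℕ, q = n

/-- positive natural numbers -/
private def B4_N1 (q : ℚ) : Prop := ∃ n : ℕ, q = (n : ℚ) + 1

private theorem B4_nat {z : ℤ} {q : ℚ} (hz : 0 ≤ z) (hq : q = z) : B4_N q := by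
  obtain ⟨n, rfl⟩ := Int.eq_ofNat_of_zero_le hz
  exact ⟨n, by rw [hq]; push_cast; rfl⟩

private theorem B4_nat1 {z : ℤ} {q : ℚ} (hz : 1 ≤ z) (hq : q = z) : B4_N1 q := by
  obtain ⟨n, hn⟩ := Int.eq_ofNat_of_zero_le (show 0 ≤ z - 1 by linarith)
  refine ⟨n, ?_⟩
  have h : z = (n : ℤ) + 1 := by linarith
  rw [hq, h]
  push_cast
  rfl

theorem Rg_zero (x : I) : Rg x (0 : LL I) := by
  exact B4_SP_zero x B4_N

theorem Rg_one (x : I) : Rg x (1 : LL I) := by
  rw [← qC_one]
  unfold qC
  rw [← MvPowerSeries.monomial_zero_eq_C_apply]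
  exact B4_SP_single x B4_N 0 1 ⟨0, by simp⟩ 0

theorem Rg_add {x : I} {F G : LL I} (hF : Rg x F) (hG : Rg x G) : Rg x (F + G) := by
  exact B4_SP_add (P := B4_N) hF hG

theorem Rg_neg {x : I} {F : LL I} (hF : Rg x F) : Rg x (-F) := by
  exact B4_SP_neg (P := B4_N) hF

theorem Rg_mul {x : I} {F G : LL I} (hF : Rg x F) (hG : Rg x G) : Rg x (F * G) := by
  refine B4_SP_mul (P := B4_N) (Q := B4_N) (R := B4_N) hF hG ?_
  rintro p q ⟨n, rfl⟩ ⟨m, rfl⟩
  exact ⟨n + m, by push_cast; rfl⟩

theorem Rg_sum {x : I} {ι : Type} (s : Finset ι) (f : ι → LL I) (h : ∀ i ∈ s, Rg x (f i)) :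
    Rg x (∑ i ∈ s, f i) := by
  classical
  induction s using Finset.induction_on with
  | empty =>
    rw [Finset.sum_empty]
    exact Rg_zero x
  | insert i s his ih =>
    rw [Finset.sum_insert his]
    exact Rg_add (h i (Finset.mem_insert_self i s))
      (ih (fun j hj => h j (Finset.mem_insert_of_mem hj)))

theorem Rg_prod {x : I} {ι : Type} (s : Finset ι) (f : ι → LL I) (h : ∀ i ∈ s, Rg x (f i)) :
    Rg x (∏ i ∈ s, f i) := by
  classical
  induction s using Finset.induction_on with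
  | empty =>
    rw [Finset.prod_empty]
    exact Rg_one x
  | insert i s his ih =>
    rw [Finset.prod_insert his]
    exact Rg_mul (h i (Finset.mem_insert_self i s))
      (ih (fun j hj => h j (Finset.mem_insert_of_mem hj)))

theorem Rg_X (x i : I) : Rg x (X i : LL I) := by
  have h : (X i : LL I) = MvPowerSeries.monomial (Finsupp.single i 1)
      (AddMonoidAlgebra.single (0 : I → ℚ) (1 : ℚ)) := rfl
  rw [h]
  exact B4_SP_single x B4_N 0 1 ⟨0, by simp⟩ _

theorem Rg_th {x : I} {F : LL I} (hF : Rg x F) (l : I) : Rg x (th l F) := by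
  intro β d hd
  exact (B4_SP_th (P := B4_N) hF l β d hd).1

theorem Rg1_th {x : I} {F : LL I} (hF : Rg x F) : Rg1 x (th x F) := by
  intro β d hd
  obtain ⟨⟨n, hn⟩, h0⟩ := B4_SP_th (P := B4_N) hF x β d hd
  rw [hn] at h0
  have hn0 : n ≠ 0 := fun h => h0 (by rw [h, Nat.cast_zero])
  obtain ⟨m, rfl⟩ := Nat.exists_eq_succ_of_ne_zero hn0
  exact ⟨m, by rw [hn]; push_cast; rfl⟩

theorem Rg1_mul {x : I} {F G : LL I} (hF : Rg1 x F) (hG : Rg x G) : Rg1 x (F * G) := by
  refine B4_SP_mul (P := B4_N1) (Q := B4_N) (R := B4_N1)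
    hF hG ?_
  rintro p q ⟨n, rfl⟩ ⟨m, rfl⟩
  exact ⟨n + m, by push_cast; ring⟩

theorem Rg1_add {x : I} {F G : LL I} (hF : Rg1 x F) (hG : Rg1 x G) : Rg1 x (F + G) := by
  exact B4_SP_add (P := B4_N1) hF hG

theorem Rg1_zero (x : I) : Rg1 x (0 : LL I) := by
  exact B4_SP_zero x B4_N1

/-- FACT 1 -/
theorem Rg_Qp_ne (a : I → I → ℕ) (hs : ∀ i j, a i j = a j i) (x : I) (hx : a x x = 0) (j : I)
    (hj : j ≠ x) (k : ℕ) (α : ℚ) : Rg x (Qp a j k α) := by
  unfold Qp
  refine B4_SP_mul (P := fun q => q = 0) (Q := fun q => ∃ z : ℤ, -0 ≤ z ∧ q = z)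
    (R := B4_N) ?_
    (B4_SP_Tht a (rpw_Fil a x _ (uS_const a j k) (uS_fil_ne a hs x hx j hj k) α)) ?_
  · refine B4_SP_mono (B4_SP_tm x _) ?_
    intro q hq
    rw [hq, if_neg (Ne.symm hj)]
  · rintro p q rfl ⟨z, hz, rfl⟩
    rw [zero_add]
    exact B4_nat (by simpa using hz) rfl

theorem Rg_Qp_self (a : I → I → ℕ) (hs : ∀ i j, a i j = a j i) (x : I) (hx : a x x = 0)
    (k n : ℕ) : Rg x (Qp a x k (n : ℚ)) := by
  unfold Qp
  rw [rpw_nat _ (uS_const a x k)]
  refine B4_SP_mul (P := fun q => q = (k : ℚ) * n)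
    (Q := fun q => ∃ z : ℤ, -((n : ℤ) * k) ≤ z ∧ q = z) (R := B4_N) ?_
    (B4_SP_Tht a ((uS_fil_self a hs x hx k).pow n)) ?_
  · refine B4_SP_mono (B4_SP_tm x _) ?_
    intro q hq
    rw [hq, if_pos rfl]
  · rintro p q rfl ⟨z, hz, rfl⟩
    refine B4_nat (z := (n : ℤ) * k + z) (by linarith) ?_
    push_cast
    ring

theorem RF_smul {x : I} {v : Fm I} (hv : RF x v) {F : LL I} (hF : Rg x F) :
    RF x (fun l => F * v l) := by
  refine ⟨fun l => Rg_mul hF (hv.1 l), ?_⟩
  show Rg1 x (F * v x)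
  rw [mul_comm]
  exact Rg1_mul hv.2 hF

theorem RF_sum {x : I} {ι : Type} (s : Finset ι) (v : ι → Fm I) (h : ∀ i ∈ s, RF x (v i)) :
    RF x (fun l => ∑ i ∈ s, v i l) := by
  classical
  refine ⟨fun l => Rg_sum s _ (fun i hi => (h i hi).1 l), ?_⟩
  show Rg1 x (∑ i ∈ s, v i x)
  induction s using Finset.induction_on with
  | empty =>
    rw [Finset.sum_empty]
    exact Rg1_zero x
  | insert i s his ih =>
    rw [Finset.sum_insert his]
    exact Rg1_add (h i (Finset.mem_insert_self i s)).2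
      (ih (fun j hj => h j (Finset.mem_insert_of_mem hj)))

theorem RF_th {x : I} {F : LL I} (hF : Rg x F) : RF x (fun l => th l F) := by
  exact ⟨fun l => Rg_th hF l, Rg1_th hF⟩

theorem RF_Df_ne (a : I → I → ℕ) (hs : ∀ i j, a i j = a j i) (x : I) (hx : a x x = 0) (j : I)
    (hj : j ≠ x) (k : ℕ) : RF x (Df a j k) := by
  have h := xv_reg a hs x hx j hj k
  have hx1 : Fil a x (-1) (xv a j k x) := h.2
  refine ⟨fun l => ?_, ?_⟩
  · have hl : Fil a x 0 (xv a j k l) := by
      by_cases hlx : l = x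
      · rw [hlx]
        exact hx1.mono (by norm_num)
      · exact h.1 l hlx
    refine B4_SP_mono (B4_SP_Tht a hl) (Q := B4_N) ?_
    rintro q ⟨z, hz, hq⟩
    exact B4_nat (by simpa using hz) hq
  · refine B4_SP_mono (B4_SP_Tht a hx1) (Q := B4_N1) ?_
    rintro q ⟨z, hz, hq⟩
    exact B4_nat1 (by linarith) hq

theorem RF_Q_Df (a : I → I → ℕ) (hs : ∀ i j, a i j = a j i) (x : I) (hx : a x x = 0) (k : ℕ) :
    RF x (fun l => Qp a x k 1 * Df a x k l) := by
  have h := RF_th (Rg_Qp_self a hs x hx k 1)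
  have e : (fun l => th l (Qp a x k ((1 : ℕ) : ℚ))) = fun l => Qp a x k 1 * Df a x k l := by
    funext l
    rw [Nat.cast_one, th_Qp, qC_one, one_mul]
  rwa [e] at h

end Pool.Agent.H46.KA

end
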