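import Pool.Agent.H16.TKA.M20

/-! The parts of this file: H41.KA.AE5, H41.KA.AE6, H41.KA.AE7, H41.KA.AE8, H41.KA.AG7. -/

section

/-!
KAC ADE, module AE5: vanishing for positive effective exponents.

Proof: `TV_eq_zero_of_pow`.  For a large prime `p`, fire `N` from `p ν` down (`fire_down` with `θ = 3`, `TV_fire`) with `v ≥ p solN ν -
const`, `v ≥ 0`.  Then the exponents of `s` at level `l` become `p E(s,l) + ∑ a_sx v_x ≥ p eff_l - const`, so they are natural
numbers and `≥ 1` at the levels with `eff_l > 0`: `TV_van` in direction `s`.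
-/

set_option autoImplicit false

namespace Pool.Agent.H27.KAC

open scoped BigOperators

section

variable {I : Type} [Fintype I] [DecidableEq I]

/-- effective exponent of `s` at level `l` after elimination of `N`. -/
noncomputable def effE (a : I → I → ℕ) (N : Finset I) (κ : I → ℕ) (T : Trm I) (s : I) (l : ℕ) : ℚ :=
  T.E (s, l) + ∑ x ∈ N.filter (fun x => κ x = l), (a s x : ℚ) * solN a N (fun i => T.E (i, κ i)) x

/-- a lower bound for a prime multiple of a positive number. -/
private theorem AE5_large (e c : ℚ) : ∃ P : ℕ, ∀ p : ℕ, P ≤ p → 0 < e → 1 ≤ (p : ℚ) * e - c := by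
  by_cases he : 0 < e
  · obtain ⟨P, hP⟩ := exists_nat_ge ((1 + c) / e)
    refine ⟨P, fun p hp _ => ?_⟩
    have h1 : (1 + c) / e ≤ p := hP.trans (by exact_mod_cast hp)
    rw [div_le_iff₀ he] at h1
    linarith
  · exact ⟨0, fun p _ h => absurd h he⟩

private theorem AE5_unif (F : Finset ℕ) (e c : ℕ → ℚ) :
    ∃ P : ℕ, ∀ p : ℕ, P ≤ p → ∀ l ∈ F, 0 < e l → 1 ≤ (p : ℚ) * e l - c l := by
  choose P hP using fun l => AE5_large (e l) (c l)
  refine ⟨F.sup P, fun p hp l hl hel => hP l p ((Finset.le_sup hl).trans hp) hel⟩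

private theorem AE5_cart (a : I → I → ℕ) {x s : I} (h : x ≠ s) :
    ((cart a x s : ℤ) : ℚ) = -(a x s : ℚ) := by
  unfold cart
  rw [if_neg h]
  push_cast
  ring

/-- the exponents of the neighbour after firing -/
private theorem AE5_exp (a : I → I → ℕ) (hs : ∀ i j, a i j = a j i) (N : Finset I) (κ : I → ℕ)
    (T : Trm I) (s : I) (hsN : s ∉ N) (v : I → ℕ) (hv : ∀ i, i ∉ N → v i = 0) (l : ℕ) :
    (T.etaM a κ (fun i => (v i : ℚ))).E (s, l) =
      T.E (s, l) + ∑ x ∈ N.filter (fun x => κ x = l), (a s x : ℚ) * (v x : ℚ) := by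
  rw [etaM_E, sub_eq_add_neg, ← Finset.sum_neg_distrib]
  congr 1
  have h1 : N.filter (fun x => κ x = l) ⊆ Finset.univ.filter (fun x => κ x = l) :=
    Finset.filter_subset_filter _ (Finset.subset_univ N)
  rw [← Finset.sum_subset h1]
  · refine Finset.sum_congr rfl ?_
    intro x hx
    have hxN : x ∈ N := (Finset.mem_filter.mp hx).1
    have hne : x ≠ s := fun h => hsN (h ▸ hxN)
    rw [AE5_cart a hne, hs s x]
    ring
  · intro x hx hx'
    have hxN : x ∉ N := fun h => hx' (Finset.mem_filter.mpr ⟨h, (Finset.mem_filter.mp hx).2⟩)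
    rw [hv x hxN]
    simp

theorem TV_Z (a : I → I → ℕ) (hs : ∀ i j, a i j = a j i) (N : Finset I) (hN : FinT a N)
    (κ σ : I → ℕ) (hκ : ∀ x ∈ N, 1 ≤ κ x)
    (hadj : ∀ x ∈ N, ∀ y ∈ N, 0 < a x y → κ x = κ y) (hσ : ∀ x ∈ N, Side (κ x) (σ x)) (T : Trm I)
    (h : ∀ x ∈ N, FReg T x (κ x) (σ x)) (s : I) (hsN : s ∉ N) (hss : a s s = 0)
    (hE : ∀ l, 1 ≤ l → IsZ (T.E (s, l)))
    (heff : ∀ l, 1 ≤ l → 0 < effE a N κ T s l ∨ (0 ≤ T.E (s, l) ∧ ∀ j, T.Λ j (s, l) = 0)) :
    TV a T = 0 := by
  classical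
  -- the integral exponents at the firing levels
  have hν0 : ∀ x : I, ∃ z : ℤ, x ∈ N → T.E (x, κ x) = z := by
    intro x
    by_cases hx : x ∈ N
    · obtain ⟨z, hz⟩ := (h x hx).int
      exact ⟨z, fun _ => hz⟩
    · exact ⟨0, fun h' => absurd h' hx⟩
  choose ν hν using hν0
  have hS : solN a N (fun i => T.E (i, κ i)) = solN a N (fun i => (ν i : ℚ)) :=
    solN_congr hs hN _ _ (fun i hi => hν i hi)
  obtain ⟨P, hP⟩ := AE5_unif (T.E.support.image Prod.snd ∪ N.image κ) (effE a N κ T s)
    (fun l => ∑ x ∈ N.filter (fun x => κ x = l), (a s x : ℚ) * (3 * solN a N (fun _ => 1) x))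
  refine TV_eq_zero_of_pow a hs T ⟨1, P, le_rfl, ?_⟩
  intro p hpP hp _
  have hp1 : 1 ≤ p := hp.one_lt.le
  have hp0 : (0 : ℚ) ≤ (p : ℚ) := Nat.cast_nonneg p
  obtain ⟨v, hv1, -, hv2⟩ := fire_down hs hN 3 (by norm_num) (fun x => (p : ℤ) * ν x)
  have hpow : ∀ ik, (T.pow (p : ℚ)).E ik = (p : ℚ) * T.E ik := by
    intro ik
    show ((p : ℚ) • T.E) ik = _
    rw [Finsupp.smul_apply, smul_eq_mul]
  rw [TV_fire a hs N hN.loopfree κ σ hκ hadj hσ (T.pow p) (fun x hx => (h x hx).pow p hp1)
    (fun x => (p : ℤ) * ν x) (fun x hx => by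
      rw [hpow, hν x hx]
      push_cast
      rfl) v hv1]
  have hsol : ∀ x ∈ N, (p : ℚ) * solN a N (fun i => T.E (i, κ i)) x
      - 3 * solN a N (fun _ => 1) x ≤ v x := by
    intro x hx
    have h1 := hv2 x hx
    have h2 : solN a N (fun i => (((p : ℤ) * ν i : ℤ) : ℚ)) x =
        (p : ℚ) * solN a N (fun i => (ν i : ℚ)) x := by
      rw [← solN_smul hs hN]
      congr 1
      funext i
      push_cast
      rfl
    rw [h2] at h1
    rw [hS]
    push_cast at h1
    exact h1
  -- the exponents of `s`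
  have hexp : ∀ l, ((T.pow p).etaM a κ (fun i => (v i : ℚ))).E (s, l) =
      (p : ℚ) * T.E (s, l) + ∑ x ∈ N.filter (fun x => κ x = l), (a s x : ℚ) * (v x : ℚ) := by
    intro l
    rw [AE5_exp a hs N κ _ s hsN v hv1.supp l, hpow]
  have hsum0 : ∀ l, 0 ≤ ∑ x ∈ N.filter (fun x => κ x = l), (a s x : ℚ) * (v x : ℚ) := by
    intro l
    exact Finset.sum_nonneg (fun x _ => mul_nonneg (Nat.cast_nonneg _) (Nat.cast_nonneg _))
  have hge : ∀ l, 1 ≤ l → 0 < effE a N κ T s l →
      1 ≤ ((T.pow p).etaM a κ (fun i => (v i : ℚ))).E (s, l) := by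
    intro l hl heffl
    have hlF : l ∈ T.E.support.image Prod.snd ∪ N.image κ := by
      by_contra hlF
      rw [Finset.mem_union, not_or] at hlF
      have h1 : T.E (s, l) = 0 := by
        by_contra h2
        exact hlF.1 (Finset.mem_image.mpr ⟨(s, l), Finsupp.mem_support_iff.mpr h2, rfl⟩)
      have h2 : N.filter (fun x => κ x = l) = ∅ := by
        rw [Finset.filter_eq_empty_iff]
        intro x hx hxl
        exact hlF.2 (Finset.mem_image.mpr ⟨x, hx, hxl⟩)
      unfold effE at heffl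
      rw [h1, h2, Finset.sum_empty, add_zero] at heffl
      exact lt_irrefl _ heffl
    have h1 := hP p hpP l hlF heffl
    rw [hexp l]
    refine h1.trans ?_
    have h2 : ∑ x ∈ N.filter (fun x => κ x = l), (a s x : ℚ) *
        ((p : ℚ) * solN a N (fun i => T.E (i, κ i)) x - 3 * solN a N (fun _ => 1) x) ≤
        ∑ x ∈ N.filter (fun x => κ x = l), (a s x : ℚ) * (v x : ℚ) := by
      refine Finset.sum_le_sum ?_
      intro x hx
      exact mul_le_mul_of_nonneg_left (hsol x (Finset.mem_filter.mp hx).1) (Nat.cast_nonneg _)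
    have h3 : ∑ x ∈ N.filter (fun x => κ x = l), (a s x : ℚ) *
        ((p : ℚ) * solN a N (fun i => T.E (i, κ i)) x - 3 * solN a N (fun _ => 1) x) =
        (p : ℚ) * ∑ x ∈ N.filter (fun x => κ x = l),
          (a s x : ℚ) * solN a N (fun i => T.E (i, κ i)) x -
        ∑ x ∈ N.filter (fun x => κ x = l), (a s x : ℚ) * (3 * solN a N (fun _ => 1) x) := by
      rw [Finset.mul_sum, ← Finset.sum_sub_distrib]
      refine Finset.sum_congr rfl ?_
      intro x _
      ring
    rw [h3] at h2
    unfold effE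
    rw [mul_add]
    linarith
  have hint : ∀ l, 1 ≤ l → IsZ (((T.pow p).etaM a κ (fun i => (v i : ℚ))).E (s, l)) := by
    intro l hl
    obtain ⟨z, hz⟩ := hE l hl
    rw [hexp l, hz]
    refine ⟨(p : ℤ) * z + ∑ x ∈ N.filter (fun x => κ x = l), (a s x : ℤ) * (v x : ℤ), ?_⟩
    push_cast
    rfl
  refine TV_van a hs _ s hss ⟨?_, ?_⟩
  · intro l hl
    have h0 : 0 ≤ ((T.pow p).etaM a κ (fun i => (v i : ℚ))).E (s, l) := by
      rcases heff l hl with h1 | h1
      · exact zero_le_one.trans (hge l hl h1)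
      · rw [hexp l]
        exact add_nonneg (mul_nonneg hp0 h1.1) (hsum0 l)
    obtain ⟨z, hz⟩ := hint l hl
    rw [hz] at h0 ⊢
    have h1 : 0 ≤ z := by exact_mod_cast h0
    obtain ⟨n, rfl⟩ := Int.eq_ofNat_of_zero_le h1
    exact ⟨n, by push_cast; rfl⟩
  · intro j l hl hne
    rcases heff l hl with h1 | h1
    · exact hge l hl h1
    · exact absurd (h1.2 j) hne

end

end Pool.Agent.H27.KAC

end

section

/-!
KAC ADE, module AE6: the columns `θ_y`, `y ∈ N`, may be removed.

Proof of `TV_T0`: `TV_eq_zero_of_pow`, `TV_large` with `θ = 3`: so one may assume `3 ≤ E(y,k)`, `k = κ y`.  Write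
`T = T0.mulE (2 • sy y k)`, column `j` is `cE y k = A - B` with `A = 2 • sy y k`, `B = A - cE y k`.  By `TV_relD` and `TV_rel`
`[A; A] - [A; B] = [B; B] + [C; C] - [B; B] - [C; B] = [C; C - B]`, `C = sy y (k+1) + sy y (k-1)`, and the last term vanishes by
`TV_van` in direction `y`.
-/

set_option autoImplicit false

namespace Pool.Agent.H27.KAC

open scoped BigOperators

section

variable {I : Type} [Fintype I] [DecidableEq I]

private theorem AE6_sy (i j : I) (k l : ℕ) :
    (sy i k : QE I) (j, l) = if i = j ∧ k = l then 1 else 0 := by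
  rw [sy, Finsupp.single_apply]
  simp only [Prod.mk.injEq]

private theorem AE6_sub_add (E F : QE I) : E - F + F = E := sub_add_cancel E F

theorem TV_T0_large (a : I → I → ℕ) (hs : ∀ i j, a i j = a j i) (T : Trm I) (y : I)
    (hy : a y y = 0) (k σ : ℕ) (hk : 1 ≤ k) (hσ : Side k σ) (h : FReg T y k σ)
    (hE : 3 ≤ T.E (y, k)) (j : I) (hj : T.Λ j = cE a y k) : TV a T = 0 := by
  set A : QE I := (2 : ℚ) • sy y k with hA
  set B : QE I := (2 : ℚ) • sy y k - cE a y k with hB
  set C : QE I := sy y (k + 1) + sy y (k - 1) with hC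
  set T0 : Trm I := ⟨T.γ, T.E - A, T.Λ⟩ with hT0
  have hT : T = (T0.mulE A) := by
    ext1
    · rfl
    · exact (AE6_sub_add T.E A).symm
    · rfl
  -- split of the column
  have h1 : TV a T = TV a ((T0.mulE A).col j A) - TV a ((T0.mulE A).col j B) := by
    have e1 : TV a T = TV a ((T0.mulE A).col j (cE a y k)) := by
      rw [← hj]
      conv_lhs => rw [hT]
      exact (TV_col_self a (T0.mulE A) j).symm
    have e2 : A = B + cE a y k := by
      rw [hB, hA]
      exact (AE6_sub_add _ _).symm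
    have e3 : TV a ((T0.mulE A).col j A) =
        TV a ((T0.mulE A).col j B) + TV a ((T0.mulE A).col j (cE a y k)) := by
      rw [← TV_col_add, ← e2]
    rw [e1, e3]
    ring
  have h2 := TV_relD a hs T0 j y k hk
  rw [← hA, ← hB, ← hC] at h2
  have h3 : TV a ((T0.mulE A).col j B) =
      TV a (((T0.mulE A).eta a k (Pi.single y 1)).col j B) + TV a ((T0.mulE C).col j B) := by
    have := TV_rel a hs (T0.col j B) y k hk
    rw [← hA, ← hC] at this
    exact this
  have h4 : TV a ((T0.mulE C).col j C) = TV a ((T0.mulE C).col j B) +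
      TV a ((T0.mulE C).col j (C - B)) := by
    rw [← TV_col_add]
    congr 2
    exact (add_sub_cancel B C).symm
  have h5 : TV a ((T0.mulE C).col j (C - B)) = 0 := by
    apply TV_van a hs _ y hy
    -- exponents
    have hEx : ∀ l, ((T0.mulE C).col j (C - B)).E (y, l) =
        T.E (y, l) - (if k = l then 2 else 0) + ((if k + 1 = l then 1 else 0) +
          (if k - 1 = l then 1 else 0)) := by
      intro l
      change (T.E - A + C) (y, l) = _
      rw [Finsupp.add_apply, Finsupp.sub_apply, hA, hC, Finsupp.smul_apply, Finsupp.add_apply,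
        AE6_sy, AE6_sy, AE6_sy]
      simp
    have hkE : ∃ n : ℕ, 3 ≤ n ∧ T.E (y, k) = n := by
      obtain ⟨n, hn⟩ := h.int
      rw [hn] at hE
      have hn3 : (3 : ℤ) ≤ n := by exact_mod_cast hE
      obtain ⟨m, rfl⟩ : ∃ m : ℕ, n = m := ⟨n.toNat, by omega⟩
      exact ⟨m, by omega, by rw [hn]; simp⟩
    have hval : ∀ l, 1 ≤ l → ∃ n : ℕ, ((T0.mulE C).col j (C - B)).E (y, l) = n ∧
        ((l = k ∨ l = k + 1 ∨ l + 1 = k) → 1 ≤ n) ∧ (1 ≤ T.E (y, l) → 1 ≤ n) := by
      intro l hl
      rw [hEx]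
      by_cases hlk : l = k
      · subst hlk
        obtain ⟨n, hn3, hn⟩ := hkE
        refine ⟨n - 2, ?_, fun _ => by omega, fun _ => by omega⟩
        rw [hn, if_pos rfl, if_neg (by omega), if_neg (by omega), Nat.cast_sub (by omega)]
        push_cast
        ring
      · obtain ⟨n, hn⟩ := h.nat l hl hlk
        rw [hn, if_neg (fun h => hlk h.symm)]
        by_cases h1 : k + 1 = l
        · refine ⟨n + 1, ?_, fun _ => by omega, fun _ => by omega⟩
          rw [if_pos h1, if_neg (by omega)]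
          push_cast
          ring
        · by_cases h2 : k - 1 = l
          · refine ⟨n + 1, ?_, fun _ => by omega, fun _ => by omega⟩
            rw [if_neg h1, if_pos h2]
            push_cast
            ring
          · refine ⟨n, ?_, fun h => ?_, fun h => ?_⟩
            · rw [if_neg h1, if_neg h2]
              ring
            · omega
            · exact_mod_cast h
    refine ⟨fun l hl => ?_, fun i l hl hne => ?_⟩
    · obtain ⟨n, hn, _⟩ := hval l hl
      exact ⟨n, hn⟩
    · obtain ⟨n, hn, hn1, hn2⟩ := hval l hl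
      rw [hn]
      have key : 1 ≤ n := by
        by_cases hij : i = j
        · subst hij
          have hne' : (C - B) (y, l) ≠ 0 := by
            have : ((T0.mulE C).col i (C - B)).Λ i = C - B := Function.update_self _ _ _
            rwa [this] at hne
          by_contra hc
          apply hne'
          have hl3 : ¬ (l = k ∨ l = k + 1 ∨ l + 1 = k) := fun h => hc (hn1 h)
          push Not at hl3
          rw [Finsupp.sub_apply, hB, Finsupp.sub_apply, hC, Finsupp.smul_apply, Finsupp.add_apply,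
            AE6_sy, AE6_sy, AE6_sy, cE_apply, if_neg (by omega), if_neg (by omega),
            if_neg (by omega), if_neg (by omega)]
          simp
        · have hne' : T.Λ i (y, l) ≠ 0 := by
            have : ((T0.mulE C).col j (C - B)).Λ i = T.Λ i := Function.update_of_ne hij _ _
            rwa [this] at hne
          rcases h.col i l hl hne' with h6 | h6 | h6
          · apply hn1
            rcases hσ with h7 | h7
            · right; left; omega
            · right; right; omega
          · exact hn1 (Or.inl h6)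
          · exact hn2 h6
      exact_mod_cast key
  linarith

theorem TV_T0 (a : I → I → ℕ) (hs : ∀ i j, a i j = a j i) (N : Finset I) (hN : FinT a N)
    (κ σ : I → ℕ) (hκ : ∀ x ∈ N, 1 ≤ κ x)
    (hadj : ∀ x ∈ N, ∀ y ∈ N, 0 < a x y → κ x = κ y) (hσ : ∀ x ∈ N, Side (κ x) (σ x)) (T : Trm I)
    (h : ∀ x ∈ N, FReg T x (κ x) (σ x))
    (h1 : ∀ x ∈ N, 0 < solN a N (fun i => T.E (i, κ i)) x)
    (y : I) (hy : y ∈ N) (j : I) (hj : T.Λ j = cE a y (κ y)) : TV a T = 0 := by
  obtain ⟨P, hP⟩ := TV_large a hs N hN κ σ hκ hadj hσ T h h1 3 le_rfl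
  refine TV_eq_zero_of_pow a hs T ⟨1, P, le_rfl, fun p hp _ _ => ?_⟩
  obtain ⟨d, _, h2, h3, h4⟩ := hP p hp
  rw [h2]
  refine TV_T0_large a hs _ y (hN.loopfree y hy) (κ y) (σ y) (hκ y hy) (hσ y hy) (h3 y hy) ?_ j ?_
  · have := h4 y hy
    exact_mod_cast this
  · exact hj

/-- effective column: `θ_x` plus the combination of the `θ_y`, `y ∈ N`, which removes all symbols `(y,k)`, `y ∈ N`. -/
noncomputable def thE (a : I → I → ℕ) (N : Finset I) (k : ℕ) (x : I) : QE I :=
  cE a x k + ∑ y ∈ N, solN a N (fun i => (a i x : ℚ)) y • cE a y k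

private theorem AE6_thE_apply (a : I → I → ℕ) (N : Finset I) (k : ℕ) (x i : I) (l : ℕ) :
    thE a N k x (i, l) = if l = k then ((cart a x i : ℤ) : ℚ) +
      ∑ y ∈ N, solN a N (fun i => (a i x : ℚ)) y * ((cart a y i : ℤ) : ℚ) else 0 := by
  unfold thE
  rw [Finsupp.add_apply, Finsupp.finset_sum_apply, cE_apply]
  by_cases hl : l = k
  · rw [if_pos hl, if_pos hl]
    congr 1
    refine Finset.sum_congr rfl fun y _ => ?_
    rw [Finsupp.smul_apply, cE_apply, if_pos hl, smul_eq_mul]
  · rw [if_neg hl, if_neg hl, zero_add]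
    refine Finset.sum_eq_zero fun y _ => ?_
    rw [Finsupp.smul_apply, cE_apply, if_neg hl, smul_zero]

private theorem AE6_cart_symm {a : I → I → ℕ} (hs : ∀ i j, a i j = a j i) (i j : I) :
    cart a i j = cart a j i := by
  unfold cart
  rw [hs i j]
  by_cases h : i = j
  · rw [if_pos h, if_pos h.symm]
  · rw [if_neg h, if_neg (fun h' => h h'.symm)]

private theorem AE6_cart_ne (a : I → I → ℕ) {i j : I} (h : i ≠ j) :
    cart a i j = -(a i j : ℤ) := by
  unfold cart
  rw [if_neg h]
  ring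

theorem thE_apply_mem {a : I → I → ℕ} (hs : ∀ i j, a i j = a j i) {N : Finset I} (hN : FinT a N)
    (k : ℕ) (x y : I) (hx : x ∉ N) (hy : y ∈ N) (l : ℕ) : thE a N k x (y, l) = 0 := by
  rw [AE6_thE_apply]
  by_cases hl : l = k
  · rw [if_pos hl]
    have h1 := solN_spec hs hN (fun i => (a i x : ℚ)) y hy
    unfold cqN at h1
    have h2 : ∑ z ∈ N, solN a N (fun i => (a i x : ℚ)) z * ((cart a z y : ℤ) : ℚ) =
        ∑ z ∈ N, ((cart a y z : ℤ) : ℚ) * solN a N (fun i => (a i x : ℚ)) z := by
      refine Finset.sum_congr rfl fun z _ => ?_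
      rw [AE6_cart_symm hs z y, mul_comm]
    rw [h2, h1, AE6_cart_ne a (fun h => hx (h ▸ hy) : x ≠ y), hs x y]
    push_cast
    ring
  · rw [if_neg hl]

/-- the effective Cartan matrix `C_ix - a_iN C_N^{-1} a_Nx`. -/
noncomputable def cEff (a : I → I → ℕ) (N : Finset I) (i x : I) : ℚ :=
  (cart a i x : ℚ) - ∑ y ∈ N, (a i y : ℚ) * solN a N (fun l => (a l x : ℚ)) y

theorem thE_apply {a : I → I → ℕ} (hs : ∀ i j, a i j = a j i) {N : Finset I} (hN : FinT a N)
    (k : ℕ) (x i : I) (hx : x ∉ N) (hi : i ∉ N) (l : ℕ) :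
    thE a N k x (i, l) = if l = k then cEff a N i x else 0 := by
  rw [AE6_thE_apply]
  by_cases hl : l = k
  · rw [if_pos hl, if_pos hl]
    unfold cEff
    rw [AE6_cart_symm hs x i, sub_eq_add_neg, ← Finset.sum_neg_distrib]
    congr 1
    refine Finset.sum_congr rfl fun y hy => ?_
    rw [AE6_cart_ne a (fun h => hi (h ▸ hy) : y ≠ i), hs y i]
    push_cast
    ring
  · rw [if_neg hl, if_neg hl]

private theorem AE6_thE_lev (a : I → I → ℕ) (N : Finset I) (k : ℕ) (x i : I) (l : ℕ)
    (h : thE a N k x (i, l) ≠ 0) : l = k := by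
  by_contra hc
  apply h
  rw [AE6_thE_apply, if_neg hc]

private theorem AE6_cE_lev (a : I → I → ℕ) (k : ℕ) (x i : I) (l : ℕ)
    (h : cE a x k (i, l) ≠ 0) : l = k := by
  by_contra hc
  apply h
  rw [cE_apply, if_neg hc]

/-- replacement of `θ_x` by the effective column in several columns at once. -/
theorem TV_thE (a : I → I → ℕ) (hs : ∀ i j, a i j = a j i) (N : Finset I) (hN : FinT a N)
    (k : ℕ) (hk : 1 ≤ k) (σ : I → ℕ) (hσ : ∀ x ∈ N, Side k (σ x)) (M : Finset I)
    (hMN : Disjoint M N) (T : Trm I) (h : ∀ x ∈ N, FReg T x k (σ x))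
    (h1 : ∀ x ∈ N, 0 < solN a N (fun i => T.E (i, k)) x)
    (hM : ∀ x ∈ M, T.Λ x = cE a x k) :
    TV a T = TV a (T.cols M (fun x => thE a N k x)) := by
  clear hMN
  induction M using Finset.induction_on with
  | empty =>
    congr 1
  | insert x S hxS ih =>
    have ih' := ih fun z hz => hM z (Finset.mem_insert_of_mem hz)
    rw [ih']
    set T' : Trm I := T.cols S (fun x => thE a N k x) with hT'
    have hΛx : T'.Λ x = cE a x k := by
      have : T'.Λ x = T.Λ x := if_neg hxS
      rw [this]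
      exact hM x (Finset.mem_insert_self _ _)
    have e1 : T.cols (insert x S) (fun x => thE a N k x) = T'.col x (thE a N k x) := by
      ext1
      · rfl
      · rfl
      · funext i
        change (if i ∈ insert x S then thE a N k i else T.Λ i) =
          Function.update T'.Λ x (thE a N k x) i
        by_cases hix : i = x
        · subst hix
          rw [Function.update_self, if_pos (Finset.mem_insert_self _ _)]
        · rw [Function.update_of_ne hix]
          change _ = (if i ∈ S then thE a N k i else T.Λ i)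
          by_cases hiS : i ∈ S
          · rw [if_pos (Finset.mem_insert_of_mem hiS), if_pos hiS]
          · rw [if_neg (fun h => by
              rcases Finset.mem_insert.1 h with h | h
              · exact hix h
              · exact hiS h), if_neg hiS]
    rw [e1]
    have e2 : TV a (T'.col x (thE a N k x)) = TV a T' +
        ∑ y ∈ N, solN a N (fun i => (a i x : ℚ)) y * TV a (T'.col x (cE a y k)) := by
      have h2 : thE a N k x = cE a x k + ∑ y ∈ N, solN a N (fun i => (a i x : ℚ)) y • cE a y k :=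
        rfl
      rw [h2, TV_col_add, TV_col_sum]
      congr 1
      · rw [← hΛx]
        exact TV_col_self a T' x
      · exact Finset.sum_congr rfl fun y _ => TV_col_smul a T' x _ _
    rw [e2]
    have e3 : ∀ y ∈ N, TV a (T'.col x (cE a y k)) = 0 := by
      intro y hy
      refine TV_T0 a hs N hN (fun _ => k) σ (fun _ _ => hk) (fun _ _ _ _ _ => rfl) hσ _ ?_ ?_ y hy
        x ?_
      · intro z hz
        refine ⟨(h z hz).nat, (h z hz).int, ?_⟩
        intro i l hl hne
        by_cases hix : i = x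
        · subst hix
          have h3 : (T'.col i (cE a y k)).Λ i = cE a y k := Function.update_self _ _ _
          rw [h3] at hne
          exact Or.inr (Or.inl (AE6_cE_lev a k y z l hne))
        · have h3 : (T'.col x (cE a y k)).Λ i = if i ∈ S then thE a N k i else T.Λ i :=
            Function.update_of_ne hix _ _
          rw [h3] at hne
          by_cases hiS : i ∈ S
          · rw [if_pos hiS] at hne
            exact Or.inr (Or.inl (AE6_thE_lev a N k i z l hne))
          · rw [if_neg hiS] at hne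
            exact (h z hz).col i l hl hne
      · exact h1
      · exact Function.update_self _ _ _
    rw [Finset.sum_eq_zero fun y hy => by rw [e3 y hy, mul_zero], add_zero]

end

end Pool.Agent.H27.KAC

end

section

/-!
KAC ADE, module AE7: one step expansion.

`TV (tauT R k q T)`: expand the columns `(x,k+1)`, `x ∈ R`, one after the other with `TV_expD`.  In the term where column `x` is
`2 (x,k) - (x,k-1)` the part `2 (x,k)` has value zero by `TV_van` in direction `x` (the exponent of `(x,k)` is `≥ 1` because of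
`QOk`, the other columns are regular or compensated: the columns `θ_y` of the neighbours contain `(x,k)` only).
-/

set_option autoImplicit false

namespace Pool.Agent.H27.KAC

open scoped BigOperators

section

variable {I : Type} [Fintype I] [DecidableEq I]

/-- the coordinates of `cE`. -/
private theorem AE7_cE_apply (a : I → I → ℕ) (y : I) (k : ℕ) (i : I) (l : ℕ) :
    cE a y k (i, l) = if l = k then ((cart a y i : ℤ) : ℚ) else 0 := by
  unfold cE
  rw [Finsupp.finsetSum_apply]
  simp only [Finsupp.smul_apply, Finsupp.single_apply, Prod.mk.injEq, smul_eq_mul]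
  by_cases h : l = k
  · subst h
    simp
  · have h' : k ≠ l := fun e => h e.symm
    simp [h, h']

/-- the partially expanded term. -/
private noncomputable def AE7_P (a : I → I → ℕ) (R : Finset I) (k : ℕ) (q : I → ℚ) (T : Trm I)
    (S : Finset I) (m : I → ℕ) : Trm I :=
  (T.eta a k (fun i => (if i ∈ S then (m i : ℚ) else 0) - resQ R q i)).cols R
    (fun x => if x ∈ S then (if m x = 0 then sy x (k - 1) else cE a x k) else sy x (k + 1))

private theorem AE7_P_E (a : I → I → ℕ) (R : Finset I) (k : ℕ) (q : I → ℚ) (T : Trm I)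
    (S : Finset I) (m : I → ℕ) (i : I) (l : ℕ) :
    (AE7_P a R k q T S m).E (i, l) = T.E (i, l) -
      ∑ y, ((if y ∈ S then (m y : ℚ) else 0) - resQ R q y) *
        (if l = k then ((cart a y i : ℤ) : ℚ) else 0) := by
  show (T.E - ∑ x, ((if x ∈ S then (m x : ℚ) else 0) - resQ R q x) • cE a x k) (i, l) = _
  rw [Finsupp.sub_apply, Finsupp.finsetSum_apply]
  simp only [Finsupp.smul_apply, smul_eq_mul, AE7_cE_apply]

private theorem AE7_P_E_ne (a : I → I → ℕ) (R : Finset I) (k : ℕ) (q : I → ℚ) (T : Trm I)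
    (S : Finset I) (m : I → ℕ) (i : I) (l : ℕ) (hl : l ≠ k) :
    (AE7_P a R k q T S m).E (i, l) = T.E (i, l) := by
  rw [AE7_P_E]
  simp [hl]

/-- the exponent of `(x,k)` is a positive natural number. -/
private theorem AE7_P_E_k (a : I → I → ℕ) (hs : ∀ i j, a i j = a j i) (R : Finset I) (k : ℕ)
    (hk : 1 ≤ k) (q : I → ℚ) (hq : QOk a R q) (T : Trm I) (hT : RReg R T)
    (S : Finset I) (m : I → ℕ) (x : I) (hx : x ∈ R) (hxS : x ∉ S) :
    ∃ n : ℕ, 1 ≤ n ∧ (AE7_P a R k q T S m).E (x, k) = n := by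
  obtain ⟨n0, hn0⟩ := hT.nat x hx k hk
  obtain ⟨n1, hn1, hn1'⟩ := hq x hx
  refine ⟨n0 + n1 + ∑ y ∈ S, m y * a x y, by omega, ?_⟩
  rw [AE7_P_E, hn0]
  have h1 : ∑ y, ((if y ∈ S then (m y : ℚ) else 0) - resQ R q y) *
      (if k = k then ((cart a y x : ℤ) : ℚ) else 0) =
      (∑ y ∈ S, (m y : ℚ) * ((cart a x y : ℤ) : ℚ)) - cqN a R q x := by
    simp only [if_true, sub_mul, Finset.sum_sub_distrib]
    congr 1
    · simp only [ite_mul, zero_mul]
      rw [Finset.sum_ite_mem, Finset.univ_inter]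
      refine Finset.sum_congr rfl fun y _ => ?_
      congr 2
      unfold cart
      rw [hs y x]
      by_cases h : y = x
      · subst h; simp
      · rw [if_neg h, if_neg (fun e => h e.symm)]
    · unfold resQ cqN
      simp only [ite_mul, zero_mul]
      rw [Finset.sum_ite_mem, Finset.univ_inter]
      refine Finset.sum_congr rfl fun y _ => ?_
      rw [mul_comm]
      congr 2
      unfold cart
      rw [hs y x]
      by_cases h : y = x
      · subst h; simp
      · rw [if_neg h, if_neg (fun e => h e.symm)]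
  rw [h1, hn1']
  have h2 : ∑ y ∈ S, (m y : ℚ) * ((cart a x y : ℤ) : ℚ) = -∑ y ∈ S, (m y : ℚ) * (a x y : ℚ) := by
    rw [← Finset.sum_neg_distrib]
    refine Finset.sum_congr rfl fun y hy => ?_
    have hxy : x ≠ y := fun e => hxS (e ▸ hy)
    unfold cart
    rw [if_neg hxy]
    push_cast
    ring
  rw [h2]
  push_cast
  ring

/-- the `X`-exponent at `x`. -/
private theorem AE7_P_γ (a : I → I → ℕ) (R : Finset I) (k : ℕ) (q : I → ℚ) (T : Trm I)
    (S : Finset I) (m : I → ℕ) (x : I) (hx : x ∈ R) (hxS : x ∉ S) :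
    (AE7_P a R k q T S m).γ x = T.γ x + k * q x := by
  show T.γ x - k * ((if x ∈ S then (m x : ℚ) else 0) - resQ R q x) = _
  unfold resQ
  rw [if_neg hxS, if_pos hx]
  ring

private theorem AE7_P_Λ (a : I → I → ℕ) (R : Finset I) (k : ℕ) (q : I → ℚ) (T : Trm I)
    (S : Finset I) (m : I → ℕ) (j : I) :
    (AE7_P a R k q T S m).Λ j = if j ∈ R then
      (if j ∈ S then (if m j = 0 then sy j (k - 1) else cE a j k) else sy j (k + 1)) else T.Λ j :=
  rfl

/-- the part with the column `(x,k)` vanishes. -/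
private theorem AE7_P_van (a : I → I → ℕ) (hs : ∀ i j, a i j = a j i) (R : Finset I)
    (hR : FinT a R) (k : ℕ) (hk : 1 ≤ k) (q : I → ℚ) (hq : QOk a R q) (T : Trm I)
    (hT : RReg R T) (S : Finset I) (m : I → ℕ) (x : I) (hx : x ∈ R) (hxS : x ∉ S) :
    TV a ((AE7_P a R k q T S m).col x (sy x k)) = 0 := by
  obtain ⟨n, hn1, hn⟩ := AE7_P_E_k a hs R k hk q hq T hT S m x hx hxS
  have hE : ((AE7_P a R k q T S m).col x (sy x k)).E = (AE7_P a R k q T S m).E := rfl
  refine TV_van a hs _ x (hR.loopfree x hx) ⟨fun l hl => ?_, fun j l hl hΛ => ?_⟩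
  · rw [hE]
    by_cases h : l = k
    · subst h; exact ⟨n, hn⟩
    · rw [AE7_P_E_ne a R k q T S m x l h]
      exact hT.nat x hx l hl
  · rw [hE]
    by_cases h : l = k
    · subst h
      rw [hn]
      exact_mod_cast hn1
    · rw [AE7_P_E_ne a R k q T S m x l h]
      have hΛ' : ((AE7_P a R k q T S m).col x (sy x k)).Λ j =
          if j = x then sy x k else (AE7_P a R k q T S m).Λ j := by
        show Function.update (AE7_P a R k q T S m).Λ x (sy x k) j = _
        rw [Function.update_apply]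
      rw [hΛ'] at hΛ
      by_cases hj : j = x
      · rw [if_pos hj] at hΛ
        exfalso
        apply hΛ
        rw [Finsupp.single_apply, if_neg]
        intro e
        exact h (Prod.mk.inj e).2.symm
      · rw [if_neg hj, AE7_P_Λ] at hΛ
        by_cases hjR : j ∈ R
        · exfalso
          apply hΛ
          rw [if_pos hjR]
          split_ifs
          · rw [Finsupp.single_apply, if_neg]
            intro e
            exact hj (Prod.mk.inj e).1
          · rw [AE7_cE_apply, if_neg h]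
          · rw [Finsupp.single_apply, if_neg]
            intro e
            exact hj (Prod.mk.inj e).1
        · rw [if_neg hjR] at hΛ
          exact hT.col x hx j hjR l hl hΛ

private theorem AE7_trm_ext {T T' : Trm I} (h1 : T.γ = T'.γ) (h2 : T.E = T'.E)
    (h3 : T.Λ = T'.Λ) : T = T' := by
  cases T; cases T'; simp only at h1 h2 h3; subst h1 h2 h3; rfl

/-- column `x` of `P` with `x ∉ S` replaced by `(x,k-1)`. -/
private theorem AE7_P_col0 (a : I → I → ℕ) (R : Finset I) (k : ℕ) (q : I → ℚ) (T : Trm I)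
    (S : Finset I) (m : I → ℕ) (x : I) (hx : x ∈ R) (hxS : x ∉ S) :
    (AE7_P a R k q T S m).col x (sy x (k - 1)) =
      AE7_P a R k q T (insert x S) (Function.update m x 0) := by
  have hδ : (fun i => (if i ∈ insert x S then ((Function.update m x 0 i : ℕ) : ℚ) else 0) -
      resQ R q i) = fun i => (if i ∈ S then (m i : ℚ) else 0) - resQ R q i := by
    funext i
    by_cases hi : i = x
    · subst hi
      simp [hxS]
    · simp [Finset.mem_insert, hi]
  apply AE7_trm_ext
  · show (T.eta a k _).γ = (T.eta a k _).γ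
    rw [hδ]
  · show (T.eta a k _).E = (T.eta a k _).E
    rw [hδ]
  · funext j
    show Function.update (AE7_P a R k q T S m).Λ x (sy x (k - 1)) j = _
    rw [Function.update_apply, AE7_P_Λ, AE7_P_Λ]
    by_cases hj : j = x
    · subst hj
      simp [hx]
    · simp [hj, Finset.mem_insert]

/-- column `x` of `P` with `x ∉ S` replaced by `θ_x`, and multiplied with `η^n`. -/
private theorem AE7_P_col1 (a : I → I → ℕ) (R : Finset I) (k : ℕ) (q : I → ℚ) (T : Trm I)
    (S : Finset I) (m : I → ℕ) (x : I) (hx : x ∈ R) (hxS : x ∉ S) (n : ℕ) (hn : 1 ≤ n) :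
    ((AE7_P a R k q T S m).eta a k (Pi.single x (n : ℚ))).col x (cE a x k) =
      AE7_P a R k q T (insert x S) (Function.update m x n) := by
  have hδ : ∀ i, (if i ∈ insert x S then ((Function.update m x n i : ℕ) : ℚ) else 0) -
      resQ R q i = ((if i ∈ S then (m i : ℚ) else 0) - resQ R q i) + (Pi.single x (n : ℚ) : I → ℚ) i := by
    intro i
    by_cases hi : i = x
    · subst hi
      simp [hxS]
      ring
    · simp [Finset.mem_insert, hi]
  apply AE7_trm_ext
  · funext i
    show T.γ i - k * ((if i ∈ S then (m i : ℚ) else 0) - resQ R q i) - k * (Pi.single x (n : ℚ) : I → ℚ) i =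
      T.γ i - k * ((if i ∈ insert x S then ((Function.update m x n i : ℕ) : ℚ) else 0) -
        resQ R q i)
    rw [hδ]
    ring
  · show T.E - ∑ y, ((if y ∈ S then (m y : ℚ) else 0) - resQ R q y) • cE a y k -
        ∑ y, (Pi.single x (n : ℚ) : I → ℚ) y • cE a y k =
      T.E - ∑ y, ((if y ∈ insert x S then ((Function.update m x n y : ℕ) : ℚ) else 0) -
        resQ R q y) • cE a y k
    simp only [hδ, add_smul, Finset.sum_add_distrib]
    rw [sub_sub]
  · funext j
    show Function.update (AE7_P a R k q T S m).Λ x (cE a x k) j = _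
    rw [Function.update_apply, AE7_P_Λ a R k q T (insert x S)]
    by_cases hj : j = x
    · subst hj
      have : n ≠ 0 := by omega
      simp [hx, this]
    · rw [if_neg hj]
      show (AE7_P a R k q T S m).Λ j = _
      rw [AE7_P_Λ]
      simp [hj, Finset.mem_insert]

/-- expansion of one column. -/
private theorem AE7_one (a : I → I → ℕ) (hs : ∀ i j, a i j = a j i) (R : Finset I)
    (hR : FinT a R) (k : ℕ) (hk : 1 ≤ k) (q : I → ℚ) (hq : QOk a R q) (T : Trm I)
    (hT : RReg R T) (B : ℕ) (hB : bnd R k q T ≤ B) (S : Finset I) (m : I → ℕ) (x : I)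
    (hx : x ∈ R) (hxS : x ∉ S) :
    TV a (AE7_P a R k q T S m) =
      -TV a (AE7_P a R k q T (insert x S) (Function.update m x 0)) +
        ∑ n ∈ Finset.Icc 1 B, TV a (AE7_P a R k q T (insert x S) (Function.update m x n)) := by
  have hfl : ⌊(AE7_P a R k q T S m).γ x⌋₊ ≤ B := by
    rw [AE7_P_γ a R k q T S m x hx hxS]
    refine le_trans ?_ hB
    unfold bnd
    exact Finset.single_le_sum (f := fun i => ⌊T.γ i + k * q i⌋₊) (fun i _ => Nat.zero_le _) hx
  have hcol : (AE7_P a R k q T S m).col x (sy x (k + 1)) = AE7_P a R k q T S m := by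
    apply AE7_trm_ext
    · rfl
    · rfl
    · funext j
      show Function.update (AE7_P a R k q T S m).Λ x (sy x (k + 1)) j = _
      rw [Function.update_apply]
      by_cases hj : j = x
      · subst hj
        rw [if_pos rfl, AE7_P_Λ, if_pos hx, if_neg hxS]
      · rw [if_neg hj]
  have h1 := TV_expD a hs (AE7_P a R k q T S m) x x k hk B hfl
  rw [hcol] at h1
  rw [h1]
  congr 1
  · have h2 : ((2 : ℚ) • sy x k - sy x (k - 1) : QE I) =
        (2 : ℚ) • sy x k + (-1 : ℚ) • sy x (k - 1) := by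
      rw [neg_one_smul, sub_eq_add_neg]
    rw [h2, TV_col_add, TV_col_smul, TV_col_smul, AE7_P_van a hs R hR k hk q hq T hT S m x hx hxS,
      AE7_P_col0 a R k q T S m x hx hxS]
    ring
  · refine Finset.sum_congr rfl fun n hn => ?_
    rw [AE7_P_col1 a R k q T S m x hx hxS n (Finset.mem_Icc.mp hn).1]

private theorem AE7_mbox_insert (S : Finset I) (x : I) (hxS : x ∉ S) (B : ℕ)
    (f : (I → ℕ) → ℚ) :
    ∑ m ∈ mbox (insert x S) B, f m =
      ∑ m ∈ mbox S B, ∑ n ∈ Finset.range (B + 1), f (Function.update m x n) := by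
  rw [← Finset.sum_product']
  refine Finset.sum_nbij' (fun m => (Function.update m x 0, m x))
    (fun p => Function.update p.1 x p.2) ?_ ?_ ?_ ?_ ?_
  · intro m hm
    have hm' := Fintype.mem_piFinset.mp hm
    rw [Finset.mem_product]
    constructor
    · refine Fintype.mem_piFinset.mpr fun i => ?_
      have := hm' i
      by_cases hi : i = x
      · subst hi
        simp [hxS]
      · simpa [hi, Finset.mem_insert] using this
    · have := hm' x
      simpa using this
  · rintro ⟨m, n⟩ hp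
    rw [Finset.mem_product] at hp
    have hm' := Fintype.mem_piFinset.mp hp.1
    refine Fintype.mem_piFinset.mpr fun i => ?_
    have := hm' i
    by_cases hi : i = x
    · subst hi
      simpa using hp.2
    · simpa [hi, Finset.mem_insert] using this
  · intro m _
    funext i
    by_cases hi : i = x
    · subst hi; simp
    · simp [hi]
  · rintro ⟨m, n⟩ hp
    rw [Finset.mem_product] at hp
    have hm' := Fintype.mem_piFinset.mp hp.1 x
    rw [if_neg hxS, Finset.mem_singleton] at hm'
    simp only at hm' ⊢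
    refine Prod.ext ?_ ?_
    · funext i
      by_cases hi : i = x
      · subst hi; simp [hm']
      · simp [hi]
    · simp
  · intro m _
    simp

private theorem AE7_sgm (S : Finset I) (x : I) (hxS : x ∉ S) (m : I → ℕ) (n : ℕ) :
    sgm (insert x S) (Function.update m x n) = (if n = 0 then -1 else 1) * sgm S m := by
  unfold sgm
  have hS : S.filter (fun y => Function.update m x n y = 0) = S.filter (fun y => m y = 0) := by
    refine Finset.filter_congr fun y hy => ?_
    have : y ≠ x := fun e => hxS (e ▸ hy)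
    rw [Function.update_of_ne this]
  rw [Finset.filter_insert, hS, Function.update_self]
  by_cases hn : n = 0
  · rw [if_pos hn, if_pos hn, Finset.card_insert_of_notMem (fun h => hxS (Finset.mem_filter.mp h).1),
      pow_succ]
    ring
  · rw [if_neg hn, if_neg hn, one_mul]

private theorem AE7_all (a : I → I → ℕ) (hs : ∀ i j, a i j = a j i) (R : Finset I)
    (hR : FinT a R) (k : ℕ) (hk : 1 ≤ k) (q : I → ℚ) (hq : QOk a R q) (T : Trm I)
    (hT : RReg R T) (B : ℕ) (hB : bnd R k q T ≤ B) (S : Finset I) (hS : S ⊆ R) :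
    TV a (tauT a R k q T) = ∑ m ∈ mbox S B, sgm S m * TV a (AE7_P a R k q T S m) := by
  induction S using Finset.induction_on with
  | empty =>
    have h0 : mbox (∅ : Finset I) B = {0} := by
      ext m
      unfold mbox
      rw [Fintype.mem_piFinset]
      simp only [Finset.notMem_empty, if_false, Finset.mem_singleton]
      constructor
      · intro h; funext i; exact h i
      · intro h i; rw [h]; rfl
    rw [h0, Finset.sum_singleton]
    have h1 : AE7_P a R k q T ∅ 0 = tauT a R k q T := by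
      unfold AE7_P tauT blkT
      simp only [Finset.notMem_empty, if_false, zero_sub]
    rw [h1]
    simp [sgm]
  | insert x S hxS ih =>
    have hx : x ∈ R := hS (Finset.mem_insert_self x S)
    rw [ih (fun y hy => hS (Finset.mem_insert_of_mem hy)), AE7_mbox_insert S x hxS B]
    refine Finset.sum_congr rfl fun m _ => ?_
    rw [AE7_one a hs R hR k hk q hq T hT B hB S m x hx hxS]
    have hr : Finset.range (B + 1) = insert 0 (Finset.Icc 1 B) := by
      ext n
      simp only [Finset.mem_range, Finset.mem_insert, Finset.mem_Icc]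
      omega
    rw [hr, Finset.sum_insert (by simp), AE7_sgm S x hxS m 0, if_pos rfl, mul_add, Finset.mul_sum]
    congr 1
    · ring
    · refine Finset.sum_congr rfl fun n hn => ?_
      have hn' : n ≠ 0 := by
        have := (Finset.mem_Icc.mp hn).1
        omega
      rw [AE7_sgm S x hxS m n, if_neg hn', one_mul]

private theorem AE7_raw (a : I → I → ℕ) (R : Finset I) (k : ℕ) (q : I → ℚ) (m : I → ℕ)
    (T : Trm I) : AE7_P a R k q T R m = rawT a R k q m T := by
  have hδ : (fun i => (if i ∈ R then (m i : ℚ) else 0) - resQ R q i) =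
      fun i => if i ∈ R then (m i : ℚ) - q i else 0 := by
    funext i
    unfold resQ
    by_cases hi : i ∈ R
    · simp [hi]
    · simp [hi]
  apply AE7_trm_ext
  · show (T.eta a k _).γ = (T.eta a k _).γ
    rw [hδ]
  · show (T.eta a k _).E = (T.eta a k _).E
    rw [hδ]
  · funext j
    rw [AE7_P_Λ]
    show _ = if j ∈ R then (if m j = 0 then sy j (k - 1) else cE a j k) else T.Λ j
    by_cases hj : j ∈ R
    · simp [hj]
    · simp [hj]

theorem rawT_zero_of_large (a : I → I → ℕ) (R : Finset I) (k : ℕ) (hk : 1 ≤ k) (q : I → ℚ)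
    (m : I → ℕ) (T : Trm I) (x : I) (hx : x ∈ R) (h : bnd R k q T < m x) :
    TV a (rawT a R k q m T) = 0 := by
  refine TV_neg a _ x ?_
  show T.γ x - k * (if x ∈ R then (m x : ℚ) - q x else 0) < 0
  rw [if_pos hx]
  have h1 : ⌊T.γ x + k * q x⌋₊ < m x := by
    refine lt_of_le_of_lt ?_ h
    unfold bnd
    exact Finset.single_le_sum (f := fun i => ⌊T.γ i + k * q i⌋₊) (fun i _ => Nat.zero_le _) hx
  have h2 : T.γ x + k * q x < m x := Nat.lt_of_floor_lt h1
  have h3 : (1 : ℚ) ≤ k := by exact_mod_cast hk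
  have h4 : (0 : ℚ) ≤ m x := Nat.cast_nonneg _
  nlinarith

/-- the sum does not depend on the bound. -/
theorem sum_raw_bound (a : I → I → ℕ) (R : Finset I) (k : ℕ) (hk : 1 ≤ k) (q : I → ℚ) (T : Trm I)
    (p : (I → ℕ) → Prop) [DecidablePred p] (B : ℕ) (hB : bnd R k q T ≤ B) :
    ∑ m ∈ (mbox R B).filter p, sgm R m * TV a (rawT a R k q m T) =
      ∑ m ∈ (mbox R (bnd R k q T)).filter p, sgm R m * TV a (rawT a R k q m T) := by
  symm
  refine Finset.sum_subset ?_ ?_
  · intro m hm
    rw [Finset.mem_filter] at hm ⊢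
    refine ⟨?_, hm.2⟩
    refine Fintype.mem_piFinset.mpr fun i => ?_
    have := Fintype.mem_piFinset.mp hm.1 i
    by_cases hi : i ∈ R
    · rw [if_pos hi, Finset.mem_range] at this ⊢
      omega
    · rwa [if_neg hi] at this ⊢
  · intro m hm hm'
    rw [Finset.mem_filter] at hm
    have h1 : m ∉ mbox R (bnd R k q T) := fun h => hm' (Finset.mem_filter.mpr ⟨h, hm.2⟩)
    have h2 : ∃ x ∈ R, bnd R k q T < m x := by
      by_contra hcon
      push Not at hcon
      apply h1
      refine Fintype.mem_piFinset.mpr fun i => ?_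
      have := Fintype.mem_piFinset.mp hm.1 i
      by_cases hi : i ∈ R
      · rw [if_pos hi, Finset.mem_range]
        have := hcon i hi
        omega
      · rwa [if_neg hi] at this ⊢
    obtain ⟨x, hx, hlt⟩ := h2
    rw [rawT_zero_of_large a R k hk q m T x hx hlt, mul_zero]

theorem TV_step (a : I → I → ℕ) (hs : ∀ i j, a i j = a j i) (R : Finset I) (hR : FinT a R)
    (k : ℕ) (hk : 1 ≤ k) (q : I → ℚ) (hq : QOk a R q) (T : Trm I) (hT : RReg R T) (B : ℕ)
    (hB : bnd R k q T ≤ B) :
    TV a (tauT a R k q T) = ∑ m ∈ mbox R B, sgm R m * TV a (rawT a R k q m T) := by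
  rw [AE7_all a hs R hR k hk q hq T hT B hB R (Finset.Subset.refl R)]
  refine Finset.sum_congr rfl fun m _ => ?_
  rw [AE7_raw]

theorem TV_step_split (a : I → I → ℕ) (hs : ∀ i j, a i j = a j i) (R : Finset I) (hR : FinT a R)
    (k : ℕ) (hk : 1 ≤ k) (q : I → ℚ) (hq : QOk a R q) (T : Trm I) (hT : RReg R T) :
    TV a (tauT a R k q T) = Rv a R k q T + PPv a R k q T := by
  classical
  rw [TV_step a hs R hR k hk q hq T hT (bnd R k q T) le_rfl]
  unfold Rv PPv
  rw [← Finset.sum_filter_add_sum_filter_not (mbox R (bnd R k q T)) (fun m => Plat R q m), add_comm]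

end

end Pool.Agent.H27.KAC

end

section

/-!
KAC ADE, module AE8: vanishing of raw terms.

Notation: `M = {x ∈ R : m x ≠ 0}`, `N = R ∖ M`, `δ = m - q` on `M`, `δ_N = C_N^{-1} a_NM δ_M`.  The raw term has on `N` the
exponents `ν = E_T(·,k) + C_R q + a_NM m` (on `N`), so `solN ν = q + δ + solN (E_T)`; the effective exponent of `s ∈ M` at level `k` is
`E_T(s,k) + a_sN solN(E_T) - (C_R δ)_s`.

* `raw_sign`: if the value is not zero, then `(C_R δ)_s ≥ E_T(s,k) + a_sN solN(E_T)` for all `s ∈ M`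
  (`TV_Z` in direction `s`, `N` at level `k` with side `k - 1`; the exponents at the other levels are natural, the columns
  `(s,l)`, `l ≠ k`, are compensated).
* `raw_pos`: if `R` is connected, `m` is not a plateau and the value is not zero, then `δ_x > 0` for all `x ∈ M`
  (`C_R δ ≥ 0` on `R`, not zero: `FinT.pos_of_conn`).
* `plat_kink`: if `R` is connected, `T` has a kink at level `k` in `R`, `m` is a plateau and `M ≠ ∅`, then the value is zero: some
  `s ∈ M` has positive effective exponent.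
-/

set_option autoImplicit false

namespace Pool.Agent.H27.KAC

open scoped BigOperators

section

variable {I : Type} [Fintype I] [DecidableEq I]

theorem AE8_cart_comm {a : I → I → ℕ} (hs : ∀ i j, a i j = a j i) (i j : I) :
    cart a i j = cart a j i := by
  unfold cart
  rw [hs i j]
  by_cases h : i = j
  · rw [if_pos h, if_pos h.symm]
  · rw [if_neg h, if_neg (fun h' => h h'.symm)]

theorem AE8_cart_ne (a : I → I → ℕ) {i j : I} (h : i ≠ j) : ((cart a i j : ℤ) : ℚ) = -(a i j : ℚ) := by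
  unfold cart
  rw [if_neg h]
  push_cast
  ring

/-- exponents of a raw term. -/
theorem AE8_rawE (a : I → I → ℕ) (hs : ∀ i j, a i j = a j i) (R : Finset I) (k : ℕ) (q : I → ℚ)
    (m : I → ℕ) (T : Trm I) (i : I) (l : ℕ) :
    (rawT a R k q m T).E (i, l) =
      T.E (i, l) - (if l = k then cqN a R (fun x => (m x : ℚ) - q x) i else 0) := by
  have h1 : (rawT a R k q m T).E =
      (T.eta a k (fun i => if i ∈ R then (m i : ℚ) - q i else 0)).E := rfl
  rw [h1, eta_eq_etaM, etaM_E]
  congr 1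
  by_cases h : l = k
  · rw [if_pos h]
    subst h
    rw [Finset.filter_true_of_mem (fun _ _ => rfl)]
    unfold cqN
    simp only [ite_mul, zero_mul]
    rw [← Finset.sum_filter, Finset.filter_mem_eq_inter, Finset.univ_inter]
    refine Finset.sum_congr rfl fun x _ => ?_
    rw [AE8_cart_comm hs x i, mul_comm]
  · rw [if_neg h, Finset.filter_false_of_mem (fun _ _ => fun h' => h h'.symm), Finset.sum_empty]

theorem AE8_cE_ne (a : I → I → ℕ) (x i : I) {k l : ℕ} (h : l ≠ k) : cE a x k (i, l) = 0 := by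
  unfold cE
  rw [Finsupp.finsetSum_apply]
  refine Finset.sum_eq_zero fun j _ => ?_
  rw [Finsupp.smul_apply, Finsupp.single_apply, if_neg, smul_zero]
  intro h'
  exact h (Prod.ext_iff.1 h').2.symm

theorem AE8_raw_col (a : I → I → ℕ) (R : Finset I) (k : ℕ) (q : I → ℚ) (m : I → ℕ) (T : Trm I)
    (j : I) : (rawT a R k q m T).Λ j =
      if j ∈ R then (if m j = 0 then sy j (k - 1) else cE a j k) else T.Λ j := rfl

theorem AE8_cqN_int (a : I → I → ℕ) (R : Finset I) (m : I → ℕ) (i : I) :
    cqN a R (fun x => (m x : ℚ)) i = ((∑ x ∈ R, cart a i x * (m x : ℤ) : ℤ) : ℚ) := by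
  unfold cqN
  push_cast
  rfl

theorem AE8_cqN_sub (a : I → I → ℕ) (R : Finset I) (v w : I → ℚ) (i : I) :
    cqN a R (fun x => v x - w x) i = cqN a R v i - cqN a R w i := by
  unfold cqN
  rw [← Finset.sum_sub_distrib]
  exact Finset.sum_congr rfl fun x _ => mul_sub _ _ _

theorem AE8_raw_int (a : I → I → ℕ) (hs : ∀ i j, a i j = a j i) (R : Finset I) (k : ℕ) (q : I → ℚ)
    (hq : QOk a R q) (T : Trm I) (hT : RReg R T) (m : I → ℕ) (x : I) (hx : x ∈ R) (l : ℕ)
    (hl : 1 ≤ l) : IsZ ((rawT a R k q m T).E (x, l)) := by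
  rw [AE8_rawE a hs]
  obtain ⟨n, hn⟩ := hT.nat x hx l hl
  by_cases h : l = k
  · rw [if_pos h, AE8_cqN_sub, AE8_cqN_int]
    obtain ⟨n', -, hn'⟩ := hq x hx
    rw [hn, hn']
    refine ⟨(n : ℤ) - (∑ y ∈ R, cart a x y * (m y : ℤ) - (n' : ℤ)), ?_⟩
    push_cast
    rfl
  · rw [if_neg h, hn]
    exact ⟨(n : ℤ), by push_cast; ring⟩

theorem AE8_FReg (a : I → I → ℕ) (hs : ∀ i j, a i j = a j i) (R : Finset I) (k : ℕ) (hk : 1 ≤ k)
    (q : I → ℚ) (hq : QOk a R q) (T : Trm I) (hT : RReg R T) (m : I → ℕ) (x : I) (hx : x ∈ R) :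
    FReg (rawT a R k q m T) x k (k - 1) := by
  refine ⟨fun l hl hlk => ?_, AE8_raw_int a hs R k q hq T hT m x hx k hk, fun j l hl hne => ?_⟩
  · rw [AE8_rawE a hs, if_neg hlk, sub_zero]
    exact hT.nat x hx l hl
  · by_cases hlk : l = k
    · exact Or.inr (Or.inl hlk)
    · rw [AE8_raw_col] at hne
      by_cases hj : j ∈ R
      · rw [if_pos hj] at hne
        by_cases hm : m j = 0
        · rw [if_pos hm, Finsupp.single_apply] at hne
          left
          by_contra h
          apply hne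
          rw [if_neg]
          intro h'
          exact h (Prod.ext_iff.1 h').2.symm
        · rw [if_neg hm] at hne
          exact absurd (AE8_cE_ne a j x hlk) hne
      · rw [if_neg hj] at hne
        right
        right
        rw [AE8_rawE a hs, if_neg hlk, sub_zero]
        exact hT.col x hx j hj l hl hne

/-- effective exponent of the outer vertex or of a vertex of `M`: general vanishing statement for raw terms in a
direction `s` which is not in `N = {x ∈ R : m x = 0}`. -/
theorem raw_Z (a : I → I → ℕ) (hs : ∀ i j, a i j = a j i) (R : Finset I) (hR : FinT a R)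
    (k : ℕ) (hk : 1 ≤ k) (q : I → ℚ) (hq : QOk a R q) (T : Trm I) (hT : RReg R T)
    (m : I → ℕ) (s : I) (hs1 : s ∈ R) (hs2 : m s ≠ 0)
    (heff : 0 < effE a (R.filter (fun x => m x = 0)) (fun _ => k) (rawT a R k q m T) s k) :
    TV a (rawT a R k q m T) = 0 := by
  refine TV_Z a hs (R.filter (fun x => m x = 0)) (hR.mono (Finset.filter_subset _ _))
    (fun _ => k) (fun _ => k - 1) (fun _ _ => hk) (fun _ _ _ _ _ => rfl)
    (fun _ _ => Or.inr (Nat.sub_add_cancel hk)) _ ?_ s ?_ (hR.loopfree s hs1) ?_ ?_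
  · intro x hx
    exact AE8_FReg a hs R k hk q hq T hT m x (Finset.mem_filter.1 hx).1
  · intro h
    exact hs2 (Finset.mem_filter.1 h).2
  · intro l hl
    exact AE8_raw_int a hs R k q hq T hT m s hs1 l hl
  · intro l hl
    by_cases hlk : l = k
    · left
      rw [hlk]
      exact heff
    · have hE : (rawT a R k q m T).E (s, l) = T.E (s, l) := by
        rw [AE8_rawE a hs, if_neg hlk, sub_zero]
      obtain ⟨n, hn⟩ := hT.nat s hs1 l hl
      by_cases hn0 : n = 0
      · right
        refine ⟨by rw [hE, hn]; exact Nat.cast_nonneg n, fun j => ?_⟩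
        rw [AE8_raw_col]
        by_cases hj : j ∈ R
        · rw [if_pos hj]
          by_cases hm : m j = 0
          · rw [if_pos hm, Finsupp.single_apply, if_neg]
            intro h'
            have h1 : j = s := (Prod.ext_iff.1 h').1
            exact hs2 (h1 ▸ hm)
          · rw [if_neg hm]
            exact AE8_cE_ne a j s hlk
        · rw [if_neg hj]
          by_contra hne
          have h1 := hT.col s hs1 j hj l hl hne
          rw [hn, hn0] at h1
          norm_num at h1
      · left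
        unfold effE
        rw [Finset.filter_false_of_mem (fun _ _ => fun h' => hlk h'.symm), Finset.sum_empty,
          add_zero, hE, hn]
        exact_mod_cast Nat.pos_of_ne_zero hn0

/-- the vector `δ`: `m - q` on `M`, harmonic on `N`. -/
noncomputable def AE8_del (a : I → I → ℕ) (R : Finset I) (q : I → ℚ) (m : I → ℕ) (x : I) : ℚ :=
  if m x = 0 then solN a (R.filter (fun x => m x = 0))
    (fun i => ∑ y ∈ R.filter (fun x => ¬ m x = 0), (a i y : ℚ) * ((m y : ℚ) - q y)) x
  else (m x : ℚ) - q x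

theorem AE8_split (R : Finset I) (m : I → ℕ) (f : I → ℚ) :
    ∑ x ∈ R, f x = ∑ x ∈ R.filter (fun x => m x = 0), f x +
      ∑ x ∈ R.filter (fun x => ¬ m x = 0), f x :=
  (Finset.sum_filter_add_sum_filter_not R (fun x => m x = 0) f).symm

theorem AE8_del_N (a : I → I → ℕ) (hs : ∀ i j, a i j = a j i) (R : Finset I) (hR : FinT a R)
    (q : I → ℚ) (m : I → ℕ) (i : I) (hi : i ∈ R) (hm : m i = 0) :
    cqN a R (AE8_del a R q m) i = 0 := by
  have hN : FinT a (R.filter (fun x => m x = 0)) := hR.mono (Finset.filter_subset _ _)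
  have h1 := solN_spec hs hN
    (fun i => ∑ y ∈ R.filter (fun x => ¬ m x = 0), (a i y : ℚ) * ((m y : ℚ) - q y)) i
    (Finset.mem_filter.2 ⟨hi, hm⟩)
  unfold cqN at h1 ⊢
  rw [AE8_split R m]
  have h2 : ∑ x ∈ R.filter (fun x => m x = 0), ((cart a i x : ℤ) : ℚ) * AE8_del a R q m x =
      ∑ y ∈ R.filter (fun x => ¬ m x = 0), (a i y : ℚ) * ((m y : ℚ) - q y) := by
    rw [← h1]
    refine Finset.sum_congr rfl fun x hx => ?_
    unfold AE8_del
    rw [if_pos (Finset.mem_filter.1 hx).2]
  have h3 : ∑ x ∈ R.filter (fun x => ¬ m x = 0), ((cart a i x : ℤ) : ℚ) * AE8_del a R q m x =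
      -∑ y ∈ R.filter (fun x => ¬ m x = 0), (a i y : ℚ) * ((m y : ℚ) - q y) := by
    rw [← Finset.sum_neg_distrib]
    refine Finset.sum_congr rfl fun x hx => ?_
    have hx2 := (Finset.mem_filter.1 hx).2
    have hix : i ≠ x := fun h => hx2 (h ▸ hm)
    unfold AE8_del
    rw [if_neg hx2, AE8_cart_ne a hix]
    ring
  rw [h2, h3]
  ring

theorem AE8_eff (a : I → I → ℕ) (hs : ∀ i j, a i j = a j i) (R : Finset I) (hR : FinT a R)
    (k : ℕ) (q : I → ℚ) (T : Trm I) (m : I → ℕ) (s : I) (hs2 : m s ≠ 0) :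
    effE a (R.filter (fun x => m x = 0)) (fun _ => k) (rawT a R k q m T) s k =
      T.E (s, k) + ∑ x ∈ R.filter (fun x => m x = 0), (a s x : ℚ) *
        solN a (R.filter (fun x => m x = 0)) (fun i => T.E (i, k)) x -
      cqN a R (AE8_del a R q m) s := by
  have hN : FinT a (R.filter (fun x => m x = 0)) := hR.mono (Finset.filter_subset _ _)
  set N := R.filter (fun x => m x = 0) with hNdef
  set M := R.filter (fun x => ¬ m x = 0) with hMdef
  set δN : I → ℚ := solN a N (fun i => ∑ y ∈ M, (a i y : ℚ) * ((m y : ℚ) - q y)) with hδN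
  have hw : ∀ i ∈ N, solN a N (fun i => T.E (i, k)) i + q i + δN i =
      solN a N (fun i => (rawT a R k q m T).E (i, k)) i := by
    refine solN_unique hs hN _ (fun i => solN a N (fun i => T.E (i, k)) i + q i + δN i) ?_
    intro i hi
    have hi2 : m i = 0 := (Finset.mem_filter.1 hi).2
    have e1 := solN_spec hs hN (fun i => T.E (i, k)) i hi
    have e2 := solN_spec hs hN (fun i => ∑ y ∈ M, (a i y : ℚ) * ((m y : ℚ) - q y)) i hi
    rw [AE8_rawE a hs, if_pos rfl]
    have e3 : cqN a R (fun x => (m x : ℚ) - q x) i = -cqN a N q i -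
        ∑ y ∈ M, (a i y : ℚ) * ((m y : ℚ) - q y) := by
      unfold cqN
      rw [AE8_split R m, ← hNdef, ← hMdef, ← Finset.sum_neg_distrib, sub_eq_add_neg,
        ← Finset.sum_neg_distrib]
      congr 1
      · refine Finset.sum_congr rfl fun x hx => ?_
        beta_reduce
        rw [(Finset.mem_filter.1 hx).2]
        push_cast
        ring
      · refine Finset.sum_congr rfl fun x hx => ?_
        have hx2 := (Finset.mem_filter.1 hx).2
        have hix : i ≠ x := fun h => hx2 (h ▸ hi2)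
        rw [AE8_cart_ne a hix]
        ring
    have e4 : cqN a N (fun i => solN a N (fun i => T.E (i, k)) i + q i + δN i) i =
        cqN a N (solN a N (fun i => T.E (i, k))) i + cqN a N q i + cqN a N δN i := by
      unfold cqN
      rw [← Finset.sum_add_distrib, ← Finset.sum_add_distrib]
      refine Finset.sum_congr rfl fun x _ => ?_
      ring
    rw [e4, e1, e2, e3]
    ring
  have e5 : cqN a R (fun x => (m x : ℚ) - q x) s =
      ∑ x ∈ N, (a s x : ℚ) * q x + ∑ x ∈ M, ((cart a s x : ℤ) : ℚ) * ((m x : ℚ) - q x) := by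
    unfold cqN
    rw [AE8_split R m, ← hNdef, ← hMdef]
    congr 1
    refine Finset.sum_congr rfl fun x hx => ?_
    have hx2 := (Finset.mem_filter.1 hx).2
    have hsx : s ≠ x := fun h => hs2 (h ▸ hx2)
    beta_reduce
    rw [AE8_cart_ne a hsx, hx2]
    push_cast
    ring
  have e6 : cqN a R (AE8_del a R q m) s =
      -∑ x ∈ N, (a s x : ℚ) * δN x + ∑ x ∈ M, ((cart a s x : ℤ) : ℚ) * ((m x : ℚ) - q x) := by
    unfold cqN
    rw [AE8_split R m, ← hNdef, ← hMdef, ← Finset.sum_neg_distrib]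
    congr 1
    · refine Finset.sum_congr rfl fun x hx => ?_
      have hx2 := (Finset.mem_filter.1 hx).2
      have hsx : s ≠ x := fun h => hs2 (h ▸ hx2)
      rw [AE8_cart_ne a hsx]
      unfold AE8_del
      rw [if_pos hx2]
      ring
    · refine Finset.sum_congr rfl fun x hx => ?_
      unfold AE8_del
      rw [if_neg (Finset.mem_filter.1 hx).2]
  have e7 : ∑ x ∈ N, (a s x : ℚ) * solN a N (fun i => (rawT a R k q m T).E (i, k)) x =
      ∑ x ∈ N, (a s x : ℚ) * solN a N (fun i => T.E (i, k)) x + ∑ x ∈ N, (a s x : ℚ) * q x +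
        ∑ x ∈ N, (a s x : ℚ) * δN x := by
    rw [← Finset.sum_add_distrib, ← Finset.sum_add_distrib]
    refine Finset.sum_congr rfl fun x hx => ?_
    rw [← hw x hx]
    ring
  unfold effE
  rw [Finset.filter_true_of_mem (fun _ _ => rfl), e7, AE8_rawE a hs, if_pos rfl, e5, e6]
  ring

theorem raw_pos (a : I → I → ℕ) (hs : ∀ i j, a i j = a j i) (R : Finset I) (hR : FinT a R)
    (hc : ConnS a R) (k : ℕ) (hk : 1 ≤ k) (q : I → ℚ) (hq : QOk a R q) (T : Trm I) (hT : RReg R T)
    (m : I → ℕ) (hm : ¬ Plat R q m) (h : TV a (rawT a R k q m T) ≠ 0) :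
    ∀ x ∈ R, m x ≠ 0 → q x < m x := by
  have hN : FinT a (R.filter (fun x => m x = 0)) := hR.mono (Finset.filter_subset _ _)
  have hE : ∀ i ∈ R, 0 ≤ T.E (i, k) := by
    intro i hi
    obtain ⟨n, hn⟩ := hT.nat i hi k hk
    rw [hn]
    exact Nat.cast_nonneg n
  have hpos : ∀ i ∈ R, 0 ≤ cqN a R (AE8_del a R q m) i := by
    intro i hi
    by_cases hmi : m i = 0
    · exact (AE8_del_N a hs R hR q m i hi hmi).ge
    · by_contra hlt
      push Not at hlt
      apply h
      refine raw_Z a hs R hR k hk q hq T hT m i hi hmi ?_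
      rw [AE8_eff a hs R hR k q T m i hmi]
      have h1 : 0 ≤ ∑ x ∈ R.filter (fun x => m x = 0), (a i x : ℚ) *
          solN a (R.filter (fun x => m x = 0)) (fun i => T.E (i, k)) x := by
        refine Finset.sum_nonneg fun x _ => mul_nonneg (Nat.cast_nonneg _) ?_
        exact solN_nonneg hs hN _ (fun i hi => hE i (Finset.mem_filter.1 hi).1) x
      have h2 := hE i hi
      linarith
  intro x hx hmx
  by_cases h0 : ∃ i ∈ R, cqN a R (AE8_del a R q m) i ≠ 0
  · have h1 := FinT.pos_of_conn hs hR hc _ hpos h0 x hx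
    unfold AE8_del at h1
    rw [if_neg hmx] at h1
    linarith
  · exfalso
    push Not at h0
    have h1 : ∀ i ∈ R, AE8_del a R q m i = 0 := by
      by_contra hcon
      push Not at hcon
      obtain ⟨i, hi, hne⟩ := hcon
      have h2 := hR.pos _ ⟨i, hi, hne⟩
      have h3 : ∑ i ∈ R, AE8_del a R q m i * cqN a R (AE8_del a R q m) i = 0 :=
        Finset.sum_eq_zero fun i hi => by rw [h0 i hi, mul_zero]
      rw [h3] at h2
      exact lt_irrefl _ h2
    apply hm
    intro y hy
    by_cases hmy : m y = 0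
    · exact Or.inl hmy
    · right
      have h2 := h1 y hy
      unfold AE8_del at h2
      rw [if_neg hmy] at h2
      linarith

theorem plat_kink (a : I → I → ℕ) (hs : ∀ i j, a i j = a j i) (R : Finset I) (hR : FinT a R)
    (hc : ConnS a R) (k : ℕ) (hk : 1 ≤ k) (q : I → ℚ) (hq : QOk a R q) (T : Trm I) (hT : RReg R T)
    (hkk : Kink R k T) (m : I → ℕ) (hm : Plat R q m) (h0 : ∃ x ∈ R, m x ≠ 0) :
    TV a (rawT a R k q m T) = 0 := by
  have hN : FinT a (R.filter (fun x => m x = 0)) := hR.mono (Finset.filter_subset _ _)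
  have hE : ∀ i ∈ R, 0 ≤ T.E (i, k) := by
    intro i hi
    obtain ⟨n, hn⟩ := hT.nat i hi k hk
    rw [hn]
    exact Nat.cast_nonneg n
  -- `δ` vanishes
  have hδM : ∀ y ∈ R, m y ≠ 0 → (m y : ℚ) - q y = 0 := by
    intro y hy hmy
    rcases hm y hy with h | h
    · exact absurd h hmy
    · rw [h, sub_self]
  have hδ : ∀ y ∈ R, AE8_del a R q m y = 0 := by
    intro y hy
    unfold AE8_del
    by_cases hmy : m y = 0
    · rw [if_pos hmy]
      have h1 := solN_unique hs hN
        (fun i => ∑ y ∈ R.filter (fun x => ¬ m x = 0), (a i y : ℚ) * ((m y : ℚ) - q y))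
        (fun _ => 0) (by
          intro i _
          have e1 : cqN a (R.filter (fun x => m x = 0)) (fun _ => (0 : ℚ)) i = 0 := by
            unfold cqN
            exact Finset.sum_eq_zero fun x _ => mul_zero _
          rw [e1]
          refine (Finset.sum_eq_zero fun x hx => ?_).symm
          rw [hδM x (Finset.mem_filter.1 hx).1 (Finset.mem_filter.1 hx).2, mul_zero]) y
        (Finset.mem_filter.2 ⟨hy, hmy⟩)
      exact h1.symm
    · rw [if_neg hmy]
      exact hδM y hy hmy
  have hcq : ∀ s, cqN a R (AE8_del a R q m) s = 0 := by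
    intro s
    unfold cqN
    exact Finset.sum_eq_zero fun x hx => by rw [hδ x hx, mul_zero]
  have hsol : ∀ x, 0 ≤ solN a (R.filter (fun x => m x = 0)) (fun i => T.E (i, k)) x :=
    fun x => solN_nonneg hs hN _ (fun i hi => hE i (Finset.mem_filter.1 hi).1) x
  -- it is enough to find a direction with a positive effective exponent
  have key : ∀ s ∈ R, m s ≠ 0 → (0 < T.E (s, k) ∨ ∃ y ∈ R.filter (fun x => m x = 0),
      0 < a s y ∧ 0 < solN a (R.filter (fun x => m x = 0)) (fun i => T.E (i, k)) y) →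
      TV a (rawT a R k q m T) = 0 := by
    intro s hsR hsm hor
    refine raw_Z a hs R hR k hk q hq T hT m s hsR hsm ?_
    rw [AE8_eff a hs R hR k q T m s hsm, hcq, sub_zero]
    have h1 : ∀ x ∈ R.filter (fun x => m x = 0), 0 ≤ (a s x : ℚ) *
        solN a (R.filter (fun x => m x = 0)) (fun i => T.E (i, k)) x :=
      fun x _ => mul_nonneg (Nat.cast_nonneg _) (hsol x)
    rcases hor with h2 | ⟨y, hy, hay, hsy⟩
    · have h3 := Finset.sum_nonneg h1
      linarith
    · have h3 : 0 < ∑ x ∈ R.filter (fun x => m x = 0), (a s x : ℚ) *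
          solN a (R.filter (fun x => m x = 0)) (fun i => T.E (i, k)) x := by
        refine Finset.sum_pos' h1 ⟨y, hy, mul_pos ?_ hsy⟩
        exact_mod_cast hay
      have h4 := hE s hsR
      linarith
  obtain ⟨x0, hx0, hx0E⟩ := hkk
  by_cases hm0 : m x0 = 0
  · -- the component of `x0` in `N`
    have hx0N : x0 ∈ R.filter (fun x => m x = 0) := Finset.mem_filter.2 ⟨hx0, hm0⟩
    obtain ⟨A, hA, hx0A⟩ := comps_cover hs (N := R.filter (fun x => m x = 0)) x0 hx0N
    obtain ⟨z, hz, hzm⟩ := h0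
    have hsd : R \ R.filter (fun x => ¬ m x = 0) = R.filter (fun x => m x = 0) := by
      ext x
      simp only [Finset.mem_sdiff, Finset.mem_filter, not_and, not_not]
      constructor
      · rintro ⟨h1, h2⟩
        exact ⟨h1, h2 h1⟩
      · rintro ⟨h1, h2⟩
        exact ⟨h1, fun _ => h2⟩
    obtain ⟨y, hy, x, hx, hxy⟩ := comps_adj_set hs (R := R)
      (M := R.filter (fun x => ¬ m x = 0)) hc (Finset.filter_subset _ _)
      ⟨z, Finset.mem_filter.2 ⟨hz, hzm⟩⟩ A (by rw [hsd]; exact hA)
    have hAN : A ⊆ R.filter (fun x => m x = 0) := comps_subset hA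
    have hAT : FinT a A := hN.mono hAN
    have hEA : ∀ i ∈ A, 0 ≤ T.E (i, k) := fun i hi => hE i (Finset.mem_filter.1 (hAN hi)).1
    have h1 := solN_pos hs hAT (comps_conn hA) (fun i => T.E (i, k)) hEA
      ⟨x0, hx0A, by
        have h9 : 0 < T.E (x0, k) := by linarith
        exact h9.ne'⟩ y hy
    have h2 := solN_component hs hN hAN (comps_sep hA) (fun i => T.E (i, k)) y hy
    exact key x (Finset.mem_filter.1 hx).1 (Finset.mem_filter.1 hx).2
      (Or.inr ⟨y, hAN hy, hxy, by rw [h2]; exact h1⟩)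
  · exact key x0 hx0 hm0 (Or.inl (by linarith))

/-- the plateau part of a kinked term. -/
theorem PPv_kink (a : I → I → ℕ) (hs : ∀ i j, a i j = a j i) (R : Finset I) (hR : FinT a R)
    (hc : ConnS a R) (k : ℕ) (hk : 1 ≤ k) (q : I → ℚ) (hq : QOk a R q) (T : Trm I) (hT : RReg R T)
    (hkk : Kink R k T) :
    PPv a R k q T = (-1) ^ R.card * TV a (upT a R k q T) := by
  classical
  unfold PPv
  rw [Finset.sum_eq_single (fun _ => 0)]
  · have h1 : sgm R (fun _ => 0) = (-1) ^ R.card := by
      unfold sgm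
      rw [Finset.filter_true_of_mem (fun _ _ => rfl)]
    have h2 : rawT a R k q (fun _ => 0) T = upT a R k q T := by
      have e1 : (fun i => if i ∈ R then (((fun _ => 0 : I → ℕ) i : ℕ) : ℚ) - q i else 0) =
          fun i => -resQ R q i := by
        funext i
        unfold resQ
        by_cases hi : i ∈ R
        · rw [if_pos hi, if_pos hi]
          push_cast
          ring
        · rw [if_neg hi, if_neg hi, neg_zero]
      have e2 : (fun x => if (fun _ => 0 : I → ℕ) x = 0 then sy x (k - 1) else cE a x k) =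
          fun x => sy x (k - 1) := by
        funext x
        exact if_pos rfl
      unfold rawT upT blkT
      rw [e1, e2]
    rw [h1, h2]
  · intro m hm hne
    rw [Finset.mem_filter] at hm
    have h1 : ∃ x ∈ R, m x ≠ 0 := by
      by_contra hcon
      push Not at hcon
      apply hne
      funext x
      by_cases hx : x ∈ R
      · exact hcon x hx
      · have h2 := hm.1
        unfold mbox at h2
        rw [Fintype.mem_piFinset] at h2
        have h3 := h2 x
        rw [if_neg hx, Finset.mem_singleton] at h3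
        exact h3
    rw [plat_kink a hs R hR hc k hk q hq T hT hkk m hm.2 h1, mul_zero]
  · intro hnot
    exfalso
    apply hnot
    rw [Finset.mem_filter]
    refine ⟨?_, fun x _ => Or.inl rfl⟩
    unfold mbox
    rw [Fintype.mem_piFinset]
    intro x
    by_cases hx : x ∈ R
    · rw [if_pos hx, Finset.mem_range]
      omega
    · rw [if_neg hx, Finset.mem_singleton]

end

end Pool.Agent.H27.KAC

end

section

/-!
KAC ADE, module AG7: outer vertices of raw terms and of kinked blocks.

`raw_eff_outer`: with `N = {y ∈ A | m y = 0}`, `M = A ∖ N`, `δ = m - q` (positive on `M`), the exponents of the raw term on `N` at level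
`f` are `T.E + C_N q + a_NM δ_M`, so `solN = q + C_N^{-1}(T.E + a_NM δ_M)`; hence the effective exponent of the outer vertex `z` is
`T.E (z,f) + a_zM δ_M + a_zN C_N^{-1}(T.E + a_NM δ_M)`.  It is positive: `z` is adjacent to some `y ∈ A`; if `y ∈ N`, its component in
`N` is adjacent to `M` (`comps_adj_set`, `solN_component`, `solN_pos`).

`raw_kill`, `raw_conv`: for `m` with some `m y ≠ 0`, `m y ≤ q y` all values are zero by `raw_pos` (all maps commute with `rawT`;
`RReg A` of the filled term by `RReg_patT`, `RReg_expl`); for the other `m` use `TV_kill`, `evU_conv` with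
`V = {y ∈ A | m y = 0}`, `σ = f - 1`.
`kink_kill`, `kink_conv`: `TV_kill`, `evU_conv` with `V = A`; the effective exponent of `z` is
`T.E (z,f) + a_zA C_A^{-1} T.E > 0`.
-/

set_option autoImplicit false

namespace Pool.Agent.H27.KAC

open scoped BigOperators

section

variable {I : Type} [Fintype I] [DecidableEq I]

theorem AG7_isZ_add {p q : ℚ} (hp : IsZ p) (hq : IsZ q) : IsZ (p + q) := by
  obtain ⟨m, rfl⟩ := hp
  obtain ⟨n, rfl⟩ := hq
  exact ⟨m + n, by push_cast; ring⟩

theorem AG7_isZ_sub {p q : ℚ} (hp : IsZ p) (hq : IsZ q) : IsZ (p - q) := by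
  obtain ⟨m, rfl⟩ := hp
  obtain ⟨n, rfl⟩ := hq
  exact ⟨m - n, by push_cast; ring⟩

private theorem AG7_isZ_mul {p q : ℚ} (hp : IsZ p) (hq : IsZ q) : IsZ (p * q) := by
  obtain ⟨m, rfl⟩ := hp
  obtain ⟨n, rfl⟩ := hq
  exact ⟨m * n, by push_cast; ring⟩

private theorem AG7_isZ_sum {ι : Type} (s : Finset ι) (g : ι → ℚ) (h : ∀ i ∈ s, IsZ (g i)) :
    IsZ (∑ i ∈ s, g i) := by
  refine Finset.sum_induction g IsZ (fun _ _ => AG7_isZ_add) ⟨0, by simp⟩ h

private theorem AG7_isZ_int (n : ℤ) : IsZ (n : ℚ) := ⟨n, rfl⟩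

private theorem AG7_isZ_nat (n : ℕ) : IsZ (n : ℚ) := ⟨n, by simp⟩

theorem AG7_isZ_isN {p : ℚ} (h : IsN p) : IsZ p := by
  obtain ⟨n, rfl⟩ := h
  exact AG7_isZ_nat n

theorem AG7_isN_nonneg {p : ℚ} (h : IsN p) : 0 ≤ p := by
  obtain ⟨n, rfl⟩ := h
  positivity

theorem AG7_isZ_congr {p q : ℚ} (hp : IsZ p) (h : IsZ (q - p)) : IsZ q := by
  have := AG7_isZ_add hp h
  rwa [add_sub_cancel] at this

omit [Fintype I] in
private theorem AG7_cart_ne (a : I → I → ℕ) {x z : I} (h : x ≠ z) :
    (cart a x z : ℚ) = -(a x z : ℚ) := by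
  simp [cart, h]

omit [Fintype I] in
private theorem AG7_cart_symm (a : I → I → ℕ) (hs : ∀ i j, a i j = a j i) (x y : I) :
    cart a x y = cart a y x := by
  unfold cart
  rw [hs x y]
  simp only [eq_comm]

private theorem AG7_cE_ne (a : I → I → ℕ) (x v : I) {k l : ℕ} (h : l ≠ k) :
    cE a x k (v, l) = 0 := by
  unfold cE
  rw [Finsupp.finsetSum_apply]
  refine Finset.sum_eq_zero fun j _ => ?_
  rw [Finsupp.smul_apply, Finsupp.single_apply, if_neg, smul_zero]
  rintro h1
  exact h (congrArg Prod.snd h1).symm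

omit [Fintype I] [DecidableEq I] in
private theorem AG7_sy_lev {x v : I} {k l : ℕ} (h : (sy x k : QE I) (v, l) ≠ 0) : x = v ∧ l = k := by
  classical
  rw [Finsupp.single_apply] at h
  by_contra h2
  apply h
  rw [if_neg]
  intro h3
  exact h2 ⟨congrArg Prod.fst h3, (congrArg Prod.snd h3).symm⟩

private theorem AG7_raw_Λ (a : I → I → ℕ) (A : Finset I) (f : ℕ) (q : I → ℚ) (m : I → ℕ)
    (T : Trm I) (j : I) : (rawT a A f q m T).Λ j =
      if j ∈ A then (if m j = 0 then sy j (f - 1) else cE a j f) else T.Λ j := rfl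

private theorem AG7_blk_Λ (a : I → I → ℕ) (A : Finset I) (f σ : ℕ) (q : I → ℚ)
    (T : Trm I) (j : I) : (blkT a A f σ q T).Λ j = if j ∈ A then sy j σ else T.Λ j := rfl

theorem AG7_raw_E_ne (a : I → I → ℕ) (A : Finset I) (f : ℕ) (q : I → ℚ) (m : I → ℕ)
    (T : Trm I) (i : I) {l : ℕ} (h : l ≠ f) : (rawT a A f q m T).E (i, l) = T.E (i, l) := by
  rw [rawT_E, if_neg h, sub_zero]

theorem AG7_blk_E_ne (a : I → I → ℕ) (A : Finset I) (f σ : ℕ) (q : I → ℚ)
    (T : Trm I) (i : I) {l : ℕ} (h : l ≠ f) : (blkT a A f σ q T).E (i, l) = T.E (i, l) := by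
  rw [blkT_E, if_neg h, add_zero]

/-- exponents of the raw term outside of `A` -/
private theorem AG7_raw_E_out (a : I → I → ℕ) (hs : ∀ i j, a i j = a j i) (A : Finset I) (f : ℕ)
    (q : I → ℚ) (m : I → ℕ) (T : Trm I) {z : I} (hz : z ∉ A) :
    (rawT a A f q m T).E (z, f) = T.E (z, f) + ∑ x ∈ A, ((m x : ℚ) - q x) * (a z x : ℚ) := by
  rw [rawT_E, if_pos rfl, sub_eq_add_neg, ← Finset.sum_neg_distrib]
  congr 1
  refine Finset.sum_congr rfl fun x hx => ?_
  have hne : x ≠ z := fun h => hz (h ▸ hx)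
  rw [AG7_cart_ne a hne, hs x z]
  ring

private theorem AG7_blk_E_out (a : I → I → ℕ) (hs : ∀ i j, a i j = a j i) (A : Finset I) (f σ : ℕ)
    (q : I → ℚ) (T : Trm I) {z : I} (hz : z ∉ A) :
    (blkT a A f σ q T).E (z, f) = T.E (z, f) - ∑ x ∈ A, (a z x : ℚ) * q x := by
  rw [blkT_E, if_pos rfl, sub_eq_add_neg, ← Finset.sum_neg_distrib]
  congr 1
  refine Finset.sum_congr rfl fun x hx => ?_
  have hne : x ≠ z := fun h => hz (h ▸ hx)
  rw [AG7_cart_ne a hne, hs x z]
  ring

private theorem AG7_blk_E_in (a : I → I → ℕ) (hs : ∀ i j, a i j = a j i) (A : Finset I) (f σ : ℕ)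
    (q : I → ℚ) (T : Trm I) (i : I) :
    (blkT a A f σ q T).E (i, f) = T.E (i, f) + cqN a A q i := by
  rw [blkT_E, if_pos rfl]
  congr 1
  unfold cqN
  refine Finset.sum_congr rfl fun x _ => ?_
  rw [AG7_cart_symm a hs x i]
  ring

private theorem AG7_raw_E_in (a : I → I → ℕ) (hs : ∀ i j, a i j = a j i) (A : Finset I) (f : ℕ)
    (q : I → ℚ) (m : I → ℕ) (T : Trm I) (i : I) :
    (rawT a A f q m T).E (i, f) =
      T.E (i, f) - ∑ x ∈ A, (cart a i x : ℚ) * ((m x : ℚ) - q x) := by
  rw [rawT_E, if_pos rfl]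
  congr 1
  refine Finset.sum_congr rfl fun x _ => ?_
  rw [AG7_cart_symm a hs x i]
  ring

/-- the exponents on `N` -/
private theorem AG7_raw_E_N (a : I → I → ℕ) (hs : ∀ i j, a i j = a j i) (A : Finset I) (f : ℕ)
    (q : I → ℚ) (m : I → ℕ) (T : Trm I) (i : I) (hi : i ∈ A.filter (fun v => m v = 0)) :
    (rawT a A f q m T).E (i, f) = cqN a (A.filter (fun v => m v = 0)) q i +
      (T.E (i, f) + ∑ x ∈ A.filter (fun v => ¬ m v = 0), (a i x : ℚ) * ((m x : ℚ) - q x)) := by
  have hi2 : m i = 0 := (Finset.mem_filter.1 hi).2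
  rw [AG7_raw_E_in a hs, ← Finset.sum_filter_add_sum_filter_not A (fun v => m v = 0)]
  have e1 : ∑ x ∈ A.filter (fun v => m v = 0), (cart a i x : ℚ) * ((m x : ℚ) - q x) =
      - cqN a (A.filter (fun v => m v = 0)) q i := by
    unfold cqN
    rw [← Finset.sum_neg_distrib]
    refine Finset.sum_congr rfl fun x hx => ?_
    rw [(Finset.mem_filter.1 hx).2]
    push_cast
    ring
  have e2 : ∑ x ∈ A.filter (fun v => ¬ m v = 0), (cart a i x : ℚ) * ((m x : ℚ) - q x) =
      - ∑ x ∈ A.filter (fun v => ¬ m v = 0), (a i x : ℚ) * ((m x : ℚ) - q x) := by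
    rw [← Finset.sum_neg_distrib]
    refine Finset.sum_congr rfl fun x hx => ?_
    have hne : i ≠ x := fun h => (Finset.mem_filter.1 hx).2 (h ▸ hi2)
    rw [AG7_cart_ne a hne]
    ring
  rw [e1, e2]
  ring

/-- the solution of the exponents of a sum with an explicit part -/
private theorem AG7_sol_split (a : I → I → ℕ) (hs : ∀ i j, a i j = a j i) {N : Finset I}
    (hN : FinT a N) (q b b' : I → ℚ) (h : ∀ i ∈ N, b' i = cqN a N q i + b i) :
    ∀ v ∈ N, solN a N b' v = q v + solN a N b v := by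
  intro v hv
  rw [solN_congr hs hN b' (fun i => cqN a N q i + b i) h, solN_add hs hN, solN_cqN hs hN q v hv]

theorem raw_eff_outer (a : I → I → ℕ) (hs : ∀ i j, a i j = a j i) (A : Finset I) (hA : FinT a A)
    (hc : ConnS a A) (f : ℕ) (hf : 1 ≤ f) (q : I → ℚ) (hq : QOk a A q) (T : Trm I)
    (hT : ∀ x ∈ A, IsN (T.E (x, f))) (m : I → ℕ) (hgood : ∀ y ∈ A, m y ≠ 0 → q y < m y) (hne : ∃ y ∈ A, m y ≠ 0) (z : I)
    (hz : z ∉ A) (hadj : ∃ y ∈ A, 0 < a z y) (hE : 0 ≤ T.E (z, f)) :
    0 < (rawT a A f q m T).E (z, f) +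
      ∑ v ∈ A.filter (fun v => m v = 0), (a z v : ℚ) *
        solN a (A.filter (fun v => m v = 0)) (fun i => (rawT a A f q m T).E (i, f)) v := by
  classical
  set N : Finset I := A.filter (fun v => m v = 0) with hNdef
  set M : Finset I := A.filter (fun v => ¬ m v = 0) with hMdef
  have hNA : N ⊆ A := Finset.filter_subset _ _
  have hMA : M ⊆ A := Finset.filter_subset _ _
  have hN : FinT a N := hA.mono hNA
  set b : I → ℚ := fun i => T.E (i, f) + ∑ x ∈ M, (a i x : ℚ) * ((m x : ℚ) - q x) with hb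
  have hδ : ∀ x ∈ M, 0 < (m x : ℚ) - q x := by
    intro x hx
    have h1 := hgood x (hMA hx) (Finset.mem_filter.1 hx).2
    linarith
  have hb0 : ∀ i ∈ N, 0 ≤ b i := by
    intro i hi
    have h1 : 0 ≤ T.E (i, f) := AG7_isN_nonneg (hT i (hNA hi))
    have h2 : 0 ≤ ∑ x ∈ M, (a i x : ℚ) * ((m x : ℚ) - q x) :=
      Finset.sum_nonneg fun x hx => mul_nonneg (by positivity) (hδ x hx).le
    exact add_nonneg h1 h2
  have hsol : ∀ v ∈ N, solN a N (fun i => (rawT a A f q m T).E (i, f)) v =
      q v + solN a N b v :=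
    AG7_sol_split a hs hN q b _ (fun i hi => AG7_raw_E_N a hs A f q m T i hi)
  have e1 : (rawT a A f q m T).E (z, f) +
      ∑ v ∈ N, (a z v : ℚ) * solN a N (fun i => (rawT a A f q m T).E (i, f)) v =
      T.E (z, f) + ∑ x ∈ M, ((m x : ℚ) - q x) * (a z x : ℚ) +
        ∑ v ∈ N, (a z v : ℚ) * solN a N b v := by
    rw [AG7_raw_E_out a hs A f q m T hz, ← Finset.sum_filter_add_sum_filter_not A (fun v => m v = 0)]
    have e2 : ∑ v ∈ N, (a z v : ℚ) * solN a N (fun i => (rawT a A f q m T).E (i, f)) v =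
        ∑ v ∈ N, (a z v : ℚ) * solN a N b v - ∑ v ∈ N, ((m v : ℚ) - q v) * (a z v : ℚ) := by
      rw [← Finset.sum_sub_distrib]
      refine Finset.sum_congr rfl fun v hv => ?_
      rw [hsol v hv, (Finset.mem_filter.1 hv).2]
      push_cast
      ring
    rw [e2]
    ring
  rw [e1]
  have h2 : 0 ≤ ∑ x ∈ M, ((m x : ℚ) - q x) * (a z x : ℚ) :=
    Finset.sum_nonneg fun x hx => mul_nonneg (hδ x hx).le (by positivity)
  have h3 : 0 ≤ ∑ v ∈ N, (a z v : ℚ) * solN a N b v :=
    Finset.sum_nonneg fun v _ => mul_nonneg (by positivity) (solN_nonneg hs hN b hb0 v)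
  obtain ⟨y, hy, hay⟩ := hadj
  have hay' : (0 : ℚ) < (a z y : ℚ) := by exact_mod_cast hay
  by_cases hmy : m y = 0
  · have hyN : y ∈ N := Finset.mem_filter.2 ⟨hy, hmy⟩
    have hMne : M.Nonempty := by
      obtain ⟨x, hx, hx2⟩ := hne
      exact ⟨x, Finset.mem_filter.2 ⟨hx, hx2⟩⟩
    have hAM : A \ M = N := by
      ext x
      simp only [hNdef, hMdef, Finset.mem_sdiff, Finset.mem_filter]
      tauto
    obtain ⟨K, hK, hyK⟩ := comps_cover hs y hyN
    have hK' : K ∈ comps a (A \ M) := by rw [hAM]; exact hK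
    obtain ⟨y', hy', x, hx, hax⟩ := comps_adj_set hs hc hMA hMne K hK'
    have hKN : K ⊆ N := comps_subset hK
    have hbK : ∀ i ∈ K, 0 ≤ b i := fun i hi => hb0 i (hKN hi)
    have hby' : b y' ≠ 0 := by
      have g1 : 0 ≤ T.E (y', f) := AG7_isN_nonneg (hT y' (hNA (hKN hy')))
      have g2 : 0 < ∑ x ∈ M, (a y' x : ℚ) * ((m x : ℚ) - q x) := by
        refine Finset.sum_pos' (fun x hx => mul_nonneg (by positivity) (hδ x hx).le) ⟨x, hx, ?_⟩
        have : (0 : ℚ) < (a y' x : ℚ) := by rw [hs y' x]; exact_mod_cast hax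
        exact mul_pos this (hδ x hx)
      have : 0 < b y' := add_pos_of_nonneg_of_pos g1 g2
      exact this.ne'
    have g3 : 0 < solN a K b y :=
      solN_pos hs (hN.mono hKN) (comps_conn hK) b hbK ⟨y', hy', hby'⟩ y hyK
    have g4 : solN a N b y = solN a K b y := solN_component hs hN hKN (comps_sep hK) b y hyK
    have g5 : 0 < ∑ v ∈ N, (a z v : ℚ) * solN a N b v := by
      refine Finset.sum_pos' (fun v _ => mul_nonneg (by positivity) (solN_nonneg hs hN b hb0 v))
        ⟨y, hyN, ?_⟩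
      rw [g4]
      exact mul_pos hay' g3
    linarith
  · have hyM : y ∈ M := Finset.mem_filter.2 ⟨hy, hmy⟩
    have g5 : 0 < ∑ x ∈ M, ((m x : ℚ) - q x) * (a z x : ℚ) := by
      refine Finset.sum_pos' (fun x hx => mul_nonneg (hδ x hx).le (by positivity)) ⟨y, hyM, ?_⟩
      exact mul_pos (hδ y hyM) hay'
    linarith

theorem raw_FRegI (a : I → I → ℕ) (hs : ∀ i j, a i j = a j i) (A : Finset I) (hA : FinT a A)
    (f : ℕ) (hf : 1 ≤ f) (q : I → ℚ) (hq : QOk a A q) (m : I → ℕ)
    (S : Finset I) (T : Trm I) (hT : RReg (A ∪ S) T) : ∀ v ∈ A.filter (fun v => m v = 0), FRegI S (rawT a A f q m T) v f (f - 1) := by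
  intro v hv
  have hvA : v ∈ A := (Finset.mem_filter.1 hv).1
  have hvAS : v ∈ A ∪ S := Finset.mem_union_left _ hvA
  refine ⟨?_, ?_, ?_⟩
  · intro l hl hlf
    rw [AG7_raw_E_ne a A f q m T v hlf]
    exact hT.nat v hvAS l hl
  · rw [AG7_raw_E_in a hs]
    have h1 : IsZ (T.E (v, f)) := AG7_isZ_isN (hT.nat v hvAS f hf)
    have h2 : IsZ (cqN a A q v) := by
      obtain ⟨n, _, hn⟩ := hq v hvA
      rw [hn]
      exact AG7_isZ_nat n
    have h3 : ∑ x ∈ A, (cart a v x : ℚ) * ((m x : ℚ) - q x) =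
        ∑ x ∈ A, (cart a v x : ℚ) * (m x : ℚ) - cqN a A q v := by
      unfold cqN
      rw [← Finset.sum_sub_distrib]
      refine Finset.sum_congr rfl fun x _ => ?_
      ring
    rw [h3]
    refine AG7_isZ_sub h1 (AG7_isZ_sub (AG7_isZ_sum _ _ fun x _ => ?_) h2)
    exact AG7_isZ_mul (AG7_isZ_int _) (AG7_isZ_nat _)
  · intro j hj l hl hΛ
    rw [AG7_raw_Λ] at hΛ
    by_cases hlf : l = f
    · exact Or.inr (Or.inl hlf)
    by_cases hjA : j ∈ A
    · rw [if_pos hjA] at hΛ
      by_cases hmj : m j = 0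
      · rw [if_pos hmj] at hΛ
        exact Or.inl (AG7_sy_lev hΛ).2
      · rw [if_neg hmj, AG7_cE_ne a j v hlf] at hΛ
        exact absurd rfl hΛ
    · rw [if_neg hjA] at hΛ
      refine Or.inr (Or.inr ?_)
      rw [AG7_raw_E_ne a A f q m T v hlf]
      refine hT.col v hvAS j ?_ l hl hΛ
      intro h
      rcases Finset.mem_union.1 h with h | h
      · exact hjA h
      · exact hj h

theorem AG7_blk_FRegI (a : I → I → ℕ) (hs : ∀ i j, a i j = a j i) (A : Finset I)
    (f : ℕ) (hf : 1 ≤ f) (σ : ℕ) (q : I → ℚ) (hq : QOk a A q)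
    (S : Finset I) (T : Trm I) (hT : RReg (A ∪ S) T) : ∀ v ∈ A, FRegI S (blkT a A f σ q T) v f σ := by
  intro v hvA
  have hvAS : v ∈ A ∪ S := Finset.mem_union_left _ hvA
  refine ⟨?_, ?_, ?_⟩
  · intro l hl hlf
    rw [AG7_blk_E_ne a A f σ q T v hlf]
    exact hT.nat v hvAS l hl
  · rw [AG7_blk_E_in a hs]
    have h1 : IsZ (T.E (v, f)) := AG7_isZ_isN (hT.nat v hvAS f hf)
    have h2 : IsZ (cqN a A q v) := by
      obtain ⟨n, _, hn⟩ := hq v hvA
      rw [hn]
      exact AG7_isZ_nat n
    exact AG7_isZ_add h1 h2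
  · intro j hj l hl hΛ
    rw [AG7_blk_Λ] at hΛ
    by_cases hlf : l = f
    · exact Or.inr (Or.inl hlf)
    by_cases hjA : j ∈ A
    · rw [if_pos hjA] at hΛ
      exact Or.inl (AG7_sy_lev hΛ).2
    · rw [if_neg hjA] at hΛ
      refine Or.inr (Or.inr ?_)
      rw [AG7_blk_E_ne a A f σ q T v hlf]
      refine hT.col v hvAS j ?_ l hl hΛ
      intro h
      rcases Finset.mem_union.1 h with h | h
      · exact hjA h
      · exact hj h

/-- columns of the raw term in the direction of an outer vertex -/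
theorem AG7_raw_col (a : I → I → ℕ) (A : Finset I) (f : ℕ) (q : I → ℚ) (m : I → ℕ)
    (T : Trm I) {z : I} (hz : z ∉ A) (j : I) (l : ℕ)
    (h : (rawT a A f q m T).Λ j (z, l) ≠ 0) : l = f ∨ (j ∉ A ∧ T.Λ j (z, l) ≠ 0) := by
  rw [AG7_raw_Λ] at h
  by_cases hlf : l = f
  · exact Or.inl hlf
  by_cases hjA : j ∈ A
  · rw [if_pos hjA] at h
    by_cases hmj : m j = 0
    · rw [if_pos hmj] at h
      exact absurd hjA ((AG7_sy_lev h).1 ▸ hz)
    · rw [if_neg hmj, AG7_cE_ne a j z hlf] at h
      exact absurd rfl h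
  · rw [if_neg hjA] at h
    exact Or.inr ⟨hjA, h⟩

theorem AG7_blk_col (a : I → I → ℕ) (A : Finset I) (f σ : ℕ) (q : I → ℚ)
    (T : Trm I) {z : I} (hz : z ∉ A) (j : I) (l : ℕ)
    (h : (blkT a A f σ q T).Λ j (z, l) ≠ 0) : j ∉ A ∧ T.Λ j (z, l) ≠ 0 := by
  rw [AG7_blk_Λ] at h
  by_cases hjA : j ∈ A
  · rw [if_pos hjA] at h
    exact absurd hjA ((AG7_sy_lev h).1 ▸ hz)
  · rw [if_neg hjA] at h
    exact ⟨hjA, h⟩

/-- the value of a raw term with bad multiplicities is zero in presence of a pattern -/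
theorem AG7_raw_bad (a : I → I → ℕ) (hs : ∀ i j, a i j = a j i) (f : ℕ)
    (hf : 1 ≤ f) (A : Finset I) (hA : FinT a A) (hc : ConnS a A) (q : I → ℚ) (hq : QOk a A q)
    (U : Finset I) (hAU : Sep a A U) (π : Pat I)
    (T : Trm I) (hT : RReg (A ∪ U) T) (m : I → ℕ) (hm : ¬ Plat A q m)
    (hbad : ¬ ∀ y ∈ A, m y ≠ 0 → q y < m y) : TV a (patT a U π (rawT a A f q m T)) = 0 := by
  rw [← rawT_patT_comm a A U hAU.1]
  by_contra h
  exact hbad (raw_pos a hs A hA hc f hf q hq _
    (RReg_patT a hs A U hAU.1 π (fun x hx y hy _ => hAU.2 x hx y hy) T hT) m hm h)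

omit [Fintype I] [DecidableEq I] in
theorem AG7_not_plat {A : Finset I} {q : I → ℚ} {m : I → ℕ} (hm : ¬ Plat A q m) :
    ∃ y ∈ A, m y ≠ 0 := by
  by_contra h
  push Not at h
  exact hm fun x hx => Or.inl (h x hx)

/-- integrality of the exponent of the outer vertex of a raw term -/
theorem AG7_raw_int (a : I → I → ℕ) (hs : ∀ i j, a i j = a j i) (A : Finset I) (f : ℕ)
    (q : I → ℚ) (m : I → ℕ) (T : Trm I) {z : I} (hz : z ∉ A) (hE : IsZ (T.E (z, f))) :
    IsZ ((rawT a A f q m T).E (z, f) + ∑ x ∈ A, (a z x : ℚ) * q x) := by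
  rw [AG7_raw_E_out a hs A f q m T hz, add_assoc, ← Finset.sum_add_distrib]
  refine AG7_isZ_add hE (AG7_isZ_sum _ _ fun x _ => ?_)
  have e : ((m x : ℚ) - q x) * (a z x : ℚ) + (a z x : ℚ) * q x = (m x : ℚ) * (a z x : ℚ) := by
    ring
  rw [e]
  exact AG7_isZ_mul (AG7_isZ_nat _) (AG7_isZ_nat _)

theorem AG7_blk_int (a : I → I → ℕ) (hs : ∀ i j, a i j = a j i) (A : Finset I) (f σ : ℕ)
    (q : I → ℚ) (T : Trm I) {z : I} (hz : z ∉ A) (hE : IsZ (T.E (z, f))) :
    IsZ ((blkT a A f σ q T).E (z, f) + ∑ x ∈ A, (a z x : ℚ) * q x) := by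
  rw [AG7_blk_E_out a hs A f σ q T hz]
  simpa using hE

/-- the effective exponent of the outer vertex of a kinked block -/
theorem AG7_kink_eff (a : I → I → ℕ) (hs : ∀ i j, a i j = a j i) (A : Finset I)
    (hA : FinT a A) (hc : ConnS a A) (f σ : ℕ) (q : I → ℚ) (T : Trm I)
    (hT : ∀ x ∈ A, IsN (T.E (x, f))) (hk : Kink A f T) (z : I)
    (hz : z ∉ A) (hadj : ∃ y ∈ A, 0 < a z y) (hE : 0 ≤ T.E (z, f)) :
    0 < (blkT a A f σ q T).E (z, f) +
      ∑ v ∈ A, (a z v : ℚ) * solN a A (fun i => (blkT a A f σ q T).E (i, f)) v := by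
  have hsol : ∀ v ∈ A, solN a A (fun i => (blkT a A f σ q T).E (i, f)) v =
      q v + solN a A (fun i => T.E (i, f)) v := by
    refine AG7_sol_split a hs hA q (fun i => T.E (i, f)) _ fun i _ => ?_
    rw [AG7_blk_E_in a hs]
    ring
  have hb0 : ∀ i ∈ A, 0 ≤ T.E (i, f) := fun i hi => AG7_isN_nonneg (hT i hi)
  obtain ⟨x, hx, hx1⟩ := hk
  have hpos : ∀ v ∈ A, 0 < solN a A (fun i => T.E (i, f)) v :=
    solN_pos hs hA hc _ hb0 ⟨x, hx, by linarith⟩
  obtain ⟨y, hy, hay⟩ := hadj
  have hay' : (0 : ℚ) < (a z y : ℚ) := by exact_mod_cast hay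
  rw [AG7_blk_E_out a hs A f σ q T hz]
  have e : ∑ v ∈ A, (a z v : ℚ) * solN a A (fun i => (blkT a A f σ q T).E (i, f)) v =
      ∑ x ∈ A, (a z x : ℚ) * q x + ∑ v ∈ A, (a z v : ℚ) * solN a A (fun i => T.E (i, f)) v := by
    rw [← Finset.sum_add_distrib]
    refine Finset.sum_congr rfl fun v hv => ?_
    rw [hsol v hv]
    ring
  rw [e]
  have g : 0 < ∑ v ∈ A, (a z v : ℚ) * solN a A (fun i => T.E (i, f)) v :=
    Finset.sum_pos' (fun v hv => mul_nonneg (by positivity) (hpos v hv).le)
      ⟨y, hy, mul_pos hay' (hpos y hy)⟩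
  linarith

end

end Pool.Agent.H27.KAC

end
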