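import Pool.Agent.H16.TKA.M16
import Pool.Agent.H16.TKA.M21

/-! The parts of this file: H27.KAC.KH6, H27.KAC.KH7, H27.KAC.KH14, H27.KAC.KH15, H41.KA.AG14, H41.KA.AN1. -/

section

/-!
KAC module KH6: from limit data to a finite feasible multipartition.

PROOF.  `D`, `u` as in `StrictData`.
(0) `P k i = 0` for `i ∈ D`, `k ≥ 1`: `∑_(i ∈ D) y i * vacR a L m k i = - ∑_l min k l ∑_j (C y_D)_j m l j = 0`, `y_D` = `y` restricted
to `D`: `(C y_D)_j = 0` for `j ∈ D` (`Dzero`, `Dsep`) and for `j ∉ D`, `y j > 0` (`Dsep`), and `m l j = 0` if `y j = 0` (`mass`); then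
use `rel`, `Pnn`, `Dpos`.
(1) Choose `c > 0` with `c u ≤ y` and `c |cR a u i| ≤ |cR a y i| / 2` whenever `cR a y i < 0`.  There is `ρ > 0` with: for all
`i ∉ D` with `y i > 0` and all `0 ≤ t ≤ 1`: `- cR a y i + c t cR a u i ≥ ρ t` (`t = 1 - k/K` below).
(2) Parameters `0 < η < 1`, `L ≥ L0` with the error of `rel` at most `ε1`, `K > L` large.  Define `m'`: for `i ∈ D`: `m' 1 i = y i`,
other sizes zero.  For `i ∉ D`: size `l`, `2 ≤ l ≤ L`: `(1-η) m l i`; size 1: `(1-η) m 1 i + η (y i - c u i)`; size `K`: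
`((1-η) (y i - massR L m i) + η c u i) / K`.  The mass is `y`.
(3) Vacancy numbers at `i ∉ D`, `y i > 0`, `1 ≤ k ≤ K` (`D` is not adjacent to `i`):
`(1-η) [vacR a L m k i - (k/K) cR a (d) i] + η [- cR a y i + c (1 - k/K) cR a u i]`, `d = y - massR L m` (restricted to the complement of
`D`).  The first bracket is `≥ - ε1 - (L/K) c'` for `k ≤ L` (as `P k i ≥ 0`), for `k = K` it is `- cR a y i ≥ 0`, and it is affine in `k`
on `[L, K]`; so it is `≥ - 2 ε2 (1 - k/K)`, `ε2 = ε1 + (L/K) c'`, if `K ≥ 2 L`.  The second one is `≥ ρ (1 - k/K)`.  So the vacancy number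
is `≥ 0` if `2 ε2 ≤ η ρ`.  At `i ∉ D` with `y i = 0` all `m' l i = 0` and the vacancy number is a sum of nonnegative
terms; at `i ∈ D` it is `- cR a y i = 0` (`Dsep`).
(4) Entropy: all terms are nonnegative; the terms with `k ≤ L0`, `i ∉ D` converge to `ent (P k i) (m k i)` as `η → 0`, `L → ∞`,
`K → ∞` (in this order of choice: given `ε`, choose `η` small, then `L` large, then `K` large), the terms with `i ∈ D` of the
left side are `ent 0 (m k i) = 0`.
-/

set_option autoImplicit false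

namespace Pool.Agent.H27.KAC

open scoped BigOperators
open Filter Topology

variable {I : Type} [Fintype I] [DecidableEq I]

/-- the truncated multipartition off `D` -/
noncomputable def KH6_w (y u : I → ℝ) (m : ℕ → I → ℝ) (L K : ℕ) (η c : ℝ) (l : ℕ) (i : I) : ℝ :=
  (if l ≤ L then (1 - η) * m l i else 0) + (if l = 1 then η * (y i - c * u i) else 0) +
    (if l = K then ((1 - η) * (y i - massR L m i) + η * (c * u i)) / K else 0)

/-- the truncated multipartition -/
noncomputable def KH6_m (y u : I → ℝ) (m : ℕ → I → ℝ) (D : Finset I) (L K : ℕ) (η c : ℝ) (l : ℕ)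
    (i : I) : ℝ :=
  if i ∈ D then (if l = 1 then y i else 0) else KH6_w y u m L K η c l i

private theorem KH6_sum (L K : ℕ) (h1 : 1 ≤ L) (h2 : L < K) (w A : ℕ → ℝ) (B C : ℝ) :
    ∑ l ∈ Finset.Icc 1 K, w l * ((if l ≤ L then A l else 0) + (if l = 1 then B else 0) +
      (if l = K then C else 0)) = ∑ l ∈ Finset.Icc 1 L, w l * A l + w 1 * B + w K * C := by
  have e1 : ∑ l ∈ Finset.Icc 1 K, w l * (if l ≤ L then A l else 0) =
      ∑ l ∈ Finset.Icc 1 L, w l * A l := by
    have : Finset.Icc 1 L = (Finset.Icc 1 K).filter (fun l => l ≤ L) := by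
      ext l
      simp only [Finset.mem_Icc, Finset.mem_filter]
      omega
    rw [this, Finset.sum_filter]
    refine Finset.sum_congr rfl fun l _ => ?_
    split_ifs <;> simp
  have e2 : ∑ l ∈ Finset.Icc 1 K, w l * (if l = 1 then B else 0) = w 1 * B := by
    rw [Finset.sum_eq_single 1]
    · simp
    · intro l _ hl
      rw [if_neg hl, mul_zero]
    · intro h
      exact absurd (Finset.mem_Icc.2 ⟨le_rfl, by omega⟩) h
  have e3 : ∑ l ∈ Finset.Icc 1 K, w l * (if l = K then C else 0) = w K * C := by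
    rw [Finset.sum_eq_single K]
    · simp
    · intro l _ hl
      rw [if_neg hl, mul_zero]
    · intro h
      exact absurd (Finset.mem_Icc.2 ⟨by omega, le_rfl⟩) h
  rw [← e1, ← e2, ← e3, ← Finset.sum_add_distrib, ← Finset.sum_add_distrib]
  refine Finset.sum_congr rfl fun l _ => ?_
  ring

section

variable {a : I → I → ℕ} {y : I → ℝ} {D : Finset I} {u : I → ℝ} {P m : ℕ → I → ℝ}

private theorem KH6_mass_nn (hl : LimData a y P m) (L : ℕ) (i : I) : 0 ≤ massR L m i := by
  unfold massR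
  exact Finset.sum_nonneg fun l _ => mul_nonneg (Nat.cast_nonneg l) (hl.mnn l i)

private theorem KH6_mzero (hl : LimData a y P m) {i : I} (hi : y i = 0) {l : ℕ} (h1 : 1 ≤ l) :
    m l i = 0 := by
  have h2 := hl.mass l i
  rw [hi] at h2
  have h3 : (l : ℝ) * m l i ≤ massR l m i := by
    unfold massR
    exact Finset.single_le_sum (f := fun l : ℕ => (l : ℝ) * m l i)
      (fun l _ => mul_nonneg (Nat.cast_nonneg l) (hl.mnn l i)) (Finset.mem_Icc.2 ⟨h1, le_rfl⟩)
  have h4 : (0 : ℝ) < l := by exact_mod_cast h1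
  have h5 := hl.mnn l i
  nlinarith

private theorem KH6_cart {i j : I} (hij : i ≠ j) (h : a i j = 0) : cart a i j = 0 := by
  unfold cart
  rw [if_neg hij, h]
  simp

private theorem KH6_cR_D (hD : StrictData a y D u) (hy : Kon a y) {x : I → ℝ}
    (hx : ∀ j, j ∉ D → y j = 0 → x j = 0) {i : I} (hi : i ∈ D) :
    cR a x i = ∑ j ∈ D, (cart a i j : ℝ) * x j := by
  unfold cR
  symm
  refine Finset.sum_subset (Finset.subset_univ D) fun j _ hj => ?_
  rcases (hy.1 j).eq_or_lt with h | h
  · rw [hx j hj h.symm, mul_zero]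
  · have hij : i ≠ j := fun e => hj (e ▸ hi)
    rw [KH6_cart hij (hD.Dsep i hi j hj h)]
    simp

private theorem KH6_cR_off (hs : ∀ i j, a i j = a j i) (hD : StrictData a y D u) {i : I}
    (hi : i ∉ D) (hyi : 0 < y i) {x x' : I → ℝ} (hx : ∀ j, j ∉ D → x j = x' j) :
    cR a x i = cR a x' i := by
  unfold cR
  refine Finset.sum_congr rfl fun j _ => ?_
  by_cases hj : j ∈ D
  · have hij : i ≠ j := fun e => hi (e ▸ hj)
    rw [KH6_cart hij (by rw [hs]; exact hD.Dsep j hj i hi hyi)]
    simp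
  · rw [hx j hj]

private theorem KH6_sumD (hs : ∀ i j, a i j = a j i) (hD : StrictData a y D u) (hy : Kon a y)
    (hl : LimData a y P m) {l : ℕ} (h1 : 1 ≤ l) : ∑ i ∈ D, y i * cR a (m l) i = 0 := by
  unfold cR
  simp only [Finset.mul_sum]
  rw [Finset.sum_comm]
  refine Finset.sum_eq_zero fun j _ => ?_
  by_cases hj : j ∈ D
  · have h2 : ∑ i ∈ D, (cart a j i : ℝ) * y i = 0 := by
      rw [← KH6_cR_D hD hy (fun j _ h => h) hj]
      exact hD.Dzero j hj
    have hc : ∀ i, cart a i j = cart a j i := by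
      intro i
      unfold cart
      rw [hs i j]
      by_cases h : i = j
      · rw [if_pos h, if_pos h.symm]
      · rw [if_neg h, if_neg fun e => h e.symm]
    calc ∑ i ∈ D, y i * ((cart a i j : ℝ) * m l j) = (∑ i ∈ D, (cart a j i : ℝ) * y i) * m l j := by
          rw [Finset.sum_mul]
          refine Finset.sum_congr rfl fun i _ => ?_
          rw [hc i]
          ring
      _ = 0 := by rw [h2, zero_mul]
  · rcases (hy.1 j).eq_or_lt with h | h
    · refine Finset.sum_eq_zero fun i _ => ?_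
      rw [KH6_mzero hl h.symm h1, mul_zero, mul_zero]
    · refine Finset.sum_eq_zero fun i hi => ?_
      have hij : i ≠ j := fun e => hj (e ▸ hi)
      rw [KH6_cart hij (hD.Dsep i hi j hj h)]
      simp

private theorem KH6_P0 (hs : ∀ i j, a i j = a j i) (hD : StrictData a y D u) (hy : Kon a y)
    (hl : LimData a y P m) {k : ℕ} (h1 : 1 ≤ k) {i : I} (hi : i ∈ D) : P k i = 0 := by
  have h2 : ∀ L, ∑ i ∈ D, y i * vacR a L m k i = 0 := by
    intro L
    unfold vacR
    simp only [Finset.mul_sum]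
    rw [Finset.sum_comm]
    refine Finset.sum_eq_zero fun l hll => ?_
    have h3 := KH6_sumD hs hD hy hl (Finset.mem_Icc.1 hll).1
    calc ∑ i ∈ D, y i * (((min k l : ℕ) : ℝ) * (-cR a (m l) i)) =
          -(((min k l : ℕ) : ℝ) * ∑ i ∈ D, y i * cR a (m l) i) := by
          rw [Finset.mul_sum, ← Finset.sum_neg_distrib]
          refine Finset.sum_congr rfl fun i _ => ?_
          ring
      _ = 0 := by rw [h3, mul_zero, neg_zero]
  have h3 : ∑ i ∈ D, y i * P k i ≤ 0 := by
    refine le_of_forall_pos_le_add fun ε hε => ?_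
    have hY : 0 ≤ ∑ i ∈ D, y i := Finset.sum_nonneg fun i _ => hy.1 i
    obtain ⟨L0, h4⟩ := hl.rel (ε / (∑ i ∈ D, y i + 1)) (by positivity)
    have h5 : ∀ i ∈ D, y i * P k i ≤ y i * vacR a (max L0 k) m k i +
        y i * (ε / (∑ i ∈ D, y i + 1)) := by
      intro i _
      rw [← mul_add]
      apply mul_le_mul_of_nonneg_left _ (hy.1 i)
      have h6 := h4 (max L0 k) (le_max_left _ _) k h1 (le_max_right _ _) i
      have h7 := (abs_le.1 h6).2
      linarith
    refine (Finset.sum_le_sum h5).trans ?_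
    rw [Finset.sum_add_distrib, h2, ← Finset.sum_mul, zero_add, zero_add]
    calc (∑ i ∈ D, y i) * (ε / (∑ i ∈ D, y i + 1)) ≤
          (∑ i ∈ D, y i + 1) * (ε / (∑ i ∈ D, y i + 1)) := by
          apply mul_le_mul_of_nonneg_right (by linarith) (by positivity)
      _ = ε := by field_simp
  have h4 : ∀ i ∈ D, 0 ≤ y i * P k i := fun i _ => mul_nonneg (hy.1 i) (hl.Pnn k i)
  have h5 := (Finset.sum_eq_zero_iff_of_nonneg h4).1 (le_antisymm h3 (Finset.sum_nonneg h4)) i hi
  exact (mul_eq_zero.1 h5).resolve_left (hD.Dpos i hi).ne'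

private theorem KH6_c (hD : StrictData a y D u) (hy : Kon a y) :
    ∃ c : ℝ, 0 < c ∧ (∀ i, c * u i ≤ y i) ∧
      ∀ i, cR a y i < 0 → c * |cR a u i| ≤ -cR a y i / 2 := by
  have key : ∀ s t : ℝ, 0 < t → ∀ᶠ c in 𝓝[>] (0 : ℝ), c * s ≤ t := by
    intro s t ht
    have h1 : Tendsto (fun c : ℝ => c * s) (𝓝[>] (0 : ℝ)) (𝓝 0) := by
      have : Tendsto (fun c : ℝ => c * s) (𝓝 (0 : ℝ)) (𝓝 (0 * s)) :=
        (continuous_id.mul continuous_const).tendsto 0
      rw [zero_mul] at this
      exact this.mono_left nhdsWithin_le_nhds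
    filter_upwards [h1.eventually_lt_const ht] with c hc
    exact hc.le
  have h1 : ∀ᶠ c in 𝓝[>] (0 : ℝ), ∀ i, c * u i ≤ y i := by
    refine Filter.eventually_all.2 fun i => ?_
    rcases (hy.1 i).eq_or_lt with h | h
    · refine Filter.Eventually.of_forall fun c => ?_
      rw [hD.usupp i h.symm, mul_zero]
      exact hy.1 i
    · exact key _ _ h
  have h2 : ∀ᶠ c in 𝓝[>] (0 : ℝ), ∀ i, cR a y i < 0 → c * |cR a u i| ≤ -cR a y i / 2 := by
    refine Filter.eventually_all.2 fun i => ?_
    by_cases h : cR a y i < 0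
    · filter_upwards [key |cR a u i| (-cR a y i / 2) (by linarith)] with c hc
      exact fun _ => hc
    · exact Filter.Eventually.of_forall fun c h' => absurd h' h
  obtain ⟨c, ⟨h3, h4⟩, h5⟩ := ((h1.and h2).and self_mem_nhdsWithin).exists
  exact ⟨c, h5, h3, h4⟩

private theorem KH6_rho (hD : StrictData a y D u) (hy : Kon a y) {c : ℝ} (hc : 0 < c)
    (hcc : ∀ i, cR a y i < 0 → c * |cR a u i| ≤ -cR a y i / 2) :
    ∃ ρ : ℝ, 0 < ρ ∧ ∀ i, i ∉ D → 0 < y i → ∀ t : ℝ, 0 ≤ t → t ≤ 1 →
      ρ * t ≤ -cR a y i + c * t * cR a u i := by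
  have key : ∀ s : ℝ, 0 < s → ∀ᶠ ρ in 𝓝[>] (0 : ℝ), ρ ≤ s := by
    intro s hs
    filter_upwards [Ioc_mem_nhdsGT hs] with ρ hρ
    exact hρ.2
  have h1 : ∀ᶠ ρ in 𝓝[>] (0 : ℝ), ∀ i, i ∉ D → 0 < y i → ∀ t : ℝ, 0 ≤ t → t ≤ 1 →
      ρ * t ≤ -cR a y i + c * t * cR a u i := by
    refine Filter.eventually_all.2 fun i => ?_
    by_cases hi : i ∉ D ∧ 0 < y i
    · rcases (hy.2 i).eq_or_lt with h | h
      · have hu := hD.upos i hi.1 hi.2 h
        filter_upwards [key (c * cR a u i) (mul_pos hc hu)] with ρ hρ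
        intro _ _ t ht _
        rw [h, neg_zero, zero_add]
        calc ρ * t ≤ (c * cR a u i) * t := mul_le_mul_of_nonneg_right hρ ht
          _ = c * t * cR a u i := by ring
      · filter_upwards [key (-cR a y i / 2) (by linarith)] with ρ hρ
        intro _ _ t ht ht1
        have h2 := hcc i h
        have h3 : -(c * |cR a u i|) ≤ c * t * cR a u i := by
          have h4 : |c * t * cR a u i| ≤ c * |cR a u i| := by
            rw [abs_mul, abs_mul, abs_of_pos hc, abs_of_nonneg ht]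
            have h5 : c * t ≤ c := by nlinarith
            exact mul_le_mul_of_nonneg_right h5 (abs_nonneg _)
          have := (abs_le.1 h4).1
          linarith
        have h6 : ρ * t ≤ -cR a y i / 2 := by
          have h7 : ρ * t ≤ (-cR a y i / 2) * t := mul_le_mul_of_nonneg_right hρ ht
          have h8 : (-cR a y i / 2) * t ≤ -cR a y i / 2 := by nlinarith
          linarith
        linarith
    · exact Filter.Eventually.of_forall fun ρ h1 h2 => absurd ⟨h1, h2⟩ hi
  obtain ⟨ρ, h2, h3⟩ := (h1.and self_mem_nhdsWithin).exists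
  exact ⟨ρ, h3, h2⟩

private theorem KH6_wzero (hD : StrictData a y D u) (hl : LimData a y P m) {i : I}
    (hi : y i = 0) (L K : ℕ) (η c : ℝ) {l : ℕ} (h1 : 1 ≤ l) : KH6_w y u m L K η c l i = 0 := by
  have h2 : massR L m i = 0 := by
    have h3 := hl.mass L i
    rw [hi] at h3
    exact le_antisymm h3 (KH6_mass_nn hl L i)
  unfold KH6_w
  rw [KH6_mzero hl hi h1, hD.usupp i hi, hi, h2]
  simp

private theorem KH6_cRw (L K : ℕ) (η c : ℝ) (l : ℕ) (i : I) :
    cR a (KH6_w y u m L K η c l) i =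
      (if l ≤ L then (1 - η) * cR a (m l) i else 0) +
      (if l = 1 then η * (cR a y i - c * cR a u i) else 0) +
      (if l = K then ((1 - η) * (cR a y i - cR a (massR L m) i) + η * (c * cR a u i)) / K else 0) := by
  have e : KH6_w y u m L K η c l =
      (if l ≤ L then (1 - η) • m l else 0) + (if l = 1 then η • (y - c • u) else 0) +
      (if l = K then ((1 / (K : ℝ)) • ((1 - η) • (y - massR L m) + (η * c) • u)) else 0) := by
    funext j
    unfold KH6_w
    simp only [Pi.add_apply]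
    congr 1
    · congr 1
      · split_ifs <;> simp
      · split_ifs <;> simp
    · split_ifs
      · simp only [Pi.smul_apply, Pi.add_apply, Pi.sub_apply, smul_eq_mul]
        ring
      · simp
  have h0 : cR a (0 : I → ℝ) i = 0 := by simp [cR]
  rw [e, cR_add, cR_add]
  congr 1
  · congr 1
    · split_ifs
      · rw [cR_smul]
      · exact h0
    · split_ifs
      · rw [cR_smul, cR_sub, cR_smul]
      · exact h0
  · split_ifs
    · rw [cR_smul, cR_add, cR_smul, cR_sub, cR_smul]
      ring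
    · exact h0

end

section

variable {a : I → I → ℕ} {y : I → ℝ} {D : Finset I} {u : I → ℝ} {P m : ℕ → I → ℝ}

private theorem KH6_vacw (L K : ℕ) (h1 : 1 ≤ L) (h2 : L < K) (η c : ℝ) (k : ℕ) (hk : 1 ≤ k)
    (hkK : k ≤ K) (i : I) :
    vacR a K (KH6_w y u m L K η c) k i = (1 - η) * (vacR a L m k i -
      ((k : ℝ) / K) * (cR a y i - cR a (massR L m) i)) +
      η * (-cR a y i + c * (1 - (k : ℝ) / K) * cR a u i) := by
  have hK0 : (K : ℝ) ≠ 0 := by
    have : 0 < K := by omega
    positivity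
  have e1 : vacR a K (KH6_w y u m L K η c) k i = ∑ l ∈ Finset.Icc 1 K, ((min k l : ℕ) : ℝ) *
      ((if l ≤ L then -((1 - η) * cR a (m l) i) else 0) +
      (if l = 1 then -(η * (cR a y i - c * cR a u i)) else 0) +
      (if l = K then -(((1 - η) * (cR a y i - cR a (massR L m) i) + η * (c * cR a u i)) / K)
        else 0)) := by
    unfold vacR
    refine Finset.sum_congr rfl fun l _ => ?_
    rw [KH6_cRw]
    congr 1
    split_ifs <;> ring
  rw [e1, KH6_sum L K h1 h2 (fun l => ((min k l : ℕ) : ℝ))]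
  have e2 : ∑ l ∈ Finset.Icc 1 L, ((min k l : ℕ) : ℝ) * -((1 - η) * cR a (m l) i) =
      (1 - η) * vacR a L m k i := by
    unfold vacR
    rw [Finset.mul_sum]
    refine Finset.sum_congr rfl fun l _ => ?_
    ring
  rw [e2, min_eq_right hk, min_eq_left hkK]
  push_cast
  field_simp
  ring

private theorem KH6_core (hs : ∀ i j, a i j = a j i) (hD : StrictData a y D u) (hy : Kon a y)
    (hl : LimData a y P m) {c ρ η e1 e2 : ℝ} {L K : ℕ} (hc0 : 0 < c) (hcu : ∀ i, c * u i ≤ y i)
    (hρ : ∀ i, i ∉ D → 0 < y i → ∀ t : ℝ, 0 ≤ t → t ≤ 1 →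
      ρ * t ≤ -cR a y i + c * t * cR a u i) (hρ0 : 0 < ρ)
    (hη0 : 0 ≤ η) (hη1 : η ≤ 1) (he1 : 0 ≤ e1) (hL : 1 ≤ L) (hLK : 2 * L ≤ K)
    (hrel : ∀ k, 1 ≤ k → k ≤ L → ∀ i, |P k i - vacR a L m k i| ≤ e1)
    (he2 : e1 + (L : ℝ) / K * (∑ i, ∑ j, |(cart a i j : ℝ)| * y j) ≤ e2)
    (h2 : 2 * e2 ≤ η * ρ) :
    Feas a K (KH6_m y u m D L K η c) y ∧ ∀ k, 1 ≤ k → k ≤ L → ∀ i, i ∉ D → 0 < y i →
      (1 - η) * P k i - e2 ≤ vacR a K (KH6_m y u m D L K η c) k i ∧
      (1 - η) * m k i ≤ KH6_m y u m D L K η c k i := by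
  have hK0' : 0 < K := by omega
  have hK0 : (0 : ℝ) < K := by exact_mod_cast hK0'
  have hLK' : L < K := by omega
  have hLKr : 2 * (L : ℝ) ≤ K := by exact_mod_cast hLK
  have hc' : ∀ i, cR a y i - cR a (massR L m) i ≤ ∑ i, ∑ j, |(cart a i j : ℝ)| * y j := by
    intro i
    rw [← cR_sub]
    have h3 : cR a (y - massR L m) i ≤ ∑ j, |(cart a i j : ℝ)| * y j := by
      unfold cR
      refine Finset.sum_le_sum fun j _ => ?_
      have h4 : 0 ≤ (y - massR L m) j := sub_nonneg.2 (hl.mass L j)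
      have h5 : (y - massR L m) j ≤ y j := by
        show y j - massR L m j ≤ y j
        have := KH6_mass_nn hl L j
        linarith
      calc (cart a i j : ℝ) * (y - massR L m) j ≤ |(cart a i j : ℝ)| * (y - massR L m) j :=
            mul_le_mul_of_nonneg_right (le_abs_self _) h4
        _ ≤ |(cart a i j : ℝ)| * y j := mul_le_mul_of_nonneg_left h5 (abs_nonneg _)
    exact h3.trans (Finset.single_le_sum (f := fun i => ∑ j, |(cart a i j : ℝ)| * y j)
      (fun i _ => Finset.sum_nonneg fun j _ => mul_nonneg (abs_nonneg _) (hy.1 j))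
      (Finset.mem_univ i))
  have hc'0 : 0 ≤ ∑ i, ∑ j, |(cart a i j : ℝ)| * y j :=
    Finset.sum_nonneg fun i _ => Finset.sum_nonneg fun j _ => mul_nonneg (abs_nonneg _) (hy.1 j)
  have he20 : 0 ≤ e2 := le_trans (by positivity) he2
  -- nonnegativity
  have hwnn : ∀ l i, 0 ≤ KH6_w y u m L K η c l i := by
    intro l i
    unfold KH6_w
    have t1 : 0 ≤ (1 - η) * m l i := mul_nonneg (by linarith) (hl.mnn l i)
    have t2 : 0 ≤ η * (y i - c * u i) := mul_nonneg hη0 (sub_nonneg.2 (hcu i))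
    have t3 : 0 ≤ ((1 - η) * (y i - massR L m i) + η * (c * u i)) / K := by
      apply div_nonneg _ hK0.le
      apply add_nonneg
      · exact mul_nonneg (by linarith) (sub_nonneg.2 (hl.mass L i))
      · exact mul_nonneg hη0 (mul_nonneg hc0.le (hD.unn i))
    split_ifs <;> linarith
  have hnn : ∀ l i, 0 ≤ KH6_m y u m D L K η c l i := by
    intro l i
    unfold KH6_m
    split_ifs
    · exact hy.1 i
    · exact le_rfl
    · exact hwnn l i
  have hmass : ∀ i, massR K (KH6_m y u m D L K η c) i = y i := by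
    intro i
    by_cases hi : i ∈ D
    · unfold massR
      rw [Finset.sum_eq_single 1]
      · simp [KH6_m, hi]
      · intro l _ hl1
        simp [KH6_m, hi, hl1]
      · intro h
        exact absurd (Finset.mem_Icc.2 ⟨le_rfl, by omega⟩) h
    · have e3 : massR K (KH6_m y u m D L K η c) i = ∑ l ∈ Finset.Icc 1 K, (l : ℝ) *
          ((if l ≤ L then (1 - η) * m l i else 0) + (if l = 1 then η * (y i - c * u i) else 0) +
          (if l = K then ((1 - η) * (y i - massR L m i) + η * (c * u i)) / K else 0)) := by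
        unfold massR
        refine Finset.sum_congr rfl fun l _ => ?_
        unfold KH6_m KH6_w massR
        rw [if_neg hi]
      rw [e3, KH6_sum L K hL hLK' (fun l => (l : ℝ))]
      have e4 : ∑ l ∈ Finset.Icc 1 L, (l : ℝ) * ((1 - η) * m l i) = (1 - η) * massR L m i := by
        unfold massR
        rw [Finset.mul_sum]
        refine Finset.sum_congr rfl fun l _ => ?_
        ring
      rw [e4]
      push_cast
      field_simp
      ring
  have hmassf : massR K (KH6_m y u m D L K η c) = y := funext hmass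
  have hm0 : ∀ l, 1 ≤ l → ∀ j, j ∉ D → y j = 0 → KH6_m y u m D L K η c l j = 0 := by
    intro l hl1 j hj hyj
    unfold KH6_m
    rw [if_neg hj]
    exact KH6_wzero hD hl hyj L K η c hl1
  -- vacancy numbers off `D`
  have hoff : ∀ k i, i ∉ D → 0 < y i → vacR a K (KH6_m y u m D L K η c) k i =
      vacR a K (KH6_w y u m L K η c) k i := by
    intro k i hi hyi
    unfold vacR
    refine Finset.sum_congr rfl fun l _ => ?_
    rw [KH6_cR_off hs hD hi hyi (x' := KH6_w y u m L K η c l) fun j hj => by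
      unfold KH6_m
      rw [if_neg hj]]
  have hbr2 : ∀ k, k ≤ K → ∀ i, i ∉ D → 0 < y i →
      ρ * (1 - (k : ℝ) / K) ≤ -cR a y i + c * (1 - (k : ℝ) / K) * cR a u i := by
    intro k hk i hi hyi
    have hkK : (k : ℝ) ≤ K := by exact_mod_cast hk
    have h3 : (k : ℝ) / K ≤ 1 := by
      rw [div_le_one hK0]
      exact hkK
    have h4 : 0 ≤ (k : ℝ) / K := by positivity
    exact hρ i hi hyi _ (by linarith) (by linarith)
  have hsmall : ∀ k, 1 ≤ k → k ≤ L → ∀ i, i ∉ D → 0 < y i →
      P k i - e2 ≤ vacR a L m k i - ((k : ℝ) / K) * (cR a y i - cR a (massR L m) i) := by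
    intro k hk hkL i _ _
    have h3 := (abs_le.1 (hrel k hk hkL i)).2
    have h4 : ((k : ℝ) / K) * (cR a y i - cR a (massR L m) i) ≤
        (L : ℝ) / K * (∑ i, ∑ j, |(cart a i j : ℝ)| * y j) := by
      have h5 : (k : ℝ) / K ≤ (L : ℝ) / K := by
        apply div_le_div_of_nonneg_right _ hK0.le
        exact_mod_cast hkL
      calc ((k : ℝ) / K) * (cR a y i - cR a (massR L m) i)
          ≤ ((k : ℝ) / K) * (∑ i, ∑ j, |(cart a i j : ℝ)| * y j) :=
            mul_le_mul_of_nonneg_left (hc' i) (by positivity)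
        _ ≤ (L : ℝ) / K * (∑ i, ∑ j, |(cart a i j : ℝ)| * y j) :=
            mul_le_mul_of_nonneg_right h5 hc'0
    linarith
  have hlarge : ∀ k, L ≤ k → k ≤ K → ∀ i, i ∉ D → 0 < y i →
      -((1 - (k : ℝ) / K) * e1) ≤
        vacR a L m k i - ((k : ℝ) / K) * (cR a y i - cR a (massR L m) i) := by
    intro k hk hkK i _ _
    have h3 : ∀ k', L ≤ k' → vacR a L m k' i = -cR a (massR L m) i := by
      intro k' hk'
      rw [← massR_sum_cR a L m i]
      unfold vacR
      rw [← Finset.sum_neg_distrib]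
      refine Finset.sum_congr rfl fun l hll => ?_
      rw [min_eq_right ((Finset.mem_Icc.1 hll).2.trans hk')]
      ring
    have h4 := (abs_le.1 (hrel L hL le_rfl i)).2
    rw [h3 L le_rfl] at h4
    have h5 := hl.Pnn L i
    rw [h3 k hk]
    have hkK' : (k : ℝ) / K ≤ 1 := by
      rw [div_le_one hK0]
      exact_mod_cast hkK
    have h6 : 0 ≤ (k : ℝ) / K := by positivity
    have h7 : 0 ≤ (1 - (k : ℝ) / K) * (-cR a (massR L m) i + e1) :=
      mul_nonneg (by linarith) (by linarith)
    have h8 : 0 ≤ (k : ℝ) / K * -cR a y i := mul_nonneg h6 (by linarith [hy.2 i])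
    nlinarith
  have he12 : e1 ≤ e2 := by
    have : 0 ≤ (L : ℝ) / K * (∑ i, ∑ j, |(cart a i j : ℝ)| * y j) := by positivity
    linarith
  refine ⟨⟨hnn, ?_, hmass, ?_⟩, ?_⟩
  · intro l i hlK
    unfold KH6_m KH6_w
    have t1 : ¬ l = 1 := by omega
    have t2 : ¬ l ≤ L := by omega
    have t3 : ¬ l = K := by omega
    rw [if_neg t1, if_neg t2, if_neg t1, if_neg t3]
    split_ifs <;> ring
  · intro k i
    rcases Nat.eq_zero_or_pos k with rfl | hk
    · unfold vacR
      simp
    rcases Nat.lt_or_ge K k with hkK | hkK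
    · have h3 : vacR a K (KH6_m y u m D L K η c) k i = -cR a y i := by
        rw [← hmassf, ← massR_sum_cR, hmassf]
        unfold vacR
        rw [← Finset.sum_neg_distrib]
        refine Finset.sum_congr rfl fun l hll => ?_
        rw [min_eq_right ((Finset.mem_Icc.1 hll).2.trans hkK.le)]
        ring
      rw [h3]
      linarith [hy.2 i]
    by_cases hi : i ∈ D
    · have h3 : ∀ l, 1 ≤ l → cR a (KH6_m y u m D L K η c l) i = 0 := by
        intro l hl1
        rw [KH6_cR_D hD hy (hm0 l hl1) hi]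
        by_cases h1 : l = 1
        · rw [← hD.Dzero i hi, KH6_cR_D hD hy (fun j _ h => h) hi]
          refine Finset.sum_congr rfl fun j hj => ?_
          unfold KH6_m
          rw [if_pos hj, if_pos h1]
        · refine Finset.sum_eq_zero fun j hj => ?_
          unfold KH6_m
          rw [if_pos hj, if_neg h1, mul_zero]
      unfold vacR
      refine (Finset.sum_eq_zero fun l hll => ?_).ge
      rw [h3 l (Finset.mem_Icc.1 hll).1, neg_zero, mul_zero]
    rcases (hy.1 i).eq_or_lt with hyi | hyi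
    · unfold vacR
      refine Finset.sum_nonneg fun l hll => ?_
      have h3 := cR_nonpos_of_zero a (KH6_m y u m D L K η c l) (hnn l) i
        (hm0 l (Finset.mem_Icc.1 hll).1 i hi hyi.symm)
      exact mul_nonneg (Nat.cast_nonneg _) (by linarith)
    · rw [hoff k i hi hyi, KH6_vacw L K hL hLK' η c k hk hkK i]
      have h3 := hbr2 k hkK i hi hyi
      have hkK' : (k : ℝ) / K ≤ 1 := by
        rw [div_le_one hK0]
        exact_mod_cast hkK
      have h4 : -(2 * e2 * (1 - (k : ℝ) / K)) ≤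
          vacR a L m k i - ((k : ℝ) / K) * (cR a y i - cR a (massR L m) i) := by
        rcases Nat.lt_or_ge L k with hk2 | hk2
        · have h5 := hlarge k hk2.le hkK i hi hyi
          have h6 : (1 - (k : ℝ) / K) * e1 ≤ 2 * e2 * (1 - (k : ℝ) / K) := by
            have : 0 ≤ 1 - (k : ℝ) / K := by linarith
            nlinarith
          linarith
        · have h5 := hsmall k hk hk2 i hi hyi
          have h6 := hl.Pnn k i
          have h7 : (k : ℝ) / K ≤ 1 / 2 := by
            rw [div_le_div_iff₀ hK0 two_pos]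
            have : (k : ℝ) ≤ L := by exact_mod_cast hk2
            linarith
          have h8 : e2 ≤ 2 * e2 * (1 - (k : ℝ) / K) := by nlinarith
          linarith
      have h5 : (1 - η) * -(2 * e2 * (1 - (k : ℝ) / K)) ≤ (1 - η) *
          (vacR a L m k i - ((k : ℝ) / K) * (cR a y i - cR a (massR L m) i)) :=
        mul_le_mul_of_nonneg_left h4 (by linarith)
      have h6 : η * (ρ * (1 - (k : ℝ) / K)) ≤
          η * (-cR a y i + c * (1 - (k : ℝ) / K) * cR a u i) :=
        mul_le_mul_of_nonneg_left h3 hη0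
      have h7 : 0 ≤ 1 - (k : ℝ) / K := by linarith
      have h8 : 0 ≤ (η * ρ - 2 * e2) * (1 - (k : ℝ) / K) := mul_nonneg (by linarith) h7
      have h9 : 0 ≤ η * (2 * e2 * (1 - (k : ℝ) / K)) := by positivity
      nlinarith
  · intro k hk hkL i hi hyi
    constructor
    · rw [hoff k i hi hyi, KH6_vacw L K hL hLK' η c k hk (by omega) i]
      have h3 := hbr2 k (by omega) i hi hyi
      have hkK' : (k : ℝ) / K ≤ 1 := by
        rw [div_le_one hK0]
        exact_mod_cast (by omega : k ≤ K)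
      have h4 := mul_le_mul_of_nonneg_left (hsmall k hk hkL i hi hyi) (by linarith : 0 ≤ 1 - η)
      have h5 : 0 ≤ -cR a y i + c * (1 - (k : ℝ) / K) * cR a u i := by
        refine le_trans ?_ h3
        exact mul_nonneg hρ0.le (by linarith)
      have h6 := mul_nonneg hη0 h5
      have h7 : 0 ≤ η * e2 := mul_nonneg hη0 he20
      nlinarith
    · unfold KH6_m KH6_w
      rw [if_neg hi, if_pos hkL]
      have t2 : 0 ≤ η * (y i - c * u i) := mul_nonneg hη0 (sub_nonneg.2 (hcu i))
      have t3 : 0 ≤ ((1 - η) * (y i - massR L m i) + η * (c * u i)) / K := by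
        apply div_nonneg _ hK0.le
        apply add_nonneg
        · exact mul_nonneg (by linarith) (sub_nonneg.2 (hl.mass L i))
        · exact mul_nonneg hη0 (mul_nonneg hc0.le (hD.unn i))
      split_ifs <;> linarith

end

theorem truncate (a : I → I → ℕ) (hs : ∀ i j, a i j = a j i) (y : I → ℝ) (hy : Kon a y)
    (D : Finset I) (u : I → ℝ) (hD : StrictData a y D u) (P m : ℕ → I → ℝ)
    (hl : LimData a y P m) (L0 : ℕ) (ε : ℝ) (hε : 0 < ε) :
    ∃ (K : ℕ) (m' : ℕ → I → ℝ), Feas a K m' y ∧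
      (∑ k ∈ Finset.Icc 1 L0, ∑ i, ent (P k i) (m k i)) - ε ≤ EntR a K m' := by
  classical
  obtain ⟨c, hc0, hcu, hcc⟩ := KH6_c hD hy
  obtain ⟨ρ, hρ0, hρ⟩ := KH6_rho hD hy hc0 hcc
  obtain ⟨F, hFd⟩ : ∃ F : ℝ × ℝ → ℝ, F = fun p => ∑ k ∈ Finset.Icc 1 L0, ∑ i,
    ent (max 0 ((1 - p.1) * P k i - p.2)) ((1 - p.1) * m k i) := ⟨_, rfl⟩
  have hF : Continuous F := by
    rw [hFd]
    refine continuous_finsetSum _ fun k _ => continuous_finsetSum _ fun i _ => ?_
    have h1 : Continuous fun p : ℝ × ℝ =>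
        (max 0 ((1 - p.1) * P k i - p.2), (1 - p.1) * m k i) := by
      refine Continuous.prodMk ?_ ?_
      · exact continuous_const.max
          (((continuous_const.sub continuous_fst).mul continuous_const).sub continuous_snd)
      · exact (continuous_const.sub continuous_fst).mul continuous_const
    exact ent_continuous.comp h1
  have hF0 : F (0, 0) = ∑ k ∈ Finset.Icc 1 L0, ∑ i, ent (P k i) (m k i) := by
    rw [hFd]
    refine Finset.sum_congr rfl fun k _ => Finset.sum_congr rfl fun i _ => ?_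
    simp only [sub_zero, one_mul]
    rw [max_eq_right (hl.Pnn k i)]
  have h1 : ∀ᶠ p in 𝓝 ((0, 0) : ℝ × ℝ), F (0, 0) - ε < F p :=
    (hF.tendsto (0, 0)).eventually_const_lt (by linarith)
  obtain ⟨δ, hδ, h2⟩ := Metric.eventually_nhds_iff.1 h1
  obtain ⟨η, hηd⟩ : ∃ η : ℝ, η = min (δ / 2) (1 / 2) := ⟨_, rfl⟩
  have hη0 : 0 < η := by rw [hηd]; exact lt_min (by linarith) (by norm_num)
  have hη1 : η ≤ 1 := by
    have : η ≤ 1 / 2 := by rw [hηd]; exact min_le_right _ _
    linarith
  have hηδ : η < δ := by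
    have : η ≤ δ / 2 := by rw [hηd]; exact min_le_left _ _
    linarith
  obtain ⟨e2, he2d⟩ : ∃ e2 : ℝ, e2 = min (δ / 2) (η * ρ / 2) := ⟨_, rfl⟩
  have he20 : 0 < e2 := by rw [he2d]; exact lt_min (by linarith) (by positivity)
  have he2ρ : 2 * e2 ≤ η * ρ := by
    have : e2 ≤ η * ρ / 2 := by rw [he2d]; exact min_le_right _ _
    linarith
  have he2δ : e2 < δ := by
    have : e2 ≤ δ / 2 := by rw [he2d]; exact min_le_left _ _
    linarith
  obtain ⟨L1, hL1⟩ := hl.rel (e2 / 2) (by linarith)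
  obtain ⟨L, hLd⟩ : ∃ L : ℕ, L = max (max L0 L1) 1 := ⟨_, rfl⟩
  have hLL0 : L0 ≤ L := by omega
  have hLL1 : L1 ≤ L := by omega
  have hL1' : 1 ≤ L := by omega
  obtain ⟨C, hCd⟩ : ∃ C : ℝ, C = ∑ i, ∑ j, |(cart a i j : ℝ)| * y j := ⟨_, rfl⟩
  obtain ⟨K0, hK0⟩ := exists_nat_ge (2 * L * C / e2)
  obtain ⟨K, hKd⟩ : ∃ K : ℕ, K = max K0 (2 * L) := ⟨_, rfl⟩
  have hKL : 2 * L ≤ K := by omega
  have hKK0 : K0 ≤ K := by omega
  have hKpos : (0 : ℝ) < K := by
    have : 0 < K := by omega
    exact_mod_cast this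
  have he2' : e2 / 2 + (L : ℝ) / K * (∑ i, ∑ j, |(cart a i j : ℝ)| * y j) ≤ e2 := by
    rw [← hCd]
    have h3 : 2 * (L : ℝ) * C / e2 ≤ K := hK0.trans (by exact_mod_cast hKK0)
    rw [div_le_iff₀ he20] at h3
    have h4 : (L : ℝ) / K * C ≤ e2 / 2 := by
      rw [div_mul_eq_mul_div, div_le_div_iff₀ hKpos two_pos]
      linarith
    linarith
  obtain ⟨hfe, hlow⟩ := KH6_core hs hD hy hl hc0 hcu hρ hρ0 hη0.le hη1 (by linarith : 0 ≤ e2 / 2)
    hL1' hKL (hL1 L hLL1) he2' he2ρ
  refine ⟨K, KH6_m y u m D L K η c, hfe, ?_⟩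
  have h3 : F (0, 0) - ε < F (η, e2) := by
    apply h2
    rw [Prod.dist_eq, Real.dist_eq, Real.dist_eq, sub_zero, sub_zero, abs_of_pos hη0,
      abs_of_pos he20]
    exact max_lt hηδ he2δ
  have h4 : F (η, e2) ≤ EntR a K (KH6_m y u m D L K η c) := by
    have h5 : ∀ k ∈ Finset.Icc 1 L0, ∀ i, ent (max 0 ((1 - η) * P k i - e2)) ((1 - η) * m k i) ≤
        ent (vacR a K (KH6_m y u m D L K η c) k i) (KH6_m y u m D L K η c k i) := by
      intro k hk i
      rw [Finset.mem_Icc] at hk
      have h6 := ent_nonneg (hfe.vac k i) (hfe.nn k i)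
      by_cases hi : i ∈ D
      · rw [KH6_P0 hs hD hy hl hk.1 hi, mul_zero, zero_sub, max_eq_left (by linarith),
          ent_zero_left]
        exact h6
      · rcases (hy.1 i).eq_or_lt with hyi | hyi
        · rw [KH6_mzero hl hyi.symm hk.1, mul_zero, ent_zero_right]
          exact h6
        · obtain ⟨h7, h8⟩ := hlow k hk.1 (hk.2.trans hLL0) i hi hyi
          exact ent_mono (le_max_left _ _) (mul_nonneg (by linarith) (hl.mnn k i))
            (max_le (hfe.vac k i) h7) h8
    rw [hFd]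
    calc ∑ k ∈ Finset.Icc 1 L0, ∑ i, ent (max 0 ((1 - η) * P k i - e2)) ((1 - η) * m k i)
        ≤ ∑ k ∈ Finset.Icc 1 L0, ∑ i, ent (vacR a K (KH6_m y u m D L K η c) k i)
          (KH6_m y u m D L K η c k i) :=
          Finset.sum_le_sum fun k hk => Finset.sum_le_sum fun i _ => h5 k hk i
      _ ≤ EntR a K (KH6_m y u m D L K η c) := by
          unfold EntR
          refine Finset.sum_le_sum_of_subset_of_nonneg ?_ ?_
          · intro k hk
            rw [Finset.mem_Icc] at hk ⊢
            omega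
          · intro k _ _
            exact Finset.sum_nonneg fun i _ => ent_nonneg (hfe.vac k i) (hfe.nn k i)
  rw [← hF0]
  linarith

end Pool.Agent.H27.KAC

end

section

/-!
KAC module KH7: continuity of the growth function on the real cone.

`PhiR_usc`: otherwise there are `z n ∈ Kon`, `dist (z n) y < 1/(n+1)`, `PhiR a (z n) > PhiR a y + ε`, and (`exists_Feas_lt`) feasible
`m n` for `z n` with entropy `> PhiR a y + ε`; `limData_exists` with `E = PhiR a y + ε`, error `ε/3`, then `truncate` with error `ε/3`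
and `le_PhiR`.
-/

set_option autoImplicit false

namespace Pool.Agent.H27.KAC

open scoped BigOperators
open Filter Topology

variable {I : Type} [Fintype I] [DecidableEq I]

theorem PhiR_usc (a : I → I → ℕ) (hs : ∀ i j, a i j = a j i) (hd : ∀ i, a i i ≠ 1)
    (y : I → ℝ) (hy : Kon a y) (ε : ℝ) (hε : 0 < ε) :
    ∃ δ : ℝ, 0 < δ ∧ ∀ z : I → ℝ, Kon a z → dist z y < δ → PhiR a z ≤ PhiR a y + ε := by
  by_contra hcon
  push Not at hcon
  have h1 : ∀ n : ℕ, ∃ z : I → ℝ, Kon a z ∧ dist z y < 1 / ((n : ℝ) + 1) ∧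
      PhiR a y + ε < PhiR a z := fun n => by
    obtain ⟨z, hz1, hz2, hz3⟩ := hcon (1 / ((n : ℝ) + 1)) (by positivity)
    exact ⟨z, hz1, hz2, hz3⟩
  choose z hzK hzd hzP using h1
  have h2 : ∀ n : ℕ, ∃ (K : ℕ) (m : ℕ → I → ℝ), Feas a K m (z n) ∧ PhiR a y + ε < EntR a K m :=
    fun n => exists_Feas_lt (hzK n) (hzP n)
  choose K m hF hE using h2
  have hzt : Tendsto z atTop (𝓝 y) := by
    rw [tendsto_iff_dist_tendsto_zero]
    exact squeeze_zero (fun _ => dist_nonneg) (fun n => (hzd n).le)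
      tendsto_one_div_add_atTop_nhds_zero_nat
  obtain ⟨P, m', hl, hlim⟩ := limData_exists a y z hzt K m hF (PhiR a y + ε) (fun n => (hE n).le)
  obtain ⟨L0, hL0⟩ := hlim (ε / 3) (by positivity)
  obtain ⟨D, u, hD⟩ := strict_exists a hs hd y hy
  obtain ⟨K', m'', hF', hE'⟩ := truncate a hs y hy D u hD P m' hl L0 (ε / 3) (by positivity)
  have h3 := hL0 L0 le_rfl
  have h4 := le_PhiR hF'
  linarith

theorem PhiR_continuousOn (a : I → I → ℕ) (hs : ∀ i j, a i j = a j i) (hd : ∀ i, a i i ≠ 1) :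
    ContinuousOn (PhiR a) {y : I → ℝ | Kon a y} := by
  rw [Metric.continuousOn_iff]
  intro y hy ε hε
  obtain ⟨δ1, hδ1, h1⟩ := PhiR_usc a hs hd y hy (ε / 2) (by positivity)
  obtain ⟨δ2, hδ2, h2⟩ := PhiR_lsc a y hy (ε / 2) (by positivity)
  refine ⟨min δ1 δ2, lt_min hδ1 hδ2, fun z hz hzy => ?_⟩
  have h3 := h1 z hz (hzy.trans_le (min_le_left _ _))
  have h4 := h2 z hz (hzy.trans_le (min_le_right _ _))
  rw [Real.dist_eq, abs_lt]
  constructor <;> linarith

end Pool.Agent.H27.KAC

end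

section

/-!
KAC module KH14: functions near a point of the real cone.

PROOF.  Otherwise there are `x n → y`, `G (x n) (v n)`, `|v n - PhiR y| ≥ ε`; `x' n` from `hG` is bounded
(`0 ≤ x' n ≤ x n`), so a subsequence converges to some `y'`; `y' ∈ Kon` (`Kon_closed`), `y' ≤ y`, the forms of `y'` and `y` are equal
(continuity), so `PhiR y = PhiR y'` (`PhiR_eq_of_form`), and `v n = PhiR (x' n) → PhiR y'` (`PhiR_continuousOn`).  Contradiction.
-/

set_option autoImplicit false

namespace Pool.Agent.H27.KAC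

open scoped BigOperators
open Filter Topology

variable {I : Type} [Fintype I] [DecidableEq I]

theorem local_K (a : I → I → ℕ) (hs : ∀ i j, a i j = a j i) (hd : ∀ i, a i i ≠ 1)
    (G : (I → ℝ) → ℝ → Prop)
    (hG : ∀ x v, G x v → ∃ x' : I → ℝ, Kon a x' ∧ (∀ i, x' i ≤ x i) ∧
      ∑ i, x i * cR a x i = ∑ i, x' i * cR a x' i ∧ v = PhiR a x')
    (y : I → ℝ) (hy : Kon a y) (ε : ℝ) (hε : 0 < ε) :
    ∃ δ : ℝ, 0 < δ ∧ ∀ x v, G x v → dist x y < δ → |v - PhiR a y| < ε := by
  by_contra hcon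
  push Not at hcon
  have hseq : ∀ n : ℕ, ∃ x v, G x v ∧ dist x y < 1 / ((n : ℝ) + 1) ∧ ε ≤ |v - PhiR a y| :=
    fun n => hcon (1 / ((n : ℝ) + 1)) (by positivity)
  choose x v hxv hdist hfar using hseq
  have hG' : ∀ n, ∃ x' : I → ℝ, Kon a x' ∧ (∀ i, x' i ≤ x n i) ∧
      ∑ i, x n i * cR a (x n) i = ∑ i, x' i * cR a x' i ∧ v n = PhiR a x' :=
    fun n => hG (x n) (v n) (hxv n)
  choose x' hK hle hform hval using hG'
  have hx : Tendsto x atTop (𝓝 y) := by
    rw [tendsto_iff_dist_tendsto_zero]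
    refine squeeze_zero (fun n => dist_nonneg) (fun n => (hdist n).le) ?_
    exact tendsto_one_div_add_atTop_nhds_zero_nat
  have hmem : ∀ n, x' n ∈ Set.Icc (0 : I → ℝ) (fun i => y i + 1) := by
    intro n
    refine ⟨fun i => (hK n).1 i, fun i => (hle n i).trans ?_⟩
    have h1 : dist (x n i) (y i) ≤ dist (x n) y := dist_le_pi_dist (x n) y i
    have h2 : (1 : ℝ) / ((n : ℝ) + 1) ≤ 1 := by
      rw [div_le_one (by positivity)]
      have : (0 : ℝ) ≤ n := Nat.cast_nonneg n
      linarith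
    have h3 : x n i - y i ≤ dist (x n i) (y i) := by
      rw [Real.dist_eq]
      exact le_abs_self _
    have h4 := hdist n
    show x n i ≤ y i + 1
    linarith
  obtain ⟨y', -, φ, hφ, hlim⟩ := isCompact_Icc.tendsto_subseq hmem
  have hxφ : Tendsto (x ∘ φ) atTop (𝓝 y) := hx.comp hφ.tendsto_atTop
  have hy' : Kon a y' :=
    (Kon_closed a).mem_of_tendsto hlim (Eventually.of_forall fun n => hK (φ n))
  have hly : ∀ i, y' i ≤ y i := by
    intro i
    exact le_of_tendsto_of_tendsto' ((tendsto_pi_nhds.1 hlim) i) ((tendsto_pi_nhds.1 hxφ) i)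
      (fun n => hle (φ n) i)
  have hcont : Continuous (fun z : I → ℝ => ∑ i, z i * cR a z i) := by
    unfold cR
    fun_prop
  have hq : ∑ i, y i * cR a y i = ∑ i, y' i * cR a y' i := by
    have h1 : Tendsto (fun n => ∑ i, (x ∘ φ) n i * cR a ((x ∘ φ) n) i) atTop
        (𝓝 (∑ i, y i * cR a y i)) := (hcont.tendsto y).comp hxφ
    have h2 : Tendsto (fun n => ∑ i, (x' ∘ φ) n i * cR a ((x' ∘ φ) n) i) atTop
        (𝓝 (∑ i, y' i * cR a y' i)) := (hcont.tendsto y').comp hlim
    refine tendsto_nhds_unique h1 (h2.congr fun n => ?_)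
    exact (hform (φ n)).symm
  have hPhi : PhiR a y = PhiR a y' := PhiR_eq_of_form a hs y y' hy hy' hly hq
  have hlimPhi : Tendsto (fun n => PhiR a ((x' ∘ φ) n)) atTop (𝓝 (PhiR a y')) := by
    have h1 : Tendsto (PhiR a) (𝓝[{y : I → ℝ | Kon a y}] y') (𝓝 (PhiR a y')) :=
      PhiR_continuousOn a hs hd y' hy'
    refine h1.comp (tendsto_nhdsWithin_iff.2 ⟨hlim, Eventually.of_forall fun n => ?_⟩)
    exact hK (φ n)
  have hv : Tendsto (fun n => |v (φ n) - PhiR a y|) atTop (𝓝 0) := by
    have h1 : Tendsto (fun n => v (φ n)) atTop (𝓝 (PhiR a y')) :=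
      hlimPhi.congr fun n => (hval (φ n)).symm
    have h2 := (h1.sub_const (PhiR a y)).abs
    rw [hPhi, sub_self, abs_zero] at h2
    rw [hPhi]
    exact h2
  have := ge_of_tendsto' hv (fun n => hfar (φ n))
  linarith

end Pool.Agent.H27.KAC

end

section

/-!
KAC module KH15: functions near an arbitrary point.

PROOF.  Fix `ε`.  Call `ξ` good if the conclusion holds for `ξ`.  `ρ_i x = x - (C x)_i e_i` (continuous).  (0) If `ξ` is not in the closure
of `{x | ∃ v, G x v}` it is good.  (1) If the reflected vector `ρ_i ξ` (`a i i = 0`) is good then so is `ξ` (`ρ_i` is continuous, `hR`).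
(2) Let `O` be the set of all vectors obtained from `ξ` by successive reflections at vertices with `a i i = 0`
(`Relation.ReflTransGen`); if one of them is good, so is `ξ`.  All are in the closure (`ρ_i` is continuous and maps `{x | ∃ v, G x v}` to
itself), hence have entries `≥ 0` (`hG`: `0 ≤ x' ≤ x`).  Let `y` be a minimum of `h(x) = ∑ x i` on the closure of `O` (compactness).
`y ∈ Kon`: for a vertex with `a i i ≥ 2` `cR a y i ≤ 0` since `y ≥ 0`; if `a i i = 0` then `ρ_i y` is in the closure of `O`, so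
`h(y) ≤ h(ρ_i y) = h(y) - cR a y i`.  By `local_K` there is `δ` for `y`; an `η ∈ O` with
`dist η y < δ/2` is good with `δ/2` and `v0 = PhiR a y`.
-/

set_option autoImplicit false

namespace Pool.Agent.H27.KAC

open scoped BigOperators
open Filter Topology

variable {I : Type} [Fintype I] [DecidableEq I]

/-- the reflection. -/
private def rho (a : I → I → ℕ) (i : I) (x : I → ℝ) : I → ℝ :=
  fun j => x j - if j = i then cR a x i else 0

private theorem continuous_cR (a : I → I → ℕ) (i : I) : Continuous (fun x : I → ℝ => cR a x i) := by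
  unfold cR
  fun_prop

private theorem continuous_rho (a : I → I → ℕ) (i : I) : Continuous (rho a i) := by
  unfold rho
  refine continuous_pi fun j => ?_
  by_cases h : j = i
  · simp only [h, if_true]
    exact (continuous_apply i).sub (continuous_cR a i)
  · simp only [h, if_false]
    exact (continuous_apply j).sub continuous_const

private theorem sum_rho (a : I → I → ℕ) (i : I) (x : I → ℝ) :
    ∑ j, rho a i x j = ∑ j, x j - cR a x i := by
  simp [rho, Finset.sum_sub_distrib]

theorem local_all (a : I → I → ℕ) (hs : ∀ i j, a i j = a j i) (hd : ∀ i, a i i ≠ 1)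
    (G : (I → ℝ) → ℝ → Prop)
    (hG : ∀ x v, G x v → ∃ x' : I → ℝ, Kon a x' ∧ (∀ i, x' i ≤ x i) ∧
      ∑ i, x i * cR a x i = ∑ i, x' i * cR a x' i ∧ v = PhiR a x')
    (hR : ∀ x v, G x v → ∀ i, a i i = 0 → G (fun j => x j - if j = i then cR a x i else 0) v)
    (ξ : I → ℝ) (ε : ℝ) (hε : 0 < ε) :
    ∃ δ : ℝ, 0 < δ ∧ ∃ v0 : ℝ, ∀ x v, G x v → dist x ξ < δ → |v - v0| < ε := by
  classical
  -- the set of points with a value
  set S : Set (I → ℝ) := {x | ∃ v, G x v} with hS
  by_cases hξ : ξ ∈ closure S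
  swap
  · -- not in the closure: vacuous
    have hopen : IsOpen (closure S)ᶜ := isClosed_closure.isOpen_compl
    obtain ⟨δ, hδ, hball⟩ := Metric.isOpen_iff.mp hopen ξ hξ
    refine ⟨δ, hδ, 0, fun x v hx hdx => ?_⟩
    exact absurd (subset_closure (show x ∈ S from ⟨v, hx⟩)) (hball (Metric.mem_ball.mpr hdx))
  -- the orbit
  let r : (I → ℝ) → (I → ℝ) → Prop := fun x x' => ∃ i, a i i = 0 ∧ x' = rho a i x
  set O : Set (I → ℝ) := {x | Relation.ReflTransGen r ξ x} with hO
  -- good points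
  let Good : (I → ℝ) → Prop := fun η =>
    ∃ δ : ℝ, 0 < δ ∧ ∃ v0 : ℝ, ∀ x v, G x v → dist x η < δ → |v - v0| < ε
  have hstep : ∀ η η', r η η' → Good η' → Good η := by
    rintro η η' ⟨i, hi, rfl⟩ ⟨δ', hδ', v0, hv0⟩
    obtain ⟨δ, hδ, hcont⟩ := Metric.continuous_iff.mp (continuous_rho a i) η δ' hδ'
    exact ⟨δ, hδ, v0, fun x v hx hdx => hv0 _ v (hR x v hx i hi) (hcont x hdx)⟩
  have hgen : ∀ ζ η, Relation.ReflTransGen r ζ η → Good η → Good ζ := by
    intro ζ η h
    induction h using Relation.ReflTransGen.head_induction_on with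
    | refl => exact id
    | head h _ ih => exact fun hg => hstep _ _ h (ih hg)
  -- the closure of `S` consists of vectors with nonnegative entries
  have hS0 : ∀ x ∈ S, ∀ i, 0 ≤ x i := by
    rintro x ⟨v, hv⟩ i
    obtain ⟨x', hx', hle, _⟩ := hG x v hv
    exact (hx'.1 i).trans (hle i)
  have hclosedpos : IsClosed {x : I → ℝ | ∀ i, 0 ≤ x i} := by
    have : {x : I → ℝ | ∀ i, 0 ≤ x i} = ⋂ i, {x : I → ℝ | 0 ≤ x i} := by
      ext x; simp
    rw [this]
    exact isClosed_iInter fun i => isClosed_le continuous_const (continuous_apply i)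
  have hcS0 : ∀ x ∈ closure S, ∀ i, 0 ≤ x i := by
    intro x hx
    exact (closure_minimal (fun x hx => hS0 x hx) hclosedpos) hx
  -- the closure of `S` is stable
  have hSrho : ∀ i, a i i = 0 → ∀ x ∈ closure S, rho a i x ∈ closure S := by
    intro i hi x hx
    have hm : Set.MapsTo (rho a i) S S := by
      rintro z ⟨v, hv⟩
      exact ⟨v, hR z v hv i hi⟩
    exact hm.closure (continuous_rho a i) hx
  have hOS : ∀ x ∈ O, x ∈ closure S := by
    intro x hx
    have hx' : Relation.ReflTransGen r ξ x := hx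
    clear hx
    induction hx' with
    | refl => exact hξ
    | tail _ h ih =>
      obtain ⟨i, hi, rfl⟩ := h
      exact hSrho i hi _ ih
  have hcOS : closure O ⊆ closure S := closure_minimal hOS isClosed_closure
  -- the closure of `O` is stable
  have hOrho : ∀ i, a i i = 0 → ∀ x ∈ closure O, rho a i x ∈ closure O := by
    intro i hi x hx
    have hm : Set.MapsTo (rho a i) O O := by
      intro z hz
      have hz' : Relation.ReflTransGen r ξ z := hz
      exact hz'.tail ⟨i, hi, rfl⟩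
    exact hm.closure (continuous_rho a i) hx
  have hξO : ξ ∈ O := Relation.ReflTransGen.refl
  -- the height
  let h : (I → ℝ) → ℝ := fun x => ∑ i, x i
  have hcont : Continuous h := by
    show Continuous (fun x : I → ℝ => ∑ i, x i)
    fun_prop
  set K0 : Set (I → ℝ) := closure O ∩ {x | h x ≤ h ξ} with hK0
  have hK0sub : K0 ⊆ Set.Icc (fun _ => 0) (fun _ => h ξ) := by
    rintro x ⟨hx1, hx2⟩
    have h0 := hcS0 x (hcOS hx1)
    refine ⟨fun i => h0 i, fun i => ?_⟩
    have h1 : x i ≤ h x := Finset.single_le_sum (f := x) (fun j _ => h0 j) (Finset.mem_univ i)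
    exact h1.trans hx2
  have hK0closed : IsClosed K0 :=
    isClosed_closure.inter (isClosed_le hcont continuous_const)
  have hK0comp : IsCompact K0 := isCompact_Icc.of_isClosed_subset hK0closed hK0sub
  have hK0ne : K0.Nonempty := ⟨ξ, subset_closure hξO, le_refl (h ξ)⟩
  obtain ⟨y, hy, hmin⟩ := hK0comp.exists_isMinOn hK0ne hcont.continuousOn
  have hmin' : ∀ z ∈ closure O, h y ≤ h z := by
    intro z hz
    by_cases hz' : h z ≤ h ξ
    · exact hmin (show z ∈ K0 from ⟨hz, hz'⟩)
    · exact hy.2.trans (le_of_lt (not_le.mp hz'))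
  have hy0 : ∀ i, 0 ≤ y i := hcS0 y (hcOS hy.1)
  have hyK : Kon a y := by
    refine ⟨hy0, fun i => ?_⟩
    by_cases hi : a i i = 0
    · have h1 := hmin' _ (hOrho i hi y hy.1)
      have h2 : h (rho a i y) = h y - cR a y i := sum_rho a i y
      rw [h2] at h1
      linarith
    · have h2 : 2 ≤ a i i := by
        have := hd i
        omega
      unfold cR
      refine Finset.sum_nonpos fun j _ => ?_
      refine mul_nonpos_of_nonpos_of_nonneg ?_ (hy0 j)
      have hc : cart a i j ≤ 0 := by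
        unfold cart
        by_cases hij : i = j
        · subst hij
          simp only [if_true]
          have : (2 : ℤ) ≤ (a i i : ℤ) := by exact_mod_cast h2
          linarith
        · simp only [hij, if_false]
          have : (0 : ℤ) ≤ (a i j : ℤ) := by positivity
          linarith
      exact_mod_cast hc
  obtain ⟨δ, hδ, hloc⟩ := local_K a hs hd G hG y hyK ε hε
  obtain ⟨η, hηO, hηd⟩ := Metric.mem_closure_iff.mp hy.1 (δ / 2) (by linarith)
  have hgood : Good η := by
    refine ⟨δ / 2, by linarith, PhiR a y, fun x v hx hdx => hloc x v hx ?_⟩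
    calc dist x y ≤ dist x η + dist η y := dist_triangle _ _ _
      _ < δ / 2 + δ / 2 := by
        rw [dist_comm η y]
        exact add_lt_add hdx hηd
      _ = δ := by ring
  exact hgen ξ η hηO hgood

end Pool.Agent.H27.KAC

end

section

/-!
KAC ADE, module AG14: class independence.

`tau_class`: `k ≥ 1`: `TV_rep` with `N = A`, `κ = k`, `σ = k + 1`, `v = q - q'` on `A`; the exponents on `A` at level `k` are
`T.E + C_A q`, `solN = q + solN(T.E) > q - q'`.  `k = 0`: `TV_lev0`.

`Rv_class`: by `raw_pos` only the `m` with `m ≠ 0` and `q x < m x` whenever `m x ≠ 0` contribute; they correspond to the `m'` for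
`q'` with the same support `M` and `m' - q' = m - q` on `M` (integer, positive, `m' x > q' x > 0`); the two raw terms have the same
columns and differ by the insertion `η^{-q}`, `η^{-q'}` on `N = {m = 0}`: `TV_rep` on `N` with `v = q - q'`, the exponents on `N` at level `k`
are `T.E + C_N q + a_NM (m - q)`, `solN = q + solN (T.E + a_NM δ)`.  Use `sum_raw_bound` to make the bounds large.
-/

set_option autoImplicit false

namespace Pool.Agent.H27.KAC

open scoped BigOperators

section

variable {I : Type} [Fintype I] [DecidableEq I]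

/-- exponents of `blkT`. -/
theorem AG14_blkE (a : I → I → ℕ) (hs : ∀ i j, a i j = a j i) (A : Finset I) (k σ : ℕ)
    (q : I → ℚ) (T : Trm I) (i : I) (l : ℕ) :
    (blkT a A k σ q T).E (i, l) = T.E (i, l) + (if l = k then cqN a A q i else 0) := by
  have h1 : (blkT a A k σ q T).E = (T.eta a k (fun i => -resQ A q i)).E := rfl
  rw [h1, eta_eq_etaM, etaM_E, sub_eq_add_neg]
  congr 1
  by_cases h : l = k
  · rw [if_pos h]
    subst h
    rw [Finset.filter_true_of_mem (fun _ _ => rfl), ← Finset.sum_neg_distrib]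
    unfold cqN resQ
    have h2 : ∀ x : I, -(-(if x ∈ A then q x else 0) * ((cart a x i : ℤ) : ℚ)) =
        if x ∈ A then ((cart a i x : ℤ) : ℚ) * q x else 0 := by
      intro x
      by_cases hx : x ∈ A
      · rw [if_pos hx, if_pos hx, AE8_cart_comm hs x i]
        ring
      · rw [if_neg hx, if_neg hx]
        ring
    rw [Finset.sum_congr rfl fun x _ => h2 x, ← Finset.sum_filter, Finset.filter_mem_eq_inter,
      Finset.univ_inter]
  · rw [if_neg h, Finset.filter_false_of_mem (fun _ _ => fun h' => h h'.symm), Finset.sum_empty,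
      neg_zero]

theorem AG14_q_pos (a : I → I → ℕ) (hs : ∀ i j, a i j = a j i) (A : Finset I) (hA : FinT a A)
    (q : I → ℚ) (hq : QOk a A q) : ∀ x ∈ A, 0 < q x := by
  intro x hx
  rw [← solN_cqN hs hA q x hx]
  have h1 : solN a A (cqN a A q) = solN a A (fun i => if i ∈ A then cqN a A q i else 0) := by
    refine solN_congr hs hA _ _ fun i hi => ?_
    rw [if_pos hi]
  rw [h1]
  refine solN_pos_self hs hA _ (fun i hi => ?_) x hx ?_
  · beta_reduce
    rw [if_pos hi]
    obtain ⟨n, hn, h2⟩ := hq i hi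
    rw [h2]
    exact Nat.cast_nonneg n
  · rw [if_pos hx]
    obtain ⟨n, hn, h2⟩ := hq x hx
    rw [h2]
    exact_mod_cast hn

theorem AG14_intv (A : Finset I) (q q' : I → ℚ) (h : ∀ x ∈ A, IsZ (q x - q' x)) (P : I → Prop)
    [DecidablePred P] : ∃ v : I → ℤ, (∀ i, ¬ (i ∈ A ∧ P i) → v i = 0) ∧
      ∀ x ∈ A, P x → (v x : ℚ) = q x - q' x := by
  classical
  have h1 : ∀ i, ∃ n : ℤ, (i ∈ A → q i - q' i = n) := by
    intro i
    by_cases hi : i ∈ A
    · obtain ⟨n, hn⟩ := h i hi
      exact ⟨n, fun _ => hn⟩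
    · exact ⟨0, fun h' => absurd h' hi⟩
  choose v hv using h1
  refine ⟨fun i => if i ∈ A ∧ P i then v i else 0, fun i hi => if_neg hi, fun x hx hp => ?_⟩
  beta_reduce
  rw [if_pos ⟨hx, hp⟩]
  exact (hv x hx).symm

theorem blk_class (a : I → I → ℕ) (hs : ∀ i j, a i j = a j i) (A : Finset I) (hA : FinT a A)
    (k σ : ℕ) (hk : 1 ≤ k) (hσ : Side k σ) (q q' : I → ℚ) (hq : QOk a A q) (hq' : QOk a A q')
    (h : ∀ x ∈ A, IsZ (q x - q' x)) (T : Trm I) (hT : RReg A T) :
    TV a (blkT a A k σ q T) = TV a (blkT a A k σ q' T) := by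
  obtain ⟨v, hv0, hv⟩ := AG14_intv A q q' h (fun _ => True)
  have hq0 := AG14_q_pos a hs A hA q hq
  have hq0' := AG14_q_pos a hs A hA q' hq'
  have hnat : ∀ x ∈ A, ∀ l, 1 ≤ l → IsN ((blkT a A k σ q T).E (x, l)) ∧
      T.E (x, l) ≤ (blkT a A k σ q T).E (x, l) := by
    intro x hx l hl
    rw [AG14_blkE a hs]
    obtain ⟨n, hn⟩ := hT.nat x hx l hl
    by_cases hlk : l = k
    · rw [if_pos hlk]
      obtain ⟨n', h1, h2⟩ := hq x hx
      rw [hn, h2]
      exact ⟨⟨n + n', by push_cast; ring⟩, by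
        have : (0 : ℚ) ≤ n' := Nat.cast_nonneg n'
        linarith⟩
    · rw [if_neg hlk, hn, add_zero]
      exact ⟨⟨n, rfl⟩, le_rfl⟩
  have hreg : ∀ x ∈ A, FReg (blkT a A k σ q T) x k σ := by
    intro x hx
    refine ⟨fun l hl _ => (hnat x hx l hl).1, ?_, fun j l hl hne => ?_⟩
    · obtain ⟨n, hn⟩ := (hnat x hx k hk).1
      exact ⟨(n : ℤ), by rw [hn]; push_cast; rfl⟩
    · have h1 : (blkT a A k σ q T).Λ j = if j ∈ A then sy j σ else T.Λ j := rfl
      rw [h1] at hne
      by_cases hj : j ∈ A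
      · rw [if_pos hj, Finsupp.single_apply] at hne
        left
        by_contra hc
        apply hne
        rw [if_neg]
        intro h'
        exact hc (Prod.ext_iff.1 h').2.symm
      · rw [if_neg hj] at hne
        exact Or.inr (Or.inr ((hT.col x hx j hj l hl hne).trans (hnat x hx l hl).2))
  have hsol : ∀ x ∈ A, q x ≤ solN a A (fun i => (blkT a A k σ q T).E (i, k)) x := by
    intro x hx
    have h1 : (fun i => (blkT a A k σ q T).E (i, k)) =
        fun i => T.E (i, k) + cqN a A q i := by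
      funext i
      rw [AG14_blkE a hs, if_pos rfl]
    rw [h1, solN_add hs hA, solN_cqN hs hA q x hx]
    have h2 : 0 ≤ solN a A (fun i => T.E (i, k)) x := by
      refine solN_nonneg hs hA _ (fun i hi => ?_) x
      obtain ⟨n, hn⟩ := hT.nat i hi k hk
      rw [hn]
      exact Nat.cast_nonneg n
    linarith
  rw [TV_rep a hs A hA (fun _ => k) (fun _ => σ) (fun _ _ => hk) (fun _ _ _ _ _ => rfl)
    (fun _ _ => hσ) (blkT a A k σ q T) hreg (fun x hx => (hq0 x hx).trans_le (hsol x hx)) v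
    (fun i hi => hv0 i (fun h' => hi h'.1)) (fun x hx => by
      rw [hv x hx trivial]
      have := hsol x hx
      have := hq0' x hx
      linarith)]
  congr 1
  refine Trm.ext ?_ ?_ rfl
  · funext i
    show T.γ i - (k : ℚ) * (-resQ A q i) - (k : ℚ) * (v i : ℚ) = T.γ i - (k : ℚ) * (-resQ A q' i)
    unfold resQ
    by_cases hi : i ∈ A
    · rw [if_pos hi, if_pos hi, hv i hi trivial]
      ring
    · rw [if_neg hi, if_neg hi, hv0 i (fun h' => hi h'.1)]
      push_cast
      ring
  · show T.E - (∑ x, (-resQ A q x) • cE a x k) - (∑ x, (v x : ℚ) • cE a x k) =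
      T.E - ∑ x, (-resQ A q' x) • cE a x k
    rw [sub_sub, ← Finset.sum_add_distrib]
    congr 1
    refine Finset.sum_congr rfl fun x _ => ?_
    rw [← add_smul]
    congr 1
    unfold resQ
    by_cases hi : x ∈ A
    · rw [if_pos hi, if_pos hi, hv x hi trivial]
      ring
    · rw [if_neg hi, if_neg hi, hv0 x (fun h' => hi h'.1)]
      push_cast
      ring

theorem AG14_tau0 (a : I → I → ℕ) (B : Finset I) (q : I → ℚ) (T : Trm I) :
    TV a (tauT a B 0 q T) = TV a (T.cols B (fun x => sy x 1)) := by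
  apply TV_lev0
  · funext i
    show T.γ i - ((0 : ℕ) : ℚ) * (-resQ B q i) = T.γ i
    push_cast
    ring
  · intro i k hk
    show (T.E - ∑ x, (-resQ B q x) • cE a x 0) (i, k) = T.E (i, k)
    rw [Finsupp.sub_apply, Finsupp.finsetSum_apply, Finset.sum_eq_zero, sub_zero]
    intro x _
    unfold cE
    rw [Finsupp.smul_apply, Finsupp.finsetSum_apply, Finset.sum_eq_zero, smul_zero]
    intro j _
    rw [Finsupp.smul_apply, Finsupp.single_apply, if_neg, smul_zero]
    intro h
    have := (Prod.mk.inj h).2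
    omega
  · intro j i k _
    rfl

theorem tau_class (a : I → I → ℕ) (hs : ∀ i j, a i j = a j i) (A : Finset I) (hA : FinT a A)
    (k : ℕ) (q q' : I → ℚ) (hq : QOk a A q) (hq' : QOk a A q')
    (h : ∀ x ∈ A, IsZ (q x - q' x)) (T : Trm I) (hT : RReg A T) :
    TV a (tauT a A k q T) = TV a (tauT a A k q' T) := by
  by_cases hk : 1 ≤ k
  · exact blk_class a hs A hA k (k + 1) hk (Or.inl rfl) q q' hq hq' h T hT
  · have hk0 : k = 0 := by omega
    subst hk0
    rw [AG14_tau0, AG14_tau0]

/-- change of the multiplicities. -/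
noncomputable def AG14_ph (q q' : I → ℚ) (m : I → ℕ) (x : I) : ℕ :=
  if m x = 0 then 0 else ⌊(m x : ℚ) - q x + q' x⌋₊

theorem AG14_key (a : I → I → ℕ) (hs : ∀ i j, a i j = a j i) (A : Finset I) (hA : FinT a A)
    (hc : ConnS a A) (k : ℕ) (hk : 1 ≤ k) (q q' : I → ℚ) (hq : QOk a A q) (hq' : QOk a A q')
    (h : ∀ x ∈ A, IsZ (q x - q' x)) (T : Trm I) (hT : RReg A T) (m : I → ℕ)
    (hm0 : ∀ i, i ∉ A → m i = 0) (hm : ¬ Plat A q m) (hne : TV a (rawT a A k q m T) ≠ 0) :
    (∀ x ∈ A, m x ≠ 0 → ((AG14_ph q q' m x : ℕ) : ℚ) = (m x : ℚ) - q x + q' x ∧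
      AG14_ph q q' m x ≠ 0) ∧
    TV a (rawT a A k q m T) = TV a (rawT a A k q' (AG14_ph q q' m) T) ∧
    sgm A m = sgm A (AG14_ph q q' m) ∧ ¬ Plat A q' (AG14_ph q q' m) ∧
    AG14_ph q' q (AG14_ph q q' m) = m := by
  have hq0 := AG14_q_pos a hs A hA q hq
  have hq0' := AG14_q_pos a hs A hA q' hq'
  have hpos := raw_pos a hs A hA hc k hk q hq T hT m hm hne
  have hval : ∀ x ∈ A, m x ≠ 0 → ((AG14_ph q q' m x : ℕ) : ℚ) = (m x : ℚ) - q x + q' x ∧
      AG14_ph q q' m x ≠ 0 := by
    intro x hx hmx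
    obtain ⟨n, hn⟩ := h x hx
    have h1 : (m x : ℚ) - q x + q' x = (((m x : ℤ) - n : ℤ) : ℚ) := by
      push_cast
      linarith
    have h2 : 0 < (m x : ℚ) - q x + q' x := by
      have := hpos x hx hmx
      have := hq0' x hx
      linarith
    have h3 : 0 < (m x : ℤ) - n := by
      rw [h1] at h2
      exact_mod_cast h2
    obtain ⟨r, hr⟩ := Int.eq_ofNat_of_zero_le h3.le
    have h4 : AG14_ph q q' m x = r := by
      unfold AG14_ph
      rw [if_neg hmx, h1, hr]
      push_cast
      exact Nat.floor_natCast r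
    refine ⟨?_, ?_⟩
    · rw [h4, h1, hr]
      push_cast
      rfl
    · rw [h4]
      intro h5
      rw [hr, h5] at h3
      exact lt_irrefl _ h3
  have hz : ∀ x, m x = 0 → AG14_ph q q' m x = 0 := by
    intro x hx
    unfold AG14_ph
    rw [if_pos hx]
  have hz' : ∀ x ∈ A, (m x = 0 ↔ AG14_ph q q' m x = 0) := by
    intro x hx
    refine ⟨hz x, fun h1 => ?_⟩
    by_contra h2
    exact (hval x hx h2).2 h1
  refine ⟨hval, ?_, ?_, ?_, ?_⟩
  · -- the replacement
    set N : Finset I := A.filter (fun x => m x = 0) with hNdef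
    have hNA : N ⊆ A := Finset.filter_subset _ _
    have hNmem : ∀ x, x ∈ N ↔ x ∈ A ∧ m x = 0 := fun x => Finset.mem_filter
    obtain ⟨v, hv0, hv⟩ := AG14_intv A q q' h (fun x => m x = 0)
    have hN : FinT a N := hA.mono hNA
    have hsol : ∀ x ∈ N, q x ≤ solN a N (fun i => (rawT a A k q m T).E (i, k)) x := by
      intro x hx
      have h1 : solN a N (fun i => (rawT a A k q m T).E (i, k)) =
          solN a N (fun i => (T.E (i, k) + ∑ j ∈ A.filter (fun j => ¬ m j = 0),
            (a i j : ℚ) * ((m j : ℚ) - q j)) + cqN a N q i) := by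
        refine solN_congr hs hN _ _ fun i hi => ?_
        beta_reduce
        rw [AE8_rawE a hs, if_pos rfl, add_assoc, sub_eq_add_neg]
        congr 1
        unfold cqN
        rw [AE8_split A m, neg_add, add_comm]
        congr 1
        · rw [← Finset.sum_neg_distrib]
          refine Finset.sum_congr rfl fun j hj => ?_
          have hij : i ≠ j := by
            intro e
            rw [Finset.mem_filter] at hj
            exact hj.2 (e ▸ ((hNmem i).1 hi).2)
          rw [AE8_cart_ne a hij]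
          ring
        · rw [← Finset.sum_neg_distrib]
          refine Finset.sum_congr rfl fun j hj => ?_
          beta_reduce
          rw [((hNmem j).1 hj).2]
          push_cast
          ring
      rw [h1, solN_add hs hN, solN_cqN hs hN q x hx]
      have h2 : 0 ≤ solN a N (fun i => T.E (i, k) + ∑ j ∈ A.filter (fun j => ¬ m j = 0),
            (a i j : ℚ) * ((m j : ℚ) - q j)) x := by
        refine solN_nonneg hs hN _ (fun i hi => ?_) x
        obtain ⟨n, hn⟩ := hT.nat i (hNA hi) k hk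
        beta_reduce
        rw [hn]
        refine add_nonneg (Nat.cast_nonneg n) (Finset.sum_nonneg fun j hj => ?_)
        rw [Finset.mem_filter] at hj
        refine mul_nonneg (Nat.cast_nonneg _) ?_
        have := hpos j hj.1 hj.2
        linarith
      linarith
    rw [TV_rep a hs N hN (fun _ => k) (fun _ => k - 1) (fun _ _ => hk) (fun _ _ _ _ _ => rfl)
      (fun _ _ => Or.inr (by omega)) (rawT a A k q m T)
      (fun x hx => AE8_FReg a hs A k hk q hq T hT m x (hNA hx))
      (fun x hx => (hq0 x (hNA hx)).trans_le (hsol x hx)) v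
      (fun i hi => hv0 i (fun h' => hi ((hNmem i).2 h'))) (fun x hx => by
        rw [hv x (hNA hx) ((hNmem x).1 hx).2]
        have := hsol x hx
        have := hq0' x (hNA hx)
        linarith)]
    have hins : ∀ i, (if i ∈ A then (m i : ℚ) - q i else 0) + (v i : ℚ) =
        if i ∈ A then ((AG14_ph q q' m i : ℕ) : ℚ) - q' i else 0 := by
      intro i
      by_cases hi : i ∈ A
      · rw [if_pos hi, if_pos hi]
        by_cases hmi : m i = 0
        · rw [hv i hi hmi, hmi, hz i hmi]
          push_cast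
          ring
        · rw [hv0 i (fun h' => hmi h'.2), (hval i hi hmi).1]
          push_cast
          ring
      · rw [if_neg hi, if_neg hi, hv0 i (fun h' => hi h'.1)]
        push_cast
        ring
    congr 1
    refine Trm.ext ?_ ?_ ?_
    · funext i
      show T.γ i - (k : ℚ) * (if i ∈ A then (m i : ℚ) - q i else 0) - (k : ℚ) * (v i : ℚ) =
        T.γ i - (k : ℚ) * (if i ∈ A then ((AG14_ph q q' m i : ℕ) : ℚ) - q' i else 0)
      rw [← hins i]
      ring
    · show T.E - (∑ x, (if x ∈ A then (m x : ℚ) - q x else 0) • cE a x k) -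
        (∑ x, (v x : ℚ) • cE a x k) =
        T.E - ∑ x, (if x ∈ A then ((AG14_ph q q' m x : ℕ) : ℚ) - q' x else 0) • cE a x k
      rw [sub_sub, ← Finset.sum_add_distrib]
      congr 1
      refine Finset.sum_congr rfl fun x _ => ?_
      rw [← add_smul, hins x]
    · funext j
      show (if j ∈ A then (if m j = 0 then sy j (k - 1) else cE a j k) else T.Λ j) =
        if j ∈ A then (if AG14_ph q q' m j = 0 then sy j (k - 1) else cE a j k) else T.Λ j
      by_cases hj : j ∈ A
      · rw [if_pos hj, if_pos hj]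
        by_cases hmj : m j = 0
        · rw [if_pos hmj, if_pos (hz j hmj)]
        · rw [if_neg hmj, if_neg (hval j hj hmj).2]
      · rw [if_neg hj, if_neg hj]
  · unfold sgm
    congr 2
    exact Finset.filter_congr fun x hx => hz' x hx
  · intro hpl
    apply hm
    intro x hx
    by_cases hmx : m x = 0
    · exact Or.inl hmx
    · exfalso
      rcases hpl x hx with h1 | h1
      · exact (hval x hx hmx).2 h1
      · rw [(hval x hx hmx).1] at h1
        have := hpos x hx hmx
        linarith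
  · funext x
    by_cases hx : x ∈ A
    · by_cases hmx : m x = 0
      · unfold AG14_ph
        rw [if_pos hmx, if_pos rfl, hmx]
      · obtain ⟨h1, h2⟩ := hval x hx hmx
        show (if AG14_ph q q' m x = 0 then 0 else
          ⌊((AG14_ph q q' m x : ℕ) : ℚ) - q' x + q x⌋₊) = m x
        rw [if_neg h2, h1]
        have h3 : (m x : ℚ) - q x + q' x - q' x + q x = m x := by ring
        rw [h3]
        exact Nat.floor_natCast (m x)
    · have hmx := hm0 x hx
      unfold AG14_ph
      rw [if_pos hmx, if_pos rfl, hmx]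

theorem AG14_box (A : Finset I) (B : ℕ) (m : I → ℕ) :
    m ∈ mbox A B ↔ (∀ x ∈ A, m x ≤ B) ∧ ∀ i, i ∉ A → m i = 0 := by
  unfold mbox
  rw [Fintype.mem_piFinset]
  constructor
  · intro h
    refine ⟨fun x hx => ?_, fun i hi => ?_⟩
    · have := h x
      rw [if_pos hx, Finset.mem_range] at this
      omega
    · have := h i
      rw [if_neg hi, Finset.mem_singleton] at this
      exact this
  · intro h i
    by_cases hi : i ∈ A
    · rw [if_pos hi, Finset.mem_range]
      have := h.1 i hi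
      omega
    · rw [if_neg hi, Finset.mem_singleton]
      exact h.2 i hi

theorem AG14_box_of (a : I → I → ℕ) (hs : ∀ i j, a i j = a j i) (A : Finset I) (hA : FinT a A)
    (hc : ConnS a A) (k : ℕ) (hk : 1 ≤ k) (q q' : I → ℚ) (hq : QOk a A q) (hq' : QOk a A q')
    (h : ∀ x ∈ A, IsZ (q x - q' x)) (T : Trm I) (hT : RReg A T) (m : I → ℕ)
    (hm0 : ∀ i, i ∉ A → m i = 0) (hm : ¬ Plat A q m) (hne : TV a (rawT a A k q m T) ≠ 0) :
    AG14_ph q q' m ∈ mbox A (bnd A k q' T) := by
  obtain ⟨-, h2, -⟩ := AG14_key a hs A hA hc k hk q q' hq hq' h T hT m hm0 hm hne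
  rw [AG14_box]
  refine ⟨fun x hx => ?_, fun i hi => ?_⟩
  · by_contra h3
    apply hne
    rw [h2]
    exact rawT_zero_of_large a A k hk q' _ T x hx (by omega)
  · unfold AG14_ph
    rw [if_pos (hm0 i hi)]

theorem Rv_class (a : I → I → ℕ) (hs : ∀ i j, a i j = a j i) (A : Finset I) (hA : FinT a A)
    (hc : ConnS a A) (k : ℕ) (hk : 1 ≤ k) (q q' : I → ℚ) (hq : QOk a A q) (hq' : QOk a A q')
    (h : ∀ x ∈ A, IsZ (q x - q' x)) (T : Trm I) (hT : RReg A T) :
    Rv a A k q T = Rv a A k q' T := by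
  classical
  have h' : ∀ x ∈ A, IsZ (q' x - q x) := by
    intro x hx
    obtain ⟨n, hn⟩ := h x hx
    exact ⟨-n, by push_cast; linarith⟩
  unfold Rv
  refine Finset.sum_bij_ne_zero (fun m _ _ => AG14_ph q q' m) ?_ ?_ ?_ ?_
  · intro m hm hne
    rw [Finset.mem_filter] at hm
    have hm0 := ((AG14_box A _ m).1 hm.1).2
    have hne' := right_ne_zero_of_mul hne
    rw [Finset.mem_filter]
    exact ⟨AG14_box_of a hs A hA hc k hk q q' hq hq' h T hT m hm0 hm.2 hne',
      (AG14_key a hs A hA hc k hk q q' hq hq' h T hT m hm0 hm.2 hne').2.2.2.1⟩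
  · intro m hm hne m' hm' hne' heq
    rw [Finset.mem_filter] at hm hm'
    have h1 := (AG14_key a hs A hA hc k hk q q' hq hq' h T hT m
      ((AG14_box A _ m).1 hm.1).2 hm.2 (right_ne_zero_of_mul hne)).2.2.2.2
    have h2 := (AG14_key a hs A hA hc k hk q q' hq hq' h T hT m'
      ((AG14_box A _ m').1 hm'.1).2 hm'.2 (right_ne_zero_of_mul hne')).2.2.2.2
    rw [← h1, ← h2]
    exact congrArg (AG14_ph q' q) heq
  · intro m hm hne
    rw [Finset.mem_filter] at hm
    have hm0 := ((AG14_box A _ m).1 hm.1).2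
    have hne' := right_ne_zero_of_mul hne
    obtain ⟨-, h2, h3, h4, h5⟩ :=
      AG14_key a hs A hA hc k hk q' q hq' hq h' T hT m hm0 hm.2 hne'
    refine ⟨AG14_ph q' q m, ?_, ?_, h5⟩
    · rw [Finset.mem_filter]
      exact ⟨AG14_box_of a hs A hA hc k hk q' q hq' hq h' T hT m hm0 hm.2 hne', h4⟩
    · rw [← h2, ← h3]
      exact hne
  · intro m hm hne
    rw [Finset.mem_filter] at hm
    obtain ⟨-, h2, h3, -⟩ := AG14_key a hs A hA hc k hk q q' hq hq' h T hT m
      ((AG14_box A _ m).1 hm.1).2 hm.2 (right_ne_zero_of_mul hne)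
    rw [← h2, ← h3]

theorem Resp.change_class (a : I → I → ℕ) (hs : ∀ i j, a i j = a j i) (cd : CrossData a)
    (A : Finset I) (hA : FinT a A) (hc : ConnS a A) (q q' : I → ℚ) (hq : QOk a A q)
    (hq' : QOk a A q') (h : ∀ x ∈ A, IsZ (q x - q' x)) (K : ℕ) (w : ℕ → ℚ) (Φ : ℕ → FFn I)
    (hr : Resp a cd A q K w Φ) : Resp a cd A q' K w Φ := by
  refine ⟨fun f hf c hc' => ?_, fun T hT => ?_, fun f h1 h2 T hT => ?_, fun f h1 h2 T hT hk => ?_⟩
  · obtain ⟨h1, h2, h3, h4, h5, h6⟩ := hr.win f hf c hc'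
    refine ⟨h1, h2, h3, h4, h5, fun x hx => ?_⟩
    obtain ⟨n, hn⟩ := h6 x hx
    obtain ⟨n', hn'⟩ := h x hx
    exact ⟨n + n', by push_cast; linarith⟩
  · rw [hr.a0 T hT, tau_class a hs A hA 0 q q' hq hq' h T hT]
  · rw [hr.stp f h1 h2 T hT, Rv_class a hs A hA hc f h1 q q' hq hq' h T hT]
  · rw [hr.knk f h1 h2 T hT hk, tau_class a hs A hA f q q' hq hq' h T hT]

theorem Resp.val {a : I → I → ℕ} {cd : CrossData a} {A : Finset I} {q : I → ℚ} {K : ℕ}
    {w : ℕ → ℚ} {Φ : ℕ → FFn I} (hr : Resp a cd A q K w Φ) (f : ℕ) (hf : f ≤ K) (T : Trm I)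
    (hT : RReg A T) : evF a A (Φ f) T =
      w 0 * TV a (tauT a A 0 q T) + ∑ l ∈ Finset.Icc 1 f, w l * Rv a A l q T := by
  induction f with
  | zero => rw [hr.a0 T hT, Finset.Icc_eq_empty (by omega), Finset.sum_empty, add_zero]
  | succ f ih =>
    have h1 := hr.stp (f + 1) (by omega) hf T hT
    rw [Nat.add_sub_cancel, ih (by omega)] at h1
    rw [Finset.sum_Icc_succ_top (by omega), ← add_assoc, ← h1]
    ring

end

end Pool.Agent.H27.KAC

end

section

/-!
KAC ADE, module AN1: the test terms for the response numbers.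

`tT0`: all exponents zero, `γ = 0`, columns `(j,1)`.
`tT1 v`: multiplied by `η_{·,m}^{-v}`, `v` integral on `A` with `C_A v ≥ 1`, so that it has a kink at level `m = mm A`.

`tau0_T1`: `cd.cr` with `k = mm A` for `tT1` and for `tT0`, and `TV_rep` (`N = A`, `κ = mm A`, `σ = mm A - 1`, shift `v`; the exponents of
`upT a A m q (tT1 v)` on `A` at level `m` are `C_A q + C_A v`, so `solN = q + v > v`).
`taus_T1`: `cd.rv` with `l = mm A`.
`tau_T0`: `Resp.val` for `TauFam_all`, all restart parts vanish on `tT0` (`raw_pos`: `γ` becomes negative, `TV_neg`).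
`tau_T0_int`: the insertion exponents on the columns and monomials: write the value as a coefficient at a `γ` with support in `A`; the
series `uS a j k`, `j ∉ A`, have constant coefficient one and all other monomials contain `X_j` (so their rational powers do not contribute),
for `j ∈ A` the exponents `(C_A q)_j` are natural numbers; `uS_int`.
-/

set_option autoImplicit false

namespace Pool.Agent.H27.KAC

open scoped BigOperators

section

variable {I : Type} [Fintype I] [DecidableEq I]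

private theorem AN1_cart_symm (a : I → I → ℕ) (hs : ∀ i j, a i j = a j i) (x y : I) :
    cart a x y = cart a y x := by
  unfold cart
  rw [hs x y]
  by_cases h : x = y
  · rw [if_pos h, if_pos h.symm]
  · rw [if_neg h, if_neg (fun e => h e.symm)]

private theorem AN1_eta_E (a : I → I → ℕ) (k : ℕ) (δ : I → ℚ) (T : Trm I) (i : I) (l : ℕ) :
    (T.eta a k δ).E (i, l) = T.E (i, l) - if l = k then ∑ x, δ x * (cart a x i : ℚ) else 0 := by
  rw [eta_eq_etaM, etaM_E]
  by_cases hl : l = k
  · rw [if_pos hl, Finset.filter_true_of_mem (fun _ _ => hl.symm)]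
  · rw [if_neg hl, Finset.filter_false_of_mem (fun _ _ h => hl h.symm), Finset.sum_empty]

private theorem AN1_blk_E (a : I → I → ℕ) (hs : ∀ i j, a i j = a j i) (A : Finset I) (k σ : ℕ)
    (q : I → ℚ) (T : Trm I) (i : I) (l : ℕ) :
    (blkT a A k σ q T).E (i, l) = T.E (i, l) + if l = k then cqN a A q i else 0 := by
  have h1 : (blkT a A k σ q T).E (i, l) = (T.eta a k (fun i => -resQ A q i)).E (i, l) := rfl
  rw [h1, AN1_eta_E]
  by_cases hl : l = k
  · rw [if_pos hl, if_pos hl, sub_eq_add_neg, ← Finset.sum_neg_distrib]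
    congr 1
    unfold cqN
    rw [← Finset.sum_subset (Finset.subset_univ A)]
    · refine Finset.sum_congr rfl fun x hx => ?_
      unfold resQ
      rw [if_pos hx, AN1_cart_symm a hs x i]
      ring
    · intro x _ hx
      unfold resQ
      rw [if_neg hx]
      ring
  · rw [if_neg hl, if_neg hl]
    ring

private theorem AN1_blk_γ (a : I → I → ℕ) (A : Finset I) (k σ : ℕ) (q : I → ℚ) (T : Trm I)
    (i : I) : (blkT a A k σ q T).γ i = T.γ i + k * resQ A q i := by
  show T.γ i - k * (-resQ A q i) = T.γ i + k * resQ A q i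
  ring

private theorem AN1_blk_Λ (a : I → I → ℕ) (A : Finset I) (k σ : ℕ) (q : I → ℚ) (T : Trm I)
    (i : I) : (blkT a A k σ q T).Λ i = if i ∈ A then sy i σ else T.Λ i := rfl

private theorem AN1_blk_etaM (a : I → I → ℕ) (A : Finset I) (k σ : ℕ) (q : I → ℚ) (κ : I → ℕ)
    (δ : I → ℚ) (T : Trm I) :
    blkT a A k σ q (T.etaM a κ δ) = (blkT a A k σ q T).etaM a κ δ := by
  apply Trm.ext
  · funext i
    show T.γ i - κ i * δ i - k * (-resQ A q i) = T.γ i - k * (-resQ A q i) - κ i * δ i
    ring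
  · show T.E - ∑ x, δ x • cE a x (κ x) - ∑ x, (-resQ A q x) • cE a x k =
      T.E - ∑ x, (-resQ A q x) • cE a x k - ∑ x, δ x • cE a x (κ x)
    rw [sub_right_comm]
  · rfl

/-- the base term. -/
noncomputable def tT0 : Trm I := ⟨fun _ => 0, 0, fun j => sy j 1⟩

/-- the kinked term. -/
noncomputable def tT1 (a : I → I → ℕ) (m : ℕ) (v : I → ℤ) : Trm I :=
  (tT0 : Trm I).etaM a (fun _ => m) (fun i => -(v i : ℚ))

theorem RReg_T0 (A : Finset I) : RReg A (tT0 : Trm I) := by
  refine ⟨fun x _ l _ => ⟨0, ?_⟩, fun x hx j hj l _ h => ?_⟩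
  · show (0 : QE I) (x, l) = ((0 : ℕ) : ℚ)
    rw [Finsupp.zero_apply, Nat.cast_zero]
  · exfalso
    apply h
    show (sy j 1 : QE I) (x, l) = 0
    rw [Finsupp.single_apply, if_neg]
    intro e
    have e1 : j = x := (Prod.ext_iff.mp e).1
    exact hj (e1 ▸ hx)

private theorem AN1_T1_E (a : I → I → ℕ) (hs : ∀ i j, a i j = a j i) (A : Finset I) (m : ℕ)
    (v : I → ℤ) (hv : ∀ i, i ∉ A → v i = 0) (i : I) (l : ℕ) :
    (tT1 a m v).E (i, l) = if l = m then ((∑ j ∈ A, cart a i j * v j : ℤ) : ℚ) else 0 := by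
  unfold tT1
  rw [← eta_eq_etaM, AN1_eta_E]
  have h0 : (tT0 : Trm I).E (i, l) = 0 := rfl
  rw [h0]
  by_cases hl : l = m
  · rw [if_pos hl, if_pos hl, zero_sub, ← Finset.sum_neg_distrib, Int.cast_sum,
      ← Finset.sum_subset (Finset.subset_univ A)]
    · refine Finset.sum_congr rfl fun x _ => ?_
      rw [AN1_cart_symm a hs x i]
      push_cast
      ring
    · intro x _ hx
      rw [hv x hx]
      push_cast
      ring
  · rw [if_neg hl, if_neg hl, sub_zero]

/-- an integral vector with `C_A v ≥ 1`, supported in `A`. -/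
theorem exists_int_vec (a : I → I → ℕ) (hs : ∀ i j, a i j = a j i) (A : Finset I)
    (hA : FinT a A) (B : ℤ) : ∃ v : I → ℤ, (∀ i, i ∉ A → v i = 0) ∧
      ∀ x ∈ A, B ≤ ∑ j ∈ A, cart a x j * v j := by
  classical
  set w : I → ℚ := solN a A (fun _ => 1) with hw
  set D : ℕ := ∏ i, (w i).den with hD
  have hD1 : 1 ≤ D := Nat.one_le_iff_ne_zero.mpr (Finset.prod_ne_zero_iff.mpr
    (fun i _ => (w i).den_nz))
  have hn : ∀ i, ∃ n : ℤ, w i * D = n := by
    intro i
    obtain ⟨r, hr⟩ : (w i).den ∣ D := Finset.dvd_prod_of_mem _ (Finset.mem_univ i)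
    refine ⟨(w i).num * r, ?_⟩
    rw [hr]
    push_cast
    rw [← mul_assoc, Rat.mul_den_eq_num]
  choose n hn using hn
  refine ⟨fun i => n i * |B|, ?_, ?_⟩
  · intro i hi
    have h1 : w i = 0 := solN_out a A _ i hi
    have h2 := hn i
    rw [h1, zero_mul] at h2
    have h3 : n i = 0 := by exact_mod_cast h2.symm
    show n i * |B| = 0
    rw [h3, zero_mul]
  · intro x hx
    have h1 : ∑ j ∈ A, (cart a x j : ℚ) * w j = 1 := solN_spec hs hA (fun _ => 1) x hx
    have h2 : ∑ j ∈ A, cart a x j * n j = (D : ℤ) := by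
      have h3 : ((∑ j ∈ A, cart a x j * n j : ℤ) : ℚ) = ((D : ℤ) : ℚ) := by
        push_cast
        have h4 : ∑ j ∈ A, (cart a x j : ℚ) * (n j : ℚ) =
            (∑ j ∈ A, (cart a x j : ℚ) * w j) * D := by
          rw [Finset.sum_mul]
          refine Finset.sum_congr rfl fun j _ => ?_
          rw [← hn j]
          ring
        rw [h4, h1, one_mul]
      exact_mod_cast h3
    have h5 : ∑ j ∈ A, cart a x j * (n j * |B|) = D * |B| := by
      rw [← h2, Finset.sum_mul]
      refine Finset.sum_congr rfl fun j _ => ?_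
      ring
    show B ≤ ∑ j ∈ A, cart a x j * (n j * |B|)
    rw [h5]
    have h6 : (1 : ℤ) ≤ D := by exact_mod_cast hD1
    nlinarith [abs_nonneg B, le_abs_self B]

theorem RReg_T1 (a : I → I → ℕ) (hs : ∀ i j, a i j = a j i) (A : Finset I) (m : ℕ)
    (v : I → ℤ) (hv : ∀ i, i ∉ A → v i = 0)
    (hv1 : ∀ x ∈ A, 1 ≤ ∑ j ∈ A, cart a x j * v j) :
    RReg A (tT1 a m v) ∧ (A.Nonempty → Kink A m (tT1 a m v)) := by
  refine ⟨⟨?_, ?_⟩, ?_⟩
  · intro x hx l _
    rw [AN1_T1_E a hs A m v hv]
    by_cases hl : l = m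
    · rw [if_pos hl]
      have h1 := hv1 x hx
      refine ⟨(∑ j ∈ A, cart a x j * v j).toNat, ?_⟩
      have h2 : (((∑ j ∈ A, cart a x j * v j).toNat : ℕ) : ℤ) = ∑ j ∈ A, cart a x j * v j :=
        Int.toNat_of_nonneg (by omega)
      exact_mod_cast h2.symm
    · rw [if_neg hl]
      exact ⟨0, by rw [Nat.cast_zero]⟩
  · intro x hx j hj l hl h
    exfalso
    apply h
    show (sy j 1 : QE I) (x, l) = 0
    rw [Finsupp.single_apply, if_neg]
    intro e
    have e1 : j = x := (Prod.ext_iff.mp e).1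
    exact hj (e1 ▸ hx)
  · rintro ⟨x, hx⟩
    refine ⟨x, hx, ?_⟩
    rw [AN1_T1_E a hs A m v hv, if_pos rfl]
    exact_mod_cast hv1 x hx

theorem tau0_T0 (a : I → I → ℕ) (A : Finset I) (q : I → ℚ) :
    TV a (tauT a A 0 q tT0) = 1 := by
  have h1 : TV a (tauT a A 0 q tT0) = TV a (tT0 : Trm I) := by
    apply TV_lev0
    · funext i
      rw [AN1_blk_γ]
      push_cast
      ring
    · intro i k hk
      have h2 : (tauT a A 0 q (tT0 : Trm I)).E (i, k) =
          ((tT0 : Trm I).eta a 0 (fun i => -resQ A q i)).E (i, k) := rfl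
      rw [h2, AN1_eta_E, if_neg (by omega), sub_zero]
    · intro j i k _
      rw [AN1_blk_Λ]
      by_cases hj : j ∈ A
      · rw [if_pos hj]
        rfl
      · rw [if_neg hj]
  rw [h1]
  have e : (tT0 : Trm I) = ⟨fun i => ((0 : I →₀ ℕ) i : ℚ), 0, fun j => sy j 1⟩ := by
    apply Trm.ext
    · funext i
      show (0 : ℚ) = (((0 : I →₀ ℕ) i : ℕ) : ℚ)
      rw [Finsupp.zero_apply, Nat.cast_zero]
    · rfl
    · rfl
  rw [e, TV_nat a 0 0 (fun j => sy j 1) (fun i => by rw [tdg_zero, cw_zero, Int.cast_zero]),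
    mU_zero, one_mul]
  have h3 : colMat (fun i => dl a (sy i 1)) = (1 : Matrix I I (MvPowerSeries I ℚ)) := by
    refine Matrix.ext fun l i => ?_
    show dl a (sy i 1) l = (1 : Matrix I I (MvPowerSeries I ℚ)) l i
    rw [dl_single, map_one, one_mul, xv_one, Matrix.one_apply]
    by_cases h : i = l
    · rw [if_pos h, if_pos h.symm]
    · rw [if_neg h, if_neg (fun e => h e.symm)]
  rw [h3, Matrix.det_one, MvPowerSeries.coeff_zero_one]

theorem tau0_T1 (a : I → I → ℕ) (hs : ∀ i j, a i j = a j i) (cd : CrossData a) (A : Finset I)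
    (hA : FinT a A) (hc : ConnS a A) (q : I → ℚ) (hq : QOk a A q) (v : I → ℤ)
    (hv : ∀ i, i ∉ A → v i = 0) (hv1 : ∀ x ∈ A, 1 ≤ ∑ j ∈ A, cart a x j * v j) :
    TV a (tauT a A 0 q (tT1 a (cd.mm A) v)) = 1 := by
  have h2m := cd.two_le A
  set m : ℕ := cd.mm A with hm
  obtain ⟨hR1, _⟩ := RReg_T1 a hs A m v hv hv1
  have e1 := cd.cr A hA hc m q hq (tT1 a m v) hR1 le_rfl
  have e0 := cd.cr A hA hc m q hq tT0 (RReg_T0 A) le_rfl
  rw [← hm, Nat.sub_self] at e1 e0
  rw [tau0_T0] at e0
  have hqv : ∀ x ∈ A, ((∑ j ∈ A, cart a x j * v j : ℤ) : ℚ) = cqN a A (fun i => (v i : ℚ)) x := by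
    intro x _
    unfold cqN
    push_cast
    rfl
  have hE : ∀ i l, (upT a A m q (tT1 a m v)).E (i, l) =
      (if l = m then ((∑ j ∈ A, cart a i j * v j : ℤ) : ℚ) else 0) +
        if l = m then cqN a A q i else 0 := by
    intro i l
    show (blkT a A m (m - 1) q (tT1 a m v)).E (i, l) = _
    rw [AN1_blk_E a hs, AN1_T1_E a hs A m v hv]
  have hsol : ∀ x ∈ A, solN a A (fun i => (upT a A m q (tT1 a m v)).E (i, m)) x =
      q x + v x := by
    intro x hx
    have h1 : solN a A (fun i => (upT a A m q (tT1 a m v)).E (i, m)) =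
        solN a A (cqN a A (fun i => q i + (v i : ℚ))) := by
      apply solN_congr hs hA
      intro i hi
      show (upT a A m q (tT1 a m v)).E (i, m) = _
      rw [hE i m, if_pos rfl, if_pos rfl, hqv i hi]
      unfold cqN
      rw [← Finset.sum_add_distrib]
      refine Finset.sum_congr rfl fun j _ => ?_
      ring
    rw [h1, solN_cqN hs hA _ x hx]
  have hqpos : ∀ x ∈ A, 0 < q x := by
    intro x hx
    rw [← solN_cqN hs hA q x hx]
    apply solN_pos_self hs hA _ _ x hx
    · obtain ⟨n, hn, hc'⟩ := hq x hx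
      rw [hc']
      exact_mod_cast hn
    · intro i hi
      obtain ⟨n, _, hc'⟩ := hq i hi
      rw [hc']
      exact Nat.cast_nonneg n
  have hvnn : ∀ x ∈ A, (0 : ℚ) ≤ v x := by
    apply FinT.nonneg hs hA (fun i => (v i : ℚ))
    intro i hi
    rw [← hqv i hi]
    have := hv1 i hi
    exact_mod_cast (by omega : (0 : ℤ) ≤ ∑ j ∈ A, cart a i j * v j)
  have hrep := TV_rep a hs A hA (fun _ => m) (fun _ => m - 1) (fun _ _ => by omega)
    (fun _ _ _ _ _ => rfl) (fun _ _ => Or.inr (by omega)) (upT a A m q (tT1 a m v))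
    (by
      intro x hx
      refine ⟨?_, ?_, ?_⟩
      · intro l _ hl
        rw [hE, if_neg hl, if_neg hl, add_zero]
        exact ⟨0, by rw [Nat.cast_zero]⟩
      · rw [hE, if_pos rfl, if_pos rfl]
        obtain ⟨n, _, hn⟩ := hq x hx
        rw [hn]
        refine ⟨(∑ j ∈ A, cart a x j * v j) + n, ?_⟩
        push_cast
        ring
      · intro j l _ h
        left
        by_contra hcon
        apply h
        show (blkT a A m (m - 1) q (tT1 a m v)).Λ j (x, l) = 0
        rw [AN1_blk_Λ]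
        by_cases hj : j ∈ A
        · rw [if_pos hj, Finsupp.single_apply, if_neg]
          intro e
          exact hcon (Prod.ext_iff.mp e).2.symm
        · rw [if_neg hj]
          show (sy j 1 : QE I) (x, l) = 0
          rw [Finsupp.single_apply, if_neg]
          intro e
          have e1 : j = x := (Prod.ext_iff.mp e).1
          exact hj (e1 ▸ hx))
    (by
      intro x hx
      rw [hsol x hx]
      have := hqpos x hx
      have := hvnn x hx
      linarith)
    v hv
    (by
      intro x hx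
      rw [hsol x hx]
      have := hqpos x hx
      linarith)
  have hT : (upT a A m q (tT1 a m v)).etaM a (fun _ => m) (fun i => (v i : ℚ)) =
      upT a A m q tT0 := by
    show (blkT a A m (m - 1) q (tT1 a m v)).etaM a (fun _ => m) (fun i => (v i : ℚ)) =
      blkT a A m (m - 1) q tT0
    rw [← AN1_blk_etaM]
    congr 1
    unfold tT1
    rw [etaM_etaM]
    have h0 : (fun i => -(v i : ℚ) + (v i : ℚ)) = fun _ => (0 : ℚ) := by
      funext i
      ring
    rw [h0, etaM_zero]
  rw [hT, e0, mul_one] at hrep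
  rw [hrep] at e1
  have hne : cd.eps A q ≠ 0 := by
    rcases cd.eps_sq A q with h | h
    · rw [h]; norm_num
    · rw [h]; norm_num
  have h9 : cd.eps A q * TV a (tauT a A 0 q (tT1 a m v)) = cd.eps A q * 1 := by
    rw [mul_one]
    exact e1.symm
  exact mul_left_cancel₀ hne h9

theorem taus_T1 (a : I → I → ℕ) (hs : ∀ i j, a i j = a j i) (cd : CrossData a) (A : Finset I)
    (hA : FinT a A) (hc : ConnS a A) (q : I → ℚ) (hq : QOk a A q) (v : I → ℤ)
    (hv : ∀ i, i ∉ A → v i = 0) (hv1 : ∀ x ∈ A, 1 ≤ ∑ j ∈ A, cart a x j * v j) (s : ℕ)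
    (hs1 : 1 ≤ s) (hs2 : s < cd.mm A) : TV a (tauT a A s q (tT1 a (cd.mm A) v)) = 0 := by
  obtain ⟨y, hy⟩ := hc.1
  obtain ⟨hR1, _⟩ := RReg_T1 a hs A (cd.mm A) v hv hv1
  refine cd.rv A hA hc s q hq _ hR1 y hy (cd.mm A) (by omega) (by omega) ?_
  rw [AN1_T1_E a hs A _ v hv, if_pos rfl]
  exact_mod_cast hv1 y hy

theorem AN1_Rv_T0 (a : I → I → ℕ) (hs : ∀ i j, a i j = a j i) (A : Finset I)
    (hA : FinT a A) (hc : ConnS a A) (q : I → ℚ) (hq : QOk a A q) (l : ℕ) (hl : 1 ≤ l) :
    Rv a A l q (tT0 : Trm I) = 0 := by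
  classical
  unfold Rv
  apply Finset.sum_eq_zero
  intro m hm
  have hm1 : ¬ Plat A q m := (Finset.mem_filter.mp hm).2
  have h0 : TV a (rawT a A l q m tT0) = 0 := by
    by_contra hne
    have hp := raw_pos a hs A hA hc l hl q hq tT0 (RReg_T0 A) m hm1 hne
    unfold Plat at hm1
    push Not at hm1
    obtain ⟨x, hx, hx1, _⟩ := hm1
    have h1 := hp x hx hx1
    apply hne
    apply TV_neg a _ x
    show (0 : ℚ) - l * (if x ∈ A then (m x : ℚ) - q x else 0) < 0
    rw [if_pos hx]
    have h2 : (1 : ℚ) ≤ l := by exact_mod_cast hl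
    have h3 : 0 < (m x : ℚ) - q x := by linarith
    nlinarith
  rw [h0, mul_zero]

private theorem AN1_isZ_of_PI (q : ℚ) (h : ∀ p : ℕ, p.Prime → PI p q) : IsZ q := by
  have h1 : q.den = 1 := by
    by_contra hne
    obtain ⟨p, hp, hd⟩ := Nat.exists_prime_and_dvd hne
    exact h p hp hd
  refine ⟨q.num, ?_⟩
  have h2 := Rat.mul_den_eq_num q
  rw [h1, Nat.cast_one, mul_one] at h2
  exact h2

private theorem AN1_X_dvd (a : I → I → ℕ) (i : I) (k : ℕ) :
    (MvPowerSeries.X i : MvPowerSeries I ℚ) ∣ uS a i k - 1 ∧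
      (MvPowerSeries.X i : MvPowerSeries I ℚ) ∣ uS a i (k + 1) - 1 := by
  induction k with
  | zero =>
    rw [uS_zero, uS_one, sub_self]
    exact ⟨dvd_zero _, dvd_zero _⟩
  | succ k ih =>
    refine ⟨ih.2, ?_⟩
    obtain ⟨u, hu⟩ := ih.1
    obtain ⟨w, hw⟩ := ih.2
    have hr := uS_rec a i k
    refine ⟨w * (uS a i (k + 1) + 1) - MvPowerSeries.X i ^ k * ∏ j, uS a j (k + 1) ^ (a i j) -
      uS a i (k + 2) * u, ?_⟩
    show uS a i (k + 2) - 1 = _
    rw [pow_succ] at hr
    linear_combination hr - uS a i (k + 2) * hu + (uS a i (k + 1) + 1) * hw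

private theorem AN1_coeff_out (a : I → I → ℕ) (i : I) (k : ℕ) (q : ℚ) (G : MvPowerSeries I ℚ)
    (γ : I →₀ ℕ) (hγ : γ i = 0) :
    MvPowerSeries.coeff γ (rpw (uS a i k) q * G) = MvPowerSeries.coeff γ G := by
  obtain ⟨w, hw⟩ := (AN1_X_dvd a i k).1
  have h1 : uS a i k = 1 - MvPowerSeries.X i ^ 1 * (-w) := by
    rw [pow_one]
    linear_combination hw
  rw [h1, coeff_rpw_one_sub i 1 le_rfl (-w) G q γ 0 (by omega)]
  rw [Finset.sum_range_one, pow_zero, Ring.choose_zero_right, mul_zero, pow_zero, pow_zero]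
  simp

theorem tau_T0_int (a : I → I → ℕ) (hs : ∀ i j, a i j = a j i) (A : Finset I)
    (hA : FinT a A) (q : I → ℚ) (hq : QOk a A q) (g : ℕ) :
    IsZ (TV a (tauT a A g q (tT0 : Trm I))) := by
  classical
  by_cases hok : TOk a (tauT a A g q (tT0 : Trm I))
  · rw [TV_of_ok a _ hok]
    unfold TV0 mU
    set E : QE I := (tauT a A g q (tT0 : Trm I)).E with hEdef
    set γ : I →₀ ℕ := gN (tauT a A g q (tT0 : Trm I)).γ with hγdef
    have hγ : ∀ i, i ∉ A → γ i = 0 := by
      intro i hi
      show ⌊(tauT a A g q (tT0 : Trm I)).γ i⌋₊ = 0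
      have h1 : (tauT a A g q (tT0 : Trm I)).γ i = 0 := by
        show (blkT a A g (g + 1) q tT0).γ i = 0
        rw [AN1_blk_γ]
        unfold resQ
        rw [if_neg hi, mul_zero, add_zero]
        rfl
      rw [h1, Nat.floor_zero]
    set M : MvPowerSeries I ℚ :=
      (colMat (fun i => dl a ((tauT a A g q (tT0 : Trm I)).Λ i))).det with hM
    have hsplit : ∀ s : Finset (I × ℕ), (∀ ik ∈ s, ik.1 ∉ A) → ∀ G : MvPowerSeries I ℚ,
        MvPowerSeries.coeff γ ((∏ ik ∈ s, rpw (uS a ik.1 ik.2) (E ik)) * G) =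
          MvPowerSeries.coeff γ G := by
      intro s
      induction s using Finset.induction_on with
      | empty =>
        intro _ G
        rw [Finset.prod_empty, one_mul]
      | insert ik s hik ih =>
        intro hs' G
        rw [Finset.prod_insert hik, mul_assoc,
          AN1_coeff_out a ik.1 ik.2 (E ik) _ γ
            (hγ ik.1 (hs' ik (Finset.mem_insert_self ik s)))]
        exact ih (fun jk hjk => hs' jk (Finset.mem_insert_of_mem hjk)) G
    rw [← Finset.prod_filter_mul_prod_filter_not E.support (fun ik => ik.1 ∉ A), mul_assoc,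
      hsplit _ (fun ik hik => (Finset.mem_filter.mp hik).2)]
    have hint : ∀ ik : I × ℕ, ik.1 ∈ A → ∃ n : ℤ, E ik = n := by
      intro ik hik
      obtain ⟨i, l⟩ := ik
      have h1 : E (i, l) = (blkT a A g (g + 1) q tT0).E (i, l) := rfl
      rw [h1, AN1_blk_E a hs]
      have h0 : (tT0 : Trm I).E (i, l) = 0 := rfl
      rw [h0, zero_add]
      by_cases hl : l = g
      · rw [if_pos hl]
        obtain ⟨n, _, hn⟩ := hq i hik
        exact ⟨n, by rw [hn]; push_cast; rfl⟩
      · rw [if_neg hl]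
        exact ⟨0, by rw [Int.cast_zero]⟩
    apply AN1_isZ_of_PI
    intro p hp
    have hCM : CInt p M := by
      rw [hM]
      apply CInt_det hp
      intro j ik
      have h1 : ∃ n : ℤ, (tauT a A g q (tT0 : Trm I)).Λ j ik = n := by
        have h2 : (tauT a A g q (tT0 : Trm I)).Λ j ik =
          (if j ∈ A then sy j (g + 1) else sy j 1 : QE I) ik := rfl
        rw [h2]
        have h3 : ∀ l : ℕ, ∃ n : ℤ, (sy j l : QE I) ik = n := by
          intro l
          rw [Finsupp.single_apply]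
          by_cases h : (j, l) = ik
          · rw [if_pos h]
            exact ⟨1, by rw [Int.cast_one]⟩
          · rw [if_neg h]
            exact ⟨0, by rw [Int.cast_zero]⟩
        by_cases hj : j ∈ A
        · rw [if_pos hj]
          exact h3 _
        · rw [if_neg hj]
          exact h3 _
      obtain ⟨n, hn⟩ := h1
      rw [hn]
      exact PI_int hp n
    have hCU : ∀ ik : I × ℕ, ik.1 ∈ A → CInt p (rpw (uS a ik.1 ik.2) (E ik)) := by
      intro ik hik
      apply CInt_rpw hp _ (uS_const a ik.1 ik.2)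
      · intro β
        obtain ⟨n, hn⟩ := uS_int a ik.1 ik.2 β
        rw [hn]
        exact PI_int hp n
      · obtain ⟨n, hn⟩ := hint ik hik
        rw [hn]
        exact PI_int hp n
    have hprod : ∀ s : Finset (I × ℕ), (∀ ik ∈ s, ik.1 ∈ A) → ∀ G : MvPowerSeries I ℚ,
        CInt p G → CInt p ((∏ ik ∈ s, rpw (uS a ik.1 ik.2) (E ik)) * G) := by
      intro s
      induction s using Finset.induction_on with
      | empty =>
        intro _ G hG
        rw [Finset.prod_empty, one_mul]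
        exact hG
      | insert ik s hik ih =>
        intro hs' G hG
        rw [Finset.prod_insert hik, mul_assoc]
        exact CInt_mul hp (hCU ik (hs' ik (Finset.mem_insert_self ik s)))
          (ih (fun jk hjk => hs' jk (Finset.mem_insert_of_mem hjk)) G hG)
    exact hprod _ (fun ik hik => not_not.mp (Finset.mem_filter.mp hik).2) M hCM γ
  · rw [TV_of_not a _ hok]
    exact ⟨0, by rw [Int.cast_zero]⟩

end

end Pool.Agent.H27.KAC

end
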