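import Pool.Agent.H16.TKA.M14
import Pool.Agent.H16.TKA.M16
import Pool.Agent.H16.TKA.M20

/-! The parts of this file: H41.KA.AG3, H41.KA.AG4, H27.KB.A1, H27.KB.W1. -/

section

/-!
KAC ADE, module AG3: the vanishing lemma in presence of patterns (wide windows).

Proof.  Let `𝒩` be the near components (`f < s + mm A`) and `ℱ` the far ones (`s + mm A = f`) of `insS U π`.  With `LL_sum` replace
`T` by `T.mulE F`, `F = ∑_{A ∈ 𝒩} ∑_{x ∈ A} (a z x * q x) • cvE z (s x) f`; with `far_up` pass to the upper representation of the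
far blocks.  In the resulting term the exponents of `z` are (`patT_E`):
`(z,l)`, `l ≠ f, f+1` : `T.E (z,l)`;  `(z,f+1)` : `T.E (z,f+1) + ∑_{near} a z x q x (f - s x)`;
`(z,f)` : `T.E (z,f) - ∑_{near} a z x q x (f - s x + 1) - ∑_{far} a z x q x`.
Let `X` be the resulting term.  If `¬ TOk a X` its value is zero.  Otherwise `tdg X.E z = cq a X.γ z` is an integer
(`X.γ` is a vector of natural numbers); all exponents of `z` at the levels `≠ f, f + 1` (level `0` does not count) are natural and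
`X.E (z,f) + X.E (z,f+1)` is an integer by `hI2`, so `X.E (z,f+1)` and `X.E (z,f)` are integers (free integrality).  So all
exponents are natural numbers, the one of `(z,f)` is `≥ 1` and all symbols `(z,l)` in the columns are compensated: `TV_van`.
-/

set_option autoImplicit false

namespace Pool.Agent.H27.KAC

open scoped BigOperators

section

variable {I : Type} [Fintype I] [DecidableEq I]

private theorem AG3_isZ_zero : IsZ 0 := ⟨0, by simp⟩

private theorem AG3_isZ_add {p q : ℚ} (hp : IsZ p) (hq : IsZ q) : IsZ (p + q) := by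
  obtain ⟨m, rfl⟩ := hp
  obtain ⟨n, rfl⟩ := hq
  exact ⟨m + n, by push_cast; ring⟩

private theorem AG3_isZ_sub {p q : ℚ} (hp : IsZ p) (hq : IsZ q) : IsZ (p - q) := by
  obtain ⟨m, rfl⟩ := hp
  obtain ⟨n, rfl⟩ := hq
  exact ⟨m - n, by push_cast; ring⟩

private theorem AG3_isZ_mul {p q : ℚ} (hp : IsZ p) (hq : IsZ q) : IsZ (p * q) := by
  obtain ⟨m, rfl⟩ := hp
  obtain ⟨n, rfl⟩ := hq
  exact ⟨m * n, by push_cast; ring⟩

private theorem AG3_isZ_sum {ι : Type} (s : Finset ι) (g : ι → ℚ) (h : ∀ i ∈ s, IsZ (g i)) :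
    IsZ (∑ i ∈ s, g i) := by
  classical
  induction s using Finset.induction_on with
  | empty => simpa using AG3_isZ_zero
  | insert i s hi ih =>
    rw [Finset.sum_insert hi]
    exact AG3_isZ_add (h i (Finset.mem_insert_self i s))
      (ih (fun j hj => h j (Finset.mem_insert_of_mem hj)))

private theorem AG3_isN_isZ {p : ℚ} (h : IsN p) : IsZ p := by
  obtain ⟨n, rfl⟩ := h
  exact ⟨n, by push_cast; rfl⟩

private theorem AG3_isZ_nonneg {p : ℚ} (h : IsZ p) (h0 : 0 ≤ p) : ∃ n : ℕ, p = n := by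
  obtain ⟨n, rfl⟩ := h
  have hn : 0 ≤ n := by exact_mod_cast h0
  refine ⟨n.toNat, ?_⟩
  have : ((n.toNat : ℤ) : ℚ) = (n : ℚ) := by rw [Int.toNat_of_nonneg hn]
  rw [← this]
  push_cast
  rfl

omit [Fintype I] in
private theorem AG3_tdg (E : QE I) (z : I) (f : ℕ)
    (h : ∀ l, 1 ≤ l → l ≠ f → l ≠ f + 1 → IsZ (E (z, l))) :
    IsZ (tdg E z - (E (z, f) * (f : ℚ) + E (z, f + 1) * ((f + 1 : ℕ) : ℚ))) := by
  unfold tdg
  have hsub : E.support ⊆ insert (z, f) (insert (z, f + 1) E.support) := by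
    intro x hx
    exact Finset.mem_insert_of_mem (Finset.mem_insert_of_mem hx)
  have e1 : ∑ jk ∈ E.support, (if jk.1 = z then E jk * (jk.2 : ℚ) else 0) =
      ∑ jk ∈ insert (z, f) (insert (z, f + 1) E.support),
        (if jk.1 = z then E jk * (jk.2 : ℚ) else 0) := by
    refine Finset.sum_subset hsub ?_
    intro x _ hx
    have : E x = 0 := by simpa using hx
    rw [this]
    simp
  set S := insert (z, f) (insert (z, f + 1) E.support) with hS
  have m1 : (z, f) ∈ S := Finset.mem_insert_self _ _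
  have m2 : (z, f + 1) ∈ S.erase (z, f) := by
    refine Finset.mem_erase.mpr ⟨?_, ?_⟩
    · intro hc
      have := (Prod.mk.inj hc).2
      omega
    · exact Finset.mem_insert_of_mem (Finset.mem_insert_self _ _)
  have e2 : ∑ jk ∈ S, (if jk.1 = z then E jk * (jk.2 : ℚ) else 0) =
      E (z, f) * (f : ℚ) + (E (z, f + 1) * ((f + 1 : ℕ) : ℚ) +
        ∑ jk ∈ (S.erase (z, f)).erase (z, f + 1), (if jk.1 = z then E jk * (jk.2 : ℚ) else 0)) := by
    rw [← Finset.add_sum_erase S _ m1, ← Finset.add_sum_erase (S.erase (z, f)) _ m2]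
    simp
  rw [e1, e2]
  have e3 : E (z, f) * (f : ℚ) + (E (z, f + 1) * ((f + 1 : ℕ) : ℚ) +
        ∑ jk ∈ (S.erase (z, f)).erase (z, f + 1), (if jk.1 = z then E jk * (jk.2 : ℚ) else 0)) -
        (E (z, f) * (f : ℚ) + E (z, f + 1) * ((f + 1 : ℕ) : ℚ)) =
      ∑ jk ∈ (S.erase (z, f)).erase (z, f + 1), (if jk.1 = z then E jk * (jk.2 : ℚ) else 0) := by
    ring
  rw [e3]
  apply AG3_isZ_sum
  rintro ⟨j, l⟩ hjl
  by_cases hj : j = z
  · subst hj
    rw [if_pos rfl]
    rcases Nat.eq_zero_or_pos l with hl | hl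
    · subst hl
      simpa using AG3_isZ_zero
    · refine AG3_isZ_mul (h l hl ?_ ?_) ⟨l, by push_cast; rfl⟩
      · rintro rfl
        simp at hjl
      · rintro rfl
        simp at hjl
  · rw [if_neg hj]
    exact AG3_isZ_zero

omit [Fintype I] in
private theorem AG3_cvE (z : I) (s f l : ℕ) :
    cvE z s f (z, l) = (if l = s then 1 else 0) - ((f : ℚ) - s + 1) * (if l = f then 1 else 0) +
      ((f : ℚ) - s) * (if l = f + 1 then 1 else 0) := by
  unfold cvE sy
  simp only [Finsupp.add_apply, Finsupp.sub_apply, Finsupp.smul_apply, Finsupp.single_apply,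
    smul_eq_mul, Prod.mk.injEq, true_and]
  congr 1
  · congr 1
    · split_ifs <;> first | rfl | (exfalso; omega)
    · congr 1
      split_ifs <;> first | rfl | (exfalso; omega)
  · congr 1
    split_ifs <;> first | rfl | (exfalso; omega)

omit [Fintype I] [DecidableEq I] in
private theorem AG3_cvE_out (z x : I) (hx : x ≠ z) (s f l : ℕ) : cvE z s f (x, l) = 0 := by
  unfold cvE sy
  have : ∀ k : ℕ, (z, k) ≠ (x, l) := by
    intro k hc
    exact hx (Prod.mk.inj hc).1.symm
  simp [this]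

/-- the near components -/
private noncomputable def AG3_N (a : I → I → ℕ) (cd : CrossData a) (f : ℕ) (U : Finset I)
    (π : Pat I) : Finset (Finset I) :=
  (comps a (insS U π)).filter (fun A => ∀ x ∈ A, f < π.s x + cd.mm A)

/-- the far components -/
private noncomputable def AG3_F (a : I → I → ℕ) (cd : CrossData a) (f : ℕ) (U : Finset I)
    (π : Pat I) : Finset (Finset I) :=
  (comps a (insS U π)).filter (fun A => ∀ x ∈ A, π.s x + cd.mm A = f)

private theorem AG3_mem_insS (B : Finset I) (π : Pat I) (x : I) :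
    x ∈ insS B π ↔ x ∈ B ∧ π.q x ≠ 0 := by
  unfold insS
  exact Finset.mem_filter

private theorem AG3_far_sub (a : I → I → ℕ) (cd : CrossData a) (f : ℕ) (U : Finset I)
    (π : Pat I) : (AG3_F a cd f U π).biUnion id ⊆ U := by
  intro x hx
  rw [Finset.mem_biUnion] at hx
  obtain ⟨A, hA, hxA⟩ := hx
  have h1 := (Finset.mem_filter.mp hA).1
  exact ((AG3_mem_insS U π x).mp (comps_subset h1 hxA)).1

private theorem AG3_near (a : I → I → ℕ) (hs : ∀ i j, a i j = a j i) (cd : CrossData a) (f : ℕ)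
    (U : Finset I) (π : Pat I) (hπ : PatWide a cd U f π) (h : I → ℚ)
    (hh : ∀ x, π.q x = 0 → h x = 0) :
    ∑ A ∈ AG3_N a cd f U π, ∑ x ∈ A, h x =
      ∑ x ∈ U \ (AG3_F a cd f U π).biUnion id, h x := by
  have hdis : ∀ A ∈ AG3_N a cd f U π, ∀ B ∈ AG3_N a cd f U π, A ≠ B → Disjoint (id A) (id B) := by
    intro A hA B hB hAB
    exact comps_disjoint hs (Finset.mem_filter.mp hA).1 (Finset.mem_filter.mp hB).1 hAB
  have e1 : ∑ A ∈ AG3_N a cd f U π, ∑ x ∈ A, h x =
      ∑ x ∈ (AG3_N a cd f U π).biUnion id, h x := by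
    rw [Finset.sum_biUnion hdis]
    rfl
  rw [e1]
  refine Finset.sum_subset ?_ ?_
  · intro x hx
    rw [Finset.mem_biUnion] at hx
    obtain ⟨A, hA, hxA⟩ := hx
    have hA' := Finset.mem_filter.mp hA
    have hxA' : x ∈ A := hxA
    rw [Finset.mem_sdiff]
    refine ⟨((AG3_mem_insS U π x).mp (comps_subset hA'.1 hxA')).1, ?_⟩
    intro hc
    rw [Finset.mem_biUnion] at hc
    obtain ⟨B, hB, hxB⟩ := hc
    have hB' := Finset.mem_filter.mp hB
    have hxB' : x ∈ B := hxB
    have hAB : A = B := by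
      by_contra hne
      exact Finset.disjoint_left.mp (comps_disjoint hs hA'.1 hB'.1 hne) hxA' hxB'
    subst hAB
    have h1 := hA'.2 x hxA'
    have h2 := hB'.2 x hxB'
    omega
  · intro x hxU hxN
    rw [Finset.mem_sdiff] at hxU
    by_contra hne
    have hq : π.q x ≠ 0 := fun hq => hne (hh x hq)
    obtain ⟨A, hA, hxA⟩ := comps_cover hs x ((AG3_mem_insS U π x).mpr ⟨hxU.1, hq⟩)
    by_cases hfar : π.s x + cd.mm A = f
    · apply hxU.2
      rw [Finset.mem_biUnion]
      refine ⟨A, Finset.mem_filter.mpr ⟨hA, ?_⟩, hxA⟩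
      intro y hy
      rw [hπ.lev A hA y hy x hxA]
      exact hfar
    · apply hxN
      rw [Finset.mem_biUnion]
      refine ⟨A, Finset.mem_filter.mpr ⟨hA, ?_⟩, hxA⟩
      intro y hy
      rw [hπ.lev A hA y hy x hxA]
      have := hπ.ge A hA x hxA
      omega

/-- the conversion exponent of all near components -/
private noncomputable def AG3_G (a : I → I → ℕ) (cd : CrossData a) (f : ℕ) (U : Finset I)
    (π : Pat I) (z : I) : QE I :=
  ∑ A ∈ AG3_N a cd f U π, ∑ x ∈ A, ((a z x : ℚ) * π.q x) • cvE z (π.s x) f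

private theorem AG3_G_out (a : I → I → ℕ) (cd : CrossData a) (f : ℕ) (U : Finset I)
    (π : Pat I) (z x : I) (hx : x ≠ z) (l : ℕ) : AG3_G a cd f U π z (x, l) = 0 := by
  unfold AG3_G
  rw [Finsupp.finsetSum_apply]
  refine Finset.sum_eq_zero (fun A _ => ?_)
  rw [Finsupp.finsetSum_apply]
  refine Finset.sum_eq_zero (fun y _ => ?_)
  rw [Finsupp.smul_apply, AG3_cvE_out z x hx, smul_zero]

private theorem AG3_G_in (a : I → I → ℕ) (hs : ∀ i j, a i j = a j i) (cd : CrossData a) (f : ℕ)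
    (U : Finset I) (π : Pat I) (hπ : PatWide a cd U f π) (z : I) (l : ℕ) :
    AG3_G a cd f U π z (z, l) = ∑ x ∈ U \ (AG3_F a cd f U π).biUnion id,
      (a z x : ℚ) * π.q x * ((if l = π.s x then 1 else 0) -
        ((f : ℚ) - π.s x + 1) * (if l = f then 1 else 0) +
        ((f : ℚ) - π.s x) * (if l = f + 1 then 1 else 0)) := by
  rw [← AG3_near a hs cd f U π hπ]
  · unfold AG3_G
    rw [Finsupp.finsetSum_apply]
    refine Finset.sum_congr rfl (fun A _ => ?_)
    rw [Finsupp.finsetSum_apply]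
    refine Finset.sum_congr rfl (fun x _ => ?_)
    rw [Finsupp.smul_apply, smul_eq_mul, AG3_cvE]
  · intro x hx
    rw [hx, mul_zero, zero_mul]

private theorem AG3_cart (a : I → I → ℕ) (hs : ∀ i j, a i j = a j i) (x z : I) (h : x ≠ z) :
    (cart a x z : ℚ) = -(a z x : ℚ) := by
  unfold cart
  rw [if_neg h, hs x z]
  push_cast
  ring

/-- exponents of the resulting term -/
private theorem AG3_XE (a : I → I → ℕ) (hs : ∀ i j, a i j = a j i) (cd : CrossData a) (f : ℕ)
    (U : Finset I) (π : Pat I) (hπ : PatWide a cd U f π) (T : Trm I) (z : I) (hz : z ∉ U) (l : ℕ) :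
    (blkT a ((AG3_F a cd f U π).biUnion id) f (f - 1) π.q
      (patT a (U \ (AG3_F a cd f U π).biUnion id) π (T.mulE (AG3_G a cd f U π z)))).E (z, l) =
      T.E (z, l) +
      (∑ x ∈ U \ (AG3_F a cd f U π).biUnion id,
        (a z x : ℚ) * π.q x * (((f : ℚ) - π.s x) * (if l = f + 1 then 1 else 0) -
        ((f : ℚ) - π.s x + 1) * (if l = f then 1 else 0))) -
      (if l = f then 1 else 0) * ∑ x ∈ (AG3_F a cd f U π).biUnion id, (a z x : ℚ) * π.q x := by
  rw [blkT_E, patT_E]
  have e0 : (T.mulE (AG3_G a cd f U π z)).E (z, l) = T.E (z, l) + AG3_G a cd f U π z (z, l) := by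
    show (T.E + AG3_G a cd f U π z) (z, l) = _
    rw [Finsupp.add_apply]
  rw [e0, AG3_G_in a hs cd f U π hπ]
  have e1 : ∑ x ∈ (U \ (AG3_F a cd f U π).biUnion id).filter (fun x => π.s x = l),
      π.q x * (cart a x z : ℚ) =
      ∑ x ∈ U \ (AG3_F a cd f U π).biUnion id,
        -((a z x : ℚ) * π.q x * (if l = π.s x then 1 else 0)) := by
    rw [Finset.sum_filter]
    refine Finset.sum_congr rfl (fun x hx => ?_)
    have hxz : x ≠ z := by
      rintro rfl
      exact hz (Finset.mem_sdiff.mp hx).1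
    by_cases h : π.s x = l
    · rw [if_pos h, if_pos h.symm, AG3_cart a hs x z hxz]
      ring
    · rw [if_neg h, if_neg (fun hc => h hc.symm)]
      ring
  have e2 : (if l = f then ∑ x ∈ (AG3_F a cd f U π).biUnion id, π.q x * (cart a x z : ℚ) else 0) =
      -((if l = f then 1 else 0) *
        ∑ x ∈ (AG3_F a cd f U π).biUnion id, (a z x : ℚ) * π.q x) := by
    by_cases h : l = f
    · rw [if_pos h, if_pos h, one_mul, ← Finset.sum_neg_distrib]
      refine Finset.sum_congr rfl (fun x hx => ?_)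
      have hxz : x ≠ z := by
        rintro rfl
        exact hz (AG3_far_sub a cd f U π hx)
      rw [AG3_cart a hs x z hxz]
      ring
    · rw [if_neg h, if_neg h]
      ring
  rw [e1, e2]
  have e3 : (∑ x ∈ U \ (AG3_F a cd f U π).biUnion id,
      (a z x : ℚ) * π.q x * ((if l = π.s x then 1 else 0) -
        ((f : ℚ) - π.s x + 1) * (if l = f then 1 else 0) +
        ((f : ℚ) - π.s x) * (if l = f + 1 then 1 else 0))) +
      (∑ x ∈ U \ (AG3_F a cd f U π).biUnion id,
        -((a z x : ℚ) * π.q x * (if l = π.s x then 1 else 0))) =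
      ∑ x ∈ U \ (AG3_F a cd f U π).biUnion id,
        (a z x : ℚ) * π.q x * (((f : ℚ) - π.s x) * (if l = f + 1 then 1 else 0) -
        ((f : ℚ) - π.s x + 1) * (if l = f then 1 else 0)) := by
    rw [← Finset.sum_add_distrib]
    refine Finset.sum_congr rfl (fun x _ => ?_)
    ring
  rw [← e3]
  ring

theorem TV_vanX (a : I → I → ℕ) (hs : ∀ i j, a i j = a j i) (cd : CrossData a) (f : ℕ) (hf : 1 ≤ f)
    (U : Finset I) (hU : FinT a U) (π : Pat I) (hπ : PatWide a cd U f π) (T : Trm I)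
    (hT : RReg U T) (z : I) (hz : z ∉ U) (hzz : a z z = 0)
    (hN : ∀ l, 1 ≤ l → l ≠ f → l ≠ f + 1 → IsN (T.E (z, l))) (h0 : 0 ≤ T.E (z, f + 1))
    (hI2 : IsZ (T.E (z, f) + T.E (z, f + 1) - ∑ x ∈ U, (a z x : ℚ) * π.q x))
    (hbig : 1 + ∑ x ∈ U, (a z x : ℚ) * π.q x * ((f : ℚ) - π.s x + 1) ≤ T.E (z, f))
    (hcol : ∀ j, j ∉ U → ∀ l, 1 ≤ l → T.Λ j (z, l) ≠ 0 → l = f ∨ 1 ≤ T.E (z, l)) :
    TV a (patT a U π T) = 0 := by
  have hok : PatOk a U π := hπ.toPatOk
  -- conversion of the near blocks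
  have s1 : TV a (patT a U π T) = TV a (patT a U π (T.mulE (AG3_G a cd f U π z))) := by
    symm
    refine LL_sum a hs cd U hU π hok f (AG3_N a cd f U π) (Finset.filter_subset _ _) ?_ ?_ z hz T hT
    · intro A hA x hx
      exact hπ.le A (Finset.mem_filter.mp hA).1 x hx
    · intro A hA x hx
      exact (Finset.mem_filter.mp hA).2 x hx
  have hT1E : ∀ x l, x ≠ z → (T.mulE (AG3_G a cd f U π z)).E (x, l) = T.E (x, l) := by
    intro x l hx
    show (T.E + AG3_G a cd f U π z) (x, l) = _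
    rw [Finsupp.add_apply, AG3_G_out a cd f U π z x hx, add_zero]
  have hne : ∀ x ∈ U, x ≠ z := by
    intro x hx hc
    exact hz (hc ▸ hx)
  have hT1 : RReg U (T.mulE (AG3_G a cd f U π z)) := by
    refine ⟨?_, ?_⟩
    · intro x hx l hl
      rw [hT1E x l (hne x hx)]
      exact hT.nat x hx l hl
    · intro x hx j hj l hl hΛ
      rw [hT1E x l (hne x hx)]
      exact hT.col x hx j hj l hl hΛ
  obtain ⟨e, -, s2⟩ := far_up a hs cd U hU π hok f (AG3_F a cd f U π) (Finset.filter_subset _ _)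
    (fun A hA x hx => (Finset.mem_filter.mp hA).2 x hx) (T.mulE (AG3_G a cd f U π z)) hT1
  rw [s1, s2]
  set X : Trm I := blkT a ((AG3_F a cd f U π).biUnion id) f (f - 1) π.q
      (patT a (U \ (AG3_F a cd f U π).biUnion id) π (T.mulE (AG3_G a cd f U π z))) with hX
  have hXE : ∀ l, X.E (z, l) = T.E (z, l) +
      (∑ x ∈ U \ (AG3_F a cd f U π).biUnion id,
        (a z x : ℚ) * π.q x * (((f : ℚ) - π.s x) * (if l = f + 1 then 1 else 0) -
        ((f : ℚ) - π.s x + 1) * (if l = f then 1 else 0))) -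
      (if l = f then 1 else 0) * ∑ x ∈ (AG3_F a cd f U π).biUnion id, (a z x : ℚ) * π.q x :=
    fun l => AG3_XE a hs cd f U π hπ T z hz l
  have hsub := AG3_far_sub a cd f U π
  have hsplit : ∀ g : I → ℚ, ∑ x ∈ U, g x = ∑ x ∈ U \ (AG3_F a cd f U π).biUnion id, g x +
      ∑ x ∈ (AG3_F a cd f U π).biUnion id, g x := by
    intro g
    exact (Finset.sum_sdiff hsub).symm
  -- the levels
  have hXo : ∀ l, l ≠ f → l ≠ f + 1 → X.E (z, l) = T.E (z, l) := by
    intro l h1 h2
    rw [hXE l, if_neg h1, if_neg h2]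
    simp
  have hX1 : X.E (z, f + 1) = T.E (z, f + 1) +
      ∑ x ∈ U \ (AG3_F a cd f U π).biUnion id, (a z x : ℚ) * π.q x * ((f : ℚ) - π.s x) := by
    rw [hXE (f + 1), if_pos rfl, if_neg (by omega)]
    rw [zero_mul, sub_zero]
    congr 1
    refine Finset.sum_congr rfl (fun x _ => ?_)
    ring
  have hX0 : X.E (z, f) = T.E (z, f) -
      (∑ x ∈ U \ (AG3_F a cd f U π).biUnion id, (a z x : ℚ) * π.q x * ((f : ℚ) - π.s x + 1)) -
      ∑ x ∈ (AG3_F a cd f U π).biUnion id, (a z x : ℚ) * π.q x := by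
    rw [hXE f, if_pos rfl, if_neg (by omega), one_mul, sub_eq_add_neg (T.E (z, f)),
      ← Finset.sum_neg_distrib]
    congr 2
    refine Finset.sum_congr rfl (fun x _ => ?_)
    ring
  have hle : ∀ x ∈ U, π.q x ≠ 0 → (π.s x : ℚ) ≤ f := by
    intro x hx hq
    obtain ⟨A, hA, hxA⟩ := comps_cover hs x ((AG3_mem_insS U π x).mpr ⟨hx, hq⟩)
    exact_mod_cast hπ.le A hA x hxA
  have hq0 : ∀ x ∈ U, 0 ≤ π.q x := fun x hx => hok.q_nonneg hs hU x hx
  have hnn : ∀ x ∈ U, 0 ≤ (a z x : ℚ) * π.q x * ((f : ℚ) - π.s x) := by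
    intro x hx
    by_cases hq : π.q x = 0
    · rw [hq]
      simp
    · exact mul_nonneg (mul_nonneg (Nat.cast_nonneg _) (hq0 x hx))
        (sub_nonneg.mpr (hle x hx hq))
  have hX1' : T.E (z, f + 1) ≤ X.E (z, f + 1) := by
    rw [hX1]
    have : 0 ≤ ∑ x ∈ U \ (AG3_F a cd f U π).biUnion id,
        (a z x : ℚ) * π.q x * ((f : ℚ) - π.s x) :=
      Finset.sum_nonneg (fun x hx => hnn x (Finset.mem_sdiff.mp hx).1)
    linarith
  have hX0' : 1 ≤ X.E (z, f) := by
    rw [hX0]
    rw [hsplit] at hbig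
    have : ∑ x ∈ (AG3_F a cd f U π).biUnion id, (a z x : ℚ) * π.q x ≤
        ∑ x ∈ (AG3_F a cd f U π).biUnion id, (a z x : ℚ) * π.q x * ((f : ℚ) - π.s x + 1) := by
      refine Finset.sum_le_sum (fun x hx => ?_)
      have := hnn x (hsub hx)
      linarith
    linarith
  have hXs : IsZ (X.E (z, f) + X.E (z, f + 1)) := by
    have e1 : X.E (z, f) + X.E (z, f + 1) =
        T.E (z, f) + T.E (z, f + 1) - ∑ x ∈ U, (a z x : ℚ) * π.q x := by
      rw [hX0, hX1, hsplit]
      have : ∑ x ∈ U \ (AG3_F a cd f U π).biUnion id, (a z x : ℚ) * π.q x * ((f : ℚ) - π.s x + 1) =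
          ∑ x ∈ U \ (AG3_F a cd f U π).biUnion id, (a z x : ℚ) * π.q x * ((f : ℚ) - π.s x) +
          ∑ x ∈ U \ (AG3_F a cd f U π).biUnion id, (a z x : ℚ) * π.q x := by
        rw [← Finset.sum_add_distrib]
        refine Finset.sum_congr rfl (fun x _ => ?_)
        ring
      rw [this]
      ring
    rw [e1]
    exact hI2
  by_cases hTOk : TOk a X
  · -- integrality of the degree
    have hcq : IsZ (cq a X.γ z) := by
      unfold cq
      refine AG3_isZ_sum _ _ (fun j _ => ?_)
      refine AG3_isZ_mul ⟨_, rfl⟩ ?_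
      exact ⟨(⌊X.γ j⌋₊ : ℕ), by rw [← hTOk.1 j]; simp⟩
    have htd : IsZ (tdg X.E z) := by
      rw [hTOk.2 z]
      exact hcq
    have h1 := AG3_tdg X.E z f (fun l hl h1 h2 => by
      rw [hXo l h1 h2]
      exact AG3_isN_isZ (hN l hl h1 h2))
    have h2 : IsZ (X.E (z, f) * (f : ℚ) + X.E (z, f + 1) * ((f + 1 : ℕ) : ℚ)) := by
      have := AG3_isZ_sub htd h1
      have e : tdg X.E z - (tdg X.E z - (X.E (z, f) * (f : ℚ) + X.E (z, f + 1) *
          ((f + 1 : ℕ) : ℚ))) = X.E (z, f) * (f : ℚ) + X.E (z, f + 1) * ((f + 1 : ℕ) : ℚ) := by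
        ring
      rwa [e] at this
    have hfz : IsZ ((f : ℕ) : ℚ) := ⟨f, by push_cast; rfl⟩
    have h3 : IsZ (X.E (z, f + 1)) := by
      have := AG3_isZ_sub h2 (AG3_isZ_mul hXs hfz)
      have e : X.E (z, f) * (f : ℚ) + X.E (z, f + 1) * ((f + 1 : ℕ) : ℚ) -
          (X.E (z, f) + X.E (z, f + 1)) * ((f : ℕ) : ℚ) = X.E (z, f + 1) := by
        push_cast
        ring
      rwa [e] at this
    have h4 : IsZ (X.E (z, f)) := by
      have := AG3_isZ_sub hXs h3
      have e : X.E (z, f) + X.E (z, f + 1) - X.E (z, f + 1) = X.E (z, f) := by ring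
      rwa [e] at this
    have hD : DReg X z := by
      refine ⟨?_, ?_⟩
      · intro l hl
        by_cases hlf : l = f
        · rw [hlf]
          exact AG3_isZ_nonneg h4 (by linarith)
        · by_cases hlf' : l = f + 1
          · rw [hlf']
            exact AG3_isZ_nonneg h3 (le_trans h0 hX1')
          · rw [hXo l hlf hlf']
            exact hN l hl hlf hlf'
      · intro j l hl hΛ
        have hjU : j ∉ U ∧ T.Λ j (z, l) ≠ 0 := by
          by_cases hj1 : j ∈ (AG3_F a cd f U π).biUnion id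
          · exfalso
            apply hΛ
            have : X.Λ j = sy j (f - 1) := by
              show (if j ∈ (AG3_F a cd f U π).biUnion id then _ else _) = _
              rw [if_pos hj1]
            rw [this]
            refine Finsupp.single_eq_of_ne ?_
            intro hc
            exact hne j (hsub hj1) (Prod.mk.inj hc).1.symm
          · by_cases hj2 : j ∈ U
            · exfalso
              apply hΛ
              have : X.Λ j = sy j (π.s j + 1) := by
                show (if j ∈ (AG3_F a cd f U π).biUnion id then _ else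
                  if j ∈ U \ (AG3_F a cd f U π).biUnion id then _ else _) = _
                rw [if_neg hj1, if_pos (Finset.mem_sdiff.mpr ⟨hj2, hj1⟩)]
              rw [this]
              refine Finsupp.single_eq_of_ne ?_
              intro hc
              exact hne j hj2 (Prod.mk.inj hc).1.symm
            · refine ⟨hj2, ?_⟩
              have : X.Λ j = T.Λ j := by
                show (if j ∈ (AG3_F a cd f U π).biUnion id then _ else
                  if j ∈ U \ (AG3_F a cd f U π).biUnion id then _ else _) = _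
                rw [if_neg hj1, if_neg (fun hc => hj2 (Finset.mem_sdiff.mp hc).1)]
                rfl
              rwa [this] at hΛ
        by_cases hlf : l = f
        · rw [hlf]
          exact hX0'
        · have h5 : 1 ≤ T.E (z, l) := by
            rcases hcol j hjU.1 l hl hjU.2 with h | h
            · exact absurd h hlf
            · exact h
          by_cases hlf' : l = f + 1
          · rw [hlf'] at h5 ⊢
            linarith
          · rw [hXo l hlf hlf']
            exact h5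
    rw [TV_van a hs X z hzz hD, mul_zero]
  · have : TV a X = 0 := by
      unfold TV
      exact if_neg hTOk
    rw [this, mul_zero]

end

end Pool.Agent.H27.KAC

end

section

/-!
KAC ADE, module AG4: Frobenius with fixed insertions.

`frob_ins`: by `TV_frob` the value of `X = T.etaM a κ (-q)` is congruent to the value of `X.pow p = (T.pow p).etaM a κ (-p q)`
(`etaM_pow`); by `TV_rep` with the integral vector `v = (p - 1) q` on `N` (`p ≡ 1` modulo the denominators of `q`) this is
the value of `(T.pow p).etaM a κ (-q)`.  Positivity: `solN` of the exponents of `X.pow p` is `p q + p solN (T.E)`,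
`≥ p q > (p-1) q` on `N`.

`frob_pat`: `patT a U π T = (T.cols U ..).etaM a π.s (- resQ U π.q)`, apply `frob_ins` with
`N = {x ∈ insS U π | 1 ≤ π.s x}`; the insertions of level `0` do not matter (`TV_lev0`).
-/

set_option autoImplicit false

namespace Pool.Agent.H27.KAC

open scoped BigOperators

/-- `P p` holds for all large primes `p ≡ 1` modulo some `d`. -/
def EvP (P : ℕ → Prop) : Prop :=
  ∃ d N : ℕ, 1 ≤ d ∧ ∀ p : ℕ, N ≤ p → p.Prime → p % d = 1 % d → P p

theorem EvP.and {P Q : ℕ → Prop} (hP : EvP P) (hQ : EvP Q) : EvP (fun p => P p ∧ Q p) := by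
  obtain ⟨d, N, hd, h⟩ := hP
  obtain ⟨d', N', hd', h'⟩ := hQ
  refine ⟨d * d', max N N', Nat.mul_pos hd hd', fun p hp hpp hmod => ?_⟩
  have h1 : p ≡ 1 [MOD d * d'] := hmod
  exact ⟨h p (le_trans (le_max_left _ _) hp) hpp (h1.of_mul_right d'),
    h' p (le_trans (le_max_right _ _) hp) hpp (h1.of_mul_left d)⟩

theorem EvP.mono {P Q : ℕ → Prop} (hP : EvP P) (h : ∀ p, P p → Q p) : EvP Q := by
  obtain ⟨d, N, hd, h'⟩ := hP
  exact ⟨d, N, hd, fun p hp hpp hmod => h p (h' p hp hpp hmod)⟩

theorem EvP.of_large {P : ℕ → Prop} (N : ℕ) (h : ∀ p, N ≤ p → P p) : EvP P :=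
  ⟨1, N, le_refl 1, fun p hp _ _ => h p hp⟩

theorem EvP.prime : EvP (fun p => p.Prime) :=
  ⟨1, 0, le_refl 1, fun _ _ hpp _ => hpp⟩

theorem EvP.finset {ι : Type} (s : Finset ι) {P : ι → ℕ → Prop} (h : ∀ i ∈ s, EvP (P i)) :
    EvP (fun p => ∀ i ∈ s, P i p) := by
  classical
  induction s using Finset.induction_on with
  | empty => exact EvP.of_large 0 (fun p _ i hi => absurd hi (Finset.notMem_empty i))
  | insert i s hi ih =>
    refine ((h i (Finset.mem_insert_self i s)).and
      (ih (fun j hj => h j (Finset.mem_insert_of_mem hj)))).mono ?_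
    rintro p ⟨h1, h2⟩ j hj
    rcases Finset.mem_insert.1 hj with rfl | hj
    · exact h1
    · exact h2 j hj

theorem EvP.list {ι : Type} (s : List ι) {P : ι → ℕ → Prop} (h : ∀ i ∈ s, EvP (P i)) :
    EvP (fun p => ∀ i ∈ s, P i p) := by
  induction s with
  | nil => exact EvP.of_large 0 (fun p _ i hi => absurd hi List.not_mem_nil)
  | cons i s ih =>
    refine ((h i List.mem_cons_self).and
      (ih (fun j hj => h j (List.mem_cons_of_mem i hj)))).mono ?_
    rintro p ⟨h1, h2⟩ j hj
    rcases List.mem_cons.1 hj with rfl | hj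
    · exact h1
    · exact h2 j hj

/-- `(p - 1) q` is an integer. -/
theorem EvP.sub_one_mul (q : ℚ) : EvP (fun p => IsZ (((p : ℚ) - 1) * q)) := by
  refine ⟨q.den, 1, q.den_pos, fun p hp _ hmod => ?_⟩
  have h1 : 1 ≡ p [MOD q.den] := (show p ≡ 1 [MOD q.den] from hmod).symm
  rw [Nat.modEq_iff_dvd' hp] at h1
  obtain ⟨k, hk⟩ := h1
  refine ⟨k * q.num, ?_⟩
  have h2 : (p : ℚ) - 1 = q.den * k := by
    have h3 : ((p - 1 : ℕ) : ℚ) = ((q.den * k : ℕ) : ℚ) := by rw [hk]
    rw [Nat.cast_sub hp] at h3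
    push_cast at h3
    exact h3
  rw [h2]
  push_cast
  have h3 := Rat.mul_den_eq_num q
  linear_combination (k : ℚ) * h3

/-- `p q` is larger than any bound if `q > 0`. -/
theorem EvP.large_mul (q : ℚ) (hq : 0 < q) (B : ℚ) : EvP (fun p => B ≤ (p : ℚ) * q) := by
  refine EvP.of_large ⌈B / q⌉₊ (fun p hp => ?_)
  rw [← div_le_iff₀ hq]
  exact (Nat.le_ceil _).trans (by exact_mod_cast hp)

theorem EvP.eq_zero (q : ℚ) (h : EvP (fun p => PD p q)) : q = 0 := by
  obtain ⟨d, N, hd, h⟩ := h
  exact eq_zero_of_PD_mod q d hd ⟨N, h⟩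

theorem EvP.PI (q : ℚ) : EvP (fun p => PI p q) := by
  obtain ⟨N, h⟩ := PI_of_large q
  exact EvP.of_large N h

section

variable {I : Type} [Fintype I] [DecidableEq I]

private theorem AG4_cart_symm (a : I → I → ℕ) (hs : ∀ i j, a i j = a j i) (i j : I) :
    cart a i j = cart a j i := by
  unfold cart
  rw [hs i j]
  congr 1
  by_cases h : i = j
  · rw [if_pos h, if_pos h.symm]
  · rw [if_neg h, if_neg (Ne.symm h)]

private theorem AG4_cart_zero (a : I → I → ℕ) (i j : I) (h : i ≠ j) (h0 : a i j = 0) :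
    cart a i j = 0 := by
  unfold cart
  rw [if_neg h, h0]
  simp

/-- exponents in the directions of `N`. -/
private theorem AG4_E (a : I → I → ℕ) (hs : ∀ i j, a i j = a j i) (N : Finset I)
    (κ : I → ℕ) (hadj : ∀ x ∈ N, ∀ y ∈ N, 0 < a x y → κ x = κ y)
    (q : I → ℚ) (hq0 : ∀ i, i ∉ N → q i = 0) (T : Trm I) (x : I) (hx : x ∈ N) (l : ℕ) :
    (T.etaM a κ (fun i => -q i)).E (x, l) =
      T.E (x, l) + if l = κ x then cqN a N q x else 0 := by
  rw [etaM_E]
  have key : ∑ y ∈ Finset.univ.filter (fun y => κ y = l), q y * (cart a y x : ℚ) =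
      if l = κ x then cqN a N q x else 0 := by
    rw [Finset.sum_filter]
    have h2 : (if l = κ x then cqN a N q x else 0) =
        ∑ y, if y ∈ N then (if l = κ x then (cart a x y : ℚ) * q y else 0) else 0 := by
      rw [← Finset.sum_filter, Finset.filter_mem_eq_inter, Finset.univ_inter]
      split_ifs with h
      · rfl
      · simp
    rw [h2]
    refine Finset.sum_congr rfl (fun y _ => ?_)
    by_cases hy : y ∈ N
    · rw [if_pos hy]
      by_cases h1 : l = κ x
      · rw [if_pos h1]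
        by_cases h3 : κ y = l
        · rw [if_pos h3, AG4_cart_symm a hs y x, mul_comm]
        · rw [if_neg h3]
          have h4 : x ≠ y := by
            rintro rfl
            exact h3 h1.symm
          have h5 : a x y = 0 := by
            rcases Nat.eq_zero_or_pos (a x y) with h6 | h6
            · exact h6
            · exact absurd ((hadj x hx y hy h6).symm.trans h1.symm) h3
          rw [AG4_cart_zero a x y h4 h5]
          simp
      · rw [if_neg h1]
        by_cases h3 : κ y = l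
        · rw [if_pos h3]
          have h4 : y ≠ x := by
            rintro rfl
            exact h1 h3.symm
          have h5 : a y x = 0 := by
            rcases Nat.eq_zero_or_pos (a y x) with h6 | h6
            · exact h6
            · exact absurd (h3.symm.trans (hadj y hy x hx h6)) h1
          rw [AG4_cart_zero a y x h4 h5]
          simp
        · rw [if_neg h3]
    · rw [if_neg hy, hq0 y hy]
      simp
  have h3 : ∑ y ∈ Finset.univ.filter (fun y => κ y = l), -q y * (cart a y x : ℚ) =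
      -∑ y ∈ Finset.univ.filter (fun y => κ y = l), q y * (cart a y x : ℚ) := by
    rw [← Finset.sum_neg_distrib]
    exact Finset.sum_congr rfl (fun y _ => by ring)
  rw [h3, key]
  ring

theorem frob_ins (a : I → I → ℕ) (hs : ∀ i j, a i j = a j i) (N : Finset I) (hN : FinT a N)
    (κ σ : I → ℕ) (hκ : ∀ x ∈ N, 1 ≤ κ x)
    (hadj : ∀ x ∈ N, ∀ y ∈ N, 0 < a x y → κ x = κ y) (hσ : ∀ x ∈ N, Side (κ x) (σ x))
    (q : I → ℚ) (hq0 : ∀ i, i ∉ N → q i = 0) (hq : QOk a N q) (T : Trm I)
    (hT : ∀ x ∈ N, ∀ l, 1 ≤ l → IsN (T.E (x, l)))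
    (hc : ∀ x ∈ N, ∀ j l, 1 ≤ l → T.Λ j (x, l) ≠ 0 → l = σ x ∨ 1 ≤ T.E (x, l)) :
    EvP (fun p => PD p (TV a ((T.pow p).etaM a κ (fun i => -q i)) - TV a (T.etaM a κ (fun i => -q i)))) := by
  have hE := AG4_E a hs N κ hadj q hq0 T
  have hqint : ∀ x ∈ N, ∃ n : ℕ, 1 ≤ n ∧ cqN a N q x = n := hq
  have hqpos : ∀ x ∈ N, 0 < q x := by
    intro x hx
    rw [← solN_cqN hs hN q x hx]
    refine solN_pos_self hs hN _ (fun i hi => ?_) x hx ?_
    · obtain ⟨n, _, hn⟩ := hqint i hi
      rw [hn]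
      exact Nat.cast_nonneg n
    · obtain ⟨n, hn1, hn⟩ := hqint x hx
      rw [hn]
      exact_mod_cast hn1
  have hF : ∀ x ∈ N, FReg (T.etaM a κ (fun i => -q i)) x (κ x) (σ x) := by
    intro x hx
    refine ⟨?_, ?_, ?_⟩
    · intro l hl hlk
      rw [hE x hx l, if_neg hlk, add_zero]
      exact hT x hx l hl
    · rw [hE x hx (κ x), if_pos rfl]
      obtain ⟨m, hm⟩ := hT x hx (κ x) (hκ x hx)
      obtain ⟨n, _, hn⟩ := hqint x hx
      exact ⟨(m : ℤ) + n, by rw [hm, hn]; push_cast; ring⟩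
    · intro j l hl hne
      rcases hc x hx j l hl hne with h1 | h1
      · exact Or.inl h1
      · by_cases h2 : l = κ x
        · exact Or.inr (Or.inl h2)
        · refine Or.inr (Or.inr ?_)
          rw [hE x hx l, if_neg h2, add_zero]
          exact h1
  obtain ⟨N0, hN0⟩ := TPI_of_large (T.etaM a κ (fun i => -q i))
  refine (((EvP.of_large N0 hN0).and EvP.prime).and
    (EvP.finset Finset.univ (fun i _ => EvP.sub_one_mul (q i)))).mono ?_
  rintro p ⟨⟨h1, h2⟩, h3⟩
  have hp1 : 1 ≤ p := h2.one_lt.le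
  have hp1' : (1 : ℚ) ≤ p := by exact_mod_cast hp1
  choose v hv using fun i => h3 i (Finset.mem_univ i)
  have hsol : ∀ x ∈ N, solN a N (fun i => ((T.etaM a κ (fun i => -q i)).pow p).E (i, κ i)) x =
      p * (solN a N (fun i => T.E (i, κ i)) x + q x) := by
    intro x hx
    have e1 : solN a N (fun i => ((T.etaM a κ (fun i => -q i)).pow p).E (i, κ i)) =
        solN a N (fun i => (p : ℚ) * (T.E (i, κ i) + cqN a N q i)) := by
      refine solN_congr hs hN _ _ (fun i hi => ?_)
      have e2 : ((T.etaM a κ (fun i => -q i)).pow p).E (i, κ i) =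
          (p : ℚ) * (T.etaM a κ (fun i => -q i)).E (i, κ i) := rfl
      rw [e2, hE i hi (κ i), if_pos rfl]
    rw [e1, solN_smul hs hN, solN_add hs hN, solN_cqN hs hN q x hx]
  have hs0 : ∀ x, 0 ≤ solN a N (fun i => T.E (i, κ i)) x := by
    intro x
    refine solN_nonneg hs hN _ (fun i hi => ?_) x
    obtain ⟨m, hm⟩ := hT i hi (κ i) (hκ i hi)
    rw [hm]
    exact Nat.cast_nonneg m
  have key := TV_rep a hs N hN κ σ hκ hadj hσ ((T.etaM a κ (fun i => -q i)).pow p)
    (fun x hx => (hF x hx).pow p hp1)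
    (fun x hx => by
      rw [hsol x hx]
      exact mul_pos (by linarith) (by linarith [hs0 x, hqpos x hx])) v
    (fun i hi => by
      have h4 := hv i
      rw [hq0 i hi, mul_zero] at h4
      exact_mod_cast h4.symm)
    (fun x hx => by
      rw [hsol x hx, ← hv x]
      have h5 := hs0 x
      have h6 := hqpos x hx
      nlinarith)
  have hfin : ((T.etaM a κ (fun i => -q i)).pow p).etaM a κ (fun i => (v i : ℚ)) =
      (T.pow p).etaM a κ (fun i => -q i) := by
    rw [etaM_pow, etaM_etaM]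
    congr 1
    funext i
    rw [← hv i]
    ring
  rw [hfin] at key
  rw [← key]
  exact TV_frob h2 a hs _ h1

theorem frob_pat (a : I → I → ℕ) (hs : ∀ i j, a i j = a j i) (U : Finset I) (hU : FinT a U)
    (π : Pat I) (hπ : PatOk a U π) (T : Trm I) (hT : RReg U T) :
    EvP (fun p => PD p (TV a (patT a U π (T.pow p)) - TV a (patT a U π T))) := by
  classical
  obtain ⟨N, hNdef⟩ : ∃ N : Finset I, N = (insS U π).filter (fun x => 1 ≤ π.s x) := ⟨_, rfl⟩
  have hNmem : ∀ x, x ∈ N ↔ x ∈ insS U π ∧ 1 ≤ π.s x := by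
    intro x
    rw [hNdef, Finset.mem_filter]
  have hNU : N ⊆ U := by
    intro x hx
    exact insS_subset U π ((hNmem x).1 hx).1
  have hcomp : ∀ x ∈ N, ∃ A ∈ comps a (insS U π), x ∈ A ∧ A ⊆ N := by
    intro x hx
    obtain ⟨h1, h2⟩ := (hNmem x).1 hx
    obtain ⟨A, hA, hxA⟩ := comps_cover hs x h1
    refine ⟨A, hA, hxA, fun y hy => ?_⟩
    rw [hNmem]
    refine ⟨comps_subset hA hy, ?_⟩
    rw [hπ.lev A hA y hy x hxA]
    exact h2
  have hadj : ∀ x ∈ N, ∀ y ∈ N, 0 < a x y → π.s x = π.s y := by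
    intro x hx y hy hxy
    obtain ⟨A, hA, hxA, _⟩ := hcomp x hx
    have hyA : y ∈ A := by
      by_contra hyA
      have h3 := comps_sep hA x hxA y ((hNmem y).1 hy).1 hyA
      omega
    exact hπ.lev A hA x hxA y hyA
  obtain ⟨q, hq⟩ : ∃ q : I → ℚ, q = resQ N π.q := ⟨_, rfl⟩
  have hqin : ∀ i ∈ N, q i = π.q i := by
    intro i hi
    rw [hq]
    exact if_pos hi
  have hqout : ∀ i, i ∉ N → q i = 0 := by
    intro i hi
    rw [hq]
    exact if_neg hi
  have hqok : QOk a N q := by
    intro x hx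
    obtain ⟨A, hA, hxA, hAN⟩ := hcomp x hx
    obtain ⟨n, hn1, hn⟩ := hπ.qok A hA x hxA
    refine ⟨n, hn1, ?_⟩
    rw [← hn]
    unfold cqN
    rw [← Finset.sum_subset hAN]
    · exact Finset.sum_congr rfl (fun j hj => by rw [hqin j (hAN hj)])
    · intro j hj hjA
      have h3 := comps_sep hA x hxA j ((hNmem j).1 hj).1 hjA
      have h4 : x ≠ j := by
        rintro rfl
        exact hjA hxA
      rw [AG4_cart_zero a x j h4 h3]
      simp
  obtain ⟨c, hc⟩ : ∃ c : I → QE I, c = fun x => sy x (π.s x + 1) := ⟨_, rfl⟩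
  have main := frob_ins a hs N (hU.mono hNU) π.s (fun x => π.s x + 1)
    (fun x hx => ((hNmem x).1 hx).2) hadj (fun x _ => Or.inl rfl) q hqout hqok (T.cols U c)
    (fun x hx l hl => hT.nat x (hNU hx) l hl)
    (fun x hx j l hl hne => by
      by_cases hj : j ∈ U
      · left
        have h3 : (T.cols U c).Λ j = c j := if_pos hj
        rw [h3, hc] at hne
        have h4 : (Finsupp.single (j, π.s j + 1) (1 : ℚ)) (x, l) ≠ 0 := hne
        rw [Finsupp.single_apply] at h4
        by_cases h5 : (j, π.s j + 1) = (x, l)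
        · have h6 : j = x := congrArg Prod.fst h5
          have h7 : π.s j + 1 = l := congrArg Prod.snd h5
          rw [← h7, h6]
        · rw [if_neg h5] at h4
          exact absurd rfl h4
      · right
        have h3 : (T.cols U c).Λ j = T.Λ j := if_neg hj
        rw [h3] at hne
        exact hT.col x (hNU hx) j hj l hl hne)
  have hlev : ∀ X : Trm I, TV a (patT a U π X) =
      TV a ((X.cols U c).etaM a π.s (fun i => -q i)) := by
    intro X
    have h0 : ∀ i, i ∉ N → resQ U π.q i ≠ 0 → π.s i = 0 := by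
      intro i hi hne
      have hiU : i ∈ U := by
        by_contra hiU
        exact hne (if_neg hiU)
      have h1 : resQ U π.q i = π.q i := if_pos hiU
      rw [h1] at hne
      have h2 : i ∈ insS U π := Finset.mem_filter.2 ⟨hiU, hne⟩
      by_contra h3
      exact hi ((hNmem i).2 ⟨h2, Nat.one_le_iff_ne_zero.2 h3⟩)
    have h1 : ∀ i, π.s i ≠ 0 → resQ U π.q i = q i := by
      intro i hi
      by_cases hiN : i ∈ N
      · rw [hqin i hiN]
        exact if_pos (hNU hiN)
      · rw [hqout i hiN]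
        by_contra h2
        exact hi (h0 i hiN h2)
    refine TV_lev0 a _ _ ?_ ?_ ?_
    · funext i
      have e1 : (patT a U π X).γ i = X.γ i - π.s i * -resQ U π.q i := rfl
      have e2 : ((X.cols U c).etaM a π.s (fun i => -q i)).γ i = X.γ i - π.s i * -q i := rfl
      rw [e1, e2]
      by_cases hi : π.s i = 0
      · rw [hi]
        simp
      · rw [h1 i hi]
    · intro i k hk
      have e1 : (patT a U π X).E (i, k) = (X.etaM a π.s (fun i => -resQ U π.q i)).E (i, k) := rfl
      have e2 : ((X.cols U c).etaM a π.s (fun i => -q i)).E (i, k) =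
          (X.etaM a π.s (fun i => -q i)).E (i, k) := rfl
      rw [e1, e2, etaM_E, etaM_E]
      congr 1
      refine Finset.sum_congr rfl (fun x hx => ?_)
      have hx1 : π.s x = k := (Finset.mem_filter.1 hx).2
      rw [h1 x (by omega)]
    · intro j i k hk
      rw [hc]
      rfl
  refine main.mono (fun p hp => ?_)
  rw [hlev, hlev]
  exact hp

/-- the joint value of several blocks. -/
theorem frob_evU (a : I → I → ℕ) (hs : ∀ i j, a i j = a j i) (U : List (Finset I × FFn I))
    (hU : FinT a (uni U)) (hd : U.Pairwise (fun b c => Disjoint b.1 c.1))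
    (hok : ∀ c ∈ prodF U, PatOk a (uni U) c.2) (T : Trm I) (hT : RReg (uni U) T) :
    EvP (fun p => PD p (evU a U (T.pow p) - evU a U T)) := by
  have h1 : EvP (fun p => ∀ c ∈ prodF U, PD p (c.1 * (TV a (patT a (uni U) c.2 (T.pow p)) -
      TV a (patT a (uni U) c.2 T)))) := by
    refine EvP.list _ (fun c hc => ?_)
    refine (((frob_pat a hs (uni U) hU c.2 (hok c hc) T hT).and (EvP.PI c.1)).and
      EvP.prime).mono ?_
    rintro p ⟨⟨h2, h3⟩, h4⟩
    exact PD_mul h4 h2 h3
  refine (h1.and EvP.prime).mono ?_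
  rintro p ⟨h2, h3⟩
  rw [evU_eq_evF a U hd, evU_eq_evF a U hd]
  unfold evF
  have h4 : ∀ L : FFn I, (∀ c ∈ L, PD p (c.1 * (TV a (patT a (uni U) c.2 (T.pow p)) -
      TV a (patT a (uni U) c.2 T)))) →
      PD p ((L.map (fun c => c.1 * TV a (patT a (uni U) c.2 (T.pow p)))).sum -
        (L.map (fun c => c.1 * TV a (patT a (uni U) c.2 T))).sum) := by
    intro L
    induction L with
    | nil =>
      intro _
      simp only [List.map_nil, List.sum_nil, sub_self]
      exact PD_zero h3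
    | cons c L ih =>
      intro h5
      have h6 := PD_add h3 (h5 c List.mem_cons_self)
        (ih (fun d hd => h5 d (List.mem_cons_of_mem c hd)))
      simp only [List.map_cons, List.sum_cons]
      have h7 : c.1 * TV a (patT a (uni U) c.2 (T.pow p)) +
          (L.map (fun c => c.1 * TV a (patT a (uni U) c.2 (T.pow p)))).sum -
          (c.1 * TV a (patT a (uni U) c.2 T) +
          (L.map (fun c => c.1 * TV a (patT a (uni U) c.2 T))).sum) =
          c.1 * (TV a (patT a (uni U) c.2 (T.pow p)) - TV a (patT a (uni U) c.2 T)) +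
          ((L.map (fun c => c.1 * TV a (patT a (uni U) c.2 (T.pow p)))).sum -
          (L.map (fun c => c.1 * TV a (patT a (uni U) c.2 T))).sum) := by ring
      rw [h7]
      exact h6
  exact h4 _ h2

private theorem AG4_sep (a : I → I → ℕ) (B : Finset I) (L : List (Blk I))
    (h : ∀ c ∈ L, Sep a B c.B) : Sep a B (uniB L) := by
  constructor
  · rw [Finset.disjoint_left]
    intro x hx hx'
    obtain ⟨c, hc, hxc⟩ := (mem_uniB L x).1 hx'
    exact Finset.disjoint_left.1 (h c hc).1 hx hxc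
  · intro x hx y hy
    obtain ⟨c, hc, hyc⟩ := (mem_uniB L y).1 hy
    exact (h c hc).2 x hx y hyc

/-- the side level of the block of a vertex. -/
private def AG4_sL (f : ℕ) : List (Blk I) → I → ℕ
  | [], _ => f + 1
  | b :: L, x => if x ∈ b.B then b.sd f else AG4_sL f L x

/-- the class of the block of a vertex. -/
private def AG4_qL : List (Blk I) → I → ℚ
  | [], _ => 0
  | b :: L, x => if x ∈ b.B then b.q x else AG4_qL L x

private theorem AG4_qL_out (L : List (Blk I)) (x : I) (hx : x ∉ uniB L) : AG4_qL L x = 0 := by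
  induction L with
  | nil => rfl
  | cons b L ih =>
    have h1 : x ∉ b.B := fun h => hx ((mem_uniB _ x).2 ⟨b, List.mem_cons_self, h⟩)
    have h2 : x ∉ uniB L := by
      intro h
      obtain ⟨c, hc, hxc⟩ := (mem_uniB L x).1 h
      exact hx ((mem_uniB _ x).2 ⟨c, List.mem_cons_of_mem b hc, hxc⟩)
    have h3 : AG4_qL (b :: L) x = AG4_qL L x := if_neg h1
    rw [h3, ih h2]

private theorem AG4_side (f : ℕ) (hf : 1 ≤ f) (L : List (Blk I)) (x : I) :
    Side f (AG4_sL f L x) := by
  induction L with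
  | nil => exact Or.inl rfl
  | cons b L ih =>
    by_cases h : x ∈ b.B
    · have h1 : AG4_sL f (b :: L) x = b.sd f := if_pos h
      rw [h1]
      unfold Blk.sd
      split_ifs
      · right
        omega
      · exact Or.inl rfl
    · have h1 : AG4_sL f (b :: L) x = AG4_sL f L x := if_neg h
      rw [h1]
      exact ih

private theorem AG4_qok (a : I → I → ℕ) (hs : ∀ i j, a i j = a j i) (L : List (Blk I))
    (hq : ∀ b ∈ L, QOk a b.B b.q) (hd : L.Pairwise (fun b c => Sep a b.B c.B)) :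
    QOk a (uniB L) (AG4_qL L) := by
  induction L with
  | nil =>
    intro x hx
    exact absurd hx (Finset.notMem_empty x)
  | cons b L ih =>
    rw [List.pairwise_cons] at hd
    have hsep := AG4_sep a b.B L hd.1
    have hih := ih (fun c hc => hq c (List.mem_cons_of_mem b hc)) hd.2
    have hu : uniB (b :: L) = b.B ∪ uniB L := rfl
    intro x hx
    have hval1 : ∀ j ∈ b.B, AG4_qL (b :: L) j = b.q j := fun j hj => if_pos hj
    have hval2 : ∀ j ∈ uniB L, AG4_qL (b :: L) j = AG4_qL L j := fun j hj =>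
      if_neg (fun h => Finset.disjoint_left.1 hsep.1 h hj)
    have hsum : cqN a (uniB (b :: L)) (AG4_qL (b :: L)) x =
        ∑ j ∈ b.B, (cart a x j : ℚ) * b.q j + ∑ j ∈ uniB L, (cart a x j : ℚ) * AG4_qL L j := by
      unfold cqN
      rw [hu, Finset.sum_union hsep.1]
      congr 1
      · exact Finset.sum_congr rfl (fun j hj => by rw [hval1 j hj])
      · exact Finset.sum_congr rfl (fun j hj => by rw [hval2 j hj])
    rw [hu, Finset.mem_union] at hx
    rcases hx with hx | hx
    · obtain ⟨n, hn1, hn⟩ := hq b List.mem_cons_self x hx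
      refine ⟨n, hn1, ?_⟩
      rw [hsum, ← hn]
      have h0 : ∑ j ∈ uniB L, (cart a x j : ℚ) * AG4_qL L j = 0 := by
        refine Finset.sum_eq_zero (fun j hj => ?_)
        have h4 : x ≠ j := by
          rintro rfl
          exact Finset.disjoint_left.1 hsep.1 hx hj
        rw [AG4_cart_zero a x j h4 (hsep.2 x hx j hj)]
        simp
      rw [h0, add_zero]
      rfl
    · obtain ⟨n, hn1, hn⟩ := hih x hx
      refine ⟨n, hn1, ?_⟩
      rw [hsum, ← hn]
      have h0 : ∑ j ∈ b.B, (cart a x j : ℚ) * b.q j = 0 := by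
        refine Finset.sum_eq_zero (fun j hj => ?_)
        have h4 : x ≠ j := by
          rintro rfl
          exact Finset.disjoint_left.1 hsep.1 hj hx
        rw [AG4_cart_zero a x j h4 (by rw [hs x j]; exact hsep.2 j hj x hx)]
        simp
      rw [h0, zero_add]
      rfl

/-- the explicit term as one insertion. -/
private theorem AG4_expl (a : I → I → ℕ) (f : ℕ) (L : List (Blk I))
    (hd : L.Pairwise (fun b c => Disjoint b.B c.B)) (T : Trm I) :
    expl a f L T = (T.cols (uniB L) (fun x => sy x (AG4_sL f L x))).etaM a (fun _ => f)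
      (fun i => -AG4_qL L i) := by
  induction L with
  | nil =>
    have h1 : (fun i : I => -AG4_qL ([] : List (Blk I)) i) = fun _ => (0 : ℚ) := by
      funext i
      exact neg_zero
    rw [h1, etaM_zero]
    refine Trm.ext rfl rfl ?_
    funext i
    change T.Λ i = if i ∈ (∅ : Finset I) then sy i (AG4_sL f ([] : List (Blk I)) i) else T.Λ i
    rw [if_neg (Finset.notMem_empty i)]
  | cons b L ih =>
    rw [List.pairwise_cons] at hd
    have hdis : Disjoint b.B (uniB L) := by
      rw [Finset.disjoint_left]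
      intro x hx hx'
      obtain ⟨c, hc, hxc⟩ := (mem_uniB L x).1 hx'
      exact Finset.disjoint_left.1 (hd.1 c hc) hx hxc
    have hE : expl a f (b :: L) T = blkT a b.B f (b.sd f) b.q (expl a f L T) := rfl
    have hB : ∀ X : Trm I, blkT a b.B f (b.sd f) b.q X =
        (X.etaM a (fun _ => f) (fun i => -resQ b.B b.q i)).cols b.B (fun x => sy x (b.sd f)) := by
      intro X
      unfold blkT
      rw [eta_eq_etaM]
    rw [hE, ih hd.2, hB, etaM_etaM]
    have h2 : (fun i => -AG4_qL L i + -resQ b.B b.q i) = fun i => -AG4_qL (b :: L) i := by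
      funext i
      by_cases hi : i ∈ b.B
      · have e1 : AG4_qL (b :: L) i = b.q i := if_pos hi
        have e2 : resQ b.B b.q i = b.q i := if_pos hi
        rw [e1, e2, AG4_qL_out L i (Finset.disjoint_left.1 hdis hi)]
        ring
      · have e1 : AG4_qL (b :: L) i = AG4_qL L i := if_neg hi
        have e2 : resQ b.B b.q i = 0 := if_neg hi
        rw [e1, e2]
        ring
    rw [h2]
    refine Trm.ext rfl rfl ?_
    funext i
    have hu : uniB (b :: L) = b.B ∪ uniB L := rfl
    change (if i ∈ b.B then sy i (b.sd f) else if i ∈ uniB L then sy i (AG4_sL f L i) else T.Λ i) =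
      if i ∈ uniB (b :: L) then sy i (AG4_sL f (b :: L) i) else T.Λ i
    rw [hu]
    by_cases hi : i ∈ b.B
    · have e1 : AG4_sL f (b :: L) i = b.sd f := if_pos hi
      rw [if_pos hi, if_pos (Finset.mem_union_left _ hi), e1]
    · have e1 : AG4_sL f (b :: L) i = AG4_sL f L i := if_neg hi
      rw [if_neg hi, e1]
      by_cases hi' : i ∈ uniB L
      · rw [if_pos hi', if_pos (Finset.mem_union_right _ hi')]
      · rw [if_neg hi', if_neg (by rw [Finset.mem_union]; tauto)]

/-- the blocks form a finite type set. -/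
theorem FinT_uniB (a : I → I → ℕ) (hs : ∀ i j, a i j = a j i) (L : List (Blk I))
    (hfin : ∀ b ∈ L, FinT a b.B) (hd : L.Pairwise (fun b c => Sep a b.B c.B)) : FinT a (uniB L) := by
  induction L with
  | nil => exact FinT.empty a
  | cons b L ih =>
    rw [List.pairwise_cons] at hd
    have h1 : FinT a (b.B ∪ uniB L) :=
      FinT.union_sep hs (hfin b List.mem_cons_self)
        (ih (fun c hc => hfin c (List.mem_cons_of_mem b hc)) hd.2) (AG4_sep a b.B L hd.1)
    exact h1

/-- explicit blocks. -/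
theorem frob_expl (a : I → I → ℕ) (hs : ∀ i j, a i j = a j i) (f : ℕ) (hf : 1 ≤ f)
    (L : List (Blk I)) (hfin : ∀ b ∈ L, FinT a b.B) (hq : ∀ b ∈ L, QOk a b.B b.q)
    (hd : L.Pairwise (fun b c => Sep a b.B c.B)) (T : Trm I) (hT : RReg (uniB L) T) :
    EvP (fun p => PD p (TV a (expl a f L (T.pow p)) - TV a (expl a f L T))) := by
  obtain ⟨c, hc⟩ : ∃ c : I → QE I, c = fun x => sy x (AG4_sL f L x) := ⟨_, rfl⟩
  have hd' : L.Pairwise (fun b c => Disjoint b.B c.B) := hd.imp (fun h => h.1)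
  have main := frob_ins a hs (uniB L) (FinT_uniB a hs L hfin hd) (fun _ => f)
    (fun x => AG4_sL f L x) (fun _ _ => hf) (fun _ _ _ _ _ => rfl)
    (fun x _ => AG4_side f hf L x) (AG4_qL L) (fun i hi => AG4_qL_out L i hi)
    (AG4_qok a hs L hq hd) (T.cols (uniB L) c)
    (fun x hx l hl => hT.nat x hx l hl)
    (fun x hx j l hl hne => by
      by_cases hj : j ∈ uniB L
      · left
        have h3 : (T.cols (uniB L) c).Λ j = c j := if_pos hj
        rw [h3, hc] at hne
        have h4 : (Finsupp.single (j, AG4_sL f L j) (1 : ℚ)) (x, l) ≠ 0 := hne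
        rw [Finsupp.single_apply] at h4
        by_cases h5 : (j, AG4_sL f L j) = (x, l)
        · have h6 : j = x := congrArg Prod.fst h5
          have h7 : AG4_sL f L j = l := congrArg Prod.snd h5
          rw [← h7, h6]
        · rw [if_neg h5] at h4
          exact absurd rfl h4
      · right
        have h3 : (T.cols (uniB L) c).Λ j = T.Λ j := if_neg hj
        rw [h3] at hne
        exact hT.col x hx j hj l hl hne)
  refine main.mono (fun p hp => ?_)
  rw [AG4_expl a f L hd' T, AG4_expl a f L hd' (T.pow p), ← hc]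
  exact hp

end

end Pool.Agent.H27.KAC

end

section

/-!
KAC ADE, growth part: existence of admissible multipartitions for general quivers.
-/

set_option autoImplicit false

namespace Pool.Agent.H27.KB

open scoped BigOperators
open Pool.Agent.H27.KAC Pool.H88.KA

variable {I : Type} [Fintype I] [DecidableEq I]

theorem Adm_exists' (a : I → I → ℕ) (α : I →₀ ℕ) (hα : AmpG a α) (v : I → ℕ)
    (hv : ∀ i, cw a α i = 0 → 1 ≤ ∑ j, cart a i j * (v j : ℤ)) (K : ℕ)
    (hK : 2 ≤ K) : ∃ N0 : ℕ, ∀ n : ℕ, N0 ≤ n → ∃ m : Fin K → I → ℕ, Adm a (n • α) m := by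
  classical
  refine ⟨K * ∑ i, v i + 1 + K * ∑ i, ∑ j, a i j * v j, fun n hn => ?_⟩
  have hge : ∀ i, K * v i + 1 ≤ n * α i := fun i => by
    have h1 : v i ≤ ∑ i, v i :=
      Finset.single_le_sum (f := v) (fun _ _ => Nat.zero_le _) (Finset.mem_univ i)
    have h2 : K * v i ≤ K * ∑ i, v i := Nat.mul_le_mul_left _ h1
    have h3 : n ≤ n * α i := Nat.le_mul_of_pos_right _ (hα.supp i)
    omega
  obtain ⟨K', rfl⟩ : ∃ K', K = K' + 2 := ⟨K - 2, by omega⟩
  set m : Fin (K' + 2) → I → ℕ := fun k i =>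
    if (k : ℕ) = 0 then n * α i - (K' + 2) * v i
    else if (k : ℕ) = K' + 1 then v i else 0 with hm
  have hm0 : ∀ (k : Fin (K' + 2)) (i : I), (k : ℕ) = 0 →
      m k i = n * α i - (K' + 2) * v i := by
    intro k i hk
    simp only [hm]
    rw [if_pos hk]
  have hmK : ∀ (k : Fin (K' + 2)) (i : I), (k : ℕ) = K' + 1 → m k i = v i := by
    intro k i hk
    simp only [hm]
    rw [if_neg (by omega), if_pos hk]
  have hmo : ∀ (k : Fin (K' + 2)) (i : I), (k : ℕ) ≠ 0 → (k : ℕ) ≠ K' + 1 → m k i = 0 := by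
    intro k i h1 h2
    simp only [hm]
    rw [if_neg h1, if_neg h2]
  have hlast : (((Fin.last K').succ : Fin (K' + 2)) : ℕ) = K' + 1 := by simp
  have hmid : ∀ k : Fin K', ((k.castSucc.succ : Fin (K' + 2)) : ℕ) = k + 1 := by
    intro k
    simp
  have hmem : m ∈ Mset (K' + 2) (n • α : I →₀ ℕ) := by
    apply KG2_mem_Mset
    intro i
    rw [Finsupp.smul_apply, smul_eq_mul, Fin.sum_univ_succ, Fin.sum_univ_castSucc]
    have h1 : ∑ k : Fin K', (((k.castSucc.succ : Fin (K' + 2)) : ℕ) + 1) *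
        m k.castSucc.succ i = 0 := by
      refine Finset.sum_eq_zero fun k _ => ?_
      have hk := k.2
      have e1 := hmid k
      rw [hmo _ _ (by omega) (by omega), mul_zero]
    rw [h1, zero_add, hm0 0 i (Fin.val_zero _), hmK _ i hlast, hlast, Fin.val_zero]
    have h3 := hge i
    have h4 : (K' + 1 + 1) * v i = (K' + 2) * v i := by ring
    omega
  refine ⟨m, hmem, ?_, ?_⟩
  · intro i
    unfold mAt
    rw [dif_pos ⟨le_refl 1, by omega⟩]
    have h3 := hge i
    rw [hm0 _ i (by simp)]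
    omega
  · intro l hl1 hlK i
    rw [PLF_eq a (n • α) m hmem l i]
    have hin : ∀ j, ∑ l' : Fin (K' + 2), (((l' : ℕ) + 1 - l : ℕ) : ℤ) * (m l' j : ℤ) =
        ((K' + 2 - l : ℕ) : ℤ) * v j := by
      intro j
      rw [Fin.sum_univ_succ, Fin.sum_univ_castSucc]
      have h1 : ∑ k : Fin K', (((((k.castSucc.succ : Fin (K' + 2)) : ℕ) + 1 - l : ℕ) : ℤ) *
          (m k.castSucc.succ j : ℤ)) = 0 := by
        refine Finset.sum_eq_zero fun k _ => ?_
        have hk := k.2
        have e1 := hmid k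
        rw [hmo _ _ (by omega) (by omega), Nat.cast_zero, mul_zero]
      have h3 : ((((0 : Fin (K' + 2)) : ℕ) + 1 - l : ℕ) : ℤ) = 0 := by
        rw [Fin.val_zero]
        have : 0 + 1 - l = 0 := by omega
        rw [this, Nat.cast_zero]
      rw [h1, h3, zero_mul, zero_add, zero_add, hmK _ j hlast, hlast]
    simp only [hin]
    rw [KG2_cw_nsmul]
    set D : ℤ := ((K' + 2 - l : ℕ) : ℤ) with hD
    have hD1 : 1 ≤ D := by
      rw [hD]
      have : 1 ≤ K' + 2 - l := by omega
      exact_mod_cast this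
    have hD2 : D ≤ (K' + 2 : ℤ) := by
      rw [hD]
      have : K' + 2 - l ≤ K' + 2 := Nat.sub_le _ _
      exact_mod_cast this
    have h0 : ∑ j, cart a i j * (D * (v j : ℤ)) = D * ∑ j, cart a i j * (v j : ℤ) := by
      rw [Finset.mul_sum]
      exact Finset.sum_congr rfl fun j _ => by ring
    rw [h0]
    by_cases hi : cw a α i = 0
    · rw [hi]
      have h1 := hv i hi
      have h2 : D * 1 ≤ D * ∑ j, cart a i j * (v j : ℤ) :=
        mul_le_mul_of_nonneg_left h1 (by linarith)
      linarith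
    · have hs1 : 1 ≤ -cw a α i := by
        have h1 := AmpG.snn hα i
        omega
      have h1 : -(∑ j, ((a i j * v j : ℕ) : ℤ)) ≤ ∑ j, cart a i j * (v j : ℤ) := by
        rw [← Finset.sum_neg_distrib]
        apply Finset.sum_le_sum
        intro j _
        unfold cart
        have h5 : (0 : ℤ) ≤ (v j : ℤ) := by positivity
        split_ifs
        · push_cast
          nlinarith
        · push_cast
          nlinarith
      have h2 : (∑ j, a i j * v j) ≤ ∑ i, ∑ j, a i j * v j :=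
        Finset.single_le_sum (f := fun i => ∑ j, a i j * v j) (fun _ _ => Nat.zero_le _)
          (Finset.mem_univ i)
      have hX : (∑ j, ((a i j * v j : ℕ) : ℤ)) = ((∑ j, a i j * v j : ℕ) : ℤ) := by push_cast; rfl
      rw [hX] at h1
      have h3 : (K' + 2) * (∑ j, a i j * v j) + 1 ≤ n := by
        have := Nat.mul_le_mul_left (K' + 2) h2
        omega
      have h3' : ((K' : ℤ) + 2) * ((∑ j, a i j * v j : ℕ) : ℤ) + 1 ≤ n := by exact_mod_cast h3
      have h4 : (n : ℤ) * 1 ≤ (n : ℤ) * (-cw a α i) :=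
        mul_le_mul_of_nonneg_left hs1 (Int.natCast_nonneg _)
      have h6 : -((n : ℤ) * cw a α i) = (n : ℤ) * (-cw a α i) := by ring
      have h7 : D * (-((∑ j, a i j * v j : ℕ) : ℤ)) ≤ D * ∑ j, cart a i j * (v j : ℤ) :=
        mul_le_mul_of_nonneg_left h1 (by linarith)
      have h8 : D * ((∑ j, a i j * v j : ℕ) : ℤ) ≤ ((K' : ℤ) + 2) * ((∑ j, a i j * v j : ℕ) : ℤ) :=
        mul_le_mul_of_nonneg_right hD2 (Int.natCast_nonneg _)
      rw [h6]
      linarith

end Pool.Agent.H27.KB

end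

section

/-!
KAC ADE, growth part: the window lemma for general quivers.
-/

set_option autoImplicit false

namespace Pool.Agent.H27.KB

open scoped BigOperators
open Pool.Agent.H27.KAC Pool.H88.KA

variable {I : Type} [Fintype I] [DecidableEq I]

theorem window_one' (a : I → I → ℕ) (α : I →₀ ℕ) (hα : AmpG a α) (v : I → ℕ)
    (hv : ∀ i, cw a α i = 0 → 1 ≤ ∑ j, cart a i j * (v j : ℤ))
    (n K : ℕ) (m : Fin K → I → ℕ) (hm : m ∈ Mset K (n • α))
    (hP : ∀ (k : Fin K) (i : I), 0 ≤ PLF a m ((k : ℕ) + 1) i + ((k : ℤ) + 1) * 2)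
    (A1 : ℕ) (hA1 : ∀ i, ∑ j, |cart a i j| ≤ (A1 : ℤ))
    (Θ : ℕ) (hΘ2 : ∀ i, 2 * v i + 1 ≤ Θ) (hΘ : ∀ i, 2 * ∑ j, a i j * v j + 1 ≤ Θ)
    (L κ M u : ℕ) (hL : 1 ≤ L) (hκ : 2 * L ≤ κ) (hM : κ ∣ M) (hM1 : 1 ≤ M) (hu : 1 ≤ u)
    (hE : ∀ j, A1 * (κ + L * ((∑ l ∈ Finset.Icc (L + 1) K, l * mAt m l j) / κ) +
        L * ∑ l ∈ Finset.Icc (L + 1) K, mAt m l j) + 4 * L + 1 ≤ M * u) :
    ∃ m' : Fin κ → I → ℕ, Adm a ((n + Θ * M * u) • α) m' ∧
      (∏ l ∈ Finset.Icc 1 L, ∏ i,
        ((PLF a m l i + 2 * (l : ℤ)).toNat + mAt m l i).choose (mAt m l i)) ≤ EW a m' := by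
  classical
  obtain ⟨e, rfl⟩ := hM
  obtain ⟨w, hw⟩ : ∃ w : I → ℕ, ∀ j, w j = ∑ l ∈ Finset.Icc (L + 1) K, l * mAt m l j :=
    ⟨_, fun _ => rfl⟩
  obtain ⟨b, hb⟩ : ∃ b : I → ℕ, ∀ j, b j = ∑ l ∈ Finset.Icc (L + 1) K, mAt m l j :=
    ⟨_, fun _ => rfl⟩
  obtain ⟨c, hc⟩ : ∃ c : I → ℕ, ∀ j, c j = 2 * (e * u * v j) := ⟨_, fun _ => rfl⟩
  have hκ1 : L < κ := by omega
  have hcle : ∀ i, κ * c i + 1 ≤ Θ * (κ * e) * u * α i := by
    intro i
    rw [hc]
    have h3 : 1 ≤ κ * e * u := Nat.mul_pos hM1 hu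
    have h4 : (2 * v i + 1) * (κ * e * u) ≤ Θ * (κ * e * u) := Nat.mul_le_mul_right _ (hΘ2 i)
    have h5 : Θ * (κ * e * u) * 1 ≤ Θ * (κ * e * u) * α i := Nat.mul_le_mul_left _ (hα.supp i)
    have h6 : Θ * (κ * e * u) * α i = Θ * (κ * e) * u * α i := by ring
    have h7 : (2 * v i + 1) * (κ * e * u) = κ * (2 * (e * u * v i)) + κ * e * u := by ring
    omega
  obtain ⟨x, hx⟩ : ∃ x : I → ℕ, ∀ i, x i = (Θ * (κ * e) * u * α i - κ * c i) + w i % κ :=
    ⟨_, fun _ => rfl⟩
  obtain ⟨y, hy⟩ : ∃ y : I → ℕ, ∀ i, y i = w i / κ + c i := ⟨_, fun _ => rfl⟩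
  have hxc : ∀ i, (x i : ℤ) = (Θ * (κ * e) * u : ℕ) * (α i : ℤ) - κ * c i + (w i % κ : ℕ) := by
    intro i
    have h1 : κ * c i ≤ Θ * (κ * e) * u * α i := by have := hcle i; omega
    rw [hx]
    push_cast [Nat.cast_sub h1]
    ring
  have hyc : ∀ i, (y i : ℤ) = (w i / κ : ℕ) + c i := by
    intro i
    rw [hy]
    push_cast
    ring
  have hdm : ∀ i, (κ : ℤ) * (w i / κ : ℕ) + (w i % κ : ℕ) = w i := by
    intro i
    exact_mod_cast Nat.div_add_mod (w i) κ
  have hwc : ∀ j, (w j : ℤ) = ∑ l ∈ Finset.Icc (L + 1) K, (l : ℤ) * (mAt m l j : ℤ) := by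
    intro j
    rw [hw]
    push_cast
    rfl
  have hbc : ∀ j, (b j : ℤ) = ∑ l ∈ Finset.Icc (L + 1) K, (mAt m l j : ℤ) := by
    intro j
    rw [hb]
    push_cast
    rfl
  have hsnn : ∀ i, 0 ≤ -cw a α i := AmpG.snn hα
  have hmem : KG2_mm m L κ x y ∈ Mset κ ((n + Θ * (κ * e) * u) • α) := by
    apply KG2_mem_Mset
    intro i
    have h1 := KG2_mem_sum m _ hm i
    have h2 := KG2_sumc m L (fun l => (l : ℤ)) i
    have h3 := KG2_mm_sum m L κ hL hκ1 x y (fun l => (l : ℤ)) i
    rw [Finsupp.smul_apply, smul_eq_mul] at h1 ⊢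
    zify
    zify at h1
    simp only [Nat.cast_add, Nat.cast_one] at h2 h3
    rw [h3]
    rw [h2, ← hwc i] at h1
    rw [hxc, hyc]
    have h4 := hdm i
    push_cast at h4 ⊢
    linear_combination h1 + h4
  have hP1 : ∀ k, 1 ≤ k → ∀ i, 0 ≤ PLF a m k i + (k : ℤ) * 2 := by
    intro k hk i
    rcases le_or_gt k K with h | h
    · have h1 := hP ⟨k - 1, by omega⟩ i
      have h2 : k - 1 + 1 = k := by omega
      have h3 : ((k - 1 : ℕ) : ℤ) + 1 = k := by omega
      simp only [h2, h3] at h1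
      exact h1
    · rw [PLF_top a (n • α) m hm k h.le i, KG2_cw_nsmul, ← mul_neg]
      have h1 := mul_nonneg (Int.natCast_nonneg n) (hsnn i)
      positivity
  -- the difference for small k
  have hdiff : ∀ k, 1 ≤ k → k ≤ L → ∀ i,
      PLF a m k i + 4 * L + 1 ≤ PLF a (KG2_mm m L κ x y) k i := by
    intro k hk hkL i
    have h1 := PLF_eq a (n • α) m hm k i
    have h2 := PLF_eq a ((n + Θ * (κ * e) * u) • α) _ hmem k i
    have h3 : ∀ j, ∑ l' : Fin κ, (((l' : ℕ) + 1 - k : ℕ) : ℤ) * (KG2_mm m L κ x y l' j : ℤ) =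
        ∑ l' : Fin K, (((l' : ℕ) + 1 - k : ℕ) : ℤ) * (m l' j : ℤ) +
          ((κ : ℤ) - k) * c j + (-((w j % κ : ℕ) : ℤ) - k * (w j / κ : ℕ) + k * b j) := by
      intro j
      have h4 := KG2_mm_sum m L κ hL hκ1 x y (fun l => ((l - k : ℕ) : ℤ)) j
      have h5 := KG2_sumc m L (fun l => ((l - k : ℕ) : ℤ)) j
      have h6 : ∑ l ∈ Finset.Icc (L + 1) K, ((l - k : ℕ) : ℤ) * (mAt m l j : ℤ) =
          w j - k * b j := by
        rw [hwc, hbc, Finset.mul_sum, ← Finset.sum_sub_distrib]
        apply Finset.sum_congr rfl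
        intro l hl
        rw [Finset.mem_Icc] at hl
        rw [Nat.cast_sub (by omega)]
        ring
      have h7 : 1 - k = 0 := by omega
      have h8 : ((κ - k : ℕ) : ℤ) = (κ : ℤ) - k := Nat.cast_sub (by omega)
      simp only [h7, h8, Nat.cast_zero, zero_mul, add_zero] at h4
      rw [h4, h5, h6, hyc]
      have h9 := hdm j
      linear_combination h9
    have h4 : PLF a (KG2_mm m L κ x y) k i = PLF a m k i +
        ((Θ * (κ * e) * u : ℕ) * (-cw a α i) +
          ∑ j, cart a i j * (((κ : ℤ) - k) * (c j : ℤ))) +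
        ∑ j, cart a i j * (-((w j % κ : ℕ) : ℤ) - k * (w j / κ : ℕ) + k * b j) := by
      rw [h1, h2]
      simp only [h3, mul_add, Finset.sum_add_distrib]
      rw [KG2_cw_nsmul, KG2_cw_nsmul]
      push_cast
      ring
    have h5 := KG2_main' a α hα v hv Θ i (hΘ i) k κ e u (by omega)
    simp only [← hc] at h5
    have h6 := KG2_err a A1 i (hA1 i)
      (fun j => -((w j % κ : ℕ) : ℤ) - k * (w j / κ : ℕ) + k * b j)
      (fun j => κ + L * (w j / κ) + L * b j) (by
        intro j
        have hkL' : (k : ℤ) ≤ L := by exact_mod_cast hkL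
        have g1 : (0 : ℤ) ≤ (w j / κ : ℕ) := Int.natCast_nonneg _
        have g2 : (0 : ℤ) ≤ (b j : ℤ) := Int.natCast_nonneg _
        have g3 : (0 : ℤ) ≤ (w j % κ : ℕ) := Int.natCast_nonneg _
        have g4 : ((w j % κ : ℕ) : ℤ) ≤ κ := by
          exact_mod_cast (Nat.mod_lt (w j) (by omega)).le
        have g5 := mul_le_mul_of_nonneg_right hkL' g1
        have g6 := mul_le_mul_of_nonneg_right hkL' g2
        have g7 : (0 : ℤ) ≤ (k : ℤ) * (w j / κ : ℕ) := mul_nonneg (Int.natCast_nonneg _) g1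
        have g8 : (0 : ℤ) ≤ (k : ℤ) * b j := mul_nonneg (Int.natCast_nonneg _) g2
        have g9 : ((κ + L * (w j / κ) + L * b j : ℕ) : ℤ) =
          (κ : ℤ) + L * (w j / κ : ℕ) + L * b j := by
            push_cast
            ring
        rw [g9, abs_le]
        constructor <;> linarith only [g4, g5, g6, g8, g7]) (κ * e * u) (4 * L + 1) (by
        intro j
        have := hE j
        rw [← hw, ← hb] at this
        have g1 : A1 * (κ + L * (w j / κ) + L * b j) + (4 * L + 1) =
          A1 * (κ + L * (w j / κ) + L * b j) + 4 * L + 1 := by ring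
        rw [g1]
        exact this)
    have h7 := (abs_le.mp h6).1
    rw [h4]
    push_cast at h5 h7 ⊢
    linarith only [h5, h7]
  -- the values above L
  have hlin : ∀ k, L ≤ k → k ≤ κ → ∀ i, PLF a (KG2_mm m L κ x y) k i =
      ((n + Θ * (κ * e) * u : ℕ) : ℤ) * (-cw a α i) +
        ((κ : ℤ) - k) * ∑ j, cart a i j * (y j : ℤ) := by
    intro k hk hkκ i
    rw [PLF_eq a ((n + Θ * (κ * e) * u) • α) _ hmem k i, KG2_cw_nsmul, Finset.mul_sum, mul_neg]
    congr 1
    apply Finset.sum_congr rfl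
    intro j _
    have h4 := KG2_mm_sum m L κ hL hκ1 x y (fun l => ((l - k : ℕ) : ℤ)) j
    have h5 : ∑ l ∈ Finset.Icc 1 L, ((l - k : ℕ) : ℤ) * (mAt m l j : ℤ) = 0 := by
      apply Finset.sum_eq_zero
      intro l hl
      rw [Finset.mem_Icc] at hl
      have : l - k = 0 := by omega
      rw [this]
      simp
    have h7 : 1 - k = 0 := by omega
    have h8 : ((κ - k : ℕ) : ℤ) = (κ : ℤ) - k := Nat.cast_sub (by omega)
    simp only [h5, h7, h8, Nat.cast_zero, zero_mul, add_zero, zero_add] at h4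
    rw [h4]
    ring
  have hPL : ∀ k, 1 ≤ k → k ≤ L → ∀ i, 1 ≤ PLF a (KG2_mm m L κ x y) k i := by
    intro k hk hkL i
    have h1 := hdiff k hk hkL i
    have h2 := hP1 k hk i
    have h3 : (k : ℤ) ≤ L := by exact_mod_cast hkL
    have h4 : (1 : ℤ) ≤ k := by exact_mod_cast hk
    linarith only [hkL, h1, h2]
  refine ⟨KG2_mm m L κ x y, ⟨hmem, fun i => ?_, fun l hl1 hlκ i => ?_⟩, ?_⟩
  · rw [KG2_mm_at m L κ x y 1 le_rfl (by omega) i, if_pos hL, if_pos rfl, hx]
    have := hcle i
    omega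
  · rcases le_or_gt l L with h | h
    · exact hPL l hl1 h i
    · have h1 := hlin l h.le hlκ.le i
      have h2 := hlin L le_rfl hκ1.le i
      have h3 := hPL L hL le_rfl i
      have h4 : (0 : ℤ) < (κ : ℤ) - l := by
        have : (l : ℤ) < κ := by exact_mod_cast hlκ
        linarith only [hlκ]
      have h5 : (0 : ℤ) < (l : ℤ) - L := by
        have : (L : ℤ) < l := by exact_mod_cast h
        linarith only [h]
      have h6 : ((κ : ℤ) - L) * PLF a (KG2_mm m L κ x y) l i =
          ((κ : ℤ) - l) * PLF a (KG2_mm m L κ x y) L i +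
            ((l : ℤ) - L) * (((n + Θ * (κ * e) * u : ℕ) : ℤ) * (-cw a α i)) := by
        rw [h1, h2]
        ring
      have h7 : (0 : ℤ) ≤ ((l : ℤ) - L) * (((n + Θ * (κ * e) * u : ℕ) : ℤ) * (-cw a α i)) :=
        mul_nonneg h5.le (mul_nonneg (Int.natCast_nonneg _) (hsnn i))
      have h8 : (0 : ℤ) < ((κ : ℤ) - l) * PLF a (KG2_mm m L κ x y) L i :=
        mul_pos h4 (by linarith)
      have h9 : (0 : ℤ) < ((κ : ℤ) - L) * PLF a (KG2_mm m L κ x y) l i := by
        rw [h6]
        linarith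
      exact (mul_pos_iff_of_pos_left (by linarith)).mp h9
  · unfold EW
    have hsub : Finset.Icc 1 L ⊆ Finset.Icc 1 κ := by
      intro l
      simp only [Finset.mem_Icc]
      omega
    rw [← Finset.prod_sdiff hsub]
    have h1 : (∏ l ∈ Finset.Icc 1 L, ∏ i,
        ((PLF a m l i + 2 * (l : ℤ)).toNat + mAt m l i).choose (mAt m l i)) ≤
        ∏ l ∈ Finset.Icc 1 L, ∏ i, ((PLF a (KG2_mm m L κ x y) l i).toNat +
          mAt (KG2_mm m L κ x y) l i).choose (mAt (KG2_mm m L κ x y) l i) := by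
      apply Finset.prod_le_prod'
      intro l hl
      rw [Finset.mem_Icc] at hl
      apply Finset.prod_le_prod'
      intro i _
      apply KG2_choose
      · apply Int.toNat_le_toNat
        have h2 := hdiff l hl.1 hl.2 i
        have h3 : (l : ℤ) ≤ L := by exact_mod_cast hl.2
        linarith
      · rw [KG2_mm_at m L κ x y l hl.1 (by omega) i, if_pos hl.2]
        omega
    refine h1.trans (Nat.le_mul_of_pos_left _ ?_)
    apply Finset.prod_pos
    intro l _
    apply Finset.prod_pos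
    intro i _
    exact Nat.choose_pos (by omega)

end Pool.Agent.H27.KB

end
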