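import Pool.Agent.H16.TKA.M06
import Pool.Agent.H16.TKA.M18
import Pool.Agent.H16.TKA.M23

/-! The parts of this file: H27.KAC.KN3, H27.KB.W2, H27.KB.Eng, H27.KB.U1. -/

section

/-!
KAC module KN3: `EV` at the top level through the residue formula, and the upper bound for `f`.

* `EV_res`: `residue` for the substitution of `KJ3`:
  `φ (∏ U_{iK}^(A_i) U_{i,K+1}^(-B_i)) = ∏ T_{iK}^(A_i) T_{i,K+1}^(-B_i) T_{i1}^(-K A_i + (K+1) B_i)` with
  `A_i = s_i + 1 + (K+1)ν`, `B_i = s_i + 1 + Kν`, so `- K A_i + (K+1) B_i = s_i + 1`; times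
  `∏ w_i^(-α_i) = ∏ T_{j1}^(-s_j)`.  Hence the coefficient is that of
  `∏ T_{iK}^(A_i) T_{i,K+1}^(-B_i) * (∏ T_{i1}) * det (1 - C Λ)`, and modulo total degree `> K`
  `T_{iK}^(A_i) T_{i,K+1}^(-B_i) = G_i^ν`.  `R0 = (∏ T_{i1}) * det (jacM w)`.
* `coeff_G_nonneg`: `d_j G_d = ∑ G_{d-d'} W_{d'}`, `W ≥ 0`; induction on the degree.
* `f_le_coeff_G`: `α_j [G_j]_α = ∑_β [G_j]_{α-β} α..`, the term `β = α` is `α_j^2 f_α`; so `f_α ≤ [G_j]_α` if `α_j ≥ 1`.
* `f_le_Msum`: choose `K` large.  Put `M1 = (∏ G_i) R0`, `M2 = (∏ G_i) M1`.  All coefficients of `M1` are `≥ 0`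
  (`EV_res` with `ν = 1` and `EV_eq_Msum`, with `K` depending on the coefficient), constant
  coefficient 1.  So `f_α ≤ [∏ G_i]_α ≤ [M2]_α = Msum a K 2 α`.
-/

namespace Pool.Agent.H27.KAC

open scoped BigOperators
open MvPowerSeries

variable {I : Type} [Fintype I] [DecidableEq I]

theorem KN3_tdeg_add (x y : I →₀ ℕ) : tdeg (x + y) = tdeg x + tdeg y := by
  simp [tdeg, Finset.sum_add_distrib]

/-- equality of the coefficients of total degree at most `K`. -/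
def KN3_cong (K : ℕ) (F G : MvPowerSeries I ℚ) : Prop :=
  ∀ d : I →₀ ℕ, tdeg d ≤ K → coeff d F = coeff d G

omit [DecidableEq I] in
theorem KN3_cong_refl (K : ℕ) (F : MvPowerSeries I ℚ) : KN3_cong K F F := fun _ _ => rfl

theorem KN3_cong_mul {K : ℕ} {F G F' G' : MvPowerSeries I ℚ} (h : KN3_cong K F G)
    (h' : KN3_cong K F' G') : KN3_cong K (F * F') (G * G') := by
  intro d hd
  rw [MvPowerSeries.coeff_mul, MvPowerSeries.coeff_mul]
  refine Finset.sum_congr rfl fun x hx => ?_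
  rw [Finset.HasAntidiagonal.mem_antidiagonal] at hx
  have h1 := KN3_tdeg_add x.1 x.2
  rw [hx] at h1
  rw [h _ (by omega), h' _ (by omega)]

theorem KN3_cong_prod {K : ℕ} {ι : Type} (s : Finset ι) (F G : ι → MvPowerSeries I ℚ)
    (h : ∀ i, KN3_cong K (F i) (G i)) : KN3_cong K (∏ i ∈ s, F i) (∏ i ∈ s, G i) := by
  classical
  induction s using Finset.induction_on with
  | empty => simpa using KN3_cong_refl K 1
  | insert i s hi ih =>
    rw [Finset.prod_insert hi, Finset.prod_insert hi]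
    exact KN3_cong_mul (h i) ih

theorem KN3_cong_pow {K : ℕ} {F G : MvPowerSeries I ℚ} (h : KN3_cong K F G) (n : ℕ) :
    KN3_cong K (F ^ n) (G ^ n) := by
  induction n with
  | zero => simpa using KN3_cong_refl K 1
  | succ n ih =>
    rw [pow_succ, pow_succ]
    exact KN3_cong_mul ih h

theorem KN3_cong_inv {K : ℕ} (u : (MvPowerSeries I ℚ)ˣ)
    (h : KN3_cong K (u : MvPowerSeries I ℚ) 1) :
    KN3_cong K ((u⁻¹ : (MvPowerSeries I ℚ)ˣ) : MvPowerSeries I ℚ) 1 := by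
  have h1 := KN3_cong_mul (KN3_cong_refl K ((u⁻¹ : (MvPowerSeries I ℚ)ˣ) : MvPowerSeries I ℚ)) h
  rw [Units.inv_mul, mul_one] at h1
  exact fun d hd => (h1 d hd).symm

theorem KN3_cong_zpow {K : ℕ} (u : (MvPowerSeries I ℚ)ˣ)
    (h : KN3_cong K (u : MvPowerSeries I ℚ) 1) (n : ℤ) :
    KN3_cong K ((u ^ n : (MvPowerSeries I ℚ)ˣ) : MvPowerSeries I ℚ) 1 := by
  cases n with
  | ofNat n =>
    have h1 := KN3_cong_pow h n
    rw [one_pow] at h1
    simpa using h1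
  | negSucc n =>
    rw [zpow_negSucc]
    apply KN3_cong_inv
    have h1 := KN3_cong_pow h (n + 1)
    rw [one_pow] at h1
    simpa using h1

theorem KN3_prod_zpow {A : Type} [CommGroup A] {ι : Type} (s : Finset ι) (t : A) (n : ι → ℤ) :
    ∏ i ∈ s, t ^ (n i) = t ^ (∑ i ∈ s, n i) := by
  classical
  induction s using Finset.induction_on with
  | empty => simp
  | insert i s hi ih => rw [Finset.prod_insert hi, Finset.sum_insert hi, zpow_add, ih]

theorem KN3_wT (a : I → I → ℕ) (hs : ∀ i j, a i j = a j i) (T : I → ℕ → MvPowerSeries I ℚ)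
    (hT : ∀ i k, constantCoeff (T i k) = 1) (α : I →₀ ℕ) :
    ∏ i, (wT a T hT i) ^ (-(α i : ℤ)) = ∏ j, (tU T hT j 1) ^ (cw a α j) := by
  have hc : ∀ i j, cart a i j = cart a j i := by
    intro i j
    unfold cart
    rw [hs i j]
    by_cases h : i = j
    · subst h; rfl
    · rw [if_neg h, if_neg (fun h' => h h'.symm)]
  calc ∏ i, (wT a T hT i) ^ (-(α i : ℤ))
      = ∏ i, ∏ j, (tU T hT j 1) ^ (cart a j i * (α i : ℤ)) := by
        refine Finset.prod_congr rfl fun i _ => ?_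
        unfold wT
        rw [← Finset.prod_zpow]
        refine Finset.prod_congr rfl fun j _ => ?_
        rw [← zpow_mul, hc i j]
        congr 1
        ring
    _ = ∏ j, ∏ i, (tU T hT j 1) ^ (cart a j i * (α i : ℤ)) := Finset.prod_comm
    _ = _ := by
        refine Finset.prod_congr rfl fun j _ => ?_
        rw [KN3_prod_zpow]
        rfl

theorem KN3_const_G (T : I → ℕ → MvPowerSeries I ℚ) (G : I → MvPowerSeries I ℚ)
    (hT : ∀ i k, constantCoeff (T i k) = 1)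
    (hG : ∀ i k (d : I →₀ ℕ), tdeg d ≤ k → coeff d (T i k) = coeff d (G i)) (i : I) :
    constantCoeff (G i) = 1 := by
  rw [← hT i 0, ← MvPowerSeries.coeff_zero_eq_constantCoeff_apply,
    ← MvPowerSeries.coeff_zero_eq_constantCoeff_apply]
  exact (hG i 0 0 (by simp [tdeg])).symm

theorem EV_res (a : I → I → ℕ) (hs : ∀ i j, a i j = a j i)
    (T : I → ℕ → MvPowerSeries I ℚ) (G : I → MvPowerSeries I ℚ) (hT0 : ∀ i, T i 0 = 1)
    (hT : ∀ i k, constantCoeff (T i k) = 1)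
    (hrec : ∀ i k, (T i (k + 1)) ^ 2 = T i k * T i (k + 2) +
      (X i) ^ (k + 1) * ∏ j, (T j (k + 1)) ^ (a i j))
    (hG : ∀ i k (d : I →₀ ℕ), tdeg d ≤ k → coeff d (T i k) = coeff d (G i))
    (α : I →₀ ℕ) (K ν : ℕ) (hK : tdeg α ≤ K) :
    EV a α (K + 1) (fun i => -cw a α i + (K : ℤ) * ν + 1)
      (fun i => -cw a α i + ((K : ℤ) + 1) * ν + 1) =
    coeff α ((∏ i, G i) ^ ν * ((∏ i, T i 1) * (jacM (wT a T hT)).det)) := by
  obtain ⟨φ, hφ⟩ := exists_sub (wT a T hT)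
  set P : I → ℤ := fun i => -cw a α i + (K : ℤ) * ν + 1 with hP
  set p : I → ℤ := fun i => -cw a α i + ((K : ℤ) + 1) * ν + 1 with hp
  set Φ := Units.map (φ : MvPowerSeries I ℚ →* MvPowerSeries I ℚ) with hΦdef
  have hΦ : ∀ i k, Φ (uu a i k) = tU T hT i k * (tU T hT i 1) ^ (-(k : ℤ)) := fun i k =>
    Units.ext (sub_U a T hT0 hT hrec φ hφ i k)
  unfold EV
  rw [residue hφ]
  have hfac : φ (facG a (fun _ => K + 1) P p) = ((Φ (∏ i, ((uu a i (K + 1)) ^ (-(P i)) *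
      (uu a i (K + 1 - 1)) ^ (p i))) : (MvPowerSeries I ℚ)ˣ) : MvPowerSeries I ℚ) := rfl
  rw [hfac, ← Units.val_mul]
  have hprod : Φ (∏ i, ((uu a i (K + 1)) ^ (-(P i)) * (uu a i (K + 1 - 1)) ^ (p i))) *
      ∏ i, (wT a T hT i) ^ (-(α i : ℤ)) =
      (∏ i, (tU T hT i K * (tU T hT i (K + 1))⁻¹) ^ (P i)) *
        ((∏ i, tU T hT i K) ^ ν * ∏ i, tU T hT i 1) := by
    rw [KN3_wT a hs T hT α, map_prod, ← Finset.prod_pow, ← Finset.prod_mul_distrib,
      ← Finset.prod_mul_distrib, ← Finset.prod_mul_distrib]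
    refine Finset.prod_congr rfl fun i _ => ?_
    rw [map_mul, map_zpow, map_zpow, hΦ, hΦ, Nat.add_sub_cancel]
    generalize hx : tU T hT i (K + 1) = x
    generalize hy : tU T hT i K = y
    generalize hz : tU T hT i 1 = z
    rw [mul_zpow, mul_zpow, mul_zpow, inv_zpow', ← zpow_mul, ← zpow_mul, ← zpow_natCast y ν]
    have e1 : x ^ (-P i) * z ^ (-((K + 1 : ℕ) : ℤ) * -P i) * (y ^ p i * z ^ (-(K : ℤ) * p i)) *
        z ^ cw a α i = x ^ (-P i) * (y ^ p i * (z ^ (-((K + 1 : ℕ) : ℤ) * -P i) *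
          z ^ (-(K : ℤ) * p i) * z ^ cw a α i)) := by
      simp only [mul_assoc, mul_comm, mul_left_comm]
    have e2 : z ^ (-((K + 1 : ℕ) : ℤ) * -P i) * z ^ (-(K : ℤ) * p i) * z ^ cw a α i = z := by
      rw [← zpow_add, ← zpow_add]
      have : -((K + 1 : ℕ) : ℤ) * -P i + -(K : ℤ) * p i + cw a α i = 1 := by
        rw [hP, hp]; push_cast; ring
      rw [this, zpow_one]
    have e3 : y ^ p i = y ^ P i * y ^ (ν : ℤ) := by
      rw [← zpow_add]
      congr 1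
      rw [hP, hp]; ring
    rw [e1, e2, e3]
    simp only [mul_assoc, mul_comm, mul_left_comm]
  rw [hprod]
  have hV : ∀ i, KN3_cong K (((tU T hT i K * (tU T hT i (K + 1))⁻¹ : (MvPowerSeries I ℚ)ˣ)) :
      MvPowerSeries I ℚ) 1 := by
    intro i
    have h1 : KN3_cong K (T i K) (T i (K + 1)) := fun d hd => by
      rw [hG i K d hd, hG i (K + 1) d (by omega)]
    have h2 := KN3_cong_mul h1 (KN3_cong_refl K
      (((tU T hT i (K + 1))⁻¹ : (MvPowerSeries I ℚ)ˣ) : MvPowerSeries I ℚ))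
    have h3 : T i (K + 1) * (((tU T hT i (K + 1))⁻¹ : (MvPowerSeries I ℚ)ˣ) :
        MvPowerSeries I ℚ) = 1 := Units.mul_inv (tU T hT i (K + 1))
    rw [h3] at h2
    exact h2
  have hcong : KN3_cong K ((((∏ i, (tU T hT i K * (tU T hT i (K + 1))⁻¹) ^ (P i)) *
        ((∏ i, tU T hT i K) ^ ν * ∏ i, tU T hT i 1) : (MvPowerSeries I ℚ)ˣ) :
        MvPowerSeries I ℚ) * (jacM (wT a T hT)).det)
      ((∏ i, G i) ^ ν * ((∏ i, T i 1) * (jacM (wT a T hT)).det)) := by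
    have h1 : KN3_cong K (((∏ i, (tU T hT i K * (tU T hT i (K + 1))⁻¹) ^ (P i) :
        (MvPowerSeries I ℚ)ˣ)) : MvPowerSeries I ℚ) 1 := by
      rw [Units.coe_prod]
      have := KN3_cong_prod (K := K) Finset.univ (fun i => (((tU T hT i K *
        (tU T hT i (K + 1))⁻¹) ^ (P i) : (MvPowerSeries I ℚ)ˣ) : MvPowerSeries I ℚ)) (fun _ => 1)
        (fun i => KN3_cong_zpow _ (hV i) (P i))
      simpa using this
    have h2 : KN3_cong K ((∏ i, T i K) ^ ν) ((∏ i, G i) ^ ν) := by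
      apply KN3_cong_pow
      apply KN3_cong_prod
      intro i d hd
      exact hG i K d hd
    have h3 := KN3_cong_mul (KN3_cong_mul h1 (KN3_cong_mul h2 (KN3_cong_refl K (∏ i, T i 1))))
      (KN3_cong_refl K (jacM (wT a T hT)).det)
    have e1 : (((∏ i, (tU T hT i K * (tU T hT i (K + 1))⁻¹) ^ (P i)) *
        ((∏ i, tU T hT i K) ^ ν * ∏ i, tU T hT i 1) : (MvPowerSeries I ℚ)ˣ) :
        MvPowerSeries I ℚ) = ((∏ i, (tU T hT i K * (tU T hT i (K + 1))⁻¹) ^ (P i) :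
        (MvPowerSeries I ℚ)ˣ) : MvPowerSeries I ℚ) * ((∏ i, T i K) ^ ν * ∏ i, T i 1) := by
      rw [Units.val_mul, Units.val_mul, Units.val_pow_eq_pow_val, Units.coe_prod (fun i => tU T hT i K),
        Units.coe_prod (fun i => tU T hT i 1)]
      rfl
    rw [e1]
    have e2 : 1 * ((∏ i, G i) ^ ν * ∏ i, T i 1) * (jacM (wT a T hT)).det =
        (∏ i, G i) ^ ν * ((∏ i, T i 1) * (jacM (wT a T hT)).det) := by ring
    rw [← e2]
    exact h3
  exact hcong α hK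

theorem coeff_G_nonneg (f : (I → ℕ) → ℚ) (hf : ∀ β, 0 ≤ f β) (i : I) (G : MvPowerSeries I ℚ)
    (h1 : constantCoeff G = 1) (hG : ∀ j, eul j G = G * wSer f i j) (d : I →₀ ℕ) :
    0 ≤ coeff d G := by
  have key : ∀ n : ℕ, ∀ d : I →₀ ℕ, tdeg d = n → 0 ≤ coeff d G := by
    intro n
    induction n using Nat.strong_induction_on with
    | _ n ih =>
      intro d hd
      by_cases h0 : d = 0
      · rw [h0, MvPowerSeries.coeff_zero_eq_constantCoeff_apply, h1]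
        exact zero_le_one
      · obtain ⟨j, hj⟩ : ∃ j, d j ≠ 0 := by
          by_contra hcon
          push Not at hcon
          exact h0 (Finsupp.ext hcon)
        have h2 : (d j : ℚ) * coeff d G = coeff d (G * wSer f i j) := by
          rw [← hG j, coeff_eul]
        have h3 : 0 ≤ coeff d (G * wSer f i j) := by
          rw [MvPowerSeries.coeff_mul]
          refine Finset.sum_nonneg fun x hx => ?_
          rw [Finset.HasAntidiagonal.mem_antidiagonal] at hx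
          have hw : coeff x.2 (wSer f i j) = (x.2 i : ℚ) * (x.2 j : ℚ) * f (fun l => x.2 l) := rfl
          have hw0 : 0 ≤ coeff x.2 (wSer f i j) := by
            rw [hw]
            exact mul_nonneg (by positivity) (hf _)
          by_cases hx2 : x.2 = 0
          · rw [hw, hx2]; simp
          · apply mul_nonneg _ hw0
            refine ih (tdeg x.1) ?_ x.1 rfl
            have h4 := KN3_tdeg_add x.1 x.2
            rw [hx, hd] at h4
            have h5 : tdeg x.2 ≠ 0 := by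
              intro h6
              unfold tdeg at h6
              rw [Finset.sum_eq_zero_iff] at h6
              exact hx2 (Finsupp.ext fun l => h6 l (Finset.mem_univ l))
            omega
        have hdj : (0:ℚ) < (d j : ℚ) := by exact_mod_cast Nat.pos_of_ne_zero hj
        rw [← h2] at h3
        exact nonneg_of_mul_nonneg_right h3 hdj
  exact key _ d rfl

theorem f_le_coeff_G (f : (I → ℕ) → ℚ) (hf : ∀ β, 0 ≤ f β) (i : I) (G : MvPowerSeries I ℚ)
    (h1 : constantCoeff G = 1) (hG : ∀ j, eul j G = G * wSer f i j) (α : I →₀ ℕ)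
    (hα : 1 ≤ α i) : f α ≤ coeff α G := by
  have h2 : (α i : ℚ) * coeff α G = coeff α (G * wSer f i i) := by
    rw [← hG i, coeff_eul]
  have h3 : (α i : ℚ) * (α i : ℚ) * f α ≤ coeff α (G * wSer f i i) := by
    rw [MvPowerSeries.coeff_mul]
    have hmem : ((0 : I →₀ ℕ), α) ∈ Finset.HasAntidiagonal.antidiagonal α := by
      rw [Finset.HasAntidiagonal.mem_antidiagonal, zero_add]
    have hterm : coeff (0 : I →₀ ℕ) G * coeff α (wSer f i i) = (α i : ℚ) * (α i : ℚ) * f α := by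
      rw [MvPowerSeries.coeff_zero_eq_constantCoeff_apply, h1, one_mul]
      rfl
    rw [← hterm]
    refine Finset.single_le_sum (f := fun x : (I →₀ ℕ) × (I →₀ ℕ) =>
      coeff x.1 G * coeff x.2 (wSer f i i)) (fun x _ => ?_) hmem
    apply mul_nonneg (coeff_G_nonneg f hf i G h1 hG x.1)
    have hw : coeff x.2 (wSer f i i) = (x.2 i : ℚ) * (x.2 i : ℚ) * f (fun l => x.2 l) := rfl
    rw [hw]
    exact mul_nonneg (by positivity) (hf _)
  rw [← h2] at h3
  have hα' : (1:ℚ) ≤ (α i : ℚ) := by exact_mod_cast hα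
  have hα0 : (0:ℚ) < (α i : ℚ) := by linarith
  have h4 : (α i : ℚ) * f α ≤ coeff α G := by
    have h5 : (α i : ℚ) * ((α i : ℚ) * f α) ≤ (α i : ℚ) * coeff α G := by linarith
    exact le_of_mul_le_mul_left h5 hα0
  have h6 := hf α
  nlinarith

/-- all coefficients are nonnegative. -/
def KN3_nn (F : MvPowerSeries I ℚ) : Prop := ∀ d : I →₀ ℕ, 0 ≤ coeff d F

theorem KN3_nn_mul {F G : MvPowerSeries I ℚ} (hF : KN3_nn F) (hG : KN3_nn G) :
    KN3_nn (F * G) := by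
  intro d
  rw [MvPowerSeries.coeff_mul]
  exact Finset.sum_nonneg fun x _ => mul_nonneg (hF _) (hG _)

theorem KN3_nn_one : KN3_nn (1 : MvPowerSeries I ℚ) := by
  intro d
  rw [MvPowerSeries.coeff_one]
  split_ifs <;> norm_num

theorem KN3_nn_prod (s : Finset I) (F : I → MvPowerSeries I ℚ) (h : ∀ i, KN3_nn (F i)) :
    KN3_nn (∏ i ∈ s, F i) := by
  induction s using Finset.induction_on with
  | empty => simpa using KN3_nn_one
  | insert i s hi ih =>
    rw [Finset.prod_insert hi]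
    exact KN3_nn_mul (h i) ih

theorem KN3_le_mul {F G : MvPowerSeries I ℚ} (hF : KN3_nn F) (hG : KN3_nn G)
    (h1 : constantCoeff G = 1) (d : I →₀ ℕ) : coeff d F ≤ coeff d (F * G) := by
  rw [MvPowerSeries.coeff_mul]
  have hmem : (d, (0 : I →₀ ℕ)) ∈ Finset.HasAntidiagonal.antidiagonal d := by
    rw [Finset.HasAntidiagonal.mem_antidiagonal, add_zero]
  have hterm : coeff d F * coeff (0 : I →₀ ℕ) G = coeff d F := by
    rw [MvPowerSeries.coeff_zero_eq_constantCoeff_apply, h1, mul_one]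
  calc coeff d F = coeff d F * coeff (0 : I →₀ ℕ) G := hterm.symm
    _ ≤ _ := Finset.single_le_sum (f := fun x : (I →₀ ℕ) × (I →₀ ℕ) =>
      coeff x.1 F * coeff x.2 G) (fun x _ => mul_nonneg (hF _) (hG _)) hmem

theorem KN3_const_det (w : I → (MvPowerSeries I ℚ)ˣ) :
    constantCoeff (jacM w).det = 1 := by
  rw [RingHom.map_det]
  have h : (constantCoeff (σ := I) (R := ℚ)).mapMatrix (jacM w) = 1 := by
    ext i j
    rw [RingHom.mapMatrix_apply, Matrix.map_apply]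
    unfold jacM
    rw [Matrix.of_apply, map_add, map_mul]
    have h0 : constantCoeff (eul j (w i : MvPowerSeries I ℚ)) = 0 := by
      rw [← MvPowerSeries.coeff_zero_eq_constantCoeff_apply, coeff_eul]
      simp
    rw [h0, zero_mul, add_zero, Matrix.one_apply]
    split_ifs <;> simp
  rw [h, Matrix.det_one]

theorem KN3_Msum_nonneg (a : I → I → ℕ) (K ν : ℕ) (β : I → ℕ) : 0 ≤ Msum a K ν β := by
  unfold Msum
  refine Finset.sum_nonneg fun m _ => ?_
  exact Finset.prod_nonneg fun k _ => Finset.prod_nonneg fun i _ => by positivity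

theorem f_le_Msum (a : I → I → ℕ) (hs : ∀ i j, a i j = a j i) (ha : ∀ i, a i i ≠ 1)
    (f : (I → ℕ) → ℚ) (hK : KacData a f) (hf : ∀ β, 0 ≤ f β) (α : I →₀ ℕ) (hα : α ≠ 0)
    (K : ℕ) (h1 : tdeg α ≤ K) (h2 : ∀ i, 0 ≤ -cw a α i + (K : ℤ) * 2) :
    f α ≤ Msum a K 2 α := by
  obtain ⟨T, G, hT0, hT, hrec, hG, heul⟩ := hK
  have hG1 : ∀ i, constantCoeff (G i) = 1 := KN3_const_G T G hT hG
  set R0 := (∏ i, T i 1) * (jacM (wT a T hT)).det with hR0
  have hEV : ∀ (ν : ℕ) (β : I →₀ ℕ) (K' : ℕ), tdeg β ≤ K' → (∀ i, 0 ≤ -cw a β i + (K' : ℤ) * ν) →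
      Msum a K' ν β = coeff β ((∏ i, G i) ^ ν * R0) := by
    intro ν β K' hK1 hK2
    rw [← EV_eq_Msum a hs ha K' ν β hK2, EV_res a hs T G hT0 hT hrec hG β K' ν hK1]
  -- the series M1
  have hM1 : KN3_nn ((∏ i, G i) * R0) := by
    intro β
    obtain ⟨K', hK1, hK2⟩ : ∃ K' : ℕ, tdeg β ≤ K' ∧ ∀ i, 0 ≤ -cw a β i + (K' : ℤ) * ((1 : ℕ) : ℤ) := by
      refine ⟨tdeg β + ∑ i, (cw a β i).toNat, by omega, fun i => ?_⟩
      have h3 : (cw a β i).toNat ≤ ∑ i, (cw a β i).toNat :=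
        Finset.single_le_sum (f := fun i => (cw a β i).toNat) (fun _ _ => Nat.zero_le _)
          (Finset.mem_univ i)
      have h4 : cw a β i ≤ ((cw a β i).toNat : ℤ) := Int.self_le_toNat _
      have h5 : ((cw a β i).toNat : ℤ) ≤ ((∑ i, (cw a β i).toNat : ℕ) : ℤ) := by exact_mod_cast h3
      push_cast at h5 ⊢
      have h6 : (0:ℤ) ≤ (tdeg β : ℤ) := by positivity
      linarith
    have h3 := hEV 1 β K' hK1 hK2
    rw [pow_one] at h3
    rw [← h3]
    exact KN3_Msum_nonneg a K' 1 β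
  have hprod1 : ∀ s : Finset I, constantCoeff (∏ i ∈ s, G i) = 1 := by
    intro s
    rw [map_prod]
    exact Finset.prod_eq_one fun i _ => hG1 i
  have hM1c : constantCoeff ((∏ i, G i) * R0) = 1 := by
    rw [map_mul, hprod1, hR0, map_mul, map_prod, KN3_const_det, one_mul, mul_one]
    exact Finset.prod_eq_one fun i _ => hT i 1
  have hGnn : ∀ i, KN3_nn (G i) := fun i d => coeff_G_nonneg f hf i (G i) (hG1 i) (heul i) d
  obtain ⟨i, hi⟩ : ∃ i, α i ≠ 0 := by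
    by_contra hcon
    push Not at hcon
    exact hα (Finsupp.ext hcon)
  have hM := hEV 2 α K h1 (fun i => by exact_mod_cast h2 i)
  rw [hM]
  have e : (∏ i, G i) ^ 2 * R0 = (∏ i, G i) * ((∏ i, G i) * R0) := by ring
  rw [e]
  calc f α ≤ coeff α (G i) :=
        f_le_coeff_G f hf i (G i) (hG1 i) (heul i) α (Nat.one_le_iff_ne_zero.2 hi)
    _ ≤ coeff α (G i * ∏ j ∈ Finset.univ.erase i, G j) :=
        KN3_le_mul (hGnn i) (KN3_nn_prod _ _ hGnn) (hprod1 _) α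
    _ = coeff α (∏ i, G i) := by rw [Finset.mul_prod_erase _ _ (Finset.mem_univ i)]
    _ ≤ _ := KN3_le_mul (KN3_nn_prod _ _ hGnn) hM1 hM1c α

end Pool.Agent.H27.KAC

end

section

/-!
KAC ADE, growth part: choice of the window for general quivers.
-/

set_option autoImplicit false

namespace Pool.Agent.H27.KB

open scoped BigOperators
open Pool.Agent.H27.KAC Pool.H88.KA

variable {I : Type} [Fintype I] [DecidableEq I]

theorem window' (a : I → I → ℕ) (α : I →₀ ℕ) (hα : AmpG a α) (v : I → ℕ)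
    (hv : ∀ i, cw a α i = 0 → 1 ≤ ∑ j, cart a i j * (v j : ℤ))
    (q : ℕ) (hq : 1 ≤ q) (L0 : ℕ) (hL0 : 1 ≤ L0) :
    ∃ n0 T : ℕ, ∀ n : ℕ, n0 ≤ n → ∀ (K : ℕ) (m : Fin K → I → ℕ), m ∈ Mset K (n • α) →
      (∀ (k : Fin K) (i : I), 0 ≤ PLF a m ((k : ℕ) + 1) i + ((k : ℤ) + 1) * 2) →
      ∃ L κ n' : ℕ, L0 ≤ L ∧ 2 ≤ κ ∧ 1 ≤ n' ∧ n' ≤ n + n / q + T ∧
        ∃ m' : Fin κ → I → ℕ, Adm a (n' • α) m' ∧
          (∏ l ∈ Finset.Icc 1 L, ∏ i,
            ((PLF a m l i + 2 * (l : ℤ)).toNat + mAt m l i).choose (mAt m l i)) ≤ EW a m' := by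
  classical
  obtain ⟨A1, hA1⟩ : ∃ A1 : ℕ, ∀ i, ∑ j, |cart a i j| ≤ (A1 : ℤ) := by
    refine ⟨(∑ i, ∑ j, |cart a i j|).toNat, fun i => ?_⟩
    have h1 : ∑ j, |cart a i j| ≤ ∑ i, ∑ j, |cart a i j| :=
      Finset.single_le_sum (f := fun i => ∑ j, |cart a i j|)
        (fun i _ => Finset.sum_nonneg fun j _ => abs_nonneg _) (Finset.mem_univ i)
    exact h1.trans (Int.self_le_toNat _)
  obtain ⟨Θ, hΘ0, hΘ2, hΘ⟩ : ∃ Θ : ℕ, 2 ≤ Θ ∧ (∀ i, 2 * v i + 1 ≤ Θ) ∧
      ∀ i, 2 * ∑ j, a i j * v j + 1 ≤ Θ := by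
    refine ⟨2 * (∑ i, ∑ j, a i j * v j) + 2 * (∑ i, v i) + 2, by omega, fun i => ?_, fun i => ?_⟩
    · have h1 : v i ≤ ∑ i, v i :=
        Finset.single_le_sum (f := v) (fun _ _ => Nat.zero_le _) (Finset.mem_univ i)
      omega
    · have h1 : ∑ j, a i j * v j ≤ ∑ i, ∑ j, a i j * v j :=
        Finset.single_le_sum (f := fun i => ∑ j, a i j * v j) (fun _ _ => Nat.zero_le _)
          (Finset.mem_univ i)
      omega
  set S := ∑ i, α i with hS
  set c := 2 * q * Θ with hc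
  set Λ := 3 * c * A1 * S + 2 with hΛ
  set Lr : ℕ → ℕ := fun r => L0 * Λ ^ r with hLr
  set M := Lr Λ with hM
  have hΛ2 : 2 ≤ Λ := by rw [hΛ]; omega
  have hΛ0 : 0 < Λ := by omega
  have hsucc : ∀ r, Lr (r + 1) = Λ * Lr r := by
    intro r
    simp only [hLr]
    ring
  have hmono : ∀ r, Lr r ≤ Lr (r + 1) := by
    intro r
    rw [hsucc]
    exact Nat.le_mul_of_pos_left _ hΛ0
  have hLr1 : ∀ r, L0 ≤ Lr r := by
    intro r
    simp only [hLr]
    exact Nat.le_mul_of_pos_right _ (Nat.pow_pos hΛ0)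
  have hMr : ∀ r, r < Λ → Lr (r + 1) ∣ M := by
    intro r hr
    simp only [hM, hLr]
    exact Nat.mul_dvd_mul_left _ (pow_dvd_pow _ (by omega))
  have hM1 : 1 ≤ M := hL0.trans (hLr1 Λ)
  have hc0 : 0 < c := by
    rw [hc]
    exact Nat.mul_pos (by omega) (by omega)
  refine ⟨c * (A1 * M + 4 * M + 1), Θ * M, ?_⟩
  intro n hn K m hm hP
  -- the sums of the parts
  have htot : ∀ j, ∑ l ∈ Finset.Icc 1 K, l * mAt m l j = n * α j := by
    intro j
    rw [KG3_total]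
    unfold Mset at hm
    rw [Finset.mem_filter] at hm
    rw [hm.2 j]
    rfl
  -- pigeonhole
  let V : ℕ → I → ℕ := fun r j => ∑ l ∈ Finset.Icc 1 K,
    (if Lr r < l ∧ l ≤ Lr (r + 1) then l * mAt m l j else 0)
  have hV : ∑ r ∈ Finset.range Λ, ∑ j, V r j ≤ n * S := by
    rw [Finset.sum_comm, hS, Finset.mul_sum]
    refine Finset.sum_le_sum fun j _ => ?_
    rw [← htot j]
    show ∑ r ∈ Finset.range Λ, ∑ l ∈ Finset.Icc 1 K,
      (if Lr r < l ∧ l ≤ Lr (r + 1) then l * mAt m l j else 0) ≤ _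
    rw [Finset.sum_comm]
    refine Finset.sum_le_sum fun l _ => ?_
    refine (KG3_ind Lr hmono l (l * mAt m l j) Λ).trans ?_
    split_ifs <;> omega
  obtain ⟨r, hr, hVr⟩ : ∃ r < Λ, Λ * ∑ j, V r j ≤ n * S := by
    by_contra hcon
    push Not at hcon
    have h1 : ∑ _r ∈ Finset.range Λ, n * S < ∑ r ∈ Finset.range Λ, Λ * ∑ j, V r j := by
      apply Finset.sum_lt_sum_of_nonempty
      · exact Finset.nonempty_range_iff.2 (by omega)
      · intro r hr
        exact hcon r (Finset.mem_range.1 hr)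
    rw [Finset.sum_const, Finset.card_range, smul_eq_mul, ← Finset.mul_sum] at h1
    have h2 := Nat.mul_le_mul_left Λ hV
    omega
  set L := Lr r with hL
  set κ := Lr (r + 1) with hκ
  have hκL : κ = Λ * L := hsucc r
  have hL1 : 1 ≤ L := hL0.trans (hLr1 r)
  have hκM : κ ∣ M := hMr r hr
  have hκM' : κ ≤ M := Nat.le_of_dvd hM1 hκM
  have hLκ : 2 * L ≤ κ := by
    rw [hκL]
    exact Nat.mul_le_mul_right _ hΛ2
  have hκ0 : 0 < κ := by omega
  have hVj : ∀ j, Λ * V r j ≤ n * S := by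
    intro j
    refine le_trans (Nat.mul_le_mul_left _ ?_) hVr
    exact Finset.single_le_sum (f := fun j => V r j) (fun _ _ => Nat.zero_le _) (Finset.mem_univ j)
  have hαS : ∀ j, n * α j ≤ n * S := fun j => Nat.mul_le_mul_left _
    (Finset.single_le_sum (f := fun j => α j) (fun _ _ => Nat.zero_le _) (Finset.mem_univ j))
  have hsub : Finset.Icc (L + 1) K ⊆ Finset.Icc 1 K := by
    intro l hl
    rw [Finset.mem_Icc] at hl ⊢
    omega
  have hw : ∀ j, ∑ l ∈ Finset.Icc (L + 1) K, l * mAt m l j ≤ n * S := by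
    intro j
    refine le_trans ?_ (hαS j)
    rw [← htot j]
    exact Finset.sum_le_sum_of_subset hsub
  -- Λ L (w / κ) ≤ n S
  have hY1 : ∀ j, Λ * (L * ((∑ l ∈ Finset.Icc (L + 1) K, l * mAt m l j) / κ)) ≤ n * S := by
    intro j
    refine le_trans ?_ (hw j)
    rw [← mul_assoc, ← hκL]
    exact Nat.mul_div_le _ _
  -- Λ L b ≤ 2 n S
  have hY2 : ∀ j, Λ * (L * ∑ l ∈ Finset.Icc (L + 1) K, mAt m l j) ≤ 2 * (n * S) := by
    intro j
    have h1 : Λ * (L * ∑ l ∈ Finset.Icc (L + 1) K, mAt m l j) ≤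
        ∑ l ∈ Finset.Icc 1 K, (Λ * (if L < l ∧ l ≤ κ then l * mAt m l j else 0) +
          l * mAt m l j) := by
      rw [Finset.mul_sum, Finset.mul_sum]
      refine le_trans ?_ (Finset.sum_le_sum_of_subset hsub)
      refine Finset.sum_le_sum fun l hl => ?_
      rw [Finset.mem_Icc] at hl
      by_cases h2 : l ≤ κ
      · rw [if_pos ⟨by omega, h2⟩]
        have h3 : Λ * (L * mAt m l j) ≤ Λ * (l * mAt m l j) :=
          Nat.mul_le_mul_left _ (Nat.mul_le_mul_right _ (by omega))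
        omega
      · rw [if_neg (fun hc => h2 hc.2), ← mul_assoc, ← hκL]
        have h3 : κ * mAt m l j ≤ l * mAt m l j := Nat.mul_le_mul_right _ (by omega)
        omega
    rw [Finset.sum_add_distrib, ← Finset.mul_sum, htot j] at h1
    have h2 := hVj j
    have h3 := hαS j
    have h4 : Λ * (∑ l ∈ Finset.Icc 1 K, (if L < l ∧ l ≤ κ then l * mAt m l j else 0)) ≤ n * S :=
      h2
    omega
  set u := n / (q * Θ * M) + 1 with hu
  have hu1 : 1 ≤ u := Nat.le_add_left 1 _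
  have hqΘM : 0 < q * Θ * M := Nat.mul_pos (Nat.mul_pos (by omega) (by omega)) (by omega)
  have hMu : 2 * n ≤ c * (M * u) := by
    have h1 : n < q * Θ * M * u := by
      rw [hu, mul_add, mul_one]
      have := Nat.div_add_mod n (q * Θ * M)
      have h2 := Nat.mod_lt n hqΘM
      omega
    have h2 : c * (M * u) = 2 * (q * Θ * M * u) := by
      rw [hc]; ring
    omega
  have hE : ∀ j, A1 * (κ + L * ((∑ l ∈ Finset.Icc (L + 1) K, l * mAt m l j) / κ) +
        L * ∑ l ∈ Finset.Icc (L + 1) K, mAt m l j) + 4 * L + 1 ≤ M * u := by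
    intro j
    set y1 := L * ((∑ l ∈ Finset.Icc (L + 1) K, l * mAt m l j) / κ) with hy1
    set y2 := L * ∑ l ∈ Finset.Icc (L + 1) K, mAt m l j with hy2
    have h1 : Λ * y1 ≤ n * S := hY1 j
    have h2 : Λ * y2 ≤ 2 * (n * S) := hY2 j
    have h3 : c * A1 * (y1 + y2) ≤ n := by
      have h4 : (c * A1 * (y1 + y2)) * Λ ≤ n * Λ := by
        calc (c * A1 * (y1 + y2)) * Λ = c * A1 * (Λ * y1 + Λ * y2) := by ring
          _ ≤ c * A1 * (n * S + 2 * (n * S)) := Nat.mul_le_mul_left _ (by omega)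
          _ = n * (3 * c * A1 * S) := by ring
          _ ≤ n * Λ := Nat.mul_le_mul_left _ (by rw [hΛ]; omega)
      exact Nat.le_of_mul_le_mul_right h4 hΛ0
    have h5 : c * (A1 * κ + 4 * L + 1) ≤ n := by
      refine le_trans (Nat.mul_le_mul_left _ ?_) hn
      have h6 : A1 * κ ≤ A1 * M := Nat.mul_le_mul_left _ hκM'
      omega
    have h6 : c * (A1 * (κ + y1 + y2) + 4 * L + 1) ≤ c * (M * u) := by
      calc c * (A1 * (κ + y1 + y2) + 4 * L + 1) =
            c * (A1 * κ + 4 * L + 1) + c * A1 * (y1 + y2) := by ring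
        _ ≤ c * (M * u) := by omega
    exact Nat.le_of_mul_le_mul_left h6 hc0
  obtain ⟨m', hm1, hm2⟩ := window_one' a α hα v hv n K m hm hP A1 hA1 Θ hΘ2 hΘ L κ M u hL1 hLκ hκM
    hM1 hu1 hE
  refine ⟨L, κ, n + Θ * M * u, hLr1 r, by omega, ?_, ?_, m', hm1, hm2⟩
  · have : 0 < Θ * M * u := Nat.mul_pos (Nat.mul_pos (by omega) hM1) hu1
    omega
  · have h1 : Θ * M * (n / (q * Θ * M)) ≤ n / q := by
      rw [Nat.le_div_iff_mul_le (by omega)]
      calc Θ * M * (n / (q * Θ * M)) * q = q * Θ * M * (n / (q * Θ * M)) := by ring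
        _ ≤ n := Nat.mul_div_le _ _
    have h2 : Θ * M * u = Θ * M * (n / (q * Θ * M)) + Θ * M := by
      rw [hu]; ring
    omega

end Pool.Agent.H27.KB

end

section

/-!
KAC ADE: what the engine has to provide (nonnegativity and the lower bound), and first consequences.
-/

set_option autoImplicit false

namespace Pool.Agent.H27.KB

open scoped BigOperators
open Pool.Agent.H27.KAC Pool.H88.KA

variable {I : Type} [Fintype I] [DecidableEq I]

/-- the output of the engine for the connected matrix `a`. -/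
structure Eng (a : I → I → ℕ) : Prop where
  symm : ∀ i j, a i j = a j i
  diag : ∀ i, a i i ≠ 1
  conn : Conn a
  nonneg : ∀ f : (I → ℕ) → ℚ, KacData a f → ∀ α : I →₀ ℕ, AmpG a α → 0 ≤ f α
  low : ∀ f : (I → ℕ) → ℚ, KacData a f → ∀ α : I →₀ ℕ, AmpG a α → ∀ K : ℕ, 2 ≤ K →
    ∃ C : ℕ, 1 ≤ C ∧ ∀ n : ℕ, 1 ≤ n → ∀ m : Fin K → I → ℕ, Adm a (n • α) m →
      (EW a m : ℝ) ≤ ((C : ℝ) * n) ^ C * ((f (n • α) : ℚ) : ℝ)

theorem Adm_existsE (a : I → I → ℕ) (hg : Eng a) (α : I →₀ ℕ) (hα : AmpG a α) (K : ℕ)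
    (hK : 2 ≤ K) : ∃ N0 : ℕ, ∀ n : ℕ, N0 ≤ n → ∃ m : Fin K → I → ℕ, Adm a (n • α) m := by
  obtain ⟨v, hv⟩ := exists_v a hg.symm hg.diag hg.conn α hα
  exact Adm_exists' a α hα v hv K hK

theorem windowE (a : I → I → ℕ) (hg : Eng a) (α : I →₀ ℕ) (hα : AmpG a α)
    (q : ℕ) (hq : 1 ≤ q) (L0 : ℕ) (hL0 : 1 ≤ L0) :
    ∃ n0 T : ℕ, ∀ n : ℕ, n0 ≤ n → ∀ (K : ℕ) (m : Fin K → I → ℕ), m ∈ Mset K (n • α) →
      (∀ (k : Fin K) (i : I), 0 ≤ PLF a m ((k : ℕ) + 1) i + ((k : ℤ) + 1) * 2) →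
      ∃ L κ n' : ℕ, L0 ≤ L ∧ 2 ≤ κ ∧ 1 ≤ n' ∧ n' ≤ n + n / q + T ∧
        ∃ m' : Fin κ → I → ℕ, Adm a (n' • α) m' ∧
          (∏ l ∈ Finset.Icc 1 L, ∏ i,
            ((PLF a m l i + 2 * (l : ℤ)).toNat + mAt m l i).choose (mAt m l i)) ≤ EW a m' := by
  obtain ⟨v, hv⟩ := exists_v a hg.symm hg.diag hg.conn α hα
  exact window' a α hα v hv q hq L0 hL0

end Pool.Agent.H27.KB

end

section

/-!
KAC ADE, growth part: the upper bound.
-/

set_option autoImplicit false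

namespace Pool.Agent.H27.KB

open scoped BigOperators
open Pool.Agent.H27.KAC Pool.H88.KA
open Filter Topology

variable {I : Type} [Fintype I] [DecidableEq I]

theorem hsup_bddE (a : I → I → ℕ) (α : I →₀ ℕ) (hα : AmpG a α) :
    BddAbove {x : ℝ | ∃ K n : ℕ, 2 ≤ K ∧ 1 ≤ n ∧ ∃ m : Fin K → I → ℕ, Adm a (n • α) m ∧
      x = Real.log (EW a m) / n} := by
  obtain ⟨c, C, hc, hC, h⟩ := KG5_EW_le a α
  refine ⟨Real.log C + c, ?_⟩
  rintro x ⟨K, n, hK, hn, m, hm, rfl⟩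
  have hn0 : (0 : ℝ) < n := by exact_mod_cast hn
  have hn1 : (1 : ℝ) ≤ n := by exact_mod_cast hn
  rw [div_le_iff₀ hn0]
  have h1 := h n K m hm.1
  have h2 : (0 : ℝ) < EW a m := by
    have := EW_pos a m
    exact_mod_cast this
  have h3 := Real.log_le_log h2 h1
  rw [Real.log_mul (by positivity) (Real.exp_pos _).ne', Real.log_exp] at h3
  have h4 : 0 ≤ Real.log C := Real.log_nonneg hC
  nlinarith

theorem hsup_nonnegE (a : I → I → ℕ) (hg : Eng a) (α : I →₀ ℕ) (hα : AmpG a α) :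
    0 ≤ hsup a α := by
  refine Real.sSup_nonneg ?_
  rintro x ⟨K, n, hK, hn, m, hm, rfl⟩
  refine div_nonneg (Real.log_nonneg ?_) (Nat.cast_nonneg _)
  exact_mod_cast EW_pos a m

theorem le_hsupE (a : I → I → ℕ) (α : I →₀ ℕ) (hα : AmpG a α) (K n : ℕ) (hK : 2 ≤ K)
    (hn : 1 ≤ n) (m : Fin K → I → ℕ) (hm : Adm a (n • α) m) :
    (EW a m : ℝ) ≤ Real.exp (n * hsup a α) := by
  have h1 : Real.log (EW a m) / n ≤ hsup a α :=
    le_csSup (hsup_bddE a α hα) ⟨K, n, hK, hn, m, hm, rfl⟩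
  have hn0 : (0 : ℝ) < n := by exact_mod_cast hn
  rw [div_le_iff₀ hn0] at h1
  have h2 : (0 : ℝ) < EW a m := by
    have := EW_pos a m
    exact_mod_cast this
  rw [← Real.log_le_iff_le_exp h2]
  linarith

theorem f_upperE (a : I → I → ℕ) (hg : Eng a)
    (f : (I → ℕ) → ℚ) (hK : KacData a f) (hf : ∀ β, 0 ≤ f β) (α : I →₀ ℕ) (hα : AmpG a α)
    (hne : Nonempty I) (ε : ℝ) (hε : 0 < ε) (q : ℕ) (hq : 1 ≤ q) :
    ∃ (n0 T : ℕ) (C : ℝ), 1 ≤ C ∧ ∀ n : ℕ, n0 ≤ n →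
      ((f (n • α) : ℚ) : ℝ) ≤
        Real.exp (((n : ℝ) + (n : ℝ) / q + T) * hsup a α) * (C * Real.exp (ε * n)) := by
  obtain ⟨L0, hL0, C, hC, hgen⟩ :=
    gen_bound_eps (fun i => α i) (∑ i, ∑ j, a i j * α j + 2 * ∑ i, α i) ε hε
  obtain ⟨n0, T, hwin⟩ := windowE a hg α hα q hq L0 hL0
  refine ⟨max n0 1, T, C, hC, fun n hn => ?_⟩
  have hn0 : n0 ≤ n := (le_max_left _ _).trans hn
  have hn1 : 1 ≤ n := (le_max_right _ _).trans hn
  have hα' := AmpG.nsmul hα n hn1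
  have hcw : ∀ i, 0 ≤ -cw a (n • α) i := by
    exact AmpG.snn hα'
  have hne0 : n • α ≠ 0 := by
    obtain ⟨i⟩ := hne
    intro h0
    have h1 := hα'.supp i
    rw [h0] at h1
    simp at h1
  have h1 := f_le_Msum a hg.symm hg.diag f hK hf (n • α) hne0 (tdeg (n • α)) le_rfl
    (fun i => by
      have := hcw i
      positivity)
  set K : ℕ := tdeg (n • α) with hKdef
  have h2 : ((f (n • α) : ℚ) : ℝ) ≤ ((Msum a K 2 (n • α) : ℚ) : ℝ) := by exact_mod_cast h1
  refine h2.trans ?_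
  set E : ℝ := Real.exp (((n : ℝ) + (n : ℝ) / q + T) * hsup a α) with hE
  have hE0 : 0 ≤ E := (Real.exp_pos _).le
  have hterm : ∀ m ∈ (Mset K (n • α)).filter (fun m => ∀ (k : Fin K) (i : I),
      0 ≤ PLF a m ((k : ℕ) + 1) i + ((k : ℤ) + 1) * ((2 : ℕ) : ℤ)),
      ((∏ k : Fin K, ∏ i : I,
        ((PLF a m ((k : ℕ) + 1) i + ((k : ℤ) + 1) * ((2 : ℕ) : ℤ)).toNat + m k i).choose (m k i) :
          ℕ) : ℝ) ≤ E * ∏ l : Fin K, ∏ i : I,
        (if L0 ≤ (l : ℕ) then ((((∑ i, ∑ j, a i j * α j + 2 * ∑ i, α i) * n + m l i).choose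
          (m l i) : ℕ) : ℝ) else 1) := by
    intro m hm
    obtain ⟨hm1, hm2⟩ := Finset.mem_filter.1 hm
    obtain ⟨L, κ, n', hL, hκ, hn', hn'', m', hm', hprod⟩ := hwin n hn0 K m hm1
      (fun k i => by simpa using hm2 k i)
    have h3 := KG5_term a α m hm1 L L0 hL
    have h4 := h3.trans (Nat.mul_le_mul_right _ hprod)
    have h5 : ((∏ k : Fin K, ∏ i : I,
        ((PLF a m ((k : ℕ) + 1) i + ((k : ℤ) + 1) * ((2 : ℕ) : ℤ)).toNat + m k i).choose (m k i) :
          ℕ) : ℝ) ≤ (EW a m' : ℝ) * ∏ l : Fin K, ∏ i : I,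
        (if L0 ≤ (l : ℕ) then ((((∑ i, ∑ j, a i j * α j + 2 * ∑ i, α i) * n + m l i).choose
          (m l i) : ℕ) : ℝ) else 1) := by
      have h6 : ((∏ k : Fin K, ∏ i : I,
        ((PLF a m ((k : ℕ) + 1) i + ((k : ℤ) + 1) * ((2 : ℕ) : ℤ)).toNat + m k i).choose (m k i) :
          ℕ) : ℝ) ≤ ((EW a m' * ∏ k : Fin K, ∏ i : I, (if L0 ≤ (k : ℕ) then
        (((∑ i, ∑ j, a i j * α j + 2 * ∑ i, α i) * n + m k i).choose (m k i)) else 1) : ℕ) : ℝ) :=
        Nat.cast_le.2 h4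
      refine h6.trans (le_of_eq ?_)
      rw [Nat.cast_mul, Nat.cast_prod]
      congr 1
      refine Finset.prod_congr rfl (fun k _ => ?_)
      rw [Nat.cast_prod]
      refine Finset.prod_congr rfl (fun i _ => ?_)
      split_ifs
      · rfl
      · simp
    refine h5.trans (mul_le_mul_of_nonneg_right ?_ ?_)
    · refine (le_hsupE a α hα κ n' hκ hn' m' hm').trans ?_
      rw [hE]
      refine Real.exp_le_exp.2 (mul_le_mul_of_nonneg_right ?_ (hsup_nonnegE a hg α hα))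
      have h7 : (n' : ℝ) ≤ ((n + n / q + T : ℕ) : ℝ) := by exact_mod_cast hn''
      have h8 : ((n / q : ℕ) : ℝ) ≤ (n : ℝ) / q := Nat.cast_div_le
      push_cast at h7
      linarith
    · refine Finset.prod_nonneg (fun l _ => Finset.prod_nonneg (fun i _ => ?_))
      split_ifs
      · exact Nat.cast_nonneg _
      · exact zero_le_one
  have h3 : ((Msum a K 2 (n • α) : ℚ) : ℝ) =
      ∑ m ∈ (Mset K (n • α)).filter (fun m => ∀ (k : Fin K) (i : I),
      0 ≤ PLF a m ((k : ℕ) + 1) i + ((k : ℤ) + 1) * ((2 : ℕ) : ℤ)),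
      ((∏ k : Fin K, ∏ i : I,
        ((PLF a m ((k : ℕ) + 1) i + ((k : ℤ) + 1) * ((2 : ℕ) : ℤ)).toNat + m k i).choose (m k i) :
          ℕ) : ℝ) := by
    unfold Msum
    push_cast
    rfl
  rw [h3]
  refine (Finset.sum_le_sum hterm).trans ?_
  rw [← Finset.mul_sum]
  refine mul_le_mul_of_nonneg_left ?_ hE0
  refine le_trans ?_ (hgen n K)
  rw [← KG5_coe]
  refine Finset.sum_le_sum_of_subset_of_nonneg (Finset.filter_subset _ _) (fun m _ _ => ?_)
  refine Finset.prod_nonneg (fun l _ => Finset.prod_nonneg (fun i _ => ?_))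
  split_ifs
  · exact Nat.cast_nonneg _
  · exact zero_le_one

end Pool.Agent.H27.KB

end
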