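import Pool.Agent.H16.TKA.M06
import Pool.Agent.H16.TKA.M14
import Pool.Agent.H16.TKA.M20

/-! The parts of this file: H27.KAC.KJ4, H40.KADE.E3b, H40.KADE.E5, H40.KADE.E6, H40.KADE.E7, H40.KADE.E7b, H41.KA.AG7b, H41.KA.AG9b. -/

section

/-!
KAC module KJ4: the top formula.

* `top_val`: `coeff α F = coeff α (φ F * ∏ w_i^(-α_i) * det (jacM w))` (`residue`) for
  `F = ∏ U_{i,K+1}^(-s_i) U_{iK}^(s_i) * det(columns)`, `s_i = -(Cα)_i`.
  `∏_i w_i^(-α_i) = ∏_j T_{j1}^((Cα)_j)`; `φ(∏ U ..) = ∏ T_{i,K+1}^(-s_i) T_{iK}^(s_i) T_{i1}^(s_i)`, so all the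
  powers of `T_{j1}` cancel.  `det (jacM w) = det (1 - C Λ) = det (1 - Λ C)`
  (`Matrix.det_one_sub_mul_comm` or `det_one_add_mul_comm`).  The determinant of `F` (transposed) has
  rows `x_{i,K+1} - h_i x_{iK}`, so after multiplication by `1 - Λ C` (`sub_xv`):
  `(K+1) - Λ^{(K+1)} C - diag(h) (K - Λ^{(K)} C)`.  Modulo total degree `> K` (an ideal; `tdeg α ≤ K`)
  `T_{i,K+1}`, `T_{iK}` and `G_i` agree, `θ_j G_i / G_i = wSer f i j`.
* `top_poly`: the coefficient of the determinant of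
  `(1 + ε K μ_i) δ_{il} - ε μ_i (W C)_{il}` is a polynomial in `ε`; constant term `coeff α 1 = 0`; the
  derivative at `0` is the coefficient of the trace:
  `- ∑_i μ_i ∑_j α_i α_j f(α) C_{ji} = f(α) ∑_i μ_i α_i s_i`.
-/

namespace Pool.Agent.H27.KAC

open scoped BigOperators
open MvPowerSeries

variable {I : Type} [Fintype I] [DecidableEq I]

/-- Power series without monomials of total degree at most `K`. -/
def KJ4I (I : Type) [Fintype I] (K : ℕ) : Ideal (MvPowerSeries I ℚ) where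
  carrier := {F | ∀ d : I →₀ ℕ, tdeg d ≤ K → coeff d F = 0}
  add_mem' := by
    intro F G hF hG d hd
    rw [map_add, hF d hd, hG d hd, add_zero]
  zero_mem' := fun d _ => by rw [map_zero]
  smul_mem' := by
    classical
    intro F G hG d hd
    rw [smul_eq_mul, MvPowerSeries.coeff_mul]
    refine Finset.sum_eq_zero fun p hp => ?_
    have h1 : p.1 + p.2 = d := Finset.HasAntidiagonal.mem_antidiagonal.1 hp
    have h2 : tdeg p.2 ≤ K := by
      refine le_trans ?_ hd
      unfold tdeg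
      refine Finset.sum_le_sum fun i _ => ?_
      rw [← h1, Finsupp.add_apply]
      omega
    rw [hG p.2 h2, mul_zero]

theorem KJ4_mk_eq {I : Type} [Fintype I] {K : ℕ} {F G : MvPowerSeries I ℚ} :
    Ideal.Quotient.mk (KJ4I I K) F = Ideal.Quotient.mk (KJ4I I K) G ↔
      ∀ d : I →₀ ℕ, tdeg d ≤ K → coeff d F = coeff d G := by
  rw [Ideal.Quotient.eq]
  constructor
  · intro h d hd
    have h1 := h d hd
    rw [map_sub] at h1
    exact sub_eq_zero.1 h1
  · intro h d hd
    rw [map_sub, h d hd, sub_self]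

theorem KJ4_mk_eul {K : ℕ} {F G : MvPowerSeries I ℚ}
    (h : Ideal.Quotient.mk (KJ4I I K) F = Ideal.Quotient.mk (KJ4I I K) G) (j : I) :
    Ideal.Quotient.mk (KJ4I I K) (eul j F) = Ideal.Quotient.mk (KJ4I I K) (eul j G) := by
  rw [KJ4_mk_eq] at h ⊢
  intro d hd
  rw [coeff_eul, coeff_eul, h d hd]

theorem KJ4_tU_coe (T : I → ℕ → MvPowerSeries I ℚ) (hT : ∀ i k, constantCoeff (T i k) = 1) (i : I)
    (k : ℕ) : ((tU T hT i k : (MvPowerSeries I ℚ)ˣ) : MvPowerSeries I ℚ) = T i k := rfl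

/-- `Λ` modulo high total degree. -/
theorem KJ4_lam (f : (I → ℕ) → ℚ) {K k : ℕ} (T : I → ℕ → MvPowerSeries I ℚ)
    (G : I → MvPowerSeries I ℚ) (hT : ∀ i k, constantCoeff (T i k) = 1)
    (hTG : ∀ i, Ideal.Quotient.mk (KJ4I I K) (T i k) = Ideal.Quotient.mk (KJ4I I K) (G i))
    (hG : ∀ i j, eul j (G i) = G i * wSer f i j) (i j : I) :
    Ideal.Quotient.mk (KJ4I I K) (lamT T hT k i j) =
      Ideal.Quotient.mk (KJ4I I K) (wSer f i j) := by
  have h1 : lamT T hT k i j = eul j (T i k) *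
    (((tU T hT i k)⁻¹ : (MvPowerSeries I ℚ)ˣ) : MvPowerSeries I ℚ) := rfl
  have h2 : Ideal.Quotient.mk (KJ4I I K) (T i k) * Ideal.Quotient.mk (KJ4I I K)
      (((tU T hT i k)⁻¹ : (MvPowerSeries I ℚ)ˣ) : MvPowerSeries I ℚ) = 1 := by
    rw [← map_mul, ← KJ4_tU_coe T hT i k, Units.mul_inv, map_one]
  rw [h1, map_mul, KJ4_mk_eul (hTG i) j, hG, map_mul, ← hTG i]
  linear_combination (Ideal.Quotient.mk (KJ4I I K) (wSer f i j)) * h2

theorem KJ4_prod_zpow {ι A : Type} [CommGroup A] (s : Finset ι) (x : A) (g : ι → ℤ) :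
    ∏ i ∈ s, x ^ (g i) = x ^ (∑ i ∈ s, g i) := by
  classical
  induction s using Finset.induction_on with
  | empty => simp
  | insert i s hi ih => rw [Finset.prod_insert hi, Finset.sum_insert hi, ih, zpow_add]

/-- the image of the product of the powers of the `U`'s. -/
theorem KJ4_units (a : I → I → ℕ) (hs : ∀ i j, a i j = a j i) (T : I → ℕ → MvPowerSeries I ℚ)
    (hT0 : ∀ i, T i 0 = 1) (hT : ∀ i k, constantCoeff (T i k) = 1)
    (hrec : ∀ i k, (T i (k + 1)) ^ 2 = T i k * T i (k + 2) +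
      (X i) ^ (k + 1) * ∏ j, (T j (k + 1)) ^ (a i j))
    (φ : MvPowerSeries I ℚ →+* MvPowerSeries I ℚ) (h : IsSub (wT a T hT) φ) (α : I →₀ ℕ) (K : ℕ) :
    φ (((∏ i, ((uu a i (K + 1)) ^ (-(-cw a α i)) * (uu a i K) ^ (-cw a α i)) :
      (MvPowerSeries I ℚ)ˣ) : MvPowerSeries I ℚ)) *
      (((∏ i, (wT a T hT i) ^ (-(α i : ℤ))) : (MvPowerSeries I ℚ)ˣ) : MvPowerSeries I ℚ) =
    (((∏ i, ((tU T hT i (K + 1)) ^ (-(-cw a α i)) * (tU T hT i K) ^ (-cw a α i))) :
      (MvPowerSeries I ℚ)ˣ) : MvPowerSeries I ℚ) := by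
  have hU : ∀ i k, Units.map (φ : MvPowerSeries I ℚ →* MvPowerSeries I ℚ) (uu a i k) =
      tU T hT i k * (tU T hT i 1) ^ (-(k : ℤ)) := by
    intro i k
    apply Units.ext
    exact sub_U a T hT0 hT hrec φ h i k
  have h1 : φ (((∏ i, ((uu a i (K + 1)) ^ (-(-cw a α i)) * (uu a i K) ^ (-cw a α i)) :
      (MvPowerSeries I ℚ)ˣ) : MvPowerSeries I ℚ)) =
      ((Units.map (φ : MvPowerSeries I ℚ →* MvPowerSeries I ℚ)
        (∏ i, ((uu a i (K + 1)) ^ (-(-cw a α i)) * (uu a i K) ^ (-cw a α i))) :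
        (MvPowerSeries I ℚ)ˣ) : MvPowerSeries I ℚ) := rfl
  rw [h1, ← Units.val_mul]
  congr 1
  rw [map_prod]
  have h2 : ∀ i, (wT a T hT i) ^ (-(α i : ℤ)) = ∏ j, (tU T hT j 1) ^ ((cart a j i) * (α i : ℤ)) := by
    intro i
    unfold wT
    rw [← Finset.prod_zpow]
    refine Finset.prod_congr rfl fun j _ => ?_
    rw [← zpow_mul]
    congr 1
    have h3 : cart a i j = cart a j i := by
      unfold cart
      rw [hs i j]
      simp only [eq_comm]
    rw [h3]
    ring
  have h4 : ∏ i, (wT a T hT i) ^ (-(α i : ℤ)) = ∏ j, (tU T hT j 1) ^ (cw a α j) := by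
    rw [Finset.prod_congr rfl fun i _ => h2 i, Finset.prod_comm]
    refine Finset.prod_congr rfl fun j _ => ?_
    unfold cw
    rw [KJ4_prod_zpow]
  rw [h4, ← Finset.prod_mul_distrib]
  refine Finset.prod_congr rfl fun i _ => ?_
  rw [map_mul, map_zpow, map_zpow, hU, hU, mul_zpow, mul_zpow, ← zpow_mul, ← zpow_mul]
  have h5 : tU T hT i 1 ^ (-((K + 1 : ℕ) : ℤ) * -(-cw a α i)) *
      tU T hT i 1 ^ (-(K : ℤ) * -cw a α i) * tU T hT i 1 ^ cw a α i = 1 := by
    rw [← zpow_add, ← zpow_add]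
    have : -((K + 1 : ℕ) : ℤ) * -(-cw a α i) + -(K : ℤ) * -cw a α i + cw a α i = 0 := by
      push_cast
      ring
    rw [this, zpow_zero]
  calc tU T hT i (K + 1) ^ (-(-cw a α i)) * tU T hT i 1 ^ (-((K + 1 : ℕ) : ℤ) * -(-cw a α i)) *
        (tU T hT i K ^ (-cw a α i) * tU T hT i 1 ^ (-(K : ℤ) * -cw a α i)) *
        tU T hT i 1 ^ cw a α i
      = tU T hT i (K + 1) ^ (-(-cw a α i)) * tU T hT i K ^ (-cw a α i) *
        (tU T hT i 1 ^ (-((K + 1 : ℕ) : ℤ) * -(-cw a α i)) *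
          tU T hT i 1 ^ (-(K : ℤ) * -cw a α i) * tU T hT i 1 ^ cw a α i) := by
        simp only [mul_assoc, mul_left_comm, mul_comm]
    _ = _ := by rw [h5, mul_one]

/-- the units `T_{i,K+1}` and `T_{iK}` agree modulo high total degree. -/
theorem KJ4_one {K : ℕ} (T : I → ℕ → MvPowerSeries I ℚ) (hT : ∀ i k, constantCoeff (T i k) = 1)
    (hTT : ∀ i, Ideal.Quotient.mk (KJ4I I K) (T i (K + 1)) =
      Ideal.Quotient.mk (KJ4I I K) (T i K)) (s : I → ℤ) :
    Ideal.Quotient.mk (KJ4I I K)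
      (((∏ i, ((tU T hT i (K + 1)) ^ (-(s i)) * (tU T hT i K) ^ (s i))) :
        (MvPowerSeries I ℚ)ˣ) : MvPowerSeries I ℚ) = 1 := by
  have h1 : ∀ i, Units.map (Ideal.Quotient.mk (KJ4I I K) : MvPowerSeries I ℚ →*
      MvPowerSeries I ℚ ⧸ KJ4I I K) (tU T hT i (K + 1)) =
      Units.map (Ideal.Quotient.mk (KJ4I I K) : MvPowerSeries I ℚ →*
        MvPowerSeries I ℚ ⧸ KJ4I I K) (tU T hT i K) := by
    intro i
    apply Units.ext
    exact hTT i
  have h2 : Units.map (Ideal.Quotient.mk (KJ4I I K) : MvPowerSeries I ℚ →*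
      MvPowerSeries I ℚ ⧸ KJ4I I K)
      (∏ i, ((tU T hT i (K + 1)) ^ (-(s i)) * (tU T hT i K) ^ (s i))) = 1 := by
    rw [map_prod]
    refine Finset.prod_eq_one fun i _ => ?_
    rw [map_mul, map_zpow, map_zpow, h1 i, ← zpow_add, neg_add_cancel, zpow_zero]
  exact congrArg Units.val h2

theorem top_val (a : I → I → ℕ) (hs : ∀ i j, a i j = a j i) (f : (I → ℕ) → ℚ)
    (hK : KacData a f) (α : I →₀ ℕ) (K : ℕ) (hα : tdeg α ≤ K) (h : I → ℚ) :
    Val a α ⟨fun _ => K + 1, fun i => -cw a α i, fun i => -cw a α i,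
      fun l i => if l = i then h i else 0⟩ =
    coeff α (Matrix.of (fun i l : I =>
      (if i = l then C ((K : ℚ) + 1 - K * h i) else (0 : MvPowerSeries I ℚ)) -
        C (1 - h i) * ∑ j, wSer f i j * C ((cart a j l : ℤ) : ℚ))).det := by
  obtain ⟨T, G, hT0, hT, hrec, hTG, hG⟩ := hK
  obtain ⟨φ, hφ⟩ := exists_sub (wT a T hT)
  have hg1 : ∀ i, Ideal.Quotient.mk (KJ4I I K) (T i (K + 1)) =
      Ideal.Quotient.mk (KJ4I I K) (G i) := fun i =>
    KJ4_mk_eq.2 fun d hd => hTG i (K + 1) d (by omega)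
  have hg0 : ∀ i, Ideal.Quotient.mk (KJ4I I K) (T i K) =
      Ideal.Quotient.mk (KJ4I I K) (G i) := fun i =>
    KJ4_mk_eq.2 fun d hd => hTG i K d hd
  set σ : Sta I := ⟨fun _ => K + 1, fun i => -cw a α i, fun i => -cw a α i,
      fun l i => if l = i then h i else 0⟩ with hσ
  have hval : Val a α σ = coeff α (facS a σ * (colMat (colS a σ)).det) := rfl
  rw [hval, residue hφ]
  refine KJ4_mk_eq.1 ?_ α hα
  -- the power factors
  have hfac : φ (facS a σ) *
      (((∏ i, (wT a T hT i) ^ (-(α i : ℤ))) : (MvPowerSeries I ℚ)ˣ) : MvPowerSeries I ℚ) =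
      (((∏ i, ((tU T hT i (K + 1)) ^ (-(-cw a α i)) * (tU T hT i K) ^ (-cw a α i))) :
      (MvPowerSeries I ℚ)ˣ) : MvPowerSeries I ℚ) :=
    KJ4_units a hs T hT0 hT hrec φ hφ α K
  -- the determinant
  have hcol : ∀ i l, colS a σ i l = xv a i (K + 1) l - C (h i) * xv a i K l := by
    intro i l
    have h1 : colS a σ i l = xv a i (K + 1) l -
        ∑ l', C (if l' = i then h i else 0) * xv a l' K l := rfl
    rw [h1, Finset.sum_eq_single i]
    · rw [if_pos rfl]
    · intro l' _ hl'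
      rw [if_neg hl', map_zero, zero_mul]
    · intro hi
      exact absurd (Finset.mem_univ i) hi
  have hN : (φ.mapMatrix (colMat (colS a σ))).transpose =
      Matrix.of (fun i l => φ (xv a i (K + 1) l)) -
        Matrix.diagonal (fun i => (C (h i) : MvPowerSeries I ℚ)) *
          Matrix.of (fun i l => φ (xv a i K l)) := by
    ext1 i l
    rw [Matrix.sub_apply, Matrix.diagonal_mul]
    show φ (colS a σ i l) = φ (xv a i (K + 1) l) - C (h i) * φ (xv a i K l)
    rw [hcol, map_sub, map_mul, hφ.map_C]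
  have hdet : φ (colMat (colS a σ)).det * (jacM (wT a T hT)).det =
      (((K + 1 : ℕ) : Matrix I I (MvPowerSeries I ℚ)) - lamT T hT (K + 1) * carM a -
        Matrix.diagonal (fun i => (C (h i) : MvPowerSeries I ℚ)) *
          ((K : Matrix I I (MvPowerSeries I ℚ)) - lamT T hT K * carM a)).det := by
    rw [RingHom.map_det, ← Matrix.det_transpose, hN, jacM_wT, Matrix.det_one_sub_mul_comm,
      ← Matrix.det_mul, sub_mul, Matrix.mul_assoc,
      sub_xv a hs T hT0 hT hrec φ hφ (K + 1), sub_xv a hs T hT0 hT hrec φ hφ K]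
  have hE : φ (facS a σ * (colMat (colS a σ)).det) *
      (((∏ i, (wT a T hT i) ^ (-(α i : ℤ))) : (MvPowerSeries I ℚ)ˣ) : MvPowerSeries I ℚ) *
        (jacM (wT a T hT)).det =
      (((∏ i, ((tU T hT i (K + 1)) ^ (-(-cw a α i)) * (tU T hT i K) ^ (-cw a α i))) :
      (MvPowerSeries I ℚ)ˣ) : MvPowerSeries I ℚ) *
      (((K + 1 : ℕ) : Matrix I I (MvPowerSeries I ℚ)) - lamT T hT (K + 1) * carM a -
        Matrix.diagonal (fun i => (C (h i) : MvPowerSeries I ℚ)) *
          ((K : Matrix I I (MvPowerSeries I ℚ)) - lamT T hT K * carM a)).det := by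
    rw [map_mul, ← hfac, ← hdet]
    ring
  rw [hE, map_mul, KJ4_one T hT (fun i => (hg1 i).trans (hg0 i).symm) (fun i => -cw a α i),
    one_mul, RingHom.map_det, RingHom.map_det]
  congr 1
  ext1 i l
  have hL1 : ∀ j, Ideal.Quotient.mk (KJ4I I K) (lamT T hT (K + 1) i j) =
      Ideal.Quotient.mk (KJ4I I K) (wSer f i j) := fun j => KJ4_lam f T G hT hg1 hG i j
  have hL0 : ∀ j, Ideal.Quotient.mk (KJ4I I K) (lamT T hT K i j) =
      Ideal.Quotient.mk (KJ4I I K) (wSer f i j) := fun j => KJ4_lam f T G hT hg0 hG i j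
  have hS1 : Ideal.Quotient.mk (KJ4I I K) ((lamT T hT (K + 1) * carM a) i l) =
      Ideal.Quotient.mk (KJ4I I K) (∑ j, wSer f i j * C ((cart a j l : ℤ) : ℚ)) := by
    rw [Matrix.mul_apply, map_sum, map_sum]
    refine Finset.sum_congr rfl fun j _ => ?_
    rw [map_mul, map_mul, hL1 j]
    rfl
  have hS0 : Ideal.Quotient.mk (KJ4I I K) ((lamT T hT K * carM a) i l) =
      Ideal.Quotient.mk (KJ4I I K) (∑ j, wSer f i j * C ((cart a j l : ℤ) : ℚ)) := by
    rw [Matrix.mul_apply, map_sum, map_sum]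
    refine Finset.sum_congr rfl fun j _ => ?_
    rw [map_mul, map_mul, hL0 j]
    rfl
  have hn0 : ∀ n : ℕ, (n : Matrix I I (MvPowerSeries I ℚ)) i l =
      if i = l then (n : MvPowerSeries I ℚ) else 0 := fun n => by
    rw [Matrix.natCast_apply]
    split_ifs
    · rfl
    · exact Nat.cast_zero
  rw [RingHom.mapMatrix_apply, RingHom.mapMatrix_apply, Matrix.map_apply, Matrix.map_apply,
    Matrix.sub_apply, Matrix.sub_apply, Matrix.diagonal_mul, Matrix.sub_apply, Matrix.of_apply,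
    map_sub, map_sub, map_sub, map_mul, map_sub, hS1, hS0, map_mul (Ideal.Quotient.mk (KJ4I I K))
      (C (1 - h i)), hn0, hn0]
  set S := Ideal.Quotient.mk (KJ4I I K) (∑ j, wSer f i j * C ((cart a j l : ℤ) : ℚ)) with hS
  have e1 : (C (1 - h i) : MvPowerSeries I ℚ) = 1 - C (h i) := by
    rw [map_sub, map_one]
  have e2 : (C ((K : ℚ) + 1 - K * h i) : MvPowerSeries I ℚ) = (K : MvPowerSeries I ℚ) + 1 -
      (K : MvPowerSeries I ℚ) * C (h i) := by
    rw [map_sub, map_add, map_one, map_mul, map_natCast]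
  by_cases hil : i = l
  · rw [if_pos hil, if_pos hil, if_pos hil, e1, e2]
    simp only [map_sub, map_add, map_mul, map_one, map_natCast]
    push_cast
    ring
  · rw [if_neg hil, if_neg hil, if_neg hil, e1]
    simp only [map_sub, map_zero, map_one]
    ring

theorem top_poly (a : I → I → ℕ) (hs : ∀ i j, a i j = a j i) (f : (I → ℕ) → ℚ)
    (hK : KacData a f) (α : I →₀ ℕ) (hα0 : α ≠ 0) (K : ℕ) (hα : tdeg α ≤ K) (μ : I → ℚ) :
    ∃ q : Polynomial ℚ,
      (∀ ε : ℚ, Val a α ⟨fun _ => K + 1, fun i => -cw a α i, fun i => -cw a α i,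
        fun l i => if l = i then 1 - ε * μ i else 0⟩ = q.eval ε) ∧
      q.eval 0 = 0 ∧
      q.derivative.eval 0 = f α * ∑ i, μ i * (α i : ℚ) * (-(cw a α i : ℤ) : ℚ) := by
  set M : Matrix I I (MvPowerSeries I ℚ) := Matrix.of (fun i l : I =>
    (if i = l then C ((K : ℚ) * μ i) else (0 : MvPowerSeries I ℚ)) -
      C (μ i) * ∑ j, wSer f i j * C ((cart a j l : ℤ) : ℚ)) with hM
  set P : Polynomial (MvPowerSeries I ℚ) :=
    (1 + (Polynomial.X : Polynomial (MvPowerSeries I ℚ)) • M.map Polynomial.C).det with hP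
  have hPeval : ∀ c : MvPowerSeries I ℚ, P.eval c = (1 + c • M).det := by
    intro c
    rw [hP, ← Polynomial.coe_evalRingHom, RingHom.map_det]
    congr 1
    ext1 i l
    rw [RingHom.mapMatrix_apply, Matrix.map_apply, Matrix.add_apply, Matrix.add_apply,
      Matrix.smul_apply, Matrix.smul_apply, Matrix.map_apply, map_add, smul_eq_mul, smul_eq_mul,
      map_mul]
    rw [Polynomial.coe_evalRingHom, Polynomial.eval_X, Polynomial.eval_C]
    congr 1
    rw [Matrix.one_apply, Matrix.one_apply]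
    split_ifs
    · simp
    · simp
  have hzero : ∀ c : ℚ, coeff α (C c : MvPowerSeries I ℚ) = 0 := by
    intro c
    classical
    rw [coeff_C, if_neg hα0]
  refine ⟨∑ n ∈ Finset.range (P.natDegree + 1), Polynomial.monomial n (coeff α (P.coeff n)),
    ?_, ?_, ?_⟩
  · intro ε
    rw [top_val a hs f hK α K hα]
    have h1 : (∑ n ∈ Finset.range (P.natDegree + 1),
        Polynomial.monomial n (coeff α (P.coeff n))).eval ε = coeff α (P.eval (C ε)) := by
      rw [Polynomial.eval_finsetSum, Polynomial.eval_eq_sum_range, map_sum]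
      refine Finset.sum_congr rfl fun n _ => ?_
      rw [Polynomial.eval_monomial, ← map_pow, coeff_mul_C]
    rw [h1, hPeval]
    congr 1
    congr 1
    ext1 i l
    rw [Matrix.of_apply, Matrix.add_apply, Matrix.smul_apply, hM, Matrix.of_apply, smul_eq_mul,
      Matrix.one_apply]
    have e1 : (C (1 - (1 - ε * μ i)) : MvPowerSeries I ℚ) = C ε * C (μ i) := by
      rw [← map_mul]
      congr 1
      ring
    by_cases hil : i = l
    · rw [if_pos hil, if_pos hil, if_pos hil, e1]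
      have e2 : (C ((K : ℚ) + 1 - K * (1 - ε * μ i)) : MvPowerSeries I ℚ) =
          1 + C ε * C ((K : ℚ) * μ i) := by
        rw [← map_mul, ← map_one (C (σ := I) (R := ℚ)), ← map_add]
        congr 1
        ring
      rw [e2]
      ring
    · rw [if_neg hil, if_neg hil, if_neg hil, e1]
      ring
  · have h1 : (∑ n ∈ Finset.range (P.natDegree + 1),
        Polynomial.monomial n (coeff α (P.coeff n))).eval 0 = coeff α (P.eval (C 0)) := by
      rw [Polynomial.eval_finsetSum, Polynomial.eval_eq_sum_range, map_sum]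
      refine Finset.sum_congr rfl fun n _ => ?_
      rw [Polynomial.eval_monomial, ← map_pow, coeff_mul_C]
    rw [h1, hPeval, map_zero, zero_smul, add_zero, Matrix.det_one,
      ← map_one (C (σ := I) (R := ℚ))]
    exact hzero 1
  · have hcoef : ∀ n, (∑ n ∈ Finset.range (P.natDegree + 1),
        Polynomial.monomial n (coeff α (P.coeff n))).coeff n = coeff α (P.coeff n) := by
      intro n
      rw [Polynomial.finsetSum_coeff]
      by_cases hn : n ∈ Finset.range (P.natDegree + 1)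
      · rw [Finset.sum_eq_single_of_mem n hn]
        · rw [Polynomial.coeff_monomial, if_pos rfl]
        · intro b _ hb
          rw [Polynomial.coeff_monomial, if_neg hb]
      · rw [Finset.sum_eq_zero]
        · rw [Finset.mem_range, not_lt] at hn
          rw [Polynomial.coeff_eq_zero_of_natDegree_lt (by omega), map_zero]
        · intro b hb
          rw [Polynomial.coeff_monomial, if_neg]
          rintro rfl
          exact hn hb
    have h1 : ∀ Q : Polynomial ℚ, Q.derivative.eval 0 = Q.coeff 1 := by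
      intro Q
      rw [← Polynomial.coeff_zero_eq_eval_zero, Polynomial.coeff_derivative]
      simp
    have h2 : P.coeff 1 = M.trace := by
      rw [← Matrix.derivative_det_one_add_X_smul M, ← Polynomial.coeff_zero_eq_eval_zero,
        Polynomial.coeff_derivative]
      simp [hP]
    rw [h1, hcoef, h2, Matrix.trace, map_sum, Finset.mul_sum]
    refine Finset.sum_congr rfl fun i _ => ?_
    rw [Matrix.diag_apply, hM, Matrix.of_apply, if_pos rfl, map_sub, hzero, zero_sub, coeff_C_mul,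
      map_sum]
    have h3 : ∀ j, coeff α (wSer f i j * C ((cart a j i : ℤ) : ℚ)) =
        (α i : ℚ) * (α j : ℚ) * f (fun l => α l) * ((cart a j i : ℤ) : ℚ) := by
      intro j
      rw [coeff_mul_C]
      rfl
    rw [Finset.sum_congr rfl fun j _ => h3 j]
    have h4 : ∑ j, (α i : ℚ) * (α j : ℚ) * f (fun l => α l) * ((cart a j i : ℤ) : ℚ) =
        f (fun l => α l) * (α i : ℚ) * (cw a α i : ℤ) := by
      unfold cw
      push_cast
      rw [Finset.mul_sum]
      refine Finset.sum_congr rfl fun j _ => ?_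
      have h5 : cart a j i = cart a i j := by
        unfold cart
        rw [hs j i]
        simp only [eq_comm]
      rw [h5]
      ring
    rw [h4]
    have h6 : f (fun l => α l) = f α := rfl
    rw [h6]
    ring

end Pool.Agent.H27.KAC

end

section

/-!
KAC ADE engine, module E3b: the matrix of one step.

`A = blk W' M`, `M = stM a W W' P H m`, `W' = W \ S`.  `y = yv W W' P m`.
* `st_Ay`: for `l ∉ W'`: `(A y)_l = P'_l + (p_l - (H P)_l)`; for `l ∈ W'`: `1`.
  (columns `j ∉ W` with `m_j = 0`: `(2 δ_lj - H_lj) P_j`; with `m_j ≠ 0`: `P_j (2 δ - H_lj) + m_j C^eff_lj`; columns `s ∈ S`: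
  `C^eff_ls m_s`; sum: `2 P_l - (H P)_l + (C m)_l` by `cv_ext`.)
* `st_Z`: off-diagonal entries `≤ 0` (`effC_nonpos`).
* `st_notrap`: let `T ≠ ∅` with `(A y)_T = 0` and `A_lj = 0` for `l ∈ T, j ∉ T`.  `T ∩ W' = ∅`.  With `H` replaced by `(1-δ) H`:
  `0 = P'_l + (p_l - (H P)_l) + δ (H P)_l`, all three terms are `≥ 0`, so `P'_l = 0`, `(H P)_l = 0`, `p_l = 0`; `l ∉ S` because
  `P'_s = (C m)_s > 0`; row `l` of `H` is zero (`P_i > 0` off `W`).  So `m_j C^eff_lj = 0` for `j ∉ T ∪ W'` and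
  `-2 P_l = (C m)_l = ∑_{j ∈ T} C^eff_lj m_j`.  Let `v = ext a W' (m restricted to T)`: `v ≥ 0`, supported in `W' ∪ T`,
  `(C v)_x = 0` on `W'`, `(C v)_l = -2 P_l < 0` on `T`; `FT a (W' ∪ T)` and `FT_nonneg` for `-v` give `v = 0`, contradiction.
-/

set_option autoImplicit false

namespace Pool.Agent.H40.KADE

open scoped BigOperators
open Matrix Pool.Agent.H27.KAC

variable {I : Type} [Fintype I] [DecidableEq I]

/-- the positive vector. -/
def yv (W W' : Finset I) (P m : I → ℚ) (j : I) : ℚ :=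
  if j ∈ W' then 1 else if j ∈ W then m j else if m j = 0 then P j else 1

/-- the new matrix `H' = N A⁻¹`. -/
noncomputable def stH (a : I → I → ℕ) (W W' : Finset I) (P : I → ℚ) (H : I → I → ℚ) (m : I → ℚ)
    (l j : I) : ℚ :=
  if l ∈ W ∨ j ∈ W' then 0 else sclq (P l) (m l) * (blk W' (stM a W W' P H m))⁻¹ l j

theorem st_yv_pos {W W' : Finset I} {P m : I → ℚ} (hP : ∀ i, i ∉ W → 0 < P i)
    (hm : ∀ s ∈ W, s ∉ W' → 0 < m s) (i : I) : 0 < yv W W' P m i := by
  unfold yv
  split_ifs with h1 h2 h3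
  · exact one_pos
  · exact hm i h2 h1
  · exact hP i h2
  · exact one_pos

private theorem E3b_sclq_nonneg {P m : ℚ} (hP : 0 < P) : 0 ≤ sclq P m := by
  unfold sclq
  split_ifs
  · exact zero_le_one
  · exact hP.le

theorem st_Z (a : I → I → ℕ) {W W' : Finset I} (hW : W' ⊆ W) (hFT : FT a W')
    {P : I → ℚ} (hP : ∀ i, i ∉ W → 0 < P i) {H : I → I → ℚ} (hH0 : ∀ l i, l ∈ W ∨ i ∈ W → H l i = 0)
    (hH : ∀ l i, 0 ≤ H l i) {m : I → ℚ} (hm : ∀ i, 0 ≤ m i) (l j : I) (hlj : l ≠ j) :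
    blk W' (stM a W W' P H m) l j ≤ 0 := by
  have _hW := hW
  have _hH0 := hH0
  unfold blk
  rw [Matrix.of_apply]
  split_ifs with h1
  · exact le_rfl
  · push Not at h1
    have he : effC a W' l j ≤ 0 := effC_nonpos a hFT h1.1 h1.2 hlj
    unfold stM
    rw [if_neg hlj]
    split_ifs with h2
    · exact he
    · have h3 : 0 ≤ sclq (P j) (m j) := E3b_sclq_nonneg (hP j h2)
      have h4 := mul_nonneg h3 (hH l j)
      have h5 := mul_nonneg (hm j) (neg_nonneg.2 he)
      linarith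

theorem st_Ay (a : I → I → ℕ) {W W' : Finset I} (hW : W' ⊆ W) (hFT : FT a W')
    {P p : I → ℚ} (hP0 : ∀ x ∈ W, P x = 0)
    {H : I → I → ℚ} (hH0 : ∀ l i, l ∈ W ∨ i ∈ W → H l i = 0)
    {m m0 : I → ℚ} (hm : m = ext a W' m0) (l : I) :
    (blk W' (stM a W W' P H m) *ᵥ yv W W' P m) l =
      if l ∈ W' then 1 else stP a P p m l + (p l - ∑ i, H l i * P i) := by
  have _hH0 := hH0
  have hmv : (blk W' (stM a W W' P H m) *ᵥ yv W W' P m) l =
      ∑ j, blk W' (stM a W W' P H m) l j * yv W W' P m j := rfl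
  rw [hmv]
  by_cases hl : l ∈ W'
  · rw [if_pos hl, Finset.sum_eq_single l]
    · simp [blk, yv, hl]
    · intro j _ hj
      simp [blk, hl, Ne.symm hj]
    · intro h1
      exact absurd (Finset.mem_univ l) h1
  · rw [if_neg hl]
    have h1 : ∀ j, blk W' (stM a W W' P H m) l j * yv W W' P m j =
        P j * ((if l = j then 2 else 0) - H l j) + (if j ∈ W' then 0 else effC a W' l j * m0 j) := by
      intro j
      by_cases hj : j ∈ W'
      · have hlj : l ≠ j := fun h => hl (h ▸ hj)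
        simp [blk, hj, hlj, hP0 j (hW hj)]
      · have hmj : m j = m0 j := by rw [hm]; exact ext_off a W' m0 j hj
        by_cases hjW : j ∈ W
        · simp [blk, yv, stM, hl, hj, hjW, hP0 j hjW, hmj]
        · by_cases h0 : m j = 0
          · have h0' : m0 j = 0 := by rw [← hmj]; exact h0
            simp only [blk, yv, stM, sclq, Matrix.of_apply, hl, hj, hjW, h0, h0', or_self, if_false,
              if_true]
            ring
          · have h0' : ¬ m0 j = 0 := by rw [← hmj]; exact h0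
            simp only [blk, yv, stM, sclq, Matrix.of_apply, hl, hj, hjW, h0, or_self, if_false]
            rw [hmj]
            ring
    rw [Finset.sum_congr rfl fun j _ => h1 j, Finset.sum_add_distrib]
    have h2 : ∑ j, (if j ∈ W' then 0 else effC a W' l j * m0 j) = cv a m l := by
      rw [hm, cv_ext a hFT m0 l, ← Finset.sum_filter_add_sum_filter_not Finset.univ (fun j => j ∈ W')]
      rw [Finset.sum_eq_zero (s := Finset.univ.filter fun j => j ∈ W')
        (fun j hj => if_pos (Finset.mem_filter.1 hj).2), zero_add]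
      have h3 : Finset.univ.filter (fun j => ¬ j ∈ W') = Finset.univ \ W' := by
        ext j; simp
      rw [h3]
      refine Finset.sum_congr rfl fun j hj => ?_
      rw [Finset.mem_sdiff] at hj
      rw [if_neg hj.2]
    have h4 : ∑ j, P j * ((if l = j then 2 else 0) - H l j) = 2 * P l - ∑ i, H l i * P i := by
      have h5 : ∀ j, P j * ((if l = j then 2 else 0) - H l j) =
          (if l = j then 2 * P j else 0) - H l j * P j := by
        intro j
        split_ifs <;> ring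
      rw [Finset.sum_congr rfl fun j _ => h5 j, Finset.sum_sub_distrib, Finset.sum_ite_eq,
        if_pos (Finset.mem_univ l)]
    rw [h2, h4]
    unfold stP
    ring

/-- the vector `m` is positive on `S`. -/
private theorem E3b_mpos (a : I → I → ℕ) {W : Finset I} (hFT : FT a W) {k : ℕ} (hk : 1 ≤ k)
    {γ q : I → ℚ} {S : Finset I} {n : I → ℤ} (hn : n ∈ boxS (W \ S) k γ q)
    (hpos : ∀ s ∈ S, 0 < cv a (mhat a (W \ S) q n) s) (s : I) (hs : s ∈ W) (hs' : s ∉ W \ S) :
    0 < mhat a (W \ S) q n s := by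
  have h1 : s ∈ S := by
    by_contra h2
    exact hs' (Finset.mem_sdiff.2 ⟨hs, h2⟩)
  exact sol_pos_of a _ (fun j => mhat_nonneg a (FT_mono a hFT Finset.sdiff_subset) hk hn j) s
    (hpos s h1)

/-- the determinant is nonnegative. -/
theorem st_det_nonneg (a : I → I → ℕ) {cn : Finset I → (I → ℚ) → ℕ → ℚ}
    {k : ℕ} (hk : 1 ≤ k) {γ P p : I → ℚ} {H : I → I → ℚ} {W : Finset I} {q : I → ℚ}
    {w : Finset I → ℕ → ℚ} (h : Fresh a cn (k + 1) γ P p H W q w) {S : Finset I} (hS : S ⊆ W)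
    {n : I → ℤ} (hn : n ∈ boxS (W \ S) k γ q)
    (hpos : ∀ s ∈ S, 0 < cv a (mhat a (W \ S) q n) s)
    (hP' : ∀ i, 0 ≤ stP a P p (mhat a (W \ S) q n) i) :
    0 ≤ (blk (W \ S) (stM a W (W \ S) P H (mhat a (W \ S) q n))).det := by
  have _hS := hS
  have hFT' : FT a (W \ S) := FT_mono a h.ft Finset.sdiff_subset
  have hm0 : ∀ i, 0 ≤ mhat a (W \ S) q n i := fun i => mhat_nonneg a hFT' hk hn i
  refine mm_det_nonneg _
    (fun i j hij => st_Z a Finset.sdiff_subset hFT' h.Ppos h.H0 h.Hnn hm0 i j hij)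
    (yv W (W \ S) P (mhat a (W \ S) q n))
    (fun i => st_yv_pos h.Ppos (fun s hs hs' => E3b_mpos a h.ft hk hn hpos s hs hs') i)
    (fun i => ?_)
  rw [st_Ay a Finset.sdiff_subset hFT' (p := p) h.P0 h.H0
    (m := mhat a (W \ S) q n) (m0 := fun i => (n i : ℚ) - q i) rfl i]
  split_ifs
  · exact zero_le_one
  · have h1 := hP' i
    have h2 := h.dnn i
    linarith

/-- no trap for the perturbed matrix. -/
theorem st_notrap (a : I → I → ℕ) {cn : Finset I → (I → ℚ) → ℕ → ℚ}
    {k : ℕ} (hk : 1 ≤ k) {γ P p : I → ℚ} {H : I → I → ℚ} {W : Finset I} {q : I → ℚ}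
    {w : Finset I → ℕ → ℚ} (h : Fresh a cn (k + 1) γ P p H W q w) {S : Finset I} (hS : S ⊆ W)
    {n : I → ℤ} (hn : n ∈ boxS (W \ S) k γ q)
    (hpos : ∀ s ∈ S, 0 < cv a (mhat a (W \ S) q n) s)
    (hP' : ∀ i, 0 ≤ stP a P p (mhat a (W \ S) q n) i)
    (hFT : FT a ((W \ S) ∪ crX (W \ S) (stP a P p (mhat a (W \ S) q n))))
    {δ : ℚ} (hδ0 : 0 < δ) (hδ1 : δ ≤ 1) (T : Finset I) (hT : T.Nonempty)
    (hT0 : ∀ l ∈ T, (blk (W \ S) (stM a W (W \ S) P (fun l i => (1 - δ) * H l i)
      (mhat a (W \ S) q n)) *ᵥ yv W (W \ S) P (mhat a (W \ S) q n)) l = 0) :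
    ∃ l ∈ T, ∃ j, j ∉ T ∧ blk (W \ S) (stM a W (W \ S) P (fun l i => (1 - δ) * H l i)
      (mhat a (W \ S) q n)) l j ≠ 0 := by
  have _hS := hS
  have _hδ1 := hδ1
  by_contra hcon
  push Not at hcon
  set W' : Finset I := W \ S with hW'
  set m : I → ℚ := mhat a W' q n with hm
  have hW'W : W' ⊆ W := Finset.sdiff_subset
  have hFT' : FT a W' := FT_mono a h.ft hW'W
  have hm0 : ∀ i, 0 ≤ m i := fun i => mhat_nonneg a hFT' hk hn i
  have hmext : m = ext a W' (fun i => (n i : ℚ) - q i) := rfl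
  have hHδ0 : ∀ l i, l ∈ W ∨ i ∈ W → (1 - δ) * H l i = 0 := by
    intro l i hli
    rw [h.H0 l i hli, mul_zero]
  have hPnn : ∀ i, 0 ≤ P i := by
    intro i
    by_cases hi : i ∈ W
    · rw [h.P0 i hi]
    · exact (h.Ppos i hi).le
  -- the properties of the elements of `T`
  have hT1 : ∀ l ∈ T, l ∉ W' ∧ stP a P p m l = 0 ∧ p l = 0 ∧ (∑ i, H l i * P i) = 0 := by
    intro l hl
    have h1 := hT0 l hl
    rw [st_Ay a hW'W hFT' (p := p) h.P0 hHδ0 hmext l] at h1
    split_ifs at h1 with h2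
    · exact absurd h1 one_ne_zero
    · have h3 : ∑ i, (1 - δ) * H l i * P i = (1 - δ) * ∑ i, H l i * P i := by
        rw [Finset.mul_sum]
        exact Finset.sum_congr rfl fun i _ => by ring
      rw [h3] at h1
      have h4 : 0 ≤ ∑ i, H l i * P i :=
        Finset.sum_nonneg fun i _ => mul_nonneg (h.Hnn l i) (hPnn i)
      have h5 := hP' l
      have h6 := h.dnn l
      have h7 : 0 ≤ δ * ∑ i, H l i * P i := mul_nonneg hδ0.le h4
      have h8 : δ * ∑ i, H l i * P i = 0 := by linarith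
      have h9 : (∑ i, H l i * P i) = 0 := by
        rcases mul_eq_zero.1 h8 with h9 | h9
        · exact absurd h9 hδ0.ne'
        · exact h9
      refine ⟨h2, ?_, ?_, h9⟩
      · linarith
      · rw [h9] at h6 h1
        linarith
  have hT2 : ∀ l ∈ T, l ∉ W := by
    intro l hl hlW
    obtain ⟨h1, h2, h3, -⟩ := hT1 l hl
    have h4 : l ∈ S := by
      by_contra h5
      exact h1 (Finset.mem_sdiff.2 ⟨hlW, h5⟩)
    have h5 := hpos l h4
    unfold stP at h2
    rw [h3, h.P0 l hlW] at h2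
    linarith
  have hT3 : ∀ l ∈ T, cv a m l = -(2 * P l) := by
    intro l hl
    obtain ⟨h1, h2, h3, -⟩ := hT1 l hl
    unfold stP at h2
    rw [h3] at h2
    linarith
  have hT4 : ∀ l ∈ T, ∀ i, H l i = 0 := by
    intro l hl i
    by_cases hi : i ∈ W
    · exact h.H0 l i (Or.inr hi)
    · obtain ⟨-, -, -, h4⟩ := hT1 l hl
      have h5 := (Finset.sum_eq_zero_iff_of_nonneg
        (fun i _ => mul_nonneg (h.Hnn l i) (hPnn i))).1 h4 i (Finset.mem_univ i)
      rcases mul_eq_zero.1 h5 with h6 | h6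
      · exact h6
      · exact absurd h6 (h.Ppos i hi).ne'
  have hT5 : ∀ l ∈ T, ∀ j, j ∉ T → j ∉ W' → effC a W' l j * m j = 0 := by
    intro l hl j hj hjW'
    have h1 := hcon l hl j hj
    have hlj : l ≠ j := fun h => hj (h ▸ hl)
    have hl' := (hT1 l hl).1
    unfold blk at h1
    rw [Matrix.of_apply, if_neg (by push Not; exact ⟨hl', hjW'⟩)] at h1
    unfold stM at h1
    by_cases hjW : j ∈ W
    · rw [if_pos hjW] at h1
      rw [h1, zero_mul]
    · beta_reduce at h1
      rw [if_neg hjW, if_neg hlj, hT4 l hl j, mul_zero, sub_zero, mul_zero, zero_add] at h1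
      rw [mul_comm]
      exact h1
  -- the vector `v`
  set v : I → ℚ := ext a W' (fun j => if j ∈ T then m j else 0) with hv
  have hv0 : ∀ x, 0 ≤ v x := ext_nonneg a hFT' _ (fun x _ => by
    split_ifs
    · exact hm0 x
    · exact le_rfl)
  have hvoff : ∀ x, x ∉ W' ∪ T → v x = 0 := by
    intro x hx
    rw [Finset.mem_union, not_or] at hx
    rw [hv, ext_off a W' _ x hx.1, if_neg hx.2]
  have hvW : ∀ x ∈ W', cv a v x = 0 := fun x hx => ext_cv a hFT' _ x hx
  have hvT : ∀ l ∈ T, cv a v l = -(2 * P l) := by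
    intro l hl
    rw [← hT3 l hl, hmext, hv, cv_ext a hFT' _ l, cv_ext a hFT' _ l]
    refine Finset.sum_congr rfl fun j hj => ?_
    rw [Finset.mem_sdiff] at hj
    have hmj : m j = (n j : ℚ) - q j := by
      rw [hmext]; exact ext_off a W' _ j hj.2
    split_ifs with h1
    · rw [hmj]
    · have h2 := hT5 l hl j h1 hj.2
      rw [hmj] at h2
      rw [mul_zero, h2]
  have hFT2 : FT a (W' ∪ T) := by
    refine FT_mono a hFT (Finset.union_subset_union le_rfl ?_)
    intro l hl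
    obtain ⟨h1, h2, -, -⟩ := hT1 l hl
    exact Finset.mem_filter.2 ⟨Finset.mem_univ l, h1, h2⟩
  have hneg : ∀ x, 0 ≤ -v x := by
    refine FT_nonneg a hFT2 (fun x => -v x) (fun x hx => ?_) (fun x hx => ?_)
    · rw [hvoff x hx, neg_zero]
    · rw [cv_neg]
      rcases Finset.mem_union.1 hx with h1 | h1
      · rw [hvW x h1, neg_zero]
      · rw [hvT x h1]
        have h2 := hPnn x
        linarith
  have hvz : v = fun _ => 0 := by
    funext x
    have h1 := hneg x
    have h2 := hv0 x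
    linarith
  obtain ⟨l, hl⟩ := hT
  have h1 := hvT l hl
  rw [hvz, cv_zero] at h1
  have h2 := h.Ppos l (hT2 l hl)
  linarith

/-- the normal form of the columns. -/
theorem st_norm (a : I → I → ℕ) {W W' : Finset I} (hW : W' ⊆ W) (P : I → ℚ) (H : I → I → ℚ)
    (m : I → ℚ) (hdet : (blk W' (stM a W W' P H m)).det ≠ 0) (l i : I) (hl : l ∉ W') (hi : i ∉ W') :
    stN W P m l i = ∑ l' ∈ Finset.univ \ W', stH a W W' P H m l l' * stM a W W' P H m l' i := by
  have _hW := hW
  have _hl := hl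
  by_cases hlW : l ∈ W
  · rw [Finset.sum_eq_zero]
    · unfold stN
      rw [if_neg]
      rintro ⟨rfl, h2⟩
      exact h2 hlW
    · intro l' _
      unfold stH
      rw [if_pos (Or.inl hlW), zero_mul]
  · set A : Matrix I I ℚ := blk W' (stM a W W' P H m) with hA
    have h1 : ∀ l' ∈ Finset.univ \ W', stH a W W' P H m l l' * stM a W W' P H m l' i =
        sclq (P l) (m l) * (A⁻¹ l l' * A l' i) := by
      intro l' hl'
      rw [Finset.mem_sdiff] at hl'
      have h2 : A l' i = stM a W W' P H m l' i := by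
        rw [hA]
        unfold blk
        rw [Matrix.of_apply, if_neg (by push Not; exact ⟨hl'.2, hi⟩)]
      rw [h2]
      unfold stH
      rw [if_neg (by push Not; exact ⟨hlW, hl'.2⟩)]
      ring
    rw [Finset.sum_congr rfl h1, ← Finset.mul_sum]
    have h3 : ∑ l' ∈ Finset.univ \ W', A⁻¹ l l' * A l' i = ∑ l', A⁻¹ l l' * A l' i := by
      refine Finset.sum_subset (Finset.subset_univ _) fun l' _ hl' => ?_
      rw [Finset.mem_sdiff, not_and_not_right] at hl'
      have h4 := hl' (Finset.mem_univ l')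
      have h5 : l' ≠ i := fun h => hi (h ▸ h4)
      have h6 : A l' i = 0 := by
        rw [hA]
        unfold blk
        rw [Matrix.of_apply, if_pos (Or.inl h4), if_neg h5]
      rw [h6, mul_zero]
    have h7 : ∑ l', A⁻¹ l l' * A l' i = (1 : Matrix I I ℚ) l i := by
      rw [← Matrix.nonsing_inv_mul A (isUnit_iff_ne_zero.2 hdet), Matrix.mul_apply]
    rw [h3, h7, Matrix.one_apply]
    unfold stN
    by_cases hli : l = i
    · subst hli
      rw [if_pos ⟨rfl, hlW⟩, if_pos rfl, mul_one]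
    · rw [if_neg (fun h => hli h.1), if_neg hli, mul_zero]

/-- looped vertices. -/
private theorem E3b_loop (a : I → I → ℕ) (hd : ∀ i, a i i ≠ 1)
    {cn : Finset I → (I → ℚ) → ℕ → ℚ}
    {k : ℕ} (hk : 2 ≤ k) {γ P p : I → ℚ} {H : I → I → ℚ} {W : Finset I} {q : I → ℚ}
    {w : Finset I → ℕ → ℚ} (h : Fresh a cn (k + 1) γ P p H W q w) {S : Finset I} (hS : S ⊆ W)
    {n : I → ℤ} (hn : n ∈ boxS (W \ S) k γ q) (i : I) (hi : a i i ≠ 0) :
    0 < stP a P p (mhat a (W \ S) q n) i := by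
  have hiW : i ∉ W := fun h1 => hi (h.ft.loopfree i h1)
  have hG : ∀ j, 0 ≤ stG k γ (mhat a (W \ S) q n) j :=
    fun j => stG_nonneg a (by omega) h.toGS h.gnn hS hn j
  have h1 : cv a (stG k γ (mhat a (W \ S) q n)) i =
      cv a γ i - (k : ℚ) * cv a (mhat a (W \ S) q n) i := by
    have h2 : stG k γ (mhat a (W \ S) q n) =
        fun j => γ j - (fun j => (k : ℚ) * mhat a (W \ S) q n j) j := rfl
    rw [h2, cv_sub, cv_smul]
  have h3 := cv_le_diag a (stG k γ (mhat a (W \ S) q n)) i (fun j _ => hG j)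
  have h4 : ((cart a i i : ℤ) : ℚ) ≤ 0 := by
    rw [cart_self]
    have h5 : 2 ≤ a i i := by
      have h6 := hd i
      omega
    have h7 : (2 : ℚ) ≤ (a i i : ℚ) := by exact_mod_cast h5
    push_cast
    linarith
  have h8 := mul_nonneg (neg_nonneg.2 h4) (hG i)
  have h9 := h.cons i
  have h10 := h.Ppos i hiW
  have hk2 : (2 : ℚ) ≤ (k : ℚ) := by exact_mod_cast hk
  rw [h9] at h1
  push_cast at h1
  have h11 : (k : ℚ) * stP a P p (mhat a (W \ S) q n) i =
      ((k : ℚ) - 1) * P i - cv a (stG k γ (mhat a (W \ S) q n)) i := by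
    rw [h1]
    unfold stP
    ring
  have h12 : 0 < (k : ℚ) * stP a P p (mhat a (W \ S) q n) i := by
    rw [h11]
    have h13 : 0 < ((k : ℚ) - 1) * P i := mul_pos (by linarith) h10
    linarith
  by_contra hcon
  push Not at hcon
  have h14 := mul_nonneg (show (0 : ℚ) ≤ (k : ℚ) by linarith) (neg_nonneg.2 hcon)
  linarith

/-- the state before creation, for the perturbed matrix (`k ≥ 2`). -/
theorem st_pre (a : I → I → ℕ) (hs : ∀ i j, a i j = a j i) (hd : ∀ i, a i i ≠ 1)
    {cn : Finset I → (I → ℚ) → ℕ → ℚ} (hcn : CN a cn)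
    {k : ℕ} (hk : 2 ≤ k) {γ P p : I → ℚ} {H : I → I → ℚ} {W : Finset I} {q : I → ℚ}
    {w : Finset I → ℕ → ℚ} (h : Fresh a cn (k + 1) γ P p H W q w) {S : Finset I} (hS : S ⊆ W)
    {n : I → ℤ} (hn : n ∈ boxS (W \ S) k γ q)
    (hpos : ∀ s ∈ S, 0 < cv a (mhat a (W \ S) q n) s)
    (htw : tw a W w k (mhat a (W \ S) q n) ≠ 0)
    (hP' : ∀ i, a i i = 0 → 0 ≤ stP a P p (mhat a (W \ S) q n) i)
    (hFT : FT a ((W \ S) ∪ crX (W \ S) (stP a P p (mhat a (W \ S) q n))))
    {δ : ℚ} (hδ0 : 0 < δ) (hδ1 : δ ≤ 1) :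
    0 < (blk (W \ S) (stM a W (W \ S) P (fun l i => (1 - δ) * H l i)
      (mhat a (W \ S) q n))).det ∧
    Pre a cn k (stG k γ (mhat a (W \ S) q n)) (stP a P p (mhat a (W \ S) q n)) P
      (stH a W (W \ S) P (fun l i => (1 - δ) * H l i) (mhat a (W \ S) q n)) (W \ S)
      (stQ (W \ S) q (mhat a (W \ S) q n))
      (neww cn w k (stQ (W \ S) q (mhat a (W \ S) q n)) (mhat a (W \ S) q n)) := by
  have hk1 : 1 ≤ k := by omega
  have hGS := st_GS a hs hcn hk1 h.toGS hS hn hpos htw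
  have hloop : ∀ i, a i i ≠ 0 → 0 < stP a P p (mhat a (W \ S) q n) i :=
    fun i hi => E3b_loop a hd hk h hS hn i hi
  have hPall : ∀ i, 0 ≤ stP a P p (mhat a (W \ S) q n) i := by
    intro i
    by_cases hi : a i i = 0
    · exact hP' i hi
    · exact (hloop i hi).le
  have hFT' : FT a (W \ S) := FT_mono a h.ft Finset.sdiff_subset
  have hm0 : ∀ i, 0 ≤ mhat a (W \ S) q n i := fun i => mhat_nonneg a hFT' hk1 hn i
  have hPnn : ∀ i, 0 ≤ P i := by
    intro i
    by_cases hi : i ∈ W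
    · rw [h.P0 i hi]
    · exact (h.Ppos i hi).le
  have hHδ0 : ∀ l i, l ∈ W ∨ i ∈ W → (1 - δ) * H l i = 0 := by
    intro l i hli
    rw [h.H0 l i hli, mul_zero]
  have hHδ : ∀ l i, 0 ≤ (1 - δ) * H l i := fun l i =>
    mul_nonneg (by linarith) (h.Hnn l i)
  have hZ : ∀ i j, i ≠ j → blk (W \ S) (stM a W (W \ S) P (fun l i => (1 - δ) * H l i)
      (mhat a (W \ S) q n)) i j ≤ 0 := fun i j hij =>
    st_Z a Finset.sdiff_subset hFT' h.Ppos hHδ0 hHδ hm0 i j hij
  have hy : ∀ i, 0 < yv W (W \ S) P (mhat a (W \ S) q n) i := fun i =>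
    st_yv_pos h.Ppos (fun s hs hs' => E3b_mpos a h.ft hk1 hn hpos s hs hs') i
  have hAy0 : ∀ i, (blk (W \ S) (stM a W (W \ S) P (fun l i => (1 - δ) * H l i)
      (mhat a (W \ S) q n)) *ᵥ yv W (W \ S) P (mhat a (W \ S) q n)) i =
      if i ∈ W \ S then 1 else stP a P p (mhat a (W \ S) q n) i +
        (p i - ∑ j, (1 - δ) * H i j * P j) := fun i =>
    st_Ay a Finset.sdiff_subset hFT' (p := p) h.P0 hHδ0 rfl i
  have hdef : ∀ i, 0 ≤ p i - ∑ j, (1 - δ) * H i j * P j := by
    intro i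
    have h3 : ∑ j, (1 - δ) * H i j * P j = (1 - δ) * ∑ j, H i j * P j := by
      rw [Finset.mul_sum]
      exact Finset.sum_congr rfl fun j _ => by ring
    have h4 : 0 ≤ ∑ j, H i j * P j :=
      Finset.sum_nonneg fun j _ => mul_nonneg (h.Hnn i j) (hPnn j)
    have h5 := h.dnn i
    have h6 := mul_nonneg hδ0.le h4
    rw [h3]
    linarith
  have hAy : ∀ i, 0 ≤ (blk (W \ S) (stM a W (W \ S) P (fun l i => (1 - δ) * H l i)
      (mhat a (W \ S) q n)) *ᵥ yv W (W \ S) P (mhat a (W \ S) q n)) i := by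
    intro i
    rw [hAy0 i]
    split_ifs
    · exact zero_le_one
    · exact add_nonneg (hPall i) (hdef i)
  have htr := fun T hT hT0 => st_notrap a hk1 h hS hn hpos hPall hFT hδ0 hδ1 T hT hT0
  have hdet := mm_det_pos _ hZ _ hy hAy htr
  have hinv := mm_inv_nonneg _ hZ _ hy hAy htr
  refine ⟨hdet, ⟨hGS, ?_, ?_, hPall, ?_, hPnn, ?_, ?_⟩⟩
  · intro l i hli
    unfold stH
    rw [if_pos]
    rcases hli with h1 | h1
    · exact Or.inl (Finset.sdiff_subset h1)
    · exact Or.inr h1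
  · intro l i
    unfold stH
    split_ifs with h1
    · exact le_rfl
    · push Not at h1
      exact mul_nonneg (E3b_sclq_nonneg (h.Ppos l h1.1)) (hinv l i)
  · intro i hi h0
    constructor
    · by_contra h1
      have h2 := hloop i h1
      linarith
    · refine h.Ppos i fun hiW => ?_
      have h1 : i ∈ S := by
        by_contra h2
        exact hi (Finset.mem_sdiff.2 ⟨hiW, h2⟩)
      have h2 := hpos i h1
      unfold stP at h0
      rw [h.P0 i hiW, h.p0 i hiW] at h0
      linarith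
  · intro l
    by_cases hlW : l ∈ W
    · rw [Finset.sum_eq_zero]
      · exact hPnn l
      · intro i _
        unfold stH
        rw [if_pos (Or.inl hlW), zero_mul]
    · set A : Matrix I I ℚ := blk (W \ S) (stM a W (W \ S) P (fun l i => (1 - δ) * H l i)
        (mhat a (W \ S) q n)) with hA
      have h1 : ∀ i, stH a W (W \ S) P (fun l i => (1 - δ) * H l i) (mhat a (W \ S) q n) l i *
          stP a P p (mhat a (W \ S) q n) i ≤
          sclq (P l) (mhat a (W \ S) q n l) *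
            (A⁻¹ l i * (A *ᵥ yv W (W \ S) P (mhat a (W \ S) q n)) i) := by
        intro i
        have hs0 : 0 ≤ sclq (P l) (mhat a (W \ S) q n l) := E3b_sclq_nonneg (h.Ppos l hlW)
        unfold stH
        split_ifs with h2
        · rw [zero_mul]
          exact mul_nonneg hs0 (mul_nonneg (hinv l i) (hAy i))
        · push Not at h2
          rw [hAy0 i, if_neg h2.2, mul_assoc]
          refine mul_le_mul_of_nonneg_left (mul_le_mul_of_nonneg_left ?_ (hinv l i)) hs0
          have h3 := hdef i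
          linarith
      have h2 : ∑ i, A⁻¹ l i * (A *ᵥ yv W (W \ S) P (mhat a (W \ S) q n)) i =
          yv W (W \ S) P (mhat a (W \ S) q n) l := by
        have h3 : A⁻¹ *ᵥ (A *ᵥ yv W (W \ S) P (mhat a (W \ S) q n)) =
            yv W (W \ S) P (mhat a (W \ S) q n) := by
          rw [Matrix.mulVec_mulVec, Matrix.nonsing_inv_mul A (isUnit_iff_ne_zero.2 hdet.ne'),
            Matrix.one_mulVec]
        exact congrFun h3 l
      refine (Finset.sum_le_sum fun i _ => h1 i).trans ?_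
      rw [← Finset.mul_sum, h2]
      have h4 : l ∉ W \ S := fun h5 => hlW (Finset.sdiff_subset h5)
      unfold yv sclq
      rw [if_neg h4, if_neg hlW]
      split_ifs
      · rw [one_mul]
      · rw [mul_one]
  · exact fun i => stG_nonneg a hk1 h.toGS h.gnn hS hn i

/-- looped vertices: the new exponent is positive (`k ≥ 2`); vertices with `P' = 0` are loop-free with `P > 0`. -/
theorem st_loop (a : I → I → ℕ) (hs : ∀ i j, a i j = a j i) (hd : ∀ i, a i i ≠ 1)
    {cn : Finset I → (I → ℚ) → ℕ → ℚ}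
    {k : ℕ} (hk : 2 ≤ k) {γ P p : I → ℚ} {H : I → I → ℚ} {W : Finset I} {q : I → ℚ}
    {w : Finset I → ℕ → ℚ} (h : Fresh a cn (k + 1) γ P p H W q w) {S : Finset I} (hS : S ⊆ W)
    {n : I → ℤ} (hn : n ∈ boxS (W \ S) k γ q) (i : I) (hi : a i i ≠ 0) :
    0 < stP a P p (mhat a (W \ S) q n) i := by
  have _hs := hs
  exact E3b_loop a hd hk h hS hn i hi

end Pool.Agent.H40.KADE

end

section

/-!
KAC ADE engine, module E5: positivity.

`pos`: induction on `k`.  `k = 1`: `bot` (`blk W idm = 1`, `GS_w_nonneg`).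
`k + 1`, `k ≥ 1`: `G (k+1) … idm H` is the limit `δ → 0+` of the values at `(1-δ) H` (`poly`; a polynomial which is `≥ 0` on
`(0, 1)` is `≥ 0` at `0`), `(1-δ) H` is again fresh; by `step` it is a sum of terms which are `≥ 0` by `term_nonneg`.
`term_nonneg`: if `tw = 0` trivial.  Otherwise `st_GS`.
* `k = 1`: `bot`: if `γ' = 0` then `P' = 0` (`cons` with `k = 1`), `st_det_nonneg` (for the matrix `(1-δ) H`), `GS_w_nonneg`.
* `k ≥ 2`: if some loop-free `i` has `P'_i < 0`: `i ∉ W'`, `i ∉ S` (`P'_s = (C m)_s > 0`), so `P_i > 0`: `vanNeg`.  Otherwise `P' ≥ 0`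
  (`st_loop`), the vertices of `X = crX W' P'` are loop-free with `P > 0`.  If `W' ∪ X` is not `FT`: `vanType`.  Otherwise `st_pre`,
  `norm` (`st_norm`), `create`, `tw ≥ 0` (`GS_tw_nonneg`), and if `tw ≠ 0`: `cr_fresh` and the induction hypothesis.
-/

set_option autoImplicit false

namespace Pool.Agent.H40.KADE

open scoped BigOperators
open Pool.Agent.H27.KAC

variable {I : Type} [Fintype I] [DecidableEq I]

/-- the terms of the step. -/
noncomputable def term (a : I → I → ℕ) (cn : Finset I → (I → ℚ) → ℕ → ℚ)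
    (G : ℕ → (I → ℚ) → (I → ℚ) → (I → ℚ) → (I → I → ℚ) → (I → I → ℚ) → Finset I → (I → ℚ) →
      (Finset I → ℕ → ℚ) → ℚ) (k : ℕ) (γ P p : I → ℚ) (H : I → I → ℚ) (W : Finset I) (q : I → ℚ)
    (w : Finset I → ℕ → ℚ) (S : Finset I) (n : I → ℤ) : ℚ :=
  stw W P n * tw a W w k (mhat a (W \ S) q n) *
    G k (stG k γ (mhat a (W \ S) q n)) (stP a P p (mhat a (W \ S) q n)) P
      (stM a W (W \ S) P H (mhat a (W \ S) q n)) (stN W P (mhat a (W \ S) q n)) (W \ S)
      (stQ (W \ S) q (mhat a (W \ S) q n))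
      (neww cn w k (stQ (W \ S) q (mhat a (W \ S) q n)) (mhat a (W \ S) q n))

theorem fresh_scale {a : I → I → ℕ} {cn : Finset I → (I → ℚ) → ℕ → ℚ}
    {k : ℕ} {γ P p : I → ℚ} {H : I → I → ℚ} {W : Finset I} {q : I → ℚ}
    {w : Finset I → ℕ → ℚ} (h : Fresh a cn k γ P p H W q w) {δ : ℚ} (h0 : 0 ≤ δ) (h1 : δ ≤ 1) :
    Fresh a cn k γ P p (fun l i => (1 - δ) * H l i) W q w := by
  have hPn : ∀ i, 0 ≤ P i := by
    intro i
    by_cases hi : i ∈ W
    · rw [h.P0 i hi]
    · exact (h.Ppos i hi).le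
  refine ⟨h.toGS, ?_, ?_, h.Ppos, h.pnn, ?_, h.gnn⟩
  · intro l i hli
    rw [h.H0 l i hli, mul_zero]
  · intro l i
    exact mul_nonneg (by linarith) (h.Hnn l i)
  · intro l
    have h2 : ∑ i, (1 - δ) * H l i * P i = (1 - δ) * ∑ i, H l i * P i := by
      rw [Finset.mul_sum]
      exact Finset.sum_congr rfl fun i _ => by ring
    have h3 : 0 ≤ ∑ i, H l i * P i :=
      Finset.sum_nonneg fun i _ => mul_nonneg (h.Hnn l i) (hPn i)
    have h4 := h.dnn l
    rw [h2]
    nlinarith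

/-- passage to the limit. -/
theorem lim_le (f : Polynomial ℚ) (c : ℚ) (h : ∀ δ : ℚ, 0 < δ → δ < 1 → c ≤ f.eval δ) :
    c ≤ f.eval 0 := by
  have h1 : IsClosed {δ : ℚ | c ≤ f.eval δ} := isClosed_le continuous_const f.continuous
  have h2 : Set.Ioo (0 : ℚ) 1 ⊆ {δ : ℚ | c ≤ f.eval δ} := fun δ hδ => h δ hδ.1 hδ.2
  have h3 := closure_minimal h2 h1
  rw [closure_Ioo (by norm_num)] at h3
  exact h3 ⟨le_rfl, zero_le_one⟩

theorem E5_wtq_nonneg {P : ℚ} (hP : 0 ≤ P) (m : ℕ) : 0 ≤ wtq P m := by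
  unfold wtq
  refine div_nonneg (Finset.prod_nonneg fun i _ => ?_) (Nat.cast_nonneg _)
  positivity

theorem E5_stw_nonneg {W : Finset I} {P : I → ℚ} (hP : ∀ i, 0 ≤ P i) (n : I → ℤ) :
    0 ≤ stw W P n := by
  unfold stw
  exact Finset.prod_nonneg fun j _ => E5_wtq_nonneg (hP j) _

theorem E5_P_nonneg {a : I → I → ℕ} {cn : Finset I → (I → ℚ) → ℕ → ℚ}
    {k : ℕ} {γ P p : I → ℚ} {H : I → I → ℚ} {W : Finset I} {q : I → ℚ}
    {w : Finset I → ℕ → ℚ} (h : Fresh a cn k γ P p H W q w) (i : I) : 0 ≤ P i := by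
  by_cases hi : i ∈ W
  · rw [h.P0 i hi]
  · exact (h.Ppos i hi).le

theorem E5_G_nonneg (a : I → I → ℕ) (hs : ∀ i j, a i j = a j i) (hd : ∀ i, a i i ≠ 1)
    {cn : Finset I → (I → ℚ) → ℕ → ℚ} (hcn : CN a cn)
    {G : ℕ → (I → ℚ) → (I → ℚ) → (I → ℚ) → (I → I → ℚ) → (I → I → ℚ) → Finset I → (I → ℚ) →
      (Finset I → ℕ → ℚ) → ℚ} (hG : ClusterVal a cn G)
    {k : ℕ} (hk : 1 ≤ k)
    (ih : ∀ (γ P p : I → ℚ) (H : I → I → ℚ) (W : Finset I) (q : I → ℚ) (w : Finset I → ℕ → ℚ),
      Fresh a cn k γ P p H W q w → 0 ≤ G k γ P p idm H W q w)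
    {γ P p : I → ℚ} {H : I → I → ℚ} {W : Finset I} {q : I → ℚ}
    {w : Finset I → ℕ → ℚ} (h : Fresh a cn (k + 1) γ P p H W q w) {S : Finset I} (hS : S ⊆ W)
    {n : I → ℤ} (hn : n ∈ boxS (W \ S) k γ q)
    (hpos : ∀ s ∈ S, 0 < cv a (mhat a (W \ S) q n) s) {δ : ℚ} (hδ0 : 0 < δ) (hδ1 : δ ≤ 1)
    (htw : tw a W w k (mhat a (W \ S) q n) ≠ 0) :
    0 ≤ G k (stG k γ (mhat a (W \ S) q n)) (stP a P p (mhat a (W \ S) q n)) P
      (stM a W (W \ S) P (fun l i => (1 - δ) * H l i) (mhat a (W \ S) q n))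
      (stN W P (mhat a (W \ S) q n)) (W \ S)
      (stQ (W \ S) q (mhat a (W \ S) q n))
      (neww cn w k (stQ (W \ S) q (mhat a (W \ S) q n)) (mhat a (W \ S) q n)) := by
  have hPn : ∀ i, 0 ≤ P i := E5_P_nonneg h
  have hGS := st_GS a hs hcn hk h.toGS hS hn hpos htw
  rcases Nat.lt_or_ge k 2 with hk2 | hk2
  · obtain rfl : k = 1 := by omega
    rw [hG.bot _ _ _ _ _ _ _ _ hGS]
    split_ifs with hγ
    · have hP' : ∀ i, 0 ≤ stP a P p (mhat a (W \ S) q n) i := by
        intro i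
        have h1 := hGS.cons i
        have h2 : stG 1 γ (mhat a (W \ S) q n) = fun _ => (0 : ℚ) := funext hγ
        rw [h2, cv_zero] at h1
        push_cast at h1
        linarith
      refine mul_nonneg ?_ (Finset.prod_nonneg fun N hN =>
        GS_w_nonneg a hs hcn hGS hN (by omega))
      exact st_det_nonneg a hk (fresh_scale h hδ0.le hδ1) hS hn hpos hP'
    · exact le_refl _
  · have hSpos : ∀ s ∈ S, 0 < stP a P p (mhat a (W \ S) q n) s := by
      intro s hsS
      unfold stP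
      rw [h.P0 s (hS hsS), h.p0 s (hS hsS)]
      have := hpos s hsS
      linarith
    have hnotW : ∀ i, i ∉ W \ S → stP a P p (mhat a (W \ S) q n) i ≤ 0 → i ∉ W := by
      intro i hi hle hiW
      have hiS : i ∈ S := by
        by_contra hcon
        exact hi (Finset.mem_sdiff.2 ⟨hiW, hcon⟩)
      have := hSpos i hiS
      linarith
    by_cases hneg : ∃ i, a i i = 0 ∧ stP a P p (mhat a (W \ S) q n) i < 0
    · obtain ⟨i, hi0, hi1⟩ := hneg
      have hi2 : i ∉ W \ S := fun hh => by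
        have := hGS.P0 i hh
        linarith
      have hi3 := hnotW i hi2 hi1.le
      rw [hG.vanNeg k _ _ _ _ _ _ _ _ i hk2 hGS hPn hi2 hi0 hi1 (h.Ppos i hi3)]
    · push Not at hneg
      have hP' : ∀ i, 0 ≤ stP a P p (mhat a (W \ S) q n) i := by
        intro i
        by_cases hi : a i i = 0
        · exact hneg i hi
        · exact (st_loop a hs hd hk2 h hS hn i hi).le
      have hXX : ∀ x ∈ crX (W \ S) (stP a P p (mhat a (W \ S) q n)), a x x = 0 ∧ 0 < P x := by
        intro x hx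
        obtain ⟨hx1, hx2⟩ := (E4_mem _ _ x).1 hx
        refine ⟨?_, h.Ppos x (hnotW x hx1 hx2.le)⟩
        by_contra hcon
        have := st_loop a hs hd hk2 h hS hn x hcon
        linarith
      by_cases hFT : FT a ((W \ S) ∪ crX (W \ S) (stP a P p (mhat a (W \ S) q n)))
      · obtain ⟨hdet, hpre⟩ := st_pre a hs hd hcn hk2 h hS hn hpos htw hneg hFT hδ0 hδ1
        rw [hG.norm k _ _ _ _ _ (stH a W (W \ S) P (fun l i => (1 - δ) * H l i)
          (mhat a (W \ S) q n)) _ _ _ (fun l i hl hi => st_norm a Finset.sdiff_subset P _ _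
            hdet.ne' l i hl hi)]
        refine mul_nonneg hdet.le ?_
        rw [hG.create k _ _ _ _ _ _ _ hk2 hpre.toGS hP' hPn hpre.H0 hFT (fun x hx => (hXX x hx).2)]
        by_cases htw2 : tw a (W \ S) (neww cn w k (stQ (W \ S) q (mhat a (W \ S) q n))
            (mhat a (W \ S) q n)) (k - 1) (crQ a (W \ S)
              (crX (W \ S) (stP a P p (mhat a (W \ S) q n))) P) = 0
        · rw [htw2, zero_mul]
        · exact mul_nonneg (GS_tw_nonneg a hs hcn hGS le_rfl _)
            (ih _ _ _ _ _ _ _ (cr_fresh a hs hcn hk2 hpre hFT htw2))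
      · exact absurd (FT_cr a hk2 hGS (fun i => stG_nonneg a hk h.toGS h.gnn hS hn i) hXX) hFT

theorem term_nonneg (a : I → I → ℕ) (hs : ∀ i j, a i j = a j i) (hd : ∀ i, a i i ≠ 1)
    {cn : Finset I → (I → ℚ) → ℕ → ℚ} (hcn : CN a cn)
    {G : ℕ → (I → ℚ) → (I → ℚ) → (I → ℚ) → (I → I → ℚ) → (I → I → ℚ) → Finset I → (I → ℚ) →
      (Finset I → ℕ → ℚ) → ℚ} (hG : ClusterVal a cn G)
    {k : ℕ} (hk : 1 ≤ k)
    (ih : ∀ (γ P p : I → ℚ) (H : I → I → ℚ) (W : Finset I) (q : I → ℚ) (w : Finset I → ℕ → ℚ),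
      Fresh a cn k γ P p H W q w → 0 ≤ G k γ P p idm H W q w)
    {γ P p : I → ℚ} {H : I → I → ℚ} {W : Finset I} {q : I → ℚ}
    {w : Finset I → ℕ → ℚ} (h : Fresh a cn (k + 1) γ P p H W q w) {S : Finset I} (hS : S ⊆ W)
    {n : I → ℤ} (hn : n ∈ boxS (W \ S) k γ q)
    (hpos : ∀ s ∈ S, 0 < cv a (mhat a (W \ S) q n) s) {δ : ℚ} (hδ0 : 0 < δ) (hδ1 : δ ≤ 1) :
    0 ≤ term a cn G k γ P p (fun l i => (1 - δ) * H l i) W q w S n := by
  have hPn : ∀ i, 0 ≤ P i := E5_P_nonneg h
  unfold term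
  by_cases htw : tw a W w k (mhat a (W \ S) q n) = 0
  · rw [htw, mul_zero, zero_mul]
  · exact mul_nonneg (mul_nonneg (E5_stw_nonneg hPn n)
      (GS_tw_nonneg a hs hcn h.toGS (by omega) _))
      (E5_G_nonneg a hs hd hcn hG hk ih h hS hn hpos hδ0 hδ1 htw)

theorem E5_blk_idm (W : Finset I) : blk W (idm : I → I → ℚ) = 1 := by
  ext l i
  unfold blk idm
  rw [Matrix.of_apply, Matrix.one_apply]
  split_ifs <;> rfl

theorem E5_step (a : I → I → ℕ)
    {cn : Finset I → (I → ℚ) → ℕ → ℚ}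
    {G : ℕ → (I → ℚ) → (I → ℚ) → (I → ℚ) → (I → I → ℚ) → (I → I → ℚ) → Finset I → (I → ℚ) →
      (Finset I → ℕ → ℚ) → ℚ} (hG : ClusterVal a cn G) {k : ℕ} (hk : 1 ≤ k)
    {γ P p : I → ℚ} {H : I → I → ℚ} {W : Finset I} {q : I → ℚ}
    {w : Finset I → ℕ → ℚ} (h : Fresh a cn (k + 1) γ P p H W q w) (δ : ℚ) :
    G (k + 1) γ P p idm (fun l i => (1 - δ) * H l i) W q w =
      ∑ S ∈ W.powerset, ∑ n ∈ (boxS (W \ S) k γ q).filter
          (fun n => ∀ s ∈ S, 0 < cv a (mhat a (W \ S) q n) s),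
        term a cn G k γ P p (fun l i => (1 - δ) * H l i) W q w S n := by
  exact hG.step k γ P p (fun l i => (1 - δ) * H l i) W q w hk h.toGS h.Ppos h.pnn
    (fun l i hli => by rw [h.H0 l i hli, mul_zero])

theorem pos (a : I → I → ℕ) (hs : ∀ i j, a i j = a j i) (hd : ∀ i, a i i ≠ 1)
    {cn : Finset I → (I → ℚ) → ℕ → ℚ} (hcn : CN a cn)
    {G : ℕ → (I → ℚ) → (I → ℚ) → (I → ℚ) → (I → I → ℚ) → (I → I → ℚ) → Finset I → (I → ℚ) →
      (Finset I → ℕ → ℚ) → ℚ} (hG : ClusterVal a cn G) (k : ℕ) (hk : 1 ≤ k) :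
    ∀ (γ P p : I → ℚ) (H : I → I → ℚ) (W : Finset I) (q : I → ℚ) (w : Finset I → ℕ → ℚ),
      Fresh a cn k γ P p H W q w → 0 ≤ G k γ P p idm H W q w := by
  induction k, hk using Nat.le_induction with
  | base =>
    intro γ P p H W q w h
    rw [hG.bot _ _ _ _ _ _ _ _ h.toGS]
    split_ifs
    · rw [E5_blk_idm, Matrix.det_one, one_mul]
      exact Finset.prod_nonneg fun N hN => GS_w_nonneg a hs hcn h.toGS hN (by omega)
    · exact le_refl _
  | succ k hk ih =>
    intro γ P p H W q w h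
    obtain ⟨f, hf⟩ := hG.poly (k + 1) γ P p H W q w
    have h0 : G (k + 1) γ P p idm H W q w = f.eval 0 := by
      rw [← hf 0]
      congr 1
      funext l i
      ring
    rw [h0]
    refine lim_le f 0 fun δ hδ0 hδ1 => ?_
    rw [← hf δ, E5_step a hG hk h δ]
    refine Finset.sum_nonneg fun S hS => Finset.sum_nonneg fun n hn => ?_
    obtain ⟨hn1, hn2⟩ := Finset.mem_filter.1 hn
    exact term_nonneg a hs hd hcn hG hk ih h (Finset.mem_powerset.1 hS) hn1 hn2 hδ0 hδ1.le

/-- one term is a lower bound, for the perturbed matrix. -/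
theorem term_le (a : I → I → ℕ) (hs : ∀ i j, a i j = a j i) (hd : ∀ i, a i i ≠ 1)
    {cn : Finset I → (I → ℚ) → ℕ → ℚ} (hcn : CN a cn)
    {G : ℕ → (I → ℚ) → (I → ℚ) → (I → ℚ) → (I → I → ℚ) → (I → I → ℚ) → Finset I → (I → ℚ) →
      (Finset I → ℕ → ℚ) → ℚ} (hG : ClusterVal a cn G) {k : ℕ} (hk : 1 ≤ k)
    {γ P p : I → ℚ} {H : I → I → ℚ} {W : Finset I} {q : I → ℚ}
    {w : Finset I → ℕ → ℚ} (h : Fresh a cn (k + 1) γ P p H W q w) {S : Finset I} (hS : S ⊆ W)
    {n : I → ℤ} (hn : n ∈ boxS (W \ S) k γ q)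
    (hpos : ∀ s ∈ S, 0 < cv a (mhat a (W \ S) q n) s) {δ : ℚ} (hδ0 : 0 < δ) (hδ1 : δ ≤ 1) :
    term a cn G k γ P p (fun l i => (1 - δ) * H l i) W q w S n ≤
      G (k + 1) γ P p idm (fun l i => (1 - δ) * H l i) W q w := by
  have ih := pos a hs hd hcn hG k hk
  rw [E5_step a hG hk h δ]
  have hnn : ∀ S' ∈ W.powerset, ∀ n' ∈ (boxS (W \ S') k γ q).filter
      (fun n => ∀ s ∈ S', 0 < cv a (mhat a (W \ S') q n) s),
      0 ≤ term a cn G k γ P p (fun l i => (1 - δ) * H l i) W q w S' n' := by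
    intro S' hS' n' hn'
    obtain ⟨hn1, hn2⟩ := Finset.mem_filter.1 hn'
    exact term_nonneg a hs hd hcn hG hk ih h (Finset.mem_powerset.1 hS') hn1 hn2 hδ0 hδ1
  refine le_trans ?_ (Finset.single_le_sum (fun S' hS' => Finset.sum_nonneg (hnn S' hS'))
    (Finset.mem_powerset.2 hS))
  exact Finset.single_le_sum (f := fun n => term a cn G k γ P p (fun l i => (1 - δ) * H l i)
    W q w S n) (hnn S (Finset.mem_powerset.2 hS)) (Finset.mem_filter.2 ⟨hn, hpos⟩)

end Pool.Agent.H40.KADE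

end

section

/-!
KAC ADE engine, module E6: the top states, `f ≥ 0`.

* `FT_Zt`: `Z = Zt a α`.  Matrix `A` = `C` on `Z × Z`, identity elsewhere; `y = α` on `Z`, `1` elsewhere; `(A y)_x = ∑_{j ∉ Z} a_xj α_j ≥ 0` on
  `Z`.  If `T ⊆ Z` is a trap then `a_xj = 0` for `x ∈ T`, `j ∉ T`, contradicting `Conn` (`T ≠ univ` because some `s_r > 0`).
  `mm_inv_nonneg`: `u = A⁻¹ 1_Z ≥ 0`, `(C u)_x = 1` on `Z`, so `u_x > 0` (`sol_pos_of`), `u = 0` off `Z`.
* `top_fresh`: `GS`: `cons`: `(C α)_i = K s_i - (K+1) s_i`; `adm`: second case.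
* `f_nonneg_amp`: `top_poly` with `μ_i = 0` if `s_i = 0`, else `1`; `ClusterVal.top` and `pos`: `q(ε) ≥ 0` for `0 < ε < 1`, `q(0) = 0`, so
  `q'(0) ≥ 0` (`kl6_limit`-like), `q'(0) = f(α) ∑ α_i s_i`, the sum is `> 0`.
-/

set_option autoImplicit false

namespace Pool.Agent.H40.KADE

open scoped BigOperators
open Pool.Agent.H27.KAC

variable {I : Type} [Fintype I] [DecidableEq I]

theorem E6_mem (a : I → I → ℕ) (α : I →₀ ℕ) (i : I) :
    i ∈ Zt a α ↔ a i i = 0 ∧ cw a α i = 0 := by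
  unfold Zt
  rw [Finset.mem_filter]
  exact ⟨fun h => h.2, fun h => ⟨Finset.mem_univ _, h⟩⟩

theorem E6_cv_cw (a : I → I → ℕ) (α : I →₀ ℕ) (i : I) :
    cv a (fun j => (α j : ℚ)) i = ((cw a α i : ℤ) : ℚ) := by
  unfold cv cw
  push_cast
  rfl

theorem E6_pos (a : I → I → ℕ) {α : I →₀ ℕ} (hα : Amp a α) (i : I) : 0 ≤ -cw a α i := by
  by_cases h : a i i = 0
  · exact hα.pos i h
  · exact (hα.posl i h).le

theorem E6_pos' (a : I → I → ℕ) {α : I →₀ ℕ} (hα : Amp a α) (i : I) (hi : i ∉ Zt a α) :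
    0 < -cw a α i := by
  rw [E6_mem] at hi
  by_cases h : a i i = 0
  · have h1 := hα.pos i h
    have h2 : cw a α i ≠ 0 := fun h3 => hi ⟨h, h3⟩
    omega
  · exact hα.posl i h

theorem FT_Zt (a : I → I → ℕ) (hs : ∀ i j, a i j = a j i) (hc : Conn a) (α : I →₀ ℕ)
    (hα : Amp a α) : FT a (Zt a α) := by
  classical
  set Z := Zt a α with hZdef
  obtain ⟨r, hr⟩ := hα.ex
  have hrZ : r ∉ Z := by
    intro h
    have := ((E6_mem a α r).1 h).2
    omega
  set A : Matrix I I ℚ := Matrix.of (fun l j => if l ∈ Z ∧ j ∈ Z then ((cart a l j : ℤ) : ℚ)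
    else if l = j then 1 else 0) with hA
  have hAap : ∀ l j, A l j = if l ∈ Z ∧ j ∈ Z then ((cart a l j : ℤ) : ℚ)
      else if l = j then 1 else 0 := fun l j => rfl
  have hAZ : ∀ i j, i ≠ j → A i j ≤ 0 := by
    intro i j hij
    rw [hAap]
    split_ifs with h1
    · rw [cart_ne a hij]
      push_cast
      have : (0 : ℚ) ≤ (a i j : ℚ) := Nat.cast_nonneg _
      linarith
    · exact le_rfl
  -- action on vectors
  have hAv1 : ∀ (v : I → ℚ) (l : I), l ∉ Z → (A.mulVec v) l = v l := by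
    intro v l hl
    show ∑ j, A l j * v j = v l
    rw [Finset.sum_eq_single l]
    · rw [hAap, if_neg (fun h => hl h.1), if_pos rfl, one_mul]
    · intro j _ hj
      rw [hAap, if_neg (fun h => hl h.1), if_neg (Ne.symm hj), zero_mul]
    · intro h
      exact absurd (Finset.mem_univ l) h
  have hAv2 : ∀ (v : I → ℚ) (l : I), l ∈ Z → (A.mulVec v) l =
      cv a (fun j => if j ∈ Z then v j else 0) l := by
    intro v l hl
    show ∑ j, A l j * v j = _
    unfold cv
    refine Finset.sum_congr rfl fun j _ => ?_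
    rw [hAap]
    beta_reduce
    by_cases hj : j ∈ Z
    · rw [if_pos ⟨hl, hj⟩, if_pos hj]
    · have hne : l ≠ j := by
        rintro rfl
        exact hj hl
      rw [if_neg (fun h => hj h.2), if_neg hj, if_neg hne, zero_mul, mul_zero]
  set y : I → ℚ := fun j => if j ∈ Z then (α j : ℚ) else 1 with hy
  have hypos : ∀ i, 0 < y i := by
    intro i
    simp only [hy]
    split_ifs
    · have := hα.supp i
      exact_mod_cast this
    · exact one_pos
  have hAy : ∀ l ∈ Z, (A.mulVec y) l = ∑ j ∈ Finset.univ \ Z, (a l j : ℚ) * (α j : ℚ) := by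
    intro l hl
    rw [hAv2 y l hl]
    have h1 : cv a (fun j => if j ∈ Z then y j else 0) l =
        cv a (fun j => (α j : ℚ)) l - cv a (fun j => if j ∈ Z then 0 else (α j : ℚ)) l := by
      rw [← cv_sub]
      congr 1
      funext j
      simp only [hy]
      split_ifs <;> ring
    rw [h1, E6_cv_cw, ((E6_mem a α l).1 hl).2]
    unfold cv
    rw [Int.cast_zero, zero_sub, ← Finset.sum_neg_distrib]
    rw [← Finset.sum_subset (Finset.subset_univ (Finset.univ \ Z))]
    · refine Finset.sum_congr rfl fun j hj => ?_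
      have hjZ : j ∉ Z := (Finset.mem_sdiff.1 hj).2
      have hne : l ≠ j := by
        rintro rfl
        exact hjZ hl
      beta_reduce
      rw [if_neg hjZ, cart_ne a hne]
      push_cast
      ring
    · intro j _ hj
      have hjZ : j ∈ Z := by
        by_contra h
        exact hj (Finset.mem_sdiff.2 ⟨Finset.mem_univ _, h⟩)
      beta_reduce
      rw [if_pos hjZ]
      ring
  have hAynn : ∀ l, 0 ≤ (A.mulVec y) l := by
    intro l
    by_cases hl : l ∈ Z
    · rw [hAy l hl]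
      exact Finset.sum_nonneg fun j _ => by positivity
    · rw [hAv1 y l hl]
      exact (hypos l).le
  have htr : ∀ T : Finset I, T.Nonempty → (∀ l ∈ T, (A.mulVec y) l = 0) →
      ∃ l ∈ T, ∃ j, j ∉ T ∧ A l j ≠ 0 := by
    intro T hT hT0
    have hTZ : T ⊆ Z := by
      intro l hl
      by_contra h
      have h1 := hT0 l hl
      rw [hAv1 y l h] at h1
      exact absurd h1 (hypos l).ne'
    obtain ⟨i, hi, j, hj, hij⟩ := hc T hT (fun h => hrZ (hTZ (h ▸ Finset.mem_univ r)))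
    refine ⟨i, hi, j, hj, ?_⟩
    by_cases hjZ : j ∈ Z
    · have hne : i ≠ j := by
        rintro rfl
        exact hj hi
      rw [hAap, if_pos ⟨hTZ hi, hjZ⟩, cart_ne a hne]
      push_cast
      have : (0 : ℚ) < (a i j : ℚ) := by exact_mod_cast hij
      linarith
    · exfalso
      have h1 := hT0 i hi
      rw [hAy i (hTZ hi)] at h1
      have h2 : (a i j : ℚ) * (α j : ℚ) ≤ ∑ j ∈ Finset.univ \ Z, (a i j : ℚ) * (α j : ℚ) :=
        Finset.single_le_sum (f := fun j => (a i j : ℚ) * (α j : ℚ)) (fun j _ => by positivity)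
          (Finset.mem_sdiff.2 ⟨Finset.mem_univ j, hjZ⟩)
      have h3 : (0 : ℚ) < (a i j : ℚ) := by exact_mod_cast hij
      have h4 : (0 : ℚ) < (α j : ℚ) := by
        have := hα.supp j
        exact_mod_cast this
      have h5 := mul_pos h3 h4
      linarith
  have hdet : 0 < A.det := mm_det_pos A hAZ y hypos hAynn htr
  set b : I → ℚ := fun j => if j ∈ Z then 1 else 0 with hb
  set u : I → ℚ := A⁻¹.mulVec b with hu
  have hAu : A.mulVec u = b := by
    rw [hu, Matrix.mulVec_mulVec, Matrix.mul_nonsing_inv A (Ne.isUnit hdet.ne'), Matrix.one_mulVec]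
  have hbnn : ∀ i, 0 ≤ b i := by
    intro i
    simp only [hb]
    split_ifs
    · exact zero_le_one
    · exact le_rfl
  have hunn : ∀ i, 0 ≤ u i := mm_comp A hAZ y hypos hAynn htr u (fun i => by
    rw [hAu]
    exact hbnn i)
  have hu0 : ∀ x, x ∉ Z → u x = 0 := by
    intro x hx
    rw [← hAv1 u x hx, hAu]
    simp only [hb]
    rw [if_neg hx]
  have hcu : ∀ x ∈ Z, cv a u x = 1 := by
    intro x hx
    have h1 := hAv2 u x hx
    rw [hAu] at h1
    have h2 : (fun j => if j ∈ Z then u j else 0) = u := by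
      funext j
      split_ifs with h
      · rfl
      · exact (hu0 j h).symm
    rw [h2] at h1
    rw [← h1]
    simp only [hb]
    rw [if_pos hx]
  refine ⟨fun x hx => ((E6_mem a α x).1 hx).1, u, ?_, hu0, ?_⟩
  · intro x hx
    exact sol_pos_of a u hunn x (by rw [hcu x hx]; exact one_pos)
  · intro x hx
    rw [hcu x hx]
    exact one_pos

/-- the matrix of the top states. -/
def topH (a : I → I → ℕ) (α : I →₀ ℕ) (ε : ℚ) (l i : I) : ℚ :=
  if l = i ∧ ¬ (a i i = 0 ∧ cw a α i = 0) then 1 - ε * (if cw a α i = 0 then 0 else 1) else 0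

theorem top_fresh (a : I → I → ℕ) (hs : ∀ i j, a i j = a j i) (hc : Conn a)
    (cn : Finset I → (I → ℚ) → ℕ → ℚ) (α : I →₀ ℕ) (hα : Amp a α) (K : ℕ) (ε : ℚ) (h0 : 0 ≤ ε)
    (h1 : ε ≤ 1) :
    Fresh a cn (K + 1) (fun i => (α i : ℚ)) (fun i => -((cw a α i : ℤ) : ℚ))
      (fun i => -((cw a α i : ℤ) : ℚ)) (topH a α ε) (Zt a α) (fun _ => 0) (fun _ _ => 1) := by
  have hz : ∀ x ∈ Zt a α, -((cw a α x : ℤ) : ℚ) = 0 := by
    intro x hx
    rw [((E6_mem a α x).1 hx).2]
    simp
  have hnn : ∀ i, (0 : ℚ) ≤ -((cw a α i : ℤ) : ℚ) := by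
    intro i
    have := E6_pos a hα i
    exact_mod_cast this
  have hμ : ∀ i, 0 ≤ 1 - ε * (if cw a α i = 0 then (0 : ℚ) else 1) := by
    intro i
    split_ifs <;> linarith
  have hμ1 : ∀ i, 1 - ε * (if cw a α i = 0 then (0 : ℚ) else 1) ≤ 1 := by
    intro i
    split_ifs <;> linarith
  refine
    { ft := FT_Zt a hs hc α hα
      P0 := hz
      p0 := hz
      q0 := fun _ _ => rfl
      cons := ?_
      int := ?_
      gint := fun i _ => ⟨(α i : ℤ), by push_cast; rfl⟩
      adm := ?_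
      H0 := ?_
      Hnn := ?_
      Ppos := ?_
      pnn := hnn
      dnn := ?_
      gnn := fun i => Nat.cast_nonneg _ }
  · intro i
    rw [E6_cv_cw]
    push_cast
    ring
  · intro i
    refine ⟨0, ?_⟩
    rw [cv_zero]
    simp
  · intro N _
    exact Or.inr ⟨fun _ _ => rfl, fun _ _ => rfl, fun x _ => ⟨(α x : ℤ), by push_cast; rfl⟩⟩
  · intro l i hli
    unfold topH
    rw [if_neg]
    rintro ⟨h2, h3⟩
    rcases hli with h | h
    · rw [h2] at h
      exact h3 ((E6_mem a α i).1 h)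
    · exact h3 ((E6_mem a α i).1 h)
  · intro l i
    unfold topH
    split_ifs with h2 h3
    · simp
    · linarith
    · exact le_rfl
  · intro i hi
    have := E6_pos' a hα i hi
    exact_mod_cast this
  · intro l
    rw [Finset.sum_eq_single l]
    · unfold topH
      split_ifs with h2 h3
      · simp
      · have := hnn l
        nlinarith
      · rw [zero_mul]
        exact hnn l
    · intro i _ hi
      unfold topH
      rw [if_neg (fun h => hi h.1.symm), zero_mul]
    · intro h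
      exact absurd (Finset.mem_univ l) h

/-- the value of the top state. -/
theorem top_val (a : I → I → ℕ) {cn : Finset I → (I → ℚ) → ℕ → ℚ}
    {G : ℕ → (I → ℚ) → (I → ℚ) → (I → ℚ) → (I → I → ℚ) → (I → I → ℚ) → Finset I → (I → ℚ) →
      (Finset I → ℕ → ℚ) → ℚ} (hG : ClusterVal a cn G) (α : I →₀ ℕ) (hFT : FT a (Zt a α)) (K : ℕ)
    (ε : ℚ) :
    Val a α (topS a α K ε) = G (K + 1) (fun i => (α i : ℚ)) (fun i => -((cw a α i : ℤ) : ℚ))
      (fun i => -((cw a α i : ℤ) : ℚ)) idm (topH a α ε) (Zt a α) (fun _ => 0) (fun _ _ => 1) :=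
  hG.top α K (fun i => if cw a α i = 0 then 0 else 1) ε hFT (fun i _ h => by
    show (if cw a α i = 0 then (0 : ℚ) else 1) = 0
    rw [if_pos h])

theorem f_nonneg_amp (a : I → I → ℕ) (hs : ∀ i j, a i j = a j i) (hd : ∀ i, a i i ≠ 1)
    (hc : Conn a) {cn : Finset I → (I → ℚ) → ℕ → ℚ} (hcn : CN a cn)
    {G : ℕ → (I → ℚ) → (I → ℚ) → (I → ℚ) → (I → I → ℚ) → (I → I → ℚ) → Finset I → (I → ℚ) →
      (Finset I → ℕ → ℚ) → ℚ} (hG : ClusterVal a cn G)
    (f : (I → ℕ) → ℚ) (hK : KacData a f) (α : I →₀ ℕ) (hα : Amp a α) : 0 ≤ f α := by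
  obtain ⟨r, hr⟩ := hα.ex
  have hα0 : α ≠ 0 := by
    intro h
    have h1 := hα.supp r
    rw [h] at h1
    simp at h1
  obtain ⟨q, hq, hq0, hq1⟩ := top_poly a hs f hK α hα0 (tdeg α) le_rfl
    (fun i => if cw a α i = 0 then 0 else 1)
  have hlow : ∀ ε : ℚ, 0 < ε → ε < 1 → 0 * ε ≤ q.eval ε := by
    intro ε h0 h1
    rw [zero_mul, ← hq ε]
    have h2 := top_val a hG α (FT_Zt a hs hc α hα) (tdeg α) ε
    have h3 := pos a hs hd hcn hG (tdeg α + 1) (by omega) _ _ _ _ _ _ _
      (top_fresh a hs hc cn α hα (tdeg α) ε h0.le h1.le)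
    rw [← h2] at h3
    exact h3
  have h4 := kl6_limit q 0 hq0 hlow
  rw [hq1] at h4
  have h5 : 0 < ∑ i, (fun i => if cw a α i = 0 then (0 : ℚ) else 1) i * (α i : ℚ) *
      (-(cw a α i : ℤ) : ℚ) := by
    refine Finset.sum_pos' ?_ ⟨r, Finset.mem_univ r, ?_⟩
    · intro i _
      have h6 : (0 : ℚ) ≤ (-(cw a α i : ℤ) : ℚ) := by
        have := E6_pos a hα i
        exact_mod_cast this
      have h7 : (0 : ℚ) ≤ (fun i => if cw a α i = 0 then (0 : ℚ) else 1) i := by
        show (0 : ℚ) ≤ if cw a α i = 0 then (0 : ℚ) else 1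
        split_ifs
        · exact le_rfl
        · exact zero_le_one
      positivity
    · have h6 : (0 : ℚ) < (-(cw a α r : ℤ) : ℚ) := by exact_mod_cast hr
      have h7 : (fun i => if cw a α i = 0 then (0 : ℚ) else 1) r = 1 := by
        show (if cw a α r = 0 then (0 : ℚ) else 1) = 1
        rw [if_neg (by omega)]
      have h8 : (0 : ℚ) < (α r : ℚ) := by
        have := hα.supp r
        exact_mod_cast this
      rw [h7]
      positivity
  by_contra h
  push Not at h
  have := mul_neg_of_neg_of_pos h h5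
  linarith

end Pool.Agent.H40.KADE

end

section

/-!
KAC ADE engine, module E7: one step of the lower bound.

`A = blk W' (stM … (1-δ)H …)`, `y = yv …`, `A y = P' + d` off `W'` (`st_Ay`), `H' = stH …`, `N y = P` (for `l ∉ W`: `scl_l y_l = P_l`).
* `st_fresh`: `crX W' P' = ∅` because `P' > 0` off `W'`; `st_pre`.
* `st_dr`: `P_r = ∑_i H'_{ri} (P'_i + d_i)` (from `H' A = N`), so `P_r - ∑ H'_{ri} P'_i = ∑_i H'_{ri} d_i ≥ H'_{rr} d_r = scl_r (A⁻¹)_{rr} d_r`; and
  `det A (A⁻¹)_{rr} ≥ ∏_{l ≠ r} (P'_l / y_l)` by `mm_minor`.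
-/

set_option autoImplicit false

namespace Pool.Agent.H40.KADE

open scoped BigOperators
open Matrix Pool.Agent.H27.KAC

variable {I : Type} [Fintype I] [DecidableEq I]

theorem E7_fact (P k : ℕ) :
    ((P + k).factorial : ℚ) = P.factorial * ∏ i ∈ Finset.range k, ((P : ℚ) + i + 1) := by
  induction k with
  | zero => simp
  | succ k ih =>
    rw [Finset.prod_range_succ, ← mul_assoc, ← ih, ← add_assoc, Nat.factorial_succ]
    push_cast
    ring

theorem wt_eq (P m : ℕ) (hP : 1 ≤ P) :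
    wt P m = wtq (P : ℚ) m / (if m = 0 then (P : ℚ) else 1) := by
  have hPf : (P.factorial : ℚ) ≠ 0 := by exact_mod_cast P.factorial_ne_zero
  rcases Nat.eq_zero_or_pos m with rfl | hm
  · obtain ⟨P, rfl⟩ : ∃ P', P = P' + 1 := ⟨P - 1, by omega⟩
    have h1 : (((P + 1 : ℕ)) : ℚ) ≠ 0 := by exact_mod_cast P.succ_ne_zero
    have h2 : (P.factorial : ℚ) ≠ 0 := by exact_mod_cast P.factorial_ne_zero
    simp only [wt, wtq, if_true, Nat.add_zero, Nat.add_sub_cancel, Nat.factorial_zero, Nat.zero_sub,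
      Finset.range_zero, Finset.prod_empty, Nat.cast_one, div_one, mul_one]
    rw [Nat.factorial_succ]
    push_cast at h1 ⊢
    field_simp
  · obtain ⟨m, rfl⟩ : ∃ m', m = m' + 1 := ⟨m - 1, by omega⟩
    have h1 : ((m + 1).factorial : ℚ) ≠ 0 := by exact_mod_cast (m + 1).factorial_ne_zero
    rw [if_neg (Nat.succ_ne_zero m), div_one]
    simp only [wt, wtq]
    rw [show P + (m + 1) - 1 = P + m by omega, show m + 1 - 1 = m by omega, E7_fact]
    field_simp

theorem E7_mpos (a : I → I → ℕ) {cn : Finset I → (I → ℚ) → ℕ → ℚ}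
    {k : ℕ} {γ P p : I → ℚ} {H : I → I → ℚ} {W : Finset I} {q : I → ℚ}
    {w : Finset I → ℕ → ℚ} (h : Fresh a cn (k + 1) γ P p H W q w) {S : Finset I} (hS : S ⊆ W)
    {m : I → ℚ} (hpos : ∀ i, i ∉ W \ S → 0 < stP a P p m i) (s : I) (hs : s ∈ S) :
    0 < cv a m s := by
  have h1 := hpos s (by simp [hs])
  unfold stP at h1
  rw [h.P0 s (hS hs), h.p0 s (hS hs)] at h1
  linarith

theorem E7_P0 (a : I → I → ℕ) {cn : Finset I → (I → ℚ) → ℕ → ℚ}
    {k : ℕ} {γ P p : I → ℚ} {H : I → I → ℚ} {W : Finset I} {q : I → ℚ}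
    {w : Finset I → ℕ → ℚ} (h : Fresh a cn (k + 1) γ P p H W q w) (S : Finset I) (n : I → ℤ)
    (i : I) (hi : i ∈ W \ S) : stP a P p (mhat a (W \ S) q n) i = 0 := by
  have h1 : i ∈ W := (Finset.mem_sdiff.1 hi).1
  unfold stP
  rw [h.P0 i h1, h.p0 i h1, mhat_cv a (FT_mono a h.ft Finset.sdiff_subset) q n i hi]
  ring

theorem st_fresh (a : I → I → ℕ) (hs : ∀ i j, a i j = a j i) (hd : ∀ i, a i i ≠ 1)
    {cn : Finset I → (I → ℚ) → ℕ → ℚ} (hcn : CN a cn)
    {k : ℕ} (hk : 2 ≤ k) {γ P p : I → ℚ} {H : I → I → ℚ} {W : Finset I} {q : I → ℚ}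
    {w : Finset I → ℕ → ℚ} (h : Fresh a cn (k + 1) γ P p H W q w) {S : Finset I} (hS : S ⊆ W)
    {n : I → ℤ} (hn : n ∈ boxS (W \ S) k γ q)
    (hpos : ∀ i, i ∉ W \ S → 0 < stP a P p (mhat a (W \ S) q n) i)
    (htw : tw a W w k (mhat a (W \ S) q n) ≠ 0) {δ : ℚ} (hδ0 : 0 < δ) (hδ1 : δ ≤ 1) :
    0 < (blk (W \ S) (stM a W (W \ S) P (fun l i => (1 - δ) * H l i)
      (mhat a (W \ S) q n))).det ∧
    Fresh a cn k (stG k γ (mhat a (W \ S) q n)) (stP a P p (mhat a (W \ S) q n)) P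
      (stH a W (W \ S) P (fun l i => (1 - δ) * H l i) (mhat a (W \ S) q n)) (W \ S)
      (stQ (W \ S) q (mhat a (W \ S) q n))
      (neww cn w k (stQ (W \ S) q (mhat a (W \ S) q n)) (mhat a (W \ S) q n)) := by
  have hposS : ∀ s ∈ S, 0 < cv a (mhat a (W \ S) q n) s := E7_mpos a h hS hpos
  have hP' : ∀ i, a i i = 0 → 0 ≤ stP a P p (mhat a (W \ S) q n) i := by
    intro i _
    by_cases hi : i ∈ W \ S
    · rw [E7_P0 a h S n i hi]
    · exact (hpos i hi).le
  have hX : crX (W \ S) (stP a P p (mhat a (W \ S) q n)) = ∅ := by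
    unfold crX
    rw [Finset.filter_eq_empty_iff]
    rintro i - ⟨h1, h2⟩
    have := hpos i h1
    rw [h2] at this
    exact lt_irrefl _ this
  have hFT : FT a ((W \ S) ∪ crX (W \ S) (stP a P p (mhat a (W \ S) q n))) := by
    rw [hX, Finset.union_empty]
    exact FT_mono a h.ft Finset.sdiff_subset
  obtain ⟨hdet, hpre⟩ := st_pre a hs hd hcn hk h hS hn hposS htw hP' hFT hδ0 hδ1
  exact ⟨hdet, { hpre.toGS with
    H0 := hpre.H0
    Hnn := hpre.Hnn
    Ppos := hpos
    pnn := hpre.pnn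
    dnn := hpre.dnn
    gnn := hpre.gnn }⟩

/-- the facts about the matrix of one step. -/
theorem E7_mat (a : I → I → ℕ) {cn : Finset I → (I → ℚ) → ℕ → ℚ}
    {k : ℕ} (hk : 1 ≤ k) {γ P p : I → ℚ} {H : I → I → ℚ} {W : Finset I} {q : I → ℚ}
    {w : Finset I → ℕ → ℚ} (h : Fresh a cn (k + 1) γ P p H W q w) {S : Finset I} (hS : S ⊆ W)
    {n : I → ℤ} (hn : n ∈ boxS (W \ S) k γ q)
    (hposS : ∀ s ∈ S, 0 < cv a (mhat a (W \ S) q n) s) {δ : ℚ} (hδ1 : δ ≤ 1) :
    (∀ i j, i ≠ j → blk (W \ S) (stM a W (W \ S) P (fun l i => (1 - δ) * H l i)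
      (mhat a (W \ S) q n)) i j ≤ 0) ∧
    (∀ i, 0 < yv W (W \ S) P (mhat a (W \ S) q n) i) ∧
    ∀ l, (blk (W \ S) (stM a W (W \ S) P (fun l i => (1 - δ) * H l i)
      (mhat a (W \ S) q n)) *ᵥ yv W (W \ S) P (mhat a (W \ S) q n)) l =
      if l ∈ W \ S then 1 else stP a P p (mhat a (W \ S) q n) l +
        (p l - ∑ i, (1 - δ) * H l i * P i) := by
  have hFT : FT a (W \ S) := FT_mono a h.ft Finset.sdiff_subset
  have hmnn : ∀ i, 0 ≤ mhat a (W \ S) q n i := mhat_nonneg a hFT hk hn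
  have hH0 : ∀ l i, l ∈ W ∨ i ∈ W → (1 - δ) * H l i = 0 := by
    intro l i hli
    rw [h.H0 l i hli, mul_zero]
  have hH : ∀ l i, 0 ≤ (1 - δ) * H l i := fun l i => mul_nonneg (by linarith) (h.Hnn l i)
  refine ⟨?_, ?_, ?_⟩
  · exact st_Z a Finset.sdiff_subset hFT h.Ppos hH0 hH hmnn
  · apply st_yv_pos h.Ppos
    intro s hs hs'
    have : s ∈ S := by
      by_contra hc
      exact hs' (Finset.mem_sdiff.2 ⟨hs, hc⟩)
    exact sol_pos_of a _ hmnn s (hposS s this)
  · intro l
    exact st_Ay a Finset.sdiff_subset hFT h.P0 hH0 (m0 := fun i => (n i : ℚ) - q i) rfl l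

theorem E7_col (W' : Finset I) (M : I → I → ℚ) (hdet : (blk W' M).det ≠ 0) (r i : I)
    (hi : i ∈ W') (hri : r ≠ i) : (blk W' M)⁻¹ r i = 0 := by
  have hu : IsUnit (blk W' M).det := isUnit_iff_ne_zero.2 hdet
  have h1 : blk W' M *ᵥ Pi.single i (1 : ℚ) = Pi.single i 1 := by
    ext l
    rw [Matrix.mulVec_single_one]
    simp only [Matrix.col_apply, blk, Matrix.of_apply, hi, or_true, if_true, Pi.single_apply]
  have h2 : (blk W' M)⁻¹ *ᵥ (blk W' M *ᵥ Pi.single i (1 : ℚ)) = Pi.single i 1 := by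
    rw [Matrix.mulVec_mulVec, Matrix.nonsing_inv_mul _ hu, Matrix.one_mulVec]
  rw [h1, Matrix.mulVec_single_one] at h2
  have h3 := congrFun h2 r
  simp only [Matrix.col_apply, Pi.single_apply, if_neg hri] at h3
  exact h3

theorem E7_dle {a : I → I → ℕ} {cn : Finset I → (I → ℚ) → ℕ → ℚ}
    {k : ℕ} {γ P p : I → ℚ} {H : I → I → ℚ} {W : Finset I} {q : I → ℚ}
    {w : Finset I → ℕ → ℚ} (h : Fresh a cn k γ P p H W q w) {δ : ℚ} (hδ0 : 0 ≤ δ) (l : I) :
    0 ≤ p l - ∑ i, H l i * P i ∧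
      p l - ∑ i, H l i * P i ≤ p l - ∑ i, (1 - δ) * H l i * P i := by
  have hPnn : ∀ i, 0 ≤ P i := by
    intro i
    by_cases hi : i ∈ W
    · rw [h.P0 i hi]
    · exact (h.Ppos i hi).le
  have h1 : 0 ≤ ∑ i, H l i * P i :=
    Finset.sum_nonneg fun i _ => mul_nonneg (h.Hnn l i) (hPnn i)
  have h2 : ∑ i, (1 - δ) * H l i * P i = (1 - δ) * ∑ i, H l i * P i := by
    rw [Finset.mul_sum]
    exact Finset.sum_congr rfl fun i _ => by ring
  refine ⟨by have := h.dnn l; linarith, ?_⟩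
  rw [h2]
  nlinarith

theorem st_dr (a : I → I → ℕ) (hs : ∀ i j, a i j = a j i) (hd : ∀ i, a i i ≠ 1)
    {cn : Finset I → (I → ℚ) → ℕ → ℚ} (hcn : CN a cn)
    {k : ℕ} (hk : 2 ≤ k) {γ P p : I → ℚ} {H : I → I → ℚ} {W : Finset I} {q : I → ℚ}
    {w : Finset I → ℕ → ℚ} (h : Fresh a cn (k + 1) γ P p H W q w) {S : Finset I} (hS : S ⊆ W)
    {n : I → ℤ} (hn : n ∈ boxS (W \ S) k γ q)
    (hpos : ∀ i, i ∉ W \ S → 0 < stP a P p (mhat a (W \ S) q n) i)
    {δ : ℚ} (hδ0 : 0 < δ) (hδ1 : δ ≤ 1) (r : I) (hr : r ∉ W) :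
    sclq (P r) (mhat a (W \ S) q n r) *
      (∏ l ∈ Finset.univ.erase r, (if l ∈ W \ S then 1 else
        stP a P p (mhat a (W \ S) q n) l / yv W (W \ S) P (mhat a (W \ S) q n) l)) *
      (p r - ∑ i, H r i * P i) ≤
    (blk (W \ S) (stM a W (W \ S) P (fun l i => (1 - δ) * H l i) (mhat a (W \ S) q n))).det *
      (P r - ∑ i, stH a W (W \ S) P (fun l i => (1 - δ) * H l i) (mhat a (W \ S) q n) r i *
        stP a P p (mhat a (W \ S) q n) i) := by
  have hposS : ∀ s ∈ S, 0 < cv a (mhat a (W \ S) q n) s := E7_mpos a h hS hpos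
  obtain ⟨hZ, hy, hAy⟩ := E7_mat a (by omega : 1 ≤ k) h hS hn hposS hδ1
  have hd0 := fun l => E7_dle h hδ0.le l
  have hP0 := E7_P0 a h S n
  generalize hm : mhat a (W \ S) q n = m at *
  generalize hA : blk (W \ S) (stM a W (W \ S) P (fun l i => (1 - δ) * H l i) m) = A at *
  have hrW' : r ∉ W \ S := fun hc => hr (Finset.mem_sdiff.1 hc).1
  set rr : I → ℚ := fun l => if l ∈ W \ S then 1 else stP a P p m l with hrr
  have hrr0 : ∀ l, 0 < rr l := by
    intro l
    simp only [hrr]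
    split_ifs with hl
    · norm_num
    · exact hpos l hl
  have hrle : ∀ l, rr l ≤ (A *ᵥ yv W (W \ S) P m) l := by
    intro l
    rw [hAy l]
    simp only [hrr]
    split_ifs with hl
    · exact le_rfl
    · have := (hd0 l).1
      have := (hd0 l).2
      linarith
  have hAypos : ∀ l, 0 < (A *ᵥ yv W (W \ S) P m) l := fun l => (hrr0 l).trans_le (hrle l)
  have htr : ∀ T : Finset I, T.Nonempty → (∀ l ∈ T, (A *ᵥ yv W (W \ S) P m) l = 0) →
      ∃ l ∈ T, ∃ j, j ∉ T ∧ A l j ≠ 0 := by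
    rintro T ⟨l, hl⟩ hT
    exact absurd (hT l hl) (hAypos l).ne'
  have hdet : 0 < A.det := mm_det_pos A hZ _ hy (fun l => (hAypos l).le) htr
  have hinv : ∀ i j, 0 ≤ A⁻¹ i j := mm_inv_nonneg A hZ _ hy (fun l => (hAypos l).le) htr
  have hminor := mm_minor A hZ _ rr hy (fun l => (hrr0 l).le) hrle hdet.ne' r
  have hsclpos : 0 < sclq (P r) (m r) := by
    unfold sclq
    split_ifs
    · norm_num
    · exact h.Ppos r hr
  -- the product
  have hprod : ∏ l ∈ Finset.univ.erase r, (if l ∈ W \ S then 1 else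
      stP a P p m l / yv W (W \ S) P m l) =
      ∏ l ∈ Finset.univ.erase r, (rr l / yv W (W \ S) P m l) := by
    apply Finset.prod_congr rfl
    intro l _
    simp only [hrr]
    split_ifs with hl
    · have : yv W (W \ S) P m l = 1 := by
        unfold yv
        rw [if_pos hl]
      rw [this, div_one]
    · rfl
  -- y_r = sum
  have hyr : yv W (W \ S) P m r =
      ∑ i ∈ Finset.univ \ (W \ S), A⁻¹ r i * (stP a P p m i + (p i - ∑ j, (1 - δ) * H i j * P j)) := by
    have hu : IsUnit A.det := isUnit_iff_ne_zero.2 hdet.ne'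
    have h1 : A⁻¹ *ᵥ (A *ᵥ yv W (W \ S) P m) = yv W (W \ S) P m := by
      rw [Matrix.mulVec_mulVec, Matrix.nonsing_inv_mul _ hu, Matrix.one_mulVec]
    have h2 := congrFun h1 r
    rw [← h2]
    simp only [Matrix.mulVec, dotProduct]
    rw [← Finset.sum_sdiff (Finset.subset_univ (W \ S))]
    have h3 : ∑ x ∈ W \ S, A⁻¹ r x * ∑ x_1, A x x_1 * yv W (W \ S) P m x_1 = 0 := by
      apply Finset.sum_eq_zero
      intro i hi
      have : A⁻¹ r i = 0 := by
        rw [← hA]
        apply E7_col _ _ (by rw [hA]; exact hdet.ne') r i hi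
        rintro rfl
        exact hrW' hi
      rw [this, zero_mul]
    rw [h3, add_zero]
    apply Finset.sum_congr rfl
    intro i hi
    have hi' : i ∉ W \ S := (Finset.mem_sdiff.1 hi).2
    have h4 := hAy i
    rw [if_neg hi'] at h4
    rw [← h4]
    rfl
  have hsclr : sclq (P r) (m r) * yv W (W \ S) P m r = P r := by
    unfold sclq yv
    rw [if_neg hrW', if_neg hr]
    split_ifs <;> ring
  -- the sum with `stH`
  have hsum : ∑ i, stH a W (W \ S) P (fun l i => (1 - δ) * H l i) m r i * stP a P p m i =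
      sclq (P r) (m r) * ∑ i ∈ Finset.univ \ (W \ S), A⁻¹ r i * stP a P p m i := by
    rw [← Finset.sum_sdiff (Finset.subset_univ (W \ S))]
    have h3 : ∑ x ∈ W \ S, stH a W (W \ S) P (fun l i => (1 - δ) * H l i) m r x *
        stP a P p m x = 0 := by
      apply Finset.sum_eq_zero
      intro i hi
      rw [hP0 i hi, mul_zero]
    rw [h3, add_zero, Finset.mul_sum]
    apply Finset.sum_congr rfl
    intro i hi
    have hi' : i ∉ W \ S := (Finset.mem_sdiff.1 hi).2
    unfold stH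
    rw [if_neg (not_or.2 ⟨hr, hi'⟩), hA]
    ring
  have hdiff : P r - ∑ i, stH a W (W \ S) P (fun l i => (1 - δ) * H l i) m r i * stP a P p m i =
      sclq (P r) (m r) * ∑ i ∈ Finset.univ \ (W \ S),
        A⁻¹ r i * (p i - ∑ j, (1 - δ) * H i j * P j) := by
    rw [hsum]
    nth_rewrite 1 [← hsclr]
    rw [hyr, ← mul_sub, ← Finset.sum_sub_distrib]
    congr 1
    apply Finset.sum_congr rfl
    intro i _
    ring
  have hge : A⁻¹ r r * (p r - ∑ i, H r i * P i) ≤ ∑ i ∈ Finset.univ \ (W \ S),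
        A⁻¹ r i * (p i - ∑ j, (1 - δ) * H i j * P j) := by
    calc A⁻¹ r r * (p r - ∑ i, H r i * P i)
        ≤ A⁻¹ r r * (p r - ∑ j, (1 - δ) * H r j * P j) :=
          mul_le_mul_of_nonneg_left (hd0 r).2 (hinv r r)
      _ ≤ _ := by
          refine Finset.single_le_sum (f := fun i => A⁻¹ r i *
            (p i - ∑ j, (1 - δ) * H i j * P j)) ?_ (by simp [hrW'])
          intro i _
          exact mul_nonneg (hinv r i) ((hd0 i).1.trans (hd0 i).2)
  rw [hprod, hdiff]
  calc sclq (P r) (m r) * (∏ l ∈ Finset.univ.erase r, (rr l / yv W (W \ S) P m l)) *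
        (p r - ∑ i, H r i * P i)
      ≤ sclq (P r) (m r) * (A.det * A⁻¹ r r) * (p r - ∑ i, H r i * P i) := by
        refine mul_le_mul_of_nonneg_right ?_ (hd0 r).1
        exact mul_le_mul_of_nonneg_left hminor hsclpos.le
    _ = A.det * (sclq (P r) (m r) * (A⁻¹ r r * (p r - ∑ i, H r i * P i))) := by ring
    _ ≤ A.det * (sclq (P r) (m r) * ∑ i ∈ Finset.univ \ (W \ S),
        A⁻¹ r i * (p i - ∑ j, (1 - δ) * H i j * P j)) := by
        refine mul_le_mul_of_nonneg_left ?_ hdet.le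
        exact mul_le_mul_of_nonneg_left hge hsclpos.le

theorem E7_wtq_nonneg {P : ℚ} (hP : 0 ≤ P) (m : ℕ) : 0 ≤ wtq P m := by
  unfold wtq
  apply div_nonneg
  · exact Finset.prod_nonneg fun i _ => by positivity
  · positivity

theorem E7_stw_nonneg {W : Finset I} {P : I → ℚ} (hP : ∀ i, i ∉ W → 0 < P i) (n : I → ℤ) :
    0 ≤ stw W P n := by
  unfold stw
  refine Finset.prod_nonneg fun j hj => E7_wtq_nonneg (hP j ?_).le _
  exact (Finset.mem_sdiff.1 hj).2

/-- one step of the lower bound: if the values of the fresh states at the frontier `(k | k-1)` with the new data are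
bounded below by `c d_r` then so is the value at `(k+1 | k)`. -/
theorem step_lb (a : I → I → ℕ) (hs : ∀ i j, a i j = a j i) (hd : ∀ i, a i i ≠ 1)
    {cn : Finset I → (I → ℚ) → ℕ → ℚ} (hcn : CN a cn)
    {G : ℕ → (I → ℚ) → (I → ℚ) → (I → ℚ) → (I → I → ℚ) → (I → I → ℚ) → Finset I → (I → ℚ) →
      (Finset I → ℕ → ℚ) → ℚ} (hG : ClusterVal a cn G)
    {k : ℕ} (hk : 2 ≤ k) {γ P p : I → ℚ} {H : I → I → ℚ} {W : Finset I} {q : I → ℚ}
    {w : Finset I → ℕ → ℚ} (h : Fresh a cn (k + 1) γ P p H W q w) {S : Finset I} (hS : S ⊆ W)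
    {n : I → ℤ} (hn : n ∈ boxS (W \ S) k γ q)
    (hpos : ∀ i, i ∉ W \ S → 0 < stP a P p (mhat a (W \ S) q n) i)
    (htw : tw a W w k (mhat a (W \ S) q n) = 1) (r : I) (hr : r ∉ W) (c : ℚ) (hc : 0 ≤ c)
    (ih : ∀ H' : I → I → ℚ,
      Fresh a cn k (stG k γ (mhat a (W \ S) q n)) (stP a P p (mhat a (W \ S) q n)) P H' (W \ S)
        (stQ (W \ S) q (mhat a (W \ S) q n))
        (neww cn w k (stQ (W \ S) q (mhat a (W \ S) q n)) (mhat a (W \ S) q n)) →
      c * (P r - ∑ i, H' r i * stP a P p (mhat a (W \ S) q n) i) ≤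
      G k (stG k γ (mhat a (W \ S) q n)) (stP a P p (mhat a (W \ S) q n)) P idm H' (W \ S)
        (stQ (W \ S) q (mhat a (W \ S) q n))
        (neww cn w k (stQ (W \ S) q (mhat a (W \ S) q n)) (mhat a (W \ S) q n))) :
    stw W P n * c * (sclq (P r) (mhat a (W \ S) q n r) *
      (∏ l ∈ Finset.univ.erase r, (if l ∈ W \ S then 1 else
        stP a P p (mhat a (W \ S) q n) l / yv W (W \ S) P (mhat a (W \ S) q n) l))) *
      (p r - ∑ i, H r i * P i) ≤ G (k + 1) γ P p idm H W q w := by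
  have hposS : ∀ s ∈ S, 0 < cv a (mhat a (W \ S) q n) s := E7_mpos a h hS hpos
  obtain ⟨f, hf⟩ := hG.poly (k + 1) γ P p H W q w
  have h0 : G (k + 1) γ P p idm H W q w = f.eval 0 := by
    rw [← hf 0]
    congr 1
    funext l i
    ring
  rw [h0]
  apply lim_le
  intro δ hδ0 hδ1
  rw [← hf δ]
  have htw0 : tw a W w k (mhat a (W \ S) q n) ≠ 0 := by
    rw [htw]
    exact one_ne_zero
  obtain ⟨hdet, hfr⟩ := st_fresh a hs hd hcn hk h hS hn hpos htw0 hδ0 hδ1.le
  refine le_trans ?_ (term_le a hs hd hcn hG (by omega) h hS hn hposS hδ0 hδ1.le)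
  unfold term
  rw [htw, mul_one, hG.norm k _ _ P _ _ (stH a W (W \ S) P (fun l i => (1 - δ) * H l i)
    (mhat a (W \ S) q n)) (W \ S) _ _ (fun l i hl hi => st_norm a Finset.sdiff_subset P _ _
      hdet.ne' l i hl hi)]
  have h1 := ih _ hfr
  have h2 := st_dr a hs hd hcn hk h hS hn hpos hδ0 hδ1.le r hr
  have h3 := E7_stw_nonneg h.Ppos n
  rw [mul_assoc, mul_assoc, mul_assoc]
  refine mul_le_mul_of_nonneg_left ?_ h3
  refine le_trans ?_ (mul_le_mul_of_nonneg_left h1 hdet.le)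
  have h4 := mul_le_mul_of_nonneg_left h2 hc
  refine le_trans (le_of_eq ?_) (h4.trans (le_of_eq ?_))
  · ring
  · ring

/-- the set of the vertices at distance at most `k` from `r`. -/
noncomputable def E7_reach (a : I → I → ℕ) (r : I) : ℕ → Finset I
  | 0 => {r}
  | k + 1 => Finset.univ.filter (fun j => j ∈ E7_reach a r k ∨ ∃ i ∈ E7_reach a r k, 0 < a j i)

theorem E7_tree (a : I → I → ℕ) (hs : ∀ i j, a i j = a j i) (hc : Conn a) (r : I) :
    ∃ (dep : I → ℕ) (par : I → I), (∀ i, i ≠ r → dep (par i) < dep i) ∧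
      ∀ i, i ≠ r → 0 < a i (par i) := by
  classical
  have hall : ∀ i, ∃ k, i ∈ E7_reach a r k := by
    by_contra hcon
    push Not at hcon
    obtain ⟨i0, hi0⟩ := hcon
    set S : Finset I := Finset.univ.filter (fun i => ∃ k, i ∈ E7_reach a r k) with hS
    have hne : S.Nonempty := ⟨r, by simp only [hS, Finset.mem_filter, Finset.mem_univ, true_and]; exact ⟨0, by simp [E7_reach]⟩⟩
    have hnu : S ≠ Finset.univ := by
      intro hu
      have : i0 ∈ S := by rw [hu]; exact Finset.mem_univ _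
      simp only [hS, Finset.mem_filter, Finset.mem_univ, true_and] at this
      obtain ⟨k, hk⟩ := this
      exact hi0 k hk
    obtain ⟨i, hi, j, hj, hij⟩ := hc S hne hnu
    simp only [hS, Finset.mem_filter, Finset.mem_univ, true_and] at hi hj
    obtain ⟨k, hk⟩ := hi
    apply hj
    refine ⟨k + 1, ?_⟩
    simp only [E7_reach, Finset.mem_filter, Finset.mem_univ, true_and]
    exact Or.inr ⟨i, hk, by rw [hs]; exact hij⟩
  have hstep : ∀ i, i ≠ r → ∃ j, Nat.find (hall j) < Nat.find (hall i) ∧ 0 < a i j := by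
    intro i hi
    have h1 := Nat.find_spec (hall i)
    have h2 : Nat.find (hall i) ≠ 0 := by
      intro h0
      rw [h0] at h1
      simp only [E7_reach, Finset.mem_singleton] at h1
      exact hi h1
    obtain ⟨k, hk⟩ := Nat.exists_eq_succ_of_ne_zero h2
    rw [hk] at h1
    simp only [Nat.succ_eq_add_one, E7_reach, Finset.mem_filter, Finset.mem_univ, true_and] at h1
    rcases h1 with h1 | ⟨j, hj, hij⟩
    · have := Nat.find_min' (hall i) h1
      omega
    · refine ⟨j, ?_, hij⟩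
      have := Nat.find_min' (hall j) hj
      omega
  choose! par hpar using hstep
  exact ⟨fun i => Nat.find (hall i), par, fun i hi => (hpar i hi).1, fun i hi => (hpar i hi).2⟩

/-- the last step: all vertices regular, all multiplicities positive, `γ' = 0`. -/
theorem last_lb (a : I → I → ℕ) (hs : ∀ i j, a i j = a j i) (hd : ∀ i, a i i ≠ 1) (hc : Conn a)
    {cn : Finset I → (I → ℚ) → ℕ → ℚ} (hcn : CN a cn)
    {G : ℕ → (I → ℚ) → (I → ℚ) → (I → ℚ) → (I → I → ℚ) → (I → I → ℚ) → Finset I → (I → ℚ) →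
      (Finset I → ℕ → ℚ) → ℚ} (hG : ClusterVal a cn G)
    {γ P p : I → ℚ} {H : I → I → ℚ} {q : I → ℚ}
    {w : Finset I → ℕ → ℚ} (h : Fresh a cn 2 γ P p H ∅ q w) (n : I → ℕ) (hn : ∀ i, 1 ≤ n i)
    (hγ : ∀ i, γ i = n i) (r : I) :
    (∏ i, wtq (P i) (n i)) * (p r - ∑ i, H r i * P i) ≤ G 2 γ P p idm H ∅ q w := by
  set n' : I → ℤ := fun i => (n i : ℤ) with hn'
  have hq0 : ∀ i, q i = 0 := fun i => h.q0 i (by simp)
  have hmh : ∀ i, mhat a (∅ \ ∅) q n' i = n i := by
    intro i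
    rw [mhat_off a _ q n' i (by simp), hq0 i, hn']
    push_cast
    ring
  have hbox : n' ∈ boxS (∅ \ ∅) 1 γ q := by
    unfold boxS
    rw [Fintype.mem_piFinset]
    intro i
    rw [if_neg (by simp), Finset.mem_Icc, hq0 i, hγ i, hn']
    simp
  have hposS : ∀ s ∈ (∅ : Finset I), 0 < cv a (mhat a (∅ \ ∅) q n') s := by simp
  have htw : tw a ∅ w 1 (mhat a (∅ \ ∅) q n') = 1 := by
    unfold tw
    rw [clusters_empty, Finset.prod_empty]
  obtain ⟨f, hf⟩ := hG.poly 2 γ P p H ∅ q w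
  have h0 : G 2 γ P p idm H ∅ q w = f.eval 0 := by
    rw [← hf 0]
    congr 1
    funext l i
    ring
  rw [h0]
  apply lim_le
  intro δ hδ0 hδ1
  rw [← hf δ]
  refine le_trans ?_ (term_le a hs hd hcn hG le_rfl h (Finset.Subset.refl ∅) hbox hposS hδ0 hδ1.le)
  have hGS := st_GS a hs hcn le_rfl h.toGS (Finset.Subset.refl ∅) hbox hposS
    (by rw [htw]; exact one_ne_zero)
  have hγ0 : ∀ i, stG 1 γ (mhat a (∅ \ ∅) q n') i = 0 := by
    intro i
    unfold stG
    rw [hmh i, hγ i]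
    push_cast
    ring
  unfold term
  rw [htw, hG.bot _ _ _ _ _ _ _ _ hGS, if_pos hγ0]
  have hsd : (∅ \ ∅ : Finset I) = ∅ := by simp
  have hcl : ∏ N ∈ clusters a (∅ \ ∅ : Finset I), neww cn w 1
      (stQ (∅ \ ∅) q (mhat a (∅ \ ∅) q n')) (mhat a (∅ \ ∅) q n') N 0 = 1 := by
    have : clusters a (∅ \ ∅ : Finset I) = ∅ := by rw [hsd]; exact clusters_empty a
    rw [this, Finset.prod_empty]
  rw [hcl, mul_one, mul_one]
  have hstw : stw ∅ P n' = ∏ i, wtq (P i) (n i) := by
    unfold stw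
    rw [Finset.sdiff_empty]
    apply Finset.prod_congr rfl
    intro i _
    simp [hn']
  rw [hstw]
  refine mul_le_mul_of_nonneg_left ?_ (Finset.prod_nonneg fun i _ =>
    E7_wtq_nonneg (h.Ppos i (by simp)).le _)
  -- the determinant
  obtain ⟨hZ, hy, hAy⟩ := E7_mat a le_rfl h (Finset.Subset.refl ∅) hbox hposS hδ1.le
  have hP'0 : ∀ i, stP a P p (mhat a (∅ \ ∅) q n') i = 0 := by
    intro i
    have h1 := hGS.cons i
    have h2 : cv a (stG 1 γ (mhat a (∅ \ ∅) q n')) i = 0 := by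
      have : stG 1 γ (mhat a (∅ \ ∅) q n') = fun _ => 0 := funext hγ0
      rw [this]
      exact cv_zero a i
    rw [h2] at h1
    push_cast at h1
    linarith
  have hyv : yv ∅ (∅ \ ∅) P (mhat a (∅ \ ∅) q n') = fun _ => 1 := by
    funext i
    unfold yv
    have : (n i : ℚ) ≠ 0 := by
      have := hn i
      exact_mod_cast (by omega : n i ≠ 0)
    rw [if_neg (by simp), if_neg (by simp), hmh i, if_neg this]
  have hd0 := fun l => E7_dle h hδ0.le l
  have hrow : ∀ l, ∑ j, blk (∅ \ ∅) (stM a ∅ (∅ \ ∅) P (fun l i => (1 - δ) * H l i)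
      (mhat a (∅ \ ∅) q n')) l j = p l - ∑ i, (1 - δ) * H l i * P i := by
    intro l
    have h1 := hAy l
    rw [hyv, if_neg (by simp), hP'0 l, zero_add] at h1
    rw [← h1]
    simp [Matrix.mulVec, dotProduct]
  obtain ⟨dep, par, hpar, hadj⟩ := E7_tree a hs hc r
  refine ((hd0 r).2.trans (le_of_eq (hrow r).symm)).trans ?_
  refine mm_tree _ hZ r dep par hpar ?_ ?_
  · intro i hi
    have hne : i ≠ par i := by
      intro hc
      have := hpar i hi
      rw [← hc] at this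
      exact lt_irrefl _ this
    have hpi : 0 < P (par i) := h.Ppos _ (by simp)
    have hm1 : (1 : ℚ) ≤ n (par i) := by exact_mod_cast hn (par i)
    have ha1 : (1 : ℚ) ≤ (a i (par i) : ℚ) := by exact_mod_cast hadj i hi
    have hval : blk (∅ \ ∅) (stM a ∅ (∅ \ ∅) P (fun l i => (1 - δ) * H l i)
        (mhat a (∅ \ ∅) q n')) i (par i) =
        P (par i) * (0 - (1 - δ) * H i (par i)) - n (par i) * (a i (par i) : ℚ) := by
      have hE : effC a (∅ \ ∅) i (par i) = -(a i (par i) : ℚ) := by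
        rw [hsd, effC_empty, cart_ne a hne]
        push_cast
        ring
      have hmne : mhat a (∅ \ ∅) q n' (par i) ≠ 0 := by
        rw [hmh]
        linarith
      simp only [blk, Matrix.of_apply, stM, sclq]
      rw [if_neg (by simp), if_neg (by simp), if_neg hmne, if_neg hne, hmh, hE]
      ring
    rw [hval]
    have h5 : 0 ≤ P (par i) * ((1 - δ) * H i (par i)) :=
      mul_nonneg hpi.le (mul_nonneg (by linarith) (h.Hnn _ _))
    have h6 : (1 : ℚ) ≤ n (par i) * (a i (par i) : ℚ) := one_le_mul_of_one_le_of_one_le hm1 ha1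
    linarith
  · intro l
    rw [hrow l]
    exact (hd0 l).1.trans (hd0 l).2

end Pool.Agent.H40.KADE

end

section

/-!
KAC ADE engine, module E7b: the path of states of a multipartition.

`m : Fin K0 → I → ℕ`, `PLF a m k` vacancy numbers (`PLF_rec`, `PLF_zero`, `PLF_top`), `gam m k` (`KL5_gam_succ`, `gam_top`).
The state at the frontier `(k+1 | k)` has `P = PLF k`, `p = PLF (k+1)`, `γ = gam m k`; the step at level `k` uses `n = mAt m k`.
* `low`: induction on `k`; `k = 1`: `last_lb` (`γ' = 0`, `P' = PLF 0 = 0`); `k ≥ 2`: `step_lb` with `W = S = ∅` (`mhat a ∅ q n = n` because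
  `q = 0`: `GS.q0`), the factor is `≥ ∏_i wt (P_i) (m_i)` by `wt_eq`, `P_r ≥ 1`, `P'_l ≥ 1` (note `scl_r = P_r / y_r`).
* `mid`: `k = K0`: `W = S = Z = Zt a α`, `n = mAt m K0`; `P' = PLF (K0-1) ≥ 1` everywhere; for `z ∈ Z`: `y_z = m_z ≥ 1` (`(C m)_z = PLF (K0-1) z > 0`);
  the factor is `≥ ∏_{i ∉ Z} wt (s_i) (m_i) ∏_{z ∈ Z} 1/m_z`.
* `up`: `k > K0`: `S = ∅`, `n = 0`: `P' = s`, `γ' = α`, `y = s` off `Z`: factor `1`.
-/

set_option autoImplicit false

namespace Pool.Agent.H40.KADE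

open scoped BigOperators
open Pool.Agent.H27.KAC

variable {I : Type} [Fintype I] [DecidableEq I]

theorem E7b_wtq_nonneg (P : ℚ) (hP : 0 ≤ P) (m : ℕ) : 0 ≤ wtq P m := by
  unfold wtq
  refine div_nonneg (Finset.prod_nonneg fun i _ => by positivity) (by positivity)

theorem E7b_wt_nonneg (P m : ℕ) : 0 ≤ wt P m := by
  unfold wt
  positivity

theorem E7b_toNat (z : ℤ) (hz : 1 ≤ z) : (((z.toNat : ℕ) : ℤ) : ℚ) = (z : ℚ) := by
  have h : ((z.toNat : ℕ) : ℤ) = z := Int.toNat_of_nonneg (by omega)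
  rw [h]

theorem E7b_wt (P : ℤ) (hP : 1 ≤ P) (m : ℕ) :
    wt P.toNat m = wtq (P : ℚ) m * (1 / (if (m : ℚ) = 0 then (P : ℚ) else 1)) := by
  have h := wt_eq P.toNat m (by omega)
  have h1 : ((P.toNat : ℕ) : ℚ) = (P : ℚ) := by exact_mod_cast E7b_toNat P hP
  rw [h, h1]
  by_cases hm : m = 0
  · simp [hm, div_eq_mul_inv]
  · have : (m : ℚ) ≠ 0 := by exact_mod_cast hm
    simp [hm]

theorem E7b_factor (W : Finset I) (P : I → ℤ) (P' : I → ℚ) (n : I → ℕ) (r : I) (hr : r ∉ W)
    (hP : ∀ i, i ∉ W → 1 ≤ P i) (hP' : ∀ i, 1 ≤ P' i) :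
    (∏ i ∈ Finset.univ \ W, wt (P i).toNat (n i)) * ∏ i ∈ W, (1 / (n i : ℚ)) ≤
      stw W (fun i => (P i : ℚ)) (fun i => (n i : ℤ)) *
        (sclq (P r : ℚ) (n r : ℚ) * ∏ l ∈ Finset.univ.erase r,
          (if l ∈ W \ W then 1 else
            P' l / yv W (W \ W) (fun i => (P i : ℚ)) (fun i => (n i : ℚ)) l)) := by
  set y : I → ℚ := fun l => if l ∈ W then (n l : ℚ) else if (n l : ℚ) = 0 then (P l : ℚ) else 1
    with hy
  have hy0 : ∀ l, 0 ≤ y l := by
    intro l
    simp only [hy]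
    split_ifs with h1 h2
    · positivity
    · have := hP l h1
      have h3 : (1 : ℚ) ≤ (P l : ℚ) := by exact_mod_cast this
      linarith
    · norm_num
  have hyv : ∀ l, yv W (W \ W) (fun i => (P i : ℚ)) (fun i => (n i : ℚ)) l = y l := by
    intro l
    unfold yv
    rw [if_neg (by simp)]
  have hfac : ∀ l, (if l ∈ W \ W then (1 : ℚ) else
            P' l / yv W (W \ W) (fun i => (P i : ℚ)) (fun i => (n i : ℚ)) l) = P' l / y l := by
    intro l
    rw [if_neg (by simp), hyv]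
  have h1 : ∏ i ∈ Finset.univ \ W, wt (P i).toNat (n i) =
      stw W (fun i => (P i : ℚ)) (fun i => (n i : ℤ)) * ∏ i ∈ Finset.univ \ W, (1 / y i) := by
    unfold stw
    rw [← Finset.prod_mul_distrib]
    refine Finset.prod_congr rfl fun i hi => ?_
    have hi' : i ∉ W := (Finset.mem_sdiff.1 hi).2
    rw [E7b_wt (P i) (hP i hi') (n i), Int.toNat_natCast]
    simp only [hy]
    rw [if_neg hi']
  have h2 : ∏ i ∈ W, (1 / (n i : ℚ)) = ∏ i ∈ W, (1 / y i) := by
    refine Finset.prod_congr rfl fun i hi => ?_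
    simp only [hy]
    rw [if_pos hi]
  have h3 : (∏ i ∈ Finset.univ \ W, (1 / y i)) * ∏ i ∈ W, (1 / y i) = ∏ i, (1 / y i) :=
    Finset.prod_sdiff (Finset.subset_univ W)
  have h4 : ∏ i, (1 / y i) = (1 / y r) * ∏ l ∈ Finset.univ.erase r, (1 / y l) :=
    (Finset.mul_prod_erase Finset.univ (fun i => 1 / y i) (Finset.mem_univ r)).symm
  have h0 : 0 ≤ stw W (fun i => (P i : ℚ)) (fun i => (n i : ℤ)) := by
    unfold stw
    refine Finset.prod_nonneg fun i hi => E7b_wtq_nonneg _ ?_ _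
    have hi' : i ∉ W := (Finset.mem_sdiff.1 hi).2
    have h5 : (1 : ℚ) ≤ (P i : ℚ) := by exact_mod_cast hP i hi'
    linarith
  rw [h1, h2, mul_assoc, h3, h4]
  refine mul_le_mul_of_nonneg_left ?_ h0
  have hPr : (1 : ℚ) ≤ (P r : ℚ) := by exact_mod_cast hP r hr
  have hyr : y r = if (n r : ℚ) = 0 then (P r : ℚ) else 1 := by
    simp only [hy]
    rw [if_neg hr]
  have h6 : 1 / y r ≤ sclq (P r : ℚ) (n r : ℚ) := by
    unfold sclq
    rw [hyr]
    split_ifs
    · rw [div_le_one (by linarith)]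
      exact hPr
    · simpa using hPr
  have h7 : 0 ≤ sclq (P r : ℚ) (n r : ℚ) :=
    le_trans (div_nonneg zero_le_one (hy0 r)) h6
  refine mul_le_mul h6 ?_ (Finset.prod_nonneg fun l _ => div_nonneg zero_le_one (hy0 l)) h7
  refine Finset.prod_le_prod (fun l _ => div_nonneg zero_le_one (hy0 l)) fun l _ => ?_
  rw [hfac]
  exact div_le_div_of_nonneg_right (hP' l) (hy0 l)

/-- one step where all the walls are left. -/
theorem E7b_step (a : I → I → ℕ) (hs : ∀ i j, a i j = a j i) (hd : ∀ i, a i i ≠ 1)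
    {cn : Finset I → (I → ℚ) → ℕ → ℚ} (hcn : CN a cn)
    {G : ℕ → (I → ℚ) → (I → ℚ) → (I → ℚ) → (I → I → ℚ) → (I → I → ℚ) → Finset I → (I → ℚ) →
      (Finset I → ℕ → ℚ) → ℚ} (hG : ClusterVal a cn G)
    {k : ℕ} (hk : 2 ≤ k) {γ p : I → ℚ} {H : I → I → ℚ} {W : Finset I} {q : I → ℚ}
    {w : Finset I → ℕ → ℚ} (P : I → ℤ)
    (h : Fresh a cn (k + 1) γ (fun i => (P i : ℚ)) p H W q w) (hq : ∀ i, q i = 0) (n : I → ℕ)
    (htw : tw a W w k (fun i => (n i : ℚ)) = 1) (r : I) (hr : r ∉ W)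
    (hP : ∀ i, i ∉ W → 1 ≤ P i) (P' γ' : I → ℚ)
    (hP' : ∀ i, stP a (fun i => (P i : ℚ)) p (fun i => (n i : ℚ)) i = P' i)
    (hP'1 : ∀ i, 1 ≤ P' i) (hγ' : ∀ i, γ i = γ' i + (k : ℚ) * n i) (hγ0 : ∀ i, 0 ≤ γ' i)
    (c : ℚ) (hc : 0 ≤ c)
    (ih : ∀ (H' : I → I → ℚ) (q' : I → ℚ) (w' : Finset I → ℕ → ℚ),
      Fresh a cn k γ' P' (fun i => (P i : ℚ)) H' ∅ q' w' →
      c * ((P r : ℚ) - ∑ i, H' r i * P' i) ≤ G k γ' P' (fun i => (P i : ℚ)) idm H' ∅ q' w') :
    (c * ((∏ i ∈ Finset.univ \ W, wt (P i).toNat (n i)) * ∏ i ∈ W, (1 / (n i : ℚ)))) *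
      (p r - ∑ i, H r i * (P i : ℚ)) ≤ G (k + 1) γ (fun i => (P i : ℚ)) p idm H W q w := by
  have hm : mhat a (W \ W) q (fun i => (n i : ℤ)) = fun i => (n i : ℚ) := by
    funext i
    rw [mhat_off a (W \ W) q _ i (by simp), hq i]
    simp
  have hk0 : (0 : ℚ) < (k : ℚ) := by exact_mod_cast (by omega : 0 < k)
  have hbox : (fun i => (n i : ℤ)) ∈ boxS (W \ W) k γ q := by
    unfold boxS
    rw [Fintype.mem_piFinset]
    intro i
    rw [if_neg (by simp), Finset.mem_Icc, hq i]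
    constructor
    · simp
    · rw [Int.le_floor, add_zero, le_div_iff₀ hk0, hγ' i]
      have := hγ0 i
      push_cast
      linarith [mul_comm (n i : ℚ) (k : ℚ)]
  have hstP : stP a (fun i => (P i : ℚ)) p (fun i => (n i : ℚ)) = P' := funext hP'
  have hstG : stG k γ (fun i => (n i : ℚ)) = γ' := by
    funext i
    unfold stG
    rw [hγ' i]
    ring
  have hWW : W \ W = ∅ := by simp
  have key := step_lb a hs hd hcn hG hk h (S := W) (le_refl W) (n := fun i => (n i : ℤ)) hbox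
    (by
      intro i _
      rw [hm, hP' i]
      linarith [hP'1 i])
    (by rw [hm]; exact htw) r hr c hc
    (by
      intro H' hF
      rw [hm, hstP, hstG] at hF ⊢
      rw [hWW] at hF ⊢
      exact ih H' _ _ hF)
  rw [hm, hstP] at key
  refine le_trans ?_ key
  have hd0 : 0 ≤ p r - ∑ i, H r i * (P i : ℚ) := by
    have := h.dnn r
    linarith
  refine mul_le_mul_of_nonneg_right ?_ hd0
  have hf := E7b_factor W P P' n r hr hP hP'1
  calc c * ((∏ i ∈ Finset.univ \ W, wt (P i).toNat (n i)) * ∏ i ∈ W, (1 / (n i : ℚ)))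
      ≤ c * (stw W (fun i => (P i : ℚ)) (fun i => (n i : ℤ)) *
        (sclq (P r : ℚ) (n r : ℚ) * ∏ l ∈ Finset.univ.erase r,
          (if l ∈ W \ W then 1 else
            P' l / yv W (W \ W) (fun i => (P i : ℚ)) (fun i => (n i : ℚ)) l))) :=
        mul_le_mul_of_nonneg_left hf hc
    _ = _ := by ring

theorem E7b_tw_one (a : I → I → ℕ) (W : Finset I) (k : ℕ) (v : I → ℚ) :
    tw a W (fun _ _ => 1) k v = 1 := by
  unfold tw
  refine Finset.prod_eq_one fun N _ => ?_
  split_ifs <;> rfl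

theorem E7b_tw_empty (a : I → I → ℕ) (w : Finset I → ℕ → ℚ) (k : ℕ) (v : I → ℚ) :
    tw a ∅ w k v = 1 := by
  unfold tw
  rw [clusters_empty]
  simp

theorem E7b_stP (a : I → I → ℕ) {K0 : ℕ} (m : Fin K0 → I → ℕ) (k : ℕ) (i : I) :
    stP a (fun i => ((PLF a m (k + 1) i : ℤ) : ℚ)) (fun i => ((PLF a m (k + 2) i : ℤ) : ℚ))
      (fun i => (mAt m (k + 1) i : ℚ)) i = ((PLF a m k i : ℤ) : ℚ) := by
  unfold stP cv
  rw [PLF_rec a m k i]
  push_cast
  ring

theorem E7b_gam (K0 : ℕ) (m : Fin K0 → I → ℕ) (k : ℕ) (i : I) :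
    ((gam m (k + 1) i : ℕ) : ℚ) = ((gam m k i : ℕ) : ℚ) +
      ((k + 1 : ℕ) : ℚ) * (mAt m (k + 1) i : ℚ) := by
  rw [KL5_gam_succ]
  push_cast
  ring

theorem low (a : I → I → ℕ) (hs : ∀ i j, a i j = a j i) (hd : ∀ i, a i i ≠ 1) (hc : Conn a)
    {cn : Finset I → (I → ℚ) → ℕ → ℚ} (hcn : CN a cn)
    {G : ℕ → (I → ℚ) → (I → ℚ) → (I → ℚ) → (I → I → ℚ) → (I → I → ℚ) → Finset I → (I → ℚ) →
      (Finset I → ℕ → ℚ) → ℚ} (hG : ClusterVal a cn G) {K0 : ℕ} (m : Fin K0 → I → ℕ)
    (hm1 : ∀ i, 1 ≤ mAt m 1 i) (r : I) (k : ℕ) (hk1 : 1 ≤ k) (hk : k < K0)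
    (hP : ∀ l, 1 ≤ l → l < K0 → ∀ i, 1 ≤ PLF a m l i) :
    ∀ (H : I → I → ℚ) (q : I → ℚ) (w : Finset I → ℕ → ℚ),
      Fresh a cn (k + 1) (fun i => ((gam m k i : ℕ) : ℚ)) (fun i => ((PLF a m k i : ℤ) : ℚ))
        (fun i => ((PLF a m (k + 1) i : ℤ) : ℚ)) H ∅ q w →
      (∏ l ∈ Finset.Icc 1 k, ∏ i, wt (PLF a m l i).toNat (mAt m l i)) *
        (((PLF a m (k + 1) r : ℤ) : ℚ) - ∑ i, H r i * ((PLF a m k i : ℤ) : ℚ)) ≤
      G (k + 1) (fun i => ((gam m k i : ℕ) : ℚ)) (fun i => ((PLF a m k i : ℤ) : ℚ))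
        (fun i => ((PLF a m (k + 1) i : ℤ) : ℚ)) idm H ∅ q w := by
  induction k with
  | zero => omega
  | succ k ih =>
    intro H q w h
    have hd0 : 0 ≤ (((PLF a m (k + 1 + 1) r : ℤ) : ℚ) -
        ∑ i, H r i * ((PLF a m (k + 1) i : ℤ) : ℚ)) := by
      have := h.dnn r
      linarith
    by_cases hk0 : k = 0
    · subst hk0
      have hl := last_lb a hs hd hc hcn hG h (mAt m 1) hm1
        (fun i => by
          rw [E7b_gam K0 m 0 i]
          have h0 : gam m 0 i = 0 := by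
            rw [KL5_gam]
            simp
          rw [h0]
          simp) r
      refine le_trans (le_of_eq ?_) hl
      rw [Finset.Icc_self, Finset.prod_singleton]
      congr 1
      refine Finset.prod_congr rfl fun i _ => ?_
      have h1 : (mAt m 1 i : ℚ) ≠ 0 := by
        have := hm1 i
        exact_mod_cast (by omega : mAt m 1 i ≠ 0)
      have h2 := E7b_wt (PLF a m 1 i) (hP 1 le_rfl hk i) (mAt m 1 i)
      rw [if_neg h1] at h2
      simpa using h2
    · have hk1' : 1 ≤ k := by omega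
      have ih' := ih hk1' (by omega)
      have hq : ∀ i, q i = 0 := fun i => h.q0 i (by simp)
      have key := E7b_step a hs hd hcn hG (k := k + 1) (by omega) (fun i => PLF a m (k + 1) i) h hq
        (fun i => mAt m (k + 1) i) (E7b_tw_empty a w (k + 1) _) r (by simp)
        (fun i _ => hP (k + 1) (by omega) hk i) (fun i => ((PLF a m k i : ℤ) : ℚ))
        (fun i => ((gam m k i : ℕ) : ℚ)) (fun i => E7b_stP a m k i)
        (fun i => by exact_mod_cast hP k hk1' (by omega) i)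
        (fun i => E7b_gam K0 m k i) (fun i => by positivity)
        (∏ l ∈ Finset.Icc 1 k, ∏ i, wt (PLF a m l i).toNat (mAt m l i))
        (Finset.prod_nonneg fun l _ => Finset.prod_nonneg fun i _ => E7b_wt_nonneg _ _)
        (fun H' q' w' hF => ih' H' q' w' hF)
      rw [Finset.prod_Icc_succ_top (by omega)]
      refine le_trans (le_of_eq ?_) key
      simp

/-- the weight of a multipartition in the lower bound. -/
noncomputable def lbZ (a : I → I → ℕ) (α : I →₀ ℕ) {K0 : ℕ} (m : Fin K0 → I → ℕ) : ℚ :=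
  (∏ l ∈ Finset.Icc 1 (K0 - 1), ∏ i, wt (PLF a m l i).toNat (mAt m l i)) *
    ((∏ i ∈ Finset.univ \ Zt a α, wt (-cw a α i).toNat (mAt m K0 i)) *
      ∏ i ∈ Zt a α, (1 / (mAt m K0 i : ℚ)))

theorem up (a : I → I → ℕ) (hs : ∀ i j, a i j = a j i) (hd : ∀ i, a i i ≠ 1) (hc : Conn a)
    {cn : Finset I → (I → ℚ) → ℕ → ℚ} (hcn : CN a cn)
    {G : ℕ → (I → ℚ) → (I → ℚ) → (I → ℚ) → (I → I → ℚ) → (I → I → ℚ) → Finset I → (I → ℚ) →
      (Finset I → ℕ → ℚ) → ℚ} (hG : ClusterVal a cn G) (α : I →₀ ℕ) (hα : Amp a α)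
    {K0 : ℕ} (hK0 : 2 ≤ K0) (m : Fin K0 → I → ℕ) (hm : m ∈ Mset K0 α)
    (hm1 : ∀ i, 1 ≤ mAt m 1 i) (hP : ∀ l, 1 ≤ l → l < K0 → ∀ i, 1 ≤ PLF a m l i)
    (r : I) (hr : r ∉ Zt a α) (k : ℕ) (hk : K0 ≤ k) :
    ∀ (H : I → I → ℚ),
      Fresh a cn (k + 1) (fun i => ((α i : ℕ) : ℚ)) (fun i => -((cw a α i : ℤ) : ℚ))
        (fun i => -((cw a α i : ℤ) : ℚ)) H (Zt a α) (fun _ => 0) (fun _ _ => 1) →
      lbZ a α m * (-((cw a α r : ℤ) : ℚ) - ∑ i, H r i * (-((cw a α i : ℤ) : ℚ))) ≤
      G (k + 1) (fun i => ((α i : ℕ) : ℚ)) (fun i => -((cw a α i : ℤ) : ℚ))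
        (fun i => -((cw a α i : ℤ) : ℚ)) idm H (Zt a α) (fun _ => 0) (fun _ _ => 1) := by
  have hamp : ∀ i, i ∉ Zt a α → 1 ≤ -cw a α i := by
    intro i hi
    have hi' : ¬ (a i i = 0 ∧ cw a α i = 0) := by
      intro hc'
      apply hi
      unfold Zt
      rw [Finset.mem_filter]
      exact ⟨Finset.mem_univ i, hc'⟩
    by_cases h0 : a i i = 0
    · have h1 := hα.pos i h0
      have h2 : cw a α i ≠ 0 := fun h2 => hi' ⟨h0, h2⟩
      omega
    · have h1 := hα.posl i h0
      omega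
  have hlb : 0 ≤ lbZ a α m := by
    unfold lbZ
    refine mul_nonneg (Finset.prod_nonneg fun l _ => Finset.prod_nonneg fun i _ =>
      E7b_wt_nonneg _ _) (mul_nonneg (Finset.prod_nonneg fun i _ => E7b_wt_nonneg _ _)
      (Finset.prod_nonneg fun i _ => by positivity))
  have hneg : ∀ i, (-((cw a α i : ℤ) : ℚ)) = (((-cw a α i : ℤ)) : ℚ) := fun i => by push_cast; rfl
  induction k, hk using Nat.le_induction with
  | base =>
    intro H h
    obtain ⟨K, rfl⟩ : ∃ K, K0 = K + 1 := ⟨K0 - 1, by omega⟩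
    have htop : ∀ k, K + 1 ≤ k → (fun i => ((PLF a m k i : ℤ) : ℚ)) =
        fun i => -((cw a α i : ℤ) : ℚ) := by
      intro k hk
      funext i
      rw [PLF_top a α m hm k hk i]
      push_cast
      rfl
    have hgam : (fun i => ((gam m (K + 1) i : ℕ) : ℚ)) = fun i => ((α i : ℕ) : ℚ) := by
      rw [gam_top α m hm (K + 1) le_rfl]
    have h' : Fresh a cn (K + 1 + 1) (fun i => ((gam m (K + 1) i : ℕ) : ℚ))
        (fun i => ((PLF a m (K + 1) i : ℤ) : ℚ)) (fun i => ((PLF a m (K + 2) i : ℤ) : ℚ)) H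
        (Zt a α) (fun _ => 0) (fun _ _ => 1) := by
      rw [htop (K + 1) le_rfl, htop (K + 2) (by omega), hgam]
      exact h
    have key := E7b_step a hs hd hcn hG (k := K + 1) hK0 (fun i => PLF a m (K + 1) i) h'
      (fun i => rfl) (fun i => mAt m (K + 1) i) (E7b_tw_one a _ _ _) r hr
      (fun i hi => by
        rw [PLF_top a α m hm (K + 1) le_rfl i]
        exact hamp i hi)
      (fun i => ((PLF a m K i : ℤ) : ℚ))
      (fun i => ((gam m K i : ℕ) : ℚ)) (fun i => E7b_stP a m K i)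
      (fun i => by exact_mod_cast hP K (by omega) (by omega) i)
      (fun i => E7b_gam (K + 1) m K i) (fun i => by positivity)
      (∏ l ∈ Finset.Icc 1 K, ∏ i, wt (PLF a m l i).toNat (mAt m l i))
      (Finset.prod_nonneg fun l _ => Finset.prod_nonneg fun i _ => E7b_wt_nonneg _ _)
      (fun H' q' w' hF => low a hs hd hc hcn hG m hm1 r K (by omega) (by omega) hP H' q' w' hF)
    rw [htop (K + 1) le_rfl, htop (K + 2) (by omega), hgam] at key
    refine le_trans (le_of_eq ?_) key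
    unfold lbZ
    rw [Nat.add_sub_cancel]
    have e1 : ∏ i ∈ Finset.univ \ Zt a α, wt (-cw a α i).toNat (mAt m (K + 1) i) =
        ∏ i ∈ Finset.univ \ Zt a α, wt (PLF a m (K + 1) i).toNat (mAt m (K + 1) i) := by
      refine Finset.prod_congr rfl fun i _ => ?_
      rw [PLF_top a α m hm (K + 1) le_rfl i]
    have e2 : ((PLF a m (K + 2) r : ℤ) : ℚ) = -((cw a α r : ℤ) : ℚ) := congrFun (htop (K + 2) (by omega)) r
    have e3 : ∑ i, H r i * ((PLF a m (K + 1) i : ℤ) : ℚ) = ∑ i, H r i * (-((cw a α i : ℤ) : ℚ)) :=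
      Finset.sum_congr rfl fun i _ => by rw [congrFun (htop (K + 1) le_rfl) i]
    rw [e1]
    simp only [e2, e3]
  | succ k hk ih =>
    intro H h
    have hFT : FT a (Zt a α) := h.ft
    set Z := Zt a α with hZ
    have hm0 : mhat a (Z \ ∅) (fun _ => 0) (fun _ : I => (0 : ℤ)) = fun _ => (0 : ℚ) := by
      funext i
      rw [Finset.sdiff_empty]
      unfold mhat
      refine (ext_unique a hFT _ (fun _ => (0 : ℚ)) (fun x _ => by simp)
        (fun x _ => cv_zero a x) i).symm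
    have hbox : (fun _ : I => (0 : ℤ)) ∈ boxS (Z \ ∅) (k + 1) (fun i => ((α i : ℕ) : ℚ))
        (fun _ => 0) := by
      unfold boxS
      rw [Fintype.mem_piFinset]
      intro i
      split_ifs
      · simp
      · rw [Finset.mem_Icc]
        constructor
        · simp
        · rw [Int.le_floor]
          push_cast
          positivity
    have hstP : stP a (fun i => -((cw a α i : ℤ) : ℚ)) (fun i => -((cw a α i : ℤ) : ℚ))
        (fun _ => (0 : ℚ)) = fun i => -((cw a α i : ℤ) : ℚ) := by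
      funext i
      unfold stP
      rw [cv_zero]
      ring
    have hstG : stG (k + 1) (fun i => ((α i : ℕ) : ℚ)) (fun _ => (0 : ℚ)) =
        fun i => ((α i : ℕ) : ℚ) := by
      funext i
      unfold stG
      ring
    have hstQ : stQ (Z \ ∅) (fun _ => (0 : ℚ)) (fun _ => (0 : ℚ)) = fun _ => (0 : ℚ) := by
      funext i
      unfold stQ
      split_ifs <;> simp
    have hneww : neww cn (fun _ _ => (1 : ℚ)) (k + 1) (fun _ => (0 : ℚ)) (fun _ : I => (0 : ℚ)) =
        fun _ _ => 1 := by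
      funext N l
      unfold neww
      rw [if_pos (fun x _ => rfl)]
    have hposZ : ∀ i, i ∉ Z → (0 : ℚ) < -((cw a α i : ℤ) : ℚ) := by
      intro i hi
      have h1 := hamp i hi
      have h2 : (1 : ℚ) ≤ ((-cw a α i : ℤ) : ℚ) := by exact_mod_cast h1
      rw [← hneg i] at h2
      linarith
    have key := step_lb a hs hd hcn hG (k := k + 1) (by omega) h (S := ∅) (by simp)
      (n := fun _ => (0 : ℤ)) hbox
      (by
        intro i hi
        rw [hm0, hstP]
        exact hposZ i (by simpa using hi))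
      (E7b_tw_one a _ _ _) r hr (lbZ a α m) hlb
      (by
        intro H' hF
        rw [hm0, hstP, hstG, hstQ, hneww, Finset.sdiff_empty] at hF
        rw [hm0, hstP, hstG, hstQ, hneww, Finset.sdiff_empty]
        exact ih H' hF)
    rw [hm0, hstP] at key
    refine le_trans (le_of_eq ?_) key
    have e1 : stw Z (fun i => -((cw a α i : ℤ) : ℚ)) (fun _ => (0 : ℤ)) = 1 := by
      unfold stw
      refine Finset.prod_eq_one fun i _ => ?_
      simp [wtq]
    have e2 : sclq (-((cw a α r : ℤ) : ℚ)) 0 = 1 := by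
      unfold sclq
      rw [if_pos rfl]
    have e3 : ∏ l ∈ Finset.univ.erase r, (if l ∈ Z \ ∅ then (1 : ℚ) else
        -((cw a α l : ℤ) : ℚ) / yv Z (Z \ ∅) (fun i => -((cw a α i : ℤ) : ℚ)) (fun _ => 0) l) =
        1 := by
      refine Finset.prod_eq_one fun l _ => ?_
      rw [Finset.sdiff_empty]
      split_ifs with hl
      · rfl
      · unfold yv
        rw [if_neg hl, if_neg hl, if_pos rfl]
        exact div_self (hposZ l hl).ne'
    rw [e1, e2, e3]
    ring

end Pool.Agent.H40.KADE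

end

section

/-!
KAC ADE, module AG7b: one step expansion for terms whose exponents at level `k` are only natural after the insertion.

`TV_step_gen` has the same proof as `TV_step` (file AE7): expand the columns `(x,k+1)`, `x ∈ R`, one after the other with `TV_expD`; in
the term where column `x` is `2 (x,k) - (x,k-1)` the part `2 (x,k)` has value zero by `TV_van` in direction `x`.
-/

set_option autoImplicit false

namespace Pool.Agent.H27.KAC

open scoped BigOperators

section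

variable {I : Type} [Fintype I] [DecidableEq I]

/-- the coordinates of `cE`. -/
private theorem AG7b_cE_apply (a : I → I → ℕ) (y : I) (k : ℕ) (i : I) (l : ℕ) :
    cE a y k (i, l) = if l = k then ((cart a y i : ℤ) : ℚ) else 0 := by
  unfold cE
  rw [Finsupp.finsetSum_apply]
  simp only [Finsupp.smul_apply, Finsupp.single_apply, Prod.mk.injEq, smul_eq_mul]
  by_cases h : l = k
  · subst h
    simp
  · have h' : k ≠ l := fun e => h e.symm
    simp [h, h']

/-- the partially expanded term. -/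
private noncomputable def AG7b_P (a : I → I → ℕ) (R : Finset I) (k : ℕ) (q : I → ℚ) (T : Trm I)
    (S : Finset I) (m : I → ℕ) : Trm I :=
  (T.eta a k (fun i => (if i ∈ S then (m i : ℚ) else 0) - resQ R q i)).cols R
    (fun x => if x ∈ S then (if m x = 0 then sy x (k - 1) else cE a x k) else sy x (k + 1))

private theorem AG7b_P_E (a : I → I → ℕ) (R : Finset I) (k : ℕ) (q : I → ℚ) (T : Trm I)
    (S : Finset I) (m : I → ℕ) (i : I) (l : ℕ) :
    (AG7b_P a R k q T S m).E (i, l) = T.E (i, l) -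
      ∑ y, ((if y ∈ S then (m y : ℚ) else 0) - resQ R q y) *
        (if l = k then ((cart a y i : ℤ) : ℚ) else 0) := by
  show (T.E - ∑ x, ((if x ∈ S then (m x : ℚ) else 0) - resQ R q x) • cE a x k) (i, l) = _
  rw [Finsupp.sub_apply, Finsupp.finsetSum_apply]
  simp only [Finsupp.smul_apply, smul_eq_mul, AG7b_cE_apply]

private theorem AG7b_P_E_ne (a : I → I → ℕ) (R : Finset I) (k : ℕ) (q : I → ℚ) (T : Trm I)
    (S : Finset I) (m : I → ℕ) (i : I) (l : ℕ) (hl : l ≠ k) :
    (AG7b_P a R k q T S m).E (i, l) = T.E (i, l) := by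
  rw [AG7b_P_E]
  simp [hl]

/-- the exponent of `(x,k)` is a positive natural number. -/
private theorem AG7b_P_E_k (a : I → I → ℕ) (hs : ∀ i j, a i j = a j i) (R : Finset I) (k : ℕ)
    (hk : 1 ≤ k) (q : I → ℚ) (T : Trm I)
    (hTk : ∀ x ∈ R, ∃ n : ℕ, 1 ≤ n ∧ T.E (x, k) + cqN a R q x = n)
    (S : Finset I) (m : I → ℕ) (x : I) (hx : x ∈ R) (hxS : x ∉ S) :
    ∃ n : ℕ, 1 ≤ n ∧ (AG7b_P a R k q T S m).E (x, k) = n := by
  obtain ⟨n1, hn1, hn1'⟩ := hTk x hx
  refine ⟨n1 + ∑ y ∈ S, m y * a x y, by omega, ?_⟩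
  rw [AG7b_P_E]
  have h1 : ∑ y, ((if y ∈ S then (m y : ℚ) else 0) - resQ R q y) *
      (if k = k then ((cart a y x : ℤ) : ℚ) else 0) =
      (∑ y ∈ S, (m y : ℚ) * ((cart a x y : ℤ) : ℚ)) - cqN a R q x := by
    simp only [if_true, sub_mul, Finset.sum_sub_distrib]
    congr 1
    · simp only [ite_mul, zero_mul]
      rw [Finset.sum_ite_mem, Finset.univ_inter]
      refine Finset.sum_congr rfl fun y _ => ?_
      congr 2
      unfold cart
      rw [hs y x]
      by_cases h : y = x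
      · subst h; simp
      · rw [if_neg h, if_neg (fun e => h e.symm)]
    · unfold resQ cqN
      simp only [ite_mul, zero_mul]
      rw [Finset.sum_ite_mem, Finset.univ_inter]
      refine Finset.sum_congr rfl fun y _ => ?_
      rw [mul_comm]
      congr 2
      unfold cart
      rw [hs y x]
      by_cases h : y = x
      · subst h; simp
      · rw [if_neg h, if_neg (fun e => h e.symm)]
  rw [h1]
  have h2 : ∑ y ∈ S, (m y : ℚ) * ((cart a x y : ℤ) : ℚ) = -∑ y ∈ S, (m y : ℚ) * (a x y : ℚ) := by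
    rw [← Finset.sum_neg_distrib]
    refine Finset.sum_congr rfl fun y hy => ?_
    have hxy : x ≠ y := fun e => hxS (e ▸ hy)
    unfold cart
    rw [if_neg hxy]
    push_cast
    ring
  rw [h2]
  push_cast
  linarith

/-- the `X`-exponent at `x`. -/
private theorem AG7b_P_γ (a : I → I → ℕ) (R : Finset I) (k : ℕ) (q : I → ℚ) (T : Trm I)
    (S : Finset I) (m : I → ℕ) (x : I) (hx : x ∈ R) (hxS : x ∉ S) :
    (AG7b_P a R k q T S m).γ x = T.γ x + k * q x := by
  show T.γ x - k * ((if x ∈ S then (m x : ℚ) else 0) - resQ R q x) = _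
  unfold resQ
  rw [if_neg hxS, if_pos hx]
  ring

private theorem AG7b_P_Λ (a : I → I → ℕ) (R : Finset I) (k : ℕ) (q : I → ℚ) (T : Trm I)
    (S : Finset I) (m : I → ℕ) (j : I) :
    (AG7b_P a R k q T S m).Λ j = if j ∈ R then
      (if j ∈ S then (if m j = 0 then sy j (k - 1) else cE a j k) else sy j (k + 1)) else T.Λ j :=
  rfl

/-- the part with the column `(x,k)` vanishes. -/
private theorem AG7b_P_van (a : I → I → ℕ) (hs : ∀ i j, a i j = a j i) (R : Finset I)
    (hR : FinT a R) (k : ℕ) (hk : 1 ≤ k) (q : I → ℚ) (T : Trm I)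
    (hT : ∀ x ∈ R, ∀ l, 1 ≤ l → l ≠ k → IsN (T.E (x, l)))
    (hTk : ∀ x ∈ R, ∃ n : ℕ, 1 ≤ n ∧ T.E (x, k) + cqN a R q x = n)
    (hcol : ∀ x ∈ R, ∀ j, j ∉ R → ∀ l, 1 ≤ l → T.Λ j (x, l) ≠ 0 → l = k ∨ 1 ≤ T.E (x, l)) (S : Finset I) (m : I → ℕ) (x : I) (hx : x ∈ R) (hxS : x ∉ S) :
    TV a ((AG7b_P a R k q T S m).col x (sy x k)) = 0 := by
  obtain ⟨n, hn1, hn⟩ := AG7b_P_E_k a hs R k hk q T hTk S m x hx hxS
  have hE : ((AG7b_P a R k q T S m).col x (sy x k)).E = (AG7b_P a R k q T S m).E := rfl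
  refine TV_van a hs _ x (hR.loopfree x hx) ⟨fun l hl => ?_, fun j l hl hΛ => ?_⟩
  · rw [hE]
    by_cases h : l = k
    · subst h; exact ⟨n, hn⟩
    · rw [AG7b_P_E_ne a R k q T S m x l h]
      exact hT x hx l hl h
  · rw [hE]
    by_cases h : l = k
    · subst h
      rw [hn]
      exact_mod_cast hn1
    · rw [AG7b_P_E_ne a R k q T S m x l h]
      have hΛ' : ((AG7b_P a R k q T S m).col x (sy x k)).Λ j =
          if j = x then sy x k else (AG7b_P a R k q T S m).Λ j := by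
        show Function.update (AG7b_P a R k q T S m).Λ x (sy x k) j = _
        rw [Function.update_apply]
      rw [hΛ'] at hΛ
      by_cases hj : j = x
      · rw [if_pos hj] at hΛ
        exfalso
        apply hΛ
        rw [Finsupp.single_apply, if_neg]
        intro e
        exact h (Prod.mk.inj e).2.symm
      · rw [if_neg hj, AG7b_P_Λ] at hΛ
        by_cases hjR : j ∈ R
        · exfalso
          apply hΛ
          rw [if_pos hjR]
          split_ifs
          · rw [Finsupp.single_apply, if_neg]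
            intro e
            exact hj (Prod.mk.inj e).1
          · rw [AG7b_cE_apply, if_neg h]
          · rw [Finsupp.single_apply, if_neg]
            intro e
            exact hj (Prod.mk.inj e).1
        · rw [if_neg hjR] at hΛ
          rcases hcol x hx j hjR l hl hΛ with h' | h'
          · exact absurd h' h
          · exact h'

private theorem AG7b_trm_ext {T T' : Trm I} (h1 : T.γ = T'.γ) (h2 : T.E = T'.E)
    (h3 : T.Λ = T'.Λ) : T = T' := by
  cases T; cases T'; simp only at h1 h2 h3; subst h1 h2 h3; rfl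

/-- column `x` of `P` with `x ∉ S` replaced by `(x,k-1)`. -/
private theorem AG7b_P_col0 (a : I → I → ℕ) (R : Finset I) (k : ℕ) (q : I → ℚ) (T : Trm I)
    (S : Finset I) (m : I → ℕ) (x : I) (hx : x ∈ R) (hxS : x ∉ S) :
    (AG7b_P a R k q T S m).col x (sy x (k - 1)) =
      AG7b_P a R k q T (insert x S) (Function.update m x 0) := by
  have hδ : (fun i => (if i ∈ insert x S then ((Function.update m x 0 i : ℕ) : ℚ) else 0) -
      resQ R q i) = fun i => (if i ∈ S then (m i : ℚ) else 0) - resQ R q i := by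
    funext i
    by_cases hi : i = x
    · subst hi
      simp [hxS]
    · simp [Finset.mem_insert, hi]
  apply AG7b_trm_ext
  · show (T.eta a k _).γ = (T.eta a k _).γ
    rw [hδ]
  · show (T.eta a k _).E = (T.eta a k _).E
    rw [hδ]
  · funext j
    show Function.update (AG7b_P a R k q T S m).Λ x (sy x (k - 1)) j = _
    rw [Function.update_apply, AG7b_P_Λ, AG7b_P_Λ]
    by_cases hj : j = x
    · subst hj
      simp [hx]
    · simp [hj, Finset.mem_insert]

/-- column `x` of `P` with `x ∉ S` replaced by `θ_x`, and multiplied with `η^n`. -/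
private theorem AG7b_P_col1 (a : I → I → ℕ) (R : Finset I) (k : ℕ) (q : I → ℚ) (T : Trm I)
    (S : Finset I) (m : I → ℕ) (x : I) (hx : x ∈ R) (hxS : x ∉ S) (n : ℕ) (hn : 1 ≤ n) :
    ((AG7b_P a R k q T S m).eta a k (Pi.single x (n : ℚ))).col x (cE a x k) =
      AG7b_P a R k q T (insert x S) (Function.update m x n) := by
  have hδ : ∀ i, (if i ∈ insert x S then ((Function.update m x n i : ℕ) : ℚ) else 0) -
      resQ R q i = ((if i ∈ S then (m i : ℚ) else 0) - resQ R q i) + (Pi.single x (n : ℚ) : I → ℚ) i := by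
    intro i
    by_cases hi : i = x
    · subst hi
      simp [hxS]
      ring
    · simp [Finset.mem_insert, hi]
  apply AG7b_trm_ext
  · funext i
    show T.γ i - k * ((if i ∈ S then (m i : ℚ) else 0) - resQ R q i) - k * (Pi.single x (n : ℚ) : I → ℚ) i =
      T.γ i - k * ((if i ∈ insert x S then ((Function.update m x n i : ℕ) : ℚ) else 0) -
        resQ R q i)
    rw [hδ]
    ring
  · show T.E - ∑ y, ((if y ∈ S then (m y : ℚ) else 0) - resQ R q y) • cE a y k -
        ∑ y, (Pi.single x (n : ℚ) : I → ℚ) y • cE a y k =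
      T.E - ∑ y, ((if y ∈ insert x S then ((Function.update m x n y : ℕ) : ℚ) else 0) -
        resQ R q y) • cE a y k
    simp only [hδ, add_smul, Finset.sum_add_distrib]
    rw [sub_sub]
  · funext j
    show Function.update (AG7b_P a R k q T S m).Λ x (cE a x k) j = _
    rw [Function.update_apply, AG7b_P_Λ a R k q T (insert x S)]
    by_cases hj : j = x
    · subst hj
      have : n ≠ 0 := by omega
      simp [hx, this]
    · rw [if_neg hj]
      show (AG7b_P a R k q T S m).Λ j = _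
      rw [AG7b_P_Λ]
      simp [hj, Finset.mem_insert]

/-- expansion of one column. -/
private theorem AG7b_one (a : I → I → ℕ) (hs : ∀ i j, a i j = a j i) (R : Finset I)
    (hR : FinT a R) (k : ℕ) (hk : 1 ≤ k) (q : I → ℚ) (T : Trm I)
    (hT : ∀ x ∈ R, ∀ l, 1 ≤ l → l ≠ k → IsN (T.E (x, l)))
    (hTk : ∀ x ∈ R, ∃ n : ℕ, 1 ≤ n ∧ T.E (x, k) + cqN a R q x = n)
    (hcol : ∀ x ∈ R, ∀ j, j ∉ R → ∀ l, 1 ≤ l → T.Λ j (x, l) ≠ 0 → l = k ∨ 1 ≤ T.E (x, l)) (B : ℕ) (hB : bnd R k q T ≤ B) (S : Finset I) (m : I → ℕ) (x : I)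
    (hx : x ∈ R) (hxS : x ∉ S) :
    TV a (AG7b_P a R k q T S m) =
      -TV a (AG7b_P a R k q T (insert x S) (Function.update m x 0)) +
        ∑ n ∈ Finset.Icc 1 B, TV a (AG7b_P a R k q T (insert x S) (Function.update m x n)) := by
  have hfl : ⌊(AG7b_P a R k q T S m).γ x⌋₊ ≤ B := by
    rw [AG7b_P_γ a R k q T S m x hx hxS]
    refine le_trans ?_ hB
    unfold bnd
    exact Finset.single_le_sum (f := fun i => ⌊T.γ i + k * q i⌋₊) (fun i _ => Nat.zero_le _) hx
  have hcolx : (AG7b_P a R k q T S m).col x (sy x (k + 1)) = AG7b_P a R k q T S m := by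
    apply AG7b_trm_ext
    · rfl
    · rfl
    · funext j
      show Function.update (AG7b_P a R k q T S m).Λ x (sy x (k + 1)) j = _
      rw [Function.update_apply]
      by_cases hj : j = x
      · subst hj
        rw [if_pos rfl, AG7b_P_Λ, if_pos hx, if_neg hxS]
      · rw [if_neg hj]
  have h1 := TV_expD a hs (AG7b_P a R k q T S m) x x k hk B hfl
  rw [hcolx] at h1
  rw [h1]
  congr 1
  · have h2 : ((2 : ℚ) • sy x k - sy x (k - 1) : QE I) =
        (2 : ℚ) • sy x k + (-1 : ℚ) • sy x (k - 1) := by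
      rw [neg_one_smul, sub_eq_add_neg]
    rw [h2, TV_col_add, TV_col_smul, TV_col_smul, AG7b_P_van a hs R hR k hk q T hT hTk hcol S m x hx hxS,
      AG7b_P_col0 a R k q T S m x hx hxS]
    ring
  · refine Finset.sum_congr rfl fun n hn => ?_
    rw [AG7b_P_col1 a R k q T S m x hx hxS n (Finset.mem_Icc.mp hn).1]

private theorem AG7b_mbox_insert (S : Finset I) (x : I) (hxS : x ∉ S) (B : ℕ)
    (f : (I → ℕ) → ℚ) :
    ∑ m ∈ mbox (insert x S) B, f m =
      ∑ m ∈ mbox S B, ∑ n ∈ Finset.range (B + 1), f (Function.update m x n) := by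
  rw [← Finset.sum_product']
  refine Finset.sum_nbij' (fun m => (Function.update m x 0, m x))
    (fun p => Function.update p.1 x p.2) ?_ ?_ ?_ ?_ ?_
  · intro m hm
    have hm' := Fintype.mem_piFinset.mp hm
    rw [Finset.mem_product]
    constructor
    · refine Fintype.mem_piFinset.mpr fun i => ?_
      have := hm' i
      by_cases hi : i = x
      · subst hi
        simp [hxS]
      · simpa [hi, Finset.mem_insert] using this
    · have := hm' x
      simpa using this
  · rintro ⟨m, n⟩ hp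
    rw [Finset.mem_product] at hp
    have hm' := Fintype.mem_piFinset.mp hp.1
    refine Fintype.mem_piFinset.mpr fun i => ?_
    have := hm' i
    by_cases hi : i = x
    · subst hi
      simpa using hp.2
    · simpa [hi, Finset.mem_insert] using this
  · intro m _
    funext i
    by_cases hi : i = x
    · subst hi; simp
    · simp [hi]
  · rintro ⟨m, n⟩ hp
    rw [Finset.mem_product] at hp
    have hm' := Fintype.mem_piFinset.mp hp.1 x
    rw [if_neg hxS, Finset.mem_singleton] at hm'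
    simp only at hm' ⊢
    refine Prod.ext ?_ ?_
    · funext i
      by_cases hi : i = x
      · subst hi; simp [hm']
      · simp [hi]
    · simp
  · intro m _
    simp

private theorem AG7b_sgm (S : Finset I) (x : I) (hxS : x ∉ S) (m : I → ℕ) (n : ℕ) :
    sgm (insert x S) (Function.update m x n) = (if n = 0 then -1 else 1) * sgm S m := by
  unfold sgm
  have hS : S.filter (fun y => Function.update m x n y = 0) = S.filter (fun y => m y = 0) := by
    refine Finset.filter_congr fun y hy => ?_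
    have : y ≠ x := fun e => hxS (e ▸ hy)
    rw [Function.update_of_ne this]
  rw [Finset.filter_insert, hS, Function.update_self]
  by_cases hn : n = 0
  · rw [if_pos hn, if_pos hn, Finset.card_insert_of_notMem (fun h => hxS (Finset.mem_filter.mp h).1),
      pow_succ]
    ring
  · rw [if_neg hn, if_neg hn, one_mul]

private theorem AG7b_all (a : I → I → ℕ) (hs : ∀ i j, a i j = a j i) (R : Finset I)
    (hR : FinT a R) (k : ℕ) (hk : 1 ≤ k) (q : I → ℚ) (T : Trm I)
    (hT : ∀ x ∈ R, ∀ l, 1 ≤ l → l ≠ k → IsN (T.E (x, l)))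
    (hTk : ∀ x ∈ R, ∃ n : ℕ, 1 ≤ n ∧ T.E (x, k) + cqN a R q x = n)
    (hcol : ∀ x ∈ R, ∀ j, j ∉ R → ∀ l, 1 ≤ l → T.Λ j (x, l) ≠ 0 → l = k ∨ 1 ≤ T.E (x, l)) (B : ℕ) (hB : bnd R k q T ≤ B) (S : Finset I) (hS : S ⊆ R) :
    TV a (tauT a R k q T) = ∑ m ∈ mbox S B, sgm S m * TV a (AG7b_P a R k q T S m) := by
  induction S using Finset.induction_on with
  | empty =>
    have h0 : mbox (∅ : Finset I) B = {0} := by
      ext m
      unfold mbox
      rw [Fintype.mem_piFinset]
      simp only [Finset.notMem_empty, if_false, Finset.mem_singleton]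
      constructor
      · intro h; funext i; exact h i
      · intro h i; rw [h]; rfl
    rw [h0, Finset.sum_singleton]
    have h1 : AG7b_P a R k q T ∅ 0 = tauT a R k q T := by
      unfold AG7b_P tauT blkT
      simp only [Finset.notMem_empty, if_false, zero_sub]
    rw [h1]
    simp [sgm]
  | insert x S hxS ih =>
    have hx : x ∈ R := hS (Finset.mem_insert_self x S)
    rw [ih (fun y hy => hS (Finset.mem_insert_of_mem hy)), AG7b_mbox_insert S x hxS B]
    refine Finset.sum_congr rfl fun m _ => ?_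
    rw [AG7b_one a hs R hR k hk q T hT hTk hcol B hB S m x hx hxS]
    have hr : Finset.range (B + 1) = insert 0 (Finset.Icc 1 B) := by
      ext n
      simp only [Finset.mem_range, Finset.mem_insert, Finset.mem_Icc]
      omega
    rw [hr, Finset.sum_insert (by simp), AG7b_sgm S x hxS m 0, if_pos rfl, mul_add, Finset.mul_sum]
    congr 1
    · ring
    · refine Finset.sum_congr rfl fun n hn => ?_
      have hn' : n ≠ 0 := by
        have := (Finset.mem_Icc.mp hn).1
        omega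
      rw [AG7b_sgm S x hxS m n, if_neg hn', one_mul]

private theorem AG7b_raw (a : I → I → ℕ) (R : Finset I) (k : ℕ) (q : I → ℚ) (m : I → ℕ)
    (T : Trm I) : AG7b_P a R k q T R m = rawT a R k q m T := by
  have hδ : (fun i => (if i ∈ R then (m i : ℚ) else 0) - resQ R q i) =
      fun i => if i ∈ R then (m i : ℚ) - q i else 0 := by
    funext i
    unfold resQ
    by_cases hi : i ∈ R
    · simp [hi]
    · simp [hi]
  apply AG7b_trm_ext
  · show (T.eta a k _).γ = (T.eta a k _).γ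
    rw [hδ]
  · show (T.eta a k _).E = (T.eta a k _).E
    rw [hδ]
  · funext j
    rw [AG7b_P_Λ]
    show _ = if j ∈ R then (if m j = 0 then sy j (k - 1) else cE a j k) else T.Λ j
    by_cases hj : j ∈ R
    · simp [hj]
    · simp [hj]

theorem TV_step_gen (a : I → I → ℕ) (hs : ∀ i j, a i j = a j i) (R : Finset I) (hR : FinT a R)
    (k : ℕ) (hk : 1 ≤ k) (q : I → ℚ) (T : Trm I)
    (hT : ∀ x ∈ R, ∀ l, 1 ≤ l → l ≠ k → IsN (T.E (x, l)))
    (hTk : ∀ x ∈ R, ∃ n : ℕ, 1 ≤ n ∧ T.E (x, k) + cqN a R q x = n)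
    (hcol : ∀ x ∈ R, ∀ j, j ∉ R → ∀ l, 1 ≤ l → T.Λ j (x, l) ≠ 0 → l = k ∨ 1 ≤ T.E (x, l))
    (B : ℕ) (hB : bnd R k q T ≤ B) :
    TV a (tauT a R k q T) = ∑ m ∈ mbox R B, sgm R m * TV a (rawT a R k q m T) := by
  rw [AG7b_all a hs R hR k hk q T hT hTk hcol B hB R (Finset.Subset.refl R)]
  refine Finset.sum_congr rfl fun m _ => ?_
  rw [AG7b_raw]

end

end Pool.Agent.H27.KAC

end

section

/-!
KAC ADE, module AG9b: addition of the insertion at the chain vertex and expansion of the blocks `U2`.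

`star_rep`: `m'` good on `A` (`m' ≠ 0`, `q y < m' y` if `m' y ≠ 0`), `U1`, `U2` the other blocks.  First add the insertion
`η_{x,f}^{-q x}` with `TV_rep` (`v = - q x e_x`): let `N0 = {y ∈ A | m' y = 0}`, `Z` = the component of `x` in
`{x} ∪ N0 ∪ U1 ∪ U2`, levels `f`, sides `f-1` on `x, N0, U1` and `f+1` on `U2`.  The exponents of the term on `Z` at level `f` are
`T.E + C_Z u + a_{Z M'} δ` with `u = q` off `x`, `u x = 0`, `M' = {m' ≠ 0}`, `δ = m' - q > 0` on `M'`; `Z` is adjacent to `M'`, so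
`solN = u + C_Z^{-1} (T.E + a_{Z M'} δ) > 0` on `Z`, and `- q x < solN x`.  Then expand `U2` with `TV_step_gen`: there the exponent at
level `f` plus `C_{U2} q` is `T.E + C_R q ≥ 1`.  Use `rawT_zero`, `rawT_union` to recognise the raw terms of `R`.
-/

set_option autoImplicit false

namespace Pool.Agent.H27.KAC

open scoped BigOperators

set_option linter.unusedSectionVars false

section

variable {I : Type} [Fintype I] [DecidableEq I]

private theorem AG9b_sy_ne {j z : I} {k l : ℕ} (h : sy j k (z, l) ≠ 0) : j = z ∧ k = l := by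
  by_contra hc
  apply h
  rw [Finsupp.single_apply, if_neg]
  intro he
  exact hc (Prod.mk.inj he)

private theorem AG9b_cE_ne (a : I → I → ℕ) {y z : I} {k l : ℕ} (h : cE a y k (z, l) ≠ 0) :
    l = k := by
  by_contra hc
  apply h
  unfold cE
  rw [Finsupp.finsetSum_apply]
  refine Finset.sum_eq_zero fun j _ => ?_
  rw [Finsupp.smul_apply, Finsupp.single_apply, if_neg, smul_zero]
  intro he
  exact hc (Prod.mk.inj he).2.symm

private theorem AG9b_cart_comm {a : I → I → ℕ} (hs : ∀ i j, a i j = a j i) (i j : I) :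
    cart a i j = cart a j i := by
  unfold cart
  rw [hs i j]
  by_cases h : i = j
  · subst h; rfl
  · rw [if_neg h, if_neg (fun h' => h h'.symm)]

private theorem AG9b_cart_ne {a : I → I → ℕ} {i j : I} (h : i ≠ j) :
    cart a i j = -(a i j : ℤ) := by
  unfold cart
  rw [if_neg h, zero_sub]

private theorem AG9b_cart_zero {a : I → I → ℕ} {i j : I} (h : i ≠ j) (h0 : a i j = 0) :
    cart a i j = 0 := by
  rw [AG9b_cart_ne h, h0]; simp

/-- sum over `R ∖ x`. -/
private theorem AG9b_sum3 {R A U1 U2 : Finset I} {x : I} (hAR : A ∪ U1 ∪ U2 = R.erase x)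
    (h1 : Disjoint A U1) (h2 : Disjoint A U2) (h12 : Disjoint U1 U2)
    {N : Type} [AddCommMonoid N] (g : I → N) :
    ∑ y ∈ R.erase x, g y = ∑ y ∈ A, g y + ∑ y ∈ U1, g y + ∑ y ∈ U2, g y := by
  rw [← hAR, Finset.sum_union, Finset.sum_union h1]
  rw [Finset.disjoint_union_left]
  exact ⟨h2, h12⟩

/-- the insertion exponents in the direction `i`. -/
private noncomputable def AG9b_G (a : I → I → ℕ) (A U1 U2 : Finset I) (q : I → ℚ) (m' : I → ℕ)
    (i : I) : ℚ :=
  ∑ y ∈ U1, q y * (cart a y i : ℚ) + ∑ y ∈ U2, q y * (cart a y i : ℚ) -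
    ∑ y ∈ A, ((m' y : ℚ) - q y) * (cart a y i : ℚ)

private theorem AG9b_G_eq (a : I → I → ℕ) {R A U1 U2 : Finset I} {x : I}
    (hAR : A ∪ U1 ∪ U2 = R.erase x)
    (h1 : Disjoint A U1) (h2 : Disjoint A U2) (h12 : Disjoint U1 U2) (q : I → ℚ) (m' : I → ℕ)
    (i : I) : AG9b_G a A U1 U2 q m' i =
      ∑ y ∈ R.erase x, q y * (cart a y i : ℚ) - ∑ y ∈ A, (m' y : ℚ) * (cart a y i : ℚ) := by
  rw [AG9b_sum3 hAR h1 h2 h12]
  unfold AG9b_G
  simp only [sub_mul, Finset.sum_sub_distrib]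
  ring

open Classical in
private theorem AG9b_pos (a : I → I → ℕ) (hs : ∀ i j, a i j = a j i) (R : Finset I)
    (hR : FinT a R) (hc : ConnS a R) (q : I → ℚ) (hq : ∀ y ∈ R, 0 < q y) (x : I)
    (A U1 U2 : Finset I) (hAR : A ∪ U1 ∪ U2 = R.erase x) (hA1 : Disjoint A U1)
    (hA2 : Disjoint A U2) (h12 : Disjoint U1 U2) (m' : I → ℕ)
    (hgood : ∀ y ∈ A, m' y ≠ 0 → q y < m' y) (hne : ∃ y ∈ A, m' y ≠ 0) (E : I → ℚ)
    (hE : ∀ y ∈ R, 0 ≤ E y) (Z : Finset I)
    (hZ : Z ∈ comps a (R \ A.filter (fun y => m' y ≠ 0))) :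
    ∀ i ∈ Z, 0 < solN a Z (fun i => E i + AG9b_G a A U1 U2 q m' i) i := by
  have hxe : x ∉ A ∪ U1 ∪ U2 := by rw [hAR]; exact Finset.notMem_erase x R
  have hxA : x ∉ A := fun h => hxe (by simp [h])
  have hAR' : A ⊆ R := by
    intro y hy
    have : y ∈ R.erase x := by rw [← hAR]; simp [hy]
    exact Finset.mem_of_mem_erase this
  set M' := A.filter (fun y => m' y ≠ 0) with hM'
  have hM'R : M' ⊆ R := (Finset.filter_subset _ _).trans hAR'
  have hZN := comps_subset hZ
  have hZR : Z ⊆ R := hZN.trans Finset.sdiff_subset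
  have hZc := comps_conn hZ
  have hZsep := comps_sep hZ
  have hZfin : FinT a Z := hR.mono hZR
  have hMne : M'.Nonempty := by
    obtain ⟨y, hy, hy'⟩ := hne
    exact ⟨y, Finset.mem_filter.2 ⟨hy, hy'⟩⟩
  set u : I → ℚ := fun i => if i = x then 0 else q i with hu
  set b : I → ℚ := fun i => E i + ∑ y ∈ M', ((m' y : ℚ) - q y) * (a y i : ℚ) with hb
  have hMpos : ∀ y ∈ M', 0 < (m' y : ℚ) - q y := by
    intro y hy
    obtain ⟨hyA, hy0⟩ := Finset.mem_filter.1 hy
    exact sub_pos.2 (hgood y hyA hy0)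
  have key : ∀ i ∈ Z, E i + AG9b_G a A U1 U2 q m' i = cqN a Z u i + b i := by
    intro i hi
    have hiM : i ∉ M' := (Finset.mem_sdiff.1 (hZN hi)).2
    rw [AG9b_G_eq a hAR hA1 hA2 h12]
    have e1 : ∑ y ∈ R.erase x, q y * (cart a y i : ℚ) = ∑ y ∈ R, u y * (cart a y i : ℚ) := by
      rw [← Finset.sum_erase R (f := fun y => u y * (cart a y i : ℚ)) (a := x) (by simp [hu])]
      refine Finset.sum_congr rfl fun y hy => ?_
      rw [hu]
      simp only
      rw [if_neg (Finset.ne_of_mem_erase hy)]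
    have e2 : ∑ y ∈ R, u y * (cart a y i : ℚ) =
        ∑ y ∈ R \ M', u y * (cart a y i : ℚ) + ∑ y ∈ M', u y * (cart a y i : ℚ) :=
      (Finset.sum_sdiff hM'R).symm
    have e3 : ∑ y ∈ R \ M', u y * (cart a y i : ℚ) = cqN a Z u i := by
      unfold cqN
      rw [← Finset.sum_sdiff hZN]
      have h0 : ∑ y ∈ (R \ M') \ Z, u y * (cart a y i : ℚ) = 0 := by
        refine Finset.sum_eq_zero fun y hy => ?_
        obtain ⟨hyN, hyZ⟩ := Finset.mem_sdiff.1 hy
        have hne : y ≠ i := fun h => hyZ (h ▸ hi)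
        rw [AG9b_cart_zero hne (by rw [hs]; exact hZsep i hi y hyN hyZ)]
        simp
      rw [h0, zero_add]
      refine Finset.sum_congr rfl fun y _ => ?_
      rw [AG9b_cart_comm hs y i, mul_comm]
    have e4 : ∑ y ∈ A, (m' y : ℚ) * (cart a y i : ℚ) = ∑ y ∈ M', (m' y : ℚ) * (cart a y i : ℚ) := by
      refine (Finset.sum_subset (Finset.filter_subset _ _) fun y hy hy' => ?_).symm
      have : m' y = 0 := by
        by_contra h
        exact hy' (Finset.mem_filter.2 ⟨hy, h⟩)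
      rw [this]; simp
    have e5 : ∑ y ∈ M', u y * (cart a y i : ℚ) - ∑ y ∈ M', (m' y : ℚ) * (cart a y i : ℚ) =
        ∑ y ∈ M', ((m' y : ℚ) - q y) * (a y i : ℚ) := by
      rw [← Finset.sum_sub_distrib]
      refine Finset.sum_congr rfl fun y hy => ?_
      have hyi : y ≠ i := fun h => hiM (h ▸ hy)
      have hyx : y ≠ x := fun h => hxA (h ▸ (Finset.mem_filter.1 hy).1)
      rw [AG9b_cart_ne hyi, hu]
      simp only
      rw [if_neg hyx]
      push_cast
      ring
    rw [e1, e2, e3, e4, hb]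
    simp only
    rw [← e5]
    ring
  have hsol : ∀ i ∈ Z, solN a Z (fun i => E i + AG9b_G a A U1 U2 q m' i) i =
      u i + solN a Z b i := by
    intro i hi
    rw [solN_congr hs hZfin _ (fun j => cqN a Z u j + b j) key, solN_add hs hZfin,
      solN_cqN hs hZfin u i hi]
  have hb0 : ∀ i ∈ Z, 0 ≤ b i := by
    intro i hi
    refine add_nonneg (hE i (hZR hi)) (Finset.sum_nonneg fun y hy => ?_)
    exact mul_nonneg (hMpos y hy).le (Nat.cast_nonneg _)
  have hb1 : ∃ i ∈ Z, b i ≠ 0 := by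
    obtain ⟨y, hy, z, hz, hyz⟩ := comps_adj_set hs hc hM'R hMne Z hZ
    refine ⟨y, hy, ne_of_gt ?_⟩
    have h1 : ((m' z : ℚ) - q z) * (a z y : ℚ) ≤ ∑ y' ∈ M', ((m' y' : ℚ) - q y') * (a y' y : ℚ) :=
      Finset.single_le_sum (f := fun y' => ((m' y' : ℚ) - q y') * (a y' y : ℚ))
        (fun y' hy' => mul_nonneg (hMpos y' hy').le (Nat.cast_nonneg _)) hz
    have h2 : 0 < ((m' z : ℚ) - q z) * (a z y : ℚ) := by
      refine mul_pos (hMpos z hz) ?_
      exact_mod_cast hyz
    have h3 := hE y (hZR hy)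
    rw [hb]
    simp only
    linarith
  have hpos := solN_pos hs hZfin hZc b hb0 hb1
  intro i hi
  rw [hsol i hi]
  have hu0 : 0 ≤ u i := by
    rw [hu]
    simp only
    split_ifs
    · exact le_rfl
    · exact (hq i (hZR hi)).le
  have := hpos i hi
  linarith

/-- the term after the first step. -/
private theorem AG9b_eq (a : I → I → ℕ) (R A U1 U2 : Finset I) (x : I) (hAR : A ∪ U1 ∪ U2 = R.erase x)
    (hx : x ∈ R) (hA1 : Disjoint A U1) (hA2 : Disjoint A U2) (h12 : Disjoint U1 U2) (f : ℕ)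
    (q : I → ℚ) (m' : I → ℕ) (hm0 : ∀ y, y ∉ A → m' y = 0) (v : I → ℚ)
    (hv : ∀ i, v i = if i = x then -q x else 0) (T : Trm I) :
    (blkT a U1 f (f - 1) q (blkT a U2 f (f + 1) q
      (rawT a A f q m' (T.col x (sy x (f - 1)))))).etaM a (fun _ => f) v =
      tauT a U2 f q (rawT a (R \ U2) f q m' T) := by
  have hxe : x ∉ A ∪ U1 ∪ U2 := by rw [hAR]; exact Finset.notMem_erase x R
  have hxA : x ∉ A := fun h => hxe (by simp [h])
  have hxU1 : x ∉ U1 := fun h => hxe (by simp [h])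
  have hxU2 : x ∉ U2 := fun h => hxe (by simp [h])
  have hdA1 := Finset.disjoint_left.1 hA1
  have hdA2 := Finset.disjoint_left.1 hA2
  have hd12 := Finset.disjoint_left.1 h12
  have hmem : ∀ i, i ∈ R \ U2 ↔ i = x ∨ i ∈ A ∨ i ∈ U1 := by
    intro i
    have h1 : i ∈ A ∪ U1 ∪ U2 ↔ i ∈ R.erase x := by rw [hAR]
    simp only [Finset.mem_union, Finset.mem_erase] at h1
    rw [Finset.mem_sdiff]
    constructor
    · rintro ⟨hi, hi2⟩
      by_cases hix : i = x
      · exact Or.inl hix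
      · have := h1.2 ⟨hix, hi⟩
        tauto
    · rintro (rfl | hi | hi)
      · exact ⟨hx, hxU2⟩
      · exact ⟨(h1.1 (by tauto)).2, fun h => hdA2 hi h⟩
      · exact ⟨(h1.1 (by tauto)).2, fun h => hd12 hi h⟩
  -- the insertion vectors
  have hvec : ∀ i, (if i ∈ A then (m' i : ℚ) - q i else 0) + (-resQ U2 q i) + (-resQ U1 q i) + v i
      = (if i ∈ R \ U2 then (m' i : ℚ) - q i else 0) + (-resQ U2 q i) := by
    intro i
    rw [hv i]
    unfold resQ
    by_cases hix : i = x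
    · subst hix
      rw [if_neg hxA, if_neg hxU2, if_neg hxU1, if_pos rfl, if_pos ((hmem i).2 (Or.inl rfl)),
        hm0 i hxA]
      simp
    · rw [if_neg hix]
      by_cases hiA : i ∈ A
      · rw [if_pos hiA, if_neg (fun h => hdA2 hiA h), if_neg (fun h => hdA1 hiA h),
          if_pos ((hmem i).2 (Or.inr (Or.inl hiA)))]
        ring
      · by_cases hi1 : i ∈ U1
        · rw [if_neg hiA, if_neg (fun h => hd12 hi1 h), if_pos hi1,
            if_pos ((hmem i).2 (Or.inr (Or.inr hi1))), hm0 i hiA]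
          simp
        · have hni : i ∉ R \ U2 := by
            rw [hmem]; tauto
          rw [if_neg hiA, if_neg hi1, if_neg hni]
          ring
  apply Trm.ext
  · funext i
    show T.γ i - (f : ℚ) * (if i ∈ A then (m' i : ℚ) - q i else 0) - (f : ℚ) * (-resQ U2 q i) -
      (f : ℚ) * (-resQ U1 q i) - (f : ℚ) * v i =
      T.γ i - (f : ℚ) * (if i ∈ R \ U2 then (m' i : ℚ) - q i else 0) - (f : ℚ) * (-resQ U2 q i)
    have := hvec i
    linear_combination (-(f : ℚ)) * this
  · show T.E - ∑ i, (if i ∈ A then (m' i : ℚ) - q i else 0) • cE a i f -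
      ∑ i, (-resQ U2 q i) • cE a i f - ∑ i, (-resQ U1 q i) • cE a i f - ∑ i, v i • cE a i f =
      T.E - ∑ i, (if i ∈ R \ U2 then (m' i : ℚ) - q i else 0) • cE a i f -
      ∑ i, (-resQ U2 q i) • cE a i f
    have h1 : ∑ i, (if i ∈ A then (m' i : ℚ) - q i else 0) • cE a i f +
      ∑ i, (-resQ U2 q i) • cE a i f + ∑ i, (-resQ U1 q i) • cE a i f + ∑ i, v i • cE a i f =
      ∑ i, (if i ∈ R \ U2 then (m' i : ℚ) - q i else 0) • cE a i f +
      ∑ i, (-resQ U2 q i) • cE a i f := by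
      rw [← Finset.sum_add_distrib, ← Finset.sum_add_distrib, ← Finset.sum_add_distrib,
        ← Finset.sum_add_distrib]
      refine Finset.sum_congr rfl fun i _ => ?_
      rw [← add_smul, ← add_smul, ← add_smul, ← add_smul, hvec i]
    rw [sub_sub, sub_sub, sub_sub, sub_sub, ← add_assoc, ← add_assoc]
    rw [← h1]
  · funext j
    show (if j ∈ U1 then sy j (f - 1) else if j ∈ U2 then sy j (f + 1) else
      if j ∈ A then (if m' j = 0 then sy j (f - 1) else cE a j f) else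
        Function.update T.Λ x (sy x (f - 1)) j) =
      (if j ∈ U2 then sy j (f + 1) else if j ∈ R \ U2 then
        (if m' j = 0 then sy j (f - 1) else cE a j f) else T.Λ j)
    by_cases hjx : j = x
    · subst hjx
      rw [if_neg hxU1, if_neg hxU2, if_neg hxA, Function.update_self, if_neg hxU2,
        if_pos ((hmem j).2 (Or.inl rfl)), if_pos (hm0 j hxA)]
    · rw [Function.update_of_ne hjx]
      by_cases hj1 : j ∈ U1
      · have hjA : j ∉ A := fun h => hdA1 h hj1
        rw [if_pos hj1, if_neg (fun h => hd12 hj1 h), if_pos ((hmem j).2 (Or.inr (Or.inr hj1))),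
          if_pos (hm0 j hjA)]
      · rw [if_neg hj1]
        by_cases hj2 : j ∈ U2
        · rw [if_pos hj2, if_pos hj2]
        · rw [if_neg hj2, if_neg hj2]
          by_cases hjA : j ∈ A
          · rw [if_pos hjA, if_pos ((hmem j).2 (Or.inr (Or.inl hjA)))]
          · have hni : j ∉ R \ U2 := by
              rw [hmem]; tauto
            rw [if_neg hjA, if_neg hni]

private theorem AG9b_sgm {R A U1 U2 : Finset I} {x : I} (hAR : A ∪ U1 ∪ U2 = R.erase x)
    (hx : x ∈ R) (hA1 : Disjoint A U1) (hA2 : Disjoint A U2) (h12 : Disjoint U1 U2)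
    (m' m m2 : I → ℕ) (hmx : m x = 0) (hmA : ∀ y ∈ A, m y = m' y) (hm1 : ∀ y ∈ U1, m y = 0)
    (hm2 : ∀ y ∈ U2, m y = m2 y) :
    -((-1 : ℚ) ^ U1.card * sgm A m') * sgm R m = sgm U2 m2 := by
  have hcard : (R.filter (fun y => m y = 0)).card =
      1 + ((A.filter (fun y => m' y = 0)).card + U1.card +
        (U2.filter (fun y => m2 y = 0)).card) := by
    rw [Finset.card_filter, ← Finset.add_sum_erase R _ hx, if_pos hmx,
      AG9b_sum3 hAR hA1 hA2 h12, Finset.card_filter, Finset.card_filter]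
    congr 1
    congr 1
    · congr 1
      · exact Finset.sum_congr rfl fun y hy => by rw [hmA y hy]
      · rw [Finset.card_eq_sum_ones]
        exact Finset.sum_congr rfl fun y hy => by rw [if_pos (hm1 y hy)]
    · exact Finset.sum_congr rfl fun y hy => by rw [hm2 y hy]
  unfold sgm
  rw [hcard, pow_add, pow_add, pow_add, pow_one]
  have h1 : ((-1 : ℚ) ^ U1.card) * (-1) ^ U1.card = 1 := by
    rw [← mul_pow]; norm_num
  have h2 : ((-1 : ℚ) ^ (A.filter (fun y => m' y = 0)).card) *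
      (-1) ^ (A.filter (fun y => m' y = 0)).card = 1 := by
    rw [← mul_pow]; norm_num
  linear_combination ((-1 : ℚ) ^ (U2.filter (fun y => m2 y = 0)).card) * h1 +
    ((-1 : ℚ) ^ (U2.filter (fun y => m2 y = 0)).card) * (((-1 : ℚ) ^ U1.card) * (-1) ^ U1.card) * h2

private theorem AG9b_mem_mbox {R : Finset I} {B : ℕ} {m : I → ℕ} :
    m ∈ mbox R B ↔ (∀ y ∈ R, m y ≤ B) ∧ ∀ y, y ∉ R → m y = 0 := by
  unfold mbox
  rw [Fintype.mem_piFinset]
  constructor
  · intro h
    constructor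
    · intro y hy
      have := h y
      rw [if_pos hy, Finset.mem_range] at this
      omega
    · intro y hy
      have := h y
      rw [if_neg hy, Finset.mem_singleton] at this
      exact this
  · rintro ⟨h1, h2⟩ y
    by_cases hy : y ∈ R
    · rw [if_pos hy, Finset.mem_range]
      have := h1 y hy
      omega
    · rw [if_neg hy, Finset.mem_singleton]
      exact h2 y hy

open Classical in
private theorem AG9b_reindex (a : I → I → ℕ) (R A U1 U2 : Finset I) (x : I)
    (hAR : A ∪ U1 ∪ U2 = R.erase x) (hx : x ∈ R) (hA1 : Disjoint A U1) (hA2 : Disjoint A U2)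
    (h12 : Disjoint U1 U2) (f : ℕ) (q : I → ℚ) (m' : I → ℕ) (hm0 : ∀ y, y ∉ A → m' y = 0)
    (T : Trm I) (B : ℕ) (hBm : ∀ y, m' y ≤ B) :
    ∑ m ∈ mbox U2 B, sgm U2 m * TV a (rawT a U2 f q m (rawT a (R \ U2) f q m' T)) =
      -((-1 : ℚ) ^ U1.card * sgm A m') *
      ∑ m ∈ (mbox R B).filter (fun m => m x = 0 ∧ (∀ y ∈ U1, m y = 0) ∧ (∀ y ∈ A, m y = m' y)),
        sgm R m * TV a (rawT a R f q m T) := by
  have hxe : x ∉ A ∪ U1 ∪ U2 := by rw [hAR]; exact Finset.notMem_erase x R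
  have hxA : x ∉ A := fun h => hxe (by simp [h])
  have hxU1 : x ∉ U1 := fun h => hxe (by simp [h])
  have hxU2 : x ∉ U2 := fun h => hxe (by simp [h])
  have hdA1 := Finset.disjoint_left.1 hA1
  have hdA2 := Finset.disjoint_left.1 hA2
  have hd12 := Finset.disjoint_left.1 h12
  have hmem : ∀ i, i ∈ R ↔ i = x ∨ i ∈ A ∨ i ∈ U1 ∨ i ∈ U2 := by
    intro i
    have h1 : i ∈ A ∪ U1 ∪ U2 ↔ i ∈ R.erase x := by rw [hAR]
    simp only [Finset.mem_union, Finset.mem_erase] at h1
    constructor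
    · intro hi
      by_cases hix : i = x
      · exact Or.inl hix
      · have := h1.2 ⟨hix, hi⟩
        tauto
    · rintro (rfl | hi | hi | hi)
      · exact hx
      · exact (h1.1 (by tauto)).2
      · exact (h1.1 (by tauto)).2
      · exact (h1.1 (by tauto)).2
  have hU2R : U2 ⊆ R := fun y hy => (hmem y).2 (by tauto)
  rw [Finset.mul_sum]
  refine Finset.sum_nbij' (fun m2 i => if i ∈ U2 then m2 i else m' i)
    (fun m i => if i ∈ U2 then m i else 0) ?_ ?_ ?_ ?_ ?_
  · intro m2 hm2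
    rw [AG9b_mem_mbox] at hm2
    rw [Finset.mem_filter, AG9b_mem_mbox]
    refine ⟨⟨?_, ?_⟩, ?_, ?_, ?_⟩
    · intro y hy
      by_cases h2 : y ∈ U2
      · simp only [if_pos h2]; exact hm2.1 y h2
      · simp only [if_neg h2]; exact hBm y
    · intro y hy
      have h2 : y ∉ U2 := fun h => hy (hU2R h)
      simp only [if_neg h2]
      exact hm0 y fun h => hy ((hmem y).2 (by tauto))
    · simp only [if_neg hxU2]; exact hm0 x hxA
    · intro y hy
      simp only [if_neg (fun h => hd12 hy h)]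
      exact hm0 y fun h => hdA1 h hy
    · intro y hy
      simp only [if_neg (fun h => hdA2 hy h)]
  · intro m hm
    rw [Finset.mem_filter, AG9b_mem_mbox] at hm
    rw [AG9b_mem_mbox]
    constructor
    · intro y hy
      simp only [if_pos hy]
      exact hm.1.1 y (hU2R hy)
    · intro y hy
      simp only [if_neg hy]
  · intro m2 hm2
    rw [AG9b_mem_mbox] at hm2
    funext i
    by_cases h2 : i ∈ U2
    · simp only [if_pos h2]
    · simp only [if_neg h2]
      exact (hm2.2 i h2).symm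
  · intro m hm
    rw [Finset.mem_filter, AG9b_mem_mbox] at hm
    obtain ⟨⟨-, h0⟩, hmx, hm1, hmA⟩ := hm
    funext i
    by_cases h2 : i ∈ U2
    · simp only [if_pos h2]
    · simp only [if_neg h2]
      by_cases hiA : i ∈ A
      · exact (hmA i hiA).symm
      · rw [hm0 i hiA]
        by_cases hiR : i ∈ R
        · rcases (hmem i).1 hiR with h | h | h | h
          · rw [h, hmx]
          · exact absurd h hiA
          · exact (hm1 i h).symm
          · exact absurd h h2
        · exact (h0 i hiR).symm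
  · intro m2 hm2
    have hsg := AG9b_sgm hAR hx hA1 hA2 h12 m' (fun i => if i ∈ U2 then m2 i else m' i) m2
      (by simp only [if_neg hxU2]; exact hm0 x hxA)
      (fun y hy => by simp only [if_neg (fun h => hdA2 hy h)])
      (fun y hy => by
        simp only [if_neg (fun h => hd12 hy h)]
        exact hm0 y fun h => hdA1 h hy)
      (fun y hy => by simp only [if_pos hy])
    have hraw : rawT a U2 f q m2 (rawT a (R \ U2) f q m' T) =
        rawT a R f q (fun i => if i ∈ U2 then m2 i else m' i) T := by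
      have hdis : Disjoint U2 (R \ U2) := Finset.disjoint_sdiff
      have hun : U2 ∪ (R \ U2) = R := Finset.union_sdiff_of_subset hU2R
      conv_rhs => rw [← hun]
      rw [rawT_union a U2 (R \ U2) hdis,
        rawT_congr a (R \ U2) f q q (fun i => if i ∈ U2 then m2 i else m' i) m' (fun _ _ => rfl)
          (fun y hy => by simp only [if_neg (Finset.mem_sdiff.1 hy).2]),
        rawT_congr a U2 f q q (fun i => if i ∈ U2 then m2 i else m' i) m2 (fun _ _ => rfl)
          (fun y hy => by simp only [if_pos hy])]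
    rw [hraw, ← mul_assoc, hsg]

open Classical in
theorem star_rep (a : I → I → ℕ) (hs : ∀ i j, a i j = a j i) (R : Finset I) (hR : FinT a R)
    (hc : ConnS a R) (q : I → ℚ) (hq : QOk a R q) (x : I) (hx : x ∈ R) (hz : IsZ (q x))
    (A U1 U2 : Finset I) (hAR : A ∪ U1 ∪ U2 = R.erase x) (hA1 : Sep a A U1) (hA2 : Sep a A U2)
    (h12 : Sep a U1 U2) (hAc : ConnS a A) (f : ℕ) (hf : 1 ≤ f) (m' : I → ℕ)
    (hm0 : ∀ y, y ∉ A → m' y = 0)
    (hgood : ∀ y ∈ A, m' y ≠ 0 → q y < m' y) (hne : ∃ y ∈ A, m' y ≠ 0) (T : Trm I)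
    (hT : RReg R T) (B : ℕ) (hB : bnd R f q T ≤ B) (hBm : ∀ y, m' y ≤ B) :
    TV a (blkT a U1 f (f - 1) q (blkT a U2 f (f + 1) q
      (rawT a A f q m' (T.col x (sy x (f - 1)))))) =
      -((-1 : ℚ) ^ U1.card * sgm A m') *
      ∑ m ∈ (mbox R B).filter (fun m => m x = 0 ∧ (∀ y ∈ U1, m y = 0) ∧ (∀ y ∈ A, m y = m' y)),
        sgm R m * TV a (rawT a R f q m T) := by
  -- basic facts
  have hxe : x ∉ A ∪ U1 ∪ U2 := by rw [hAR]; exact Finset.notMem_erase x R
  have hxA : x ∉ A := fun h => hxe (by simp [h])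
  have hxU1 : x ∉ U1 := fun h => hxe (by simp [h])
  have hxU2 : x ∉ U2 := fun h => hxe (by simp [h])
  have hmem : ∀ i, i ∈ R ↔ i = x ∨ i ∈ A ∨ i ∈ U1 ∨ i ∈ U2 := by
    intro i
    have h1 : i ∈ A ∪ U1 ∪ U2 ↔ i ∈ R.erase x := by rw [hAR]
    simp only [Finset.mem_union, Finset.mem_erase] at h1
    constructor
    · intro hi
      by_cases hix : i = x
      · exact Or.inl hix
      · have := h1.2 ⟨hix, hi⟩
        tauto
    · rintro (rfl | hi | hi | hi)
      · exact hx
      · exact (h1.1 (by tauto)).2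
      · exact (h1.1 (by tauto)).2
      · exact (h1.1 (by tauto)).2
  have hU2R : U2 ⊆ R := fun y hy => (hmem y).2 (by tauto)
  have hdA1 := Finset.disjoint_left.1 hA1.1
  have hdA2 := Finset.disjoint_left.1 hA2.1
  have hd12 := Finset.disjoint_left.1 h12.1
  have hmx : m' x = 0 := hm0 x hxA
  -- positivity of q
  have hqpos : ∀ i ∈ R, 0 < q i := by
    refine FinT.pos_of_conn hs hR hc q ?_ ?_
    · intro i hi
      obtain ⟨n, hn, he⟩ := hq i hi
      rw [he]; positivity
    · refine ⟨x, hx, ?_⟩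
      obtain ⟨n, hn, he⟩ := hq x hx
      rw [he]
      have : (0 : ℚ) < n := by exact_mod_cast hn
      exact this.ne'
  obtain ⟨nx, hnx⟩ := hz
  -- the component of `x`
  set M' := A.filter (fun y => m' y ≠ 0) with hM'
  have hxN : x ∈ R \ M' := Finset.mem_sdiff.2 ⟨hx, fun h => hxA (Finset.mem_filter.1 h).1⟩
  obtain ⟨Z, hZ, hxZ⟩ := comps_cover hs x hxN
  have hZN := comps_subset hZ
  have hZR : Z ⊆ R := hZN.trans Finset.sdiff_subset
  have hZfin : FinT a Z := hR.mono hZR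
  -- exponents
  have hXE : ∀ i l, (blkT a U1 f (f - 1) q (blkT a U2 f (f + 1) q
      (rawT a A f q m' (T.col x (sy x (f - 1)))))).E (i, l) =
      T.E (i, l) + if l = f then AG9b_G a A U1 U2 q m' i else 0 := by
    intro i l
    rw [blkT_E, blkT_E, rawT_E]
    show T.E (i, l) - _ + _ + _ = _
    by_cases hl : l = f
    · rw [if_pos hl, if_pos hl, if_pos hl, if_pos hl]
      unfold AG9b_G
      ring
    · rw [if_neg hl, if_neg hl, if_neg hl, if_neg hl]
      ring
  have hXEf : ∀ i, (blkT a U1 f (f - 1) q (blkT a U2 f (f + 1) q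
      (rawT a A f q m' (T.col x (sy x (f - 1)))))).E (i, f) =
      T.E (i, f) + AG9b_G a A U1 U2 q m' i := by
    intro i
    rw [hXE, if_pos rfl]
  have hXEl : ∀ i l, l ≠ f → (blkT a U1 f (f - 1) q (blkT a U2 f (f + 1) q
      (rawT a A f q m' (T.col x (sy x (f - 1)))))).E (i, l) = T.E (i, l) := by
    intro i l hl
    rw [hXE, if_neg hl, add_zero]
  have hGR : ∀ i, AG9b_G a A U1 U2 q m' i =
      cqN a R q i - q x * (cart a x i : ℚ) - ∑ y ∈ A, (m' y : ℚ) * (cart a y i : ℚ) := by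
    intro i
    rw [AG9b_G_eq a hAR hA1.1 hA2.1 h12.1]
    have : cqN a R q i = q x * (cart a x i : ℚ) + ∑ y ∈ R.erase x, q y * (cart a y i : ℚ) := by
      unfold cqN
      rw [← Finset.add_sum_erase R _ hx, AG9b_cart_comm hs i x, mul_comm]
      congr 1
      refine Finset.sum_congr rfl fun y _ => ?_
      rw [AG9b_cart_comm hs i y, mul_comm]
    rw [this]
    ring
  -- first step
  have hstep1 : TV a (blkT a U1 f (f - 1) q (blkT a U2 f (f + 1) q
      (rawT a A f q m' (T.col x (sy x (f - 1)))))) =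
      TV a ((blkT a U1 f (f - 1) q (blkT a U2 f (f + 1) q
      (rawT a A f q m' (T.col x (sy x (f - 1)))))).etaM a (fun _ => f)
        (fun i => (((if i = x then -nx else 0 : ℤ) : ℤ) : ℚ))) := by
    have hsolpos : ∀ i ∈ Z, 0 < solN a Z (fun i => (blkT a U1 f (f - 1) q (blkT a U2 f (f + 1) q
        (rawT a A f q m' (T.col x (sy x (f - 1)))))).E (i, f)) i := by
      have h := AG9b_pos a hs R hR hc q hqpos x A U1 U2 hAR hA1.1 hA2.1 h12.1 m' hgood hne
        (fun i => T.E (i, f)) (fun y hy => by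
          obtain ⟨n, hn⟩ := hT.nat y hy f hf
          rw [hn]
          positivity) Z hZ
      intro i hi
      simp only [hXEf]
      exact h i hi
    refine TV_rep a hs Z hZfin (fun _ => f) (fun z => if z ∈ U2 then f + 1 else f - 1)
      (fun _ _ => hf) (fun _ _ _ _ _ => rfl) ?_ _ ?_ hsolpos (fun i => if i = x then -nx else 0)
      ?_ ?_
    · intro z hz
      by_cases h2 : z ∈ U2
      · simp only [if_pos h2]; exact Or.inl rfl
      · simp only [if_neg h2]; exact Or.inr (by omega)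
    · intro z hz
      have hzR := hZR hz
      refine ⟨?_, ?_, ?_⟩
      · intro l hl hlf
        rw [hXEl z l hlf]
        exact hT.nat z hzR l hl
      · rw [hXEf, hGR]
        obtain ⟨n1, h1⟩ := hT.nat z hzR f hf
        obtain ⟨n2, -, h2⟩ := hq z hzR
        rw [h1, h2, hnx]
        refine ⟨n1 + (n2 - nx * cart a x z - ∑ y ∈ A, (m' y : ℤ) * cart a y z), ?_⟩
        push_cast
        ring
      · intro j l hl hj
        have hΛ : (if j ∈ U1 then sy j (f - 1) else if j ∈ U2 then sy j (f + 1) else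
            if j ∈ A then (if m' j = 0 then sy j (f - 1) else cE a j f) else
            Function.update T.Λ x (sy x (f - 1)) j) (z, l) ≠ 0 := hj
        by_cases hj1 : j ∈ U1
        · rw [if_pos hj1] at hΛ
          obtain ⟨rfl, rfl⟩ := AG9b_sy_ne hΛ
          left
          simp only [if_neg (fun h => hd12 hj1 h)]
        · rw [if_neg hj1] at hΛ
          by_cases hj2 : j ∈ U2
          · rw [if_pos hj2] at hΛ
            obtain ⟨rfl, rfl⟩ := AG9b_sy_ne hΛ
            left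
            simp only [if_pos hj2]
          · rw [if_neg hj2] at hΛ
            by_cases hjA : j ∈ A
            · rw [if_pos hjA] at hΛ
              by_cases hjm : m' j = 0
              · rw [if_pos hjm] at hΛ
                obtain ⟨rfl, rfl⟩ := AG9b_sy_ne hΛ
                left
                simp only [if_neg hj2]
              · rw [if_neg hjm] at hΛ
                exact Or.inr (Or.inl (AG9b_cE_ne a hΛ))
            · rw [if_neg hjA] at hΛ
              by_cases hjx : j = x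
              · subst hjx
                rw [Function.update_self] at hΛ
                obtain ⟨rfl, rfl⟩ := AG9b_sy_ne hΛ
                left
                simp only [if_neg hj2]
              · rw [Function.update_of_ne hjx] at hΛ
                have hjR : j ∉ R := by
                  rw [hmem]; tauto
                have h1 := hT.col z hzR j hjR l hl hΛ
                by_cases hlf : l = f
                · exact Or.inr (Or.inl hlf)
                · right; right
                  rw [hXEl z l hlf]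
                  exact h1
    · intro i hi
      have : i ≠ x := fun h => hi (h ▸ hxZ)
      simp only [if_neg this]
    · intro z hz
      by_cases hzx : z = x
      · subst hzx
        simp only [if_pos]
        have h1 := hsolpos z hz
        have h2 := hqpos z hx
        push_cast
        rw [← hnx]
        linarith
      · simp only [if_neg hzx]
        push_cast
        exact hsolpos z hz
  have hstep2 := AG9b_eq a R A U1 U2 x hAR hx hA1.1 hA2.1 h12.1 f q m' hm0
    (fun i => (((if i = x then -nx else 0 : ℤ) : ℤ) : ℚ)) (fun i => by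
      by_cases hix : i = x
      · simp only [if_pos hix]; rw [hnx]; push_cast; ring
      · simp only [if_neg hix]; push_cast; ring) T
  rw [hstep1, hstep2]
  -- second step
  have hYE : ∀ i l, (rawT a (R \ U2) f q m' T).E (i, l) = T.E (i, l) -
      if l = f then ∑ y ∈ R \ U2, ((m' y : ℚ) - q y) * (cart a y i : ℚ) else 0 :=
    fun i l => rawT_E a (R \ U2) f q m' T i l
  rw [TV_step_gen a hs U2 (hR.mono hU2R) f hf q (rawT a (R \ U2) f q m' T) ?_ ?_ ?_ B ?_]
  · exact AG9b_reindex a R A U1 U2 x hAR hx hA1.1 hA2.1 h12.1 f q m' hm0 T B hBm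
  · intro z hz l hl hlf
    rw [hYE, if_neg hlf, sub_zero]
    exact hT.nat z (hU2R hz) l hl
  · intro z hz
    have hzR := hU2R hz
    obtain ⟨n1, h1⟩ := hT.nat z hzR f hf
    obtain ⟨n2, hn2, h2⟩ := hq z hzR
    refine ⟨n1 + n2, by omega, ?_⟩
    rw [hYE, if_pos rfl, h1]
    push_cast
    rw [← h2]
    -- `cqN R = cqN U2 + rest`
    have e1 : cqN a R q z = ∑ y ∈ R \ U2, (cart a z y : ℚ) * q y + cqN a U2 q z := by
      unfold cqN
      exact (Finset.sum_sdiff hU2R).symm
    have e2 : ∑ y ∈ R \ U2, ((m' y : ℚ) - q y) * (cart a y z : ℚ) =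
        -∑ y ∈ R \ U2, (cart a z y : ℚ) * q y := by
      rw [← Finset.sum_neg_distrib]
      refine Finset.sum_congr rfl fun y hy => ?_
      rw [AG9b_cart_comm hs z y]
      by_cases hyA : y ∈ A
      · have hne' : y ≠ z := fun h => hdA2 hyA (h ▸ hz)
        rw [AG9b_cart_zero hne' (hA2.2 y hyA z hz)]
        simp
      · rw [hm0 y hyA]
        push_cast
        ring
    rw [e1, e2]
    ring
  · intro z hz j hj l hl hΛ
    have hzR := hU2R hz
    have hΛ' : (if j ∈ R \ U2 then (if m' j = 0 then sy j (f - 1) else cE a j f) else T.Λ j)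
      (z, l) ≠ 0 := hΛ
    by_cases hjR : j ∈ R
    · rw [if_pos (Finset.mem_sdiff.2 ⟨hjR, hj⟩)] at hΛ'
      by_cases hjm : m' j = 0
      · rw [if_pos hjm] at hΛ'
        exact absurd ((AG9b_sy_ne hΛ').1 ▸ hz) hj
      · rw [if_neg hjm] at hΛ'
        exact Or.inl (AG9b_cE_ne a hΛ')
    · rw [if_neg (fun h => hjR (Finset.mem_sdiff.1 h).1)] at hΛ'
      have h1 := hT.col z hzR j hjR l hl hΛ'
      by_cases hlf : l = f
      · exact Or.inl hlf
      · right
        rw [hYE, if_neg hlf, sub_zero]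
        exact h1
  · refine le_trans ?_ hB
    unfold bnd
    have : ∀ i ∈ U2, (rawT a (R \ U2) f q m' T).γ i = T.γ i := by
      intro i hi
      show T.γ i - (f : ℚ) * (if i ∈ R \ U2 then (m' i : ℚ) - q i else 0) = T.γ i
      rw [if_neg (fun h => (Finset.mem_sdiff.1 h).2 hi)]
      ring
    rw [Finset.sum_congr rfl (fun i hi => by rw [this i hi])]
    exact Finset.sum_le_sum_of_subset hU2R

end

end Pool.Agent.H27.KAC

end
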