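import Pool.Agent.H16.TKA.M12
import Pool.Agent.H16.TKA.M14
import Pool.Agent.H16.TKA.M17
import Pool.Agent.H16.TKA.M19

/-! The parts of this file: H27.KAC.PII_KK, H27.KAC.PII_Shift, H27.KAC.PII_Step, H27.KAC.PII_Reg, H27.KAC.PII_Gam, H27.KAC.PII_QT, H27.KAC.PII_Form, H27.KAC.PII_Rat, H40.KADE.Br, H40.KADE.GDef, H40.KADE.GTop, H41.KA.AG12, H46.AH.AH6, H46.AH.AH12, H46.AH.AH9, H46.KA.Bridge, H88.KA.AF2, H88.KA.AF3, H88.KA.CN2a, H88.KA.CN2b, H88.KA.CN2c, H88.KA.CN3, H40.NUM.N1. -/

section

/-!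
Project KAC, part II.3: the field `KK` of the Laurent series in `q - 1`, and the transfer of identities
between rational functions of the numbers `q` and the element `qK` of `KK`.
-/

set_option autoImplicit false

namespace Pool.Agent.H27.KAC

open scoped BigOperators
open Polynomial

/-- The field of fractions of the power series in `ε = q - 1`. -/
abbrev KK : Type := FractionRing (PowerSeries ℚ)

/-- The element `q = 1 + ε`. -/
noncomputable def qK : KK := algebraMap (PowerSeries ℚ) KK (1 + PowerSeries.X)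

/-- The embedding of `ℚ⟦ε⟧`. -/
noncomputable def ιQ : PowerSeries ℚ →+* KK := algebraMap (PowerSeries ℚ) KK

/-- The embedding of `ℤ⟦ε⟧`. -/
noncomputable def ιZ : PowerSeries ℤ →+* KK := ιQ.comp (PowerSeries.map (Int.castRingHom ℚ))

theorem ιQ_inj : Function.Injective ιQ := IsFractionRing.injective (PowerSeries ℚ) KK

theorem ιZ_inj : Function.Injective ιZ := by
  intro f g h
  have h1 : PowerSeries.map (Int.castRingHom ℚ) f = PowerSeries.map (Int.castRingHom ℚ) g :=
    ιQ_inj h
  ext n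
  have h2 := congrArg (PowerSeries.coeff n) h1
  rw [PowerSeries.coeff_map, PowerSeries.coeff_map] at h2
  simpa using h2

/-- `PowerSeries.isUnit_iff_constantCoeff`. -/
theorem exists_unit : ∃ u : (PowerSeries ℤ)ˣ, (u : PowerSeries ℤ) = 1 + PowerSeries.X := by
  have h : IsUnit (1 + PowerSeries.X : PowerSeries ℤ) := by
    rw [PowerSeries.isUnit_iff_constantCoeff]
    simp
  exact ⟨h.unit, h.unit_spec⟩

theorem KK_aeval_qK (P : ℚ[X]) :
    aeval qK P = ιQ ((P.comp (1 + X) : ℚ[X]) : PowerSeries ℚ) := by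
  have h : (aeval qK : ℚ[X] →ₐ[ℚ] KK).toRingHom = ιQ.comp
      ((Polynomial.coeToPowerSeries.ringHom (R := ℚ)).comp (Polynomial.compRingHom (1 + X))) := by
    apply Polynomial.ringHom_ext
    · intro a
      simp only [AlgHom.toRingHom_eq_coe, RingHom.coe_coe, aeval_C, RingHom.comp_apply,
        coe_compRingHom_apply, C_comp, Polynomial.coeToPowerSeries.ringHom_apply,
        Polynomial.coe_C]
      rfl
    · simp only [AlgHom.toRingHom_eq_coe, RingHom.coe_coe, aeval_X, RingHom.comp_apply,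
        coe_compRingHom_apply, X_comp, Polynomial.coeToPowerSeries.ringHom_apply,
        Polynomial.coe_add, Polynomial.coe_one, Polynomial.coe_X]
      rfl
  exact congrArg (fun f : ℚ[X] →+* KK => f P) h

/-- The polynomial `P (q)` is zero only for `P = 0`: `P (1 + ε)` as a power series is the Taylor shift
`Polynomial.taylor 1 P` (or `P.comp (X + 1)`). -/
theorem aeval_qK_inj {P : ℚ[X]} (h : aeval qK P = 0) : P = 0 := by
  have h1 := KK_aeval_qK P
  have h3 : P.comp (1 + X) = 0 := by
    rw [h1, ← map_zero ιQ] at h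
    have h4 := ιQ_inj h
    exact_mod_cast h4
  have h5 : P = (P.comp (1 + X)).comp (X - 1) := by
    rw [comp_assoc]
    simp
  rw [h5, h3, zero_comp]

theorem qK_pow_ne (j : ℕ) : qK ^ (j + 1) ≠ 1 := by
  intro h
  have h1 : aeval qK (X ^ (j + 1) - 1 : ℚ[X]) = 0 := by
    rw [map_sub, map_pow, aeval_X, h, map_one, sub_self]
  have h2 := aeval_qK_inj h1
  have h3 := congrArg (fun P : ℚ[X] => P.eval 0) h2
  simp at h3

/-- `f`, as a function on the rational numbers `c > 1`, and `g`, as an element of `KK`, are given by the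
same rational function without poles in `(1, ∞)`. -/
def Rel (f : ℚ → ℚ) (g : KK) : Prop :=
  ∃ U W : ℚ[X], (∀ c : ℚ, 1 < c → W.eval c ≠ 0) ∧
    (∀ c : ℚ, 1 < c → f c = U.eval c / W.eval c) ∧ g = aeval qK U / aeval qK W

theorem Rel.poly (P : ℚ[X]) : Rel (fun c => P.eval c) (aeval qK P) :=
  ⟨P, 1, fun c _ => by simp, fun c _ => by simp, by simp⟩

theorem Rel.const (r : ℚ) : Rel (fun _ => r) (algebraMap ℚ KK r) := by
  have h := Rel.poly (C r)
  rw [aeval_C] at h
  simpa using h

theorem Rel.var : Rel (fun c => c) qK := by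
  have h := Rel.poly X
  rw [aeval_X] at h
  simpa using h

theorem Rel.congr {f f' : ℚ → ℚ} {g : KK} (h : Rel f g) (hf : ∀ c, 1 < c → f c = f' c) :
    Rel f' g := by
  obtain ⟨U, W, h1, h2, h3⟩ := h
  exact ⟨U, W, h1, fun c hc => by rw [← hf c hc, h2 c hc], h3⟩

theorem KK_aeval_ne {W : ℚ[X]} (h : ∀ c : ℚ, 1 < c → W.eval c ≠ 0) : aeval qK W ≠ 0 := by
  intro h1
  have h2 := h 2 one_lt_two
  rw [aeval_qK_inj h1, eval_zero] at h2
  exact h2 rfl

theorem Rel.add {f f' : ℚ → ℚ} {g g' : KK} (h : Rel f g) (h' : Rel f' g') :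
    Rel (fun c => f c + f' c) (g + g') := by
  obtain ⟨U, W, h1, h2, rfl⟩ := h
  obtain ⟨U', W', h1', h2', rfl⟩ := h'
  refine ⟨U * W' + W * U', W * W', fun c hc => ?_, fun c hc => ?_, ?_⟩
  · rw [eval_mul]
    exact mul_ne_zero (h1 c hc) (h1' c hc)
  · show f c + f' c = _
    rw [h2 c hc, h2' c hc, div_add_div _ _ (h1 c hc) (h1' c hc), eval_add, eval_mul, eval_mul,
      eval_mul]
  · rw [div_add_div _ _ (KK_aeval_ne h1) (KK_aeval_ne h1'), map_add, map_mul, map_mul, map_mul]

theorem Rel.mul {f f' : ℚ → ℚ} {g g' : KK} (h : Rel f g) (h' : Rel f' g') :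
    Rel (fun c => f c * f' c) (g * g') := by
  obtain ⟨U, W, h1, h2, rfl⟩ := h
  obtain ⟨U', W', h1', h2', rfl⟩ := h'
  refine ⟨U * U', W * W', fun c hc => ?_, fun c hc => ?_, ?_⟩
  · rw [eval_mul]
    exact mul_ne_zero (h1 c hc) (h1' c hc)
  · show f c * f' c = _
    rw [h2 c hc, h2' c hc, div_mul_div_comm, eval_mul, eval_mul]
  · rw [div_mul_div_comm, map_mul, map_mul]

theorem Rel.sub {f f' : ℚ → ℚ} {g g' : KK} (h : Rel f g) (h' : Rel f' g') :
    Rel (fun c => f c - f' c) (g - g') := by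
  have h1 := h.add ((Rel.const (-1)).mul h')
  rw [map_neg, map_one, neg_one_mul, ← sub_eq_add_neg] at h1
  exact h1.congr fun c _ => by ring

theorem Rel.pow {f : ℚ → ℚ} {g : KK} (h : Rel f g) (n : ℕ) : Rel (fun c => f c ^ n) (g ^ n) := by
  induction n with
  | zero =>
    have h1 := Rel.const 1
    rw [map_one] at h1
    rw [pow_zero]
    exact h1.congr fun c _ => (pow_zero _).symm
  | succ n ih =>
    rw [pow_succ]
    exact (ih.mul h).congr fun c _ => (pow_succ _ _).symm

theorem Rel.inv {f : ℚ → ℚ} {g : KK} (h : Rel f g) (hf : ∀ c, 1 < c → f c ≠ 0) :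
    Rel (fun c => (f c)⁻¹) g⁻¹ := by
  obtain ⟨U, W, h1, h2, rfl⟩ := h
  refine ⟨W, U, fun c hc h0 => ?_, fun c hc => ?_, ?_⟩
  · apply hf c hc
    rw [h2 c hc, h0, zero_div]
  · show (f c)⁻¹ = _
    rw [h2 c hc, inv_div]
  · rw [inv_div]

theorem Rel.zpow {f : ℚ → ℚ} {g : KK} (h : Rel f g) (hf : ∀ c, 1 < c → f c ≠ 0) (n : ℤ) :
    Rel (fun c => f c ^ n) (g ^ n) := by
  cases n with
  | ofNat n =>
    rw [Int.ofNat_eq_natCast, zpow_natCast]
    exact (h.pow n).congr fun c _ => (zpow_natCast _ _).symm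
  | negSucc n =>
    rw [zpow_negSucc]
    exact ((h.pow (n + 1)).inv fun c hc => pow_ne_zero _ (hf c hc)).congr fun c _ =>
      (zpow_negSucc _ _).symm

theorem Rel.sum {ι : Type} (s : Finset ι) {f : ι → ℚ → ℚ} {g : ι → KK}
    (h : ∀ i ∈ s, Rel (f i) (g i)) : Rel (fun c => ∑ i ∈ s, f i c) (∑ i ∈ s, g i) := by
  classical
  induction s using Finset.induction_on with
  | empty =>
    have h1 := Rel.const 0
    rw [map_zero] at h1
    rw [Finset.sum_empty]
    exact h1.congr fun c _ => (Finset.sum_empty).symm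
  | insert x s hx ih =>
    rw [Finset.sum_insert hx]
    exact ((h x (Finset.mem_insert_self x s)).add
      (ih fun y hy => h y (Finset.mem_insert_of_mem hy))).congr fun c _ => by
        rw [Finset.sum_insert hx]

theorem Rel.prod {ι : Type} (s : Finset ι) {f : ι → ℚ → ℚ} {g : ι → KK}
    (h : ∀ i ∈ s, Rel (f i) (g i)) : Rel (fun c => ∏ i ∈ s, f i c) (∏ i ∈ s, g i) := by
  classical
  induction s using Finset.induction_on with
  | empty =>
    have h1 := Rel.const 1
    rw [map_one] at h1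
    rw [Finset.prod_empty]
    exact h1.congr fun c _ => (Finset.prod_empty).symm
  | insert x s hx ih =>
    rw [Finset.prod_insert hx]
    exact ((h x (Finset.mem_insert_self x s)).mul
      (ih fun y hy => h y (Finset.mem_insert_of_mem hy))).congr fun c _ => by
        rw [Finset.prod_insert hx]

/-- Two rational functions which agree at all prime numbers agree in `KK`: the polynomial
`U * W' - U' * W` has infinitely many zeros (`Polynomial.eq_zero_of_infinite_isRoot`,
`Nat.infinite_setOf_prime`); the denominators are not zero in `KK` by `aeval_qK_inj`. -/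
theorem Rel.eq {f f' : ℚ → ℚ} {g g' : KK} (h : Rel f g) (h' : Rel f' g')
    (hp : ∀ p : ℕ, p.Prime → f p = f' p) : g = g' := by
  obtain ⟨U, W, h1, h2, rfl⟩ := h
  obtain ⟨U', W', h1', h2', rfl⟩ := h'
  rw [div_eq_div_iff (KK_aeval_ne h1) (KK_aeval_ne h1'), ← map_mul, ← map_mul]
  congr 1
  apply Polynomial.eq_of_infinite_eval_eq
  have h3 : Set.Infinite ((fun n : ℕ => (n : ℚ)) '' {n | Nat.Prime n}) :=
    Nat.infinite_setOfPred_prime.image (Nat.cast_injective.injOn)
  refine h3.mono ?_
  rintro _ ⟨n, hn, rfl⟩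
  have hn1 : (1 : ℚ) < (n : ℚ) := by exact_mod_cast hn.one_lt
  have h4 := hp n hn
  rw [h2 _ hn1, h2' _ hn1, div_eq_div_iff (h1 _ hn1) (h1' _ hn1)] at h4
  show (U * W').eval (n : ℚ) = (U' * W).eval (n : ℚ)
  rw [eval_mul, eval_mul, h4]

variable {I : Type} [DecidableEq I]

/-- The coefficients of the fermionic sum. -/
theorem Rel.cc (A : I → I → ℕ) (m : Prt I →₀ ℕ) :
    Rel (fun c => Pool.Agent.H27.KAC.cc c A m) (Pool.Agent.H27.KAC.cc qK A m) := by
  unfold Pool.Agent.H27.KAC.cc Finsupp.prod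
  have hv : ∀ c : ℚ, 1 < c → c ≠ 0 := fun c hc => by positivity
  refine (Rel.var.zpow hv _).mul (Rel.prod _ fun a _ => Rel.inv ?_ ?_)
  · unfold qpoch
    refine Rel.prod _ fun j _ => Rel.sub ?_ ((Rel.var.inv hv).pow _)
    have h1 := Rel.const 1
    rwa [map_one] at h1
  · intro c hc
    unfold qpoch
    rw [Finset.prod_ne_zero_iff]
    intro j _
    have h1 : (c⁻¹) ^ (j + 1) < 1 := by
      apply pow_lt_one₀ (by positivity) (inv_lt_one_of_one_lt₀ hc) (by omega)
    linarith

theorem Rel.sum_cc (A : I → I → ℕ) (α : I →₀ ℕ) :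
    Rel (fun c => ∑ m ∈ mps α, Pool.Agent.H27.KAC.cc c A m)
      (∑ m ∈ mps α, Pool.Agent.H27.KAC.cc qK A m) :=
  Rel.sum _ fun m _ => Rel.cc A m

end Pool.Agent.H27.KAC

end

section

/-!
Project KAC, part II.3: adding one part to a multipartition.
-/

set_option autoImplicit false

namespace Pool.Agent.H27.KAC

open scoped BigOperators

variable {I : Type}

theorem mwt_zero : mwt (0 : Prt I →₀ ℕ) = 0 := Finsupp.sum_zero_index

theorem mwt_add (m m' : Prt I →₀ ℕ) : mwt (m + m') = mwt m + mwt m' := by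
  classical
  exact Finsupp.sum_add_index' (fun a => zero_smul ℕ (pwt a)) (fun a x y => add_smul x y (pwt a))

theorem mwt_single (a : Prt I) (x : ℕ) : mwt (Finsupp.single a x) = x • pwt a :=
  Finsupp.sum_single_index (zero_smul ℕ (pwt a))

theorem PII_Shift.size_le {m : Prt I →₀ ℕ} {a : Prt I} (h : m a ≠ 0) : a.2 + 1 ≤ mwt m a.1 := by
  have h1 := PII_Def.mul_le m a
  have h2 : 1 ≤ m a := Nat.one_le_iff_ne_zero.2 h
  nlinarith

theorem mwt_eq_zero {m : Prt I →₀ ℕ} : mwt m = 0 ↔ m = 0 := by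
  constructor
  · intro h
    ext a
    by_contra ha
    have h1 := PII_Shift.size_le (m := m) (a := a) ha
    rw [h] at h1
    simp at h1
  · rintro rfl
    exact mwt_zero

/-- `pwt a ≤ mwt m` for each part of `m`; in particular its size is at most `mwt m a.1`. -/
theorem size_le_of_mem {m : Prt I →₀ ℕ} {a : Prt I} (h : m a ≠ 0) : a.2 + 1 ≤ mwt m a.1 :=
  PII_Shift.size_le h

theorem dotm_zero_right (n : Prt I → ℤ) : dotm n 0 = 0 := Finsupp.sum_zero_index

theorem dotm_add (n : Prt I → ℤ) (m m' : Prt I →₀ ℕ) : dotm n (m + m') = dotm n m + dotm n m' := by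
  classical
  refine Finsupp.sum_add_index' (fun a => ?_) (fun a x y => ?_)
  · simp
  · push_cast
    ring

theorem dotm_single (n : Prt I → ℤ) (a : Prt I) (x : ℕ) :
    dotm n (Finsupp.single a x) = n a * x := by
  refine Finsupp.sum_single_index ?_
  simp

theorem dotm_sub_left (n n' : Prt I → ℤ) (m : Prt I →₀ ℕ) :
    dotm (n - n') m = dotm n m - dotm n' m := by
  unfold dotm Finsupp.sum
  rw [← Finset.sum_sub_distrib]
  refine Finset.sum_congr rfl fun a _ => ?_
  dsimp only
  rw [Pi.sub_apply]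
  ring

theorem dotm_pi_single [DecidableEq I] (a : Prt I) (m : Prt I →₀ ℕ) :
    dotm (Pi.single a 1) m = m a := by
  unfold dotm Finsupp.sum
  rw [Finset.sum_eq_single a]
  · simp
  · intro b _ hb
    dsimp only
    rw [Pi.single_eq_of_ne hb, zero_mul]
  · intro ha
    rw [Finsupp.notMem_support_iff.1 ha]
    simp

/-- `n` and `n'` need only agree on the parts of `m`. -/
theorem dotm_congr {n n' : Prt I → ℤ} {m : Prt I →₀ ℕ} (h : ∀ a, m a ≠ 0 → n a = n' a) :
    dotm n m = dotm n' m := by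
  unfold dotm Finsupp.sum
  refine Finset.sum_congr rfl fun a ha => ?_
  dsimp only
  rw [h a (Finsupp.mem_support_iff.1 ha)]

/-- The vector `(j, l) ↦ δ_ij (l + 1)` measures the weight at `i`. -/
theorem dotm_size [DecidableEq I] (i : I) (m : Prt I →₀ ℕ) :
    dotm (fun a => if a.1 = i then ((a.2 + 1 : ℕ) : ℤ) else 0) m = (mwt m i : ℤ) := by
  have h1 : mwt m i = ∑ b ∈ m.support, (m b • pwt b) i := by
    unfold mwt Finsupp.sum
    rw [Finsupp.finsetSum_apply]
  rw [h1]
  unfold dotm Finsupp.sum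
  rw [Nat.cast_sum]
  refine Finset.sum_congr rfl fun a _ => ?_
  by_cases ha : a.1 = i
  · subst ha
    simp only [pwt, Finsupp.smul_apply, Finsupp.single_eq_same, smul_eq_mul, if_true]
    push_cast
    ring
  · dsimp only
    rw [if_neg ha]
    simp only [pwt, Finsupp.smul_apply, smul_eq_mul]
    rw [Finsupp.single_eq_of_ne (Ne.symm ha)]
    simp

variable [DecidableEq I]

/-- Sums over the multipartitions of weight `α + pwt a` which contain the part `a`. -/
theorem sum_mps_shift {M : Type} [AddCommMonoid M] (a : Prt I) (α : I →₀ ℕ)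
    (f : (Prt I →₀ ℕ) → M) (h : ∀ m, m a = 0 → f m = 0) :
    ∑ m ∈ mps (pwt a + α), f m = ∑ m ∈ mps α, f (m + Finsupp.single a 1) := by
  classical
  have h1 : ∑ m ∈ mps α, f (m + Finsupp.single a 1) =
      ∑ m ∈ (mps α).image (fun m => m + Finsupp.single a 1), f m := by
    rw [Finset.sum_image]
    intro m _ m' _ hm
    exact add_right_cancel hm
  rw [h1]
  symm
  apply Finset.sum_subset
  · intro m hm
    obtain ⟨m', hm', rfl⟩ := Finset.mem_image.1 hm
    rw [mem_mps] at hm' ⊢
    rw [mwt_add, mwt_single, one_smul, hm', add_comm]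
  · intro m hm hm'
    apply h
    by_contra ha
    apply hm'
    refine Finset.mem_image.2 ⟨m - Finsupp.single a 1, ?_, ?_⟩
    · rw [mem_mps] at hm ⊢
      have h2 : m - Finsupp.single a 1 + Finsupp.single a 1 = m :=
        tsub_add_cancel_of_le (Finsupp.single_le_iff.2 (Nat.one_le_iff_ne_zero.2 ha))
      have h3 := mwt_add (m - Finsupp.single a 1) (Finsupp.single a 1)
      rw [h2, mwt_single, one_smul, hm, add_comm (pwt a) α] at h3
      exact (add_right_cancel h3).symm
    · exact tsub_add_cancel_of_le (Finsupp.single_le_iff.2 (Nat.one_le_iff_ne_zero.2 ha))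

/-- If `pwt a ≤ α` fails then no multipartition of weight `α` contains the part `a`. -/
theorem eq_zero_of_not_le {a : Prt I} {α : I →₀ ℕ} (h : ¬ pwt a ≤ α) {m : Prt I →₀ ℕ}
    (hm : m ∈ mps α) : m a = 0 := by
  by_contra ha
  apply h
  rw [mem_mps] at hm
  unfold pwt
  rw [Finsupp.single_le_iff, ← hm]
  exact size_le_of_mem ha

/-- The bilinear form. -/
noncomputable def PII_Shift.bb (A : I → I → ℕ) (m m' : Prt I →₀ ℕ) : ℤ :=
  m.sum fun a x => (x : ℤ) * dotm (Bm A a) m'

theorem PII_Shift.bb_add_left (A : I → I → ℕ) (m m' m'' : Prt I →₀ ℕ) :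
    PII_Shift.bb A (m + m') m'' = PII_Shift.bb A m m'' + PII_Shift.bb A m' m'' := by
  refine Finsupp.sum_add_index' (fun a => ?_) (fun a x y => ?_)
  · simp
  · push_cast
    ring

theorem PII_Shift.bb_add_right (A : I → I → ℕ) (m m' m'' : Prt I →₀ ℕ) :
    PII_Shift.bb A m (m' + m'') = PII_Shift.bb A m m' + PII_Shift.bb A m m'' := by
  unfold PII_Shift.bb Finsupp.sum
  rw [← Finset.sum_add_distrib]
  refine Finset.sum_congr rfl fun a _ => ?_
  dsimp only
  rw [dotm_add]
  ring

theorem PII_Shift.bb_single (A : I → I → ℕ) (a : Prt I) (x : ℕ) (m : Prt I →₀ ℕ) :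
    PII_Shift.bb A (Finsupp.single a x) m = x * dotm (Bm A a) m := by
  refine Finsupp.sum_single_index ?_
  simp

theorem PII_Shift.Bm_symm {A : I → I → ℕ} (hs : ∀ i j, A i j = A j i) (a b : Prt I) :
    Bm A a b = Bm A b a := by
  unfold Bm cart
  rw [hs a.1 b.1, min_comm]
  by_cases h : a.1 = b.1
  · rw [if_pos h, if_pos h.symm]
  · rw [if_neg h, if_neg (Ne.symm h)]

theorem PII_Shift.bb_symm {A : I → I → ℕ} (hs : ∀ i j, A i j = A j i) (m m' : Prt I →₀ ℕ) :
    PII_Shift.bb A m m' = PII_Shift.bb A m' m := by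
  unfold PII_Shift.bb dotm Finsupp.sum
  simp only [Finset.mul_sum]
  rw [Finset.sum_comm]
  refine Finset.sum_congr rfl fun a _ => Finset.sum_congr rfl fun b _ => ?_
  rw [PII_Shift.Bm_symm hs b a]
  ring

theorem PII_Shift.Bm_even {A : I → I → ℕ} (hd : ∀ i, Even (A i i)) (a : Prt I) :
    Even (Bm A a a) := by
  unfold Bm cart
  rw [if_pos rfl]
  obtain ⟨k, hk⟩ := hd a.1
  have h1 : Even ((2 : ℤ) - (A a.1 a.1 : ℤ)) := ⟨1 - k, by
    rw [hk]
    push_cast
    ring⟩
  exact h1.mul_right _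

theorem PII_Shift.bb_even {A : I → I → ℕ} (hs : ∀ i j, A i j = A j i) (hd : ∀ i, Even (A i i))
    (m : Prt I →₀ ℕ) : Even (PII_Shift.bb A m m) := by
  induction m using Finsupp.induction_linear with
  | zero =>
    have : PII_Shift.bb A 0 0 = 0 := Finsupp.sum_zero_index
    rw [this]
    exact Even.zero
  | add m m' h h' =>
    rw [PII_Shift.bb_add_left, PII_Shift.bb_add_right, PII_Shift.bb_add_right,
      PII_Shift.bb_symm hs m' m]
    have h2 : PII_Shift.bb A m m + PII_Shift.bb A m m' + (PII_Shift.bb A m m' +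
        PII_Shift.bb A m' m') = PII_Shift.bb A m m + PII_Shift.bb A m' m' +
        2 * PII_Shift.bb A m m' := by ring
    rw [h2]
    exact (h.add h').add (even_two_mul _)
  | single a x =>
    rw [PII_Shift.bb_single, dotm_single]
    exact ((PII_Shift.Bm_even hd a).mul_right _).mul_left _

/-- The sum is even, so that the division by two is harmless. -/
theorem hq_two {A : I → I → ℕ} (hs : ∀ i j, A i j = A j i) (hd : ∀ i, Even (A i i))
    (m : Prt I →₀ ℕ) : 2 * hq A m = m.sum fun a x => (x : ℤ) * dotm (Bm A a) m := by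
  exact Int.two_mul_ediv_two_of_even (PII_Shift.bb_even hs hd m)

theorem hq_zero (A : I → I → ℕ) : hq A 0 = 0 := by
  unfold hq
  rw [Finsupp.sum_zero_index]
  rfl

theorem hq_add_single {A : I → I → ℕ} (hs : ∀ i j, A i j = A j i) (hd : ∀ i, Even (A i i))
    (m : Prt I →₀ ℕ) (a : Prt I) :
    hq A (m + Finsupp.single a 1) = hq A m + dotm (Bm A a) m + Bm A a a / 2 := by
  have h1 := hq_two hs hd (m + Finsupp.single a 1)
  have h2 := hq_two hs hd m
  have h3 : PII_Shift.bb A (m + Finsupp.single a 1) (m + Finsupp.single a 1) =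
      PII_Shift.bb A m m + 2 * dotm (Bm A a) m + Bm A a a := by
    rw [PII_Shift.bb_add_left, PII_Shift.bb_add_right, PII_Shift.bb_add_right,
      PII_Shift.bb_symm hs m (Finsupp.single a 1), PII_Shift.bb_single, PII_Shift.bb_single,
      dotm_single]
    push_cast
    ring
  have h4 : 2 * (Bm A a a / 2) = Bm A a a :=
    Int.two_mul_ediv_two_of_even (PII_Shift.Bm_even hd a)
  unfold PII_Shift.bb at h3
  rw [← h1, ← h2] at h3
  omega

variable {K : Type} [Field K]

theorem cc_zero (q : K) (A : I → I → ℕ) : cc q A 0 = 1 := by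
  unfold cc
  rw [hq_zero, Finsupp.prod_zero_index]
  simp

theorem cc_add_single {q : K} (hq : q ≠ 0) (h : ∀ j : ℕ, q ^ (j + 1) ≠ 1) {A : I → I → ℕ}
    (hs : ∀ i j, A i j = A j i) (hd : ∀ i, Even (A i i)) (m : Prt I →₀ ℕ) (a : Prt I) :
    (1 - q ^ (-((m a : ℤ) + 1))) * cc q A (m + Finsupp.single a 1) =
      q ^ (-(dotm (Bm A a) m) - Bm A a a / 2) * cc q A m := by
  have h1 : (1 : K) - q ^ (-((m a : ℤ) + 1)) = 1 - (q⁻¹) ^ (m a + 1) := by
    have h3 : ((m a : ℤ) + 1) = ((m a + 1 : ℕ) : ℤ) := by push_cast; ring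
    rw [h3, zpow_neg, inv_pow, zpow_natCast]
  have h2 : (1 : K) - (q⁻¹) ^ (m a + 1) ≠ 0 := by
    intro h3
    apply h (m a)
    have h4 : (q⁻¹) ^ (m a + 1) = 1 := (sub_eq_zero.1 h3).symm
    rw [inv_pow] at h4
    exact inv_eq_one.1 h4
  have h0 : ∀ b : Prt I, (qpoch q 0)⁻¹ = 1 := by
    intro _
    simp [qpoch]
  have e1 : m.prod (fun _ x => (qpoch q x)⁻¹) =
      ∏ b ∈ insert a m.support, (qpoch q (m b))⁻¹ :=
    Finsupp.prod_of_support_subset m (Finset.subset_insert a _) (fun _ x => (qpoch q x)⁻¹)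
      fun b _ => h0 b
  have e2 : (m + Finsupp.single a 1).prod (fun _ x => (qpoch q x)⁻¹) =
      ∏ b ∈ insert a m.support, (qpoch q ((m + Finsupp.single a 1 : Prt I →₀ ℕ) b))⁻¹ := by
    refine Finsupp.prod_of_support_subset _ ?_ (fun _ x => (qpoch q x)⁻¹) fun b _ => h0 b
    intro b hb
    rw [Finsupp.mem_support_iff, Finsupp.add_apply] at hb
    by_cases hba : b = a
    · rw [hba]
      exact Finset.mem_insert_self _ _
    · rw [Finsupp.single_eq_of_ne hba, add_zero] at hb
      exact Finset.mem_insert_of_mem (Finsupp.mem_support_iff.2 hb)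
  have e3 : (1 - (q⁻¹) ^ (m a + 1)) *
      ∏ b ∈ insert a m.support, (qpoch q ((m + Finsupp.single a 1 : Prt I →₀ ℕ) b))⁻¹ =
      ∏ b ∈ insert a m.support, (qpoch q (m b))⁻¹ := by
    rw [← Finset.mul_prod_erase _ _ (Finset.mem_insert_self a m.support),
      ← Finset.mul_prod_erase _ _ (Finset.mem_insert_self a m.support)]
    have e4 : ∏ b ∈ (insert a m.support).erase a,
        (qpoch q ((m + Finsupp.single a 1 : Prt I →₀ ℕ) b))⁻¹ =
        ∏ b ∈ (insert a m.support).erase a, (qpoch q (m b))⁻¹ := by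
      refine Finset.prod_congr rfl fun b hb => ?_
      rw [Finsupp.add_apply, Finsupp.single_eq_of_ne (Finset.ne_of_mem_erase hb), add_zero]
    rw [e4, Finsupp.add_apply, Finsupp.single_eq_same]
    have e5 : qpoch q (m a + 1) = qpoch q (m a) * (1 - (q⁻¹) ^ (m a + 1)) := by
      unfold qpoch
      rw [Finset.prod_range_succ]
    rw [e5, mul_inv]
    linear_combination ((qpoch q (m a))⁻¹ *
      ∏ b ∈ (insert a m.support).erase a, (qpoch q (m b))⁻¹) * (mul_inv_cancel₀ h2)
  unfold cc
  rw [h1, hq_add_single hs hd, e1, e2, ← e3]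
  have e6 : -(Pool.Agent.H27.KAC.hq A m + dotm (Bm A a) m + Bm A a a / 2) =
      (-(dotm (Bm A a) m) - Bm A a a / 2) + -(Pool.Agent.H27.KAC.hq A m) := by ring
  rw [e6, zpow_add₀ hq]
  ring

end Pool.Agent.H27.KAC

end

section

/-!
Project KAC, part II.3: the functional equation of the fermionic sums.
-/

set_option autoImplicit false

namespace Pool.Agent.H27.KAC

open scoped BigOperators

variable {I : Type} [DecidableEq I] {K : Type} [Field K]

theorem coeff_Fs (q : K) (A : I → I → ℕ) (n : Prt I → ℤ) (α : I →₀ ℕ) :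
    MvPowerSeries.coeff α (Fs q A n) = ∑ m ∈ mps α, q ^ (dotm n m) * cc q A m := rfl

theorem Fs_const (q : K) (A : I → I → ℕ) (n : Prt I → ℤ) :
    MvPowerSeries.constantCoeff (Fs q A n) = 1 := by
  rw [← MvPowerSeries.coeff_zero_eq_constantCoeff_apply, coeff_Fs]
  have h0 : mps (0 : I →₀ ℕ) = {0} := by
    ext m
    rw [mem_mps, Finset.mem_singleton, mwt_eq_zero]
  rw [h0, Finset.sum_singleton, dotm_zero_right, cc_zero, zpow_zero, one_mul]

/-- `F(n) - F(n - e_a) = q^(n_a - B_aa / 2) X^(wt a) F(n - B_a)`.  Compare the coefficients at `α`: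
the left side is the sum of `q^(n.m) (1 - q^(-m_a)) c(m)`; only the `m` with `m_a ≠ 0` contribute; if
`pwt a ≤ α` fails there are none (`eq_zero_of_not_le`) and the right side is zero too
(`MvPowerSeries.coeff_monomial_mul`), otherwise `α = pwt a + α'`, `sum_mps_shift`, `cc_add_single`. -/
theorem Fs_step {q : K} (hq : q ≠ 0) (h : ∀ j : ℕ, q ^ (j + 1) ≠ 1) {A : I → I → ℕ}
    (hs : ∀ i j, A i j = A j i) (hd : ∀ i, Even (A i i)) (n : Prt I → ℤ) (a : Prt I) :
    Fs q A n - Fs q A (n - Pi.single a 1) =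
      MvPowerSeries.monomial (pwt a) (q ^ (n a - Bm A a a / 2)) * Fs q A (n - Bm A a) := by
  classical
  ext α
  rw [map_sub, coeff_Fs, coeff_Fs, ← Finset.sum_sub_distrib, MvPowerSeries.coeff_monomial_mul]
  have hterm : ∀ m : Prt I →₀ ℕ,
      q ^ (dotm n m) * cc q A m - q ^ (dotm (n - Pi.single a 1) m) * cc q A m =
        q ^ (dotm n m) * ((1 - q ^ (-(m a : ℤ))) * cc q A m) := by
    intro m
    rw [dotm_sub_left, dotm_pi_single, sub_eq_add_neg (dotm n m), zpow_add₀ hq]
    ring
  rw [Finset.sum_congr rfl fun m _ => hterm m]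
  have hzero : ∀ m : Prt I →₀ ℕ, m a = 0 →
      q ^ (dotm n m) * ((1 - q ^ (-(m a : ℤ))) * cc q A m) = 0 := by
    intro m hm
    rw [hm]
    simp
  split_ifs with hle
  · obtain ⟨β, rfl⟩ : ∃ β, α = pwt a + β := ⟨α - pwt a, (add_tsub_cancel_of_le hle).symm⟩
    rw [add_tsub_cancel_left, sum_mps_shift a β _ hzero, coeff_Fs, Finset.mul_sum]
    refine Finset.sum_congr rfl fun m _ => ?_
    have h1 : (((m + Finsupp.single a 1 : Prt I →₀ ℕ) a : ℕ) : ℤ) = (m a : ℤ) + 1 := by
      rw [Finsupp.add_apply, Finsupp.single_eq_same]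
      push_cast
      ring
    rw [h1, cc_add_single hq h hs hd, dotm_add, dotm_single, dotm_sub_left]
    rw [← mul_assoc, ← mul_assoc, ← zpow_add₀ hq, ← zpow_add₀ hq]
    congr 2
    push_cast
    ring
  · refine Finset.sum_eq_zero fun m hm => hzero m (eq_zero_of_not_le hle hm)

/-- Only the values of `n` on the parts of size at most `D` matter for the coefficients of total
degree at most `D` (`size_le_of_mem`, `dotm_congr`). -/
theorem Fs_congr [Fintype I] (q : K) (A : I → I → ℕ) {n n' : Prt I → ℤ} {D : ℕ}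
    (h : ∀ a : Prt I, a.2 + 1 ≤ D → n a = n' a) (d : I →₀ ℕ) (hd : ∑ i, d i ≤ D) :
    MvPowerSeries.coeff d (Fs q A n) = MvPowerSeries.coeff d (Fs q A n') := by
  rw [coeff_Fs, coeff_Fs]
  refine Finset.sum_congr rfl fun m hm => ?_
  rw [dotm_congr (n := n) (n' := n') (m := m)]
  intro a ha
  apply h
  refine (size_le_of_mem ha).trans ?_
  rw [mem_mps.mp hm]
  exact (Finset.single_le_sum (fun i _ => Nat.zero_le (d i)) (Finset.mem_univ a.1)).trans hd

/-- `F(λ δ_i)` is `F(0)` with `X_i` replaced by `q X_i` (`dotm_size`). -/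
theorem coeff_Fs_size (q : K) (A : I → I → ℕ) (i : I) (α : I →₀ ℕ) :
    MvPowerSeries.coeff α (Fs q A fun a => if a.1 = i then ((a.2 + 1 : ℕ) : ℤ) else 0) =
      q ^ (α i) * MvPowerSeries.coeff α (Fs q A 0) := by
  rw [coeff_Fs, coeff_Fs, Finset.mul_sum]
  refine Finset.sum_congr rfl fun m hm => ?_
  have h0 : dotm (0 : Prt I → ℤ) m = 0 := by
    unfold dotm
    simp
  rw [dotm_size, mem_mps.mp hm, h0, zpow_zero, one_mul, zpow_natCast]

end Pool.Agent.H27.KAC

end

section

/-!
Project KAC, part II.3: the quotients of the shifted fermionic sums have integral coefficients.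
-/

set_option autoImplicit false

namespace Pool.Agent.H27.KAC

open scoped BigOperators

/-- The data: a ring `R` with a unit `u`, an embedding of `R` in a field `K`, and a homomorphism
`R → S` with `u ↦ 1`; a symmetric matrix `A` with even diagonal. -/
structure Setup (I R K S : Type) [CommRing R] [Field K] [CommRing S] where
  A : I → I → ℕ
  symm : ∀ i j, A i j = A j i
  even : ∀ i, Even (A i i)
  ι : R →+* K
  inj : Function.Injective ι
  ev : R →+* S
  u : Rˣ
  evu : ev u = 1
  ne : ∀ j : ℕ, (ι u) ^ (j + 1) ≠ 1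

section

variable {I R K S : Type} [DecidableEq I] [CommRing R] [Field K] [CommRing S]

/-- The element `q` of the field. -/
def Setup.q (s : Setup I R K S) : K := s.ι s.u

/-- The shifted fermionic sums. -/
noncomputable def Setup.F (s : Setup I R K S) (n : Prt I → ℤ) : MvPowerSeries I K := Fs s.q s.A n

/-- The quotient of two shifted sums. -/
noncomputable def Setup.Q (s : Setup I R K S) (n n' : Prt I → ℤ) : MvPowerSeries I K :=
  s.F n' * (s.F n)⁻¹

theorem Setup.q_ne (s : Setup I R K S) : s.q ≠ 0 := (s.u.isUnit.map s.ι).ne_zero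

/-- All powers of `q` are in the image of `R`. -/
theorem Setup.zpow_mem (s : Setup I R K S) (z : ℤ) : s.q ^ z ∈ s.ι.range := by
  refine ⟨((s.u ^ z : Rˣ) : R), ?_⟩
  have h1 : s.ι ((s.u ^ z : Rˣ) : R) =
      ((Units.map (s.ι : R →* K) (s.u ^ z) : Kˣ) : K) := rfl
  rw [h1, map_zpow, Units.val_zpow_eq_zpow_val]
  rfl

theorem Setup.F_mul_inv (s : Setup I R K S) (n : Prt I → ℤ) : s.F n * (s.F n)⁻¹ = 1 := by
  refine MvPowerSeries.mul_inv_cancel _ ?_
  unfold Setup.F
  rw [Fs_const]
  exact one_ne_zero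

theorem Setup.Q_self (s : Setup I R K S) (n : Prt I → ℤ) : s.Q n n = 1 := s.F_mul_inv n

theorem Setup.Q_mul (s : Setup I R K S) (n n' n'' : Prt I → ℤ) :
    s.Q n n' * s.Q n' n'' = s.Q n n'' := by
  have h1 : s.Q n n' * s.Q n' n'' = s.F n'' * (s.F n)⁻¹ * (s.F n' * (s.F n')⁻¹) := by
    unfold Setup.Q
    ring
  rw [h1, s.F_mul_inv, mul_one]
  rfl

theorem Setup.Q_const (s : Setup I R K S) (n n' : Prt I → ℤ) :
    MvPowerSeries.constantCoeff (s.Q n n') = 1 := by
  unfold Setup.Q Setup.F
  rw [map_mul, MvPowerSeries.constantCoeff_inv, Fs_const, Fs_const, inv_one, mul_one]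

/-- `Fs_step` divided by `F n`. -/
theorem Setup.Q_step (s : Setup I R K S) (n : Prt I → ℤ) (a : Prt I) :
    s.Q n (n - Pi.single a 1) = 1 -
      MvPowerSeries.monomial (pwt a) (s.q ^ (n a - Bm s.A a a / 2)) * s.Q n (n - Bm s.A a) := by
  have h1 := Fs_step (q := s.q) s.q_ne s.ne s.symm s.even n a
  have h2 : s.F (n - Pi.single a 1) = s.F n -
      MvPowerSeries.monomial (pwt a) (s.q ^ (n a - Bm s.A a a / 2)) * s.F (n - Bm s.A a) := by
    unfold Setup.F
    rw [← h1]
    ring
  unfold Setup.Q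
  rw [h2, sub_mul, s.F_mul_inv, mul_assoc]

variable [Fintype I]

theorem Setup.Q_congr (s : Setup I R K S) {n m n' m' : Prt I → ℤ} {D : ℕ}
    (h : ∀ a : Prt I, a.2 + 1 ≤ D → n a = n' a) (h' : ∀ a : Prt I, a.2 + 1 ≤ D → m a = m' a) :
    EqTo D (s.Q n m) (s.Q n' m') := by
  have h1 : EqTo D (s.F n) (s.F n') := fun d hd => Fs_congr s.q s.A h d hd
  have h2 : EqTo D (s.F m) (s.F m') := fun d hd => Fs_congr s.q s.A h' d hd
  exact h2.mul (h1.of_mul_eq_one (s.F_mul_inv n) (s.F_mul_inv n'))

/-- General principle: a relation between the shift vectors which is reflexive on vectors agreeing on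
the parts of size at most `D`, and which is an equivalence relation and contains all the steps
`(n, n - e_a)`, is everything.  (Change the finitely many values at the parts of size at most `D` one
after the other, by steps of one.) -/
theorem shift_induction (D : ℕ) (P : (Prt I → ℤ) → (Prt I → ℤ) → Prop)
    (hc : ∀ n n', (∀ a : Prt I, a.2 + 1 ≤ D → n a = n' a) → P n n')
    (hs : ∀ n n', P n n' → P n' n) (ht : ∀ n n' n'', P n n' → P n' n'' → P n n'')
    (h1 : ∀ n a, P n (n - Pi.single a 1)) (n n' : Prt I → ℤ) : P n n' := by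
  classical
  have hrefl : ∀ n, P n n := fun n => hc n n fun _ _ => rfl
  have hz : ∀ (a : Prt I) (z : ℤ) (n : Prt I → ℤ), P n (n + Pi.single a z) := by
    intro a z
    induction z using Int.induction_on with
    | zero =>
      intro n
      rw [Pi.single_zero, add_zero]
      exact hrefl n
    | succ i ih =>
      intro n
      refine ht _ _ _ (ih n) ?_
      have h2 := h1 (n + Pi.single a ((i : ℤ) + 1)) a
      have h3 : n + Pi.single a ((i : ℤ) + 1) - Pi.single a 1 = n + Pi.single a (i : ℤ) := by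
        rw [Pi.single_add]
        abel
      rw [h3] at h2
      exact hs _ _ h2
    | pred i ih =>
      intro n
      refine ht _ _ _ (ih n) ?_
      have h2 := h1 (n + Pi.single a (-(i : ℤ))) a
      have h3 : n + Pi.single a (-(i : ℤ)) - Pi.single a 1 =
          n + Pi.single a (-(i : ℤ) - 1) := by
        rw [Pi.single_sub]
        abel
      rw [h3] at h2
      exact h2
  have hfin : ∀ s : Finset (Prt I), ∀ n n' : Prt I → ℤ,
      (∀ a, a ∉ s → a.2 + 1 ≤ D → n a = n' a) → P n n' := by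
    intro s
    induction s using Finset.induction_on with
    | empty =>
      intro n n' h
      exact hc n n' fun a ha => h a (Finset.notMem_empty a) ha
    | insert b s hb ih =>
      intro n n' h
      refine ht n (n + Pi.single b (n' b - n b)) n' (hz b _ n) (ih _ _ ?_)
      intro a ha haD
      by_cases hab : a = b
      · subst hab
        simp
      · rw [Pi.add_apply, Pi.single_eq_of_ne hab, add_zero]
        exact h a (by simp [hab, ha]) haD
  refine hfin (Finset.univ ×ˢ Finset.range D) n n' fun a ha haD => ?_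
  exfalso
  apply ha
  rw [Finset.mem_product, Finset.mem_range]
  exact ⟨Finset.mem_univ _, by omega⟩

/-- Induction on `D` with `shift_induction` for `P n n' := InTo (range ι) D (Q n n')`: (hc) by `Q_congr`
and `Q_self`, (hs) by `InTo.of_mul_eq_one`, `Q_mul`, (ht) by `InTo.mul`, (h1) by `Q_step` and the
induction hypothesis (`InTo.monomial_mul`, `InTo.monomial_mul_zero` for `D = 0`). -/
theorem Setup.Q_inTo (s : Setup I R K S) (D : ℕ) (n n' : Prt I → ℤ) :
    InTo s.ι.range D (s.Q n n') := by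
  have main : ∀ D : ℕ, (∀ (n : Prt I → ℤ) (a : Prt I),
      InTo s.ι.range D (s.Q n (n - Pi.single a 1))) → ∀ n n' : Prt I → ℤ,
      InTo s.ι.range D (s.Q n n') := by
    intro D h1
    refine shift_induction D (fun n n' => InTo s.ι.range D (s.Q n n')) ?_ ?_ ?_ h1
    · intro n n' h
      have h2 := s.Q_congr (D := D) (n := n) (m := n) (n' := n) (m' := n') (fun _ _ => rfl) h
      rw [s.Q_self] at h2
      exact (InTo.one _ _).congr h2
    · intro n n' h
      exact h.of_mul_eq_one (s.Q_const n n') (by rw [s.Q_mul, s.Q_self])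
    · intro n n' n'' h h'
      rw [← s.Q_mul n n' n'']
      exact h.mul h'
  induction D generalizing n n' with
  | zero =>
    refine main 0 (fun n a => ?_) n n'
    rw [s.Q_step]
    refine (InTo.one _ _).sub (InTo.monomial_mul_zero ?_ _)
    unfold pwt
    rw [Ne, Finsupp.single_eq_zero]
    omega
  | succ D ih =>
    refine main (D + 1) (fun n a => ?_) n n'
    rw [s.Q_step]
    refine (InTo.one _ _).sub ((ih _ _).monomial_mul ?_ (s.zpow_mem _))
    unfold pwt
    rw [Ne, Finsupp.single_eq_zero]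
    omega

theorem Setup.exists_G (s : Setup I R K S) (n n' : Prt I → ℤ) :
    ∃ G : MvPowerSeries I R, MvPowerSeries.map s.ι G = s.Q n n' := by
  have h : ∀ d : I →₀ ℕ, ∃ r : R, s.ι r = MvPowerSeries.coeff d (s.Q n n') := by
    intro d
    have h1 := s.Q_inTo (∑ i, d i) n n' d le_rfl
    obtain ⟨r, hr⟩ := h1
    exact ⟨r, hr⟩
  choose G hG using h
  refine ⟨(show MvPowerSeries I R from G), ?_⟩
  ext d
  exact hG d

end

end Pool.Agent.H27.KAC

end

section

/-!
Project KAC, part II.3: the limit `q → 1`.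
-/

set_option autoImplicit false

namespace Pool.Agent.H27.KAC

open scoped BigOperators

variable {I R K S : Type} [Fintype I] [DecidableEq I] [CommRing R] [Field K] [CommRing S]

/-- The lift of `Q n n'` to `R`. -/
noncomputable def Setup.G (s : Setup I R K S) (n n' : Prt I → ℤ) : MvPowerSeries I R :=
  Classical.choose (s.exists_G n n')

theorem Setup.map_G (s : Setup I R K S) (n n' : Prt I → ℤ) :
    MvPowerSeries.map s.ι (s.G n n') = s.Q n n' := Classical.choose_spec (s.exists_G n n')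

/-- The value of `Q n n'` at `q = 1`. -/
noncomputable def Setup.Γ (s : Setup I R K S) (n n' : Prt I → ℤ) : MvPowerSeries I S :=
  MvPowerSeries.map s.ev (s.G n n')

theorem PII_Gam.map_inj (s : Setup I R K S) {f g : MvPowerSeries I R}
    (h : MvPowerSeries.map s.ι f = MvPowerSeries.map s.ι g) : f = g := by
  ext d
  apply s.inj
  have h1 := congrArg (MvPowerSeries.coeff d) h
  rwa [MvPowerSeries.coeff_map, MvPowerSeries.coeff_map] at h1

theorem PII_Gam.map_zpow (s : Setup I R K S) (z : ℤ) :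
    s.ι ((s.u ^ z : Rˣ) : R) = s.q ^ z := by
  have h1 : s.ι ((s.u ^ z : Rˣ) : R) = ((Units.map (s.ι : R →* K) (s.u ^ z) : Kˣ) : K) := rfl
  rw [h1, _root_.map_zpow, Units.val_zpow_eq_zpow_val]
  rfl

theorem PII_Gam.ev_zpow (s : Setup I R K S) (z : ℤ) : s.ev ((s.u ^ z : Rˣ) : R) = 1 := by
  have h1 : s.ev ((s.u ^ z : Rˣ) : R) = ((Units.map (s.ev : R →* S) (s.u ^ z) : Sˣ) : S) := rfl
  have h2 : Units.map (s.ev : R →* S) s.u = 1 := by
    ext
    exact s.evu
  rw [h1, _root_.map_zpow, h2, one_zpow, Units.val_one]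

theorem PII_Gam.map_monomial {R' T' : Type} [CommRing R'] [CommRing T'] (f : R' →+* T')
    (d : I →₀ ℕ) (c : R') :
    MvPowerSeries.map f (MvPowerSeries.monomial d c) = MvPowerSeries.monomial d (f c) := by
  ext e
  rw [MvPowerSeries.coeff_map, MvPowerSeries.coeff_monomial, MvPowerSeries.coeff_monomial]
  split_ifs
  · rfl
  · exact map_zero f

/-- `MvPowerSeries.map ι` is injective; `Q_self`. -/
theorem Setup.Γ_self (s : Setup I R K S) (n : Prt I → ℤ) : s.Γ n n = 1 := by
  have h : s.G n n = 1 := by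
    apply PII_Gam.map_inj s
    rw [s.map_G, s.Q_self, map_one]
  unfold Setup.Γ
  rw [h, map_one]

theorem Setup.Γ_mul (s : Setup I R K S) (n n' n'' : Prt I → ℤ) :
    s.Γ n n' * s.Γ n' n'' = s.Γ n n'' := by
  have h : s.G n n' * s.G n' n'' = s.G n n'' := by
    apply PII_Gam.map_inj s
    rw [map_mul, s.map_G, s.map_G, s.map_G, s.Q_mul]
  unfold Setup.Γ
  rw [← map_mul, h]

theorem Setup.Γ_const (s : Setup I R K S) (n n' : Prt I → ℤ) :
    MvPowerSeries.constantCoeff (s.Γ n n') = 1 := by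
  have h : MvPowerSeries.constantCoeff (s.G n n') = 1 := by
    apply s.inj
    have h1 := s.Q_const n n'
    rw [← s.map_G, MvPowerSeries.constantCoeff_map] at h1
    rw [h1, map_one]
  unfold Setup.Γ
  rw [MvPowerSeries.constantCoeff_map, h, map_one]

/-- The powers of `q` become one. -/
theorem Setup.Γ_step (s : Setup I R K S) (n : Prt I → ℤ) (a : Prt I) :
    s.Γ n (n - Pi.single a 1) = 1 -
      MvPowerSeries.monomial (pwt a) 1 * s.Γ n (n - Bm s.A a) := by
  have h : s.G n (n - Pi.single a 1) = 1 -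
      MvPowerSeries.monomial (pwt a) ((s.u ^ (n a - Bm s.A a a / 2) : Rˣ) : R) *
        s.G n (n - Bm s.A a) := by
    apply PII_Gam.map_inj s
    rw [map_sub, map_one, map_mul, s.map_G, s.map_G, PII_Gam.map_monomial, PII_Gam.map_zpow,
      s.Q_step]
  unfold Setup.Γ
  rw [h, map_sub, map_one, map_mul, PII_Gam.map_monomial, PII_Gam.ev_zpow]

theorem Setup.Γ_congr (s : Setup I R K S) {n m n' m' : Prt I → ℤ} {D : ℕ}
    (h : ∀ a : Prt I, a.2 + 1 ≤ D → n a = n' a) (h' : ∀ a : Prt I, a.2 + 1 ≤ D → m a = m' a) :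
    EqTo D (s.Γ n m) (s.Γ n' m') := by
  intro d hd
  have h1 := s.Q_congr h h' d hd
  rw [← s.map_G, ← s.map_G, MvPowerSeries.coeff_map, MvPowerSeries.coeff_map] at h1
  unfold Setup.Γ
  rw [MvPowerSeries.coeff_map, MvPowerSeries.coeff_map, s.inj h1]

theorem PII_Gam.pwt_ne (a : Prt I) : pwt a ≠ 0 := by
  intro h
  have h1 := DFunLike.congr_fun h a.1
  unfold pwt at h1
  rw [Finsupp.single_eq_same, Finsupp.coe_zero, Pi.zero_apply] at h1
  omega

theorem PII_Gam.shift_aux (s : Setup I R K S) (D : ℕ)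
    (h1 : ∀ (m : Prt I → ℤ) (a : Prt I) (n : Prt I → ℤ),
      EqTo D (s.Γ (m + n) (m - Pi.single a 1 + n)) (s.Γ m (m - Pi.single a 1)))
    (m m' n : Prt I → ℤ) :
    EqTo D (s.Γ (m + n) (m' + n)) (s.Γ m m') := by
  refine shift_induction D (fun m m' => ∀ n, EqTo D (s.Γ (m + n) (m' + n)) (s.Γ m m'))
    ?_ ?_ ?_ ?_ m m' n
  · intro m m' hm n
    have e1 : EqTo D (s.Γ (m + n) (m' + n)) (s.Γ (m + n) (m + n)) :=
      s.Γ_congr (fun a _ => rfl) (fun a ha => by
        rw [Pi.add_apply, Pi.add_apply, hm a ha])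
    have e2 : EqTo D (s.Γ m m') (s.Γ m m) :=
      s.Γ_congr (fun a _ => rfl) (fun a ha => (hm a ha).symm)
    rw [s.Γ_self] at e1 e2
    exact e1.trans e2.symm
  · intro m m' hm n
    refine EqTo.of_mul_eq_one (hm n) ?_ ?_
    · rw [s.Γ_mul, s.Γ_self]
    · rw [s.Γ_mul, s.Γ_self]
  · intro m m' m'' h h' n
    rw [← s.Γ_mul (m + n) (m' + n) (m'' + n), ← s.Γ_mul m m' m'']
    exact (h n).mul (h' n)
  · intro m a n
    exact h1 m a n

/-- Translation invariance up to the degree `D`, by induction on `D`; in the step use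
`shift_induction` for `P m m' := ∀ n, EqTo D (Γ (m + n) (m' + n)) (Γ m m')`. -/
theorem Setup.Γ_shift_to (s : Setup I R K S) (D : ℕ) (m m' n : Prt I → ℤ) :
    EqTo D (s.Γ (m + n) (m' + n)) (s.Γ m m') := by
  induction D generalizing m m' n with
  | zero =>
    refine PII_Gam.shift_aux s 0 ?_ m m' n
    intro m a n
    have e : m - Pi.single a 1 + n = (m + n) - Pi.single a 1 := by abel
    rw [e, s.Γ_step, s.Γ_step]
    exact (EqTo.refl 0 1).sub (EqTo.monomial_mul_zero (PII_Gam.pwt_ne a) 1)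
  | succ D ih =>
    refine PII_Gam.shift_aux s (D + 1) ?_ m m' n
    intro m a n
    have e : m - Pi.single a 1 + n = (m + n) - Pi.single a 1 := by abel
    have e' : (m + n) - Bm s.A a = (m - Bm s.A a) + n := by abel
    rw [e, s.Γ_step, s.Γ_step, e']
    exact (EqTo.refl (D + 1) 1).sub
      (EqTo.monomial_mul (ih m (m - Bm s.A a) n) (PII_Gam.pwt_ne a) 1)

theorem Setup.Γ_shift (s : Setup I R K S) (m m' n : Prt I → ℤ) :
    s.Γ (m + n) (m' + n) = s.Γ m m' := eq_of_EqTo fun D => s.Γ_shift_to D m m' n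

theorem Setup.Γ_add (s : Setup I R K S) (n n' : Prt I → ℤ) :
    s.Γ 0 (n + n') = s.Γ 0 n * s.Γ 0 n' := by
  have h := s.Γ_shift 0 n' n
  rw [zero_add, add_comm n' n] at h
  rw [← h, s.Γ_mul]

end Pool.Agent.H27.KAC

end

section

/-!
Project KAC, part II.3: the Q-system.
-/

set_option autoImplicit false

namespace Pool.Agent.H27.KAC

open scoped BigOperators

variable {I R K S : Type} [Fintype I] [DecidableEq I] [CommRing R] [Field K] [CommRing S]

/-- The shift vector `(j, l) ↦ δ_ij min(k, l + 1)`. -/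
def minv (i : I) (k : ℕ) (a : Prt I) : ℤ := if a.1 = i then ((min k (a.2 + 1) : ℕ) : ℤ) else 0

/-- The shift vector `(j, l) ↦ δ_ij (l + 1)`. -/
def sizev (i : I) (a : Prt I) : ℤ := if a.1 = i then ((a.2 + 1 : ℕ) : ℤ) else 0

/-- The solution of the Q-system. -/
noncomputable def Setup.T (s : Setup I R K S) (i : I) (k : ℕ) : MvPowerSeries I S :=
  s.Γ 0 (minv i k)

/-- Its limit for `k → ∞`. -/
noncomputable def Setup.Tinf (s : Setup I R K S) (i : I) : MvPowerSeries I S := s.Γ 0 (sizev i)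

theorem Setup.T_zero (s : Setup I R K S) (i : I) : s.T i 0 = 1 := by
  have h : minv i 0 = 0 := by
    funext a
    unfold minv
    split_ifs <;> simp
  unfold Setup.T
  rw [h]
  exact s.Γ_self 0

theorem Setup.T_const (s : Setup I R K S) (i : I) (k : ℕ) :
    MvPowerSeries.constantCoeff (s.T i k) = 1 := s.Γ_const _ _

/-- `min(k, l + 1) = l + 1` for `l + 1 ≤ k`. -/
theorem Setup.T_inf (s : Setup I R K S) (i : I) (k : ℕ) (d : I →₀ ℕ) (hd : tdeg d ≤ k) :
    MvPowerSeries.coeff d (s.T i k) = MvPowerSeries.coeff d (s.Tinf i) := by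
  have h : EqTo k (s.Γ 0 (minv i k)) (s.Γ 0 (sizev i)) := by
    refine s.Γ_congr (fun _ _ => rfl) ?_
    intro a ha
    unfold minv sizev
    rw [min_eq_right ha]
  exact h d hd

theorem Setup.QT_smul (s : Setup I R K S) (v : Prt I → ℤ) (e : ℕ) :
    s.Γ 0 ((e : ℤ) • v) = (s.Γ 0 v) ^ e := by
  induction e with
  | zero =>
    rw [Nat.cast_zero, zero_smul, pow_zero]
    exact s.Γ_self 0
  | succ e ih =>
    rw [Nat.cast_succ, add_smul, one_smul, s.Γ_add, ih, pow_succ]

theorem Setup.QT_sum (s : Setup I R K S) (v : I → Prt I → ℤ) (e : I → ℕ) (t : Finset I) :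
    s.Γ 0 (∑ j ∈ t, (e j : ℤ) • v j) = ∏ j ∈ t, (s.Γ 0 (v j)) ^ (e j) := by
  induction t using Finset.induction_on with
  | empty =>
    rw [Finset.sum_empty, Finset.prod_empty]
    exact s.Γ_self 0
  | insert j t hj ih =>
    rw [Finset.sum_insert hj, Finset.prod_insert hj, s.Γ_add, ih, s.QT_smul]

/-- `Γ 0 (∑_j A_ij v_j) = ∏_j (Γ 0 v_j)^(A_ij)`. -/
theorem Setup.Γ_sum (s : Setup I R K S) (v : I → Prt I → ℤ) (e : I → ℕ) :
    s.Γ 0 (∑ j, (e j : ℤ) • v j) = ∏ j, (s.Γ 0 (v j)) ^ (e j) := s.QT_sum v e Finset.univ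

/-- The second difference of `min` and the rows of `B`:
`minv i (k + 1) + minv i (k + 1) = minv i k + minv i (k + 2) + e_(i,k)` and
`Bm A (i, k) = 2 minv i (k + 1) - ∑_j A_ij minv j (k + 1)`. -/
theorem minv_diff (i : I) (k : ℕ) :
    minv i k + minv i (k + 2) = minv i (k + 1) + minv i (k + 1) - Pi.single (i, k) 1 := by
  funext a
  obtain ⟨j, l⟩ := a
  simp only [Pi.add_apply, Pi.sub_apply, Pi.single_apply, Prod.mk.injEq, minv]
  by_cases hj : j = i
  · simp only [if_pos hj]
    by_cases hl : l = k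
    · rw [if_pos ⟨hj, hl⟩]
      push_cast
      omega
    · rw [if_neg (fun h => hl h.2)]
      push_cast
      omega
  · simp only [if_neg hj]
    rw [if_neg (fun h => hj h.1)]
    norm_num

theorem minv_Bm (A : I → I → ℕ) (i : I) (k : ℕ) :
    minv i (k + 1) + minv i (k + 1) - Bm A (i, k) = ∑ j, ((A i j : ℕ) : ℤ) • minv j (k + 1) := by
  funext a
  obtain ⟨j, l⟩ := a
  rw [Finset.sum_apply]
  have h1 : ∀ c : I, (((A i c : ℕ) : ℤ) • minv c (k + 1)) (j, l) =
      if j = c then ((A i c : ℕ) : ℤ) * ((min (k + 1) (l + 1) : ℕ) : ℤ) else 0 := by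
    intro c
    rw [Pi.smul_apply, smul_eq_mul]
    simp only [minv]
    split_ifs
    · rfl
    · rw [mul_zero]
  rw [Finset.sum_congr rfl fun c _ => h1 c, Finset.sum_ite_eq, if_pos (Finset.mem_univ _)]
  simp only [Pi.add_apply, Pi.sub_apply, minv, Bm, cart]
  by_cases hj : j = i
  · rw [if_pos hj, if_pos hj.symm]
    ring
  · rw [if_neg hj, if_neg (fun h => hj h.symm)]
    ring

/-- With `v = minv i (k + 1)`, `a = (i, k)`: `Γ 0 (2 v - e_a) = Γ 0 (2 v) Γ (2 v) (2 v - e_a)`, `Γ_step`,
`Γ 0 (2 v) * Γ (2 v) (2 v - B_a) = Γ 0 (2 v - B_a)`; `Γ_add`, `minv_diff`, `minv_Bm`, `Γ_sum`;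
`monomial (pwt (i, k)) 1 = X i ^ (k + 1)`. -/
theorem Setup.T_rel (s : Setup I R K S) (i : I) (k : ℕ) :
    (s.T i (k + 1)) ^ 2 = s.T i k * s.T i (k + 2) +
      (MvPowerSeries.X i) ^ (k + 1) * ∏ j, (s.T j (k + 1)) ^ (s.A i j) := by
  have h1 := s.Γ_step (minv i (k + 1) + minv i (k + 1)) (i, k)
  have h2 := s.Γ_mul 0 (minv i (k + 1) + minv i (k + 1))
    (minv i (k + 1) + minv i (k + 1) - Pi.single (i, k) 1)
  have h3 := s.Γ_mul 0 (minv i (k + 1) + minv i (k + 1))
    (minv i (k + 1) + minv i (k + 1) - Bm s.A (i, k))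
  rw [minv_Bm, s.Γ_sum] at h3
  rw [← minv_diff, s.Γ_add, s.Γ_add] at h2
  rw [s.Γ_add] at h3
  rw [← minv_diff, minv_Bm] at h1
  have hX : (MvPowerSeries.monomial (pwt ((i, k) : Prt I)) (1 : S)) =
      (MvPowerSeries.X i) ^ (k + 1) := by
    rw [MvPowerSeries.X_pow_eq]
    rfl
  rw [hX] at h1
  unfold Setup.T
  rw [← h2, ← h3, h1]
  ring

end Pool.Agent.H27.KAC

end

section

/-!
Project KAC, part II.1: the explicit formula for the numbers `Pc`.
-/

set_option autoImplicit false

namespace Pool.Agent.H27.KAC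

open scoped BigOperators

variable {I E : Type} [Fintype I] [DecidableEq I] [Fintype E]

/-- The number of the representations with a given nilpotent endomorphism `T` of type `m`: the product
over the arrows of the numbers of `card_hom`. -/
theorem card_rep (Q : Quiv I E) (F : Type) [Field F] [Fintype F] (α : I → ℕ)
    (T : (i : I) → Matrix (Fin (α i)) (Fin (α i)) F) (m : Prt I →₀ ℕ)
    (hT : ∀ i, HasType (T i) (mcol m i)) :
    Nat.card {x : Rp Q F α // IsMor x x T} =
      Fintype.card F ^ (∑ e : E, mlam (mcol m (Q.tgt e)) (mcol m (Q.src e))) := by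
  have e1 : {x : Rp Q F α // IsMor x x T} ≃
      ((e : E) → {y : Matrix (Fin (α (Q.tgt e))) (Fin (α (Q.src e))) F //
        T (Q.tgt e) * y = y * T (Q.src e)}) :=
    Equiv.subtypePiEquivPi (p := fun (e : E)
      (y : Matrix (Fin (α (Q.tgt e))) (Fin (α (Q.src e))) F) =>
        T (Q.tgt e) * y = y * T (Q.src e))
  rw [Nat.card_congr e1, Nat.card_pi, ← Finset.prod_pow_eq_pow_sum]
  exact Finset.prod_congr rfl fun e _ => card_hom (hT (Q.tgt e)) (hT (Q.src e))

/-- The number of the families `T` of type `m`. -/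
theorem card_types (F : Type) [Field F] [Fintype F] (α : I → ℕ) (m : Prt I →₀ ℕ) :
    (Nat.card {T : (i : I) → Matrix (Fin (α i)) (Fin (α i)) F //
      ∀ i, HasType (T i) (mcol m i)} : ℚ) = ∏ i, Nty F (α i) (mcol m i) := by
  have e1 : {T : (i : I) → Matrix (Fin (α i)) (Fin (α i)) F // ∀ i, HasType (T i) (mcol m i)} ≃
      ((i : I) → {T : Matrix (Fin (α i)) (Fin (α i)) F // HasType T (mcol m i)}) :=
    Equiv.subtypePiEquivPi (p := fun (i : I) (T : Matrix (Fin (α i)) (Fin (α i)) F) =>
      HasType T (mcol m i))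
  rw [Nat.card_congr e1, Nat.card_pi]
  push_cast
  rfl

/-- The pairs with `T` of type `m`. -/
theorem card_pairs (Q : Quiv I E) (F : Type) [Field F] [Fintype F] (α : I → ℕ) (m : Prt I →₀ ℕ) :
    (Nat.card {p : NilPairs Q F α // ∀ i, HasType (p.1.2 i) (mcol m i)} : ℚ) =
      (Fintype.card F : ℚ) ^ (∑ e : E, mlam (mcol m (Q.tgt e)) (mcol m (Q.src e))) *
        ∏ i, Nty F (α i) (mcol m i) := by
  classical
  have e1 : {p : NilPairs Q F α // ∀ i, HasType (p.1.2 i) (mcol m i)} ≃
      (Σ T : {T : (i : I) → Matrix (Fin (α i)) (Fin (α i)) F // ∀ i, HasType (T i) (mcol m i)},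
        {x : Rp Q F α // IsMor x x T.1}) :=
    { toFun := fun p => ⟨⟨p.1.1.2, p.2⟩, ⟨p.1.1.1, p.1.2.1⟩⟩
      invFun := fun s => ⟨⟨(s.2.1, s.1.1), s.2.2, fun i => (s.1.2 i).1⟩, s.1.2⟩
      left_inv := fun p => rfl
      right_inv := fun s => rfl }
  have : Fintype {T : (i : I) → Matrix (Fin (α i)) (Fin (α i)) F // ∀ i, HasType (T i) (mcol m i)} :=
    Fintype.ofFinite _
  have hfin : Finite (Rp Q F α) := by
    unfold Rp
    infer_instance
  rw [Nat.card_congr e1, Nat.card_sigma, ← card_types F α m]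
  have h1 : ∀ T : {T : (i : I) → Matrix (Fin (α i)) (Fin (α i)) F //
      ∀ i, HasType (T i) (mcol m i)}, Nat.card {x : Rp Q F α // IsMor x x T.1} =
      Fintype.card F ^ (∑ e : E, mlam (mcol m (Q.tgt e)) (mcol m (Q.src e))) := fun T =>
    card_rep Q F α T.1 m T.2
  rw [Finset.sum_congr rfl fun T _ => h1 T, Finset.sum_const, Finset.card_univ, smul_eq_mul,
    Nat.card_eq_fintype_card]
  push_cast
  ring

/-- `NilPairs` is the disjoint union over the `m` in `mps α` of the pairs with `T` of type `m`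
(`exists_type`, `HasType.unique`, `HasType.size`, `mcolEquiv`, `psize_mcol`). -/
theorem card_nilPairs (Q : Quiv I E) (F : Type) [Field F] [Fintype F] (α : I →₀ ℕ) :
    (Nat.card (NilPairs Q F α) : ℚ) =
      ∑ m ∈ mps α, (Nat.card {p : NilPairs Q F α // ∀ i, HasType (p.1.2 i) (mcol m i)} : ℚ) := by
  classical
  have hfin : Finite (NilPairs Q F α) := by
    unfold NilPairs Rp
    infer_instance
  have : Fintype (NilPairs Q F α) := Fintype.ofFinite _
  have hex : ∀ (p : NilPairs Q F α) (i : I), ∃ μ : ℕ →₀ ℕ, HasType (p.1.2 i) μ := fun p i =>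
    exists_type (p.2.2 i)
  choose μ hμ using hex
  set t : NilPairs Q F α → (Prt I →₀ ℕ) := fun p => (mcolEquiv I).symm (μ p) with ht
  have htc : ∀ p i, mcol (t p) i = μ p i := by
    intro p i
    have h1 : (mcolEquiv I) (t p) = μ p := (mcolEquiv I).apply_symm_apply (μ p)
    exact congrFun h1 i
  have htype : ∀ p i, HasType (p.1.2 i) (mcol (t p) i) := fun p i => by
    rw [htc p i]
    exact hμ p i
  have hmem : ∀ p, t p ∈ mps α := by
    intro p
    rw [mem_mps]
    ext i
    rw [← psize_mcol]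
    exact (htype p i).size
  have hiff : ∀ p m, t p = m ↔ ∀ i, HasType (p.1.2 i) (mcol m i) := by
    intro p m
    constructor
    · rintro rfl
      exact htype p
    · intro h
      apply (mcolEquiv I).injective
      funext i
      exact (htype p i).unique (h i)
  have h1 : (Finset.univ : Finset (NilPairs Q F α)).card =
      ∑ m ∈ mps α, ((Finset.univ : Finset (NilPairs Q F α)).filter (fun p => t p = m)).card :=
    Finset.card_eq_sum_card_fiberwise (fun p _ => hmem p)
  rw [Nat.card_eq_fintype_card, ← Finset.card_univ, h1]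
  push_cast
  refine Finset.sum_congr rfl fun m _ => ?_
  congr 1
  rw [Nat.card_eq_fintype_card, Fintype.card_subtype]
  congr 1
  ext p
  simp only [Finset.mem_filter, Finset.mem_univ, true_and]
  exact hiff p m

/-- `card_nilPairs`, `card_pairs`, `Nty_eq` (`psize_mcol`), `neg_hq`, `prod_mcol`. -/
theorem Pc_formula (Q : Quiv I E) (F : Type) [Field F] [Fintype F] (α : I →₀ ℕ) :
    Pc Q F α = ∑ m ∈ mps α, cc (Fintype.card F : ℚ) (adj Q) m := by
  have hq : (Fintype.card F : ℚ) ≠ 0 := by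
    exact_mod_cast Fintype.card_ne_zero
  have hG : ∀ i, (Nat.card (Matrix (Fin (α i)) (Fin (α i)) F)ˣ : ℚ) ≠ 0 := by
    intro i
    have : Nat.card (Matrix (Fin (α i)) (Fin (α i)) F)ˣ ≠ 0 := Nat.card_pos.ne'
    exact_mod_cast this
  have hGp : (∏ i, (Nat.card (Matrix (Fin (α i)) (Fin (α i)) F)ˣ : ℚ)) ≠ 0 :=
    Finset.prod_ne_zero_iff.2 fun i _ => hG i
  unfold Pc
  rw [div_eq_iff hGp, card_nilPairs, Finset.sum_mul]
  refine Finset.sum_congr rfl fun m hm => ?_
  rw [mem_mps] at hm
  rw [card_pairs]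
  have h1 : ∀ i, Nty F (α i) (mcol m i) = (Nat.card (Matrix (Fin (α i)) (Fin (α i)) F)ˣ : ℚ) *
      ((Fintype.card F : ℚ) ^ (-((mlam (mcol m i) (mcol m i) : ℕ) : ℤ)) *
        (mcol m i).prod fun _ x => (qpoch (Fintype.card F : ℚ) x)⁻¹) := fun i =>
    Nty_eq F (by rw [psize_mcol, hm])
  rw [Finset.prod_congr rfl fun i _ => h1 i, Finset.prod_mul_distrib, Finset.prod_mul_distrib]
  have h2 : (m.prod fun _ x => (qpoch (Fintype.card F : ℚ) x)⁻¹) =
      ∏ i, (mcol m i).prod fun _ x => (qpoch (Fintype.card F : ℚ) x)⁻¹ :=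
    prod_mcol (fun x => (qpoch (Fintype.card F : ℚ) x)⁻¹) (by simp [qpoch]) m
  unfold cc
  rw [h2, neg_hq, zpow_sub₀ hq, zpow_natCast, zpow_natCast]
  have h3 : ∏ i, (Fintype.card F : ℚ) ^ (-((mlam (mcol m i) (mcol m i) : ℕ) : ℤ)) =
      ((Fintype.card F : ℚ) ^ (∑ i, mlam (mcol m i) (mcol m i)))⁻¹ := by
    rw [← Finset.prod_pow_eq_pow_sum, ← Finset.prod_inv_distrib]
    refine Finset.prod_congr rfl fun i _ => ?_
    rw [zpow_neg, zpow_natCast]
  rw [h3]
  ring

end Pool.Agent.H27.KAC

end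

section

/-!
Project KAC, part II.1 (helper78), corollary of the explicit formula: the number `Pc Q F α` is a rational function
of `card F` which depends only on `adj Q` and `α`.
-/

set_option autoImplicit false

namespace Pool.Agent.H27.KAC

open scoped BigOperators
open Polynomial

/-- `Pc_formula` and `Rel.sum_cc`. -/
theorem Pc_rat {I : Type} [Fintype I] [DecidableEq I] (a : I → I → ℕ) (α : I → ℕ) :
    ∃ U W : ℚ[X], (∀ q : ℕ, 2 ≤ q → W.eval (q : ℚ) ≠ 0) ∧
      ∀ (E : Type) [Fintype E] (Q : Quiv I E), adj Q = a → ∀ (F : Type) [Field F] [Fintype F],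
        Pc Q F α * W.eval (Fintype.card F : ℚ) = U.eval (Fintype.card F : ℚ) := by
  obtain ⟨U, W, hW, hUW, -⟩ := Rel.sum_cc a (Finsupp.equivFunOnFinite.symm α)
  refine ⟨U, W, fun q hq => hW q (by exact_mod_cast hq), fun E _ Q hQ F _ _ => ?_⟩
  have hc : (1 : ℚ) < (Fintype.card F : ℚ) := by exact_mod_cast Fintype.one_lt_card
  have h1 := Pc_formula Q F (Finsupp.equivFunOnFinite.symm α)
  have h2 : ((Finsupp.equivFunOnFinite.symm α : I →₀ ℕ) : I → ℕ) = α := rfl
  rw [h2, hQ] at h1
  have h3 := h1.trans (hUW _ hc)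
  rw [h3, div_mul_cancel₀ _ (hW _ hc)]

end Pool.Agent.H27.KAC

end

section

/-!
KAC ADE: bridge between the definitions of the engine (`cv`, `FT`, `clusters`, `sol`) and those of the cluster
calculus (`cq`, `cqN`, `FinT`, `comps`, `solN`).
-/

set_option autoImplicit false

namespace Pool.Agent.H40.KADE

open scoped BigOperators
open Pool.Agent.H27.KAC

variable {I : Type} [Fintype I] [DecidableEq I]

theorem cv_eq_cq (a : I → I → ℕ) (v : I → ℚ) (i : I) : cv a v i = cq a v i := rfl

theorem cv_eq_cqN (a : I → I → ℕ) (W : Finset I) (v : I → ℚ) (hv : ∀ x, x ∉ W → v x = 0) (i : I) :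
    cv a v i = cqN a W v i := by
  unfold cv cqN
  symm
  apply Finset.sum_subset (Finset.subset_univ W)
  intro j _ hj
  rw [hv j hj, mul_zero]

theorem cqN_eq_cv (a : I → I → ℕ) (W : Finset I) (v : I → ℚ) (i : I) :
    cqN a W v i = cv a (fun j => if j ∈ W then v j else 0) i := by
  unfold cv cqN
  rw [← Finset.sum_subset (Finset.subset_univ W)]
  · refine Finset.sum_congr rfl fun j hj => ?_
    beta_reduce
    rw [if_pos hj]
  · intro j _ hj
    beta_reduce
    rw [if_neg hj, mul_zero]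

/-- the quadratic form of a symmetric matrix in terms of a vector `u`. -/
theorem Br_form (N : Finset I) (c : I → I → ℚ) (hc : ∀ i j, c i j = c j i) (u z : I → ℚ) :
    2 * ∑ i ∈ N, (u i * z i) * ∑ j ∈ N, c i j * (u j * z j) =
      2 * ∑ i ∈ N, z i ^ 2 * u i * (∑ j ∈ N, c i j * u j) +
        ∑ i ∈ N, ∑ j ∈ N, (-c i j) * u i * u j * (z i - z j) ^ 2 := by
  have h1 : ∑ i ∈ N, ∑ j ∈ N, (-c i j) * u i * u j * (z i - z j) ^ 2 =
      2 * (∑ i ∈ N, ∑ j ∈ N, c i j * u i * u j * z i * z j) -
        (∑ i ∈ N, ∑ j ∈ N, c i j * u i * u j * z i ^ 2) -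
        ∑ i ∈ N, ∑ j ∈ N, c i j * u i * u j * z j ^ 2 := by
    rw [Finset.mul_sum, ← Finset.sum_sub_distrib, ← Finset.sum_sub_distrib]
    refine Finset.sum_congr rfl fun i _ => ?_
    rw [Finset.mul_sum, ← Finset.sum_sub_distrib, ← Finset.sum_sub_distrib]
    refine Finset.sum_congr rfl fun j _ => ?_
    ring
  have h2 : ∑ i ∈ N, ∑ j ∈ N, c i j * u i * u j * z j ^ 2 =
      ∑ i ∈ N, ∑ j ∈ N, c i j * u i * u j * z i ^ 2 := by
    rw [Finset.sum_comm]
    refine Finset.sum_congr rfl fun i _ => Finset.sum_congr rfl fun j _ => ?_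
    rw [hc j i]
    ring
  have h3 : ∑ i ∈ N, z i ^ 2 * u i * (∑ j ∈ N, c i j * u j) =
      ∑ i ∈ N, ∑ j ∈ N, c i j * u i * u j * z i ^ 2 := by
    refine Finset.sum_congr rfl fun i _ => ?_
    rw [Finset.mul_sum]
    exact Finset.sum_congr rfl fun j _ => by ring
  have h4 : ∑ i ∈ N, (u i * z i) * ∑ j ∈ N, c i j * (u j * z j) =
      ∑ i ∈ N, ∑ j ∈ N, c i j * u i * u j * z i * z j := by
    refine Finset.sum_congr rfl fun i _ => ?_
    rw [Finset.mul_sum]
    exact Finset.sum_congr rfl fun j _ => by ring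
  rw [h1, h2, h3, h4]
  ring

theorem cart_symm (a : I → I → ℕ) (hs : ∀ i j, a i j = a j i) (i j : I) :
    cart a i j = cart a j i := by
  unfold cart
  rw [hs i j]
  by_cases h : i = j
  · rw [if_pos h, if_pos h.symm]
  · rw [if_neg h, if_neg (Ne.symm h)]

theorem FT_FinT (a : I → I → ℕ) (hs : ∀ i j, a i j = a j i) {W : Finset I} (h : FT a W) :
    FinT a W := by
  refine ⟨h.loopfree, ?_⟩
  rintro v ⟨i0, hi0, hv0⟩
  obtain ⟨u, hu, hu0, hcu⟩ := h.pos
  set z : I → ℚ := fun i => v i / u i with hz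
  have huz : ∀ i ∈ W, u i * z i = v i := by
    intro i hi
    simp only [hz]
    rw [mul_div_cancel₀ _ (hu i hi).ne']
  have h1 : ∑ i ∈ W, v i * cqN a W v i =
      ∑ i ∈ W, (u i * z i) * ∑ j ∈ W, ((cart a i j : ℤ) : ℚ) * (u j * z j) := by
    refine Finset.sum_congr rfl fun i hi => ?_
    rw [huz i hi]
    congr 1
    unfold cqN
    exact Finset.sum_congr rfl fun j hj => by rw [huz j hj]
  have h2 := Br_form W (fun i j => ((cart a i j : ℤ) : ℚ)) (fun i j => by
    rw [cart_symm a hs]) u z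
  have h3 : 0 < ∑ i ∈ W, z i ^ 2 * u i * (∑ j ∈ W, ((cart a i j : ℤ) : ℚ) * u j) := by
    have h4 : ∀ i ∈ W, 0 < ∑ j ∈ W, ((cart a i j : ℤ) : ℚ) * u j := by
      intro i hi
      have h5 := hcu i hi
      rw [cv_eq_cqN a W u hu0] at h5
      exact h5
    refine Finset.sum_pos' ?_ ⟨i0, hi0, ?_⟩
    · intro i hi
      have := h4 i hi
      have := hu i hi
      positivity
    · have h5 := h4 i0 hi0
      have h6 := hu i0 hi0
      have h7 : z i0 ≠ 0 := by
        simp only [hz]
        exact div_ne_zero hv0 h6.ne'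
      positivity
  have h4 : 0 ≤ ∑ i ∈ W, ∑ j ∈ W, (-((cart a i j : ℤ) : ℚ)) * u i * u j * (z i - z j) ^ 2 := by
    refine Finset.sum_nonneg fun i hi => Finset.sum_nonneg fun j hj => ?_
    by_cases hij : i = j
    · rw [hij]
      simp
    · rw [cart_ne a hij]
      have h5 := hu i hi
      have h6 := hu j hj
      push_cast
      rw [neg_neg]
      positivity
  rw [h1]
  linarith

theorem FinT_FT (a : I → I → ℕ) (hs : ∀ i j, a i j = a j i) {W : Finset I} (h : FinT a W) :
    FT a W := by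
  refine ⟨h.loopfree, solN a W (fun _ => 1), ?_, ?_, ?_⟩
  · intro x hx
    exact solN_pos_self hs h _ (fun _ _ => zero_le_one) x hx one_pos
  · intro x hx
    exact solN_out a W _ x hx
  · intro x hx
    rw [cv_eq_cqN a W _ (fun x hx => solN_out a W _ x hx), solN_spec hs h _ x hx]
    exact one_pos

theorem clusters_conn (a : I → I → ℕ) (hs : ∀ i j, a i j = a j i) {W N : Finset I}
    (h : N ∈ clusters a W) : ConnS a N := by
  refine ⟨cl_nonempty a h, ?_⟩
  intro S hS hne hSN
  by_contra hcon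
  push Not at hcon
  apply hSN
  apply cl_conn a hs h hS hne
  intro x hx y hy hxy
  by_contra hyS
  have h1 := hcon x hx y hy hyS
  omega

theorem conn_clusters (a : I → I → ℕ) (hs : ∀ i j, a i j = a j i) {N : Finset I}
    (h : ConnS a N) : N ∈ clusters a N := by
  obtain ⟨x, hx⟩ := h.1
  obtain ⟨N', hN', hxN'⟩ := cl_exists a hx
  have h1 : N' = N := by
    by_contra hne
    obtain ⟨i, hi, j, hj, hjN, hij⟩ := h.2 N' (cl_sub a hN') ⟨x, hxN'⟩ hne
    exact hjN (cl_closed a hs hN' hi hj hij)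
  rw [h1] at hN'
  exact hN'

theorem clusters_eq_comps (a : I → I → ℕ) (hs : ∀ i j, a i j = a j i) (W : Finset I) :
    clusters a W = comps a W := by
  classical
  ext N
  unfold comps
  rw [Finset.mem_filter, Finset.mem_powerset]
  constructor
  · intro h
    refine ⟨cl_sub a h, clusters_conn a hs h, ?_⟩
    intro i hi j hj hjN
    by_contra hne
    exact hjN (cl_closed a hs h hi hj (Nat.pos_of_ne_zero hne))
  · rintro ⟨h1, h2, h3⟩
    apply cl_of a hs h1 (conn_clusters a hs h2)
    intro x hx y hy hxy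
    by_contra hyN
    have := h3 x hx y hy hyN
    omega

theorem FTC_iff (a : I → I → ℕ) (hs : ∀ i j, a i j = a j i) (N : Finset I) (q : I → ℚ) :
    FTC a N q ↔ FinT a N ∧ ConnS a N ∧ ∀ x ∈ N, IsZ (cqN a N q x) := by
  constructor
  · intro h
    refine ⟨FT_FinT a hs h.ft, clusters_conn a hs h.conn, ?_⟩
    intro x hx
    obtain ⟨z, hz⟩ := h.wt x hx
    exact ⟨z, by rw [cqN_eq_cv]; exact hz⟩
  · rintro ⟨h1, h2, h3⟩
    refine ⟨FinT_FT a hs h1, conn_clusters a hs h2, ?_⟩
    intro x hx
    obtain ⟨z, hz⟩ := h3 x hx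
    exact ⟨z, by rw [← cqN_eq_cv]; exact hz⟩

/-- every weight class has an admissible representative (`QOk`), differing by integers, also arbitrarily positive. -/
theorem exists_QOk (a : I → I → ℕ) (hs : ∀ i j, a i j = a j i) {N : Finset I} (h : FinT a N)
    (q : I → ℚ) (hq : ∀ x ∈ N, IsZ (cqN a N q x)) (B : ℕ) :
    ∃ q' : I → ℚ, (∀ x, x ∉ N → q' x = q x) ∧ (∀ x ∈ N, IsZ (q' x - q x)) ∧
      ∀ x ∈ N, ∃ n : ℕ, B ≤ n ∧ cqN a N q' x = n := by
  classical
  set w : I → ℚ := solN a N (fun _ => 1) with hw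
  set D : ℕ := ∏ x ∈ N, (w x).den with hD
  have hD1 : 1 ≤ D := Finset.prod_pos fun x _ => (w x).den_pos
  have hDw : ∀ x ∈ N, ∃ z : ℤ, (D : ℚ) * w x = z := by
    intro x hx
    obtain ⟨e, he⟩ : (w x).den ∣ D := Finset.dvd_prod_of_mem (fun x => (w x).den) hx
    refine ⟨e * (w x).num, ?_⟩
    rw [he]
    push_cast
    have h1 := Rat.den_mul_eq_num (w x)
    rw [mul_comm ((w x).den : ℚ) (e : ℚ), mul_assoc, h1]
  set t : ℕ := B + ∑ x ∈ N, ⌈|cqN a N q x|⌉₊ with ht
  refine ⟨fun x => if x ∈ N then q x + t * (D * w x) else q x, ?_, ?_, ?_⟩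
  · intro x hx
    beta_reduce
    rw [if_neg hx]
  · intro x hx
    beta_reduce
    rw [if_pos hx]
    obtain ⟨z, hz⟩ := hDw x hx
    refine ⟨t * z, ?_⟩
    rw [hz]
    push_cast
    ring
  · intro x hx
    have h1 : cqN a N (fun x => if x ∈ N then q x + t * (D * w x) else q x) x =
        cqN a N q x + t * D := by
      have h2 : cqN a N w x = 1 := by
        rw [hw]
        exact solN_spec hs h _ x hx
      unfold cqN at h2 ⊢
      rw [← mul_one ((t : ℚ) * D), ← h2, Finset.mul_sum, ← Finset.sum_add_distrib]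
      refine Finset.sum_congr rfl fun j hj => ?_
      beta_reduce
      rw [if_pos hj]
      ring
    obtain ⟨z, hz⟩ := hq x hx
    have h3 : |cqN a N q x| ≤ (∑ x ∈ N, ⌈|cqN a N q x|⌉₊ : ℕ) := by
      refine (Nat.le_ceil _).trans ?_
      exact_mod_cast Finset.single_le_sum (f := fun x => ⌈|cqN a N q x|⌉₊)
        (fun _ _ => Nat.zero_le _) hx
    have h4 : (t : ℚ) * D ≥ t := by
      have h5 : (1 : ℚ) ≤ D := by exact_mod_cast hD1
      have h6 : (0 : ℚ) ≤ t := Nat.cast_nonneg _
      nlinarith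
    have h5 : (t : ℚ) = B + (∑ x ∈ N, ⌈|cqN a N q x|⌉₊ : ℕ) := by
      rw [ht]
      push_cast
      ring
    have h6 := neg_abs_le (cqN a N q x)
    have h7 : (B : ℚ) ≤ cqN a N q x + t * D := by
      linarith
    have h8 : ((B : ℤ) : ℚ) ≤ ((z + t * D : ℤ) : ℚ) := by
      push_cast
      rw [← hz]
      exact h7
    have h9 : (B : ℤ) ≤ z + t * D := by exact_mod_cast h8
    refine ⟨(z + t * D).toNat, by omega, ?_⟩
    rw [h1, hz]
    have h10 : (((z + t * D).toNat : ℤ) : ℚ) = ((z + t * D : ℤ) : ℚ) := by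
      rw [Int.toNat_of_nonneg (by omega)]
    rw [Int.cast_natCast] at h10
    rw [h10]
    push_cast
    ring

/-- `sol` and `solN`. -/
theorem sol_eq_solN (a : I → I → ℕ) (hs : ∀ i j, a i j = a j i) {W : Finset I} (h : FinT a W)
    (r : I → ℚ) : sol a W r = solN a W r := by
  funext x
  by_cases hx : x ∈ W
  · apply solN_unique hs h r
    · intro i hi
      rw [← cv_eq_cqN a W _ (fun x hx => sol_off a W r x hx)]
      exact sol_cv a (FinT_FT a hs h) r i hi
    · exact hx
  · rw [sol_off a W r x hx, solN_out a W r x hx]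

end Pool.Agent.H40.KADE

end

section

/-!
KAC ADE: the value `GG` of a state in terms of families of formal functionals on the clusters; `norm` and `poly`.
-/

set_option autoImplicit false

namespace Pool.Agent.H40.KADE

open scoped BigOperators
open Pool.Agent.H27.KAC

variable {I : Type} [Fintype I] [DecidableEq I]

/-- exponents of a state. -/
noncomputable def stE (k : ℕ) (P p : I → ℚ) : QE I :=
  ∑ i, ((-P i) • sy i k + (p i) • sy i (k - 1))

/-- columns of a state (zero on the walls; they are replaced by the patterns). -/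
noncomputable def stCol (k : ℕ) (M N : I → I → ℚ) (W : Finset I) (i : I) : QE I :=
  if i ∈ W then 0 else ∑ l ∈ Finset.univ \ W, (M l i • sy l k - N l i • sy l (k - 1))

/-- the term of a state. -/
noncomputable def stTrm (k : ℕ) (γ P p : I → ℚ) (M N : I → I → ℚ) (W : Finset I) : Trm I :=
  ⟨γ, stE k P p, stCol k M N W⟩

/-- the blocks of a state. -/
noncomputable def stBlk (a : I → I → ℕ) (fam : Finset I → (I → ℚ) → (ℕ → ℚ) → ℕ → FFn I) (k : ℕ)
    (W : Finset I) (q : I → ℚ) (w : Finset I → ℕ → ℚ) : List (Finset I × FFn I) :=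
  (comps a W).toList.map (fun B => (B, fam B q (w B) (k - 1)))

/-- the value of a state, for a selection `fam` of families of functionals: `fam B q w f` is a formal functional on
`B` of class `q`, weights `w`, at the frontier `f`. -/
noncomputable def GG (a : I → I → ℕ) (fam : Finset I → (I → ℚ) → (ℕ → ℚ) → ℕ → FFn I)
    (k : ℕ) (γ P p : I → ℚ) (M N : I → I → ℚ) (W : Finset I) (q : I → ℚ)
    (w : Finset I → ℕ → ℚ) : ℚ :=
  evU a (stBlk a fam k W q w) (stTrm k γ P p M N W)

/-! ### linear algebra of the columns -/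

theorem patT_cols_comm (a : I → I → ℕ) (B R : Finset I) (h : Disjoint B R) (π : Pat I)
    (c : I → QE I) (T : Trm I) :
    patT a B π (T.cols R c) = (patT a B π T).cols R c := by
  refine Trm.ext rfl rfl ?_
  funext i
  show (if i ∈ B then sy i (π.s i + 1) else if i ∈ R then c i else T.Λ i) =
    if i ∈ R then c i else if i ∈ B then sy i (π.s i + 1) else T.Λ i
  by_cases h1 : i ∈ B
  · rw [if_pos h1, if_neg (Finset.disjoint_left.1 h h1), if_pos h1]
  · rw [if_neg h1, if_neg h1]

theorem patT_Λ (a : I → I → ℕ) (B : Finset I) (π : Pat I) (T : Trm I) (i : I) :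
    (patT a B π T).Λ i = if i ∈ B then sy i (π.s i + 1) else T.Λ i := rfl

theorem evU_cons_def (a : I → I → ℕ) (b : Finset I × FFn I) (U : List (Finset I × FFn I))
    (T : Trm I) :
    evU a (b :: U) T = (b.2.map (fun c => c.1 * evU a U (patT a b.1 c.2 T))).sum := rfl

theorem GDef_mul_sum {ι : Type} (r : ℚ) (l : List ι) (f : ι → ℚ) :
    r * (l.map f).sum = (l.map (fun c => r * f c)).sum := by
  induction l with
  | nil => simp
  | cons c l ih =>
    rw [List.map_cons, List.sum_cons, List.map_cons, List.sum_cons, mul_add, ih]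

/-- linear change of the columns in `univ \ W`. -/
theorem evU_lin (a : I → I → ℕ) (W : Finset I) (A : I → I → ℚ)
    (U : List (Finset I × FFn I)) (hU : ∀ b ∈ U, b.1 ⊆ W) (T : Trm I) :
    evU a U (T.cols (Finset.univ \ W) (fun i => ∑ j ∈ Finset.univ \ W, A j i • T.Λ j)) =
      (blk W A).det * evU a U T := by
  induction U generalizing T with
  | nil =>
    show TV a _ = _ * TV a T
    rw [← TV_matrix]
    congr 1
    refine Trm.ext rfl rfl ?_
    funext i
    show (if i ∈ Finset.univ \ W then ∑ j ∈ Finset.univ \ W, A j i • T.Λ j else T.Λ i) =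
      ∑ j, blk W A j i • T.Λ j
    by_cases hi : i ∈ W
    · rw [if_neg (fun h => (Finset.mem_sdiff.1 h).2 hi), Finset.sum_eq_single i]
      · unfold blk
        rw [Matrix.of_apply, if_pos (Or.inr hi), if_pos rfl, one_smul]
      · intro j _ hj
        unfold blk
        rw [Matrix.of_apply, if_pos (Or.inr hi), if_neg hj, zero_smul]
      · intro h
        exact absurd (Finset.mem_univ i) h
    · rw [if_pos (Finset.mem_sdiff.2 ⟨Finset.mem_univ i, hi⟩)]
      rw [← Finset.sum_subset (Finset.subset_univ (Finset.univ \ W))]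
      · refine Finset.sum_congr rfl fun j hj => ?_
        unfold blk
        rw [Matrix.of_apply, if_neg]
        rintro (h | h)
        · exact (Finset.mem_sdiff.1 hj).2 h
        · exact hi h
      · intro j _ hj
        have hjW : j ∈ W := by
          by_contra h
          exact hj (Finset.mem_sdiff.2 ⟨Finset.mem_univ j, h⟩)
        unfold blk
        rw [Matrix.of_apply, if_pos (Or.inl hjW), if_neg, zero_smul]
        rintro rfl
        exact hi hjW
  | cons b U ih =>
    have hb := hU b (List.mem_cons_self)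
    have hdis : Disjoint b.1 (Finset.univ \ W) := by
      rw [Finset.disjoint_left]
      intro x hx hx'
      exact (Finset.mem_sdiff.1 hx').2 (hb hx)
    rw [evU_cons_def, evU_cons_def, GDef_mul_sum]
    congr 1
    refine List.map_congr_left fun c _ => ?_
    rw [patT_cols_comm a _ _ hdis]
    have h1 : (fun i => ∑ j ∈ Finset.univ \ W, A j i • T.Λ j) =
        fun i => ∑ j ∈ Finset.univ \ W, A j i • (patT a b.1 c.2 T).Λ j := by
      funext i
      refine Finset.sum_congr rfl fun j hj => ?_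
      rw [patT_Λ, if_neg (fun h => (Finset.mem_sdiff.1 hj).2 (hb h))]
    rw [h1, ih (fun b hb => hU b (List.mem_cons_of_mem _ hb))]
    ring

theorem stBlk_sub (a : I → I → ℕ) (fam : Finset I → (I → ℚ) → (ℕ → ℚ) → ℕ → FFn I) (k : ℕ)
    (W : Finset I) (q : I → ℚ) (w : Finset I → ℕ → ℚ) (b : Finset I × FFn I)
    (hb : b ∈ stBlk a fam k W q w) : b.1 ⊆ W := by
  unfold stBlk at hb
  rw [List.mem_map] at hb
  obtain ⟨B, hB, rfl⟩ := hb
  exact comps_subset (Finset.mem_toList.1 hB)

theorem GG_norm (a : I → I → ℕ) (fam : Finset I → (I → ℚ) → (ℕ → ℚ) → ℕ → FFn I)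
    (k : ℕ) (γ P p : I → ℚ) (M N H : I → I → ℚ) (W : Finset I) (q : I → ℚ)
    (w : Finset I → ℕ → ℚ)
    (hN : ∀ l i, l ∉ W → i ∉ W → N l i = ∑ l' ∈ Finset.univ \ W, H l l' * M l' i) :
    GG a fam k γ P p M N W q w = (blk W M).det * GG a fam k γ P p idm H W q w := by
  unfold GG
  rw [← evU_lin a W M _ (fun b hb => stBlk_sub a fam k W q w b hb)]
  congr 1
  refine Trm.ext rfl rfl ?_
  funext i
  show stCol k M N W i = if i ∈ Finset.univ \ W then
    ∑ j ∈ Finset.univ \ W, M j i • stCol k idm H W j else stCol k idm H W i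
  by_cases hi : i ∈ W
  · rw [if_neg (fun h => (Finset.mem_sdiff.1 h).2 hi)]
    unfold stCol
    rw [if_pos hi, if_pos hi]
  · rw [if_pos (Finset.mem_sdiff.2 ⟨Finset.mem_univ i, hi⟩)]
    have h1 : stCol k M N W i = ∑ l ∈ Finset.univ \ W, (M l i • sy l k - N l i • sy l (k - 1)) := by
      unfold stCol
      rw [if_neg hi]
    have h2 : ∀ j ∈ Finset.univ \ W, M j i • stCol k idm H W j =
        M j i • sy j k - ∑ l ∈ Finset.univ \ W, (H l j * M j i) • sy l (k - 1) := by
      intro j hj
      unfold stCol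
      rw [if_neg (Finset.mem_sdiff.1 hj).2, Finset.sum_sub_distrib, smul_sub]
      congr 1
      · rw [Finset.sum_eq_single j]
        · unfold idm
          rw [if_pos rfl, one_smul]
        · intro l _ hl
          unfold idm
          rw [if_neg hl, zero_smul]
        · intro h
          exact absurd hj h
      · rw [Finset.smul_sum]
        refine Finset.sum_congr rfl fun l _ => ?_
        rw [smul_smul, mul_comm]
    rw [h1, Finset.sum_congr rfl h2, Finset.sum_sub_distrib, Finset.sum_sub_distrib]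
    congr 1
    rw [Finset.sum_comm]
    refine Finset.sum_congr rfl fun l hl => ?_
    rw [hN l i (Finset.mem_sdiff.1 hl).2 hi, Finset.sum_smul]

/-! ### polynomial dependence -/

theorem TV_poly (a : I → I → ℕ) (γ : I → ℚ) (E : QE I) (S : Finset I) (c d e : I → QE I) :
    ∃ f : Polynomial ℚ, ∀ δ : ℚ,
      TV a ⟨γ, E, fun i => if i ∈ S then c i + δ • d i else e i⟩ = f.eval δ := by
  induction S using Finset.induction_on generalizing e with
  | empty =>
    refine ⟨Polynomial.C (TV a ⟨γ, E, e⟩), fun δ => ?_⟩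
    rw [Polynomial.eval_C]
    have h1 : (⟨γ, E, fun i => if i ∈ (∅ : Finset I) then c i + δ • d i else e i⟩ : Trm I) =
        ⟨γ, E, e⟩ := by
      refine Trm.ext rfl rfl ?_
      funext i
      show (if i ∈ (∅ : Finset I) then c i + δ • d i else e i) = e i
      rw [if_neg (Finset.notMem_empty i)]
    rw [h1]
  | insert j S hj ih =>
    obtain ⟨f1, hf1⟩ := ih (Function.update e j (c j))
    obtain ⟨f2, hf2⟩ := ih (Function.update e j (d j))
    refine ⟨f1 + Polynomial.X * f2, fun δ => ?_⟩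
    rw [Polynomial.eval_add, Polynomial.eval_mul, Polynomial.eval_X, ← hf1, ← hf2]
    have h0 : ∀ x : QE I, (⟨γ, E, fun i => if i ∈ S then c i + δ • d i else
        Function.update e j x i⟩ : Trm I) =
        (⟨γ, E, fun i => if i ∈ S then c i + δ • d i else e i⟩ : Trm I).col j x := by
      intro x
      refine Trm.ext rfl rfl ?_
      funext i
      show (if i ∈ S then c i + δ • d i else Function.update e j x i) =
        Function.update (fun i => if i ∈ S then c i + δ • d i else e i) j x i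
      by_cases hi : i = j
      · subst hi
        rw [if_neg hj, Function.update_self, Function.update_self]
      · rw [Function.update_of_ne hi, Function.update_of_ne hi]
    have h1 : (⟨γ, E, fun i => if i ∈ insert j S then c i + δ • d i else e i⟩ : Trm I) =
        (⟨γ, E, fun i => if i ∈ S then c i + δ • d i else e i⟩ : Trm I).col j
          (c j + δ • d j) := by
      refine Trm.ext rfl rfl ?_
      funext i
      show (if i ∈ insert j S then c i + δ • d i else e i) =
        Function.update (fun i => if i ∈ S then c i + δ • d i else e i) j (c j + δ • d j) i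
      by_cases hi : i = j
      · subst hi
        rw [if_pos (Finset.mem_insert_self i S), Function.update_self]
      · rw [Function.update_of_ne hi]
        by_cases hiS : i ∈ S
        · rw [if_pos (Finset.mem_insert_of_mem hiS), if_pos hiS]
        · rw [if_neg (fun h => hiS (Finset.mem_of_mem_insert_of_ne h hi)), if_neg hiS]
    rw [h0, h0, h1, TV_col_add, TV_col_smul]

theorem evU_poly (a : I → I → ℕ) (U : List (Finset I × FFn I)) (γ : I → ℚ) (E : QE I)
    (c d : I → QE I) :
    ∃ f : Polynomial ℚ, ∀ δ : ℚ, evU a U ⟨γ, E, fun i => c i + δ • d i⟩ = f.eval δ := by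
  induction U generalizing γ E c d with
  | nil =>
    obtain ⟨f, hf⟩ := TV_poly a γ E Finset.univ c d c
    refine ⟨f, fun δ => ?_⟩
    rw [← hf δ]
    show TV a _ = _
    congr 1
    refine Trm.ext rfl rfl ?_
    funext i
    show c i + δ • d i = if i ∈ Finset.univ then c i + δ • d i else c i
    rw [if_pos (Finset.mem_univ i)]
  | cons b U ih =>
    have key : ∀ l : FFn I, ∃ f : Polynomial ℚ, ∀ δ : ℚ,
        (l.map (fun x => x.1 * evU a U (patT a b.1 x.2 ⟨γ, E, fun i => c i + δ • d i⟩))).sum =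
          f.eval δ := by
      intro l
      induction l with
      | nil => exact ⟨0, fun δ => by simp⟩
      | cons x l ihl =>
        obtain ⟨f, hf⟩ := ihl
        obtain ⟨g, hg⟩ := ih (patT a b.1 x.2 ⟨γ, E, c⟩).γ (patT a b.1 x.2 ⟨γ, E, c⟩).E
          (fun i => if i ∈ b.1 then sy i (x.2.s i + 1) else c i)
          (fun i => if i ∈ b.1 then 0 else d i)
        refine ⟨Polynomial.C x.1 * g + f, fun δ => ?_⟩
        rw [List.map_cons, List.sum_cons, hf, Polynomial.eval_add, Polynomial.eval_mul,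
          Polynomial.eval_C, ← hg]
        congr 3
        refine Trm.ext rfl rfl ?_
        funext i
        show (if i ∈ b.1 then sy i (x.2.s i + 1) else c i + δ • d i) =
          (if i ∈ b.1 then sy i (x.2.s i + 1) else c i) + δ • (if i ∈ b.1 then 0 else d i)
        by_cases hi : i ∈ b.1
        · rw [if_pos hi, if_pos hi, if_pos hi, smul_zero, add_zero]
        · rw [if_neg hi, if_neg hi, if_neg hi]
    exact key b.2

theorem GG_poly (a : I → I → ℕ) (fam : Finset I → (I → ℚ) → (ℕ → ℚ) → ℕ → FFn I)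
    (k : ℕ) (γ P p : I → ℚ) (H : I → I → ℚ) (W : Finset I) (q : I → ℚ)
    (w : Finset I → ℕ → ℚ) :
    ∃ f : Polynomial ℚ,
      ∀ δ : ℚ, GG a fam k γ P p idm (fun l i => (1 - δ) * H l i) W q w = f.eval δ := by
  obtain ⟨f, hf⟩ := evU_poly a (stBlk a fam k W q w) γ (stE k P p) (stCol k idm H W)
    (fun i => if i ∈ W then 0 else ∑ l ∈ Finset.univ \ W, H l i • sy l (k - 1))
  refine ⟨f, fun δ => ?_⟩
  rw [← hf δ]
  unfold GG
  congr 1
  refine Trm.ext rfl rfl ?_
  funext i
  show stCol k idm (fun l i => (1 - δ) * H l i) W i = stCol k idm H W i +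
    δ • (if i ∈ W then 0 else ∑ l ∈ Finset.univ \ W, H l i • sy l (k - 1))
  unfold stCol
  by_cases hi : i ∈ W
  · rw [if_pos hi, if_pos hi, if_pos hi, smul_zero, add_zero]
  · rw [if_neg hi, if_neg hi, if_neg hi, Finset.smul_sum, ← Finset.sum_add_distrib]
    refine Finset.sum_congr rfl fun l _ => ?_
    beta_reduce
    rw [smul_smul, sub_mul, one_mul, sub_smul]
    abel

end Pool.Agent.H40.KADE

end

section

/-!
KAC ADE: the bottom states and the top states for `GG`.
-/

set_option autoImplicit false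

namespace Pool.Agent.H40.KADE

open scoped BigOperators
open Pool.Agent.H27.KAC MvPowerSeries

variable {I : Type} [Fintype I] [DecidableEq I]

/-- joint value of blocks which replace their columns. -/
theorem evU_prod (a : I → I → ℕ) (hs : ∀ i j, a i j = a j i) (col : I → QE I)
    (hcol : ∀ j x l, x ≠ j → col j (x, l) = 0) (cc : Finset I × FFn I → ℚ)
    (U : List (Finset I × FFn I)) (hd : U.Pairwise (fun b c => Sep a b.1 c.1))
    (h : ∀ b ∈ U, ∀ T : Trm I, RReg b.1 T → evF a b.1 b.2 T = cc b * TV a (T.cols b.1 col)) :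
    ∀ T : Trm I, RReg (uni U) T →
      evU a U T = (U.map cc).prod * TV a (T.cols (uni U) col) := by
  induction U with
  | nil =>
    intro T _
    show TV a T = 1 * TV a (T.cols ∅ col)
    rw [one_mul]
    congr 1
  | cons b U ih =>
    intro T hT
    rw [List.pairwise_cons] at hd
    have hdis : ∀ c ∈ U, Disjoint b.1 c.1 := fun c hc => (hd.1 c hc).1
    have hdU : U.Pairwise (fun b c => Disjoint b.1 c.1) := hd.2.imp (fun h => h.1)
    have hsep : Sep a b.1 (uni U) := AG1_sep_uni a b.1 U hd.1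
    have hT' : RReg (b.1 ∪ uni U) T := hT
    have e1 : ∀ c : ℚ × Pat I, evF a b.1 b.2 (patT a (uni U) c.2 T) =
        cc b * TV a (patT a (uni U) c.2 (T.cols b.1 col)) := by
      intro c
      rw [h b List.mem_cons_self _ (RReg_patT a hs b.1 (uni U) hsep.1 c.2
        (fun x hx y hy _ => hsep.2 x hx y hy) T hT'), patT_cols_comm a _ _ hsep.1.symm]
    have hT2 : RReg (uni U) (T.cols b.1 col) := by
      refine ⟨fun x hx l hl => hT'.nat x (Finset.mem_union_right _ hx) l hl, ?_⟩
      intro x hx j hj l hl hne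
      have hne' : (if j ∈ b.1 then col j else T.Λ j) (x, l) ≠ 0 := hne
      by_cases hjb : j ∈ b.1
      · rw [if_pos hjb] at hne'
        exfalso
        apply hne'
        apply hcol
        rintro rfl
        exact hj hx
      · rw [if_neg hjb] at hne'
        refine hT'.col x (Finset.mem_union_right _ hx) j ?_ l hl hne'
        rw [Finset.mem_union]
        rintro (h1 | h1)
        · exact hjb h1
        · exact hj h1
    have e2 : evU a (b :: U) T = cc b * evU a U (T.cols b.1 col) := by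
      rw [evU_cons' a b U hdis hdU, evU_eq_evF a U hdU]
      show _ = cc b * ((prodF U).map
        (fun c => c.1 * TV a (patT a (uni U) c.2 (T.cols b.1 col)))).sum
      rw [GDef_mul_sum]
      congr 1
      refine List.map_congr_left fun c _ => ?_
      rw [e1 c]
      ring
    rw [e2, ih hd.2 (fun c hc => h c (List.mem_cons_of_mem _ hc)) _ hT2, List.map_cons,
      List.prod_cons, mul_assoc]
    congr 3
    refine Trm.ext rfl rfl ?_
    funext i
    show (if i ∈ uni U then col i else if i ∈ b.1 then col i else T.Λ i) =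
      if i ∈ b.1 ∪ uni U then col i else T.Λ i
    by_cases h1 : i ∈ uni U
    · rw [if_pos h1, if_pos (Finset.mem_union_right _ h1)]
    · by_cases h2 : i ∈ b.1
      · rw [if_neg h1, if_pos h2, if_pos (Finset.mem_union_left _ h2)]
      · rw [if_neg h1, if_neg h2, if_neg]
        rw [Finset.mem_union]
        rintro (h3 | h3)
        · exact h2 h3
        · exact h1 h3

theorem uni_map (f : Finset I → FFn I) (L : List (Finset I)) (x : I) :
    x ∈ uni (L.map (fun B => (B, f B))) ↔ ∃ B ∈ L, x ∈ B := by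
  induction L with
  | nil =>
    show x ∈ (∅ : Finset I) ↔ _
    simp
  | cons B L ih =>
    show x ∈ B ∪ uni (L.map (fun B => (B, f B))) ↔ _
    rw [Finset.mem_union, ih]
    simp

theorem uni_stBlk (a : I → I → ℕ) (hs : ∀ i j, a i j = a j i)
    (fam : Finset I → (I → ℚ) → (ℕ → ℚ) → ℕ → FFn I) (k : ℕ)
    (W : Finset I) (q : I → ℚ) (w : Finset I → ℕ → ℚ) : uni (stBlk a fam k W q w) = W := by
  ext x
  unfold stBlk
  rw [uni_map (fun B => fam B q (w B) (k - 1))]
  constructor
  · rintro ⟨B, hB, hx⟩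
    exact comps_subset (Finset.mem_toList.1 hB) hx
  · intro hx
    obtain ⟨B, hB, hxB⟩ := comps_cover hs x hx
    exact ⟨B, Finset.mem_toList.2 hB, hxB⟩

theorem comps_Sep (a : I → I → ℕ) (hs : ∀ i j, a i j = a j i) {W A B : Finset I}
    (hA : A ∈ comps a W) (hB : B ∈ comps a W) (hAB : A ≠ B) : Sep a A B :=
  ⟨comps_disjoint hs hA hB hAB, comps_nonadj hs hA hB hAB⟩

theorem stBlk_sep (a : I → I → ℕ) (hs : ∀ i j, a i j = a j i)
    (fam : Finset I → (I → ℚ) → (ℕ → ℚ) → ℕ → FFn I) (k : ℕ)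
    (W : Finset I) (q : I → ℚ) (w : Finset I → ℕ → ℚ) :
    (stBlk a fam k W q w).Pairwise (fun b c => Sep a b.1 c.1) := by
  unfold stBlk
  rw [List.pairwise_map]
  have h1 := Finset.nodup_toList (comps a W)
  have h2 : (comps a W).toList.Pairwise (fun A B => A ∈ comps a W ∧ B ∈ comps a W ∧ A ≠ B) := by
    refine List.Pairwise.imp_of_mem ?_ h1
    intro A B hA hB hne
    exact ⟨Finset.mem_toList.1 hA, Finset.mem_toList.1 hB, hne⟩
  exact h2.imp (fun h => comps_Sep a hs h.1 h.2.1 h.2.2)

/-! ### exponents of a state -/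

theorem stE_apply (k : ℕ) (P p : I → ℚ) (x : I) (l : ℕ) :
    stE k P p (x, l) = (if l = k then -P x else 0) + (if l = k - 1 then p x else 0) := by
  unfold stE
  rw [Finsupp.finsetSum_apply, Finset.sum_eq_single x]
  · rw [Finsupp.add_apply, Finsupp.smul_apply, Finsupp.smul_apply, Finsupp.single_apply,
      Finsupp.single_apply]
    congr 1
    · by_cases h : l = k
      · rw [if_pos h, if_pos (by rw [h]), smul_eq_mul, mul_one]
      · rw [if_neg h, if_neg (fun h1 => h (Prod.mk.inj h1).2.symm), smul_zero]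
    · by_cases h : l = k - 1
      · rw [if_pos h, if_pos (by rw [h]), smul_eq_mul, mul_one]
      · rw [if_neg h, if_neg (fun h1 => h (Prod.mk.inj h1).2.symm), smul_zero]
  · intro y _ hy
    rw [Finsupp.add_apply, Finsupp.smul_apply, Finsupp.smul_apply, Finsupp.single_apply,
      Finsupp.single_apply, if_neg (fun h1 => hy (Prod.mk.inj h1).1),
      if_neg (fun h1 => hy (Prod.mk.inj h1).1), smul_zero, smul_zero, add_zero]
  · intro h
    exact absurd (Finset.mem_univ x) h

theorem stE_tdg (k : ℕ) (hk : 1 ≤ k) (P p : I → ℚ) (i : I) :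
    tdg (stE k P p) i = ((k : ℚ) - 1) * p i - (k : ℚ) * P i := by
  have h1 : ∀ s : Finset I, tdg (∑ j ∈ s, ((-P j) • sy j k + (p j) • sy j (k - 1))) i =
      ∑ j ∈ s, (if j = i then ((k : ℚ) - 1) * p i - (k : ℚ) * P i else 0) := by
    intro s
    induction s using Finset.induction_on with
    | empty => rw [Finset.sum_empty, Finset.sum_empty, tdg_zero]
    | insert j s hj ih =>
      rw [Finset.sum_insert hj, Finset.sum_insert hj, tdg_add, ih, tdg_add, tdg_smul, tdg_smul,
        tdg_single, tdg_single]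
      congr 1
      by_cases h : j = i
      · subst h
        rw [if_pos rfl, if_pos rfl, if_pos rfl]
        push_cast [Nat.cast_sub hk]
        ring
      · rw [if_neg h, if_neg h, if_neg h]
        ring
  unfold stE
  rw [h1, Finset.sum_ite_eq' Finset.univ i, if_pos (Finset.mem_univ i)]

theorem stCol_apply (k : ℕ) (M N : I → I → ℚ) (W : Finset I) (j x : I) (l : ℕ) (hx : x ∈ W) :
    stCol k M N W j (x, l) = 0 := by
  unfold stCol
  split_ifs with h
  · rfl
  · rw [Finsupp.finsetSum_apply]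
    refine Finset.sum_eq_zero fun y hy => ?_
    have hyx : y ≠ x := by
      rintro rfl
      exact (Finset.mem_sdiff.1 hy).2 hx
    rw [Finsupp.sub_apply, Finsupp.smul_apply, Finsupp.smul_apply, Finsupp.single_apply,
      Finsupp.single_apply, if_neg (fun h1 => hyx (Prod.mk.inj h1).1),
      if_neg (fun h1 => hyx (Prod.mk.inj h1).1), smul_zero, smul_zero, sub_zero]

theorem stTrm_RReg (k : ℕ) (γ P p : I → ℚ) (M N : I → I → ℚ) (W : Finset I)
    (hP : ∀ x ∈ W, P x = 0) (hp : ∀ x ∈ W, p x = 0) : RReg W (stTrm k γ P p M N W) := by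
  refine ⟨?_, ?_⟩
  · intro x hx l _
    refine ⟨0, ?_⟩
    show stE k P p (x, l) = _
    rw [stE_apply, hP x hx, hp x hx]
    simp
  · intro x hx j _ l _ hne
    exact absurd (stCol_apply k M N W j x l hx) hne

/-! ### the bottom states -/

theorem GG_bot (a : I → I → ℕ) (hs : ∀ i j, a i j = a j i)
    (fam : Finset I → (I → ℚ) → (ℕ → ℚ) → ℕ → FFn I) (γ P p : I → ℚ) (M N : I → I → ℚ)
    (W : Finset I) (q : I → ℚ) (w : Finset I → ℕ → ℚ)
    (hP : ∀ x ∈ W, P x = 0) (hp : ∀ x ∈ W, p x = 0)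
    (hcons : ∀ i, cv a γ i = -P i)
    (hfam : ∀ B ∈ comps a W, ∀ T : Trm I, RReg B T →
      evF a B (fam B q (w B) 0) T = w B 0 * TV a (T.cols B (fun x => sy x 1))) :
    GG a fam 1 γ P p M N W q w =
      if ∀ i, γ i = 0 then (blk W M).det * ∏ B ∈ clusters a W, w B 0 else 0 := by
  have h1 := evU_prod a hs (fun x => sy x 1) (by
      intro j x l hx
      rw [Finsupp.single_apply, if_neg (fun h1 => hx (Prod.mk.inj h1).1.symm)])
    (fun b => w b.1 0) (stBlk a fam 1 W q w) (stBlk_sep a hs fam 1 W q w) (by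
      intro b hb T hT
      unfold stBlk at hb
      rw [List.mem_map] at hb
      obtain ⟨B, hB, rfl⟩ := hb
      exact hfam B (Finset.mem_toList.1 hB) T hT) (stTrm 1 γ P p M N W) (by
      rw [uni_stBlk a hs]
      exact stTrm_RReg 1 γ P p M N W hP hp)
  unfold GG
  rw [h1, uni_stBlk a hs]
  have h2 : ((stBlk a fam 1 W q w).map (fun b => w b.1 0)).prod = ∏ B ∈ clusters a W, w B 0 := by
    unfold stBlk
    rw [List.map_map, clusters_eq_comps a hs, ← Finset.prod_map_toList]
    rfl
  rw [h2]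
  -- the value of the term
  have h3 : TV a ((stTrm 1 γ P p M N W).cols W (fun x => sy x 1)) =
      if ∀ i, γ i = 0 then (blk W M).det else 0 := by
    have htd : ∀ i, tdg (stE 1 P p) i = cq a γ i := by
      intro i
      rw [stE_tdg 1 le_rfl, ← cv_eq_cq, hcons i]
      push_cast
      ring
    -- the exponent part is trivial
    have hmU : mU a (stE 1 P p) = 1 := by
      have : ∀ s : Finset I, mU a (∑ j ∈ s, ((-P j) • sy j 1 + (p j) • sy j (1 - 1))) = 1 := by
        intro s
        induction s using Finset.induction_on with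
        | empty => rw [Finset.sum_empty, mU_zero]
        | insert j s hj ih =>
          rw [Finset.sum_insert hj, mU_add, ih, mU_add, mul_one, mU_smul, mU_smul, mU_single,
            mU_single, rpw_rpw _ (uS_const a j 1), rpw_rpw _ (uS_const a j (1 - 1)), uS_one,
            show uS a j (1 - 1) = 1 from uS_zero a j, rpw_unit_left, rpw_unit_left, mul_one]
      exact this Finset.univ
    have hxv1 : ∀ i l : I, xv a i 1 l = if i = l then 1 else 0 := by
      intro i l
      unfold xv dlg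
      rw [uu_coe, uS_one, dD_one, zero_mul, add_zero, Nat.cast_one]
    have hcolM : (colMat (fun i => dl a
        (((stTrm 1 γ P p M N W).cols W (fun x => sy x 1)).Λ i))) =
        (blk W M).map (C : ℚ → MvPowerSeries I ℚ) := by
      refine Matrix.ext fun l i => ?_
      show dl a (if i ∈ W then sy i 1 else stCol 1 M N W i) l = C (blk W M l i)
      by_cases hi : i ∈ W
      · rw [if_pos hi, dl_single, hxv1]
        unfold blk
        rw [Matrix.of_apply, if_pos (Or.inr hi)]
        by_cases h : i = l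
        · subst h
          rw [if_pos rfl, if_pos rfl, mul_one]
        · rw [if_neg h, if_neg (Ne.symm h), mul_zero, map_zero]
      · rw [if_neg hi]
        unfold stCol
        rw [if_neg hi]
        have h4 : ∀ s : Finset I, dl a (∑ l ∈ s, (M l i • sy l 1 - N l i • sy l (1 - 1))) l =
            ∑ j ∈ s, if j = l then C (M l i) else 0 := by
          intro s
          induction s using Finset.induction_on with
          | empty => rw [Finset.sum_empty, Finset.sum_empty, dl_zero]
          | insert j s hj ih =>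
            rw [Finset.sum_insert hj, Finset.sum_insert hj, dl_add, ih]
            congr 1
            rw [sub_eq_add_neg, dl_add, ← neg_smul, dl_smul, dl_smul, dl_single,
              show sy j (1 - 1) = Finsupp.single (j, 0) (1 : ℚ) from rfl, dl_lev0, hxv1, mul_zero,
              add_zero, map_one, one_mul]
            by_cases h : j = l
            · subst h
              rw [if_pos rfl, if_pos rfl, mul_one]
            · rw [if_neg h, if_neg h, mul_zero]
        rw [h4, Finset.sum_ite_eq' (Finset.univ \ W) l]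
        unfold blk
        rw [Matrix.of_apply]
        by_cases hl : l ∈ W
        · rw [if_neg (fun h => (Finset.mem_sdiff.1 h).2 hl), if_pos (Or.inl hl), if_neg, map_zero]
          rintro rfl
          exact hi hl
        · rw [if_pos (Finset.mem_sdiff.2 ⟨Finset.mem_univ l, hl⟩), if_neg]
          rintro (h | h)
          · exact hl h
          · exact hi h
    by_cases hok : TOk a ((stTrm 1 γ P p M N W).cols W (fun x => sy x 1))
    · rw [TV_of_ok a _ hok]
      unfold TV0
      rw [hcolM]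
      show coeff (gN γ) (mU a (stE 1 P p) * ((blk W M).map (C : ℚ → MvPowerSeries I ℚ)).det) = _
      rw [hmU, one_mul]
      have h5 : ((blk W M).map (C : ℚ → MvPowerSeries I ℚ)).det = C (blk W M).det := by
        have := (C : ℚ →+* MvPowerSeries I ℚ).map_det (blk W M)
        rw [this]
        rfl
      rw [h5, coeff_C]
      have h6 : (gN γ = 0) ↔ ∀ i, γ i = 0 := by
        constructor
        · intro h i
          have h7 := hok.1 i
          have h8 : gN γ i = 0 := by rw [h]; rfl
          have h9 : (⌊γ i⌋₊ : ℕ) = 0 := h8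
          have h10 : ((⌊γ i⌋₊ : ℕ) : ℚ) = γ i := h7
          rw [← h10, h9]
          simp
        · intro h
          ext i
          show ⌊γ i⌋₊ = 0
          rw [h i]
          simp
      by_cases h7 : ∀ i, γ i = 0
      · rw [if_pos (h6.2 h7), if_pos h7]
      · rw [if_neg (fun h => h7 (h6.1 h)), if_neg h7]
    · rw [TV_of_not a _ hok, if_neg]
      intro h
      apply hok
      refine ⟨fun i => ?_, fun i => htd i⟩
      show ((⌊γ i⌋₊ : ℕ) : ℚ) = γ i
      rw [h i]
      simp
  rw [h3]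
  by_cases h4 : ∀ i, γ i = 0
  · rw [if_pos h4, if_pos h4, mul_comm]
  · rw [if_neg h4, if_neg h4, mul_zero]

/-- level zero: `tauT a B 0 q` only sets the columns. -/
theorem TV_tauT_zero (a : I → I → ℕ) (B : Finset I) (q : I → ℚ) (T : Trm I) :
    TV a (tauT a B 0 q T) = TV a (T.cols B (fun x => sy x 1)) := by
  apply TV_lev0
  · funext i
    show T.γ i - ((0 : ℕ) : ℚ) * (-resQ B q i) = T.γ i
    push_cast
    ring
  · intro i k hk
    show (T.E - ∑ x, (-resQ B q x) • cE a x 0) (i, k) = T.E (i, k)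
    rw [Finsupp.sub_apply, Finsupp.finsetSum_apply, Finset.sum_eq_zero, sub_zero]
    intro x _
    unfold cE
    rw [Finsupp.smul_apply, Finsupp.finsetSum_apply, Finset.sum_eq_zero, smul_zero]
    intro j _
    rw [Finsupp.smul_apply, Finsupp.single_apply, if_neg, smul_zero]
    intro h
    have := (Prod.mk.inj h).2
    omega
  · intro j i k _
    rfl

/-! ### the top states -/

theorem rpw_zpow (u : (MvPowerSeries I ℚ)ˣ)
    (hu : constantCoeff (u : MvPowerSeries I ℚ) = 1) (z : ℤ) :
    rpw (u : MvPowerSeries I ℚ) (z : ℚ) = ((u ^ z : (MvPowerSeries I ℚ)ˣ) : MvPowerSeries I ℚ) := by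
  have hnat : ∀ n : ℕ, rpw (u : MvPowerSeries I ℚ) (n : ℚ) =
      ((u ^ n : (MvPowerSeries I ℚ)ˣ) : MvPowerSeries I ℚ) := by
    intro n
    rw [rpw_nat _ hu, Units.val_pow_eq_pow_val]
  rcases Int.eq_nat_or_neg z with ⟨n, rfl | rfl⟩
  · rw [zpow_natCast, ← hnat n]
    push_cast
    rfl
  · have h1 : rpw (u : MvPowerSeries I ℚ) ((-(n : ℤ) : ℤ) : ℚ) *
        rpw (u : MvPowerSeries I ℚ) (n : ℚ) = 1 := by
      rw [← rpw_add _ hu]
      push_cast
      rw [neg_add_cancel, rpw_zero _ hu]
    rw [hnat n] at h1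
    rw [zpow_neg, zpow_natCast]
    exact (Units.mul_eq_one_iff_eq_inv).1 h1

theorem mU_stE (a : I → I → ℕ) (k : ℕ) (P p : I → ℤ) :
    mU a (stE k (fun i => (P i : ℚ)) (fun i => (p i : ℚ))) =
      ((∏ i, ((uu a i k) ^ (-(P i)) * (uu a i (k - 1)) ^ (p i)) : (MvPowerSeries I ℚ)ˣ) :
        MvPowerSeries I ℚ) := by
  have : ∀ s : Finset I, mU a (∑ j ∈ s, ((-(P j : ℚ)) • sy j k + (p j : ℚ) • sy j (k - 1))) =
      ((∏ i ∈ s, ((uu a i k) ^ (-(P i)) * (uu a i (k - 1)) ^ (p i)) : (MvPowerSeries I ℚ)ˣ) :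
        MvPowerSeries I ℚ) := by
    intro s
    induction s using Finset.induction_on with
    | empty => rw [Finset.sum_empty, Finset.prod_empty, mU_zero, Units.val_one]
    | insert j s hj ih =>
      rw [Finset.sum_insert hj, Finset.prod_insert hj, mU_add, ih, mU_add, mU_smul, mU_smul,
        mU_single, mU_single, rpw_one _ (uS_const a j k), rpw_one _ (uS_const a j (k - 1)),
        Units.val_mul, Units.val_mul]
      congr 2
      · rw [← rpw_zpow (uu a j k) (by rw [uu_coe, uS_const]), uu_coe]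
        push_cast
        rfl
      · rw [← rpw_zpow (uu a j (k - 1)) (by rw [uu_coe, uS_const]), uu_coe]
  exact this Finset.univ

theorem stCol_diag (k : ℕ) (W : Finset I) (Pd : I → Prop) [DecidablePred Pd] (h : I → ℚ) (i : I)
    (hi : i ∉ W) (hP : Pd i) :
    stCol k idm (fun l i => if l = i ∧ Pd i then h i else 0) W i =
      sy i k + (-h i) • sy i (k - 1) := by
  unfold stCol
  rw [if_neg hi, Finset.sum_eq_single i]
  · unfold idm
    beta_reduce
    rw [if_pos rfl, one_smul, if_pos ⟨rfl, hP⟩, neg_smul, sub_eq_add_neg]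
  · intro l _ hl
    unfold idm
    beta_reduce
    rw [if_neg hl, zero_smul, if_neg (fun h => hl h.1), zero_smul, sub_zero]
  · intro h
    exact absurd (Finset.mem_sdiff.2 ⟨Finset.mem_univ i, hi⟩) h

/-- the top states. -/
theorem GG_top (a : I → I → ℕ) (hs : ∀ i j, a i j = a j i)
    (fam : Finset I → (I → ℚ) → (ℕ → ℚ) → ℕ → FFn I) (α : I →₀ ℕ) (K : ℕ) (μ : I → ℚ) (ε : ℚ)
    (hμ : ∀ i, a i i = 0 → cw a α i = 0 → μ i = 0)
    (hfam : ∀ B ∈ comps a (Zt a α), ∀ T : Trm I, RReg B T →
      evF a B (fam B (fun _ => 0) (fun _ => 1) K) T =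
        TV a (T.cols B (fun x => sy x (K + 1) - sy x K))) :
    Val a α ⟨fun _ => K + 1, fun i => -cw a α i, fun i => -cw a α i,
        fun l i => if l = i then 1 - ε * μ i else 0⟩ =
      GG a fam (K + 1) (fun i => (α i : ℚ)) (fun i => -((cw a α i : ℤ) : ℚ))
        (fun i => -((cw a α i : ℤ) : ℚ))
        idm (fun l i => if l = i ∧ ¬ (a i i = 0 ∧ cw a α i = 0) then 1 - ε * μ i else 0)
        (Zt a α) (fun _ => 0) (fun _ _ => 1) := by
  have hmem : ∀ i, i ∈ Zt a α ↔ a i i = 0 ∧ cw a α i = 0 := by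
    intro i
    unfold Zt
    rw [Finset.mem_filter]
    exact ⟨fun h => h.2, fun h => ⟨Finset.mem_univ _, h⟩⟩
  have hz : ∀ x ∈ Zt a α, -((cw a α x : ℤ) : ℚ) = 0 := by
    intro x hx
    rw [((hmem x).1 hx).2]
    simp
  have h1 := evU_prod a hs (fun x => sy x (K + 1) - sy x K) (by
      intro j x l hx
      rw [Finsupp.sub_apply, Finsupp.single_apply, Finsupp.single_apply,
        if_neg (fun h1 => hx (Prod.mk.inj h1).1.symm),
        if_neg (fun h1 => hx (Prod.mk.inj h1).1.symm), sub_zero])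
    (fun _ => 1) (stBlk a fam (K + 1) (Zt a α) (fun _ => 0) (fun _ _ => 1))
    (stBlk_sep a hs fam (K + 1) (Zt a α) (fun _ => 0) (fun _ _ => 1)) (by
      intro b hb T hT
      unfold stBlk at hb
      rw [List.mem_map] at hb
      obtain ⟨B, hB, rfl⟩ := hb
      rw [one_mul]
      exact hfam B (Finset.mem_toList.1 hB) T hT)
    (stTrm (K + 1) (fun i => (α i : ℚ)) (fun i => -((cw a α i : ℤ) : ℚ))
      (fun i => -((cw a α i : ℤ) : ℚ)) idm
      (fun l i => if l = i ∧ ¬ (a i i = 0 ∧ cw a α i = 0) then 1 - ε * μ i else 0) (Zt a α)) (by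
      rw [uni_stBlk a hs]
      exact stTrm_RReg (K + 1) _ _ _ _ _ (Zt a α) hz hz)
  unfold GG
  rw [h1, uni_stBlk a hs, List.prod_map_one, one_mul]
  have hcast : (fun i => -((cw a α i : ℤ) : ℚ)) = fun i => ((-cw a α i : ℤ) : ℚ) := by
    funext i
    push_cast
    rfl
  have htd : ∀ i, tdg (stE (K + 1) (fun i => -((cw a α i : ℤ) : ℚ))
      (fun i => -((cw a α i : ℤ) : ℚ))) i = (cw a α i : ℚ) := by
    intro i
    rw [stE_tdg (K + 1) (by omega)]
    push_cast
    ring
  have hΛ : ∀ i, (if i ∈ Zt a α then sy i (K + 1) - sy i K else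
      stCol (K + 1) idm (fun l i => if l = i ∧ ¬ (a i i = 0 ∧ cw a α i = 0) then 1 - ε * μ i else 0)
        (Zt a α) i) = sy i (K + 1) + (-(1 - ε * μ i)) • sy i K := by
    intro i
    by_cases hi : i ∈ Zt a α
    · rw [if_pos hi, hμ i ((hmem i).1 hi).1 ((hmem i).1 hi).2, mul_zero, sub_zero, neg_smul,
        one_smul, sub_eq_add_neg]
    · rw [if_neg hi]
      exact stCol_diag (K + 1) (Zt a α) (fun i => ¬ (a i i = 0 ∧ cw a α i = 0))
        (fun i => 1 - ε * μ i) i hi (fun h => hi ((hmem i).2 h))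
  have h2 : (stTrm (K + 1) (fun i => (α i : ℚ)) (fun i => -((cw a α i : ℤ) : ℚ))
      (fun i => -((cw a α i : ℤ) : ℚ)) idm
      (fun l i => if l = i ∧ ¬ (a i i = 0 ∧ cw a α i = 0) then 1 - ε * μ i else 0)
      (Zt a α)).cols (Zt a α) (fun x => sy x (K + 1) - sy x K) =
      ⟨fun i => ((α i : ℕ) : ℚ), stE (K + 1) (fun i => -((cw a α i : ℤ) : ℚ))
        (fun i => -((cw a α i : ℤ) : ℚ)), fun i => sy i (K + 1) + (-(1 - ε * μ i)) • sy i K⟩ :=
    Trm.ext rfl rfl (funext hΛ)
  rw [h2, TV_nat a α _ _ htd, hcast, mU_stE]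
  have hcol : colMat (fun i => dl a (sy i (K + 1) + (-(1 - ε * μ i)) • sy i K)) =
      colMat (colS a ⟨fun _ => K + 1, fun i => -cw a α i, fun i => -cw a α i,
        fun l i => if l = i then 1 - ε * μ i else 0⟩) := by
    refine Matrix.ext fun l i => ?_
    show dl a (sy i (K + 1) + (-(1 - ε * μ i)) • sy i K) l =
      xv a i (K + 1) l - ∑ l', C (if l' = i then 1 - ε * μ i else 0) * xv a l' (K + 1 - 1) l
    rw [dl_add, dl_smul, dl_single, dl_single, map_one, one_mul, one_mul, Nat.add_sub_cancel,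
      Finset.sum_eq_single i]
    · rw [if_pos rfl, map_neg, neg_mul, ← sub_eq_add_neg]
    · intro l' _ hl
      rw [if_neg hl, map_zero, zero_mul]
    · intro h
      exact absurd (Finset.mem_univ i) h
  rw [hcol]
  rfl

end Pool.Agent.H40.KADE

end

section

/-!
KAC ADE, module AG12: the recursion for the response numbers.

Fuel: in `cnA (n+1) A q g` the recursive calls are `cnA n N q (g - mm N)` with `N ⊆ A`, `mm N ≥ 2`, `mm N ≤ g`; so
`N.card + (g - mm N) + 1 ≤ A.card + g - 1`.
-/

set_option autoImplicit false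

namespace Pool.Agent.H27.KAC

open scoped BigOperators

section

variable {I : Type} [Fintype I] [DecidableEq I]

open Classical in
theorem AG12_succ (a : I → I → ℕ) (cd : CrossData a) (n : ℕ) (A : Finset I) (q : I → ℚ) (g : ℕ) :
    cnA a cd (n + 1) A q g = if g = 0 then 1
    else ∑ M ∈ A.powerset.filter (fun M => ∀ x ∈ M, IsZ (q x)),
      (-1) ^ (A \ M).card * detEff a (A \ M) M * (g : ℚ) ^ M.card *
        ∏ N ∈ comps a (A \ M),
          (if cd.mm N ≤ g then cd.eps N q * cnA a cd n N q (g - cd.mm N) else 0) := by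
  rw [cnA]

theorem AG12_two (a : I → I → ℕ) (cd : CrossData a) (q : I → ℚ) (n : ℕ) :
    ∀ (n' : ℕ) (A : Finset I) (g : ℕ), A.card + g + 1 ≤ n → A.card + g + 1 ≤ n' →
      cnA a cd n A q g = cnA a cd n' A q g := by
  classical
  induction n with
  | zero => intro n' A g h; omega
  | succ n ih =>
    intro n' A g h h'
    obtain ⟨k, rfl⟩ : ∃ k, n' = k + 1 := ⟨n' - 1, by omega⟩
    rw [AG12_succ, AG12_succ]
    by_cases hg : g = 0
    · rw [if_pos hg, if_pos hg]
    · rw [if_neg hg, if_neg hg]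
      refine Finset.sum_congr rfl (fun M _ => ?_)
      congr 1
      refine Finset.prod_congr rfl (fun N hN => ?_)
      by_cases hm : cd.mm N ≤ g
      · rw [if_pos hm, if_pos hm]
        have h1 : N.card ≤ A.card :=
          Finset.card_le_card ((comps_subset hN).trans Finset.sdiff_subset)
        have h2 := cd.two_le N
        rw [ih k N (g - cd.mm N) (by omega) (by omega)]
      · rw [if_neg hm, if_neg hm]

theorem cnA_fuel (a : I → I → ℕ) (cd : CrossData a) (n : ℕ) (A : Finset I) (q : I → ℚ) (g : ℕ)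
    (h : A.card + g + 1 ≤ n) : cnA a cd n A q g = cn a cd A q g := by
  unfold cn
  exact AG12_two a cd q n _ A g h le_rfl

theorem cn_zero (a : I → I → ℕ) (cd : CrossData a) (A : Finset I) (q : I → ℚ) :
    cn a cd A q 0 = 1 := by
  unfold cn
  rw [AG12_succ, if_pos rfl]

open Classical in
theorem cn_rec (a : I → I → ℕ) (cd : CrossData a) (A : Finset I) (q : I → ℚ) (g : ℕ)
    (hg : 1 ≤ g) : cn a cd A q g =
      ∑ M ∈ A.powerset.filter (fun M => ∀ x ∈ M, IsZ (q x)),
        (-1 : ℚ) ^ (A \ M).card * detEff a (A \ M) M * (g : ℚ) ^ M.card *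
          ∏ N ∈ comps a (A \ M), upw a cd N q g := by
  unfold cn
  rw [AG12_succ, if_neg (by omega)]
  refine Finset.sum_congr rfl (fun M _ => ?_)
  congr 1
  refine Finset.prod_congr rfl (fun N hN => ?_)
  unfold upw
  by_cases hm : cd.mm N ≤ g
  · rw [if_pos hm, if_pos hm]
    have h1 : N.card ≤ A.card :=
      Finset.card_le_card ((comps_subset hN).trans Finset.sdiff_subset)
    have h2 := cd.two_le N
    rw [cnA_fuel a cd _ N q (g - cd.mm N) (by omega)]
  · rw [if_neg hm, if_neg hm]

theorem AG12_isZ {x y : ℚ} (h : IsZ (x - y)) : IsZ x ↔ IsZ y := by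
  obtain ⟨k, hk⟩ := h
  constructor
  · rintro ⟨m, hm⟩
    exact ⟨m - k, by push_cast; linarith⟩
  · rintro ⟨m, hm⟩
    exact ⟨m + k, by push_cast; linarith⟩

theorem cn_congr (a : I → I → ℕ) (cd : CrossData a) (A : Finset I) (q q' : I → ℚ)
    (h : ∀ x ∈ A, IsZ (q x - q' x)) (g : ℕ) : cn a cd A q g = cn a cd A q' g := by
  classical
  induction g using Nat.strong_induction_on generalizing A with
  | _ g ih =>
    rcases Nat.eq_zero_or_pos g with rfl | hg
    · rw [cn_zero, cn_zero]
    · rw [cn_rec a cd A q g hg, cn_rec a cd A q' g hg]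
      have hf : A.powerset.filter (fun M => ∀ x ∈ M, IsZ (q x)) =
          A.powerset.filter (fun M => ∀ x ∈ M, IsZ (q' x)) := by
        refine Finset.filter_congr (fun M hM => ?_)
        rw [Finset.mem_powerset] at hM
        exact ⟨fun H x hx => (AG12_isZ (h x (hM hx))).1 (H x hx),
          fun H x hx => (AG12_isZ (h x (hM hx))).2 (H x hx)⟩
      rw [hf]
      refine Finset.sum_congr rfl (fun M _ => ?_)
      congr 1
      refine Finset.prod_congr rfl (fun N hN => ?_)
      have hsub : N ⊆ A := (comps_subset hN).trans Finset.sdiff_subset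
      have hN' : ∀ x ∈ N, IsZ (q x - q' x) := fun x hx => h x (hsub hx)
      unfold upw
      by_cases hm : cd.mm N ≤ g
      · rw [if_pos hm, if_pos hm]
        have h2 := cd.two_le N
        rw [ih (g - cd.mm N) (by omega) N hN', cd.eps_congr N q q' hN']
      · rw [if_neg hm, if_neg hm]

end

end Pool.Agent.H27.KAC

end

section

/-!
KAC ADE, module AH6: one step of a single cluster (restart lemma), definitions and elementary facts.

Notation: `N` a cluster (finite type), `q` its class (any representative), `q'` an admissible representative, `T` a term which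
is regular on `N`, `ν_x = T.E (x,k)` the kink.
* `rp a N q`: a chosen admissible representative;  `PPc a N k q T = PPv a N k (rp a N q) T`.
* `shv a N S q ν n`: the vector `μ` with `μ = n - q` on `S`, `(C_N μ)_x = ν_x` for `x ∈ N \ S`, `μ = 0` off `N`.
* `rsT a S k μ T`: the term with the factor `∏ η_{x,k}^{μ_x}` and the columns `θ_{s,k}`, `s ∈ S`.
* `RRegK N k T`: like `RReg`, but symbols `(x, k)` are allowed in all columns.
-/

set_option autoImplicit false

namespace Pool.Agent.H46.AH

open scoped BigOperators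
open Pool.Agent.H27.KAC Pool.Agent.H40.KADE

section

variable {I : Type} [Fintype I] [DecidableEq I]

open Classical in
/-- a chosen admissible representative of the class of `q` on `N`. -/
noncomputable def rp (a : I → I → ℕ) (N : Finset I) (q : I → ℚ) : I → ℚ :=
  if h : ∃ q', Rep a N q q' then h.choose else q

/-- plateau functional, arbitrary representative of the class. -/
noncomputable def PPc (a : I → I → ℕ) (N : Finset I) (k : ℕ) (q : I → ℚ) (T : Trm I) : ℚ :=
  PPv a N k (rp a N q) T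

/-- the shift vector. -/
noncomputable def shv (a : I → I → ℕ) (N S : Finset I) (q ν : I → ℚ) (n : I → ℤ) (i : I) : ℚ :=
  (if i ∈ S then (n i : ℚ) - q i else 0) +
    solN a (N \ S) (fun x => ν x - cqN a S (fun s => (n s : ℚ) - q s) x) i

/-- restart term. -/
noncomputable def rsT (a : I → I → ℕ) (S : Finset I) (k : ℕ) (μ : I → ℚ) (T : Trm I) : Trm I :=
  (T.eta a k μ).cols S (fun x => cE a x k)

/-- the box of integer vectors on `S`. -/
noncomputable def rbox (S : Finset I) (k : ℕ) (γ q : I → ℚ) : Finset (I → ℤ) :=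
  Fintype.piFinset (fun i => if i ∈ S then Finset.Icc ⌈q i⌉ ⌊γ i / k + q i⌋ else {0})

/-- regular on `N` up to symbols at level `k` in the columns. -/
structure RRegK (N : Finset I) (k : ℕ) (T : Trm I) : Prop where
  nat : ∀ x ∈ N, ∀ l, 1 ≤ l → IsN (T.E (x, l))
  col : ∀ x ∈ N, ∀ j, j ∉ N → ∀ l, 1 ≤ l → T.Λ j (x, l) ≠ 0 → l = k ∨ 1 ≤ T.E (x, l)

theorem RReg.toK {N : Finset I} {T : Trm I} (h : RReg N T) (k : ℕ) : RRegK N k T :=
  ⟨h.nat, fun x hx j hj l hl hne => Or.inr (h.col x hx j hj l hl hne)⟩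

private theorem AH6_congr (a : I → I → ℕ) (N : Finset I) (v w : I → ℚ) (h : ∀ i ∈ N, v i = w i)
    (x : I) : cqN a N v x = cqN a N w x := by
  unfold cqN
  exact Finset.sum_congr rfl fun j hj => by rw [h j hj]

private theorem AH6_split (a : I → I → ℕ) {N S : Finset I} (hS : S ⊆ N) (v : I → ℚ) (x : I) :
    cqN a N v x = cqN a (N \ S) v x + cqN a S v x := by
  unfold cqN
  rw [Finset.sum_sdiff hS]

private theorem AH6_add (a : I → I → ℕ) (N : Finset I) (v w : I → ℚ) (x : I) :
    cqN a N (fun j => v j + w j) x = cqN a N v x + cqN a N w x := by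
  unfold cqN
  rw [← Finset.sum_add_distrib]
  exact Finset.sum_congr rfl fun j _ => by ring

private theorem AH6_sub (a : I → I → ℕ) (N : Finset I) (v w : I → ℚ) (x : I) :
    cqN a N (fun j => v j - w j) x = cqN a N v x - cqN a N w x := by
  unfold cqN
  rw [← Finset.sum_sub_distrib]
  exact Finset.sum_congr rfl fun j _ => by ring

private theorem AH6_int (a : I → I → ℕ) (N : Finset I) (n : I → ℤ) (x : I) :
    IsZ (cqN a N (fun i => (n i : ℚ)) x) := by
  refine ⟨∑ j ∈ N, cart a x j * n j, ?_⟩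
  unfold cqN
  push_cast
  rfl

private theorem AH6_zadd {p q : ℚ} (hp : IsZ p) (hq : IsZ q) : IsZ (p + q) := by
  obtain ⟨m, rfl⟩ := hp
  obtain ⟨n, rfl⟩ := hq
  exact ⟨m + n, by push_cast; rfl⟩

private theorem AH6_zsub {p q : ℚ} (hp : IsZ p) (hq : IsZ q) : IsZ (p - q) := by
  obtain ⟨m, rfl⟩ := hp
  obtain ⟨n, rfl⟩ := hq
  exact ⟨m - n, by push_cast; rfl⟩

/-- existence of representatives (`exists_QOk` of `KADE/Br`). -/
theorem rp_spec (a : I → I → ℕ) (hs : ∀ i j, a i j = a j i) (N : Finset I) (hN : FinT a N)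
    (q : I → ℚ) (hq : ∀ x ∈ N, IsZ (cqN a N q x)) : Rep a N q (rp a N q) := by
  obtain ⟨q', _, h2, h3⟩ := exists_QOk a hs hN q hq 1
  have h : ∃ q', Rep a N q q' := ⟨q', h3, h2⟩
  unfold rp
  rw [dif_pos h]
  exact h.choose_spec

/-- restriction of a representative. -/
theorem Rep.mono {a : I → I → ℕ} {N N' : Finset I} (hs : ∀ i j, a i j = a j i) (hN : FinT a N)
    (hsub : N' ⊆ N) (hsep : ∀ x ∈ N', ∀ y ∈ N, y ∉ N' → a x y = 0) {q q' : I → ℚ}
    (h : Rep a N q q') : Rep a N' q q' := by
  refine ⟨fun x hx => ?_, fun x hx => h.2 x (hsub hx)⟩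
  obtain ⟨n, hn, h1⟩ := h.1 x (hsub hx)
  refine ⟨n, hn, ?_⟩
  rw [← h1]
  unfold cqN
  refine Finset.sum_subset hsub fun y hy hyN => ?_
  have hxy : x ≠ y := fun h2 => hyN (h2 ▸ hx)
  have h2 : cart a x y = 0 := by
    unfold cart
    rw [if_neg hxy, hsep x hx y hy hyN]
    rfl
  rw [h2]
  push_cast
  ring

theorem shv_off (a : I → I → ℕ) (N S : Finset I) (hS : S ⊆ N) (q ν : I → ℚ) (n : I → ℤ) (i : I)
    (hi : i ∉ N) : shv a N S q ν n i = 0 := by
  unfold shv
  rw [if_neg (fun h => hi (hS h)), solN_out a _ _ i (fun h => hi (Finset.mem_sdiff.1 h).1), add_zero]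

theorem shv_S (a : I → I → ℕ) (N S : Finset I) (q ν : I → ℚ) (n : I → ℤ) (i : I)
    (hi : i ∈ S) : shv a N S q ν n i = (n i : ℚ) - q i := by
  unfold shv
  rw [if_pos hi, solN_out a _ _ i (fun h => (Finset.mem_sdiff.1 h).2 hi), add_zero]

theorem shv_eq (a : I → I → ℕ) (hs : ∀ i j, a i j = a j i) (N S : Finset I) (hN : FinT a N)
    (hS : S ⊆ N) (q ν : I → ℚ) (n : I → ℤ) (x : I) (hx : x ∈ N \ S) :
    cqN a N (shv a N S q ν n) x = ν x := by
  rw [AH6_split a hS, AH6_congr a S (shv a N S q ν n) (fun s => (n s : ℚ) - q s)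
    (fun i hi => shv_S a N S q ν n i hi),
    AH6_congr a (N \ S) (shv a N S q ν n)
      (solN a (N \ S) (fun x => ν x - cqN a S (fun s => (n s : ℚ) - q s) x)) (fun i hi => by
        unfold shv
        rw [if_neg (Finset.mem_sdiff.1 hi).2, zero_add]),
    solN_spec hs (hN.mono Finset.sdiff_subset) _ x hx]
  ring

/-- uniqueness of the shift vector. -/
theorem shv_unique (a : I → I → ℕ) (hs : ∀ i j, a i j = a j i) (N S : Finset I) (hN : FinT a N)
    (hS : S ⊆ N) (q ν : I → ℚ) (n : I → ℤ) (μ : I → ℚ) (h0 : ∀ i, i ∉ N → μ i = 0)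
    (h1 : ∀ i ∈ S, μ i = (n i : ℚ) - q i) (h2 : ∀ x ∈ N \ S, cqN a N μ x = ν x) :
    μ = shv a N S q ν n := by
  funext i
  by_cases hi : i ∈ N
  · by_cases hiS : i ∈ S
    · rw [h1 i hiS, shv_S a N S q ν n i hiS]
    · unfold shv
      rw [if_neg hiS, zero_add]
      refine solN_unique hs (hN.mono Finset.sdiff_subset) _ μ (fun x hx => ?_) i
        (Finset.mem_sdiff.2 ⟨hi, hiS⟩)
      have h3 := AH6_split a hS μ x
      rw [h2 x hx, AH6_congr a S μ (fun s => (n s : ℚ) - q s) h1 x] at h3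
      rw [h3]
      ring
  · rw [h0 i hi, shv_off a N S hS q ν n i hi]

/-- the class of `q + μ` on `N \ S` is a weight. -/
theorem shv_wt (a : I → I → ℕ) (hs : ∀ i j, a i j = a j i) (N S : Finset I) (hN : FinT a N)
    (hS : S ⊆ N) (q ν : I → ℚ) (hq : ∀ x ∈ N, IsZ (cqN a N q x)) (hν : ∀ x ∈ N, IsZ (ν x))
    (n : I → ℤ) : ∀ x ∈ N \ S, IsZ (cqN a (N \ S) (fun i => q i + shv a N S q ν n i) x) := by
  intro x hx
  have hxN := (Finset.mem_sdiff.1 hx).1
  have h1 : cqN a (N \ S) (fun i => q i + shv a N S q ν n i) x =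
      cqN a N q x + ν x - cqN a S (fun i => (n i : ℚ)) x := by
    have h2 := shv_eq a hs N S hN hS q ν n x hx
    rw [AH6_split a hS, AH6_congr a S (shv a N S q ν n) (fun s => (n s : ℚ) - q s)
      (fun i hi => shv_S a N S q ν n i hi), AH6_sub] at h2
    rw [AH6_add, AH6_split a hS q x]
    linarith
  rw [h1]
  exact AH6_zsub (AH6_zadd (hq x hxN) (hν x hxN)) (AH6_int a S n x)

private theorem AH6_ge (a : I → I → ℕ) (hs : ∀ i j, a i j = a j i) (N S : Finset I)
    (hN : FinT a N) (hS : S ⊆ N) (q ν : I → ℚ) (n : I → ℤ)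
    (hP : ∀ s ∈ S, ν s < cqN a N (shv a N S q ν n) s) (x : I) (hx : x ∈ N) :
    ν x ≤ cqN a N (shv a N S q ν n) x := by
  by_cases hxS : x ∈ S
  · exact (hP x hxS).le
  · exact (shv_eq a hs N S hN hS q ν n x (Finset.mem_sdiff.2 ⟨hx, hxS⟩)).ge

/-- positivity of the shift vector. -/
theorem shv_nonneg (a : I → I → ℕ) (hs : ∀ i j, a i j = a j i) (N S : Finset I) (hN : FinT a N)
    (hS : S ⊆ N) (q ν : I → ℚ) (hν : ∀ x ∈ N, 0 ≤ ν x) (n : I → ℤ)
    (hP : ∀ s ∈ S, ν s < cqN a N (shv a N S q ν n) s) :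
    (∀ i, 0 ≤ shv a N S q ν n i) ∧ ∀ s ∈ S, 0 < shv a N S q ν n s := by
  have h1 : ∀ i ∈ N, 0 ≤ cqN a N (shv a N S q ν n) i := fun i hi =>
    (hν i hi).trans (AH6_ge a hs N S hN hS q ν n hP i hi)
  refine ⟨fun i => ?_, fun s hsS => ?_⟩
  · by_cases hi : i ∈ N
    · exact hN.nonneg hs _ h1 i hi
    · rw [shv_off a N S hS q ν n i hi]
  · have h2 := solN_pos_self hs hN (cqN a N (shv a N S q ν n)) h1 s (hS hsS)
      ((hν s (hS hsS)).trans_lt (hP s hsS))
    rwa [solN_cqN hs hN _ s (hS hsS)] at h2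

/-- strict positivity on a connected cluster. -/
theorem shv_pos (a : I → I → ℕ) (hs : ∀ i j, a i j = a j i) (N S : Finset I) (hN : FinT a N)
    (hc : ConnS a N) (hS : S ⊆ N) (q ν : I → ℚ) (hν : ∀ x ∈ N, 0 ≤ ν x) (n : I → ℤ)
    (hP : ∀ s ∈ S, ν s < cqN a N (shv a N S q ν n) s)
    (hne : S.Nonempty ∨ ∃ x ∈ N, ν x ≠ 0) : ∀ i ∈ N, 0 < shv a N S q ν n i := by
  have h0 := AH6_ge a hs N S hN hS q ν n hP
  refine hN.pos_of_conn hs hc _ (fun i hi => (hν i hi).trans (h0 i hi)) ?_
  rcases hne with ⟨s, hsS⟩ | ⟨x, hx, hxν⟩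
  · exact ⟨s, hS hsS, ((hν s (hS hsS)).trans_lt (hP s hsS)).ne'⟩
  · exact ⟨x, hx, ((lt_of_le_of_ne (hν x hx) (Ne.symm hxν)).trans_le (h0 x hx)).ne'⟩

theorem rsT_E (a : I → I → ℕ) (hs : ∀ i j, a i j = a j i) (N S : Finset I) (hS : S ⊆ N) (k : ℕ)
    (μ : I → ℚ) (h0 : ∀ i, i ∉ N → μ i = 0) (T : Trm I) (i : I) (l : ℕ) :
    (rsT a S k μ T).E (i, l) = T.E (i, l) - if l = k then cqN a N μ i else 0 := by
  have h1 : (rsT a S k μ T).E = T.E - ∑ x, μ x • cE a x k := rfl
  rw [h1, Finsupp.sub_apply, Finsupp.finset_sum_apply]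
  congr 1
  by_cases hl : l = k
  · rw [if_pos hl, cqN_eq_cv, cv_eq_cq]
    unfold cq
    refine Finset.sum_congr rfl fun x _ => ?_
    rw [Finsupp.smul_apply, cE_apply, if_pos hl, smul_eq_mul]
    beta_reduce
    rw [cart_symm a hs x i]
    by_cases hx : x ∈ N
    · rw [if_pos hx, mul_comm]
    · rw [if_neg hx, h0 x hx, zero_mul, mul_zero]
  · rw [if_neg hl]
    refine Finset.sum_eq_zero fun x _ => ?_
    rw [Finsupp.smul_apply, cE_apply, if_neg hl, smul_zero]

/-- the restart term is regular on `N \ S` up to symbols at level `k`, with exponent `0` at `(x, k)`. -/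
theorem rsT_RRegK (a : I → I → ℕ) (hs : ∀ i j, a i j = a j i) (N S : Finset I) (hN : FinT a N)
    (hS : S ⊆ N) (k : ℕ) (hk : 1 ≤ k) (q : I → ℚ) (n : I → ℤ) (T : Trm I) (hT : RRegK N k T) :
    RRegK (N \ S) k (rsT a S k (shv a N S q (fun x => T.E (x, k)) n) T) ∧
      ∀ x ∈ N \ S, (rsT a S k (shv a N S q (fun x => T.E (x, k)) n) T).E (x, k) = 0 := by
  have hE := fun i l => rsT_E a hs N S hS k (shv a N S q (fun x => T.E (x, k)) n)
    (fun i hi => shv_off a N S hS q _ n i hi) T i l
  have hk0 : ∀ x ∈ N \ S, (rsT a S k (shv a N S q (fun x => T.E (x, k)) n) T).E (x, k) = 0 := by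
    intro x hx
    rw [hE, if_pos rfl, shv_eq a hs N S hN hS q _ n x hx, sub_self]
  have hne : ∀ x l, l ≠ k →
      (rsT a S k (shv a N S q (fun x => T.E (x, k)) n) T).E (x, l) = T.E (x, l) := by
    intro x l hl
    rw [hE, if_neg hl, sub_zero]
  refine ⟨⟨fun x hx l hl => ?_, fun x hx j hj l hl hΛ => ?_⟩, hk0⟩
  · by_cases hlk : l = k
    · subst hlk
      rw [hk0 x hx]
      exact ⟨0, by norm_num⟩
    · rw [hne x l hlk]
      exact hT.nat x (Finset.mem_sdiff.1 hx).1 l hl
  · by_cases hlk : l = k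
    · exact Or.inl hlk
    · right
      rw [hne x l hlk]
      by_cases hjS : j ∈ S
      · exfalso
        apply hΛ
        have h1 : (rsT a S k (shv a N S q (fun x => T.E (x, k)) n) T).Λ j = cE a j k := by
          show (if j ∈ S then cE a j k else _) = _
          rw [if_pos hjS]
        rw [h1, cE_apply, if_neg hlk]
      · have hjN : j ∉ N := fun h => hj (Finset.mem_sdiff.2 ⟨h, hjS⟩)
        have h1 : (rsT a S k (shv a N S q (fun x => T.E (x, k)) n) T).Λ j = T.Λ j := by
          show (if j ∈ S then cE a j k else _) = _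
          rw [if_neg hjS]
          rfl
        rw [h1] at hΛ
        rcases hT.col x (Finset.mem_sdiff.1 hx).1 j hjN l hl hΛ with h2 | h2
        · exact absurd h2 hlk
        · exact h2

end

end Pool.Agent.H46.AH

end

section

/-!
KAC ADE, module AH12: functionals which represent `∑_{l ≤ f} w(l) R_l[q]`: congruence, joint evaluation, unions.

* `IsRF.congr`: only the class of `q` on `N` modulo `ℤ` and the values `w l`, `l ≤ f`, matter.
* `evU_RF`: the joint value on `RReg` terms does not depend on the choice of the functionals: induction on the list of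
  components with `evU_congr_head` (AG1).
* `stBlk_union`: `comps a (A ∪ B) = comps a A ∪ comps a B` for separated sets; `evU_perm`.
* `cn_congrZ`: `cnA` only depends on the class of `q` on `A` modulo `ℤ` (induction on the fuel; `cd.eps_congr`).
* `RFex_of_Adm`: `RTfam.tau`, `RTfam.top0` for an admissible representative (`rp_spec`), then `IsRF.congr`.
-/

set_option autoImplicit false

namespace Pool.Agent.H46.AH

open scoped BigOperators
open Pool.Agent.H27.KAC Pool.Agent.H40.KADE

section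

variable {I : Type} [Fintype I] [DecidableEq I]

/-- there are functionals at all frontiers `f ≤ k`. -/
def RFex (a : I → I → ℕ) (cd : CrossData a) (N : Finset I) (q : I → ℚ) (w : ℕ → ℚ) (k : ℕ) : Prop :=
  ∀ f, f ≤ k → ∃ Φ : FFn I, IsRF a cd N q w f Φ

/-- `fam` selects functionals. -/
def IsFam (a : I → I → ℕ) (cd : CrossData a)
    (fam : Finset I → (I → ℚ) → (ℕ → ℚ) → ℕ → FFn I) : Prop :=
  ∀ N q w f, (∃ Φ : FFn I, IsRF a cd N q w f Φ) → IsRF a cd N q w f (fam N q w f)

private theorem AH12_zadd {p q : ℚ} (hp : IsZ p) (hq : IsZ q) : IsZ (p + q) := by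
  obtain ⟨m, rfl⟩ := hp
  obtain ⟨n, rfl⟩ := hq
  exact ⟨m + n, by push_cast; rfl⟩

private theorem AH12_zneg {p : ℚ} (hp : IsZ p) : IsZ (-p) := by
  obtain ⟨m, rfl⟩ := hp
  exact ⟨-m, by push_cast; rfl⟩

private theorem AH12_zsubc {p q : ℚ} (h : IsZ (p - q)) : IsZ (q - p) := by
  have h1 := AH12_zneg h
  rwa [neg_sub] at h1

theorem Rep.congr {a : I → I → ℕ} {N : Finset I} {q q₂ q' : I → ℚ} (h : Rep a N q q')
    (hq : ∀ x ∈ N, IsZ (q x - q₂ x)) : Rep a N q₂ q' := by
  refine ⟨h.1, fun x hx => ?_⟩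
  have h1 := AH12_zadd (h.2 x hx) (hq x hx)
  rwa [sub_add_sub_cancel] at h1

private theorem AH12_RFv (a : I → I → ℕ) (N : Finset I) (q : I → ℚ) {w w₂ : ℕ → ℚ} (f : ℕ)
    (hw : ∀ l, l ≤ f → w l = w₂ l) (T : Trm I) : RFv a N q w f T = RFv a N q w₂ f T := by
  unfold RFv
  rw [hw 0 (Nat.zero_le f)]
  congr 1
  exact Finset.sum_congr rfl fun l hl => by rw [hw l (Finset.mem_Icc.1 hl).2]

theorem IsRF.congr {a : I → I → ℕ} {cd : CrossData a} {N : Finset I} {q q₂ : I → ℚ} {w w₂ : ℕ → ℚ}
    {f : ℕ} {Φ : FFn I} (h : IsRF a cd N q w f Φ) (hq : ∀ x ∈ N, IsZ (q x - q₂ x))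
    (hw : ∀ l, l ≤ f → w l = w₂ l) : IsRF a cd N q₂ w₂ f Φ := by
  refine ⟨fun c hc => ?_, fun q' hq' T hT => ?_, fun hf q' hq' T hT hk => ?_⟩
  · have h1 := h.win c hc
    refine ⟨h1.toPatOk, h1.le, h1.ge, h1.sle, h1.sge, fun x hx => ?_⟩
    have h2 := AH12_zadd (h1.cls x hx) (hq x hx)
    rwa [sub_add_sub_cancel] at h2
  · rw [h.val q' (hq'.congr fun x hx => AH12_zsubc (hq x hx)) T hT]
    exact AH12_RFv a N q' f hw T
  · rw [h.knk hf q' (hq'.congr fun x hx => AH12_zsubc (hq x hx)) T hT hk, hw f le_rfl]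

theorem RFex.congr {a : I → I → ℕ} {cd : CrossData a} {N : Finset I} {q q₂ : I → ℚ} {w w₂ : ℕ → ℚ}
    {k : ℕ} (h : RFex a cd N q w k) (hq : ∀ x ∈ N, IsZ (q x - q₂ x))
    (hw : ∀ l, l ≤ k → w l = w₂ l) : RFex a cd N q₂ w₂ k := by
  intro f hf
  obtain ⟨Φ, hΦ⟩ := h f hf
  exact ⟨Φ, hΦ.congr hq fun l hl => hw l (hl.trans hf)⟩

/-- two functionals for the same data have the same values. -/
theorem IsRF.unique {a : I → I → ℕ} (hs : ∀ i j, a i j = a j i) {cd : CrossData a} {N : Finset I}
    (hN : FinT a N) {q : I → ℚ} (hq : ∀ x ∈ N, IsZ (cqN a N q x)) {w : ℕ → ℚ} {f : ℕ}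
    {Φ Ψ : FFn I} (h : IsRF a cd N q w f Φ) (h' : IsRF a cd N q w f Ψ) (T : Trm I)
    (hT : RReg N T) : evF a N Φ T = evF a N Ψ T := by
  have hr := rp_spec a hs N hN q hq
  rw [h.val _ hr T hT, h'.val _ hr T hT]

private theorem AH12_uni (U : List (Finset I × FFn I)) (x : I) :
    x ∈ uni U ↔ ∃ b ∈ U, x ∈ b.1 := by
  induction U with
  | nil =>
    constructor
    · intro h
      exact absurd h (Finset.notMem_empty x)
    · rintro ⟨b, hb, _⟩
      exact absurd hb List.not_mem_nil
  | cons c U ih =>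
    have h1 : uni (c :: U) = c.1 ∪ uni U := rfl
    rw [h1, Finset.mem_union, ih]
    constructor
    · rintro (h | ⟨b, hb, h⟩)
      · exact ⟨c, List.mem_cons_self, h⟩
      · exact ⟨b, List.mem_cons_of_mem _ hb, h⟩
    · rintro ⟨b, hb, h⟩
      rcases List.mem_cons.1 hb with h2 | h2
      · rw [h2] at h
        exact Or.inl h
      · exact Or.inr ⟨b, h2, h⟩

private theorem AH12_unim (L : List (Finset I)) (Φ : Finset I → FFn I) (x : I) :
    x ∈ uni (L.map (fun A => (A, Φ A))) ↔ ∃ A ∈ L, x ∈ A := by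
  rw [AH12_uni]
  constructor
  · rintro ⟨b, hb, hx⟩
    obtain ⟨A, hA, rfl⟩ := List.mem_map.1 hb
    exact ⟨A, hA, hx⟩
  · rintro ⟨A, hA, hx⟩
    exact ⟨(A, Φ A), List.mem_map.2 ⟨A, hA, rfl⟩, hx⟩

private theorem AH12_pw {a : I → I → ℕ} (hs : ∀ i j, a i j = a j i) (W : Finset I)
    (L : List (Finset I)) (hL : L.Nodup) (hLW : ∀ A ∈ L, A ∈ comps a W) (Φ : Finset I → FFn I) :
    (L.map (fun A => (A, Φ A))).Pairwise (fun b c => Disjoint b.1 c.1) := by
  rw [List.pairwise_map]
  induction L with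
  | nil => exact List.Pairwise.nil
  | cons A L ih =>
    have h1 := List.nodup_cons.1 hL
    refine List.Pairwise.cons (fun B hB => ?_) (ih h1.2 fun B hB => hLW B (List.mem_cons_of_mem _ hB))
    refine comps_disjoint hs (hLW A List.mem_cons_self) (hLW B (List.mem_cons_of_mem _ hB)) ?_
    rintro rfl
    exact h1.1 hB

private theorem AH12_evU {a : I → I → ℕ} (hs : ∀ i j, a i j = a j i) {W : Finset I}
    (L : List (Finset I)) (hL : L.Nodup) (hLW : ∀ A ∈ L, A ∈ comps a W)
    {Φ Ψ : Finset I → FFn I}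
    (h : ∀ A ∈ L, ∀ T : Trm I, RReg A T → evF a A (Φ A) T = evF a A (Ψ A) T) (T : Trm I)
    (hT : RReg (uni (L.map (fun A => (A, Φ A)))) T) :
    evU a (L.map (fun A => (A, Φ A))) T = evU a (L.map (fun A => (A, Ψ A))) T := by
  induction L generalizing T with
  | nil => rfl
  | cons A L ih =>
    have h1 := List.nodup_cons.1 hL
    have hA := hLW A List.mem_cons_self
    have hLW' : ∀ B ∈ L, B ∈ comps a W := fun B hB => hLW B (List.mem_cons_of_mem _ hB)
    have hne : ∀ B ∈ L, A ≠ B := by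
      intro B hB hAB
      rw [hAB] at h1
      exact h1.1 hB
    have hadj : ∀ x ∈ A, ∀ y ∈ uni (L.map (fun A => (A, Φ A))), a x y = 0 := by
      intro x hx y hy
      obtain ⟨B, hB, hyB⟩ := (AH12_unim L Φ y).1 hy
      exact comps_nonadj hs hA (hLW' B hB) (hne B hB) x hx y hyB
    have hdis : Disjoint (uni (L.map (fun A => (A, Φ A)))) A := by
      rw [Finset.disjoint_left]
      intro y hy hyA
      obtain ⟨B, hB, hyB⟩ := (AH12_unim L Φ y).1 hy
      exact Finset.disjoint_left.1 (comps_disjoint hs hA (hLW' B hB) (hne B hB)) hyA hyB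
    have hT1 : RReg (A ∪ uni (L.map (fun A => (A, Φ A)))) T := hT
    have hT2 : RReg (uni (L.map (fun A => (A, Φ A))) ∪ A) T := by
      rw [Finset.union_comm]
      exact hT1
    have step : evU a ((A, Φ A) :: L.map (fun A => (A, Φ A))) T =
        evU a ((A, Ψ A) :: L.map (fun A => (A, Φ A))) T := by
      refine evU_congr_head a hs A (Φ A) (Ψ A) _ ?_ (fun c _ x hx y hy _ => hadj x hx y hy)
        (h A List.mem_cons_self) T hT1
      exact AH12_pw hs W (A :: L) hL hLW Φ
    rw [List.map_cons, List.map_cons, step, evU_cons, evU_cons]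
    congr 1
    refine List.map_congr_left fun c _ => ?_
    show c.1 * evU a _ (patT a A c.2 T) = c.1 * evU a _ (patT a A c.2 T)
    rw [ih h1.2 hLW' (fun B hB => h B (List.mem_cons_of_mem _ hB)) (patT a A c.2 T)]
    refine RReg_patT a hs _ A hdis c.2 (fun x hx y hy _ => ?_) T hT2
    rw [hs]
    exact hadj y hy x hx

private theorem AH12_cqN (a : I → I → ℕ) (W A : Finset I) (hA : A ∈ comps a W) (q : I → ℚ) :
    ∀ x ∈ A, cqN a A q x = cqN a W q x := by
  intro x hx
  unfold cqN
  refine Finset.sum_subset (comps_subset hA) fun y hy hyA => ?_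
  have hxy : x ≠ y := fun h2 => hyA (h2 ▸ hx)
  have h2 : cart a x y = 0 := by
    unfold cart
    rw [if_neg hxy, comps_sep hA x hx y hy hyA]
    rfl
  rw [h2]
  push_cast
  ring

/-- the joint value does not depend on the choice of the functionals. -/
theorem evU_RF {a : I → I → ℕ} (hs : ∀ i j, a i j = a j i) {cd : CrossData a} {W : Finset I}
    (hW : FinT a W) {q : I → ℚ} (hq : ∀ x ∈ W, IsZ (cqN a W q x)) {w : Finset I → ℕ → ℚ} {f : ℕ}
    {Φ Ψ : Finset I → FFn I} (h : ∀ A ∈ comps a W, IsRF a cd A q (w A) f (Φ A))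
    (h' : ∀ A ∈ comps a W, IsRF a cd A q (w A) f (Ψ A)) (T : Trm I) (hT : RReg W T) :
    evU a ((comps a W).toList.map (fun A => (A, Φ A))) T =
      evU a ((comps a W).toList.map (fun A => (A, Ψ A))) T := by
  refine AH12_evU hs (comps a W).toList (Finset.nodup_toList _)
    (fun A hA => Finset.mem_toList.1 hA) (fun A hA T hT => ?_) T ?_
  · have hA' := Finset.mem_toList.1 hA
    refine (h A hA').unique hs (hW.mono (comps_subset hA')) (fun x hx => ?_) (h' A hA') T hT
    rw [AH12_cqN a W A hA' q x hx]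
    exact hq x (comps_subset hA' hx)
  · have h1 : uni ((comps a W).toList.map (fun A => (A, Φ A))) = W := by
      ext x
      rw [AH12_unim]
      constructor
      · rintro ⟨A, hA, hx⟩
        exact comps_subset (Finset.mem_toList.1 hA) hx
      · intro hx
        obtain ⟨A, hA, hxA⟩ := comps_cover hs x hx
        exact ⟨A, Finset.mem_toList.2 hA, hxA⟩
    rw [h1]
    exact hT

private theorem AH12_mem {a : I → I → ℕ} {N A : Finset I} (h1 : A ⊆ N) (h2 : ConnS a A)
    (h3 : ∀ i ∈ A, ∀ j ∈ N, j ∉ A → a i j = 0) : A ∈ comps a N := by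
  classical
  unfold comps
  rw [Finset.mem_filter, Finset.mem_powerset]
  exact ⟨h1, h2, h3⟩

theorem comps_union (a : I → I → ℕ) (hs : ∀ i j, a i j = a j i) (A B : Finset I)
    (hAB : Sep a A B) : comps a (A ∪ B) = comps a A ∪ comps a B := by
  ext C
  rw [Finset.mem_union]
  constructor
  · intro hC
    have hCs := comps_subset hC
    have hCc := comps_conn hC
    have hCn := comps_sep hC
    by_cases hAC : C ⊆ A
    · exact Or.inl (AH12_mem hAC hCc fun i hi j hj hjC =>
        hCn i hi j (Finset.mem_union_left _ hj) hjC)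
    · right
      have hempty : ¬ (C ∩ A).Nonempty := by
        intro hne
        obtain ⟨i, hi, j, hj, hjn, hpos⟩ := hCc.2 (C ∩ A) Finset.inter_subset_left hne
          (fun h => hAC (Finset.inter_eq_left.1 h))
        have hjA : j ∉ A := fun h => hjn (Finset.mem_inter.2 ⟨hj, h⟩)
        have hjB : j ∈ B := (Finset.mem_union.1 (hCs hj)).resolve_left hjA
        have h0 := hAB.2 i (Finset.mem_inter.1 hi).2 j hjB
        omega
      have hCB : C ⊆ B := by
        intro x hx
        rcases Finset.mem_union.1 (hCs hx) with h | h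
        · exact absurd ⟨x, Finset.mem_inter.2 ⟨hx, h⟩⟩ hempty
        · exact h
      exact AH12_mem hCB hCc fun i hi j hj hjC => hCn i hi j (Finset.mem_union_right _ hj) hjC
  · rintro (hC | hC)
    · refine AH12_mem ((comps_subset hC).trans Finset.subset_union_left) (comps_conn hC)
        fun i hi j hj hjC => ?_
      rcases Finset.mem_union.1 hj with h | h
      · exact comps_sep hC i hi j h hjC
      · exact hAB.2 i (comps_subset hC hi) j h
    · refine AH12_mem ((comps_subset hC).trans Finset.subset_union_right) (comps_conn hC)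
        fun i hi j hj hjC => ?_
      rcases Finset.mem_union.1 hj with h | h
      · rw [hs]
        exact hAB.2 j h i (comps_subset hC hi)
      · exact comps_sep hC i hi j h hjC

theorem comps_disj (a : I → I → ℕ) (A B : Finset I) (hAB : Sep a A B) :
    Disjoint (comps a A) (comps a B) := by
  rw [Finset.disjoint_left]
  intro C hCA hCB
  obtain ⟨x, hx⟩ := (comps_conn hCA).1
  exact Finset.disjoint_left.1 hAB.1 (comps_subset hCA hx) (comps_subset hCB hx)

/-- the blocks of a union of separated sets. -/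
theorem evU_union (a : I → I → ℕ) (hs : ∀ i j, a i j = a j i) (A B : Finset I) (hAB : Sep a A B)
    (Φ : Finset I → FFn I) (T : Trm I) :
    evU a ((comps a (A ∪ B)).toList.map (fun N => (N, Φ N))) T =
      evU a ((comps a A).toList.map (fun N => (N, Φ N)) ++
        (comps a B).toList.map (fun N => (N, Φ N))) T := by
  refine evU_perm a _ _ ?_ (AH12_pw hs (A ∪ B) _ (Finset.nodup_toList _)
    (fun C hC => Finset.mem_toList.1 hC) Φ) T
  rw [← List.map_append]
  refine List.Perm.map _ ?_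
  refine (List.perm_ext_iff_of_nodup (Finset.nodup_toList _) ?_).2 fun C => ?_
  · refine List.nodup_append.2 ⟨Finset.nodup_toList _, Finset.nodup_toList _, ?_⟩
    intro C hC D hD hCD
    rw [← hCD] at hD
    exact Finset.disjoint_left.1 (comps_disj a A B hAB) (Finset.mem_toList.1 hC)
      (Finset.mem_toList.1 hD)
  · rw [List.mem_append, Finset.mem_toList, Finset.mem_toList, Finset.mem_toList,
      comps_union a hs A B hAB, Finset.mem_union]

private theorem AH12_patT_empty (a : I → I → ℕ) (π : Pat I) (T : Trm I) : patT a ∅ π T = T := by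
  refine Trm.ext ?_ ?_ ?_
  · funext i
    show T.γ i - (π.s i : ℚ) * (-resQ ∅ π.q i) = T.γ i
    unfold resQ
    rw [if_neg (Finset.notMem_empty i)]
    ring
  · show T.E - ∑ x, (-resQ ∅ π.q x) • cE a x (π.s x) = T.E
    have h0 : ∑ x, (-resQ ∅ π.q x) • cE a x (π.s x) = 0 := by
      refine Finset.sum_eq_zero fun x _ => ?_
      unfold resQ
      rw [if_neg (Finset.notMem_empty x), neg_zero, zero_smul]
    rw [h0, sub_zero]
  · funext i
    show (if i ∈ (∅ : Finset I) then sy i (π.s i + 1) else T.Λ i) = T.Λ i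
    rw [if_neg (Finset.notMem_empty i)]

private theorem AH12_mul_sum {ι : Type} (r : ℚ) (l : List ι) (f : ι → ℚ) :
    r * (l.map f).sum = (l.map (fun c => r * f c)).sum := by
  induction l with
  | nil => simp
  | cons c l ih =>
    rw [List.map_cons, List.sum_cons, List.map_cons, List.sum_cons, mul_add, ih]

private theorem AH12_flat {ι κ : Type} (l : List ι) (g : ι → List κ) (f : κ → ℚ) :
    ((l.flatMap g).map f).sum = (l.map (fun c => ((g c).map f).sum)).sum := by
  induction l with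
  | nil => rfl
  | cons c l ih =>
    rw [List.flatMap_cons, List.map_append, List.sum_append, ih, List.map_cons, List.sum_cons]

/-- evaluation of a concatenation: outer blocks first. -/
theorem evU_append (a : I → I → ℕ) (U V : List (Finset I × FFn I))
    (hd : U.Pairwise (fun b c => Disjoint b.1 c.1)) (T : Trm I) :
    evU a (U ++ V) T = ((prodF U).map (fun c => c.1 * evU a V (patT a (uni U) c.2 T))).sum := by
  induction U generalizing T with
  | nil =>
    show evU a V T = ([((1 : ℚ), (⟨fun _ => 0, fun _ => 0⟩ : Pat I))].map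
      (fun c => c.1 * evU a V (patT a ∅ c.2 T))).sum
    rw [List.map_cons, List.map_nil, List.sum_cons, List.sum_nil, AH12_patT_empty]
    ring
  | cons b U ih =>
    have hd' := List.pairwise_cons.1 hd
    have hdis : Disjoint b.1 (uni U) := by
      rw [Finset.disjoint_left]
      intro x hx hxU
      obtain ⟨c, hc, hxc⟩ := (AH12_uni U x).1 hxU
      exact Finset.disjoint_left.1 (hd'.1 c hc) hx hxc
    rw [List.cons_append, evU_cons]
    have h1 : prodF (b :: U) = b.2.flatMap
        (fun c => (prodF U).map (fun d => (c.1 * d.1, glue b.1 c.2 d.2))) := rfl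
    rw [h1, AH12_flat]
    congr 1
    refine List.map_congr_left fun c _ => ?_
    rw [ih hd'.2, AH12_mul_sum, List.map_map]
    congr 1
    refine List.map_congr_left fun d _ => ?_
    show c.1 * (d.1 * evU a V (patT a (uni U) d.2 (patT a b.1 c.2 T))) =
      c.1 * d.1 * evU a V (patT a (b.1 ∪ uni U) (glue b.1 c.2 d.2) T)
    rw [patT_glue a b.1 (uni U) hdis, patT_comm a b.1 (uni U) hdis]
    ring

/-- removal of one component: separated rest. -/
theorem comps_sdiff_sep (a : I → I → ℕ) (hs : ∀ i j, a i j = a j i) (W A : Finset I)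
    (hA : A ∈ comps a W) : Sep a A (W \ A) ∧ A ∪ (W \ A) = W := by
  refine ⟨⟨Finset.disjoint_sdiff, fun x hx y hy => ?_⟩,
    Finset.union_sdiff_of_subset (comps_subset hA)⟩
  exact comps_sep hA x hx y (Finset.mem_sdiff.1 hy).1 (Finset.mem_sdiff.1 hy).2

theorem cqN_comp (a : I → I → ℕ) (W A : Finset I) (hA : A ∈ comps a W) (q : I → ℚ) :
    ∀ x ∈ A, cqN a A q x = cqN a W q x :=
  AH12_cqN a W A hA q

private theorem AH12_cnA (a : I → I → ℕ) (cd : CrossData a) (n : ℕ) :
    ∀ (A : Finset I) (q q' : I → ℚ) (g : ℕ), (∀ x ∈ A, IsZ (q x - q' x)) →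
      cnA a cd n A q g = cnA a cd n A q' g := by
  classical
  induction n with
  | zero => intro A q q' g _; rfl
  | succ n ih =>
    intro A q q' g h
    unfold cnA
    by_cases hg : g = 0
    · rw [if_pos hg, if_pos hg]
    · rw [if_neg hg, if_neg hg]
      refine Finset.sum_congr ?_ fun M _ => ?_
      · refine Finset.filter_congr fun M hM => ?_
        have hMA := Finset.mem_powerset.1 hM
        constructor
        · intro h1 x hx
          have h2 := AH12_zadd (AH12_zsubc (h x (hMA hx))) (h1 x hx)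
          rwa [sub_add_cancel] at h2
        · intro h1 x hx
          have h2 := AH12_zadd (h x (hMA hx)) (h1 x hx)
          rwa [sub_add_cancel] at h2
      · congr 1
        refine Finset.prod_congr rfl fun N hN => ?_
        have h1 : ∀ x ∈ N, IsZ (q x - q' x) := fun x hx =>
          h x (Finset.mem_sdiff.1 (comps_subset hN hx)).1
        rw [cd.eps_congr N q q' h1, ih N q q' (g - cd.mm N) h1]

/-- the response numbers only depend on the class on `A`. -/
theorem cn_congrZ (a : I → I → ℕ) (cd : CrossData a) (A : Finset I) (q q' : I → ℚ) (g : ℕ)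
    (h : ∀ x ∈ A, IsZ (q x - q' x)) : cn a cd A q g = cn a cd A q' g :=
  AH12_cnA a cd _ A q q' g h

/-- restarted clusters. -/
theorem RFex_cn (a : I → I → ℕ) (hs : ∀ i j, a i j = a j i) (cd : CrossData a)
    (h : RTfam a cd) (N : Finset I) (hN : FinT a N) (hc : ConnS a N) (q : I → ℚ)
    (hq : ∀ x ∈ N, IsZ (cqN a N q x)) (L k : ℕ) (hkL : k ≤ L) :
    RFex a cd N q (fun l => cn a cd N q (L - l)) k := by
  intro f hf
  have hr := rp_spec a hs N hN q hq
  obtain ⟨Φ, hΦ⟩ := h.tau N hN hc _ hr.1 L f (hf.trans hkL)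
  exact ⟨Φ, hΦ.congr hr.2 fun l _ => cn_congrZ a cd N _ _ _ hr.2⟩

/-- a cluster which has been restarted at the level `L` with frontier `L`. -/
theorem IsRF_L (a : I → I → ℕ) (hs : ∀ i j, a i j = a j i) (cd : CrossData a)
    (h : RTfam a cd) (N : Finset I) (hN : FinT a N) (hc : ConnS a N) (q q' : I → ℚ)
    (hq : Rep a N q q') (L : ℕ) :
    IsRF a cd N q (fun l => cn a cd N q (L - l)) L [(1, ⟨fun _ => L, q'⟩)] :=
  (h.tauL N hN hc q' hq.1 L).congr hq.2 fun l _ => cn_congrZ a cd N _ _ _ hq.2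

theorem RFex_of_Adm (a : I → I → ℕ) (hs : ∀ i j, a i j = a j i) (cd : CrossData a)
    (h : RTfam a cd) (N : Finset I) (hN : FinT a N) (hc : ConnS a N) (γ q : I → ℚ)
    (hq : ∀ x ∈ N, IsZ (cqN a N q x)) (w : ℕ → ℚ) (k : ℕ)
    (hw : AdmW (fun N q g => cn a cd N q g) k N γ q w) : RFex a cd N q w k := by
  rcases hw with ⟨L, hkL, hw, _⟩ | ⟨hq0, hw, _⟩
  · refine (RFex_cn a hs cd h N hN hc q hq L k hkL).congr (fun x _ => ⟨0, ?_⟩)
      fun l hl => (hw l hl).symm
    rw [sub_self]
    rfl
  · intro f hf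
    obtain ⟨Φ, hΦ⟩ := h.top0 N hN hc f
    refine ⟨Φ, hΦ.congr (fun x hx => ⟨0, ?_⟩) fun l hl => (hw l (hl.trans hf)).symm⟩
    show (0 : ℚ) - q x = _
    rw [hq0 x hx, sub_self]
    rfl

end

end Pool.Agent.H46.AH

end

section

/-!
KAC ADE, module AH9: expansion of the regular vertices.

`reg_expand`: apply `TV_expPD` (AD6) at level `k` to every vertex `x ∉ W` (column `j = x`):
`stE (k+1) P p = ∑ -P_i dd i k + (-2 P_i + p_i) (i,k) + P_i (i,k-1)`, column `x` is `sy x (k+1) + c` with
`c = -∑_l H_lx (l,k)`; weight `(-1)^m choose(-P, m) / P` (for `m ≥ 1` this is `wtq P m`, for `m = 0` the factor `1/P` cancels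
with the scale `P` of the column: `TV_col_smul`).  Terms with `k n_x > γ_x` vanish (`TV_neg`); if `γ_x < 0` both sides are zero.
The patterns of the blocks of `U` live on vertices of `W`: they change `γ` on `W` only, the columns of `W`, and add
exponents; so first prove the statement for `TV` with an additional summand in the exponents, arbitrary `γ` and arbitrary
columns on `W`, and then use induction on `U`.
-/

set_option autoImplicit false

namespace Pool.Agent.H46.AH

open scoped BigOperators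
open Pool.Agent.H27.KAC Pool.Agent.H40.KADE

theorem AH9_choose_succ (r : ℚ) (m : ℕ) :
    ((m : ℚ) + 1) * Ring.choose r (m + 1) = Ring.choose r m * (r - m) := by
  have h := Ring.choose_smul_choose r (n := m + 1) (k := m) (Nat.le_succ m)
  rw [Nat.add_sub_cancel_left, Ring.choose_one_right, Nat.choose_succ_self_right, nsmul_eq_mul] at h
  push_cast at h
  exact h

theorem AH9_wt (P : ℚ) (hP : 0 < P) (m : ℕ) :
    (-1 : ℚ) ^ (m + 1) * Ring.choose (-P) (m + 1) / P = wtq P (m + 1) := by
  induction m with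
  | zero =>
    rw [zero_add, Ring.choose_one_right, pow_one, neg_one_mul, neg_neg, div_self hP.ne']
    unfold wtq
    simp
  | succ m ih =>
    have h := AH9_choose_succ (-P) (m + 1)
    have h1 : wtq P (m + 1 + 1) = wtq P (m + 1) * (P + (m + 1)) / (m + 1 + 1) := by
      unfold wtq
      have e1 : m + 1 + 1 - 1 = m + 1 := rfl
      have e2 : m + 1 - 1 = m := rfl
      rw [e1, e2, Finset.prod_range_succ, Nat.factorial_succ (m + 1)]
      have hf : ((m + 1).factorial : ℚ) ≠ 0 := by exact_mod_cast Nat.factorial_ne_zero _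
      have hm : ((m : ℚ) + 1 + 1) ≠ 0 := by positivity
      push_cast
      field_simp
      ring
    rw [h1, ← ih]
    have hm : ((m : ℚ) + 1 + 1) ≠ 0 := by positivity
    have hPn : P ≠ 0 := hP.ne'
    have h2 : Ring.choose (-P) (m + 1 + 1) = Ring.choose (-P) (m + 1) * (-P - (m + 1)) / (m + 1 + 1) := by
      rw [eq_div_iff hm]
      push_cast at h
      linarith
    rw [h2, pow_succ (-1 : ℚ) (m + 1)]
    field_simp
    ring

section
variable {I : Type} [Fintype I] [DecidableEq I]

theorem AH9_one (a : I → I → ℕ) (hs : ∀ i j, a i j = a j i) (k : ℕ) (hk : 1 ≤ k) (P : ℚ)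
    (hP : 0 < P) (T : Trm I) (x : I) (c : QE I) :
    TV a ((T.mulE (-(P • dd x k))).col x (sy x (k + 1) + c)) =
      ∑ m ∈ Finset.Icc (0 : ℤ) ⌊T.γ x / k⌋, wtq P m.toNat *
        TV a ((T.eta a k (Pi.single x (m : ℚ))).col x
          (sclq P m • ((2 : ℚ) • sy x k - sy x (k - 1) + c) + (m : ℚ) • cE a x k)) := by
  have hk0 : (0 : ℚ) < k := by exact_mod_cast hk
  rw [TV_expPD a hs T x x k hk P hP.ne' c ⌊T.γ x⌋₊ le_rfl]
  -- termwise
  have h1 : ∀ m : ℕ, (-1 : ℚ) ^ m * Ring.choose (-P) m / P *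
        TV a ((T.eta a k (Pi.single x (m : ℚ))).col x
          (P • ((2 : ℚ) • sy x k - sy x (k - 1) + c) + (m : ℚ) • cE a x k)) =
      wtq P m * TV a ((T.eta a k (Pi.single x (m : ℚ))).col x
          (sclq P m • ((2 : ℚ) • sy x k - sy x (k - 1) + c) + (m : ℚ) • cE a x k)) := by
    intro m
    rcases m with _ | m
    · have e1 : (P • ((2 : ℚ) • sy x k - sy x (k - 1) + c) + ((0 : ℕ) : ℚ) • cE a x k) =
          P • ((2 : ℚ) • sy x k - sy x (k - 1) + c) := by
        rw [Nat.cast_zero, zero_smul, add_zero]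
      have e2 : (sclq P ((0 : ℕ) : ℚ) • ((2 : ℚ) • sy x k - sy x (k - 1) + c) +
          ((0 : ℕ) : ℚ) • cE a x k) = ((2 : ℚ) • sy x k - sy x (k - 1) + c) := by
        unfold sclq
        rw [Nat.cast_zero, if_pos rfl, zero_smul, add_zero, one_smul]
      rw [e1, e2, TV_col_smul, Ring.choose_zero_right]
      have e3 : wtq P 0 = 1 := by unfold wtq; simp
      rw [e3]
      field_simp
    · rw [AH9_wt P hP m]
      unfold sclq
      rw [if_neg (by positivity)]
  rw [Finset.sum_congr rfl (fun m _ => h1 m)]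
  -- the terms with k m > γ vanish
  have h2 : ∀ m : ℕ, T.γ x < k * m → TV a ((T.eta a k (Pi.single x (m : ℚ))).col x
          (sclq P m • ((2 : ℚ) • sy x k - sy x (k - 1) + c) + (m : ℚ) • cE a x k)) = 0 := by
    intro m hm
    apply TV_neg a _ x
    show T.γ x - k * (Pi.single x (m : ℚ) : I → ℚ) x < 0
    rw [Pi.single_eq_same]
    linarith
  by_cases hg : T.γ x < 0
  · rw [Finset.Icc_eq_empty, Finset.sum_empty]
    · apply Finset.sum_eq_zero
      intro m _
      rw [h2 m, mul_zero]
      have : (0 : ℚ) ≤ k * m := by positivity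
      linarith
    · intro h
      have h3 : (0 : ℚ) ≤ T.γ x / k := by
        have := Int.floor_nonneg.1 h
        exact this
      have h4 : T.γ x / k < 0 := div_neg_of_neg_of_pos hg hk0
      linarith
  · rw [not_lt] at hg
    symm
    have h5 : 0 ≤ T.γ x / k := div_nonneg hg hk0.le
    have h6 : ∑ m ∈ Finset.Icc (0 : ℤ) ⌊T.γ x / k⌋, wtq P m.toNat *
        TV a ((T.eta a k (Pi.single x (m : ℚ))).col x
          (sclq P m • ((2 : ℚ) • sy x k - sy x (k - 1) + c) + (m : ℚ) • cE a x k)) =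
        ∑ m ∈ Finset.range (⌊T.γ x / k⌋₊ + 1), wtq P m *
        TV a ((T.eta a k (Pi.single x (m : ℚ))).col x
          (sclq P m • ((2 : ℚ) • sy x k - sy x (k - 1) + c) + (m : ℚ) • cE a x k)) := by
      symm
      refine Finset.sum_bij (fun m _ => (m : ℤ)) ?_ ?_ ?_ ?_
      · intro m hm
        rw [Finset.mem_range] at hm
        rw [Finset.mem_Icc]
        refine ⟨by positivity, ?_⟩
        rw [← Int.natCast_floor_eq_floor h5]
        exact_mod_cast Nat.lt_succ_iff.1 hm
      · intro m _ m' _ h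
        exact_mod_cast h
      · intro m hm
        rw [Finset.mem_Icc, ← Int.natCast_floor_eq_floor h5] at hm
        refine ⟨m.toNat, ?_, ?_⟩
        · rw [Finset.mem_range]
          omega
        · exact Int.toNat_of_nonneg hm.1
      · intro m _
        simp
    rw [h6]
    apply Finset.sum_subset
    · intro m hm
      rw [Finset.mem_range] at hm ⊢
      have : ⌊T.γ x / k⌋₊ ≤ ⌊T.γ x⌋₊ := by
        apply Nat.floor_mono
        rw [div_le_iff₀ hk0]
        have : (1 : ℚ) ≤ k := by exact_mod_cast hk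
        nlinarith
      omega
    · intro m _ hm
      rw [Finset.mem_range, not_lt, Nat.succ_le_iff, Nat.floor_lt h5, div_lt_iff₀ hk0] at hm
      rw [h2 m (by linarith), mul_zero]

/-- the term with all vertices of `V` unexpanded. -/
noncomputable def AH9_full (k : ℕ) (P : I → ℚ) (c : I → QE I) (V : Finset I) (B : Trm I) : Trm I :=
  ⟨B.γ, B.E - ∑ i ∈ V, P i • dd i k, fun j => if j ∈ V then sy j (k + 1) + c j else B.Λ j⟩

/-- the term with all vertices of `V` expanded. -/
noncomputable def AH9_part (a : I → I → ℕ) (k : ℕ) (P : I → ℚ) (c : I → QE I) (V : Finset I)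
    (B : Trm I) (n : I → ℤ) : Trm I :=
  ⟨fun i => B.γ i - if i ∈ V then (k : ℚ) * n i else 0, B.E - ∑ i ∈ V, (n i : ℚ) • cE a i k,
    fun j => if j ∈ V then sclq (P j) (n j) • ((2 : ℚ) • sy j k - sy j (k - 1) + c j) +
      (n j : ℚ) • cE a j k else B.Λ j⟩

/-- the box. -/
noncomputable def AH9_box (V : Finset I) (k : ℕ) (γ : I → ℚ) : Finset (I → ℤ) :=
  Fintype.piFinset (fun i => if i ∈ V then Finset.Icc 0 ⌊γ i / k⌋ else {0})

theorem AH9_box_congr (V : Finset I) (k : ℕ) (γ γ' : I → ℚ) (h : ∀ i ∈ V, γ i = γ' i) :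
    AH9_box V k γ = AH9_box V k γ' := by
  unfold AH9_box
  congr 1
  funext i
  by_cases hi : i ∈ V
  · rw [if_pos hi, if_pos hi, h i hi]
  · rw [if_neg hi, if_neg hi]

theorem AH9_box_insert (V : Finset I) (x : I) (hx : x ∉ V) (k : ℕ) (γ : I → ℚ)
    (F : (I → ℤ) → ℚ) : ∑ n ∈ AH9_box (insert x V) k γ, F n =
      ∑ m ∈ Finset.Icc (0 : ℤ) ⌊γ x / k⌋, ∑ n ∈ AH9_box V k γ, F (Function.update n x m) := by
  rw [← Finset.sum_product']
  symm
  refine Finset.sum_bij' (fun p _ => Function.update p.2 x p.1)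
    (fun n _ => (n x, Function.update n x 0)) ?_ ?_ ?_ ?_ ?_
  · rintro ⟨m, n⟩ hp
    rw [Finset.mem_product] at hp
    unfold AH9_box at hp ⊢
    rw [Fintype.mem_piFinset] at hp ⊢
    intro i
    by_cases hi : i = x
    · subst hi
      rw [Function.update_self, if_pos (Finset.mem_insert_self _ _)]
      exact hp.1
    · rw [Function.update_of_ne hi]
      have h2 := hp.2 i
      by_cases hV : i ∈ V
      · rw [if_pos hV] at h2
        rw [if_pos (Finset.mem_insert_of_mem hV)]
        exact h2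
      · rw [if_neg hV] at h2
        rw [if_neg (fun h => (Finset.mem_insert.1 h).elim hi hV)]
        exact h2
  · intro n hn
    unfold AH9_box at hn ⊢
    rw [Fintype.mem_piFinset] at hn
    rw [Finset.mem_product, Fintype.mem_piFinset]
    refine ⟨?_, fun i => ?_⟩
    · have h := hn x
      rw [if_pos (Finset.mem_insert_self _ _)] at h
      exact h
    · by_cases hi : i = x
      · subst hi
        show Function.update n i 0 i ∈ _
        rw [Function.update_self, if_neg hx]
        exact Finset.mem_singleton_self _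
      · show Function.update n x 0 i ∈ _
        rw [Function.update_of_ne hi]
        have h2 := hn i
        by_cases hV : i ∈ V
        · rw [if_pos (Finset.mem_insert_of_mem hV)] at h2
          rw [if_pos hV]
          exact h2
        · rw [if_neg (fun h => (Finset.mem_insert.1 h).elim hi hV)] at h2
          rw [if_neg hV]
          exact h2
  · rintro ⟨m, n⟩ hp
    rw [Finset.mem_product] at hp
    unfold AH9_box at hp
    rw [Fintype.mem_piFinset] at hp
    have h := hp.2 x
    rw [if_neg hx, Finset.mem_singleton] at h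
    refine Prod.ext ?_ ?_
    · show Function.update n x m x = m
      rw [Function.update_self]
    · show Function.update (Function.update n x m) x 0 = n
      rw [Function.update_idem]
      funext i
      by_cases hi : i = x
      · subst hi
        rw [Function.update_self]
        exact h.symm
      · rw [Function.update_of_ne hi]
  · intro n hn
    show Function.update (Function.update n x 0) x (n x) = n
    rw [Function.update_idem, Function.update_eq_self]
  · intro p _
    rfl

theorem AH9_TV (a : I → I → ℕ) (hs : ∀ i j, a i j = a j i) (k : ℕ) (hk : 1 ≤ k) (P : I → ℚ)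
    (c : I → QE I) (V : Finset I) : ∀ (_ : ∀ i ∈ V, 0 < P i) (B : Trm I),
    TV a (AH9_full k P c V B) = ∑ n ∈ AH9_box V k B.γ,
      (∏ j ∈ V, wtq (P j) (n j).toNat) * TV a (AH9_part a k P c V B n) := by
  induction V using Finset.induction_on with
  | empty =>
    intro _ B
    have h1 : AH9_box (∅ : Finset I) k B.γ = {fun _ => 0} := by
      ext n
      unfold AH9_box
      rw [Fintype.mem_piFinset, Finset.mem_singleton]
      constructor
      · intro h
        funext i
        have := h i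
        rw [if_neg (Finset.notMem_empty i), Finset.mem_singleton] at this
        exact this
      · rintro rfl i
        rw [if_neg (Finset.notMem_empty i)]
        exact Finset.mem_singleton_self _
    rw [h1, Finset.sum_singleton, Finset.prod_empty, one_mul]
    have h2 : AH9_full k P c ∅ B = B := by
      refine Trm.ext rfl ?_ ?_
      · show B.E - ∑ i ∈ (∅ : Finset I), P i • dd i k = B.E
        rw [Finset.sum_empty, sub_zero]
      · funext j
        simp [AH9_full]
    have h3 : AH9_part a k P c ∅ B (fun _ => 0) = B := by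
      refine Trm.ext ?_ ?_ ?_
      · funext i
        show B.γ i - (if i ∈ (∅ : Finset I) then _ else 0) = B.γ i
        rw [if_neg (Finset.notMem_empty i), sub_zero]
      · show B.E - ∑ i ∈ (∅ : Finset I), _ = B.E
        rw [Finset.sum_empty, sub_zero]
      · funext j
        simp [AH9_part]
    rw [h2, h3]
  | insert x V hx ih =>
    intro hP B
    have hPV : ∀ i ∈ V, 0 < P i := fun i hi => hP i (Finset.mem_insert_of_mem hi)
    have hne : ∀ i ∈ V, i ≠ x := by
      intro i hi h
      rw [h] at hi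
      exact hx hi
    have h1 : AH9_full k P c (insert x V) B =
        ((AH9_full k P c V B).mulE (-(P x • dd x k))).col x (sy x (k + 1) + c x) := by
      refine Trm.ext rfl ?_ ?_
      · show B.E - ∑ i ∈ insert x V, P i • dd i k =
          (B.E - ∑ i ∈ V, P i • dd i k) + -(P x • dd x k)
        rw [Finset.sum_insert hx]
        abel
      · funext j
        show (if j ∈ insert x V then sy j (k + 1) + c j else B.Λ j) =
          Function.update (fun j => if j ∈ V then sy j (k + 1) + c j else B.Λ j) x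
            (sy x (k + 1) + c x) j
        by_cases hj : j = x
        · subst hj
          rw [Function.update_self, if_pos (Finset.mem_insert_self _ _)]
        · rw [Function.update_of_ne hj]
          by_cases hV : j ∈ V
          · rw [if_pos hV, if_pos (Finset.mem_insert_of_mem hV)]
          · rw [if_neg hV, if_neg (fun h => (Finset.mem_insert.1 h).elim hj hV)]
    rw [h1, AH9_one a hs k hk (P x) (hP x (Finset.mem_insert_self _ _)) _ x (c x),
      AH9_box_insert V x hx k B.γ]
    refine Finset.sum_congr rfl fun m _ => ?_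
    -- the base term after the expansion of `x`
    obtain ⟨B', hB'⟩ : ∃ B' : Trm I, B' = (B.eta a k (Pi.single x (m : ℚ))).col x
      (sclq (P x) m • ((2 : ℚ) • sy x k - sy x (k - 1) + c x) + (m : ℚ) • cE a x k) := ⟨_, rfl⟩
    have h2 : ((AH9_full k P c V B).eta a k (Pi.single x (m : ℚ))).col x
        (sclq (P x) m • ((2 : ℚ) • sy x k - sy x (k - 1) + c x) + (m : ℚ) • cE a x k) =
        AH9_full k P c V B' := by
      rw [hB']
      refine Trm.ext rfl ?_ ?_
      · show (B.E - ∑ i ∈ V, P i • dd i k) - ∑ i, (Pi.single x (m : ℚ) : I → ℚ) i • cE a i k =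
          (B.E - ∑ i, (Pi.single x (m : ℚ) : I → ℚ) i • cE a i k) - ∑ i ∈ V, P i • dd i k
        abel
      · funext j
        show Function.update (fun j => if j ∈ V then sy j (k + 1) + c j else B.Λ j) x _ j =
          if j ∈ V then sy j (k + 1) + c j else Function.update B.Λ x _ j
        by_cases hj : j = x
        · subst hj
          rw [Function.update_self, if_neg hx, Function.update_self]
        · rw [Function.update_of_ne hj, Function.update_of_ne hj]
    rw [h2, ih hPV B']
    have h3 : AH9_box V k B'.γ = AH9_box V k B.γ := by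
      apply AH9_box_congr
      intro i hi
      rw [hB']
      show B.γ i - k * (Pi.single x (m : ℚ) : I → ℚ) i = B.γ i
      rw [Pi.single_eq_of_ne (hne i hi), mul_zero, sub_zero]
    rw [h3, Finset.mul_sum]
    refine Finset.sum_congr rfl fun n _ => ?_
    rw [← mul_assoc, Finset.prod_insert hx, Function.update_self]
    have h4 : ∏ j ∈ V, wtq (P j) (Function.update n x m j).toNat =
        ∏ j ∈ V, wtq (P j) (n j).toNat := by
      refine Finset.prod_congr rfl fun j hj => ?_
      rw [Function.update_of_ne (hne j hj)]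
    rw [h4]
    congr 1
    congr 1
    rw [hB']
    refine Trm.ext ?_ ?_ ?_
    · funext i
      show (B.γ i - k * (Pi.single x (m : ℚ) : I → ℚ) i) - (if i ∈ V then (k : ℚ) * n i else 0) =
        B.γ i - if i ∈ insert x V then (k : ℚ) * (Function.update n x m i : ℤ) else 0
      by_cases hi : i = x
      · subst hi
        rw [Pi.single_eq_same, if_neg hx, if_pos (Finset.mem_insert_self _ _),
          Function.update_self, sub_zero]
      · rw [Pi.single_eq_of_ne hi, mul_zero, sub_zero, Function.update_of_ne hi]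
        by_cases hV : i ∈ V
        · rw [if_pos hV, if_pos (Finset.mem_insert_of_mem hV)]
        · rw [if_neg hV, if_neg (fun h => (Finset.mem_insert.1 h).elim hi hV)]
    · show (B.E - ∑ i, (Pi.single x (m : ℚ) : I → ℚ) i • cE a i k) -
          ∑ i ∈ V, (n i : ℚ) • cE a i k =
        B.E - ∑ i ∈ insert x V, ((Function.update n x m i : ℤ) : ℚ) • cE a i k
      rw [Finset.sum_insert hx, Function.update_self]
      have e1 : ∑ i, (Pi.single x (m : ℚ) : I → ℚ) i • cE a i k = (m : ℚ) • cE a x k := by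
        rw [Finset.sum_eq_single x]
        · rw [Pi.single_eq_same]
        · intro i _ hi
          rw [Pi.single_eq_of_ne hi, zero_smul]
        · intro h
          exact absurd (Finset.mem_univ x) h
      have e2 : ∑ i ∈ V, ((Function.update n x m i : ℤ) : ℚ) • cE a i k =
          ∑ i ∈ V, (n i : ℚ) • cE a i k := by
        refine Finset.sum_congr rfl fun i hi => ?_
        rw [Function.update_of_ne (hne i hi)]
      rw [e1, e2]
      abel
    · funext j
      show (if j ∈ V then sclq (P j) (n j) • ((2 : ℚ) • sy j k - sy j (k - 1) + c j) +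
          (n j : ℚ) • cE a j k else Function.update B.Λ x _ j) =
        if j ∈ insert x V then sclq (P j) ((Function.update n x m j : ℤ) : ℚ) •
          ((2 : ℚ) • sy j k - sy j (k - 1) + c j) + ((Function.update n x m j : ℤ) : ℚ) • cE a j k
          else B.Λ j
      by_cases hj : j = x
      · subst hj
        rw [if_neg hx, Function.update_self, if_pos (Finset.mem_insert_self _ _),
          Function.update_self]
      · rw [Function.update_of_ne hj, Function.update_of_ne hj]
        by_cases hV : j ∈ V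
        · rw [if_pos hV, if_pos (Finset.mem_insert_of_mem hV)]
        · rw [if_neg hV, if_neg (fun h => (Finset.mem_insert.1 h).elim hj hV)]

theorem AH9_patT_full (a : I → I → ℕ) (k : ℕ) (P : I → ℚ) (c : I → QE I) (V D : Finset I)
    (hD : Disjoint D V) (π : Pat I) (B : Trm I) :
    patT a D π (AH9_full k P c V B) = AH9_full k P c V (patT a D π B) := by
  refine Trm.ext rfl ?_ ?_
  · show (B.E - ∑ i ∈ V, P i • dd i k) - ∑ x, _ • cE a x (π.s x) =
      (B.E - ∑ x, _ • cE a x (π.s x)) - ∑ i ∈ V, P i • dd i k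
    abel
  · funext j
    show (if j ∈ D then sy j (π.s j + 1) else if j ∈ V then sy j (k + 1) + c j else B.Λ j) =
      if j ∈ V then sy j (k + 1) + c j else if j ∈ D then sy j (π.s j + 1) else B.Λ j
    by_cases hj : j ∈ D
    · have hjV : j ∉ V := Finset.disjoint_left.1 hD hj
      rw [if_pos hj, if_neg hjV, if_pos hj]
    · rw [if_neg hj, if_neg hj]

theorem AH9_patT_part (a : I → I → ℕ) (k : ℕ) (P : I → ℚ) (c : I → QE I) (V D : Finset I)
    (hD : Disjoint D V) (π : Pat I) (B : Trm I) (n : I → ℤ) :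
    patT a D π (AH9_part a k P c V B n) = AH9_part a k P c V (patT a D π B) n := by
  refine Trm.ext ?_ ?_ ?_
  · funext i
    show (B.γ i - (if i ∈ V then (k : ℚ) * n i else 0)) - (π.s i : ℚ) * -resQ D π.q i =
      (B.γ i - (π.s i : ℚ) * -resQ D π.q i) - if i ∈ V then (k : ℚ) * n i else 0
    ring
  · show (B.E - ∑ i ∈ V, (n i : ℚ) • cE a i k) - ∑ x, _ • cE a x (π.s x) =
      (B.E - ∑ x, _ • cE a x (π.s x)) - ∑ i ∈ V, (n i : ℚ) • cE a i k
    abel
  · funext j
    show (if j ∈ D then sy j (π.s j + 1) else if j ∈ V then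
        sclq (P j) (n j) • ((2 : ℚ) • sy j k - sy j (k - 1) + c j) + (n j : ℚ) • cE a j k
        else B.Λ j) =
      if j ∈ V then
        sclq (P j) (n j) • ((2 : ℚ) • sy j k - sy j (k - 1) + c j) + (n j : ℚ) • cE a j k
      else if j ∈ D then sy j (π.s j + 1) else B.Λ j
    by_cases hj : j ∈ D
    · have hjV : j ∉ V := Finset.disjoint_left.1 hD hj
      rw [if_pos hj, if_neg hjV, if_pos hj]
    · rw [if_neg hj, if_neg hj]

theorem AH9_list_sum {ι κ : Type} (l : List ι) (s : Finset κ) (f : ι → κ → ℚ) :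
    (l.map (fun c => ∑ n ∈ s, f c n)).sum = ∑ n ∈ s, (l.map (fun c => f c n)).sum := by
  induction l with
  | nil => simp
  | cons c l ih =>
    rw [List.map_cons, List.sum_cons, ih, ← Finset.sum_add_distrib]
    refine Finset.sum_congr rfl fun n _ => ?_
    rw [List.map_cons, List.sum_cons]

theorem AH9_evU (a : I → I → ℕ) (hs : ∀ i j, a i j = a j i) (k : ℕ) (hk : 1 ≤ k) (P : I → ℚ)
    (c : I → QE I) (V : Finset I) (hP : ∀ i ∈ V, 0 < P i) (U : List (Finset I × FFn I)) :
    ∀ (_ : ∀ b ∈ U, Disjoint b.1 V) (B : Trm I),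
    evU a U (AH9_full k P c V B) = ∑ n ∈ AH9_box V k B.γ,
      (∏ j ∈ V, wtq (P j) (n j).toNat) * evU a U (AH9_part a k P c V B n) := by
  induction U with
  | nil =>
    intro _ B
    exact AH9_TV a hs k hk P c V hP B
  | cons b U ih =>
    intro hU B
    have hb : Disjoint b.1 V := hU b List.mem_cons_self
    have hU' : ∀ d ∈ U, Disjoint d.1 V := fun d hd => hU d (List.mem_cons_of_mem _ hd)
    rw [evU_cons_def]
    have h1 : ∀ d : ℚ × Pat I, d.1 * evU a U (patT a b.1 d.2 (AH9_full k P c V B)) =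
        ∑ n ∈ AH9_box V k B.γ, (∏ j ∈ V, wtq (P j) (n j).toNat) *
          (d.1 * evU a U (patT a b.1 d.2 (AH9_part a k P c V B n))) := by
      intro d
      rw [AH9_patT_full a k P c V b.1 hb d.2 B, ih hU' (patT a b.1 d.2 B)]
      have h2 : AH9_box V k (patT a b.1 d.2 B).γ = AH9_box V k B.γ := by
        apply AH9_box_congr
        intro i hi
        show B.γ i - (d.2.s i : ℚ) * -resQ b.1 d.2.q i = B.γ i
        have hib : i ∉ b.1 := fun h => Finset.disjoint_left.1 hb h hi
        unfold resQ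
        rw [if_neg hib]
        ring
      rw [h2, Finset.mul_sum]
      refine Finset.sum_congr rfl fun n _ => ?_
      rw [AH9_patT_part a k P c V b.1 hb d.2 B n]
      ring
    rw [List.map_congr_left (fun d _ => h1 d), AH9_list_sum]
    refine Finset.sum_congr rfl fun n _ => ?_
    rw [evU_cons_def, GDef_mul_sum]

/-- the box of the regular vertices. -/
noncomputable def nbox (W : Finset I) (k : ℕ) (γ : I → ℚ) : Finset (I → ℤ) :=
  Fintype.piFinset (fun i => if i ∈ W then {0} else Finset.Icc 0 ⌊γ i / k⌋)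

/-- the term after the expansion of the regular vertices. -/
noncomputable def regT (a : I → I → ℕ) (k : ℕ) (γ P p : I → ℚ) (H : I → I → ℚ) (W : Finset I)
    (n : I → ℤ) : Trm I :=
  ⟨fun i => γ i - k * n i,
    ∑ i, ((-(2 * P i - p i)) • sy i k + P i • sy i (k - 1)) - ∑ i, (n i : ℚ) • cE a i k,
    fun j => if j ∈ W then 0 else
      sclq (P j) (n j) • ((2 : ℚ) • sy j k - sy j (k - 1) - ∑ l ∈ Finset.univ \ W, H l j • sy l k) +
        (n j : ℚ) • cE a j k⟩

/-- expansion of the regular vertices. -/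
theorem reg_expand (a : I → I → ℕ) (hs : ∀ i j, a i j = a j i) (k : ℕ) (hk : 1 ≤ k)
    (γ P p : I → ℚ) (H : I → I → ℚ) (W : Finset I) (hP : ∀ i, i ∉ W → 0 < P i)
    (hP0 : ∀ i ∈ W, P i = 0) (U : List (Finset I × FFn I)) (hU : ∀ b ∈ U, b.1 ⊆ W) :
    evU a U (stTrm (k + 1) γ P p idm H W) =
      ∑ n ∈ nbox W k γ, stw W P n * evU a U (regT a k γ P p H W n) := by
  have hbox : nbox W k γ = AH9_box (Finset.univ \ W) k γ := by
    unfold nbox AH9_box
    congr 1
    funext i
    by_cases hi : i ∈ W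
    · rw [if_pos hi, if_neg (fun h => (Finset.mem_sdiff.1 h).2 hi)]
    · rw [if_neg hi, if_pos (Finset.mem_sdiff.2 ⟨Finset.mem_univ i, hi⟩)]
  obtain ⟨B, hB⟩ : ∃ B : Trm I, B = ⟨γ, ∑ i, ((-(2 * P i - p i)) • sy i k + P i • sy i (k - 1)),
    fun _ => 0⟩ := ⟨_, rfl⟩
  have hfull : stTrm (k + 1) γ P p idm H W =
      AH9_full k P (fun j => -∑ l ∈ Finset.univ \ W, H l j • sy l k) (Finset.univ \ W) B := by
    rw [hB]
    refine Trm.ext rfl ?_ ?_
    · show ∑ i, ((-P i) • sy i (k + 1) + (p i) • sy i (k + 1 - 1)) =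
        ∑ i, ((-(2 * P i - p i)) • sy i k + P i • sy i (k - 1)) -
          ∑ i ∈ Finset.univ \ W, P i • dd i k
      have h1 : ∑ i ∈ Finset.univ \ W, P i • (dd i k : QE I) = ∑ i, P i • dd i k := by
        apply Finset.sum_subset (Finset.subset_univ _)
        intro i _ hi
        have hiW : i ∈ W := by
          by_contra h
          exact hi (Finset.mem_sdiff.2 ⟨Finset.mem_univ i, h⟩)
        rw [hP0 i hiW, zero_smul]
      rw [h1, ← Finset.sum_sub_distrib]
      refine Finset.sum_congr rfl fun i _ => ?_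
      unfold dd
      rw [Nat.add_sub_cancel]
      module
    · funext j
      show (if j ∈ W then 0 else ∑ l ∈ Finset.univ \ W,
        (idm l j • sy l (k + 1) - H l j • sy l (k + 1 - 1))) =
        if j ∈ Finset.univ \ W then sy j (k + 1) + -∑ l ∈ Finset.univ \ W, H l j • sy l k else 0
      by_cases hj : j ∈ W
      · rw [if_pos hj, if_neg (fun h => (Finset.mem_sdiff.1 h).2 hj)]
      · have hj' : j ∈ Finset.univ \ W := Finset.mem_sdiff.2 ⟨Finset.mem_univ j, hj⟩
        rw [if_neg hj, if_pos hj', Finset.sum_sub_distrib, Nat.add_sub_cancel]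
        have h2 : ∑ l ∈ Finset.univ \ W, idm l j • (sy l (k + 1) : QE I) = sy j (k + 1) := by
          rw [Finset.sum_eq_single j]
          · unfold idm
            rw [if_pos rfl, one_smul]
          · intro l _ hl
            unfold idm
            rw [if_neg hl, zero_smul]
          · intro h
            exact absurd hj' h
        rw [h2, sub_eq_add_neg]
  have hd : ∀ b ∈ U, Disjoint b.1 (Finset.univ \ W) := by
    intro b hb
    rw [Finset.disjoint_left]
    intro x hx hx'
    exact (Finset.mem_sdiff.1 hx').2 (hU b hb hx)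
  rw [hfull, AH9_evU a hs k hk P _ (Finset.univ \ W)
    (fun i hi => hP i (Finset.mem_sdiff.1 hi).2) U hd B, hbox]
  have hBγ : B.γ = γ := by rw [hB]
  rw [hBγ]
  refine Finset.sum_congr rfl fun n hn => ?_
  unfold stw
  congr 1
  congr 1
  have hn0 : ∀ i ∈ W, n i = 0 := by
    intro i hi
    unfold AH9_box at hn
    rw [Fintype.mem_piFinset] at hn
    have h := hn i
    rw [if_neg (fun h => (Finset.mem_sdiff.1 h).2 hi), Finset.mem_singleton] at h
    exact h
  rw [hB]
  refine Trm.ext ?_ ?_ ?_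
  · funext i
    show γ i - (if i ∈ Finset.univ \ W then (k : ℚ) * n i else 0) = γ i - k * n i
    by_cases hi : i ∈ W
    · rw [if_neg (fun h => (Finset.mem_sdiff.1 h).2 hi), hn0 i hi, Int.cast_zero, mul_zero]
    · rw [if_pos (Finset.mem_sdiff.2 ⟨Finset.mem_univ i, hi⟩)]
  · show (∑ i, ((-(2 * P i - p i)) • sy i k + P i • sy i (k - 1))) -
        ∑ i ∈ Finset.univ \ W, (n i : ℚ) • cE a i k =
      (∑ i, ((-(2 * P i - p i)) • sy i k + P i • sy i (k - 1))) - ∑ i, (n i : ℚ) • cE a i k
    congr 1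
    apply Finset.sum_subset (Finset.subset_univ _)
    intro i _ hi
    have hiW : i ∈ W := by
      by_contra h
      exact hi (Finset.mem_sdiff.2 ⟨Finset.mem_univ i, h⟩)
    rw [hn0 i hiW, Int.cast_zero, zero_smul]
  · funext j
    show (if j ∈ Finset.univ \ W then sclq (P j) (n j) • ((2 : ℚ) • sy j k - sy j (k - 1) +
        -∑ l ∈ Finset.univ \ W, H l j • sy l k) + (n j : ℚ) • cE a j k else 0) =
      if j ∈ W then 0 else sclq (P j) (n j) • ((2 : ℚ) • sy j k - sy j (k - 1) -
        ∑ l ∈ Finset.univ \ W, H l j • sy l k) + (n j : ℚ) • cE a j k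
    by_cases hj : j ∈ W
    · rw [if_pos hj, if_neg (fun h => (Finset.mem_sdiff.1 h).2 hj)]
    · rw [if_neg hj, if_pos (Finset.mem_sdiff.2 ⟨Finset.mem_univ j, hj⟩), ← sub_eq_add_neg]

theorem regT_E (a : I → I → ℕ) (hs : ∀ i j, a i j = a j i) (k : ℕ) (γ P p : I → ℚ)
    (H : I → I → ℚ) (W : Finset I) (hP0 : ∀ i ∈ W, P i = 0) (hp0 : ∀ i ∈ W, p i = 0)
    (n : I → ℤ) (x : I) (hx : x ∈ W) (l : ℕ) :
    (regT a k γ P p H W n).E (x, l) = if l = k then -cv a (fun i => (n i : ℚ)) x else 0 := by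
  show (∑ i, ((-(2 * P i - p i)) • sy i k + P i • sy i (k - 1)) -
    ∑ i, (n i : ℚ) • cE a i k : QE I) (x, l) = _
  rw [Finsupp.sub_apply, Finsupp.finsetSum_apply, Finsupp.finsetSum_apply]
  have h1 : ∑ i, ((-(2 * P i - p i)) • sy i k + P i • sy i (k - 1) : QE I) (x, l) = 0 := by
    apply Finset.sum_eq_zero
    intro i _
    rw [Finsupp.add_apply, Finsupp.smul_apply, Finsupp.smul_apply]
    by_cases hi : i = x
    · subst hi
      rw [hP0 i hx, hp0 i hx]
      simp
    · have e1 : ∀ l', (sy i l' : QE I) (x, l) = 0 := by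
        intro l'
        apply Finsupp.single_eq_of_ne
        intro h
        exact hi (Prod.ext_iff.1 h).1.symm
      rw [e1, e1, smul_zero, smul_zero, add_zero]
  rw [h1]
  by_cases hl : l = k
  · rw [if_pos hl]
    have h2 : ∑ i, ((n i : ℚ) • cE a i k : QE I) (x, l) = cv a (fun i => (n i : ℚ)) x := by
      unfold cv
      refine Finset.sum_congr rfl fun i _ => ?_
      rw [Finsupp.smul_apply, cE_apply, if_pos hl, smul_eq_mul, mul_comm]
      congr 1
      unfold cart
      by_cases h : i = x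
      · subst h
        rfl
      · rw [if_neg h, if_neg (fun h' => h h'.symm), hs i x]
    rw [h2, zero_sub]
  · rw [if_neg hl]
    have h2 : ∑ i, ((n i : ℚ) • cE a i k : QE I) (x, l) = 0 := by
      apply Finset.sum_eq_zero
      intro i _
      rw [Finsupp.smul_apply, cE_apply, if_neg hl, smul_zero]
    rw [h2, sub_zero]

theorem regT_RReg (a : I → I → ℕ) (hs : ∀ i j, a i j = a j i) (k : ℕ) (γ P p : I → ℚ)
    (H : I → I → ℚ) (W : Finset I) (hP0 : ∀ i ∈ W, P i = 0) (hp0 : ∀ i ∈ W, p i = 0)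
    (hH : ∀ l i, l ∈ W ∨ i ∈ W → H l i = 0) (n : I → ℤ) (hn : n ∈ nbox W k γ) :
    RReg W (regT a k γ P p H W n) := by
  have hn0 : ∀ i ∈ W, n i = 0 := by
    intro i hi
    unfold nbox at hn
    rw [Fintype.mem_piFinset] at hn
    have h := hn i
    rw [if_pos hi, Finset.mem_singleton] at h
    exact h
  have hnn : ∀ i, 0 ≤ n i := by
    intro i
    by_cases hi : i ∈ W
    · rw [hn0 i hi]
    · unfold nbox at hn
      rw [Fintype.mem_piFinset] at hn
      have h := hn i
      rw [if_neg hi, Finset.mem_Icc] at h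
      exact h.1
  have hcv : ∀ x ∈ W, -cv a (fun i => (n i : ℚ)) x = ∑ j, (a x j : ℚ) * n j := by
    intro x hx
    unfold cv
    rw [← Finset.sum_neg_distrib]
    refine Finset.sum_congr rfl fun j _ => ?_
    by_cases hj : x = j
    · subst hj
      simp [hn0 x hx]
    · unfold cart
      rw [if_neg hj]
      push_cast
      ring
  constructor
  · intro x hx l _
    rw [regT_E a hs k γ P p H W hP0 hp0 n x hx l]
    by_cases hl : l = k
    · rw [if_pos hl, hcv x hx]
      refine ⟨∑ j, a x j * (n j).toNat, ?_⟩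
      push_cast
      refine Finset.sum_congr rfl fun j _ => ?_
      congr 1
      have := Int.toNat_of_nonneg (hnn j)
      exact_mod_cast this.symm
    · rw [if_neg hl]
      exact ⟨0, by simp⟩
  · intro x hx j hj l hl hne
    have hxj : x ≠ j := fun h => hj (h ▸ hx)
    have h1 : (regT a k γ P p H W n).Λ j (x, l) = (n j : ℚ) * cE a j k (x, l) := by
      show (if j ∈ W then 0 else sclq (P j) (n j) • ((2 : ℚ) • sy j k - sy j (k - 1) -
        ∑ l ∈ Finset.univ \ W, H l j • sy l k) + (n j : ℚ) • cE a j k : QE I) (x, l) = _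
      rw [if_neg hj, Finsupp.add_apply, Finsupp.smul_apply, Finsupp.smul_apply,
        Finsupp.sub_apply, Finsupp.sub_apply, Finsupp.smul_apply, Finsupp.finsetSum_apply]
      have e1 : ∀ l', (sy j l' : QE I) (x, l) = 0 := by
        intro l'
        apply Finsupp.single_eq_of_ne
        intro h
        exact hxj (Prod.ext_iff.1 h).1
      have e2 : ∑ i ∈ Finset.univ \ W, (H i j • sy i k : QE I) (x, l) = 0 := by
        apply Finset.sum_eq_zero
        intro i hi
        have hix : i ≠ x := by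
          intro h
          rw [h] at hi
          exact (Finset.mem_sdiff.1 hi).2 hx
        rw [Finsupp.smul_apply, Finsupp.single_eq_of_ne, smul_zero]
        intro h
        exact hix (Prod.ext_iff.1 h).1.symm
      rw [e1, e1, e2]
      simp
    rw [h1, cE_apply] at hne
    by_cases hlk : l = k
    · rw [if_pos hlk] at hne
      rw [regT_E a hs k γ P p H W hP0 hp0 n x hx l, if_pos hlk, hcv x hx]
      have h2 : n j ≠ 0 := by
        intro h
        rw [h] at hne
        simp at hne
      have h3 : a j x ≠ 0 := by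
        intro h
        apply hne
        unfold cart
        rw [if_neg (fun h' => hxj h'.symm), h]
        simp
      have h4 : (1 : ℚ) ≤ (a x j : ℚ) * n j := by
        have e1 : (1 : ℤ) ≤ n j := by
          have := hnn j
          omega
        have e2 : 1 ≤ a x j := by
          rw [hs x j]
          omega
        have e3 : (1 : ℚ) ≤ n j := by exact_mod_cast e1
        have e4 : (1 : ℚ) ≤ a x j := by exact_mod_cast e2
        nlinarith
      refine le_trans h4 ?_
      exact Finset.single_le_sum (f := fun j => (a x j : ℚ) * n j)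
        (fun i _ => mul_nonneg (by positivity) (by exact_mod_cast hnn i)) (Finset.mem_univ j)
    · rw [if_neg hlk, mul_zero] at hne
      exact absurd rfl hne

end

end Pool.Agent.H46.AH

end

section

/-!
KAC ADE: the bridge between the term calculus (`TV`) and the ring `LL I`.
-/

set_option autoImplicit false

namespace Pool.Agent.H46.KA

open scoped BigOperators
open MvPowerSeries Pool.Agent.H27.KAC

section

variable {I : Type} [Fintype I] [DecidableEq I]

theorem Bridge_zero {w : MvPowerSeries I ℚ} (hw : constantCoeff w = 0) (β : I →₀ ℕ) (n : ℕ)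
    (hn : ∑ i, β i < n) (R : MvPowerSeries I ℚ) : coeff β (w ^ n * R) = 0 := by
  classical
  have hdeg : Finsupp.degree β = ∑ i, β i := by
    rw [Finsupp.degree_eq_sum]
  rw [coeff_mul]
  refine Finset.sum_eq_zero (fun p hp => ?_)
  have h1 : coeff p.1 (w ^ n) = 0 := by
    apply MvPowerSeries.coeff_eq_zero_of_constantCoeff_nilpotent (m := 1)
    · simpa using hw
    · have h2 : p.1 + p.2 = β := Finset.HasAntidiagonal.mem_antidiagonal.mp hp
      have h3 : p.1.degree ≤ β.degree := by
        rw [← h2, map_add]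
        exact Nat.le_add_right _ _
      omega
  rw [h1, zero_mul]

theorem rpw_eq (F : MvPowerSeries I ℚ) (hF : constantCoeff F = 1) (α : ℚ) :
    rpw F α = Pool.Agent.H27.KAC.rpw F α := by
  have hw : constantCoeff (F - 1) = 0 := by rw [map_sub, hF, map_one, sub_self]
  ext β
  obtain ⟨R, hR⟩ := AD1_trunc (F - 1) hw α (∑ i, β i)
  rw [add_sub_cancel] at hR
  rw [hR, map_add, Bridge_zero hw β _ (Nat.lt_succ_self _) R, add_zero, map_sum]
  change ∑ n ∈ Finset.range (∑ i, β i + 1), Ring.choose α n * coeff β ((F - 1) ^ n) = _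
  refine Finset.sum_congr rfl (fun n _ => ?_)
  rw [coeff_C_mul]

theorem Qp_eq (a : I → I → ℕ) (i : I) (k : ℕ) (α : ℚ) :
    Qp a i k α = tm (fun j => tdg (Finsupp.single (i, k) α) j) *
      Tht a (mU a (Finsupp.single (i, k) α)) := by
  rw [Qp, mU_single, rpw_eq _ (uS_const a i k)]
  congr 2
  funext j
  rw [tdg_single]
  by_cases h : j = i
  · subst h
    rw [if_pos rfl, if_pos rfl, mul_comm]
  · rw [if_neg h, if_neg (fun h' => h h'.symm)]

theorem mon_eq (a : I → I → ℕ) (E : QE I) :
    mon a E = tm (fun i => tdg E i) * Tht a (mU a E) := by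
  classical
  induction E using Finsupp.induction_linear with
  | zero =>
    rw [mon_zero, mU_zero, Tht_one, mul_one]
    have : (fun i => tdg (0 : QE I) i) = (0 : I → ℚ) := by
      funext i
      rw [tdg_zero]
      rfl
    rw [this, tm_zero]
  | add E F hE hF =>
    rw [mon_add, hE, hF, mU_add, Tht_mul]
    have : (fun i => tdg (E + F) i) = (fun i => tdg E i) + (fun i => tdg F i) := by
      funext i
      rw [tdg_add]
      rfl
    rw [this, tm_add]
    ring
  | single ik α =>
    obtain ⟨i, k⟩ := ik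
    rw [mon_single, Qp_eq]

/-- the column `∑ c(i,k) D_{i,k}`. -/
noncomputable def cf (a : I → I → ℕ) (c : QE I) : Fm I :=
  fun l => ∑ ik ∈ c.support, qC (c ik) * Df a ik.1 ik.2 l

theorem cf_eq (a : I → I → ℕ) (c : QE I) (l : I) : cf a c l = Tht a (dl a c l) := by
  rw [cf, dl, ← ThtH_apply, map_sum]
  refine Finset.sum_congr rfl (fun ik _ => ?_)
  rw [map_mul, ThtH_apply, ThtH_apply, Tht_C]
  rfl

theorem cM_cf (a : I → I → ℕ) (Λ : I → QE I) :
    (cM (fun i => cf a (Λ i))).det = Tht a (colMat (fun i => dl a (Λ i))).det := by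
  rw [← ThtH_apply, RingHom.map_det]
  congr 1
  refine Matrix.ext (fun l i => ?_)
  rw [RingHom.mapMatrix_apply, Matrix.map_apply, ThtH_apply]
  exact cf_eq a (Λ i) l

/-- the value of a term as a constant term in `LL I`. -/
theorem TV_eq (a : I → I → ℕ) (T : Trm I) :
    TV a T = CTd T.γ (mon a T.E) (fun i => cf a (T.Λ i)) := by
  classical
  have h0 : CTd T.γ (mon a T.E) (fun i => cf a (T.Λ i)) =
      CT T.γ (tm (fun i => tdg T.E i) *
        Tht a (mU a T.E * (colMat (fun i => dl a (T.Λ i))).det)) := by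
    rw [CTd, cM_cf, mon_eq, Tht_mul, mul_assoc]
  rw [h0]
  by_cases hn : ∀ i, ((⌊T.γ i⌋₊ : ℕ) : ℚ) = T.γ i
  · have hγ : T.γ = fun i => ((gN T.γ) i : ℚ) := by
      funext i
      rw [← hn i]
      simp [gN]
    have hcq : ∀ i, cq a T.γ i = ((cw a (gN T.γ) i : ℤ) : ℚ) := by
      intro i
      rw [cq, cw]
      push_cast
      refine Finset.sum_congr rfl (fun j _ => ?_)
      rw [show T.γ j = ((gN T.γ) j : ℚ) from congrFun hγ j]
    by_cases hd : ∀ i, tdg T.E i = cq a T.γ i
    · rw [TV, if_pos ⟨hn, hd⟩, TV0]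
      rw [show (fun i => tdg T.E i) = fun i => ((cw a (gN T.γ) i : ℤ) : ℚ) from
        funext (fun i => (hd i).trans (hcq i))]
      conv_rhs => rw [hγ]
      have h1 := CT_Tht a (gN T.γ) (mU a T.E * (colMat (fun i => dl a (T.Λ i))).det)
      have h2 : gN (fun i => ((gN T.γ) i : ℚ)) = gN T.γ := by rw [← hγ]
      rw [h2]
      exact h1.symm
    · rw [TV, if_neg (fun h => hd h.2)]
      obtain ⟨i, hi⟩ := not_forall.mp hd
      have h1 := CT_Tht_ne a (gN T.γ) (fun i => tdg T.E i) ⟨i, fun h => hi (h.trans (hcq i).symm)⟩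
        (mU a T.E * (colMat (fun i => dl a (T.Λ i))).det)
      conv_rhs => rw [hγ]
      exact h1.symm
  · rw [TV, if_neg (fun h => hn h.1)]
    symm
    apply CT_of_not
    rintro ⟨n, hn'⟩
    apply hn
    intro i
    rw [← hn' i, Nat.floor_natCast]

end

end Pool.Agent.H46.KA

end

section

/-!
KAC, affine case: the Tits form, and the exponent `hq` as a sum of values of the Tits form.
-/

set_option autoImplicit false

namespace Pool.H88.KA

open scoped BigOperators
open Pool.Agent.H27.KAC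

variable {I E : Type} [Fintype I] [DecidableEq I] [Fintype E]

/-- `δ` is a primitive isotropic vector with connected support `S`. -/
structure Aff (Q : Quiv I E) (δ : I → ℕ) (S : Finset I) : Prop where
  ne : S.Nonempty
  supp : ∀ i, i ∈ S ↔ δ i ≠ 0
  prim : ∀ k : ℕ, (∀ i, k ∣ δ i) → k = 1
  conn : ∀ U : Finset I, U ⊆ S → U.Nonempty → U ≠ S → ∃ i ∈ U, ∃ j ∈ S, j ∉ U ∧ 0 < adj Q i j
  null : ∀ i ∈ S, ∑ j, (adj Q i j : ℤ) * (δ j : ℤ) = 2 * (δ i : ℤ)

/-- the Tits form. -/
def tits (Q : Quiv I E) (v : I → ℕ) : ℤ :=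
  ∑ i, (v i : ℤ) * (v i : ℤ) - ∑ e : E, (v (Q.tgt e) : ℤ) * (v (Q.src e) : ℤ)

theorem two_tits (Q : Quiv I E) (v : I → ℕ) :
    2 * tits Q v = 2 * ∑ i, (v i : ℤ) * (v i : ℤ) -
      ∑ i, ∑ j, (adj Q i j : ℤ) * ((v i : ℤ) * (v j : ℤ)) := by
  rw [sum_adj Q (fun i j => (v i : ℤ) * (v j : ℤ)) (fun i j => mul_comm _ _)]
  unfold tits
  ring

theorem Aff.pos {Q : Quiv I E} {δ : I → ℕ} {S : Finset I} (h : Aff Q δ S) {i : I} (hi : i ∈ S) :
    (0 : ℚ) < δ i := by
  have := (h.supp i).1 hi
  have h1 : 0 < δ i := Nat.pos_of_ne_zero this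
  exact_mod_cast h1

theorem Aff.zero {Q : Quiv I E} {δ : I → ℕ} {S : Finset I} (h : Aff Q δ S) {i : I} (hi : i ∉ S) :
    δ i = 0 := by
  by_contra hc
  exact hi ((h.supp i).2 hc)

theorem Aff.nullS {Q : Quiv I E} {δ : I → ℕ} {S : Finset I} (h : Aff Q δ S) {i : I} (hi : i ∈ S) :
    ∑ j ∈ S, (adj Q i j : ℚ) * (δ j : ℚ) = 2 * (δ i : ℚ) := by
  have h1 := h.null i hi
  have h2 : ∑ j, (adj Q i j : ℚ) * (δ j : ℚ) = 2 * (δ i : ℚ) := by exact_mod_cast h1
  rw [← h2]
  apply Finset.sum_subset (Finset.subset_univ S)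
  intro j _ hj
  rw [h.zero hj]
  simp

theorem Aff.four_tits {Q : Quiv I E} {δ : I → ℕ} {S : Finset I} (h : Aff Q δ S) (v : I → ℕ)
    (hv : ∀ i, i ∉ S → v i = 0) :
    4 * (tits Q v : ℚ) = ∑ i ∈ S, ∑ j ∈ S, (adj Q i j : ℚ) * ((δ i : ℚ) * (δ j : ℚ) *
      ((v i : ℚ) / δ i - (v j : ℚ) / δ j) ^ 2) := by
  have h2 : (2 : ℚ) * tits Q v = 2 * ∑ i, (v i : ℚ) * (v i : ℚ) -
      ∑ i, ∑ j, (adj Q i j : ℚ) * ((v i : ℚ) * (v j : ℚ)) := by
    exact_mod_cast two_tits Q v
  have hA : ∑ i, (v i : ℚ) * (v i : ℚ) = ∑ i ∈ S, (v i : ℚ) * (v i : ℚ) := by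
    symm
    apply Finset.sum_subset (Finset.subset_univ S)
    intro i _ hi
    rw [hv i hi]
    simp
  have hB : ∑ i, ∑ j, (adj Q i j : ℚ) * ((v i : ℚ) * (v j : ℚ)) =
      ∑ i ∈ S, ∑ j ∈ S, (adj Q i j : ℚ) * ((v i : ℚ) * (v j : ℚ)) := by
    symm
    rw [← Finset.sum_subset (Finset.subset_univ S)]
    · refine Finset.sum_congr rfl fun i _ => ?_
      apply Finset.sum_subset (Finset.subset_univ S)
      intro j _ hj
      rw [hv j hj]
      simp
    · intro i _ hi
      refine Finset.sum_eq_zero fun j _ => ?_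
      rw [hv i hi]
      simp
  rw [hA, hB] at h2
  have hterm : ∀ i ∈ S, ∀ j ∈ S, (adj Q i j : ℚ) * ((δ i : ℚ) * (δ j : ℚ) *
      ((v i : ℚ) / δ i - (v j : ℚ) / δ j) ^ 2) =
      (v i : ℚ) * (v i : ℚ) / δ i * ((adj Q i j : ℚ) * δ j) +
      (v j : ℚ) * (v j : ℚ) / δ j * ((adj Q j i : ℚ) * δ i) -
      2 * ((adj Q i j : ℚ) * ((v i : ℚ) * (v j : ℚ))) := by
    intro i hi j hj
    have h3 := h.pos hi
    have h4 := h.pos hj
    rw [adj_symm Q j i]
    field_simp
    ring
  rw [Finset.sum_congr rfl fun i hi => Finset.sum_congr rfl fun j hj => hterm i hi j hj]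
  simp only [Finset.sum_sub_distrib, Finset.sum_add_distrib, ← Finset.mul_sum]
  have h5 : ∑ i ∈ S, (v i : ℚ) * (v i : ℚ) / δ i * ∑ j ∈ S, (adj Q i j : ℚ) * δ j =
      2 * ∑ i ∈ S, (v i : ℚ) * (v i : ℚ) := by
    rw [Finset.mul_sum]
    refine Finset.sum_congr rfl fun i hi => ?_
    rw [h.nullS hi]
    have h3 := h.pos hi
    field_simp
  have h6 : ∑ i ∈ S, ∑ j ∈ S, (v j : ℚ) * (v j : ℚ) / δ j * ((adj Q j i : ℚ) * δ i) =
      2 * ∑ i ∈ S, (v i : ℚ) * (v i : ℚ) := by
    rw [Finset.sum_comm, ← h5]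
    refine Finset.sum_congr rfl fun i _ => ?_
    rw [Finset.mul_sum]
  rw [h5, h6]
  linarith

theorem Aff.tits_nonneg {Q : Quiv I E} {δ : I → ℕ} {S : Finset I} (h : Aff Q δ S) (v : I → ℕ)
    (hv : ∀ i, i ∉ S → v i = 0) : 0 ≤ tits Q v := by
  have h1 := h.four_tits v hv
  have h2 : (0 : ℚ) ≤ 4 * (tits Q v : ℚ) := by
    rw [h1]
    exact Finset.sum_nonneg fun i _ => Finset.sum_nonneg fun j _ => by positivity
  have h3 : (0 : ℚ) ≤ (tits Q v : ℚ) := by linarith
  exact_mod_cast h3

theorem Aff.tits_mul {Q : Quiv I E} {δ : I → ℕ} {S : Finset I} (h : Aff Q δ S) (v : I → ℕ)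
    (c : ℕ) (hv : ∀ i, v i = c * δ i) : tits Q v = 0 := by
  have h1 := h.four_tits v (fun i hi => by rw [hv i, h.zero hi, mul_zero])
  have h2 : ∀ i ∈ S, ∀ j ∈ S, (adj Q i j : ℚ) * ((δ i : ℚ) * (δ j : ℚ) *
      ((v i : ℚ) / δ i - (v j : ℚ) / δ j) ^ 2) = 0 := by
    intro i hi j hj
    have h3 := h.pos hi
    have h4 := h.pos hj
    have h5 : (v i : ℚ) / δ i - (v j : ℚ) / δ j = 0 := by
      rw [hv i, hv j]
      push_cast
      field_simp
      ring
    rw [h5]
    ring
  rw [Finset.sum_congr rfl fun i hi => Finset.sum_congr rfl fun j hj => h2 i hi j hj] at h1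
  simp only [Finset.sum_const_zero] at h1
  have h3 : (tits Q v : ℚ) = 0 := by linarith
  exact_mod_cast h3

theorem Aff.of_tits {Q : Quiv I E} {δ : I → ℕ} {S : Finset I} (h : Aff Q δ S) (v : I → ℕ)
    (hv : ∀ i, i ∉ S → v i = 0) (h0 : tits Q v = 0) : ∃ c : ℕ, ∀ i, v i = c * δ i := by
  have h1 := h.four_tits v hv
  rw [h0] at h1
  simp only [Int.cast_zero, mul_zero] at h1
  have hnn : ∀ i ∈ S, ∀ j ∈ S, 0 ≤ (adj Q i j : ℚ) * ((δ i : ℚ) * (δ j : ℚ) *
      ((v i : ℚ) / δ i - (v j : ℚ) / δ j) ^ 2) := fun i _ j _ => by positivity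
  have h2 := (Finset.sum_eq_zero_iff_of_nonneg
    (fun i hi => Finset.sum_nonneg (hnn i hi))).1 h1.symm
  have h3 : ∀ i ∈ S, ∀ j ∈ S, 0 < adj Q i j → (v i : ℚ) / δ i = (v j : ℚ) / δ j := by
    intro i hi j hj ha
    have h4 := (Finset.sum_eq_zero_iff_of_nonneg (hnn i hi)).1 (h2 i hi) j hj
    have ha' : (0 : ℚ) < adj Q i j := by exact_mod_cast ha
    have h5 := h.pos hi
    have h6 := h.pos hj
    have h7 : ((v i : ℚ) / δ i - (v j : ℚ) / δ j) ^ 2 = 0 := by
      rcases mul_eq_zero.1 h4 with h8 | h8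
      · exact absurd h8 ha'.ne'
      · rcases mul_eq_zero.1 h8 with h9 | h9
        · exact absurd h9 (mul_pos h5 h6).ne'
        · exact h9
    have h8 := pow_eq_zero_iff (two_ne_zero) |>.1 h7
    linarith
  obtain ⟨i0, hi0⟩ := h.ne
  obtain ⟨x, hx⟩ : ∃ x : ℚ, x = (v i0 : ℚ) / δ i0 := ⟨_, rfl⟩
  have hall : ∀ i ∈ S, (v i : ℚ) / δ i = x := by
    by_contra hc
    push Not at hc
    obtain ⟨i1, hi1, hne⟩ := hc
    obtain ⟨i, hi, j, hj, hjU, ha⟩ := h.conn (S.filter (fun i => (v i : ℚ) / δ i = x))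
      (Finset.filter_subset _ _) ⟨i0, Finset.mem_filter.2 ⟨hi0, hx.symm⟩⟩ (fun he => by
        rw [← he] at hi1
        exact hne (Finset.mem_filter.1 hi1).2)
    rw [Finset.mem_filter] at hi
    apply hjU
    rw [Finset.mem_filter]
    exact ⟨hj, by rw [← h3 i hi.1 j hj ha]; exact hi.2⟩
  have hvx : ∀ i, (v i : ℚ) = x * δ i := by
    intro i
    by_cases hi : i ∈ S
    · have h5 := h.pos hi
      rw [← hall i hi]
      field_simp
    · rw [hv i hi, h.zero hi]
      simp
  have hx0 : 0 ≤ x := by rw [hx]; positivity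
  have hden : x.den = 1 := by
    apply h.prim
    intro i
    have h5 : (v i : ℚ) * x.den = x.num * δ i := by
      rw [hvx i]
      have h6 := Rat.mul_den_eq_num x
      calc x * δ i * x.den = (x * x.den) * δ i := by ring
        _ = _ := by rw [h6]
    have h6 : (v i : ℤ) * (x.den : ℤ) = x.num * (δ i : ℤ) := by exact_mod_cast h5
    have h7 : (x.den : ℤ) ∣ x.num * (δ i : ℤ) := ⟨v i, by rw [← h6]; ring⟩
    have h8 : IsCoprime (x.den : ℤ) x.num := by
      rw [Int.isCoprime_iff_gcd_eq_one]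
      have h9 := x.reduced
      rw [Int.gcd_comm]
      unfold Int.gcd
      simpa using h9
    have h9 := h8.dvd_of_dvd_mul_left h7
    exact_mod_cast h9
  refine ⟨x.num.toNat, fun i => ?_⟩
  have h5 : (x.num : ℚ) = x := by
    have h6 := Rat.mul_den_eq_num x
    rw [hden] at h6
    rw [← h6]
    simp
  have h6 : ((x.num.toNat : ℕ) : ℤ) = x.num := Int.toNat_of_nonneg (Rat.num_nonneg.2 hx0)
  have h7 : (v i : ℚ) = ((x.num.toNat : ℕ) : ℚ) * δ i := by
    rw [hvx i]
    have h8 : ((x.num.toNat : ℕ) : ℚ) = (x.num : ℚ) := by exact_mod_cast h6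
    rw [h8, h5]
  exact_mod_cast h7

/-! ### the exponent `hq` -/

theorem mlam_eq (B : ℕ) : ∀ (μ ν : ℕ →₀ ℕ), lam μ B = 0 →
    mlam μ ν = ∑ t ∈ Finset.range B, lam μ t * lam ν t := by
  induction B with
  | zero =>
    intro μ ν h
    have h0 : μ = 0 := by
      by_contra hc
      have := lam_zero_pos hc
      omega
    rw [h0, exp_mlam_zero_left]
    simp
  | succ B ih =>
    intro μ ν h
    rw [mlam_rec, Finset.sum_range_succ', ih (shf μ) (shf ν) (by rw [lam_shf]; exact h)]
    simp only [lam_shf]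
    ring

/-- the vectors `v_t`: number of parts of size larger than `t`. -/
noncomputable def vv (m : Prt I →₀ ℕ) (t : ℕ) (i : I) : ℕ := lam (mcol m i) t

omit [Fintype I] [DecidableEq I] in
theorem vv_succ (m : Prt I →₀ ℕ) (t : ℕ) (i : I) : vv m t i = m (i, t) + vv m (t + 1) i := by
  unfold vv
  rw [lam_succ, exp_mcol_apply]

theorem vv_bound (m : Prt I →₀ ℕ) : ∃ B : ℕ, (∀ t i, B ≤ t → vv m t i = 0) ∧
    ∀ t i, B ≤ t → m (i, t) = 0 := by
  have h1 : ∀ i : I, ∃ B : ℕ, ∀ l, B ≤ l → mcol m i l = 0 := by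
    intro i
    obtain ⟨M, hM⟩ := Finset.exists_nat_subset_range (mcol m i).support
    refine ⟨M, fun l hl => ?_⟩
    by_contra h
    have := Finset.mem_range.1 (hM (Finsupp.mem_support_iff.2 h))
    omega
  choose B hB using h1
  obtain ⟨M, hM⟩ : ∃ M, ∀ i, B i ≤ M :=
    ⟨∑ i, B i, fun i => Finset.single_le_sum (f := B) (fun _ _ => Nat.zero_le _)
      (Finset.mem_univ i)⟩
  refine ⟨M, fun t i ht => ?_, fun t i ht => ?_⟩
  · unfold vv lam
    apply Finset.sum_eq_zero
    intro l hl
    rw [Finset.mem_filter] at hl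
    have := hM i
    exact hB i l (by omega)
  · have := hM i
    rw [← exp_mcol_apply]
    exact hB i t (by omega)

theorem hq_eq (Q : Quiv I E) (m : Prt I →₀ ℕ) (B : ℕ) (hB : ∀ i, vv m B i = 0) :
    hq (adj Q) m = ∑ t ∈ Finset.range B, tits Q (vv m t) := by
  have h1 := neg_hq Q m
  have h2 : ((∑ e : E, mlam (mcol m (Q.tgt e)) (mcol m (Q.src e)) : ℕ) : ℤ) =
      ∑ t ∈ Finset.range B, ∑ e : E, (vv m t (Q.tgt e) : ℤ) * (vv m t (Q.src e) : ℤ) := by
    rw [Finset.sum_comm]
    push_cast
    refine Finset.sum_congr rfl fun e _ => ?_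
    rw [mlam_eq B _ _ (hB _)]
    push_cast
    rfl
  have h3 : ((∑ i, mlam (mcol m i) (mcol m i) : ℕ) : ℤ) =
      ∑ t ∈ Finset.range B, ∑ i, (vv m t i : ℤ) * (vv m t i : ℤ) := by
    rw [Finset.sum_comm]
    push_cast
    refine Finset.sum_congr rfl fun i _ => ?_
    rw [mlam_eq B _ _ (hB _)]
    push_cast
    rfl
  rw [h2, h3] at h1
  unfold tits
  rw [Finset.sum_sub_distrib]
  linarith

theorem mwt_eq (m : Prt I →₀ ℕ) (B : ℕ) (i : I) (hB : vv m B i = 0) :
    mwt m i = ∑ t ∈ Finset.range B, vv m t i := by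
  rw [← psize_mcol]
  exact (sum_lam _ hB).symm

end Pool.H88.KA

end

section

/-!
KAC, affine case: the first two coefficients of the sum of Hua.
-/

set_option autoImplicit false

namespace Pool.H88.KA

open scoped BigOperators
open Pool.Agent.H27.KAC

theorem qpoch_As (x : ℕ) : AsE (fun l => (qpoch (l : ℚ) x)⁻¹) 1 (if x = 0 then 0 else 1) := by
  have h1 : AsE (fun l : ℕ => ∏ j ∈ Finset.range x, (1 - ((l : ℚ)⁻¹) ^ (j + 1))⁻¹) 1
      (∑ j ∈ Finset.range x, if j = 0 then 1 else 0) :=
    AsE.prod_one (Finset.range x) (f := fun j l => (1 - ((l : ℚ)⁻¹) ^ (j + 1))⁻¹)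
      (fun j _ => AsE.geo j)
  refine (h1.congr fun l _ => ?_).val rfl ?_
  · unfold qpoch
    rw [Finset.prod_inv_distrib]
  · rcases x with _ | x
    · simp
    · rw [Finset.sum_range_succ']
      simp

theorem cc_As {I : Type} [DecidableEq I] (A : I → I → ℕ) (m : Prt I →₀ ℕ) (h : 0 ≤ hq A m) :
    AsE (fun l => cc (l : ℚ) A m) (if hq A m = 0 then 1 else 0)
      (if hq A m = 0 then (m.support.card : ℚ) else if hq A m = 1 then 1 else 0) := by
  obtain ⟨n, hn⟩ := Int.eq_ofNat_of_zero_le h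
  have h1 : AsE (fun l : ℕ => ∏ a ∈ m.support, (qpoch (l : ℚ) (m a))⁻¹) 1
      (∑ a ∈ m.support, if m a = 0 then 0 else 1) :=
    AsE.prod_one m.support (f := fun a l => (qpoch (l : ℚ) (m a))⁻¹) (fun a _ => qpoch_As (m a))
  have h2 : (∑ a ∈ m.support, if m a = 0 then (0 : ℚ) else 1) = m.support.card := by
    rw [Finset.sum_congr rfl (g := fun _ => (1 : ℚ)) (fun a ha => by
      rw [if_neg (Finsupp.mem_support_iff.1 ha)])]
    simp
  rw [h2] at h1
  have h3 := (AsE.inv_pow n).mul h1
  refine (h3.congr fun l _ => ?_).val ?_ ?_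
  · unfold cc
    rw [hn, zpow_neg, zpow_natCast, ← _root_.inv_pow]
    rfl
  · rw [hn]
    rcases n with _ | n
    · simp
    · rw [if_neg (by omega), if_neg (by simp; omega)]
      ring
  · rw [hn]
    rcases n with _ | _ | n
    · simp
    · simp
    · rw [if_neg (by omega), if_neg (by omega), if_neg (by simp; omega), if_neg (by simp; omega)]
      ring

variable {I E : Type} [Fintype I] [DecidableEq I] [Fintype E]

/-- the sum of Hua at `q = l`. -/
noncomputable def PP (Q : Quiv I E) (α : I →₀ ℕ) (l : ℕ) : ℚ :=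
  ∑ m ∈ mps α, cc (l : ℚ) (adj Q) m

/-- multipartitions of `α` with `hq = 0`. -/
noncomputable def ZZ (Q : Quiv I E) (α : I →₀ ℕ) : Finset (Prt I →₀ ℕ) :=
  (mps α).filter (fun m => hq (adj Q) m = 0)

noncomputable def PP0 (Q : Quiv I E) (α : I →₀ ℕ) : ℚ := ((ZZ Q α).card : ℚ)

noncomputable def PP1 (Q : Quiv I E) (α : I →₀ ℕ) : ℚ :=
  ∑ m ∈ mps α, (if hq (adj Q) m = 0 then (m.support.card : ℚ) else
    if hq (adj Q) m = 1 then 1 else 0)

theorem mps_zero_off {α : I →₀ ℕ} {S : Finset I} (hα : ∀ i, i ∉ S → α i = 0)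
    {m : Prt I →₀ ℕ} (hm : m ∈ mps α) :
    (∀ t i, i ∉ S → vv m t i = 0) ∧ ∀ t i, i ∉ S → m (i, t) = 0 := by
  obtain ⟨B, hB, _⟩ := vv_bound m
  have h1 : ∀ t i, i ∉ S → vv m t i = 0 := by
    intro t i hi
    rcases lt_or_ge t B with h | h
    · have h2 := mwt_eq m B i (hB B i le_rfl)
      rw [mem_mps.1 hm, hα i hi] at h2
      exact (Finset.sum_eq_zero_iff.1 h2.symm) t (Finset.mem_range.2 h)
    · exact hB t i h
  refine ⟨h1, fun t i hi => ?_⟩
  have h2 := vv_succ m t i
  rw [h1 t i hi] at h2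
  omega

theorem Aff.hq_nonneg {Q : Quiv I E} {δ : I → ℕ} {S : Finset I} (h : Aff Q δ S) {α : I →₀ ℕ}
    (hα : ∀ i, i ∉ S → α i = 0) {m : Prt I →₀ ℕ} (hm : m ∈ mps α) : 0 ≤ hq (adj Q) m := by
  obtain ⟨B, hB, _⟩ := vv_bound m
  rw [hq_eq Q m B (fun i => hB B i le_rfl)]
  exact Finset.sum_nonneg fun t _ => h.tits_nonneg _ ((mps_zero_off hα hm).1 t)

theorem Aff.PP_As {Q : Quiv I E} {δ : I → ℕ} {S : Finset I} (h : Aff Q δ S) {α : I →₀ ℕ}
    (hα : ∀ i, i ∉ S → α i = 0) : AsE (PP Q α) (PP0 Q α) (PP1 Q α) := by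
  have h1 := AsE.sum (mps α) (f := fun m l => cc (l : ℚ) (adj Q) m)
    (a := fun m => if hq (adj Q) m = 0 then 1 else 0)
    (b := fun m => if hq (adj Q) m = 0 then (m.support.card : ℚ) else
      if hq (adj Q) m = 1 then 1 else 0) (fun m hm => cc_As (adj Q) m (h.hq_nonneg hα hm))
  refine h1.val ?_ rfl
  unfold PP0 ZZ
  rw [Finset.card_filter]
  push_cast
  rfl

/-- the vectors `v_t` of a multipartition with `hq = 0` are multiples of `δ`. -/
theorem Aff.of_hq {Q : Quiv I E} {δ : I → ℕ} {S : Finset I} (h : Aff Q δ S) {α : I →₀ ℕ}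
    (hα : ∀ i, i ∉ S → α i = 0) {m : Prt I →₀ ℕ} (hm : m ∈ mps α) (h0 : hq (adj Q) m = 0)
    (t : ℕ) : ∃ c : ℕ, ∀ i, vv m t i = c * δ i := by
  obtain ⟨B, hB, _⟩ := vv_bound m
  rw [hq_eq Q m B (fun i => hB B i le_rfl)] at h0
  rcases lt_or_ge t B with ht | ht
  · apply h.of_tits _ ((mps_zero_off hα hm).1 t)
    exact (Finset.sum_eq_zero_iff_of_nonneg
      (fun t _ => h.tits_nonneg _ ((mps_zero_off hα hm).1 t))).1 h0 t (Finset.mem_range.2 ht)
  · exact ⟨0, fun i => by rw [hB t i ht, zero_mul]⟩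

theorem Aff.of_hq' {Q : Quiv I E} {δ : I → ℕ} {S : Finset I} (h : Aff Q δ S) {α : I →₀ ℕ}
    (hα : ∀ i, i ∉ S → α i = 0) {m : Prt I →₀ ℕ} (hm : m ∈ mps α) (h0 : hq (adj Q) m = 0)
    (t : ℕ) : ∃ c : ℕ, ∀ i, m (i, t) = c * δ i := by
  obtain ⟨c, hc⟩ := h.of_hq hα hm h0 t
  obtain ⟨c', hc'⟩ := h.of_hq hα hm h0 (t + 1)
  refine ⟨c - c', fun i => ?_⟩
  have h1 := vv_succ m t i
  rw [hc i, hc' i] at h1
  rw [Nat.sub_mul]
  omega

/-- conversely. -/
theorem Aff.hq_of {Q : Quiv I E} {δ : I → ℕ} {S : Finset I} (h : Aff Q δ S)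
    {m : Prt I →₀ ℕ} (hm : ∀ t, ∃ c : ℕ, ∀ i, m (i, t) = c * δ i) : hq (adj Q) m = 0 := by
  obtain ⟨B, hB, _⟩ := vv_bound m
  have h1 : ∀ s t : ℕ, t + s = B → ∃ c : ℕ, ∀ i, vv m t i = c * δ i := by
    intro s
    induction s with
    | zero =>
      intro t ht
      exact ⟨0, fun i => by rw [hB t i (by omega), zero_mul]⟩
    | succ s ih =>
      intro t ht
      obtain ⟨c, hc⟩ := ih (t + 1) (by omega)
      obtain ⟨c', hc'⟩ := hm t
      exact ⟨c' + c, fun i => by rw [vv_succ, hc i, hc' i, add_mul]⟩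
  rw [hq_eq Q m B (fun i => hB B i le_rfl)]
  apply Finset.sum_eq_zero
  intro t ht
  rw [Finset.mem_range] at ht
  obtain ⟨c, hc⟩ := h1 (B - t) t (by omega)
  exact h.tits_mul _ c hc

/-- if `α` is not a multiple of `δ`, then no multipartition of `α` has `hq = 0`. -/
theorem Aff.PP0_zero {Q : Quiv I E} {δ : I → ℕ} {S : Finset I} (h : Aff Q δ S) {α : I →₀ ℕ}
    (hα : ∀ i, i ∉ S → α i = 0) (hn : ¬ ∃ c : ℕ, ∀ i, α i = c * δ i) : PP0 Q α = 0 := by
  unfold PP0
  have h1 : ZZ Q α = ∅ := by
    rw [Finset.eq_empty_iff_forall_notMem]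
    intro m hm
    unfold ZZ at hm
    rw [Finset.mem_filter] at hm
    apply hn
    obtain ⟨B, hB, _⟩ := vv_bound m
    choose c hc using fun t => h.of_hq hα hm.1 hm.2 t
    refine ⟨∑ t ∈ Finset.range B, c t, fun i => ?_⟩
    rw [← mem_mps.1 hm.1, mwt_eq m B i (hB B i le_rfl), Finset.sum_mul]
    exact Finset.sum_congr rfl fun t _ => hc t i
  rw [h1]
  simp

/-- the multiples of `δ`. -/
noncomputable def dl (δ : I → ℕ) (n : ℕ) : I →₀ ℕ :=
  Finsupp.equivFunOnFinite.symm (fun i => n * δ i)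

omit [DecidableEq I] in
theorem dl_apply (δ : I → ℕ) (n : ℕ) (i : I) : dl δ n i = n * δ i := rfl

theorem Aff.dl_off {Q : Quiv I E} {δ : I → ℕ} {S : Finset I} (h : Aff Q δ S) (n : ℕ) (i : I)
    (hi : i ∉ S) : dl δ n i = 0 := by
  rw [dl_apply, h.zero hi, mul_zero]

theorem Aff.hq_ne_one {Q : Quiv I E} {δ : I → ℕ} {S : Finset I} (h : Aff Q δ S) {n : ℕ}
    {m : Prt I →₀ ℕ} (hm : m ∈ mps (dl δ n)) : hq (adj Q) m ≠ 1 := by
  intro h1
  obtain ⟨B, hB, _⟩ := vv_bound m
  have hoff := (mps_zero_off (h.dl_off n) hm).1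
  rw [hq_eq Q m B (fun i => hB B i le_rfl)] at h1
  have hnn : ∀ t ∈ Finset.range B, 0 ≤ tits Q (vv m t) := fun t _ => h.tits_nonneg _ (hoff t)
  obtain ⟨t0, ht0, hpos⟩ : ∃ t0 ∈ Finset.range B, 0 < tits Q (vv m t0) := by
    by_contra hc
    push Not at hc
    have h2 := Finset.sum_nonpos hc
    omega
  have hrest : ∑ t ∈ (Finset.range B).erase t0, tits Q (vv m t) = 0 := by
    have h2 := Finset.add_sum_erase (Finset.range B) (fun t => tits Q (vv m t)) ht0
    have h3 : 0 ≤ ∑ t ∈ (Finset.range B).erase t0, tits Q (vv m t) :=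
      Finset.sum_nonneg fun t ht => hnn t (Finset.mem_of_mem_erase ht)
    omega
  have hz := (Finset.sum_eq_zero_iff_of_nonneg
    (fun t ht => hnn t (Finset.mem_of_mem_erase ht))).1 hrest
  have hex : ∀ t, ∃ c : ℕ, t ∈ (Finset.range B).erase t0 → ∀ i, vv m t i = c * δ i := by
    intro t
    by_cases ht : t ∈ (Finset.range B).erase t0
    · obtain ⟨c, hc⟩ := h.of_tits _ (hoff t) (hz t ht)
      exact ⟨c, fun _ => hc⟩
    · exact ⟨0, fun h => absurd h ht⟩
  choose c hc using hex
  have hsum : ∀ i, vv m t0 i + (∑ t ∈ (Finset.range B).erase t0, c t) * δ i = n * δ i := by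
    intro i
    have h2 := mwt_eq m B i (hB B i le_rfl)
    rw [mem_mps.1 hm, dl_apply, ← Finset.add_sum_erase (Finset.range B) _ ht0] at h2
    rw [h2, Finset.sum_mul]
    congr 1
    exact Finset.sum_congr rfl fun t ht => (hc t ht i).symm
  have h0 : tits Q (vv m t0) = 0 := by
    apply h.tits_mul _ (n - ∑ t ∈ (Finset.range B).erase t0, c t)
    intro i
    have := hsum i
    rw [Nat.sub_mul]
    omega
  omega

/-- `δ_i` parts of size `k + 1` at every vertex. -/
noncomputable def Dk (δ : I → ℕ) (k : ℕ) : Prt I →₀ ℕ :=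
  ∑ i, Finsupp.single (i, k) (δ i)

theorem Dk_apply (δ : I → ℕ) (k : ℕ) (i : I) (l : ℕ) :
    Dk δ k (i, l) = if l = k then δ i else 0 := by
  unfold Dk
  rw [Finsupp.finsetSum_apply]
  by_cases h : l = k
  · rw [if_pos h, h, Finset.sum_eq_single i]
    · rw [Finsupp.single_eq_same]
    · intro j _ hj
      rw [Finsupp.single_apply, if_neg (fun hc => hj (Prod.mk.inj hc).1)]
    · intro hc
      exact absurd (Finset.mem_univ i) hc
  · rw [if_neg h]
    apply Finset.sum_eq_zero
    intro j _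
    rw [Finsupp.single_apply, if_neg (fun hc => h (Prod.mk.inj hc).2.symm)]

theorem mwt_finset_sum {ι : Type} (s : Finset ι) (f : ι → Prt I →₀ ℕ) :
    mwt (∑ x ∈ s, f x) = ∑ x ∈ s, mwt (f x) := by
  classical
  induction s using Finset.induction_on with
  | empty =>
    simp [mwt]
  | insert a s ha ih => rw [Finset.sum_insert ha, Finset.sum_insert ha, exp_mwt_add, ih]

theorem mwt_Dk (δ : I → ℕ) (k : ℕ) : mwt (Dk δ k) = dl δ (k + 1) := by
  unfold Dk
  rw [mwt_finset_sum]
  ext i
  rw [Finsupp.finsetSum_apply, dl_apply, Finset.sum_eq_single i]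
  · rw [exp_mwt_single]
    simp [pwt]
    ring
  · intro j _ hj
    rw [exp_mwt_single]
    simp [pwt, hj]
  · intro hc
    exact absurd (Finset.mem_univ i) hc

theorem dl_add (δ : I → ℕ) (a b : ℕ) : dl δ (a + b) = dl δ a + dl δ b := by
  ext i
  rw [Finsupp.add_apply, dl_apply, dl_apply, dl_apply, add_mul]

theorem Aff.card_bij {Q : Quiv I E} {δ : I → ℕ} {S : Finset I} (h : Aff Q δ S) (n k : ℕ)
    {i : I} (hi : i ∈ S) :
    ((ZZ Q (dl δ (n + (k + 1)))).filter (fun m => m (i, k) ≠ 0)).card =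
      (ZZ Q (dl δ n)).card := by
  have hδi : δ i ≠ 0 := (h.supp i).1 hi
  have hle : ∀ m ∈ (ZZ Q (dl δ (n + (k + 1)))).filter (fun m => m (i, k) ≠ 0), Dk δ k ≤ m := by
    intro m hm
    rw [Finset.mem_filter] at hm
    unfold ZZ at hm
    rw [Finset.mem_filter] at hm
    obtain ⟨c, hc⟩ := h.of_hq' (h.dl_off _) hm.1.1 hm.1.2 k
    have hc1 : 1 ≤ c := by
      rcases Nat.eq_zero_or_pos c with h0 | h0
      · exact absurd (by rw [hc i, h0, zero_mul]) hm.2
      · exact h0
    rintro ⟨j, l⟩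
    rw [Dk_apply]
    split_ifs with hl
    · rw [hl, hc j]
      exact Nat.le_mul_of_pos_left _ hc1
    · exact Nat.zero_le _
  apply Finset.card_nbij' (fun m => m - Dk δ k) (fun m => m + Dk δ k)
  · intro m hm
    have hle' := hle m hm
    rw [Finset.mem_coe, Finset.mem_filter] at hm
    unfold ZZ at hm ⊢
    rw [Finset.mem_filter] at hm
    rw [Finset.mem_coe, Finset.mem_filter]
    have hsub : m - Dk δ k + Dk δ k = m := tsub_add_cancel_of_le hle'
    constructor
    · rw [mem_mps]
      have h1 : mwt (m - Dk δ k) + dl δ (k + 1) = dl δ n + dl δ (k + 1) := by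
        rw [← mwt_Dk, ← exp_mwt_add, hsub, mwt_Dk, mem_mps.1 hm.1.1, dl_add]
      exact add_right_cancel h1
    · apply h.hq_of
      intro t
      obtain ⟨c, hc⟩ := h.of_hq' (h.dl_off _) hm.1.1 hm.1.2 t
      refine ⟨c - (if t = k then 1 else 0), fun j => ?_⟩
      rw [Finsupp.tsub_apply, hc j, Dk_apply, Nat.sub_mul]
      split_ifs <;> simp
  · intro m hm
    unfold ZZ at hm ⊢
    rw [Finset.mem_coe, Finset.mem_filter] at hm
    rw [Finset.mem_coe, Finset.mem_filter, Finset.mem_filter]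
    refine ⟨⟨?_, ?_⟩, ?_⟩
    · rw [mem_mps, exp_mwt_add, mem_mps.1 hm.1, mwt_Dk]
      exact (dl_add δ n (k + 1)).symm
    · apply h.hq_of
      intro t
      obtain ⟨c, hc⟩ := h.of_hq' (h.dl_off _) hm.1 hm.2 t
      refine ⟨c + (if t = k then 1 else 0), fun j => ?_⟩
      rw [Finsupp.add_apply, hc j, Dk_apply, add_mul]
      split_ifs <;> simp
    · rw [Finsupp.add_apply, Dk_apply, if_pos rfl]
      omega
  · intro m hm
    exact tsub_add_cancel_of_le (hle m hm)
  · intro m _
    exact add_tsub_cancel_right m _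

theorem Aff.PP1_dl {Q : Quiv I E} {δ : I → ℕ} {S : Finset I} (h : Aff Q δ S) (n : ℕ) :
    PP1 Q (dl δ n) = S.card * ∑ j ∈ Finset.range n, PP0 Q (dl δ j) := by
  have h1 : PP1 Q (dl δ n) = ∑ m ∈ ZZ Q (dl δ n), (m.support.card : ℚ) := by
    unfold PP1 ZZ
    rw [Finset.sum_filter]
    refine Finset.sum_congr rfl fun m hm => ?_
    split_ifs with h2 h3
    · rfl
    · exact absurd h3 (h.hq_ne_one hm)
    · rfl
  have h2 : ∀ m ∈ ZZ Q (dl δ n), (m.support.card : ℚ) =
      ∑ i ∈ S, ∑ k ∈ Finset.range n, (if m (i, k) ≠ 0 then 1 else 0 : ℚ) := by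
    intro m hm
    unfold ZZ at hm
    rw [Finset.mem_filter] at hm
    have hsub : m.support ⊆ S ×ˢ Finset.range n := by
      rintro ⟨i, k⟩ hik
      rw [Finsupp.mem_support_iff] at hik
      have hi : i ∈ S := by
        by_contra hc
        exact hik ((mps_zero_off (h.dl_off n) hm.1).2 k i hc)
      rw [Finset.mem_product, Finset.mem_range]
      refine ⟨hi, ?_⟩
      obtain ⟨c, hc⟩ := h.of_hq' (h.dl_off _) hm.1 hm.2 k
      have h3 := PII_Def.mul_le m (i, k)
      rw [mem_mps.1 hm.1, dl_apply, hc i] at h3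
      have hδi : 0 < δ i := Nat.pos_of_ne_zero ((h.supp i).1 hi)
      have hc1 : 1 ≤ c := by
        rcases Nat.eq_zero_or_pos c with h0 | h0
        · exact absurd (by rw [hc i, h0, zero_mul]) hik
        · exact h0
      have h4 : (c * (k + 1)) * δ i ≤ n * δ i := by
        calc (c * (k + 1)) * δ i = c * δ i * (k + 1) := by ring
          _ ≤ n * δ i := h3
      have h5 := Nat.le_of_mul_le_mul_right h4 hδi
      have h6 : k + 1 ≤ c * (k + 1) := Nat.le_mul_of_pos_left _ hc1
      omega
    rw [← Finset.sum_product', Finset.card_eq_sum_ones]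
    push_cast
    rw [← Finset.sum_filter]
    have h3 : m.support = (S ×ˢ Finset.range n).filter (fun x => m (x.1, x.2) ≠ 0) := by
      ext x
      rw [Finset.mem_filter]
      constructor
      · intro hx
        exact ⟨hsub hx, Finsupp.mem_support_iff.1 hx⟩
      · rintro ⟨_, hx⟩
        exact Finsupp.mem_support_iff.2 hx
    rw [← h3]
  rw [h1, Finset.sum_congr rfl h2, Finset.sum_comm]
  have h3 : ∀ i ∈ S, ∑ m ∈ ZZ Q (dl δ n), ∑ k ∈ Finset.range n,
      (if m (i, k) ≠ 0 then 1 else 0 : ℚ) = ∑ j ∈ Finset.range n, PP0 Q (dl δ j) := by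
    intro i hi
    rw [Finset.sum_comm, ← Finset.sum_range_reflect (fun j => PP0 Q (dl δ j)) n]
    refine Finset.sum_congr rfl fun k hk => ?_
    rw [Finset.mem_range] at hk
    have h4 : n = (n - 1 - k) + (k + 1) := by omega
    rw [← Finset.sum_filter, Finset.sum_const, nsmul_eq_mul, mul_one]
    unfold PP0
    rw [← h.card_bij (n - 1 - k) k hi, ← h4]
  rw [Finset.sum_congr rfl h3, Finset.sum_const, nsmul_eq_mul]

theorem PP_zero (Q : Quiv I E) (l : ℕ) : PP Q 0 l = 1 := by
  have h1 : mps (0 : I →₀ ℕ) = {0} := by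
    ext m
    rw [mem_mps, Finset.mem_singleton]
    constructor
    · intro hm
      ext ⟨i, k⟩
      have h2 := PII_Def.mul_le m (i, k)
      rw [hm] at h2
      have h3 : m (i, k) * (k + 1) ≤ 0 := h2
      have h4 : m (i, k) * (k + 1) = 0 := by omega
      rcases Nat.mul_eq_zero.1 h4 with h5 | h5
      · exact h5
      · omega
    · rintro rfl
      simp [mwt]
  unfold PP
  rw [h1, Finset.sum_singleton]
  have h2 : hq (adj Q) (0 : Prt I →₀ ℕ) = 0 := by
    simp [hq, Finsupp.sum]
  unfold cc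
  rw [h2]
  simp [Finsupp.prod]

end Pool.H88.KA

end

section

/-!
KAC ADE numbers, CN2a: determinants of Cartan matrices.

* `dt_ne_zero`: a vector in the kernel contradicts `FinT.pos` (`Matrix.exists_mulVec_eq_zero_iff`).
* `dt_schur`: Schur complement (`Matrix.det_fromBlocks₁₁` or multiply by a unipotent matrix); the effective matrix is
  `C_MM - C_MN C_N^{-1} C_NM` (`solN a N b` solves `C_N v = b`, see `solN_spec`, `solN_out` in AE1; off diagonal entries of
  `cart` are `- a`).
* `dt_union`: block diagonal.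
-/

set_option autoImplicit false

namespace Pool.H88.Num

open scoped BigOperators
open Pool.Agent.H27.KAC

section

variable {I : Type} [Fintype I] [DecidableEq I]

omit [Fintype I] in
private theorem CN2a_cart_ne (a : I → I → ℕ) {x y : I} (h : x ≠ y) :
    (cart a x y : ℚ) = - (a x y : ℚ) := by
  unfold cart
  rw [if_neg h]
  push_cast
  ring

omit [Fintype I] in
/-- block decomposition. -/
private theorem CN2a_blocks (a : I → I → ℕ) {N M : Finset I} (hd : Disjoint N M) :
    dt a (N ∪ M) = (Matrix.fromBlocks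
      (Matrix.of (fun (i : {x // x ∈ N}) (j : {x // x ∈ N}) => (cart a i.1 j.1 : ℚ)))
      (Matrix.of (fun (i : {x // x ∈ N}) (j : {x // x ∈ M}) => (cart a i.1 j.1 : ℚ)))
      (Matrix.of (fun (i : {x // x ∈ M}) (j : {x // x ∈ N}) => (cart a i.1 j.1 : ℚ)))
      (Matrix.of (fun (i : {x // x ∈ M}) (j : {x // x ∈ M}) => (cart a i.1 j.1 : ℚ)))).det := by
  unfold dt
  rw [← Matrix.det_submatrix_equiv_self (Equiv.Finset.union N M hd)]
  congr 1
  ext i j
  rcases i with i | i <;> rcases j with j | j <;> rfl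

theorem dt_empty (a : I → I → ℕ) : dt a ∅ = 1 := by
  unfold dt
  have : IsEmpty {x // x ∈ (∅ : Finset I)} := ⟨fun x => absurd x.2 (Finset.notMem_empty _)⟩
  exact Matrix.det_isEmpty

theorem dt_ne_zero {a : I → I → ℕ} {A : Finset I} (hA : FinT a A) : dt a A ≠ 0 := by
  intro h0
  unfold dt at h0
  obtain ⟨v, hv, hv0⟩ := Matrix.exists_mulVec_eq_zero_iff.2 h0
  set w : I → ℚ := fun i => if h : i ∈ A then v ⟨i, h⟩ else 0 with hw
  have hwA : ∀ i : {x // x ∈ A}, w i.1 = v i := by
    intro i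
    simp [hw]
  have hne : ∃ i ∈ A, w i ≠ 0 := by
    by_contra hcon
    push Not at hcon
    apply hv
    funext i
    rw [← hwA i]
    exact hcon i.1 i.2
  have h1 := hA.pos w hne
  have h2 : ∀ i ∈ A, cqN a A w i = 0 := by
    intro i hi
    have h3 := congrFun hv0 ⟨i, hi⟩
    rw [Matrix.mulVec, dotProduct, Pi.zero_apply] at h3
    unfold cqN
    rw [← Finset.sum_coe_sort A, ← h3]
    apply Finset.sum_congr rfl
    intro j _
    rw [hwA j]
    rfl
  rw [Finset.sum_congr rfl (fun i hi => by rw [h2 i hi, mul_zero]), Finset.sum_const_zero] at h1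
  exact lt_irrefl _ h1

theorem dt_schur {a : I → I → ℕ} (hs : ∀ i j, a i j = a j i) {N M : Finset I} (hN : FinT a N)
    (hd : Disjoint N M) : dt a (N ∪ M) = dt a N * detEff a N M := by
  rw [CN2a_blocks a hd]
  set A : Matrix {x // x ∈ N} {x // x ∈ N} ℚ :=
    Matrix.of (fun (i : {x // x ∈ N}) (j : {x // x ∈ N}) => (cart a i.1 j.1 : ℚ)) with hA
  set B : Matrix {x // x ∈ N} {x // x ∈ M} ℚ :=
    Matrix.of (fun (i : {x // x ∈ N}) (j : {x // x ∈ M}) => (cart a i.1 j.1 : ℚ)) with hB
  set C : Matrix {x // x ∈ M} {x // x ∈ N} ℚ :=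
    Matrix.of (fun (i : {x // x ∈ M}) (j : {x // x ∈ N}) => (cart a i.1 j.1 : ℚ)) with hC
  set D : Matrix {x // x ∈ M} {x // x ∈ M} ℚ :=
    Matrix.of (fun (i : {x // x ∈ M}) (j : {x // x ∈ M}) => (cart a i.1 j.1 : ℚ)) with hD
  have hdet : A.det ≠ 0 := dt_ne_zero hN
  let _ : Invertible A := Matrix.invertibleOfIsUnitDet A (isUnit_iff_ne_zero.2 hdet)
  rw [Matrix.det_fromBlocks₁₁]
  have hdt : dt a N = A.det := rfl
  rw [hdt]
  congr 1
  set S : Matrix {x // x ∈ N} {x // x ∈ M} ℚ :=
    Matrix.of (fun y j => - solN a N (fun l => (a l j.1 : ℚ)) y.1) with hS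
  have hAS : A * S = B := by
    ext y j
    have h1 := solN_spec hs hN (fun l => (a l j.1 : ℚ)) y.1 y.2
    have hyj : y.1 ≠ j.1 := fun e => (Finset.disjoint_left.1 hd y.2) (e ▸ j.2)
    have h2 : B y j = - (a y.1 j.1 : ℚ) := CN2a_cart_ne a hyj
    rw [h2, Matrix.mul_apply]
    unfold cqN at h1
    rw [← Finset.sum_coe_sort N] at h1
    rw [← h1, ← Finset.sum_neg_distrib]
    apply Finset.sum_congr rfl
    intro z _
    simp only [hA, hS, Matrix.of_apply]
    ring
  have hX : ⅟A * B = S := by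
    rw [← hAS, ← Matrix.mul_assoc, invOf_mul_self, Matrix.one_mul]
  rw [Matrix.mul_assoc, hX]
  unfold detEff
  congr 1
  ext i j
  rw [Matrix.sub_apply, Matrix.mul_apply, Matrix.of_apply]
  have h3 : ∑ z : {x // x ∈ N}, C i z * S z j =
      ∑ y ∈ N, (a i.1 y : ℚ) * solN a N (fun l => (a l j.1 : ℚ)) y := by
    rw [← Finset.sum_coe_sort N]
    apply Finset.sum_congr rfl
    intro z _
    have hiz : i.1 ≠ z.1 := fun e => (Finset.disjoint_left.1 hd z.2) (e ▸ i.2)
    have h4 : C i z = - (a i.1 z.1 : ℚ) := CN2a_cart_ne a hiz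
    rw [h4]
    simp only [hS, Matrix.of_apply]
    ring
  rw [h3]
  rfl

theorem dt_union {a : I → I → ℕ} (hs : ∀ i j, a i j = a j i) {A B : Finset I} (hd : Disjoint A B)
    (hadj : ∀ x ∈ A, ∀ y ∈ B, a x y = 0) : dt a (A ∪ B) = dt a A * dt a B := by
  rw [CN2a_blocks a hd]
  have hB : Matrix.of (fun (i : {x // x ∈ A}) (j : {x // x ∈ B}) => (cart a i.1 j.1 : ℚ)) = 0 := by
    ext i j
    have hij : i.1 ≠ j.1 := fun e => (Finset.disjoint_left.1 hd i.2) (e ▸ j.2)
    rw [Matrix.of_apply, CN2a_cart_ne a hij, hadj i.1 i.2 j.1 j.2]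
    simp
  rw [hB, Matrix.det_fromBlocks_zero₁₂]
  rfl

end

end Pool.H88.Num

end

section

/-!
KAC ADE numbers, CN2b: components of unions, determinants and components, `cn` of class zero.

* `comps_union_sep`: use `comps_subset, comps_conn, comps_sep` and the definition of `comps` (a connected subset of `A ∪ B`
  lies in `A` or in `B`).
* `dt_comps`: iterate `dt_union` (strong induction on the cardinality: take one component `B` of `A`; then
  `comps a A = insert B (comps a (A \ B))` by `comps_union_sep` and `comps_of_conn`).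
* `cn_eq_PhN`: `cn_rec`; the filter is trivial because `0` is integral; `dt_schur` and `dt_comps` for `A \ M`.
-/

set_option autoImplicit false

namespace Pool.H88.Num

open scoped BigOperators
open Pool.Agent.H27.KAC

section

variable {I : Type} [Fintype I] [DecidableEq I]

private theorem CN2b_mem (a : I → I → ℕ) (N S : Finset I) :
    S ∈ comps a N ↔ S ⊆ N ∧ ConnS a S ∧ ∀ i ∈ S, ∀ j ∈ N, j ∉ S → a i j = 0 := by
  classical
  unfold comps
  rw [Finset.mem_filter, Finset.mem_powerset]

/-- components of a non adjacent union. -/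
theorem comps_union_sep {a : I → I → ℕ} (hs : ∀ i j, a i j = a j i) {A B : Finset I}
    (hd : Disjoint A B) (hadj : ∀ x ∈ A, ∀ y ∈ B, a x y = 0) :
    comps a (A ∪ B) = comps a A ∪ comps a B ∧ Disjoint (comps a A) (comps a B) := by
  constructor
  · ext S
    rw [Finset.mem_union, CN2b_mem, CN2b_mem, CN2b_mem]
    constructor
    · rintro ⟨h1, h2, h3⟩
      by_cases hne : (S ∩ A).Nonempty
      · by_cases heq : S ∩ A = S
        · left
          refine ⟨Finset.inter_eq_left.1 heq, h2, fun i hi j hj hjS => ?_⟩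
          exact h3 i hi j (Finset.mem_union_left _ hj) hjS
        · exfalso
          obtain ⟨i, hi, j, hj, hjn, hpos⟩ := h2.2 _ Finset.inter_subset_left hne heq
          have hjA : j ∉ A := fun h => hjn (Finset.mem_inter.2 ⟨hj, h⟩)
          have hjB : j ∈ B := (Finset.mem_union.1 (h1 hj)).resolve_left hjA
          have h4 := hadj i (Finset.mem_inter.1 hi).2 j hjB
          omega
      · right
        rw [Finset.not_nonempty_iff_eq_empty] at hne
        have hSB : S ⊆ B := by
          intro x hx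
          have hxA : x ∉ A := by
            intro h
            have h4 : x ∈ S ∩ A := Finset.mem_inter.2 ⟨hx, h⟩
            rw [hne] at h4
            exact absurd h4 (Finset.notMem_empty x)
          exact (Finset.mem_union.1 (h1 hx)).resolve_left hxA
        exact ⟨hSB, h2, fun i hi j hj hjS => h3 i hi j (Finset.mem_union_right _ hj) hjS⟩
    · rintro (⟨h1, h2, h3⟩ | ⟨h1, h2, h3⟩)
      · refine ⟨h1.trans Finset.subset_union_left, h2, fun i hi j hj hjS => ?_⟩
        rcases Finset.mem_union.1 hj with hjA | hjB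
        · exact h3 i hi j hjA hjS
        · exact hadj i (h1 hi) j hjB
      · refine ⟨h1.trans Finset.subset_union_right, h2, fun i hi j hj hjS => ?_⟩
        rcases Finset.mem_union.1 hj with hjA | hjB
        · rw [hs]
          exact hadj j hjA i (h1 hi)
        · exact h3 i hi j hjB hjS
  · rw [Finset.disjoint_left]
    intro S h1 h2
    obtain ⟨x, hx⟩ := (comps_conn h1).1
    exact Finset.disjoint_left.1 hd (comps_subset h1 hx) (comps_subset h2 hx)

private theorem CN2b_empty (a : I → I → ℕ) : comps a (∅ : Finset I) = ∅ := by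
  rw [Finset.eq_empty_iff_forall_notMem]
  intro S hS
  obtain ⟨x, hx⟩ := (comps_conn hS).1
  exact absurd (comps_subset hS hx) (Finset.notMem_empty x)

/-- splitting off one component. -/
private theorem CN2b_split {a : I → I → ℕ} (hs : ∀ i j, a i j = a j i) {A B : Finset I}
    (hB : B ∈ comps a A) :
    Disjoint B (A \ B) ∧ (∀ x ∈ B, ∀ y ∈ A \ B, a x y = 0) ∧ B ∪ (A \ B) = A ∧
      comps a A = {B} ∪ comps a (A \ B) ∧ Disjoint {B} (comps a (A \ B)) ∧
      (A \ B).card < A.card := by
  have h1 : Disjoint B (A \ B) := Finset.disjoint_sdiff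
  have h2 : ∀ x ∈ B, ∀ y ∈ A \ B, a x y = 0 := fun x hx y hy =>
    comps_sep hB x hx y (Finset.mem_sdiff.1 hy).1 (Finset.mem_sdiff.1 hy).2
  have h3 : B ∪ (A \ B) = A := Finset.union_sdiff_of_subset (comps_subset hB)
  have h4 := comps_union_sep hs h1 h2
  rw [h3, comps_of_conn (comps_conn hB)] at h4
  refine ⟨h1, h2, h3, h4.1, h4.2, ?_⟩
  obtain ⟨x, hx⟩ := (comps_conn hB).1
  apply Finset.card_lt_card
  rw [Finset.ssubset_iff_of_subset Finset.sdiff_subset]
  exact ⟨x, comps_subset hB hx, fun h => (Finset.mem_sdiff.1 h).2 hx⟩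

theorem dt_comps {a : I → I → ℕ} (hs : ∀ i j, a i j = a j i) (A : Finset I) :
    dt a A = ∏ N ∈ comps a A, dt a N := by
  induction h : A.card using Nat.strong_induction_on generalizing A with
  | _ n ih =>
    rcases A.eq_empty_or_nonempty with rfl | ⟨x, hx⟩
    · rw [CN2b_empty, Finset.prod_empty, dt_empty]
    · obtain ⟨B, hB, -⟩ := comps_cover hs x hx
      obtain ⟨h1, h2, h3, h4, h5, h6⟩ := CN2b_split hs hB
      rw [h4, Finset.prod_union h5, Finset.prod_singleton, ← ih _ (h ▸ h6) (A \ B) rfl,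
        ← dt_union hs h1 h2, h3]

private theorem CN2b_card {a : I → I → ℕ} (hs : ∀ i j, a i j = a j i) (A : Finset I) :
    ∑ N ∈ comps a A, N.card = A.card := by
  induction h : A.card using Nat.strong_induction_on generalizing A with
  | _ n ih =>
    rcases A.eq_empty_or_nonempty with rfl | ⟨x, hx⟩
    · rw [CN2b_empty, Finset.sum_empty, ← h, Finset.card_empty]
    · obtain ⟨B, hB, -⟩ := comps_cover hs x hx
      obtain ⟨h1, h2, h3, h4, h5, h6⟩ := CN2b_split hs hB
      rw [h4, Finset.sum_union h5, Finset.sum_singleton, ih _ (h ▸ h6) (A \ B) rfl, ← h,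
        ← Finset.card_union_of_disjoint h1, h3]

theorem cn_eq_PhN {a : I → I → ℕ} (hs : ∀ i j, a i j = a j i) (cd : CrossData a) {A : Finset I}
    (hA : FinT a A) (g : ℕ) (hg : 1 ≤ g) :
    cn a cd A (fun _ => 0) g = dt a A * PhN a cd A g := by
  classical
  rw [cn_rec a cd A (fun _ => 0) g hg]
  have hf : A.powerset.filter (fun M => ∀ x ∈ M, IsZ ((fun _ => 0 : I → ℚ) x)) = A.powerset := by
    rw [Finset.filter_eq_self]
    intro M _ x _
    exact ⟨0, by simp⟩
  rw [hf]
  unfold PhN
  rw [Finset.mul_sum]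
  apply Finset.sum_congr rfl
  intro M hM
  rw [Finset.mem_powerset] at hM
  have hN : FinT a (A \ M) := hA.mono Finset.sdiff_subset
  have h1 : dt a A = dt a (A \ M) * detEff a (A \ M) M := by
    rw [← dt_schur hs hN Finset.sdiff_disjoint, Finset.sdiff_union_of_subset hM]
  have h2 : dt a (A \ M) ≠ 0 := dt_ne_zero hN
  have h3 : ∏ N ∈ comps a (A \ M), wN a cd N g =
      (-1) ^ (A \ M).card * (∏ N ∈ comps a (A \ M), upw a cd N (fun _ => 0) g) /
        dt a (A \ M) := by
    unfold wN
    rw [Finset.prod_div_distrib, Finset.prod_mul_distrib, Finset.prod_pow_eq_pow_sum,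
      CN2b_card hs, ← dt_comps hs]
  unfold tmN
  rw [h3, h1]
  field_simp

end

end Pool.H88.Num

end

section

/-!
KAC ADE numbers, CN2c: the normalised numbers are multiplicative; cutting at a vertex.

* `PhN_union`: the subsets of `A ∪ B` are the unions `M ∪ M'`, `M ⊆ A`, `M' ⊆ B`; `(A ∪ B) \ (M ∪ M')` is the non adjacent
  union of `A \ M` and `B \ M'`; `comps_union_sep`.
* `PhN_cut`: the sets `M` are `insert y M'` with `M' ⊆ A \ insert y K`, and `A \ M` is the non adjacent union of `K` and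
  `(A \ insert y K) \ M'`; `comps_union_sep`, `comps_of_conn`.
-/

set_option autoImplicit false

namespace Pool.H88.Num

open scoped BigOperators
open Pool.Agent.H27.KAC

section

variable {I : Type} [Fintype I] [DecidableEq I]

private theorem CN2c_sdiff {A B M : Finset I} :
    (A ∪ B) \ M = (A \ (M ∩ A)) ∪ (B \ (M ∩ B)) := by
  ext x
  simp only [Finset.mem_sdiff, Finset.mem_union, Finset.mem_inter]
  tauto

private theorem CN2c_tm {a : I → I → ℕ} (hs : ∀ i j, a i j = a j i) (cd : CrossData a)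
    {A B : Finset I} (hd : Disjoint A B) (hadj : ∀ x ∈ A, ∀ y ∈ B, a x y = 0) (g : ℕ)
    {M : Finset I} (hM : M ⊆ A ∪ B) :
    tmN a cd (A ∪ B) g M = tmN a cd A g (M ∩ A) * tmN a cd B g (M ∩ B) := by
  have h1 := comps_union_sep (a := a) hs (A := A \ (M ∩ A)) (B := B \ (M ∩ B))
    (Finset.disjoint_of_subset_left Finset.sdiff_subset
      (Finset.disjoint_of_subset_right Finset.sdiff_subset hd))
    (fun x hx y hy => hadj x (Finset.sdiff_subset hx) y (Finset.sdiff_subset hy))
  have hcard : M.card = (M ∩ A).card + (M ∩ B).card := by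
    rw [← Finset.card_union_of_disjoint, ← Finset.inter_union_distrib_left,
      Finset.inter_eq_left.2 hM]
    exact Finset.disjoint_of_subset_left Finset.inter_subset_right
      (Finset.disjoint_of_subset_right Finset.inter_subset_right hd)
  unfold tmN
  rw [CN2c_sdiff, h1.1, Finset.prod_union h1.2, hcard, pow_add]
  ring

theorem PhN_union {a : I → I → ℕ} (hs : ∀ i j, a i j = a j i) (cd : CrossData a) {A B : Finset I}
    (hd : Disjoint A B) (hadj : ∀ x ∈ A, ∀ y ∈ B, a x y = 0) (g : ℕ) :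
    PhN a cd (A ∪ B) g = PhN a cd A g * PhN a cd B g := by
  unfold PhN
  rw [Finset.sum_mul_sum, ← Finset.sum_product']
  refine Finset.sum_bij' (fun M _ => (M ∩ A, M ∩ B)) (fun p _ => p.1 ∪ p.2) ?_ ?_ ?_ ?_ ?_
  · intro M _
    rw [Finset.mem_product, Finset.mem_powerset, Finset.mem_powerset]
    exact ⟨Finset.inter_subset_right, Finset.inter_subset_right⟩
  · intro p hp
    rw [Finset.mem_product, Finset.mem_powerset, Finset.mem_powerset] at hp
    rw [Finset.mem_powerset]
    exact Finset.union_subset_union hp.1 hp.2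
  · intro M hM
    rw [Finset.mem_powerset] at hM
    show (M ∩ A) ∪ (M ∩ B) = M
    rw [← Finset.inter_union_distrib_left, Finset.inter_eq_left.2 hM]
  · intro p hp
    rw [Finset.mem_product, Finset.mem_powerset, Finset.mem_powerset] at hp
    have h1 : (p.1 ∪ p.2) ∩ A = p.1 := by
      ext x
      rw [Finset.mem_inter, Finset.mem_union]
      constructor
      · rintro ⟨h2 | h2, h3⟩
        · exact h2
        · exact absurd (hp.2 h2) (Finset.disjoint_left.1 hd h3)
      · intro h2
        exact ⟨Or.inl h2, hp.1 h2⟩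
    have h2 : (p.1 ∪ p.2) ∩ B = p.2 := by
      ext x
      rw [Finset.mem_inter, Finset.mem_union]
      constructor
      · rintro ⟨h2 | h2, h3⟩
        · exact absurd h3 (Finset.disjoint_left.1 hd (hp.1 h2))
        · exact h2
      · intro h2
        exact ⟨Or.inr h2, hp.2 h2⟩
    exact Prod.ext h1 h2
  · intro M hM
    rw [Finset.mem_powerset] at hM
    exact CN2c_tm hs cd hd hadj g hM

/-- the part of the sum with `y ∈ M` and `M` disjoint from `K`, where `y` separates `K` from the rest of `A`. -/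
theorem PhN_cut {a : I → I → ℕ} (hs : ∀ i j, a i j = a j i) (cd : CrossData a) {A K : Finset I}
    (y : I) (hK : K ⊆ A) (hy : y ∈ A) (hyK : y ∉ K)
    (hadj : ∀ x ∈ K, ∀ z ∈ A, z ∉ K → z ≠ y → a x z = 0) (hKc : ConnS a K) (g : ℕ) :
    ∑ M ∈ A.powerset.filter (fun M => y ∈ M ∧ Disjoint K M), tmN a cd A g M =
      (g : ℚ) * wN a cd K g * PhN a cd (A \ insert y K) g := by
  unfold PhN
  rw [Finset.mul_sum]
  refine Finset.sum_bij' (fun M _ => M.erase y) (fun M _ => insert y M) ?_ ?_ ?_ ?_ ?_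
  · intro M hM
    rw [Finset.mem_filter, Finset.mem_powerset] at hM
    rw [Finset.mem_powerset]
    intro x hx
    rw [Finset.mem_erase] at hx
    rw [Finset.mem_sdiff, Finset.mem_insert]
    refine ⟨hM.1 hx.2, ?_⟩
    rintro (h | h)
    · exact hx.1 h
    · exact Finset.disjoint_left.1 hM.2.2 h hx.2
  · intro M hM
    rw [Finset.mem_powerset] at hM
    rw [Finset.mem_filter, Finset.mem_powerset]
    refine ⟨Finset.insert_subset hy (hM.trans Finset.sdiff_subset),
      Finset.mem_insert_self _ _, ?_⟩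
    rw [Finset.disjoint_left]
    intro x hx hxM
    rw [Finset.mem_insert] at hxM
    rcases hxM with h | h
    · exact hyK (h ▸ hx)
    · have h1 := hM h
      rw [Finset.mem_sdiff] at h1
      exact h1.2 (Finset.mem_insert_of_mem hx)
  · intro M hM
    rw [Finset.mem_filter] at hM
    exact Finset.insert_erase hM.2.1
  · intro M hM
    rw [Finset.mem_powerset] at hM
    refine Finset.erase_insert fun h => ?_
    have h1 := hM h
    rw [Finset.mem_sdiff] at h1
    exact h1.2 (Finset.mem_insert_self _ _)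
  · intro M hM
    rw [Finset.mem_filter, Finset.mem_powerset] at hM
    obtain ⟨hMA, hyM, hKM⟩ := hM
    have hset : A \ M = K ∪ ((A \ insert y K) \ M.erase y) := by
      ext x
      simp only [Finset.mem_sdiff, Finset.mem_union, Finset.mem_insert, Finset.mem_erase]
      constructor
      · rintro ⟨h1, h2⟩
        by_cases h3 : x ∈ K
        · exact Or.inl h3
        · refine Or.inr ⟨⟨h1, ?_⟩, fun h => h2 h.2⟩
          rintro (h | h)
          · exact h2 (h ▸ hyM)
          · exact h3 h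
      · rintro (h | ⟨⟨h1, h2⟩, h3⟩)
        · exact ⟨hK h, Finset.disjoint_left.1 hKM h⟩
        · exact ⟨h1, fun h => h3 ⟨fun h4 => h2 (Or.inl h4), h⟩⟩
    have h1 := comps_union_sep (a := a) hs (A := K) (B := (A \ insert y K) \ M.erase y)
      (by
        rw [Finset.disjoint_left]
        intro x hx hx2
        rw [Finset.mem_sdiff, Finset.mem_sdiff, Finset.mem_insert] at hx2
        exact hx2.1.2 (Or.inr hx))
      (by
        intro x hx z hz
        rw [Finset.mem_sdiff, Finset.mem_sdiff, Finset.mem_insert] at hz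
        exact hadj x hx z hz.1.1 (fun h => hz.1.2 (Or.inr h)) (fun h => hz.1.2 (Or.inl h)))
    have hcard : M.card = (M.erase y).card + 1 := (Finset.card_erase_add_one hyM).symm
    unfold tmN
    rw [hset, h1.1, Finset.prod_union h1.2, comps_of_conn hKc, Finset.prod_singleton, hcard,
      pow_succ]
    ring

/-- the case `K = ∅`. -/
theorem PhN_cut0 {a : I → I → ℕ} (cd : CrossData a) {A : Finset I}
    (y : I) (hy : y ∈ A) (g : ℕ) :
    ∑ M ∈ A.powerset.filter (fun M => y ∈ M), tmN a cd A g M =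
      (g : ℚ) * PhN a cd (A.erase y) g := by
  unfold PhN
  rw [Finset.mul_sum]
  refine Finset.sum_bij' (fun M _ => M.erase y) (fun M _ => insert y M) ?_ ?_ ?_ ?_ ?_
  · intro M hM
    rw [Finset.mem_filter, Finset.mem_powerset] at hM
    rw [Finset.mem_powerset]
    exact Finset.erase_subset_erase _ hM.1
  · intro M hM
    rw [Finset.mem_powerset] at hM
    rw [Finset.mem_filter, Finset.mem_powerset]
    exact ⟨Finset.insert_subset hy (hM.trans (Finset.erase_subset _ _)),
      Finset.mem_insert_self _ _⟩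
  · intro M hM
    rw [Finset.mem_filter] at hM
    exact Finset.insert_erase hM.2
  · intro M hM
    rw [Finset.mem_powerset] at hM
    refine Finset.erase_insert fun h => ?_
    exact (Finset.mem_erase.1 (hM h)).1 rfl
  · intro M hM
    rw [Finset.mem_filter, Finset.mem_powerset] at hM
    obtain ⟨hMA, hyM⟩ := hM
    have hset : A \ M = (A.erase y) \ M.erase y := by
      ext x
      simp only [Finset.mem_sdiff, Finset.mem_erase]
      constructor
      · rintro ⟨h1, h2⟩
        exact ⟨⟨fun h => h2 (h ▸ hyM), h1⟩, fun h => h2 h.2⟩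
      · rintro ⟨⟨h1, h2⟩, h3⟩
        exact ⟨h2, fun h => h3 ⟨h1, h⟩⟩
    have hcard : M.card = (M.erase y).card + 1 := (Finset.card_erase_add_one hyM).symm
    unfold tmN
    rw [hset, hcard, pow_succ]
    ring

end

end Pool.H88.Num

end

section

/-!
KAC ADE numbers, CN3: the polynomial of `(A, q)`.
-/

set_option autoImplicit false

namespace Pool.H88.Num

open scoped BigOperators
open Pool.Agent.H27.KAC
open Polynomial

section

variable {I : Type} [Fintype I] [DecidableEq I]

/-- `P` is the denominator polynomial of the response numbers of `(A, q)`. -/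
structure PolyOf (a : I → I → ℕ) (cd : CrossData a) (A : Finset I) (q : I → ℚ)
    (P : Polynomial ℚ) : Prop where
  c0 : P.coeff 0 = 1
  deg : P.natDegree = cd.mm A
  lead : P.leadingCoeff = -((-1) ^ A.card * cd.eps A q)
  mul : (P : PowerSeries ℚ) * PowerSeries.mk (cn a cd A q) = 1
  ann : ∀ M ⊆ A, M.Nonempty → (∀ x ∈ M, IsZ (q x)) → ∀ (α κ : I → ℚ) (L : Finset I → ℕ),
    (∀ N ∈ comps a (A \ M), cd.mm A + 1 ≤ L N + cd.mm N) →
      ∑ i ∈ Finset.range (cd.mm A + 1),
        P.coeff i * (∏ s ∈ M, (α s + κ s * i)) * ∏ N ∈ comps a (A \ M), cnS a cd N q (L N) i = 0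

theorem polyOf_exists {a : I → I → ℕ} {cd : CrossData a} (h : RTnum a cd) {A : Finset I}
    {q : I → ℚ} (hA : FinT a A) (hc : ConnS a A) (hq : WtL a A q) :
    ∃ P, PolyOf a cd A q P := by
  obtain ⟨p, h0, hint, hdeg, hlead, hrec, hann⟩ := h.recu A q hA hc hq
  obtain ⟨P, hP⟩ : ∃ P : Polynomial ℚ, P = ∑ i ∈ Finset.range (cd.mm A + 1), C (p i) * X ^ i :=
    ⟨_, rfl⟩
  have hcoef : ∀ i, P.coeff i = p i := by
    intro i
    rw [hP, Polynomial.finset_sum_coeff]
    simp only [Polynomial.coeff_C_mul_X_pow]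
    rw [Finset.sum_ite_eq (Finset.range (cd.mm A + 1)) i p]
    split_ifs with hi
    · rfl
    · rw [Finset.mem_range] at hi
      exact (hdeg i (by omega)).symm
  have hne : p (cd.mm A) ≠ 0 := by
    rw [hlead]
    rcases cd.eps_sq A q with h1 | h1 <;> rcases neg_one_pow_eq_or ℚ A.card with h2 | h2 <;>
      rw [h1, h2] <;> norm_num
  have hnat : P.natDegree = cd.mm A := by
    apply Polynomial.natDegree_eq_of_le_of_coeff_ne_zero
    · rw [Polynomial.natDegree_le_iff_coeff_eq_zero]
      intro N hN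
      rw [hcoef]
      exact hdeg N hN
    · rw [hcoef]
      exact hne
  refine ⟨P, ⟨?_, hnat, ?_, ?_, ?_⟩⟩
  · rw [hcoef, h0]
  · unfold Polynomial.leadingCoeff
    rw [hnat, hcoef, hlead]
  · ext n
    rw [PowerSeries.coeff_mul, Finset.Nat.sum_antidiagonal_eq_sum_range_succ
      (fun i j => PowerSeries.coeff i (P : PowerSeries ℚ) *
        PowerSeries.coeff j (PowerSeries.mk (cn a cd A q)))]
    simp only [Polynomial.coeff_coe, PowerSeries.coeff_mk, hcoef]
    rcases Nat.eq_zero_or_pos n with hn | hn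
    · subst hn
      simp [h0, cn_zero]
    · rw [hrec n hn, PowerSeries.coeff_one, if_neg (by omega)]
  · intro M hM hMne hqM α κ L hL
    simp only [hcoef]
    exact hann M hM hMne hqM α κ L hL

/-- a polynomial multiple of `1 / F` whose coefficients vanish eventually: `F` divides. -/
theorem dvd_of_coeff (P F : Polynomial ℚ) (c : ℕ → ℚ)
    (hF : (F : PowerSeries ℚ) * PowerSeries.mk c = 1) (K : ℕ)
    (h : ∀ L, K ≤ L → ∑ i ∈ Finset.range (L + 1), P.coeff i * c (L - i) = 0) : F ∣ P := by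
  obtain ⟨G, hG⟩ : ∃ G : Polynomial ℚ, G = PowerSeries.trunc K ((P : PowerSeries ℚ) * PowerSeries.mk c) :=
    ⟨_, rfl⟩
  have h1 : (G : PowerSeries ℚ) = (P : PowerSeries ℚ) * PowerSeries.mk c := by
    ext n
    rw [Polynomial.coeff_coe, hG, PowerSeries.coeff_trunc]
    split_ifs with hn
    · rfl
    · rw [PowerSeries.coeff_mul, Finset.Nat.sum_antidiagonal_eq_sum_range_succ
        (fun i j => PowerSeries.coeff i (P : PowerSeries ℚ) * PowerSeries.coeff j (PowerSeries.mk c))]
      simp only [Polynomial.coeff_coe, PowerSeries.coeff_mk]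
      exact (h n (by omega)).symm
  refine ⟨G, ?_⟩
  have h2 : (P : PowerSeries ℚ) = ((F * G : Polynomial ℚ) : PowerSeries ℚ) := by
    rw [Polynomial.coe_mul, h1, mul_comm (P : PowerSeries ℚ), ← mul_assoc, hF, one_mul]
  exact Polynomial.coe_injective ℚ h2

end

end Pool.H88.Num

end

section

/-!
KAC ADE numbers, class zero of `E_7`, `E_8`: root one, divisibility along a chain, the value at one.
-/

set_option autoImplicit false

namespace Pool.Agent.H40.NUM

open scoped BigOperators
open Pool.Agent.H27.KAC Pool.H88.Num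
open Polynomial

section

variable {I : Type} [Fintype I] [DecidableEq I]

theorem comps_empty' (a : I → I → ℕ) : comps a (∅ : Finset I) = ∅ := by
  rw [Finset.eq_empty_iff_forall_notMem]
  intro N hN
  obtain ⟨x, hx⟩ := (comps_conn hN).1
  exact absurd (comps_subset hN hx) (Finset.notMem_empty x)

theorem isZ_zero : IsZ (0 : ℚ) := ⟨0, by push_cast; rfl⟩

/-- the root one. -/
theorem N1_a {a : I → I → ℕ} {cd : CrossData a} {A : Finset I} {P : Polynomial ℚ}
    (hA : A.Nonempty) (h : PolyOf a cd A (fun _ => 0) P) : (1 - X) ^ (A.card + 1) ∣ P := by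
  refine Pool.H88.KA.pow_dvd_of_sums P A.card (fun j hj => ?_)
  obtain ⟨J, hJ, hJc⟩ := Finset.exists_subset_card_eq hj
  have h1 := h.ann A (Finset.Subset.refl A) hA (fun x _ => isZ_zero)
    (fun x => if x ∈ J then 0 else 1) (fun x => if x ∈ J then 1 else 0) (fun _ => 0) (by
      intro N hN
      rw [Finset.sdiff_self, comps_empty'] at hN
      exact absurd hN (Finset.notMem_empty N))
  rw [h.deg]
  rw [← h1]
  refine Finset.sum_congr rfl fun i _ => ?_
  have h2 : ∏ s ∈ A, ((if s ∈ J then (0 : ℚ) else 1) + (if s ∈ J then (1 : ℚ) else 0) * i) =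
      (i : ℚ) ^ j := by
    have h3 : ∀ s ∈ A, ((if s ∈ J then (0 : ℚ) else 1) + (if s ∈ J then (1 : ℚ) else 0) * i) =
        if s ∈ J then (i : ℚ) else 1 := by
      intro s _
      by_cases hs : s ∈ J
      · rw [if_pos hs, if_pos hs, if_pos hs]
        ring
      · rw [if_neg hs, if_neg hs, if_neg hs]
        ring
    rw [Finset.prod_congr rfl h3, Finset.prod_ite_mem, Finset.inter_eq_right.2 hJ,
      Finset.prod_const, hJc]
  rw [h2, Finset.sdiff_self, comps_empty', Finset.prod_empty, mul_one]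

/-- divisibility along a chain. -/
theorem N1_b {a : I → I → ℕ} {cd : CrossData a} {A B : Finset I} {P F : Polynomial ℚ} {x : I}
    (hx : x ∈ A) (hB : comps a (A \ {x}) = {B}) (hP : PolyOf a cd A (fun _ => 0) P)
    (hF : PolyOf a cd B (fun _ => 0) F) : F ∣ P ∧ F ∣ X * derivative P := by
  have key : ∀ (α κ : ℚ) (L : ℕ), cd.mm A ≤ L →
      ∑ i ∈ Finset.range (L + 1), (P.coeff i * (α + κ * i)) * cn a cd B (fun _ => 0) (L - i) = 0 := by
    intro α κ L hL
    have h1 := hP.ann {x} (Finset.singleton_subset_iff.2 hx) (Finset.singleton_nonempty x)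
      (fun y _ => isZ_zero) (fun _ => α) (fun _ => κ) (fun _ => L) (by
        intro N _
        have := cd.two_le N
        omega)
    rw [hB] at h1
    simp only [Finset.prod_singleton] at h1
    have h2 : ∑ i ∈ Finset.range (cd.mm A + 1),
        P.coeff i * (α + κ * i) * cnS a cd B (fun _ => 0) L i =
        ∑ i ∈ Finset.range (cd.mm A + 1),
          (P.coeff i * (α + κ * i)) * cn a cd B (fun _ => 0) (L - i) := by
      refine Finset.sum_congr rfl fun i hi => ?_
      unfold cnS
      rw [if_pos (by rw [Finset.mem_range] at hi; omega)]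
    rw [h2] at h1
    refine Eq.trans (Eq.symm (Finset.sum_subset (fun i hi => ?_) (fun i hi hi' => ?_))) h1
    · rw [Finset.mem_range] at hi ⊢
      omega
    · rw [Finset.mem_range] at hi'
      have : P.coeff i = 0 := Polynomial.coeff_eq_zero_of_natDegree_lt (by rw [hP.deg]; omega)
      rw [this]
      ring
  constructor
  · refine dvd_of_coeff P F _ hF.mul (cd.mm A) (fun L hL => ?_)
    refine Eq.trans (Finset.sum_congr rfl fun i _ => ?_) (key 1 0 L hL)
    ring
  · refine dvd_of_coeff (X * derivative P) F _ hF.mul (cd.mm A) (fun L hL => ?_)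
    refine Eq.trans (Finset.sum_congr rfl fun i _ => ?_) (key 0 1 L hL)
    congr 1
    rcases i with _ | i
    · rw [Polynomial.mul_coeff_zero, Polynomial.coeff_X_zero]
      push_cast
      ring
    · rw [Polynomial.coeff_X_mul, Polynomial.coeff_derivative]
      push_cast
      ring

/-- the value at one. -/
theorem N1_c {a : I → I → ℕ} (hs : ∀ i j, a i j = a j i) (cd : CrossData a) {A : Finset I}
    (hA : FinT a A) : cn a cd A (fun _ => 0) 1 = dt a A := by
  rw [cn_eq_PhN hs cd hA 1 le_rfl]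
  have h1 : PhN a cd A 1 = 1 := by
    unfold PhN
    rw [Finset.sum_eq_single A]
    · unfold tmN
      rw [Finset.sdiff_self, comps_empty', Finset.prod_empty]
      push_cast
      ring
    · intro M hM hne
      unfold tmN
      have h2 : (A \ M).Nonempty := by
        rw [Finset.nonempty_iff_ne_empty]
        intro h
        exact hne (Finset.Subset.antisymm (Finset.mem_powerset.1 hM)
          (Finset.sdiff_eq_empty_iff_subset.1 h))
      obtain ⟨x, hx⟩ := h2
      obtain ⟨N, hN, -⟩ := comps_cover hs x hx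
      rw [Finset.prod_eq_zero hN, mul_zero]
      unfold wN upw
      have := cd.two_le N
      rw [if_neg (by omega)]
      ring
    · intro h
      exact absurd (Finset.mem_powerset.2 (Finset.Subset.refl A)) h
  rw [h1, mul_one]

end

end Pool.Agent.H40.NUM

end
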