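import Pool.Agent.H16.TKA.M18
import Pool.Agent.H16.TKA.M26

/-! The parts of this file: H27.KAC.KH11, H27.KAC.KH10, H41.KA.AG12b, H88.KA.CN1, H88.KA.CN8, H10.KAC.Sign. -/

section

/-!
KAC module KH11: the growth function and restriction to a subset `S` of the vertices containing the support.

PROOF.  Feasible multipartitions of `y` vanish outside `S` (mass); restriction to `S` and extension by zero are inverse
bijections which preserve `cR` at the vertices of `S` (`Finset.sum_coe_sort`), hence the vacancy numbers at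
`S`, and the entropy (`ent P 0 = 0` outside `S`); for a vertex `i ∉ S` the vacancy numbers are sums of nonnegative terms
`min k l * a i j * m l j`.
-/

set_option autoImplicit false

namespace Pool.Agent.H27.KAC

open scoped BigOperators

variable {I : Type} [Fintype I] [DecidableEq I]

theorem KH11_cart (a : I → I → ℕ) (S : Finset I) (i j : {i // i ∈ S}) :
    cart (fun i j : {i // i ∈ S} => a i j) i j = cart a i j := by
  unfold cart
  by_cases h : i = j
  · subst h
    rw [if_pos rfl, if_pos rfl]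
  · have h' : (i : I) ≠ (j : I) := fun h' => h (Subtype.ext h')
    rw [if_neg h, if_neg h']

omit [DecidableEq I] in
theorem KH11_sum (S : Finset I) (f : I → ℝ) (hf : ∀ i, i ∉ S → f i = 0) :
    ∑ i : {i // i ∈ S}, f i = ∑ i, f i := by
  rw [Finset.sum_coe_sort S f]
  exact Finset.sum_subset (Finset.subset_univ S) fun i _ hi => hf i hi

theorem KH11_cR (a : I → I → ℕ) (S : Finset I) (x : I → ℝ) (hx : ∀ i, i ∉ S → x i = 0)
    (i : {i // i ∈ S}) :
    cR (fun i j : {i // i ∈ S} => a i j) (fun j => x j) i = cR a x i := by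
  unfold cR
  rw [← KH11_sum S (fun j => (cart a i j : ℝ) * x j) (fun j hj => by simp [hx j hj])]
  exact Finset.sum_congr rfl fun j _ => by rw [KH11_cart]

theorem KH11_vac (a : I → I → ℕ) (S : Finset I) (K : ℕ) (m : ℕ → I → ℝ)
    (hm : ∀ l ∈ Finset.Icc 1 K, ∀ i, i ∉ S → m l i = 0) (k : ℕ) (i : {i // i ∈ S}) :
    vacR (fun i j : {i // i ∈ S} => a i j) K (fun l j => m l j) k i = vacR a K m k i := by
  unfold vacR
  exact Finset.sum_congr rfl fun l hl => by rw [KH11_cR a S (m l) (hm l hl) i]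

theorem KH11_ent (a : I → I → ℕ) (S : Finset I) (K : ℕ) (m : ℕ → I → ℝ)
    (hm : ∀ l ∈ Finset.Icc 1 K, ∀ i, i ∉ S → m l i = 0) :
    EntR (fun i j : {i // i ∈ S} => a i j) K (fun l j => m l j) = EntR a K m := by
  unfold EntR
  refine Finset.sum_congr rfl fun k hk => ?_
  rw [← KH11_sum S (fun i => ent (vacR a K m k i) (m k i))
    (fun i hi => by rw [hm k hk i hi, ent_zero_right])]
  exact Finset.sum_congr rfl fun i _ => by rw [KH11_vac a S K m hm k i]

theorem KH11_feas (a : I → I → ℕ) (S : Finset I) (K : ℕ) (m : ℕ → I → ℝ) (y : I → ℝ)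
    (hS : ∀ i, i ∉ S → y i = 0)
    (hm : ∀ l ∈ Finset.Icc 1 K, ∀ i, i ∉ S → m l i = 0)
    (hnn : ∀ l i, i ∉ S → 0 ≤ m l i) (hout : ∀ l i, i ∉ S → K < l → m l i = 0) :
    Feas (fun i j : {i // i ∈ S} => a i j) K (fun l j => m l j) (fun i => y i) ↔
      Feas a K m y := by
  constructor
  · intro h
    have hnn' : ∀ l i, 0 ≤ m l i := by
      intro l i
      by_cases hi : i ∈ S
      · exact h.nn l ⟨i, hi⟩
      · exact hnn l i hi
    refine ⟨hnn', ?_, ?_, ?_⟩
    · intro l i hl
      by_cases hi : i ∈ S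
      · exact h.out l ⟨i, hi⟩ hl
      · exact hout l i hi hl
    · intro i
      by_cases hi : i ∈ S
      · exact h.mass ⟨i, hi⟩
      · rw [hS i hi]
        exact Finset.sum_eq_zero fun l hl => by rw [hm l hl i hi, mul_zero]
    · intro k i
      by_cases hi : i ∈ S
      · have := h.vac k ⟨i, hi⟩
        rwa [KH11_vac a S K m hm k ⟨i, hi⟩] at this
      · refine Finset.sum_nonneg fun l hl => ?_
        exact mul_nonneg (Nat.cast_nonneg _)
          (neg_nonneg.2 (cR_nonpos_of_zero a (m l) (fun j => hnn' l j) i (hm l hl i hi)))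
  · intro h
    refine ⟨fun l i => h.nn l i, fun l i hl => h.out l i hl, fun i => h.mass i, ?_⟩
    intro k i
    rw [KH11_vac a S K m hm k i]
    exact h.vac k i

theorem KH11_zero (a : I → I → ℕ) (S : Finset I) (K : ℕ) (m : ℕ → I → ℝ) (y : I → ℝ)
    (hS : ∀ i, i ∉ S → y i = 0) (h : Feas a K m y) :
    ∀ l ∈ Finset.Icc 1 K, ∀ i, i ∉ S → m l i = 0 := by
  intro l hl i hi
  have h1 : ∑ l ∈ Finset.Icc 1 K, (l : ℝ) * m l i = 0 := by
    have := h.mass i
    rw [hS i hi] at this
    exact this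
  have h2 := (Finset.sum_eq_zero_iff_of_nonneg
    (fun l _ => mul_nonneg (Nat.cast_nonneg l) (h.nn l i))).1 h1 l hl
  rcases mul_eq_zero.1 h2 with h3 | h3
  · have : 1 ≤ l := (Finset.mem_Icc.1 hl).1
    have h4 : l = 0 := by exact_mod_cast h3
    omega
  · exact h3

theorem PhiR_restrict (a : I → I → ℕ) (S : Finset I) (y : I → ℝ) (hS : ∀ i, i ∉ S → y i = 0) :
    PhiR (fun i j : {i // i ∈ S} => a i j) (fun i => y i) = PhiR a y := by
  unfold PhiR
  congr 1
  ext x
  constructor
  · rintro ⟨K, m', h, rfl⟩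
    have hm' : m' = fun l (j : {i // i ∈ S}) =>
        (fun (l : ℕ) (i : I) => if hi : i ∈ S then m' l ⟨i, hi⟩ else 0) l j := by
      funext l j
      simp [j.2]
    have hm : ∀ l ∈ Finset.Icc 1 K, ∀ i, i ∉ S →
        (fun (l : ℕ) (i : I) => if hi : i ∈ S then m' l ⟨i, hi⟩ else 0) l i = 0 := by
      intro l _ i hi
      simp [hi]
    refine ⟨K, fun l i => if hi : i ∈ S then m' l ⟨i, hi⟩ else 0, ?_, ?_⟩
    · refine (KH11_feas a S K _ y hS hm ?_ ?_).1 ?_
      · intro l i hi
        simp [hi]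
      · intro l i hi _
        simp [hi]
      · rw [← hm']
        exact h
    · rw [← KH11_ent a S K _ hm, ← hm']
  · rintro ⟨K, m, h, rfl⟩
    have hm := KH11_zero a S K m y hS h
    exact ⟨K, fun l j => m l j, (KH11_feas a S K m y hS hm (fun l i _ => h.nn l i)
      (fun l i _ hl => h.out l i hl)).2 h, (KH11_ent a S K m hm).symm⟩

end Pool.Agent.H27.KAC

end

section

/-!
KAC module KH10: `PhiR a α ≤ hsup a α` for ample `α`.

PROOF.  By `PhiR_le` let `m` be feasible for `α` with parts at most `K`; `K ≥ 2` by `Feas.enlarge`, `EntR_enlarge`.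
(1) There is a strictly feasible real `m0` with parts at most `K`: `m0` feasible for `α`, `m0 1 i > 0`, `vacR a K m0 k i > 0` for
`1 ≤ k < K` (take `mAt m / n` of an admissible multipartition from `Adm_exists`).  `mη = (1-η) m + η m0` is strictly feasible and
its entropy is `≥ (1-η) EntR a K m` (`Feas.add`, `Feas.smul`, `EntR_add`).
(2) Integer approximation: for large `n` put `M l i = ⌊n * mη l i⌋₊` for `2 ≤ l ≤ K` and `M 1 i = n * α i - ∑_(2 ≤ l ≤ K) l * M l i`.  Then
`M l i / n → mη l i`, the vacancy numbers divided by `n` converge to those of `mη`, so for large `n` the multipartition `M` is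
admissible (`Adm`) for `n • α` (integers `> 0` are `≥ 1`), and `log EW ≥ ∑ (ent (P) (M) - log (P + M + 1))`
(`ent_le_log_choose`), `hsup ≥ log EW / n ≥ ∑ ent (P/n) (M/n) - K |I| log (c n + 1) / n → EntR a K mη`
(`ent_smul`, `ent_continuous`, `hsup_bdd`, `le_csSup`).
-/

set_option autoImplicit false

namespace Pool.Agent.H27.KAC

open scoped BigOperators
open Filter Topology

variable {I : Type} [Fintype I] [DecidableEq I]

theorem KH10_sum_Icc (g : ℕ → ℕ) : ∀ K : ℕ,
    ∑ l ∈ Finset.Icc 1 K, g l = ∑ l : Fin K, g ((l : ℕ) + 1)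
  | 0 => by simp
  | K + 1 => by
    rw [Finset.sum_Icc_succ_top (by omega), Fin.sum_univ_castSucc, KH10_sum_Icc g K]
    simp

theorem KH10_mem {K : ℕ} (β : I → ℕ) (m : Fin K → I → ℕ)
    (h : ∀ i, ∑ k : Fin K, ((k : ℕ) + 1) * m k i = β i) : m ∈ Mset K β := by
  unfold Mset
  rw [Finset.mem_filter]
  refine ⟨?_, h⟩
  rw [Fintype.mem_piFinset]
  intro k
  rw [Fintype.mem_piFinset]
  intro i
  rw [Finset.mem_range, Nat.lt_succ_iff, ← h i]
  calc m k i ≤ ((k : ℕ) + 1) * m k i := Nat.le_mul_of_pos_left _ (Nat.succ_pos _)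
    _ ≤ _ := Finset.single_le_sum (f := fun k : Fin K => ((k : ℕ) + 1) * m k i)
        (fun _ _ => Nat.zero_le _) (Finset.mem_univ k)

theorem KH10_ent_tendsto {f g : ℕ → ℝ} {x y : ℝ} (hf : Tendsto f atTop (𝓝 x))
    (hg : Tendsto g atTop (𝓝 y)) : Tendsto (fun n => ent (f n) (g n)) atTop (𝓝 (ent x y)) :=
  (ent_continuous.tendsto (x, y)).comp (hf.prodMk_nhds hg)

/-- the integer approximation. -/
noncomputable def KH10_M (K : ℕ) (w : ℕ → I → ℝ) (α : I → ℕ) (n : ℕ) (l : ℕ) (i : I) : ℕ :=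
  if l = 1 then n * α i - ∑ l' ∈ Finset.Icc 2 K, l' * ⌊w l' i * n⌋₊ else ⌊w l i * n⌋₊

/-- the same as a function on `Fin K`. -/
noncomputable def KH10_F (K : ℕ) (w : ℕ → I → ℝ) (α : I → ℕ) (n : ℕ) (k : Fin K) (i : I) : ℕ :=
  KH10_M K w α n ((k : ℕ) + 1) i

theorem KH10_mAt (K : ℕ) (w : ℕ → I → ℝ) (α : I → ℕ) (n : ℕ) (l : ℕ) (h1 : 1 ≤ l) (h2 : l ≤ K)
    (i : I) : mAt (KH10_F K w α n) l i = KH10_M K w α n l i := by
  unfold mAt KH10_F
  rw [dif_pos ⟨h1, h2⟩]
  congr 1
  show l - 1 + 1 = l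
  omega

theorem KH10_split (K : ℕ) (hK : 1 ≤ K) (g : ℕ → ℝ) :
    ∑ l ∈ Finset.Icc 1 K, g l = g 1 + ∑ l ∈ Finset.Icc 2 K, g l := by
  have : Finset.Icc 1 K = insert 1 (Finset.Icc 2 K) := by
    ext x
    simp only [Finset.mem_Icc, Finset.mem_insert]
    omega
  rw [this, Finset.sum_insert (by simp)]

theorem KH10_splitN (K : ℕ) (hK : 1 ≤ K) (g : ℕ → ℕ) :
    ∑ l ∈ Finset.Icc 1 K, g l = g 1 + ∑ l ∈ Finset.Icc 2 K, g l := by
  have : Finset.Icc 1 K = insert 1 (Finset.Icc 2 K) := by
    ext x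
    simp only [Finset.mem_Icc, Finset.mem_insert]
    omega
  rw [this, Finset.sum_insert (by simp)]

theorem KH10_R_le (K : ℕ) (hK : 1 ≤ K) (w : ℕ → I → ℝ) (α : I → ℕ) (hw : ∀ l i, 0 ≤ w l i)
    (hm : ∀ i, massR K w i = α i) (n : ℕ) (i : I) :
    ∑ l' ∈ Finset.Icc 2 K, l' * ⌊w l' i * n⌋₊ ≤ n * α i := by
  have h1 : ((∑ l' ∈ Finset.Icc 2 K, l' * ⌊w l' i * n⌋₊ : ℕ) : ℝ) ≤ ((n * α i : ℕ) : ℝ) := by
    push_cast
    rw [← hm i]
    unfold massR
    rw [KH10_split K hK, mul_add, Finset.mul_sum]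
    have h2 : 0 ≤ (n : ℝ) * (((1 : ℕ) : ℝ) * w 1 i) := by
      have := hw 1 i
      positivity
    refine le_trans ?_ (le_add_of_nonneg_left h2)
    refine Finset.sum_le_sum fun l _ => ?_
    have h3 := Nat.floor_le (mul_nonneg (hw l i) (Nat.cast_nonneg n))
    calc (l : ℝ) * (⌊w l i * n⌋₊ : ℝ) ≤ l * (w l i * n) :=
          mul_le_mul_of_nonneg_left h3 (Nat.cast_nonneg _)
      _ = n * (l * w l i) := by ring
  exact_mod_cast h1

theorem KH10_mass (K : ℕ) (hK : 1 ≤ K) (w : ℕ → I → ℝ) (α : I → ℕ) (hw : ∀ l i, 0 ≤ w l i)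
    (hm : ∀ i, massR K w i = α i) (n : ℕ) :
    KH10_F K w α n ∈ Mset K (fun i => n * α i) := by
  refine KH10_mem _ _ fun i => ?_
  unfold KH10_F
  rw [← KH10_sum_Icc (fun l => l * KH10_M K w α n l i) K, KH10_splitN K hK]
  have h1 : ∑ l ∈ Finset.Icc 2 K, l * KH10_M K w α n l i =
      ∑ l' ∈ Finset.Icc 2 K, l' * ⌊w l' i * n⌋₊ := by
    refine Finset.sum_congr rfl fun l hl => ?_
    have : l ≠ 1 := by
      rw [Finset.mem_Icc] at hl
      omega
    unfold KH10_M
    rw [if_neg this]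
  rw [h1]
  have h2 := KH10_R_le K hK w α hw hm n i
  unfold KH10_M
  rw [if_pos rfl]
  omega

theorem KH10_tendsto (K : ℕ) (hK : 1 ≤ K) (w : ℕ → I → ℝ) (α : I → ℕ) (hw : ∀ l i, 0 ≤ w l i)
    (hm : ∀ i, massR K w i = α i) (l : ℕ) (h1 : 1 ≤ l) (h2 : l ≤ K) (i : I) :
    Tendsto (fun n : ℕ => (n : ℝ)⁻¹ * (mAt (KH10_F K w α n) l i : ℝ)) atTop (𝓝 (w l i)) := by
  have hfl : ∀ l, Tendsto (fun n : ℕ => (n : ℝ)⁻¹ * (⌊w l i * n⌋₊ : ℝ)) atTop (𝓝 (w l i)) := by
    intro l
    have := (tendsto_nat_floor_mul_div_atTop (R := ℝ) (hw l i)).comp tendsto_natCast_atTop_atTop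
    refine this.congr fun n => ?_
    simp only [Function.comp]
    rw [div_eq_inv_mul]
  by_cases hl : l = 1
  · subst hl
    have h3 : Tendsto (fun n : ℕ => (α i : ℝ) - ∑ l' ∈ Finset.Icc 2 K,
        (l' : ℝ) * ((n : ℝ)⁻¹ * (⌊w l' i * n⌋₊ : ℝ))) atTop
        (𝓝 ((α i : ℝ) - ∑ l' ∈ Finset.Icc 2 K, (l' : ℝ) * w l' i)) :=
      tendsto_const_nhds.sub (tendsto_finsetSum _ fun l' _ => (hfl l').const_mul _)
    have h4 : (α i : ℝ) - ∑ l' ∈ Finset.Icc 2 K, (l' : ℝ) * w l' i = w 1 i := by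
      rw [← hm i]
      unfold massR
      rw [KH10_split K hK]
      push_cast
      ring
    rw [h4] at h3
    refine h3.congr' ?_
    filter_upwards [eventually_ge_atTop 1] with n hn
    have hn' : (0 : ℝ) < n := by exact_mod_cast hn
    rw [KH10_mAt K w α n 1 h1 h2]
    unfold KH10_M
    rw [if_pos rfl, Nat.cast_sub (KH10_R_le K hK w α hw hm n i)]
    push_cast
    rw [mul_sub, Finset.mul_sum]
    congr 1
    · field_simp
    · refine Finset.sum_congr rfl fun l' _ => ?_
      ring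
  · refine (hfl l).congr fun n => ?_
    rw [KH10_mAt K w α n l h1 h2]
    unfold KH10_M
    rw [if_neg hl]

theorem KH10_vac_tendsto (a : I → I → ℕ) (K : ℕ) (hK : 1 ≤ K) (w : ℕ → I → ℝ) (α : I → ℕ)
    (hw : ∀ l i, 0 ≤ w l i) (hm : ∀ i, massR K w i = α i) (k : ℕ) (i : I) :
    Tendsto (fun n : ℕ => (n : ℝ)⁻¹ * (PLF a (KH10_F K w α n) k i : ℝ)) atTop
      (𝓝 (vacR a K w k i)) := by
  have h : Tendsto (fun n : ℕ =>
      vacR a K (fun l j => (n : ℝ)⁻¹ * (mAt (KH10_F K w α n) l j : ℝ)) k i) atTop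
      (𝓝 (vacR a K w k i)) := by
    unfold vacR cR
    refine tendsto_finsetSum _ fun l hl => ?_
    rw [Finset.mem_Icc] at hl
    refine Tendsto.const_mul _ (Tendsto.neg ?_)
    refine tendsto_finsetSum _ fun j _ => ?_
    exact (KH10_tendsto K hK w α hw hm l hl.1 hl.2 j).const_mul _
  refine h.congr fun n => ?_
  rw [KH9_vac]

end Pool.Agent.H27.KAC

end

section

/-!
KAC ADE, module AG12b: integrality of the support of the response numbers.

Strong induction on `A.card + g` with `cn_rec`: some `M` has `∏_N upw N q g ≠ 0`; for `N` a component of `A \ M`: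
`mm N ≤ g`, `cn N q (g - mm N) ≠ 0`, so `(g - mm N) q` is integral on `N` (induction; `C_N q` is integral because `q` is integral on
`M`) and `mm N * q` is integral on `N` (`cd.integral`).
-/

set_option autoImplicit false

namespace Pool.Agent.H27.KAC

open scoped BigOperators

section

variable {I : Type} [Fintype I] [DecidableEq I]

theorem AG12b_zadd {p q : ℚ} (hp : IsZ p) (hq : IsZ q) : IsZ (p + q) := by
  obtain ⟨m, rfl⟩ := hp
  obtain ⟨n, rfl⟩ := hq
  exact ⟨m + n, by push_cast; ring⟩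

theorem AG12b_zsub {p q : ℚ} (hp : IsZ p) (hq : IsZ q) : IsZ (p - q) := by
  obtain ⟨m, rfl⟩ := hp
  obtain ⟨n, rfl⟩ := hq
  exact ⟨m - n, by push_cast; ring⟩

theorem AG12b_zmul (m : ℤ) {q : ℚ} (hq : IsZ q) : IsZ ((m : ℚ) * q) := by
  obtain ⟨n, rfl⟩ := hq
  exact ⟨m * n, by push_cast; ring⟩

theorem AG12b_zsum {ι : Type} (s : Finset ι) (g : ι → ℚ) (h : ∀ i ∈ s, IsZ (g i)) :
    IsZ (∑ i ∈ s, g i) := by
  classical
  induction s using Finset.induction_on with
  | empty => exact ⟨0, by simp⟩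
  | insert i s hi ih =>
    rw [Finset.sum_insert hi]
    exact AG12b_zadd (h i (Finset.mem_insert_self i s))
      (ih fun j hj => h j (Finset.mem_insert_of_mem hj))

/-- the reduction from `upw` to `cn`. -/
theorem AG12b_up (a : I → I → ℕ) (cd : CrossData a) (A : Finset I)
    (hA : FinT a A) (hc : ConnS a A) (q : I → ℚ) (hq : ∀ x ∈ A, IsZ (cqN a A q x)) (g : ℕ)
    (ih : ∀ g' : ℕ, cd.mm A ≤ g → g' = g - cd.mm A → cn a cd A q g' ≠ 0 →
      ∀ x ∈ A, IsZ ((g' : ℚ) * q x))
    (h : upw a cd A q g ≠ 0) : ∀ x ∈ A, IsZ ((g : ℚ) * q x) := by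
  intro x hx
  unfold upw at h
  by_cases hm : cd.mm A ≤ g
  · rw [if_pos hm] at h
    have h1 := ih _ hm rfl (right_ne_zero_of_mul h) x hx
    have h2 := cd.integral A q hA hc hq x hx
    have e : (g : ℚ) * q x = ((g - cd.mm A : ℕ) : ℚ) * q x + (cd.mm A : ℚ) * q x := by
      rw [Nat.cast_sub hm]
      ring
    rw [e]
    exact AG12b_zadd h1 h2
  · rw [if_neg hm] at h
    exact absurd rfl h

/-- restriction of the integrality condition to a component. -/
theorem AG12b_comp (a : I → I → ℕ) {A M N : Finset I} (hM : M ⊆ A)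
    {q : I → ℚ} (hqM : ∀ x ∈ M, IsZ (q x)) (hN : N ∈ comps a (A \ M))
    (hq : ∀ x ∈ A, IsZ (cqN a A q x)) : ∀ y ∈ N, IsZ (cqN a N q y) := by
  intro y hy
  have hNA : N ⊆ A := (comps_subset hN).trans Finset.sdiff_subset
  have e : cqN a N q y = cqN a A q y - ∑ j ∈ A \ N, (cart a y j : ℚ) * q j := by
    unfold cqN
    rw [← Finset.sum_sdiff hNA]
    ring
  rw [e]
  refine AG12b_zsub (hq y (hNA hy)) (AG12b_zsum _ _ fun j hj => ?_)
  rw [Finset.mem_sdiff] at hj
  by_cases hjM : j ∈ M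
  · exact AG12b_zmul _ (hqM j hjM)
  · have h0 := comps_sep hN y hy j (Finset.mem_sdiff.2 ⟨hj.1, hjM⟩) hj.2
    have hne : y ≠ j := fun h => hj.2 (h ▸ hy)
    have hcart : cart a y j = 0 := by
      unfold cart
      rw [if_neg hne, h0]
      rfl
    rw [hcart]
    exact ⟨0, by simp⟩

theorem cn_wint (a : I → I → ℕ) (hs : ∀ i j, a i j = a j i) (cd : CrossData a) (A : Finset I)
    (hA : FinT a A) (hc : ConnS a A) (q : I → ℚ) (hq : ∀ x ∈ A, IsZ (cqN a A q x)) (g : ℕ)
    (h : cn a cd A q g ≠ 0) : ∀ x ∈ A, IsZ ((g : ℚ) * q x) := by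
  classical
  induction g using Nat.strong_induction_on generalizing A with
  | _ g ih =>
    rcases Nat.eq_zero_or_pos g with h0 | h1
    · intro x _
      rw [h0]
      exact ⟨0, by simp⟩
    · rw [cn_rec a cd A q g h1] at h
      obtain ⟨M, hM, hne⟩ := Finset.exists_ne_zero_of_sum_ne_zero h
      rw [Finset.mem_filter, Finset.mem_powerset] at hM
      obtain ⟨hMA, hqM⟩ := hM
      have hprod := right_ne_zero_of_mul hne
      rw [Finset.prod_ne_zero_iff] at hprod
      intro x hx
      by_cases hxM : x ∈ M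
      · have e : (g : ℚ) * q x = ((g : ℤ) : ℚ) * q x := by push_cast; ring
        rw [e]
        exact AG12b_zmul _ (hqM x hxM)
      · obtain ⟨N, hN, hxN⟩ := comps_cover hs x (Finset.mem_sdiff.2 ⟨hx, hxM⟩)
        have hNA : N ⊆ A := (comps_subset hN).trans Finset.sdiff_subset
        refine AG12b_up a cd N (hA.mono hNA) (comps_conn hN) q
          (AG12b_comp a hMA hqM hN hq) g ?_ (hprod N hN) x hxN
        intro g' hm hg' hcn
        have h2 := cd.two_le N
        exact ih g' (by omega) N (hA.mono hNA) (comps_conn hN) (AG12b_comp a hMA hqM hN hq) hcn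

end

end Pool.Agent.H27.KAC

end

section

/-!
KAC ADE numbers, CN1: polynomial growth of the response numbers.

Strong induction on `A.card`, using `cn_rec`.  In the sum over `M` the term `M = ∅` is `± cn A q (g - mm A)` (or zero), since
`comps a A = {A}` (`comps_of_conn`) and `detEff a A ∅` is the determinant of an empty matrix.  All terms with `M ≠ ∅` are
bounded by a polynomial in `g` by induction (components of `A \ M` are connected and have smaller cardinality).
So `|c(g)| ≤ |c(g - m)| + K (g+1)^D`, `m ≥ 2`, hence `|c(g)| ≤ 1 + K (g+1)^(D+1)`.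
-/

set_option autoImplicit false

namespace Pool.H88.Num

open scoped BigOperators
open Pool.Agent.H27.KAC

section

variable {I : Type} [Fintype I] [DecidableEq I]

/-- polynomially bounded. -/
private def CN1_PB (f : ℕ → ℚ) : Prop := ∃ K D : ℕ, ∀ g : ℕ, |f g| ≤ K * ((g : ℚ) + 1) ^ D

private theorem CN1_const (c : ℚ) : CN1_PB (fun _ => c) := by
  obtain ⟨K, hK⟩ := exists_nat_ge |c|
  exact ⟨K, 0, fun g => by simpa using hK⟩

private theorem CN1_add {f h : ℕ → ℚ} (hf : CN1_PB f) (hh : CN1_PB h) :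
    CN1_PB (fun g => f g + h g) := by
  obtain ⟨K, D, h1⟩ := hf
  obtain ⟨K', D', h2⟩ := hh
  refine ⟨K + K', D + D', fun g => ?_⟩
  have hg : (1 : ℚ) ≤ (g : ℚ) + 1 := by
    have : (0 : ℚ) ≤ (g : ℚ) := Nat.cast_nonneg _
    linarith
  have e1 : ((g : ℚ) + 1) ^ D ≤ ((g : ℚ) + 1) ^ (D + D') :=
    pow_le_pow_right₀ hg (Nat.le_add_right _ _)
  have e2 : ((g : ℚ) + 1) ^ D' ≤ ((g : ℚ) + 1) ^ (D + D') :=
    pow_le_pow_right₀ hg (Nat.le_add_left _ _)
  have e3 : (K : ℚ) * ((g : ℚ) + 1) ^ D ≤ K * ((g : ℚ) + 1) ^ (D + D') :=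
    mul_le_mul_of_nonneg_left e1 (Nat.cast_nonneg _)
  have e4 : (K' : ℚ) * ((g : ℚ) + 1) ^ D' ≤ K' * ((g : ℚ) + 1) ^ (D + D') :=
    mul_le_mul_of_nonneg_left e2 (Nat.cast_nonneg _)
  push_cast
  calc |f g + h g| ≤ |f g| + |h g| := abs_add_le _ _
    _ ≤ K * ((g : ℚ) + 1) ^ D + K' * ((g : ℚ) + 1) ^ D' := add_le_add (h1 g) (h2 g)
    _ ≤ K * ((g : ℚ) + 1) ^ (D + D') + K' * ((g : ℚ) + 1) ^ (D + D') := add_le_add e3 e4
    _ = _ := by ring

private theorem CN1_mul {f h : ℕ → ℚ} (hf : CN1_PB f) (hh : CN1_PB h) :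
    CN1_PB (fun g => f g * h g) := by
  obtain ⟨K, D, h1⟩ := hf
  obtain ⟨K', D', h2⟩ := hh
  refine ⟨K * K', D + D', fun g => ?_⟩
  have hg : (0 : ℚ) ≤ (g : ℚ) + 1 := by positivity
  push_cast
  rw [abs_mul]
  calc |f g| * |h g| ≤ (K * ((g : ℚ) + 1) ^ D) * (K' * ((g : ℚ) + 1) ^ D') :=
        mul_le_mul (h1 g) (h2 g) (abs_nonneg _) (by positivity)
    _ = _ := by rw [pow_add]; ring

private theorem CN1_sum {ι : Type} (s : Finset ι) (F : ι → ℕ → ℚ)
    (h : ∀ i ∈ s, CN1_PB (F i)) : CN1_PB (fun g => ∑ i ∈ s, F i g) := by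
  classical
  induction s using Finset.induction_on with
  | empty => simpa using CN1_const 0
  | insert i s hi ih =>
    have := CN1_add (h i (Finset.mem_insert_self i s))
      (ih fun j hj => h j (Finset.mem_insert_of_mem hj))
    refine this.imp fun K hK => hK.imp fun D hD => fun g => ?_
    show |∑ i ∈ insert i s, F i g| ≤ _
    rw [Finset.sum_insert hi]
    exact hD g

private theorem CN1_prod {ι : Type} (s : Finset ι) (F : ι → ℕ → ℚ)
    (h : ∀ i ∈ s, CN1_PB (F i)) : CN1_PB (fun g => ∏ i ∈ s, F i g) := by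
  classical
  induction s using Finset.induction_on with
  | empty => simpa using CN1_const 1
  | insert i s hi ih =>
    have := CN1_mul (h i (Finset.mem_insert_self i s))
      (ih fun j hj => h j (Finset.mem_insert_of_mem hj))
    refine this.imp fun K hK => hK.imp fun D hD => fun g => ?_
    show |∏ i ∈ insert i s, F i g| ≤ _
    rw [Finset.prod_insert hi]
    exact hD g

private theorem CN1_pow (n : ℕ) : CN1_PB (fun g => (g : ℚ) ^ n) := by
  refine ⟨1, n, fun g => ?_⟩
  have hg : (0 : ℚ) ≤ (g : ℚ) := Nat.cast_nonneg _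
  rw [abs_of_nonneg (by positivity), Nat.cast_one, one_mul]
  exact pow_le_pow_left₀ hg (by linarith) n

private theorem CN1_epsabs (a : I → I → ℕ) (cd : CrossData a) (A : Finset I) (q : I → ℚ) :
    |cd.eps A q| = 1 := by
  rcases cd.eps_sq A q with h | h <;> rw [h] <;> simp

private theorem CN1_upw (a : I → I → ℕ) (cd : CrossData a) (A : Finset I) (q : I → ℚ)
    (h : CN1_PB (cn a cd A q)) : CN1_PB (upw a cd A q) := by
  obtain ⟨K, D, h1⟩ := h
  refine ⟨K, D, fun g => ?_⟩
  unfold upw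
  by_cases hm : cd.mm A ≤ g
  · rw [if_pos hm, abs_mul, CN1_epsabs, one_mul]
    refine (h1 _).trans ?_
    refine mul_le_mul_of_nonneg_left ?_ (Nat.cast_nonneg _)
    refine pow_le_pow_left₀ (by positivity) ?_ D
    have : ((g - cd.mm A : ℕ) : ℚ) ≤ (g : ℚ) := by exact_mod_cast Nat.sub_le _ _
    linarith
  · rw [if_neg hm, abs_zero]
    positivity

private theorem CN1_main (a : I → I → ℕ) (cd : CrossData a) (q : I → ℚ) (n : ℕ) :
    ∀ A : Finset I, A.card ≤ n → ConnS a A → CN1_PB (cn a cd A q) := by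
  classical
  induction n with
  | zero =>
    intro A hA hc
    obtain ⟨x, hx⟩ := hc.1
    have := Finset.card_pos.2 ⟨x, hx⟩
    omega
  | succ n ih =>
    intro A hA hc
    -- the rest of the sum
    have hrest : CN1_PB (fun g => ∑ M ∈ ((A.powerset.filter (fun M => ∀ x ∈ M, IsZ (q x))).erase ∅),
        (-1 : ℚ) ^ (A \ M).card * detEff a (A \ M) M * (g : ℚ) ^ M.card *
          ∏ N ∈ comps a (A \ M), upw a cd N q g) := by
      refine CN1_sum _ (fun M g => (-1 : ℚ) ^ (A \ M).card * detEff a (A \ M) M * (g : ℚ) ^ M.card *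
          ∏ N ∈ comps a (A \ M), upw a cd N q g) (fun M hM => ?_)
      rw [Finset.mem_erase, Finset.mem_filter, Finset.mem_powerset] at hM
      refine CN1_mul (f := fun g : ℕ => (-1 : ℚ) ^ (A \ M).card * detEff a (A \ M) M * (g : ℚ) ^ M.card)
        (h := fun g => ∏ N ∈ comps a (A \ M), upw a cd N q g)
        (CN1_mul (f := fun _ => (-1 : ℚ) ^ (A \ M).card * detEff a (A \ M) M)
          (h := fun g : ℕ => (g : ℚ) ^ M.card) (CN1_const _) (CN1_pow _)) ?_
      refine CN1_prod _ (fun N g => upw a cd N q g) (fun N hN => ?_)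
      refine CN1_upw a cd N q (ih N ?_ (comps_conn hN))
      have h1 : N ⊆ A \ M := comps_subset hN
      have h2 : (A \ M).card < A.card := by
        refine Finset.card_lt_card ⟨Finset.sdiff_subset, fun hs => ?_⟩
        obtain ⟨x, hx⟩ := Finset.nonempty_iff_ne_empty.2 hM.1
        exact (Finset.mem_sdiff.1 (hs (hM.2.1 hx))).2 hx
      have h3 := Finset.card_le_card h1
      omega
    obtain ⟨K, D, hK⟩ := hrest
    have hstep : ∀ g : ℕ, 1 ≤ g → |cn a cd A q g| ≤
        (if cd.mm A ≤ g then |cn a cd A q (g - cd.mm A)| else 0) + K * ((g : ℚ) + 1) ^ D := by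
      intro g hg
      have hmem : (∅ : Finset I) ∈ A.powerset.filter (fun M => ∀ x ∈ M, IsZ (q x)) := by
        rw [Finset.mem_filter, Finset.mem_powerset]
        exact ⟨Finset.empty_subset _, fun x hx => absurd hx (Finset.notMem_empty x)⟩
      rw [cn_rec a cd A q g hg, ← Finset.add_sum_erase _ _ hmem]
      refine (abs_add_le _ _).trans (add_le_add ?_ (hK g))
      have hdet : detEff a (A \ ∅) ∅ = 1 := by
        unfold detEff
        have : IsEmpty {x // x ∈ (∅ : Finset I)} := ⟨fun x => absurd x.2 (Finset.notMem_empty x.1)⟩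
        exact Matrix.det_isEmpty
      rw [hdet, Finset.sdiff_empty, comps_of_conn hc, Finset.prod_singleton, Finset.card_empty,
        pow_zero, mul_one, mul_one, abs_mul, abs_pow, abs_neg, abs_one, one_pow, one_mul]
      unfold upw
      by_cases hm : cd.mm A ≤ g
      · rw [if_pos hm, if_pos hm, abs_mul, CN1_epsabs, one_mul]
      · rw [if_neg hm, if_neg hm, abs_zero]
    refine ⟨K + 1, D + 1, fun g => ?_⟩
    induction g using Nat.strong_induction_on with
    | _ g ihg =>
      have hK0 : (0 : ℚ) ≤ (K : ℚ) := Nat.cast_nonneg _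
      have hg0 : (0 : ℚ) ≤ (g : ℚ) := Nat.cast_nonneg _
      push_cast
      rcases Nat.eq_zero_or_pos g with rfl | hg
      · rw [cn_zero]
        norm_num
      · have h1 := hstep g hg
        have hP : (0 : ℚ) ≤ ((g : ℚ) + 1) ^ D := by positivity
        by_cases hm : cd.mm A ≤ g
        · rw [if_pos hm] at h1
          have h2 := cd.two_le A
          have h3 := ihg (g - cd.mm A) (by omega)
          have h4 : ((g - cd.mm A : ℕ) : ℚ) + 1 ≤ (g : ℚ) := by
            have : g - cd.mm A + 1 ≤ g := by omega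
            exact_mod_cast this
          have h5 : (((g - cd.mm A : ℕ) : ℚ) + 1) ^ (D + 1) ≤ (g : ℚ) ^ (D + 1) :=
            pow_le_pow_left₀ (by positivity) h4 _
          have h6 : (g : ℚ) ^ (D + 1) ≤ ((g : ℚ) + 1) ^ D * g := by
            rw [pow_succ]
            exact mul_le_mul_of_nonneg_right (pow_le_pow_left₀ hg0 (by linarith) D) hg0
          push_cast at h3
          have h7 : ((K : ℚ) + 1) * (((g - cd.mm A : ℕ) : ℚ) + 1) ^ (D + 1)
              ≤ ((K : ℚ) + 1) * (((g : ℚ) + 1) ^ D * g) :=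
            mul_le_mul_of_nonneg_left (h5.trans h6) (by linarith)
          rw [pow_succ]
          nlinarith [h1, h3, h7, hP]
        · rw [if_neg hm, zero_add] at h1
          rw [pow_succ]
          have h8 : ((g : ℚ) + 1) ^ D ≤ ((g : ℚ) + 1) ^ D * ((g : ℚ) + 1) := by
            nlinarith [mul_nonneg hP hg0]
          have h9 : (K : ℚ) * ((g : ℚ) + 1) ^ D ≤ K * (((g : ℚ) + 1) ^ D * ((g : ℚ) + 1)) :=
            mul_le_mul_of_nonneg_left h8 hK0
          have h10 : (0 : ℚ) ≤ ((g : ℚ) + 1) ^ D * ((g : ℚ) + 1) := by positivity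
          linarith

theorem cn_growth (a : I → I → ℕ) (cd : CrossData a) (A : Finset I) (q : I → ℚ)
    (hc : ConnS a A) : ∃ K D : ℕ, ∀ g : ℕ, |cn a cd A q g| ≤ K * ((g : ℚ) + 1) ^ D :=
  CN1_main a cd q A.card A le_rfl hc

end

end Pool.H88.Num

end

section

/-!
KAC ADE numbers, CN8: positivity of the response numbers under the numerical bound `mm A ≤ 2 r (e + 1)`.
-/

set_option autoImplicit false

namespace Pool.H88.Num

open scoped BigOperators
open Pool.Agent.H27.KAC
open Polynomial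

section

variable {I : Type} [Fintype I] [DecidableEq I]

/-- `r` is the order of `q` on `A`. -/
def OrdA (A : Finset I) (q : I → ℚ) (r : ℕ) : Prop :=
  1 ≤ r ∧ ∀ k : ℕ, (∀ x ∈ A, IsZ ((k : ℚ) * q x)) ↔ r ∣ k

/-- sums over multiples. -/
theorem sum_mult (r : ℕ) (hr : 1 ≤ r) (k : ℕ) (f : ℕ → ℚ) (h : ∀ i, ¬ r ∣ i → f i = 0) :
    ∑ i ∈ Finset.range (r * k + 1), f i = ∑ j ∈ Finset.range (k + 1), f (r * j) := by
  have h1 : ∑ j ∈ Finset.range (k + 1), f (r * j) =
      ∑ i ∈ (Finset.range (k + 1)).image (fun j => r * j), f i := by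
    rw [Finset.sum_image]
    intro x _ y _ hxy
    exact Nat.eq_of_mul_eq_mul_left hr hxy
  rw [h1]
  symm
  apply Finset.sum_subset
  · intro i hi
    rw [Finset.mem_image] at hi
    obtain ⟨j, hj, rfl⟩ := hi
    rw [Finset.mem_range] at hj ⊢
    have : r * j ≤ r * k := Nat.mul_le_mul_left r (by omega)
    omega
  · intro i hi hi'
    apply h
    rintro ⟨j, rfl⟩
    apply hi'
    rw [Finset.mem_image]
    refine ⟨j, ?_, rfl⟩
    rw [Finset.mem_range] at hi ⊢
    by_contra hc
    have : r * (k + 1) ≤ r * j := Nat.mul_le_mul_left r (by omega)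
    have h2 : r * (k + 1) = r * k + r := by ring
    omega

variable {a : I → I → ℕ} {cd : CrossData a}

open Classical in
theorem uniform_nonneg (hs : ∀ i j, a i j = a j i) {A : Finset I} {q : I → ℚ}
    (hA : FinT a A) (hc : ConnS a A) (hq : WtL a A q) {P : Polynomial ℚ} (hP : PolyOf a cd A q P)
    {r : ℕ} (hr : OrdA A q r)
    (hprim : ∀ N ∈ comps a (A \ A.filter (fun x => IsZ (q x))), ∀ g : ℕ,
      cn a cd N q g = if (∀ x ∈ N, IsZ ((g : ℚ) * q x)) then 1 else 0)
    (hb : cd.mm A ≤ 2 * (r * ((A.filter (fun x => IsZ (q x))).card + 1))) (g : ℕ) :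
    0 ≤ cn a cd A q g := by
  obtain ⟨J, hJ⟩ : ∃ J, J = A.filter (fun x => IsZ (q x)) := ⟨_, rfl⟩
  rw [← hJ] at hprim hb
  have hJA : J ⊆ A := by rw [hJ]; exact Finset.filter_subset _ _
  rcases Finset.eq_empty_or_nonempty J with hJe | hJne
  · -- no integral coordinates
    rw [hJe, Finset.sdiff_empty, comps_of_conn hc] at hprim
    rw [hprim A (Finset.mem_singleton_self A) g]
    split_ifs <;> norm_num
  have hsupp : ∀ k, ¬ r ∣ k → cn a cd A q k = 0 := by
    intro k hk
    by_contra hne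
    exact hk ((hr.2 k).1 (cn_wint a hs cd A hA hc q hq k hne))
  have hmul := hP.mul
  have hconv : ∀ n, ∑ i ∈ Finset.range (n + 1), P.coeff i * cn a cd A q (n - i) =
      if n = 0 then 1 else 0 := by
    intro n
    have h1 := congrArg (PowerSeries.coeff n) hmul
    rw [PowerSeries.coeff_mul, Finset.Nat.sum_antidiagonal_eq_sum_range_succ
      (fun i j => PowerSeries.coeff i (P : PowerSeries ℚ) *
        PowerSeries.coeff j (PowerSeries.mk (cn a cd A q)))] at h1
    simp only [Polynomial.coeff_coe, PowerSeries.coeff_mk, PowerSeries.coeff_one] at h1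
    exact h1
  have hPr : ∀ i, ¬ r ∣ i → P.coeff i = 0 := by
    intro i
    induction i using Nat.strong_induction_on with
    | _ i ih =>
      intro hi
      have h0 : i ≠ 0 := by
        rintro rfl
        exact hi (dvd_zero r)
      have h1 := hconv i
      rw [if_neg h0, Finset.sum_range_succ, Nat.sub_self, cn_zero, mul_one] at h1
      have h2 : ∑ x ∈ Finset.range i, P.coeff x * cn a cd A q (i - x) = 0 := by
        apply Finset.sum_eq_zero
        intro j hj
        rw [Finset.mem_range] at hj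
        by_cases hj1 : r ∣ j
        · rw [hsupp (i - j) (fun h => hi ?_), mul_zero]
          have := dvd_add h hj1
          rwa [Nat.sub_add_cancel hj.le] at this
        · rw [ih j hj hj1, zero_mul]
      rw [h2, zero_add] at h1
      exact h1
  -- the degree
  have hrm : r ∣ cd.mm A := (hr.2 _).1 (fun x hx => cd.integral A q hA hc hq x hx)
  obtain ⟨d, hd⟩ := hrm
  obtain ⟨Q, hQ⟩ : ∃ Q : Polynomial ℚ, Q = ∑ k ∈ Finset.range (d + 1), C (P.coeff (r * k)) * X ^ k :=
    ⟨_, rfl⟩
  have hQc : ∀ k, Q.coeff k = P.coeff (r * k) := by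
    intro k
    rw [hQ, Polynomial.finsetSum_coeff]
    simp only [Polynomial.coeff_C_mul_X_pow]
    rw [Finset.sum_ite_eq (Finset.range (d + 1)) k (fun k => P.coeff (r * k))]
    split_ifs with hi
    · rfl
    · rw [Finset.mem_range] at hi
      symm
      apply Polynomial.coeff_eq_zero_of_natDegree_lt
      rw [hP.deg, hd]
      have h1 : r * (d + 1) ≤ r * k := Nat.mul_le_mul_left r (by omega)
      have h2 : r * (d + 1) = r * d + r := by ring
      have := hr.1
      omega
  have hlead : P.leadingCoeff = 1 ∨ P.leadingCoeff = -1 := by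
    rw [hP.lead]
    rcases cd.eps_sq A q with h1 | h1 <;> rcases neg_one_pow_eq_or ℚ A.card with h2 | h2 <;>
      rw [h1, h2] <;> norm_num
  have hQtop : Q.coeff d = P.leadingCoeff := by
    rw [hQc]
    unfold Polynomial.leadingCoeff
    rw [hP.deg, hd]
  have hQd : Q.natDegree = d := by
    apply Polynomial.natDegree_eq_of_le_of_coeff_ne_zero
    · rw [Polynomial.natDegree_le_iff_coeff_eq_zero]
      intro N hN
      rw [hQc]
      apply Polynomial.coeff_eq_zero_of_natDegree_lt
      rw [hP.deg, hd]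
      exact Nat.mul_lt_mul_of_pos_left hN hr.1
    · rw [hQtop]
      rcases hlead with h | h <;> rw [h] <;> norm_num
  have hQl : Q.leadingCoeff = P.leadingCoeff := by
    unfold Polynomial.leadingCoeff
    rw [hQd, hQtop]
    rfl
  have hQ0 : Q.coeff 0 = 1 := by
    rw [hQc, mul_zero, hP.c0]
  obtain ⟨c, hcdef⟩ : ∃ c : ℕ → ℚ, ∀ k, c k = cn a cd A q (r * k) := ⟨_, fun _ => rfl⟩
  have hQm : (Q : PowerSeries ℚ) * PowerSeries.mk c = 1 := by
    ext n
    rw [PowerSeries.coeff_mul, Finset.Nat.sum_antidiagonal_eq_sum_range_succ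
      (fun i j => PowerSeries.coeff i (Q : PowerSeries ℚ) * PowerSeries.coeff j (PowerSeries.mk c))]
    simp only [Polynomial.coeff_coe, PowerSeries.coeff_mk, hQc, hcdef, PowerSeries.coeff_one]
    have h1 := hconv (r * n)
    rw [sum_mult r hr.1 n (fun i => P.coeff i * cn a cd A q (r * n - i))
      (fun i hi => by rw [hPr i hi, zero_mul])] at h1
    have h2 : ∀ j ∈ Finset.range (n + 1), P.coeff (r * j) * cn a cd A q (r * n - r * j) =
        P.coeff (r * j) * cn a cd A q (r * (n - j)) := by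
      intro j _
      rw [Nat.mul_sub]
    rw [Finset.sum_congr rfl h2] at h1
    rw [h1]
    have h3 : r * n = 0 ↔ n = 0 := by
      have := hr.1
      constructor
      · intro h
        rcases Nat.mul_eq_zero.1 h with h | h
        · omega
        · exact h
      · intro h
        rw [h, mul_zero]
    simp only [h3]
  have hgrow : ∃ K D : ℕ, ∀ g, |c g| ≤ K * ((g : ℚ) + 1) ^ D := by
    obtain ⟨K, D, hK⟩ := cn_growth a cd A q hc
    refine ⟨K * r ^ D, D, fun g => ?_⟩
    rw [hcdef]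
    refine (hK _).trans ?_
    push_cast
    rw [mul_assoc, ← mul_pow]
    apply mul_le_mul_of_nonneg_left _ (Nat.cast_nonneg K)
    apply pow_le_pow_left₀ (by positivity)
    have h1 : (1 : ℚ) ≤ r := by exact_mod_cast hr.1
    have h2 : (0 : ℚ) ≤ g := Nat.cast_nonneg g
    nlinarith
  have hdiv : (1 - X) ^ (J.card + 1) ∣ Q := by
    apply Pool.H88.KA.pow_dvd_of_sums
    intro j hj
    rw [hQd]
    obtain ⟨T, hTJ, hTc⟩ := Finset.exists_subset_card_eq hj
    obtain ⟨L, hL⟩ : ∃ L, L = r * (cd.mm A + 1) := ⟨_, rfl⟩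
    have hLm : cd.mm A + 1 ≤ L := by
      rw [hL]
      exact Nat.le_mul_of_pos_left _ hr.1
    have h1 := hP.ann J hJA hJne (fun x hx => by
      rw [hJ, Finset.mem_filter] at hx
      exact hx.2) (fun s => if s ∈ T then 0 else 1) (fun s => if s ∈ T then 1 else 0) (fun _ => L)
      (fun N _ => by omega)
    have h2 : ∀ i ∈ Finset.range (cd.mm A + 1),
        P.coeff i * (∏ s ∈ J, ((if s ∈ T then (0 : ℚ) else 1) + (if s ∈ T then 1 else 0) * (i : ℚ))) *
          ∏ N ∈ comps a (A \ J), cnS a cd N q L i = P.coeff i * (i : ℚ) ^ j := by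
      intro i hi
      rw [Finset.mem_range] at hi
      by_cases hri : r ∣ i
      · have h3 : ∏ s ∈ J, ((if s ∈ T then (0 : ℚ) else 1) + (if s ∈ T then 1 else 0) * (i : ℚ)) =
            (i : ℚ) ^ j := by
          have h4 : ∀ s ∈ J, ((if s ∈ T then (0 : ℚ) else 1) + (if s ∈ T then 1 else 0) * (i : ℚ)) =
              if s ∈ T then (i : ℚ) else 1 := by
            intro s _
            split_ifs <;> ring
          rw [Finset.prod_congr rfl h4, Finset.prod_ite_mem, Finset.inter_eq_right.2 hTJ,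
            Finset.prod_const, hTc]
        have h5 : ∏ N ∈ comps a (A \ J), cnS a cd N q L i = 1 := by
          apply Finset.prod_eq_one
          intro N hN
          unfold cnS
          rw [if_pos (by omega), hprim N hN, if_pos]
          intro x hx
          have hxA : x ∈ A := (Finset.mem_sdiff.1 (comps_subset hN hx)).1
          have h6 : r ∣ L - i := Nat.dvd_sub (by rw [hL]; exact dvd_mul_right _ _) hri
          exact (hr.2 (L - i)).2 h6 x hxA
        rw [h3, h5, mul_one]
      · rw [hPr i hri]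
        ring
    rw [Finset.sum_congr rfl h2, hd, sum_mult r hr.1 d (fun i => P.coeff i * (i : ℚ) ^ j)
      (fun i hi => by rw [hPr i hi, zero_mul])] at h1
    have h7 : ∑ k ∈ Finset.range (d + 1), P.coeff (r * k) * ((r * k : ℕ) : ℚ) ^ j =
        (r : ℚ) ^ j * ∑ k ∈ Finset.range (d + 1), Q.coeff k * (k : ℚ) ^ j := by
      rw [Finset.mul_sum]
      refine Finset.sum_congr rfl fun k _ => ?_
      rw [hQc]
      push_cast
      rw [mul_pow]
      ring
    rw [h7] at h1
    rcases mul_eq_zero.1 h1 with h8 | h8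
    · exfalso
      have : (r : ℚ) ≠ 0 := by
        have := hr.1
        positivity
      exact pow_ne_zero j this h8
    · exact h8
  have hfin := Pool.H88.KA.fejer_main Q c (J.card + 1) hQ0 (by rw [hQl]; exact hlead) hQm hgrow hdiv
    (by
      rw [hQd]
      rw [hd] at hb
      have h1 : r * d ≤ r * (2 * (J.card + 1)) := by
        have : r * (2 * (J.card + 1)) = 2 * (r * (J.card + 1)) := by ring
        rw [this]
        exact hb
      exact Nat.le_of_mul_le_mul_left h1 hr.1)
  by_cases hrg : r ∣ g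
  · obtain ⟨k, rfl⟩ := hrg
    rw [← hcdef]
    exact hfin k
  · rw [hsupp g hrg]

end

end Pool.H88.Num

end

section

/-!
Run lemma, module 16: the signs.
-/

set_option autoImplicit false

namespace Pool.Agent.H10.KAC

open scoped BigOperators
open Pool.H88.KA

section

variable {N : Type} [Fintype N] [DecidableEq N]

/-- the last nonzero value of `e` is one. -/
theorem KE_pen {a : N → N → ℕ} (hs : ∀ x y, a x y = a y x) {h : ℕ} {e : ℕ → N → ℤ}
    (he : KE a h 1 e) (x : N) : e (h - 1) x = 1 := by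
  have h2 := he.two_le
  have h0 : e 0 = 0 := funext he.zero
  have h1 : e 1 = fun _ => 1 := funext he.one
  have hh : e h = 0 := funext he.last
  have hP : ∀ k, k + 1 ≤ h → Phi a (e (k + 1)) (e k) = ∑ _x : N, (1 : ℤ) := by
    intro k
    induction k with
    | zero =>
      intro _
      rw [zero_add, h0, h1]
      unfold Phi
      simp
    | succ k ih =>
      intro hk
      rw [← ih (by omega)]
      have h3 : e (k + 1 + 1) = fun x => ∑ y, (a x y : ℤ) * e (k + 1) y - e k x := by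
        funext x
        have := he.knit k x hk
        linarith
      rw [h3]
      exact Phi_step a hs (e (k + 1)) (e k)
  have h4 := hP (h - 1) (by omega)
  have h5 : h - 1 + 1 = h := by omega
  rw [h5, hh] at h4
  have h6 : Phi a 0 (e (h - 1)) = ∑ x, e (h - 1) x * e (h - 1) x := by
    unfold Phi
    simp
  rw [h6] at h4
  have h7 : ∀ x ∈ Finset.univ, 0 ≤ e (h - 1) x * e (h - 1) x - 1 := by
    intro x _
    have := he.pos (h - 1) x (by omega) (by omega)
    nlinarith
  have h8 : ∑ x, (e (h - 1) x * e (h - 1) x - 1) = 0 := by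
    rw [Finset.sum_sub_distrib, h4, sub_self]
  have h9 := (Finset.sum_eq_zero_iff_of_nonneg h7).1 h8 x (Finset.mem_univ x)
  have h10 := he.pos (h - 1) x (by omega) (by omega)
  nlinarith

/-- partial sums. -/
def Se (e : ℕ → N → ℤ) (k : ℕ) (x : N) : ℕ := ∑ m ∈ Finset.range k, (e m x).toNat

theorem Se_succ (e : ℕ → N → ℤ) (k : ℕ) (x : N) : Se e (k + 1) x = Se e k x + (e k x).toNat := by
  unfold Se
  rw [Finset.sum_range_succ]

theorem KE_nonneg {a : N → N → ℕ} {h : ℕ} {e : ℕ → N → ℤ} (he : KE a h 1 e) (k : ℕ) (hk : k ≤ h)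
    (x : N) : 0 ≤ e k x := by
  rcases Nat.eq_zero_or_pos k with h0 | h0
  · rw [h0, he.zero x]
  · rcases hk.lt_or_eq with h1 | h1
    · exact (he.pos k x h0 h1).le
    · rw [h1, he.last x]

theorem KE_knitN {a : N → N → ℕ} {h : ℕ} {e : ℕ → N → ℤ} (he : KE a h 1 e) (k : ℕ) (x : N)
    (hk : k + 2 ≤ h) :
    (e (k + 2) x).toNat + (e k x).toNat = ∑ y, a x y * (e (k + 1) y).toNat := by
  have h1 := he.knit k x hk
  have e1 : ((e (k + 2) x).toNat : ℤ) = e (k + 2) x := Int.toNat_of_nonneg (KE_nonneg he _ hk x)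
  have e2 : ((e k x).toNat : ℤ) = e k x := Int.toNat_of_nonneg (KE_nonneg he _ (by omega) x)
  have e3 : ∀ y, ((e (k + 1) y).toNat : ℤ) = e (k + 1) y := fun y =>
    Int.toNat_of_nonneg (KE_nonneg he _ (by omega) y)
  have h2 : (((e (k + 2) x).toNat + (e k x).toNat : ℕ) : ℤ) =
      ((∑ y, a x y * (e (k + 1) y).toNat : ℕ) : ℤ) := by
    push_cast [e1, e2]
    rw [Finset.sum_congr rfl (fun y _ => by rw [e3 y])]
    exact h1
  exact_mod_cast h2

theorem Se_rec {a : N → N → ℕ} {h : ℕ} {e : ℕ → N → ℤ} (he : KE a h 1 e) (k : ℕ) (x : N)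
    (hk : k + 2 ≤ h) : ∑ y, a x y * Se e (k + 1) y + 1 = Se e (k + 2) x + Se e k x := by
  induction k with
  | zero =>
    have h0 : ∀ y, Se e 1 y = 0 := fun y => by
      unfold Se
      rw [Finset.sum_range_one, he.zero y]
      rfl
    have h1 : Se e 2 x = 1 := by
      rw [Se_succ, h0, he.one x]
      rfl
    have h2 : Se e 0 x = 0 := rfl
    simp only [zero_add]
    rw [h1, h2, Finset.sum_eq_zero (fun y _ => by rw [h0 y, mul_zero])]
  | succ k ih =>
    have h1 := ih (by omega)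
    have h2 := KE_knitN he k x (by omega)
    have h3 : ∑ y, a x y * Se e (k + 1 + 1) y =
        ∑ y, a x y * Se e (k + 1) y + ∑ y, a x y * (e (k + 1) y).toNat := by
      rw [← Finset.sum_add_distrib]
      refine Finset.sum_congr rfl (fun y _ => ?_)
      rw [Se_succ]
      ring
    have h4 : Se e (k + 1 + 2) x = Se e (k + 2) x + (e (k + 2) x).toNat := Se_succ e (k + 2) x
    have h5 : Se e (k + 1) x = Se e k x + (e k x).toNat := Se_succ e k x
    rw [h3, h4, h5]
    omega

/-- `C S_h = 2`. -/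
theorem Se_last {a : N → N → ℕ} (hs : ∀ x y, a x y = a y x) {h : ℕ} {e : ℕ → N → ℤ}
    (he : KE a h 1 e) (x : N) : ∑ y, a x y * Se e h y + 2 = 2 * Se e h x := by
  obtain ⟨k, rfl⟩ : ∃ k, h = k + 2 := ⟨h - 2, by have := he.two_le; omega⟩
  have h1 := Se_rec he k x le_rfl
  have h2 := KE_knitN he k x le_rfl
  have h3 : (e (k + 1) x).toNat = 1 := by
    have := KE_pen hs he x
    have h4 : k + 2 - 1 = k + 1 := by omega
    rw [h4] at this
    rw [this]
    rfl
  have h5 : (e (k + 2) x).toNat = 0 := by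
    rw [he.last x]
    rfl
  have h6 : ∑ y, a x y * Se e (k + 2) y =
      ∑ y, a x y * Se e (k + 1) y + ∑ y, a x y * (e (k + 1) y).toNat := by
    rw [← Finset.sum_add_distrib]
    refine Finset.sum_congr rfl (fun y _ => ?_)
    rw [Se_succ e (k + 1)]
    ring
  have h7 : Se e (k + 2) x = Se e (k + 1) x + (e (k + 1) x).toNat := Se_succ e (k + 1) x
  have h8 : Se e (k + 1) x = Se e k x + (e k x).toNat := Se_succ e k x
  omega

/-- the signs in terms of `e`. -/
theorem sg_eq {a : N → N → ℕ} {h : ℕ} {e : ℕ → N → ℤ} (he : KE a h 1 e) (k : ℕ) (hk : k ≤ h)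
    (x : N) : sg a k x = (-1) ^ Se e k x := by
  induction k using Nat.strong_induction_on generalizing x with
  | _ k ih =>
    match k, ih, hk with
    | 0, _, _ => rfl
    | 1, _, _ =>
      have h0 : Se e 1 x = 0 := by
        unfold Se
        rw [Finset.sum_range_one, he.zero x]
        rfl
      rw [h0, pow_zero]
      rfl
    | k + 2, ih, hk =>
      change -(sg a k x * ∏ y, sg a (k + 1) y ^ a x y) = _
      rw [ih k (by omega) (by omega) x]
      have h1 : ∏ y, sg a (k + 1) y ^ a x y = (-1) ^ (∑ y, a x y * Se e (k + 1) y) := by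
        rw [← Finset.prod_pow_eq_pow_sum]
        refine Finset.prod_congr rfl (fun y _ => ?_)
        rw [ih (k + 1) (by omega) (by omega) y, ← pow_mul, mul_comm]
      rw [h1, ← pow_add]
      have h2 := Se_rec he k x hk
      have h3 : Se e k x + ∑ y, a x y * Se e (k + 1) y + 1 = Se e (k + 2) x + 2 * Se e k x := by
        omega
      have h4 : (-1 : ℤ) ^ (Se e k x + ∑ y, a x y * Se e (k + 1) y + 1) = (-1) ^ Se e (k + 2) x := by
        rw [h3, pow_add, pow_mul]
        norm_num
      rw [← h4, pow_succ]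
      ring

end

end Pool.Agent.H10.KAC

end
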