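import Pool.Agent.H16.TKA.M24
import Pool.Agent.H16.TKA.M25
import Pool.Agent.H16.TKA.M27

/-! The parts of this file: H40.KADE.E8, H27.KB.H9, H27.KB.GM, H27.KB.H10, H27.KB.H12a, H40.KADE.Glue. -/

section

/-!
KAC ADE engine, module E8: the lower bound for `f`.

* `lower_boundZ` as `lower_bound` in KL6 (`top_poly`, `kl6_limit`, `top_val`, `up`).
* `EW_le_fZ` as `EW_le_f` in KG4, with one more factor `m_z ≤ C n` for `z ∈ Z` (`n • α` is ample; `Zt a (n • α) = Zt a α`).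
-/

set_option autoImplicit false

namespace Pool.Agent.H40.KADE

open scoped BigOperators
open Pool.Agent.H27.KAC

variable {I : Type} [Fintype I] [DecidableEq I]

theorem E8_lbZ_nonneg (a : I → I → ℕ) (α : I →₀ ℕ) {K0 : ℕ} (m : Fin K0 → I → ℕ) :
    0 ≤ lbZ a α m := by
  unfold lbZ
  refine mul_nonneg (kl6_prod_nonneg a m _) (mul_nonneg ?_ ?_)
  · exact Finset.prod_nonneg fun _ _ => kl6_wt_nonneg _ _
  · exact Finset.prod_nonneg fun _ _ => by positivity

theorem lower_boundZ (a : I → I → ℕ) (hs : ∀ i j, a i j = a j i) (hd : ∀ i, a i i ≠ 1)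
    (hc : Conn a) {cn : Finset I → (I → ℚ) → ℕ → ℚ} (hcn : CN a cn)
    {G : ℕ → (I → ℚ) → (I → ℚ) → (I → ℚ) → (I → I → ℚ) → (I → I → ℚ) → Finset I → (I → ℚ) →
      (Finset I → ℕ → ℚ) → ℚ} (hG : ClusterVal a cn G)
    (f : (I → ℕ) → ℚ) (hK : KacData a f) (α : I →₀ ℕ) (hα : Amp a α)
    {K0 : ℕ} (hK0 : 2 ≤ K0) (m : Fin K0 → I → ℕ) (hm : m ∈ Mset K0 α)
    (hm1 : ∀ i, 1 ≤ mAt m 1 i) (hP : ∀ l, 1 ≤ l → l < K0 → ∀ i, 1 ≤ PLF a m l i) :
    lbZ a α m ≤ f α * ∑ i, (α i : ℚ) * (-(cw a α i : ℤ) : ℚ) := by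
  obtain ⟨r, hr⟩ := hα.ex
  have hα0 : α ≠ 0 := by
    intro h
    have h1 := hα.supp r
    rw [h] at h1
    simp at h1
  have hrZ : r ∉ Zt a α := by
    intro h
    have := ((E6_mem a α r).1 h).2
    omega
  obtain ⟨K, hKd⟩ : ∃ K, K = max (tdeg α) K0 := ⟨_, rfl⟩
  have hK1 : tdeg α ≤ K := by rw [hKd]; exact le_max_left _ _
  have hK2 : K0 ≤ K := by rw [hKd]; exact le_max_right _ _
  obtain ⟨q, hq, hq0, hq1⟩ := top_poly a hs f hK α hα0 K hK1
    (fun i => if cw a α i = 0 then 0 else 1)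
  have hsum : ∀ ε : ℚ, ∑ i, topH a α ε r i * (-((cw a α i : ℤ) : ℚ)) =
      (1 - ε) * (-((cw a α r : ℤ) : ℚ)) := by
    intro ε
    rw [Finset.sum_eq_single r]
    · unfold topH
      rw [if_pos ⟨rfl, fun h => hrZ ((E6_mem a α r).2 h)⟩, if_neg (by omega), mul_one]
    · intro i _ hi
      unfold topH
      rw [if_neg (fun h => hi h.1.symm), zero_mul]
    · intro h
      exact absurd (Finset.mem_univ r) h
  have hlow : ∀ ε : ℚ, 0 < ε → ε < 1 →
      (lbZ a α m * (-((cw a α r : ℤ) : ℚ))) * ε ≤ q.eval ε := by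
    intro ε h0 h1
    have h2 := up a hs hd hc hcn hG α hα hK0 m hm hm1 hP r hrZ K hK2 (topH a α ε)
      (top_fresh a hs hc cn α hα K ε h0.le h1.le)
    rw [hsum, ← top_val a hG α (FT_Zt a hs hc α hα) K ε] at h2
    have h3 : Val a α (topS a α K ε) = q.eval ε := by
      rw [← hq ε]
      rfl
    rw [h3] at h2
    linarith
  have h4 := kl6_limit q _ hq0 hlow
  rw [hq1] at h4
  have h5 : ∑ i, (fun i => if cw a α i = 0 then (0 : ℚ) else 1) i * (α i : ℚ) *
      (-(cw a α i : ℤ) : ℚ) = ∑ i, (α i : ℚ) * (-(cw a α i : ℤ) : ℚ) := by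
    apply Finset.sum_congr rfl
    intro i _
    by_cases hi : cw a α i = 0
    · simp [hi]
    · simp [hi]
  rw [h5] at h4
  refine le_trans ?_ h4
  have h6 : (1 : ℚ) ≤ -((cw a α r : ℤ) : ℚ) := by
    have : (1 : ℤ) ≤ -cw a α r := by omega
    exact_mod_cast this
  have h7 := E8_lbZ_nonneg a α m
  nlinarith

theorem Amp.nsmul {a : I → I → ℕ} {α : I →₀ ℕ} (h : Amp a α) (n : ℕ) (hn : 1 ≤ n) :
    Amp a (n • α) := by
  have hn0 : (0 : ℤ) < (n : ℤ) := by exact_mod_cast hn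
  refine ⟨?_, ?_, ?_, ?_⟩
  · intro i
    rw [Finsupp.smul_apply, smul_eq_mul]
    exact Nat.one_le_iff_ne_zero.2 (Nat.mul_ne_zero (by omega) (by have := h.supp i; omega))
  · intro i hi
    rw [KG2_cw_nsmul, ← mul_neg]
    exact mul_nonneg hn0.le (h.pos i hi)
  · intro i hi
    rw [KG2_cw_nsmul, ← mul_neg]
    exact mul_pos hn0 (h.posl i hi)
  · obtain ⟨i, hi⟩ := h.ex
    refine ⟨i, ?_⟩
    rw [KG2_cw_nsmul, ← mul_neg]
    exact mul_pos hn0 hi

private theorem E8_mem {K : ℕ} (β : I → ℕ) (m : Fin K → I → ℕ) (h : m ∈ Mset K β) :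
    ∀ i, ∑ k : Fin K, ((k : ℕ) + 1) * m k i = β i := by
  unfold Mset at h
  rw [Finset.mem_filter] at h
  exact h.2

private theorem E8_mAt_le {K : ℕ} (β : I →₀ ℕ) (m : Fin K → I → ℕ) (hm : m ∈ Mset K β)
    (l : ℕ) (i : I) : mAt m l i ≤ β i := by
  unfold mAt
  split_ifs with h
  · rw [← (E8_mem _ _ hm) i]
    calc m ⟨l - 1, by omega⟩ i ≤ ((⟨l - 1, by omega⟩ : Fin K) + 1 : ℕ) * m ⟨l - 1, by omega⟩ i :=
          Nat.le_mul_of_pos_left _ (Nat.succ_pos _)
      _ ≤ _ := Finset.single_le_sum (f := fun k : Fin K => ((k : ℕ) + 1) * m k i)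
          (fun _ _ => Nat.zero_le _) (Finset.mem_univ _)
  · exact Nat.zero_le _

private theorem E8_wt (P m : ℕ) (hP : 1 ≤ P) :
    (((P + m).choose m : ℕ) : ℚ) = ((P + m : ℕ) : ℚ) * wt P m := by
  unfold wt
  have h2 : ((P + m).choose m : ℚ) = ((P + m).factorial : ℚ) / ((P.factorial : ℚ) * (m.factorial : ℚ)) := by
    rw [Nat.cast_choose ℚ (Nat.le_add_left m P), Nat.add_sub_cancel, mul_comm (m.factorial : ℚ)]
  rw [h2]
  obtain ⟨q, hq⟩ : ∃ q, P + m = q + 1 := ⟨P + m - 1, by omega⟩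
  rw [hq, Nat.factorial_succ, Nat.add_sub_cancel]
  push_cast
  ring

/-- restarted walls have positive multiplicity. -/
theorem E8_mpos (a : I → I → ℕ) {K : ℕ} (hK : 2 ≤ K) (α : I →₀ ℕ) (m : Fin K → I → ℕ)
    (hm : m ∈ Mset K α) (hP : ∀ l, 1 ≤ l → l < K → ∀ i, 1 ≤ PLF a m l i) (z : I)
    (hz : z ∈ Zt a α) : 1 ≤ mAt m K z := by
  obtain ⟨K1, rfl⟩ : ∃ K1, K = K1 + 1 := ⟨K - 1, by omega⟩
  have h0 := (E6_mem a α z).1 hz
  have h1 := hP K1 (by omega) (by omega) z
  rw [PLF_rec a m K1 z, PLF_top a α m hm (K1 + 1) le_rfl z,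
    PLF_top a α m hm (K1 + 2) (by omega) z, h0.2] at h1
  by_contra hne
  have h2 : mAt m (K1 + 1) z = 0 := by omega
  have h3 : ∑ j, cart a z j * (mAt m (K1 + 1) j : ℤ) ≤ 0 := by
    refine Finset.sum_nonpos fun j _ => ?_
    by_cases hj : z = j
    · subst hj
      rw [h2]
      simp
    · rw [cart_ne a hj]
      have h4 : (0 : ℤ) ≤ (a z j : ℤ) * (mAt m (K1 + 1) j : ℤ) := by positivity
      linarith
  omega

theorem EW_le_fZ (a : I → I → ℕ) (hs : ∀ i j, a i j = a j i) (hd : ∀ i, a i i ≠ 1)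
    (hc : Conn a) {cn : Finset I → (I → ℚ) → ℕ → ℚ} (hcn : CN a cn)
    {G : ℕ → (I → ℚ) → (I → ℚ) → (I → ℚ) → (I → I → ℚ) → (I → I → ℚ) → Finset I → (I → ℚ) →
      (Finset I → ℕ → ℚ) → ℚ} (hG : ClusterVal a cn G)
    (f : (I → ℕ) → ℚ) (hK : KacData a f) (α : I →₀ ℕ) (hα : Amp a α) (K : ℕ) (hK2 : 2 ≤ K) :
    ∃ C : ℕ, 1 ≤ C ∧ ∀ n : ℕ, 1 ≤ n → ∀ m : Fin K → I → ℕ, Adm a (n • α) m →
      (EW a m : ℝ) ≤ ((C : ℝ) * n) ^ C * ((f (n • α) : ℚ) : ℝ) := by
  classical
  obtain ⟨K1, rfl⟩ : ∃ K1, K = K1 + 1 := ⟨K - 1, by omega⟩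
  have hs0 : ∀ i, 0 ≤ -cw a α i := E6_pos a hα
  set S : ℕ := (∑ i, (α i : ℤ) * (-cw a α i)).toNat with hS
  have hS0 : 0 ≤ ∑ i, (α i : ℤ) * (-cw a α i) :=
    Finset.sum_nonneg fun i _ => mul_nonneg (Int.natCast_nonneg _) (hs0 i)
  have hSZ : ((S : ℕ) : ℤ) = ∑ i, (α i : ℤ) * (-cw a α i) := Int.toNat_of_nonneg hS0
  set C0 : ℕ := ∑ i, ∑ j, a i j * α j + ∑ i, α i + 1 with hC0
  set E : ℕ := (K1 + 1) * Fintype.card I with hE
  refine ⟨C0 + S + E + 2, by omega, fun n hn m h => ?_⟩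
  set C : ℕ := C0 + S + E + 2 with hC
  have hAβ : Amp a (n • α) := hα.nsmul n hn
  have hsβ : ∀ i, 0 ≤ -cw a (n • α) i := E6_pos a hAβ
  have hn0 : (0 : ℚ) < (n : ℚ) := by exact_mod_cast hn
  have hwt : ∀ P m : ℕ, 0 < wt P m := fun P m => by
    unfold wt
    positivity
  -- bound for `P + m`
  have hA : ∀ l i, (PLF a m l i).toNat + mAt m l i ≤ C0 * n := by
    intro l i
    have h1 := PLF_le a (n • α) m h.1 l i
    have h2 := E8_mAt_le (n • α) m h.1 l i
    have h3 : ∑ j, (a i j : ℤ) * (((n • α : I →₀ ℕ) j : ℕ) : ℤ) =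
        ((n * ∑ j, a i j * α j : ℕ) : ℤ) := by
      simp only [Finsupp.smul_apply, smul_eq_mul]
      push_cast
      rw [Finset.mul_sum]
      refine Finset.sum_congr rfl fun j _ => ?_
      ring
    rw [h3] at h1
    have h4 : (PLF a m l i).toNat ≤ n * ∑ j, a i j * α j := by
      rw [Int.toNat_le]
      exact h1
    have h5 : ∑ j, a i j * α j ≤ ∑ i, ∑ j, a i j * α j :=
      Finset.single_le_sum (f := fun i => ∑ j, a i j * α j) (fun _ _ => Nat.zero_le _)
        (Finset.mem_univ i)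
    have h6 : α i ≤ ∑ i, α i :=
      Finset.single_le_sum (f := fun i => α i) (fun _ _ => Nat.zero_le _) (Finset.mem_univ i)
    rw [Finsupp.smul_apply, smul_eq_mul] at h2
    calc (PLF a m l i).toNat + mAt m l i ≤ n * ∑ j, a i j * α j + n * α i := add_le_add h4 h2
      _ ≤ n * (∑ i, ∑ j, a i j * α j) + n * ∑ i, α i :=
          add_le_add (Nat.mul_le_mul_left _ h5) (Nat.mul_le_mul_left _ h6)
      _ ≤ C0 * n := by
          rw [hC0]
          nlinarith only []
  have hAQ : ∀ l i, (((PLF a m l i).toNat + mAt m l i : ℕ) : ℚ) ≤ (C0 : ℚ) * n := by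
    intro l i
    exact_mod_cast hA l i
  have hCn1 : (1 : ℚ) ≤ (C0 : ℚ) * n := by
    have h1 : 1 ≤ C0 * n := Nat.one_le_iff_ne_zero.mpr (by
      apply Nat.mul_ne_zero
      · omega
      · omega)
    exact_mod_cast h1
  have hPK : ∀ i, PLF a m (K1 + 1) i = -cw a (n • α) i := fun i =>
    PLF_top a (n • α) m h.1 (K1 + 1) le_rfl i
  -- the product formula
  have hB1 : ∀ l ∈ Finset.Icc 1 K1, ∀ i : I,
      ((((PLF a m l i).toNat + mAt m l i).choose (mAt m l i) : ℕ) : ℚ) ≤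
        ((C0 : ℚ) * n) * wt (PLF a m l i).toNat (mAt m l i) := by
    intro l hl i
    rw [Finset.mem_Icc] at hl
    have h1 := h.2.2 l hl.1 (by omega) i
    have h2 : 1 ≤ (PLF a m l i).toNat := by omega
    rw [E8_wt _ _ h2]
    exact mul_le_mul_of_nonneg_right (hAQ l i) (hwt _ _).le
  have hmz : ∀ z ∈ Zt a (n • α), 1 ≤ mAt m (K1 + 1) z := fun z hz =>
    E8_mpos a hK2 (n • α) m h.1 h.2.2 z hz
  have hB2 : ∀ i : I,
      ((((PLF a m (K1 + 1) i).toNat + mAt m (K1 + 1) i).choose (mAt m (K1 + 1) i) : ℕ) : ℚ) ≤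
        ((C0 : ℚ) * n) * (if i ∈ Zt a (n • α) then (1 / (mAt m (K1 + 1) i : ℚ)) else
          wt (-cw a (n • α) i).toNat (mAt m (K1 + 1) i)) := by
    intro i
    by_cases hi : i ∈ Zt a (n • α)
    · rw [if_pos hi, hPK i, ((E6_mem a _ i).1 hi).2]
      simp only [neg_zero, Int.toNat_zero, zero_add, Nat.choose_self, Nat.cast_one]
      have h1 : (1 : ℚ) ≤ (mAt m (K1 + 1) i : ℚ) := by exact_mod_cast hmz i hi
      have h2 : (mAt m (K1 + 1) i : ℚ) ≤ (C0 : ℚ) * n := by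
        have h3 := hAQ (K1 + 1) i
        push_cast at h3
        have h4 : (0 : ℚ) ≤ ((PLF a m (K1 + 1) i).toNat : ℚ) := Nat.cast_nonneg _
        linarith
      rw [mul_one_div, le_div_iff₀ (by linarith), one_mul]
      exact h2
    · rw [if_neg hi, ← hPK i]
      have h2 : 1 ≤ (PLF a m (K1 + 1) i).toNat := by
        rw [hPK i]
        have h3 := E6_pos' a hAβ i hi
        omega
      rw [E8_wt _ _ h2]
      exact mul_le_mul_of_nonneg_right (hAQ _ i) (hwt _ _).le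
  have hlb0 : 0 < lbZ a (n • α) m := by
    unfold lbZ
    refine mul_pos ?_ (mul_pos ?_ ?_)
    · exact Finset.prod_pos fun l _ => Finset.prod_pos fun i _ => hwt _ _
    · exact Finset.prod_pos fun i _ => hwt _ _
    · refine Finset.prod_pos fun i hi => ?_
      have h1 : (0 : ℚ) < (mAt m (K1 + 1) i : ℚ) := by exact_mod_cast hmz i hi
      positivity
  have hEW : ((EW a m : ℕ) : ℚ) ≤ ((C0 : ℚ) * n) ^ E * lbZ a (n • α) m := by
    unfold EW lbZ
    rw [Finset.prod_Icc_succ_top (by omega)]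
    push_cast
    have e1 : ∏ l ∈ Finset.Icc 1 K1, ∏ i,
        ((((PLF a m l i).toNat + mAt m l i).choose (mAt m l i) : ℕ) : ℚ) ≤
        ∏ l ∈ Finset.Icc 1 K1, ∏ i, (((C0 : ℚ) * n) * wt (PLF a m l i).toNat (mAt m l i)) :=
      Finset.prod_le_prod (fun l _ => Finset.prod_nonneg fun i _ => Nat.cast_nonneg _)
        fun l hl => Finset.prod_le_prod (fun i _ => Nat.cast_nonneg _) fun i _ => hB1 l hl i
    have e2 : ∏ i,
        ((((PLF a m (K1 + 1) i).toNat + mAt m (K1 + 1) i).choose (mAt m (K1 + 1) i) : ℕ) : ℚ) ≤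
        ∏ i, (((C0 : ℚ) * n) * (if i ∈ Zt a (n • α) then (1 / (mAt m (K1 + 1) i : ℚ)) else
          wt (-cw a (n • α) i).toNat (mAt m (K1 + 1) i))) :=
      Finset.prod_le_prod (fun i _ => Nat.cast_nonneg _) fun i _ => hB2 i
    have e3 : ∏ l ∈ Finset.Icc 1 K1, ∏ i, (((C0 : ℚ) * n) * wt (PLF a m l i).toNat (mAt m l i)) =
        ((C0 : ℚ) * n) ^ (K1 * Fintype.card I) *
          ∏ l ∈ Finset.Icc 1 K1, ∏ i, wt (PLF a m l i).toNat (mAt m l i) := by
      have e4 : ∀ l, ∏ i : I, (((C0 : ℚ) * n) * wt (PLF a m l i).toNat (mAt m l i)) =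
          ((C0 : ℚ) * n) ^ (Fintype.card I) * ∏ i, wt (PLF a m l i).toNat (mAt m l i) := by
        intro l
        rw [Finset.prod_mul_distrib, Finset.prod_const, Finset.card_univ]
      simp only [e4]
      rw [Finset.prod_mul_distrib, Finset.prod_const, Nat.card_Icc, ← pow_mul]
      congr 2
      rw [Nat.add_sub_cancel, mul_comm]
    have e5 : ∏ i : I, (((C0 : ℚ) * n) * (if i ∈ Zt a (n • α) then
          (1 / (mAt m (K1 + 1) i : ℚ)) else wt (-cw a (n • α) i).toNat (mAt m (K1 + 1) i))) =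
        ((C0 : ℚ) * n) ^ (Fintype.card I) *
          ((∏ i ∈ Finset.univ \ Zt a (n • α), wt (-cw a (n • α) i).toNat (mAt m (K1 + 1) i)) *
            ∏ i ∈ Zt a (n • α), (1 / (mAt m (K1 + 1) i : ℚ))) := by
      rw [Finset.prod_mul_distrib, Finset.prod_const, Finset.card_univ]
      congr 1
      rw [← Finset.prod_sdiff (Finset.subset_univ (Zt a (n • α)))]
      congr 1
      · refine Finset.prod_congr rfl fun i hi => ?_
        rw [if_neg (Finset.mem_sdiff.1 hi).2]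
      · refine Finset.prod_congr rfl fun i hi => ?_
        rw [if_pos hi]
    rw [e3] at e1
    rw [e5] at e2
    refine (mul_le_mul e1 e2 (Finset.prod_nonneg fun i _ => Nat.cast_nonneg _) ?_).trans
      (le_of_eq ?_)
    · refine mul_nonneg (by positivity) ?_
      exact Finset.prod_nonneg fun l _ => Finset.prod_nonneg fun i _ => (hwt _ _).le
    · rw [hE, add_mul, one_mul, pow_add]
      ring
  have hlow := lower_boundZ a hs hd hc hcn hG f hK (n • α) hAβ hK2 m h.1 h.2.1 h.2.2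
  have hsum : ∑ i, (((n • α) i : ℕ) : ℚ) * (-(cw a (n • α) i : ℤ) : ℚ) = (n : ℚ) ^ 2 * S := by
    have h1 : (S : ℚ) = ∑ i, (α i : ℚ) * (-(cw a α i : ℤ) : ℚ) := by
      have h2 : ((S : ℤ) : ℚ) = ((∑ i, (α i : ℤ) * (-cw a α i) : ℤ) : ℚ) := by rw [hSZ]
      push_cast at h2
      exact h2
    rw [h1, Finset.mul_sum]
    refine Finset.sum_congr rfl fun i _ => ?_
    rw [KG2_cw_nsmul, Finsupp.smul_apply, smul_eq_mul]
    push_cast
    ring
  rw [hsum] at hlow
  have hf : 0 < f (n • α) := by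
    have h1 : 0 < f ((n • α : I →₀ ℕ) : I → ℕ) * ((n : ℚ) ^ 2 * S) := hlb0.trans_le hlow
    by_contra hneg
    have h2 : f ((n • α : I →₀ ℕ) : I → ℕ) * ((n : ℚ) ^ 2 * S) ≤ 0 :=
      mul_nonpos_of_nonpos_of_nonneg (not_lt.mp hneg) (by positivity)
    exact absurd h1 (not_lt.mpr h2)
  have hfin : ((EW a m : ℕ) : ℚ) ≤ ((C : ℚ) * n) ^ C * f (n • α) := by
    have hC0C : (C0 : ℚ) ≤ C := by
      rw [hC]
      push_cast
      have : (0 : ℚ) ≤ (S : ℚ) + E := by positivity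
      linarith only []
    have hSC : (S : ℚ) ≤ C := by
      rw [hC]
      push_cast
      have : (0 : ℚ) ≤ (C0 : ℚ) + E := by positivity
      linarith only []
    have hC1 : (1 : ℚ) ≤ C := by
      have : 1 ≤ C := by omega
      exact_mod_cast this
    have hn1 : (1 : ℚ) ≤ n := by exact_mod_cast hn
    have g1 : ((C0 : ℚ) * n) ^ E ≤ ((C : ℚ) * n) ^ E :=
      pow_le_pow_left₀ (by positivity) (mul_le_mul_of_nonneg_right hC0C hn0.le) _
    have g2 : (n : ℚ) ^ 2 * S ≤ ((C : ℚ) * n) ^ 2 := by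
      have : (S : ℚ) ≤ (C : ℚ) ^ 2 := by nlinarith only [hSC, hC1]
      calc (n : ℚ) ^ 2 * S ≤ (n : ℚ) ^ 2 * (C : ℚ) ^ 2 := mul_le_mul_of_nonneg_left this (by positivity)
        _ = _ := by ring
    have g3 : ((C : ℚ) * n) ^ (E + 2) ≤ ((C : ℚ) * n) ^ C :=
      pow_le_pow_right₀ (by nlinarith only [hCn1, hC0C]) (by omega)
    calc ((EW a m : ℕ) : ℚ) ≤ ((C0 : ℚ) * n) ^ E * lbZ a (n • α) m := hEW
      _ ≤ ((C0 : ℚ) * n) ^ E * (f (n • α) * ((n : ℚ) ^ 2 * S)) :=
          mul_le_mul_of_nonneg_left hlow (by positivity)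
      _ = (((C0 : ℚ) * n) ^ E * ((n : ℚ) ^ 2 * S)) * f (n • α) := by ring
      _ ≤ (((C : ℚ) * n) ^ E * ((C : ℚ) * n) ^ 2) * f (n • α) :=
          mul_le_mul_of_nonneg_right
            (mul_le_mul g1 g2 (by positivity) (by positivity)) hf.le
      _ = ((C : ℚ) * n) ^ (E + 2) * f (n • α) := by rw [pow_add]
      _ ≤ _ := mul_le_mul_of_nonneg_right g3 hf.le
  exact_mod_cast hfin

end Pool.Agent.H40.KADE

end

section

/-!
KAC ADE, growth part: comparison with the real entropy, first half.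
-/

set_option autoImplicit false

namespace Pool.Agent.H27.KB

open scoped BigOperators
open Pool.Agent.H27.KAC Pool.H88.KA
open Filter Topology

variable {I : Type} [Fintype I] [DecidableEq I]

theorem KH9_Adm_vacE (a : I → I → ℕ) (α : I →₀ ℕ) (hα : AmpG a α) {n K : ℕ}
    (m : Fin K → I → ℕ) (hm : Adm a (n • α) m) (k : ℕ) (i : I) : 0 ≤ PLF a m k i := by
  rcases Nat.eq_zero_or_pos k with rfl | hk
  · rw [PLF_zero]
  · by_cases h : k < K
    · exact zero_le_one.trans (hm.2.2 k hk h i)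
    · rw [PLF_top a (n • α) m hm.1 k (not_lt.1 h) i]
      have h1 : cw a (n • α) i = n * cw a α i := by
        unfold cw
        rw [Finset.mul_sum]
        refine Finset.sum_congr rfl fun j _ => ?_
        simp only [Finsupp.smul_apply, smul_eq_mul]
        push_cast
        ring
      rw [h1]
      have h2 : 0 ≤ -cw a α i := AmpG.snn hα i
      nlinarith [Int.natCast_nonneg n]

/-- an admissible multipartition gives a feasible real one. -/
theorem KH9_feasE (a : I → I → ℕ) (α : I →₀ ℕ) (hα : AmpG a α) {n K : ℕ} (hn : 1 ≤ n)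
    (m : Fin K → I → ℕ) (hm : Adm a (n • α) m) :
    Feas a K (fun l j => (n : ℝ)⁻¹ * (mAt m l j : ℝ)) (fun i => (α i : ℝ)) := by
  have hn' : (0 : ℝ) < n := by exact_mod_cast hn
  refine ⟨fun l i => by positivity, fun l i h => ?_, fun i => ?_, fun k i => ?_⟩
  · have : mAt m l i = 0 := by
      unfold mAt
      rw [dif_neg]
      omega
    simp [this]
  · rw [KH9_mass m _ _ hm.1]
    simp only [Finsupp.smul_apply, smul_eq_mul]
    push_cast
    field_simp
  · rw [KH9_vac]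
    have := KH9_Adm_vacE a α hα m hm k i
    have h2 : (0 : ℝ) ≤ (PLF a m k i : ℝ) := by exact_mod_cast this
    positivity

theorem KH9_entE (a : I → I → ℕ) (α : I →₀ ℕ) (hα : AmpG a α) {n K : ℕ} (hn : 1 ≤ n)
    (m : Fin K → I → ℕ) (hm : Adm a (n • α) m) :
    EntR a K (fun l j => (n : ℝ)⁻¹ * (mAt m l j : ℝ)) =
      (n : ℝ)⁻¹ * ∑ l ∈ Finset.Icc 1 K, ∑ i, ent ((PLF a m l i).toNat : ℝ) (mAt m l i : ℝ) := by
  have hn' : (0 : ℝ) < n := by exact_mod_cast hn
  unfold EntR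
  rw [Finset.mul_sum]
  refine Finset.sum_congr rfl fun l _ => ?_
  rw [Finset.mul_sum]
  refine Finset.sum_congr rfl fun i _ => ?_
  have h1 := KH9_Adm_vacE a α hα m hm l i
  have h2 : ((PLF a m l i).toNat : ℝ) = (PLF a m l i : ℝ) := by
    have : (((PLF a m l i).toNat : ℤ) : ℝ) = (PLF a m l i : ℝ) := by rw [Int.toNat_of_nonneg h1]
    exact_mod_cast this
  rw [KH9_vac, h2, ent_smul (by positivity) (by exact_mod_cast h1) (by positivity)]

theorem hsup_le_PhiRE (a : I → I → ℕ) (hg : Eng a) (α : I →₀ ℕ) (hα : AmpG a α) :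
    hsup a α ≤ PhiR a (fun i => (α i : ℝ)) := by
  unfold hsup
  refine csSup_le ?_ ?_
  · obtain ⟨N0, hN0⟩ := Adm_existsE a hg α hα 2 le_rfl
    obtain ⟨m, hm⟩ := hN0 (max N0 1) (le_max_left _ _)
    exact ⟨_, 2, max N0 1, le_rfl, le_max_right _ _, m, hm, rfl⟩
  · rintro x ⟨K, n, hK, hn, m, hm, rfl⟩
    have hn' : (0 : ℝ) < n := by exact_mod_cast hn
    refine le_trans ?_ (le_PhiR (KH9_feasE a α hα hn m hm))
    rw [KH9_entE a α hα hn m hm, KH9_log_EW, div_eq_inv_mul]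
    refine mul_le_mul_of_nonneg_left ?_ (by positivity)
    exact Finset.sum_le_sum fun l _ => Finset.sum_le_sum fun i _ => log_choose_le _ _

end Pool.Agent.H27.KB

end

section

/-!
KAC ADE, growth part: the limit along a ray.
-/

set_option autoImplicit false

namespace Pool.Agent.H27.KB

open scoped BigOperators
open Pool.Agent.H27.KAC Pool.H88.KA
open Filter Topology

variable {I : Type} [Fintype I] [DecidableEq I]

theorem kGMain_iterE (a : I → I → ℕ) (α : I →₀ ℕ) (hα : AmpG a α) {K : ℕ} (n0 r : ℕ)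
    (hn0 : 1 ≤ n0) (hr : 1 ≤ r) (m0 mr : Fin K → I → ℕ) (h0 : Adm a (n0 • α) m0)
    (hr' : Adm a (r • α) mr) (q : ℕ) :
    ∃ m : Fin K → I → ℕ, Adm a ((q * n0 + r) • α) m ∧ (EW a m0) ^ q ≤ EW a m := by
  induction q with
  | zero =>
    refine ⟨mr, ?_, ?_⟩
    · rw [Nat.zero_mul, Nat.zero_add]
      exact hr'
    · rw [pow_zero]
      exact EW_pos a mr
  | succ q ih =>
    obtain ⟨m, hm, hE⟩ := ih
    have hA0 : AmpG a (n0 • α) := AmpG.nsmul hα n0 hn0
    have hA1 : AmpG a ((q * n0 + r) • α) := AmpG.nsmul hα _ (by omega)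
    have h1 := Adm_add a _ _ m0 m h0 hm
    have h2 := EW_add a _ _ m0 m h0 hm (AmpG.snn hA0) (AmpG.snn hA1)
    rw [← add_smul] at h1
    refine ⟨fun k i => m0 k i + m k i, ?_, ?_⟩
    · have h3 : (q + 1) * n0 + r = n0 + (q * n0 + r) := by ring
      rw [h3]
      exact h1
    · refine le_trans ?_ h2
      rw [pow_succ, mul_comm]
      exact Nat.mul_le_mul_left _ hE

/-- lower bound from one admissible multipartition. -/
theorem kGMain_lowerE (a : I → I → ℕ) (hg : Eng a)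
    (f : (I → ℕ) → ℚ) (hK : KacData a f) (α : I →₀ ℕ) (h : AmpG a α) (K n0 : ℕ) (hK2 : 2 ≤ K)
    (hn0 : 1 ≤ n0) (m0 : Fin K → I → ℕ) (h0 : Adm a (n0 • α) m0) :
    ∃ (N1 C : ℕ), 1 ≤ N1 ∧ 1 ≤ C ∧ ∀ n : ℕ, N1 ≤ n → 0 < f (fun i => n * α i) ∧
      (1 - ((N1 : ℝ) + n0) / n) * (Real.log (EW a m0) / n0) - C * (Real.log (C * n) / n) ≤
        Real.log ((f (fun i => n * α i) : ℚ) : ℝ) / n := by
  obtain ⟨N0, hN0⟩ := Adm_existsE a hg α h K hK2
  obtain ⟨C, hC1, hC⟩ := hg.low f hK α h K hK2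
  refine ⟨max N0 1, C, le_max_right _ _, hC1, ?_⟩
  intro n hn
  have hN1 : 1 ≤ max N0 1 := le_max_right _ _
  have hN0' : N0 ≤ max N0 1 := le_max_left _ _
  generalize max N0 1 = N1 at *
  -- division with remainder
  set q := (n - N1) / n0 with hq
  set r := n - q * n0 with hr
  have hdiv : q * n0 ≤ n - N1 := Nat.div_mul_le_self _ _
  have hlt : n - N1 < (q + 1) * n0 := by
    rw [hq, add_mul, one_mul]
    have := Nat.lt_div_mul_add (a := n - N1) (b := n0) (by omega)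
    exact this
  have hrN : N1 ≤ r := by omega
  have hqr : q * n0 + r = n := by omega
  obtain ⟨mr, hmr⟩ := hN0 r (hN0'.trans hrN)
  obtain ⟨m, hm, hE⟩ := kGMain_iterE a α h n0 r hn0 (hN1.trans hrN) m0 mr h0 hmr q
  rw [hqr] at hm
  have hn1 : 1 ≤ n := hN1.trans hn
  have hnpos : (0 : ℝ) < n := by exact_mod_cast hn1
  have hCpos : (0 : ℝ) < C := by exact_mod_cast hC1
  have hn0pos : (0 : ℝ) < n0 := by exact_mod_cast hn0
  have h1 := hC n hn1 m hm
  have hE1 : (1 : ℝ) ≤ EW a m0 := by exact_mod_cast EW_pos a m0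
  have hE2 : ((EW a m0 : ℝ)) ^ q ≤ EW a m := by exact_mod_cast hE
  have hE3 : (1 : ℝ) ≤ (EW a m0 : ℝ) ^ q := one_le_pow₀ hE1
  have hpow : (0 : ℝ) < ((C : ℝ) * n) ^ C := by positivity
  have hfpos : (0 : ℝ) < ((f (n • α) : ℚ) : ℝ) := by
    by_contra hcon
    push Not at hcon
    have : ((C : ℝ) * n) ^ C * ((f (n • α) : ℚ) : ℝ) ≤ 0 :=
      mul_nonpos_of_nonneg_of_nonpos hpow.le hcon
    linarith
  rw [kGMain_coe f α n]
  refine ⟨by exact_mod_cast hfpos, ?_⟩
  have hlog : (q : ℝ) * Real.log (EW a m0) ≤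
      C * Real.log (C * n) + Real.log ((f (n • α) : ℚ) : ℝ) := by
    have h2 : Real.log ((EW a m0 : ℝ) ^ q) ≤
        Real.log (((C : ℝ) * n) ^ C * ((f (n • α) : ℚ) : ℝ)) :=
      Real.log_le_log (by positivity) (hE2.trans h1)
    rw [Real.log_pow, Real.log_mul hpow.ne' hfpos.ne', Real.log_pow] at h2
    exact h2
  have hE0 : 0 ≤ Real.log (EW a m0) := Real.log_nonneg hE1
  have hqn : ((n : ℝ) - N1 - n0) / n0 ≤ q := by
    rw [div_le_iff₀ hn0pos]
    have h3 : n < (q + 1) * n0 + N1 := by omega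
    have h4 : (n : ℝ) < (q + 1) * n0 + N1 := by exact_mod_cast h3
    linarith
  have h5 : ((n : ℝ) - N1 - n0) / n0 * Real.log (EW a m0) ≤ q * Real.log (EW a m0) :=
    mul_le_mul_of_nonneg_right hqn hE0
  rw [le_div_iff₀ hnpos]
  have h6 : ((1 - ((N1 : ℝ) + n0) / n) * (Real.log (EW a m0) / n0) -
      C * (Real.log (C * n) / n)) * n =
      ((n : ℝ) - N1 - n0) / n0 * Real.log (EW a m0) - C * Real.log (C * n) := by
    field_simp
    ring
  rw [h6]
  linarith

theorem growth_AmpleE (a : I → I → ℕ) (hg : Eng a) (hc : Conn a) (hne : Nonempty I)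
    (f : (I → ℕ) → ℚ) (hK : KacData a f) (hf : ∀ β, 0 ≤ f β) (α : I →₀ ℕ) (h : AmpG a α) :
    ∃ l : ℝ, 0 ≤ l ∧ (∀ᶠ n : ℕ in atTop, 0 < f (fun i => n * α i)) ∧
      Tendsto (fun n : ℕ => Real.log ((f (fun i => n * α i) : ℚ) : ℝ) / n) atTop (𝓝 l) := by
  -- the set of the supremum is nonempty
  have hnon : {x : ℝ | ∃ K n : ℕ, 2 ≤ K ∧ 1 ≤ n ∧ ∃ m : Fin K → I → ℕ, Adm a (n • α) m ∧
      x = Real.log (EW a m) / n}.Nonempty := by
    obtain ⟨N0, hN0⟩ := Adm_existsE a hg α h 2 le_rfl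
    obtain ⟨m, hm⟩ := hN0 (max N0 1) (le_max_left _ _)
    exact ⟨_, 2, max N0 1, le_rfl, le_max_right _ _, m, hm, rfl⟩
  have hpos : ∀ᶠ n : ℕ in atTop, 0 < f (fun i => n * α i) := by
    obtain ⟨x, K, n0, hK2, hn0, m0, hm0, -⟩ := hnon
    obtain ⟨N1, C, hN1, hC1, hlow⟩ := kGMain_lowerE a hg f hK α h K n0 hK2 hn0 m0 hm0
    filter_upwards [eventually_ge_atTop N1] with n hn
    exact (hlow n hn).1
  refine ⟨hsup a α, hsup_nonnegE a hg α h, hpos, ?_⟩
  have hinv : Tendsto (fun n : ℕ => ((n : ℝ))⁻¹) atTop (𝓝 0) :=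
    tendsto_inv_atTop_nhds_zero_nat
  refine tendsto_order.2 ⟨?_, ?_⟩
  · intro b hb
    obtain ⟨x, ⟨K, n0, hK2, hn0, m0, hm0, rfl⟩, hbx⟩ := exists_lt_of_lt_csSup hnon hb
    obtain ⟨N1, C, hN1, hC1, hlow⟩ := kGMain_lowerE a hg f hK α h K n0 hK2 hn0 m0 hm0
    have hCpos : (0 : ℝ) < C := by exact_mod_cast hC1
    have hlim : Tendsto (fun n : ℕ => (1 - ((N1 : ℝ) + n0) / n) * (Real.log (EW a m0) / n0) -
        C * (Real.log (C * n) / n)) atTop
        (𝓝 ((1 - 0) * (Real.log (EW a m0) / n0) - C * 0)) := by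
      refine Tendsto.sub (Tendsto.mul_const _ (Tendsto.sub tendsto_const_nhds ?_))
        ((kGMain_log C hCpos).const_mul _)
      have := hinv.const_mul ((N1 : ℝ) + n0)
      rw [mul_zero] at this
      exact this
    rw [sub_zero, one_mul, mul_zero, sub_zero] at hlim
    filter_upwards [hlim.eventually (lt_mem_nhds hbx), eventually_ge_atTop N1] with n h1 h2
    exact lt_of_lt_of_le h1 (hlow n h2).2
  · intro b hb
    have hε : 0 < (b - hsup a α) / 3 := by linarith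
    have hh0 := hsup_nonnegE a hg α h
    obtain ⟨q, hq⟩ := exists_nat_gt (hsup a α / ((b - hsup a α) / 3))
    have hq0 : (0 : ℝ) < q := lt_of_le_of_lt (by positivity) hq
    have hq1 : 1 ≤ q := by
      have : 0 < q := by exact_mod_cast hq0
      omega
    have hqh : hsup a α / q < (b - hsup a α) / 3 := by
      rw [div_lt_iff₀ hε] at hq
      rw [div_lt_iff₀ hq0]
      linarith
    obtain ⟨N2, T, C, hC1, hup⟩ := f_upperE a hg f hK hf α h hne _ hε q hq1
    have hlim : Tendsto (fun n : ℕ => (1 + 1 / (q : ℝ) + T * (n : ℝ)⁻¹) * hsup a α +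
        Real.log C * (n : ℝ)⁻¹ + (b - hsup a α) / 3) atTop
        (𝓝 ((1 + 1 / (q : ℝ) + T * 0) * hsup a α + Real.log C * 0 + (b - hsup a α) / 3)) :=
      (((tendsto_const_nhds.add (hinv.const_mul _)).mul_const _).add (hinv.const_mul _)).add
        tendsto_const_nhds
    have hlt : (1 + 1 / (q : ℝ) + T * 0) * hsup a α + Real.log C * 0 + (b - hsup a α) / 3 < b := by
      have h1 : 1 / (q : ℝ) * hsup a α = hsup a α / q := by ring
      have h2 : (1 + 1 / (q : ℝ) + T * 0) * hsup a α + Real.log C * 0 + (b - hsup a α) / 3 =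
          hsup a α + 1 / (q : ℝ) * hsup a α + (b - hsup a α) / 3 := by ring
      rw [h2, h1]
      linarith
    filter_upwards [hlim.eventually (gt_mem_nhds hlt), eventually_ge_atTop N2,
      eventually_ge_atTop 1, hpos] with n h1 h2 h3 h4
    refine lt_of_le_of_lt ?_ h1
    have hnpos : (0 : ℝ) < n := by exact_mod_cast h3
    have h5 := hup n h2
    rw [kGMain_coe f α n] at h4 ⊢
    have h6 : (0 : ℝ) < ((f (n • α) : ℚ) : ℝ) := by exact_mod_cast h4
    have hCpos : (0 : ℝ) < C := by linarith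
    have h7 := Real.log_le_log h6 h5
    rw [Real.log_mul (Real.exp_pos _).ne' (mul_pos hCpos (Real.exp_pos _)).ne',
      Real.log_mul hCpos.ne' (Real.exp_pos _).ne', Real.log_exp, Real.log_exp] at h7
    rw [div_le_iff₀ hnpos]
    refine h7.trans (le_of_eq ?_)
    field_simp
    ring

end Pool.Agent.H27.KB

end

section

/-!
KAC ADE, growth part: comparison with the real entropy, second half.
-/

set_option autoImplicit false

namespace Pool.Agent.H27.KB

open scoped BigOperators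
open Pool.Agent.H27.KAC Pool.H88.KA
open Filter Topology

variable {I : Type} [Fintype I] [DecidableEq I]

theorem KH10_strictE (a : I → I → ℕ) (α : I →₀ ℕ) (hα : AmpG a α) (K : ℕ) (hK : 2 ≤ K)
    (w : ℕ → I → ℝ) (hw : Feas a K w (fun i => (α i : ℝ))) (h1 : ∀ i, 0 < w 1 i)
    (hv : ∀ k i, 1 ≤ k → k < K → 0 < vacR a K w k i) : EntR a K w ≤ hsup a α := by
  have hK1 : 1 ≤ K := by omega
  -- eventually admissible
  have hA : ∀ᶠ n : ℕ in atTop, Adm a (n • α) (KH10_F K w α n) := by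
    have e1 : ∀ i, ∀ᶠ n : ℕ in atTop, 1 ≤ mAt (KH10_F K w α n) 1 i := by
      intro i
      have := (KH10_tendsto K hK1 w α hw.nn hw.mass 1 le_rfl hK1 i).eventually
        (eventually_gt_nhds (h1 i))
      filter_upwards [this] with n hn
      by_contra hc
      have : mAt (KH10_F K w α n) 1 i = 0 := by omega
      rw [this] at hn
      simp at hn
    have e2 : ∀ i, ∀ k ∈ Finset.Ico 1 K, ∀ᶠ n : ℕ in atTop, 1 ≤ PLF a (KH10_F K w α n) k i := by
      intro i k hk
      rw [Finset.mem_Ico] at hk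
      have := (KH10_vac_tendsto a K hK1 w α hw.nn hw.mass k i).eventually
        (eventually_gt_nhds (hv k i hk.1 hk.2))
      filter_upwards [this, eventually_ge_atTop 1] with n hn hn1
      have hn' : (0 : ℝ) < n := by exact_mod_cast hn1
      have h5 : (0 : ℝ) < (PLF a (KH10_F K w α n) k i : ℝ) := by
        by_contra hc
        have := mul_nonpos_of_nonneg_of_nonpos (inv_nonneg.2 hn'.le) (not_lt.1 hc)
        linarith
      have h6 : 0 < PLF a (KH10_F K w α n) k i := by exact_mod_cast h5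
      omega
    have e3 : ∀ᶠ n : ℕ in atTop, ∀ i, 1 ≤ mAt (KH10_F K w α n) 1 i := eventually_all.2 e1
    have e4 : ∀ᶠ n : ℕ in atTop, ∀ i, ∀ k ∈ Finset.Ico 1 K, 1 ≤ PLF a (KH10_F K w α n) k i :=
      eventually_all.2 fun i => (eventually_all_finset _).2 (e2 i)
    filter_upwards [e3, e4] with n h3 h4
    refine ⟨?_, h3, fun l hl hlK i => h4 i l (Finset.mem_Ico.2 ⟨hl, hlK⟩)⟩
    have := KH10_mass K hK1 w α hw.nn hw.mass n
    rw [KG5_coe]
    exact this
  -- the bound for the logarithms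
  set C : ℝ := ((∑ i, ∑ j, a i j * α j + ∑ i, α i + 1 : ℕ) : ℝ) with hC
  have hCpos : 0 < C := by
    rw [hC]
    positivity
  have hb : ∀ᶠ n : ℕ in atTop,
      EntR a K (fun l j => (n : ℝ)⁻¹ * (mAt (KH10_F K w α n) l j : ℝ)) -
        (K * Fintype.card I : ℕ) * (Real.log (C * n) / n) ≤ hsup a α := by
    filter_upwards [hA, eventually_ge_atTop 1] with n hn hn1
    have hn' : (0 : ℝ) < n := by exact_mod_cast hn1
    have h2 : Real.log (EW a (KH10_F K w α n)) / n ≤ hsup a α :=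
      le_csSup (hsup_bddE a α hα) ⟨K, n, hK, hn1, _, hn, rfl⟩
    refine le_trans ?_ h2
    rw [KH9_entE a α hα hn1 _ hn, KH9_log_EW, div_eq_inv_mul, div_eq_inv_mul, mul_left_comm,
      ← mul_sub]
    refine mul_le_mul_of_nonneg_left ?_ (inv_nonneg.2 hn'.le)
    have h3 : ((K * Fintype.card I : ℕ) : ℝ) * Real.log (C * n) =
        ∑ l ∈ Finset.Icc 1 K, ∑ i : I, Real.log (C * n) := by
      simp [mul_assoc]
    rw [h3, ← Finset.sum_sub_distrib]
    refine Finset.sum_le_sum fun l hl => ?_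
    rw [Finset.mem_Icc] at hl
    rw [← Finset.sum_sub_distrib]
    refine Finset.sum_le_sum fun i _ => ?_
    have h4 := ent_le_log_choose (PLF a (KH10_F K w α n) l i).toNat (mAt (KH10_F K w α n) l i)
    have h5 : Real.log (((PLF a (KH10_F K w α n) l i).toNat : ℝ) +
        (mAt (KH10_F K w α n) l i : ℝ) + 1) ≤ Real.log (C * n) := by
      refine Real.log_le_log (by positivity) ?_
      have h6 : (PLF a (KH10_F K w α n) l i).toNat ≤ (∑ i, ∑ j, a i j * α j) * n := by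
        have := Int.toNat_le.2 (KG5_PLF a α (KH10_F K w α n) hn.1 l i)
        exact this
      have h7 : mAt (KH10_F K w α n) l i ≤ (∑ i, α i) * n := by
        have h8 : mAt (KH10_F K w α n) l i ≤ n * α i := by
          unfold mAt
          rw [dif_pos hl]
          have h9 := (Finset.mem_filter.1 hn.1).2 i
          simp only [Finsupp.smul_apply, smul_eq_mul] at h9
          rw [← h9]
          calc KH10_F K w α n ⟨l - 1, by omega⟩ i
              ≤ ((⟨l - 1, by omega⟩ : Fin K) + 1 : ℕ) * KH10_F K w α n ⟨l - 1, by omega⟩ i :=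
                Nat.le_mul_of_pos_left _ (Nat.succ_pos _)
            _ ≤ _ := Finset.single_le_sum
                (f := fun k : Fin K => ((k : ℕ) + 1) * KH10_F K w α n k i)
                (fun _ _ => Nat.zero_le _) (Finset.mem_univ _)
        refine h8.trans ?_
        rw [mul_comm]
        exact Nat.mul_le_mul_right n (Finset.single_le_sum (f := fun i => α i)
          (fun _ _ => Nat.zero_le _) (Finset.mem_univ i))
      have h10 : (PLF a (KH10_F K w α n) l i).toNat + mAt (KH10_F K w α n) l i + 1 ≤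
          (∑ i, ∑ j, a i j * α j + ∑ i, α i + 1) * n := by
        nlinarith
      rw [hC]
      exact_mod_cast h10
    linarith
  have hlim : Tendsto (fun n : ℕ =>
      EntR a K (fun l j => (n : ℝ)⁻¹ * (mAt (KH10_F K w α n) l j : ℝ)) -
        (K * Fintype.card I : ℕ) * (Real.log (C * n) / n)) atTop
      (𝓝 (EntR a K w - (K * Fintype.card I : ℕ) * 0)) := by
    refine Tendsto.sub ?_ ((kGMain_log C hCpos).const_mul _)
    unfold EntR
    refine tendsto_finsetSum _ fun l hl => ?_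
    rw [Finset.mem_Icc] at hl
    refine tendsto_finsetSum _ fun i _ => ?_
    have h3 : Tendsto (fun n : ℕ =>
        vacR a K (fun l j => (n : ℝ)⁻¹ * (mAt (KH10_F K w α n) l j : ℝ)) l i) atTop
        (𝓝 (vacR a K w l i)) := by
      refine (KH10_vac_tendsto a K hK1 w α hw.nn hw.mass l i).congr fun n => ?_
      rw [KH9_vac]
    have h4 := KH10_tendsto K hK1 w α hw.nn hw.mass l hl.1 hl.2 i
    exact KH10_ent_tendsto h3 h4
  rw [mul_zero, sub_zero] at hlim
  exact le_of_tendsto hlim hb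

theorem PhiR_le_hsupE (a : I → I → ℕ) (hg : Eng a) (α : I →₀ ℕ) (hα : AmpG a α) :
    PhiR a (fun i => (α i : ℝ)) ≤ hsup a α := by
  obtain ⟨N0, hN0⟩ := Adm_existsE a hg α hα 2 le_rfl
  obtain ⟨m1, hm1⟩ := hN0 (max N0 1) (le_max_left _ _)
  have hkon : Kon a (fun i => (α i : ℝ)) :=
    (KH9_feasE a α hα (le_max_right _ _) m1 hm1).kon
  refine PhiR_le hkon fun K0 m hm0 => ?_
  obtain ⟨K, hK, hK0⟩ : ∃ K, 2 ≤ K ∧ K0 ≤ K := ⟨max K0 2, le_max_right _ _, le_max_left _ _⟩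
  have hm := hm0.enlarge hK0
  rw [← EntR_enlarge hm0 hK0]
  clear hm0 hK0
  obtain ⟨N1, hN1⟩ := Adm_existsE a hg α hα K hK
  obtain ⟨m2, hm2⟩ := hN1 (max N1 1) (le_max_left _ _)
  set n := max N1 1 with hn
  have hn1 : 1 ≤ n := le_max_right _ _
  have hn' : (0 : ℝ) < n := by exact_mod_cast hn1
  have hf := KH9_feasE a α hα hn1 m2 hm2
  have hf1 : ∀ i, 0 < (n : ℝ)⁻¹ * (mAt m2 1 i : ℝ) := by
    intro i
    have : (0 : ℝ) < (mAt m2 1 i : ℝ) := by exact_mod_cast hm2.2.1 i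
    positivity
  have hf2 : ∀ k i, 1 ≤ k → k < K →
      0 < vacR a K (fun l j => (n : ℝ)⁻¹ * (mAt m2 l j : ℝ)) k i := by
    intro k i h1 h2
    rw [KH9_vac]
    have : (0 : ℝ) < (PLF a m2 k i : ℝ) := by
      have := hm2.2.2 k h1 h2 i
      exact_mod_cast this
    positivity
  have key : ∀ η : ℝ, 0 < η → η < 1 → (1 - η) * EntR a K m ≤ hsup a α := by
    intro η h0 h1
    have g1 := hm.smul (t := 1 - η) (by linarith)
    have g2 := hf.smul (t := η) h0.le
    have g3 := g1.add g2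
    have g4 : (1 - η) • (fun i => (α i : ℝ)) + η • (fun i => (α i : ℝ)) = fun i => (α i : ℝ) := by
      rw [← add_smul]
      simp
    rw [g4] at g3
    have g5 := EntR_add g1 g2
    rw [EntR_smul hm (by linarith), EntR_smul hf h0.le] at g5
    have g6 := hf.EntR_nonneg
    have g7 : (1 - η) * EntR a K m ≤ (1 - η) * EntR a K m + η *
        EntR a K (fun l j => (n : ℝ)⁻¹ * (mAt m2 l j : ℝ)) :=
      le_add_of_nonneg_right (mul_nonneg h0.le g6)
    refine (g7.trans g5).trans ?_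
    refine KH10_strictE a α hα K hK _ g3 (fun i => ?_) (fun k i hk hkK => ?_)
    · have := hm.nn 1 i
      have h2 := hf1 i
      have h3 : 0 ≤ (1 - η) * m 1 i := mul_nonneg (by linarith) this
      have h4 : 0 < η * ((n : ℝ)⁻¹ * (mAt m2 1 i : ℝ)) := mul_pos h0 h2
      linarith
    · rw [vacR_add, vacR_smul, vacR_smul]
      have h2 := hm.vac k i
      have h3 := hf2 k i hk hkK
      have h4 : 0 ≤ (1 - η) * vacR a K m k i := mul_nonneg (by linarith) h2
      have h5 := mul_pos h0 h3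
      linarith
  -- let η tend to zero
  have hE := hm.EntR_nonneg
  by_contra hc
  have hc' : hsup a α < EntR a K m := not_le.1 hc
  have hpos : 0 < EntR a K m := lt_of_le_of_lt (hsup_nonnegE a hg α hα) hc'
  have h2 := key (1 - (hsup a α + EntR a K m) / (2 * EntR a K m)) (by
    rw [sub_pos, div_lt_one (by positivity)]
    linarith) (by
    have := hsup_nonnegE a hg α hα
    have : 0 < (hsup a α + EntR a K m) / (2 * EntR a K m) := by positivity
    linarith)
  rw [sub_sub_cancel] at h2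
  have h3 : (hsup a α + EntR a K m) / (2 * EntR a K m) * EntR a K m =
      (hsup a α + EntR a K m) / 2 := by
    field_simp
  rw [h3] at h2
  linarith

end Pool.Agent.H27.KB

end

section

/-!
KAC ADE, growth part: the limit is hsup.
-/

set_option autoImplicit false

namespace Pool.Agent.H27.KB

open scoped BigOperators
open Pool.Agent.H27.KAC Pool.H88.KA
open Filter Topology

variable {I : Type} [Fintype I] [DecidableEq I]

theorem growth_Ample_hsupE (a : I → I → ℕ) (hg : Eng a) (hne : Nonempty I)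
    (f : (I → ℕ) → ℚ) (hK : KacData a f) (hf : ∀ β, 0 ≤ f β) (α : I →₀ ℕ) (h : AmpG a α) :
    0 ≤ hsup a α ∧ (∀ᶠ n : ℕ in atTop, 0 < f (fun i => n * α i)) ∧
      Tendsto (fun n : ℕ => Real.log ((f (fun i => n * α i) : ℚ) : ℝ) / n) atTop
        (𝓝 (hsup a α)) := by
  -- the set of the supremum is nonempty
  have hnon : {x : ℝ | ∃ K n : ℕ, 2 ≤ K ∧ 1 ≤ n ∧ ∃ m : Fin K → I → ℕ, Adm a (n • α) m ∧
      x = Real.log (EW a m) / n}.Nonempty := by
    obtain ⟨N0, hN0⟩ := Adm_existsE a hg α h 2 le_rfl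
    obtain ⟨m, hm⟩ := hN0 (max N0 1) (le_max_left _ _)
    exact ⟨_, 2, max N0 1, le_rfl, le_max_right _ _, m, hm, rfl⟩
  have hpos : ∀ᶠ n : ℕ in atTop, 0 < f (fun i => n * α i) := by
    obtain ⟨x, K, n0, hK2, hn0, m0, hm0, -⟩ := hnon
    obtain ⟨N1, C, hN1, hC1, hlow⟩ := kGMain_lowerE a hg f hK α h K n0 hK2 hn0 m0 hm0
    filter_upwards [eventually_ge_atTop N1] with n hn
    exact (hlow n hn).1
  refine ⟨hsup_nonnegE a hg α h, hpos, ?_⟩
  have hinv : Tendsto (fun n : ℕ => ((n : ℝ))⁻¹) atTop (𝓝 0) :=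
    tendsto_inv_atTop_nhds_zero_nat
  refine tendsto_order.2 ⟨?_, ?_⟩
  · intro b hb
    obtain ⟨x, ⟨K, n0, hK2, hn0, m0, hm0, rfl⟩, hbx⟩ := exists_lt_of_lt_csSup hnon hb
    obtain ⟨N1, C, hN1, hC1, hlow⟩ := kGMain_lowerE a hg f hK α h K n0 hK2 hn0 m0 hm0
    have hCpos : (0 : ℝ) < C := by exact_mod_cast hC1
    have hlim : Tendsto (fun n : ℕ => (1 - ((N1 : ℝ) + n0) / n) * (Real.log (EW a m0) / n0) -
        C * (Real.log (C * n) / n)) atTop
        (𝓝 ((1 - 0) * (Real.log (EW a m0) / n0) - C * 0)) := by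
      refine Tendsto.sub (Tendsto.mul_const _ (Tendsto.sub tendsto_const_nhds ?_))
        ((kGMain_log C hCpos).const_mul _)
      have := hinv.const_mul ((N1 : ℝ) + n0)
      rw [mul_zero] at this
      exact this
    rw [sub_zero, one_mul, mul_zero, sub_zero] at hlim
    filter_upwards [hlim.eventually (lt_mem_nhds hbx), eventually_ge_atTop N1] with n h1 h2
    exact lt_of_lt_of_le h1 (hlow n h2).2
  · intro b hb
    have hε : 0 < (b - hsup a α) / 3 := by linarith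
    have hh0 := hsup_nonnegE a hg α h
    obtain ⟨q, hq⟩ := exists_nat_gt (hsup a α / ((b - hsup a α) / 3))
    have hq0 : (0 : ℝ) < q := lt_of_le_of_lt (by positivity) hq
    have hq1 : 1 ≤ q := by
      have : 0 < q := by exact_mod_cast hq0
      omega
    have hqh : hsup a α / q < (b - hsup a α) / 3 := by
      rw [div_lt_iff₀ hε] at hq
      rw [div_lt_iff₀ hq0]
      linarith
    obtain ⟨N2, T, C, hC1, hup⟩ := f_upperE a hg f hK hf α h hne _ hε q hq1
    have hlim : Tendsto (fun n : ℕ => (1 + 1 / (q : ℝ) + T * (n : ℝ)⁻¹) * hsup a α +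
        Real.log C * (n : ℝ)⁻¹ + (b - hsup a α) / 3) atTop
        (𝓝 ((1 + 1 / (q : ℝ) + T * 0) * hsup a α + Real.log C * 0 + (b - hsup a α) / 3)) :=
      (((tendsto_const_nhds.add (hinv.const_mul _)).mul_const _).add (hinv.const_mul _)).add
        tendsto_const_nhds
    have hlt : (1 + 1 / (q : ℝ) + T * 0) * hsup a α + Real.log C * 0 + (b - hsup a α) / 3 < b := by
      have h1 : 1 / (q : ℝ) * hsup a α = hsup a α / q := by ring
      have h2 : (1 + 1 / (q : ℝ) + T * 0) * hsup a α + Real.log C * 0 + (b - hsup a α) / 3 =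
          hsup a α + 1 / (q : ℝ) * hsup a α + (b - hsup a α) / 3 := by ring
      rw [h2, h1]
      linarith
    filter_upwards [hlim.eventually (gt_mem_nhds hlt), eventually_ge_atTop N2,
      eventually_ge_atTop 1, hpos] with n h1 h2 h3 h4
    refine lt_of_le_of_lt ?_ h1
    have hnpos : (0 : ℝ) < n := by exact_mod_cast h3
    have h5 := hup n h2
    rw [kGMain_coe f α n] at h4 ⊢
    have h6 : (0 : ℝ) < ((f (n • α) : ℚ) : ℝ) := by exact_mod_cast h4
    have hCpos : (0 : ℝ) < C := by linarith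
    have h7 := Real.log_le_log h6 h5
    rw [Real.log_mul (Real.exp_pos _).ne' (mul_pos hCpos (Real.exp_pos _)).ne',
      Real.log_mul hCpos.ne' (Real.exp_pos _).ne', Real.log_exp, Real.log_exp] at h7
    rw [div_le_iff₀ hnpos]
    refine h7.trans (le_of_eq ?_)
    field_simp
    ring

end Pool.Agent.H27.KB

end

section

/-!
KAC ADE: glue between the engine and the growth part.
-/

set_option autoImplicit false

namespace Pool.Agent.H40.KADE

open scoped BigOperators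
open Pool.Agent.H27.KAC Pool.Agent.H27.KB Pool.H88.KA

/-- the output of the cluster calculus for all symmetric matrices. -/
def AllCal : Prop :=
  ∀ (I : Type) [Fintype I] [DecidableEq I] (a : I → I → ℕ), (∀ i j, a i j = a j i) →
    (∀ i, a i i ≠ 1) → ∃ (cn : Finset I → (I → ℚ) → ℕ → ℚ)
      (G : ℕ → (I → ℚ) → (I → ℚ) → (I → ℚ) → (I → I → ℚ) → (I → I → ℚ) → Finset I → (I → ℚ) →
        (Finset I → ℕ → ℚ) → ℚ), CN a cn ∧ ClusterVal a cn G

theorem amp_of_ampG {I : Type} [Fintype I] [DecidableEq I] {a : I → I → ℕ} {α : I →₀ ℕ}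
    (h : AmpG a α) : Amp a α :=
  ⟨h.supp, h.pos, h.posl, h.ex⟩

theorem eng_of_cal {I : Type} [Fintype I] [DecidableEq I] (a : I → I → ℕ)
    (hs : ∀ i j, a i j = a j i) (hd : ∀ i, a i i ≠ 1) (hc : Conn a)
    {cn : Finset I → (I → ℚ) → ℕ → ℚ} (hcn : CN a cn)
    {G : ℕ → (I → ℚ) → (I → ℚ) → (I → ℚ) → (I → I → ℚ) → (I → I → ℚ) → Finset I → (I → ℚ) →
      (Finset I → ℕ → ℚ) → ℚ} (hG : ClusterVal a cn G) : Eng a where
  symm := hs
  diag := hd
  conn := hc
  nonneg := fun f hK α hα => f_nonneg_amp a hs hd hc hcn hG f hK α (amp_of_ampG hα)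
  low := fun f hK α hα K hK2 => EW_le_fZ a hs hd hc hcn hG f hK α (amp_of_ampG hα) K hK2

end Pool.Agent.H40.KADE

end
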