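import Pool.Agent.H16.TKA.M15
import Pool.Agent.H16.TKA.M22
import Pool.Agent.H16.TKA.M28

/-! The parts of this file: H27.KAC.PII_HuaK, H27.KAC.PII_Lim, H27.KAC.PII_Main, H27.KAC.PR_Poly, H27.KAC.PR_Main, H27.KAC.PR_Out, H27.KAC.Interface, H27.KAC.KH13, H27.KAC.KH18, H27.KAC.KIInt, H27.KAC.KM1, H88.KA.AF4, H88.KA.AF5_1, H27.KB.F1, H27.KB.F2, H40.KADE.Glue_1. -/

section

/-!
Project KAC, part II.3: the formula of Hua in the field `KK`.
-/

set_option autoImplicit false

namespace Pool.Agent.H27.KAC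

open scoped BigOperators
open Polynomial

/-- The number of classes over the field with `l ^ N` elements is given by the polynomial. -/
theorem HuaK_kacA {I E : Type} (Q : Quiv I E) (β : I → ℕ) (p : ℚ[X])
    (h : IsKacPoly Q β p) (l : ℕ) (hl : l.Prime) (N : ℕ) (hN : 1 ≤ N) :
    (kacA Q β (l ^ N) : ℚ) = p.eval ((l : ℚ) ^ N) := by
  have : Fact (Nat.Prime l) := ⟨hl⟩
  have hN0 : N ≠ 0 := by omega
  have hfin : Finite (GaloisField l N) := by
    apply Nat.finite_of_card_ne_zero
    rw [GaloisField.card l _ hN0]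
    exact pow_ne_zero _ hl.ne_zero
  let _ : Fintype (GaloisField l N) := Fintype.ofFinite _
  have hcard : Fintype.card (GaloisField l N) = l ^ N := by
    rw [← Nat.card_eq_fintype_card, GaloisField.card l _ hN0]
  have h1 := h (GaloisField l N)
  rw [hcard] at h1
  rw [← hcard, kacA_card, h1]
  push_cast
  rfl

variable {I E : Type} [Fintype I] [DecidableEq I] [Fintype E]

/-- The coefficient of `X^β` in `log P` as an element of `KK`; `p β` is the polynomial `A_β`. -/
noncomputable def LK (p : (I → ℕ) → ℚ[X]) (β : I →₀ ℕ) : KK :=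
  ∑ N ∈ (Finset.range (∑ i, β i + 1)).filter (fun N => 1 ≤ N ∧ ∀ i, N ∣ β i),
    aeval (qK ^ N) (p (fun i => β i / N)) / ((N : KK) * (qK ^ N - 1))

/-- For a prime number `l` and `N ≥ 1`: `kacA Q γ (l ^ N) = (p γ).eval (l ^ N)` by `kacA_card` for the
field `GaloisField l N` (`GaloisField.card`). -/
theorem Lc_eq (Q : Quiv I E) {p : (I → ℕ) → ℚ[X]} (hp : ∀ α, IsKacPoly Q α (p α)) (l : ℕ)
    (hl : l.Prime) (β : I →₀ ℕ) :
    Lc Q l β = ∑ N ∈ (Finset.range (∑ i, β i + 1)).filter (fun N => 1 ≤ N ∧ ∀ i, N ∣ β i),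
      (p (fun i => β i / N)).eval ((l : ℚ) ^ N) / ((N : ℚ) * ((l : ℚ) ^ N - 1)) := by
  unfold Lc
  refine Finset.sum_congr rfl fun N hN => ?_
  rw [Finset.mem_filter] at hN
  rw [HuaK_kacA Q _ _ (hp _) l hl N hN.2.1]

theorem LK_rel (p : (I → ℕ) → ℚ[X]) (β : I →₀ ℕ) :
    Rel (fun c => ∑ N ∈ (Finset.range (∑ i, β i + 1)).filter (fun N => 1 ≤ N ∧ ∀ i, N ∣ β i),
      (p (fun i => β i / N)).eval (c ^ N) / ((N : ℚ) * (c ^ N - 1))) (LK p β) := by
  unfold LK
  refine Rel.sum _ fun N hN => ?_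
  rw [Finset.mem_filter] at hN
  have hN1 : 1 ≤ N := hN.2.1
  have h1 : Rel (fun c => (p (fun i => β i / N)).eval (c ^ N))
      (aeval (qK ^ N) (p (fun i => β i / N))) := by
    have h2 := Rel.poly ((p (fun i => β i / N)).comp (X ^ N))
    rw [aeval_comp, map_pow, aeval_X] at h2
    exact h2.congr fun c _ => by simp
  have h3 : Rel (fun c => (N : ℚ) * (c ^ N - 1)) ((N : KK) * (qK ^ N - 1)) := by
    have h4 := (Rel.const (N : ℚ)).mul ((Rel.var.pow N).sub (Rel.const 1))
    rw [map_one, map_natCast] at h4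
    exact h4
  have h5 : ∀ c : ℚ, 1 < c → (N : ℚ) * (c ^ N - 1) ≠ 0 := by
    intro c hc
    have h6 : 1 < c ^ N := one_lt_pow₀ hc (by omega)
    have h7 : (N : ℚ) ≠ 0 := by positivity
    exact mul_ne_zero h7 (by linarith)
  rw [div_eq_mul_inv]
  exact (h1.mul (h3.inv h5)).congr fun c _ => (div_eq_mul_inv _ _).symm

/-- The series `∑_β β_j LK_β X^β`. -/
noncomputable def LKser (p : (I → ℕ) → ℚ[X]) (j : I) : MvPowerSeries I KK :=
  fun β => (β j : KK) * LK p β

omit [DecidableEq I] in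
theorem coeff_LKser (p : (I → ℕ) → ℚ[X]) (j : I) (β : I →₀ ℕ) :
    MvPowerSeries.coeff β (LKser p j) = (β j : KK) * LK p β := rfl

theorem HuaK_coeff_Fs {K : Type} [Field K] (q : K) (A : I → I → ℕ) (α : I →₀ ℕ) :
    MvPowerSeries.coeff α (Fs q A 0) = ∑ m ∈ mps α, cc q A m := by
  show ∑ m ∈ mps α, q ^ (dotm 0 m) * cc q A m = _
  refine Finset.sum_congr rfl fun m _ => ?_
  have h : dotm (0 : Prt I → ℤ) m = 0 := by
    unfold dotm
    simp
  rw [h, zpow_zero, one_mul]

/-- `hua_log` for `F = ZMod l`, `l` prime, `Pc_formula`, `Rel.eq`; the sum over the `β ≤ α` is the sum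
over the antidiagonal (`MvPowerSeries.coeff_mul`). -/
theorem hua_K (Q : Quiv I E) {p : (I → ℕ) → ℚ[X]} (hp : ∀ α, IsKacPoly Q α (p α)) (j : I) :
    eul j (Fs qK (adj Q) 0) = Fs qK (adj Q) 0 * LKser p j := by
  ext α
  rw [pii_coeff_eul, MvPowerSeries.coeff_mul]
  simp only [HuaK_coeff_Fs, coeff_LKser]
  let S : (I →₀ ℕ) → ℚ → ℚ := fun β c =>
    ∑ N ∈ (Finset.range (∑ i, β i + 1)).filter (fun N => 1 ≤ N ∧ ∀ i, N ∣ β i),
      (p (fun i => β i / N)).eval (c ^ N) / ((N : ℚ) * (c ^ N - 1))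
  have hf : Rel (fun c => (α j : ℚ) * ∑ m ∈ mps α, cc c (adj Q) m)
      ((α j : KK) * ∑ m ∈ mps α, cc qK (adj Q) m) := by
    have h1 := (Rel.const (α j : ℚ)).mul (Rel.sum_cc (adj Q) α)
    rwa [map_natCast] at h1
  have hf' : Rel (fun c => ∑ x ∈ Finset.HasAntidiagonal.antidiagonal α,
      (∑ m ∈ mps x.1, cc c (adj Q) m) * ((x.2 j : ℚ) * S x.2 c))
      (∑ x ∈ Finset.HasAntidiagonal.antidiagonal α,
        (∑ m ∈ mps x.1, cc qK (adj Q) m) * ((x.2 j : KK) * LK p x.2)) := by
    refine Rel.sum _ fun x _ => (Rel.sum_cc (adj Q) x.1).mul ?_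
    have h1 := (Rel.const (x.2 j : ℚ)).mul (LK_rel p x.2)
    rwa [map_natCast] at h1
  refine hf.eq hf' fun l hl => ?_
  have : Fact (Nat.Prime l) := ⟨hl⟩
  have h1 := hua_log Q (ZMod l) (fun i => α i) j
  have hP : ∀ β : I →₀ ℕ, Pc Q (ZMod l) (fun i => β i) = ∑ m ∈ mps β, cc (l : ℚ) (adj Q) m := by
    intro β
    have h2 := Pc_formula Q (ZMod l) β
    rwa [ZMod.card] at h2
  show (α j : ℚ) * ∑ m ∈ mps α, cc (l : ℚ) (adj Q) m = ∑ x ∈ Finset.HasAntidiagonal.antidiagonal α,
      (∑ m ∈ mps x.1, cc (l : ℚ) (adj Q) m) * ((x.2 j : ℚ) * S x.2 l)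
  rw [← hP, h1, ZMod.card]
  symm
  refine Finset.sum_bij' (fun x _ => fun i => x.2 i)
    (fun β _ => (α - Finsupp.equivFunOnFinite.symm β, Finsupp.equivFunOnFinite.symm β))
    ?_ ?_ ?_ ?_ ?_
  · rintro ⟨x, y⟩ hx
    rw [Finset.HasAntidiagonal.mem_antidiagonal] at hx
    rw [Fintype.mem_piFinset]
    intro i
    have h2 := congrArg (fun f : I →₀ ℕ => f i) hx
    simp only [Finsupp.add_apply] at h2
    rw [Finset.mem_range]
    show y i < α i + 1
    omega
  · intro β hβ
    rw [Fintype.mem_piFinset] at hβ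
    rw [Finset.HasAntidiagonal.mem_antidiagonal]
    ext i
    have h2 := Finset.mem_range.1 (hβ i)
    show (α i - β i) + β i = α i
    have h3 : β i < α i + 1 := h2
    omega
  · rintro ⟨x, y⟩ hx
    rw [Finset.HasAntidiagonal.mem_antidiagonal] at hx
    have h2 : Finsupp.equivFunOnFinite.symm (fun i => y i) = y := by
      ext i
      rfl
    show (α - Finsupp.equivFunOnFinite.symm (fun i => y i),
      Finsupp.equivFunOnFinite.symm (fun i => y i)) = (x, y)
    rw [h2, ← hx]
    simp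
  · intro β hβ
    rfl
  · rintro ⟨x, y⟩ hx
    rw [Finset.HasAntidiagonal.mem_antidiagonal] at hx
    have h2 : (fun i => α i - y i) = fun i => x i := by
      funext i
      have h3 := congrArg (fun f : I →₀ ℕ => f i) hx
      simp only [Finsupp.add_apply] at h3
      omega
    show (∑ m ∈ mps x, cc (l : ℚ) (adj Q) m) * ((y j : ℚ) * S y l) =
      (y j : ℚ) * Lc Q l (fun i => y i) * Pc Q (ZMod l) (fun i => α i - y i)
    rw [h2, hP, Lc_eq Q hp l hl y]
    ring

end Pool.Agent.H27.KAC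

end

section

/-!
Project KAC, part II.3: the limit `q → 1` of the logarithm.
-/

set_option autoImplicit false

namespace Pool.Agent.H27.KAC

open scoped BigOperators
open Polynomial

variable {I : Type} [Fintype I]

/-- `LK_β * (q^(β_i) - 1)` as a power series in `ε = q - 1`. -/
noncomputable def hQ (p : (I → ℕ) → ℚ[X]) (i : I) (β : I →₀ ℕ) : PowerSeries ℚ :=
  ∑ N ∈ (Finset.range (∑ i, β i + 1)).filter (fun N => 1 ≤ N ∧ ∀ i, N ∣ β i),
    PowerSeries.C ((N : ℚ)⁻¹) *
      (aeval ((1 + PowerSeries.X : PowerSeries ℚ) ^ N) (p (fun i => β i / N)) *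
        ∑ t ∈ Finset.range (β i / N), (1 + PowerSeries.X : PowerSeries ℚ) ^ (N * t))

theorem Lim_ιQ_var : ιQ (1 + PowerSeries.X) = qK := rfl

theorem Lim_ιQ_aeval (P : ℚ[X]) (f : PowerSeries ℚ) : ιQ (aeval f P) = aeval (ιQ f) P := by
  unfold ιQ
  rw [aeval_algebraMap_apply]

theorem Lim_ιQ_C (r : ℚ) : ιQ (PowerSeries.C r) = algebraMap ℚ KK r := by
  unfold ιQ
  rw [IsScalarTower.algebraMap_apply ℚ (PowerSeries ℚ) KK]
  rfl

/-- `q^(β_i) - 1 = (q^N - 1) ∑_(t < β_i / N) q^(N t)`. -/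
theorem LK_mul (p : (I → ℕ) → ℚ[X]) (i : I) (β : I →₀ ℕ) :
    LK p β * (qK ^ (β i) - 1) = ιQ (hQ p i β) := by
  unfold LK hQ
  rw [Finset.sum_mul, map_sum]
  refine Finset.sum_congr rfl fun N hN => ?_
  rw [Finset.mem_filter] at hN
  have hN1 : 1 ≤ N := hN.2.1
  have hdvd : N ∣ β i := hN.2.2 i
  rw [map_mul, map_mul, Lim_ιQ_C, Lim_ιQ_aeval, map_sum, map_pow, Lim_ιQ_var]
  have h1 : ∀ t, ιQ ((1 + PowerSeries.X : PowerSeries ℚ) ^ (N * t)) = (qK ^ N) ^ t := by
    intro t
    rw [map_pow, Lim_ιQ_var, pow_mul]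
  simp only [h1]
  have h2 : qK ^ (β i) - 1 = (∑ t ∈ Finset.range (β i / N), (qK ^ N) ^ t) * (qK ^ N - 1) := by
    rw [geom_sum_mul, ← pow_mul, Nat.mul_div_cancel' hdvd]
  have h3 : qK ^ N - 1 ≠ 0 := by
    have h4 := qK_pow_ne (N - 1)
    rw [Nat.sub_add_cancel hN1] at h4
    exact sub_ne_zero.2 h4
  have : CharZero KK := algebraRat.charZero KK
  have h5 : (N : KK) ≠ 0 := Nat.cast_ne_zero.2 (by omega)
  rw [h2, map_inv₀, map_natCast]
  field_simp

theorem constantCoeff_hQ (p : (I → ℕ) → ℚ[X]) (i : I) (β : I →₀ ℕ) :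
    PowerSeries.constantCoeff (hQ p i β) = (β i : ℚ) * fOf (fun α => (p α).eval 1) (fun l => β l) := by
  unfold hQ fOf
  rw [map_sum, Finset.mul_sum]
  refine Finset.sum_congr rfl fun N hN => ?_
  rw [Finset.mem_filter] at hN
  have hN1 : 1 ≤ N := hN.2.1
  have hdvd : N ∣ β i := hN.2.2 i
  have h1 : PowerSeries.constantCoeff (1 + PowerSeries.X : PowerSeries ℚ) = 1 := by simp
  have h2 : PowerSeries.constantCoeff (aeval ((1 + PowerSeries.X : PowerSeries ℚ) ^ N)
      (p (fun i => β i / N))) = (p (fun i => β i / N)).eval 1 := by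
    rw [aeval_def, hom_eval₂, map_pow, h1, one_pow]
    have h3 : (PowerSeries.constantCoeff (R := ℚ)).comp (algebraMap ℚ (PowerSeries ℚ)) =
        RingHom.id ℚ := RingHom.ext_rat _ _
    rw [h3, eval₂_id]
  rw [map_mul, map_mul, PowerSeries.constantCoeff_C, h2, map_sum]
  simp only [map_pow, h1, one_pow, Finset.sum_const, Finset.card_range, nsmul_eq_mul, mul_one]
  have h5 : (N : ℚ) ≠ 0 := Nat.cast_ne_zero.2 (by omega)
  rw [Nat.cast_div hdvd h5]
  field_simp

end Pool.Agent.H27.KAC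

end

section

/-!
Project KAC, part II.3: the Q-system at `q = 1`.
-/

set_option autoImplicit false

namespace Pool.Agent.H27.KAC

open scoped BigOperators
open Polynomial

variable {I E : Type} [Fintype I] [DecidableEq I] [Fintype E]

/-- The setup for a quiver: `R = ℤ⟦ε⟧`, `K = KK`, `S = ℤ`, `u = 1 + ε`. -/
noncomputable def kacSetup (Q : Quiv I E) : Setup I (PowerSeries ℤ) KK ℤ where
  A := adj Q
  symm := adj_symm Q
  even := adj_even Q
  ι := ιZ
  inj := ιZ_inj
  ev := PowerSeries.constantCoeff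
  u := Classical.choose exists_unit
  evu := by
    rw [Classical.choose_spec exists_unit]
    simp
  ne := by
    intro j
    rw [Classical.choose_spec exists_unit]
    have h : ιZ (1 + PowerSeries.X) = qK := by simp [ιZ, ιQ, qK]
    rw [h]
    exact qK_pow_ne j

theorem kacSetup_q (Q : Quiv I E) : (kacSetup Q).q = qK := by
  show ιZ (Classical.choose exists_unit : (PowerSeries ℤ)ˣ).1 = qK
  rw [Classical.choose_spec exists_unit]
  simp [ιZ, ιQ, qK]

/-- The series `∑_β β_j hQ_β X^β`. -/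
noncomputable def Main_H (p : (I → ℕ) → ℚ[X]) (i j : I) : MvPowerSeries I (PowerSeries ℚ) :=
  fun β => (β j : PowerSeries ℚ) * hQ p i β

omit [DecidableEq I] in
theorem Main_coeff_H (p : (I → ℕ) → ℚ[X]) (i j : I) (β : I →₀ ℕ) :
    MvPowerSeries.coeff β (Main_H p i j) = (β j : PowerSeries ℚ) * hQ p i β := rfl

omit [DecidableEq I] in
theorem Main_map_H (p : (I → ℕ) → ℚ[X]) (i j : I) :
    pscl qK i (LKser p j) - LKser p j = MvPowerSeries.map ιQ (Main_H p i j) := by
  ext β
  rw [map_sub, coeff_pscl, coeff_LKser, MvPowerSeries.coeff_map, Main_coeff_H, map_mul,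
    map_natCast, ← LK_mul]
  ring

omit [DecidableEq I] in
theorem Main_const_H (p : (I → ℕ) → ℚ[X]) (i j : I) :
    MvPowerSeries.map PowerSeries.constantCoeff (Main_H p i j) =
      wSer (fOf (fun α => (p α).eval 1)) i j := by
  ext β
  rw [MvPowerSeries.coeff_map, Main_coeff_H, map_mul, map_natCast, constantCoeff_hQ]
  show _ = (β i : ℚ) * (β j : ℚ) * fOf (fun α => (p α).eval 1) (fun l => β l)
  ring

theorem Main_F_size (Q : Quiv I E) (i : I) :
    (kacSetup Q).F (sizev i) = pscl qK i (Fs qK (adj Q) 0) := by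
  ext α
  rw [coeff_pscl]
  show MvPowerSeries.coeff α (Fs (kacSetup Q).q (adj Q) (sizev i)) = _
  rw [kacSetup_q]
  exact coeff_Fs_size qK (adj Q) i α

theorem Main_F_zero (Q : Quiv I E) : (kacSetup Q).F 0 = Fs qK (adj Q) 0 := by
  show Fs (kacSetup Q).q (adj Q) 0 = _
  rw [kacSetup_q]

/-- Let `G = (kacSetup Q).G 0 (sizev i)`, `P = Fs qK (adj Q) 0`.  `map ιZ G = pscl qK i P * P⁻¹`
(`Setup.map_G`, `coeff_Fs_size`), so by `hua_K` and `eul_quot`
`eul j (map ιZ G) = map ιZ G * (β ↦ β_j LK_β (q^(β_i) - 1))`, and by `LK_mul` the last factor is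
`map ιQ H`, `H = (β ↦ β_j hQ β)`.  By the injectivity of `ιQ` this is the identity
`eul j G' = G' * H`, `G' = map (PowerSeries.map (Int.castRingHom ℚ)) G`, of power series over
`PowerSeries ℚ`; apply `map constantCoeff` (`constantCoeff_hQ`). -/
theorem eul_Tinf (Q : Quiv I E) {p : (I → ℕ) → ℚ[X]} (hp : ∀ α, IsKacPoly Q α (p α)) (i j : I) :
    eul j (MvPowerSeries.map (Int.castRingHom ℚ) ((kacSetup Q).Tinf i)) =
      MvPowerSeries.map (Int.castRingHom ℚ) ((kacSetup Q).Tinf i) *
        wSer (fOf (fun α => (p α).eval 1)) i j := by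
  have h1 : MvPowerSeries.map ιZ ((kacSetup Q).G 0 (sizev i)) =
      pscl qK i (Fs qK (adj Q) 0) * (Fs qK (adj Q) 0)⁻¹ := by
    rw [← Main_F_size, ← Main_F_zero]
    exact (kacSetup Q).map_G 0 (sizev i)
  have h2 : Fs qK (adj Q) 0 * (Fs qK (adj Q) 0)⁻¹ = 1 := by
    rw [← Main_F_zero]
    exact (kacSetup Q).F_mul_inv 0
  have h3 := eul_quot qK i j (hua_K Q hp j) h2
  rw [← h1, Main_map_H] at h3
  set G := (kacSetup Q).G 0 (sizev i) with hG
  have h4 : MvPowerSeries.map ιZ G =
      MvPowerSeries.map ιQ (MvPowerSeries.map (PowerSeries.map (Int.castRingHom ℚ)) G) := by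
    ext β
    rw [MvPowerSeries.coeff_map, MvPowerSeries.coeff_map, MvPowerSeries.coeff_map]
    rfl
  rw [h4, ← eul_map, ← map_mul] at h3
  have h5 : eul j (MvPowerSeries.map (PowerSeries.map (Int.castRingHom ℚ)) G) =
      MvPowerSeries.map (PowerSeries.map (Int.castRingHom ℚ)) G * Main_H p i j := by
    ext1 β
    have h6 := congrArg (MvPowerSeries.coeff β) h3
    rw [MvPowerSeries.coeff_map, MvPowerSeries.coeff_map] at h6
    exact ιQ_inj h6
  have h7 := congrArg (MvPowerSeries.map PowerSeries.constantCoeff) h5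
  rw [eul_map, map_mul, Main_const_H] at h7
  have h8 : MvPowerSeries.map PowerSeries.constantCoeff
      (MvPowerSeries.map (PowerSeries.map (Int.castRingHom ℚ)) G) =
      MvPowerSeries.map (Int.castRingHom ℚ) ((kacSetup Q).Tinf i) := by
    ext β
    rw [MvPowerSeries.coeff_map, MvPowerSeries.coeff_map, MvPowerSeries.coeff_map]
    show _ = (Int.castRingHom ℚ) (MvPowerSeries.coeff β (MvPowerSeries.map
      PowerSeries.constantCoeff G))
    rw [MvPowerSeries.coeff_map, ← PowerSeries.coeff_zero_eq_constantCoeff_apply,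
      PowerSeries.coeff_map, PowerSeries.coeff_zero_eq_constantCoeff_apply]
  rw [h8] at h7
  exact h7

theorem qsys_of_poly (Q : Quiv I E) {p : (I → ℕ) → ℚ[X]} (hp : ∀ α, IsKacPoly Q α (p α)) :
    ∃ (T : I → ℕ → MvPowerSeries I ℤ) (G : I → MvPowerSeries I ℤ),
      (∀ i, T i 0 = 1) ∧
      (∀ i k, MvPowerSeries.constantCoeff (T i k) = 1) ∧
      (∀ i k, (T i (k + 1)) ^ 2 = T i k * T i (k + 2) +
        (MvPowerSeries.X i) ^ (k + 1) * ∏ j, (T j (k + 1)) ^ (adj Q i j)) ∧
      (∀ i k (d : I →₀ ℕ), tdeg d ≤ k →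
        MvPowerSeries.coeff d (T i k) = MvPowerSeries.coeff d (G i)) ∧
      (∀ i j, eul j (MvPowerSeries.map (Int.castRingHom ℚ) (G i)) =
        MvPowerSeries.map (Int.castRingHom ℚ) (G i) *
          wSer (fOf (fun α => (p α).eval 1)) i j) :=
  ⟨fun i k => (kacSetup Q).T i k, fun i => (kacSetup Q).Tinf i, fun i => (kacSetup Q).T_zero i,
    fun i k => (kacSetup Q).T_const i k, fun i k => (kacSetup Q).T_rel i k,
    fun i k d hd => (kacSetup Q).T_inf i k d hd, fun i j => eul_Tinf Q hp i j⟩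

/-- Stated with an assumption on `g` in order to be independent of the definition of `kacOne`. -/
theorem qsys_of_kacOne (Q : Quiv I E) (hex : ∀ α, ∃ p : ℚ[X], IsKacPoly Q α p) :
    ∃ (T : I → ℕ → MvPowerSeries I ℤ) (G : I → MvPowerSeries I ℤ),
      (∀ i, T i 0 = 1) ∧
      (∀ i k, MvPowerSeries.constantCoeff (T i k) = 1) ∧
      (∀ i k, (T i (k + 1)) ^ 2 = T i k * T i (k + 2) +
        (MvPowerSeries.X i) ^ (k + 1) * ∏ j, (T j (k + 1)) ^ (adj Q i j)) ∧
      (∀ i k (d : I →₀ ℕ), tdeg d ≤ k →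
        MvPowerSeries.coeff d (T i k) = MvPowerSeries.coeff d (G i)) ∧
      (∀ i j, eul j (MvPowerSeries.map (Int.castRingHom ℚ) (G i)) =
        MvPowerSeries.map (Int.castRingHom ℚ) (G i) * wSer (fOf (kacOne Q)) i j) := by
  have h : (fun α => (Classical.choose (hex α)).eval 1) = kacOne Q := by
    funext α
    unfold kacOne
    rw [dif_pos (hex α)]
  have h1 := qsys_of_poly Q (p := fun α => Classical.choose (hex α))
    fun α => Classical.choose_spec (hex α)
  rw [h] at h1
  exact h1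

end Pool.Agent.H27.KAC

end

section

/-!
Project KAC, part II.2: existence of Kac polynomials, independence of the orientation.
-/

set_option autoImplicit false

namespace Pool.Agent.H27.KAC

open scoped BigOperators
open Polynomial

/-- a function of `q` which is rational for `q ≥ 2` -/
def RF (g : ℕ → ℚ) : Prop := ∃ U W : ℚ[X], (∀ q : ℕ, 2 ≤ q → W.eval (q : ℚ) ≠ 0) ∧
  ∀ q : ℕ, 2 ≤ q → g q = U.eval (q : ℚ) / W.eval (q : ℚ)

theorem RF.const (c : ℚ) : RF (fun _ => c) :=
  ⟨C c, 1, fun q _ => by simp, fun q _ => by simp⟩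

theorem RF.add {g h : ℕ → ℚ} (hg : RF g) (hh : RF h) : RF (fun q => g q + h q) := by
  obtain ⟨U, W, h1, h2⟩ := hg
  obtain ⟨U', W', h1', h2'⟩ := hh
  refine ⟨U * W' + W * U', W * W', fun q hq => ?_, fun q hq => ?_⟩
  · rw [eval_mul]
    exact mul_ne_zero (h1 q hq) (h1' q hq)
  · show g q + h q = _
    rw [h2 q hq, h2' q hq, div_add_div _ _ (h1 q hq) (h1' q hq), eval_add, eval_mul, eval_mul,
      eval_mul]

theorem RF.mul {g h : ℕ → ℚ} (hg : RF g) (hh : RF h) : RF (fun q => g q * h q) := by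
  obtain ⟨U, W, h1, h2⟩ := hg
  obtain ⟨U', W', h1', h2'⟩ := hh
  refine ⟨U * U', W * W', fun q hq => ?_, fun q hq => ?_⟩
  · rw [eval_mul]
    exact mul_ne_zero (h1 q hq) (h1' q hq)
  · show g q * h q = _
    rw [h2 q hq, h2' q hq, div_mul_div_comm, eval_mul, eval_mul]

theorem RF.sub {g h : ℕ → ℚ} (hg : RF g) (hh : RF h) : RF (fun q => g q - h q) := by
  have h1 := hg.add ((RF.const (-1)).mul hh)
  have h2 : (fun q => g q + (-1) * h q) = fun q => g q - h q := by
    funext q
    ring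
  rwa [h2] at h1

theorem RF.sum {ι : Type} (s : Finset ι) {g : ι → ℕ → ℚ} (h : ∀ x ∈ s, RF (g x)) :
    RF (fun q => ∑ x ∈ s, g x q) := by
  classical
  induction s using Finset.induction_on with
  | empty => simpa using RF.const 0
  | insert x s hx ih =>
    have h1 := (h x (Finset.mem_insert_self x s)).add
      (ih fun y hy => h y (Finset.mem_insert_of_mem hy))
    have h2 : (fun q => g x q + ∑ y ∈ s, g y q) = fun q => ∑ y ∈ insert x s, g y q := by
      funext q
      rw [Finset.sum_insert hx]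
    rwa [h2] at h1

theorem RF.eval_pow (p : ℚ[X]) (N : ℕ) : RF (fun q => p.eval ((q : ℚ) ^ N)) :=
  ⟨p.comp (X ^ N), 1, fun q _ => by simp, fun q _ => by simp⟩

theorem RF.inv_pow (c : ℚ) (hc : c ≠ 0) (N : ℕ) (hN : 1 ≤ N) :
    RF (fun q => 1 / (c * ((q : ℚ) ^ N - 1))) := by
  refine ⟨1, C c * (X ^ N - 1), fun q hq => ?_, fun q _ => by simp⟩
  have h0 : (C c * (X ^ N - 1) : ℚ[X]).eval (q : ℚ) = c * ((q : ℚ) ^ N - 1) := by simp
  rw [h0]
  apply mul_ne_zero hc
  have h1 : (1 : ℚ) < (q : ℚ) ^ N := one_lt_pow₀ (by exact_mod_cast hq) (by omega)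
  linarith

theorem kacA_of_isKacPoly {I E : Type} (Q : Quiv I E) (β : I → ℕ) (p : ℚ[X])
    (h : IsKacPoly Q β p) (F : Type) [Field F] [Fintype F] (N : ℕ) (hN : 1 ≤ N) :
    (kacA Q β (Fintype.card F ^ N) : ℚ) = p.eval ((Fintype.card F : ℚ) ^ N) := by
  obtain ⟨r, hr⟩ := CharP.exists F
  obtain ⟨n, hrp, hn⟩ := FiniteField.card F r
  have : Fact (Nat.Prime r) := ⟨hrp⟩
  have hnN : (n : ℕ) * N ≠ 0 := mul_ne_zero n.2.ne' (by omega)
  have hfin : Finite (GaloisField r (n * N)) := by
    apply Nat.finite_of_card_ne_zero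
    rw [GaloisField.card r _ hnN]
    exact pow_ne_zero _ hrp.ne_zero
  let _ : Fintype (GaloisField r (n * N)) := Fintype.ofFinite _
  have hcard : Fintype.card (GaloisField r (n * N)) = Fintype.card F ^ N := by
    rw [hn, ← pow_mul, ← Nat.card_eq_fintype_card, GaloisField.card r _ hnN]
  have h1 := h (GaloisField r (n * N))
  rw [hcard] at h1
  rw [← hcard, kacA_card, h1]
  push_cast
  rfl

section

variable {I : Type} [Fintype I] [DecidableEq I]

/-- `p` is the Kac polynomial in dimension `α` of all the quivers with the matrix `a`. -/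
def KP (a : I → I → ℕ) (α : I → ℕ) (p : ℚ[X]) : Prop :=
  ∀ (E : Type) [Fintype E] (Q : Quiv I E), adj Q = a → IsKacPoly Q α p

open scoped Classical in
/-- the Kac polynomial, as a function of the matrix -/
noncomputable def kp (a : I → I → ℕ) (α : I → ℕ) : ℚ[X] :=
  if h : ∃ p, KP a α p then h.choose else 0

theorem kp_spec {a : I → I → ℕ} {α : I → ℕ} (h : ∃ p, KP a α p) : KP a α (kp a α) := by
  unfold kp
  rw [dif_pos h]
  exact h.choose_spec

/-- `Lc`, as a function of the matrix, terms with `N ≥ k` -/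
noncomputable def Lg (a : I → I → ℕ) (k : ℕ) (α : I → ℕ) (q : ℕ) : ℚ :=
  ∑ N ∈ (Finset.range (∑ i, α i + 1)).filter (fun N => k ≤ N ∧ ∀ i, N ∣ α i),
    (kp a (fun i => α i / N)).eval ((q : ℚ) ^ N) * (1 / ((N : ℚ) * ((q : ℚ) ^ N - 1)))

theorem RF.Lg (a : I → I → ℕ) (k : ℕ) (hk : 1 ≤ k) (α : I → ℕ) : RF (Lg a k α) := by
  unfold KAC.Lg
  apply RF.sum
  intro N hN
  rw [Finset.mem_filter] at hN
  have hN1 : 1 ≤ N := hk.trans hN.2.1
  exact (RF.eval_pow _ N).mul (RF.inv_pow (N : ℚ) (by positivity) N hN1)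

theorem sum_div_lt {α : I → ℕ} {i : I} (hi : α i ≠ 0) {N : ℕ} (hN : 2 ≤ N) :
    ∑ j, α j / N < ∑ j, α j := by
  apply Finset.sum_lt_sum (fun j _ => Nat.div_le_self _ _)
  exact ⟨i, Finset.mem_univ i, Nat.div_lt_self (Nat.pos_of_ne_zero hi) hN⟩

theorem sum_div_le (α : I → ℕ) (N : ℕ) : ∑ j, α j / N ≤ ∑ j, α j :=
  Finset.sum_le_sum fun j _ => Nat.div_le_self _ _

theorem Lc_eq_Lg {E : Type} (Q : Quiv I E) (F : Type) [Field F] [Fintype F] {a : I → I → ℕ}
    {β : I → ℕ} (h : ∀ N, 1 ≤ N → (∀ i, N ∣ β i) → IsKacPoly Q (fun i => β i / N)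
      (kp a (fun i => β i / N))) :
    Lc Q (Fintype.card F) β = Lg a 1 β (Fintype.card F) := by
  unfold Lc Lg
  refine Finset.sum_congr rfl fun N hN => ?_
  rw [Finset.mem_filter] at hN
  rw [kacA_of_isKacPoly Q _ _ (h N hN.2.1 hN.2.2) F N hN.2.1, div_eq_mul_one_div]

theorem Lc_split {E : Type} (Q : Quiv I E) (F : Type) [Field F] [Fintype F] {a : I → I → ℕ}
    {α : I → ℕ} {i : I} (hi : α i ≠ 0) (h : ∀ N, 2 ≤ N → (∀ i, N ∣ α i) →
      IsKacPoly Q (fun i => α i / N) (kp a (fun i => α i / N))) :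
    Lc Q (Fintype.card F) α = (kacCount Q F α : ℚ) * (1 / (1 * ((Fintype.card F : ℚ) ^ 1 - 1))) +
      Lg a 2 α (Fintype.card F) := by
  unfold Lc Lg
  have hpos : 1 ≤ ∑ j, α j := by
    have : α i ≤ ∑ j, α j := Finset.single_le_sum (fun j _ => Nat.zero_le _) (Finset.mem_univ i)
    omega
  have hsplit : (Finset.range (∑ i, α i + 1)).filter (fun N => 1 ≤ N ∧ ∀ i, N ∣ α i) =
      insert 1 ((Finset.range (∑ i, α i + 1)).filter (fun N => 2 ≤ N ∧ ∀ i, N ∣ α i)) := by
    ext N
    simp only [Finset.mem_filter, Finset.mem_insert, Finset.mem_range]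
    constructor
    · rintro ⟨h1, h2, h3⟩
      by_cases hN : N = 1
      · exact Or.inl hN
      · exact Or.inr ⟨h1, by omega, h3⟩
    · rintro (rfl | ⟨h1, h2, h3⟩)
      · exact ⟨by omega, le_refl _, fun i => one_dvd _⟩
      · exact ⟨h1, by omega, h3⟩
  rw [hsplit, Finset.sum_insert (by simp)]
  congr 1
  · rw [pow_one, pow_one, Nat.cast_one, div_eq_mul_one_div]
    congr 2
    have : (fun i => α i / 1) = α := by
      funext i
      exact Nat.div_one _
    rw [this, kacA_card]
  · refine Finset.sum_congr rfl fun N hN => ?_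
    rw [Finset.mem_filter] at hN
    rw [kacA_of_isKacPoly Q _ _ (h N hN.2.1 hN.2.2) F N (by omega), div_eq_mul_one_div]

theorem Pc_zero {E : Type} [Fintype E] (Q : Quiv I E) (F : Type) [Field F] (γ : I → ℕ)
    (hγ : ∀ i, γ i = 0) : Pc Q F γ = 1 := by
  have hγ' : γ = 0 := funext hγ
  subst hγ'
  have h1 : ∀ i : I, Nat.card (Matrix (Fin ((0 : I → ℕ) i)) (Fin ((0 : I → ℕ) i)) F)ˣ = 1 := by
    intro i
    rw [Nat.card_eq_one_iff_unique]
    have : IsEmpty (Fin ((0 : I → ℕ) i)) := Fin.isEmpty'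
    exact ⟨⟨fun a b => Units.ext (Subsingleton.elim _ _)⟩, ⟨1⟩⟩
  have h2 : Nat.card (NilPairs Q F (0 : I → ℕ)) = 1 := by
    rw [Nat.card_eq_one_iff_unique]
    constructor
    · constructor
      rintro ⟨⟨x, f⟩, hx⟩ ⟨⟨y, g⟩, hy⟩
      apply Subtype.ext
      apply Prod.ext
      · funext e
        exact Matrix.ext fun a => Fin.elim0 a
      · funext i
        exact Matrix.ext fun a => Fin.elim0 a
    · refine ⟨⟨⟨fun e => 0, fun i => 0⟩, fun e => ?_, fun i => ?_⟩⟩
      · exact Matrix.ext fun a => Fin.elim0 a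
      · exact IsNilpotent.zero
  unfold Pc
  rw [h2]
  simp [h1]

theorem kac_main (a : I → I → ℕ) (s : ℕ) : ∀ α : I → ℕ, ∑ i, α i = s → ∃ p, KP a α p := by
  induction s using Nat.strong_induction_on with
  | _ s ih =>
  intro α hs
  have ih' : ∀ β : I → ℕ, ∑ i, β i < ∑ i, α i → KP a β (kp a β) := fun β hβ =>
    kp_spec (ih _ (hs ▸ hβ) β rfl)
  by_cases hα : ∀ i, α i = 0
  · refine ⟨0, fun E _ Q _ F _ _ => ?_⟩
    have : α = 0 := funext hα
    rw [this, kacCount_zero, eval_zero, Nat.cast_zero]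
  push Not at hα
  obtain ⟨i, hi⟩ := hα
  choose U W hW hUW using Pc_rat (I := I) a
  let Pg : (I → ℕ) → ℕ → ℚ := fun γ q => (U γ).eval (q : ℚ) / (W γ).eval (q : ℚ)
  have hPg : ∀ (E : Type) [Fintype E] (Q : Quiv I E), adj Q = a →
      ∀ (F : Type) [Field F] [Fintype F] (γ : I → ℕ), Pc Q F γ = Pg γ (Fintype.card F) := by
    intro E _ Q hQ F _ _ γ
    have h1 := hUW γ E Q hQ F
    have h2 := hW γ (Fintype.card F) Fintype.one_lt_card
    show _ = _ / _
    rw [eq_div_iff h2]
    exact h1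
  let box := Fintype.piFinset (fun j => Finset.range (α j + 1))
  have hmem : α ∈ box := Fintype.mem_piFinset.2 fun j => Finset.mem_range.2 (Nat.lt_succ_self _)
  have hlt : ∀ β ∈ box.erase α, ∑ i, β i < ∑ i, α i := by
    intro β hβ
    rw [Finset.mem_erase, Fintype.mem_piFinset] at hβ
    have hle : ∀ j, β j ≤ α j := fun j => Nat.lt_succ_iff.1 (Finset.mem_range.1 (hβ.2 j))
    have : ∃ j, β j ≠ α j := by
      by_contra h
      push Not at h
      exact hβ.1 (funext h)
    obtain ⟨j, hj⟩ := this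
    exact Finset.sum_lt_sum (fun k _ => hle k) ⟨j, Finset.mem_univ j, lt_of_le_of_ne (hle j) hj⟩
  let G : ℕ → ℚ := fun q => Pg α q -
    (∑ β ∈ box.erase α, (β i : ℚ) * Lg a 1 β q * Pg (fun j => α j - β j) q) * (1 / (α i : ℚ)) -
    Lg a 2 α q
  have hPgRF : ∀ γ, RF (Pg γ) := fun γ => ⟨U γ, W γ, hW γ, fun q _ => rfl⟩
  have hG : RF G := by
    refine RF.sub (RF.sub (hPgRF α) (RF.mul (RF.sum _ fun β _ => ?_) (RF.const _)))
      (RF.Lg a 2 (by omega) α)
    exact ((RF.const _).mul (RF.Lg a 1 le_rfl β)).mul (hPgRF _)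
  have hH : RF (fun q => ((q : ℚ) - 1) * G q) := by
    refine RF.mul ?_ hG
    refine RF.sub ?_ (RF.const 1)
    simpa using RF.eval_pow X 1
  have hα0 : (α i : ℚ) ≠ 0 := by exact_mod_cast hi
  have hkey : ∀ (E : Type) [Fintype E] (Q : Quiv I E), adj Q = a →
      ∀ (F : Type) [Field F] [Fintype F],
        (kacCount Q F α : ℚ) = ((Fintype.card F : ℚ) - 1) * G (Fintype.card F) := by
    intro E _ Q hQ F _ _
    have hq : (1 : ℚ) < (Fintype.card F : ℚ) := by exact_mod_cast Fintype.one_lt_card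
    have h1 := hua_log Q F α i
    rw [← Finset.add_sum_erase _ _ hmem] at h1
    have h2 : Pc Q F (fun j => α j - α j) = 1 := Pc_zero Q F _ fun j => Nat.sub_self _
    rw [h2, mul_one, Lc_split Q F hi (fun N hN _ => ih' _ (sum_div_lt hi hN) E Q hQ)] at h1
    have h3 : ∑ β ∈ box.erase α, (β i : ℚ) * Lc Q (Fintype.card F) β *
        Pc Q F (fun j => α j - β j) = ∑ β ∈ box.erase α, (β i : ℚ) * Lg a 1 β (Fintype.card F) *
        Pg (fun j => α j - β j) (Fintype.card F) := by
      refine Finset.sum_congr rfl fun β hβ => ?_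
      rw [hPg E Q hQ F, Lc_eq_Lg Q F (a := a)]
      intro N _ _
      exact ih' _ (lt_of_le_of_lt (sum_div_le β N) (hlt β hβ)) E Q hQ
    rw [h3, hPg E Q hQ F α] at h1
    show (kacCount Q F α : ℚ) = ((Fintype.card F : ℚ) - 1) * (Pg α (Fintype.card F) -
      (∑ β ∈ box.erase α, (β i : ℚ) * Lg a 1 β (Fintype.card F) *
        Pg (fun j => α j - β j) (Fintype.card F)) * (1 / (α i : ℚ)) - Lg a 2 α (Fintype.card F))
    have hq' : (Fintype.card F : ℚ) - 1 ≠ 0 := by linarith
    rw [pow_one] at h1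
    field_simp at h1 ⊢
    linear_combination -h1
  obtain ⟨U', W', h1, h2⟩ := hH
  by_cases hex : ∃ (E : Type) (_ : Fintype E) (Q : Quiv I E), adj Q = a
  · obtain ⟨E, _, Q, hQ⟩ := hex
    have hW0 : W' ≠ 0 := by
      intro h
      have := h1 2 le_rfl
      rw [h, eval_zero] at this
      exact this rfl
    have hdvd : W' ∣ U' := by
      apply dvd_of_int_values U' W' hW0 {n | Nat.Prime n} Nat.infinite_setOfPred_prime
      intro n hn _
      have : Fact (Nat.Prime n) := ⟨hn⟩
      have h3 := hkey E Q hQ (ZMod n)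
      have h4 : ((n : ℚ) - 1) * G n = U'.eval (n : ℚ) / W'.eval (n : ℚ) := h2 n hn.two_le
      rw [ZMod.card, h4] at h3
      exact ⟨(kacCount Q (ZMod n) α : ℤ), by rw [← h3, Int.cast_natCast]⟩
    obtain ⟨p, hp⟩ := hdvd
    refine ⟨p, fun E' _ Q' hQ' F _ _ => ?_⟩
    have h3 := hkey E' Q' hQ' F
    have h4 : ((Fintype.card F : ℚ) - 1) * G (Fintype.card F) =
      U'.eval (Fintype.card F : ℚ) / W'.eval (Fintype.card F : ℚ) :=
      h2 (Fintype.card F) Fintype.one_lt_card
    have h5 := h1 (Fintype.card F) Fintype.one_lt_card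
    rw [h3, h4, hp, eval_mul, mul_div_cancel_left₀ _ h5]
  · exact ⟨0, fun E _ Q hQ => absurd ⟨E, inferInstance, Q, hQ⟩ hex⟩

theorem exists_KP (a : I → I → ℕ) (α : I → ℕ) : ∃ p, KP a α p := kac_main a _ α rfl

theorem kacPoly_exists' {E : Type} [Fintype E] (Q : Quiv I E) (α : I → ℕ) :
    ∃ p : ℚ[X], IsKacPoly Q α p := by
  obtain ⟨p, hp⟩ := exists_KP (adj Q) α
  exact ⟨p, hp E Q rfl⟩

/-- Independence of the orientation. -/
theorem kacCount_congr_adj {E E' : Type} [Fintype E] [Fintype E'] (Q : Quiv I E)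
    (Q' : Quiv I E') (h : adj Q = adj Q') (α : I → ℕ) (F : Type) [Field F] [Fintype F] :
    kacCount Q F α = kacCount Q' F α := by
  obtain ⟨p, hp⟩ := exists_KP (adj Q) α
  have h1 := hp E Q rfl F
  have h2 := hp E' Q' h.symm F
  have h3 : (kacCount Q F α : ℚ) = (kacCount Q' F α : ℚ) := by rw [h1, h2]
  exact_mod_cast h3

end

end Pool.Agent.H27.KAC

end

section

/-!
Project KAC, parts I.2 and II.2: relabelling of the vertices, and the statements about `kacCount` used by the
interface.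
-/

set_option autoImplicit false

namespace Pool.Agent.H27.KAC

open scoped BigOperators
open Polynomial

section map

variable {I I' E : Type}

/-- relabelling of the vertices -/
def Quiv.map (Q : Quiv I E) (σ : I ≃ I') : Quiv I' E where
  src := fun e => σ (Q.src e)
  tgt := fun e => σ (Q.tgt e)

theorem isom_map_iff (Q : Quiv I E) (σ : I ≃ I') {F : Type} [Field F] {α : I' → ℕ}
    (x y : Rp Q F (fun i => α (σ i))) :
    Isom (Q := Q.map σ) (α := α) x y ↔ Isom (Q := Q) (α := fun i => α (σ i)) x y := by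
  constructor
  · rintro ⟨g, hg⟩
    exact ⟨fun i => g (σ i), fun e => hg e⟩
  · rintro ⟨g, hg⟩
    refine ⟨Equiv.piCongrLeft (fun i' => (Matrix (Fin (α i')) (Fin (α i')) F)ˣ) σ g, ?_⟩
    intro e
    have h1 := Equiv.piCongrLeft_apply_apply
      (fun i' => (Matrix (Fin (α i')) (Fin (α i')) F)ˣ) σ g (Q.tgt e)
    have h2 := Equiv.piCongrLeft_apply_apply
      (fun i' => (Matrix (Fin (α i')) (Fin (α i')) F)ˣ) σ g (Q.src e)
    have h3 := hg e
    show (Equiv.piCongrLeft (fun i' => (Matrix (Fin (α i')) (Fin (α i')) F)ˣ) σ g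
      (σ (Q.tgt e))).1 * x e = y e * (Equiv.piCongrLeft
        (fun i' => (Matrix (Fin (α i')) (Fin (α i')) F)ˣ) σ g (σ (Q.src e))).1
    rw [h1, h2]
    exact h3

theorem indec_map_iff (Q : Quiv I E) (σ : I ≃ I') {F : Type} [Field F] {α : I' → ℕ}
    (x : Rp Q F (fun i => α (σ i))) :
    Indec (Q := Q.map σ) (α := α) x ↔ Indec (Q := Q) (α := fun i => α (σ i)) x := by
  have h0 : α ≠ 0 ↔ (fun i => α (σ i)) ≠ 0 := by
    rw [not_iff_not]
    constructor
    · rintro rfl
      rfl
    · intro h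
      funext i'
      have := congrFun h (σ.symm i')
      simpa using this
  unfold Indec
  refine and_congr h0 ?_
  constructor
  · intro h p hp hpp
    let P := Equiv.piCongrLeft (fun i' => Matrix (Fin (α i')) (Fin (α i')) F) σ p
    have hP : ∀ i, P (σ i) = p i := fun i => Equiv.piCongrLeft_apply_apply
      (fun i' => Matrix (Fin (α i')) (Fin (α i')) F) σ p i
    have h1 : IsMor (Q := Q.map σ) (α := α) (β := α) x x P := by
      intro e
      show P (σ (Q.tgt e)) * x e = x e * P (σ (Q.src e))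
      rw [hP, hP]
      exact hp e
    have h2 : ∀ i', P i' * P i' = P i' := by
      intro i'
      obtain ⟨i, rfl⟩ := σ.surjective i'
      rw [hP]
      exact hpp i
    rcases h P h1 h2 with h3 | h3
    · left
      intro i
      rw [← hP i]
      exact h3 (σ i)
    · right
      intro i
      rw [← hP i]
      exact h3 (σ i)
  · intro h P hP hPP
    rcases h (fun i => P (σ i)) (fun e => hP e) (fun i => hPP (σ i)) with h3 | h3
    · left
      intro i'
      obtain ⟨i, rfl⟩ := σ.surjective i'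
      exact h3 i
    · right
      intro i'
      obtain ⟨i, rfl⟩ := σ.surjective i'
      exact h3 i

theorem kacCount_map (Q : Quiv I E) (σ : I ≃ I') (F : Type) [Field F] (α : I' → ℕ) :
    kacCount (Q.map σ) F α = kacCount Q F (fun i => α (σ i)) := by
  unfold kacCount absIndecClasses
  apply ncard_classes_eq (X := Rp (Q.map σ) F α) (Y := Rp Q F (fun i => α (σ i)))
    (fun x => AbsIndec x) (fun y => AbsIndec y) (fun x y => Isom x y)
    (fun x y => Isom x y) (isom_equivalence _ _ _) (isom_equivalence _ _ _) (fun x y => y = x)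
  · intro x hx
    exact ⟨x, (indec_map_iff Q σ _).1 hx, rfl⟩
  · intro y hy
    exact ⟨y, (indec_map_iff Q σ _).2 hy, rfl⟩
  · rintro x x' y y' rfl rfl
    exact isom_map_iff Q σ y y'

theorem adj_map [DecidableEq I] [DecidableEq I'] [Fintype E] (Q : Quiv I E) (σ : I ≃ I')
    (a b : I) : adj (Q.map σ) (σ a) (σ b) = adj Q a b := by
  unfold adj Quiv.map
  simp only [EmbeddingLike.apply_eq_iff_eq]

end map

section cut

variable {I E : Type} [Fintype I] [DecidableEq I] [Fintype E]

/-- the quiver without the vertex `i` -/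
def cutQ (Q : Quiv I E) (i : I) :
    Quiv {j : I // j ≠ i} {e : E // Q.src e ≠ i ∧ Q.tgt e ≠ i} where
  src := fun e => ⟨Q.src e.1, e.2.1⟩
  tgt := fun e => ⟨Q.tgt e.1, e.2.2⟩

/-- the arrows at `i` -/
abbrev cutJ (Q : Quiv I E) (i : I) : Type := Σ j : {j : I // j ≠ i}, Fin (adj Q i j)

theorem adj_eq_sum (Q : Quiv I E) (a b : I) :
    adj Q a b = (∑ e, if Q.src e = a ∧ Q.tgt e = b then 1 else 0) +
      ∑ e, if Q.src e = b ∧ Q.tgt e = a then 1 else 0 := by
  unfold adj
  rw [Finset.card_filter, Finset.card_filter]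

theorem sum_cut (Q : Quiv I E) (i : I) (a b : {j : I // j ≠ i}) :
    (∑ e, if (cutQ Q i).src e = a ∧ (cutQ Q i).tgt e = b then 1 else 0) =
      ∑ e, if Q.src e = a ∧ Q.tgt e = b then 1 else 0 := by
  rw [← Finset.card_filter, ← Finset.card_filter,
    ← Finset.card_map (Function.Embedding.subtype (fun e => Q.src e ≠ i ∧ Q.tgt e ≠ i))]
  congr 1
  ext e
  simp only [Finset.mem_map, Finset.mem_filter, Finset.mem_univ, true_and]
  constructor
  · rintro ⟨e, ⟨h1, h2⟩, rfl⟩
    rw [← h1, ← h2]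
    exact ⟨rfl, rfl⟩
  · rintro ⟨h1, h2⟩
    have h3 : Q.src e ≠ i := by
      rw [h1]
      exact a.2
    have h4 : Q.tgt e ≠ i := by
      rw [h2]
      exact b.2
    exact ⟨⟨e, h3, h4⟩, ⟨Subtype.ext h1, Subtype.ext h2⟩, rfl⟩

theorem sum_cutJ (Q : Quiv I E) (i : I) (b : {j : I // j ≠ i}) :
    (∑ x : cutJ Q i, if x.1 = b then 1 else 0) = adj Q i b := by
  have h : ∀ x : {j : I // j ≠ i}, (∑ _y : Fin (adj Q i x), if x = b then 1 else 0) =
      if x = b then adj Q i b else 0 := by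
    intro x
    by_cases hx : x = b
    · subst hx
      simp
    · simp [hx]
  rw [Fintype.sum_sigma]
  calc _ = ∑ x : {j : I // j ≠ i}, if x = b then adj Q i b else 0 :=
        Finset.sum_congr rfl fun x _ => h x
    _ = _ := by rw [Finset.sum_ite_eq', if_pos (Finset.mem_univ _)]

theorem adj_qIn (Q : Quiv I E) (i : I) (hi : adj Q i i = 0) (a b : Option {j : I // j ≠ i}) :
    adj (qIn (cutQ Q i) (fun x : cutJ Q i => x.1)) a b =
      adj Q (Equiv.optionSubtypeNe i a) (Equiv.optionSubtypeNe i b) := by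
  have h1 : ∀ b : {j : I // j ≠ i},
      adj (qIn (cutQ Q i) (fun x : cutJ Q i => x.1)) none (some b) = adj Q i b := by
    intro b
    rw [adj_eq_sum, Fintype.sum_sum_type, Fintype.sum_sum_type]
    simp only [qIn, Sum.elim_inl, Sum.elim_inr, reduceCtorEq, false_and, if_false, and_false,
      Finset.sum_const_zero, Option.some_inj, and_true, zero_add]
    exact sum_cutJ Q i b
  rcases a with _ | a
  · rcases b with _ | b
    · rw [Equiv.optionSubtypeNe_none, hi, adj_eq_sum, Fintype.sum_sum_type]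
      simp [qIn]
    · rw [Equiv.optionSubtypeNe_none, Equiv.optionSubtypeNe_some, h1]
  · rcases b with _ | b
    · rw [Equiv.optionSubtypeNe_none, Equiv.optionSubtypeNe_some, pr_adj_symm, h1, pr_adj_symm]
    · rw [Equiv.optionSubtypeNe_some, Equiv.optionSubtypeNe_some, adj_eq_sum,
        Fintype.sum_sum_type, Fintype.sum_sum_type, adj_eq_sum, ← sum_cut, ← sum_cut]
      simp only [qIn, Sum.elim_inl, Sum.elim_inr, reduceCtorEq, and_false, if_false,
        Finset.sum_const_zero, Option.some_inj, add_zero]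

theorem adj_qOut (Q : Quiv I E) (i : I) (a b : Option {j : I // j ≠ i}) :
    adj (qOut (cutQ Q i) (fun x : cutJ Q i => x.1)) a b =
      adj (qIn (cutQ Q i) (fun x : cutJ Q i => x.1)) a b := by
  have k1 : ∀ a b : Option {j : I // j ≠ i},
      (∑ e, if (qOut (cutQ Q i) (fun x : cutJ Q i => x.1)).src e = a ∧
        (qOut (cutQ Q i) (fun x : cutJ Q i => x.1)).tgt e = b then 1 else 0) =
      (∑ e, if some ((cutQ Q i).src e) = a ∧ some ((cutQ Q i).tgt e) = b then 1 else 0) +
      ∑ x : cutJ Q i, if (none : Option {j : I // j ≠ i}) = a ∧ some x.1 = b then 1 else 0 := by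
    intro a b
    rw [Fintype.sum_sum_type]
    rfl
  have k2 : ∀ a b : Option {j : I // j ≠ i},
      (∑ e, if (qIn (cutQ Q i) (fun x : cutJ Q i => x.1)).src e = a ∧
        (qIn (cutQ Q i) (fun x : cutJ Q i => x.1)).tgt e = b then 1 else 0) =
      (∑ e, if some ((cutQ Q i).src e) = a ∧ some ((cutQ Q i).tgt e) = b then 1 else 0) +
      ∑ x : cutJ Q i, if some x.1 = a ∧ (none : Option {j : I // j ≠ i}) = b then 1 else 0 := by
    intro a b
    rw [Fintype.sum_sum_type]
    rfl
  have h1 : ∀ a b : Option {j : I // j ≠ i}, (∑ x : cutJ Q i,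
      if (none : Option {j : I // j ≠ i}) = a ∧ some x.1 = b then 1 else 0) = ∑ x : cutJ Q i,
      if some x.1 = b ∧ (none : Option {j : I // j ≠ i}) = a then 1 else 0 := by
    intro a b
    exact Finset.sum_congr rfl fun x _ => if_congr and_comm rfl rfl
  rw [adj_eq_sum, adj_eq_sum, k1, k1, k2, k2, h1 a b, h1 b a]
  ring

theorem adj_cut_in (Q : Quiv I E) (i : I) (hi : adj Q i i = 0) :
    adj ((qIn (cutQ Q i) (fun x : cutJ Q i => x.1)).map (Equiv.optionSubtypeNe i)) = adj Q := by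
  funext a b
  obtain ⟨a, rfl⟩ := (Equiv.optionSubtypeNe i).surjective a
  obtain ⟨b, rfl⟩ := (Equiv.optionSubtypeNe i).surjective b
  rw [adj_map, adj_qIn Q i hi]

theorem adj_cut_out (Q : Quiv I E) (i : I) (hi : adj Q i i = 0) :
    adj ((qOut (cutQ Q i) (fun x : cutJ Q i => x.1)).map (Equiv.optionSubtypeNe i)) = adj Q := by
  funext a b
  obtain ⟨a, rfl⟩ := (Equiv.optionSubtypeNe i).surjective a
  obtain ⟨b, rfl⟩ := (Equiv.optionSubtypeNe i).surjective b
  rw [adj_map, adj_qOut, adj_qIn Q i hi]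

theorem comp_oc (i : I) (α : I → ℕ) : (fun a => α (Equiv.optionSubtypeNe i a)) =
    oc (α i) (fun j : {j : I // j ≠ i} => α j) := by
  funext a
  rcases a with _ | a
  · rw [Equiv.optionSubtypeNe_none]
    rfl
  · rw [Equiv.optionSubtypeNe_some]
    rfl

theorem kacCount_cut_in (Q : Quiv I E) (i : I) (hi : adj Q i i = 0) (α : I → ℕ) (F : Type)
    [Field F] [Fintype F] : kacCount Q F α =
      kacCount (qIn (cutQ Q i) (fun x : cutJ Q i => x.1)) F
        (oc (α i) (fun j : {j : I // j ≠ i} => α j)) := by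
  rw [← kacCount_congr_adj _ Q (adj_cut_in Q i hi) α F, kacCount_map, comp_oc]

theorem kacCount_cut_out (Q : Quiv I E) (i : I) (hi : adj Q i i = 0) (α : I → ℕ) (F : Type)
    [Field F] [Fintype F] : kacCount Q F α =
      kacCount (qOut (cutQ Q i) (fun x : cutJ Q i => x.1)) F
        (oc (α i) (fun j : {j : I // j ≠ i} => α j)) := by
  rw [← kacCount_congr_adj _ Q (adj_cut_out Q i hi) α F, kacCount_map, comp_oc]

theorem sum_adj_cut (Q : Quiv I E) (i : I) (hi : adj Q i i = 0) (α : I → ℕ) :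
    ∑ x : cutJ Q i, α x.1 = ∑ j, adj Q i j * α j := by
  rw [← Equiv.sum_comp (Equiv.optionSubtypeNe i), Fintype.sum_option, Fintype.sum_sigma]
  simp [hi]

theorem sw_eq (Q : Quiv I E) (i : I) (α : I → ℕ) :
    sw (adj Q) α i = -2 * (α i : ℤ) + (∑ j, adj Q i j * α j : ℕ) := by
  unfold sw cart
  simp only [sub_mul, Finset.sum_sub_distrib, ite_mul, zero_mul, Finset.sum_ite_eq,
    Finset.mem_univ, if_true]
  push_cast
  ring

theorem kacCount_reflect (Q : Quiv I E) (i : I) (hi : adj Q i i = 0) (α α' : I → ℕ)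
    (hα : ∃ j, j ≠ i ∧ α j ≠ 0) (h : ∀ j, j ≠ i → α' j = α j)
    (h' : (α' i : ℤ) = (α i : ℤ) + sw (adj Q) α i) (F : Type) [Field F] [Fintype F] :
    kacCount Q F α' = kacCount Q F α := by
  rw [kacCount_cut_in Q i hi α F, kacCount_cut_out Q i hi α' F]
  have h1 : (fun j : {j : I // j ≠ i} => α' j) = fun j : {j : I // j ≠ i} => α j := by
    funext j
    exact h j.1 j.2
  rw [h1]
  symm
  apply kacCount_bgp
  · rw [sum_adj_cut Q i hi α]
    rw [sw_eq] at h'
    have : ((α i + α' i : ℕ) : ℤ) = ((∑ j, adj Q i j * α j : ℕ) : ℤ) := by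
      rw [Nat.cast_add]
      linarith
    exact_mod_cast this
  · obtain ⟨j, hj, hj'⟩ := hα
    intro h2
    exact hj' (congrFun h2 ⟨j, hj⟩)

theorem kacCount_reflect_neg (Q : Quiv I E) (i : I) (hi : adj Q i i = 0) (α : I → ℕ)
    (hα : ∃ j, j ≠ i ∧ α j ≠ 0) (h' : (α i : ℤ) + sw (adj Q) α i < 0) (F : Type) [Field F]
    [Fintype F] : kacCount Q F α = 0 := by
  rw [kacCount_cut_in Q i hi α F]
  apply kacCount_in_zero
  · rw [sum_adj_cut Q i hi α]
    rw [sw_eq] at h'
    have : ((∑ j, adj Q i j * α j : ℕ) : ℤ) < (α i : ℤ) := by linarith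
    exact_mod_cast this
  · obtain ⟨j, hj, hj'⟩ := hα
    intro h2
    exact hj' (congrFun h2 ⟨j, hj⟩)

end cut

end Pool.Agent.H27.KAC

end

section

/-!
Project KAC, parts I.2 and II.2: the statements of the interface.
-/

set_option autoImplicit false

namespace Pool.Agent.H27.KAC

open scoped BigOperators
open Polynomial

section

variable {I E : Type}

theorem kacOne_eq (Q : Quiv I E) (α : I → ℕ) (p : ℚ[X]) (h : IsKacPoly Q α p) :
    kacOne Q α = p.eval 1 := by
  unfold kacOne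
  rw [dif_pos ⟨p, h⟩]
  exact kacPoly_choose Q α p h ⟨p, h⟩

/-- `kacOne` depends on the numbers of absolutely indecomposable representations only. -/
theorem kacOne_congr {I' E' : Type} (Q : Quiv I E) (Q' : Quiv I' E') (α : I → ℕ)
    (α' : I' → ℕ)
    (h : ∀ (F : Type) [Field F] [Fintype F], kacCount Q F α = kacCount Q' F α') :
    kacOne Q α = kacOne Q' α' := by
  by_cases hp : ∃ p : ℚ[X], IsKacPoly Q α p
  · obtain ⟨p, hp⟩ := hp
    rw [kacOne_eq Q α p hp, kacOne_eq Q' α' p ((isKacPoly_congr Q Q' α α' h p).1 hp)]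
  · have hp' : ¬ ∃ p : ℚ[X], IsKacPoly Q' α' p := by
      rintro ⟨p, h2⟩
      exact hp ⟨p, (isKacPoly_congr Q Q' α α' h p).2 h2⟩
    unfold kacOne
    rw [dif_neg hp, dif_neg hp']

theorem kacOne_const (Q : Quiv I E) (α : I → ℕ) (c : ℕ)
    (h : ∀ (F : Type) [Field F] [Fintype F], kacCount Q F α = c) : kacOne Q α = c := by
  have hp : IsKacPoly Q α (C (c : ℚ)) := by
    intro F _ _
    rw [h F, eval_C]
  rw [kacOne_eq Q α _ hp, eval_C]

end

section

variable {I E : Type} [Fintype I] [DecidableEq I] [Fintype E]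

/-- (II.2) Kac polynomials exist. -/
theorem kacPoly_exists (Q : Quiv I E) (α : I → ℕ) : ∃ p : ℚ[X], IsKacPoly Q α p :=
  kacPoly_exists' Q α

/-- (I.2) invariance under the reflection at a loop-free vertex. -/
theorem kac_reflect (Q : Quiv I E) (i : I) (hi : adj Q i i = 0) (α α' : I → ℕ)
    (hα : ∃ j, j ≠ i ∧ α j ≠ 0) (h : ∀ j, j ≠ i → α' j = α j)
    (h' : (α' i : ℤ) = (α i : ℤ) + sw (adj Q) α i) : kacOne Q α' = kacOne Q α :=
  kacOne_congr Q Q α' α fun F _ _ => kacCount_reflect Q i hi α α' hα h h' F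

theorem kac_reflect_neg (Q : Quiv I E) (i : I) (hi : adj Q i i = 0) (α : I → ℕ)
    (hα : ∃ j, j ≠ i ∧ α j ≠ 0) (h' : (α i : ℤ) + sw (adj Q) α i < 0) : kacOne Q α = 0 := by
  rw [kacOne_const Q α 0 fun F _ _ => kacCount_reflect_neg Q i hi α hα h' F, Nat.cast_zero]

theorem kac_simple_one (Q : Quiv I E) (i : I) (hi : adj Q i i = 0) :
    kacOne Q (Pi.single i 1) = 1 := by
  rw [kacOne_const Q _ 1 fun F _ _ => kacCount_single_one Q F i hi, Nat.cast_one]

theorem kac_simple_ge_two (Q : Quiv I E) (i : I) (hi : adj Q i i = 0) (n : ℕ) (hn : 2 ≤ n) :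
    kacOne Q (Pi.single i n) = 0 := by
  rw [kacOne_const Q _ 0 fun F _ _ => kacCount_single_ge_two Q F i hi n hn, Nat.cast_zero]

/-- (I.3) a dimension vector with disconnected support has Kac number zero. -/
theorem kac_disconnected (Q : Quiv I E) (α : I → ℕ) (S : I → Prop)
    (h1 : ∃ i, S i ∧ α i ≠ 0) (h2 : ∃ i, ¬ S i ∧ α i ≠ 0)
    (h : ∀ i j, S i → ¬ S j → α i ≠ 0 → α j ≠ 0 → adj Q i j = 0) : kacOne Q α = 0 := by
  classical
  rw [kacOne_const Q α 0 fun F _ _ => kacCount_disconnected Q F α (Finset.univ.filter S)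
    (by simpa using h1) (by simpa using h2)
    (fun i hi j hj => h i j (by simpa using hi) (by simpa using hj)), Nat.cast_zero]

theorem kacOne_zero (Q : Quiv I E) : kacOne Q (0 : I → ℕ) = 0 := by
  rw [kacOne_const Q _ 0 fun F _ _ => kacCount_zero Q F, Nat.cast_zero]

end

end Pool.Agent.H27.KAC

end

section

/-!
Project KAC: output of parts I and II (statements used by all later parts): `kacPoly_exists`, `kacPoly_unique`,
`kac_reflect`, `kac_reflect_neg`, `kac_simple_one`, `kac_simple_ge_two`, `kac_disconnected` are in `PR_Out`.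
-/

namespace Pool.Agent.H27.KAC

open scoped BigOperators
open Polynomial

variable {I E : Type} [Fintype I] [DecidableEq I] [Fintype E]

/-- (II.3) the Q-system at `q = 1`. -/
theorem qsys_main (Q : Quiv I E) :
    ∃ (T : I → ℕ → MvPowerSeries I ℤ) (G : I → MvPowerSeries I ℤ),
      (∀ i, T i 0 = 1) ∧
      (∀ i k, MvPowerSeries.constantCoeff (T i k) = 1) ∧
      (∀ i k, (T i (k + 1)) ^ 2 = T i k * T i (k + 2) +
        (MvPowerSeries.X i) ^ (k + 1) * ∏ j, (T j (k + 1)) ^ (adj Q i j)) ∧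
      (∀ i k (d : I →₀ ℕ), tdeg d ≤ k →
        MvPowerSeries.coeff d (T i k) = MvPowerSeries.coeff d (G i)) ∧
      (∀ i j, eul j (MvPowerSeries.map (Int.castRingHom ℚ) (G i)) =
        MvPowerSeries.map (Int.castRingHom ℚ) (G i) * wSer (fOf (kacOne Q)) i j) :=
  qsys_of_kacOne Q (kacPoly_exists Q)

end Pool.Agent.H27.KAC

end

section

/-!
KAC module KH13: reflections of dimension vectors whose multiples are eventually roots, and descent to the fundamental cone.

PROOF.  `kac_refl`: `β` is not supported in `{i}`: otherwise `β = Pi.single i c`, and `kacOne Q (Pi.single i (n c)) = 0` for `n ≥ 2`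
(`kac_simple_ge_two`; `c = 0`: `kacOne_zero`), contradiction with `hβ`.  `β i + sw (adj Q) β i ≥ 0`: otherwise `kac_reflect_neg` for all
`n β` (`sw_smul`), contradiction.  Take `β' = Function.update β i (β i + sw (adj Q) β i).toNat` and `kac_reflect`.
`kac_descent`: induction on `∑ β i`.  If `sw (adj Q) β i < 0` for some `i`: then `adj Q i i = 0` (otherwise `adj Q i i ≥ 2`, `adj_self`
even, and `sw = (adj Q i i - 2) β i + ∑_(j ≠ i) adj Q i j β j ≥ 0`); apply `kac_refl`: `β' ≤ β`, smaller sum, and the form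
`∑ β i * sw β i` does not change (`adj` symmetric: the reflection preserves the form).
-/

set_option autoImplicit false

namespace Pool.Agent.H27.KAC

open scoped BigOperators
open Filter Topology

variable {I E : Type} [Fintype I] [DecidableEq I] [Fintype E]

omit [Fintype I] in
theorem KH13_adj (Q : Quiv I E) (i : I) :
    adj Q i i = 2 * (Finset.univ.filter (fun e : E => Q.src e = i ∧ Q.tgt e = i)).card := by
  unfold adj
  ring

theorem kac_refl (Q : Quiv I E) (β : I → ℕ) (hβ : ∀ᶠ n : ℕ in atTop, 0 < kacOne Q (fun i => n * β i))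
    (i : I) (hi : adj Q i i = 0) :
    ∃ β' : I → ℕ, (∀ j, (β' j : ℤ) = (β j : ℤ) + if j = i then sw (adj Q) β i else 0) ∧
      ∀ n : ℕ, 1 ≤ n → kacOne Q (fun j => n * β' j) = kacOne Q (fun j => n * β j) := by
  obtain ⟨n0, hn0, hn2⟩ := (hβ.and (eventually_ge_atTop 2)).exists
  -- not supported at `i`
  have hj : ∃ j, j ≠ i ∧ β j ≠ 0 := by
    by_contra hc
    push Not at hc
    have h1 : (fun l => n0 * β l) = Pi.single i (n0 * β i) := by
      funext l
      by_cases hl : l = i
      · rw [hl, Pi.single_eq_same]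
      · rw [hc l hl, Pi.single_eq_of_ne hl, mul_zero]
    rw [h1] at hn0
    rcases Nat.eq_zero_or_pos (β i) with h0 | h0
    · rw [h0, mul_zero, Pi.single_zero, kacOne_zero] at hn0
      exact lt_irrefl _ hn0
    · rw [kac_simple_ge_two Q i hi (n0 * β i) (by nlinarith)] at hn0
      exact lt_irrefl _ hn0
  obtain ⟨j, hji, hβj⟩ := hj
  have hr : 0 ≤ (β i : ℤ) + sw (adj Q) β i := by
    by_contra hc
    have hc' := not_le.1 hc
    have h1 : kacOne Q (fun l => n0 * β l) = 0 := by
      refine kac_reflect_neg Q i hi _ ⟨j, hji, Nat.mul_ne_zero (by omega) hβj⟩ ?_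
      rw [sw_smul]
      have hN' : (0 : ℤ) < n0 := by
        have : 0 < n0 := by omega
        exact_mod_cast this
      push_cast
      nlinarith
    rw [h1] at hn0
    exact lt_irrefl _ hn0
  obtain ⟨c, hc⟩ := Int.eq_ofNat_of_zero_le hr
  refine ⟨Function.update β i c, fun l => ?_, fun n hn => ?_⟩
  · by_cases hl : l = i
    · subst hl
      rw [Function.update_self, if_pos rfl, hc]
    · rw [Function.update_of_ne hl, if_neg hl, add_zero]
  · refine kac_reflect Q i hi (fun l => n * β l) (fun l => n * Function.update β i c l)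
      ⟨j, hji, Nat.mul_ne_zero (by omega) hβj⟩ (fun l hl => ?_) ?_
    · show n * Function.update β i c l = n * β l
      rw [Function.update_of_ne hl]
    · show ((n * Function.update β i c i : ℕ) : ℤ) = ((n * β i : ℕ) : ℤ) + _
      rw [sw_smul, Function.update_self]
      have h4 : (β i : ℤ) + sw (adj Q) β i = (c : ℤ) := hc
      push_cast
      rw [← h4]
      ring

theorem KH13_form (a : I → I → ℕ) (hs : ∀ i j, a i j = a j i) (β β' : I → ℕ) (i : I)
    (hi : a i i = 0) (h : ∀ j, (β' j : ℤ) = (β j : ℤ) + if j = i then sw a β i else 0) :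
    ∑ l, (β' l : ℤ) * sw a β' l = ∑ l, (β l : ℤ) * sw a β l := by
  obtain ⟨s, hs'⟩ : ∃ s, s = sw a β i := ⟨_, rfl⟩
  have h1 : ∀ l, sw a β' l = sw a β l - cart a l i * s := by
    intro l
    unfold sw
    have h2 : ∑ j, cart a l j * (β' j : ℤ) = ∑ j, (cart a l j * (β j : ℤ) +
        if j = i then cart a l i * s else 0) := by
      refine Finset.sum_congr rfl fun j _ => ?_
      rw [h j, mul_add, hs']
      congr 1
      split_ifs with hj
      · rw [hj]
      · rw [mul_zero]
    rw [h2, Finset.sum_add_distrib, Finset.sum_ite_eq' Finset.univ i, if_pos (Finset.mem_univ i)]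
    ring
  have h3 : ∀ l, (β' l : ℤ) * sw a β' l = (β l : ℤ) * sw a β l - s * (cart a i l * (β l : ℤ)) +
      if l = i then s * (sw a β l - cart a l i * s) else 0 := by
    intro l
    have hcart : cart a l i = cart a i l := by
      unfold cart
      rw [hs l i]
      by_cases hl : l = i
      · rw [if_pos hl, if_pos hl.symm]
      · rw [if_neg hl, if_neg (Ne.symm hl)]
    rw [h1 l, h l, ← hs', hcart]
    split_ifs with hl
    · ring
    · ring
  rw [Finset.sum_congr rfl fun l _ => h3 l, Finset.sum_add_distrib, Finset.sum_sub_distrib,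
    Finset.sum_ite_eq' Finset.univ i, if_pos (Finset.mem_univ i), ← Finset.mul_sum]
  have h4 : ∑ l, cart a i l * (β l : ℤ) = -s := by
    rw [hs']
    unfold sw
    rw [neg_neg]
  have h5 : cart a i i = 2 := by
    unfold cart
    rw [if_pos rfl, hi]
    norm_num
  rw [h4, h5, ← hs']
  ring

theorem kac_descent (Q : Quiv I E) (β : I → ℕ)
    (hβ : ∀ᶠ n : ℕ in atTop, 0 < kacOne Q (fun i => n * β i)) :
    ∃ β' : I → ℕ, (∀ n : ℕ, 1 ≤ n → kacOne Q (fun j => n * β' j) = kacOne Q (fun j => n * β j)) ∧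
      (∀ i, β' i ≤ β i) ∧ (∀ i, 0 ≤ sw (adj Q) β' i) ∧
      ∑ i, (β' i : ℤ) * sw (adj Q) β' i = ∑ i, (β i : ℤ) * sw (adj Q) β i := by
  obtain ⟨h, hh⟩ : ∃ h, ∑ i, β i = h := ⟨_, rfl⟩
  induction h using Nat.strong_induction_on generalizing β with
  | _ h ih =>
  by_cases hneg : ∃ i, sw (adj Q) β i < 0
  swap
  · push Not at hneg
    exact ⟨β, fun _ _ => rfl, fun _ => le_rfl, hneg, rfl⟩
  obtain ⟨i, hi⟩ := hneg
  have hai : adj Q i i = 0 := by
    by_contra hc
    have h2 : 2 ≤ adj Q i i := by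
      have := KH13_adj Q i
      omega
    have h3 : 0 ≤ sw (adj Q) β i := by
      unfold sw
      rw [← Finset.sum_neg_distrib]
      refine Finset.sum_nonneg fun j _ => ?_
      rw [← neg_mul]
      refine mul_nonneg ?_ (Int.natCast_nonneg _)
      unfold cart
      split_ifs with hj
      · subst hj
        omega
      · omega
    omega
  obtain ⟨β', h1, h2⟩ := kac_refl Q β hβ i hai
  have hβ' : ∀ᶠ n : ℕ in atTop, 0 < kacOne Q (fun i => n * β' i) := by
    filter_upwards [hβ, eventually_ge_atTop 1] with n hn hn1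
    rw [h2 n hn1]
    exact hn
  have hle : ∀ j, β' j ≤ β j := by
    intro j
    have := h1 j
    split_ifs at this with hj
    · omega
    · omega
  have hsum : ∑ j, β' j < h := by
    rw [← hh]
    refine Finset.sum_lt_sum (fun j _ => hle j) ⟨i, Finset.mem_univ i, ?_⟩
    have := h1 i
    rw [if_pos rfl] at this
    omega
  obtain ⟨β'', k1, k2, k3, k4⟩ := ih _ hsum β' hβ' rfl
  refine ⟨β'', fun n hn => (k1 n hn).trans (h2 n hn), fun j => (k2 j).trans (hle j), k3, ?_⟩
  rw [k4]
  exact KH13_form (adj Q) (fun i j => by unfold adj; ring) β β' i hai h1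

end Pool.Agent.H27.KAC

end

section

/-!
KAC module KH18: the graph of the growth function of a quiver: descent to the cone and reflections.

`GrQ_descent`: for `GrQ Q x v` there is `x' ∈ Kon`, `x' ≤ x`, same form, `v = PhiR (adj Q) x'`: `kac_descent`, `kac_limit_Phi`, uniqueness
of limits, `PhiR_smul`; `cR (adj Q) β i = - sw (adj Q) β i` for integer vectors.
`GrQ_refl`: `kac_refl`.
-/

set_option autoImplicit false

namespace Pool.Agent.H27.KAC

open scoped BigOperators
open Filter Topology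

variable {I E : Type} [Fintype I] [DecidableEq I] [Fintype E]

theorem GrQ_refl (Q : Quiv I E) (x : I → ℝ) (v : ℝ) (h : GrQ Q x v) (i : I)
    (hi : adj Q i i = 0) :
    GrQ Q (fun j => x j - if j = i then cR (adj Q) x i else 0) v := by
  obtain ⟨β, t, l, ht, hβ, hl, hx, hv⟩ := h
  obtain ⟨β', h1, h2⟩ := kac_refl Q β hβ i hi
  refine ⟨β', t, l, ht, ?_, ?_, fun j => ?_, hv⟩
  · filter_upwards [hβ, eventually_ge_atTop 1] with n hn hn1
    rw [h2 n hn1]
    exact hn
  · refine hl.congr' ?_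
    filter_upwards [eventually_ge_atTop 1] with n hn
    rw [h2 n hn]
  · have hxx : x = t • (fun i => (β i : ℝ)) := by
      funext i
      rw [hx i, Pi.smul_apply, smul_eq_mul]
    have h3 : (β' j : ℝ) = (β j : ℝ) + if j = i then ((sw (adj Q) β i : ℤ) : ℝ) else 0 := by
      have := congrArg (fun z : ℤ => (z : ℝ)) (h1 j)
      push_cast at this
      exact this
    show x j - (if j = i then cR (adj Q) x i else 0) = t * (β' j : ℝ)
    rw [h3, hxx, cR_smul, KH12_cR]
    split_ifs with hj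
    · rw [Pi.smul_apply, smul_eq_mul]
      ring
    · rw [Pi.smul_apply, smul_eq_mul]
      ring

end Pool.Agent.H27.KAC

end

section

/-!
Project KAC: the number `kacOne Q α` is an integer.
-/

set_option autoImplicit false

namespace Pool.Agent.H27.KAC

open scoped BigOperators
open Polynomial

/-- A common denominator of the coefficients. -/
theorem kint_denom (p : ℚ[X]) : ∃ (D : ℕ) (P : ℤ[X]), 1 ≤ D ∧
    P.map (Int.castRingHom ℚ) = C (D : ℚ) * p := by
  induction p using Polynomial.induction_on' with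
  | add p q hp hq =>
    obtain ⟨D, P, hD, hP⟩ := hp
    obtain ⟨D', P', hD', hP'⟩ := hq
    refine ⟨D * D', C (D' : ℤ) * P + C (D : ℤ) * P', Nat.mul_pos hD hD', ?_⟩
    rw [Polynomial.map_add, Polynomial.map_mul, Polynomial.map_mul, hP, hP', map_C, map_C]
    simp only [eq_intCast, Int.cast_natCast, Nat.cast_mul, C_mul]
    ring
  | monomial n a =>
    refine ⟨a.den, Polynomial.monomial n a.num, a.den_pos, ?_⟩
    rw [map_monomial, C_mul_monomial, eq_intCast, Rat.den_mul_eq_num]

theorem kacOne_int {I E : Type} (Q : Quiv I E) (α : I → ℕ) : ∃ z : ℤ, kacOne Q α = z := by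
  by_cases hex : ∃ p : ℚ[X], IsKacPoly Q α p
  · obtain ⟨p, hp⟩ := hex
    rw [kacOne_eq Q α p hp]
    obtain ⟨D, P, hD, hP⟩ := kint_denom p
    obtain ⟨l, hl, hlp⟩ := Nat.exists_infinite_primes (D + 1)
    have : Fact (Nat.Prime l) := ⟨hlp⟩
    have hcop : Nat.Coprime l D := by
      rw [Nat.Prime.coprime_iff_not_dvd hlp]
      intro h
      have := Nat.le_of_dvd (by omega) h
      omega
    have hN0 : Nat.totient D ≠ 0 := (Nat.totient_pos.2 (by omega)).ne'
    have hfin : Finite (GaloisField l (Nat.totient D)) := by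
      apply Nat.finite_of_card_ne_zero
      rw [GaloisField.card l _ hN0]
      exact pow_ne_zero _ hlp.ne_zero
    let _ : Fintype (GaloisField l (Nat.totient D)) := Fintype.ofFinite _
    have hcard : Fintype.card (GaloisField l (Nat.totient D)) = l ^ Nat.totient D := by
      rw [← Nat.card_eq_fintype_card, GaloisField.card l _ hN0]
    have h1 := hp (GaloisField l (Nat.totient D))
    rw [hcard] at h1
    set c := kacCount Q (GaloisField l (Nat.totient D)) α with hc
    set q := l ^ Nat.totient D with hq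
    have hev : ∀ z : ℤ, ((P.eval z : ℤ) : ℚ) = (D : ℚ) * p.eval (z : ℚ) := by
      intro z
      have h2 := congrArg (fun f : ℚ[X] => f.eval (z : ℚ)) hP
      simp only [eval_mul, eval_C] at h2
      rw [← h2, eval_intCast_map]
      simp
    have h3 : (D : ℤ) ∣ P.eval (1 : ℤ) := by
      have h4 : (q : ℤ) - 1 ∣ P.eval (q : ℤ) - P.eval 1 := sub_dvd_eval_sub _ _ _
      have h5 : (D : ℤ) ∣ (q : ℤ) - 1 := by
        have h6 := Nat.ModEq.pow_totient hcop
        rw [← hq] at h6
        have h7 := (Nat.modEq_iff_dvd.1 h6.symm)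
        simpa using h7
      have h8 : (D : ℤ) ∣ P.eval (q : ℤ) := by
        refine ⟨(c : ℤ), ?_⟩
        have h9 := hev (q : ℤ)
        rw [Int.cast_natCast, ← h1] at h9
        exact_mod_cast h9
      have h10 := dvd_sub h8 (h5.trans h4)
      simpa using h10
    obtain ⟨z, hz⟩ := h3
    refine ⟨z, ?_⟩
    have h11 := hev 1
    rw [hz] at h11
    push_cast at h11
    have hD' : (D : ℚ) ≠ 0 := by positivity
    exact (mul_left_cancel₀ hD' h11).symm
  · refine ⟨0, ?_⟩
    unfold kacOne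
    rw [dif_neg hex]
    simp

end Pool.Agent.H27.KAC

end

section

/-!
KAC module KM1: the numbers `fOf (kacOne Q)` come from a solution of the Q-system.
-/

set_option autoImplicit false

namespace Pool.Agent.H27.KAC

open scoped BigOperators
open MvPowerSeries

variable {I E : Type} [Fintype I] [DecidableEq I] [Fintype E]

theorem kacData_kac (Q : Quiv I E) : KacData (adj Q) (fOf (kacOne Q)) := by
  obtain ⟨T, G, h1, h2, h3, h4, h5⟩ := qsys_main Q
  refine ⟨fun i k => map (Int.castRingHom ℚ) (T i k), fun i => map (Int.castRingHom ℚ) (G i),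
    ?_, ?_, ?_, ?_, ?_⟩
  · intro i
    show map (Int.castRingHom ℚ) (T i 0) = 1
    rw [h1 i, map_one]
  · intro i k
    show constantCoeff (map (Int.castRingHom ℚ) (T i k)) = 1
    have h := h2 i k
    rw [← coeff_zero_eq_constantCoeff_apply] at h ⊢
    rw [coeff_map, h, map_one]
  · intro i k
    have h := congrArg (map (Int.castRingHom ℚ)) (h3 i k)
    simp only [map_pow, map_add, map_mul, map_prod, map_X] at h
    exact h
  · intro i k d hd
    show coeff d (map (Int.castRingHom ℚ) (T i k)) = coeff d (map (Int.castRingHom ℚ) (G i))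
    rw [coeff_map, coeff_map, h4 i k d hd]
  · intro i j
    exact h5 i j

end Pool.Agent.H27.KAC

end

section

/-!
KAC, affine case: `kacOne Q (n δ) = |supp δ|` for all `n ≥ 1`.
-/

set_option autoImplicit false

namespace Pool.H88.KA

open scoped BigOperators
open Pool.Agent.H27.KAC
open Polynomial

/-! ### formal power series in one variable -/

/-- `∑ n f_n y^n`. -/
noncomputable def thP (f : ℕ → ℚ) : PowerSeries ℚ := PowerSeries.mk fun n => (n : ℚ) * f n

theorem thP_mul (f g h : ℕ → ℚ) (hfg : PowerSeries.mk h = PowerSeries.mk f * PowerSeries.mk g) :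
    thP h = thP f * PowerSeries.mk g + PowerSeries.mk f * thP g := by
  ext n
  have h1 : h n = ∑ x ∈ Finset.HasAntidiagonal.antidiagonal n, f x.1 * g x.2 := by
    have h2 := congrArg (PowerSeries.coeff n) hfg
    rw [PowerSeries.coeff_mk, PowerSeries.coeff_mul] at h2
    rw [h2]
    exact Finset.sum_congr rfl fun x _ => by rw [PowerSeries.coeff_mk, PowerSeries.coeff_mk]
  unfold thP
  rw [map_add, PowerSeries.coeff_mk, PowerSeries.coeff_mul, PowerSeries.coeff_mul, h1,
    Finset.mul_sum, ← Finset.sum_add_distrib]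
  refine Finset.sum_congr rfl fun x hx => ?_
  rw [Finset.HasAntidiagonal.mem_antidiagonal] at hx
  simp only [PowerSeries.coeff_mk]
  rw [← hx]
  push_cast
  ring

/-- the logarithm. -/
theorem log_coeff (p0 p1 l0 l1 : ℕ → ℚ) (c : ℚ) (h0 : p0 0 = 1)
    (h1 : ∀ n : ℕ, (n : ℚ) * p0 n = ∑ k ∈ Finset.range (n + 1), (k : ℚ) * l0 k * p0 (n - k))
    (h2 : ∀ n : ℕ, (n : ℚ) * p1 n = ∑ k ∈ Finset.range (n + 1),
      (k : ℚ) * (l0 k * p1 (n - k) + l1 k * p0 (n - k)))
    (h3 : ∀ n : ℕ, p1 n = c * ∑ j ∈ Finset.range n, p0 j) (n : ℕ) (hn : 1 ≤ n) : l1 n = c := by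
  obtain ⟨G, hG⟩ : ∃ G : ℕ → ℚ, G = fun n => if n = 0 then 0 else c := ⟨_, rfl⟩
  have e1 : thP p0 = thP l0 * PowerSeries.mk p0 := by
    ext n
    unfold thP
    rw [PowerSeries.coeff_mk, PowerSeries.coeff_mul, h1 n,
      Finset.Nat.sum_antidiagonal_eq_sum_range_succ_mk]
    exact Finset.sum_congr rfl fun k _ => by rw [PowerSeries.coeff_mk, PowerSeries.coeff_mk]
  have e2 : thP p1 = thP l0 * PowerSeries.mk p1 + thP l1 * PowerSeries.mk p0 := by
    ext n
    unfold thP
    rw [map_add, PowerSeries.coeff_mk, PowerSeries.coeff_mul, PowerSeries.coeff_mul, h2 n,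
      Finset.Nat.sum_antidiagonal_eq_sum_range_succ_mk,
      Finset.Nat.sum_antidiagonal_eq_sum_range_succ_mk, ← Finset.sum_add_distrib]
    refine Finset.sum_congr rfl fun k _ => ?_
    simp only [PowerSeries.coeff_mk]
    ring
  have e3 : PowerSeries.mk p1 = PowerSeries.mk p0 * PowerSeries.mk G := by
    ext n
    rw [PowerSeries.coeff_mk, PowerSeries.coeff_mul, h3 n,
      Finset.Nat.sum_antidiagonal_eq_sum_range_succ_mk, Finset.sum_range_succ, Finset.mul_sum]
    simp only [PowerSeries.coeff_mk]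
    rw [hG]
    simp only [Nat.sub_self, if_true, mul_zero, add_zero]
    refine Finset.sum_congr rfl fun k hk => ?_
    rw [Finset.mem_range] at hk
    rw [if_neg (by omega)]
    ring
  have e4 := thP_mul p0 G p1 e3
  have e5 : PowerSeries.mk p0 * thP l1 = PowerSeries.mk p0 * thP G := by
    have h5 : thP l0 * PowerSeries.mk p1 + thP l1 * PowerSeries.mk p0 =
        thP l0 * PowerSeries.mk p0 * PowerSeries.mk G + PowerSeries.mk p0 * thP G := by
      rw [← e2, e4, e1]
    rw [e3] at h5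
    linear_combination h5
  have hne : PowerSeries.mk p0 ≠ 0 := by
    intro hc
    have h5 := congrArg (PowerSeries.coeff 0) hc
    rw [PowerSeries.coeff_mk, h0, map_zero] at h5
    exact one_ne_zero h5
  have e6 := mul_left_cancel₀ hne e5
  have e7 := congrArg (PowerSeries.coeff n) e6
  unfold thP at e7
  rw [PowerSeries.coeff_mk, PowerSeries.coeff_mk, hG] at e7
  simp only [if_neg (show ¬ n = 0 by omega)] at e7
  have hn0 : (n : ℚ) ≠ 0 := by
    have : n ≠ 0 := by omega
    exact_mod_cast this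
  exact mul_left_cancel₀ hn0 e7

theorem AsE.inv_pow_sub (N : ℕ) (hN : 2 ≤ N) : AsE (fun l => ((l : ℚ) ^ N - 1)⁻¹) 0 0 := by
  refine ⟨2, by norm_num, fun l hl => ?_⟩
  have hl2 : (2 : ℚ) ≤ l := by exact_mod_cast hl.two_le
  have hsq : (4 : ℚ) ≤ (l : ℚ) ^ 2 := by nlinarith
  have h1 : (l : ℚ) ^ 2 ≤ (l : ℚ) ^ N := pow_le_pow_right₀ (by linarith) hN
  have h2 : 0 < (l : ℚ) ^ N - 1 := by linarith
  have h3 : (l : ℚ) ^ 2 / 2 ≤ (l : ℚ) ^ N - 1 := by linarith
  rw [zero_div, sub_zero, sub_zero, abs_of_pos (inv_pos.2 h2)]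
  have h4 : 2 / (l : ℚ) ^ 2 = ((l : ℚ) ^ 2 / 2)⁻¹ := by rw [inv_div]
  rw [h4]
  exact inv_anti₀ (by positivity) h3

variable {I E : Type} [Fintype I] [DecidableEq I] [Fintype E]

/-- a vector as an exponent. -/
noncomputable def tof (α : I → ℕ) : I →₀ ℕ := Finsupp.equivFunOnFinite.symm α

omit [DecidableEq I] in
theorem tof_apply (α : I → ℕ) (i : I) : tof α i = α i := rfl

/-- Hua's recursion at the prime `l`. -/
theorem hua_PP (Q : Quiv I E) (α : I → ℕ) (i : I) (l : ℕ) (hl : l.Prime) :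
    (α i : ℚ) * PP Q (tof α) l =
      ∑ β ∈ Fintype.piFinset (fun j => Finset.range (α j + 1)),
        (β i : ℚ) * Lc Q l β * PP Q (tof (fun j => α j - β j)) l := by
  have : Fact (Nat.Prime l) := ⟨hl⟩
  have h1 := hua_log Q (ZMod l) α i
  have hP : ∀ β : I → ℕ, Pc Q (ZMod l) β = PP Q (tof β) l := by
    intro β
    have h2 := Pc_formula Q (ZMod l) (tof β)
    rw [ZMod.card] at h2
    exact h2
  rw [ZMod.card, hP α] at h1
  rw [h1]
  refine Finset.sum_congr rfl fun β _ => ?_
  rw [hP]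

/-- being a multiple of `δ`. -/
def IsM (δ β : I → ℕ) : Prop := ∃ c : ℕ, ∀ i, β i = c * δ i

theorem Lc_zero (Q : Quiv I E) (l : ℕ) : Lc Q l (fun _ => 0) = 0 := by
  unfold Lc
  apply Finset.sum_eq_zero
  intro N hN
  rw [Finset.mem_filter, Finset.mem_range] at hN
  simp only [Finset.sum_const_zero] at hN
  omega

theorem Aff.Lc_As {Q : Quiv I E} {δ : I → ℕ} {S : Finset I} (h : Aff Q δ S) (β : I → ℕ)
    (hβ : ∀ i, i ∉ S → β i = 0) :
    ∃ a b : ℚ, AsE (fun l => Lc Q l β) a b ∧ (¬ IsM δ β → a = 0) := by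
  obtain ⟨n, hn⟩ : ∃ n, ∑ i, β i = n := ⟨_, rfl⟩
  induction n using Nat.strong_induction_on generalizing β with
  | _ n ih =>
  by_cases h0 : ∃ i, β i ≠ 0
  swap
  · push Not at h0
    have h1 : β = fun _ => 0 := funext h0
    refine ⟨0, 0, AsE.zero.congr fun l _ => ?_, fun _ => rfl⟩
    rw [h1, Lc_zero]
  obtain ⟨i, hi⟩ := h0
  obtain ⟨F, hF⟩ : ∃ F, F = (Fintype.piFinset (fun j => Finset.range (β j + 1))).erase β := ⟨_, rfl⟩
  have hmem : β ∈ Fintype.piFinset (fun j => Finset.range (β j + 1)) := by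
    rw [Fintype.mem_piFinset]
    intro j
    rw [Finset.mem_range]
    omega
  have hle : ∀ γ ∈ F, ∀ j, γ j ≤ β j := by
    intro γ hγ j
    rw [hF] at hγ
    have h1 := Fintype.mem_piFinset.1 (Finset.mem_of_mem_erase hγ) j
    rw [Finset.mem_range] at h1
    omega
  have hlt : ∀ γ ∈ F, ∑ j, γ j < n := by
    intro γ hγ
    rw [← hn]
    have hne : γ ≠ β := by
      rw [hF] at hγ
      exact Finset.ne_of_mem_erase hγ
    apply Finset.sum_lt_sum (fun j _ => hle γ hγ j)
    by_contra hc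
    push Not at hc
    exact hne (funext fun j => le_antisymm (hle γ hγ j) (hc j (Finset.mem_univ j)))
  have hoff : ∀ γ ∈ F, ∀ j, j ∉ S → γ j = 0 := by
    intro γ hγ j hj
    have h1 := hle γ hγ j
    rw [hβ j hj] at h1
    omega
  have hex : ∀ γ : I → ℕ, ∃ a b : ℚ, γ ∈ F → (AsE (fun l => Lc Q l γ) a b ∧
      (¬ IsM δ γ → a = 0)) := by
    intro γ
    by_cases hγ : γ ∈ F
    · obtain ⟨a, b, hab⟩ := ih _ (hlt γ hγ) γ (hoff γ hγ) rfl
      exact ⟨a, b, fun _ => hab⟩
    · exact ⟨0, 0, fun hc => absurd hc hγ⟩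
  choose a b hab using hex
  have hsum := AsE.sum F (f := fun γ l => (γ i : ℚ) * Lc Q l γ * PP Q (tof (fun j => β j - γ j)) l)
    (fun γ hγ => (((hab γ hγ).1.const_mul (γ i : ℚ)).mul
      (h.PP_As (α := tof (fun j => β j - γ j)) (fun j hj => by
        rw [tof_apply, hβ j hj, Nat.zero_sub]))))
  have hβP := (h.PP_As (α := tof β) hβ).const_mul (β i : ℚ)
  have hfin := (hβP.sub hsum).const_mul ((β i : ℚ)⁻¹)
  have hi0 : (β i : ℚ) ≠ 0 := by exact_mod_cast hi
  refine ⟨_, _, hfin.congr fun l hl => ?_, fun hM => ?_⟩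
  · have h1 := hua_PP Q β i l hl
    rw [← Finset.add_sum_erase _ _ hmem, ← hF] at h1
    have h2 : tof (fun j => β j - β j) = (0 : I →₀ ℕ) := by
      ext j
      rw [tof_apply, Nat.sub_self, Finsupp.zero_apply]
    rw [h2, PP_zero, mul_one] at h1
    rw [h1, add_sub_cancel_right]
    field_simp
  · have h1 : PP0 Q (tof β) = 0 := h.PP0_zero hβ hM
    have h2 : ∀ γ ∈ F, (γ i : ℚ) * a γ * PP0 Q (tof (fun j => β j - γ j)) = 0 := by
      intro γ hγ
      by_cases hγM : IsM δ γ
      · have h3 : PP0 Q (tof (fun j => β j - γ j)) = 0 := by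
          apply h.PP0_zero
          · intro j hj
            rw [tof_apply, hβ j hj, Nat.zero_sub]
          · rintro ⟨c, hc⟩
            obtain ⟨c', hc'⟩ := hγM
            apply hM
            refine ⟨c + c', fun j => ?_⟩
            have h4 := hc j
            rw [tof_apply] at h4
            have h5 := hle γ hγ j
            rw [add_mul, ← h4, ← hc' j]
            omega
        rw [h3, mul_zero]
      · rw [(hab γ hγ).2 hγM, mul_zero, zero_mul]
    rw [h1, Finset.sum_eq_zero h2]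
    ring

theorem Aff.sum_mult {Q : Quiv I E} {δ : I → ℕ} {S : Finset I} (h : Aff Q δ S) (n : ℕ)
    (f : (I → ℕ) → ℚ) (hf : ∀ β ∈ Fintype.piFinset (fun j => Finset.range (n * δ j + 1)),
      ¬ IsM δ β → f β = 0) :
    ∑ β ∈ Fintype.piFinset (fun j => Finset.range (n * δ j + 1)), f β =
      ∑ k ∈ Finset.range (n + 1), f (fun j => k * δ j) := by
  obtain ⟨i, hi⟩ := h.ne
  have hδi : 0 < δ i := Nat.pos_of_ne_zero ((h.supp i).1 hi)
  have hinj : ∀ x ∈ Finset.range (n + 1), ∀ y ∈ Finset.range (n + 1),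
      (fun j => x * δ j) = (fun j => y * δ j) → x = y := by
    intro x _ y _ hxy
    exact Nat.eq_of_mul_eq_mul_right hδi (congrFun hxy i)
  rw [← Finset.sum_image (f := f) (g := fun k : ℕ => fun j => k * δ j) hinj]
  symm
  apply Finset.sum_subset
  · intro β hβ
    rw [Finset.mem_image] at hβ
    obtain ⟨k, hk, rfl⟩ := hβ
    rw [Finset.mem_range] at hk
    rw [Fintype.mem_piFinset]
    intro j
    rw [Finset.mem_range]
    have : k * δ j ≤ n * δ j := Nat.mul_le_mul_right _ (by omega)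
    omega
  · intro β hβ hβ'
    apply hf β hβ
    rintro ⟨c, hc⟩
    apply hβ'
    rw [Finset.mem_image]
    refine ⟨c, ?_, funext fun j => (hc j).symm⟩
    rw [Finset.mem_range]
    have h1 := Fintype.mem_piFinset.1 hβ i
    rw [Finset.mem_range, hc i] at h1
    have h2 : c * δ i ≤ n * δ i := by omega
    have h3 := Nat.le_of_mul_le_mul_right h2 hδi
    omega

/-- the coefficient of `1 / l` in `L_{n δ}`. -/
theorem Aff.Lc_dl {Q : Quiv I E} {δ : I → ℕ} {S : Finset I} (h : Aff Q δ S) (n : ℕ)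
    (hn : 1 ≤ n) : ∃ a : ℚ, AsE (fun l => Lc Q l (fun i => n * δ i)) a S.card := by
  have hex : ∀ β : I → ℕ, ∃ a b : ℚ, (∀ i, i ∉ S → β i = 0) →
      (AsE (fun l => Lc Q l β) a b ∧ (¬ IsM δ β → a = 0)) := by
    intro β
    by_cases hβ : ∀ i, i ∉ S → β i = 0
    · obtain ⟨a, b, hab⟩ := h.Lc_As β hβ
      exact ⟨a, b, fun _ => hab⟩
    · exact ⟨0, 0, fun hc => absurd hc hβ⟩
  choose a b hab using hex
  obtain ⟨i, hi⟩ := h.ne
  have hδi : (0 : ℚ) < δ i := h.pos hi
  have hoffn : ∀ n : ℕ, ∀ j, j ∉ S → n * δ j = 0 := fun n j hj => by rw [h.zero hj, mul_zero]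
  -- the two recursions
  have key : ∀ n : ℕ, (n : ℚ) * PP0 Q (dl δ n) =
      ∑ k ∈ Finset.range (n + 1), (k : ℚ) * a (fun j => k * δ j) * PP0 Q (dl δ (n - k)) ∧
      (n : ℚ) * PP1 Q (dl δ n) = ∑ k ∈ Finset.range (n + 1), (k : ℚ) *
        (a (fun j => k * δ j) * PP1 Q (dl δ (n - k)) + b (fun j => k * δ j) *
          PP0 Q (dl δ (n - k))) := by
    intro n
    obtain ⟨F, hF⟩ : ∃ F, F = Fintype.piFinset (fun j => Finset.range (n * δ j + 1)) := ⟨_, rfl⟩
    have hle : ∀ γ ∈ F, ∀ j, γ j ≤ n * δ j := by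
      intro γ hγ j
      rw [hF] at hγ
      have h1 := Fintype.mem_piFinset.1 hγ j
      rw [Finset.mem_range] at h1
      omega
    have hoff : ∀ γ ∈ F, ∀ j, j ∉ S → γ j = 0 := by
      intro γ hγ j hj
      have h1 := hle γ hγ j
      rw [hoffn n j hj] at h1
      omega
    have hsum := AsE.sum F
      (f := fun γ l => (γ i : ℚ) * Lc Q l γ * PP Q (tof (fun j => n * δ j - γ j)) l)
      (fun γ hγ => (((hab γ (hoff γ hγ)).1.const_mul (γ i : ℚ)).mul
        (h.PP_As (α := tof (fun j => n * δ j - γ j)) (fun j hj => by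
          rw [tof_apply, hoffn n j hj, Nat.zero_sub]))))
    have hlhs := (h.PP_As (α := dl δ n) (h.dl_off n)).const_mul ((n * δ i : ℕ) : ℚ)
    have hu := AsE.unique hlhs (hsum.congr fun l hl => by
      have h1 := hua_PP Q (fun j => n * δ j) i l hl
      rw [← hF] at h1
      exact h1.symm)
    have hP0 : ∀ γ ∈ F, ¬ IsM δ γ → PP0 Q (tof (fun j => n * δ j - γ j)) = 0 := by
      intro γ hγ hM
      apply h.PP0_zero
      · intro j hj
        rw [tof_apply, hoffn n j hj, Nat.zero_sub]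
      · rintro ⟨c, hc⟩
        apply hM
        refine ⟨n - c, fun j => ?_⟩
        have h1 := hc j
        rw [tof_apply] at h1
        have h2 := hle γ hγ j
        rw [Nat.sub_mul]
        omega
    have hdl : ∀ k : ℕ, tof (fun j => n * δ j - k * δ j) = dl δ (n - k) := by
      intro k
      ext j
      rw [tof_apply, dl_apply, Nat.sub_mul]
    obtain ⟨hu0, hu1⟩ := hu
    constructor
    · rw [hF, h.sum_mult n (fun γ => (γ i : ℚ) * a γ * PP0 Q (tof (fun j => n * δ j - γ j)))
        (fun γ hγ hM => by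
          rw [← hF] at hγ
          rw [(hab γ (hoff γ hγ)).2 hM]
          ring)] at hu0
      have h1 : (δ i : ℚ) * ((n : ℚ) * PP0 Q (dl δ n)) = (δ i : ℚ) *
          ∑ k ∈ Finset.range (n + 1), (k : ℚ) * a (fun j => k * δ j) * PP0 Q (dl δ (n - k)) := by
        calc (δ i : ℚ) * ((n : ℚ) * PP0 Q (dl δ n)) = ((n * δ i : ℕ) : ℚ) * PP0 Q (dl δ n) := by
              push_cast
              ring
          _ = _ := by
              rw [hu0, Finset.mul_sum]
              refine Finset.sum_congr rfl fun k _ => ?_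
              simp only [hdl k]
              push_cast
              ring
      exact mul_left_cancel₀ hδi.ne' h1
    · rw [hF, h.sum_mult n (fun γ => (γ i : ℚ) * a γ * PP1 Q (tof (fun j => n * δ j - γ j)) +
        PP0 Q (tof (fun j => n * δ j - γ j)) * ((γ i : ℚ) * b γ))
        (fun γ hγ hM => by
          rw [← hF] at hγ
          rw [(hab γ (hoff γ hγ)).2 hM, hP0 γ hγ hM]
          ring)] at hu1
      have h1 : (δ i : ℚ) * ((n : ℚ) * PP1 Q (dl δ n)) = (δ i : ℚ) *
          ∑ k ∈ Finset.range (n + 1), (k : ℚ) *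
        (a (fun j => k * δ j) * PP1 Q (dl δ (n - k)) + b (fun j => k * δ j) *
          PP0 Q (dl δ (n - k))) := by
        calc (δ i : ℚ) * ((n : ℚ) * PP1 Q (dl δ n)) = ((n * δ i : ℕ) : ℚ) * PP1 Q (dl δ n) := by
              push_cast
              ring
          _ = _ := by
              rw [hu1, Finset.mul_sum]
              refine Finset.sum_congr rfl fun k _ => ?_
              simp only [hdl k]
              push_cast
              ring
      exact mul_left_cancel₀ hδi.ne' h1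
  have hP00 : PP0 Q (dl δ 0) = 1 := by
    have h1 : dl δ 0 = (0 : I →₀ ℕ) := by
      ext j
      rw [dl_apply, zero_mul, Finsupp.zero_apply]
    have h2 := h.PP_As (α := dl δ 0) (h.dl_off 0)
    rw [h1] at h2 ⊢
    exact (AsE.unique (h2.congr fun l _ => PP_zero Q l) (AsE.const 1)).1
  have hb := log_coeff (fun n => PP0 Q (dl δ n)) (fun n => PP1 Q (dl δ n))
    (fun k => a (fun j => k * δ j)) (fun k => b (fun j => k * δ j)) S.card hP00
    (fun n => (key n).1) (fun n => (key n).2) (fun n => h.PP1_dl n) n hn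
  refine ⟨a (fun j => n * δ j), ?_⟩
  exact ((hab _ (hoffn n)).1).val rfl hb

theorem dvd_iff_prim {δ : I → ℕ} (h : ∀ k : ℕ, (∀ i, k ∣ δ i) → k = 1) {N : ℕ} (hN : 1 ≤ N)
    (k : ℕ) : (∀ i, k ∣ N * δ i) ↔ k ∣ N := by
  constructor
  · intro hk
    rcases Nat.eq_zero_or_pos k with h0 | h0
    · subst h0
      by_contra hc
      have h1 : (2 : ℕ) = 1 := by
        apply h
        intro i
        have h1 := hk i
        rw [zero_dvd_iff] at h1
        rcases Nat.mul_eq_zero.1 h1 with h2 | h2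
        · omega
        · rw [h2]
          exact dvd_zero _
      omega
    · have hgpos : 0 < Nat.gcd k N := Nat.gcd_pos_of_pos_left _ h0
      have h1 : k / Nat.gcd k N = 1 := by
        apply h
        intro i
        have h2 : k / Nat.gcd k N ∣ (N / Nat.gcd k N) * δ i := by
          have h3 : k / Nat.gcd k N ∣ (N * δ i) / Nat.gcd k N :=
            Nat.div_dvd_div (Nat.gcd_dvd_left k N) (hk i)
          rwa [Nat.mul_div_right_comm (Nat.gcd_dvd_right k N)] at h3
        exact (Nat.coprime_div_gcd_div_gcd hgpos).dvd_of_dvd_mul_left h2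
      have h2 : k = Nat.gcd k N := by
        have h3 := Nat.div_mul_cancel (Nat.gcd_dvd_left k N)
        rw [h1, one_mul] at h3
        exact h3.symm
      rw [h2]
      exact Nat.gcd_dvd_right k N
  · intro hk i
    exact hk.mul_right _

theorem Aff.divs {Q : Quiv I E} {δ : I → ℕ} {S : Finset I} (h : Aff Q δ S) {n : ℕ}
    (hn : 1 ≤ n) : (Finset.range (∑ i, n * δ i + 1)).filter
      (fun N => 1 ≤ N ∧ ∀ i, N ∣ n * δ i) = n.divisors := by
  ext k
  rw [Finset.mem_filter, Finset.mem_range, dvd_iff_prim h.prim hn, Nat.mem_divisors]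
  constructor
  · rintro ⟨_, _, h3⟩
    exact ⟨h3, by omega⟩
  · rintro ⟨h1, h2⟩
    have hk : k ≤ n := Nat.le_of_dvd hn h1
    have hk1 : 1 ≤ k := Nat.pos_of_dvd_of_pos h1 hn
    obtain ⟨i, hi⟩ := h.ne
    have h3 : n * δ i ≤ ∑ i, n * δ i :=
      Finset.single_le_sum (f := fun i => n * δ i) (fun _ _ => Nat.zero_le _)
        (Finset.mem_univ i)
    have h4 : n * 1 ≤ n * δ i := Nat.mul_le_mul_left _ (Nat.pos_of_ne_zero ((h.supp i).1 hi))
    exact ⟨by omega, hk1, h1⟩

theorem Aff.poly {Q : Quiv I E} {δ : I → ℕ} {S : Finset I} (h : Aff Q δ S)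
    {p : (I → ℕ) → ℚ[X]} (hp : ∀ α, IsKacPoly Q α (p α)) (n : ℕ) (hn : 1 ≤ n) :
    ∃ a : ℚ, p (fun i => n * δ i) = C a * (X - 1) + C (S.card : ℚ) := by
  induction n using Nat.strong_induction_on with
  | _ n ih =>
  obtain ⟨a0, ha0⟩ := h.Lc_dl n hn
  have hex : ∀ N : ℕ, ∃ a : ℚ, N ∈ n.divisors.erase 1 →
      p (fun i => n / N * δ i) = C a * (X - 1) + C (S.card : ℚ) := by
    intro N
    by_cases hN : N ∈ n.divisors.erase 1
    · have h1 := Finset.ne_of_mem_erase hN
      have h2 := Nat.mem_divisors.1 (Finset.mem_of_mem_erase hN)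
      have h3 : 1 ≤ N := Nat.pos_of_dvd_of_pos h2.1 hn
      have h4 : n / N < n := Nat.div_lt_self hn (by omega)
      have h5 : 1 ≤ n / N := Nat.div_pos (Nat.le_of_dvd hn h2.1) h3
      obtain ⟨a, ha⟩ := ih (n / N) h4 h5
      exact ⟨a, fun _ => ha⟩
    · exact ⟨0, fun hc => absurd hc hN⟩
  choose a ha using hex
  have hLc : ∀ l : ℕ, l.Prime → Lc Q l (fun i => n * δ i) =
      (p (fun i => n * δ i)).eval (l : ℚ) / ((l : ℚ) - 1) +
        ∑ N ∈ n.divisors.erase 1, (a N / N + (S.card : ℚ) / N * ((l : ℚ) ^ N - 1)⁻¹) := by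
    intro l hl
    have h1 := Lc_eq Q hp l hl (dl δ n)
    have h2 : Lc Q l (fun i => n * δ i) = Lc Q l (dl δ n) := rfl
    rw [h2, h1]
    have h3 : (Finset.range (∑ i, dl δ n i + 1)).filter
        (fun N => 1 ≤ N ∧ ∀ i, N ∣ dl δ n i) = n.divisors := h.divs hn
    rw [h3, ← Finset.add_sum_erase n.divisors _ (Nat.one_mem_divisors.2 (by omega))]
    congr 1
    · have h4 : (fun i => dl δ n i / 1) = fun i => n * δ i := by
        funext i
        rw [Nat.div_one, dl_apply]
      rw [h4]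
      simp
    · refine Finset.sum_congr rfl fun N hN => ?_
      have h5 := Nat.mem_divisors.1 (Finset.mem_of_mem_erase hN)
      have h6 : (fun i => dl δ n i / N) = fun i => n / N * δ i := by
        funext i
        rw [dl_apply]
        exact Nat.mul_div_right_comm h5.1 _
      rw [h6, ha N hN]
      have h7 : 1 ≤ N := Nat.pos_of_dvd_of_pos h5.1 hn
      have h8 : (N : ℚ) ≠ 0 := by
        have : N ≠ 0 := by omega
        exact_mod_cast this
      have hl2 : (2 : ℚ) ≤ l := by exact_mod_cast hl.two_le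
      have h9 : (1 : ℚ) < (l : ℚ) ^ N := one_lt_pow₀ (by linarith) (by omega)
      have h10 : (l : ℚ) ^ N - 1 ≠ 0 := by linarith
      simp only [eval_add, eval_mul, eval_C, eval_sub, eval_X, eval_one]
      field_simp
  have hAs : AsE (fun l => (p (fun i => n * δ i)).eval (l : ℚ) / ((l : ℚ) - 1))
      (a0 - ∑ N ∈ n.divisors.erase 1, a N / N) (S.card : ℚ) := by
    have h1 := AsE.sum (n.divisors.erase 1)
      (f := fun N l => a N / N + (S.card : ℚ) / N * ((l : ℚ) ^ N - 1)⁻¹)
      (a := fun N => a N / N) (b := fun _ => 0) (fun N hN => by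
        have h5 := Nat.mem_divisors.1 (Finset.mem_of_mem_erase hN)
        have h6 := Finset.ne_of_mem_erase hN
        have h7 : 1 ≤ N := Nat.pos_of_dvd_of_pos h5.1 hn
        exact ((AsE.const (a N / N)).add
          ((AsE.inv_pow_sub N (by omega)).const_mul ((S.card : ℚ) / N))).val
          (by ring) (by ring))
    refine ((ha0.sub h1).congr fun l hl => ?_).val rfl (by simp)
    rw [hLc l hl]
    ring
  exact ⟨_, poly_of_AsE _ _ _ hAs⟩

/-- Kac polynomials at one for affine quivers. -/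
theorem Aff.kacOne {Q : Quiv I E} {δ : I → ℕ} {S : Finset I} (h : Aff Q δ S) (n : ℕ)
    (hn : 1 ≤ n) : Pool.Agent.H27.KAC.kacOne Q (fun i => n * δ i) = S.card := by
  choose p hp using kacPoly_exists Q
  obtain ⟨a, ha⟩ := h.poly hp n hn
  rw [kacOne_eq Q _ _ (hp _), ha]
  simp

end Pool.H88.KA

end

section

/-!
KAC: affine rays, and the reduction of a ray by reflections for all quivers.

* `kac_affine`: `kacOne Q (n α) = |supp α|` for `α` primitive with connected support and `s = 0` on the support.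
* `kac_induct'`: as `kac_induct` (KM4), without condition on the quiver; the leaves are the zero sequence, `1, 0, 0, …`,
  constant sequences `c ≥ 1`, and the vectors which are ample (`AmpG`) on their support.
-/

set_option autoImplicit false

namespace Pool.H88.KA

open scoped BigOperators
open Pool.Agent.H27.KAC

section

variable {I E : Type} [Fintype I] [DecidableEq I] [Fintype E]

theorem sw_eq (a : I → I → ℕ) (α : I → ℕ) (i : I) :
    sw a α i = ∑ j, (a i j : ℤ) * (α j : ℤ) - 2 * (α i : ℤ) := by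
  unfold sw cart
  simp only [sub_mul, Finset.sum_sub_distrib, ite_mul, zero_mul, Finset.sum_ite_eq,
    Finset.mem_univ, if_true]
  ring

theorem aff_of (Q : Quiv I E) (α : I → ℕ) (S : Finset I) (hS : ∀ i, i ∈ S ↔ α i ≠ 0)
    (hα : Prim α) (hc : Conn (resM (adj Q) S)) (hs : ∀ i ∈ S, sw (adj Q) α i = 0) :
    Aff Q α S := by
  obtain ⟨i0, hi0⟩ := hα.exists_ne
  refine ⟨⟨i0, (hS i0).2 hi0⟩, hS, hα, ?_, ?_⟩
  · intro U hU hne hU'
    obtain ⟨u, hu⟩ := hne
    obtain ⟨i, hi, j, hj, hij⟩ := hc (Finset.univ.filter (fun x : {i // i ∈ S} => (x : I) ∈ U))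
      ⟨⟨u, hU hu⟩, by simpa using hu⟩ (fun hcon => by
        apply hU'
        apply Finset.Subset.antisymm hU
        intro x hx
        have h1 : (⟨x, hx⟩ : {i // i ∈ S}) ∈
            Finset.univ.filter (fun x : {i // i ∈ S} => (x : I) ∈ U) := by
          rw [hcon]
          exact Finset.mem_univ _
        simpa using h1)
    refine ⟨i, by simpa using hi, j, j.2, ?_, hij⟩
    intro hcon
    exact hj (by simpa using hcon)
  · intro i hi
    have h1 := hs i hi
    rw [sw_eq] at h1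
    linarith

theorem kac_affine (Q : Quiv I E) (α : I → ℕ) (S : Finset I) (hS : ∀ i, i ∈ S ↔ α i ≠ 0)
    (hα : Prim α) (hc : Conn (resM (adj Q) S)) (hs : ∀ i ∈ S, sw (adj Q) α i = 0)
    (n : ℕ) (hn : 1 ≤ n) : kacOne Q (fun i => n * α i) = S.card :=
  (aff_of Q α S hS hα hc hs).kacOne n hn

theorem kac_induct' (Q : Quiv I E) (P : (ℕ → ℚ) → Prop)
    (hz : ∀ A : ℕ → ℚ, (∀ N, 1 ≤ N → A N = 0) → P A)
    (hs : ∀ A : ℕ → ℚ, A 1 = 1 → (∀ N, 2 ≤ N → A N = 0) → P A)
    (hk : ∀ (c : ℕ) (A : ℕ → ℚ), 1 ≤ c → (∀ N, 1 ≤ N → A N = c) → P A)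
    (hc : ∀ A B : ℕ → ℚ, (∀ N, 1 ≤ N → A N = B N) → P A → P B)
    (ha : ∀ (α : I → ℕ) (S : Finset I), (∀ i, i ∈ S ↔ α i ≠ 0) → Prim α →
      Conn (resM (adj Q) S) → Nonempty {i // i ∈ S} → AmpG (resM (adj Q) S) (rV α S) →
      P (fun N => kacOne Q (fun i => N * α i)))
    (α : I → ℕ) (hα : Prim α) : P (fun N => kacOne Q (fun i => N * α i)) := by
  obtain ⟨h, hh⟩ : ∃ h, ∑ i, α i = h := ⟨_, rfl⟩
  induction h using Nat.strong_induction_on generalizing α with
  | _ h ih =>
  obtain ⟨S, hS⟩ : ∃ S : Finset I, ∀ i, i ∈ S ↔ α i ≠ 0 :=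
    ⟨Finset.univ.filter (fun i => α i ≠ 0), fun i => by simp⟩
  obtain ⟨i0, hi0⟩ := hα.exists_ne
  have hne : Nonempty {i // i ∈ S} := ⟨⟨i0, (hS i0).2 hi0⟩⟩
  by_cases hconn : Conn (resM (adj Q) S)
  swap
  · -- disconnected support
    apply hz
    intro N hN
    unfold Conn at hconn
    push Not at hconn
    obtain ⟨U, hU1, hU2, hU3⟩ := hconn
    apply kac_disconnected Q (fun i => N * α i) (fun i => ∃ h : i ∈ S, (⟨i, h⟩ : {i // i ∈ S}) ∈ U)
    · obtain ⟨u, hu⟩ := hU1
      refine ⟨u, ⟨u.2, hu⟩, ?_⟩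
      exact Nat.mul_ne_zero (by omega) ((hS u).1 u.2)
    · obtain ⟨v, hv⟩ : ∃ v, v ∉ U := by
        by_contra hcon
        push Not at hcon
        exact hU2 (Finset.eq_univ_of_forall hcon)
      refine ⟨v, ?_, ?_⟩
      · rintro ⟨h1, h2⟩
        exact hv h2
      · exact Nat.mul_ne_zero (by omega) ((hS v).1 v.2)
    · rintro i j ⟨hi, hi'⟩ hj hai haj
      have hj1 : j ∈ S := by
        rw [hS]
        intro h0
        exact haj (by rw [h0, mul_zero])
      have hj2 : (⟨j, hj1⟩ : {i // i ∈ S}) ∉ U := fun hcon => hj ⟨hj1, hcon⟩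
      have := hU3 ⟨i, hi⟩ hi' ⟨j, hj1⟩ hj2
      exact Nat.le_zero.1 this
  by_cases hneg : ∃ i : I, adj Q i i = 0 ∧ α i ≠ 0 ∧ sw (adj Q) α i < 0
  · obtain ⟨i, hi, hαi, hsi⟩ := hneg
    by_cases hj : ∃ j, j ≠ i ∧ α j ≠ 0
    · obtain ⟨j, hji, hαj⟩ := hj
      by_cases hr : (α i : ℤ) + sw (adj Q) α i < 0
      · apply hz
        intro N hN
        apply kac_reflect_neg Q i hi
        · exact ⟨j, hji, Nat.mul_ne_zero (by omega) hαj⟩
        · rw [sw_smul]
          have hN' : (0 : ℤ) < N := by exact_mod_cast hN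
          push_cast
          nlinarith
      · push Not at hr
        obtain ⟨c, hc'⟩ := Int.eq_ofNat_of_zero_le hr
        let α' : I → ℕ := Function.update α i c
        have hα'i : α' i = c := Function.update_self _ _ _
        have hα'j : ∀ j, j ≠ i → α' j = α j := fun j hj => Function.update_of_ne hj _ _
        have hsum : ∑ i, α' i < h := by
          rw [← hh]
          apply Finset.sum_lt_sum
          · intro l _
            by_cases hl' : l = i
            · subst hl'
              rw [hα'i]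
              omega
            · rw [hα'j l hl']
          · exact ⟨i, Finset.mem_univ i, by rw [hα'i]; omega⟩
        have hprim : Prim α' := by
          intro k hk'
          apply hα
          have h1 : ∀ j, j ≠ i → k ∣ α j := fun j hj => by rw [← hα'j j hj]; exact hk' j
          intro l
          by_cases hl' : l = i
          · subst hl'
            have h2 : (α l : ℤ) = -(c : ℤ) + ∑ j ∈ Finset.univ.erase l,
                (adj Q l j : ℤ) * (α j : ℤ) := by
              have h3 : sw (adj Q) α l = -(2 * (α l : ℤ)) + ∑ j ∈ Finset.univ.erase l,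
                  (adj Q l j : ℤ) * (α j : ℤ) := by
                unfold sw
                rw [← Finset.add_sum_erase _ _ (Finset.mem_univ l), neg_add, ← Finset.sum_neg_distrib]
                congr 1
                · unfold cart
                  rw [if_pos rfl, hi]
                  simp
                · apply Finset.sum_congr rfl
                  intro j hj
                  unfold cart
                  rw [if_neg (Ne.symm (Finset.ne_of_mem_erase hj))]
                  ring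
              have h4 : (α l : ℤ) + sw (adj Q) α l = (c : ℤ) := hc'
              linarith
            have h3 : (k : ℤ) ∣ (α l : ℤ) := by
              rw [h2]
              apply dvd_add
              · rw [dvd_neg]
                have := hk' l
                rw [hα'i] at this
                exact_mod_cast this
              · apply Finset.dvd_sum
                intro j hj
                apply Dvd.dvd.mul_left
                have := h1 j (Finset.ne_of_mem_erase hj)
                exact_mod_cast this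
            exact_mod_cast h3
          · exact h1 l hl'
        apply hc _ _ _ (ih _ hsum α' hprim rfl)
        intro N hN
        apply kac_reflect Q i hi (fun i => N * α i) (fun i => N * α' i)
        · exact ⟨j, hji, Nat.mul_ne_zero (by omega) hαj⟩
        · intro j hj
          show N * α' j = N * α j
          rw [hα'j j hj]
        · show ((N * α' i : ℕ) : ℤ) = ((N * α i : ℕ) : ℤ) + _
          rw [sw_smul, hα'i]
          have h4 : (α i : ℤ) + sw (adj Q) α i = (c : ℤ) := hc'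
          push_cast
          rw [← h4]
          ring
    · -- simple root
      push Not at hj
      have hα1 : α i = 1 := by
        apply hα
        intro l
        by_cases hl' : l = i
        · rw [hl']
        · rw [hj l hl']
          exact dvd_zero _
      have hα2 : ∀ N : ℕ, (fun l => N * α l) = Pi.single i N := by
        intro N
        funext l
        by_cases hl' : l = i
        · rw [hl', hα1, Pi.single_eq_same, mul_one]
        · rw [hj l hl', Pi.single_eq_of_ne hl', mul_zero]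
      apply hs
      · show kacOne Q (fun l => 1 * α l) = 1
        rw [hα2 1]
        exact kac_simple_one Q i hi
      · intro N hN
        show kacOne Q (fun l => N * α l) = 0
        rw [hα2 N]
        exact kac_simple_ge_two Q i hi N hN
  -- no reflection decreases the height
  push Not at hneg
  have hS' : ∀ i, α i ≠ 0 → i ∈ S := fun i hi => (hS i).2 hi
  by_cases hall : ∀ i ∈ S, sw (adj Q) α i = 0
  · apply hk S.card _ (Finset.card_pos.2 ⟨i0, (hS i0).2 hi0⟩)
    intro N hN
    exact kac_affine Q α S hS hα hconn hall N hN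
  · push Not at hall
    obtain ⟨x, hx, hxs⟩ := hall
    -- the support is not one vertex with one loop
    have hloop : ∀ i ∈ S, adj Q i i ≠ 0 → 0 < sw (adj Q) α i := by
      intro i hi hai
      have hai2 : 2 ≤ adj Q i i := by
        obtain ⟨r, hr⟩ := adj_even Q i
        omega
      by_contra hcon
      have hsw := sw_eq (adj Q) α i
      rw [← Finset.add_sum_erase _ _ (Finset.mem_univ i)] at hsw
      have h3 : ∀ j ∈ Finset.univ.erase i, (0:ℤ) ≤ (adj Q i j : ℤ) * (α j : ℤ) :=
        fun j _ => by positivity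
      have h3' := Finset.sum_nonneg h3
      have hαi : (1:ℤ) ≤ α i := by
        have := Nat.pos_of_ne_zero ((hS i).1 hi)
        exact_mod_cast this
      have hai2' : (2:ℤ) ≤ adj Q i i := by exact_mod_cast hai2
      have h4 : (adj Q i i : ℤ) = 2 := by nlinarith
      have h5 : ∑ j ∈ Finset.univ.erase i, (adj Q i j : ℤ) * (α j : ℤ) = 0 := by
        rw [h4] at hsw
        linarith
      have h6 := (Finset.sum_eq_zero_iff_of_nonneg h3).1 h5
      -- hence S = {i}
      have h7 : ∀ j ∈ S, j = i := by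
        by_contra hc'
        push Not at hc'
        obtain ⟨j0, hj0, hj0i⟩ := hc'
        obtain ⟨u, hu, w, hw, huw⟩ := hconn {⟨i, hi⟩} (Finset.singleton_nonempty _)
          (fun hcon' => by
            have h8 : (⟨j0, hj0⟩ : {i // i ∈ S}) ∈ ({⟨i, hi⟩} : Finset {i // i ∈ S}) := by
              rw [hcon']
              exact Finset.mem_univ _
            rw [Finset.mem_singleton] at h8
            exact hj0i (congrArg Subtype.val h8))
        rw [Finset.mem_singleton] at hu hw
        have hwi : (w : I) ≠ i := fun h => hw (Subtype.ext h)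
        have h9 := h6 w (Finset.mem_erase.2 ⟨hwi, Finset.mem_univ _⟩)
        rw [hu] at huw
        have h10 : 0 < adj Q i w := huw
        have h11 : 0 < α w := Nat.pos_of_ne_zero ((hS w).1 w.2)
        rcases mul_eq_zero.1 h9 with h12 | h12
        · have : adj Q i w = 0 := by exact_mod_cast h12
          omega
        · have : α w = 0 := by exact_mod_cast h12
          omega
      apply hxs
      rw [h7 x hx]
      rw [hsw, h4, h5]
      ring
    have hpos : ∀ i ∈ S, 0 ≤ sw (adj Q) α i := by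
      intro i hi
      by_cases hai : adj Q i i = 0
      · exact hneg i hai ((hS i).1 hi)
      · exact (hloop i hi hai).le
    apply ha α S hS hα hconn hne
    refine ⟨fun i => ?_, fun i _ => ?_, fun i hi => ?_, ⟨⟨x, hx⟩, ?_⟩⟩
    · rw [rV_apply]
      exact Nat.pos_of_ne_zero ((hS i).1 i.2)
    · rw [cw_rV _ _ _ hS', neg_neg]
      exact hpos i i.2
    · rw [cw_rV _ _ _ hS', neg_neg]
      exact hloop i i.2 hi
    · rw [cw_rV _ _ _ hS', neg_neg]
      exact lt_of_le_of_ne (hpos x hx) (Ne.symm hxs)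

end

end Pool.H88.KA

end

section

/-!
KAC ADE, growth part: nonnegativity of all values and the limit along the rays of the fundamental cone, from the
output of the engine.
-/

set_option autoImplicit false

namespace Pool.Agent.H27.KB

open scoped BigOperators
open Pool.Agent.H27.KAC Pool.H88.KA
open Filter Topology

/-- the output of the engine for all connected matrices. -/
def AllEng : Prop :=
  ∀ (I : Type) [Fintype I] [DecidableEq I] (a : I → I → ℕ), Nonempty I → (∀ i j, a i j = a j i) →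
    (∀ i, a i i ≠ 1) → Conn a → Eng a

variable {I E : Type} [Fintype I] [DecidableEq I] [Fintype E]

theorem AllEng.res (hE : AllEng) (Q : Quiv I E) (S : Finset I) (hne : Nonempty {i // i ∈ S})
    (hc : Conn (resM (adj Q) S)) : Eng (resM (adj Q) S) := by
  refine hE _ _ hne (fun i j => adj_comm Q i j) (fun i => ?_) hc
  show adj Q i i ≠ 1
  rw [adj_self]
  omega

theorem leaf_or (Q : Quiv I E) (α : I → ℕ) (S : Finset I) (hS : ∀ i, i ∈ S ↔ α i ≠ 0)
    (hconn : Conn (resM (adj Q) S))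
    (hneg : ∀ i, adj Q i i = 0 → α i ≠ 0 → 0 ≤ sw (adj Q) α i)
    (hall : ¬ ∀ i ∈ S, sw (adj Q) α i = 0) : AmpG (resM (adj Q) S) (rV α S) := by
  have hS' : ∀ i, α i ≠ 0 → i ∈ S := fun i hi => (hS i).2 hi
  push Not at hall
  obtain ⟨x, hx, hxs⟩ := hall
  -- the support is not one vertex with one loop
  have hloop : ∀ i ∈ S, adj Q i i ≠ 0 → 0 < sw (adj Q) α i := by
    intro i hi hai
    have hai2 : 2 ≤ adj Q i i := by
      obtain ⟨r, hr⟩ := adj_even Q i
      omega
    by_contra hcon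
    have hsw := sw_eq (adj Q) α i
    rw [← Finset.add_sum_erase _ _ (Finset.mem_univ i)] at hsw
    have h3 : ∀ j ∈ Finset.univ.erase i, (0:ℤ) ≤ (adj Q i j : ℤ) * (α j : ℤ) :=
      fun j _ => by positivity
    have h3' := Finset.sum_nonneg h3
    have hαi : (1:ℤ) ≤ α i := by
      have := Nat.pos_of_ne_zero ((hS i).1 hi)
      exact_mod_cast this
    have hai2' : (2:ℤ) ≤ adj Q i i := by exact_mod_cast hai2
    have h4 : (adj Q i i : ℤ) = 2 := by nlinarith
    have h5 : ∑ j ∈ Finset.univ.erase i, (adj Q i j : ℤ) * (α j : ℤ) = 0 := by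
      rw [h4] at hsw
      linarith
    have h6 := (Finset.sum_eq_zero_iff_of_nonneg h3).1 h5
    -- hence S = {i}
    have h7 : ∀ j ∈ S, j = i := by
      by_contra hc'
      push Not at hc'
      obtain ⟨j0, hj0, hj0i⟩ := hc'
      obtain ⟨u, hu, w, hw, huw⟩ := hconn {⟨i, hi⟩} (Finset.singleton_nonempty _)
        (fun hcon' => by
          have h8 : (⟨j0, hj0⟩ : {i // i ∈ S}) ∈ ({⟨i, hi⟩} : Finset {i // i ∈ S}) := by
            rw [hcon']
            exact Finset.mem_univ _
          rw [Finset.mem_singleton] at h8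
          exact hj0i (congrArg Subtype.val h8))
      rw [Finset.mem_singleton] at hu hw
      have hwi : (w : I) ≠ i := fun h => hw (Subtype.ext h)
      have h9 := h6 w (Finset.mem_erase.2 ⟨hwi, Finset.mem_univ _⟩)
      rw [hu] at huw
      have h10 : 0 < adj Q i w := huw
      have h11 : 0 < α w := Nat.pos_of_ne_zero ((hS w).1 w.2)
      rcases mul_eq_zero.1 h9 with h12 | h12
      · have : adj Q i w = 0 := by exact_mod_cast h12
        omega
      · have : α w = 0 := by exact_mod_cast h12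
        omega
    apply hxs
    rw [h7 x hx]
    rw [hsw, h4, h5]
    ring
  have hpos : ∀ i ∈ S, 0 ≤ sw (adj Q) α i := by
    intro i hi
    by_cases hai : adj Q i i = 0
    · exact hneg i hai ((hS i).1 hi)
    · exact (hloop i hi hai).le
  refine ⟨fun i => ?_, fun i _ => ?_, fun i hi => ?_, ⟨⟨x, hx⟩, ?_⟩⟩
  · rw [rV_apply]
    exact Nat.pos_of_ne_zero ((hS i).1 i.2)
  · rw [cw_rV _ _ _ hS', neg_neg]
    exact hpos i i.2
  · rw [cw_rV _ _ _ hS', neg_neg]
    exact hloop i i.2 hi
  · rw [cw_rV _ _ _ hS', neg_neg]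
    exact lt_of_le_of_ne (hpos x hx) (Ne.symm hxs)

theorem f_nonnegE (Q : Quiv I E) (hE : AllEng) (β : I → ℕ) :
    0 ≤ fOf (kacOne Q) β := by
  by_cases hβ : ∃ i, β i ≠ 0
  swap
  · push Not at hβ
    rw [fOf_kac_zero _ β hβ]
  obtain ⟨g, α, hg1, hα, hβα⟩ := exists_prim β hβ
  have hfun : β = fun i => g * α i := funext hβα
  rw [hfun]
  have hP : ∀ N : ℕ, 1 ≤ N →
      0 ≤ ∑ k ∈ N.divisors, (fun N : ℕ => kacOne Q (fun i => N * α i)) (N / k) / (k : ℚ) ^ 2 := by
    apply kac_induct' Q (fun A => ∀ N : ℕ, 1 ≤ N →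
      0 ≤ ∑ k ∈ N.divisors, A (N / k) / (k : ℚ) ^ 2) _ _ _ _ _ α hα
    · intro A hA N hN
      apply Finset.sum_nonneg
      intro k hk
      have h1 : 1 ≤ N / k := Nat.div_pos (Nat.divisor_le hk) (Nat.pos_of_mem_divisors hk)
      rw [hA _ h1, zero_div]
    · intro A hA1 hA2 N hN
      apply Finset.sum_nonneg
      intro k hk
      have h1 : 1 ≤ N / k := Nat.div_pos (Nat.divisor_le hk) (Nat.pos_of_mem_divisors hk)
      apply div_nonneg _ (by positivity)
      rcases Nat.eq_or_lt_of_le h1 with h2 | h2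
      · rw [← h2, hA1]
        exact zero_le_one
      · rw [hA2 _ h2]
    · intro c A _ hA N hN
      apply Finset.sum_nonneg
      intro k hk
      have h1 : 1 ≤ N / k := Nat.div_pos (Nat.divisor_le hk) (Nat.pos_of_mem_divisors hk)
      rw [hA _ h1]
      positivity
    · intro A B hAB hA N hN
      have h2 := hA N hN
      rwa [Finset.sum_congr rfl (fun k hk => by
        rw [hAB _ (Nat.div_pos (Nat.divisor_le hk) (Nat.pos_of_mem_divisors hk))])] at h2
    · intro α S hS hα hconn hne hamp N hN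
      have hS' : ∀ i, α i ≠ 0 → i ∈ S := fun i hi => (hS i).2 hi
      have h1 := (hE.res Q S hne hconn).nonneg
        (fun β => fOf (kacOne Q) (ext0 S β)) ((kacData_kac Q).restrict S)
        (N • rV α S) (AmpG.nsmul hamp N hN)
      have h2 : ext0 S ((N • rV α S : {i // i ∈ S} →₀ ℕ) : {i // i ∈ S} → ℕ) =
          fun i => N * α i := ext0_rV α S hS' N
      have h3 : 0 ≤ fOf (kacOne Q) (fun i => N * α i) := by
        rw [← h2]
        exact h1
      rw [fOf_prim _ α hα N hN] at h3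
      exact h3
  rw [fOf_prim _ α hα g hg1]
  exact hP g hg1

/-- the limit along a ray. -/
theorem kac_limitE (Q : Quiv I E) (hE : AllEng) (β : I → ℕ)
    (hβ : ∀ᶠ n : ℕ in atTop, 0 < kacOne Q (fun i => n * β i)) :
    ∃ l : ℝ, Tendsto (fun n : ℕ => Real.log ((kacOne Q (fun i => n * β i) : ℚ) : ℝ) / n)
      atTop (𝓝 l) := by
  by_cases hβ0 : ∃ i, β i ≠ 0
  swap
  · push Not at hβ0
    obtain ⟨n, hn⟩ := hβ.exists
    have h0 : (fun i => n * β i) = (0 : I → ℕ) := by
      funext i
      rw [hβ0 i, mul_zero]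
      rfl
    rw [h0, kacOne_zero] at hn
    exact absurd hn (lt_irrefl _)
  obtain ⟨g, α, hg1, hα, hβα⟩ := exists_prim β hβ0
  have hfun : ∀ n : ℕ, (fun i => n * β i) = fun i => (n * g) * α i := by
    intro n
    funext i
    rw [hβα i, mul_assoc]
  simp only [hfun] at hβ ⊢
  have hconst : ∀ c : ℝ, Tendsto (fun n : ℕ => c / (n : ℝ)) atTop (𝓝 0) := fun c =>
    tendsto_const_div_atTop_nhds_zero_nat c
  have key : (∀ᶠ n : ℕ in atTop, 0 < (fun N : ℕ => kacOne Q (fun i => N * α i)) (n * g)) →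
      ∃ l : ℝ, Tendsto (fun n : ℕ =>
        Real.log (((fun N : ℕ => kacOne Q (fun i => N * α i)) (n * g) : ℚ) : ℝ) / n)
      atTop (𝓝 l) := by
    apply kac_induct' Q (fun A => (∀ᶠ n : ℕ in atTop, 0 < A (n * g)) →
      ∃ l : ℝ, Tendsto (fun n : ℕ => Real.log ((A (n * g) : ℚ) : ℝ) / n) atTop (𝓝 l))
      _ _ _ _ _ α hα
    · intro A hA hpos
      obtain ⟨n, hn, hn1⟩ := (hpos.and (eventually_ge_atTop 1)).exists
      rw [hA _ (Nat.mul_pos hn1 hg1)] at hn
      exact absurd hn (lt_irrefl _)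
    · intro A hA1 hA hpos
      obtain ⟨n, hn, hn1⟩ := (hpos.and (eventually_ge_atTop 2)).exists
      rw [hA _ (by calc 2 = 2 * 1 := rfl
        _ ≤ n * g := Nat.mul_le_mul hn1 hg1)] at hn
      exact absurd hn (lt_irrefl _)
    · intro c A hc1 hA _
      refine ⟨0, (hconst (Real.log c)).congr' ?_⟩
      filter_upwards [eventually_ge_atTop 1] with n hn
      rw [hA _ (Nat.mul_pos hn hg1)]
      norm_num
    · intro A B hAB hA hpos
      have h1 : ∀ᶠ n : ℕ in atTop, 0 < A (n * g) := by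
        filter_upwards [hpos, eventually_ge_atTop 1] with n hn hn1
        rw [hAB _ (Nat.mul_pos hn1 hg1)]
        exact hn
      obtain ⟨l, hl⟩ := hA h1
      refine ⟨l, hl.congr' ?_⟩
      filter_upwards [eventually_ge_atTop 1] with n hn
      rw [hAB _ (Nat.mul_pos hn hg1)]
    · intro α S hS hα hconn hne hamp hpos
      have hS' : ∀ i, α i ≠ 0 → i ∈ S := fun i hi => (hS i).2 hi
      obtain ⟨l, hl0, hFpos, hFlim⟩ := growth_AmpleE (resM (adj Q) S) (hE.res Q S hne hconn) hconn hne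
        (fun β => fOf (kacOne Q) (ext0 S β)) ((kacData_kac Q).restrict S)
        (fun β => f_nonnegE Q hE _) (rV α S) hamp
      have hext : ∀ n : ℕ, fOf (kacOne Q) (ext0 S (fun i => n * rV α S i)) =
          fOf (kacOne Q) (fun i => n * α i) := by
        intro n
        rw [ext0_rV α S hS' n]
      simp only [hext] at hFpos hFlim
      refine ⟨g * l, limit_A_of_F (fun N => ((kacOne Q (fun i => N * α i) : ℚ) : ℝ))
        (fun N => ((fOf (kacOne Q) (fun i => N * α i) : ℚ) : ℝ)) ?_ ?_ ?_ l hl0 ?_ hFlim g hg1 ?_⟩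
      · intro N hN
        have h1 := fOf_prim_sq (kacOne Q) α hα N hN
        have h2 := congrArg (fun x : ℚ => (x : ℝ)) h1
        push_cast at h2
        exact h2
      · intro N
        show (0 : ℝ) ≤ ((fOf (kacOne Q) (fun i => N * α i) : ℚ) : ℝ)
        exact_mod_cast f_nonnegE Q hE (fun i => N * α i)
      · intro N
        obtain ⟨z, hz⟩ := kacOne_int Q (fun i => N * α i)
        refine ⟨z, ?_⟩
        show ((kacOne Q (fun i => N * α i) : ℚ) : ℝ) = z
        rw [hz]
        push_cast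
        rfl
      · filter_upwards [hFpos] with n hn
        exact_mod_cast hn
      · filter_upwards [hpos] with n hn
        exact_mod_cast hn
  exact key hβ

end Pool.Agent.H27.KB

end

section

/-!
KAC ADE, growth part: the growth rate on the fundamental cone, and the final theorem from the output of the engine.
-/

set_option autoImplicit false

namespace Pool.Agent.H27.KB

open scoped BigOperators
open Pool.Agent.H27.KAC Pool.H88.KA
open Filter Topology Polynomial

section

variable {I E : Type} [Fintype I] [DecidableEq I] [Fintype E]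

theorem kac_limit_PhiE (Q : Quiv I E) (hE : AllEng) (β : I → ℕ)
    (hK : ∀ i, 0 ≤ sw (adj Q) β i)
    (hβ : ∀ᶠ n : ℕ in atTop, 0 < kacOne Q (fun i => n * β i)) :
    Tendsto (fun n : ℕ => Real.log ((kacOne Q (fun i => n * β i) : ℚ) : ℝ) / n)
      atTop (𝓝 (PhiR (adj Q) (fun i => (β i : ℝ)))) := by
  by_cases hβ0 : ∃ i, β i ≠ 0
  swap
  · push Not at hβ0
    obtain ⟨n, hn⟩ := hβ.exists
    have h0 : (fun i => n * β i) = (0 : I → ℕ) := by
      funext i
      rw [hβ0 i, mul_zero]
      rfl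
    rw [h0, kacOne_zero] at hn
    exact absurd hn (lt_irrefl _)
  obtain ⟨g, α, hg1, hα, hβα⟩ := exists_prim β hβ0
  have hfun : ∀ n : ℕ, (fun i => n * β i) = fun i => (n * g) * α i := by
    intro n
    funext i
    rw [hβα i, mul_assoc]
  have hg1' : (0 : ℤ) < g := by exact_mod_cast hg1
  have hKα : ∀ i, 0 ≤ sw (adj Q) α i := by
    intro i
    have h1 := hK i
    have h2 : β = fun i => g * α i := funext hβα
    rw [h2, sw_smul] at h1
    exact nonneg_of_mul_nonneg_right h1 hg1'
  have hkon : Kon (adj Q) (fun i => (α i : ℝ)) := by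
    refine ⟨fun i => Nat.cast_nonneg _, fun i => ?_⟩
    rw [KH12_cR]
    have : (0 : ℝ) ≤ ((sw (adj Q) α i : ℤ) : ℝ) := by exact_mod_cast hKα i
    linarith
  have hphi : PhiR (adj Q) (fun i => (β i : ℝ)) = g * PhiR (adj Q) (fun i => (α i : ℝ)) := by
    have h1 : (fun i => (β i : ℝ)) = (g : ℝ) • (fun i => (α i : ℝ)) := by
      funext i
      rw [Pi.smul_apply, smul_eq_mul, hβα i]
      push_cast
      rfl
    rw [h1, PhiR_smul hkon (Nat.cast_nonneg g)]
  rw [hphi]
  simp only [hfun] at hβ ⊢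
  obtain ⟨S, hS⟩ : ∃ S : Finset I, ∀ i, i ∈ S ↔ α i ≠ 0 :=
    ⟨Finset.univ.filter (fun i => α i ≠ 0), fun i => by simp⟩
  obtain ⟨i0, hi0⟩ := hα.exists_ne
  have hne : Nonempty {i // i ∈ S} := ⟨⟨i0, (hS i0).2 hi0⟩⟩
  have hS' : ∀ i, α i ≠ 0 → i ∈ S := fun i hi => (hS i).2 hi
  by_cases hconn : Conn (resM (adj Q) S)
  swap
  · -- disconnected support
    exfalso
    obtain ⟨n, hn, hn1⟩ := (hβ.and (eventually_ge_atTop 1)).exists
    have hN : 1 ≤ n * g := Nat.mul_pos hn1 hg1
    obtain ⟨N, hNN⟩ : ∃ N, N = n * g := ⟨_, rfl⟩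
    rw [← hNN] at hn hN
    have h0 : kacOne Q (fun i => N * α i) = 0 := by
      unfold Conn at hconn
      push Not at hconn
      obtain ⟨U, hU1, hU2, hU3⟩ := hconn
      apply kac_disconnected Q (fun i => N * α i)
        (fun i => ∃ h : i ∈ S, (⟨i, h⟩ : {i // i ∈ S}) ∈ U)
      · obtain ⟨u, hu⟩ := hU1
        refine ⟨u, ⟨u.2, hu⟩, ?_⟩
        exact Nat.mul_ne_zero (by omega) ((hS u).1 u.2)
      · obtain ⟨v, hv⟩ : ∃ v, v ∉ U := by
          by_contra hcon
          push Not at hcon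
          exact hU2 (Finset.eq_univ_of_forall hcon)
        refine ⟨v, ?_, ?_⟩
        · rintro ⟨h1, h2⟩
          exact hv h2
        · exact Nat.mul_ne_zero (by omega) ((hS v).1 v.2)
      · rintro i j ⟨hi, hi'⟩ hj hai haj
        have hj1 : j ∈ S := by
          rw [hS]
          intro h0
          exact haj (by rw [h0, mul_zero])
        have hj2 : (⟨j, hj1⟩ : {i // i ∈ S}) ∉ U := fun hcon => hj ⟨hj1, hcon⟩
        have := hU3 ⟨i, hi⟩ hi' ⟨j, hj1⟩ hj2
        exact Nat.le_zero.1 this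
    rw [h0] at hn
    exact lt_irrefl _ hn
  have hconst : ∀ c : ℝ, Tendsto (fun n : ℕ => c / (n : ℝ)) atTop (𝓝 0) := fun c =>
    tendsto_const_div_atTop_nhds_zero_nat c
  by_cases hall : ∀ i ∈ S, sw (adj Q) α i = 0
  swap
  · have hamp := leaf_or Q α S hS hconn (fun i _ _ => hKα i) hall
    obtain ⟨hl0, hFpos, hFlim⟩ := growth_Ample_hsupE (resM (adj Q) S) (hE.res Q S hne hconn) hne
      (fun β => fOf (kacOne Q) (ext0 S β)) ((kacData_kac Q).restrict S)
      (fun β => f_nonnegE Q hE _) (rV α S) hamp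
    have hext : ∀ n : ℕ, fOf (kacOne Q) (ext0 S (fun i => n * rV α S i)) =
        fOf (kacOne Q) (fun i => n * α i) := by
      intro n
      rw [ext0_rV α S hS' n]
    simp only [hext] at hFpos hFlim
    have hval : hsup (resM (adj Q) S) (rV α S) = PhiR (adj Q) (fun i => (α i : ℝ)) := by
      rw [← PhiR_restrict (adj Q) S (fun i => (α i : ℝ)) (fun i hi => by
        by_contra hc
        exact hi (hS' i (fun h0 => hc (by simp only [h0, Nat.cast_zero]))))]
      exact le_antisymm (hsup_le_PhiRE _ (hE.res Q S hne hconn) _ hamp)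
        (PhiR_le_hsupE _ (hE.res Q S hne hconn) _ hamp)
    rw [← hval]
    refine limit_A_of_F (fun N => ((kacOne Q (fun i => N * α i) : ℚ) : ℝ))
      (fun N => ((fOf (kacOne Q) (fun i => N * α i) : ℚ) : ℝ)) ?_ ?_ ?_ _ hl0 ?_ hFlim g hg1 ?_
    · intro N hN
      have h1 := fOf_prim_sq (kacOne Q) α hα N hN
      have h2 := congrArg (fun x : ℚ => (x : ℝ)) h1
      push_cast at h2
      exact h2
    · intro N
      show (0 : ℝ) ≤ ((fOf (kacOne Q) (fun i => N * α i) : ℚ) : ℝ)
      exact_mod_cast f_nonnegE Q hE (fun i => N * α i)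
    · intro N
      obtain ⟨z, hz⟩ := kacOne_int Q (fun i => N * α i)
      refine ⟨z, ?_⟩
      show ((kacOne Q (fun i => N * α i) : ℚ) : ℝ) = z
      rw [hz]
      push_cast
      rfl
    · filter_upwards [hFpos] with n hn
      exact_mod_cast hn
    · filter_upwards [hβ] with n hn
      exact_mod_cast hn
  · -- isotropic
    have h0 : PhiR (adj Q) (fun i => (α i : ℝ)) = 0 := by
      refine PhiR_isotropic (adj Q) (adj_comm Q) _ hkon fun l hl => ?_
      have hl1 : α l ≠ 0 := by
        intro hc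
        simp only [hc, Nat.cast_zero, lt_irrefl] at hl
      rw [KH12_cR, hall l ((hS l).2 hl1)]
      simp
    rw [h0, mul_zero]
    refine (hconst (Real.log (S.card : ℝ))).congr' ?_
    filter_upwards [eventually_ge_atTop 1] with n hn
    have hN : 1 ≤ n * g := Nat.mul_pos hn hg1
    rw [kac_affine Q α S hS hα hconn hall (n * g) hN]
    norm_num

theorem GrQ_descentE (Q : Quiv I E) (hE : AllEng) (x : I → ℝ) (v : ℝ) (h : GrQ Q x v) :
    ∃ x' : I → ℝ, Kon (adj Q) x' ∧ (∀ i, x' i ≤ x i) ∧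
      ∑ i, x i * cR (adj Q) x i = ∑ i, x' i * cR (adj Q) x' i ∧ v = PhiR (adj Q) x' := by
  obtain ⟨β, t, l, ht, hβ, hl, hx, hv⟩ := h
  obtain ⟨β', h1, h2, h3, h4⟩ := kac_descent Q β hβ
  have hβ' : ∀ᶠ n : ℕ in atTop, 0 < kacOne Q (fun i => n * β' i) := by
    filter_upwards [hβ, eventually_ge_atTop 1] with n hn hn1
    rw [h1 n hn1]
    exact hn
  have hlim := kac_limit_PhiE Q hE β' h3 hβ'
  have hlim2 : Tendsto (fun n : ℕ => Real.log ((kacOne Q (fun i => n * β' i) : ℚ) : ℝ) / n)
      atTop (𝓝 l) := by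
    refine hl.congr' ?_
    filter_upwards [eventually_ge_atTop 1] with n hn
    rw [h1 n hn]
  have hl2 := tendsto_nhds_unique hlim2 hlim
  have hkon : Kon (adj Q) (fun i => (β' i : ℝ)) := by
    refine ⟨fun i => Nat.cast_nonneg _, fun i => ?_⟩
    rw [KH12_cR]
    have : (0 : ℝ) ≤ ((sw (adj Q) β' i : ℤ) : ℝ) := by exact_mod_cast h3 i
    linarith
  have hform : ∀ (γ : I → ℕ), ∑ i, (t • (fun i => (γ i : ℝ))) i *
      cR (adj Q) (t • (fun i => (γ i : ℝ))) i =
      t * t * (((-∑ i, (γ i : ℤ) * sw (adj Q) γ i : ℤ)) : ℝ) := by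
    intro γ
    push_cast
    rw [← Finset.sum_neg_distrib, Finset.mul_sum]
    refine Finset.sum_congr rfl fun i _ => ?_
    rw [cR_smul, KH12_cR, Pi.smul_apply, smul_eq_mul]
    ring
  have hxx : x = t • (fun i => (β i : ℝ)) := by
    funext i
    rw [hx i, Pi.smul_apply, smul_eq_mul]
  refine ⟨t • (fun i => (β' i : ℝ)), hkon.smul ht.le, fun i => ?_, ?_, ?_⟩
  · rw [hx i, Pi.smul_apply, smul_eq_mul]
    refine mul_le_mul_of_nonneg_left ?_ ht.le
    exact_mod_cast h2 i
  · rw [hxx, hform β, hform β', h4]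
  · rw [PhiR_smul hkon ht.le, hv, hl2]

end

theorem kac_growth_all (hE : AllEng) {I E : Type} [Finite I] [Finite E] (Q : Quiv I E) :
    ∃ p : (I → ℕ) → ℚ[X], (∀ α, IsKacPoly Q α (p α)) ∧
      ∃ F : (I → ℝ) → ℝ, Continuous F ∧ (∀ (t : ℝ) (x : I → ℝ), 0 ≤ t → F (t • x) = t * F x) ∧
        ∀ α : I → ℕ, (∀ᶠ n : ℕ in atTop, 0 < (p (fun i => n * α i)).eval 1) →
        Tendsto (fun n : ℕ => Real.log (((p (fun i => n * α i)).eval 1 : ℚ) : ℝ) / n) atTop
          (𝓝 (F (fun i => (α i : ℝ)))) := by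
  classical
  have := Fintype.ofFinite I
  have := Fintype.ofFinite E
  choose p hp using fun α => kacPoly_exists Q α
  refine ⟨p, hp, ?_⟩
  have h1 : ∀ α, kacOne Q α = (p α).eval 1 := fun α => kacOne_eq Q α (p α) (hp α)
  obtain ⟨F, hF, hF1, hF2⟩ := homog_ext (GrQ Q)
    (by
      rintro x v t ht ⟨β, s, l, hs, hβ, hl, hx, hv⟩
      refine ⟨β, t * s, l, mul_pos ht hs, hβ, hl, fun i => ?_, ?_⟩
      · rw [Pi.smul_apply, smul_eq_mul, hx i, mul_assoc]
      · rw [hv, mul_assoc])
    (fun ξ ε hε => local_all (adj Q) (adj_comm Q) (fun i hi => by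
        have h2 := adj_self Q i
        omega) (GrQ Q) (fun x v h => GrQ_descentE Q hE x v h)
        (fun x v h i hi => GrQ_refl Q x v h i hi) ξ ε hε)
  refine ⟨F, hF, hF1, fun α hα => ?_⟩
  have hα' : ∀ᶠ n : ℕ in atTop, 0 < kacOne Q (fun i => n * α i) := by
    filter_upwards [hα] with n hn
    rw [h1]
    exact hn
  obtain ⟨l, hl⟩ := kac_limitE Q hE α hα'
  have h2 : F (fun i => (α i : ℝ)) = l :=
    hF2 _ _ ⟨α, 1, l, one_pos, hα', hl, fun i => (one_mul _).symm, (one_mul _).symm⟩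
  rw [h2]
  simpa only [h1] using hl

end Pool.Agent.H27.KB

end

section

/-!
KAC ADE: glue between the engine and the growth part.
-/

set_option autoImplicit false

namespace Pool.Agent.H40.KADE

open scoped BigOperators
open Pool.Agent.H27.KAC Pool.Agent.H27.KB Pool.H88.KA

theorem allEng (h : AllCal) : AllEng := by
  intro I _ _ a _ hs hd hc
  obtain ⟨cn, G, hcn, hG⟩ := h I a hs hd
  exact eng_of_cal a hs hd hc hcn hG

open Polynomial Filter Topology in
/-- the final theorem from the cluster calculus. -/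
theorem kac_of_cal (h : AllCal) {I E : Type} [Finite I] [Finite E] (Q : Quiv I E) :
    ∃ p : (I → ℕ) → ℚ[X], (∀ α, IsKacPoly Q α (p α)) ∧
      ∃ F : (I → ℝ) → ℝ, Continuous F ∧ (∀ (t : ℝ) (x : I → ℝ), 0 ≤ t → F (t • x) = t * F x) ∧
        ∀ α : I → ℕ, (∀ᶠ n : ℕ in atTop, 0 < (p (fun i => n * α i)).eval 1) →
        Tendsto (fun n : ℕ => Real.log (((p (fun i => n * α i)).eval 1 : ℚ) : ℝ) / n) atTop
          (𝓝 (F (fun i => (α i : ℝ)))) :=
  kac_growth_all (allEng h) Q

end Pool.Agent.H40.KADE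

end
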