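import Pool.Agent.H16.TKA.M13

/-! The parts of this file: H40.NUM.N2, H40.NUM.N3. -/

section

/-!
KAC ADE numbers: connectedness of standard sets, erasing the end of the long arm, determinants.
-/

set_option autoImplicit false

namespace Pool.Agent.H40.NUM

open scoped BigOperators
open Pool.H88.KA (TT)

section

variable {I : Type} [Fintype I] [DecidableEq I]

/-- integral Cartan matrix of the standard graph. -/
def Dm (n c : ℕ) : Matrix (Fin n) (Fin n) ℤ :=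
  Matrix.of (fun i j => (if i = j then 2 else 0) - (TT n c i j : ℤ))

end

end Pool.Agent.H40.NUM

end

section

/-!
KAC ADE numbers: determinants of the exceptional graphs.
-/

set_option autoImplicit false
set_option maxRecDepth 100000

namespace Pool.Agent.H40.NUM

open Pool.H88.KA (TT)

theorem Dm_D5 : (Dm 5 2).det = 4 := by
  obtain ⟨P, hP⟩ : ∃ P, P =
      (!![1, 0, 0, 0, 0; 1, 2, 0, 0, 0; 1, 2, 3, 0, 0; 1, 2, 3, 4, 0; 2, 4, 6, 3, 5] : Matrix (Fin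
      5) (Fin 5) ℤ) := ⟨_, rfl⟩
  obtain ⟨T, hT⟩ : ∃ T, T =
      (!![2, -1, 0, 0, 0; 0, 3, -2, 0, 0; 0, 0, 4, -3, -3; 0, 0, 0, 5, -3; 0, 0, 0, 0, 4] : Matrix
      (Fin 5) (Fin 5) ℤ) := ⟨_, rfl⟩
  have h : P * Dm 5 2 = T := by subst hP hT; decide +kernel
  have h1 : ∀ i j : Fin 5, i < j → P i j = 0 := by subst hP; decide +kernel
  have h2 : ∀ i j : Fin 5, j < i → T i j = 0 := by subst hT; decide +kernel
  have h3 : ∏ i, P i i = 120 := by subst hP; decide +kernel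
  have h4 : ∏ i, T i i = 480 := by subst hT; decide +kernel
  have h5 := congrArg Matrix.det h
  rw [Matrix.det_mul, Matrix.det_of_lowerTriangular P (fun i j hij => h1 i j hij),
    Matrix.det_of_upperTriangular (M := T) (fun i j hij => h2 i j hij), h3, h4] at h5
  omega

theorem Dm_E6 : (Dm 6 2).det = 3 := by
  obtain ⟨P, hP⟩ : ∃ P, P =
      (!![1, 0, 0, 0, 0, 0; 1, 2, 0, 0, 0, 0; 1, 2, 3, 0, 0, 0; 1, 2, 3, 4, 0, 0; 1, 2, 3, 4, 5,
      0; 1, 2, 3, 2, 1, 2] : Matrix (Fin 6) (Fin 6) ℤ) := ⟨_, rfl⟩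
  obtain ⟨T, hT⟩ : ∃ T, T =
      (!![2, -1, 0, 0, 0, 0; 0, 3, -2, 0, 0, 0; 0, 0, 4, -3, 0, -3; 0, 0, 0, 5, -4, -3; 0, 0, 0,
      0, 6, -3; 0, 0, 0, 0, 0, 1] : Matrix (Fin 6) (Fin 6) ℤ) := ⟨_, rfl⟩
  have h : P * Dm 6 2 = T := by subst hP hT; decide +kernel
  have h1 : ∀ i j : Fin 6, i < j → P i j = 0 := by subst hP; decide +kernel
  have h2 : ∀ i j : Fin 6, j < i → T i j = 0 := by subst hT; decide +kernel
  have h3 : ∏ i, P i i = 240 := by subst hP; decide +kernel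
  have h4 : ∏ i, T i i = 720 := by subst hT; decide +kernel
  have h5 := congrArg Matrix.det h
  rw [Matrix.det_mul, Matrix.det_of_lowerTriangular P (fun i j hij => h1 i j hij),
    Matrix.det_of_upperTriangular (M := T) (fun i j hij => h2 i j hij), h3, h4] at h5
  omega

theorem Dm_E7 : (Dm 7 2).det = 2 := by
  obtain ⟨P, hP⟩ : ∃ P, P =
      (!![1, 0, 0, 0, 0, 0, 0; 1, 2, 0, 0, 0, 0, 0; 1, 2, 3, 0, 0, 0, 0; 1, 2, 3, 4, 0, 0, 0; 1,
      2, 3, 4, 5, 0, 0; 1, 2, 3, 4, 5, 6, 0; 4, 8, 12, 9, 6, 3, 7] : Matrix (Fin 7) (Fin 7)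
      ℤ) := ⟨_, rfl⟩
  obtain ⟨T, hT⟩ : ∃ T, T =
      (!![2, -1, 0, 0, 0, 0, 0; 0, 3, -2, 0, 0, 0, 0; 0, 0, 4, -3, 0, 0, -3; 0, 0, 0, 5, -4, 0,
      -3; 0, 0, 0, 0, 6, -5, -3; 0, 0, 0, 0, 0, 7, -3; 0, 0, 0, 0, 0, 0, 2] : Matrix (Fin 7)
      (Fin 7) ℤ) := ⟨_, rfl⟩
  have h : P * Dm 7 2 = T := by subst hP hT; decide +kernel
  have h1 : ∀ i j : Fin 7, i < j → P i j = 0 := by subst hP; decide +kernel
  have h2 : ∀ i j : Fin 7, j < i → T i j = 0 := by subst hT; decide +kernel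
  have h3 : ∏ i, P i i = 5040 := by subst hP; decide +kernel
  have h4 : ∏ i, T i i = 10080 := by subst hT; decide +kernel
  have h5 := congrArg Matrix.det h
  rw [Matrix.det_mul, Matrix.det_of_lowerTriangular P (fun i j hij => h1 i j hij),
    Matrix.det_of_upperTriangular (M := T) (fun i j hij => h2 i j hij), h3, h4] at h5
  omega

theorem Dm_E8 : (Dm 8 2).det = 1 := by
  obtain ⟨P, hP⟩ : ∃ P, P =
      (!![1, 0, 0, 0, 0, 0, 0, 0; 1, 2, 0, 0, 0, 0, 0, 0; 1, 2, 3, 0, 0, 0, 0, 0; 1, 2, 3, 4, 0,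
      0, 0, 0; 1, 2, 3, 4, 5, 0, 0, 0; 1, 2, 3, 4, 5, 6, 0, 0; 1, 2, 3, 4, 5, 6, 7, 0; 5,
      10, 15, 12, 9, 6, 3, 8] : Matrix (Fin 8) (Fin 8) ℤ) := ⟨_, rfl⟩
  obtain ⟨T, hT⟩ : ∃ T, T =
      (!![2, -1, 0, 0, 0, 0, 0, 0; 0, 3, -2, 0, 0, 0, 0, 0; 0, 0, 4, -3, 0, 0, 0, -3; 0, 0, 0, 5,
      -4, 0, 0, -3; 0, 0, 0, 0, 6, -5, 0, -3; 0, 0, 0, 0, 0, 7, -6, -3; 0, 0, 0, 0, 0, 0, 8,
      -3; 0, 0, 0, 0, 0, 0, 0, 1] : Matrix (Fin 8) (Fin 8) ℤ) := ⟨_, rfl⟩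
  have h : P * Dm 8 2 = T := by subst hP hT; decide +kernel
  have h1 : ∀ i j : Fin 8, i < j → P i j = 0 := by subst hP; decide +kernel
  have h2 : ∀ i j : Fin 8, j < i → T i j = 0 := by subst hT; decide +kernel
  have h3 : ∏ i, P i i = 40320 := by subst hP; decide +kernel
  have h4 : ∏ i, T i i = 40320 := by subst hT; decide +kernel
  have h5 := congrArg Matrix.det h
  rw [Matrix.det_mul, Matrix.det_of_lowerTriangular P (fun i j hij => h1 i j hij),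
    Matrix.det_of_upperTriangular (M := T) (fun i j hij => h2 i j hij), h3, h4] at h5
  omega

end Pool.Agent.H40.NUM

end
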