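import Pool.Agent.H16.TKA.M21
import Pool.Agent.H16.TKA.M26

/-! The parts of this file: H46.AH.AH7, H46.AH.AH8, H46.AH.AH10. -/

section

/-!
KAC ADE, module AH7: the restart lemma.

PROOF.  `TV_step` (AE7): `TV (tauT a N k q' T) = ∑_{m ∈ mbox N B} sgm N m * TV (rawT a N k q' m T)`, `B` large.
Let `M = {x ∈ N : m_x ≠ 0}`, `K = N \ M`, `δ` the vector with `δ = m - q'` on `M` and `(C δ)_x = ν_x` on `K`
(`ν_x = T.E (x,k)`).  The effective exponent of `s ∈ M` is `ν_s - (C δ)_s` (compare `AE8_eff`), so `raw_Z` kills all `m` with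
`(C δ)_s < ν_s` for some `s ∈ M`.  For the remaining `m` put `S = {s ∈ M : (C δ)_s > ν_s}`, `n = m - (q' - q)` on `S`
(integers), `S0 = M \ S`.  Then `(C δ)_x = ν_x` for all `x ∈ N \ S`, so `δ = μ := shv a N S q ν n` (`shv_unique`), and
`m_x = q'_x + μ_x` for `x ∈ S0`.  Conversely every `(S, n)` of the right hand side and every
`S0 ⊆ {x ∈ N \ S : q_x + μ_x ∈ ℤ}` comes from a unique `m` (note `μ ≥ 0` by `shv_nonneg`, `q' > 0`, so `q'_x + μ_x ≥ 1`).
On the right hand side `PPc a (N \ S) k (q + μ) (rsT ..) = ∑_{m' Plat} sgm m' * TV (rawT a (N \ S) k q'' m' (rsT ..))`,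
`q'' = rp a (N \ S) (q + μ)`, `m'` is `0` or `q''` on every vertex, and the vertices with `m' ≠ 0` are the set `S0`.
The terms `rawT a N k q' m T` and `rawT a (N \ S) k q'' m' (rsT ..)` have the same columns and differ by the factor
`∏_{x ∈ K} η_{x,k}^{v_x}`, `v = q' + μ - q''` integral on `K`; they are equal by `TV_rep` on `K` (level `k`, side `k - 1`;
the solution `u` of `C_K u = ` exponents is `q' + μ > 0` for the first and `q'' > 0` for the second).
Bounds of the box: `μ_s > 0` gives `n_s > q_s`; if `n_s > γ_s / k + q_s` then `(rsT ..).γ s < 0` and all terms vanish.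
-/

set_option autoImplicit false

namespace Pool.Agent.H46.AH

open scoped BigOperators
open Pool.Agent.H27.KAC Pool.Agent.H40.KADE

section

/-- equality of two sums whose non-zero terms are related bijectively. -/
theorem AH7_sum_rel {α β : Type} (s : Finset α) (t : Finset β) (f : α → ℚ) (g : β → ℚ)
    (R : α → β → Prop)
    (h1 : ∀ x ∈ s, f x ≠ 0 → ∃ y ∈ t, R x y)
    (h2 : ∀ y ∈ t, g y ≠ 0 → ∃ x ∈ s, R x y)
    (h3 : ∀ x ∈ s, ∀ y ∈ t, R x y → f x = g y)
    (h4 : ∀ x ∈ s, ∀ y ∈ t, ∀ y' ∈ t, R x y → R x y' → y = y')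
    (h5 : ∀ x ∈ s, ∀ x' ∈ s, ∀ y ∈ t, R x y → R x' y → x = x') :
    ∑ x ∈ s, f x = ∑ y ∈ t, g y := by
  refine Finset.sum_bij_ne_zero (fun x hx hf => (h1 x hx hf).choose)
    (fun x hx hf => (h1 x hx hf).choose_spec.1) ?_ ?_ ?_
  · intro x hx hf x' hx' hf' he
    have e1 := (h1 x hx hf).choose_spec
    have e2 := (h1 x' hx' hf').choose_spec
    beta_reduce at he
    rw [← he] at e2
    exact h5 x hx x' hx' _ e1.1 e1.2 e2.2
  · intro y hy hg
    obtain ⟨x, hx, hR⟩ := h2 y hy hg
    have hf : f x ≠ 0 := by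
      rw [h3 x hx y hy hR]
      exact hg
    refine ⟨x, hx, hf, ?_⟩
    have e1 := (h1 x hx hf).choose_spec
    exact h4 x hx _ e1.1 y hy e1.2 hR
  · intro x hx hf
    have e1 := (h1 x hx hf).choose_spec
    exact h3 x hx _ e1.1 e1.2

end

section

variable {I : Type} [Fintype I] [DecidableEq I]

/-- admissible representatives are positive. -/
theorem AH7_pos (a : I → I → ℕ) (hs : ∀ i j, a i j = a j i) (N : Finset I) (hN : FinT a N)
    (q : I → ℚ) (hq : QOk a N q) : ∀ x ∈ N, 0 < q x := by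
  intro x hx
  have h1 := solN_cqN hs hN q x hx
  rw [← h1]
  have h2 : ∀ i ∈ N, 0 < cqN a N q i := by
    intro i hi
    obtain ⟨n, hn, he⟩ := hq i hi
    rw [he]
    exact_mod_cast hn
  exact solN_pos_self hs hN (cqN a N q) (fun i hi => (h2 i hi).le) x hx (h2 x hx)

theorem AH7_cqN_sub (a : I → I → ℕ) (N : Finset I) (v w : I → ℚ) (i : I) :
    cqN a N (fun x => v x - w x) i = cqN a N v i - cqN a N w i := AE8_cqN_sub a N v w i

theorem AH7_IsZ_add {p q : ℚ} (hp : IsZ p) (hq : IsZ q) : IsZ (p + q) := by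
  obtain ⟨m, hm⟩ := hp
  obtain ⟨n, hn⟩ := hq
  exact ⟨m + n, by rw [hm, hn]; push_cast; ring⟩

theorem AH7_IsZ_neg {p : ℚ} (hp : IsZ p) : IsZ (-p) := by
  obtain ⟨m, hm⟩ := hp
  exact ⟨-m, by rw [hm]; push_cast; ring⟩

theorem AH7_IsZ_sub {p q : ℚ} (hp : IsZ p) (hq : IsZ q) : IsZ (p - q) := by
  rw [sub_eq_add_neg]
  exact AH7_IsZ_add hp (AH7_IsZ_neg hq)

omit [Fintype I] in
theorem AH7_IsZ_cqN (a : I → I → ℕ) (N : Finset I) (v : I → ℚ) (hv : ∀ x ∈ N, IsZ (v x)) (i : I) :
    IsZ (cqN a N v i) := by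
  unfold cqN
  induction N using Finset.induction_on with
  | empty => exact ⟨0, by simp⟩
  | insert b s hb ih =>
    rw [Finset.sum_insert hb]
    refine AH7_IsZ_add ?_ (ih fun x hx => hv x (Finset.mem_insert_of_mem hx))
    obtain ⟨n, hn⟩ := hv b (Finset.mem_insert_self b s)
    exact ⟨cart a i b * n, by rw [hn]; push_cast; ring⟩

/-- the class of `q` is a weight. -/
theorem AH7_wt (a : I → I → ℕ) (N : Finset I) (q q' : I → ℚ) (h : Rep a N q q') :
    ∀ x ∈ N, IsZ (cqN a N q x) := by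
  intro x hx
  obtain ⟨n, -, hn⟩ := h.1 x hx
  have h1 : cqN a N q x = cqN a N q' x - cqN a N (fun i => q' i - q i) x := by
    rw [AH7_cqN_sub]
    ring
  rw [h1]
  refine AH7_IsZ_sub ⟨(n : ℤ), by rw [hn]; push_cast; rfl⟩ (AH7_IsZ_cqN a N _ ?_ x)
  exact h.2

/-- comparison of the `C`-images. -/
theorem AH7_cq (a : I → I → ℕ) (N : Finset I) (q' μ : I → ℚ) (m : I → ℕ)
    (hμ : ∀ x ∈ N, m x ≠ 0 → μ x = (m x : ℚ) - q' x) (i : I) :
    cqN a N μ i - cqN a N (fun x => (m x : ℚ) - q' x) i =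
      cqN a (N.filter (fun x => m x = 0)) (fun x => q' x + μ x) i := by
  rw [← AH7_cqN_sub]
  unfold cqN
  rw [Finset.sum_filter]
  refine Finset.sum_congr rfl fun x hx => ?_
  by_cases h : m x = 0
  · rw [if_pos h]
    beta_reduce
    rw [h]
    push_cast
    ring
  · rw [if_neg h]
    beta_reduce
    rw [hμ x hx h]
    ring

/-- the solution for the quiet vertices of a raw term. -/
theorem AH7_sol (a : I → I → ℕ) (hs : ∀ i j, a i j = a j i) (N : Finset I) (hN : FinT a N)
    (k : ℕ) (q' μ : I → ℚ) (T : Trm I) (m : I → ℕ)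
    (hμ : ∀ x ∈ N, m x ≠ 0 → μ x = (m x : ℚ) - q' x)
    (hK : ∀ x ∈ N, m x = 0 → cqN a N μ x = T.E (x, k)) :
    ∀ x ∈ N.filter (fun x => m x = 0),
      q' x + μ x = solN a (N.filter (fun x => m x = 0))
        (fun i => (rawT a N k q' m T).E (i, k)) x := by
  have hKT : FinT a (N.filter (fun x => m x = 0)) := hN.mono (Finset.filter_subset _ _)
  refine solN_unique hs hKT _ (fun x => q' x + μ x) ?_
  intro i hi
  have hi' := Finset.mem_filter.1 hi
  rw [← AH7_cq a N q' μ m hμ i, hK i hi'.1 hi'.2, AE8_rawE a hs, if_pos rfl]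

/-- effective exponents of raw terms. -/
theorem AH7_eff (a : I → I → ℕ) (hs : ∀ i j, a i j = a j i) (N : Finset I) (hN : FinT a N)
    (k : ℕ) (q' μ : I → ℚ) (T : Trm I) (m : I → ℕ)
    (hμ : ∀ x ∈ N, m x ≠ 0 → μ x = (m x : ℚ) - q' x)
    (hK : ∀ x ∈ N, m x = 0 → cqN a N μ x = T.E (x, k)) (s : I) (hm : m s ≠ 0) :
    effE a (N.filter (fun x => m x = 0)) (fun _ => k) (rawT a N k q' m T) s k =
      T.E (s, k) - cqN a N μ s := by
  have h1 := AH7_cq a N q' μ m hμ s
  unfold effE
  rw [Finset.filter_true_of_mem (fun _ _ => rfl), AE8_rawE a hs, if_pos rfl]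
  have h2 : ∑ x ∈ N.filter (fun x => m x = 0), (a s x : ℚ) *
      solN a (N.filter (fun x => m x = 0)) (fun i => (rawT a N k q' m T).E (i, k)) x =
      -cqN a (N.filter (fun x => m x = 0)) (fun x => q' x + μ x) s := by
    unfold cqN
    rw [← Finset.sum_neg_distrib]
    refine Finset.sum_congr rfl fun x hx => ?_
    rw [← AH7_sol a hs N hN k q' μ T m hμ hK x hx]
    have hsx : s ≠ x := fun h => hm (h ▸ (Finset.mem_filter.1 hx).2)
    rw [AE8_cart_ne a hsx]
    ring
  rw [h2, ← h1]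
  ring

/-- the structural identity of the raw terms. -/
theorem AH7_struct (a : I → I → ℕ) (N S : Finset I) (hS : S ⊆ N) (k : ℕ) (q' q'' μ : I → ℚ)
    (T : Trm I) (m m' : I → ℕ) (v : I → ℤ)
    (h0 : ∀ i, i ∉ N → μ i = 0 ∧ v i = 0)
    (hSm : ∀ s ∈ S, m s ≠ 0 ∧ μ s = (m s : ℚ) - q' s ∧ v s = 0)
    (hmm : ∀ x ∈ N \ S, (m x = 0 ↔ m' x = 0))
    (hv : ∀ x ∈ N \ S, (m x : ℚ) - q' x + v x = μ x + ((m' x : ℚ) - q'' x)) :
    (rawT a N k q' m T).etaM a (fun _ => k) (fun i => (v i : ℚ)) =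
      rawT a (N \ S) k q'' m' (rsT a S k μ T) := by
  have e1 : (rawT a N k q' m T).etaM a (fun _ => k) (fun i => (v i : ℚ)) =
      ((T.etaM a (fun _ => k) (fun i => if i ∈ N then (m i : ℚ) - q' i else 0)).etaM a
        (fun _ => k) (fun i => (v i : ℚ))).cols N
          (fun x => if m x = 0 then sy x (k - 1) else cE a x k) := rfl
  have e2 : rawT a (N \ S) k q'' m' (rsT a S k μ T) =
      (((T.etaM a (fun _ => k) μ).etaM a (fun _ => k)
        (fun i => if i ∈ N \ S then (m' i : ℚ) - q'' i else 0)).cols S (fun x => cE a x k)).cols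
          (N \ S) (fun x => if m' x = 0 then sy x (k - 1) else cE a x k) := rfl
  rw [e1, e2, etaM_etaM, etaM_etaM]
  have e3 : (fun i => (if i ∈ N then (m i : ℚ) - q' i else 0) + (v i : ℚ)) =
      fun i => μ i + (if i ∈ N \ S then (m' i : ℚ) - q'' i else 0) := by
    funext i
    by_cases hi : i ∈ N
    · by_cases hiS : i ∈ S
      · obtain ⟨-, h1, h2⟩ := hSm i hiS
        rw [if_pos hi, if_neg (fun h => (Finset.mem_sdiff.1 h).2 hiS), h1, h2]
        push_cast
        ring
      · have h1 : i ∈ N \ S := Finset.mem_sdiff.2 ⟨hi, hiS⟩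
        rw [if_pos hi, if_pos h1]
        exact hv i h1
    · rw [if_neg hi, if_neg (fun h => hi (Finset.mem_sdiff.1 h).1), (h0 i hi).1, (h0 i hi).2]
      push_cast
      ring
  rw [e3]
  refine Trm.ext rfl rfl ?_
  funext j
  change (if j ∈ N then (if m j = 0 then sy j (k - 1) else cE a j k) else T.Λ j) =
    if j ∈ N \ S then (if m' j = 0 then sy j (k - 1) else cE a j k)
      else if j ∈ S then cE a j k else T.Λ j
  by_cases hj : j ∈ N
  · by_cases hjS : j ∈ S
    · rw [if_pos hj, if_neg (hSm j hjS).1, if_neg (fun h => (Finset.mem_sdiff.1 h).2 hjS),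
        if_pos hjS]
    · have h1 : j ∈ N \ S := Finset.mem_sdiff.2 ⟨hj, hjS⟩
      rw [if_pos hj, if_pos h1]
      by_cases hm : m j = 0
      · rw [if_pos hm, if_pos ((hmm j h1).1 hm)]
      · rw [if_neg hm, if_neg (fun h => hm ((hmm j h1).2 h))]
  · rw [if_neg hj, if_neg (fun h => hj (Finset.mem_sdiff.1 h).1), if_neg (fun h => hj (hS h))]

/-- the relation between the terms of the two sides. -/
def AH7_Rel (q' μ : I → ℚ) (S : Finset I) (m' m : I → ℕ) : Prop :=
  (∀ x, m x ≠ 0 ↔ (x ∈ S ∨ m' x ≠ 0)) ∧ ∀ x, m x ≠ 0 → (m x : ℚ) = q' x + μ x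

/-- equality of the terms of the two sides. -/
theorem AH7_term (a : I → I → ℕ) (hs : ∀ i j, a i j = a j i) (N : Finset I) (hN : FinT a N)
    (k : ℕ) (hk : 1 ≤ k) (q q' : I → ℚ) (hq : Rep a N q q') (T : Trm I) (hT : RReg N T)
    (S : Finset I) (hS : S ⊆ N) (μ q'' : I → ℚ)
    (hq'' : Rep a (N \ S) (fun i => q i + μ i) q'')
    (h0 : ∀ i, i ∉ N → μ i = 0) (hpos : ∀ i, 0 ≤ μ i)
    (hμ : ∀ x ∈ N \ S, cqN a N μ x = T.E (x, k))
    (m m' : I → ℕ) (hm' : ∀ x, x ∉ N \ S → m' x = 0) (hPl : Plat (N \ S) q'' m')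
    (hR : AH7_Rel q' μ S m' m) :
    sgm N m * TV a (rawT a N k q' m T) =
      sgm (N \ S) m' * TV a (rawT a (N \ S) k q'' m' (rsT a S k μ T)) := by
  obtain ⟨hR1, hR2⟩ := hR
  have hmoff : ∀ x, x ∉ N → m x = 0 := by
    intro x hx
    by_contra h
    rcases (hR1 x).1 h with h1 | h1
    · exact hx (hS h1)
    · exact h1 (hm' x (fun h2 => hx (Finset.mem_sdiff.1 h2).1))
  have hmm : ∀ x ∈ N \ S, (m x = 0 ↔ m' x = 0) := by
    intro x hx
    have h1 := hR1 x
    have h2 : x ∉ S := (Finset.mem_sdiff.1 hx).2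
    constructor
    · intro h
      by_contra h3
      exact h1.2 (Or.inr h3) h
    · intro h
      by_contra h3
      rcases h1.1 h3 with h4 | h4
      · exact h2 h4
      · exact h4 h
  have hKS : ∀ x ∈ N, m x = 0 → x ∈ N \ S := by
    intro x hx hmx
    refine Finset.mem_sdiff.2 ⟨hx, fun h => ?_⟩
    exact (hR1 x).2 (Or.inl h) hmx
  have hfil : N.filter (fun x => m x = 0) = (N \ S).filter (fun x => m' x = 0) := by
    ext x
    rw [Finset.mem_filter, Finset.mem_filter]
    constructor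
    · rintro ⟨h1, h2⟩
      have h3 := hKS x h1 h2
      exact ⟨h3, (hmm x h3).1 h2⟩
    · rintro ⟨h1, h2⟩
      exact ⟨(Finset.mem_sdiff.1 h1).1, (hmm x h1).2 h2⟩
  have hsg : sgm N m = sgm (N \ S) m' := by
    unfold sgm
    rw [hfil]
  have hμm : ∀ x ∈ N, m x ≠ 0 → μ x = (m x : ℚ) - q' x := by
    intro x _ hx
    have := hR2 x hx
    linarith
  have hK : ∀ x ∈ N, m x = 0 → cqN a N μ x = T.E (x, k) := fun x hx hmx => hμ x (hKS x hx hmx)
  have hsol := AH7_sol a hs N hN k q' μ T m hμm hK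
  have hNS : FinT a (N \ S) := hN.mono Finset.sdiff_subset
  have hq'pos := AH7_pos a hs N hN q' hq.1
  have hq''pos := AH7_pos a hs (N \ S) hNS q'' hq''.1
  have hZ : ∀ x ∈ N.filter (fun x => m x = 0), IsZ (q' x + μ x - q'' x) := by
    intro x hx
    have hx' := Finset.mem_filter.1 hx
    have h1 := hq.2 x hx'.1
    have h2 := hq''.2 x (hKS x hx'.1 hx'.2)
    have h3 : q' x + μ x - q'' x = (q' x - q x) - (q'' x - (q x + μ x)) := by ring
    rw [h3]
    exact AH7_IsZ_sub h1 h2
  obtain ⟨v, hv1, hv2⟩ : ∃ v : I → ℤ, (∀ i, i ∉ N.filter (fun x => m x = 0) → v i = 0) ∧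
      ∀ x ∈ N.filter (fun x => m x = 0), (v x : ℚ) = q' x + μ x - q'' x := by
    classical
    refine ⟨fun x => if h : x ∈ N.filter (fun x => m x = 0) then (hZ x h).choose else 0, ?_, ?_⟩
    · intro i hi
      simp only [dif_neg hi]
    · intro x hx
      simp only [dif_pos hx]
      exact (hZ x hx).choose_spec.symm
  rw [hsg]
  congr 1
  have hstr := AH7_struct a N S hS k q' q'' μ T m m' v
    (fun i hi => ⟨h0 i hi, hv1 i (fun h => hi (Finset.mem_filter.1 h).1)⟩)
    (fun s hs' => ⟨(hR1 s).2 (Or.inl hs'), hμm s (hS hs') ((hR1 s).2 (Or.inl hs')),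
      hv1 s (fun h => (hR1 s).2 (Or.inl hs') (Finset.mem_filter.1 h).2)⟩) hmm (by
      intro x hx
      by_cases hmx : m x = 0
      · have hxK : x ∈ N.filter (fun x => m x = 0) :=
          Finset.mem_filter.2 ⟨(Finset.mem_sdiff.1 hx).1, hmx⟩
        rw [hv2 x hxK, hmx, (hmm x hx).1 hmx]
        push_cast
        ring
      · have hm'x : m' x ≠ 0 := fun h => hmx ((hmm x hx).2 h)
        have h1 : (m' x : ℚ) = q'' x := by
          rcases hPl x hx with h | h
          · exact absurd h hm'x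
          · exact h
        rw [hv1 x (fun h => hmx (Finset.mem_filter.1 h).2), h1, hR2 x hmx]
        push_cast
        ring)
  rw [← hstr]
  refine TV_rep a hs (N.filter (fun x => m x = 0)) (hN.mono (Finset.filter_subset _ _))
    (fun _ => k) (fun _ => k - 1) (fun _ _ => hk) (fun _ _ _ _ _ => rfl)
    (fun _ _ => Or.inr (Nat.sub_add_cancel hk)) _ ?_ ?_ v hv1 ?_
  · intro x hx
    exact AE8_FReg a hs N k hk q' hq.1 T hT m x (Finset.mem_filter.1 hx).1
  · intro x hx
    have h1 := hsol x hx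
    rw [← h1]
    have h2 := hq'pos x (Finset.mem_filter.1 hx).1
    have h3 := hpos x
    linarith
  · intro x hx
    have h1 := hsol x hx
    rw [← h1, hv2 x hx]
    have hx' := Finset.mem_filter.1 hx
    have h2 := hq''pos x (hKS x hx'.1 hx'.2)
    linarith

/-- surjectivity: a raw term which does not vanish comes from the right hand side. -/
theorem AH7_ex (a : I → I → ℕ) (hs : ∀ i j, a i j = a j i) (N : Finset I) (hN : FinT a N)
    (k : ℕ) (hk : 1 ≤ k) (q q' : I → ℚ) (hq : Rep a N q q') (T : Trm I) (hT : RReg N T)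
    (m : I → ℕ) (hm : ∀ x, x ∉ N → m x = 0) (hne : TV a (rawT a N k q' m T) ≠ 0) :
    ∃ (S : Finset I) (n : I → ℤ) (m' : I → ℕ), S ⊆ N ∧ n ∈ rbox S k T.γ q ∧
      (∀ s ∈ S, T.E (s, k) < cqN a N (shv a N S q (fun x => T.E (x, k)) n) s) ∧
      (∀ x, x ∉ N \ S → m' x = 0) ∧
      Plat (N \ S) (rp a (N \ S) (fun i => q i + shv a N S q (fun x => T.E (x, k)) n i)) m' ∧
      AH7_Rel q' (shv a N S q (fun x => T.E (x, k)) n) S m' m := by
  classical
  have hν : ∀ x ∈ N, 0 ≤ T.E (x, k) := by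
    intro x hx
    obtain ⟨n, hn⟩ := hT.nat x hx k hk
    rw [hn]
    exact Nat.cast_nonneg n
  have hνZ : ∀ x ∈ N, IsZ (T.E (x, k)) := by
    intro x hx
    obtain ⟨n, hn⟩ := hT.nat x hx k hk
    exact ⟨(n : ℤ), by rw [hn]; push_cast; rfl⟩
  -- the integral differences
  obtain ⟨d, hd⟩ : ∃ d : I → ℤ, ∀ x ∈ N, q' x - q x = d x := by
    refine ⟨fun x => if h : x ∈ N then (hq.2 x h).choose else 0, ?_⟩
    intro x hx
    simp only [dif_pos hx]
    exact (hq.2 x hx).choose_spec
  set ν : I → ℚ := fun x => T.E (x, k) with hνdef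
  have hMN : N.filter (fun x => m x ≠ 0) ⊆ N := Finset.filter_subset _ _
  set M := N.filter (fun x => m x ≠ 0) with hM
  set μ := shv a N M q ν (fun i => (m i : ℤ) - d i) with hμdef
  have hμM : ∀ x ∈ N, m x ≠ 0 → μ x = (m x : ℚ) - q' x := by
    intro x hx hmx
    rw [hμdef, shv_S a N M q ν _ x (Finset.mem_filter.2 ⟨hx, hmx⟩)]
    have := hd x hx
    push_cast
    linarith
  have hμK : ∀ x ∈ N, m x = 0 → cqN a N μ x = T.E (x, k) := by
    intro x hx hmx
    exact shv_eq a hs N M hN hMN q ν _ x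
      (Finset.mem_sdiff.2 ⟨hx, fun h => (Finset.mem_filter.1 h).2 hmx⟩)
  have hμ0 : ∀ i, i ∉ N → μ i = 0 := fun i hi => shv_off a N M hMN q ν _ i hi
  -- the effective exponents are not positive
  have heff : ∀ s ∈ N, m s ≠ 0 → T.E (s, k) ≤ cqN a N μ s := by
    intro s hsN hms
    by_contra hlt
    push Not at hlt
    apply hne
    refine raw_Z a hs N hN k hk q' hq.1 T hT m s hsN hms ?_
    rw [AH7_eff a hs N hN k q' μ T m hμM hμK s hms]
    linarith
  set S := M.filter (fun s => ν s < cqN a N μ s) with hSdef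
  have hSM : S ⊆ M := Finset.filter_subset _ _
  have hSN : S ⊆ N := fun x hx => hMN (hSM hx)
  set n : I → ℤ := fun i => if i ∈ S then (m i : ℤ) - d i else 0 with hn
  have hμS : ∀ i ∈ S, μ i = (n i : ℚ) - q i := by
    intro i hi
    have h1 := Finset.mem_filter.1 (hSM hi)
    have h2 : n i = (m i : ℤ) - d i := if_pos hi
    rw [h2, hμM i h1.1 h1.2]
    have := hd i h1.1
    push_cast
    linarith
  have hμrest : ∀ x ∈ N \ S, cqN a N μ x = ν x := by
    intro x hx
    obtain ⟨hxN, hxS⟩ := Finset.mem_sdiff.1 hx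
    by_cases hmx : m x = 0
    · exact hμK x hxN hmx
    · have h1 := heff x hxN hmx
      by_contra hne'
      apply hxS
      refine Finset.mem_filter.2 ⟨Finset.mem_filter.2 ⟨hxN, hmx⟩, ?_⟩
      exact lt_of_le_of_ne h1 (fun h => hne' h.symm)
  have hμeq : μ = shv a N S q ν n := shv_unique a hs N S hN hSN q ν n μ hμ0 hμS hμrest
  have hP : ∀ s ∈ S, ν s < cqN a N (shv a N S q ν n) s := by
    intro s hs'
    rw [← hμeq]
    exact (Finset.mem_filter.1 hs').2
  have hnn := shv_nonneg a hs N S hN hSN q ν hν n hP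
  rw [← hμeq] at hnn
  have hwt := shv_wt a hs N S hN hSN q ν (AH7_wt a N q q' hq) hνZ n
  have hNS : FinT a (N \ S) := hN.mono Finset.sdiff_subset
  have hrp := rp_spec a hs (N \ S) hNS _ hwt
  set q'' := rp a (N \ S) (fun i => q i + shv a N S q ν n i) with hq''
  have hq''pos := AH7_pos a hs (N \ S) hNS q'' hrp.1
  -- the values on `S0`
  have hS0 : ∀ x ∈ N \ S, m x ≠ 0 → ((⌊q'' x⌋₊ : ℕ) : ℚ) = q'' x := by
    intro x hx hmx
    have hxN := (Finset.mem_sdiff.1 hx).1
    obtain ⟨z, hz⟩ := hrp.2 x hx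
    have h1 := hμM x hxN hmx
    rw [← hμeq] at hz
    have h2 := hd x hxN
    have h3 : q'' x = ((z + (m x : ℤ) - d x : ℤ) : ℚ) := by
      push_cast
      linarith
    have h4 := hq''pos x hx
    have h5 : 0 < z + (m x : ℤ) - d x := by
      rw [h3] at h4
      exact_mod_cast h4
    obtain ⟨w, hw⟩ := Int.eq_ofNat_of_zero_le h5.le
    rw [h3, hw]
    simp
  refine ⟨S, n, fun x => if x ∈ N \ S ∧ m x ≠ 0 then ⌊q'' x⌋₊ else 0, hSN, ?_, hP, ?_, ?_, ?_, ?_⟩
  · unfold rbox
    rw [Fintype.mem_piFinset]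
    intro i
    by_cases hi : i ∈ S
    · rw [if_pos hi, Finset.mem_Icc]
      have h1 := hμS i hi
      have h2 : 0 < μ i := hnn.2 i hi
      constructor
      · rw [Int.ceil_le]
        linarith
      · rw [Int.le_floor]
        have h3 : ¬ ((rawT a N k q' m T).γ i < 0) := fun h => hne (TV_neg a _ i h)
        have hiN : i ∈ N := hSN hi
        have h4 : (rawT a N k q' m T).γ i = T.γ i - k * ((m i : ℚ) - q' i) := by
          change T.γ i - k * (if i ∈ N then (m i : ℚ) - q' i else 0) = _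
          rw [if_pos hiN]
        rw [h4, ← hμM i hiN (Finset.mem_filter.1 (hSM hi)).2, h1] at h3
        push Not at h3
        have hk' : (0 : ℚ) < k := by exact_mod_cast hk
        have h5 : (n i : ℚ) - q i ≤ T.γ i / k := by
          rw [le_div_iff₀ hk']
          linarith
        linarith
    · rw [if_neg hi, Finset.mem_singleton]
      exact if_neg hi
  · intro x hx
    exact if_neg (fun h => hx h.1)
  · intro x hx
    beta_reduce
    by_cases hmx : m x = 0
    · left
      exact if_neg (fun h => h.2 hmx)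
    · right
      rw [if_pos ⟨hx, hmx⟩]
      exact hS0 x hx hmx
  · intro x
    beta_reduce
    constructor
    · intro hmx
      by_cases hxS : x ∈ S
      · exact Or.inl hxS
      · right
        have hxN : x ∈ N := by
          by_contra h
          exact hmx (hm x h)
        have hx : x ∈ N \ S := Finset.mem_sdiff.2 ⟨hxN, hxS⟩
        rw [if_pos ⟨hx, hmx⟩]
        intro h
        have h1 := hS0 x hx hmx
        rw [h] at h1
        have h2 := hq''pos x hx
        rw [← h1] at h2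
        simp at h2
    · rintro (h | h)
      · exact (Finset.mem_filter.1 (hSM h)).2
      · intro hmx
        exact h (if_neg (fun h => h.2 hmx))
  · intro x hmx
    rw [← hμeq]
    have hxN : x ∈ N := by
      by_contra h
      exact hmx (hm x h)
    rw [hμM x hxN hmx]
    ring

/-- uniqueness of the index of the right hand side. -/
theorem AH7_uniq (a : I → I → ℕ) (hs : ∀ i j, a i j = a j i) (N : Finset I) (hN : FinT a N)
    (k : ℕ) (q q' : I → ℚ) (hq : Rep a N q q') (T : Trm I) (m : I → ℕ)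
    (S₁ S₂ : Finset I) (n₁ n₂ : I → ℤ) (m₁ m₂ : I → ℕ)
    (h₁ : S₁ ⊆ N) (h₂ : S₂ ⊆ N) (hn₁ : ∀ i, i ∉ S₁ → n₁ i = 0) (hn₂ : ∀ i, i ∉ S₂ → n₂ i = 0)
    (hP₁ : ∀ s ∈ S₁, T.E (s, k) < cqN a N (shv a N S₁ q (fun x => T.E (x, k)) n₁) s)
    (hP₂ : ∀ s ∈ S₂, T.E (s, k) < cqN a N (shv a N S₂ q (fun x => T.E (x, k)) n₂) s)
    (hm₁ : ∀ x, x ∉ N \ S₁ → m₁ x = 0) (hm₂ : ∀ x, x ∉ N \ S₂ → m₂ x = 0)
    (hl₁ : Plat (N \ S₁) (rp a (N \ S₁) (fun i => q i + shv a N S₁ q (fun x => T.E (x, k)) n₁ i)) m₁)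
    (hl₂ : Plat (N \ S₂) (rp a (N \ S₂) (fun i => q i + shv a N S₂ q (fun x => T.E (x, k)) n₂ i)) m₂)
    (hR₁ : AH7_Rel q' (shv a N S₁ q (fun x => T.E (x, k)) n₁) S₁ m₁ m)
    (hR₂ : AH7_Rel q' (shv a N S₂ q (fun x => T.E (x, k)) n₂) S₂ m₂ m) :
    S₁ = S₂ ∧ n₁ = n₂ ∧ m₁ = m₂ := by
  classical
  obtain ⟨d, hd⟩ : ∃ d : I → ℤ, ∀ x ∈ N, q' x - q x = d x := by
    refine ⟨fun x => if h : x ∈ N then (hq.2 x h).choose else 0, ?_⟩
    intro x hx
    simp only [dif_pos hx]
    exact (hq.2 x hx).choose_spec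
  set ν : I → ℚ := fun x => T.E (x, k) with hνdef
  have hMN : N.filter (fun x => m x ≠ 0) ⊆ N := Finset.filter_subset _ _
  -- both shift vectors are determined by `m`
  have key : ∀ (S : Finset I) (n : I → ℤ) (m' : I → ℕ), S ⊆ N →
      AH7_Rel q' (shv a N S q ν n) S m' m →
      shv a N S q ν n = shv a N (N.filter (fun x => m x ≠ 0)) q ν (fun i => (m i : ℤ) - d i) := by
    intro S n m' hS hR
    refine shv_unique a hs N _ hN hMN q ν _ _ (fun i hi => shv_off a N S hS q ν n i hi) ?_ ?_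
    · intro i hi
      have h1 := Finset.mem_filter.1 hi
      have h2 := hR.2 i h1.2
      have h3 := hd i h1.1
      push_cast
      linarith
    · intro x hx
      obtain ⟨hxN, hxM⟩ := Finset.mem_sdiff.1 hx
      refine shv_eq a hs N S hN hS q ν n x (Finset.mem_sdiff.2 ⟨hxN, fun h => hxM ?_⟩)
      exact Finset.mem_filter.2 ⟨hxN, (hR.1 x).2 (Or.inl h)⟩
  have hμ : shv a N S₁ q ν n₁ = shv a N S₂ q ν n₂ :=
    (key S₁ n₁ m₁ h₁ hR₁).trans (key S₂ n₂ m₂ h₂ hR₂).symm
  have hSS : S₁ = S₂ := by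
    ext x
    constructor
    · intro hx
      by_contra hx2
      have h3 := hP₁ x hx
      rw [hμ, shv_eq a hs N S₂ hN h₂ q ν n₂ x (Finset.mem_sdiff.2 ⟨h₁ hx, hx2⟩)] at h3
      exact lt_irrefl _ h3
    · intro hx
      by_contra hx2
      have h3 := hP₂ x hx
      rw [← hμ, shv_eq a hs N S₁ hN h₁ q ν n₁ x (Finset.mem_sdiff.2 ⟨h₂ hx, hx2⟩)] at h3
      exact lt_irrefl _ h3
  subst hSS
  have hnn : n₁ = n₂ := by
    funext i
    by_cases hi : i ∈ S₁
    · have e1 := shv_S a N S₁ q ν n₁ i hi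
      have e2 := shv_S a N S₁ q ν n₂ i hi
      rw [hμ, e2] at e1
      have e3 : (n₂ i : ℚ) = n₁ i := by linarith
      exact_mod_cast e3.symm
    · rw [hn₁ i hi, hn₂ i hi]
  subst hnn
  refine ⟨rfl, rfl, ?_⟩
  funext x
  by_cases hx : x ∈ N \ S₁
  · have hxS : x ∉ S₁ := (Finset.mem_sdiff.1 hx).2
    by_cases hmx : m x = 0
    · have e1 : m₁ x = 0 := by
        by_contra h
        exact (hR₁.1 x).2 (Or.inr h) hmx
      have e2 : m₂ x = 0 := by
        by_contra h
        exact (hR₂.1 x).2 (Or.inr h) hmx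
      rw [e1, e2]
    · have e1 : m₁ x ≠ 0 := by
        rcases (hR₁.1 x).1 hmx with h | h
        · exact absurd h hxS
        · exact h
      have e2 : m₂ x ≠ 0 := by
        rcases (hR₂.1 x).1 hmx with h | h
        · exact absurd h hxS
        · exact h
      have e3 := (hl₁ x hx).resolve_left e1
      have e4 := (hl₂ x hx).resolve_left e2
      have e5 : (m₁ x : ℚ) = m₂ x := by rw [e3, e4]
      exact_mod_cast e5
  · rw [hm₁ x hx, hm₂ x hx]

/-- existence of the multiplicities of a term of the right hand side. -/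
theorem AH7_back (a : I → I → ℕ) (hs : ∀ i j, a i j = a j i) (N : Finset I) (hN : FinT a N)
    (q q' : I → ℚ) (hq : Rep a N q q') (S : Finset I) (hS : S ⊆ N) (μ q'' : I → ℚ) (n : I → ℤ)
    (hq'' : Rep a (N \ S) (fun i => q i + μ i) q'')
    (hpos : ∀ i, 0 ≤ μ i) (hμS : ∀ s ∈ S, μ s = (n s : ℚ) - q s)
    (m' : I → ℕ) (hm' : ∀ x, x ∉ N \ S → m' x = 0) (hPl : Plat (N \ S) q'' m') :
    ∃ m : I → ℕ, AH7_Rel q' μ S m' m := by
  classical
  have hq'pos := AH7_pos a hs N hN q' hq.1
  have hint : ∀ x, (x ∈ S ∨ m' x ≠ 0) → ((⌊q' x + μ x⌋₊ : ℕ) : ℚ) = q' x + μ x ∧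
      ⌊q' x + μ x⌋₊ ≠ 0 := by
    intro x hx
    have hxN : x ∈ N := by
      rcases hx with h | h
      · exact hS h
      · by_contra h2
        exact h (hm' x (fun h3 => h2 (Finset.mem_sdiff.1 h3).1))
    have hZ : IsZ (q' x + μ x) := by
      by_cases hxS : x ∈ S
      · have h1 := hq.2 x hxN
        rw [hμS x hxS]
        have h2 : q' x + ((n x : ℚ) - q x) = (q' x - q x) + n x := by ring
        rw [h2]
        exact AH7_IsZ_add h1 ⟨n x, rfl⟩
      · have h0 : m' x ≠ 0 := hx.resolve_left hxS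
        have hx' : x ∈ N \ S := Finset.mem_sdiff.2 ⟨hxN, hxS⟩
        have h1 := hq.2 x hxN
        have h2 := hq''.2 x hx'
        have h3 := (hPl x hx').resolve_left h0
        have h4 : q' x + μ x = (q' x - q x) - (q'' x - (q x + μ x)) + q'' x := by ring
        rw [h4, ← h3]
        rw [← h3] at h2
        exact AH7_IsZ_add (AH7_IsZ_sub h1 h2) ⟨(m' x : ℤ), by push_cast; rfl⟩
    have hp : 0 < q' x + μ x := by
      have := hq'pos x hxN
      have := hpos x
      linarith
    obtain ⟨z, hz⟩ := hZ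
    have h5 : 0 < z := by
      rw [hz] at hp
      exact_mod_cast hp
    obtain ⟨w, hw⟩ := Int.eq_ofNat_of_zero_le h5.le
    have h6 : ((⌊q' x + μ x⌋₊ : ℕ) : ℚ) = q' x + μ x := by
      rw [hz, hw]
      simp
    refine ⟨h6, fun h => ?_⟩
    rw [← h6, h] at hp
    simp at hp
  refine ⟨fun x => if x ∈ S ∨ m' x ≠ 0 then ⌊q' x + μ x⌋₊ else 0, ?_, ?_⟩
  · intro x
    beta_reduce
    constructor
    · intro h
      by_contra h2
      exact h (if_neg h2)
    · intro h
      rw [if_pos h]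
      exact (hint x h).2
  · intro x hx
    beta_reduce at hx ⊢
    by_cases h : x ∈ S ∨ m' x ≠ 0
    · rw [if_pos h]
      exact (hint x h).1
    · exact absurd (if_neg h) hx

omit [Fintype I] [DecidableEq I] in
theorem AH7_Rel_uniq (q' μ : I → ℚ) (S : Finset I) (m' m₁ m₂ : I → ℕ)
    (h₁ : AH7_Rel q' μ S m' m₁) (h₂ : AH7_Rel q' μ S m' m₂) : m₁ = m₂ := by
  funext x
  by_cases h : m₁ x = 0
  · have h3 : m₂ x = 0 := by
      by_contra h4
      exact (h₁.1 x).2 ((h₂.1 x).1 h4) h
    rw [h, h3]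
  · have h3 : m₂ x ≠ 0 := (h₂.1 x).2 ((h₁.1 x).1 h)
    have h4 : (m₁ x : ℚ) = m₂ x := by rw [h₁.2 x h, h₂.2 x h3]
    exact_mod_cast h4

theorem AH7_mem_mbox (R : Finset I) (B : ℕ) (m : I → ℕ) :
    m ∈ mbox R B ↔ (∀ x ∈ R, m x ≤ B) ∧ ∀ x, x ∉ R → m x = 0 := by
  unfold mbox
  rw [Fintype.mem_piFinset]
  constructor
  · intro h
    refine ⟨fun x hx => ?_, fun x hx => ?_⟩
    · have h1 := h x
      rw [if_pos hx, Finset.mem_range] at h1
      omega
    · have h1 := h x
      rw [if_neg hx, Finset.mem_singleton] at h1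
      exact h1
  · rintro ⟨h1, h2⟩ x
    by_cases hx : x ∈ R
    · rw [if_pos hx, Finset.mem_range]
      have := h1 x hx
      omega
    · rw [if_neg hx, Finset.mem_singleton]
      exact h2 x hx

theorem AH7_rbox_off (S : Finset I) (k : ℕ) (γ q : I → ℚ) (n : I → ℤ) (hn : n ∈ rbox S k γ q) :
    ∀ i, i ∉ S → n i = 0 := by
  intro i hi
  unfold rbox at hn
  rw [Fintype.mem_piFinset] at hn
  have h1 := hn i
  rw [if_neg hi, Finset.mem_singleton] at h1
  exact h1

open Classical in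
/-- The restart lemma. -/
theorem restart (a : I → I → ℕ) (hs : ∀ i j, a i j = a j i) (N : Finset I) (hN : FinT a N)
    (k : ℕ) (hk : 1 ≤ k) (q q' : I → ℚ) (hq : Rep a N q q') (T : Trm I) (hT : RReg N T) :
    TV a (tauT a N k q' T) =
      ∑ S ∈ N.powerset, ∑ n ∈ (rbox S k T.γ q).filter
          (fun n => ∀ s ∈ S, T.E (s, k) < cqN a N (shv a N S q (fun x => T.E (x, k)) n) s),
        PPc a (N \ S) k (fun i => q i + shv a N S q (fun x => T.E (x, k)) n i)
          (rsT a S k (shv a N S q (fun x => T.E (x, k)) n) T) := by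
  rw [TV_step a hs N hN k hk q' hq.1 T hT (bnd N k q' T) le_rfl]
  unfold PPc PPv
  rw [Finset.sum_sigma', Finset.sum_sigma']
  symm
  -- facts about the shift vectors
  have hν : ∀ x ∈ N, 0 ≤ T.E (x, k) := by
    intro x hx
    obtain ⟨n, hn⟩ := hT.nat x hx k hk
    rw [hn]
    exact Nat.cast_nonneg n
  have hνZ : ∀ x ∈ N, IsZ (T.E (x, k)) := by
    intro x hx
    obtain ⟨n, hn⟩ := hT.nat x hx k hk
    exact ⟨(n : ℤ), by rw [hn]; push_cast; rfl⟩
  have hrp : ∀ S ⊆ N, ∀ n : I → ℤ,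
      Rep a (N \ S) (fun i => q i + shv a N S q (fun x => T.E (x, k)) n i)
        (rp a (N \ S) (fun i => q i + shv a N S q (fun x => T.E (x, k)) n i)) := by
    intro S hS n
    exact rp_spec a hs (N \ S) (hN.mono Finset.sdiff_subset) _
      (shv_wt a hs N S hN hS q (fun x => T.E (x, k)) (AH7_wt a N q q' hq) hνZ n)
  have hterm : ∀ (S : Finset I) (n : I → ℤ) (m' m : I → ℕ), S ⊆ N →
      (∀ s ∈ S, T.E (s, k) < cqN a N (shv a N S q (fun x => T.E (x, k)) n) s) →
      (∀ x, x ∉ N \ S → m' x = 0) →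
      Plat (N \ S) (rp a (N \ S) (fun i => q i + shv a N S q (fun x => T.E (x, k)) n i)) m' →
      AH7_Rel q' (shv a N S q (fun x => T.E (x, k)) n) S m' m →
      sgm N m * TV a (rawT a N k q' m T) =
        sgm (N \ S) m' * TV a (rawT a (N \ S) k
          (rp a (N \ S) (fun i => q i + shv a N S q (fun x => T.E (x, k)) n i)) m'
            (rsT a S k (shv a N S q (fun x => T.E (x, k)) n) T)) := by
    intro S n m' m hS hP hm' hPl hR
    exact AH7_term a hs N hN k hk q q' hq T hT S hS _ _ (hrp S hS n)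
      (fun i hi => shv_off a N S hS q _ n i hi)
      (shv_nonneg a hs N S hN hS q _ hν n hP).1
      (fun x hx => shv_eq a hs N S hN hS q _ n x hx) m m' hm' hPl hR
  refine AH7_sum_rel _ _ _ _ (fun t m =>
    AH7_Rel q' (shv a N t.1.1 q (fun x => T.E (x, k)) t.1.2) t.1.1 t.2 m) ?_ ?_ ?_ ?_ ?_
  · rintro ⟨⟨S, n⟩, m'⟩ ht hne
    simp only [Finset.mem_sigma, Finset.mem_powerset, Finset.mem_filter] at ht hne ⊢
    obtain ⟨⟨hS, hn, hP⟩, hm', hPl⟩ := ht
    rw [AH7_mem_mbox] at hm'
    obtain ⟨m, hR⟩ := AH7_back a hs N hN q q' hq S hS _ _ n (hrp S hS n)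
      (shv_nonneg a hs N S hN hS q _ hν n hP).1 (fun s hs' => shv_S a N S q _ n s hs') m' hm'.2 hPl
    have he := hterm S n m' m hS hP hm'.2 hPl hR
    refine ⟨m, ?_, hR⟩
    rw [AH7_mem_mbox]
    constructor
    · intro x hx
      by_contra hlt
      push Not at hlt
      apply hne
      rw [← he, rawT_zero_of_large a N k hk q' m T x hx hlt, mul_zero]
    · intro x hx
      by_contra h
      rcases (hR.1 x).1 h with h1 | h1
      · exact hx (hS h1)
      · exact h1 (hm'.2 x (fun h2 => hx (Finset.mem_sdiff.1 h2).1))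
  · intro m hm hne
    rw [AH7_mem_mbox] at hm
    obtain ⟨S, n, m', hS, hn, hP, hm', hPl, hR⟩ := AH7_ex a hs N hN k hk q q' hq T hT m hm.2
      (fun h => hne (by rw [h, mul_zero]))
    have he := hterm S n m' m hS hP hm' hPl hR
    refine ⟨⟨⟨S, n⟩, m'⟩, ?_, hR⟩
    simp only [Finset.mem_sigma, Finset.mem_powerset, Finset.mem_filter]
    refine ⟨⟨hS, hn, hP⟩, ?_, hPl⟩
    rw [AH7_mem_mbox]
    refine ⟨fun x hx => ?_, hm'⟩
    by_contra hlt
    push Not at hlt
    apply hne
    rw [he, rawT_zero_of_large a (N \ S) k hk _ m' _ x hx hlt, mul_zero]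
  · rintro ⟨⟨S, n⟩, m'⟩ ht m hm hR
    simp only [Finset.mem_sigma, Finset.mem_powerset, Finset.mem_filter] at ht hR ⊢
    obtain ⟨⟨hS, hn, hP⟩, hm', hPl⟩ := ht
    rw [AH7_mem_mbox] at hm'
    exact (hterm S n m' m hS hP hm'.2 hPl hR).symm
  · intro t ht m hm m₂ hm₂ hR hR₂
    exact AH7_Rel_uniq q' _ _ _ m m₂ hR hR₂
  · rintro ⟨⟨S₁, n₁⟩, m₁⟩ ht₁ ⟨⟨S₂, n₂⟩, m₂⟩ ht₂ m hm hR₁ hR₂
    simp only [Finset.mem_sigma, Finset.mem_powerset, Finset.mem_filter] at ht₁ ht₂ hR₁ hR₂
    obtain ⟨⟨hS₁, hn₁, hP₁⟩, hm₁, hPl₁⟩ := ht₁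
    obtain ⟨⟨hS₂, hn₂, hP₂⟩, hm₂, hPl₂⟩ := ht₂
    rw [AH7_mem_mbox] at hm₁ hm₂
    obtain ⟨e1, e2, e3⟩ := AH7_uniq a hs N hN k q q' hq T m S₁ S₂ n₁ n₂ m₁ m₂ hS₁ hS₂
      (AH7_rbox_off _ _ _ _ _ hn₁) (AH7_rbox_off _ _ _ _ _ hn₂) hP₁ hP₂ hm₁.2 hm₂.2 hPl₁ hPl₂
      hR₁ hR₂
    subst e1
    subst e2
    subst e3
    rfl

end

end Pool.Agent.H46.AH

end

section

/-!
KAC ADE, module AH8: plateau functionals: class independence, elimination of columns.

* `PPv_congr`: `PPv a N k q T = PPv a N k q'' T` for two admissible representatives of the same class, `RRegK`: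
  termwise (`m` is `0` or `q` on every vertex; the set `S0` of vertices with `m ≠ 0` consists of vertices with integral `q`;
  the terms for `q` and `q''` have the same columns and differ by `∏ η^{integral}` over the quiet vertices: `TV_rep`).
* `PPv_elim`: column `j ∉ N` may be changed by a combination of `cE a y k`, `y ∈ N`: for the term with `m`: if `m y = 0` use
  `TV_T0` on the quiet set, if `m y ≠ 0` the column equals the column of `y` (`TV_alt`).
-/

set_option autoImplicit false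

namespace Pool.Agent.H46.AH

open scoped BigOperators
open Pool.Agent.H27.KAC Pool.Agent.H40.KADE

section

variable {I : Type} [Fintype I] [DecidableEq I]

private theorem ah8_qpos {a : I → I → ℕ} (hs : ∀ i j, a i j = a j i) {N : Finset I}
    (hN : FinT a N) {q : I → ℚ} (hq : QOk a N q) : ∀ x ∈ N, 0 < q x := by
  intro x hx
  rw [← solN_cqN hs hN q x hx]
  obtain ⟨n, hn, hn'⟩ := hq x hx
  refine solN_pos_self hs hN _ (fun i hi => ?_) x hx ?_
  · obtain ⟨n, -, hn'⟩ := hq i hi
    rw [hn']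
    positivity
  · rw [hn']
    have : (1 : ℚ) ≤ n := by exact_mod_cast hn
    linarith

/-- the contribution of a plateau. -/
private theorem ah8_cq (a : I → I → ℕ) (N : Finset I) (q : I → ℚ) (m : I → ℕ)
    (hm : Plat N q m) (x : I) :
    cqN a N (fun i => (m i : ℚ) - q i) x = -cqN a (N.filter (fun x => m x = 0)) q x := by
  unfold cqN
  rw [AE8_split N m, ← Finset.sum_neg_distrib]
  have h1 : ∑ y ∈ N.filter (fun x => ¬ m x = 0), (cart a x y : ℚ) * ((m y : ℚ) - q y) = 0 := by
    refine Finset.sum_eq_zero fun y hy => ?_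
    rw [Finset.mem_filter] at hy
    rcases hm y hy.1 with h | h
    · exact absurd h hy.2
    · rw [h, sub_self, mul_zero]
  rw [h1, add_zero]
  refine Finset.sum_congr rfl fun y hy => ?_
  rw [Finset.mem_filter] at hy
  change (cart a x y : ℚ) * ((m y : ℚ) - q y) = -((cart a x y : ℚ) * q y)
  rw [hy.2]
  push_cast
  ring

private theorem ah8_one_le {a : I → I → ℕ} (hs : ∀ i j, a i j = a j i) {N : Finset I}
    (hN : FinT a N) {q : I → ℚ} (hq : QOk a N q) (m : I → ℕ) (x : I)
    (hx : x ∈ N.filter (fun x => m x = 0)) :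
    1 ≤ cqN a (N.filter (fun x => m x = 0)) q x := by
  rw [Finset.mem_filter] at hx
  obtain ⟨n, hn, hn'⟩ := hq x hx.1
  have hpos := ah8_qpos hs hN hq
  have h1 : cqN a N q x = cqN a (N.filter (fun x => m x = 0)) q x +
      ∑ y ∈ N.filter (fun x => ¬ m x = 0), (cart a x y : ℚ) * q y := by
    unfold cqN
    rw [AE8_split N m]
  have h2 : ∑ y ∈ N.filter (fun x => ¬ m x = 0), (cart a x y : ℚ) * q y ≤ 0 := by
    refine Finset.sum_nonpos fun y hy => ?_
    rw [Finset.mem_filter] at hy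
    rw [AE8_cart_ne a (fun h => hy.2 (h ▸ hx.2) : x ≠ y)]
    have h3 := (hpos y hy.1).le
    have h4 : (0 : ℚ) ≤ a x y := Nat.cast_nonneg _
    nlinarith
  have h3 : (1 : ℚ) ≤ n := by exact_mod_cast hn
  rw [hn'] at h1
  linarith

private theorem ah8_E (a : I → I → ℕ) (hs : ∀ i j, a i j = a j i) (N : Finset I)
    (k : ℕ) (q : I → ℚ) (m : I → ℕ) (hm : Plat N q m) (T : Trm I) (x : I) :
    (rawT a N k q m T).E (x, k) =
      T.E (x, k) + cqN a (N.filter (fun x => m x = 0)) q x := by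
  rw [AE8_rawE a hs, if_pos rfl, ah8_cq a N q m hm]
  ring

private theorem ah8_FReg (a : I → I → ℕ) (hs : ∀ i j, a i j = a j i) (N : Finset I)
    (k : ℕ) (hk : 1 ≤ k) (q : I → ℚ) (hq : QOk a N q) (T : Trm I) (hT : RRegK N k T)
    (m : I → ℕ) (x : I) (hx : x ∈ N) (T' : Trm I) (hE : T'.E = (rawT a N k q m T).E)
    (hΛ : ∀ j, T'.Λ j = (rawT a N k q m T).Λ j ∨ ∃ y, T'.Λ j = cE a y k) :
    FReg T' x k (k - 1) := by
  have hEl : ∀ l, l ≠ k → T'.E (x, l) = T.E (x, l) := by
    intro l hl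
    rw [hE, AE8_rawE a hs, if_neg hl, sub_zero]
  refine ⟨fun l hl hlk => ?_, ?_, fun j l hl hne => ?_⟩
  · rw [hEl l hlk]
    exact hT.nat x hx l hl
  · rw [hE, AE8_rawE a hs, if_pos rfl, AE8_cqN_sub, AE8_cqN_int]
    obtain ⟨n, hn⟩ := hT.nat x hx k hk
    obtain ⟨n', -, hn'⟩ := hq x hx
    rw [hn, hn']
    exact ⟨(n : ℤ) - (∑ y ∈ N, cart a x y * (m y : ℤ) - n'), by push_cast; ring⟩
  · rcases hΛ j with h | ⟨y, h⟩
    · rw [h, AE8_raw_col] at hne
      by_cases hj : j ∈ N
      · rw [if_pos hj] at hne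
        by_cases hmj : m j = 0
        · rw [if_pos hmj] at hne
          left
          by_contra hc
          apply hne
          rw [sy, Finsupp.single_apply, if_neg]
          intro h'
          exact hc (congrArg Prod.snd h').symm
        · rw [if_neg hmj] at hne
          right; left
          by_contra hc
          exact hne (AE8_cE_ne a j x hc)
      · rw [if_neg hj] at hne
        by_cases hlk : l = k
        · exact Or.inr (Or.inl hlk)
        · rcases hT.col x hx j hj l hl hne with h' | h'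
          · exact absurd h' hlk
          · right; right
            rw [hEl l hlk]
            exact h'
    · rw [h] at hne
      right; left
      by_contra hc
      exact hne (AE8_cE_ne a y x hc)

private theorem ah8_pos (a : I → I → ℕ) (hs : ∀ i j, a i j = a j i) (N : Finset I)
    (hN : FinT a N) (k : ℕ) (hk : 1 ≤ k) (q : I → ℚ) (hq : QOk a N q) (T : Trm I)
    (hT : RRegK N k T) (m : I → ℕ) (hm : Plat N q m) (T' : Trm I)
    (hE : T'.E = (rawT a N k q m T).E) (x : I) (hx : x ∈ N.filter (fun x => m x = 0)) :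
    0 < T'.E (x, k) := by
  rw [hE, ah8_E a hs N k q m hm T x]
  have h1 := ah8_one_le hs hN hq m x hx
  obtain ⟨n, hn⟩ := hT.nat x (Finset.mem_filter.1 hx).1 k hk
  rw [hn]
  have : (0 : ℚ) ≤ n := Nat.cast_nonneg _
  linarith

theorem PPv_elim (a : I → I → ℕ) (hs : ∀ i j, a i j = a j i) (N : Finset I) (hN : FinT a N)
    (k : ℕ) (hk : 1 ≤ k) (q : I → ℚ) (hq : QOk a N q) (T : Trm I) (hT : RRegK N k T)
    (j : I) (hj : j ∉ N) (c : QE I) (v : I → ℚ)
    (hc : ∀ x ∈ N, ∀ l, 1 ≤ l → c (x, l) ≠ 0 → l = k ∨ 1 ≤ T.E (x, l)) :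
    PPv a N k q (T.col j (c + ∑ y ∈ N, v y • cE a y k)) = PPv a N k q (T.col j c) := by
  classical
  clear hc
  have hcol : ∀ (m : I → ℕ) (d : QE I),
      rawT a N k q m (T.col j d) = (rawT a N k q m T).col j d := by
    intro m d
    ext1
    · rfl
    · rfl
    · funext i
      change (if i ∈ N then (if m i = 0 then sy i (k - 1) else cE a i k) else
          Function.update T.Λ j d i) =
        Function.update (fun i => if i ∈ N then (if m i = 0 then sy i (k - 1) else cE a i k)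
          else T.Λ i) j d i
      by_cases hij : i = j
      · subst hij
        rw [if_neg hj, Function.update_self, Function.update_self]
      · rw [Function.update_of_ne hij, Function.update_of_ne hij]
  unfold PPv
  have hb : ∀ d : QE I, bnd N k q (T.col j d) = bnd N k q T := fun d => rfl
  rw [hb, hb]
  refine Finset.sum_congr rfl fun m hm => ?_
  have hpl : Plat N q m := (Finset.mem_filter.1 hm).2
  congr 1
  rw [hcol, hcol, TV_col_add, TV_col_sum]
  have h0 : ∑ y ∈ N, TV a ((rawT a N k q m T).col j (v y • cE a y k)) = 0 := by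
    refine Finset.sum_eq_zero fun y hy => ?_
    rw [TV_col_smul]
    have h1 : TV a ((rawT a N k q m T).col j (cE a y k)) = 0 := by
      by_cases hmy : m y = 0
      · have hsub : N.filter (fun x => m x = 0) ⊆ N := Finset.filter_subset _ _
        have hN' : FinT a (N.filter (fun x => m x = 0)) := hN.mono hsub
        have hbpos : ∀ x ∈ N.filter (fun x => m x = 0),
            0 < ((rawT a N k q m T).col j (cE a y k)).E (x, k) :=
          fun x hx => ah8_pos a hs N hN k hk q hq T hT m hpl _ rfl x hx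
        refine TV_T0 a hs (N.filter (fun x => m x = 0)) hN' (fun _ => k) (fun _ => k - 1)
          (fun _ _ => hk) (fun _ _ _ _ _ => rfl) (fun _ _ => Or.inr (by omega)) _ ?_ ?_ y
          (Finset.mem_filter.2 ⟨hy, hmy⟩) j ?_
        · intro x hx
          refine ah8_FReg a hs N k hk q hq T hT m x (hsub hx) _ rfl (fun i => ?_)
          by_cases hij : i = j
          · subst hij
            exact Or.inr ⟨y, Function.update_self _ _ _⟩
          · exact Or.inl (Function.update_of_ne hij _ _)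
        · intro x hx
          exact solN_pos_self hs hN' _ (fun i hi => (hbpos i hi).le) x hx (hbpos x hx)
        · exact Function.update_self _ _ _
      · have hyj : y ≠ j := fun h' => hj (h' ▸ hy)
        refine TV_alt a _ y j hyj ?_
        have e1 : ((rawT a N k q m T).col j (cE a y k)).Λ j = cE a y k :=
          Function.update_self _ _ _
        have e2 : ((rawT a N k q m T).col j (cE a y k)).Λ y = (rawT a N k q m T).Λ y :=
          Function.update_of_ne hyj _ _
        rw [e1, e2, AE8_raw_col, if_pos hy, if_neg hmy]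
    rw [h1, mul_zero]
  rw [h0, add_zero]

end

end Pool.Agent.H46.AH

end

section

/-!
KAC ADE, module AH10: elimination of the symbols `(x,k)`, `x ∈ K`, from the columns (bookkeeping; `Trm.ext`,
`Finsupp.ext`, linear algebra of AE1, `cE_apply`, `rsT_E` of AH6).

`elC_cE`: both sides are combinations of symbols of level `k`; the vector `ext a K (uv j)` is `uv j + ∑ v_y uv y` with
`v = solN a K (-C_{·j})`.
`PPv_elT`: `PPv_elim` (AH8) for one column after the other.
-/

set_option autoImplicit false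

namespace Pool.Agent.H46.AH

open scoped BigOperators
open Pool.Agent.H27.KAC Pool.Agent.H40.KADE

section

variable {I : Type} [Fintype I] [DecidableEq I]

/-- elimination of the symbols `(x,k)`, `x ∈ K`, from a column. -/
noncomputable def elC (a : I → I → ℕ) (K : Finset I) (k : ℕ) (c : QE I) : QE I :=
  c + ∑ y ∈ K, solN a K (fun x => -c (x, k)) y • cE a y k

/-- elimination in all columns outside of `K`; the columns of `K` are set to zero. -/
noncomputable def elT (a : I → I → ℕ) (K : Finset I) (k : ℕ) (T : Trm I) : Trm I :=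
  ⟨T.γ, T.E, fun j => if j ∈ K then 0 else elC a K k (T.Λ j)⟩

theorem ah10_cqN_nonadj (a : I → I → ℕ) (K : Finset I) (v : I → ℚ) (i : I)
    (h : ∀ y ∈ K, cart a i y = 0) : cqN a K v i = 0 := by
  unfold cqN
  refine Finset.sum_eq_zero fun y hy => ?_
  rw [h y hy]
  push_cast
  ring

theorem ah10_cart_sep (a : I → I → ℕ) {i j : I} (hij : i ≠ j) (h : a i j = 0) :
    cart a i j = 0 := by
  unfold cart
  rw [if_neg hij, h]
  rfl

theorem ah10_sep_left {a : I → I → ℕ} {A B : Finset I} (h : Sep a A B) {x y : I} (hx : x ∈ A)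
    (hy : y ∈ B) : cart a x y = 0 := by
  refine ah10_cart_sep a (fun e => ?_) (h.2 x hx y hy)
  exact Finset.disjoint_left.1 h.1 hx (e ▸ hy)

theorem ah10_sep_right {a : I → I → ℕ} (hs : ∀ i j, a i j = a j i) {A B : Finset I}
    (h : Sep a A B) {x y : I} (hx : x ∈ A) (hy : y ∈ B) : cart a y x = 0 := by
  rw [cart_symm a hs]
  exact ah10_sep_left h hx hy

theorem ah10_sum_cE (a : I → I → ℕ) (hs : ∀ i j, a i j = a j i) (K : Finset I) (k : ℕ)
    (v : I → ℚ) (i : I) (l : ℕ) :
    (∑ y ∈ K, v y • cE a y k) (i, l) = if l = k then cqN a K v i else 0 := by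
  rw [Finsupp.finsetSum_apply]
  by_cases hl : l = k
  · rw [if_pos hl]
    unfold cqN
    refine Finset.sum_congr rfl fun y _ => ?_
    rw [Finsupp.smul_apply, cE_apply, if_pos hl, smul_eq_mul, cart_symm a hs y i, mul_comm]
  · rw [if_neg hl]
    refine Finset.sum_eq_zero fun y _ => ?_
    rw [Finsupp.smul_apply, cE_apply, if_neg hl, smul_zero]

theorem ah10_elC_apply (a : I → I → ℕ) (hs : ∀ i j, a i j = a j i) (K : Finset I) (k : ℕ)
    (c : QE I) (i : I) (l : ℕ) :
    elC a K k c (i, l) =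
      c (i, l) + if l = k then cqN a K (solN a K (fun x => -c (x, k))) i else 0 := by
  unfold elC
  rw [Finsupp.add_apply, ah10_sum_cE a hs]

theorem ah10_solN_zero {a : I → I → ℕ} (hs : ∀ i j, a i j = a j i) {K : Finset I}
    (hK : FinT a K) (b : I → ℚ) (hb : ∀ x ∈ K, b x = 0) (i : I) : solN a K b i = 0 := by
  have h1 : solN a K b = solN a K (fun x => 0 * b x) :=
    solN_congr hs hK _ _ (fun x hx => by rw [hb x hx, mul_zero])
  rw [h1, solN_smul hs hK, zero_mul]

theorem ah10_elC_sep (a : I → I → ℕ) (hs : ∀ i j, a i j = a j i) (K : Finset I) (k : ℕ)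
    (c : QE I) (i : I) (h : ∀ y ∈ K, cart a i y = 0) (l : ℕ) :
    elC a K k c (i, l) = c (i, l) := by
  rw [ah10_elC_apply a hs, ah10_cqN_nonadj a K _ i h]
  split_ifs
  · rw [add_zero]
  · rw [add_zero]

theorem ah10_elT_Λ (a : I → I → ℕ) (K : Finset I) (k : ℕ) (T : Trm I) (j : I) :
    (elT a K k T).Λ j = if j ∈ K then 0 else elC a K k (T.Λ j) := rfl

theorem ah10_patT_Λ (a : I → I → ℕ) (B : Finset I) (π : Pat I) (T : Trm I) (j : I) :
    (patT a B π T).Λ j = if j ∈ B then sy j (π.s j + 1) else T.Λ j := rfl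

theorem ah10_rsT_Λ (a : I → I → ℕ) (S : Finset I) (k : ℕ) (μ : I → ℚ) (T : Trm I) (j : I) :
    (rsT a S k μ T).Λ j = if j ∈ S then cE a j k else T.Λ j := rfl

theorem elC_zero (a : I → I → ℕ) (hs : ∀ i j, a i j = a j i) (K : Finset I) (hK : FinT a K)
    (k : ℕ) : elC a K k 0 = 0 := by
  unfold elC
  rw [zero_add]
  refine Finset.sum_eq_zero fun y _ => ?_
  rw [ah10_solN_zero hs hK _ (fun x _ => by rw [Finsupp.zero_apply, neg_zero]), zero_smul]

theorem elC_add (a : I → I → ℕ) (hs : ∀ i j, a i j = a j i) (K : Finset I) (hK : FinT a K)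
    (k : ℕ) (c d : QE I) : elC a K k (c + d) = elC a K k c + elC a K k d := by
  unfold elC
  have h1 : ∀ y, solN a K (fun x => -(c + d) (x, k)) y =
      solN a K (fun x => -c (x, k)) y + solN a K (fun x => -d (x, k)) y := by
    intro y
    rw [← solN_add hs hK]
    congr 1
    funext x
    rw [Finsupp.add_apply, neg_add]
  rw [Finset.sum_congr rfl fun y _ => by rw [h1 y, add_smul], Finset.sum_add_distrib]
  abel

theorem elC_smul (a : I → I → ℕ) (hs : ∀ i j, a i j = a j i) (K : Finset I) (hK : FinT a K)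
    (k : ℕ) (r : ℚ) (c : QE I) : elC a K k (r • c) = r • elC a K k c := by
  unfold elC
  have h1 : ∀ y, solN a K (fun x => -(r • c) (x, k)) y =
      r * solN a K (fun x => -c (x, k)) y := by
    intro y
    rw [← solN_smul hs hK]
    congr 1
    funext x
    rw [Finsupp.smul_apply, smul_eq_mul, mul_neg]
  rw [Finset.sum_congr rfl fun y _ => by rw [h1 y, mul_smul], smul_add, Finset.smul_sum]

theorem elC_sum (a : I → I → ℕ) (hs : ∀ i j, a i j = a j i) (K : Finset I) (hK : FinT a K)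
    (k : ℕ) {ι : Type} (s : Finset ι) (c : ι → QE I) :
    elC a K k (∑ i ∈ s, c i) = ∑ i ∈ s, elC a K k (c i) := by
  classical
  induction s using Finset.induction_on with
  | empty => rw [Finset.sum_empty, Finset.sum_empty, elC_zero a hs K hK k]
  | insert i s hi ih => rw [Finset.sum_insert hi, Finset.sum_insert hi, elC_add a hs K hK k, ih]

theorem elC_apply_mem (a : I → I → ℕ) (hs : ∀ i j, a i j = a j i) (K : Finset I) (hK : FinT a K)
    (k : ℕ) (c : QE I) (x : I) (hx : x ∈ K) (l : ℕ) :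
    elC a K k c (x, l) = if l = k then 0 else c (x, l) := by
  rw [ah10_elC_apply a hs]
  by_cases hl : l = k
  · rw [if_pos hl, if_pos hl, solN_spec hs hK _ x hx, hl, add_neg_cancel]
  · rw [if_neg hl, if_neg hl, add_zero]

theorem elC_of_zero (a : I → I → ℕ) (hs : ∀ i j, a i j = a j i) (K : Finset I) (hK : FinT a K)
    (k : ℕ) (c : QE I) (h : ∀ x ∈ K, c (x, k) = 0) : elC a K k c = c := by
  unfold elC
  rw [Finset.sum_eq_zero, add_zero]
  intro y _
  rw [ah10_solN_zero hs hK _ (fun x hx => by rw [h x hx, neg_zero]), zero_smul]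

theorem elC_sy (a : I → I → ℕ) (hs : ∀ i j, a i j = a j i) (K : Finset I) (hK : FinT a K)
    (k : ℕ) (j : I) (hj : j ∉ K) (l : ℕ) : elC a K k (sy j l) = sy j l := by
  refine elC_of_zero a hs K hK k _ fun x hx => ?_
  rw [Finsupp.single_apply, if_neg]
  intro h
  have h1 : j = x := (Prod.ext_iff.1 h).1
  exact hj (h1 ▸ hx)

theorem elC_cE (a : I → I → ℕ) (hs : ∀ i j, a i j = a j i) (K : Finset I) (hK : FinT a K)
    (k : ℕ) (j : I) (hj : j ∉ K) :
    elC a K k (cE a j k) = ∑ l ∈ Finset.univ \ K, effC a K l j • sy l k := by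

  have huv : offW K (uv j) = uv j := by
    funext i
    unfold offW
    by_cases hi : i ∈ K
    · rw [if_pos hi]
      unfold uv
      rw [if_neg]
      rintro rfl
      exact hj hi
    · rw [if_neg hi]
  have hcu : ∀ x, cv a (uv j) x = ((cart a x j : ℤ) : ℚ) := by
    intro x
    unfold cv uv
    rw [Finset.sum_eq_single j]
    · rw [if_pos rfl, mul_one]
    · intro y _ hy
      rw [if_neg hy, mul_zero]
    · intro h
      exact absurd (Finset.mem_univ j) h
  refine Finsupp.ext fun il => ?_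
  obtain ⟨i, l⟩ := il
  rw [Finsupp.finsetSum_apply]
  have hR : ∀ l' ∈ Finset.univ \ K, (effC a K l' j • sy l' k) (i, l) =
      if l' = i then (if l = k then effC a K i j else 0) else 0 := by
    intro l' _
    rw [Finsupp.smul_apply, Finsupp.single_apply, smul_eq_mul]
    by_cases h1 : l' = i
    · subst h1
      rw [if_pos rfl]
      by_cases h2 : l = k
      · subst h2
        rw [if_pos rfl, if_pos rfl, mul_one]
      · rw [if_neg h2, if_neg (fun h => h2 (Prod.ext_iff.1 h).2.symm), mul_zero]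
    · rw [if_neg h1, if_neg (fun h => h1 (Prod.ext_iff.1 h).1), mul_zero]
  rw [Finset.sum_congr rfl hR, Finset.sum_ite_eq']
  by_cases hi : i ∈ K
  · rw [if_neg (fun h => (Finset.mem_sdiff.1 h).2 hi), elC_apply_mem a hs K hK k _ i hi]
    by_cases hl : l = k
    · rw [if_pos hl]
    · rw [if_neg hl, cE_apply, if_neg hl]
  · rw [if_pos (Finset.mem_sdiff.2 ⟨Finset.mem_univ i, hi⟩), ah10_elC_apply a hs, cE_apply]
    by_cases hl : l = k
    · rw [if_pos hl, if_pos hl, if_pos hl]
      unfold Pool.Agent.H40.KADE.effC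
      have h1 : ext a K (uv j) = fun i => uv j i + sol a K (fun x => -cv a (uv j) x) i := by
        funext i
        unfold ext
        rw [huv]
      rw [h1, cv_add, hcu, cart_symm a hs j i,
        cv_eq_cqN a K (sol a K (fun x => -cv a (uv j) x)) (fun x hx => sol_off a K _ x hx),
        sol_eq_solN a hs hK]
      congr 2
      refine solN_congr hs hK _ _ fun x _ => ?_
      rw [cE_apply, if_pos rfl, hcu, cart_symm a hs j x]
    · rw [if_neg hl, if_neg hl, if_neg hl, add_zero]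

/-- two nonadjacent sets. -/
theorem elC_union (a : I → I → ℕ) (hs : ∀ i j, a i j = a j i) (K K' : Finset I)
    (hK : FinT a (K ∪ K')) (hsep : Sep a K K') (k : ℕ) (c : QE I) :
    elC a (K ∪ K') k c = elC a K k (elC a K' k c) := by
  have hK1 : FinT a K := hK.mono Finset.subset_union_left
  have hK2 : FinT a K' := hK.mono Finset.subset_union_right
  have h1 : ∀ y ∈ K, solN a (K ∪ K') (fun x => -c (x, k)) y =
      solN a K (fun x => -(elC a K' k c) (x, k)) y := by
    intro y hy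
    rw [solN_component hs hK Finset.subset_union_left (fun i hi j hj hjK => ?_) _ y hy]
    · refine congrFun (solN_congr hs hK1 _ _ fun x hx => ?_) y
      rw [ah10_elC_sep a hs K' k c x (fun y hy => ah10_sep_left hsep hx hy)]
    · rcases Finset.mem_union.1 hj with h | h
      · exact absurd h hjK
      · exact hsep.2 i hi j h
  have h2 : ∀ y ∈ K', solN a (K ∪ K') (fun x => -c (x, k)) y =
      solN a K' (fun x => -c (x, k)) y := by
    intro y hy
    refine solN_component hs hK Finset.subset_union_right (fun i hi j hj hjK => ?_) _ y hy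
    rcases Finset.mem_union.1 hj with h | h
    · rw [hs]
      exact hsep.2 j h i hi
    · exact absurd h hjK
  have h3 : elC a K k (elC a K' k c) = elC a K' k c +
      ∑ y ∈ K, solN a K (fun x => -(elC a K' k c) (x, k)) y • cE a y k := rfl
  rw [h3]
  have h4 : elC a K' k c = c + ∑ y ∈ K', solN a K' (fun x => -c (x, k)) y • cE a y k := rfl
  have h5 : elC a (K ∪ K') k c =
      c + ∑ y ∈ K ∪ K', solN a (K ∪ K') (fun x => -c (x, k)) y • cE a y k := rfl
  rw [h5, Finset.sum_union hsep.1, Finset.sum_congr rfl (fun y hy => by rw [h1 y hy]),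
    Finset.sum_congr (s₁ := K') rfl (fun y hy => by rw [h2 y hy])]
  conv_rhs => rw [add_comm, h4]
  rw [← h4]
  rw [h4]
  abel

theorem elT_union (a : I → I → ℕ) (hs : ∀ i j, a i j = a j i) (K K' : Finset I)
    (hK : FinT a (K ∪ K')) (hsep : Sep a K K') (k : ℕ) (T : Trm I) :
    elT a (K ∪ K') k T = elT a K k (elT a K' k T) := by
  refine Trm.ext rfl rfl ?_
  funext j
  rw [ah10_elT_Λ, ah10_elT_Λ, ah10_elT_Λ]
  by_cases h1 : j ∈ K
  · rw [if_pos (Finset.mem_union_left _ h1), if_pos h1]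
  · by_cases h2 : j ∈ K'
    · rw [if_pos (Finset.mem_union_right _ h2), if_neg h1, if_pos h2,
        elC_zero a hs K (hK.mono Finset.subset_union_left) k]
    · rw [if_neg (fun h => (Finset.mem_union.1 h).elim h1 h2), if_neg h1, if_neg h2,
        elC_union a hs K K' hK hsep k]

theorem elT_empty (a : I → I → ℕ) (k : ℕ) (T : Trm I) : elT a ∅ k T = T := by
  refine Trm.ext rfl rfl ?_
  funext j
  rw [ah10_elT_Λ, if_neg (Finset.notMem_empty j)]
  unfold elC
  rw [Finset.sum_empty, add_zero]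

theorem RReg_elT (a : I → I → ℕ) (hs : ∀ i j, a i j = a j i) (K : Finset I) (hK : FinT a K)
    (k : ℕ) (T : Trm I) (hT : RRegK K k T) : RReg K (elT a K k T) := by
  refine ⟨hT.nat, fun x hx j hj l hl hne => ?_⟩
  rw [ah10_elT_Λ, if_neg hj, elC_apply_mem a hs K hK k _ x hx] at hne
  by_cases hlk : l = k
  · exact absurd (if_pos hlk) hne
  · rw [if_neg hlk] at hne
    exact (hT.col x hx j hj l hl hne).resolve_left hlk

/-- the plateau functional does not see the elimination. -/
theorem PPv_elT (a : I → I → ℕ) (hs : ∀ i j, a i j = a j i) (K : Finset I) (hK : FinT a K)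
    (k : ℕ) (hk : 1 ≤ k) (q : I → ℚ) (hq : QOk a K q) (T : Trm I) (hT : RRegK K k T) :
    PPv a K k q T = PPv a K k q (elT a K k T) := by
  classical
  -- the plateau functional does not see the columns of `K`
  have hcong : ∀ T1 T2 : Trm I, T1.γ = T2.γ → T1.E = T2.E → (∀ j, j ∉ K → T1.Λ j = T2.Λ j) →
      PPv a K k q T1 = PPv a K k q T2 := by
    intro T1 T2 h1 h2 h3
    have hr : ∀ m : I → ℕ, rawT a K k q m T1 = rawT a K k q m T2 := by
      intro m
      refine Trm.ext ?_ ?_ ?_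
      · show (fun i => T1.γ i - k * _) = (fun i => T2.γ i - k * _)
        rw [h1]
      · show T1.E - _ = T2.E - _
        rw [h2]
      · funext i
        rw [AE8_raw_col, AE8_raw_col]
        by_cases hi : i ∈ K
        · rw [if_pos hi, if_pos hi]
        · rw [if_neg hi, if_neg hi, h3 i hi]
    have hb : bnd K k q T1 = bnd K k q T2 := by
      unfold bnd
      rw [h1]
    unfold PPv
    rw [hb]
    exact Finset.sum_congr rfl fun m _ => by rw [hr m]
  -- one column after the other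
  let TS : Finset I → Trm I := fun S =>
    ⟨T.γ, T.E, fun j => if j ∈ S then elC a K k (T.Λ j) else T.Λ j⟩
  have hTS : ∀ S j, (TS S).Λ j = if j ∈ S then elC a K k (T.Λ j) else T.Λ j := fun _ _ => rfl
  have hreg : ∀ S : Finset I, RRegK K k (TS S) := by
    intro S
    refine ⟨hT.nat, fun x hx j hj l hl hne => ?_⟩
    rw [hTS] at hne
    by_cases hjS : j ∈ S
    · rw [if_pos hjS, elC_apply_mem a hs K hK k _ x hx] at hne
      by_cases hlk : l = k
      · exact Or.inl hlk
      · rw [if_neg hlk] at hne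
        exact hT.col x hx j hj l hl hne
    · rw [if_neg hjS] at hne
      exact hT.col x hx j hj l hl hne
  have hind : ∀ S : Finset I, (∀ j ∈ S, j ∉ K) → PPv a K k q (TS S) = PPv a K k q T := by
    intro S
    induction S using Finset.induction_on with
    | empty =>
      intro _
      refine hcong _ _ rfl rfl fun j _ => ?_
      rw [hTS, if_neg (Finset.notMem_empty j)]
    | insert j S hjS ih =>
      intro hS
      have hjK : j ∉ K := hS j (Finset.mem_insert_self j S)
      have e1 : TS (insert j S) = (TS S).col j (T.Λ j +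
          ∑ y ∈ K, solN a K (fun x => -(T.Λ j) (x, k)) y • cE a y k) := by
        refine Trm.ext rfl rfl ?_
        funext i
        rw [hTS]
        show _ = Function.update (TS S).Λ j _ i
        by_cases hij : i = j
        · subst hij
          rw [if_pos (Finset.mem_insert_self i S), Function.update_self]
          rfl
        · rw [Function.update_of_ne hij, hTS]
          by_cases hiS : i ∈ S
          · rw [if_pos hiS, if_pos (Finset.mem_insert_of_mem hiS)]
          · rw [if_neg hiS, if_neg (fun h => (Finset.mem_insert.1 h).elim hij hiS)]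
      have e2 : (TS S).col j (T.Λ j) = TS S := by
        refine Trm.ext rfl rfl ?_
        funext i
        show Function.update (TS S).Λ j _ i = _
        by_cases hij : i = j
        · subst hij
          rw [Function.update_self, hTS, if_neg hjS]
        · rw [Function.update_of_ne hij]
      rw [e1, PPv_elim a hs K hK k hk q hq (TS S) (hreg S) j hjK (T.Λ j) _
        (fun x hx l hl hne => hT.col x hx j hjK l hl hne), e2]
      exact ih fun i hi => hS i (Finset.mem_insert_of_mem hi)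
  rw [← hind (Finset.univ \ K) (fun j hj => (Finset.mem_sdiff.1 hj).2)]
  refine hcong _ _ rfl rfl fun j hj => ?_
  rw [hTS, if_pos (Finset.mem_sdiff.2 ⟨Finset.mem_univ j, hj⟩), ah10_elT_Λ, if_neg hj]

theorem elT_patT (a : I → I → ℕ) (hs : ∀ i j, a i j = a j i) (K B : Finset I) (hK : FinT a K)
    (hKB : Disjoint K B) (k : ℕ) (π : Pat I) (T : Trm I) :
    elT a K k (patT a B π T) = patT a B π (elT a K k T) := by
  refine Trm.ext rfl rfl ?_
  funext j
  rw [ah10_elT_Λ, ah10_patT_Λ, ah10_patT_Λ, ah10_elT_Λ]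
  by_cases h1 : j ∈ B
  · have h2 : j ∉ K := Finset.disjoint_right.1 hKB h1
    rw [if_pos h1, if_pos h1, if_neg h2, elC_sy a hs K hK k j h2]
  · rw [if_neg h1, if_neg h1]

theorem rsT_patT (a : I → I → ℕ) (S B : Finset I) (hSB : Disjoint S B) (k : ℕ) (μ : I → ℚ)
    (π : Pat I) (T : Trm I) : rsT a S k μ (patT a B π T) = patT a B π (rsT a S k μ T) := by
  refine Trm.ext ?_ ?_ ?_
  · funext i
    show T.γ i - (π.s i : ℚ) * -resQ B π.q i - k * μ i =
      T.γ i - k * μ i - (π.s i : ℚ) * -resQ B π.q i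
    ring
  · show T.E - (∑ x, (-resQ B π.q x) • cE a x (π.s x)) - (∑ x, μ x • cE a x k) =
      T.E - (∑ x, μ x • cE a x k) - (∑ x, (-resQ B π.q x) • cE a x (π.s x))
    exact sub_right_comm _ _ _
  · funext j
    rw [ah10_rsT_Λ, ah10_patT_Λ, ah10_patT_Λ, ah10_rsT_Λ]
    by_cases h1 : j ∈ B
    · rw [if_pos h1, if_pos h1, if_neg (Finset.disjoint_right.1 hSB h1)]
    · rw [if_neg h1, if_neg h1]

theorem rsT_union (a : I → I → ℕ) (S S' : Finset I) (k : ℕ) (μ μ' : I → ℚ) (T : Trm I) :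
    rsT a (S ∪ S') k (fun i => μ i + μ' i) T = rsT a S k μ (rsT a S' k μ' T) := by
  refine Trm.ext ?_ ?_ ?_
  · funext i
    show T.γ i - k * (μ i + μ' i) = T.γ i - k * μ' i - k * μ i
    ring
  · show T.E - (∑ x, (μ x + μ' x) • cE a x k) =
      T.E - (∑ x, μ' x • cE a x k) - (∑ x, μ x • cE a x k)
    rw [Finset.sum_congr rfl fun x _ => add_smul (μ x) (μ' x) (cE a x k), Finset.sum_add_distrib]
    abel
  · funext j
    rw [ah10_rsT_Λ, ah10_rsT_Λ, ah10_rsT_Λ]
    by_cases h1 : j ∈ S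
    · rw [if_pos (Finset.mem_union_left _ h1), if_pos h1]
    · by_cases h2 : j ∈ S'
      · rw [if_pos (Finset.mem_union_right _ h2), if_neg h1, if_pos h2]
      · rw [if_neg (fun h => (Finset.mem_union.1 h).elim h1 h2), if_neg h1, if_neg h2]

theorem rsT_elT (a : I → I → ℕ) (hs : ∀ i j, a i j = a j i) (S K : Finset I) (hK : FinT a K)
    (hsep : Sep a S K) (k : ℕ) (μ : I → ℚ) (T : Trm I) :
    rsT a S k μ (elT a K k T) = elT a K k (rsT a S k μ T) := by
  refine Trm.ext rfl rfl ?_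
  funext j
  rw [ah10_rsT_Λ, ah10_elT_Λ, ah10_elT_Λ, ah10_rsT_Λ]
  by_cases h1 : j ∈ S
  · have h2 : j ∉ K := Finset.disjoint_left.1 hsep.1 h1
    rw [if_pos h1, if_pos h1, if_neg h2, elC_of_zero a hs K hK k]
    intro x hx
    rw [cE_apply, if_pos rfl, ah10_sep_left hsep h1 hx]
    rfl
  · rw [if_neg h1, if_neg h1]

/-- a restart on `A` does not influence the separated set `B`. -/
theorem RReg_rs_sep (a : I → I → ℕ) (hs : ∀ i j, a i j = a j i) (A B S : Finset I)
    (hA : FinT a A) (hAB : Sep a A B) (hS : S ⊆ A) (k : ℕ) (μ : I → ℚ)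
    (hμ : ∀ i, i ∉ A → μ i = 0) (T : Trm I) (hT : RReg (A ∪ B) T) :
    RReg B (elT a (A \ S) k (rsT a S k μ T)) := by
  have hE : ∀ x ∈ B, ∀ l, (rsT a S k μ T).E (x, l) = T.E (x, l) := by
    intro x hx l
    rw [rsT_E a hs A S hS k μ hμ T x l,
      ah10_cqN_nonadj a A μ x (fun y hy => ah10_sep_right hs hAB hy hx)]
    split_ifs
    · rw [sub_zero]
    · rw [sub_zero]
  refine ⟨fun x hx l hl => ?_, fun x hx j hj l hl hne => ?_⟩
  · show IsN ((rsT a S k μ T).E (x, l))
    rw [hE x hx l]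
    exact hT.nat x (Finset.mem_union_right _ hx) l hl
  · show 1 ≤ (rsT a S k μ T).E (x, l)
    rw [hE x hx l]
    rw [ah10_elT_Λ] at hne
    by_cases h1 : j ∈ A \ S
    · rw [if_pos h1] at hne
      exact absurd rfl hne
    · rw [if_neg h1, ah10_elC_sep a hs (A \ S) k _ x
        (fun y hy => ah10_sep_right hs hAB (Finset.mem_sdiff.1 hy).1 hx), ah10_rsT_Λ] at hne
      by_cases h2 : j ∈ S
      · exfalso
        apply hne
        rw [if_pos h2, cE_apply, ah10_sep_left hAB (hS h2) hx]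
        split_ifs <;> rfl
      · rw [if_neg h2] at hne
        have h3 : j ∉ A ∪ B := by
          intro h
          rcases Finset.mem_union.1 h with h | h
          · exact h1 (Finset.mem_sdiff.2 ⟨h, h2⟩)
          · exact hj h
        exact hT.col x (Finset.mem_union_right _ hx) j h3 l hl hne

theorem E_rs_sep (a : I → I → ℕ) (hs : ∀ i j, a i j = a j i) (A B S : Finset I)
    (hAB : Sep a A B) (hS : S ⊆ A) (k : ℕ) (μ : I → ℚ)
    (hμ : ∀ i, i ∉ A → μ i = 0) (T : Trm I) (x : I) (hx : x ∈ B) (l : ℕ) :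
    (elT a (A \ S) k (rsT a S k μ T)).E (x, l) = T.E (x, l) ∧
      (elT a (A \ S) k (rsT a S k μ T)).γ x = T.γ x := by
  refine ⟨?_, ?_⟩
  · show (rsT a S k μ T).E (x, l) = T.E (x, l)
    rw [rsT_E a hs A S hS k μ hμ T x l,
      ah10_cqN_nonadj a A μ x (fun y hy => ah10_sep_right hs hAB hy hx)]
    split_ifs
    · rw [sub_zero]
    · rw [sub_zero]
  · show T.γ x - k * μ x = T.γ x
    rw [hμ x (Finset.disjoint_right.1 hAB.1 hx), mul_zero, sub_zero]

theorem E_patT_sep (a : I → I → ℕ) (hs : ∀ i j, a i j = a j i) (A B : Finset I)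
    (hAB : Sep a A B) (π : Pat I) (T : Trm I) (x : I) (hx : x ∈ A) (l : ℕ) :
    (patT a B π T).E (x, l) = T.E (x, l) ∧ (patT a B π T).γ x = T.γ x := by
  refine ⟨?_, ?_⟩
  · rw [patT_E, Finset.sum_eq_zero, add_zero]
    intro y hy
    rw [ah10_sep_right hs hAB hx (Finset.mem_filter.1 hy).1]
    push_cast
    ring
  · show T.γ x - (π.s x : ℚ) * -resQ B π.q x = T.γ x
    unfold resQ
    rw [if_neg (Finset.disjoint_left.1 hAB.1 hx), neg_zero, mul_zero, sub_zero]

end

end Pool.Agent.H46.AH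

end
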