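import Pool.Agent.H16.TKA.M13

/-! The parts of this file: H88.KA.CL1, H88.KA.CL2, H88.KA.CL3. -/

section

/-!
KAC ADE, classification: tools (pull back of positive definiteness, test vectors, numeric adjacency).
-/

set_option autoImplicit false

namespace Pool.H88.KA

open scoped BigOperators

theorem PD.comap {N K : Type} [Fintype N] [Fintype K] {a : N → N → ℕ} (h : PD a) (ψ : K → N)
    (hψ : Function.Injective ψ) : PD (fun i j => a (ψ i) (ψ j)) := by
  classical
  intro w hw
  obtain ⟨v, hv⟩ : ∃ v : N → ℤ, v = Function.extend ψ w (fun _ => 0) := ⟨_, rfl⟩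
  have hv1 : ∀ i, v (ψ i) = w i := fun i => by rw [hv]; exact hψ.extend_apply w _ i
  have hv2 : ∀ z, z ∉ Set.range ψ → v z = 0 := by
    intro z hz
    rw [hv]
    exact Function.extend_apply' w _ z (fun hc => hz hc)
  have hne : v ≠ 0 := by
    intro hc
    apply hw
    funext i
    rw [← hv1 i, hc]
    rfl
  have h1 := h v hne
  have h2 : ∀ x, ∑ y, (a x y : ℤ) * v y = ∑ j, (a x (ψ j) : ℤ) * w j := by
    intro x
    symm
    apply Fintype.sum_of_injective ψ hψ
    · intro z hz
      rw [hv2 z hz, mul_zero]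
    · intro j
      rw [hv1 j]
  have h3 : ∑ x, v x * cZ a v x = ∑ i, w i * cZ (fun i j => a (ψ i) (ψ j)) w i := by
    symm
    apply Fintype.sum_of_injective ψ hψ
    · intro z hz
      rw [hv2 z hz, zero_mul]
    · intro i
      unfold cZ
      rw [hv1 i, h2]
  rw [← h3]
  exact h1

/-- a nonnegative vector with `C w ≤ 0` on its support contradicts positive definiteness. -/
theorem PD.test {K : Type} [Fintype K] {a : K → K → ℕ} (h : PD a) (w : K → ℕ)
    (hne : ∃ i, w i ≠ 0) (hw : ∀ i, w i ≠ 0 → 2 * w i ≤ ∑ j, a i j * w j) : False := by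
  have h1 := h (fun i => (w i : ℤ)) (fun hc => by
    obtain ⟨i, hi⟩ := hne
    have := congrFun hc i
    simp only [Pi.zero_apply, Nat.cast_eq_zero] at this
    exact hi this)
  have h2 : ∑ x, (w x : ℤ) * cZ a (fun i => (w i : ℤ)) x ≤ 0 := by
    apply Finset.sum_nonpos
    intro x _
    by_cases hx : w x = 0
    · rw [hx]
      simp
    · have h3 := hw x hx
      have h4 : (2 * (w x : ℤ)) ≤ ∑ y, (a x y : ℤ) * (w y : ℤ) := by exact_mod_cast h3
      have h5 : cZ a (fun i => (w i : ℤ)) x ≤ 0 := by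
        unfold cZ
        linarith
      have h6 : (0 : ℤ) ≤ w x := Int.natCast_nonneg _
      nlinarith
  linarith

/-- numeric version of `TT`. -/
def TTn (n c p q : ℕ) : ℕ :=
  if (p + 1 = q ∧ q + 2 ≤ n) ∨ (q + 1 = p ∧ p + 2 ≤ n) ∨
    (p = c ∧ q + 1 = n ∧ p ≠ q) ∨ (q = c ∧ p + 1 = n ∧ p ≠ q) then 1 else 0

theorem TT_eq (n c : ℕ) (i j : Fin n) : TT n c i j = TTn n c i.1 j.1 := rfl

/-- neighbour sum at `p`. -/
def NB (n c : ℕ) (W : ℕ → ℕ) (p : ℕ) : ℕ :=
  if p + 1 = n then W c else
    (if 1 ≤ p then W (p - 1) else 0) + (if p + 3 ≤ n then W (p + 1) else 0) +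
      (if p = c then W (n - 1) else 0)

theorem TT_sumN (n c : ℕ) (hc : c + 2 ≤ n) (W : ℕ → ℕ) (i : Fin n) :
    ∑ j : Fin n, TTn n c i.1 j.1 * W j.1 = NB n c W i.1 := by
  have h1 := TT_sum n c hc (fun p => (W p : ℤ)) i
  have h2 : ((∑ j : Fin n, TTn n c i.1 j.1 * W j.1 : ℕ) : ℤ) = (NB n c W i.1 : ℤ) := by
    push_cast
    unfold NB
    push_cast
    exact h1
  exact_mod_cast h2

/-- adjacency after adding one vertex with index `n`, joined to `q` with `b q` edges. -/
def gb (n c : ℕ) (b : ℕ → ℕ) (p q : ℕ) : ℕ :=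
  if p = n then (if q = n then 0 else b q) else if q = n then b p else TTn n c p q

theorem gb_sum (n c : ℕ) (hc : c + 2 ≤ n) (b W : ℕ → ℕ) (p : ℕ) (hp : p < n) :
    ∑ q : Fin (n + 1), gb n c b p q.1 * W q.1 = NB n c W p + b p * W n := by
  rw [Fin.sum_univ_castSucc]
  congr 1
  · rw [← TT_sumN n c hc W ⟨p, hp⟩]
    refine Finset.sum_congr rfl fun q _ => ?_
    unfold gb
    have hq := q.2
    rw [if_neg (by omega), if_neg (by simp; omega)]
    rfl
  · unfold gb
    rw [if_neg (by omega), if_pos (by simp)]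
    simp

theorem gb_sum_last (n c : ℕ) (b W : ℕ → ℕ) :
    ∑ q : Fin (n + 1), gb n c b n q.1 * W q.1 = ∑ q ∈ Finset.range n, b q * W q := by
  rw [Fin.sum_univ_castSucc, ← Fin.sum_univ_eq_sum_range (fun q => b q * W q) n]
  have h1 : gb n c b n (Fin.last n).1 = 0 := by
    unfold gb
    simp
  rw [h1, zero_mul, add_zero]
  refine Finset.sum_congr rfl fun q _ => ?_
  unfold gb
  have hq := q.2
  rw [if_pos rfl, if_neg (by simp; omega)]
  rfl

/-- the test vector lemma in numeric form. -/
theorem gb_test (n c : ℕ) (hc : c + 2 ≤ n) (b : ℕ → ℕ)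
    (hpd : PD (fun i j : Fin (n + 1) => gb n c b i.1 j.1)) (W : ℕ → ℕ)
    (hne : ∃ p, p ≤ n ∧ W p ≠ 0) (h1 : ∀ p, p < n → W p ≠ 0 → 2 * W p ≤ NB n c W p + b p * W n)
    (h2 : W n ≠ 0 → 2 * W n ≤ ∑ q ∈ Finset.range n, b q * W q) : False := by
  apply hpd.test (fun i => W i.1)
  · obtain ⟨p, hp, hp'⟩ := hne
    exact ⟨⟨p, by omega⟩, hp'⟩
  · intro i hi
    have hi' := i.2
    rcases Nat.lt_or_ge i.1 n with h | h
    · rw [gb_sum n c hc b W i.1 h]
      exact h1 i.1 h hi
    · have h3 : i.1 = n := by omega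
      simp only [h3] at hi ⊢
      rw [gb_sum_last n c b W]
      exact h2 hi

theorem le_sum_one (n : ℕ) (f : ℕ → ℕ) (y : ℕ) (hy : y < n) : f y ≤ ∑ q ∈ Finset.range n, f q :=
  Finset.single_le_sum (f := f) (fun _ _ => Nat.zero_le _) (Finset.mem_range.2 hy)

theorem le_sum_two (n : ℕ) (f : ℕ → ℕ) (y y' : ℕ) (hy : y < n) (hy' : y' < n) (hne : y ≠ y') :
    f y + f y' ≤ ∑ q ∈ Finset.range n, f q := by
  rw [← Finset.sum_pair hne]
  apply Finset.sum_le_sum_of_subset
  intro z hz
  rw [Finset.mem_insert, Finset.mem_singleton] at hz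
  rw [Finset.mem_range]
  rcases hz with h | h <;> omega

end Pool.H88.KA

end

section

/-!
KAC ADE, classification: adding one vertex to a standard graph.
-/

set_option autoImplicit false

namespace Pool.H88.KA

open scoped BigOperators

/-- the two kinds: a path, or a branched standard graph. -/
def OkT (n c : ℕ) : Prop := (2 ≤ n ∧ c + 2 = n) ∨ (1 ≤ c ∧ c + 3 ≤ n)

section step

variable (n c : ℕ) (b : ℕ → ℕ)

theorem step_le_one (hc : c + 2 ≤ n) (hpd : PD (fun i j : Fin (n + 1) => gb n c b i.1 j.1))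
    (y : ℕ) (hy : y < n) : b y ≤ 1 := by
  by_contra hcon
  push Not at hcon
  obtain ⟨W, hW⟩ : ∃ W : ℕ → ℕ, ∀ p, W p = if p = y ∨ p = n then 1 else 0 := ⟨_, fun _ => rfl⟩
  have hWn : W n = 1 := by rw [hW, if_pos (Or.inr rfl)]
  have hWy : W y = 1 := by rw [hW, if_pos (Or.inl rfl)]
  apply gb_test n c hc b hpd W
  · exact ⟨n, le_rfl, by omega⟩
  · intro p hp hp'
    have h1 : p = y := by
      by_contra h
      apply hp'
      rw [hW, if_neg]
      omega
    subst h1
    rw [hWn, hWy]
    omega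
  · intro _
    rw [hWn]
    refine le_trans ?_ (le_sum_one n _ y hy)
    rw [hWy]
    omega

theorem step_unique (hc : c + 2 ≤ n) (hpd : PD (fun i j : Fin (n + 1) => gb n c b i.1 j.1))
    (y y' : ℕ) (hyy : y < y') (hy' : y' < n) (h1 : b y ≠ 0) (h2 : b y' ≠ 0) : False := by
  rcases Nat.lt_or_ge (y' + 1) n with hlt | hge
  · obtain ⟨W, hW⟩ : ∃ W : ℕ → ℕ, ∀ p, W p = if (y ≤ p ∧ p ≤ y') ∨ p = n then 1 else 0 :=
      ⟨_, fun _ => rfl⟩
    have hWn : W n = 1 := by rw [hW, if_pos (Or.inr rfl)]
    apply gb_test n c hc b hpd W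
    · exact ⟨n, le_rfl, by omega⟩
    · intro p hp hp'
      have h3 : y ≤ p ∧ p ≤ y' := by
        by_contra h
        apply hp'
        rw [hW, if_neg]
        omega
      rw [hWn]
      unfold NB
      rw [hW p, hW c, hW (p - 1), hW (p + 1), hW (n - 1)]
      rcases Nat.lt_or_ge y p with hp1 | hp1
      · rcases Nat.lt_or_ge p y' with hp2 | hp2
        · split_ifs <;> omega
        · have h5 : p = y' := by omega
          subst h5
          split_ifs <;> omega
      · have h5 : p = y := by omega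
        subst h5
        split_ifs <;> omega
    · intro _
      rw [hWn]
      refine le_trans ?_ (le_sum_two n _ y y' (by omega) hy' (by omega))
      rw [hW, hW, if_pos (by omega), if_pos (by omega)]
      omega
  · have hyn : y' + 1 = n := by omega
    obtain ⟨lo, hlo⟩ : ∃ lo, lo = min y c := ⟨_, rfl⟩
    obtain ⟨hi, hhi⟩ : ∃ hi, hi = max y c := ⟨_, rfl⟩
    obtain ⟨W, hW⟩ : ∃ W : ℕ → ℕ, ∀ p, W p =
      if (lo ≤ p ∧ p ≤ hi) ∨ p = n ∨ p + 1 = n then 1 else 0 := ⟨_, fun _ => rfl⟩
    have hWn : W n = 1 := by rw [hW, if_pos (Or.inr (Or.inl rfl))]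
    apply gb_test n c hc b hpd W
    · exact ⟨n, le_rfl, by omega⟩
    · intro p hp hp'
      have h3 : (lo ≤ p ∧ p ≤ hi) ∨ p + 1 = n := by
        by_contra h
        apply hp'
        rw [hW, if_neg]
        omega
      rw [hWn]
      unfold NB
      rw [hW p, hW c, hW (p - 1), hW (p + 1), hW (n - 1)]
      by_cases h5 : p + 1 = n
      · have h6 : p = y' := by omega
        subst h6
        split_ifs <;> omega
      · by_cases h7 : p = y
        · subst h7
          split_ifs <;> omega
        · split_ifs <;> omega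
    · intro _
      rw [hWn]
      refine le_trans ?_ (le_sum_two n _ y y' (by omega) hy' (by omega))
      rw [hW, hW, if_pos (by omega), if_pos (by omega)]
      omega

/-- a chain vertex which is not an end is not allowed for branched graphs. -/
theorem step_inner (hc1 : 1 ≤ c) (hc : c + 3 ≤ n)
    (hpd : PD (fun i j : Fin (n + 1) => gb n c b i.1 j.1))
    (y : ℕ) (hy1 : 1 ≤ y) (hy : y + 3 ≤ n) (h1 : b y ≠ 0) : False := by
  obtain ⟨lo, hlo⟩ : ∃ lo, lo = min y c := ⟨_, rfl⟩
  obtain ⟨hi, hhi⟩ : ∃ hi, hi = max y c := ⟨_, rfl⟩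
  obtain ⟨W, hW⟩ : ∃ W : ℕ → ℕ, ∀ p, W p = if lo ≤ p ∧ p ≤ hi then 2 else
    if p + 1 = lo ∨ p = hi + 1 ∨ p = n ∨ p + 1 = n then 1 else 0 := ⟨_, fun _ => rfl⟩
  have hWn : W n = 1 := by rw [hW, if_neg (by omega), if_pos (by omega)]
  apply gb_test n c (by omega) b hpd W
  · exact ⟨n, le_rfl, by omega⟩
  · intro p hp hp'
    have h3 : (lo ≤ p ∧ p ≤ hi) ∨ p + 1 = lo ∨ p = hi + 1 ∨ p + 1 = n := by
      by_contra h
      apply hp'
      rw [hW, if_neg (by omega), if_neg (by omega)]
    rw [hWn]
    unfold NB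
    have hWn1 : W (n - 1) = 1 := by rw [hW, if_neg (by omega), if_pos (by omega)]
    have hWc : W c = 2 := by rw [hW, if_pos (by omega)]
    have hWy : W y = 2 := by rw [hW, if_pos (by omega)]
    by_cases h5 : p + 1 = n
    · have h6 : p = n - 1 := by omega
      rw [if_pos h5, hWc, h6, hWn1]
      omega
    · rw [if_neg h5, hWn1]
      rcases h3 with h3 | h3 | h3 | h3
      · -- inside
        have e0 : W p = 2 := by rw [hW, if_pos h3]
        have e1 : 1 ≤ W (p - 1) := by rw [hW]; split_ifs <;> omega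
        have e2 : 1 ≤ W (p + 1) := by rw [hW]; split_ifs <;> omega
        rw [e0, if_pos (by omega), if_pos (by omega)]
        by_cases h6 : p = c
        · rw [if_pos h6]
          by_cases h7 : p = y
          · subst h7
            omega
          · rcases Nat.lt_or_ge p y with h8 | h8
            · have e3 : W (p + 1) = 2 := by rw [hW, if_pos (by omega)]
              omega
            · have e3 : W (p - 1) = 2 := by rw [hW, if_pos (by omega)]
              omega
        · rw [if_neg h6]
          by_cases h7 : p = y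
          · subst h7
            rcases Nat.lt_or_ge p c with h8 | h8
            · have e3 : W (p + 1) = 2 := by rw [hW, if_pos (by omega)]
              omega
            · have e3 : W (p - 1) = 2 := by rw [hW, if_pos (by omega)]
              omega
          · have e3 : W (p + 1) = 2 := by rw [hW, if_pos (by omega)]
            have e4 : W (p - 1) = 2 := by rw [hW, if_pos (by omega)]
            omega
      · have e0 : W p = 1 := by rw [hW, if_neg (by omega), if_pos (by omega)]
        have e2 : W (p + 1) = 2 := by rw [hW, if_pos (by omega)]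
        rw [e0, e2, if_pos (by omega : p + 3 ≤ n)]
        omega
      · have e0 : W p = 1 := by rw [hW, if_neg (by omega), if_pos (by omega)]
        have e2 : W (p - 1) = 2 := by rw [hW, if_pos (by omega)]
        rw [e0, e2, if_pos (by omega : 1 ≤ p)]
        omega
      · exact absurd h3 h5
  · intro _
    rw [hWn]
    refine le_trans ?_ (le_sum_one n _ y (by omega))
    rw [hW, if_pos (by omega)]
    omega

/-- the extra arm cannot be extended in the middle. -/
theorem step_extra (hc1 : 2 ≤ c) (hc : c + 4 ≤ n)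
    (hpd : PD (fun i j : Fin (n + 1) => gb n c b i.1 j.1)) (h1 : b (n - 1) ≠ 0) : False := by
  obtain ⟨W, hW⟩ : ∃ W : ℕ → ℕ, ∀ p, W p = if p = c then 3 else
    if p + 1 = c ∨ p = c + 1 ∨ p + 1 = n then 2 else if p + 2 = c ∨ p = c + 2 ∨ p = n then 1 else 0 :=
    ⟨_, fun _ => rfl⟩
  have hWn : W n = 1 := by rw [hW, if_neg (by omega), if_neg (by omega), if_pos (by omega)]
  apply gb_test n c (by omega) b hpd W
  · exact ⟨n, le_rfl, by omega⟩
  · intro p hp hp'
    rw [hWn]
    rw [hW] at hp'
    unfold NB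
    rw [hW p, hW c, hW (p - 1), hW (p + 1), hW (n - 1)]
    by_cases h5 : p + 1 = n
    · have h6 : p = n - 1 := by omega
      rw [← h6] at h1
      split_ifs <;> omega
    · rw [if_neg h5]
      split_ifs at hp' ⊢ <;> omega
  · intro _
    rw [hWn]
    refine le_trans ?_ (le_sum_one n _ (n - 1) (by omega))
    rw [hW, if_neg (by omega), if_pos (by omega)]
    omega

end step

end Pool.H88.KA

end

section

/-!
KAC ADE, classification: relabelling after adding one vertex.
-/

set_option autoImplicit false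

namespace Pool.H88.KA

open scoped BigOperators

/-- relabelling data. -/
def Relab (n c : ℕ) (b : ℕ → ℕ) (c' : ℕ) (s : ℕ → ℕ) : Prop :=
  OkT (n + 1) c' ∧ (∀ p, p ≤ n → s p ≤ n) ∧ (∀ p q, p ≤ n → q ≤ n → s p = s q → p = q) ∧
    ∀ p q, p ≤ n → q ≤ n → gb n c b (s p) (s q) = TTn (n + 1) c' p q

section

variable (n c : ℕ) (b : ℕ → ℕ) (y : ℕ)

/-- identity relabelling. -/
theorem relab_id (hb : ∀ q, q < n → b q = if q = y then 1 else 0) (c' : ℕ)
    (hT : OkT (n + 1) c') (h : (c + 2 = n ∧ 1 ≤ y ∧ y + 2 ≤ n ∧ c' = y) ∨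
      (c + 2 = n ∧ y + 1 = n ∧ c' + 1 = n)) :
    Relab n c b c' (fun p => p) := by
  refine ⟨hT, fun p hp => hp, fun p q _ _ hpq => hpq, ?_⟩
  intro p q hp hq
  show gb n c b p q = TTn (n + 1) c' p q
  unfold gb
  by_cases h1 : p = n
  · rw [if_pos h1]
    by_cases h2 : q = n
    · rw [if_pos h2]
      unfold TTn
      rw [if_neg]
      omega
    · rw [if_neg h2, hb q (by omega)]
      unfold TTn
      split_ifs <;> omega
  · rw [if_neg h1]
    by_cases h2 : q = n
    · rw [if_pos h2, hb p (by omega)]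
      unfold TTn
      split_ifs <;> omega
    · rw [if_neg h2]
      unfold TTn
      split_ifs <;> omega

/-- relabelling `0 ↦ n`, `i ↦ i - 1`. -/
theorem relab_shift (hb : ∀ q, q < n → b q = if q = y then 1 else 0) (c' : ℕ)
    (hT : OkT (n + 1) c') (hn : 2 ≤ n) (hc : c + 2 ≤ n) (h : y = 0 ∧ c' = c + 1) :
    Relab n c b c' (fun p => if p = 0 then n else p - 1) := by
  refine ⟨hT, fun p hp => ?_, fun p q hp hq hpq => ?_, ?_⟩
  · simp only
    split_ifs <;> omega
  · simp only at hpq
    split_ifs at hpq <;> omega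
  · intro p q hp hq
    show gb n c b (if p = 0 then n else p - 1) (if q = 0 then n else q - 1) = TTn (n + 1) c' p q
    unfold gb
    by_cases h1 : p = 0
    · rw [if_pos h1, if_pos rfl]
      by_cases h2 : q = 0
      · rw [if_pos h2, if_pos rfl]
        unfold TTn
        rw [if_neg]
        omega
      · rw [if_neg h2, if_neg (by omega), hb _ (by omega)]
        unfold TTn
        split_ifs <;> omega
    · rw [if_neg h1, if_neg (by omega)]
      by_cases h2 : q = 0
      · rw [if_pos h2, if_pos rfl, hb _ (by omega)]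
        unfold TTn
        split_ifs <;> omega
      · rw [if_neg h2, if_neg (by omega)]
        unfold TTn
        split_ifs <;> omega

/-- relabelling exchanging `n - 1` and `n`. -/
theorem relab_swap (hb : ∀ q, q < n → b q = if q = y then 1 else 0) (c' : ℕ)
    (hT : OkT (n + 1) c') (hc1 : 1 ≤ c) (hc : c + 3 ≤ n) (h : y + 2 = n ∧ c' = c) :
    Relab n c b c' (fun p => if p + 1 = n then n else if p = n then n - 1 else p) := by
  refine ⟨hT, fun p hp => ?_, fun p q hp hq hpq => ?_, ?_⟩
  · simp only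
    split_ifs <;> omega
  · simp only at hpq
    split_ifs at hpq <;> omega
  · intro p q hp hq
    obtain ⟨u, hu⟩ : ∃ u, u = (if p + 1 = n then n else if p = n then n - 1 else p) := ⟨_, rfl⟩
    obtain ⟨v, hv⟩ : ∃ v, v = (if q + 1 = n then n else if q = n then n - 1 else q) := ⟨_, rfl⟩
    show gb n c b (if p + 1 = n then n else if p = n then n - 1 else p)
      (if q + 1 = n then n else if q = n then n - 1 else q) = TTn (n + 1) c' p q
    rw [← hu, ← hv]
    have hu' : (p + 1 = n ∧ u = n) ∨ (p = n ∧ u + 1 = n) ∨ (p + 1 < n ∧ u = p) := by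
      rw [hu]
      split_ifs <;> omega
    have hv' : (q + 1 = n ∧ v = n) ∨ (q = n ∧ v + 1 = n) ∨ (q + 1 < n ∧ v = q) := by
      rw [hv]
      split_ifs <;> omega
    clear hu hv
    unfold gb
    by_cases h1 : u = n
    · rw [if_pos h1]
      by_cases h2 : v = n
      · rw [if_pos h2]
        unfold TTn
        rw [if_neg]
        omega
      · rw [if_neg h2, hb _ (by omega)]
        unfold TTn
        split_ifs <;> omega
    · rw [if_neg h1]
      by_cases h2 : v = n
      · rw [if_pos h2, hb _ (by omega)]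
        unfold TTn
        split_ifs <;> omega
      · rw [if_neg h2]
        unfold TTn
        rcases hu' with ⟨u1, u2⟩ | ⟨u1, u2⟩ | ⟨u1, u2⟩ <;>
          rcases hv' with ⟨v1, v2⟩ | ⟨v1, v2⟩ | ⟨v1, v2⟩ <;>
          split_ifs <;> omega

/-- the extra vertex is extended, `c = 1`. -/
theorem relab_ex1 (hb : ∀ q, q < n → b q = if q = y then 1 else 0)
    (hc1 : c = 1) (hc : 4 ≤ n) (h : y + 1 = n) :
    Relab n c b 2 (fun p => if p = 0 then n else if p = 1 then n - 1 else if p = n then 0 else p - 1) := by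
  refine ⟨Or.inr (by omega), fun p hp => ?_, fun p q hp hq hpq => ?_, ?_⟩
  · simp only
    split_ifs <;> omega
  · simp only at hpq
    split_ifs at hpq <;> omega
  · intro p q hp hq
    obtain ⟨u, hu⟩ : ∃ u, u =
      (if p = 0 then n else if p = 1 then n - 1 else if p = n then 0 else p - 1) := ⟨_, rfl⟩
    obtain ⟨v, hv⟩ : ∃ v, v =
      (if q = 0 then n else if q = 1 then n - 1 else if q = n then 0 else q - 1) := ⟨_, rfl⟩
    show gb n c b (if p = 0 then n else if p = 1 then n - 1 else if p = n then 0 else p - 1)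
      (if q = 0 then n else if q = 1 then n - 1 else if q = n then 0 else q - 1) = TTn (n + 1) 2 p q
    rw [← hu, ← hv]
    have hu' : (p = 0 ∧ u = n) ∨ (p = 1 ∧ u + 1 = n) ∨ (p = n ∧ u = 0) ∨
        (2 ≤ p ∧ p < n ∧ u + 1 = p) := by
      rw [hu]
      split_ifs <;> omega
    have hv' : (q = 0 ∧ v = n) ∨ (q = 1 ∧ v + 1 = n) ∨ (q = n ∧ v = 0) ∨
        (2 ≤ q ∧ q < n ∧ v + 1 = q) := by
      rw [hv]
      split_ifs <;> omega
    clear hu hv
    unfold gb
    by_cases h1 : u = n
    · rw [if_pos h1]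
      by_cases h2 : v = n
      · rw [if_pos h2]
        unfold TTn
        rw [if_neg]
        omega
      · rw [if_neg h2, hb _ (by omega)]
        unfold TTn
        split_ifs <;> omega
    · rw [if_neg h1]
      by_cases h2 : v = n
      · rw [if_pos h2, hb _ (by omega)]
        unfold TTn
        split_ifs <;> omega
      · rw [if_neg h2]
        unfold TTn
        rcases hu' with ⟨u1, u2⟩ | ⟨u1, u2⟩ | ⟨u1, u2⟩ | ⟨u0, u1, u2⟩ <;>
          rcases hv' with ⟨v1, v2⟩ | ⟨v1, v2⟩ | ⟨v1, v2⟩ | ⟨v0, v1, v2⟩ <;>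
          split_ifs <;> omega

/-- the extra vertex is extended, `c = n - 3`. -/
theorem relab_ex2 (hb : ∀ q, q < n → b q = if q = y then 1 else 0)
    (hc1 : 1 ≤ c) (hc : c + 3 = n) (h : y + 1 = n) :
    Relab n c b c (fun p => if p + 2 = n then n - 1 else if p + 1 = n then n else
      if p = n then n - 2 else p) := by
  refine ⟨Or.inr (by omega), fun p hp => ?_, fun p q hp hq hpq => ?_, ?_⟩
  · simp only
    split_ifs <;> omega
  · simp only at hpq
    split_ifs at hpq <;> omega
  · intro p q hp hq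
    obtain ⟨u, hu⟩ : ∃ u, u =
      (if p + 2 = n then n - 1 else if p + 1 = n then n else if p = n then n - 2 else p) := ⟨_, rfl⟩
    obtain ⟨v, hv⟩ : ∃ v, v =
      (if q + 2 = n then n - 1 else if q + 1 = n then n else if q = n then n - 2 else q) := ⟨_, rfl⟩
    show gb n c b (if p + 2 = n then n - 1 else if p + 1 = n then n else if p = n then n - 2 else p)
      (if q + 2 = n then n - 1 else if q + 1 = n then n else if q = n then n - 2 else q) =
        TTn (n + 1) c p q
    rw [← hu, ← hv]
    have hu' : (p + 2 = n ∧ u + 1 = n) ∨ (p + 1 = n ∧ u = n) ∨ (p = n ∧ u + 2 = n) ∨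
        (p + 2 < n ∧ u = p) := by
      rw [hu]
      split_ifs <;> omega
    have hv' : (q + 2 = n ∧ v + 1 = n) ∨ (q + 1 = n ∧ v = n) ∨ (q = n ∧ v + 2 = n) ∨
        (q + 2 < n ∧ v = q) := by
      rw [hv]
      split_ifs <;> omega
    clear hu hv
    unfold gb
    by_cases h1 : u = n
    · rw [if_pos h1]
      by_cases h2 : v = n
      · rw [if_pos h2]
        unfold TTn
        rw [if_neg]
        omega
      · rw [if_neg h2, hb _ (by omega)]
        unfold TTn
        split_ifs <;> omega
    · rw [if_neg h1]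
      by_cases h2 : v = n
      · rw [if_pos h2, hb _ (by omega)]
        unfold TTn
        split_ifs <;> omega
      · rw [if_neg h2]
        unfold TTn
        rcases hu' with ⟨u1, u2⟩ | ⟨u1, u2⟩ | ⟨u1, u2⟩ | ⟨u1, u2⟩ <;>
          rcases hv' with ⟨v1, v2⟩ | ⟨v1, v2⟩ | ⟨v1, v2⟩ | ⟨v1, v2⟩ <;>
          split_ifs <;> omega

/-- every admissible extension of a standard graph is standard. -/
theorem step_exists (hT : OkT n c) (hpd : PD (fun i j : Fin (n + 1) => gb n c b i.1 j.1))
    (hex : ∃ y, y < n ∧ b y ≠ 0) : ∃ c' s, Relab n c b c' s := by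
  obtain ⟨y, hy, hby⟩ := hex
  have hc : c + 2 ≤ n := by
    rcases hT with h | h <;> omega
  have hb : ∀ q, q < n → b q = if q = y then 1 else 0 := by
    intro q hq
    have h1 := step_le_one n c b hc hpd q hq
    by_cases hqy : q = y
    · rw [if_pos hqy]
      subst hqy
      omega
    · rw [if_neg hqy]
      by_contra h2
      rcases Nat.lt_or_gt_of_ne hqy with h3 | h3
      · exact step_unique n c b hc hpd q y h3 hy h2 hby
      · exact step_unique n c b hc hpd y q h3 hq hby h2
  rcases hT with ⟨h1, h2⟩ | ⟨h1, h2⟩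
  · rcases Nat.lt_or_ge 0 y with h3 | h3
    · rcases Nat.lt_or_ge (y + 1) n with h4 | h4
      · exact ⟨y, _, relab_id n c b y hb y (Or.inr (by omega)) (Or.inl (by omega))⟩
      · exact ⟨n - 1, _, relab_id n c b y hb (n - 1) (Or.inl (by omega)) (Or.inr (by omega))⟩
    · exact ⟨c + 1, _, relab_shift n c b y hb (c + 1) (Or.inl (by omega)) h1 hc (by omega)⟩
  · rcases Nat.lt_or_ge 0 y with h3 | h3
    · rcases Nat.lt_or_ge (y + 2) n with h4 | h4
      · exact absurd hby (fun h => step_inner n c b h1 h2 hpd y h3 (by omega) h)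
      · rcases Nat.lt_or_ge (y + 1) n with h5 | h5
        · exact ⟨c, _, relab_swap n c b y hb c (Or.inr (by omega)) h1 h2 (by omega)⟩
        · by_cases h6 : c = 1
          · exact ⟨2, _, relab_ex1 n c b y hb h6 (by omega) (by omega)⟩
          · by_cases h7 : c + 3 = n
            · exact ⟨c, _, relab_ex2 n c b y hb h1 h7 (by omega)⟩
            · exfalso
              apply step_extra n c b (by omega) (by omega) hpd
              have h8 : n - 1 = y := by omega
              rw [h8]
              exact hby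
    · exact ⟨c + 1, _, relab_shift n c b y hb (c + 1) (Or.inr (by omega)) (by omega) hc (by omega)⟩

end

end Pool.H88.KA

end
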