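import Pool.Agent.H16.TKA.M21
import Pool.Agent.H16.TKA.M23

/-! The parts of this file: H41.KA.AG5, H41.KA.AG6_1, H41.KA.AG7_1, H41.KA.AG8, H41.KA.AG9. -/

section

/-!
KAC ADE, module AG5: killing terms by a positive effective exponent (X1).

Proof.  `EvP.eq_zero`: by `frob_pat` it suffices to show `TV a (patT a U π (T.pow p)) = 0` for all large primes `p ≡ 1` mod `d`.
Fire `V` in the term `patT a U π (T.pow p)` from the configuration `p * T.E (·, f)` down to a configuration `< 3` (`fire_down` with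
`θ = 3`, `TV_fire`, `FRegI.pow`; the insertions and the columns of `U` do not touch `V` because of `Sep`); then the exponent of
`(z,f)` becomes `≥ p * (T.E (z,f) + ∑_v a z v solN(T.E) v) - const`, hence larger than the bound of `TV_vanX` (`EvP.large_mul`).
The integrality condition is inherited for `p ≡ 1` modulo the denominators (`EvP.sub_one_mul`), the columns `(z,l)` with
`0 < T.E (z,l)` are compensated for large `p`.

`fire_win`: `TV_rel` (write `T = T0.mulE (2 • sy z f)`) and `TV_kill` (`V = ∅`) for the difference term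
`T.mulE (sy z (f+1) + sy z (f-1) - 2 • sy z f)`, in which the symbols `(z,f+1)`, `(z,f-1)` are compensated.
-/

set_option autoImplicit false

namespace Pool.Agent.H27.KAC

open scoped BigOperators

section

variable {I : Type} [Fintype I] [DecidableEq I]

omit [Fintype I] [DecidableEq I] in
theorem AG5_pow_E (T : Trm I) (p : ℚ) (i : I × ℕ) : (T.pow p).E i = p * T.E i := by
  simp [Trm.pow]

theorem AG5_IsN_mul {p : ℕ} {q : ℚ} (h : IsN q) : IsN ((p : ℚ) * q) := by
  obtain ⟨n, rfl⟩ := h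
  exact ⟨p * n, by push_cast; ring⟩

theorem AG5_IsZ_mul {p : ℕ} {q : ℚ} (h : IsZ q) : IsZ ((p : ℚ) * q) := by
  obtain ⟨n, rfl⟩ := h
  exact ⟨p * n, by push_cast; ring⟩

theorem AG5_IsZ_add {q r : ℚ} (h : IsZ q) (h' : IsZ r) : IsZ (q + r) := by
  obtain ⟨n, rfl⟩ := h
  obtain ⟨m, rfl⟩ := h'
  exact ⟨n + m, by push_cast; ring⟩

theorem AG5_one_le_mul {p : ℕ} (hp : 1 ≤ p) {q : ℚ} (h : 1 ≤ q) : 1 ≤ (p : ℚ) * q := by
  have hp' : (1 : ℚ) ≤ p := by exact_mod_cast hp
  nlinarith

theorem FRegI.pow {S : Finset I} {T : Trm I} {x : I} {k σ : ℕ} (h : FRegI S T x k σ) (p : ℕ)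
    (hp : 1 ≤ p) : FRegI S (T.pow p) x k σ := by
  refine ⟨fun l hl hlk => ?_, ?_, fun j hj l hl hne => ?_⟩
  · rw [AG5_pow_E]
    exact AG5_IsN_mul (h.nat l hl hlk)
  · rw [AG5_pow_E]
    exact AG5_IsZ_mul h.int
  · rcases h.col j hj l hl hne with h1 | h1 | h1
    · exact Or.inl h1
    · exact Or.inr (Or.inl h1)
    · refine Or.inr (Or.inr ?_)
      rw [AG5_pow_E]
      exact AG5_one_le_mul hp h1

/-- exponents of separated vertices are not changed. -/
theorem AG5_patT_E_sep (a : I → I → ℕ) (U V : Finset I) (hUV : Sep a U V) (π : Pat I) (T : Trm I)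
    (v : I) (hv : v ∈ V) (l : ℕ) : (patT a U π T).E (v, l) = T.E (v, l) := by
  rw [patT_E, Finset.sum_eq_zero, add_zero]
  intro x hx
  have hxU := (Finset.mem_filter.1 hx).1
  have h1 : x ≠ v := fun h => Finset.disjoint_left.1 hUV.1 hxU (h ▸ hv)
  have h2 := hUV.2 x hxU v hv
  simp [cart, h1, h2]

/-- the filled term is ready for firing. -/
theorem FReg_patT (a : I → I → ℕ) (hs : ∀ i j, a i j = a j i) (U V : Finset I) (hUV : Sep a U V)
    (π : Pat I) (f σ : ℕ) (T : Trm I) (v : I) (hv : v ∈ V) (h : FRegI U T v f σ) :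
    FReg (patT a U π T) v f σ := by
  refine ⟨fun l hl hlk => ?_, ?_, fun j l hl hne => ?_⟩
  · rw [AG5_patT_E_sep a U V hUV π T v hv]
    exact h.nat l hl hlk
  · rw [AG5_patT_E_sep a U V hUV π T v hv]
    exact h.int
  · rw [AG5_patT_E_sep a U V hUV π T v hv]
    by_cases hj : j ∈ U
    · exfalso
      apply hne
      have hjv : j ≠ v := fun h => Finset.disjoint_left.1 hUV.1 hj (h ▸ hv)
      simp only [patT, Trm.cols, Trm.etaM]
      rw [if_pos hj, Finsupp.single_apply, if_neg]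
      intro h1
      exact hjv (congrArg Prod.fst h1)
    · apply h.col j hj l hl
      intro h0
      apply hne
      simp only [patT, Trm.cols, Trm.etaM]
      rw [if_neg hj]
      exact h0

/-- firing of `V` down: one firing vector `d` for all terms `X` which have on `V` the exponents of `T.pow p`; it is at least
`p * solN(T.E) - B`. -/
theorem fire_V (a : I → I → ℕ) (hs : ∀ i j, a i j = a j i) (f : ℕ) (hf : 1 ≤ f)
    (V : Finset I) (hV : FinT a V) (σ : I → ℕ) (hσ : ∀ v ∈ V, Side f (σ v)) (T : Trm I)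
    (hTV : ∀ v ∈ V, IsZ (T.E (v, f))) :
    ∃ B : ℚ, ∀ p : ℕ, 1 ≤ p → ∃ d : I → ℕ, (∀ i, i ∉ V → d i = 0) ∧
      (∀ X : Trm I, (∀ v ∈ V, FReg X v f (σ v)) → (∀ v ∈ V, X.E (v, f) = (p : ℚ) * T.E (v, f)) →
        TV a X = TV a (X.etaM a (fun _ => f) (fun i => (d i : ℚ)))) ∧
      ∀ v ∈ V, (p : ℚ) * solN a V (fun i => T.E (i, f)) v - B ≤ d v := by
  classical
  have hex : ∀ v : I, ∃ n : ℤ, v ∈ V → T.E (v, f) = n := by
    intro v
    by_cases hv : v ∈ V
    · obtain ⟨n, hn⟩ := hTV v hv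
      exact ⟨n, fun _ => hn⟩
    · exact ⟨0, fun h => absurd h hv⟩
  choose ν₀ hν₀ using hex
  refine ⟨∑ x ∈ V, (3 : ℤ) * solN a V (fun _ => 1) x, fun p hp => ?_⟩
  obtain ⟨d, hd, -, hd2⟩ := fire_down hs hV 3 (by norm_num) (fun i => (p : ℤ) * ν₀ i)
  refine ⟨d, hd.supp, ?_, ?_⟩
  · intro X hX hXE
    refine TV_fire a hs V hV.loopfree (fun _ => f) σ (fun _ _ => hf) (fun _ _ _ _ _ => rfl) hσ X hX
      (fun i => (p : ℤ) * ν₀ i) ?_ d hd
    intro x hx
    rw [hXE x hx, hν₀ x hx]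
    push_cast
    rfl
  · intro v hv
    have h1 := hd2 v hv
    have h2 : solN a V (fun i => ((((p : ℤ) * ν₀ i : ℤ)) : ℚ)) v =
        (p : ℚ) * solN a V (fun i => T.E (i, f)) v := by
      rw [← solN_smul hs hV]
      have h3 := solN_congr hs hV (fun i => ((((p : ℤ) * ν₀ i : ℤ)) : ℚ))
        (fun j => (p : ℚ) * T.E (j, f)) (fun i hi => by
          rw [hν₀ i hi]
          push_cast
          rfl)
      rw [h3]
    rw [h2] at h1
    have h3 : (3 : ℤ) * solN a V (fun _ => 1) v ≤ ∑ x ∈ V, (3 : ℤ) * solN a V (fun _ => 1) x := by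
      apply Finset.single_le_sum (f := fun x => ((3 : ℤ) : ℚ) * solN a V (fun _ => 1) x)
        (fun x _ => ?_) hv
      have := solN_nonneg hs hV (fun _ => 1) (fun _ _ => zero_le_one) x
      positivity
    linarith

theorem AG5_etaM_ne (a : I → I → ℕ) (f : ℕ) (d : I → ℚ) (T : Trm I) (i : I) (l : ℕ) (hl : l ≠ f) :
    (T.etaM a (fun _ => f) d).E (i, l) = T.E (i, l) := by
  rw [etaM_E, Finset.sum_eq_zero, sub_zero]
  intro x hx
  exact absurd (Finset.mem_filter.1 hx).2.symm hl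

theorem AG5_etaM_sep (a : I → I → ℕ) (U V : Finset I) (hUV : Sep a U V)
    (hs : ∀ i j, a i j = a j i) (f : ℕ) (d : I → ℚ) (hd : ∀ i, i ∉ V → d i = 0) (T : Trm I)
    (i : I) (hi : i ∈ U) (l : ℕ) :
    (T.etaM a (fun _ => f) d).E (i, l) = T.E (i, l) := by
  rw [etaM_E, Finset.sum_eq_zero, sub_zero]
  intro x _
  by_cases hx : x ∈ V
  · have h1 : x ≠ i := fun h => Finset.disjoint_left.1 hUV.1 hi (h ▸ hx)
    have h2 : a x i = 0 := by rw [hs]; exact hUV.2 i hi x hx
    simp [cart, h1, h2]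
  · rw [hd x hx, zero_mul]

theorem AG5_etaM_z (a : I → I → ℕ) (V : Finset I) (hs : ∀ i j, a i j = a j i) (f : ℕ) (d : I → ℚ)
    (hd : ∀ i, i ∉ V → d i = 0) (T : Trm I) (z : I) (hz : z ∉ V) :
    (T.etaM a (fun _ => f) d).E (z, f) = T.E (z, f) + ∑ v ∈ V, (a z v : ℚ) * d v := by
  rw [etaM_E, Finset.filter_true_of_mem (fun _ _ => rfl), sub_eq_add_neg, ← Finset.sum_neg_distrib]
  congr 1
  rw [← Finset.sum_subset (Finset.subset_univ V)]
  · apply Finset.sum_congr rfl
    intro x hx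
    have h1 : x ≠ z := fun h => hz (h ▸ hx)
    simp [cart, h1, hs x z, mul_comm]
  · intro x _ hx
    rw [hd x hx]
    simp

theorem TV_kill (a : I → I → ℕ) (hs : ∀ i j, a i j = a j i) (cd : CrossData a) (f : ℕ) (hf : 1 ≤ f)
    (U V : Finset I) (hU : FinT a U) (hV : FinT a V) (hUV : Sep a U V) (π : Pat I)
    (hπ : PatWide a cd U f π) (σ : I → ℕ) (hσ : ∀ v ∈ V, Side f (σ v)) (T : Trm I)
    (hT : RReg U T) (hTV : ∀ v ∈ V, FRegI U T v f (σ v)) (z : I) (hzU : z ∉ U) (hzV : z ∉ V)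
    (hzz : a z z = 0) (hN : ∀ l, 1 ≤ l → l ≠ f → l ≠ f + 1 → IsN (T.E (z, l)))
    (h0 : 0 ≤ T.E (z, f + 1))
    (hI2 : IsZ (T.E (z, f) + T.E (z, f + 1) - ∑ x ∈ U, (a z x : ℚ) * π.q x))
    (hcol : ∀ j, j ∉ U → ∀ l, 1 ≤ l → T.Λ j (z, l) ≠ 0 → l = f ∨ 0 < T.E (z, l))
    (heff : 0 < T.E (z, f) + ∑ v ∈ V, (a z v : ℚ) * solN a V (fun i => T.E (i, f)) v) :
    TV a (patT a U π T) = 0 := by
  obtain ⟨B, hB⟩ := fire_V a hs f hf V hV σ hσ T (fun v hv => (hTV v hv).int)
  have hfrob := frob_pat a hs U hU π hπ.toPatOk T hT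
  set S : ℚ := ∑ x ∈ U, (a z x : ℚ) * π.q x with hS
  set R : ℚ := ∑ x ∈ U, (a z x : ℚ) * π.q x * ((f : ℚ) - π.s x + 1) with hR
  set A : ℚ := ∑ v ∈ V, (a z v : ℚ) with hA
  have e1 : EvP (fun p => 1 ≤ p) := EvP.of_large 1 (fun p hp => hp)
  have e2 := EvP.sub_one_mul S
  have e3 := EvP.large_mul _ heff (1 + R + B * A)
  have e4 : EvP (fun p => 0 < T.E (z, f + 1) → 1 ≤ (p : ℚ) * T.E (z, f + 1)) := by
    by_cases h : 0 < T.E (z, f + 1)
    · exact (EvP.large_mul _ h 1).mono (fun p hp _ => hp)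
    · exact EvP.of_large 0 (fun p _ h' => absurd h' h)
  apply EvP.eq_zero
  refine (hfrob.and (e1.and (e2.and (e3.and e4)))).mono ?_
  rintro p ⟨hp0, hp1, hp2, hp3, hp4⟩
  obtain ⟨d, hd0, hd1, hd2⟩ := hB p hp1
  have hd0' : ∀ i, i ∉ V → ((d i : ℕ) : ℚ) = 0 := fun i hi => by rw [hd0 i hi]; simp
  have hX : TV a (patT a U π (T.pow p)) =
      TV a (patT a U π ((T.pow p).etaM a (fun _ => f) (fun i => (d i : ℚ)))) := by
    rw [patT_etaM_comm]
    apply hd1
    · intro v hv
      exact FReg_patT a hs U V hUV π f (σ v) (T.pow p) v hv ((hTV v hv).pow p hp1)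
    · intro v hv
      rw [AG5_patT_E_sep a U V hUV π _ v hv, AG5_pow_E]
  have hEU : ∀ x ∈ U, ∀ l, ((T.pow p).etaM a (fun _ => f) (fun i => (d i : ℚ))).E (x, l) =
      p * T.E (x, l) := by
    intro x hx l
    rw [AG5_etaM_sep a U V hUV hs f _ hd0' _ x hx, AG5_pow_E]
  have hEz : ∀ l, l ≠ f → ((T.pow p).etaM a (fun _ => f) (fun i => (d i : ℚ))).E (z, l) =
      p * T.E (z, l) := by
    intro l hl
    rw [AG5_etaM_ne a f _ _ z l hl, AG5_pow_E]
  have hEf : ((T.pow p).etaM a (fun _ => f) (fun i => (d i : ℚ))).E (z, f) =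
      p * T.E (z, f) + ∑ v ∈ V, (a z v : ℚ) * d v := by
    rw [AG5_etaM_z a V hs f _ hd0' _ z hzV, AG5_pow_E]
  have hzero : TV a (patT a U π (T.pow p)) = 0 := by
    rw [hX]
    refine TV_vanX a hs cd f hf U hU π hπ _ ⟨?_, ?_⟩ z hzU hzz ?_ ?_ ?_ ?_ ?_
    · intro x hx l hl
      rw [hEU x hx]
      exact AG5_IsN_mul (hT.nat x hx l hl)
    · intro x hx j hj l hl hne
      rw [hEU x hx]
      exact AG5_one_le_mul hp1 (hT.col x hx j hj l hl hne)
    · intro l hl hlf hlf1
      rw [hEz l hlf]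
      exact AG5_IsN_mul (hN l hl hlf hlf1)
    · rw [hEz (f + 1) (by omega)]
      positivity
    · rw [hEf, hEz (f + 1) (by omega)]
      have h1 : IsZ (∑ v ∈ V, (a z v : ℚ) * d v) :=
        ⟨∑ v ∈ V, (a z v : ℤ) * d v, by push_cast; rfl⟩
      have h2 := AG5_IsZ_add (AG5_IsZ_add (AG5_IsZ_mul (p := p) hI2) hp2) h1
      convert h2 using 1
      ring
    · rw [hEf]
      have h1 : ∑ v ∈ V, (a z v : ℚ) * ((p : ℚ) * solN a V (fun i => T.E (i, f)) v - B) ≤
          ∑ v ∈ V, (a z v : ℚ) * d v := by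
        apply Finset.sum_le_sum
        intro v hv
        exact mul_le_mul_of_nonneg_left (hd2 v hv) (Nat.cast_nonneg _)
      have h2 : ∑ v ∈ V, (a z v : ℚ) * ((p : ℚ) * solN a V (fun i => T.E (i, f)) v - B) =
          p * (∑ v ∈ V, (a z v : ℚ) * solN a V (fun i => T.E (i, f)) v) - B * A := by
        rw [hA, Finset.mul_sum, Finset.mul_sum, ← Finset.sum_sub_distrib]
        apply Finset.sum_congr rfl
        intro v _
        ring
      rw [h2] at h1
      linarith
    · intro j hj l hl hne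
      rcases hcol j hj l hl hne with h | h
      · exact Or.inl h
      · by_cases hlf : l = f
        · exact Or.inl hlf
        · refine Or.inr ?_
          rw [hEz l hlf]
          by_cases hlf1 : l = f + 1
          · subst hlf1
            exact hp4 h
          · obtain ⟨n, hn⟩ := hN l hl hlf hlf1
            rw [hn] at h ⊢
            have h5 : 1 ≤ n := by exact_mod_cast h
            exact AG5_one_le_mul hp1 (by exact_mod_cast h5)
  rw [hzero, zero_sub] at hp0
  obtain ⟨r, hr, hpr⟩ := hp0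
  refine ⟨-r, ?_, by linarith⟩
  unfold PI at hr ⊢
  rwa [Rat.den_neg_eq_den]

/-- firing of an outer vertex with hatted exponent `> 2` in presence of a wide pattern. -/
theorem fire_win (a : I → I → ℕ) (hs : ∀ i j, a i j = a j i) (cd : CrossData a) (f : ℕ) (hf : 1 ≤ f)
    (U : Finset I) (hU : FinT a U) (π : Pat I) (hπ : PatWide a cd U f π) (T : Trm I)
    (hT : RReg U T) (z : I) (hzU : z ∉ U) (hzz : a z z = 0)
    (hN : ∀ l, 1 ≤ l → l ≠ f → l ≠ f + 1 → IsN (T.E (z, l))) (h0 : 0 ≤ T.E (z, f + 1))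
    (hI2 : IsZ (T.E (z, f) + T.E (z, f + 1) - ∑ x ∈ U, (a z x : ℚ) * π.q x))
    (hcol : ∀ j, j ∉ U → ∀ l, 1 ≤ l → T.Λ j (z, l) ≠ 0 →
      l = f ∨ l = f + 1 ∨ l + 1 = f ∨ 0 < T.E (z, l))
    (hbig : 2 < T.E (z, f)) :
    TV a (patT a U π T) = TV a (patT a U π (T.eta a f (Pi.single z 1))) := by
  set T0 : Trm I := T.mulE (-((2 : ℚ) • sy z f)) with hT0
  have hTT : T = T0.mulE ((2 : ℚ) • sy z f) := by
    simp [hT0, Trm.mulE]
  have hrel := TV_rel a hs (patT a U π T0) z f hf
  rw [← patT_mulE_comm, ← patT_mulE_comm, ← hTT] at hrel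
  set T1 : Trm I := T0.mulE (sy z (f + 1) + sy z (f - 1)) with hT1
  have hE1 : ∀ i l, T1.E (i, l) = T.E (i, l) + (if i = z ∧ l = f + 1 then 1 else 0) +
      (if i = z ∧ l + 1 = f then 1 else 0) - (if i = z ∧ l = f then 2 else 0) := by
    intro i l
    simp only [hT1, hT0, Trm.mulE, Finsupp.add_apply, Finsupp.neg_apply, Finsupp.smul_apply,
      Finsupp.single_apply, Prod.mk.injEq, smul_eq_mul]
    have c1 : (z = i ∧ f = l) ↔ (i = z ∧ l = f) := by
      constructor <;> rintro ⟨h1, h2⟩ <;> exact ⟨h1.symm, h2.symm⟩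
    have c2 : (z = i ∧ f + 1 = l) ↔ (i = z ∧ l = f + 1) := by
      constructor <;> rintro ⟨h1, h2⟩ <;> exact ⟨h1.symm, h2.symm⟩
    have c3 : (z = i ∧ f - 1 = l) ↔ (i = z ∧ l + 1 = f) := by
      constructor
      · rintro ⟨h1, h2⟩
        exact ⟨h1.symm, by omega⟩
      · rintro ⟨h1, h2⟩
        exact ⟨h1.symm, by omega⟩
    simp only [c1, c2, c3]
    split_ifs <;> ring
  have hz1 : TV a (patT a U π T1) = 0 := by
    have hEU : ∀ x ∈ U, ∀ l, T1.E (x, l) = T.E (x, l) := by
      intro x hx l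
      have hxz : x ≠ z := fun h => hzU (h ▸ hx)
      rw [hE1]
      simp [hxz]
    have hne : ∀ l, 1 ≤ l → l ≠ f → l ≠ f + 1 → IsN (T1.E (z, l)) := by
      intro l hl hlf hlf1
      obtain ⟨n, hn⟩ := hN l hl hlf hlf1
      rw [hE1, hn]
      by_cases h : l + 1 = f
      · exact ⟨n + 1, by simp [hlf, hlf1, h]⟩
      · exact ⟨n, by simp [hlf, hlf1, h]⟩
    have hEf : T1.E (z, f) = T.E (z, f) - 2 := by
      rw [hE1]
      simp
    have hEf1 : T1.E (z, f + 1) = T.E (z, f + 1) + 1 := by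
      rw [hE1]
      have h3 : ¬ (f + 1 + 1 = f) := by omega
      simp [h3]
    refine TV_kill a hs cd f hf U ∅ hU (FinT.empty a) ⟨Finset.disjoint_empty_right _, by simp⟩ π hπ
      (fun _ => f + 1) (by simp) T1 ⟨?_, ?_⟩ (by simp) z hzU (by simp) hzz hne ?_ ?_ ?_ ?_
    · intro x hx l hl
      rw [hEU x hx]
      exact hT.nat x hx l hl
    · intro x hx j hj l hl h
      rw [hEU x hx]
      exact hT.col x hx j hj l hl h
    · rw [hEf1]
      linarith
    · rw [hEf, hEf1]
      have h2 := AG5_IsZ_add hI2 (r := -1) ⟨-1, by norm_num⟩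
      convert h2 using 1
      ring
    · intro j hj l hl h
      by_cases hlf : l = f
      · exact Or.inl hlf
      · refine Or.inr ?_
        by_cases hlf1 : l = f + 1
        · rw [hlf1, hEf1]
          linarith
        · obtain ⟨n, hn⟩ := hN l hl hlf hlf1
          have hn0 : (0 : ℚ) ≤ n := Nat.cast_nonneg n
          rcases hcol j hj l hl h with h1 | h1 | h1 | h1
          · exact absurd h1 hlf
          · exact absurd h1 hlf1
          · rw [hE1, hn]
            simp only [hlf, hlf1, h1, and_false, and_true, if_true, if_false]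
            linarith
          · rw [hE1]
            simp only [hlf, hlf1, and_false, if_false, true_and]
            split_ifs <;> linarith
    · rw [hEf]
      simp only [Finset.sum_empty, add_zero]
      linarith
  rw [hrel, hz1, add_zero, eta_eq_etaM, eta_eq_etaM, patT_etaM_comm]

end

end Pool.Agent.H27.KAC

end

section

/-!
KAC ADE, module AG6: conversion of patterns to explicit insertions (X2).

Proof of `evU_conv`.  Both sides are `EvP`-congruent to the same expressions for `T.pow p` (`frob_evU`, `frob_expl`), so it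
suffices to prove the identity for `T.pow p`, `p` a large prime `≡ 1` modulo `d` (`EvP.eq_zero`).  Fire `V` (`fire_V`; the same firing
is used for all patterns; for the explicit term argue in the same way), `T.pow p` becomes `T'` with a large exponent at
`(z,f)`.  For every pattern `π` of the product: `TV (patT π T') = TV (patT π (T'.eta a f (Pi.single z 1)))`: by `TV_rel` the
difference is the value of `patT π (T'.mulE (sy z (f+1) + sy z (f-1) - 2 • sy z f))`, which vanishes by `TV_vanX` (the side symbol is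
now compensated; `hI2` of `TV_vanX` follows from `hI2` and `cls`).  The term `T'' = T'.eta a f (Pi.single z 1)` has a kink at level `f` in
every block (`hadj`), so `evU_blk_head` and `BlkOk.knk` evaluate all blocks.  Finally undo the firing of `z`
(`TV_fire1` for the explicit term) and of `V`.
-/

set_option autoImplicit false

namespace Pool.Agent.H27.KAC

open scoped BigOperators

section

variable {I : Type} [Fintype I] [DecidableEq I]

private theorem AG6_main (a : I → I → ℕ) (hs : ∀ i j, a i j = a j i) (cd : CrossData a) (f : ℕ)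
    (hf : 1 ≤ f) (L : List (Blk I)) (hL : ∀ b ∈ L, BlkOk a cd f b)
    (hd : L.Pairwise (fun b c => Sep a b.B c.B)) (V : Finset I)
    (hLV : Sep a (uniB L) V) (z : I) (hzL : z ∉ uniB L) (hzV : z ∉ V) (hzz : a z z = 0)
    (hadj : ∀ b ∈ L, ∃ x ∈ b.B, 0 < a z x) (T : Trm I) (hT : RReg (uniB L) T) (σ : I → ℕ)
    (hTV : ∀ v ∈ V, FRegI (uniB L) T v f (σ v)) (σz : ℕ)
    (hσz : Side f σz) (hN : ∀ l, 1 ≤ l → l ≠ f → IsN (T.E (z, l)))
    (hI2 : IsZ (T.E (z, f) - (L.map (fun b => ∑ x ∈ b.B, (a z x : ℚ) * b.q x)).sum))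
    (hcol : ∀ j, j ∉ uniB L → ∀ l, 1 ≤ l → T.Λ j (z, l) ≠ 0 → l = f ∨ l = σz ∨ 0 < T.E (z, l))
    (p : ℕ) (hp : 1 ≤ p) (hpz : IsZ (((p : ℚ) - 1) * T.E (z, f))) (d : I → ℕ)
    (hd0 : ∀ i, i ∉ V → d i = 0)
    (hfire : ∀ X : Trm I, (∀ v ∈ V, FReg X v f (σ v)) →
      (∀ v ∈ V, X.E (v, f) = (p : ℚ) * T.E (v, f)) →
        TV a X = TV a (X.etaM a (fun _ => f) (fun i => (d i : ℚ))))
    (hb1 : 3 ≤ (p : ℚ) * T.E (z, f) + ∑ v ∈ V, (a z v : ℚ) * (d v : ℚ))
    (hb2 : 3 ≤ (p : ℚ) * T.E (z, f) + ∑ v ∈ V, (a z v : ℚ) * (d v : ℚ) -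
      (L.map (fun b => ∑ x ∈ b.B, (a z x : ℚ) * b.q x)).sum) :
    evU a (L.map (fun b => (b.B, b.Φ))) (T.pow p) =
      (L.map Blk.cf).prod * TV a (expl a f L (T.pow p)) := by
  classical
  have hp1 : (1 : ℚ) ≤ p := by exact_mod_cast hp
  obtain ⟨T', hT'⟩ : ∃ T' : Trm I, T' = (T.pow p).etaM a (fun _ => f) (fun i => (d i : ℚ)) :=
    ⟨_, rfl⟩
  obtain ⟨T'', hT''⟩ : ∃ T'' : Trm I, T'' = T'.eta a f (Pi.single z 1) := ⟨_, rfl⟩
  have hFL : FinT a (uniB L) := FinT_uniB a hs L (fun b hb => (hL b hb).fin) hd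
  have hReg' : RReg (uniB L) T' := by
    rw [hT']
    exact AG6_RReg a hs (uniB L) V hLV T hT p hp f d hd0
  -- exponents of the fired term
  have hEz : ∀ l, T'.E (z, l) = p * T.E (z, l) +
      if l = f then ∑ v ∈ V, (a z v : ℚ) * (d v : ℚ) else 0 := by
    intro l
    rw [hT', AG6_E, AG6_Sz a hs V d hd0 z hzV]
    split_ifs
    · ring
    · ring
  have hEzf : T'.E (z, f) = p * T.E (z, f) + ∑ v ∈ V, (a z v : ℚ) * (d v : ℚ) := by
    rw [hEz f, if_pos rfl]
  have hEzl : ∀ l, l ≠ f → T'.E (z, l) = p * T.E (z, l) := by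
    intro l hl
    rw [hEz l, if_neg hl, add_zero]
  have hEx : ∀ x ∈ uniB L, ∀ l, T'.E (x, l) = p * T.E (x, l) := by
    intro x hx l
    rw [hT', AG6_E, AG6_S0 a hs (uniB L) V hLV d hd0 x hx]
    simp
  have hΛ' : T'.Λ = T.Λ := by
    rw [hT']
    rfl
  have hdV : IsZ (∑ v ∈ V, (a z v : ℚ) * (d v : ℚ)) :=
    AG6_Zsum _ _ (fun v _ => AG6_Znmul (AG6_Znat _) _)
  -- step 1: fire `V` in the patterns
  have hstep1 : evU a (L.map (fun b => (b.B, b.Φ))) (T.pow p) =
      evU a (L.map (fun b => (b.B, b.Φ))) T'' := by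
    rw [evU_eq_evF a _ (AG6_pd hd), evU_eq_evF a _ (AG6_pd hd), uni_map_blk]
    unfold evF
    congr 1
    apply List.map_congr_left
    intro c hc
    congr 1
    have hw := PatWide_prod a hs cd f L hL hd c hc
    have h1 : TV a (patT a (uniB L) c.2 (T.pow p)) = TV a (patT a (uniB L) c.2 T') := by
      rw [hfire (patT a (uniB L) c.2 (T.pow p)) ?_ ?_, ← patT_etaM_comm, ← hT']
      · intro v hv
        exact FReg_patT a hs (uniB L) V hLV c.2 f (σ v) (T.pow p) v hv ((hTV v hv).pow p hp)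
      · intro v hv
        rw [patT_E]
        have h0 : ∑ x ∈ (uniB L).filter (fun x => c.2.s x = f), c.2.q x * (cart a x v : ℚ) = 0 := by
          apply Finset.sum_eq_zero
          intro x hx
          rw [AG6_cart0 a (uniB L) V hLV x (Finset.mem_filter.1 hx).1 v hv, mul_zero]
        rw [h0, add_zero]
        rfl
    rw [h1, hT'']
    apply fire_win a hs cd f hf (uniB L) hFL c.2 hw T' hReg' z hzL hzz
    · intro l hl hlf _
      rw [hEzl l hlf]
      exact AG6_Nmul (hN l hl hlf) p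
    · rw [hEzl (f + 1) (by omega)]
      exact mul_nonneg (Nat.cast_nonneg p) (AG6_Nge (hN (f + 1) (by omega) (by omega)))
    · have h2 := AG6_cong a L hd z c.2.q (by
        intro b hb x hx
        obtain ⟨e, he, hex⟩ := prodF_mem _ (AG6_pd hd) c hc (b.B, b.Φ)
          (List.mem_map.2 ⟨b, hb, rfl⟩)
        rw [(hex x hx).2]
        exact (hL b hb).cls e he x hx)
      have h3 : IsZ (T'.E (z, f + 1)) := by
        rw [hEzl (f + 1) (by omega)]
        exact AG6_ZofN (AG6_Nmul (hN (f + 1) (by omega) (by omega)) p)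
      have h4 := AG6_Zadd (AG6_Zadd (AG6_Zadd (AG6_Zadd hpz hI2) hdV) h3) (AG6_Zneg h2)
      have h5 : T'.E (z, f) + T'.E (z, f + 1) - ∑ x ∈ uniB L, (a z x : ℚ) * c.2.q x =
          ((p : ℚ) - 1) * T.E (z, f) +
          (T.E (z, f) - (L.map (fun b => ∑ x ∈ b.B, (a z x : ℚ) * b.q x)).sum) +
          ∑ v ∈ V, (a z v : ℚ) * (d v : ℚ) + T'.E (z, f + 1) +
          -(∑ x ∈ uniB L, (a z x : ℚ) * c.2.q x -
            (L.map (fun b => ∑ x ∈ b.B, (a z x : ℚ) * b.q x)).sum) := by
        rw [hEzf]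
        ring
      rw [h5]
      exact h4
    · intro j hj l hl hne
      rw [hΛ'] at hne
      rcases hcol j hj l hl hne with h | h | h
      · exact Or.inl h
      · rcases hσz with h' | h'
        · exact Or.inr (Or.inl (by omega))
        · exact Or.inr (Or.inr (Or.inl (by omega)))
      · by_cases hlf : l = f
        · exact Or.inl hlf
        · refine Or.inr (Or.inr (Or.inr ?_))
          rw [hEzl l hlf]
          exact mul_pos (by linarith) h
    · rw [hEzf]
      linarith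
  -- step 2: all blocks have kinks
  have hE'' : ∀ i l, T''.E (i, l) = T'.E (i, l) - if l = f then (cart a z i : ℚ) else 0 := by
    intro i l
    rw [hT'', eta_eq_etaM, etaM_E]
    by_cases h : l = f
    · subst h
      simp [Pi.single_apply]
    · have h' : ¬ f = l := fun e => h e.symm
      simp [h, h']
  have hEx'' : ∀ x ∈ uniB L, ∀ l, T''.E (x, l) = T'.E (x, l) +
      if l = f then (a z x : ℚ) else 0 := by
    intro x hx l
    have hne : z ≠ x := by
      rintro rfl
      exact hzL hx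
    rw [hE'', AG6_cart a hne]
    split_ifs
    · ring
    · ring
  have hΛ'' : T''.Λ = T'.Λ := by
    rw [hT'']
    rfl
  have hReg'' : RReg (uniB L) T'' := by
    refine ⟨?_, ?_⟩
    · intro x hx l hl
      rw [hEx'' x hx l]
      apply AG6_Nadd (hReg'.nat x hx l hl)
      split_ifs
      · exact ⟨_, rfl⟩
      · exact ⟨0, by simp⟩
    · intro x hx j hj l hl hne
      rw [hΛ''] at hne
      have h1 := hReg'.col x hx j hj l hl hne
      rw [hEx'' x hx l]
      have h2 : (0 : ℚ) ≤ if l = f then (a z x : ℚ) else 0 := by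
        split_ifs
        · exact Nat.cast_nonneg _
        · exact le_rfl
      linarith
  have hkink : ∀ b ∈ L, Kink b.B f T'' := by
    intro b hb
    obtain ⟨x, hx, hax⟩ := hadj b hb
    have hxU : x ∈ uniB L := (mem_uniB _ _).2 ⟨b, hb, hx⟩
    refine ⟨x, hx, ?_⟩
    rw [hEx'' x hxU f, if_pos rfl]
    have h1 := AG6_Nge (hReg'.nat x hxU f hf)
    have h2 : (1 : ℚ) ≤ a z x := by exact_mod_cast hax
    linarith
  have hstep2 := evU_all_kink a hs cd f L hL hd T'' hReg'' hkink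
  -- step 3: undo the firing in the explicit term
  have hexz : ∀ l, (expl a f L T').E (z, l) = T'.E (z, l) - if l = f then
      (L.map (fun b => ∑ x ∈ b.B, (a z x : ℚ) * b.q x)).sum else 0 := by
    intro l
    rw [expl_E, AG6_mapneg a hs L z hzL]
    split_ifs
    · ring
    · ring
  have hFz : FReg (expl a f L T') z f σz := by
    refine ⟨?_, ?_, ?_⟩
    · intro l hl hlf
      rw [hexz l, if_neg hlf, sub_zero, hEzl l hlf]
      exact AG6_Nmul (hN l hl hlf) p
    · rw [hexz f, if_pos rfl, hEzf]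
      have h4 := AG6_Zadd (AG6_Zadd hpz hI2) hdV
      have h5 : (p : ℚ) * T.E (z, f) + ∑ v ∈ V, (a z v : ℚ) * (d v : ℚ) -
          (L.map (fun b => ∑ x ∈ b.B, (a z x : ℚ) * b.q x)).sum =
          ((p : ℚ) - 1) * T.E (z, f) +
          (T.E (z, f) - (L.map (fun b => ∑ x ∈ b.B, (a z x : ℚ) * b.q x)).sum) +
          ∑ v ∈ V, (a z v : ℚ) * (d v : ℚ) := by
        ring
      rw [h5]
      exact h4
    · intro j l hl hne
      obtain ⟨hj, hne'⟩ := AG6_col a f L hd T' z hzL j l hne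
      rw [hΛ'] at hne'
      by_cases hlf : l = f
      · exact Or.inr (Or.inl hlf)
      · rcases hcol j hj l hl hne' with h | h | h
        · exact Or.inr (Or.inl h)
        · exact Or.inl h
        · refine Or.inr (Or.inr ?_)
          rw [hexz l, if_neg hlf, sub_zero, hEzl l hlf]
          have h1 := AG6_Npos (hN l hl hlf) h
          nlinarith
  have hstep3 : TV a (expl a f L T') = TV a (expl a f L T'') := by
    rw [TV_fire1 a hs (expl a f L T') z hzz f σz hf hσz hFz (by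
      rw [hexz f, if_pos rfl, hEzf]
      exact hb2), hT'', eta_eq_etaM, eta_eq_etaM, expl_etaM_comm]
  -- step 4: fire `V` in the explicit term
  have hstep4 : TV a (expl a f L (T.pow p)) = TV a (expl a f L T') := by
    rw [hfire (expl a f L (T.pow p)) ?_ ?_, ← expl_etaM_comm, ← hT']
    · intro v hv
      have hvL : v ∉ uniB L := fun h => Finset.disjoint_left.1 hLV.1 h hv
      have hFv := (hTV v hv).pow p hp
      have hEv : ∀ l, (expl a f L (T.pow p)).E (v, l) = (T.pow p).E (v, l) := by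
        intro l
        rw [expl_E, AG6_map0 a L V hLV v hv]
        simp
      refine ⟨?_, ?_, ?_⟩
      · intro l hl hlf
        rw [hEv l]
        exact hFv.nat l hl hlf
      · rw [hEv f]
        exact hFv.int
      · intro j l hl hne
        obtain ⟨hj, hne'⟩ := AG6_col a f L hd (T.pow p) v hvL j l hne
        rw [hEv l]
        exact hFv.col j hj l hl hne'
    · intro v hv
      rw [expl_E, AG6_map0 a L V hLV v hv]
      simp only [ite_self, add_zero]
      rfl
  rw [hstep1, hstep2, hstep4, hstep3]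

theorem evU_conv (a : I → I → ℕ) (hs : ∀ i j, a i j = a j i) (cd : CrossData a) (f : ℕ)
    (hf : 1 ≤ f) (L : List (Blk I)) (hL : ∀ b ∈ L, BlkOk a cd f b)
    (hd : L.Pairwise (fun b c => Sep a b.B c.B)) (V : Finset I) (hV : FinT a V)
    (hLV : Sep a (uniB L) V) (z : I) (hzL : z ∉ uniB L) (hzV : z ∉ V) (hzz : a z z = 0)
    (hadj : ∀ b ∈ L, ∃ x ∈ b.B, 0 < a z x) (T : Trm I) (hT : RReg (uniB L) T) (σ : I → ℕ)
    (hσ : ∀ v ∈ V, Side f (σ v)) (hTV : ∀ v ∈ V, FRegI (uniB L) T v f (σ v)) (σz : ℕ)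
    (hσz : Side f σz) (hN : ∀ l, 1 ≤ l → l ≠ f → IsN (T.E (z, l)))
    (hI2 : IsZ (T.E (z, f) - (L.map (fun b => ∑ x ∈ b.B, (a z x : ℚ) * b.q x)).sum))
    (hcol : ∀ j, j ∉ uniB L → ∀ l, 1 ≤ l → T.Λ j (z, l) ≠ 0 → l = f ∨ l = σz ∨ 0 < T.E (z, l))
    (heff : 0 < T.E (z, f) + ∑ v ∈ V, (a z v : ℚ) * solN a V (fun i => T.E (i, f)) v) :
    evU a (L.map (fun b => (b.B, b.Φ))) T = (L.map Blk.cf).prod * TV a (expl a f L T) := by
  classical
  rw [← sub_eq_zero]
  apply EvP.eq_zero
  obtain ⟨B, hB⟩ := fire_V a hs f hf V hV σ hσ T (fun v hv => (hTV v hv).int)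
  set S : ℚ := (L.map (fun b => ∑ x ∈ b.B, (a z x : ℚ) * b.q x)).sum with hS
  set A : ℚ := ∑ v ∈ V, (a z v : ℚ) with hA
  have hfin : ∀ b ∈ L, FinT a b.B := fun b hb => (hL b hb).fin
  have hFL : FinT a (uniB L) := FinT_uniB a hs L hfin hd
  have e1 := frob_evU a hs (L.map (fun b => (b.B, b.Φ))) (by
    rw [uni_map_blk]
    exact hFL) (AG6_pd hd) (by
    intro c hc
    rw [uni_map_blk]
    exact (PatWide_prod a hs cd f L hL hd c hc).toPatOk) T (by
    rw [uni_map_blk]
    exact hT)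
  have e2 := frob_expl a hs f hf L hfin (fun b hb => (hL b hb).qok) hd T hT
  have e3 := EvP.PI (L.map Blk.cf).prod
  have e4 := EvP.sub_one_mul (T.E (z, f))
  have e5 := EvP.large_mul _ heff (3 + B * A)
  have e6 := EvP.large_mul _ heff (3 + B * A + S)
  refine (EvP.prime.and (e1.and (e2.and (e3.and (e4.and (e5.and e6)))))).mono ?_
  rintro p ⟨hp, h1, h2, h3, h4, h5, h6⟩
  have hp1 : 1 ≤ p := hp.one_lt.le
  obtain ⟨d, hd0, hfire, hdge⟩ := hB p hp1
  have hge : (p : ℚ) * (T.E (z, f) + ∑ v ∈ V, (a z v : ℚ) * solN a V (fun i => T.E (i, f)) v) -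
      B * A ≤ (p : ℚ) * T.E (z, f) + ∑ v ∈ V, (a z v : ℚ) * (d v : ℚ) := by
    have h7 : ∑ v ∈ V, (a z v : ℚ) * ((p : ℚ) * solN a V (fun i => T.E (i, f)) v - B) ≤
        ∑ v ∈ V, (a z v : ℚ) * (d v : ℚ) :=
      Finset.sum_le_sum (fun v hv => mul_le_mul_of_nonneg_left (hdge v hv) (Nat.cast_nonneg _))
    have h8 : ∑ v ∈ V, (a z v : ℚ) * ((p : ℚ) * solN a V (fun i => T.E (i, f)) v - B) =
        (p : ℚ) * ∑ v ∈ V, (a z v : ℚ) * solN a V (fun i => T.E (i, f)) v - B * A := by
      rw [hA, Finset.mul_sum, Finset.mul_sum, ← Finset.sum_sub_distrib]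
      exact Finset.sum_congr rfl (fun v _ => by ring)
    rw [h8] at h7
    linarith
  have hmain := AG6_main a hs cd f hf L hL hd V hLV z hzL hzV hzz hadj T hT σ hTV σz hσz hN hI2
    hcol p hp1 h4 d hd0 hfire (by linarith) (by
      rw [← hS]
      linarith)
  have hfinal : evU a (L.map (fun b => (b.B, b.Φ))) T -
      (L.map Blk.cf).prod * TV a (expl a f L T) =
      -(evU a (L.map (fun b => (b.B, b.Φ))) (T.pow p) - evU a (L.map (fun b => (b.B, b.Φ))) T) +
      (L.map Blk.cf).prod * (TV a (expl a f L (T.pow p)) - TV a (expl a f L T)) := by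
    rw [hmain]
    ring
  rw [hfinal]
  exact PD_add hp (PD_neg h1) (PD_mul hp h2 h3)

end

end Pool.Agent.H27.KAC

end

section

/-!
KAC ADE, module AG7: outer vertices of raw terms and of kinked blocks.

`raw_eff_outer`: with `N = {y ∈ A | m y = 0}`, `M = A ∖ N`, `δ = m - q` (positive on `M`), the exponents of the raw term on `N` at level
`f` are `T.E + C_N q + a_NM δ_M`, so `solN = q + C_N^{-1}(T.E + a_NM δ_M)`; hence the effective exponent of the outer vertex `z` is
`T.E (z,f) + a_zM δ_M + a_zN C_N^{-1}(T.E + a_NM δ_M)`.  It is positive: `z` is adjacent to some `y ∈ A`; if `y ∈ N`, its component in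
`N` is adjacent to `M` (`comps_adj_set`, `solN_component`, `solN_pos`).

`raw_kill`, `raw_conv`: for `m` with some `m y ≠ 0`, `m y ≤ q y` all values are zero by `raw_pos` (all maps commute with `rawT`;
`RReg A` of the filled term by `RReg_patT`, `RReg_expl`); for the other `m` use `TV_kill`, `evU_conv` with
`V = {y ∈ A | m y = 0}`, `σ = f - 1`.
`kink_kill`, `kink_conv`: `TV_kill`, `evU_conv` with `V = A`; the effective exponent of `z` is
`T.E (z,f) + a_zA C_A^{-1} T.E > 0`.
-/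

set_option autoImplicit false

namespace Pool.Agent.H27.KAC

open scoped BigOperators

section

variable {I : Type} [Fintype I] [DecidableEq I]

theorem raw_kill (a : I → I → ℕ) (hs : ∀ i j, a i j = a j i) (cd : CrossData a) (f : ℕ)
    (hf : 1 ≤ f) (A : Finset I) (hA : FinT a A) (hc : ConnS a A) (q : I → ℚ) (hq : QOk a A q)
    (U : Finset I) (hU : FinT a U) (hAU : Sep a A U) (π : Pat I) (hπ : PatWide a cd U f π)
    (T : Trm I) (hT : RReg (A ∪ U) T) (m : I → ℕ) (hm : ¬ Plat A q m) (z : I) (hzA : z ∉ A)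
    (hzU : z ∉ U) (hzz : a z z = 0) (hadj : ∃ y ∈ A, 0 < a z y)
    (hN : ∀ l, 1 ≤ l → IsN (T.E (z, l)))
    (hI2 : IsZ (∑ x ∈ A, (a z x : ℚ) * q x + ∑ x ∈ U, (a z x : ℚ) * π.q x))
    (hcol : ∀ j, j ∉ A → j ∉ U → ∀ l, 1 ≤ l → T.Λ j (z, l) ≠ 0 → l = f ∨ 1 ≤ T.E (z, l)) :
    TV a (patT a U π (rawT a A f q m T)) = 0 := by
  by_cases hgood : ∀ y ∈ A, m y ≠ 0 → q y < m y
  swap
  · exact AG7_raw_bad a hs f hf A hA hc q hq U hAU π T hT m hm hgood
  have hne := AG7_not_plat hm
  have hNA : A.filter (fun v => m v = 0) ⊆ A := Finset.filter_subset _ _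
  have hUA : Sep a U A := hAU.symm hs
  have hT' : RReg (U ∪ A) T := by rw [Finset.union_comm]; exact hT
  refine TV_kill a hs cd f hf U (A.filter (fun v => m v = 0)) hU (hA.mono hNA)
    (hUA.mono (Finset.Subset.refl _) hNA) π hπ (fun _ => f - 1) (fun v _ => Or.inr (by omega))
    (rawT a A f q m T) (RReg_rawT a hs U A hUA f q m T hT')
    (raw_FRegI a hs A hA f hf q hq m U T hT) z hzU (fun h => hzA (hNA h)) hzz ?_ ?_ ?_ ?_ ?_
  · intro l hl hlf _
    rw [AG7_raw_E_ne a A f q m T z hlf]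
    exact hN l hl
  · rw [AG7_raw_E_ne a A f q m T z (by omega)]
    exact AG7_isN_nonneg (hN (f + 1) (by omega))
  · have h1 := AG7_raw_int a hs A f q m T hzA (AG7_isZ_isN (hN f hf))
    have h2 : IsZ (T.E (z, f + 1)) := AG7_isZ_isN (hN (f + 1) (by omega))
    rw [AG7_raw_E_ne a A f q m T z (show f + 1 ≠ f by omega)]
    have h3 := AG7_isZ_sub (AG7_isZ_add h1 h2) hI2
    refine AG7_isZ_congr h3 ⟨0, ?_⟩
    push_cast
    ring
  · intro j hj l hl hΛ
    rcases AG7_raw_col a A f q m T hzA j l hΛ with h | ⟨h1, h2⟩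
    · exact Or.inl h
    · by_cases hlf : l = f
      · exact Or.inl hlf
      rcases hcol j h1 hj l hl h2 with h | h
      · exact Or.inl h
      · rw [AG7_raw_E_ne a A f q m T z hlf]
        exact Or.inr (by linarith)
  · exact raw_eff_outer a hs A hA hc f hf q hq T
      (fun x hx => hT.nat x (Finset.mem_union_left _ hx) f hf) m hgood hne z hzA hadj
      (AG7_isN_nonneg (hN f hf))

theorem raw_conv (a : I → I → ℕ) (hs : ∀ i j, a i j = a j i) (cd : CrossData a) (f : ℕ)
    (hf : 1 ≤ f) (A : Finset I) (hA : FinT a A) (hc : ConnS a A) (q : I → ℚ) (hq : QOk a A q)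
    (L : List (Blk I)) (hL : ∀ b ∈ L, BlkOk a cd f b)
    (hd : L.Pairwise (fun b c => Sep a b.B c.B)) (hAL : Sep a A (uniB L))
    (T : Trm I) (hT : RReg (A ∪ uniB L) T) (m : I → ℕ) (hm : ¬ Plat A q m) (z : I) (hzA : z ∉ A)
    (hzL : z ∉ uniB L) (hzz : a z z = 0) (hadj : ∃ y ∈ A, 0 < a z y)
    (hadjL : ∀ b ∈ L, ∃ x ∈ b.B, 0 < a z x) (σz : ℕ) (hσz : Side f σz)
    (hN : ∀ l, 1 ≤ l → IsN (T.E (z, l)))
    (hI2 : IsZ (∑ x ∈ A, (a z x : ℚ) * q x +
      (L.map (fun b => ∑ x ∈ b.B, (a z x : ℚ) * b.q x)).sum))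
    (hcol : ∀ j, j ∉ A → j ∉ uniB L → ∀ l, 1 ≤ l → T.Λ j (z, l) ≠ 0 →
      l = f ∨ l = σz ∨ 1 ≤ T.E (z, l)) :
    evU a (L.map (fun b => (b.B, b.Φ))) (rawT a A f q m T) =
      (L.map Blk.cf).prod * TV a (expl a f L (rawT a A f q m T)) := by
  by_cases hgood : ∀ y ∈ A, m y ≠ 0 → q y < m y
  swap
  · have h1 : TV a (expl a f L (rawT a A f q m T)) = 0 := by
      rw [expl_rawT_comm a f L A hAL.1]
      by_contra h
      exact hgood (raw_pos a hs A hA hc f hf q hq _ (RReg_expl a hs f L A hAL T hT) m hm h)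
    rw [h1, mul_zero]
    have hd' : (L.map (fun b => (b.B, b.Φ))).Pairwise (fun b c => Disjoint b.1 c.1) := by
      rw [List.pairwise_map]
      exact hd.imp fun h => h.1
    rw [evU_eq_evF a _ hd', uni_map_blk]
    unfold evF
    refine List.sum_eq_zero fun x hx => ?_
    obtain ⟨c, -, rfl⟩ := List.mem_map.1 hx
    rw [AG7_raw_bad a hs f hf A hA hc q hq (uniB L) hAL c.2 T hT m hm hgood, mul_zero]
  have hne := AG7_not_plat hm
  have hNA : A.filter (fun v => m v = 0) ⊆ A := Finset.filter_subset _ _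
  have hUA : Sep a (uniB L) A := hAL.symm hs
  have hT' : RReg (uniB L ∪ A) T := by rw [Finset.union_comm]; exact hT
  refine evU_conv a hs cd f hf L hL hd (A.filter (fun v => m v = 0)) (hA.mono hNA)
    (hUA.mono (Finset.Subset.refl _) hNA) z hzL (fun h => hzA (hNA h)) hzz hadjL
    (rawT a A f q m T) (RReg_rawT a hs (uniB L) A hUA f q m T hT')
    (fun _ => f - 1) (fun v _ => Or.inr (by omega))
    (raw_FRegI a hs A hA f hf q hq m (uniB L) T hT) σz hσz ?_ ?_ ?_ ?_
  · intro l hl hlf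
    rw [AG7_raw_E_ne a A f q m T z hlf]
    exact hN l hl
  · have h1 := AG7_raw_int a hs A f q m T hzA (AG7_isZ_isN (hN f hf))
    have h3 := AG7_isZ_sub h1 hI2
    refine AG7_isZ_congr h3 ⟨0, ?_⟩
    push_cast
    ring
  · intro j hj l hl hΛ
    rcases AG7_raw_col a A f q m T hzA j l hΛ with h | ⟨h1, h2⟩
    · exact Or.inl h
    · by_cases hlf : l = f
      · exact Or.inl hlf
      rcases hcol j h1 hj l hl h2 with h | h | h
      · exact Or.inl h
      · exact Or.inr (Or.inl h)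
      · rw [AG7_raw_E_ne a A f q m T z hlf]
        exact Or.inr (Or.inr (by linarith))
  · exact raw_eff_outer a hs A hA hc f hf q hq T
      (fun x hx => hT.nat x (Finset.mem_union_left _ hx) f hf) m hgood hne z hzA hadj
      (AG7_isN_nonneg (hN f hf))

theorem kink_kill (a : I → I → ℕ) (hs : ∀ i j, a i j = a j i) (cd : CrossData a) (f : ℕ)
    (hf : 1 ≤ f) (A : Finset I) (hA : FinT a A) (hc : ConnS a A) (σ : ℕ) (hσ : Side f σ)
    (q : I → ℚ) (hq : QOk a A q) (U : Finset I) (hU : FinT a U) (hAU : Sep a A U) (π : Pat I)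
    (hπ : PatWide a cd U f π) (T : Trm I) (hT : RReg (A ∪ U) T) (hk : Kink A f T) (z : I)
    (hzA : z ∉ A) (hzU : z ∉ U) (hzz : a z z = 0) (hadj : ∃ y ∈ A, 0 < a z y)
    (hN : ∀ l, 1 ≤ l → IsN (T.E (z, l)))
    (hI2 : IsZ (∑ x ∈ A, (a z x : ℚ) * q x + ∑ x ∈ U, (a z x : ℚ) * π.q x))
    (hcol : ∀ j, j ∉ A → j ∉ U → ∀ l, 1 ≤ l → T.Λ j (z, l) ≠ 0 → l = f ∨ 1 ≤ T.E (z, l)) :
    TV a (patT a U π (blkT a A f σ q T)) = 0 := by
  have hUA : Sep a U A := hAU.symm hs
  have hT' : RReg (U ∪ A) T := by rw [Finset.union_comm]; exact hT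
  refine TV_kill a hs cd f hf U A hU hA hUA π hπ (fun _ => σ) (fun v _ => hσ)
    (blkT a A f σ q T) (RReg_blkT a hs U A hUA f σ q T hT')
    (AG7_blk_FRegI a hs A f hf σ q hq U T hT) z hzU hzA hzz ?_ ?_ ?_ ?_ ?_
  · intro l hl hlf _
    rw [AG7_blk_E_ne a A f σ q T z hlf]
    exact hN l hl
  · rw [AG7_blk_E_ne a A f σ q T z (by omega)]
    exact AG7_isN_nonneg (hN (f + 1) (by omega))
  · have h1 := AG7_blk_int a hs A f σ q T hzA (AG7_isZ_isN (hN f hf))
    have h2 : IsZ (T.E (z, f + 1)) := AG7_isZ_isN (hN (f + 1) (by omega))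
    rw [AG7_blk_E_ne a A f σ q T z (show f + 1 ≠ f by omega)]
    have h3 := AG7_isZ_sub (AG7_isZ_add h1 h2) hI2
    refine AG7_isZ_congr h3 ⟨0, ?_⟩
    push_cast
    ring
  · intro j hj l hl hΛ
    obtain ⟨h1, h2⟩ := AG7_blk_col a A f σ q T hzA j l hΛ
    by_cases hlf : l = f
    · exact Or.inl hlf
    rcases hcol j h1 hj l hl h2 with h | h
    · exact Or.inl h
    · rw [AG7_blk_E_ne a A f σ q T z hlf]
      exact Or.inr (by linarith)
  · exact AG7_kink_eff a hs A hA hc f σ q T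
      (fun x hx => hT.nat x (Finset.mem_union_left _ hx) f hf) hk z hzA hadj
      (AG7_isN_nonneg (hN f hf))

theorem kink_conv (a : I → I → ℕ) (hs : ∀ i j, a i j = a j i) (cd : CrossData a) (f : ℕ)
    (hf : 1 ≤ f) (A : Finset I) (hA : FinT a A) (hc : ConnS a A) (σ : ℕ) (hσ : Side f σ)
    (q : I → ℚ) (hq : QOk a A q) (L : List (Blk I)) (hL : ∀ b ∈ L, BlkOk a cd f b)
    (hd : L.Pairwise (fun b c => Sep a b.B c.B)) (hAL : Sep a A (uniB L))
    (T : Trm I) (hT : RReg (A ∪ uniB L) T) (hk : Kink A f T) (z : I) (hzA : z ∉ A)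
    (hzL : z ∉ uniB L) (hzz : a z z = 0) (hadj : ∃ y ∈ A, 0 < a z y)
    (hadjL : ∀ b ∈ L, ∃ x ∈ b.B, 0 < a z x) (σz : ℕ) (hσz : Side f σz)
    (hN : ∀ l, 1 ≤ l → IsN (T.E (z, l)))
    (hI2 : IsZ (∑ x ∈ A, (a z x : ℚ) * q x +
      (L.map (fun b => ∑ x ∈ b.B, (a z x : ℚ) * b.q x)).sum))
    (hcol : ∀ j, j ∉ A → j ∉ uniB L → ∀ l, 1 ≤ l → T.Λ j (z, l) ≠ 0 →
      l = f ∨ l = σz ∨ 1 ≤ T.E (z, l)) :
    evU a (L.map (fun b => (b.B, b.Φ))) (blkT a A f σ q T) =
      (L.map Blk.cf).prod * TV a (expl a f L (blkT a A f σ q T)) := by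
  have hUA : Sep a (uniB L) A := hAL.symm hs
  have hT' : RReg (uniB L ∪ A) T := by rw [Finset.union_comm]; exact hT
  refine evU_conv a hs cd f hf L hL hd A hA hUA z hzL hzA hzz hadjL
    (blkT a A f σ q T) (RReg_blkT a hs (uniB L) A hUA f σ q T hT')
    (fun _ => σ) (fun v _ => hσ)
    (AG7_blk_FRegI a hs A f hf σ q hq (uniB L) T hT) σz hσz ?_ ?_ ?_ ?_
  · intro l hl hlf
    rw [AG7_blk_E_ne a A f σ q T z hlf]
    exact hN l hl
  · have h1 := AG7_blk_int a hs A f σ q T hzA (AG7_isZ_isN (hN f hf))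
    have h3 := AG7_isZ_sub h1 hI2
    refine AG7_isZ_congr h3 ⟨0, ?_⟩
    push_cast
    ring
  · intro j hj l hl hΛ
    obtain ⟨h1, h2⟩ := AG7_blk_col a A f σ q T hzA j l hΛ
    by_cases hlf : l = f
    · exact Or.inl hlf
    rcases hcol j h1 hj l hl h2 with h | h | h
    · exact Or.inl h
    · exact Or.inr (Or.inl h)
    · rw [AG7_blk_E_ne a A f σ q T z hlf]
      exact Or.inr (Or.inr (by linarith))
  · exact AG7_kink_eff a hs A hA hc f σ q T
      (fun x hx => hT.nat x (Finset.mem_union_left _ hx) f hf) hk z hzA hadj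
      (AG7_isN_nonneg (hN f hf))

end

end Pool.Agent.H27.KAC

end

section

/-!
KAC ADE, module AG8: events and the no-pole lemma (NP).

`evU_event`: `evU_cons'` (or `evU_eq_evF` for the tail) and `Resp.stp` for the terms `patT a (uni U) c.2 T`, which are `RReg b.B`
(`RReg_patT`, `hins`); the bound `bnd b.B f q` of these terms is the one of `T` (the patterns change `γ` only on `uni U`);
`rawT_patT_comm`.

`NP_list`: induction on `f`.  `f = 0`: `Resp.a0` for all blocks, then all insertions are at level `0`, `TV_van` in direction `s`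
(`DReg` only concerns the levels `≥ 1`).  Step: replace `Φ_b f` by `Φ_b (f-1)` block after block (`evU_event`, `evU_perm`), every
difference is a sum of terms `evU others (rawT b.B f q m T)`; these vanish by `raw_kill` (`z = s`; `hI2` from `hZ` and
`WinPat.cls`).

`NP_up`: `L` = the components of `N` adjacent to `s`, `N'` = the union of the others; `NP_list` for `T' = upT a N' k q T` at `f = k - 1`.
-/

set_option autoImplicit false

namespace Pool.Agent.H27.KAC

open scoped BigOperators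

section

variable {I : Type} [Fintype I] [DecidableEq I]

/-- there is a response family for the functional `Up_k[q]` on `A` (`k ≥ 1`). -/
def UpFam (a : I → I → ℕ) (cd : CrossData a) (A : Finset I) (q : I → ℚ) (k : ℕ) : Prop :=
  ∃ Φ : ℕ → FFn I, Resp a cd A q (k - 1) (fun l => upw a cd A q (k - l)) Φ ∧
    ∀ T : Trm I, RReg A T → evF a A (Φ (k - 1)) T = TV a (upT a A k q T)

/-- there is a response family for the functional `tau_{L+1}[q]` on `A`. -/
def TauFam (a : I → I → ℕ) (cd : CrossData a) (A : Finset I) (q : I → ℚ) (L : ℕ) : Prop :=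
  ∃ Φ : ℕ → FFn I, Resp a cd A q L (fun l => cn a cd A q (L - l)) Φ ∧
    Φ L = [(1, ⟨fun _ => L, q⟩)]

/-- choose data for all components of `N`, as a list. -/
theorem exists_RB_list (a : I → I → ℕ) (hs : ∀ i j, a i j = a j i) (N : Finset I)
    (P : Finset I → (ℕ → ℚ) → (ℕ → FFn I) → Prop) (h : ∀ A ∈ comps a N, ∃ w Φ, P A w Φ) :
    ∃ L : List (RB I), (∀ b ∈ L, b.B ∈ comps a N ∧ P b.B b.w b.Φ) ∧
      (∀ A ∈ comps a N, ∃ b ∈ L, b.B = A) ∧ L.Pairwise (fun b c => Sep a b.B c.B) ∧ uniR L = N ∧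
      ∀ g : Finset I → ℚ, (L.map (fun b => g b.B)).prod = ∏ A ∈ comps a N, g A := by
  classical
  choose w Φ hP using h
  refine ⟨(comps a N).attach.toList.map (fun A => ⟨A.1, w A.1 A.2, Φ A.1 A.2⟩), ?_, ?_, ?_, ?_, ?_⟩
  · intro b hb
    obtain ⟨A, -, rfl⟩ := List.mem_map.1 hb
    exact ⟨A.2, hP A.1 A.2⟩
  · intro A hA
    exact ⟨⟨A, w A hA, Φ A hA⟩, List.mem_map.2 ⟨⟨A, hA⟩, by simp, rfl⟩, rfl⟩
  · rw [List.pairwise_map]
    have hnd : (comps a N).attach.toList.Nodup := Finset.nodup_toList _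
    refine List.Pairwise.imp ?_ hnd
    intro A B hAB
    have hne : A.1 ≠ B.1 := fun h => hAB (Subtype.ext h)
    exact ⟨comps_disjoint hs A.2 B.2 hne, comps_nonadj hs A.2 B.2 hne⟩
  · ext x
    rw [mem_uniR]
    constructor
    · rintro ⟨b, hb, hx⟩
      obtain ⟨A, -, rfl⟩ := List.mem_map.1 hb
      exact comps_subset A.2 hx
    · intro hx
      obtain ⟨A, hA, hxA⟩ := comps_cover hs x hx
      exact ⟨⟨A, w A hA, Φ A hA⟩, List.mem_map.2 ⟨⟨A, hA⟩, by simp, rfl⟩, hxA⟩
  · intro g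
    rw [List.map_map]
    have h1 : ((comps a N).attach.toList.map
        ((fun b : RB I => g b.B) ∘ fun A => (⟨A.1, w A.1 A.2, Φ A.1 A.2⟩ : RB I))).prod =
        ∏ A ∈ (comps a N).attach, g A.1 := by
      rw [← Finset.prod_map_toList]
      rfl
    rw [h1, Finset.prod_attach (comps a N) g]

/-- the blocks of `L` at the frontier `f`. -/
def atF (L : List (RB I)) (f : ℕ) : List (Finset I × FFn I) := L.map (fun b => (b.B, b.Φ f))

theorem uni_atF (L : List (RB I)) (f : ℕ) : uni (atF L f) = uniR L := by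
  induction L with
  | nil => rfl
  | cons b L ih =>
    change b.B ∪ uni (atF L f) = b.B ∪ uniR L
    rw [ih]

omit [Fintype I] in
theorem AG8_uniR_cons (b : RB I) (L : List (RB I)) : uniR (b :: L) = b.B ∪ uniR L := rfl

theorem AG8_atF_cons (b : RB I) (L : List (RB I)) (f : ℕ) :
    atF (b :: L) f = (b.B, b.Φ f) :: atF L f := rfl

theorem AG8_bnd_congr (R : Finset I) (k : ℕ) (q : I → ℚ) (T T' : Trm I)
    (h : ∀ i ∈ R, T.γ i = T'.γ i) : bnd R k q T = bnd R k q T' := by
  unfold bnd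
  exact Finset.sum_congr rfl (fun i hi => by rw [h i hi])

theorem AG8_patT_γ (a : I → I → ℕ) (B : Finset I) (π : Pat I) (T : Trm I) (i : I) (hi : i ∉ B) :
    (patT a B π T).γ i = T.γ i := by
  change T.γ i - (π.s i : ℚ) * (-resQ B π.q i) = T.γ i
  simp [resQ, hi]

theorem AG8_sep_uni (a : I → I → ℕ) (B : Finset I) (U : List (Finset I × FFn I))
    (h : ∀ c ∈ U, Sep a B c.1) : Sep a B (uni U) := by
  constructor
  · rw [Finset.disjoint_left]
    intro x hx hxU
    obtain ⟨c, hc, hxc⟩ := (mem_uni U x).1 hxU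
    exact Finset.disjoint_left.1 (h c hc).1 hx hxc
  · intro x hx y hy
    obtain ⟨c, hc, hyc⟩ := (mem_uni U y).1 hy
    exact (h c hc).2 x hx y hyc

theorem AG8_sep_uniR (a : I → I → ℕ) (B : Finset I) (L : List (RB I))
    (h : ∀ c ∈ L, Sep a B c.B) : Sep a B (uniR L) := by
  constructor
  · rw [Finset.disjoint_left]
    intro x hx hxU
    obtain ⟨c, hc, hxc⟩ := (mem_uniR L x).1 hxU
    exact Finset.disjoint_left.1 (h c hc).1 hx hxc
  · intro x hx y hy
    obtain ⟨c, hc, hyc⟩ := (mem_uniR L y).1 hy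
    exact (h c hc).2 x hx y hyc

/-- evaluation of the first block by an explicit term. -/
theorem AG8_head (a : I → I → ℕ) (hs : ∀ i j, a i j = a j i) (B : Finset I) (Φ : FFn I)
    (U : List (Finset I × FFn I)) (hd : U.Pairwise (fun b c => Disjoint b.1 c.1))
    (hsep : ∀ b ∈ U, Sep a B b.1) (w : ℚ) (k σ : ℕ) (q : I → ℚ)
    (h : ∀ T : Trm I, RReg B T → evF a B Φ T = w * TV a (blkT a B k σ q T)) (T : Trm I)
    (hT : RReg (B ∪ uni U) T) :
    evU a ((B, Φ) :: U) T = w * evU a U (blkT a B k σ q T) := by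
  have hS : Sep a B (uni U) := AG8_sep_uni a B U hsep
  rw [evU_cons' a (B, Φ) U (fun c hc => (hsep c hc).1) hd T, evU_eq_evF a U hd]
  unfold evF
  rw [← List.sum_map_mul_left]
  refine congrArg List.sum (List.map_congr_left ?_)
  intro c _
  have h1 := h (patT a (uni U) c.2 T) (RReg_patT a hs B (uni U) hS.1 c.2
    (fun x hx y hy _ => hS.2 x hx y hy) T hT)
  change c.1 * evF a B Φ (patT a (uni U) c.2 T) = _
  rw [h1, blkT_patT_comm a B (uni U) hS.1]
  ring

theorem AG8_disj_atF (a : I → I → ℕ) (L : List (RB I)) (g : RB I → ℕ)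
    (hd : L.Pairwise (fun b c => Sep a b.B c.B)) :
    (L.map (fun b => (b.B, b.Φ (g b)))).Pairwise (fun b c => Disjoint b.1 c.1) := by
  rw [List.pairwise_map]
  exact hd.imp (fun h => h.1)

/-- evaluation of all blocks by explicit terms with weights. -/
theorem AG8_eval (a : I → I → ℕ) (hs : ∀ i j, a i j = a j i) (w : RB I → ℚ) (q : I → ℚ)
    (k σ f : ℕ) (L : List (RB I)) (hd : L.Pairwise (fun b c => Sep a b.B c.B))
    (h : ∀ b ∈ L, ∀ T : Trm I, RReg b.B T →
      evF a b.B (b.Φ f) T = w b * TV a (blkT a b.B k σ q T))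
    (T : Trm I) (hT : RReg (uniR L) T) :
    evU a (atF L f) T = (L.map w).prod * TV a (blkT a (uniR L) k σ q T) := by
  induction L generalizing T with
  | nil =>
    change evU a [] T = 1 * TV a (blkT a ∅ k σ q T)
    rw [evU_nil, blkT_empty, one_mul]
  | cons b L ih =>
    rw [List.pairwise_cons] at hd
    have hS : Sep a b.B (uniR L) := AG8_sep_uniR a b.B L hd.1
    have hT' : RReg (b.B ∪ uniR L) T := hT
    rw [AG8_atF_cons, AG8_head a hs b.B (b.Φ f) (atF L f) (AG8_disj_atF a L (fun _ => f) hd.2)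
      ?_ (w b) k σ q (h b List.mem_cons_self) T (by rw [uni_atF]; exact hT'),
      ih hd.2 (fun c hc => h c (List.mem_cons_of_mem b hc)) (blkT a b.B k σ q T)
        (RReg_blkT a hs (uniR L) b.B (Sep.symm hs hS) k σ q T (by
          rw [Finset.union_comm]; exact hT')),
      ← blkT_union a (uniR L) b.B hS.1.symm, AG8_uniR_cons, Finset.union_comm b.B (uniR L),
      List.map_cons, List.prod_cons]
    · ring
    · intro c hc
      obtain ⟨c', hc', rfl⟩ := List.mem_map.1 hc
      exact hd.1 c' hc'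

open Classical in
theorem evU_event (a : I → I → ℕ) (hs : ∀ i j, a i j = a j i) (cd : CrossData a) (q : I → ℚ)
    (K : ℕ) (b : RB I) (hb : Resp a cd b.B q K b.w b.Φ) (f : ℕ) (hf : 1 ≤ f) (hfK : f ≤ K)
    (U : List (Finset I × FFn I)) (hdb : ∀ c ∈ U, Disjoint b.B c.1)
    (hd : U.Pairwise (fun b c => Disjoint b.1 c.1))
    (hins : ∀ c ∈ prodF U, ∀ x ∈ b.B, ∀ y ∈ uni U, c.2.q y ≠ 0 → a x y = 0)
    (T : Trm I) (hT : RReg (b.B ∪ uni U) T) (B : ℕ) (hB : bnd b.B f q T ≤ B) :
    evU a ((b.B, b.Φ f) :: U) T - evU a ((b.B, b.Φ (f - 1)) :: U) T =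
      b.w f * ∑ m ∈ (mbox b.B B).filter (fun m => ¬ Plat b.B q m),
        sgm b.B m * evU a U (rawT a b.B f q m T) := by
  have hD : Disjoint b.B (uni U) := by
    rw [Finset.disjoint_left]
    intro x hx hxU
    obtain ⟨c, hc, hxc⟩ := (mem_uni U x).1 hxU
    exact Finset.disjoint_left.1 (hdb c hc) hx hxc
  rw [evU_cons' a (b.B, b.Φ f) U hdb hd T, evU_cons' a (b.B, b.Φ (f - 1)) U hdb hd T]
  have h1 : ∀ c ∈ prodF U, evF a b.B (b.Φ f) (patT a (uni U) c.2 T) -
      evF a b.B (b.Φ (f - 1)) (patT a (uni U) c.2 T) =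
      b.w f * ∑ m ∈ (mbox b.B B).filter (fun m => ¬ Plat b.B q m),
        sgm b.B m * TV a (patT a (uni U) c.2 (rawT a b.B f q m T)) := by
    intro c hc
    have hR : RReg b.B (patT a (uni U) c.2 T) := RReg_patT a hs b.B (uni U) hD c.2
      (fun x hx y hy hq => hins c hc x hx y hy hq) T hT
    have hb1 : bnd b.B f q (patT a (uni U) c.2 T) = bnd b.B f q T :=
      AG8_bnd_congr b.B f q _ _ (fun i hi =>
        AG8_patT_γ a (uni U) c.2 T i (fun hiU => Finset.disjoint_left.1 hD hi hiU))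
    rw [hb.stp f hf hfK _ hR]
    unfold Rv
    rw [← sum_raw_bound a b.B f hf q (patT a (uni U) c.2 T) (fun m => ¬ Plat b.B q m) B
      (by rw [hb1]; exact hB)]
    refine congrArg (fun z => b.w f * z) (Finset.sum_congr rfl ?_)
    intro m _
    rw [rawT_patT_comm a b.B (uni U) hD]
  have h2 : ∀ m : I → ℕ, evU a U (rawT a b.B f q m T) =
      ((prodF U).map (fun c => c.1 * TV a (patT a (uni U) c.2 (rawT a b.B f q m T)))).sum := by
    intro m
    rw [evU_eq_evF a U hd]
    rfl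
  simp only [h2]
  generalize prodF U = l at h1
  clear hins h2
  induction l with
  | nil => simp
  | cons c l ih =>
    have ih' := ih (fun c' hc' => h1 c' (List.mem_cons_of_mem c hc'))
    have hc := h1 c List.mem_cons_self
    simp only [List.map_cons, List.sum_cons, mul_add, Finset.sum_add_distrib]

    have h3 : b.w f * ∑ m ∈ (mbox b.B B).filter (fun m => ¬ Plat b.B q m),
        sgm b.B m * (c.1 * TV a (patT a (uni U) c.2 (rawT a b.B f q m T))) =
        c.1 * (b.w f * ∑ m ∈ (mbox b.B B).filter (fun m => ¬ Plat b.B q m),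
        sgm b.B m * TV a (patT a (uni U) c.2 (rawT a b.B f q m T))) := by
      rw [mul_left_comm, Finset.mul_sum (s := (mbox b.B B).filter (fun m => ¬ Plat b.B q m))
        (a := c.1)]
      refine congrArg (fun z => b.w f * z) (Finset.sum_congr rfl ?_)
      intro m _
      ring
    rw [h3, ← hc, ← ih']
    ring

/-- value at the frontier `0`. -/
theorem evU_a0 (a : I → I → ℕ) (hs : ∀ i j, a i j = a j i) (cd : CrossData a) (q : I → ℚ)
    (K : ℕ) (L : List (RB I)) (hd : L.Pairwise (fun b c => Sep a b.B c.B))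
    (hresp : ∀ b ∈ L, Resp a cd b.B q K b.w b.Φ) (T : Trm I) (hT : RReg (uniR L) T) :
    evU a (atF L 0) T = (L.map (fun b => b.w 0)).prod * TV a (tauT a (uniR L) 0 q T) := by
  exact AG8_eval a hs (fun b => b.w 0) q 0 (0 + 1) 0 L hd
    (fun b hb T hT => (hresp b hb).a0 T hT) T hT

omit [Fintype I] in
theorem AG8_uni_append (U V : List (Finset I × FFn I)) : uni (U ++ V) = uni U ∪ uni V := by
  induction U with
  | nil => simp [uni]
  | cons b U ih =>
    change b.1 ∪ uni (U ++ V) = (b.1 ∪ uni U) ∪ uni V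
    rw [ih, Finset.union_assoc]

omit [Fintype I] in
theorem AG8_uniR_append (U V : List (RB I)) : uniR (U ++ V) = uniR U ∪ uniR V := by
  induction U with
  | nil => simp [uniR]
  | cons b U ih =>
    change b.B ∪ uniR (U ++ V) = (b.B ∪ uniR U) ∪ uniR V
    rw [ih, Finset.union_assoc]

theorem AG8_FinT_uni (a : I → I → ℕ) (hs : ∀ i j, a i j = a j i) (U : List (Finset I × FFn I))
    (hfin : ∀ b ∈ U, FinT a b.1) (hd : U.Pairwise (fun b c => Sep a b.1 c.1)) :
    FinT a (uni U) := by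
  induction U with
  | nil => exact FinT.empty a
  | cons b U ih =>
    rw [List.pairwise_cons] at hd
    exact FinT.union_sep hs (hfin b List.mem_cons_self)
      (ih (fun c hc => hfin c (List.mem_cons_of_mem b hc)) hd.2)
      (AG8_sep_uni a b.1 U hd.1)

/-- the value of a term which is regular in the direction `s` after filling the blocks at level zero. -/
theorem AG8_lev0 (a : I → I → ℕ) (hs : ∀ i j, a i j = a j i) (R : Finset I) (q : I → ℚ) (s : I)
    (hsR : s ∉ R) (hss : a s s = 0) (T : Trm I) (hN : ∀ l, 1 ≤ l → IsN (T.E (s, l)))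
    (hcol : ∀ j, j ∉ R → ∀ l, 1 ≤ l → T.Λ j (s, l) ≠ 0 → 1 ≤ T.E (s, l)) :
    TV a (tauT a R 0 q T) = 0 := by
  have hE : ∀ l, 1 ≤ l → (tauT a R 0 q T).E (s, l) = T.E (s, l) := by
    intro l hl
    rw [blkT_E, if_neg (by omega), add_zero]
  refine TV_van a hs _ s hss ⟨?_, ?_⟩
  · intro l hl
    obtain ⟨n, hn⟩ := hN l hl
    exact ⟨n, by rw [hE l hl, hn]⟩
  · intro j l hl hne
    rw [hE l hl]
    by_cases hj : j ∈ R
    · exfalso
      apply hne
      change (if j ∈ R then sy j (0 + 1) else T.Λ j) (s, l) = 0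
      rw [if_pos hj]
      have hjs : j ≠ s := fun h => hsR (h ▸ hj)
      exact Finsupp.single_eq_of_ne (fun h => hjs (congrArg Prod.fst h).symm)
    · apply hcol j hj l hl
      change (if j ∈ R then sy j (0 + 1) else T.Λ j) (s, l) ≠ 0 at hne
      rw [if_neg hj] at hne
      exact hne

/-- evaluation of all blocks by explicit terms: `h` is the evaluation of one block for all regular terms. -/
theorem evU_eval_up (a : I → I → ℕ) (hs : ∀ i j, a i j = a j i) (q : I → ℚ) (k f : ℕ)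
    (L : List (RB I)) (hd : L.Pairwise (fun b c => Sep a b.B c.B))
    (h : ∀ b ∈ L, ∀ T : Trm I, RReg b.B T → evF a b.B (b.Φ f) T = TV a (upT a b.B k q T))
    (T : Trm I) (hT : RReg (uniR L) T) :
    evU a (atF L f) T = TV a (upT a (uniR L) k q T) := by
  have h1 := AG8_eval a hs (fun _ => 1) q k (k - 1) f L hd
    (fun b hb T hT => by rw [one_mul]; exact h b hb T hT) T hT
  rw [h1]
  simp

end

end Pool.Agent.H27.KAC

end

section

/-!
KAC ADE, module AG9: the star context, evaluation of the chain vertex.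

`RB_blkOk`, `up = true`: for kinked terms `evF (Φ (f-1)) = evF (Φ f) - w f Rv = w f (tauT - Rv) = w f PPv = w f (-1)^|B| upT`
(`Resp.knk`, `Resp.stp`, `TV_step_split`, `PPv_kink`); `WinPat.wide_succ`.
-/

set_option autoImplicit false

namespace Pool.Agent.H27.KAC

open scoped BigOperators

section

variable {I : Type} [Fintype I] [DecidableEq I]

/-- context of the star theorem: `R` connected, `x ∈ R` with integral class and affine weight `u`, families for the
components of `R ∖ x`. -/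
structure StarCtx (a : I → I → ℕ) (cd : CrossData a) (R : Finset I) (x : I) (q : I → ℚ) (K : ℕ)
    (u : ℕ → ℚ) (L : List (RB I)) : Prop where
  fin : FinT a R
  conn : ConnS a R
  qok : QOk a R q
  hx : x ∈ R
  hz : IsZ (q x)
  aff : Aff u
  cov : uniR L = R.erase x
  sep : L.Pairwise (fun b c => Sep a b.B c.B)
  bconn : ∀ b ∈ L, ConnS a b.B
  resp : ∀ b ∈ L, Resp a cd b.B q K b.w b.Φ

/-- the weight of the star family. -/
noncomputable def stW (u : ℕ → ℚ) (L : List (RB I)) (l : ℕ) : ℚ :=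
  u l * (L.map (fun b => b.w l)).prod

/-- the star family. -/
noncomputable def stF (x : I) (u : ℕ → ℚ) (L : List (RB I)) (f : ℕ) : FFn I :=
  prodF (({x}, alU u f) :: atF L f)

private theorem AG9_cart_ne (a : I → I → ℕ) (x y : I) (h : x ≠ y) :
    ((cart a x y : ℤ) : ℚ) = -(a x y : ℚ) := by
  unfold cart
  rw [if_neg h]
  push_cast
  ring

private theorem AG9_isN_nonneg_int {r : ℚ} (h : IsZ r) (h0 : 0 ≤ r) : IsN r := by
  obtain ⟨n, hn⟩ := h
  have h1 : (0 : ℤ) ≤ n := by
    rw [hn] at h0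
    exact_mod_cast h0
  obtain ⟨m, hm⟩ := Int.eq_ofNat_of_zero_le h1
  refine ⟨m, ?_⟩
  rw [hn, hm]
  push_cast
  rfl

private theorem AG9_isZ_sum {ι : Type} (s : Finset ι) (f : ι → ℚ) (h : ∀ i ∈ s, IsZ (f i)) :
    IsZ (∑ i ∈ s, f i) := by
  classical
  induction s using Finset.induction_on with
  | empty => exact ⟨0, by simp⟩
  | insert i s hi ih =>
    obtain ⟨m, hm⟩ := h i (Finset.mem_insert_self i s)
    obtain ⟨n, hn⟩ := ih (fun j hj => h j (Finset.mem_insert_of_mem hj))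
    refine ⟨m + n, ?_⟩
    rw [Finset.sum_insert hi, hm, hn]
    push_cast
    ring

private theorem AG9_QOk_sub {a : I → I → ℕ} (hs : ∀ i j, a i j = a j i) {R : Finset I}
    {q : I → ℚ}
    (hR : FinT a R) (hq : QOk a R q) (A : Finset I) (hA : A ⊆ R)
    (h : ∀ y ∈ A, ∀ x ∈ R, x ∉ A → a y x = 0 ∨ IsZ (q x)) : QOk a A q := by
  have hpos : ∀ i ∈ R, 0 ≤ q i := by
    refine FinT.nonneg hs hR q (fun i hi => ?_)
    obtain ⟨n, hn, hn2⟩ := hq i hi
    rw [hn2]
    positivity
  intro y hy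
  obtain ⟨n, hn, hn2⟩ := hq y (hA hy)
  have h1 : cqN a R q y = cqN a A q y + ∑ j ∈ R \ A, ((cart a y j : ℤ) : ℚ) * q j := by
    unfold cqN
    rw [add_comm]
    exact (Finset.sum_sdiff hA).symm
  have h2 : ∑ j ∈ R \ A, ((cart a y j : ℤ) : ℚ) * q j = -∑ j ∈ R \ A, (a y j : ℚ) * q j := by
    rw [← Finset.sum_neg_distrib]
    refine Finset.sum_congr rfl (fun j hj => ?_)
    have hj2 : j ∉ A := (Finset.mem_sdiff.mp hj).2
    rw [AG9_cart_ne a y j (fun he => hj2 (he ▸ hy))]
    ring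
  have h3 : IsN (∑ j ∈ R \ A, (a y j : ℚ) * q j) := by
    refine AG9_isN_nonneg_int (AG9_isZ_sum _ _ (fun j hj => ?_)) (Finset.sum_nonneg (fun j hj => ?_))
    · rcases h y hy j (Finset.mem_sdiff.mp hj).1 (Finset.mem_sdiff.mp hj).2 with h4 | ⟨m, hm⟩
      · exact ⟨0, by rw [h4]; simp⟩
      · exact ⟨a y j * m, by rw [hm]; push_cast; ring⟩
    · exact mul_nonneg (Nat.cast_nonneg _) (hpos j (Finset.mem_sdiff.mp hj).1)
  obtain ⟨m, hm⟩ := h3
  refine ⟨n + m, by omega, ?_⟩
  push_cast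
  rw [← hn2, ← hm, h1, h2]
  ring

private theorem AG9_zero {a : I → I → ℕ} (hs : ∀ i j, a i j = a j i) {cd : CrossData a}
    {R : Finset I} {x : I} {q : I → ℚ} {K : ℕ} {u : ℕ → ℚ} {L : List (RB I)}
    (h : StarCtx a cd R x q K u L) (b : RB I) (hb : b ∈ L) (y : I) (hy : y ∈ b.B) (z : I)
    (hz : z ∈ R) (hzb : z ∉ b.B) (hzx : z ≠ x) : a y z = 0 := by
  have h1 : z ∈ uniR L := by
    rw [h.cov]
    exact Finset.mem_erase.mpr ⟨hzx, hz⟩
  obtain ⟨c, hc, hzc⟩ := (mem_uniR L z).mp h1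
  have hbc : b ≠ c := fun he => hzb (he ▸ hzc)
  have hsep : Sep a b.B c.B := by
    have hsymm : ∀ {x y : RB I}, Sep a x.B y.B → Sep a y.B x.B := fun h => Sep.symm hs h
    rcases List.pairwise_iff_getElem.mp h.sep with _
    obtain ⟨i, hi, hib⟩ := List.mem_iff_getElem.mp hb
    obtain ⟨j, hj, hjc⟩ := List.mem_iff_getElem.mp hc
    have hij : i ≠ j := by
      intro he
      subst he
      exact hbc (hib.symm.trans hjc)
    rcases lt_or_gt_of_ne hij with hlt | hgt
    · have := List.pairwise_iff_getElem.mp h.sep i j hi hj hlt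
      rw [hib, hjc] at this
      exact this
    · have := List.pairwise_iff_getElem.mp h.sep j i hj hi hgt
      rw [hib, hjc] at this
      exact hsymm this
  exact hsep.2 y hy z hzc

/-- the blocks are of finite type, disjoint from `x`, adjacent to `x`, admissible. -/
theorem StarCtx.block {a : I → I → ℕ} (hs : ∀ i j, a i j = a j i) {cd : CrossData a}
    {R : Finset I} {x : I} {q : I → ℚ} {K : ℕ} {u : ℕ → ℚ} {L : List (RB I)}
    (h : StarCtx a cd R x q K u L) (b : RB I) (hb : b ∈ L) :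
    b.B ⊆ R ∧ x ∉ b.B ∧ FinT a b.B ∧ QOk a b.B q ∧ (∃ y ∈ b.B, 0 < a x y) := by
  have hsub : b.B ⊆ R.erase x := by
    intro y hy
    rw [← h.cov]
    exact (mem_uniR L y).mpr ⟨b, hb, hy⟩
  have hsubR : b.B ⊆ R := fun y hy => Finset.mem_of_mem_erase (hsub hy)
  have hx : x ∉ b.B := fun hx => (Finset.mem_erase.mp (hsub hx)).1 rfl
  refine ⟨hsubR, hx, h.fin.mono hsubR, ?_, ?_⟩
  · refine AG9_QOk_sub hs h.fin h.qok b.B hsubR (fun y hy z hz hzb => ?_)
    by_cases hzx : z = x
    · right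
      rw [hzx]
      exact h.hz
    · left
      exact AG9_zero hs h b hb y hy z hz hzb hzx
  · obtain ⟨i, hi, j, hj, hjb, hij⟩ := h.conn.2 b.B hsubR (h.bconn b hb).1
      (fun he => hx (he ▸ h.hx))
    by_cases hjx : j = x
    · refine ⟨i, hi, ?_⟩
      rw [hs x i, ← hjx]
      exact hij
    · rw [AG9_zero hs h b hb i hi j hj hjb hjx] at hij
      exact absurd hij (lt_irrefl 0)

/-- more generally: admissibility on a subset `A` if the missing neighbours have integral class. -/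
theorem QOk_sub {a : I → I → ℕ} (hs : ∀ i j, a i j = a j i) {R : Finset I} {q : I → ℚ}
    (hR : FinT a R) (hq : QOk a R q) (A : Finset I) (hA : A ⊆ R)
    (h : ∀ y ∈ A, ∀ x ∈ R, x ∉ A → a y x = 0 ∨ IsZ (q x)) : QOk a A q :=
  AG9_QOk_sub hs hR hq A hA h

theorem StarCtx.erase_qok {a : I → I → ℕ} (hs : ∀ i j, a i j = a j i) {cd : CrossData a}
    {R : Finset I} {x : I} {q : I → ℚ} {K : ℕ} {u : ℕ → ℚ} {L : List (RB I)}
    (h : StarCtx a cd R x q K u L) : QOk a (R.erase x) q := by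
  refine AG9_QOk_sub hs h.fin h.qok (R.erase x) (Finset.erase_subset x R)
    (fun y _ z hz hzb => ?_)
  right
  have hzx : z = x := by
    by_contra hne
    exact hzb (Finset.mem_erase.mpr ⟨hne, hz⟩)
  rw [hzx]
  exact h.hz

/-- `∑_{y ≠ x} a x y q y` is an integer. -/
theorem StarCtx.sum_int {a : I → I → ℕ} (hs : ∀ i j, a i j = a j i) {cd : CrossData a}
    {R : Finset I} {x : I} {q : I → ℚ} {K : ℕ} {u : ℕ → ℚ} {L : List (RB I)}
    (h : StarCtx a cd R x q K u L) : IsZ (∑ y ∈ R.erase x, (a x y : ℚ) * q y) := by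
  obtain ⟨n, _, hn2⟩ := h.qok x h.hx
  obtain ⟨m, hm⟩ := h.hz
  unfold cqN at hn2
  rw [← Finset.add_sum_erase R _ h.hx, cart_self h.fin x h.hx] at hn2
  have h2 : ∑ j ∈ R.erase x, ((cart a x j : ℤ) : ℚ) * q j =
      -∑ j ∈ R.erase x, (a x j : ℚ) * q j := by
    rw [← Finset.sum_neg_distrib]
    refine Finset.sum_congr rfl (fun j hj => ?_)
    rw [AG9_cart_ne a x j (fun he => (Finset.mem_erase.mp hj).1 he.symm)]
    ring
  rw [h2, hm] at hn2
  refine ⟨2 * m - n, ?_⟩
  push_cast at hn2 ⊢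
  linarith

/-- one vertex without insertion: only the column is changed. -/
theorem patT_single_zero (a : I → I → ℕ) (x : I) (π : Pat I) (h0 : π.q x = 0) (T : Trm I) :
    patT a {x} π T = T.col x (sy x (π.s x + 1)) := by
  have h1 : (fun i => -resQ {x} π.q i) = fun _ => (0 : ℚ) := by
    funext i
    unfold resQ
    split_ifs with hi
    · rw [Finset.mem_singleton.mp hi, h0]
      simp
    · simp
  unfold patT
  rw [h1, etaM_zero]
  unfold Trm.cols Trm.col
  congr 1
  funext i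
  by_cases hi : i = x
  · subst hi
    simp
  · simp [hi, Function.update_of_ne]

theorem TV_col_lev0 (a : I → I → ℕ) (T : Trm I) (j x : I) : TV a (T.col j (sy x 0)) = 0 := by
  rw [← TV_col_zero a T j]
  refine TV_lev0 a _ _ rfl (fun _ _ _ => rfl) (fun j' i k hk => ?_)
  unfold Trm.col
  by_cases hj : j' = j
  · subst hj
    simp only [Function.update_self]
    rw [Finsupp.single_apply, if_neg]
    · rfl
    · intro he
      have := (Prod.ext_iff.mp he).2
      simp only at this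
      omega
  · simp only [Function.update_of_ne hj]

theorem evU_col_lev0 (a : I → I → ℕ) (U : List (Finset I × FFn I)) (T : Trm I) (j x : I)
    (hj : j ∉ uni U) : evU a U (T.col j (sy x 0)) = 0 := by
  induction U generalizing T with
  | nil =>
    rw [evU_nil]
    exact TV_col_lev0 a T j x
  | cons b U ih =>
    rw [evU_cons]
    have hjb : j ∉ b.1 := fun hh => hj ((mem_uni (b :: U) j).mpr ⟨b, List.mem_cons_self, hh⟩)
    have hjU : j ∉ uni U := by
      intro hh
      obtain ⟨c, hc, hjc⟩ := (mem_uni U j).mp hh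
      exact hj ((mem_uni (b :: U) j).mpr ⟨c, List.mem_cons_of_mem b hc, hjc⟩)
    have h1 : b.2.map (fun c => c.1 * evU a U (patT a b.1 c.2 (T.col j (sy x 0)))) =
        b.2.map (fun _ => (0 : ℚ)) := by
      refine List.map_congr_left (fun c _ => ?_)
      rw [patT_col_comm a b.1 c.2 j hjb, ih _ hjU, mul_zero]
    rw [h1]
    simp

/-- evaluation of the chain vertex (also correct for `f = 0`). -/
theorem evU_alU (a : I → I → ℕ) (u : ℕ → ℚ) (f : ℕ) (x : I) (U : List (Finset I × FFn I))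
    (hx : x ∉ uni U) (T : Trm I) : evU a (({x}, alU u f) :: U) T =
      u f * evU a U (T.col x (sy x (f + 1))) - u (f + 1) * evU a U (T.col x (sy x f)) := by
  rw [evU_cons]
  unfold alU
  by_cases hf : f = 0
  · subst hf
    rw [if_pos rfl, evU_col_lev0 a U T x x hx]
    simp only [List.map_cons, List.map_nil, List.sum_cons, List.sum_nil]
    rw [patT_single_zero a x _ rfl]
    simp
  · rw [if_neg hf]
    simp only [List.map_cons, List.map_nil, List.sum_cons, List.sum_nil]
    rw [patT_single_zero a x _ rfl, patT_single_zero a x _ rfl]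
    simp only
    rw [show f - 1 + 1 = f from by omega]
    ring

/-- value of the star family as a joint value. -/
theorem evF_stF {a : I → I → ℕ} (hs : ∀ i j, a i j = a j i) {cd : CrossData a}
    {R : Finset I} {x : I} {q : I → ℚ} {K : ℕ} {u : ℕ → ℚ} {L : List (RB I)}
    (h : StarCtx a cd R x q K u L) (f : ℕ) (T : Trm I) :
    evF a R (stF x u L f) T = evU a (({x}, alU u f) :: atF L f) T := by
  have hd : (({x}, alU u f) :: atF L f).Pairwise
      (fun (b c : Finset I × FFn I) => Disjoint b.1 c.1) := by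
    refine List.pairwise_cons.mpr ⟨?_, ?_⟩
    · intro c hc
      unfold atF at hc
      obtain ⟨b, hb, hbc⟩ := List.mem_map.mp hc
      rw [← hbc]
      exact Finset.disjoint_singleton_left.mpr (h.block hs b hb).2.1
    · unfold atF
      rw [List.pairwise_map]
      exact h.sep.imp (fun hh => hh.1)
  rw [evU_eq_evF a _ hd]
  have h1 : uni (({x}, alU u f) :: atF L f) = R := by
    have h2 : uni (({x}, alU u f) :: atF L f) = {x} ∪ uni (atF L f) := rfl
    rw [h2, uni_atF, h.cov, Finset.union_comm, Finset.union_singleton]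
    exact Finset.insert_erase h.hx
  rw [h1]
  rfl

/-- the block data at the frontier `f` for a family which is at the frontier `f` (`up = false`) or `f - 1` (`up = true`). -/
def RB.blk (q : I → ℚ) (f : ℕ) (up : Bool) (b : RB I) : Blk I :=
  ⟨b.B, if up then b.Φ (f - 1) else b.Φ f, b.w f, q, up⟩

theorem RB_blkOk (a : I → I → ℕ) (hs : ∀ i j, a i j = a j i) (cd : CrossData a) (q : I → ℚ)
    (K f : ℕ) (hf : 1 ≤ f) (hfK : f ≤ K) (up : Bool) (b : RB I) (hfin : FinT a b.B)
    (hconn : ConnS a b.B) (hq : QOk a b.B q) (h : Resp a cd b.B q K b.w b.Φ) :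
    BlkOk a cd f (b.blk q f up) := by
  cases up with
  | false =>
    refine ⟨hfin, hconn, hq, ?_, ?_, ?_⟩
    · intro c hc
      exact (h.win f hfK c hc).wide
    · intro c hc x hx
      exact (h.win f hfK c hc).cls x hx
    · intro T hT hk
      have h1 := h.knk f hf hfK T hT hk
      have h2 : (b.blk q f false).cf = b.w f := by
        simp [Blk.cf, RB.blk]
      rw [h2]
      exact h1
  | true =>
    refine ⟨hfin, hconn, hq, ?_, ?_, ?_⟩
    · intro c hc
      have h1 := (h.win (f - 1) (by omega) c hc).wide_succ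
      rw [show f - 1 + 1 = f from by omega] at h1
      exact h1
    · intro c hc x hx
      exact (h.win (f - 1) (by omega) c hc).cls x hx
    · intro T hT hk
      have h1 := h.knk f hf hfK T hT hk
      have h2 := h.stp f hf hfK T hT
      have h3 := TV_step_split a hs b.B hfin f hf q hq T hT
      have h4 := PPv_kink a hs b.B hfin hconn f hf q hq T hT hk
      have h5 : (b.blk q f true).cf = (-1) ^ b.B.card * b.w f := by
        simp [Blk.cf, RB.blk]
      rw [h5]
      have h6 : evF a b.B (b.Φ (f - 1)) T =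
          (-1) ^ b.B.card * b.w f * TV a (upT a b.B f q T) := by
        have h7 : evF a b.B (b.Φ (f - 1)) T = b.w f * PPv a b.B f q T := by
          linear_combination h1 - h2 + b.w f * h3
        rw [h7, h4]
        ring
      exact h6

end

end Pool.Agent.H27.KAC

end
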