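import Pool.Agent.H16.TKA.M27
import Pool.Agent.H16.TKA.M30
import Pool.Agent.H16.TKA.M31
import Pool.Agent.H16.TKA.M32
import Pool.Agent.H16.TKA.M33

/-! The parts of this file: H46.AH.AH21, H46.AH.AH20, H46.AH.AH22, H46.AH.AH23, H46.AH.AH24, H88.KA.CL4, H88.KA.CL5, H40.NUM.N2_1, H40.NUM.N4, H41.NUM.E8cut, H41.NUM.E8val, H40.NUM.N5, H88.KA.CN7, H88.KA.CN9, H88.KA.PAR. -/

section

/-!
KAC ADE, module AH21: conversion of all blocks which are adjacent to a set `X` of outer vertices with positive effective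
exponents (`side = f + 1`).

PROOF.  Induction on `X.card` (`X = ∅`: then `L = []`).  Choose `z ∈ X`; let `L1` be the blocks of `L` which are adjacent to `z`
and `L2` the others (`List.filter`, `evU_perm`).  Evaluate the blocks of `L2` outermost (`evU_cons`, or `evU_eq_evF` for `L2`); on the
terms `patT a (uniB L2) π T` apply `evU_conv` (AG6) to `L1`, `V`, `z`, `σz = f + 1` (the blocks of `L2` are separated from `V`, `L1` and
not adjacent to `z`, so all hypotheses are inherited); the explicit insertion commutes with the patterns of `L2`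
(`expl_patT_comm` or `blkT_patT_comm`).  Then use the induction hypothesis for `X.erase z`, `V ∪ uniB L1`, `L2`, `expl a f L1 T`.
Effective exponents: for `z' ∈ X`, with `V' = V ∪ uniB L1`: `T'.E (z',f) + ∑_{v ∈ V'} a z' v * solN a V' (T'.E (·,f)) v =
T.E (z',f) + ∑_{v ∈ V} a z' v * solN a V (T.E) v + ∑_{b ∈ L1} ∑_{v ∈ b.B} a z' v * solN a b.B (T.E (·,f)) v`
(the insertion `q` contributes `-∑ a z' v q v` to the exponent and `q` to `solN`: `solN_component`, `solN_add`, `solN_cqN`), and
the last sum is `≥ 0` (`solN_nonneg`, exponents of `RReg` terms are natural).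
Integrality: `T'.E (z',f) = T.E (z',f) - ∑_{b ∈ L1} ∑ a z' x q x`.
-/

set_option autoImplicit false

namespace Pool.Agent.H46.AH

open scoped BigOperators
open Pool.Agent.H27.KAC

section

variable {I : Type} [Fintype I] [DecidableEq I]

/-! auxiliary facts -/

private theorem isZ_add {x y : ℚ} (hx : IsZ x) (hy : IsZ y) : IsZ (x + y) := by
  obtain ⟨m, rfl⟩ := hx
  obtain ⟨n, rfl⟩ := hy
  exact ⟨m + n, by push_cast; ring⟩

private theorem isN_isZ {x : ℚ} (hx : IsN x) : IsZ x := by
  obtain ⟨n, rfl⟩ := hx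
  exact ⟨n, by push_cast; rfl⟩

private theorem isN_nonneg {x : ℚ} (hx : IsN x) : 0 ≤ x := by
  obtain ⟨n, rfl⟩ := hx
  positivity

private theorem cart_ne21 (a : I → I → ℕ) (hs : ∀ i j, a i j = a j i) {x y : I} (h : x ≠ y) :
    ((cart a x y : ℤ) : ℚ) = -(a y x : ℚ) := by
  unfold cart
  rw [if_neg h, hs x y]
  push_cast
  ring

private theorem cart_symm (a : I → I → ℕ) (hs : ∀ i j, a i j = a j i) (x y : I) :
    cart a x y = cart a y x := by
  unfold cart
  rw [hs x y]
  by_cases h : x = y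
  · rw [if_pos h, if_pos h.symm]
  · rw [if_neg h, if_neg (fun e => h e.symm)]

private theorem disjU {a : I → I → ℕ} {L : List (Blk I)}
    (hd : L.Pairwise (fun b c => Sep a b.B c.B)) :
    (L.map (fun b => (b.B, b.Φ))).Pairwise (fun b c => Disjoint b.1 c.1) :=
  List.pairwise_map.2 (hd.imp (fun h => h.1))

private theorem sep_head {a : I → I → ℕ} {b : Blk I} {L : List (Blk I)}
    (hd : (b :: L).Pairwise (fun b c => Sep a b.B c.B)) : Sep a b.B (uniB L) := by
  rw [List.pairwise_cons] at hd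
  constructor
  · rw [Finset.disjoint_left]
    intro x hx hx'
    obtain ⟨c, hc, hxc⟩ := (mem_uniB L x).1 hx'
    exact (Finset.disjoint_left.1 (hd.1 c hc).1) hx hxc
  · intro x hx y hy
    obtain ⟨c, hc, hyc⟩ := (mem_uniB L y).1 hy
    exact (hd.1 c hc).2 x hx y hyc

private theorem sum_uniB {a : I → I → ℕ} (g : I → ℚ) : ∀ L : List (Blk I),
    L.Pairwise (fun b c => Sep a b.B c.B) →
      ∑ x ∈ uniB L, g x = (L.map (fun b => ∑ x ∈ b.B, g x)).sum
  | [], _ => by simp [uniB]
  | b :: L, hd => by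
    have h1 : uniB (b :: L) = b.B ∪ uniB L := rfl
    rw [h1, Finset.sum_union (sep_head hd).1, List.map_cons, List.sum_cons,
      sum_uniB g L (List.pairwise_cons.1 hd).2]

private theorem uniB_append (L L' : List (Blk I)) : uniB (L ++ L') = uniB L ∪ uniB L' := by
  ext x
  simp only [mem_uniB, Finset.mem_union, List.mem_append]
  constructor
  · rintro ⟨b, hb | hb, hx⟩
    · exact Or.inl ⟨b, hb, hx⟩
    · exact Or.inr ⟨b, hb, hx⟩
  · rintro (⟨b, hb, hx⟩ | ⟨b, hb, hx⟩)
    · exact ⟨b, Or.inl hb, hx⟩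
    · exact ⟨b, Or.inr hb, hx⟩

private theorem uniB_perm {L L' : List (Blk I)} (h : L.Perm L') : uniB L = uniB L' := by
  ext x
  simp only [mem_uniB]
  constructor
  · rintro ⟨b, hb, hx⟩
    exact ⟨b, h.mem_iff.1 hb, hx⟩
  · rintro ⟨b, hb, hx⟩
    exact ⟨b, h.mem_iff.2 hb, hx⟩

private theorem expl_perm (a : I → I → ℕ) (f : ℕ) {L L' : List (Blk I)} (h : L.Perm L') :
    L.Pairwise (fun b c => Disjoint b.B c.B) → ∀ T : Trm I, expl a f L T = expl a f L' T := by
  induction h with
  | nil => intro _ T; rfl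
  | cons b h ih =>
    intro hd T
    rw [expl_cons, expl_cons, ih (List.pairwise_cons.1 hd).2 T]
  | swap b c L =>
    intro hd T
    rw [expl_cons, expl_cons, expl_cons, expl_cons]
    have h1 := (List.pairwise_cons.1 hd).1 b List.mem_cons_self
    exact blkT_comm a c.B b.B h1 f _ f _ c.q b.q _
  | trans h1 h2 ih1 ih2 =>
    intro hd T
    have hd' : _ := (h1.pairwise_iff (fun {b c} (h : Disjoint b.B c.B) => h.symm)).1 hd
    rw [ih1 hd T, ih2 hd' T]

private theorem expl_patT_comm (a : I → I → ℕ) (f : ℕ) (B : Finset I) (π : Pat I) :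
    ∀ L : List (Blk I), (∀ b ∈ L, Disjoint b.B B) → ∀ T : Trm I,
      expl a f L (patT a B π T) = patT a B π (expl a f L T)
  | [], _, T => rfl
  | b :: L, h, T => by
    rw [expl_cons, expl_cons, expl_patT_comm a f B π L (fun c hc => h c (List.mem_cons_of_mem _ hc)) T,
      blkT_patT_comm a b.B B (h b List.mem_cons_self)]

private theorem sum_map_flatMap {α β : Type} (h : α → List β) (g : β → ℚ) :
    ∀ l : List α, ((l.flatMap h).map g).sum = (l.map (fun c => ((h c).map g).sum)).sum
  | [] => rfl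
  | c :: l => by
    rw [List.flatMap_cons, List.map_append, List.sum_append, sum_map_flatMap h g l, List.map_cons,
      List.sum_cons]

private theorem pair_ne {a : I → I → ℕ} (hs : ∀ i j, a i j = a j i) : ∀ {L : List (Blk I)},
    L.Pairwise (fun b c => Sep a b.B c.B) → ∀ {b c : Blk I}, b ∈ L → c ∈ L → b ≠ c →
      Sep a b.B c.B
  | [], _, _, _, hb, _, _ => absurd hb List.not_mem_nil
  | d :: L, hd, b, c, hb, hc, hne => by
    have hd2 := List.pairwise_cons.1 hd
    rcases List.mem_cons.1 hb with h1 | h1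
    · rcases List.mem_cons.1 hc with h2 | h2
      · exact absurd (h1.trans h2.symm) hne
      · subst h1
        exact hd2.1 c h2
    · rcases List.mem_cons.1 hc with h2 | h2
      · subst h2
        exact Sep.symm hs (hd2.1 b h1)
      · exact pair_ne hs hd2.2 h1 h2 hne

/-- the last blocks can be evaluated first. -/
private theorem evU_append21 (a : I → I → ℕ) (U1 : List (Finset I × FFn I)) :
    ∀ U2 : List (Finset I × FFn I), U2.Pairwise (fun b c => Disjoint b.1 c.1) → ∀ T : Trm I,
      evU a (U2 ++ U1) T =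
        ((prodF U2).map (fun c => c.1 * evU a U1 (patT a (uni U2) c.2 T))).sum
  | [], _, T => by
    have h0 : patT a (∅ : Finset I) (⟨fun _ => 0, fun _ => 0⟩ : Pat I) T = T := by
      have h1 : patT a (∅ : Finset I) (⟨fun _ => 0, fun _ => 0⟩ : Pat I) T =
          tauT a ∅ 0 (fun _ => 0) T := (tauT_eq_patT a ∅ 0 (fun _ => 0) T).symm
      rw [h1]
      exact blkT_empty a _ _ _ T
    simp only [List.nil_append, prodF, List.map_cons, List.map_nil, List.sum_cons, List.sum_nil,
      uni, List.foldr_nil, h0]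
    ring
  | b :: U2, hd, T => by
    have hd2 := List.pairwise_cons.1 hd
    have hdis : Disjoint b.1 (uni U2) := by
      rw [Finset.disjoint_left]
      intro x hx hx'
      obtain ⟨c, hc, hxc⟩ := (mem_uni U2 x).1 hx'
      exact (Finset.disjoint_left.1 (hd2.1 c hc)) hx hxc
    have hu : uni (b :: U2) = b.1 ∪ uni U2 := rfl
    rw [List.cons_append, evU_cons]
    have hp : prodF (b :: U2) = mulF b.1 b.2 (prodF U2) := rfl
    rw [hp, mulF, sum_map_flatMap]
    congr 1
    apply List.map_congr_left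
    intro c _
    rw [evU_append21 a U1 U2 hd2.2, ← List.sum_map_mul_left, List.map_map]
    congr 1
    apply List.map_congr_left
    intro d _
    simp only [Function.comp]
    rw [hu, patT_glue a b.1 (uni U2) hdis, patT_comm a b.1 (uni U2) hdis]
    ring

private theorem expl_E' (a : I → I → ℕ) (hs : ∀ i j, a i j = a j i) (f : ℕ) (L : List (Blk I))
    (T : Trm I) (z : I) (hz : z ∉ uniB L) (l : ℕ) :
    (expl a f L T).E (z, l) = T.E (z, l) -
      if l = f then (L.map (fun b => ∑ x ∈ b.B, (a z x : ℚ) * b.q x)).sum else 0 := by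
  rw [expl_E]
  by_cases h : l = f
  · rw [if_pos h, if_pos h]
    have : (L.map (fun b => ∑ x ∈ b.B, b.q x * ((cart a x z : ℤ) : ℚ))).sum =
        -(L.map (fun b => ∑ x ∈ b.B, (a z x : ℚ) * b.q x)).sum := by
      induction L with
      | nil => simp
      | cons b L ih =>
        simp only [List.map_cons, List.sum_cons]
        rw [ih (fun h => hz (by
          change z ∈ b.B ∪ uniB L
          exact Finset.mem_union_right _ h))]
        have : ∑ x ∈ b.B, b.q x * ((cart a x z : ℤ) : ℚ) = -∑ x ∈ b.B, (a z x : ℚ) * b.q x := by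
          rw [← Finset.sum_neg_distrib]
          apply Finset.sum_congr rfl
          intro x hx
          have hne : x ≠ z := fun e => hz (by
            change z ∈ b.B ∪ uniB L
            exact Finset.mem_union_left _ (e ▸ hx))
          rw [cart_ne21 a hs hne]
          ring
        rw [this]
        ring
    rw [this]
    ring
  · rw [if_neg h, if_neg h]
    ring

private theorem list_zero_sum (a : I → I → ℕ) (L : List (Blk I)) (z : I)
    (h : ∀ b ∈ L, ∀ x ∈ b.B, a z x = 0) :
    (L.map (fun b => ∑ x ∈ b.B, (a z x : ℚ) * b.q x)).sum = 0 := by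
  apply List.sum_eq_zero
  intro y hy
  obtain ⟨b, hb, rfl⟩ := List.mem_map.1 hy
  apply Finset.sum_eq_zero
  intro x hx
  rw [h b hb x hx]
  push_cast
  ring

/-- exponents inside a block. -/
private theorem expl_E_in (a : I → I → ℕ) (hs : ∀ i j, a i j = a j i) (f : ℕ) :
    ∀ (L : List (Blk I)), L.Pairwise (fun b c => Sep a b.B c.B) → ∀ (T : Trm I) (b : Blk I),
      b ∈ L → ∀ v ∈ b.B, (expl a f L T).E (v, f) = T.E (v, f) + cqN a b.B b.q v := by
  intro L hd T b hb v hv
  rw [expl_E, if_pos rfl]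
  congr 1
  have hin : ∑ x ∈ b.B, b.q x * ((cart a x v : ℤ) : ℚ) = cqN a b.B b.q v := by
    unfold cqN
    apply Finset.sum_congr rfl
    intro x _
    rw [cart_symm a hs x v]
    ring
  induction L with
  | nil => exact absurd hb (List.not_mem_nil)
  | cons c L ih =>
    have hd2 := List.pairwise_cons.1 hd
    rw [List.map_cons, List.sum_cons]
    have hzero : ∀ c' : Blk I, Sep a c'.B b.B → ∑ x ∈ c'.B, c'.q x * ((cart a x v : ℤ) : ℚ) = 0 := by
      intro c' hsep
      apply Finset.sum_eq_zero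
      intro x hx
      have hne : x ≠ v := fun e => (Finset.disjoint_left.1 hsep.1) hx (e ▸ hv)
      rw [cart_ne21 a hs hne, hs v x, hsep.2 x hx v hv]
      simp
    by_cases hbL : b ∈ L
    · rw [ih hd2.2 hbL, hzero c (hd2.1 b hbL), zero_add]
    · have hbc : b = c := by
        rcases List.mem_cons.1 hb with h | h
        · exact h
        · exact absurd h hbL
      subst hbc
      rw [hin]
      have : (L.map (fun c => ∑ x ∈ c.B, c.q x * ((cart a x v : ℤ) : ℚ))).sum = 0 := by
        apply List.sum_eq_zero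
        intro y hy
        obtain ⟨c', hc', rfl⟩ := List.mem_map.1 hy
        exact hzero c' (Sep.symm hs (hd2.1 c' hc'))
      rw [this, add_zero]

private theorem expl_E_ne (a : I → I → ℕ) (f : ℕ) (L : List (Blk I)) (T : Trm I) (i : I) (l : ℕ)
    (h : l ≠ f) : (expl a f L T).E (i, l) = T.E (i, l) := by
  rw [expl_E, if_neg h, add_zero]

theorem conv_all (a : I → I → ℕ) (hs : ∀ i j, a i j = a j i) (cd : CrossData a) (f : ℕ)
    (hf : 1 ≤ f) (X : Finset I) (L : List (Blk I)) (hL : ∀ b ∈ L, BlkOk a cd f b)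
    (hup : ∀ b ∈ L, b.up = false) (hd : L.Pairwise (fun b c => Sep a b.B c.B)) (V : Finset I)
    (hV : FinT a V) (hLV : Sep a (uniB L) V)
    (hadj : ∀ b ∈ L, ∃ z ∈ X, ∃ x ∈ b.B, 0 < a z x) (T : Trm I) (hT : RReg (uniB L) T)
    (hTV : ∀ v ∈ V, FRegI (uniB L) T v f (f + 1)) (hXL : ∀ z ∈ X, z ∉ uniB L)
    (hXV : ∀ z ∈ X, z ∉ V) (hXX : ∀ z ∈ X, a z z = 0)
    (hN : ∀ z ∈ X, ∀ l, 1 ≤ l → l ≠ f → IsN (T.E (z, l)))
    (hI2 : ∀ z ∈ X, IsZ (T.E (z, f) - (L.map (fun b => ∑ x ∈ b.B, (a z x : ℚ) * b.q x)).sum))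
    (hcol : ∀ z ∈ X, ∀ j, j ∉ uniB L → ∀ l, 1 ≤ l → T.Λ j (z, l) ≠ 0 →
      l = f ∨ l = f + 1 ∨ 0 < T.E (z, l))
    (heff : ∀ z ∈ X, 0 < T.E (z, f) + ∑ v ∈ V, (a z v : ℚ) * solN a V (fun i => T.E (i, f)) v) :
    evU a (L.map (fun b => (b.B, b.Φ))) T = (L.map Blk.cf).prod * TV a (expl a f L T) := by
  classical
  induction X using Finset.induction_on generalizing L V T with
  | empty =>
    have hL0 : L = [] := by
      rw [List.eq_nil_iff_forall_not_mem]
      intro b hb
      obtain ⟨z, hz, _⟩ := hadj b hb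
      exact absurd hz (Finset.notMem_empty z)
    subst hL0
    rw [List.map_nil, List.map_nil, evU_nil, expl_nil, List.prod_nil, one_mul]
  | insert z X hzX ih =>
    -- the two parts of the list
    set L1 : List (Blk I) := L.filter (fun b => decide (∃ x ∈ b.B, 0 < a z x)) with hL1d
    set L2 : List (Blk I) := L.filter (fun b => !decide (∃ x ∈ b.B, 0 < a z x)) with hL2d
    have hp : L.Perm (L2 ++ L1) := by
      have h := List.filter_append_perm (fun b : Blk I => decide (∃ x ∈ b.B, 0 < a z x)) L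
      exact (h.symm).trans List.perm_append_comm
    have hm1 : ∀ b ∈ L1, b ∈ L ∧ ∃ x ∈ b.B, 0 < a z x := by
      intro b hb
      rw [hL1d, List.mem_filter] at hb
      exact ⟨hb.1, by simpa using hb.2⟩
    have hm2 : ∀ b ∈ L2, b ∈ L ∧ ∀ x ∈ b.B, a z x = 0 := by
      intro b hb
      rw [hL2d, List.mem_filter] at hb
      refine ⟨hb.1, ?_⟩
      intro x hx
      by_contra h0
      have h1 := hb.2
      rw [Bool.not_eq_true', decide_eq_false_iff_not] at h1
      exact h1 ⟨x, hx, Nat.pos_of_ne_zero h0⟩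
    have hd' : (L2 ++ L1).Pairwise (fun b c => Sep a b.B c.B) :=
      (hp.pairwise_iff (fun {b c} (h : Sep a b.B c.B) => Sep.symm hs h)).1 hd
    obtain ⟨hd2, hd1, h21⟩ := List.pairwise_append.1 hd'
    have hun : uniB L = uniB L2 ∪ uniB L1 := by rw [uniB_perm hp, uniB_append]
    have hs21 : Sep a (uniB L2) (uniB L1) := by
      constructor
      · rw [Finset.disjoint_left]
        intro x hx hx'
        obtain ⟨b, hb, hxb⟩ := (mem_uniB L2 x).1 hx
        obtain ⟨c, hc, hxc⟩ := (mem_uniB L1 x).1 hx'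
        exact (Finset.disjoint_left.1 (h21 b hb c hc).1) hxb hxc
      · intro x hx y hy
        obtain ⟨b, hb, hxb⟩ := (mem_uniB L2 x).1 hx
        obtain ⟨c, hc, hyc⟩ := (mem_uniB L1 y).1 hy
        exact (h21 b hb c hc).2 x hxb y hyc
    have hs12 : Sep a (uniB L1) (uniB L2) := Sep.symm hs hs21
    have hsum : ∀ g : Blk I → ℚ, (L.map g).sum = (L2.map g).sum + (L1.map g).sum := by
      intro g
      rw [(hp.map g).sum_eq, List.map_append, List.sum_append]
    have hzL : z ∉ uniB L := hXL z (Finset.mem_insert_self z X)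
    have hzL1 : z ∉ uniB L1 := fun h => hzL (by rw [hun]; exact Finset.mem_union_right _ h)
    have hzL2 : z ∉ uniB L2 := fun h => hzL (by rw [hun]; exact Finset.mem_union_left _ h)
    have hzV : z ∉ V := hXV z (Finset.mem_insert_self z X)
    have hV1 : Sep a (uniB L1) V := Sep.mono hLV (by rw [hun]; exact Finset.subset_union_right) (Finset.Subset.refl V)
    have hV2 : Sep a (uniB L2) V := Sep.mono hLV (by rw [hun]; exact Finset.subset_union_left) (Finset.Subset.refl V)
    have hz2 : ∀ x ∈ uniB L2, a z x = 0 := by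
      intro x hx
      obtain ⟨b, hb, hxb⟩ := (mem_uniB L2 x).1 hx
      exact (hm2 b hb).2 x hxb
    -- reduction to the rearranged list
    have e1 : evU a (L.map (fun b => (b.B, b.Φ))) T =
        evU a ((L2 ++ L1).map (fun b => (b.B, b.Φ))) T :=
      evU_perm a _ _ (hp.map _) (disjU hd) T
    have e2 : (L.map Blk.cf).prod = ((L2 ++ L1).map Blk.cf).prod := (hp.map _).prod_eq
    have e3 : expl a f L T = expl a f (L2 ++ L1) T := expl_perm a f hp (hd.imp (fun h => h.1)) T
    rw [e1, e2, e3, List.map_append, List.map_append, List.prod_append, expl_append,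
      evU_append21 a _ _ (disjU hd2)]
    -- conversion of the blocks of `L1`
    have hstep : ∀ c ∈ prodF (L2.map (fun b => (b.B, b.Φ))),
        evU a (L1.map (fun b => (b.B, b.Φ)))
            (patT a (uni (L2.map (fun b => (b.B, b.Φ)))) c.2 T) =
          (L1.map Blk.cf).prod *
            TV a (patT a (uni (L2.map (fun b => (b.B, b.Φ)))) c.2 (expl a f L1 T)) := by
      intro c hc
      rw [uni_map_blk]
      set Y : Trm I := patT a (uniB L2) c.2 T with hY
      have hYE : ∀ i, (∀ x ∈ uniB L2, x ≠ i ∧ a x i = 0) → ∀ l, Y.E (i, l) = T.E (i, l) := by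
        intro i hi l
        rw [hY, patT_E, Finset.sum_eq_zero, add_zero]
        intro x hx
        have hx2 := hi x (Finset.mem_filter.1 hx).1
        rw [cart_ne21 a hs hx2.1, hs i x, hx2.2]
        simp
      have hYz : ∀ l, Y.E (z, l) = T.E (z, l) := hYE z (fun x hx =>
        ⟨fun e => hzL2 (e ▸ hx), by rw [hs x z]; exact hz2 x hx⟩)
      have hYv : ∀ v ∈ V, ∀ l, Y.E (v, l) = T.E (v, l) := fun v hv => hYE v (fun x hx =>
        ⟨fun e => (Finset.disjoint_left.1 hV2.1) hx (e ▸ hv), hV2.2 x hx v hv⟩)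
      have hYin : ∀ j ∈ uniB L2, Y.Λ j = sy j (c.2.s j + 1) := by
        intro j hj
        rw [hY]
        simp only [patT, Trm.cols]
        rw [if_pos hj]
      have hYout : ∀ j, j ∉ uniB L2 → Y.Λ j = T.Λ j := by
        intro j hj
        rw [hY]
        simp only [patT, Trm.cols]
        rw [if_neg hj]
        rfl
      have hYcol : ∀ i, i ∉ uniB L2 → ∀ j, j ∉ uniB L1 → ∀ l, Y.Λ j (i, l) ≠ 0 →
          j ∉ uniB L ∧ T.Λ j (i, l) ≠ 0 := by
        intro i hi j hj l h
        by_cases hj2 : j ∈ uniB L2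
        · exfalso
          rw [hYin j hj2] at h
          have hne : j ≠ i := fun e => hi (e ▸ hj2)
          exact h (by simp [hne])
        · rw [hYout j hj2] at h
          refine ⟨?_, h⟩
          rw [hun, Finset.mem_union]
          push Not
          exact ⟨hj2, hj⟩
      have hconv := evU_conv a hs cd f hf L1 (fun b hb => hL b (hm1 b hb).1) hd1 V hV hV1 z hzL1 hzV
        (hXX z (Finset.mem_insert_self z X)) (fun b hb => (hm1 b hb).2) Y
        (RReg_patT a hs (uniB L1) (uniB L2) hs12.1 c.2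
          (fun x hx y hy _ => hs12.2 x hx y hy) T
          (by rw [Finset.union_comm, ← hun]; exact hT))
        (fun _ => f + 1) (fun _ _ => Or.inl rfl)
        (by
          intro v hv
          have hv2 : v ∉ uniB L2 := fun h => (Finset.disjoint_left.1 hV2.1) h hv
          have hreg := hTV v hv
          constructor
          · intro l hl hlf
            rw [hYv v hv l]
            exact hreg.nat l hl hlf
          · rw [hYv v hv f]
            exact hreg.int
          · intro j hj l hl h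
            obtain ⟨hj', h'⟩ := hYcol v hv2 j hj l h
            rw [hYv v hv l]
            exact hreg.col j hj' l hl h')
        (f + 1) (Or.inl rfl)
        (by
          intro l hl hlf
          rw [hYz l]
          exact hN z (Finset.mem_insert_self z X) l hl hlf)
        (by
          have h := hI2 z (Finset.mem_insert_self z X)
          rw [hsum, list_zero_sum a L2 z (fun b hb x hx => (hm2 b hb).2 x hx), zero_add] at h
          rw [hYz f]
          exact h)
        (by
          intro j hj l hl h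
          obtain ⟨hj', h'⟩ := hYcol z hzL2 j hj l h
          rw [hYz l]
          exact hcol z (Finset.mem_insert_self z X) j hj' l hl h')
        (by
          have h := heff z (Finset.mem_insert_self z X)
          rw [hYz f, solN_congr hs hV (fun i => Y.E (i, f)) (fun i => T.E (i, f))
            (fun i hi => hYv i hi f)]
          exact h)
      rw [hconv, hY, expl_patT_comm a f (uniB L2) c.2 L1 (by
        intro b hb
        rw [Finset.disjoint_left]
        intro x hx hx'
        exact (Finset.disjoint_left.1 hs12.1) ((mem_uniB L1 x).2 ⟨b, hb, hx⟩) hx')]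
    have e4 : ((prodF (L2.map (fun b => (b.B, b.Φ)))).map (fun c => c.1 *
        evU a (L1.map (fun b => (b.B, b.Φ)))
          (patT a (uni (L2.map (fun b => (b.B, b.Φ)))) c.2 T))).sum =
        (L1.map Blk.cf).prod * evU a (L2.map (fun b => (b.B, b.Φ))) (expl a f L1 T) := by
      rw [evU_eq_evF a _ (disjU hd2)]
      unfold evF
      rw [← List.sum_map_mul_left]
      congr 1
      apply List.map_congr_left
      intro c hc
      rw [hstep c hc]
      ring
    rw [e4]
    -- the induction hypothesis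
    set T' : Trm I := expl a f L1 T with hT'
    have hT'z : ∀ z' ∈ X, ∀ l, T'.E (z', l) = T.E (z', l) -
        if l = f then (L1.map (fun b => ∑ x ∈ b.B, (a z' x : ℚ) * b.q x)).sum else 0 := by
      intro z' hz' l
      rw [hT']
      apply expl_E' a hs f L1 T z'
      intro h
      exact hXL z' (Finset.mem_insert_of_mem hz') (by rw [hun]; exact Finset.mem_union_right _ h)
    have hT'v : ∀ v ∈ V, ∀ l, T'.E (v, l) = T.E (v, l) := by
      intro v hv l
      have hv1 : v ∉ uniB L1 := fun h => (Finset.disjoint_left.1 hV1.1) h hv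
      rw [hT', expl_E' a hs f L1 T v hv1, list_zero_sum a L1 v (by
        intro b hb x hx
        rw [hs v x]
        exact hV1.2 x ((mem_uniB L1 x).2 ⟨b, hb, hx⟩) v hv)]
      simp
    have hT'col : ∀ i, ∀ j, j ∉ uniB L2 → ∀ l, T'.Λ j (i, l) ≠ 0 →
        (j = i ∧ l = f + 1 ∧ i ∈ uniB L1) ∨ (j ∉ uniB L ∧ T.Λ j (i, l) ≠ 0) := by
      intro i j hj l h
      by_cases hj1 : j ∈ uniB L1
      · left
        obtain ⟨b, hb, hjb⟩ := (mem_uniB L1 j).1 hj1
        rw [hT', expl_Λ_in a f L1 T (hd1.imp (fun h => h.1)) b hb j hjb] at h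
        have hsd : b.sd f = f + 1 := by
          unfold Blk.sd
          rw [hup b (hm1 b hb).1]
          simp
        rw [hsd] at h
        by_cases hji : (j, f + 1) = (i, l)
        · have h1 : j = i := congrArg Prod.fst hji
          have h2 : f + 1 = l := congrArg Prod.snd hji
          exact ⟨h1, h2.symm, h1 ▸ hj1⟩
        · exfalso
          exact h (Finsupp.single_eq_of_ne (fun e => hji e.symm))
      · right
        rw [hT', expl_Λ_out a f L1 T j hj1] at h
        refine ⟨?_, h⟩
        rw [hun, Finset.mem_union]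
        push Not
        exact ⟨hj, hj1⟩
    have hQ : ∀ b ∈ L1, ∀ v ∈ b.B, ∃ n : ℕ, 1 ≤ n ∧ cqN a b.B b.q v = n := fun b hb =>
      (hL b (hm1 b hb).1).qok
    have hihyp := ih L2 (fun b hb => hL b (hm2 b hb).1) (fun b hb => hup b (hm2 b hb).1) hd2
      (V ∪ uniB L1)
      (FinT.union_sep hs hV (FinT_uniB a hs L1 (fun b hb => (hL b (hm1 b hb).1).fin) hd1)
        (Sep.symm hs hV1))
      (Sep.symm hs (Sep_union (Sep.symm hs hV2) hs12))
      (by
        intro b hb
        obtain ⟨z', hz', x, hx, hax⟩ := hadj b (hm2 b hb).1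
        rcases Finset.mem_insert.1 hz' with h | h
        · exfalso
          subst h
          rw [(hm2 b hb).2 x hx] at hax
          exact lt_irrefl 0 hax
        · exact ⟨z', h, x, hx, hax⟩)
      T'
      (RReg_expl a hs f L1 (uniB L2) hs21 T (by rw [← hun]; exact hT))
      (by
        intro v hv
        rcases Finset.mem_union.1 hv with hvV | hv1
        · have hreg := hTV v hvV
          have hv1 : v ∉ uniB L1 := fun h => (Finset.disjoint_left.1 hV1.1) h hvV
          constructor
          · intro l hl hlf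
            rw [hT'v v hvV l]
            exact hreg.nat l hl hlf
          · rw [hT'v v hvV f]
            exact hreg.int
          · intro j hj l hl h
            rcases hT'col v j hj l h with h1 | ⟨h1, h2⟩
            · exact absurd h1.2.2 hv1
            · rw [hT'v v hvV l]
              exact hreg.col j h1 l hl h2
        · have hvL : v ∈ uniB L := by rw [hun]; exact Finset.mem_union_right _ hv1
          obtain ⟨b, hb, hvb⟩ := (mem_uniB L1 v).1 hv1
          constructor
          · intro l hl hlf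
            rw [hT', expl_E_ne a f L1 T v l hlf]
            exact hT.nat v hvL l hl
          · rw [hT', expl_E_in a hs f L1 hd1 T b hb v hvb]
            obtain ⟨n, _, hn⟩ := hQ b hb v hvb
            rw [hn]
            exact isZ_add (isN_isZ (hT.nat v hvL f hf)) (isN_isZ ⟨n, rfl⟩)
          · intro j hj l hl h
            rcases hT'col v j hj l h with h1 | ⟨h1, h2⟩
            · exact Or.inl h1.2.1
            · by_cases hlf : l = f
              · exact Or.inr (Or.inl hlf)
              · right; right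
                rw [hT', expl_E_ne a f L1 T v l hlf]
                exact hT.col v hvL j h1 l hl h2)
      (by
        intro z' hz' h
        exact hXL z' (Finset.mem_insert_of_mem hz') (by rw [hun]; exact Finset.mem_union_left _ h))
      (by
        intro z' hz' h
        rcases Finset.mem_union.1 h with h | h
        · exact hXV z' (Finset.mem_insert_of_mem hz') h
        · exact hXL z' (Finset.mem_insert_of_mem hz') (by rw [hun]; exact Finset.mem_union_right _ h))
      (fun z' hz' => hXX z' (Finset.mem_insert_of_mem hz'))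
      (by
        intro z' hz' l hl hlf
        rw [hT'z z' hz' l, if_neg hlf, sub_zero]
        exact hN z' (Finset.mem_insert_of_mem hz') l hl hlf)
      (by
        intro z' hz'
        have h := hI2 z' (Finset.mem_insert_of_mem hz')
        rw [hsum] at h
        rw [hT'z z' hz' f, if_pos rfl]
        convert h using 1
        ring)
      (by
        intro z' hz' j hj l hl h
        have hzL1' : z' ∉ uniB L1 := fun h =>
          hXL z' (Finset.mem_insert_of_mem hz') (by rw [hun]; exact Finset.mem_union_right _ h)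
        rcases hT'col z' j hj l h with h1 | ⟨h1, h2⟩
        · exact absurd h1.2.2 hzL1'
        · rcases hcol z' (Finset.mem_insert_of_mem hz') j h1 l hl h2 with h3 | h3 | h3
          · exact Or.inl h3
          · exact Or.inr (Or.inl h3)
          · by_cases hlf : l = f
            · exact Or.inl hlf
            · right; right
              rw [hT'z z' hz' l, if_neg hlf, sub_zero]
              exact h3)
      (by
        intro z' hz'
        have h := heff z' (Finset.mem_insert_of_mem hz')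
        have hfinV' : FinT a (V ∪ uniB L1) :=
          FinT.union_sep hs hV (FinT_uniB a hs L1 (fun b hb => (hL b (hm1 b hb).1).fin) hd1)
            (Sep.symm hs hV1)
        have hdisV : Disjoint V (uniB L1) := hV1.1.symm
        rw [hT'z z' hz' f, if_pos rfl, Finset.sum_union hdisV]
        have hA : ∑ v ∈ V, (a z' v : ℚ) * solN a (V ∪ uniB L1) (fun i => T'.E (i, f)) v =
            ∑ v ∈ V, (a z' v : ℚ) * solN a V (fun i => T.E (i, f)) v := by
          apply Finset.sum_congr rfl
          intro v hv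
          rw [solN_component hs hfinV' Finset.subset_union_left (by
            intro i hi j hj hj'
            rcases Finset.mem_union.1 hj with h | h
            · exact absurd h hj'
            · rw [hs i j]
              exact hV1.2 j h i hi) (fun i => T'.E (i, f)) v hv,
            solN_congr hs hV (fun i => T'.E (i, f)) (fun i => T.E (i, f)) (fun i hi => hT'v i hi f)]
        have hB : (L1.map (fun b => ∑ x ∈ b.B, (a z' x : ℚ) * b.q x)).sum ≤
            ∑ v ∈ uniB L1, (a z' v : ℚ) * solN a (V ∪ uniB L1) (fun i => T'.E (i, f)) v := by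
          rw [sum_uniB (a := a) _ L1 hd1]
          apply List.sum_le_sum
          intro b hb
          apply Finset.sum_le_sum
          intro x hx
          apply mul_le_mul_of_nonneg_left _ (by positivity)
          have hbfin : FinT a b.B := (hL b (hm1 b hb).1).fin
          have hbsub : b.B ⊆ V ∪ uniB L1 := fun y hy =>
            Finset.mem_union_right _ ((mem_uniB L1 y).2 ⟨b, hb, hy⟩)
          have hsepb : ∀ i ∈ b.B, ∀ j ∈ V ∪ uniB L1, j ∉ b.B → a i j = 0 := by
            intro i hi j hj hj'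
            have hi1 : i ∈ uniB L1 := (mem_uniB L1 i).2 ⟨b, hb, hi⟩
            rcases Finset.mem_union.1 hj with h | h
            · exact hV1.2 i hi1 j h
            · obtain ⟨b', hb', hjb'⟩ := (mem_uniB L1 j).1 h
              have hne : b ≠ b' := fun e => hj' (e ▸ hjb')
              have hsep := pair_ne hs hd1 hb hb' hne
              exact hsep.2 i hi j hjb'
          rw [solN_component hs hfinV' hbsub hsepb (fun i => T'.E (i, f)) x hx]
          have hEb : ∀ i ∈ b.B, T'.E (i, f) = T.E (i, f) + cqN a b.B b.q i := by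
            intro i hi
            rw [hT', expl_E_in a hs f L1 hd1 T b hb i hi]
          rw [solN_congr hs hbfin (fun i => T'.E (i, f)) (fun i => T.E (i, f) + cqN a b.B b.q i) hEb,
            solN_add hs hbfin (fun i => T.E (i, f)) (cqN a b.B b.q) x,
            solN_cqN hs hbfin b.q x hx]
          have h0 := solN_nonneg hs hbfin (fun i => T.E (i, f)) (by
            intro i hi
            exact isN_nonneg (hT.nat i (by
              rw [hun]
              exact Finset.mem_union_right _ ((mem_uniB L1 i).2 ⟨b, hb, hi⟩)) f hf)) x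
          linarith
        rw [hA]
        linarith)
    rw [hihyp]
    ring

end

end Pool.Agent.H46.AH

end

section

/-!
KAC ADE, module AH20: killing of joint values by an outer vertex; the field `vanNeg`; the columns of the new walls.

* `blkOf_ok`: block data (AG0) of a cluster: `BlkOk` follows from `IsRF` (`rp_spec`).
* `evU_kill`: `evU_eq_evF` (AG1): for every pattern of the product (`PatWide_prod`, AG6) the value is zero by `TV_kill` (AG5) with
  `V = ∅`, `U = uni ..  = W`; `hI2` of `TV_kill` follows from `cls` and the hypothesis.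
* `GG_vanNeg`: `evU_kill` for `z = l`, `f = k - 1`; `RReg W` of `stTrm` is trivial (all exponents on the walls are zero, the columns
  outside of `W` do not contain symbols of `W`).
* `drop_cols`: replace the columns `x ∈ X` one after the other (`TV_col_add` in every pattern: `evU_col_add'`); the term with
  column `c x` is killed in the direction `x`.
-/

set_option autoImplicit false

namespace Pool.Agent.H46.AH

open scoped BigOperators
open Pool.Agent.H27.KAC Pool.Agent.H40.KADE

section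

variable {I : Type} [Fintype I] [DecidableEq I]

private theorem AH20_isZ_add {p q : ℚ} (hp : IsZ p) (hq : IsZ q) : IsZ (p + q) := by
  obtain ⟨m, rfl⟩ := hp
  obtain ⟨n, rfl⟩ := hq
  exact ⟨m + n, by push_cast; ring⟩

private theorem AH20_isZ_sub {p q : ℚ} (hp : IsZ p) (hq : IsZ q) : IsZ (p - q) := by
  obtain ⟨m, rfl⟩ := hp
  obtain ⟨n, rfl⟩ := hq
  exact ⟨m - n, by push_cast; ring⟩

private theorem AH20_isZ_mul {p q : ℚ} (hp : IsZ p) (hq : IsZ q) : IsZ (p * q) := by
  obtain ⟨m, rfl⟩ := hp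
  obtain ⟨n, rfl⟩ := hq
  exact ⟨m * n, by push_cast; ring⟩

private theorem AH20_isZ_sum {ι : Type} (s : Finset ι) (g : ι → ℚ) (h : ∀ i ∈ s, IsZ (g i)) :
    IsZ (∑ i ∈ s, g i) := by
  refine Finset.sum_induction g IsZ (fun _ _ => AH20_isZ_add) ⟨0, by simp⟩ h

private theorem AH20_isN_zero : IsN (0 : ℚ) := ⟨0, by simp⟩

omit [Fintype I] in
private theorem AH20_sy_ne {i j : I} {k l : ℕ} (h : i ≠ j) : (sy i k : QE I) (j, l) = 0 := by
  rw [Finsupp.single_apply, if_neg]
  intro h1
  exact h (congrArg Prod.fst h1)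

omit [Fintype I] in
private theorem AH20_sy_lev {i j : I} {k l : ℕ} (h : l ≠ k) : (sy i k : QE I) (j, l) = 0 := by
  rw [Finsupp.single_apply, if_neg]
  intro h1
  exact h (congrArg Prod.snd h1).symm

private theorem AH20_pw (a : I → I → ℕ) (hs : ∀ i j, a i j = a j i) (W : Finset I)
    (Φ : Finset I → FFn I) :
    ((comps a W).toList.map (fun A => (A, Φ A))).Pairwise (fun b c => Sep a b.1 c.1) := by
  rw [List.pairwise_map]
  refine List.Nodup.pairwise_of_forall_ne (Finset.nodup_toList _) fun A hA B hB hAB => ?_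
  rw [Finset.mem_toList] at hA hB
  exact ⟨comps_disjoint hs hA hB hAB, comps_nonadj hs hA hB hAB⟩

/-- additivity in one column -/
private theorem AH20_col_add (a : I → I → ℕ) : ∀ (U : List (Finset I × FFn I)) (T : Trm I) (z : I),
    (∀ b ∈ U, z ∉ b.1) → ∀ c c' : QE I,
    evU a U (T.col z (c + c')) = evU a U (T.col z c) + evU a U (T.col z c')
  | [], T, z, _, c, c' => by
    rw [evU_nil, evU_nil, evU_nil, TV_col_add]
  | b :: U, T, z, h, c, c' => by
    have hz : z ∉ b.1 := h b List.mem_cons_self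
    have hU : ∀ b ∈ U, z ∉ b.1 := fun b' hb' => h b' (List.mem_cons_of_mem _ hb')
    rw [evU_cons, evU_cons, evU_cons, ← List.sum_map_add]
    congr 1
    refine List.map_congr_left fun x _ => ?_
    rw [patT_col_comm a b.1 x.2 z hz, patT_col_comm a b.1 x.2 z hz, patT_col_comm a b.1 x.2 z hz,
      AH20_col_add a U _ z hU c c', mul_add]

/-- block data of a cluster. -/
noncomputable def blkOf (a : I → I → ℕ) (q : I → ℚ) (w : Finset I → ℕ → ℚ) (f : ℕ)
    (Φ : Finset I → FFn I) (A : Finset I) : Blk I := ⟨A, Φ A, w A f, rp a A q, false⟩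

theorem blkOf_ok (a : I → I → ℕ) (hs : ∀ i j, a i j = a j i) (cd : CrossData a) (A : Finset I)
    (hA : FinT a A) (hc : ConnS a A) (q : I → ℚ) (hq : ∀ x ∈ A, IsZ (cqN a A q x))
    (w : Finset I → ℕ → ℚ) (f : ℕ) (hf : 1 ≤ f) (Φ : Finset I → FFn I)
    (hΦ : IsRF a cd A q (w A) f (Φ A)) : BlkOk a cd f (blkOf a q w f Φ A) := by
  have hrp := rp_spec a hs A hA q hq
  refine ⟨hA, hc, hrp.1, ?_, ?_, ?_⟩
  · intro c hcΦ
    have hw := hΦ.win c hcΦ
    exact ⟨hw.toPatOk, hw.le, fun N hN x hx => (hw.ge N hN x hx).le⟩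
  · intro c hcΦ x hx
    have hw := hΦ.win c hcΦ
    have h1 := AH20_isZ_sub (hw.cls x hx) (hrp.2 x hx)
    have e : c.2.q x - q x - (rp a A q x - q x) = c.2.q x - rp a A q x := by ring
    rw [e] at h1
    exact h1
  · intro T hT hk
    have h1 := hΦ.knk hf _ hrp T hT hk
    have e1 : (blkOf a q w f Φ A).cf = w A f := by
      show (if false = true then (-1 : ℚ) ^ A.card else 1) * w A f = w A f
      rw [if_neg (by simp), one_mul]
    have e2 : (blkOf a q w f Φ A).sd f = f + 1 := by
      show (if false = true then f - 1 else f + 1) = f + 1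
      rw [if_neg (by simp)]
    rw [e1, e2]
    exact h1

theorem uni_comps (a : I → I → ℕ) (hs : ∀ i j, a i j = a j i) (W : Finset I)
    (Φ : Finset I → FFn I) : uni ((comps a W).toList.map (fun A => (A, Φ A))) = W := by
  ext x
  rw [mem_uni]
  constructor
  · rintro ⟨b, hb, hx⟩
    obtain ⟨A, hA, rfl⟩ := List.mem_map.1 hb
    exact comps_subset (Finset.mem_toList.1 hA) hx
  · intro hx
    obtain ⟨A, hA, hxA⟩ := comps_cover hs x hx
    exact ⟨(A, Φ A), List.mem_map.2 ⟨A, Finset.mem_toList.2 hA, rfl⟩, hxA⟩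

theorem evU_kill (a : I → I → ℕ) (hs : ∀ i j, a i j = a j i) (cd : CrossData a) (f : ℕ)
    (hf : 1 ≤ f) (W : Finset I) (hW : FinT a W) (q : I → ℚ) (hq : ∀ x ∈ W, IsZ (cqN a W q x))
    (w : Finset I → ℕ → ℚ) (Φ : Finset I → FFn I)
    (hΦ : ∀ A ∈ comps a W, IsRF a cd A q (w A) f (Φ A)) (T : Trm I) (hT : RReg W T) (z : I)
    (hz : z ∉ W) (hzz : a z z = 0) (hN : ∀ l, 1 ≤ l → l ≠ f → l ≠ f + 1 → IsN (T.E (z, l)))
    (h0 : 0 ≤ T.E (z, f + 1))
    (hI2 : IsZ (T.E (z, f) + T.E (z, f + 1) - ∑ x ∈ W, (a z x : ℚ) * q x))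
    (hcol : ∀ j, j ∉ W → ∀ l, 1 ≤ l → T.Λ j (z, l) ≠ 0 → l = f ∨ 0 < T.E (z, l))
    (h1 : 0 < T.E (z, f)) :
    evU a ((comps a W).toList.map (fun A => (A, Φ A))) T = 0 := by
  have hpw := AH20_pw a hs W Φ
  have hdis : ((comps a W).toList.map (fun A => (A, Φ A))).Pairwise
      (fun b c => Disjoint b.1 c.1) := hpw.imp fun h => h.1
  rw [evU_eq_evF a _ hdis]
  unfold evF
  refine List.sum_eq_zero fun y hy => ?_
  obtain ⟨c, hc, rfl⟩ := List.mem_map.1 hy
  have hwide : PatWide a cd (uni ((comps a W).toList.map (fun A => (A, Φ A)))) f c.2 := by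
    refine PatWide_prodF a hs cd f _ hpw ?_ c hc
    intro b hb d hd
    obtain ⟨A, hA, rfl⟩ := List.mem_map.1 hb
    have hw := (hΦ A (Finset.mem_toList.1 hA)).win d hd
    exact ⟨hw.toPatOk, hw.le, fun N hN x hx => (hw.ge N hN x hx).le⟩
  have hcls : ∀ x ∈ W, IsZ (c.2.q x - q x) := by
    intro x hx
    obtain ⟨A, hA, hxA⟩ := comps_cover hs x hx
    obtain ⟨d, hd, hdx⟩ := prodF_mem _ hdis c hc (A, Φ A)
      (List.mem_map.2 ⟨A, Finset.mem_toList.2 hA, rfl⟩)
    rw [(hdx x hxA).2]
    exact ((hΦ A hA).win d hd).cls x hxA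
  rw [uni_comps a hs W Φ] at hwide ⊢
  have hV : FinT a (∅ : Finset I) := FinT.empty a
  have hsep : Sep a W (∅ : Finset I) := ⟨Finset.disjoint_empty_right _, fun x _ y hy => by simp at hy⟩
  rw [TV_kill a hs cd f hf W ∅ hW hV hsep c.2 hwide (fun _ => f + 1) (fun v hv => by simp at hv) T hT
    (fun v hv => by simp at hv) z hz (by simp) hzz hN h0 ?_ hcol ?_, mul_zero]
  · have h2 : IsZ (∑ x ∈ W, (a z x : ℚ) * (c.2.q x - q x)) :=
      AH20_isZ_sum _ _ fun x hx => AH20_isZ_mul ⟨(a z x : ℤ), by push_cast; ring⟩ (hcls x hx)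
    have h3 := AH20_isZ_sub hI2 h2
    have e : T.E (z, f) + T.E (z, f + 1) - ∑ x ∈ W, (a z x : ℚ) * q x -
        ∑ x ∈ W, (a z x : ℚ) * (c.2.q x - q x) =
        T.E (z, f) + T.E (z, f + 1) - ∑ x ∈ W, (a z x : ℚ) * c.2.q x := by
      have e1 : ∑ x ∈ W, (a z x : ℚ) * (c.2.q x - q x) =
          ∑ x ∈ W, (a z x : ℚ) * c.2.q x - ∑ x ∈ W, (a z x : ℚ) * q x := by
        rw [← Finset.sum_sub_distrib]
        exact Finset.sum_congr rfl fun x _ => by ring
      rw [e1]
      ring
    rw [e] at h3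
    exact h3
  · rw [Finset.sum_empty, add_zero]
    exact h1

theorem stTrm_E (a : I → I → ℕ) (k : ℕ) (hk : 1 ≤ k) (γ P p : I → ℚ) (M N : I → I → ℚ)
    (W : Finset I) (i : I) (l : ℕ) :
    (stTrm k γ P p M N W).E (i, l) =
      (if l = k then -P i else 0) + (if l + 1 = k then p i else 0) := by
  show (stE k P p) (i, l) = _
  unfold stE
  rw [Finsupp.finsetSum_apply, Finset.sum_eq_single i]
  · rw [Finsupp.add_apply, Finsupp.smul_apply, Finsupp.smul_apply, Finsupp.single_apply,
      Finsupp.single_apply]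
    congr 1
    · by_cases h : l = k
      · rw [if_pos (by rw [h]), if_pos h, smul_eq_mul, mul_one]
      · rw [if_neg (fun h1 => h (congrArg Prod.snd h1).symm), if_neg h, smul_zero]
    · by_cases h : l + 1 = k
      · rw [if_pos (by rw [← h]; rfl), if_pos h, smul_eq_mul, mul_one]
      · rw [if_neg (fun h1 => h (by have := (congrArg Prod.snd h1); simp only at this; omega)),
          if_neg h, smul_zero]
  · intro j _ hj
    rw [Finsupp.add_apply, Finsupp.smul_apply, Finsupp.smul_apply, AH20_sy_ne hj, AH20_sy_ne hj,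
      smul_zero, smul_zero, add_zero]
  · intro h
    exact absurd (Finset.mem_univ i) h

/-- the columns of a state contain only symbols of levels `k`, `k - 1` off `W`. -/
private theorem AH20_stCol (k : ℕ) (M N : I → I → ℚ) (W : Finset I) (j i : I) (l : ℕ)
    (h : (stCol k M N W j) (i, l) ≠ 0) : j ∉ W ∧ i ∉ W ∧ (l = k ∨ l = k - 1) := by
  unfold stCol at h
  by_cases hj : j ∈ W
  · rw [if_pos hj] at h
    exact absurd rfl h
  rw [if_neg hj, Finsupp.finsetSum_apply] at h
  refine ⟨hj, ?_⟩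
  by_contra hcon
  apply h
  refine Finset.sum_eq_zero fun x hx => ?_
  have hxW : x ∉ W := (Finset.mem_sdiff.1 hx).2
  rw [Finsupp.sub_apply, Finsupp.smul_apply, Finsupp.smul_apply]
  by_cases hiW : i ∈ W
  · have hne : x ≠ i := fun h => hxW (h ▸ hiW)
    rw [AH20_sy_ne hne, AH20_sy_ne hne, smul_zero, smul_zero, sub_zero]
  · have h1 : l ≠ k := fun h => hcon ⟨hiW, Or.inl h⟩
    have h2 : l ≠ k - 1 := fun h => hcon ⟨hiW, Or.inr h⟩
    rw [AH20_sy_lev h1, AH20_sy_lev h2, smul_zero, smul_zero, sub_zero]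

theorem stTrm_RReg (a : I → I → ℕ) (k : ℕ) (hk : 1 ≤ k) (γ P p : I → ℚ) (M N : I → I → ℚ)
    (W : Finset I) (hP : ∀ x ∈ W, P x = 0) (hp : ∀ x ∈ W, p x = 0) :
    RReg W (stTrm k γ P p M N W) := by
  refine ⟨?_, ?_⟩
  · intro x hx l _
    rw [stTrm_E a k hk γ P p M N W x l, hP x hx, hp x hx]
    have e : (if l = k then -(0 : ℚ) else 0) + (if l + 1 = k then (0 : ℚ) else 0) = 0 := by
      simp
    rw [e]
    exact AH20_isN_zero
  · intro x hx j _ l _ h
    exact absurd hx (AH20_stCol k M N W j x l h).2.1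

/-- the field `vanNeg` of `ClusterVal`. -/
theorem GG_vanNeg (a : I → I → ℕ) (hs : ∀ i j, a i j = a j i) (cd : CrossData a)
    (h : RTfam a cd) (fam : Finset I → (I → ℚ) → (ℕ → ℚ) → ℕ → FFn I) (hfam : IsFam a cd fam)
    (k : ℕ) (γ P p : I → ℚ) (M N : I → I → ℚ) (W : Finset I) (q : I → ℚ)
    (w : Finset I → ℕ → ℚ) (l : I) (hk : 2 ≤ k)
    (hG : GS a (fun N q g => cn a cd N q g) k γ P p W q w) (hp : ∀ i, 0 ≤ p i)
    (hl : l ∉ W) (hll : a l l = 0) (hPl : P l < 0) (hpl : 0 < p l) :
    GG a fam k γ P p M N W q w = 0 := by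
  have hW : FinT a W := FT_FinT a hs hG.ft
  have hE := fun i l => stTrm_E a k (show 1 ≤ k by omega) γ P p M N W i l
  have hcvN : ∀ x, cv a q x = cqN a W q x := fun x => cv_eq_cqN a W q hG.q0 x
  have hqZ : ∀ x ∈ W, IsZ (cqN a W q x) := by
    intro x hx
    obtain ⟨z, hz⟩ := hG.int x
    rw [hG.P0 x hx, hG.p0 x hx, hcvN x] at hz
    exact ⟨-z, by push_cast; linarith⟩
  unfold GG stBlk
  refine evU_kill a hs cd (k - 1) (by omega) W hW q hqZ w
    (fun B => fam B q (w B) (k - 1)) ?_ (stTrm k γ P p M N W)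
    (stTrm_RReg a k (by omega) γ P p M N W hG.P0 hG.p0) l hl hll ?_ ?_ ?_ ?_ ?_
  · intro A hA
    have hAW := comps_subset hA
    have hqA : ∀ x ∈ A, IsZ (cqN a A q x) := by
      intro x hx
      rw [cqN_comp a W A hA q x hx]
      exact hqZ x (hAW hx)
    have hadm := hG.adm A (by rw [clusters_eq_comps a hs]; exact hA)
    exact hfam A q (w A) (k - 1)
      (RFex_of_Adm a hs cd h A (hW.mono hAW) (comps_conn hA) γ q hqA (w A) (k - 1) hadm (k - 1)
        le_rfl)
  · intro l' _ h1 h2
    rw [hE, if_neg (by omega), if_neg (by omega), add_zero]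
    exact AH20_isN_zero
  · rw [hE, if_pos (by omega), if_neg (by omega), add_zero]
    linarith
  · rw [hE, hE, if_neg (by omega), if_pos (by omega), if_pos (by omega), if_neg (by omega)]
    obtain ⟨z, hz⟩ := hG.int l
    have hcl : cv a q l = - ∑ x ∈ W, (a l x : ℚ) * q x := by
      rw [hcvN l]
      unfold cqN
      rw [← Finset.sum_neg_distrib]
      refine Finset.sum_congr rfl fun x hx => ?_
      have hne : l ≠ x := fun h => hl (h ▸ hx)
      unfold cart
      rw [if_neg hne]
      push_cast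
      ring
    rw [hcl] at hz
    refine ⟨-z, ?_⟩
    push_cast
    linarith
  · intro j hj l' _ hΛ
    obtain ⟨-, -, h3⟩ := AH20_stCol k M N W j l l' hΛ
    rcases h3 with h3 | h3
    · right
      rw [hE, if_pos h3, if_neg (by omega), add_zero]
      linarith
    · exact Or.inl h3
  · rw [hE, if_neg (by omega), if_pos (by omega), zero_add]
    exact hpl

/-- the columns of the new walls. -/
theorem drop_cols (a : I → I → ℕ) (hs : ∀ i j, a i j = a j i) (cd : CrossData a) (f : ℕ)
    (hf : 1 ≤ f) (W : Finset I) (hW : FinT a W) (q : I → ℚ) (hq : ∀ x ∈ W, IsZ (cqN a W q x))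
    (w : Finset I → ℕ → ℚ) (Φ : Finset I → FFn I)
    (hΦ : ∀ A ∈ comps a W, IsRF a cd A q (w A) f (Φ A)) (T : Trm I) (hT : RReg W T)
    (X : Finset I) (hXW : Disjoint W X) (hX0 : ∀ z ∈ X, a z z = 0)
    (hE : ∀ z ∈ X, ∀ l, 1 ≤ l → l ≠ f → T.E (z, l) = 0) (hp : ∀ z ∈ X, 0 < T.E (z, f))
    (hI2 : ∀ z ∈ X, IsZ (T.E (z, f) - ∑ x ∈ W, (a z x : ℚ) * q x)) (c : I → QE I)
    (hc : ∀ x ∈ X, T.Λ x = sy x (f + 1) + c x)
    (hc' : ∀ x ∈ X, ∀ i l, 1 ≤ l → c x (i, l) ≠ 0 → l = f ∧ i ∉ W)
    (hcol : ∀ z ∈ X, ∀ j, j ∉ W → j ∉ X → ∀ l, 1 ≤ l → T.Λ j (z, l) ≠ 0 → l = f) :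
    evU a ((comps a W).toList.map (fun A => (A, Φ A))) T =
      evU a ((comps a W).toList.map (fun A => (A, Φ A))) (T.cols X (fun x => sy x (f + 1))) := by
  have key : ∀ Y : Finset I, Y ⊆ X → evU a ((comps a W).toList.map (fun A => (A, Φ A))) T =
      evU a ((comps a W).toList.map (fun A => (A, Φ A))) (T.cols Y (fun x => sy x (f + 1))) := by
    intro Y
    induction Y using Finset.induction_on with
    | empty =>
      intro _
      have e : T.cols (∅ : Finset I) (fun x => sy x (f + 1)) = T := by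
        refine Trm.ext rfl rfl ?_
        funext i
        show (if i ∈ (∅ : Finset I) then sy i (f + 1) else T.Λ i) = T.Λ i
        rw [if_neg (Finset.notMem_empty i)]
      rw [e]
    | insert z Y hzY ih =>
      intro hYX
      have hzX : z ∈ X := hYX (Finset.mem_insert_self z Y)
      have hYX' : Y ⊆ X := fun y hy => hYX (Finset.mem_insert_of_mem hy)
      have hzW : z ∉ W := fun h => Finset.disjoint_left.1 hXW h hzX
      rw [ih hYX']
      set T' : Trm I := T.cols Y (fun x => sy x (f + 1)) with hT'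
      have hΛ' : ∀ j, T'.Λ j = if j ∈ Y then sy j (f + 1) else T.Λ j := fun j => rfl
      have e1 : T' = T'.col z (sy z (f + 1) + c z) := by
        refine Trm.ext rfl rfl ?_
        funext i
        show T'.Λ i = Function.update T'.Λ z (sy z (f + 1) + c z) i
        by_cases hi : i = z
        · subst hi
          rw [Function.update_self, hΛ', if_neg hzY, hc i hzX]
        · rw [Function.update_of_ne hi]
      have e2 : T.cols (insert z Y) (fun x => sy x (f + 1)) = T'.col z (sy z (f + 1)) := by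
        refine Trm.ext rfl rfl ?_
        funext i
        show (if i ∈ insert z Y then sy i (f + 1) else T.Λ i) =
          Function.update T'.Λ z (sy z (f + 1)) i
        by_cases hi : i = z
        · subst hi
          rw [Function.update_self, if_pos (Finset.mem_insert_self _ _)]
        · rw [Function.update_of_ne hi, hΛ']
          by_cases hiY : i ∈ Y
          · rw [if_pos hiY, if_pos (Finset.mem_insert_of_mem hiY)]
          · rw [if_neg hiY, if_neg (fun h => hiY (Finset.mem_of_mem_insert_of_ne h hi))]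
      have hzU : ∀ b ∈ (comps a W).toList.map (fun A => (A, Φ A)), z ∉ b.1 := by
        intro b hb
        obtain ⟨A, hA, rfl⟩ := List.mem_map.1 hb
        exact fun h => hzW (comps_subset (Finset.mem_toList.1 hA) h)
      have e3 : evU a ((comps a W).toList.map (fun A => (A, Φ A))) T' =
          evU a ((comps a W).toList.map (fun A => (A, Φ A))) (T'.col z (sy z (f + 1))) +
          evU a ((comps a W).toList.map (fun A => (A, Φ A))) (T'.col z (c z)) := by
        rw [← AH20_col_add a _ T' z hzU, ← e1]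
      have hΛ'' : ∀ j, (T'.col z (c z)).Λ j = if j = z then c z else T'.Λ j := by
        intro j
        show Function.update T'.Λ z (c z) j = _
        by_cases hj : j = z
        · subst hj
          rw [Function.update_self, if_pos rfl]
        · rw [Function.update_of_ne hj, if_neg hj]
      have hEz : ∀ x l, (T'.col z (c z)).E (x, l) = T.E (x, l) := fun x l => rfl
      have e4 : evU a ((comps a W).toList.map (fun A => (A, Φ A))) (T'.col z (c z)) = 0 := by
        refine evU_kill a hs cd f hf W hW q hq w Φ hΦ (T'.col z (c z)) ?_ z hzW (hX0 z hzX)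
          ?_ ?_ ?_ ?_ ?_
        · refine ⟨fun x hx l hl => hT.nat x hx l hl, ?_⟩
          intro x hx j hj l hl hne
          rw [hΛ''] at hne
          by_cases hjz : j = z
          · rw [if_pos hjz] at hne
            exact absurd hx (hc' z hzX x l hl hne).2
          · rw [if_neg hjz, hΛ'] at hne
            by_cases hjY : j ∈ Y
            · rw [if_pos hjY] at hne
              have hjx : j ≠ x := fun h => hj (h ▸ hx)
              exact absurd (AH20_sy_ne hjx) hne
            · rw [if_neg hjY] at hne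
              exact hT.col x hx j hj l hl hne
        · intro l hl hlf _
          rw [hEz, hE z hzX l hl hlf]
          exact AH20_isN_zero
        · rw [hEz, hE z hzX (f + 1) (by omega) (by omega)]
        · rw [hEz, hEz, hE z hzX (f + 1) (by omega) (by omega), add_zero]
          exact hI2 z hzX
        · intro j hj l hl hne
          left
          rw [hΛ''] at hne
          by_cases hjz : j = z
          · rw [if_pos hjz] at hne
            exact (hc' z hzX z l hl hne).1
          · rw [if_neg hjz, hΛ'] at hne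
            by_cases hjY : j ∈ Y
            · rw [if_pos hjY] at hne
              exact absurd (AH20_sy_ne hjz) hne
            · rw [if_neg hjY] at hne
              by_cases hjX : j ∈ X
              · rw [hc j hjX, Finsupp.add_apply, AH20_sy_ne hjz, zero_add] at hne
                exact (hc' j hjX z l hl hne).1
              · exact hcol z hzX j hj hjX l hl hne
        · rw [hEz]
          exact hp z hzX
      rw [e3, e4, add_zero, e2]
  exact key X (Finset.Subset.refl X)

end

end Pool.Agent.H46.AH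

end

section

/-!
KAC ADE, module AH22: merging of restarted blocks with new walls.

`blk_elT`: columns `j ∉ N` may be changed by combinations of the `cE a y k`, `y ∈ N`: `TV_T0` (AE6) with
`N`, `κ = k`; the exponents of `blkT a N k σ q T` on `N` at level `k` are `T.E + C_N q`, so `solN = q + solN(T.E) > 0`.
`merge`: with `N = B ∪ X`, `T1 = blkT a B f (f+1) q' T` (all columns of `N` are `(x,f+1)`).  The exponents of `T1` on `N` at level
`f` are `C_N (q' + Q)` (`q'` cut off to `B`), so `solN = q' + Q > 0`; `TV_rep` (AE4) with `v = q' + Q - q''` (integers,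
`v < solN` since `q'' > 0`) gives `TV T1 = TV (T1.etaM a f v) = TV (blkT a N f (f+1) q'' (T.eta a f Q))`; then `blk_elT`
for `T.eta a f Q` (exponents `0` on `N` at all levels).
-/

set_option autoImplicit false

namespace Pool.Agent.H46.AH

open scoped BigOperators
open Pool.Agent.H27.KAC Pool.Agent.H40.KADE

section

variable {I : Type} [Fintype I] [DecidableEq I]

private theorem ah22_cart (a : I → I → ℕ) (hs : ∀ i j, a i j = a j i) (x y : I) :
    cart a x y = cart a y x := AE4_cart_symm hs x y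

private theorem ah22_sum (a : I → I → ℕ) (hs : ∀ i j, a i j = a j i) (N : Finset I) (v : I → ℚ)
    (hv : ∀ i, i ∉ N → v i = 0) (i : I) : ∑ x, v x * (cart a x i : ℚ) = cqN a N v i := by
  unfold cqN
  rw [← Finset.sum_subset (Finset.subset_univ N)]
  · refine Finset.sum_congr rfl fun x _ => ?_
    rw [ah22_cart a hs x i]
    ring
  · intro x _ hx
    rw [hv x hx, zero_mul]

private theorem ah22_etaE (a : I → I → ℕ) (hs : ∀ i j, a i j = a j i) (N : Finset I) (k : ℕ)
    (v : I → ℚ) (hv : ∀ i, i ∉ N → v i = 0) (T : Trm I) (i : I) (l : ℕ) :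
    (T.eta a k v).E (i, l) = T.E (i, l) - if l = k then cqN a N v i else 0 := by
  rw [eta_eq_etaM, etaM_E]
  by_cases hl : l = k
  · subst hl
    rw [if_pos rfl, Finset.filter_true_of_mem (fun _ _ => rfl), ah22_sum a hs N v hv]
  · rw [if_neg hl, Finset.filter_false_of_mem (fun _ _ h => hl h.symm), Finset.sum_empty]

private theorem ah22_neg (a : I → I → ℕ) (N : Finset I) (v : I → ℚ) (i : I) :
    cqN a N (fun x => -v x) i = -cqN a N v i := by
  unfold cqN
  rw [← Finset.sum_neg_distrib]
  exact Finset.sum_congr rfl fun x _ => by ring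

private theorem ah22_congr (a : I → I → ℕ) (N : Finset I) (v w : I → ℚ) (h : ∀ i ∈ N, v i = w i)
    (i : I) : cqN a N v i = cqN a N w i := by
  unfold cqN
  exact Finset.sum_congr rfl fun x hx => by rw [h x hx]

private theorem ah22_add (a : I → I → ℕ) (N : Finset I) (v w : I → ℚ) (i : I) :
    cqN a N (fun x => v x + w x) i = cqN a N v i + cqN a N w i := by
  unfold cqN
  rw [← Finset.sum_add_distrib]
  exact Finset.sum_congr rfl fun x _ => by ring

/-- exponents of `blkT`. -/
private theorem ah22_E (a : I → I → ℕ) (hs : ∀ i j, a i j = a j i) (N N' : Finset I)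
    (hNN : N ⊆ N') (k σ : ℕ) (q : I → ℚ) (T : Trm I) (i : I) (l : ℕ) :
    (blkT a N k σ q T).E (i, l) = T.E (i, l) + if l = k then cqN a N' (resQ N q) i else 0 := by
  have h1 : (blkT a N k σ q T).E (i, l) = (T.eta a k (fun i => -resQ N q i)).E (i, l) := rfl
  have h2 : ∀ i, i ∉ N' → -resQ N q i = 0 := by
    intro i hi
    rw [resQ, if_neg (fun h => hi (hNN h)), neg_zero]
  rw [h1, ah22_etaE a hs N' k _ h2, ah22_neg]
  by_cases hl : l = k
  · rw [if_pos hl, if_pos hl]; ring
  · rw [if_neg hl, if_neg hl]; ring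

private theorem ah22_qpos (a : I → I → ℕ) (hs : ∀ i j, a i j = a j i) (N : Finset I)
    (hN : FinT a N) (q : I → ℚ) (hq : QOk a N q) : ∀ x ∈ N, 0 < q x := by
  intro x hx
  rw [← solN_cqN hs hN q x hx]
  refine solN_pos_self hs hN _ ?_ x hx ?_
  · intro i hi
    obtain ⟨n, -, hn⟩ := hq i hi
    rw [hn]
    exact Nat.cast_nonneg n
  · obtain ⟨n, h1, hn⟩ := hq x hx
    rw [hn]
    exact_mod_cast h1

omit [Fintype I] in
private theorem ah22_sy (i x : I) (k l : ℕ) (h : (sy i k : QE I) (x, l) ≠ 0) : l = k := by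
  by_contra hlk
  apply h
  rw [sy, Finsupp.single_apply, if_neg]
  intro e
  exact hlk (congrArg Prod.snd e).symm

private theorem ah22_cE (a : I → I → ℕ) (y x : I) (k l : ℕ) (h : (cE a y k) (x, l) ≠ 0) :
    l = k := by
  by_contra hlk
  apply h
  rw [cE_apply, if_neg hlk]

theorem blk_elT (a : I → I → ℕ) (hs : ∀ i j, a i j = a j i) (N : Finset I) (hN : FinT a N)
    (k σ : ℕ) (hk : 1 ≤ k) (hσ : Side k σ) (q : I → ℚ) (hq : QOk a N q) (T : Trm I)
    (hT : RRegK N k T) :
    TV a (blkT a N k σ q T) = TV a (blkT a N k σ q (elT a N k T)) := by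
  classical
  obtain ⟨γ1, hγ1⟩ : ∃ γ1, γ1 = (blkT a N k σ q T).γ := ⟨_, rfl⟩
  obtain ⟨E1, hE1⟩ : ∃ E1, E1 = (blkT a N k σ q T).E := ⟨_, rfl⟩
  have hE1v : ∀ i l, E1 (i, l) = T.E (i, l) + if l = k then cqN a N q i else 0 := by
    intro i l
    rw [hE1, ah22_E a hs N N (Finset.Subset.refl _) k σ q T i l]
    have : cqN a N (resQ N q) i = cqN a N q i :=
      ah22_congr a N _ _ (fun x hx => by rw [resQ, if_pos hx]) i
    rw [this]
  have hqpos := ah22_qpos a hs N hN q hq
  -- the intermediate terms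
  let Cs : Finset I → Trm I := fun S =>
    ⟨γ1, E1, fun j => if j ∈ N then sy j σ else if j ∈ S then elC a N k (T.Λ j) else T.Λ j⟩
  have hC0 : Cs ∅ = blkT a N k σ q T := by
    refine Trm.ext hγ1 hE1 ?_
    funext j
    simp only [Cs, blkT, Trm.cols, Trm.eta, Finset.notMem_empty, if_false]
  have hC1 : Cs (Finset.univ \ N) = blkT a N k σ q (elT a N k T) := by
    refine Trm.ext hγ1 hE1 ?_
    funext j
    simp only [Cs, blkT, Trm.cols, Trm.eta, elT]
    by_cases hj : j ∈ N
    · rw [if_pos hj, if_pos hj]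
    · rw [if_neg hj, if_neg hj, if_neg hj,
        if_pos (Finset.mem_sdiff.2 ⟨Finset.mem_univ j, hj⟩)]
  -- all columns are harmless
  have hcolL : ∀ x ∈ N, ∀ j, j ∉ N → ∀ l, 1 ≤ l → T.Λ j (x, l) ≠ 0 → l = σ ∨ l = k ∨
      1 ≤ E1 (x, l) := by
    intro x hx j hj l hl hne
    rcases hT.col x hx j hj l hl hne with h | h
    · exact Or.inr (Or.inl h)
    · by_cases hlk : l = k
      · exact Or.inr (Or.inl hlk)
      · refine Or.inr (Or.inr ?_)
        rw [hE1v, if_neg hlk, add_zero]
        exact h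
  have hcolE : ∀ x ∈ N, ∀ j, j ∉ N → ∀ l, 1 ≤ l → (elC a N k (T.Λ j)) (x, l) ≠ 0 →
      l = σ ∨ l = k ∨ 1 ≤ E1 (x, l) := by
    intro x hx j hj l hl hne
    rw [elC_apply_mem a hs N hN k _ x hx] at hne
    by_cases hlk : l = k
    · exact Or.inr (Or.inl hlk)
    · rw [if_neg hlk] at hne
      exact hcolL x hx j hj l hl hne
  have key : ∀ S : Finset I, (∀ j ∈ S, j ∉ N) → TV a (Cs S) = TV a (Cs ∅) := by
    intro S
    induction S using Finset.induction_on with
    | empty => intro _; rfl
    | insert j S hjS ih =>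
      intro hS
      have hjN : j ∉ N := hS j (Finset.mem_insert_self j S)
      rw [← ih (fun i hi => hS i (Finset.mem_insert_of_mem hi))]
      have e1 : Cs (insert j S) = (Cs S).col j (elC a N k (T.Λ j)) := by
        refine Trm.ext rfl rfl ?_
        funext i
        simp only [Cs, Trm.col]
        by_cases hij : i = j
        · subst hij
          rw [Function.update_self, if_neg hjN, if_pos (Finset.mem_insert_self i S)]
        · rw [Function.update_of_ne hij]
          by_cases hiS : i ∈ S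
          · rw [if_pos (Finset.mem_insert_of_mem hiS), if_pos hiS]
          · rw [if_neg (fun h => (Finset.mem_insert.1 h).elim hij hiS), if_neg hiS]
      have e2 : (Cs S).Λ j = T.Λ j := by
        simp only [Cs]
        rw [if_neg hjN, if_neg hjS]
      have e3 : TV a ((Cs S).col j (T.Λ j)) = TV a (Cs S) := by
        rw [← e2]
        exact TV_col_self a (Cs S) j
      have e4 : ∀ y ∈ N, TV a ((Cs S).col j (cE a y k)) = 0 := by
        intro y hy
        have hEE : ((Cs S).col j (cE a y k)).E = E1 := rfl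
        refine TV_T0 a hs N hN (fun _ => k) (fun _ => σ) (fun _ _ => hk) (fun _ _ _ _ _ => rfl)
          (fun _ _ => hσ) _ ?_ ?_ y hy j ?_
        · intro x hx
          refine ⟨fun l hl hlk => ?_, ?_, fun i l hl hne => ?_⟩
          · rw [hEE, hE1v, if_neg hlk, add_zero]
            exact hT.nat x hx l hl
          · rw [hEE, hE1v, if_pos rfl]
            obtain ⟨n, hn⟩ := hT.nat x hx k hk
            obtain ⟨m, -, hm⟩ := hq x hx
            exact ⟨n + m, by rw [hn, hm]; push_cast; rfl⟩
          · rw [hEE]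
            simp only [Trm.col] at hne
            by_cases hij : i = j
            · subst hij
              rw [Function.update_self] at hne
              exact Or.inr (Or.inl (ah22_cE a y x k l hne))
            · rw [Function.update_of_ne hij] at hne
              simp only [Cs] at hne
              by_cases hiN : i ∈ N
              · rw [if_pos hiN] at hne
                exact Or.inl (ah22_sy i x σ l hne)
              · rw [if_neg hiN] at hne
                by_cases hiS : i ∈ S
                · rw [if_pos hiS] at hne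
                  exact hcolE x hx i hiN l hl hne
                · rw [if_neg hiS] at hne
                  exact hcolL x hx i hiN l hl hne
        · intro x hx
          have h1 : solN a N (fun i => ((Cs S).col j (cE a y k)).E (i, k)) x =
              solN a N (fun i => T.E (i, k) + cqN a N q i) x := by
            refine congrFun (solN_congr hs hN _ _ fun i _ => ?_) x
            rw [hEE, hE1v, if_pos rfl]
          rw [h1, solN_add hs hN, solN_cqN hs hN q x hx]
          have h2 : 0 ≤ solN a N (fun i => T.E (i, k)) x := by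
            refine solN_nonneg hs hN _ ?_ x
            intro i hi
            obtain ⟨n, hn⟩ := hT.nat i hi k hk
            rw [hn]
            exact Nat.cast_nonneg n
          have := hqpos x hx
          linarith
        · simp only [Trm.col, Function.update_self]
      rw [e1, elC, TV_col_add, e3, TV_col_sum, Finset.sum_eq_zero, add_zero]
      intro y hy
      rw [TV_col_smul, e4 y hy, mul_zero]
  rw [← hC0, ← hC1]
  exact (key _ (fun j hj => (Finset.mem_sdiff.1 hj).2)).symm

theorem merge (a : I → I → ℕ) (hs : ∀ i j, a i j = a j i) (f : ℕ) (hf : 1 ≤ f) (B X : Finset I)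
    (hBX : Disjoint B X) (hN : FinT a (B ∪ X)) (q' q'' Q : I → ℚ) (hq' : QOk a B q')
    (hq'' : QOk a (B ∪ X) q'') (T : Trm I) (hE0 : ∀ x ∈ B ∪ X, ∀ l, 1 ≤ l → l ≠ f → T.E (x, l) = 0)
    (hEB : ∀ x ∈ B, T.E (x, f) = 0) (hQ0 : ∀ i, i ∉ B ∪ X → Q i = 0)
    (hQ : ∀ x ∈ B ∪ X, cqN a (B ∪ X) Q x = T.E (x, f)) (hQnn : ∀ x ∈ B ∪ X, 0 ≤ Q x)
    (hQpos : ∀ x ∈ X, 0 < Q x)
    (hcls : ∀ x ∈ B ∪ X, IsZ (q'' x - (resQ B q' x + Q x)))
    (hcol : ∀ x ∈ B ∪ X, ∀ j, j ∉ B ∪ X → ∀ l, 1 ≤ l → T.Λ j (x, l) ≠ 0 → l = f)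
    (hX : ∀ x ∈ X, T.Λ x = sy x (f + 1)) :
    TV a (blkT a B f (f + 1) q' T) =
      TV a (blkT a (B ∪ X) f (f + 1) q'' (elT a (B ∪ X) f (T.eta a f Q))) := by
  classical
  have hBN : B ⊆ B ∪ X := Finset.subset_union_left
  have hq'pos := ah22_qpos a hs B (hN.mono hBN) q' hq'
  have hq''pos := ah22_qpos a hs (B ∪ X) hN q'' hq''
  have hE1 : ∀ i l, (blkT a B f (f + 1) q' T).E (i, l) =
      T.E (i, l) + if l = f then cqN a (B ∪ X) (resQ B q') i else 0 :=
    fun i l => ah22_E a hs B (B ∪ X) hBN f (f + 1) q' T i l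
  -- the integral vector
  have hz : ∀ x, ∃ z : ℤ, (x ∈ B ∪ X → (z : ℚ) = resQ B q' x + Q x - q'' x) ∧
      (x ∉ B ∪ X → z = 0) := by
    intro x
    by_cases hx : x ∈ B ∪ X
    · obtain ⟨z, hz⟩ := hcls x hx
      refine ⟨-z, fun _ => ?_, fun h => absurd hx h⟩
      push_cast
      linarith
    · exact ⟨0, fun h => absurd h hx, fun _ => rfl⟩
  choose v hv1 hv0 using hz
  have hvres : ∀ i, (v i : ℚ) = resQ B q' i + Q i - resQ (B ∪ X) q'' i := by
    intro i
    by_cases hi : i ∈ B ∪ X
    · rw [hv1 i hi, resQ, resQ, if_pos hi]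
    · rw [hv0 i hi, resQ, resQ, if_neg hi, if_neg (fun h => hi (hBN h)), hQ0 i hi]
      push_cast
      ring
  have hEf : ∀ x ∈ B ∪ X, (blkT a B f (f + 1) q' T).E (x, f) =
      cqN a (B ∪ X) (fun i => resQ B q' i + Q i) x := by
    intro x hx
    rw [hE1, if_pos rfl, ah22_add, hQ x hx]
    ring
  have hsol : ∀ x ∈ B ∪ X, solN a (B ∪ X) (fun i => (blkT a B f (f + 1) q' T).E (i, f)) x =
      resQ B q' x + Q x := by
    intro x hx
    have h1 := congrFun (solN_congr hs hN (fun i => (blkT a B f (f + 1) q' T).E (i, f))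
      (cqN a (B ∪ X) (fun i => resQ B q' i + Q i)) hEf) x
    rw [h1, solN_cqN hs hN _ x hx]
  have hpos : ∀ x ∈ B ∪ X, 0 < resQ B q' x + Q x := by
    intro x hx
    rcases Finset.mem_union.1 hx with h | h
    · rw [resQ, if_pos h]
      have h1 := hq'pos x h
      have h2 := hQnn x hx
      linarith
    · rw [resQ, if_neg (fun h' => Finset.disjoint_left.1 hBX h' h), zero_add]
      exact hQpos x h
  have hint : ∀ x ∈ B ∪ X, IsZ (cqN a (B ∪ X) (fun i => resQ B q' i + Q i) x) := by
    intro x hx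
    obtain ⟨n, -, hn⟩ := hq'' x hx
    refine ⟨n + ∑ j ∈ B ∪ X, cart a x j * v j, ?_⟩
    have h1 : cqN a (B ∪ X) (fun i => resQ B q' i + Q i) x =
        cqN a (B ∪ X) (fun i => q'' i + (v i : ℚ)) x := by
      refine ah22_congr a _ _ _ (fun i hi => ?_) x
      rw [hv1 i hi]
      ring
    rw [h1, ah22_add, hn]
    push_cast
    unfold cqN
    rfl
  have step1 : TV a (blkT a B f (f + 1) q' T) =
      TV a ((blkT a B f (f + 1) q' T).etaM a (fun _ => f) (fun i => (v i : ℚ))) := by
    refine TV_rep a hs (B ∪ X) hN (fun _ => f) (fun _ => f + 1) (fun _ _ => hf)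
      (fun _ _ _ _ _ => rfl) (fun _ _ => Or.inl rfl) _ ?_ ?_ v hv0 ?_
    · intro x hx
      refine ⟨fun l hl hlf => ?_, ?_, fun j l hl hne => ?_⟩
      · rw [hE1, if_neg hlf, hE0 x hx l hl hlf]
        exact ⟨0, by simp⟩
      · rw [hEf x hx]
        exact hint x hx
      · simp only [blkT, Trm.cols, Trm.eta] at hne
        by_cases hjB : j ∈ B
        · rw [if_pos hjB] at hne
          exact Or.inl (ah22_sy j x (f + 1) l hne)
        · rw [if_neg hjB] at hne
          by_cases hjX : j ∈ X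
          · rw [hX j hjX] at hne
            exact Or.inl (ah22_sy j x (f + 1) l hne)
          · refine Or.inr (Or.inl (hcol x hx j ?_ l hl hne))
            intro h
            exact (Finset.mem_union.1 h).elim hjB hjX
    · intro x hx
      rw [hsol x hx]
      exact hpos x hx
    · intro x hx
      rw [hsol x hx, hv1 x hx]
      have := hq''pos x hx
      linarith
  have step2 : (blkT a B f (f + 1) q' T).etaM a (fun _ => f) (fun i => (v i : ℚ)) =
      blkT a (B ∪ X) f (f + 1) q'' (T.eta a f Q) := by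
    refine Trm.ext ?_ ?_ ?_
    · funext i
      simp only [blkT, Trm.cols, Trm.eta, Trm.etaM]
      rw [hvres i]
      ring
    · simp only [blkT, Trm.cols, Trm.eta, Trm.etaM]
      simp only [hvres, neg_smul, sub_smul, add_smul, Finset.sum_neg_distrib,
        Finset.sum_sub_distrib, Finset.sum_add_distrib]
      abel
    · funext j
      simp only [blkT, Trm.cols, Trm.eta, Trm.etaM]
      by_cases hjB : j ∈ B
      · rw [if_pos hjB, if_pos (hBN hjB)]
      · rw [if_neg hjB]
        by_cases hjX : j ∈ X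
        · rw [if_pos (Finset.mem_union_right _ hjX), hX j hjX]
        · rw [if_neg (fun h => (Finset.mem_union.1 h).elim hjB hjX)]
  rw [step1, step2]
  refine blk_elT a hs (B ∪ X) hN f (f + 1) hf (Or.inl rfl) q'' hq'' (T.eta a f Q) ?_
  refine ⟨fun x hx l hl => ?_, fun x hx j hj l hl hne => ?_⟩
  · rw [ah22_etaE a hs (B ∪ X) f Q hQ0]
    by_cases hlf : l = f
    · subst hlf
      rw [if_pos rfl, hQ x hx]
      exact ⟨0, by simp⟩
    · rw [if_neg hlf, hE0 x hx l hl hlf]
      exact ⟨0, by simp⟩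
  · exact Or.inl (hcol x hx j hj l hl hne)

end

end Pool.Agent.H46.AH

end

section

/-!
KAC ADE, module AH23: pieces for the field `create` of `ClusterVal`.

* `tch a W X` = union of the components of `W` which are adjacent to `X`.  `crQ a W X p` solves `C_{W ∪ X} Q = p` on `X`, `0` on `W`
  (`sol_eq_solN`): every component of `W ∪ X` is a component of `W` not adjacent to `X` (there `Q = 0`) or contains a vertex of `X`
  (there `Q > 0`: `solN_component`, `solN_pos`); the union of the latter is `tch a W X ∪ X` (`comps_adj_set`).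
* `evU_tau`: `patT`/`tauT_eq_patT`, `blkT_union`, the components cover `N`.
* `expl_comps`: `blkT_congr` on the components, `blkT_union`.
* `cr_term`: columns `j ∉ W ∪ X`: `elC` of `(j,k) - ∑_l H l j (l,k-1)` is `(j,k) - ∑_l crH l j (l,k-1)`
  (`elC_add`, `elC_sum`, `elC_sy`; for `x ∈ X` the combination which removes `(x,k-1)` is `∑_y sol(1_x)_y cE a y (k-1)`);
  exponents: `p - C Q`; `γ - (k-1) Q`; columns `j ∈ W \ tch` are zero on both sides, the columns of `tch ∪ X` are replaced.
* `tw_tch`: `clusters_eq_comps`, `comps_tch`, `Finset.prod_ite`; `Blk.cf` of `blkOf` is `w A f`.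
-/

set_option autoImplicit false

namespace Pool.Agent.H46.AH

open scoped BigOperators
open Pool.Agent.H27.KAC Pool.Agent.H40.KADE

section

variable {I : Type} [Fintype I] [DecidableEq I]

open Classical in
/-- the union of the components of `W` adjacent to `X`. -/
noncomputable def tch (a : I → I → ℕ) (W X : Finset I) : Finset I :=
  ((comps a W).filter (fun A => ∃ z ∈ X, ∃ x ∈ A, 0 < a z x)).biUnion id

private theorem ah23_mem (a : I → I → ℕ) (W X : Finset I) (x : I) :
    x ∈ tch a W X ↔ ∃ A ∈ comps a W, (∃ z ∈ X, ∃ y ∈ A, 0 < a z y) ∧ x ∈ A := by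
  classical
  unfold tch
  rw [Finset.mem_biUnion]
  constructor
  · rintro ⟨A, hA, hx⟩
    rw [Finset.mem_filter] at hA
    exact ⟨A, hA.1, hA.2, hx⟩
  · rintro ⟨A, hA, hz, hx⟩
    exact ⟨A, Finset.mem_filter.2 ⟨hA, hz⟩, hx⟩

private theorem ah23_mem_comps (a : I → I → ℕ) (N A : Finset I) :
    A ∈ comps a N ↔ A ⊆ N ∧ ConnS a A ∧ ∀ i ∈ A, ∀ j ∈ N, j ∉ A → a i j = 0 := by
  classical
  unfold comps
  rw [Finset.mem_filter, Finset.mem_powerset]

/-- the union of the untouched components is separated from the union of the touched components. -/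
private theorem ah23_sep1 (a : I → I → ℕ) (hs : ∀ i j, a i j = a j i) (W X : Finset I) (x y : I)
    (hx : x ∈ W \ tch a W X) (hy : y ∈ tch a W X) : a x y = 0 := by
  rw [Finset.mem_sdiff] at hx
  obtain ⟨A, hA, hz, hyA⟩ := (ah23_mem a W X y).1 hy
  rw [hs x y]
  refine comps_sep hA y hyA x hx.1 ?_
  intro hxA
  exact hx.2 ((ah23_mem a W X x).2 ⟨A, hA, hz, hxA⟩)

private theorem ah23_sep2 (a : I → I → ℕ) (hs : ∀ i j, a i j = a j i) (W X : Finset I) (x y : I)
    (hx : x ∈ W \ tch a W X) (hy : y ∈ X) : a x y = 0 := by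
  rw [Finset.mem_sdiff] at hx
  by_contra hne
  obtain ⟨A, hA, hxA⟩ := comps_cover hs x hx.1
  refine hx.2 ((ah23_mem a W X x).2 ⟨A, hA, ⟨y, hy, x, hxA, ?_⟩, hxA⟩)
  rw [hs y x]
  exact Nat.pos_of_ne_zero hne

theorem tch_sub (a : I → I → ℕ) (W X : Finset I) : tch a W X ⊆ W := by
  classical
  intro x hx
  unfold tch at hx
  rw [Finset.mem_biUnion] at hx
  obtain ⟨A, hA, hxA⟩ := hx
  exact comps_subset (Finset.mem_filter.1 hA).1 hxA

theorem tch_sep (a : I → I → ℕ) (hs : ∀ i j, a i j = a j i) (W X : Finset I)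
    (hWX : Disjoint W X) : Sep a (W \ tch a W X) (tch a W X ∪ X) := by
  constructor
  · rw [Finset.disjoint_left]
    intro x hx hx'
    rw [Finset.mem_sdiff] at hx
    rw [Finset.mem_union] at hx'
    rcases hx' with h | h
    · exact hx.2 h
    · exact Finset.disjoint_left.1 hWX hx.1 h
  · intro x hx y hy
    rw [Finset.mem_union] at hy
    rcases hy with h | h
    · exact ah23_sep1 a hs W X x y hx h
    · exact ah23_sep2 a hs W X x y hx h

open Classical in
theorem comps_tch (a : I → I → ℕ) (hs : ∀ i j, a i j = a j i) (W X : Finset I) :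
    comps a (tch a W X) = (comps a W).filter (fun A => ∃ z ∈ X, ∃ x ∈ A, 0 < a z x) := by
  classical
  have h1 : ∀ A ∈ comps a W, (∃ z ∈ X, ∃ x ∈ A, 0 < a z x) → A ∈ comps a (tch a W X) := by
    intro A hA hz
    rw [ah23_mem_comps]
    refine ⟨?_, comps_conn hA, ?_⟩
    · intro x hx
      exact (ah23_mem a W X x).2 ⟨A, hA, hz, hx⟩
    · intro i hi j hj hjA
      exact comps_sep hA i hi j (tch_sub a W X hj) hjA
  ext B
  rw [Finset.mem_filter]
  constructor
  · intro hB
    obtain ⟨x, hx⟩ := (comps_conn hB).1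
    obtain ⟨A, hA, hz, hxA⟩ := (ah23_mem a W X x).1 (comps_subset hB hx)
    have hA' := h1 A hA hz
    have hBA : B = A := by
      by_contra hne
      exact Finset.disjoint_left.1 (comps_disjoint hs hB hA' hne) hx hxA
    rw [hBA]
    exact ⟨hA, hz⟩
  · rintro ⟨hB, hz⟩
    exact h1 B hB hz

theorem comps_untouched (a : I → I → ℕ) (hs : ∀ i j, a i j = a j i) (W X : Finset I)
    (A : Finset I) (hA : A ∈ comps a (W \ tch a W X)) :
    A ∈ comps a W ∧ ∀ z ∈ X, ∀ x ∈ A, a z x = 0 := by
  constructor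
  · rw [ah23_mem_comps]
    refine ⟨(comps_subset hA).trans Finset.sdiff_subset, comps_conn hA, ?_⟩
    intro i hi j hj hjA
    by_cases hjt : j ∈ tch a W X
    · exact ah23_sep1 a hs W X i j (comps_subset hA hi) hjt
    · exact comps_sep hA i hi j (Finset.mem_sdiff.2 ⟨hj, hjt⟩) hjA
  · intro z hz x hx
    rw [hs z x]
    exact ah23_sep2 a hs W X x z (comps_subset hA hx) hz

/-- properties of `Q`. -/
theorem crQ_facts (a : I → I → ℕ) (hs : ∀ i j, a i j = a j i) (W X : Finset I)
    (hWX : Disjoint W X) (hF : FinT a (W ∪ X)) (p : I → ℚ) (hp : ∀ x ∈ X, 0 < p x) :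
    (∀ i, i ∉ tch a W X ∪ X → crQ a W X p i = 0) ∧
      (∀ i ∈ tch a W X ∪ X, 0 < crQ a W X p i) ∧
      (∀ x ∈ X, cv a (crQ a W X p) x = p x) ∧ (∀ x ∈ W, cv a (crQ a W X p) x = 0) ∧
      ∀ x ∈ tch a W X ∪ X, cqN a (tch a W X ∪ X) (crQ a W X p) x = if x ∈ X then p x else 0 := by
  have hFT : FT a (W ∪ X) := FinT_FT a hs hF
  have hXW : ∀ x ∈ W, x ∉ X := fun x hx hx' => Finset.disjoint_left.1 hWX hx hx'
  have hr : ∀ x ∈ W ∪ X, (0 : ℚ) ≤ if x ∈ X then p x else 0 := by
    intro x _
    split_ifs with h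
    · exact (hp x h).le
    · exact le_refl _
  have hQ : crQ a W X p = sol a (W ∪ X) (fun x => if x ∈ X then p x else 0) := rfl
  have hQ' : crQ a W X p = solN a (W ∪ X) (fun x => if x ∈ X then p x else 0) := by
    rw [hQ, sol_eq_solN a hs hF]
  have hnn : ∀ i, 0 ≤ crQ a W X p i := by
    intro i
    rw [hQ]
    exact sol_nonneg a hFT _ hr i
  have hcX : ∀ x ∈ X, cv a (crQ a W X p) x = p x := by
    intro x hx
    rw [hQ, sol_cv a hFT _ x (Finset.mem_union_right _ hx)]
    beta_reduce
    rw [if_pos hx]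
  have hcW : ∀ x ∈ W, cv a (crQ a W X p) x = 0 := by
    intro x hx
    rw [hQ, sol_cv a hFT _ x (Finset.mem_union_left _ hx)]
    beta_reduce
    rw [if_neg (hXW x hx)]
  have hX : ∀ x ∈ X, 0 < crQ a W X p x := by
    intro x hx
    refine sol_pos_of a _ hnn x ?_
    rw [hcX x hx]
    exact hp x hx
  have h0 : ∀ i, i ∉ tch a W X ∪ X → crQ a W X p i = 0 := by
    intro i hi
    rw [Finset.mem_union, not_or] at hi
    by_cases hiW : i ∈ W
    · have hiD : i ∈ W \ tch a W X := Finset.mem_sdiff.2 ⟨hiW, hi.1⟩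
      rw [hQ', solN_component hs hF (Finset.sdiff_subset.trans Finset.subset_union_left)
        (A := W \ tch a W X) ?_ _ i hiD]
      · have hFA : FinT a (W \ tch a W X) :=
          hF.mono (Finset.sdiff_subset.trans Finset.subset_union_left)
        have h1 := solN_unique hs hFA (fun x => if x ∈ X then p x else 0) (fun _ => 0) (by
          intro j hj
          beta_reduce
          rw [if_neg (hXW j (Finset.mem_sdiff.1 hj).1)]
          unfold cqN
          simp) i hiD
        exact h1.symm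
      · intro x hx y hy hyA
        have hy' : y ∈ tch a W X ∪ X := by
          rw [Finset.mem_union] at hy ⊢
          rcases hy with h | h
          · left
            by_contra h'
            exact hyA (Finset.mem_sdiff.2 ⟨h, h'⟩)
          · exact Or.inr h
        exact (tch_sep a hs W X hWX).2 x hx y hy'
    · rw [hQ]
      refine sol_off a _ _ i ?_
      rw [Finset.mem_union, not_or]
      exact ⟨hiW, hi.2⟩
  refine ⟨h0, ?_, hcX, hcW, ?_⟩
  · intro i hi
    rw [Finset.mem_union] at hi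
    rcases hi with h | h
    · obtain ⟨A, hA, ⟨z, hz, x, hx, hzx⟩, hiA⟩ := (ah23_mem a W X i).1 h
      have hA' : A ∈ clusters a W := by
        rw [clusters_eq_comps a hs]
        exact hA
      rcases cl_zero_or a hs hA' (crQ a W X p) hnn hcW with h2 | h2
      · exfalso
        have h3 := cl_zero_nbr a hA' (crQ a W X p) hnn hcW h2 hx (y := z) (by rw [hs x z]; exact hzx)
        exact absurd h3 (hX z hz).ne'
      · exact h2 i hiA
    · exact hX i h
  · intro x hx
    rw [← cv_eq_cqN a (tch a W X ∪ X) (crQ a W X p) h0 x]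
    rw [Finset.mem_union] at hx
    by_cases hxX : x ∈ X
    · rw [if_pos hxX, hcX x hxX]
    · rw [if_neg hxX]
      exact hcW x (tch_sub a W X (hx.resolve_right hxX))

private theorem ah23_mem_foldr (L : List (Finset I)) (x : I) :
    x ∈ L.foldr (fun A S => A ∪ S) ∅ ↔ ∃ A ∈ L, x ∈ A := by
  induction L with
  | nil => simp
  | cons A L ih =>
    rw [List.foldr_cons, Finset.mem_union, ih]
    simp only [List.mem_cons, exists_eq_or_imp]

private theorem ah23_evU (a : I → I → ℕ) (k : ℕ) (q : I → ℚ) (L : List (Finset I))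
    (hd : L.Pairwise (fun A B => Disjoint A B)) (T : Trm I) :
    evU a (L.map (fun A => (A, [((1 : ℚ), (⟨fun _ => k, q⟩ : Pat I))]))) T =
      TV a (tauT a (L.foldr (fun A S => A ∪ S) ∅) k q T) := by
  induction L generalizing T with
  | nil =>
    rw [List.map_nil, evU_nil, List.foldr_nil]
    show TV a T = TV a (blkT a ∅ k (k + 1) q T)
    rw [blkT_empty]
  | cons A L ih =>
    rw [List.pairwise_cons] at hd
    rw [List.map_cons, evU_cons, List.foldr_cons]
    simp only [List.map_cons, List.map_nil, List.sum_cons, List.sum_nil, one_mul, add_zero]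
    rw [ih hd.2, ← tauT_eq_patT]
    have hdis : Disjoint (L.foldr (fun A S => A ∪ S) ∅) A := by
      rw [Finset.disjoint_left]
      intro x hx hxA
      obtain ⟨B, hB, hxB⟩ := (ah23_mem_foldr L x).1 hx
      exact Finset.disjoint_left.1 (hd.1 B hB) hxA hxB
    show TV a (blkT a _ k (k + 1) q (blkT a A k (k + 1) q T)) = TV a (blkT a (A ∪ _) k (k + 1) q T)
    rw [Finset.union_comm A, blkT_union a _ A hdis]

/-- blocks with a common level. -/
theorem evU_tau (a : I → I → ℕ) (hs : ∀ i j, a i j = a j i) (N : Finset I) (k : ℕ) (q : I → ℚ)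
    (T : Trm I) :
    evU a ((comps a N).toList.map (fun A => (A, [((1 : ℚ), (⟨fun _ => k, q⟩ : Pat I))]))) T =
      TV a (tauT a N k q T) := by
  classical
  have hd : (comps a N).toList.Pairwise (fun A B => Disjoint A B) := by
    have hn := (comps a N).nodup_toList
    rw [List.pairwise_iff_getElem]
    intro i j hi hj hij
    refine comps_disjoint hs (Finset.mem_toList.1 (List.getElem_mem hi))
      (Finset.mem_toList.1 (List.getElem_mem hj)) ?_
    intro he
    exact absurd ((hn.getElem_inj_iff).1 he) (by omega)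
  rw [ah23_evU a k q _ hd T]
  congr 1
  have h1 : (comps a N).toList.foldr (fun A S => A ∪ S) ∅ = N := by
    ext x
    rw [ah23_mem_foldr]
    constructor
    · rintro ⟨A, hA, hx⟩
      exact comps_subset (Finset.mem_toList.1 hA) hx
    · intro hx
      obtain ⟨A, hA, hxA⟩ := comps_cover hs x hx
      exact ⟨A, Finset.mem_toList.2 hA, hxA⟩
  rw [h1]

/-- explicit blocks of the components. -/
theorem expl_comps (a : I → I → ℕ) (hs : ∀ i j, a i j = a j i) (N : Finset I) (f : ℕ) (q : I → ℚ)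
    (w : Finset I → ℕ → ℚ) (Φ : Finset I → FFn I) (q' : I → ℚ)
    (hq' : ∀ A ∈ comps a N, ∀ x ∈ A, q' x = rp a A q x) (T : Trm I) :
    TV a (expl a f ((comps a N).toList.map (blkOf a q w f Φ)) T) =
      TV a (blkT a N f (f + 1) q' T) := by
  classical
  have hn := (comps a N).nodup_toList
  have hd : ((comps a N).toList.map (blkOf a q w f Φ)).Pairwise (fun b c => Disjoint b.B c.B) := by
    rw [List.pairwise_map]
    show (comps a N).toList.Pairwise (fun A B => Disjoint A B)
    rw [List.pairwise_iff_getElem]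
    intro i j hi hj hij
    refine comps_disjoint hs (Finset.mem_toList.1 (List.getElem_mem hi))
      (Finset.mem_toList.1 (List.getElem_mem hj)) ?_
    intro he
    exact absurd ((hn.getElem_inj_iff).1 he) (by omega)
  have h1 := expl_merge a f ((comps a N).toList.map (blkOf a q w f Φ)) q' false hd (by
    intro b hb x hx
    rw [List.mem_map] at hb
    obtain ⟨A, hA, rfl⟩ := hb
    exact (hq' A (Finset.mem_toList.1 hA) x hx).symm) (by
    intro b hb
    rw [List.mem_map] at hb
    obtain ⟨A, hA, rfl⟩ := hb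
    rfl) T
  have h2 : uniB ((comps a N).toList.map (blkOf a q w f Φ)) = N := by
    ext x
    rw [mem_uniB]
    constructor
    · rintro ⟨b, hb, hx⟩
      rw [List.mem_map] at hb
      obtain ⟨A, hA, rfl⟩ := hb
      exact comps_subset (Finset.mem_toList.1 hA) hx
    · intro hx
      obtain ⟨A, hA, hxA⟩ := comps_cover hs x hx
      exact ⟨blkOf a q w f Φ A, List.mem_map.2 ⟨A, Finset.mem_toList.2 hA, rfl⟩, hxA⟩
  rw [h1, h2]
  rfl

private theorem ah23_sum_cE (a : I → I → ℕ) (hs : ∀ i j, a i j = a j i) (v : I → ℚ) (k : ℕ) :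
    ∑ x, v x • cE a x k = ∑ i, cv a v i • sy i k := by
  unfold cE cv
  simp only [Finset.smul_sum, Finset.sum_smul, smul_smul]
  rw [Finset.sum_comm]
  refine Finset.sum_congr rfl fun i _ => Finset.sum_congr rfl fun x _ => ?_
  rw [cart_symm a hs x i, mul_comm]

private theorem ah23_blkT_congr (a : I → I → ℕ) (K : Finset I) (k σ : ℕ) (q : I → ℚ)
    (T T' : Trm I) (hγ : T.γ = T'.γ) (hE : T.E = T'.E) (hΛ : ∀ j, j ∉ K → T.Λ j = T'.Λ j) :
    blkT a K k σ q T = blkT a K k σ q T' := by
  unfold blkT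
  refine Trm.ext ?_ ?_ ?_
  · show (fun i => T.γ i - _) = (fun i => T'.γ i - _)
    rw [hγ]
  · show T.E - _ = T'.E - _
    rw [hE]
  · funext i
    show (if i ∈ K then sy i σ else T.Λ i) = if i ∈ K then sy i σ else T'.Λ i
    by_cases hi : i ∈ K
    · rw [if_pos hi, if_pos hi]
    · rw [if_neg hi, if_neg hi, hΛ i hi]

/-- the solution for the column `j`. -/
private theorem ah23_solH (a : I → I → ℕ) (hs : ∀ i j, a i j = a j i) (H : I → I → ℚ)
    (W X : Finset I) (hWX : Disjoint W X) (hF : FinT a (W ∪ X))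
    (hH : ∀ l i, l ∈ W ∨ i ∈ W → H l i = 0) (j : I) (l : I) :
    solN a (tch a W X ∪ X) (fun x => H x j) l =
      ∑ x ∈ X, H x j * sol a (W ∪ X) (fun y => if y = x then 1 else 0) l := by
  classical
  have hFT : FT a (W ∪ X) := FinT_FT a hs hF
  have hKsub : tch a W X ∪ X ⊆ W ∪ X :=
    Finset.union_subset_union (tch_sub a W X) (Finset.Subset.refl X)
  have hFK : FinT a (tch a W X ∪ X) := hF.mono hKsub
  have hXW : ∀ x ∈ W, x ∉ X := fun x hx hx' => Finset.disjoint_left.1 hWX hx hx'
  refine FT_unique a hFT (solN a (tch a W X ∪ X) (fun x => H x j))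
    (fun l => ∑ x ∈ X, H x j * sol a (W ∪ X) (fun y => if y = x then 1 else 0) l) ?_ ?_ l
  · intro x hx
    rw [solN_out a _ _ x (fun h => hx (hKsub h))]
    symm
    refine Finset.sum_eq_zero fun y _ => ?_
    rw [sol_off a _ _ x hx, mul_zero]
  · intro x hx
    have h2 : cv a (fun l => ∑ x ∈ X, H x j * sol a (W ∪ X) (fun y => if y = x then 1 else 0) l) x =
        H x j := by
      rw [cv_sum a X (fun x l => H x j * sol a (W ∪ X) (fun y => if y = x then 1 else 0) l) x]
      have h3 : ∀ t ∈ X, cv a (fun l => H t j * sol a (W ∪ X) (fun y => if y = t then 1 else 0) l) x =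
          if x = t then H t j else 0 := by
        intro t _
        rw [cv_smul, sol_cv a hFT _ x hx]
        beta_reduce
        split_ifs <;> ring
      rw [Finset.sum_congr rfl h3, Finset.sum_ite_eq]
      split_ifs with h
      · rfl
      · rw [Finset.mem_union] at hx
        exact (hH x j (Or.inl (hx.resolve_right h))).symm
    rw [h2]
    rw [cv_eq_cqN a (tch a W X ∪ X) _ (fun y hy => solN_out a _ _ y hy) x]
    by_cases hxK : x ∈ tch a W X ∪ X
    · rw [solN_spec hs hFK _ x hxK]
    · rw [Finset.mem_union, not_or] at hxK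
      have hxW : x ∈ W := (Finset.mem_union.1 hx).resolve_right hxK.2
      rw [hH x j (Or.inl hxW)]
      unfold cqN
      refine Finset.sum_eq_zero fun y hy => ?_
      have hsep := tch_sep a hs W X hWX
      have hxD : x ∈ W \ tch a W X := Finset.mem_sdiff.2 ⟨hxW, hxK.1⟩
      have hxy : x ≠ y := by
        rintro rfl
        exact Finset.disjoint_left.1 hsep.1 hxD hy
      rw [cart_ne a hxy, hsep.2 x hxD y hy]
      simp

private theorem ah23_col (a : I → I → ℕ) (hs : ∀ i j, a i j = a j i) (k : ℕ) (hk : 1 ≤ k)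
    (H : I → I → ℚ) (W X : Finset I) (hWX : Disjoint W X) (hF : FinT a (W ∪ X))
    (hH : ∀ l i, l ∈ W ∨ i ∈ W → H l i = 0) (j : I) (hj : j ∉ W ∪ X) :
    elC a (tch a W X ∪ X) (k - 1) (stCol k idm H W j) =
      stCol k idm (crH a W X H) (W ∪ X) j := by
  classical
  have hFT : FT a (W ∪ X) := FinT_FT a hs hF
  have hKsub : tch a W X ∪ X ⊆ W ∪ X :=
    Finset.union_subset_union (tch_sub a W X) (Finset.Subset.refl X)
  have hFK : FinT a (tch a W X ∪ X) := hF.mono hKsub
  have hXW : ∀ x ∈ W, x ∉ X := fun x hx hx' => Finset.disjoint_left.1 hWX hx hx'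
  have hjW : j ∉ W := fun h => hj (Finset.mem_union_left _ h)
  have hjX : j ∉ X := fun h => hj (Finset.mem_union_right _ h)
  have hkk : k ≠ k - 1 := by omega
  -- the column
  have hcol : stCol k idm H W j = sy j k - ∑ l, H l j • sy l (k - 1) := by
    unfold stCol
    rw [if_neg hjW, Finset.sum_sub_distrib]
    congr 1
    · rw [Finset.sum_eq_single j]
      · unfold idm
        rw [if_pos rfl, one_smul]
      · intro l _ hl
        unfold idm
        rw [if_neg hl, zero_smul]
      · intro h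
        exact absurd (Finset.mem_sdiff.2 ⟨Finset.mem_univ j, hjW⟩) h
    · refine Finset.sum_subset (Finset.subset_univ _) ?_
      intro l _ hl
      have hlW : l ∈ W := by
        by_contra h
        exact hl (Finset.mem_sdiff.2 ⟨Finset.mem_univ l, h⟩)
      rw [hH l j (Or.inl hlW), zero_smul]
  have hcol' : stCol k idm (crH a W X H) (W ∪ X) j =
      sy j k - ∑ l, crH a W X H l j • sy l (k - 1) := by
    unfold stCol
    rw [if_neg hj, Finset.sum_sub_distrib]
    congr 1
    · rw [Finset.sum_eq_single j]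
      · unfold idm
        rw [if_pos rfl, one_smul]
      · intro l _ hl
        unfold idm
        rw [if_neg hl, zero_smul]
      · intro h
        exact absurd (Finset.mem_sdiff.2 ⟨Finset.mem_univ j, hj⟩) h
    · refine Finset.sum_subset (Finset.subset_univ _) ?_
      intro l _ hl
      have hlW : l ∈ W ∪ X := by
        by_contra h
        exact hl (Finset.mem_sdiff.2 ⟨Finset.mem_univ l, h⟩)
      unfold crH
      rw [if_pos (Or.inl hlW), zero_smul]
  -- the coefficients on `K`
  have hcoef : ∀ x ∈ tch a W X ∪ X, -(stCol k idm H W j) (x, k - 1) = H x j := by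
    intro x hx
    have hxj : x ≠ j := by
      rintro rfl
      exact hj (hKsub hx)
    rw [hcol, Finsupp.sub_apply, Finsupp.finsetSum_apply, Finset.sum_eq_single x]
    · rw [Finsupp.smul_apply, Finsupp.single_apply, Finsupp.single_apply, if_pos rfl, if_neg]
      · simp
      · intro h
        exact hkk (congrArg Prod.snd h)
    · intro l _ hl
      rw [Finsupp.smul_apply, Finsupp.single_apply, if_neg, smul_zero]
      intro h
      exact hl (congrArg Prod.fst h)
    · intro h
      exact absurd (Finset.mem_univ x) h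
  have hsol : solN a (tch a W X ∪ X) (fun x => -(stCol k idm H W j) (x, k - 1)) =
      solN a (tch a W X ∪ X) (fun x => H x j) := solN_congr hs hFK _ _ hcoef
  unfold elC
  rw [hsol]
  have hsum : ∑ y ∈ tch a W X ∪ X, solN a (tch a W X ∪ X) (fun x => H x j) y • cE a y (k - 1) =
      ∑ y, solN a (tch a W X ∪ X) (fun x => H x j) y • cE a y (k - 1) := by
    refine Finset.sum_subset (Finset.subset_univ _) ?_
    intro y _ hy
    rw [solN_out a _ _ y hy, zero_smul]
  rw [hsum, ah23_sum_cE a hs, hcol, hcol', sub_add, ← Finset.sum_sub_distrib]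
  congr 1
  refine Finset.sum_congr rfl fun l _ => ?_
  rw [← sub_smul]
  congr 1
  have hS : (solN a (tch a W X ∪ X) (fun x => H x j)) =
      fun l => ∑ x ∈ X, H x j * sol a (W ∪ X) (fun y => if y = x then 1 else 0) l :=
    funext fun l => ah23_solH a hs H W X hWX hF hH j l
  by_cases hl : l ∈ W ∪ X
  · unfold crH
    rw [if_pos (Or.inl hl), hS, cv_sum a X
      (fun x l => H x j * sol a (W ∪ X) (fun y => if y = x then 1 else 0) l) l]
    have h3 : ∀ t ∈ X, cv a (fun l => H t j * sol a (W ∪ X) (fun y => if y = t then 1 else 0) l) l =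
        if l = t then H t j else 0 := by
      intro t _
      rw [cv_smul, sol_cv a hFT _ l hl]
      beta_reduce
      split_ifs <;> ring
    rw [Finset.sum_congr rfl h3, Finset.sum_ite_eq]
    split_ifs with h
    · ring
    · rw [Finset.mem_union] at hl
      rw [hH l j (Or.inl (hl.resolve_right h))]
      ring
  · unfold crH
    rw [if_neg (by
      rintro (h | h)
      · exact hl h
      · exact hj h), hS, cv_sum a X
      (fun x l => H x j * sol a (W ∪ X) (fun y => if y = x then 1 else 0) l) l]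
    congr 1
    refine Finset.sum_congr rfl fun t _ => ?_
    rw [cv_smul, mul_comm]

/-- the term of the new state. -/
theorem cr_term (a : I → I → ℕ) (hs : ∀ i j, a i j = a j i) (k : ℕ) (hk : 1 ≤ k) (γ P p : I → ℚ)
    (H : I → I → ℚ) (W X : Finset I) (hWX : Disjoint W X) (hF : FinT a (W ∪ X))
    (hp : ∀ x ∈ X, 0 < p x) (hp0 : ∀ x ∈ W, p x = 0)
    (hH : ∀ l i, l ∈ W ∨ i ∈ W → H l i = 0) (q'' : I → ℚ) :
    blkT a (tch a W X ∪ X) (k - 1) k q''
        (elT a (tch a W X ∪ X) (k - 1)
          (((stTrm k γ P p idm H W).cols X (fun x => sy x k)).eta a (k - 1) (crQ a W X p))) =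
      blkT a (tch a W X ∪ X) (k - 1) k q''
        (stTrm k (crG k γ (crQ a W X p)) P (crp a p (crQ a W X p)) idm (crH a W X H) (W ∪ X)) := by
  classical
  set K := tch a W X ∪ X with hK
  have hFT : FT a (W ∪ X) := FinT_FT a hs hF
  have hKsub : K ⊆ W ∪ X := Finset.union_subset_union (tch_sub a W X) (Finset.Subset.refl X)
  have hFK : FinT a K := hF.mono hKsub
  have hXW : ∀ x ∈ W, x ∉ X := fun x hx hx' => Finset.disjoint_left.1 hWX hx hx'
  refine ah23_blkT_congr a K (k - 1) k q'' _ _ ?_ ?_ ?_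
  · funext i
    show γ i - ((k - 1 : ℕ) : ℚ) * crQ a W X p i = γ i - ((k : ℚ) - 1) * crQ a W X p i
    rw [Nat.cast_sub hk, Nat.cast_one]
  · show stE k P p - ∑ x, crQ a W X p x • cE a x (k - 1) = stE k P (crp a p (crQ a W X p))
    rw [ah23_sum_cE a hs]
    unfold stE crp
    rw [← Finset.sum_sub_distrib]
    refine Finset.sum_congr rfl fun i _ => ?_
    rw [sub_smul]
    abel
  · intro j hj
    have hjX : j ∉ X := fun h => hj (Finset.mem_union_right _ h)
    show (if j ∈ K then (0 : QE I) else elC a K (k - 1) (if j ∈ X then sy j k else stCol k idm H W j)) =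
      stCol k idm (crH a W X H) (W ∪ X) j
    rw [if_neg hj, if_neg hjX]
    by_cases hjW : j ∈ W
    · unfold stCol
      rw [if_pos hjW, if_pos (Finset.mem_union_left _ hjW)]
      exact elC_zero a hs K hFK (k - 1)
    · have hjWX : j ∉ W ∪ X := by
        rw [Finset.mem_union, not_or]
        exact ⟨hjW, hjX⟩
      exact ah23_col a hs k hk H W X hWX hF hH j hjWX

/-- the product of the weights. -/
theorem tw_tch (a : I → I → ℕ) (hs : ∀ i j, a i j = a j i) (W X : Finset I)
    (hWX : Disjoint W X) (hF : FinT a (W ∪ X)) (p : I → ℚ) (hp : ∀ x ∈ X, 0 < p x)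
    (w : Finset I → ℕ → ℚ) (f : ℕ) (q : I → ℚ) (Φ : Finset I → FFn I) :
    tw a W w f (crQ a W X p) =
      (((comps a (tch a W X)).toList.map (blkOf a q w f Φ)).map Blk.cf).prod := by
  classical
  obtain ⟨h0, hpos, _, _, _⟩ := crQ_facts a hs W X hWX hF p hp
  have h1 : (((comps a (tch a W X)).toList.map (blkOf a q w f Φ)).map Blk.cf).prod =
      ∏ A ∈ comps a (tch a W X), w A f := by
    rw [List.map_map, ← Finset.prod_map_toList]
    congr 1
    refine List.map_congr_left fun A _ => ?_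
    show (if false = true then (-1 : ℚ) ^ A.card else 1) * w A f = w A f
    rw [if_neg (by decide), one_mul]
  rw [h1, comps_tch a hs, Finset.prod_filter]
  unfold tw
  rw [clusters_eq_comps a hs]
  refine Finset.prod_congr rfl fun N hN => ?_
  obtain ⟨x0, hx0⟩ := (comps_conn hN).1
  by_cases hz : ∃ z ∈ X, ∃ x ∈ N, 0 < a z x
  · rw [if_pos hz, if_neg]
    intro h
    have h2 := hpos x0 (Finset.mem_union_left _ ((ah23_mem a W X x0).2 ⟨N, hN, hz, hx0⟩))
    rw [h x0 hx0] at h2
    exact lt_irrefl _ h2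
  · rw [if_neg hz, if_pos]
    intro x hx
    refine h0 x ?_
    rw [Finset.mem_union, not_or]
    constructor
    · intro hxt
      obtain ⟨A, hA, hz', hxA⟩ := (ah23_mem a W X x).1 hxt
      have hAN : A = N := by
        by_contra hne
        exact Finset.disjoint_left.1 (comps_disjoint hs hA hN hne) hxA hx
      rw [hAN] at hz'
      exact hz hz'
    · intro hxX
      exact Finset.disjoint_left.1 hWX (comps_subset hN hx) hxX

end

end Pool.Agent.H46.AH

end

section

/-!
KAC ADE, module AH24: the field `create` of `ClusterVal`.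

PROOF.  `f = k - 1 ≥ 1`, `X = crX W P`, `Q = crQ a W X p` (`sol_eq_solN`), `T0 = stTrm k γ P p idm H W`,
`Wt` = union of the components of `W` which are adjacent to `X` (`tch`), `Wu = W \ Wt`, `N' = Wt ∪ X`; `Wu` and `N'` are
separated, `Q = 0` on `Wu`, `Q > 0` on `N'` (`crQ_facts`).
1. `drop_cols` (AH20): `T0' = T0.cols X (sy x k)`.
2. `evU_union` for `W = Wu ∪ Wt`, `evU_append`: the blocks of `Wu` outermost, patterns `π`; on `patT a Wu π T0'` apply `conv_all`
   (AH21) with `V = ∅` to the blocks `blkOf a q w f _ A`, `A ∈ comps a Wt` (product of the coefficients = `tw`), and `expl_comps`.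
3. `merge` (AH22) for `B = Wt`, `T = patT a Wu π T0'`, `q'' = rp a N' (q + Q)`; `elT_patT`, `patT_etaM_comm`, `blkT_patT_comm` move the
   pattern outside again.
4. Right hand side: `comps a (W ∪ X) = comps a Wu ∪ comps a N'`; on `A ∈ comps a Wu` the data are `q`, `w A`; on
   `B ∈ comps a N'` the response is `fun l => cn a cd B (q + Q) (f - l)`, with functional `[(1, ⟨f, q''⟩)]` by `IsRF_L`; the choice
   does not matter (`evU_RF`); `evU_tau` collects the blocks of `N'`; the terms agree by `cr_term`.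
-/

set_option autoImplicit false

namespace Pool.Agent.H46.AH

open scoped BigOperators
open Pool.Agent.H27.KAC Pool.Agent.H40.KADE

section

variable {I : Type} [Fintype I] [DecidableEq I]

private theorem c24_cqN_sep (a : I → I → ℕ) {A B : Finset I} (h : Sep a A B) (v : I → ℚ) (x : I)
    (hx : x ∈ A) : cqN a (A ∪ B) v x = cqN a A v x := by
  unfold cqN
  rw [Finset.sum_union h.1]
  have h0 : ∑ j ∈ B, (cart a x j : ℚ) * v j = 0 := by
    refine Finset.sum_eq_zero fun j hj => ?_
    have hne : x ≠ j := fun e => Finset.disjoint_left.1 h.1 hx (e ▸ hj)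
    rw [cart_ne a hne, h.2 x hx j hj]
    simp
  rw [h0, add_zero]

private theorem c24_cqN_out (a : I → I → ℕ) {W : Finset I} (v : I → ℚ) {z : I} (hz : z ∉ W) :
    cqN a W v z = -∑ x ∈ W, (a z x : ℚ) * v x := by
  unfold cqN
  rw [← Finset.sum_neg_distrib]
  refine Finset.sum_congr rfl fun x hx => ?_
  have hne : z ≠ x := fun e => hz (e ▸ hx)
  rw [cart_ne a hne]
  push_cast
  ring

private theorem c24_pw (a : I → I → ℕ) (hs : ∀ i j, a i j = a j i) (N : Finset I) :
    (comps a N).toList.Pairwise (fun A B => Sep a A B) := by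
  refine List.Pairwise.imp_of_mem ?_ (comps a N).nodup_toList
  intro A B hA hB hAB
  have hA' := Finset.mem_toList.1 hA
  have hB' := Finset.mem_toList.1 hB
  exact ⟨comps_disjoint hs hA' hB' hAB, comps_nonadj hs hA' hB' hAB⟩

open Classical in
private theorem c24_glue (a : I → I → ℕ) (hs : ∀ i j, a i j = a j i) (N : Finset I)
    (g : Finset I → I → ℚ) :
    ∃ q' : I → ℚ, ∀ A ∈ comps a N, ∀ x ∈ A, q' x = g A x := by
  refine ⟨fun x => if h : ∃ A ∈ comps a N, x ∈ A then g h.choose x else 0, fun A hA x hx => ?_⟩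
  have h : ∃ A ∈ comps a N, x ∈ A := ⟨A, hA, hx⟩
  have he : h.choose = A := by
    by_contra hne
    exact Finset.disjoint_left.1 (comps_disjoint hs h.choose_spec.1 hA hne) h.choose_spec.2 hx
  show (if h : ∃ A ∈ comps a N, x ∈ A then g h.choose x else 0) = g A x
  rw [dif_pos h, he]

private theorem c24_sum (a : I → I → ℕ) (hs : ∀ i j, a i j = a j i) (N : Finset I) (g : I → ℚ) :
    ((comps a N).toList.map (fun A => ∑ x ∈ A, g x)).sum = ∑ x ∈ N, g x := by
  rw [Finset.sum_map_toList]
  have h1 : (comps a N).biUnion (fun A => A) = N := by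
    ext x
    rw [Finset.mem_biUnion]
    refine ⟨fun ⟨A, hA, hx⟩ => comps_subset hA hx, fun hx => ?_⟩
    exact comps_cover hs x hx
  have h2 : ((comps a N : Finset (Finset I)) : Set (Finset I)).PairwiseDisjoint (fun A => A) :=
    fun A hA B hB hAB => comps_disjoint hs hA hB hAB
  have h3 := Finset.sum_biUnion (f := g) h2
  rw [h1] at h3
  exact h3.symm

private theorem c24_stCol (k : ℕ) (H : I → I → ℚ) (W : Finset I) (j : I) (hj : j ∉ W) :
    stCol k idm H W j = sy j k - ∑ l ∈ Finset.univ \ W, H l j • sy l (k - 1) := by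
  unfold stCol
  rw [if_neg hj, Finset.sum_sub_distrib]
  congr 1
  rw [Finset.sum_eq_single j]
  · unfold idm
    rw [if_pos rfl, one_smul]
  · intro l _ hl
    unfold idm
    rw [if_neg hl, zero_smul]
  · intro h
    exact absurd (Finset.mem_sdiff.2 ⟨Finset.mem_univ j, hj⟩) h

private theorem c24_low (k : ℕ) (H : I → I → ℚ) (W : Finset I) (j i : I) (l : ℕ)
    (h : (∑ l ∈ Finset.univ \ W, H l j • sy l (k - 1) : QE I) (i, l) ≠ 0) :
    l = k - 1 ∧ i ∉ W := by
  rw [Finsupp.finsetSum_apply] at h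
  obtain ⟨m, hm, hne⟩ := Finset.exists_ne_zero_of_sum_ne_zero h
  by_cases he : (m, k - 1) = (i, l)
  · have h1 : m = i := congrArg Prod.fst he
    have h2 : k - 1 = l := congrArg Prod.snd he
    exact ⟨h2.symm, h1 ▸ (Finset.mem_sdiff.1 hm).2⟩
  · exfalso
    apply hne
    rw [Finsupp.smul_apply, Finsupp.single_apply, if_neg he, smul_zero]

private theorem c24_col (k : ℕ) (H : I → I → ℚ) (W : Finset I) (j i : I) (hj : j ∉ W) (l : ℕ)
    (h : stCol k idm H W j (i, l) ≠ 0) : (j = i ∧ l = k) ∨ (l = k - 1 ∧ i ∉ W) := by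
  rw [c24_stCol k H W j hj, Finsupp.sub_apply] at h
  by_cases he : (j, k) = (i, l)
  · exact Or.inl ⟨congrArg Prod.fst he, (congrArg Prod.snd he).symm⟩
  · rw [Finsupp.single_apply, if_neg he, zero_sub, neg_ne_zero] at h
    exact Or.inr (c24_low k H W j i l h)

private theorem c24_symne (j i : I) (k l : ℕ) (hji : j ≠ i) : (sy j k : QE I) (i, l) = 0 := by
  rw [Finsupp.single_apply, if_neg (fun e => hji (congrArg Prod.fst e))]

private theorem c24_zsub {p q : ℚ} (hp : IsZ p) (hq : IsZ q) : IsZ (p - q) := by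
  obtain ⟨m, rfl⟩ := hp
  obtain ⟨n, rfl⟩ := hq
  exact ⟨m - n, by push_cast; rfl⟩

private theorem c24_zsum (A : Finset I) (c : I → ℕ) (v : I → ℚ) (h : ∀ x ∈ A, IsZ (v x)) :
    IsZ (∑ x ∈ A, (c x : ℚ) * v x) := by
  classical
  refine ⟨∑ x ∈ A, (c x : ℤ) * (if hx : x ∈ A then (h x hx).choose else 0), ?_⟩
  push_cast
  refine Finset.sum_congr rfl fun x hx => ?_
  rw [dif_pos hx]
  rw [← (h x hx).choose_spec]

/-- the term with the new columns. -/
private theorem c24_patΛ (a : I → I → ℕ) (k : ℕ) (γ P p : I → ℚ) (H : I → I → ℚ)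
    (W U X : Finset I) (π : Pat I) (hUX : Disjoint U X) (x : I) (hx : x ∈ X) :
    (patT a U π ((stTrm k γ P p idm H W).cols X (fun x => sy x k))).Λ x = sy x k := by
  rw [patT_Λ, if_neg (fun h => Finset.disjoint_left.1 hUX h hx)]
  exact if_pos hx

private theorem c24_patΛ' (a : I → I → ℕ) (k : ℕ) (γ P p : I → ℚ) (H : I → I → ℚ)
    (W U X : Finset I) (π : Pat I) (j x : I) (hjx : j ≠ x) (hj : j ∉ W \ U) (l : ℕ)
    (h : (patT a U π ((stTrm k γ P p idm H W).cols X (fun x => sy x k))).Λ j (x, l) ≠ 0) :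
    l = k - 1 ∧ j ∉ X ∧ x ∉ W := by
  rw [patT_Λ] at h
  by_cases hjU : j ∈ U
  · rw [if_pos hjU, c24_symne _ _ _ _ hjx] at h
    exact absurd rfl h
  · rw [if_neg hjU] at h
    have hjW : j ∉ W := fun hw => hj (Finset.mem_sdiff.2 ⟨hw, hjU⟩)
    change (if j ∈ X then sy j k else stCol k idm H W j) (x, l) ≠ 0 at h
    by_cases hjX : j ∈ X
    · rw [if_pos hjX, c24_symne _ _ _ _ hjx] at h
      exact absurd rfl h
    · rw [if_neg hjX] at h
      rcases c24_col k H W j x hjW l h with h1 | h1
      · exact absurd h1.1 hjx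
      · exact ⟨h1.1, hjX, h1.2⟩

/-- the class is a weight. -/
private theorem c24_wt (a : I → I → ℕ) (P p q : I → ℚ) (x : I) (hP : P x = 0)
    (h : ∃ z : ℤ, P x - p x - cv a q x = z) : IsZ (cv a q x + p x) := by
  obtain ⟨z, hz⟩ := h
  refine ⟨-z, ?_⟩
  push_cast
  rw [← hz, hP]
  ring

open Classical in
/-- one pattern. -/
private theorem c24_pat (a : I → I → ℕ) (hs : ∀ i j, a i j = a j i) (cd : CrossData a)
    (k : ℕ) (γ P p : I → ℚ) (H : I → I → ℚ) (W X : Finset I) (q : I → ℚ)
    (w : Finset I → ℕ → ℚ) (hk : 2 ≤ k) (Φ : Finset I → FFn I)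
    (hWX : Disjoint W X) (hN : FinT a (W ∪ X)) (hq0 : ∀ i, i ∉ W → q i = 0)
    (hP0 : ∀ x ∈ W ∪ X, P x = 0) (hp0 : ∀ x ∈ W, p x = 0) (hX : ∀ x ∈ X, 0 < p x)
    (hint : ∀ i, ∃ z : ℤ, P i - p i - cv a q i = z)
    (hΦ : ∀ A ∈ comps a W, IsRF a cd A q (w A) (k - 1) (Φ A))
    (hH : ∀ l i, l ∈ W ∨ i ∈ W → H l i = 0) (π : Pat I) :
    evU a ((comps a (tch a W X)).toList.map (fun A => (A, Φ A)))
        (patT a (W \ tch a W X) π ((stTrm k γ P p idm H W).cols X (fun x => sy x k))) =
      tw a W w (k - 1) (crQ a W X p) *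
        TV a (patT a (W \ tch a W X) π
          (tauT a (tch a W X ∪ X) (k - 1)
            (rp a (tch a W X ∪ X) (crq q (crQ a W X p)))
            (stTrm k (crG k γ (crQ a W X p)) P (crp a p (crQ a W X p)) idm (crH a W X H)
              (W ∪ X)))) := by
  obtain ⟨Wt, hWt⟩ : ∃ Wt, Wt = tch a W X := ⟨_, rfl⟩
  obtain ⟨Q, hQd⟩ : ∃ Q, Q = crQ a W X p := ⟨_, rfl⟩
  have hW : FinT a W := hN.mono Finset.subset_union_left
  have hf1 : 1 ≤ k - 1 := by omega
  have hfk : k - 1 + 1 = k := by omega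
  have hsub : Wt ⊆ W := hWt ▸ tch_sub a W X
  have hsep : Sep a (W \ Wt) (Wt ∪ X) := hWt ▸ tch_sep a hs W X hWX
  have hsepsym : Sep a (Wt ∪ X) (W \ Wt) := hsep.symm hs
  have hcomps : ∀ A ∈ comps a Wt, A ∈ comps a W ∧ ∃ z ∈ X, ∃ x ∈ A, 0 < a z x := by
    intro A hA
    rw [hWt, comps_tch a hs W X, Finset.mem_filter] at hA
    exact hA
  obtain ⟨hQ0, hQpos, hQX, hQW, hQN⟩ := crQ_facts a hs W X hWX hN p hX
  rw [← hWt, ← hQd] at hQ0 hQpos hQN
  rw [← hQd] at hQX hQW
  rw [← hWt, ← hQd]
  have hWu : (W \ Wt) ∪ Wt = W := Finset.sdiff_union_of_subset hsub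
  have hdX : Disjoint Wt X := Finset.disjoint_of_subset_left hsub hWX
  have hUX : Disjoint (W \ Wt) X := Finset.disjoint_of_subset_left Finset.sdiff_subset hWX
  have hN' : FinT a (Wt ∪ X) := hN.mono (Finset.union_subset_union_left hsub)
  -- `C q`
  have hcvN : ∀ x ∈ Wt ∪ X, cqN a (Wt ∪ X) q x = cv a q x := by
    intro x hx
    have h1 : cqN a ((Wt ∪ X) ∪ (W \ Wt)) q x = cqN a (Wt ∪ X) q x :=
      c24_cqN_sep a hsepsym q x hx
    rw [← h1]
    refine (cv_eq_cqN a _ q (fun y hy => hq0 y (fun hw => hy ?_)) x).symm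
    by_cases hyt : y ∈ Wt
    · exact Finset.mem_union_left _ (Finset.mem_union_left _ hyt)
    · exact Finset.mem_union_right _ (Finset.mem_sdiff.2 ⟨hw, hyt⟩)
  have hcvW : ∀ x, cv a q x = cqN a W q x := fun x => cv_eq_cqN a W q hq0 x
  have hqW : ∀ x ∈ W, IsZ (cqN a W q x) := by
    intro x hx
    have h1 := c24_wt a P p q x (hP0 x (Finset.mem_union_left _ hx)) (hint x)
    rwa [hp0 x hx, add_zero, hcvW] at h1
  have hqX : ∀ z ∈ X, IsZ (p z - ∑ x ∈ W, (a z x : ℚ) * q x) := by
    intro z hz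
    have h1 := c24_wt a P p q z (hP0 z (Finset.mem_union_right _ hz)) (hint z)
    have h2 := c24_cqN_out a q (fun hw => Finset.disjoint_left.1 hWX hw hz)
    rw [hcvW, h2] at h1
    have h3 : p z - ∑ x ∈ W, (a z x : ℚ) * q x = -∑ x ∈ W, (a z x : ℚ) * q x + p z := by ring
    rw [h3]
    exact h1
  -- the representative on the touched components
  obtain ⟨q', hq'⟩ := c24_glue a hs Wt (fun A => rp a A q)
  have hrpA : ∀ A ∈ comps a Wt, Rep a A q (rp a A q) := by
    intro A hA
    refine rp_spec a hs A (hW.mono (comps_subset (hcomps A hA).1)) q (fun x hx => ?_)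
    rw [cqN_comp a W A (hcomps A hA).1 q x hx]
    exact hqW x (comps_subset (hcomps A hA).1 hx)
  have hq'Z : ∀ x ∈ Wt, IsZ (q' x - q x) := by
    intro x hx
    obtain ⟨A, hA, hxA⟩ := comps_cover hs x hx
    rw [hq' A hA x hxA]
    exact (hrpA A hA).2 x hxA
  have hq'ok : QOk a Wt q' := by
    intro x hx
    obtain ⟨A, hA, hxA⟩ := comps_cover hs x hx
    obtain ⟨n, hn, h1⟩ := (hrpA A hA).1 x hxA
    refine ⟨n, hn, ?_⟩
    rw [← h1, ← cqN_comp a Wt A hA q' x hxA]
    unfold cqN
    exact Finset.sum_congr rfl fun j hj => by rw [hq' A hA j hj]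
  -- the new representative
  obtain ⟨q'', hq''⟩ : ∃ q'', q'' = rp a (Wt ∪ X) (crq q Q) := ⟨_, rfl⟩
  have hQNp : ∀ x ∈ Wt ∪ X, cqN a (Wt ∪ X) Q x = p x := by
    intro x hx
    rw [hQN x hx]
    by_cases hxX : x ∈ X
    · rw [if_pos hxX]
    · rw [if_neg hxX]
      rcases Finset.mem_union.1 hx with h1 | h1
      · rw [hp0 x (hsub h1)]
      · exact absurd h1 hxX
  have hrep : Rep a (Wt ∪ X) (crq q Q) q'' := by
    rw [hq'']
    refine rp_spec a hs _ hN' _ (fun x hx => ?_)
    have h1 : cqN a (Wt ∪ X) (crq q Q) x = cqN a (Wt ∪ X) q x + cqN a (Wt ∪ X) Q x := by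
      unfold cqN crq
      rw [← Finset.sum_add_distrib]
      exact Finset.sum_congr rfl fun j _ => by ring
    rw [h1, hcvN x hx, hQNp x hx]
    refine c24_wt a P p q x (hP0 x ?_) (hint x)
    exact Finset.union_subset_union_left hsub hx
  rw [← hq'']
  -- the term
  obtain ⟨T0, hT0⟩ : ∃ T0, T0 = (stTrm k γ P p idm H W).cols X (fun x => sy x k) := ⟨_, rfl⟩
  obtain ⟨T, hT⟩ : ∃ T, T = patT a (W \ Wt) π T0 := ⟨_, rfl⟩
  rw [← hT0, ← hT]
  have hk1 : 1 ≤ k := by omega
  have hE0 : ∀ x ∈ W ∪ X, ∀ l, 1 ≤ l → l ≠ k - 1 → T0.E (x, l) = 0 := by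
    intro x hx l _ hl
    rw [hT0]
    change (stTrm k γ P p idm H W).E (x, l) = 0
    rw [stTrm_E a k hk1 γ P p idm H W x l, hP0 x hx, if_neg (show l + 1 ≠ k by omega)]
    simp
  have hE1 : ∀ x, T0.E (x, k - 1) = p x := by
    intro x
    rw [hT0]
    change (stTrm k γ P p idm H W).E (x, k - 1) = p x
    rw [stTrm_E a k hk1 γ P p idm H W x (k - 1), if_neg (show k - 1 ≠ k by omega), if_pos hfk,
      zero_add]
  have hTE : ∀ x ∈ Wt ∪ X, ∀ l, T.E (x, l) = T0.E (x, l) := by
    intro x hx l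
    rw [hT]
    exact (E_patT_sep a hs _ _ hsepsym π T0 x hx l).1
  have hsubN : Wt ∪ X ⊆ W ∪ X := Finset.union_subset_union_left hsub
  have hRT0 : RReg W T0 := by
    refine ⟨fun x hx l hl => ?_, fun x hx j hj l hl hne => ?_⟩
    · by_cases hlf : l = k - 1
      · rw [hlf, hE1, hp0 x hx]
        exact ⟨0, by norm_num⟩
      · rw [hE0 x (Finset.mem_union_left _ hx) l hl hlf]
        exact ⟨0, by norm_num⟩
    · exfalso
      rw [hT0] at hne
      change (if j ∈ X then sy j k else stCol k idm H W j) (x, l) ≠ 0 at hne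
      have hjx : j ≠ x := fun e => hj (e ▸ hx)
      by_cases hjX : j ∈ X
      · rw [if_pos hjX, c24_symne _ _ _ _ hjx] at hne
        exact absurd rfl hne
      · rw [if_neg hjX] at hne
        rcases c24_col k H W j x hj l hne with h1 | h1
        · exact hjx h1.1
        · exact h1.2 hx
  have hRT : RReg Wt T := by
    rw [hT]
    refine RReg_patT a hs Wt (W \ Wt) Finset.sdiff_disjoint.symm π
      (fun x hx y hy _ => hsepsym.2 x (Finset.mem_union_left _ hx) y hy) T0 ?_
    rw [Finset.union_sdiff_of_subset hsub]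
    exact hRT0
  -- conversion
  obtain ⟨L, hL⟩ : ∃ L, L = (comps a Wt).toList.map (blkOf a q w (k - 1) Φ) := ⟨_, rfl⟩
  have hLmem : ∀ b ∈ L, ∃ A ∈ comps a Wt, b = blkOf a q w (k - 1) Φ A := by
    intro b hb
    rw [hL, List.mem_map] at hb
    obtain ⟨A, hA, h1⟩ := hb
    exact ⟨A, Finset.mem_toList.1 hA, h1.symm⟩
  have hLmap : L.map (fun b => (b.B, b.Φ)) = (comps a Wt).toList.map (fun A => (A, Φ A)) := by
    rw [hL, List.map_map]
    rfl
  have hLuni : uniB L = Wt := by
    rw [← uni_map_blk, hLmap, uni_comps a hs Wt Φ]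
  have hconv := conv_all a hs cd (k - 1) hf1 X L
    (fun b hb => by
      obtain ⟨A, hA, rfl⟩ := hLmem b hb
      refine blkOf_ok a hs cd A (hW.mono (comps_subset (hcomps A hA).1))
        (comps_conn (hcomps A hA).1) q (fun x hx => ?_) w (k - 1) hf1 Φ (hΦ A (hcomps A hA).1)
      rw [cqN_comp a W A (hcomps A hA).1 q x hx]
      exact hqW x (comps_subset (hcomps A hA).1 hx))
    (fun b hb => by
      obtain ⟨A, hA, rfl⟩ := hLmem b hb
      rfl)
    (by
      rw [hL, List.pairwise_map]
      exact c24_pw a hs Wt)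
    ∅ (FinT.empty a)
    ⟨Finset.disjoint_empty_right _, fun x _ y hy => absurd hy (Finset.notMem_empty y)⟩
    (fun b hb => by
      obtain ⟨A, hA, rfl⟩ := hLmem b hb
      exact (hcomps A hA).2)
    T (by rw [hLuni]; exact hRT)
    (fun v hv => absurd hv (Finset.notMem_empty v))
    (fun z hz hzL => by
      rw [hLuni] at hzL
      exact Finset.disjoint_left.1 hdX hzL hz)
    (fun z hz => Finset.notMem_empty z)
    (fun z hz => hN.loopfree z (Finset.mem_union_right _ hz))
    (fun z hz l hl hlf => by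
      rw [hTE z (Finset.mem_union_right _ hz) l, hE0 z (Finset.mem_union_right _ hz) l hl hlf]
      exact ⟨0, by norm_num⟩)
    (fun z hz => by
      rw [hTE z (Finset.mem_union_right _ hz), hE1]
      have h1 : (L.map (fun b => ∑ x ∈ b.B, (a z x : ℚ) * b.q x)).sum =
          ∑ x ∈ Wt, (a z x : ℚ) * q' x := by
        rw [← c24_sum a hs Wt (fun x => (a z x : ℚ) * q' x), hL, List.map_map]
        congr 1
        refine List.map_congr_left fun A hA => ?_
        show ∑ x ∈ A, (a z x : ℚ) * rp a A q x = ∑ x ∈ A, (a z x : ℚ) * q' x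
        refine Finset.sum_congr rfl fun x hx => ?_
        rw [hq' A (Finset.mem_toList.1 hA) x hx]
      have h2 : ∑ x ∈ W, (a z x : ℚ) * q x = ∑ x ∈ Wt, (a z x : ℚ) * q x := by
        symm
        refine Finset.sum_subset hsub fun x hx hxt => ?_
        rw [hsepsym.2 z (Finset.mem_union_right _ hz) x (Finset.mem_sdiff.2 ⟨hx, hxt⟩)]
        simp
      have h3 := hqX z hz
      rw [h2] at h3
      have h4 : p z - ∑ x ∈ Wt, (a z x : ℚ) * q' x = (p z - ∑ x ∈ Wt, (a z x : ℚ) * q x) -
          ∑ x ∈ Wt, (a z x : ℚ) * (q' x - q x) := by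
        have h5 : ∑ x ∈ Wt, (a z x : ℚ) * (q' x - q x) =
            ∑ x ∈ Wt, (a z x : ℚ) * q' x - ∑ x ∈ Wt, (a z x : ℚ) * q x := by
          rw [← Finset.sum_sub_distrib]
          exact Finset.sum_congr rfl fun x _ => by ring
        rw [h5]
        ring
      rw [h1, h4]
      exact c24_zsub h3 (c24_zsum Wt (a z) _ hq'Z))
    (fun z hz j hj l hl hne => by
      rw [hLuni] at hj
      rw [hT, hT0] at hne
      by_cases hjz : j = z
      · subst hjz
        rw [c24_patΛ a k γ P p H W (W \ Wt) X π hUX j hz] at hne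
        right
        left
        by_contra hlk
        apply hne
        rw [Finsupp.single_apply, if_neg]
        intro e
        have h1 : k = l := congrArg Prod.snd e
        omega
      · left
        refine (c24_patΛ' a k γ P p H W (W \ Wt) X π j z hjz (fun h1 => ?_)
          l hne).1
        rw [Finset.mem_sdiff] at h1
        exact h1.2 (Finset.mem_sdiff.2 ⟨h1.1, hj⟩))
    (fun z hz => by
      rw [Finset.sum_empty, add_zero, hTE z (Finset.mem_union_right _ hz), hE1]
      exact hX z hz)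
  rw [hLmap] at hconv
  rw [hconv]
  have htw : tw a W w (k - 1) Q = (L.map Blk.cf).prod := by
    rw [hL, hQd, hWt]
    exact tw_tch a hs W X hWX hN p hX w (k - 1) q Φ
  rw [htw]
  congr 1
  rw [hL, expl_comps a hs Wt (k - 1) q w Φ q' hq' T]
  -- merging
  have hmerge := merge a hs (k - 1) hf1 Wt X hdX hN' q' q'' Q hq'ok hrep.1 T
    (fun x hx l hl hlf => by
      rw [hTE x hx l]
      exact hE0 x (hsubN hx) l hl hlf)
    (fun x hx => by
      rw [hTE x (Finset.mem_union_left _ hx), hE1]
      exact hp0 x (hsub hx))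
    hQ0
    (fun x hx => by
      rw [hTE x hx, hE1]
      exact hQNp x hx)
    (fun x hx => (hQpos x hx).le)
    (fun x hx => hQpos x (Finset.mem_union_right _ hx))
    (fun x hx => by
      have h1 := hrep.2 x hx
      unfold crq at h1
      unfold resQ
      by_cases hxt : x ∈ Wt
      · rw [if_pos hxt]
        have h2 : q'' x - (q' x + Q x) = (q'' x - (q x + Q x)) - (q' x - q x) := by ring
        rw [h2]
        exact c24_zsub h1 (hq'Z x hxt)
      · rw [if_neg hxt]
        have hxX : x ∈ X := (Finset.mem_union.1 hx).resolve_left hxt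
        rw [hq0 x (fun hw => Finset.disjoint_left.1 hWX hw hxX)] at h1
        exact h1)
    (fun x hx j hj l hl hne => by
      rw [hT, hT0] at hne
      have hjx : j ≠ x := fun e => hj (e ▸ hx)
      refine (c24_patΛ' a k γ P p H W (W \ Wt) X π j x hjx (fun h1 => ?_)
        l hne).1
      rw [Finset.mem_sdiff] at h1
      exact hj (Finset.mem_union_left _ (by
        by_contra hjt
        exact h1.2 (Finset.mem_sdiff.2 ⟨h1.1, hjt⟩))))
    (fun x hx => by
      rw [hfk, hT, hT0]
      exact c24_patΛ a k γ P p H W (W \ Wt) X π hUX x hx)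
  rw [hmerge]
  have h1 : T.eta a (k - 1) Q = patT a (W \ Wt) π (T0.eta a (k - 1) Q) := by
    rw [hT]
    exact (patT_etaM_comm a (W \ Wt) π (fun _ => k - 1) Q T0).symm
  have hdN : Disjoint (Wt ∪ X) (W \ Wt) := hsepsym.1
  rw [h1, elT_patT a hs (Wt ∪ X) (W \ Wt) hN' hdN (k - 1) π,
    blkT_patT_comm a (Wt ∪ X) (W \ Wt) hdN (k - 1) (k - 1 + 1) q'' π, hfk]
  have h2 := cr_term a hs k hk1 γ P p H W X hWX hN hX hp0 hH q''
  rw [← hWt, ← hQd, ← hT0] at h2
  rw [h2]
  show TV a _ = TV a (patT a (W \ Wt) π (blkT a (Wt ∪ X) (k - 1) (k - 1 + 1) q'' _))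
  rw [hfk]

open Classical in
/-- the field `create` of `ClusterVal`. -/
theorem GG_create (a : I → I → ℕ) (hs : ∀ i j, a i j = a j i) (cd : CrossData a)
    (h : RTfam a cd) (fam : Finset I → (I → ℚ) → (ℕ → ℚ) → ℕ → FFn I) (hfam : IsFam a cd fam)
    (k : ℕ) (γ P p : I → ℚ) (H : I → I → ℚ) (W : Finset I) (q : I → ℚ)
    (w : Finset I → ℕ → ℚ) (hk : 2 ≤ k)
    (hG : GS a (fun N q g => cn a cd N q g) k γ P p W q w)
    (hP : ∀ i, 0 ≤ P i) (hp : ∀ i, 0 ≤ p i) (hH : ∀ l i, l ∈ W ∨ i ∈ W → H l i = 0)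
    (hF : FT a (W ∪ crX W P)) (hX : ∀ x ∈ crX W P, 0 < p x) :
    GG a fam k γ P p idm H W q w =
      tw a W w (k - 1) (crQ a W (crX W P) p) *
        GG a fam k (crG k γ (crQ a W (crX W P) p)) P (crp a p (crQ a W (crX W P) p)) idm
          (crH a W (crX W P) H) (W ∪ crX W P) (crq q (crQ a W (crX W P) p))
          (neww (fun N q g => cn a cd N q g) w (k - 1) (crq q (crQ a W (crX W P) p))
            (crQ a W (crX W P) p)) := by
  obtain ⟨X, hXd⟩ : ∃ X, X = crX W P := ⟨_, rfl⟩
  rw [← hXd] at hF hX ⊢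
  obtain ⟨Q, hQd⟩ : ∃ Q, Q = crQ a W X p := ⟨_, rfl⟩
  obtain ⟨Wt, hWt⟩ : ∃ Wt, Wt = tch a W X := ⟨_, rfl⟩
  have hk1 : 1 ≤ k := by omega
  have hf1 : 1 ≤ k - 1 := by omega
  have hfk : k - 1 + 1 = k := by omega
  have hN : FinT a (W ∪ X) := FT_FinT a hs hF
  have hW : FinT a W := hN.mono Finset.subset_union_left
  have hWX : Disjoint W X := by
    rw [Finset.disjoint_left]
    intro x hx hx'
    rw [hXd] at hx'
    exact (Finset.mem_filter.1 hx').2.1 hx
  have hPX : ∀ x ∈ X, P x = 0 := by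
    intro x hx
    rw [hXd] at hx
    exact (Finset.mem_filter.1 hx).2.2
  have hP0 : ∀ x ∈ W ∪ X, P x = 0 := by
    intro x hx
    rcases Finset.mem_union.1 hx with h1 | h1
    · exact hG.P0 x h1
    · exact hPX x h1
  have hcvW : ∀ x, cv a q x = cqN a W q x := fun x => cv_eq_cqN a W q hG.q0 x
  have hqW : ∀ x ∈ W, IsZ (cqN a W q x) := by
    intro x hx
    have h1 := c24_wt a P p q x (hG.P0 x hx) (hG.int x)
    rwa [hG.p0 x hx, add_zero, hcvW] at h1
  have hΦ : ∀ A ∈ comps a W, IsRF a cd A q (w A) (k - 1) (fam A q (w A) (k - 1)) := by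
    intro A hA
    have hA' : A ∈ clusters a W := by
      rw [clusters_eq_comps a hs W]
      exact hA
    have hex := RFex_of_Adm a hs cd h A (hW.mono (comps_subset hA)) (comps_conn hA) γ q
      (fun x hx => by
        rw [cqN_comp a W A hA q x hx]
        exact hqW x (comps_subset hA hx)) (w A) (k - 1) (hG.adm A hA')
    exact hfam A q (w A) (k - 1) (hex (k - 1) le_rfl)
  -- the columns of the new walls
  have hdrop := drop_cols a hs cd (k - 1) hf1 W hW q hqW w
    (fun A => fam A q (w A) (k - 1)) hΦ (stTrm k γ P p idm H W)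
    (stTrm_RReg a k hk1 γ P p idm H W hG.P0 hG.p0) X hWX
    (fun z hz => hN.loopfree z (Finset.mem_union_right _ hz))
    (fun z hz l _ hl => by
      rw [stTrm_E a k hk1 γ P p idm H W z l, hPX z hz, if_neg (show l + 1 ≠ k by omega)]
      simp)
    (fun z hz => by
      rw [stTrm_E a k hk1 γ P p idm H W z (k - 1), if_neg (show k - 1 ≠ k by omega),
        if_pos hfk, zero_add]
      exact hX z hz)
    (fun z hz => by
      rw [stTrm_E a k hk1 γ P p idm H W z (k - 1), if_neg (show k - 1 ≠ k by omega),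
        if_pos hfk, zero_add]
      have h1 := c24_wt a P p q z (hPX z hz) (hG.int z)
      have h2 := c24_cqN_out a q (fun hw => Finset.disjoint_left.1 hWX hw hz)
      rw [hcvW, h2] at h1
      have h3 : p z - ∑ x ∈ W, (a z x : ℚ) * q x = -∑ x ∈ W, (a z x : ℚ) * q x + p z := by ring
      rw [h3]
      exact h1)
    (fun x => -∑ l ∈ Finset.univ \ W, H l x • sy l (k - 1))
    (fun x hx => by
      show stCol k idm H W x = _
      rw [c24_stCol k H W x (fun hw => Finset.disjoint_left.1 hWX hw hx), hfk, sub_eq_add_neg])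
    (fun x hx i l _ hne => by
      rw [Finsupp.neg_apply, neg_ne_zero] at hne
      exact c24_low k H W x i l hne)
    (fun z hz j hjW hjX l _ hne => by
      rcases c24_col k H W j z hjW l hne with h1 | h1
      · exact absurd (h1.1 ▸ hz) hjX
      · exact h1.1)
  rw [hfk] at hdrop
  have hL0 : GG a fam k γ P p idm H W q w =
      evU a ((comps a W).toList.map (fun A => (A, fam A q (w A) (k - 1))))
        ((stTrm k γ P p idm H W).cols X (fun x => sy x k)) := hdrop
  rw [hL0]
  -- splitting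
  have hsub : Wt ⊆ W := hWt ▸ tch_sub a W X
  have hsep : Sep a (W \ Wt) (Wt ∪ X) := hWt ▸ tch_sep a hs W X hWX
  have hWu : (W \ Wt) ∪ Wt = W := Finset.sdiff_union_of_subset hsub
  have hUN : (W \ Wt) ∪ (Wt ∪ X) = W ∪ X := by
    rw [← Finset.union_assoc, hWu]
  have hpwd : ∀ Φ : Finset I → FFn I,
      ((comps a (W \ Wt)).toList.map (fun A => (A, Φ A))).Pairwise
        (fun b c => Disjoint b.1 c.1) := by
    intro Φ
    rw [List.pairwise_map]
    exact (c24_pw a hs (W \ Wt)).imp (fun h => h.1)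
  have hsplit := evU_union a hs (W \ Wt) Wt (hsep.mono (Finset.Subset.refl _)
    Finset.subset_union_left) (fun A => fam A q (w A) (k - 1))
    ((stTrm k γ P p idm H W).cols X (fun x => sy x k))
  rw [hWu, evU_append a _ _ (hpwd _), uni_comps a hs (W \ Wt)] at hsplit
  rw [hsplit]
  -- the right hand side
  obtain ⟨hQ0, hQpos, hQX, hQW, hQN⟩ := crQ_facts a hs W X hWX hN p hX
  rw [← hWt, ← hQd] at hQ0 hQpos hQN
  rw [← hQd] at hQX hQW
  rw [← hQd]
  obtain ⟨q'', hq''⟩ : ∃ q'', q'' = rp a (Wt ∪ X) (crq q Q) := ⟨_, rfl⟩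
  obtain ⟨w2, hw2⟩ : ∃ w2, w2 = neww (fun N q g => cn a cd N q g) w (k - 1) (crq q Q) Q := ⟨_, rfl⟩
  obtain ⟨T2, hT2⟩ : ∃ T2, T2 = stTrm k (crG k γ Q) P (crp a p Q) idm (crH a W X H) (W ∪ X) :=
    ⟨_, rfl⟩
  have hcvQ : ∀ x ∈ W ∪ X, cv a Q x = p x := by
    intro x hx
    by_cases hxX : x ∈ X
    · exact hQX x hxX
    · have hxW := (Finset.mem_union.1 hx).resolve_right hxX
      rw [hQW x hxW, hG.p0 x hxW]
  have hQoff : ∀ x, x ∉ W ∪ X → Q x = 0 := by
    intro x hx
    refine hQ0 x (fun h1 => hx (Finset.union_subset_union_left hsub h1))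
  have hq2 : ∀ x ∈ W ∪ X, IsZ (cqN a (W ∪ X) (crq q Q) x) := by
    intro x hx
    rw [← cv_eq_cqN a (W ∪ X) (crq q Q) (fun y hy => by
      unfold crq
      rw [hQoff y hy, hG.q0 y (fun hw => hy (Finset.mem_union_left _ hw)), add_zero])]
    have h1 : cv a (crq q Q) x = cv a q x + cv a Q x := cv_add a q Q x
    rw [h1, hcvQ x hx]
    exact c24_wt a P p q x (hP0 x hx) (hG.int x)
  have hsubN : Wt ∪ X ⊆ W ∪ X := Finset.union_subset_union_left hsub
  have hN' : FinT a (Wt ∪ X) := hN.mono hsubN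
  have hrep : Rep a (Wt ∪ X) (crq q Q) q'' := by
    rw [hq'']
    refine rp_spec a hs _ hN' _ (fun x hx => ?_)
    have h1 : cqN a ((Wt ∪ X) ∪ (W \ Wt)) (crq q Q) x = cqN a (Wt ∪ X) (crq q Q) x :=
      c24_cqN_sep a (hsep.symm hs) (crq q Q) x hx
    rw [← h1, Finset.union_comm, hUN]
    exact hq2 x (hsubN hx)
  have hcu : comps a (W ∪ X) = comps a (W \ Wt) ∪ comps a (Wt ∪ X) := by
    rw [← hUN]
    exact comps_union a hs _ _ hsep
  have hcd : Disjoint (comps a (W \ Wt)) (comps a (Wt ∪ X)) := comps_disj a _ _ hsep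
  have hcW : ∀ A ∈ comps a (W \ Wt), A ∈ comps a W := by
    intro A hA
    rw [hWt] at hA
    exact (comps_untouched a hs W X A hA).1
  obtain ⟨Ψ, hΨ⟩ : ∃ Ψ : Finset I → FFn I, Ψ = fun A => if A ∈ comps a (W \ Wt) then
    fam A q (w A) (k - 1) else [((1 : ℚ), (⟨fun _ => k - 1, q''⟩ : Pat I))] := ⟨_, rfl⟩
  have hΨ1 : ∀ A ∈ comps a (W \ Wt), Ψ A = fam A q (w A) (k - 1) := by
    intro A hA
    rw [hΨ]
    exact if_pos hA
  have hΨ2 : ∀ A ∈ comps a (Wt ∪ X), Ψ A = [((1 : ℚ), (⟨fun _ => k - 1, q''⟩ : Pat I))] := by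
    intro A hA
    rw [hΨ]
    exact if_neg (fun h1 => Finset.disjoint_left.1 hcd h1 hA)
  have hRF : ∀ A ∈ comps a (W ∪ X), IsRF a cd A (crq q Q) (w2 A) (k - 1) (Ψ A) := by
    intro A hA
    rw [hcu] at hA
    rcases Finset.mem_union.1 hA with hA1 | hA1
    · have hQA : ∀ x ∈ A, Q x = 0 := by
        intro x hx
        exact hQ0 x (fun h1 => Finset.disjoint_left.1 hsep.1 (comps_subset hA1 hx) h1)
      rw [hΨ1 A hA1]
      refine (hΦ A (hcW A hA1)).congr (fun x hx => ?_) (fun l _ => ?_)
      · unfold crq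
        rw [hQA x hx]
        exact ⟨0, by push_cast; ring⟩
      · rw [hw2]
        unfold neww
        rw [if_pos hQA]
    · have hQA : ¬ ∀ x ∈ A, Q x = 0 := by
        intro h1
        obtain ⟨x, hx⟩ := (comps_conn hA1).1
        exact (hQpos x (comps_subset hA1 hx)).ne' (h1 x hx)
      rw [hΨ2 A hA1]
      have h1 := IsRF_L a hs cd h A (hN'.mono (comps_subset hA1)) (comps_conn hA1) (crq q Q) q''
        (hrep.mono hs hN' (comps_subset hA1) (fun x hx y hy hyA => comps_sep hA1 x hx y hy hyA))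
        (k - 1)
      refine h1.congr (fun x hx => ⟨0, by push_cast; ring⟩) (fun l _ => ?_)
      rw [hw2]
      unfold neww
      rw [if_neg hQA]
  have hRT2 : RReg (W ∪ X) T2 := by
    rw [hT2]
    refine stTrm_RReg a k hk1 _ P _ idm _ (W ∪ X) hP0 (fun x hx => ?_)
    unfold crp
    rw [hcvQ x hx, sub_self]
  have hR0 : GG a fam k (crG k γ Q) P (crp a p Q) idm (crH a W X H) (W ∪ X) (crq q Q)
      (neww (fun N q g => cn a cd N q g) w (k - 1) (crq q Q) Q) =
      evU a ((comps a (W ∪ X)).toList.map (fun A => (A, Ψ A))) T2 := by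
    rw [← evU_RF hs hN hq2 (fun A hA => hfam A (crq q Q) (w2 A) (k - 1) ⟨_, hRF A hA⟩) hRF T2
      hRT2, hT2, hw2]
    rfl
  rw [hR0]
  have hsplit2 := evU_union a hs (W \ Wt) (Wt ∪ X) hsep Ψ T2
  rw [hUN, evU_append a _ _ (hpwd _), uni_comps a hs (W \ Wt)] at hsplit2
  rw [hsplit2]
  have hm1 : (comps a (W \ Wt)).toList.map (fun A => (A, Ψ A)) =
      (comps a (W \ Wt)).toList.map (fun A => (A, fam A q (w A) (k - 1))) :=
    List.map_congr_left fun A hA => by rw [hΨ1 A (Finset.mem_toList.1 hA)]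
  have hm2 : (comps a (Wt ∪ X)).toList.map (fun A => (A, Ψ A)) =
      (comps a (Wt ∪ X)).toList.map
        (fun A => (A, [((1 : ℚ), (⟨fun _ => k - 1, q''⟩ : Pat I))])) :=
    List.map_congr_left fun A hA => by rw [hΨ2 A (Finset.mem_toList.1 hA)]
  rw [hm1, hm2, GDef_mul_sum]
  congr 1
  refine List.map_congr_left fun c _ => ?_
  rw [evU_tau a hs (Wt ∪ X) (k - 1) q'']
  have hpat := c24_pat a hs cd k γ P p H W X q w hk (fun A => fam A q (w A) (k - 1)) hWX hN hG.q0
    hP0 hG.p0 hX hG.int hΦ hH c.2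
  rw [← hWt, ← hQd, ← hq'', ← hT2] at hpat
  have hcm : tauT a (Wt ∪ X) (k - 1) q'' (patT a (W \ Wt) c.2 T2) =
      patT a (W \ Wt) c.2 (tauT a (Wt ∪ X) (k - 1) q'' T2) :=
    blkT_patT_comm a (Wt ∪ X) (W \ Wt) (hsep.symm hs).1 (k - 1) (k - 1 + 1) q'' c.2 T2
  rw [hpat, hcm]
  ring

end

end Pool.Agent.H46.AH

end

section

/-!
KAC ADE, classification of the connected positive definite graphs.
-/

set_option autoImplicit false

namespace Pool.H88.KA

open scoped BigOperators

/-- the standard types: `A_1`, `A_n`, `D_n`, `E_6`, `E_7`, `E_8`. -/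
def Std (n c : ℕ) : Prop :=
  (n = 1 ∧ c = 0) ∨ (2 ≤ n ∧ c + 2 = n) ∨ (4 ≤ n ∧ c + 3 = n) ∨ (c = 2 ∧ (n = 6 ∨ n = 7 ∨ n = 8))

/-- test vectors on a standard graph. -/
theorem TT_test (n c : ℕ) (hc : c + 2 ≤ n) (hpd : PD (TT n c)) (W : ℕ → ℕ)
    (hne : ∃ p, p < n ∧ W p ≠ 0) (h1 : ∀ p, p < n → W p ≠ 0 → 2 * W p ≤ NB n c W p) : False := by
  apply hpd.test (fun i => W i.1)
  · obtain ⟨p, hp, hp'⟩ := hne
    exact ⟨⟨p, hp⟩, hp'⟩
  · intro i hi
    have h2 := TT_sumN n c hc W i
    have h3 : ∑ j : Fin n, TT n c i j * W j.1 = NB n c W i.1 := h2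
    rw [h3]
    exact h1 i.1 i.2 hi

theorem no_E7t (n c : ℕ) (h1 : 3 ≤ c) (h2 : c + 5 ≤ n) (hpd : PD (TT n c)) : False := by
  obtain ⟨d, hd⟩ : ∃ d, c = d + 3 := ⟨c - 3, by omega⟩
  subst hd
  obtain ⟨W, hW⟩ : ∃ W : ℕ → ℕ, ∀ p, W p = if p < d then 0 else if p ≤ d + 3 then p + 1 - d else
    if p ≤ d + 6 then d + 7 - p else if p + 1 = n then 2 else 0 := ⟨_, fun _ => rfl⟩
  have hWn : W (n - 1) = 2 := by
    rw [hW, if_neg (by omega), if_neg (by omega), if_neg (by omega), if_pos (by omega)]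
  have hWc : W (d + 3) = 4 := by
    rw [hW, if_neg (by omega), if_pos (by omega)]
    omega
  apply TT_test n (d + 3) (by omega) hpd W
  · exact ⟨d + 3, by omega, by omega⟩
  · intro p hp hp'
    unfold NB
    rw [hWn, hWc]
    by_cases h5 : p + 1 = n
    · have h6 : p = n - 1 := by omega
      rw [if_pos h5, h6, hWn]
    · rw [if_neg h5]
      have h7 : d ≤ p ∧ p ≤ d + 6 := by
        by_contra h
        apply hp'
        rcases Nat.lt_or_ge p d with h6 | h6
        · rw [hW, if_pos h6]
        · rw [hW, if_neg (by omega), if_neg (by omega), if_neg (by omega), if_neg h5]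
      rcases Nat.lt_or_ge p (d + 3) with h8 | h8
      · have e1 : W p = p + 1 - d := by rw [hW, if_neg (by omega), if_pos (by omega)]
        have e2 : W (p + 1) = p + 2 - d := by rw [hW, if_neg (by omega), if_pos (by omega)]
        rcases Nat.lt_or_ge d p with h9 | h9
        · have e3 : W (p - 1) = p - d := by rw [hW, if_neg (by omega), if_pos (by omega)]; omega
          rw [e1, e2, e3, if_pos (by omega : 1 ≤ p), if_pos (by omega : p + 3 ≤ n)]
          omega
        · rw [e1, e2, if_pos (by omega : p + 3 ≤ n)]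
          omega
      · rcases Nat.lt_or_ge (d + 3) p with h10 | h10
        · have e1 : W p = d + 7 - p := by
            rw [hW, if_neg (by omega), if_neg (by omega), if_pos (by omega)]
          have e2 : W (p - 1) = d + 8 - p := by
            rcases Nat.lt_or_ge (d + 4) p with h11 | h11
            · rw [hW, if_neg (by omega), if_neg (by omega), if_pos (by omega)]
              omega
            · rw [hW, if_neg (by omega), if_pos (by omega)]
              omega
          rcases Nat.lt_or_ge p (d + 6) with h9 | h9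
          · have e3 : W (p + 1) = d + 6 - p := by
              rw [hW, if_neg (by omega), if_neg (by omega), if_pos (by omega)]
              omega
            rw [e1, e2, e3, if_pos (by omega : 1 ≤ p), if_pos (by omega : p + 3 ≤ n)]
            omega
          · rw [e1, e2, if_pos (by omega : 1 ≤ p)]
            omega
        · have h11 : p = d + 3 := by omega
          subst h11
          have e2 : W (d + 3 - 1) = 3 := by rw [hW, if_neg (by omega), if_pos (by omega)]; omega
          have e3 : W (d + 3 + 1) = 3 := by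
            rw [hW, if_neg (by omega), if_neg (by omega), if_pos (by omega)]
            omega
          rw [hWc, e2, e3, if_pos (by omega), if_pos (by omega), if_pos rfl]

theorem no_E8t (n c : ℕ) (h1 : c = 2) (h2 : 9 ≤ n) (hpd : PD (TT n c)) : False := by
  subst h1
  obtain ⟨W, hW⟩ : ∃ W : ℕ → ℕ, ∀ p, W p = if p ≤ 1 then 2 * p + 2 else if p ≤ 7 then 8 - p else
    if p + 1 = n then 3 else 0 := ⟨_, fun _ => rfl⟩
  have hWn : W (n - 1) = 3 := by
    rw [hW, if_neg (by omega), if_neg (by omega), if_pos (by omega)]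
  have hWc : W 2 = 6 := by rw [hW, if_neg (by omega), if_pos (by omega)]
  apply TT_test n 2 (by omega) hpd W
  · exact ⟨2, by omega, by omega⟩
  · intro p hp hp'
    unfold NB
    rw [hWn, hWc]
    by_cases h5 : p + 1 = n
    · have h6 : p = n - 1 := by omega
      rw [if_pos h5, h6, hWn]
    · rw [if_neg h5]
      have h7 : p ≤ 7 := by
        by_contra h
        apply hp'
        rw [hW, if_neg (by omega), if_neg (by omega), if_neg (by omega)]
      have v0 : W 0 = 2 := by rw [hW, if_pos (by omega)]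
      have v1 : W 1 = 4 := by rw [hW, if_pos (by omega)]
      have v3 : W 3 = 5 := by rw [hW, if_neg (by omega), if_pos (by omega)]
      have v4 : W 4 = 4 := by rw [hW, if_neg (by omega), if_pos (by omega)]
      have v5 : W 5 = 3 := by rw [hW, if_neg (by omega), if_pos (by omega)]
      have v6 : W 6 = 2 := by rw [hW, if_neg (by omega), if_pos (by omega)]
      have v7 : W 7 = 1 := by rw [hW, if_neg (by omega), if_pos (by omega)]
      interval_cases p
      · rw [v0, v1, if_neg (by omega), if_pos (by omega), if_neg (by omega)]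
      · show 2 * W 1 ≤ (if 1 ≤ 1 then W 0 else 0) + (if 1 + 3 ≤ n then W 2 else 0) +
          (if 1 = 2 then 3 else 0)
        rw [v0, v1, hWc, if_pos (by omega), if_pos (by omega), if_neg (by omega)]
      · show 2 * W 2 ≤ (if 1 ≤ 2 then W 1 else 0) + (if 2 + 3 ≤ n then W 3 else 0) +
          (if 2 = 2 then 3 else 0)
        rw [v1, v3, hWc, if_pos (by omega), if_pos (by omega), if_pos (by omega)]
      · show 2 * W 3 ≤ (if 1 ≤ 3 then W 2 else 0) + (if 3 + 3 ≤ n then W 4 else 0) +
          (if 3 = 2 then 3 else 0)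
        rw [v3, v4, hWc, if_pos (by omega), if_pos (by omega), if_neg (by omega)]
      · show 2 * W 4 ≤ (if 1 ≤ 4 then W 3 else 0) + (if 4 + 3 ≤ n then W 5 else 0) +
          (if 4 = 2 then 3 else 0)
        rw [v3, v4, v5, if_pos (by omega), if_pos (by omega), if_neg (by omega)]
      · show 2 * W 5 ≤ (if 1 ≤ 5 then W 4 else 0) + (if 5 + 3 ≤ n then W 6 else 0) +
          (if 5 = 2 then 3 else 0)
        rw [v5, v4, v6, if_pos (by omega), if_pos (by omega), if_neg (by omega)]
      · show 2 * W 6 ≤ (if 1 ≤ 6 then W 5 else 0) + (if 6 + 3 ≤ n then W 7 else 0) +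
          (if 6 = 2 then 3 else 0)
        rw [v5, v7, v6, if_pos (by omega), if_pos (by omega), if_neg (by omega)]
      · show 2 * W 7 ≤ (if 1 ≤ 7 then W 6 else 0) + (if 7 + 3 ≤ n then W 8 else 0) +
          (if 7 = 2 then 3 else 0)
        rw [v7, v6, if_pos (by omega), if_neg (by omega : ¬ 7 = 2)]
        omega

/-- reversal of the chain. -/
def rv (n p : ℕ) : ℕ := if p + 1 = n then p else n - 2 - p

theorem rv_lt (n p : ℕ) (hp : p < n) : rv n p < n := by
  unfold rv
  split_ifs <;> omega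

theorem TT_rv (n c : ℕ) (hc : c + 2 ≤ n) (i j : Fin n) :
    TT n c ⟨rv n i.1, rv_lt n i.1 i.2⟩ ⟨rv n j.1, rv_lt n j.1 j.2⟩ = TT n (n - 2 - c) i j := by
  have hi := i.2
  have hj := j.2
  rw [TT_eq, TT_eq]
  show TTn n c (rv n i.1) (rv n j.1) = _
  unfold rv
  by_cases h1 : i.1 + 1 = n
  · rw [if_pos h1]
    by_cases h2 : j.1 + 1 = n
    · rw [if_pos h2]
      unfold TTn
      split_ifs <;> omega
    · rw [if_neg h2]
      unfold TTn
      split_ifs <;> omega
  · rw [if_neg h1]
    by_cases h2 : j.1 + 1 = n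
    · rw [if_pos h2]
      unfold TTn
      split_ifs <;> omega
    · rw [if_neg h2]
      unfold TTn
      split_ifs <;> omega

theorem rv_inj (n p q : ℕ) (hp : p < n) (hq : q < n) (h : rv n p = rv n q) : p = q := by
  unfold rv at h
  split_ifs at h <;> omega

/-- normal form of the branched graphs. -/
theorem std_of_ok (n c : ℕ) (hT : OkT n c) (hpd : PD (TT n c)) :
    Std n c ∨ Std n (n - 2 - c) := by
  rcases hT with ⟨h1, h2⟩ | ⟨h1, h2⟩
  · exact Or.inl (Or.inr (Or.inl ⟨h1, h2⟩))
  · have hpd' : PD (TT n (n - 2 - c)) := by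
      have h3 := hpd.comap (fun i : Fin n => ⟨rv n i.1, rv_lt n i.1 i.2⟩) (fun i j hij => by
        have h4 : rv n i.1 = rv n j.1 := congrArg Fin.val hij
        exact Fin.ext (rv_inj n i.1 j.1 i.2 j.2 h4))
      have h5 : (fun i j : Fin n => TT n c ⟨rv n i.1, rv_lt n i.1 i.2⟩ ⟨rv n j.1, rv_lt n j.1 j.2⟩) =
          TT n (n - 2 - c) := by
        funext i j
        exact TT_rv n c (by omega) i j
      rw [← h5]
      exact h3
    have g1 : ¬ (3 ≤ c ∧ c + 5 ≤ n) := fun h => no_E7t n c h.1 h.2 hpd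
    have g2 : ¬ (c = 2 ∧ 9 ≤ n) := fun h => no_E8t n c h.1 h.2 hpd
    have g3 : ¬ (n - 2 - c = 2 ∧ 9 ≤ n) := fun h => no_E8t n (n - 2 - c) h.1 h.2 hpd'
    unfold Std
    omega

section

variable {N : Type} [Fintype N] [DecidableEq N]

/-- connectedness. -/
def CNN (a : N → N → ℕ) : Prop :=
  ∀ S : Finset N, S.Nonempty → S ≠ Finset.univ → ∃ i ∈ S, ∃ j, j ∉ S ∧ 0 < a i j

theorem grow (a : N → N → ℕ) (hs : ∀ x y, a x y = a y x) (hd : ∀ x, a x x = 0) (hpd : PD a)
    (hc : CNN a) (n : ℕ) (hn : 2 ≤ n) (hcard : n ≤ Fintype.card N) :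
    ∃ (c : ℕ) (φ : Fin n → N), Function.Injective φ ∧ OkT n c ∧
      ∀ i j, a (φ i) (φ j) = TT n c i j := by
  induction n, hn using Nat.le_induction with
  | base =>
    have h1 : 0 < Fintype.card N := by omega
    obtain ⟨x⟩ : Nonempty N := Fintype.card_pos_iff.1 h1
    obtain ⟨i, hi, y, hy, hxy⟩ := hc {x} ⟨x, Finset.mem_singleton_self x⟩ (fun h => by
      have := congrArg Finset.card h
      rw [Finset.card_singleton, Finset.card_univ] at this
      omega)
    rw [Finset.mem_singleton] at hi hy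
    subst hi
    have hinj : Function.Injective (![i, y] : Fin 2 → N) := by
      intro p q hpq
      fin_cases p <;> fin_cases q <;> simp_all
    have h2 : a i y = 1 := by
      by_contra h3
      apply (hpd.comap (![i, y] : Fin 2 → N) hinj).test (fun _ => 1)
      · exact ⟨0, one_ne_zero⟩
      · intro p _
        rw [Fin.sum_univ_two]
        have h4 := hs y i
        fin_cases p
        · show 2 * 1 ≤ a i i * 1 + a i y * 1
          omega
        · show 2 * 1 ≤ a y i * 1 + a y y * 1
          omega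
    refine ⟨0, ![i, y], hinj, Or.inl ⟨le_rfl, rfl⟩, ?_⟩
    intro p q
    have h4 := hs y i
    fin_cases p <;> fin_cases q
    · show a i i = TT 2 0 0 0
      rw [hd i]
      rfl
    · show a i y = TT 2 0 0 1
      rw [h2]
      rfl
    · show a y i = TT 2 0 1 0
      rw [h4, h2]
      rfl
    · show a y y = TT 2 0 1 1
      rw [hd y]
      rfl
  | succ n hn ih =>
    obtain ⟨c, φ, hinj, hT, hφ⟩ := ih (by omega)
    obtain ⟨i, hi, x, hx, hix⟩ := hc (Finset.univ.image φ) ⟨φ ⟨0, by omega⟩,
      Finset.mem_image_of_mem _ (Finset.mem_univ _)⟩ (fun h => by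
      have := congrArg Finset.card h
      rw [Finset.card_image_of_injective _ hinj, Finset.card_univ, Finset.card_univ,
        Fintype.card_fin] at this
      omega)
    obtain ⟨y, _, hy⟩ := Finset.mem_image.1 hi
    subst hy
    have hxφ : ∀ j, φ j ≠ x := fun j h => hx (h ▸ Finset.mem_image_of_mem _ (Finset.mem_univ j))
    obtain ⟨b, hb⟩ : ∃ b : ℕ → ℕ, ∀ q, b q = if h : q < n then a x (φ ⟨q, h⟩) else 0 :=
      ⟨_, fun _ => rfl⟩
    obtain ⟨χ, hχ⟩ : ∃ χ : Fin (n + 1) → N, ∀ p, χ p = if h : p.1 < n then φ ⟨p.1, h⟩ else x :=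
      ⟨_, fun _ => rfl⟩
    have hχinj : Function.Injective χ := by
      intro p q hpq
      have hp := p.2
      have hq := q.2
      rw [hχ, hχ] at hpq
      split_ifs at hpq with g1 g2 g3
      · have h3 : p.1 = q.1 := Fin.mk.inj (hinj hpq)
        exact Fin.ext h3
      · exact absurd hpq (hxφ _)
      · exact absurd hpq.symm (hxφ _)
      · exact Fin.ext (by omega)
    have hgb : ∀ p q : Fin (n + 1), a (χ p) (χ q) = gb n c b p.1 q.1 := by
      intro p q
      have hp := p.2
      have hq := q.2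
      unfold gb
      rw [hχ, hχ]
      by_cases g1 : p.1 = n
      · rw [dif_neg (by omega), if_pos g1]
        by_cases g2 : q.1 = n
        · rw [dif_neg (by omega), if_pos g2]
          exact hd x
        · rw [dif_pos (by omega), if_neg g2, hb, dif_pos (by omega)]
      · rw [dif_pos (by omega), if_neg g1]
        by_cases g2 : q.1 = n
        · rw [dif_neg (by omega), if_pos g2, hb, dif_pos (by omega)]
          exact hs _ _
        · rw [dif_pos (by omega), if_neg g2, hφ, TT_eq]
    have hpd2 : PD (fun i j : Fin (n + 1) => gb n c b i.1 j.1) := by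
      have h3 := hpd.comap χ hχinj
      have h4 : (fun i j => a (χ i) (χ j)) = (fun i j : Fin (n + 1) => gb n c b i.1 j.1) := by
        funext p q
        exact hgb p q
      rw [← h4]
      exact h3
    obtain ⟨c', s, hT', hs1, hs2, hs3⟩ := step_exists n c b hT hpd2 ⟨y.1, y.2, by
      rw [hb, dif_pos y.2]
      have := hs (φ y) x
      show a x (φ y) ≠ 0
      omega⟩
    refine ⟨c', fun p => χ ⟨s p.1, by have := hs1 p.1 (by omega); omega⟩, ?_, hT', ?_⟩
    · intro p q hpq
      have h3 := congrArg Fin.val (hχinj hpq)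
      exact Fin.ext (hs2 p.1 q.1 (by omega) (by omega) h3)
    · intro p q
      rw [hgb]
      show gb n c b (s p.1) (s q.1) = _
      rw [hs3 p.1 q.1 (by omega) (by omega), TT_eq]

/-- classification. -/
theorem classify (a : N → N → ℕ) (hs : ∀ x y, a x y = a y x) (hd : ∀ x, a x x = 0) (hpd : PD a)
    (hc : CNN a) [hne : Nonempty N] :
    ∃ (n c : ℕ) (φ : Fin n → N), Function.Bijective φ ∧ Std n c ∧
      ∀ i j, a (φ i) (φ j) = TT n c i j := by
  have h0 : 0 < Fintype.card N := Fintype.card_pos_iff.2 hne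
  rcases Nat.lt_or_ge 1 (Fintype.card N) with h1 | h1
  · obtain ⟨c, φ, hinj, hT, hφ⟩ := grow a hs hd hpd hc (Fintype.card N) h1 le_rfl
    have hbij : Function.Bijective φ :=
      (Fintype.bijective_iff_injective_and_card φ).2 ⟨hinj, Fintype.card_fin _⟩
    have hpd2 : PD (TT (Fintype.card N) c) := by
      have h3 := hpd.comap φ hinj
      have h4 : (fun i j => a (φ i) (φ j)) = TT (Fintype.card N) c := by
        funext p q
        exact hφ p q
      rw [← h4]
      exact h3
    obtain ⟨n, hn⟩ : ∃ n, n = Fintype.card N := ⟨_, rfl⟩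
    rcases std_of_ok _ c hT hpd2 with h3 | h3
    · exact ⟨_, c, φ, hbij, h3, hφ⟩
    · have hc2 : c + 2 ≤ Fintype.card N := by
        rcases hT with h | h <;> omega
      have hr : Function.Bijective (fun i : Fin (Fintype.card N) =>
          (⟨rv _ i.1, rv_lt _ i.1 i.2⟩ : Fin (Fintype.card N))) := by
        apply (Finite.injective_iff_bijective).1
        intro i j hij
        have h4 : rv _ i.1 = rv _ j.1 := congrArg Fin.val hij
        exact Fin.ext (rv_inj _ i.1 j.1 i.2 j.2 h4)
      refine ⟨_, Fintype.card N - 2 - c, fun i => φ ⟨rv _ i.1, rv_lt _ i.1 i.2⟩, hbij.comp hr, h3, ?_⟩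
      intro i j
      rw [hφ, TT_rv _ c hc2 i j]
  · have h2 : Fintype.card N = 1 := by omega
    obtain ⟨x, hx⟩ := Fintype.card_eq_one_iff.1 h2
    refine ⟨1, 0, fun _ => x, ⟨fun i j _ => Subsingleton.elim _ _, fun y => ⟨0, (hx y).symm⟩⟩,
      Or.inl ⟨rfl, rfl⟩, ?_⟩
    intro i j
    have hi : i = 0 := Subsingleton.elim _ _
    have hj : j = 0 := Subsingleton.elim _ _
    subst hi
    subst hj
    rw [hd x]
    rfl

end

end Pool.H88.KA

end

section

/-!
KAC ADE: types of finite type sets of vertices, Coxeter numbers.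
-/

set_option autoImplicit false

namespace Pool.H88.KA

open scoped BigOperators
open Pool.Agent.H27.KAC (cart FinT ConnS comps cqN IsZ IsN CrossData cn upw detEff)

/-- the restricted graph. -/
abbrev ra {I : Type} (a : I → I → ℕ) (A : Finset I) : {x // x ∈ A} → {x // x ∈ A} → ℕ :=
  fun x y => a x.1 y.1

/-- `φ` identifies the standard graph with `A`. -/
structure Typ {I : Type} (a : I → I → ℕ) (A : Finset I) (n c : ℕ) (φ : Fin n → I) : Prop where
  inj : Function.Injective φ
  mem : ∀ i, φ i ∈ A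
  surj : ∀ x ∈ A, ∃ i, φ i = x
  adj : ∀ i j, a (φ i) (φ j) = TT n c i j

section

variable {I : Type} [Fintype I] [DecidableEq I]

theorem cqN_eq (a : I → I → ℕ) (A : Finset I) (v : I → ℚ) (x : I) (hx : x ∈ A) :
    cqN a A v x = 2 * v x - ∑ y ∈ A, (a x y : ℚ) * v y := by
  unfold cqN
  have h1 : ∀ y ∈ A, (cart a x y : ℚ) * v y = (if x = y then 2 * v y else 0) - (a x y : ℚ) * v y := by
    intro y _
    unfold cart
    split_ifs
    · push_cast
      ring
    · push_cast
      ring
  rw [Finset.sum_congr rfl h1, Finset.sum_sub_distrib, Finset.sum_ite_eq]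
  rw [if_pos hx]

theorem FinT.toPD {a : I → I → ℕ} {A : Finset I} (hA : FinT a A) : PD (ra a A) := by
  intro v hv
  obtain ⟨w, hw⟩ : ∃ w : I → ℚ, ∀ x, w x = if h : x ∈ A then (v ⟨x, h⟩ : ℚ) else 0 := ⟨_, fun _ => rfl⟩
  have hwv : ∀ x : {x // x ∈ A}, w x.1 = (v x : ℚ) := fun x => by rw [hw, dif_pos x.2]
  have hex : ∃ i ∈ A, w i ≠ 0 := by
    by_contra hc
    push Not at hc
    apply hv
    funext x
    have h1 := hc x.1 x.2
    rw [hwv] at h1
    exact_mod_cast h1
  have h1 := hA.pos w hex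
  have h2 : ∀ x : {x // x ∈ A}, cqN a A w x.1 = ((cZ (ra a A) v x : ℤ) : ℚ) := by
    intro x
    rw [cqN_eq a A w x.1 x.2]
    unfold cZ
    push_cast
    rw [hwv, ← Finset.sum_attach]
    congr 1
    exact Finset.sum_congr rfl fun y _ => by rw [hwv]
  rw [← Finset.sum_attach] at h1
  have h3 : ((∑ x, v x * cZ (ra a A) v x : ℤ) : ℚ) = ∑ x ∈ A.attach, w x.1 * cqN a A w x.1 := by
    push_cast
    exact Finset.sum_congr rfl fun x _ => by rw [hwv, h2]
  rw [← h3] at h1
  exact_mod_cast h1

theorem ConnS.toCNN {a : I → I → ℕ} {A : Finset I} (hc : ConnS a A) : CNN (ra a A) := by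
  intro S hS hne
  obtain ⟨i, hi, j, hj, hjS, hij⟩ := hc.2 (S.map ⟨Subtype.val, Subtype.val_injective⟩)
    (fun x hx => by
      rw [Finset.mem_map] at hx
      obtain ⟨y, _, rfl⟩ := hx
      exact y.2)
    (hS.map) (fun h => by
      apply hne
      ext x
      refine ⟨fun _ => Finset.mem_univ _, fun _ => ?_⟩
      have hx : x.1 ∈ S.map ⟨Subtype.val, Subtype.val_injective⟩ := by
        rw [h]
        exact x.2
      rw [Finset.mem_map] at hx
      obtain ⟨y, hy, hyx⟩ := hx
      have : y = x := Subtype.ext hyx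
      rw [← this]
      exact hy)
  rw [Finset.mem_map] at hi
  obtain ⟨x, hx, rfl⟩ := hi
  refine ⟨x, hx, ⟨j, hj⟩, fun h => hjS ?_, hij⟩
  rw [Finset.mem_map]
  exact ⟨⟨j, hj⟩, h, rfl⟩

theorem typ_exists {a : I → I → ℕ} (hs : ∀ i j, a i j = a j i) {A : Finset I} (hA : FinT a A)
    (hc : ConnS a A) : ∃ (n c : ℕ) (φ : Fin n → I), Typ a A n c φ ∧ Std n c := by
  have : Nonempty {x // x ∈ A} := by
    obtain ⟨x, hx⟩ := hc.1
    exact ⟨⟨x, hx⟩⟩
  obtain ⟨n, c, φ, hφ, hS, hadj⟩ := classify (ra a A) (fun x y => hs _ _)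
    (fun x => hA.loopfree x.1 x.2) (FinT.toPD hA) (ConnS.toCNN hc)
  refine ⟨n, c, fun i => (φ i).1, ⟨?_, fun i => (φ i).2, ?_, hadj⟩, hS⟩
  · intro i j hij
    exact hφ.1 (Subtype.ext hij)
  · intro x hx
    obtain ⟨i, hi⟩ := hφ.2 ⟨x, hx⟩
    exact ⟨i, by rw [hi]⟩

omit [Fintype I] in
theorem Typ.card {a : I → I → ℕ} {A : Finset I} {n c : ℕ} {φ : Fin n → I} (h : Typ a A n c φ) :
    A.card = n := by
  have h1 : A = Finset.univ.image φ := by
    ext x
    rw [Finset.mem_image]
    constructor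
    · intro hx
      obtain ⟨i, hi⟩ := h.surj x hx
      exact ⟨i, Finset.mem_univ _, hi⟩
    · rintro ⟨i, _, rfl⟩
      exact h.mem i
  rw [h1, Finset.card_image_of_injective _ h.inj, Finset.card_univ, Fintype.card_fin]

omit [Fintype I] in
/-- transport of `KE` to the standard graph. -/
theorem Typ.KE {a : I → I → ℕ} {A : Finset I} {n c : ℕ} {φ : Fin n → I} (h : Typ a A n c φ)
    {m : ℕ} {κ : ℤ} {e : ℕ → {x // x ∈ A} → ℤ} (he : KE (ra a A) m κ e) :
    KE (TT n c) m κ (fun k i => e k ⟨φ i, h.mem i⟩) := by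
  refine ⟨he.two_le, he.kap, fun x => he.zero _, fun x => he.one _, ?_, fun k x h1 h2 => he.pos k _ h1 h2,
    fun x => he.last _⟩
  intro k x hk
  rw [he.knit k ⟨φ x, h.mem x⟩ hk]
  symm
  apply Fintype.sum_bijective (fun i : Fin n => (⟨φ i, h.mem i⟩ : {x // x ∈ A}))
  · refine ⟨fun i j hij => h.inj (Subtype.ext_iff.1 hij), fun x => ?_⟩
    obtain ⟨i, hi⟩ := h.surj x.1 x.2
    exact ⟨i, Subtype.ext hi⟩
  · intro i
    show (TT n c x i : ℤ) * e (k + 1) ⟨φ i, h.mem i⟩ = (a (φ x) (φ i) : ℤ) * e (k + 1) ⟨φ i, h.mem i⟩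
    rw [h.adj]

/-- the Coxeter number of the standard graph. -/
def cox (n c : ℕ) : ℕ :=
  if c + 3 = n ∧ 4 ≤ n then 2 * n - 2 else
    if c = 2 ∧ n = 6 then 12 else if c = 2 ∧ n = 7 then 18 else if c = 2 ∧ n = 8 then 30 else n + 1

theorem KE_std (n c : ℕ) (h : Std n c) : ∃ κ e, KE (TT n c) (cox n c) κ e := by
  rcases h with ⟨h1, h2⟩ | ⟨h1, h2⟩ | ⟨h1, h2⟩ | ⟨h1, h2 | h2 | h2⟩
  · subst h1
    subst h2
    exact ⟨1, _, KE_A1⟩
  · have e1 : cox n c = n + 1 := by
      unfold cox
      split_ifs <;> omega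
    have e2 : c = n - 2 := by omega
    rw [e1, e2]
    exact ⟨2, _, KE_A n h1⟩
  · have e1 : cox n c = 2 * n - 2 := by
      unfold cox
      rw [if_pos ⟨h2, h1⟩]
    have e2 : c = n - 3 := by omega
    rw [e1, e2]
    obtain ⟨e, he⟩ := KE_D n h1
    exact ⟨1, e, he⟩
  · subst h1
    subst h2
    obtain ⟨e, he⟩ := KE_E6
    exact ⟨1, e, he⟩
  · subst h1
    subst h2
    obtain ⟨e, he⟩ := KE_E7
    exact ⟨1, e, he⟩
  · subst h1
    subst h2
    obtain ⟨e, he⟩ := KE_E8
    exact ⟨1, e, he⟩

/-- the hypothesis on the crossing data. -/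
def MMok (a : I → I → ℕ) (cd : CrossData a) : Prop :=
  ∀ A, FinT a A → ConnS a A → ∃ (κ : ℤ) (e : ℕ → {x // x ∈ A} → ℤ), KE (ra a A) (cd.mm A) κ e

theorem Typ.mm {a : I → I → ℕ} {A : Finset I} {n c : ℕ} {φ : Fin n → I} (h : Typ a A n c φ)
    (hS : Std n c) {m : ℕ} {κ : ℤ} {e : ℕ → {x // x ∈ A} → ℤ} (he : Pool.H88.KA.KE (ra a A) m κ e) :
    m = cox n c := by
  have : Nonempty (Fin n) := ⟨⟨0, by unfold Std at hS; omega⟩⟩
  obtain ⟨κ', e', he'⟩ := KE_std n c hS
  exact KE_unique (h.KE he) he'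

/-- the Coxeter number of `A`. -/
theorem mm_eq {a : I → I → ℕ} {cd : CrossData a} (hmm : MMok a cd) {A : Finset I} (hA : FinT a A)
    (hc : ConnS a A) {n c : ℕ} {φ : Fin n → I} (h : Typ a A n c φ) (hS : Std n c) :
    cd.mm A = cox n c := by
  obtain ⟨κ, e, he⟩ := hmm A hA hc
  exact h.mm hS he

end

end Pool.H88.KA

end

section

/-!
KAC ADE numbers: connectedness of standard sets, erasing the end of the long arm, determinants.
-/

set_option autoImplicit false

namespace Pool.Agent.H40.NUM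

open scoped BigOperators
open Pool.Agent.H27.KAC Pool.H88.Num
open Pool.H88.KA (Typ Std cox MMok mm_eq TT typ_exists)

section

variable {I : Type} [Fintype I] [DecidableEq I]

omit [Fintype I] in
/-- a standard set is connected. -/
theorem typ_conn {a : I → I → ℕ} {A : Finset I} {n c : ℕ} {φ : Fin n → I} (h : Typ a A n c φ)
    (hc : c + 2 ≤ n) : ConnS a A := by
  refine ⟨⟨φ ⟨0, by omega⟩, h.mem _⟩, ?_⟩
  intro T hT hTne hTA
  by_contra hcon
  push Not at hcon
  have hcl : ∀ i j : Fin n, TT n c i j = 1 → φ i ∈ T → φ j ∈ T := by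
    intro i j hij hi
    by_contra hj
    have h1 := hcon (φ i) hi (φ j) (h.mem j) hj
    rw [h.adj, hij] at h1
    omega
  have hpath : ∀ p (hp : p + 2 ≤ n), (φ ⟨p, by omega⟩ ∈ T ↔ φ ⟨0, by omega⟩ ∈ T) := by
    intro p
    induction p with
    | zero =>
      intro _
      exact Iff.rfl
    | succ p ih =>
      intro hp
      rw [← ih (by omega)]
      constructor
      · apply hcl
        unfold TT
        rw [if_pos]
        right
        left
        exact ⟨rfl, hp⟩
      · apply hcl
        unfold TT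
        rw [if_pos]
        left
        exact ⟨rfl, hp⟩
  have hlast : (φ ⟨n - 1, by omega⟩ ∈ T ↔ φ ⟨0, by omega⟩ ∈ T) := by
    rw [← hpath c hc]
    constructor
    · apply hcl
      unfold TT
      rw [if_pos]
      right
      right
      right
      refine ⟨rfl, ?_, ?_⟩
      · show n - 1 + 1 = n
        omega
      · show n - 1 ≠ c
        omega
    · apply hcl
      unfold TT
      rw [if_pos]
      right
      right
      left
      refine ⟨rfl, ?_, ?_⟩
      · show n - 1 + 1 = n
        omega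
      · show c ≠ n - 1
        omega
  have hall : ∀ i : Fin n, (φ i ∈ T ↔ φ ⟨0, by omega⟩ ∈ T) := by
    intro i
    by_cases hi : i.1 + 2 ≤ n
    · exact hpath i.1 hi
    · have h1 : i = ⟨n - 1, by omega⟩ := Fin.ext (by have := i.2; show i.1 = n - 1; omega)
      rw [h1]
      exact hlast
  obtain ⟨x, hx⟩ := hTne
  obtain ⟨i, hi⟩ := h.surj x (hT hx)
  have h0 : φ ⟨0, by omega⟩ ∈ T := by
    rw [← hall i, hi]
    exact hx
  apply hTA
  apply Finset.Subset.antisymm hT
  intro y hy
  obtain ⟨j, rfl⟩ := h.surj y hy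
  rw [hall j]
  exact h0

omit [Fintype I] in
/-- erasing the end of the long arm. -/
theorem typ_erase {a : I → I → ℕ} {A : Finset I} {n c : ℕ} {φ : Fin (n + 1) → I}
    (h : Typ a A (n + 1) c φ) (hc : c + 2 ≤ n) :
    Typ a (A.erase (φ ⟨n - 1, by omega⟩)) n c
      (fun i => if i.1 = n - 1 then φ ⟨n, by omega⟩ else φ ⟨i.1, by omega⟩) := by
  have key : ∀ i : Fin n, ∃ k : Fin (n + 1), (if i.1 = n - 1 then φ ⟨n, by omega⟩ else
      φ ⟨i.1, by omega⟩) = φ k ∧ k.1 = (if i.1 = n - 1 then n else i.1) := by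
    intro i
    by_cases hi : i.1 = n - 1
    · exact ⟨⟨n, by omega⟩, by rw [if_pos hi], by rw [if_pos hi]⟩
    · exact ⟨⟨i.1, by omega⟩, by rw [if_neg hi], by rw [if_neg hi]⟩
  refine ⟨?_, ?_, ?_, ?_⟩
  · intro i j hij
    obtain ⟨k, hk, hk'⟩ := key i
    obtain ⟨l, hl, hl'⟩ := key j
    have h1 : φ k = φ l := by
      rw [← hk, ← hl]
      exact hij
    have h2 : k.1 = l.1 := congrArg Fin.val (h.inj h1)
    rw [hk', hl'] at h2
    have := i.2
    have := j.2
    apply Fin.ext
    split_ifs at h2 <;> omega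
  · intro i
    obtain ⟨k, hk, hk'⟩ := key i
    show (if i.1 = n - 1 then φ ⟨n, by omega⟩ else φ ⟨i.1, by omega⟩) ∈ _
    rw [hk, Finset.mem_erase]
    refine ⟨?_, h.mem k⟩
    intro h1
    have h2 : k.1 = n - 1 := congrArg Fin.val (h.inj h1)
    have := i.2
    rw [hk'] at h2
    split_ifs at h2 <;> omega
  · intro x hx
    rw [Finset.mem_erase] at hx
    obtain ⟨k, rfl⟩ := h.surj x hx.2
    have hk := k.2
    have hk1 : k.1 ≠ n - 1 := by
      intro h1
      apply hx.1
      congr 1
      exact Fin.ext h1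
    by_cases h2 : k.1 = n
    · refine ⟨⟨n - 1, by omega⟩, ?_⟩
      refine (if_pos rfl).trans ?_
      congr 1
      exact Fin.ext h2.symm
    · refine ⟨⟨k.1, by omega⟩, ?_⟩
      simp only
      rw [if_neg hk1]
  · intro i j
    obtain ⟨k, hk, hk'⟩ := key i
    obtain ⟨l, hl, hl'⟩ := key j
    show a (if i.1 = n - 1 then φ ⟨n, by omega⟩ else φ ⟨i.1, by omega⟩)
      (if j.1 = n - 1 then φ ⟨n, by omega⟩ else φ ⟨j.1, by omega⟩) = _
    rw [hk, hl, h.adj]
    unfold TT
    rw [hk', hl']
    have := i.2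
    have := j.2
    congr 1
    apply propext
    by_cases hi : i.1 = n - 1
    · by_cases hj : j.1 = n - 1
      · rw [if_pos hi, if_pos hj]
        omega
      · rw [if_pos hi, if_neg hj]
        omega
    · by_cases hj : j.1 = n - 1
      · rw [if_neg hi, if_pos hj]
        omega
      · rw [if_neg hi, if_neg hj]
        omega

omit [Fintype I] in
/-- the determinant of a standard set. -/
theorem dt_typ {a : I → I → ℕ} {A : Finset I} {n c : ℕ} {φ : Fin n → I} (h : Typ a A n c φ) :
    dt a A = ((Dm n c).det : ℚ) := by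
  classical
  obtain ⟨e, he⟩ : ∃ e : Fin n ≃ {x // x ∈ A}, ∀ i, (e i).1 = φ i := by
    refine ⟨Equiv.ofBijective (fun i => ⟨φ i, h.mem i⟩) ⟨?_, ?_⟩, fun i => rfl⟩
    · intro i j hij
      exact h.inj (congrArg Subtype.val hij)
    · intro x
      obtain ⟨i, hi⟩ := h.surj x.1 x.2
      exact ⟨i, Subtype.ext hi⟩
  have h1 : ((Dm n c).det : ℚ) = ((Int.castRingHom ℚ).mapMatrix (Dm n c)).det := by
    rw [← RingHom.map_det]
    rfl
  unfold dt
  rw [h1]
  have h2 := Matrix.det_submatrix_equiv_self e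
    (Matrix.of (fun (i j : {x // x ∈ A}) => (cart a i.1 j.1 : ℚ)))
  refine Eq.trans ?_ (h2.symm.trans ?_)
  · congr!
  · congr 1
    ext i j
    show (cart a (e i).1 (e j).1 : ℚ) = (((if i = j then 2 else 0) - (TT n c i j : ℤ) : ℤ) : ℚ)
    unfold cart
    rw [he, he, h.adj]
    have h3 : (φ i = φ j) = (i = j) := propext ⟨fun hij => h.inj hij, fun hij => by rw [hij]⟩
    simp only [h3]

end

end Pool.Agent.H40.NUM

end

section

/-!
KAC ADE numbers: the class zero numbers of `A_n`, `D_5`, `E_6`, `E_7`.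
-/

set_option autoImplicit false

namespace Pool.Agent.H40.NUM

open scoped BigOperators
open Pool.Agent.H27.KAC Pool.H88.Num
open Pool.H88.KA (Typ Std cox MMok mm_eq TT typ_exists)
open Pool.H27.PD (PC QQ)
open Polynomial

section

variable {I : Type} [Fintype I] [DecidableEq I]

/-- class zero is a weight class. -/
theorem wtl_zero (a : I → I → ℕ) (A : Finset I) : WtL a A (fun _ => 0) := by
  intro x hx
  refine ⟨0, ?_⟩
  unfold cqN
  simp

/-- data of a polynomial of class zero. -/
theorem pc_of {a : I → I → ℕ} {cd : CrossData a}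
    (heps : ∀ A q, (∀ x ∈ A, IsZ (q x)) → cd.eps A q = 1)
    {A : Finset I} (hne : A.Nonempty) {P : Polynomial ℚ} (h : PolyOf a cd A (fun _ => 0) P) {m : ℕ}
    {l : ℚ} {k : ℕ} (hm : cd.mm A = m) (hl : l = -((-1) ^ (k - 1))) (hk : A.card + 1 = k) :
    PC P (cn a cd A (fun _ => 0)) m l k := by
  refine ⟨h.c0, ?_, ?_, h.mul, ?_⟩
  · rw [h.deg, hm]
  · rw [h.lead, heps A _ (fun _ _ => isZ_zero), hl, ← hk]
    simp
  · rw [← hk]
    exact N1_a hne h

/-- the numbers of a chain. -/
theorem val_A {a : I → I → ℕ} {cd : CrossData a} (hmm : MMok a cd) (hR : RTnum a cd)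
    (heps : ∀ A q, (∀ x ∈ A, IsZ (q x)) → cd.eps A q = 1) {A : Finset I} (hA : FinT a A)
    (hc : ConnS a A) {n c : ℕ} {φ : Fin n → I} (h : Typ a A n c φ) (hS : Std n c)
    (hcox : cox n c = n + 1) (g : ℕ) : cn a cd A (fun _ => 0) g = (g + n).choose n := by
  obtain ⟨P, hP⟩ := polyOf_exists hR hA hc (wtl_zero a A)
  have h1 : PC P (cn a cd A (fun _ => 0)) (n + 1) (-((-1) ^ (n + 1 - 1))) (n + 1) :=
    pc_of heps hc.1 hP (by rw [mm_eq hmm hA hc h hS, hcox]) rfl (by rw [h.card])
  exact Pool.H27.PD.An_c hP.mul n (Pool.H27.PD.An h1 rfl) g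

/-- the polynomial of `D_5`. -/
theorem pol_D5 {a : I → I → ℕ} (hs : ∀ i j, a i j = a j i) {cd : CrossData a} (hmm : MMok a cd)
    (hR : RTnum a cd) (heps : ∀ A q, (∀ x ∈ A, IsZ (q x)) → cd.eps A q = 1) {A : Finset I}
    (hA : FinT a A) {φ : Fin 5 → I} (h : Typ a A 5 2 φ) : PolyOf a cd A (fun _ => 0) (QQ 6 2 0 0) := by
  have hc : ConnS a A := typ_conn h (by omega)
  obtain ⟨P, hP⟩ := polyOf_exists hR hA hc (wtl_zero a A)
  have h1 : PC P (cn a cd A (fun _ => 0)) 8 1 6 :=
    pc_of heps hc.1 hP (by rw [mm_eq hmm hA hc h (by unfold Std; omega)]; rfl) (by norm_num)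
      (by rw [h.card])
  have h2 : P = QQ 6 2 0 0 := Pool.H27.PD.D5 h1 (by
    rw [N1_c hs cd hA, dt_typ h, Dm_D5]
    norm_num)
  rw [← h2]
  exact hP

/-- one step along the chain. -/
theorem chain {a : I → I → ℕ} {cd : CrossData a} {A : Finset I} {n : ℕ} {φ : Fin (n + 1) → I}
    (h : Typ a A (n + 1) 2 φ) (hn : 4 ≤ n) {P F : Polynomial ℚ}
    (hP : PolyOf a cd A (fun _ => 0) P)
    (hF : PolyOf a cd (A.erase (φ ⟨n - 1, by omega⟩)) (fun _ => 0) F) :
    F ∣ P ∧ F ∣ X * derivative P := by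
  have h1 := typ_erase h (by omega)
  refine N1_b (h.mem ⟨n - 1, by omega⟩) ?_ hP hF
  rw [Finset.sdiff_singleton_eq_erase]
  exact comps_of_conn (typ_conn h1 (by omega))

/-- the polynomial of `E_6`. -/
theorem pol_E6 {a : I → I → ℕ} (hs : ∀ i j, a i j = a j i) {cd : CrossData a} (hmm : MMok a cd)
    (hR : RTnum a cd) (heps : ∀ A q, (∀ x ∈ A, IsZ (q x)) → cd.eps A q = 1) {A : Finset I}
    (hA : FinT a A) {φ : Fin 6 → I} (h : Typ a A 6 2 φ) : PolyOf a cd A (fun _ => 0) (QQ 7 3 1 0) := by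
  have hc : ConnS a A := typ_conn h (by omega)
  obtain ⟨P, hP⟩ := polyOf_exists hR hA hc (wtl_zero a A)
  have h1 : PC P (cn a cd A (fun _ => 0)) 12 (-1) 7 :=
    pc_of heps hc.1 hP (by rw [mm_eq hmm hA hc h (by unfold Std; omega)]; rfl) (by norm_num)
      (by rw [h.card])
  have h3 := typ_erase h (by omega)
  have h4 := chain h (by omega) hP
    (pol_D5 hs hmm hR heps (hA.mono (Finset.erase_subset _ _)) h3)
  have h2 : P = QQ 7 3 1 0 := Pool.H27.PD.E6 h1 (by
    rw [N1_c hs cd hA, dt_typ h, Dm_E6]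
    norm_num) h4.1 h4.2
  rw [← h2]
  exact hP

/-- the polynomial of `E_7`. -/
theorem pol_E7 {a : I → I → ℕ} (hs : ∀ i j, a i j = a j i) {cd : CrossData a} (hmm : MMok a cd)
    (hR : RTnum a cd) (heps : ∀ A q, (∀ x ∈ A, IsZ (q x)) → cd.eps A q = 1) {A : Finset I}
    (hA : FinT a A) {φ : Fin 7 → I} (h : Typ a A 7 2 φ) : PolyOf a cd A (fun _ => 0) (QQ 8 4 2 1) := by
  have hc : ConnS a A := typ_conn h (by omega)
  obtain ⟨P, hP⟩ := polyOf_exists hR hA hc (wtl_zero a A)
  have h1 : PC P (cn a cd A (fun _ => 0)) 18 1 8 :=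
    pc_of heps hc.1 hP (by rw [mm_eq hmm hA hc h (by unfold Std; omega)]; rfl) (by norm_num)
      (by rw [h.card])
  have h3 := typ_erase h (by omega)
  have h4 := chain h (by omega) hP
    (pol_E6 hs hmm hR heps (hA.mono (Finset.erase_subset _ _)) h3)
  have h2 : P = QQ 8 4 2 1 := Pool.H27.PD.E7 h1 (by
    rw [N1_c hs cd hA, dt_typ h, Dm_E7]
    norm_num) h4.1 h4.2
  rw [← h2]
  exact hP

/-- the polynomial of `E_8`, given its numbers up to five. -/
theorem pol_E8 {a : I → I → ℕ} (hs : ∀ i j, a i j = a j i) {cd : CrossData a} (hmm : MMok a cd)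
    (hR : RTnum a cd) (heps : ∀ A q, (∀ x ∈ A, IsZ (q x)) → cd.eps A q = 1) {A : Finset I}
    (hA : FinT a A) {φ : Fin 8 → I} (h : Typ a A 8 2 φ)
    (c1 : cn a cd A (fun _ => 0) 1 = 1) (c2 : cn a cd A (fun _ => 0) 2 = 3)
    (c3 : cn a cd A (fun _ => 0) 3 = 5) (c4 : cn a cd A (fun _ => 0) 4 = 10)
    (c5 : cn a cd A (fun _ => 0) 5 = 15) :
    PolyOf a cd A (fun _ => 0) (QQ 9 5 3 2 * (1 + X ^ 2 + X ^ 3 + X ^ 4 + X ^ 6)) := by
  have hc : ConnS a A := typ_conn h (by omega)
  obtain ⟨P, hP⟩ := polyOf_exists hR hA hc (wtl_zero a A)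
  have h1 : PC P (cn a cd A (fun _ => 0)) 30 (-1) 9 :=
    pc_of heps hc.1 hP (by rw [mm_eq hmm hA hc h (by unfold Std; omega)]; rfl) (by norm_num)
      (by rw [h.card])
  have h3 := typ_erase h (by omega)
  have h4 := chain h (by omega) hP
    (pol_E7 hs hmm hR heps (hA.mono (Finset.erase_subset _ _)) h3)
  have h2 : P = QQ 9 5 3 2 * (1 + X ^ 2 + X ^ 3 + X ^ 4 + X ^ 6) :=
    Pool.H27.PD.E8 h1 c1 c2 c3 c4 c5 h4.1 h4.2
  rw [← h2]
  exact hP

end

end Pool.Agent.H40.NUM

end

section

/-!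
KAC ADE numbers, class zero of `E_8`: cutting along the long arm.
-/

set_option autoImplicit false

namespace Pool.H88.Num

open scoped BigOperators
open Pool.Agent.H27.KAC
open Pool.H88.KA (Typ Std cox MMok mm_eq TT typ_exists)

section

variable {I : Type} [Fintype I] [DecidableEq I]

/-- splitting the sum by the first vertex of a chain which lies in `M`. -/
theorem PhN_split (a : I → I → ℕ) (cd : CrossData a) (A : Finset I) (y : ℕ → I) (g k : ℕ) :
    PhN a cd A g =
      ∑ i ∈ Finset.range k, ∑ M ∈ A.powerset.filter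
          (fun M => y i ∈ M ∧ Disjoint ((Finset.range i).image y) M), tmN a cd A g M +
        ∑ M ∈ A.powerset.filter (fun M => Disjoint ((Finset.range k).image y) M),
          tmN a cd A g M := by
  induction k with
  | zero =>
    unfold PhN
    simp
  | succ k ih =>
    rw [Finset.sum_range_succ, ih, add_assoc]
    congr 1
    rw [← Finset.sum_union]
    · refine Finset.sum_congr ?_ fun _ _ => rfl
      ext M
      simp only [Finset.mem_union, Finset.mem_filter]
      rw [Finset.range_add_one, Finset.image_insert, Finset.disjoint_insert_left]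
      by_cases h : y k ∈ M
      · tauto
      · tauto
    · rw [Finset.disjoint_filter]
      intro M _ h1 h2
      rw [Finset.range_add_one, Finset.image_insert, Finset.disjoint_insert_left] at h2
      exact h2.1 h1.1

/-- a connected subset lies in one component. -/
theorem conn_sub_comp {a : I → I → ℕ} (hs : ∀ i j, a i j = a j i) {N K : Finset I}
    (hK : ConnS a K) (hKN : K ⊆ N) : ∃ B ∈ comps a N, K ⊆ B := by
  obtain ⟨x, hx⟩ := hK.1
  obtain ⟨B, hB, hxB⟩ := comps_cover hs x (hKN hx)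
  refine ⟨B, hB, ?_⟩
  by_contra hcon
  have h1 : K ∩ B ≠ K := by
    intro h
    apply hcon
    rw [← h]
    exact Finset.inter_subset_right
  obtain ⟨i, hi, j, hj, hj', hij⟩ := hK.2 (K ∩ B) Finset.inter_subset_left
    ⟨x, Finset.mem_inter.2 ⟨hx, hxB⟩⟩ h1
  rw [Finset.mem_inter] at hi hj'
  have h2 : j ∉ B := fun h => hj' ⟨hj, h⟩
  have h3 := comps_sep hB i hi.2 j (hKN hj) h2
  omega

/-- the Coxeter number exceeds the rank. -/
theorem cox_ge {n c : ℕ} (h : Std n c) : n + 1 ≤ cox n c := by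
  unfold cox
  unfold Std at h
  split_ifs <;> omega

theorem mm_ge_card {a : I → I → ℕ} (hs : ∀ i j, a i j = a j i) {cd : CrossData a}
    (hmm : MMok a cd) {N : Finset I} (hN : FinT a N) (hc : ConnS a N) :
    N.card + 1 ≤ cd.mm N := by
  obtain ⟨n, c, φ, hφ, hS⟩ := typ_exists hs hN hc
  rw [mm_eq hmm hN hc hφ hS, hφ.card]
  exact cox_ge hS

theorem wN_zero {a : I → I → ℕ} {cd : CrossData a} {N : Finset I} {g : ℕ} (hg : g < cd.mm N) :
    wN a cd N g = 0 := by
  unfold wN upw
  rw [if_neg (by omega)]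
  simp

/-- terms with a large connected set outside `M` vanish. -/
theorem tmN_zero {a : I → I → ℕ} (hs : ∀ i j, a i j = a j i) {cd : CrossData a}
    (hmm : MMok a cd) {A K M : Finset I} (hA : FinT a A) (hK : ConnS a K) (hKA : K ⊆ A)
    (hKM : Disjoint K M) {g : ℕ} (hg : g ≤ K.card) : tmN a cd A g M = 0 := by
  have hsub : K ⊆ A \ M := by
    intro x hx
    exact Finset.mem_sdiff.2 ⟨hKA hx, fun h => Finset.disjoint_left.1 hKM hx h⟩
  obtain ⟨B, hB, hKB⟩ := conn_sub_comp hs hK hsub
  have h1 := mm_ge_card hs hmm (hA.mono ((comps_subset hB).trans Finset.sdiff_subset))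
    (comps_conn hB)
  have h2 := Finset.card_le_card hKB
  unfold tmN
  rw [Finset.prod_eq_zero hB (wN_zero (by omega)), mul_zero]

end

section

variable {I : Type} [DecidableEq I]

/-- adding a neighbour keeps a set connected. -/
theorem conn_insert {a : I → I → ℕ} (hs : ∀ i j, a i j = a j i) {K : Finset I} (hK : ConnS a K)
    {x y : I} (hy : y ∈ K) (hxy : 0 < a x y) : ConnS a (insert x K) := by
  refine ⟨Finset.insert_nonempty x K, ?_⟩
  intro T hT hTne hTS
  by_cases h1 : (T ∩ K).Nonempty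
  · by_cases h2 : T ∩ K = K
    · have hxT : x ∉ T := by
        intro hx
        apply hTS
        apply Finset.Subset.antisymm hT
        intro z hz
        rcases Finset.mem_insert.1 hz with rfl | hz
        · exact hx
        · rw [← h2] at hz
          exact (Finset.mem_inter.1 hz).1
      refine ⟨y, ?_, x, Finset.mem_insert_self x K, hxT, ?_⟩
      · have hy' := hy
        rw [← h2] at hy'
        exact (Finset.mem_inter.1 hy').1
      · rw [hs]
        exact hxy
    · obtain ⟨i, hi, j, hj, hj', hij⟩ := hK.2 (T ∩ K) Finset.inter_subset_right h1 h2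
      exact ⟨i, (Finset.mem_inter.1 hi).1, j, Finset.mem_insert_of_mem hj,
        fun h => hj' (Finset.mem_inter.2 ⟨h, hj⟩), hij⟩
  · have hz : ∀ z ∈ T, z = x := by
      intro z hz
      rcases Finset.mem_insert.1 (hT hz) with h | h
      · exact h
      · exact absurd ⟨z, Finset.mem_inter.2 ⟨hz, h⟩⟩ h1
    obtain ⟨z, hzT⟩ := hTne
    have hzx := hz z hzT
    subst hzx
    refine ⟨z, hzT, y, Finset.mem_insert_of_mem hy, ?_, hxy⟩
    intro hyT
    exact h1 ⟨y, Finset.mem_inter.2 ⟨hyT, hy⟩⟩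

theorem conn_singleton (a : I → I → ℕ) (x : I) : ConnS a {x} := by
  refine ⟨Finset.singleton_nonempty x, ?_⟩
  intro T hT hTne hTS
  exfalso
  apply hTS
  rcases Finset.subset_singleton_iff.1 hT with h | h
  · rw [h] at hTne
    exact absurd hTne Finset.not_nonempty_empty
  · exact h

/-- images of disjoint subsets. -/
theorem image_mem {n : ℕ} {φ : Fin n → I} (hφ : Function.Injective φ) (S : Finset (Fin n)) (i : Fin n) :
    φ i ∈ S.image φ ↔ i ∈ S := by
  rw [Finset.mem_image]
  constructor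
  · rintro ⟨j, hj, hji⟩
    rw [← hφ hji]
    exact hj
  · intro hi
    exact ⟨i, hi, rfl⟩

end

section

variable {I : Type} [Fintype I] [DecidableEq I]

/-- the cut of `E_8` along its long arm, valid for `g ≤ 5`. -/
theorem E8_cut {a : I → I → ℕ} (hs : ∀ i j, a i j = a j i) {cd : CrossData a} (hmm : MMok a cd)
    {A : Finset I} (hA : FinT a A) {φ : Fin 8 → I} (h : Typ a A 8 2 φ) {g : ℕ} (hg : g ≤ 5) :
    PhN a cd A g = (g : ℚ) * PhN a cd (A.erase (φ 6)) g +
      (g : ℚ) * wN a cd {φ 6} g * PhN a cd (A \ {φ 5, φ 6}) g +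
      (g : ℚ) * wN a cd {φ 5, φ 6} g * PhN a cd (A \ {φ 4, φ 5, φ 6}) g +
      (g : ℚ) * wN a cd {φ 4, φ 5, φ 6} g * PhN a cd (A \ {φ 3, φ 4, φ 5, φ 6}) g +
      (g : ℚ) * wN a cd {φ 3, φ 4, φ 5, φ 6} g * PhN a cd (A \ {φ 2, φ 3, φ 4, φ 5, φ 6}) g := by
  have hinj := h.inj
  have key : ∀ (S : Finset (Fin 8)) (y : Fin 8), y ∉ S → ConnS a (S.image φ) →
      (∀ i ∈ S, ∀ j : Fin 8, j ∉ S → j ≠ y → TT 8 2 i j = 0) →
      ∑ M ∈ A.powerset.filter (fun M => φ y ∈ M ∧ Disjoint (S.image φ) M), tmN a cd A g M =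
        (g : ℚ) * wN a cd (S.image φ) g * PhN a cd (A \ insert (φ y) (S.image φ)) g := by
    intro S y hy hc hadj
    apply PhN_cut hs cd (φ y)
    · intro x hx
      obtain ⟨i, _, rfl⟩ := Finset.mem_image.1 hx
      exact h.mem i
    · exact h.mem y
    · rw [image_mem hinj]
      exact hy
    · intro x hx z hz hzK hzy
      obtain ⟨i, hi, rfl⟩ := Finset.mem_image.1 hx
      obtain ⟨j, rfl⟩ := h.surj z hz
      rw [image_mem hinj] at hzK
      rw [h.adj]
      exact hadj i hi j hzK (fun hc' => hzy (by rw [hc']))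
    · exact hc
  obtain ⟨y, hy⟩ : ∃ y : ℕ → I, y = fun i => φ ⟨6 - i, by omega⟩ := ⟨_, rfl⟩
  have y0 : y 0 = φ 6 := by rw [hy]; rfl
  have y1 : y 1 = φ 5 := by rw [hy]; rfl
  have y2 : y 2 = φ 4 := by rw [hy]; rfl
  have y3 : y 3 = φ 3 := by rw [hy]; rfl
  have y4 : y 4 = φ 2 := by rw [hy]; rfl
  have K0 : (Finset.range 0).image y = ∅ := by simp
  have K1 : (Finset.range 1).image y = {φ 6} := by
    rw [Finset.range_one, Finset.image_singleton, y0]
  have K2 : (Finset.range 2).image y = {φ 5, φ 6} := by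
    rw [Finset.range_add_one, Finset.image_insert, K1, y1]
  have K3 : (Finset.range 3).image y = {φ 4, φ 5, φ 6} := by
    rw [Finset.range_add_one, Finset.image_insert, K2, y2]
  have K4 : (Finset.range 4).image y = {φ 3, φ 4, φ 5, φ 6} := by
    rw [Finset.range_add_one, Finset.image_insert, K3, y3]
  have K5 : (Finset.range 5).image y = {φ 2, φ 3, φ 4, φ 5, φ 6} := by
    rw [Finset.range_add_one, Finset.image_insert, K4, y4]
  have L1 : ({6} : Finset (Fin 8)).image φ = {φ 6} := by simp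
  have L2 : ({5, 6} : Finset (Fin 8)).image φ = {φ 5, φ 6} := by simp [Finset.image_insert]
  have L3 : ({4, 5, 6} : Finset (Fin 8)).image φ = {φ 4, φ 5, φ 6} := by simp [Finset.image_insert]
  have L4 : ({3, 4, 5, 6} : Finset (Fin 8)).image φ = {φ 3, φ 4, φ 5, φ 6} := by
    simp [Finset.image_insert]
  have L5 : ({2, 3, 4, 5, 6} : Finset (Fin 8)).image φ = {φ 2, φ 3, φ 4, φ 5, φ 6} := by
    simp [Finset.image_insert]
  have C1 : ConnS a (({6} : Finset (Fin 8)).image φ) := by
    rw [L1]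
    exact conn_singleton a (φ 6)
  have C2 : ConnS a (({5, 6} : Finset (Fin 8)).image φ) := by
    rw [L2, ← L1]
    exact conn_insert hs C1 (y := φ 6) (by simp) (by rw [h.adj]; decide)
  have C3 : ConnS a (({4, 5, 6} : Finset (Fin 8)).image φ) := by
    rw [L3, ← L2]
    exact conn_insert hs C2 (y := φ 5) (by rw [L2]; simp) (by rw [h.adj]; decide)
  have C4 : ConnS a (({3, 4, 5, 6} : Finset (Fin 8)).image φ) := by
    rw [L4, ← L3]
    exact conn_insert hs C3 (y := φ 4) (by rw [L3]; simp) (by rw [h.adj]; decide)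
  have C5 : ConnS a (({2, 3, 4, 5, 6} : Finset (Fin 8)).image φ) := by
    rw [L5, ← L4]
    exact conn_insert hs C4 (y := φ 3) (by rw [L4]; simp) (by rw [h.adj]; decide)
  rw [PhN_split a cd A y g 5]
  have hlast : ∑ M ∈ A.powerset.filter (fun M => Disjoint ((Finset.range 5).image y) M),
      tmN a cd A g M = 0 := by
    apply Finset.sum_eq_zero
    intro M hM
    rw [Finset.mem_filter, K5, ← L5] at hM
    refine tmN_zero hs hmm hA (K := ({2, 3, 4, 5, 6} : Finset (Fin 8)).image φ) ?_ ?_ hM.2 ?_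
    · exact C5
    · intro x hx
      obtain ⟨i, _, rfl⟩ := Finset.mem_image.1 hx
      exact h.mem i
    · rw [Finset.card_image_of_injective _ hinj]
      exact hg
  rw [hlast, add_zero]
  rw [Finset.sum_range_succ, Finset.sum_range_succ, Finset.sum_range_succ, Finset.sum_range_succ,
    Finset.sum_range_succ, Finset.sum_range_zero, zero_add]
  rw [K0, K1, K2, K3, K4, y0, y1, y2, y3, y4]
  have t0 : ∑ M ∈ A.powerset.filter (fun M => φ 6 ∈ M ∧ Disjoint (∅ : Finset I) M),
      tmN a cd A g M = (g : ℚ) * PhN a cd (A.erase (φ 6)) g := by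
    rw [← PhN_cut0 cd (φ 6) (h.mem 6) g]
    refine Finset.sum_congr ?_ fun _ _ => rfl
    ext M
    simp
  have t1 := key {6} 5 (by decide) C1 (by decide)
  have t2 := key {5, 6} 4 (by decide) C2 (by decide)
  have t3 := key {4, 5, 6} 3 (by decide) C3 (by decide)
  have t4 := key {3, 4, 5, 6} 2 (by decide) C4 (by decide)
  rw [L1] at t1
  rw [L2] at t2
  rw [L3] at t3
  rw [L4] at t4
  rw [t0, t1, t2, t3, t4]

end

end Pool.H88.Num

end

section

/-!
KAC ADE numbers, class zero of `E_8`: the values at `1, …, 5` from the values of the smaller types.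
-/

set_option autoImplicit false

namespace Pool.H88.Num

open scoped BigOperators
open Pool.Agent.H27.KAC
open Pool.H88.KA (Typ Std cox MMok mm_eq TT typ_exists)

section

variable {I : Type} [DecidableEq I]

/-- the type of a set of vertices. -/
theorem typ_img {a : I → I → ℕ} {A : Finset I} {n c m c' : ℕ} {φ : Fin n → I}
    (h : Typ a A n c φ) (S : Finset (Fin n)) (e : Fin m → Fin n) (he : ∀ i j, e i = e j → i = j)
    (hadj : ∀ i j, TT n c (e i) (e j) = TT m c' i j) (hS : ∀ j, j ∈ S ↔ ∃ i, e i = j) :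
    Typ a (S.image φ) m c' (fun i => φ (e i)) := by
  refine ⟨fun i j hij => he i j (h.inj hij), fun i => ?_, fun x hx => ?_, fun i j => ?_⟩
  · rw [image_mem h.inj]
    exact (hS _).2 ⟨i, rfl⟩
  · obtain ⟨j, hj, rfl⟩ := Finset.mem_image.1 hx
    obtain ⟨i, hi⟩ := (hS j).1 hj
    exact ⟨i, by rw [hi]⟩
  · rw [h.adj]
    exact hadj i j

/-- the type of the complement of a set of vertices. -/
theorem typ_compl {a : I → I → ℕ} {A : Finset I} {n c m c' : ℕ} {φ : Fin n → I}
    (h : Typ a A n c φ) (S : Finset (Fin n)) (e : Fin m → Fin n) (he : ∀ i j, e i = e j → i = j)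
    (hadj : ∀ i j, TT n c (e i) (e j) = TT m c' i j) (hS : ∀ j, j ∉ S ↔ ∃ i, e i = j) :
    Typ a (A \ S.image φ) m c' (fun i => φ (e i)) := by
  have h1 : A \ S.image φ = (Finset.univ \ S).image φ := by
    ext x
    rw [Finset.mem_sdiff]
    constructor
    · rintro ⟨hx, hxS⟩
      obtain ⟨j, rfl⟩ := h.surj x hx
      rw [image_mem h.inj] at hxS
      exact Finset.mem_image_of_mem φ (Finset.mem_sdiff.2 ⟨Finset.mem_univ _, hxS⟩)
    · intro hx
      obtain ⟨j, hj, rfl⟩ := Finset.mem_image.1 hx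
      rw [image_mem h.inj]
      exact ⟨h.mem j, (Finset.mem_sdiff.1 hj).2⟩
  rw [h1]
  refine typ_img h _ e he hadj fun j => ?_
  rw [Finset.mem_sdiff, ← hS j]
  simp

end

section

variable {I : Type} [Fintype I] [DecidableEq I]

/-- the values of the smaller types which are needed. -/
structure SmallVals (a : I → I → ℕ) (cd : CrossData a) : Prop where
  an : ∀ (N : Finset I) (n : ℕ) (φ : Fin n → I), FinT a N → 1 ≤ n → Typ a N n (n - 2) φ →
    ∀ g : ℕ, cn a cd N (fun _ => 0) g = (Nat.choose (g + n) n : ℚ)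
  dan : ∀ (N : Finset I) (n : ℕ) (φ : Fin n → I), FinT a N → 1 ≤ n → Typ a N n (n - 2) φ →
    dt a N = n + 1
  d5 : ∀ (N : Finset I) (φ : Fin 5 → I), FinT a N → Typ a N 5 2 φ →
    cn a cd N (fun _ => 0) 1 = 4 ∧ cn a cd N (fun _ => 0) 2 = 12 ∧ cn a cd N (fun _ => 0) 3 = 28 ∧
      cn a cd N (fun _ => 0) 4 = 58 ∧ cn a cd N (fun _ => 0) 5 = 108
  dd5 : ∀ (N : Finset I) (φ : Fin 5 → I), FinT a N → Typ a N 5 2 φ → dt a N = 4
  e6 : ∀ (N : Finset I) (φ : Fin 6 → I), FinT a N → Typ a N 6 2 φ →
    cn a cd N (fun _ => 0) 1 = 3 ∧ cn a cd N (fun _ => 0) 2 = 9 ∧ cn a cd N (fun _ => 0) 3 = 20 ∧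
      cn a cd N (fun _ => 0) 4 = 42 ∧ cn a cd N (fun _ => 0) 5 = 78
  de6 : ∀ (N : Finset I) (φ : Fin 6 → I), FinT a N → Typ a N 6 2 φ → dt a N = 3
  e7 : ∀ (N : Finset I) (φ : Fin 7 → I), FinT a N → Typ a N 7 2 φ →
    cn a cd N (fun _ => 0) 1 = 2 ∧ cn a cd N (fun _ => 0) 2 = 6 ∧ cn a cd N (fun _ => 0) 3 = 12 ∧
      cn a cd N (fun _ => 0) 4 = 25 ∧ cn a cd N (fun _ => 0) 5 = 44
  de7 : ∀ (N : Finset I) (φ : Fin 7 → I), FinT a N → Typ a N 7 2 φ → dt a N = 2

/-- the normalised numbers of a typed set. -/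
theorem PhN_of_cn {a : I → I → ℕ} (hs : ∀ i j, a i j = a j i) (cd : CrossData a) {N : Finset I}
    (hN : FinT a N) {g : ℕ} (hg : 1 ≤ g) {c d : ℚ} (hc : cn a cd N (fun _ => 0) g = c)
    (hd : dt a N = d) : PhN a cd N g = c / d := by
  have h1 := cn_eq_PhN hs cd hN g hg
  have h2 := dt_ne_zero hN
  rw [← hc, ← hd, h1]
  field_simp

/-- the weights of the chains. -/
theorem wN_chain {a : I → I → ℕ} {cd : CrossData a} (hmm : MMok a cd)
    (hv : SmallVals a cd) (heps : ∀ A q, (∀ x ∈ A, IsZ (q x)) → cd.eps A q = 1)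
    {N : Finset I} {n : ℕ} {φ : Fin n → I} (hN : FinT a N) (hcN : ConnS a N) (hn : 1 ≤ n)
    (hT : Typ a N n (n - 2) φ) {g : ℕ} (hg : 1 ≤ g) :
    wN a cd N g = (-1) ^ n * (Nat.choose (g - 1) n : ℚ) / (n + 1) := by
  have hS : Std n (n - 2) := by
    unfold Std
    omega
  have hm : cd.mm N = n + 1 := by
    rw [mm_eq hmm hN hcN hT hS]
    unfold cox
    split_ifs <;> omega
  unfold wN upw
  rw [hm, hT.card, hv.dan N n φ hN hn hT, heps N _ (fun _ _ => ⟨0, by simp⟩)]
  split_ifs with h
  · rw [hv.an N n φ hN hn hT, one_mul]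
    have e : g - (n + 1) + n = g - 1 := by omega
    rw [e]
  · rw [Nat.choose_eq_zero_of_lt (by omega)]
    simp

theorem E8_vals {a : I → I → ℕ} (hs : ∀ i j, a i j = a j i) {cd : CrossData a} (hmm : MMok a cd)
    (hv : SmallVals a cd) (heps : ∀ A q, (∀ x ∈ A, IsZ (q x)) → cd.eps A q = 1)
    {A : Finset I} (hA : FinT a A) {φ : Fin 8 → I} (h : Typ a A 8 2 φ) (hd8 : dt a A = 1) :
    cn a cd A (fun _ => 0) 1 = 1 ∧ cn a cd A (fun _ => 0) 2 = 3 ∧ cn a cd A (fun _ => 0) 3 = 5 ∧
      cn a cd A (fun _ => 0) 4 = 10 ∧ cn a cd A (fun _ => 0) 5 = 15 := by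
  have hinj := h.inj
  have L1 : ({6} : Finset (Fin 8)).image φ = {φ 6} := by simp
  have L2 : ({5, 6} : Finset (Fin 8)).image φ = {φ 5, φ 6} := by simp [Finset.image_insert]
  have L3 : ({4, 5, 6} : Finset (Fin 8)).image φ = {φ 4, φ 5, φ 6} := by simp [Finset.image_insert]
  have L4 : ({3, 4, 5, 6} : Finset (Fin 8)).image φ = {φ 3, φ 4, φ 5, φ 6} := by
    simp [Finset.image_insert]
  have L5 : ({2, 3, 4, 5, 6} : Finset (Fin 8)).image φ = {φ 2, φ 3, φ 4, φ 5, φ 6} := by
    simp [Finset.image_insert]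
  have hsub : ∀ S : Finset (Fin 8), S.image φ ⊆ A := by
    intro S x hx
    obtain ⟨i, _, rfl⟩ := Finset.mem_image.1 hx
    exact h.mem i
  -- the types of the complements
  have T7 : Typ a (A.erase (φ 6)) 7 2 (fun i => φ (![0, 1, 2, 3, 4, 5, 7] i)) := by
    have := typ_compl (c' := 2) h {6} ![0, 1, 2, 3, 4, 5, 7] (by decide) (by decide) (by decide)
    rw [L1, Finset.sdiff_singleton_eq_erase] at this
    exact this
  have T6 : Typ a (A \ {φ 5, φ 6}) 6 2 (fun i => φ (![0, 1, 2, 3, 4, 7] i)) := by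
    have := typ_compl (c' := 2) h {5, 6} ![0, 1, 2, 3, 4, 7] (by decide) (by decide) (by decide)
    rw [L2] at this
    exact this
  have T5 : Typ a (A \ {φ 4, φ 5, φ 6}) 5 2 (fun i => φ (![0, 1, 2, 3, 7] i)) := by
    have := typ_compl (c' := 2) h {4, 5, 6} ![0, 1, 2, 3, 7] (by decide) (by decide) (by decide)
    rw [L3] at this
    exact this
  have T4 : Typ a (A \ {φ 3, φ 4, φ 5, φ 6}) 4 2 (fun i => φ (![0, 1, 2, 7] i)) := by
    have := typ_compl (c' := 2) h {3, 4, 5, 6} ![0, 1, 2, 7] (by decide) (by decide) (by decide)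
    rw [L4] at this
    exact this
  have U2 : Typ a (({0, 1} : Finset (Fin 8)).image φ) 2 0 (fun i => φ (![0, 1] i)) :=
    typ_img (c' := 0) h {0, 1} ![0, 1] (by decide) (by decide) (by decide)
  have U1 : Typ a (({7} : Finset (Fin 8)).image φ) 1 0 (fun i => φ (![7] i)) :=
    typ_img (c' := 0) h {7} ![7] (by decide) (by decide) (by decide)
  have W1 : Typ a {φ 6} 1 0 (fun i => φ (![6] i)) := by
    have := typ_img (c' := 0) h {6} ![6] (by decide) (by decide) (by decide)
    rw [L1] at this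
    exact this
  have W2 : Typ a {φ 5, φ 6} 2 0 (fun i => φ (![5, 6] i)) := by
    have := typ_img (c' := 0) h {5, 6} ![5, 6] (by decide) (by decide) (by decide)
    rw [L2] at this
    exact this
  have W3 : Typ a {φ 4, φ 5, φ 6} 3 1 (fun i => φ (![4, 5, 6] i)) := by
    have := typ_img (c' := 1) h {4, 5, 6} ![4, 5, 6] (by decide) (by decide) (by decide)
    rw [L3] at this
    exact this
  have W4 : Typ a {φ 3, φ 4, φ 5, φ 6} 4 2 (fun i => φ (![3, 4, 5, 6] i)) := by
    have := typ_img (c' := 2) h {3, 4, 5, 6} ![3, 4, 5, 6] (by decide) (by decide) (by decide)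
    rw [L4] at this
    exact this
  -- the last complement
  have hlast : ∀ g, PhN a cd (A \ {φ 2, φ 3, φ 4, φ 5, φ 6}) g =
      PhN a cd (({0, 1} : Finset (Fin 8)).image φ) g * PhN a cd (({7} : Finset (Fin 8)).image φ) g := by
    intro g
    rw [← PhN_union hs cd]
    · congr 1
      rw [← L5]
      ext x
      rw [Finset.mem_sdiff, Finset.mem_union]
      constructor
      · rintro ⟨hx, hx'⟩
        obtain ⟨j, rfl⟩ := h.surj x hx
        rw [image_mem hinj] at hx'
        rw [image_mem hinj, image_mem hinj]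
        clear hx
        revert hx'
        revert j
        decide
      · intro hx
        have hx1 : x ∈ A := by
          rcases hx with hx | hx
          · exact hsub _ hx
          · exact hsub _ hx
        refine ⟨hx1, ?_⟩
        obtain ⟨j, rfl⟩ := h.surj x hx1
        rw [image_mem hinj, image_mem hinj] at hx
        rw [image_mem hinj]
        clear hx1
        revert hx
        revert j
        decide
    · rw [Finset.disjoint_left]
      intro x hx hx'
      obtain ⟨j, rfl⟩ := h.surj x (hsub _ hx)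
      rw [image_mem hinj] at hx hx'
      revert hx hx'
      revert j
      decide
    · intro x hx z hz
      obtain ⟨i, rfl⟩ := h.surj x (hsub _ hx)
      obtain ⟨j, rfl⟩ := h.surj z (hsub _ hz)
      rw [image_mem hinj] at hx hz
      rw [h.adj]
      revert hx hz
      revert i j
      decide
  have C1 : ConnS a {φ 6} := conn_singleton a (φ 6)
  have C2 : ConnS a {φ 5, φ 6} := conn_insert hs C1 (y := φ 6) (by simp) (by rw [h.adj]; decide)
  have C3 : ConnS a {φ 4, φ 5, φ 6} :=
    conn_insert hs C2 (y := φ 5) (by simp) (by rw [h.adj]; decide)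
  have C4 : ConnS a {φ 3, φ 4, φ 5, φ 6} :=
    conn_insert hs C3 (y := φ 4) (by simp) (by rw [h.adj]; decide)
  have F1 : FinT a {φ 6} := hA.mono (by rw [← L1]; exact hsub _)
  have F2 : FinT a {φ 5, φ 6} := hA.mono (by rw [← L2]; exact hsub _)
  have F3 : FinT a {φ 4, φ 5, φ 6} := hA.mono (by rw [← L3]; exact hsub _)
  have F4 : FinT a {φ 3, φ 4, φ 5, φ 6} := hA.mono (by rw [← L4]; exact hsub _)
  have G7 : FinT a (A.erase (φ 6)) := hA.mono (Finset.erase_subset _ _)
  have G6 : FinT a (A \ {φ 5, φ 6}) := hA.mono Finset.sdiff_subset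
  have G5 : FinT a (A \ {φ 4, φ 5, φ 6}) := hA.mono Finset.sdiff_subset
  have G4 : FinT a (A \ {φ 3, φ 4, φ 5, φ 6}) := hA.mono Finset.sdiff_subset
  have G2 : FinT a (({0, 1} : Finset (Fin 8)).image φ) := hA.mono (hsub _)
  have G1 : FinT a (({7} : Finset (Fin 8)).image φ) := hA.mono (hsub _)
  obtain ⟨a1, a2, a3, a4, a5⟩ := hv.e7 _ _ G7 T7
  obtain ⟨b1, b2, b3, b4, b5⟩ := hv.e6 _ _ G6 T6
  obtain ⟨c1, c2, c3, c4, c5⟩ := hv.d5 _ _ G5 T5
  have d7 := hv.de7 _ _ G7 T7
  have d6 := hv.de6 _ _ G6 T6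
  have d5 := hv.dd5 _ _ G5 T5
  have main : ∀ g, 1 ≤ g → g ≤ 5 → cn a cd A (fun _ => 0) g =
      (g : ℚ) * (cn a cd (A.erase (φ 6)) (fun _ => 0) g / 2) +
      (g : ℚ) * ((-1) ^ 1 * (Nat.choose (g - 1) 1 : ℚ) / ((1 : ℕ) + 1)) *
        (cn a cd (A \ {φ 5, φ 6}) (fun _ => 0) g / 3) +
      (g : ℚ) * ((-1) ^ 2 * (Nat.choose (g - 1) 2 : ℚ) / ((2 : ℕ) + 1)) *
        (cn a cd (A \ {φ 4, φ 5, φ 6}) (fun _ => 0) g / 4) +
      (g : ℚ) * ((-1) ^ 3 * (Nat.choose (g - 1) 3 : ℚ) / ((3 : ℕ) + 1)) *
        ((Nat.choose (g + 4) 4 : ℚ) / ((4 : ℕ) + 1)) +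
      (g : ℚ) * ((-1) ^ 4 * (Nat.choose (g - 1) 4 : ℚ) / ((4 : ℕ) + 1)) *
        (((Nat.choose (g + 2) 2 : ℚ) / ((2 : ℕ) + 1)) *
          ((Nat.choose (g + 1) 1 : ℚ) / ((1 : ℕ) + 1))) := by
    intro g hg1 hg5
    rw [cn_eq_PhN hs cd hA g hg1, hd8, one_mul, E8_cut hs hmm hA h hg5, hlast]
    rw [wN_chain hmm hv heps F1 C1 (by norm_num) W1 hg1,
      wN_chain hmm hv heps F2 C2 (by norm_num) W2 hg1,
      wN_chain hmm hv heps F3 C3 (by norm_num) W3 hg1,
      wN_chain hmm hv heps F4 C4 (by norm_num) W4 hg1]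
    rw [PhN_of_cn hs cd G7 hg1 rfl d7, PhN_of_cn hs cd G6 hg1 rfl d6, PhN_of_cn hs cd G5 hg1 rfl d5,
      PhN_of_cn hs cd G4 hg1 (hv.an _ _ _ G4 (by norm_num) T4 g)
        (hv.dan _ _ _ G4 (by norm_num) T4),
      PhN_of_cn hs cd G2 hg1 (hv.an _ _ _ G2 (by norm_num) U2 g)
        (hv.dan _ _ _ G2 (by norm_num) U2),
      PhN_of_cn hs cd G1 hg1 (hv.an _ _ _ G1 (by norm_num) U1 g)
        (hv.dan _ _ _ G1 (by norm_num) U1)]
  refine ⟨?_, ?_, ?_, ?_, ?_⟩
  · rw [main 1 (by norm_num) (by norm_num), a1, b1, c1]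
    norm_num [Nat.choose]
  · rw [main 2 (by norm_num) (by norm_num), a2, b2, c2]
    norm_num [Nat.choose]
  · rw [main 3 (by norm_num) (by norm_num), a3, b3, c3]
    norm_num [Nat.choose]
  · rw [main 4 (by norm_num) (by norm_num), a4, b4, c4]
    norm_num [Nat.choose]
  · rw [main 5 (by norm_num) (by norm_num), a5, b5, c5]
    norm_num [Nat.choose]

end

end Pool.H88.Num

end

section

/-!
KAC ADE numbers: the small values, positivity of class zero for `E_7` and `E_8`.
-/

set_option autoImplicit false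

namespace Pool.Agent.H40.NUM

open scoped BigOperators
open Pool.Agent.H27.KAC Pool.H88.Num
open Pool.H88.KA (Typ Std cox MMok mm_eq TT typ_exists)
open Pool.H27.PD (PC QQ)
open Polynomial

section

variable {I : Type} [Fintype I] [DecidableEq I]

/-- the small values. -/
theorem smallVals {a : I → I → ℕ} (hs : ∀ i j, a i j = a j i) {cd : CrossData a} (hmm : MMok a cd)
    (hR : RTnum a cd) (heps : ∀ A q, (∀ x ∈ A, IsZ (q x)) → cd.eps A q = 1) :
    SmallVals a cd := by
  have hconn : ∀ (N : Finset I) (n : ℕ) (φ : Fin n → I), 1 ≤ n → Typ a N n (n - 2) φ →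
      ConnS a N := by
    intro N n φ hn h
    by_cases h2 : 2 ≤ n
    · exact typ_conn h (by omega)
    · have h1 : n = 1 := by omega
      subst h1
      have h3 : N = {φ 0} := by
        ext x
        rw [Finset.mem_singleton]
        constructor
        · intro hx
          obtain ⟨i, rfl⟩ := h.surj x hx
          congr 1
          exact Subsingleton.elim _ _
        · rintro rfl
          exact h.mem 0
      rw [h3]
      exact conn_singleton a (φ 0)
  have han : ∀ (N : Finset I) (n : ℕ) (φ : Fin n → I), FinT a N → 1 ≤ n → Typ a N n (n - 2) φ →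
      ∀ g : ℕ, cn a cd N (fun _ => 0) g = (Nat.choose (g + n) n : ℚ) := by
    intro N n φ hN hn h g
    refine val_A hmm hR heps hN (hconn N n φ hn h) h ?_ ?_ g
    · unfold Std
      omega
    · unfold cox
      split_ifs <;> omega
  refine ⟨han, ?_, ?_, ?_, ?_, ?_, ?_, ?_⟩
  · intro N n φ hN hn h
    rw [← N1_c hs cd hN, han N n φ hN hn h 1]
    rw [Nat.add_comm 1 n, Nat.choose_succ_self_right]
    push_cast
    ring
  · intro N φ hN h
    have h1 := Pool.H27.PD.D5_c (pol_D5 hs hmm hR heps hN h).mul rfl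
    exact h1.2
  · intro N φ hN h
    rw [dt_typ h, Dm_D5]
    norm_num
  · intro N φ hN h
    have h1 := Pool.H27.PD.E6_c (pol_E6 hs hmm hR heps hN h).mul rfl
    exact h1.2
  · intro N φ hN h
    rw [dt_typ h, Dm_E6]
    norm_num
  · intro N φ hN h
    have h1 := Pool.H27.PD.E7_c (pol_E7 hs hmm hR heps hN h).mul rfl
    exact h1.2
  · intro N φ hN h
    rw [dt_typ h, Dm_E7]
    norm_num

theorem E78_nonneg' {a : I → I → ℕ} (hs : ∀ i j, a i j = a j i) (cd : CrossData a)
    (hmm : MMok a cd) (hR : RTnum a cd)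
    (heps : ∀ A q, (∀ x ∈ A, IsZ (q x)) → cd.eps A q = 1)
    {A : Finset I} (hA : FinT a A) {n : ℕ} {φ : Fin n → I} (h : Typ a A n 2 φ)
    (hn : n = 7 ∨ n = 8) (g : ℕ) : 0 ≤ cn a cd A (fun _ => 0) g := by
  rcases hn with hn | hn
  · subst hn
    exact Pool.H27.PD.E7_pos (pol_E7 hs hmm hR heps hA h).mul rfl g
  · subst hn
    have hd8 : dt a A = 1 := by
      rw [dt_typ h, Dm_E8]
      norm_num
    obtain ⟨c1, c2, c3, c4, c5⟩ := E8_vals hs hmm (smallVals hs hmm hR heps) heps hA h hd8
    exact Pool.H27.PD.E8_pos (pol_E8 hs hmm hR heps hA h c1 c2 c3 c4 c5).mul rfl g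

end

end Pool.Agent.H40.NUM

end

section

/-!
KAC ADE numbers, CN7: class zero of `E_7` and `E_8`.
-/

set_option autoImplicit false

namespace Pool.H88.Num

open scoped BigOperators
open Pool.Agent.H27.KAC
open Pool.H88.KA (Typ Std cox MMok mm_eq)

section

variable {I : Type} [Fintype I] [DecidableEq I]

theorem E78_nonneg {a : I → I → ℕ} (hs : ∀ i j, a i j = a j i) (cd : CrossData a)
    (hmm : MMok a cd) (hR : RTnum a cd)
    (heps : ∀ A q, (∀ x ∈ A, IsZ (q x)) → cd.eps A q = 1)
    {A : Finset I} (hA : FinT a A) (_hc : ConnS a A) {n : ℕ} {φ : Fin n → I} (h : Typ a A n 2 φ)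
    (hn : n = 7 ∨ n = 8) (g : ℕ) : 0 ≤ cn a cd A (fun _ => 0) g :=
  Pool.Agent.H40.NUM.E78_nonneg' hs cd hmm hR heps hA h hn g

end

end Pool.H88.Num

end

section

/-!
KAC ADE numbers, CN9: the response numbers are nonnegative.
-/

set_option autoImplicit false

namespace Pool.H88.Num

open scoped BigOperators
open Pool.Agent.H27.KAC
open Pool.H88.KA (Typ Std cox MMok mm_eq TT TT_sum typ_exists cqN_eq)

/-- the vector on the standard graph. -/
noncomputable def VV {I : Type} (n : ℕ) (φ : Fin n → I) (q : I → ℚ) (p : ℕ) : ℚ :=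
  if h : p < n then q (φ ⟨p, h⟩) else 0

/-- neighbour sums over `ℚ`. -/
theorem TT_sumQ (n c : ℕ) (hc : c + 2 ≤ n) (V : ℕ → ℚ) (i : Fin n) :
    ∑ j : Fin n, (TT n c i j : ℚ) * V j.1 = NBq n c V i.1 := by
  have h1 : ∀ j : Fin n, (TT n c i j : ℚ) * V j.1 =
      (if i.1 + 1 = n then (if j.1 = c then V j.1 else 0) else 0) +
      (if i.1 + 1 = n then 0 else
        ((if j.1 = i.1 - 1 then (if 1 ≤ i.1 then V j.1 else 0) else 0) +
        (if j.1 = i.1 + 1 then (if i.1 + 3 ≤ n then V j.1 else 0) else 0) +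
        (if j.1 = n - 1 then (if i.1 = c then V j.1 else 0) else 0))) := by
    intro j
    have hi := i.2
    have hj := j.2
    have h2 := TT_sum n c hc (fun p => if p = j.1 then 1 else 0) i
    have h3 : ∑ x : Fin n, (TT n c i x : ℤ) * (fun p => if p = j.1 then (1 : ℤ) else 0) x.1 =
        (TT n c i j : ℤ) := by
      rw [Finset.sum_eq_single j]
      · simp
      · intro b _ hb
        have : b.1 ≠ j.1 := fun h => hb (Fin.ext h)
        simp [this]
      · intro h
        exact absurd (Finset.mem_univ _) h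
    rw [h3] at h2
    have h4 : (TT n c i j : ℚ) = ((TT n c i j : ℤ) : ℚ) := by push_cast; rfl
    rw [h4, h2]
    by_cases c1 : i.1 + 1 = n
    · simp only [if_pos c1]
      by_cases c2 : c = j.1
      · simp [c2]
      · have c3 : ¬ j.1 = c := fun h => c2 h.symm
        simp [c2, c3]
    · simp only [if_neg c1]
      by_cases d1 : j.1 = i.1 - 1
      · by_cases e1 : 1 ≤ i.1
        · have f1 : ¬ j.1 = i.1 + 1 := by omega
          have f2 : ¬ i.1 + 1 = j.1 := by omega
          have f3 : ¬ j.1 = n - 1 := by omega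
          have f4 : ¬ n - 1 = j.1 := by omega
          simp [f1, f2, f3, f4, e1, d1.symm]
        · have f0 : j.1 = i.1 := by omega
          have f1 : ¬ j.1 = i.1 + 1 := by omega
          have f2 : ¬ i.1 + 1 = j.1 := by omega
          have f3 : ¬ j.1 = n - 1 := by omega
          have f4 : ¬ n - 1 = j.1 := by omega
          simp [f1, f2, f3, f4, e1]
      · have f0 : ¬ i.1 - 1 = j.1 := fun h => d1 h.symm
        by_cases d2 : j.1 = i.1 + 1
        · by_cases e1 : i.1 + 3 ≤ n
          · have f3 : ¬ j.1 = n - 1 := by omega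
            have f4 : ¬ n - 1 = j.1 := by omega
            simp [d1, f0, f3, f4, e1, d2.symm]
          · have f3 : j.1 = n - 1 := by omega
            simp [d1, f0, e1, f3.symm]
        · have f2 : ¬ i.1 + 1 = j.1 := fun h => d2 h.symm
          by_cases d3 : j.1 = n - 1
          · simp [d1, f0, d2, f2, d3.symm]
          · have f3 : ¬ n - 1 = j.1 := fun h => d3 h.symm
            simp [d1, f0, d2, f2, d3, f3]
  rw [Finset.sum_congr rfl fun j _ => h1 j, Finset.sum_add_distrib]
  have hi := i.2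
  have hsingle : ∀ (t : ℕ) (F : ℕ → ℚ), t < n → (∑ j : Fin n, if j.1 = t then F j.1 else 0) = F t := by
    intro t F ht
    rw [Finset.sum_eq_single ⟨t, ht⟩]
    · simp
    · intro j _ hj
      rw [if_neg]
      intro h
      exact hj (Fin.ext h)
    · intro h
      exact absurd (Finset.mem_univ _) h
  unfold NBq
  by_cases h : i.1 + 1 = n
  · simp only [if_pos h, Finset.sum_const_zero, add_zero]
    exact hsingle c V (by omega)
  · simp only [if_neg h, Finset.sum_const_zero, zero_add, Finset.sum_add_distrib]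
    rw [hsingle (i.1 - 1) (fun t => if 1 ≤ i.1 then V t else 0) (by omega),
      hsingle (i.1 + 1) (fun t => if i.1 + 3 ≤ n then V t else 0) (by omega),
      hsingle (n - 1) (fun t => if i.1 = c then V t else 0) (by omega)]

section

variable {I : Type} [Fintype I] [DecidableEq I]

open Classical in
theorem e0_eq {a : I → I → ℕ} {A : Finset I} {n c : ℕ} {φ : Fin n → I} (h : Typ a A n c φ)
    (q : I → ℚ) : e0 n (VV n φ q) = (A.filter (fun x => IsZ (q x))).card := by
  unfold e0
  apply Finset.card_bij (fun p hp => φ ⟨p, Finset.mem_range.1 (Finset.mem_filter.1 hp).1⟩)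
  · intro p hp
    rw [Finset.mem_filter, Finset.mem_range] at hp
    rw [Finset.mem_filter]
    refine ⟨h.mem _, ?_⟩
    have h1 := hp.2
    unfold VV at h1
    rw [dif_pos hp.1] at h1
    exact h1
  · intro p hp p' hp' hpp
    exact congrArg Fin.val (h.inj hpp)
  · intro x hx
    rw [Finset.mem_filter] at hx
    obtain ⟨i, rfl⟩ := h.surj x hx.1
    refine ⟨i.1, ?_, rfl⟩
    rw [Finset.mem_filter, Finset.mem_range]
    refine ⟨i.2, ?_⟩
    unfold VV
    rw [dif_pos i.2]
    exact hx.2

theorem ordA_of {a : I → I → ℕ} {A : Finset I} {n c : ℕ} {φ : Fin n → I} (h : Typ a A n c φ)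
    (q : I → ℚ) (r : ℕ) (hr : Ord n (VV n φ q) r) : OrdA A q r := by
  refine ⟨hr.1, fun k => ?_⟩
  rw [← hr.2 k]
  constructor
  · intro hk p hp
    unfold VV
    rw [dif_pos hp]
    exact hk _ (h.mem _)
  · intro hk x hx
    obtain ⟨i, rfl⟩ := h.surj x hx
    have := hk i.1 i.2
    unfold VV at this
    rw [dif_pos i.2] at this
    exact this

theorem wtN_of {a : I → I → ℕ} {A : Finset I} {n c : ℕ} {φ : Fin n → I} (h : Typ a A n c φ)
    (hc : c + 2 ≤ n) (q : I → ℚ) (hq : WtL a A q) : WtN n c (VV n φ q) := by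
  intro p hp
  have h1 := hq (φ ⟨p, hp⟩) (h.mem _)
  rw [cqN_eq a A q _ (h.mem _)] at h1
  have h2 : ∑ y ∈ A, (a (φ ⟨p, hp⟩) y : ℚ) * q y =
      ∑ j : Fin n, (TT n c ⟨p, hp⟩ j : ℚ) * VV n φ q j.1 := by
    symm
    apply Finset.sum_bij (fun (j : Fin n) _ => φ j)
    · intro j _
      exact h.mem j
    · intro j _ j' _ hjj
      exact h.inj hjj
    · intro y hy
      obtain ⟨i, hi⟩ := h.surj y hy
      exact ⟨i, Finset.mem_univ _, hi⟩
    · intro j _
      unfold VV
      rw [dif_pos j.2, ← h.adj]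
  rw [h2, TT_sumQ n c hc] at h1
  have h3 : VV n φ q p = q (φ ⟨p, hp⟩) := by
    unfold VV
    rw [dif_pos hp]
  rw [h3]
  exact h1

open Classical in
/-- the numerical facts. -/
theorem order_bound {a : I → I → ℕ} {cd : CrossData a}
    (hmm : MMok a cd) {A : Finset I} (hA : FinT a A) (hc : ConnS a A) {n c : ℕ} {φ : Fin n → I}
    (h : Typ a A n c φ) (hS : Std n c) (q : I → ℚ) (hq : WtL a A q) :
    ((∀ x ∈ A, IsZ (q x)) ∧ c = 2 ∧ (n = 7 ∨ n = 8)) ∨
      ∃ r, OrdA A q r ∧ cd.mm A ≤ 2 * (r * ((A.filter (fun x => IsZ (q x))).card + 1)) ∧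
        ((A.filter (fun x => IsZ (q x))).card = 0 → cd.mm A = r) := by
  have hm := mm_eq hmm hA hc h hS
  obtain ⟨r, hr⟩ := ord_exists n (VV n φ q)
  have hr' := ordA_of h q r hr
  rw [← e0_eq h q, hm]
  rcases hS with ⟨h1, h2⟩ | ⟨h1, h2⟩ | ⟨h1, h2⟩ | ⟨h1, h2⟩
  · subst h1
    subst h2
    right
    refine ⟨r, hr', ?_⟩
    have h3 : IsZ (2 * VV 1 φ q 0) := by
      have h4 := hq (φ 0) (h.mem _)
      rw [cqN_eq a A q _ (h.mem _)] at h4
      have h5 : ∑ y ∈ A, (a (φ 0) y : ℚ) * q y = 0 := by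
        apply Finset.sum_eq_zero
        intro y hy
        obtain ⟨i, rfl⟩ := h.surj y hy
        have hi : i = 0 := Subsingleton.elim _ _
        subst hi
        rw [hA.loopfree _ (h.mem 0)]
        simp
      rw [h5, sub_zero] at h4
      unfold VV
      rw [dif_pos (by norm_num)]
      exact h4
    have h6 := bd_A1 (VV 1 φ q) r h3 hr
    have h7 : cox 1 0 = 2 := rfl
    rw [h7]
    constructor
    · omega
    · intro h8
      rw [h8] at h6
      omega
  · right
    refine ⟨r, hr', ?_⟩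
    have h3 := wtN_of h (by omega) q hq
    have h4 : c = n - 2 := by omega
    rw [h4] at h3
    have h5 := bd_A n h1 (VV n φ q) r h3 hr
    have h6 : cox n c = n + 1 := by
      unfold cox
      split_ifs <;> omega
    rw [h6, h5]
    constructor
    · omega
    · intro h8
      rw [h8]
      omega
  · right
    refine ⟨r, hr', ?_⟩
    have h3 := wtN_of h (by omega) q hq
    have h4 : c = n - 3 := by omega
    rw [h4] at h3
    obtain ⟨h5, h5'⟩ := bd_D n h1 (VV n φ q) r h3 hr
    have h6 : cox n c = 2 * n - 2 := by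
      unfold cox
      rw [if_pos ⟨h2, h1⟩]
    rw [h6]
    constructor
    · omega
    · intro h8
      omega
  · subst h1
    rcases h2 with h2 | h2 | h2
    · subst h2
      right
      refine ⟨r, hr', ?_⟩
      have h3 := wtN_of h (by omega) q hq
      obtain ⟨h5, h5'⟩ := bd_E6 (VV 6 φ q) r h3 hr
      have h6 : cox 6 2 = 12 := rfl
      rw [h6]
      constructor
      · omega
      · intro h8
        omega
    · subst h2
      have h3 := wtN_of h (by omega) q hq
      rcases bd_E7 (VV 7 φ q) r h3 hr with h4 | ⟨h5, h5'⟩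
      · left
        refine ⟨fun x hx => ?_, rfl, Or.inl rfl⟩
        obtain ⟨i, rfl⟩ := h.surj x hx
        have h5 := h4 i.1 i.2
        unfold VV at h5
        rw [dif_pos i.2] at h5
        exact h5
      · right
        refine ⟨r, hr', ?_⟩
        have h6 : cox 7 2 = 18 := rfl
        rw [h6]
        constructor
        · omega
        · intro h8
          omega
    · subst h2
      left
      have h3 := wtN_of h (by omega) q hq
      have h4 := bd_E8 (VV 8 φ q) h3
      refine ⟨fun x hx => ?_, rfl, Or.inr rfl⟩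
      obtain ⟨i, rfl⟩ := h.surj x hx
      have h5 := h4 i.1 i.2
      unfold VV at h5
      rw [dif_pos i.2] at h5
      exact h5

/-- no integral coordinates: `c(g) = 1` if `g q` is integral, otherwise zero. -/
theorem cn_prim {a : I → I → ℕ} (hs : ∀ i j, a i j = a j i) {cd : CrossData a}
    (hmm : MMok a cd)
    (E1 : ∀ A q, FinT a A → ConnS a A → WtL a A q → (∀ x ∈ A, ¬ IsZ (q x)) →
      (-1) ^ A.card * cd.eps A q = 1)
    {N : Finset I} (hN : FinT a N) (hc : ConnS a N) {q : I → ℚ} (hq : WtL a N q)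
    (hni : ∀ x ∈ N, ¬ IsZ (q x)) (g : ℕ) [Decidable (∀ x ∈ N, IsZ ((g : ℚ) * q x))] :
    cn a cd N q g = if (∀ x ∈ N, IsZ ((g : ℚ) * q x)) then 1 else 0 := by
  classical
  obtain ⟨n, c, φ, hT, hS⟩ := typ_exists hs hN hc
  have hfil : N.filter (fun x => IsZ (q x)) = ∅ := by
    apply Finset.filter_eq_empty_iff.2
    intro x hx
    exact hni x hx
  obtain ⟨r, hr, _, hmr⟩ : ∃ r, OrdA N q r ∧
      cd.mm N ≤ 2 * (r * ((N.filter (fun x => IsZ (q x))).card + 1)) ∧
        ((N.filter (fun x => IsZ (q x))).card = 0 → cd.mm N = r) := by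
    rcases order_bound hmm hN hc hT hS q hq with h | h
    · obtain ⟨x, hx⟩ := hc.1
      exact absurd (h.1 x hx) (hni x hx)
    · exact h
  have hm : cd.mm N = r := hmr (by rw [hfil]; rfl)
  have hsgn := E1 N q hN hc hq hni
  have hrec : ∀ g : ℕ, 1 ≤ g → cn a cd N q g = if r ≤ g then cn a cd N q (g - r) else 0 := by
    intro g hg
    rw [cn_rec a cd N q g hg]
    have h1 : N.powerset.filter (fun M => ∀ x ∈ M, IsZ (q x)) = {∅} := by
      ext M
      rw [Finset.mem_filter, Finset.mem_powerset, Finset.mem_singleton]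
      constructor
      · rintro ⟨hM, hM'⟩
        rw [Finset.eq_empty_iff_forall_notMem]
        intro x hx
        exact hni x (hM hx) (hM' x hx)
      · rintro rfl
        exact ⟨Finset.empty_subset _, fun x hx => absurd hx (Finset.notMem_empty x)⟩
    rw [h1, Finset.sum_singleton, Finset.sdiff_empty, comps_of_conn hc, Finset.prod_singleton,
      Finset.card_empty, pow_zero, mul_one]
    have h2 : detEff a N ∅ = 1 := by
      unfold detEff
      exact Matrix.det_isEmpty
    rw [h2, mul_one]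
    unfold upw
    rw [hm]
    by_cases h3 : r ≤ g
    · rw [if_pos h3, if_pos h3, ← mul_assoc, hsgn, one_mul]
    · rw [if_neg h3, if_neg h3, mul_zero]
  have hmain : ∀ g : ℕ, cn a cd N q g = if r ∣ g then 1 else 0 := by
    intro g
    induction g using Nat.strong_induction_on with
    | _ g ih =>
      rcases Nat.eq_zero_or_pos g with h0 | h0
      · rw [h0, cn_zero, if_pos (dvd_zero r)]
      · rw [hrec g h0]
        by_cases h3 : r ≤ g
        · rw [if_pos h3, ih (g - r) (by have := hr.1; omega)]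
          have h4 : r ∣ g - r ↔ r ∣ g := by
            constructor
            · intro h
              have := dvd_add h (dvd_refl r)
              rwa [Nat.sub_add_cancel h3] at this
            · intro h
              exact Nat.dvd_sub h (dvd_refl r)
          simp only [h4]
        · rw [if_neg h3, if_neg]
          intro h
          exact h3 (Nat.le_of_dvd h0 h)
  rw [hmain g]
  have h5 := hr.2 g
  by_cases h6 : r ∣ g
  · rw [if_pos h6, if_pos (h5.2 h6)]
  · rw [if_neg h6, if_neg (fun h => h6 (h5.1 h))]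

/-- the response numbers are nonnegative. -/
theorem cn_nonneg {a : I → I → ℕ} (hs : ∀ i j, a i j = a j i) (cd : CrossData a)
    (hmm : MMok a cd) (hR : RTnum a cd)
    (E0 : ∀ A q, (∀ x ∈ A, IsZ (q x)) → cd.eps A q = 1)
    (E1 : ∀ A q, FinT a A → ConnS a A → WtL a A q → (∀ x ∈ A, ¬ IsZ (q x)) →
      (-1) ^ A.card * cd.eps A q = 1)
    {A : Finset I} (hA : FinT a A) (hc : ConnS a A) {q : I → ℚ} (hq : WtL a A q) (g : ℕ) :
    0 ≤ cn a cd A q g := by
  classical
  obtain ⟨n, c, φ, hT, hS⟩ := typ_exists hs hA hc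
  rcases order_bound hmm hA hc hT hS q hq with ⟨h1, h2, h3⟩ | ⟨r, hr, hb, _⟩
  · subst h2
    rw [cn_congr a cd A q (fun _ => 0) (fun x hx => by simpa using h1 x hx) g]
    exact E78_nonneg hs cd hmm hR E0 hA hc hT h3 g
  · obtain ⟨P, hP⟩ := polyOf_exists hR hA hc hq
    refine uniform_nonneg hs hA hc hq hP hr ?_ hb g
    intro N hN g'
    have hqN : WtL a N q := AG12b_comp a (Finset.filter_subset _ _) (fun x hx =>
      (Finset.mem_filter.1 hx).2) hN hq
    have hNs : N ⊆ A \ A.filter (fun x => IsZ (q x)) := comps_subset hN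
    apply cn_prim hs hmm E1 (hA.mono (hNs.trans Finset.sdiff_subset)) (comps_conn hN) hqN
    intro x hx hx'
    have h5 := hNs hx
    rw [Finset.mem_sdiff, Finset.mem_filter] at h5
    exact h5.2 ⟨h5.1, hx'⟩

end

end Pool.H88.Num

end

section

/-!
KAC ADE numbers: the sign of the classes without integral coordinates.
-/

set_option autoImplicit false

namespace Pool.H88.Num

open scoped BigOperators
open Pool.Agent.H27.KAC
open Pool.H88.KA (Typ Std cox MMok mm_eq TT TT_sum typ_exists cqN_eq)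

theorem par_rel (n : ℕ) (hn : 2 ≤ n) (V : ℕ → ℚ) (h : WtN n (n - 2) V) (p : ℕ) :
    (p < n → ∃ z : ℤ, V p = (p + 1) * V 0 + z) ∧
      (p + 1 < n → ∃ z : ℤ, V (p + 1) = (p + 2) * V 0 + z) := by
  induction p with
  | zero =>
    refine ⟨fun _ => ⟨0, by push_cast; ring⟩, fun h1 => ?_⟩
    obtain ⟨z, hz⟩ := h 0 (by omega)
    unfold NBq at hz
    rw [if_neg (by omega), if_neg (by omega)] at hz
    by_cases h2 : 0 + 3 ≤ n
    · rw [if_pos h2, if_neg (by omega)] at hz
      refine ⟨-z, ?_⟩
      push_cast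
      linarith
    · rw [if_neg h2, if_pos (by omega)] at hz
      have h3 : n - 1 = 0 + 1 := by omega
      rw [h3] at hz
      refine ⟨-z, ?_⟩
      push_cast
      linarith
  | succ p ih =>
    refine ⟨fun h1 => ?_, fun h1 => ?_⟩
    · obtain ⟨z, hz⟩ := ih.2 h1
      refine ⟨z, ?_⟩
      rw [hz]
      push_cast
      ring
    · obtain ⟨z1, hz1⟩ := ih.1 (by omega)
      obtain ⟨z2, hz2⟩ := ih.2 (by omega)
      obtain ⟨z, hz⟩ := h (p + 1) (by omega)
      unfold NBq at hz
      rw [if_neg (by omega), if_pos (by omega), Nat.add_sub_cancel] at hz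
      by_cases h2 : p + 1 + 3 ≤ n
      · rw [if_pos h2, if_neg (by omega)] at hz
        refine ⟨2 * z2 - z1 - z, ?_⟩
        push_cast
        linarith
      · rw [if_neg h2, if_pos (by omega)] at hz
        have h3 : n - 1 = p + 1 + 1 := by omega
        rw [h3] at hz
        refine ⟨2 * z2 - z1 - z, ?_⟩
        push_cast
        linarith

theorem par_last (n : ℕ) (hn : 2 ≤ n) (V : ℕ → ℚ) (h : WtN n (n - 2) V) :
    ∃ m : ℤ, ((n : ℚ) + 1) * V 0 = m := by
  obtain ⟨z1, hz1⟩ := (par_rel n hn V h (n - 1)).1 (by omega)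
  obtain ⟨z2, hz2⟩ := (par_rel n hn V h (n - 2)).1 (by omega)
  obtain ⟨z, hz⟩ := h (n - 1) (by omega)
  unfold NBq at hz
  rw [if_pos (by omega)] at hz
  have e1 : ((n - 1 : ℕ) : ℚ) = n - 1 := by
    rw [Nat.cast_sub (by omega)]
    simp
  have e2 : ((n - 2 : ℕ) : ℚ) = n - 2 := by
    rw [Nat.cast_sub (by omega)]
    simp
  rw [e1] at hz1
  rw [e2] at hz2
  refine ⟨z - 2 * z1 + z2, ?_⟩
  push_cast
  rw [hz1, hz2] at hz
  linarith

/-- parity, standard graph `A_n`. -/
theorem par_A (n : ℕ) (hn : 2 ≤ n) (V : ℕ → ℚ) (h : WtN n (n - 2) V) (hr : Ord n V (n + 1))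
    (T : ℤ) (hT : 2 * ∑ p ∈ Finset.range n, V p = T) : Even ((n : ℤ) + T) := by
  obtain ⟨m, hm⟩ := par_last n hn V h
  have h1 : ∀ p, ∃ z : ℤ, p < n → V p = (p + 1) * V 0 + z := by
    intro p
    by_cases hp : p < n
    · obtain ⟨z, hz⟩ := (par_rel n hn V h p).1 hp
      exact ⟨z, fun _ => hz⟩
    · exact ⟨0, fun h => absurd h hp⟩
  choose z hz using h1
  have h2 : ∑ p ∈ Finset.range n, V p =
      (∑ p ∈ Finset.range n, ((p : ℚ) + 1)) * V 0 + ((∑ p ∈ Finset.range n, z p : ℤ) : ℚ) := by
    rw [Finset.sum_mul]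
    push_cast
    rw [← Finset.sum_add_distrib]
    exact Finset.sum_congr rfl fun p hp => hz p (Finset.mem_range.1 hp)
  have h3 : ∀ k : ℕ, 2 * ∑ p ∈ Finset.range k, ((p : ℚ) + 1) = k * (k + 1) := by
    intro k
    induction k with
    | zero => simp
    | succ k ih =>
      rw [Finset.sum_range_succ, mul_add, ih]
      push_cast
      ring
  have h4 : (T : ℚ) = ((m * n + 2 * ∑ p ∈ Finset.range n, z p : ℤ) : ℚ) := by
    rw [← hT, h2, mul_add, ← mul_assoc, h3 n]
    push_cast
    rw [← hm]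
    ring
  have h5 : T = m * n + 2 * ∑ p ∈ Finset.range n, z p := by exact_mod_cast h4
  rw [h5]
  rcases Nat.even_or_odd n with hne | hno
  · obtain ⟨k, hk⟩ := hne
    refine ⟨k + m * k + ∑ p ∈ Finset.range n, z p, ?_⟩
    rw [hk]
    push_cast
    ring
  · rcases Int.even_or_odd m with hme | hmo
    · exfalso
      obtain ⟨k, hk⟩ := hno
      obtain ⟨m', hm'⟩ := hme
      have h6 : ((k + 1 : ℕ) : ℚ) * V 0 = m' := by
        have h7 : ((n : ℚ) + 1) = 2 * ((k + 1 : ℕ) : ℚ) := by
          rw [hk]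
          push_cast
          ring
        rw [h7, hm'] at hm
        push_cast at hm ⊢
        linarith
      have h8 : n + 1 ∣ k + 1 := by
        apply (hr.2 (k + 1)).1
        intro p hp
        refine ⟨(p + 1) * m' + (k + 1) * z p, ?_⟩
        rw [hz p hp, mul_add]
        push_cast at h6 ⊢
        rw [← h6]
        ring
      have h9 := Nat.le_of_dvd (by omega) h8
      omega
    · obtain ⟨m', hm'⟩ := hmo
      obtain ⟨k, hk⟩ := hno
      refine ⟨2 * k + 1 + 2 * k * m' + m' + ∑ p ∈ Finset.range n, z p, ?_⟩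
      rw [hm', hk]
      push_cast
      ring

section

variable {I : Type} [Fintype I] [DecidableEq I]

/-- (E1). -/
theorem E1_of {a : I → I → ℕ} (hs : ∀ i j, a i j = a j i) {cd : CrossData a} (hmm : MMok a cd)
    (heps : ∀ A, FinT a A → ConnS a A → ∀ q, (∀ x ∈ A, IsZ (cqN a A q x)) →
      ∃ n : ℤ, 2 * ∑ x ∈ A, q x = n ∧ cd.eps A q = (-1) ^ n) :
    ∀ A q, FinT a A → ConnS a A → WtL a A q → (∀ x ∈ A, ¬ IsZ (q x)) →
      (-1) ^ A.card * cd.eps A q = 1 := by
  classical
  intro A q hA hc hq hni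
  obtain ⟨T, hT, hT'⟩ := heps A hA hc q hq
  obtain ⟨n, c, φ, hty, hS⟩ := typ_exists hs hA hc
  have hcard := hty.card
  have hfil : A.filter (fun x => IsZ (q x)) = ∅ :=
    Finset.filter_eq_empty_iff.2 (fun x hx => hni x hx)
  have he0 := e0_eq hty q
  rw [hfil, Finset.card_empty] at he0
  have hev : Even ((n : ℤ) + T) := by
    have hsum : ∑ x ∈ A, q x = ∑ p ∈ Finset.range n, VV n φ q p := by
      rw [← Fin.sum_univ_eq_sum_range]
      symm
      apply Finset.sum_bij (fun (j : Fin n) _ => φ j)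
      · intro j _
        exact hty.mem j
      · intro j _ j' _ hjj
        exact hty.inj hjj
      · intro y hy
        obtain ⟨i, hi⟩ := hty.surj y hy
        exact ⟨i, Finset.mem_univ _, hi⟩
      · intro j _
        unfold VV
        rw [dif_pos j.2]
    rw [hsum] at hT
    obtain ⟨r, hr⟩ := ord_exists n (VV n φ q)
    rcases hS with ⟨h1, h2⟩ | ⟨h1, h2⟩ | ⟨h1, h2⟩ | ⟨h1, h2⟩
    · subst h1
      subst h2
      rw [Finset.sum_range_one] at hT
      rw [Int.even_add]
      constructor
      · intro h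
        exact absurd h (by decide)
      · intro h
        exfalso
        obtain ⟨k, hk⟩ := h
        have h3 : VV 1 φ q 0 = k := by
          rw [hk] at hT
          push_cast at hT
          linarith
        have h4 : VV 1 φ q 0 = q (φ 0) := by
          unfold VV
          rw [dif_pos (by norm_num)]
          rfl
        apply hni (φ 0) (hty.mem 0)
        exact ⟨k, by rw [← h4, h3]⟩
    · have h3 := wtN_of hty (by omega) q hq
      have h4 : c = n - 2 := by omega
      rw [h4] at h3
      have h5 := bd_A n h1 (VV n φ q) r h3 hr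
      rw [he0, zero_add, mul_one] at h5
      rw [← h5] at hr
      exact par_A n h1 (VV n φ q) h3 hr T hT
    · exfalso
      have h3 := wtN_of hty (by omega) q hq
      have h4 : c = n - 3 := by omega
      rw [h4] at h3
      have h5 := (bd_D n h1 (VV n φ q) r h3 hr).2
      omega
    · exfalso
      subst h1
      rcases h2 with h2 | h2 | h2
      · subst h2
        have h3 := wtN_of hty (by omega) q hq
        have h5 := (bd_E6 (VV 6 φ q) r h3 hr).2
        omega
      · subst h2
        have h3 := wtN_of hty (by omega) q hq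
        rcases bd_E7 (VV 7 φ q) r h3 hr with h4 | h4
        · have h5 := h4 0 (by norm_num)
          unfold VV at h5
          rw [dif_pos (by norm_num)] at h5
          exact hni _ (hty.mem _) h5
        · omega
      · subst h2
        have h3 := wtN_of hty (by omega) q hq
        have h5 := bd_E8 (VV 8 φ q) h3 0 (by norm_num)
        unfold VV at h5
        rw [dif_pos (by norm_num)] at h5
        exact hni _ (hty.mem _) h5
  rw [hT', hcard]
  have h6 : ((-1 : ℚ) ^ n) = (-1) ^ (n : ℤ) := (zpow_natCast _ _).symm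
  rw [h6, ← zpow_add₀ (by norm_num)]
  exact hev.neg_one_zpow

end

end Pool.H88.Num

end
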