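import Pool.Agent.H16.TKA.M14
import Pool.Agent.H16.TKA.M20

/-! The parts of this file: H10.KAC.LLBase, H10.KAC.LLRun, H46.KA.B4b, H10.KAC.Forms, H10.KAC.Cross, H10.KAC.Cross2. -/

section

/-!
Run lemma, module 7: the Q-system restricted to a set `N` of vertices, in the ring `OO N` of series regular in all
directions of `N`.
-/

set_option autoImplicit false

namespace Pool.Agent.H10.KAC

open scoped BigOperators
open Pool.Agent.H46.KA Pool.Agent.H27.KAC

variable {I : Type} [Fintype I] [DecidableEq I]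

/-- series regular in all directions of `N`. -/
def OO (N : Finset I) : Subring (LL I) where
  carrier := {F | ∀ x ∈ N, Rg x F}
  mul_mem' := fun ha hb x hx => Rg_mul (ha x hx) (hb x hx)
  one_mem' := fun x _ => Rg_one x
  add_mem' := fun ha hb x hx => Rg_add (ha x hx) (hb x hx)
  zero_mem' := fun x _ => Rg_zero x
  neg_mem' := fun ha x hx => Rg_neg (ha x hx)

theorem OO_coe_prod {N : Finset I} {ι : Type} (s : Finset ι) (f : ι → OO N) :
    ((∏ i ∈ s, f i : OO N) : LL I) = ∏ i ∈ s, (f i : LL I) :=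
  map_prod (OO N).subtype f s

theorem OO_coe_sum {N : Finset I} {ι : Type} (s : Finset ι) (f : ι → OO N) :
    ((∑ i ∈ s, f i : OO N) : LL I) = ∑ i ∈ s, (f i : LL I) :=
  map_sum (OO N).subtype f s

theorem OO_coe_sub {N : Finset I} (f g : OO N) : ((f - g : OO N) : LL I) = f - g :=
  map_sub (OO N).subtype f g

section

variable (a : I → I → ℕ) (N : Finset I)

/-- standing hypotheses: symmetric, no loops in `N`. -/
structure Hyp : Prop where
  s : ∀ i j, a i j = a j i
  l : ∀ x ∈ N, a x x = 0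

end

section

variable {a : I → I → ℕ} {N : Finset I} (H : Hyp a N)

include H in
theorem OO_Qp (i : I) (l n : ℕ) : Qp a i l (n : ℚ) ∈ OO N := by
  intro x hx
  by_cases h : i = x
  · subst h
    exact Rg_Qp_self a H.s i (H.l i hx) l n
  · exact Rg_Qp_ne a H.s x (H.l x hx) i h l n

include H in
theorem OO_Qp1 (i : I) (l : ℕ) : Qp a i l 1 ∈ OO N := by
  have := OO_Qp H i l 1
  rwa [Nat.cast_one] at this

include H in
theorem OO_Qpo (i : I) (hi : i ∉ N) (l : ℕ) (α : ℚ) : Qp a i l α ∈ OO N := by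
  intro x hx
  exact Rg_Qp_ne a H.s x (H.l x hx) i (fun h => hi (h ▸ hx)) l α

theorem OO_X (i : I) : (MvPowerSeries.X i : LL I) ∈ OO N := fun x _ => Rg_X x i

theorem Qp_natPow (i : I) (l n : ℕ) : Qp a i l (n : ℚ) = Qp a i l 1 ^ n := by
  rw [← Qp_nat_mul, mul_one]

/-- `Q_{i,l}` as an element of `OO N`. -/
noncomputable def Qo (i : I) (l : ℕ) : OO N := ⟨Qp a i l 1, OO_Qp1 H i l⟩

/-- rational powers of outer `Q`. -/
noncomputable def Po (i : I) (l : ℕ) (α : ℚ) : OO N :=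
  if h : i ∉ N then ⟨Qp a i l α, OO_Qpo H i h l α⟩ else 1

/-- the series variables. -/
noncomputable def Xo (N : Finset I) (i : I) : OO N := ⟨MvPowerSeries.X i, OO_X i⟩

theorem Po_val (i : I) (h : i ∉ N) (l : ℕ) (α : ℚ) : (Po H i l α : LL I) = Qp a i l α := by
  unfold Po
  rw [dif_pos h]

theorem Po_add (i : I) (l : ℕ) (α β : ℚ) : Po H i l (α + β) = Po H i l α * Po H i l β := by
  by_cases h : i ∉ N
  · apply Subtype.ext
    rw [Subring.coe_mul, Po_val H i h, Po_val H i h, Po_val H i h, Qp_add]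
  · unfold Po
    rw [dif_neg h, dif_neg h, dif_neg h, one_mul]

theorem Po_zero (i : I) (l : ℕ) : Po H i l 0 = 1 := by
  by_cases h : i ∉ N
  · apply Subtype.ext
    rw [Po_val H i h, Qp_zero, Subring.coe_one]
  · unfold Po
    rw [dif_neg h]

theorem Po_neg (i : I) (l : ℕ) (α : ℚ) : Po H i l (-α) * Po H i l α = 1 := by
  rw [← Po_add, neg_add_cancel, Po_zero]

/-- outer units `c_{x,l}`. -/
noncomputable def co (x : I) (l : ℕ) : OO N := Xo N x ^ l * ∏ i ∈ Nᶜ, Po H i l (a x i)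

/-- ratios `c_{x,l+1} / c_{x,l}`. -/
noncomputable def rr (x : I) (l : ℕ) : OO N :=
  Xo N x * ∏ i ∈ Nᶜ, (Po H i (l + 1) (a x i) * Po H i l (-(a x i : ℚ)))

theorem co_zero (x : I) : co H x 0 = 1 := by
  unfold co
  rw [pow_zero, one_mul]
  refine Finset.prod_eq_one (fun i hi => ?_)
  have h : i ∉ N := Finset.mem_compl.mp hi
  apply Subtype.ext
  rw [Po_val H i h, Qp_level_zero, Subring.coe_one]

theorem co_succ (x : I) (l : ℕ) : co H x (l + 1) = co H x l * rr H x l := by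
  unfold co rr
  have h : ∏ i ∈ Nᶜ, Po H i (l + 1) (a x i) = (∏ i ∈ Nᶜ, Po H i l (a x i)) *
      ∏ i ∈ Nᶜ, (Po H i (l + 1) (a x i) * Po H i l (-(a x i : ℚ))) := by
    rw [← Finset.prod_mul_distrib]
    refine Finset.prod_congr rfl (fun i _ => ?_)
    have := Po_neg H i l (a x i)
    linear_combination (-Po H i (l + 1) (a x i)) * this
  rw [h, pow_succ]
  ring

/-- `Q_{x,n-1}` with the convention `Q_{x,-1} = 0`. -/
noncomputable def Fq (n : ℕ) (x : I) : OO N := match n with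
  | 0 => 0
  | n + 1 => Qo H x n

theorem Fq_rec (x : I) (hx : x ∈ N) (n : ℕ) :
    Fq H (n + 2) x * Fq H n x =
      Fq H (n + 1) x ^ 2 - co H x n * ∏ y ∈ N, Fq H (n + 1) y ^ a x y := by
  cases n with
  | zero =>
    rw [co_zero]
    simp only [Fq, Qo]
    apply Subtype.ext
    push_cast
    have : ∀ y, (Qp a y 0 1 : LL I) = 1 := fun y => Qp_level_zero a y 1
    simp [this]
  | succ n =>
    apply Subtype.ext
    have h1 := Qsys a H.s x n
    have h2 : (∏ j, Qp a j (n + 1) (a x j : ℚ) : LL I) =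
        (∏ j ∈ N, Qp a j (n + 1) (a x j : ℚ)) * ∏ j ∈ Nᶜ, Qp a j (n + 1) (a x j : ℚ) :=
      (Finset.prod_mul_prod_compl N _).symm
    have h3 : ((∏ i ∈ Nᶜ, Po H i (n + 1) (a x i) : OO N) : LL I) =
        ∏ j ∈ Nᶜ, Qp a j (n + 1) (a x j : ℚ) := by
      rw [OO_coe_prod]
      exact Finset.prod_congr rfl (fun i hi => Po_val H i (Finset.mem_compl.mp hi) _ _)
    have h4 : ((∏ y ∈ N, Fq H (n + 1 + 1) y ^ a x y : OO N) : LL I) =
        ∏ j ∈ N, Qp a j (n + 1) (a x j : ℚ) := by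
      rw [OO_coe_prod]
      refine Finset.prod_congr rfl (fun i _ => ?_)
      rw [Qp_natPow]
      rfl
    have h5 : (Qp a x (n + 1) 2 : LL I) = Qp a x (n + 1) 1 ^ 2 := by
      rw [← Qp_natPow]
      norm_num
    have h6 : ((Fq H (n + 1 + 2) x * Fq H (n + 1) x : OO N) : LL I) =
        Qp a x (n + 2) 1 * Qp a x n 1 := rfl
    have h7 : ((Fq H (n + 1 + 1) x : OO N) : LL I) = Qp a x (n + 1) 1 := rfl
    have h8 : ((Xo N x : OO N) : LL I) = MvPowerSeries.X x := rfl
    rw [h6, h1, h2, OO_coe_sub, Subring.coe_pow, h7, Subring.coe_mul, h4, h5]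
    unfold co
    rw [Subring.coe_mul, h3, Subring.coe_pow, h8]
    ring

theorem prod_one_sub {O : Type} [CommRing O] {ι : Type} (s : Finset ι) (Q : O) (e : ι → O)
    (n : ι → ℕ) : ∃ G, ∏ i ∈ s, (1 - Q * e i) ^ n i = 1 - Q * G := by
  classical
  induction s using Finset.induction_on with
  | empty => exact ⟨0, by simp⟩
  | insert i s hi ih =>
    obtain ⟨G, hG⟩ := ih
    have h1 : ∀ m : ℕ, ∃ G', (1 - Q * e i) ^ m = 1 - Q * G' := by
      intro m
      induction m with
      | zero => exact ⟨0, by simp⟩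
      | succ m ihm =>
        obtain ⟨G', hG'⟩ := ihm
        refine ⟨G' + e i - Q * (G' * e i), ?_⟩
        rw [pow_succ, hG']
        ring
    obtain ⟨G', hG'⟩ := h1 (n i)
    refine ⟨G' + G - Q * (G' * G), ?_⟩
    rw [Finset.prod_insert hi, hG, hG']
    ring

include H in
/-- `η_{i,l}` for an outer vertex `i` adjacent to `x ∈ N` is divisible by `Q_{x,l}`. -/
theorem eta_dvd (i : I) (hi : i ∉ N) (x : I) (hx : x ∈ N) (hxi : a x i ≠ 0) (l : ℕ) :
    ∃ e ∈ OO N, eta a i l = Qp a x l 1 * e := by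
  rw [eta_eq a H.s]
  have h1 : (∏ j, Qp a j l (a i j : ℚ) : LL I) = Qp a x l (a i x : ℚ) *
      ∏ j ∈ Finset.univ.erase x, Qp a j l (a i j : ℚ) :=
    (Finset.mul_prod_erase Finset.univ _ (Finset.mem_univ x)).symm
  have h2 : Qp a x l (a i x : ℚ) = Qp a x l 1 * Qp a x l ((a i x - 1 : ℕ) : ℚ) := by
    rw [← Qp_add]
    congr 1
    have : 1 ≤ a i x := by
      rw [H.s i x]
      omega
    rw [Nat.cast_sub this]
    ring
  refine ⟨MvPowerSeries.X i ^ l * (Qp a x l ((a i x - 1 : ℕ) : ℚ) *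
    (∏ j ∈ Finset.univ.erase x, Qp a j l (a i j : ℚ)) * Qp a i l (-2)), ?_, ?_⟩
  · refine Subring.mul_mem _ (Subring.pow_mem _ (OO_X i) _) (Subring.mul_mem _
      (Subring.mul_mem _ (OO_Qp H x l _) (Subring.prod_mem _ (fun j _ => OO_Qp H j l _)))
      (OO_Qpo H i hi l _))
  · rw [h1, h2]
    ring

theorem rr_succ (x : I) (hx : x ∈ N) (l : ℕ) :
    ∃ G : OO N, rr H x (l + 1) = rr H x l * (1 - Qo H x (l + 1) * G) := by
  have h1 : ∀ i : I, ∃ e : OO N, i ∉ N → a x i ≠ 0 →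
      (Po H i (l + 2) 1 * Po H i l 1 * Po H i (l + 1) (-2)) = 1 - Qo H x (l + 1) * e := by
    intro i
    by_cases hi : i ∈ N
    · exact ⟨0, fun h => absurd hi h⟩
    by_cases hxi : a x i = 0
    · exact ⟨0, fun _ h => absurd hxi h⟩
    obtain ⟨e, he, he2⟩ := eta_dvd H i hi x hx hxi (l + 1)
    refine ⟨⟨e, he⟩, fun _ _ => ?_⟩
    apply Subtype.ext
    have h2 := one_sub_eta a H.s i l
    rw [Subring.coe_mul, Subring.coe_mul, Po_val H i hi, Po_val H i hi, Po_val H i hi, ← h2, he2]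
    rfl
  choose e he using h1
  have hP : ∀ (i : I) (m : ℕ) (α : ℚ) (n : ℕ), Po H i m (α * n) = Po H i m α ^ n := by
    intro i m α n
    induction n with
    | zero => rw [Nat.cast_zero, mul_zero, Po_zero, pow_zero]
    | succ n ih =>
      rw [Nat.cast_succ, mul_add, mul_one, Po_add, ih, pow_succ]
  have h3 : ∏ i ∈ Nᶜ, (Po H i (l + 1 + 1) (a x i) * Po H i (l + 1) (-(a x i : ℚ))) =
      (∏ i ∈ Nᶜ, (Po H i (l + 1) (a x i) * Po H i l (-(a x i : ℚ)))) *
      ∏ i ∈ Nᶜ, (1 - Qo H x (l + 1) * e i) ^ a x i := by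
    rw [← Finset.prod_mul_distrib]
    refine Finset.prod_congr rfl (fun i hi => ?_)
    have hiN : i ∉ N := Finset.mem_compl.mp hi
    by_cases hxi : a x i = 0
    · rw [hxi]
      simp [Po_zero]
    · rw [← he i hiN hxi, mul_pow, mul_pow, ← hP, ← hP, ← hP]
      have e1 : Po H i (l + 1) (-2 * (a x i : ℚ)) =
          Po H i (l + 1) (-(a x i : ℚ)) * Po H i (l + 1) (-(a x i : ℚ)) := by
        rw [← Po_add]
        congr 1
        ring
      rw [e1, one_mul]
      have e2 := Po_neg H i (l + 1) (a x i)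
      have e3 := Po_neg H i l (a x i)
      have e4 : Po H i (l + 2) (a x i : ℚ) = Po H i (l + 1 + 1) (a x i) := rfl
      rw [e4]
      linear_combination (-(Po H i (l + 1 + 1) (a x i) * Po H i (l + 1) (-(a x i : ℚ)))) *
        (e2 + e3 * Po H i (l + 1) (a x i) * Po H i (l + 1) (-(a x i : ℚ)))
  obtain ⟨G, hG⟩ := prod_one_sub Nᶜ (Qo H x (l + 1)) e (fun i => a x i)
  refine ⟨G, ?_⟩
  unfold rr
  rw [h3, hG]
  ring

end

end Pool.Agent.H10.KAC

end

section

/-!
Run lemma, module 8: the run lemma in the ring `OO N`.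
-/

set_option autoImplicit false

namespace Pool.Agent.H10.KAC

open scoped BigOperators
open Pool.Agent.H46.KA Pool.Agent.H27.KAC

variable {I : Type} [Fintype I] [DecidableEq I]

/-- the restricted adjacency matrix. -/
def aN (a : I → I → ℕ) (N : Finset I) : {x // x ∈ N} → {x // x ∈ N} → ℕ := fun x y => a x.1 y.1

section

variable {a : I → I → ℕ} {N : Finset I} (H : Hyp a N)

/-- the element to be inverted. -/
noncomputable def So (l : ℕ) : OO N := (∏ x ∈ N, Qo H x l) * ∏ x ∈ N, Xo N x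

/-- the ideal generated by `Q_{x,l}`, `x ∈ N`. -/
noncomputable def Jo (l : ℕ) : Ideal (OO N) :=
  Ideal.span (Set.range (fun y : {x // x ∈ N} => Qo H y.1 l))

theorem Qo_nz (x : I) (l : ℕ) : Qo H x l ∈ nonZeroDivisors (OO N) := by
  rw [mem_nonZeroDivisors_iff_right]
  intro z hz
  apply Subtype.ext
  have h1 : (z : LL I) * Qp a x l 1 = 0 := congrArg Subtype.val hz
  have h2 : (Qp a x l (-1) : LL I) * Qp a x l 1 = 1 := Qp_neg_mul a x l 1
  calc (z : LL I) = z * (Qp a x l (-1) * Qp a x l 1) := by rw [h2, mul_one]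
    _ = (z * Qp a x l 1) * Qp a x l (-1) := by ring
    _ = 0 := by rw [h1, zero_mul]

theorem Qo_dvd_So (x : I) (hx : x ∈ N) (l : ℕ) : Qo H x l ∣ So H l ^ 1 := by
  rw [pow_one]
  exact (Finset.dvd_prod_of_mem (fun x => Qo H x l) hx).mul_right _

theorem Xo_dvd_So (x : I) (hx : x ∈ N) (l : ℕ) : Xo N x ∣ So H l ^ 1 := by
  rw [pow_one]
  exact (Finset.dvd_prod_of_mem (fun x => Xo N x) hx).mul_left _

theorem rr_dvd (x : I) (l : ℕ) : rr H x l ∣ Xo N x := by
  unfold rr
  refine ⟨∏ i ∈ Nᶜ, (Po H i (l + 1) (-(a x i : ℚ)) * Po H i l (a x i)), ?_⟩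
  rw [mul_assoc, ← Finset.prod_mul_distrib, Finset.prod_eq_one, mul_one]
  intro i _
  have e1 := Po_neg H i (l + 1) (a x i)
  have e2 := Po_neg H i l (a x i)
  calc Po H i (l + 1) (a x i) * Po H i l (-(a x i : ℚ)) *
        (Po H i (l + 1) (-(a x i : ℚ)) * Po H i l (a x i))
      = (Po H i (l + 1) (-(a x i : ℚ)) * Po H i (l + 1) (a x i)) *
        (Po H i l (-(a x i : ℚ)) * Po H i l (a x i)) := by ring
    _ = 1 := by rw [e1, e2, one_mul]

theorem rr_unit (x : I) (hx : x ∈ N) (m l : ℕ) : IsUnit (lm (So H m) (rr H x l)) :=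
  lm_unit (So H m) 1 ((rr_dvd H x l).trans (Xo_dvd_So H x hx m))

/-- the forward system. -/
theorem fwd (h b : ℕ) : ∃ g, RSys (aN a N) h (LA (So H b))
    (fun k x => lm (So H b) (Fq H (b + k) x.1))
    (fun k x => lm (So H b) (co H x.1 (b + k - 1)))
    (fun k x => lm (So H b) (rr H x.1 (b + k - 1))) g := by
  choose G hG using fun (l : ℕ) (x : {x // x ∈ N}) => rr_succ H x.1 x.2 l
  refine ⟨fun k x => lm (So H b) (-(rr H x.1 (b + k) * G (b + k) x)), ?_⟩
  constructor
  · intro x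
    exact lm_unit (So H b) 1 (Qo_dvd_So H x.1 x.2 b)
  · intro k x hk1 _
    apply lm_nz
    obtain ⟨d, rfl⟩ : ∃ d, k = d + 1 := ⟨k - 1, by omega⟩
    exact Qo_nz H x.1 (b + d)
  · intro k x _
    have h1 := Fq_rec H x.1 x.2 (b + k)
    have h2 : ∏ y ∈ N, Fq H (b + k + 1) y ^ a x.1 y =
        ∏ y : {x // x ∈ N}, Fq H (b + k + 1) y.1 ^ a x.1 y.1 :=
      (Finset.prod_coe_sort N (fun y => Fq H (b + k + 1) y ^ a x.1 y)).symm
    rw [h2] at h1
    have h3 := congrArg (lm (So H b)) h1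
    rw [map_mul, map_sub, map_mul, map_pow, map_prod] at h3
    simp only [map_pow] at h3
    exact h3
  · intro k x _
    change lm (So H b) (co H x.1 (b + k + 1)) = _ * _
    rw [co_succ, map_mul]
    rfl
  · intro k x _
    change lm (So H b) (rr H x.1 (b + k + 1)) = lm (So H b) (rr H x.1 (b + k)) +
      lm (So H b) (Qo H x.1 (b + k + 1)) * lm (So H b) (-(rr H x.1 (b + k) * G (b + k) x))
    rw [hG (b + k) x, ← map_mul, ← map_add]
    congr 1
    ring

/-- the backward system. -/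
theorem bwd (h K : ℕ) (hK : h ≤ K) : ∃ r g, RSys (aN a N) h (LA (So H K))
    (fun k x => lm (So H K) (Fq H (K + 2 - k) x.1))
    (fun k x => lm (So H K) (co H x.1 (K + 1 - k))) r g ∧
    ∀ z, lm (So H K) (rr H z.1 (K - 1)) * r 1 z = 1 := by
  choose G hG using fun (l : ℕ) (x : {x // x ∈ N}) => rr_succ H x.1 x.2 l
  choose ri hri using fun (l : ℕ) (x : {x // x ∈ N}) => (rr_unit H x.1 x.2 K l).exists_right_inv
  refine ⟨fun k x => ri (K - k) x, fun k x => -(ri (K - k - 1) x *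
    lm (So H K) (G (K - k - 2) x)), ?_, fun z => hri (K - 1) z⟩
  constructor
  · intro x
    have e : K + 2 - 1 = K + 1 := by omega
    rw [e]
    exact lm_unit (So H K) 1 (Qo_dvd_So H x.1 x.2 K)
  · intro k x hk1 hk2
    apply lm_nz
    obtain ⟨d, hd⟩ : ∃ d, K + 2 - k = d + 1 := ⟨K + 1 - k, by omega⟩
    rw [hd]
    exact Qo_nz H x.1 d
  · intro k x hk
    obtain ⟨n, hn⟩ : ∃ n, K = n + k := ⟨K - k, by omega⟩
    have e1 : K + 2 - (k + 2) = n := by omega
    have e2 : K + 2 - k = n + 2 := by omega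
    have e3 : K + 2 - (k + 1) = n + 1 := by omega
    have e4 : K + 1 - (k + 1) = n := by omega
    rw [e1, e2, e3, e4]
    have h1 := Fq_rec H x.1 x.2 n
    have h2 : ∏ y ∈ N, Fq H (n + 1) y ^ a x.1 y =
        ∏ y : {x // x ∈ N}, Fq H (n + 1) y.1 ^ a x.1 y.1 :=
      (Finset.prod_coe_sort N (fun y => Fq H (n + 1) y ^ a x.1 y)).symm
    rw [h2] at h1
    have h3 := congrArg (lm (So H K)) h1
    rw [map_mul, map_sub, map_mul, map_pow, map_prod] at h3
    simp only [map_pow] at h3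
    rw [mul_comm]
    exact h3
  · intro k x hk
    obtain ⟨n, hn⟩ : ∃ n, K = n + k + 1 := ⟨K - k - 1, by omega⟩
    have e1 : K + 1 - (k + 2) = n := by omega
    have e2 : K + 1 - (k + 1) = n + 1 := by omega
    have e3 : K - (k + 1) = n := by omega
    simp only [e1, e2, e3]
    rw [co_succ, map_mul, mul_assoc, hri n x, mul_one]
  · intro k x hk
    obtain ⟨n, hn⟩ : ∃ n, K = n + k + 2 := ⟨K - k - 2, by omega⟩
    have e1 : K - (k + 2) = n := by omega
    have e2 : K - (k + 1) = n + 1 := by omega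
    have e3 : K + 2 - (k + 2) = n + 1 + 1 := by omega
    have e4 : K - k - 1 = n + 1 := by omega
    have e5 : K - k - 2 = n := by omega
    simp only [e1, e2, e3, e4, e5]
    have h1 := hri n x
    have h2 := hri (n + 1) x
    have h3 := congrArg (lm (So H K)) (hG n x)
    rw [map_mul, map_sub, map_mul, map_one] at h3
    change ri n x = ri (n + 1) x + lm (So H K) (Qo H x.1 (n + 1)) * -(ri (n + 1) x *
      lm (So H K) (G n x))
    -- `ri n = ri n * (rr (n+1) * ri (n+1)) = ri (n+1) * (1 - Q G)`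
    calc ri n x = ri n x * (lm (So H K) (rr H x.1 (n + 1)) * ri (n + 1) x) := by
          rw [h2, mul_one]
      _ = (lm (So H K) (rr H x.1 n) * ri n x) *
          ((1 - lm (So H K) (Qo H x.1 (n + 1)) * lm (So H K) (G n x)) * ri (n + 1) x) := by
          rw [h3]
          ring
      _ = _ := by
          rw [h1]
          ring

/-- The run lemma in `OO N`. -/
theorem LL_run {h : ℕ} {o : ℕ → {x // x ∈ N} → ℕ} (hk : Knit (aN a N) h o) :
    ∃ (ε : I → ℤ) (R : I → I → ℕ),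
      (∀ x, ε x = 1 ∨ ε x = -1) ∧
      (∀ x ∈ N, ∏ y ∈ N, ε y ^ a x y = 1) ∧
      (∀ x (hx : x ∈ N), ε x = sg (aN a N) h ⟨x, hx⟩) ∧
      (∀ x ∈ N, ∀ z ∈ N, 2 * R x z = (if z = x then h else 0) + ∑ y ∈ N, a x y * R y z) ∧
      (∀ b : ℕ, ∃ M : ℕ,
        (∀ x ∈ N, ∀ l, b < l → l < b + h → So H b ^ M * Qo H x l ∈ Jo H (b + 1)) ∧
        (∀ x ∈ N, So H b ^ M * (Qo H x (b + h) -
          (ε x : OO N) * Qo H x b * ∏ z ∈ N, rr H z b ^ R x z) ∈ Jo H (b + 1)) ∧
        (∀ x ∈ N, ∀ l, b < l → l < b + h →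
          So H (b + h) ^ M * Qo H x l ∈ Jo H (b + h - 1)) ∧
        (∀ x ∈ N, So H (b + h) ^ M * ((∏ z ∈ N, rr H z (b + h - 1) ^ R x z) * Qo H x b -
          (ε x : OO N) * Qo H x (b + h)) ∈ Jo H (b + h - 1))) := by
  classical
  have hs : ∀ x y, aN a N x y = aN a N y x := fun x y => H.s x.1 y.1
  have ha : ∀ x, aN a N x x = 0 := fun x => H.l x.1 x.2
  obtain ⟨ε, R, hε1, hε2, hR, u1, u2, hsg⟩ := univ_run (aN a N) hs ha hk
  have h2 := hk.two_le
  refine ⟨fun x => if hx : x ∈ N then ε ⟨x, hx⟩ else 1,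
    fun x z => if hx : x ∈ N then (if hz : z ∈ N then R ⟨x, hx⟩ ⟨z, hz⟩ else 0) else 0,
    ?_, ?_, ?_, ?_, ?_⟩
  · intro x
    by_cases hx : x ∈ N
    · simp only [dif_pos hx]
      exact hε1 _
    · simp only [dif_neg hx]
      left
      trivial
  · intro x hx
    rw [← Finset.prod_coe_sort]
    have := hε2 ⟨x, hx⟩
    rw [← this]
    refine Finset.prod_congr rfl (fun y _ => ?_)
    simp only [dif_pos y.2]
    rfl
  · intro x hx
    simp only [dif_pos hx]
    exact hsg _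
  · intro x hx z hz
    have h3 := hR ⟨x, hx⟩ ⟨z, hz⟩
    have h4 : (∑ y ∈ N, a x y * (if hy : y ∈ N then
        (if hz : z ∈ N then R ⟨y, hy⟩ ⟨z, hz⟩ else 0) else 0)) =
        ∑ y : {x // x ∈ N}, aN a N ⟨x, hx⟩ y * R y ⟨z, hz⟩ := by
      rw [← Finset.sum_coe_sort N (fun y => a x y * (if hy : y ∈ N then
        (if hz : z ∈ N then R ⟨y, hy⟩ ⟨z, hz⟩ else 0) else 0))]
      refine Finset.sum_congr rfl (fun y _ => ?_)
      simp only [dif_pos y.2, dif_pos hz]
      rfl
    have h5 : (if (⟨z, hz⟩ : {x // x ∈ N}) = ⟨x, hx⟩ then h else 0) = if z = x then h else 0 := by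
      by_cases hzx : z = x
      · simp [hzx]
      · simp [hzx]
    rw [h4, ← h5, ← h3]
    simp only [dif_pos hx, dif_pos hz]
  · intro b
    obtain ⟨g, hg⟩ := fwd H h b
    obtain ⟨⟨M1, f1⟩, f2⟩ := run_O hs ha hg u1 u2
    obtain ⟨r', g', hg', hr'⟩ := bwd H h (b + h) (by omega)
    obtain ⟨⟨M3, f3⟩, f4⟩ := run_O hs ha hg' u1 u2
    have f2' : ∀ x : {x // x ∈ N}, ∃ M : ℕ, So H b ^ M * (Qo H x.1 (b + h) -
        (ε x : OO N) * Qo H x.1 b * ∏ z : {x // x ∈ N}, rr H z.1 b ^ R x z) ∈ Jo H (b + 1) := by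
      intro x
      obtain ⟨M, hM⟩ := f2 x 1 (∏ z : {x // x ∈ N}, rr H z.1 b ^ R x z) (by
        rw [map_one, one_mul, map_prod]
        simp only [map_pow]
        rfl)
      refine ⟨M, ?_⟩
      rw [one_mul] at hM
      exact hM
    have f4' : ∀ x : {x // x ∈ N}, ∃ M : ℕ, So H (b + h) ^ M *
        ((∏ z : {x // x ∈ N}, rr H z.1 (b + h - 1) ^ R x z) * Qo H x.1 b -
        (ε x : OO N) * Qo H x.1 (b + h)) ∈ Jo H (b + h - 1) := by
      intro x
      obtain ⟨M, hM⟩ := f4 x (∏ z : {x // x ∈ N}, rr H z.1 (b + h - 1) ^ R x z) 1 (by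
        rw [map_one, map_prod]
        simp only [map_pow]
        rw [← Finset.prod_mul_distrib]
        symm
        refine Finset.prod_eq_one (fun z _ => ?_)
        rw [← mul_pow, hr' z, one_pow])
      refine ⟨M, ?_⟩
      have e1 : b + h + 2 - (h + 1) = b + 1 := by omega
      have e2 : b + h + 2 - 1 = (b + h) + 1 := by omega
      have e3 : b + h + 2 - 2 = (b + h - 1) + 1 := by omega
      rw [mul_one, e1, e2, e3] at hM
      exact hM
    choose m2 hm2 using f2'
    choose m4 hm4 using f4'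
    set T := M1 + M3 + ∑ x, m2 x + ∑ x, m4 x with hT
    have up : ∀ (s : OO N) (J : Ideal (OO N)) (m : ℕ) (z : OO N), m ≤ T → s ^ m * z ∈ J →
        s ^ T * z ∈ J := by
      intro s J m z hm hz
      obtain ⟨d, hd⟩ := Nat.exists_eq_add_of_le hm
      rw [hd, pow_add, mul_comm (s ^ m), mul_assoc]
      exact Ideal.mul_mem_left _ _ hz
    have hm2T : ∀ x, m2 x ≤ T := by
      intro x
      have : m2 x ≤ ∑ x, m2 x := Finset.single_le_sum (fun _ _ => Nat.zero_le _) (Finset.mem_univ x)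
      omega
    have hm4T : ∀ x, m4 x ≤ T := by
      intro x
      have : m4 x ≤ ∑ x, m4 x := Finset.single_le_sum (fun _ _ => Nat.zero_le _) (Finset.mem_univ x)
      omega
    refine ⟨T, ?_, ?_, ?_, ?_⟩
    · intro x hx l hl1 hl2
      obtain ⟨k, rfl⟩ : ∃ k, l = b + k := ⟨l - b, by omega⟩
      exact up _ _ M1 _ (by omega) (f1 k ⟨x, hx⟩ (by omega) (by omega))
    · intro x hx
      have := up _ _ (m2 ⟨x, hx⟩) _ (hm2T _) (hm2 ⟨x, hx⟩)
      simp only [dif_pos hx]
      have e : ∏ z ∈ N, rr H z b ^ (if hz : z ∈ N then R ⟨x, hx⟩ ⟨z, hz⟩ else 0) =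
          ∏ z : {x // x ∈ N}, rr H z.1 b ^ R ⟨x, hx⟩ z := by
        rw [← Finset.prod_coe_sort]
        refine Finset.prod_congr rfl (fun z _ => ?_)
        simp only [dif_pos z.2]
      rw [e]
      exact this
    · intro x hx l hl1 hl2
      obtain ⟨k, hk'⟩ : ∃ k, l = b + h - k := ⟨b + h - l, by omega⟩
      have := f3 k ⟨x, hx⟩ (by omega) (by omega)
      have e1 : b + h + 2 - (k + 1) = l + 1 := by omega
      have e3 : b + h + 2 - 2 = (b + h - 1) + 1 := by omega
      rw [e1, e3] at this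
      exact up _ _ M3 _ (by omega) this
    · intro x hx
      have := up _ _ (m4 ⟨x, hx⟩) _ (hm4T _) (hm4 ⟨x, hx⟩)
      simp only [dif_pos hx]
      have e : ∏ z ∈ N, rr H z (b + h - 1) ^ (if hz : z ∈ N then R ⟨x, hx⟩ ⟨z, hz⟩ else 0) =
          ∏ z : {x // x ∈ N}, rr H z.1 (b + h - 1) ^ R ⟨x, hx⟩ z := by
        rw [← Finset.prod_coe_sort]
        refine Finset.prod_congr rfl (fun z _ => ?_)
        simp only [dif_pos z.2]
      rw [e]
      exact this

/-- Short runs: the locus is empty. -/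
theorem LL_short {h : ℕ} {o : ℕ → {x // x ∈ N} → ℕ} (hk : Knit (aN a N) h o) (hne : N.Nonempty)
    (k : ℕ) (hk1 : 1 ≤ k) (hk2 : k < h) : ∃ M : ℕ, So H k ^ M * 1 ∈ Jo H (k - 1) := by
  have hs : ∀ x y, aN a N x y = aN a N y x := fun x y => H.s x.1 y.1
  have ha : ∀ x, aN a N x x = 0 := fun x => H.l x.1 x.2
  obtain ⟨ε, R, hε1, hε2, hR, u1, u2, hsg⟩ := univ_run (aN a N) hs ha hk
  obtain ⟨r', g', hg', hr'⟩ := bwd H k k le_rfl
  obtain ⟨x, hx⟩ := hne
  obtain ⟨M, hM⟩ := short_O hs ha hg' (fun k' x h1 h2 => u1 k' x h1 (by omega)) k ⟨x, hx⟩ hk1 le_rfl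
  refine ⟨M, ?_⟩
  have e1 : k + 2 - (k + 1) = 1 := by omega
  have e2 : k + 2 - 2 = (k - 1) + 1 := by omega
  rw [e1, e2] at hM
  have e3 : Fq H 1 x = 1 := by
    apply Subtype.ext
    exact Qp_level_zero a x 1
  have hM' : So H k ^ M * Fq H 1 x ∈ Jo H (k - 1) := hM
  rwa [e3] at hM'

end

end Pool.Agent.H10.KAC

end

section

/-!
KAC ADE, module B4b: regularity, FACT 2.

`Rg x F`: all `t_x`-exponents of `F` are natural numbers.  FACT 1: `Qp a x k n` (`n` natural) and `Qp a j k α` (`j ≠ x`, any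
`α`) are regular (`uS_fil_self`, `uS_fil_ne`, `rpw_Fil`; the `t_x`-exponent of the monomial of `Tht a F` at `β` is
`-(C β)_x`, and `Fil a x r F` says `(C β)_x ≤ r`).
The forms `Df a j k`, `j ≠ x`, and `Qp a x k 1 * Df a x k` (`= d Q`, `th_Qp` with α = 1) are regular (`RF`): the component at
`x` has positive exponents because `θ_x t_x^n = n t_x^n` (`xv_reg`, `xv_pole`, or directly).
FACT 2 (`fact2`): row `x` of the matrix has entries in `Rg1 x`, all other entries are in `Rg x`, so the determinant is in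
`Rg1 x` (Laplace expansion along row `x`, `Matrix.det_apply` is fine too) and has no term `t^0`.
`fact2_pole`: with poles `Df a x k`, `k ∈ P`, and the factor `∏_{k ∈ P} Q_{x,k}`: expand the determinant multilinearly in the
columns; a product of two columns with the same `Df a x k` vanishes, so each `Df a x k` occurs at most once and is
multiplied by its own factor `Q_{x,k}`.
-/

set_option autoImplicit false

namespace Pool.Agent.H46.KA

open scoped BigOperators
open MvPowerSeries Pool.Agent.H27.KAC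

variable {I : Type} [Fintype I] [DecidableEq I]

theorem B4b_Rg1_neg {x : I} {F : LL I} (hF : Rg1 x F) : Rg1 x (-F) := by
  intro β d h
  refine hF β d fun h0 => h ?_
  rw [map_neg, AddMonoidAlgebra.coeff_neg, Finsupp.neg_apply, h0, neg_zero]

theorem B4b_Rg1_sum {x : I} {ι : Type} (s : Finset ι) (f : ι → LL I) (h : ∀ i ∈ s, Rg1 x (f i)) :
    Rg1 x (∑ i ∈ s, f i) := by
  classical
  induction s using Finset.induction_on with
  | empty => rw [Finset.sum_empty]; exact Rg1_zero x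
  | insert a s ha ih =>
    rw [Finset.sum_insert ha]
    exact Rg1_add (h a (Finset.mem_insert_self _ _))
      (ih fun i hi => h i (Finset.mem_insert_of_mem hi))

theorem B4b_Rg1_det (x : I) (c : I → Fm I) (hc : ∀ i, RF x (c i)) : Rg1 x (cM c).det := by
  rw [Matrix.det_apply]
  refine B4b_Rg1_sum _ _ fun σ _ => ?_
  have h1 : Rg1 x (∏ i, cM c (σ i) i) := by
    have hi0 : σ (σ⁻¹ x) = x := by simp
    rw [← Finset.mul_prod_erase Finset.univ _ (Finset.mem_univ (σ⁻¹ x))]
    refine Rg1_mul ?_ (Rg_prod _ _ fun i _ => (hc i).1 (σ i))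
    have e : cM c (σ (σ⁻¹ x)) (σ⁻¹ x) = c (σ⁻¹ x) x := by
      rw [hi0]; rfl
    rw [e]
    exact (hc _).2
  rcases Int.units_eq_one_or (Equiv.Perm.sign σ) with h | h
  · rw [h, one_smul]; exact h1
  · rw [h, Units.neg_smul, one_smul]; exact B4b_Rg1_neg h1

theorem B4b_CT_Rg1 (γ : I → ℚ) {x : I} {F : LL I} (hF : Rg1 x F) : CT γ F = 0 := by
  unfold CT
  split_ifs with h
  · by_contra h0
    obtain ⟨n, hn⟩ := hF _ _ h0
    have : ((n : ℚ) + 1) = 0 := by rw [← hn]; rfl
    have h1 : (0 : ℚ) ≤ n := Nat.cast_nonneg n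
    linarith
  · rfl

theorem B4b_Rg1_mul' {x : I} {F G : LL I} (hF : Rg x F) (hG : Rg1 x G) : Rg1 x (F * G) := by
  rw [mul_comm]
  exact Rg1_mul hG hF

/-- FACT 2 -/
theorem fact2 (x : I) (γ : I → ℚ) (F : LL I) (hF : Rg x F) (c : I → Fm I) (hc : ∀ i, RF x (c i)) :
    CTd γ F c = 0 := by
  unfold CTd
  exact B4b_CT_Rg1 γ (B4b_Rg1_mul' hF (B4b_Rg1_det x c hc))

end Pool.Agent.H46.KA

end

section

/-!
Run lemma, module 9: functionals with columns `D_{x,l}`, `x ∈ N`: vanishing on ideals and transport between two levels.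
-/

set_option autoImplicit false

namespace Pool.Agent.H10.KAC

open scoped BigOperators
open Pool.Agent.H46.KA Pool.Agent.H27.KAC

variable {I : Type} [Fintype I] [DecidableEq I]

/-- scaling all columns. -/
theorem CTd_scale (γ : I → ℚ) (F : LL I) (s : I → LL I) (c : I → Fm I) :
    CTd γ F (fun i l => s i * c i l) = CTd γ (F * ∏ i, s i) c := by
  unfold CTd
  have h : (cM (fun i l => s i * c i l)).det = (∏ i, s i) * (cM c).det := by
    rw [← Matrix.det_mul_row]
    rfl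
  rw [h, mul_assoc]

/-- scaling the columns in `N`. -/
theorem CTd_scaleN (γ : I → ℚ) (F : LL I) (N : Finset I) (s : I → LL I) (c w : I → Fm I) :
    CTd γ F (fun i => if i ∈ N then (fun l => s i * c i l) else w i) =
      CTd γ (F * ∏ i ∈ N, s i) (fun i => if i ∈ N then c i else w i) := by
  have h1 : (fun i => if i ∈ N then (fun l => s i * c i l) else w i) =
      fun i l => (if i ∈ N then s i else 1) * (if i ∈ N then c i else w i) l := by
    funext i l
    by_cases hi : i ∈ N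
    · simp [hi]
    · simp [hi]
  rw [h1, CTd_scale γ F (fun i => if i ∈ N then s i else 1)]
  congr 2
  rw [Finset.prod_ite_mem, Finset.univ_inter]

/-- multiplication by monomials in the series variables. -/
theorem CTd_shift (γ : I → ℚ) (n : I → ℕ) (s : Finset I) (F : LL I) (c : I → Fm I) :
    CTd (fun i => γ i + if i ∈ s then (n i : ℚ) else 0) ((∏ x ∈ s, MvPowerSeries.X x ^ n x) * F) c =
      CTd γ F c := by
  induction s using Finset.induction_on with
  | empty =>
    simp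
  | insert x s hx ih =>
    rw [Finset.prod_insert hx, mul_assoc, ← ih,
      ← CTd_X_pow (fun i => γ i + if i ∈ s then (n i : ℚ) else 0) x (n x)]
    congr 1
    funext i
    by_cases h : i = x
    · subst h
      simp [hx]
    · simp [h]

section

variable {a : I → I → ℕ} {N : Finset I} (H : Hyp a N)

/-- columns `D_{x,l}` for `x ∈ N`, `w` outside. -/
noncomputable def colN (a : I → I → ℕ) (N : Finset I) (l : ℕ) (w : I → Fm I) : I → Fm I :=
  fun i => if i ∈ N then Df a i l else w i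

/-- columns `d f_x` for `x ∈ N`, `w` outside. -/
noncomputable def cold (N : Finset I) (f : I → LL I) (w : I → Fm I) : I → Fm I :=
  fun i => if i ∈ N then (fun l => th l (f i)) else w i

/-- forms regular in all directions of `N`. -/
def RFN (N : Finset I) (w : I → Fm I) : Prop := ∀ i, ∀ x ∈ N, RF x (w i)

/-- outer forms regular in all directions of `N`. -/
def RFo (N : Finset I) (w : I → Fm I) : Prop := ∀ i, i ∉ N → ∀ x ∈ N, RF x (w i)

theorem Df_eq (i : I) (k : ℕ) (l : I) : Df a i k l = Qp a i k (-1) * th l (Qp a i k 1) := by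
  rw [th_Qp, qC_one, one_mul, ← mul_assoc, Qp_neg_mul, one_mul]

/-- the functional in terms of `dQ`. -/
theorem colN_eq (γ : I → ℚ) (F : LL I) (l : ℕ) (w : I → Fm I) :
    CTd γ F (colN a N l w) =
      CTd γ (F * ∏ x ∈ N, Qp a x l (-1)) (cold N (fun x => Qp a x l 1) w) := by
  unfold cold
  rw [← CTd_scaleN γ F N (fun i => Qp a i l (-1))]
  congr 1
  unfold colN
  funext i
  by_cases hi : i ∈ N
  · rw [if_pos hi, if_pos hi]
    funext m
    exact Df_eq i l m
  · rw [if_neg hi, if_neg hi]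

include H in
theorem RFN_cold (f : I → LL I) (hf : ∀ x ∈ N, f x ∈ OO N) (w : I → Fm I) (hw : RFo N w) :
    RFN N (cold N f w) := by
  intro i x hx
  unfold cold
  by_cases hi : i ∈ N
  · rw [if_pos hi]
    exact RF_th (hf i hi x hx)
  · rw [if_neg hi]
    exact hw i hi x hx

include H in
/-- `G Q_{m,l} / ∏ Q_{x,l}` is killed. -/
theorem kill_one (γ : I → ℚ) (l : ℕ) (m : I) (hm : m ∈ N) {G : LL I} (hG : G ∈ OO N)
    {c : I → Fm I} (hc : RFN N c) :
    CTd γ (G * Qp a m l 1 * ∏ x ∈ N, Qp a x l (-1)) c = 0 := by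
  have h1 : G * Qp a m l 1 * ∏ x ∈ N, Qp a x l (-1) = G * ∏ x ∈ N.erase m, Qp a x l (-1) := by
    rw [← Finset.mul_prod_erase N _ hm]
    have := Qp_neg_mul a m l 1
    linear_combination (G * ∏ x ∈ N.erase m, Qp a x l (-1)) * this
  rw [h1]
  apply fact2 m γ _ _ c (fun i => hc i m hm)
  refine Rg_mul (hG m hm) (Rg_prod _ _ (fun x hx => ?_))
  exact Rg_Qp_ne a H.s m (H.l m hm) x (Finset.ne_of_mem_erase hx) l (-1)

/-- the ideal version. -/
theorem kill_ideal (γ : I → ℚ) (l : ℕ) {P : OO N} (hP : P ∈ Jo H l) {G : LL I} (hG : G ∈ OO N)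
    {c : I → Fm I} (hc : RFN N c) :
    CTd γ (G * P * ∏ x ∈ N, Qp a x l (-1)) c = 0 := by
  unfold Jo at hP
  rw [Ideal.span, Submodule.mem_span_range_iff_exists_fun] at hP
  obtain ⟨B, hB⟩ := hP
  have h1 : (P : LL I) = ∑ y : {x // x ∈ N}, (B y : LL I) * Qp a y.1 l 1 := by
    rw [← hB, OO_coe_sum]
    rfl
  have h2 : G * P * ∏ x ∈ N, Qp a x l (-1) =
      ∑ y : {x // x ∈ N}, (G * B y) * Qp a y.1 l 1 * ∏ x ∈ N, Qp a x l (-1) := by
    rw [h1, Finset.mul_sum, Finset.sum_mul]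
    refine Finset.sum_congr rfl (fun y _ => by ring)
  rw [h2, CTd_sum]
  exact Finset.sum_eq_zero (fun y _ => kill_one H γ l y.1 y.2 (Subring.mul_mem _ hG (B y).2) hc)

/-- the product of the `Q_{x,l}`. -/
noncomputable def zo (a : I → I → ℕ) (N : Finset I) (l : ℕ) : LL I := ∏ x ∈ N, Qp a x l 1

include H in
theorem zo_mem (l : ℕ) : zo a N l ∈ OO N := Subring.prod_mem _ (fun x _ => OO_Qp1 H x l)

theorem So_val (l : ℕ) : (So H l : LL I) = zo a N l * ∏ x ∈ N, MvPowerSeries.X x := by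
  unfold So zo
  rw [Subring.coe_mul, OO_coe_prod, OO_coe_prod]
  rfl

/-- the ideal version with a power of `So`. -/
theorem kill_ideal' (γ : I → ℚ) (m l M : ℕ) {P : OO N} (hP : So H m ^ M * P ∈ Jo H l) {G : LL I}
    (hG : G ∈ OO N) {c : I → Fm I} (hc : RFN N c) :
    CTd γ (G * zo a N m ^ M * P * ∏ x ∈ N, Qp a x l (-1)) c = 0 := by
  rw [← CTd_shift γ (fun _ => M) N]
  have h1 : (∏ x ∈ N, MvPowerSeries.X x ^ M : LL I) *
      (G * zo a N m ^ M * P * ∏ x ∈ N, Qp a x l (-1)) =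
      G * ((So H m ^ M * P : OO N) : LL I) * ∏ x ∈ N, Qp a x l (-1) := by
    rw [Subring.coe_mul, Subring.coe_pow, So_val, Finset.prod_pow]
    ring
  rw [h1]
  exact kill_ideal H _ l hP hG hc

/-- vanishing of the functional at level `l`. -/
theorem kill_colN (γ : I → ℚ) (m l M : ℕ) {P : OO N} (hP : So H m ^ M * P ∈ Jo H l) {G : LL I}
    (hG : G ∈ OO N) {w : I → Fm I} (hw : RFo N w) :
    CTd γ (G * zo a N m ^ M * P) (colN a N l w) = 0 := by
  rw [colN_eq]
  exact kill_ideal' H γ m l M hP hG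
    (RFN_cold H _ (fun x _ => OO_Qp1 H x l) w hw)

/-- the subring of series regular in one direction. -/
def RgS (y : I) : Subring (LL I) where
  carrier := {F | Rg y F}
  mul_mem' := fun ha hb => Rg_mul ha hb
  one_mem' := Rg_one y
  add_mem' := fun ha hb => Rg_add ha hb
  zero_mem' := Rg_zero y
  neg_mem' := fun ha => Rg_neg ha

/-- `CT` against a fixed series, as an additive map. -/
noncomputable def CTW (γ : I → ℚ) (W : LL I) : LL I →+ ℚ where
  toFun := fun F => CT γ (F * W)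
  map_zero' := by rw [zero_mul, CT_zero]
  map_add' := fun F G => by rw [add_mul, CT_add]

/-- Transport of the functional from level `l1` to level `l2`. -/
theorem transport (γ : I → ℚ) (m1 m2 l1 l2 M : ℕ)
    (h12 : ∀ x ∈ N, So H m1 ^ M * Qo H x l2 ∈ Jo H l1)
    (h21 : ∀ x ∈ N, So H m2 ^ M * Qo H x l1 ∈ Jo H l2)
    {G : LL I} (hG : G ∈ OO N) {w : I → Fm I} (hw : RFo N w) :
    CTd γ (G * zo a N m2 ^ M * (zo a N m1 ^ M) ^ N.card) (colN a N l1 w) =
      CTd γ (G * zo a N m2 ^ M * (zo a N m1 ^ M) ^ N.card) (colN a N l2 w) := by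
  classical
  -- it is enough to prove it with `So` instead of `zo`
  set ζ : LL I := ((So H m1 ^ M : OO N) : LL I) with hζ
  have hζv : ζ = zo a N m1 ^ M * ∏ x ∈ N, MvPowerSeries.X x ^ M := by
    rw [hζ, Subring.coe_pow, So_val, mul_pow, Finset.prod_pow]
  have hζO : ζ ∈ OO N := (So H m1 ^ M : OO N).2
  set H' : LL I := G * zo a N m2 ^ M with hH'
  have hH'O : H' ∈ OO N := Subring.mul_mem _ hG (Subring.pow_mem _ (zo_mem H m2) M)
  -- the matrix
  have hB : ∀ x ∈ N, ∃ B : {y // y ∈ N} → OO N, ∑ y : {y // y ∈ N}, B y • Qo H y.1 l1 =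
      So H m1 ^ M * Qo H x l2 := by
    intro x hx
    have := h12 x hx
    unfold Jo at this
    rwa [Ideal.span, Submodule.mem_span_range_iff_exists_fun] at this
  choose! B hB using hB
  let A : Matrix I I (LL I) := fun i j =>
    if hi : i ∈ N then (if hj : j ∈ N then (B i ⟨j, hj⟩ : LL I) else 0)
    else (Pi.single i 1 : I → LL I) j
  have hAO : ∀ i j, A i j ∈ OO N := by
    intro i j
    simp only [A]
    split_ifs with hi hj
    · exact (B i ⟨j, hj⟩).2
    · exact Subring.zero_mem _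
    · by_cases hj : j = i
      · subst hj
        rw [Pi.single_eq_same]
        exact Subring.one_mem _
      · rw [Pi.single_eq_of_ne hj]
        exact Subring.zero_mem _
  have hAn : ∀ i, i ∉ N → A i = Pi.single i 1 := by
    intro i hi
    funext j
    simp only [A, dif_neg hi]
  have hAN : ∀ i ∈ N, ∀ j, j ∉ N → A i j = 0 := by
    intro i hi j hj
    simp only [A, dif_pos hi, dif_neg hj]
  have hrel : ∀ x ∈ N, ζ * Qp a x l2 1 = ∑ y ∈ N, A x y * Qp a y l1 1 := by
    intro x hx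
    have h1 := congrArg (Subtype.val) (hB x hx)
    rw [OO_coe_sum] at h1
    have h2 : ((So H m1 ^ M * Qo H x l2 : OO N) : LL I) = ζ * Qp a x l2 1 := rfl
    rw [h2] at h1
    rw [← h1, ← Finset.sum_coe_sort N (fun y => A x y * Qp a y l1 1)]
    refine Finset.sum_congr rfl (fun y _ => ?_)
    have h3 : A x y.1 = B x y := by
      simp only [A, dif_pos hx, dif_pos y.2]
    rw [h3]
    rfl
  -- the transformation law
  set W : LL I := (cM (cold N (fun x => Qp a x l1 1) w)).det with hW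
  have hcold1 : RFN N (cold N (fun x => Qp a x l1 1) w) :=
    RFN_cold H _ (fun x _ => OO_Qp1 H x l1) w hw
  have hcold2 : RFN N (cold N (fun x => Qp a x l2 1) w) :=
    RFN_cold H _ (fun x _ => OO_Qp1 H x l2) w hw
  have key : ∀ γ' : I → ℚ, CTd γ' (H' * A.det * ∏ x ∈ N, Qp a x l2 (-1))
        (cold N (fun x => Qp a x l1 1) w) =
      CTd γ' (H' * ζ ^ N.card * ∏ x ∈ N, Qp a x l1 (-1)) (cold N (fun x => Qp a x l1 1) w) := by
    intro γ'
    refine trans_law A N RgS (CTW γ' W) ?_ (f := fun x => Qp a x l1 1)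
      (g := fun x => Qp a x l2 1) (u := fun x => Qp a x l1 (-1)) (v := fun x => Qp a x l2 (-1))
      (ζ := ζ) (H := H') ?_ ?_ ?_ ?_ ?_ ?_ ?_ hAn hAN hrel
    · intro x hx F hF
      exact fact2 x γ' F hF _ (fun i => hcold1 i x hx)
    · intro x _
      exact Qp_neg_mul a x l1 1
    · intro x _
      exact Qp_neg_mul a x l2 1
    · intro x _ y hy hyx
      exact Rg_Qp_ne a H.s y (H.l y hy) x (Ne.symm hyx) l1 (-1)
    · intro x _ y hy hyx
      exact Rg_Qp_ne a H.s y (H.l y hy) x (Ne.symm hyx) l2 (-1)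
    · intro i j y hy
      exact hAO i j y hy
    · intro y hy
      exact hζO y hy
    · intro y hy
      exact hH'O y hy
  -- columns `A df`
  let c1 : I → Fm I := fun i => if i ∈ N then
    (fun l => ∑ y ∈ N, A i y * th l (Qp a y l1 1)) else w i
  let c2 : I → Fm I := fun i => if i ∈ N then (fun l => ζ * th l (Qp a i l2 1)) else w i
  have hc1R : RFN N c1 := by
    intro i x hx
    by_cases hi : i ∈ N
    · simp only [c1, if_pos hi]
      exact RF_sum N _ (fun y _ => RF_smul (RF_th (OO_Qp1 H y l1 x hx)) (hAO i y x hx))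
    · simp only [c1, if_neg hi]
      exact hw i hi x hx
  have hc2R : RFN N c2 := by
    intro i x hx
    by_cases hi : i ∈ N
    · simp only [c2, if_pos hi]
      exact RF_smul (RF_th (OO_Qp1 H i l2 x hx)) (hζO x hx)
    · simp only [c2, if_neg hi]
      exact hw i hi x hx
  have hmat : ∀ (γ' : I → ℚ) (F : LL I), CTd γ' (F * A.det) (cold N (fun x => Qp a x l1 1) w) =
      CTd γ' F c1 := by
    intro γ' F
    unfold CTd
    have h1 : cM c1 = cM (cold N (fun x => Qp a x l1 1) w) * A.transpose := by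
      apply Matrix.ext
      intro l i
      rw [Matrix.mul_apply]
      simp only [Matrix.transpose_apply]
      by_cases hi : i ∈ N
      · have h2 : cM c1 l i = ∑ y ∈ N, A i y * th l (Qp a y l1 1) := by
          simp only [cM, Matrix.of_apply, c1, if_pos hi]
        rw [h2, ← Finset.sum_subset (Finset.subset_univ N)]
        · refine Finset.sum_congr rfl (fun y hy => ?_)
          simp only [cM, Matrix.of_apply, cold, if_pos hy]
          ring
        · intro y _ hy
          rw [hAN i hi y hy, mul_zero]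
      · have h2 : cM c1 l i = w i l := by
          simp only [cM, Matrix.of_apply, c1, if_neg hi]
        rw [h2, Finset.sum_eq_single i]
        · rw [hAn i hi, Pi.single_eq_same, mul_one]
          simp only [cM, Matrix.of_apply, cold, if_neg hi]
        · intro y _ hy
          rw [hAn i hi, Pi.single_eq_of_ne hy, mul_zero]
        · intro h
          exact absurd (Finset.mem_univ i) h
    rw [h1, Matrix.det_mul, Matrix.det_transpose]
    congr 1
    ring
  -- error terms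
  have err1 : ∀ (γ' : I → ℚ) (m : I) (hm : m ∈ N) (c : I → Fm I), RFN N c →
      CTd γ' (H' * (∏ x ∈ N, Qp a x l2 (-1)) * Qp a m l2 1) c = 0 := by
    intro γ' m hm c hc
    have h1 : H' * (∏ x ∈ N, Qp a x l2 (-1)) * Qp a m l2 1 =
        H' * Qp a m l2 1 * ∏ x ∈ N, Qp a x l2 (-1) := by ring
    rw [h1]
    exact kill_one H γ' l2 m hm hH'O hc
  have err2 : ∀ (γ' : I → ℚ) (m : I) (hm : m ∈ N) (c : I → Fm I), RFN N c →
      CTd γ' (H' * (∏ x ∈ N, Qp a x l2 (-1)) * Qp a m l1 1) c = 0 := by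
    intro γ' m hm c hc
    have h1 : H' * (∏ x ∈ N, Qp a x l2 (-1)) * Qp a m l1 1 =
        G * zo a N m2 ^ M * ((Qo H m l1 : OO N) : LL I) * ∏ x ∈ N, Qp a x l2 (-1) := by
      rw [hH']
      change _ = G * zo a N m2 ^ M * Qp a m l1 1 * ∏ x ∈ N, Qp a x l2 (-1)
      ring
    rw [h1]
    exact kill_ideal' H γ' m2 l2 M (h21 m hm) hG hc
  have hstep : ∀ (γ' : I → ℚ) (T : Finset I), T ⊆ N →
      CTd γ' (H' * ∏ x ∈ N, Qp a x l2 (-1)) (fun i => if i ∈ T then c2 i else c1 i) =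
      CTd γ' (H' * ∏ x ∈ N, Qp a x l2 (-1)) c1 := by
    intro γ' T
    induction T using Finset.induction_on with
    | empty =>
      intro _
      simp
    | insert x T hx ih =>
      intro hTN
      have hxN : x ∈ N := hTN (Finset.mem_insert_self x T)
      rw [← ih (fun z hz => hTN (Finset.mem_insert_of_mem hz))]
      set c : I → Fm I := fun i => if i ∈ T then c2 i else c1 i with hc
      have hcR : RFN N c := by
        intro i y hy
        simp only [hc]
        split_ifs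
        · exact hc2R i y hy
        · exact hc1R i y hy
      have e1 : (fun i => if i ∈ insert x T then c2 i else c1 i) = Function.update c x (c2 x) := by
        funext i
        by_cases hi : i = x
        · subst hi
          rw [Function.update_self, if_pos (Finset.mem_insert_self i T)]
        · rw [Function.update_of_ne hi]
          simp [hc, hi]
      have e2 : c = Function.update c x (c1 x) := by
        funext i
        by_cases hi : i = x
        · subst hi
          rw [Function.update_self]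
          simp [hc, hx]
        · rw [Function.update_of_ne hi]
      -- `c1 x = c2 x + errors`
      have e3 : c1 x = fun l => c2 x l + ((fun l => Qp a x l2 1 * th l ζ) l +
          (fun l => ∑ y ∈ N, Qp a y l1 1 * (-th l (A x y))) l) := by
        funext l
        have h1 := congrArg (th l) (hrel x hxN)
        rw [th_mul, th_sum] at h1
        have h2 : ∑ y ∈ N, th l (A x y * Qp a y l1 1) =
            ∑ y ∈ N, A x y * th l (Qp a y l1 1) +
            ∑ y ∈ N, Qp a y l1 1 * th l (A x y) := by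
          rw [← Finset.sum_add_distrib]
          refine Finset.sum_congr rfl (fun y _ => ?_)
          rw [th_mul]
          ring
        have h3 : ∑ y ∈ N, Qp a y l1 1 * (-th l (A x y)) =
            -∑ y ∈ N, Qp a y l1 1 * th l (A x y) := by
          rw [← Finset.sum_neg_distrib]
          exact Finset.sum_congr rfl (fun y _ => by ring)
        rw [h2] at h1
        simp only [c1, c2, if_pos hxN]
        rw [h3]
        linear_combination -h1
      rw [e1]
      conv_rhs => rw [e2, e3]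
      rw [CTd_update_add, CTd_update_add, CTd_update_smul, CTd_update_sum]
      have hup : ∀ v : Fm I, (∀ y ∈ N, RF y v) → RFN N (Function.update c x v) := by
        intro v hv i y hy
        by_cases hi : i = x
        · subst hi
          rw [Function.update_self]
          exact hv y hy
        · rw [Function.update_of_ne hi]
          exact hcR i y hy
      rw [err1 γ' x hxN _ (hup _ (fun y hy => RF_th (hζO y hy))), zero_add]
      rw [Finset.sum_eq_zero, add_zero]
      intro y hy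
      rw [CTd_update_smul]
      apply err2 γ' y hy _ (hup _ _)
      intro z hz
      have h4 := RF_th (I := I) (x := z) (F := -A x y) (Rg_neg (hAO x y z hz))
      have h5 : (fun l => -th l (A x y)) = fun l => th l (-A x y) := by
        funext l
        rw [th_neg]
      rw [h5]
      exact h4
  have hall : ∀ γ' : I → ℚ, CTd γ' (H' * ζ ^ N.card) (colN a N l1 w) =
      CTd γ' (H' * ζ ^ N.card) (colN a N l2 w) := by
    intro γ'
    rw [colN_eq, ← key γ']
    have h1 : H' * A.det * ∏ x ∈ N, Qp a x l2 (-1) =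
        (H' * ∏ x ∈ N, Qp a x l2 (-1)) * A.det := by ring
    rw [h1, hmat, ← hstep γ' N (Finset.Subset.refl N)]
    have h2 : (fun i => if i ∈ N then c2 i else c1 i) =
        fun i => if i ∈ N then (fun l => ζ * (fun l => th l (Qp a i l2 1)) l) else w i := by
      funext i
      by_cases hi : i ∈ N
      · simp only [if_pos hi, c2]
      · simp only [if_neg hi, c1]
    rw [h2, CTd_scaleN γ' _ N (fun _ => ζ) (fun i l => th l (Qp a i l2 1)) w, colN_eq,
      Finset.prod_const]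
    unfold cold
    congr 1
    ring
  -- remove the series variables
  have hfin := hall (fun i => γ i + if i ∈ N then ((M * N.card : ℕ) : ℚ) else 0)
  have h3 : H' * ζ ^ N.card = (∏ x ∈ N, MvPowerSeries.X x ^ (M * N.card)) *
      (H' * (zo a N m1 ^ M) ^ N.card) := by
    rw [hζv, mul_pow, ← Finset.prod_pow]
    simp only [← pow_mul]
    ring
  rw [h3, CTd_shift γ (fun _ => M * N.card) N, CTd_shift γ (fun _ => M * N.card) N] at hfin
  exact hfin

end

end Pool.Agent.H10.KAC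

end

section

/-!
Run lemma, module 11: the crossing identity for large insertions.
-/

set_option autoImplicit false
set_option maxHeartbeats 400000

namespace Pool.Agent.H10.KAC

open scoped BigOperators
open Pool.Agent.H46.KA Pool.Agent.H27.KAC

variable {I : Type} [Fintype I] [DecidableEq I]

/-- the ideal `{t | s t ∈ J}`. -/
def colI {O : Type} [CommRing O] (s : O) (J : Ideal O) : Ideal O where
  carrier := {t | s * t ∈ J}
  add_mem' := fun {x y} hx hy => by
    change s * (x + y) ∈ J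
    rw [mul_add]
    exact J.add_mem hx hy
  zero_mem' := by
    change s * 0 ∈ J
    rw [mul_zero]
    exact J.zero_mem
  smul_mem' := fun c x hx => by
    change s * (c • x) ∈ J
    rw [smul_eq_mul, mul_left_comm]
    exact J.mul_mem_left c hx

theorem mem_colI {O : Type} [CommRing O] {s t : O} {J : Ideal O} : t ∈ colI s J ↔ s * t ∈ J :=
  Iff.rfl

/-- congruence of products. -/
theorem prod_pow_congr {O ι : Type} [CommRing O] (J : Ideal O) (s : Finset ι) (u v : ι → O)
    (n : ι → ℕ) (h : ∀ i ∈ s, u i - v i ∈ J) : ∏ i ∈ s, u i ^ n i - ∏ i ∈ s, v i ^ n i ∈ J := by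
  rw [← Ideal.Quotient.eq_zero_iff_mem, map_sub, sub_eq_zero, map_prod, map_prod]
  refine Finset.prod_congr rfl (fun i hi => ?_)
  rw [map_pow, map_pow]
  congr 1
  rw [← sub_eq_zero, ← map_sub, Ideal.Quotient.eq_zero_iff_mem]
  exact h i hi

section

variable {a : I → I → ℕ} {N : Finset I} (H : Hyp a N)

/-- data of the run starting at the base level `b`. -/
structure RunD (h b M : ℕ) (ε : I → ℤ) (R : I → I → ℕ) : Prop where
  two_le : 2 ≤ h
  sgn : ∀ x, ε x = 1 ∨ ε x = -1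
  rR : ∀ x ∈ N, ∀ z ∈ N, 2 * R x z = (if z = x then h else 0) + ∑ y ∈ N, a x y * R y z
  f1 : ∀ x ∈ N, ∀ l, b < l → l < b + h → So H b ^ M * Qo H x l ∈ Jo H (b + 1)
  f2 : ∀ x ∈ N, So H b ^ M * (Qo H x (b + h) -
          (ε x : OO N) * Qo H x b * ∏ z ∈ N, rr H z b ^ R x z) ∈ Jo H (b + 1)
  b1 : ∀ x ∈ N, ∀ l, b < l → l < b + h → So H (b + h) ^ M * Qo H x l ∈ Jo H (b + h - 1)
  b2 : ∀ x ∈ N, So H (b + h) ^ M * ((∏ z ∈ N, rr H z (b + h - 1) ^ R x z) * Qo H x b -
          (ε x : OO N) * Qo H x (b + h)) ∈ Jo H (b + h - 1)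

/-- insertion `∏_{x ∈ N} Q_{x,l}^{e_x}`. -/
noncomputable def insN (e : I → ℕ) (l : ℕ) : OO N := ∏ x ∈ N, Qo H x l ^ e x

/-- outer factor `∏_{i ∉ N} Q_{i,l}^{-p_i}`. -/
noncomputable def outN (p : I → ℚ) (l : ℕ) : OO N := ∏ i ∈ Nᶜ, Po H i l (-p i)

theorem insN_split (e e' : I → ℕ) (l M : ℕ) (h : ∀ x ∈ N, e x = M + e' x) :
    insN H e l = ((∏ x ∈ N, Qo H x l) ^ M) * insN H e' l := by
  unfold insN
  rw [← Finset.prod_pow, ← Finset.prod_mul_distrib]
  refine Finset.prod_congr rfl (fun x hx => ?_)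
  rw [← pow_add, h x hx]

theorem zo_val (l : ℕ) : ((∏ x ∈ N, Qo H x l : OO N) : LL I) = zo a N l := by
  rw [OO_coe_prod]
  rfl

/-- vanishing: a factor `t` of the colon ideal is killed in the presence of `z_m^M`. -/
theorem kill_col (γ : I → ℚ) (m l M : ℕ) {t : OO N} (ht : t ∈ colI (So H m ^ M) (Jo H l))
    (G : OO N) {w : I → Fm I} (hw : RFo N w) :
    CTd γ ((G * (∏ x ∈ N, Qo H x m) ^ M * t : OO N) : LL I) (colN a N l w) = 0 := by
  have h0 : ((G * (∏ x ∈ N, Qo H x m) ^ M * t : OO N) : LL I) =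
      (G : LL I) * zo a N m ^ M * (t : LL I) := by
    rw [Subring.coe_mul, Subring.coe_mul, Subring.coe_pow, zo_val]
  rw [h0]
  exact kill_colN H γ m l M (P := t) (mem_colI.mp ht) G.2 hw

theorem congr_col (γ : I → ℚ) (m l M : ℕ) {t t' : OO N}
    (ht : t - t' ∈ colI (So H m ^ M) (Jo H l))
    (G : OO N) {w : I → Fm I} (hw : RFo N w) :
    CTd γ ((G * (∏ x ∈ N, Qo H x m) ^ M * t : OO N) : LL I) (colN a N l w) =
      CTd γ ((G * (∏ x ∈ N, Qo H x m) ^ M * t' : OO N) : LL I) (colN a N l w) := by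
  have h1 := kill_col H γ m l M ht G hw
  have h2 : ((G * (∏ x ∈ N, Qo H x m) ^ M * (t - t') : OO N) : LL I) =
      ((G * (∏ x ∈ N, Qo H x m) ^ M * t : OO N) : LL I) -
        ((G * (∏ x ∈ N, Qo H x m) ^ M * t' : OO N) : LL I) := by
    rw [← OO_coe_sub]
    congr 1
    ring
  rw [h2, CTd_sub] at h1
  exact sub_eq_zero.mp h1

/-- log-linearity: the factor `(1 - η_{i,l})^β` may be dropped if `η_{i,l}` is in the colon ideal. -/
theorem drop_V (γ : I → ℚ) (m lev M : ℕ) (i : I) (hi : i ∉ N) (l : ℕ) (x : I) (hx : x ∈ N)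
    (hxi : a x i ≠ 0) (hQ : Qo H x (l + 1) ∈ colI (So H m ^ M) (Jo H lev)) (β : ℚ)
    (G : OO N) {w : I → Fm I} (hw : RFo N w) :
    CTd γ (((G * (∏ x ∈ N, Qo H x m) ^ M : OO N) : LL I) * Vp a i l β) (colN a N lev w) =
      CTd γ ((G * (∏ x ∈ N, Qo H x m) ^ M : OO N) : LL I) (colN a N lev w) := by
  classical
  obtain ⟨e, heO, he⟩ := eta_dvd H i hi x hx hxi (l + 1)
  set E : OO N := Qo H x (l + 1) * ⟨e, heO⟩ with hE
  have hEv : (E : LL I) = eta a i (l + 1) := by
    rw [he]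
    rfl
  have hEc : E ∈ colI (So H m ^ M) (Jo H lev) := Ideal.mul_mem_right _ _ hQ
  -- choose the truncation
  obtain ⟨K, hK1, hK⟩ : ∃ K : ℕ, 1 ≤ K ∧ ∀ n : I →₀ ℕ, (∀ j, (n j : ℚ) = γ j) →
      n i < (l + 1) * K := by
    by_cases h : ∃ n : I →₀ ℕ, ∀ j, (n j : ℚ) = γ j
    · obtain ⟨n, hn⟩ := h
      refine ⟨n i + 1, by omega, fun n' hn' => ?_⟩
      have : n' i = n i := by
        have h1 := hn i
        have h2 := hn' i
        rw [← h2] at h1
        exact_mod_cast h1.symm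
      rw [this]
      calc n i < n i + 1 := Nat.lt_succ_self _
        _ ≤ (l + 1) * (n i + 1) := Nat.le_mul_of_pos_left _ (Nat.succ_pos l)
    · exact ⟨1, le_rfl, fun n hn => absurd ⟨n, hn⟩ h⟩
  obtain ⟨Rm, hR1, hR2⟩ := Vp_trunc a H.s i l β γ K hK
  rw [hR1, mul_add, CTd_add]
  have hrem : CTd γ (((G * (∏ x ∈ N, Qo H x m) ^ M : OO N) : LL I) * Rm) (colN a N lev w) = 0 := by
    unfold CTd
    have h1 : ((G * (∏ x ∈ N, Qo H x m) ^ M : OO N) : LL I) * Rm * (cM (colN a N lev w)).det =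
        Rm * (((G * (∏ x ∈ N, Qo H x m) ^ M : OO N) : LL I) * (cM (colN a N lev w)).det) := by ring
    rw [h1]
    exact hR2 _
  rw [hrem, add_zero, Finset.mul_sum, CTd_sum]
  obtain ⟨K', rfl⟩ : ∃ K', K = K' + 1 := ⟨K - 1, by omega⟩
  rw [Finset.sum_range_succ']
  have h0 : CTd γ (((G * (∏ x ∈ N, Qo H x m) ^ M : OO N) : LL I) *
      (qC (Ring.choose β 0) * (-eta a i (l + 1)) ^ 0)) (colN a N lev w) =
      CTd γ ((G * (∏ x ∈ N, Qo H x m) ^ M : OO N) : LL I) (colN a N lev w) := by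
    rw [Ring.choose_zero_right, qC_one, pow_zero, mul_one, mul_one]
  rw [h0, Finset.sum_eq_zero, zero_add]
  intro n _
  have h1 : ((G * (∏ x ∈ N, Qo H x m) ^ M : OO N) : LL I) *
      (qC (Ring.choose β (n + 1)) * (-eta a i (l + 1)) ^ (n + 1)) =
      qC (Ring.choose β (n + 1)) *
        ((G * (∏ x ∈ N, Qo H x m) ^ M * (-E) ^ (n + 1) : OO N) : LL I) := by
    have h2 : (((-E) ^ (n + 1) : OO N) : LL I) = (-eta a i (l + 1)) ^ (n + 1) := by
      rw [Subring.coe_pow, Subring.coe_neg, hEv]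
    rw [Subring.coe_mul (OO N) (G * (∏ x ∈ N, Qo H x m) ^ M) ((-E) ^ (n + 1)), h2]
    ring
  rw [h1, CTd_qC, kill_col H γ m lev M _ G hw, mul_zero]
  rw [pow_succ]
  exact Ideal.mul_mem_left _ _ (Ideal.neg_mem_iff _ |>.mpr hEc)

end

end Pool.Agent.H10.KAC

end

section

/-!
Run lemma, module 12: the crossing identity for large insertions.
-/

set_option autoImplicit false
set_option maxHeartbeats 200000

namespace Pool.Agent.H10.KAC

open scoped BigOperators
open Pool.Agent.H46.KA Pool.Agent.H27.KAC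

section alg

variable {O : Type} [CommRing O]

theorem alg1 (x1 x1' x2 x2' x3 y z : O) (h1 : x1' * x1 = 1) (h2 : x2' * x2 = 1) :
    x2 * x1' * y * z * (x3 * x1 * (x2' * x2')) = x3 * x2' * y * z := by
  linear_combination (x3 * x2' * y * z) * h2 + (x2 * y * z * x3 * x2' * x2') * h1

theorem alg2 (A A' B C D y z : O) (h : A' * A = 1) :
    A * B * C * (D * A' * y * z) = D * (B * y) * (C * z) := by
  linear_combination (B * C * D * y * z) * h

theorem alg3 (P P' Q Q' S S' u : O) (h1 : P' * P = 1) (h2 : Q' * Q = 1) (h3 : S' * S = 1) :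
    u = P * Q' * S' * (S * P' * (Q * u)) := by
  linear_combination (-u) * h1 - (P' * P * u) * h2 - (P' * P * Q' * Q * u) * h3

theorem alg4 (X Y o i : O) (W : O) : X * (i * (Y * o * W)) = i * (X * Y) * o * W := by
  ring

theorem alg5 (X i o F : O) : X * (i * o * F) = (X * (i * o)) * F := by ring

theorem alg6 (t o W F : O) : t * o * W * F = t * o * F * W := by ring

theorem alg7 (z r t o F : O) : z * (r * t) * o * F = (r * t) * o * F * z := by ring

theorem alg8 (z r t v o F : O) : z * (r * t) * v * o * F = r * t * o * F * z * v := by ring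

theorem alg9 (z r t ε z' o F : O) : z * (r * t) * (ε * z') * o * F =
    (ε * (r * t) * o * F) * z' * z := by ring

theorem alg10 (t ε z' o F : O) : t * (ε * z') * o * F = ε * o * F * z' * t := by ring

theorem alg12 (q r t : O) (n : ℕ) : (q * r) ^ n * t = q ^ n * (r ^ n * t) := by
  rw [mul_pow, mul_assoc]

theorem alg13 (ε i o F : O) : ε * i * o * F = ε * (i * o * F) := by ring

theorem alg14 (G V z W : O) : G * z * (V * W) = (G * V) * z * W := by ring

theorem alg15 (G V z : O) : G * V * z = G * z * V := by ring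

end alg

variable {I : Type} [Fintype I] [DecidableEq I]

section

variable {a : I → I → ℕ} {N : Finset I} (H : Hyp a N)

/-- `(1 - η_{i,l+1})^β` in `OO N`, for `i ∉ N`. -/
noncomputable def Vo (i : I) (l : ℕ) (β : ℚ) : OO N :=
  Po H i (l + 2) β * Po H i l β * Po H i (l + 1) (-2 * β)

theorem Vo_val (i : I) (hi : i ∉ N) (l : ℕ) (β : ℚ) : (Vo H i l β : LL I) = Vp a i l β := by
  unfold Vo Vp
  rw [Subring.coe_mul, Subring.coe_mul, Po_val H i hi, Po_val H i hi, Po_val H i hi]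

theorem Vo_zero (i : I) (l : ℕ) : Vo H i l 0 = 1 := by
  unfold Vo
  rw [mul_zero, Po_zero, Po_zero, Po_zero, one_mul, one_mul]

theorem Vo_add (i : I) (l : ℕ) (β β' : ℚ) : Vo H i l (β + β') = Vo H i l β * Vo H i l β' := by
  unfold Vo
  rw [Po_add, Po_add, mul_add, Po_add]
  ring

theorem Vo_tele1 (i : I) (b m : ℕ) (α : ℚ) :
    ∏ l ∈ Finset.range (m + 1), Vo H i (b + l) α =
      Po H i (b + m + 2) α * Po H i (b + m + 1) (-α) * Po H i (b + 1) (-α) * Po H i b α := by
  induction m with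
  | zero =>
    rw [zero_add, Finset.prod_range_one]
    unfold Vo
    have : (-2 * α) = -α + -α := by ring
    rw [this, Po_add]
    simp only [add_zero]
    ring
  | succ m ih =>
    rw [Finset.prod_range_succ, ih]
    unfold Vo
    have h1 : (-2 * α) = -α + -α := by ring
    rw [h1, Po_add]
    have e1 := Po_neg H i (b + m + 2) α
    have e2 := Po_neg H i (b + m + 1) α
    have e3 : b + (m + 1) + 2 = b + m + 3 := by ring
    have e4 : b + (m + 1) + 1 = b + m + 2 := by ring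
    have e5 : b + (m + 1) = b + m + 1 := by ring
    rw [e3, e4, e5]
    exact alg1 _ _ _ _ _ _ _ e2 e1

theorem Vo_tele (i : I) (b m : ℕ) (α : ℚ) :
    ∏ l ∈ Finset.range m, Vo H i (b + l) (((m : ℚ) - l) * α) =
      Po H i (b + m + 1) α * Po H i (b + 1) (-((m + 1) * α)) * Po H i b (m * α) := by
  induction m with
  | zero =>
    rw [Finset.range_zero, Finset.prod_empty, Nat.cast_zero, zero_mul, Po_zero, mul_one, zero_add,
      one_mul, add_zero]
    rw [mul_comm]
    exact (Po_neg H i (b + 1) α).symm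
  | succ m ih =>
    have h1 : ∏ l ∈ Finset.range (m + 1), Vo H i (b + l) ((((m + 1 : ℕ) : ℚ) - l) * α) =
        (∏ l ∈ Finset.range m, Vo H i (b + l) (((m : ℚ) - l) * α)) *
        ∏ l ∈ Finset.range (m + 1), Vo H i (b + l) α := by
      rw [Finset.prod_range_succ, Finset.prod_range_succ (fun l => Vo H i (b + l) α), ← mul_assoc,
        ← Finset.prod_mul_distrib]
      have g1 : (((m + 1 : ℕ) : ℚ) - m) * α = α := by
        push_cast
        ring
      rw [g1]
      refine congrArg (· * Vo H i (b + m) α) (Finset.prod_congr rfl (fun l _ => ?_))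
      have g2 : (((m + 1 : ℕ) : ℚ) - l) * α = ((m : ℚ) - l) * α + α := by
        push_cast
        ring
      rw [g2, Vo_add]
    rw [h1, ih, Vo_tele1]
    have e1 := Po_neg H i (b + m + 1) α
    have e2 : (-((((m + 1 : ℕ) : ℚ) + 1) * α)) = -((m + 1) * α) + -α := by
      push_cast
      ring
    have e3 : ((m + 1 : ℕ) : ℚ) * α = m * α + α := by
      push_cast
      ring
    rw [e2, e3, Po_add, Po_add]
    have e4 : b + (m + 1) + 1 = b + m + 2 := by ring
    rw [e4]
    exact alg2 _ _ _ _ _ _ _ e1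

/-- dropping one factor. -/
theorem drop_Vo (γ : I → ℚ) (m lev M : ℕ) (i : I) (hi : i ∉ N) (l : ℕ) (β : ℚ)
    (h : β = 0 ∨ ∃ x ∈ N, a x i ≠ 0 ∧ Qo H x (l + 1) ∈ colI (So H m ^ M) (Jo H lev))
    (G : OO N) {w : I → Fm I} (hw : RFo N w) :
    CTd γ ((G * (∏ x ∈ N, Qo H x m) ^ M * Vo H i l β : OO N) : LL I) (colN a N lev w) =
      CTd γ ((G * (∏ x ∈ N, Qo H x m) ^ M : OO N) : LL I) (colN a N lev w) := by
  rcases h with rfl | ⟨x, hx, hxi, hQ⟩
  · rw [Vo_zero, mul_one]
  · rw [Subring.coe_mul (OO N) (G * (∏ x ∈ N, Qo H x m) ^ M) (Vo H i l β), Vo_val H i hi]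
    exact drop_V H γ m lev M i hi l x hx hxi hQ β G hw

/-- dropping a product of factors. -/
theorem drop_Vs (γ : I → ℚ) (m lev M : ℕ) {ι : Type} (s : Finset ι) (i : ι → I) (l : ι → ℕ)
    (β : ι → ℚ) (hi : ∀ k ∈ s, i k ∉ N)
    (h : ∀ k ∈ s, β k = 0 ∨ ∃ x ∈ N, a x (i k) ≠ 0 ∧
      Qo H x (l k + 1) ∈ colI (So H m ^ M) (Jo H lev))
    (G : OO N) {w : I → Fm I} (hw : RFo N w) :
    CTd γ ((G * (∏ x ∈ N, Qo H x m) ^ M * ∏ k ∈ s, Vo H (i k) (l k) (β k) : OO N) : LL I)
        (colN a N lev w) =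
      CTd γ ((G * (∏ x ∈ N, Qo H x m) ^ M : OO N) : LL I) (colN a N lev w) := by
  classical
  induction s using Finset.induction_on generalizing G with
  | empty => rw [Finset.prod_empty, mul_one]
  | insert k s hk ih =>
    rw [Finset.prod_insert hk]
    have e1 : G * (∏ x ∈ N, Qo H x m) ^ M * (Vo H (i k) (l k) (β k) *
        ∏ k ∈ s, Vo H (i k) (l k) (β k)) = (G * Vo H (i k) (l k) (β k)) *
        (∏ x ∈ N, Qo H x m) ^ M * ∏ k ∈ s, Vo H (i k) (l k) (β k) := alg14 _ _ _ _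
    rw [e1, ih (fun k' hk' => hi k' (Finset.mem_insert_of_mem hk'))
      (fun k' hk' => h k' (Finset.mem_insert_of_mem hk'))]
    have e2 : G * Vo H (i k) (l k) (β k) * (∏ x ∈ N, Qo H x m) ^ M =
        G * (∏ x ∈ N, Qo H x m) ^ M * Vo H (i k) (l k) (β k) := alg15 _ _ _
    rw [e2]
    exact drop_Vo H γ m lev M (i k) (hi k (Finset.mem_insert_self k s)) (l k) (β k)
      (h k (Finset.mem_insert_self k s)) G hw

theorem Po_mulNat (i : I) (l : ℕ) (α : ℚ) (n : ℕ) : Po H i l (α * n) = Po H i l α ^ n := by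
  induction n with
  | zero => rw [Nat.cast_zero, mul_zero, Po_zero, pow_zero]
  | succ n ih => rw [Nat.cast_succ, mul_add, mul_one, Po_add, ih, pow_succ]

theorem Po_sum (i : I) (l : ℕ) {ι : Type} (s : Finset ι) (f : ι → ℚ) :
    Po H i l (∑ k ∈ s, f k) = ∏ k ∈ s, Po H i l (f k) := by
  classical
  induction s using Finset.induction_on with
  | empty => rw [Finset.sum_empty, Finset.prod_empty, Po_zero]
  | insert k s hk ih => rw [Finset.sum_insert hk, Finset.prod_insert hk, Po_add, ih]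

/-- powers of `rr`. -/
theorem rr_pow_prod (b : ℕ) (n : I → ℕ) (P : I → ℚ)
    (hP : ∀ i, i ∉ N → P i = ∑ z ∈ N, (a z i : ℚ) * n z) :
    ∏ z ∈ N, rr H z b ^ n z = (∏ z ∈ N, Xo N z ^ n z) *
      ∏ i ∈ Nᶜ, (Po H i (b + 1) (P i) * Po H i b (-P i)) := by
  have h1 : ∀ i ∈ Nᶜ, Po H i (b + 1) (P i) * Po H i b (-P i) =
      ∏ z ∈ N, (Po H i (b + 1) (a z i) * Po H i b (-(a z i : ℚ))) ^ n z := by
    intro i hi
    rw [hP i (Finset.mem_compl.mp hi), ← Finset.sum_neg_distrib, Po_sum, Po_sum,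
      ← Finset.prod_mul_distrib]
    refine Finset.prod_congr rfl (fun z _ => ?_)
    rw [mul_pow, ← Po_mulNat, ← Po_mulNat]
    congr 2
    ring
  rw [Finset.prod_congr rfl h1, Finset.prod_comm, ← Finset.prod_mul_distrib]
  refine Finset.prod_congr rfl (fun z _ => ?_)
  unfold rr
  rw [mul_pow, ← Finset.prod_pow]

variable {h b M : ℕ} {ε : I → ℤ} {R : I → I → ℕ}

/-- `T_x = Q_{x,b} ρ_x`. -/
noncomputable def Tx (b : ℕ) (R : I → I → ℕ) (x : I) : OO N :=
  Qo H x b * ∏ z ∈ N, rr H z b ^ R x z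

theorem Tx_f (D : RunD H h b M ε R) (x : I) (hx : x ∈ N) :
    Tx H b R x - (ε x : OO N) * Qo H x (b + h) ∈ colI (So H b ^ M) (Jo H (b + 1)) := by
  have h1 := Ideal.mul_mem_left _ (-(ε x : OO N)) (mem_colI.mpr (D.f2 x hx))
  have h2 : (ε x : OO N) * (ε x : OO N) = 1 := by
    rcases D.sgn x with h | h <;> rw [h] <;> simp
  have h3 : Tx H b R x - (ε x : OO N) * Qo H x (b + h) = -(ε x : OO N) * (Qo H x (b + h) -
          (ε x : OO N) * Qo H x b * ∏ z ∈ N, rr H z b ^ R x z) := by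
    unfold Tx
    linear_combination (-(Qo H x b * ∏ z ∈ N, rr H z b ^ R x z)) * h2
  rw [h3]
  exact h1

theorem rr_congr (D : RunD H h b M ε R) (z : I) (hz : z ∈ N) (m : ℕ) (hm : m + 1 ≤ h) :
    m + 1 < h → rr H z (b + m + 1) - rr H z (b + m) ∈
      colI (So H (b + h) ^ M) (Jo H (b + h - 1)) := by
  intro hlt
  obtain ⟨G, hG⟩ := rr_succ H z hz (b + m)
  have h1 : rr H z (b + m + 1) - rr H z (b + m) = (-(rr H z (b + m) * G)) * Qo H z (b + m + 1) := by
    rw [hG]
    ring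
  rw [h1]
  exact Ideal.mul_mem_left _ _ (mem_colI.mpr (D.b1 z hz (b + m + 1) (by omega) (by omega)))

theorem rr_congr' (D : RunD H h b M ε R) (z : I) (hz : z ∈ N) (m : ℕ) (hm : m + 1 ≤ h) :
    rr H z (b + m) - rr H z b ∈ colI (So H (b + h) ^ M) (Jo H (b + h - 1)) := by
  induction m with
  | zero =>
    rw [add_zero, sub_self]
    exact Ideal.zero_mem _
  | succ m ih =>
    have h1 := ih (by omega)
    have h2 := rr_congr H D z hz m (by omega) (by omega)
    have h3 := Ideal.add_mem _ h2 h1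
    rw [sub_add_sub_cancel] at h3
    exact h3

theorem Tx_b (D : RunD H h b M ε R) (x : I) (hx : x ∈ N) :
    Tx H b R x - (ε x : OO N) * Qo H x (b + h) ∈
      colI (So H (b + h) ^ M) (Jo H (b + h - 1)) := by
  have h1 := mem_colI.mpr (D.b2 x hx)
  have h2 := D.two_le
  have h3 : ∏ z ∈ N, rr H z (b + h - 1) ^ R x z - ∏ z ∈ N, rr H z b ^ R x z ∈
      colI (So H (b + h) ^ M) (Jo H (b + h - 1)) := by
    apply prod_pow_congr
    intro z hz
    have h4 := rr_congr' H D z hz (h - 1) (by omega)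
    have h5 : b + (h - 1) = b + h - 1 := by omega
    rwa [h5] at h4
  have h6 := Ideal.sub_mem _ h1 (Ideal.mul_mem_right (Qo H x b) _ h3)
  have h7 : Tx H b R x - (ε x : OO N) * Qo H x (b + h) =
      ((∏ z ∈ N, rr H z (b + h - 1) ^ R x z) * Qo H x b - (ε x : OO N) * Qo H x (b + h)) -
      (∏ z ∈ N, rr H z (b + h - 1) ^ R x z - ∏ z ∈ N, rr H z b ^ R x z) * Qo H x b := by
    unfold Tx
    ring
  rw [h7]
  exact h6

theorem int_out (γ : I → ℚ) (n : ℤ) (F : OO N) (c : I → Fm I) :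
    CTd γ (((n : OO N) * F : OO N) : LL I) c = (n : ℚ) * CTd γ (F : LL I) c := by
  rw [← CTd_qC, qC_intCast, Subring.coe_mul, Subring.coe_intCast]

theorem Xo_prod_val (n : I → ℕ) : ((∏ x ∈ N, Xo N x ^ n x : OO N) : LL I) =
    ∏ x ∈ N, MvPowerSeries.X x ^ n x := by
  rw [OO_coe_prod]
  rfl

theorem insN_const (l c : ℕ) : insN H (fun _ => c) l = (∏ x ∈ N, Qo H x l) ^ c := by
  unfold insN
  exact Finset.prod_pow _ _ _

attribute [local irreducible] Qo Po rr Xo Vo insN outN So Jo colI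

/-- splitting off powers of `z_b`. -/
theorem split_T (b : ℕ) (ρ : I → OO N) (f g : I → ℕ) (c : ℕ) (hfg : ∀ x ∈ N, f x = c + g x) :
    ∏ x ∈ N, (Qo H x b * ρ x) ^ f x = (∏ x ∈ N, Qo H x b) ^ c *
        ((∏ x ∈ N, ρ x ^ c) * ∏ x ∈ N, (Qo H x b * ρ x) ^ g x) := by
  rw [← Finset.prod_pow, ← Finset.prod_mul_distrib, ← Finset.prod_mul_distrib]
  refine Finset.prod_congr rfl (fun x hx => ?_)
  rw [hfg x hx, pow_add]
  exact alg12 _ _ _ _

theorem split_E (l : ℕ) (ε : I → ℤ) (f : I → ℕ) :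
    ∏ x ∈ N, ((ε x : OO N) * Qo H x l) ^ f x =
      (((∏ x ∈ N, ε x ^ f x : ℤ) : OO N)) * insN H f l := by
  unfold insN
  rw [Int.cast_prod, ← Finset.prod_mul_distrib]
  refine Finset.prod_congr rfl (fun x _ => ?_)
  rw [mul_pow, Int.cast_pow]

theorem stepA (γ : I → ℚ) (D : RunD H h b M ε R) (ρ : I → OO N) {e e1 : I → ℕ}
    (he : ∀ x ∈ N, e x = M + e1 x) {p : I → ℚ}
    (hp0 : ∀ i, i ∉ N → (∀ x ∈ N, a x i = 0) → p i = 0) (out F : OO N)
    {w : I → Fm I} (hw : RFo N w) :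
    CTd γ (((∏ x ∈ N, (Qo H x b * ρ x) ^ e x) * out * F * ∏ i ∈ Nᶜ, ∏ l ∈ Finset.range (h - 1),
        Vo H i (b + l) ((((h - 1 : ℕ) : ℚ) - l) * p i) : OO N) : LL I) (colN a N (b + 1) w) =
      CTd γ (((∏ x ∈ N, (Qo H x b * ρ x) ^ e x) * out * F : OO N) : LL I)
        (colN a N (b + 1) w) := by
  classical
  rw [split_T H b ρ e e1 M he, Finset.prod_sigma', alg7]
  refine drop_Vs H γ b (b + 1) M (ι := Σ _ : I, ℕ) _ (fun k => k.1) (fun k => b + k.2)
    (fun k => (((h - 1 : ℕ) : ℚ) - k.2) * p k.1) ?_ ?_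
    (((∏ x ∈ N, ρ x ^ M) * ∏ x ∈ N, (Qo H x b * ρ x) ^ e1 x) * out * F) hw
  · intro k hk
    exact Finset.mem_compl.mp (Finset.mem_sigma.mp hk).1
  · intro k hk
    have hk1 := Finset.mem_compl.mp (Finset.mem_sigma.mp hk).1
    have hk2 := Finset.mem_range.mp (Finset.mem_sigma.mp hk).2
    by_cases hadj : ∃ x ∈ N, a x k.1 ≠ 0
    · obtain ⟨x, hx, hxi⟩ := hadj
      right
      exact ⟨x, hx, hxi, mem_colI.mpr (D.f1 x hx _ (by omega) (by omega))⟩
    · left
      push Not at hadj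
      rw [hp0 k.1 hk1 hadj, mul_zero]

theorem stepB (γ : I → ℚ) (m lev : ℕ) (ρ E : I → OO N) {e e1 e2 : I → ℕ}
    (he : ∀ x ∈ N, e x = e1 x + M) (he1 : ∀ x ∈ N, e1 x = M + e2 x)
    (hT : ∀ x ∈ N, Qo H x m * ρ x - E x ∈ colI (So H m ^ M) (Jo H lev)) (out F : OO N)
    {w : I → Fm I} (hw : RFo N w) :
    CTd γ (((∏ x ∈ N, (Qo H x m * ρ x) ^ e x) * out * F : OO N) : LL I) (colN a N lev w) =
      CTd γ (((∏ x ∈ N, (Qo H x m * ρ x) ^ e1 x) * (∏ x ∈ N, E x ^ M) * out * F : OO N) : LL I)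
        (colN a N lev w) := by
  have ht := prod_pow_congr (colI (So H m ^ M) (Jo H lev)) N (fun x => Qo H x m * ρ x) E
    (fun _ => M) hT
  have h1 := congr_col H γ m lev M ht
    (((∏ x ∈ N, ρ x ^ M) * ∏ x ∈ N, (Qo H x m * ρ x) ^ e2 x) * out * F) hw
  have hsum : ∏ x ∈ N, (Qo H x m * ρ x) ^ e x =
      (∏ x ∈ N, (Qo H x m * ρ x) ^ e1 x) * ∏ x ∈ N, (Qo H x m * ρ x) ^ M := by
    rw [← Finset.prod_mul_distrib]
    exact Finset.prod_congr rfl (fun x hx => by rw [← pow_add, he x hx])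
  rw [hsum, split_T H m ρ e1 e2 M he1, alg8, alg8]
  exact h1

theorem stepC (γ : I → ℚ) (D : RunD H h b M ε R) (ρ : I → OO N) {e1 e3 : I → ℕ}
    (he1 : ∀ x ∈ N, e1 x = M * N.card + e3 x) (out F : OO N)
    {w : I → Fm I} (hw : RFo N w) :
    CTd γ (((∏ x ∈ N, (Qo H x b * ρ x) ^ e1 x) *
        (∏ x ∈ N, ((ε x : OO N) * Qo H x (b + h)) ^ M) * out * F : OO N) : LL I)
        (colN a N (b + 1) w) =
      CTd γ (((∏ x ∈ N, (Qo H x b * ρ x) ^ e1 x) *
        (∏ x ∈ N, ((ε x : OO N) * Qo H x (b + h)) ^ M) * out * F : OO N) : LL I)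
        (colN a N (b + h - 1) w) := by
  have hh2 := D.two_le
  have g1 : (∏ x ∈ N, (Qo H x b * ρ x) ^ e1 x) *
      (∏ x ∈ N, ((ε x : OO N) * Qo H x (b + h)) ^ M) * out * F =
      (((∏ x ∈ N, ε x ^ M : ℤ) : OO N) * ((∏ x ∈ N, ρ x ^ (M * N.card)) *
        ∏ x ∈ N, (Qo H x b * ρ x) ^ e3 x) * out * F) * (∏ x ∈ N, Qo H x (b + h)) ^ M *
        ((∏ x ∈ N, Qo H x b) ^ M) ^ N.card := by
    rw [split_E H (b + h) ε (fun _ => M), split_T H b ρ e1 e3 (M * N.card) he1, insN_const,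
      ← pow_mul]
    exact alg9 _ _ _ _ _ _ _
  have g2 := congrArg (fun t : OO N => (t : LL I)) g1
  rw [Subring.coe_mul (OO N) (_ * (∏ x ∈ N, Qo H x (b + h)) ^ M), Subring.coe_mul (OO N) _
    ((∏ x ∈ N, Qo H x (b + h)) ^ M), Subring.coe_pow, Subring.coe_pow,
    Subring.coe_pow, zo_val, zo_val] at g2
  rw [g2]
  exact transport H γ b (b + h) (b + 1) (b + h - 1) M
    (fun x hx => D.f1 x hx _ (by omega) (by omega))
    (fun x hx => D.b1 x hx _ (by omega) (by omega)) (Subtype.property _) hw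

theorem stepD (γ : I → ℚ) (m lev : ℕ) (T : I → OO N) (e1 : I → ℕ)
    (hT : ∀ x ∈ N, T x - (ε x : OO N) * Qo H x m ∈ colI (So H m ^ M) (Jo H lev)) (out F : OO N)
    {w : I → Fm I} (hw : RFo N w) :
    CTd γ (((∏ x ∈ N, T x ^ e1 x) *
        (∏ x ∈ N, ((ε x : OO N) * Qo H x m) ^ M) * out * F : OO N) : LL I)
        (colN a N lev w) =
      CTd γ (((∏ x ∈ N, ((ε x : OO N) * Qo H x m) ^ e1 x) *
        (∏ x ∈ N, ((ε x : OO N) * Qo H x m) ^ M) * out * F : OO N) : LL I)
        (colN a N lev w) := by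
  have ht := prod_pow_congr (colI (So H m ^ M) (Jo H lev)) N T
    (fun x => (ε x : OO N) * Qo H x m) e1 hT
  have h1 := congr_col H γ m lev M ht
    (((∏ x ∈ N, ε x ^ M : ℤ) : OO N) * out * F) hw
  have g1 : ∀ t : OO N, t * (∏ x ∈ N, ((ε x : OO N) * Qo H x m) ^ M) * out * F =
      ((∏ x ∈ N, ε x ^ M : ℤ) : OO N) * out * F * (∏ x ∈ N, Qo H x m) ^ M * t := by
    intro t
    rw [split_E H m ε (fun _ => M), insN_const]
    exact alg10 _ _ _ _ _
  rw [g1, g1]
  exact h1

/-- `X^n U_b` in terms of `T`. -/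
theorem step0 (hh : 1 ≤ h) {e n : I → ℕ} {p : I → ℚ}
    (hn : ∀ z ∈ N, n z = ∑ x ∈ N, e x * R x z)
    (hp : ∀ i, i ∉ N → (h : ℚ) * p i = ∑ z ∈ N, (a z i : ℚ) * n z) :
    (∏ x ∈ N, Xo N x ^ n x) * (insN H e b * outN H p b) =
      (∏ x ∈ N, (Qo H x b * ∏ z ∈ N, rr H z b ^ R x z) ^ e x) * outN H p (b + h) *
        ∏ i ∈ Nᶜ, ∏ l ∈ Finset.range (h - 1),
        Vo H i (b + l) ((((h - 1 : ℕ) : ℚ) - l) * p i) := by
  have hrho : ∏ x ∈ N, (Qo H x b * ∏ z ∈ N, rr H z b ^ R x z) ^ e x =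
      insN H e b * ∏ z ∈ N, rr H z b ^ n z := by
    have h1 : ∀ x ∈ N, (Qo H x b * ∏ z ∈ N, rr H z b ^ R x z) ^ e x =
        Qo H x b ^ e x * ∏ z ∈ N, rr H z b ^ (e x * R x z) := by
      intro x _
      rw [mul_pow, ← Finset.prod_pow]
      refine congrArg (Qo H x b ^ e x * ·) (Finset.prod_congr rfl (fun z _ => ?_))
      rw [← pow_mul, mul_comm (R x z)]
    rw [Finset.prod_congr rfl h1, Finset.prod_mul_distrib, Finset.prod_comm]
    unfold insN
    refine congrArg ((∏ x ∈ N, Qo H x b ^ e x) * ·) (Finset.prod_congr rfl (fun z hz => ?_))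
    rw [hn z hz, Finset.prod_pow_eq_pow_sum]
  rw [hrho, rr_pow_prod H b n (fun i => (h : ℚ) * p i) hp]
  have h1 : outN H p b = (∏ i ∈ Nᶜ, (Po H i (b + 1) ((h : ℚ) * p i) *
      Po H i b (-((h : ℚ) * p i)))) * outN H p (b + h) * ∏ i ∈ Nᶜ, ∏ l ∈ Finset.range (h - 1),
      Vo H i (b + l) ((((h - 1 : ℕ) : ℚ) - l) * p i) := by
    unfold outN
    rw [← Finset.prod_mul_distrib, ← Finset.prod_mul_distrib]
    refine Finset.prod_congr rfl (fun i _ => ?_)
    rw [Vo_tele]
    have e1 : b + (h - 1) + 1 = b + h := by omega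
    have e2 : ((h - 1 : ℕ) : ℚ) = (h : ℚ) - 1 := by
      rw [Nat.cast_sub hh]
      norm_num
    have e3 : (-(((h : ℚ) - 1 + 1) * p i)) = -((h : ℚ) * p i) := by ring
    have e4 : ((h : ℚ) - 1) * p i = (h : ℚ) * p i + -p i := by ring
    rw [e1, e2, e3, e4, Po_add H i b]
    exact alg3 _ _ _ _ _ _ _ (Po_neg H i (b + 1) ((h : ℚ) * p i))
      (Po_neg H i b ((h : ℚ) * p i)) (Po_neg H i (b + h) (p i))
  rw [h1]
  exact alg4 _ _ _ _ _

/-- The crossing identity for large insertions. -/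
theorem cross_exact (D : RunD H h b M ε R) {e n : I → ℕ} {p : I → ℚ}
    (he : ∀ x ∈ N, M * (N.card + 2) ≤ e x)
    (hn : ∀ z ∈ N, n z = ∑ x ∈ N, e x * R x z)
    (hp : ∀ i, i ∉ N → (h : ℚ) * p i = ∑ z ∈ N, (a z i : ℚ) * n z)
    (γ : I → ℚ) (F : OO N) {w : I → Fm I} (hw : RFo N w) :
    CTd (fun i => γ i + if i ∈ N then (n i : ℚ) else 0)
        ((insN H e (b + h) * outN H p (b + h) * F : OO N) : LL I) (colN a N (b + h - 1) w) =
      ((∏ x ∈ N, ε x ^ e x : ℤ) : ℚ) *
        CTd γ ((insN H e b * outN H p b * F : OO N) : LL I) (colN a N (b + 1) w) := by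
  classical
  have hh2 := D.two_le
  have hcard : M * (N.card + 2) = M * N.card + M + M := by ring
  rw [hcard] at he
  have hp0 : ∀ i, i ∉ N → (∀ x ∈ N, a x i = 0) → p i = 0 := by
    intro i hi hadj
    have h1 := hp i hi
    rw [Finset.sum_eq_zero (fun z hz => by rw [hadj z hz]; simp)] at h1
    have h2 : (h : ℚ) ≠ 0 := by
      have : 0 < h := by omega
      positivity
    rcases mul_eq_zero.mp h1 with h3 | h3
    · exact absurd h3 h2
    · exact h3
  -- step 0
  have s0 : CTd γ ((insN H e b * outN H p b * F : OO N) : LL I) (colN a N (b + 1) w) =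
      CTd (fun i => γ i + if i ∈ N then (n i : ℚ) else 0)
        (((∏ x ∈ N, (Qo H x b * ∏ z ∈ N, rr H z b ^ R x z) ^ e x) * outN H p (b + h) * F *
        ∏ i ∈ Nᶜ, ∏ l ∈ Finset.range (h - 1),
        Vo H i (b + l) ((((h - 1 : ℕ) : ℚ) - l) * p i) : OO N) : LL I) (colN a N (b + 1) w) := by
    rw [← CTd_shift γ n N]
    have e1 : (∏ x ∈ N, MvPowerSeries.X x ^ n x : LL I) =
        ((∏ x ∈ N, Xo N x ^ n x : OO N) : LL I) := (Xo_prod_val n).symm
    have e2 : (∏ x ∈ N, Xo N x ^ n x) * (insN H e b * outN H p b * F) =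
        (∏ x ∈ N, (Qo H x b * ∏ z ∈ N, rr H z b ^ R x z) ^ e x) * outN H p (b + h) * F *
        ∏ i ∈ Nᶜ, ∏ l ∈ Finset.range (h - 1),
        Vo H i (b + l) ((((h - 1 : ℕ) : ℚ) - l) * p i) := by
      rw [alg5, step0 H (by omega) hn hp]
      exact alg6 _ _ _ _
    rw [e1, ← Subring.coe_mul, e2]
  rw [s0, stepA H _ D (fun x => ∏ z ∈ N, rr H z b ^ R x z) (e1 := fun x => e x - M)
    (fun x hx => by have := he x hx; omega) hp0 _ F hw,
    stepB H _ b (b + 1) (fun x => ∏ z ∈ N, rr H z b ^ R x z)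
      (fun x => (ε x : OO N) * Qo H x (b + h)) (e1 := fun x => e x - M)
      (e2 := fun x => e x - M - M)
      (fun x hx => by have := he x hx; omega)
      (fun x hx => by have := he x hx; omega)
      (fun x hx => Tx_f H D x hx) _ F hw,
    stepC H _ D (fun x => ∏ z ∈ N, rr H z b ^ R x z) (e1 := fun x => e x - M)
      (e3 := fun x => e x - M - M * N.card)
      (fun x hx => by have := he x hx; omega) _ F hw,
    stepD H _ (b + h) (b + h - 1) (fun x => Qo H x b * ∏ z ∈ N, rr H z b ^ R x z)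
      (fun x => e x - M) (fun x hx => Tx_b H D x hx) _ F hw]
  -- collect
  have hcol : (∏ x ∈ N, ((ε x : OO N) * Qo H x (b + h)) ^ (e x - M)) *
      (∏ x ∈ N, ((ε x : OO N) * Qo H x (b + h)) ^ M) * outN H p (b + h) * F =
      ((∏ x ∈ N, ε x ^ e x : ℤ) : OO N) * (insN H e (b + h) * outN H p (b + h) * F) := by
    have h1 : (∏ x ∈ N, ((ε x : OO N) * Qo H x (b + h)) ^ (e x - M)) *
        (∏ x ∈ N, ((ε x : OO N) * Qo H x (b + h)) ^ M) =
        ∏ x ∈ N, ((ε x : OO N) * Qo H x (b + h)) ^ e x := by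
      rw [← Finset.prod_mul_distrib]
      refine Finset.prod_congr rfl (fun x hx => ?_)
      rw [← pow_add]
      have := he x hx
      rw [show e x - M + M = e x by omega]
    rw [h1, split_E]
    exact alg13 _ _ _ _
  rw [hcol, int_out, ← mul_assoc]
  have hsq : ((∏ x ∈ N, ε x ^ e x : ℤ) : ℚ) * ((∏ x ∈ N, ε x ^ e x : ℤ) : ℚ) = 1 := by
    rw [← Int.cast_mul, ← Finset.prod_mul_distrib]
    have : ∏ x ∈ N, ε x ^ e x * ε x ^ e x = 1 := by
      refine Finset.prod_eq_one (fun x _ => ?_)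
      rw [← mul_pow]
      rcases D.sgn x with h | h <;> rw [h] <;> simp
    rw [this, Int.cast_one]
  rw [hsq, one_mul]

end

end Pool.Agent.H10.KAC

end
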