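import Pool.Agent.H16.TKA.M31

/-! The parts of this file: H46.AH.AH8b, H46.AH.AH11, H46.AH.AH13, H46.AH.AH14. -/

section

/-!
KAC ADE, module AH8b: plateau functionals: product over disconnected sets, plateau functional of a cluster as response
functional one level below.

* `PPF`: plateau functional with an arbitrary inner functional; `PPv_union`: product structure.
* `PP_RF`: for a connected cluster and `RReg`: `PPv a A k q T = evF a A Φ T` for `Φ` with
  `IsRF a cd A q (fun l => cn a cd A q (k - l)) (k - 1) Φ`: `PPv = TV (tauT a A k q T) - Rv a A k q T` (`TV_step_split`, AE7),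
  `TV (tauT a A k q T) = RFv a A q (cn (k - ·)) k T` (`RTfam.tauL`, `val`), and `cn a cd A q 0 = 1`.
* `PPJ`: induction over the components with `PPv_union` and `PP_RF`; the inner functional of `PPF` is a combination of
  values of patterned terms, `rawT_patT_comm` exchanges the two operations, `RReg_patT`/`RReg_rawT` keep regularity.
-/

set_option autoImplicit false

namespace Pool.Agent.H46.AH

open scoped BigOperators
open Pool.Agent.H27.KAC

section

variable {I : Type} [Fintype I] [DecidableEq I]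

/-- plateau functional with inner functional `F`. -/
noncomputable def PPF (a : I → I → ℕ) (N : Finset I) (k : ℕ) (q : I → ℚ) (B : ℕ)
    (F : Trm I → ℚ) (T : Trm I) : ℚ := by
  classical
  exact ∑ m ∈ (mbox N B).filter (fun m => Plat N q m), sgm N m * F (rawT a N k q m T)

private theorem AH8b_PPv (a : I → I → ℕ) (N : Finset I) (k : ℕ) (hk : 1 ≤ k) (q : I → ℚ)
    (T : Trm I) (B : ℕ) (hB : bnd N k q T ≤ B) [DecidablePred fun m : I → ℕ => Plat N q m] :
    PPv a N k q T =
      ∑ m ∈ (mbox N B).filter (fun m => Plat N q m), sgm N m * TV a (rawT a N k q m T) := by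
  rw [sum_raw_bound a N k hk q T (fun m => Plat N q m) B hB]
  unfold PPv
  refine Finset.sum_congr ?_ fun _ _ => rfl
  ext m
  simp only [Finset.mem_filter]

private theorem AH8b_PPF (a : I → I → ℕ) (N : Finset I) (k : ℕ) (q : I → ℚ) (B : ℕ)
    (F : Trm I → ℚ) (T : Trm I) [DecidablePred fun m : I → ℕ => Plat N q m] :
    PPF a N k q B F T =
      ∑ m ∈ (mbox N B).filter (fun m => Plat N q m), sgm N m * F (rawT a N k q m T) := by
  unfold PPF
  refine Finset.sum_congr ?_ fun _ _ => rfl
  ext m
  simp only [Finset.mem_filter]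

private theorem AH8b_mem_mbox (N : Finset I) (B : ℕ) (m : I → ℕ) :
    m ∈ mbox N B ↔ (∀ i ∈ N, m i ≤ B) ∧ ∀ i, i ∉ N → m i = 0 := by
  unfold mbox
  rw [Fintype.mem_piFinset]
  constructor
  · intro h
    refine ⟨fun i hi => ?_, fun i hi => ?_⟩
    · have h1 := h i
      rw [if_pos hi, Finset.mem_range] at h1
      omega
    · have h1 := h i
      rw [if_neg hi, Finset.mem_singleton] at h1
      exact h1
  · rintro ⟨h1, h2⟩ i
    by_cases hi : i ∈ N
    · rw [if_pos hi, Finset.mem_range]
      have := h1 i hi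
      omega
    · rw [if_neg hi, Finset.mem_singleton]
      exact h2 i hi

private theorem AH8b_raw_union (a : I → I → ℕ) (A B : Finset I) (hAB : Disjoint A B) (k : ℕ)
    (q : I → ℚ) (m m₁ m₂ : I → ℕ) (h₁ : ∀ i ∈ A, m i = m₁ i) (h₂ : ∀ i ∈ B, m i = m₂ i)
    (T : Trm I) :
    rawT a (A ∪ B) k q m T = rawT a B k q m₂ (rawT a A k q m₁ T) := by
  have hsplit : ∀ i, (if i ∈ A ∪ B then (m i : ℚ) - q i else 0) =
      (if i ∈ A then (m₁ i : ℚ) - q i else 0) + (if i ∈ B then (m₂ i : ℚ) - q i else 0) := by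
    intro i
    by_cases hA : i ∈ A
    · have hB : i ∉ B := Finset.disjoint_left.1 hAB hA
      rw [if_pos (Finset.mem_union_left _ hA), if_pos hA, if_neg hB, add_zero, h₁ i hA]
    · by_cases hB : i ∈ B
      · rw [if_pos (Finset.mem_union_right _ hB), if_neg hA, if_pos hB, zero_add, h₂ i hB]
      · rw [if_neg (fun h => (Finset.mem_union.1 h).elim hA hB), if_neg hA, if_neg hB, add_zero]
  unfold rawT Trm.eta Trm.cols
  apply Trm.ext
  · funext i
    dsimp only
    rw [hsplit i]
    ring
  · dsimp only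
    have h3 : ∑ x, (if x ∈ A ∪ B then (m x : ℚ) - q x else 0) • cE a x k =
        ∑ x, (if x ∈ A then (m₁ x : ℚ) - q x else 0) • cE a x k +
          ∑ x, (if x ∈ B then (m₂ x : ℚ) - q x else 0) • cE a x k := by
      rw [← Finset.sum_add_distrib]
      refine Finset.sum_congr rfl fun x _ => ?_
      rw [hsplit x, add_smul]
    rw [h3, sub_add_eq_sub_sub]
  · funext i
    dsimp only
    by_cases hA : i ∈ A
    · have hB : i ∉ B := Finset.disjoint_left.1 hAB hA
      rw [if_pos (Finset.mem_union_left _ hA), if_neg hB, if_pos hA, h₁ i hA]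
    · by_cases hB : i ∈ B
      · rw [if_pos (Finset.mem_union_right _ hB), if_pos hB, h₂ i hB]
      · rw [if_neg (fun h => (Finset.mem_union.1 h).elim hA hB), if_neg hB, if_neg hA]

private theorem AH8b_sgm_union (A B : Finset I) (hAB : Disjoint A B) (m m₁ m₂ : I → ℕ)
    (h₁ : ∀ i ∈ A, m i = m₁ i) (h₂ : ∀ i ∈ B, m i = m₂ i) :
    sgm (A ∪ B) m = sgm A m₁ * sgm B m₂ := by
  unfold sgm
  rw [← pow_add, Finset.filter_union, Finset.card_union_of_disjoint
    (Finset.disjoint_filter_filter hAB)]
  congr 2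
  · congr 1
    exact Finset.filter_congr fun i hi => by rw [h₁ i hi]
  · congr 1
    exact Finset.filter_congr fun i hi => by rw [h₂ i hi]

private theorem AH8b_raw_γ (a : I → I → ℕ) (A : Finset I) (k : ℕ) (q : I → ℚ) (m : I → ℕ)
    (T : Trm I) (i : I) (hi : i ∉ A) : (rawT a A k q m T).γ i = T.γ i := by
  change T.γ i - k * (if i ∈ A then (m i : ℚ) - q i else 0) = T.γ i
  rw [if_neg hi, mul_zero, sub_zero]

private theorem AH8b_bnd_congr (R : Finset I) (k : ℕ) (q : I → ℚ) (T T' : Trm I)
    (h : ∀ i ∈ R, T.γ i = T'.γ i) : bnd R k q T = bnd R k q T' := by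
  unfold bnd
  exact Finset.sum_congr rfl fun i hi => by rw [h i hi]

private theorem AH8b_bnd_mono {R R' : Finset I} (h : R ⊆ R') (k : ℕ) (q : I → ℚ) (T : Trm I) :
    bnd R k q T ≤ bnd R' k q T := by
  unfold bnd
  exact Finset.sum_le_sum_of_subset h

/-- product structure. -/
theorem PPv_union (a : I → I → ℕ) (hs : ∀ i j, a i j = a j i) (A B : Finset I) (hAB : Sep a A B)
    (k : ℕ) (hk : 1 ≤ k) (q : I → ℚ) (T : Trm I) (b : ℕ) (hb : bnd (A ∪ B) k q T ≤ b) :
    PPv a (A ∪ B) k q T = PPF a A k q b (PPv a B k q) T := by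
  classical
  have hd : Disjoint A B := hAB.1
  rw [AH8b_PPv a (A ∪ B) k hk q T b hb, AH8b_PPF]
  have h1 : ∀ m₁ : I → ℕ, PPv a B k q (rawT a A k q m₁ T) =
      ∑ m ∈ (mbox B b).filter (fun m => Plat B q m),
        sgm B m * TV a (rawT a B k q m (rawT a A k q m₁ T)) := by
    intro m₁
    refine AH8b_PPv a B k hk q _ b ?_
    rw [AH8b_bnd_congr B k q (rawT a A k q m₁ T) T fun i hi =>
      AH8b_raw_γ a A k q m₁ T i (Finset.disjoint_right.1 hd hi)]
    exact (AH8b_bnd_mono Finset.subset_union_right k q T).trans hb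
  simp only [h1, Finset.mul_sum]
  rw [← Finset.sum_product']
  symm
  refine Finset.sum_bij' (fun p _ => fun i => if i ∈ A then p.1 i else p.2 i)
    (fun m _ => (fun i => if i ∈ A then m i else 0, fun i => if i ∈ B then m i else 0))
    ?_ ?_ ?_ ?_ ?_
  · rintro ⟨m₁, m₂⟩ hm
    rw [Finset.mem_product, Finset.mem_filter, Finset.mem_filter, AH8b_mem_mbox,
      AH8b_mem_mbox] at hm
    obtain ⟨⟨⟨h2, h3⟩, h4⟩, ⟨h5, h6⟩, h7⟩ := hm
    dsimp only at h2 h3 h4 h5 h6 h7
    rw [Finset.mem_filter, AH8b_mem_mbox]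
    refine ⟨⟨fun i hi => ?_, fun i hi => ?_⟩, fun i hi => ?_⟩
    · by_cases hA : i ∈ A
      · simp only [if_pos hA]
        exact h2 i hA
      · simp only [if_neg hA]
        exact h5 i ((Finset.mem_union.1 hi).resolve_left hA)
    · have hA : i ∉ A := fun h => hi (Finset.mem_union_left _ h)
      simp only [if_neg hA]
      exact h6 i fun h => hi (Finset.mem_union_right _ h)
    · by_cases hA : i ∈ A
      · simp only [if_pos hA]
        exact h4 i hA
      · simp only [if_neg hA]
        exact h7 i ((Finset.mem_union.1 hi).resolve_left hA)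
  · intro m hm
    rw [Finset.mem_filter, AH8b_mem_mbox] at hm
    obtain ⟨⟨h2, h3⟩, h4⟩ := hm
    rw [Finset.mem_product, Finset.mem_filter, Finset.mem_filter, AH8b_mem_mbox,
      AH8b_mem_mbox]
    refine ⟨⟨⟨fun i hi => ?_, fun i hi => ?_⟩, fun i hi => ?_⟩,
      ⟨fun i hi => ?_, fun i hi => ?_⟩, fun i hi => ?_⟩
    · simp only [if_pos hi]
      exact h2 i (Finset.mem_union_left _ hi)
    · simp only [if_neg hi]
    · simp only [if_pos hi]
      exact h4 i (Finset.mem_union_left _ hi)
    · simp only [if_pos hi]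
      exact h2 i (Finset.mem_union_right _ hi)
    · simp only [if_neg hi]
    · simp only [if_pos hi]
      exact h4 i (Finset.mem_union_right _ hi)
  · rintro ⟨m₁, m₂⟩ hm
    rw [Finset.mem_product, Finset.mem_filter, Finset.mem_filter, AH8b_mem_mbox,
      AH8b_mem_mbox] at hm
    obtain ⟨⟨⟨h2, h3⟩, h4⟩, ⟨h5, h6⟩, h7⟩ := hm
    dsimp only at h2 h3 h4 h5 h6 h7
    refine Prod.ext (funext fun i => ?_) (funext fun i => ?_)
    · dsimp only
      by_cases hA : i ∈ A
      · rw [if_pos hA, if_pos hA]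
      · rw [if_neg hA, h3 i hA]
    · dsimp only
      by_cases hB : i ∈ B
      · rw [if_pos hB, if_neg (Finset.disjoint_right.1 hd hB)]
      · rw [if_neg hB, h6 i hB]
  · intro m hm
    rw [Finset.mem_filter, AH8b_mem_mbox] at hm
    obtain ⟨⟨h2, h3⟩, h4⟩ := hm
    funext i
    dsimp only
    by_cases hA : i ∈ A
    · rw [if_pos hA, if_pos hA]
    · rw [if_neg hA]
      by_cases hB : i ∈ B
      · rw [if_pos hB]
      · rw [if_neg hB, h3 i fun h => (Finset.mem_union.1 h).elim hA hB]
  · rintro ⟨m₁, m₂⟩ hm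
    have e1 : ∀ i ∈ A, (fun i => if i ∈ A then m₁ i else m₂ i) i = m₁ i := fun i hi => if_pos hi
    have e2 : ∀ i ∈ B, (fun i => if i ∈ A then m₁ i else m₂ i) i = m₂ i := fun i hi =>
      if_neg (Finset.disjoint_right.1 hd hi)
    rw [AH8b_sgm_union A B hd _ m₁ m₂ e1 e2, AH8b_raw_union a A B hd k q _ m₁ m₂ e1 e2]
    ring

private theorem AH8b_cn_zero (a : I → I → ℕ) (cd : CrossData a) (A : Finset I) (q : I → ℚ) :
    cn a cd A q 0 = 1 := by
  unfold cn cnA
  exact if_pos rfl

private theorem AH8b_IsZ_zero : IsZ (0 : ℚ) := ⟨0, by norm_num⟩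

private theorem AH8b_rep (a : I → I → ℕ) (A : Finset I) (q : I → ℚ) (hq : QOk a A q) :
    Rep a A q q := ⟨hq, fun x _ => by rw [sub_self]; exact AH8b_IsZ_zero⟩

private theorem AH8b_RFv_succ (a : I → I → ℕ) (A : Finset I) (q : I → ℚ) (w : ℕ → ℚ) (k : ℕ)
    (hk : 1 ≤ k) (T : Trm I) :
    RFv a A q w k T = RFv a A q w (k - 1) T + w k * Rv a A k q T := by
  obtain ⟨n, rfl⟩ : ∃ n, k = n + 1 := ⟨k - 1, by omega⟩
  unfold RFv
  rw [Nat.add_sub_cancel, Finset.sum_Icc_succ_top (by omega)]
  ring

/-- plateau functional of a connected cluster. -/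
theorem PP_RF (a : I → I → ℕ) (hs : ∀ i j, a i j = a j i) (cd : CrossData a) (h : RTfam a cd)
    (A : Finset I) (hA : FinT a A) (hc : ConnS a A) (k : ℕ) (hk : 1 ≤ k) (q : I → ℚ)
    (hq : QOk a A q) (Φ : FFn I)
    (hΦ : IsRF a cd A q (fun l => cn a cd A q (k - l)) (k - 1) Φ) (T : Trm I) (hT : RReg A T) :
    PPv a A k q T = evF a A Φ T := by
  have h1 := TV_step_split a hs A hA k hk q hq T hT
  have h2 := (h.tauL A hA hc q hq k).val q (AH8b_rep a A q hq) T hT
  have h3 := hΦ.val q (AH8b_rep a A q hq) T hT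
  have h4 := AH8b_RFv_succ a A q (fun l => cn a cd A q (k - l)) k hk T
  have h5 : evF a A [(1, ⟨fun _ => k, q⟩)] T = TV a (tauT a A k q T) := by
    rw [tauT_eq_patT]
    unfold evF
    rw [List.map_cons, List.map_nil, List.sum_cons, List.sum_nil]
    ring
  rw [Nat.sub_self, AH8b_cn_zero, one_mul] at h4
  rw [h3]
  rw [h5, h4] at h2
  linarith

private theorem AH8b_empty (a : I → I → ℕ) (k : ℕ) (hk : 1 ≤ k) (q : I → ℚ) (T : Trm I) :
    PPv a ∅ k q T = TV a T := by
  classical
  rw [AH8b_PPv a ∅ k hk q T _ le_rfl]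
  have h1 : (mbox (∅ : Finset I) (bnd ∅ k q T)).filter (fun m => Plat ∅ q m) = {fun _ => 0} := by
    ext m
    rw [Finset.mem_filter, AH8b_mem_mbox, Finset.mem_singleton]
    constructor
    · rintro ⟨⟨-, h⟩, -⟩
      funext i
      exact h i (Finset.notMem_empty i)
    · rintro rfl
      exact ⟨⟨fun i hi => absurd hi (Finset.notMem_empty i), fun i _ => rfl⟩,
        fun i hi => absurd hi (Finset.notMem_empty i)⟩
  rw [h1, Finset.sum_singleton]
  have h2 : sgm (∅ : Finset I) (fun _ => 0) = 1 := by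
    unfold sgm
    rw [Finset.filter_empty, Finset.card_empty, pow_zero]
  have h3 : rawT a ∅ k q (fun _ => 0) T = T := by
    unfold rawT Trm.eta Trm.cols
    apply Trm.ext
    · funext i
      dsimp only
      rw [if_neg (Finset.notMem_empty i), mul_zero, sub_zero]
    · dsimp only
      rw [Finset.sum_eq_zero fun x _ => by
        rw [if_neg (Finset.notMem_empty x), zero_smul], sub_zero]
    · funext i
      dsimp only
      rw [if_neg (Finset.notMem_empty i)]
  rw [h2, h3, one_mul]

private theorem AH8b_uni_cons (b : Finset I × FFn I) (U : List (Finset I × FFn I)) :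
    uni (b :: U) = b.1 ∪ uni U := rfl

private theorem AH8b_mem_uni (U : List (Finset I × FFn I)) (x : I) :
    x ∈ uni U ↔ ∃ b ∈ U, x ∈ b.1 := by
  induction U with
  | nil =>
    constructor
    · intro h
      exact absurd h (Finset.notMem_empty x)
    · rintro ⟨b, hb, -⟩
      exact absurd hb List.not_mem_nil
  | cons b U ih =>
    rw [AH8b_uni_cons, Finset.mem_union, ih]
    constructor
    · rintro (h | ⟨c, hc, h⟩)
      · exact ⟨b, List.mem_cons_self, h⟩
      · exact ⟨c, List.mem_cons_of_mem _ hc, h⟩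
    · rintro ⟨c, hc, h⟩
      rcases List.mem_cons.1 hc with rfl | hc
      · exact Or.inl h
      · exact Or.inr ⟨c, hc, h⟩

private theorem AH8b_sum_comm {α β : Type*} (l : List α) (s : Finset β) (f : α → β → ℚ) :
    (l.map fun x => ∑ y ∈ s, f x y).sum = ∑ y ∈ s, (l.map fun x => f x y).sum := by
  induction l with
  | nil => simp
  | cons x l ih =>
    simp only [List.map_cons, List.sum_cons]
    rw [ih, Finset.sum_add_distrib]

private theorem AH8b_pat_γ (a : I → I → ℕ) (B : Finset I) (π : Pat I) (T : Trm I) (i : I)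
    (hi : i ∉ B) : (patT a B π T).γ i = T.γ i := by
  change T.γ i - (π.s i : ℚ) * (-resQ B π.q i) = T.γ i
  unfold resQ
  rw [if_neg hi, neg_zero, mul_zero, sub_zero]

private theorem AH8b_QOk (a : I → I → ℕ) {N A : Finset I} (hA : A ∈ comps a N)
    {q : I → ℚ} (hq : QOk a N q) : QOk a A q := by
  intro x hx
  obtain ⟨n, hn, h⟩ := hq x (comps_subset hA hx)
  refine ⟨n, hn, ?_⟩
  rw [← h]
  unfold cqN
  refine Finset.sum_subset (comps_subset hA) fun j hj hjA => ?_
  have h1 := comps_sep hA x hx j hj hjA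
  have h2 : cart a x j = 0 := by
    rw [AE3_cart_ne a (fun h3 : x = j => hjA (h3 ▸ hx)), h1]
    rfl
  rw [h2, Int.cast_zero, zero_mul]

private theorem AH8b_main (a : I → I → ℕ) (hs : ∀ i j, a i j = a j i) (cd : CrossData a)
    (h : RTfam a cd) (N : Finset I) (hN : FinT a N) (k : ℕ) (hk : 1 ≤ k) (q : I → ℚ)
    (hq : QOk a N q) (Φ : Finset I → FFn I)
    (hΦ : ∀ A ∈ comps a N, IsRF a cd A q (fun l => cn a cd A q (k - l)) (k - 1) (Φ A)) :
    ∀ L : List (Finset I), L.Nodup → (∀ A ∈ L, A ∈ comps a N) → ∀ T : Trm I,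
      RReg (uni (L.map fun A => (A, Φ A))) T →
      PPv a (uni (L.map fun A => (A, Φ A))) k q T = evU a (L.map fun A => (A, Φ A)) T := by
  classical
  intro L
  induction L with
  | nil =>
    intro _ _ T _
    exact AH8b_empty a k hk q T
  | cons A L ih =>
    intro hnd hmem T hT
    have hA := hmem A List.mem_cons_self
    have hL : ∀ B ∈ L, B ∈ comps a N := fun B hB => hmem B (List.mem_cons_of_mem _ hB)
    have hne : ∀ B ∈ L, A ≠ B := fun B hB hAB => (List.nodup_cons.1 hnd).1 (hAB ▸ hB)
    have hsep : Sep a A (uni (L.map fun A => (A, Φ A))) := by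
      refine ⟨?_, fun x hx y hy => ?_⟩
      · rw [Finset.disjoint_left]
        intro x hx hy
        obtain ⟨b, hb, hxb⟩ := (AH8b_mem_uni _ x).1 hy
        obtain ⟨B, hB, rfl⟩ := List.mem_map.1 hb
        exact Finset.disjoint_left.1 (comps_disjoint hs hA (hL B hB) (hne B hB)) hx hxb
      · obtain ⟨b, hb, hyb⟩ := (AH8b_mem_uni _ y).1 hy
        obtain ⟨B, hB, rfl⟩ := List.mem_map.1 hb
        exact comps_nonadj hs hA (hL B hB) (hne B hB) x hx y hyb
    have hdL : ∀ b ∈ L.map (fun A => (A, Φ A)), Disjoint A b.1 := by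
      intro b hb
      obtain ⟨B, hB, rfl⟩ := List.mem_map.1 hb
      exact comps_disjoint hs hA (hL B hB) (hne B hB)
    have hpw : ∀ L' : List (Finset I), L'.Nodup → (∀ B ∈ L', B ∈ comps a N) →
        (L'.map fun A => (A, Φ A)).Pairwise (fun b c => Disjoint b.1 c.1) := by
      intro L'
      induction L' with
      | nil => intro _ _; exact List.Pairwise.nil
      | cons B L' ih' =>
        intro hnd' hmem'
        rw [List.map_cons, List.pairwise_cons]
        refine ⟨fun c hc => ?_, ih' (List.nodup_cons.1 hnd').2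
          fun C hC => hmem' C (List.mem_cons_of_mem _ hC)⟩
        obtain ⟨C, hC, rfl⟩ := List.mem_map.1 hc
        exact comps_disjoint hs (hmem' B List.mem_cons_self)
          (hmem' C (List.mem_cons_of_mem _ hC))
          fun hBC : B = C => (List.nodup_cons.1 hnd').1 (hBC ▸ hC)
    have hpd := hpw L (List.nodup_cons.1 hnd).2 hL
    rw [List.map_cons, AH8b_uni_cons] at hT ⊢
    dsimp only at hT ⊢
    set U := L.map fun A => (A, Φ A) with hU
    rw [PPv_union a hs A (uni U) hsep k hk q T _ le_rfl, AH8b_PPF]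
    have h1 : ∀ m₁ : I → ℕ, PPv a (uni U) k q (rawT a A k q m₁ T) =
        ((prodF U).map (fun c => c.1 * TV a (rawT a A k q m₁ (patT a (uni U) c.2 T)))).sum := by
      intro m₁
      have hT' : RReg (uni U) (rawT a A k q m₁ T) := by
        refine RReg_rawT a hs (uni U) A ⟨hsep.1.symm, fun x hx y hy => ?_⟩ k q m₁ T ?_
        · rw [hs x y]
          exact hsep.2 y hy x hx
        · rw [Finset.union_comm]
          exact hT
      rw [ih (List.nodup_cons.1 hnd).2 hL _ hT', evU_eq_evF a U hpd]
      unfold evF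
      congr 1
      refine List.map_congr_left fun c _ => ?_
      rw [rawT_patT_comm a A (uni U) hsep.1]
    have h2 : ∀ c ∈ prodF U, c.1 * evF a A (Φ A) (patT a (uni U) c.2 T) =
        ∑ m ∈ (mbox A (bnd (A ∪ uni U) k q T)).filter (fun m => Plat A q m),
          c.1 * (sgm A m * TV a (rawT a A k q m (patT a (uni U) c.2 T))) := by
      intro c _
      have hT' : RReg A (patT a (uni U) c.2 T) :=
        RReg_patT a hs A (uni U) hsep.1 c.2 (fun x hx y hy _ => hsep.2 x hx y hy) T hT
      rw [← PP_RF a hs cd h A (hN.mono (comps_subset hA)) (comps_conn hA) k hk q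
        (AH8b_QOk a hA hq) (Φ A) (hΦ A hA) _ hT', ← Finset.mul_sum]
      congr 1
      refine AH8b_PPv a A k hk q _ _ ?_
      rw [AH8b_bnd_congr A k q (patT a (uni U) c.2 T) T fun i hi =>
        AH8b_pat_γ a (uni U) c.2 T i (Finset.disjoint_left.1 hsep.1 hi)]
      exact AH8b_bnd_mono Finset.subset_union_left k q T
    rw [evU_cons' a (A, Φ A) U hdL hpd T]
    dsimp only
    rw [List.map_congr_left h2, AH8b_sum_comm]
    refine Finset.sum_congr rfl fun m _ => ?_
    rw [h1, ← List.sum_map_mul_left]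
    congr 1
    refine List.map_congr_left fun c _ => ?_
    ring

/-- plateau functional of a disconnected set. -/
theorem PPJ (a : I → I → ℕ) (hs : ∀ i j, a i j = a j i) (cd : CrossData a) (h : RTfam a cd)
    (N : Finset I) (hN : FinT a N) (k : ℕ) (hk : 1 ≤ k) (q : I → ℚ) (hq : QOk a N q)
    (Φ : Finset I → FFn I)
    (hΦ : ∀ A ∈ comps a N, IsRF a cd A q (fun l => cn a cd A q (k - l)) (k - 1) (Φ A))
    (T : Trm I) (hT : RReg N T) :
    PPv a N k q T = evU a ((comps a N).toList.map (fun A => (A, Φ A))) T := by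
  have hU : uni ((comps a N).toList.map (fun A => (A, Φ A))) = N := by
    ext x
    rw [AH8b_mem_uni]
    constructor
    · rintro ⟨b, hb, hx⟩
      obtain ⟨A, hA, rfl⟩ := List.mem_map.1 hb
      exact comps_subset (Finset.mem_toList.1 hA) hx
    · intro hx
      obtain ⟨A, hA, hxA⟩ := comps_cover hs x hx
      exact ⟨(A, Φ A), List.mem_map.2 ⟨A, Finset.mem_toList.2 hA, rfl⟩, hxA⟩
  have h1 := AH8b_main a hs cd h N hN k hk q hq Φ hΦ (comps a N).toList
    (Finset.nodup_toList _) (fun A hA => Finset.mem_toList.1 hA) T (by rw [hU]; exact hT)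
  rw [hU] at h1
  exact h1

/-- one step of an untouched cluster: the part without restart. -/
theorem RF_step (a : I → I → ℕ) (cd : CrossData a) (A : Finset I) (q q' : I → ℚ)
    (hq : Rep a A q q') (w : ℕ → ℚ) (k : ℕ) (hk : 1 ≤ k) (Φ Φ' : FFn I)
    (hΦ : IsRF a cd A q w k Φ) (hΦ' : IsRF a cd A q w (k - 1) Φ') (T : Trm I) (hT : RReg A T) :
    evF a A Φ T = evF a A Φ' T + w k * Rv a A k q' T := by
  rw [hΦ.val q' hq T hT, hΦ'.val q' hq T hT, AH8b_RFv_succ a A q' w k hk T]

end

end Pool.Agent.H46.AH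

end

section

/-!
KAC ADE, module AH11: one step of a single cluster.

PROOF.  `q' = rp a A q`, `ν_x = T.E (x,k)`, `μ = shv a A S q ν n`.
For every `(S, n)` with `μ ≠ 0` on `A`: `μ > 0` on `A` (`shv_pos`); `K = A \ S`; `PPc a K k (q + μ) (rsT ..) =
PPv a K k q'' (elT a K k (rsT ..))` (`PPv_elT`, `rsT_RRegK`; `q'' = rp ..`, `shv_wt`, `rp_spec`), which by `PPJ` is the value of
the blocks with `IsRF a cd B q'' (fun l => cn a cd B q'' (k - l)) (k - 1)`, and the blocks of `stBlk a fam k K (q + μ)
(neww ..)` are such functionals up to the choice (`IsRF.congr`, `evU_RF`, `RFex_cn`, `cn_congrZ`).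
Case 1, some `ν_x ≠ 0` (kink): `IsRF.knk` and `restart`.
Case 2, `ν = 0` on `A`: `RF_step`, `TV_step_split` (AE7), `restart`; the summand `S = ∅` of `restart` is
`PPc a A k q T = PPv a A k q' T` (`shv = 0`, `PPv_congr`) and cancels; the summand `S = ∅` of the right hand side is the value
of `fam A q w (k - 1)` (`μ = 0`, `A \ ∅ = A`, `comps_of_conn`; in a `RReg` term without kink the columns do not contain the
symbols `(x,k)`, so the elimination changes the columns of `A` only).
-/

set_option autoImplicit false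

namespace Pool.Agent.H46.AH

open scoped BigOperators
open Pool.Agent.H27.KAC Pool.Agent.H40.KADE

section

variable {I : Type} [Fintype I] [DecidableEq I]

private theorem ah11_negZ {x y : ℚ} (h : IsZ (x - y)) : IsZ (y - x) := by
  obtain ⟨z, hz⟩ := h
  exact ⟨-z, by push_cast; rw [← hz]; ring⟩

private theorem ah11_nuZ {A : Finset I} {k : ℕ} (hk : 1 ≤ k) {T : Trm I} (hT : RReg A T) :
    ∀ x ∈ A, IsZ (T.E (x, k)) := by
  intro x hx
  obtain ⟨n, hn⟩ := hT.nat x hx k hk
  exact ⟨(n : ℤ), by rw [hn]; push_cast; rfl⟩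

private theorem ah11_nu0 {A : Finset I} {k : ℕ} (hk : 1 ≤ k) {T : Trm I} (hT : RReg A T) :
    ∀ x ∈ A, 0 ≤ T.E (x, k) := by
  intro x hx
  obtain ⟨n, hn⟩ := hT.nat x hx k hk
  rw [hn]
  exact Nat.cast_nonneg n

/-- the summands with a restart (or with a kink). -/
private theorem ah11_touched (a : I → I → ℕ) (hs : ∀ i j, a i j = a j i) (cd : CrossData a)
    (h : RTfam a cd) (fam : Finset I → (I → ℚ) → (ℕ → ℚ) → ℕ → FFn I) (hfam : IsFam a cd fam)
    (A : Finset I) (hA : FinT a A) (k : ℕ) (hk : 1 ≤ k) (q : I → ℚ)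
    (hq : ∀ x ∈ A, IsZ (cqN a A q x)) (w : ℕ → ℚ) (T : Trm I) (hT : RReg A T)
    (S : Finset I) (hS : S ⊆ A) (n : I → ℤ)
    (hpos : ∀ i ∈ A, 0 < shv a A S q (fun x => T.E (x, k)) n i) :
    PPc a (A \ S) k (fun i => q i + shv a A S q (fun x => T.E (x, k)) n i)
        (rsT a S k (shv a A S q (fun x => T.E (x, k)) n) T) =
      evU a (stBlk a fam k (A \ S) (fun i => q i + shv a A S q (fun x => T.E (x, k)) n i)
            (neww (fun N q g => cn a cd N q g) (fun _ => w) k
              (fun i => q i + shv a A S q (fun x => T.E (x, k)) n i)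
              (shv a A S q (fun x => T.E (x, k)) n)))
            (elT a (A \ S) k (rsT a S k (shv a A S q (fun x => T.E (x, k)) n) T)) := by
  have hK : FinT a (A \ S) := hA.mono Finset.sdiff_subset
  have hwt := shv_wt a hs A S hA hS q (fun x => T.E (x, k)) hq (ah11_nuZ hk hT) n
  have hrep := rp_spec a hs (A \ S) hK _ hwt
  obtain ⟨hreg, -⟩ := rsT_RRegK a hs A S hA hS k hk q n T (RReg.toK hT k)
  obtain ⟨μ, hμ⟩ : ∃ μ : I → ℚ, μ = shv a A S q (fun x => T.E (x, k)) n := ⟨_, rfl⟩
  rw [← hμ] at hwt hrep hreg hpos ⊢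
  unfold PPc
  rw [PPv_elT a hs (A \ S) hK k hk _ hrep.1 _ hreg]
  unfold stBlk
  refine PPJ a hs cd h (A \ S) hK k hk _ hrep.1
    (fun N => fam N (fun i => q i + μ i) (neww (fun N q g => cn a cd N q g) (fun _ => w) k
      (fun i => q i + μ i) μ N) (k - 1)) ?_ _ (RReg_elT a hs (A \ S) hK k _ hreg)
  intro N hN
  have hNA : N ⊆ A := (comps_subset hN).trans Finset.sdiff_subset
  have hNf : FinT a N := hK.mono (comps_subset hN)
  have hNc : ConnS a N := comps_conn hN
  have hne : ¬ ∀ x ∈ N, μ x = 0 := by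
    obtain ⟨x, hx⟩ := hNc.1
    intro h0
    exact (hpos x (hNA hx)).ne' (h0 x hx)
  have hneww : neww (fun N q g => cn a cd N q g) (fun _ => w) k (fun i => q i + μ i) μ N =
      fun l => cn a cd N (fun i => q i + μ i) (k - l) := by
    funext l
    unfold neww
    rw [if_neg hne]
  have hwtN : ∀ x ∈ N, IsZ (cqN a N (fun i => q i + μ i) x) := by
    intro x hx
    rw [cqN_comp a (A \ S) N hN _ x hx]
    exact hwt x (comps_subset hN hx)
  have h1 := RFex_cn a hs cd h N hNf hNc (fun i => q i + μ i) hwtN k k le_rfl (k - 1)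
    (Nat.sub_le _ _)
  have h2 := hfam N (fun i => q i + μ i) (neww (fun N q g => cn a cd N q g) (fun _ => w) k
      (fun i => q i + μ i) μ N) (k - 1) (by rw [hneww]; exact h1)
  have h3 : ∀ x ∈ N, IsZ (q x + μ x - rp a (A \ S) (fun i => q i + μ i) x) := fun x hx =>
    ah11_negZ (hrep.2 x (comps_subset hN hx))
  refine h2.congr h3 (fun l hl => ?_)
  rw [hneww]
  exact cn_congrZ a cd N _ _ _ h3

/-- the shift vector of the summand `S = ∅` if there is no kink. -/
private theorem ah11_shv_empty (a : I → I → ℕ) (hs : ∀ i j, a i j = a j i) (A : Finset I)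
    (hA : FinT a A) (q ν : I → ℚ) (hν : ∀ x ∈ A, ν x = 0) (n : I → ℤ) :
    shv a A ∅ q ν n = fun _ => 0 := by
  symm
  refine shv_unique a hs A ∅ hA (Finset.empty_subset _) q ν n (fun _ => 0) (fun _ _ => rfl) ?_ ?_
  · intro i hi
    exact absurd hi (Finset.notMem_empty i)
  · intro x hx
    rw [hν x (Finset.mem_sdiff.1 hx).1]
    unfold cqN
    exact Finset.sum_eq_zero fun y _ => mul_zero _

private theorem ah11_rsT_zero (a : I → I → ℕ) (k : ℕ) (T : Trm I) :
    rsT a ∅ k (fun _ => 0) T = T := by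
  unfold rsT
  rw [eta_eq_etaM]
  refine Trm.ext ?_ ?_ ?_
  · funext i
    change T.γ i - (k : ℚ) * 0 = T.γ i
    ring
  · change T.E - ∑ x, (0 : ℚ) • cE a x k = T.E
    rw [Finset.sum_eq_zero (fun x _ => zero_smul _ _), sub_zero]
  · funext i
    change (if i ∈ (∅ : Finset I) then cE a i k else T.Λ i) = T.Λ i
    rw [if_neg (Finset.notMem_empty i)]

private theorem ah11_rbox_empty (k : ℕ) (γ q : I → ℚ) : rbox (∅ : Finset I) k γ q = {0} := by
  unfold rbox
  ext n
  rw [Fintype.mem_piFinset, Finset.mem_singleton]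
  constructor
  · intro h
    funext i
    have h1 := h i
    rw [if_neg (Finset.notMem_empty i), Finset.mem_singleton] at h1
    exact h1
  · rintro rfl i
    rw [if_neg (Finset.notMem_empty i), Finset.mem_singleton]
    rfl

/-- the elimination does not change the columns which matter. -/
private theorem ah11_elT (a : I → I → ℕ) (hs : ∀ i j, a i j = a j i) (A : Finset I)
    (hA : FinT a A) (k : ℕ) (hk : 1 ≤ k) (T : Trm I) (hT : RReg A T)
    (hν : ∀ x ∈ A, T.E (x, k) = 0) (Φ : FFn I) : evF a A Φ (elT a A k T) = evF a A Φ T := by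
  unfold evF
  congr 1
  refine List.map_congr_left fun c _ => ?_
  congr 2
  refine patT_congr_cols a A c.2 _ _ rfl rfl fun j hj => ?_
  change (if j ∈ A then 0 else elC a A k (T.Λ j)) = T.Λ j
  rw [if_neg hj]
  refine elC_of_zero a hs A hA k (T.Λ j) fun x hx => ?_
  by_contra hne
  have h1 := hT.col x hx j hj k hk hne
  rw [hν x hx] at h1
  norm_num at h1

open Classical in
/-- one step of a single cluster. -/
theorem step_cluster (a : I → I → ℕ) (hs : ∀ i j, a i j = a j i) (cd : CrossData a)
    (h : RTfam a cd) (fam : Finset I → (I → ℚ) → (ℕ → ℚ) → ℕ → FFn I) (hfam : IsFam a cd fam)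
    (A : Finset I) (hA : FinT a A) (hc : ConnS a A) (k : ℕ) (hk : 1 ≤ k) (q : I → ℚ)
    (hq : ∀ x ∈ A, IsZ (cqN a A q x)) (w : ℕ → ℚ) (hw : RFex a cd A q w k) (T : Trm I)
    (hT : RReg A T) :
    evF a A (fam A q w k) T =
      ∑ S ∈ A.powerset, ∑ n ∈ (rbox S k T.γ q).filter
          (fun n => ∀ s ∈ S, T.E (s, k) < cqN a A (shv a A S q (fun x => T.E (x, k)) n) s),
        (if ∀ x ∈ A, shv a A S q (fun x => T.E (x, k)) n x = 0 then 1 else w k) *
          evU a (stBlk a fam k (A \ S) (fun i => q i + shv a A S q (fun x => T.E (x, k)) n i)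
            (neww (fun N q g => cn a cd N q g) (fun _ => w) k
              (fun i => q i + shv a A S q (fun x => T.E (x, k)) n i)
              (shv a A S q (fun x => T.E (x, k)) n)))
            (elT a (A \ S) k (rsT a S k (shv a A S q (fun x => T.E (x, k)) n) T)) := by
  have hrep : Rep a A q (rp a A q) := rp_spec a hs A hA q hq
  have hfk : IsRF a cd A q w k (fam A q w k) := hfam A q w k (hw k le_rfl)
  have hfk1 : IsRF a cd A q w (k - 1) (fam A q w (k - 1)) :=
    hfam A q w (k - 1) (hw (k - 1) (Nat.sub_le _ _))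
  have hν0 := ah11_nu0 (A := A) hk hT
  have hrs := restart a hs A hA k hk q (rp a A q) hrep T hT
  -- the touched summands
  have htouch : ∀ S ∈ A.powerset, (S.Nonempty ∨ ∃ x ∈ A, T.E (x, k) ≠ 0) →
      ∑ n ∈ (rbox S k T.γ q).filter
          (fun n => ∀ s ∈ S, T.E (s, k) < cqN a A (shv a A S q (fun x => T.E (x, k)) n) s),
        (if ∀ x ∈ A, shv a A S q (fun x => T.E (x, k)) n x = 0 then 1 else w k) *
          evU a (stBlk a fam k (A \ S) (fun i => q i + shv a A S q (fun x => T.E (x, k)) n i)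
            (neww (fun N q g => cn a cd N q g) (fun _ => w) k
              (fun i => q i + shv a A S q (fun x => T.E (x, k)) n i)
              (shv a A S q (fun x => T.E (x, k)) n)))
            (elT a (A \ S) k (rsT a S k (shv a A S q (fun x => T.E (x, k)) n) T)) =
      w k * ∑ n ∈ (rbox S k T.γ q).filter
          (fun n => ∀ s ∈ S, T.E (s, k) < cqN a A (shv a A S q (fun x => T.E (x, k)) n) s),
        PPc a (A \ S) k (fun i => q i + shv a A S q (fun x => T.E (x, k)) n i)
          (rsT a S k (shv a A S q (fun x => T.E (x, k)) n) T) := by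
    intro S hS hne
    rw [Finset.mem_powerset] at hS
    rw [Finset.mul_sum]
    refine Finset.sum_congr rfl fun n hn => ?_
    have hP := (Finset.mem_filter.1 hn).2
    have hpos := shv_pos a hs A S hA hc hS q (fun x => T.E (x, k)) hν0 n hP hne
    have hnz : ¬ ∀ x ∈ A, shv a A S q (fun x => T.E (x, k)) n x = 0 := by
      obtain ⟨x, hx⟩ := hc.1
      intro h0
      exact (hpos x hx).ne' (h0 x hx)
    rw [if_neg hnz, ah11_touched a hs cd h fam hfam A hA k hk q hq w T hT S hS n hpos]
  by_cases hkink : ∃ x ∈ A, T.E (x, k) ≠ 0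
  · -- a kink
    have hK : Kink A k T := by
      obtain ⟨x, hx, hne⟩ := hkink
      refine ⟨x, hx, ?_⟩
      obtain ⟨m, hm⟩ := hT.nat x hx k hk
      rw [hm] at hne ⊢
      have : m ≠ 0 := fun h0 => hne (by rw [h0]; norm_num)
      exact_mod_cast Nat.one_le_iff_ne_zero.2 this
    rw [hfk.knk hk (rp a A q) hrep T hT hK, hrs, Finset.mul_sum]
    exact Finset.sum_congr rfl fun S hS => (htouch S hS (Or.inr hkink)).symm
  · -- no kink
    have hν : ∀ x ∈ A, T.E (x, k) = 0 := by
      intro x hx
      by_contra hne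
      exact hkink ⟨x, hx, hne⟩
    have hstep := RF_step a cd A q (rp a A q) hrep w k hk _ _ hfk hfk1 T hT
    have hsplit := TV_step_split a hs A hA k hk (rp a A q) hrep.1 T hT
    have hmem : (∅ : Finset I) ∈ A.powerset := Finset.empty_mem_powerset A
    rw [← Finset.add_sum_erase _ _ hmem] at hrs ⊢
    have hfil : (rbox (∅ : Finset I) k T.γ q).filter
        (fun n => ∀ s ∈ (∅ : Finset I),
          T.E (s, k) < cqN a A (shv a A ∅ q (fun x => T.E (x, k)) n) s) = {0} := by
      rw [ah11_rbox_empty, Finset.filter_true_of_mem]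
      intro n _ s hs'
      exact absurd hs' (Finset.notMem_empty s)
    have hμ0 : shv a A ∅ q (fun x => T.E (x, k)) 0 = fun _ => 0 :=
      ah11_shv_empty a hs A hA q _ hν 0
    have hqq : (fun i => q i + (0 : ℚ)) = q := by
      funext i
      rw [add_zero]
    have e1 : ∑ n ∈ (rbox (∅ : Finset I) k T.γ q).filter
          (fun n => ∀ s ∈ (∅ : Finset I),
            T.E (s, k) < cqN a A (shv a A ∅ q (fun x => T.E (x, k)) n) s),
        PPc a (A \ ∅) k (fun i => q i + shv a A ∅ q (fun x => T.E (x, k)) n i)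
          (rsT a ∅ k (shv a A ∅ q (fun x => T.E (x, k)) n) T) = PPv a A k (rp a A q) T := by
      rw [hfil, Finset.sum_singleton, hμ0, Finset.sdiff_empty, ah11_rsT_zero]
      change PPc a A k (fun i => q i + (0 : ℚ)) T = _
      rw [hqq]
      rfl
    have e2 : ∑ n ∈ (rbox (∅ : Finset I) k T.γ q).filter
          (fun n => ∀ s ∈ (∅ : Finset I),
            T.E (s, k) < cqN a A (shv a A ∅ q (fun x => T.E (x, k)) n) s),
        (if ∀ x ∈ A, shv a A ∅ q (fun x => T.E (x, k)) n x = 0 then 1 else w k) *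
          evU a (stBlk a fam k (A \ ∅) (fun i => q i + shv a A ∅ q (fun x => T.E (x, k)) n i)
            (neww (fun N q g => cn a cd N q g) (fun _ => w) k
              (fun i => q i + shv a A ∅ q (fun x => T.E (x, k)) n i)
              (shv a A ∅ q (fun x => T.E (x, k)) n)))
            (elT a (A \ ∅) k (rsT a ∅ k (shv a A ∅ q (fun x => T.E (x, k)) n) T)) =
        evF a A (fam A q w (k - 1)) T := by
      rw [hfil, Finset.sum_singleton, hμ0, Finset.sdiff_empty, ah11_rsT_zero]
      rw [if_pos (fun _ _ => rfl), one_mul]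
      change evU a (stBlk a fam k A (fun i => q i + (0 : ℚ))
            (neww (fun N q g => cn a cd N q g) (fun _ => w) k
              (fun i => q i + (0 : ℚ)) (fun _ => 0))) (elT a A k T) = _
      rw [hqq]
      have hnw : neww (fun N q g => cn a cd N q g) (fun _ => w) k q (fun _ => 0) A = w := by
        funext l
        unfold neww
        rw [if_pos (fun _ _ => rfl)]
      unfold stBlk
      rw [comps_of_conn hc, Finset.toList_singleton, List.map_singleton, hnw, evU_single,
        ah11_elT a hs A hA k hk T hT hν]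
    rw [e1] at hrs
    rw [e2, hstep]
    have e3 : Rv a A k (rp a A q) T = ∑ S ∈ A.powerset.erase ∅, ∑ n ∈ (rbox S k T.γ q).filter
          (fun n => ∀ s ∈ S, T.E (s, k) < cqN a A (shv a A S q (fun x => T.E (x, k)) n) s),
        PPc a (A \ S) k (fun i => q i + shv a A S q (fun x => T.E (x, k)) n i)
          (rsT a S k (shv a A S q (fun x => T.E (x, k)) n) T) := by
      linarith
    rw [e3, Finset.mul_sum]
    congr 1
    refine Finset.sum_congr rfl fun S hS => ?_
    rw [Finset.mem_erase] at hS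
    exact (htouch S hS.2 (Or.inl (Finset.nonempty_iff_ne_empty.2 hS.1))).symm

end

end Pool.Agent.H46.AH

end

section

/-!
KAC ADE, module AH13: one step of all clusters.

PROOF.  Induction on the number of components of `W`.  `W = ∅`: both sides are `TV a T` (`shv = 0`, `rsT`, `elT` trivial).
Otherwise let `A` be a component, `B = W \ A` (`comps_sdiff_sep`); `shv_union`, `rbox_union` describe the data of the
union.  `evU_union`, `evU_append` and `evU_perm`: evaluate the block of `A` innermost, i.e. on the terms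
`patT a B π T` (`π` from the blocks of `B`), which are `RReg A` (`RReg_patT`); apply `step_cluster`; `rsT_patT`, `elT_patT`
(and `E_patT_sep` for the data) move the patterns of `B` back; then evaluate the new blocks of `A \ S` outermost and the
blocks of `B` innermost, on terms which are `RReg B` (`RReg_rs_sep`, `E_rs_sep`), and apply the induction hypothesis to `B`.
Finally `elT_union`, `rsT_union`, `rsT_elT`, `evU_union`; the classes `q + μ_A` and `q + μ_A + μ_B` agree on `A`
(`evU_RF` / `IsRF.congr`, since `fam` may see the values outside of the component).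
-/

set_option autoImplicit false

namespace Pool.Agent.H46.AH

open scoped BigOperators
open Pool.Agent.H27.KAC Pool.Agent.H40.KADE

section

variable {I : Type} [Fintype I] [DecidableEq I]

/-! ### elementary facts -/

theorem AH13_cqN_union (a : I → I → ℕ) (A B : Finset I) (h : Disjoint A B) (v : I → ℚ) (i : I) :
    cqN a (A ∪ B) v i = cqN a A v i + cqN a B v i := by
  unfold cqN
  rw [Finset.sum_union h]

theorem AH13_cqN_sep (a : I → I → ℕ) (hs : ∀ i j, a i j = a j i) (A B : Finset I)
    (h : Sep a A B) (v : I → ℚ) (i : I) (hi : i ∈ B) : cqN a A v i = 0 := by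
  unfold cqN
  refine Finset.sum_eq_zero fun j hj => ?_
  have h1 : cart a i j = 0 := by
    rw [cart_symm a hs]
    exact AG1_cart hs (fun e => Finset.disjoint_left.1 h.1 hj (e ▸ hi)) (by rw [hs]; exact h.2 j hj i hi)
  rw [h1]
  push_cast
  ring

theorem AH13_cqN_sep' (a : I → I → ℕ) (hs : ∀ i j, a i j = a j i) (A B : Finset I)
    (h : Sep a A B) (v : I → ℚ) (i : I) (hi : i ∈ A) : cqN a B v i = 0 :=
  AH13_cqN_sep a hs B A ⟨h.1.symm, fun x hx y hy => by rw [hs]; exact h.2 y hy x hx⟩ v i hi

theorem AH13_cqN_zero (a : I → I → ℕ) (N : Finset I) (v : I → ℚ) (h : ∀ i ∈ N, v i = 0)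
    (i : I) : cqN a N v i = 0 := by
  unfold cqN
  exact Finset.sum_eq_zero fun j hj => by rw [h j hj, mul_zero]

theorem AH13_cqN_add (a : I → I → ℕ) (N : Finset I) (v v' : I → ℚ) (i : I) :
    cqN a N (fun j => v j + v' j) i = cqN a N v i + cqN a N v' i := by
  unfold cqN
  rw [← Finset.sum_add_distrib]
  exact Finset.sum_congr rfl fun j _ => mul_add _ _ _

theorem AH13_sep_symm {a : I → I → ℕ} (hs : ∀ i j, a i j = a j i) {A B : Finset I}
    (h : Sep a A B) : Sep a B A :=
  ⟨h.1.symm, fun x hx y hy => by rw [hs]; exact h.2 y hy x hx⟩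

theorem AH13_sep_mono {a : I → I → ℕ} {A B A' B' : Finset I} (h : Sep a A B) (hA : A' ⊆ A)
    (hB : B' ⊆ B) : Sep a A' B' :=
  ⟨Finset.disjoint_of_subset_left hA (Finset.disjoint_of_subset_right hB h.1),
    fun x hx y hy => h.2 x (hA hx) y (hB hy)⟩

/-- the shift vector only depends on the values of `ν` on `N \ S` and of `n` on `S`. -/
theorem AH13_shv_congr (a : I → I → ℕ) (hs : ∀ i j, a i j = a j i) (N S : Finset I)
    (hN : FinT a N) (q ν ν' : I → ℚ) (n : I → ℤ) (hν : ∀ x ∈ N, ν x = ν' x) :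
    shv a N S q ν n = shv a N S q ν' n := by
  funext i
  unfold shv
  congr 1
  have h1 : solN a (N \ S) (fun x => ν x - cqN a S (fun s => (n s : ℚ) - q s) x) =
      solN a (N \ S) (fun x => ν' x - cqN a S (fun s => (n s : ℚ) - q s) x) := by
    refine solN_congr hs (hN.mono Finset.sdiff_subset) _ _ fun x hx => ?_
    beta_reduce
    rw [hν x (Finset.mem_sdiff.1 hx).1]
  rw [h1]

theorem shv_union (a : I → I → ℕ) (hs : ∀ i j, a i j = a j i) (A B : Finset I)
    (hW : FinT a (A ∪ B)) (hAB : Sep a A B) (S S' : Finset I) (hS : S ⊆ A) (hS' : S' ⊆ B)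
    (q ν : I → ℚ) (n n' : I → ℤ) (hn : ∀ i, i ∉ S → n i = 0) (hn' : ∀ i, i ∉ S' → n' i = 0)
    (i : I) :
    shv a (A ∪ B) (S ∪ S') q ν (fun i => n i + n' i) i = shv a A S q ν n i + shv a B S' q ν n' i := by
  have hA : FinT a A := hW.mono Finset.subset_union_left
  have hB : FinT a B := hW.mono Finset.subset_union_right
  have hdis := hAB.1
  have key := shv_unique a hs (A ∪ B) (S ∪ S') hW (Finset.union_subset_union hS hS') q ν
    (fun i => n i + n' i) (fun i => shv a A S q ν n i + shv a B S' q ν n' i) ?_ ?_ ?_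
  · exact (congrFun key i).symm
  · intro j hj
    rw [Finset.mem_union, not_or] at hj
    rw [shv_off a A S hS q ν n j hj.1, shv_off a B S' hS' q ν n' j hj.2, add_zero]
  · intro j hj
    rcases Finset.mem_union.1 hj with h | h
    · have hjB : j ∉ B := Finset.disjoint_left.1 hdis (hS h)
      rw [shv_S a A S q ν n j h, shv_off a B S' hS' q ν n' j hjB,
        hn' j (fun h' => hjB (hS' h'))]
      push_cast
      ring
    · have hjA : j ∉ A := fun h' => Finset.disjoint_left.1 hdis h' (hS' h)
      rw [shv_S a B S' q ν n' j h, shv_off a A S hS q ν n j hjA,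
        hn j (fun h' => hjA (hS h'))]
      push_cast
      ring
  · intro x hx
    rw [Finset.mem_sdiff, Finset.mem_union, Finset.mem_union, not_or] at hx
    rw [AH13_cqN_union a A B hdis, AH13_cqN_add, AH13_cqN_add,
      AH13_cqN_zero a A (shv a B S' q ν n') (fun j hj =>
        shv_off a B S' hS' q ν n' j (Finset.disjoint_left.1 hdis hj)) x,
      AH13_cqN_zero a B (shv a A S q ν n) (fun j hj =>
        shv_off a A S hS q ν n j (fun h' => Finset.disjoint_left.1 hdis h' hj)) x,
      add_zero, zero_add]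
    rcases hx.1 with h | h
    · rw [AH13_cqN_sep' a hs A B hAB _ x h, add_zero]
      exact shv_eq a hs A S hA hS q ν n x (Finset.mem_sdiff.2 ⟨h, hx.2.1⟩)
    · rw [AH13_cqN_sep a hs A B hAB _ x h, zero_add]
      exact shv_eq a hs B S' hB hS' q ν n' x (Finset.mem_sdiff.2 ⟨h, hx.2.2⟩)

open Classical in
/-- sums over `S ∪ S'`. -/
theorem sum_rbox_union (A B : Finset I) (hAB : Disjoint A B) (k : ℕ) (γ q : I → ℚ)
    (f : Finset I → (I → ℤ) → ℚ) :
    ∑ S ∈ (A ∪ B).powerset, ∑ n ∈ rbox S k γ q, f S n =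
      ∑ S ∈ A.powerset, ∑ n ∈ rbox S k γ q, ∑ S' ∈ B.powerset, ∑ n' ∈ rbox S' k γ q,
        f (S ∪ S') (fun i => n i + n' i) := by
  have hmem : ∀ (S : Finset I) (n : I → ℤ), n ∈ rbox S k γ q ↔
      (∀ i ∈ S, n i ∈ Finset.Icc ⌈q i⌉ ⌊γ i / k + q i⌋) ∧ ∀ i, i ∉ S → n i = 0 := by
    intro S n
    unfold rbox
    rw [Fintype.mem_piFinset]
    constructor
    · intro h
      refine ⟨fun i hi => ?_, fun i hi => ?_⟩
      · have := h i
        rw [if_pos hi] at this
        exact this
      · have := h i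
        rw [if_neg hi, Finset.mem_singleton] at this
        exact this
    · intro h i
      by_cases hi : i ∈ S
      · rw [if_pos hi]
        exact h.1 i hi
      · rw [if_neg hi, Finset.mem_singleton]
        exact h.2 i hi
  rw [Finset.sum_sigma', Finset.sum_sigma']
  have e1 : ∑ x ∈ A.powerset.sigma (fun S => rbox S k γ q), ∑ S' ∈ B.powerset,
      ∑ n' ∈ rbox S' k γ q, f (x.1 ∪ S') (fun i => x.2 i + n' i) =
      ∑ x ∈ A.powerset.sigma (fun S => rbox S k γ q),
        ∑ y ∈ B.powerset.sigma (fun S => rbox S k γ q),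
          f (x.1 ∪ y.1) (fun i => x.2 i + y.2 i) :=
    Finset.sum_congr rfl fun x _ => by rw [Finset.sum_sigma']
  rw [e1, ← Finset.sum_product']
  symm
  refine Finset.sum_bij'
    (fun z _ => (⟨z.1.1 ∪ z.2.1, fun i => z.1.2 i + z.2.2 i⟩ : (_ : Finset I) × (I → ℤ)))
    (fun z _ => ((⟨z.1 ∩ A, fun i => if i ∈ A then z.2 i else 0⟩ : (_ : Finset I) × (I → ℤ)),
      (⟨z.1 ∩ B, fun i => if i ∈ B then z.2 i else 0⟩ : (_ : Finset I) × (I → ℤ))))
    ?_ ?_ ?_ ?_ ?_
  · intro z hz
    rw [Finset.mem_product, Finset.mem_sigma, Finset.mem_sigma, Finset.mem_powerset,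
      Finset.mem_powerset, hmem, hmem] at hz
    obtain ⟨⟨h1, h2, h3⟩, h4, h5, h6⟩ := hz
    rw [Finset.mem_sigma, Finset.mem_powerset, hmem]
    refine ⟨Finset.union_subset_union h1 h4, fun i hi => ?_, fun i hi => ?_⟩
    · rcases Finset.mem_union.1 hi with h | h
      · have h7 : i ∉ z.2.1 := fun h' => Finset.disjoint_left.1 hAB (h1 h) (h4 h')
        show z.1.2 i + z.2.2 i ∈ _
        rw [h6 i h7, add_zero]
        exact h2 i h
      · have h7 : i ∉ z.1.1 := fun h' => Finset.disjoint_left.1 hAB (h1 h') (h4 h)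
        show z.1.2 i + z.2.2 i ∈ _
        rw [h3 i h7, zero_add]
        exact h5 i h
    · replace hi : i ∉ z.1.1 ∪ z.2.1 := hi
      rw [Finset.mem_union, not_or] at hi
      show z.1.2 i + z.2.2 i = 0
      rw [h3 i hi.1, h6 i hi.2, add_zero]
  · intro z hz
    rw [Finset.mem_sigma, Finset.mem_powerset, hmem] at hz
    obtain ⟨h1, h2, h3⟩ := hz
    rw [Finset.mem_product, Finset.mem_sigma, Finset.mem_sigma, Finset.mem_powerset,
      Finset.mem_powerset, hmem, hmem]
    refine ⟨⟨Finset.inter_subset_right, fun i hi => ?_, fun i hi => ?_⟩,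
      Finset.inter_subset_right, fun i hi => ?_, fun i hi => ?_⟩
    · replace hi : i ∈ z.1 ∩ A := hi
      rw [Finset.mem_inter] at hi
      show (if i ∈ A then z.2 i else 0) ∈ _
      rw [if_pos hi.2]
      exact h2 i hi.1
    · replace hi : i ∉ z.1 ∩ A := hi
      show (if i ∈ A then z.2 i else 0) = 0
      by_cases hiA : i ∈ A
      · rw [if_pos hiA]
        exact h3 i (fun h' => hi (Finset.mem_inter.2 ⟨h', hiA⟩))
      · rw [if_neg hiA]
    · replace hi : i ∈ z.1 ∩ B := hi
      rw [Finset.mem_inter] at hi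
      show (if i ∈ B then z.2 i else 0) ∈ _
      rw [if_pos hi.2]
      exact h2 i hi.1
    · replace hi : i ∉ z.1 ∩ B := hi
      show (if i ∈ B then z.2 i else 0) = 0
      by_cases hiB : i ∈ B
      · rw [if_pos hiB]
        exact h3 i (fun h' => hi (Finset.mem_inter.2 ⟨h', hiB⟩))
      · rw [if_neg hiB]
  · intro z hz
    rw [Finset.mem_product, Finset.mem_sigma, Finset.mem_sigma, Finset.mem_powerset,
      Finset.mem_powerset, hmem, hmem] at hz
    obtain ⟨⟨h1, h2, h3⟩, h4, h5, h6⟩ := hz
    have hSA : (z.1.1 ∪ z.2.1) ∩ A = z.1.1 := by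
      ext i
      rw [Finset.mem_inter, Finset.mem_union]
      constructor
      · rintro ⟨h | h, h'⟩
        · exact h
        · exact absurd (h4 h) (Finset.disjoint_left.1 hAB h')
      · intro h
        exact ⟨Or.inl h, h1 h⟩
    have hSB : (z.1.1 ∪ z.2.1) ∩ B = z.2.1 := by
      ext i
      rw [Finset.mem_inter, Finset.mem_union]
      constructor
      · rintro ⟨h | h, h'⟩
        · exact absurd h' (Finset.disjoint_left.1 hAB (h1 h))
        · exact h
      · intro h
        exact ⟨Or.inr h, h4 h⟩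
    have hnA : (fun i => if i ∈ A then z.1.2 i + z.2.2 i else 0) = z.1.2 := by
      funext i
      by_cases hi : i ∈ A
      · rw [if_pos hi, h6 i (fun h' => Finset.disjoint_left.1 hAB hi (h4 h')), add_zero]
      · rw [if_neg hi, h3 i (fun h' => hi (h1 h'))]
    have hnB : (fun i => if i ∈ B then z.1.2 i + z.2.2 i else 0) = z.2.2 := by
      funext i
      by_cases hi : i ∈ B
      · rw [if_pos hi, h3 i (fun h' => Finset.disjoint_left.1 hAB (h1 h') hi), zero_add]
      · rw [if_neg hi, h6 i (fun h' => hi (h4 h'))]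
    show ((⟨(z.1.1 ∪ z.2.1) ∩ A, fun i => if i ∈ A then z.1.2 i + z.2.2 i else 0⟩ :
        (_ : Finset I) × (I → ℤ)), (⟨(z.1.1 ∪ z.2.1) ∩ B, fun i => if i ∈ B then
          z.1.2 i + z.2.2 i else 0⟩ : (_ : Finset I) × (I → ℤ))) = z
    rw [hSA, hSB, hnA, hnB]
  · intro z hz
    rw [Finset.mem_sigma, Finset.mem_powerset, hmem] at hz
    obtain ⟨h1, h2, h3⟩ := hz
    have hS : z.1 ∩ A ∪ z.1 ∩ B = z.1 := by
      rw [← Finset.inter_union_distrib_left]
      exact Finset.inter_eq_left.2 h1
    have hn : (fun i => (if i ∈ A then z.2 i else 0) + if i ∈ B then z.2 i else 0) = z.2 := by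
      funext i
      by_cases hi : i ∈ A
      · rw [if_pos hi, if_neg (Finset.disjoint_left.1 hAB hi), add_zero]
      · rw [if_neg hi, zero_add]
        by_cases hi' : i ∈ B
        · rw [if_pos hi']
        · rw [if_neg hi', h3 i (fun h' => by
            rcases Finset.mem_union.1 (h1 h') with h | h
            · exact hi h
            · exact hi' h)]
    show (⟨z.1 ∩ A ∪ z.1 ∩ B, fun i => (if i ∈ A then z.2 i else 0) +
      if i ∈ B then z.2 i else 0⟩ : (_ : Finset I) × (I → ℤ)) = z
    rw [hS, hn]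
  · intro z hz
    rfl

/-! ### evaluation of blocks -/

theorem AH13_sum_swap {α : Type} (L : List α) (s : Finset (Finset I))
    (t : Finset I → Finset (I → ℤ)) (g : α → Finset I → (I → ℤ) → ℚ) :
    (L.map (fun c => ∑ S ∈ s, ∑ n ∈ t S, g c S n)).sum =
      ∑ S ∈ s, ∑ n ∈ t S, (L.map (fun c => g c S n)).sum := by
  induction L with
  | nil => simp
  | cons c L ih =>
    rw [List.map_cons, List.sum_cons, ih, ← Finset.sum_add_distrib]
    refine Finset.sum_congr rfl fun S _ => ?_
    rw [← Finset.sum_add_distrib]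
    refine Finset.sum_congr rfl fun n _ => ?_
    rw [List.map_cons, List.sum_cons]

theorem AH13_tail (a : I → I → ℕ) (U V : List (Finset I × FFn I))
    (hd : U.Pairwise (fun b c => Disjoint b.1 c.1)) (s : Finset (Finset I))
    (t : Finset I → Finset (I → ℤ)) (wt : Finset I → (I → ℤ) → ℚ)
    (V' : Finset I → (I → ℤ) → List (Finset I × FFn I)) (T : Trm I)
    (T' : Finset I → (I → ℤ) → Trm I)
    (h : ∀ π : Pat I, evU a V (patT a (uni U) π T) =
      ∑ S ∈ s, ∑ n ∈ t S, wt S n * evU a (V' S n) (patT a (uni U) π (T' S n))) :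
    evU a (U ++ V) T = ∑ S ∈ s, ∑ n ∈ t S, wt S n * evU a (U ++ V' S n) (T' S n) := by
  rw [evU_append a U V hd T]
  have e1 : (prodF U).map (fun c => c.1 * evU a V (patT a (uni U) c.2 T)) =
      (prodF U).map (fun c => ∑ S ∈ s, ∑ n ∈ t S,
        c.1 * (wt S n * evU a (V' S n) (patT a (uni U) c.2 (T' S n)))) := by
    refine List.map_congr_left fun c _ => ?_
    rw [h c.2, Finset.mul_sum]
    exact Finset.sum_congr rfl fun S _ => Finset.mul_sum _ _ _
  rw [e1, AH13_sum_swap]
  refine Finset.sum_congr rfl fun S _ => Finset.sum_congr rfl fun n _ => ?_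
  rw [evU_append a U (V' S n) hd (T' S n), GDef_mul_sum]
  congr 1
  refine List.map_congr_left fun c _ => ?_
  ring

open Classical in
/-- the data only depend on `γ` and `ν` on the cluster. -/
theorem AH13_data (a : I → I → ℕ) (hs : ∀ i j, a i j = a j i) (A : Finset I) (hA : FinT a A)
    (k : ℕ) (q γ γ' ν ν' : I → ℚ) (hγ : ∀ x ∈ A, γ x = γ' x) (hν : ∀ x ∈ A, ν x = ν' x)
    (F : Finset I → (I → ℚ) → ℚ) :
    ∑ S ∈ A.powerset, ∑ n ∈ (rbox S k γ q).filter
        (fun n => ∀ s ∈ S, ν s < cqN a A (shv a A S q ν n) s), F S (shv a A S q ν n) =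
      ∑ S ∈ A.powerset, ∑ n ∈ (rbox S k γ' q).filter
        (fun n => ∀ s ∈ S, ν' s < cqN a A (shv a A S q ν' n) s), F S (shv a A S q ν' n) := by
  refine Finset.sum_congr rfl fun S hS => ?_
  have hSA : S ⊆ A := Finset.mem_powerset.1 hS
  have h1 : rbox S k γ q = rbox S k γ' q := by
    unfold rbox
    congr 1
    funext i
    by_cases hi : i ∈ S
    · rw [if_pos hi, if_pos hi, hγ i (hSA hi)]
    · rw [if_neg hi, if_neg hi]
  have h2 : ∀ n, shv a A S q ν n = shv a A S q ν' n := fun n =>
    AH13_shv_congr a hs A S hA q ν ν' n hν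
  rw [h1]
  refine Finset.sum_congr (Finset.filter_congr fun n _ => ?_) fun n _ => by rw [h2]
  rw [h2]
  constructor
  · intro h s hs'
    rw [← hν s (hSA hs')]
    exact h s hs'
  · intro h s hs'
    rw [hν s (hSA hs')]
    exact h s hs'

theorem AH13_comps_empty (a : I → I → ℕ) : comps a (∅ : Finset I) = ∅ := by
  rw [Finset.eq_empty_iff_forall_notMem]
  intro N hN
  obtain ⟨x, hx⟩ := (comps_conn hN).1
  exact absurd (comps_subset hN hx) (Finset.notMem_empty x)

theorem AH13_rsT_empty (a : I → I → ℕ) (k : ℕ) (T : Trm I) :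
    rsT a ∅ k (fun _ => 0) T = T := by
  refine Trm.ext ?_ ?_ ?_
  · funext i
    show T.γ i - (k : ℚ) * 0 = T.γ i
    ring
  · show T.E - (∑ x, (0 : ℚ) • cE a x k) = T.E
    rw [Finset.sum_eq_zero fun x _ => zero_smul _ _, sub_zero]
  · rfl

/-- untouched components of `W \ S` are components of `W`. -/
theorem AH13_untouched (a : I → I → ℕ) (hs : ∀ i j, a i j = a j i) (W S : Finset I)
    (hW : FinT a W) (hS : S ⊆ W) (q ν : I → ℚ) (hν : ∀ x ∈ W, 0 ≤ ν x) (n : I → ℤ)
    (hP : ∀ s ∈ S, ν s < cqN a W (shv a W S q ν n) s) (N : Finset I) (hN : N ∈ comps a (W \ S))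
    (h0 : ∀ x ∈ N, shv a W S q ν n x = 0) : N ∈ comps a W := by
  classical
  obtain ⟨h1, h2⟩ := shv_nonneg a hs W S hW hS q ν hν n hP
  unfold comps
  rw [Finset.mem_filter, Finset.mem_powerset]
  refine ⟨(comps_subset hN).trans Finset.sdiff_subset, comps_conn hN, fun i hi j hj hjN => ?_⟩
  by_cases hjS : j ∈ S
  · by_contra hne
    have hiW : i ∈ W \ S := comps_subset hN hi
    have h3 := shv_eq a hs W S hW hS q ν n i hiW
    have h4 := hν i (Finset.mem_sdiff.1 hiW).1
    have h5 : cqN a W (shv a W S q ν n) i ≤ ((cart a i j : ℤ) : ℚ) * shv a W S q ν n j := by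
      unfold cqN
      rw [← Finset.add_sum_erase W _ hj]
      have h6 : ∑ x ∈ W.erase j, ((cart a i x : ℤ) : ℚ) * shv a W S q ν n x ≤ 0 := by
        refine Finset.sum_nonpos fun x hx => ?_
        by_cases hxi : x = i
        · rw [hxi, h0 i hi, mul_zero]
        · rw [AE8_cart_ne a (fun h => hxi h.symm)]
          have := h1 x
          have h7 : (0 : ℚ) ≤ (a i x : ℚ) := Nat.cast_nonneg _
          nlinarith
      linarith
    have h8 : i ≠ j := fun e => (Finset.mem_sdiff.1 hiW).2 (e ▸ hjS)
    rw [AE8_cart_ne a h8] at h5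
    have h9 : (0 : ℚ) < (a i j : ℚ) := by
      exact_mod_cast Nat.pos_of_ne_zero hne
    have h10 := h2 j hjS
    nlinarith
  · exact comps_sep hN i hi j (Finset.mem_sdiff.2 ⟨hj, hjS⟩) hjN

/-- the new clusters have functionals. -/
theorem AH13_newRF (a : I → I → ℕ) (hs : ∀ i j, a i j = a j i) (cd : CrossData a)
    (h : RTfam a cd) (W S : Finset I) (hW : FinT a W) (hS : S ⊆ W) (k : ℕ) (q ν : I → ℚ)
    (hq : ∀ x ∈ W, IsZ (cqN a W q x)) (hν : ∀ x ∈ W, 0 ≤ ν x) (hνZ : ∀ x ∈ W, IsZ (ν x))
    (n : I → ℤ) (hP : ∀ s ∈ S, ν s < cqN a W (shv a W S q ν n) s) (w : Finset I → ℕ → ℚ)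
    (hw : ∀ N ∈ comps a W, RFex a cd N q (w N) k) (N : Finset I) (hN : N ∈ comps a (W \ S)) :
    RFex a cd N (fun i => q i + shv a W S q ν n i)
      (neww (fun N q g => cn a cd N q g) w k (fun i => q i + shv a W S q ν n i)
        (shv a W S q ν n) N) k := by
  have hNf : FinT a N := hW.mono ((comps_subset hN).trans Finset.sdiff_subset)
  by_cases h0 : ∀ x ∈ N, shv a W S q ν n x = 0
  · have h1 := AH13_untouched a hs W S hW hS q ν hν n hP N hN h0
    refine (hw N h1).congr (fun x hx => ?_) (fun l _ => ?_)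
    · rw [h0 x hx]
      exact ⟨0, by push_cast; ring⟩
    · unfold neww
      rw [if_pos h0]
  · have h1 := RFex_cn a hs cd h N hNf (comps_conn hN) (fun i => q i + shv a W S q ν n i)
      (fun x hx => by
        rw [cqN_comp a (W \ S) N hN _ x hx]
        exact shv_wt a hs W S hW hS q ν hq hνZ n x (comps_subset hN hx)) k k le_rfl
    refine h1.congr (fun x _ => ⟨0, by push_cast; ring⟩) (fun l _ => ?_)
    unfold neww
    rw [if_neg h0]

/-- the data of `neww` on one cluster. -/
theorem AH13_neww_congr (a : I → I → ℕ) (cd : CrossData a) (w w' : Finset I → ℕ → ℚ) (k : ℕ)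
    (q μ μ' : I → ℚ) (N : Finset I) (hμ : ∀ x ∈ N, μ x = μ' x) (hw : (∀ x ∈ N, μ x = 0) → w N = w' N)
    (l : ℕ) : neww (fun N q g => cn a cd N q g) w k (fun i => q i + μ i) μ N l =
      neww (fun N q g => cn a cd N q g) w' k (fun i => q i + μ' i) μ' N l := by
  have h1 : (∀ x ∈ N, μ x = 0) ↔ ∀ x ∈ N, μ' x = 0 :=
    ⟨fun h x hx => by rw [← hμ x hx]; exact h x hx, fun h x hx => by rw [hμ x hx]; exact h x hx⟩
  unfold neww
  by_cases h0 : ∀ x ∈ N, μ x = 0
  · rw [if_pos h0, if_pos (h1.1 h0), hw h0]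
  · rw [if_neg h0, if_neg (fun h' => h0 (h1.2 h'))]
    refine cn_congrZ a cd N _ _ _ fun x hx => ⟨0, ?_⟩
    rw [hμ x hx]
    push_cast
    ring

theorem AH13_sdiff (A B S S' : Finset I) (h : Disjoint A B) (hS : S ⊆ A) (hS' : S' ⊆ B) :
    (A ∪ B) \ (S ∪ S') = (A \ S) ∪ (B \ S') := by
  ext x
  rw [Finset.mem_sdiff, Finset.mem_union, Finset.mem_union, Finset.mem_union, Finset.mem_sdiff,
    Finset.mem_sdiff, not_or]
  constructor
  · rintro ⟨h1 | h1, h2, h3⟩
    · exact Or.inl ⟨h1, h2⟩
    · exact Or.inr ⟨h1, h3⟩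
  · rintro (⟨h1, h2⟩ | ⟨h1, h2⟩)
    · exact ⟨Or.inl h1, h2, fun h3 => Finset.disjoint_left.1 h h1 (hS' h3)⟩
    · exact ⟨Or.inr h1, fun h3 => Finset.disjoint_left.1 h (hS h3) h1, h2⟩

/-- matching of the new states. -/
theorem AH13_match (a : I → I → ℕ) (hs : ∀ i j, a i j = a j i) (cd : CrossData a)
    (h : RTfam a cd) (fam : Finset I → (I → ℚ) → (ℕ → ℚ) → ℕ → FFn I) (hfam : IsFam a cd fam)
    (A B : Finset I) (hW : FinT a (A ∪ B)) (hAB : Sep a A B) (hc : ConnS a A) (k : ℕ)
    (hk : 1 ≤ k) (q : I → ℚ) (hq : ∀ x ∈ A ∪ B, IsZ (cqN a (A ∪ B) q x))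
    (w : Finset I → ℕ → ℚ) (hw : ∀ N ∈ comps a (A ∪ B), RFex a cd N q (w N) k) (T : Trm I)
    (hT : RReg (A ∪ B) T) (S S' : Finset I) (hS : S ⊆ A) (hS' : S' ⊆ B) (n n' : I → ℤ)
    (hn : ∀ i, i ∉ S → n i = 0) (hn' : ∀ i, i ∉ S' → n' i = 0)
    (hPA : ∀ s ∈ S, T.E (s, k) < cqN a A (shv a A S q (fun x => T.E (x, k)) n) s)
    (hPB : ∀ s ∈ S', T.E (s, k) < cqN a B (shv a B S' q (fun x => T.E (x, k)) n') s)
    (hPW : ∀ s ∈ S ∪ S', T.E (s, k) <
      cqN a (A ∪ B) (shv a (A ∪ B) (S ∪ S') q (fun x => T.E (x, k)) (fun i => n i + n' i)) s) :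
    evU a (stBlk a fam k (A \ S) (fun i => q i + shv a A S q (fun x => T.E (x, k)) n i)
          (neww (fun N q g => cn a cd N q g) (fun _ => w A) k
            (fun i => q i + shv a A S q (fun x => T.E (x, k)) n i)
            (shv a A S q (fun x => T.E (x, k)) n)) ++
        stBlk a fam k (B \ S') (fun i => q i + shv a B S' q (fun x => T.E (x, k)) n' i)
          (neww (fun N q g => cn a cd N q g) w k
            (fun i => q i + shv a B S' q (fun x => T.E (x, k)) n' i)
            (shv a B S' q (fun x => T.E (x, k)) n')))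
        (elT a (B \ S') k (rsT a S' k (shv a B S' q (fun x => T.E (x, k)) n')
          (elT a (A \ S) k (rsT a S k (shv a A S q (fun x => T.E (x, k)) n) T)))) =
      evU a (stBlk a fam k ((A ∪ B) \ (S ∪ S'))
          (fun i => q i + shv a (A ∪ B) (S ∪ S') q (fun x => T.E (x, k)) (fun i => n i + n' i) i)
          (neww (fun N q g => cn a cd N q g) w k
            (fun i => q i + shv a (A ∪ B) (S ∪ S') q (fun x => T.E (x, k)) (fun i => n i + n' i) i)
            (shv a (A ∪ B) (S ∪ S') q (fun x => T.E (x, k)) (fun i => n i + n' i))))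
        (elT a ((A ∪ B) \ (S ∪ S')) k (rsT a (S ∪ S') k
          (shv a (A ∪ B) (S ∪ S') q (fun x => T.E (x, k)) (fun i => n i + n' i)) T)) := by
  classical
  have hA : FinT a A := hW.mono Finset.subset_union_left
  have hB : FinT a B := hW.mono Finset.subset_union_right
  have hdis := hAB.1
  have hνZ : ∀ x ∈ A ∪ B, IsZ (T.E (x, k)) := by
    intro x hx
    obtain ⟨m, hm⟩ := hT.nat x hx k hk
    exact ⟨m, by rw [hm]; push_cast; rfl⟩
  have hν0 : ∀ x ∈ A ∪ B, 0 ≤ T.E (x, k) := by
    intro x hx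
    obtain ⟨m, hm⟩ := hT.nat x hx k hk
    rw [hm]
    exact Nat.cast_nonneg m
  have hregK := rsT_RRegK a hs (A ∪ B) (S ∪ S') hW (Finset.union_subset_union hS hS') k hk q
    (fun i => n i + n' i) T (Pool.Agent.H46.AH.RReg.toK hT k)
  have hwt := shv_wt a hs (A ∪ B) (S ∪ S') hW (Finset.union_subset_union hS hS') q
    (fun x => T.E (x, k)) hq hνZ (fun i => n i + n' i)
  have hnew := AH13_newRF a hs cd h (A ∪ B) (S ∪ S') hW (Finset.union_subset_union hS hS') k q
    (fun x => T.E (x, k)) hq hν0 hνZ (fun i => n i + n' i) hPW w hw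
  have hqA : ∀ x ∈ A, IsZ (cqN a A q x) := by
    intro x hx
    have := hq x (Finset.mem_union_left _ hx)
    rw [AH13_cqN_union a A B hdis, AH13_cqN_sep' a hs A B hAB q x hx, add_zero] at this
    exact this
  have hqB : ∀ x ∈ B, IsZ (cqN a B q x) := by
    intro x hx
    have := hq x (Finset.mem_union_right _ hx)
    rw [AH13_cqN_union a A B hdis, AH13_cqN_sep a hs A B hAB q x hx, zero_add] at this
    exact this
  have hcW := comps_union a hs A B hAB
  have hcA : comps a A = {A} := comps_of_conn hc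
  have hAm : A ∈ comps a (A ∪ B) := by
    rw [hcW, hcA]
    exact Finset.mem_union_left _ (Finset.mem_singleton_self A)
  have hnewA := AH13_newRF a hs cd h A S hA hS k q (fun x => T.E (x, k)) hqA
    (fun x hx => hν0 x (Finset.mem_union_left _ hx))
    (fun x hx => hνZ x (Finset.mem_union_left _ hx)) n hPA (fun _ => w A)
    (fun N hN => by
      rw [hcA, Finset.mem_singleton] at hN
      rw [hN]
      exact hw A hAm)
  have hnewB := AH13_newRF a hs cd h B S' hB hS' k q (fun x => T.E (x, k)) hqB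
    (fun x hx => hν0 x (Finset.mem_union_right _ hx))
    (fun x hx => hνZ x (Finset.mem_union_right _ hx)) n' hPB w
    (fun N hN => hw N (by rw [hcW]; exact Finset.mem_union_right _ hN))
  have hunt : ∀ N ∈ comps a (A \ S), (∀ x ∈ N, shv a A S q (fun x => T.E (x, k)) n x = 0) →
      N = A := by
    intro N hN h0
    have := AH13_untouched a hs A S hA hS q (fun x => T.E (x, k))
      (fun x hx => hν0 x (Finset.mem_union_left _ hx)) n hPA N hN h0
    rw [hcA, Finset.mem_singleton] at this
    exact this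
  have hoffA : ∀ x, x ∉ A → shv a A S q (fun x => T.E (x, k)) n x = 0 := fun x hx =>
    shv_off a A S hS q _ n x hx
  have hoffB : ∀ x, x ∉ B → shv a B S' q (fun x => T.E (x, k)) n' x = 0 := fun x hx =>
    shv_off a B S' hS' q _ n' x hx
  have hμ : shv a (A ∪ B) (S ∪ S') q (fun x => T.E (x, k)) (fun i => n i + n' i) =
      fun i => shv a A S q (fun x => T.E (x, k)) n i + shv a B S' q (fun x => T.E (x, k)) n' i := by
    funext i
    exact shv_union a hs A B hW hAB S S' hS hS' q _ n n' hn hn' i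
  rw [AH13_sdiff A B S S' hdis hS hS'] at hregK hwt hnew ⊢
  rw [hμ] at hregK hwt hnew ⊢
  generalize shv a A S q (fun x => T.E (x, k)) n = μ at *
  generalize shv a B S' q (fun x => T.E (x, k)) n' = μ' at *
  have hsep1 : Sep a (A \ S) (B \ S') := AH13_sep_mono hAB Finset.sdiff_subset Finset.sdiff_subset
  have hU : FinT a ((A \ S) ∪ (B \ S')) :=
    hW.mono (Finset.union_subset_union Finset.sdiff_subset Finset.sdiff_subset)
  -- the term
  have ht : elT a (B \ S') k (rsT a S' k μ' (elT a (A \ S) k (rsT a S k μ T))) =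
      elT a ((A \ S) ∪ (B \ S')) k (rsT a (S ∪ S') k (fun i => μ i + μ' i) T) := by
    rw [rsT_elT a hs S' (A \ S) (hA.mono Finset.sdiff_subset)
      (AH13_sep_mono (AH13_sep_symm hs hAB) hS' Finset.sdiff_subset),
      Finset.union_comm (A \ S), elT_union a hs (B \ S') (A \ S) (by
        rw [Finset.union_comm]; exact hU) (AH13_sep_symm hs hsep1),
      Finset.union_comm S S']
    have e1 : (fun i => μ i + μ' i) = fun i => μ' i + μ i := by
      funext i
      exact add_comm _ _
    rw [e1, rsT_union a S' S k μ' μ T]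
  rw [ht]
  have hreg : RReg ((A \ S) ∪ (B \ S'))
      (elT a ((A \ S) ∪ (B \ S')) k (rsT a (S ∪ S') k (fun i => μ i + μ' i) T)) :=
    RReg_elT a hs _ hU k _ hregK.1
  generalize elT a ((A \ S) ∪ (B \ S')) k (rsT a (S ∪ S') k (fun i => μ i + μ' i) T) = T4 at *
  set Φ : Finset I → FFn I := fun N => if N ⊆ A then
      fam N (fun i => q i + μ i) (neww (fun N q g => cn a cd N q g) (fun _ => w A) k
        (fun i => q i + μ i) μ N) (k - 1)
    else fam N (fun i => q i + μ' i) (neww (fun N q g => cn a cd N q g) w k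
        (fun i => q i + μ' i) μ' N) (k - 1) with hΦ
  have hNA : ∀ N ∈ comps a (A \ S), N ⊆ A := fun N hN =>
    (comps_subset hN).trans Finset.sdiff_subset
  have hNB : ∀ N ∈ comps a (B \ S'), N ⊆ B := fun N hN =>
    (comps_subset hN).trans Finset.sdiff_subset
  have hNB' : ∀ N ∈ comps a (B \ S'), ¬ N ⊆ A := by
    intro N hN hNA'
    obtain ⟨x, hx⟩ := (comps_conn hN).1
    exact Finset.disjoint_left.1 hdis (hNA' hx) (hNB N hN hx)
  have e1 : stBlk a fam k (A \ S) (fun i => q i + μ i)
      (neww (fun N q g => cn a cd N q g) (fun _ => w A) k (fun i => q i + μ i) μ) =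
      (comps a (A \ S)).toList.map (fun N => (N, Φ N)) := by
    unfold stBlk
    refine List.map_congr_left fun N hN => ?_
    rw [Finset.mem_toList] at hN
    rw [hΦ]
    beta_reduce
    rw [if_pos (hNA N hN)]
  have e2 : stBlk a fam k (B \ S') (fun i => q i + μ' i)
      (neww (fun N q g => cn a cd N q g) w k (fun i => q i + μ' i) μ') =
      (comps a (B \ S')).toList.map (fun N => (N, Φ N)) := by
    unfold stBlk
    refine List.map_congr_left fun N hN => ?_
    rw [Finset.mem_toList] at hN
    rw [hΦ]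
    beta_reduce
    rw [if_neg (hNB' N hN)]
  rw [e1, e2, ← evU_union a hs (A \ S) (B \ S') hsep1 Φ T4]
  unfold stBlk
  refine evU_RF (cd := cd) hs hU hwt (w := neww (fun N q g => cn a cd N q g) w k
    (fun i => q i + (μ i + μ' i)) (fun i => μ i + μ' i)) (f := k - 1) ?_ ?_ T4 hreg
  · intro N hN
    rw [comps_union a hs _ _ hsep1, Finset.mem_union] at hN
    rcases hN with hN | hN
    · have h1 := hfam N _ _ _ (hnewA N hN (k - 1) (Nat.sub_le k 1))
      rw [hΦ]
      beta_reduce
      rw [if_pos (hNA N hN)]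
      have hμ0 : ∀ x ∈ N, μ' x = 0 := fun x hx =>
        hoffB x (Finset.disjoint_left.1 hdis (hNA N hN hx))
      refine h1.congr (fun x hx => ?_) (fun l _ => ?_)
      · beta_reduce
        rw [hμ0 x hx]
        exact ⟨0, by push_cast; ring⟩
      · refine AH13_neww_congr a cd (fun _ => w A) w k q μ (fun i => μ i + μ' i) N
          (fun x hx => by rw [hμ0 x hx, add_zero]) (fun h0 => ?_) l
        rw [hunt N hN h0]
    · have h1 := hfam N _ _ _ (hnewB N hN (k - 1) (Nat.sub_le k 1))
      rw [hΦ]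
      beta_reduce
      rw [if_neg (hNB' N hN)]
      have hμ0 : ∀ x ∈ N, μ x = 0 := fun x hx =>
        hoffA x (fun h' => Finset.disjoint_left.1 hdis h' (hNB N hN hx))
      refine h1.congr (fun x hx => ?_) (fun l _ => ?_)
      · beta_reduce
        rw [hμ0 x hx]
        exact ⟨0, by push_cast; ring⟩
      · exact AH13_neww_congr a cd w w k q μ' (fun i => μ i + μ' i) N
          (fun x hx => by rw [hμ0 x hx, zero_add]) (fun _ => rfl) l
  · intro N hN
    exact hfam N _ _ _ (hnew N hN (k - 1) (Nat.sub_le k 1))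

open Classical in
/-- the statement of `step_all` for the set `W`. -/
def AH13_P (a : I → I → ℕ) (cd : CrossData a)
    (fam : Finset I → (I → ℚ) → (ℕ → ℚ) → ℕ → FFn I) (k : ℕ) (q : I → ℚ)
    (w : Finset I → ℕ → ℚ) (W : Finset I) : Prop :=
  ∀ T : Trm I, RReg W T →
    evU a (stBlk a fam (k + 1) W q w) T =
      ∑ S ∈ W.powerset, ∑ n ∈ (rbox S k T.γ q).filter
          (fun n => ∀ s ∈ S, T.E (s, k) < cqN a W (shv a W S q (fun x => T.E (x, k)) n) s),
        tw a W w k (shv a W S q (fun x => T.E (x, k)) n) *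
          evU a (stBlk a fam k (W \ S) (fun i => q i + shv a W S q (fun x => T.E (x, k)) n i)
            (neww (fun N q g => cn a cd N q g) w k
              (fun i => q i + shv a W S q (fun x => T.E (x, k)) n i)
              (shv a W S q (fun x => T.E (x, k)) n)))
            (elT a (W \ S) k (rsT a S k (shv a W S q (fun x => T.E (x, k)) n) T))

theorem AH13_tw (a : I → I → ℕ) (hs : ∀ i j, a i j = a j i) (A B : Finset I)
    (hAB : Sep a A B) (hc : ConnS a A) (w : Finset I → ℕ → ℚ) (k : ℕ) (μ μ' : I → ℚ)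
    (hμ : ∀ x, x ∉ A → μ x = 0) (hμ' : ∀ x, x ∉ B → μ' x = 0) [Decidable (∀ x ∈ A, μ x = 0)] :
    tw a (A ∪ B) w k (fun i => μ i + μ' i) =
      (if ∀ x ∈ A, μ x = 0 then 1 else w A k) * tw a B w k μ' := by
  classical
  unfold tw
  rw [clusters_eq_comps a hs, clusters_eq_comps a hs, comps_union a hs A B hAB,
    comps_of_conn hc, Finset.prod_union (by
      rw [← comps_of_conn hc]
      exact comps_disj a A B hAB), Finset.prod_singleton]
  congr 1
  · have h1 : (∀ x ∈ A, μ x + μ' x = 0) ↔ ∀ x ∈ A, μ x = 0 := by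
      constructor
      · intro h x hx
        have := h x hx
        rwa [hμ' x (Finset.disjoint_left.1 hAB.1 hx), add_zero] at this
      · intro h x hx
        rw [h x hx, hμ' x (Finset.disjoint_left.1 hAB.1 hx), add_zero]
    by_cases h0 : ∀ x ∈ A, μ x = 0
    · rw [if_pos (h1.2 h0), if_pos h0]
    · rw [if_neg (fun h' => h0 (h1.1 h')), if_neg h0]
  · refine Finset.prod_congr rfl fun N hN => ?_
    have hNA : ∀ x ∈ N, μ x = 0 := fun x hx =>
      hμ x (fun h' => Finset.disjoint_left.1 hAB.1 h' (comps_subset hN hx))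
    have h1 : (∀ x ∈ N, μ x + μ' x = 0) ↔ ∀ x ∈ N, μ' x = 0 := by
      constructor
      · intro h x hx
        have := h x hx
        rwa [hNA x hx, zero_add] at this
      · intro h x hx
        rw [h x hx, hNA x hx, zero_add]
    by_cases h0 : ∀ x ∈ N, μ' x = 0
    · rw [if_pos (h1.2 h0), if_pos h0]
    · rw [if_neg (fun h' => h0 (h1.1 h')), if_neg h0]

theorem AH13_cond (a : I → I → ℕ) (hs : ∀ i j, a i j = a j i) (A B : Finset I)
    (hAB : Sep a A B) (S S' : Finset I) (hS : S ⊆ A) (hS' : S' ⊆ B) (ν μ μ' : I → ℚ)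
    (hμ : ∀ x, x ∉ A → μ x = 0) (hμ' : ∀ x, x ∉ B → μ' x = 0) :
    (∀ s ∈ S ∪ S', ν s < cqN a (A ∪ B) (fun i => μ i + μ' i) s) ↔
      (∀ s ∈ S, ν s < cqN a A μ s) ∧ ∀ s ∈ S', ν s < cqN a B μ' s := by
  have hdis := hAB.1
  have h1 : ∀ s, cqN a (A ∪ B) (fun i => μ i + μ' i) s = cqN a A μ s + cqN a B μ' s := by
    intro s
    rw [AH13_cqN_union a A B hdis, AH13_cqN_add, AH13_cqN_add,
      AH13_cqN_zero a A μ' (fun j hj => hμ' j (Finset.disjoint_left.1 hdis hj)) s,
      AH13_cqN_zero a B μ (fun j hj => hμ j (fun h' => Finset.disjoint_left.1 hdis h' hj)) s,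
      add_zero, zero_add]
  constructor
  · intro h
    refine ⟨fun s hs1 => ?_, fun s hs1 => ?_⟩
    · have := h s (Finset.mem_union_left _ hs1)
      rwa [h1, AH13_cqN_sep' a hs A B hAB _ s (hS hs1), add_zero] at this
    · have := h s (Finset.mem_union_right _ hs1)
      rwa [h1, AH13_cqN_sep a hs A B hAB _ s (hS' hs1), zero_add] at this
  · rintro ⟨h2, h3⟩ s hs1
    rw [h1]
    rcases Finset.mem_union.1 hs1 with h | h
    · rw [AH13_cqN_sep' a hs A B hAB _ s (hS h), add_zero]
      exact h2 s h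
    · rw [AH13_cqN_sep a hs A B hAB _ s (hS' h), zero_add]
      exact h3 s h

theorem AH13_blk_disj (a : I → I → ℕ) (hs : ∀ i j, a i j = a j i)
    (fam : Finset I → (I → ℚ) → (ℕ → ℚ) → ℕ → FFn I) (k : ℕ)
    (W : Finset I) (q : I → ℚ) (w : Finset I → ℕ → ℚ) :
    (stBlk a fam k W q w).Pairwise (fun b c => Disjoint b.1 c.1) :=
  (stBlk_sep a hs fam k W q w).imp fun h => h.1

open Classical in
theorem AH13_two (a : I → I → ℕ) (hs : ∀ i j, a i j = a j i) (cd : CrossData a)
    (h : RTfam a cd) (fam : Finset I → (I → ℚ) → (ℕ → ℚ) → ℕ → FFn I) (hfam : IsFam a cd fam)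
    (A B : Finset I) (hW : FinT a (A ∪ B)) (hAB : Sep a A B) (hc : ConnS a A) (k : ℕ)
    (hk : 1 ≤ k) (q : I → ℚ) (hq : ∀ x ∈ A ∪ B, IsZ (cqN a (A ∪ B) q x))
    (w : Finset I → ℕ → ℚ) (hw : ∀ N ∈ comps a (A ∪ B), RFex a cd N q (w N) k)
    (hBP : AH13_P a cd fam k q w B) : AH13_P a cd fam k q w (A ∪ B) := by
  intro T hT
  have hA : FinT a A := hW.mono Finset.subset_union_left
  have hB : FinT a B := hW.mono Finset.subset_union_right
  have hdis := hAB.1
  have hcW := comps_union a hs A B hAB
  have hcA : comps a A = {A} := comps_of_conn hc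
  have hAm : A ∈ comps a (A ∪ B) := by
    rw [hcW, hcA]
    exact Finset.mem_union_left _ (Finset.mem_singleton_self A)
  have hqA : ∀ x ∈ A, IsZ (cqN a A q x) := by
    intro x hx
    have := hq x (Finset.mem_union_left _ hx)
    rw [AH13_cqN_union a A B hdis, AH13_cqN_sep' a hs A B hAB q x hx, add_zero] at this
    exact this
  have hBA : Sep a B A := AH13_sep_symm hs hAB
  -- the blocks of the old state
  have e1 : evU a (stBlk a fam (k + 1) (A ∪ B) q w) T =
      evU a (stBlk a fam (k + 1) B q w ++ [(A, fam A q (w A) k)]) T := by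
    have h1 := evU_union a hs A B hAB (fun N => fam N q (w N) (k + 1 - 1)) T
    have h2 : (comps a A).toList.map (fun N => (N, fam N q (w N) (k + 1 - 1))) =
        [(A, fam A q (w A) k)] := by
      rw [hcA, Finset.toList_singleton, List.map_singleton, Nat.add_sub_cancel]
    rw [h2] at h1
    have h3 : evU a (stBlk a fam (k + 1) (A ∪ B) q w) T =
        evU a ([(A, fam A q (w A) k)] ++ stBlk a fam (k + 1) B q w) T := h1
    rw [h3]
    refine evU_perm a _ _ List.perm_append_comm ?_ T
    rw [List.singleton_append, List.pairwise_cons]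
    refine ⟨fun b hb => ?_, AH13_blk_disj a hs fam (k + 1) B q w⟩
    exact Finset.disjoint_of_subset_right (stBlk_sub a fam (k + 1) B q w b hb) hdis
  -- the step of `A`
  have e2 := AH13_tail a (stBlk a fam (k + 1) B q w) [(A, fam A q (w A) k)]
    (AH13_blk_disj a hs fam (k + 1) B q w) A.powerset
    (fun S => (rbox S k T.γ q).filter
          (fun n => ∀ s ∈ S, T.E (s, k) < cqN a A (shv a A S q (fun x => T.E (x, k)) n) s))
    (fun S n => if ∀ x ∈ A, shv a A S q (fun x => T.E (x, k)) n x = 0 then 1 else w A k)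
    (fun S n => stBlk a fam k (A \ S) (fun i => q i + shv a A S q (fun x => T.E (x, k)) n i)
          (neww (fun N q g => cn a cd N q g) (fun _ => w A) k
            (fun i => q i + shv a A S q (fun x => T.E (x, k)) n i)
            (shv a A S q (fun x => T.E (x, k)) n))) T
    (fun S n => elT a (A \ S) k (rsT a S k (shv a A S q (fun x => T.E (x, k)) n) T))
    (fun π => by
      rw [uni_stBlk a hs, evU_single]
      have hreg : RReg A (patT a B π T) :=
        RReg_patT a hs A B hdis π (fun x hx y hy _ => hAB.2 x hx y hy) T hT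
      rw [step_cluster a hs cd h fam hfam A hA hc k hk q hqA (w A) (hw A hAm) _ hreg]
      have hdat := AH13_data a hs A hA k q (patT a B π T).γ T.γ
        (fun x => (patT a B π T).E (x, k)) (fun x => T.E (x, k))
        (fun x hx => (E_patT_sep a hs A B hAB π T x hx k).2)
        (fun x hx => (E_patT_sep a hs A B hAB π T x hx k).1)
        (fun S μ => (if ∀ x ∈ A, μ x = 0 then 1 else w A k) *
          evU a (stBlk a fam k (A \ S) (fun i => q i + μ i)
            (neww (fun N q g => cn a cd N q g) (fun _ => w A) k (fun i => q i + μ i) μ))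
            (elT a (A \ S) k (rsT a S k μ (patT a B π T))))
      refine hdat.trans ?_
      refine Finset.sum_congr rfl fun S hS => Finset.sum_congr rfl fun n _ => ?_
      rw [rsT_patT a S B (Finset.disjoint_of_subset_left (Finset.mem_powerset.1 hS) hdis),
        elT_patT a hs (A \ S) B (hA.mono Finset.sdiff_subset)
          (Finset.disjoint_of_subset_left Finset.sdiff_subset hdis)])
  rw [e1, e2]
  -- the step of `B`
  have e3 : ∀ S ⊆ A, ∀ n : I → ℤ,
      evU a (stBlk a fam (k + 1) B q w ++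
        stBlk a fam k (A \ S) (fun i => q i + shv a A S q (fun x => T.E (x, k)) n i)
          (neww (fun N q g => cn a cd N q g) (fun _ => w A) k
            (fun i => q i + shv a A S q (fun x => T.E (x, k)) n i)
            (shv a A S q (fun x => T.E (x, k)) n)))
        (elT a (A \ S) k (rsT a S k (shv a A S q (fun x => T.E (x, k)) n) T)) =
      ∑ S' ∈ B.powerset, ∑ n' ∈ (rbox S' k T.γ q).filter
          (fun n' => ∀ s ∈ S', T.E (s, k) < cqN a B (shv a B S' q (fun x => T.E (x, k)) n') s),
        tw a B w k (shv a B S' q (fun x => T.E (x, k)) n') *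
          evU a (stBlk a fam k (A \ S) (fun i => q i + shv a A S q (fun x => T.E (x, k)) n i)
              (neww (fun N q g => cn a cd N q g) (fun _ => w A) k
                (fun i => q i + shv a A S q (fun x => T.E (x, k)) n i)
                (shv a A S q (fun x => T.E (x, k)) n)) ++
            stBlk a fam k (B \ S') (fun i => q i + shv a B S' q (fun x => T.E (x, k)) n' i)
              (neww (fun N q g => cn a cd N q g) w k
                (fun i => q i + shv a B S' q (fun x => T.E (x, k)) n' i)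
                (shv a B S' q (fun x => T.E (x, k)) n')))
            (elT a (B \ S') k (rsT a S' k (shv a B S' q (fun x => T.E (x, k)) n')
              (elT a (A \ S) k (rsT a S k (shv a A S q (fun x => T.E (x, k)) n) T)))) := by
    intro S hS n
    have hoff : ∀ i, i ∉ A → shv a A S q (fun x => T.E (x, k)) n i = 0 := fun i hi =>
      shv_off a A S hS q _ n i hi
    generalize shv a A S q (fun x => T.E (x, k)) n = μ at *
    rw [evU_perm a _ _ List.perm_append_comm (by
      rw [List.pairwise_append]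
      refine ⟨AH13_blk_disj a hs fam (k + 1) B q w, AH13_blk_disj a hs fam k _ _ _,
        fun b hb c hc' => ?_⟩
      exact Finset.disjoint_of_subset_left (stBlk_sub a fam (k + 1) B q w b hb)
        (Finset.disjoint_of_subset_right ((stBlk_sub a fam k _ _ _ c hc').trans
          Finset.sdiff_subset) hdis.symm))]
    refine AH13_tail a _ (stBlk a fam (k + 1) B q w) (AH13_blk_disj a hs fam k _ _ _)
      B.powerset
      (fun S' => (rbox S' k T.γ q).filter
          (fun n' => ∀ s ∈ S', T.E (s, k) < cqN a B (shv a B S' q (fun x => T.E (x, k)) n') s))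
      (fun S' n' => tw a B w k (shv a B S' q (fun x => T.E (x, k)) n'))
      (fun S' n' => stBlk a fam k (B \ S')
        (fun i => q i + shv a B S' q (fun x => T.E (x, k)) n' i)
              (neww (fun N q g => cn a cd N q g) w k
                (fun i => q i + shv a B S' q (fun x => T.E (x, k)) n' i)
                (shv a B S' q (fun x => T.E (x, k)) n'))) _
      (fun S' n' => elT a (B \ S') k (rsT a S' k (shv a B S' q (fun x => T.E (x, k)) n')
              (elT a (A \ S) k (rsT a S k μ T)))) (fun π => ?_)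
    rw [uni_stBlk a hs]
    have hregB : RReg B (elT a (A \ S) k (rsT a S k μ T)) :=
      RReg_rs_sep a hs A B S hA hAB hS k μ hoff T hT
    have hsepB : Sep a B (A \ S) := AH13_sep_mono hBA (Finset.Subset.refl B) Finset.sdiff_subset
    have hregB' : RReg B (patT a (A \ S) π (elT a (A \ S) k (rsT a S k μ T))) := by
      refine ⟨fun x hx l hl => ?_, fun x hx j hj l hl hne => ?_⟩
      · rw [(E_patT_sep a hs B (A \ S) hsepB π _ x hx l).1]
        exact hregB.nat x hx l hl
      · rw [(E_patT_sep a hs B (A \ S) hsepB π _ x hx l).1]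
        rw [patT_Λ] at hne
        by_cases hjA : j ∈ A \ S
        · rw [if_pos hjA] at hne
          exact absurd (AG1_sy_apply (x := x) (j := j) (fun e => hj (e ▸ hx)) _ _) hne
        · rw [if_neg hjA] at hne
          exact hregB.col x hx j hj l hl hne
    rw [hBP _ hregB']
    have hdat := AH13_data a hs B hB k q
      (patT a (A \ S) π (elT a (A \ S) k (rsT a S k μ T))).γ T.γ
      (fun x => (patT a (A \ S) π (elT a (A \ S) k (rsT a S k μ T))).E (x, k))
      (fun x => T.E (x, k))
      (fun x hx => by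
        rw [(E_patT_sep a hs B (A \ S) hsepB π _ x hx k).2]
        exact (E_rs_sep a hs A B S hAB hS k μ hoff T x hx k).2)
      (fun x hx => by
        beta_reduce
        rw [(E_patT_sep a hs B (A \ S) hsepB π _ x hx k).1]
        exact (E_rs_sep a hs A B S hAB hS k μ hoff T x hx k).1)
      (fun S' μ' => tw a B w k μ' *
        evU a (stBlk a fam k (B \ S') (fun i => q i + μ' i)
          (neww (fun N q g => cn a cd N q g) w k (fun i => q i + μ' i) μ'))
          (elT a (B \ S') k (rsT a S' k μ'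
            (patT a (A \ S) π (elT a (A \ S) k (rsT a S k μ T))))))
    refine hdat.trans ?_
    refine Finset.sum_congr rfl fun S' hS' => Finset.sum_congr rfl fun n' _ => ?_
    rw [rsT_patT a S' (A \ S) (Finset.disjoint_of_subset_left (Finset.mem_powerset.1 hS') hsepB.1),
      elT_patT a hs (B \ S') (A \ S) (hB.mono Finset.sdiff_subset)
        (Finset.disjoint_of_subset_left Finset.sdiff_subset hsepB.1)]
  rw [Finset.sum_congr rfl fun S hS => Finset.sum_congr rfl fun n _ => by
    rw [e3 S (Finset.mem_powerset.1 hS) n]]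
  -- the right hand side
  have hbox : ∀ (S : Finset I) (n : I → ℤ), n ∈ rbox S k T.γ q → ∀ i, i ∉ S → n i = 0 := by
    intro S n hn i hi
    unfold rbox at hn
    rw [Fintype.mem_piFinset] at hn
    have := hn i
    rw [if_neg hi, Finset.mem_singleton] at this
    exact this
  rw [Finset.sum_congr rfl fun S'' _ => Finset.sum_filter
    (fun n => ∀ s ∈ S'', T.E (s, k) <
      cqN a (A ∪ B) (shv a (A ∪ B) S'' q (fun x => T.E (x, k)) n) s) _]
  rw [sum_rbox_union A B hdis k T.γ q (fun S'' n => if (∀ s ∈ S'', T.E (s, k) <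
      cqN a (A ∪ B) (shv a (A ∪ B) S'' q (fun x => T.E (x, k)) n) s) then
        tw a (A ∪ B) w k (shv a (A ∪ B) S'' q (fun x => T.E (x, k)) n) *
          evU a (stBlk a fam k ((A ∪ B) \ S'')
              (fun i => q i + shv a (A ∪ B) S'' q (fun x => T.E (x, k)) n i)
            (neww (fun N q g => cn a cd N q g) w k
              (fun i => q i + shv a (A ∪ B) S'' q (fun x => T.E (x, k)) n i)
              (shv a (A ∪ B) S'' q (fun x => T.E (x, k)) n)))
            (elT a ((A ∪ B) \ S'') k
              (rsT a S'' k (shv a (A ∪ B) S'' q (fun x => T.E (x, k)) n) T)) else 0)]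
  refine Finset.sum_congr rfl fun S hS => ?_
  rw [Finset.sum_filter]
  refine Finset.sum_congr rfl fun n hn => ?_
  have hSA := Finset.mem_powerset.1 hS
  have hn0 := hbox S n hn
  have hoffA : ∀ x, x ∉ A → shv a A S q (fun x => T.E (x, k)) n x = 0 := fun x hx =>
    shv_off a A S hSA q _ n x hx
  have hoffB : ∀ S' ⊆ B, ∀ (n' : I → ℤ) (x : I), x ∉ B →
      shv a B S' q (fun x => T.E (x, k)) n' x = 0 := fun S' hS' n' x hx =>
    shv_off a B S' hS' q _ n' x hx
  have hμ : ∀ S' ⊆ B, ∀ n' : I → ℤ, (∀ i, i ∉ S' → n' i = 0) →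
      shv a (A ∪ B) (S ∪ S') q (fun x => T.E (x, k)) (fun i => n i + n' i) =
      fun i => shv a A S q (fun x => T.E (x, k)) n i +
        shv a B S' q (fun x => T.E (x, k)) n' i := by
    intro S' hS' n' hn'
    funext i
    exact shv_union a hs A B hW hAB S S' hSA hS' q _ n n' hn0 hn' i
  by_cases hPA : ∀ s ∈ S, T.E (s, k) < cqN a A (shv a A S q (fun x => T.E (x, k)) n) s
  · rw [if_pos hPA, Finset.mul_sum]
    refine Finset.sum_congr rfl fun S' hS' => ?_
    have hSB := Finset.mem_powerset.1 hS'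
    rw [Finset.sum_filter, Finset.mul_sum]
    refine Finset.sum_congr rfl fun n' hn' => ?_
    have hn0' := hbox S' n' hn'
    have hcond := AH13_cond a hs A B hAB S S' hSA hSB (fun x => T.E (x, k))
      (shv a A S q (fun x => T.E (x, k)) n) (shv a B S' q (fun x => T.E (x, k)) n') hoffA
      (hoffB S' hSB n')
    rw [← hμ S' hSB n' hn0'] at hcond
    by_cases hPB : ∀ s ∈ S', T.E (s, k) < cqN a B (shv a B S' q (fun x => T.E (x, k)) n') s
    · have hPW := hcond.2 ⟨hPA, hPB⟩
      rw [if_pos hPB, if_pos hPW, ← AH13_match a hs cd h fam hfam A B hW hAB hc k hk q hq w hw T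
        hT S S' hSA hSB n n' hn0 hn0' hPA hPB hPW]
      have htw := AH13_tw a hs A B hAB hc w k (shv a A S q (fun x => T.E (x, k)) n)
        (shv a B S' q (fun x => T.E (x, k)) n') hoffA (hoffB S' hSB n')
      rw [← hμ S' hSB n' hn0'] at htw
      rw [htw, mul_assoc]
    · rw [if_neg hPB, if_neg (fun h' => hPB (hcond.1 h').2), mul_zero]
  · rw [if_neg hPA]
    symm
    refine Finset.sum_eq_zero fun S' hS' => Finset.sum_eq_zero fun n' hn' => ?_
    have hSB := Finset.mem_powerset.1 hS'
    have hn0' := hbox S' n' hn'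
    have hcond := AH13_cond a hs A B hAB S S' hSA hSB (fun x => T.E (x, k))
      (shv a A S q (fun x => T.E (x, k)) n) (shv a B S' q (fun x => T.E (x, k)) n') hoffA
      (hoffB S' hSB n')
    rw [← hμ S' hSB n' hn0'] at hcond
    rw [if_neg (fun h' => hPA (hcond.1 h').1)]

open Classical in
theorem AH13_all (a : I → I → ℕ) (hs : ∀ i j, a i j = a j i) (cd : CrossData a)
    (h : RTfam a cd) (fam : Finset I → (I → ℚ) → (ℕ → ℚ) → ℕ → FFn I) (hfam : IsFam a cd fam)
    (k : ℕ) (hk : 1 ≤ k) (q : I → ℚ) (w : Finset I → ℕ → ℚ) (W : Finset I) :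
    FinT a W → (∀ x ∈ W, IsZ (cqN a W q x)) → (∀ A ∈ comps a W, RFex a cd A q (w A) k) →
      AH13_P a cd fam k q w W := by
  induction W using Finset.strongInduction with
  | H W IH =>
    intro hW hq hw
    rcases W.eq_empty_or_nonempty with hW0 | ⟨x, hx⟩
    · subst hW0
      intro T hT
      have hμ : ∀ n : I → ℤ, shv a ∅ ∅ q (fun x => T.E (x, k)) n = fun _ => 0 := by
        intro n
        funext i
        exact shv_off a ∅ ∅ (Finset.Subset.refl _) q _ n i (Finset.notMem_empty i)
      have hb : rbox (∅ : Finset I) k T.γ q = {fun _ => 0} := by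
        ext n
        unfold rbox
        rw [Fintype.mem_piFinset, Finset.mem_singleton]
        constructor
        · intro h1
          funext i
          have := h1 i
          rw [if_neg (Finset.notMem_empty i), Finset.mem_singleton] at this
          exact this
        · intro h1 i
          rw [if_neg (Finset.notMem_empty i), Finset.mem_singleton, h1]
      have hblk : ∀ (k : ℕ) (q : I → ℚ) (w : Finset I → ℕ → ℚ),
          stBlk a fam k ∅ q w = [] := by
        intro k q w
        unfold stBlk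
        rw [AH13_comps_empty, Finset.toList_empty, List.map_nil]
      rw [Finset.powerset_empty, Finset.sum_singleton, hb,
        Finset.filter_true_of_mem (fun n _ s hs' => absurd hs' (Finset.notMem_empty s)),
        Finset.sum_singleton, hμ, hblk, Finset.sdiff_self, hblk, elT_empty, AH13_rsT_empty]
      have htw : tw a ∅ w k (fun _ => 0) = 1 := by
        unfold tw
        rw [clusters_eq_comps a hs, AH13_comps_empty, Finset.prod_empty]
      rw [htw, one_mul]
    · obtain ⟨A, hA, hxA⟩ := comps_cover hs x hx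
      obtain ⟨hsep, hun⟩ := comps_sdiff_sep a hs W A hA
      have hlt : W \ A ⊂ W := by
        refine ⟨Finset.sdiff_subset, fun h' => ?_⟩
        exact (Finset.mem_sdiff.1 (h' hx)).2 hxA
      have hWB : FinT a (W \ A) := hW.mono Finset.sdiff_subset
      have hcW := comps_union a hs A (W \ A) hsep
      rw [hun] at hcW
      have hqB : ∀ x ∈ W \ A, IsZ (cqN a (W \ A) q x) := by
        intro y hy
        have := hq y (Finset.mem_sdiff.1 hy).1
        rw [← hun, AH13_cqN_union a A _ hsep.1, AH13_cqN_sep a hs A _ hsep q y hy, zero_add] at this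
        exact this
      have hIH := IH (W \ A) hlt hWB hqB
        (fun N hN => hw N (by rw [hcW]; exact Finset.mem_union_right _ hN))
      have := AH13_two a hs cd h fam hfam A (W \ A) (by rw [hun]; exact hW) hsep (comps_conn hA)
        k hk q (by rw [hun]; exact hq) w (by rw [hun]; exact hw) hIH
      rw [hun] at this
      exact this

end

end Pool.Agent.H46.AH

end

section

/-!
KAC ADE, module AH14: the field `step` of `ClusterVal`.

PROOF.  `reg_expand` (AH9), then `step_all` (AH13) for `T = regT a k γ P p H W n0`, `n0 ∈ nbox W k γ` (`regT_RReg`, `regT_E`: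
`ν_x = -(C n0)_x`).  `boxS (W \ S) k γ q` is the product of `nbox` and `rbox S` (`n = n0 + n1`); `mhat a (W \ S) q n = n0 + μ`,
`μ = shv a W S q ν n1` (`ext`, `sol_eq_solN`, uniqueness); the term is literally the term of the new state (`st_term`); `tw`,
`neww` only see the values of `m` on `W`; `stQ` and `q + μ` agree on `W \ S`: `evU_RF`, `cn_congrZ`.
-/

set_option autoImplicit false

namespace Pool.Agent.H46.AH

open scoped BigOperators
open Pool.Agent.H27.KAC Pool.Agent.H40.KADE

section

variable {I : Type} [Fintype I] [DecidableEq I]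

/-- the shift vector of the engine. -/
theorem mhat_eq (a : I → I → ℕ) (hs : ∀ i j, a i j = a j i) (W S : Finset I) (hW : FinT a W)
    (hS : S ⊆ W) (q : I → ℚ) (hq0 : ∀ i, i ∉ W → q i = 0) (n0 n1 : I → ℤ)
    (h0 : ∀ i ∈ W, n0 i = 0) (h1 : ∀ i, i ∉ S → n1 i = 0) (i : I) :
    mhat a (W \ S) q (fun i => n0 i + n1 i) i =
      n0 i + shv a W S q (fun x => -cv a (fun i => (n0 i : ℚ)) x) n1 i := by
  have hFT : FT a (W \ S) := FinT_FT a hs (hW.mono Finset.sdiff_subset)
  unfold mhat
  refine (ext_unique a hFT (fun i => ((n0 i + n1 i : ℤ) : ℚ) - q i)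
    (fun i => (n0 i : ℚ) + shv a W S q (fun x => -cv a (fun i => (n0 i : ℚ)) x) n1 i)
    (fun x hx => ?_) (fun x hx => ?_) i).symm
  · beta_reduce
    by_cases hxW : x ∈ W
    · have hxS : x ∈ S := by
        by_contra h'
        exact hx (Finset.mem_sdiff.2 ⟨hxW, h'⟩)
      rw [shv_S a W S q _ n1 x hxS, h0 x hxW]
      push_cast
      ring
    · rw [shv_off a W S hS q _ n1 x hxW, h1 x (fun h' => hxW (hS h')), hq0 x hxW]
      push_cast
      ring
  · rw [cv_add, cv_eq_cqN a W (shv a W S q (fun x => -cv a (fun i => (n0 i : ℚ)) x) n1)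
      (fun y hy => shv_off a W S hS q _ n1 y hy), shv_eq a hs W S hW hS q _ n1 x hx,
      add_neg_cancel]

theorem AH14_sum_cE (a : I → I → ℕ) (hs : ∀ i j, a i j = a j i) (k : ℕ) (m : I → ℚ) :
    ∑ x, m x • cE a x k = ∑ j, cv a m j • (sy j k : QE I) := by
  unfold cE cv
  have h1 : ∀ x, m x • ∑ j, ((cart a x j : ℤ) : ℚ) • (sy j k : QE I) =
      ∑ j, (((cart a j x : ℤ) : ℚ) * m x) • (sy j k : QE I) := by
    intro x
    rw [Finset.smul_sum]
    refine Finset.sum_congr rfl fun j _ => ?_
    rw [smul_smul, cart_symm a hs x j, mul_comm]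
  rw [Finset.sum_congr rfl fun x _ => h1 x, Finset.sum_comm]
  refine Finset.sum_congr rfl fun j _ => ?_
  rw [Finset.sum_smul]

/-- the term of the new state. -/
theorem st_term (a : I → I → ℕ) (hs : ∀ i j, a i j = a j i) (k : ℕ) (γ P p : I → ℚ)
    (H : I → I → ℚ) (W S : Finset I) (hW : FinT a W) (hS : S ⊆ W) (hP0 : ∀ i ∈ W, P i = 0)
    (hp0 : ∀ i ∈ W, p i = 0) (hH : ∀ l i, l ∈ W ∨ i ∈ W → H l i = 0) (n0 : I → ℤ)
    (h0 : ∀ i ∈ W, n0 i = 0) (μ m : I → ℚ) (hμ : ∀ i, i ∉ W → μ i = 0)
    (hm : ∀ i, m i = n0 i + μ i) :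
    elT a (W \ S) k (rsT a S k μ (regT a k γ P p H W n0)) =
      stTrm k (stG k γ m) (stP a P p m) P (stM a W (W \ S) P H m) (stN W P m) (W \ S) := by
  have hK : FinT a (W \ S) := hW.mono Finset.sdiff_subset
  refine Trm.ext ?_ ?_ ?_
  · funext i
    show γ i - (k : ℚ) * (n0 i : ℚ) - (k : ℚ) * μ i = γ i - (k : ℚ) * m i
    rw [hm i]
    ring
  · show ∑ i, ((-(2 * P i - p i)) • (sy i k : QE I) + P i • sy i (k - 1)) -
      ∑ i, (n0 i : ℚ) • cE a i k - (∑ x, μ x • cE a x k) =
      ∑ i, ((-(stP a P p m i)) • (sy i k : QE I) + (P i) • sy i (k - 1))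
    have h1 : ∑ i, (n0 i : ℚ) • cE a i k + ∑ x, μ x • cE a x k =
        ∑ j, cv a m j • (sy j k : QE I) := by
      rw [← AH14_sum_cE a hs, ← Finset.sum_add_distrib]
      refine Finset.sum_congr rfl fun x _ => ?_
      rw [← add_smul, hm x]
    rw [sub_sub, h1, ← Finset.sum_sub_distrib]
    refine Finset.sum_congr rfl fun i _ => ?_
    unfold stP
    rw [show -(2 * P i - p i + cv a m i) = -(2 * P i - p i) - cv a m i by ring, sub_smul]
    abel
  · funext j
    show (if j ∈ W \ S then 0 else elC a (W \ S) k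
      (if j ∈ S then cE a j k else (if j ∈ W then 0 else
        sclq (P j) (n0 j) • ((2 : ℚ) • sy j k - sy j (k - 1) -
          ∑ l ∈ Finset.univ \ W, H l j • sy l k) + (n0 j : ℚ) • cE a j k))) =
      if j ∈ W \ S then 0 else ∑ l ∈ Finset.univ \ (W \ S),
        (stM a W (W \ S) P H m l j • sy l k - stN W P m l j • sy l (k - 1))
    by_cases hj : j ∈ W \ S
    · rw [if_pos hj, if_pos hj]
    · rw [if_neg hj, if_neg hj]
      by_cases hjS : j ∈ S
      · rw [if_pos hjS, elC_cE a hs (W \ S) hK k j hj]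
        refine Finset.sum_congr rfl fun l _ => ?_
        unfold Pool.Agent.H40.KADE.stM stN
        rw [if_pos (hS hjS), if_neg (fun h => h.2 (hS hjS)), zero_smul, sub_zero]
      · rw [if_neg hjS]
        have hjW : j ∉ W := fun h => hj (Finset.mem_sdiff.2 ⟨h, hjS⟩)
        have hmj : m j = n0 j := by rw [hm j, hμ j hjW, add_zero]
        rw [if_neg hjW, elC_add a hs _ hK, elC_smul a hs _ hK, elC_smul a hs _ hK,
          elC_cE a hs (W \ S) hK k j hj]
        have h2 : elC a (W \ S) k ((2 : ℚ) • sy j k - sy j (k - 1) -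
            ∑ l ∈ Finset.univ \ W, H l j • sy l k) = (2 : ℚ) • sy j k - sy j (k - 1) -
            ∑ l ∈ Finset.univ \ W, H l j • sy l k := by
          have e1 : (2 : ℚ) • (sy j k : QE I) - sy j (k - 1) -
              ∑ l ∈ Finset.univ \ W, H l j • sy l k = ((2 : ℚ) • (sy j k : QE I) +
                (-1 : ℚ) • sy j (k - 1)) + ∑ l ∈ Finset.univ \ W, (-H l j) • sy l k := by
            rw [neg_smul, one_smul, ← sub_eq_add_neg, sub_eq_add_neg ((2 : ℚ) • _ - _),
              ← Finset.sum_neg_distrib]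
            congr 1
            exact Finset.sum_congr rfl fun l _ => (neg_smul _ _).symm
          rw [e1, elC_add a hs _ hK, elC_add a hs _ hK, elC_smul a hs _ hK, elC_smul a hs _ hK,
            elC_sy a hs _ hK k j hj, elC_sy a hs _ hK k j hj, elC_sum a hs _ hK]
          congr 1
          refine Finset.sum_congr rfl fun l hl => ?_
          rw [elC_smul a hs _ hK, elC_sy a hs _ hK k l (fun h =>
            (Finset.mem_sdiff.1 hl).2 (Finset.mem_sdiff.1 h).1)]
        rw [h2]
        have h3 : ∀ l, stM a W (W \ S) P H m l j • (sy l k : QE I) -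
            stN W P m l j • sy l (k - 1) =
            sclq (P j) (n0 j) • ((if l = j then (2 : ℚ) else 0) • (sy l k : QE I) -
              (if l = j then (1 : ℚ) else 0) • sy l (k - 1) - H l j • sy l k) +
              (n0 j : ℚ) • (effC a (W \ S) l j • sy l k) := by
          intro l
          unfold Pool.Agent.H40.KADE.stM stN
          rw [if_neg hjW, hmj]
          by_cases hlj : l = j
          · rw [if_pos hlj, if_pos ⟨hlj, hjW⟩, if_pos hlj, add_smul, mul_smul, mul_smul, one_smul,
              sub_smul, smul_sub, smul_sub, smul_sub]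
            abel
          · rw [if_neg hlj, if_neg (fun h => hlj h.1), if_neg hlj, add_smul, mul_smul, mul_smul,
              sub_smul, smul_sub]
            simp only [zero_smul, sub_zero, zero_sub, smul_zero, smul_neg]
        rw [Finset.sum_congr rfl fun l _ => h3 l, Finset.sum_add_distrib, ← Finset.smul_sum,
          ← Finset.smul_sum, Finset.sum_sub_distrib, Finset.sum_sub_distrib]
        congr 2
        have hju : j ∈ Finset.univ \ (W \ S) := Finset.mem_sdiff.2 ⟨Finset.mem_univ j, hj⟩
        congr 1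
        · congr 1
          · rw [Finset.sum_eq_single_of_mem j hju (fun l _ hl => by
              rw [if_neg hl, zero_smul]), if_pos rfl]
          · rw [Finset.sum_eq_single_of_mem j hju (fun l _ hl => by
              rw [if_neg hl, zero_smul]), if_pos rfl, one_smul]
        · refine Finset.sum_subset ?_ ?_
          · intro l hl
            rw [Finset.mem_sdiff] at hl ⊢
            exact ⟨hl.1, fun h => hl.2 (Finset.mem_sdiff.1 h).1⟩
          · intro l hl hl'
            have hlW : l ∈ W := by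
              by_contra h
              exact hl' (Finset.mem_sdiff.2 ⟨Finset.mem_univ l, h⟩)
            rw [hH l j (Or.inl hlW), zero_smul]

open Classical in
/-- sums over the box of the engine. -/
theorem sum_boxS (W S : Finset I) (hS : S ⊆ W) (k : ℕ) (γ q : I → ℚ) (hq0 : ∀ i, i ∉ W → q i = 0)
    (f : (I → ℤ) → ℚ) :
    ∑ n ∈ boxS (W \ S) k γ q, f n =
      ∑ n0 ∈ nbox W k γ, ∑ n1 ∈ rbox S k γ q, f (fun i => n0 i + n1 i) := by
  have m1 : ∀ n : I → ℤ, n ∈ boxS (W \ S) k γ q ↔
      (∀ i, i ∈ W \ S → n i = 0) ∧ ∀ i, i ∉ W \ S → n i ∈ Finset.Icc ⌈q i⌉ ⌊γ i / k + q i⌋ := by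
    intro n
    unfold boxS
    rw [Fintype.mem_piFinset]
    constructor
    · intro h
      refine ⟨fun i hi => ?_, fun i hi => ?_⟩
      · have := h i
        rw [if_pos hi, Finset.mem_singleton] at this
        exact this
      · have := h i
        rw [if_neg hi] at this
        exact this
    · intro h i
      by_cases hi : i ∈ W \ S
      · rw [if_pos hi, Finset.mem_singleton]
        exact h.1 i hi
      · rw [if_neg hi]
        exact h.2 i hi
  have m2 : ∀ n : I → ℤ, n ∈ nbox W k γ ↔
      (∀ i, i ∈ W → n i = 0) ∧ ∀ i, i ∉ W → n i ∈ Finset.Icc 0 ⌊γ i / k⌋ := by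
    intro n
    unfold nbox
    rw [Fintype.mem_piFinset]
    constructor
    · intro h
      refine ⟨fun i hi => ?_, fun i hi => ?_⟩
      · have := h i
        rw [if_pos hi, Finset.mem_singleton] at this
        exact this
      · have := h i
        rw [if_neg hi] at this
        exact this
    · intro h i
      by_cases hi : i ∈ W
      · rw [if_pos hi, Finset.mem_singleton]
        exact h.1 i hi
      · rw [if_neg hi]
        exact h.2 i hi
  have m3 : ∀ n : I → ℤ, n ∈ rbox S k γ q ↔
      (∀ i, i ∈ S → n i ∈ Finset.Icc ⌈q i⌉ ⌊γ i / k + q i⌋) ∧ ∀ i, i ∉ S → n i = 0 := by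
    intro n
    unfold rbox
    rw [Fintype.mem_piFinset]
    constructor
    · intro h
      refine ⟨fun i hi => ?_, fun i hi => ?_⟩
      · have := h i
        rw [if_pos hi] at this
        exact this
      · have := h i
        rw [if_neg hi, Finset.mem_singleton] at this
        exact this
    · intro h i
      by_cases hi : i ∈ S
      · rw [if_pos hi]
        exact h.1 i hi
      · rw [if_neg hi, Finset.mem_singleton]
        exact h.2 i hi
  have hq' : ∀ i, i ∉ W → Finset.Icc ⌈q i⌉ ⌊γ i / k + q i⌋ = Finset.Icc 0 ⌊γ i / k⌋ := by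
    intro i hi
    rw [hq0 i hi, Int.ceil_zero, add_zero]
  rw [← Finset.sum_product']
  symm
  refine Finset.sum_bij' (fun z _ => fun i => z.1 i + z.2 i)
    (fun n _ => (fun i => if i ∈ W then 0 else n i, fun i => if i ∈ S then n i else 0))
    ?_ ?_ ?_ ?_ ?_
  · intro z hz
    rw [Finset.mem_product, m2, m3] at hz
    obtain ⟨⟨h1, h2⟩, h3, h4⟩ := hz
    rw [m1]
    refine ⟨fun i hi => ?_, fun i hi => ?_⟩
    · rw [Finset.mem_sdiff] at hi
      beta_reduce
      rw [h1 i hi.1, h4 i hi.2, add_zero]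
    · beta_reduce
      by_cases hiW : i ∈ W
      · have hiS : i ∈ S := by
          by_contra h'
          exact hi (Finset.mem_sdiff.2 ⟨hiW, h'⟩)
        rw [h1 i hiW, zero_add]
        exact h3 i hiS
      · rw [h4 i (fun h' => hiW (hS h')), add_zero, hq' i hiW]
        exact h2 i hiW
  · intro n hn
    rw [m1] at hn
    rw [Finset.mem_product, m2, m3]
    refine ⟨⟨fun i hi => if_pos hi, fun i hi => ?_⟩, fun i hi => ?_, fun i hi => if_neg hi⟩
    · show (if i ∈ W then 0 else n i) ∈ _
      rw [if_neg hi, ← hq' i hi]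
      exact hn.2 i (fun h' => hi (Finset.mem_sdiff.1 h').1)
    · show (if i ∈ S then n i else 0) ∈ _
      rw [if_pos hi]
      exact hn.2 i (fun h' => (Finset.mem_sdiff.1 h').2 hi)
  · intro z hz
    rw [Finset.mem_product, m2, m3] at hz
    obtain ⟨⟨h1, h2⟩, h3, h4⟩ := hz
    have e1 : (fun i => if i ∈ W then 0 else z.1 i + z.2 i) = z.1 := by
      funext i
      by_cases hi : i ∈ W
      · rw [if_pos hi, h1 i hi]
      · rw [if_neg hi, h4 i (fun h' => hi (hS h')), add_zero]
    have e2 : (fun i => if i ∈ S then z.1 i + z.2 i else 0) = z.2 := by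
      funext i
      by_cases hi : i ∈ S
      · rw [if_pos hi, h1 i (hS hi), zero_add]
      · rw [if_neg hi, h4 i hi]
    show ((fun i => if i ∈ W then 0 else z.1 i + z.2 i),
      (fun i => if i ∈ S then z.1 i + z.2 i else 0)) = z
    rw [e1, e2]
  · intro n hn
    rw [m1] at hn
    funext i
    show (if i ∈ W then 0 else n i) + (if i ∈ S then n i else 0) = n i
    by_cases hi : i ∈ W
    · by_cases hi' : i ∈ S
      · rw [if_pos hi, if_pos hi', zero_add]
      · rw [if_pos hi, if_neg hi', hn.1 i (Finset.mem_sdiff.2 ⟨hi, hi'⟩), zero_add]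
    · rw [if_neg hi, if_neg (fun h' => hi (hS h')), add_zero]
  · intro z hz
    rfl

open Classical in
/-- the field `step` of `ClusterVal`. -/
theorem GG_step (a : I → I → ℕ) (hs : ∀ i j, a i j = a j i) (cd : CrossData a)
    (h : RTfam a cd) (fam : Finset I → (I → ℚ) → (ℕ → ℚ) → ℕ → FFn I) (hfam : IsFam a cd fam)
    (k : ℕ) (γ P p : I → ℚ) (H : I → I → ℚ) (W : Finset I) (q : I → ℚ)
    (w : Finset I → ℕ → ℚ) (hk : 1 ≤ k) (hG : GS a (fun N q g => cn a cd N q g) (k + 1) γ P p W q w)
    (hP : ∀ i, i ∉ W → 0 < P i) (hp : ∀ i, 0 ≤ p i) (hH : ∀ l i, l ∈ W ∨ i ∈ W → H l i = 0) :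
    GG a fam (k + 1) γ P p idm H W q w =
      ∑ S ∈ W.powerset, ∑ n ∈ (boxS (W \ S) k γ q).filter
          (fun n => ∀ s ∈ S, 0 < cv a (mhat a (W \ S) q n) s),
        stw W P n * tw a W w k (mhat a (W \ S) q n) *
          GG a fam k (stG k γ (mhat a (W \ S) q n)) (stP a P p (mhat a (W \ S) q n)) P
            (stM a W (W \ S) P H (mhat a (W \ S) q n)) (stN W P (mhat a (W \ S) q n)) (W \ S)
            (stQ (W \ S) q (mhat a (W \ S) q n))
            (neww (fun N q g => cn a cd N q g) w k (stQ (W \ S) q (mhat a (W \ S) q n))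
              (mhat a (W \ S) q n)) := by
  have hW : FinT a W := FT_FinT a hs hG.ft
  have hFT := hG.ft
  have hqZ : ∀ x ∈ W, IsZ (cqN a W q x) := by
    intro x hx
    obtain ⟨z, hz⟩ := hG.int x
    rw [hG.P0 x hx, hG.p0 x hx, cv_eq_cqN a W q hG.q0] at hz
    exact ⟨-z, by push_cast; linarith⟩
  have hw : ∀ A ∈ comps a W, RFex a cd A q (w A) k := by
    intro A hA
    have hA' : A ∈ clusters a W := by
      rw [clusters_eq_comps a hs]
      exact hA
    refine RFex_of_Adm a hs cd h A (hW.mono (comps_subset hA)) (comps_conn hA) γ q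
      (fun x hx => ?_) (w A) k (hG.adm A hA')
    rw [cqN_comp a W A hA q x hx]
    exact hqZ x (comps_subset hA hx)
  have hnb : ∀ n0 ∈ nbox W k γ, ∀ i ∈ W, n0 i = 0 := by
    intro n0 hn i hi
    unfold nbox at hn
    rw [Fintype.mem_piFinset] at hn
    have := hn i
    rw [if_pos hi, Finset.mem_singleton] at this
    exact this
  have hrb : ∀ S ⊆ W, ∀ n1 ∈ rbox S k γ q, ∀ i, i ∉ S → n1 i = 0 := by
    intro S _ n1 hn i hi
    unfold rbox at hn
    rw [Fintype.mem_piFinset] at hn
    have := hn i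
    rw [if_neg hi, Finset.mem_singleton] at this
    exact this
  unfold GG
  rw [reg_expand a hs k hk γ P p H W hP hG.P0 (stBlk a fam (k + 1) W q w)
    (fun b hb => stBlk_sub a fam (k + 1) W q w b hb)]
  have hL : ∀ n0 ∈ nbox W k γ,
      stw W P n0 * evU a (stBlk a fam (k + 1) W q w) (regT a k γ P p H W n0) =
      ∑ S ∈ W.powerset, ∑ n1 ∈ rbox S k γ q,
        if (∀ s ∈ S, 0 < cv a (mhat a (W \ S) q (fun i => n0 i + n1 i)) s) then
          stw W P (fun i => n0 i + n1 i) *
            tw a W w k (mhat a (W \ S) q (fun i => n0 i + n1 i)) *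
            evU a (stBlk a fam k (W \ S) (stQ (W \ S) q (mhat a (W \ S) q (fun i => n0 i + n1 i)))
              (neww (fun N q g => cn a cd N q g) w k
                (stQ (W \ S) q (mhat a (W \ S) q (fun i => n0 i + n1 i)))
                (mhat a (W \ S) q (fun i => n0 i + n1 i))))
              (stTrm k (stG k γ (mhat a (W \ S) q (fun i => n0 i + n1 i)))
                (stP a P p (mhat a (W \ S) q (fun i => n0 i + n1 i))) P
                (stM a W (W \ S) P H (mhat a (W \ S) q (fun i => n0 i + n1 i)))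
                (stN W P (mhat a (W \ S) q (fun i => n0 i + n1 i))) (W \ S))
        else 0 := by
    intro n0 hn0
    have hn0W := hnb n0 hn0
    set T : Trm I := regT a k γ P p H W n0 with hTdef
    have hT : RReg W T := regT_RReg a hs k γ P p H W hG.P0 hG.p0 hH n0 hn0
    have hTE : ∀ x ∈ W, T.E (x, k) = -cv a (fun i => (n0 i : ℚ)) x := by
      intro x hx
      rw [hTdef, regT_E a hs k γ P p H W hG.P0 hG.p0 n0 x hx k, if_pos rfl]
    have hTγ : ∀ x ∈ W, T.γ x = γ x := by
      intro x hx
      show γ x - (k : ℚ) * (n0 x : ℚ) = γ x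
      rw [hn0W x hx]
      push_cast
      ring
    have hν0 : ∀ x ∈ W, 0 ≤ -cv a (fun i => (n0 i : ℚ)) x := by
      intro x hx
      rw [← hTE x hx]
      obtain ⟨z, hz⟩ := hT.nat x hx k hk
      rw [hz]
      exact Nat.cast_nonneg z
    have hνZ : ∀ x ∈ W, IsZ (-cv a (fun i => (n0 i : ℚ)) x) := by
      intro x hx
      rw [← hTE x hx]
      obtain ⟨z, hz⟩ := hT.nat x hx k hk
      exact ⟨z, by rw [hz]; push_cast; rfl⟩
    have h1 := AH13_all a hs cd h fam hfam k hk q w W hW hqZ hw T hT
    have h2 := AH13_data a hs W hW k q T.γ γ (fun x => T.E (x, k))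
      (fun x => -cv a (fun i => (n0 i : ℚ)) x) hTγ hTE
      (fun S μ => tw a W w k μ *
        evU a (stBlk a fam k (W \ S) (fun i => q i + μ i)
          (neww (fun N q g => cn a cd N q g) w k (fun i => q i + μ i) μ))
          (elT a (W \ S) k (rsT a S k μ T)))
    rw [h1.trans h2, Finset.mul_sum]
    refine Finset.sum_congr rfl fun S hS => ?_
    have hSW := Finset.mem_powerset.1 hS
    rw [Finset.mul_sum, Finset.sum_filter]
    refine Finset.sum_congr rfl fun n1 hn1 => ?_
    have hn1S := hrb S hSW n1 hn1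
    have hm : mhat a (W \ S) q (fun i => n0 i + n1 i) = fun i => (n0 i : ℚ) +
        shv a W S q (fun x => -cv a (fun i => (n0 i : ℚ)) x) n1 i := by
      funext i
      exact mhat_eq a hs W S hW hSW q hG.q0 n0 n1 hn0W hn1S i
    have hoff : ∀ i, i ∉ W → shv a W S q (fun x => -cv a (fun i => (n0 i : ℚ)) x) n1 i = 0 :=
      fun i hi => shv_off a W S hSW q _ n1 i hi
    have hcond : (∀ s ∈ S, -cv a (fun i => (n0 i : ℚ)) s <
          cqN a W (shv a W S q (fun x => -cv a (fun i => (n0 i : ℚ)) x) n1) s) ↔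
        ∀ s ∈ S, 0 < cv a (mhat a (W \ S) q (fun i => n0 i + n1 i)) s := by
      have e : ∀ s, cv a (mhat a (W \ S) q (fun i => n0 i + n1 i)) s =
          cv a (fun i => (n0 i : ℚ)) s +
            cqN a W (shv a W S q (fun x => -cv a (fun i => (n0 i : ℚ)) x) n1) s := by
        intro s
        rw [hm, cv_add, cv_eq_cqN a W _ hoff s]
      constructor
      · intro h' s hs'
        rw [e s]
        have := h' s hs'
        linarith
      · intro h' s hs'
        have := h' s hs'
        rw [e s] at this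
        linarith
    by_cases hc : ∀ s ∈ S, -cv a (fun i => (n0 i : ℚ)) s <
          cqN a W (shv a W S q (fun x => -cv a (fun i => (n0 i : ℚ)) x) n1) s
    · rw [if_pos hc, if_pos (hcond.1 hc), mul_assoc]
      have hstw : stw W P (fun i => n0 i + n1 i) = stw W P n0 := by
        unfold stw
        refine Finset.prod_congr rfl fun j hj => ?_
        show wtq (P j) (n0 j + n1 j).toNat = wtq (P j) (n0 j).toNat
        rw [hn1S j (fun h' => (Finset.mem_sdiff.1 hj).2 (hSW h')), add_zero]
      have htw : tw a W w k (mhat a (W \ S) q (fun i => n0 i + n1 i)) =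
          tw a W w k (shv a W S q (fun x => -cv a (fun i => (n0 i : ℚ)) x) n1) := by
        rw [hm]
        unfold tw
        refine Finset.prod_congr rfl fun N hN => ?_
        rw [clusters_eq_comps a hs] at hN
        have h3 : (∀ x ∈ N, (n0 x : ℚ) +
            shv a W S q (fun x => -cv a (fun i => (n0 i : ℚ)) x) n1 x = 0) ↔
            ∀ x ∈ N, shv a W S q (fun x => -cv a (fun i => (n0 i : ℚ)) x) n1 x = 0 := by
          constructor
          · intro h' x hx
            have := h' x hx
            rw [hn0W x (comps_subset hN hx)] at this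
            push_cast at this
            linarith
          · intro h' x hx
            rw [hn0W x (comps_subset hN hx), h' x hx]
            push_cast
            ring
        by_cases h4 : ∀ x ∈ N, shv a W S q (fun x => -cv a (fun i => (n0 i : ℚ)) x) n1 x = 0
        · rw [if_pos (h3.2 h4), if_pos h4]
        · rw [if_neg (fun h' => h4 (h3.1 h')), if_neg h4]
      rw [hstw, htw]
      congr 2
      have hst := st_term a hs k γ P p H W S hW hSW hG.P0 hG.p0 hH n0 hn0W
        (shv a W S q (fun x => -cv a (fun i => (n0 i : ℚ)) x) n1)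
        (mhat a (W \ S) q (fun i => n0 i + n1 i)) hoff (fun i => by rw [hm])
      rw [← hst]
      -- the functionals
      have hregK := rsT_RRegK a hs W S hW hSW k hk q n1 T (Pool.Agent.H46.AH.RReg.toK hT k)
      have hshv : shv a W S q (fun x => T.E (x, k)) n1 =
          shv a W S q (fun x => -cv a (fun i => (n0 i : ℚ)) x) n1 :=
        AH13_shv_congr a hs W S hW q _ _ n1 hTE
      rw [hshv] at hregK
      have hK : FinT a (W \ S) := hW.mono Finset.sdiff_subset
      have hreg : RReg (W \ S) (elT a (W \ S) k (rsT a S k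
          (shv a W S q (fun x => -cv a (fun i => (n0 i : ℚ)) x) n1) T)) :=
        RReg_elT a hs _ hK k _ hregK.1
      have hwt := shv_wt a hs W S hW hSW q (fun x => -cv a (fun i => (n0 i : ℚ)) x) hqZ hνZ n1
      have hnew := AH13_newRF a hs cd h W S hW hSW k q
        (fun x => -cv a (fun i => (n0 i : ℚ)) x) hqZ hν0 hνZ n1 hc w hw
      unfold stBlk
      refine evU_RF (cd := cd) hs hK hwt
        (w := neww (fun N q g => cn a cd N q g) w k
          (fun i => q i + shv a W S q (fun x => -cv a (fun i => (n0 i : ℚ)) x) n1 i)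
          (shv a W S q (fun x => -cv a (fun i => (n0 i : ℚ)) x) n1)) (f := k - 1) ?_ ?_ _ hreg
      · intro N hN
        exact hfam N _ _ _ (hnew N hN (k - 1) (Nat.sub_le k 1))
      · intro N hN
        have hNs := comps_subset hN
        have hmN : ∀ x ∈ N, mhat a (W \ S) q (fun i => n0 i + n1 i) x =
            shv a W S q (fun x => -cv a (fun i => (n0 i : ℚ)) x) n1 x := by
          intro x hx
          rw [hm]
          beta_reduce
          rw [hn0W x (Finset.mem_sdiff.1 (hNs hx)).1]
          push_cast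
          ring
        have hqN : ∀ x ∈ N, q x + shv a W S q (fun x => -cv a (fun i => (n0 i : ℚ)) x) n1 x =
            stQ (W \ S) q (mhat a (W \ S) q (fun i => n0 i + n1 i)) x := by
          intro x hx
          unfold stQ
          rw [if_pos (hNs hx), hmN x hx]
        have hnN : ∀ l, neww (fun N q g => cn a cd N q g) w k
            (fun i => q i + shv a W S q (fun x => -cv a (fun i => (n0 i : ℚ)) x) n1 i)
            (shv a W S q (fun x => -cv a (fun i => (n0 i : ℚ)) x) n1) N l =
            neww (fun N q g => cn a cd N q g) w k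
                (stQ (W \ S) q (mhat a (W \ S) q (fun i => n0 i + n1 i)))
                (mhat a (W \ S) q (fun i => n0 i + n1 i)) N l := by
          intro l
          unfold neww
          by_cases h5 : ∀ x ∈ N, shv a W S q (fun x => -cv a (fun i => (n0 i : ℚ)) x) n1 x = 0
          · rw [if_pos h5, if_pos (fun x hx => by rw [hmN x hx]; exact h5 x hx)]
          · rw [if_neg h5, if_neg (fun h' => h5 (fun x hx => by
              rw [← hmN x hx]; exact h' x hx))]
            refine cn_congrZ a cd N _ _ _ fun x hx => ⟨0, ?_⟩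
            rw [hqN x hx]
            push_cast
            ring
        have hex : ∃ Φ : FFn I, IsRF a cd N
            (stQ (W \ S) q (mhat a (W \ S) q (fun i => n0 i + n1 i)))
            (neww (fun N q g => cn a cd N q g) w k
                (stQ (W \ S) q (mhat a (W \ S) q (fun i => n0 i + n1 i)))
                (mhat a (W \ S) q (fun i => n0 i + n1 i)) N) (k - 1) Φ := by
          obtain ⟨Φ, hΦ⟩ := hnew N hN (k - 1) (Nat.sub_le k 1)
          exact ⟨Φ, hΦ.congr (fun x hx => ⟨0, by rw [hqN x hx]; push_cast; ring⟩)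
            (fun l _ => hnN l)⟩
        exact (hfam N _ _ _ hex).congr (fun x hx => ⟨0, by rw [hqN x hx]; push_cast; ring⟩)
          (fun l _ => (hnN l).symm)
    · rw [if_neg hc, if_neg (fun h' => hc (hcond.2 h'))]
  rw [Finset.sum_congr rfl hL, Finset.sum_comm]
  refine Finset.sum_congr rfl fun S hS => ?_
  have hSW := Finset.mem_powerset.1 hS
  rw [Finset.sum_filter, sum_boxS W S hSW k γ q hG.q0]

end

end Pool.Agent.H46.AH

end
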