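import Pool.Agent.H16.TKA.M25
import Pool.Agent.H16.TKA.M26
import Pool.Agent.H16.TKA.M33
import Pool.Agent.H16.TKA.M35

/-! The parts of this file: H41.KA.AG10, H41.KA.AG13, H41.KA.AG8_1, H41.KA.AG11, H41.KA.AG9a, H41.KA.AG9d, H41.KA.AG9f, H10.KAC.Term, H10.KAC.Fin1. -/

section

/-!
KAC ADE, module AG10: the response product theorem.

Proof of `RPT`: strong induction on `R.card`.  Choose `x ∈ M`.  For every component `A` of `R.erase x` let `MA = M ∩ A`,
`LA = L.filter (b.B ⊆ A)`.  If `MA = ∅`, then `A` is a component of `R \ M`, hence `A = b.B` for exactly one `b ∈ L` (`ConnS`, `Sep`);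
take the family of `b`.  Otherwise use the induction hypothesis for `A, MA, LA` (`QOk_sub`, all classes on `M` are integral).
`exists_RB_list` and the star theorem `star_resp` for `x`, `u x`; weights: products over the components.  At the top frontier:
`evF_stF`, `evU_alU`, `evU_subst` and linearity in the column of `x`.
-/

set_option autoImplicit false

namespace Pool.Agent.H27.KAC

open scoped BigOperators

section

variable {I : Type} [Fintype I] [DecidableEq I]

/-! joint values with a final functional -/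

/-- joint value with a final functional. -/
private noncomputable def evG (a : I → I → ℕ) :
    List (Finset I × FFn I) → (Trm I → ℚ) → Trm I → ℚ
  | [], F, T => F T
  | b :: U, F, T => (b.2.map (fun c => c.1 * evG a U F (patT a b.1 c.2 T))).sum

private theorem evG_TV (a : I → I → ℕ) (U : List (Finset I × FFn I)) (T : Trm I) :
    evU a U T = evG a U (TV a) T := by
  induction U generalizing T with
  | nil => rw [evU_nil]; rfl
  | cons b U ih =>
    rw [evU_cons]
    simp only [evG, ih]

private theorem evG_append (a : I → I → ℕ) (U U' : List (Finset I × FFn I)) (F : Trm I → ℚ)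
    (T : Trm I) : evG a (U ++ U') F T = evG a U (evG a U' F) T := by
  induction U generalizing T with
  | nil => rfl
  | cons b U ih => simp only [List.cons_append, evG, ih]

private theorem evU_append (a : I → I → ℕ) (U U' : List (Finset I × FFn I)) (T : Trm I) :
    evU a (U ++ U') T = evG a U (evU a U') T := by
  rw [evG_TV, evG_append]
  congr 1
  funext X
  rw [evG_TV]

private theorem uni_cons (b : Finset I × FFn I) (U : List (Finset I × FFn I)) :
    uni (b :: U) = b.1 ∪ uni U := rfl

private theorem uniR_cons (b : RB I) (L : List (RB I)) : uniR (b :: L) = b.B ∪ uniR L := rfl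

private theorem sep_uni {a : I → I → ℕ} {A : Finset I} {U : List (Finset I × FFn I)}
    (h : ∀ b ∈ U, Sep a A b.1) : Sep a A (uni U) := by
  constructor
  · rw [Finset.disjoint_left]
    intro x hx hx'
    obtain ⟨b, hb, hxb⟩ := (mem_uni U x).1 hx'
    exact Finset.disjoint_left.1 (h b hb).1 hx hxb
  · intro x hx y hy
    obtain ⟨b, hb, hyb⟩ := (mem_uni U y).1 hy
    exact (h b hb).2 x hx y hyb

private theorem evG_congr (a : I → I → ℕ) (hs : ∀ i j, a i j = a j i) (A : Finset I)
    (U : List (Finset I × FFn I)) (hA : ∀ b ∈ U, Sep a A b.1)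
    (hU : U.Pairwise (fun b c => Sep a b.1 c.1)) (F F' : Trm I → ℚ)
    (h : ∀ X : Trm I, RReg A X → F X = F' X) (T : Trm I) (hT : RReg (A ∪ uni U) T) :
    evG a U F T = evG a U F' T := by
  induction U generalizing T with
  | nil =>
    refine h T ?_
    have e : A ∪ uni ([] : List (Finset I × FFn I)) = A := Finset.union_empty A
    rw [e] at hT
    exact hT
  | cons b U ih =>
    simp only [evG]
    rw [List.pairwise_cons] at hU
    congr 1
    refine List.map_congr_left ?_
    intro c _
    congr 1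
    refine ih (fun d hd => hA d (List.mem_cons_of_mem _ hd)) hU.2 _ ?_
    have hsb : Sep a (A ∪ uni U) b.1 :=
      Sep_union (hA b List.mem_cons_self) (Sep.symm hs (sep_uni hU.1))
    refine RReg_patT a hs (A ∪ uni U) b.1 hsb.1 c.2 (fun x hx y hy _ => hsb.2 x hx y hy) T ?_
    have e : A ∪ uni U ∪ b.1 = A ∪ uni (b :: U) := by
      rw [uni_cons, Finset.union_assoc, Finset.union_comm b.1]
    rw [e]
    exact hT

private theorem patT_cols_comm (a : I → I → ℕ) (B S : Finset I) (h : Disjoint S B) (π : Pat I)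
    (c : I → QE I) (T : Trm I) : (patT a B π T).cols S c = patT a B π (T.cols S c) := by
  refine Trm.ext rfl rfl ?_
  funext i
  simp only [patT, Trm.cols, Trm.etaM]
  by_cases hi : i ∈ S
  · have hiB : i ∉ B := Finset.disjoint_left.1 h hi
    rw [if_pos hi, if_neg hiB, if_pos hi]
  · rw [if_neg hi]
    by_cases hiB : i ∈ B
    · rw [if_pos hiB, if_pos hiB]
    · rw [if_neg hiB, if_neg hiB, if_neg hi]

private theorem evG_cols (a : I → I → ℕ) (S : Finset I) (c : I → QE I)
    (U : List (Finset I × FFn I)) (hU : ∀ b ∈ U, Disjoint S b.1) (F : Trm I → ℚ) (T : Trm I) :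
    evG a U (fun X => F (X.cols S c)) T = evG a U F (T.cols S c) := by
  induction U generalizing T with
  | nil => rfl
  | cons b U ih =>
    simp only [evG]
    congr 1
    refine List.map_congr_left ?_
    intro d _
    rw [ih (fun e he => hU e (List.mem_cons_of_mem _ he)),
      patT_cols_comm a b.1 S (hU b List.mem_cons_self)]

private theorem atF_cons (b : RB I) (L : List (RB I)) (f : ℕ) :
    atF (b :: L) f = (b.B, b.Φ f) :: atF L f := rfl

private theorem atF_append (L L' : List (RB I)) (f : ℕ) :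
    atF (L ++ L') f = atF L f ++ atF L' f := by
  simp only [atF, List.map_append]

private theorem mem_atF {L : List (RB I)} {f : ℕ} {b : Finset I × FFn I} (hb : b ∈ atF L f) :
    ∃ d ∈ L, b = (d.B, d.Φ f) := by
  simp only [atF, List.mem_map] at hb
  obtain ⟨d, hd, rfl⟩ := hb
  exact ⟨d, hd, rfl⟩

theorem atF_pairwise {a : I → I → ℕ} {L : List (RB I)} (f : ℕ)
    (h : L.Pairwise (fun b c => Sep a b.B c.B)) :
    (atF L f).Pairwise (fun b c => Sep a b.1 c.1) := by
  simp only [atF, List.pairwise_map]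
  exact h

theorem pairwise_disj {a : I → I → ℕ} {U : List (Finset I × FFn I)}
    (h : U.Pairwise (fun b c => Sep a b.1 c.1)) :
    U.Pairwise (fun b c => Disjoint b.1 c.1) := h.imp (fun h => h.1)

/-- blockwise substitution in a joint value. -/
theorem evU_subst (a : I → I → ℕ) (hs : ∀ i j, a i j = a j i) (K : ℕ) (c : I → QE I)
    (hc : ∀ j x l, x ≠ j → c j (x, l) = 0) (L' : List (RB I))
    (G : RB I → List (RB I)) (M : Finset I)
    (hd : L'.Pairwise (fun b c => Sep a b.B c.B))
    (hG : ∀ b ∈ L', (G b).Pairwise (fun b c => Sep a b.B c.B))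
    (hGs : ∀ b ∈ L', uniR (G b) ⊆ b.B ∧ Disjoint (uniR (G b)) M) (hM : M ⊆ uniR L')
    (hcov : ∀ b ∈ L', b.B ⊆ uniR (G b) ∪ M)
    (h : ∀ b ∈ L', ∀ T : Trm I, RReg b.B T →
      evF a b.B (b.Φ K) T = evU a (atF (G b) K) (T.cols (M ∩ b.B) c)) (T : Trm I)
    (hT : RReg (uniR L') T) :
    evU a (atF L' K) T = evU a (atF (L'.flatMap G) K) (T.cols M c) := by
  induction L' generalizing M T with
  | nil =>
    have hM0 : M = ∅ := by
      have : M ⊆ (∅ : Finset I) := hM
      exact Finset.subset_empty.1 this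
    subst hM0
    have e : T.cols ∅ c = T := by
      refine Trm.ext rfl rfl ?_
      funext i
      simp [Trm.cols]
    rw [e]
    rfl
  | cons b L'' ih =>
    rw [List.pairwise_cons] at hd
    have hsep1 : ∀ d ∈ atF L'' K, Sep a b.B d.1 := by
      intro d hd'
      obtain ⟨e, he, rfl⟩ := mem_atF hd'
      exact hd.1 e he
    have hbL : Sep a b.B (uniR L'') := by
      have := sep_uni hsep1
      rwa [uni_atF] at this
    have hpw : (atF L'' K).Pairwise (fun b c => Sep a b.1 c.1) := atF_pairwise K hd.2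
    have hpwG : (atF (G b) K).Pairwise (fun b c => Sep a b.1 c.1) :=
      atF_pairwise K (hG b List.mem_cons_self)
    have hGb := hGs b List.mem_cons_self
    have hcovb := hcov b List.mem_cons_self
    have hGsub : ∀ d ∈ atF (G b) K, d.1 ⊆ b.B := by
      intro d hd'
      obtain ⟨e, he, rfl⟩ := mem_atF hd'
      intro y hy
      exact hGb.1 ((mem_uniR _ _).2 ⟨e, he, hy⟩)
    -- step 1
    have s1 : evU a (atF (b :: L'') K) T = evG a (atF L'' K) (evF a b.B (b.Φ K)) T := by
      rw [atF_cons]
      have hp : ((b.B, b.Φ K) :: atF L'' K).Perm (atF L'' K ++ [(b.B, b.Φ K)]) :=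
        (List.perm_append_singleton _ _).symm
      rw [evU_perm a _ _ hp (pairwise_disj (a := a) (List.pairwise_cons.2 ⟨hsep1, hpw⟩)), evU_append]
      have e : evU a [(b.B, b.Φ K)] = evF a b.B (b.Φ K) := by
        funext X
        rw [evU_single]
      rw [e]
    have s2 : evG a (atF L'' K) (evF a b.B (b.Φ K)) T =
        evG a (atF L'' K) (fun X => evU a (atF (G b) K) (X.cols (M ∩ b.B) c)) T := by
      refine evG_congr a hs b.B _ hsep1 hpw _ _ (h b List.mem_cons_self) T ?_
      rw [uni_atF]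
      exact hT
    have s3 : evG a (atF L'' K) (fun X => evU a (atF (G b) K) (X.cols (M ∩ b.B) c)) T =
        evU a (atF L'' K ++ atF (G b) K) (T.cols (M ∩ b.B) c) := by
      rw [evU_append]
      refine evG_cols a (M ∩ b.B) c (atF L'' K) ?_ (evU a (atF (G b) K)) T
      intro d hd'
      exact Finset.disjoint_of_subset_left Finset.inter_subset_right (hsep1 d hd').1
    have hpw2 : (atF L'' K ++ atF (G b) K).Pairwise (fun b c => Sep a b.1 c.1) := by
      rw [List.pairwise_append]
      refine ⟨hpw, hpwG, ?_⟩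
      intro d hd' e he
      exact Sep.symm hs (Sep.mono (hsep1 d hd') (hGsub e he) (Finset.Subset.refl _))
    have s4 : evU a (atF L'' K ++ atF (G b) K) (T.cols (M ∩ b.B) c) =
        evG a (atF (G b) K) (evU a (atF L'' K)) (T.cols (M ∩ b.B) c) := by
      rw [evU_perm a _ _ (List.perm_append_comm) (pairwise_disj hpw2), evU_append]
    have hsepG : ∀ d ∈ atF (G b) K, Sep a (uniR L'') d.1 := by
      intro d hd'
      exact Sep.mono (Sep.symm hs hbL) (Finset.Subset.refl _) (hGsub d hd')
    have hReg : RReg (uniR L'' ∪ uni (atF (G b) K)) (T.cols (M ∩ b.B) c) := by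
      rw [uni_atF]
      have hsub : uniR L'' ∪ uniR (G b) ⊆ uniR (b :: L'') := by
        rw [uniR_cons]
        intro y hy
        rcases Finset.mem_union.1 hy with hy | hy
        · exact Finset.mem_union_right _ hy
        · exact Finset.mem_union_left _ (hGb.1 hy)
      refine ⟨fun y hy l hl => hT.nat y (hsub hy) l hl, ?_⟩
      intro y hy j hj l hl hne
      simp only [Trm.cols] at hne
      by_cases hjM : j ∈ M ∩ b.B
      · rw [if_pos hjM] at hne
        exfalso
        have hyj : y ≠ j := fun e => hj (e ▸ hy)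
        exact hne (hc j y l hyj)
      · rw [if_neg hjM] at hne
        have hjb : j ∉ b.B := by
          intro hjb
          rcases Finset.mem_union.1 (hcovb hjb) with h1 | h1
          · exact hj (Finset.mem_union_right _ h1)
          · exact hjM (Finset.mem_inter.2 ⟨h1, hjb⟩)
        refine hT.col y (hsub hy) j ?_ l hl hne
        rw [uniR_cons]
        intro hj'
        rcases Finset.mem_union.1 hj' with h1 | h1
        · exact hjb h1
        · exact hj (Finset.mem_union_left _ h1)
    have s5 : evG a (atF (G b) K) (evU a (atF L'' K)) (T.cols (M ∩ b.B) c) =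
        evG a (atF (G b) K) (fun X => evU a (atF (L''.flatMap G) K) (X.cols (M ∩ uniR L'') c))
          (T.cols (M ∩ b.B) c) := by
      refine evG_congr a hs (uniR L'') _ hsepG hpwG _ _ ?_ _ hReg
      intro X hX
      refine ih (M ∩ uniR L'') hd.2 (fun d hd' => hG d (List.mem_cons_of_mem _ hd')) ?_
        Finset.inter_subset_right ?_ ?_ X hX
      · intro d hd'
        have := hGs d (List.mem_cons_of_mem _ hd')
        exact ⟨this.1, Finset.disjoint_of_subset_right Finset.inter_subset_left this.2⟩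
      · intro d hd' y hy
        rcases Finset.mem_union.1 (hcov d (List.mem_cons_of_mem _ hd') hy) with h1 | h1
        · exact Finset.mem_union_left _ h1
        · exact Finset.mem_union_right _
            (Finset.mem_inter.2 ⟨h1, (mem_uniR _ _).2 ⟨d, hd', hy⟩⟩)
      · intro d hd' Y hY
        have e : M ∩ uniR L'' ∩ d.B = M ∩ d.B := by
          ext y
          simp only [Finset.mem_inter]
          constructor
          · rintro ⟨⟨h1, -⟩, h3⟩
            exact ⟨h1, h3⟩
          · rintro ⟨h1, h3⟩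
            exact ⟨⟨h1, (mem_uniR _ _).2 ⟨d, hd', h3⟩⟩, h3⟩
        rw [e]
        exact h d (List.mem_cons_of_mem _ hd') Y hY
    have s6 : evG a (atF (G b) K)
          (fun X => evU a (atF (L''.flatMap G) K) (X.cols (M ∩ uniR L'') c))
          (T.cols (M ∩ b.B) c) =
        evU a (atF ((b :: L'').flatMap G) K) ((T.cols (M ∩ b.B) c).cols (M ∩ uniR L'') c) := by
      rw [List.flatMap_cons, atF_append, evU_append]
      refine evG_cols a (M ∩ uniR L'') c (atF (G b) K) ?_ (evU a (atF (L''.flatMap G) K)) _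
      intro d hd'
      exact Finset.disjoint_of_subset_left Finset.inter_subset_right (hsepG d hd').1
    rw [s1, s2, s3, s4, s5, s6]
    congr 1
    refine Trm.ext rfl rfl ?_
    funext i
    simp only [Trm.cols, Finset.mem_inter]
    by_cases hiM : i ∈ M
    · have hi := hM hiM
      rw [uniR_cons] at hi
      rw [if_pos hiM]
      rcases Finset.mem_union.1 hi with h1 | h1
      · by_cases h2 : i ∈ uniR L''
        · rw [if_pos ⟨hiM, h2⟩]
        · rw [if_neg (fun h => h2 h.2), if_pos ⟨hiM, h1⟩]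
      · rw [if_pos ⟨hiM, h1⟩]
    · rw [if_neg (fun h => hiM h.1), if_neg (fun h => hiM h.1), if_neg hiM]

/-- linearity in the column of one vertex outside the blocks. -/
theorem evU_col_add (a : I → I → ℕ) (U : List (Finset I × FFn I)) (j : I) (hj : j ∉ uni U)
    (c d : QE I) (T : Trm I) :
    evU a U (T.col j (c + d)) = evU a U (T.col j c) + evU a U (T.col j d) := by
  induction U generalizing T with
  | nil => simp only [evU_nil]; exact TV_col_add a T j c d
  | cons b U ih =>
    rw [uni_cons, Finset.mem_union, not_or] at hj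
    simp only [evU_cons]
    rw [← List.sum_map_add]
    congr 1
    refine List.map_congr_left ?_
    intro e _
    rw [patT_col_comm a b.1 e.2 j hj.1, patT_col_comm a b.1 e.2 j hj.1,
      patT_col_comm a b.1 e.2 j hj.1, ih hj.2]
    ring

theorem evU_col_smul (a : I → I → ℕ) (U : List (Finset I × FFn I)) (j : I) (hj : j ∉ uni U)
    (r : ℚ) (c : QE I) (T : Trm I) : evU a U (T.col j (r • c)) = r * evU a U (T.col j c) := by
  induction U generalizing T with
  | nil => simp only [evU_nil]; exact TV_col_smul a T j r c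
  | cons b U ih =>
    rw [uni_cons, Finset.mem_union, not_or] at hj
    simp only [evU_cons]
    rw [← List.sum_map_mul_left]
    congr 1
    refine List.map_congr_left ?_
    intro e _
    rw [patT_col_comm a b.1 e.2 j hj.1, patT_col_comm a b.1 e.2 j hj.1, ih hj.2]
    ring

/-- blocks of `L` inside `A`. -/
def inL (L : List (RB I)) (A : Finset I) : List (RB I) :=
  L.filter (fun b => decide (b.B ⊆ A))

theorem mem_inL {L : List (RB I)} {A : Finset I} {b : RB I} :
    b ∈ inL L A ↔ b ∈ L ∧ b.B ⊆ A := by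
  simp only [inL, List.mem_filter, decide_eq_true_eq]

/-- a connected subset which meets a component is contained in it. -/
theorem sub_comp {a : I → I → ℕ} {N A S : Finset I} (hA : A ∈ comps a N)
    (hS : ConnS a S) (hSN : S ⊆ N) {y : I} (hy : y ∈ S) (hyA : y ∈ A) : S ⊆ A := by
  by_contra hcon
  have hne : S ∩ A ≠ S := fun e => hcon (by rw [← e]; exact Finset.inter_subset_right)
  obtain ⟨i, hi, j, hj, hj', hij⟩ :=
    hS.2 (S ∩ A) Finset.inter_subset_left ⟨y, Finset.mem_inter.2 ⟨hy, hyA⟩⟩ hne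
  have hjA : j ∉ A := fun h => hj' (Finset.mem_inter.2 ⟨hj, h⟩)
  have := comps_sep hA i (Finset.mem_inter.1 hi).2 j (hSN hj) hjA
  omega

/-- product over the components. -/
theorem prod_inL (C : Finset (Finset I)) (f : RB I → ℚ) (L : List (RB I))
    (h : ∀ b ∈ L, ∃ A ∈ C, b.B ⊆ A ∧ ∀ A' ∈ C, b.B ⊆ A' → A' = A) :
    ∏ A ∈ C, ((inL L A).map f).prod = (L.map f).prod := by
  induction L with
  | nil => simp [inL]
  | cons b L ih =>
    obtain ⟨A, hA, hbA, hu⟩ := h b List.mem_cons_self
    have e : ∀ A' ∈ C, ((inL (b :: L) A').map f).prod =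
        (if A' = A then f b else 1) * ((inL L A').map f).prod := by
      intro A' hA'
      by_cases hb : b.B ⊆ A'
      · have : A' = A := hu A' hA' hb
        rw [if_pos this]
        simp only [inL]
        rw [List.filter_cons_of_pos (by simpa using hb), List.map_cons, List.prod_cons]
      · have : A' ≠ A := fun e => hb (e ▸ hbA)
        rw [if_neg this, one_mul]
        simp only [inL]
        rw [List.filter_cons_of_neg (by simpa using hb)]
    rw [Finset.prod_congr rfl e, Finset.prod_mul_distrib,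
      ih (fun d hd => h d (List.mem_cons_of_mem _ hd)), Finset.prod_ite_eq' C A, if_pos hA,
      List.map_cons, List.prod_cons]

/-- the column of the chain vertices. -/
noncomputable def cK (u : I → ℕ → ℚ) (K : ℕ) (x : I) : QE I :=
  u x K • sy x (K + 1) - u x (K + 1) • sy x K

theorem cK_apply (u : I → ℕ → ℚ) (K : ℕ) (j x : I) (l : ℕ) (h : x ≠ j) :
    cK u K j (x, l) = 0 := by
  have h1 : ∀ k, (sy j k : QE I) (x, l) = 0 := by
    intro k
    rw [Finsupp.single_apply, if_neg]
    intro e
    exact h (congrArg Prod.fst e).symm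
  simp only [cK, Finsupp.coe_sub, Finsupp.coe_smul, Pi.sub_apply, Pi.smul_apply, h1, smul_zero,
    sub_zero]

theorem L_nodup {a : I → I → ℕ} {L : List (RB I)}
    (hsep : L.Pairwise (fun b c => Sep a b.B c.B)) (hconn : ∀ b ∈ L, ConnS a b.B) : L.Nodup := by
  rw [List.Nodup]
  refine List.Pairwise.imp_of_mem ?_ hsep
  intro b c hb _ hs e
  subst e
  obtain ⟨y, hy⟩ := (hconn b hb).1
  exact Finset.disjoint_left.1 hs.1 hy hy

theorem L_sep {a : I → I → ℕ} (hs : ∀ i j, a i j = a j i) {L : List (RB I)}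
    (hsep : L.Pairwise (fun b c => Sep a b.B c.B)) {b c : RB I} (hb : b ∈ L) (hc : c ∈ L)
    (hne : b ≠ c) : Sep a b.B c.B := by
  have : Std.Symm (fun b c : RB I => Sep a b.B c.B) := ⟨fun b c h => Sep.symm hs h⟩
  exact hsep.forall hb hc hne

end

end Pool.Agent.H27.KAC

end

section

/-!
KAC ADE, module AG13: the response theorem for clusters.

`Resp.combo`: linear combinations.  `Resp.extend`: one more frontier, given by the functional `tau_{L+1}`.
`Resp.const`: if the functional at the frontier `L` is `tau_{L+1}[q]`, the family can be continued by the same functional with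
weights zero up to the frontier `L + mm A - 1` (`cd.rv`).

`UpFam_of_Tau`: `k < mm A`: the zero family, `cd.cr0`; `mm A ≤ k`: `Φ' f = smF (eps) (Φ (min f (k - mm A)))`, `Resp.const`, `cd.cr`.

`OmFam_of_Up` (`M` nonempty): `RPT` with `K = k - 1`, `u x l = k - l`, blocks = the `Up` families of the components of `R \ M`
(`exists_RB_list`, `QOk_sub`), `evU_eval_up`.

`TauFam_all`: strong induction on `A.card`, then on `L`.  `L = 0`: `Φ f = [(1, ⟨0, q⟩)]`.  `L ≥ 1`: the combination of the `OmFam`
families for `M ≠ ∅` and of the `Up` family of `A` for `M = ∅` (`comps_of_conn`) with coefficients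
`(-1)^{|A \ M|} detEff (A \ M) M`; by `PPv_eq` its value at the frontier `L - 1` is `PPv a A L q T`; extend by `Resp.extend`
(`TV_step_split`).  The weights are `cn (L - l)` by `cn_rec`, `cn_zero`.
-/

set_option autoImplicit false

namespace Pool.Agent.H27.KAC

open scoped BigOperators

section

variable {I : Type} [Fintype I] [DecidableEq I]

theorem Resp.congr_w {a : I → I → ℕ} {cd : CrossData a} {B : Finset I} {q : I → ℚ} {K : ℕ}
    {w w' : ℕ → ℚ} {Φ : ℕ → FFn I} (h : Resp a cd B q K w Φ) (hw : ∀ l, l ≤ K → w l = w' l) :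
    Resp a cd B q K w' Φ := by
  refine ⟨h.win, fun T hT => ?_, fun f h1 h2 T hT => ?_, fun f h1 h2 T hT hk => ?_⟩
  · rw [← hw 0 (Nat.zero_le _)]
    exact h.a0 T hT
  · rw [← hw f h2]
    exact h.stp f h1 h2 T hT
  · rw [← hw f h2]
    exact h.knk f h1 h2 T hT hk

theorem AG13_evF_flatMap (a : I → I → ℕ) (B : Finset I) {ι : Type} (S : List ι) (c : ι → ℚ)
    (Φ : ι → FFn I) (T : Trm I) :
    evF a B (S.flatMap (fun i => smF (c i) (Φ i))) T =
      (S.map (fun i => c i * evF a B (Φ i) T)).sum := by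
  induction S with
  | nil => simp [evF]
  | cons i S ih =>
    rw [List.flatMap_cons, evF_append, ih, evF_smF, List.map_cons, List.sum_cons]

theorem AG13_sum_mul {ι : Type} (S : List ι) (F : ι → ℚ) (g : ι → ℚ) (r : ℚ)
    (h : ∀ i ∈ S, F i = g i * r) : (S.map F).sum = (S.map g).sum * r := by
  induction S with
  | nil => simp
  | cons i S ih =>
    rw [List.map_cons, List.sum_cons, List.map_cons, List.sum_cons,
      ih (fun j hj => h j (List.mem_cons_of_mem _ hj)), h i (List.mem_cons_self ..)]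
    ring

theorem AG13_sum_sub {ι : Type} (S : List ι) (F G : ι → ℚ) :
    (S.map F).sum - (S.map G).sum = (S.map (fun i => F i - G i)).sum := by
  induction S with
  | nil => simp
  | cons i S ih =>
    rw [List.map_cons, List.sum_cons, List.map_cons, List.sum_cons, List.map_cons, List.sum_cons,
      ← ih]
    ring

theorem Resp.combo (a : I → I → ℕ) (cd : CrossData a) (B : Finset I) (q : I → ℚ) (K : ℕ)
    {ι : Type} (S : List ι) (c : ι → ℚ) (w : ι → ℕ → ℚ) (Φ : ι → ℕ → FFn I)
    (h : ∀ i ∈ S, Resp a cd B q K (w i) (Φ i)) :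
    Resp a cd B q K (fun l => (S.map (fun i => c i * w i l)).sum)
      (fun f => S.flatMap (fun i => smF (c i) (Φ i f))) ∧
    ∀ f (T : Trm I), evF a B (S.flatMap (fun i => smF (c i) (Φ i f))) T =
      (S.map (fun i => c i * evF a B (Φ i f) T)).sum := by
  have key : ∀ f (T : Trm I), evF a B (S.flatMap (fun i => smF (c i) (Φ i f))) T =
      (S.map (fun i => c i * evF a B (Φ i f) T)).sum :=
    fun f T => AG13_evF_flatMap a B S c (fun i => Φ i f) T
  refine ⟨⟨?_, ?_, ?_, ?_⟩, key⟩
  · intro f hf d hd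
    obtain ⟨i, hi, hd'⟩ := List.mem_flatMap.1 hd
    unfold smF at hd'
    obtain ⟨e, he, rfl⟩ := List.mem_map.1 hd'
    exact (h i hi).win f hf e he
  · intro T hT
    rw [key]
    apply AG13_sum_mul
    intro i hi
    rw [(h i hi).a0 T hT]
    ring
  · intro f h1 h2 T hT
    rw [key, key, AG13_sum_sub]
    apply AG13_sum_mul
    intro i hi
    rw [← mul_sub, (h i hi).stp f h1 h2 T hT]
    ring
  · intro f h1 h2 T hT hk
    rw [key]
    apply AG13_sum_mul
    intro i hi
    rw [(h i hi).knk f h1 h2 T hT hk]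
    ring

theorem AG13_pos {a : I → I → ℕ} (hs : ∀ i j, a i j = a j i) {B : Finset I} {q : I → ℚ}
    (hq : QOk a B q) (hB : FinT a B) (hc : ConnS a B) : ∀ x ∈ B, 0 < q x := by
  refine hB.pos_of_conn hs hc q (fun i hi => ?_) ?_
  · obtain ⟨n, _, hn⟩ := hq i hi
    rw [hn]
    exact Nat.cast_nonneg n
  · obtain ⟨i, hi⟩ := hc.1
    obtain ⟨n, hn1, hn⟩ := hq i hi
    refine ⟨i, hi, ?_⟩
    rw [hn]
    have : n ≠ 0 := by omega
    exact_mod_cast this

theorem AG13_win {a : I → I → ℕ} (hs : ∀ i j, a i j = a j i) (cd : CrossData a) {B : Finset I}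
    {q : I → ℚ} (hq : QOk a B q) (hB : FinT a B) (hc : ConnS a B) (L f : ℕ) (h1 : L ≤ f)
    (h2 : f < L + cd.mm B) : WinPat a cd B q f ⟨fun _ => L, q⟩ := by
  have hpos := AG13_pos hs hq hB hc
  have hins : insS B (⟨fun _ => L, q⟩ : Pat I) = B :=
    Finset.filter_true_of_mem (fun x hx => (hpos x hx).ne')
  have hcomp : comps a (insS B (⟨fun _ => L, q⟩ : Pat I)) = {B} := by
    rw [hins, comps_of_conn hc]
  refine ⟨⟨?_, ?_⟩, ?_, ?_, ?_, ?_, ?_⟩
  · intro A hA
    rw [hcomp, Finset.mem_singleton] at hA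
    rw [hA]
    exact hq
  · intro A _ x _ y _
    rfl
  · intro A _ x _
    exact h1
  · intro A hA x _
    rw [hcomp, Finset.mem_singleton] at hA
    rw [hA]
    exact h2
  · intro x hx h0
    exact absurd h0 (hpos x hx).ne'
  · intro x hx h0
    exact absurd h0 (hpos x hx).ne'
  · intro x _
    exact ⟨0, by simp⟩

theorem AG13_evF_one (a : I → I → ℕ) (B : Finset I) (L : ℕ) (q : I → ℚ) (T : Trm I) :
    evF a B [(1, ⟨fun _ => L, q⟩)] T = TV a (tauT a B L q T) := by
  rw [tauT_eq_patT]
  simp [evF]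

theorem Resp.extend (a : I → I → ℕ) (hs : ∀ i j, a i j = a j i) (cd : CrossData a) (B : Finset I) (q : I → ℚ)
    (hq : QOk a B q) (hB : FinT a B) (hc : ConnS a B) (L : ℕ)
    (hL : 1 ≤ L) (w : ℕ → ℚ) (Φ : ℕ → FFn I) (h : Resp a cd B q (L - 1) w Φ)
    (hstep : ∀ T : Trm I, RReg B T →
      TV a (tauT a B L q T) - evF a B (Φ (L - 1)) T = Rv a B L q T) :
    Resp a cd B q L (fun l => if l = L then 1 else w l)
      (fun f => if f = L then [(1, ⟨fun _ => L, q⟩)] else Φ f) := by
  have h0L : (0 : ℕ) ≠ L := by omega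
  refine ⟨?_, ?_, ?_, ?_⟩
  · intro f hf c hcm
    by_cases hfL : f = L
    · simp only [hfL, if_true, List.mem_singleton] at hcm
      rw [hcm, hfL]
      have := cd.two_le B
      exact AG13_win hs cd hq hB hc L L le_rfl (by omega)
    · simp only [if_neg hfL] at hcm
      exact h.win f (by omega) c hcm
  · intro T hT
    simp only [if_neg h0L]
    exact h.a0 T hT
  · intro f h1 h2 T hT
    have h3 : f - 1 ≠ L := by omega
    by_cases hfL : f = L
    · subst hfL
      simp only [if_true, if_neg h3]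
      rw [AG13_evF_one, one_mul]
      exact hstep T hT
    · simp only [if_neg hfL, if_neg h3]
      exact h.stp f h1 (by omega) T hT
  · intro f h1 h2 T hT hk
    by_cases hfL : f = L
    · subst hfL
      simp only [if_true]
      rw [AG13_evF_one, one_mul]
    · simp only [if_neg hfL]
      exact h.knk f h1 (by omega) T hT hk

theorem Resp.const (a : I → I → ℕ) (hs : ∀ i j, a i j = a j i) (cd : CrossData a) (B : Finset I) (q : I → ℚ)
    (hq : QOk a B q) (hB : FinT a B) (hc : ConnS a B) (L K : ℕ) (hLK : L ≤ K)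
    (hK : K + 1 ≤ L + cd.mm B) (w : ℕ → ℚ) (Φ : ℕ → FFn I)
    (h : Resp a cd B q L w Φ) (hΦ : Φ L = [(1, ⟨fun _ => L, q⟩)]) :
    Resp a cd B q K (fun l => if l ≤ L then w l else 0) (fun f => Φ (min f L)) := by
  refine ⟨?_, ?_, ?_, ?_⟩
  · intro f hf c hcm
    by_cases hfL : f ≤ L
    · simp only [min_eq_left hfL] at hcm
      exact h.win f hfL c hcm
    · simp only [min_eq_right (not_le.1 hfL).le, hΦ, List.mem_singleton] at hcm
      rw [hcm]
      exact AG13_win hs cd hq hB hc L f (by omega) (by omega)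
  · intro T hT
    simp only [Nat.zero_le, if_true, min_eq_left]
    exact h.a0 T hT
  · intro f h1 h2 T hT
    by_cases hfL : f ≤ L
    · have h3 : f - 1 ≤ L := by omega
      simp only [if_pos hfL, min_eq_left hfL, min_eq_left h3]
      exact h.stp f h1 hfL T hT
    · have h3 : L ≤ f - 1 := by omega
      have h4 : L ≤ f := by omega
      simp only [if_neg hfL, min_eq_right h4, min_eq_right h3]
      ring
  · intro f h1 h2 T hT hk
    by_cases hfL : f ≤ L
    · simp only [if_pos hfL, min_eq_left hfL]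
      exact h.knk f h1 hfL T hT hk
    · have h4 : L ≤ f := by omega
      simp only [if_neg hfL, min_eq_right h4, hΦ]
      obtain ⟨y, hy, hy1⟩ := hk
      rw [AG13_evF_one, cd.rv B hB hc L q hq T hT y hy f (by omega) (by omega) hy1, zero_mul]

theorem UpFam_of_Tau (a : I → I → ℕ) (hs : ∀ i j, a i j = a j i) (cd : CrossData a)
    (A : Finset I) (hA : FinT a A) (hc : ConnS a A) (q : I → ℚ) (hq : QOk a A q) (k : ℕ)
    (hk : 1 ≤ k) (h : cd.mm A ≤ k → TauFam a cd A q (k - cd.mm A)) : UpFam a cd A q k := by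
  by_cases hmk : cd.mm A ≤ k
  · obtain ⟨Φ, hΦ, hΦL⟩ := h hmk
    have h2 := cd.two_le A
    have hcst := Resp.const a hs cd A q hq hA hc (k - cd.mm A) (k - 1) (by omega) (by omega) _ Φ
      hΦ hΦL
    obtain ⟨hr, hev⟩ := Resp.combo a cd A q (k - 1) [()] (fun _ => cd.eps A q)
      (fun _ l => if l ≤ k - cd.mm A then cn a cd A q (k - cd.mm A - l) else 0)
      (fun _ f => Φ (min f (k - cd.mm A))) (fun _ _ => hcst)
    refine ⟨_, hr.congr_w ?_, ?_⟩
    · intro l hl
      simp only [List.map_cons, List.map_nil, List.sum_cons, List.sum_nil, add_zero, upw]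
      by_cases h3 : l ≤ k - cd.mm A
      · have h4 : cd.mm A ≤ k - l := by omega
        have h5 : k - l - cd.mm A = k - cd.mm A - l := by omega
        rw [if_pos h3, if_pos h4, h5]
      · have h4 : ¬ cd.mm A ≤ k - l := by omega
        rw [if_neg h3, if_neg h4, mul_zero]
    · intro T hT
      rw [hev]
      have h6 : min (k - 1) (k - cd.mm A) = k - cd.mm A := by omega
      simp only [List.map_cons, List.map_nil, List.sum_cons, List.sum_nil, add_zero, h6, hΦL]
      rw [AG13_evF_one, cd.cr A hA hc k q hq T hT hmk]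
  · refine ⟨fun _ => [], ⟨?_, ?_, ?_, ?_⟩, ?_⟩
    · intro f _ c hcm
      simp at hcm
    · intro T _
      have h1 : ¬ cd.mm A ≤ k - 0 := by omega
      simp only [upw, if_neg h1, evF_nil, zero_mul]
    · intro f h1 h2 T _
      have h1 : ¬ cd.mm A ≤ k - f := by omega
      simp only [upw, if_neg h1, evF_nil, zero_mul, sub_self]
    · intro f h1 h2 T _ _
      have h1 : ¬ cd.mm A ≤ k - f := by omega
      simp only [upw, if_neg h1, evF_nil, zero_mul]
    · intro T hT
      rw [evF_nil, cd.cr0 A hA hc k q hq T hT hk (by omega)]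

end

end Pool.Agent.H27.KAC

end

section

/-!
KAC ADE, module AG8: events and the no-pole lemma (NP).

`evU_event`: `evU_cons'` (or `evU_eq_evF` for the tail) and `Resp.stp` for the terms `patT a (uni U) c.2 T`, which are `RReg b.B`
(`RReg_patT`, `hins`); the bound `bnd b.B f q` of these terms is the one of `T` (the patterns change `γ` only on `uni U`);
`rawT_patT_comm`.

`NP_list`: induction on `f`.  `f = 0`: `Resp.a0` for all blocks, then all insertions are at level `0`, `TV_van` in direction `s`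
(`DReg` only concerns the levels `≥ 1`).  Step: replace `Φ_b f` by `Φ_b (f-1)` block after block (`evU_event`, `evU_perm`), every
difference is a sum of terms `evU others (rawT b.B f q m T)`; these vanish by `raw_kill` (`z = s`; `hI2` from `hZ` and
`WinPat.cls`).

`NP_up`: `L` = the components of `N` adjacent to `s`, `N'` = the union of the others; `NP_list` for `T' = upT a N' k q T` at `f = k - 1`.
-/

set_option autoImplicit false

namespace Pool.Agent.H27.KAC

open scoped BigOperators

section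

variable {I : Type} [Fintype I] [DecidableEq I]

open Classical in
/-- one event is zero. -/
theorem AG8_event_zero (a : I → I → ℕ) (hs : ∀ i j, a i j = a j i) (cd : CrossData a) (q : I → ℚ)
    (K : ℕ) (b : RB I) (L1 L2 : List (RB I)) (hfin : ∀ c ∈ b :: (L1 ++ L2), FinT a c.B)
    (hconn : ConnS a b.B) (hq : QOk a b.B q)
    (hd : (b :: (L1 ++ L2)).Pairwise (fun b c => Sep a b.B c.B))
    (hresp : ∀ c ∈ b :: (L1 ++ L2), Resp a cd c.B q K c.w c.Φ) (s : I)
    (hsL : s ∉ uniR (b :: (L1 ++ L2)))
    (hss : a s s = 0) (hadj : ∃ y ∈ b.B, 0 < a s y)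
    (hZ : IsZ (∑ y ∈ uniR (b :: (L1 ++ L2)), (a s y : ℚ) * q y)) (T : Trm I)
    (hT : RReg (uniR (b :: (L1 ++ L2))) T)
    (hN : ∀ l, 1 ≤ l → IsN (T.E (s, l)))
    (hcol : ∀ j, j ∉ uniR (b :: (L1 ++ L2)) → ∀ l, 1 ≤ l → T.Λ j (s, l) ≠ 0 → 1 ≤ T.E (s, l))
    (f : ℕ) (hf : f + 1 ≤ K) :
    evU a ((b.B, b.Φ (f + 1)) :: (atF L1 (f + 1) ++ atF L2 f)) T =
      evU a ((b.B, b.Φ f) :: (atF L1 (f + 1) ++ atF L2 f)) T := by
  have hd' := List.pairwise_cons.1 hd
  have huni : uni (atF L1 (f + 1) ++ atF L2 f) = uniR (L1 ++ L2) := by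
    rw [AG8_uni_append, uni_atF, uni_atF, AG8_uniR_append]
  have hS : Sep a b.B (uniR (L1 ++ L2)) := AG8_sep_uniR a b.B (L1 ++ L2) hd'.1
  have hSepU : (atF L1 (f + 1) ++ atF L2 f).Pairwise (fun b c => Sep a b.1 c.1) := by
    have h12 := List.pairwise_append.1 hd'.2
    rw [List.pairwise_append]
    refine ⟨?_, ?_, ?_⟩
    · exact List.pairwise_map.2 h12.1
    · exact List.pairwise_map.2 h12.2.1
    · intro x hx y hy
      obtain ⟨x', hx', rfl⟩ := List.mem_map.1 hx
      obtain ⟨y', hy', rfl⟩ := List.mem_map.1 hy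
      exact h12.2.2 x' hx' y' hy'
  have hDU : (atF L1 (f + 1) ++ atF L2 f).Pairwise (fun b c => Disjoint b.1 c.1) :=
    hSepU.imp (fun h => h.1)
  have hmemU : ∀ c ∈ (atF L1 (f + 1) ++ atF L2 f), ∃ c' ∈ L1 ++ L2, c.1 = c'.B ∧
      (∀ d ∈ c.2, PatWide a cd c.1 (f + 1) d.2) ∧ (∀ d ∈ c.2, ∀ x ∈ c.1, IsZ (d.2.q x - q x)) := by
    intro c hc
    rcases List.mem_append.1 hc with h | h
    · obtain ⟨c', hc', rfl⟩ := List.mem_map.1 h
      have hm : c' ∈ L1 ++ L2 := List.mem_append_left _ hc'
      have hr := hresp c' (List.mem_cons_of_mem b hm)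
      exact ⟨c', hm, rfl, fun d hd => (hr.win (f + 1) hf d hd).wide,
        fun d hd => (hr.win (f + 1) hf d hd).cls⟩
    · obtain ⟨c', hc', rfl⟩ := List.mem_map.1 h
      have hm : c' ∈ L1 ++ L2 := List.mem_append_right _ hc'
      have hr := hresp c' (List.mem_cons_of_mem b hm)
      exact ⟨c', hm, rfl, fun d hd => (hr.win f (by omega) d hd).wide_succ,
        fun d hd => (hr.win f (by omega) d hd).cls⟩
  have hUfin : FinT a (uni (atF L1 (f + 1) ++ atF L2 f)) := by
    refine AG8_FinT_uni a hs _ ?_ hSepU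
    intro c hc
    obtain ⟨c', hc', h1, -⟩ := hmemU c hc
    rw [h1]
    exact hfin c' (List.mem_cons_of_mem b hc')
  have hev := evU_event a hs cd q K b (hresp b List.mem_cons_self) (f + 1) (by omega) hf
    (atF L1 (f + 1) ++ atF L2 f) (by
      intro c hc
      obtain ⟨c', hc', h1, -⟩ := hmemU c hc
      rw [h1]
      exact (hd'.1 c' hc').1) hDU (by
      intro c _ x hx y hy _
      rw [huni] at hy
      exact hS.2 x hx y hy) T (by rw [huni]; exact hT) (bnd b.B (f + 1) q T) le_rfl
  rw [Nat.add_sub_cancel] at hev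
  rw [← sub_eq_zero, hev]
  refine mul_eq_zero_of_right _ (Finset.sum_eq_zero ?_)
  intro m hm
  refine mul_eq_zero_of_right _ ?_
  rw [evU_eq_evF a _ hDU]
  unfold evF
  refine List.sum_eq_zero ?_
  intro z hz
  obtain ⟨c, hc, rfl⟩ := List.mem_map.1 hz
  refine mul_eq_zero_of_right _ ?_
  have hsL' : s ∉ b.B ∧ s ∉ uniR (L1 ++ L2) := by
    rw [AG8_uniR_cons, Finset.mem_union, not_or] at hsL
    exact hsL
  have hmn : ¬ Plat b.B q m := (Finset.mem_filter.1 hm).2
  refine raw_kill a hs cd (f + 1) (by omega) b.B (hfin b List.mem_cons_self) hconn q hq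
    (uni (atF L1 (f + 1) ++ atF L2 f)) hUfin (by rw [huni]; exact hS) c.2
    (PatWide_prodF a hs cd (f + 1) _ hSepU (fun b' hb' => by
      obtain ⟨c', hc', h1, h2, -⟩ := hmemU b' hb'
      exact h2) c hc) T (by rw [huni]; exact hT) m hmn s hsL'.1 (by rw [huni]; exact hsL'.2) hss hadj
    hN ?_ ?_
  · have h1 : ∀ x ∈ uni (atF L1 (f + 1) ++ atF L2 f), IsZ (c.2.q x - q x) := by
      intro x hx
      obtain ⟨b', hb', hxb⟩ := (mem_uni _ x).1 hx
      obtain ⟨d, hd, hdx⟩ := prodF_mem _ hDU c hc b' hb'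
      obtain ⟨c', hc', h2, -, h3⟩ := hmemU b' hb'
      rw [(hdx x hxb).2]
      exact h3 d hd x hxb
    have h2 : ∑ x ∈ b.B, (a s x : ℚ) * q x +
        ∑ x ∈ uni (atF L1 (f + 1) ++ atF L2 f), (a s x : ℚ) * c.2.q x =
        ∑ y ∈ uniR (b :: (L1 ++ L2)), (a s y : ℚ) * q y +
        ∑ x ∈ uni (atF L1 (f + 1) ++ atF L2 f), (a s x : ℚ) * (c.2.q x - q x) := by
      rw [AG8_uniR_cons, Finset.sum_union hS.1, ← huni]
      simp only [mul_sub, Finset.sum_sub_distrib]
      ring
    rw [h2]
    obtain ⟨n, hn⟩ := hZ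
    choose! g hg using h1
    refine ⟨n + ∑ x ∈ uni (atF L1 (f + 1) ++ atF L2 f), (a s x : ℤ) * g x, ?_⟩
    rw [hn]
    push_cast
    congr 1
    refine Finset.sum_congr rfl ?_
    intro x hx
    rw [hg x hx]
  · intro j hj hjU l hl hne
    right
    refine hcol j ?_ l hl hne
    rw [AG8_uniR_cons, Finset.mem_union, not_or]
    rw [huni] at hjU
    exact ⟨hj, hjU⟩

theorem NP_list (a : I → I → ℕ) (hs : ∀ i j, a i j = a j i) (cd : CrossData a) (q : I → ℚ)
    (K : ℕ) (L : List (RB I)) (hfin : ∀ b ∈ L, FinT a b.B)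
    (hconn : ∀ b ∈ L, ConnS a b.B) (hq : ∀ b ∈ L, QOk a b.B q)
    (hd : L.Pairwise (fun b c => Sep a b.B c.B))
    (hresp : ∀ b ∈ L, Resp a cd b.B q K b.w b.Φ) (s : I) (hsL : s ∉ uniR L)
    (hss : a s s = 0) (hadj : ∀ b ∈ L, ∃ y ∈ b.B, 0 < a s y)
    (hZ : IsZ (∑ y ∈ uniR L, (a s y : ℚ) * q y)) (T : Trm I) (hT : RReg (uniR L) T)
    (hN : ∀ l, 1 ≤ l → IsN (T.E (s, l)))
    (hcol : ∀ j, j ∉ uniR L → ∀ l, 1 ≤ l → T.Λ j (s, l) ≠ 0 → 1 ≤ T.E (s, l))
    (f : ℕ) (hf : f ≤ K) : evU a (atF L f) T = 0 := by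
  induction f with
  | zero =>
    rw [evU_a0 a hs cd q K L hd hresp T hT, AG8_lev0 a hs (uniR L) q s hsL hss T hN hcol, mul_zero]
  | succ f ih =>
    have key : ∀ L2 L1 : List (RB I), L1 ++ L2 = L →
        evU a (atF L1 (f + 1) ++ atF L2 f) T = evU a (atF L (f + 1)) T := by
      intro L2
      induction L2 with
      | nil =>
        intro L1 h1
        rw [List.append_nil] at h1
        rw [h1]
        simp [atF]
      | cons b L2 ih2 =>
        intro L1 h1
        have h2 := ih2 (L1 ++ [b]) (by rw [← h1]; simp)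
        rw [← h2]
        have hp : (L1 ++ b :: L2).Perm (b :: (L1 ++ L2)) := List.perm_middle
        have hmem : ∀ c, c ∈ b :: (L1 ++ L2) → c ∈ L := by
          intro c hc
          rw [← h1]
          exact hp.symm.subset hc
        have hbL : b ∈ L := hmem b List.mem_cons_self
        have hu : uniR (b :: (L1 ++ L2)) = uniR L := by
          rw [← h1, AG8_uniR_append, AG8_uniR_cons, AG8_uniR_cons, AG8_uniR_append]
          ext x
          simp only [Finset.mem_union]
          tauto
        have hd2 : (b :: (L1 ++ L2)).Pairwise (fun b c => Sep a b.B c.B) := by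
          rw [← h1] at hd
          exact hp.pairwise hd (fun {x y} h => Sep.symm hs h)
        have hpe : ∀ Φ : FFn I, evU a (atF L1 (f + 1) ++ (b.B, Φ) :: atF L2 f) T =
            evU a ((b.B, Φ) :: (atF L1 (f + 1) ++ atF L2 f)) T := by
          intro Φ
          refine evU_perm a _ _ List.perm_middle ?_ T
          have h3 : ((b.B, Φ) :: (atF L1 (f + 1) ++ atF L2 f)).Pairwise
              (fun b c => Disjoint b.1 c.1) := by
            have hd3 := List.pairwise_cons.1 hd2
            have h12 := List.pairwise_append.1 hd3.2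
            rw [List.pairwise_cons, List.pairwise_append]
            refine ⟨?_, ?_, ?_, ?_⟩
            · intro c hc
              rcases List.mem_append.1 hc with h | h
              · obtain ⟨c', hc', rfl⟩ := List.mem_map.1 h
                exact (hd3.1 c' (List.mem_append_left _ hc')).1
              · obtain ⟨c', hc', rfl⟩ := List.mem_map.1 h
                exact (hd3.1 c' (List.mem_append_right _ hc')).1
            · exact List.pairwise_map.2 (h12.1.imp (fun h => h.1))
            · exact List.pairwise_map.2 (h12.2.1.imp (fun h => h.1))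
            · intro x hx y hy
              obtain ⟨x', hx', rfl⟩ := List.mem_map.1 hx
              obtain ⟨y', hy', rfl⟩ := List.mem_map.1 hy
              exact (h12.2.2 x' hx' y' hy').1
          exact (List.Perm.pairwise (List.perm_middle (a := (b.B, Φ))).symm h3
            (fun {x y} h => h.symm))
        have h4 : atF (L1 ++ [b]) (f + 1) ++ atF L2 f =
            atF L1 (f + 1) ++ (b.B, b.Φ (f + 1)) :: atF L2 f := by
          simp [atF]
        rw [h4, AG8_atF_cons, hpe, hpe]
        exact (AG8_event_zero a hs cd q K b L1 L2 (fun c hc => hfin c (hmem c hc)) (hconn b hbL)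
          (hq b hbL) hd2 (fun c hc => hresp c (hmem c hc)) s (by rw [hu]; exact hsL) hss
          (hadj b hbL) (by rw [hu]; exact hZ) T (by rw [hu]; exact hT) hN
          (by rw [hu]; exact hcol) f hf).symm
    rw [← key L [] rfl]
    exact ih (by omega)

theorem NP_up (a : I → I → ℕ) (hs : ∀ i j, a i j = a j i) (cd : CrossData a) (N : Finset I)
    (hN : FinT a N) (q : I → ℚ) (hq : QOk a N q) (k : ℕ) (hk : 1 ≤ k)
    (hfam : ∀ A ∈ comps a N, UpFam a cd A q k) (s : I) (hsN : s ∉ N) (hss : a s s = 0)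
    (hZ : IsZ (∑ y ∈ N, (a s y : ℚ) * q y)) (T : Trm I) (hT : RReg N T)
    (hNs : ∀ l, 1 ≤ l → IsN (T.E (s, l)))
    (hcol : ∀ j, j ∉ N → ∀ l, 1 ≤ l → T.Λ j (s, l) ≠ 0 → 1 ≤ T.E (s, l)) :
    TV a (upT a N k q T) = 0 := by
  classical
  obtain ⟨L, hL1, -, hL3, hL4, -⟩ := exists_RB_list a hs N
    (fun A w Φ => Resp a cd A q (k - 1) w Φ ∧
      ∀ T : Trm I, RReg A T → evF a A (Φ (k - 1)) T = TV a (upT a A k q T))
    (fun A hA => by
      obtain ⟨Φ, h1, h2⟩ := hfam A hA
      exact ⟨_, Φ, h1, h2⟩)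
  obtain ⟨L', hL'⟩ : ∃ L', L' = L.filter (fun b => decide (∃ y ∈ b.B, 0 < a s y)) := ⟨_, rfl⟩
  obtain ⟨L'', hL''⟩ : ∃ L'', L'' = L.filter (fun b => decide (¬ ∃ y ∈ b.B, 0 < a s y)) := ⟨_, rfl⟩
  have hm' : ∀ b, b ∈ L' ↔ b ∈ L ∧ ∃ y ∈ b.B, 0 < a s y := by
    intro b
    rw [hL', List.mem_filter, decide_eq_true_iff]
  have hm'' : ∀ b, b ∈ L'' ↔ b ∈ L ∧ ¬ ∃ y ∈ b.B, 0 < a s y := by
    intro b
    rw [hL'', List.mem_filter, decide_eq_true_iff]
  have hU : N = uniR L' ∪ uniR L'' := by
    rw [← hL4]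
    ext x
    rw [Finset.mem_union, mem_uniR, mem_uniR, mem_uniR]
    constructor
    · rintro ⟨b, hb, hx⟩
      by_cases h : ∃ y ∈ b.B, 0 < a s y
      · exact Or.inl ⟨b, (hm' b).2 ⟨hb, h⟩, hx⟩
      · exact Or.inr ⟨b, (hm'' b).2 ⟨hb, h⟩, hx⟩
    · rintro (⟨b, hb, hx⟩ | ⟨b, hb, hx⟩)
      · exact ⟨b, ((hm' b).1 hb).1, hx⟩
      · exact ⟨b, ((hm'' b).1 hb).1, hx⟩
  have hsep : Sep a (uniR L') (uniR L'') := by
    have h0 : ∀ b ∈ L', ∀ c ∈ L'', Sep a b.B c.B := by
      intro b hb c hc
      have hb1 := (hm' b).1 hb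
      have hc1 := (hm'' c).1 hc
      have hne : b.B ≠ c.B := fun h => hc1.2 (h ▸ hb1.2)
      exact ⟨comps_disjoint hs (hL1 b hb1.1).1 (hL1 c hc1.1).1 hne,
        comps_nonadj hs (hL1 b hb1.1).1 (hL1 c hc1.1).1 hne⟩
    have h1 : ∀ c ∈ L'', Sep a (uniR L') c.B := by
      intro c hc
      exact Sep.symm hs (AG8_sep_uniR a c.B L' (fun b hb => Sep.symm hs (h0 b hb c hc)))
    exact AG8_sep_uniR a _ L'' h1
  have hs'' : ∀ y ∈ uniR L'', a s y = 0 := by
    intro y hy
    obtain ⟨b, hb, hyb⟩ := (mem_uniR L'' y).1 hy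
    have h1 := ((hm'' b).1 hb).2
    by_contra h
    exact h1 ⟨y, hyb, Nat.pos_of_ne_zero h⟩
  have hsN' : s ∉ uniR L' ∧ s ∉ uniR L'' := by
    rw [hU, Finset.mem_union, not_or] at hsN
    exact hsN
  have hE : ∀ l, (upT a (uniR L'') k q T).E (s, l) = T.E (s, l) := by
    intro l
    rw [blkT_E]
    have h1 : ∑ x ∈ uniR L'', q x * (cart a x s : ℚ) = 0 := by
      refine Finset.sum_eq_zero ?_
      intro x hx
      have h2 : cart a x s = 0 := by
        unfold cart
        have h3 : x ≠ s := fun h => hsN'.2 (h ▸ hx)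
        rw [if_neg h3, hs x s, hs'' x hx]
        simp
      rw [h2]
      simp
    rw [h1]
    simp
  have hstep : upT a N k q T = upT a (uniR L') k q (upT a (uniR L'') k q T) := by
    conv_lhs => rw [hU]
    exact blkT_union a (uniR L') (uniR L'') hsep.1 k (k - 1) q T
  have hd' : L'.Pairwise (fun b c => Sep a b.B c.B) := by
    rw [hL']
    exact hL3.filter _
  have hT' : RReg (uniR L') (upT a (uniR L'') k q T) :=
    RReg_blkT a hs (uniR L') (uniR L'') hsep k (k - 1) q T (by rw [← hU]; exact hT)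
  rw [hstep, ← evU_eval_up a hs q k (k - 1) L' hd'
    (fun b hb T hT => (hL1 b ((hm' b).1 hb).1).2.2 T hT) _ hT']
  refine NP_list a hs cd q (k - 1) L' ?_ ?_ ?_ hd'
    (fun b hb => (hL1 b ((hm' b).1 hb).1).2.1) s hsN'.1 hss (fun b hb => ((hm' b).1 hb).2) ?_
    _ hT' ?_ ?_ (k - 1) le_rfl
  · intro b hb
    exact hN.mono (comps_subset (hL1 b ((hm' b).1 hb).1).1)
  · intro b hb
    exact comps_conn (hL1 b ((hm' b).1 hb).1).1
  · intro b hb x hx
    have hbc := (hL1 b ((hm' b).1 hb).1).1
    obtain ⟨n, hn1, hn2⟩ := hq x (comps_subset hbc hx)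
    refine ⟨n, hn1, ?_⟩
    rw [← hn2]
    unfold cqN
    refine Finset.sum_subset (comps_subset hbc) ?_
    intro j hj hjb
    have h1 : cart a x j = 0 := by
      unfold cart
      have h3 : x ≠ j := fun h => hjb (h ▸ hx)
      rw [if_neg h3, comps_sep hbc x hx j hj hjb]
      simp
    rw [h1]
    simp
  · have h1 : ∑ y ∈ uniR L', (a s y : ℚ) * q y = ∑ y ∈ N, (a s y : ℚ) * q y := by
      rw [hU, Finset.sum_union hsep.1]
      have h2 : ∑ y ∈ uniR L'', (a s y : ℚ) * q y = 0 := by
        refine Finset.sum_eq_zero ?_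
        intro y hy
        rw [hs'' y hy]
        simp
      rw [h2, add_zero]
    rw [h1]
    exact hZ
  · intro l hl
    rw [hE l]
    exact hNs l hl
  · intro j hj l hl hne
    rw [hE l]
    by_cases hj2 : j ∈ uniR L''
    · exfalso
      apply hne
      change (if j ∈ uniR L'' then sy j (k - 1) else T.Λ j) (s, l) = 0
      rw [if_pos hj2]
      have hjs : j ≠ s := fun h => hsN'.2 (h ▸ hj2)
      exact Finsupp.single_eq_of_ne (fun h => hjs (congrArg Prod.fst h).symm)
    · change (if j ∈ uniR L'' then sy j (k - 1) else T.Λ j) (s, l) ≠ 0 at hne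
      rw [if_neg hj2] at hne
      refine hcol j ?_ l hl hne
      rw [hU, Finset.mem_union, not_or]
      exact ⟨hj, hj2⟩

end

end Pool.Agent.H27.KAC

end

section

/-!
KAC ADE, module AG11: the plateau part.

`PPv_sum`: the plateau multiplicities are `m = q` on a set `M` with `q` integral on `M` (then `q x ≥ 1` is a natural number) and
`m = 0` on `R \ M`; the raw term is `upT a (R \ M) k q (T.cols M (fun x => cE a x k))` (the insertion exponent `m - q` is `0` on `M`).
If some `q x`, `x ∈ M`, is larger than `bnd R k q T`, then `T.γ x < 0` and the value is zero (`TV_neg`).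

`om_det`: `N = R \ M`.  By `TV_thE` replace the columns `cE a x k`, `x ∈ M`, by `thE a N k x = ∑_{i ∉ N} cEff a N i x • sy i k`
(`thE_apply`, `thE_apply_mem`); expand all columns (`TV_col_sum` or `MultilinearMap`): functions `g : M → I \ N`.  If `g` is not
injective two columns are equal (`TV_alt`).  If some `s ∈ M` is not in the image of `g`, the value vanishes by `NP_up` for `s`
(`hZ`: `∑_{y ∈ N} a s y q y = 2 q s - ∑_{y ∈ M, y ≠ s} a s y q y - (C_R q)_s` is an integer).  The remaining `g` are the permutations of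
`M` (`TV_perm`), their sum is the determinant `detEff`.
-/

set_option autoImplicit false

namespace Pool.Agent.H27.KAC

open scoped BigOperators

section

variable {I : Type} [Fintype I] [DecidableEq I]

/-- columns `(x,k)` on `M`, `Up_k[q]` on `R ∖ M`. -/
noncomputable def omT (a : I → I → ℕ) (R M : Finset I) (k : ℕ) (q : I → ℚ) (T : Trm I) : Trm I :=
  upT a (R \ M) k q (T.cols M (fun x => sy x k))

/-- positivity of an admissible class. -/
theorem AG11_pos (a : I → I → ℕ) (hs : ∀ i j, a i j = a j i) (R : Finset I) (hR : FinT a R)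
    (q : I → ℚ) (hq : QOk a R q) : ∀ x ∈ R, 0 < q x := by
  intro x hx
  have h1 : ∀ i ∈ R, 0 ≤ cqN a R q i := by
    intro i hi
    obtain ⟨n, hn, he⟩ := hq i hi
    rw [he]; positivity
  have h2 : 0 < cqN a R q x := by
    obtain ⟨n, hn, he⟩ := hq x hx
    rw [he]; exact_mod_cast hn
  have := solN_pos_self hs hR (cqN a R q) h1 x hx h2
  rwa [solN_cqN hs hR q x hx] at this

/-- the plateau multiplicity of `M`. -/
noncomputable def AG11_m (q : I → ℚ) (M : Finset I) : I → ℕ := fun x => if x ∈ M then ⌊q x⌋₊ else 0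

theorem AG11_m_cast (a : I → I → ℕ) (hs : ∀ i j, a i j = a j i) (R : Finset I) (hR : FinT a R)
    (q : I → ℚ) (hq : QOk a R q) (M : Finset I) (hM : M ⊆ R) (hMz : ∀ x ∈ M, IsZ (q x)) (x : I)
    (hx : x ∈ M) : ((AG11_m q M x : ℕ) : ℚ) = q x ∧ AG11_m q M x ≠ 0 := by
  have hp := AG11_pos a hs R hR q hq x (hM hx)
  obtain ⟨n, hn⟩ := hMz x hx
  have hn0 : 0 < n := by
    rw [hn] at hp; exact_mod_cast hp
  obtain ⟨m, rfl⟩ := Int.eq_ofNat_of_zero_le hn0.le
  have h1 : q x = (m : ℚ) := by rw [hn]; push_cast; rfl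
  have h2 : AG11_m q M x = m := by
    unfold AG11_m
    rw [if_pos hx, h1, Nat.floor_natCast]
  rw [h2]
  refine ⟨h1.symm, ?_⟩
  have : 0 < m := by exact_mod_cast hn0
  omega

/-- the raw term of a plateau. -/
theorem AG11_raw (a : I → I → ℕ) (R : Finset I) (k : ℕ) (q : I → ℚ) (m : I → ℕ) (T : Trm I)
    (hm : Plat R q m) :
    rawT a R k q m T = upT a (R \ R.filter (fun x => m x ≠ 0)) k q
      (T.cols (R.filter (fun x => m x ≠ 0)) (fun x => cE a x k)) := by
  have hδ : (fun i => if i ∈ R then (m i : ℚ) - q i else 0) =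
      (fun i => -resQ (R \ R.filter (fun x => m x ≠ 0)) q i) := by
    funext i
    unfold resQ
    by_cases hi : i ∈ R
    · by_cases h0 : m i = 0
      · simp [hi, h0]
      · have := (hm i hi).resolve_left h0
        simp [hi, h0, this]
    · simp [hi]
  unfold rawT upT blkT
  rw [hδ]
  ext1
  · rfl
  · rfl
  · funext i
    simp only [Trm.cols, Trm.eta, Finset.mem_sdiff, Finset.mem_filter]
    by_cases hi : i ∈ R
    · by_cases h0 : m i = 0
      · simp [hi, h0]
      · simp [hi, h0]
    · simp [hi]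

open Classical in
theorem PPv_sum (a : I → I → ℕ) (hs : ∀ i j, a i j = a j i) (R : Finset I) (hR : FinT a R) (k : ℕ)
    (hk : 1 ≤ k) (q : I → ℚ) (hq : QOk a R q) (T : Trm I) :
    PPv a R k q T = ∑ M ∈ R.powerset.filter (fun M => ∀ x ∈ M, IsZ (q x)),
      (-1 : ℚ) ^ (R \ M).card * TV a (upT a (R \ M) k q (T.cols M (fun x => cE a x k))) := by
  unfold PPv
  rw [← sum_raw_bound a R k hk q T (fun m => Plat R q m) (bnd R k q T + ∑ i ∈ R, ⌊q i⌋₊)
    (Nat.le_add_right _ _)]
  refine Finset.sum_nbij' (fun m => R.filter (fun x => m x ≠ 0)) (fun M => AG11_m q M) ?_ ?_ ?_ ?_ ?_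
  · intro m hm
    rw [Finset.mem_filter] at hm
    simp only [Finset.mem_filter, Finset.mem_powerset]
    refine ⟨Finset.filter_subset _ _, ?_⟩
    rintro x ⟨hx, h0⟩
    have := (hm.2 x hx).resolve_left h0
    exact ⟨(m x : ℤ), by rw [← this]; push_cast; rfl⟩
  · intro M hM
    simp only [Finset.mem_filter, Finset.mem_powerset] at hM
    rw [Finset.mem_filter]
    refine ⟨?_, ?_⟩
    · unfold mbox
      rw [Fintype.mem_piFinset]
      intro i
      by_cases hi : i ∈ R
      · rw [if_pos hi, Finset.mem_range]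
        unfold AG11_m
        split_ifs
        · have : ⌊q i⌋₊ ≤ ∑ i ∈ R, ⌊q i⌋₊ :=
            Finset.single_le_sum (f := fun i => ⌊q i⌋₊) (fun _ _ => Nat.zero_le _) hi
          omega
        · omega
      · rw [if_neg hi, Finset.mem_singleton]
        unfold AG11_m
        rw [if_neg (fun h => hi (hM.1 h))]
    · intro x hx
      by_cases hxM : x ∈ M
      · exact Or.inr (AG11_m_cast a hs R hR q hq M hM.1 hM.2 x hxM).1
      · left
        unfold AG11_m
        rw [if_neg hxM]
  · intro m hm
    rw [Finset.mem_filter] at hm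
    funext x
    unfold AG11_m
    by_cases hx : x ∈ R
    · by_cases h0 : m x = 0
      · simp [h0]
      · have := (hm.2 x hx).resolve_left h0
        simp only [Finset.mem_filter]
        rw [if_pos ⟨hx, h0⟩, ← this, Nat.floor_natCast]
    · have h1 := hm.1
      unfold mbox at h1
      rw [Fintype.mem_piFinset] at h1
      have h2 := h1 x
      rw [if_neg hx, Finset.mem_singleton] at h2
      rw [h2]
      simp [hx]
  · intro M hM
    simp only [Finset.mem_filter, Finset.mem_powerset] at hM
    ext x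
    simp only [Finset.mem_filter]
    constructor
    · rintro ⟨hx, h0⟩
      by_contra hxM
      exact h0 (by unfold AG11_m; rw [if_neg hxM])
    · intro hxM
      exact ⟨hM.1 hxM, (AG11_m_cast a hs R hR q hq M hM.1 hM.2 x hxM).2⟩
  · intro m hm
    rw [Finset.mem_filter] at hm
    rw [AG11_raw a R k q m T hm.2]
    congr 1
    unfold sgm
    congr 2
    ext x
    simp only [Finset.mem_sdiff, Finset.mem_filter]
    tauto

/-- the columns on `M` given by a function on the subtype. -/
noncomputable def AG11_c (M : Finset I) (T : Trm I) (c : {x // x ∈ M} → QE I) : Trm I :=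
  ⟨T.γ, T.E, fun i => if h : i ∈ M then c ⟨i, h⟩ else T.Λ i⟩

theorem AG11_c_update (M : Finset I) (T : Trm I) (c : {x // x ∈ M} → QE I) (j : {x // x ∈ M})
    (v : QE I) : AG11_c M T (Function.update c j v) = (AG11_c M T c).col j.1 v := by
  ext1
  · rfl
  · rfl
  · funext i
    simp only [AG11_c, Trm.col]
    by_cases hi : i ∈ M
    · by_cases hij : i = j.1
      · subst hij
        simp [hi]
      · have h1 : (⟨i, hi⟩ : {x // x ∈ M}) ≠ j := by
          intro h
          exact hij (by rw [← h])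
        rw [dif_pos hi, Function.update_of_ne h1, Function.update_of_ne hij, dif_pos hi]
    · have hij : i ≠ j.1 := fun h => hi (h ▸ j.2)
      rw [dif_neg hi, Function.update_of_ne hij, dif_neg hi]

/-- the value as a multilinear function of the columns on `M`. -/
noncomputable def AG11_mul (a : I → I → ℕ) (M : Finset I) (T : Trm I) :
    MultilinearMap ℚ (fun _ : {x // x ∈ M} => QE I) ℚ where
  toFun c := TV a (AG11_c M T c)
  map_update_add' := by
    intro inst c j v w
    cases Subsingleton.elim inst (Subtype.instDecidableEq)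
    rw [AG11_c_update, AG11_c_update, AG11_c_update, TV_col_add]
  map_update_smul' := by
    intro inst c j r v
    cases Subsingleton.elim inst (Subtype.instDecidableEq)
    rw [AG11_c_update, AG11_c_update, TV_col_smul, smul_eq_mul]

/-- exponents of the `Up` term. -/
theorem AG11_upE (a : I → I → ℕ) (hs : ∀ i j, a i j = a j i) (N : Finset I) (k : ℕ) (q : I → ℚ)
    (T : Trm I) (i : I) (l : ℕ) :
    (upT a N k q T).E (i, l) = T.E (i, l) + if l = k then cqN a N q i else 0 := by
  unfold upT
  rw [blkT_E]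
  congr 1
  split_ifs
  · unfold cqN
    refine Finset.sum_congr rfl fun y _ => ?_
    have : cart a y i = cart a i y := by unfold cart; simp [hs y i, eq_comm]
    rw [this]; ring
  · rfl

/-- expansion of the effective column. -/
theorem AG11_thE_sum {a : I → I → ℕ} (hs : ∀ i j, a i j = a j i) {N : Finset I} (hN : FinT a N)
    (k : ℕ) (x : I) (hx : x ∉ N) :
    thE a N k x = ∑ i : I, (if i ∈ N then 0 else cEff a N i x) • sy i k := by
  ext ⟨i, l⟩
  rw [Finsupp.finsetSum_apply]
  rw [Finset.sum_eq_single i]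
  · simp only [Finsupp.smul_apply, smul_eq_mul]
    by_cases hi : i ∈ N
    · rw [thE_apply_mem hs hN k x i hx hi l, if_pos hi, zero_mul]
    · rw [thE_apply hs hN k x i hx hi l, if_neg hi]
      by_cases hl : l = k
      · subst hl
        rw [if_pos rfl, Finsupp.single_eq_same, mul_one]
      · rw [if_neg hl, Finsupp.single_eq_of_ne (by
          intro h; exact hl (Prod.mk.inj h).2), mul_zero]
  · intro j _ hj
    simp only [Finsupp.smul_apply, smul_eq_mul]
    rw [Finsupp.single_eq_of_ne (by
      intro h; exact hj (Prod.mk.inj h).1.symm), mul_zero]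
  · intro h; exact absurd (Finset.mem_univ i) h

theorem om_det (a : I → I → ℕ) (hs : ∀ i j, a i j = a j i) (cd : CrossData a) (R : Finset I)
    (hR : FinT a R) (k : ℕ) (hk : 1 ≤ k) (q : I → ℚ) (hq : QOk a R q) (M : Finset I) (hM : M ⊆ R)
    (hMz : ∀ x ∈ M, IsZ (q x))
    (hfam : M.Nonempty → ∀ A ∈ comps a (R \ M), UpFam a cd A q k) (T : Trm I) (hT : RReg R T) :
    TV a (upT a (R \ M) k q (T.cols M (fun x => cE a x k))) =
      detEff a (R \ M) M * TV a (omT a R M k q T) := by
  classical
  set N : Finset I := R \ M with hNdef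
  have hNR : N ⊆ R := Finset.sdiff_subset
  have hN : FinT a N := hR.mono hNR
  have hMN : Disjoint M N := Finset.disjoint_sdiff
  have hnotN : ∀ x ∈ M, x ∉ N := fun x hx h => (Finset.mem_sdiff.1 h).2 hx
  have hnotM : ∀ x ∈ N, x ∉ M := fun x hx => (Finset.mem_sdiff.1 hx).2
  have hqN : QOk a N q := by
    refine QOk_sub hs hR hq N hNR ?_
    intro y _ x hx hxN
    right
    apply hMz
    by_contra hxM
    exact hxN (Finset.mem_sdiff.2 ⟨hx, hxM⟩)
  -- the general Up term
  set U : ({x // x ∈ M} → QE I) → Trm I := fun c => AG11_c M (upT a N k q T) c with hU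
  have hUeq : ∀ c : I → QE I, upT a N k q (T.cols M c) = U (fun x => c x.1) := by
    intro c
    simp only [hU, AG11_c, upT, blkT, Trm.cols, Trm.eta]
    ext1
    · rfl
    · rfl
    · funext i
      by_cases hi : i ∈ M
      · have : i ∉ N := hnotN i hi
        simp [hi, this]
      · simp [hi]
  have hreg : ∀ x ∈ N, FReg (upT a N k q (T.cols M (fun x => cE a x k))) x k (k - 1) := by
    intro x hx
    have hxR := hNR hx
    obtain ⟨n, hn, he⟩ := hqN x hx
    refine ⟨?_, ?_, ?_⟩
    · intro l hl hlk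
      rw [AG11_upE a hs, if_neg hlk, add_zero]
      exact hT.nat x hxR l hl
    · rw [AG11_upE a hs, if_pos rfl, he]
      obtain ⟨m, hm⟩ := hT.nat x hxR k hk
      refine ⟨(m : ℤ) + n, ?_⟩
      change T.E (x, k) + (n : ℚ) = _
      rw [hm]; push_cast; rfl
    · intro j l hl hne
      by_cases hjN : j ∈ N
      · left
        have : (upT a N k q (T.cols M (fun x => cE a x k))).Λ j = sy j (k - 1) := by
          simp [upT, blkT, Trm.cols, Trm.eta, hjN]
        rw [this] at hne
        by_contra hlk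
        exact hne (Finsupp.single_eq_of_ne (fun h => hlk (Prod.mk.inj h).2))
      · by_cases hjM : j ∈ M
        · right; left
          have : (upT a N k q (T.cols M (fun x => cE a x k))).Λ j = cE a j k := by
            simp [upT, blkT, Trm.cols, Trm.eta, hjN, hjM]
          rw [this, cE_apply] at hne
          by_contra hlk
          exact hne (if_neg hlk)
        · right; right
          have : (upT a N k q (T.cols M (fun x => cE a x k))).Λ j = T.Λ j := by
            simp [upT, blkT, Trm.cols, Trm.eta, hjN, hjM]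
          rw [this] at hne
          have hjR : j ∉ R := by
            intro hjR
            exact hjN (Finset.mem_sdiff.2 ⟨hjR, hjM⟩)
          have h1 := hT.col x hxR j hjR l hl hne
          rw [AG11_upE a hs]
          change 1 ≤ T.E (x, l) + _
          split_ifs with hlk
          · rw [he]
            have : (0:ℚ) ≤ n := by positivity
            linarith
          · linarith
  have hsol : ∀ x ∈ N, 0 < solN a N (fun i => (upT a N k q (T.cols M (fun x => cE a x k))).E (i, k)) x := by
    have hp : ∀ i ∈ N, 0 < (upT a N k q (T.cols M (fun x => cE a x k))).E (i, k) := by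
      intro i hi
      rw [AG11_upE a hs, if_pos rfl]
      obtain ⟨n, hn, he⟩ := hqN i hi
      obtain ⟨m, hm⟩ := hT.nat i (hNR hi) k hk
      change 0 < T.E (i, k) + _
      rw [he, hm]
      have : (1:ℚ) ≤ n := by exact_mod_cast hn
      positivity
    intro x hx
    exact solN_pos_self hs hN _ (fun i hi => (hp i hi).le) x hx (hp x hx)
  have hstep := TV_thE a hs N hN k hk (fun _ => k - 1)
    (fun x _ => Or.inr (Nat.sub_add_cancel hk)) M hMN
    (upT a N k q (T.cols M (fun x => cE a x k))) hreg hsol (by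
      intro x hx
      simp [upT, blkT, Trm.cols, Trm.eta, hx, hnotN x hx])
  have hcols : (upT a N k q (T.cols M (fun x => cE a x k))).cols M (fun x => thE a N k x) =
      U (fun x => thE a N k x.1) := by
    rw [← hUeq]
    simp only [upT, blkT, Trm.cols, Trm.eta]
    ext1
    · rfl
    · rfl
    · funext i
      by_cases hi : i ∈ M
      · have : i ∉ N := hnotN i hi
        simp [hi, this]
      · simp [hi]
  rw [hstep, hcols]
  -- expansion
  have hexp : TV a (U (fun x => thE a N k x.1)) =
      ∑ r : {x // x ∈ M} → I, (∏ x : {x // x ∈ M}, (if r x ∈ N then 0 else cEff a N (r x) x.1)) *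
        TV a (U (fun x => sy (r x) k)) := by
    have h1 : (fun x : {x // x ∈ M} => thE a N k x.1) =
        fun x : {x // x ∈ M} => ∑ i : I, (if i ∈ N then 0 else cEff a N i x.1) • sy i k := by
      funext x
      exact AG11_thE_sum hs hN k x.1 (hnotN x.1 x.2)
    have h2 : TV a (U (fun x => thE a N k x.1)) =
        AG11_mul a M (upT a N k q T) (fun x => thE a N k x.1) := rfl
    rw [h2, h1, MultilinearMap.map_sum]
    refine Finset.sum_congr rfl fun r _ => ?_
    rw [MultilinearMap.map_smul_univ, smul_eq_mul]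
    rfl
  rw [hexp]
  -- vanishing
  have hvan : ∀ r : {x // x ∈ M} → I, (¬ ∀ s ∈ M, ∃ x, r x = s) →
      (∏ x : {x // x ∈ M}, (if r x ∈ N then 0 else cEff a N (r x) x.1)) *
        TV a (U (fun x => sy (r x) k)) = 0 := by
    intro r hr
    by_cases hrN : ∃ x, r x ∈ N
    · obtain ⟨x, hx⟩ := hrN
      have h0 : (∏ x : {x // x ∈ M}, (if r x ∈ N then (0 : ℚ) else cEff a N (r x) x.1)) = 0 :=
        Finset.prod_eq_zero (Finset.mem_univ x) (if_pos hx)
      rw [h0, zero_mul]
    push Not at hr hrN
    obtain ⟨s, hsM, hsr⟩ := hr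
    have hsR := hM hsM
    set T1 : Trm I := AG11_c M T (fun x => sy (r x) k) with hT1
    have hT1Λ : ∀ j, j ∉ M → T1.Λ j = T.Λ j := by
      intro j hj
      simp only [hT1, AG11_c]
      rw [dif_neg hj]
    have hT1M : ∀ j (hj : j ∈ M), T1.Λ j = sy (r ⟨j, hj⟩) k := by
      intro j hj
      simp only [hT1, AG11_c]
      rw [dif_pos hj]
    have hUr : U (fun x => sy (r x) k) = upT a N k q T1 := by
      simp only [hU, hT1, AG11_c, upT, blkT, Trm.cols, Trm.eta]
      ext1
      · rfl
      · rfl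
      · funext i
        by_cases hi : i ∈ M
        · have : i ∉ N := hnotN i hi
          simp [hi, this]
        · simp [hi]
    have hNP := NP_up a hs cd N hN q hqN k hk (hfam ⟨s, hsM⟩) s (hnotN s hsM)
      (hR.loopfree s hsR) (by
        obtain ⟨n, hn, he⟩ := hq s hsR
        have h1 : ∑ j ∈ N, (cart a s j : ℚ) * q j + ∑ j ∈ M, (cart a s j : ℚ) * q j = n := by
          rw [← he]
          unfold cqN
          rw [hNdef]
          exact Finset.sum_sdiff hM
        have h2 : ∑ j ∈ N, (cart a s j : ℚ) * q j = - ∑ j ∈ N, (a s j : ℚ) * q j := by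
          rw [← Finset.sum_neg_distrib]
          refine Finset.sum_congr rfl fun j hj => ?_
          have hne : s ≠ j := fun h => hnotN s hsM (h ▸ hj)
          have : cart a s j = -(a s j : ℤ) := by
            unfold cart
            simp [hne]
          rw [this]; push_cast; ring
        have h3 : IsZ (∑ j ∈ M, (cart a s j : ℚ) * q j) := by
          choose z hz using hMz
          refine ⟨∑ j ∈ M.attach, cart a s j.1 * z j.1 j.2, ?_⟩
          rw [← Finset.sum_attach]
          push_cast
          refine Finset.sum_congr rfl fun j _ => ?_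
          rw [hz j.1 j.2]
        obtain ⟨z, hz⟩ := h3
        refine ⟨z - n, ?_⟩
        rw [h2, hz] at h1
        push_cast
        linarith) T1 (by
        refine ⟨?_, ?_⟩
        · intro x hx l hl
          exact hT.nat x (hNR hx) l hl
        · intro x hx j hj l hl hne
          by_cases hjM : j ∈ M
          · rw [hT1M j hjM] at hne
            exfalso
            apply hne
            apply Finsupp.single_eq_of_ne
            intro h
            exact hrN ⟨j, hjM⟩ ((Prod.mk.inj h).1 ▸ hx)
          · rw [hT1Λ j hjM] at hne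
            exact hT.col x (hNR hx) j (fun h => hj (Finset.mem_sdiff.2 ⟨h, hjM⟩)) l hl hne)
      (by
        intro l hl
        exact hT.nat s hsR l hl) (by
        intro j hj l hl hne
        by_cases hjM : j ∈ M
        · rw [hT1M j hjM] at hne
          exfalso
          apply hne
          apply Finsupp.single_eq_of_ne
          intro h
          exact hsr ⟨j, hjM⟩ ((Prod.mk.inj h).1.symm)
        · rw [hT1Λ j hjM] at hne
          exact hT.col s hsR j (fun h => hj (Finset.mem_sdiff.2 ⟨h, hjM⟩)) l hl hne)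
    rw [hUr, hNP, mul_zero]
  -- permutations
  have hsum : ∑ r : {x // x ∈ M} → I,
      (∏ x : {x // x ∈ M}, (if r x ∈ N then 0 else cEff a N (r x) x.1)) *
        TV a (U (fun x => sy (r x) k)) =
      ∑ σ : Equiv.Perm {x // x ∈ M}, (∏ x : {x // x ∈ M}, cEff a N (σ x).1 x.1) *
        TV a (U (fun x => sy (σ x).1 k)) := by
    symm
    refine Finset.sum_of_injOn (fun σ : Equiv.Perm {x // x ∈ M} => fun x => (σ x).1) ?_ ?_ ?_ ?_
    · intro σ _ τ _ h
      ext x
      exact congrFun h x
    · intro σ _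
      exact Finset.mem_coe.2 (Finset.mem_univ _)
    · intro r _ hr
      apply hvan
      intro hall
      apply hr
      -- r is onto M, hence a permutation
      have hsurj : ∃ g : {x // x ∈ M} → {x // x ∈ M}, ∀ s, r (g s) = s.1 := by
        choose g hg using fun s : {x // x ∈ M} => hall s.1 s.2
        exact ⟨g, hg⟩
      obtain ⟨g, hg⟩ := hsurj
      have hginj : Function.Injective g := by
        intro s t hst
        apply Subtype.ext
        rw [← hg s, ← hg t, hst]
      have hgbij : Function.Bijective g := Finite.injective_iff_bijective.1 hginj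
      set e := Equiv.ofBijective g hgbij
      refine ⟨e.symm, Finset.mem_coe.2 (Finset.mem_univ _), ?_⟩
      funext x
      have : g (e.symm x) = x := e.apply_symm_apply x
      show (e.symm x).1 = r x
      rw [← hg (e.symm x), this]
    · intro σ _
      congr 1
      refine Finset.prod_congr rfl fun x _ => ?_
      rw [if_neg (hnotN (σ x).1 (σ x).2)]
  rw [hsum]
  have hom : omT a R M k q T = U (fun x => sy x.1 k) := by
    unfold omT
    rw [← hNdef, hUeq]
  have hperm : ∀ σ : Equiv.Perm {x // x ∈ M}, TV a (U (fun x => sy (σ x).1 k)) =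
      ((Equiv.Perm.sign σ : ℤ) : ℚ) * TV a (omT a R M k q T) := by
    intro σ
    have h1 := TV_perm a (omT a R M k q T) (Equiv.Perm.ofSubtype σ)
    rw [Equiv.Perm.sign_ofSubtype] at h1
    rw [← h1, hom]
    congr 1
    ext1
    · rfl
    · rfl
    · funext i
      simp only [hU, AG11_c]
      by_cases hi : i ∈ M
      · rw [dif_pos hi, Equiv.Perm.ofSubtype_apply_of_mem σ hi, dif_pos (σ ⟨i, hi⟩).2]
      · rw [dif_neg hi, Equiv.Perm.ofSubtype_apply_of_not_mem σ hi, dif_neg hi]
  unfold detEff
  rw [Matrix.det_apply', Finset.sum_mul]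
  refine Finset.sum_congr rfl fun σ _ => ?_
  rw [hperm σ]
  simp only [Matrix.of_apply, cEff]
  ring

open Classical in
theorem PPv_eq (a : I → I → ℕ) (hs : ∀ i j, a i j = a j i) (cd : CrossData a) (R : Finset I)
    (hR : FinT a R) (k : ℕ) (hk : 1 ≤ k) (q : I → ℚ) (hq : QOk a R q)
    (hfam : ∀ M ⊆ R, M.Nonempty → (∀ x ∈ M, IsZ (q x)) →
      ∀ A ∈ comps a (R \ M), UpFam a cd A q k) (T : Trm I) (hT : RReg R T) :
    PPv a R k q T = ∑ M ∈ R.powerset.filter (fun M => ∀ x ∈ M, IsZ (q x)),
      (-1 : ℚ) ^ (R \ M).card * detEff a (R \ M) M * TV a (omT a R M k q T) := by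
  rw [PPv_sum a hs R hR k hk q hq T]
  refine Finset.sum_congr rfl fun M hM => ?_
  rw [Finset.mem_filter, Finset.mem_powerset] at hM
  rw [om_det a hs cd R hR k hk q hq M hM.1 hM.2
    (fun hne => hfam M hM.1 hne hM.2) T hT, mul_assoc]

end

end Pool.Agent.H27.KAC

end

section

/-!
KAC ADE, module AG9a: the chain vertex makes its step first.

`evU_alU` for `f` and `f-1` (`u (f+1) - 2 u f + u (f-1) = 0`): the difference is `u f` times the joint value with column
`(x,f+1) - 2 (x,f) + (x,f-1)`, which by `TV_expD` (for every pattern of the product; the patterns do not change `γ x`) is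
`∑_{m0 ≥ 1}` of the joint values of `T.eta a f (Pi.single x m0)` with column `cE a x f`.  These terms are `RReg (uniR L)` and have a
kink at level `f` in every block (all blocks are adjacent to `x`): `evU_all_kink` (with `RB_blkOk`, `up = false`) and
`expl_merge` give `∏ w_b(f) * TV (tauT (R.erase x) f q ..)`; `TV_step` for `R.erase x`; finally `m = m' + (m0 + q x) e_x`
(`q x` is a natural number), `rawT_union`.  If `T.γ x < 0` everything is zero; otherwise `B ≥ bnd` is large enough.
-/

set_option autoImplicit false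

namespace Pool.Agent.H27.KAC

open scoped BigOperators

section

variable {I : Type} [Fintype I] [DecidableEq I]

theorem AG9a_disj {a : I → I → ℕ} (L : List (RB I))
    (hsep : L.Pairwise (fun b c => Sep a b.B c.B)) (f : ℕ) :
    (atF L f).Pairwise (fun b c => Disjoint b.1 c.1) := by
  unfold atF
  rw [List.pairwise_map]
  exact hsep.imp (fun h => h.1)

theorem AG9a_patT_γ (a : I → I → ℕ) (B : Finset I) (π : Pat I) (T : Trm I) (x : I) (hx : x ∉ B) :
    (patT a B π T).γ x = T.γ x := by
  simp [patT, Trm.cols, Trm.etaM, resQ, hx]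

/-- expansion of the column `(x, f + 1)` in one pattern. -/
theorem AG9a_key (a : I → I → ℕ) (hs : ∀ i j, a i j = a j i) (B : Finset I) (π : Pat I)
    (x : I) (hx : x ∉ B) (f : ℕ) (hf : 1 ≤ f) (T : Trm I) (M : ℕ) (hM : ⌊T.γ x⌋₊ ≤ M) :
    TV a (patT a B π (T.col x (sy x (f + 1)))) - 2 * TV a (patT a B π (T.col x (sy x f))) +
      TV a (patT a B π (T.col x (sy x (f - 1)))) =
      ∑ m0 ∈ Finset.Icc 1 M,
        TV a (patT a B π ((T.eta a f (Pi.single x (m0 : ℚ))).col x (cE a x f))) := by
  have h1 : ∀ c : QE I, patT a B π (T.col x c) = (patT a B π T).col x c :=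
    fun c => patT_col_comm a B π x hx c T
  have h2 : ∀ m0 : ℕ, patT a B π ((T.eta a f (Pi.single x (m0 : ℚ))).col x (cE a x f)) =
      ((patT a B π T).eta a f (Pi.single x (m0 : ℚ))).col x (cE a x f) := by
    intro m0
    rw [patT_col_comm a B π x hx, eta_eq_etaM, eta_eq_etaM, patT_etaM_comm]
  have h3 := TV_expD a hs (patT a B π T) x x f hf M (by rw [AG9a_patT_γ a B π T x hx]; exact hM)
  have h4 : TV a ((patT a B π T).col x ((2 : ℚ) • sy x f - sy x (f - 1))) =
      2 * TV a ((patT a B π T).col x (sy x f)) - TV a ((patT a B π T).col x (sy x (f - 1))) := by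
    have : ((2 : ℚ) • sy x f - sy x (f - 1) : QE I) = (2 : ℚ) • sy x f + (-1 : ℚ) • sy x (f - 1) := by
      rw [neg_smul, one_smul, sub_eq_add_neg]
    rw [this, TV_col_add, TV_col_smul, TV_col_smul]
    ring
  simp only [h1, h2]
  rw [h3, h4]
  ring

/-- expansion of the column `(x, f + 1)` in a joint value. -/
theorem AG9a_exp (a : I → I → ℕ) (hs : ∀ i j, a i j = a j i) (U : List (Finset I × FFn I))
    (hd : U.Pairwise (fun b c => Disjoint b.1 c.1)) (x : I) (hx : x ∉ uni U) (f : ℕ) (hf : 1 ≤ f)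
    (T : Trm I) (M : ℕ) (hM : ⌊T.γ x⌋₊ ≤ M) :
    evU a U (T.col x (sy x (f + 1))) - 2 * evU a U (T.col x (sy x f)) +
      evU a U (T.col x (sy x (f - 1))) =
      ∑ m0 ∈ Finset.Icc 1 M, evU a U ((T.eta a f (Pi.single x (m0 : ℚ))).col x (cE a x f)) := by
  simp only [evU_eq_evF a U hd]
  unfold evF
  generalize prodF U = Φ
  induction Φ with
  | nil => simp
  | cons c Φ ih =>
    simp only [List.map_cons, List.sum_cons, Finset.sum_add_distrib]
    rw [← ih, ← Finset.mul_sum, ← AG9a_key a hs (uni U) c.2 x hx f hf T M hM]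
    ring

/-- the terms after the step of the chain vertex: exponents. -/
theorem AG9a_E (a : I → I → ℕ) (x y : I) (hxy : x ≠ y) (f : ℕ) (m0 : ℕ) (c : QE I) (T : Trm I)
    (l : ℕ) : ((T.eta a f (Pi.single x (m0 : ℚ))).col x c).E (y, l) =
      T.E (y, l) + if l = f then ((m0 * a x y : ℕ) : ℚ) else 0 := by
  have h0 : ((T.eta a f (Pi.single x (m0 : ℚ))).col x c).E (y, l) =
      T.E (y, l) - (∑ z, (Pi.single x (m0 : ℚ) : I → ℚ) z • cE a z f) (y, l) := by
    simp [Trm.col, Trm.eta]
  rw [h0, Finset.sum_eq_single x]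
  · rw [Pi.single_eq_same, Finsupp.smul_apply, cE_apply]
    have hc : cart a x y = -(a x y : ℤ) := by
      simp [cart, hxy]
    rw [hc]
    by_cases hl : l = f
    · simp [hl]
    · simp [hl]
  · intro z _ hz
    rw [Pi.single_eq_of_ne hz, zero_smul]
  · intro hx
    exact absurd (Finset.mem_univ x) hx

/-- regularity after the step of the chain vertex. -/
theorem AG9a_RReg (a : I → I → ℕ) (R : Finset I) (x : I) (f : ℕ) (m0 : ℕ)
    (hm0 : 1 ≤ m0) (T : Trm I) (hT : RReg R T) :
    RReg (R.erase x) ((T.eta a f (Pi.single x (m0 : ℚ))).col x (cE a x f)) := by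
  have hE0 : ∀ y ∈ R.erase x, ∀ l, 1 ≤ l → 0 ≤ T.E (y, l) := by
    intro y hy l hl
    obtain ⟨n, hn⟩ := hT.nat y (Finset.mem_of_mem_erase hy) l hl
    rw [hn]
    positivity
  refine ⟨?_, ?_⟩
  · intro y hy l hl
    rw [AG9a_E a x y (Finset.ne_of_mem_erase hy).symm]
    obtain ⟨n, hn⟩ := hT.nat y (Finset.mem_of_mem_erase hy) l hl
    rw [hn]
    by_cases h : l = f
    · refine ⟨n + m0 * a x y, ?_⟩
      rw [if_pos h]
      push_cast
      ring
    · refine ⟨n, ?_⟩
      rw [if_neg h, add_zero]
  · intro y hy j hj l hl hΛ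
    rw [AG9a_E a x y (Finset.ne_of_mem_erase hy).symm]
    have h0 := hE0 y hy l hl
    by_cases hjx : j = x
    · subst hjx
      have h1 : ((T.eta a f (Pi.single j (m0 : ℚ))).col j (cE a j f)).Λ j = cE a j f := by
        simp [Trm.col]
      rw [h1, cE_apply] at hΛ
      by_cases h : l = f
      · rw [if_pos h] at hΛ ⊢
        have h2 : a j y ≠ 0 := by
          intro h3
          apply hΛ
          simp [cart, h3, (Finset.ne_of_mem_erase hy).symm]
        have h3 : 1 ≤ m0 * a j y := Nat.mul_pos hm0 (Nat.pos_of_ne_zero h2)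
        have h4 : (1 : ℚ) ≤ ((m0 * a j y : ℕ) : ℚ) := by exact_mod_cast h3
        linarith
      · rw [if_neg h] at hΛ
        exact absurd rfl hΛ
    · have hjR : j ∉ R := fun h => hj (Finset.mem_erase.mpr ⟨hjx, h⟩)
      have h1 : ((T.eta a f (Pi.single x (m0 : ℚ))).col x (cE a x f)).Λ j = T.Λ j := by
        simp [Trm.col, Trm.eta, hjx]
      rw [h1] at hΛ
      have h2 := hT.col y (Finset.mem_of_mem_erase hy) j hjR l hl hΛ
      have h3 : (0 : ℚ) ≤ if l = f then ((m0 * a x y : ℕ) : ℚ) else 0 := by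
        split_ifs
        · positivity
        · exact le_refl 0
      linarith

/-- the kink after the step of the chain vertex. -/
theorem AG9a_Kink (a : I → I → ℕ) (R A : Finset I) (hA : A ⊆ R) (x : I) (hxA : x ∉ A) (f : ℕ)
    (hf : 1 ≤ f) (m0 : ℕ) (hm0 : 1 ≤ m0) (T : Trm I) (hT : RReg R T)
    (hadj : ∃ y ∈ A, 0 < a x y) :
    Kink A f ((T.eta a f (Pi.single x (m0 : ℚ))).col x (cE a x f)) := by
  obtain ⟨y, hy, hay⟩ := hadj
  refine ⟨y, hy, ?_⟩
  have hxy : x ≠ y := fun h => hxA (h ▸ hy)
  rw [AG9a_E a x y hxy, if_pos rfl]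
  obtain ⟨n, hn⟩ := hT.nat y (hA hy) f hf
  rw [hn]
  have h3 : 1 ≤ m0 * a x y := Nat.mul_pos hm0 hay
  have h4 : (1 : ℚ) ≤ ((m0 * a x y : ℕ) : ℚ) := by exact_mod_cast h3
  have h5 : (0 : ℚ) ≤ (n : ℚ) := by positivity
  linarith

/-- recognise the raw term of `R`. -/
theorem AG9a_rawT (a : I → I → ℕ) (R : Finset I) (x : I) (hx : x ∈ R) (f : ℕ) (q : I → ℚ)
    (n m0 : ℕ) (hm0 : 1 ≤ m0) (hn : q x = n) (m : I → ℕ) (hm : m x = m0 + n) (T : Trm I) :
    rawT a R f q m T = rawT a (R.erase x) f q m
      ((T.eta a f (Pi.single x (m0 : ℚ))).col x (cE a x f)) := by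
  have h1 : R = R.erase x ∪ {x} := by
    ext y
    simp only [Finset.mem_union, Finset.mem_erase, Finset.mem_singleton]
    constructor
    · intro h
      by_cases hy : y = x
      · exact Or.inr hy
      · exact Or.inl ⟨hy, h⟩
    · rintro (h | h)
      · exact h.2
      · exact h ▸ hx
  have h2 : Disjoint (R.erase x) {x} := by
    rw [Finset.disjoint_singleton_right]
    exact Finset.notMem_erase x R
  have h3 : rawT a {x} f q m T = (T.eta a f (Pi.single x (m0 : ℚ))).col x (cE a x f) := by
    have hδ : (fun i => if i ∈ ({x} : Finset I) then (m i : ℚ) - q i else 0) =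
        (Pi.single x (m0 : ℚ) : I → ℚ) := by
      funext i
      by_cases hi : i = x
      · subst hi
        rw [if_pos (Finset.mem_singleton_self i), Pi.single_eq_same, hm, hn]
        push_cast
        ring
      · rw [if_neg (fun h => hi (Finset.mem_singleton.mp h)), Pi.single_eq_of_ne hi]
    unfold rawT
    rw [hδ]
    apply Trm.ext
    · rfl
    · rfl
    · funext i
      show (if i ∈ ({x} : Finset I) then (if m i = 0 then sy i (f - 1) else cE a i f) else T.Λ i) =
        Function.update T.Λ x (cE a x f) i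
      by_cases hi : i = x
      · subst hi
        rw [if_pos (Finset.mem_singleton_self i), Function.update_self, if_neg (by omega)]
      · rw [if_neg (fun h => hi (Finset.mem_singleton.mp h)), Function.update_of_ne hi]
  conv_lhs => rw [h1]
  rw [rawT_union a (R.erase x) {x} h2 f q m T, h3]

/-- the bound for the remaining vertices. -/
theorem AG9a_bnd (a : I → I → ℕ) (R : Finset I) (x : I) (f : ℕ) (q : I → ℚ) (m0 : ℕ) (T : Trm I)
    (B : ℕ) (hB : bnd R f q T ≤ B) :
    bnd (R.erase x) f q ((T.eta a f (Pi.single x (m0 : ℚ))).col x (cE a x f)) ≤ B := by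
  refine le_trans ?_ hB
  unfold bnd
  have h1 : ∑ i ∈ R.erase x,
      ⌊((T.eta a f (Pi.single x (m0 : ℚ))).col x (cE a x f)).γ i + f * q i⌋₊ =
      ∑ i ∈ R.erase x, ⌊T.γ i + f * q i⌋₊ := by
    refine Finset.sum_congr rfl (fun i hi => ?_)
    have : ((T.eta a f (Pi.single x (m0 : ℚ))).col x (cE a x f)).γ i = T.γ i := by
      simp [Trm.col, Trm.eta, Pi.single_eq_of_ne (Finset.ne_of_mem_erase hi)]
    rw [this]
  rw [h1]
  exact Finset.sum_le_sum_of_subset (Finset.erase_subset x R)

/-- the bound for the multiplicity of the chain vertex. -/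
theorem AG9a_bndx (R : Finset I) (x : I) (hx : x ∈ R) (f : ℕ) (hf : 1 ≤ f) (q : I → ℚ) (n : ℕ)
    (hn : q x = n) (T : Trm I) (B : ℕ) (hB : bnd R f q T ≤ B) : ⌊T.γ x⌋₊ ≤ B - n := by
  rcases lt_or_ge (T.γ x) 0 with h | h
  · rw [Nat.floor_of_nonpos h.le]
    exact Nat.zero_le _
  · have h1 : ⌊T.γ x + f * q x⌋₊ ≤ B := by
      refine le_trans ?_ hB
      unfold bnd
      exact Finset.single_le_sum (f := fun i => ⌊T.γ i + f * q i⌋₊) (fun i _ => Nat.zero_le _) hx
    have h2 : ⌊T.γ x⌋₊ + n ≤ ⌊T.γ x + f * q x⌋₊ := by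
      apply Nat.le_floor
      push_cast
      have h3 : ((⌊T.γ x⌋₊ : ℕ) : ℚ) ≤ T.γ x := Nat.floor_le h
      have h4 : (n : ℚ) ≤ f * q x := by
        rw [hn]
        have h5 : (1 : ℚ) ≤ f := by exact_mod_cast hf
        have h6 : (0 : ℚ) ≤ n := by positivity
        nlinarith
      linarith
    omega

/-- joint value of the blocks after the step of the chain vertex. -/
theorem AG9a_blocks (a : I → I → ℕ) (hs : ∀ i j, a i j = a j i) (cd : CrossData a) (R : Finset I)
    (x : I) (q : I → ℚ) (K : ℕ) (u : ℕ → ℚ) (L : List (RB I)) (h : StarCtx a cd R x q K u L)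
    (f : ℕ) (hf : 1 ≤ f) (hfK : f ≤ K) (T : Trm I) (hT : RReg R T) (B : ℕ)
    (hB : bnd R f q T ≤ B) (m0 : ℕ) (hm0 : 1 ≤ m0) :
    evU a (atF L f) ((T.eta a f (Pi.single x (m0 : ℚ))).col x (cE a x f)) =
      (L.map (fun b => b.w f)).prod * ∑ m ∈ mbox (R.erase x) B, sgm (R.erase x) m *
        TV a (rawT a (R.erase x) f q m
          ((T.eta a f (Pi.single x (m0 : ℚ))).col x (cE a x f))) := by
  set X := (T.eta a f (Pi.single x (m0 : ℚ))).col x (cE a x f) with hX
  have hRX : RReg (R.erase x) X := AG9a_RReg a R x f m0 hm0 T hT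
  set LB : List (Blk I) := L.map (RB.blk q f false) with hLB
  have hU : LB.map (fun b => (b.B, b.Φ)) = atF L f := by
    rw [hLB, List.map_map]
    unfold atF
    apply List.map_congr_left
    intro b _
    simp [RB.blk]
  have huni : uniB LB = R.erase x := by
    rw [← h.cov]
    ext y
    rw [mem_uniB, mem_uniR]
    constructor
    · rintro ⟨b, hb, hy⟩
      rw [hLB, List.mem_map] at hb
      obtain ⟨c, hc, rfl⟩ := hb
      exact ⟨c, hc, hy⟩
    · rintro ⟨c, hc, hy⟩
      exact ⟨c.blk q f false, List.mem_map.mpr ⟨c, hc, rfl⟩, hy⟩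
  have hok : ∀ b ∈ LB, BlkOk a cd f b := by
    intro b hb
    rw [hLB, List.mem_map] at hb
    obtain ⟨c, hc, rfl⟩ := hb
    have hc' := h.block hs c hc
    exact RB_blkOk a hs cd q K f hf hfK false c hc'.2.2.1 (h.bconn c hc) hc'.2.2.2.1 (h.resp c hc)
  have hd : LB.Pairwise (fun b c => Sep a b.B c.B) := by
    rw [hLB, List.pairwise_map]
    exact h.sep
  have hk : ∀ b ∈ LB, Kink b.B f X := by
    intro b hb
    rw [hLB, List.mem_map] at hb
    obtain ⟨c, hc, rfl⟩ := hb
    have hc' := h.block hs c hc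
    exact AG9a_Kink a R c.B hc'.1 x hc'.2.1 f hf m0 hm0 T hT hc'.2.2.2.2
  have h1 := evU_all_kink a hs cd f LB hok hd X (by rw [huni]; exact hRX) hk
  have h2 : expl a f LB X = tauT a (R.erase x) f q X := by
    rw [expl_merge a f LB q false (hd.imp (fun h => h.1)) ?_ ?_ X, huni]
    · rfl
    · intro b hb y _
      rw [hLB, List.mem_map] at hb
      obtain ⟨c, _, rfl⟩ := hb
      rfl
    · intro b hb
      rw [hLB, List.mem_map] at hb
      obtain ⟨c, _, rfl⟩ := hb
      rfl
  have h3 : (LB.map Blk.cf).prod = (L.map (fun b => b.w f)).prod := by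
    rw [hLB, List.map_map]
    congr 1
    apply List.map_congr_left
    intro b _
    simp [RB.blk, Blk.cf]
  have h4 := TV_step a hs (R.erase x) (h.fin.mono (Finset.erase_subset x R)) f hf q
    (h.erase_qok hs) X hRX B (AG9a_bnd a R x f q m0 T B hB)
  rw [← hU, h1, h2, h3, h4]

open Classical in
theorem star_step0 (a : I → I → ℕ) (hs : ∀ i j, a i j = a j i) (cd : CrossData a) (R : Finset I)
    (x : I) (q : I → ℚ) (K : ℕ) (u : ℕ → ℚ) (L : List (RB I)) (h : StarCtx a cd R x q K u L)
    (f : ℕ) (hf : 1 ≤ f) (hfK : f ≤ K) (T : Trm I) (hT : RReg R T) (B : ℕ)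
    (hB : bnd R f q T ≤ B) :
    evU a (({x}, alU u f) :: atF L f) T - evU a (({x}, alU u (f - 1)) :: atF L f) T =
      stW u L f * ∑ m ∈ (mbox R B).filter (fun m => q x < m x),
        sgm R m * TV a (rawT a R f q m T) := by
  have hx0 : 0 ≤ q x := by
    refine h.fin.nonneg hs q (fun i hi => ?_) x h.hx
    obtain ⟨k, _, hk⟩ := h.qok i hi
    rw [hk]
    positivity
  obtain ⟨n, hn⟩ : ∃ n : ℕ, q x = n := by
    obtain ⟨z, hz⟩ := h.hz
    have hz0 : 0 ≤ z := by
      rw [hz] at hx0
      exact_mod_cast hx0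
    refine ⟨z.toNat, ?_⟩
    rw [hz]
    have : ((z.toNat : ℕ) : ℤ) = z := Int.toNat_of_nonneg hz0
    exact_mod_cast this.symm
  have hxU : x ∉ uni (atF L f) := by
    rw [uni_atF, h.cov]
    exact Finset.notMem_erase x R
  have hd := AG9a_disj L h.sep f
  have hf1 : f - 1 + 1 = f := by omega
  have haff : u (f + 1) + u (f - 1) = 2 * u f := by
    obtain ⟨α, κ, hu⟩ := h.aff
    rw [hu, hu, hu]
    have : ((f - 1 : ℕ) : ℚ) = (f : ℚ) - 1 := by
      rw [Nat.cast_sub hf]
      simp
    rw [this]
    push_cast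
    ring
  have hexp := AG9a_exp a hs (atF L f) hd x hxU f hf T (B - n) (AG9a_bndx R x h.hx f hf q n hn T B hB)
  have hbl : ∀ m0 ∈ Finset.Icc 1 (B - n),
      evU a (atF L f) ((T.eta a f (Pi.single x (m0 : ℚ))).col x (cE a x f)) =
        (L.map (fun b => b.w f)).prod * ∑ m ∈ mbox (R.erase x) B, sgm (R.erase x) m *
          TV a (rawT a (R.erase x) f q m
            ((T.eta a f (Pi.single x (m0 : ℚ))).col x (cE a x f))) := by
    intro m0 hm0
    exact AG9a_blocks a hs cd R x q K u L h f hf hfK T hT B hB m0 (Finset.mem_Icc.mp hm0).1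
  have hsum : ∑ m0 ∈ Finset.Icc 1 (B - n), ∑ m ∈ mbox (R.erase x) B, sgm (R.erase x) m *
      TV a (rawT a (R.erase x) f q m ((T.eta a f (Pi.single x (m0 : ℚ))).col x (cE a x f))) =
      ∑ m ∈ (mbox R B).filter (fun m => q x < m x), sgm R m * TV a (rawT a R f q m T) := by
    rw [← Finset.sum_product']
    refine Finset.sum_bij' (fun p _ => Function.update p.2 x (p.1 + n))
      (fun m _ => (m x - n, Function.update m x 0)) ?_ ?_ ?_ ?_ ?_
    · rintro ⟨m0, m⟩ hp
      rw [Finset.mem_product, Finset.mem_Icc] at hp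
      obtain ⟨hp1, hp2⟩ := hp
      simp only at hp1 hp2
      rw [Finset.mem_filter]
      constructor
      · unfold mbox at hp2 ⊢
        rw [Fintype.mem_piFinset] at hp2 ⊢
        intro i
        by_cases hi : i = x
        · subst hi
          rw [Function.update_self, if_pos h.hx, Finset.mem_range]
          omega
        · rw [Function.update_of_ne hi]
          have := hp2 i
          by_cases hiR : i ∈ R
          · rw [if_pos hiR]
            rwa [if_pos (Finset.mem_erase.mpr ⟨hi, hiR⟩)] at this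
          · rw [if_neg hiR]
            rwa [if_neg (fun h => hiR (Finset.mem_of_mem_erase h))] at this
      · simp only [Function.update_self]
        rw [hn]
        have : n < m0 + n := by omega
        exact_mod_cast this
    · intro m hm
      rw [Finset.mem_filter] at hm
      obtain ⟨hm1, hm2⟩ := hm
      have hm3 : n < m x := by
        rw [hn] at hm2
        exact_mod_cast hm2
      unfold mbox at hm1
      rw [Fintype.mem_piFinset] at hm1
      have hm4 := hm1 x
      rw [if_pos h.hx, Finset.mem_range] at hm4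
      rw [Finset.mem_product, Finset.mem_Icc]
      refine ⟨⟨?_, ?_⟩, ?_⟩
      · show 1 ≤ m x - n
        omega
      · show m x - n ≤ B - n
        omega
      · show Function.update m x 0 ∈ mbox (R.erase x) B
        unfold mbox
        rw [Fintype.mem_piFinset]
        intro i
        by_cases hi : i = x
        · subst hi
          rw [Function.update_self, if_neg (Finset.notMem_erase i R)]
          exact Finset.mem_singleton_self 0
        · rw [Function.update_of_ne hi]
          have := hm1 i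
          by_cases hiR : i ∈ R
          · rw [if_pos hiR] at this
            rwa [if_pos (Finset.mem_erase.mpr ⟨hi, hiR⟩)]
          · rw [if_neg hiR] at this
            rwa [if_neg (fun h => hiR (Finset.mem_of_mem_erase h))]
    · rintro ⟨m0, m⟩ hp
      rw [Finset.mem_product] at hp
      obtain ⟨hp1, hp2⟩ := hp
      simp only at hp1 hp2
      unfold mbox at hp2
      rw [Fintype.mem_piFinset] at hp2
      have h0 := hp2 x
      rw [if_neg (Finset.notMem_erase x R), Finset.mem_singleton] at h0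
      refine Prod.ext ?_ ?_
      · simp
      · simp only [Function.update_idem]
        rw [← h0, Function.update_eq_self]
    · intro m hm
      rw [Finset.mem_filter] at hm
      obtain ⟨_, hm2⟩ := hm
      have hm3 : n < m x := by
        rw [hn] at hm2
        exact_mod_cast hm2
      simp only [Function.update_idem]
      rw [Nat.sub_add_cancel hm3.le, Function.update_eq_self]
    · rintro ⟨m0, m⟩ hp
      rw [Finset.mem_product, Finset.mem_Icc] at hp
      obtain ⟨hp1, hp2⟩ := hp
      simp only at hp1 hp2 ⊢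
      set m' := Function.update m x (m0 + n) with hm'
      have hmx : m' x = m0 + n := by rw [hm', Function.update_self]
      have hmy : ∀ y ∈ R.erase x, m y = m' y := by
        intro y hy
        rw [hm', Function.update_of_ne (Finset.ne_of_mem_erase hy)]
      have hsg : sgm (R.erase x) m = sgm R m' := by
        unfold sgm
        congr 2
        ext y
        rw [Finset.mem_filter, Finset.mem_filter]
        constructor
        · rintro ⟨hy1, hy2⟩
          exact ⟨Finset.mem_of_mem_erase hy1, by rw [← hmy y hy1]; exact hy2⟩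
        · rintro ⟨hy1, hy2⟩
          have hyx : y ≠ x := by
            intro hyx
            rw [hyx, hmx] at hy2
            omega
          have hy3 : y ∈ R.erase x := Finset.mem_erase.mpr ⟨hyx, hy1⟩
          exact ⟨hy3, by rw [hmy y hy3]; exact hy2⟩
      rw [hsg, AG9a_rawT a R x h.hx f q n m0 hp1.1 hn m' hmx T,
        rawT_congr a (R.erase x) f q q m m' (fun _ _ => rfl) hmy]
  rw [evU_alU a u f x (atF L f) hxU T, evU_alU a u (f - 1) x (atF L f) hxU T, hf1]
  have hdiff : u f * evU a (atF L f) (T.col x (sy x (f + 1))) -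
      u (f + 1) * evU a (atF L f) (T.col x (sy x f)) -
      (u (f - 1) * evU a (atF L f) (T.col x (sy x f)) -
        u f * evU a (atF L f) (T.col x (sy x (f - 1)))) =
      u f * (evU a (atF L f) (T.col x (sy x (f + 1))) - 2 * evU a (atF L f) (T.col x (sy x f)) +
        evU a (atF L f) (T.col x (sy x (f - 1)))) := by
    have : u (f + 1) = 2 * u f - u (f - 1) := by linarith
    rw [this]
    ring
  rw [hdiff, hexp, Finset.sum_congr rfl hbl, ← Finset.mul_sum, hsum]
  unfold stW
  ring

end

end Pool.Agent.H27.KAC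

end

section

/-!
KAC ADE, module AG9d: the kink property of the star family.

`star_add_x`: for a term `T` with a kink at level `f` in `R` the insertion `η_{x,f}^{-q x}` can be added (`TV_rep` with `N = R`,
`v = - q x e_x`, sides `f + 1`): on `R` the exponents at level `f` are `T.E + C_R u`, `u = q` off `x`, `u x = 0`, so
`solN = u + C_R^{-1} T.E > 0`.

`star_knk`, case A, kink at `x` (`1 ≤ T.E (x,f)`): `evU_alU`; the part with column `(x,f)` vanishes by `TV_kill` (`V = ∅`, `z = x`), the
part with column `(x,f+1)` is evaluated with `evU_conv` (`V = ∅`, `σz = f+1`), then `expl_merge` and `star_add_x`.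
Case B, kink in the block `b`: `evU_perm` to bring `b` to the front, `evU_blk_head` (with the other blocks including `x`; prove the
needed variant: `x` has no insertion); `evU_alU`, the part with column `(x,f)` vanishes by `kink_kill`, the part with column
`(x,f+1)` is evaluated with `kink_conv`; then `expl_merge`, `star_add_x`.
-/

set_option autoImplicit false

namespace Pool.Agent.H27.KAC

open scoped BigOperators

section

variable {I : Type} [Fintype I] [DecidableEq I]

theorem AG9d_zadd {p q : ℚ} (hp : IsZ p) (hq : IsZ q) : IsZ (p + q) := by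
  obtain ⟨m, rfl⟩ := hp
  obtain ⟨n, rfl⟩ := hq
  exact ⟨m + n, by push_cast; ring⟩

theorem AG9d_zsub {p q : ℚ} (hp : IsZ p) (hq : IsZ q) : IsZ (p - q) := by
  obtain ⟨m, rfl⟩ := hp
  obtain ⟨n, rfl⟩ := hq
  exact ⟨m - n, by push_cast; ring⟩

theorem AG9d_zmul {p q : ℚ} (hp : IsZ p) (hq : IsZ q) : IsZ (p * q) := by
  obtain ⟨m, rfl⟩ := hp
  obtain ⟨n, rfl⟩ := hq
  exact ⟨m * n, by push_cast; ring⟩

theorem AG9d_znat {q : ℚ} (hq : IsN q) : IsZ q := by
  obtain ⟨n, rfl⟩ := hq
  exact ⟨n, by push_cast; ring⟩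

theorem AG9d_zcast (n : ℕ) : IsZ (n : ℚ) := ⟨n, by push_cast; ring⟩

theorem AG9d_zint (n : ℤ) : IsZ (n : ℚ) := ⟨n, rfl⟩

theorem AG9d_zsum {ι : Type} (s : Finset ι) (g : ι → ℚ) (h : ∀ i ∈ s, IsZ (g i)) :
    IsZ (∑ i ∈ s, g i) := by
  classical
  induction s using Finset.induction_on with
  | empty => exact ⟨0, by simp⟩
  | insert i s hi ih =>
    rw [Finset.sum_insert hi]
    exact AG9d_zadd (h i (Finset.mem_insert_self i s))
      (ih fun j hj => h j (Finset.mem_insert_of_mem hj))

theorem AG9d_nneg {q : ℚ} (hq : IsN q) : 0 ≤ q := by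
  obtain ⟨n, rfl⟩ := hq
  positivity

/-- the column of `x` is changed to a symbol of `x`. -/
theorem AG9d_reg {R : Finset I} {x : I} (l0 : ℕ) (T : Trm I) (hT : RReg R T) :
    RReg (R.erase x) (T.col x (sy x l0)) where
  nat y hy l hl := hT.nat y (Finset.mem_of_mem_erase hy) l hl
  col y hy j hj l hl hne := by
    have hyx : y ≠ x := Finset.ne_of_mem_erase hy
    have hyR : y ∈ R := Finset.mem_of_mem_erase hy
    by_cases hjx : j = x
    · exfalso
      apply hne
      subst hjx
      show (Function.update T.Λ j (sy j l0) j) (y, l) = 0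
      rw [Function.update_self]
      exact Finsupp.single_eq_of_ne (fun h => hyx (congrArg Prod.fst h))
    · have hjR : j ∉ R := fun h => hj (Finset.mem_erase.2 ⟨hjx, h⟩)
      refine hT.col y hyR j hjR l hl ?_
      intro h0
      apply hne
      show (Function.update T.Λ x (sy x l0) j) (y, l) = 0
      rw [Function.update_of_ne hjx]
      exact h0

/-- the symbols of `x` in the columns after this change. -/
theorem AG9d_colx {R : Finset I} {x : I} (hx : x ∈ R) (l0 : ℕ) (T : Trm I) (hT : RReg R T) (j : I)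
    (hj : j ∉ R.erase x) (l : ℕ) (hl : 1 ≤ l) (hne : (T.col x (sy x l0)).Λ j (x, l) ≠ 0) :
    l = l0 ∨ 1 ≤ (T.col x (sy x l0)).E (x, l) := by
  by_cases hjx : j = x
  · left
    subst hjx
    have hne' : (Function.update T.Λ j (sy j l0) j) (j, l) ≠ 0 := hne
    rw [Function.update_self] at hne'
    by_contra hl0
    exact hne' (Finsupp.single_eq_of_ne fun h => hl0 (congrArg Prod.snd h))
  · right
    have hjR : j ∉ R := fun h => hj (Finset.mem_erase.2 ⟨hjx, h⟩)
    have hne' : (Function.update T.Λ x (sy x l0) j) (x, l) ≠ 0 := hne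
    rw [Function.update_of_ne hjx] at hne'
    exact hT.col x hx j hjR l hl hne'

theorem AG9d_qnn {a : I → I → ℕ} (hs : ∀ i j, a i j = a j i) {R : Finset I} (hR : FinT a R)
    {q : I → ℚ} (hq : QOk a R q) : ∀ y ∈ R, 0 ≤ q y := by
  refine hR.nonneg hs q fun i hi => ?_
  obtain ⟨n, _, hn⟩ := hq i hi
  rw [hn]
  positivity

theorem AG9d_sum (L : List (RB I)) (hd : L.Pairwise (fun b c => Disjoint b.B c.B)) (g : I → ℚ) :
    (L.map (fun b => ∑ y ∈ b.B, g y)).sum = ∑ y ∈ uniR L, g y := by
  induction L with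
  | nil => rfl
  | cons b L ih =>
    rw [List.pairwise_cons] at hd
    rw [List.map_cons, List.sum_cons, ih hd.2]
    have hdis : Disjoint b.B (uniR L) := by
      rw [Finset.disjoint_left]
      intro y hy hy'
      obtain ⟨c, hc, hyc⟩ := (mem_uniR L y).1 hy'
      exact Finset.disjoint_left.1 (hd.1 c hc) hy hyc
    show _ = ∑ y ∈ b.B ∪ uniR L, g y
    rw [Finset.sum_union hdis]

theorem AG9d_uniB (q : I → ℚ) (f : ℕ) (up : Bool) (L : List (RB I)) :
    uniB (L.map (RB.blk q f up)) = uniR L := by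
  induction L with
  | nil => rfl
  | cons b L ih =>
    show b.B ∪ uniB (L.map (RB.blk q f up)) = b.B ∪ uniR L
    rw [ih]

theorem AG9d_map (q : I → ℚ) (f : ℕ) (L : List (RB I)) :
    (L.map (RB.blk q f false)).map (fun b => (b.B, b.Φ)) = atF L f := by
  unfold atF
  rw [List.map_map]
  rfl

theorem AG9d_cf (q : I → ℚ) (f : ℕ) (L : List (RB I)) :
    ((L.map (RB.blk q f false)).map Blk.cf).prod = (L.map (fun b => b.w f)).prod := by
  rw [List.map_map]
  congr 1
  refine List.map_congr_left fun b _ => ?_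
  show (if false = true then (-1 : ℚ) ^ b.B.card else 1) * b.w f = b.w f
  rw [if_neg (by decide), one_mul]

theorem star_add_x (a : I → I → ℕ) (hs : ∀ i j, a i j = a j i) (R : Finset I) (hR : FinT a R)
    (hc : ConnS a R) (q : I → ℚ) (hq : QOk a R q) (x : I) (hx : x ∈ R) (hz : IsZ (q x)) (f : ℕ)
    (hf : 1 ≤ f) (T : Trm I) (hT : RReg R T) (hk : Kink R f T) :
    TV a (blkT a (R.erase x) f (f + 1) q (T.col x (sy x (f + 1)))) = TV a (tauT a R f q T) := by
  obtain ⟨n, hn⟩ := hz
  set X := blkT a (R.erase x) f (f + 1) q (T.col x (sy x (f + 1))) with hX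
  have hqn := AG9d_qnn hs hR hq
  have hE : ∀ y l, X.E (y, l) = T.E (y, l) +
      if l = f then ∑ x' ∈ R.erase x, q x' * (cart a x' y : ℚ) else 0 := by
    intro y l
    rw [hX, blkT_E]
    rfl
  have hcs : ∀ i j, cart a i j = cart a j i := by
    intro i j
    unfold cart
    rw [hs i j]
    by_cases h : i = j
    · subst h; rfl
    · rw [if_neg h, if_neg (Ne.symm h)]
  set w : I → ℚ := fun y => if y = x then 0 else q y with hw
  have hEf : ∀ y, X.E (y, f) = T.E (y, f) + cqN a R w y := by
    intro y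
    rw [hE, if_pos rfl]
    congr 1
    unfold cqN
    rw [← Finset.add_sum_erase R _ hx]
    have h0 : (cart a y x : ℚ) * w x = 0 := by
      show (cart a y x : ℚ) * (if x = x then 0 else q x) = 0
      rw [if_pos rfl, mul_zero]
    rw [h0, zero_add]
    refine Finset.sum_congr rfl fun x' hx' => ?_
    show q x' * (cart a x' y : ℚ) = (cart a y x' : ℚ) * (if x' = x then 0 else q x')
    rw [if_neg (Finset.ne_of_mem_erase hx'), hcs x' y, mul_comm]
  have hint : ∀ y ∈ R, IsZ (X.E (y, f)) := by
    intro y hy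
    rw [hE, if_pos rfl]
    refine AG9d_zadd (AG9d_znat (hT.nat y hy f hf)) ?_
    obtain ⟨m, _, hm⟩ := hq y hy
    have e : ∑ x' ∈ R.erase x, q x' * (cart a x' y : ℚ) = (m : ℚ) - (cart a y x : ℚ) * q x := by
      rw [← hm]
      unfold cqN
      rw [← Finset.add_sum_erase R _ hx]
      have e2 : ∑ x' ∈ R.erase x, q x' * (cart a x' y : ℚ) =
          ∑ x' ∈ R.erase x, (cart a y x' : ℚ) * q x' :=
        Finset.sum_congr rfl fun x' _ => by rw [hcs x' y, mul_comm]
      rw [e2]
      ring
    rw [e, hn]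
    exact AG9d_zsub (AG9d_zcast m) (AG9d_zmul (AG9d_zint _) (AG9d_zint _))
  have hreg : ∀ y ∈ R, FReg X y f (f + 1) := by
    intro y hy
    refine ⟨?_, hint y hy, ?_⟩
    · intro l hl hlf
      rw [hE, if_neg hlf, add_zero]
      exact hT.nat y hy l hl
    · intro j l hl hne
      have hne' : (if j ∈ R.erase x then sy j (f + 1) else
          Function.update T.Λ x (sy x (f + 1)) j) (y, l) ≠ 0 := hne
      by_cases hj : j ∈ R
      · left
        have hc' : (if j ∈ R.erase x then sy j (f + 1) else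
            Function.update T.Λ x (sy x (f + 1)) j) = sy j (f + 1) := by
          by_cases hjx : j = x
          · subst hjx
            rw [if_neg (Finset.notMem_erase j R), Function.update_self]
          · rw [if_pos (Finset.mem_erase.2 ⟨hjx, hj⟩)]
        rw [hc'] at hne'
        by_contra hl0
        exact hne' (Finsupp.single_eq_of_ne fun h => hl0 (congrArg Prod.snd h))
      · have hjx : j ≠ x := fun h => hj (h ▸ hx)
        rw [if_neg (fun h => hj (Finset.mem_of_mem_erase h)), Function.update_of_ne hjx] at hne'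
        by_cases hlf : l = f
        · exact Or.inr (Or.inl hlf)
        · right
          right
          rw [hE, if_neg hlf, add_zero]
          exact hT.col y hy j hj l hl hne'
  have hsol : ∀ y ∈ R, solN a R (fun i => X.E (i, f)) y =
      solN a R (fun i => T.E (i, f)) y + w y := by
    intro y hy
    have e : solN a R (fun i => X.E (i, f)) = solN a R (fun i => T.E (i, f) + cqN a R w i) :=
      solN_congr hs hR _ _ fun i _ => hEf i
    rw [e, solN_add hs hR, solN_cqN hs hR w y hy]
  have hpos : ∀ y ∈ R, 0 < solN a R (fun i => T.E (i, f)) y := by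
    refine solN_pos hs hR hc _ (fun i hi => AG9d_nneg (hT.nat i hi f hf)) ?_
    obtain ⟨y, hy, hy1⟩ := hk
    exact ⟨y, hy, fun h0 => by rw [h0] at hy1; norm_num at hy1⟩
  have hwn : ∀ y ∈ R, 0 ≤ w y := by
    intro y hy
    show 0 ≤ if y = x then 0 else q y
    split_ifs
    · exact le_rfl
    · exact hqn y hy
  have hrep := TV_rep a hs R hR (fun _ => f) (fun _ => f + 1) (fun _ _ => hf)
    (fun _ _ _ _ _ => rfl) (fun _ _ => Or.inl rfl) X hreg
    (fun y hy => by rw [hsol y hy]; exact add_pos_of_pos_of_nonneg (hpos y hy) (hwn y hy))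
    (fun i => if i = x then -n else 0)
    (fun i hi => if_neg fun h : i = x => hi (h ▸ hx))
    (fun y hy => by
      rw [hsol y hy]
      have h1 := add_pos_of_pos_of_nonneg (hpos y hy) (hwn y hy)
      have h2 : (((if y = x then -n else 0 : ℤ)) : ℚ) ≤ 0 := by
        split_ifs
        · push_cast
          rw [← hn]
          exact neg_nonpos.2 (hqn x hx)
        · simp
      exact lt_of_le_of_lt h2 h1)
  rw [hrep]
  congr 1
  apply Trm.ext
  · funext i
    show T.γ i - (f : ℚ) * -resQ (R.erase x) q i - (f : ℚ) * (((if i = x then -n else 0 : ℤ)) : ℚ) =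
      T.γ i - (f : ℚ) * -resQ R q i
    unfold resQ
    by_cases hix : i = x
    · subst hix
      rw [if_neg (Finset.notMem_erase i R), if_pos hx, if_pos rfl, hn]
      push_cast
      ring
    · rw [if_neg hix]
      by_cases hiR : i ∈ R
      · rw [if_pos (Finset.mem_erase.2 ⟨hix, hiR⟩), if_pos hiR]
        push_cast
        ring
      · rw [if_neg (fun h => hiR (Finset.mem_of_mem_erase h)), if_neg hiR]
        push_cast
        ring
  · show (T.E - ∑ y, (-resQ (R.erase x) q y) • cE a y f) -
        ∑ y, (((if y = x then -n else 0 : ℤ)) : ℚ) • cE a y f =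
      T.E - ∑ y, (-resQ R q y) • cE a y f
    rw [sub_sub, ← Finset.sum_add_distrib]
    congr 1
    refine Finset.sum_congr rfl fun y _ => ?_
    rw [← add_smul]
    congr 1
    unfold resQ
    by_cases hix : y = x
    · subst hix
      rw [if_neg (Finset.notMem_erase y R), if_pos hx, if_pos rfl, hn]
      push_cast
      ring
    · rw [if_neg hix]
      by_cases hiR : y ∈ R
      · rw [if_pos (Finset.mem_erase.2 ⟨hix, hiR⟩), if_pos hiR]
        push_cast
        ring
      · rw [if_neg (fun h => hiR (Finset.mem_of_mem_erase h)), if_neg hiR]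
        push_cast
        ring
  · funext j
    show (if j ∈ R.erase x then sy j (f + 1) else Function.update T.Λ x (sy x (f + 1)) j) =
      if j ∈ R then sy j (f + 1) else T.Λ j
    by_cases hjx : j = x
    · subst hjx
      rw [if_neg (Finset.notMem_erase j R), Function.update_self, if_pos hx]
    · rw [Function.update_of_ne hjx]
      by_cases hjR : j ∈ R
      · rw [if_pos (Finset.mem_erase.2 ⟨hjx, hjR⟩), if_pos hjR]
      · rw [if_neg (fun h => hjR (Finset.mem_of_mem_erase h)), if_neg hjR]

/-- integrality for the outer vertex. -/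
theorem AG9d_hI {a : I → I → ℕ} {R : Finset I} {x : I} {q : I → ℚ} (A U : Finset I)
    (hAU : Disjoint A U) (hc : A ∪ U = R.erase x)
    (hsum : IsZ (∑ y ∈ R.erase x, (a x y : ℚ) * q y)) (p : I → ℚ)
    (hp : ∀ y ∈ U, IsZ (p y - q y)) :
    IsZ (∑ y ∈ A, (a x y : ℚ) * q y + ∑ y ∈ U, (a x y : ℚ) * p y) := by
  have e : ∑ y ∈ A, (a x y : ℚ) * q y + ∑ y ∈ U, (a x y : ℚ) * p y =
      ∑ y ∈ R.erase x, (a x y : ℚ) * q y + ∑ y ∈ U, (a x y : ℚ) * (p y - q y) := by
    rw [← hc, Finset.sum_union hAU, add_assoc, ← Finset.sum_add_distrib]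
    congr 1
    exact Finset.sum_congr rfl fun y _ => by ring
  rw [e]
  exact AG9d_zadd hsum (AG9d_zsum _ _ fun y hy => AG9d_zmul (AG9d_zcast _) (hp y hy))

/-- the patterns of a product of blocks of the context. -/
theorem AG9d_win {a : I → I → ℕ} (hs : ∀ i j, a i j = a j i) {cd : CrossData a} {q : I → ℚ}
    {K : ℕ} (L : List (RB I)) (hd : L.Pairwise (fun b c => Sep a b.B c.B))
    (hr : ∀ b ∈ L, Resp a cd b.B q K b.w b.Φ) (f : ℕ) (hfK : f ≤ K) (c : ℚ × Pat I)
    (hc : c ∈ prodF (atF L f)) : WinPat a cd (uniR L) q f c.2 := by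
  rw [← uni_atF L f]
  refine WinPat_prodF a hs cd f q (atF L f) ?_ ?_ c hc
  · unfold atF
    rw [List.pairwise_map]
    exact hd
  · intro b hb c hc
    unfold atF at hb
    rw [List.mem_map] at hb
    obtain ⟨b', hb', rfl⟩ := hb
    exact (hr b' hb').win f hfK c hc

theorem AG9d_disj {a : I → I → ℕ} (L : List (RB I)) (hd : L.Pairwise (fun b c => Sep a b.B c.B))
    (f : ℕ) : (atF L f).Pairwise (fun b c => Disjoint b.1 c.1) := by
  unfold atF
  rw [List.pairwise_map]
  exact hd.imp fun h => h.1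

/-- a joint value vanishes if it vanishes for all patterns. -/
theorem AG9d_zero (a : I → I → ℕ) (L : List (RB I))
    (hd : L.Pairwise (fun b c => Sep a b.B c.B)) (f : ℕ) (T : Trm I)
    (h : ∀ c ∈ prodF (atF L f), TV a (patT a (uniR L) c.2 T) = 0) : evU a (atF L f) T = 0 := by
  rw [evU_eq_evF a (atF L f) (AG9d_disj L hd f) T, uni_atF]
  unfold evF
  refine List.sum_eq_zero ?_
  intro y hy
  rw [List.mem_map] at hy
  obtain ⟨c, hc, rfl⟩ := hy
  rw [h c hc, mul_zero]

theorem AG9d_blk {a : I → I → ℕ} (hs : ∀ i j, a i j = a j i) {cd : CrossData a}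
    {R : Finset I} {x : I} {q : I → ℚ} {K : ℕ} {u : ℕ → ℚ} {L : List (RB I)}
    (h : StarCtx a cd R x q K u L) (f : ℕ) (hf : 1 ≤ f) (hfK : f ≤ K) (L' : List (RB I))
    (hL' : ∀ b ∈ L', b ∈ L) : ∀ b ∈ L'.map (RB.blk q f false), BlkOk a cd f b := by
  intro b hb
  obtain ⟨b', hb', rfl⟩ := List.mem_map.1 hb
  obtain ⟨_, _, h3, h4, _⟩ := h.block hs b' (hL' b' hb')
  exact RB_blkOk a hs cd q K f hf hfK false b' h3 (h.bconn b' (hL' b' hb')) h4
    (h.resp b' (hL' b' hb'))

theorem AG9d_blksep {a : I → I → ℕ} (q : I → ℚ) (f : ℕ) (L : List (RB I))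
    (hd : L.Pairwise (fun b c => Sep a b.B c.B)) :
    (L.map (RB.blk q f false)).Pairwise (fun b c => Sep a b.B c.B) := by
  rw [List.pairwise_map]
  exact hd

theorem AG9d_blkadj {a : I → I → ℕ} (hs : ∀ i j, a i j = a j i) {cd : CrossData a}
    {R : Finset I} {x : I} {q : I → ℚ} {K : ℕ} {u : ℕ → ℚ} {L : List (RB I)}
    (h : StarCtx a cd R x q K u L) (f : ℕ) (L' : List (RB I))
    (hL' : ∀ b ∈ L', b ∈ L) : ∀ b ∈ L'.map (RB.blk q f false), ∃ y ∈ b.B, 0 < a x y := by
  intro b hb
  obtain ⟨b', hb', rfl⟩ := List.mem_map.1 hb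
  exact (h.block hs b' (hL' b' hb')).2.2.2.2

theorem AG9d_blksum (a : I → I → ℕ) (q : I → ℚ) (f : ℕ) (x : I) (L : List (RB I))
    (hd : L.Pairwise (fun b c => Sep a b.B c.B)) :
    ((L.map (RB.blk q f false)).map (fun b => ∑ y ∈ b.B, (a x y : ℚ) * b.q y)).sum =
      ∑ y ∈ uniR L, (a x y : ℚ) * q y := by
  rw [← AG9d_sum L (hd.imp fun h => h.1) (fun y => (a x y : ℚ) * q y), List.map_map]
  rfl

theorem AG9d_merge (a : I → I → ℕ) (q : I → ℚ) (f : ℕ) (L : List (RB I))
    (hd : L.Pairwise (fun b c => Sep a b.B c.B)) (T : Trm I) :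
    expl a f (L.map (RB.blk q f false)) T = blkT a (uniR L) f (f + 1) q T := by
  have h := expl_merge a f (L.map (RB.blk q f false)) q false
    ((AG9d_blksep q f L hd).imp fun h => h.1)
    (fun b hb y _ => by obtain ⟨b', _, rfl⟩ := List.mem_map.1 hb; rfl)
    (fun b hb => by obtain ⟨b', _, rfl⟩ := List.mem_map.1 hb; rfl) T
  rw [h, AG9d_uniB]
  rfl

/-- kink at the chain vertex. -/
theorem AG9d_caseA (a : I → I → ℕ) (hs : ∀ i j, a i j = a j i) (cd : CrossData a) (R : Finset I)
    (x : I) (q : I → ℚ) (K : ℕ) (u : ℕ → ℚ) (L : List (RB I)) (h : StarCtx a cd R x q K u L)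
    (f : ℕ) (hf : 1 ≤ f) (hfK : f ≤ K) (T : Trm I) (hT : RReg R T) (hkx : 1 ≤ T.E (x, f)) :
    evU a (({x}, alU u f) :: atF L f) T = stW u L f * TV a (tauT a R f q T) := by
  have hxR : x ∈ R := h.hx
  have hRe : uniR L = R.erase x := h.cov
  have hxe : x ∉ R.erase x := Finset.notMem_erase x R
  have hfe : FinT a (R.erase x) := h.fin.mono (Finset.erase_subset x R)
  have hxx : a x x = 0 := h.fin.loopfree x hxR
  have hsum := h.sum_int hs
  have hxu : x ∉ uni (atF L f) := by
    rw [uni_atF, hRe]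
    exact hxe
  have hsep0 : ∀ A : Finset I, Sep a A ∅ := fun A =>
    ⟨Finset.disjoint_empty_right A, fun _ _ y hy => absurd hy (Finset.notMem_empty y)⟩
  have hcolE : ∀ l0 l, (T.col x (sy x l0)).E (x, l) = T.E (x, l) := fun _ _ => rfl
  rw [evU_alU a u f x (atF L f) hxu T]
  have hz0 : evU a (atF L f) (T.col x (sy x f)) = 0 := by
    refine AG9d_zero a L h.sep f _ fun c hc => ?_
    have hw := AG9d_win hs L h.sep h.resp f hfK c hc
    rw [hRe] at hw ⊢
    have hI := AG9d_hI (a := a) (R := R) (x := x) (q := q) ∅ (R.erase x)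
      (Finset.disjoint_empty_left _) (Finset.empty_union _) hsum c.2.q hw.cls
    rw [Finset.sum_empty, zero_add] at hI
    refine TV_kill a hs cd f hf (R.erase x) ∅ hfe (FinT.empty a) (hsep0 _) c.2 hw.wide
      (fun _ => f + 1) (fun v hv => absurd hv (Finset.notMem_empty v)) (T.col x (sy x f))
      (AG9d_reg f T hT) (fun v hv => absurd hv (Finset.notMem_empty v)) x hxe
      (Finset.notMem_empty x) hxx (fun l hl _ _ => hT.nat x hxR l hl)
      (AG9d_nneg (hT.nat x hxR (f + 1) (by omega))) ?_ ?_ ?_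
    · exact AG9d_zsub (AG9d_zadd (AG9d_znat (hT.nat x hxR f hf))
        (AG9d_znat (hT.nat x hxR (f + 1) (by omega)))) hI
    · intro j hj l hl hne
      rcases AG9d_colx hxR f T hT j hj l hl hne with h1 | h1
      · exact Or.inl h1
      · exact Or.inr (lt_of_lt_of_le one_pos h1)
    · rw [Finset.sum_empty, add_zero, hcolE]
      exact lt_of_lt_of_le one_pos hkx
  rw [hz0, mul_zero, sub_zero]
  have hconv := evU_conv a hs cd f hf (L.map (RB.blk q f false))
    (AG9d_blk hs h f hf hfK L fun b hb => hb) (AG9d_blksep q f L h.sep) ∅ (FinT.empty a)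
    (hsep0 _) x (by rw [AG9d_uniB, hRe]; exact hxe) (Finset.notMem_empty x) hxx
    (AG9d_blkadj hs h f L fun b hb => hb) (T.col x (sy x (f + 1)))
    (by rw [AG9d_uniB, hRe]; exact AG9d_reg (f + 1) T hT) (fun _ => f + 1)
    (fun v hv => absurd hv (Finset.notMem_empty v))
    (fun v hv => absurd hv (Finset.notMem_empty v)) (f + 1) (Or.inl rfl)
    (fun l hl _ => hT.nat x hxR l hl)
    (by
      rw [AG9d_blksum a q f x L h.sep, hRe]
      exact AG9d_zsub (AG9d_znat (hT.nat x hxR f hf)) hsum)
    (by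
      intro j hj l hl hne
      rw [AG9d_uniB, hRe] at hj
      rcases AG9d_colx hxR (f + 1) T hT j hj l hl hne with h1 | h1
      · exact Or.inr (Or.inl h1)
      · exact Or.inr (Or.inr (lt_of_lt_of_le one_pos h1)))
    (by
      rw [Finset.sum_empty, add_zero, hcolE]
      exact lt_of_lt_of_le one_pos hkx)
  rw [AG9d_map, AG9d_cf, AG9d_merge a q f L h.sep, hRe] at hconv
  rw [hconv, star_add_x a hs R h.fin h.conn q h.qok x hxR h.hz f hf T hT ⟨x, hxR, hkx⟩]
  unfold stW
  ring

/-- evaluation of a kinked block in front of the chain vertex. -/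
theorem AG9d_head (a : I → I → ℕ) (hs : ∀ i j, a i j = a j i) (cd : CrossData a) (q : I → ℚ)
    (K : ℕ) (b : RB I) (hb : Resp a cd b.B q K b.w b.Φ) (f : ℕ) (hf : 1 ≤ f) (hfK : f ≤ K)
    (U : List (Finset I × FFn I)) (hdb : ∀ c ∈ U, Disjoint b.B c.1)
    (hd : U.Pairwise (fun b c => Disjoint b.1 c.1))
    (hins : ∀ c ∈ prodF U, ∀ x ∈ b.B, ∀ y ∈ uni U, c.2.q y ≠ 0 → a x y = 0)
    (T : Trm I) (hT : RReg (b.B ∪ uni U) T) (hk : Kink b.B f T) :
    evU a ((b.B, b.Φ f) :: U) T = b.w f * evU a U (blkT a b.B f (f + 1) q T) := by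
  have hdU : Disjoint b.B (uni U) := by
    rw [Finset.disjoint_left]
    intro y hy hy'
    obtain ⟨c, hc, hyc⟩ := (mem_uni U y).1 hy'
    exact Finset.disjoint_left.1 (hdb c hc) hy hyc
  rw [evU_cons' a (b.B, b.Φ f) U hdb hd T, evU_eq_evF a U hd]
  unfold evF
  rw [← List.sum_map_mul_left]
  congr 1
  refine List.map_congr_left fun c hc => ?_
  have hreg : RReg b.B (patT a (uni U) c.2 T) :=
    RReg_patT a hs b.B (uni U) hdU c.2 (hins c hc) T hT
  have hkink : Kink b.B f (patT a (uni U) c.2 T) := by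
    obtain ⟨y, hy, hy1⟩ := hk
    refine ⟨y, hy, ?_⟩
    rw [patT_E]
    have h0 : ∑ x ∈ (uni U).filter (fun x => c.2.s x = f), c.2.q x * (cart a x y : ℚ) = 0 := by
      refine Finset.sum_eq_zero fun x hx => ?_
      have hxU : x ∈ uni U := (Finset.mem_filter.1 hx).1
      by_cases hq0 : c.2.q x = 0
      · rw [hq0, zero_mul]
      · have hne : x ≠ y := fun h => Finset.disjoint_left.1 hdU hy (h ▸ hxU)
        have hayx := hins c hc y hy x hxU hq0
        have hcart : cart a x y = 0 := by
          unfold cart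
          rw [if_neg hne, hs x y, hayx]
          rfl
        rw [hcart]
        simp
    rw [h0, add_zero]
    exact hy1
  have hknk := hb.knk f hf hfK _ hreg hkink
  show c.1 * evF a b.B (b.Φ f) (patT a (uni U) c.2 T) =
    b.w f * (c.1 * TV a (patT a (uni U) c.2 (blkT a b.B f (f + 1) q T)))
  rw [hknk]
  show c.1 * (b.w f * TV a (blkT a b.B f (f + 1) q (patT a (uni U) c.2 T))) = _
  rw [blkT_patT_comm a b.B (uni U) hdU f (f + 1) q c.2 T]
  ring

/-- kink in a block. -/
theorem AG9d_caseB (a : I → I → ℕ) (hs : ∀ i j, a i j = a j i) (cd : CrossData a) (R : Finset I)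
    (x : I) (q : I → ℚ) (K : ℕ) (u : ℕ → ℚ) (L : List (RB I)) (h : StarCtx a cd R x q K u L)
    (f : ℕ) (hf : 1 ≤ f) (hfK : f ≤ K) (T : Trm I) (hT : RReg R T) (b : RB I) (hb : b ∈ L)
    (hk : Kink b.B f T) :
    evU a (({x}, alU u f) :: atF L f) T = stW u L f * TV a (tauT a R f q T) := by
  obtain ⟨L1, L2, rfl⟩ := List.append_of_mem hb
  have hperm : (L1 ++ b :: L2).Perm (b :: (L1 ++ L2)) := List.perm_middle
  set L' := L1 ++ L2 with hL'
  have hsub : ∀ c ∈ L', c ∈ L1 ++ b :: L2 := by
    intro c hc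
    exact hperm.mem_iff.2 (List.mem_cons_of_mem b hc)
  have hsepp : (b :: L').Pairwise (fun b c => Sep a b.B c.B) :=
    (hperm.pairwise_iff (fun {c d} hcd => hcd.symm hs)).1 h.sep
  rw [List.pairwise_cons] at hsepp
  obtain ⟨hsb, hsL⟩ := hsepp
  have hxR : x ∈ R := h.hx
  have hxe : x ∉ R.erase x := Finset.notMem_erase x R
  have hxx : a x x = 0 := h.fin.loopfree x hxR
  have hsum := h.sum_int hs
  have hcov : b.B ∪ uniR L' = R.erase x := by
    rw [← h.cov]
    ext y
    rw [Finset.mem_union, mem_uniR, mem_uniR]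
    constructor
    · rintro (hy | ⟨c, hc, hy⟩)
      · exact ⟨b, hb, hy⟩
      · exact ⟨c, hsub c hc, hy⟩
    · rintro ⟨c, hc, hy⟩
      rcases List.mem_cons.1 (hperm.mem_iff.1 hc) with h1 | h1
      · exact Or.inl (h1 ▸ hy)
      · exact Or.inr ⟨c, h1, hy⟩
  have hbU : Sep a b.B (uniR L') := by
    refine ⟨?_, ?_⟩
    · rw [Finset.disjoint_left]
      intro y hy hy'
      obtain ⟨c, hc, hyc⟩ := (mem_uniR L' y).1 hy'
      exact Finset.disjoint_left.1 (hsb c hc).1 hy hyc
    · intro y hy z hz
      obtain ⟨c, hc, hzc⟩ := (mem_uniR L' z).1 hz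
      exact (hsb c hc).2 y hy z hzc
  obtain ⟨hbR, hxb, hbfin, hbq, hbadj⟩ := h.block hs b hb
  have hxL' : x ∉ uniR L' := fun hx' => hxe (hcov ▸ Finset.mem_union_right _ hx')
  have hUfin : FinT a (uniR L') := by
    refine h.fin.mono fun y hy => ?_
    have : y ∈ R.erase x := hcov ▸ Finset.mem_union_right _ hy
    exact Finset.mem_of_mem_erase this
  have hresp' : ∀ c ∈ L', Resp a cd c.B q K c.w c.Φ := fun c hc => h.resp c (hsub c hc)
  -- bring the block to the front
  have hdis0 : (({x}, alU u f) :: atF (L1 ++ b :: L2) f).Pairwise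
      (fun b c => Disjoint b.1 c.1) := by
    rw [List.pairwise_cons]
    refine ⟨?_, AG9d_disj _ h.sep f⟩
    intro c hc
    unfold atF at hc
    obtain ⟨c', hc', rfl⟩ := List.mem_map.1 hc
    rw [Finset.disjoint_singleton_left]
    exact (h.block hs c' hc').2.1
  have hpermU : (({x}, alU u f) :: atF (L1 ++ b :: L2) f).Perm
      ((b.B, b.Φ f) :: ({x}, alU u f) :: atF L' f) := by
    have h1 : (atF (L1 ++ b :: L2) f).Perm ((b.B, b.Φ f) :: atF L' f) := by
      unfold atF
      exact hperm.map _
    exact (h1.cons _).trans (List.Perm.swap _ _ _)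
  rw [evU_perm a _ _ hpermU hdis0 T]
  have hdis1 : (({x}, alU u f) :: atF L' f).Pairwise (fun b c => Disjoint b.1 c.1) := by
    rw [List.pairwise_cons]
    refine ⟨?_, AG9d_disj _ hsL f⟩
    intro c hc
    unfold atF at hc
    obtain ⟨c', hc', rfl⟩ := List.mem_map.1 hc
    rw [Finset.disjoint_singleton_left]
    exact (h.block hs c' (hsub c' hc')).2.1
  have huni : uni (({x}, alU u f) :: atF L' f) = {x} ∪ uniR L' := by
    show {x} ∪ uni (atF L' f) = {x} ∪ uniR L'
    rw [uni_atF]
  have hR' : b.B ∪ ({x} ∪ uniR L') = R := by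
    have e : b.B ∪ ({x} ∪ uniR L') = {x} ∪ (b.B ∪ uniR L') := by
      rw [← Finset.union_assoc, Finset.union_comm b.B {x}, Finset.union_assoc]
    rw [e, hcov, ← Finset.insert_eq, Finset.insert_erase hxR]
  rw [AG9d_head a hs cd q K b (h.resp b hb) f hf hfK (({x}, alU u f) :: atF L' f) ?_ hdis1 ?_ T
    (by rw [huni, hR']; exact hT) hk]
  rotate_left
  · intro c hc
    rcases List.mem_cons.1 hc with h1 | h1
    · rw [h1]
      show Disjoint b.B {x}
      rw [Finset.disjoint_singleton_right]
      exact hxb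
    · unfold atF at h1
      obtain ⟨c', hc', rfl⟩ := List.mem_map.1 h1
      exact (hsb c' hc').1
  · intro c hc y hy z hz hzq
    rw [huni, Finset.mem_union, Finset.mem_singleton] at hz
    rcases hz with hz | hz
    · exfalso
      apply hzq
      obtain ⟨d, hd, hdx⟩ := prodF_mem _ hdis1 c hc ({x}, alU u f) List.mem_cons_self
      rw [hz, (hdx x (Finset.mem_singleton_self x)).2]
      unfold alU at hd
      split_ifs at hd with h0
      · rw [List.mem_singleton] at hd
        rw [hd]
      · rw [List.mem_cons, List.mem_singleton] at hd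
        rcases hd with hd | hd <;> rw [hd]
    · exact hbU.2 y hy z hz
  have hxu : x ∉ uni (atF L' f) := by
    rw [uni_atF]
    exact hxL'
  rw [evU_alU a u f x (atF L' f) hxu, ← blkT_col_comm a b.B f (f + 1) q x hxb,
    ← blkT_col_comm a b.B f (f + 1) q x hxb]
  have hkT : ∀ l0, Kink b.B f (T.col x (sy x l0)) := fun l0 => hk
  have hz0 : evU a (atF L' f) (blkT a b.B f (f + 1) q (T.col x (sy x f))) = 0 := by
    refine AG9d_zero a L' hsL f _ fun c hc => ?_
    have hw := AG9d_win hs L' hsL hresp' f hfK c hc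
    refine kink_kill a hs cd f hf b.B hbfin (h.bconn b hb) (f + 1) (Or.inl rfl) q hbq (uniR L')
      hUfin hbU c.2 hw.wide (T.col x (sy x f)) (by rw [hcov]; exact AG9d_reg f T hT) (hkT f) x
      hxb hxL' hxx hbadj (fun l hl => hT.nat x hxR l hl)
      (AG9d_hI b.B (uniR L') hbU.1 hcov hsum c.2.q hw.cls) ?_
    intro j hj1 hj2 l hl hne
    refine AG9d_colx hxR f T hT j ?_ l hl hne
    rw [← hcov, Finset.mem_union]
    exact fun h => h.elim hj1 hj2
  rw [hz0, mul_zero, sub_zero]
  have hconv := kink_conv a hs cd f hf b.B hbfin (h.bconn b hb) (f + 1) (Or.inl rfl) q hbq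
    (L'.map (RB.blk q f false)) (AG9d_blk hs h f hf hfK L' hsub) (AG9d_blksep q f L' hsL)
    (by rw [AG9d_uniB]; exact hbU) (T.col x (sy x (f + 1)))
    (by rw [AG9d_uniB, hcov]; exact AG9d_reg (f + 1) T hT) (hkT (f + 1)) x hxb
    (by rw [AG9d_uniB]; exact hxL') hxx hbadj (AG9d_blkadj hs h f L' hsub) (f + 1) (Or.inl rfl)
    (fun l hl => hT.nat x hxR l hl)
    (by
      rw [AG9d_blksum a q f x L' hsL]
      exact AG9d_hI b.B (uniR L') hbU.1 hcov hsum q fun y _ => by
        rw [sub_self]
        exact ⟨0, by simp⟩)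
    (by
      intro j hj1 hj2 l hl hne
      rw [AG9d_uniB] at hj2
      rcases AG9d_colx hxR (f + 1) T hT j (by
        rw [← hcov, Finset.mem_union]
        exact fun h => h.elim hj1 hj2) l hl hne with h1 | h1
      · exact Or.inr (Or.inl h1)
      · exact Or.inr (Or.inr h1))
  rw [AG9d_map, AG9d_cf, AG9d_merge a q f L' hsL,
    ← blkT_union a (uniR L') b.B hbU.1.symm f (f + 1) q, Finset.union_comm (uniR L') b.B,
    hcov] at hconv
  have hkR : Kink R f T := by
    obtain ⟨y, hy, hy1⟩ := hk
    exact ⟨y, hbR hy, hy1⟩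
  rw [hconv, star_add_x a hs R h.fin h.conn q h.qok x hxR h.hz f hf T hT hkR]
  have hprod : ((L1 ++ b :: L2).map (fun b => b.w f)).prod =
      b.w f * (L'.map (fun b => b.w f)).prod := by
    rw [(hperm.map (fun b : RB I => b.w f)).prod_eq, List.map_cons, List.prod_cons]
  unfold stW
  rw [hprod]
  ring

theorem star_knk (a : I → I → ℕ) (hs : ∀ i j, a i j = a j i) (cd : CrossData a) (R : Finset I)
    (x : I) (q : I → ℚ) (K : ℕ) (u : ℕ → ℚ) (L : List (RB I)) (h : StarCtx a cd R x q K u L)
    (f : ℕ) (hf : 1 ≤ f) (hfK : f ≤ K) (T : Trm I) (hT : RReg R T) (hk : Kink R f T) :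
    evF a R (stF x u L f) T = stW u L f * TV a (tauT a R f q T) := by
  rw [evF_stF hs h f T]
  obtain ⟨y, hy, hy1⟩ := hk
  by_cases hyx : y = x
  · rw [hyx] at hy1
    exact AG9d_caseA a hs cd R x q K u L h f hf hfK T hT hy1
  · have hye : y ∈ uniR L := by
      rw [h.cov]
      exact Finset.mem_erase.2 ⟨hyx, hy⟩
    obtain ⟨b, hb, hyb⟩ := (mem_uniR L y).1 hye
    exact AG9d_caseB a hs cd R x q K u L h f hf hfK T hT b hb ⟨y, hyb, hy1⟩

end

end Pool.Agent.H27.KAC

end

section

/-!
KAC ADE, module AG9f: one block makes its step (the chain vertex is already at the frontier `f - 1`).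

`star_event`: `evU_event` with the other blocks `({x}, alU u (f-1)) :: (atF L1 (f-1) ++ atF L2 f)`.  `evU_alU` for `f - 1`: the part with
column `(x,f)` vanishes by `raw_kill` (`z = x`), the part with column `(x,f-1)` is evaluated with `raw_conv`
(`σz = f - 1`, blocks `RB.blk`), `expl_append`, `expl_merge`, then `star_rep`.  If `m'` is not good, both sides vanish by `raw_pos`
(for `b.B`, and for `R`).  The terms on the right hand side with `m` a plateau on `b.B` vanish by `raw_pos` for `R`.
Integrality `hI2` of `raw_kill` and `raw_conv`: `StarCtx.sum_int`, `WinPat.cls`.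
-/

set_option autoImplicit false

namespace Pool.Agent.H27.KAC

open scoped BigOperators

section

variable {I : Type} [Fintype I] [DecidableEq I]

/-- the other blocks. -/
private def AG9f_L (q : I → ℚ) (f : ℕ) (L1 L2 : List (RB I)) : List (Blk I) :=
  L1.map (RB.blk q f true) ++ L2.map (RB.blk q f false)

omit [Fintype I] [DecidableEq I] in
private theorem AG9f_map (q : I → ℚ) (f : ℕ) (L1 L2 : List (RB I)) :
    (AG9f_L q f L1 L2).map (fun b => (b.B, b.Φ)) = atF L1 (f - 1) ++ atF L2 f := by
  unfold AG9f_L atF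
  rw [List.map_append, List.map_map, List.map_map]
  congr 1

private theorem AG9f_uniB (q : I → ℚ) (f : ℕ) (L1 L2 : List (RB I)) :
    uniB (AG9f_L q f L1 L2) = uniR L1 ∪ uniR L2 := by
  ext y
  rw [mem_uniB, Finset.mem_union, mem_uniR, mem_uniR]
  unfold AG9f_L
  constructor
  · rintro ⟨c, hc, hy⟩
    rcases List.mem_append.1 hc with hc | hc
    · obtain ⟨d, hd, rfl⟩ := List.mem_map.1 hc
      exact Or.inl ⟨d, hd, hy⟩
    · obtain ⟨d, hd, rfl⟩ := List.mem_map.1 hc
      exact Or.inr ⟨d, hd, hy⟩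
  · rintro (⟨d, hd, hy⟩ | ⟨d, hd, hy⟩)
    · exact ⟨RB.blk q f true d, List.mem_append.2 (Or.inl (List.mem_map.2 ⟨d, hd, rfl⟩)), hy⟩
    · exact ⟨RB.blk q f false d, List.mem_append.2 (Or.inr (List.mem_map.2 ⟨d, hd, rfl⟩)), hy⟩

private theorem AG9f_sum (L : List (Blk I)) (hd : L.Pairwise (fun b c => Disjoint b.B c.B))
    (g : I → ℚ) : (L.map (fun b => ∑ x ∈ b.B, g x)).sum = ∑ x ∈ uniB L, g x := by
  induction L with
  | nil => simp [uniB]
  | cons b L ih =>
    rw [List.pairwise_cons] at hd
    have hdis : Disjoint b.B (uniB L) := by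
      rw [Finset.disjoint_left]
      intro y hy hy'
      obtain ⟨c, hc, hyc⟩ := (mem_uniB L y).1 hy'
      exact Finset.disjoint_left.1 (hd.1 c hc) hy hyc
    rw [List.map_cons, List.sum_cons, ih hd.2]
    exact (Finset.sum_union hdis).symm

private theorem AG9f_cfup (q : I → ℚ) (f : ℕ) (L : List (RB I))
    (hd : L.Pairwise (fun b c => Disjoint b.B c.B)) :
    ((L.map (RB.blk q f true)).map Blk.cf).prod =
      (-1) ^ (uniR L).card * (L.map (fun b => b.w f)).prod := by
  induction L with
  | nil => simp [uniR]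
  | cons b L ih =>
    rw [List.pairwise_cons] at hd
    have hdis : Disjoint b.B (uniR L) := by
      rw [Finset.disjoint_left]
      intro y hy hy'
      obtain ⟨c, hc, hyc⟩ := (mem_uniR L y).1 hy'
      exact Finset.disjoint_left.1 (hd.1 c hc) hy hyc
    have hc : (uniR (b :: L)).card = b.B.card + (uniR L).card :=
      Finset.card_union_of_disjoint hdis
    rw [List.map_cons, List.map_cons, List.prod_cons, ih hd.2, hc, List.map_cons, List.prod_cons,
      pow_add]
    have : Blk.cf (RB.blk q f true b) = (-1) ^ b.B.card * b.w f := by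
      simp [Blk.cf, RB.blk]
    rw [this]
    ring

omit [Fintype I] [DecidableEq I] in
private theorem AG9f_cfdn (q : I → ℚ) (f : ℕ) (L : List (RB I)) :
    ((L.map (RB.blk q f false)).map Blk.cf).prod = (L.map (fun b => b.w f)).prod := by
  rw [List.map_map]
  congr 1
  refine List.map_congr_left fun b _ => ?_
  simp [Blk.cf, RB.blk]

omit [Fintype I] in
private theorem AG9f_isZ_add {p r : ℚ} (hp : IsZ p) (hr : IsZ r) : IsZ (p + r) := by
  obtain ⟨m, rfl⟩ := hp
  obtain ⟨n, rfl⟩ := hr
  exact ⟨m + n, by push_cast; ring⟩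

private theorem AG9f_isZ_sum {ι : Type} (s : Finset ι) (g : ι → ℚ) (h : ∀ i ∈ s, IsZ (g i)) :
    IsZ (∑ i ∈ s, g i) := by
  classical
  induction s using Finset.induction_on with
  | empty => exact ⟨0, by simp⟩
  | insert i s hi ih =>
    rw [Finset.sum_insert hi]
    obtain ⟨m, hm⟩ := h i (Finset.mem_insert_self _ _)
    obtain ⟨n, hn⟩ := ih (fun j hj => h j (Finset.mem_insert_of_mem hj))
    exact ⟨m + n, by rw [hm, hn]; push_cast; ring⟩

private theorem AG9f_sep_uniR {a : I → I → ℕ} (A : Finset I) (L : List (RB I))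
    (h : ∀ c ∈ L, Sep a A c.B) : Sep a A (uniR L) := by
  constructor
  · rw [Finset.disjoint_left]
    intro y hy hy'
    obtain ⟨c, hc, hyc⟩ := (mem_uniR L y).1 hy'
    exact Finset.disjoint_left.1 (h c hc).1 hy hyc
  · intro y hy z hz
    obtain ⟨c, hc, hzc⟩ := (mem_uniR L z).1 hz
    exact (h c hc).2 y hy z hzc

omit [Fintype I] [DecidableEq I] in
private theorem AG9f_bnd_mono (A R : Finset I) (hAR : A ⊆ R) (f : ℕ) (q : I → ℚ) (T : Trm I) :
    bnd A f q T ≤ bnd R f q T :=
  Finset.sum_le_sum_of_subset hAR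

/-- the evaluation of the other blocks on the raw terms of the block `b`. -/
private theorem AG9f_eval (a : I → I → ℕ) (hs : ∀ i j, a i j = a j i) (cd : CrossData a)
    (R : Finset I) (x : I) (q : I → ℚ) (K : ℕ) (u : ℕ → ℚ) (L1 : List (RB I)) (b : RB I)
    (L2 : List (RB I)) (h : StarCtx a cd R x q K u (b :: (L1 ++ L2))) (f : ℕ) (hf : 1 ≤ f)
    (hfK : f ≤ K) (T : Trm I) (hT : RReg R T) (m : I → ℕ) (hm : ¬ Plat b.B q m) :
    evU a (({x}, alU u (f - 1)) :: (atF L1 (f - 1) ++ atF L2 f)) (rawT a b.B f q m T) =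
      -(u f * ((-1) ^ (uniR L1).card * ((L1 ++ L2).map (fun b => b.w f)).prod)) *
      TV a (blkT a (uniR L1) f (f - 1) q (blkT a (uniR L2) f (f + 1) q
        (rawT a b.B f q m (T.col x (sy x (f - 1)))))) := by
  classical
  have hsep := h.sep
  rw [List.pairwise_cons] at hsep
  obtain ⟨hsb, hsL⟩ := hsep
  rw [List.pairwise_append] at hsL
  obtain ⟨hs1, hs2, hs12⟩ := hsL
  have hbl : ∀ c ∈ L1 ++ L2, c.B ⊆ R ∧ x ∉ c.B ∧ FinT a c.B ∧ QOk a c.B q ∧
      (∃ y ∈ c.B, 0 < a x y) := fun c hc => h.block hs c (List.mem_cons_of_mem _ hc)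
  obtain ⟨hbR, hxb, hbfin, hbq, hbadj⟩ := h.block hs b List.mem_cons_self
  have hcov : uniR (b :: (L1 ++ L2)) = R.erase x := h.cov
  set L' := AG9f_L q f L1 L2 with hL'
  have huni : uniB L' = uniR L1 ∪ uniR L2 := AG9f_uniB q f L1 L2
  have hxL : x ∉ uniB L' := by
    rw [huni, Finset.mem_union, mem_uniR, mem_uniR]
    rintro (⟨c, hc, hx⟩ | ⟨c, hc, hx⟩)
    · exact (hbl c (List.mem_append.2 (Or.inl hc))).2.1 hx
    · exact (hbl c (List.mem_append.2 (Or.inr hc))).2.1 hx
  have hAU : b.B ∪ uniB L' = R.erase x := by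
    rw [← hcov, huni]
    ext y
    simp only [Finset.mem_union, mem_uniR, List.mem_cons, List.mem_append]
    constructor
    · rintro (hy | ⟨c, hc, hy⟩ | ⟨c, hc, hy⟩)
      · exact ⟨b, Or.inl rfl, hy⟩
      · exact ⟨c, Or.inr (Or.inl hc), hy⟩
      · exact ⟨c, Or.inr (Or.inr hc), hy⟩
    · rintro ⟨c, (rfl | hc | hc), hy⟩
      · exact Or.inl hy
      · exact Or.inr (Or.inl ⟨c, hc, hy⟩)
      · exact Or.inr (Or.inr ⟨c, hc, hy⟩)
  have hsA : Sep a b.B (uniB L') := by
    rw [huni]
    have h1 : Sep a b.B (uniR L1) :=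
      AG9f_sep_uniR b.B L1 fun c hc => hsb c (List.mem_append.2 (Or.inl hc))
    have h2 : Sep a b.B (uniR L2) :=
      AG9f_sep_uniR b.B L2 fun c hc => hsb c (List.mem_append.2 (Or.inr hc))
    exact (Sep_union (h1.symm hs) (h2.symm hs)).symm hs
  have hok : ∀ c ∈ L', BlkOk a cd f c := by
    intro c hc
    rw [hL'] at hc
    unfold AG9f_L at hc
    rcases List.mem_append.1 hc with hc | hc
    · obtain ⟨d, hd, rfl⟩ := List.mem_map.1 hc
      have hd' := List.mem_append.2 (Or.inl hd : d ∈ L1 ∨ d ∈ L2)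
      obtain ⟨_, _, h3, h4, _⟩ := hbl d hd'
      exact RB_blkOk a hs cd q K f hf hfK true d h3 (h.bconn d (List.mem_cons_of_mem _ hd')) h4
        (h.resp d (List.mem_cons_of_mem _ hd'))
    · obtain ⟨d, hd, rfl⟩ := List.mem_map.1 hc
      have hd' := List.mem_append.2 (Or.inr hd : d ∈ L1 ∨ d ∈ L2)
      obtain ⟨_, _, h3, h4, _⟩ := hbl d hd'
      exact RB_blkOk a hs cd q K f hf hfK false d h3 (h.bconn d (List.mem_cons_of_mem _ hd')) h4
        (h.resp d (List.mem_cons_of_mem _ hd'))
  have hpw : L'.Pairwise (fun b c => Sep a b.B c.B) := by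
    rw [hL']
    unfold AG9f_L
    rw [List.pairwise_append, List.pairwise_map, List.pairwise_map]
    refine ⟨hs1, hs2, ?_⟩
    intro c hc d hd
    obtain ⟨c', hc', rfl⟩ := List.mem_map.1 hc
    obtain ⟨d', hd', rfl⟩ := List.mem_map.1 hd
    exact hs12 c' hc' d' hd'
  have hpd : L'.Pairwise (fun b c => Disjoint b.B c.B) := hpw.imp fun h => h.1
  have hLq : ∀ c ∈ L', c.q = q := by
    intro c hc
    rw [hL'] at hc
    unfold AG9f_L at hc
    rcases List.mem_append.1 hc with hc | hc
    · obtain ⟨d, hd, rfl⟩ := List.mem_map.1 hc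
      rfl
    · obtain ⟨d, hd, rfl⟩ := List.mem_map.1 hc
      rfl
  have hadjL : ∀ c ∈ L', ∃ y ∈ c.B, 0 < a x y := by
    intro c hc
    rw [hL'] at hc
    unfold AG9f_L at hc
    rcases List.mem_append.1 hc with hc | hc
    · obtain ⟨d, hd, rfl⟩ := List.mem_map.1 hc
      exact (hbl d (List.mem_append.2 (Or.inl hd))).2.2.2.2
    · obtain ⟨d, hd, rfl⟩ := List.mem_map.1 hc
      exact (hbl d (List.mem_append.2 (Or.inr hd))).2.2.2.2
  have hxx : a x x = 0 := h.fin.loopfree x h.hx
  have hmap : L'.map (fun b => (b.B, b.Φ)) = atF L1 (f - 1) ++ atF L2 f := AG9f_map q f L1 L2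
  have hdisU : (atF L1 (f - 1) ++ atF L2 f).Pairwise (fun b c => Disjoint b.1 c.1) := by
    rw [← hmap, List.pairwise_map]
    exact hpd
  have huU : uni (atF L1 (f - 1) ++ atF L2 f) = uniB L' := by
    rw [← hmap, uni_map_blk]
  have hff : f - 1 + 1 = f := Nat.sub_add_cancel hf
  have hcolT : ∀ l0 : ℕ, RReg (b.B ∪ uniB L') (T.col x (sy x l0)) := by
    intro l0
    rw [hAU]
    constructor
    · intro y hy l hl
      exact hT.nat y (Finset.mem_of_mem_erase hy) l hl
    · intro y hy j hj l hl hne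
      have hyx : y ≠ x := Finset.ne_of_mem_erase hy
      have hyR := Finset.mem_of_mem_erase hy
      by_cases hjx : j = x
      · exfalso
        apply hne
        subst hjx
        show (Function.update T.Λ j (sy j l0)) j (y, l) = 0
        rw [Function.update_self]
        exact Finsupp.single_eq_of_ne (fun e => hyx (congrArg Prod.fst e))
      · have hjR : j ∉ R := fun hjR => hj (Finset.mem_erase.2 ⟨hjx, hjR⟩)
        have hne' : T.Λ j (y, l) ≠ 0 := by
          intro h0
          apply hne
          show (Function.update T.Λ x (sy x l0)) j (y, l) = 0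
          rw [Function.update_of_ne hjx]
          exact h0
        exact hT.col y hyR j hjR l hl hne'
  have hcolx : ∀ l0 : ℕ, ∀ j, j ∉ b.B → j ∉ uniB L' → ∀ l, 1 ≤ l →
      (T.col x (sy x l0)).Λ j (x, l) ≠ 0 → l = l0 ∨ 1 ≤ T.E (x, l) := by
    intro l0 j hj1 hj2 l hl hne
    by_cases hjx : j = x
    · left
      by_contra hll
      apply hne
      subst hjx
      show (Function.update T.Λ j (sy j l0)) j (j, l) = 0
      rw [Function.update_self]
      exact Finsupp.single_eq_of_ne (fun e => hll (congrArg Prod.snd e))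
    · right
      have hjR : j ∉ R := by
        intro hjR
        have : j ∈ b.B ∪ uniB L' := by rw [hAU]; exact Finset.mem_erase.2 ⟨hjx, hjR⟩
        rcases Finset.mem_union.1 this with h' | h'
        · exact hj1 h'
        · exact hj2 h'
      have hne' : T.Λ j (x, l) ≠ 0 := by
        intro h0
        apply hne
        show (Function.update T.Λ x (sy x l0)) j (x, l) = 0
        rw [Function.update_of_ne hjx]
        exact h0
      exact hT.col x h.hx j hjR l hl hne'
  have hdisAU : Disjoint b.B (uniB L') := hsA.1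
  have hint : IsZ (∑ y ∈ b.B, (a x y : ℚ) * q y + ∑ y ∈ uniB L', (a x y : ℚ) * q y) := by
    rw [← Finset.sum_union hdisAU, hAU]
    exact h.sum_int hs
  rw [evU_alU a u (f - 1) x _ (by rw [huU]; exact hxL), hff]
  -- first part
  have hzero : evU a (atF L1 (f - 1) ++ atF L2 f) ((rawT a b.B f q m T).col x (sy x f)) = 0 := by
    rw [evU_eq_evF a _ hdisU, huU, ← rawT_col_comm a b.B f q m x hxb]
    unfold evF
    refine List.sum_eq_zero fun r hr => ?_
    obtain ⟨c, hc, rfl⟩ := List.mem_map.1 hr
    have hwide : PatWide a cd (uniB L') f c.2 :=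
      PatWide_prod a hs cd f L' hok hpw c (by rw [hmap]; exact hc)
    have hcls : ∀ y ∈ uniB L', IsZ (c.2.q y - q y) := by
      intro y hy
      obtain ⟨d, hd, hyd⟩ := (mem_uniB L' y).1 hy
      have hd2 : (d.B, d.Φ) ∈ atF L1 (f - 1) ++ atF L2 f := by
        rw [← hmap]
        exact List.mem_map.2 ⟨d, hd, rfl⟩
      obtain ⟨e, he, hce⟩ := prodF_mem _ hdisU c hc _ hd2
      rw [(hce y hyd).2, ← hLq d hd]
      exact (hok d hd).cls e he y hyd
    have := raw_kill a hs cd f hf b.B hbfin (h.bconn b List.mem_cons_self) q hbq (uniB L')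
      (h.fin.mono (by
        intro y hy
        have : y ∈ b.B ∪ uniB L' := Finset.mem_union_right _ hy
        rw [hAU] at this
        exact Finset.mem_of_mem_erase this)) hsA c.2 hwide (T.col x (sy x f)) (hcolT f) m hm x hxb
      hxL hxx hbadj (fun l hl => hT.nat x h.hx l hl) ?_ (hcolx f)
    · rw [this, mul_zero]
    · have e : ∑ y ∈ b.B, (a x y : ℚ) * q y + ∑ y ∈ uniB L', (a x y : ℚ) * c.2.q y
          = (∑ y ∈ b.B, (a x y : ℚ) * q y + ∑ y ∈ uniB L', (a x y : ℚ) * q y)
            + ∑ y ∈ uniB L', (a x y : ℚ) * (c.2.q y - q y) := by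
        rw [add_assoc, ← Finset.sum_add_distrib]
        congr 1
        refine Finset.sum_congr rfl fun y _ => by ring
      rw [e]
      refine AG9f_isZ_add hint (AG9f_isZ_sum _ _ fun y hy => ?_)
      obtain ⟨n, hn⟩ := hcls y hy
      exact ⟨(a x y : ℤ) * n, by rw [hn]; push_cast; ring⟩
  -- second part
  have hconv : evU a (atF L1 (f - 1) ++ atF L2 f) ((rawT a b.B f q m T).col x (sy x (f - 1))) =
      (L'.map Blk.cf).prod * TV a (expl a f L' (rawT a b.B f q m (T.col x (sy x (f - 1))))) := by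
    rw [← hmap, ← rawT_col_comm a b.B f q m x hxb]
    refine raw_conv a hs cd f hf b.B hbfin (h.bconn b List.mem_cons_self) q hbq L' hok hpw hsA
      (T.col x (sy x (f - 1))) (hcolT (f - 1)) m hm x hxb hxL hxx hbadj hadjL (f - 1)
      (Or.inr hff) (fun l hl => hT.nat x h.hx l hl) ?_ ?_
    · have e : (L'.map (fun b => ∑ x_1 ∈ b.B, (a x x_1 : ℚ) * b.q x_1)).sum
          = ∑ y ∈ uniB L', (a x y : ℚ) * q y := by
        rw [← AG9f_sum L' hpd]
        congr 1
        refine List.map_congr_left fun c hc => ?_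
        rw [hLq c hc]
      rw [e]
      exact hint
    · intro j hj1 hj2 l hl hne
      exact Or.inr (hcolx (f - 1) j hj1 hj2 l hl hne)
  have hcf : (L'.map Blk.cf).prod =
      (-1) ^ (uniR L1).card * ((L1 ++ L2).map (fun b => b.w f)).prod := by
    rw [hL']
    unfold AG9f_L
    rw [List.map_append, List.prod_append, AG9f_cfup q f L1 (hs1.imp fun h => h.1),
      AG9f_cfdn q f L2, List.map_append, List.prod_append]
    ring
  have hexpl : ∀ X : Trm I, expl a f L' X =
      blkT a (uniR L1) f (f - 1) q (blkT a (uniR L2) f (f + 1) q X) := by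
    intro X
    rw [hL']
    unfold AG9f_L
    rw [expl_append]
    have e1 : uniB (L1.map (RB.blk q f true)) = uniR L1 := by
      have := AG9f_uniB q f L1 []
      unfold AG9f_L at this
      simpa [uniR] using this
    have e2 : uniB (L2.map (RB.blk q f false)) = uniR L2 := by
      have := AG9f_uniB q f [] L2
      unfold AG9f_L at this
      simpa [uniR] using this
    rw [expl_merge a f (L1.map (RB.blk q f true)) q true, expl_merge a f
      (L2.map (RB.blk q f false)) q false, e1, e2]
    · simp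
    · rw [List.pairwise_map]; exact hs2.imp fun h => h.1
    · intro c hc y _
      obtain ⟨d, _, rfl⟩ := List.mem_map.1 hc
      rfl
    · intro c hc
      obtain ⟨d, _, rfl⟩ := List.mem_map.1 hc
      rfl
    · rw [List.pairwise_map]; exact hs1.imp fun h => h.1
    · intro c hc y _
      obtain ⟨d, _, rfl⟩ := List.mem_map.1 hc
      rfl
    · intro c hc
      obtain ⟨d, _, rfl⟩ := List.mem_map.1 hc
      rfl
  rw [hzero, hconv, hcf, hexpl]
  ring

open Classical in
theorem star_event (a : I → I → ℕ) (hs : ∀ i j, a i j = a j i) (cd : CrossData a) (R : Finset I)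
    (x : I) (q : I → ℚ) (K : ℕ) (u : ℕ → ℚ) (L1 : List (RB I)) (b : RB I) (L2 : List (RB I))
    (h : StarCtx a cd R x q K u (b :: (L1 ++ L2))) (f : ℕ) (hf : 1 ≤ f) (hfK : f ≤ K)
    (T : Trm I) (hT : RReg R T) (B : ℕ) (hB : bnd R f q T ≤ B) :
    evU a ((b.B, b.Φ f) :: ({x}, alU u (f - 1)) :: (atF L1 (f - 1) ++ atF L2 f)) T -
      evU a ((b.B, b.Φ (f - 1)) :: ({x}, alU u (f - 1)) :: (atF L1 (f - 1) ++ atF L2 f)) T =
      stW u (b :: (L1 ++ L2)) f * ∑ m ∈ (mbox R B).filter
        (fun m => m x = 0 ∧ (∀ y ∈ uniR L1, m y = 0) ∧ (∃ y ∈ b.B, m y ≠ 0) ∧ ¬ Plat R q m),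
        sgm R m * TV a (rawT a R f q m T) := by
  have hsep := h.sep
  rw [List.pairwise_cons] at hsep
  obtain ⟨hsb, hsL⟩ := hsep
  have hsL' := hsL
  rw [List.pairwise_append] at hsL'
  obtain ⟨hs1, hs2, hs12⟩ := hsL'
  have hbl : ∀ c ∈ L1 ++ L2, c.B ⊆ R ∧ x ∉ c.B ∧ FinT a c.B ∧ QOk a c.B q ∧
      (∃ y ∈ c.B, 0 < a x y) := fun c hc => h.block hs c (List.mem_cons_of_mem _ hc)
  obtain ⟨hbR, hxb, hbfin, hbq, hbadj⟩ := h.block hs b List.mem_cons_self
  have hbresp := h.resp b List.mem_cons_self
  have hbconn := h.bconn b List.mem_cons_self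
  have hA1 : Sep a b.B (uniR L1) :=
    AG9f_sep_uniR b.B L1 fun c hc => hsb c (List.mem_append.2 (Or.inl hc))
  have hA2 : Sep a b.B (uniR L2) :=
    AG9f_sep_uniR b.B L2 fun c hc => hsb c (List.mem_append.2 (Or.inr hc))
  have h12 : Sep a (uniR L1) (uniR L2) := by
    refine AG9f_sep_uniR _ _ fun c hc => ?_
    refine (AG9f_sep_uniR _ _ fun d hd => ?_ : Sep a c.B (uniR L1)).symm hs
    exact (hs12 d hd c hc).symm hs
  have hcov : b.B ∪ uniR L1 ∪ uniR L2 = R.erase x := by
    rw [← h.cov]
    ext y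
    simp only [Finset.mem_union, mem_uniR, List.mem_cons, List.mem_append]
    constructor
    · rintro ((hy | ⟨c, hc, hy⟩) | ⟨c, hc, hy⟩)
      · exact ⟨b, Or.inl rfl, hy⟩
      · exact ⟨c, Or.inr (Or.inl hc), hy⟩
      · exact ⟨c, Or.inr (Or.inr hc), hy⟩
    · rintro ⟨c, (rfl | hc | hc), hy⟩
      · exact Or.inl (Or.inl hy)
      · exact Or.inl (Or.inr ⟨c, hc, hy⟩)
      · exact Or.inr ⟨c, hc, hy⟩
  set U : List (Finset I × FFn I) := ({x}, alU u (f - 1)) :: (atF L1 (f - 1) ++ atF L2 f) with hU
  -- members of the tail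
  have hmemU : ∀ c ∈ atF L1 (f - 1) ++ atF L2 f, ∃ d ∈ L1 ++ L2, c.1 = d.B := by
    intro c hc
    rcases List.mem_append.1 hc with hc | hc
    · obtain ⟨d, hd, rfl⟩ := List.mem_map.1 hc
      exact ⟨d, List.mem_append.2 (Or.inl hd), rfl⟩
    · obtain ⟨d, hd, rfl⟩ := List.mem_map.1 hc
      exact ⟨d, List.mem_append.2 (Or.inr hd), rfl⟩
  have huniU : uni (atF L1 (f - 1) ++ atF L2 f) = uniR L1 ∪ uniR L2 := by
    ext y
    rw [mem_uni, Finset.mem_union, mem_uniR, mem_uniR]
    constructor
    · rintro ⟨c, hc, hy⟩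
      rcases List.mem_append.1 hc with hc | hc
      · obtain ⟨d, hd, rfl⟩ := List.mem_map.1 hc
        exact Or.inl ⟨d, hd, hy⟩
      · obtain ⟨d, hd, rfl⟩ := List.mem_map.1 hc
        exact Or.inr ⟨d, hd, hy⟩
    · rintro (⟨d, hd, hy⟩ | ⟨d, hd, hy⟩)
      · exact ⟨(d.B, d.Φ (f - 1)), List.mem_append.2 (Or.inl (List.mem_map.2 ⟨d, hd, rfl⟩)), hy⟩
      · exact ⟨(d.B, d.Φ f), List.mem_append.2 (Or.inr (List.mem_map.2 ⟨d, hd, rfl⟩)), hy⟩
  have hdb : ∀ c ∈ U, Disjoint b.B c.1 := by
    intro c hc
    rcases List.mem_cons.1 hc with rfl | hc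
    · exact Finset.disjoint_singleton_right.2 hxb
    · obtain ⟨d, hd, hdc⟩ := hmemU c hc
      rw [hdc]
      exact (hsb d hd).1
  have hdU : U.Pairwise (fun b c => Disjoint b.1 c.1) := by
    rw [hU, List.pairwise_cons]
    refine ⟨?_, ?_⟩
    · intro c hc
      obtain ⟨d, hd, hdc⟩ := hmemU c hc
      rw [hdc]
      exact Finset.disjoint_singleton_left.2 (hbl d hd).2.1
    · rw [List.pairwise_append]
      refine ⟨?_, ?_, ?_⟩
      · unfold atF
        rw [List.pairwise_map]
        exact hs1.imp fun h => h.1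
      · unfold atF
        rw [List.pairwise_map]
        exact hs2.imp fun h => h.1
      · intro c hc d hd
        obtain ⟨c', hc', rfl⟩ := List.mem_map.1 hc
        obtain ⟨d', hd', rfl⟩ := List.mem_map.1 hd
        exact (hs12 c' hc' d' hd').1
  have huU : b.B ∪ uni U = R := by
    have : uni U = {x} ∪ (uniR L1 ∪ uniR L2) := by
      rw [← huniU]
      rfl
    rw [this]
    have h2 : b.B ∪ ({x} ∪ (uniR L1 ∪ uniR L2)) = {x} ∪ (b.B ∪ uniR L1 ∪ uniR L2) := by
      ext y
      simp only [Finset.mem_union]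
      tauto
    rw [h2, hcov]
    ext y
    simp only [Finset.mem_union, Finset.mem_singleton, Finset.mem_erase]
    constructor
    · rintro (rfl | hy)
      · exact h.hx
      · exact hy.2
    · intro hy
      by_cases hyx : y = x
      · exact Or.inl hyx
      · exact Or.inr ⟨hyx, hy⟩
  have hins : ∀ c ∈ prodF U, ∀ y ∈ b.B, ∀ z ∈ uni U, c.2.q z ≠ 0 → a y z = 0 := by
    intro c hc y hy z hz hne
    obtain ⟨d, hd, hzd⟩ := (mem_uni U z).1 hz
    rcases List.mem_cons.1 hd with hd' | hd'
    · exfalso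
      subst hd'
      obtain ⟨e, he, hce⟩ := prodF_mem U hdU c hc _ hd
      have := (hce z hzd).2
      rw [this] at hne
      apply hne
      unfold alU at he
      split_ifs at he
      · rw [List.mem_singleton] at he
        rw [he]
      · rcases List.mem_cons.1 he with he | he
        · rw [he]
        · rw [List.mem_singleton] at he
          rw [he]
    · obtain ⟨d', hd'', hdc⟩ := hmemU d hd'
      rw [hdc] at hzd
      exact (hsb d' hd'').2 y hy z hzd
  rw [evU_event a hs cd q K b hbresp f hf hfK U hdb hdU hins T (by rw [huU]; exact hT) B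
    ((AG9f_bnd_mono b.B R hbR f q T).trans hB)]
  -- evaluation of all terms
  set W : ℚ := u f * ((L1 ++ L2).map (fun b => b.w f)).prod with hW
  have hstw : stW u (b :: (L1 ++ L2)) f = b.w f * W := by
    unfold stW
    rw [List.map_cons, List.prod_cons, hW]
    ring
  set S : (I → ℕ) → ℚ := fun m' => ∑ m ∈ (mbox R B).filter
    (fun m => m x = 0 ∧ (∀ y ∈ uniR L1, m y = 0) ∧ (∀ y ∈ b.B, m y = m' y)),
      sgm R m * TV a (rawT a R f q m T) with hS
  have hsq : ∀ n : ℕ, ((-1 : ℚ) ^ n) * (-1) ^ n = 1 := by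
    intro n
    rw [← mul_pow]
    norm_num
  have hterm : ∀ m' ∈ (mbox b.B B).filter (fun m => ¬ Plat b.B q m),
      sgm b.B m' * evU a U (rawT a b.B f q m' T) = W * S m' := by
    intro m' hm'
    rw [Finset.mem_filter] at hm'
    obtain ⟨hmb, hmp⟩ := hm'
    rw [hU, AG9f_eval a hs cd R x q K u L1 b L2 h f hf hfK T hT m' hmp]
    by_cases hgood : ∀ y ∈ b.B, m' y ≠ 0 → q y < m' y
    · have hne : ∃ y ∈ b.B, m' y ≠ 0 := by
        by_contra hcon
        push Not at hcon
        exact hmp fun y hy => Or.inl (hcon y hy)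
      unfold mbox at hmb
      rw [Fintype.mem_piFinset] at hmb
      have hm0 : ∀ y, y ∉ b.B → m' y = 0 := by
        intro y hy
        have := hmb y
        rw [if_neg hy, Finset.mem_singleton] at this
        exact this
      have hmB : ∀ y, m' y ≤ B := by
        intro y
        by_cases hy : y ∈ b.B
        · have := hmb y
          rw [if_pos hy, Finset.mem_range] at this
          omega
        · rw [hm0 y hy]; omega
      rw [star_rep a hs R h.fin h.conn q h.qok x h.hx h.hz b.B (uniR L1) (uniR L2) hcov hA1 hA2 h12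
        hbconn f hf m' hm0 hgood hne T hT B hB hmB]
      have e1 := hsq (uniR L1).card
      have e2 : sgm b.B m' * sgm b.B m' = 1 := hsq _
      show sgm b.B m' * (-(u f * ((-1) ^ (uniR L1).card *
        ((L1 ++ L2).map (fun b => b.w f)).prod)) * (-((-1 : ℚ) ^ (uniR L1).card * sgm b.B m') *
          S m')) = W * S m'
      rw [hW]
      calc _ = (((-1 : ℚ) ^ (uniR L1).card) * (-1) ^ (uniR L1).card) *
            (sgm b.B m' * sgm b.B m') *
            (u f * ((L1 ++ L2).map (fun b => b.w f)).prod) * S m' := by ring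
        _ = _ := by rw [e1, e2]; ring
    · push Not at hgood
      obtain ⟨y0, hy0, hy0m, hy0q⟩ := hgood
      have hTV : TV a (blkT a (uniR L1) f (f - 1) q (blkT a (uniR L2) f (f + 1) q
          (rawT a b.B f q m' (T.col x (sy x (f - 1)))))) = 0 := by
        by_contra hcon
        rw [← rawT_blkT_comm a b.B (uniR L2) hA2.1, ← rawT_blkT_comm a b.B (uniR L1) hA1.1] at hcon
        have hreg : RReg b.B (blkT a (uniR L1) f (f - 1) q (blkT a (uniR L2) f (f + 1) q
            (T.col x (sy x (f - 1))))) := by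
          refine RReg_blkT a hs b.B (uniR L1) hA1 f (f - 1) q _ ?_
          refine RReg_blkT a hs (b.B ∪ uniR L1) (uniR L2) (Sep_union hA2 h12) f (f + 1) q _ ?_
          rw [hcov]
          constructor
          · intro y hy l hl
            exact hT.nat y (Finset.mem_of_mem_erase hy) l hl
          · intro y hy j hj l hl hne
            have hyx : y ≠ x := Finset.ne_of_mem_erase hy
            have hyR := Finset.mem_of_mem_erase hy
            by_cases hjx : j = x
            · exfalso
              apply hne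
              subst hjx
              show (Function.update T.Λ j (sy j (f - 1))) j (y, l) = 0
              rw [Function.update_self]
              exact Finsupp.single_eq_of_ne (fun e => hyx (congrArg Prod.fst e))
            · have hjR : j ∉ R := fun hjR => hj (Finset.mem_erase.2 ⟨hjx, hjR⟩)
              have hne' : T.Λ j (y, l) ≠ 0 := by
                intro h0
                apply hne
                show (Function.update T.Λ x (sy x (f - 1))) j (y, l) = 0
                rw [Function.update_of_ne hjx]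
                exact h0
              exact hT.col y hyR j hjR l hl hne'
        have := raw_pos a hs b.B hbfin hbconn f hf q hbq _ hreg m' hmp hcon y0 hy0 hy0m
        exact absurd this (not_lt.2 hy0q)
      have hS0 : S m' = 0 := by
        rw [hS]
        refine Finset.sum_eq_zero fun m hm => ?_
        rw [Finset.mem_filter] at hm
        obtain ⟨_, _, _, hmm⟩ := hm
        have hnp : ¬ Plat R q m := by
          intro hp
          apply hmp
          intro y hy
          have := hp y (hbR hy)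
          rw [hmm y hy] at this
          exact this
        have h0 : TV a (rawT a R f q m T) = 0 := by
          by_contra hcon
          have := raw_pos a hs R h.fin h.conn f hf q h.qok T hT m hnp hcon y0 (hbR hy0)
            (by rw [hmm y0 hy0]; exact hy0m)
          rw [hmm y0 hy0] at this
          exact absurd this (not_lt.2 hy0q)
        rw [h0, mul_zero]
      rw [hTV, hS0]
      ring
  rw [Finset.sum_congr rfl hterm, ← Finset.mul_sum, hstw, mul_assoc (b.w f) W]
  refine congrArg (fun t : ℚ => b.w f * (W * t)) ?_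
  -- combine the sums
  have hsum : ∑ m' ∈ (mbox b.B B).filter (fun m => ¬ Plat b.B q m), S m' =
      ∑ m ∈ (mbox R B).filter
        (fun m => m x = 0 ∧ (∀ y ∈ uniR L1, m y = 0) ∧ ¬ Plat b.B q m),
        sgm R m * TV a (rawT a R f q m T) := by
    have hmaps : ∀ m ∈ (mbox R B).filter
        (fun m => m x = 0 ∧ (∀ y ∈ uniR L1, m y = 0) ∧ ¬ Plat b.B q m),
        (fun y => if y ∈ b.B then m y else 0) ∈ (mbox b.B B).filter (fun m => ¬ Plat b.B q m) := by
      intro m hm
      rw [Finset.mem_filter] at hm ⊢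
      obtain ⟨hmb, _, _, hmp⟩ := hm
      refine ⟨?_, ?_⟩
      · unfold mbox at hmb ⊢
        rw [Fintype.mem_piFinset] at hmb ⊢
        intro y
        by_cases hy : y ∈ b.B
        · simp only [if_pos hy]
          have := hmb y
          rw [if_pos (hbR hy)] at this
          exact this
        · simp only [if_neg hy, Finset.mem_singleton]
      · intro hp
        apply hmp
        intro y hy
        have := hp y hy
        simp only [if_pos hy] at this
        exact this
    rw [← Finset.sum_fiberwise_of_maps_to hmaps]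
    refine Finset.sum_congr rfl fun m' hm' => ?_
    rw [Finset.mem_filter] at hm'
    obtain ⟨hmb', hmp'⟩ := hm'
    rw [hS]
    refine Finset.sum_congr ?_ fun _ _ => rfl
    ext m
    simp only [Finset.mem_filter]
    constructor
    · rintro ⟨h1, h2, h3, h4⟩
      refine ⟨⟨h1, h2, h3, ?_⟩, ?_⟩
      · intro hp
        apply hmp'
        intro y hy
        rw [← h4 y hy]
        exact hp y hy
      · funext y
        by_cases hy : y ∈ b.B
        · rw [if_pos hy]
          exact h4 y hy
        · rw [if_neg hy]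
          unfold mbox at hmb'
          rw [Fintype.mem_piFinset] at hmb'
          have := hmb' y
          rw [if_neg hy, Finset.mem_singleton] at this
          exact this.symm
    · rintro ⟨⟨h1, h2, h3, _⟩, h5⟩
      refine ⟨h1, h2, h3, ?_⟩
      intro y hy
      have := congrFun h5 y
      simp only [if_pos hy] at this
      exact this
  rw [hsum]
  refine Finset.sum_subset_zero_on_sdiff ?_ ?_ fun _ _ => rfl
  · intro m hm
    rw [Finset.mem_filter] at hm ⊢
    obtain ⟨h1, h2, h3, h4⟩ := hm
    refine ⟨h1, h2, h3, ?_, ?_⟩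
    · by_contra hcon
      push Not at hcon
      exact h4 fun y hy => Or.inl (hcon y hy)
    · intro hp
      exact h4 fun y hy => hp y (hbR hy)
  · intro m hm
    rw [Finset.mem_sdiff, Finset.mem_filter, Finset.mem_filter] at hm
    obtain ⟨⟨h1, h2, h3, ⟨y0, hy0, hy0m⟩, h5⟩, h6⟩ := hm
    have hp : Plat b.B q m := by
      by_contra hcon
      exact h6 ⟨h1, h2, h3, hcon⟩
    have h0 : TV a (rawT a R f q m T) = 0 := by
      by_contra hcon
      have := raw_pos a hs R h.fin h.conn f hf q h.qok T hT m h5 hcon y0 (hbR hy0) hy0m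
      rcases hp y0 hy0 with h7 | h7
      · exact hy0m h7
      · rw [h7] at this
        exact lt_irrefl _ this
    rw [h0, mul_zero]

end

end Pool.Agent.H27.KAC

end

section

/-!
Run lemma, module 13: from terms to the ring `LL I`.
-/

set_option autoImplicit false
set_option maxHeartbeats 400000

namespace Pool.Agent.H10.KAC

open scoped BigOperators
open Pool.Agent.H46.KA Pool.Agent.H27.KAC

variable {I : Type} [Fintype I] [DecidableEq I]

/-- the outer positions whose symbol lies over `N`. -/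
def pol (N : Finset I) (f : I → I × ℕ) : Finset I :=
  Finset.univ.filter (fun i => i ∉ N ∧ (f i).1 ∈ N)

/-- outer columns with poles removed. -/
noncomputable def wf (a : I → I → ℕ) (N : Finset I) (f : I → I × ℕ) : I → Fm I :=
  fun i => if i ∈ pol N f then (fun l => Qp a (f i).1 (f i).2 1 * Df a (f i).1 (f i).2 l)
    else Df a (f i).1 (f i).2

/-- plain outer columns. -/
noncomputable def vf (a : I → I → ℕ) (f : I → I × ℕ) : I → Fm I :=
  fun i => Df a (f i).1 (f i).2

section

variable {a : I → I → ℕ} {N : Finset I} (H : Hyp a N)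

include H in
theorem wf_RFo (f : I → I × ℕ) : RFo N (wf a N f) := by
  intro i hi x hx
  unfold wf
  by_cases hp : i ∈ pol N f
  · rw [if_pos hp]
    by_cases hj : (f i).1 = x
    · rw [hj]
      exact RF_Q_Df a H.s x (H.l x hx) (f i).2
    · exact RF_smul (RF_Df_ne a H.s x (H.l x hx) (f i).1 hj (f i).2) (OO_Qp1 H _ _ x hx)
  · rw [if_neg hp]
    have hj : (f i).1 ≠ x := by
      intro h
      apply hp
      simp only [pol, Finset.mem_filter, Finset.mem_univ, true_and]
      exact ⟨hi, h ▸ hx⟩
    exact RF_Df_ne a H.s x (H.l x hx) (f i).1 hj (f i).2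

theorem CTd_poles (γ : I → ℚ) (G : LL I) (lev : ℕ) (f : I → I × ℕ) :
    CTd γ (G * ∏ i ∈ pol N f, Qp a (f i).1 (f i).2 1) (colN a N lev (vf a f)) =
      CTd γ G (colN a N lev (wf a N f)) := by
  have h1 : colN a N lev (wf a N f) = fun i l =>
      (if i ∈ pol N f then Qp a (f i).1 (f i).2 1 else 1) * colN a N lev (vf a f) i l := by
    funext i l
    unfold colN
    by_cases hi : i ∈ N
    · have hp : i ∉ pol N f := by
        simp only [pol, Finset.mem_filter, Finset.mem_univ, true_and]
        exact fun h => h.1 hi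
      rw [if_pos hi, if_pos hi, if_neg hp, one_mul]
    · rw [if_neg hi, if_neg hi]
      unfold wf vf
      by_cases hp : i ∈ pol N f
      · rw [if_pos hp, if_pos hp]
      · rw [if_neg hp, if_neg hp, one_mul]
  rw [h1, CTd_scale γ G (fun i => if i ∈ pol N f then Qp a (f i).1 (f i).2 1 else 1)]
  congr 2
  rw [Finset.prod_ite_mem, Finset.univ_inter]

include H in
/-- monomials with natural exponents at the levels `≥ 1` of `N`. -/
theorem mon_mem (E : (I × ℕ) →₀ ℚ) (hE : ∀ x ∈ N, ∀ l, 1 ≤ l → ∃ n : ℕ, E (x, l) = n) :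
    mon a E ∈ OO N := by
  intro x hx
  unfold mon Finsupp.prod
  refine Rg_prod _ _ (fun ik _ => ?_)
  change Rg x (Qp a ik.1 ik.2 (E ik))
  by_cases h : ik.1 = x
  · rcases Nat.eq_zero_or_pos ik.2 with h0 | h0
    · rw [h0, Qp_level_zero]
      exact Rg_one x
    · obtain ⟨n, hn⟩ := hE x hx ik.2 h0
      have h2 : ik = (x, ik.2) := by rw [← h]
      rw [h2, hn]
      exact Rg_Qp_self a H.s x (H.l x hx) ik.2 n
  · exact Rg_Qp_ne a H.s x (H.l x hx) ik.1 h ik.2 _

/-- exponents after removing the poles. -/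
noncomputable def Ered (N : Finset I) (f : I → I × ℕ) (E : (I × ℕ) →₀ ℚ) : (I × ℕ) →₀ ℚ :=
  E - ∑ i ∈ pol N f, Finsupp.single (f i) 1

theorem mon_Ered (f : I → I × ℕ) (E : (I × ℕ) →₀ ℚ) :
    mon a E = mon a (Ered N f E) * ∏ i ∈ pol N f, Qp a (f i).1 (f i).2 1 := by
  have h1 : E = Ered N f E + ∑ i ∈ pol N f, Finsupp.single (f i) 1 := by
    unfold Ered
    rw [sub_add_cancel]
  conv_lhs => rw [h1]
  rw [mon_add, mon_sum]
  congr 1
  refine Finset.prod_congr rfl (fun i _ => ?_)
  exact mon_single a (f i).1 (f i).2 1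

/-- assignments of symbols to the outer columns. -/
structure GoodF (N : Finset I) (T : Trm I) (f : I → I × ℕ) : Prop where
  ne : ∀ i, i ∉ N → T.Λ i (f i) ≠ 0
  lev : ∀ i, i ∉ N → 1 ≤ (f i).2

theorem sum_single_apply (s : Finset I) (f : I → I × ℕ) (k : I × ℕ) :
    (∑ i ∈ s, Finsupp.single (f i) (1 : ℚ)) k = ((s.filter (fun i => f i = k)).card : ℚ) := by
  rw [Finsupp.finsetSum_apply, Finset.card_filter]
  push_cast
  refine Finset.sum_congr rfl (fun i _ => ?_)
  rw [Finsupp.single_apply]

theorem Ered_nat (T : Trm I) (hT : RReg N T) (f : I → I × ℕ) (hf : GoodF N T f) (p : ℕ)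
    (hp : Fintype.card I < p) (x : I) (hx : x ∈ N) (l : ℕ) (hl : 1 ≤ l) :
    ∃ n : ℕ, Ered N f ((p : ℚ) • T.E) (x, l) = n ∧ (1 ≤ T.E (x, l) → 1 ≤ n) := by
  obtain ⟨m, hm⟩ := hT.nat x hx l hl
  set c := ((pol N f).filter (fun i => f i = (x, l))).card with hc
  have hcard : c ≤ Fintype.card I := by
    rw [hc]
    exact (Finset.card_le_univ _)
  have h1 : Ered N f ((p : ℚ) • T.E) (x, l) = (p : ℚ) * m - c := by
    unfold Ered
    rw [Finsupp.sub_apply, Finsupp.smul_apply, smul_eq_mul, hm, sum_single_apply]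
  rcases Nat.eq_zero_or_pos m with h0 | h0
  · -- no poles
    have hc0 : c = 0 := by
      rw [hc, Finset.card_eq_zero, Finset.filter_eq_empty_iff]
      intro i hi hfi
      simp only [pol, Finset.mem_filter, Finset.mem_univ, true_and] at hi
      have h2 := hT.col x hx i hi.1 l hl (by rw [← hfi]; exact hf.ne i hi.1)
      rw [hm, h0] at h2
      norm_num at h2
    refine ⟨0, ?_, fun h2 => ?_⟩
    · rw [h1, h0, hc0]
      simp
    · rw [hm, h0] at h2
      norm_num at h2
  · refine ⟨p * m - c, ?_, fun _ => ?_⟩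
    · rw [h1, Nat.cast_sub]
      · push_cast
        ring
      · calc c ≤ Fintype.card I := hcard
          _ ≤ p := hp.le
          _ ≤ p * m := Nat.le_mul_of_pos_right p h0
    · have : p ≤ p * m := Nat.le_mul_of_pos_right p h0
      omega

/-- `∑_x q_x C_{x,j}` over `N`. -/
def qC' (a : I → I → ℕ) (N : Finset I) (q : I → ℚ) (j : I) : ℚ :=
  ∑ x ∈ N, q x * (cart a x j : ℚ)

theorem eta_E (a : I → I → ℕ) (N : Finset I) (k : ℕ) (q : I → ℚ) :
    (-∑ x, (-resQ N q x) • cE a x k : QE I) = ∑ j, Finsupp.single (j, k) (qC' a N q j) := by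
  have h1 : (-∑ x, (-resQ N q x) • cE a x k : QE I) = ∑ x, (resQ N q x) • cE a x k := by
    rw [← Finset.sum_neg_distrib]
    refine Finset.sum_congr rfl (fun x _ => by rw [neg_smul, neg_neg])
  rw [h1]
  unfold cE
  simp only [Finset.smul_sum]
  rw [Finset.sum_comm]
  refine Finset.sum_congr rfl (fun j _ => ?_)
  have h2 : ∀ x, resQ N q x • ((cart a x j : ℤ) : ℚ) • sy j k =
      Finsupp.single (j, k) (resQ N q x * ((cart a x j : ℤ) : ℚ)) := by
    intro x
    rw [sy, Finsupp.smul_single, Finsupp.smul_single, smul_eq_mul, smul_eq_mul, mul_one]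
  rw [Finset.sum_congr rfl (fun x _ => h2 x), ← Finsupp.single_finsetSum]
  congr 1
  unfold qC' resQ
  rw [← Finset.sum_subset (Finset.subset_univ N)]
  · refine Finset.sum_congr rfl (fun x hx => by rw [if_pos hx])
  · intro x _ hx
    rw [if_neg hx, zero_mul]

theorem insN_val (e : I → ℕ) (l : ℕ) :
    (insN H e l : LL I) = ∏ x ∈ N, Qp a x l (e x : ℚ) := by
  unfold insN
  rw [OO_coe_prod]
  refine Finset.prod_congr rfl (fun x _ => ?_)
  rw [Qp_natPow]
  rfl

theorem outN_val (p : I → ℚ) (l : ℕ) :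
    (outN H p l : LL I) = ∏ i ∈ Nᶜ, Qp a i l (-p i) := by
  unfold outN
  rw [OO_coe_prod]
  exact Finset.prod_congr rfl (fun i hi => Po_val H i (Finset.mem_compl.mp hi) _ _)

/-- the monomial of a block term (power `p`). -/
theorem mon_blk (k σ : ℕ) (q : I → ℚ) (T : Trm I) (p : ℕ) (n : I → ℕ)
    (hn : ∀ x ∈ N, cqN a N q x = n x) (P : I → ℚ)
    (hP : ∀ i, i ∉ N → P i = ∑ x ∈ N, (a x i : ℚ) * q x) :
    mon a ((blkT a N k σ q T).pow p).E =
      mon a ((p : ℚ) • T.E) * ((insN H (fun x => p * n x) k : OO N) : LL I) *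
        ((outN H (fun i => p * P i) k : OO N) : LL I) := by
  have h1 : ((blkT a N k σ q T).pow p).E =
      (p : ℚ) • T.E + ∑ j, Finsupp.single (j, k) ((p : ℚ) * qC' a N q j) := by
    change (p : ℚ) • (T.E - ∑ x, (-resQ N q x) • cE a x k) = _
    rw [sub_eq_add_neg, eta_E, smul_add, Finset.smul_sum]
    congr 1
    refine Finset.sum_congr rfl (fun j _ => ?_)
    rw [Finsupp.smul_single, smul_eq_mul]
  rw [h1, mon_add, mon_sum, mul_assoc]
  congr 1
  have h2 : ∀ j, mon a (Finsupp.single (j, k) ((p : ℚ) * qC' a N q j)) =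
      Qp a j k ((p : ℚ) * qC' a N q j) := fun j => mon_single a j k _
  rw [Finset.prod_congr rfl (fun j _ => h2 j), ← Finset.prod_mul_prod_compl N, insN_val, outN_val]
  refine congrArg₂ (· * ·) (Finset.prod_congr rfl (fun x hx => ?_))
    (Finset.prod_congr rfl (fun i hi => ?_))
  · have h3 : qC' a N q x = n x := by
      rw [← hn x hx]
      unfold qC' cqN
      refine Finset.sum_congr rfl (fun y _ => ?_)
      rw [mul_comm]
      congr 2
      unfold cart
      by_cases hxy : x = y
      · subst hxy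
        rfl
      · rw [if_neg hxy, if_neg (Ne.symm hxy), H.s]
    rw [h3]
    push_cast
    rfl
  · have hi' := Finset.mem_compl.mp hi
    have h3 : qC' a N q i = -P i := by
      rw [hP i hi', ← Finset.sum_neg_distrib]
      unfold qC'
      refine Finset.sum_congr rfl (fun y hy => ?_)
      have hyi : y ≠ i := fun h => hi' (h ▸ hy)
      unfold cart
      rw [if_neg hyi]
      push_cast
      ring
    rw [h3, mul_neg]

/-- the index set of the expansion. -/
noncomputable def fset (N : Finset I) (T : Trm I) : Finset (I → I × ℕ) :=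
  Fintype.piFinset (fun i => if i ∈ N then {(i, 0)} else (T.Λ i).support)

/-- the coefficient of the expansion. -/
noncomputable def fcoef (N : Finset I) (T : Trm I) (f : I → I × ℕ) : ℚ :=
  ∏ i, (if i ∈ N then 1 else T.Λ i (f i))

/-- expansion of a block term. -/
theorem TV_blk (k σ : ℕ) (q : I → ℚ) (T : Trm I) (p : ℕ) :
    TV a ((blkT a N k σ q T).pow p) = ∑ f ∈ fset N T, fcoef N T f *
      CTd (fun i => (p : ℚ) * (T.γ i + k * resQ N q i)) (mon a ((blkT a N k σ q T).pow p).E)
        (colN a N σ (vf a f)) := by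
  classical
  rw [TV_eq]
  have h1 : ((blkT a N k σ q T).pow p).γ = fun i => (p : ℚ) * (T.γ i + k * resQ N q i) := by
    funext i
    change (p : ℚ) * (T.γ i - k * -resQ N q i) = _
    ring
  rw [h1]
  have h2 : (fun i => cf a (((blkT a N k σ q T).pow p).Λ i)) = fun i l =>
      ∑ ik ∈ (if i ∈ N then {(i, 0)} else (T.Λ i).support),
        qC (if i ∈ N then 1 else T.Λ i ik) *
          (if i ∈ N then Df a i σ else Df a ik.1 ik.2) l := by
    funext i l
    have h3 : ((blkT a N k σ q T).pow p).Λ i = if i ∈ N then sy i σ else T.Λ i := rfl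
    rw [h3]
    by_cases hi : i ∈ N
    · simp only [if_pos hi, Finset.sum_singleton]
      unfold cf
      have h4 : (sy i σ : QE I).support = {(i, σ)} :=
        Finsupp.support_single_ne_zero _ one_ne_zero
      rw [h4, Finset.sum_singleton, sy, Finsupp.single_eq_same]
    · simp only [if_neg hi]
      rfl
  rw [h2, CTd_expand]
  refine Finset.sum_congr rfl (fun f _ => ?_)
  have h5 : (fun i => if i ∈ N then Df a i σ else Df a (f i).1 (f i).2) =
      colN a N σ (vf a f) := rfl
  rw [h5]
  rfl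

/-- a column of level zero. -/
theorem CTd_lev0 (γ : I → ℚ) (G : LL I) (lev : ℕ) (f : I → I × ℕ) (i : I) (hi : i ∉ N)
    (h0 : (f i).2 = 0) : CTd γ G (colN a N lev (vf a f)) = 0 := by
  have h1 : colN a N lev (vf a f) = Function.update (colN a N lev (vf a f)) i (fun _ => 0) := by
    rw [eq_comm, Function.update_eq_self_iff]
    unfold colN vf
    rw [if_neg hi, h0]
    funext l
    exact (Df_level_zero a (f i).1 l).symm
  rw [h1, CTd_update_zero]

/-- one term of the expansion: either zero for trivial reasons or in regular form. -/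
theorem TV_term (σ : ℕ) (T : Trm I) (p : ℕ)
    (f : I → I × ℕ) (G : OO N) (γ : I → ℚ) :
    CTd γ (mon a ((p : ℚ) • T.E) * (G : LL I)) (colN a N σ (vf a f)) =
      CTd γ ((G : LL I) * mon a (Ered N f ((p : ℚ) • T.E))) (colN a N σ (wf a N f)) := by
  rw [← CTd_poles, mon_Ered (a := a) (N := N) f ((p : ℚ) • T.E)]
  congr 1
  ring

end

end Pool.Agent.H10.KAC

end

section

/-!
Run lemma, module 14: expansion of block terms in the ring `OO N`.
-/

set_option autoImplicit false
set_option maxHeartbeats 400000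

namespace Pool.Agent.H10.KAC

open scoped BigOperators
open Pool.Agent.H46.KA Pool.Agent.H27.KAC

variable {I : Type} [Fintype I] [DecidableEq I]

open Classical in
/-- the regular factor. -/
noncomputable def Fo (a : I → I → ℕ) (N : Finset I) (f : I → I × ℕ) (E : (I × ℕ) →₀ ℚ) : OO N :=
  if h : mon a (Ered N f E) ∈ OO N then ⟨mon a (Ered N f E), h⟩ else 0

section

variable {a : I → I → ℕ} {N : Finset I} (H : Hyp a N)

theorem Fo_val (f : I → I × ℕ) (E : (I × ℕ) →₀ ℚ) (h : mon a (Ered N f E) ∈ OO N) :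
    (Fo a N f E : LL I) = mon a (Ered N f E) := by
  unfold Fo
  rw [dif_pos h]

include H in
theorem Ered_mem (T : Trm I) (hT : RReg N T) (f : I → I × ℕ) (hf : GoodF N T f) (p : ℕ)
    (hp : Fintype.card I < p) : mon a (Ered N f ((p : ℚ) • T.E)) ∈ OO N := by
  refine mon_mem H _ (fun x hx l hl => ?_)
  obtain ⟨n, h1, _⟩ := Ered_nat T hT f hf p hp x hx l hl
  exact ⟨n, h1⟩

theorem Fo_extract (T : Trm I) (hT : RReg N T) (f : I → I × ℕ) (hf : GoodF N T f) (p : ℕ)
    (hp : Fintype.card I < p) (y : I) (hy : y ∈ N) (l : ℕ) (hl : 1 ≤ l) (hE : 1 ≤ T.E (y, l)) :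
    ∃ F' : OO N, Fo a N f ((p : ℚ) • T.E) = F' * Qo H y l := by
  have h1 : mon a (Ered N f ((p : ℚ) • T.E) - Finsupp.single (y, l) 1) ∈ OO N := by
    refine mon_mem H _ (fun x hx l' hl' => ?_)
    obtain ⟨n, h2, h3⟩ := Ered_nat T hT f hf p hp x hx l' hl'
    rw [Finsupp.sub_apply, h2, Finsupp.single_apply]
    by_cases h4 : (y, l) = (x, l')
    · rw [if_pos h4]
      rw [h4] at hE
      refine ⟨n - 1, ?_⟩
      rw [Nat.cast_sub (h3 hE)]
      norm_num
    · rw [if_neg h4, sub_zero]
      exact ⟨n, rfl⟩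
  refine ⟨⟨_, h1⟩, ?_⟩
  apply Subtype.ext
  rw [Fo_val f _ (Ered_mem H T hT f hf p hp), Subring.coe_mul]
  change _ = mon a (Ered N f ((p : ℚ) • T.E) - Finsupp.single (y, l) 1) * Qp a y l 1
  have h5 : mon a (Finsupp.single (y, l) 1) = (Qp a y l 1 : LL I) := mon_single a y l 1
  rw [← h5, ← mon_add, sub_add_cancel]

open Classical in
/-- the expansion of a block term. -/
theorem TV_exp (k σ : ℕ) (q : I → ℚ) (T : Trm I) (hT : RReg N T) (p : ℕ)
    (hp : Fintype.card I < p) (n : I → ℕ) (hn : ∀ x ∈ N, cqN a N q x = n x) (P : I → ℚ)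
    (hP : ∀ i, i ∉ N → P i = ∑ x ∈ N, (a x i : ℚ) * q x) :
    TV a ((blkT a N k σ q T).pow p) = ∑ f ∈ (fset N T).filter (fun f => GoodF N T f), fcoef N T f *
      CTd (fun i => (p : ℚ) * (T.γ i + k * resQ N q i))
        ((insN H (fun x => p * n x) k * outN H (fun i => p * P i) k *
          Fo a N f ((p : ℚ) • T.E) : OO N) : LL I) (colN a N σ (wf a N f)) := by
  rw [TV_blk, Finset.sum_filter]
  refine Finset.sum_congr rfl (fun f hf => ?_)
  by_cases hg : GoodF N T f
  · rw [if_pos hg]
    congr 1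
    rw [mon_blk H k σ q T p n hn P hP, mul_assoc, ← Subring.coe_mul,
      TV_term σ T p f (insN H (fun x => p * n x) k * outN H (fun i => p * P i) k),
      Subring.coe_mul (OO N) (insN H (fun x => p * n x) k * outN H (fun i => p * P i) k)
        (Fo a N f ((p : ℚ) • T.E)), Fo_val f _ (Ered_mem H T hT f hg p hp)]
  · rw [if_neg hg]
    have h1 : ∃ i, i ∉ N ∧ (f i).2 = 0 := by
      by_contra hne
      push Not at hne
      apply hg
      constructor
      · intro i hi
        unfold fset at hf
        rw [Fintype.mem_piFinset] at hf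
        have h2 := hf i
        rw [if_neg hi, Finsupp.mem_support_iff] at h2
        exact h2
      · intro i hi
        exact Nat.one_le_iff_ne_zero.mpr (hne i hi)
    obtain ⟨i, hi, h0⟩ := h1
    rw [CTd_lev0 _ _ σ f i hi h0, mul_zero]

/-- extraction of `z_k^M` from the insertion. -/
theorem ins_pow (p : ℕ) (n : I → ℕ) (hn1 : ∀ x ∈ N, 1 ≤ n x) (k M : ℕ) (hM : M ≤ p) :
    ∃ G : OO N, insN H (fun x => p * n x) k = G * (∏ x ∈ N, Qo H x k) ^ M := by
  refine ⟨insN H (fun x => p * n x - M) k, ?_⟩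
  rw [insN_split H (fun x => p * n x) (fun x => p * n x - M) k M (fun x hx => ?_)]
  · exact mul_comm _ _
  · have h1 : p ≤ p * n x := Nat.le_mul_of_pos_right p (hn1 x hx)
    omega

end

end Pool.Agent.H10.KAC

end
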