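import Pool.Agent.H16.TKA.M22
import Pool.Agent.H16.TKA.M28
import Pool.Agent.H16.TKA.M34
import Pool.Agent.H16.TKA.M36
import Pool.Agent.H16.TKA.M37

/-! The parts of this file: H41.KA.AG9c, H41.KA.AG9e, H41.KA.AG10_1, H41.KA.AG13_1, H41.KA.AN1_1, H46.AH.AH15, H10.KAC.Fin2, H41.KA.AN2, H46.AH.AH30, H10.KAC.Fin3, H10.KAC.CrossData, H88.KA.FIN, H41.KA.Fin. -/

section

/-!
KAC ADE, module AG9c: the step property of the star family.

`star_chain`: induction on `L2` (generalising `L1`), `star_event`, `evU_perm`; for `L2 = []` the sum is empty because `m = 0` on `R`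
is a plateau.
`star_stp`: `star_step0` plus `star_chain` with `L1 = []`; the remaining nonplateau `m` with `0 < m x ≤ q x` have value zero by
`raw_pos`.
-/

set_option autoImplicit false

namespace Pool.Agent.H27.KAC

open scoped BigOperators

section

variable {I : Type} [Fintype I] [DecidableEq I]

private lemma AG9c_split {α : Type*} (s : Finset α) (p p1 p2 : α → Prop) [DecidablePred p]
    [DecidablePred p1] [DecidablePred p2] (g : α → ℚ)
    (h : ∀ m ∈ s, g m ≠ 0 → (p m ↔ p1 m ∨ p2 m)) (h' : ∀ m ∈ s, ¬ (p1 m ∧ p2 m)) :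
    ∑ m ∈ s.filter p, g m = ∑ m ∈ s.filter p1, g m + ∑ m ∈ s.filter p2, g m := by
  rw [Finset.sum_filter, Finset.sum_filter, Finset.sum_filter, ← Finset.sum_add_distrib]
  refine Finset.sum_congr rfl fun m hm => ?_
  by_cases hg : g m = 0
  · simp [hg]
  · have h1 := h m hm hg
    have h2 := h' m hm
    by_cases a1 : p1 m
    · by_cases a2 : p2 m
      · exact absurd ⟨a1, a2⟩ h2
      · rw [if_pos (h1.mpr (Or.inl a1)), if_pos a1, if_neg a2, add_zero]
    · by_cases a2 : p2 m
      · rw [if_pos (h1.mpr (Or.inr a2)), if_neg a1, if_pos a2, zero_add]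
      · have : ¬ p m := fun hp => (h1.mp hp).elim a1 a2
        rw [if_neg this, if_neg a1, if_neg a2, add_zero]

private lemma AG9c_uniR_perm {L L' : List (RB I)} (hp : L.Perm L') : uniR L = uniR L' := by
  ext x
  rw [mem_uniR, mem_uniR]
  constructor
  · rintro ⟨b, hb, hx⟩; exact ⟨b, hp.mem_iff.mp hb, hx⟩
  · rintro ⟨b, hb, hx⟩; exact ⟨b, hp.mem_iff.mpr hb, hx⟩

/-- permuting the blocks keeps the context. -/
theorem StarCtx.perm {a : I → I → ℕ} (hs : ∀ i j, a i j = a j i) {cd : CrossData a}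
    {R : Finset I} {x : I} {q : I → ℚ} {K : ℕ} {u : ℕ → ℚ} {L L' : List (RB I)}
    (h : StarCtx a cd R x q K u L) (hp : L.Perm L') : StarCtx a cd R x q K u L' where
  fin := h.fin
  conn := h.conn
  qok := h.qok
  hx := h.hx
  hz := h.hz
  aff := h.aff
  cov := by rw [← AG9c_uniR_perm hp]; exact h.cov
  sep := hp.pairwise h.sep (fun {_ _} hbc => Sep.symm hs hbc)
  bconn := fun b hb => h.bconn b (hp.mem_iff.mpr hb)
  resp := fun b hb => h.resp b (hp.mem_iff.mpr hb)

theorem stW_perm (u : ℕ → ℚ) {L L' : List (RB I)} (hp : L.Perm L') (f : ℕ) :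
    stW u L f = stW u L' f := by
  unfold stW
  rw [(hp.map _).prod_eq]

private lemma AG9c_pw (a : I → I → ℕ) (x : I) (Φ : FFn I) (f1 f2 : ℕ) (L1 L2 : List (RB I))
    (hsep : (L1 ++ L2).Pairwise (fun b c => Sep a b.B c.B)) (hx : x ∉ uniR (L1 ++ L2)) :
    ((({x}, Φ) : Finset I × FFn I) :: (atF L1 f1 ++ atF L2 f2)).Pairwise
      (fun b c => Disjoint b.1 c.1) := by
  have hx' : ∀ b ∈ L1 ++ L2, x ∉ b.B := fun b hb hxb => hx ((mem_uniR _ _).mpr ⟨b, hb, hxb⟩)
  rw [List.pairwise_append] at hsep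
  obtain ⟨s1, s2, s12⟩ := hsep
  rw [List.pairwise_cons, List.pairwise_append]
  refine ⟨?_, ?_, ?_, ?_⟩
  · intro c hc
    rw [Finset.disjoint_singleton_left]
    rcases List.mem_append.mp hc with hc | hc
    · obtain ⟨b, hb, rfl⟩ := List.mem_map.mp hc
      exact hx' b (List.mem_append.mpr (Or.inl hb))
    · obtain ⟨b, hb, rfl⟩ := List.mem_map.mp hc
      exact hx' b (List.mem_append.mpr (Or.inr hb))
  · unfold atF
    rw [List.pairwise_map]
    exact s1.imp (fun hbc => hbc.1)
  · unfold atF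
    rw [List.pairwise_map]
    exact s2.imp (fun hbc => hbc.1)
  · intro b hb c hc
    obtain ⟨b', hb', rfl⟩ := List.mem_map.mp hb
    obtain ⟨c', hc', rfl⟩ := List.mem_map.mp hc
    exact (s12 b' hb' c' hc').1

open Classical in
theorem star_chain (a : I → I → ℕ) (hs : ∀ i j, a i j = a j i) (cd : CrossData a) (R : Finset I)
    (x : I) (q : I → ℚ) (K : ℕ) (u : ℕ → ℚ) (f : ℕ) (hf : 1 ≤ f) (hfK : f ≤ K)
    (T : Trm I) (hT : RReg R T) (B : ℕ) (hB : bnd R f q T ≤ B) (L2 L1 : List (RB I))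
    (h : StarCtx a cd R x q K u (L1 ++ L2)) :
    evU a (({x}, alU u (f - 1)) :: (atF L1 (f - 1) ++ atF L2 f)) T -
      evU a (({x}, alU u (f - 1)) :: atF (L1 ++ L2) (f - 1)) T =
      stW u (L1 ++ L2) f * ∑ m ∈ (mbox R B).filter
        (fun m => m x = 0 ∧ (∀ y ∈ uniR L1, m y = 0) ∧ ¬ Plat R q m),
        sgm R m * TV a (rawT a R f q m T) := by
  induction L2 generalizing L1 with
  | nil =>
    have e : atF L1 (f - 1) ++ atF ([] : List (RB I)) f = atF (L1 ++ []) (f - 1) := by
      simp [atF]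
    rw [e, sub_self]
    have hemp : (mbox R B).filter
        (fun m => m x = 0 ∧ (∀ y ∈ uniR L1, m y = 0) ∧ ¬ Plat R q m) = ∅ := by
      rw [Finset.filter_eq_empty_iff]
      rintro m - ⟨h0, h1, h2⟩
      apply h2
      intro y hy
      left
      by_cases hyx : y = x
      · rw [hyx]; exact h0
      · apply h1
        have hc := h.cov
        rw [List.append_nil] at hc
        rw [hc]
        exact Finset.mem_erase.mpr ⟨hyx, hy⟩
    rw [hemp, Finset.sum_empty, mul_zero]
  | cons b L2 ih =>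
    have hx : x ∉ uniR (L1 ++ b :: L2) := by rw [h.cov]; simp
    have hassoc : (L1 ++ [b]) ++ L2 = L1 ++ b :: L2 := by simp
    have h' : StarCtx a cd R x q K u ((L1 ++ [b]) ++ L2) := by rw [hassoc]; exact h
    have ih1 := ih (L1 ++ [b]) h'
    rw [hassoc] at ih1
    have hperm : (L1 ++ b :: L2).Perm (b :: (L1 ++ L2)) := List.perm_middle
    have hctx : StarCtx a cd R x q K u (b :: (L1 ++ L2)) := h.perm hs hperm
    have hev := star_event a hs cd R x q K u L1 b L2 hctx f hf hfK T hT B hB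
    rw [← stW_perm u hperm f] at hev
    -- the two permutations
    have p1 : evU a (({x}, alU u (f - 1)) :: (atF L1 (f - 1) ++ atF (b :: L2) f)) T =
        evU a ((b.B, b.Φ f) :: ({x}, alU u (f - 1)) :: (atF L1 (f - 1) ++ atF L2 f)) T := by
      refine evU_perm a _ _ ?_ (AG9c_pw a x _ (f - 1) f L1 (b :: L2) h.sep hx) T
      have e1 : atF (b :: L2) f = (b.B, b.Φ f) :: atF L2 f := rfl
      rw [e1]
      exact (List.Perm.cons _ List.perm_middle).trans (List.Perm.swap _ _ _)
    have p2 : evU a (({x}, alU u (f - 1)) :: (atF (L1 ++ [b]) (f - 1) ++ atF L2 f)) T =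
        evU a ((b.B, b.Φ (f - 1)) :: ({x}, alU u (f - 1)) ::
          (atF L1 (f - 1) ++ atF L2 f)) T := by
      refine evU_perm a _ _ ?_ (AG9c_pw a x _ (f - 1) f (L1 ++ [b]) L2 h'.sep
        (by rw [hassoc]; exact hx)) T
      have e1 : atF (L1 ++ [b]) (f - 1) ++ atF L2 f =
          atF L1 (f - 1) ++ (b.B, b.Φ (f - 1)) :: atF L2 f := by
        simp [atF]
      rw [e1]
      exact (List.Perm.cons _ List.perm_middle).trans (List.Perm.swap _ _ _)
    have hsum := AG9c_split (mbox R B)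
      (fun m => m x = 0 ∧ (∀ y ∈ uniR L1, m y = 0) ∧ ¬ Plat R q m)
      (fun m => m x = 0 ∧ (∀ y ∈ uniR L1, m y = 0) ∧ (∃ y ∈ b.B, m y ≠ 0) ∧ ¬ Plat R q m)
      (fun m => m x = 0 ∧ (∀ y ∈ uniR (L1 ++ [b]), m y = 0) ∧ ¬ Plat R q m)
      (fun m => sgm R m * TV a (rawT a R f q m T))
      (by
        intro m _ _
        constructor
        · rintro ⟨h0, h1, h2⟩
          by_cases h3 : ∃ y ∈ b.B, m y ≠ 0
          · exact Or.inl ⟨h0, h1, h3, h2⟩
          · right
            push_neg at h3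
            refine ⟨h0, ?_, h2⟩
            intro y hy
            obtain ⟨c, hc, hyc⟩ := (mem_uniR _ _).mp hy
            rcases List.mem_append.mp hc with hc | hc
            · exact h1 y ((mem_uniR _ _).mpr ⟨c, hc, hyc⟩)
            · rw [List.mem_singleton] at hc
              rw [hc] at hyc
              exact h3 y hyc
        · rintro (⟨h0, h1, -, h2⟩ | ⟨h0, h1, h2⟩)
          · exact ⟨h0, h1, h2⟩
          · refine ⟨h0, ?_, h2⟩
            intro y hy
            obtain ⟨c, hc, hyc⟩ := (mem_uniR _ _).mp hy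
            exact h1 y ((mem_uniR _ _).mpr ⟨c, List.mem_append.mpr (Or.inl hc), hyc⟩))
      (by
        rintro m - ⟨⟨-, -, ⟨y, hy, hy0⟩, -⟩, -, h1, -⟩
        exact hy0 (h1 y ((mem_uniR _ _).mpr ⟨b, by simp, hy⟩)))
    rw [hsum, mul_add, ← hev, ← ih1, p1, p2]
    ring

theorem star_stp (a : I → I → ℕ) (hs : ∀ i j, a i j = a j i) (cd : CrossData a) (R : Finset I)
    (x : I) (q : I → ℚ) (K : ℕ) (u : ℕ → ℚ) (L : List (RB I)) (h : StarCtx a cd R x q K u L)
    (f : ℕ) (hf : 1 ≤ f) (hfK : f ≤ K) (T : Trm I) (hT : RReg R T) :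
    evF a R (stF x u L f) T - evF a R (stF x u L (f - 1)) T = stW u L f * Rv a R f q T := by
  classical
  have hstep := star_step0 a hs cd R x q K u L h f hf hfK T hT (bnd R f q T) le_rfl
  have hch := star_chain a hs cd R x q K u f hf hfK T hT (bnd R f q T) le_rfl L [] h
  simp only [List.nil_append] at hch
  have e0 : atF ([] : List (RB I)) (f - 1) = [] := rfl
  rw [e0, List.nil_append] at hch
  have hq0 : 0 ≤ q x := FinT.nonneg hs h.fin q (fun i hi => by
    obtain ⟨n, _, hn⟩ := h.qok i hi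
    rw [hn]; positivity) x h.hx
  have hsum := AG9c_split (mbox R (bnd R f q T)) (fun m => ¬ Plat R q m)
    (fun m => q x < m x)
    (fun m => m x = 0 ∧ (∀ y ∈ uniR ([] : List (RB I)), m y = 0) ∧ ¬ Plat R q m)
    (fun m => sgm R m * TV a (rawT a R f q m T))
    (by
      intro m _ hg
      have hTV : TV a (rawT a R f q m T) ≠ 0 := right_ne_zero_of_mul hg
      constructor
      · intro hp
        by_cases hm : m x = 0
        · right
          refine ⟨hm, ?_, hp⟩
          intro y hy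
          simp [uniR] at hy
        · left
          exact raw_pos a hs R h.fin h.conn f hf q h.qok T hT m hp hTV x h.hx hm
      · rintro (h1 | ⟨-, -, h2⟩)
        · intro hp
          rcases hp x h.hx with h0 | h0
          · rw [h0] at h1
            push_cast at h1
            linarith
          · rw [h0] at h1
            exact lt_irrefl _ h1
        · exact h2)
    (by
      rintro m - ⟨h1, h0, -⟩
      rw [h0] at h1
      push_cast at h1
      linarith)
  rw [evF_stF hs h f T, evF_stF hs h (f - 1) T]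
  unfold Rv
  have key : evU a (({x}, alU u f) :: atF L f) T - evU a (({x}, alU u (f - 1)) :: atF L (f - 1)) T
      = (evU a (({x}, alU u f) :: atF L f) T - evU a (({x}, alU u (f - 1)) :: atF L f) T) +
        (evU a (({x}, alU u (f - 1)) :: atF L f) T -
          evU a (({x}, alU u (f - 1)) :: atF L (f - 1)) T) := by ring
  rw [key, hstep, hch, ← mul_add]
  congr 1
  convert hsum.symm using 2

end

end Pool.Agent.H27.KAC

end

section

/-!
KAC ADE, module AG9e: the star theorem.

`star_win`: `WinPat_prodF` for the blocks, `WinPat.insert` for `x` (pattern of `x`: insertion `0`, level `f` or `f - 1`; for `f = 0` level `0`),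
`prodF` of a cons is `mulF`, `WinPat.congr`.
`star_a0`: `evU_alU` with `f = 0` (`evU_col_lev0`), `evU_a0`, then add the insertion at level `0` with `TV_lev0`.
-/

set_option autoImplicit false

namespace Pool.Agent.H27.KAC

open scoped BigOperators

section

variable {I : Type} [Fintype I] [DecidableEq I]

theorem AG9e_pair {a : I → I → ℕ} {cd : CrossData a} {R : Finset I} {x : I} {q : I → ℚ} {K : ℕ}
    {u : ℕ → ℚ} {L : List (RB I)} (h : StarCtx a cd R x q K u L) (f : ℕ) :
    (atF L f).Pairwise (fun b c => Sep a b.1 c.1) := by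
  unfold atF
  rw [List.pairwise_map]
  exact h.sep

theorem AG9e_uni {a : I → I → ℕ} {cd : CrossData a} {R : Finset I} {x : I} {q : I → ℚ} {K : ℕ}
    {u : ℕ → ℚ} {L : List (RB I)} (h : StarCtx a cd R x q K u L) (f : ℕ) :
    uni (atF L f) = R.erase x := by
  rw [uni_atF, h.cov]

/-- the patterns of the chain vertex. -/
theorem AG9e_alU (u : ℕ → ℚ) (f : ℕ) (d : ℚ × Pat I) (hd : d ∈ alU u f) (x : I) :
    d.2.q x = 0 ∧ d.2.s x ≤ f ∧ f < d.2.s x + 2 := by
  unfold alU at hd
  split_ifs at hd with h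
  · rw [List.mem_singleton] at hd
    subst hd
    subst h
    exact ⟨rfl, le_rfl, by norm_num⟩
  · rw [List.mem_cons, List.mem_singleton] at hd
    rcases hd with hd | hd
    · subst hd
      exact ⟨rfl, le_rfl, Nat.lt_add_of_pos_right (by norm_num)⟩
    · subst hd
      refine ⟨rfl, Nat.sub_le f 1, ?_⟩
      show f < f - 1 + 2
      omega

theorem star_win (a : I → I → ℕ) (hs : ∀ i j, a i j = a j i) (cd : CrossData a) (R : Finset I)
    (x : I) (q : I → ℚ) (K : ℕ) (u : ℕ → ℚ) (L : List (RB I)) (h : StarCtx a cd R x q K u L)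
    (f : ℕ) (hfK : f ≤ K) (c : ℚ × Pat I) (hc : c ∈ stF x u L f) : WinPat a cd R q f c.2 := by
  have hc' : c ∈ mulF {x} (alU u f) (prodF (atF L f)) := hc
  unfold mulF at hc'
  rw [List.mem_flatMap] at hc'
  obtain ⟨d, hd, hc'⟩ := hc'
  rw [List.mem_map] at hc'
  obtain ⟨e, he, rfl⟩ := hc'
  have hx : x ∉ R.erase x := Finset.notMem_erase x R
  have hwin : WinPat a cd (R.erase x) q f e.2 := by
    rw [← AG9e_uni h f]
    refine WinPat_prodF a hs cd f q (atF L f) (AG9e_pair h f) ?_ e he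
    intro b hb c hc
    unfold atF at hb
    rw [List.mem_map] at hb
    obtain ⟨b', hb', rfl⟩ := hb
    exact (h.resp b' hb').win f hfK c hc
  obtain ⟨h0, h1, h2⟩ := AG9e_alU u f d hd x
  have hg : WinPat a cd (R.erase x) q f (glue {x} d.2 e.2) := by
    refine hwin.congr ?_ ?_
    · intro y hy
      have hne : y ∉ ({x} : Finset I) := by
        rw [Finset.mem_singleton]
        exact Finset.ne_of_mem_erase hy
      show e.2.s y = if y ∈ ({x} : Finset I) then d.2.s y else e.2.s y
      rw [if_neg hne]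
    · intro y hy
      have hne : y ∉ ({x} : Finset I) := by
        rw [Finset.mem_singleton]
        exact Finset.ne_of_mem_erase hy
      show e.2.q y = if y ∈ ({x} : Finset I) then d.2.q y else e.2.q y
      rw [if_neg hne]
  have hxx : x ∈ ({x} : Finset I) := Finset.mem_singleton_self x
  have gq : (glue {x} d.2 e.2).q x = d.2.q x := if_pos hxx
  have gs : (glue {x} d.2 e.2).s x = d.2.s x := if_pos hxx
  have hins := hg.insert x hx (by rw [gq]; exact h0) (by rw [gs]; exact h1)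
    (by rw [gs]; exact h2) h.hz
  rw [Finset.insert_erase h.hx] at hins
  exact hins

theorem AG9e_reg {R : Finset I} {x : I} (T : Trm I) (hT : RReg R T) :
    RReg (R.erase x) (T.col x (sy x 1)) where
  nat y hy l hl := hT.nat y (Finset.mem_of_mem_erase hy) l hl
  col y hy j hj l hl hne := by
    have hyx : y ≠ x := Finset.ne_of_mem_erase hy
    have hyR : y ∈ R := Finset.mem_of_mem_erase hy
    by_cases hjx : j = x
    · exfalso
      apply hne
      subst hjx
      show (Function.update T.Λ j (sy j 1) j) (y, l) = 0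
      rw [Function.update_self]
      exact Finsupp.single_eq_of_ne (fun h => hyx (congrArg Prod.fst h))
    · have hjR : j ∉ R := fun h => hj (Finset.mem_erase.2 ⟨hjx, h⟩)
      refine hT.col y hyR j hjR l hl ?_
      intro h0
      apply hne
      show (Function.update T.Λ x (sy x 1) j) (y, l) = 0
      rw [Function.update_of_ne hjx]
      exact h0

theorem AG9e_lev0 (a : I → I → ℕ) {R : Finset I} {x : I} (hx : x ∈ R) (q : I → ℚ) (T : Trm I) :
    TV a (tauT a (R.erase x) 0 q (T.col x (sy x 1))) = TV a (tauT a R 0 q T) := by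
  refine TV_lev0 a _ _ ?_ ?_ ?_
  · funext i
    show T.γ i - ((0 : ℕ) : ℚ) * _ = T.γ i - ((0 : ℕ) : ℚ) * _
    rw [Nat.cast_zero, zero_mul, zero_mul]
  · intro i k hk
    show (blkT a (R.erase x) 0 (0 + 1) q (T.col x (sy x 1))).E (i, k) =
      (blkT a R 0 (0 + 1) q T).E (i, k)
    have hk0 : k ≠ 0 := by omega
    rw [blkT_E, blkT_E, if_neg hk0, if_neg hk0]
    rfl
  · intro j i k _
    show (if j ∈ R.erase x then sy j (0 + 1) else Function.update T.Λ x (sy x 1) j) (i, k) =
      (if j ∈ R then sy j (0 + 1) else T.Λ j) (i, k)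
    by_cases hjx : j = x
    · subst hjx
      rw [if_neg (Finset.notMem_erase j R), if_pos hx, Function.update_self]
    · rw [Function.update_of_ne hjx]
      by_cases hj : j ∈ R
      · rw [if_pos (Finset.mem_erase.2 ⟨hjx, hj⟩), if_pos hj]
      · rw [if_neg (fun h => hj (Finset.mem_of_mem_erase h)), if_neg hj]

theorem star_a0 (a : I → I → ℕ) (hs : ∀ i j, a i j = a j i) (cd : CrossData a) (R : Finset I)
    (x : I) (q : I → ℚ) (K : ℕ) (u : ℕ → ℚ) (L : List (RB I)) (h : StarCtx a cd R x q K u L)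
    (T : Trm I) (hT : RReg R T) :
    evF a R (stF x u L 0) T = stW u L 0 * TV a (tauT a R 0 q T) := by
  have hxu : x ∉ uni (atF L 0) := by
    rw [AG9e_uni h 0]
    exact Finset.notMem_erase x R
  rw [evF_stF hs h 0 T, evU_alU a u 0 x (atF L 0) hxu T, evU_col_lev0 a (atF L 0) T x x hxu,
    mul_zero, sub_zero]
  have hreg : RReg (uniR L) (T.col x (sy x (0 + 1))) := by
    rw [h.cov]
    exact AG9e_reg T hT
  rw [evU_a0 a hs cd q K L h.sep h.resp (T.col x (sy x (0 + 1))) hreg, h.cov]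
  have e : TV a (tauT a (R.erase x) 0 q (T.col x (sy x (0 + 1)))) = TV a (tauT a R 0 q T) :=
    AG9e_lev0 a h.hx q T
  rw [e]
  unfold stW
  ring

theorem star_resp (a : I → I → ℕ) (hs : ∀ i j, a i j = a j i) (cd : CrossData a) (R : Finset I)
    (x : I) (q : I → ℚ) (K : ℕ) (u : ℕ → ℚ) (L : List (RB I)) (h : StarCtx a cd R x q K u L) :
    Resp a cd R q K (stW u L) (stF x u L) where
  win f hf c hc := star_win a hs cd R x q K u L h f hf c hc
  a0 T hT := star_a0 a hs cd R x q K u L h T hT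
  stp f hf hfK T hT := star_stp a hs cd R x q K u L h f hf hfK T hT
  knk f hf hfK T hT hk := star_knk a hs cd R x q K u L h f hf hfK T hT hk

end

end Pool.Agent.H27.KAC

end

section

/-!
KAC ADE, module AG10: the response product theorem.

Proof of `RPT`: strong induction on `R.card`.  Choose `x ∈ M`.  For every component `A` of `R.erase x` let `MA = M ∩ A`,
`LA = L.filter (b.B ⊆ A)`.  If `MA = ∅`, then `A` is a component of `R \ M`, hence `A = b.B` for exactly one `b ∈ L` (`ConnS`, `Sep`);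
take the family of `b`.  Otherwise use the induction hypothesis for `A, MA, LA` (`QOk_sub`, all classes on `M` are integral).
`exists_RB_list` and the star theorem `star_resp` for `x`, `u x`; weights: products over the components.  At the top frontier:
`evF_stF`, `evU_alU`, `evU_subst` and linearity in the column of `x`.
-/

set_option autoImplicit false

namespace Pool.Agent.H27.KAC

open scoped BigOperators

section

variable {I : Type} [Fintype I] [DecidableEq I]

/-! joint values with a final functional -/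

theorem RPT (a : I → I → ℕ) (hs : ∀ i j, a i j = a j i) (cd : CrossData a) (K : ℕ) (q : I → ℚ)
    (u : I → ℕ → ℚ) (R : Finset I) (hR : FinT a R) (hc : ConnS a R) (hq : QOk a R q)
    (M : Finset I) (hM : M ⊆ R) (hne : M.Nonempty)
    (hMz : ∀ x ∈ M, IsZ (q x)) (hu : ∀ x ∈ M, Aff (u x)) (L : List (RB I))
    (hcov : uniR L = R \ M) (hsep : L.Pairwise (fun b c => Sep a b.B c.B))
    (hconn : ∀ b ∈ L, ConnS a b.B) (hresp : ∀ b ∈ L, Resp a cd b.B q K b.w b.Φ) :
    ∃ Φ : ℕ → FFn I,
      Resp a cd R q K (fun l => (∏ x ∈ M, u x l) * (L.map (fun b => b.w l)).prod) Φ ∧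
      ∀ T : Trm I, RReg R T → evF a R (Φ K) T =
        evU a (atF L K) (T.cols M (fun x => u x K • sy x (K + 1) - u x (K + 1) • sy x K)) := by
  induction hn : R.card using Nat.strong_induction_on generalizing R M L with
  | _ n ih =>
  subst hn
  obtain ⟨x, hxM⟩ := hne
  have hxR : x ∈ R := hM hxM
  -- blocks of `L` lie in `R \ M`
  have hLsub : ∀ b ∈ L, b.B ⊆ R \ M := by
    intro b hb y hy
    rw [← hcov]
    exact (mem_uniR L y).2 ⟨b, hb, hy⟩
  have hLer : ∀ b ∈ L, b.B ⊆ R.erase x := by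
    intro b hb y hy
    have h1 := Finset.mem_sdiff.1 (hLsub b hb hy)
    exact Finset.mem_erase.2 ⟨fun e => h1.2 (e ▸ hxM), h1.1⟩
  -- every block meeting a component is inside
  have hin : ∀ A ∈ comps a (R.erase x), ∀ b ∈ L, ∀ y ∈ b.B, y ∈ A → b.B ⊆ A := by
    intro A hA b hb y hy hyA
    exact sub_comp hA (hconn b hb) (hLer b hb) hy hyA
  have hcomp : ∀ A ∈ comps a (R.erase x), ∃ w Φ, (Resp a cd A q K w Φ ∧
      (∀ l, w l = (∏ y ∈ M ∩ A, u y l) * ((inL L A).map (fun b => b.w l)).prod) ∧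
      ∀ T : Trm I, RReg A T → evF a A (Φ K) T =
        evU a (atF (inL L A) K) (T.cols (M ∩ A) (cK u K))) := by
    intro A hA
    have hAe : A ⊆ R.erase x := comps_subset hA
    have hAR : A ⊆ R := hAe.trans (Finset.erase_subset _ _)
    have hAc : ConnS a A := comps_conn hA
    by_cases hMA : (M ∩ A).Nonempty
    · have hcard : A.card < R.card :=
        lt_of_le_of_lt (Finset.card_le_card hAe) (Finset.card_erase_lt_of_mem hxR)
      have hqA : QOk a A q := by
        refine QOk_sub hs hR hq A hAR ?_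
        intro y hy z hz hzA
        by_cases hzx : z = x
        · exact Or.inr (hzx ▸ hMz x hxM)
        · exact Or.inl (comps_sep hA y hy z (Finset.mem_erase.2 ⟨hzx, hz⟩) hzA)
      have hcovA : uniR (inL L A) = A \ (M ∩ A) := by
        ext y
        rw [mem_uniR]
        constructor
        · rintro ⟨b, hb, hyb⟩
          rw [mem_inL] at hb
          have h1 := Finset.mem_sdiff.1 (hLsub b hb.1 hyb)
          exact Finset.mem_sdiff.2 ⟨hb.2 hyb, fun h => h1.2 (Finset.mem_inter.1 h).1⟩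
        · intro hy
          rw [Finset.mem_sdiff, Finset.mem_inter, not_and] at hy
          have hyM : y ∉ M := fun h => hy.2 h hy.1
          have hyL : y ∈ uniR L := by
            rw [hcov]
            exact Finset.mem_sdiff.2 ⟨hAR hy.1, hyM⟩
          obtain ⟨b, hb, hyb⟩ := (mem_uniR L y).1 hyL
          exact ⟨b, mem_inL.2 ⟨hb, hin A hA b hb y hyb hy.1⟩, hyb⟩
      obtain ⟨Φ, hΦ1, hΦ2⟩ := ih A.card hcard A (hR.mono hAR) hAc hqA (M ∩ A)
        Finset.inter_subset_right hMA (fun y hy => hMz y (Finset.mem_inter.1 hy).1)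
        (fun y hy => hu y (Finset.mem_inter.1 hy).1) (inL L A) hcovA
        (hsep.filter _) (fun b hb => hconn b (mem_inL.1 hb).1)
        (fun b hb => hresp b (mem_inL.1 hb).1) rfl
      exact ⟨_, Φ, hΦ1, fun l => rfl, hΦ2⟩
    · rw [Finset.not_nonempty_iff_eq_empty] at hMA
      have hAL : A ⊆ uniR L := by
        intro y hy
        rw [hcov]
        refine Finset.mem_sdiff.2 ⟨hAR hy, fun h => ?_⟩
        have : y ∈ M ∩ A := Finset.mem_inter.2 ⟨h, hy⟩
        rw [hMA] at this
        exact absurd this (Finset.notMem_empty y)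
      obtain ⟨y, hy⟩ := hAc.1
      obtain ⟨b, hb, hyb⟩ := (mem_uniR L y).1 (hAL hy)
      have hbA : b.B ⊆ A := hin A hA b hb y hyb hy
      have hbeq : b.B = A := by
        by_contra hne'
        obtain ⟨i, hi, j, hj, hj', hij⟩ := hAc.2 b.B hbA ⟨y, hyb⟩ hne'
        obtain ⟨b', hb', hjb'⟩ := (mem_uniR L j).1 (hAL hj)
        have hbb' : b ≠ b' := fun e => hj' (e ▸ hjb')
        have := (L_sep hs hsep hb hb' hbb').2 i hi j hjb'
        omega
      have hinL : inL L A = [b] := by
        have hnd : (inL L A).Nodup := (L_nodup hsep hconn).filter _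
        rw [← List.perm_singleton]
        refine (List.perm_ext_iff_of_nodup hnd (List.nodup_singleton b)).2 ?_
        intro d
        rw [mem_inL, List.mem_singleton]
        constructor
        · rintro ⟨hd, hdA⟩
          by_contra hne'
          obtain ⟨z, hz⟩ := (hconn d hd).1
          have h1 := (L_sep hs hsep hd hb hne').1
          exact Finset.disjoint_left.1 h1 hz (by rw [hbeq]; exact hdA hz)
        · rintro rfl
          exact ⟨hb, hbA⟩
      refine ⟨b.w, b.Φ, ?_, ?_, ?_⟩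
      · rw [← hbeq]
        exact hresp b hb
      · intro l
        rw [hMA, hinL]
        simp
      · intro T _
        rw [hMA, hinL]
        have e : T.cols ∅ (cK u K) = T := by
          refine Trm.ext rfl rfl ?_
          funext i
          simp [Trm.cols]
        rw [e]
        simp only [atF, List.map_cons, List.map_nil]
        rw [evU_single, hbeq]
  obtain ⟨L', hL'1, hL'2, hL'3, hL'4, hL'5⟩ := exists_RB_list a hs (R.erase x)
    (fun A w Φ => Resp a cd A q K w Φ ∧
      (∀ l, w l = (∏ y ∈ M ∩ A, u y l) * ((inL L A).map (fun b => b.w l)).prod) ∧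
      ∀ T : Trm I, RReg A T → evF a A (Φ K) T =
        evU a (atF (inL L A) K) (T.cols (M ∩ A) (cK u K))) hcomp
  have hctx : StarCtx a cd R x q K (u x) L' :=
    { fin := hR
      conn := hc
      qok := hq
      hx := hxR
      hz := hMz x hxM
      aff := hu x hxM
      cov := hL'4
      sep := hL'3
      bconn := fun b hb => comps_conn (hL'1 b hb).1
      resp := fun b hb => (hL'1 b hb).2.1 }
  refine ⟨stF x (u x) L', ?_, ?_⟩
  · have hw : (fun l => (∏ y ∈ M, u y l) * (L.map (fun b => b.w l)).prod) = stW (u x) L' := by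
      funext l
      have h1 : (L'.map (fun b => b.w l)).prod =
          ∏ A ∈ comps a (R.erase x), ((∏ y ∈ M ∩ A, u y l) *
            ((inL L A).map (fun b => b.w l)).prod) := by
        rw [← hL'5 (fun A => (∏ y ∈ M ∩ A, u y l) * ((inL L A).map (fun b => b.w l)).prod)]
        congr 1
        refine List.map_congr_left ?_
        intro b hb
        exact (hL'1 b hb).2.2.1 l
      have h2 : ∏ A ∈ comps a (R.erase x), (∏ y ∈ M ∩ A, u y l) = ∏ y ∈ M.erase x, u y l := by
        rw [← Finset.prod_biUnion]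
        · congr 1
          ext y
          simp only [Finset.mem_biUnion, Finset.mem_inter, Finset.mem_erase]
          constructor
          · rintro ⟨A, hA, hyM, hyA⟩
            exact ⟨(Finset.mem_erase.1 (comps_subset hA hyA)).1, hyM⟩
          · rintro ⟨hyx, hyM⟩
            obtain ⟨A, hA, hyA⟩ := comps_cover hs y (Finset.mem_erase.2 ⟨hyx, hM hyM⟩)
            exact ⟨A, hA, hyM, hyA⟩
        · intro A hA A' hA' hne'
          refine Finset.disjoint_of_subset_left Finset.inter_subset_right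
            (Finset.disjoint_of_subset_right Finset.inter_subset_right ?_)
          exact comps_disjoint hs hA hA' hne'
      have h3 : ∏ A ∈ comps a (R.erase x), ((inL L A).map (fun b => b.w l)).prod =
          (L.map (fun b => b.w l)).prod := by
        refine prod_inL (comps a (R.erase x)) (fun b => b.w l) L ?_
        intro b hb
        obtain ⟨y, hy⟩ := (hconn b hb).1
        obtain ⟨A, hA, hyA⟩ := comps_cover hs y (hLer b hb hy)
        refine ⟨A, hA, hin A hA b hb y hy hyA, ?_⟩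
        intro A' hA' hbA'
        by_contra hne'
        exact Finset.disjoint_left.1 (comps_disjoint hs hA' hA hne') (hbA' hy) hyA
      rw [stW, h1, Finset.prod_mul_distrib, h2, h3, ← Finset.mul_prod_erase M (fun y => u y l) hxM]
      ring
    rw [hw]
    exact star_resp a hs cd R x q K (u x) L' hctx
  · intro T hT
    have hxL' : x ∉ uni (atF L' K) := by
      rw [uni_atF, hL'4]
      exact Finset.notMem_erase x R
    have hT' : RReg (uniR L') (T.col x (cK u K x)) := by
      rw [hL'4]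
      refine ⟨fun y hy l hl => hT.nat y (Finset.mem_of_mem_erase hy) l hl, ?_⟩
      intro y hy j hj l hl hne'
      simp only [Trm.col] at hne'
      by_cases hjx : j = x
      · subst hjx
        rw [Function.update_self] at hne'
        exact absurd (cK_apply u K j y l (Finset.mem_erase.1 hy).1) hne'
      · rw [Function.update_of_ne hjx] at hne'
        refine hT.col y (Finset.mem_of_mem_erase hy) j ?_ l hl hne'
        intro hjR
        exact hj (Finset.mem_erase.2 ⟨hjx, hjR⟩)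
    have hlin : u x K * evU a (atF L' K) (T.col x (sy x (K + 1))) -
        u x (K + 1) * evU a (atF L' K) (T.col x (sy x K)) =
        evU a (atF L' K) (T.col x (cK u K x)) := by
      have e : cK u K x = u x K • sy x (K + 1) + (-u x (K + 1)) • sy x K := by
        rw [cK, neg_smul, sub_eq_add_neg]
      rw [e, evU_col_add a _ x hxL', evU_col_smul a _ x hxL', evU_col_smul a _ x hxL']
      ring
    have hMx : ∀ b ∈ L', M.erase x ∩ b.B = M ∩ b.B := by
      intro b hb
      ext y
      simp only [Finset.mem_inter, Finset.mem_erase]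
      constructor
      · rintro ⟨⟨-, h2⟩, h3⟩
        exact ⟨h2, h3⟩
      · rintro ⟨h2, h3⟩
        exact ⟨⟨(Finset.mem_erase.1 (comps_subset (hL'1 b hb).1 h3)).1, h2⟩, h3⟩
    have hsub := evU_subst a hs K (cK u K) (fun j y l h => cK_apply u K j y l h) L'
      (fun b => inL L b.B) (M.erase x) hL'3 (fun b _ => hsep.filter _) ?_ ?_ ?_ ?_
      (T.col x (cK u K x)) hT'
    · rw [evF_stF hs hctx K T, evU_alU a (u x) K x (atF L' K) hxL' T, hlin, hsub]
      have e1 : (T.col x (cK u K x)).cols (M.erase x) (cK u K) = T.cols M (cK u K) := by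
        refine Trm.ext rfl rfl ?_
        funext i
        simp only [Trm.cols, Trm.col, Finset.mem_erase]
        by_cases hix : i = x
        · subst hix
          rw [if_neg (fun h => h.1 rfl), if_pos hxM, Function.update_self]
        · rw [Function.update_of_ne hix]
          by_cases hiM : i ∈ M
          · rw [if_pos ⟨hix, hiM⟩, if_pos hiM]
          · rw [if_neg (fun h => hiM h.2), if_neg hiM]
      rw [e1]
      symm
      refine evU_perm a _ _ ?_ (pairwise_disj (a := a) (atF_pairwise K hsep)) _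
      refine List.Perm.map _ ?_
      refine (List.perm_ext_iff_of_nodup (L_nodup hsep hconn) ?_).2 ?_
      · rw [List.nodup_flatMap]
        refine ⟨fun b _ => (L_nodup hsep hconn).filter _, ?_⟩
        refine List.Pairwise.imp_of_mem ?_ hL'3
        intro b c hb hc hbc d hd hd'
        obtain ⟨y, hy⟩ := (hconn d (mem_inL.1 hd).1).1
        exact Finset.disjoint_left.1 hbc.1 ((mem_inL.1 hd).2 hy) ((mem_inL.1 hd').2 hy)
      · intro b
        rw [List.mem_flatMap]
        constructor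
        · intro hb
          obtain ⟨y, hy⟩ := (hconn b hb).1
          obtain ⟨A, hA, hyA⟩ := comps_cover hs y (hLer b hb hy)
          obtain ⟨d, hd, hdA⟩ := hL'2 A hA
          refine ⟨d, hd, mem_inL.2 ⟨hb, ?_⟩⟩
          rw [hdA]
          exact hin A hA b hb y hy hyA
        · rintro ⟨d, -, hd⟩
          exact (mem_inL.1 hd).1
    · intro b hb
      constructor
      · intro y hy
        obtain ⟨d, hd, hyd⟩ := (mem_uniR _ y).1 hy
        exact (mem_inL.1 hd).2 hyd
      · rw [Finset.disjoint_left]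
        intro y hy hyM
        obtain ⟨d, hd, hyd⟩ := (mem_uniR _ y).1 hy
        exact (Finset.mem_sdiff.1 (hLsub d (mem_inL.1 hd).1 hyd)).2 (Finset.mem_of_mem_erase hyM)
    · rw [hL'4]
      exact Finset.erase_subset_erase x hM
    · intro b hb y hy
      have hA := (hL'1 b hb).1
      have hye := Finset.mem_erase.1 (comps_subset hA hy)
      by_cases hyM : y ∈ M
      · exact Finset.mem_union_right _ (Finset.mem_erase.2 ⟨hye.1, hyM⟩)
      · refine Finset.mem_union_left _ ?_
        have hyL : y ∈ uniR L := by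
          rw [hcov]
          exact Finset.mem_sdiff.2 ⟨hye.2, hyM⟩
        obtain ⟨d, hd, hyd⟩ := (mem_uniR L y).1 hyL
        exact (mem_uniR _ y).2 ⟨d, mem_inL.2 ⟨hd, hin b.B hA d hd y hyd hy⟩, hyd⟩
    · intro b hb X hX
      rw [hMx b hb]
      exact (hL'1 b hb).2.2.2 X hX

end

end Pool.Agent.H27.KAC

end

section

/-!
KAC ADE, module AG13: the response theorem for clusters.

`Resp.combo`: linear combinations.  `Resp.extend`: one more frontier, given by the functional `tau_{L+1}`.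
`Resp.const`: if the functional at the frontier `L` is `tau_{L+1}[q]`, the family can be continued by the same functional with
weights zero up to the frontier `L + mm A - 1` (`cd.rv`).

`UpFam_of_Tau`: `k < mm A`: the zero family, `cd.cr0`; `mm A ≤ k`: `Φ' f = smF (eps) (Φ (min f (k - mm A)))`, `Resp.const`, `cd.cr`.

`OmFam_of_Up` (`M` nonempty): `RPT` with `K = k - 1`, `u x l = k - l`, blocks = the `Up` families of the components of `R \ M`
(`exists_RB_list`, `QOk_sub`), `evU_eval_up`.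

`TauFam_all`: strong induction on `A.card`, then on `L`.  `L = 0`: `Φ f = [(1, ⟨0, q⟩)]`.  `L ≥ 1`: the combination of the `OmFam`
families for `M ≠ ∅` and of the `Up` family of `A` for `M = ∅` (`comps_of_conn`) with coefficients
`(-1)^{|A \ M|} detEff (A \ M) M`; by `PPv_eq` its value at the frontier `L - 1` is `PPv a A L q T`; extend by `Resp.extend`
(`TV_step_split`).  The weights are `cn (L - l)` by `cn_rec`, `cn_zero`.
-/

set_option autoImplicit false

namespace Pool.Agent.H27.KAC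

open scoped BigOperators

section

variable {I : Type} [Fintype I] [DecidableEq I]

theorem OmFam_of_Up (a : I → I → ℕ) (hs : ∀ i j, a i j = a j i) (cd : CrossData a)
    (R : Finset I) (hR : FinT a R) (hc : ConnS a R) (q : I → ℚ) (hq : QOk a R q) (M : Finset I)
    (hM : M ⊆ R) (hne : M.Nonempty) (hMz : ∀ x ∈ M, IsZ (q x)) (k : ℕ) (hk : 1 ≤ k)
    (hfam : ∀ A ∈ comps a (R \ M), UpFam a cd A q k) :
    ∃ Φ : ℕ → FFn I, Resp a cd R q (k - 1)
      (fun l => ((k : ℚ) - l) ^ M.card * ∏ N ∈ comps a (R \ M), upw a cd N q (k - l)) Φ ∧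
      ∀ T : Trm I, RReg R T → evF a R (Φ (k - 1)) T = TV a (omT a R M k q T) := by
  obtain ⟨L, hL1, hL2, hL3, hL4, hL5⟩ := exists_RB_list a hs (R \ M)
    (fun A w Φ => w = (fun l => upw a cd A q (k - l)) ∧ Resp a cd A q (k - 1) w Φ ∧
      ∀ T : Trm I, RReg A T → evF a A (Φ (k - 1)) T = TV a (upT a A k q T))
    (fun A hA => by
      obtain ⟨Φ, h1, h2⟩ := hfam A hA
      exact ⟨_, Φ, rfl, h1, h2⟩)
  obtain ⟨Φ, hΦ1, hΦ2⟩ := RPT a hs cd (k - 1) q (fun _ l => (k : ℚ) - l) R hR hc hq M hM hne hMz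
    (fun x _ => ⟨k, -1, fun l => by ring⟩) L hL4 hL3 (fun b hb => comps_conn (hL1 b hb).1)
    (fun b hb => (hL1 b hb).2.2.1)
  have hk1 : ((k - 1 : ℕ) : ℚ) = (k : ℚ) - 1 := by
    rw [Nat.cast_sub hk, Nat.cast_one]
  refine ⟨Φ, hΦ1.congr_w ?_, ?_⟩
  · intro l _
    rw [Finset.prod_const]
    congr 1
    rw [← hL5]
    congr 1
    apply List.map_congr_left
    intro b hb
    rw [(hL1 b hb).2.1]
  · intro T hT
    rw [hΦ2 T hT]
    have hcol : (fun x => ((k : ℚ) - ((k - 1 : ℕ) : ℚ)) • sy x (k - 1 + 1) -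
        ((k : ℚ) - ((k - 1 + 1 : ℕ) : ℚ)) • sy x (k - 1)) = fun x : I => sy x k := by
      funext x
      have h1 : k - 1 + 1 = k := by omega
      rw [h1, hk1]
      simp
    rw [hcol, evU_eval_up a hs q k (k - 1) L hL3 (fun b hb => (hL1 b hb).2.2.2), hL4]
    · rfl
    · rw [hL4]
      refine ⟨?_, ?_⟩
      · intro x hx l hl
        exact hT.nat x (Finset.mem_sdiff.1 hx).1 l hl
      · intro x hx j hj l hl h
        obtain ⟨hxR, hxM⟩ := Finset.mem_sdiff.1 hx
        simp only [Trm.cols] at h ⊢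
        by_cases hjM : j ∈ M
        · exfalso
          rw [if_pos hjM] at h
          apply h
          rw [Finsupp.single_apply, if_neg]
          intro h2
          have h3 : j = x := congrArg Prod.fst h2
          exact hxM (h3 ▸ hjM)
        · rw [if_neg hjM] at h
          have hjR : j ∉ R := fun h2 => hj (Finset.mem_sdiff.2 ⟨h2, hjM⟩)
          exact hT.col x hxR j hjR l hl h

theorem AG13_Om (a : I → I → ℕ) (hs : ∀ i j, a i j = a j i) (cd : CrossData a)
    (A : Finset I) (hA : FinT a A) (hc : ConnS a A) (q : I → ℚ) (hq : QOk a A q) (L : ℕ)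
    (hL : 1 ≤ L)
    (ih1 : ∀ A' ⊂ A, FinT a A' → ConnS a A' → QOk a A' q → ∀ L', TauFam a cd A' q L')
    (ih2 : ∀ L' < L, TauFam a cd A q L') (M : Finset I) (hM : M ⊆ A) (hMz : ∀ x ∈ M, IsZ (q x)) :
    (M.Nonempty → ∀ A' ∈ comps a (A \ M), UpFam a cd A' q L) ∧
    ∃ Φ : ℕ → FFn I, Resp a cd A q (L - 1)
      (fun l => ((L : ℚ) - l) ^ M.card * ∏ N ∈ comps a (A \ M), upw a cd N q (L - l)) Φ ∧
      ∀ T : Trm I, RReg A T → evF a A (Φ (L - 1)) T = TV a (omT a A M L q T) := by
  have hup : M.Nonempty → ∀ A' ∈ comps a (A \ M), UpFam a cd A' q L := by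
    intro hne A' hA'
    have hsub : A' ⊆ A \ M := comps_subset hA'
    have hsubA : A' ⊆ A := hsub.trans Finset.sdiff_subset
    obtain ⟨x, hx⟩ := hne
    have hss : A' ⊂ A := by
      refine (Finset.ssubset_iff_of_subset hsubA).2 ⟨x, hM hx, ?_⟩
      intro h
      exact (Finset.mem_sdiff.1 (hsub h)).2 hx
    have hq' : QOk a A' q := by
      refine QOk_sub hs hA hq A' hsubA ?_
      intro y hy z hz hzA'
      by_cases hzM : z ∈ M
      · exact Or.inr (hMz z hzM)
      · exact Or.inl (comps_sep hA' y hy z (Finset.mem_sdiff.2 ⟨hz, hzM⟩) hzA')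
    have hf' := hA.mono hsubA
    have hc' := comps_conn hA'
    exact UpFam_of_Tau a hs cd A' hf' hc' q hq' L hL (fun _ => ih1 A' hss hf' hc' hq' _)
  refine ⟨hup, ?_⟩
  by_cases hne : M.Nonempty
  · exact OmFam_of_Up a hs cd A hA hc q hq M hM hne hMz L hL (hup hne)
  · rw [Finset.not_nonempty_iff_eq_empty] at hne
    subst hne
    have h2 := cd.two_le A
    obtain ⟨Φ, h3, h4⟩ := UpFam_of_Tau a hs cd A hA hc q hq L hL (fun h => ih2 _ (by omega))
    refine ⟨Φ, h3.congr_w ?_, ?_⟩
    · intro l _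
      simp [comps_of_conn hc]
    · intro T hT
      rw [h4 T hT, omT, Finset.sdiff_empty]
      congr 1

theorem TauFam_all (a : I → I → ℕ) (hs : ∀ i j, a i j = a j i) (cd : CrossData a)
    (A : Finset I) (hA : FinT a A) (hc : ConnS a A) (q : I → ℚ) (hq : QOk a A q) (L : ℕ) :
    TauFam a cd A q L := by
  classical
  induction A using Finset.strongInduction generalizing L with
  | H A ihA =>
  induction L using Nat.strong_induction_on with
  | _ L ihL =>
  have h2 := cd.two_le A
  rcases Nat.eq_zero_or_pos L with hL | hL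
  · subst hL
    refine ⟨fun _ => [(1, ⟨fun _ => 0, q⟩)], ⟨?_, ?_, ?_, ?_⟩, rfl⟩
    · intro f hf c hcm
      rw [List.mem_singleton] at hcm
      rw [hcm]
      exact AG13_win hs cd hq hA hc 0 f (Nat.zero_le _) (by omega)
    · intro T _
      rw [AG13_evF_one]
      simp only [Nat.sub_zero, cn_zero, one_mul]
    · intro f h3 h4
      omega
    · intro f h3 h4
      omega
  · have ih1 : ∀ A' ⊂ A, FinT a A' → ConnS a A' → QOk a A' q → ∀ L', TauFam a cd A' q L' :=
      fun A' h5 h6 h7 h8 L' => ihA A' h5 h6 h7 h8 L'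
    have hOm := fun M hM hMz => AG13_Om a hs cd A hA hc q hq L hL ih1 ihL M hM hMz
    set P : Finset (Finset I) := A.powerset.filter (fun M => ∀ x ∈ M, IsZ (q x)) with hP
    have hmem : ∀ M ∈ P, M ⊆ A ∧ ∀ x ∈ M, IsZ (q x) := by
      intro M hM
      rw [hP, Finset.mem_filter, Finset.mem_powerset] at hM
      exact hM
    have hex : ∀ M : Finset I, ∃ Φ : ℕ → FFn I, M ∈ P → Resp a cd A q (L - 1)
        (fun l => ((L : ℚ) - l) ^ M.card * ∏ N ∈ comps a (A \ M), upw a cd N q (L - l)) Φ ∧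
        ∀ T : Trm I, RReg A T → evF a A (Φ (L - 1)) T = TV a (omT a A M L q T) := by
      intro M
      by_cases hM : M ∈ P
      · obtain ⟨Φ, hΦ⟩ := (hOm M (hmem M hM).1 (hmem M hM).2).2
        exact ⟨Φ, fun _ => hΦ⟩
      · exact ⟨fun _ => [], fun h => absurd h hM⟩
    choose Φ hΦ using hex
    obtain ⟨hr, hev⟩ := Resp.combo a cd A q (L - 1) P.toList
      (fun M => (-1 : ℚ) ^ (A \ M).card * detEff a (A \ M) M)
      (fun M l => ((L : ℚ) - l) ^ M.card * ∏ N ∈ comps a (A \ M), upw a cd N q (L - l)) Φ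
      (fun M hM => (hΦ M (Finset.mem_toList.1 hM)).1)
    have hext := Resp.extend a hs cd A q hq hA hc L hL _ _ hr (by
      intro T hT
      rw [hev, TV_step_split a hs A hA L hL q hq T hT, PPv_eq a hs cd A hA L hL q hq
        (fun M hM hne hMz => (hOm M hM hMz).1 hne) T hT]
      have h5 : (P.toList.map (fun M => (-1 : ℚ) ^ (A \ M).card * detEff a (A \ M) M *
          evF a A (Φ M (L - 1)) T)).sum = ∑ M ∈ P, (-1 : ℚ) ^ (A \ M).card *
            detEff a (A \ M) M * TV a (omT a A M L q T) := by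
        rw [Finset.sum_map_toList]
        apply Finset.sum_congr rfl
        intro M hM
        rw [(hΦ M hM).2 T hT]
      rw [h5]
      ring)
    refine ⟨_, hext.congr_w ?_, ?_⟩
    · intro l hl
      by_cases hlL : l = L
      · subst hlL
        simp [cn_zero]
      · rw [if_neg hlL, cn_rec a cd A q (L - l) (by omega), Finset.sum_map_toList]
        apply Finset.sum_congr rfl
        intro M _
        have h6 : ((L - l : ℕ) : ℚ) = (L : ℚ) - l := by
          rw [Nat.cast_sub hl]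
        rw [h6]
        ring
    · simp

/-- the top family: columns `(x,K+1) - (x,K)` on `R`, class `0`, weights one. -/
theorem TopFam (a : I → I → ℕ) (hs : ∀ i j, a i j = a j i) (cd : CrossData a)
    (R : Finset I) (hR : FinT a R) (hc : ConnS a R) (q : I → ℚ) (hq : QOk a R q)
    (hz : ∀ x ∈ R, IsZ (q x)) (K : ℕ) :
    ∃ Φ : ℕ → FFn I, Resp a cd R q K (fun _ => 1) Φ ∧
      ∀ T : Trm I, RReg R T → evF a R (Φ K) T =
        TV a (T.cols R (fun x => sy x (K + 1) - sy x K)) := by
  obtain ⟨Φ, h1, h2⟩ := RPT a hs cd K q (fun _ _ => 1) R hR hc hq R (Finset.Subset.refl R) hc.1 hz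
    (fun x _ => ⟨1, 0, fun l => by ring⟩) [] (by simp [uniR]) List.Pairwise.nil
    (fun b hb => absurd hb (List.not_mem_nil)) (fun b hb => absurd hb (List.not_mem_nil))
  refine ⟨Φ, h1.congr_w ?_, ?_⟩
  · intro l _
    simp
  · intro T hT
    rw [h2 T hT]
    simp only [atF, List.map_nil, one_smul]
    exact evU_nil a _

end

end Pool.Agent.H27.KAC

end

section

/-!
KAC ADE, module AN1: the test terms for the response numbers.

`tT0`: all exponents zero, `γ = 0`, columns `(j,1)`.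
`tT1 v`: multiplied by `η_{·,m}^{-v}`, `v` integral on `A` with `C_A v ≥ 1`, so that it has a kink at level `m = mm A`.

`tau0_T1`: `cd.cr` with `k = mm A` for `tT1` and for `tT0`, and `TV_rep` (`N = A`, `κ = mm A`, `σ = mm A - 1`, shift `v`; the exponents of
`upT a A m q (tT1 v)` on `A` at level `m` are `C_A q + C_A v`, so `solN = q + v > v`).
`taus_T1`: `cd.rv` with `l = mm A`.
`tau_T0`: `Resp.val` for `TauFam_all`, all restart parts vanish on `tT0` (`raw_pos`: `γ` becomes negative, `TV_neg`).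
`tau_T0_int`: the insertion exponents on the columns and monomials: write the value as a coefficient at a `γ` with support in `A`; the
series `uS a j k`, `j ∉ A`, have constant coefficient one and all other monomials contain `X_j` (so their rational powers do not contribute),
for `j ∈ A` the exponents `(C_A q)_j` are natural numbers; `uS_int`.
-/

set_option autoImplicit false

namespace Pool.Agent.H27.KAC

open scoped BigOperators

section

variable {I : Type} [Fintype I] [DecidableEq I]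

theorem tau_T0 (a : I → I → ℕ) (hs : ∀ i j, a i j = a j i) (cd : CrossData a) (A : Finset I)
    (hA : FinT a A) (hc : ConnS a A) (q : I → ℚ) (hq : QOk a A q) (g : ℕ) :
    TV a (tauT a A g q tT0) = cn a cd A q g := by
  obtain ⟨Φ, hΦ, hΦg⟩ := TauFam_all a hs cd A hA hc q hq g
  have h1 := Resp.val hΦ g le_rfl tT0 (RReg_T0 A)
  rw [hΦg, tau0_T0, mul_one] at h1
  have h2 : ∑ l ∈ Finset.Icc 1 g, cn a cd A q (g - l) * Rv a A l q (tT0 : Trm I) = 0 := by
    apply Finset.sum_eq_zero
    intro l hl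
    rw [AN1_Rv_T0 a hs A hA hc q hq l (Finset.mem_Icc.mp hl).1, mul_zero]
  have h3 : evF a A [((1 : ℚ), (⟨fun _ => g, q⟩ : Pat I))] tT0 = TV a (tauT a A g q tT0) := by
    rw [tauT_eq_patT]
    unfold evF
    rw [List.map_cons, List.map_nil, List.sum_cons, List.sum_nil, add_zero, one_mul]
  rw [h3, h2, add_zero] at h1
  rw [h1]
  rfl

end

end Pool.Agent.H27.KAC

end

section

/-!
KAC ADE, module AH15: the families of the response theorem.
-/

set_option autoImplicit false

namespace Pool.Agent.H46.AH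

open scoped BigOperators
open Pool.Agent.H27.KAC Pool.Agent.H40.KADE

section

variable {I : Type} [Fintype I] [DecidableEq I]

theorem AH15_symm {p q : ℚ} (h : IsZ (p - q)) : IsZ (q - p) := by
  obtain ⟨n, hn⟩ := h
  exact ⟨-n, by push_cast; linarith⟩

theorem AH15_add {p q r : ℚ} (h : IsZ (p - q)) (h' : IsZ (q - r)) : IsZ (p - r) := by
  obtain ⟨n, hn⟩ := h
  obtain ⟨m, hm⟩ := h'
  exact ⟨n + m, by push_cast; linarith⟩

/-- from a response family to a functional which represents. -/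
theorem IsRF_of_Resp (a : I → I → ℕ) (hs : ∀ i j, a i j = a j i) (cd : CrossData a)
    (A : Finset I) (hA : FinT a A) (hc : ConnS a A) (q q₀ : I → ℚ) (hq : QOk a A q)
    (h0 : ∀ x ∈ A, IsZ (q x - q₀ x)) (K : ℕ) (w : ℕ → ℚ) (Φ : ℕ → FFn I)
    (hr : Resp a cd A q K w Φ) (f : ℕ) (hf : f ≤ K) : IsRF a cd A q₀ w f (Φ f) where
  win := fun c hc' => by
    obtain ⟨h1, h2, h3, h4, h5, h6⟩ := hr.win f hf c hc'
    exact ⟨h1, h2, h3, h4, h5, fun x hx => AH15_add (h6 x hx) (h0 x hx)⟩
  val := fun q' hq' T hT => by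
    have h1 := Resp.change_class a hs cd A hA hc q q' hq hq'.1 (fun x hx =>
      AH15_add (h0 x hx) (AH15_symm (hq'.2 x hx))) K w Φ hr
    exact h1.val f hf T hT
  knk := fun h1f q' hq' T hT hk => by
    have h1 := Resp.change_class a hs cd A hA hc q q' hq hq'.1 (fun x hx =>
      AH15_add (h0 x hx) (AH15_symm (hq'.2 x hx))) K w Φ hr
    exact h1.knk f h1f hf T hT hk

theorem AH15_zero (x : ℚ) : IsZ (x - x) := ⟨0, by push_cast; ring⟩

/-- the families of the response theorem. -/
theorem rtfam_of (a : I → I → ℕ) (hs : ∀ i j, a i j = a j i) (cd : CrossData a) : RTfam a cd where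
  tau := fun A hA hc q hq L f hf => by
    obtain ⟨Φ, h1, -⟩ := TauFam_all a hs cd A hA hc q hq L
    exact ⟨Φ f, IsRF_of_Resp a hs cd A hA hc q q hq (fun x _ => AH15_zero _) L _ Φ h1 f hf⟩
  tauL := fun A hA hc q hq L => by
    obtain ⟨Φ, h1, h2⟩ := TauFam_all a hs cd A hA hc q hq L
    rw [← h2]
    exact IsRF_of_Resp a hs cd A hA hc q q hq (fun x _ => AH15_zero _) L _ Φ h1 L le_rfl
  top := fun A hA hc f hf => by
    obtain ⟨q', -, h2, h3⟩ := exists_QOk a hs hA (fun _ => 0) (fun x _ => by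
      refine ⟨0, ?_⟩
      unfold cqN
      rw [Finset.sum_eq_zero fun j _ => mul_zero _]
      push_cast
      rfl) 1
    have hq' : QOk a A q' := fun x hx => h3 x hx
    obtain ⟨Φ, h4, h5⟩ := TopFam a hs cd A hA hc q' hq' (fun x hx => by
      have := h2 x hx
      rwa [sub_zero] at this) f
    exact ⟨Φ f, IsRF_of_Resp a hs cd A hA hc q' (fun _ => 0) hq' h2 f _ Φ h4 f le_rfl, h5⟩
  top0 := fun A hA hc f => by
    obtain ⟨q', -, h2, h3⟩ := exists_QOk a hs hA (fun _ => 0) (fun x _ => by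
      refine ⟨0, ?_⟩
      unfold cqN
      rw [Finset.sum_eq_zero fun j _ => mul_zero _]
      push_cast
      rfl) 1
    have hq' : QOk a A q' := fun x hx => h3 x hx
    obtain ⟨Φ, h4, h5⟩ := TopFam a hs cd A hA hc q' hq' (fun x hx => by
      have := h2 x hx
      rwa [sub_zero] at this) f
    exact ⟨Φ f, IsRF_of_Resp a hs cd A hA hc q' (fun _ => 0) hq' h2 f _ Φ h4 f le_rfl⟩

end

end Pool.Agent.H46.AH

end

section

/-!
Run lemma, module 15: vanishing and crossing for one finite type set.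
-/

set_option autoImplicit false
set_option maxHeartbeats 400000

namespace Pool.Agent.H10.KAC

open scoped BigOperators
open Pool.Agent.H46.KA Pool.Agent.H27.KAC

variable {I : Type} [Fintype I] [DecidableEq I]

section alg

variable {O : Type} [CommRing O]

theorem alg16 (G z o F q : O) : G * z * o * (F * q) = (G * o * F) * z * q := by ring

theorem alg17 (G z o F : O) : G * z * o * F = (G * o * F) * z * 1 := by ring

end alg

/-- the relation between `q` and `C q`. -/
theorem hq_eq {a : I → I → ℕ} {N : Finset I} (hs : ∀ i j, a i j = a j i) {h : ℕ} {R : I → I → ℕ}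
    (rR : ∀ x ∈ N, ∀ z ∈ N, 2 * R x z = (if z = x then h else 0) + ∑ y ∈ N, a x y * R y z)
    (q : I → ℚ) (z : I) (hz : z ∈ N) :
    (h : ℚ) * q z = ∑ x ∈ N, cqN a N q x * R x z := by
  have h1 : ∀ y ∈ N, ∑ x ∈ N, (cart a x y : ℚ) * R x z = if z = y then (h : ℚ) else 0 := by
    intro y hy
    have h2 : ∑ x ∈ N, (cart a x y : ℚ) * R x z = 2 * R y z - ∑ x ∈ N, (a y x : ℚ) * R x z := by
      have h3 : ∀ x ∈ N, (cart a x y : ℚ) * R x z =
          (if x = y then 2 * (R x z : ℚ) else 0) - (a y x : ℚ) * R x z := by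
        intro x _
        unfold cart
        rw [hs y x]
        by_cases hxy : x = y
        · rw [if_pos hxy, if_pos hxy]
          push_cast
          ring
        · rw [if_neg hxy, if_neg hxy]
          push_cast
          ring
      rw [Finset.sum_congr rfl h3, Finset.sum_sub_distrib, Finset.sum_ite_eq' N y, if_pos hy]
    have h4 : (2 : ℚ) * R y z = (if z = y then (h : ℚ) else 0) + ∑ x ∈ N, (a y x : ℚ) * R x z := by
      have h5 := congrArg (fun u : ℕ => (u : ℚ)) (rR y hy z hz)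
      push_cast at h5
      exact h5
    rw [h2, h4]
    ring
  have h6 : ∑ x ∈ N, cqN a N q x * R x z = ∑ y ∈ N, q y * ∑ x ∈ N, (cart a x y : ℚ) * R x z := by
    unfold cqN
    simp only [Finset.sum_mul, Finset.mul_sum]
    rw [Finset.sum_comm]
    refine Finset.sum_congr rfl (fun y _ => Finset.sum_congr rfl (fun x _ => ?_))
    ring
  rw [h6, Finset.sum_congr rfl (fun y hy => by rw [h1 y hy])]
  have h7 : ∀ y ∈ N, q y * (if z = y then (h : ℚ) else 0) = if z = y then (h : ℚ) * q y else 0 := by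
    intro y _
    by_cases hzy : z = y
    · rw [if_pos hzy, if_pos hzy, mul_comm]
    · rw [if_neg hzy, if_neg hzy, mul_zero]
  rw [Finset.sum_congr rfl h7, Finset.sum_ite_eq N z, if_pos hz]

section

variable {a : I → I → ℕ} {N : Finset I} (H : Hyp a N)

attribute [local irreducible] Qo Po insN outN So Jo colI Fo

include H in
/-- vanishing. -/
theorem rv_A {h : ℕ} {s M : ℕ}
    (hM : ∀ x ∈ N, ∀ l, s < l → l < s + h → So H s ^ M * Qo H x l ∈ Jo H (s + 1))
    (q : I → ℚ) (n : I → ℕ) (hn1 : ∀ x ∈ N, 1 ≤ n x) (hn : ∀ x ∈ N, cqN a N q x = n x)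
    (T : Trm I) (hT : RReg N T) (y : I) (hy : y ∈ N) (l : ℕ) (hl1 : s + 1 ≤ l)
    (hl2 : l + 1 ≤ s + h) (hE : 1 ≤ T.E (y, l)) : TV a (tauT a N s q T) = 0 := by
  classical
  refine TV_eq_zero_of_pow a H.s _ ⟨1, max (Fintype.card I + 1) M, le_rfl, fun p hp hpp _ => ?_⟩
  have hp1 : Fintype.card I < p := lt_of_lt_of_le (Nat.lt_succ_self _) ((le_max_left _ _).trans hp)
  have hp2 : M ≤ p := (le_max_right _ _).trans hp
  change TV a ((blkT a N s (s + 1) q T).pow p) = 0
  rw [TV_exp H s (s + 1) q T hT p hp1 n hn (fun i => ∑ x ∈ N, (a x i : ℚ) * q x)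
    (fun i _ => rfl)]
  refine Finset.sum_eq_zero (fun f hf => ?_)
  have hg := (Finset.mem_filter.mp hf).2
  obtain ⟨F', hF'⟩ := Fo_extract H T hT f hg p hp1 y hy l (by omega) hE
  obtain ⟨G, hG⟩ := ins_pow H p n hn1 s M hp2
  rw [hF', hG, alg16, kill_col H _ s (s + 1) M (mem_colI.mpr (hM y hy l (by omega) (by omega)))
    _ (wf_RFo H f), mul_zero]

include H in
/-- vanishing of short runs. -/
theorem cr0_A {k M : ℕ} (hM : So H k ^ M * 1 ∈ Jo H (k - 1))
    (q : I → ℚ) (n : I → ℕ) (hn1 : ∀ x ∈ N, 1 ≤ n x) (hn : ∀ x ∈ N, cqN a N q x = n x)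
    (T : Trm I) (hT : RReg N T) : TV a (upT a N k q T) = 0 := by
  classical
  refine TV_eq_zero_of_pow a H.s _ ⟨1, max (Fintype.card I + 1) M, le_rfl, fun p hp hpp _ => ?_⟩
  have hp1 : Fintype.card I < p := lt_of_lt_of_le (Nat.lt_succ_self _) ((le_max_left _ _).trans hp)
  have hp2 : M ≤ p := (le_max_right _ _).trans hp
  change TV a ((blkT a N k (k - 1) q T).pow p) = 0
  rw [TV_exp H k (k - 1) q T hT p hp1 n hn (fun i => ∑ x ∈ N, (a x i : ℚ) * q x)
    (fun i _ => rfl)]
  refine Finset.sum_eq_zero (fun f hf => ?_)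
  obtain ⟨G, hG⟩ := ins_pow H p n hn1 k M hp2
  rw [hG, alg17, kill_col H _ k (k - 1) M (mem_colI.mpr hM) _ (wf_RFo H f), mul_zero]

include H in
/-- crossing. -/
theorem cr_A {h b M : ℕ} {ε : I → ℤ} {R : I → I → ℕ} (D : RunD H h b M ε R)
    (q : I → ℚ) (n : I → ℕ) (hn1 : ∀ x ∈ N, 1 ≤ n x) (hn : ∀ x ∈ N, cqN a N q x = n x)
    (T : Trm I) (hT : RReg N T) :
    TV a (upT a N (b + h) q T) = ((∏ x ∈ N, ε x ^ n x : ℤ) : ℚ) * TV a (tauT a N b q T) := by
  classical
  refine TV_eq_of_pow a H.s _ _ _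
    ⟨1, max (Fintype.card I + 3) (M * (N.card + 2)), le_rfl, fun p hp hpp _ => ?_⟩
  have hp0 : Fintype.card I + 3 ≤ p := (le_max_left _ _).trans hp
  have hp1 : Fintype.card I < p := by omega
  have hp2 : M * (N.card + 2) ≤ p := (le_max_right _ _).trans hp
  change TV a ((blkT a N (b + h) (b + h - 1) q T).pow p) =
    _ * TV a ((blkT a N b (b + 1) q T).pow p)
  rw [TV_exp H (b + h) (b + h - 1) q T hT p hp1 n hn (fun i => ∑ x ∈ N, (a x i : ℚ) * q x)
    (fun i _ => rfl), TV_exp H b (b + 1) q T hT p hp1 n hn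
    (fun i => ∑ x ∈ N, (a x i : ℚ) * q x) (fun i _ => rfl), Finset.mul_sum]
  refine Finset.sum_congr rfl (fun f hf => ?_)
  -- the sign
  have hodd : Odd p := hpp.odd_of_ne_two (by omega)
  have hsg : (∏ x ∈ N, ε x ^ (p * n x) : ℤ) = ∏ x ∈ N, ε x ^ n x := by
    refine Finset.prod_congr rfl (fun x _ => ?_)
    rw [pow_mul]
    rcases D.sgn x with h1 | h1 <;> rw [h1]
    · rw [one_pow]
    · rw [hodd.neg_one_pow]
  have hqe : ∀ z ∈ N, (h : ℚ) * q z = ∑ x ∈ N, (n x : ℚ) * R x z := by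
    intro z hz
    rw [hq_eq H.s D.rR q z hz]
    exact Finset.sum_congr rfl (fun x hx => by rw [hn x hx])
  have hnz : ∀ z ∈ N, ((∑ x ∈ N, (p * n x) * R x z : ℕ) : ℚ) = (p : ℚ) * (h * q z) := by
    intro z hz
    rw [hqe z hz, Finset.mul_sum]
    push_cast
    exact Finset.sum_congr rfl (fun x _ => by ring)
  have key := cross_exact H D (e := fun x => p * n x) (n := fun z => ∑ x ∈ N, (p * n x) * R x z)
    (p := fun i => (p : ℚ) * ∑ x ∈ N, (a x i : ℚ) * q x)
    (fun x hx => hp2.trans (Nat.le_mul_of_pos_right p (hn1 x hx)))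
    (fun z _ => rfl)
    (fun i _ => by
      rw [Finset.mul_sum, Finset.mul_sum]
      refine Finset.sum_congr rfl (fun z hz => ?_)
      rw [hnz z hz]
      ring)
    (fun i => (p : ℚ) * (T.γ i + b * resQ N q i)) (Fo a N f ((p : ℚ) • T.E)) (wf_RFo H f)
  have hγ : (fun i => (p : ℚ) * (T.γ i + ((b + h : ℕ) : ℚ) * resQ N q i)) =
      fun i => (p : ℚ) * (T.γ i + b * resQ N q i) +
        if i ∈ N then ((∑ x ∈ N, (p * n x) * R x i : ℕ) : ℚ) else 0 := by
    funext i
    by_cases hi : i ∈ N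
    · rw [if_pos hi, hnz i hi]
      unfold resQ
      rw [if_pos hi]
      push_cast
      ring
    · rw [if_neg hi]
      unfold resQ
      rw [if_neg hi]
      ring
  rw [hγ]
  rw [key, hsg]
  ring

end

end Pool.Agent.H10.KAC

end

section

/-!
KAC ADE, module AN2: the structure `RTnum` (consequences of the response theorem for the numbers `cn`).

Write `c g = cn a cd A q g`, `p = invS c` (the inverse power series), `τ_s(T) = TV a (tauT a A s q T)`, `m = cd.mm A`, `q` with `QOk`.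

`dual`: `Rv_n(T) = ∑_{j ≤ n} p_j τ_{n-j}(T)` for `n ≥ 1`: insert `τ_s = c(s) τ_0 + ∑_{l=1..s} c(s-l) Rv_l` (`TauFam_all`, `Resp.val`).
`annih`: for a family `Resp a cd A q K w Φ`, `m ≤ K`: evaluate at `T = tT1 a m v` at the frontier `m`.  By the kink rule the value is
`w m * τ_m`; by `Resp.val` and `dual` it is `∑_{s ≤ m} τ_s ∑_{l=s..m} w l p_{l-s} = w m * τ_m + ∑_{l ≤ m} w l p_l` (`taus_T1`, `tau0_T1`).
So `∑_{l ≤ m} p_l w l = 0`.
`p_deg`: `annih` for `TauFam_all` with `L = m + g`, `g ≥ 1`: `∑_{l ≤ m} p_l c(m+g-l) = 0`; compare with `∑_{l ≤ m+g} p_l c(m+g-l) = 0`,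
induction on `g`: `p_{m+g} = 0`.
`p_top`: `Rv_m(tT1) = τ_m + p_m` (`dual`), `Rv_m = τ_m - PPv_m`, `PPv_m = (-1)^|A| upT_m = (-1)^|A| eps τ_0` (`TV_step_split`,
`PPv_kink`, `cd.cr`).
`rtnum`: for general `q` in the weight lattice choose `q'` congruent to `q` modulo `ℤ` with `QOk` (`exists_int_vec`), `cn_congr`,
`eps_congr`.  The last clause: `RPT` with `K = m`, `u s l = α s + κ s * l`, blocks `N`: the family of `TauFam_all` for the level `L N`,
restricted to the frontiers `≤ m` (`Resp.mono`) if `m ≤ L N`, continued by `Resp.const` if `L N < m ≤ L N + mm N - 1`; then `annih`.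
-/

set_option autoImplicit false

namespace Pool.Agent.H27.KAC

open scoped BigOperators

/-- the inverse power series, as a sequence. -/
noncomputable def invS (c : ℕ → ℚ) : ℕ → ℚ := fun n =>
  PowerSeries.coeff n (PowerSeries.mk c)⁻¹

private theorem AN2_mk_ne (c : ℕ → ℚ) (h : c 0 = 1) :
    PowerSeries.constantCoeff (PowerSeries.mk c) ≠ 0 := by
  rw [← PowerSeries.coeff_zero_eq_constantCoeff_apply, PowerSeries.coeff_mk, h]
  exact one_ne_zero

theorem invS_zero (c : ℕ → ℚ) (h : c 0 = 1) : invS c 0 = 1 := by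
  unfold invS
  rw [PowerSeries.coeff_zero_eq_constantCoeff_apply, PowerSeries.constantCoeff_inv,
    ← PowerSeries.coeff_zero_eq_constantCoeff_apply, PowerSeries.coeff_mk, h, inv_one]

theorem invS_conv (c : ℕ → ℚ) (h : c 0 = 1) (n : ℕ) (hn : 1 ≤ n) :
    ∑ i ∈ Finset.range (n + 1), invS c i * c (n - i) = 0 := by
  have h1 : (PowerSeries.mk c)⁻¹ * PowerSeries.mk c = 1 :=
    PowerSeries.inv_mul_cancel _ (AN2_mk_ne c h)
  have h2 := congrArg (PowerSeries.coeff n) h1
  rw [PowerSeries.coeff_mul, PowerSeries.coeff_one, if_neg (by omega),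
    Finset.Nat.sum_antidiagonal_eq_sum_range_succ
      (fun i j => PowerSeries.coeff i (PowerSeries.mk c)⁻¹ * PowerSeries.coeff j (PowerSeries.mk c)) n]
    at h2
  rw [← h2]
  refine Finset.sum_congr rfl fun i _ => ?_
  rw [PowerSeries.coeff_mk]
  rfl

private theorem AN2_isZ_add {x y : ℚ} (hx : IsZ x) (hy : IsZ y) : IsZ (x + y) := by
  obtain ⟨m, hm⟩ := hx
  obtain ⟨n, hn⟩ := hy
  exact ⟨m + n, by rw [hm, hn]; push_cast; rfl⟩

private theorem AN2_isZ_mul {x y : ℚ} (hx : IsZ x) (hy : IsZ y) : IsZ (x * y) := by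
  obtain ⟨m, hm⟩ := hx
  obtain ⟨n, hn⟩ := hy
  exact ⟨m * n, by rw [hm, hn]; push_cast; rfl⟩

private theorem AN2_isZ_neg {x : ℚ} (hx : IsZ x) : IsZ (-x) := by
  obtain ⟨m, hm⟩ := hx
  exact ⟨-m, by rw [hm]; push_cast; rfl⟩

private theorem AN2_isZ_sum {ι : Type} (s : Finset ι) (f : ι → ℚ) (h : ∀ i ∈ s, IsZ (f i)) :
    IsZ (∑ i ∈ s, f i) := by
  classical
  induction s using Finset.induction_on with
  | empty => exact ⟨0, by rw [Finset.sum_empty, Int.cast_zero]⟩
  | insert i s hi ih =>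
    rw [Finset.sum_insert hi]
    exact AN2_isZ_add (h i (Finset.mem_insert_self i s))
      (ih (fun j hj => h j (Finset.mem_insert_of_mem hj)))

theorem invS_int (c : ℕ → ℚ) (h : c 0 = 1) (hc : ∀ n, IsZ (c n)) (n : ℕ) : IsZ (invS c n) := by
  induction n using Nat.strong_induction_on with
  | _ n ih =>
    rcases Nat.eq_zero_or_pos n with h0 | hpos
    · rw [h0, invS_zero c h]
      exact ⟨1, by rw [Int.cast_one]⟩
    · have h1 := invS_conv c h n hpos
      rw [Finset.sum_range_succ, Nat.sub_self, h, mul_one] at h1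
      have h2 : invS c n = -∑ i ∈ Finset.range n, invS c i * c (n - i) := by linarith
      rw [h2]
      apply AN2_isZ_neg
      apply AN2_isZ_sum
      intro i hi
      exact AN2_isZ_mul (ih i (Finset.mem_range.mp hi)) (hc _)

/-- inversion of a convolution. -/
private theorem AN2_inv (c τ R : ℕ → ℚ) (h : c 0 = 1)
    (hτ : ∀ s, τ s = ∑ l ∈ Finset.range (s + 1), R l * c (s - l)) (n : ℕ) :
    R n = ∑ j ∈ Finset.range (n + 1), invS c j * τ (n - j) := by
  have h1 : PowerSeries.mk τ = PowerSeries.mk R * PowerSeries.mk c := by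
    ext s
    rw [PowerSeries.coeff_mk, PowerSeries.coeff_mul, hτ,
      Finset.Nat.sum_antidiagonal_eq_sum_range_succ
        (fun i j => PowerSeries.coeff i (PowerSeries.mk R) * PowerSeries.coeff j (PowerSeries.mk c)) s]
    refine Finset.sum_congr rfl fun i _ => ?_
    rw [PowerSeries.coeff_mk, PowerSeries.coeff_mk]
  have h2 : PowerSeries.mk R = (PowerSeries.mk c)⁻¹ * PowerSeries.mk τ := by
    rw [h1, mul_comm (PowerSeries.mk R), ← mul_assoc,
      PowerSeries.inv_mul_cancel _ (AN2_mk_ne c h), one_mul]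
  have h3 := congrArg (PowerSeries.coeff n) h2
  rw [PowerSeries.coeff_mk, PowerSeries.coeff_mul,
    Finset.Nat.sum_antidiagonal_eq_sum_range_succ
      (fun i j => PowerSeries.coeff i (PowerSeries.mk c)⁻¹ * PowerSeries.coeff j (PowerSeries.mk τ)) n]
    at h3
  rw [h3]
  refine Finset.sum_congr rfl fun i _ => ?_
  rw [PowerSeries.coeff_mk]
  rfl

section

variable {I : Type} [Fintype I] [DecidableEq I]

theorem Resp.mono {a : I → I → ℕ} {cd : CrossData a} {B : Finset I} {q : I → ℚ} {K K' : ℕ}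
    {w : ℕ → ℚ} {Φ : ℕ → FFn I} (h : Resp a cd B q K w Φ) (hK : K' ≤ K) :
    Resp a cd B q K' w Φ :=
  ⟨fun f hf => h.win f (hf.trans hK), h.a0, fun f hf1 hf => h.stp f hf1 (hf.trans hK),
    fun f hf1 hf => h.knk f hf1 (hf.trans hK)⟩

/-- a representative of the class with `QOk`. -/
theorem exists_QOk_rep (a : I → I → ℕ) (hs : ∀ i j, a i j = a j i) (A : Finset I)
    (hA : FinT a A) (q : I → ℚ) (hq : WtL a A q) :
    ∃ q' : I → ℚ, QOk a A q' ∧ ∀ x, IsZ (q x - q' x) := by
  classical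
  have hq' : ∀ x, ∃ n : ℤ, x ∈ A → cqN a A q x = n := by
    intro x
    by_cases hx : x ∈ A
    · obtain ⟨n, hn⟩ := hq x hx
      exact ⟨n, fun _ => hn⟩
    · exact ⟨0, fun h => absurd h hx⟩
  choose n hn using hq'
  obtain ⟨v, _, hv1⟩ := exists_int_vec a hs A hA (1 + ∑ x ∈ A, |n x|)
  refine ⟨fun x => q x + v x, ?_, ?_⟩
  · intro x hx
    have h1 : cqN a A (fun x => q x + (v x : ℚ)) x =
        ((n x + ∑ j ∈ A, cart a x j * v j : ℤ) : ℚ) := by
      rw [Int.cast_add, ← hn x hx]
      unfold cqN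
      rw [Int.cast_sum, ← Finset.sum_add_distrib]
      refine Finset.sum_congr rfl fun j _ => ?_
      push_cast
      ring
    have h2 := hv1 x hx
    have h3 : |n x| ≤ ∑ x ∈ A, |n x| :=
      Finset.single_le_sum (f := fun x => |n x|) (fun i _ => abs_nonneg (n i)) hx
    have h4 := neg_abs_le (n x)
    refine ⟨(n x + ∑ j ∈ A, cart a x j * v j).toNat, ?_, ?_⟩
    · have : 1 ≤ n x + ∑ j ∈ A, cart a x j * v j := by linarith
      omega
    · rw [h1]
      have h5 : (((n x + ∑ j ∈ A, cart a x j * v j).toNat : ℕ) : ℤ) =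
          n x + ∑ j ∈ A, cart a x j * v j := Int.toNat_of_nonneg (by linarith)
      exact_mod_cast h5.symm
  · intro x
    refine ⟨-v x, ?_⟩
    show q x - (q x + (v x : ℚ)) = ((-v x : ℤ) : ℚ)
    push_cast
    ring

theorem dual (a : I → I → ℕ) (hs : ∀ i j, a i j = a j i) (cd : CrossData a) (A : Finset I)
    (hA : FinT a A) (hc : ConnS a A) (q : I → ℚ) (hq : QOk a A q) (T : Trm I) (hT : RReg A T)
    (n : ℕ) (hn : 1 ≤ n) : Rv a A n q T =
      ∑ j ∈ Finset.range (n + 1), invS (cn a cd A q) j * TV a (tauT a A (n - j) q T) := by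
  have h1 := AN2_inv (cn a cd A q) (fun s => TV a (tauT a A s q T))
    (fun l => if l = 0 then TV a (tauT a A 0 q T) else Rv a A l q T) (cn_zero a cd A q) ?_ n
  · rw [if_neg (by omega)] at h1
    exact h1
  · intro s
    obtain ⟨Φ, hΦ, hΦs⟩ := TauFam_all a hs cd A hA hc q hq s
    have h2 := Resp.val hΦ s le_rfl T hT
    have h3 : evF a A (Φ s) T = TV a (tauT a A s q T) := by
      rw [hΦs, tauT_eq_patT]
      unfold evF
      rw [List.map_cons, List.map_nil, List.sum_cons, List.sum_nil, add_zero, one_mul]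
    rw [h3] at h2
    show TV a (tauT a A s q T) = _
    rw [h2, Finset.sum_range_succ', Nat.sub_zero, if_pos rfl, add_comm]
    congr 1
    · have h4 : Finset.Icc 1 s = Finset.Ico 1 (s + 1) := by
        ext x
        rw [Finset.mem_Icc, Finset.mem_Ico]
        omega
      rw [h4, Finset.sum_Ico_eq_sum_range, Nat.add_sub_cancel]
      refine Finset.sum_congr rfl fun l _ => ?_
      rw [if_neg (by omega), add_comm 1 l, mul_comm]
    · rw [mul_comm]

/-- the restart parts of the kinked test term. -/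
private theorem AN2_Rv_T1 (a : I → I → ℕ) (hs : ∀ i j, a i j = a j i) (cd : CrossData a)
    (A : Finset I) (hA : FinT a A) (hc : ConnS a A) (q : I → ℚ) (hq : QOk a A q) (v : I → ℤ)
    (hv : ∀ i, i ∉ A → v i = 0) (hv1 : ∀ x ∈ A, 1 ≤ ∑ j ∈ A, cart a x j * v j) :
    (∀ l, 1 ≤ l → l < cd.mm A → Rv a A l q (tT1 a (cd.mm A) v) = invS (cn a cd A q) l) ∧
    Rv a A (cd.mm A) q (tT1 a (cd.mm A) v) =
      TV a (tauT a A (cd.mm A) q (tT1 a (cd.mm A) v)) + invS (cn a cd A q) (cd.mm A) := by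
  have h2m := cd.two_le A
  obtain ⟨hR1, _⟩ := RReg_T1 a hs A (cd.mm A) v hv hv1
  constructor
  · intro l hl1 hl2
    rw [dual a hs cd A hA hc q hq _ hR1 l hl1, Finset.sum_range_succ, Nat.sub_self,
      tau0_T1 a hs cd A hA hc q hq v hv hv1, mul_one, Finset.sum_eq_zero, zero_add]
    intro j hj
    rw [Finset.mem_range] at hj
    rw [taus_T1 a hs cd A hA hc q hq v hv hv1 (l - j) (by omega) (by omega), mul_zero]
  · rw [dual a hs cd A hA hc q hq _ hR1 (cd.mm A) (by omega), Finset.sum_range_succ, Nat.sub_self,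
      tau0_T1 a hs cd A hA hc q hq v hv hv1, mul_one]
    congr 1
    obtain ⟨m, hm⟩ : ∃ m, cd.mm A = m + 1 := ⟨cd.mm A - 1, by omega⟩
    have h1 : ∑ j ∈ Finset.range (cd.mm A),
        invS (cn a cd A q) j * TV a (tauT a A (cd.mm A - j) q (tT1 a (cd.mm A) v)) =
        invS (cn a cd A q) 0 * TV a (tauT a A (cd.mm A - 0) q (tT1 a (cd.mm A) v)) := by
      apply Finset.sum_eq_single_of_mem 0 (Finset.mem_range.mpr (by omega))
      intro j hj hj0
      rw [Finset.mem_range] at hj
      rw [taus_T1 a hs cd A hA hc q hq v hv hv1 (cd.mm A - j) (by omega) (by omega), mul_zero]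
    rw [h1, invS_zero _ (cn_zero a cd A q), one_mul, Nat.sub_zero]

theorem annih (a : I → I → ℕ) (hs : ∀ i j, a i j = a j i) (cd : CrossData a) (A : Finset I)
    (hA : FinT a A) (hc : ConnS a A) (q : I → ℚ) (hq : QOk a A q) (K : ℕ) (hK : cd.mm A ≤ K)
    (w : ℕ → ℚ) (Φ : ℕ → FFn I) (h : Resp a cd A q K w Φ) :
    ∑ l ∈ Finset.range (cd.mm A + 1), invS (cn a cd A q) l * w l = 0 := by
  obtain ⟨v, hv, hv1⟩ := exists_int_vec a hs A hA 1
  have h2m := cd.two_le A
  obtain ⟨hR1, hk1⟩ := RReg_T1 a hs A (cd.mm A) v hv hv1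
  have hkn := h.knk (cd.mm A) (by omega) hK _ hR1 (hk1 hc.1)
  have hval := h.val (cd.mm A) hK _ hR1
  rw [tau0_T1 a hs cd A hA hc q hq v hv hv1, mul_one] at hval
  obtain ⟨m, hm⟩ : ∃ m, cd.mm A = m + 2 := ⟨cd.mm A - 2, by omega⟩
  have hRl := AN2_Rv_T1 a hs cd A hA hc q hq v hv hv1
  obtain ⟨hRl1, hRm⟩ := hRl
  have h4 : Finset.Icc 1 (cd.mm A) = Finset.Ico 1 (cd.mm A + 1) := by
    ext x
    rw [Finset.mem_Icc, Finset.mem_Ico]
    omega
  rw [h4, Finset.sum_Ico_succ_top (by omega), hRm] at hval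
  have h5 : ∑ l ∈ Finset.Ico 1 (cd.mm A), w l * Rv a A l q (tT1 a (cd.mm A) v) =
      ∑ l ∈ Finset.Ico 1 (cd.mm A), invS (cn a cd A q) l * w l := by
    refine Finset.sum_congr rfl fun l hl => ?_
    rw [Finset.mem_Ico] at hl
    rw [hRl1 l hl.1 hl.2, mul_comm]
  rw [h5, hkn] at hval
  rw [Finset.range_eq_Ico, Finset.sum_Ico_succ_top (by omega),
    Finset.sum_eq_sum_Ico_succ_bot (by omega : 0 < cd.mm A), invS_zero _ (cn_zero a cd A q), one_mul,
    zero_add]
  linarith

theorem p_deg (a : I → I → ℕ) (hs : ∀ i j, a i j = a j i) (cd : CrossData a) (A : Finset I)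
    (hA : FinT a A) (hc : ConnS a A) (q : I → ℚ) (hq : QOk a A q) (i : ℕ) (hi : cd.mm A < i) :
    invS (cn a cd A q) i = 0 := by
  induction i using Nat.strong_induction_on with
  | _ i ih =>
    obtain ⟨Φ, hΦ, _⟩ := TauFam_all a hs cd A hA hc q hq i
    have h1 := annih a hs cd A hA hc q hq i hi.le _ Φ hΦ
    have h2 := invS_conv (cn a cd A q) (cn_zero a cd A q) i (by omega)
    rw [Finset.range_eq_Ico] at h1 h2
    rw [← Finset.sum_Ico_consecutive _ (Nat.zero_le (cd.mm A + 1))
      (by omega : cd.mm A + 1 ≤ i + 1), h1, zero_add,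
      Finset.sum_Ico_succ_top (by omega), Nat.sub_self, cn_zero, mul_one,
      Finset.sum_eq_zero, zero_add] at h2
    · exact h2
    · intro j hj
      rw [Finset.mem_Ico] at hj
      rw [ih j hj.2 (by omega), zero_mul]

theorem p_top (a : I → I → ℕ) (hs : ∀ i j, a i j = a j i) (cd : CrossData a) (A : Finset I)
    (hA : FinT a A) (hc : ConnS a A) (q : I → ℚ) (hq : QOk a A q) :
    invS (cn a cd A q) (cd.mm A) = -((-1) ^ A.card * cd.eps A q) := by
  obtain ⟨v, hv, hv1⟩ := exists_int_vec a hs A hA 1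
  have h2m := cd.two_le A
  obtain ⟨hR1, hk1⟩ := RReg_T1 a hs A (cd.mm A) v hv hv1
  obtain ⟨_, hRm⟩ := AN2_Rv_T1 a hs cd A hA hc q hq v hv hv1
  have h1 := TV_step_split a hs A hA (cd.mm A) (by omega) q hq _ hR1
  have h2 := PPv_kink a hs A hA hc (cd.mm A) (by omega) q hq _ hR1 (hk1 hc.1)
  have h3 := cd.cr A hA hc (cd.mm A) q hq _ hR1 le_rfl
  rw [Nat.sub_self, tau0_T1 a hs cd A hA hc q hq v hv hv1, mul_one] at h3
  rw [h3] at h2
  rw [hRm, h2] at h1
  linarith

/-- the families of the blocks. -/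
private theorem AN2_fam (a : I → I → ℕ) (hs : ∀ i j, a i j = a j i) (cd : CrossData a)
    (N : Finset I) (hN : FinT a N) (hc : ConnS a N) (q : I → ℚ) (hq : QOk a N q) (K L : ℕ)
    (hL : K + 1 ≤ L + cd.mm N) :
    ∃ Φ : ℕ → FFn I, Resp a cd N q K (fun l => cnS a cd N q L l) Φ := by
  obtain ⟨Φ, hΦ, hΦL⟩ := TauFam_all a hs cd N hN hc q hq L
  by_cases h : K ≤ L
  · refine ⟨Φ, Resp.congr_w (hΦ.mono h) ?_⟩
    intro l hl
    unfold cnS
    rw [if_pos (hl.trans h)]
  · refine ⟨fun f => Φ (min f L), Resp.congr_w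
      (Resp.const a hs cd N q hq hN hc L K (by omega) hL _ Φ hΦ hΦL) ?_⟩
    intro l _
    unfold cnS
    rfl

theorem rtnum (a : I → I → ℕ) (hs : ∀ i j, a i j = a j i) (cd : CrossData a) : RTnum a cd := by
  constructor
  · intro A q g hA hc hq
    obtain ⟨q', hq', hqq⟩ := exists_QOk_rep a hs A hA q hq
    rw [cn_congr a cd A q q' (fun x _ => hqq x) g, ← tau_T0 a hs cd A hA hc q' hq' g]
    exact tau_T0_int a hs A hA q' hq' g
  · intro A q hA hc hq
    obtain ⟨q', hq', hqq⟩ := exists_QOk_rep a hs A hA q hq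
    have hcn : ∀ N ⊆ A, ∀ g, cn a cd N q g = cn a cd N q' g :=
      fun N _ g => cn_congr a cd N q q' (fun x _ => hqq x) g
    have hint : ∀ g, IsZ (cn a cd A q' g) := by
      intro g
      rw [← tau_T0 a hs cd A hA hc q' hq' g]
      exact tau_T0_int a hs A hA q' hq' g
    refine ⟨invS (cn a cd A q'), invS_zero _ (cn_zero a cd A q'),
      invS_int _ (cn_zero a cd A q') hint, p_deg a hs cd A hA hc q' hq', ?_, ?_, ?_⟩
    · rw [p_top a hs cd A hA hc q' hq', cd.eps_congr A q q' (fun x _ => hqq x)]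
    · intro n hn
      rw [← invS_conv (cn a cd A q') (cn_zero a cd A q') n hn]
      refine Finset.sum_congr rfl fun i _ => ?_
      rw [hcn A (Finset.Subset.refl A)]
    · intro M hM hne hMz α κ Lf hLf
      have hMz' : ∀ x ∈ M, IsZ (q' x) := by
        intro x hx
        have h1 := AN2_isZ_add (hMz x hx) (AN2_isZ_neg (hqq x))
        have h2 : q x + -(q x - q' x) = q' x := by ring
        rwa [h2] at h1
      obtain ⟨L, hL1, _, hL3, hL4, hL5⟩ := exists_RB_list a hs (A \ M)
        (fun N w Φ => w = (fun l => cnS a cd N q' (Lf N) l) ∧ Resp a cd N q' (cd.mm A) w Φ)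
        (by
          intro N hN
          have hNA : N ⊆ A := (comps_subset hN).trans Finset.sdiff_subset
          have hNfin : FinT a N := hA.mono hNA
          have hNq : QOk a N q' := by
            apply QOk_sub hs hA hq' N hNA
            intro y hy x hx hxN
            by_cases hxM : x ∈ M
            · right
              exact hMz' x hxM
            · left
              exact comps_sep hN y hy x (Finset.mem_sdiff.mpr ⟨hx, hxM⟩) hxN
          obtain ⟨Φ, hΦ⟩ := AN2_fam a hs cd N hNfin (comps_conn hN) q' hNq (cd.mm A) (Lf N)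
            (hLf N hN)
          exact ⟨_, Φ, rfl, hΦ⟩)
      obtain ⟨Φ, hΦ, _⟩ := RPT a hs cd (cd.mm A) q' (fun s l => α s + κ s * (l : ℚ)) A hA hc hq' M
        hM hne hMz' (fun x _ => ⟨α x, κ x, fun l => rfl⟩) L hL4 hL3
        (fun b hb => comps_conn (hL1 b hb).1) (fun b hb => (hL1 b hb).2.2)
      have h1 := annih a hs cd A hA hc q' hq' (cd.mm A) le_rfl _ Φ hΦ
      rw [← h1]
      refine Finset.sum_congr rfl fun i _ => ?_
      rw [mul_assoc]
      congr 2
      have h2 : (L.map (fun b => b.w i)).prod =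
          (L.map (fun b => (fun N => cnS a cd N q' (Lf N) i) b.B)).prod := by
        congr 1
        apply List.map_congr_left
        intro b hb
        rw [(hL1 b hb).2.1]
      rw [h2, hL5 (fun N => cnS a cd N q' (Lf N) i)]
      refine Finset.prod_congr rfl fun N hN => ?_
      unfold cnS
      rw [hcn N ((comps_subset hN).trans Finset.sdiff_subset)]

end

end Pool.Agent.H27.KAC

end

section

/-!
KAC ADE, module AH30: the instances `CN`, `ClusterVal`, and the statement `AllCal`.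
-/

set_option autoImplicit false

namespace Pool.Agent.H46.AH

open scoped BigOperators
open Pool.Agent.H27.KAC Pool.Agent.H40.KADE

section

variable {I : Type} [Fintype I] [DecidableEq I]

open Classical in
/-- a selection of functionals. -/
noncomputable def famOf (a : I → I → ℕ) (cd : CrossData a) (N : Finset I) (q : I → ℚ)
    (w : ℕ → ℚ) (f : ℕ) : FFn I :=
  if h : ∃ Φ : FFn I, IsRF a cd N q w f Φ then h.choose else []

theorem isFam_famOf (a : I → I → ℕ) (cd : CrossData a) : IsFam a cd (famOf a cd) := by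
  intro N q w f h
  unfold famOf
  rw [dif_pos h]
  exact h.choose_spec

theorem IsRF_zero (a : I → I → ℕ) (hs : ∀ i j, a i j = a j i) (cd : CrossData a) (N : Finset I)
    (hN : FinT a N) (q : I → ℚ) (hq : ∀ x ∈ N, IsZ (cqN a N q x)) (w : ℕ → ℚ) (Φ : FFn I)
    (h : IsRF a cd N q w 0 Φ) (T : Trm I) (hT : RReg N T) :
    evF a N Φ T = w 0 * TV a (T.cols N (fun x => sy x 1)) := by
  rw [h.val (rp a N q) (rp_spec a hs N hN q hq) T hT]
  unfold RFv
  rw [Finset.Icc_eq_empty (by omega), Finset.sum_empty, add_zero, TV_tauT_zero]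

theorem fam_bot (a : I → I → ℕ) (hs : ∀ i j, a i j = a j i) (cd : CrossData a)
    (h : RTfam a cd) (fam : Finset I → (I → ℚ) → (ℕ → ℚ) → ℕ → FFn I) (hfam : IsFam a cd fam)
    (γ P p : I → ℚ) (W : Finset I) (q : I → ℚ) (w : Finset I → ℕ → ℚ)
    (hG : GS a (fun N q g => cn a cd N q g) 1 γ P p W q w) (B : Finset I) (hB : B ∈ comps a W)
    (T : Trm I) (hT : RReg B T) :
    evF a B (fam B q (w B) 0) T = w B 0 * TV a (T.cols B (fun x => sy x 1)) := by
  have hW : FinT a W := FT_FinT a hs hG.ft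
  have hBf : FinT a B := hW.mono (comps_subset hB)
  have hqZ : ∀ x ∈ B, IsZ (cqN a B q x) := by
    intro x hx
    rw [cqN_comp a W B hB q x hx]
    obtain ⟨z, hz⟩ := hG.int x
    rw [hG.P0 x (comps_subset hB hx), hG.p0 x (comps_subset hB hx), cv_eq_cqN a W q hG.q0] at hz
    exact ⟨-z, by push_cast; linarith⟩
  have hadm := hG.adm B (by rw [clusters_eq_comps a hs]; exact hB)
  have hex := RFex_of_Adm a hs cd h B hBf (comps_conn hB) γ q hqZ (w B) 0 hadm
  exact IsRF_zero a hs cd B hBf q hqZ (w B) _ (hfam B q (w B) 0 (hex 0 le_rfl)) T hT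

theorem fam_top (a : I → I → ℕ) (hs : ∀ i j, a i j = a j i) (cd : CrossData a)
    (h : RTfam a cd) (fam : Finset I → (I → ℚ) → (ℕ → ℚ) → ℕ → FFn I) (hfam : IsFam a cd fam)
    (B : Finset I) (hB : FinT a B) (hc : ConnS a B) (K : ℕ) (T : Trm I) (hT : RReg B T) :
    evF a B (fam B (fun _ => 0) (fun _ => 1) K) T =
      TV a (T.cols B (fun x => sy x (K + 1) - sy x K)) := by
  have hqZ : ∀ x ∈ B, IsZ (cqN a B (fun _ => (0 : ℚ)) x) := by
    intro x _
    refine ⟨0, ?_⟩
    unfold cqN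
    rw [Finset.sum_eq_zero fun j _ => mul_zero _]
    push_cast
    rfl
  by_cases hK : 1 ≤ K
  · obtain ⟨Φ, hΦ, hv⟩ := h.top B hB hc K hK
    rw [(hfam B (fun _ => 0) (fun _ => 1) K ⟨Φ, hΦ⟩).unique hs hB hqZ hΦ T hT]
    exact hv T hT
  · have hK0 : K = 0 := by omega
    subst hK0
    rw [IsRF_zero a hs cd B hB (fun _ => 0) hqZ (fun _ => 1) _
      (hfam B (fun _ => 0) (fun _ => 1) 0 (h.top0 B hB hc 0)) T hT, one_mul]
    apply TV_lev0
    · rfl
    · intro i k _
      rfl
    · intro j i k hk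
      show (if j ∈ B then (sy j 1 : QE I) else T.Λ j) (i, k) =
        (if j ∈ B then (sy j (0 + 1) : QE I) - sy j 0 else T.Λ j) (i, k)
      by_cases hj : j ∈ B
      · rw [if_pos hj, if_pos hj, Finsupp.sub_apply, Finsupp.single_apply (a := (j, 0)), if_neg,
          sub_zero]
        intro h'
        have := (Prod.mk.inj h').2
        omega
      · rw [if_neg hj, if_neg hj]

/-- the interface of the engine. -/
theorem clusterVal_of (a : I → I → ℕ) (hs : ∀ i j, a i j = a j i) (cd : CrossData a)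
    (h : RTfam a cd) :
    ClusterVal a (fun N q g => cn a cd N q g) (GG a (famOf a cd)) where
  step := fun k γ P p H W q w hk hG hP hp hH =>
    GG_step a hs cd h (famOf a cd) (isFam_famOf a cd) k γ P p H W q w hk hG hP hp hH
  create := fun k γ P p H W q w hk hG hP hp hH hF hX =>
    GG_create a hs cd h (famOf a cd) (isFam_famOf a cd) k γ P p H W q w hk hG hP hp hH hF hX
  vanNeg := fun k γ P p M N W q w l hk hG hp hl hll hPl hpl =>
    GG_vanNeg a hs cd h (famOf a cd) (isFam_famOf a cd) k γ P p M N W q w l hk hG hp hl hll hPl hpl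
  norm := fun k γ P p M N H W q w hN => GG_norm a (famOf a cd) k γ P p M N H W q w hN
  poly := fun k γ P p H W q w => GG_poly a (famOf a cd) k γ P p H W q w
  bot := fun γ P p M N W q w hG => by
    refine GG_bot a hs (famOf a cd) γ P p M N W q w hG.P0 hG.p0 (fun i => ?_)
      (fun B hB T hT => fam_bot a hs cd h (famOf a cd) (isFam_famOf a cd) γ P p W q w hG B hB T hT)
    have := hG.cons i
    push_cast at this
    linarith
  top := fun α K μ ε hF hμ =>
    GG_top a hs (famOf a cd) α K μ ε hμ (fun B hB T hT =>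
      fam_top a hs cd h (famOf a cd) (isFam_famOf a cd) B
        ((FT_FinT a hs hF).mono (comps_subset hB)) (comps_conn hB) K T hT)

theorem CN_of (a : I → I → ℕ) (hs : ∀ i j, a i j = a j i) (cd : CrossData a)
    (hn : ∀ (N : Finset I) (q : I → ℚ) (g : ℕ), FTC a N q → 0 ≤ cn a cd N q g) :
    CN a (fun N q g => cn a cd N q g) where
  congr := fun N q q' g hq => cn_congrZ a cd N q q' g (fun x hx => ⟨0, by
    rw [hq x hx]; push_cast; ring⟩)
  nonneg := hn
  int := fun N q g hF hne => by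
    obtain ⟨h1, h2, h3⟩ := (FTC_iff a hs N q).1 hF
    exact cn_wint a hs cd N h1 h2 q h3 g hne

end

/-- The remaining input: crossing data with nonnegative response numbers. -/
theorem allCal_of (H : ∀ (I : Type) [Fintype I] [DecidableEq I] (a : I → I → ℕ),
    (∀ i j, a i j = a j i) → (∀ i, a i i ≠ 1) → ∃ cd : CrossData a,
      ∀ (N : Finset I) (q : I → ℚ) (g : ℕ), FTC a N q → 0 ≤ cn a cd N q g) : AllCal := by
  intro I _ _ a hs hd
  obtain ⟨cd, h2⟩ := H I a hs hd
  exact ⟨_, _, CN_of a hs cd h2, clusterVal_of a hs cd (rtfam_of a hs cd)⟩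

end Pool.Agent.H46.AH

end

section

/-!
Run lemma, module 17: the crossing data.
-/

set_option autoImplicit false
set_option maxHeartbeats 400000

namespace Pool.Agent.H10.KAC

open scoped BigOperators
open Pool.Agent.H46.KA Pool.Agent.H27.KAC

variable {I : Type} [Fintype I] [DecidableEq I]

theorem hyp_of {a : I → I → ℕ} (hs : ∀ i j, a i j = a j i) {A : Finset I} (hF : FinT a A) :
    Hyp a A := ⟨hs, hF.loopfree⟩

/-- positive definiteness on the subtype. -/
theorem pd_of {a : I → I → ℕ} {A : Finset I} (hF : FinT a A) :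
    Pool.H88.KA.PD (aN a A) := by
  intro v hv
  set V : I → ℚ := fun i => if hi : i ∈ A then ((v ⟨i, hi⟩ : ℤ) : ℚ) else 0 with hV
  have hVs : ∀ x : {x // x ∈ A}, V x.1 = v x := by
    intro x
    rw [hV]
    simp only [dif_pos x.2]
  have hne : ∃ i ∈ A, V i ≠ 0 := by
    by_contra hcon
    push Not at hcon
    apply hv
    funext x
    have h1 := hcon x.1 x.2
    rw [hVs x] at h1
    exact_mod_cast h1
  have h1 := hF.pos V hne
  have h2 : ∀ x : {x // x ∈ A}, cqN a A V x.1 = ((Pool.H88.KA.cZ (aN a A) v x : ℤ) : ℚ) := by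
    intro x
    unfold cqN Pool.H88.KA.cZ
    rw [← Finset.sum_coe_sort A (fun j => (cart a x.1 j : ℚ) * V j)]
    have h3 : ∀ y : {x // x ∈ A}, (cart a x.1 y.1 : ℚ) * V y.1 =
        (if x = y then 2 * (v y : ℚ) else 0) - (a x.1 y.1 : ℚ) * v y := by
      intro y
      rw [hVs y]
      unfold cart
      by_cases hxy : x = y
      · rw [if_pos hxy, if_pos (congrArg Subtype.val hxy)]
        push_cast
        ring
      · have hxy' : x.1 ≠ y.1 := fun h => hxy (Subtype.ext h)
        rw [if_neg hxy, if_neg hxy']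
        push_cast
        ring
    rw [Finset.sum_congr rfl (fun y _ => h3 y), Finset.sum_sub_distrib, Finset.sum_ite_eq,
      if_pos (Finset.mem_univ x)]
    push_cast
    rfl
  have h4 : ∑ i ∈ A, V i * cqN a A V i =
      ((∑ x, v x * Pool.H88.KA.cZ (aN a A) v x : ℤ) : ℚ) := by
    rw [← Finset.sum_coe_sort A (fun i => V i * cqN a A V i)]
    push_cast
    exact Finset.sum_congr rfl (fun x _ => by rw [hVs x, h2 x])
  rw [h4] at h1
  exact_mod_cast h1

theorem conn_of {a : I → I → ℕ} {A : Finset I} (hC : ConnS a A) :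
    ∀ S : Finset {x // x ∈ A}, S.Nonempty → S ≠ Finset.univ →
      ∃ i ∈ S, ∃ j, j ∉ S ∧ 0 < aN a A i j := by
  intro S hS hne
  have hne' : S.map (Function.Embedding.subtype _) ≠ A := by
    intro h
    apply hne
    ext x
    simp only [Finset.mem_univ, iff_true]
    have h2 : x.1 ∈ S.map (Function.Embedding.subtype _) := by
      rw [h]
      exact x.2
    obtain ⟨y, hy, hyx⟩ := Finset.mem_map.1 h2
    have h3 : y = x := Subtype.ext hyx
    exact h3 ▸ hy
  have h1 := hC.2 (S.map (Function.Embedding.subtype _)) (fun x hx => by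
    obtain ⟨y, _, rfl⟩ := Finset.mem_map.1 hx
    exact y.2) (Finset.Nonempty.map hS) hne'
  obtain ⟨i, hi, j, hjA, hj, hij⟩ := h1
  obtain ⟨i', hi', rfl⟩ := Finset.mem_map.1 hi
  refine ⟨i', hi', ⟨j, hjA⟩, fun h => hj ?_, hij⟩
  exact Finset.mem_map.2 ⟨⟨j, hjA⟩, h, rfl⟩

/-- everything for one finite type set. -/
structure OneD (a : I → I → ℕ) (A : Finset I) (m : ℕ) (e : ℕ → {x // x ∈ A} → ℤ) (ε : I → ℤ) :
    Prop where
  ke : Pool.H88.KA.KE (aN a A) m 1 e
  pm : ∀ x, ε x = 1 ∨ ε x = -1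
  sgn : ∀ x (hx : x ∈ A), ε x = (-1) ^ Se e m ⟨x, hx⟩
  prod : ∀ x ∈ A, ∏ y ∈ A, ε y ^ a x y = 1
  integral : ∀ q : I → ℚ, (∀ x ∈ A, IsZ (cqN a A q x)) → ∀ x ∈ A, IsZ (m * q x)
  rv : ∀ (s : ℕ) (q : I → ℚ), QOk a A q → ∀ T : Trm I, RReg A T →
    ∀ y ∈ A, ∀ l, s + 1 ≤ l → l + 1 ≤ s + m → 1 ≤ T.E (y, l) → TV a (tauT a A s q T) = 0
  cr : ∀ (k : ℕ) (q : I → ℚ) (n : I → ℕ), (∀ x ∈ A, 1 ≤ n x) → (∀ x ∈ A, cqN a A q x = n x) →
    ∀ T : Trm I, RReg A T → m ≤ k →
    TV a (upT a A k q T) = ((∏ x ∈ A, ε x ^ n x : ℤ) : ℚ) * TV a (tauT a A (k - m) q T)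
  cr0 : ∀ (k : ℕ) (q : I → ℚ), QOk a A q → ∀ T : Trm I, RReg A T →
    1 ≤ k → k < m → TV a (upT a A k q T) = 0

theorem IsZ_add {u v : ℚ} (hu : IsZ u) (hv : IsZ v) : IsZ (u + v) := by
  obtain ⟨m, rfl⟩ := hu
  obtain ⟨n, rfl⟩ := hv
  exact ⟨m + n, by push_cast; ring⟩

theorem IsZ_mul {u v : ℚ} (hu : IsZ u) (hv : IsZ v) : IsZ (u * v) := by
  obtain ⟨m, rfl⟩ := hu
  obtain ⟨n, rfl⟩ := hv
  exact ⟨m * n, by push_cast; ring⟩

theorem IsZ_sum {ι : Type} (s : Finset ι) (f : ι → ℚ) (h : ∀ i ∈ s, IsZ (f i)) :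
    IsZ (∑ i ∈ s, f i) := by
  classical
  induction s using Finset.induction_on with
  | empty => exact ⟨0, by simp⟩
  | insert i s hi ih =>
    rw [Finset.sum_insert hi]
    exact IsZ_add (h i (Finset.mem_insert_self i s))
      (ih (fun j hj => h j (Finset.mem_insert_of_mem hj)))

theorem oneD_exists {a : I → I → ℕ} (hs : ∀ i j, a i j = a j i) {A : Finset I} (hF : FinT a A)
    (hC : ConnS a A) : ∃ m e ε, OneD a A m e ε := by
  classical
  have H := hyp_of hs hF
  have hsN : ∀ x y, aN a A x y = aN a A y x := fun x y => hs x.1 y.1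
  have : Nonempty {x // x ∈ A} := by
    obtain ⟨x, hx⟩ := hC.1
    exact ⟨⟨x, hx⟩⟩
  obtain ⟨m, e, he⟩ := Pool.H88.KA.KE_exists (pd_of hF) hsN (conn_of hC)
  obtain ⟨o, ho⟩ := Pool.H88.KA.knit_of_KE (pd_of hF) he
  obtain ⟨ε, R, h1, h2, h3, h4, h5⟩ := LL_run H ho
  refine ⟨m, e, ε, he, h1, fun x hx => ?_, h2, ?_, ?_, ?_, ?_⟩
  · rw [h3 x hx, sg_eq he m le_rfl]
  · intro q hq z hz
    rw [hq_eq hs h4 q z hz]
    exact IsZ_sum _ _ (fun x hx => IsZ_mul (hq x hx) ⟨(R x z : ℤ), by push_cast; rfl⟩)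
  · intro s q hq T hT y hy l hl1 hl2 hE
    obtain ⟨M, f1, -, -, -⟩ := h5 s
    have hq' : ∀ x, ∃ n : ℕ, x ∈ A → 1 ≤ n ∧ cqN a A q x = n := by
      intro x
      by_cases hx : x ∈ A
      · obtain ⟨n, hn⟩ := hq x hx
        exact ⟨n, fun _ => hn⟩
      · exact ⟨0, fun h => absurd h hx⟩
    choose n hn using hq'
    exact rv_A H f1 q n (fun x hx => (hn x hx).1) (fun x hx => (hn x hx).2) T hT y hy l hl1 hl2 hE
  · intro k q n hn1 hn T hT hk
    obtain ⟨b, rfl⟩ : ∃ b, k = b + m := ⟨k - m, by omega⟩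
    obtain ⟨M, f1, f2, b1, b2⟩ := h5 b
    have e1 : b + m - m = b := by omega
    rw [e1]
    exact cr_A H ⟨he.two_le, h1, h4, f1, f2, b1, b2⟩ q n hn1 hn T hT
  · intro k q hq T hT hk1 hk2
    obtain ⟨M, hM⟩ := LL_short H ho hC.1 k hk1 hk2
    have hq' : ∀ x, ∃ n : ℕ, x ∈ A → 1 ≤ n ∧ cqN a A q x = n := by
      intro x
      by_cases hx : x ∈ A
      · obtain ⟨n, hn⟩ := hq x hx
        exact ⟨n, fun _ => hn⟩
      · exact ⟨0, fun h => absurd h hx⟩
    choose n hn using hq'
    exact cr0_A H hM q n (fun x hx => (hn x hx).1) (fun x hx => (hn x hx).2) T hT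

/-- the sign of a class. -/
noncomputable def epsF (a : I → I → ℕ) (A : Finset I) (ε : I → ℤ) (q : I → ℚ) : ℚ :=
  ∏ x ∈ A, ((ε x : ℤ) : ℚ) ^ ⌊cqN a A q x⌋

open Classical in
/-- the sign, all cases. -/
noncomputable def epsG (a : I → I → ℕ) (A : Finset I) (ε : I → ℤ) (q : I → ℚ) : ℚ :=
  if ∀ x ∈ A, IsZ (cqN a A q x) then epsF a A ε q else 1

theorem pm_zpow {u : ℚ} (hu : u = 1 ∨ u = -1) (n : ℤ) : u ^ n = 1 ∨ u ^ n = -1 := by
  rcases hu with rfl | rfl
  · left
    exact one_zpow n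
  · rcases Int.even_or_odd n with h | h
    · left
      exact h.neg_one_zpow
    · right
      exact h.neg_one_zpow

theorem pm_prod {ι : Type} (s : Finset ι) (f : ι → ℚ) (h : ∀ i ∈ s, f i = 1 ∨ f i = -1) :
    ∏ i ∈ s, f i = 1 ∨ ∏ i ∈ s, f i = -1 := by
  classical
  induction s using Finset.induction_on with
  | empty => left; simp
  | insert i s hi ih =>
    rw [Finset.prod_insert hi]
    rcases h i (Finset.mem_insert_self i s) with h1 | h1 <;>
      rcases ih (fun j hj => h j (Finset.mem_insert_of_mem hj)) with h2 | h2 <;>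
      rw [h1, h2] <;> norm_num

theorem epsG_pm {a : I → I → ℕ} {A : Finset I} {ε : I → ℤ} (h : ∀ x, ε x = 1 ∨ ε x = -1)
    (q : I → ℚ) : epsG a A ε q = 1 ∨ epsG a A ε q = -1 := by
  unfold epsG epsF
  split_ifs
  · refine pm_prod _ _ (fun x _ => pm_zpow ?_ _)
    rcases h x with h1 | h1 <;> rw [h1] <;> norm_num
  · left
    rfl

/-- `ε` is trivial on the root lattice. -/
theorem epsF_root {a : I → I → ℕ} (hs : ∀ i j, a i j = a j i) {A : Finset I} {ε : I → ℤ}
    (h : ∀ x, ε x = 1 ∨ ε x = -1) (hp : ∀ x ∈ A, ∏ y ∈ A, ε y ^ a x y = 1) (w : I → ℤ) :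
    ∏ x ∈ A, ((ε x : ℤ) : ℚ) ^ (∑ y ∈ A, cart a x y * w y) = 1 := by
  have h0 : ∀ x, ((ε x : ℤ) : ℚ) ≠ 0 := by
    intro x
    rcases h x with h1 | h1 <;> rw [h1] <;> norm_num
  have h1 : ∀ x ∈ A, ((ε x : ℤ) : ℚ) ^ (∑ y ∈ A, cart a x y * w y) =
      ∏ y ∈ A, (((ε x : ℤ) : ℚ) ^ a y x) ^ (w y) := by
    intro x _
    have h2 : ∀ s : Finset I, ((ε x : ℤ) : ℚ) ^ (∑ y ∈ s, cart a x y * w y) =
        ∏ y ∈ s, (((ε x : ℤ) : ℚ) ^ a y x) ^ (w y) := by
      intro s
      induction s using Finset.induction_on with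
      | empty => simp
      | insert y s hy ih =>
        rw [Finset.sum_insert hy, Finset.prod_insert hy, zpow_add₀ (h0 x), ih]
        congr 1
        rw [zpow_mul]
        congr 1
        unfold cart
        have h3 : ((ε x : ℤ) : ℚ) ^ (-(a x y : ℤ)) = ((ε x : ℤ) : ℚ) ^ (a x y) := by
          rw [zpow_neg, zpow_natCast]
          rcases h x with h4 | h4 <;> rw [h4]
          · norm_num
          · push_cast
            rcases Nat.even_or_odd (a x y) with h5 | h5
            · rw [h5.neg_one_pow]; norm_num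
            · rw [h5.neg_one_pow]; norm_num
        rw [hs y x]
        by_cases hxy : x = y
        · rw [if_pos hxy, sub_eq_add_neg, zpow_add₀ (h0 x), h3]
          rcases h x with h4 | h4 <;> rw [h4] <;> norm_num
        · rw [if_neg hxy, zero_sub, h3]
    exact h2 A
  rw [Finset.prod_congr rfl h1, Finset.prod_comm]
  refine Finset.prod_eq_one (fun y hy => ?_)
  rw [Finset.prod_zpow]
  have h2 : ∏ x ∈ A, ((ε x : ℤ) : ℚ) ^ a y x = 1 := by
    have := hp y hy
    exact_mod_cast congrArg (fun u : ℤ => (u : ℚ)) this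
  rw [h2, one_zpow]

theorem cqN_sub (a : I → I → ℕ) (A : Finset I) (q q' : I → ℚ) (x : I) :
    cqN a A q x = cqN a A q' x + cqN a A (fun y => q y - q' y) x := by
  unfold cqN
  rw [← Finset.sum_add_distrib]
  exact Finset.sum_congr rfl (fun y _ => by ring)

theorem IsZ_floor {u : ℚ} (h : IsZ u) : ((⌊u⌋ : ℤ) : ℚ) = u := by
  obtain ⟨n, rfl⟩ := h
  rw [Int.floor_intCast]

theorem cqN_Z {a : I → I → ℕ} {A : Finset I} {w : I → ℚ} (hw : ∀ x ∈ A, IsZ (w x)) (x : I) :
    cqN a A w x = ((∑ y ∈ A, cart a x y * ⌊w y⌋ : ℤ) : ℚ) := by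
  unfold cqN
  push_cast
  exact Finset.sum_congr rfl (fun y hy => by rw [IsZ_floor (hw y hy)])

theorem epsG_congr {a : I → I → ℕ} (hs : ∀ i j, a i j = a j i) {A : Finset I} {ε : I → ℤ}
    (h : ∀ x, ε x = 1 ∨ ε x = -1) (hp : ∀ x ∈ A, ∏ y ∈ A, ε y ^ a x y = 1) (q q' : I → ℚ)
    (hq : ∀ x ∈ A, IsZ (q x - q' x)) : epsG a A ε q = epsG a A ε q' := by
  classical
  have h0 : ∀ x, ((ε x : ℤ) : ℚ) ≠ 0 := by
    intro x
    rcases h x with h1 | h1 <;> rw [h1] <;> norm_num
  have hd : ∀ x, cqN a A (fun y => q y - q' y) x =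
      ((∑ y ∈ A, cart a x y * ⌊q y - q' y⌋ : ℤ) : ℚ) := fun x => cqN_Z hq x
  have hiff : (∀ x ∈ A, IsZ (cqN a A q x)) ↔ ∀ x ∈ A, IsZ (cqN a A q' x) := by
    constructor
    · intro h1 x hx
      have h2 := h1 x hx
      rw [cqN_sub a A q q' x, hd x] at h2
      obtain ⟨n, hn⟩ := h2
      exact ⟨n - ∑ y ∈ A, cart a x y * ⌊q y - q' y⌋, by rw [Int.cast_sub, ← hn]; ring⟩
    · intro h1 x hx
      rw [cqN_sub a A q q' x, hd x]
      exact IsZ_add (h1 x hx) ⟨_, rfl⟩
  unfold epsG
  by_cases hZ : ∀ x ∈ A, IsZ (cqN a A q x)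
  · rw [if_pos hZ, if_pos (hiff.mp hZ)]
    unfold epsF
    have h1 : ∀ x ∈ A, ((ε x : ℤ) : ℚ) ^ ⌊cqN a A q x⌋ =
        ((ε x : ℤ) : ℚ) ^ ⌊cqN a A q' x⌋ *
          ((ε x : ℤ) : ℚ) ^ (∑ y ∈ A, cart a x y * ⌊q y - q' y⌋) := by
      intro x hx
      rw [← zpow_add₀ (h0 x)]
      congr 1
      rw [cqN_sub a A q q' x, hd x, Int.floor_add_intCast]
    rw [Finset.prod_congr rfl h1, Finset.prod_mul_distrib, epsF_root hs h hp, mul_one]
  · rw [if_neg hZ, if_neg (fun h' => hZ (hiff.mpr h'))]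

theorem epsG_nat {a : I → I → ℕ} {A : Finset I} {ε : I → ℤ} (q : I → ℚ) (n : I → ℕ)
    (hn : ∀ x ∈ A, cqN a A q x = n x) : epsG a A ε q = ((∏ x ∈ A, ε x ^ n x : ℤ) : ℚ) := by
  unfold epsG epsF
  rw [if_pos (fun x hx => ⟨(n x : ℤ), by rw [hn x hx]; push_cast; rfl⟩)]
  push_cast
  refine Finset.prod_congr rfl (fun x hx => ?_)
  rw [hn x hx, Int.floor_natCast, zpow_natCast]

end Pool.Agent.H10.KAC

end

section

/-!
Run lemma, module 18: existence of the crossing data (mm = the `KE` number = Coxeter number,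
eps q = (-1)^(2 * sum of q)).
-/

set_option autoImplicit false
set_option maxHeartbeats 400000

namespace Pool.Agent.H10.KAC

open scoped BigOperators
open Pool.Agent.H46.KA Pool.Agent.H27.KAC

variable {I : Type} [Fintype I] [DecidableEq I]

theorem prod_neg_one (s : Finset I) (S : I → ℕ) (z : I → ℤ) :
    ∏ x ∈ s, (((-1 : ℚ) ^ S x) ^ z x) = (-1) ^ (∑ x ∈ s, (S x : ℤ) * z x) := by
  induction s using Finset.induction_on with
  | empty => simp
  | insert x s hx ih =>
    rw [Finset.prod_insert hx, Finset.sum_insert hx, zpow_add₀ (by norm_num), ih]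
    congr 1
    rw [zpow_mul, zpow_natCast]

theorem OneD.eps_formula {a : I → I → ℕ} (hs : ∀ i j, a i j = a j i) {A : Finset I} {m : ℕ}
    {e : ℕ → {x // x ∈ A} → ℤ} {ε : I → ℤ} (D : OneD a A m e ε) (q : I → ℚ)
    (hq : ∀ x ∈ A, IsZ (cqN a A q x)) :
    ∃ n : ℤ, 2 * ∑ x ∈ A, q x = n ∧ epsG a A ε q = (-1) ^ n := by
  classical
  obtain ⟨S, hS⟩ : ∃ S : I → ℕ, S = fun x => if hx : x ∈ A then Se e m ⟨x, hx⟩ else 0 := ⟨_, rfl⟩
  have hSx : ∀ x (hx : x ∈ A), S x = Se e m ⟨x, hx⟩ := fun x hx => by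
    rw [hS]
    simp only [dif_pos hx]
  have hlast : ∀ x ∈ A, ∑ y ∈ A, a x y * S y + 2 = 2 * S x := by
    intro x hx
    have h1 := Se_last (fun x y => hs x.1 y.1) D.ke ⟨x, hx⟩
    rw [hSx x hx, ← h1]
    congr 1
    rw [← Finset.sum_coe_sort A (fun y => a x y * S y)]
    exact Finset.sum_congr rfl (fun y _ => by rw [hSx y.1 y.2]; rfl)
  refine ⟨∑ x ∈ A, (S x : ℤ) * ⌊cqN a A q x⌋, ?_, ?_⟩
  · push_cast
    have h1 : ∀ x ∈ A, (S x : ℚ) * ((⌊cqN a A q x⌋ : ℤ) : ℚ) =
        ∑ y ∈ A, (cart a x y : ℚ) * S x * q y := by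
      intro x hx
      rw [IsZ_floor (hq x hx)]
      unfold cqN
      rw [Finset.mul_sum]
      exact Finset.sum_congr rfl (fun y _ => by ring)
    rw [Finset.sum_congr rfl h1, Finset.sum_comm, Finset.mul_sum]
    refine Finset.sum_congr rfl (fun y hy => ?_)
    rw [← Finset.sum_mul]
    congr 1
    have h2 : ∀ x ∈ A, (cart a x y : ℚ) * S x =
        (if x = y then 2 * (S x : ℚ) else 0) - (a y x : ℚ) * S x := by
      intro x _
      unfold cart
      rw [hs y x]
      by_cases hxy : x = y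
      · rw [if_pos hxy, if_pos hxy]
        push_cast
        ring
      · rw [if_neg hxy, if_neg hxy]
        push_cast
        ring
    rw [Finset.sum_congr rfl h2, Finset.sum_sub_distrib, Finset.sum_ite_eq' A y, if_pos hy]
    have h3 : (((∑ x ∈ A, a y x * S x + 2 : ℕ)) : ℚ) = ((2 * S y : ℕ) : ℚ) := by
      rw [hlast y hy]
    push_cast at h3
    linarith
  · unfold epsG epsF
    rw [if_pos hq, ← prod_neg_one]
    refine Finset.prod_congr rfl (fun x hx => ?_)
    rw [D.sgn x hx, hSx x hx]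
    push_cast
    rfl

/-- Existence of the crossing data. -/
theorem crossData_exists (a : I → I → ℕ) (hs : ∀ i j, a i j = a j i) :
    ∃ cd : CrossData a,
      (∀ A, FinT a A → ConnS a A → ∃ e, Pool.H88.KA.KE (aN a A) (cd.mm A) 1 e) ∧
      (∀ A, FinT a A → ConnS a A → ∃ o, Knit (aN a A) (cd.mm A) o) ∧
      (∀ A, FinT a A → ConnS a A → ∀ q : I → ℚ, (∀ x ∈ A, IsZ (cqN a A q x)) →
        ∃ n : ℤ, 2 * ∑ x ∈ A, q x = n ∧ cd.eps A q = (-1) ^ n) ∧
      (∀ A, ∀ q : I → ℚ, (∀ x ∈ A, IsZ (q x)) → cd.eps A q = 1) := by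
  classical
  have key : ∀ A : Finset I, ∃ (m : ℕ) (ε : I → ℤ),
      (FinT a A → ConnS a A → ∃ e, OneD a A m e ε) ∧
      (¬(FinT a A ∧ ConnS a A) → m = 2 ∧ ε = fun _ => 1) := by
    intro A
    by_cases h : FinT a A ∧ ConnS a A
    · obtain ⟨m, e, ε, D⟩ := oneD_exists hs h.1 h.2
      exact ⟨m, ε, fun _ _ => ⟨e, D⟩, fun h' => absurd h h'⟩
    · exact ⟨2, fun _ => 1, fun h1 h2 => absurd ⟨h1, h2⟩ h, fun _ => ⟨rfl, rfl⟩⟩
  choose mm ε h1 h2 using key
  have hpm : ∀ A x, ε A x = 1 ∨ ε A x = -1 := by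
    intro A x
    by_cases h : FinT a A ∧ ConnS a A
    · obtain ⟨e, D⟩ := h1 A h.1 h.2
      exact D.pm x
    · left
      rw [(h2 A h).2]
  have hprod : ∀ A, ∀ x ∈ A, ∏ y ∈ A, ε A y ^ a x y = 1 := by
    intro A x hx
    by_cases h : FinT a A ∧ ConnS a A
    · obtain ⟨e, D⟩ := h1 A h.1 h.2
      exact D.prod x hx
    · rw [(h2 A h).2]
      exact Finset.prod_eq_one (fun y _ => one_pow _)
  have hcongr : ∀ A (q q' : I → ℚ), (∀ x ∈ A, IsZ (q x - q' x)) →
      epsG a A (ε A) q = epsG a A (ε A) q' := fun A q q' hq =>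
    epsG_congr hs (hpm A) (hprod A) q q' hq
  refine ⟨⟨mm, fun A q => epsG a A (ε A) q, ?_, fun A q => epsG_pm (hpm A) q, hcongr, ?_, ?_,
    ?_, ?_⟩, ?_, ?_, ?_, ?_⟩
  · intro A
    by_cases h : FinT a A ∧ ConnS a A
    · obtain ⟨e, D⟩ := h1 A h.1 h.2
      exact D.ke.two_le
    · rw [(h2 A h).1]
  · intro A q hF hC hq
    obtain ⟨e, D⟩ := h1 A hF hC
    exact D.integral q hq
  · intro A hF hC s q hq T hT y hy l hl1 hl2 hE
    obtain ⟨e, D⟩ := h1 A hF hC
    exact D.rv s q hq T hT y hy l hl1 hl2 hE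
  · intro A hF hC k q hq T hT hk
    obtain ⟨e, D⟩ := h1 A hF hC
    have hq' : ∀ x, ∃ n : ℕ, x ∈ A → 1 ≤ n ∧ cqN a A q x = n := by
      intro x
      by_cases hx : x ∈ A
      · obtain ⟨n, hn⟩ := hq x hx
        exact ⟨n, fun _ => hn⟩
      · exact ⟨0, fun h => absurd h hx⟩
    choose n hn using hq'
    rw [D.cr k q n (fun x hx => (hn x hx).1) (fun x hx => (hn x hx).2) T hT hk,
      epsG_nat q n (fun x hx => (hn x hx).2)]
  · intro A hF hC k q hq T hT hk1 hk2
    obtain ⟨e, D⟩ := h1 A hF hC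
    exact D.cr0 k q hq T hT hk1 hk2
  · intro A hF hC
    obtain ⟨e, D⟩ := h1 A hF hC
    exact ⟨e, D.ke⟩
  · intro A hF hC
    obtain ⟨e, D⟩ := h1 A hF hC
    exact Pool.H88.KA.knit_of_KE (pd_of hF) D.ke
  · intro A hF hC q hq
    obtain ⟨e, D⟩ := h1 A hF hC
    exact D.eps_formula hs q hq
  · intro A q hq
    change epsG a A (ε A) q = 1
    rw [hcongr A q (fun _ => 0) (fun x hx => by rw [sub_zero]; exact hq x hx),
      epsG_nat (fun _ => 0) (fun _ => 0) (fun x _ => by unfold cqN; simp)]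
    simp

end Pool.Agent.H10.KAC

end

section

/-!
KAC ADE: crossing data with nonnegative response numbers exist.
-/

set_option autoImplicit false

namespace Pool.H88.Num

open scoped BigOperators
open Pool.Agent.H27.KAC

theorem cnn_of {I : Type} [Fintype I] [DecidableEq I] (a : I → I → ℕ)
    (hs : ∀ i j, a i j = a j i) :
    ∃ cd : CrossData a, ∀ N q g, FinT a N → ConnS a N → WtL a N q → 0 ≤ cn a cd N q g := by
  obtain ⟨cd, h1, _, h3, h4⟩ := Pool.Agent.H10.KAC.crossData_exists a hs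
  have hmm : Pool.H88.KA.MMok a cd := by
    intro A hA hc
    obtain ⟨e, he⟩ := h1 A hA hc
    exact ⟨1, e, he⟩
  refine ⟨cd, fun N q g hN hc hq => ?_⟩
  exact cn_nonneg hs cd hmm (rtnum a hs cd) h4 (E1_of hs hmm h3) hN hc hq g

end Pool.H88.Num

end

section

/-!
KAC ADE: the final input of the cluster calculus.
-/

set_option autoImplicit false

namespace Pool.Agent.H27.KAC

/-- the cluster calculus exists for every symmetric `a` (crossing data with nonnegative response numbers). -/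
theorem allCal : Pool.Agent.H40.KADE.AllCal :=
  Pool.Agent.H46.AH.allCal_of (fun I _ _ a hs _ => by
    obtain ⟨cd, h⟩ := Pool.H88.Num.cnn_of a hs
    refine ⟨cd, fun N q g hF => ?_⟩
    obtain ⟨h1, h2, h3⟩ := (Pool.Agent.H40.KADE.FTC_iff a hs N q).1 hF
    exact h N q g h1 h2 h3)

end Pool.Agent.H27.KAC

end
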